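import Pool.Agent.Strip051.G.I9688_9736.Gn
import Pool.Agent.Strip051.PB.Corns
import Pool.Agent.Strip051.PB.CornW

/-! # Certificates of the aligned corners (generated) -/

set_option linter.all false

namespace Pool.Agent.Strip051.G.I9688_9736.Tab.CG

open Pool.Agent.Strip051.PB

def A011E_000 :
    ∃ t, chk3 (onCell 0 26843545 0 1073741824 1040187392 5207648 (corT true 1 c0B cA011E gB0q0 gB0q1 gB0q1 gB1q1 true false)) t 1 1 1 = true :=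
  ⟨(T.l 1), by decide +kernel⟩

def A011L_002 :
    ∃ t, chk3 (onCell 0 26843545 0 1073741824 1040187392 5207648 (corT true 1 c0B cA011L gB0q0 gB0q1 gB2q1 gB3q1 false true)) t 1 1 1 = true :=
  ⟨(T.l 2), by decide +kernel⟩

def A011L_003 :
    ∃ t, chk3 (onCell 0 26843545 0 1073741824 1040187392 5207648 (corT true 1 c0B cA011L gB0q0 gB0q1 gB3q1 gB4q1 true true)) t 1 1 1 = true :=
  ⟨(T.l 2), by decide +kernel⟩

def A011L_004 :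
    ∃ t, chk3 (onCell 0 26843545 0 1073741824 1040187392 5207648 (corT true 1 c0B cA011L gB0q0 gB0q1 gB4q1 gB5q1 true true)) t 1 1 1 = true :=
  ⟨(T.l 2), by decide +kernel⟩

def A011R_030 :
    ∃ t, chk3 (onCell 0 26843545 0 1073741824 1040187392 5207648 (corT true 1 c0B cA011R gB0q0 gB3q1 gB0q1 gB1q1 true false)) t 1 1 1 = true :=
  ⟨(T.b (T.b (T.b (T.b (T.b (T.a (T.l 816) (T.a (T.l 816) (T.l 816))) (T.l 1)) (T.l 1)) (T.l 1)) (T.l 1)) (T.l 1)), by decide +kernel⟩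

def A011R_040 :
    ∃ t, chk3 (onCell 0 26843545 0 1073741824 1040187392 5207648 (corT true 1 c0B cA011R gB0q0 gB4q1 gB0q1 gB1q1 true false)) t 1 1 1 = true :=
  ⟨(T.b (T.b (T.a (T.l 0) (T.b (T.l 0) (T.a (T.b (T.l 0) (T.l 0)) (T.l 0)))) (T.l 1)) (T.l 1)), by decide +kernel⟩

def A011R_050 :
    ∃ t, chk3 (onCell 0 22369621 0 1073741824 1040187392 5207648 (corX 1 c0B cA011R tA011R gB0q0 gB5q1 gB0q1 gB1q1 gB0q1 true false)) t 1 1 1 = true :=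
  ⟨(T.b (T.a (T.l 207) (T.b (T.a (T.l 204) (T.b (T.l 0) (T.l 0))) (T.b (T.b (T.l 204) (T.l 207)) (T.l 1)))) (T.l 1)), by decide +kernel⟩

def A011R_130 :
    ∃ t, chk3 (onCell 0 26843545 0 1073741824 1040187392 5207648 (corT true 1 c0B cA011R gB1q0 gB3q1 gB0q1 gB1q1 true false)) t 1 1 1 = true :=
  ⟨(T.l 1), by decide +kernel⟩

def A011R_140 :
    ∃ t, chk3 (onCell 0 26843545 0 1073741824 1040187392 5207648 (corT true 1 c0B cA011R gB1q0 gB4q1 gB0q1 gB1q1 true false)) t 1 1 1 = true :=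
  ⟨(T.b (T.b (T.l 1) (T.l 1)) (T.l 1)), by decide +kernel⟩

def A011R_150 :
    ∃ t, chk3 (onCell 0 26843545 0 1073741824 1040187392 5207648 (corT true 1 c0B cA011R gB1q0 gB5q1 gB0q1 gB1q1 true false)) t 1 1 1 = true :=
  ⟨(T.b (T.b (T.b (T.a (T.a (T.a (T.l 816) (T.l 0)) (T.l 0)) (T.l 0)) (T.l 1)) (T.l 1)) (T.l 1)), by decide +kernel⟩

def A011R_230 :
    ∃ t, chk3 (onCell 0 26843545 0 1073741824 1040187392 5207648 (corT true 1 c0B cA011R gB2q0 gB3q1 gB0q1 gB1q1 true false)) t 1 1 1 = true :=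
  ⟨(T.l 1), by decide +kernel⟩

def A011R_240 :
    ∃ t, chk3 (onCell 0 26843545 0 1073741824 1040187392 5207648 (corT true 1 c0B cA011R gB2q0 gB4q1 gB0q1 gB1q1 true false)) t 1 1 1 = true :=
  ⟨(T.l 1), by decide +kernel⟩

def A011R_250 :
    ∃ t, chk3 (onCell 0 26843545 0 1073741824 1040187392 5207648 (corT true 1 c0B cA011R gB2q0 gB5q1 gB0q1 gB1q1 true false)) t 1 1 1 = true :=
  ⟨(T.l 1), by decide +kernel⟩

def A012E_000 :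
    ∃ t, chk3 (onCell 0 16777216 0 1073741824 1040187392 5207648 (corX 1 c0B cA012E tA012E gB0q0 gB0q1 gB0q2 gB1q2 gB0q2 true true)) t 1 1 1 = true :=
  ⟨(T.b (T.b (T.l 1) (T.b (T.l 1) (T.b (T.l 1) (T.b (T.l 1) (T.a (T.l 819) (T.b (T.l 1) (T.l 819))))))) (T.b (T.b (T.a (T.a (T.b (T.l 819) (T.l 819)) (T.l 819)) (T.a (T.l 819) (T.b (T.a (T.l 819) (T.b (T.a (T.l 819) (T.b (T.a (T.l 819) (T.b (T.a (T.l 819) (T.b (T.l 816) (T.l 816))) (T.b (T.l 816) (T.l 816)))) (T.a (T.b (T.l 816) (T.l 816)) (T.b (T.l 816) (T.l 816))))) (T.a (T.b (T.a (T.l 819) (T.l 816)) (T.b (T.l 816) (T.l 816))) (T.b (T.b (T.l 816) (T.l 816)) (T.b (T.l 816) (T.l 816)))))) (T.b (T.b (T.b (T.a (T.l 819) (T.a (T.l 816) (T.l 816))) (T.l 2)) (T.l 2)) (T.l 2))))) (T.l 2)) (T.l 2))), by decide +kernel⟩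

def A012E_001 :
    ∃ t, chk3 (onCell 0 16777216 0 1073741824 1040187392 5207648 (corT true 1 c0B cA012E gB0q0 gB0q1 gB1q2 gB2q2 true true)) t 1 1 1 = true :=
  ⟨(T.b (T.l 1) (T.b (T.b (T.b (T.l 1) (T.b (T.b (T.a (T.b (T.b (T.l 1) (T.b (T.l 1) (T.a (T.l 816) (T.l 816)))) (T.a (T.l 816) (T.l 816))) (T.l 816)) (T.l 816)) (T.l 816))) (T.b (T.l 816) (T.l 816))) (T.l 2))), by decide +kernel⟩

def A012E_002 :
    ∃ t, chk3 (onCell 0 16777216 0 1073741824 1040187392 5207648 (corT true 1 c0B cA012E gB0q0 gB0q1 gB2q2 gB3q2 true false)) t 1 1 1 = true :=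
  ⟨(T.b (T.l 1) (T.b (T.b (T.l 1) (T.b (T.l 1) (T.l 816))) (T.l 816))), by decide +kernel⟩

def A012L_004 :
    ∃ t, chk3 (onCell 0 26843545 0 1073741824 1040187392 5207648 (corT true 1 c0B cA012L gB0q0 gB0q1 gB4q2 gB5q2 false true)) t 1 1 1 = true :=
  ⟨(T.l 2), by decide +kernel⟩

def A012R_030 :
    ∃ t, chk3 (onCell 0 26843545 0 1073741824 1040187392 5207648 (corT true 1 c0B cA012R gB0q0 gB3q1 gB0q2 gB1q2 true true)) t 1 1 1 = true :=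
  ⟨(T.b (T.b (T.l 2) (T.l 2)) (T.l 2)), by decide +kernel⟩

def A012R_031 :
    ∃ t, chk3 (onCell 0 26843545 0 1073741824 1040187392 5207648 (corT true 1 c0B cA012R gB0q0 gB3q1 gB1q2 gB2q2 true true)) t 1 1 1 = true :=
  ⟨(T.b (T.l 2) (T.l 2)), by decide +kernel⟩

def A012R_032 :
    ∃ t, chk3 (onCell 0 26843545 0 1073741824 1040187392 5207648 (corT true 1 c0B cA012R gB0q0 gB3q1 gB2q2 gB3q2 true false)) t 1 1 1 = true :=
  ⟨(T.a (T.b (T.l 816) (T.l 816)) (T.b (T.b (T.l 816) (T.l 816)) (T.b (T.l 816) (T.l 816)))), by decide +kernel⟩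

def A012R_040 :
    ∃ t, chk3 (onCell 0 26843545 0 1073741824 1040187392 5207648 (corT true 1 c0B cA012R gB0q0 gB4q1 gB0q2 gB1q2 true true)) t 1 1 1 = true :=
  ⟨(T.l 2), by decide +kernel⟩

def A012R_041 :
    ∃ t, chk3 (onCell 0 26843545 0 1073741824 1040187392 5207648 (corT true 1 c0B cA012R gB0q0 gB4q1 gB1q2 gB2q2 true true)) t 1 1 1 = true :=
  ⟨(T.l 2), by decide +kernel⟩

def A012R_042 :
    ∃ t, chk3 (onCell 0 26843545 0 1073741824 1040187392 5207648 (corT true 1 c0B cA012R gB0q0 gB4q1 gB2q2 gB3q2 true false)) t 1 1 1 = true :=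
  ⟨(T.a (T.l 816) (T.b (T.l 0) (T.b (T.l 816) (T.l 816)))), by decide +kernel⟩

def A012R_050 :
    ∃ t, chk3 (onCell 0 26843545 0 1073741824 1040187392 5207648 (corT true 1 c0B cA012R gB0q0 gB5q1 gB0q2 gB1q2 true true)) t 1 1 1 = true :=
  ⟨(T.l 2), by decide +kernel⟩

def A012R_051 :
    ∃ t, chk3 (onCell 0 26843545 0 1073741824 1040187392 5207648 (corT true 1 c0B cA012R gB0q0 gB5q1 gB1q2 gB2q2 true true)) t 1 1 1 = true :=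
  ⟨(T.l 2), by decide +kernel⟩

def A012R_052 :
    ∃ t, chk3 (onCell 0 26843545 0 1073741824 1040187392 5207648 (corT true 1 c0B cA012R gB0q0 gB5q1 gB2q2 gB3q2 true false)) t 1 1 1 = true :=
  ⟨(T.a (T.l 816) (T.b (T.b (T.a (T.l 816) (T.l 0)) (T.l 816)) (T.b (T.b (T.l 816) (T.l 816)) (T.l 816)))), by decide +kernel⟩

def A012R_130 :
    ∃ t, chk3 (onCell 0 26843545 0 1073741824 1040187392 5207648 (corT true 1 c0B cA012R gB1q0 gB3q1 gB0q2 gB1q2 true true)) t 1 1 1 = true :=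
  ⟨(T.b (T.b (T.a (T.a (T.a (T.l 816) (T.l 816)) (T.l 816)) (T.l 816)) (T.b (T.b (T.b (T.a (T.a (T.a (T.l 816) (T.l 816)) (T.l 816)) (T.l 816)) (T.a (T.a (T.a (T.l 816) (T.l 816)) (T.l 816)) (T.l 816))) (T.b (T.a (T.b (T.a (T.a (T.l 816) (T.l 816)) (T.l 816)) (T.l 2)) (T.l 2)) (T.l 2))) (T.l 2))) (T.l 2)), by decide +kernel⟩

def A012R_131 :
    ∃ t, chk3 (onCell 0 26843545 0 1073741824 1040187392 5207648 (corT true 1 c0B cA012R gB1q0 gB3q1 gB1q2 gB2q2 true true)) t 1 1 1 = true :=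
  ⟨(T.b (T.a (T.a (T.a (T.l 816) (T.l 816)) (T.l 816)) (T.l 816)) (T.b (T.b (T.a (T.a (T.a (T.l 816) (T.l 816)) (T.l 816)) (T.l 816)) (T.b (T.a (T.a (T.a (T.l 816) (T.l 816)) (T.l 816)) (T.l 816)) (T.a (T.b (T.a (T.a (T.l 816) (T.l 816)) (T.l 2)) (T.l 2)) (T.l 2)))) (T.l 2))), by decide +kernel⟩

def A012R_132 :
    ∃ t, chk3 (onCell 0 26843545 0 1073741824 1040187392 5207648 (corT true 1 c0B cA012R gB1q0 gB3q1 gB2q2 gB3q2 true false)) t 1 1 1 = true :=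
  ⟨(T.b (T.l 1) (T.b (T.a (T.a (T.a (T.l 816) (T.l 816)) (T.l 816)) (T.l 816)) (T.a (T.a (T.a (T.l 816) (T.l 816)) (T.l 816)) (T.l 816)))), by decide +kernel⟩

def A012R_140 :
    ∃ t, chk3 (onCell 0 26843545 0 1073741824 1040187392 5207648 (corT true 1 c0B cA012R gB1q0 gB4q1 gB0q2 gB1q2 true true)) t 1 1 1 = true :=
  ⟨(T.b (T.b (T.b (T.b (T.a (T.a (T.a (T.l 816) (T.l 0)) (T.l 0)) (T.l 0)) (T.l 2)) (T.l 2)) (T.l 2)) (T.l 2)), by decide +kernel⟩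

def A012R_141 :
    ∃ t, chk3 (onCell 0 26843545 0 1073741824 1040187392 5207648 (corT true 1 c0B cA012R gB1q0 gB4q1 gB1q2 gB2q2 true true)) t 1 1 1 = true :=
  ⟨(T.b (T.b (T.a (T.a (T.a (T.l 816) (T.l 0)) (T.l 0)) (T.l 0)) (T.l 2)) (T.l 2)), by decide +kernel⟩

def A012R_142 :
    ∃ t, chk3 (onCell 0 26843545 0 1073741824 1040187392 5207648 (corT true 1 c0B cA012R gB1q0 gB4q1 gB2q2 gB3q2 true false)) t 1 1 1 = true :=
  ⟨(T.b (T.a (T.a (T.a (T.l 816) (T.l 0)) (T.l 0)) (T.l 0)) (T.b (T.a (T.a (T.a (T.l 816) (T.l 816)) (T.l 816)) (T.l 816)) (T.a (T.a (T.a (T.l 816) (T.l 816)) (T.l 816)) (T.l 816)))), by decide +kernel⟩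

def A012R_150 :
    ∃ t, chk3 (onCell 0 26843545 0 1073741824 1040187392 5207648 (corT true 1 c0B cA012R gB1q0 gB5q1 gB0q2 gB1q2 true true)) t 1 1 1 = true :=
  ⟨(T.l 2), by decide +kernel⟩

def A012R_151 :
    ∃ t, chk3 (onCell 0 26843545 0 1073741824 1040187392 5207648 (corT true 1 c0B cA012R gB1q0 gB5q1 gB1q2 gB2q2 true true)) t 1 1 1 = true :=
  ⟨(T.l 2), by decide +kernel⟩

def A012R_152 :
    ∃ t, chk3 (onCell 0 26843545 0 1073741824 1040187392 5207648 (corT true 1 c0B cA012R gB1q0 gB5q1 gB2q2 gB3q2 true false)) t 1 1 1 = true :=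
  ⟨(T.b (T.b (T.a (T.a (T.a (T.l 816) (T.l 0)) (T.l 0)) (T.b (T.l 0) (T.l 816))) (T.a (T.a (T.a (T.l 816) (T.l 816)) (T.l 816)) (T.l 816))) (T.a (T.a (T.a (T.l 816) (T.l 816)) (T.l 816)) (T.b (T.l 816) (T.l 816)))), by decide +kernel⟩

def A012R_230 :
    ∃ t, chk3 (onCell 0 26843545 0 1073741824 1040187392 5207648 (corT true 1 c0B cA012R gB2q0 gB3q1 gB0q2 gB1q2 true true)) t 1 1 1 = true :=
  ⟨(T.b (T.l 1) (T.b (T.b (T.b (T.l 1) (T.a (T.a (T.l 1) (T.l 0)) (T.l 816))) (T.b (T.a (T.a (T.a (T.l 816) (T.l 816)) (T.l 0)) (T.l 0)) (T.a (T.a (T.a (T.l 816) (T.l 816)) (T.l 0)) (T.b (T.l 0) (T.l 0))))) (T.b (T.b (T.a (T.a (T.a (T.l 816) (T.l 816)) (T.l 0)) (T.a (T.l 816) (T.l 816))) (T.a (T.a (T.a (T.l 816) (T.l 816)) (T.l 0)) (T.a (T.l 816) (T.l 2)))) (T.l 2)))), by decide +kernel⟩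

def A012R_231 :
    ∃ t, chk3 (onCell 0 26843545 0 1073741824 1040187392 5207648 (corT true 1 c0B cA012R gB2q0 gB3q1 gB1q2 gB2q2 true true)) t 1 1 1 = true :=
  ⟨(T.b (T.l 1) (T.b (T.l 1) (T.b (T.a (T.a (T.a (T.l 816) (T.l 816)) (T.l 816)) (T.l 816)) (T.a (T.a (T.a (T.l 816) (T.l 816)) (T.l 816)) (T.l 816))))), by decide +kernel⟩

def A012R_232 :
    ∃ t, chk3 (onCell 0 26843545 0 1073741824 1040187392 5207648 (corT true 1 c0B cA012R gB2q0 gB3q1 gB2q2 gB3q2 true false)) t 1 1 1 = true :=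
  ⟨(T.l 1), by decide +kernel⟩

def A012R_240 :
    ∃ t, chk3 (onCell 0 26843545 0 1073741824 1040187392 5207648 (corT true 1 c0B cA012R gB2q0 gB4q1 gB0q2 gB1q2 true true)) t 1 1 1 = true :=
  ⟨(T.b (T.b (T.l 1) (T.b (T.l 1) (T.b (T.l 1) (T.a (T.l 1) (T.l 0))))) (T.b (T.b (T.b (T.a (T.a (T.a (T.l 816) (T.l 816)) (T.l 816)) (T.l 0)) (T.a (T.a (T.a (T.l 816) (T.l 816)) (T.l 0)) (T.l 0))) (T.b (T.a (T.a (T.a (T.l 816) (T.l 816)) (T.l 0)) (T.b (T.l 0) (T.l 0))) (T.a (T.a (T.a (T.l 816) (T.l 816)) (T.l 0)) (T.a (T.l 816) (T.l 816))))) (T.b (T.b (T.a (T.a (T.a (T.l 816) (T.l 816)) (T.l 0)) (T.a (T.l 816) (T.l 2))) (T.l 2)) (T.l 2)))), by decide +kernel⟩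

def A012R_241 :
    ∃ t, chk3 (onCell 0 26843545 0 1073741824 1040187392 5207648 (corT true 1 c0B cA012R gB2q0 gB4q1 gB1q2 gB2q2 true true)) t 1 1 1 = true :=
  ⟨(T.b (T.l 1) (T.b (T.b (T.l 1) (T.a (T.l 1) (T.l 816))) (T.b (T.a (T.a (T.a (T.l 816) (T.l 816)) (T.l 816)) (T.l 816)) (T.a (T.a (T.a (T.l 816) (T.l 816)) (T.l 816)) (T.l 816))))), by decide +kernel⟩

def A012R_242 :
    ∃ t, chk3 (onCell 0 26843545 0 1073741824 1040187392 5207648 (corT true 1 c0B cA012R gB2q0 gB4q1 gB2q2 gB3q2 true false)) t 1 1 1 = true :=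
  ⟨(T.l 1), by decide +kernel⟩

def A012R_250 :
    ∃ t, chk3 (onCell 0 26843545 0 1073741824 1040187392 5207648 (corT true 1 c0B cA012R gB2q0 gB5q1 gB0q2 gB1q2 true true)) t 1 1 1 = true :=
  ⟨(T.b (T.b (T.l 1) (T.b (T.l 1) (T.b (T.a (T.l 1) (T.l 0)) (T.a (T.a (T.a (T.l 816) (T.l 816)) (T.l 816)) (T.l 0))))) (T.b (T.b (T.b (T.a (T.a (T.a (T.l 816) (T.l 816)) (T.l 816)) (T.l 0)) (T.a (T.a (T.a (T.l 816) (T.l 816)) (T.l 0)) (T.l 0))) (T.b (T.a (T.a (T.a (T.l 816) (T.l 816)) (T.l 0)) (T.b (T.l 0) (T.l 0))) (T.a (T.a (T.a (T.l 816) (T.l 816)) (T.l 0)) (T.a (T.l 816) (T.l 2))))) (T.b (T.b (T.a (T.b (T.a (T.a (T.l 816) (T.l 2)) (T.l 2)) (T.l 2)) (T.l 2)) (T.l 2)) (T.l 2)))), by decide +kernel⟩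

def A012R_251 :
    ∃ t, chk3 (onCell 0 26843545 0 1073741824 1040187392 5207648 (corT true 1 c0B cA012R gB2q0 gB5q1 gB1q2 gB2q2 true true)) t 1 1 1 = true :=
  ⟨(T.b (T.l 1) (T.b (T.b (T.l 1) (T.a (T.a (T.a (T.l 816) (T.l 816)) (T.l 816)) (T.l 816))) (T.b (T.a (T.a (T.a (T.l 816) (T.l 816)) (T.l 816)) (T.l 816)) (T.a (T.a (T.a (T.l 816) (T.l 816)) (T.l 816)) (T.l 816))))), by decide +kernel⟩

def A012R_252 :
    ∃ t, chk3 (onCell 0 26843545 0 1073741824 1040187392 5207648 (corT true 1 c0B cA012R gB2q0 gB5q1 gB2q2 gB3q2 true false)) t 1 1 1 = true :=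
  ⟨(T.l 1), by decide +kernel⟩

def A022E_000 :
    ∃ t, chk3 (onCell 0 22369621 0 1073741824 1040187392 5207648 (corT true 1 c0B cA022E gB0q0 gB0q2 gB0q2 gB1q2 true true)) t 1 1 1 = true :=
  ⟨(T.l 2), by decide +kernel⟩

def A022E_001 :
    ∃ t, chk3 (onCell 0 22369621 0 1073741824 1040187392 5207648 (corT true 1 c0B cA022E gB0q0 gB0q2 gB1q2 gB2q2 true true)) t 1 1 1 = true :=
  ⟨(T.l 2), by decide +kernel⟩

def A022E_002 :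
    ∃ t, chk3 (onCell 0 22369621 0 1073741824 1040187392 5207648 (corT true 1 c0B cA022E gB0q0 gB0q2 gB2q2 gB3q2 true false)) t 1 1 1 = true :=
  ⟨(T.b (T.b (T.a (T.a (T.l 204) (T.a (T.b (T.l 204) (T.l 204)) (T.b (T.a (T.b (T.l 204) (T.l 204)) (T.b (T.l 204) (T.l 204))) (T.b (T.l 204) (T.l 204))))) (T.a (T.b (T.a (T.b (T.b (T.l 204) (T.l 204)) (T.l 204)) (T.b (T.l 204) (T.l 204))) (T.a (T.b (T.l 204) (T.l 204)) (T.b (T.l 204) (T.l 204)))) (T.b (T.a (T.b (T.l 204) (T.l 204)) (T.b (T.a (T.l 204) (T.l 204)) (T.b (T.l 204) (T.l 204)))) (T.a (T.l 204) (T.b (T.l 204) (T.l 204)))))) (T.a (T.a (T.l 204) (T.a (T.l 204) (T.b (T.l 204) (T.l 204)))) (T.a (T.b (T.a (T.l 204) (T.l 204)) (T.b (T.l 204) (T.l 204))) (T.b (T.a (T.l 204) (T.l 204)) (T.b (T.l 204) (T.l 204)))))) (T.a (T.l 0) (T.b (T.b (T.a (T.b (T.l 204) (T.l 204)) (T.b (T.l 204) (T.l 0))) (T.a (T.l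 0) (T.b (T.l 0) (T.l 816)))) (T.a (T.l 816) (T.l 0))))), by decide +kernel⟩

def A022E_010 :
    ∃ t, chk3 (onCell 0 26843545 0 1073741824 1040187392 5207648 (corT true 1 c0B cA022E gB0q0 gB1q2 gB0q2 gB1q2 true true)) t 1 1 1 = true :=
  ⟨(T.l 2), by decide +kernel⟩

def A022E_011 :
    ∃ t, chk3 (onCell 0 26843545 0 1073741824 1040187392 5207648 (corT true 1 c0B cA022E gB0q0 gB1q2 gB1q2 gB2q2 true true)) t 1 1 1 = true :=
  ⟨(T.l 2), by decide +kernel⟩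

def A022E_012 :
    ∃ t, chk3 (onCell 0 26843545 0 1073741824 1040187392 5207648 (corT true 1 c0B cA022E gB0q0 gB1q2 gB2q2 gB3q2 true false)) t 1 1 1 = true :=
  ⟨(T.a (T.l 0) (T.b (T.b (T.a (T.a (T.l 204) (T.l 204)) (T.b (T.b (T.l 204) (T.l 204)) (T.l 204))) (T.a (T.l 204) (T.b (T.l 204) (T.l 204)))) (T.b (T.b (T.l 0) (T.l 0)) (T.a (T.l 0) (T.l 816))))), by decide +kernel⟩

def A022E_020 :
    ∃ t, chk3 (onCell 0 26843545 0 1073741824 1040187392 5207648 (corT true 1 c0B cA022E gB0q0 gB2q2 gB0q2 gB1q2 true true)) t 1 1 1 = true :=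
  ⟨(T.l 2), by decide +kernel⟩

def A022E_021 :
    ∃ t, chk3 (onCell 0 26843545 0 1073741824 1040187392 5207648 (corT true 1 c0B cA022E gB0q0 gB2q2 gB1q2 gB2q2 true true)) t 1 1 1 = true :=
  ⟨(T.l 2), by decide +kernel⟩

def A022E_022 :
    ∃ t, chk3 (onCell 0 26843545 0 1073741824 1040187392 5207648 (corT true 1 c0B cA022E gB0q0 gB2q2 gB2q2 gB3q2 true false)) t 1 1 1 = true :=
  ⟨(T.a (T.l 0) (T.b (T.b (T.b (T.l 0) (T.l 0)) (T.b (T.l 816) (T.l 816))) (T.b (T.b (T.l 816) (T.l 0)) (T.a (T.l 816) (T.l 816))))), by decide +kernel⟩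

def A022E_110 :
    ∃ t, chk3 (onCell 0 26843545 0 1073741824 1040187392 5207648 (corT true 1 c0B cA022E gB1q0 gB1q2 gB0q2 gB1q2 true true)) t 1 1 1 = true :=
  ⟨(T.l 2), by decide +kernel⟩

def A022E_111 :
    ∃ t, chk3 (onCell 0 26843545 0 1073741824 1040187392 5207648 (corT true 1 c0B cA022E gB1q0 gB1q2 gB1q2 gB2q2 true true)) t 1 1 1 = true :=
  ⟨(T.l 2), by decide +kernel⟩

def A022E_112 :
    ∃ t, chk3 (onCell 0 26843545 0 1073741824 1040187392 5207648 (corT true 1 c0B cA022E gB1q0 gB1q2 gB2q2 gB3q2 true false)) t 1 1 1 = true :=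
  ⟨(T.b (T.b (T.a (T.l 204) (T.b (T.a (T.b (T.l 204) (T.l 204)) (T.b (T.l 204) (T.l 204))) (T.a (T.l 204) (T.b (T.l 204) (T.l 204))))) (T.b (T.a (T.l 204) (T.a (T.l 204) (T.l 204))) (T.a (T.a (T.l 204) (T.l 0)) (T.b (T.l 0) (T.l 0))))) (T.b (T.a (T.a (T.l 0) (T.b (T.l 0) (T.l 0))) (T.b (T.l 0) (T.l 0))) (T.a (T.a (T.a (T.l 816) (T.b (T.l 0) (T.l 816))) (T.b (T.l 0) (T.l 816))) (T.b (T.l 0) (T.l 816))))), by decide +kernel⟩

def A022E_120 :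
    ∃ t, chk3 (onCell 0 26843545 0 1073741824 1040187392 5207648 (corT true 1 c0B cA022E gB1q0 gB2q2 gB0q2 gB1q2 true true)) t 1 1 1 = true :=
  ⟨(T.l 2), by decide +kernel⟩

def A022E_121 :
    ∃ t, chk3 (onCell 0 26843545 0 1073741824 1040187392 5207648 (corT true 1 c0B cA022E gB1q0 gB2q2 gB1q2 gB2q2 true true)) t 1 1 1 = true :=
  ⟨(T.l 2), by decide +kernel⟩

def A022E_122 :
    ∃ t, chk3 (onCell 0 26843545 0 1073741824 1040187392 5207648 (corT true 1 c0B cA022E gB1q0 gB2q2 gB2q2 gB3q2 true false)) t 1 1 1 = true :=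
  ⟨(T.b (T.b (T.a (T.l 0) (T.b (T.l 0) (T.b (T.l 0) (T.l 0)))) (T.a (T.a (T.l 816) (T.b (T.l 816) (T.l 0))) (T.b (T.b (T.l 0) (T.l 0)) (T.l 0)))) (T.b (T.a (T.a (T.l 816) (T.b (T.l 0) (T.l 0))) (T.b (T.l 0) (T.l 0))) (T.a (T.a (T.a (T.l 816) (T.b (T.l 816) (T.l 816))) (T.b (T.l 816) (T.l 816))) (T.b (T.l 816) (T.l 816))))), by decide +kernel⟩

def A022E_220 :
    ∃ t, chk3 (onCell 0 26843545 0 1073741824 1040187392 5207648 (corT true 1 c0B cA022E gB2q0 gB2q2 gB0q2 gB1q2 true true)) t 1 1 1 = true :=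
  ⟨(T.l 2), by decide +kernel⟩

def A022E_221 :
    ∃ t, chk3 (onCell 0 26843545 0 1073741824 1040187392 5207648 (corT true 1 c0B cA022E gB2q0 gB2q2 gB1q2 gB2q2 true true)) t 1 1 1 = true :=
  ⟨(T.l 2), by decide +kernel⟩

def A022E_222 :
    ∃ t, chk3 (onCell 0 26843545 0 1073741824 1040187392 5207648 (corT true 1 c0B cA022E gB2q0 gB2q2 gB2q2 gB3q2 true false)) t 1 1 1 = true :=
  ⟨(T.b (T.b (T.a (T.l 0) (T.b (T.l 0) (T.b (T.l 0) (T.l 0)))) (T.b (T.a (T.l 0) (T.b (T.l 0) (T.l 0))) (T.a (T.a (T.l 816) (T.l 0)) (T.b (T.l 0) (T.l 0))))) (T.b (T.a (T.a (T.l 816) (T.b (T.l 0) (T.l 0))) (T.b (T.l 0) (T.l 0))) (T.a (T.a (T.a (T.l 816) (T.b (T.l 0) (T.l 0))) (T.b (T.l 0) (T.l 0))) (T.b (T.l 0) (T.l 0))))), by decide +kernel⟩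

def A022L_004_1_4_1 :
    ∃ t, chk3 (onCell 0 22369621 0 1073741824 1040187392 5207648 (corX 1 c0B cA022L tA022L gB0q0 gB0q2 gB4q2 gB5q2 gB5q2 false true)) t 1 4 1 = true :=
  ⟨(T.b (T.a (T.a (T.l 207) (T.a (T.l 207) (T.a (T.b (T.b (T.l 204) (T.l 204)) (T.b (T.l 204) (T.l 204))) (T.b (T.b (T.l 204) (T.l 204)) (T.b (T.l 204) (T.l 204)))))) (T.a (T.a (T.a (T.b (T.l 204) (T.l 204)) (T.b (T.l 204) (T.l 204))) (T.a (T.b (T.l 204) (T.l 204)) (T.b (T.l 204) (T.l 204)))) (T.a (T.a (T.b (T.l 204) (T.l 204)) (T.b (T.l 204) (T.l 204))) (T.b (T.b (T.l 204) (T.l 204)) (T.b (T.l 204) (T.l 204)))))) (T.a (T.a (T.l 207) (T.a (T.l 207) (T.a (T.b (T.b (T.l 204) (T.l 207)) (T.l 207)) (T.b (T.b (T.l 204) (T.l 204)) (T.b (T.l 204) (T.l 204)))))) (T.a (T.a (T.a (T.b (T.b (T.l 204) (T.l 204)) (T.b (T.l 204) (T.l 204))) (T.b (T.l 204) (T.b (T.l 204) (T.l 204)))) (T.b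 (T.a (T.l 204) (T.l 204)) (T.a (T.l 204) (T.l 204)))) (T.a (T.b (T.b (T.l 204) (T.l 204)) (T.b (T.l 204) (T.l 204))) (T.b (T.b (T.l 204) (T.l 204)) (T.b (T.l 204) (T.l 204))))))), by decide +kernel⟩

def A022L_004_1_5_1 :
    ∃ t, chk3 (onCell 0 22369621 0 1073741824 1040187392 5207648 (corX 1 c0B cA022L tA022L gB0q0 gB0q2 gB4q2 gB5q2 gB5q2 false true)) t 1 5 1 = true :=
  ⟨(T.b (T.b (T.a (T.b (T.l 207) (T.l 207)) (T.a (T.a (T.a (T.b (T.l 204) (T.l 204)) (T.b (T.l 204) (T.l 204))) (T.a (T.b (T.l 204) (T.l 204)) (T.l 204))) (T.a (T.a (T.l 204) (T.l 204)) (T.b (T.l 204) (T.l 204))))) (T.a (T.l 207) (T.a (T.a (T.a (T.b (T.l 204) (T.l 207)) (T.b (T.l 204) (T.l 204))) (T.a (T.b (T.l 204) (T.l 204)) (T.b (T.l 204) (T.l 204)))) (T.a (T.a (T.l 204) (T.l 204)) (T.b (T.l 204) (T.l 204)))))) (T.a (T.l 207) (T.a (T.a (T.b (T.a (T.l 207) (T.b (T.l 204) (T.l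 207))) (T.l 207)) (T.b (T.a (T.b (T.l 204) (T.l 204)) (T.b (T.l 204) (T.l 204))) (T.a (T.b (T.l 204) (T.l 207)) (T.b (T.l 204) (T.l 204))))) (T.a (T.b (T.a (T.b (T.l 204) (T.l 204)) (T.b (T.l 204) (T.l 204))) (T.b (T.b (T.l 204) (T.l 204)) (T.a (T.l 204) (T.l 204)))) (T.b (T.a (T.b (T.l 204) (T.l 204)) (T.b (T.l 204) (T.l 204))) (T.b (T.b (T.l 204) (T.l 204)) (T.b (T.l 204) (T.l 204)))))))), by decide +kernel⟩

def A022L_004_1_3_1 :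
    ∃ t, chk3 (onCell 0 22369621 0 1073741824 1040187392 5207648 (corX 1 c0B cA022L tA022L gB0q0 gB0q2 gB4q2 gB5q2 gB5q2 false true)) t 1 3 1 = true :=
  ⟨(T.b (T.a (T.l 207) (T.b (T.a (T.b (T.l 207) (T.l 207)) (T.b (T.a (T.b (T.a (T.l 204) (T.l 204)) (T.a (T.b (T.l 204) (T.l 207)) (T.b (T.l 204) (T.l 204)))) (T.b (T.a (T.l 204) (T.l 204)) (T.a (T.b (T.l 204) (T.l 204)) (T.l 204)))) (T.a (T.b (T.a (T.l 207) (T.b (T.l 204) (T.l 207))) (T.l 207)) (T.b (T.a (T.b (T.l 204) (T.l 204)) (T.b (T.l 204) (T.l 204))) (T.a (T.b (T.l 204) (T.l 207)) (T.b (T.l 204) (T.b (T.l 204) (T.l 204)))))))) (T.b (T.b (T.l 207) (T.l 207)) (T.l 2)))) (T.l 2)), by decide +kernel⟩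

theorem A022L_004_1_2_1 :
    ∃ t, chk3 (onCell 0 22369621 0 1073741824 1040187392 5207648 (corX 1 c0B cA022L tA022L gB0q0 gB0q2 gB4q2 gB5q2 gB5q2 false true)) t 1 2 1 = true :=
  ex3_b A022L_004_1_4_1 A022L_004_1_5_1
theorem A022L_004 :
    ∃ t, chk3 (onCell 0 22369621 0 1073741824 1040187392 5207648 (corX 1 c0B cA022L tA022L gB0q0 gB0q2 gB4q2 gB5q2 gB5q2 false true)) t 1 1 1 = true :=
  ex3_b A022L_004_1_2_1 A022L_004_1_3_1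

def A022L_014 :
    ∃ t, chk3 (onCell 0 26843545 0 1073741824 1040187392 5207648 (corT true 1 c0B cA022L gB0q0 gB1q2 gB4q2 gB5q2 false true)) t 1 1 1 = true :=
  ⟨(T.b (T.a (T.l 204) (T.b (T.a (T.a (T.l 204) (T.l 204)) (T.b (T.l 204) (T.l 204))) (T.a (T.l 204) (T.b (T.l 204) (T.l 204))))) (T.b (T.b (T.b (T.a (T.l 204) (T.a (T.l 204) (T.l 204))) (T.l 2)) (T.l 2)) (T.l 2))), by decide +kernel⟩

def A022L_024 :
    ∃ t, chk3 (onCell 0 26843545 0 1073741824 1040187392 5207648 (corT true 1 c0B cA022L gB0q0 gB2q2 gB4q2 gB5q2 false true)) t 1 1 1 = true :=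
  ⟨(T.b (T.b (T.b (T.a (T.l 204) (T.l 204)) (T.l 2)) (T.l 2)) (T.l 2)), by decide +kernel⟩

def A022L_114 :
    ∃ t, chk3 (onCell 0 26843545 0 1073741824 1040187392 5207648 (corT true 1 c0B cA022L gB1q0 gB1q2 gB4q2 gB5q2 false true)) t 1 1 1 = true :=
  ⟨(T.b (T.b (T.a (T.l 204) (T.b (T.a (T.l 204) (T.l 204)) (T.a (T.l 204) (T.b (T.l 204) (T.l 204))))) (T.b (T.a (T.l 204) (T.a (T.l 0) (T.l 0))) (T.b (T.a (T.a (T.l 204) (T.l 0)) (T.l 0)) (T.l 2)))) (T.l 2)), by decide +kernel⟩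

def A022L_124 :
    ∃ t, chk3 (onCell 0 26843545 0 1073741824 1040187392 5207648 (corT true 1 c0B cA022L gB1q0 gB2q2 gB4q2 gB5q2 false true)) t 1 1 1 = true :=
  ⟨(T.b (T.b (T.b (T.a (T.l 204) (T.l 204)) (T.l 2)) (T.l 2)) (T.l 2)), by decide +kernel⟩

def A022L_224 :
    ∃ t, chk3 (onCell 0 26843545 0 1073741824 1040187392 5207648 (corT true 1 c0B cA022L gB2q0 gB2q2 gB4q2 gB5q2 false true)) t 1 1 1 = true :=
  ⟨(T.b (T.b (T.b (T.a (T.l 204) (T.l 204)) (T.l 2)) (T.l 2)) (T.l 2)), by decide +kernel⟩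

def A022R_050 :
    ∃ t, chk3 (onCell 0 26843545 0 1073741824 1040187392 5207648 (corT true 1 c0B cA022R gB0q0 gB5q2 gB0q2 gB1q2 true true)) t 1 1 1 = true :=
  ⟨(T.l 2), by decide +kernel⟩

def A022R_051 :
    ∃ t, chk3 (onCell 0 26843545 0 1073741824 1040187392 5207648 (corT true 1 c0B cA022R gB0q0 gB5q2 gB1q2 gB2q2 true true)) t 1 1 1 = true :=
  ⟨(T.l 2), by decide +kernel⟩

def A022R_052 :
    ∃ t, chk3 (onCell 0 26843545 0 1073741824 1040187392 5207648 (corT true 1 c0B cA022R gB0q0 gB5q2 gB2q2 gB3q2 true false)) t 1 1 1 = true :=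
  ⟨(T.a (T.l 0) (T.b (T.b (T.b (T.l 204) (T.l 204)) (T.l 204)) (T.b (T.l 0) (T.l 0)))), by decide +kernel⟩

def A022R_150 :
    ∃ t, chk3 (onCell 0 26843545 0 1073741824 1040187392 5207648 (corT true 1 c0B cA022R gB1q0 gB5q2 gB0q2 gB1q2 true true)) t 1 1 1 = true :=
  ⟨(T.l 2), by decide +kernel⟩

def A022R_151 :
    ∃ t, chk3 (onCell 0 26843545 0 1073741824 1040187392 5207648 (corT true 1 c0B cA022R gB1q0 gB5q2 gB1q2 gB2q2 true true)) t 1 1 1 = true :=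
  ⟨(T.b (T.l 2) (T.l 2)), by decide +kernel⟩

def A022R_152 :
    ∃ t, chk3 (onCell 0 26843545 0 1073741824 1040187392 5207648 (corT true 1 c0B cA022R gB1q0 gB5q2 gB2q2 gB3q2 true false)) t 1 1 1 = true :=
  ⟨(T.b (T.b (T.a (T.l 204) (T.b (T.l 204) (T.b (T.l 204) (T.l 204)))) (T.b (T.a (T.l 204) (T.l 0)) (T.a (T.a (T.l 204) (T.l 0)) (T.l 0)))) (T.b (T.a (T.a (T.l 0) (T.l 0)) (T.l 0)) (T.a (T.a (T.a (T.l 816) (T.l 0)) (T.l 0)) (T.l 0)))), by decide +kernel⟩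

def A022R_250 :
    ∃ t, chk3 (onCell 0 26843545 0 1073741824 1040187392 5207648 (corT true 1 c0B cA022R gB2q0 gB5q2 gB0q2 gB1q2 true true)) t 1 1 1 = true :=
  ⟨(T.l 2), by decide +kernel⟩

def A022R_251 :
    ∃ t, chk3 (onCell 0 26843545 0 1073741824 1040187392 5207648 (corT true 1 c0B cA022R gB2q0 gB5q2 gB1q2 gB2q2 true true)) t 1 1 1 = true :=
  ⟨(T.b (T.b (T.a (T.l 204) (T.a (T.l 204) (T.b (T.l 204) (T.l 204)))) (T.b (T.a (T.l 204) (T.b (T.l 0) (T.l 0))) (T.a (T.a (T.l 0) (T.l 0)) (T.b (T.l 0) (T.l 0))))) (T.b (T.b (T.a (T.a (T.l 0) (T.l 0)) (T.l 0)) (T.a (T.a (T.l 816) (T.l 0)) (T.l 0))) (T.a (T.a (T.a (T.l 816) (T.l 0)) (T.l 0)) (T.b (T.l 0) (T.l 0))))), by decide +kernel⟩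

def A022R_252 :
    ∃ t, chk3 (onCell 0 26843545 0 1073741824 1040187392 5207648 (corT true 1 c0B cA022R gB2q0 gB5q2 gB2q2 gB3q2 true false)) t 1 1 1 = true :=
  ⟨(T.b (T.b (T.b (T.a (T.l 204) (T.l 204)) (T.l 1)) (T.l 1)) (T.l 1)), by decide +kernel⟩

def A101E_000 :
    ∃ t, chk3 (onCell 0 26843545 0 1073741824 1040187392 5207648 (corT true 1 c0B cA101E gB0q1 gB0q0 gB0q1 gB1q1 true false)) t 1 1 1 = true :=
  ⟨(T.l 1), by decide +kernel⟩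

def A101E_010 :
    ∃ t, chk3 (onCell 0 26843545 0 1073741824 1040187392 5207648 (corT true 1 c0B cA101E gB0q1 gB1q0 gB0q1 gB1q1 true false)) t 1 1 1 = true :=
  ⟨(T.l 1), by decide +kernel⟩

def A101E_020 :
    ∃ t, chk3 (onCell 0 26843545 0 1073741824 1040187392 5207648 (corT true 1 c0B cA101E gB0q1 gB2q0 gB0q1 gB1q1 true false)) t 1 1 1 = true :=
  ⟨(T.l 1), by decide +kernel⟩

def A101R_002 :
    ∃ t, chk3 (onCell 0 26843545 0 1073741824 1040187392 5207648 (corT true 1 c0B cA101R gB0q1 gB0q0 gB2q1 gB3q1 false true)) t 1 1 1 = true :=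
  ⟨(T.l 2), by decide +kernel⟩

def A101R_003 :
    ∃ t, chk3 (onCell 0 26843545 0 1073741824 1040187392 5207648 (corT true 1 c0B cA101R gB0q1 gB0q0 gB3q1 gB4q1 true true)) t 1 1 1 = true :=
  ⟨(T.l 2), by decide +kernel⟩

def A101R_004 :
    ∃ t, chk3 (onCell 0 26843545 0 1073741824 1040187392 5207648 (corT true 1 c0B cA101R gB0q1 gB0q0 gB4q1 gB5q1 true true)) t 1 1 1 = true :=
  ⟨(T.l 2), by decide +kernel⟩

def A101R_012 :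
    ∃ t, chk3 (onCell 0 26843545 0 1073741824 1040187392 5207648 (corT true 1 c0B cA101R gB0q1 gB1q0 gB2q1 gB3q1 false true)) t 1 1 1 = true :=
  ⟨(T.l 2), by decide +kernel⟩

def A101R_013 :
    ∃ t, chk3 (onCell 0 26843545 0 1073741824 1040187392 5207648 (corT true 1 c0B cA101R gB0q1 gB1q0 gB3q1 gB4q1 true true)) t 1 1 1 = true :=
  ⟨(T.l 2), by decide +kernel⟩

def A101R_014 :
    ∃ t, chk3 (onCell 0 26843545 0 1073741824 1040187392 5207648 (corT true 1 c0B cA101R gB0q1 gB1q0 gB4q1 gB5q1 true true)) t 1 1 1 = true :=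
  ⟨(T.l 2), by decide +kernel⟩

def A101R_022 :
    ∃ t, chk3 (onCell 0 26843545 0 1073741824 1040187392 5207648 (corT true 1 c0B cA101R gB0q1 gB2q0 gB2q1 gB3q1 false true)) t 1 1 1 = true :=
  ⟨(T.l 2), by decide +kernel⟩

def A101R_023 :
    ∃ t, chk3 (onCell 0 26843545 0 1073741824 1040187392 5207648 (corT true 1 c0B cA101R gB0q1 gB2q0 gB3q1 gB4q1 true true)) t 1 1 1 = true :=
  ⟨(T.l 2), by decide +kernel⟩

def A101R_024 :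
    ∃ t, chk3 (onCell 0 26843545 0 1073741824 1040187392 5207648 (corT true 1 c0B cA101R gB0q1 gB2q0 gB4q1 gB5q1 true true)) t 1 1 1 = true :=
  ⟨(T.l 2), by decide +kernel⟩

def A102E_000 :
    ∃ t, chk3 (onCell 0 16777216 0 1073741824 1040187392 5207648 (corX 1 c0B cA102E tA102E gB0q1 gB0q0 gB0q2 gB1q2 gB0q2 true true)) t 1 1 1 = true :=
  ⟨(T.b (T.b (T.l 2) (T.b (T.l 2) (T.a (T.a (T.a (T.l 207) (T.l 207)) (T.l 207)) (T.a (T.l 207) (T.b (T.b (T.l 2) (T.b (T.l 2) (T.b (T.l 2) (T.a (T.l 207) (T.a (T.l 204) (T.l 204)))))) (T.a (T.l 207) (T.b (T.a (T.b (T.b (T.l 204) (T.l 204)) (T.a (T.l 207) (T.l 204))) (T.b (T.b (T.l 204) (T.l 204)) (T.b (T.l 204) (T.l 204)))) (T.a (T.l 207) (T.b (T.a (T.b (T.l 204) (T.l 204)) (T.b (T.l 204) (T.l 204))) (T.a (T.l 207) (T.b (T.b (T.l 204) (T.l 204)) (T.a (T.l 207) (T.b (T.l 204) (T.l 204)))))))))))))) (T.b (T.b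 (T.b (T.b (T.b (T.a (T.l 207) (T.b (T.a (T.l 207) (T.l 207)) (T.l 1))) (T.l 1)) (T.l 1)) (T.l 1)) (T.l 1)) (T.l 1))), by decide +kernel⟩

def A102E_001 :
    ∃ t, chk3 (onCell 0 16777216 0 1073741824 1040187392 5207648 (corT true 1 c0B cA102E gB0q1 gB0q0 gB1q2 gB2q2 true true)) t 1 1 1 = true :=
  ⟨(T.b (T.b (T.l 2) (T.b (T.b (T.l 204) (T.l 204)) (T.b (T.b (T.l 204) (T.b (T.l 204) (T.a (T.b (T.a (T.l 204) (T.l 204)) (T.b (T.b (T.a (T.l 204) (T.l 204)) (T.l 1)) (T.l 1))) (T.l 204)))) (T.l 1)))) (T.l 1)), by decide +kernel⟩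

def A102E_002 :
    ∃ t, chk3 (onCell 0 16777216 0 1073741824 1040187392 5207648 (corT true 1 c0B cA102E gB0q1 gB0q0 gB2q2 gB3q2 true false)) t 1 1 1 = true :=
  ⟨(T.b (T.b (T.l 204) (T.b (T.b (T.l 204) (T.l 1)) (T.l 1))) (T.l 1)), by decide +kernel⟩

def A102E_010_1_2_1 :
    ∃ t, chk3 (onCell 0 26843545 0 1073741824 1040187392 5207648 (corT true 1 c0B cA102E gB0q1 gB1q0 gB0q2 gB1q2 true true)) t 1 2 1 = true :=
  ⟨(T.l 2), by decide +kernel⟩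

def A102E_010_1_24_1 :
    ∃ t, chk3 (onCell 0 26843545 0 1073741824 1040187392 5207648 (corT true 1 c0B cA102E gB0q1 gB1q0 gB0q2 gB1q2 true true)) t 1 24 1 = true :=
  ⟨(T.l 2), by decide +kernel⟩

def A102E_010_1_50_1 :
    ∃ t, chk3 (onCell 0 26843545 0 1073741824 1040187392 5207648 (corT true 1 c0B cA102E gB0q1 gB1q0 gB0q2 gB1q2 true true)) t 1 50 1 = true :=
  ⟨(T.b (T.b (T.l 2) (T.b (T.a (T.b (T.a (T.a (T.l 204) (T.a (T.l 204) (T.l 204))) (T.l 2)) (T.a (T.a (T.l 204) (T.a (T.l 204) (T.l 204))) (T.a (T.l 204) (T.l 204)))) (T.a (T.a (T.l 204) (T.l 204)) (T.l 2))) (T.a (T.b (T.a (T.a (T.l 204) (T.a (T.l 204) (T.l 204))) (T.a (T.l 204) (T.l 204))) (T.a (T.a (T.l 204) (T.a (T.l 204) (T.l 204))) (T.a (T.l 204) (T.l 204)))) (T.a (T.a (T.l 204) (T.l 204)) (T.l 236))))) (T.b (T.b (T.a (T.b (T.a (T.a (T.l 204) (T.a (T.l 204) (T.l 204))) (T.a (T.l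 204) (T.l 204))) (T.a (T.a (T.l 204) (T.a (T.l 204) (T.l 204))) (T.a (T.l 204) (T.l 204)))) (T.a (T.a (T.l 204) (T.l 204)) (T.a (T.l 204) (T.l 204)))) (T.a (T.b (T.a (T.a (T.l 204) (T.a (T.l 204) (T.l 204))) (T.a (T.l 204) (T.l 204))) (T.a (T.a (T.l 204) (T.a (T.l 204) (T.l 204))) (T.a (T.l 204) (T.l 204)))) (T.a (T.a (T.l 204) (T.l 204)) (T.a (T.l 204) (T.l 204))))) (T.b (T.a (T.b (T.a (T.a (T.l 204) (T.a (T.l 204) (T.l 204))) (T.a (T.l 204) (T.l 204))) (T.a (T.a (T.l 204) (T.a (T.l 204) (T.l 204))) (T.a (T.l 204) (T.l 204)))) (T.a (T.a (T.l 204) (T.l 204)) (T.a (T.l 204) (T.l 204)))) (T.a (T.b (T.a (T.a (T.l 204) (T.a (T.l 204) (T.l 204))) (T.a (T.l 204) (T.l 204))) (T.a (T.a (T.l 204) (T.a (T.l 204) (T.l 204))) (T.a (T.l 204) (T.l 204)))) (T.a (T.a (T.l 204) (T.l 204)) (T.a (T.l 204) (T.l 204))))))), by decide +kernel⟩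

def A102E_010_1_102_1 :
    ∃ t, chk3 (onCell 0 26843545 0 1073741824 1040187392 5207648 (corT true 1 c0B cA102E gB0q1 gB1q0 gB0q2 gB1q2 true true)) t 1 102 1 = true :=
  ⟨(T.b (T.b (T.a (T.a (T.a (T.l 204) (T.a (T.l 204) (T.l 204))) (T.a (T.l 204) (T.l 204))) (T.a (T.a (T.l 204) (T.l 204)) (T.a (T.l 204) (T.l 204)))) (T.a (T.a (T.a (T.l 204) (T.a (T.l 204) (T.l 204))) (T.a (T.l 204) (T.l 204))) (T.a (T.a (T.l 204) (T.l 204)) (T.a (T.l 204) (T.l 204))))) (T.b (T.a (T.a (T.a (T.l 204) (T.a (T.l 204) (T.l 204))) (T.a (T.a (T.l 204) (T.l 204)) (T.l 204))) (T.a (T.a (T.l 204) (T.l 204)) (T.a (T.l 204) (T.l 204)))) (T.a (T.b (T.a (T.a (T.l 204) (T.a (T.l 204) (T.l 204))) (T.a (T.a (T.l 204) (T.l 204)) (T.l 204))) (T.a (T.a (T.l 204) (T.a (T.l 204) (T.l 204))) (T.a (T.a (T.l 204) (T.l 204)) (T.l 204)))) (T.a (T.a (T.l 204) (T.l 204)) (T.a (T.l 204)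 (T.l 204)))))), by decide +kernel⟩

def A102E_010_1_103_1 :
    ∃ t, chk3 (onCell 0 26843545 0 1073741824 1040187392 5207648 (corT true 1 c0B cA102E gB0q1 gB1q0 gB0q2 gB1q2 true true)) t 1 103 1 = true :=
  ⟨(T.b (T.b (T.a (T.b (T.a (T.a (T.l 204) (T.a (T.l 204) (T.l 204))) (T.a (T.a (T.l 204) (T.l 204)) (T.l 204))) (T.a (T.a (T.l 204) (T.a (T.l 204) (T.l 204))) (T.a (T.a (T.l 204) (T.l 204)) (T.l 204)))) (T.a (T.a (T.l 204) (T.l 204)) (T.a (T.l 204) (T.l 204)))) (T.a (T.b (T.a (T.a (T.l 204) (T.a (T.l 204) (T.c (T.l 204) (T.l 204)))) (T.a (T.a (T.l 204) (T.l 204)) (T.l 204))) (T.a (T.a (T.l 204) (T.a (T.l 204) (T.a (T.l 204) (T.l 204)))) (T.a (T.a (T.l 204) (T.l 204)) (T.l 204)))) (T.a (T.a (T.a (T.l 204) (T.l 204)) (T.l 204)) (T.a (T.l 204) (T.l 204))))) (T.b (T.a (T.b (T.a (T.a (T.l 204) (T.a (T.l 204) (T.a (T.l 204) (T.l 204)))) (T.a (T.a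 (T.l 204) (T.l 204)) (T.a (T.l 204) (T.l 204)))) (T.a (T.a (T.l 204) (T.a (T.l 204) (T.a (T.l 204) (T.l 204)))) (T.a (T.a (T.l 236) (T.l 204)) (T.a (T.l 204) (T.l 204))))) (T.a (T.a (T.a (T.l 204) (T.l 204)) (T.l 236)) (T.a (T.a (T.l 204) (T.l 204)) (T.l 204)))) (T.a (T.b (T.a (T.a (T.l 204) (T.a (T.l 204) (T.a (T.l 236) (T.l 204)))) (T.a (T.a (T.a (T.l 204) (T.l 204)) (T.l 204)) (T.a (T.l 204) (T.l 204)))) (T.a (T.a (T.c (T.l 204) (T.l 204)) (T.a (T.l 204) (T.a (T.a (T.l 204) (T.l 204)) (T.l 236)))) (T.a (T.a (T.a (T.l 204) (T.l 204)) (T.c (T.l 204) (T.l 204))) (T.a (T.l 204) (T.l 204))))) (T.b (T.a (T.a (T.a (T.l 204) (T.l 204)) (T.a (T.l 204) (T.l 204))) (T.a (T.a (T.l 204) (T.l 204)) (T.l 204))) (T.a (T.a (T.a (T.l 204) (T.l 204)) (T.a (T.l 204) (T.l 204))) (T.a (T.a (T.l 204) (T.l 204)) (T.l 236))))))), by decide +kernel⟩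

def A102E_010_1_13_1 :
    ∃ t, chk3 (onCell 0 26843545 0 1073741824 1040187392 5207648 (corT true 1 c0B cA102E gB0q1 gB1q0 gB0q2 gB1q2 true true)) t 1 13 1 = true :=
  ⟨(T.b (T.b (T.b (T.b (T.b (T.a (T.b (T.a (T.b (T.a (T.a (T.b (T.c (T.l 204) (T.l 204)) (T.l 1)) (T.l 716)) (T.a (T.l 204) (T.a (T.a (T.l 236) (T.l 204)) (T.c (T.l 204) (T.l 204))))) (T.a (T.l 1) (T.a (T.l 1) (T.b (T.b (T.a (T.a (T.l 1) (T.l 236)) (T.c (T.l 204) (T.l 204))) (T.l 1)) (T.l 1))))) (T.b (T.a (T.a (T.a (T.l 204) (T.l 204)) (T.c (T.l 204) (T.l 236))) (T.a (T.l 204) (T.l 204))) (T.a (T.b (T.a (T.a (T.l 236) (T.l 204)) (T.c (T.l 236) (T.l 236))) (T.a (T.a (T.l 1) (T.l 204)) (T.a (T.l 204) (T.l 204)))) (T.a (T.l 748) (T.l 204))))) (T.a (T.l 1) (T.a (T.l 1) (T.b (T.a (T.c (T.l 204) (T.l 716)) (T.l 748)) (T.l 1))))) (T.b (T.a (T.a (T.a (T.c (T.l 204) (T.l 204)) (T.l 204))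 (T.a (T.l 204) (T.l 204))) (T.a (T.a (T.l 204) (T.l 204)) (T.a (T.l 204) (T.l 204)))) (T.a (T.b (T.a (T.a (T.a (T.l 204) (T.l 204)) (T.c (T.l 204) (T.l 204))) (T.a (T.l 204) (T.l 204))) (T.a (T.a (T.l 1) (T.a (T.l 1) (T.l 204))) (T.a (T.c (T.l 204) (T.l 204)) (T.l 204)))) (T.a (T.a (T.l 204) (T.l 204)) (T.a (T.l 204) (T.l 204)))))) (T.a (T.l 1) (T.a (T.l 1) (T.b (T.b (T.a (T.a (T.l 716) (T.l 716)) (T.a (T.l 204) (T.l 204))) (T.l 1)) (T.l 1))))) (T.l 1)) (T.l 1)) (T.l 1)) (T.l 1)), by decide +kernel⟩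

def A102E_010_1_7_1 :
    ∃ t, chk3 (onCell 0 26843545 0 1073741824 1040187392 5207648 (corT true 1 c0B cA102E gB0q1 gB1q0 gB0q2 gB1q2 true true)) t 1 7 1 = true :=
  ⟨(T.l 1), by decide +kernel⟩

theorem A102E_010_1_51_1 :
    ∃ t, chk3 (onCell 0 26843545 0 1073741824 1040187392 5207648 (corT true 1 c0B cA102E gB0q1 gB1q0 gB0q2 gB1q2 true true)) t 1 51 1 = true :=
  ex3_b A102E_010_1_102_1 A102E_010_1_103_1
theorem A102E_010_1_25_1 :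
    ∃ t, chk3 (onCell 0 26843545 0 1073741824 1040187392 5207648 (corT true 1 c0B cA102E gB0q1 gB1q0 gB0q2 gB1q2 true true)) t 1 25 1 = true :=
  ex3_b A102E_010_1_50_1 A102E_010_1_51_1
theorem A102E_010_1_12_1 :
    ∃ t, chk3 (onCell 0 26843545 0 1073741824 1040187392 5207648 (corT true 1 c0B cA102E gB0q1 gB1q0 gB0q2 gB1q2 true true)) t 1 12 1 = true :=
  ex3_b A102E_010_1_24_1 A102E_010_1_25_1
theorem A102E_010_1_6_1 :
    ∃ t, chk3 (onCell 0 26843545 0 1073741824 1040187392 5207648 (corT true 1 c0B cA102E gB0q1 gB1q0 gB0q2 gB1q2 true true)) t 1 6 1 = true :=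
  ex3_b A102E_010_1_12_1 A102E_010_1_13_1
theorem A102E_010_1_3_1 :
    ∃ t, chk3 (onCell 0 26843545 0 1073741824 1040187392 5207648 (corT true 1 c0B cA102E gB0q1 gB1q0 gB0q2 gB1q2 true true)) t 1 3 1 = true :=
  ex3_b A102E_010_1_6_1 A102E_010_1_7_1
theorem A102E_010 :
    ∃ t, chk3 (onCell 0 26843545 0 1073741824 1040187392 5207648 (corT true 1 c0B cA102E gB0q1 gB1q0 gB0q2 gB1q2 true true)) t 1 1 1 = true :=
  ex3_b A102E_010_1_2_1 A102E_010_1_3_1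

def A102E_011_1_2_1 :
    ∃ t, chk3 (onCell 0 26843545 0 1073741824 1040187392 5207648 (corT true 1 c0B cA102E gB0q1 gB1q0 gB1q2 gB2q2 true true)) t 1 2 1 = true :=
  ⟨(T.b (T.l 2) (T.b (T.l 2) (T.b (T.l 2) (T.b (T.b (T.b (T.b (T.l 2) (T.b (T.l 2) (T.a (T.a (T.a (T.l 204) (T.l 204)) (T.l 204)) (T.l 204)))) (T.b (T.a (T.a (T.a (T.l 204) (T.l 204)) (T.l 204)) (T.a (T.l 204) (T.l 204))) (T.a (T.a (T.a (T.l 204) (T.l 204)) (T.l 204)) (T.a (T.l 204) (T.l 204))))) (T.b (T.a (T.a (T.a (T.l 204) (T.l 204)) (T.l 204)) (T.a (T.l 204) (T.l 204))) (T.a (T.a (T.a (T.l 204) (T.l 204)) (T.l 204)) (T.a (T.l 204) (T.l 204))))) (T.b (T.a (T.a (T.a (T.l 204) (T.l 204)) (T.l 204)) (T.a (T.l 204) (T.l 204))) (T.a (T.a (T.a (T.l 204) (T.l 204)) (T.l 204)) (T.a (T.l 204) (T.l 204)))))))), by decide +kernel⟩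

def A102E_011_1_12_1 :
    ∃ t, chk3 (onCell 0 26843545 0 1073741824 1040187392 5207648 (corT true 1 c0B cA102E gB0q1 gB1q0 gB1q2 gB2q2 true true)) t 1 12 1 = true :=
  ⟨(T.b (T.b (T.b (T.a (T.a (T.a (T.l 204) (T.l 204)) (T.l 204)) (T.a (T.l 204) (T.l 204))) (T.a (T.a (T.a (T.l 204) (T.l 204)) (T.l 204)) (T.a (T.l 204) (T.l 204)))) (T.b (T.b (T.a (T.a (T.a (T.l 204) (T.a (T.l 204) (T.l 204))) (T.l 204)) (T.a (T.l 204) (T.l 204))) (T.b (T.a (T.a (T.a (T.l 204) (T.a (T.l 204) (T.l 204))) (T.a (T.l 204) (T.l 204))) (T.a (T.l 204) (T.l 204))) (T.a (T.a (T.a (T.l 204) (T.a (T.l 204) (T.l 204))) (T.a (T.l 204) (T.l 204))) (T.a (T.l 204) (T.l 204))))) (T.b (T.b (T.a (T.a (T.a (T.l 204) (T.a (T.l 204) (T.l 204))) (T.a (T.l 204) (T.l 204))) (T.a (T.l 204) (T.l 204))) (T.a (T.a (T.a (T.l 204) (T.a (T.l 204) (T.l 204))) (T.a (T.l 204) (T.l 204))) (T.a (T.l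 204) (T.l 204)))) (T.b (T.a (T.a (T.a (T.l 204) (T.a (T.l 204) (T.l 204))) (T.a (T.l 204) (T.l 204))) (T.a (T.l 204) (T.l 204))) (T.a (T.a (T.a (T.l 204) (T.a (T.l 204) (T.l 204))) (T.a (T.l 204) (T.l 204))) (T.a (T.l 204) (T.l 204))))))) (T.b (T.b (T.b (T.b (T.a (T.b (T.a (T.a (T.l 204) (T.a (T.l 204) (T.l 204))) (T.a (T.l 204) (T.l 204))) (T.a (T.a (T.l 204) (T.a (T.l 204) (T.l 204))) (T.a (T.l 204) (T.l 204)))) (T.a (T.l 204) (T.l 204))) (T.a (T.b (T.a (T.a (T.l 204) (T.a (T.l 204) (T.l 204))) (T.a (T.l 204) (T.l 204))) (T.a (T.a (T.l 204) (T.a (T.l 204) (T.l 204))) (T.a (T.l 204) (T.l 204)))) (T.a (T.l 204) (T.l 204)))) (T.b (T.a (T.b (T.a (T.a (T.l 204) (T.a (T.l 204) (T.l 204))) (T.a (T.l 204) (T.l 204))) (T.a (T.a (T.l 1) (T.a (T.l 1) (T.l 204))) (T.a (T.l 204) (T.l 204)))) (T.a (T.l 204) (T.l 204))) (T.a (T.l 1) (T.a (T.a (T.l 1) (T.l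 204)) (T.l 204))))) (T.l 1)) (T.l 1))), by decide +kernel⟩

def A102E_011_1_13_1 :
    ∃ t, chk3 (onCell 0 26843545 0 1073741824 1040187392 5207648 (corT true 1 c0B cA102E gB0q1 gB1q0 gB1q2 gB2q2 true true)) t 1 13 1 = true :=
  ⟨(T.l 1), by decide +kernel⟩

def A102E_011_1_7_1 :
    ∃ t, chk3 (onCell 0 26843545 0 1073741824 1040187392 5207648 (corT true 1 c0B cA102E gB0q1 gB1q0 gB1q2 gB2q2 true true)) t 1 7 1 = true :=
  ⟨(T.l 1), by decide +kernel⟩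

theorem A102E_011_1_6_1 :
    ∃ t, chk3 (onCell 0 26843545 0 1073741824 1040187392 5207648 (corT true 1 c0B cA102E gB0q1 gB1q0 gB1q2 gB2q2 true true)) t 1 6 1 = true :=
  ex3_b A102E_011_1_12_1 A102E_011_1_13_1
theorem A102E_011_1_3_1 :
    ∃ t, chk3 (onCell 0 26843545 0 1073741824 1040187392 5207648 (corT true 1 c0B cA102E gB0q1 gB1q0 gB1q2 gB2q2 true true)) t 1 3 1 = true :=
  ex3_b A102E_011_1_6_1 A102E_011_1_7_1
theorem A102E_011 :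
    ∃ t, chk3 (onCell 0 26843545 0 1073741824 1040187392 5207648 (corT true 1 c0B cA102E gB0q1 gB1q0 gB1q2 gB2q2 true true)) t 1 1 1 = true :=
  ex3_b A102E_011_1_2_1 A102E_011_1_3_1

def A102E_012 :
    ∃ t, chk3 (onCell 0 26843545 0 1073741824 1040187392 5207648 (corT true 1 c0B cA102E gB0q1 gB1q0 gB2q2 gB3q2 true false)) t 1 1 1 = true :=
  ⟨(T.b (T.b (T.a (T.a (T.a (T.l 204) (T.l 204)) (T.l 204)) (T.b (T.l 204) (T.l 204))) (T.b (T.b (T.a (T.a (T.a (T.l 204) (T.l 204)) (T.l 204)) (T.l 204)) (T.a (T.a (T.a (T.l 204) (T.l 204)) (T.l 204)) (T.a (T.l 204) (T.l 204)))) (T.b (T.b (T.a (T.a (T.a (T.l 204) (T.l 204)) (T.l 204)) (T.a (T.l 204) (T.l 204))) (T.b (T.a (T.a (T.a (T.l 204) (T.l 204)) (T.l 204)) (T.a (T.l 204) (T.l 204))) (T.a (T.a (T.a (T.l 204) (T.l 204)) (T.l 204)) (T.a (T.l 204) (T.l 204))))) (T.b (T.b (T.b (T.b (T.a (T.a (T.a (T.l 204)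 (T.l 204)) (T.l 204)) (T.l 204)) (T.a (T.a (T.a (T.l 204) (T.l 204)) (T.l 204)) (T.a (T.l 204) (T.l 204)))) (T.l 1)) (T.l 1)) (T.l 1))))) (T.l 1)), by decide +kernel⟩

def A102E_020_1_2_1 :
    ∃ t, chk3 (onCell 0 16777216 0 1073741824 1040187392 5207648 (corT true 1 c0B cA102E gB0q1 gB2q0 gB0q2 gB1q2 true true)) t 1 2 1 = true :=
  ⟨(T.l 2), by decide +kernel⟩

def A102E_020_1_6_1 :
    ∃ t, chk3 (onCell 0 16777216 0 1073741824 1040187392 5207648 (corT true 1 c0B cA102E gB0q1 gB2q0 gB0q2 gB1q2 true true)) t 1 6 1 = true :=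
  ⟨(T.l 2), by decide +kernel⟩

def A102E_020_1_56_1 :
    ∃ t, chk3 (onCell 0 16777216 0 1073741824 1040187392 5207648 (corT true 1 c0B cA102E gB0q1 gB2q0 gB0q2 gB1q2 true true)) t 1 56 1 = true :=
  ⟨(T.l 2), by decide +kernel⟩

def A102E_020_1_114_1 :
    ∃ t, chk3 (onCell 0 16777216 0 1073741824 1040187392 5207648 (corT true 1 c0B cA102E gB0q1 gB2q0 gB0q2 gB1q2 true true)) t 1 114 1 = true :=
  ⟨(T.l 2), by decide +kernel⟩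

def A102E_020_1_460_1 :
    ∃ t, chk3 (onCell 0 16777216 0 1073741824 1040187392 5207648 (corT true 1 c0B cA102E gB0q1 gB2q0 gB0q2 gB1q2 true true)) t 1 460 1 = true :=
  ⟨(T.b (T.l 2) (T.b (T.b (T.l 2) (T.a (T.a (T.l 2) (T.l 2)) (T.b (T.l 2) (T.a (T.a (T.l 816) (T.l 816)) (T.a (T.l 816) (T.l 0)))))) (T.b (T.a (T.a (T.l 816) (T.a (T.a (T.l 816) (T.l 816)) (T.l 816))) (T.b (T.a (T.a (T.l 816) (T.l 816)) (T.a (T.l 816) (T.l 0))) (T.a (T.a (T.l 816) (T.l 816)) (T.a (T.l 816) (T.l 0))))) (T.a (T.a (T.l 816) (T.a (T.a (T.l 816) (T.l 816)) (T.l 816))) (T.b (T.a (T.a (T.l 816) (T.l 816)) (T.a (T.l 816) (T.l 0))) (T.a (T.a (T.l 816) (T.l 816)) (T.a (T.l 816) (T.l 0)))))))), by decide +kernel⟩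

def A102E_020_1_461_1 :
    ∃ t, chk3 (onCell 0 16777216 0 1073741824 1040187392 5207648 (corT true 1 c0B cA102E gB0q1 gB2q0 gB0q2 gB1q2 true true)) t 1 461 1 = true :=
  ⟨(T.b (T.b (T.b (T.a (T.a (T.l 816) (T.a (T.a (T.l 816) (T.l 816)) (T.l 816))) (T.b (T.a (T.a (T.l 816) (T.l 816)) (T.a (T.l 816) (T.l 0))) (T.a (T.a (T.l 816) (T.l 816)) (T.a (T.l 816) (T.l 0))))) (T.a (T.a (T.l 816) (T.a (T.a (T.l 816) (T.l 816)) (T.l 816))) (T.b (T.a (T.a (T.l 816) (T.l 816)) (T.a (T.l 816) (T.l 0))) (T.a (T.a (T.l 816) (T.l 816)) (T.a (T.l 816) (T.l 0)))))) (T.b (T.a (T.a (T.l 816) (T.a (T.a (T.l 816) (T.l 816)) (T.l 816))) (T.b (T.a (T.a (T.l 816) (T.l 816)) (T.a (T.l 816) (T.l 0))) (T.a (T.a (T.l 816) (T.l 816)) (T.a (T.l 816) (T.l 0))))) (T.a (T.a (T.l 816) (T.a (T.a (T.l 816) (T.l 816)) (T.l 816))) (T.b (T.a (T.a (T.l 816) (T.l 816)) (T.a (T.l 816) (T.l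 0))) (T.a (T.a (T.l 816) (T.l 816)) (T.a (T.l 816) (T.l 0))))))) (T.b (T.b (T.a (T.a (T.l 816) (T.a (T.a (T.l 816) (T.l 816)) (T.l 816))) (T.b (T.a (T.a (T.l 816) (T.l 816)) (T.a (T.l 816) (T.l 0))) (T.a (T.a (T.l 816) (T.l 816)) (T.a (T.l 816) (T.l 0))))) (T.a (T.a (T.l 816) (T.a (T.a (T.l 816) (T.l 816)) (T.l 816))) (T.b (T.a (T.a (T.l 816) (T.l 816)) (T.a (T.l 816) (T.l 0))) (T.a (T.a (T.l 816) (T.l 816)) (T.a (T.l 816) (T.l 0)))))) (T.b (T.a (T.a (T.l 816) (T.a (T.a (T.l 816) (T.l 816)) (T.l 816))) (T.b (T.a (T.a (T.l 816) (T.l 816)) (T.a (T.l 816) (T.l 0))) (T.a (T.a (T.l 816) (T.l 816)) (T.a (T.l 816) (T.l 0))))) (T.a (T.a (T.l 816) (T.a (T.a (T.l 816) (T.l 816)) (T.l 816))) (T.b (T.a (T.a (T.l 816) (T.l 816)) (T.a (T.l 816) (T.l 0))) (T.a (T.a (T.l 816) (T.l 816)) (T.a (T.l 816) (T.l 0)))))))), by decide +kernel⟩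

def A102E_020_1_462_1 :
    ∃ t, chk3 (onCell 0 16777216 0 1073741824 1040187392 5207648 (corT true 1 c0B cA102E gB0q1 gB2q0 gB0q2 gB1q2 true true)) t 1 462 1 = true :=
  ⟨(T.b (T.b (T.b (T.a (T.a (T.l 816) (T.a (T.a (T.l 816) (T.l 816)) (T.l 816))) (T.b (T.a (T.a (T.l 816) (T.l 816)) (T.a (T.l 816) (T.l 0))) (T.a (T.a (T.l 816) (T.l 816)) (T.a (T.l 816) (T.l 0))))) (T.a (T.a (T.l 816) (T.a (T.a (T.l 816) (T.l 816)) (T.l 816))) (T.b (T.a (T.a (T.l 816) (T.l 816)) (T.a (T.l 816) (T.l 0))) (T.a (T.a (T.l 816) (T.l 816)) (T.a (T.l 816) (T.l 0)))))) (T.b (T.a (T.a (T.l 816) (T.a (T.a (T.l 816) (T.l 816)) (T.l 816))) (T.b (T.a (T.a (T.l 816) (T.l 816)) (T.a (T.l 816) (T.l 0))) (T.a (T.a (T.l 816) (T.l 816)) (T.a (T.l 816) (T.l 0))))) (T.a (T.a (T.l 816) (T.a (T.a (T.l 816) (T.l 816)) (T.l 824))) (T.b (T.a (T.a (T.l 816) (T.l 816)) (T.a (T.l 816) (T.l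 0))) (T.a (T.a (T.l 816) (T.l 816)) (T.a (T.l 816) (T.l 0))))))) (T.b (T.b (T.a (T.a (T.l 816) (T.a (T.a (T.l 816) (T.l 816)) (T.l 824))) (T.a (T.a (T.l 816) (T.l 824)) (T.a (T.l 816) (T.l 0)))) (T.a (T.a (T.l 816) (T.a (T.a (T.l 816) (T.l 816)) (T.l 824))) (T.a (T.a (T.l 816) (T.l 824)) (T.a (T.l 816) (T.l 0))))) (T.b (T.a (T.a (T.l 816) (T.a (T.a (T.l 816) (T.l 816)) (T.l 824))) (T.a (T.a (T.l 816) (T.l 824)) (T.a (T.l 816) (T.l 0)))) (T.a (T.a (T.l 816) (T.a (T.a (T.l 816) (T.l 816)) (T.l 824))) (T.a (T.a (T.l 816) (T.l 824)) (T.a (T.l 816) (T.l 0))))))), by decide +kernel⟩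

def A102E_020_1_463_1 :
    ∃ t, chk3 (onCell 0 16777216 0 1073741824 1040187392 5207648 (corT true 1 c0B cA102E gB0q1 gB2q0 gB0q2 gB1q2 true true)) t 1 463 1 = true :=
  ⟨(T.b (T.b (T.b (T.a (T.a (T.l 816) (T.a (T.a (T.l 816) (T.l 816)) (T.c (T.l 816) (T.l 816)))) (T.a (T.a (T.l 816) (T.l 824)) (T.a (T.l 816) (T.l 0)))) (T.a (T.a (T.l 816) (T.a (T.a (T.l 816) (T.l 816)) (T.c (T.l 816) (T.l 824)))) (T.a (T.a (T.l 816) (T.l 824)) (T.a (T.l 816) (T.l 0))))) (T.b (T.a (T.a (T.l 816) (T.a (T.a (T.l 816) (T.l 816)) (T.c (T.l 816) (T.l 824)))) (T.a (T.a (T.l 816) (T.l 824)) (T.a (T.l 816) (T.l 0)))) (T.a (T.a (T.l 816) (T.a (T.a (T.l 816) (T.l 816)) (T.c (T.l 824) (T.l 824)))) (T.a (T.a (T.l 816) (T.l 824)) (T.a (T.l 816) (T.l 0)))))) (T.b (T.b (T.a (T.a (T.l 816) (T.a (T.a (T.l 816) (T.l 816)) (T.c (T.l 824) (T.l 824)))) (T.a (T.a (T.l 816) (T.l 824))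 (T.a (T.l 816) (T.l 0)))) (T.a (T.a (T.l 816) (T.a (T.a (T.l 816) (T.l 816)) (T.c (T.l 824) (T.l 824)))) (T.a (T.a (T.l 816) (T.c (T.l 816) (T.l 824))) (T.a (T.l 816) (T.l 0))))) (T.b (T.a (T.a (T.l 816) (T.a (T.a (T.l 816) (T.l 816)) (T.c (T.l 824) (T.l 824)))) (T.a (T.a (T.l 816) (T.c (T.l 824) (T.l 824))) (T.a (T.l 816) (T.l 0)))) (T.a (T.a (T.l 816) (T.a (T.a (T.l 816) (T.l 816)) (T.a (T.l 816) (T.l 816)))) (T.a (T.a (T.l 816) (T.c (T.l 824) (T.l 824))) (T.a (T.l 816) (T.l 0))))))), by decide +kernel⟩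

def A102E_020_1_464_1 :
    ∃ t, chk3 (onCell 0 16777216 0 1073741824 1040187392 5207648 (corT true 1 c0B cA102E gB0q1 gB2q0 gB0q2 gB1q2 true true)) t 1 464 1 = true :=
  ⟨(T.b (T.b (T.b (T.a (T.a (T.l 816) (T.a (T.a (T.l 816) (T.l 816)) (T.a (T.l 816) (T.l 816)))) (T.a (T.a (T.l 816) (T.c (T.l 824) (T.l 824))) (T.a (T.l 816) (T.l 0)))) (T.a (T.a (T.l 816) (T.a (T.a (T.l 816) (T.l 816)) (T.a (T.l 816) (T.l 816)))) (T.a (T.a (T.l 824) (T.c (T.l 824) (T.l 824))) (T.a (T.l 816) (T.l 0))))) (T.b (T.a (T.a (T.l 816) (T.a (T.a (T.l 816) (T.l 816)) (T.a (T.l 816) (T.l 816)))) (T.a (T.a (T.l 824) (T.c (T.l 824) (T.l 824))) (T.a (T.l 816) (T.l 0)))) (T.a (T.a (T.l 816) (T.a (T.a (T.l 816) (T.l 816)) (T.a (T.l 816) (T.l 816)))) (T.a (T.a (T.l 824) (T.c (T.l 824) (T.l 952))) (T.a (T.l 816) (T.l 0)))))) (T.b (T.b (T.a (T.a (T.l 816) (T.a (T.a (T.l 816) (T.l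 816)) (T.a (T.l 816) (T.l 816)))) (T.a (T.a (T.l 824) (T.c (T.l 824) (T.l 952))) (T.a (T.l 816) (T.l 0)))) (T.a (T.a (T.l 816) (T.a (T.a (T.l 816) (T.l 816)) (T.a (T.l 816) (T.l 816)))) (T.b (T.a (T.a (T.l 824) (T.c (T.l 952) (T.l 952))) (T.a (T.l 816) (T.l 0))) (T.a (T.a (T.l 824) (T.c (T.l 952) (T.l 952))) (T.a (T.l 816) (T.l 0)))))) (T.b (T.a (T.a (T.l 816) (T.a (T.a (T.l 816) (T.l 816)) (T.a (T.l 816) (T.l 816)))) (T.b (T.a (T.a (T.l 824) (T.c (T.l 952) (T.l 952))) (T.a (T.l 816) (T.l 0))) (T.a (T.a (T.l 824) (T.a (T.l 816) (T.l 816))) (T.a (T.l 816) (T.l 0))))) (T.a (T.a (T.l 816) (T.a (T.a (T.l 816) (T.l 816)) (T.a (T.l 816) (T.l 816)))) (T.b (T.a (T.a (T.l 824) (T.a (T.l 816) (T.l 816))) (T.a (T.l 816) (T.l 0))) (T.a (T.a (T.l 824) (T.a (T.l 816) (T.l 816))) (T.a (T.l 816) (T.l 0)))))))), by decide +kernel⟩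

def A102E_020_1_930_1 :
    ∃ t, chk3 (onCell 0 16777216 0 1073741824 1040187392 5207648 (corT true 1 c0B cA102E gB0q1 gB2q0 gB0q2 gB1q2 true true)) t 1 930 1 = true :=
  ⟨(T.b (T.b (T.a (T.a (T.l 816) (T.a (T.a (T.l 816) (T.l 816)) (T.a (T.l 816) (T.l 816)))) (T.b (T.a (T.a (T.l 824) (T.a (T.l 816) (T.l 816))) (T.a (T.l 944) (T.l 0))) (T.a (T.a (T.l 824) (T.a (T.l 816) (T.l 816))) (T.a (T.l 944) (T.l 0))))) (T.a (T.a (T.l 816) (T.a (T.a (T.l 816) (T.l 816)) (T.a (T.l 816) (T.l 816)))) (T.b (T.a (T.a (T.l 824) (T.a (T.l 816) (T.l 816))) (T.a (T.l 944) (T.l 0))) (T.a (T.a (T.c (T.l 824) (T.l 824)) (T.a (T.l 816) (T.l 816))) (T.a (T.l 944) (T.l 0)))))) (T.b (T.a (T.a (T.l 816) (T.a (T.a (T.l 816) (T.l 816)) (T.a (T.l 816) (T.l 816)))) (T.b (T.a (T.a (T.c (T.l 824) (T.l 824)) (T.a (T.l 816) (T.l 816))) (T.a (T.l 944) (T.l 0))) (T.a (T.a (T.c (T.l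 824) (T.l 824)) (T.a (T.l 816) (T.l 816))) (T.a (T.l 944) (T.l 0))))) (T.a (T.a (T.l 816) (T.a (T.a (T.l 816) (T.l 824)) (T.a (T.l 816) (T.l 816)))) (T.b (T.a (T.a (T.c (T.l 824) (T.l 824)) (T.a (T.l 816) (T.l 816))) (T.a (T.l 944) (T.l 0))) (T.a (T.a (T.c (T.l 824) (T.l 824)) (T.a (T.l 816) (T.l 816))) (T.a (T.c (T.l 816) (T.l 816)) (T.l 0))))))), by decide +kernel⟩

def A102E_020_1_931_1 :
    ∃ t, chk3 (onCell 0 16777216 0 1073741824 1040187392 5207648 (corT true 1 c0B cA102E gB0q1 gB2q0 gB0q2 gB1q2 true true)) t 1 931 1 = true :=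
  ⟨(T.b (T.b (T.a (T.a (T.l 816) (T.a (T.a (T.l 816) (T.l 824)) (T.a (T.l 816) (T.l 816)))) (T.b (T.a (T.a (T.c (T.l 824) (T.l 824)) (T.a (T.l 816) (T.l 816))) (T.a (T.c (T.l 816) (T.l 816)) (T.l 0))) (T.a (T.a (T.c (T.l 824) (T.l 824)) (T.a (T.l 816) (T.l 816))) (T.a (T.c (T.l 816) (T.l 816)) (T.c (T.l 0) (T.l 0)))))) (T.a (T.a (T.l 816) (T.a (T.a (T.l 816) (T.l 824)) (T.a (T.l 816) (T.l 816)))) (T.b (T.a (T.a (T.c (T.l 824) (T.l 824)) (T.a (T.l 816) (T.l 816))) (T.a (T.c (T.l 816) (T.l 944)) (T.c (T.l 0) (T.l 0)))) (T.a (T.a (T.c (T.l 824) (T.l 824)) (T.a (T.l 944) (T.l 816))) (T.a (T.c (T.l 816) (T.l 944)) (T.c (T.l 0) (T.l 0))))))) (T.b (T.a (T.a (T.l 816) (T.a (T.a (T.l 816) (T.c (T.l 816) (T.l 816))) (T.a (T.l 816) (T.l 816)))) (T.b (T.a (T.a (T.c (T.l 824) (T.l 824)) (T.a (T.l 944) (T.l 816))) (T.a (T.c (T.l 816) (T.l 944)) (T.c (T.l 0)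 (T.l 0)))) (T.a (T.a (T.c (T.l 824) (T.l 824)) (T.a (T.l 952) (T.l 816))) (T.a (T.c (T.l 944) (T.l 944)) (T.c (T.l 0) (T.l 0)))))) (T.a (T.a (T.l 816) (T.a (T.a (T.l 816) (T.c (T.l 816) (T.l 816))) (T.a (T.l 816) (T.l 816)))) (T.b (T.a (T.a (T.c (T.l 824) (T.l 824)) (T.a (T.l 952) (T.l 816))) (T.a (T.c (T.l 944) (T.l 944)) (T.c (T.l 0) (T.l 0)))) (T.a (T.a (T.c (T.l 824) (T.l 824)) (T.a (T.l 952) (T.l 816))) (T.a (T.c (T.l 944) (T.l 944)) (T.c (T.l 0) (T.l 0)))))))), by decide +kernel⟩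

def A102E_020_1_1864_1 :
    ∃ t, chk3 (onCell 0 16777216 0 1073741824 1040187392 5207648 (corT true 1 c0B cA102E gB0q1 gB2q0 gB0q2 gB1q2 true true)) t 1 1864 1 = true :=
  ⟨(T.b (T.a (T.a (T.l 816) (T.b (T.a (T.a (T.l 816) (T.c (T.l 816) (T.l 816))) (T.a (T.l 816) (T.l 816))) (T.b (T.a (T.a (T.l 816) (T.c (T.l 816) (T.l 816))) (T.a (T.l 816) (T.l 816))) (T.a (T.a (T.l 816) (T.c (T.l 816) (T.l 816))) (T.a (T.l 816) (T.l 816)))))) (T.b (T.a (T.a (T.a (T.l 816) (T.l 816)) (T.a (T.l 952) (T.l 944))) (T.a (T.c (T.l 944) (T.l 944)) (T.c (T.l 0) (T.l 0)))) (T.a (T.a (T.a (T.l 816) (T.l 816)) (T.a (T.l 952) (T.l 944))) (T.a (T.c (T.l 944) (T.l 944)) (T.c (T.l 0) (T.l 0)))))) (T.a (T.a (T.l 816) (T.b (T.b (T.a (T.a (T.l 816) (T.c (T.l 816) (T.l 816))) (T.a (T.l 816) (T.l 816))) (T.a (T.a (T.l 816) (T.c (T.l 816) (T.l 824))) (T.a (T.l 816) (T.l 816))))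 (T.b (T.a (T.a (T.l 816) (T.c (T.l 816) (T.l 824))) (T.a (T.l 824) (T.l 816))) (T.a (T.a (T.l 816) (T.c (T.l 816) (T.l 824))) (T.a (T.l 824) (T.l 816)))))) (T.b (T.a (T.a (T.a (T.l 816) (T.l 816)) (T.a (T.l 952) (T.l 944))) (T.a (T.a (T.l 816) (T.l 816)) (T.c (T.l 0) (T.l 0)))) (T.a (T.a (T.a (T.l 816) (T.l 816)) (T.a (T.l 952) (T.l 944))) (T.a (T.a (T.l 816) (T.l 816)) (T.c (T.l 0) (T.l 512))))))), by decide +kernel⟩

def A102E_020_1_1865_1 :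
    ∃ t, chk3 (onCell 0 16777216 0 1073741824 1040187392 5207648 (corT true 1 c0B cA102E gB0q1 gB2q0 gB0q2 gB1q2 true true)) t 1 1865 1 = true :=
  ⟨(T.b (T.a (T.a (T.l 816) (T.b (T.b (T.a (T.a (T.l 816) (T.c (T.l 816) (T.l 824))) (T.a (T.l 824) (T.l 816))) (T.a (T.a (T.l 816) (T.c (T.l 816) (T.l 824))) (T.a (T.l 824) (T.l 816)))) (T.b (T.a (T.a (T.l 816) (T.c (T.l 816) (T.l 824))) (T.a (T.l 824) (T.l 816))) (T.a (T.a (T.l 816) (T.c (T.l 816) (T.l 824))) (T.a (T.l 824) (T.l 816)))))) (T.b (T.a (T.a (T.a (T.l 816) (T.l 816)) (T.a (T.l 952) (T.l 944))) (T.a (T.a (T.l 816) (T.l 816)) (T.a (T.l 816) (T.l 0)))) (T.a (T.a (T.a (T.l 816) (T.l 816)) (T.a (T.l 952) (T.l 944))) (T.a (T.a (T.l 944) (T.l 816)) (T.a (T.l 816) (T.l 0)))))) (T.a (T.a (T.l 816) (T.b (T.b (T.a (T.a (T.l 816) (T.c (T.l 816) (T.l 824))) (T.a (T.l 824) (T.l 816))) (T.a (T.a (T.l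 816) (T.c (T.l 816) (T.l 824))) (T.a (T.l 824) (T.l 816)))) (T.b (T.a (T.a (T.l 816) (T.c (T.l 816) (T.l 824))) (T.a (T.l 824) (T.l 816))) (T.a (T.a (T.l 816) (T.c (T.l 816) (T.l 824))) (T.a (T.l 824) (T.l 816)))))) (T.b (T.a (T.a (T.a (T.l 816) (T.l 816)) (T.a (T.l 952) (T.l 944))) (T.a (T.a (T.l 944) (T.l 816)) (T.a (T.l 816) (T.l 0)))) (T.a (T.a (T.a (T.l 816) (T.l 816)) (T.a (T.c (T.l 816) (T.l 944)) (T.l 952))) (T.a (T.a (T.l 944) (T.l 816)) (T.a (T.l 816) (T.l 0))))))), by decide +kernel⟩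

def A102E_020_1_1866_1 :
    ∃ t, chk3 (onCell 0 16777216 0 1073741824 1040187392 5207648 (corT true 1 c0B cA102E gB0q1 gB2q0 gB0q2 gB1q2 true true)) t 1 1866 1 = true :=
  ⟨(T.b (T.a (T.a (T.l 816) (T.b (T.b (T.a (T.a (T.l 816) (T.c (T.l 816) (T.l 824))) (T.a (T.l 824) (T.l 824))) (T.a (T.a (T.l 816) (T.a (T.l 816) (T.l 816))) (T.a (T.l 824) (T.l 824)))) (T.b (T.a (T.a (T.l 816) (T.a (T.l 816) (T.l 816))) (T.a (T.l 824) (T.l 824))) (T.a (T.a (T.l 816) (T.a (T.l 816) (T.l 816))) (T.a (T.l 824) (T.l 824)))))) (T.b (T.a (T.a (T.a (T.l 816) (T.l 944)) (T.a (T.c (T.l 816) (T.l 944)) (T.l 952))) (T.a (T.a (T.l 944) (T.l 816)) (T.a (T.l 816) (T.l 0)))) (T.a (T.a (T.a (T.l 816) (T.l 952)) (T.a (T.c (T.l 944) (T.l 944)) (T.l 952))) (T.a (T.a (T.l 944) (T.l 944)) (T.a (T.l 816) (T.l 0)))))) (T.a (T.a (T.l 816) (T.b (T.b (T.a (T.a (T.l 816) (T.a (T.l 816)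 (T.l 816))) (T.a (T.l 824) (T.l 824))) (T.a (T.a (T.l 816) (T.a (T.l 816) (T.l 816))) (T.a (T.l 824) (T.l 824)))) (T.b (T.a (T.a (T.l 816) (T.a (T.l 816) (T.l 816))) (T.a (T.l 824) (T.l 824))) (T.a (T.a (T.l 816) (T.a (T.l 816) (T.l 816))) (T.a (T.c (T.l 816) (T.l 816)) (T.l 824)))))) (T.b (T.a (T.a (T.a (T.l 952) (T.l 952)) (T.a (T.c (T.l 944) (T.l 944)) (T.l 952))) (T.a (T.a (T.l 944) (T.l 944)) (T.a (T.l 816) (T.l 0)))) (T.a (T.b (T.a (T.a (T.l 952) (T.l 952)) (T.a (T.c (T.l 944) (T.l 952)) (T.l 952))) (T.a (T.a (T.l 952) (T.l 952)) (T.a (T.c (T.l 944) (T.l 952)) (T.l 952)))) (T.b (T.a (T.a (T.l 944) (T.l 944)) (T.a (T.l 816) (T.l 0))) (T.a (T.a (T.l 944) (T.l 944)) (T.a (T.l 816) (T.l 0)))))))), by decide +kernel⟩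

def A102E_020_1_3734_1 :
    ∃ t, chk3 (onCell 0 16777216 0 1073741824 1040187392 5207648 (corT true 1 c0B cA102E gB0q1 gB2q0 gB0q2 gB1q2 true true)) t 1 3734 1 = true :=
  ⟨(T.a (T.a (T.l 816) (T.b (T.b (T.a (T.a (T.l 816) (T.a (T.l 816) (T.l 816))) (T.a (T.c (T.l 816) (T.l 816)) (T.l 824))) (T.a (T.a (T.l 816) (T.a (T.l 824) (T.l 816))) (T.a (T.c (T.l 816) (T.l 816)) (T.l 824)))) (T.b (T.a (T.a (T.l 816) (T.a (T.l 824) (T.l 816))) (T.a (T.c (T.l 816) (T.l 816)) (T.l 952))) (T.a (T.a (T.l 816) (T.a (T.l 824) (T.l 816))) (T.a (T.c (T.l 816) (T.l 816)) (T.l 952)))))) (T.b (T.a (T.b (T.a (T.a (T.l 952) (T.l 952)) (T.a (T.c (T.l 944) (T.l 952)) (T.c (T.l 816) (T.l 944)))) (T.a (T.a (T.l 952) (T.l 952)) (T.a (T.c (T.l 944) (T.l 952)) (T.c (T.l 816) (T.l 944))))) (T.b (T.a (T.a (T.l 944) (T.l 944)) (T.a (T.l 816) (T.l 0))) (T.a (T.a (T.l 944) (T.l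 944)) (T.a (T.l 944) (T.l 0))))) (T.a (T.b (T.a (T.a (T.l 952) (T.l 952)) (T.a (T.c (T.l 944) (T.l 952)) (T.c (T.l 816) (T.l 944)))) (T.a (T.a (T.l 952) (T.l 952)) (T.a (T.c (T.l 952) (T.l 952)) (T.c (T.l 944) (T.l 944))))) (T.b (T.a (T.a (T.l 944) (T.l 944)) (T.a (T.l 944) (T.l 512))) (T.a (T.a (T.c (T.l 816) (T.l 944)) (T.l 944)) (T.a (T.l 944) (T.c (T.l 0) (T.l 0)))))))), by decide +kernel⟩

def A102E_020_1_3735_1 :
    ∃ t, chk3 (onCell 0 16777216 0 1073741824 1040187392 5207648 (corT true 1 c0B cA102E gB0q1 gB2q0 gB0q2 gB1q2 true true)) t 1 3735 1 = true :=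
  ⟨(T.a (T.a (T.l 816) (T.b (T.b (T.a (T.a (T.l 816) (T.a (T.l 824) (T.l 816))) (T.a (T.c (T.l 816) (T.l 816)) (T.l 952))) (T.a (T.a (T.l 816) (T.a (T.l 824) (T.l 816))) (T.a (T.c (T.l 816) (T.l 816)) (T.l 952)))) (T.b (T.a (T.a (T.l 816) (T.a (T.l 824) (T.l 816))) (T.a (T.c (T.l 816) (T.l 816)) (T.l 952))) (T.a (T.a (T.l 816) (T.a (T.l 824) (T.l 816))) (T.a (T.c (T.l 816) (T.l 816)) (T.l 952)))))) (T.b (T.a (T.b (T.a (T.a (T.l 952) (T.l 952)) (T.a (T.c (T.l 952) (T.l 952)) (T.c (T.l 944) (T.l 944)))) (T.a (T.a (T.l 952) (T.l 952)) (T.a (T.c (T.l 952) (T.l 952)) (T.c (T.l 944) (T.l 944))))) (T.b (T.a (T.a (T.c (T.l 816) (T.l 944)) (T.l 944)) (T.a (T.l 944) (T.c (T.l 0) (T.l 0)))) (T.a (T.a (T.c (T.l 816) (T.l 944)) (T.l 944)) (T.a (T.l 944) (T.c (T.l 0) (T.l 0)))))) (T.a (T.b (T.a (T.a (T.l 952) (T.l 952)) (T.a (T.c (T.l 952) (T.l 952)) (T.c (T.l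 944) (T.l 944)))) (T.a (T.a (T.l 952) (T.l 952)) (T.a (T.c (T.l 952) (T.l 952)) (T.c (T.l 944) (T.l 944))))) (T.b (T.a (T.a (T.c (T.l 816) (T.l 944)) (T.c (T.l 816) (T.l 816))) (T.a (T.l 944) (T.c (T.l 0) (T.l 0)))) (T.a (T.a (T.c (T.l 816) (T.l 944)) (T.c (T.l 816) (T.l 816))) (T.a (T.c (T.l 816) (T.l 816)) (T.c (T.l 0) (T.l 0)))))))), by decide +kernel⟩

def A102E_020_1_3736_1 :
    ∃ t, chk3 (onCell 0 16777216 0 1073741824 1040187392 5207648 (corT true 1 c0B cA102E gB0q1 gB2q0 gB0q2 gB1q2 true true)) t 1 3736 1 = true :=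
  ⟨(T.a (T.a (T.l 816) (T.b (T.b (T.a (T.a (T.l 816) (T.a (T.l 824) (T.l 816))) (T.a (T.c (T.l 816) (T.l 824)) (T.l 952))) (T.a (T.a (T.l 816) (T.a (T.l 824) (T.l 824))) (T.a (T.c (T.l 816) (T.l 824)) (T.l 952)))) (T.b (T.a (T.a (T.l 816) (T.a (T.l 824) (T.l 824))) (T.a (T.c (T.l 816) (T.l 824)) (T.l 952))) (T.a (T.a (T.l 816) (T.a (T.l 824) (T.l 824))) (T.a (T.c (T.l 816) (T.l 824)) (T.l 952)))))) (T.b (T.a (T.b (T.a (T.a (T.l 952) (T.l 952)) (T.a (T.c (T.l 952) (T.l 952)) (T.c (T.l 944) (T.l 944)))) (T.a (T.a (T.l 952) (T.l 952)) (T.a (T.c (T.l 952) (T.l 952)) (T.c (T.l 944) (T.l 944))))) (T.b (T.a (T.a (T.c (T.l 816) (T.l 944)) (T.c (T.l 816) (T.l 816))) (T.a (T.c (T.l 816) (T.l 816)) (T.c (T.l 0) (T.l 0)))) (T.a (T.a (T.c (T.l 816) (T.l 944)) (T.c (T.l 816) (T.l 816))) (T.a (T.c (T.l 816) (T.l 816)) (T.c (T.l 0) (T.l 0)))))) (T.a (T.b (T.a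 (T.a (T.l 952) (T.l 952)) (T.b (T.a (T.c (T.l 952) (T.c (T.l 952) (T.l 952))) (T.c (T.l 944) (T.l 944))) (T.a (T.c (T.l 952) (T.c (T.l 952) (T.l 952))) (T.c (T.l 944) (T.l 944))))) (T.a (T.a (T.l 952) (T.l 952)) (T.b (T.a (T.c (T.l 952) (T.c (T.l 952) (T.l 952))) (T.c (T.l 944) (T.l 944))) (T.a (T.c (T.l 952) (T.c (T.l 952) (T.l 952))) (T.c (T.l 944) (T.l 944)))))) (T.b (T.a (T.a (T.c (T.l 944) (T.l 944)) (T.c (T.l 816) (T.l 816))) (T.a (T.c (T.l 816) (T.l 816)) (T.c (T.l 0) (T.l 0)))) (T.a (T.a (T.c (T.l 944) (T.l 944)) (T.c (T.l 816) (T.l 944))) (T.a (T.c (T.l 816) (T.l 816)) (T.c (T.l 0) (T.l 0)))))))), by decide +kernel⟩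

def A102E_020_2_3737_1 :
    ∃ t, chk3 (onCell 0 16777216 0 1073741824 1040187392 5207648 (corT true 1 c0B cA102E gB0q1 gB2q0 gB0q2 gB1q2 true true)) t 2 3737 1 = true :=
  ⟨(T.a (T.l 816) (T.b (T.b (T.a (T.a (T.l 816) (T.a (T.l 824) (T.l 824))) (T.a (T.c (T.l 816) (T.l 824)) (T.l 952))) (T.a (T.a (T.l 816) (T.a (T.c (T.l 816) (T.l 816)) (T.l 824))) (T.a (T.c (T.l 816) (T.l 824)) (T.l 952)))) (T.b (T.a (T.a (T.l 816) (T.a (T.c (T.l 816) (T.l 816)) (T.l 824))) (T.a (T.c (T.l 816) (T.l 824)) (T.l 952))) (T.a (T.a (T.l 816) (T.a (T.c (T.l 816) (T.l 816)) (T.l 824))) (T.a (T.c (T.l 816) (T.l 824)) (T.l 952)))))), by decide +kernel⟩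

def A102E_020_3_7474_1 :
    ∃ t, chk3 (onCell 0 16777216 0 1073741824 1040187392 5207648 (corT true 1 c0B cA102E gB0q1 gB2q0 gB0q2 gB1q2 true true)) t 3 7474 1 = true :=
  ⟨(T.a (T.b (T.a (T.a (T.l 952) (T.l 952)) (T.b (T.a (T.c (T.l 952) (T.c (T.l 952) (T.l 952))) (T.c (T.l 944) (T.l 944))) (T.a (T.c (T.l 952) (T.c (T.l 952) (T.l 952))) (T.c (T.l 944) (T.l 944))))) (T.a (T.a (T.l 952) (T.c (T.l 816) (T.l 944))) (T.b (T.a (T.c (T.l 952) (T.c (T.l 952) (T.l 952))) (T.c (T.l 944) (T.l 944))) (T.a (T.c (T.l 952) (T.c (T.l 952) (T.l 952))) (T.c (T.l 944) (T.l 944)))))) (T.b (T.a (T.a (T.c (T.l 944) (T.l 944)) (T.c (T.l 816) (T.l 944))) (T.a (T.c (T.l 816) (T.l 816)) (T.c (T.l 0) (T.l 0)))) (T.a (T.b (T.a (T.c (T.l 944) (T.l 944)) (T.c (T.l 816) (T.l 944))) (T.a (T.c (T.l 944) (T.l 944)) (T.c (T.l 816) (T.l 944)))) (T.a (T.c (T.l 816) (T.l 816))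 (T.c (T.l 0) (T.l 0)))))), by decide +kernel⟩

def A102E_020_3_7475_1 :
    ∃ t, chk3 (onCell 0 16777216 0 1073741824 1040187392 5207648 (corT true 1 c0B cA102E gB0q1 gB2q0 gB0q2 gB1q2 true true)) t 3 7475 1 = true :=
  ⟨(T.a (T.b (T.a (T.a (T.l 952) (T.c (T.l 816) (T.l 944))) (T.b (T.a (T.c (T.l 952) (T.c (T.l 952) (T.l 952))) (T.c (T.l 944) (T.l 944))) (T.a (T.c (T.l 952) (T.c (T.l 952) (T.l 952))) (T.c (T.l 944) (T.l 944))))) (T.a (T.a (T.c (T.l 816) (T.l 944)) (T.c (T.l 816) (T.l 944))) (T.b (T.a (T.c (T.l 952) (T.c (T.l 952) (T.l 952))) (T.c (T.l 944) (T.l 944))) (T.a (T.c (T.l 952) (T.c (T.l 952) (T.l 952))) (T.c (T.l 944) (T.l 944)))))) (T.b (T.a (T.b (T.a (T.c (T.l 944) (T.l 944)) (T.c (T.l 816) (T.l 944))) (T.a (T.c (T.l 944) (T.l 944)) (T.c (T.l 816) (T.l 944)))) (T.b (T.a (T.c (T.l 816) (T.l 816)) (T.c (T.l 0) (T.l 0))) (T.a (T.c (T.l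 816) (T.l 816)) (T.c (T.l 0) (T.l 0))))) (T.a (T.b (T.a (T.c (T.l 944) (T.l 944)) (T.c (T.l 816) (T.l 944))) (T.a (T.c (T.l 944) (T.l 944)) (T.c (T.l 816) (T.l 944)))) (T.b (T.a (T.c (T.l 816) (T.l 816)) (T.c (T.l 0) (T.l 0))) (T.a (T.c (T.l 816) (T.l 816)) (T.c (T.l 0) (T.l 0))))))), by decide +kernel⟩

def A102E_020_1_1869_1 :
    ∃ t, chk3 (onCell 0 16777216 0 1073741824 1040187392 5207648 (corT true 1 c0B cA102E gB0q1 gB2q0 gB0q2 gB1q2 true true)) t 1 1869 1 = true :=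
  ⟨(T.a (T.l 1) (T.b (T.b (T.a (T.b (T.b (T.a (T.a (T.l 1) (T.c (T.l 816) (T.l 944))) (T.a (T.c (T.l 952) (T.a (T.l 944) (T.l 944))) (T.c (T.l 944) (T.l 944)))) (T.l 1)) (T.l 1)) (T.b (T.a (T.b (T.a (T.c (T.l 944) (T.l 944)) (T.c (T.l 944) (T.l 944))) (T.a (T.c (T.l 944) (T.l 944)) (T.c (T.l 944) (T.l 944)))) (T.b (T.a (T.c (T.l 816) (T.l 816)) (T.c (T.l 0) (T.l 0))) (T.a (T.c (T.l 816) (T.l 816)) (T.c (T.l 0) (T.l 0))))) (T.a (T.l 1) (T.a (T.l 1) (T.c (T.l 0) (T.l 0)))))) (T.l 1)) (T.l 1))), by decide +kernel⟩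

def A102E_020_1_935_1 :
    ∃ t, chk3 (onCell 0 16777216 0 1073741824 1040187392 5207648 (corT true 1 c0B cA102E gB0q1 gB2q0 gB0q2 gB1q2 true true)) t 1 935 1 = true :=
  ⟨(T.l 1), by decide +kernel⟩

def A102E_020_1_117_1 :
    ∃ t, chk3 (onCell 0 16777216 0 1073741824 1040187392 5207648 (corT true 1 c0B cA102E gB0q1 gB2q0 gB0q2 gB1q2 true true)) t 1 117 1 = true :=
  ⟨(T.l 1), by decide +kernel⟩

def A102E_020_1_59_1 :
    ∃ t, chk3 (onCell 0 16777216 0 1073741824 1040187392 5207648 (corT true 1 c0B cA102E gB0q1 gB2q0 gB0q2 gB1q2 true true)) t 1 59 1 = true :=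
  ⟨(T.l 1), by decide +kernel⟩

def A102E_020_1_15_1 :
    ∃ t, chk3 (onCell 0 16777216 0 1073741824 1040187392 5207648 (corT true 1 c0B cA102E gB0q1 gB2q0 gB0q2 gB1q2 true true)) t 1 15 1 = true :=
  ⟨(T.l 1), by decide +kernel⟩

theorem A102E_020_3_3737_1 :
    ∃ t, chk3 (onCell 0 16777216 0 1073741824 1040187392 5207648 (corT true 1 c0B cA102E gB0q1 gB2q0 gB0q2 gB1q2 true true)) t 3 3737 1 = true :=
  ex3_b A102E_020_3_7474_1 A102E_020_3_7475_1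
theorem A102E_020_1_3737_1 :
    ∃ t, chk3 (onCell 0 16777216 0 1073741824 1040187392 5207648 (corT true 1 c0B cA102E gB0q1 gB2q0 gB0q2 gB1q2 true true)) t 1 3737 1 = true :=
  ex3_a A102E_020_2_3737_1 A102E_020_3_3737_1
theorem A102E_020_1_1868_1 :
    ∃ t, chk3 (onCell 0 16777216 0 1073741824 1040187392 5207648 (corT true 1 c0B cA102E gB0q1 gB2q0 gB0q2 gB1q2 true true)) t 1 1868 1 = true :=
  ex3_b A102E_020_1_3736_1 A102E_020_1_3737_1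
theorem A102E_020_1_934_1 :
    ∃ t, chk3 (onCell 0 16777216 0 1073741824 1040187392 5207648 (corT true 1 c0B cA102E gB0q1 gB2q0 gB0q2 gB1q2 true true)) t 1 934 1 = true :=
  ex3_b A102E_020_1_1868_1 A102E_020_1_1869_1
theorem A102E_020_1_467_1 :
    ∃ t, chk3 (onCell 0 16777216 0 1073741824 1040187392 5207648 (corT true 1 c0B cA102E gB0q1 gB2q0 gB0q2 gB1q2 true true)) t 1 467 1 = true :=
  ex3_b A102E_020_1_934_1 A102E_020_1_935_1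
theorem A102E_020_1_1867_1 :
    ∃ t, chk3 (onCell 0 16777216 0 1073741824 1040187392 5207648 (corT true 1 c0B cA102E gB0q1 gB2q0 gB0q2 gB1q2 true true)) t 1 1867 1 = true :=
  ex3_b A102E_020_1_3734_1 A102E_020_1_3735_1
theorem A102E_020_1_933_1 :
    ∃ t, chk3 (onCell 0 16777216 0 1073741824 1040187392 5207648 (corT true 1 c0B cA102E gB0q1 gB2q0 gB0q2 gB1q2 true true)) t 1 933 1 = true :=
  ex3_b A102E_020_1_1866_1 A102E_020_1_1867_1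
theorem A102E_020_1_932_1 :
    ∃ t, chk3 (onCell 0 16777216 0 1073741824 1040187392 5207648 (corT true 1 c0B cA102E gB0q1 gB2q0 gB0q2 gB1q2 true true)) t 1 932 1 = true :=
  ex3_b A102E_020_1_1864_1 A102E_020_1_1865_1
theorem A102E_020_1_466_1 :
    ∃ t, chk3 (onCell 0 16777216 0 1073741824 1040187392 5207648 (corT true 1 c0B cA102E gB0q1 gB2q0 gB0q2 gB1q2 true true)) t 1 466 1 = true :=
  ex3_b A102E_020_1_932_1 A102E_020_1_933_1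
theorem A102E_020_1_233_1 :
    ∃ t, chk3 (onCell 0 16777216 0 1073741824 1040187392 5207648 (corT true 1 c0B cA102E gB0q1 gB2q0 gB0q2 gB1q2 true true)) t 1 233 1 = true :=
  ex3_b A102E_020_1_466_1 A102E_020_1_467_1
theorem A102E_020_1_465_1 :
    ∃ t, chk3 (onCell 0 16777216 0 1073741824 1040187392 5207648 (corT true 1 c0B cA102E gB0q1 gB2q0 gB0q2 gB1q2 true true)) t 1 465 1 = true :=
  ex3_b A102E_020_1_930_1 A102E_020_1_931_1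
theorem A102E_020_1_232_1 :
    ∃ t, chk3 (onCell 0 16777216 0 1073741824 1040187392 5207648 (corT true 1 c0B cA102E gB0q1 gB2q0 gB0q2 gB1q2 true true)) t 1 232 1 = true :=
  ex3_b A102E_020_1_464_1 A102E_020_1_465_1
theorem A102E_020_1_116_1 :
    ∃ t, chk3 (onCell 0 16777216 0 1073741824 1040187392 5207648 (corT true 1 c0B cA102E gB0q1 gB2q0 gB0q2 gB1q2 true true)) t 1 116 1 = true :=
  ex3_b A102E_020_1_232_1 A102E_020_1_233_1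
theorem A102E_020_1_58_1 :
    ∃ t, chk3 (onCell 0 16777216 0 1073741824 1040187392 5207648 (corT true 1 c0B cA102E gB0q1 gB2q0 gB0q2 gB1q2 true true)) t 1 58 1 = true :=
  ex3_b A102E_020_1_116_1 A102E_020_1_117_1
theorem A102E_020_1_29_1 :
    ∃ t, chk3 (onCell 0 16777216 0 1073741824 1040187392 5207648 (corT true 1 c0B cA102E gB0q1 gB2q0 gB0q2 gB1q2 true true)) t 1 29 1 = true :=
  ex3_b A102E_020_1_58_1 A102E_020_1_59_1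
theorem A102E_020_1_231_1 :
    ∃ t, chk3 (onCell 0 16777216 0 1073741824 1040187392 5207648 (corT true 1 c0B cA102E gB0q1 gB2q0 gB0q2 gB1q2 true true)) t 1 231 1 = true :=
  ex3_b A102E_020_1_462_1 A102E_020_1_463_1
theorem A102E_020_1_230_1 :
    ∃ t, chk3 (onCell 0 16777216 0 1073741824 1040187392 5207648 (corT true 1 c0B cA102E gB0q1 gB2q0 gB0q2 gB1q2 true true)) t 1 230 1 = true :=
  ex3_b A102E_020_1_460_1 A102E_020_1_461_1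
theorem A102E_020_1_115_1 :
    ∃ t, chk3 (onCell 0 16777216 0 1073741824 1040187392 5207648 (corT true 1 c0B cA102E gB0q1 gB2q0 gB0q2 gB1q2 true true)) t 1 115 1 = true :=
  ex3_b A102E_020_1_230_1 A102E_020_1_231_1
theorem A102E_020_1_57_1 :
    ∃ t, chk3 (onCell 0 16777216 0 1073741824 1040187392 5207648 (corT true 1 c0B cA102E gB0q1 gB2q0 gB0q2 gB1q2 true true)) t 1 57 1 = true :=
  ex3_b A102E_020_1_114_1 A102E_020_1_115_1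
theorem A102E_020_1_28_1 :
    ∃ t, chk3 (onCell 0 16777216 0 1073741824 1040187392 5207648 (corT true 1 c0B cA102E gB0q1 gB2q0 gB0q2 gB1q2 true true)) t 1 28 1 = true :=
  ex3_b A102E_020_1_56_1 A102E_020_1_57_1
theorem A102E_020_1_14_1 :
    ∃ t, chk3 (onCell 0 16777216 0 1073741824 1040187392 5207648 (corT true 1 c0B cA102E gB0q1 gB2q0 gB0q2 gB1q2 true true)) t 1 14 1 = true :=
  ex3_b A102E_020_1_28_1 A102E_020_1_29_1
theorem A102E_020_1_7_1 :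
    ∃ t, chk3 (onCell 0 16777216 0 1073741824 1040187392 5207648 (corT true 1 c0B cA102E gB0q1 gB2q0 gB0q2 gB1q2 true true)) t 1 7 1 = true :=
  ex3_b A102E_020_1_14_1 A102E_020_1_15_1
theorem A102E_020_1_3_1 :
    ∃ t, chk3 (onCell 0 16777216 0 1073741824 1040187392 5207648 (corT true 1 c0B cA102E gB0q1 gB2q0 gB0q2 gB1q2 true true)) t 1 3 1 = true :=
  ex3_b A102E_020_1_6_1 A102E_020_1_7_1
theorem A102E_020 :
    ∃ t, chk3 (onCell 0 16777216 0 1073741824 1040187392 5207648 (corT true 1 c0B cA102E gB0q1 gB2q0 gB0q2 gB1q2 true true)) t 1 1 1 = true :=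
  ex3_b A102E_020_1_2_1 A102E_020_1_3_1

def A102E_021_1_2_1 :
    ∃ t, chk3 (onCell 0 16777216 0 1073741824 1040187392 5207648 (corT true 1 c0B cA102E gB0q1 gB2q0 gB1q2 gB2q2 true true)) t 1 2 1 = true :=
  ⟨(T.l 2), by decide +kernel⟩

def A102E_021_1_6_1 :
    ∃ t, chk3 (onCell 0 16777216 0 1073741824 1040187392 5207648 (corT true 1 c0B cA102E gB0q1 gB2q0 gB1q2 gB2q2 true true)) t 1 6 1 = true :=
  ⟨(T.b (T.l 2) (T.b (T.l 2) (T.b (T.l 2) (T.b (T.l 2) (T.b (T.b (T.a (T.l 2) (T.a (T.l 2) (T.l 204))) (T.b (T.a (T.a (T.l 204) (T.a (T.l 204) (T.l 0))) (T.a (T.l 0) (T.l 204))) (T.a (T.a (T.l 204) (T.a (T.l 0) (T.l 0))) (T.a (T.l 0) (T.l 204))))) (T.b (T.b (T.a (T.a (T.l 204) (T.a (T.l 0) (T.l 0))) (T.a (T.l 0) (T.l 204))) (T.a (T.a (T.l 204) (T.a (T.l 0) (T.l 0))) (T.a (T.l 0) (T.l 0)))) (T.b (T.a (T.a (T.l 204) (T.a (T.l 0) (T.l 0))) (T.a (T.l 0)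 (T.l 0))) (T.a (T.a (T.l 204) (T.a (T.l 0) (T.l 0))) (T.a (T.l 0) (T.l 0)))))))))), by decide +kernel⟩

def A102E_021_1_112_1 :
    ∃ t, chk3 (onCell 0 16777216 0 1073741824 1040187392 5207648 (corT true 1 c0B cA102E gB0q1 gB2q0 gB1q2 gB2q2 true true)) t 1 112 1 = true :=
  ⟨(T.b (T.b (T.b (T.a (T.a (T.l 204) (T.a (T.l 0) (T.l 0))) (T.a (T.l 0) (T.l 0))) (T.a (T.a (T.l 204) (T.a (T.l 0) (T.l 0))) (T.a (T.l 0) (T.l 0)))) (T.b (T.a (T.a (T.l 204) (T.a (T.l 0) (T.l 0))) (T.a (T.l 0) (T.l 0))) (T.a (T.a (T.l 0) (T.a (T.l 0) (T.l 0))) (T.a (T.l 0) (T.l 0))))) (T.b (T.b (T.a (T.a (T.l 0) (T.a (T.l 0) (T.l 0))) (T.a (T.l 0) (T.l 0))) (T.a (T.a (T.l 0) (T.a (T.l 0) (T.l 816))) (T.a (T.l 8) (T.l 0)))) (T.b (T.a (T.a (T.l 0) (T.a (T.l 0) (T.l 816))) (T.a (T.a (T.l 816) (T.l 0)) (T.l 0))) (T.a (T.a (T.l 0) (T.a (T.l 0) (T.l 816))) (T.a (T.a (T.l 816) (T.l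 0)) (T.l 0)))))), by decide +kernel⟩

def A102E_021_1_113_1 :
    ∃ t, chk3 (onCell 0 16777216 0 1073741824 1040187392 5207648 (corT true 1 c0B cA102E gB0q1 gB2q0 gB1q2 gB2q2 true true)) t 1 113 1 = true :=
  ⟨(T.b (T.b (T.b (T.a (T.a (T.l 816) (T.a (T.l 0) (T.l 816))) (T.a (T.a (T.l 816) (T.l 0)) (T.l 0))) (T.a (T.a (T.l 816) (T.a (T.l 0) (T.l 816))) (T.a (T.a (T.l 816) (T.l 0)) (T.l 0)))) (T.b (T.a (T.a (T.l 816) (T.a (T.l 0) (T.l 816))) (T.a (T.a (T.l 816) (T.l 0)) (T.l 0))) (T.a (T.a (T.l 816) (T.a (T.l 0) (T.l 816))) (T.a (T.a (T.l 816) (T.l 0)) (T.l 0))))) (T.b (T.b (T.b (T.a (T.a (T.l 816) (T.a (T.l 0) (T.l 816))) (T.a (T.a (T.l 816) (T.l 816)) (T.l 0))) (T.a (T.a (T.l 816) (T.a (T.l 0) (T.l 816))) (T.a (T.a (T.l 816) (T.l 816)) (T.l 0)))) (T.b (T.a (T.a (T.l 816) (T.a (T.l 0) (T.l 816))) (T.a (T.a (T.l 816) (T.l 816)) (T.l 0))) (T.a (T.a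 (T.l 816) (T.a (T.l 0) (T.l 816))) (T.a (T.a (T.l 816) (T.l 816)) (T.l 0))))) (T.b (T.b (T.a (T.a (T.l 816) (T.a (T.l 0) (T.l 816))) (T.a (T.a (T.l 816) (T.l 816)) (T.l 0))) (T.a (T.a (T.l 816) (T.a (T.l 816) (T.l 816))) (T.a (T.a (T.l 816) (T.l 816)) (T.l 0)))) (T.b (T.a (T.a (T.l 816) (T.a (T.l 816) (T.l 816))) (T.a (T.a (T.l 816) (T.l 816)) (T.l 0))) (T.a (T.a (T.l 816) (T.a (T.l 816) (T.l 816))) (T.a (T.a (T.l 816) (T.l 816)) (T.l 0))))))), by decide +kernel⟩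

def A102E_021_1_228_1 :
    ∃ t, chk3 (onCell 0 16777216 0 1073741824 1040187392 5207648 (corT true 1 c0B cA102E gB0q1 gB2q0 gB1q2 gB2q2 true true)) t 1 228 1 = true :=
  ⟨(T.b (T.b (T.b (T.a (T.a (T.l 816) (T.a (T.l 816) (T.l 816))) (T.a (T.a (T.l 816) (T.l 816)) (T.l 0))) (T.a (T.a (T.l 816) (T.a (T.l 816) (T.l 816))) (T.a (T.a (T.l 816) (T.l 816)) (T.l 0)))) (T.b (T.a (T.a (T.l 816) (T.a (T.l 816) (T.l 816))) (T.a (T.a (T.l 816) (T.l 816)) (T.l 0))) (T.a (T.a (T.l 816) (T.a (T.l 816) (T.l 816))) (T.a (T.a (T.l 816) (T.l 816)) (T.l 0))))) (T.b (T.b (T.a (T.a (T.l 816) (T.a (T.l 824) (T.l 816))) (T.a (T.a (T.l 816) (T.l 816)) (T.l 0))) (T.a (T.a (T.l 816) (T.a (T.c (T.l 816) (T.l 816)) (T.l 816))) (T.a (T.a (T.l 816) (T.l 816)) (T.l 0)))) (T.b (T.a (T.a (T.l 816) (T.a (T.c (T.l 816) (T.l 816)) (T.l 816))) (T.a (T.a (T.l 816) (T.l 816)) (T.l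 0))) (T.a (T.a (T.l 816) (T.a (T.c (T.l 816) (T.l 824)) (T.l 816))) (T.a (T.a (T.l 816) (T.l 816)) (T.l 0)))))), by decide +kernel⟩

def A102E_021_1_229_1 :
    ∃ t, chk3 (onCell 0 16777216 0 1073741824 1040187392 5207648 (corT true 1 c0B cA102E gB0q1 gB2q0 gB1q2 gB2q2 true true)) t 1 229 1 = true :=
  ⟨(T.b (T.b (T.b (T.a (T.a (T.l 816) (T.a (T.a (T.l 816) (T.l 816)) (T.l 816))) (T.a (T.a (T.l 816) (T.l 816)) (T.l 0))) (T.a (T.a (T.l 816) (T.a (T.a (T.l 816) (T.l 816)) (T.l 816))) (T.a (T.a (T.l 816) (T.l 816)) (T.l 0)))) (T.b (T.a (T.a (T.l 816) (T.a (T.a (T.l 816) (T.l 816)) (T.l 816))) (T.a (T.a (T.l 816) (T.l 816)) (T.l 0))) (T.a (T.a (T.l 816) (T.a (T.a (T.l 816) (T.l 816)) (T.l 816))) (T.a (T.a (T.l 816) (T.l 816)) (T.l 0))))) (T.b (T.b (T.a (T.a (T.l 816) (T.a (T.a (T.l 816) (T.l 816)) (T.l 816))) (T.a (T.a (T.l 816) (T.l 816)) (T.l 512)))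 (T.a (T.a (T.l 816) (T.a (T.a (T.l 816) (T.l 816)) (T.l 816))) (T.a (T.a (T.l 816) (T.l 816)) (T.a (T.l 0) (T.l 0))))) (T.b (T.a (T.a (T.l 816) (T.a (T.a (T.l 816) (T.l 816)) (T.l 816))) (T.a (T.a (T.l 816) (T.l 816)) (T.a (T.l 0) (T.l 0)))) (T.a (T.a (T.l 816) (T.a (T.a (T.l 816) (T.l 816)) (T.l 816))) (T.a (T.a (T.l 816) (T.l 816)) (T.a (T.l 0) (T.l 0))))))), by decide +kernel⟩

def A102E_021_1_115_1 :
    ∃ t, chk3 (onCell 0 16777216 0 1073741824 1040187392 5207648 (corT true 1 c0B cA102E gB0q1 gB2q0 gB1q2 gB2q2 true true)) t 1 115 1 = true :=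
  ⟨(T.b (T.b (T.b (T.b (T.a (T.a (T.l 816) (T.a (T.a (T.l 816) (T.l 816)) (T.l 816))) (T.a (T.a (T.l 816) (T.l 816)) (T.a (T.l 0) (T.l 0)))) (T.b (T.a (T.a (T.l 816) (T.a (T.a (T.l 816) (T.l 816)) (T.l 816))) (T.a (T.a (T.l 816) (T.l 816)) (T.a (T.l 0) (T.l 0)))) (T.a (T.a (T.l 816) (T.a (T.a (T.l 816) (T.l 816)) (T.l 816))) (T.b (T.a (T.a (T.l 816) (T.l 816)) (T.a (T.l 0) (T.l 0))) (T.a (T.a (T.l 816) (T.l 816)) (T.a (T.l 0) (T.l 0))))))) (T.b (T.b (T.a (T.a (T.l 816) (T.a (T.a (T.l 816) (T.l 816)) (T.l 816))) (T.b (T.a (T.a (T.l 816) (T.l 816)) (T.a (T.l 816) (T.l 0))) (T.a (T.a (T.l 816) (T.l 816)) (T.a (T.l 816) (T.l 0))))) (T.a (T.a (T.l 816) (T.a (T.a (T.l 816) (T.l 816)) (T.l 816))) (T.b (T.a (T.a (T.l 816) (T.l 816)) (T.a (T.l 816) (T.l 0))) (T.a (T.a (T.l 816) (T.l 816)) (T.a (T.l 816) (T.l 0)))))) (T.b (T.a (T.a (T.l 816) (T.a (T.a (T.l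 816) (T.l 816)) (T.l 816))) (T.a (T.a (T.l 816) (T.l 1)) (T.l 1))) (T.l 1)))) (T.l 1)) (T.l 1)), by decide +kernel⟩

def A102E_021_1_29_1 :
    ∃ t, chk3 (onCell 0 16777216 0 1073741824 1040187392 5207648 (corT true 1 c0B cA102E gB0q1 gB2q0 gB1q2 gB2q2 true true)) t 1 29 1 = true :=
  ⟨(T.l 1), by decide +kernel⟩

def A102E_021_1_15_1 :
    ∃ t, chk3 (onCell 0 16777216 0 1073741824 1040187392 5207648 (corT true 1 c0B cA102E gB0q1 gB2q0 gB1q2 gB2q2 true true)) t 1 15 1 = true :=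
  ⟨(T.l 1), by decide +kernel⟩

theorem A102E_021_1_114_1 :
    ∃ t, chk3 (onCell 0 16777216 0 1073741824 1040187392 5207648 (corT true 1 c0B cA102E gB0q1 gB2q0 gB1q2 gB2q2 true true)) t 1 114 1 = true :=
  ex3_b A102E_021_1_228_1 A102E_021_1_229_1
theorem A102E_021_1_57_1 :
    ∃ t, chk3 (onCell 0 16777216 0 1073741824 1040187392 5207648 (corT true 1 c0B cA102E gB0q1 gB2q0 gB1q2 gB2q2 true true)) t 1 57 1 = true :=
  ex3_b A102E_021_1_114_1 A102E_021_1_115_1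
theorem A102E_021_1_56_1 :
    ∃ t, chk3 (onCell 0 16777216 0 1073741824 1040187392 5207648 (corT true 1 c0B cA102E gB0q1 gB2q0 gB1q2 gB2q2 true true)) t 1 56 1 = true :=
  ex3_b A102E_021_1_112_1 A102E_021_1_113_1
theorem A102E_021_1_28_1 :
    ∃ t, chk3 (onCell 0 16777216 0 1073741824 1040187392 5207648 (corT true 1 c0B cA102E gB0q1 gB2q0 gB1q2 gB2q2 true true)) t 1 28 1 = true :=
  ex3_b A102E_021_1_56_1 A102E_021_1_57_1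
theorem A102E_021_1_14_1 :
    ∃ t, chk3 (onCell 0 16777216 0 1073741824 1040187392 5207648 (corT true 1 c0B cA102E gB0q1 gB2q0 gB1q2 gB2q2 true true)) t 1 14 1 = true :=
  ex3_b A102E_021_1_28_1 A102E_021_1_29_1
theorem A102E_021_1_7_1 :
    ∃ t, chk3 (onCell 0 16777216 0 1073741824 1040187392 5207648 (corT true 1 c0B cA102E gB0q1 gB2q0 gB1q2 gB2q2 true true)) t 1 7 1 = true :=
  ex3_b A102E_021_1_14_1 A102E_021_1_15_1
theorem A102E_021_1_3_1 :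
    ∃ t, chk3 (onCell 0 16777216 0 1073741824 1040187392 5207648 (corT true 1 c0B cA102E gB0q1 gB2q0 gB1q2 gB2q2 true true)) t 1 3 1 = true :=
  ex3_b A102E_021_1_6_1 A102E_021_1_7_1
theorem A102E_021 :
    ∃ t, chk3 (onCell 0 16777216 0 1073741824 1040187392 5207648 (corT true 1 c0B cA102E gB0q1 gB2q0 gB1q2 gB2q2 true true)) t 1 1 1 = true :=
  ex3_b A102E_021_1_2_1 A102E_021_1_3_1

def A102E_022_1_2_1 :
    ∃ t, chk3 (onCell 0 16777216 0 1073741824 1040187392 5207648 (corT true 1 c0B cA102E gB0q1 gB2q0 gB2q2 gB3q2 true false)) t 1 2 1 = true :=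
  ⟨(T.a (T.a (T.l 204) (T.l 0)) (T.l 0)), by decide +kernel⟩

def A102E_022_1_12_1 :
    ∃ t, chk3 (onCell 0 16777216 0 1073741824 1040187392 5207648 (corT true 1 c0B cA102E gB0q1 gB2q0 gB2q2 gB3q2 true false)) t 1 12 1 = true :=
  ⟨(T.b (T.a (T.a (T.l 204) (T.l 0)) (T.a (T.l 0) (T.l 204))) (T.a (T.a (T.l 204) (T.l 0)) (T.a (T.l 0) (T.l 204)))), by decide +kernel⟩

def A102E_022_1_26_1 :
    ∃ t, chk3 (onCell 0 16777216 0 1073741824 1040187392 5207648 (corT true 1 c0B cA102E gB0q1 gB2q0 gB2q2 gB3q2 true false)) t 1 26 1 = true :=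
  ⟨(T.b (T.a (T.a (T.l 204) (T.l 0)) (T.a (T.l 0) (T.l 204))) (T.b (T.a (T.a (T.l 204) (T.l 0)) (T.a (T.l 0) (T.l 204))) (T.b (T.b (T.a (T.a (T.l 204) (T.l 0)) (T.a (T.l 0) (T.l 204))) (T.a (T.a (T.l 204) (T.l 0)) (T.a (T.l 0) (T.l 204)))) (T.b (T.a (T.a (T.l 204) (T.l 0)) (T.a (T.l 0) (T.l 204))) (T.a (T.a (T.l 204) (T.l 0)) (T.a (T.l 0) (T.l 204))))))), by decide +kernel⟩

def A102E_022_1_27_1 :
    ∃ t, chk3 (onCell 0 16777216 0 1073741824 1040187392 5207648 (corT true 1 c0B cA102E gB0q1 gB2q0 gB2q2 gB3q2 true false)) t 1 27 1 = true :=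
  ⟨(T.b (T.b (T.b (T.b (T.a (T.a (T.l 204) (T.l 0)) (T.a (T.l 0) (T.l 204))) (T.a (T.a (T.l 204) (T.l 0)) (T.a (T.l 0) (T.l 204)))) (T.b (T.a (T.a (T.l 204) (T.l 0)) (T.a (T.l 0) (T.l 204))) (T.a (T.a (T.l 204) (T.l 0)) (T.a (T.l 0) (T.l 204))))) (T.b (T.b (T.a (T.a (T.l 204) (T.a (T.l 204) (T.l 204))) (T.a (T.l 0) (T.l 204))) (T.a (T.a (T.l 204) (T.a (T.l 204) (T.l 0))) (T.a (T.l 0) (T.l 204)))) (T.b (T.a (T.a (T.l 204) (T.a (T.l 204) (T.l 0))) (T.a (T.l 0) (T.l 204))) (T.b (T.a (T.a (T.l 204) (T.a (T.l 204) (T.l 0))) (T.a (T.l 0) (T.l 204))) (T.a (T.a (T.l 204) (T.a (T.l 204) (T.l 0))) (T.a (T.l 0) (T.l 204))))))) (T.b (T.b (T.b (T.b (T.a (T.a (T.l 204) (T.a (T.l 204) (T.l 0))) (T.a (T.l 0) (T.l 204))) (T.a (T.a (T.l 204) (T.a (T.l 204) (T.l 0))) (T.a (T.l 0) (T.l 204)))) (T.b (T.a (T.a (T.l 204) (T.a (T.l 204) (T.l 0))) (T.a (T.l 0) (T.l 204)))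 (T.a (T.a (T.l 204) (T.a (T.l 204) (T.l 0))) (T.a (T.l 0) (T.l 204))))) (T.b (T.b (T.a (T.a (T.l 204) (T.a (T.l 204) (T.l 0))) (T.a (T.l 0) (T.l 204))) (T.a (T.a (T.l 204) (T.a (T.l 204) (T.l 0))) (T.a (T.l 0) (T.l 204)))) (T.b (T.a (T.a (T.l 204) (T.a (T.l 204) (T.l 0))) (T.a (T.l 0) (T.l 204))) (T.a (T.a (T.l 204) (T.a (T.l 204) (T.l 0))) (T.a (T.l 0) (T.l 204)))))) (T.b (T.b (T.b (T.a (T.a (T.l 204) (T.a (T.l 204) (T.l 0))) (T.a (T.l 0) (T.l 204))) (T.a (T.a (T.l 204) (T.a (T.l 204) (T.l 0))) (T.a (T.l 0) (T.l 204)))) (T.b (T.a (T.a (T.l 204) (T.a (T.l 204) (T.l 0))) (T.a (T.l 0) (T.l 204))) (T.a (T.a (T.l 204) (T.l 1)) (T.l 1)))) (T.l 1)))), by decide +kernel⟩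

def A102E_022_1_7_1 :
    ∃ t, chk3 (onCell 0 16777216 0 1073741824 1040187392 5207648 (corT true 1 c0B cA102E gB0q1 gB2q0 gB2q2 gB3q2 true false)) t 1 7 1 = true :=
  ⟨(T.l 1), by decide +kernel⟩

theorem A102E_022_1_13_1 :
    ∃ t, chk3 (onCell 0 16777216 0 1073741824 1040187392 5207648 (corT true 1 c0B cA102E gB0q1 gB2q0 gB2q2 gB3q2 true false)) t 1 13 1 = true :=
  ex3_b A102E_022_1_26_1 A102E_022_1_27_1
theorem A102E_022_1_6_1 :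
    ∃ t, chk3 (onCell 0 16777216 0 1073741824 1040187392 5207648 (corT true 1 c0B cA102E gB0q1 gB2q0 gB2q2 gB3q2 true false)) t 1 6 1 = true :=
  ex3_b A102E_022_1_12_1 A102E_022_1_13_1
theorem A102E_022_1_3_1 :
    ∃ t, chk3 (onCell 0 16777216 0 1073741824 1040187392 5207648 (corT true 1 c0B cA102E gB0q1 gB2q0 gB2q2 gB3q2 true false)) t 1 3 1 = true :=
  ex3_b A102E_022_1_6_1 A102E_022_1_7_1
theorem A102E_022 :
    ∃ t, chk3 (onCell 0 16777216 0 1073741824 1040187392 5207648 (corT true 1 c0B cA102E gB0q1 gB2q0 gB2q2 gB3q2 true false)) t 1 1 1 = true :=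
  ex3_b A102E_022_1_2_1 A102E_022_1_3_1

def A102R_004 :
    ∃ t, chk3 (onCell 0 26843545 0 1073741824 1040187392 5207648 (corT true 1 c0B cA102R gB0q1 gB0q0 gB4q2 gB5q2 false true)) t 1 1 1 = true :=
  ⟨(T.l 2), by decide +kernel⟩

def A102R_014 :
    ∃ t, chk3 (onCell 0 26843545 0 1073741824 1040187392 5207648 (corT true 1 c0B cA102R gB0q1 gB1q0 gB4q2 gB5q2 false true)) t 1 1 1 = true :=
  ⟨(T.l 2), by decide +kernel⟩

def A102R_024 :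
    ∃ t, chk3 (onCell 0 26843545 0 1073741824 1040187392 5207648 (corT true 1 c0B cA102R gB0q1 gB2q0 gB4q2 gB5q2 false true)) t 1 1 1 = true :=
  ⟨(T.l 2), by decide +kernel⟩

def A202E_000 :
    ∃ t, chk3 (onCell 0 22369621 0 1073741824 1040187392 5207648 (corT true 1 c0B cA202E gB0q2 gB0q0 gB0q2 gB1q2 true true)) t 1 1 1 = true :=
  ⟨(T.l 2), by decide +kernel⟩

def A202E_001 :
    ∃ t, chk3 (onCell 0 22369621 0 1073741824 1040187392 5207648 (corT true 1 c0B cA202E gB0q2 gB0q0 gB1q2 gB2q2 true true)) t 1 1 1 = true :=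
  ⟨(T.l 2), by decide +kernel⟩

def A202E_002 :
    ∃ t, chk3 (onCell 0 22369621 0 1073741824 1040187392 5207648 (corT true 1 c0B cA202E gB0q2 gB0q0 gB2q2 gB3q2 true false)) t 1 1 1 = true :=
  ⟨(T.b (T.a (T.l 0) (T.b (T.b (T.l 0) (T.l 0)) (T.b (T.a (T.l 0) (T.b (T.l 204) (T.l 0))) (T.a (T.b (T.l 816) (T.l 816)) (T.b (T.l 0) (T.l 816)))))) (T.b (T.a (T.a (T.l 816) (T.a (T.l 816) (T.b (T.l 816) (T.l 816)))) (T.a (T.b (T.b (T.l 816) (T.l 816)) (T.a (T.l 816) (T.l 816))) (T.b (T.b (T.l 816) (T.l 816)) (T.a (T.l 816) (T.l 816))))) (T.a (T.a (T.l 816) (T.a (T.b (T.l 816) (T.l 816)) (T.b (T.b (T.l 816) (T.l 816)) (T.a (T.b (T.l 816) (T.l 816)) (T.b (T.l 816) (T.l 816)))))) (T.a (T.b (T.a (T.b (T.l 816) (T.l 816)) (T.b (T.l 816) (T.l 816))) (T.a (T.b (T.l 816) (T.b (T.l 816) (T.l 816))) (T.a (T.l 816) (T.l 816)))) (T.b (T.a (T.l 816) (T.b (T.l 816) (T.l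 816))) (T.a (T.b (T.l 816) (T.l 816)) (T.b (T.b (T.l 816) (T.l 816)) (T.a (T.l 816) (T.l 816))))))))), by decide +kernel⟩

def A202E_010 :
    ∃ t, chk3 (onCell 0 22369621 0 1073741824 1040187392 5207648 (corT true 1 c0B cA202E gB0q2 gB1q0 gB0q2 gB1q2 true true)) t 1 1 1 = true :=
  ⟨(T.l 2), by decide +kernel⟩

def A202E_011 :
    ∃ t, chk3 (onCell 0 22369621 0 1073741824 1040187392 5207648 (corT true 1 c0B cA202E gB0q2 gB1q0 gB1q2 gB2q2 true true)) t 1 1 1 = true :=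
  ⟨(T.l 2), by decide +kernel⟩

end Pool.Agent.Strip051.G.I9688_9736.Tab.CG
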