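import Pool.Agent.Strip051.G.I9688_9736.Gn
import Pool.Agent.Strip051.PB.Corns
import Pool.Agent.Strip051.PB.CornW

/-! # Certificates of the aligned corners (generated) -/

set_option linter.all false

namespace Pool.Agent.Strip051.G.I9688_9736.Tab.CG

open Pool.Agent.Strip051.PB

def A202E_012 :
    ∃ t, chk3 (onCell 0 22369621 0 1073741824 1040187392 5207648 (corT true 1 c0B cA202E gB0q2 gB1q0 gB2q2 gB3q2 true false)) t 1 1 1 = true :=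
  ⟨(T.b (T.b (T.a (T.a (T.a (T.l 204) (T.b (T.l 204) (T.l 204))) (T.b (T.l 204) (T.l 0))) (T.b (T.l 0) (T.l 0))) (T.b (T.a (T.a (T.l 0) (T.l 0)) (T.a (T.l 0) (T.l 0))) (T.a (T.a (T.l 816) (T.l 0)) (T.a (T.b (T.l 0) (T.l 816)) (T.l 0))))) (T.b (T.b (T.a (T.a (T.l 816) (T.l 0)) (T.a (T.b (T.l 816) (T.l 816)) (T.b (T.l 816) (T.l 816)))) (T.a (T.a (T.l 816) (T.b (T.l 816) (T.l 816))) (T.a (T.b (T.l 816) (T.l 816)) (T.b (T.l 816) (T.l 816))))) (T.b (T.a (T.a (T.l 816) (T.a (T.l 816) (T.b (T.l 816) (T.l 816)))) (T.a (T.a (T.l 816) (T.l 816)) (T.a (T.l 816) (T.b (T.l 816) (T.l 816))))) (T.a (T.a (T.l 816) (T.a (T.l 816) (T.b (T.l 816) (T.a (T.l 816) (T.l 816))))) (T.a (T.a (T.b (T.l 816) (T.b (T.l 816) (T.l 816))) (T.a (T.l 816) (T.l 816))) (T.a (T.b (T.l 816) (T.l 816)) (T.b (T.l 816) (T.a (T.l 816) (T.l 816))))))))), by decide +kernel⟩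

def A202E_020 :
    ∃ t, chk3 (onCell 0 22369621 0 1073741824 1040187392 5207648 (corT true 1 c0B cA202E gB0q2 gB2q0 gB0q2 gB1q2 true true)) t 1 1 1 = true :=
  ⟨(T.l 2), by decide +kernel⟩

def A202E_021 :
    ∃ t, chk3 (onCell 0 22369621 0 1073741824 1040187392 5207648 (corT true 1 c0B cA202E gB0q2 gB2q0 gB1q2 gB2q2 true true)) t 1 1 1 = true :=
  ⟨(T.l 2), by decide +kernel⟩

def A202E_022 :
    ∃ t, chk3 (onCell 0 22369621 0 1073741824 1040187392 5207648 (corT true 1 c0B cA202E gB0q2 gB2q0 gB2q2 gB3q2 true false)) t 1 1 1 = true :=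
  ⟨(T.b (T.b (T.a (T.a (T.a (T.l 0) (T.b (T.l 0) (T.l 0))) (T.b (T.l 0) (T.l 0))) (T.b (T.l 0) (T.l 0))) (T.b (T.a (T.a (T.l 816) (T.l 0)) (T.a (T.l 0) (T.l 0))) (T.a (T.a (T.l 816) (T.l 0)) (T.a (T.l 0) (T.l 0))))) (T.b (T.b (T.a (T.a (T.l 816) (T.b (T.l 816) (T.l 816))) (T.a (T.b (T.l 816) (T.l 816)) (T.l 816))) (T.a (T.a (T.l 816) (T.b (T.l 816) (T.l 816))) (T.a (T.b (T.l 816) (T.l 816)) (T.b (T.l 816) (T.l 816))))) (T.b (T.a (T.a (T.l 816) (T.a (T.l 816) (T.l 816))) (T.a (T.a (T.l 816) (T.l 816)) (T.b (T.l 816) (T.l 816)))) (T.a (T.a (T.l 816) (T.a (T.l 816) (T.b (T.l 816) (T.a (T.l 816) (T.l 816))))) (T.a (T.a (T.b (T.l 816) (T.b (T.l 816) (T.l 816))) (T.a (T.l 816) (T.l 816))) (T.a (T.b (T.l 816) (T.l 816)) (T.b (T.l 816) (T.a (T.l 816) (T.l 816))))))))), by decide +kernel⟩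

def A202E_110 :
    ∃ t, chk3 (onCell 0 26843545 0 1073741824 1040187392 5207648 (corT true 1 c0B cA202E gB1q2 gB1q0 gB0q2 gB1q2 true true)) t 1 1 1 = true :=
  ⟨(T.l 2), by decide +kernel⟩

def A202E_111 :
    ∃ t, chk3 (onCell 0 26843545 0 1073741824 1040187392 5207648 (corT true 1 c0B cA202E gB1q2 gB1q0 gB1q2 gB2q2 true true)) t 1 1 1 = true :=
  ⟨(T.l 2), by decide +kernel⟩

def A202E_112 :
    ∃ t, chk3 (onCell 0 26843545 0 1073741824 1040187392 5207648 (corT true 1 c0B cA202E gB1q2 gB1q0 gB2q2 gB3q2 true false)) t 1 1 1 = true :=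
  ⟨(T.b (T.b (T.a (T.a (T.a (T.l 204) (T.b (T.l 204) (T.l 0))) (T.b (T.l 204) (T.l 0))) (T.b (T.l 204) (T.l 0))) (T.a (T.a (T.l 0) (T.b (T.l 0) (T.l 0))) (T.b (T.l 0) (T.l 0)))) (T.b (T.b (T.a (T.a (T.l 816) (T.l 0)) (T.b (T.l 0) (T.l 0))) (T.a (T.l 816) (T.a (T.l 816) (T.l 816)))) (T.a (T.l 816) (T.b (T.a (T.l 816) (T.b (T.l 816) (T.l 816))) (T.a (T.b (T.l 816) (T.l 816)) (T.b (T.l 816) (T.l 816))))))), by decide +kernel⟩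

def A202E_120 :
    ∃ t, chk3 (onCell 0 26843545 0 1073741824 1040187392 5207648 (corT true 1 c0B cA202E gB1q2 gB2q0 gB0q2 gB1q2 true true)) t 1 1 1 = true :=
  ⟨(T.l 2), by decide +kernel⟩

def A202E_121 :
    ∃ t, chk3 (onCell 0 26843545 0 1073741824 1040187392 5207648 (corT true 1 c0B cA202E gB1q2 gB2q0 gB1q2 gB2q2 true true)) t 1 1 1 = true :=
  ⟨(T.l 2), by decide +kernel⟩

def A202E_122 :
    ∃ t, chk3 (onCell 0 26843545 0 1073741824 1040187392 5207648 (corT true 1 c0B cA202E gB1q2 gB2q0 gB2q2 gB3q2 true false)) t 1 1 1 = true :=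
  ⟨(T.b (T.b (T.a (T.a (T.a (T.l 0) (T.b (T.l 0) (T.l 0))) (T.b (T.l 0) (T.l 0))) (T.b (T.l 0) (T.l 0))) (T.a (T.a (T.l 816) (T.b (T.l 0) (T.l 0))) (T.a (T.l 64) (T.l 0)))) (T.b (T.b (T.a (T.a (T.l 816) (T.l 0)) (T.b (T.l 0) (T.l 816))) (T.a (T.l 816) (T.a (T.l 816) (T.l 816)))) (T.a (T.l 816) (T.b (T.a (T.l 816) (T.b (T.l 816) (T.l 816))) (T.a (T.b (T.l 816) (T.l 816)) (T.b (T.l 816) (T.l 816))))))), by decide +kernel⟩

def A202E_220 :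
    ∃ t, chk3 (onCell 0 26843545 0 1073741824 1040187392 5207648 (corT true 1 c0B cA202E gB2q2 gB2q0 gB0q2 gB1q2 true true)) t 1 1 1 = true :=
  ⟨(T.l 2), by decide +kernel⟩

def A202E_221 :
    ∃ t, chk3 (onCell 0 26843545 0 1073741824 1040187392 5207648 (corT true 1 c0B cA202E gB2q2 gB2q0 gB1q2 gB2q2 true true)) t 1 1 1 = true :=
  ⟨(T.l 2), by decide +kernel⟩

def A202E_222 :
    ∃ t, chk3 (onCell 0 26843545 0 1073741824 1040187392 5207648 (corT true 1 c0B cA202E gB2q2 gB2q0 gB2q2 gB3q2 true false)) t 1 1 1 = true :=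
  ⟨(T.b (T.b (T.a (T.a (T.a (T.l 204) (T.b (T.l 0) (T.l 0))) (T.b (T.l 0) (T.l 0))) (T.b (T.l 0) (T.l 0))) (T.a (T.a (T.l 204) (T.b (T.l 0) (T.l 0))) (T.b (T.l 0) (T.l 0)))) (T.b (T.b (T.a (T.a (T.l 204) (T.l 0)) (T.b (T.l 0) (T.l 0))) (T.a (T.l 0) (T.b (T.l 0) (T.l 0)))) (T.a (T.l 0) (T.b (T.b (T.l 0) (T.l 0)) (T.l 0))))), by decide +kernel⟩

def A202R_004_1_2_1 :
    ∃ t, chk3 (onCell 0 22369621 0 1073741824 1040187392 5207648 (corX 1 c0B cA202R tA202R gB0q2 gB0q0 gB4q2 gB5q2 gB5q2 false true)) t 1 2 1 = true :=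
  ⟨(T.b (T.l 2) (T.a (T.l 819) (T.b (T.b (T.l 2) (T.b (T.l 819) (T.l 819))) (T.a (T.b (T.l 819) (T.l 819)) (T.b (T.a (T.b (T.l 819) (T.a (T.l 819) (T.b (T.l 819) (T.l 816)))) (T.b (T.a (T.b (T.l 819) (T.l 816)) (T.b (T.b (T.l 816) (T.l 816)) (T.l 816))) (T.a (T.b (T.l 816) (T.l 816)) (T.b (T.l 816) (T.l 816))))) (T.a (T.b (T.a (T.b (T.l 819) (T.l 816)) (T.b (T.l 816) (T.l 816))) (T.a (T.l 880) (T.l 816))) (T.b (T.a (T.b (T.l 816) (T.l 816)) (T.l 816)) (T.a (T.l 816) (T.l 816))))))))), by decide +kernel⟩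

def A202R_004_1_6_1 :
    ∃ t, chk3 (onCell 0 22369621 0 1073741824 1040187392 5207648 (corX 1 c0B cA202R tA202R gB0q2 gB0q0 gB4q2 gB5q2 gB5q2 false true)) t 1 6 1 = true :=
  ⟨(T.b (T.a (T.l 819) (T.a (T.a (T.b (T.l 819) (T.a (T.l 819) (T.b (T.l 819) (T.l 816)))) (T.b (T.a (T.b (T.l 819) (T.l 816)) (T.b (T.l 816) (T.l 816))) (T.a (T.b (T.l 816) (T.l 816)) (T.b (T.l 816) (T.l 816))))) (T.a (T.b (T.b (T.a (T.l 816) (T.l 816)) (T.b (T.l 816) (T.l 816))) (T.a (T.b (T.l 816) (T.l 816)) (T.b (T.l 816) (T.l 816)))) (T.b (T.b (T.b (T.l 816) (T.l 816)) (T.b (T.l 816) (T.l 816))) (T.a (T.b (T.l 816) (T.l 816)) (T.b (T.l 816) (T.l 816))))))) (T.b (T.a (T.l 819) (T.a (T.a (T.a (T.b (T.l 819) (T.l 816)) (T.b (T.l 816) (T.l 816))) (T.a (T.b (T.l 816) (T.l 816)) (T.b (T.l 816) (T.l 816)))) (T.a (T.a (T.b (T.l 816) (T.l 816)) (T.l 816)) (T.b (T.l 816)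 (T.l 816))))) (T.a (T.b (T.l 819) (T.l 819)) (T.a (T.a (T.a (T.b (T.l 816) (T.l 816)) (T.b (T.l 816) (T.l 816))) (T.a (T.b (T.l 816) (T.l 816)) (T.l 816))) (T.a (T.a (T.l 816) (T.l 816)) (T.b (T.l 816) (T.l 816))))))), by decide +kernel⟩

def A202R_004_1_7_1 :
    ∃ t, chk3 (onCell 0 22369621 0 1073741824 1040187392 5207648 (corX 1 c0B cA202R tA202R gB0q2 gB0q0 gB4q2 gB5q2 gB5q2 false true)) t 1 7 1 = true :=
  ⟨(T.b (T.a (T.a (T.l 819) (T.a (T.l 819) (T.a (T.b (T.l 819) (T.b (T.l 819) (T.l 816))) (T.b (T.b (T.l 816) (T.l 816)) (T.b (T.l 816) (T.l 816)))))) (T.a (T.a (T.a (T.b (T.b (T.l 816) (T.l 816)) (T.b (T.l 816) (T.l 816))) (T.b (T.b (T.l 816) (T.l 816)) (T.l 816))) (T.b (T.a (T.l 816) (T.l 816)) (T.a (T.l 816) (T.l 816)))) (T.a (T.b (T.b (T.l 816) (T.l 816)) (T.b (T.l 816) (T.l 816))) (T.b (T.b (T.l 816) (T.l 816)) (T.b (T.l 816) (T.l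 816)))))) (T.a (T.a (T.l 819) (T.a (T.l 819) (T.a (T.b (T.b (T.l 816) (T.l 816)) (T.b (T.l 816) (T.l 816))) (T.b (T.b (T.l 816) (T.l 816)) (T.b (T.l 816) (T.l 816)))))) (T.a (T.a (T.a (T.b (T.l 816) (T.l 816)) (T.b (T.l 816) (T.l 816))) (T.a (T.b (T.l 816) (T.l 816)) (T.b (T.l 816) (T.l 816)))) (T.a (T.b (T.a (T.l 816) (T.l 816)) (T.a (T.l 816) (T.l 816))) (T.b (T.b (T.l 816) (T.l 816)) (T.b (T.l 816) (T.l 816))))))), by decide +kernel⟩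

theorem A202R_004_1_3_1 :
    ∃ t, chk3 (onCell 0 22369621 0 1073741824 1040187392 5207648 (corX 1 c0B cA202R tA202R gB0q2 gB0q0 gB4q2 gB5q2 gB5q2 false true)) t 1 3 1 = true :=
  ex3_b A202R_004_1_6_1 A202R_004_1_7_1
theorem A202R_004 :
    ∃ t, chk3 (onCell 0 22369621 0 1073741824 1040187392 5207648 (corX 1 c0B cA202R tA202R gB0q2 gB0q0 gB4q2 gB5q2 gB5q2 false true)) t 1 1 1 = true :=
  ex3_b A202R_004_1_2_1 A202R_004_1_3_1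

def A202R_014_1_2_1 :
    ∃ t, chk3 (onCell 0 26843545 0 1073741824 1040187392 5207648 (corT true 1 c0B cA202R gB0q2 gB1q0 gB4q2 gB5q2 false true)) t 1 2 1 = true :=
  ⟨(T.b (T.l 2) (T.b (T.l 2) (T.b (T.l 2) (T.b (T.b (T.l 2) (T.b (T.a (T.l 2) (T.a (T.l 0) (T.l 0))) (T.a (T.a (T.l 204) (T.l 0)) (T.a (T.l 0) (T.l 0))))) (T.b (T.b (T.a (T.a (T.l 204) (T.l 0)) (T.a (T.l 0) (T.l 0))) (T.a (T.a (T.l 204) (T.l 0)) (T.a (T.l 0) (T.l 0)))) (T.b (T.a (T.a (T.l 204) (T.l 0)) (T.a (T.l 0) (T.l 0))) (T.a (T.a (T.l 204) (T.l 0)) (T.a (T.l 0) (T.l 0))))))))), by decide +kernel⟩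

def A202R_014_1_3_1 :
    ∃ t, chk3 (onCell 0 26843545 0 1073741824 1040187392 5207648 (corT true 1 c0B cA202R gB0q2 gB1q0 gB4q2 gB5q2 false true)) t 1 3 1 = true :=
  ⟨(T.b (T.b (T.b (T.b (T.b (T.a (T.a (T.l 0) (T.l 0)) (T.a (T.l 0) (T.l 0))) (T.a (T.a (T.l 816) (T.l 0)) (T.a (T.l 0) (T.l 0)))) (T.a (T.a (T.l 816) (T.l 0)) (T.a (T.l 0) (T.l 0)))) (T.b (T.a (T.a (T.l 816) (T.l 0)) (T.a (T.l 0) (T.l 0))) (T.a (T.a (T.l 816) (T.l 0)) (T.a (T.l 0) (T.l 0))))) (T.b (T.a (T.a (T.l 816) (T.a (T.l 816) (T.l 816))) (T.a (T.b (T.l 0) (T.l 0)) (T.l 0))) (T.a (T.a (T.l 816) (T.a (T.l 816) (T.l 816))) (T.a (T.b (T.l 0) (T.l 0)) (T.b (T.l 0) (T.l 816)))))) (T.b (T.b (T.a (T.a (T.l 816) (T.a (T.l 816) (T.l 816))) (T.a (T.a (T.l 816) (T.l 816)) (T.b (T.l 816) (T.l 816)))) (T.a (T.a (T.l 816) (T.a (T.a (T.l 816) (T.l 816)) (T.b (T.l 816) (T.l 816)))) (T.a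 (T.a (T.l 816) (T.l 816)) (T.a (T.l 816) (T.l 816))))) (T.a (T.a (T.l 816) (T.a (T.a (T.l 816) (T.b (T.l 816) (T.a (T.l 816) (T.l 816)))) (T.a (T.b (T.l 816) (T.b (T.l 816) (T.l 816))) (T.b (T.l 816) (T.b (T.l 816) (T.l 816)))))) (T.a (T.a (T.b (T.b (T.l 816) (T.l 816)) (T.a (T.l 816) (T.l 816))) (T.b (T.b (T.l 816) (T.l 816)) (T.a (T.l 816) (T.l 816)))) (T.a (T.b (T.l 816) (T.a (T.l 816) (T.l 816))) (T.b (T.l 816) (T.a (T.l 816) (T.b (T.l 816) (T.l 816))))))))), by decide +kernel⟩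

theorem A202R_014 :
    ∃ t, chk3 (onCell 0 26843545 0 1073741824 1040187392 5207648 (corT true 1 c0B cA202R gB0q2 gB1q0 gB4q2 gB5q2 false true)) t 1 1 1 = true :=
  ex3_b A202R_014_1_2_1 A202R_014_1_3_1

def A202R_024 :
    ∃ t, chk3 (onCell 0 26843545 0 1073741824 1040187392 5207648 (corT true 1 c0B cA202R gB0q2 gB2q0 gB4q2 gB5q2 false true)) t 1 1 1 = true :=
  ⟨(T.b (T.l 2) (T.b (T.b (T.b (T.l 2) (T.b (T.b (T.l 2) (T.a (T.a (T.l 816) (T.l 0)) (T.l 0))) (T.a (T.a (T.l 816) (T.l 0)) (T.b (T.l 0) (T.l 0))))) (T.b (T.b (T.a (T.a (T.l 816) (T.l 0)) (T.b (T.l 0) (T.l 0))) (T.a (T.a (T.l 816) (T.l 0)) (T.a (T.l 0) (T.l 0)))) (T.a (T.a (T.l 816) (T.a (T.l 816) (T.l 816))) (T.a (T.l 0) (T.l 0))))) (T.b (T.b (T.a (T.a (T.l 816) (T.a (T.l 816) (T.l 816))) (T.a (T.l 0) (T.l 0))) (T.a (T.a (T.l 816) (T.a (T.l 816) (T.l 816))) (T.a (T.b (T.l 816)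 (T.l 816)) (T.l 816)))) (T.a (T.a (T.l 816) (T.a (T.a (T.l 816) (T.b (T.l 816) (T.a (T.l 816) (T.l 816)))) (T.b (T.l 816) (T.a (T.b (T.l 816) (T.l 816)) (T.b (T.l 816) (T.l 816)))))) (T.a (T.a (T.b (T.l 816) (T.a (T.l 816) (T.l 816))) (T.b (T.l 816) (T.a (T.l 816) (T.l 816)))) (T.a (T.b (T.l 816) (T.a (T.l 816) (T.l 816))) (T.b (T.l 816) (T.a (T.l 816) (T.b (T.l 816) (T.l 816)))))))))), by decide +kernel⟩

def A202R_114 :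
    ∃ t, chk3 (onCell 0 26843545 0 1073741824 1040187392 5207648 (corT true 1 c0B cA202R gB1q2 gB1q0 gB4q2 gB5q2 false true)) t 1 1 1 = true :=
  ⟨(T.b (T.l 2) (T.b (T.b (T.b (T.l 2) (T.a (T.a (T.l 816) (T.l 0)) (T.l 0))) (T.a (T.l 816) (T.a (T.l 0) (T.l 0)))) (T.a (T.l 816) (T.b (T.a (T.l 816) (T.b (T.l 816) (T.l 816))) (T.a (T.l 816) (T.l 816)))))), by decide +kernel⟩

def A202R_124 :
    ∃ t, chk3 (onCell 0 26843545 0 1073741824 1040187392 5207648 (corT true 1 c0B cA202R gB1q2 gB2q0 gB4q2 gB5q2 false true)) t 1 1 1 = true :=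
  ⟨(T.b (T.l 2) (T.b (T.b (T.l 2) (T.b (T.l 2) (T.a (T.l 816) (T.b (T.l 0) (T.l 0))))) (T.a (T.l 816) (T.b (T.a (T.l 816) (T.b (T.l 816) (T.l 816))) (T.a (T.l 816) (T.l 816)))))), by decide +kernel⟩

def A202R_224 :
    ∃ t, chk3 (onCell 0 26843545 0 1073741824 1040187392 5207648 (corT true 1 c0B cA202R gB2q2 gB2q0 gB4q2 gB5q2 false true)) t 1 1 1 = true :=
  ⟨(T.b (T.l 2) (T.b (T.l 2) (T.b (T.l 2) (T.a (T.l 816) (T.l 816))))), by decide +kernel⟩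

def B011E_000 :
    ∃ t, chk3 (onCell 0 26843545 0 1073741824 1040187392 5207648 (corT true 1 c0B cB011E gB0q0 gB0q1 gB0q1 gB1q1 true false)) t 1 1 1 = true :=
  ⟨(T.l 1), by decide +kernel⟩

def B011E_100 :
    ∃ t, chk3 (onCell 0 26843545 0 1073741824 1040187392 5207648 (corT true 1 c0B cB011E gB1q0 gB0q1 gB0q1 gB1q1 true false)) t 1 1 1 = true :=
  ⟨(T.l 1), by decide +kernel⟩

def B011E_200 :
    ∃ t, chk3 (onCell 0 26843545 0 1073741824 1040187392 5207648 (corT true 1 c0B cB011E gB2q0 gB0q1 gB0q1 gB1q1 true false)) t 1 1 1 = true :=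
  ⟨(T.l 1), by decide +kernel⟩

def B011L_030 :
    ∃ t, chk3 (onCell 0 26843545 0 1073741824 1040187392 5207648 (corT true 1 c0B cB011L gB0q0 gB3q1 gB0q1 gB1q1 true false)) t 1 1 1 = true :=
  ⟨(T.l 1), by decide +kernel⟩

def B011L_040 :
    ∃ t, chk3 (onCell 0 26843545 0 1073741824 1040187392 5207648 (corT true 1 c0B cB011L gB0q0 gB4q1 gB0q1 gB1q1 true false)) t 1 1 1 = true :=
  ⟨(T.l 1), by decide +kernel⟩

def B011L_050 :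
    ∃ t, chk3 (onCell 0 26843545 0 1073741824 1040187392 5207648 (corT true 1 c0B cB011L gB0q0 gB5q1 gB0q1 gB1q1 true false)) t 1 1 1 = true :=
  ⟨(T.l 1), by decide +kernel⟩

def B011L_130 :
    ∃ t, chk3 (onCell 0 26843545 0 1073741824 1040187392 5207648 (corT true 1 c0B cB011L gB1q0 gB3q1 gB0q1 gB1q1 true false)) t 1 1 1 = true :=
  ⟨(T.l 1), by decide +kernel⟩

def B011L_140 :
    ∃ t, chk3 (onCell 0 26843545 0 1073741824 1040187392 5207648 (corT true 1 c0B cB011L gB1q0 gB4q1 gB0q1 gB1q1 true false)) t 1 1 1 = true :=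
  ⟨(T.l 1), by decide +kernel⟩

def B011L_150 :
    ∃ t, chk3 (onCell 0 26843545 0 1073741824 1040187392 5207648 (corT true 1 c0B cB011L gB1q0 gB5q1 gB0q1 gB1q1 true false)) t 1 1 1 = true :=
  ⟨(T.l 1), by decide +kernel⟩

def B011L_230 :
    ∃ t, chk3 (onCell 0 26843545 0 1073741824 1040187392 5207648 (corT true 1 c0B cB011L gB2q0 gB3q1 gB0q1 gB1q1 true false)) t 1 1 1 = true :=
  ⟨(T.l 1), by decide +kernel⟩

def B011L_240 :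
    ∃ t, chk3 (onCell 0 26843545 0 1073741824 1040187392 5207648 (corT true 1 c0B cB011L gB2q0 gB4q1 gB0q1 gB1q1 true false)) t 1 1 1 = true :=
  ⟨(T.l 1), by decide +kernel⟩

def B011L_250 :
    ∃ t, chk3 (onCell 0 26843545 0 1073741824 1040187392 5207648 (corT true 1 c0B cB011L gB2q0 gB5q1 gB0q1 gB1q1 true false)) t 1 1 1 = true :=
  ⟨(T.l 1), by decide +kernel⟩

def B011R_002 :
    ∃ t, chk3 (onCell 0 22369621 0 1073741824 1040187392 5207648 (corT true 1 c0B cB011R gB0q0 gB0q1 gB2q1 gB3q1 false true)) t 1 1 1 = true :=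
  ⟨(T.b (T.b (T.b (T.b (T.a (T.l 816) (T.a (T.l 816) (T.l 816))) (T.l 2)) (T.l 2)) (T.l 2)) (T.l 2)), by decide +kernel⟩

def B011R_003 :
    ∃ t, chk3 (onCell 0 22369621 0 1073741824 1040187392 5207648 (corT true 1 c0B cB011R gB0q0 gB0q1 gB3q1 gB4q1 true true)) t 1 1 1 = true :=
  ⟨(T.b (T.b (T.a (T.l 0) (T.a (T.l 0) (T.b (T.l 816) (T.l 0)))) (T.l 2)) (T.l 2)), by decide +kernel⟩

def B011R_004 :
    ∃ t, chk3 (onCell 0 22369621 0 1073741824 1040187392 5207648 (corX 1 c0B cB011R tB011R gB0q0 gB0q1 gB4q1 gB5q1 gB5q1 true true)) t 1 1 1 = true :=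
  ⟨(T.b (T.b (T.b (T.l 1) (T.b (T.l 1) (T.a (T.l 207) (T.a (T.l 3) (T.l 0))))) (T.b (T.l 3) (T.l 2))) (T.l 2)), by decide +kernel⟩

def B011R_102 :
    ∃ t, chk3 (onCell 0 26843545 0 1073741824 1040187392 5207648 (corT true 1 c0B cB011R gB1q0 gB0q1 gB2q1 gB3q1 false true)) t 1 1 1 = true :=
  ⟨(T.l 2), by decide +kernel⟩

def B011R_103 :
    ∃ t, chk3 (onCell 0 26843545 0 1073741824 1040187392 5207648 (corT true 1 c0B cB011R gB1q0 gB0q1 gB3q1 gB4q1 true true)) t 1 1 1 = true :=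
  ⟨(T.b (T.b (T.l 2) (T.l 2)) (T.l 2)), by decide +kernel⟩

def B011R_104 :
    ∃ t, chk3 (onCell 0 26843545 0 1073741824 1040187392 5207648 (corT true 1 c0B cB011R gB1q0 gB0q1 gB4q1 gB5q1 true true)) t 1 1 1 = true :=
  ⟨(T.b (T.b (T.b (T.a (T.a (T.a (T.l 816) (T.l 0)) (T.l 0)) (T.b (T.l 0) (T.l 0))) (T.l 2)) (T.l 2)) (T.l 2)), by decide +kernel⟩

def B011R_202 :
    ∃ t, chk3 (onCell 0 26843545 0 1073741824 1040187392 5207648 (corT true 1 c0B cB011R gB2q0 gB0q1 gB2q1 gB3q1 false true)) t 1 1 1 = true :=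
  ⟨(T.l 2), by decide +kernel⟩

def B011R_203 :
    ∃ t, chk3 (onCell 0 26843545 0 1073741824 1040187392 5207648 (corT true 1 c0B cB011R gB2q0 gB0q1 gB3q1 gB4q1 true true)) t 1 1 1 = true :=
  ⟨(T.l 2), by decide +kernel⟩

def B011R_204 :
    ∃ t, chk3 (onCell 0 26843545 0 1073741824 1040187392 5207648 (corT true 1 c0B cB011R gB2q0 gB0q1 gB4q1 gB5q1 true true)) t 1 1 1 = true :=
  ⟨(T.l 2), by decide +kernel⟩

def B012E_000 :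
    ∃ t, chk3 (onCell 0 16777216 0 1073741824 1040187392 5207648 (corX 1 c0B cB012E tB012E gB0q0 gB0q2 gB0q1 gB1q1 gB0q1 true false)) t 1 1 1 = true :=
  ⟨(T.b (T.b (T.l 1) (T.b (T.l 1) (T.b (T.l 1) (T.b (T.l 1) (T.a (T.l 819) (T.b (T.l 1) (T.l 819))))))) (T.b (T.a (T.l 819) (T.b (T.a (T.l 819) (T.b (T.a (T.l 819) (T.b (T.a (T.l 819) (T.b (T.a (T.l 819) (T.b (T.a (T.l 819) (T.l 816)) (T.l 816))) (T.b (T.l 816) (T.l 816)))) (T.a (T.b (T.l 816) (T.l 816)) (T.b (T.l 816) (T.l 816))))) (T.a (T.b (T.a (T.l 819) (T.l 816)) (T.b (T.l 816) (T.l 816))) (T.b (T.a (T.l 816) (T.l 816)) (T.b (T.l 816) (T.l 816)))))) (T.a (T.a (T.l 819) (T.b (T.a (T.l 819) (T.l 816)) (T.b (T.l 816) (T.l 816)))) (T.a (T.b (T.a (T.l 816) (T.l 816)) (T.b (T.l 816) (T.l 816))) (T.b (T.b (T.l 816) (T.l 816)) (T.l 816)))))) (T.b (T.a (T.l 819) (T.a (T.a (T.a (T.l 819) (T.b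 (T.l 816) (T.l 816))) (T.b (T.b (T.l 816) (T.l 816)) (T.l 816))) (T.a (T.b (T.l 816) (T.l 816)) (T.b (T.l 816) (T.l 816))))) (T.a (T.a (T.l 819) (T.b (T.l 819) (T.l 819))) (T.a (T.a (T.b (T.l 816) (T.l 816)) (T.b (T.l 816) (T.l 816))) (T.a (T.b (T.l 816) (T.l 816)) (T.b (T.l 816) (T.l 816)))))))), by decide +kernel⟩

def B012E_010 :
    ∃ t, chk3 (onCell 0 26843545 0 1073741824 1040187392 5207648 (corT true 1 c0B cB012E gB0q0 gB1q2 gB0q1 gB1q1 true false)) t 1 1 1 = true :=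
  ⟨(T.b (T.l 1) (T.a (T.b (T.b (T.b (T.l 1) (T.b (T.a (T.b (T.a (T.b (T.b (T.l 1) (T.l 816)) (T.l 816)) (T.l 816)) (T.l 816)) (T.l 816)) (T.l 816))) (T.b (T.l 816) (T.l 816))) (T.b (T.l 816) (T.l 816))) (T.b (T.b (T.b (T.b (T.l 1) (T.b (T.l 1) (T.a (T.l 1) (T.a (T.l 1) (T.l 816))))) (T.a (T.a (T.l 816) (T.a (T.l 816) (T.b (T.l 816) (T.l 816)))) (T.a (T.b (T.b (T.l 816) (T.l 816)) (T.l 816)) (T.b (T.l 816) (T.l 816))))) (T.a (T.a (T.l 816) (T.l 816)) (T.b (T.a (T.b (T.l 816) (T.l 816)) (T.b (T.l 816) (T.l 816))) (T.a (T.l 816) (T.l 816))))) (T.a (T.a (T.l 816) (T.b (T.l 816) (T.l 816))) (T.b (T.a (T.b (T.l 816) (T.l 816)) (T.l 816)) (T.b (T.l 816) (T.l 816))))))), by decide +kernel⟩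

def B012E_020 :
    ∃ t, chk3 (onCell 0 26843545 0 1073741824 1040187392 5207648 (corT true 1 c0B cB012E gB0q0 gB2q2 gB0q1 gB1q1 true false)) t 1 1 1 = true :=
  ⟨(T.b (T.l 1) (T.b (T.b (T.l 1) (T.b (T.l 1) (T.b (T.l 1) (T.a (T.l 816) (T.a (T.l 816) (T.l 816)))))) (T.a (T.l 816) (T.a (T.b (T.l 816) (T.l 816)) (T.b (T.l 816) (T.l 816)))))), by decide +kernel⟩

def B012E_100_1_4_1 :
    ∃ t, chk3 (onCell 0 26843545 0 1073741824 1040187392 5207648 (corT true 1 c0B cB012E gB1q0 gB0q2 gB0q1 gB1q1 true false)) t 1 4 1 = true :=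
  ⟨(T.l 1), by decide +kernel⟩

def B012E_100_1_10_1 :
    ∃ t, chk3 (onCell 0 26843545 0 1073741824 1040187392 5207648 (corT true 1 c0B cB012E gB1q0 gB0q2 gB0q1 gB1q1 true false)) t 1 10 1 = true :=
  ⟨(T.b (T.l 1) (T.b (T.l 1) (T.b (T.l 1) (T.b (T.l 1) (T.b (T.a (T.l 1) (T.a (T.l 1) (T.b (T.l 1) (T.b (T.l 1) (T.a (T.a (T.l 824) (T.c (T.l 816) (T.l 816))) (T.a (T.l 816) (T.l 816))))))) (T.a (T.b (T.a (T.l 1) (T.a (T.l 1) (T.b (T.l 1) (T.a (T.c (T.l 824) (T.l 952)) (T.l 952))))) (T.a (T.b (T.a (T.l 1) (T.a (T.l 1) (T.b (T.l 1) (T.b (T.l 1) (T.a (T.a (T.l 1) (T.l 944)) (T.c (T.l 816) (T.l 816))))))) (T.a (T.a (T.b (T.l 1) (T.c (T.l 816) (T.l 816))) (T.l 824)) (T.a (T.l 816) (T.a (T.a (T.l 944) (T.l 816)) (T.c (T.l 816) (T.l 816)))))) (T.b (T.a (T.b (T.a (T.a (T.l 1) (T.l 816)) (T.a (T.l 816) (T.l 816))) (T.a (T.a (T.l 944) (T.l 816)) (T.c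 (T.l 944) (T.l 944)))) (T.a (T.l 952) (T.l 816))) (T.a (T.a (T.a (T.l 816) (T.l 816)) (T.c (T.l 816) (T.l 944))) (T.a (T.l 816) (T.l 816)))))) (T.b (T.a (T.b (T.a (T.a (T.l 1) (T.a (T.l 1) (T.l 816))) (T.a (T.c (T.l 816) (T.l 816)) (T.l 816))) (T.a (T.a (T.a (T.l 816) (T.l 816)) (T.c (T.l 816) (T.l 816))) (T.a (T.l 816) (T.l 816)))) (T.a (T.a (T.l 816) (T.l 816)) (T.a (T.l 816) (T.l 816)))) (T.a (T.a (T.a (T.c (T.l 816) (T.l 816)) (T.l 816)) (T.a (T.l 816) (T.l 816))) (T.a (T.a (T.l 816) (T.l 816)) (T.a (T.l 816) (T.l 816))))))))))), by decide +kernel⟩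

def B012E_100_1_88_1 :
    ∃ t, chk3 (onCell 0 26843545 0 1073741824 1040187392 5207648 (corT true 1 c0B cB012E gB1q0 gB0q2 gB0q1 gB1q1 true false)) t 1 88 1 = true :=
  ⟨(T.b (T.b (T.a (T.b (T.a (T.a (T.c (T.l 816) (T.l 816)) (T.a (T.l 816) (T.a (T.a (T.l 816) (T.l 816)) (T.l 944)))) (T.a (T.a (T.a (T.l 816) (T.l 816)) (T.l 944)) (T.a (T.l 816) (T.l 816)))) (T.a (T.a (T.l 816) (T.a (T.l 816) (T.a (T.l 816) (T.l 816)))) (T.a (T.a (T.c (T.l 816) (T.l 944)) (T.l 816)) (T.a (T.l 816) (T.l 816))))) (T.b (T.a (T.a (T.a (T.l 816) (T.l 816)) (T.a (T.l 816) (T.l 816))) (T.a (T.a (T.l 816) (T.l 816)) (T.l 816))) (T.a (T.a (T.a (T.l 816) (T.l 816)) (T.a (T.l 816) (T.l 816))) (T.a (T.a (T.l 816) (T.l 816)) (T.l 816))))) (T.a (T.b (T.a (T.a (T.l 816) (T.a (T.l 816) (T.a (T.l 816) (T.l 816)))) (T.a (T.a (T.l 816) (T.l 816)) (T.a (T.l 816) (T.l 816))))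 (T.a (T.a (T.l 816) (T.a (T.l 816) (T.a (T.l 816) (T.l 816)))) (T.a (T.a (T.l 816) (T.l 816)) (T.a (T.l 816) (T.l 816))))) (T.a (T.a (T.a (T.l 816) (T.l 816)) (T.l 944)) (T.a (T.l 944) (T.l 816))))) (T.b (T.a (T.b (T.a (T.a (T.l 816) (T.a (T.l 816) (T.a (T.l 816) (T.l 816)))) (T.a (T.a (T.l 816) (T.l 816)) (T.l 816))) (T.a (T.a (T.l 816) (T.a (T.l 816) (T.c (T.l 816) (T.l 816)))) (T.a (T.a (T.l 816) (T.l 816)) (T.l 816)))) (T.a (T.a (T.a (T.l 816) (T.l 816)) (T.l 816)) (T.a (T.l 816) (T.l 816)))) (T.a (T.b (T.a (T.a (T.l 816) (T.a (T.l 816) (T.l 816))) (T.a (T.a (T.l 816) (T.l 816)) (T.l 816))) (T.a (T.a (T.l 816) (T.a (T.l 816) (T.l 816))) (T.a (T.a (T.l 816) (T.l 816)) (T.l 816)))) (T.a (T.a (T.l 816) (T.l 816)) (T.a (T.l 816) (T.l 816)))))), by decide +kernel⟩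

def B012E_100_1_89_1 :
    ∃ t, chk3 (onCell 0 26843545 0 1073741824 1040187392 5207648 (corT true 1 c0B cB012E gB1q0 gB0q2 gB0q1 gB1q1 true false)) t 1 89 1 = true :=
  ⟨(T.b (T.b (T.a (T.b (T.a (T.a (T.l 816) (T.a (T.l 816) (T.l 816))) (T.a (T.a (T.l 816) (T.l 816)) (T.l 816))) (T.a (T.a (T.l 816) (T.a (T.l 816) (T.l 816))) (T.a (T.a (T.l 816) (T.l 816)) (T.l 816)))) (T.a (T.a (T.l 816) (T.l 816)) (T.a (T.l 816) (T.l 816)))) (T.a (T.a (T.a (T.l 816) (T.a (T.l 816) (T.l 816))) (T.a (T.a (T.l 816) (T.l 816)) (T.l 816))) (T.a (T.a (T.l 816) (T.l 816)) (T.a (T.l 816) (T.l 816))))) (T.b (T.a (T.a (T.a (T.l 816) (T.a (T.l 816) (T.l 816))) (T.a (T.l 816) (T.l 816))) (T.a (T.a (T.l 816) (T.l 816)) (T.a (T.l 816) (T.l 816)))) (T.a (T.a (T.a (T.l 816) (T.a (T.l 816) (T.l 816))) (T.a (T.l 816) (T.l 816))) (T.a (T.a (T.l 816) (T.l 816)) (T.a (T.l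 816) (T.l 816)))))), by decide +kernel⟩

def B012E_100_1_45_1 :
    ∃ t, chk3 (onCell 0 26843545 0 1073741824 1040187392 5207648 (corT true 1 c0B cB012E gB1q0 gB0q2 gB0q1 gB1q1 true false)) t 1 45 1 = true :=
  ⟨(T.b (T.b (T.b (T.a (T.a (T.a (T.l 816) (T.a (T.l 816) (T.l 816))) (T.a (T.l 816) (T.l 816))) (T.a (T.a (T.l 816) (T.l 816)) (T.l 128))) (T.a (T.a (T.a (T.l 816) (T.a (T.l 816) (T.l 816))) (T.a (T.l 816) (T.l 816))) (T.a (T.a (T.l 816) (T.l 816)) (T.l 0)))) (T.b (T.a (T.a (T.a (T.l 816) (T.a (T.l 816) (T.l 816))) (T.a (T.l 816) (T.l 816))) (T.a (T.a (T.l 816) (T.l 816)) (T.l 0))) (T.a (T.a (T.a (T.l 816) (T.a (T.l 816) (T.l 816))) (T.a (T.l 816) (T.l 816))) (T.a (T.a (T.l 816) (T.l 816)) (T.l 0))))) (T.b (T.b (T.a (T.a (T.a (T.l 816) (T.a (T.l 816) (T.l 816))) (T.a (T.l 816) (T.l 816))) (T.a (T.a (T.l 816) (T.l 816)) (T.l 0))) (T.a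 (T.a (T.a (T.l 816) (T.a (T.l 816) (T.l 816))) (T.a (T.l 816) (T.l 816))) (T.a (T.a (T.l 816) (T.l 816)) (T.l 0)))) (T.b (T.a (T.a (T.a (T.l 816) (T.a (T.l 816) (T.l 816))) (T.a (T.l 816) (T.l 816))) (T.a (T.a (T.l 816) (T.l 816)) (T.l 0))) (T.a (T.a (T.a (T.l 816) (T.a (T.l 816) (T.l 816))) (T.a (T.l 816) (T.l 816))) (T.a (T.a (T.l 816) (T.l 816)) (T.l 0)))))), by decide +kernel⟩

def B012E_100_1_23_1 :
    ∃ t, chk3 (onCell 0 26843545 0 1073741824 1040187392 5207648 (corT true 1 c0B cB012E gB1q0 gB0q2 gB0q1 gB1q1 true false)) t 1 23 1 = true :=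
  ⟨(T.b (T.b (T.b (T.b (T.a (T.a (T.a (T.l 816) (T.a (T.l 816) (T.l 816))) (T.a (T.l 816) (T.l 816))) (T.a (T.a (T.l 816) (T.l 816)) (T.l 0))) (T.a (T.a (T.a (T.l 816) (T.a (T.l 816) (T.l 816))) (T.a (T.l 816) (T.l 816))) (T.a (T.a (T.l 816) (T.l 816)) (T.l 816)))) (T.a (T.a (T.a (T.l 816) (T.a (T.l 816) (T.l 816))) (T.a (T.l 816) (T.l 816))) (T.a (T.a (T.l 816) (T.l 816)) (T.l 0)))) (T.a (T.a (T.a (T.l 816) (T.a (T.l 816) (T.l 816))) (T.a (T.l 816) (T.l 816))) (T.a (T.a (T.l 816) (T.l 816)) (T.l 0)))) (T.a (T.a (T.a (T.l 816) (T.l 816)) (T.l 0)) (T.a (T.a (T.l 816) (T.l 816)) (T.l 0)))), by decide +kernel⟩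

def B012E_100_1_3_1 :
    ∃ t, chk3 (onCell 0 26843545 0 1073741824 1040187392 5207648 (corT true 1 c0B cB012E gB1q0 gB0q2 gB0q1 gB1q1 true false)) t 1 3 1 = true :=
  ⟨(T.b (T.b (T.b (T.a (T.a (T.a (T.l 816) (T.l 816)) (T.l 816)) (T.a (T.b (T.l 0) (T.l 0)) (T.l 0))) (T.a (T.a (T.a (T.l 816) (T.l 816)) (T.b (T.l 816) (T.l 816))) (T.a (T.b (T.l 0) (T.l 816)) (T.l 0)))) (T.b (T.a (T.a (T.a (T.l 816) (T.l 816)) (T.a (T.l 816) (T.l 816))) (T.a (T.b (T.l 816) (T.l 816)) (T.l 0))) (T.a (T.a (T.a (T.l 816) (T.l 816)) (T.a (T.l 816) (T.l 816))) (T.a (T.l 0) (T.l 816))))) (T.b (T.a (T.a (T.a (T.l 816) (T.l 816)) (T.a (T.b (T.l 816) (T.l 816)) (T.l 816))) (T.a (T.b (T.l 816) (T.l 816)) (T.b (T.l 816) (T.l 816)))) (T.a (T.a (T.a (T.l 816) (T.l 816)) (T.a (T.b (T.l 816) (T.l 816)) (T.l 816))) (T.a (T.b (T.l 816) (T.l 816)) (T.b (T.l 816) (T.l 816)))))),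 by decide +kernel⟩

theorem B012E_100_1_44_1 :
    ∃ t, chk3 (onCell 0 26843545 0 1073741824 1040187392 5207648 (corT true 1 c0B cB012E gB1q0 gB0q2 gB0q1 gB1q1 true false)) t 1 44 1 = true :=
  ex3_b B012E_100_1_88_1 B012E_100_1_89_1
theorem B012E_100_1_22_1 :
    ∃ t, chk3 (onCell 0 26843545 0 1073741824 1040187392 5207648 (corT true 1 c0B cB012E gB1q0 gB0q2 gB0q1 gB1q1 true false)) t 1 22 1 = true :=
  ex3_b B012E_100_1_44_1 B012E_100_1_45_1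
theorem B012E_100_1_11_1 :
    ∃ t, chk3 (onCell 0 26843545 0 1073741824 1040187392 5207648 (corT true 1 c0B cB012E gB1q0 gB0q2 gB0q1 gB1q1 true false)) t 1 11 1 = true :=
  ex3_b B012E_100_1_22_1 B012E_100_1_23_1
theorem B012E_100_1_5_1 :
    ∃ t, chk3 (onCell 0 26843545 0 1073741824 1040187392 5207648 (corT true 1 c0B cB012E gB1q0 gB0q2 gB0q1 gB1q1 true false)) t 1 5 1 = true :=
  ex3_b B012E_100_1_10_1 B012E_100_1_11_1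
theorem B012E_100_1_2_1 :
    ∃ t, chk3 (onCell 0 26843545 0 1073741824 1040187392 5207648 (corT true 1 c0B cB012E gB1q0 gB0q2 gB0q1 gB1q1 true false)) t 1 2 1 = true :=
  ex3_b B012E_100_1_4_1 B012E_100_1_5_1
theorem B012E_100 :
    ∃ t, chk3 (onCell 0 26843545 0 1073741824 1040187392 5207648 (corT true 1 c0B cB012E gB1q0 gB0q2 gB0q1 gB1q1 true false)) t 1 1 1 = true :=
  ex3_b B012E_100_1_2_1 B012E_100_1_3_1

def B012E_110_1_2_1 :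
    ∃ t, chk3 (onCell 0 26843545 0 1073741824 1040187392 5207648 (corT true 1 c0B cB012E gB1q0 gB1q2 gB0q1 gB1q1 true false)) t 1 2 1 = true :=
  ⟨(T.b (T.l 1) (T.b (T.l 1) (T.b (T.b (T.l 1) (T.b (T.l 1) (T.b (T.b (T.a (T.l 1) (T.a (T.l 944) (T.l 816))) (T.a (T.b (T.a (T.a (T.l 1) (T.a (T.l 1) (T.l 816))) (T.a (T.l 816) (T.l 816))) (T.a (T.a (T.l 816) (T.a (T.l 816) (T.l 816))) (T.a (T.l 816) (T.l 816)))) (T.a (T.l 816) (T.l 816)))) (T.b (T.a (T.b (T.a (T.a (T.l 816) (T.a (T.l 816) (T.l 816))) (T.a (T.l 816) (T.l 816))) (T.a (T.a (T.l 816) (T.a (T.l 816) (T.l 816))) (T.a (T.l 816) (T.l 816)))) (T.a (T.l 816) (T.l 816))) (T.a (T.b (T.a (T.a (T.l 816) (T.a (T.l 816) (T.l 816))) (T.a (T.l 816) (T.l 816))) (T.a (T.a (T.l 816) (T.a (T.l 816) (T.l 816))) (T.a (T.l 816) (T.l 816)))) (T.a (T.l 816) (T.l 816))))))) (T.b (T.b (T.b (T.b (T.a (T.a (T.a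 (T.l 816) (T.a (T.l 816) (T.l 816))) (T.a (T.l 816) (T.l 816))) (T.a (T.l 816) (T.l 816))) (T.a (T.a (T.a (T.l 816) (T.a (T.l 816) (T.l 816))) (T.a (T.l 816) (T.l 816))) (T.a (T.l 816) (T.l 816)))) (T.b (T.a (T.a (T.a (T.l 816) (T.a (T.l 816) (T.l 816))) (T.a (T.l 816) (T.l 816))) (T.a (T.l 816) (T.l 816))) (T.a (T.a (T.a (T.l 816) (T.a (T.l 816) (T.l 816))) (T.a (T.l 816) (T.l 816))) (T.a (T.l 816) (T.l 816))))) (T.b (T.b (T.a (T.a (T.a (T.l 816) (T.a (T.l 816) (T.l 816))) (T.a (T.l 816) (T.l 816))) (T.a (T.l 816) (T.l 816))) (T.a (T.a (T.a (T.l 816) (T.a (T.l 816) (T.l 816))) (T.a (T.l 816) (T.l 816))) (T.a (T.l 816) (T.l 816)))) (T.a (T.a (T.a (T.l 816) (T.a (T.l 816) (T.l 816))) (T.a (T.l 816) (T.l 816))) (T.a (T.l 816) (T.l 816))))) (T.a (T.a (T.a (T.l 816) (T.a (T.l 816) (T.l 816))) (T.l 816)) (T.a (T.l 816) (T.l 816))))))), by decide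 +kernel⟩

def B012E_110_1_3_1 :
    ∃ t, chk3 (onCell 0 26843545 0 1073741824 1040187392 5207648 (corT true 1 c0B cB012E gB1q0 gB1q2 gB0q1 gB1q1 true false)) t 1 3 1 = true :=
  ⟨(T.b (T.b (T.b (T.a (T.a (T.a (T.l 816) (T.l 816)) (T.l 816)) (T.a (T.l 816) (T.l 816))) (T.a (T.a (T.a (T.l 816) (T.l 816)) (T.l 816)) (T.a (T.l 816) (T.l 816)))) (T.b (T.a (T.a (T.a (T.l 816) (T.l 816)) (T.l 816)) (T.a (T.l 816) (T.l 816))) (T.a (T.a (T.a (T.l 816) (T.l 816)) (T.l 816)) (T.a (T.l 816) (T.l 816))))) (T.a (T.a (T.a (T.l 816) (T.l 816)) (T.l 816)) (T.a (T.b (T.l 816) (T.l 816)) (T.b (T.l 816) (T.l 816))))), by decide +kernel⟩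

theorem B012E_110 :
    ∃ t, chk3 (onCell 0 26843545 0 1073741824 1040187392 5207648 (corT true 1 c0B cB012E gB1q0 gB1q2 gB0q1 gB1q1 true false)) t 1 1 1 = true :=
  ex3_b B012E_110_1_2_1 B012E_110_1_3_1

def B012E_120 :
    ∃ t, chk3 (onCell 0 26843545 0 1073741824 1040187392 5207648 (corT true 1 c0B cB012E gB1q0 gB2q2 gB0q1 gB1q1 true false)) t 1 1 1 = true :=
  ⟨(T.b (T.l 1) (T.b (T.b (T.b (T.b (T.l 1) (T.b (T.l 1) (T.b (T.l 1) (T.b (T.a (T.a (T.a (T.l 816) (T.l 816)) (T.l 816)) (T.l 884)) (T.a (T.a (T.a (T.l 816) (T.l 816)) (T.l 816)) (T.l 816)))))) (T.b (T.b (T.a (T.a (T.a (T.l 816) (T.l 816)) (T.l 816)) (T.a (T.l 816) (T.l 816))) (T.a (T.a (T.a (T.l 816) (T.l 816)) (T.l 816)) (T.a (T.l 816) (T.l 816)))) (T.a (T.a (T.a (T.l 816) (T.l 816)) (T.l 816)) (T.a (T.l 816) (T.l 816))))) (T.b (T.a (T.a (T.a (T.l 816) (T.l 816)) (T.l 816)) (T.a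 (T.l 816) (T.l 816))) (T.a (T.a (T.a (T.l 816) (T.l 816)) (T.l 816)) (T.b (T.l 816) (T.l 816))))) (T.a (T.a (T.a (T.l 816) (T.l 816)) (T.l 816)) (T.a (T.l 816) (T.l 816))))), by decide +kernel⟩

def B012E_200_1_8_1 :
    ∃ t, chk3 (onCell 0 16777216 0 1073741824 1040187392 5207648 (corT true 1 c0B cB012E gB2q0 gB0q2 gB0q1 gB1q1 true false)) t 1 8 1 = true :=
  ⟨(T.l 1), by decide +kernel⟩

def B012E_200_1_36_1 :
    ∃ t, chk3 (onCell 0 16777216 0 1073741824 1040187392 5207648 (corT true 1 c0B cB012E gB2q0 gB0q2 gB0q1 gB1q1 true false)) t 1 36 1 = true :=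
  ⟨(T.l 1), by decide +kernel⟩

def B012E_200_1_74_1 :
    ∃ t, chk3 (onCell 0 16777216 0 1073741824 1040187392 5207648 (corT true 1 c0B cB012E gB2q0 gB0q2 gB0q1 gB1q1 true false)) t 1 74 1 = true :=
  ⟨(T.l 1), by decide +kernel⟩

def B012E_200_1_600_1 :
    ∃ t, chk3 (onCell 0 16777216 0 1073741824 1040187392 5207648 (corT true 1 c0B cB012E gB2q0 gB0q2 gB0q1 gB1q1 true false)) t 1 600 1 = true :=
  ⟨(T.l 1), by decide +kernel⟩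

def B012E_200_1_1202_1 :
    ∃ t, chk3 (onCell 0 16777216 0 1073741824 1040187392 5207648 (corT true 1 c0B cB012E gB2q0 gB0q2 gB0q1 gB1q1 true false)) t 1 1202 1 = true :=
  ⟨(T.a (T.l 1) (T.b (T.l 1) (T.b (T.l 1) (T.a (T.b (T.l 1) (T.b (T.l 1) (T.a (T.a (T.l 1) (T.c (T.l 204) (T.l 236))) (T.a (T.c (T.l 748) (T.a (T.l 236) (T.l 236))) (T.c (T.l 236) (T.l 236)))))) (T.b (T.a (T.l 1) (T.a (T.l 1) (T.c (T.l 0) (T.l 0)))) (T.a (T.b (T.a (T.c (T.l 236) (T.l 236)) (T.c (T.l 236) (T.l 236))) (T.a (T.c (T.l 236) (T.l 236)) (T.c (T.l 236) (T.l 236)))) (T.b (T.a (T.c (T.l 204) (T.l 204)) (T.c (T.l 0) (T.l 0))) (T.a (T.c (T.l 204) (T.l 204)) (T.c (T.l 0) (T.l 0)))))))))), by decide +kernel⟩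

def B012E_200_2_2406_1 :
    ∃ t, chk3 (onCell 0 16777216 0 1073741824 1040187392 5207648 (corT true 1 c0B cB012E gB2q0 gB0q2 gB0q1 gB1q1 true false)) t 2 2406 1 = true :=
  ⟨(T.a (T.l 204) (T.b (T.b (T.a (T.a (T.l 204) (T.a (T.c (T.l 204) (T.l 204)) (T.l 716))) (T.a (T.c (T.l 204) (T.l 716)) (T.l 748))) (T.a (T.a (T.l 204) (T.a (T.c (T.l 204) (T.l 204)) (T.l 716))) (T.a (T.c (T.l 204) (T.l 716)) (T.l 748)))) (T.b (T.a (T.a (T.l 204) (T.a (T.c (T.l 204) (T.l 204)) (T.l 716))) (T.a (T.c (T.l 204) (T.l 716)) (T.l 748))) (T.a (T.a (T.l 204) (T.a (T.l 716) (T.l 716))) (T.a (T.c (T.l 204) (T.l 716)) (T.l 748)))))), by decide +kernel⟩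

def B012E_200_3_4812_1 :
    ∃ t, chk3 (onCell 0 16777216 0 1073741824 1040187392 5207648 (corT true 1 c0B cB012E gB2q0 gB0q2 gB0q1 gB1q1 true false)) t 3 4812 1 = true :=
  ⟨(T.a (T.b (T.a (T.a (T.c (T.l 204) (T.l 236)) (T.c (T.l 204) (T.l 236))) (T.b (T.a (T.c (T.l 748) (T.c (T.l 748) (T.l 748))) (T.c (T.l 236) (T.l 236))) (T.a (T.c (T.l 748) (T.c (T.l 748) (T.l 748))) (T.c (T.l 236) (T.l 236))))) (T.a (T.a (T.l 748) (T.c (T.l 204) (T.l 236))) (T.b (T.a (T.c (T.l 748) (T.c (T.l 748) (T.l 748))) (T.c (T.l 236) (T.l 236))) (T.a (T.c (T.l 748) (T.c (T.l 748) (T.l 748))) (T.c (T.l 236) (T.l 236)))))) (T.b (T.a (T.b (T.a (T.c (T.l 236) (T.l 236)) (T.c (T.l 204) (T.l 236))) (T.a (T.c (T.l 236) (T.l 236)) (T.c (T.l 204) (T.l 236)))) (T.b (T.a (T.c (T.l 204) (T.l 204)) (T.c (T.l 0) (T.l 0))) (T.a (T.c (T.l 204) (T.l 204)) (T.c (T.l 0) (T.l 0)))))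 (T.a (T.b (T.a (T.c (T.l 236) (T.l 236)) (T.c (T.l 204) (T.l 236))) (T.a (T.c (T.l 236) (T.l 236)) (T.c (T.l 204) (T.l 236)))) (T.b (T.a (T.c (T.l 204) (T.l 204)) (T.c (T.l 0) (T.l 0))) (T.a (T.c (T.l 204) (T.l 204)) (T.c (T.l 0) (T.l 0))))))), by decide +kernel⟩

def B012E_200_3_4813_1 :
    ∃ t, chk3 (onCell 0 16777216 0 1073741824 1040187392 5207648 (corT true 1 c0B cB012E gB2q0 gB0q2 gB0q1 gB1q1 true false)) t 3 4813 1 = true :=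
  ⟨(T.a (T.b (T.a (T.a (T.l 748) (T.c (T.l 204) (T.l 236))) (T.b (T.a (T.c (T.l 748) (T.c (T.l 748) (T.l 748))) (T.c (T.l 236) (T.l 236))) (T.a (T.c (T.l 748) (T.c (T.l 748) (T.l 748))) (T.c (T.l 236) (T.l 236))))) (T.a (T.a (T.l 748) (T.l 748)) (T.b (T.a (T.c (T.l 748) (T.c (T.l 748) (T.l 748))) (T.c (T.l 236) (T.l 236))) (T.a (T.c (T.l 748) (T.c (T.l 748) (T.l 748))) (T.c (T.l 236) (T.l 236)))))) (T.b (T.a (T.b (T.a (T.c (T.l 236) (T.l 236)) (T.c (T.l 204) (T.l 236))) (T.a (T.c (T.l 236) (T.l 236)) (T.c (T.l 204) (T.l 236)))) (T.a (T.c (T.l 204) (T.l 204)) (T.c (T.l 0) (T.l 0)))) (T.a (T.a (T.c (T.l 236) (T.l 236)) (T.c (T.l 204) (T.l 236))) (T.a (T.c (T.l 204) (T.l 204)) (T.c (T.l 0) (T.l 0)))))), by decide +kernel⟩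

def B012E_200_1_2407_1 :
    ∃ t, chk3 (onCell 0 16777216 0 1073741824 1040187392 5207648 (corT true 1 c0B cB012E gB2q0 gB0q2 gB0q1 gB1q1 true false)) t 1 2407 1 = true :=
  ⟨(T.a (T.a (T.l 204) (T.b (T.b (T.a (T.a (T.l 204) (T.a (T.l 716) (T.l 716))) (T.a (T.c (T.l 204) (T.l 716)) (T.l 748))) (T.a (T.a (T.l 204) (T.a (T.l 716) (T.l 716))) (T.a (T.c (T.l 204) (T.l 716)) (T.l 748)))) (T.b (T.a (T.a (T.l 204) (T.a (T.l 716) (T.l 716))) (T.a (T.c (T.l 204) (T.l 716)) (T.l 748))) (T.a (T.a (T.l 204) (T.a (T.l 716) (T.l 204))) (T.a (T.c (T.l 204) (T.l 716)) (T.l 748)))))) (T.b (T.a (T.b (T.a (T.a (T.l 748) (T.l 748)) (T.b (T.a (T.c (T.l 748) (T.c (T.l 748) (T.l 748))) (T.c (T.l 236) (T.l 236))) (T.a (T.c (T.l 748) (T.c (T.l 748) (T.l 748))) (T.c (T.l 236) (T.l 236))))) (T.a (T.a (T.l 748) (T.l 748)) (T.b (T.a (T.c (T.l 748) (T.c (T.l 748) (T.l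 748))) (T.c (T.l 236) (T.l 236))) (T.a (T.c (T.l 748) (T.l 748)) (T.c (T.l 236) (T.l 236)))))) (T.b (T.a (T.a (T.c (T.l 236) (T.l 236)) (T.c (T.l 204) (T.l 236))) (T.a (T.c (T.l 204) (T.l 204)) (T.c (T.l 0) (T.l 0)))) (T.a (T.a (T.c (T.l 236) (T.l 236)) (T.c (T.l 204) (T.l 204))) (T.a (T.c (T.l 204) (T.l 204)) (T.c (T.l 0) (T.l 0)))))) (T.a (T.b (T.a (T.a (T.l 748) (T.l 748)) (T.a (T.c (T.l 748) (T.l 748)) (T.c (T.l 236) (T.l 236)))) (T.a (T.a (T.l 748) (T.l 748)) (T.a (T.c (T.l 748) (T.l 748)) (T.c (T.l 236) (T.l 236))))) (T.b (T.a (T.a (T.c (T.l 204) (T.l 236)) (T.c (T.l 204) (T.l 204))) (T.a (T.c (T.l 204) (T.l 204)) (T.c (T.l 0) (T.l 0)))) (T.a (T.a (T.c (T.l 204) (T.l 236)) (T.c (T.l 204) (T.l 204))) (T.a (T.c (T.l 204) (T.l 204)) (T.c (T.l 0) (T.l 0)))))))), by decide +kernel⟩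

def B012E_200_1_2408_1 :
    ∃ t, chk3 (onCell 0 16777216 0 1073741824 1040187392 5207648 (corT true 1 c0B cB012E gB2q0 gB0q2 gB0q1 gB1q1 true false)) t 1 2408 1 = true :=
  ⟨(T.a (T.a (T.l 204) (T.b (T.b (T.a (T.a (T.l 204) (T.a (T.l 716) (T.l 204))) (T.a (T.c (T.l 204) (T.l 204)) (T.l 748))) (T.a (T.a (T.l 204) (T.a (T.l 716) (T.l 204))) (T.a (T.c (T.l 204) (T.l 204)) (T.l 748)))) (T.b (T.a (T.a (T.l 204) (T.a (T.l 716) (T.l 204))) (T.a (T.c (T.l 204) (T.l 204)) (T.l 748))) (T.a (T.a (T.l 204) (T.a (T.l 716) (T.l 204))) (T.a (T.c (T.l 204) (T.l 204)) (T.l 748)))))) (T.b (T.a (T.b (T.a (T.a (T.l 748) (T.l 748)) (T.a (T.c (T.l 748) (T.l 748)) (T.c (T.l 236) (T.l 236)))) (T.a (T.a (T.l 748) (T.l 748)) (T.a (T.c (T.l 748) (T.l 748)) (T.c (T.l 236) (T.l 236))))) (T.b (T.a (T.a (T.c (T.l 204) (T.l 236)) (T.c (T.l 204) (T.l 204))) (T.a (T.l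 236) (T.c (T.l 0) (T.l 0)))) (T.a (T.a (T.c (T.l 204) (T.l 236)) (T.l 236)) (T.a (T.l 236) (T.c (T.l 0) (T.l 0)))))) (T.a (T.b (T.a (T.a (T.l 748) (T.l 748)) (T.a (T.c (T.l 748) (T.l 748)) (T.c (T.l 236) (T.l 236)))) (T.a (T.a (T.l 748) (T.l 748)) (T.a (T.c (T.l 748) (T.l 748)) (T.c (T.l 236) (T.l 236))))) (T.b (T.a (T.a (T.c (T.l 204) (T.l 236)) (T.l 236)) (T.a (T.l 236) (T.c (T.l 0) (T.l 0)))) (T.a (T.a (T.c (T.l 204) (T.l 236)) (T.l 236)) (T.a (T.l 236) (T.c (T.l 0) (T.l 0)))))))), by decide +kernel⟩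

def B012E_200_1_2409_1 :
    ∃ t, chk3 (onCell 0 16777216 0 1073741824 1040187392 5207648 (corT true 1 c0B cB012E gB2q0 gB0q2 gB0q1 gB1q1 true false)) t 1 2409 1 = true :=
  ⟨(T.a (T.a (T.l 204) (T.b (T.b (T.a (T.a (T.l 204) (T.a (T.l 716) (T.l 204))) (T.a (T.c (T.l 204) (T.l 204)) (T.l 748))) (T.a (T.a (T.l 204) (T.a (T.l 716) (T.l 204))) (T.a (T.c (T.l 204) (T.l 204)) (T.l 748)))) (T.b (T.a (T.a (T.l 204) (T.a (T.l 716) (T.l 204))) (T.a (T.c (T.l 204) (T.l 204)) (T.l 716))) (T.a (T.a (T.l 204) (T.a (T.l 204) (T.l 204))) (T.a (T.c (T.l 204) (T.l 204)) (T.l 716)))))) (T.b (T.a (T.b (T.a (T.a (T.l 748) (T.l 748)) (T.a (T.c (T.l 748) (T.l 748)) (T.c (T.l 204) (T.l 236)))) (T.a (T.a (T.l 748) (T.l 748)) (T.a (T.c (T.l 236) (T.l 748)) (T.c (T.l 204) (T.l 236))))) (T.b (T.a (T.a (T.l 236) (T.l 236)) (T.a (T.l 236) (T.l 0))) (T.a (T.a (T.l 236)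 (T.l 236)) (T.a (T.l 236) (T.l 0))))) (T.a (T.b (T.a (T.a (T.l 748) (T.l 748)) (T.a (T.c (T.l 236) (T.l 748)) (T.c (T.l 204) (T.l 236)))) (T.a (T.a (T.l 748) (T.l 748)) (T.a (T.c (T.l 236) (T.l 748)) (T.l 748)))) (T.b (T.a (T.a (T.l 236) (T.l 236)) (T.a (T.l 204) (T.l 0))) (T.a (T.a (T.l 236) (T.l 236)) (T.a (T.l 204) (T.l 0))))))), by decide +kernel⟩

def B012E_200_1_1205_1 :
    ∃ t, chk3 (onCell 0 16777216 0 1073741824 1040187392 5207648 (corT true 1 c0B cB012E gB2q0 gB0q2 gB0q1 gB1q1 true false)) t 1 1205 1 = true :=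
  ⟨(T.b (T.a (T.a (T.l 204) (T.b (T.b (T.a (T.a (T.l 204) (T.a (T.l 204) (T.l 204))) (T.a (T.c (T.l 204) (T.l 204)) (T.l 716))) (T.a (T.a (T.l 204) (T.a (T.l 204) (T.l 204))) (T.a (T.l 716) (T.l 716)))) (T.b (T.a (T.a (T.l 204) (T.a (T.l 204) (T.l 204))) (T.a (T.l 716) (T.l 716))) (T.a (T.a (T.l 204) (T.a (T.l 204) (T.l 204))) (T.a (T.l 716) (T.l 716)))))) (T.b (T.a (T.b (T.a (T.a (T.l 748) (T.l 748)) (T.a (T.c (T.l 236) (T.l 748)) (T.l 748))) (T.a (T.a (T.l 748) (T.l 748)) (T.a (T.c (T.l 236) (T.l 236)) (T.l 748)))) (T.a (T.a (T.l 236) (T.l 236)) (T.a (T.l 204) (T.l 0)))) (T.a (T.a (T.a (T.l 748) (T.l 748)) (T.a (T.c (T.l 236) (T.l 236)) (T.l 748))) (T.a (T.a (T.l 236) (T.l 236)) (T.a (T.l 204) (T.l 0)))))) (T.a (T.a (T.l 204) (T.b (T.b (T.a (T.a (T.l 204) (T.a (T.l 204) (T.l 204))) (T.a (T.l 716) (T.l 716))) (T.a (T.a (T.l 204) (T.a (T.l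 204) (T.l 204))) (T.a (T.l 716) (T.l 716)))) (T.b (T.a (T.a (T.l 204) (T.a (T.l 204) (T.l 204))) (T.a (T.l 716) (T.l 716))) (T.a (T.a (T.l 204) (T.c (T.l 204) (T.l 716))) (T.a (T.l 716) (T.l 716)))))) (T.b (T.a (T.a (T.a (T.l 716) (T.l 748)) (T.a (T.c (T.l 236) (T.l 236)) (T.l 748))) (T.a (T.a (T.l 236) (T.l 236)) (T.a (T.l 204) (T.l 0)))) (T.a (T.a (T.a (T.l 204) (T.l 236)) (T.a (T.c (T.l 204) (T.l 236)) (T.l 748))) (T.a (T.a (T.l 236) (T.l 204)) (T.a (T.l 204) (T.l 0))))))), by decide +kernel⟩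

def B012E_200_1_1206_1 :
    ∃ t, chk3 (onCell 0 16777216 0 1073741824 1040187392 5207648 (corT true 1 c0B cB012E gB2q0 gB0q2 gB0q1 gB1q1 true false)) t 1 1206 1 = true :=
  ⟨(T.b (T.a (T.a (T.l 204) (T.b (T.b (T.a (T.a (T.l 204) (T.c (T.l 204) (T.l 716))) (T.a (T.l 716) (T.l 204))) (T.a (T.a (T.l 204) (T.c (T.l 204) (T.l 716))) (T.a (T.l 716) (T.l 204)))) (T.b (T.a (T.a (T.l 204) (T.c (T.l 204) (T.l 716))) (T.a (T.l 716) (T.l 204))) (T.a (T.a (T.l 204) (T.c (T.l 204) (T.l 716))) (T.a (T.l 716) (T.l 204)))))) (T.b (T.a (T.a (T.a (T.l 204) (T.l 204)) (T.a (T.l 748) (T.l 748))) (T.a (T.a (T.l 236) (T.l 204)) (T.a (T.l 204) (T.l 0)))) (T.a (T.a (T.a (T.l 204) (T.l 204)) (T.a (T.l 748) (T.l 236))) (T.a (T.a (T.l 236) (T.l 204)) (T.a (T.l 204) (T.l 0)))))) (T.a (T.a (T.l 204) (T.b (T.b (T.a (T.a (T.l 204) (T.c (T.l 204) (T.l 716))) (T.a (T.l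 716) (T.l 204))) (T.a (T.a (T.l 204) (T.c (T.l 204) (T.l 716))) (T.a (T.l 716) (T.l 204)))) (T.b (T.a (T.a (T.l 204) (T.c (T.l 204) (T.l 716))) (T.a (T.l 716) (T.l 204))) (T.a (T.a (T.l 204) (T.c (T.l 204) (T.l 716))) (T.a (T.l 716) (T.l 204)))))) (T.b (T.a (T.a (T.a (T.l 204) (T.l 204)) (T.a (T.l 748) (T.l 236))) (T.a (T.a (T.l 204) (T.l 204)) (T.c (T.l 0) (T.l 0)))) (T.a (T.a (T.a (T.l 204) (T.l 204)) (T.a (T.l 748) (T.l 236))) (T.a (T.a (T.l 204) (T.l 204)) (T.c (T.l 0) (T.l 0))))))), by decide +kernel⟩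

def B012E_200_1_1207_1 :
    ∃ t, chk3 (onCell 0 16777216 0 1073741824 1040187392 5207648 (corT true 1 c0B cB012E gB2q0 gB0q2 gB0q1 gB1q1 true false)) t 1 1207 1 = true :=
  ⟨(T.b (T.a (T.a (T.l 204) (T.b (T.b (T.a (T.a (T.l 204) (T.c (T.l 204) (T.l 716))) (T.a (T.l 716) (T.l 204))) (T.a (T.a (T.l 204) (T.c (T.l 204) (T.l 716))) (T.a (T.l 716) (T.l 204)))) (T.b (T.a (T.a (T.l 204) (T.c (T.l 204) (T.l 716))) (T.a (T.l 204) (T.l 204))) (T.a (T.a (T.l 204) (T.c (T.l 204) (T.l 204))) (T.a (T.l 204) (T.l 204)))))) (T.b (T.a (T.a (T.a (T.l 204) (T.l 204)) (T.a (T.l 748) (T.l 236))) (T.a (T.a (T.l 204) (T.l 204)) (T.c (T.l 0) (T.l 0)))) (T.a (T.a (T.a (T.l 204) (T.l 204)) (T.a (T.l 748) (T.l 236))) (T.a (T.c (T.l 236) (T.l 236)) (T.c (T.l 0) (T.l 0)))))) (T.a (T.a (T.l 204) (T.a (T.a (T.l 204) (T.c (T.l 204) (T.l 204))) (T.a (T.l 204) (T.l 204))))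 (T.b (T.a (T.a (T.a (T.l 204) (T.l 204)) (T.a (T.l 748) (T.l 236))) (T.a (T.c (T.l 236) (T.l 236)) (T.c (T.l 0) (T.l 0)))) (T.a (T.a (T.a (T.l 204) (T.l 204)) (T.a (T.l 748) (T.l 204))) (T.a (T.c (T.l 236) (T.l 236)) (T.c (T.l 0) (T.l 0))))))), by decide +kernel⟩

def B012E_200_1_604_1 :
    ∃ t, chk3 (onCell 0 16777216 0 1073741824 1040187392 5207648 (corT true 1 c0B cB012E gB2q0 gB0q2 gB0q1 gB1q1 true false)) t 1 604 1 = true :=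
  ⟨(T.b (T.b (T.a (T.a (T.l 204) (T.a (T.a (T.l 204) (T.c (T.l 204) (T.l 204))) (T.a (T.l 204) (T.l 204)))) (T.b (T.a (T.a (T.c (T.l 716) (T.l 716)) (T.a (T.l 748) (T.l 204))) (T.a (T.c (T.l 236) (T.l 236)) (T.c (T.l 0) (T.l 0)))) (T.a (T.a (T.c (T.l 716) (T.l 716)) (T.a (T.l 748) (T.l 204))) (T.a (T.c (T.l 236) (T.l 236)) (T.c (T.l 0) (T.l 0)))))) (T.a (T.a (T.l 204) (T.a (T.a (T.l 204) (T.c (T.l 204) (T.l 204))) (T.a (T.l 204) (T.l 204)))) (T.b (T.a (T.a (T.c (T.l 716) (T.l 716)) (T.a (T.l 748) (T.l 204))) (T.a (T.c (T.l 204) (T.l 236)) (T.c (T.l 0) (T.l 0)))) (T.a (T.a (T.c (T.l 716) (T.l 716)) (T.a (T.l 236) (T.l 204))) (T.a (T.c (T.l 204) (T.l 236)) (T.l 0)))))) (T.b (T.a (T.a (T.l 204) (T.a (T.a (T.l 204) (T.l 716)) (T.a (T.l 204) (T.l 204)))) (T.b (T.a (T.a (T.c (T.l 716) (T.l 716)) (T.a (T.l 204) (T.l 204))) (T.a (T.c (T.l 204) (T.l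 236)) (T.l 0))) (T.a (T.a (T.c (T.l 716) (T.l 716)) (T.a (T.l 204) (T.l 204))) (T.a (T.c (T.l 204) (T.l 204)) (T.l 0))))) (T.a (T.a (T.l 204) (T.a (T.a (T.l 204) (T.l 716)) (T.a (T.l 204) (T.l 204)))) (T.b (T.a (T.a (T.c (T.l 716) (T.l 716)) (T.a (T.l 204) (T.l 204))) (T.a (T.l 236) (T.l 0))) (T.a (T.a (T.c (T.l 716) (T.l 716)) (T.a (T.l 204) (T.l 204))) (T.a (T.l 236) (T.l 0))))))), by decide +kernel⟩

def B012E_200_1_605_1 :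
    ∃ t, chk3 (onCell 0 16777216 0 1073741824 1040187392 5207648 (corT true 1 c0B cB012E gB2q0 gB0q2 gB0q1 gB1q1 true false)) t 1 605 1 = true :=
  ⟨(T.b (T.b (T.a (T.a (T.l 204) (T.a (T.a (T.l 204) (T.l 716)) (T.a (T.l 204) (T.l 204)))) (T.b (T.a (T.a (T.c (T.l 716) (T.l 716)) (T.a (T.l 204) (T.l 204))) (T.a (T.l 236) (T.l 0))) (T.a (T.a (T.c (T.l 716) (T.l 716)) (T.a (T.l 204) (T.l 204))) (T.a (T.l 236) (T.l 0))))) (T.a (T.a (T.l 204) (T.a (T.a (T.l 204) (T.l 204)) (T.a (T.l 204) (T.l 204)))) (T.b (T.a (T.a (T.c (T.l 716) (T.l 716)) (T.a (T.l 204) (T.l 204))) (T.a (T.l 236) (T.l 0))) (T.a (T.a (T.c (T.l 716) (T.l 716)) (T.a (T.l 204) (T.l 204))) (T.a (T.l 236) (T.l 0)))))) (T.b (T.a (T.a (T.l 204) (T.a (T.a (T.l 204) (T.l 204)) (T.a (T.l 204) (T.l 204)))) (T.b (T.a (T.a (T.c (T.l 716) (T.l 716)) (T.a (T.l 204) (T.l 204))) (T.a (T.l 236)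 (T.l 0))) (T.a (T.a (T.l 716) (T.a (T.l 204) (T.l 204))) (T.a (T.l 236) (T.l 0))))) (T.a (T.a (T.l 204) (T.a (T.a (T.l 204) (T.l 204)) (T.a (T.l 204) (T.l 204)))) (T.b (T.a (T.a (T.l 716) (T.a (T.l 204) (T.l 204))) (T.a (T.l 204) (T.l 0))) (T.a (T.a (T.l 716) (T.a (T.l 204) (T.l 204))) (T.a (T.l 204) (T.l 0))))))), by decide +kernel⟩

def B012E_200_1_303_1 :
    ∃ t, chk3 (onCell 0 16777216 0 1073741824 1040187392 5207648 (corT true 1 c0B cB012E gB2q0 gB0q2 gB0q1 gB1q1 true false)) t 1 303 1 = true :=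
  ⟨(T.b (T.b (T.b (T.a (T.a (T.l 204) (T.a (T.a (T.l 204) (T.l 204)) (T.a (T.l 204) (T.l 204)))) (T.b (T.a (T.a (T.l 716) (T.a (T.l 204) (T.l 204))) (T.a (T.l 204) (T.l 0))) (T.a (T.a (T.l 716) (T.a (T.l 204) (T.l 204))) (T.a (T.l 204) (T.l 0))))) (T.a (T.a (T.l 204) (T.a (T.a (T.l 204) (T.l 204)) (T.a (T.l 204) (T.l 204)))) (T.b (T.a (T.a (T.l 716) (T.c (T.l 748) (T.l 748))) (T.a (T.l 204) (T.l 0))) (T.a (T.a (T.l 716) (T.c (T.l 748) (T.l 748))) (T.a (T.l 204) (T.l 0)))))) (T.b (T.a (T.a (T.l 204) (T.a (T.a (T.l 204) (T.l 204)) (T.a (T.l 204) (T.l 204)))) (T.a (T.a (T.l 716) (T.c (T.l 748) (T.l 748))) (T.a (T.l 204) (T.l 0)))) (T.a (T.a (T.l 204) (T.a (T.a (T.l 204) (T.l 204)) (T.a (T.l 204) (T.l 204)))) (T.a (T.a (T.l 716) (T.c (T.l 716) (T.l 748))) (T.a (T.l 204) (T.l 0)))))) (T.b (T.b (T.a (T.a (T.l 204) (T.a (T.a (T.l 204) (T.l 204))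 (T.a (T.l 204) (T.l 204)))) (T.a (T.a (T.l 716) (T.c (T.l 716) (T.l 748))) (T.a (T.l 204) (T.l 0)))) (T.a (T.a (T.l 204) (T.a (T.a (T.l 204) (T.l 204)) (T.a (T.l 204) (T.l 204)))) (T.a (T.a (T.l 716) (T.c (T.l 716) (T.l 716))) (T.a (T.l 204) (T.l 0))))) (T.b (T.a (T.a (T.l 204) (T.a (T.a (T.l 204) (T.l 204)) (T.a (T.l 204) (T.l 204)))) (T.a (T.a (T.l 716) (T.c (T.l 716) (T.l 716))) (T.a (T.l 204) (T.l 0)))) (T.a (T.a (T.l 204) (T.a (T.a (T.l 204) (T.l 204)) (T.a (T.l 204) (T.l 204)))) (T.a (T.a (T.l 204) (T.c (T.l 716) (T.l 716))) (T.a (T.l 204) (T.l 0))))))), by decide +kernel⟩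

def B012E_200_1_304_1 :
    ∃ t, chk3 (onCell 0 16777216 0 1073741824 1040187392 5207648 (corT true 1 c0B cB012E gB2q0 gB0q2 gB0q1 gB1q1 true false)) t 1 304 1 = true :=
  ⟨(T.b (T.b (T.b (T.a (T.a (T.l 204) (T.a (T.a (T.l 204) (T.l 204)) (T.a (T.l 204) (T.l 204)))) (T.a (T.a (T.l 204) (T.c (T.l 716) (T.l 716))) (T.a (T.l 204) (T.l 0)))) (T.a (T.a (T.l 204) (T.a (T.a (T.l 204) (T.l 204)) (T.c (T.l 716) (T.l 716)))) (T.a (T.a (T.l 204) (T.c (T.l 716) (T.l 716))) (T.a (T.l 204) (T.l 0))))) (T.b (T.a (T.a (T.l 204) (T.a (T.a (T.l 204) (T.l 204)) (T.c (T.l 716) (T.l 716)))) (T.a (T.a (T.l 204) (T.l 716)) (T.a (T.l 204) (T.l 0)))) (T.a (T.a (T.l 204) (T.a (T.a (T.l 204) (T.l 204)) (T.c (T.l 716) (T.l 716)))) (T.a (T.a (T.l 204) (T.l 716)) (T.a (T.l 204) (T.l 0)))))) (T.b (T.b (T.a (T.a (T.l 204) (T.a (T.a (T.l 204) (T.l 204)) (T.c (T.l 716)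 (T.l 716)))) (T.a (T.a (T.l 204) (T.l 716)) (T.a (T.l 204) (T.l 0)))) (T.a (T.a (T.l 204) (T.a (T.a (T.l 204) (T.l 204)) (T.c (T.l 204) (T.l 716)))) (T.a (T.a (T.l 204) (T.l 716)) (T.a (T.l 204) (T.l 0))))) (T.b (T.a (T.a (T.l 204) (T.a (T.a (T.l 204) (T.l 204)) (T.c (T.l 204) (T.l 716)))) (T.a (T.a (T.l 204) (T.l 716)) (T.a (T.l 204) (T.l 0)))) (T.a (T.a (T.l 204) (T.a (T.a (T.l 204) (T.l 204)) (T.c (T.l 204) (T.l 204)))) (T.a (T.a (T.l 204) (T.l 716)) (T.a (T.l 204) (T.l 0))))))), by decide +kernel⟩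

def B012E_200_1_305_1 :
    ∃ t, chk3 (onCell 0 16777216 0 1073741824 1040187392 5207648 (corT true 1 c0B cB012E gB2q0 gB0q2 gB0q1 gB1q1 true false)) t 1 305 1 = true :=
  ⟨(T.b (T.b (T.b (T.a (T.a (T.l 204) (T.a (T.a (T.l 204) (T.l 204)) (T.l 716))) (T.a (T.a (T.l 204) (T.l 716)) (T.a (T.l 204) (T.l 0)))) (T.a (T.a (T.l 204) (T.a (T.a (T.l 204) (T.l 204)) (T.l 716))) (T.a (T.a (T.l 204) (T.l 716)) (T.a (T.l 204) (T.l 0))))) (T.b (T.a (T.a (T.l 204) (T.a (T.a (T.l 204) (T.l 204)) (T.l 716))) (T.a (T.a (T.l 204) (T.l 716)) (T.a (T.l 204) (T.l 0)))) (T.a (T.a (T.l 204) (T.a (T.a (T.l 204) (T.l 204)) (T.l 716))) (T.a (T.a (T.l 204) (T.l 716)) (T.a (T.l 204) (T.l 0)))))) (T.b (T.b (T.a (T.a (T.l 204) (T.a (T.a (T.l 204) (T.l 204)) (T.l 716))) (T.a (T.a (T.l 204) (T.l 204)) (T.a (T.l 204) (T.l 0)))) (T.a (T.a (T.l 204) (T.a (T.a (T.l 204) (T.l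 204)) (T.l 716))) (T.a (T.a (T.l 204) (T.l 204)) (T.a (T.l 204) (T.l 0))))) (T.b (T.a (T.a (T.l 204) (T.a (T.a (T.l 204) (T.l 204)) (T.l 204))) (T.a (T.a (T.l 204) (T.l 204)) (T.a (T.l 204) (T.l 0)))) (T.a (T.a (T.l 204) (T.a (T.a (T.l 204) (T.l 204)) (T.l 204))) (T.a (T.a (T.l 204) (T.l 204)) (T.a (T.l 204) (T.l 0))))))), by decide +kernel⟩

def B012E_200_1_306_1 :
    ∃ t, chk3 (onCell 0 16777216 0 1073741824 1040187392 5207648 (corT true 1 c0B cB012E gB2q0 gB0q2 gB0q1 gB1q1 true false)) t 1 306 1 = true :=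
  ⟨(T.b (T.b (T.b (T.a (T.a (T.l 204) (T.a (T.a (T.l 204) (T.l 204)) (T.l 204))) (T.a (T.a (T.l 204) (T.l 204)) (T.a (T.l 204) (T.l 0)))) (T.a (T.a (T.l 204) (T.a (T.a (T.l 204) (T.l 204)) (T.l 204))) (T.a (T.a (T.l 204) (T.l 204)) (T.a (T.l 204) (T.l 0))))) (T.b (T.a (T.a (T.l 204) (T.a (T.a (T.l 204) (T.l 204)) (T.l 204))) (T.a (T.a (T.l 204) (T.l 204)) (T.a (T.l 204) (T.l 0)))) (T.a (T.a (T.l 204) (T.a (T.a (T.l 204) (T.l 204)) (T.l 204))) (T.a (T.a (T.l 204) (T.l 204)) (T.a (T.l 204) (T.l 0)))))) (T.b (T.b (T.a (T.a (T.l 204) (T.a (T.a (T.l 204) (T.l 204)) (T.l 204))) (T.a (T.a (T.l 204) (T.l 204)) (T.a (T.l 204) (T.l 0)))) (T.a (T.a (T.l 204) (T.a (T.a (T.l 204) (T.l 204)) (T.l 204))) (T.a (T.a (T.l 204) (T.l 204)) (T.a (T.l 204) (T.l 0))))) (T.b (T.a (T.a (T.l 204) (T.a (T.a (T.l 204) (T.l 204)) (T.l 204))) (T.a (T.a (T.l 204) (T.l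 204)) (T.a (T.l 204) (T.l 0)))) (T.a (T.a (T.l 204) (T.a (T.a (T.l 204) (T.l 204)) (T.l 204))) (T.a (T.a (T.l 204) (T.l 204)) (T.a (T.l 204) (T.l 0))))))), by decide +kernel⟩

def B012E_200_1_307_1 :
    ∃ t, chk3 (onCell 0 16777216 0 1073741824 1040187392 5207648 (corT true 1 c0B cB012E gB2q0 gB0q2 gB0q1 gB1q1 true false)) t 1 307 1 = true :=
  ⟨(T.b (T.b (T.b (T.a (T.a (T.l 204) (T.a (T.a (T.l 204) (T.l 204)) (T.l 204))) (T.a (T.a (T.l 204) (T.l 204)) (T.a (T.l 204) (T.l 0)))) (T.a (T.a (T.l 204) (T.a (T.a (T.l 204) (T.l 204)) (T.l 204))) (T.a (T.a (T.l 204) (T.l 204)) (T.a (T.l 204) (T.l 0))))) (T.b (T.a (T.a (T.l 204) (T.a (T.a (T.l 204) (T.l 204)) (T.l 204))) (T.a (T.a (T.l 204) (T.l 204)) (T.a (T.l 204) (T.l 0)))) (T.a (T.a (T.l 204) (T.a (T.a (T.l 204) (T.l 204)) (T.l 204))) (T.a (T.a (T.l 204) (T.l 204)) (T.a (T.l 204) (T.l 0))))))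 (T.b (T.b (T.a (T.a (T.l 204) (T.a (T.a (T.l 204) (T.l 204)) (T.l 204))) (T.a (T.a (T.l 204) (T.l 204)) (T.a (T.l 204) (T.l 0)))) (T.a (T.a (T.l 204) (T.a (T.a (T.l 204) (T.l 204)) (T.l 204))) (T.a (T.a (T.l 204) (T.l 204)) (T.a (T.l 204) (T.l 0))))) (T.b (T.a (T.a (T.l 204) (T.a (T.a (T.l 204) (T.l 204)) (T.l 204))) (T.a (T.a (T.l 204) (T.l 204)) (T.l 512))) (T.a (T.a (T.l 204) (T.a (T.a (T.l 204) (T.l 204)) (T.l 204))) (T.a (T.a (T.l 204) (T.l 204)) (T.l 512)))))), by decide +kernel⟩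

def B012E_200_1_308_1 :
    ∃ t, chk3 (onCell 0 16777216 0 1073741824 1040187392 5207648 (corT true 1 c0B cB012E gB2q0 gB0q2 gB0q1 gB1q1 true false)) t 1 308 1 = true :=
  ⟨(T.b (T.b (T.b (T.a (T.a (T.l 204) (T.a (T.a (T.l 204) (T.l 204)) (T.l 204))) (T.a (T.a (T.l 204) (T.l 204)) (T.l 512))) (T.a (T.a (T.l 204) (T.a (T.a (T.l 204) (T.l 204)) (T.l 204))) (T.a (T.a (T.l 204) (T.l 204)) (T.l 512)))) (T.b (T.a (T.a (T.l 204) (T.a (T.a (T.l 204) (T.l 204)) (T.l 204))) (T.a (T.a (T.l 204) (T.l 204)) (T.l 512))) (T.a (T.a (T.l 204) (T.a (T.a (T.l 204) (T.l 204)) (T.l 204))) (T.a (T.a (T.l 204) (T.l 204)) (T.l 512))))) (T.b (T.b (T.a (T.a (T.l 204) (T.a (T.a (T.l 204) (T.l 204)) (T.l 204))) (T.a (T.a (T.l 204) (T.l 204)) (T.l 512))) (T.a (T.a (T.l 204) (T.a (T.a (T.l 204) (T.l 204)) (T.l 204))) (T.a (T.a (T.l 204) (T.l 204)) (T.l 0)))) (T.b (T.a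 (T.a (T.l 204) (T.a (T.a (T.l 204) (T.l 204)) (T.l 204))) (T.a (T.a (T.l 204) (T.l 204)) (T.l 0))) (T.a (T.a (T.l 204) (T.a (T.a (T.l 204) (T.l 204)) (T.l 204))) (T.a (T.a (T.l 204) (T.l 204)) (T.l 0)))))), by decide +kernel⟩

def B012E_200_1_309_1 :
    ∃ t, chk3 (onCell 0 16777216 0 1073741824 1040187392 5207648 (corT true 1 c0B cB012E gB2q0 gB0q2 gB0q1 gB1q1 true false)) t 1 309 1 = true :=
  ⟨(T.b (T.b (T.b (T.a (T.a (T.l 204) (T.a (T.a (T.l 204) (T.l 204)) (T.l 204))) (T.a (T.a (T.l 204) (T.l 204)) (T.l 0))) (T.a (T.a (T.l 204) (T.a (T.a (T.l 204) (T.l 204)) (T.l 204))) (T.a (T.a (T.l 204) (T.l 204)) (T.l 0)))) (T.b (T.a (T.a (T.l 204) (T.a (T.a (T.l 204) (T.l 204)) (T.l 204))) (T.a (T.a (T.l 204) (T.l 204)) (T.l 0))) (T.a (T.a (T.l 204) (T.a (T.a (T.l 204) (T.l 204)) (T.l 204))) (T.a (T.a (T.l 204) (T.l 204)) (T.l 0))))) (T.b (T.b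 (T.a (T.a (T.l 204) (T.a (T.a (T.l 204) (T.l 204)) (T.l 204))) (T.a (T.a (T.l 204) (T.l 204)) (T.l 0))) (T.a (T.a (T.l 204) (T.a (T.a (T.l 204) (T.l 204)) (T.l 204))) (T.a (T.a (T.l 204) (T.l 204)) (T.l 0)))) (T.b (T.a (T.a (T.l 204) (T.a (T.a (T.l 204) (T.l 204)) (T.l 204))) (T.a (T.a (T.l 204) (T.l 204)) (T.l 0))) (T.a (T.a (T.l 204) (T.a (T.a (T.l 204) (T.l 204)) (T.l 204))) (T.a (T.a (T.l 204) (T.l 204)) (T.l 0)))))), by decide +kernel⟩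

def B012E_200_1_310_1 :
    ∃ t, chk3 (onCell 0 16777216 0 1073741824 1040187392 5207648 (corT true 1 c0B cB012E gB2q0 gB0q2 gB0q1 gB1q1 true false)) t 1 310 1 = true :=
  ⟨(T.b (T.b (T.b (T.a (T.a (T.l 204) (T.a (T.a (T.l 204) (T.l 204)) (T.l 204))) (T.a (T.a (T.l 204) (T.l 204)) (T.l 0))) (T.a (T.a (T.l 204) (T.a (T.a (T.l 204) (T.l 204)) (T.l 204))) (T.a (T.a (T.l 204) (T.l 204)) (T.l 0)))) (T.b (T.a (T.a (T.l 204) (T.a (T.a (T.l 204) (T.l 204)) (T.l 204))) (T.a (T.a (T.l 204) (T.l 204)) (T.l 0))) (T.a (T.a (T.l 204) (T.a (T.a (T.l 204) (T.l 204)) (T.l 204))) (T.a (T.a (T.l 204) (T.l 204)) (T.l 0))))) (T.b (T.b (T.a (T.a (T.l 204) (T.a (T.a (T.l 204) (T.l 204)) (T.l 204))) (T.a (T.a (T.l 204) (T.l 204)) (T.l 0))) (T.a (T.a (T.l 204) (T.a (T.a (T.l 204) (T.l 204)) (T.l 204))) (T.a (T.a (T.l 204) (T.l 204)) (T.l 0)))) (T.b (T.a (T.a (T.l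 204) (T.a (T.a (T.l 204) (T.l 204)) (T.l 204))) (T.a (T.a (T.l 204) (T.l 204)) (T.l 0))) (T.a (T.a (T.l 204) (T.a (T.a (T.l 204) (T.l 204)) (T.l 204))) (T.a (T.a (T.l 204) (T.l 204)) (T.l 0)))))), by decide +kernel⟩

def B012E_200_1_311_1 :
    ∃ t, chk3 (onCell 0 16777216 0 1073741824 1040187392 5207648 (corT true 1 c0B cB012E gB2q0 gB0q2 gB0q1 gB1q1 true false)) t 1 311 1 = true :=
  ⟨(T.b (T.b (T.b (T.a (T.a (T.l 204) (T.a (T.a (T.l 204) (T.l 204)) (T.l 204))) (T.a (T.a (T.l 204) (T.l 204)) (T.l 0))) (T.a (T.a (T.l 204) (T.a (T.c (T.l 716) (T.l 716)) (T.l 204))) (T.a (T.a (T.l 204) (T.l 204)) (T.l 0)))) (T.b (T.a (T.a (T.l 204) (T.a (T.c (T.l 204) (T.l 716)) (T.l 204))) (T.a (T.a (T.l 204) (T.l 204)) (T.l 0))) (T.a (T.a (T.l 204) (T.a (T.c (T.l 204) (T.l 716)) (T.l 204))) (T.a (T.a (T.l 204) (T.l 204)) (T.l 0))))) (T.b (T.b (T.a (T.a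 (T.l 204) (T.a (T.c (T.l 204) (T.l 204)) (T.l 204))) (T.a (T.a (T.l 204) (T.l 204)) (T.l 0))) (T.a (T.a (T.l 204) (T.a (T.c (T.l 204) (T.l 204)) (T.l 204))) (T.a (T.a (T.l 204) (T.l 204)) (T.l 0)))) (T.a (T.a (T.l 204) (T.a (T.c (T.l 204) (T.l 204)) (T.l 204))) (T.a (T.a (T.l 204) (T.l 204)) (T.l 0))))), by decide +kernel⟩

def B012E_200_1_78_1 :
    ∃ t, chk3 (onCell 0 16777216 0 1073741824 1040187392 5207648 (corT true 1 c0B cB012E gB2q0 gB0q2 gB0q1 gB1q1 true false)) t 1 78 1 = true :=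
  ⟨(T.b (T.b (T.b (T.b (T.a (T.a (T.l 204) (T.a (T.l 716) (T.l 204))) (T.a (T.a (T.l 204) (T.l 204)) (T.l 0))) (T.a (T.a (T.l 204) (T.a (T.l 716) (T.l 204))) (T.a (T.a (T.l 204) (T.l 204)) (T.l 0)))) (T.b (T.a (T.a (T.l 204) (T.a (T.l 204) (T.l 204))) (T.a (T.a (T.l 204) (T.l 204)) (T.l 0))) (T.a (T.a (T.l 204) (T.a (T.l 204) (T.l 204))) (T.a (T.a (T.l 204) (T.l 204)) (T.l 0))))) (T.b (T.b (T.a (T.a (T.l 204) (T.a (T.l 204) (T.l 204))) (T.a (T.a (T.l 204) (T.l 204)) (T.l 0))) (T.a (T.a (T.l 204) (T.a (T.l 204) (T.l 204))) (T.a (T.a (T.l 204) (T.l 204)) (T.l 0)))) (T.b (T.a (T.a (T.l 204) (T.a (T.l 204) (T.l 204))) (T.a (T.a (T.l 204) (T.l 204)) (T.l 0))) (T.a (T.a (T.l 204) (T.a (T.l 204) (T.l 204))) (T.a (T.a (T.l 204) (T.l 204)) (T.l 0)))))) (T.b (T.b (T.b (T.a (T.a (T.l 204) (T.a (T.l 204) (T.l 204))) (T.a (T.a (T.l 204) (T.l 204)) (T.l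 0))) (T.a (T.a (T.l 204) (T.a (T.l 204) (T.l 204))) (T.a (T.a (T.l 204) (T.l 204)) (T.l 0)))) (T.b (T.a (T.a (T.l 204) (T.a (T.l 204) (T.l 204))) (T.a (T.a (T.l 204) (T.l 204)) (T.l 0))) (T.a (T.a (T.l 204) (T.a (T.l 204) (T.l 204))) (T.a (T.a (T.l 204) (T.l 204)) (T.l 0))))) (T.b (T.b (T.a (T.a (T.l 204) (T.a (T.l 204) (T.l 204))) (T.a (T.a (T.l 204) (T.l 204)) (T.l 0))) (T.a (T.a (T.l 204) (T.a (T.l 204) (T.l 204))) (T.a (T.a (T.l 204) (T.l 204)) (T.l 0)))) (T.b (T.a (T.a (T.l 204) (T.a (T.l 204) (T.l 204))) (T.a (T.a (T.l 204) (T.l 204)) (T.l 0))) (T.a (T.a (T.l 204) (T.a (T.l 204) (T.l 204))) (T.a (T.a (T.l 204) (T.l 204)) (T.l 0))))))), by decide +kernel⟩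

def B012E_200_1_79_1 :
    ∃ t, chk3 (onCell 0 16777216 0 1073741824 1040187392 5207648 (corT true 1 c0B cB012E gB2q0 gB0q2 gB0q1 gB1q1 true false)) t 1 79 1 = true :=
  ⟨(T.b (T.b (T.b (T.b (T.a (T.a (T.l 204) (T.a (T.l 204) (T.l 204))) (T.a (T.a (T.l 204) (T.l 204)) (T.l 0))) (T.a (T.a (T.l 204) (T.a (T.l 204) (T.l 204))) (T.a (T.a (T.l 204) (T.l 204)) (T.l 0)))) (T.b (T.a (T.a (T.l 204) (T.a (T.l 204) (T.l 204))) (T.a (T.a (T.l 204) (T.l 204)) (T.l 0))) (T.a (T.a (T.l 204) (T.a (T.l 204) (T.l 204))) (T.a (T.a (T.l 204) (T.l 204)) (T.l 0))))) (T.b (T.b (T.a (T.a (T.l 204) (T.a (T.l 204) (T.l 204))) (T.a (T.a (T.l 204) (T.l 204)) (T.l 0))) (T.a (T.a (T.l 204) (T.a (T.l 204) (T.l 204))) (T.a (T.a (T.l 204) (T.l 204)) (T.l 0)))) (T.b (T.a (T.a (T.l 204) (T.a (T.l 204) (T.l 204))) (T.a (T.a (T.l 204) (T.l 204)) (T.l 0))) (T.a (T.a (T.l 204)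 (T.a (T.l 204) (T.l 204))) (T.a (T.a (T.l 204) (T.l 204)) (T.l 0)))))) (T.b (T.b (T.b (T.a (T.a (T.l 204) (T.a (T.l 204) (T.l 204))) (T.a (T.a (T.l 204) (T.l 204)) (T.l 0))) (T.a (T.a (T.l 204) (T.a (T.l 204) (T.l 204))) (T.a (T.a (T.l 204) (T.l 204)) (T.l 0)))) (T.b (T.a (T.a (T.l 204) (T.a (T.l 204) (T.l 204))) (T.a (T.a (T.l 204) (T.l 204)) (T.l 0))) (T.a (T.a (T.l 204) (T.a (T.l 204) (T.l 204))) (T.a (T.a (T.l 204) (T.l 204)) (T.l 0))))) (T.b (T.b (T.a (T.a (T.l 204) (T.a (T.l 204) (T.l 204))) (T.a (T.a (T.l 204) (T.l 204)) (T.l 0))) (T.a (T.a (T.l 204) (T.a (T.l 204) (T.l 204))) (T.a (T.a (T.l 204) (T.l 204)) (T.l 0)))) (T.a (T.a (T.l 204) (T.a (T.l 204) (T.l 204))) (T.a (T.a (T.l 204) (T.l 204)) (T.l 0)))))), by decide +kernel⟩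

def B012E_200_1_5_1 :
    ∃ t, chk3 (onCell 0 16777216 0 1073741824 1040187392 5207648 (corT true 1 c0B cB012E gB2q0 gB0q2 gB0q1 gB1q1 true false)) t 1 5 1 = true :=
  ⟨(T.b (T.b (T.b (T.a (T.a (T.l 204) (T.a (T.l 204) (T.l 204))) (T.a (T.a (T.l 204) (T.l 204)) (T.l 0))) (T.a (T.a (T.l 204) (T.a (T.l 204) (T.l 204))) (T.a (T.l 0) (T.l 0)))) (T.a (T.a (T.l 204) (T.a (T.l 0) (T.l 204))) (T.a (T.l 0) (T.l 0)))) (T.b (T.a (T.a (T.l 0) (T.l 0)) (T.a (T.l 0) (T.l 0))) (T.a (T.a (T.l 0) (T.l 0)) (T.a (T.l 0) (T.l 0))))), by decide +kernel⟩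

def B012E_200_1_3_1 :
    ∃ t, chk3 (onCell 0 16777216 0 1073741824 1040187392 5207648 (corT true 1 c0B cB012E gB2q0 gB0q2 gB0q1 gB1q1 true false)) t 1 3 1 = true :=
  ⟨(T.b (T.b (T.a (T.a (T.l 816) (T.l 0)) (T.a (T.l 0) (T.l 0))) (T.a (T.a (T.l 816) (T.l 0)) (T.a (T.l 0) (T.l 0)))) (T.a (T.a (T.l 816) (T.a (T.l 816) (T.l 0))) (T.a (T.b (T.l 0) (T.l 0)) (T.l 0)))), by decide +kernel⟩

theorem B012E_200_1_39_1 :
    ∃ t, chk3 (onCell 0 16777216 0 1073741824 1040187392 5207648 (corT true 1 c0B cB012E gB2q0 gB0q2 gB0q1 gB1q1 true false)) t 1 39 1 = true :=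
  ex3_b B012E_200_1_78_1 B012E_200_1_79_1
theorem B012E_200_1_155_1 :
    ∃ t, chk3 (onCell 0 16777216 0 1073741824 1040187392 5207648 (corT true 1 c0B cB012E gB2q0 gB0q2 gB0q1 gB1q1 true false)) t 1 155 1 = true :=
  ex3_b B012E_200_1_310_1 B012E_200_1_311_1
theorem B012E_200_1_154_1 :
    ∃ t, chk3 (onCell 0 16777216 0 1073741824 1040187392 5207648 (corT true 1 c0B cB012E gB2q0 gB0q2 gB0q1 gB1q1 true false)) t 1 154 1 = true :=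
  ex3_b B012E_200_1_308_1 B012E_200_1_309_1
theorem B012E_200_1_77_1 :
    ∃ t, chk3 (onCell 0 16777216 0 1073741824 1040187392 5207648 (corT true 1 c0B cB012E gB2q0 gB0q2 gB0q1 gB1q1 true false)) t 1 77 1 = true :=
  ex3_b B012E_200_1_154_1 B012E_200_1_155_1
theorem B012E_200_1_153_1 :
    ∃ t, chk3 (onCell 0 16777216 0 1073741824 1040187392 5207648 (corT true 1 c0B cB012E gB2q0 gB0q2 gB0q1 gB1q1 true false)) t 1 153 1 = true :=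
  ex3_b B012E_200_1_306_1 B012E_200_1_307_1
theorem B012E_200_1_152_1 :
    ∃ t, chk3 (onCell 0 16777216 0 1073741824 1040187392 5207648 (corT true 1 c0B cB012E gB2q0 gB0q2 gB0q1 gB1q1 true false)) t 1 152 1 = true :=
  ex3_b B012E_200_1_304_1 B012E_200_1_305_1
theorem B012E_200_1_76_1 :
    ∃ t, chk3 (onCell 0 16777216 0 1073741824 1040187392 5207648 (corT true 1 c0B cB012E gB2q0 gB0q2 gB0q1 gB1q1 true false)) t 1 76 1 = true :=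
  ex3_b B012E_200_1_152_1 B012E_200_1_153_1
theorem B012E_200_1_38_1 :
    ∃ t, chk3 (onCell 0 16777216 0 1073741824 1040187392 5207648 (corT true 1 c0B cB012E gB2q0 gB0q2 gB0q1 gB1q1 true false)) t 1 38 1 = true :=
  ex3_b B012E_200_1_76_1 B012E_200_1_77_1
theorem B012E_200_1_19_1 :
    ∃ t, chk3 (onCell 0 16777216 0 1073741824 1040187392 5207648 (corT true 1 c0B cB012E gB2q0 gB0q2 gB0q1 gB1q1 true false)) t 1 19 1 = true :=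
  ex3_b B012E_200_1_38_1 B012E_200_1_39_1
theorem B012E_200_1_302_1 :
    ∃ t, chk3 (onCell 0 16777216 0 1073741824 1040187392 5207648 (corT true 1 c0B cB012E gB2q0 gB0q2 gB0q1 gB1q1 true false)) t 1 302 1 = true :=
  ex3_b B012E_200_1_604_1 B012E_200_1_605_1
theorem B012E_200_1_151_1 :
    ∃ t, chk3 (onCell 0 16777216 0 1073741824 1040187392 5207648 (corT true 1 c0B cB012E gB2q0 gB0q2 gB0q1 gB1q1 true false)) t 1 151 1 = true :=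
  ex3_b B012E_200_1_302_1 B012E_200_1_303_1
theorem B012E_200_1_603_1 :
    ∃ t, chk3 (onCell 0 16777216 0 1073741824 1040187392 5207648 (corT true 1 c0B cB012E gB2q0 gB0q2 gB0q1 gB1q1 true false)) t 1 603 1 = true :=
  ex3_b B012E_200_1_1206_1 B012E_200_1_1207_1
theorem B012E_200_1_1204_1 :
    ∃ t, chk3 (onCell 0 16777216 0 1073741824 1040187392 5207648 (corT true 1 c0B cB012E gB2q0 gB0q2 gB0q1 gB1q1 true false)) t 1 1204 1 = true :=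
  ex3_b B012E_200_1_2408_1 B012E_200_1_2409_1
theorem B012E_200_1_602_1 :
    ∃ t, chk3 (onCell 0 16777216 0 1073741824 1040187392 5207648 (corT true 1 c0B cB012E gB2q0 gB0q2 gB0q1 gB1q1 true false)) t 1 602 1 = true :=
  ex3_b B012E_200_1_1204_1 B012E_200_1_1205_1
theorem B012E_200_1_301_1 :
    ∃ t, chk3 (onCell 0 16777216 0 1073741824 1040187392 5207648 (corT true 1 c0B cB012E gB2q0 gB0q2 gB0q1 gB1q1 true false)) t 1 301 1 = true :=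
  ex3_b B012E_200_1_602_1 B012E_200_1_603_1
theorem B012E_200_3_2406_1 :
    ∃ t, chk3 (onCell 0 16777216 0 1073741824 1040187392 5207648 (corT true 1 c0B cB012E gB2q0 gB0q2 gB0q1 gB1q1 true false)) t 3 2406 1 = true :=
  ex3_b B012E_200_3_4812_1 B012E_200_3_4813_1
theorem B012E_200_1_2406_1 :
    ∃ t, chk3 (onCell 0 16777216 0 1073741824 1040187392 5207648 (corT true 1 c0B cB012E gB2q0 gB0q2 gB0q1 gB1q1 true false)) t 1 2406 1 = true :=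
  ex3_a B012E_200_2_2406_1 B012E_200_3_2406_1
theorem B012E_200_1_1203_1 :
    ∃ t, chk3 (onCell 0 16777216 0 1073741824 1040187392 5207648 (corT true 1 c0B cB012E gB2q0 gB0q2 gB0q1 gB1q1 true false)) t 1 1203 1 = true :=
  ex3_b B012E_200_1_2406_1 B012E_200_1_2407_1
theorem B012E_200_1_601_1 :
    ∃ t, chk3 (onCell 0 16777216 0 1073741824 1040187392 5207648 (corT true 1 c0B cB012E gB2q0 gB0q2 gB0q1 gB1q1 true false)) t 1 601 1 = true :=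
  ex3_b B012E_200_1_1202_1 B012E_200_1_1203_1
theorem B012E_200_1_300_1 :
    ∃ t, chk3 (onCell 0 16777216 0 1073741824 1040187392 5207648 (corT true 1 c0B cB012E gB2q0 gB0q2 gB0q1 gB1q1 true false)) t 1 300 1 = true :=
  ex3_b B012E_200_1_600_1 B012E_200_1_601_1
theorem B012E_200_1_150_1 :
    ∃ t, chk3 (onCell 0 16777216 0 1073741824 1040187392 5207648 (corT true 1 c0B cB012E gB2q0 gB0q2 gB0q1 gB1q1 true false)) t 1 150 1 = true :=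
  ex3_b B012E_200_1_300_1 B012E_200_1_301_1
theorem B012E_200_1_75_1 :
    ∃ t, chk3 (onCell 0 16777216 0 1073741824 1040187392 5207648 (corT true 1 c0B cB012E gB2q0 gB0q2 gB0q1 gB1q1 true false)) t 1 75 1 = true :=
  ex3_b B012E_200_1_150_1 B012E_200_1_151_1
theorem B012E_200_1_37_1 :
    ∃ t, chk3 (onCell 0 16777216 0 1073741824 1040187392 5207648 (corT true 1 c0B cB012E gB2q0 gB0q2 gB0q1 gB1q1 true false)) t 1 37 1 = true :=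
  ex3_b B012E_200_1_74_1 B012E_200_1_75_1
theorem B012E_200_1_18_1 :
    ∃ t, chk3 (onCell 0 16777216 0 1073741824 1040187392 5207648 (corT true 1 c0B cB012E gB2q0 gB0q2 gB0q1 gB1q1 true false)) t 1 18 1 = true :=
  ex3_b B012E_200_1_36_1 B012E_200_1_37_1
theorem B012E_200_1_9_1 :
    ∃ t, chk3 (onCell 0 16777216 0 1073741824 1040187392 5207648 (corT true 1 c0B cB012E gB2q0 gB0q2 gB0q1 gB1q1 true false)) t 1 9 1 = true :=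
  ex3_b B012E_200_1_18_1 B012E_200_1_19_1
theorem B012E_200_1_4_1 :
    ∃ t, chk3 (onCell 0 16777216 0 1073741824 1040187392 5207648 (corT true 1 c0B cB012E gB2q0 gB0q2 gB0q1 gB1q1 true false)) t 1 4 1 = true :=
  ex3_b B012E_200_1_8_1 B012E_200_1_9_1
theorem B012E_200_1_2_1 :
    ∃ t, chk3 (onCell 0 16777216 0 1073741824 1040187392 5207648 (corT true 1 c0B cB012E gB2q0 gB0q2 gB0q1 gB1q1 true false)) t 1 2 1 = true :=
  ex3_b B012E_200_1_4_1 B012E_200_1_5_1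
theorem B012E_200 :
    ∃ t, chk3 (onCell 0 16777216 0 1073741824 1040187392 5207648 (corT true 1 c0B cB012E gB2q0 gB0q2 gB0q1 gB1q1 true false)) t 1 1 1 = true :=
  ex3_b B012E_200_1_2_1 B012E_200_1_3_1

end Pool.Agent.Strip051.G.I9688_9736.Tab.CG
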