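import Pool.Agent.Strip051.G.I9688_9736.Gn
import Pool.Agent.Strip051.PB.Corns
import Pool.Agent.Strip051.PB.CornW

/-! # Certificates of the aligned corners (generated) -/

set_option linter.all false

namespace Pool.Agent.Strip051.G.I9688_9736.Tab.CW

open Pool.Agent.Strip051.PB

def A202E_222 :
    ∃ t, chk3 (onCell 0 26843545 0 1073741824 1040187392 5207648 (corW 3 c0B eng mog cA202E gB2q2 gB2q0 gB2q2 gB3q2 dB2q2 dB2q0 dB2q2 dB3q2 true false)) t 1 1 1 = true :=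
  ⟨(T.b (T.b (T.a (T.a (T.a (T.l 204) (T.b (T.l 0) (T.l 0))) (T.b (T.l 0) (T.l 0))) (T.b (T.l 0) (T.l 0))) (T.a (T.a (T.l 204) (T.b (T.l 0) (T.l 0))) (T.a (T.b (T.l 0) (T.l 0)) (T.l 0)))) (T.b (T.b (T.a (T.a (T.l 204) (T.l 0)) (T.b (T.l 0) (T.l 0))) (T.a (T.l 0) (T.b (T.l 0) (T.l 0)))) (T.a (T.l 0) (T.b (T.b (T.l 0) (T.l 0)) (T.l 0))))), by decide +kernel⟩

def A202R_004 :
    ∃ t, chk3 (onCell 0 22369621 0 1073741824 1040187392 5207648 (corW 3 c0B eng mog cA202R gB0q2 gB0q0 gB4q2 gB5q2 dB0q2 dB0q0 dB4q2 dB5q2 false true)) t 1 1 1 = true :=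
  ⟨(T.b (T.b (T.l 2) (T.b (T.b (T.l 2) (T.b (T.b (T.l 2) (T.b (T.b (T.a (T.l 2) (T.b (T.l 2) (T.b (T.a (T.l 2) (T.l 0)) (T.l 0)))) (T.a (T.a (T.l 0) (T.l 0)) (T.l 0))) (T.l 0))) (T.a (T.l 816) (T.l 816)))) (T.a (T.l 816) (T.a (T.b (T.l 816) (T.l 816)) (T.b (T.a (T.b (T.l 816) (T.l 816)) (T.b (T.l 816) (T.l 816))) (T.a (T.l 816) (T.l 816))))))) (T.b (T.b (T.a (T.l 816) (T.a (T.a (T.b (T.l 816) (T.l 816)) (T.b (T.l 816) (T.l 816))) (T.b (T.b (T.l 816) (T.l 816)) (T.b (T.l 816) (T.l 816))))) (T.a (T.a (T.l 816) (T.b (T.l 816) (T.l 816))) (T.a (T.a (T.b (T.l 816) (T.l 816)) (T.b (T.l 816) (T.l 816))) (T.a (T.b (T.l 816) (T.l 816)) (T.l 816))))) (T.b (T.a (T.a (T.l 816) (T.a (T.l 816) (T.b (T.l 816) (T.l 816)))) (T.a (T.a (T.b (T.l 816) (T.l 816)) (T.l 816)) (T.b (T.l 816) (T.l 816)))) (T.a (T.a (T.l 816) (T.a (T.l 816) (T.b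 (T.l 816) (T.l 816)))) (T.a (T.a (T.l 816) (T.l 816)) (T.b (T.l 816) (T.l 816))))))), by decide +kernel⟩

def A202R_014 :
    ∃ t, chk3 (onCell 0 26843545 0 1073741824 1040187392 5207648 (corW 3 c0B eng mog cA202R gB0q2 gB1q0 gB4q2 gB5q2 dB0q2 dB1q0 dB4q2 dB5q2 false true)) t 1 1 1 = true :=
  ⟨(T.b (T.b (T.l 2) (T.b (T.l 2) (T.b (T.l 2) (T.b (T.b (T.l 2) (T.a (T.a (T.l 204) (T.l 0)) (T.a (T.l 0) (T.l 0)))) (T.a (T.a (T.l 204) (T.l 0)) (T.a (T.l 0) (T.l 0))))))) (T.b (T.b (T.b (T.b (T.a (T.a (T.l 0) (T.l 0)) (T.a (T.l 0) (T.l 0))) (T.a (T.a (T.l 816) (T.l 0)) (T.a (T.l 0) (T.l 0)))) (T.a (T.a (T.l 816) (T.b (T.l 0) (T.l 0))) (T.a (T.l 0) (T.l 0)))) (T.b (T.a (T.a (T.l 816) (T.a (T.l 816) (T.l 816))) (T.a (T.l 0) (T.l 0))) (T.a (T.a (T.l 816) (T.a (T.l 816) (T.l 816))) (T.a (T.l 0) (T.l 0))))) (T.b (T.b (T.a (T.a (T.l 816)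 (T.a (T.l 816) (T.l 816))) (T.a (T.l 0) (T.l 0))) (T.a (T.a (T.l 816) (T.a (T.l 816) (T.l 816))) (T.a (T.l 816) (T.l 816)))) (T.a (T.a (T.l 816) (T.a (T.a (T.l 816) (T.l 816)) (T.b (T.l 816) (T.l 816)))) (T.a (T.a (T.l 816) (T.l 816)) (T.b (T.l 816) (T.l 816))))))), by decide +kernel⟩

def A202R_024 :
    ∃ t, chk3 (onCell 0 26843545 0 1073741824 1040187392 5207648 (corW 3 c0B eng mog cA202R gB0q2 gB2q0 gB4q2 gB5q2 dB0q2 dB2q0 dB4q2 dB5q2 false true)) t 1 1 1 = true :=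
  ⟨(T.b (T.l 2) (T.b (T.b (T.b (T.l 2) (T.b (T.a (T.a (T.l 816) (T.l 0)) (T.l 0)) (T.a (T.a (T.l 816) (T.l 0)) (T.l 0)))) (T.b (T.a (T.a (T.l 816) (T.l 0)) (T.b (T.l 0) (T.l 0))) (T.a (T.a (T.l 816) (T.l 0)) (T.a (T.l 0) (T.l 0))))) (T.b (T.b (T.a (T.a (T.l 816) (T.b (T.l 0) (T.l 0))) (T.a (T.l 0) (T.l 0))) (T.a (T.a (T.l 816) (T.a (T.l 816) (T.l 816))) (T.a (T.l 816) (T.l 816)))) (T.a (T.a (T.l 816) (T.a (T.a (T.l 816) (T.l 816)) (T.b (T.l 816) (T.l 816)))) (T.a (T.a (T.l 816) (T.l 816)) (T.b (T.l 816) (T.l 816))))))), by decide +kernel⟩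

def A202R_114 :
    ∃ t, chk3 (onCell 0 26843545 0 1073741824 1040187392 5207648 (corW 3 c0B eng mog cA202R gB1q2 gB1q0 gB4q2 gB5q2 dB1q2 dB1q0 dB4q2 dB5q2 false true)) t 1 1 1 = true :=
  ⟨(T.b (T.l 2) (T.b (T.b (T.b (T.l 2) (T.a (T.a (T.l 816) (T.l 0)) (T.l 0))) (T.a (T.l 816) (T.a (T.l 0) (T.l 0)))) (T.a (T.l 816) (T.b (T.a (T.l 816) (T.l 0)) (T.a (T.l 816) (T.l 816)))))), by decide +kernel⟩

def A202R_124 :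
    ∃ t, chk3 (onCell 0 26843545 0 1073741824 1040187392 5207648 (corW 3 c0B eng mog cA202R gB1q2 gB2q0 gB4q2 gB5q2 dB1q2 dB2q0 dB4q2 dB5q2 false true)) t 1 1 1 = true :=
  ⟨(T.b (T.l 2) (T.b (T.b (T.l 2) (T.b (T.l 2) (T.a (T.l 816) (T.l 0)))) (T.a (T.l 816) (T.b (T.a (T.l 816) (T.l 0)) (T.a (T.l 816) (T.l 816)))))), by decide +kernel⟩

def A202R_224 :
    ∃ t, chk3 (onCell 0 26843545 0 1073741824 1040187392 5207648 (corW 3 c0B eng mog cA202R gB2q2 gB2q0 gB4q2 gB5q2 dB2q2 dB2q0 dB4q2 dB5q2 false true)) t 1 1 1 = true :=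
  ⟨(T.b (T.l 2) (T.b (T.l 2) (T.b (T.l 2) (T.a (T.l 816) (T.l 816))))), by decide +kernel⟩

def B011E_000 :
    ∃ t, chk3 (onCell 0 26843545 0 1073741824 1040187392 5207648 (corW 3 c0B eng mog cB011E gB0q0 gB0q1 gB0q1 gB1q1 dB0q0 dB0q1 dB0q1 dB1q1 true false)) t 1 1 1 = true :=
  ⟨(T.l 1), by decide +kernel⟩

def B011E_100 :
    ∃ t, chk3 (onCell 0 26843545 0 1073741824 1040187392 5207648 (corW 3 c0B eng mog cB011E gB1q0 gB0q1 gB0q1 gB1q1 dB1q0 dB0q1 dB0q1 dB1q1 true false)) t 1 1 1 = true :=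
  ⟨(T.l 1), by decide +kernel⟩

def B011E_200 :
    ∃ t, chk3 (onCell 0 26843545 0 1073741824 1040187392 5207648 (corW 3 c0B eng mog cB011E gB2q0 gB0q1 gB0q1 gB1q1 dB2q0 dB0q1 dB0q1 dB1q1 true false)) t 1 1 1 = true :=
  ⟨(T.l 1), by decide +kernel⟩

def B011L_030 :
    ∃ t, chk3 (onCell 0 26843545 0 1073741824 1040187392 5207648 (corW 3 c0B eng mog cB011L gB0q0 gB3q1 gB0q1 gB1q1 dB0q0 dB3q1 dB0q1 dB1q1 true false)) t 1 1 1 = true :=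
  ⟨(T.l 1), by decide +kernel⟩

def B011L_040 :
    ∃ t, chk3 (onCell 0 26843545 0 1073741824 1040187392 5207648 (corW 3 c0B eng mog cB011L gB0q0 gB4q1 gB0q1 gB1q1 dB0q0 dB4q1 dB0q1 dB1q1 true false)) t 1 1 1 = true :=
  ⟨(T.l 1), by decide +kernel⟩

def B011L_050 :
    ∃ t, chk3 (onCell 0 26843545 0 1073741824 1040187392 5207648 (corW 3 c0B eng mog cB011L gB0q0 gB5q1 gB0q1 gB1q1 dB0q0 dB5q1 dB0q1 dB1q1 true false)) t 1 1 1 = true :=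
  ⟨(T.l 1), by decide +kernel⟩

def B011L_130 :
    ∃ t, chk3 (onCell 0 26843545 0 1073741824 1040187392 5207648 (corW 3 c0B eng mog cB011L gB1q0 gB3q1 gB0q1 gB1q1 dB1q0 dB3q1 dB0q1 dB1q1 true false)) t 1 1 1 = true :=
  ⟨(T.l 1), by decide +kernel⟩

def B011L_140 :
    ∃ t, chk3 (onCell 0 26843545 0 1073741824 1040187392 5207648 (corW 3 c0B eng mog cB011L gB1q0 gB4q1 gB0q1 gB1q1 dB1q0 dB4q1 dB0q1 dB1q1 true false)) t 1 1 1 = true :=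
  ⟨(T.l 1), by decide +kernel⟩

def B011L_150 :
    ∃ t, chk3 (onCell 0 26843545 0 1073741824 1040187392 5207648 (corW 3 c0B eng mog cB011L gB1q0 gB5q1 gB0q1 gB1q1 dB1q0 dB5q1 dB0q1 dB1q1 true false)) t 1 1 1 = true :=
  ⟨(T.l 1), by decide +kernel⟩

def B011L_230 :
    ∃ t, chk3 (onCell 0 26843545 0 1073741824 1040187392 5207648 (corW 3 c0B eng mog cB011L gB2q0 gB3q1 gB0q1 gB1q1 dB2q0 dB3q1 dB0q1 dB1q1 true false)) t 1 1 1 = true :=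
  ⟨(T.l 1), by decide +kernel⟩

def B011L_240 :
    ∃ t, chk3 (onCell 0 26843545 0 1073741824 1040187392 5207648 (corW 3 c0B eng mog cB011L gB2q0 gB4q1 gB0q1 gB1q1 dB2q0 dB4q1 dB0q1 dB1q1 true false)) t 1 1 1 = true :=
  ⟨(T.l 1), by decide +kernel⟩

def B011L_250 :
    ∃ t, chk3 (onCell 0 26843545 0 1073741824 1040187392 5207648 (corW 3 c0B eng mog cB011L gB2q0 gB5q1 gB0q1 gB1q1 dB2q0 dB5q1 dB0q1 dB1q1 true false)) t 1 1 1 = true :=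
  ⟨(T.l 1), by decide +kernel⟩

def B011R_002 :
    ∃ t, chk3 (onCell 0 22369621 0 1073741824 1040187392 5207648 (corW 3 c0B eng mog cB011R gB0q0 gB0q1 gB2q1 gB3q1 dB0q0 dB0q1 dB2q1 dB3q1 false true)) t 1 1 1 = true :=
  ⟨(T.b (T.b (T.b (T.b (T.b (T.a (T.l 816) (T.l 816)) (T.l 2)) (T.l 2)) (T.l 2)) (T.l 2)) (T.l 2)), by decide +kernel⟩

def B011R_003 :
    ∃ t, chk3 (onCell 0 22369621 0 1073741824 1040187392 5207648 (corW 3 c0B eng mog cB011R gB0q0 gB0q1 gB3q1 gB4q1 dB0q0 dB0q1 dB3q1 dB4q1 true true)) t 1 1 1 = true :=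
  ⟨(T.b (T.b (T.a (T.l 0) (T.a (T.l 0) (T.b (T.l 816) (T.l 0)))) (T.l 2)) (T.l 2)), by decide +kernel⟩

def B011R_004 :
    ∃ t, chk3 (onCell 0 22369621 0 1073741824 1040187392 5207648 (corW 3 c0B eng mog cB011R gB0q0 gB0q1 gB4q1 gB5q1 dB0q0 dB0q1 dB4q1 dB5q1 true true)) t 1 1 1 = true :=
  ⟨(T.b (T.b (T.b (T.l 1) (T.b (T.l 1) (T.a (T.l 0) (T.a (T.l 0) (T.l 0))))) (T.b (T.b (T.a (T.l 0) (T.a (T.l 0) (T.b (T.l 0) (T.l 0)))) (T.b (T.a (T.b (T.l 0) (T.b (T.b (T.l 0) (T.b (T.l 0) (T.a (T.l 2) (T.b (T.l 0) (T.l 2))))) (T.l 2))) (T.b (T.a (T.l 0) (T.l 0)) (T.b (T.a (T.b (T.l 0) (T.a (T.c (T.l 0) (T.a (T.l 0) (T.l 0))) (T.l 0))) (T.l 0)) (T.l 2)))) (T.l 2))) (T.l 2))) (T.l 2)), by decide +kernel⟩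

def B011R_102 :
    ∃ t, chk3 (onCell 0 26843545 0 1073741824 1040187392 5207648 (corW 3 c0B eng mog cB011R gB1q0 gB0q1 gB2q1 gB3q1 dB1q0 dB0q1 dB2q1 dB3q1 false true)) t 1 1 1 = true :=
  ⟨(T.l 2), by decide +kernel⟩

def B011R_103 :
    ∃ t, chk3 (onCell 0 26843545 0 1073741824 1040187392 5207648 (corW 3 c0B eng mog cB011R gB1q0 gB0q1 gB3q1 gB4q1 dB1q0 dB0q1 dB3q1 dB4q1 true true)) t 1 1 1 = true :=
  ⟨(T.b (T.b (T.l 2) (T.l 2)) (T.l 2)), by decide +kernel⟩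

def B011R_104 :
    ∃ t, chk3 (onCell 0 26843545 0 1073741824 1040187392 5207648 (corW 3 c0B eng mog cB011R gB1q0 gB0q1 gB4q1 gB5q1 dB1q0 dB0q1 dB4q1 dB5q1 true true)) t 1 1 1 = true :=
  ⟨(T.b (T.b (T.b (T.a (T.a (T.a (T.l 816) (T.l 0)) (T.l 0)) (T.b (T.l 0) (T.l 0))) (T.l 2)) (T.l 2)) (T.l 2)), by decide +kernel⟩

def B011R_202 :
    ∃ t, chk3 (onCell 0 26843545 0 1073741824 1040187392 5207648 (corW 3 c0B eng mog cB011R gB2q0 gB0q1 gB2q1 gB3q1 dB2q0 dB0q1 dB2q1 dB3q1 false true)) t 1 1 1 = true :=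
  ⟨(T.l 2), by decide +kernel⟩

def B011R_203 :
    ∃ t, chk3 (onCell 0 26843545 0 1073741824 1040187392 5207648 (corW 3 c0B eng mog cB011R gB2q0 gB0q1 gB3q1 gB4q1 dB2q0 dB0q1 dB3q1 dB4q1 true true)) t 1 1 1 = true :=
  ⟨(T.l 2), by decide +kernel⟩

def B011R_204 :
    ∃ t, chk3 (onCell 0 26843545 0 1073741824 1040187392 5207648 (corW 3 c0B eng mog cB011R gB2q0 gB0q1 gB4q1 gB5q1 dB2q0 dB0q1 dB4q1 dB5q1 true true)) t 1 1 1 = true :=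
  ⟨(T.l 2), by decide +kernel⟩

def B012E_000 :
    ∃ t, chk3 (onCell 0 16777216 0 1073741824 1040187392 5207648 (corW 3 c0B eng mog cB012E gB0q0 gB0q2 gB0q1 gB1q1 dB0q0 dB0q2 dB0q1 dB1q1 true false)) t 1 1 1 = true :=
  ⟨(T.b (T.b (T.l 1) (T.b (T.l 1) (T.b (T.l 1) (T.b (T.l 1) (T.b (T.l 1) (T.b (T.l 1) (T.a (T.b (T.l 1) (T.l 0)) (T.a (T.l 0) (T.l 0))))))))) (T.b (T.a (T.b (T.b (T.l 0) (T.l 816)) (T.l 816)) (T.b (T.a (T.l 0) (T.b (T.a (T.l 816) (T.b (T.l 0) (T.l 816))) (T.a (T.l 816) (T.l 816)))) (T.a (T.a (T.l 816) (T.b (T.l 816) (T.l 816))) (T.a (T.b (T.l 816) (T.l 816)) (T.b (T.l 816) (T.l 816)))))) (T.a (T.a (T.l 816) (T.a (T.l 816) (T.b (T.l 816) (T.l 816)))) (T.a (T.b (T.a (T.b (T.l 816) (T.l 816)) (T.b (T.l 816) (T.l 816))) (T.a (T.l 816) (T.l 816))) (T.b (T.a (T.l 816) (T.l 816)) (T.b (T.l 816) (T.l 816))))))),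 by decide +kernel⟩

def B012E_010 :
    ∃ t, chk3 (onCell 0 26843545 0 1073741824 1040187392 5207648 (corW 3 c0B eng mog cB012E gB0q0 gB1q2 gB0q1 gB1q1 dB0q0 dB1q2 dB0q1 dB1q1 true false)) t 1 1 1 = true :=
  ⟨(T.b (T.l 1) (T.b (T.b (T.b (T.b (T.l 1) (T.a (T.l 1) (T.b (T.l 1) (T.a (T.l 1) (T.a (T.l 1) (T.l 816)))))) (T.a (T.l 816) (T.a (T.a (T.l 816) (T.b (T.l 816) (T.l 816))) (T.a (T.b (T.l 816) (T.l 816)) (T.b (T.l 816) (T.l 816)))))) (T.a (T.l 816) (T.a (T.a (T.l 816) (T.b (T.l 816) (T.l 816))) (T.b (T.a (T.l 816) (T.l 816)) (T.b (T.l 816) (T.l 816)))))) (T.a (T.l 816) (T.b (T.a (T.l 816) (T.b (T.l 816) (T.l 816))) (T.a (T.a (T.l 816) (T.l 816)) (T.l 816)))))), by decide +kernel⟩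

def B012E_020 :
    ∃ t, chk3 (onCell 0 26843545 0 1073741824 1040187392 5207648 (corW 3 c0B eng mog cB012E gB0q0 gB2q2 gB0q1 gB1q1 dB0q0 dB2q2 dB0q1 dB1q1 true false)) t 1 1 1 = true :=
  ⟨(T.b (T.l 1) (T.b (T.b (T.l 1) (T.b (T.l 1) (T.b (T.l 1) (T.a (T.l 816) (T.a (T.l 816) (T.l 816)))))) (T.a (T.l 816) (T.b (T.a (T.l 816) (T.b (T.l 816) (T.l 816))) (T.a (T.l 816) (T.l 816)))))), by decide +kernel⟩

def B012E_100_1_4_1 :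
    ∃ t, chk3 (onCell 0 26843545 0 1073741824 1040187392 5207648 (corW 3 c0B eng mog cB012E gB1q0 gB0q2 gB0q1 gB1q1 dB1q0 dB0q2 dB0q1 dB1q1 true false)) t 1 4 1 = true :=
  ⟨(T.l 1), by decide +kernel⟩

def B012E_100_1_10_1 :
    ∃ t, chk3 (onCell 0 26843545 0 1073741824 1040187392 5207648 (corW 3 c0B eng mog cB012E gB1q0 gB0q2 gB0q1 gB1q1 dB1q0 dB0q2 dB0q1 dB1q1 true false)) t 1 10 1 = true :=
  ⟨(T.b (T.l 1) (T.b (T.l 1) (T.b (T.l 1) (T.b (T.l 1) (T.b (T.a (T.l 1) (T.a (T.l 1) (T.b (T.l 1) (T.b (T.l 1) (T.a (T.a (T.l 816) (T.l 816)) (T.l 816)))))) (T.a (T.b (T.a (T.l 1) (T.a (T.l 1) (T.a (T.l 816) (T.l 816)))) (T.a (T.a (T.l 816) (T.a (T.l 816) (T.a (T.l 816) (T.l 816)))) (T.a (T.a (T.l 816) (T.l 816)) (T.a (T.l 816) (T.l 816))))) (T.b (T.a (T.a (T.a (T.l 816) (T.l 816)) (T.a (T.l 816) (T.l 816))) (T.a (T.l 952) (T.l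 816))) (T.a (T.a (T.a (T.l 816) (T.l 816)) (T.l 816)) (T.a (T.l 816) (T.l 816)))))))))), by decide +kernel⟩

def B012E_100_1_44_1 :
    ∃ t, chk3 (onCell 0 26843545 0 1073741824 1040187392 5207648 (corW 3 c0B eng mog cB012E gB1q0 gB0q2 gB0q1 gB1q1 dB1q0 dB0q2 dB0q1 dB1q1 true false)) t 1 44 1 = true :=
  ⟨(T.b (T.b (T.b (T.a (T.b (T.a (T.a (T.l 816) (T.a (T.l 816) (T.a (T.l 816) (T.l 816)))) (T.a (T.a (T.l 816) (T.l 816)) (T.l 944))) (T.a (T.a (T.l 816) (T.a (T.l 816) (T.c (T.l 816) (T.l 816)))) (T.a (T.a (T.l 816) (T.l 816)) (T.l 816)))) (T.a (T.a (T.a (T.l 816) (T.l 816)) (T.l 816)) (T.a (T.l 816) (T.l 816)))) (T.a (T.b (T.a (T.a (T.l 816) (T.a (T.l 816) (T.l 816))) (T.a (T.a (T.l 816) (T.l 816)) (T.l 816))) (T.a (T.a (T.l 816) (T.a (T.l 816) (T.l 816))) (T.a (T.a (T.l 816) (T.l 816)) (T.l 816)))) (T.a (T.a (T.l 816)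 (T.l 816)) (T.a (T.l 816) (T.l 816))))) (T.b (T.a (T.b (T.a (T.a (T.l 816) (T.a (T.l 816) (T.l 816))) (T.a (T.a (T.l 816) (T.l 816)) (T.l 816))) (T.a (T.a (T.l 816) (T.a (T.l 816) (T.l 816))) (T.a (T.l 944) (T.l 816)))) (T.a (T.a (T.l 816) (T.l 816)) (T.a (T.l 816) (T.l 816)))) (T.a (T.b (T.a (T.a (T.l 816) (T.a (T.l 816) (T.l 816))) (T.a (T.l 816) (T.l 816))) (T.a (T.a (T.l 816) (T.a (T.l 816) (T.l 816))) (T.a (T.l 816) (T.l 816)))) (T.a (T.a (T.l 816) (T.l 816)) (T.a (T.l 816) (T.l 816)))))) (T.b (T.b (T.a (T.a (T.a (T.l 816) (T.a (T.l 816) (T.l 816))) (T.a (T.l 816) (T.l 816))) (T.a (T.a (T.l 816) (T.l 816)) (T.l 0))) (T.a (T.a (T.a (T.l 816) (T.a (T.l 816) (T.l 816))) (T.a (T.l 816) (T.l 816))) (T.a (T.a (T.l 816) (T.l 816)) (T.l 0)))) (T.b (T.a (T.a (T.a (T.l 816) (T.a (T.l 816) (T.l 816))) (T.a (T.l 816) (T.l 816)))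 (T.a (T.a (T.l 816) (T.l 816)) (T.l 0))) (T.a (T.a (T.a (T.l 816) (T.a (T.l 816) (T.l 816))) (T.a (T.l 816) (T.l 816))) (T.a (T.a (T.l 816) (T.l 816)) (T.l 0)))))), by decide +kernel⟩

def B012E_100_1_45_1 :
    ∃ t, chk3 (onCell 0 26843545 0 1073741824 1040187392 5207648 (corW 3 c0B eng mog cB012E gB1q0 gB0q2 gB0q1 gB1q1 dB1q0 dB0q2 dB0q1 dB1q1 true false)) t 1 45 1 = true :=
  ⟨(T.b (T.b (T.b (T.a (T.a (T.a (T.l 816) (T.a (T.l 816) (T.l 816))) (T.a (T.l 816) (T.l 816))) (T.a (T.l 0) (T.l 0))) (T.a (T.a (T.a (T.l 816) (T.a (T.l 816) (T.l 816))) (T.a (T.l 816) (T.l 816))) (T.a (T.l 0) (T.l 0)))) (T.b (T.a (T.a (T.a (T.l 816) (T.a (T.l 816) (T.l 816))) (T.a (T.l 816) (T.l 816))) (T.a (T.l 0) (T.l 0))) (T.a (T.a (T.a (T.l 816) (T.a (T.l 816) (T.l 816))) (T.a (T.l 816) (T.l 816))) (T.a (T.a (T.l 816) (T.l 816)) (T.l 0)))))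 (T.b (T.b (T.a (T.a (T.a (T.l 816) (T.a (T.l 816) (T.l 816))) (T.a (T.l 816) (T.l 816))) (T.a (T.a (T.l 816) (T.l 816)) (T.l 0))) (T.a (T.a (T.a (T.l 816) (T.a (T.l 816) (T.l 816))) (T.a (T.l 816) (T.l 816))) (T.a (T.a (T.l 816) (T.l 816)) (T.l 0)))) (T.b (T.a (T.a (T.a (T.l 816) (T.a (T.l 816) (T.l 816))) (T.a (T.l 816) (T.l 816))) (T.a (T.l 128) (T.l 0))) (T.a (T.a (T.a (T.l 816) (T.l 0)) (T.a (T.l 816) (T.l 816))) (T.a (T.l 0) (T.l 0)))))), by decide +kernel⟩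

def B012E_100_1_23_1 :
    ∃ t, chk3 (onCell 0 26843545 0 1073741824 1040187392 5207648 (corW 3 c0B eng mog cB012E gB1q0 gB0q2 gB0q1 gB1q1 dB1q0 dB0q2 dB0q1 dB1q1 true false)) t 1 23 1 = true :=
  ⟨(T.b (T.b (T.a (T.a (T.a (T.l 816) (T.l 0)) (T.a (T.l 816) (T.l 816))) (T.a (T.b (T.l 0) (T.l 0)) (T.l 0))) (T.a (T.a (T.a (T.l 816) (T.l 0)) (T.l 0)) (T.a (T.l 0) (T.l 0)))) (T.a (T.a (T.a (T.l 816) (T.l 816)) (T.l 0)) (T.a (T.l 0) (T.l 0)))), by decide +kernel⟩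

def B012E_100_1_3_1 :
    ∃ t, chk3 (onCell 0 26843545 0 1073741824 1040187392 5207648 (corW 3 c0B eng mog cB012E gB1q0 gB0q2 gB0q1 gB1q1 dB1q0 dB0q2 dB0q1 dB1q1 true false)) t 1 3 1 = true :=
  ⟨(T.b (T.b (T.b (T.a (T.a (T.a (T.l 816) (T.l 816)) (T.l 816)) (T.a (T.b (T.l 0) (T.l 0)) (T.l 0))) (T.a (T.a (T.a (T.l 816) (T.l 816)) (T.b (T.l 816) (T.l 816))) (T.a (T.l 0) (T.l 0)))) (T.a (T.a (T.a (T.l 816) (T.l 816)) (T.a (T.l 816) (T.l 816))) (T.a (T.b (T.l 0) (T.l 0)) (T.b (T.l 0) (T.l 816))))) (T.b (T.a (T.a (T.a (T.l 816) (T.l 816)) (T.a (T.l 0) (T.l 816))) (T.a (T.l 0) (T.l 816))) (T.a (T.a (T.a (T.l 816) (T.l 816)) (T.a (T.l 816) (T.l 816))) (T.a (T.l 0) (T.l 816))))), by decide +kernel⟩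

theorem B012E_100_1_22_1 :
    ∃ t, chk3 (onCell 0 26843545 0 1073741824 1040187392 5207648 (corW 3 c0B eng mog cB012E gB1q0 gB0q2 gB0q1 gB1q1 dB1q0 dB0q2 dB0q1 dB1q1 true false)) t 1 22 1 = true :=
  ex3_b B012E_100_1_44_1 B012E_100_1_45_1
theorem B012E_100_1_11_1 :
    ∃ t, chk3 (onCell 0 26843545 0 1073741824 1040187392 5207648 (corW 3 c0B eng mog cB012E gB1q0 gB0q2 gB0q1 gB1q1 dB1q0 dB0q2 dB0q1 dB1q1 true false)) t 1 11 1 = true :=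
  ex3_b B012E_100_1_22_1 B012E_100_1_23_1
theorem B012E_100_1_5_1 :
    ∃ t, chk3 (onCell 0 26843545 0 1073741824 1040187392 5207648 (corW 3 c0B eng mog cB012E gB1q0 gB0q2 gB0q1 gB1q1 dB1q0 dB0q2 dB0q1 dB1q1 true false)) t 1 5 1 = true :=
  ex3_b B012E_100_1_10_1 B012E_100_1_11_1
theorem B012E_100_1_2_1 :
    ∃ t, chk3 (onCell 0 26843545 0 1073741824 1040187392 5207648 (corW 3 c0B eng mog cB012E gB1q0 gB0q2 gB0q1 gB1q1 dB1q0 dB0q2 dB0q1 dB1q1 true false)) t 1 2 1 = true :=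
  ex3_b B012E_100_1_4_1 B012E_100_1_5_1
theorem B012E_100 :
    ∃ t, chk3 (onCell 0 26843545 0 1073741824 1040187392 5207648 (corW 3 c0B eng mog cB012E gB1q0 gB0q2 gB0q1 gB1q1 dB1q0 dB0q2 dB0q1 dB1q1 true false)) t 1 1 1 = true :=
  ex3_b B012E_100_1_2_1 B012E_100_1_3_1

def B012E_110_1_2_1 :
    ∃ t, chk3 (onCell 0 26843545 0 1073741824 1040187392 5207648 (corW 3 c0B eng mog cB012E gB1q0 gB1q2 gB0q1 gB1q1 dB1q0 dB1q2 dB0q1 dB1q1 true false)) t 1 2 1 = true :=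
  ⟨(T.b (T.l 1) (T.b (T.l 1) (T.b (T.b (T.l 1) (T.b (T.l 1) (T.b (T.b (T.a (T.l 1) (T.a (T.l 816) (T.l 816))) (T.a (T.b (T.a (T.a (T.l 1) (T.a (T.l 1) (T.l 816))) (T.a (T.l 816) (T.l 816))) (T.a (T.a (T.l 816) (T.a (T.l 816) (T.l 816))) (T.a (T.l 816) (T.l 816)))) (T.a (T.l 816) (T.l 816)))) (T.b (T.a (T.b (T.a (T.a (T.l 816) (T.a (T.l 816) (T.l 816))) (T.a (T.l 816) (T.l 816))) (T.a (T.a (T.l 816) (T.a (T.l 816) (T.l 816))) (T.a (T.l 816) (T.l 816)))) (T.a (T.l 816) (T.l 816))) (T.a (T.a (T.a (T.l 816) (T.a (T.l 816) (T.l 816))) (T.a (T.l 816) (T.l 816))) (T.a (T.l 816) (T.l 816))))))) (T.b (T.b (T.b (T.b (T.a (T.a (T.a (T.l 816) (T.l 944)) (T.a (T.l 816) (T.l 816))) (T.a (T.l 816) (T.l 816))) (T.a (T.a (T.a (T.l 816) (T.l 816)) (T.a (T.l 816) (T.l 816))) (T.a (T.l 816) (T.l 816)))) (T.b (T.a (T.a (T.a (T.l 816) (T.l 816))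 (T.a (T.l 816) (T.l 816))) (T.a (T.l 816) (T.l 816))) (T.a (T.a (T.a (T.l 816) (T.l 816)) (T.l 816)) (T.a (T.l 816) (T.l 816))))) (T.b (T.a (T.a (T.a (T.l 816) (T.l 816)) (T.l 816)) (T.a (T.l 816) (T.l 816))) (T.a (T.a (T.a (T.l 816) (T.l 816)) (T.l 816)) (T.a (T.l 816) (T.l 816))))) (T.a (T.a (T.a (T.l 816) (T.l 816)) (T.l 816)) (T.a (T.l 816) (T.l 816))))))), by decide +kernel⟩

def B012E_110_1_3_1 :
    ∃ t, chk3 (onCell 0 26843545 0 1073741824 1040187392 5207648 (corW 3 c0B eng mog cB012E gB1q0 gB1q2 gB0q1 gB1q1 dB1q0 dB1q2 dB0q1 dB1q1 true false)) t 1 3 1 = true :=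
  ⟨(T.b (T.b (T.b (T.a (T.a (T.a (T.l 816) (T.l 816)) (T.l 816)) (T.a (T.l 816) (T.l 816))) (T.a (T.a (T.a (T.l 816) (T.l 816)) (T.l 816)) (T.a (T.l 816) (T.l 816)))) (T.a (T.a (T.a (T.l 816) (T.l 816)) (T.l 816)) (T.a (T.l 816) (T.b (T.l 816) (T.l 816))))) (T.b (T.a (T.a (T.a (T.l 816) (T.l 816)) (T.l 816)) (T.a (T.l 816) (T.l 816))) (T.a (T.a (T.a (T.l 816) (T.l 816)) (T.l 816)) (T.a (T.l 816) (T.l 816))))), by decide +kernel⟩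

theorem B012E_110 :
    ∃ t, chk3 (onCell 0 26843545 0 1073741824 1040187392 5207648 (corW 3 c0B eng mog cB012E gB1q0 gB1q2 gB0q1 gB1q1 dB1q0 dB1q2 dB0q1 dB1q1 true false)) t 1 1 1 = true :=
  ex3_b B012E_110_1_2_1 B012E_110_1_3_1

def B012E_120 :
    ∃ t, chk3 (onCell 0 26843545 0 1073741824 1040187392 5207648 (corW 3 c0B eng mog cB012E gB1q0 gB2q2 gB0q1 gB1q1 dB1q0 dB2q2 dB0q1 dB1q1 true false)) t 1 1 1 = true :=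
  ⟨(T.b (T.l 1) (T.b (T.b (T.b (T.b (T.l 1) (T.b (T.l 1) (T.b (T.l 1) (T.a (T.a (T.a (T.l 816) (T.l 816)) (T.l 816)) (T.l 816))))) (T.b (T.a (T.a (T.a (T.l 816) (T.l 816)) (T.l 816)) (T.b (T.l 816) (T.l 816))) (T.a (T.a (T.a (T.l 816) (T.l 816)) (T.l 816)) (T.b (T.l 816) (T.l 816))))) (T.b (T.a (T.a (T.a (T.l 816) (T.l 816)) (T.l 816)) (T.b (T.l 816) (T.l 816))) (T.a (T.a (T.a (T.l 816) (T.l 816)) (T.l 816)) (T.b (T.l 816) (T.l 816))))) (T.b (T.a (T.a (T.a (T.l 816) (T.l 816)) (T.l 816)) (T.a (T.l 816) (T.l 816))) (T.a (T.a (T.a (T.l 816) (T.l 816)) (T.l 816)) (T.l 816))))), by decide +kernel⟩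

def B012E_200_1_8_1 :
    ∃ t, chk3 (onCell 0 16777216 0 1073741824 1040187392 5207648 (corW 3 c0B eng mog cB012E gB2q0 gB0q2 gB0q1 gB1q1 dB2q0 dB0q2 dB0q1 dB1q1 true false)) t 1 8 1 = true :=
  ⟨(T.l 1), by decide +kernel⟩

def B012E_200_1_36_1 :
    ∃ t, chk3 (onCell 0 16777216 0 1073741824 1040187392 5207648 (corW 3 c0B eng mog cB012E gB2q0 gB0q2 gB0q1 gB1q1 dB2q0 dB0q2 dB0q1 dB1q1 true false)) t 1 36 1 = true :=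
  ⟨(T.l 1), by decide +kernel⟩

def B012E_200_1_74_1 :
    ∃ t, chk3 (onCell 0 16777216 0 1073741824 1040187392 5207648 (corW 3 c0B eng mog cB012E gB2q0 gB0q2 gB0q1 gB1q1 dB2q0 dB0q2 dB0q1 dB1q1 true false)) t 1 74 1 = true :=
  ⟨(T.l 1), by decide +kernel⟩

def B012E_200_1_600_1 :
    ∃ t, chk3 (onCell 0 16777216 0 1073741824 1040187392 5207648 (corW 3 c0B eng mog cB012E gB2q0 gB0q2 gB0q1 gB1q1 dB2q0 dB0q2 dB0q1 dB1q1 true false)) t 1 600 1 = true :=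
  ⟨(T.l 1), by decide +kernel⟩

def B012E_200_1_1202_1 :
    ∃ t, chk3 (onCell 0 16777216 0 1073741824 1040187392 5207648 (corW 3 c0B eng mog cB012E gB2q0 gB0q2 gB0q1 gB1q1 dB2q0 dB0q2 dB0q1 dB1q1 true false)) t 1 1202 1 = true :=
  ⟨(T.a (T.l 1) (T.b (T.l 1) (T.b (T.l 1) (T.a (T.b (T.l 1) (T.b (T.l 1) (T.a (T.a (T.l 1) (T.c (T.l 748) (T.l 748))) (T.a (T.b (T.l 1) (T.a (T.c (T.l 748) (T.l 748)) (T.c (T.l 748) (T.c (T.l 748) (T.l 748))))) (T.b (T.a (T.c (T.l 748) (T.l 748)) (T.c (T.l 236) (T.l 236))) (T.a (T.c (T.l 748) (T.l 748)) (T.c (T.l 236) (T.l 236)))))))) (T.b (T.a (T.l 1) (T.a (T.l 1) (T.b (T.l 1) (T.b (T.l 1) (T.a (T.c (T.l 204) (T.l 236)) (T.c (T.l 0) (T.c (T.l 0) (T.l 0)))))))) (T.a (T.b (T.a (T.a (T.l 1) (T.c (T.l 236) (T.l 236))) (T.c (T.c (T.l 236) (T.l 236)) (T.c (T.l 236) (T.l 236)))) (T.a (T.c (T.c (T.l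 236) (T.l 236)) (T.c (T.l 236) (T.l 236))) (T.c (T.l 236) (T.c (T.l 236) (T.l 236))))) (T.b (T.a (T.c (T.c (T.l 236) (T.l 236)) (T.c (T.l 236) (T.l 236))) (T.b (T.a (T.c (T.l 204) (T.l 204)) (T.c (T.l 0) (T.c (T.l 0) (T.l 0)))) (T.a (T.c (T.l 204) (T.l 204)) (T.c (T.l 0) (T.c (T.l 0) (T.l 0)))))) (T.a (T.c (T.l 236) (T.c (T.l 236) (T.l 236))) (T.b (T.a (T.c (T.l 204) (T.l 204)) (T.c (T.l 0) (T.c (T.l 0) (T.l 0)))) (T.a (T.c (T.l 204) (T.l 204)) (T.c (T.l 0) (T.c (T.l 0) (T.l 0))))))))))))), by decide +kernel⟩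

def B012E_200_2_2406_1 :
    ∃ t, chk3 (onCell 0 16777216 0 1073741824 1040187392 5207648 (corW 3 c0B eng mog cB012E gB2q0 gB0q2 gB0q1 gB1q1 dB2q0 dB0q2 dB0q1 dB1q1 true false)) t 2 2406 1 = true :=
  ⟨(T.a (T.l 204) (T.b (T.b (T.a (T.a (T.l 716) (T.b (T.l 1) (T.b (T.a (T.l 1) (T.c (T.l 204) (T.l 204))) (T.a (T.c (T.l 204) (T.l 204)) (T.c (T.l 204) (T.l 204)))))) (T.b (T.a (T.l 1) (T.c (T.l 748) (T.l 748))) (T.a (T.c (T.l 716) (T.l 748)) (T.c (T.l 748) (T.l 748))))) (T.a (T.a (T.l 716) (T.a (T.c (T.l 204) (T.l 204)) (T.c (T.l 204) (T.l 204)))) (T.b (T.a (T.c (T.l 716) (T.l 748)) (T.c (T.l 748) (T.l 748))) (T.a (T.c (T.l 716) (T.l 748)) (T.c (T.l 748) (T.l 748)))))) (T.b (T.a (T.a (T.l 716) (T.a (T.c (T.l 204) (T.l 204)) (T.c (T.l 204) (T.l 204)))) (T.b (T.a (T.c (T.l 716) (T.l 748)) (T.c (T.l 748) (T.l 748))) (T.a (T.c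 (T.l 716) (T.l 748)) (T.c (T.l 748) (T.l 748))))) (T.a (T.a (T.l 716) (T.a (T.c (T.l 204) (T.l 204)) (T.l 716))) (T.b (T.a (T.c (T.l 716) (T.l 748)) (T.c (T.l 748) (T.l 748))) (T.a (T.c (T.l 716) (T.l 748)) (T.c (T.l 748) (T.l 748)))))))), by decide +kernel⟩

def B012E_200_6_4812_1 :
    ∃ t, chk3 (onCell 0 16777216 0 1073741824 1040187392 5207648 (corW 3 c0B eng mog cB012E gB2q0 gB0q2 gB0q1 gB1q1 dB2q0 dB0q2 dB0q1 dB1q1 true false)) t 6 4812 1 = true :=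
  ⟨(T.b (T.a (T.b (T.a (T.c (T.l 748) (T.l 748)) (T.c (T.l 748) (T.l 748))) (T.a (T.c (T.l 748) (T.l 748)) (T.c (T.l 748) (T.l 748)))) (T.b (T.a (T.b (T.a (T.c (T.l 748) (T.l 748)) (T.c (T.l 748) (T.c (T.l 748) (T.l 748)))) (T.a (T.c (T.l 748) (T.l 748)) (T.c (T.l 748) (T.c (T.l 748) (T.l 748))))) (T.b (T.a (T.c (T.l 748) (T.l 748)) (T.c (T.l 236) (T.l 236))) (T.c (T.c (T.l 748) (T.l 748)) (T.a (T.l 748) (T.l 236))))) (T.a (T.b (T.a (T.c (T.l 748) (T.l 748)) (T.c (T.l 748) (T.c (T.l 748) (T.l 748)))) (T.a (T.c (T.l 748) (T.l 748)) (T.c (T.l 748) (T.c (T.l 748) (T.l 748))))) (T.c (T.c (T.l 748) (T.l 748)) (T.a (T.l 748) (T.l 236)))))) (T.a (T.b (T.a (T.c (T.l 748) (T.l 748)) (T.c (T.l 748) (T.l 748))) (T.a (T.c (T.l 748) (T.l 748)) (T.c (T.l 748) (T.l 748)))) (T.b (T.a (T.b (T.a (T.c (T.l 748) (T.l 748)) (T.c (T.l 748) (T.c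 (T.l 748) (T.l 748)))) (T.a (T.c (T.l 748) (T.l 748)) (T.c (T.l 748) (T.c (T.l 748) (T.l 748))))) (T.c (T.c (T.l 748) (T.l 748)) (T.a (T.l 748) (T.l 236)))) (T.a (T.b (T.a (T.c (T.l 748) (T.l 748)) (T.c (T.l 748) (T.c (T.l 748) (T.l 748)))) (T.a (T.c (T.l 748) (T.l 748)) (T.c (T.l 748) (T.l 748)))) (T.c (T.c (T.l 748) (T.l 748)) (T.a (T.l 748) (T.l 236))))))), by decide +kernel⟩

def B012E_200_7_4812_1 :
    ∃ t, chk3 (onCell 0 16777216 0 1073741824 1040187392 5207648 (corW 3 c0B eng mog cB012E gB2q0 gB0q2 gB0q1 gB1q1 dB2q0 dB0q2 dB0q1 dB1q1 true false)) t 7 4812 1 = true :=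
  ⟨(T.b (T.a (T.b (T.a (T.c (T.l 236) (T.c (T.l 236) (T.l 236))) (T.c (T.l 236) (T.c (T.l 236) (T.l 236)))) (T.a (T.c (T.l 236) (T.c (T.l 236) (T.l 236))) (T.c (T.l 236) (T.c (T.l 236) (T.l 236))))) (T.b (T.a (T.c (T.l 236) (T.c (T.l 236) (T.l 236))) (T.c (T.c (T.l 0) (T.l 0)) (T.a (T.l 204) (T.l 8)))) (T.a (T.c (T.l 236) (T.c (T.l 236) (T.l 236))) (T.c (T.c (T.l 0) (T.l 0)) (T.c (T.l 0) (T.l 8)))))) (T.a (T.b (T.a (T.c (T.l 236) (T.c (T.l 236) (T.l 236))) (T.c (T.l 236) (T.c (T.l 236) (T.l 236)))) (T.a (T.c (T.l 236) (T.c (T.l 236) (T.l 236))) (T.c (T.l 236) (T.c (T.l 236) (T.l 236))))) (T.b (T.a (T.c (T.l 236) (T.c (T.l 236) (T.l 236))) (T.c (T.c (T.l 0) (T.l 0)) (T.c (T.l 0) (T.l 0)))) (T.a (T.c (T.l 236) (T.c (T.l 236) (T.l 236))) (T.c (T.c (T.l 0) (T.l 0)) (T.c (T.l 0) (T.l 0))))))), by decide +kernel⟩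

def B012E_200_3_4813_1 :
    ∃ t, chk3 (onCell 0 16777216 0 1073741824 1040187392 5207648 (corW 3 c0B eng mog cB012E gB2q0 gB0q2 gB0q1 gB1q1 dB2q0 dB0q2 dB0q1 dB1q1 true false)) t 3 4813 1 = true :=
  ⟨(T.a (T.b (T.a (T.b (T.a (T.c (T.l 748) (T.l 748)) (T.c (T.l 748) (T.l 748))) (T.a (T.c (T.l 748) (T.l 748)) (T.c (T.l 748) (T.l 748)))) (T.b (T.a (T.b (T.a (T.c (T.l 748) (T.l 748)) (T.c (T.l 748) (T.l 748))) (T.a (T.c (T.l 748) (T.l 748)) (T.c (T.l 748) (T.l 748)))) (T.c (T.l 748) (T.c (T.l 748) (T.l 748)))) (T.a (T.b (T.a (T.c (T.l 748) (T.l 748)) (T.c (T.l 748) (T.l 748))) (T.a (T.c (T.l 748) (T.l 748)) (T.c (T.l 748) (T.l 748)))) (T.c (T.l 748) (T.c (T.l 748) (T.l 748)))))) (T.a (T.b (T.a (T.c (T.l 748) (T.l 748)) (T.c (T.l 748) (T.l 748))) (T.a (T.c (T.l 748) (T.l 748)) (T.c (T.l 748) (T.l 748)))) (T.b (T.a (T.c (T.a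 (T.l 748) (T.l 748)) (T.a (T.l 748) (T.l 748))) (T.c (T.l 748) (T.c (T.l 748) (T.l 748)))) (T.a (T.c (T.a (T.l 748) (T.l 748)) (T.a (T.l 748) (T.l 748))) (T.c (T.l 748) (T.c (T.l 748) (T.l 748))))))) (T.b (T.a (T.b (T.a (T.c (T.l 236) (T.c (T.l 236) (T.l 236))) (T.c (T.l 236) (T.l 236))) (T.a (T.c (T.l 236) (T.c (T.l 236) (T.l 236))) (T.c (T.l 236) (T.l 236)))) (T.b (T.a (T.c (T.l 236) (T.l 236)) (T.c (T.c (T.l 0) (T.l 0)) (T.c (T.l 0) (T.l 0)))) (T.a (T.c (T.l 236) (T.l 236)) (T.c (T.l 40) (T.c (T.l 0) (T.l 0)))))) (T.a (T.b (T.a (T.c (T.l 236) (T.c (T.l 236) (T.l 236))) (T.c (T.l 236) (T.l 236))) (T.a (T.c (T.l 236) (T.c (T.l 236) (T.l 236))) (T.c (T.l 236) (T.l 236)))) (T.b (T.a (T.c (T.l 236) (T.l 236)) (T.c (T.l 32) (T.c (T.l 0) (T.l 0)))) (T.a (T.c (T.l 236) (T.l 236)) (T.c (T.l 32) (T.c (T.l 0) (T.l 0)))))))), by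 decide +kernel⟩

def B012E_200_2_2407_1 :
    ∃ t, chk3 (onCell 0 16777216 0 1073741824 1040187392 5207648 (corW 3 c0B eng mog cB012E gB2q0 gB0q2 gB0q1 gB1q1 dB2q0 dB0q2 dB0q1 dB1q1 true false)) t 2 2407 1 = true :=
  ⟨(T.a (T.l 204) (T.b (T.b (T.a (T.a (T.l 204) (T.a (T.c (T.l 204) (T.l 204)) (T.l 716))) (T.b (T.a (T.c (T.l 716) (T.l 748)) (T.c (T.l 748) (T.l 748))) (T.a (T.c (T.l 716) (T.l 748)) (T.c (T.l 748) (T.l 748))))) (T.a (T.a (T.l 204) (T.a (T.c (T.l 204) (T.l 204)) (T.l 716))) (T.b (T.a (T.c (T.l 716) (T.l 716)) (T.c (T.l 748) (T.l 748))) (T.a (T.c (T.l 716) (T.l 716)) (T.c (T.l 748) (T.l 748)))))) (T.b (T.a (T.a (T.l 204) (T.a (T.l 716) (T.l 716))) (T.a (T.c (T.l 716) (T.l 716)) (T.c (T.l 716) (T.l 748)))) (T.a (T.a (T.l 204) (T.a (T.l 716) (T.l 716))) (T.a (T.c (T.l 716) (T.l 716)) (T.c (T.l 716) (T.l 748))))))),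 by decide +kernel⟩

def B012E_200_3_4814_1 :
    ∃ t, chk3 (onCell 0 16777216 0 1073741824 1040187392 5207648 (corW 3 c0B eng mog cB012E gB2q0 gB0q2 gB0q1 gB1q1 dB2q0 dB0q2 dB0q1 dB1q1 true false)) t 3 4814 1 = true :=
  ⟨(T.a (T.b (T.a (T.b (T.a (T.c (T.l 748) (T.l 748)) (T.c (T.l 748) (T.l 748))) (T.a (T.c (T.l 748) (T.l 748)) (T.c (T.l 748) (T.l 748)))) (T.b (T.a (T.c (T.c (T.l 748) (T.l 748)) (T.a (T.l 748) (T.l 748))) (T.c (T.l 748) (T.c (T.l 748) (T.l 748)))) (T.a (T.c (T.c (T.l 748) (T.l 748)) (T.a (T.l 748) (T.l 748))) (T.c (T.l 748) (T.c (T.l 748) (T.l 748)))))) (T.a (T.a (T.c (T.l 748) (T.l 748)) (T.c (T.l 748) (T.l 748))) (T.b (T.a (T.c (T.c (T.l 748) (T.l 748)) (T.a (T.l 748) (T.l 748))) (T.c (T.l 748) (T.c (T.l 748) (T.l 748)))) (T.a (T.c (T.c (T.l 748) (T.l 748)) (T.a (T.l 748) (T.l 748))) (T.c (T.l 748) (T.c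 (T.l 748) (T.l 748))))))) (T.b (T.a (T.b (T.a (T.c (T.l 236) (T.l 236)) (T.c (T.l 236) (T.l 236))) (T.a (T.c (T.l 236) (T.l 236)) (T.c (T.l 236) (T.l 236)))) (T.b (T.a (T.c (T.l 236) (T.l 236)) (T.c (T.l 0) (T.c (T.l 0) (T.l 0)))) (T.a (T.c (T.l 236) (T.l 236)) (T.c (T.l 0) (T.c (T.l 0) (T.l 0)))))) (T.a (T.b (T.a (T.c (T.l 236) (T.l 236)) (T.c (T.l 236) (T.l 236))) (T.a (T.c (T.l 236) (T.l 236)) (T.c (T.l 236) (T.l 236)))) (T.b (T.a (T.c (T.l 236) (T.l 236)) (T.c (T.l 0) (T.c (T.l 0) (T.l 0)))) (T.a (T.c (T.l 236) (T.l 236)) (T.c (T.l 0) (T.c (T.l 0) (T.l 0)))))))), by decide +kernel⟩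

def B012E_200_3_4815_1 :
    ∃ t, chk3 (onCell 0 16777216 0 1073741824 1040187392 5207648 (corW 3 c0B eng mog cB012E gB2q0 gB0q2 gB0q1 gB1q1 dB2q0 dB0q2 dB0q1 dB1q1 true false)) t 3 4815 1 = true :=
  ⟨(T.a (T.b (T.a (T.a (T.c (T.l 748) (T.l 748)) (T.c (T.l 748) (T.l 748))) (T.b (T.a (T.c (T.c (T.l 748) (T.l 748)) (T.a (T.l 748) (T.l 748))) (T.c (T.l 748) (T.c (T.l 748) (T.l 748)))) (T.a (T.c (T.c (T.l 748) (T.l 748)) (T.a (T.l 748) (T.l 748))) (T.c (T.l 748) (T.c (T.l 748) (T.l 748)))))) (T.a (T.a (T.c (T.l 748) (T.l 748)) (T.c (T.l 748) (T.l 748))) (T.b (T.a (T.c (T.c (T.l 748) (T.l 748)) (T.a (T.l 748) (T.l 748))) (T.c (T.l 748) (T.c (T.l 748) (T.l 748)))) (T.a (T.c (T.c (T.l 748) (T.l 748)) (T.a (T.l 748) (T.l 748))) (T.c (T.l 748) (T.c (T.l 748) (T.l 748))))))) (T.b (T.a (T.b (T.a (T.c (T.l 236) (T.l 236)) (T.c (T.l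 236) (T.l 236))) (T.a (T.c (T.l 236) (T.l 236)) (T.c (T.l 236) (T.l 236)))) (T.a (T.c (T.l 236) (T.l 236)) (T.c (T.l 0) (T.c (T.l 0) (T.l 0))))) (T.a (T.a (T.c (T.l 236) (T.l 236)) (T.c (T.l 236) (T.l 236))) (T.a (T.c (T.l 236) (T.l 236)) (T.c (T.l 0) (T.l 0)))))), by decide +kernel⟩

def B012E_200_2_2408_1 :
    ∃ t, chk3 (onCell 0 16777216 0 1073741824 1040187392 5207648 (corW 3 c0B eng mog cB012E gB2q0 gB0q2 gB0q1 gB1q1 dB2q0 dB0q2 dB0q1 dB1q1 true false)) t 2 2408 1 = true :=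
  ⟨(T.a (T.l 204) (T.b (T.b (T.a (T.a (T.l 204) (T.a (T.l 716) (T.l 716))) (T.a (T.c (T.l 716) (T.l 716)) (T.c (T.l 716) (T.l 748)))) (T.a (T.a (T.l 204) (T.a (T.l 716) (T.l 716))) (T.a (T.c (T.l 716) (T.l 716)) (T.c (T.l 716) (T.l 748))))) (T.b (T.a (T.a (T.l 204) (T.a (T.l 716) (T.l 716))) (T.a (T.c (T.l 204) (T.l 716)) (T.c (T.l 716) (T.l 748)))) (T.a (T.a (T.l 204) (T.a (T.l 716) (T.l 716))) (T.a (T.c (T.l 204) (T.l 716)) (T.c (T.l 204) (T.l 748))))))), by decide +kernel⟩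

def B012E_200_3_2408_1 :
    ∃ t, chk3 (onCell 0 16777216 0 1073741824 1040187392 5207648 (corW 3 c0B eng mog cB012E gB2q0 gB0q2 gB0q1 gB1q1 dB2q0 dB0q2 dB0q1 dB1q1 true false)) t 3 2408 1 = true :=
  ⟨(T.b (T.a (T.b (T.a (T.a (T.c (T.l 748) (T.l 748)) (T.c (T.l 748) (T.l 748))) (T.b (T.a (T.c (T.c (T.l 748) (T.l 748)) (T.a (T.l 748) (T.l 748))) (T.c (T.l 748) (T.l 748))) (T.a (T.c (T.c (T.l 748) (T.l 748)) (T.a (T.l 748) (T.l 748))) (T.c (T.l 748) (T.l 748))))) (T.a (T.a (T.c (T.l 748) (T.l 748)) (T.c (T.l 748) (T.l 748))) (T.a (T.c (T.c (T.l 748) (T.l 748)) (T.c (T.l 748) (T.l 748))) (T.c (T.l 748) (T.l 748))))) (T.b (T.a (T.a (T.c (T.l 236) (T.l 236)) (T.c (T.l 236) (T.l 236))) (T.a (T.c (T.l 204) (T.l 236)) (T.c (T.l 0) (T.l 0)))) (T.a (T.a (T.c (T.l 236) (T.l 236)) (T.c (T.l 236) (T.l 236))) (T.a (T.c (T.l 204) (T.l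 236)) (T.c (T.l 0) (T.l 0)))))) (T.a (T.b (T.a (T.a (T.c (T.l 748) (T.l 748)) (T.c (T.l 748) (T.l 748))) (T.a (T.c (T.l 748) (T.c (T.l 748) (T.l 748))) (T.c (T.l 748) (T.l 748)))) (T.a (T.a (T.c (T.l 748) (T.l 748)) (T.c (T.l 748) (T.l 748))) (T.a (T.c (T.l 748) (T.c (T.l 748) (T.l 748))) (T.c (T.l 748) (T.l 748))))) (T.b (T.a (T.a (T.c (T.l 236) (T.l 236)) (T.c (T.l 236) (T.l 236))) (T.a (T.c (T.l 204) (T.l 204)) (T.c (T.l 0) (T.l 0)))) (T.a (T.a (T.c (T.l 236) (T.l 236)) (T.c (T.l 236) (T.l 236))) (T.a (T.c (T.l 204) (T.l 204)) (T.c (T.l 0) (T.l 0))))))), by decide +kernel⟩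

def B012E_200_1_2409_1 :
    ∃ t, chk3 (onCell 0 16777216 0 1073741824 1040187392 5207648 (corW 3 c0B eng mog cB012E gB2q0 gB0q2 gB0q1 gB1q1 dB2q0 dB0q2 dB0q1 dB1q1 true false)) t 1 2409 1 = true :=
  ⟨(T.a (T.a (T.l 204) (T.b (T.b (T.a (T.a (T.l 204) (T.c (T.l 716) (T.l 716))) (T.a (T.c (T.l 204) (T.l 716)) (T.c (T.l 204) (T.l 748)))) (T.a (T.a (T.l 204) (T.c (T.l 716) (T.l 716))) (T.a (T.c (T.l 204) (T.l 716)) (T.c (T.l 204) (T.l 748))))) (T.b (T.a (T.a (T.l 204) (T.c (T.l 716) (T.l 716))) (T.a (T.c (T.l 204) (T.l 716)) (T.c (T.l 204) (T.l 716)))) (T.a (T.a (T.l 204) (T.c (T.l 716) (T.l 716))) (T.a (T.c (T.l 204) (T.l 716)) (T.c (T.l 204) (T.l 716))))))) (T.b (T.a (T.b (T.a (T.a (T.c (T.l 716) (T.l 748)) (T.c (T.l 748) (T.l 748))) (T.a (T.c (T.l 748) (T.c (T.l 748) (T.l 748))) (T.c (T.l 748) (T.l 748)))) (T.a (T.a (T.c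 (T.l 204) (T.l 748)) (T.c (T.l 748) (T.l 748))) (T.a (T.c (T.l 748) (T.c (T.l 748) (T.l 748))) (T.c (T.l 748) (T.l 748))))) (T.b (T.a (T.a (T.c (T.l 236) (T.l 236)) (T.c (T.l 236) (T.l 236))) (T.a (T.c (T.l 204) (T.l 204)) (T.c (T.l 0) (T.l 0)))) (T.a (T.a (T.c (T.l 236) (T.l 236)) (T.c (T.l 204) (T.l 236))) (T.a (T.c (T.l 204) (T.l 204)) (T.c (T.l 0) (T.l 0)))))) (T.a (T.b (T.a (T.a (T.c (T.l 204) (T.l 748)) (T.c (T.l 748) (T.l 748))) (T.a (T.c (T.l 748) (T.c (T.l 748) (T.l 748))) (T.c (T.l 748) (T.l 748)))) (T.a (T.a (T.c (T.l 204) (T.l 748)) (T.c (T.l 748) (T.l 748))) (T.a (T.c (T.l 748) (T.c (T.l 748) (T.l 748))) (T.c (T.l 748) (T.l 748))))) (T.b (T.a (T.a (T.c (T.l 236) (T.l 236)) (T.c (T.l 204) (T.l 236))) (T.a (T.c (T.l 204) (T.l 204)) (T.c (T.l 0) (T.l 0)))) (T.a (T.a (T.c (T.l 236) (T.l 236)) (T.c (T.l 204) (T.l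 236))) (T.a (T.c (T.l 204) (T.l 204)) (T.c (T.l 0) (T.l 0)))))))), by decide +kernel⟩

def B012E_200_1_2410_1 :
    ∃ t, chk3 (onCell 0 16777216 0 1073741824 1040187392 5207648 (corW 3 c0B eng mog cB012E gB2q0 gB0q2 gB0q1 gB1q1 dB2q0 dB0q2 dB0q1 dB1q1 true false)) t 1 2410 1 = true :=
  ⟨(T.a (T.a (T.l 204) (T.b (T.b (T.a (T.a (T.l 204) (T.c (T.l 716) (T.l 716))) (T.a (T.c (T.l 204) (T.l 716)) (T.c (T.l 204) (T.l 716)))) (T.a (T.a (T.l 204) (T.c (T.l 716) (T.l 716))) (T.a (T.c (T.l 204) (T.l 716)) (T.c (T.l 204) (T.l 716))))) (T.b (T.a (T.a (T.l 204) (T.c (T.l 204) (T.l 716))) (T.a (T.c (T.l 204) (T.l 716)) (T.c (T.l 204) (T.l 716)))) (T.a (T.a (T.l 204) (T.c (T.l 204) (T.l 716))) (T.a (T.c (T.l 204) (T.l 204)) (T.c (T.l 204) (T.l 204))))))) (T.b (T.a (T.b (T.a (T.a (T.l 748) (T.c (T.l 204) (T.l 748))) (T.a (T.c (T.l 748)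 (T.l 748)) (T.c (T.l 748) (T.l 748)))) (T.a (T.a (T.l 748) (T.l 748)) (T.a (T.c (T.l 748) (T.l 748)) (T.c (T.l 748) (T.l 748))))) (T.b (T.a (T.a (T.c (T.l 236) (T.l 236)) (T.c (T.l 204) (T.l 236))) (T.a (T.c (T.l 204) (T.l 204)) (T.c (T.l 0) (T.l 0)))) (T.a (T.a (T.c (T.l 236) (T.l 236)) (T.c (T.l 204) (T.l 204))) (T.a (T.c (T.l 204) (T.l 204)) (T.c (T.l 0) (T.l 0)))))) (T.a (T.a (T.a (T.l 748) (T.l 748)) (T.a (T.c (T.l 748) (T.l 748)) (T.c (T.l 748) (T.l 748)))) (T.a (T.a (T.c (T.l 236) (T.l 236)) (T.c (T.l 204) (T.l 204))) (T.a (T.c (T.l 204) (T.l 204)) (T.c (T.l 0) (T.l 0))))))), by decide +kernel⟩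

def B012E_200_1_2411_1 :
    ∃ t, chk3 (onCell 0 16777216 0 1073741824 1040187392 5207648 (corW 3 c0B eng mog cB012E gB2q0 gB0q2 gB0q1 gB1q1 dB2q0 dB0q2 dB0q1 dB1q1 true false)) t 1 2411 1 = true :=
  ⟨(T.a (T.a (T.l 204) (T.b (T.b (T.a (T.a (T.l 204) (T.c (T.l 204) (T.l 716))) (T.a (T.c (T.l 204) (T.l 204)) (T.l 748))) (T.a (T.a (T.l 204) (T.c (T.l 204) (T.l 716))) (T.a (T.c (T.l 204) (T.l 204)) (T.l 748)))) (T.b (T.a (T.a (T.l 204) (T.c (T.l 204) (T.l 716))) (T.a (T.c (T.l 204) (T.l 204)) (T.l 748))) (T.a (T.a (T.l 204) (T.c (T.l 204) (T.l 716))) (T.a (T.c (T.l 204) (T.l 204)) (T.l 748)))))) (T.b (T.a (T.a (T.a (T.l 748) (T.l 748)) (T.a (T.c (T.l 748) (T.l 748)) (T.c (T.l 236) (T.l 748)))) (T.a (T.a (T.c (T.l 204) (T.l 236)) (T.c (T.l 204) (T.l 204))) (T.a (T.c (T.l 204) (T.l 204)) (T.c (T.l 0) (T.l 0))))) (T.a (T.a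 (T.a (T.l 748) (T.l 748)) (T.a (T.c (T.l 748) (T.l 748)) (T.c (T.l 236) (T.l 748)))) (T.a (T.a (T.c (T.l 204) (T.l 236)) (T.l 236)) (T.a (T.l 236) (T.c (T.l 0) (T.l 0))))))), by decide +kernel⟩

def B012E_200_1_1206_1 :
    ∃ t, chk3 (onCell 0 16777216 0 1073741824 1040187392 5207648 (corW 3 c0B eng mog cB012E gB2q0 gB0q2 gB0q1 gB1q1 dB2q0 dB0q2 dB0q1 dB1q1 true false)) t 1 1206 1 = true :=
  ⟨(T.b (T.a (T.a (T.l 204) (T.b (T.b (T.a (T.a (T.l 204) (T.c (T.l 204) (T.l 716))) (T.a (T.l 716) (T.l 748))) (T.a (T.a (T.l 204) (T.c (T.l 204) (T.l 716))) (T.a (T.l 716) (T.l 748)))) (T.b (T.a (T.a (T.l 204) (T.c (T.l 204) (T.l 716))) (T.a (T.l 716) (T.l 748))) (T.a (T.a (T.l 204) (T.c (T.l 204) (T.l 716))) (T.a (T.l 716) (T.l 748)))))) (T.b (T.a (T.a (T.a (T.l 748) (T.l 748)) (T.a (T.c (T.l 748) (T.l 748)) (T.c (T.l 236) (T.l 748))))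 (T.a (T.a (T.l 236) (T.l 236)) (T.a (T.l 236) (T.c (T.l 0) (T.l 0))))) (T.a (T.a (T.a (T.l 748) (T.l 748)) (T.a (T.c (T.l 748) (T.l 748)) (T.c (T.l 236) (T.l 236)))) (T.a (T.a (T.l 236) (T.l 236)) (T.a (T.l 236) (T.l 8)))))) (T.a (T.a (T.l 204) (T.b (T.b (T.a (T.a (T.l 204) (T.c (T.l 204) (T.l 204))) (T.a (T.l 716) (T.l 748))) (T.a (T.a (T.l 204) (T.c (T.l 204) (T.l 204))) (T.a (T.l 716) (T.l 748)))) (T.a (T.a (T.l 204) (T.c (T.l 204) (T.l 204))) (T.a (T.l 716) (T.l 748))))) (T.b (T.a (T.a (T.a (T.l 748) (T.l 748)) (T.a (T.c (T.l 748) (T.l 748)) (T.l 748))) (T.a (T.a (T.l 236) (T.l 236)) (T.a (T.l 236) (T.l 0)))) (T.a (T.a (T.a (T.l 748) (T.l 748)) (T.a (T.c (T.l 748) (T.l 748)) (T.l 748))) (T.a (T.a (T.l 236) (T.l 236)) (T.a (T.l 204) (T.l 0))))))), by decide +kernel⟩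

def B012E_200_1_1207_1 :
    ∃ t, chk3 (onCell 0 16777216 0 1073741824 1040187392 5207648 (corW 3 c0B eng mog cB012E gB2q0 gB0q2 gB0q1 gB1q1 dB2q0 dB0q2 dB0q1 dB1q1 true false)) t 1 1207 1 = true :=
  ⟨(T.b (T.a (T.a (T.l 204) (T.a (T.a (T.l 204) (T.c (T.l 204) (T.l 204))) (T.a (T.l 716) (T.l 748)))) (T.b (T.a (T.a (T.a (T.l 748) (T.l 748)) (T.a (T.c (T.l 748) (T.l 748)) (T.l 748))) (T.a (T.a (T.l 236) (T.l 236)) (T.a (T.l 204) (T.l 0)))) (T.a (T.a (T.a (T.l 748) (T.l 748)) (T.a (T.c (T.l 236) (T.l 748)) (T.l 748))) (T.a (T.c (T.l 236) (T.l 748)) (T.c (T.l 0) (T.l 0)))))) (T.a (T.a (T.l 204) (T.a (T.a (T.l 204) (T.c (T.l 204) (T.l 204))) (T.a (T.l 716) (T.l 716)))) (T.b (T.a (T.a (T.a (T.l 748) (T.l 748)) (T.a (T.c (T.l 236) (T.l 748)) (T.l 748))) (T.a (T.c (T.l 236) (T.l 236)) (T.c (T.l 0) (T.l 0)))) (T.a (T.a (T.a (T.l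 716) (T.l 748)) (T.a (T.l 748) (T.l 748))) (T.a (T.c (T.l 236) (T.l 236)) (T.c (T.l 0) (T.l 0))))))), by decide +kernel⟩

def B012E_200_1_604_1 :
    ∃ t, chk3 (onCell 0 16777216 0 1073741824 1040187392 5207648 (corW 3 c0B eng mog cB012E gB2q0 gB0q2 gB0q1 gB1q1 dB2q0 dB0q2 dB0q1 dB1q1 true false)) t 1 604 1 = true :=
  ⟨(T.b (T.b (T.a (T.a (T.l 204) (T.a (T.a (T.l 204) (T.l 716)) (T.a (T.l 716) (T.l 716)))) (T.b (T.a (T.a (T.c (T.l 716) (T.l 748)) (T.a (T.l 748) (T.l 748))) (T.a (T.c (T.l 236) (T.l 236)) (T.c (T.l 0) (T.l 0)))) (T.a (T.a (T.c (T.l 716) (T.l 748)) (T.a (T.l 748) (T.l 748))) (T.a (T.c (T.l 236) (T.l 236)) (T.c (T.l 0) (T.l 0)))))) (T.a (T.a (T.l 204) (T.a (T.a (T.l 204) (T.l 716)) (T.a (T.l 204) (T.l 204)))) (T.b (T.a (T.a (T.c (T.l 716) (T.l 748)) (T.a (T.l 748) (T.l 748))) (T.a (T.c (T.l 236) (T.l 236))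 (T.c (T.l 0) (T.l 0)))) (T.a (T.a (T.c (T.l 716) (T.l 716)) (T.a (T.l 748) (T.l 748))) (T.a (T.c (T.l 236) (T.l 236)) (T.c (T.l 0) (T.l 0))))))) (T.b (T.a (T.a (T.l 204) (T.a (T.a (T.l 204) (T.l 716)) (T.a (T.l 204) (T.l 204)))) (T.b (T.a (T.a (T.c (T.l 716) (T.l 716)) (T.a (T.l 748) (T.l 748))) (T.a (T.c (T.l 236) (T.l 236)) (T.c (T.l 0) (T.l 0)))) (T.a (T.a (T.c (T.l 716) (T.l 716)) (T.a (T.l 748) (T.l 748))) (T.a (T.c (T.l 204) (T.l 236)) (T.c (T.l 0) (T.l 0)))))) (T.a (T.a (T.l 204) (T.a (T.a (T.l 204) (T.l 716)) (T.a (T.l 204) (T.l 204)))) (T.b (T.a (T.a (T.c (T.l 716) (T.l 716)) (T.a (T.l 748) (T.l 748))) (T.a (T.c (T.l 204) (T.l 236)) (T.c (T.l 0) (T.l 0)))) (T.a (T.a (T.c (T.l 716) (T.l 716)) (T.a (T.l 748) (T.l 204))) (T.a (T.c (T.l 204) (T.l 204)) (T.c (T.l 0) (T.l 0)))))))), by decide +kernel⟩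

def B012E_200_1_605_1 :
    ∃ t, chk3 (onCell 0 16777216 0 1073741824 1040187392 5207648 (corW 3 c0B eng mog cB012E gB2q0 gB0q2 gB0q1 gB1q1 dB2q0 dB0q2 dB0q1 dB1q1 true false)) t 1 605 1 = true :=
  ⟨(T.b (T.b (T.a (T.a (T.l 204) (T.a (T.a (T.l 204) (T.l 204)) (T.a (T.l 204) (T.l 204)))) (T.b (T.a (T.a (T.c (T.l 716) (T.l 716)) (T.a (T.l 748) (T.l 204))) (T.a (T.l 748) (T.l 0))) (T.a (T.a (T.c (T.l 716) (T.l 716)) (T.a (T.l 748) (T.l 204))) (T.a (T.l 748) (T.l 0))))) (T.a (T.a (T.l 204) (T.a (T.a (T.l 204) (T.l 204)) (T.a (T.l 204) (T.l 204)))) (T.b (T.a (T.a (T.c (T.l 716) (T.l 716)) (T.a (T.l 748) (T.l 204))) (T.a (T.l 748) (T.l 0))) (T.a (T.a (T.c (T.l 716) (T.l 716)) (T.a (T.l 748) (T.l 204))) (T.a (T.l 748) (T.l 0)))))) (T.b (T.a (T.a (T.l 204) (T.a (T.a (T.l 204) (T.l 204)) (T.a (T.l 204) (T.l 204)))) (T.a (T.a (T.c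 (T.l 716) (T.l 716)) (T.a (T.l 748) (T.l 204))) (T.a (T.l 748) (T.l 0)))) (T.a (T.a (T.l 204) (T.a (T.a (T.l 204) (T.l 204)) (T.a (T.l 204) (T.l 204)))) (T.a (T.a (T.l 716) (T.a (T.l 204) (T.l 204))) (T.a (T.l 236) (T.l 0)))))), by decide +kernel⟩

def B012E_200_1_303_1 :
    ∃ t, chk3 (onCell 0 16777216 0 1073741824 1040187392 5207648 (corW 3 c0B eng mog cB012E gB2q0 gB0q2 gB0q1 gB1q1 dB2q0 dB0q2 dB0q1 dB1q1 true false)) t 1 303 1 = true :=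
  ⟨(T.b (T.b (T.b (T.a (T.a (T.l 204) (T.a (T.a (T.l 204) (T.l 204)) (T.a (T.l 204) (T.l 204)))) (T.a (T.a (T.l 716) (T.c (T.l 748) (T.l 748))) (T.a (T.l 236) (T.l 0)))) (T.a (T.a (T.l 204) (T.a (T.a (T.l 204) (T.l 204)) (T.a (T.l 204) (T.l 204)))) (T.a (T.a (T.l 716) (T.c (T.l 748) (T.l 748))) (T.a (T.l 204) (T.l 0))))) (T.b (T.a (T.a (T.l 204) (T.a (T.a (T.l 204) (T.l 204)) (T.a (T.l 204) (T.l 204)))) (T.a (T.a (T.l 716) (T.c (T.l 748) (T.l 748))) (T.a (T.l 204) (T.l 0)))) (T.a (T.a (T.l 204) (T.a (T.a (T.l 204) (T.l 204)) (T.c (T.l 716) (T.l 716)))) (T.a (T.a (T.l 716) (T.c (T.l 748) (T.l 748))) (T.a (T.l 204) (T.l 0)))))) (T.b (T.b (T.a (T.a (T.l 204) (T.a (T.a (T.l 204) (T.l 204)) (T.c (T.l 716) (T.l 716)))) (T.a (T.a (T.l 716) (T.c (T.l 716) (T.l 748))) (T.a (T.l 204) (T.l 0)))) (T.a (T.a (T.l 204) (T.a (T.a (T.l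 204) (T.l 204)) (T.c (T.l 716) (T.l 716)))) (T.a (T.a (T.l 716) (T.c (T.l 716) (T.l 748))) (T.a (T.l 204) (T.l 0))))) (T.b (T.a (T.a (T.l 204) (T.a (T.a (T.l 204) (T.l 204)) (T.c (T.l 716) (T.l 716)))) (T.a (T.a (T.l 716) (T.c (T.l 716) (T.l 716))) (T.a (T.l 204) (T.l 0)))) (T.a (T.a (T.l 204) (T.a (T.a (T.l 204) (T.l 204)) (T.c (T.l 204) (T.l 716)))) (T.a (T.a (T.l 204) (T.c (T.l 716) (T.l 716))) (T.a (T.l 204) (T.l 0))))))), by decide +kernel⟩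

def B012E_200_1_304_1 :
    ∃ t, chk3 (onCell 0 16777216 0 1073741824 1040187392 5207648 (corW 3 c0B eng mog cB012E gB2q0 gB0q2 gB0q1 gB1q1 dB2q0 dB0q2 dB0q1 dB1q1 true false)) t 1 304 1 = true :=
  ⟨(T.b (T.b (T.b (T.a (T.a (T.l 204) (T.a (T.a (T.l 204) (T.l 204)) (T.c (T.l 204) (T.l 204)))) (T.a (T.a (T.l 204) (T.l 748)) (T.a (T.l 204) (T.l 0)))) (T.a (T.a (T.l 204) (T.a (T.a (T.l 204) (T.l 204)) (T.l 716))) (T.a (T.a (T.l 204) (T.l 748)) (T.a (T.l 204) (T.l 0))))) (T.b (T.a (T.a (T.l 204) (T.a (T.a (T.l 204) (T.l 204)) (T.l 716))) (T.a (T.a (T.l 204) (T.l 748)) (T.a (T.l 204) (T.l 0)))) (T.a (T.a (T.l 204) (T.a (T.a (T.l 204) (T.l 204)) (T.l 716))) (T.a (T.a (T.l 204) (T.l 748)) (T.a (T.l 204) (T.l 0)))))) (T.b (T.b (T.a (T.a (T.l 204) (T.a (T.a (T.l 204) (T.l 204)) (T.l 716))) (T.a (T.a (T.l 204) (T.l 716)) (T.a (T.l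 204) (T.l 0)))) (T.a (T.a (T.l 204) (T.a (T.a (T.l 204) (T.l 204)) (T.l 716))) (T.a (T.a (T.l 204) (T.l 716)) (T.a (T.l 204) (T.l 0))))) (T.b (T.a (T.a (T.l 204) (T.a (T.a (T.l 204) (T.l 204)) (T.l 716))) (T.a (T.a (T.l 204) (T.l 716)) (T.a (T.l 204) (T.l 0)))) (T.a (T.a (T.l 204) (T.a (T.a (T.l 204) (T.l 204)) (T.l 204))) (T.a (T.a (T.l 204) (T.l 716)) (T.a (T.l 204) (T.l 0))))))), by decide +kernel⟩

def B012E_200_1_305_1 :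
    ∃ t, chk3 (onCell 0 16777216 0 1073741824 1040187392 5207648 (corW 3 c0B eng mog cB012E gB2q0 gB0q2 gB0q1 gB1q1 dB2q0 dB0q2 dB0q1 dB1q1 true false)) t 1 305 1 = true :=
  ⟨(T.b (T.b (T.b (T.a (T.a (T.l 204) (T.a (T.a (T.l 204) (T.l 204)) (T.l 204))) (T.a (T.a (T.l 204) (T.l 716)) (T.a (T.l 204) (T.l 0)))) (T.a (T.a (T.l 204) (T.a (T.a (T.l 204) (T.l 204)) (T.l 204))) (T.a (T.a (T.l 204) (T.l 716)) (T.a (T.l 204) (T.l 0))))) (T.b (T.a (T.a (T.l 204) (T.a (T.a (T.l 204) (T.l 204)) (T.l 204))) (T.a (T.a (T.l 204) (T.l 204)) (T.a (T.l 204) (T.l 0)))) (T.a (T.a (T.l 204) (T.a (T.a (T.l 204) (T.l 204)) (T.l 204))) (T.a (T.a (T.l 204) (T.l 204)) (T.a (T.l 204) (T.l 0)))))) (T.b (T.b (T.a (T.a (T.l 204) (T.a (T.a (T.l 204) (T.l 204)) (T.l 204))) (T.a (T.a (T.l 204) (T.l 204)) (T.a (T.l 204) (T.l 0)))) (T.a (T.a (T.l 204) (T.a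 (T.a (T.l 204) (T.l 204)) (T.l 204))) (T.a (T.a (T.l 204) (T.l 204)) (T.a (T.l 204) (T.l 0))))) (T.b (T.a (T.a (T.l 204) (T.a (T.a (T.l 204) (T.l 204)) (T.l 204))) (T.a (T.a (T.l 204) (T.l 204)) (T.a (T.l 204) (T.l 0)))) (T.a (T.a (T.l 204) (T.a (T.a (T.l 204) (T.l 204)) (T.l 204))) (T.a (T.a (T.l 204) (T.l 204)) (T.a (T.l 204) (T.l 0))))))), by decide +kernel⟩

def B012E_200_1_306_1 :
    ∃ t, chk3 (onCell 0 16777216 0 1073741824 1040187392 5207648 (corW 3 c0B eng mog cB012E gB2q0 gB0q2 gB0q1 gB1q1 dB2q0 dB0q2 dB0q1 dB1q1 true false)) t 1 306 1 = true :=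
  ⟨(T.b (T.b (T.b (T.a (T.a (T.l 204) (T.a (T.a (T.l 204) (T.l 204)) (T.l 204))) (T.a (T.a (T.l 204) (T.l 204)) (T.a (T.l 204) (T.l 0)))) (T.a (T.a (T.l 204) (T.a (T.a (T.l 204) (T.l 204)) (T.l 204))) (T.a (T.a (T.l 204) (T.l 204)) (T.a (T.l 204) (T.l 0))))) (T.b (T.a (T.a (T.l 204) (T.a (T.a (T.l 204) (T.l 204)) (T.l 204))) (T.a (T.a (T.l 204) (T.l 204)) (T.a (T.l 204) (T.l 0)))) (T.a (T.a (T.l 204) (T.a (T.a (T.l 204) (T.l 204)) (T.l 204))) (T.a (T.a (T.l 204) (T.l 204)) (T.a (T.l 204) (T.l 0)))))) (T.b (T.b (T.a (T.a (T.l 204) (T.a (T.a (T.l 204) (T.l 204)) (T.l 204))) (T.a (T.a (T.l 204) (T.l 204)) (T.a (T.l 204) (T.l 0)))) (T.a (T.a (T.l 204) (T.a (T.a (T.l 204) (T.l 204)) (T.l 204))) (T.a (T.a (T.l 204) (T.l 204)) (T.a (T.l 204) (T.l 0))))) (T.b (T.a (T.a (T.l 204) (T.a (T.a (T.l 204) (T.l 204)) (T.l 204))) (T.a (T.a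 (T.l 204) (T.l 204)) (T.l 520))) (T.a (T.a (T.l 204) (T.a (T.a (T.l 204) (T.l 204)) (T.l 204))) (T.a (T.a (T.l 204) (T.l 204)) (T.l 512)))))), by decide +kernel⟩

def B012E_200_1_307_1 :
    ∃ t, chk3 (onCell 0 16777216 0 1073741824 1040187392 5207648 (corW 3 c0B eng mog cB012E gB2q0 gB0q2 gB0q1 gB1q1 dB2q0 dB0q2 dB0q1 dB1q1 true false)) t 1 307 1 = true :=
  ⟨(T.b (T.b (T.b (T.a (T.a (T.l 204) (T.a (T.a (T.l 204) (T.l 204)) (T.l 204))) (T.a (T.a (T.l 204) (T.l 204)) (T.l 512))) (T.a (T.a (T.l 204) (T.a (T.a (T.l 204) (T.l 204)) (T.l 204))) (T.a (T.a (T.l 204) (T.l 204)) (T.l 512)))) (T.b (T.a (T.a (T.l 204) (T.a (T.c (T.l 716) (T.l 716)) (T.l 204))) (T.a (T.a (T.l 204) (T.l 204)) (T.l 0))) (T.a (T.a (T.l 204) (T.a (T.c (T.l 204) (T.l 716)) (T.l 204))) (T.a (T.a (T.l 204) (T.l 204)) (T.l 0))))) (T.b (T.b (T.a (T.a (T.l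 204) (T.a (T.c (T.l 204) (T.l 716)) (T.l 204))) (T.a (T.a (T.l 204) (T.l 204)) (T.l 0))) (T.a (T.a (T.l 204) (T.a (T.c (T.l 204) (T.l 716)) (T.l 204))) (T.a (T.a (T.l 204) (T.l 204)) (T.l 0)))) (T.b (T.a (T.a (T.l 204) (T.a (T.c (T.l 204) (T.l 204)) (T.l 204))) (T.a (T.a (T.l 204) (T.l 204)) (T.l 0))) (T.a (T.a (T.l 204) (T.a (T.c (T.l 204) (T.l 204)) (T.l 204))) (T.a (T.a (T.l 204) (T.l 204)) (T.l 0)))))), by decide +kernel⟩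

def B012E_200_1_154_1 :
    ∃ t, chk3 (onCell 0 16777216 0 1073741824 1040187392 5207648 (corW 3 c0B eng mog cB012E gB2q0 gB0q2 gB0q1 gB1q1 dB2q0 dB0q2 dB0q1 dB1q1 true false)) t 1 154 1 = true :=
  ⟨(T.b (T.b (T.b (T.b (T.a (T.a (T.l 204) (T.a (T.c (T.l 204) (T.l 204)) (T.l 204))) (T.a (T.a (T.l 204) (T.l 204)) (T.l 0))) (T.a (T.a (T.l 204) (T.a (T.l 716) (T.l 204))) (T.a (T.a (T.l 204) (T.l 204)) (T.l 0)))) (T.b (T.a (T.a (T.l 204) (T.a (T.l 716) (T.l 204))) (T.a (T.a (T.l 204) (T.l 204)) (T.l 0))) (T.a (T.a (T.l 204) (T.a (T.l 716) (T.l 204))) (T.a (T.a (T.l 204) (T.l 204)) (T.l 0))))) (T.b (T.b (T.a (T.a (T.l 204) (T.a (T.l 204) (T.l 204))) (T.a (T.a (T.l 204) (T.l 204)) (T.l 0))) (T.a (T.a (T.l 204) (T.a (T.l 204) (T.l 204))) (T.a (T.a (T.l 204) (T.l 204)) (T.l 0)))) (T.b (T.a (T.a (T.l 204) (T.a (T.l 204) (T.l 204)))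 (T.a (T.a (T.l 204) (T.l 204)) (T.l 0))) (T.a (T.a (T.l 204) (T.a (T.l 204) (T.l 204))) (T.a (T.a (T.l 204) (T.l 204)) (T.l 0)))))) (T.b (T.b (T.b (T.a (T.a (T.l 204) (T.a (T.l 204) (T.l 204))) (T.a (T.a (T.l 204) (T.l 204)) (T.l 0))) (T.a (T.a (T.l 204) (T.a (T.l 204) (T.l 204))) (T.a (T.a (T.l 204) (T.l 204)) (T.l 0)))) (T.b (T.a (T.a (T.l 204) (T.a (T.l 204) (T.l 204))) (T.a (T.a (T.l 204) (T.l 204)) (T.l 0))) (T.a (T.a (T.l 204) (T.a (T.l 204) (T.l 204))) (T.a (T.a (T.l 204) (T.l 204)) (T.l 0))))) (T.b (T.b (T.a (T.a (T.l 204) (T.a (T.l 204) (T.l 204))) (T.a (T.a (T.l 204) (T.l 204)) (T.l 0))) (T.a (T.a (T.l 204) (T.a (T.l 204) (T.l 204))) (T.a (T.a (T.l 204) (T.l 204)) (T.l 0)))) (T.b (T.a (T.a (T.l 204) (T.a (T.l 204) (T.l 204))) (T.a (T.a (T.l 204) (T.l 204)) (T.l 0))) (T.a (T.a (T.l 204) (T.a (T.l 204) (T.l 204)))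 (T.a (T.a (T.l 204) (T.l 204)) (T.l 0))))))), by decide +kernel⟩

def B012E_200_1_155_1 :
    ∃ t, chk3 (onCell 0 16777216 0 1073741824 1040187392 5207648 (corW 3 c0B eng mog cB012E gB2q0 gB0q2 gB0q1 gB1q1 dB2q0 dB0q2 dB0q1 dB1q1 true false)) t 1 155 1 = true :=
  ⟨(T.b (T.b (T.b (T.b (T.a (T.a (T.l 204) (T.a (T.l 204) (T.l 204))) (T.a (T.a (T.l 204) (T.l 204)) (T.l 0))) (T.a (T.a (T.l 204) (T.a (T.l 204) (T.l 204))) (T.a (T.a (T.l 204) (T.l 204)) (T.l 0)))) (T.b (T.a (T.a (T.l 204) (T.a (T.l 204) (T.l 204))) (T.a (T.a (T.l 204) (T.l 204)) (T.l 0))) (T.a (T.a (T.l 204) (T.a (T.l 204) (T.l 204))) (T.a (T.a (T.l 204) (T.l 204)) (T.l 0))))) (T.b (T.b (T.a (T.a (T.l 204) (T.a (T.l 204) (T.l 204))) (T.a (T.a (T.l 204) (T.l 204)) (T.l 0))) (T.a (T.a (T.l 204) (T.a (T.l 204) (T.l 204))) (T.a (T.a (T.l 204) (T.l 204)) (T.l 0))))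 (T.b (T.a (T.a (T.l 204) (T.a (T.l 204) (T.l 204))) (T.a (T.a (T.l 204) (T.l 204)) (T.l 0))) (T.a (T.a (T.l 204) (T.a (T.l 204) (T.l 204))) (T.a (T.a (T.l 204) (T.l 204)) (T.l 0)))))) (T.b (T.b (T.b (T.a (T.a (T.l 204) (T.a (T.l 204) (T.l 204))) (T.a (T.a (T.l 204) (T.l 204)) (T.l 0))) (T.a (T.a (T.l 204) (T.a (T.l 204) (T.l 204))) (T.a (T.a (T.l 204) (T.l 204)) (T.l 0)))) (T.b (T.a (T.a (T.l 204) (T.a (T.l 204) (T.l 204))) (T.a (T.a (T.l 204) (T.l 204)) (T.l 0))) (T.a (T.a (T.l 204) (T.a (T.l 204) (T.l 204))) (T.a (T.a (T.l 204) (T.l 204)) (T.l 0))))) (T.b (T.b (T.a (T.a (T.l 204) (T.a (T.l 204) (T.l 204))) (T.a (T.a (T.l 204) (T.l 204)) (T.l 0))) (T.a (T.a (T.l 204) (T.a (T.l 204) (T.l 204))) (T.a (T.a (T.l 204) (T.l 204)) (T.l 0)))) (T.a (T.a (T.l 204) (T.a (T.l 204) (T.l 204))) (T.a (T.a (T.l 204) (T.l 204)) (T.l 0)))))),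 by decide +kernel⟩

def B012E_200_1_78_1 :
    ∃ t, chk3 (onCell 0 16777216 0 1073741824 1040187392 5207648 (corW 3 c0B eng mog cB012E gB2q0 gB0q2 gB0q1 gB1q1 dB2q0 dB0q2 dB0q1 dB1q1 true false)) t 1 78 1 = true :=
  ⟨(T.b (T.b (T.b (T.b (T.a (T.a (T.l 204) (T.a (T.l 204) (T.l 204))) (T.a (T.a (T.l 204) (T.l 204)) (T.l 0))) (T.a (T.a (T.l 204) (T.a (T.l 204) (T.l 204))) (T.a (T.a (T.l 204) (T.l 204)) (T.l 0)))) (T.b (T.a (T.a (T.l 204) (T.a (T.l 204) (T.l 204))) (T.a (T.a (T.l 204) (T.l 204)) (T.l 0))) (T.a (T.a (T.l 204) (T.a (T.l 204) (T.l 204))) (T.a (T.a (T.l 204) (T.l 204)) (T.l 0))))) (T.b (T.b (T.a (T.a (T.l 204) (T.a (T.l 204) (T.l 204))) (T.a (T.a (T.l 204) (T.l 204)) (T.l 0))) (T.a (T.a (T.l 204) (T.a (T.l 204) (T.l 204))) (T.a (T.a (T.l 204) (T.l 204)) (T.l 0)))) (T.b (T.a (T.a (T.l 204) (T.a (T.l 204) (T.l 204)))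 (T.a (T.a (T.l 204) (T.l 204)) (T.l 0))) (T.a (T.a (T.l 204) (T.a (T.l 204) (T.l 204))) (T.a (T.a (T.l 204) (T.l 204)) (T.l 0)))))) (T.b (T.b (T.b (T.a (T.a (T.l 204) (T.a (T.l 204) (T.l 204))) (T.a (T.a (T.l 204) (T.l 204)) (T.l 0))) (T.a (T.a (T.l 204) (T.a (T.l 204) (T.l 204))) (T.a (T.a (T.l 204) (T.l 204)) (T.l 0)))) (T.b (T.a (T.a (T.l 204) (T.a (T.l 204) (T.l 204))) (T.a (T.a (T.l 204) (T.l 204)) (T.l 0))) (T.a (T.a (T.l 204) (T.a (T.l 204) (T.l 204))) (T.a (T.a (T.l 204) (T.l 204)) (T.l 0))))) (T.b (T.b (T.a (T.a (T.l 204) (T.a (T.l 204) (T.l 204))) (T.a (T.a (T.l 204) (T.l 204)) (T.l 0))) (T.a (T.a (T.l 204) (T.a (T.l 204) (T.l 204))) (T.a (T.a (T.l 204) (T.l 204)) (T.l 0)))) (T.b (T.a (T.a (T.l 204) (T.a (T.l 204) (T.l 204))) (T.a (T.a (T.l 204) (T.l 204)) (T.l 0))) (T.a (T.a (T.l 204) (T.a (T.l 204) (T.l 204)))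 (T.a (T.a (T.l 204) (T.l 204)) (T.l 0))))))), by decide +kernel⟩

def B012E_200_1_79_1 :
    ∃ t, chk3 (onCell 0 16777216 0 1073741824 1040187392 5207648 (corW 3 c0B eng mog cB012E gB2q0 gB0q2 gB0q1 gB1q1 dB2q0 dB0q2 dB0q1 dB1q1 true false)) t 1 79 1 = true :=
  ⟨(T.b (T.b (T.b (T.b (T.a (T.a (T.l 204) (T.a (T.l 204) (T.l 204))) (T.a (T.l 512) (T.l 0))) (T.a (T.a (T.l 204) (T.a (T.l 204) (T.l 204))) (T.a (T.l 512) (T.l 0)))) (T.b (T.a (T.a (T.l 204) (T.a (T.l 204) (T.l 204))) (T.a (T.l 512) (T.l 0))) (T.a (T.a (T.l 204) (T.a (T.l 204) (T.l 204))) (T.a (T.l 512) (T.l 0))))) (T.b (T.b (T.a (T.a (T.l 204) (T.a (T.l 204) (T.l 204))) (T.a (T.l 0) (T.l 0))) (T.a (T.a (T.l 204) (T.a (T.l 204) (T.l 204))) (T.a (T.l 0) (T.l 0)))) (T.b (T.a (T.a (T.l 204) (T.a (T.l 204) (T.l 204))) (T.a (T.l 0) (T.l 0))) (T.a (T.a (T.l 204) (T.a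 (T.l 204) (T.l 204))) (T.a (T.l 0) (T.l 0)))))) (T.b (T.b (T.b (T.a (T.a (T.l 204) (T.a (T.l 204) (T.l 204))) (T.a (T.l 0) (T.l 0))) (T.a (T.a (T.l 204) (T.a (T.l 204) (T.l 204))) (T.a (T.l 0) (T.l 0)))) (T.b (T.a (T.a (T.l 204) (T.a (T.l 204) (T.l 204))) (T.a (T.l 0) (T.l 0))) (T.a (T.a (T.l 204) (T.a (T.l 204) (T.l 204))) (T.a (T.l 0) (T.l 0))))) (T.a (T.a (T.l 204) (T.a (T.l 204) (T.l 204))) (T.a (T.l 0) (T.l 0))))), by decide +kernel⟩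

def B012E_200_1_5_1 :
    ∃ t, chk3 (onCell 0 16777216 0 1073741824 1040187392 5207648 (corW 3 c0B eng mog cB012E gB2q0 gB0q2 gB0q1 gB1q1 dB2q0 dB0q2 dB0q1 dB1q1 true false)) t 1 5 1 = true :=
  ⟨(T.b (T.b (T.a (T.a (T.l 204) (T.a (T.l 204) (T.l 204))) (T.a (T.b (T.l 0) (T.l 0)) (T.l 0))) (T.a (T.a (T.l 204) (T.l 0)) (T.a (T.l 0) (T.l 0)))) (T.a (T.a (T.l 0) (T.l 0)) (T.a (T.l 0) (T.l 0)))), by decide +kernel⟩

def B012E_200_1_3_1 :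
    ∃ t, chk3 (onCell 0 16777216 0 1073741824 1040187392 5207648 (corW 3 c0B eng mog cB012E gB2q0 gB0q2 gB0q1 gB1q1 dB2q0 dB0q2 dB0q1 dB1q1 true false)) t 1 3 1 = true :=
  ⟨(T.b (T.a (T.a (T.l 816) (T.l 0)) (T.a (T.b (T.l 0) (T.l 0)) (T.l 0))) (T.a (T.a (T.l 816) (T.a (T.l 816) (T.l 0))) (T.a (T.l 0) (T.l 0)))), by decide +kernel⟩

theorem B012E_200_1_39_1 :
    ∃ t, chk3 (onCell 0 16777216 0 1073741824 1040187392 5207648 (corW 3 c0B eng mog cB012E gB2q0 gB0q2 gB0q1 gB1q1 dB2q0 dB0q2 dB0q1 dB1q1 true false)) t 1 39 1 = true :=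
  ex3_b B012E_200_1_78_1 B012E_200_1_79_1
theorem B012E_200_1_77_1 :
    ∃ t, chk3 (onCell 0 16777216 0 1073741824 1040187392 5207648 (corW 3 c0B eng mog cB012E gB2q0 gB0q2 gB0q1 gB1q1 dB2q0 dB0q2 dB0q1 dB1q1 true false)) t 1 77 1 = true :=
  ex3_b B012E_200_1_154_1 B012E_200_1_155_1
theorem B012E_200_1_153_1 :
    ∃ t, chk3 (onCell 0 16777216 0 1073741824 1040187392 5207648 (corW 3 c0B eng mog cB012E gB2q0 gB0q2 gB0q1 gB1q1 dB2q0 dB0q2 dB0q1 dB1q1 true false)) t 1 153 1 = true :=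
  ex3_b B012E_200_1_306_1 B012E_200_1_307_1
theorem B012E_200_1_152_1 :
    ∃ t, chk3 (onCell 0 16777216 0 1073741824 1040187392 5207648 (corW 3 c0B eng mog cB012E gB2q0 gB0q2 gB0q1 gB1q1 dB2q0 dB0q2 dB0q1 dB1q1 true false)) t 1 152 1 = true :=
  ex3_b B012E_200_1_304_1 B012E_200_1_305_1
theorem B012E_200_1_76_1 :
    ∃ t, chk3 (onCell 0 16777216 0 1073741824 1040187392 5207648 (corW 3 c0B eng mog cB012E gB2q0 gB0q2 gB0q1 gB1q1 dB2q0 dB0q2 dB0q1 dB1q1 true false)) t 1 76 1 = true :=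
  ex3_b B012E_200_1_152_1 B012E_200_1_153_1
theorem B012E_200_1_38_1 :
    ∃ t, chk3 (onCell 0 16777216 0 1073741824 1040187392 5207648 (corW 3 c0B eng mog cB012E gB2q0 gB0q2 gB0q1 gB1q1 dB2q0 dB0q2 dB0q1 dB1q1 true false)) t 1 38 1 = true :=
  ex3_b B012E_200_1_76_1 B012E_200_1_77_1
theorem B012E_200_1_19_1 :
    ∃ t, chk3 (onCell 0 16777216 0 1073741824 1040187392 5207648 (corW 3 c0B eng mog cB012E gB2q0 gB0q2 gB0q1 gB1q1 dB2q0 dB0q2 dB0q1 dB1q1 true false)) t 1 19 1 = true :=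
  ex3_b B012E_200_1_38_1 B012E_200_1_39_1
theorem B012E_200_1_302_1 :
    ∃ t, chk3 (onCell 0 16777216 0 1073741824 1040187392 5207648 (corW 3 c0B eng mog cB012E gB2q0 gB0q2 gB0q1 gB1q1 dB2q0 dB0q2 dB0q1 dB1q1 true false)) t 1 302 1 = true :=
  ex3_b B012E_200_1_604_1 B012E_200_1_605_1
theorem B012E_200_1_151_1 :
    ∃ t, chk3 (onCell 0 16777216 0 1073741824 1040187392 5207648 (corW 3 c0B eng mog cB012E gB2q0 gB0q2 gB0q1 gB1q1 dB2q0 dB0q2 dB0q1 dB1q1 true false)) t 1 151 1 = true :=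
  ex3_b B012E_200_1_302_1 B012E_200_1_303_1
theorem B012E_200_1_603_1 :
    ∃ t, chk3 (onCell 0 16777216 0 1073741824 1040187392 5207648 (corW 3 c0B eng mog cB012E gB2q0 gB0q2 gB0q1 gB1q1 dB2q0 dB0q2 dB0q1 dB1q1 true false)) t 1 603 1 = true :=
  ex3_b B012E_200_1_1206_1 B012E_200_1_1207_1
theorem B012E_200_1_1205_1 :
    ∃ t, chk3 (onCell 0 16777216 0 1073741824 1040187392 5207648 (corW 3 c0B eng mog cB012E gB2q0 gB0q2 gB0q1 gB1q1 dB2q0 dB0q2 dB0q1 dB1q1 true false)) t 1 1205 1 = true :=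
  ex3_b B012E_200_1_2410_1 B012E_200_1_2411_1
theorem B012E_200_1_2408_1 :
    ∃ t, chk3 (onCell 0 16777216 0 1073741824 1040187392 5207648 (corW 3 c0B eng mog cB012E gB2q0 gB0q2 gB0q1 gB1q1 dB2q0 dB0q2 dB0q1 dB1q1 true false)) t 1 2408 1 = true :=
  ex3_a B012E_200_2_2408_1 B012E_200_3_2408_1
theorem B012E_200_1_1204_1 :
    ∃ t, chk3 (onCell 0 16777216 0 1073741824 1040187392 5207648 (corW 3 c0B eng mog cB012E gB2q0 gB0q2 gB0q1 gB1q1 dB2q0 dB0q2 dB0q1 dB1q1 true false)) t 1 1204 1 = true :=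
  ex3_b B012E_200_1_2408_1 B012E_200_1_2409_1
theorem B012E_200_1_602_1 :
    ∃ t, chk3 (onCell 0 16777216 0 1073741824 1040187392 5207648 (corW 3 c0B eng mog cB012E gB2q0 gB0q2 gB0q1 gB1q1 dB2q0 dB0q2 dB0q1 dB1q1 true false)) t 1 602 1 = true :=
  ex3_b B012E_200_1_1204_1 B012E_200_1_1205_1
theorem B012E_200_1_301_1 :
    ∃ t, chk3 (onCell 0 16777216 0 1073741824 1040187392 5207648 (corW 3 c0B eng mog cB012E gB2q0 gB0q2 gB0q1 gB1q1 dB2q0 dB0q2 dB0q1 dB1q1 true false)) t 1 301 1 = true :=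
  ex3_b B012E_200_1_602_1 B012E_200_1_603_1
theorem B012E_200_3_2407_1 :
    ∃ t, chk3 (onCell 0 16777216 0 1073741824 1040187392 5207648 (corW 3 c0B eng mog cB012E gB2q0 gB0q2 gB0q1 gB1q1 dB2q0 dB0q2 dB0q1 dB1q1 true false)) t 3 2407 1 = true :=
  ex3_b B012E_200_3_4814_1 B012E_200_3_4815_1
theorem B012E_200_1_2407_1 :
    ∃ t, chk3 (onCell 0 16777216 0 1073741824 1040187392 5207648 (corW 3 c0B eng mog cB012E gB2q0 gB0q2 gB0q1 gB1q1 dB2q0 dB0q2 dB0q1 dB1q1 true false)) t 1 2407 1 = true :=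
  ex3_a B012E_200_2_2407_1 B012E_200_3_2407_1
theorem B012E_200_3_4812_1 :
    ∃ t, chk3 (onCell 0 16777216 0 1073741824 1040187392 5207648 (corW 3 c0B eng mog cB012E gB2q0 gB0q2 gB0q1 gB1q1 dB2q0 dB0q2 dB0q1 dB1q1 true false)) t 3 4812 1 = true :=
  ex3_a B012E_200_6_4812_1 B012E_200_7_4812_1
theorem B012E_200_3_2406_1 :
    ∃ t, chk3 (onCell 0 16777216 0 1073741824 1040187392 5207648 (corW 3 c0B eng mog cB012E gB2q0 gB0q2 gB0q1 gB1q1 dB2q0 dB0q2 dB0q1 dB1q1 true false)) t 3 2406 1 = true :=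
  ex3_b B012E_200_3_4812_1 B012E_200_3_4813_1
theorem B012E_200_1_2406_1 :
    ∃ t, chk3 (onCell 0 16777216 0 1073741824 1040187392 5207648 (corW 3 c0B eng mog cB012E gB2q0 gB0q2 gB0q1 gB1q1 dB2q0 dB0q2 dB0q1 dB1q1 true false)) t 1 2406 1 = true :=
  ex3_a B012E_200_2_2406_1 B012E_200_3_2406_1
theorem B012E_200_1_1203_1 :
    ∃ t, chk3 (onCell 0 16777216 0 1073741824 1040187392 5207648 (corW 3 c0B eng mog cB012E gB2q0 gB0q2 gB0q1 gB1q1 dB2q0 dB0q2 dB0q1 dB1q1 true false)) t 1 1203 1 = true :=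
  ex3_b B012E_200_1_2406_1 B012E_200_1_2407_1
theorem B012E_200_1_601_1 :
    ∃ t, chk3 (onCell 0 16777216 0 1073741824 1040187392 5207648 (corW 3 c0B eng mog cB012E gB2q0 gB0q2 gB0q1 gB1q1 dB2q0 dB0q2 dB0q1 dB1q1 true false)) t 1 601 1 = true :=
  ex3_b B012E_200_1_1202_1 B012E_200_1_1203_1
theorem B012E_200_1_300_1 :
    ∃ t, chk3 (onCell 0 16777216 0 1073741824 1040187392 5207648 (corW 3 c0B eng mog cB012E gB2q0 gB0q2 gB0q1 gB1q1 dB2q0 dB0q2 dB0q1 dB1q1 true false)) t 1 300 1 = true :=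
  ex3_b B012E_200_1_600_1 B012E_200_1_601_1
theorem B012E_200_1_150_1 :
    ∃ t, chk3 (onCell 0 16777216 0 1073741824 1040187392 5207648 (corW 3 c0B eng mog cB012E gB2q0 gB0q2 gB0q1 gB1q1 dB2q0 dB0q2 dB0q1 dB1q1 true false)) t 1 150 1 = true :=
  ex3_b B012E_200_1_300_1 B012E_200_1_301_1
theorem B012E_200_1_75_1 :
    ∃ t, chk3 (onCell 0 16777216 0 1073741824 1040187392 5207648 (corW 3 c0B eng mog cB012E gB2q0 gB0q2 gB0q1 gB1q1 dB2q0 dB0q2 dB0q1 dB1q1 true false)) t 1 75 1 = true :=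
  ex3_b B012E_200_1_150_1 B012E_200_1_151_1
theorem B012E_200_1_37_1 :
    ∃ t, chk3 (onCell 0 16777216 0 1073741824 1040187392 5207648 (corW 3 c0B eng mog cB012E gB2q0 gB0q2 gB0q1 gB1q1 dB2q0 dB0q2 dB0q1 dB1q1 true false)) t 1 37 1 = true :=
  ex3_b B012E_200_1_74_1 B012E_200_1_75_1
theorem B012E_200_1_18_1 :
    ∃ t, chk3 (onCell 0 16777216 0 1073741824 1040187392 5207648 (corW 3 c0B eng mog cB012E gB2q0 gB0q2 gB0q1 gB1q1 dB2q0 dB0q2 dB0q1 dB1q1 true false)) t 1 18 1 = true :=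
  ex3_b B012E_200_1_36_1 B012E_200_1_37_1
theorem B012E_200_1_9_1 :
    ∃ t, chk3 (onCell 0 16777216 0 1073741824 1040187392 5207648 (corW 3 c0B eng mog cB012E gB2q0 gB0q2 gB0q1 gB1q1 dB2q0 dB0q2 dB0q1 dB1q1 true false)) t 1 9 1 = true :=
  ex3_b B012E_200_1_18_1 B012E_200_1_19_1
theorem B012E_200_1_4_1 :
    ∃ t, chk3 (onCell 0 16777216 0 1073741824 1040187392 5207648 (corW 3 c0B eng mog cB012E gB2q0 gB0q2 gB0q1 gB1q1 dB2q0 dB0q2 dB0q1 dB1q1 true false)) t 1 4 1 = true :=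
  ex3_b B012E_200_1_8_1 B012E_200_1_9_1
theorem B012E_200_1_2_1 :
    ∃ t, chk3 (onCell 0 16777216 0 1073741824 1040187392 5207648 (corW 3 c0B eng mog cB012E gB2q0 gB0q2 gB0q1 gB1q1 dB2q0 dB0q2 dB0q1 dB1q1 true false)) t 1 2 1 = true :=
  ex3_b B012E_200_1_4_1 B012E_200_1_5_1
theorem B012E_200 :
    ∃ t, chk3 (onCell 0 16777216 0 1073741824 1040187392 5207648 (corW 3 c0B eng mog cB012E gB2q0 gB0q2 gB0q1 gB1q1 dB2q0 dB0q2 dB0q1 dB1q1 true false)) t 1 1 1 = true :=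
  ex3_b B012E_200_1_2_1 B012E_200_1_3_1

end Pool.Agent.Strip051.G.I9688_9736.Tab.CW
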