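import Pool.Agent.Strip051.G.I9688_9736.DgP

/-! # The corner (1, 1, 2): certificates of the degenerate charts (generated) -/

set_option linter.all false

namespace Pool.Agent.Strip051.G.I9688_9736.Tab.DG

open Pool.Agent.Strip051.PB Pool.Agent.Strip051.PB.Dg Pool.Agent.StripNear Pool.Agent.Strip051.LC

theorem cFA2 : ∃ t, chk3 (onCell 0 41095619 0 1073741824 1040187392 5207648 (fdAx false pF (ndUL pF ndF2) (ndUR ndF3) (thLo (ndUL pF ndF2) (ndUR ndF3)))) t 1 1 1 = true :=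
  ⟨(T.b (T.b (T.b (T.b (T.a (T.c (T.b (T.l 0) (T.b (T.l 0) (T.l 3))) (T.b (T.l 0) (T.b (T.l 0) (T.l 3)))) (T.b (T.c (T.l 0) (T.c (T.l 0) (T.l 0))) (T.a (T.l 0) (T.l 0)))) (T.l 3)) (T.l 3)) (T.l 3)) (T.l 3)), by decide +kernel⟩
theorem cFA3 : ∃ t, chk3 (onCell 0 41095619 0 1073741824 1040187392 5207648 (fdAx false pF (ndUR ndF3) (ndUR ndF4) (thLo (ndUR ndF3) (ndUR ndF4)))) t 1 1 1 = true :=
  ⟨(T.a (T.b (T.b (T.b (T.b (T.c (T.l 0) (T.l 0)) (T.a (T.c (T.l 0) (T.l 0)) (T.l 0))) (T.b (T.a (T.c (T.l 0) (T.a (T.l 0) (T.l 0))) (T.l 0)) (T.c (T.a (T.l 0) (T.l 0)) (T.b (T.l 0) (T.l 0))))) (T.b (T.b (T.c (T.a (T.l 0) (T.l 0)) (T.b (T.l 0) (T.l 0))) (T.c (T.l 0) (T.a (T.l 0) (T.l 0)))) (T.b (T.c (T.l 0) (T.l 0)) (T.b (T.l 0) (T.l 0))))) (T.b (T.b (T.b (T.a (T.l 0) (T.l 0)) (T.l 0)) (T.b (T.b (T.l 0) (T.l 0)) (T.b (T.b (T.l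 0) (T.l 3)) (T.l 3)))) (T.l 3))) (T.b (T.b (T.b (T.b (T.b (T.l 2) (T.l 0)) (T.l 0)) (T.b (T.l 0) (T.l 0))) (T.b (T.b (T.l 0) (T.a (T.l 0) (T.l 0))) (T.b (T.a (T.l 0) (T.l 0)) (T.l 0)))) (T.b (T.a (T.b (T.b (T.l 0) (T.l 0)) (T.b (T.l 0) (T.b (T.l 0) (T.l 3)))) (T.b (T.b (T.l 0) (T.a (T.l 0) (T.l 0))) (T.b (T.a (T.l 0) (T.b (T.l 0) (T.l 0))) (T.b (T.a (T.a (T.l 0) (T.l 0)) (T.c (T.l 0) (T.a (T.l 0) (T.l 0)))) (T.l 3))))) (T.l 3)))), by decide +kernel⟩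
theorem cFA4 : ∃ t, chk3 (onCell 0 41095619 0 1073741824 1040187392 5207648 (fdAx true pF (ndUR ndF4) (dgSC pF) (thUp (ndUR ndF4) (dgSC pF)))) t 1 1 1 = true :=
  ⟨(T.a (T.b (T.l 2) (T.b (T.b (T.l 2) (T.b (T.l 2) (T.l 1088))) (T.l 349520))) (T.a (T.b (T.l 2) (T.a (T.a (T.b (T.b (T.l 2) (T.l 279616)) (T.l 349520)) (T.b (T.b (T.l 2) (T.a (T.l 279616) (T.l 279616))) (T.l 349520))) (T.a (T.b (T.b (T.l 2) (T.b (T.l 2) (T.l 17472))) (T.a (T.l 349520) (T.l 349520))) (T.b (T.b (T.l 2) (T.c (T.l 17472) (T.a (T.l 17472) (T.l 17472)))) (T.c (T.l 349520) (T.l 357712)))))) (T.a (T.b (T.l 2) (T.a (T.b (T.b (T.l 2) (T.c (T.l 279616) (T.a (T.l 17472) (T.l 17472)))) (T.c (T.l 349520) (T.a (T.l 349520) (T.l 349520)))) (T.b (T.b (T.l 2) (T.b (T.l 2) (T.c (T.l 1088) (T.l 17472)))) (T.b (T.a (T.l 279616) (T.l 279616)) (T.l 349520)))))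 (T.b (T.l 2) (T.a (T.b (T.b (T.l 2) (T.b (T.l 2) (T.c (T.l 1088) (T.l 17504)))) (T.a (T.l 349520) (T.l 349520))) (T.b (T.b (T.l 2) (T.b (T.l 2) (T.a (T.l 279616) (T.a (T.l 17472) (T.l 17472))))) (T.a (T.l 349520) (T.a (T.l 349520) (T.l 349520))))))))), by decide +kernel⟩
theorem cFB3 : ∃ t, chk3 (onCell 0 41095619 0 2684354560 1040187392 5207648 (fdB true false pF (ndUR ndF3))) t 1 1 1 = true :=
  ⟨(T.b (T.b (T.b (T.b (T.b (T.c (T.a (T.l 0) (T.l 0)) (T.l 0)) (T.l 4)) (T.l 4)) (T.l 4)) (T.l 4)) (T.l 4)), by decide +kernel⟩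
theorem cFB4 : ∃ t, chk3 (onCell 0 41095619 0 2684354560 1040187392 5207648 (fdB true false pF (ndUR ndF4))) t 1 1 1 = true :=
  ⟨(T.b (T.b (T.l 2) (T.b (T.a (T.b (T.b (T.c (T.l 0) (T.a (T.l 0) (T.l 0))) (T.b (T.b (T.c (T.l 0) (T.l 0)) (T.l 544)) (T.l 544))) (T.l 139944)) (T.b (T.b (T.a (T.b (T.l 2) (T.l 0)) (T.l 2)) (T.b (T.b (T.a (T.a (T.l 0) (T.l 0)) (T.b (T.a (T.l 0) (T.a (T.l 0) (T.l 0))) (T.l 544))) (T.l 174760)) (T.l 174760))) (T.l 174760))) (T.l 4))) (T.l 4)), by decide +kernel⟩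
theorem cFB5 : ∃ t, chk3 (onCell 0 41095619 0 2684354560 1040187392 5207648 (fdB true true pF (dgSC pF))) t 1 1 1 = true :=
  ⟨(T.b (T.b (T.l 2) (T.b (T.l 2) (T.a (T.a (T.l 349520) (T.l 349520)) (T.a (T.l 349520) (T.l 349520))))) (T.l 4)), by decide +kernel⟩
theorem cFP3 : ∃ t, chk3 (onCell 0 41095619 0 1073741824 1040187392 5207648 (fdP true false pF (ndUR ndF3))) t 1 1 1 = true :=
  ⟨(T.b (T.b (T.b (T.b (T.c (T.l 0) (T.l 0)) (T.l 2)) (T.l 2)) (T.l 2)) (T.l 2)), by decide +kernel⟩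
theorem cFP4 : ∃ t, chk3 (onCell 0 41095619 0 1073741824 1040187392 5207648 (fdP true false pF (ndUR ndF4))) t 1 1 1 = true :=
  ⟨(T.a (T.b (T.l 139808) (T.b (T.b (T.l 139264) (T.b (T.l 131072) (T.b (T.b (T.l 0) (T.l 2)) (T.l 2)))) (T.l 2))) (T.b (T.l 139808) (T.b (T.b (T.l 139808) (T.a (T.b (T.l 0) (T.b (T.a (T.l 0) (T.l 0)) (T.l 2))) (T.b (T.l 139808) (T.b (T.b (T.l 139808) (T.b (T.a (T.l 0) (T.a (T.l 0) (T.l 0))) (T.l 2))) (T.l 2))))) (T.l 2)))), by decide +kernel⟩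
theorem cFP5 : ∃ t, chk3 (onCell 0 41095619 0 1073741824 1040187392 5207648 (fdP true true pF (dgSC pF))) t 1 1 1 = true :=
  ⟨(T.a (T.l 349520) (T.l 349520)), by decide +kernel⟩
theorem cFC1 : ∃ t, chk3 (onCell 0 41095619 0 1073741824 1040187392 5207648 (fdU pF ndF2 (thLo (ndUL pF ndF2) (ndUR ndF3)) cvF1 (ndUR ndF3))) t 1 1 1 = true :=
  ⟨(T.b (T.b (T.b (T.a (T.l 0) (T.l 0)) (T.l 1)) (T.l 1)) (T.l 1)), by decide +kernel⟩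
theorem cFC2 : ∃ t, chk3 (onCell 0 41095619 0 1073741824 1040187392 5207648 (fdU pF ndF2 (thLo (ndUL pF ndF2) (ndUR ndF3)) cvF2 (ndUR ndF3))) t 1 1 1 = true :=
  ⟨(T.b (T.b (T.b (T.a (T.l 0) (T.a (T.l 0) (T.l 0))) (T.l 1)) (T.l 1)) (T.l 1)), by decide +kernel⟩
theorem cNA2 : ∃ t, chk3 (onCell 0 41095619 0 1073741824 1040187392 5207648 (fdAW pN qN (ndUL pN ndN2) (ndUR ndN3) (thLo (ndUL pN ndN2) (ndUR ndN3)) (tuLo (ndUL pN ndN2) (ndUR ndN3) (suL qN ndN2) (suR ndN3)))) t 1 1 1 = true :=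
  ⟨(T.b (T.b (T.b (T.b (T.a (T.b (T.b (T.a (T.c (T.l 0) (T.l 0)) (T.c (T.l 0) (T.a (T.l 0) (T.l 0)))) (T.a (T.a (T.l 8224) (T.l 8224)) (T.b (T.l 8224) (T.l 0)))) (T.b (T.a (T.l 8192) (T.l 8192)) (T.l 3))) (T.b (T.b (T.b (T.l 1) (T.c (T.a (T.l 0) (T.l 0)) (T.c (T.l 0) (T.l 0)))) (T.c (T.l 0) (T.l 0))) (T.c (T.l 0) (T.l 0)))) (T.l 3)) (T.l 3)) (T.l 3)) (T.l 3)), by decide +kernel⟩
theorem cNA3 : ∃ t, chk3 (onCell 0 41095619 0 1073741824 1040187392 5207648 (fdAW pN qN (ndUR ndN3) (ndUR ndN4) (thLo (ndUR ndN3) (ndUR ndN4)) (tuLo (ndUR ndN3) (ndUR ndN4) (suR ndN3) (suR ndN4)))) t 1 1 1 = true :=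
  ⟨(T.a (T.a (T.b (T.b (T.b (T.b (T.b (T.l 2) (T.l 8192)) (T.l 8192)) (T.l 8224)) (T.l 139808)) (T.l 174760)) (T.a (T.b (T.b (T.b (T.b (T.l 0) (T.l 0)) (T.l 8224)) (T.l 139808)) (T.l 174760)) (T.b (T.b (T.b (T.b (T.l 0) (T.l 0)) (T.l 8224)) (T.l 139808)) (T.b (T.l 139808) (T.l 3))))) (T.a (T.b (T.b (T.b (T.b (T.l 0) (T.l 0)) (T.l 8224)) (T.l 139808)) (T.b (T.a (T.l 139808) (T.l 139808)) (T.l 3))) (T.b (T.b (T.b (T.b (T.l 0) (T.l 0)) (T.l 8224)) (T.b (T.l 8224) (T.l 139808))) (T.b (T.a (T.l 139808) (T.a (T.l 139808) (T.l 139808))) (T.l 3))))), by decide +kernel⟩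
theorem cNA4 : ∃ t, chk3 (onCell 0 41095619 0 1073741824 1040187392 5207648 (fdAW pN qN (ndUR ndN4) (dgSC pN) (thUp (ndUR ndN4) (dgSC pN)) (tuUp (ndUR ndN4) (dgSC pN) (suR ndN4) (suC qN)))) t 1 1 1 = true :=
  ⟨(T.b (T.l 2) (T.a (T.a (T.l 174760) (T.a (T.l 174760) (T.b (T.l 139808) (T.l 174760)))) (T.a (T.a (T.b (T.a (T.l 139808) (T.l 139808)) (T.l 174760)) (T.b (T.l 139808) (T.a (T.l 174760) (T.l 174760)))) (T.a (T.b (T.a (T.l 139808) (T.l 139808)) (T.a (T.l 174760) (T.l 174760))) (T.b (T.b (T.l 2) (T.a (T.l 139808) (T.l 139808))) (T.b (T.l 174760) (T.a (T.l 174760) (T.l 174760)))))))), by decide +kernel⟩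
theorem cNB3 : ∃ t, chk3 (onCell 0 41095619 0 2684354560 1040187392 5207648 (fdBW pN qN (ndUR ndN3) (suR ndN3))) t 1 1 1 = true :=
  ⟨(T.b (T.b (T.b (T.b (T.b (T.a (T.c (T.l 0) (T.l 0)) (T.l 0)) (T.l 4)) (T.l 4)) (T.l 4)) (T.l 4)) (T.l 4)), by decide +kernel⟩
theorem cNB4 : ∃ t, chk3 (onCell 0 41095619 0 2684354560 1040187392 5207648 (fdBW pN qN (ndUR ndN4) (suR ndN4))) t 1 1 1 = true :=
  ⟨(T.b (T.b (T.l 2) (T.b (T.a (T.a (T.b (T.b (T.l 0) (T.l 0)) (T.l 544)) (T.b (T.b (T.l 0) (T.l 0)) (T.l 174760))) (T.a (T.b (T.b (T.a (T.l 0) (T.l 2)) (T.l 139944)) (T.l 174760)) (T.b (T.b (T.l 2) (T.a (T.l 139808) (T.l 139808))) (T.l 174760)))) (T.l 4))) (T.l 4)), by decide +kernel⟩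
theorem cNB5 : ∃ t, chk3 (onCell 0 41095619 0 2684354560 1040187392 5207648 (fdBW pN qN (dgSC pN) (suC qN))) t 1 1 1 = true :=
  ⟨(T.b (T.b (T.l 2) (T.b (T.l 2) (T.a (T.a (T.b (T.b (T.l 0) (T.l 34952)) (T.l 34952)) (T.b (T.b (T.a (T.l 0) (T.b (T.l 2) (T.a (T.l 0) (T.a (T.l 0) (T.l 0))))) (T.a (T.l 34952) (T.l 174760))) (T.a (T.l 34952) (T.l 174760)))) (T.c (T.a (T.b (T.b (T.a (T.b (T.l 2) (T.a (T.l 0) (T.l 0))) (T.b (T.l 2) (T.a (T.b (T.l 2) (T.l 174760)) (T.b (T.l 2) (T.l 174760))))) (T.a (T.l 174760) (T.l 174760))) (T.l 174760)) (T.c (T.b (T.b (T.a (T.b (T.l 2) (T.a (T.b (T.l 2) (T.l 174760)) (T.b (T.l 2) (T.l 174760)))) (T.b (T.l 2) (T.a (T.b (T.l 2) (T.l 174760)) (T.b (T.l 2) (T.l 174760))))) (T.a (T.l 174760) (T.l 174760))) (T.l 174760)) (T.b (T.b (T.a (T.b (T.l 2) (T.a (T.b (T.l 2) (T.l 174760)) (T.b (T.l 2)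 (T.l 174760)))) (T.b (T.l 2) (T.a (T.b (T.l 2) (T.l 174760)) (T.b (T.l 2) (T.l 174760))))) (T.a (T.l 174760) (T.l 174760))) (T.l 174760)))) (T.a (T.b (T.b (T.a (T.a (T.a (T.l 0) (T.l 0)) (T.l 0)) (T.b (T.l 2) (T.a (T.a (T.l 0) (T.l 0)) (T.b (T.l 2) (T.l 174760))))) (T.a (T.l 174760) (T.l 174760))) (T.l 174760)) (T.c (T.b (T.b (T.a (T.b (T.l 2) (T.a (T.b (T.l 2) (T.l 174760)) (T.b (T.l 2) (T.l 174760)))) (T.b (T.l 2) (T.a (T.b (T.l 2) (T.l 174760)) (T.b (T.l 2) (T.l 174760))))) (T.a (T.l 174760) (T.l 174760))) (T.l 174760)) (T.b (T.b (T.a (T.b (T.l 2) (T.a (T.b (T.l 2) (T.l 174760)) (T.b (T.l 2) (T.l 174760)))) (T.b (T.l 2) (T.a (T.b (T.l 2) (T.l 174760)) (T.b (T.l 2) (T.l 174760))))) (T.a (T.l 174760) (T.l 174760))) (T.l 174760)))))))) (T.l 4)), by decide +kernel⟩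
theorem cNP3 : ∃ t, chk3 (onCell 0 41095619 0 1073741824 1040187392 5207648 (fdPW pN qN (ndUR ndN3) (suR ndN3))) t 1 1 1 = true :=
  ⟨(T.b (T.b (T.b (T.b (T.c (T.l 0) (T.l 0)) (T.l 2)) (T.l 2)) (T.l 2)) (T.l 2)), by decide +kernel⟩
theorem cNP4 : ∃ t, chk3 (onCell 0 41095619 0 1073741824 1040187392 5207648 (fdPW pN qN (ndUR ndN4) (suR ndN4))) t 1 1 1 = true :=
  ⟨(T.a (T.a (T.b (T.l 139808) (T.b (T.b (T.l 139264) (T.l 0)) (T.l 2))) (T.b (T.l 139808) (T.b (T.b (T.l 139264) (T.l 0)) (T.l 2)))) (T.b (T.l 174760) (T.b (T.a (T.b (T.l 139808) (T.b (T.l 139808) (T.b (T.a (T.l 0) (T.l 0)) (T.l 2)))) (T.b (T.l 139808) (T.b (T.l 174760) (T.b (T.a (T.l 0) (T.a (T.l 0) (T.a (T.l 0) (T.l 0)))) (T.l 2))))) (T.l 2)))), by decide +kernel⟩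
theorem cNP5 : ∃ t, chk3 (onCell 0 41095619 0 1073741824 1040187392 5207648 (fdPW pN qN (dgSC pN) (suC qN))) t 1 1 1 = true :=
  ⟨(T.a (T.a (T.b (T.l 139808) (T.b (T.l 139264) (T.l 139808))) (T.b (T.l 139808) (T.b (T.l 139264) (T.a (T.l 139808) (T.a (T.l 139808) (T.l 174760)))))) (T.a (T.b (T.l 139808) (T.b (T.l 174760) (T.b (T.l 174760) (T.a (T.l 174760) (T.a (T.l 174760) (T.l 174760)))))) (T.b (T.l 174760) (T.b (T.l 174760) (T.b (T.l 174760) (T.b (T.l 174760) (T.a (T.l 174760) (T.l 174760)))))))), by decide +kernel⟩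
theorem cNC1 : ∃ t, chk3 (onCell 0 41095619 0 1073741824 1040187392 5207648 (fdCW pN qN ndN2 (thLo (ndUL pN ndN2) (ndUR ndN3)) (tuLo (ndUL pN ndN2) (ndUR ndN3) (suL qN ndN2) (suR ndN3)) cvN1 cFsDD1 (ndUR ndN3))) t 1 1 1 = true :=
  ⟨(T.b (T.b (T.b (T.a (T.b (T.c (T.l 0) (T.l 0)) (T.l 1)) (T.b (T.c (T.l 0) (T.l 0)) (T.l 1))) (T.l 1)) (T.l 1)) (T.l 1)), by decide +kernel⟩
theorem cNC2 : ∃ t, chk3 (onCell 0 41095619 0 1073741824 1040187392 5207648 (fdCW pN qN ndN2 (thLo (ndUL pN ndN2) (ndUR ndN3)) (tuLo (ndUL pN ndN2) (ndUR ndN3) (suL qN ndN2) (suR ndN3)) cvN2 cFsDD2 (ndUR ndN3))) t 1 1 1 = true :=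
  ⟨(T.b (T.b (T.b (T.b (T.b (T.b (T.a (T.c (T.l 0) (T.l 0)) (T.c (T.l 0) (T.l 0))) (T.l 8224)) (T.l 1)) (T.l 1)) (T.l 1)) (T.l 1)) (T.l 1)), by decide +kernel⟩

end Pool.Agent.Strip051.G.I9688_9736.Tab.DG
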