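import Pool.Agent.Strip051.PB.Cuts
import Pool.Agent.Strip051.PB.WinG

/-! # Tables I9688_9736 (generated) -/

namespace Pool.Agent.Strip051.G.I9688_9736.Tab

open Pool.Agent.Strip051.PB

noncomputable def c1g : Fn1 := ⟨_, _, fun h1 => (enc_sqrtg (enc_sub (enc_pnc _ 1) (enc_scaleT 3 4 (enc_sq h1))))⟩
noncomputable def kcg_3 : Fn2 := ⟨_, _, fun h1 h2 => (enc_subr 38847 40000 h2)⟩
noncomputable def kcg_6 : Fn2 := ⟨_, _, fun h1 h2 => (enc_add h1 (enc_rat _ 781 1742))⟩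
noncomputable def kcg_9 : Fn2 := ⟨_, _, fun h1 h2 => (enc_add h1 (enc_rat _ 481 1000))⟩
noncomputable def kcg_12 : Fn2 := ⟨_, _, fun h1 h2 => (enc_add h1 (enc_rat _ 61 125))⟩
noncomputable def kcg_13 : Fn2 := ⟨_, _, fun h1 h2 => (enc_scaleT 8426259229 750000000 h1)⟩
noncomputable def kcg_18 : Fn2 := ⟨_, _, fun h1 h2 => (enc_scaleT 4562503 75000 h1)⟩
noncomputable def kcg_31 : Fn2 := ⟨_, _, fun h1 h2 => (enc_subr 130929 2500000 (enc_neg (enc_scaleT 153 250 (kcg_3.enc h1 h2))))⟩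
noncomputable def kcg_34 : Fn2 := ⟨_, _, fun h1 h2 => (enc_add h1 (enc_rat _ 1 2))⟩
noncomputable def kcg_35 : Fn2 := ⟨_, _, fun h1 h2 => (enc_sub (enc_neg (enc_rat _ 61 125)) h1)⟩
noncomputable def kcg_40 : Fn2 := ⟨_, _, fun h1 h2 => (enc_scaleT 78602377237 7000000000 h1)⟩
noncomputable def kcg_45 : Fn2 := ⟨_, _, fun h1 h2 => (enc_scaleT 42503109 700000 h1)⟩
noncomputable def kcg_58 : Fn2 := ⟨_, _, fun h1 h2 => (enc_subr 7817697 10000000 (enc_neg (enc_scaleT 15329 1000 (kcg_3.enc h1 h2))))⟩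
noncomputable def kcg_59 : Fn2 := ⟨_, _, fun h1 h2 => (enc_sub (enc_neg (enc_rat _ 481 1000)) h1)⟩
noncomputable def kcg_67 : Fn2 := ⟨_, _, fun h1 h2 => (enc_add h1 (enc_rat _ 541 1141))⟩
noncomputable def kcg_68 : Fn2 := ⟨_, _, fun h1 h2 => (enc_scaleT 54499244488829 7821000000000 h1)⟩
noncomputable def kcg_73 : Fn2 := ⟨_, _, fun h1 h2 => (enc_scaleT 42490649453 782100000 h1)⟩
noncomputable def kcg_86 : Fn2 := ⟨_, _, fun h1 h2 => (enc_subr 124155183 200000 (enc_neg (enc_scaleT 18331 20 (kcg_3.enc h1 h2))))⟩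
noncomputable def kcg_87 : Fn2 := ⟨_, _, fun h1 h2 => (enc_sub (enc_neg (enc_rat _ 541 1141)) h1)⟩
noncomputable def kcg_92 : Fn2 := ⟨_, _, fun h1 h2 => (enc_scaleT 61463285588617367 6412625000000000 h1)⟩
noncomputable def kcg_95 : Fn2 := ⟨_, _, fun h1 h2 => (enc_scaleT 15276833871481 641262500000 h1)⟩
noncomputable def kcg_108 : Fn2 := ⟨_, _, fun h1 h2 => (enc_subr 4764750381 10000000 (enc_neg (enc_scaleT 938517 1000 (kcg_3.enc h1 h2))))⟩
noncomputable def kcg_109 : Fn2 := ⟨_, _, fun h1 h2 => (enc_sub (enc_neg (enc_rat _ 781 1742)) h1)⟩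
noncomputable def kcg_118 : Fn2 := ⟨_, _, fun h1 h2 => (enc_add h1 (enc_rat _ 41 100))⟩
noncomputable def kcg_121 : Fn2 := ⟨_, _, fun h1 h2 => (enc_add h1 (enc_rat _ 43 100))⟩
noncomputable def kcg_122 : Fn2 := ⟨_, _, fun h1 h2 => (enc_scaleT 3396080746981 199625000000 h1)⟩
noncomputable def kcg_125 : Fn2 := ⟨_, _, fun h1 h2 => (enc_scaleT 11346517 19962500 h1)⟩
noncomputable def kcg_135 : Fn2 := ⟨_, _, fun h1 h2 => (enc_sub (enc_rat _ 332035647 1250000) (enc_scaleT 1146 125 (kcg_3.enc h1 h2)))⟩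
noncomputable def kcg_136 : Fn2 := ⟨_, _, fun h1 h2 => (enc_sub (enc_neg (enc_rat _ 43 100)) h1)⟩
noncomputable def kcg_141 : Fn2 := ⟨_, _, fun h1 h2 => (enc_scaleT 6832661577 1000000000 h1)⟩
noncomputable def kcg_144 : Fn2 := ⟨_, _, fun h1 h2 => (enc_scaleT 77489 100000 h1)⟩
noncomputable def kcg_154 : Fn2 := ⟨_, _, fun h1 h2 => (enc_sub (enc_rat _ 2654637447 10000000) (enc_scaleT 1921 1000 (kcg_3.enc h1 h2)))⟩
noncomputable def kcg_155 : Fn2 := ⟨_, _, fun h1 h2 => (enc_sub (enc_neg (enc_rat _ 41 100)) h1)⟩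
noncomputable def kcg_163 : Fn2 := ⟨_, _, fun h1 h2 => (enc_add h1 (enc_rat _ 3 10))⟩
noncomputable def kcg_164 : Fn2 := ⟨_, _, fun h1 h2 => (enc_scaleT 152182953 100000000 h1)⟩
noncomputable def kcg_167 : Fn2 := ⟨_, _, fun h1 h2 => (enc_scaleT 7121 10000 h1)⟩
noncomputable def kcg_175 : Fn2 := ⟨_, _, fun h1 h2 => (enc_add (enc_scaleT 23 25 (kcg_3.enc h1 h2)) (enc_rat _ 3539 250000))⟩
noncomputable def kcg_176 : Fn2 := ⟨_, _, fun h1 h2 => (enc_sub (enc_neg (enc_rat _ 3 10)) h1)⟩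
noncomputable def kcg_184 : Fn2 := ⟨_, _, fun h1 h2 => (enc_scaleT 151977367 100000000 h1)⟩
noncomputable def kcg_187 : Fn2 := ⟨_, _, fun h1 h2 => (enc_scaleT 3519 10000 h1)⟩
noncomputable def kcg_195 : Fn2 := ⟨_, _, fun h1 h2 => (enc_add (enc_scaleT 259 200 (kcg_3.enc h1 h2)) (enc_rat _ 4987 2000000))⟩
noncomputable def kcg_196 : Fn2 := ⟨_, _, fun h1 h2 => (enc_sub (enc_neg (enc_rat _ 1 10)) h1)⟩
noncomputable def kcg_201 : Fn2 := ⟨_, _, fun h1 h2 => (enc_scaleT 151927497 100000000 h1)⟩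
noncomputable def kcg_204 : Fn2 := ⟨_, _, fun h1 h2 => (enc_mul (enc_norm (kcg_3.enc h1 h2)) (enc_scaleT 929 10000 h1))⟩
noncomputable def kcg_211 : Fn2 := ⟨_, _, fun h1 h2 => (enc_sub (enc_rat _ 781 1742) h1)⟩
noncomputable def kcg_212 : Fn2 := ⟨_, _, fun h1 h2 => (enc_sub (enc_rat _ 481 1000) h1)⟩
noncomputable def kcg_213 : Fn2 := ⟨_, _, fun h1 h2 => (enc_sub (enc_rat _ 61 125) h1)⟩
noncomputable def kcg_218 : Fn2 := ⟨_, _, fun h1 h2 => (enc_sub (enc_rat _ 1 2) h1)⟩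
noncomputable def kcg_219 : Fn2 := ⟨_, _, fun h1 h2 => (enc_subr 61 125 h1)⟩
noncomputable def kcg_228 : Fn2 := ⟨_, _, fun h1 h2 => (enc_subr 481 1000 h1)⟩
noncomputable def kcg_234 : Fn2 := ⟨_, _, fun h1 h2 => (enc_sub (enc_rat _ 541 1141) h1)⟩
noncomputable def kcg_239 : Fn2 := ⟨_, _, fun h1 h2 => (enc_subr 541 1141 h1)⟩
noncomputable def kcg_249 : Fn2 := ⟨_, _, fun h1 h2 => (enc_subr 781 1742 h1)⟩
noncomputable def kcg_256 : Fn2 := ⟨_, _, fun h1 h2 => (enc_sub (enc_rat _ 41 100) h1)⟩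
noncomputable def kcg_257 : Fn2 := ⟨_, _, fun h1 h2 => (enc_sub (enc_rat _ 43 100) h1)⟩
noncomputable def kcg_264 : Fn2 := ⟨_, _, fun h1 h2 => (enc_subr 43 100 h1)⟩
noncomputable def kcg_275 : Fn2 := ⟨_, _, fun h1 h2 => (enc_subr 41 100 h1)⟩
noncomputable def kcg_281 : Fn2 := ⟨_, _, fun h1 h2 => (enc_sub (enc_rat _ 3 10) h1)⟩
noncomputable def kcg_288 : Fn2 := ⟨_, _, fun h1 h2 => (enc_subr 3 10 h1)⟩
noncomputable def kcg_300 : Fn2 := ⟨_, _, fun h1 h2 => (enc_subr 1 10 h1)⟩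
noncomputable def kcg : Fn2 := ⟨_, _, fun h1 h2 => (enc_norm (enc_case h1 (enc_case (kcg_6.enc h1 h2) (enc_case (kcg_9.enc h1 h2) (enc_case (kcg_12.enc h1 h2) (enc_add (enc_add (enc_subr 10013347257757 1500000000000 (enc_neg (kcg_13.enc h1 h2))) (enc_mul (enc_norm (kcg_3.enc h1 h2)) (enc_norm (enc_subr 4268744749 150000000 (enc_neg (kcg_18.enc h1 h2)))))) (enc_mA (enc_mul (enc_norm (kcg_31.enc h1 h2)) (enc_norm (enc_mul (enc_norm (kcg_34.enc h1 h2)) (enc_norm (kcg_35.enc h1 h2))))) (kcg_31.enc h1 h2) (kcg_34.enc h1 h2) (kcg_35.enc h1 h2) rfl)) (enc_add (enc_add (enc_subr 4670811192617 700000000000 (enc_neg (kcg_40.enc h1 h2))) (enc_mul (enc_norm (kcg_3.enc h1 h2)) (enc_norm (enc_subr 1988164569 70000000 (enc_neg (kcg_45.enc h1 h2)))))) (enc_mA (enc_mul (enc_norm (kcg_58.enc h1 h2)) (enc_norm (enc_mul (enc_norm (kcg_12.enc h1 h2)) (enc_norm (kcg_59.enc h1 h2))))) (kcg_58.enc h1 h2) (kcg_12.enc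 h1 h2) (kcg_59.enc h1 h2) rfl))) (enc_case (kcg_67.enc h1 h2) (enc_add (enc_add (enc_subr 9039597787079117 1955250000000000 (enc_neg (kcg_68.enc h1 h2))) (enc_mul (enc_norm (kcg_3.enc h1 h2)) (enc_norm (enc_subr 4952424264269 195525000000 (enc_neg (kcg_73.enc h1 h2)))))) (enc_mA (enc_mul (enc_norm (kcg_86.enc h1 h2)) (enc_norm (enc_mul (enc_norm (kcg_9.enc h1 h2)) (enc_norm (kcg_87.enc h1 h2))))) (kcg_86.enc h1 h2) (kcg_9.enc h1 h2) (kcg_87.enc h1 h2) rfl)) (enc_add (enc_add (enc_add (kcg_92.enc h1 h2) (enc_rat _ 41365423394698507 12825250000000000)) (enc_mul (enc_norm (kcg_3.enc h1 h2)) (enc_norm (enc_subr 13934168680501 1282525000000 (enc_neg (kcg_95.enc h1 h2)))))) (enc_mA (enc_mul (enc_norm (kcg_108.enc h1 h2)) (enc_norm (enc_mul (enc_norm (kcg_67.enc h1 h2)) (enc_norm (kcg_109.enc h1 h2))))) (kcg_108.enc h1 h2) (kcg_67.enc h1 h2) (kcg_109.enc h1 h2) rfl)))) (enc_case (kcg_118.enc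 h1 h2) (enc_case (kcg_121.enc h1 h2) (enc_add (enc_add (enc_add (kcg_122.enc h1 h2) (enc_rat _ 261722471060079 39925000000000)) (enc_mul (enc_norm (kcg_3.enc h1 h2)) (enc_norm (enc_add (kcg_125.enc h1 h2) (enc_rat _ 283106503 3992500000))))) (enc_mA (enc_mul (enc_norm (kcg_135.enc h1 h2)) (enc_norm (enc_mul (enc_norm (kcg_6.enc h1 h2)) (enc_norm (kcg_136.enc h1 h2))))) (kcg_135.enc h1 h2) (kcg_6.enc h1 h2) (kcg_136.enc h1 h2) rfl)) (enc_add (enc_add (enc_add (kcg_141.enc h1 h2) (enc_rat _ 217810776727 100000000000)) (enc_mul (enc_norm (kcg_3.enc h1 h2)) (enc_norm (enc_add (kcg_144.enc h1 h2) (enc_rat _ 1597039 10000000))))) (enc_mA (enc_mul (enc_norm (kcg_154.enc h1 h2)) (enc_norm (enc_mul (enc_norm (kcg_121.enc h1 h2)) (enc_norm (kcg_155.enc h1 h2))))) (kcg_154.enc h1 h2) (kcg_121.enc h1 h2) (kcg_155.enc h1 h2) rfl))) (enc_case (kcg_163.enc h1 h2) (enc_add (enc_add (enc_add (kcg_164.enc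 h1 h2) (enc_rat _ 166657 250000000)) (enc_mul (enc_norm (kcg_3.enc h1 h2)) (enc_norm (enc_add (kcg_167.enc h1 h2) (enc_rat _ 3349 25000))))) (enc_mA (enc_mul (enc_norm (kcg_175.enc h1 h2)) (enc_norm (enc_mul (enc_norm (kcg_118.enc h1 h2)) (enc_norm (kcg_176.enc h1 h2))))) (kcg_175.enc h1 h2) (kcg_118.enc h1 h2) (kcg_176.enc h1 h2) rfl)) (enc_case (enc_add h1 (enc_rat _ 1 10)) (enc_add (enc_add (enc_add (kcg_184.enc h1 h2) (enc_rat _ 4987 100000000)) (enc_mul (enc_norm (kcg_3.enc h1 h2)) (enc_norm (enc_add (kcg_187.enc h1 h2) (enc_rat _ 259 10000))))) (enc_mA (enc_mul (enc_norm (kcg_195.enc h1 h2)) (enc_norm (enc_mul (enc_norm (kcg_163.enc h1 h2)) (enc_norm (kcg_196.enc h1 h2))))) (kcg_195.enc h1 h2) (kcg_163.enc h1 h2) (kcg_196.enc h1 h2) rfl)) (enc_add (kcg_201.enc h1 h2) (kcg_204.enc h1 h2)))))) (enc_neg (enc_case (kcg_211.enc h1 h2) (enc_case (kcg_212.enc h1 h2) (enc_case (kcg_213.enc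 h1 h2) (enc_add (enc_add (enc_subr 10013347257757 1500000000000 (kcg_13.enc h1 h2)) (enc_mul (enc_norm (kcg_3.enc h1 h2)) (enc_norm (enc_subr 4268744749 150000000 (kcg_18.enc h1 h2))))) (enc_mA (enc_mul (enc_norm (kcg_31.enc h1 h2)) (enc_norm (enc_mul (enc_norm (kcg_218.enc h1 h2)) (enc_norm (kcg_219.enc h1 h2))))) (kcg_31.enc h1 h2) (kcg_218.enc h1 h2) (kcg_219.enc h1 h2) rfl)) (enc_add (enc_add (enc_subr 4670811192617 700000000000 (kcg_40.enc h1 h2)) (enc_mul (enc_norm (kcg_3.enc h1 h2)) (enc_norm (enc_subr 1988164569 70000000 (kcg_45.enc h1 h2))))) (enc_mA (enc_mul (enc_norm (kcg_58.enc h1 h2)) (enc_norm (enc_mul (enc_norm (kcg_213.enc h1 h2)) (enc_norm (kcg_228.enc h1 h2))))) (kcg_58.enc h1 h2) (kcg_213.enc h1 h2) (kcg_228.enc h1 h2) rfl))) (enc_case (kcg_234.enc h1 h2) (enc_add (enc_add (enc_subr 9039597787079117 1955250000000000 (kcg_68.enc h1 h2)) (enc_mul (enc_norm (kcg_3.enc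 h1 h2)) (enc_norm (enc_subr 4952424264269 195525000000 (kcg_73.enc h1 h2))))) (enc_mA (enc_mul (enc_norm (kcg_86.enc h1 h2)) (enc_norm (enc_mul (enc_norm (kcg_212.enc h1 h2)) (enc_norm (kcg_239.enc h1 h2))))) (kcg_86.enc h1 h2) (kcg_212.enc h1 h2) (kcg_239.enc h1 h2) rfl)) (enc_add (enc_add (enc_sub (enc_rat _ 41365423394698507 12825250000000000) (kcg_92.enc h1 h2)) (enc_mul (enc_norm (kcg_3.enc h1 h2)) (enc_norm (enc_subr 13934168680501 1282525000000 (kcg_95.enc h1 h2))))) (enc_mA (enc_mul (enc_norm (kcg_108.enc h1 h2)) (enc_norm (enc_mul (enc_norm (kcg_234.enc h1 h2)) (enc_norm (kcg_249.enc h1 h2))))) (kcg_108.enc h1 h2) (kcg_234.enc h1 h2) (kcg_249.enc h1 h2) rfl)))) (enc_case (kcg_256.enc h1 h2) (enc_case (kcg_257.enc h1 h2) (enc_add (enc_add (enc_sub (enc_rat _ 261722471060079 39925000000000) (kcg_122.enc h1 h2)) (enc_mul (enc_norm (kcg_3.enc h1 h2)) (enc_norm (enc_sub (enc_rat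 _ 283106503 3992500000) (kcg_125.enc h1 h2))))) (enc_mA (enc_mul (enc_norm (kcg_135.enc h1 h2)) (enc_norm (enc_mul (enc_norm (kcg_211.enc h1 h2)) (enc_norm (kcg_264.enc h1 h2))))) (kcg_135.enc h1 h2) (kcg_211.enc h1 h2) (kcg_264.enc h1 h2) rfl)) (enc_add (enc_add (enc_sub (enc_rat _ 217810776727 100000000000) (kcg_141.enc h1 h2)) (enc_mul (enc_norm (kcg_3.enc h1 h2)) (enc_norm (enc_sub (enc_rat _ 1597039 10000000) (kcg_144.enc h1 h2))))) (enc_mA (enc_mul (enc_norm (kcg_154.enc h1 h2)) (enc_norm (enc_mul (enc_norm (kcg_257.enc h1 h2)) (enc_norm (kcg_275.enc h1 h2))))) (kcg_154.enc h1 h2) (kcg_257.enc h1 h2) (kcg_275.enc h1 h2) rfl))) (enc_case (kcg_281.enc h1 h2) (enc_add (enc_add (enc_sub (enc_rat _ 166657 250000000) (kcg_164.enc h1 h2)) (enc_mul (enc_norm (kcg_3.enc h1 h2)) (enc_norm (enc_sub (enc_rat _ 3349 25000) (kcg_167.enc h1 h2))))) (enc_mA (enc_mul (enc_norm (kcg_175.enc h1 h2))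 (enc_norm (enc_mul (enc_norm (kcg_256.enc h1 h2)) (enc_norm (kcg_288.enc h1 h2))))) (kcg_175.enc h1 h2) (kcg_256.enc h1 h2) (kcg_288.enc h1 h2) rfl)) (enc_case (enc_sub (enc_rat _ 1 10) h1) (enc_add (enc_add (enc_sub (enc_rat _ 4987 100000000) (kcg_184.enc h1 h2)) (enc_mul (enc_norm (kcg_3.enc h1 h2)) (enc_norm (enc_sub (enc_rat _ 259 10000) (kcg_187.enc h1 h2))))) (enc_mA (enc_mul (enc_norm (kcg_195.enc h1 h2)) (enc_norm (enc_mul (enc_norm (kcg_281.enc h1 h2)) (enc_norm (kcg_300.enc h1 h2))))) (kcg_195.enc h1 h2) (kcg_281.enc h1 h2) (kcg_300.enc h1 h2) rfl)) (enc_sub (enc_neg (kcg_201.enc h1 h2)) (kcg_204.enc h1 h2)))))))))⟩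
noncomputable def kf0q0_9 : Fn2 := ⟨_, _, fun h1 h2 => (enc_scaleT 3 2 h1)⟩
noncomputable def kf0q0_12 : Fn2 := ⟨_, _, fun h1 h2 => (enc_add (enc_pnc _ 1) (c1g.enc h1))⟩
noncomputable def kf0q0 : Fn2 := ⟨_, _, fun h1 h2 => (enc_norm (enc_add (enc_mul (enc_norm (enc_mul (enc_norm (enc_sub (c1g.enc h1) (kf0q0_9.enc h1 h2))) (enc_norm (kf0q0_12.enc h1 h2)))) (enc_inv (enc_sub (kf0q0_12.enc h1 h2) (kf0q0_9.enc h1 h2)))) (enc_mul h1 (kcg.enc (enc_norm (enc_sub (enc_scaleT 3 4 h1) (enc_half (c1g.enc h1)))) h2))))⟩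
noncomputable def txg_4 : Fn3 := ⟨_, _, fun h1 h2 h3 => (enc_subr 38847 40000 h3)⟩
noncomputable def txg_6 : Fn3 := ⟨_, _, fun h1 h2 h3 => (enc_add h1 (enc_half h2))⟩
noncomputable def txg_26 : Fn3 := ⟨_, _, fun h1 h2 h3 => (enc_add h1 (enc_rat _ 1 5))⟩
noncomputable def txg_29 : Fn3 := ⟨_, _, fun h1 h2 h3 => (enc_add h1 (enc_rat _ 21 50))⟩
noncomputable def txg_32 : Fn3 := ⟨_, _, fun h1 h2 h3 => (enc_add h1 (enc_rat _ 23 50))⟩
noncomputable def txg_35 : Fn3 := ⟨_, _, fun h1 h2 h3 => (enc_add h1 (enc_rat _ 481 1000))⟩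
noncomputable def txg_38 : Fn3 := ⟨_, _, fun h1 h2 h3 => (enc_add h1 (enc_rat _ 61 125))⟩
noncomputable def txg_54 : Fn3 := ⟨_, _, fun h1 h2 h3 => (enc_sub (enc_rat _ 223001 2000000) (enc_scaleT 16743 200 (txg_4.enc h1 h2 h3)))⟩
noncomputable def txg_57 : Fn3 := ⟨_, _, fun h1 h2 h3 => (enc_add h1 (enc_rat _ 1 2))⟩
noncomputable def txg_58 : Fn3 := ⟨_, _, fun h1 h2 h3 => (enc_sub (enc_neg (enc_rat _ 61 125)) h1)⟩
noncomputable def txg_76 : Fn3 := ⟨_, _, fun h1 h2 h3 => (enc_add (enc_scaleT 42141 1000 (txg_4.enc h1 h2 h3)) (enc_rat _ 4718013 10000000))⟩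
noncomputable def txg_77 : Fn3 := ⟨_, _, fun h1 h2 h3 => (enc_sub (enc_neg (enc_rat _ 481 1000)) h1)⟩
noncomputable def txg_85 : Fn3 := ⟨_, _, fun h1 h2 h3 => (enc_add h1 (enc_rat _ 94829 200000))⟩
noncomputable def txg_101 : Fn3 := ⟨_, _, fun h1 h2 h3 => (enc_sub (enc_rat _ 3732949 1000000) (enc_scaleT 4507 100 (txg_4.enc h1 h2 h3)))⟩
noncomputable def txg_102 : Fn3 := ⟨_, _, fun h1 h2 h3 => (enc_sub (enc_neg (enc_rat _ 94829 200000)) h1)⟩
noncomputable def txg_120 : Fn3 := ⟨_, _, fun h1 h2 h3 => (enc_add (enc_scaleT 9889 1000 (txg_4.enc h1 h2 h3)) (enc_rat _ 9045777 10000000))⟩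
noncomputable def txg_121 : Fn3 := ⟨_, _, fun h1 h2 h3 => (enc_sub (enc_neg (enc_rat _ 23 50)) h1)⟩
noncomputable def txg_130 : Fn3 := ⟨_, _, fun h1 h2 h3 => (enc_add h1 (enc_rat _ 11 25))⟩
noncomputable def txg_133 : Fn3 := ⟨_, _, fun h1 h2 h3 => (enc_add h1 (enc_rat _ 89667 200000))⟩
noncomputable def txg_147 : Fn3 := ⟨_, _, fun h1 h2 h3 => (enc_add (enc_scaleT 1103 125 (txg_4.enc h1 h2 h3)) (enc_rat _ 733577 625000))⟩
noncomputable def txg_148 : Fn3 := ⟨_, _, fun h1 h2 h3 => (enc_sub (enc_neg (enc_rat _ 89667 200000)) h1)⟩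
noncomputable def txg_167 : Fn3 := ⟨_, _, fun h1 h2 h3 => (enc_subr 260295381 10000000 (enc_neg (enc_scaleT 1330517 1000 (txg_4.enc h1 h2 h3))))⟩
noncomputable def txg_168 : Fn3 := ⟨_, _, fun h1 h2 h3 => (enc_sub (enc_neg (enc_rat _ 11 25)) h1)⟩
noncomputable def txg_176 : Fn3 := ⟨_, _, fun h1 h2 h3 => (enc_add h1 (enc_rat _ 43 100))⟩
noncomputable def txg_189 : Fn3 := ⟨_, _, fun h1 h2 h3 => (enc_subr 29928871 5000000 (enc_scaleT 130053 500 (txg_4.enc h1 h2 h3)))⟩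
noncomputable def txg_190 : Fn3 := ⟨_, _, fun h1 h2 h3 => (enc_sub (enc_neg (enc_rat _ 43 100)) h1)⟩
noncomputable def txg_207 : Fn3 := ⟨_, _, fun h1 h2 h3 => (enc_subr 60237187 10000000 (enc_scaleT 253741 1000 (txg_4.enc h1 h2 h3)))⟩
noncomputable def txg_208 : Fn3 := ⟨_, _, fun h1 h2 h3 => (enc_sub (enc_neg (enc_rat _ 21 50)) h1)⟩
noncomputable def txg_218 : Fn3 := ⟨_, _, fun h1 h2 h3 => (enc_add h1 (enc_rat _ 3 8))⟩
noncomputable def txg_221 : Fn3 := ⟨_, _, fun h1 h2 h3 => (enc_add h1 (enc_rat _ 2 5))⟩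
noncomputable def txg_224 : Fn3 := ⟨_, _, fun h1 h2 h3 => (enc_add h1 (enc_rat _ 41 100))⟩
noncomputable def txg_237 : Fn3 := ⟨_, _, fun h1 h2 h3 => (enc_subr 25791837 5000000 (enc_scaleT 75191 500 (txg_4.enc h1 h2 h3)))⟩
noncomputable def txg_238 : Fn3 := ⟨_, _, fun h1 h2 h3 => (enc_sub (enc_neg (enc_rat _ 41 100)) h1)⟩
noncomputable def txg_255 : Fn3 := ⟨_, _, fun h1 h2 h3 => (enc_subr 2678731 10000000 (enc_scaleT 59533 1000 (txg_4.enc h1 h2 h3)))⟩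
noncomputable def txg_256 : Fn3 := ⟨_, _, fun h1 h2 h3 => (enc_sub (enc_neg (enc_rat _ 2 5)) h1)⟩
noncomputable def txg_264 : Fn3 := ⟨_, _, fun h1 h2 h3 => (enc_add h1 (enc_rat _ 39 100))⟩
noncomputable def txg_278 : Fn3 := ⟨_, _, fun h1 h2 h3 => (enc_sub (enc_rat _ 468389 5000000) (enc_scaleT 1627 500 (txg_4.enc h1 h2 h3)))⟩
noncomputable def txg_279 : Fn3 := ⟨_, _, fun h1 h2 h3 => (enc_sub (enc_neg (enc_rat _ 39 100)) h1)⟩
noncomputable def txg_297 : Fn3 := ⟨_, _, fun h1 h2 h3 => (enc_sub (enc_rat _ 2155089 10000000) (enc_scaleT 4727 1000 (txg_4.enc h1 h2 h3)))⟩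
noncomputable def txg_298 : Fn3 := ⟨_, _, fun h1 h2 h3 => (enc_sub (enc_neg (enc_rat _ 3 8)) h1)⟩
noncomputable def txg_307 : Fn3 := ⟨_, _, fun h1 h2 h3 => (enc_add h1 (enc_rat _ 3 10))⟩
noncomputable def txg_310 : Fn3 := ⟨_, _, fun h1 h2 h3 => (enc_add h1 (enc_rat _ 7 20))⟩
noncomputable def txg_322 : Fn3 := ⟨_, _, fun h1 h2 h3 => (enc_add (enc_scaleT 11157 500 (txg_4.enc h1 h2 h3)) (enc_rat _ 5706401 5000000))⟩
noncomputable def txg_323 : Fn3 := ⟨_, _, fun h1 h2 h3 => (enc_sub (enc_neg (enc_rat _ 7 20)) h1)⟩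
noncomputable def txg_339 : Fn3 := ⟨_, _, fun h1 h2 h3 => (enc_add (enc_scaleT 27403 1000 (txg_4.enc h1 h2 h3)) (enc_rat _ 10889179 10000000))⟩
noncomputable def txg_340 : Fn3 := ⟨_, _, fun h1 h2 h3 => (enc_sub (enc_neg (enc_rat _ 3 10)) h1)⟩
noncomputable def txg_348 : Fn3 := ⟨_, _, fun h1 h2 h3 => (enc_add h1 (enc_rat _ 1 4))⟩
noncomputable def txg_360 : Fn3 := ⟨_, _, fun h1 h2 h3 => (enc_add (enc_scaleT 18163 1000 (txg_4.enc h1 h2 h3)) (enc_rat _ 530859 10000000))⟩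
noncomputable def txg_361 : Fn3 := ⟨_, _, fun h1 h2 h3 => (enc_sub (enc_neg (enc_rat _ 1 4)) h1)⟩
noncomputable def txg_380 : Fn3 := ⟨_, _, fun h1 h2 h3 => (enc_sub (enc_rat _ 1575107 10000000) (enc_scaleT 301 1000 (txg_4.enc h1 h2 h3)))⟩
noncomputable def txg_381 : Fn3 := ⟨_, _, fun h1 h2 h3 => (enc_sub (enc_neg (enc_rat _ 1 5)) h1)⟩
noncomputable def txg_390 : Fn3 := ⟨_, _, fun h1 h2 h3 => (enc_subr 7 20 h1)⟩
noncomputable def txg_392 : Fn3 := ⟨_, _, fun h1 h2 h3 => (enc_subr 3 20 h1)⟩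
noncomputable def txg_395 : Fn3 := ⟨_, _, fun h1 h2 h3 => (enc_add h1 (enc_rat _ 1 10))⟩
noncomputable def txg_397 : Fn3 := ⟨_, _, fun h1 h2 h3 => (enc_add h1 (enc_rat _ 3 20))⟩
noncomputable def txg_412 : Fn3 := ⟨_, _, fun h1 h2 h3 => (enc_sub (enc_rat _ 7320857 5000000) (enc_scaleT 1051 500 (txg_4.enc h1 h2 h3)))⟩
noncomputable def txg_413 : Fn3 := ⟨_, _, fun h1 h2 h3 => (enc_sub (enc_neg (enc_rat _ 3 20)) h1)⟩
noncomputable def txg_431 : Fn3 := ⟨_, _, fun h1 h2 h3 => (enc_sub (enc_rat _ 460281 312500) (enc_scaleT 232 125 (txg_4.enc h1 h2 h3)))⟩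
noncomputable def txg_432 : Fn3 := ⟨_, _, fun h1 h2 h3 => (enc_sub (enc_neg (enc_rat _ 1 10)) h1)⟩
noncomputable def txg_438 : Fn3 := ⟨_, _, fun h1 h2 h3 => (enc_subr 1 10 h1)⟩
noncomputable def txg_452 : Fn3 := ⟨_, _, fun h1 h2 h3 => (enc_sub (enc_rat _ 5342589 5000000) (enc_scaleT 227 500 (txg_4.enc h1 h2 h3)))⟩
noncomputable def txg_453 : Fn3 := ⟨_, _, fun h1 h2 h3 => (enc_sub (enc_rat _ 1 10) h1)⟩
noncomputable def txg_470 : Fn3 := ⟨_, _, fun h1 h2 h3 => (enc_add (enc_scaleT 359 125 (txg_4.enc h1 h2 h3)) (enc_rat _ 676681 625000))⟩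
noncomputable def txg_471 : Fn3 := ⟨_, _, fun h1 h2 h3 => (enc_sub (enc_rat _ 3 20) h1)⟩
noncomputable def txg_478 : Fn3 := ⟨_, _, fun h1 h2 h3 => (enc_subr 1 4 h1)⟩
noncomputable def txg_479 : Fn3 := ⟨_, _, fun h1 h2 h3 => (enc_subr 1 5 h1)⟩
noncomputable def txg_493 : Fn3 := ⟨_, _, fun h1 h2 h3 => (enc_add (enc_scaleT 2139 500 (txg_4.enc h1 h2 h3)) (enc_rat _ 6805527 5000000))⟩
noncomputable def txg_494 : Fn3 := ⟨_, _, fun h1 h2 h3 => (enc_sub (enc_rat _ 1 5) h1)⟩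
noncomputable def txg_512 : Fn3 := ⟨_, _, fun h1 h2 h3 => (enc_add (enc_scaleT 1044 125 (txg_4.enc h1 h2 h3)) (enc_rat _ 2003067 1250000))⟩
noncomputable def txg_513 : Fn3 := ⟨_, _, fun h1 h2 h3 => (enc_sub (enc_rat _ 1 4) h1)⟩
noncomputable def txg_519 : Fn3 := ⟨_, _, fun h1 h2 h3 => (enc_subr 3 10 h1)⟩
noncomputable def txg_533 : Fn3 := ⟨_, _, fun h1 h2 h3 => (enc_add (enc_scaleT 1643 500 (txg_4.enc h1 h2 h3)) (enc_rat _ 8092499 5000000))⟩
noncomputable def txg_534 : Fn3 := ⟨_, _, fun h1 h2 h3 => (enc_sub (enc_rat _ 3 10) h1)⟩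
noncomputable def txg_554 : Fn3 := ⟨_, _, fun h1 h2 h3 => (enc_sub (enc_rat _ 15741547 10000000) (enc_scaleT 221 1000 (txg_4.enc h1 h2 h3)))⟩
noncomputable def txg_555 : Fn3 := ⟨_, _, fun h1 h2 h3 => (enc_sub (enc_rat _ 7 20) h1)⟩
noncomputable def txg_563 : Fn3 := ⟨_, _, fun h1 h2 h3 => (enc_subr 41 100 h1)⟩
noncomputable def txg_564 : Fn3 := ⟨_, _, fun h1 h2 h3 => (enc_subr 39 100 h1)⟩
noncomputable def txg_565 : Fn3 := ⟨_, _, fun h1 h2 h3 => (enc_subr 3 8 h1)⟩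
noncomputable def txg_579 : Fn3 := ⟨_, _, fun h1 h2 h3 => (enc_add (enc_scaleT 27893 1000 (txg_4.enc h1 h2 h3)) (enc_rat _ 22303749 10000000))⟩
noncomputable def txg_580 : Fn3 := ⟨_, _, fun h1 h2 h3 => (enc_sub (enc_rat _ 3 8) h1)⟩
noncomputable def txg_598 : Fn3 := ⟨_, _, fun h1 h2 h3 => (enc_add (enc_scaleT 36147 500 (txg_4.enc h1 h2 h3)) (enc_rat _ 13943471 5000000))⟩
noncomputable def txg_599 : Fn3 := ⟨_, _, fun h1 h2 h3 => (enc_sub (enc_rat _ 39 100) h1)⟩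
noncomputable def txg_605 : Fn3 := ⟨_, _, fun h1 h2 h3 => (enc_subr 2 5 h1)⟩
noncomputable def txg_619 : Fn3 := ⟨_, _, fun h1 h2 h3 => (enc_add (enc_scaleT 10511 250 (txg_4.enc h1 h2 h3)) (enc_rat _ 6924673 2500000))⟩
noncomputable def txg_620 : Fn3 := ⟨_, _, fun h1 h2 h3 => (enc_sub (enc_rat _ 2 5) h1)⟩
noncomputable def txg_638 : Fn3 := ⟨_, _, fun h1 h2 h3 => (enc_add (enc_scaleT 4977 200 (txg_4.enc h1 h2 h3)) (enc_rat _ 4437161 2000000))⟩
noncomputable def txg_639 : Fn3 := ⟨_, _, fun h1 h2 h3 => (enc_sub (enc_rat _ 41 100) h1)⟩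
noncomputable def txg_646 : Fn3 := ⟨_, _, fun h1 h2 h3 => (enc_subr 43 100 h1)⟩
noncomputable def txg_647 : Fn3 := ⟨_, _, fun h1 h2 h3 => (enc_subr 21 50 h1)⟩
noncomputable def txg_662 : Fn3 := ⟨_, _, fun h1 h2 h3 => (enc_subr 14293557 10000000 (enc_scaleT 51651 1000 (txg_4.enc h1 h2 h3)))⟩
noncomputable def txg_663 : Fn3 := ⟨_, _, fun h1 h2 h3 => (enc_sub (enc_rat _ 21 50) h1)⟩
noncomputable def txg_682 : Fn3 := ⟨_, _, fun h1 h2 h3 => (enc_subr 8490651 5000000 (enc_scaleT 50593 500 (txg_4.enc h1 h2 h3)))⟩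
noncomputable def txg_683 : Fn3 := ⟨_, _, fun h1 h2 h3 => (enc_sub (enc_rat _ 43 100) h1)⟩
noncomputable def txg_689 : Fn3 := ⟨_, _, fun h1 h2 h3 => (enc_subr 11 25 h1)⟩
noncomputable def txg_704 : Fn3 := ⟨_, _, fun h1 h2 h3 => (enc_subr 237887 125000 (enc_scaleT 3057 25 (txg_4.enc h1 h2 h3)))⟩
noncomputable def txg_705 : Fn3 := ⟨_, _, fun h1 h2 h3 => (enc_sub (enc_rat _ 11 25) h1)⟩
noncomputable def txg_724 : Fn3 := ⟨_, _, fun h1 h2 h3 => (enc_sq (enc_norm (txg_4.enc h1 h2 h3)))⟩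
noncomputable def txg_737 : Fn3 := ⟨_, _, fun h1 h2 h3 => (enc_subr 6369417099 500000000 (enc_mul (enc_norm (enc_subr 18152943 25000 (enc_neg (enc_scaleT 851 5 (txg_4.enc h1 h2 h3))))) (enc_norm (txg_4.enc h1 h2 h3))))⟩
noncomputable def txg_738 : Fn3 := ⟨_, _, fun h1 h2 h3 => (enc_sub (enc_rat _ 781 1742) h1)⟩
noncomputable def txg_749 : Fn3 := ⟨_, _, fun h1 h2 h3 => (enc_subr 541 1141 h1)⟩
noncomputable def txg_750 : Fn3 := ⟨_, _, fun h1 h2 h3 => (enc_subr 481 1000 h1)⟩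
noncomputable def txg_774 : Fn3 := ⟨_, _, fun h1 h2 h3 => (enc_add (enc_mul (enc_norm (enc_subr 44959 125000 (enc_scaleT 7637 25 (txg_4.enc h1 h2 h3)))) (enc_norm (txg_4.enc h1 h2 h3))) (enc_rat _ 5732505213 2500000000))⟩
noncomputable def txg_775 : Fn3 := ⟨_, _, fun h1 h2 h3 => (enc_sub (enc_rat _ 481 1000) h1)⟩
noncomputable def txg_780 : Fn3 := ⟨_, _, fun h1 h2 h3 => (enc_subr 61 125 h1)⟩
noncomputable def txg_794 : Fn3 := ⟨_, _, fun h1 h2 h3 => (enc_add (enc_scaleT 36493 1000 (txg_4.enc h1 h2 h3)) (enc_rat _ 5592549 10000000))⟩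
noncomputable def txg_795 : Fn3 := ⟨_, _, fun h1 h2 h3 => (enc_sub (enc_rat _ 61 125) h1)⟩
noncomputable def txg_815 : Fn3 := ⟨_, _, fun h1 h2 h3 => (enc_sub (enc_rat _ 4415411 10000000) (enc_scaleT 28773 1000 (txg_4.enc h1 h2 h3)))⟩
noncomputable def txg_816 : Fn3 := ⟨_, _, fun h1 h2 h3 => (enc_sub (enc_rat _ 1 2) h1)⟩
noncomputable def txg : Fn3 := ⟨_, _, fun h1 h2 h3 => (enc_case (enc_subr 781 1742 h1) (enc_case (txg_26.enc h1 h2 h3) (enc_case (txg_29.enc h1 h2 h3) (enc_case (txg_32.enc h1 h2 h3) (enc_case (txg_35.enc h1 h2 h3) (enc_case (txg_38.enc h1 h2 h3) (enc_add (enc_add (enc_add (enc_scaleT 93620461 600000000 h1) (enc_rat _ 93620461 1200000000)) (enc_mul (enc_norm (txg_4.enc h1 h2 h3)) (enc_norm (enc_subr 185923 120000 (enc_neg (enc_scaleT 185923 60000 h1)))))) (enc_mA (enc_mul (enc_norm (txg_54.enc h1 h2 h3)) (enc_norm (enc_mul (enc_norm (txg_57.enc h1 h2 h3)) (enc_norm (txg_58.enc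 h1 h2 h3))))) (txg_54.enc h1 h2 h3) (txg_57.enc h1 h2 h3) (txg_58.enc h1 h2 h3) rfl)) (enc_add (enc_add (enc_add (enc_scaleT 378481 2500000 h1) (enc_rat _ 3787595021 50000000000)) (enc_mul (enc_norm (txg_4.enc h1 h2 h3)) (enc_norm (enc_subr 42108021 35000000 (enc_neg (enc_scaleT 4181 1750 h1)))))) (enc_mA (enc_mul (enc_norm (txg_76.enc h1 h2 h3)) (enc_norm (enc_mul (enc_norm (txg_38.enc h1 h2 h3)) (enc_norm (txg_77.enc h1 h2 h3))))) (txg_76.enc h1 h2 h3) (txg_38.enc h1 h2 h3) (txg_77.enc h1 h2 h3) rfl))) (enc_case (txg_85.enc h1 h2 h3) (enc_add (enc_add (enc_add (enc_scaleT 83968649 685500000 h1) (enc_rat _ 4239891312071 68550000000000)) (enc_mul (enc_norm (txg_4.enc h1 h2 h3)) (enc_norm (enc_subr 2733520051 2285000000 (enc_neg (enc_scaleT 54269 22850 h1)))))) (enc_mA (enc_mul (enc_norm (txg_101.enc h1 h2 h3)) (enc_norm (enc_mul (enc_norm (txg_35.enc h1 h2 h3)) (enc_norm (txg_102.enc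 h1 h2 h3))))) (txg_101.enc h1 h2 h3) (txg_35.enc h1 h2 h3) (txg_102.enc h1 h2 h3) rfl)) (enc_add (enc_add (enc_add (enc_scaleT 9915873 117875000 h1) (enc_rat _ 178997131807 4100000000000)) (enc_mul (enc_norm (txg_4.enc h1 h2 h3)) (enc_norm (enc_subr 1372989203 1230000000 (enc_neg (enc_scaleT 156034 70725 h1)))))) (enc_mA (enc_mul (enc_norm (txg_120.enc h1 h2 h3)) (enc_norm (enc_mul (enc_norm (txg_85.enc h1 h2 h3)) (enc_norm (txg_121.enc h1 h2 h3))))) (txg_120.enc h1 h2 h3) (txg_85.enc h1 h2 h3) (txg_121.enc h1 h2 h3) rfl)))) (enc_case (txg_130.enc h1 h2 h3) (enc_case (txg_133.enc h1 h2 h3) (enc_add (enc_add (enc_add (enc_scaleT 2100864 36453125 h1) (enc_rat _ 7342519254091 233300000000000)) (enc_mul (enc_norm (txg_4.enc h1 h2 h3)) (enc_norm (enc_subr 28646659013 23330000000 (enc_neg (enc_scaleT 142832 58325 h1)))))) (enc_mA (enc_mul (enc_norm (txg_147.enc h1 h2 h3)) (enc_norm (enc_mul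 (enc_norm (txg_32.enc h1 h2 h3)) (enc_norm (txg_148.enc h1 h2 h3))))) (txg_147.enc h1 h2 h3) (txg_32.enc h1 h2 h3) (txg_148.enc h1 h2 h3) rfl)) (enc_add (enc_add (enc_add (enc_scaleT 21747117 83350000 h1) (enc_rat _ 4087835831903 33340000000000)) (enc_mul (enc_norm (txg_4.enc h1 h2 h3)) (enc_norm (enc_add (enc_scaleT 71169 8335 h1) (enc_rat _ 12329726471 3334000000))))) (enc_mA (enc_mul (enc_norm (txg_167.enc h1 h2 h3)) (enc_norm (enc_mul (enc_norm (txg_133.enc h1 h2 h3)) (enc_norm (txg_168.enc h1 h2 h3))))) (txg_167.enc h1 h2 h3) (txg_133.enc h1 h2 h3) (txg_168.enc h1 h2 h3) rfl))) (enc_case (txg_176.enc h1 h2 h3) (enc_add (enc_add (enc_add (enc_scaleT 16803931 31250000 h1) (enc_rat _ 24440808393 100000000000)) (enc_mul (enc_norm (txg_4.enc h1 h2 h3)) (enc_norm (enc_add (enc_scaleT 212843 12500 h1) (enc_rat _ 74332801 10000000))))) (enc_mA (enc_mul (enc_norm (txg_189.enc h1 h2 h3))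 (enc_norm (enc_mul (enc_norm (txg_130.enc h1 h2 h3)) (enc_norm (txg_190.enc h1 h2 h3))))) (txg_189.enc h1 h2 h3) (txg_130.enc h1 h2 h3) (txg_190.enc h1 h2 h3) rfl)) (enc_add (enc_add (enc_add (enc_scaleT 328911357 500000000 h1) (enc_rat _ 29604976039 100000000000)) (enc_mul (enc_norm (txg_4.enc h1 h2 h3)) (enc_norm (enc_add (enc_scaleT 594449 50000 h1) (enc_rat _ 52237423 10000000))))) (enc_mA (enc_mul (enc_norm (txg_207.enc h1 h2 h3)) (enc_norm (enc_mul (enc_norm (txg_176.enc h1 h2 h3)) (enc_norm (txg_208.enc h1 h2 h3))))) (txg_207.enc h1 h2 h3) (txg_176.enc h1 h2 h3) (txg_208.enc h1 h2 h3) rfl))))) (enc_case (txg_218.enc h1 h2 h3) (enc_case (txg_221.enc h1 h2 h3) (enc_case (txg_224.enc h1 h2 h3) (enc_add (enc_add (enc_add (enc_scaleT 384821291 500000000 h1) (enc_rat _ 6860282099 20000000000)) (enc_mul (enc_norm (txg_4.enc h1 h2 h3)) (enc_norm (enc_add (enc_scaleT 392387 50000 h1) (enc_rat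 _ 7052843 2000000))))) (enc_mA (enc_mul (enc_norm (txg_237.enc h1 h2 h3)) (enc_norm (enc_mul (enc_norm (txg_29.enc h1 h2 h3)) (enc_norm (txg_238.enc h1 h2 h3))))) (txg_237.enc h1 h2 h3) (txg_29.enc h1 h2 h3) (txg_238.enc h1 h2 h3) rfl)) (enc_add (enc_add (enc_add (enc_scaleT 411952497 500000000 h1) (enc_rat _ 36526169387 100000000000)) (enc_mul (enc_norm (txg_4.enc h1 h2 h3)) (enc_norm (enc_add (enc_scaleT 287429 50000 h1) (enc_rat _ 26657659 10000000))))) (enc_mA (enc_mul (enc_norm (txg_255.enc h1 h2 h3)) (enc_norm (enc_mul (enc_norm (txg_224.enc h1 h2 h3)) (enc_norm (txg_256.enc h1 h2 h3))))) (txg_255.enc h1 h2 h3) (txg_224.enc h1 h2 h3) (txg_256.enc h1 h2 h3) rfl))) (enc_case (txg_264.enc h1 h2 h3) (enc_add (enc_add (enc_add (enc_scaleT 412822977 500000000 h1) (enc_rat _ 36595807787 100000000000)) (enc_mul (enc_norm (txg_4.enc h1 h2 h3)) (enc_norm (enc_add (enc_scaleT 259289 50000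 h1) (enc_rat _ 24406459 10000000))))) (enc_mA (enc_mul (enc_norm (txg_278.enc h1 h2 h3)) (enc_norm (enc_mul (enc_norm (txg_221.enc h1 h2 h3)) (enc_norm (txg_279.enc h1 h2 h3))))) (txg_278.enc h1 h2 h3) (txg_221.enc h1 h2 h3) (txg_279.enc h1 h2 h3) rfl)) (enc_add (enc_add (enc_add (enc_scaleT 12835597 15625000 h1) (enc_rat _ 36433265693 100000000000)) (enc_mul (enc_norm (txg_4.enc h1 h2 h3)) (enc_norm (enc_add (enc_scaleT 99173 18750 h1) (enc_rat _ 24809901 10000000))))) (enc_mA (enc_mul (enc_norm (txg_297.enc h1 h2 h3)) (enc_norm (enc_mul (enc_norm (txg_264.enc h1 h2 h3)) (enc_norm (txg_298.enc h1 h2 h3))))) (txg_297.enc h1 h2 h3) (txg_264.enc h1 h2 h3) (txg_298.enc h1 h2 h3) rfl)))) (enc_case (txg_307.enc h1 h2 h3) (enc_case (txg_310.enc h1 h2 h3) (enc_add (enc_add (enc_add (enc_scaleT 1974286017 2500000000 h1) (enc_rat _ 8810530787 25000000000)) (enc_mul (enc_norm (txg_4.enc h1 h2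 h3)) (enc_norm (enc_add (enc_scaleT 1200569 250000 h1) (enc_rat _ 5745959 2500000))))) (enc_mA (enc_mul (enc_norm (txg_322.enc h1 h2 h3)) (enc_norm (enc_mul (enc_norm (txg_218.enc h1 h2 h3)) (enc_norm (txg_323.enc h1 h2 h3))))) (txg_322.enc h1 h2 h3) (txg_218.enc h1 h2 h3) (txg_323.enc h1 h2 h3) rfl)) (enc_add (enc_add (enc_add (enc_scaleT 5653901 8000000 h1) (enc_rat _ 6467587157 20000000000)) (enc_mul (enc_norm (txg_4.enc h1 h2 h3)) (enc_norm (enc_add (enc_scaleT 11497 4000 h1) (enc_rat _ 3247149 2000000))))) (enc_mA (enc_mul (enc_norm (txg_339.enc h1 h2 h3)) (enc_norm (enc_mul (enc_norm (txg_310.enc h1 h2 h3)) (enc_norm (txg_340.enc h1 h2 h3))))) (txg_339.enc h1 h2 h3) (txg_310.enc h1 h2 h3) (txg_340.enc h1 h2 h3) rfl))) (enc_case (txg_348.enc h1 h2 h3) (enc_add (enc_add (enc_add (enc_scaleT 406023521 625000000 h1) (enc_rat _ 30624936043 100000000000)) (enc_mul (enc_norm (txg_4.enc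 h1 h2 h3)) (enc_norm (enc_add (enc_scaleT 37247 62500 h1) (enc_rat _ 9400851 10000000))))) (enc_mA (enc_mul (enc_norm (txg_360.enc h1 h2 h3)) (enc_norm (enc_mul (enc_norm (txg_307.enc h1 h2 h3)) (enc_norm (txg_361.enc h1 h2 h3))))) (txg_360.enc h1 h2 h3) (txg_307.enc h1 h2 h3) (txg_361.enc h1 h2 h3) rfl)) (enc_add (enc_add (enc_add (enc_scaleT 3195550843 5000000000 h1) (enc_rat _ 15180874709 50000000000)) (enc_mul (enc_norm (txg_4.enc h1 h2 h3)) (enc_norm (enc_sub (enc_rat _ 3584113 5000000) (enc_scaleT 148549 500000 h1))))) (enc_mA (enc_mul (enc_norm (txg_380.enc h1 h2 h3)) (enc_norm (enc_mul (enc_norm (txg_348.enc h1 h2 h3)) (enc_norm (txg_381.enc h1 h2 h3))))) (txg_380.enc h1 h2 h3) (txg_348.enc h1 h2 h3) (txg_381.enc h1 h2 h3) rfl)))))) (enc_case (txg_390.enc h1 h2 h3) (enc_case (txg_392.enc h1 h2 h3) (enc_case (txg_395.enc h1 h2 h3) (enc_case (txg_397.enc h1 h2 h3) (enc_add (enc_add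 (enc_add (enc_scaleT 55802843 100000000 h1) (enc_rat _ 14370057323 50000000000)) (enc_mul (enc_norm (txg_4.enc h1 h2 h3)) (enc_norm (enc_sub (enc_rat _ 3704311 5000000) (enc_scaleT 1769 10000 h1))))) (enc_mA (enc_mul (enc_norm (txg_412.enc h1 h2 h3)) (enc_norm (enc_mul (enc_norm (txg_26.enc h1 h2 h3)) (enc_norm (txg_413.enc h1 h2 h3))))) (txg_412.enc h1 h2 h3) (txg_26.enc h1 h2 h3) (txg_413.enc h1 h2 h3) rfl)) (enc_add (enc_add (enc_add (enc_scaleT 2055887409 5000000000 h1) (enc_rat _ 26537350423 100000000000)) (enc_mul (enc_norm (txg_4.enc h1 h2 h3)) (enc_norm (enc_add (enc_scaleT 10513 500000 h1) (enc_rat _ 7705511 10000000))))) (enc_mA (enc_mul (enc_norm (txg_431.enc h1 h2 h3)) (enc_norm (enc_mul (enc_norm (txg_397.enc h1 h2 h3)) (enc_norm (txg_432.enc h1 h2 h3))))) (txg_431.enc h1 h2 h3) (txg_397.enc h1 h2 h3) (txg_432.enc h1 h2 h3) rfl))) (enc_case (txg_438.enc h1 h2 h3) (enc_add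 (enc_add (enc_add (enc_scaleT 2476430229 20000000000 h1) (enc_rat _ 47327581439 200000000000)) (enc_mul (enc_norm (txg_4.enc h1 h2 h3)) (enc_norm (enc_add (enc_scaleT 409253 2000000 h1) (enc_rat _ 15778223 20000000))))) (enc_mA (enc_mul (enc_norm (txg_452.enc h1 h2 h3)) (enc_norm (enc_mul (enc_norm (txg_395.enc h1 h2 h3)) (enc_norm (txg_453.enc h1 h2 h3))))) (txg_452.enc h1 h2 h3) (txg_395.enc h1 h2 h3) (txg_453.enc h1 h2 h3) rfl)) (enc_add (enc_add (enc_sub (enc_rat _ 3292780827 12500000000) (enc_scaleT 720120391 5000000000 h1)) (enc_mul (enc_norm (txg_4.enc h1 h2 h3)) (enc_norm (enc_add (enc_scaleT 75913 500000 h1) (enc_rat _ 992739 1250000))))) (enc_mA (enc_mul (enc_norm (txg_470.enc h1 h2 h3)) (enc_norm (enc_mul (enc_norm (txg_438.enc h1 h2 h3)) (enc_norm (txg_471.enc h1 h2 h3))))) (txg_470.enc h1 h2 h3) (txg_438.enc h1 h2 h3) (txg_471.enc h1 h2 h3) rfl)))) (enc_case (txg_478.enc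 h1 h2 h3) (enc_case (txg_479.enc h1 h2 h3) (enc_add (enc_add (enc_sub (enc_rat _ 28175057139 100000000000) (enc_scaleT 83191077 312500000 h1)) (enc_mul (enc_norm (txg_4.enc h1 h2 h3)) (enc_norm (enc_sub (enc_rat _ 8478123 10000000) (enc_scaleT 12853 62500 h1))))) (enc_mA (enc_mul (enc_norm (txg_493.enc h1 h2 h3)) (enc_norm (enc_mul (enc_norm (txg_392.enc h1 h2 h3)) (enc_norm (txg_494.enc h1 h2 h3))))) (txg_493.enc h1 h2 h3) (txg_392.enc h1 h2 h3) (txg_494.enc h1 h2 h3) rfl)) (enc_add (enc_add (enc_sub (enc_rat _ 1245544499 4000000000) (enc_scaleT 1035973033 2500000000 h1)) (enc_mul (enc_norm (txg_4.enc h1 h2 h3)) (enc_norm (enc_sub (enc_rat _ 389643 400000) (enc_scaleT 209281 250000 h1))))) (enc_mA (enc_mul (enc_norm (txg_512.enc h1 h2 h3)) (enc_norm (enc_mul (enc_norm (txg_479.enc h1 h2 h3)) (enc_norm (txg_513.enc h1 h2 h3))))) (txg_512.enc h1 h2 h3) (txg_479.enc h1 h2 h3) (txg_513.enc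 h1 h2 h3) rfl))) (enc_case (txg_519.enc h1 h2 h3) (enc_add (enc_add (enc_sub (enc_rat _ 7032973761 20000000000) (enc_scaleT 719299333 1250000000 h1)) (enc_mul (enc_norm (txg_4.enc h1 h2 h3)) (enc_norm (enc_sub (enc_rat _ 2239177 2000000) (enc_scaleT 177381 125000 h1))))) (enc_mA (enc_mul (enc_norm (txg_533.enc h1 h2 h3)) (enc_norm (enc_mul (enc_norm (txg_478.enc h1 h2 h3)) (enc_norm (txg_534.enc h1 h2 h3))))) (txg_533.enc h1 h2 h3) (txg_478.enc h1 h2 h3) (txg_534.enc h1 h2 h3) rfl)) (enc_add (enc_add (enc_sub (enc_rat _ 39953922009 100000000000) (enc_scaleT 1837686433 2500000000 h1)) (enc_mul (enc_norm (txg_4.enc h1 h2 h3)) (enc_norm (enc_sub (enc_rat _ 11655713 10000000) (enc_scaleT 393081 250000 h1))))) (enc_mA (enc_mul (enc_norm (txg_554.enc h1 h2 h3)) (enc_norm (enc_mul (enc_norm (txg_519.enc h1 h2 h3)) (enc_norm (txg_555.enc h1 h2 h3))))) (txg_554.enc h1 h2 h3) (txg_519.enc h1 h2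 h3) (txg_555.enc h1 h2 h3) rfl))))) (enc_case (txg_563.enc h1 h2 h3) (enc_case (txg_564.enc h1 h2 h3) (enc_case (txg_565.enc h1 h2 h3) (enc_add (enc_add (enc_sub (enc_rat _ 44660232247 100000000000) (enc_scaleT 43477029 50000000 h1)) (enc_mul (enc_norm (txg_4.enc h1 h2 h3)) (enc_norm (enc_sub (enc_rat _ 14057679 10000000) (enc_scaleT 11293 5000 h1))))) (enc_mA (enc_mul (enc_norm (txg_579.enc h1 h2 h3)) (enc_norm (enc_mul (enc_norm (txg_390.enc h1 h2 h3)) (enc_norm (txg_580.enc h1 h2 h3))))) (txg_579.enc h1 h2 h3) (txg_390.enc h1 h2 h3) (txg_580.enc h1 h2 h3) rfl)) (enc_add (enc_add (enc_sub (enc_rat _ 24159888461 50000000000) (enc_scaleT 483564219 500000000 h1)) (enc_mul (enc_norm (txg_4.enc h1 h2 h3)) (enc_norm (enc_sub (enc_rat _ 10369577 5000000) (enc_scaleT 606049 150000 h1))))) (enc_mA (enc_mul (enc_norm (txg_598.enc h1 h2 h3)) (enc_norm (enc_mul (enc_norm (txg_565.enc h1 h2 h3))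 (enc_norm (txg_599.enc h1 h2 h3))))) (txg_598.enc h1 h2 h3) (txg_565.enc h1 h2 h3) (txg_599.enc h1 h2 h3) rfl))) (enc_case (txg_605.enc h1 h2 h3) (enc_add (enc_add (enc_sub (enc_rat _ 12757841743 25000000000) (enc_scaleT 259164097 250000000 h1)) (enc_mul (enc_norm (txg_4.enc h1 h2 h3)) (enc_norm (enc_sub (enc_rat _ 6652001 2500000) (enc_scaleT 138629 25000 h1))))) (enc_mA (enc_mul (enc_norm (txg_619.enc h1 h2 h3)) (enc_norm (enc_mul (enc_norm (txg_564.enc h1 h2 h3)) (enc_norm (txg_620.enc h1 h2 h3))))) (txg_619.enc h1 h2 h3) (txg_564.enc h1 h2 h3) (txg_620.enc h1 h2 h3) rfl)) (enc_add (enc_add (enc_sub (enc_rat _ 13256696643 25000000000) (enc_scaleT 543270939 500000000 h1)) (enc_mul (enc_norm (txg_4.enc h1 h2 h3)) (enc_norm (enc_sub (enc_rat _ 7321301 2500000) (enc_scaleT 310723 50000 h1))))) (enc_mA (enc_mul (enc_norm (txg_638.enc h1 h2 h3)) (enc_norm (enc_mul (enc_norm (txg_605.enc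 h1 h2 h3)) (enc_norm (txg_639.enc h1 h2 h3))))) (txg_638.enc h1 h2 h3) (txg_605.enc h1 h2 h3) (txg_639.enc h1 h2 h3) rfl)))) (enc_case (txg_646.enc h1 h2 h3) (enc_case (txg_647.enc h1 h2 h3) (enc_add (enc_add (enc_sub (enc_rat _ 2667520487 5000000000) (enc_scaleT 547217563 500000000 h1)) (enc_mul (enc_norm (txg_4.enc h1 h2 h3)) (enc_norm (enc_sub (enc_rat _ 1621159 500000) (enc_scaleT 348991 50000 h1))))) (enc_mA (enc_mul (enc_norm (txg_662.enc h1 h2 h3)) (enc_norm (enc_mul (enc_norm (txg_563.enc h1 h2 h3)) (enc_norm (txg_663.enc h1 h2 h3))))) (txg_662.enc h1 h2 h3) (txg_563.enc h1 h2 h3) (txg_663.enc h1 h2 h3) rfl)) (enc_add (enc_add (enc_sub (enc_rat _ 6504613421 12500000000) (enc_scaleT 53158063 50000000 h1)) (enc_mul (enc_norm (txg_4.enc h1 h2 h3)) (enc_norm (enc_sub (enc_rat _ 4855297 1250000) (enc_scaleT 42541 5000 h1))))) (enc_mA (enc_mul (enc_norm (txg_682.enc h1 h2 h3)) (enc_norm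 (enc_mul (enc_norm (txg_647.enc h1 h2 h3)) (enc_norm (txg_683.enc h1 h2 h3))))) (txg_682.enc h1 h2 h3) (txg_647.enc h1 h2 h3) (txg_683.enc h1 h2 h3) rfl))) (enc_case (txg_689.enc h1 h2 h3) (enc_add (enc_add (enc_sub (enc_rat _ 50488422801 100000000000) (enc_scaleT 1027149991 1000000000 h1)) (enc_mul (enc_norm (txg_4.enc h1 h2 h3)) (enc_norm (enc_sub (enc_rat _ 48451457 10000000) (enc_scaleT 1074287 100000 h1))))) (enc_mA (enc_mul (enc_norm (txg_704.enc h1 h2 h3)) (enc_norm (enc_mul (enc_norm (txg_646.enc h1 h2 h3)) (enc_norm (txg_705.enc h1 h2 h3))))) (txg_704.enc h1 h2 h3) (txg_646.enc h1 h2 h3) (txg_705.enc h1 h2 h3) rfl)) (enc_add (enc_add (enc_add (enc_sub (enc_rat _ 404010417030467419 898218750000000000) (enc_scaleT 712920608966327963 790432500000000000 h1)) (enc_mul (enc_norm (txg_4.enc h1 h2 h3)) (enc_norm (enc_sub (enc_rat _ 244327161882341 89821875000000) (enc_scaleT 467405540047807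 79043250000000 h1))))) (enc_mul (txg_724.enc h1 h2 h3) (enc_norm (enc_subr 1072869 1718750 (enc_scaleT 1072869 756250 h1))))) (enc_mA (enc_mul (enc_norm (txg_737.enc h1 h2 h3)) (enc_norm (enc_mul (enc_norm (txg_689.enc h1 h2 h3)) (enc_norm (txg_738.enc h1 h2 h3))))) (txg_737.enc h1 h2 h3) (txg_689.enc h1 h2 h3) (txg_738.enc h1 h2 h3) rfl))))))) (enc_case (txg_749.enc h1 h2 h3) (enc_sub (enc_mul (enc_norm (enc_sub (enc_pnc _ 1) h2)) (enc_norm (enc_subn 1 (enc_nat 2 h2)))) (enc_mul (enc_norm (enc_nat 2 (enc_sub (enc_scaleT 4 3 (txg_6.enc h1 h2 h3)) h3))) (enc_norm (enc_mul (enc_norm (enc_subn 1 (enc_add (enc_scaleT 2 3 (txg_6.enc h1 h2 h3)) h2))) (kcg.enc h1 h3))))) (enc_case (txg_750.enc h1 h2 h3) (enc_add (enc_add (enc_add (enc_sub (enc_rat _ 19992478605258933510631 44618805000000000000000) (enc_scaleT 39941802965223348151 44618805000000000000 h1)) (enc_mul (enc_norm (txg_4.enc h1 h2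 h3)) (enc_norm (enc_sub (enc_rat _ 3500064233817927659 4461880500000000000) (enc_scaleT 6966853661546939 4461880500000000 h1))))) (enc_mul (txg_724.enc h1 h2 h3) (enc_norm (enc_subr 8951202689 8887500000 (enc_scaleT 18609569 8887500 h1))))) (enc_mA (enc_mul (enc_norm (txg_774.enc h1 h2 h3)) (enc_norm (enc_mul (enc_norm (txg_749.enc h1 h2 h3)) (enc_norm (txg_775.enc h1 h2 h3))))) (txg_774.enc h1 h2 h3) (txg_749.enc h1 h2 h3) (txg_775.enc h1 h2 h3) rfl)) (enc_case (txg_780.enc h1 h2 h3) (enc_add (enc_add (enc_sub (enc_rat _ 320261369171 700000000000) (enc_scaleT 80045993 87500000 h1)) (enc_mul (enc_norm (txg_4.enc h1 h2 h3)) (enc_norm (enc_sub (enc_rat _ 9061221 10000000) (enc_scaleT 1134 625 h1))))) (enc_mA (enc_mul (enc_norm (txg_794.enc h1 h2 h3)) (enc_norm (enc_mul (enc_norm (txg_750.enc h1 h2 h3)) (enc_norm (txg_795.enc h1 h2 h3))))) (txg_794.enc h1 h2 h3) (txg_750.enc h1 h2 h3) (txg_795.enc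 h1 h2 h3) rfl)) (enc_add (enc_add (enc_sub (enc_rat _ 369610119 800000000) (enc_scaleT 369610119 400000000 h1)) (enc_mul (enc_norm (txg_4.enc h1 h2 h3)) (enc_norm (enc_sub (enc_rat _ 68983 80000) (enc_scaleT 68983 40000 h1))))) (enc_mA (enc_mul (enc_norm (txg_815.enc h1 h2 h3)) (enc_norm (enc_mul (enc_norm (txg_780.enc h1 h2 h3)) (enc_norm (txg_816.enc h1 h2 h3))))) (txg_815.enc h1 h2 h3) (txg_780.enc h1 h2 h3) (txg_816.enc h1 h2 h3) rfl))))))⟩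
noncomputable def l0q0 : Fn2 := ⟨_, _, fun h1 h2 => (enc_norm (txg.enc (enc_norm (enc_sub (enc_scaleT 3 4 h1) (enc_half (c1g.enc h1)))) (c1g.enc h1) h2))⟩
noncomputable def kc0q0_3 : Fn2 := ⟨_, _, fun h1 h2 => (enc_subr 38847 40000 h2)⟩
noncomputable def kc0q0_8 : Fn2 := ⟨_, _, fun h1 h2 => (enc_sub (enc_scaleT 3 4 h1) (enc_half (c1g.enc h1)))⟩
noncomputable def kc0q0 : Fn2 := ⟨_, _, fun h1 h2 => (enc_norm (enc_case (enc_add (kc0q0_8.enc h1 h2) (enc_rat _ 333 1000)) (enc_case (enc_add (kc0q0_8.enc h1 h2) (enc_rat _ 93 200)) (enc_case (enc_add (kc0q0_8.enc h1 h2) (enc_rat _ 61 125)) (enc_add (enc_subr 2231189 240000 (enc_neg (enc_scaleT 2231189 120000 (kc0q0_8.enc h1 h2)))) (enc_mul (enc_norm (kc0q0_3.enc h1 h2)) (enc_norm (enc_add (enc_scaleT 9 4 (kc0q0_8.enc h1 h2)) (enc_rat _ 9 8))))) (enc_case (enc_add (kc0q0_8.enc h1 h2) (enc_rat _ 481 1000)) (enc_add (enc_subr 50310731 70000000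 (enc_neg (enc_scaleT 71091 70000 (kc0q0_8.enc h1 h2)))) (enc_mul (enc_norm (kc0q0_3.enc h1 h2)) (enc_norm (enc_add (enc_scaleT 13 7 (kc0q0_8.enc h1 h2)) (enc_rat _ 6533 7000))))) (enc_add (enc_subr 52643 10000000 (enc_scaleT 4677 10000 (kc0q0_8.enc h1 h2))) (enc_mul (enc_norm (kc0q0_3.enc h1 h2)) (enc_norm (enc_add (enc_scaleT 3 2 (kc0q0_8.enc h1 h2)) (enc_rat _ 1523 2000))))))) (enc_case (enc_add (kc0q0_8.enc h1 h2) (enc_rat _ 43 100)) (enc_case (enc_add (kc0q0_8.enc h1 h2) (enc_rat _ 9 20)) (enc_add (enc_add (enc_scaleT 3206 3125 (kc0q0_8.enc h1 h2)) (enc_rat _ 63577 250000)) (enc_mul (enc_norm (kc0q0_3.enc h1 h2)) (enc_norm (enc_add (enc_scaleT 16 15 (kc0q0_8.enc h1 h2)) (enc_rat _ 14 25))))) (enc_add (enc_add (enc_scaleT 279909 200000 (kc0q0_8.enc h1 h2)) (enc_rat _ 1689757 4000000)) (enc_mul (enc_norm (kc0q0_3.enc h1 h2)) (enc_norm (enc_add (enc_scaleT 13 20 (kc0q0_8.enc h1 h2))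 (enc_rat _ 149 400)))))) (enc_case (enc_add (kc0q0_8.enc h1 h2) (enc_rat _ 2 5)) (enc_add (enc_add (enc_scaleT 466937 300000 (kc0q0_8.enc h1 h2)) (enc_rat _ 7348669 15000000)) (enc_mul (enc_norm (kc0q0_3.enc h1 h2)) (enc_norm (enc_add (enc_scaleT 3 10 (kc0q0_8.enc h1 h2)) (enc_rat _ 111 500))))) (enc_add (enc_add (enc_scaleT 282007 167500 (kc0q0_8.enc h1 h2)) (enc_rat _ 181160681 335000000)) (enc_mul (enc_norm (kc0q0_3.enc h1 h2)) (enc_norm (enc_sub (enc_rat _ 2617 33500) (enc_scaleT 4 67 (kc0q0_8.enc h1 h2))))))))) (enc_case (enc_subr 167 1000 (kc0q0_8.enc h1 h2)) (enc_case (enc_add (kc0q0_8.enc h1 h2) (enc_rat _ 167 1000)) (enc_add (enc_add (enc_scaleT 361681 207500 (kc0q0_8.enc h1 h2)) (enc_rat _ 232634077 415000000)) (enc_mul (enc_norm (kc0q0_3.enc h1 h2)) (enc_norm (enc_subr 1261 41500 (enc_neg (enc_scaleT 32 83 (kc0q0_8.enc h1 h2))))))) (enc_case (kc0q0_8.enc h1 h2) (enc_add (enc_add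 (enc_scaleT 183233 104375 (kc0q0_8.enc h1 h2)) (enc_rat _ 562649 1000000)) (enc_mul (enc_norm (kc0q0_3.enc h1 h2)) (enc_norm (enc_subr 7 100 (enc_neg (enc_scaleT 104 167 (kc0q0_8.enc h1 h2))))))) (enc_add (enc_add (enc_scaleT 740231 417500 (kc0q0_8.enc h1 h2)) (enc_rat _ 562649 1000000)) (enc_mul (enc_norm (kc0q0_3.enc h1 h2)) (enc_norm (enc_subr 7 100 (enc_neg (enc_scaleT 132 167 (kc0q0_8.enc h1 h2))))))))) (enc_case (enc_subr 2 5 (kc0q0_8.enc h1 h2)) (enc_case (enc_subr 333 1000 (kc0q0_8.enc h1 h2)) (enc_add (enc_add (enc_scaleT 736259 415000 (kc0q0_8.enc h1 h2)) (enc_rat _ 58355607 103750000)) (enc_mul (enc_norm (kc0q0_3.enc h1 h2)) (enc_norm (enc_subr 551 10375 (enc_neg (enc_scaleT 74 83 (kc0q0_8.enc h1 h2))))))) (enc_add (enc_add (enc_scaleT 1189441 670000 (kc0q0_8.enc h1 h2)) (enc_rat _ 376590297 670000000)) (enc_mul (enc_norm (kc0q0_3.enc h1 h2)) (enc_norm (enc_subr 2471 67000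 (enc_neg (enc_scaleT 63 67 (kc0q0_8.enc h1 h2)))))))) (enc_case (enc_subr 43 100 (kc0q0_8.enc h1 h2)) (enc_add (enc_add (enc_scaleT 533203 300000 (kc0q0_8.enc h1 h2)) (enc_rat _ 16837553 30000000)) (enc_mul (enc_norm (kc0q0_3.enc h1 h2)) (enc_norm (enc_subr 79 3000 (enc_neg (enc_scaleT 29 30 (kc0q0_8.enc h1 h2))))))) (enc_add (enc_add (enc_scaleT 283231892359 159700000000 (kc0q0_8.enc h1 h2)) (enc_rat _ 8989413746563 15970000000000)) (enc_mul (enc_norm (kc0q0_3.enc h1 h2)) (enc_norm (enc_subr 510360139653 15970000000000 (enc_neg (enc_scaleT 152287903729 159700000000 (kc0q0_8.enc h1 h2))))))))))))⟩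
noncomputable def kf0q1_10 : Fn2 := ⟨_, _, fun h1 h2 => (enc_scaleT 3 2 h1)⟩
noncomputable def kf0q1 : Fn2 := ⟨_, _, fun h1 h2 => (enc_norm (enc_add (enc_mul (enc_norm (enc_mul (enc_norm (enc_add (enc_pnc _ 1) (enc_nat 2 (c1g.enc h1)))) (enc_norm (enc_sub (kf0q1_10.enc h1 h2) (c1g.enc h1))))) (enc_inv (enc_nat 2 (enc_sub (enc_add (enc_pnc _ 1) (kf0q1_10.enc h1 h2)) (c1g.enc h1))))) (enc_mul (enc_norm (enc_subn 1 h1)) (kcg.enc (enc_norm (enc_sub (enc_scaleT 3 4 h1) (enc_half (c1g.enc h1)))) h2))))⟩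
noncomputable def l0q1 : Fn2 := ⟨_, _, fun h1 h2 => (enc_norm (txg.enc (enc_norm (enc_sub (enc_scaleT 3 4 h1) (enc_half (c1g.enc h1)))) (c1g.enc h1) h2))⟩
noncomputable def gsg : Fn1 := ⟨_, _, fun h1 => (enc_sqrt (enc_sub (enc_pnc _ 1) (enc_scaleT 3 4 (enc_sq h1))))⟩
noncomputable def gug : Fn1 := ⟨_, _, fun h1 => (enc_norm (enc_add (enc_scaleT 3 4 h1) (enc_scaleT 3 2 (enc_sub (enc_pnc _ 1) (gsg.enc h1)))))⟩
noncomputable def kc0q1_3 : Fn2 := ⟨_, _, fun h1 h2 => (enc_subr 38847 40000 h2)⟩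
noncomputable def kc0q1_9 : Fn2 := ⟨_, _, fun h1 h2 => (enc_sub (enc_scaleT 3 4 h1) (enc_half (c1g.enc h1)))⟩
noncomputable def kc0q1 : Fn2 := ⟨_, _, fun h1 h2 => (enc_norm (enc_case (enc_subr 781 1742 (kc0q1_9.enc h1 h2)) (enc_case (enc_add (kc0q1_9.enc h1 h2) (enc_rat _ 333 1000)) (enc_case (enc_add (kc0q1_9.enc h1 h2) (enc_rat _ 93 200)) (enc_case (enc_add (kc0q1_9.enc h1 h2) (enc_rat _ 61 125)) (enc_add (enc_subr 2231189 240000 (enc_neg (enc_scaleT 2231189 120000 (kc0q1_9.enc h1 h2)))) (enc_mul (enc_norm (kc0q1_3.enc h1 h2)) (enc_norm (enc_add (enc_scaleT 9 4 (kc0q1_9.enc h1 h2)) (enc_rat _ 9 8))))) (enc_case (enc_add (kc0q1_9.enc h1 h2) (enc_rat _ 481 1000)) (enc_add (enc_subr 50310731 70000000 (enc_neg (enc_scaleT 71091 70000 (kc0q1_9.enc h1 h2)))) (enc_mul (enc_norm (kc0q1_3.enc h1 h2)) (enc_norm (enc_add (enc_scaleT 13 7 (kc0q1_9.enc h1 h2)) (enc_rat _ 6533 7000))))) (enc_add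 (enc_subr 52643 10000000 (enc_scaleT 4677 10000 (kc0q1_9.enc h1 h2))) (enc_mul (enc_norm (kc0q1_3.enc h1 h2)) (enc_norm (enc_add (enc_scaleT 3 2 (kc0q1_9.enc h1 h2)) (enc_rat _ 1523 2000))))))) (enc_case (enc_add (kc0q1_9.enc h1 h2) (enc_rat _ 43 100)) (enc_case (enc_add (kc0q1_9.enc h1 h2) (enc_rat _ 9 20)) (enc_add (enc_add (enc_scaleT 3206 3125 (kc0q1_9.enc h1 h2)) (enc_rat _ 63577 250000)) (enc_mul (enc_norm (kc0q1_3.enc h1 h2)) (enc_norm (enc_add (enc_scaleT 16 15 (kc0q1_9.enc h1 h2)) (enc_rat _ 14 25))))) (enc_add (enc_add (enc_scaleT 279909 200000 (kc0q1_9.enc h1 h2)) (enc_rat _ 1689757 4000000)) (enc_mul (enc_norm (kc0q1_3.enc h1 h2)) (enc_norm (enc_add (enc_scaleT 13 20 (kc0q1_9.enc h1 h2)) (enc_rat _ 149 400)))))) (enc_case (enc_add (kc0q1_9.enc h1 h2) (enc_rat _ 2 5)) (enc_add (enc_add (enc_scaleT 466937 300000 (kc0q1_9.enc h1 h2)) (enc_rat _ 7348669 15000000)) (enc_mul (enc_norm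 (kc0q1_3.enc h1 h2)) (enc_norm (enc_add (enc_scaleT 3 10 (kc0q1_9.enc h1 h2)) (enc_rat _ 111 500))))) (enc_add (enc_add (enc_scaleT 282007 167500 (kc0q1_9.enc h1 h2)) (enc_rat _ 181160681 335000000)) (enc_mul (enc_norm (kc0q1_3.enc h1 h2)) (enc_norm (enc_sub (enc_rat _ 2617 33500) (enc_scaleT 4 67 (kc0q1_9.enc h1 h2))))))))) (enc_case (enc_subr 167 1000 (kc0q1_9.enc h1 h2)) (enc_case (enc_add (kc0q1_9.enc h1 h2) (enc_rat _ 167 1000)) (enc_add (enc_add (enc_scaleT 361681 207500 (kc0q1_9.enc h1 h2)) (enc_rat _ 232634077 415000000)) (enc_mul (enc_norm (kc0q1_3.enc h1 h2)) (enc_norm (enc_subr 1261 41500 (enc_neg (enc_scaleT 32 83 (kc0q1_9.enc h1 h2))))))) (enc_case (kc0q1_9.enc h1 h2) (enc_add (enc_add (enc_scaleT 183233 104375 (kc0q1_9.enc h1 h2)) (enc_rat _ 562649 1000000)) (enc_mul (enc_norm (kc0q1_3.enc h1 h2)) (enc_norm (enc_subr 7 100 (enc_neg (enc_scaleT 104 167 (kc0q1_9.enc h1 h2)))))))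 (enc_add (enc_add (enc_scaleT 740231 417500 (kc0q1_9.enc h1 h2)) (enc_rat _ 562649 1000000)) (enc_mul (enc_norm (kc0q1_3.enc h1 h2)) (enc_norm (enc_subr 7 100 (enc_neg (enc_scaleT 132 167 (kc0q1_9.enc h1 h2))))))))) (enc_case (enc_subr 2 5 (kc0q1_9.enc h1 h2)) (enc_case (enc_subr 333 1000 (kc0q1_9.enc h1 h2)) (enc_add (enc_add (enc_scaleT 736259 415000 (kc0q1_9.enc h1 h2)) (enc_rat _ 58355607 103750000)) (enc_mul (enc_norm (kc0q1_3.enc h1 h2)) (enc_norm (enc_subr 551 10375 (enc_neg (enc_scaleT 74 83 (kc0q1_9.enc h1 h2))))))) (enc_add (enc_add (enc_scaleT 1189441 670000 (kc0q1_9.enc h1 h2)) (enc_rat _ 376590297 670000000)) (enc_mul (enc_norm (kc0q1_3.enc h1 h2)) (enc_norm (enc_subr 2471 67000 (enc_neg (enc_scaleT 63 67 (kc0q1_9.enc h1 h2)))))))) (enc_case (enc_subr 43 100 (kc0q1_9.enc h1 h2)) (enc_add (enc_add (enc_scaleT 533203 300000 (kc0q1_9.enc h1 h2)) (enc_rat _ 16837553 30000000))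 (enc_mul (enc_norm (kc0q1_3.enc h1 h2)) (enc_norm (enc_subr 79 3000 (enc_neg (enc_scaleT 29 30 (kc0q1_9.enc h1 h2))))))) (enc_add (enc_add (enc_scaleT 283231892359 159700000000 (kc0q1_9.enc h1 h2)) (enc_rat _ 8989413746563 15970000000000)) (enc_mul (enc_norm (kc0q1_3.enc h1 h2)) (enc_norm (enc_subr 510360139653 15970000000000 (enc_neg (enc_scaleT 152287903729 159700000000 (kc0q1_9.enc h1 h2))))))))))) (enc_case (enc_subr 541 1141 (kc0q1_9.enc h1 h2)) (enc_sub (enc_add (enc_add (enc_rat _ 3 4) (enc_scaleT 3 2 h1)) (enc_scaleT 3 4 (enc_mul (enc_norm (enc_mul h1 (enc_inv (c1g.enc h1)))) (gug.enc h1)))) (enc_mul (kcg.enc (enc_norm (kc0q1_9.enc h1 h2)) h2) (enc_norm (enc_add (gug.enc h1) (enc_nat 2 (c1g.enc h1)))))) (enc_case (enc_subr 483 1000 (kc0q1_9.enc h1 h2)) (enc_case (enc_subr 479 1000 (kc0q1_9.enc h1 h2)) (enc_add (enc_sub (enc_rat _ 1462619790243951 55390000000000) (enc_scaleT 2972846871169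 55390000000 (kc0q1_9.enc h1 h2))) (enc_mul (enc_norm (kc0q1_3.enc h1 h2)) (enc_norm (enc_sub (enc_rat _ 396442215689879 6923750000000) (enc_scaleT 820389338601 6923750000 (kc0q1_9.enc h1 h2)))))) (enc_add (enc_sub (enc_rat _ 66010083 2500000) (enc_scaleT 268337 5000 (kc0q1_9.enc h1 h2))) (enc_mul (enc_norm (kc0q1_3.enc h1 h2)) (enc_norm (enc_sub (enc_rat _ 7128 125) (enc_nat 118 (kc0q1_9.enc h1 h2))))))) (enc_case (enc_subr 487 1000 (kc0q1_9.enc h1 h2)) (enc_add (enc_sub (enc_rat _ 966326709 40000000) (enc_scaleT 1960703 40000 (kc0q1_9.enc h1 h2))) (enc_mul (enc_norm (kc0q1_3.enc h1 h2)) (enc_norm (enc_sub (enc_rat _ 227613 4000) (enc_scaleT 471 4 (kc0q1_9.enc h1 h2)))))) (enc_case (enc_subr 491 1000 (kc0q1_9.enc h1 h2)) (enc_add (enc_sub (enc_rat _ 534378163 40000000) (enc_scaleT 214749 8000 (kc0q1_9.enc h1 h2))) (enc_mul (enc_norm (kc0q1_3.enc h1 h2)) (enc_norm (enc_sub (enc_rat _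 224691 4000) (enc_scaleT 465 4 (kc0q1_9.enc h1 h2)))))) (enc_add (enc_sub (enc_rat _ 896171 90000) (enc_scaleT 896171 45000 (kc0q1_9.enc h1 h2))) (enc_mul (enc_norm (kc0q1_3.enc h1 h2)) (enc_norm (enc_subr 151 3 (enc_scaleT 302 3 (kc0q1_9.enc h1 h2))))))))))))⟩
noncomputable def yag : Fn1 := ⟨_, _, fun h1 => (enc_sqrt (enc_scaleT 4 3 (enc_sub (enc_pnc _ 1) (enc_sq h1))))⟩
noncomputable def kfc02 : Fn2 := ⟨_, _, fun h1 h2 => (enc_norm (enc_add h1 (enc_mul (enc_norm (enc_subn 1 (yag.enc h1))) (kcg.enc (enc_neg h1) h2))))⟩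
noncomputable def lc02_7 : Fn2 := ⟨_, _, fun h1 h2 => (enc_scaleT 3 4 (yag.enc h1))⟩
noncomputable def lc02_8 : Fn2 := ⟨_, _, fun h1 h2 => (enc_half h1)⟩
noncomputable def lc02 : Fn2 := ⟨_, _, fun h1 h2 => (enc_norm (enc_sub (txg.enc (enc_neg h1) (enc_norm (enc_add (lc02_7.enc h1 h2) (lc02_8.enc h1 h2))) h2) (txg.enc h1 (enc_norm (enc_sub (lc02_7.enc h1 h2) (lc02_8.enc h1 h2))) h2)))⟩
noncomputable def kcc02_4 : Fn2 := ⟨_, _, fun h1 h2 => (enc_subr 38847 40000 h2)⟩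
noncomputable def kcc02_15 : Fn2 := ⟨_, _, fun h1 h2 => (enc_scaleT 25840979 2000000 h1)⟩
noncomputable def kcc02_19 : Fn2 := ⟨_, _, fun h1 h2 => (enc_scaleT 3 200 h1)⟩
noncomputable def kcc02 : Fn2 := ⟨_, _, fun h1 h2 => (enc_norm (enc_case (enc_subr 1 10 h1) (enc_pnc _ 0) (enc_case (enc_subr 3 10 h1) (enc_add (enc_sub (enc_rat _ 25840979 20000000) (kcc02_15.enc h1 h2)) (enc_mul (enc_norm (kcc02_4.enc h1 h2)) (enc_norm (enc_sub (enc_rat _ 3 2000) (kcc02_19.enc h1 h2))))) (enc_add (enc_subr 25840979 4000000 (kcc02_15.enc h1 h2)) (enc_mul (enc_norm (kcc02_4.enc h1 h2)) (enc_norm (enc_subr 3 400 (kcc02_19.enc h1 h2))))))))⟩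
noncomputable def swg : Fn1 := ⟨_, _, fun h1 => (enc_sqrt (enc_sub (enc_pnc _ 1) (enc_scaleT 3 4 (enc_sq (enc_norm (enc_subn 1 h1))))))⟩
noncomputable def cv1m : Fn1 := ⟨_, _, fun h1 => (enc_norm (enc_add (enc_scaleT 3 4 (c1g.enc h1)) (enc_scaleT 1 4 (enc_add (swg.enc h1) (enc_rat _ 1 2)))))⟩
noncomputable def bf1q0_3 : Fn2 := ⟨_, _, fun h1 h2 => (enc_subr 38847 40000 h2)⟩
noncomputable def bf1q0 : Fn2 := ⟨_, _, fun h1 h2 => (enc_norm (enc_case (enc_subr 71 2000 h1) (enc_case (enc_subr 29 2000 h1) (enc_case (enc_subr 1 200 h1) (enc_add (enc_sub (enc_pnc _ 1) (enc_scaleT 1127791 500000 h1)) (enc_mul (enc_norm (bf1q0_3.enc h1 h2)) (enc_scaleT 113 50 h1))) (enc_case (enc_subr 21 2000 h1) (enc_add (enc_sub (enc_rat _ 1100002839 1100000000) (enc_scaleT 620427 275000 h1)) (enc_mul (enc_norm (bf1q0_3.enc h1 h2)) (enc_norm (enc_add (enc_scaleT 122 55 h1) (enc_rat _ 23 110000))))) (enc_add (enc_sub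 (enc_rat _ 800005629 800000000) (enc_scaleT 902609 400000 h1)) (enc_mul (enc_norm (bf1q0_3.enc h1 h2)) (enc_norm (enc_add (enc_scaleT 87 40 h1) (enc_rat _ 53 80000))))))) (enc_case (enc_subr 9 512 h1) (enc_add (enc_sub (enc_rat _ 9850005353 9850000000) (enc_scaleT 1388896 615625 h1)) (enc_mul (enc_norm (bf1q0_3.enc h1 h2)) (enc_norm (enc_add (enc_scaleT 2048 985 h1) (enc_rat _ 2021 985000))))) (enc_case (enc_subr 1 40 h1) (enc_add (enc_sub (enc_rat _ 1899983597 1900000000) (enc_scaleT 3348086 1484375 h1)) (enc_mul (enc_norm (bf1q0_3.enc h1 h2)) (enc_norm (enc_add (enc_scaleT 4768 2375 h1) (enc_rat _ 629 190000))))) (enc_add (enc_sub (enc_rat _ 140002357 140000000) (enc_scaleT 3949 1750 h1)) (enc_mul (enc_norm (bf1q0_3.enc h1 h2)) (enc_norm (enc_add (enc_scaleT 40 21 h1) (enc_rat _ 247 42000)))))))) (enc_case (enc_subr 1 10 h1) (enc_case (enc_subr 1 20 h1) (enc_add (enc_sub (enc_rat _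 2899964009 2900000000) (enc_scaleT 1635417 725000 h1)) (enc_mul (enc_norm (bf1q0_3.enc h1 h2)) (enc_norm (enc_add (enc_scaleT 262 145 h1) (enc_rat _ 2713 290000))))) (enc_case (enc_subr 7 100 h1) (enc_add (enc_sub (enc_rat _ 199997047 200000000) (enc_scaleT 4511401 2000000 h1)) (enc_mul (enc_norm (bf1q0_3.enc h1 h2)) (enc_norm (enc_add (enc_scaleT 343 200 h1) (enc_rat _ 279 20000))))) (enc_add (enc_sub (enc_rat _ 99999339 100000000) (enc_scaleT 2255817 1000000 h1)) (enc_mul (enc_norm (bf1q0_3.enc h1 h2)) (enc_norm (enc_add (enc_scaleT 493 300 h1) (enc_rat _ 569 30000))))))) (enc_case (enc_subr 11 50 h1) (enc_case (enc_subr 3 20 h1) (enc_add (enc_sub (enc_rat _ 100000243 100000000) (enc_scaleT 11279537 5000000 h1)) (enc_mul (enc_norm (bf1q0_3.enc h1 h2)) (enc_norm (enc_add (enc_scaleT 791 500 h1) (enc_rat _ 251 10000))))) (enc_add (enc_sub (enc_rat _ 699974299 700000000) (enc_scaleT 631581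 280000 h1)) (enc_mul (enc_norm (bf1q0_3.enc h1 h2)) (enc_norm (enc_add (enc_scaleT 43 28 h1) (enc_rat _ 2243 70000)))))) (enc_case (enc_subr 33 100 h1) (enc_add (enc_sub (enc_rat _ 99999333 100000000) (enc_scaleT 2255783 1000000 h1)) (enc_mul (enc_norm (bf1q0_3.enc h1 h2)) (enc_norm (enc_add (enc_scaleT 1659 1100 h1) (enc_rat _ 381 10000))))) (enc_add (enc_sub (enc_rat _ 8499693 8500000) (enc_scaleT 19173397 8500000 h1)) (enc_mul (enc_norm (bf1q0_3.enc h1 h2)) (enc_norm (enc_add (enc_scaleT 1271 850 h1) (enc_rat _ 18 425))))))))))⟩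
noncomputable def kf1q0 : Fn2 := ⟨_, _, fun h1 h2 => (enc_norm (enc_mul (cv1m.enc h1) (bf1q0.enc h1 h2)))⟩
noncomputable def bx1q0_3 : Fn2 := ⟨_, _, fun h1 h2 => (enc_subr 38847 40000 h2)⟩
noncomputable def bx1q0 : Fn2 := ⟨_, _, fun h1 h2 => (enc_norm (enc_case (enc_subr 71 2000 h1) (enc_case (enc_subr 29 2000 h1) (enc_case (enc_subr 1 200 h1) (enc_sub (enc_scaleT 6797 15625 h1) (enc_mul (enc_norm (bx1q0_3.enc h1 h2)) (enc_scaleT 36 25 h1))) (enc_case (enc_subr 21 2000 h1) (enc_add (enc_add (enc_scaleT 11571 27500 h1) (enc_rat _ 9793 137500000)) (enc_mul (enc_norm (bx1q0_3.enc h1 h2)) (enc_norm (enc_subr 12 6875 (enc_neg (enc_scaleT 12 11 h1)))))) (enc_add (enc_add (enc_scaleT 84161 200000 h1) (enc_rat _ 5663 80000000)) (enc_mul (enc_norm (bx1q0_3.enc h1 h2)) (enc_norm (enc_subr 9 8000 (enc_neg (enc_scaleT 23 20 h1)))))))) (enc_case (enc_subr 9 512 h1) (enc_add (enc_add (enc_scaleT 51298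 123125 h1) (enc_rat _ 1293051 9850000000)) (enc_mul (enc_norm (bx1q0_3.enc h1 h2)) (enc_norm (enc_subr 1293 985000 (enc_neg (enc_scaleT 224 197 h1)))))) (enc_case (enc_subr 1 40 h1) (enc_add (enc_add (enc_scaleT 591148 1484375 h1) (enc_rat _ 863499 1900000000)) (enc_mul (enc_norm (bx1q0_3.enc h1 h2)) (enc_norm (enc_subr 357 190000 (enc_neg (enc_scaleT 2624 2375 h1)))))) (enc_add (enc_add (enc_scaleT 398791 1050000 h1) (enc_rat _ 384563 420000000)) (enc_mul (enc_norm (bx1q0_3.enc h1 h2)) (enc_norm (enc_subr 109 42000 (enc_neg (enc_scaleT 113 105 h1))))))))) (enc_case (enc_subr 1 10 h1) (enc_case (enc_subr 1 20 h1) (enc_add (enc_add (enc_scaleT 34681 90625 h1) (enc_rat _ 36847 45312500)) (enc_mul (enc_norm (bx1q0_3.enc h1 h2)) (enc_norm (enc_subr 343 36250 (enc_neg (enc_scaleT 128 145 h1)))))) (enc_case (enc_subr 7 100 h1) (enc_add (enc_add (enc_scaleT 190439 500000 h1) (enc_rat _ 45181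 50000000)) (enc_mul (enc_norm (bx1q0_3.enc h1 h2)) (enc_norm (enc_subr 133 5000 (enc_neg (enc_scaleT 27 50 h1)))))) (enc_add (enc_add (enc_scaleT 190359 500000 h1) (enc_rat _ 45741 50000000)) (enc_mul (enc_norm (bx1q0_3.enc h1 h2)) (enc_norm (enc_subr 889 15000 (enc_neg (enc_scaleT 11 150 h1)))))))) (enc_case (enc_subr 11 50 h1) (enc_case (enc_subr 3 20 h1) (enc_add (enc_add (enc_scaleT 1892859 5000000 h1) (enc_rat _ 7059 6250000)) (enc_mul (enc_norm (bx1q0_3.enc h1 h2)) (enc_norm (enc_subr 62 625 (enc_scaleT 163 500 h1))))) (enc_add (enc_add (enc_scaleT 1315537 3500000 h1) (enc_rat _ 1074537 700000000)) (enc_mul (enc_norm (bx1q0_3.enc h1 h2)) (enc_norm (enc_subr 9791 70000 (enc_scaleT 209 350 h1)))))) (enc_case (enc_subr 33 100 h1) (enc_add (enc_add (enc_scaleT 2033483 5500000 h1) (enc_rat _ 288663 100000000)) (enc_mul (enc_norm (bx1q0_3.enc h1 h2)) (enc_norm (enc_subr 1809 10000 (enc_scaleT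 431 550 h1))))) (enc_add (enc_add (enc_scaleT 47411 265625 h1) (enc_rat _ 22438101 340000000)) (enc_mul (enc_norm (bx1q0_3.enc h1 h2)) (enc_norm (enc_subr 7443 34000 (enc_scaleT 382 425 h1))))))))))⟩
noncomputable def l1q0 : Fn2 := ⟨_, _, fun h1 h2 => (enc_norm (enc_mul (cv1m.enc h1) (bx1q0.enc h1 h2)))⟩
noncomputable def bd1q0_3 : Fn2 := ⟨_, _, fun h1 h2 => (enc_subr 38847 40000 h2)⟩
noncomputable def bd1q0 : Fn2 := ⟨_, _, fun h1 h2 => (enc_norm (enc_case (enc_subr 9 512 h1) (enc_case (enc_subr 1 100 h1) (enc_sub (enc_mul (enc_norm (bd1q0_3.enc h1 h2)) (enc_scaleT 37 10 h1)) (enc_scaleT 2165259 100000 h1)) (enc_add (enc_sub (enc_rat _ 40277 970000000) (enc_scaleT 262588 12125 h1)) (enc_mul (enc_norm (bd1q0_3.enc h1 h2)) (enc_norm (enc_add (enc_scaleT 320 97 h1) (enc_rat _ 389 97000)))))) (enc_case (enc_subr 581 20000 h1) (enc_add (enc_subr 8345857 18355000000 (enc_neg (enc_scaleT 9924784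 458875 h1))) (enc_mul (enc_norm (bd1q0_3.enc h1 h2)) (enc_norm (enc_add (enc_scaleT 8960 3671 h1) (enc_rat _ 35051 1835500))))) (enc_case (enc_subr 71 2000 h1) (enc_add (enc_subr 424129801 1290000000 (enc_neg (enc_scaleT 666049 64500 h1))) (enc_mul (enc_norm (bd1q0_3.enc h1 h2)) (enc_norm (enc_add (enc_scaleT 140 129 h1) (enc_rat _ 7543 129000))))) (enc_add (enc_subr 3196107731 9290000000 (enc_neg (enc_scaleT 2298493 232250 h1))) (enc_mul (enc_norm (bd1q0_3.enc h1 h2)) (enc_norm (enc_sub (enc_rat _ 91533 929000) (enc_scaleT 40 929 h1)))))))))⟩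
noncomputable def kc1q0 : Fn2 := ⟨_, _, fun h1 h2 => (enc_norm (enc_mul (cv1m.enc h1) (bd1q0.enc h1 h2)))⟩
noncomputable def bf1q1_3 : Fn2 := ⟨_, _, fun h1 h2 => (enc_subr 38847 40000 h2)⟩
noncomputable def bf1q1 : Fn2 := ⟨_, _, fun h1 h2 => (enc_norm (enc_case (enc_subr 7 8 h1) (enc_add (enc_subr 52886417 20000000 (enc_scaleT 286379 78125 h1)) (enc_mul (enc_norm (bf1q1_3.enc h1 h2)) (enc_norm (enc_subr 307 6000 (enc_scaleT 44 375 h1))))) (enc_add (enc_subr 264434451 100000000 (enc_scaleT 22910489 6250000 h1)) (enc_mul (enc_norm (bf1q1_3.enc h1 h2)) (enc_norm (enc_subr 507 10000 (enc_scaleT 73 625 h1)))))))⟩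
noncomputable def kf1q1 : Fn2 := ⟨_, _, fun h1 h2 => (enc_norm (enc_mul (cv1m.enc h1) (bf1q1.enc h1 h2)))⟩
noncomputable def bx1q1_3 : Fn2 := ⟨_, _, fun h1 h2 => (enc_subr 38847 40000 h2)⟩
noncomputable def bx1q1 : Fn2 := ⟨_, _, fun h1 h2 => (enc_norm (enc_case (enc_subr 7 8 h1) (enc_add (enc_add (enc_scaleT 4818101 37500000 h1) (enc_rat _ 27299191 300000000)) (enc_mul (enc_norm (bx1q1_3.enc h1 h2)) (enc_norm (enc_subr 7313 30000 (enc_scaleT 3557 3750 h1))))) (enc_add (enc_add (enc_scaleT 1587719 12500000 h1) (enc_rat _ 9227933 100000000)) (enc_mul (enc_norm (bx1q1_3.enc h1 h2)) (enc_norm (enc_subr 2419 10000 (enc_scaleT 1183 1250 h1)))))))⟩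
noncomputable def l1q1 : Fn2 := ⟨_, _, fun h1 h2 => (enc_norm (enc_mul (cv1m.enc h1) (bx1q1.enc h1 h2)))⟩
noncomputable def bd1q1 : Fn2 := ⟨_, _, fun h1 h2 => (enc_norm (enc_add (enc_subr 216487 625000 (enc_neg (enc_scaleT 49459747 5000000 h1))) (enc_mul (enc_norm (enc_subr 38847 40000 h2)) (enc_norm (enc_sub (enc_rat _ 32 125) (enc_scaleT 179 500 h1))))))⟩
noncomputable def kc1q1 : Fn2 := ⟨_, _, fun h1 h2 => (enc_norm (enc_mul (cv1m.enc h1) (bd1q1.enc h1 h2)))⟩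
noncomputable def xc12a : Fn1 := ⟨_, _, fun h1 => (enc_norm (enc_add (enc_scaleT 3 4 h1) (enc_scaleT 1 4 (enc_subr 1 2 (swg.enc (yag.enc h1))))))⟩
noncomputable def bf1q2_3 : Fn2 := ⟨_, _, fun h1 h2 => (enc_subr 38847 40000 h2)⟩
noncomputable def bf1q2 : Fn2 := ⟨_, _, fun h1 h2 => (enc_norm (enc_case (enc_subr 107 100 h1) (enc_case (enc_subr 2071 2000 h1) (enc_case (enc_subr 521 512 h1) (enc_add (enc_sub (enc_rat _ 1771483 703125) (enc_scaleT 1068358 703125 h1)) (enc_mul (enc_norm (bf1q2_3.enc h1 h2)) (enc_norm (enc_sub (enc_rat _ 32 375) (enc_scaleT 32 375 h1))))) (enc_add (enc_sub (enc_rat _ 7225730839 2867500000) (enc_scaleT 5447762 3584375 h1)) (enc_mul (enc_norm (bf1q2_3.enc h1 h2)) (enc_norm (enc_sub (enc_rat _ 13624 143375) (enc_scaleT 544 5735 h1)))))) (enc_case (enc_subr 21 20 h1) (enc_add (enc_sub (enc_rat _ 1461155207 580000000) (enc_scaleT 2202909 1450000 h1)) (enc_mul (enc_norm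 (bf1q2_3.enc h1 h2)) (enc_norm (enc_sub (enc_rat _ 5199 58000) (enc_scaleT 13 145 h1))))) (enc_add (enc_sub (enc_rat _ 100756133 40000000) (enc_scaleT 3037867 2000000 h1)) (enc_mul (enc_norm (bf1q2_3.enc h1 h2)) (enc_norm (enc_sub (enc_rat _ 381 4000) (enc_scaleT 19 200 h1))))))) (enc_case (enc_subr 231 200 h1) (enc_case (enc_subr 577 500 h1) (enc_add (enc_sub (enc_rat _ 352686432461 140000000000) (enc_scaleT 2126880423 1400000000 h1)) (enc_mul (enc_norm (bf1q2_3.enc h1 h2)) (enc_norm (enc_sub (enc_rat _ 3961231 42000000) (enc_scaleT 39533 420000 h1))))) (enc_add (enc_sub (enc_rat _ 251927497 100000000) (enc_scaleT 151927497 100000000 h1)) (enc_mul (enc_norm (bf1q2_3.enc h1 h2)) (enc_norm (enc_sub (enc_rat _ 929 10000) (enc_scaleT 929 10000 h1)))))) (enc_case (enc_subr 13 10 h1) (enc_add (enc_sub (enc_rat _ 73058652809 29000000000) (enc_scaleT 4405869593 2900000000 h1)) (enc_mul (enc_norm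 (bf1q2_3.enc h1 h2)) (enc_norm (enc_sub (enc_rat _ 8597 100000) (enc_scaleT 869 10000 h1))))) (enc_add (enc_sub (enc_rat _ 125964873 50000000) (enc_scaleT 949557 625000 h1)) (enc_mul (enc_norm (bf1q2_3.enc h1 h2)) (enc_norm (enc_sub (enc_rat _ 411 5000) (enc_scaleT 21 250 h1)))))))))⟩
noncomputable def kfc12a : Fn2 := ⟨_, _, fun h1 h2 => (enc_norm (enc_mul (enc_norm (enc_add (enc_scaleT 3 4 h1) (enc_scaleT 1 4 (enc_subr 1 2 (swg.enc (yag.enc h1)))))) (bf1q2.enc (yag.enc h1) h2)))⟩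
noncomputable def bx1q2_3 : Fn2 := ⟨_, _, fun h1 h2 => (enc_subr 38847 40000 h2)⟩
noncomputable def bx1q2 : Fn2 := ⟨_, _, fun h1 h2 => (enc_norm (enc_case (enc_subr 107 100 h1) (enc_case (enc_subr 2071 2000 h1) (enc_case (enc_subr 521 512 h1) (enc_add (enc_sub (enc_rat _ 6499504 3515625) (enc_scaleT 6499504 3515625 h1)) (enc_mul (enc_norm (bx1q2_3.enc h1 h2)) (enc_norm (enc_sub (enc_rat _ 78848 5625) (enc_scaleT 78848 5625 h1))))) (enc_add (enc_sub (enc_rat _ 215182081331 114700000000) (enc_scaleT 53782 28675 h1)) (enc_mul (enc_norm (bx1q2_3.enc h1 h2)) (enc_norm (enc_sub (enc_rat _ 86720667 11470000) (enc_scaleT 8800 1147 h1)))))) (enc_case (enc_subr 21 20 h1) (enc_add (enc_sub (enc_rat _ 5447622743 2900000000) (enc_scaleT 1361503 725000 h1)) (enc_mul (enc_norm (bx1q2_3.enc h1 h2)) (enc_norm (enc_sub (enc_rat _ 182751 290000) (enc_scaleT 142 145 h1))))) (enc_add (enc_sub (enc_rat _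 150714847 100000000) (enc_scaleT 381069 250000 h1)) (enc_mul (enc_norm (bx1q2_3.enc h1 h2)) (enc_norm (enc_subr 621 10000 (enc_neg (enc_scaleT 8 25 h1)))))))) (enc_case (enc_subr 231 200 h1) (enc_case (enc_subr 577 500 h1) (enc_add (enc_sub (enc_rat _ 17440264229 12000000000) (enc_scaleT 176880247 120000000 h1)) (enc_mul (enc_norm (bx1q2_3.enc h1 h2)) (enc_norm (enc_subr 412747 1200000 (enc_neg (enc_scaleT 679 12000 h1)))))) (enc_sub (enc_neg (enc_rat _ 2476430229 10000000000)) (enc_scaleT 409253 1000000 (bx1q2_3.enc h1 h2)))) (enc_case (enc_subr 13 10 h1) (enc_add (enc_subr 25415410797 14500000000 (enc_scaleT 1889574629 1450000000 h1)) (enc_mul (enc_norm (bx1q2_3.enc h1 h2)) (enc_norm (enc_subr 1287029 1450000 (enc_scaleT 60053 145000 h1))))) (enc_add (enc_subr 17550501 10000000 (enc_scaleT 6524479 5000000 h1)) (enc_mul (enc_norm (bx1q2_3.enc h1 h2)) (enc_norm (enc_subr 1007 1000 (enc_scaleT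 253 500 h1)))))))))⟩
noncomputable def lc12a : Fn2 := ⟨_, _, fun h1 h2 => (enc_norm (enc_mul (enc_norm (enc_add (enc_scaleT 3 4 h1) (enc_scaleT 1 4 (enc_subr 1 2 (swg.enc (yag.enc h1)))))) (bx1q2.enc (yag.enc h1) h2)))⟩
noncomputable def bd1q2 : Fn2 := ⟨_, _, fun h1 h2 => (enc_norm (enc_case (enc_subr 577 500 h1) (enc_pnc _ 0) (enc_case (enc_subr 231 200 h1) (enc_pnc _ 0) (enc_add (enc_sub (enc_rat _ 307461 230000000) (enc_scaleT 1331 1150000 h1)) (enc_mul (enc_norm (enc_subr 38847 40000 h2)) (enc_norm (enc_sub (enc_rat _ 77 23000) (enc_scaleT 1 345 h1))))))))⟩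
noncomputable def kcc12a : Fn2 := ⟨_, _, fun h1 h2 => (enc_norm (enc_mul (enc_norm (enc_add (enc_scaleT 3 4 h1) (enc_scaleT 1 4 (enc_subr 1 2 (swg.enc (yag.enc h1)))))) (bd1q2.enc (yag.enc h1) h2)))⟩
noncomputable def xc12b : Fn1 := ⟨_, _, fun h1 => (enc_norm (enc_scaleT 1 4 (enc_subr 1 2 (swg.enc h1))))⟩
noncomputable def kfc12b : Fn2 := ⟨_, _, fun h1 h2 => (enc_norm (enc_mul (enc_norm (enc_scaleT 1 4 (enc_subr 1 2 (swg.enc h1)))) (bf1q2.enc h1 h2)))⟩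
noncomputable def lc12b : Fn2 := ⟨_, _, fun h1 h2 => (enc_norm (enc_mul (enc_norm (enc_scaleT 1 4 (enc_subr 1 2 (swg.enc h1)))) (bx1q2.enc h1 h2)))⟩
noncomputable def kcc12b : Fn2 := ⟨_, _, fun h1 h2 => (enc_norm (enc_mul (enc_norm (enc_scaleT 1 4 (enc_subr 1 2 (swg.enc h1)))) (bd1q2.enc h1 h2)))⟩
noncomputable def cv1r : Fn1 := ⟨_, _, fun h1 => (enc_norm (enc_scaleT 1 4 (enc_subr 1 2 (swg.enc h1))))⟩
noncomputable def c3g : Fn1 := ⟨_, _, fun h1 => (enc_sqrtg (enc_sub (enc_pnc _ 3) (enc_scaleT 3 4 (enc_sq h1))))⟩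
noncomputable def kf1q3_4 : Fn2 := ⟨_, _, fun h1 h2 => (enc_subr 38847 40000 h2)⟩
noncomputable def kf1q3_51 : Fn2 := ⟨_, _, fun h1 h2 => (enc_scaleT 1 2000 (kf1q3_4.enc h1 h2))⟩
noncomputable def kf1q3 : Fn2 := ⟨_, _, fun h1 h2 => (enc_norm (enc_mul (cv1r.enc h1) (enc_norm (enc_case (enc_subr 987 500 h1) (enc_case (enc_subr 39 20 h1) (enc_case (enc_subr 193 100 h1) (enc_add (enc_subr 362163541 21500000 (enc_scaleT 93665007 10750000 h1)) (enc_mul (enc_norm (kf1q3_4.enc h1 h2)) (enc_norm (enc_sub (enc_rat _ 3 2150) (enc_scaleT 1 1075 h1))))) (enc_sub (enc_subr 421119243 25000000 (enc_scaleT 8713 1000 h1)) (enc_scaleT 1 2500 (kf1q3_4.enc h1 h2)))) (enc_case (enc_subr 3929 2000 h1) (enc_add (enc_subr 6106305561 362500000 (enc_scaleT 12634007 1450000 h1)) (enc_mul (enc_norm (kf1q3_4.enc h1 h2)) (enc_norm (enc_sub (enc_rat _ 473 36250) (enc_scaleT 1 145 h1))))) (enc_sub (enc_subr 6400736867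 380000000 (enc_scaleT 8277 950 h1)) (kf1q3_51.enc h1 h2)))) (enc_case (enc_sub (enc_rat _ 154764337 1000000000) (c3g.enc h1)) (enc_case (enc_subr 1015 512 h1) (enc_sub (enc_subr 25941021661 1540000000 (enc_scaleT 117408 13475 h1)) (kf1q3_51.enc h1 h2)) (enc_add (enc_subr 11444517891967 30355180000000 (enc_scaleT 37329750 10624313 (c3g.enc h1))) (enc_mul (enc_norm (kf1q3_4.enc h1 h2)) (enc_norm (enc_subr 174291833 21248626000 (enc_scaleT 2500000 74370191 (c3g.enc h1))))))) (enc_case (enc_sub (enc_rat _ 105307799 1000000000) (c3g.enc h1)) (enc_add (enc_subr 466182425304819 1236413450000000 (enc_scaleT 86889440 24728269 (c3g.enc h1))) (enc_mul (enc_norm (kf1q3_4.enc h1 h2)) (enc_norm (enc_subr 989981383 123641345000 (enc_scaleT 800000 24728269 (c3g.enc h1)))))) (enc_case (enc_sub (enc_rat _ 54765409 1000000000) (c3g.enc h1)) (enc_add (enc_subr 1905613153943339 5054239000000000 (enc_scaleT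 17758881 5054239 (c3g.enc h1))) (enc_mul (enc_norm (kf1q3_4.enc h1 h2)) (enc_norm (enc_subr 4115182523 505423900000 (enc_scaleT 170000 5054239 (c3g.enc h1)))))) (enc_add (enc_subr 37703433 100000000 (enc_scaleT 192428740 54765409 (c3g.enc h1))) (enc_mul (enc_norm (kf1q3_4.enc h1 h2)) (enc_norm (enc_subr 81 10000 (enc_scaleT 1800000 54765409 (c3g.enc h1)))))))))))))⟩
noncomputable def l1q3_4 : Fn2 := ⟨_, _, fun h1 h2 => (enc_subr 38847 40000 h2)⟩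
noncomputable def l1q3 : Fn2 := ⟨_, _, fun h1 h2 => (enc_norm (enc_mul (cv1r.enc h1) (enc_norm (enc_case (enc_subr 987 500 h1) (enc_case (enc_subr 39 20 h1) (enc_case (enc_subr 193 100 h1) (enc_add (enc_subr 47191467 26875000 (enc_scaleT 7017081 5375000 h1)) (enc_mul (enc_norm (l1q3_4.enc h1 h2)) (enc_norm (enc_subr 5713 5375 (enc_scaleT 584 1075 h1))))) (enc_add (enc_subr 175617687 100000000 (enc_scaleT 261123 200000 h1)) (enc_mul (enc_norm (l1q3_4.enc h1 h2)) (enc_norm (enc_subr 10759 10000 (enc_scaleT 11 20 h1)))))) (enc_case (enc_subr 3929 2000 h1) (enc_add (enc_subr 2547051699 1450000000 (enc_scaleT 1893447 1450000 h1)) (enc_mul (enc_norm (l1q3_4.enc h1 h2)) (enc_norm (enc_subr 154543 145000 (enc_scaleT 79 145 h1))))) (enc_add (enc_subr 1666979663 950000000 (enc_scaleT 1239629 950000 h1)) (enc_mul (enc_norm (l1q3_4.enc h1 h2)) (enc_norm (enc_subr 103691 95000 (enc_scaleT 53 95 h1)))))))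 (enc_case (enc_sub (enc_rat _ 154764337 1000000000) (c3g.enc h1)) (enc_case (enc_subr 1015 512 h1) (enc_add (enc_subr 6762247183 3850000000 (enc_scaleT 2199356 1684375 h1)) (enc_mul (enc_norm (l1q3_4.enc h1 h2)) (enc_norm (enc_subr 411331 385000 (enc_scaleT 1472 2695 h1))))) (enc_add (enc_sub (enc_rat _ 114309283495929 132803912500000) (enc_scaleT 9294840 74370191 (c3g.enc h1))) (enc_mul (enc_norm (l1q3_4.enc h1 h2)) (enc_norm (enc_subr 338100111 6640195625 (enc_scaleT 21200000 74370191 (c3g.enc h1))))))) (enc_case (enc_sub (enc_rat _ 105307799 1000000000) (c3g.enc h1)) (enc_add (enc_sub (enc_rat _ 1064183423184087 1236413450000000) (enc_scaleT 3084900 24728269 (c3g.enc h1))) (enc_mul (enc_norm (l1q3_4.enc h1 h2)) (enc_norm (enc_subr 6257512941 123641345000 (enc_scaleT 7000000 24728269 (c3g.enc h1)))))) (enc_case (enc_sub (enc_rat _ 54765409 1000000000) (c3g.enc h1)) (enc_add (enc_sub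 (enc_rat _ 174009786198233 202169560000000) (enc_scaleT 631015 5054239 (c3g.enc h1))) (enc_mul (enc_norm (l1q3_4.enc h1 h2)) (enc_norm (enc_subr 1031297919 20216956000 (enc_scaleT 1450000 5054239 (c3g.enc h1)))))) (enc_add (enc_sub (enc_rat _ 86071563 100000000) (enc_scaleT 6840920 54765409 (c3g.enc h1))) (enc_mul (enc_norm (l1q3_4.enc h1 h2)) (enc_norm (enc_subr 509 10000 (enc_scaleT 15600000 54765409 (c3g.enc h1)))))))))))))⟩
noncomputable def kc1q3_4 : Fn2 := ⟨_, _, fun h1 h2 => (enc_subr 38847 40000 h2)⟩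
noncomputable def kc1q3 : Fn2 := ⟨_, _, fun h1 h2 => (enc_norm (enc_mul (cv1r.enc h1) (enc_norm (enc_case (enc_subr 1015 512 h1) (enc_sub (enc_neg (enc_rat _ 3993 10000000)) (enc_scaleT 1 1000 (kc1q3_4.enc h1 h2))) (enc_add (enc_sub (enc_rat _ 25074063 10000000) (enc_scaleT 26122975 2386818 (c3g.enc h1))) (enc_mul (enc_norm (kc1q3_4.enc h1 h2)) (enc_norm (enc_subr 9 1000 (enc_scaleT 125000 3580227 (c3g.enc h1))))))))))⟩
noncomputable def cv2m : Fn1 := ⟨_, _, fun h1 => (enc_norm (enc_add (enc_scaleT 7 20 (c1g.enc h1)) (enc_scaleT 13 20 (enc_add (swg.enc h1) (enc_rat _ 1 2)))))⟩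
noncomputable def bf2q0_3 : Fn2 := ⟨_, _, fun h1 h2 => (enc_subr 38847 40000 h2)⟩
noncomputable def bf2q0 : Fn2 := ⟨_, _, fun h1 h2 => (enc_norm (enc_case (enc_subr 71 2000 h1) (enc_case (enc_subr 29 2000 h1) (enc_case (enc_subr 1 200 h1) (enc_add (enc_sub (enc_pnc _ 1) (enc_scaleT 475659 250000 h1)) (enc_mul (enc_norm (bf2q0_3.enc h1 h2)) (enc_scaleT 237 25 h1))) (enc_case (enc_subr 21 2000 h1) (enc_add (enc_sub (enc_rat _ 549260951 550000000) (enc_scaleT 11233 6875 h1)) (enc_mul (enc_norm (bf2q0_3.enc h1 h2)) (enc_norm (enc_add (enc_scaleT 104 11 h1) (enc_rat _ 7 55000))))) (enc_add (enc_sub (enc_rat _ 163526081 160000000) (enc_scaleT 1544289 400000 h1)) (enc_mul (enc_norm (bf2q0_3.enc h1 h2)) (enc_norm (enc_sub (enc_rat _ 8617 16000) (enc_scaleT 1673 40 h1))))))) (enc_case (enc_subr 9 512 h1) (enc_add (enc_sub (enc_rat _ 20133782493 19700000000) (enc_scaleT 2375968 615625 h1)) (enc_mul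 (enc_norm (bf2q0_3.enc h1 h2)) (enc_norm (enc_sub (enc_rat _ 1061501 1970000) (enc_scaleT 41216 985 h1))))) (enc_case (enc_subr 1 40 h1) (enc_add (enc_sub (enc_rat _ 970916343 950000000) (enc_scaleT 1145734 296875 h1)) (enc_mul (enc_norm (bf2q0_3.enc h1 h2)) (enc_norm (enc_sub (enc_rat _ 50951 95000) (enc_scaleT 19808 475 h1))))) (enc_add (enc_sub (enc_rat _ 89428961 87500000) (enc_scaleT 1351153 350000 h1)) (enc_mul (enc_norm (bf2q0_3.enc h1 h2)) (enc_norm (enc_sub (enc_rat _ 13981 26250) (enc_scaleT 4363 105 h1)))))))) (enc_case (enc_subr 1 10 h1) (enc_case (enc_subr 1 20 h1) (enc_add (enc_sub (enc_rat _ 740952949 725000000) (enc_scaleT 5595951 1450000 h1)) (enc_mul (enc_norm (bf2q0_3.enc h1 h2)) (enc_norm (enc_sub (enc_rat _ 38293 72500) (enc_scaleT 6007 145 h1))))) (enc_case (enc_subr 7 100 h1) (enc_add (enc_sub (enc_rat _ 102204369 100000000) (enc_scaleT 3860069 1000000 h1)) (enc_mul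 (enc_norm (bf2q0_3.enc h1 h2)) (enc_norm (enc_sub (enc_rat _ 5233 10000) (enc_scaleT 4133 100 h1))))) (enc_add (enc_sub (enc_rat _ 306607381 300000000) (enc_scaleT 11579389 3000000 h1)) (enc_mul (enc_norm (bf2q0_3.enc h1 h2)) (enc_norm (enc_sub (enc_rat _ 15517 30000) (enc_scaleT 12373 300 h1))))))) (enc_case (enc_subr 11 50 h1) (enc_case (enc_subr 3 20 h1) (enc_add (enc_sub (enc_rat _ 102204237 100000000) (enc_scaleT 1929987 500000 h1)) (enc_mul (enc_norm (bf2q0_3.enc h1 h2)) (enc_norm (enc_sub (enc_rat _ 5109 10000) (enc_scaleT 2059 50 h1))))) (enc_add (enc_sub (enc_rat _ 715424229 700000000) (enc_scaleT 422179 109375 h1)) (enc_mul (enc_norm (bf2q0_3.enc h1 h2)) (enc_norm (enc_sub (enc_rat _ 35253 70000) (enc_scaleT 7198 175 h1)))))) (enc_case (enc_subr 33 100 h1) (enc_add (enc_sub (enc_rat _ 102204203 100000000) (enc_scaleT 964989 250000 h1)) (enc_mul (enc_norm (bf2q0_3.enc h1 h2))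 (enc_norm (enc_sub (enc_rat _ 4971 10000) (enc_scaleT 11303 275 h1))))) (enc_add (enc_sub (enc_rat _ 868732277 850000000) (enc_scaleT 65619043 17000000 h1)) (enc_mul (enc_norm (bf2q0_3.enc h1 h2)) (enc_norm (enc_sub (enc_rat _ 41889 85000) (enc_scaleT 69851 1700 h1))))))))))⟩
noncomputable def kf2q0 : Fn2 := ⟨_, _, fun h1 h2 => (enc_norm (enc_mul (cv2m.enc h1) (bf2q0.enc h1 h2)))⟩
noncomputable def bx2q0_3 : Fn2 := ⟨_, _, fun h1 h2 => (enc_subr 38847 40000 h2)⟩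
noncomputable def bx2q0 : Fn2 := ⟨_, _, fun h1 h2 => (enc_norm (enc_case (enc_subr 71 2000 h1) (enc_case (enc_subr 29 2000 h1) (enc_case (enc_subr 1 200 h1) (enc_add (enc_scaleT 117951 125000 h1) (enc_mul (enc_norm (bx2q0_3.enc h1 h2)) (enc_scaleT 14 25 h1))) (enc_case (enc_subr 21 2000 h1) (enc_add (enc_add (enc_scaleT 493021 550000 h1) (enc_rat _ 129817 550000000)) (enc_mul (enc_norm (bx2q0_3.enc h1 h2)) (enc_norm (enc_sub (enc_rat _ 169 55000) (enc_scaleT 3 55 h1))))) (enc_add (enc_add (enc_scaleT 82587 100000 h1) (enc_rat _ 195323 200000000)) (enc_mul (enc_norm (bx2q0_3.enc h1 h2)) (enc_norm (enc_subr 1189 20000 (enc_scaleT 59 10 h1))))))) (enc_case (enc_subr 9 512 h1) (enc_add (enc_add (enc_scaleT 101138 123125 h1) (enc_rat _ 20508921 19700000000)) (enc_mul (enc_norm (bx2q0_3.enc h1 h2)) (enc_norm (enc_subr 101703 1970000 (enc_scaleT 1056 197 h1))))) (enc_case (enc_subr 1 40 h1)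 (enc_add (enc_add (enc_scaleT 1244784 1484375 h1) (enc_rat _ 702351 950000000)) (enc_mul (enc_norm (bx2q0_3.enc h1 h2)) (enc_norm (enc_sub (enc_rat _ 5307 95000) (enc_scaleT 1792 2375 h1))))) (enc_add (enc_add (enc_scaleT 114067 150000 h1) (enc_rat _ 20197 7500000)) (enc_mul (enc_norm (bx2q0_3.enc h1 h2)) (enc_norm (enc_sub (enc_rat _ 139 2625) (enc_scaleT 67 105 h1)))))))) (enc_case (enc_subr 1 10 h1) (enc_case (enc_subr 1 20 h1) (enc_add (enc_add (enc_scaleT 536287 725000 h1) (enc_rat _ 9944737 2900000000)) (enc_mul (enc_norm (bx2q0_3.enc h1 h2)) (enc_norm (enc_sub (enc_rat _ 14609 290000) (enc_scaleT 82 145 h1))))) (enc_case (enc_subr 7 100 h1) (enc_add (enc_add (enc_scaleT 1374707 2000000 h1) (enc_rat _ 1209371 200000000)) (enc_mul (enc_norm (bx2q0_3.enc h1 h2)) (enc_norm (enc_sub (enc_rat _ 947 20000) (enc_scaleT 101 200 h1))))) (enc_add (enc_add (enc_scaleT 1653959 3000000 h1)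 (enc_rat _ 4670767 300000000)) (enc_mul (enc_norm (bx2q0_3.enc h1 h2)) (enc_norm (enc_sub (enc_rat _ 1319 30000) (enc_scaleT 137 300 h1))))))) (enc_case (enc_subr 11 50 h1) (enc_case (enc_subr 3 20 h1) (enc_add (enc_add (enc_scaleT 172747 500000 h1) (enc_rat _ 3615179 100000000)) (enc_mul (enc_norm (bx2q0_3.enc h1 h2)) (enc_norm (enc_sub (enc_rat _ 403 10000) (enc_scaleT 21 50 h1))))) (enc_add (enc_add (enc_scaleT 1185967 7000000 h1) (enc_rat _ 21896809 350000000)) (enc_mul (enc_norm (bx2q0_3.enc h1 h2)) (enc_norm (enc_sub (enc_rat _ 1313 35000) (enc_scaleT 281 700 h1)))))) (enc_case (enc_subr 33 100 h1) (enc_add (enc_add (enc_scaleT 218533 5500000 h1) (enc_rat _ 569339 6250000)) (enc_mul (enc_norm (bx2q0_3.enc h1 h2)) (enc_norm (enc_sub (enc_rat _ 23 625) (enc_scaleT 219 550 h1))))) (enc_add (enc_sub (enc_rat _ 239722567 1700000000) (enc_scaleT 1896121 17000000 h1)) (enc_mul (enc_norm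 (bx2q0_3.enc h1 h2)) (enc_norm (enc_sub (enc_rat _ 407 10000) (enc_scaleT 41 100 h1))))))))))⟩
noncomputable def l2q0 : Fn2 := ⟨_, _, fun h1 h2 => (enc_norm (enc_mul (cv2m.enc h1) (bx2q0.enc h1 h2)))⟩
noncomputable def bd2q0_3 : Fn2 := ⟨_, _, fun h1 h2 => (enc_subr 38847 40000 h2)⟩
noncomputable def bd2q0 : Fn2 := ⟨_, _, fun h1 h2 => (enc_norm (enc_case (enc_subr 9 512 h1) (enc_case (enc_subr 1 100 h1) (enc_sub (enc_neg (enc_scaleT 1632949 50000 h1)) (enc_mul (enc_norm (bd2q0_3.enc h1 h2)) (enc_scaleT 293 5 h1))) (enc_add (enc_sub (enc_rat _ 157693931 485000000) (enc_scaleT 19755624 303125 h1)) (enc_mul (enc_norm (bd2q0_3.enc h1 h2)) (enc_norm (enc_subr 133 48500 (enc_neg (enc_scaleT 28288 485 h1))))))) (enc_case (enc_subr 581 20000 h1) (enc_add (enc_subr 1652533367 18355000000 (enc_neg (enc_scaleT 3813656 91775 h1))) (enc_mul (enc_norm (bd2q0_3.enc h1 h2)) (enc_norm (enc_subr 1915019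 1835500 (enc_scaleT 3200 3671 h1))))) (enc_case (enc_subr 71 2000 h1) (enc_add (enc_subr 38560759 430000000 (enc_neg (enc_scaleT 893683 21500 h1))) (enc_mul (enc_norm (bd2q0_3.enc h1 h2)) (enc_norm (enc_subr 135389 129000 (enc_scaleT 140 129 h1))))) (enc_add (enc_subr 836110429 9290000000 (enc_neg (enc_scaleT 96517289 2322500 h1))) (enc_mul (enc_norm (bd2q0_3.enc h1 h2)) (enc_norm (enc_subr 985653 929000 (enc_scaleT 1308 929 h1)))))))))⟩
noncomputable def kc2q0 : Fn2 := ⟨_, _, fun h1 h2 => (enc_norm (enc_mul (cv2m.enc h1) (bd2q0.enc h1 h2)))⟩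
noncomputable def bf2q1_3 : Fn2 := ⟨_, _, fun h1 h2 => (enc_subr 38847 40000 h2)⟩
noncomputable def bf2q1 : Fn2 := ⟨_, _, fun h1 h2 => (enc_norm (enc_case (enc_subr 7 8 h1) (enc_add (enc_sub (enc_rat _ 351476489 300000000) (enc_scaleT 3670111 4687500 h1)) (enc_mul (enc_norm (bf2q1_3.enc h1 h2)) (enc_norm (enc_sub (enc_rat _ 73 30000) (enc_scaleT 8 1875 h1))))) (enc_add (enc_sub (enc_rat _ 117158797 100000000) (enc_scaleT 4893479 6250000 h1)) (enc_mul (enc_norm (bf2q1_3.enc h1 h2)) (enc_norm (enc_sub (enc_rat _ 29 10000) (enc_scaleT 3 625 h1)))))))⟩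
noncomputable def kf2q1 : Fn2 := ⟨_, _, fun h1 h2 => (enc_norm (enc_mul (cv2m.enc h1) (bf2q1.enc h1 h2)))⟩
noncomputable def bx2q1_3 : Fn2 := ⟨_, _, fun h1 h2 => (enc_subr 38847 40000 h2)⟩
noncomputable def bx2q1 : Fn2 := ⟨_, _, fun h1 h2 => (enc_norm (enc_case (enc_subr 7 8 h1) (enc_add (enc_sub (enc_rat _ 43327919 300000000) (enc_scaleT 1109651 9375000 h1)) (enc_mul (enc_norm (bx2q1_3.enc h1 h2)) (enc_norm (enc_sub (enc_rat _ 1583 30000) (enc_scaleT 814 1875 h1))))) (enc_add (enc_sub (enc_rat _ 7226851 50000000) (enc_scaleT 296223 2500000 h1)) (enc_mul (enc_norm (bx2q1_3.enc h1 h2)) (enc_norm (enc_sub (enc_rat _ 307 5000) (enc_scaleT 111 250 h1)))))))⟩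
noncomputable def l2q1 : Fn2 := ⟨_, _, fun h1 h2 => (enc_norm (enc_mul (cv2m.enc h1) (bx2q1.enc h1 h2)))⟩
noncomputable def bd2q1 : Fn2 := ⟨_, _, fun h1 h2 => (enc_norm (enc_add (enc_subr 22489 250000 (enc_neg (enc_scaleT 207787941 5000000 h1))) (enc_mul (enc_norm (enc_subr 38847 40000 h2)) (enc_norm (enc_subr 23 25 (enc_scaleT 563 500 h1))))))⟩
noncomputable def kc2q1 : Fn2 := ⟨_, _, fun h1 h2 => (enc_norm (enc_mul (cv2m.enc h1) (bd2q1.enc h1 h2)))⟩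
noncomputable def xc22a : Fn1 := ⟨_, _, fun h1 => (enc_norm (enc_add (enc_scaleT 7 20 h1) (enc_scaleT 13 20 (enc_subr 1 2 (swg.enc (yag.enc h1))))))⟩
noncomputable def bf2q2_3 : Fn2 := ⟨_, _, fun h1 h2 => (enc_subr 38847 40000 h2)⟩
noncomputable def bf2q2 : Fn2 := ⟨_, _, fun h1 h2 => (enc_norm (enc_case (enc_subr 21 20 h1) (enc_case (enc_subr 521 512 h1) (enc_add (enc_subr 1118389 3515625 (enc_scaleT 4634014 3515625 h1)) (enc_mul (enc_norm (bf2q2_3.enc h1 h2)) (enc_norm (enc_sub (enc_rat _ 32 5625) (enc_scaleT 32 5625 h1))))) (enc_case (enc_subr 2071 2000 h1) (enc_add (enc_subr 18234049423 57350000000 (enc_scaleT 4724014 3584375 h1)) (enc_mul (enc_norm (bf2q2_3.enc h1 h2)) (enc_norm (enc_sub (enc_rat _ 31989 5735000) (enc_scaleT 32 5735 h1))))) (enc_add (enc_subr 922004091 2900000000 (enc_scaleT 1911007 1450000 h1)) (enc_mul (enc_norm (bf2q2_3.enc h1 h2)) (enc_norm (enc_sub (enc_rat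 _ 2013 290000) (enc_scaleT 1 145 h1))))))) (enc_case (enc_subr 231 200 h1) (enc_case (enc_subr 107 100 h1) (enc_sub (enc_subr 31799979 100000000 (enc_scaleT 659 500 h1)) (enc_scaleT 3 10000 (bf2q2_3.enc h1 h2))) (enc_add (enc_subr 31787567 100000000 (enc_scaleT 329471 250000 h1)) (enc_mul (enc_norm (bf2q2_3.enc h1 h2)) (enc_norm (enc_sub (enc_rat _ 377 170000) (enc_scaleT 1 425 h1)))))) (enc_case (enc_subr 13 10 h1) (enc_add (enc_subr 230442709 725000000 (enc_scaleT 19109021 14500000 h1)) (enc_mul (enc_norm (bf2q2_3.enc h1 h2)) (enc_norm (enc_sub (enc_rat _ 137 72500) (enc_scaleT 3 1450 h1))))) (enc_add (enc_subr 15898313 50000000 (enc_scaleT 6589757 5000000 h1)) (enc_mul (enc_norm (bf2q2_3.enc h1 h2)) (enc_norm (enc_sub (enc_rat _ 9 5000) (enc_scaleT 1 500 h1)))))))))⟩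
noncomputable def kfc22a : Fn2 := ⟨_, _, fun h1 h2 => (enc_norm (enc_mul (enc_norm (enc_add (enc_scaleT 7 20 h1) (enc_scaleT 13 20 (enc_subr 1 2 (swg.enc (yag.enc h1)))))) (bf2q2.enc (yag.enc h1) h2)))⟩
noncomputable def bx2q2_3 : Fn2 := ⟨_, _, fun h1 h2 => (enc_subr 38847 40000 h2)⟩
noncomputable def bx2q2 : Fn2 := ⟨_, _, fun h1 h2 => (enc_norm (enc_case (enc_subr 21 20 h1) (enc_case (enc_subr 521 512 h1) (enc_add (enc_sub (enc_rat _ 2584658 3515625) (enc_scaleT 2584658 3515625 h1)) (enc_mul (enc_norm (bx2q2_3.enc h1 h2)) (enc_norm (enc_subr 1504 5625 (enc_scaleT 1504 5625 h1))))) (enc_case (enc_subr 2071 2000 h1) (enc_add (enc_sub (enc_rat _ 81578514387 114700000000) (enc_scaleT 2550812 3584375 h1)) (enc_mul (enc_norm (bx2q2_3.enc h1 h2)) (enc_norm (enc_subr 3723341 11470000 (enc_scaleT 1856 5735 h1))))) (enc_add (enc_sub (enc_rat _ 1999360529 2900000000) (enc_scaleT 250341 362500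 h1)) (enc_mul (enc_norm (bx2q2_3.enc h1 h2)) (enc_norm (enc_subr 104647 290000 (enc_scaleT 52 145 h1))))))) (enc_case (enc_subr 231 200 h1) (enc_case (enc_subr 107 100 h1) (enc_add (enc_sub (enc_rat _ 132359867 200000000) (enc_scaleT 1328553 2000000 h1)) (enc_mul (enc_norm (bx2q2_3.enc h1 h2)) (enc_norm (enc_subr 7981 20000 (enc_scaleT 79 200 h1))))) (enc_add (enc_sub (enc_rat _ 556670837 850000000) (enc_scaleT 5591597 8500000 h1)) (enc_mul (enc_norm (bx2q2_3.enc h1 h2)) (enc_norm (enc_subr 37691 85000 (enc_scaleT 371 850 h1)))))) (enc_case (enc_subr 13 10 h1) (enc_add (enc_subr 4343688917 2900000000 (enc_scaleT 2185877 1812500 h1)) (enc_mul (enc_norm (bx2q2_3.enc h1 h2)) (enc_norm (enc_subr 146869 290000 (enc_scaleT 356 725 h1))))) (enc_add (enc_subr 79855433 50000000 (enc_scaleT 12823741 10000000 h1)) (enc_mul (enc_norm (bx2q2_3.enc h1 h2)) (enc_norm (enc_subr 2831 5000 (enc_scaleT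 537 1000 h1)))))))))⟩
noncomputable def lc22a : Fn2 := ⟨_, _, fun h1 h2 => (enc_norm (enc_mul (enc_norm (enc_add (enc_scaleT 7 20 h1) (enc_scaleT 13 20 (enc_subr 1 2 (swg.enc (yag.enc h1)))))) (bx2q2.enc (yag.enc h1) h2)))⟩
noncomputable def bd2q2_3 : Fn2 := ⟨_, _, fun h1 h2 => (enc_subr 38847 40000 h2)⟩
noncomputable def bd2q2 : Fn2 := ⟨_, _, fun h1 h2 => (enc_norm (enc_case (enc_subr 231 200 h1) (enc_add (enc_subr 13157193 310000 (enc_scaleT 13157193 310000 h1)) (enc_mul (enc_norm (bd2q2_3.enc h1 h2)) (enc_norm (enc_subr 1 31 (enc_scaleT 1 31 h1))))) (enc_add (enc_subr 9761943947 230000000 (enc_scaleT 73214423 1725000 h1)) (enc_mul (enc_norm (bd2q2_3.enc h1 h2)) (enc_norm (enc_subr 1579 23000 (enc_scaleT 22 345 h1)))))))⟩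
noncomputable def kcc22a : Fn2 := ⟨_, _, fun h1 h2 => (enc_norm (enc_mul (enc_norm (enc_add (enc_scaleT 7 20 h1) (enc_scaleT 13 20 (enc_subr 1 2 (swg.enc (yag.enc h1)))))) (bd2q2.enc (yag.enc h1) h2)))⟩
noncomputable def xc22b : Fn1 := ⟨_, _, fun h1 => (enc_norm (enc_scaleT 13 20 (enc_subr 1 2 (swg.enc h1))))⟩
noncomputable def kfc22b : Fn2 := ⟨_, _, fun h1 h2 => (enc_norm (enc_mul (enc_norm (enc_scaleT 13 20 (enc_subr 1 2 (swg.enc h1)))) (bf2q2.enc h1 h2)))⟩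
noncomputable def lc22b : Fn2 := ⟨_, _, fun h1 h2 => (enc_norm (enc_mul (enc_norm (enc_scaleT 13 20 (enc_subr 1 2 (swg.enc h1)))) (bx2q2.enc h1 h2)))⟩
noncomputable def kcc22b : Fn2 := ⟨_, _, fun h1 h2 => (enc_norm (enc_mul (enc_norm (enc_scaleT 13 20 (enc_subr 1 2 (swg.enc h1)))) (bd2q2.enc h1 h2)))⟩
noncomputable def cv2r : Fn1 := ⟨_, _, fun h1 => (enc_norm (enc_scaleT 13 20 (enc_subr 1 2 (swg.enc h1))))⟩
noncomputable def kf2q3_4 : Fn2 := ⟨_, _, fun h1 h2 => (enc_subr 38847 40000 h2)⟩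
noncomputable def kf2q3 : Fn2 := ⟨_, _, fun h1 h2 => (enc_norm (enc_mul (cv2r.enc h1) (enc_norm (enc_case (enc_subr 987 500 h1) (enc_case (enc_subr 39 20 h1) (enc_case (enc_subr 193 100 h1) (enc_add (enc_sub (enc_rat _ 4210818509 4300000000) (enc_scaleT 27295597 43000000 h1)) (enc_mul (enc_norm (kf2q3_4.enc h1 h2)) (enc_norm (enc_sub (enc_rat _ 8526213 430000) (enc_scaleT 56629 4300 h1))))) (enc_add (enc_sub (enc_rat _ 49010549 50000000) (enc_scaleT 317637 500000 h1)) (enc_mul (enc_norm (kf2q3_4.enc h1 h2)) (enc_norm (enc_sub (enc_rat _ 99243 5000) (enc_scaleT 659 50 h1)))))) (enc_case (enc_subr 3929 2000 h1) (enc_add (enc_sub (enc_rat _ 354576559 362500000) (enc_scaleT 919609 1450000 h1)) (enc_mul (enc_norm (kf2q3_4.enc h1 h2)) (enc_norm (enc_sub (enc_rat _ 360219 18125) (enc_scaleT 1913 145 h1))))) (enc_add (enc_sub (enc_rat _ 930662431 950000000) (enc_scaleT 603229 950000 h1)) (enc_mul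 (enc_norm (kf2q3_4.enc h1 h2)) (enc_norm (enc_sub (enc_rat _ 1887367 95000) (enc_scaleT 1253 95 h1))))))) (enc_case (enc_sub (enc_rat _ 154764337 1000000000) (c3g.enc h1)) (enc_case (enc_subr 1015 512 h1) (enc_add (enc_sub (enc_rat _ 3766628639 3850000000) (enc_scaleT 1068432 1684375 h1)) (enc_mul (enc_norm (kf2q3_4.enc h1 h2)) (enc_norm (enc_sub (enc_rat _ 7659623 385000) (enc_scaleT 35584 2695 h1))))) (enc_add (enc_subr 250578196202209 531215650000000 (enc_scaleT 62500250 74370191 (c3g.enc h1))) (enc_mul (enc_norm (kf2q3_4.enc h1 h2)) (enc_norm (enc_subr 127802146113 53121565000 (enc_neg (enc_scaleT 1257500000 74370191 (c3g.enc h1)))))))) (enc_case (enc_sub (enc_rat _ 105307799 1000000000) (c3g.enc h1)) (enc_add (enc_subr 93317945458041 197826152000000 (enc_scaleT 20783055 24728269 (c3g.enc h1))) (enc_mul (enc_norm (kf2q3_4.enc h1 h2)) (enc_norm (enc_subr 47528469617 19782615200 (enc_neg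 (enc_scaleT 418650000 24728269 (c3g.enc h1))))))) (enc_case (enc_sub (enc_rat _ 54765409 1000000000) (c3g.enc h1)) (enc_add (enc_subr 2384597113001253 5054239000000000 (enc_scaleT 4251927 5054239 (c3g.enc h1))) (enc_mul (enc_norm (kf2q3_4.enc h1 h2)) (enc_norm (enc_subr 1213861123821 505423900000 (enc_neg (enc_scaleT 85610000 5054239 (c3g.enc h1))))))) (enc_add (enc_subr 5900861 12500000 (enc_scaleT 46339390 54765409 (c3g.enc h1))) (enc_mul (enc_norm (kf2q3_4.enc h1 h2)) (enc_norm (enc_subr 1501 625 (enc_neg (enc_scaleT 927700000 54765409 (c3g.enc h1))))))))))))))⟩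
noncomputable def l2q3_4 : Fn2 := ⟨_, _, fun h1 h2 => (enc_subr 38847 40000 h2)⟩
noncomputable def l2q3 : Fn2 := ⟨_, _, fun h1 h2 => (enc_norm (enc_mul (cv2r.enc h1) (enc_norm (enc_case (enc_subr 987 500 h1) (enc_case (enc_subr 39 20 h1) (enc_case (enc_subr 193 100 h1) (enc_add (enc_subr 7120970893 4300000000 (enc_scaleT 14207861 10750000 h1)) (enc_mul (enc_norm (l2q3_4.enc h1 h2)) (enc_norm (enc_subr 273301 430000 (enc_scaleT 627 1075 h1))))) (enc_add (enc_subr 68705969 40000000 (enc_scaleT 2707167 2000000 h1)) (enc_mul (enc_norm (l2q3_4.enc h1 h2)) (enc_norm (enc_subr 2633 4000 (enc_scaleT 119 200 h1)))))) (enc_case (enc_subr 3929 2000 h1) (enc_add (enc_subr 8073739 4531250 (enc_scaleT 2010391 1450000 h1)) (enc_mul (enc_norm (l2q3_4.enc h1 h2)) (enc_norm (enc_subr 167 250 (enc_scaleT 3 5 h1))))) (enc_add (enc_subr 3508935057 1900000000 (enc_scaleT 674297 475000 h1)) (enc_mul (enc_norm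 (l2q3_4.enc h1 h2)) (enc_norm (enc_subr 130849 190000 (enc_scaleT 58 95 h1))))))) (enc_case (enc_sub (enc_rat _ 154764337 1000000000) (c3g.enc h1)) (enc_case (enc_subr 1015 512 h1) (enc_add (enc_subr 14312279463 7700000000 (enc_scaleT 2401272 1684375 h1)) (enc_mul (enc_norm (l2q3_4.enc h1 h2)) (enc_norm (enc_subr 540791 770000 (enc_scaleT 1664 2695 h1))))) (enc_add (enc_sub (enc_rat _ 1027953056612721 1062431300000000) (enc_scaleT 36670 74370191 (c3g.enc h1))) (enc_mul (enc_norm (l2q3_4.enc h1 h2)) (enc_norm (enc_sub (enc_rat _ 75689079897 106243130000) (enc_scaleT 61900000 74370191 (c3g.enc h1))))))) (enc_case (enc_sub (enc_rat _ 105307799 1000000000) (c3g.enc h1)) (enc_add (enc_add (enc_scaleT 79370 24728269 (c3g.enc h1)) (enc_rat _ 2391161136184043 2472826900000000)) (enc_mul (enc_norm (l2q3_4.enc h1 h2)) (enc_norm (enc_add (enc_scaleT 50900000 24728269 (c3g.enc h1)) (enc_rat _ 65539130351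 247282690000))))) (enc_case (enc_sub (enc_rat _ 54765409 1000000000) (c3g.enc h1)) (enc_add (enc_sub (enc_rat _ 2453118850954127 2527119500000000) (enc_scaleT 163406 5054239 (c3g.enc h1))) (enc_mul (enc_norm (l2q3_4.enc h1 h2)) (enc_norm (enc_add (enc_scaleT 10580000 5054239 (c3g.enc h1)) (enc_rat _ 66048791839 252711950000))))) (enc_add (enc_sub (enc_rat _ 12147711 12500000) (enc_scaleT 2870080 54765409 (c3g.enc h1))) (enc_mul (enc_norm (l2q3_4.enc h1 h2)) (enc_norm (enc_add (enc_scaleT 114400000 54765409 (c3g.enc h1)) (enc_rat _ 327 1250))))))))))))⟩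
noncomputable def kc2q3_4 : Fn2 := ⟨_, _, fun h1 h2 => (enc_subr 38847 40000 h2)⟩
noncomputable def kc2q3 : Fn2 := ⟨_, _, fun h1 h2 => (enc_norm (enc_mul (cv2r.enc h1) (enc_norm (enc_case (enc_subr 197 100 h1) (enc_case (enc_subr 3929 2000 h1) (enc_add (enc_subr 394306844581 9290000000 (enc_scaleT 49287867 1161250 h1)) (enc_mul (enc_norm (kc2q3_4.enc h1 h2)) (enc_norm (enc_subr 202917 929000 (enc_scaleT 152 929 h1))))) (enc_add (enc_subr 186688077 4400000 (enc_scaleT 1166993 27500 h1)) (enc_mul (enc_norm (kc2q3_4.enc h1 h2)) (enc_norm (enc_subr 269 440 (enc_scaleT 4 11 h1)))))) (enc_case (enc_subr 1015 512 h1) (enc_add (enc_subr 4500182887 106000000 (enc_scaleT 1406124 33125 h1)) (enc_mul (enc_norm (kc2q3_4.enc h1 h2)) (enc_norm (enc_subr 21877 31800 (enc_scaleT 64 159 h1))))) (enc_add (enc_add (enc_scaleT 253516775 1591212 (c3g.enc h1)) (enc_rat _ 25954537 5000000)) (enc_mul (enc_norm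 (kc2q3_4.enc h1 h2)) (enc_norm (enc_subr 337791 500 (enc_scaleT 10557687500 3580227 (c3g.enc h1)))))))))))⟩
noncomputable def cv3m : Fn1 := ⟨_, _, fun h1 => (enc_norm (enc_add (enc_scaleT 1929 2000 (enc_add (swg.enc h1) (enc_rat _ 1 2))) (enc_scaleT 71 2000 (c3g.enc h1))))⟩
noncomputable def esg : Fn1 := ⟨_, _, fun h1 => (enc_norm (enc_subn 1 (enc_add (enc_half h1) (gsg.enc h1))))⟩
noncomputable def kf3q0_4 : Fn2 := ⟨_, _, fun h1 h2 => (enc_subr 38847 40000 h2)⟩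
noncomputable def kf3q0_142 : Fn2 := ⟨_, _, fun h1 h2 => (enc_sub (enc_pnc _ 1) h1)⟩
noncomputable def kf3q0_143 : Fn2 := ⟨_, _, fun h1 h2 => (gsg.enc (enc_norm (kf3q0_142.enc h1 h2)))⟩
noncomputable def kf3q0_146 : Fn2 := ⟨_, _, fun h1 h2 => (enc_sub (enc_scaleT 3 4 (kf3q0_142.enc h1 h2)) (enc_half (kf3q0_143.enc h1 h2)))⟩
noncomputable def kf3q0_147 : Fn2 := ⟨_, _, fun h1 h2 => (esg.enc (enc_norm (kf3q0_142.enc h1 h2)))⟩
noncomputable def kf3q0_148 : Fn2 := ⟨_, _, fun h1 h2 => (kcg.enc (enc_norm (kf3q0_146.enc h1 h2)) h2)⟩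
noncomputable def kf3q0_156 : Fn2 := ⟨_, _, fun h1 h2 => (enc_sub (kf3q0_146.enc h1 h2) (enc_sub (enc_rat _ 1 4) (enc_scaleT 3 8 (enc_mul (enc_norm (kf3q0_142.enc h1 h2)) (enc_inv (kf3q0_143.enc h1 h2))))))⟩
noncomputable def kf3q0_165 : Fn2 := ⟨_, _, fun h1 h2 => (enc_mul (cv2m.enc h1) (bf2q0.enc h1 h2))⟩
noncomputable def kf3q0 : Fn2 := ⟨_, _, fun h1 h2 => (enc_norm (enc_case (enc_subr 9 512 h1) (enc_mul (cv3m.enc h1) (enc_norm (enc_case (enc_subr 21 2000 h1) (enc_case (enc_subr 1 200 h1) (enc_add (enc_sub (enc_rat _ 12065481 12500000) (enc_scaleT 3015709 500000 h1)) (enc_mul (enc_norm (kf3q0_4.enc h1 h2)) (enc_norm (enc_add (enc_scaleT 1387 50 h1) (enc_rat _ 46 625))))) (enc_add (enc_sub (enc_rat _ 1061756209 1100000000) (enc_scaleT 829167 137500 h1)) (enc_mul (enc_norm (kf3q0_4.enc h1 h2)) (enc_norm (enc_add (enc_scaleT 1524 55 h1) (enc_rat _ 8113 110000)))))) (enc_case (enc_subr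 29 2000 h1) (enc_add (enc_sub (enc_rat _ 97299257 100000000) (enc_scaleT 169233 25000 h1)) (enc_mul (enc_norm (kf3q0_4.enc h1 h2)) (enc_norm (enc_add (enc_scaleT 138 5 h1) (enc_rat _ 749 10000))))) (enc_add (enc_sub (enc_rat _ 479209381819 492500000000) (enc_scaleT 208413567 30781250 h1)) (enc_mul (enc_norm (kf3q0_4.enc h1 h2)) (enc_norm (enc_add (enc_scaleT 84795144 3078125 h1) (enc_rat _ 465775199 6156250000))))))))) (enc_case (enc_subr 71 2000 h1) (enc_add (kf3q0_165.enc h1 h2) (enc_mul (enc_norm (enc_mul (enc_norm (enc_sub (enc_wB0 (enc_mul h1 (enc_norm (enc_sub (enc_mul (enc_norm (kf3q0_156.enc h1 h2)) (enc_inv (kf3q0_147.enc h1 h2))) (kf3q0_148.enc h1 h2)))) (kf3q0_142.enc h1 h2) (kf3q0_143.enc h1 h2) (kf3q0_147.enc h1 h2) h1 (kf3q0_156.enc h1 h2) (kf3q0_148.enc h1 h2) rfl rfl rfl rfl) (kf3q0_165.enc h1 h2))) (enc_norm (enc_sub (cv3m.enc h1) (cv2m.enc h1))))) (enc_inv (enc_sub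 (enc_add (swg.enc h1) (enc_rat _ 1 2)) (cv2m.enc h1))))) (enc_mul (cv3m.enc h1) (enc_norm (enc_case (enc_subr 1 10 h1) (enc_case (enc_subr 1 20 h1) (enc_add (enc_sub (enc_rat _ 56033619 50000000) (enc_scaleT 19625111 2500000 h1)) (enc_mul (enc_norm (kf3q0_4.enc h1 h2)) (enc_norm (enc_sub (enc_rat _ 399740243 290000000) (enc_scaleT 60092243 14500000 h1))))) (enc_case (enc_subr 7 100 h1) (enc_add (enc_sub (enc_rat _ 224135017 200000000) (enc_scaleT 15700197 2000000 h1)) (enc_mul (enc_norm (kf3q0_4.enc h1 h2)) (enc_norm (enc_sub (enc_rat _ 27569 20000) (enc_scaleT 829 200 h1))))) (enc_add (enc_sub (enc_rat _ 336195599 300000000) (enc_scaleT 11774653 1500000 h1)) (enc_mul (enc_norm (kf3q0_4.enc h1 h2)) (enc_norm (enc_sub (enc_rat _ 13781 10000) (enc_scaleT 207 50 h1))))))) (enc_case (enc_subr 11 50 h1) (enc_case (enc_subr 3 20 h1) (enc_add (enc_sub (enc_rat _ 112068547 100000000) (enc_scaleT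 39250517 5000000 h1)) (enc_mul (enc_norm (kf3q0_4.enc h1 h2)) (enc_norm (enc_sub (enc_rat _ 13779 10000) (enc_scaleT 2069 500 h1))))) (enc_add (enc_sub (enc_rat _ 784450207 700000000) (enc_scaleT 54948749 7000000 h1)) (enc_mul (enc_norm (kf3q0_4.enc h1 h2)) (enc_norm (enc_sub (enc_rat _ 96399 70000) (enc_scaleT 2893 700 h1)))))) (enc_case (enc_subr 33 100 h1) (enc_add (enc_sub (enc_rat _ 112066701 100000000) (enc_scaleT 86349227 11000000 h1)) (enc_mul (enc_norm (kf3q0_4.enc h1 h2)) (enc_norm (enc_sub (enc_rat _ 13757 10000) (enc_scaleT 4539 1100 h1))))) (enc_add (enc_sub (enc_rat _ 1905105723 1700000000) (enc_scaleT 133447951 17000000 h1)) (enc_mul (enc_norm (kf3q0_4.enc h1 h2)) (enc_norm (enc_sub (enc_rat _ 233611 170000) (enc_scaleT 7007 1700 h1)))))))))))))⟩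
noncomputable def qsg : Fn1 := ⟨_, _, fun h1 => (enc_norm (enc_mul (enc_norm (enc_sub (enc_pnc _ 1) (gsg.enc h1))) (enc_norm (enc_subn 1 (enc_nat 2 (gsg.enc h1))))))⟩
noncomputable def l3q0_4 : Fn2 := ⟨_, _, fun h1 h2 => (enc_subr 38847 40000 h2)⟩
noncomputable def l3q0_52 : Fn2 := ⟨_, _, fun h1 h2 => (enc_sq (enc_norm (l3q0_4.enc h1 h2)))⟩
noncomputable def l3q0_154 : Fn2 := ⟨_, _, fun h1 h2 => (enc_sub (enc_pnc _ 1) h1)⟩
noncomputable def l3q0_169 : Fn2 := ⟨_, _, fun h1 h2 => (enc_mul (cv2m.enc h1) (bx2q0.enc h1 h2))⟩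
noncomputable def l3q0 : Fn2 := ⟨_, _, fun h1 h2 => (enc_norm (enc_case (enc_subr 9 512 h1) (enc_mul (cv3m.enc h1) (enc_norm (enc_case (enc_subr 21 2000 h1) (enc_case (enc_subr 1 200 h1) (enc_add (enc_add (enc_scaleT 123417 100000 h1) (enc_rat _ 2347527 100000000)) (enc_mul (enc_norm (l3q0_4.enc h1 h2)) (enc_norm (enc_sub (enc_rat _ 639 10000) (enc_scaleT 31 10 h1))))) (enc_add (enc_add (enc_scaleT 628253 550000 h1) (enc_rat _ 13164101 550000000)) (enc_mul (enc_norm (l3q0_4.enc h1 h2)) (enc_norm (enc_sub (enc_rat _ 3557 55000) (enc_scaleT 179 55 h1)))))) (enc_case (enc_subr 29 2000 h1) (enc_add (enc_add (enc_scaleT 468889 400000 h1) (enc_rat _ 18896251 800000000)) (enc_mul (enc_norm (l3q0_4.enc h1 h2)) (enc_norm (enc_sub (enc_rat _ 5107 80000) (enc_scaleT 127 40 h1))))) (enc_add (enc_add (enc_add (enc_scaleT 31284763 30781250 h1) (enc_rat _ 6373036717 246250000000)) (enc_mul (enc_norm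 (l3q0_4.enc h1 h2)) (enc_norm (enc_subr 166451693 1539062500 (enc_scaleT 26737518 3078125 h1))))) (enc_mul (l3q0_52.enc h1 h2) (enc_norm (enc_sub (enc_rat _ 1497067 6156250) (enc_scaleT 412984 24625 h1))))))))) (enc_case (enc_subr 71 2000 h1) (enc_add (l3q0_169.enc h1 h2) (enc_mul (enc_norm (enc_mul (enc_norm (enc_sub (enc_sub (qsg.enc (enc_norm (l3q0_154.enc h1 h2))) (enc_mul (enc_norm (enc_nat 2 (enc_sub (l3q0_154.enc h1 h2) h2))) (enc_norm (enc_mul (esg.enc (enc_norm (l3q0_154.enc h1 h2))) (kcg.enc (enc_norm (enc_sub (enc_scaleT 3 4 (l3q0_154.enc h1 h2)) (enc_half (gsg.enc (enc_norm (l3q0_154.enc h1 h2)))))) h2))))) (l3q0_169.enc h1 h2))) (enc_norm (enc_sub (cv3m.enc h1) (cv2m.enc h1))))) (enc_inv (enc_sub (enc_add (swg.enc h1) (enc_rat _ 1 2)) (cv2m.enc h1))))) (enc_mul (cv3m.enc h1) (enc_norm (enc_case (enc_subr 1 10 h1) (enc_case (enc_subr 1 20 h1) (enc_add (enc_add (enc_add (enc_scaleT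 3545297 7250000 h1) (enc_rat _ 126506079 2900000000)) (enc_mul (enc_norm (l3q0_4.enc h1 h2)) (enc_norm (enc_sub (enc_rat _ 73080307 145000000) (enc_scaleT 79938807 7250000 h1))))) (enc_mul (l3q0_52.enc h1 h2) (enc_norm (enc_sub (enc_rat _ 1631 18125) (enc_scaleT 6524 3625 h1))))) (enc_case (enc_subr 7 100 h1) (enc_add (enc_add (enc_scaleT 961637 2000000 h1) (enc_rat _ 8806437 200000000)) (enc_mul (enc_norm (l3q0_4.enc h1 h2)) (enc_norm (enc_subr 491 20000 (enc_neg (enc_scaleT 91 200 h1)))))) (enc_add (enc_add (enc_scaleT 285547 600000 h1) (enc_rat _ 13312699 300000000)) (enc_mul (enc_norm (l3q0_4.enc h1 h2)) (enc_norm (enc_subr 319 10000 (enc_neg (enc_scaleT 7 20 h1)))))))) (enc_case (enc_subr 11 50 h1) (enc_case (enc_subr 3 20 h1) (enc_add (enc_add (enc_scaleT 17871 40000 h1) (enc_rat _ 4728933 100000000)) (enc_mul (enc_norm (l3q0_4.enc h1 h2)) (enc_norm (enc_subr 419 10000 (enc_neg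 (enc_scaleT 1 4 h1)))))) (enc_add (enc_add (enc_scaleT 1422871 3500000 h1) (enc_rat _ 1166493 21875000)) (enc_mul (enc_norm (l3q0_4.enc h1 h2)) (enc_norm (enc_subr 248 4375 (enc_neg (enc_scaleT 53 350 h1))))))) (enc_case (enc_subr 33 100 h1) (enc_add (enc_add (enc_scaleT 3916399 11000000 h1) (enc_rat _ 3221751 50000000)) (enc_mul (enc_norm (l3q0_4.enc h1 h2)) (enc_norm (enc_subr 393 5000 (enc_neg (enc_scaleT 57 1100 h1)))))) (enc_add (enc_sub (enc_rat _ 223023759 850000000) (enc_scaleT 828919 3400000 h1)) (enc_mul (enc_norm (l3q0_4.enc h1 h2)) (enc_norm (enc_subr 561 5000 (enc_scaleT 1 20 h1)))))))))))))⟩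
noncomputable def kc3q0_4 : Fn2 := ⟨_, _, fun h1 h2 => (enc_subr 38847 40000 h2)⟩
noncomputable def kc3q0_44 : Fn2 := ⟨_, _, fun h1 h2 => (enc_sub (enc_pnc _ 1) h1)⟩
noncomputable def kc3q0_45 : Fn2 := ⟨_, _, fun h1 h2 => (gsg.enc (enc_norm (kc3q0_44.enc h1 h2)))⟩
noncomputable def kc3q0_49 : Fn2 := ⟨_, _, fun h1 h2 => (esg.enc (enc_norm (kc3q0_44.enc h1 h2)))⟩
noncomputable def kc3q0_53 : Fn2 := ⟨_, _, fun h1 h2 => (gug.enc (enc_norm (kc3q0_44.enc h1 h2)))⟩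
noncomputable def kc3q0_55 : Fn2 := ⟨_, _, fun h1 h2 => (enc_mul (enc_norm (kc3q0_44.enc h1 h2)) (enc_inv (kc3q0_45.enc h1 h2)))⟩
noncomputable def kc3q0_56 : Fn2 := ⟨_, _, fun h1 h2 => (enc_scaleT 3 4 (kc3q0_55.enc h1 h2))⟩
noncomputable def kc3q0_86 : Fn2 := ⟨_, _, fun h1 h2 => (enc_mul (cv2m.enc h1) (bd2q0.enc h1 h2))⟩
noncomputable def kc3q0 : Fn2 := ⟨_, _, fun h1 h2 => (enc_norm (enc_case (enc_subr 9 512 h1) (enc_mul (cv3m.enc h1) (enc_norm (enc_case (enc_subr 1 100 h1) (enc_add (enc_subr 2692041 10000000 (enc_neg (enc_scaleT 1542821 20000 h1))) (enc_mul (enc_norm (kc3q0_4.enc h1 h2)) (enc_norm (enc_sub (enc_rat _ 863 1000) (enc_scaleT 397 2 h1))))) (enc_add (enc_subr 16312375309 60625000000 (enc_neg (enc_scaleT 2923430301 37890625 h1))) (enc_mul (enc_norm (kc3q0_4.enc h1 h2)) (enc_norm (enc_sub (enc_rat _ 653593891 757812500) (enc_scaleT 1503859516 7578125 h1)))))))) (enc_case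 (enc_subr 71 2000 h1) (enc_add (kc3q0_86.enc h1 h2) (enc_mul (enc_norm (enc_mul (enc_norm (enc_sub (enc_add (enc_sub (enc_neg (enc_add (enc_add (enc_rat _ 3 4) (enc_scaleT 3 2 (kc3q0_44.enc h1 h2))) (enc_scaleT 3 4 (enc_mul (enc_norm (kc3q0_55.enc h1 h2)) (kc3q0_53.enc h1 h2))))) (enc_wT (enc_mul (enc_norm (enc_sub (enc_mul (enc_norm (enc_mul (enc_norm (kc3q0_56.enc h1 h2)) (enc_norm (enc_subn 3 (enc_nat 4 (kc3q0_45.enc h1 h2)))))) (kc3q0_49.enc h1 h2)) (enc_mul (qsg.enc (enc_norm (kc3q0_44.enc h1 h2))) (enc_norm (enc_sub (enc_rat _ 1 2) (kc3q0_56.enc h1 h2)))))) (enc_inv (enc_mul (enc_nat 2 (kc3q0_49.enc h1 h2)) (kc3q0_49.enc h1 h2)))) (kc3q0_44.enc h1 h2) (kc3q0_45.enc h1 h2) (kc3q0_49.enc h1 h2) rfl rfl rfl rfl)) (enc_mul (kcg.enc (enc_norm (enc_sub (enc_scaleT 3 4 (kc3q0_44.enc h1 h2)) (enc_half (kc3q0_45.enc h1 h2)))) h2) (enc_norm (enc_add (enc_pnc _ 1) (enc_add (kc3q0_53.enc h1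 h2) (enc_nat 2 (kc3q0_45.enc h1 h2))))))) (kc3q0_86.enc h1 h2))) (enc_norm (enc_sub (cv3m.enc h1) (cv2m.enc h1))))) (enc_inv (enc_sub (enc_add (swg.enc h1) (enc_rat _ 1 2)) (cv2m.enc h1))))) (enc_mul (cv3m.enc h1) (enc_norm (enc_add (enc_subr 1498844297 929000000 (enc_scaleT 3747791161 2322500000 h1)) (enc_mul (enc_norm (kc3q0_4.enc h1 h2)) (enc_norm (enc_sub (enc_rat _ 66828503 23225000) (enc_scaleT 38586903 11612500 h1))))))))))⟩
noncomputable def bf3q1_3 : Fn2 := ⟨_, _, fun h1 h2 => (enc_subr 38847 40000 h2)⟩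
noncomputable def bf3q1 : Fn2 := ⟨_, _, fun h1 h2 => (enc_norm (enc_case (enc_subr 7 8 h1) (enc_add (enc_add (enc_scaleT 1371729 3125000 h1) (enc_rat _ 56104679 100000000)) (enc_mul (enc_norm (bf3q1_3.enc h1 h2)) (enc_norm (enc_subr 97 10000 (enc_scaleT 6 625 h1))))) (enc_add (enc_add (enc_scaleT 5486909 12500000 h1) (enc_rat _ 7013091 12500000)) (enc_mul (enc_norm (bf3q1_3.enc h1 h2)) (enc_norm (enc_subr 13 1250 (enc_scaleT 13 1250 h1)))))))⟩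
noncomputable def kf3q1 : Fn2 := ⟨_, _, fun h1 h2 => (enc_norm (enc_mul (cv3m.enc h1) (bf3q1.enc h1 h2)))⟩
noncomputable def bx3q1_3 : Fn2 := ⟨_, _, fun h1 h2 => (enc_subr 38847 40000 h2)⟩
noncomputable def bx3q1 : Fn2 := ⟨_, _, fun h1 h2 => (enc_norm (enc_case (enc_subr 7 8 h1) (enc_add (enc_sub (enc_rat _ 10536223 37500000) (enc_scaleT 658523 2343750 h1)) (enc_mul (enc_norm (bx3q1_3.enc h1 h2)) (enc_norm (enc_subr 213 1250 (enc_scaleT 104 625 h1))))) (enc_add (enc_sub (enc_rat _ 438967 1562500) (enc_scaleT 438967 1562500 h1)) (enc_mul (enc_norm (bx3q1_3.enc h1 h2)) (enc_norm (enc_subr 124 625 (enc_scaleT 124 625 h1)))))))⟩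
noncomputable def l3q1 : Fn2 := ⟨_, _, fun h1 h2 => (enc_norm (enc_mul (cv3m.enc h1) (bx3q1.enc h1 h2)))⟩
noncomputable def bd3q1 : Fn2 := ⟨_, _, fun h1 h2 => (enc_norm (enc_add (enc_subr 1008189 625000 (enc_scaleT 1008189 625000 h1)) (enc_mul (enc_norm (enc_subr 38847 40000 h2)) (enc_norm (enc_sub (enc_rat _ 304 125) (enc_scaleT 304 125 h1))))))⟩
noncomputable def kc3q1 : Fn2 := ⟨_, _, fun h1 h2 => (enc_norm (enc_mul (cv3m.enc h1) (bd3q1.enc h1 h2)))⟩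
noncomputable def cv3p : Fn1 := ⟨_, _, fun h1 => (enc_norm (enc_add (enc_scaleT 1929 2000 (enc_subr 1 2 (swg.enc h1))) (enc_scaleT 71 2000 (c3g.enc h1))))⟩
noncomputable def bf3q2_3 : Fn2 := ⟨_, _, fun h1 h2 => (enc_subr 38847 40000 h2)⟩
noncomputable def bf3q2 : Fn2 := ⟨_, _, fun h1 h2 => (enc_norm (enc_case (enc_subr 21 20 h1) (enc_case (enc_subr 521 512 h1) (enc_add (enc_sub (enc_rat _ 237495701 180000000) (enc_scaleT 1433932 3515625 h1)) (enc_mul (enc_norm (bf3q2_3.enc h1 h2)) (enc_norm (enc_subr 6481 6000 (enc_scaleT 1472 1875 h1))))) (enc_case (enc_subr 2071 2000 h1) (enc_add (enc_sub (enc_rat _ 4881842067 3700000000) (enc_scaleT 9432 23125 h1)) (enc_mul (enc_norm (bf3q2_3.enc h1 h2)) (enc_norm (enc_subr 12344011 11470000 (enc_scaleT 896 1147 h1))))) (enc_add (enc_sub (enc_rat _ 3825037277 2900000000) (enc_scaleT 295399 725000 h1)) (enc_mul (enc_norm (bf3q2_3.enc h1 h2)) (enc_norm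 (enc_subr 313611 290000 (enc_scaleT 114 145 h1))))))) (enc_case (enc_subr 231 200 h1) (enc_case (enc_subr 107 100 h1) (enc_add (enc_sub (enc_rat _ 263817221 200000000) (enc_scaleT 815099 2000000 h1)) (enc_mul (enc_norm (bf3q2_3.enc h1 h2)) (enc_norm (enc_subr 21603 20000 (enc_scaleT 157 200 h1))))) (enc_add (enc_sub (enc_rat _ 1121278749 850000000) (enc_scaleT 346469 850000 h1)) (enc_mul (enc_norm (bf3q2_3.enc h1 h2)) (enc_norm (enc_subr 92107 85000 (enc_scaleT 67 85 h1)))))) (enc_case (enc_subr 13 10 h1) (enc_add (enc_sub (enc_rat _ 1912721637 1450000000) (enc_scaleT 2954969 7250000 h1)) (enc_mul (enc_norm (bf3q2_3.enc h1 h2)) (enc_norm (enc_subr 156091 145000 (enc_scaleT 567 725 h1))))) (enc_add (enc_sub (enc_rat _ 263826877 200000000) (enc_scaleT 1630377 4000000 h1)) (enc_mul (enc_norm (bf3q2_3.enc h1 h2)) (enc_norm (enc_subr 21411 20000 (enc_scaleT 311 400 h1)))))))))⟩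
noncomputable def kf3q2 : Fn2 := ⟨_, _, fun h1 h2 => (enc_norm (enc_mul (cv3p.enc h1) (bf3q2.enc h1 h2)))⟩
noncomputable def bx3q2_3 : Fn2 := ⟨_, _, fun h1 h2 => (enc_subr 38847 40000 h2)⟩
noncomputable def bx3q2 : Fn2 := ⟨_, _, fun h1 h2 => (enc_norm (enc_case (enc_subr 21 20 h1) (enc_case (enc_subr 521 512 h1) (enc_add (enc_subr 44796931 225000000 (enc_scaleT 38134 140625 h1)) (enc_mul (enc_norm (bx3q2_3.enc h1 h2)) (enc_norm (enc_subr 233789 7500 (enc_scaleT 2336 75 h1))))) (enc_case (enc_subr 2071 2000 h1) (enc_add (enc_subr 106257004217 114700000000 (enc_scaleT 3533852 3584375 h1)) (enc_mul (enc_norm (bx3q2_3.enc h1 h2)) (enc_norm (enc_subr 357536969 11470000 (enc_scaleT 178624 5735 h1))))) (enc_add (enc_subr 266178799 580000000 (enc_scaleT 38749 72500 h1)) (enc_mul (enc_norm (bx3q2_3.enc h1 h2)) (enc_norm (enc_sub (enc_rat _ 120657 58000) (enc_scaleT 28 29 h1))))))) (enc_case (enc_subr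 231 200 h1) (enc_case (enc_subr 107 100 h1) (enc_add (enc_subr 18355123 40000000 (enc_scaleT 1068841 2000000 h1)) (enc_mul (enc_norm (bx3q2_3.enc h1 h2)) (enc_norm (enc_sub (enc_rat _ 9789 4000) (enc_scaleT 263 200 h1))))) (enc_add (enc_subr 194808473 425000000 (enc_scaleT 4538561 8500000 h1)) (enc_mul (enc_norm (bx3q2_3.enc h1 h2)) (enc_norm (enc_sub (enc_rat _ 109639 42500) (enc_scaleT 1223 850 h1)))))) (enc_case (enc_subr 13 10 h1) (enc_add (enc_subr 2039365847 2900000000 (enc_scaleT 1081621 1450000 h1)) (enc_mul (enc_norm (bx3q2_3.enc h1 h2)) (enc_norm (enc_sub (enc_rat _ 25349 10000) (enc_scaleT 7 5 h1))))) (enc_add (enc_subr 194802603 200000000 (enc_scaleT 19084809 20000000 h1)) (enc_mul (enc_norm (bx3q2_3.enc h1 h2)) (enc_norm (enc_sub (enc_rat _ 49229 20000) (enc_scaleT 2687 2000 h1)))))))))⟩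
noncomputable def l3q2 : Fn2 := ⟨_, _, fun h1 h2 => (enc_norm (enc_mul (cv3p.enc h1) (bx3q2.enc h1 h2)))⟩
noncomputable def bd3q2_3 : Fn2 := ⟨_, _, fun h1 h2 => (enc_subr 38847 40000 h2)⟩
noncomputable def bd3q2 : Fn2 := ⟨_, _, fun h1 h2 => (enc_norm (enc_case (enc_subr 231 200 h1) (enc_add (enc_subr 2484088133 155000000 (enc_scaleT 24812813 1550000 h1)) (enc_mul (enc_norm (bd3q2_3.enc h1 h2)) (enc_norm (enc_sub (enc_rat _ 146019 15500) (enc_scaleT 1259 155 h1))))) (enc_add (enc_subr 921507359 57500000 (enc_scaleT 18409347 1150000 h1)) (enc_mul (enc_norm (bd3q2_3.enc h1 h2)) (enc_norm (enc_sub (enc_rat _ 55337 5750) (enc_scaleT 2863 345 h1)))))))⟩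
noncomputable def kc3q2 : Fn2 := ⟨_, _, fun h1 h2 => (enc_norm (enc_mul (cv3p.enc h1) (bd3q2.enc h1 h2)))⟩
noncomputable def ycg : Fn1 := ⟨_, _, fun h1 => (enc_sqrtg (enc_scaleT 4 3 (enc_sub (enc_pnc _ 3) (enc_sq h1))))⟩
noncomputable def xc33 : Fn1 := ⟨_, _, fun h1 => (enc_norm (enc_add (enc_scaleT 1929 2000 (enc_subr 1 2 (swg.enc (ycg.enc h1)))) (enc_scaleT 71 2000 h1)))⟩
noncomputable def kfc33_6 : Fn2 := ⟨_, _, fun h1 h2 => (enc_subr 1 2 (swg.enc (ycg.enc h1)))⟩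
noncomputable def kfc33_9 : Fn2 := ⟨_, _, fun h1 h2 => (enc_add (enc_scaleT 1929 2000 (kfc33_6.enc h1 h2)) (enc_scaleT 71 2000 h1))⟩
noncomputable def kfc33_11 : Fn2 := ⟨_, _, fun h1 h2 => (enc_subr 38847 40000 h2)⟩
noncomputable def kfc33_13 : Fn2 := ⟨_, _, fun h1 h2 => (enc_subr 193 100 (ycg.enc h1))⟩
noncomputable def kfc33_25 : Fn2 := ⟨_, _, fun h1 h2 => (enc_subr 39 20 (ycg.enc h1))⟩
noncomputable def kfc33_50 : Fn2 := ⟨_, _, fun h1 h2 => (enc_sub (enc_rat _ 105307799 1000000000) h1)⟩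
noncomputable def kfc33_52 : Fn2 := ⟨_, _, fun h1 h2 => (enc_sub (enc_rat _ 154764337 1000000000) h1)⟩
noncomputable def kfc33_76 : Fn2 := ⟨_, _, fun h1 h2 => (enc_sub (enc_rat _ 54765409 1000000000) h1)⟩
noncomputable def kfc33_98 : Fn2 := ⟨_, _, fun h1 h2 => (enc_subn 1 (ycg.enc h1))⟩
noncomputable def kfc33_99 : Fn2 := ⟨_, _, fun h1 h2 => (gsg.enc (enc_norm (kfc33_98.enc h1 h2)))⟩
noncomputable def kfc33_100 : Fn2 := ⟨_, _, fun h1 h2 => (enc_scaleT 3 4 (kfc33_98.enc h1 h2))⟩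
noncomputable def kfc33_101 : Fn2 := ⟨_, _, fun h1 h2 => (enc_half (kfc33_99.enc h1 h2))⟩
noncomputable def kfc33_103 : Fn2 := ⟨_, _, fun h1 h2 => (esg.enc (enc_norm (kfc33_98.enc h1 h2)))⟩
noncomputable def kfc33_104 : Fn2 := ⟨_, _, fun h1 h2 => (kcg.enc (enc_norm (enc_sub (kfc33_100.enc h1 h2) (kfc33_101.enc h1 h2))) h2)⟩
noncomputable def kfc33_106 : Fn2 := ⟨_, _, fun h1 h2 => (enc_subn 2 (ycg.enc h1))⟩
noncomputable def kfc33_113 : Fn2 := ⟨_, _, fun h1 h2 => (enc_sub (enc_sub (kfc33_101.enc h1 h2) (kfc33_100.enc h1 h2)) (enc_sub (enc_rat _ 1 4) (enc_scaleT 3 8 (enc_mul (enc_norm (kfc33_98.enc h1 h2)) (enc_inv (kfc33_99.enc h1 h2))))))⟩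
noncomputable def kfc33_119 : Fn2 := ⟨_, _, fun h1 h2 => (cv2r.enc (ycg.enc h1))⟩
noncomputable def kfc33_144 : Fn2 := ⟨_, _, fun h1 h2 => (enc_subr 3929 2000 (ycg.enc h1))⟩
noncomputable def kfc33_168 : Fn2 := ⟨_, _, fun h1 h2 => (enc_subr 1015 512 (ycg.enc h1))⟩
noncomputable def kfc33_228 : Fn2 := ⟨_, _, fun h1 h2 => (enc_mul (kfc33_119.enc h1 h2) (enc_norm (enc_case (enc_subr 987 500 (ycg.enc h1)) (enc_case (kfc33_25.enc h1 h2) (enc_case (kfc33_13.enc h1 h2) (enc_add (enc_sub (enc_rat _ 4210818509 4300000000) (enc_scaleT 27295597 43000000 (ycg.enc h1))) (enc_mul (enc_norm (kfc33_11.enc h1 h2)) (enc_norm (enc_sub (enc_rat _ 8526213 430000) (enc_scaleT 56629 4300 (ycg.enc h1)))))) (enc_add (enc_sub (enc_rat _ 49010549 50000000) (enc_scaleT 317637 500000 (ycg.enc h1))) (enc_mul (enc_norm (kfc33_11.enc h1 h2)) (enc_norm (enc_sub (enc_rat _ 99243 5000) (enc_scaleT 659 50 (ycg.enc h1)))))))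 (enc_case (kfc33_144.enc h1 h2) (enc_add (enc_sub (enc_rat _ 354576559 362500000) (enc_scaleT 919609 1450000 (ycg.enc h1))) (enc_mul (enc_norm (kfc33_11.enc h1 h2)) (enc_norm (enc_sub (enc_rat _ 360219 18125) (enc_scaleT 1913 145 (ycg.enc h1)))))) (enc_add (enc_sub (enc_rat _ 930662431 950000000) (enc_scaleT 603229 950000 (ycg.enc h1))) (enc_mul (enc_norm (kfc33_11.enc h1 h2)) (enc_norm (enc_sub (enc_rat _ 1887367 95000) (enc_scaleT 1253 95 (ycg.enc h1)))))))) (enc_case (kfc33_52.enc h1 h2) (enc_case (kfc33_168.enc h1 h2) (enc_add (enc_sub (enc_rat _ 3766628639 3850000000) (enc_scaleT 1068432 1684375 (ycg.enc h1))) (enc_mul (enc_norm (kfc33_11.enc h1 h2)) (enc_norm (enc_sub (enc_rat _ 7659623 385000) (enc_scaleT 35584 2695 (ycg.enc h1)))))) (enc_add (enc_subr 250578196202209 531215650000000 (enc_scaleT 62500250 74370191 h1)) (enc_mul (enc_norm (kfc33_11.enc h1 h2)) (enc_norm (enc_subr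 127802146113 53121565000 (enc_neg (enc_scaleT 1257500000 74370191 h1))))))) (enc_case (kfc33_50.enc h1 h2) (enc_add (enc_subr 93317945458041 197826152000000 (enc_scaleT 20783055 24728269 h1)) (enc_mul (enc_norm (kfc33_11.enc h1 h2)) (enc_norm (enc_subr 47528469617 19782615200 (enc_neg (enc_scaleT 418650000 24728269 h1)))))) (enc_case (kfc33_76.enc h1 h2) (enc_add (enc_subr 2384597113001253 5054239000000000 (enc_scaleT 4251927 5054239 h1)) (enc_mul (enc_norm (kfc33_11.enc h1 h2)) (enc_norm (enc_subr 1213861123821 505423900000 (enc_neg (enc_scaleT 85610000 5054239 h1)))))) (enc_add (enc_subr 5900861 12500000 (enc_scaleT 46339390 54765409 h1)) (enc_mul (enc_norm (kfc33_11.enc h1 h2)) (enc_norm (enc_subr 1501 625 (enc_neg (enc_scaleT 927700000 54765409 h1))))))))))))⟩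
noncomputable def kfc33 : Fn2 := ⟨_, _, fun h1 h2 => (enc_norm (enc_case (kfc33_144.enc h1 h2) (enc_mul (enc_norm (kfc33_9.enc h1 h2)) (enc_norm (enc_case (kfc33_13.enc h1 h2) (enc_add (enc_sub (enc_rat _ 4549607357 430000000) (enc_scaleT 225893529 43000000 (ycg.enc h1))) (enc_mul (enc_norm (kfc33_11.enc h1 h2)) (enc_norm (enc_subr 235651 43000 (enc_scaleT 15647 4300 (ycg.enc h1)))))) (enc_case (kfc33_25.enc h1 h2) (enc_add (enc_sub (enc_rat _ 42319691 4000000) (enc_scaleT 656631 125000 (ycg.enc h1))) (enc_mul (enc_norm (kfc33_11.enc h1 h2)) (enc_norm (enc_subr 2193 400 (enc_scaleT 91 25 (ycg.enc h1)))))) (enc_add (enc_sub (enc_rat _ 30684947611 2900000000) (enc_scaleT 190443321 36250000 (ycg.enc h1))) (enc_mul (enc_norm (kfc33_11.enc h1 h2)) (enc_norm (enc_subr 398477271 72500000 (enc_scaleT 13220539 3625000 (ycg.enc h1)))))))))) (enc_case (kfc33_168.enc h1 h2) (enc_add (kfc33_228.enc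 h1 h2) (enc_mul (enc_norm (enc_mul (enc_norm (enc_sub (enc_wB3 (enc_mul (enc_norm (kfc33_106.enc h1 h2)) (enc_norm (enc_add (enc_mul (enc_norm (kfc33_113.enc h1 h2)) (enc_inv (kfc33_103.enc h1 h2))) (kfc33_104.enc h1 h2)))) (kfc33_98.enc h1 h2) (kfc33_99.enc h1 h2) (kfc33_103.enc h1 h2) (kfc33_106.enc h1 h2) (kfc33_113.enc h1 h2) (kfc33_104.enc h1 h2) (ycg.enc h1) rfl rfl rfl rfl rfl) (kfc33_228.enc h1 h2))) (enc_norm (enc_sub (kfc33_9.enc h1 h2) (kfc33_119.enc h1 h2))))) (enc_inv (enc_sub (kfc33_6.enc h1 h2) (kfc33_119.enc h1 h2))))) (enc_mul (enc_norm (kfc33_9.enc h1 h2)) (enc_norm (enc_case (kfc33_50.enc h1 h2) (enc_case (kfc33_52.enc h1 h2) (enc_add (enc_subr 26725521113953037 21248626000000000 (enc_scaleT 927203447 148740382 h1)) (enc_mul (enc_norm (kfc33_11.enc h1 h2)) (enc_norm (enc_subr 340970584373227 10624313000000000 (enc_scaleT 981928797 74370191 h1))))) (enc_add (enc_subr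 95859019119273 2472826900000000 (enc_neg (enc_scaleT 40621380 24728269 h1))) (enc_mul (enc_norm (kfc33_11.enc h1 h2)) (enc_norm (enc_subr 3148191461 247282690000 (enc_scaleT 323400000 24728269 h1)))))) (enc_case (kfc33_76.enc h1 h2) (enc_add (enc_sub (enc_rat _ 413838409184381 5054239000000000) (enc_scaleT 14092969 5054239 h1)) (enc_mul (enc_norm (kfc33_11.enc h1 h2)) (enc_norm (enc_subr 1905404483 505423900000 (enc_scaleT 65670000 5054239 h1))))) (enc_add (enc_sub (enc_rat _ 1 2) (enc_scaleT 570825460 54765409 h1)) (enc_mul (enc_norm (kfc33_11.enc h1 h2)) (enc_scaleT 707800000 54765409 h1))))))))))⟩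
noncomputable def lc33_6 : Fn2 := ⟨_, _, fun h1 h2 => (enc_subr 1 2 (swg.enc (ycg.enc h1)))⟩
noncomputable def lc33_9 : Fn2 := ⟨_, _, fun h1 h2 => (enc_add (enc_scaleT 1929 2000 (lc33_6.enc h1 h2)) (enc_scaleT 71 2000 h1))⟩
noncomputable def lc33_11 : Fn2 := ⟨_, _, fun h1 h2 => (enc_subr 38847 40000 h2)⟩
noncomputable def lc33_13 : Fn2 := ⟨_, _, fun h1 h2 => (enc_subr 193 100 (ycg.enc h1))⟩
noncomputable def lc33_25 : Fn2 := ⟨_, _, fun h1 h2 => (enc_subr 39 20 (ycg.enc h1))⟩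
noncomputable def lc33_50 : Fn2 := ⟨_, _, fun h1 h2 => (enc_sq (enc_norm (lc33_11.enc h1 h2)))⟩
noncomputable def lc33_57 : Fn2 := ⟨_, _, fun h1 h2 => (enc_sub (enc_rat _ 105307799 1000000000) h1)⟩
noncomputable def lc33_59 : Fn2 := ⟨_, _, fun h1 h2 => (enc_sub (enc_rat _ 154764337 1000000000) h1)⟩
noncomputable def lc33_86 : Fn2 := ⟨_, _, fun h1 h2 => (enc_sub (enc_rat _ 54765409 1000000000) h1)⟩
noncomputable def lc33_108 : Fn2 := ⟨_, _, fun h1 h2 => (enc_subn 1 (ycg.enc h1))⟩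
noncomputable def lc33_121 : Fn2 := ⟨_, _, fun h1 h2 => (cv2r.enc (ycg.enc h1))⟩
noncomputable def lc33_146 : Fn2 := ⟨_, _, fun h1 h2 => (enc_subr 3929 2000 (ycg.enc h1))⟩
noncomputable def lc33_170 : Fn2 := ⟨_, _, fun h1 h2 => (enc_subr 1015 512 (ycg.enc h1))⟩
noncomputable def lc33_222 : Fn2 := ⟨_, _, fun h1 h2 => (enc_mul (lc33_121.enc h1 h2) (enc_norm (enc_case (enc_subr 987 500 (ycg.enc h1)) (enc_case (lc33_25.enc h1 h2) (enc_case (lc33_13.enc h1 h2) (enc_add (enc_subr 7120970893 4300000000 (enc_scaleT 14207861 10750000 (ycg.enc h1))) (enc_mul (enc_norm (lc33_11.enc h1 h2)) (enc_norm (enc_subr 273301 430000 (enc_scaleT 627 1075 (ycg.enc h1)))))) (enc_add (enc_subr 68705969 40000000 (enc_scaleT 2707167 2000000 (ycg.enc h1))) (enc_mul (enc_norm (lc33_11.enc h1 h2)) (enc_norm (enc_subr 2633 4000 (enc_scaleT 119 200 (ycg.enc h1))))))) (enc_case (lc33_146.enc h1 h2) (enc_add (enc_subr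 8073739 4531250 (enc_scaleT 2010391 1450000 (ycg.enc h1))) (enc_mul (enc_norm (lc33_11.enc h1 h2)) (enc_norm (enc_subr 167 250 (enc_scaleT 3 5 (ycg.enc h1)))))) (enc_add (enc_subr 3508935057 1900000000 (enc_scaleT 674297 475000 (ycg.enc h1))) (enc_mul (enc_norm (lc33_11.enc h1 h2)) (enc_norm (enc_subr 130849 190000 (enc_scaleT 58 95 (ycg.enc h1)))))))) (enc_case (lc33_59.enc h1 h2) (enc_case (lc33_170.enc h1 h2) (enc_add (enc_subr 14312279463 7700000000 (enc_scaleT 2401272 1684375 (ycg.enc h1))) (enc_mul (enc_norm (lc33_11.enc h1 h2)) (enc_norm (enc_subr 540791 770000 (enc_scaleT 1664 2695 (ycg.enc h1)))))) (enc_add (enc_sub (enc_rat _ 1027953056612721 1062431300000000) (enc_scaleT 36670 74370191 h1)) (enc_mul (enc_norm (lc33_11.enc h1 h2)) (enc_norm (enc_sub (enc_rat _ 75689079897 106243130000) (enc_scaleT 61900000 74370191 h1)))))) (enc_case (lc33_57.enc h1 h2) (enc_add (enc_add (enc_scaleT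 79370 24728269 h1) (enc_rat _ 2391161136184043 2472826900000000)) (enc_mul (enc_norm (lc33_11.enc h1 h2)) (enc_norm (enc_add (enc_scaleT 50900000 24728269 h1) (enc_rat _ 65539130351 247282690000))))) (enc_case (lc33_86.enc h1 h2) (enc_add (enc_sub (enc_rat _ 2453118850954127 2527119500000000) (enc_scaleT 163406 5054239 h1)) (enc_mul (enc_norm (lc33_11.enc h1 h2)) (enc_norm (enc_add (enc_scaleT 10580000 5054239 h1) (enc_rat _ 66048791839 252711950000))))) (enc_add (enc_sub (enc_rat _ 12147711 12500000) (enc_scaleT 2870080 54765409 h1)) (enc_mul (enc_norm (lc33_11.enc h1 h2)) (enc_norm (enc_add (enc_scaleT 114400000 54765409 h1) (enc_rat _ 327 1250)))))))))))⟩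
noncomputable def lc33 : Fn2 := ⟨_, _, fun h1 h2 => (enc_norm (enc_case (lc33_146.enc h1 h2) (enc_mul (enc_norm (lc33_9.enc h1 h2)) (enc_norm (enc_case (lc33_13.enc h1 h2) (enc_add (enc_subr 1048508403 1075000000 (enc_scaleT 41070857 43000000 (ycg.enc h1))) (enc_mul (enc_norm (lc33_11.enc h1 h2)) (enc_norm (enc_sub (enc_rat _ 256129 107500) (enc_scaleT 5551 4300 (ycg.enc h1)))))) (enc_case (lc33_25.enc h1 h2) (enc_add (enc_subr 195172961 200000000 (enc_scaleT 1910799 2000000 (ycg.enc h1))) (enc_mul (enc_norm (lc33_11.enc h1 h2)) (enc_norm (enc_sub (enc_rat _ 47423 20000) (enc_scaleT 257 200 (ycg.enc h1)))))) (enc_add (enc_add (enc_subr 1166749789 1450000000 (enc_scaleT 15725243 18125000 (ycg.enc h1))) (enc_mul (enc_norm (lc33_11.enc h1 h2)) (enc_norm (enc_subr 6968999083 29000000 (enc_scaleT 178592197 1450000 (ycg.enc h1)))))) (enc_mul (lc33_50.enc h1 h2) (enc_norm (enc_subr 6023901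 145000 (enc_scaleT 154459 7250 (ycg.enc h1)))))))))) (enc_case (lc33_170.enc h1 h2) (enc_add (lc33_222.enc h1 h2) (enc_mul (enc_norm (enc_mul (enc_norm (enc_sub (enc_sub (qsg.enc (enc_norm (lc33_108.enc h1 h2))) (enc_mul (enc_norm (enc_nat 2 (enc_sub (lc33_108.enc h1 h2) h2))) (enc_norm (enc_mul (esg.enc (enc_norm (lc33_108.enc h1 h2))) (kcg.enc (enc_norm (enc_sub (enc_scaleT 3 4 (lc33_108.enc h1 h2)) (enc_half (gsg.enc (enc_norm (lc33_108.enc h1 h2)))))) h2))))) (lc33_222.enc h1 h2))) (enc_norm (enc_sub (lc33_9.enc h1 h2) (lc33_121.enc h1 h2))))) (enc_inv (enc_sub (lc33_6.enc h1 h2) (lc33_121.enc h1 h2))))) (enc_mul (enc_norm (lc33_9.enc h1 h2)) (enc_norm (enc_case (lc33_57.enc h1 h2) (enc_case (lc33_59.enc h1 h2) (enc_add (enc_add (enc_sub (enc_rat _ 9788952891447847 10624313000000000) (enc_scaleT 2376607 74370191 h1)) (enc_mul (enc_norm (lc33_11.enc h1 h2)) (enc_norm (enc_sub (enc_rat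 _ 34068732002346511 5312156500000000) (enc_scaleT 1356777042 74370191 h1))))) (enc_mul (lc33_50.enc h1 h2) (enc_norm (enc_sub (enc_rat _ 1746692416573 1062431300000) (enc_scaleT 790030000 74370191 h1))))) (enc_add (enc_add (enc_scaleT 4926015 24728269 h1) (enc_rat _ 875971346412591 989130760000000)) (enc_mul (enc_norm (lc33_11.enc h1 h2)) (enc_norm (enc_add (enc_scaleT 48550000 24728269 h1) (enc_rat _ 325032817287 98913076000)))))) (enc_case (lc33_86.enc h1 h2) (enc_add (enc_add (enc_scaleT 794098 5054239 h1) (enc_rat _ 2249211105512129 2527119500000000)) (enc_mul (enc_norm (lc33_11.enc h1 h2)) (enc_norm (enc_add (enc_scaleT 9860000 5054239 h1) (enc_rat _ 830755554053 252711950000))))) (enc_add (enc_add (enc_scaleT 719944847 821481135 h1) (enc_rat _ 12759566053 15000000000)) (enc_mul (enc_norm (lc33_11.enc h1 h2)) (enc_norm (enc_sub (enc_rat _ 5146421 1500000) (enc_scaleT 110242000 164296227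 h1))))))))))))⟩
noncomputable def kcc33_6 : Fn2 := ⟨_, _, fun h1 h2 => (enc_subr 1 2 (swg.enc (ycg.enc h1)))⟩
noncomputable def kcc33_9 : Fn2 := ⟨_, _, fun h1 h2 => (enc_add (enc_scaleT 1929 2000 (kcc33_6.enc h1 h2)) (enc_scaleT 71 2000 h1))⟩
noncomputable def kcc33_11 : Fn2 := ⟨_, _, fun h1 h2 => (enc_subr 38847 40000 h2)⟩
noncomputable def kcc33_34 : Fn2 := ⟨_, _, fun h1 h2 => (enc_subn 1 (ycg.enc h1))⟩
noncomputable def kcc33_35 : Fn2 := ⟨_, _, fun h1 h2 => (gsg.enc (enc_norm (kcc33_34.enc h1 h2)))⟩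
noncomputable def kcc33_39 : Fn2 := ⟨_, _, fun h1 h2 => (esg.enc (enc_norm (kcc33_34.enc h1 h2)))⟩
noncomputable def kcc33_44 : Fn2 := ⟨_, _, fun h1 h2 => (gug.enc (enc_norm (kcc33_34.enc h1 h2)))⟩
noncomputable def kcc33_46 : Fn2 := ⟨_, _, fun h1 h2 => (enc_mul (enc_norm (kcc33_34.enc h1 h2)) (enc_inv (kcc33_35.enc h1 h2)))⟩
noncomputable def kcc33_47 : Fn2 := ⟨_, _, fun h1 h2 => (enc_scaleT 3 4 (kcc33_46.enc h1 h2))⟩
noncomputable def kcc33_73 : Fn2 := ⟨_, _, fun h1 h2 => (cv2r.enc (ycg.enc h1))⟩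
noncomputable def kcc33_77 : Fn2 := ⟨_, _, fun h1 h2 => (enc_subr 3929 2000 (ycg.enc h1))⟩
noncomputable def kcc33_100 : Fn2 := ⟨_, _, fun h1 h2 => (enc_subr 1015 512 (ycg.enc h1))⟩
noncomputable def kcc33_122 : Fn2 := ⟨_, _, fun h1 h2 => (enc_mul (kcc33_73.enc h1 h2) (enc_norm (enc_case (enc_subr 197 100 (ycg.enc h1)) (enc_case (kcc33_77.enc h1 h2) (enc_add (enc_subr 394306844581 9290000000 (enc_scaleT 49287867 1161250 (ycg.enc h1))) (enc_mul (enc_norm (kcc33_11.enc h1 h2)) (enc_norm (enc_subr 202917 929000 (enc_scaleT 152 929 (ycg.enc h1)))))) (enc_add (enc_subr 186688077 4400000 (enc_scaleT 1166993 27500 (ycg.enc h1))) (enc_mul (enc_norm (kcc33_11.enc h1 h2)) (enc_norm (enc_subr 269 440 (enc_scaleT 4 11 (ycg.enc h1))))))) (enc_case (kcc33_100.enc h1 h2) (enc_add (enc_subr 4500182887 106000000 (enc_scaleT 1406124 33125 (ycg.enc h1))) (enc_mul (enc_norm (kcc33_11.enc h1 h2)) (enc_norm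 (enc_subr 21877 31800 (enc_scaleT 64 159 (ycg.enc h1)))))) (enc_add (enc_add (enc_scaleT 253516775 1591212 h1) (enc_rat _ 25954537 5000000)) (enc_mul (enc_norm (kcc33_11.enc h1 h2)) (enc_norm (enc_subr 337791 500 (enc_scaleT 10557687500 3580227 h1)))))))))⟩
noncomputable def kcc33 : Fn2 := ⟨_, _, fun h1 h2 => (enc_norm (enc_case (kcc33_77.enc h1 h2) (enc_mul (enc_norm (kcc33_9.enc h1 h2)) (enc_norm (enc_add (enc_subr 74448420223 4645000000 (enc_scaleT 37181094153 2322500000 (ycg.enc h1))) (enc_mul (enc_norm (kcc33_11.enc h1 h2)) (enc_norm (enc_sub (enc_rat _ 212909501 18580000) (enc_scaleT 88459807 9290000 (ycg.enc h1)))))))) (enc_case (kcc33_100.enc h1 h2) (enc_add (kcc33_122.enc h1 h2) (enc_mul (enc_norm (enc_mul (enc_norm (enc_sub (enc_add (enc_sub (enc_add (enc_add (enc_rat _ 3 4) (enc_scaleT 3 2 (kcc33_34.enc h1 h2))) (enc_scaleT 3 4 (enc_mul (enc_norm (kcc33_46.enc h1 h2)) (kcc33_44.enc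 h1 h2)))) (enc_wT (enc_mul (enc_norm (enc_sub (enc_mul (enc_norm (enc_mul (enc_norm (kcc33_47.enc h1 h2)) (enc_norm (enc_subn 3 (enc_nat 4 (kcc33_35.enc h1 h2)))))) (kcc33_39.enc h1 h2)) (enc_mul (qsg.enc (enc_norm (kcc33_34.enc h1 h2))) (enc_norm (enc_sub (enc_rat _ 1 2) (kcc33_47.enc h1 h2)))))) (enc_inv (enc_mul (enc_nat 2 (kcc33_39.enc h1 h2)) (kcc33_39.enc h1 h2)))) (kcc33_34.enc h1 h2) (kcc33_35.enc h1 h2) (kcc33_39.enc h1 h2) rfl rfl rfl rfl)) (enc_mul (kcg.enc (enc_norm (enc_sub (enc_scaleT 3 4 (kcc33_34.enc h1 h2)) (enc_half (kcc33_35.enc h1 h2)))) h2) (enc_norm (enc_sub (enc_pnc _ 1) (enc_add (kcc33_44.enc h1 h2) (enc_nat 2 (kcc33_35.enc h1 h2))))))) (kcc33_122.enc h1 h2))) (enc_norm (enc_sub (kcc33_9.enc h1 h2) (kcc33_73.enc h1 h2))))) (enc_inv (enc_sub (kcc33_6.enc h1 h2) (kcc33_73.enc h1 h2))))) (enc_mul (enc_norm (kcc33_9.enc h1 h2)) (enc_norm (enc_add (enc_add (enc_scaleT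 12946643850997 127551553920 h1) (enc_rat _ 11099819 1670000)) (enc_mul (enc_norm (kcc33_11.enc h1 h2)) (enc_norm (enc_subr 42117 167 (enc_scaleT 48034062698221 38265466176 h1))))))))))⟩
noncomputable def cv4m : Fn1 := ⟨_, _, fun h1 => (enc_norm (enc_add (enc_scaleT 3 10 (enc_add (swg.enc h1) (enc_rat _ 1 2))) (enc_scaleT 7 10 (c3g.enc h1))))⟩
noncomputable def bf4q0_3 : Fn2 := ⟨_, _, fun h1 h2 => (enc_subr 38847 40000 h2)⟩
noncomputable def bf4q0_14 : Fn2 := ⟨_, _, fun h1 h2 => (enc_scaleT 13 2 h1)⟩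
noncomputable def bf4q0 : Fn2 := ⟨_, _, fun h1 h2 => (enc_norm (enc_case (enc_subr 71 2000 h1) (enc_case (enc_subr 29 2000 h1) (enc_case (enc_subr 1 200 h1) (enc_add (enc_sub (enc_rat _ 4053117 25000000) (enc_scaleT 13451 20000 h1)) (enc_mul (enc_norm (bf4q0_3.enc h1 h2)) (enc_norm (enc_subr 5231 2500 (bf4q0_14.enc h1 h2))))) (enc_case (enc_subr 21 2000 h1) (enc_add (enc_sub (enc_rat _ 178343183 1100000000) (enc_scaleT 185253 275000 h1)) (enc_mul (enc_norm (bf4q0_3.enc h1 h2)) (enc_norm (enc_subr 230169 110000 (enc_scaleT 358 55 h1))))) (enc_add (enc_sub (enc_rat _ 32427929 200000000) (enc_scaleT 13491 20000 h1)) (enc_mul (enc_norm (bf4q0_3.enc h1 h2)) (enc_norm (enc_subr 41847 20000 (bf4q0_14.enc h1 h2))))))) (enc_case (enc_subr 9 512 h1) (enc_add (enc_sub (enc_rat _ 638602299 3940000000) (enc_scaleT 412814 615625 h1)) (enc_mul (enc_norm (bf4q0_3.enc h1 h2)) (enc_norm (enc_subr 824557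 394000 (enc_scaleT 6432 985 h1))))) (enc_case (enc_subr 1 40 h1) (enc_add (enc_sub (enc_rat _ 61615377 380000000) (enc_scaleT 1000762 1484375 h1)) (enc_mul (enc_norm (bf4q0_3.enc h1 h2)) (enc_norm (enc_subr 79511 38000 (enc_scaleT 15456 2375 h1))))) (enc_add (enc_sub (enc_rat _ 113499903 700000000) (enc_scaleT 235927 350000 h1)) (enc_mul (enc_norm (bf4q0_3.enc h1 h2)) (enc_norm (enc_subr 439387 210000 (enc_scaleT 683 105 h1)))))))) (enc_case (enc_subr 1 10 h1) (enc_case (enc_subr 1 20 h1) (enc_add (enc_sub (enc_rat _ 470156313 2900000000) (enc_scaleT 976601 1450000 h1)) (enc_mul (enc_norm (bf4q0_3.enc h1 h2)) (enc_norm (enc_subr 606759 290000 (enc_scaleT 943 145 h1))))) (enc_case (enc_subr 7 100 h1) (enc_add (enc_sub (enc_rat _ 4053103 25000000) (enc_scaleT 673543 1000000 h1)) (enc_mul (enc_norm (bf4q0_3.enc h1 h2)) (enc_norm (enc_subr 5229 2500 (enc_scaleT 649 100 h1))))) (enc_add (enc_sub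 (enc_rat _ 48643991 300000000) (enc_scaleT 1010797 1500000 h1)) (enc_mul (enc_norm (bf4q0_3.enc h1 h2)) (enc_norm (enc_subr 62713 30000 (enc_scaleT 971 150 h1))))))) (enc_case (enc_subr 11 50 h1) (enc_case (enc_subr 3 20 h1) (enc_add (enc_sub (enc_rat _ 3243039 20000000) (enc_scaleT 3369589 5000000 h1)) (enc_mul (enc_norm (bf4q0_3.enc h1 h2)) (enc_norm (enc_subr 4177 2000 (enc_scaleT 3227 500 h1))))) (enc_add (enc_sub (enc_rat _ 56753853 350000000) (enc_scaleT 2358757 3500000 h1)) (enc_mul (enc_norm (bf4q0_3.enc h1 h2)) (enc_norm (enc_subr 72979 35000 (enc_scaleT 2251 350 h1)))))) (enc_case (enc_subr 33 100 h1) (enc_add (enc_sub (enc_rat _ 4053907 25000000) (enc_scaleT 7413357 11000000 h1)) (enc_mul (enc_norm (bf4q0_3.enc h1 h2)) (enc_norm (enc_subr 5201 2500 (enc_scaleT 641 100 h1))))) (enc_add (enc_sub (enc_rat _ 34458757 212500000) (enc_scaleT 11457139 17000000 h1)) (enc_mul (enc_norm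 (bf4q0_3.enc h1 h2)) (enc_norm (enc_subr 22063 10625 (enc_scaleT 10877 1700 h1))))))))))⟩
noncomputable def kf4q0 : Fn2 := ⟨_, _, fun h1 h2 => (enc_norm (enc_mul (cv4m.enc h1) (bf4q0.enc h1 h2)))⟩
noncomputable def bx4q0_3 : Fn2 := ⟨_, _, fun h1 h2 => (enc_subr 38847 40000 h2)⟩
noncomputable def bx4q0 : Fn2 := ⟨_, _, fun h1 h2 => (enc_norm (enc_case (enc_subr 71 2000 h1) (enc_case (enc_subr 29 2000 h1) (enc_case (enc_subr 1 200 h1) (enc_add (enc_sub (enc_rat _ 15041861 50000000) (enc_scaleT 365123 500000 h1)) (enc_mul (enc_norm (bx4q0_3.enc h1 h2)) (enc_norm (enc_add (enc_scaleT 589 50 h1) (enc_rat _ 6377 5000))))) (enc_case (enc_subr 21 2000 h1) (enc_add (enc_sub (enc_rat _ 30083549 100000000) (enc_scaleT 7299 10000 h1)) (enc_mul (enc_norm (bx4q0_3.enc h1 h2)) (enc_norm (enc_add (enc_scaleT 127 11 h1) (enc_rat _ 140423 110000))))) (enc_add (enc_sub (enc_rat _ 236609491 800000000) (enc_scaleT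 98679 400000 h1)) (enc_mul (enc_norm (bx4q0_3.enc h1 h2)) (enc_norm (enc_add (enc_scaleT 97 40 h1) (enc_rat _ 109787 80000))))))) (enc_case (enc_subr 9 512 h1) (enc_add (enc_sub (enc_rat _ 5823056951 19700000000) (enc_scaleT 144434 615625 h1)) (enc_mul (enc_norm (bx4q0_3.enc h1 h2)) (enc_norm (enc_add (enc_scaleT 992 985 h1) (enc_rat _ 2744007 1970000))))) (enc_case (enc_subr 1 40 h1) (enc_add (enc_sub (enc_rat _ 561386107 1900000000) (enc_scaleT 338098 1484375 h1)) (enc_mul (enc_norm (bx4q0_3.enc h1 h2)) (enc_norm (enc_add (enc_scaleT 224 2375 h1) (enc_rat _ 267699 190000))))) (enc_add (enc_sub (enc_rat _ 206734863 700000000) (enc_scaleT 4868 21875 h1)) (enc_mul (enc_norm (bx4q0_3.enc h1 h2)) (enc_norm (enc_sub (enc_rat _ 99591 70000) (enc_scaleT 16 35 h1)))))))) (enc_case (enc_subr 1 10 h1) (enc_case (enc_subr 1 20 h1) (enc_add (enc_sub (enc_rat _ 171244633 580000000) (enc_scaleT 7979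 36250 h1)) (enc_mul (enc_norm (bx4q0_3.enc h1 h2)) (enc_norm (enc_sub (enc_rat _ 83281 58000) (enc_scaleT 24 29 h1))))) (enc_case (enc_subr 7 100 h1) (enc_add (enc_sub (enc_rat _ 2361447 8000000) (enc_scaleT 437481 2000000 h1)) (enc_mul (enc_norm (bx4q0_3.enc h1 h2)) (enc_norm (enc_sub (enc_rat _ 1159 800) (enc_scaleT 217 200 h1))))) (enc_add (enc_sub (enc_rat _ 5902263 20000000) (enc_scaleT 217773 1000000 h1)) (enc_mul (enc_norm (bx4q0_3.enc h1 h2)) (enc_norm (enc_sub (enc_rat _ 8773 6000) (enc_scaleT 383 300 h1))))))) (enc_case (enc_subr 11 50 h1) (enc_case (enc_subr 3 20 h1) (enc_add (enc_sub (enc_rat _ 29505743 100000000) (enc_scaleT 1086079 5000000 h1)) (enc_mul (enc_norm (bx4q0_3.enc h1 h2)) (enc_norm (enc_sub (enc_rat _ 14751 10000) (enc_scaleT 703 500 h1))))) (enc_add (enc_sub (enc_rat _ 51632033 175000000) (enc_scaleT 759853 3500000 h1)) (enc_mul (enc_norm (bx4q0_3.enc h1 h2))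 (enc_norm (enc_sub (enc_rat _ 26031 17500) (enc_scaleT 521 350 h1)))))) (enc_case (enc_subr 33 100 h1) (enc_add (enc_sub (enc_rat _ 14753091 50000000) (enc_scaleT 2389191 11000000 h1)) (enc_mul (enc_norm (bx4q0_3.enc h1 h2)) (enc_norm (enc_sub (enc_rat _ 7487 5000) (enc_scaleT 1687 1100 h1))))) (enc_add (enc_sub (enc_rat _ 502834209 1700000000) (enc_scaleT 116551 531250 h1)) (enc_mul (enc_norm (bx4q0_3.enc h1 h2)) (enc_norm (enc_sub (enc_rat _ 255113 170000) (enc_scaleT 656 425 h1))))))))))⟩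
noncomputable def l4q0 : Fn2 := ⟨_, _, fun h1 h2 => (enc_norm (enc_mul (cv4m.enc h1) (bx4q0.enc h1 h2)))⟩
noncomputable def bd4q0_3 : Fn2 := ⟨_, _, fun h1 h2 => (enc_subr 38847 40000 h2)⟩
noncomputable def bd4q0_15 : Fn2 := ⟨_, _, fun h1 h2 => (enc_scaleT 3 500 (bd4q0_3.enc h1 h2))⟩
noncomputable def bd4q0 : Fn2 := ⟨_, _, fun h1 h2 => (enc_norm (enc_case (enc_subr 9 512 h1) (enc_case (enc_subr 1 100 h1) (enc_sub (enc_sub (enc_rat _ 64475021 5000000) (enc_scaleT 1289 100 h1)) (bd4q0_15.enc h1 h2)) (enc_sub (enc_sub (enc_rat _ 6254088537 485000000) (enc_scaleT 31264 2425 h1)) (bd4q0_15.enc h1 h2))) (enc_case (enc_subr 581 20000 h1) (enc_sub (enc_sub (enc_rat _ 236691059091 18355000000) (enc_scaleT 47360 3671 h1)) (bd4q0_15.enc h1 h2)) (enc_case (enc_subr 71 2000 h1) (enc_sub (enc_sub (enc_rat _ 2772355403 215000000) (enc_scaleT 554 43 h1)) (bd4q0_15.enc h1 h2)) (enc_add (enc_sub (enc_rat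 _ 59897658003 4645000000) (enc_scaleT 14974507 1161250 h1)) (enc_mul (enc_norm (bd4q0_3.enc h1 h2)) (enc_norm (enc_subr 2929 464500 (enc_scaleT 8 929 h1)))))))))⟩
noncomputable def kc4q0 : Fn2 := ⟨_, _, fun h1 h2 => (enc_norm (enc_mul (cv4m.enc h1) (bd4q0.enc h1 h2)))⟩
noncomputable def bf4q1_3 : Fn2 := ⟨_, _, fun h1 h2 => (enc_subr 38847 40000 h2)⟩
noncomputable def bf4q1 : Fn2 := ⟨_, _, fun h1 h2 => (enc_norm (enc_case (enc_subr 7 8 h1) (enc_add (enc_subr 450097 1200000 (enc_scaleT 51565651 37500000 h1)) (enc_mul (enc_norm (bf4q1_3.enc h1 h2)) (enc_norm (enc_sub (enc_rat _ 1 40) (enc_scaleT 31 1250 h1))))) (enc_add (enc_subr 4688231 12500000 (enc_scaleT 17188231 12500000 h1)) (enc_mul (enc_norm (bf4q1_3.enc h1 h2)) (enc_norm (enc_sub (enc_rat _ 33 1250) (enc_scaleT 33 1250 h1)))))))⟩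
noncomputable def kf4q1 : Fn2 := ⟨_, _, fun h1 h2 => (enc_norm (enc_mul (cv4m.enc h1) (bf4q1.enc h1 h2)))⟩
noncomputable def bx4q1_3 : Fn2 := ⟨_, _, fun h1 h2 => (enc_subr 38847 40000 h2)⟩
noncomputable def bx4q1 : Fn2 := ⟨_, _, fun h1 h2 => (enc_norm (enc_case (enc_subr 7 8 h1) (enc_add (enc_sub (enc_rat _ 38093381 100000000) (enc_scaleT 4871101 12500000 h1)) (enc_mul (enc_norm (bx4q1_3.enc h1 h2)) (enc_norm (enc_sub (enc_rat _ 44551 30000) (enc_scaleT 5671 3750 h1))))) (enc_add (enc_sub (enc_rat _ 1997837 6250000) (enc_scaleT 1997837 6250000 h1)) (enc_mul (enc_norm (bx4q1_3.enc h1 h2)) (enc_norm (enc_sub (enc_rat _ 809 625) (enc_scaleT 809 625 h1)))))))⟩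
noncomputable def l4q1 : Fn2 := ⟨_, _, fun h1 h2 => (enc_norm (enc_mul (cv4m.enc h1) (bx4q1.enc h1 h2)))⟩
noncomputable def bd4q1 : Fn2 := ⟨_, _, fun h1 h2 => (enc_norm (enc_add (enc_sub (enc_rat _ 32237507 2500000) (enc_scaleT 32237507 2500000 h1)) (enc_mul (enc_norm (enc_subr 38847 40000 h2)) (enc_norm (enc_subr 1 250 (enc_scaleT 1 250 h1))))))⟩
noncomputable def kc4q1 : Fn2 := ⟨_, _, fun h1 h2 => (enc_norm (enc_mul (cv4m.enc h1) (bd4q1.enc h1 h2)))⟩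
noncomputable def cv4p : Fn1 := ⟨_, _, fun h1 => (enc_norm (enc_add (enc_scaleT 3 10 (enc_subr 1 2 (swg.enc h1))) (enc_scaleT 7 10 (c3g.enc h1))))⟩
noncomputable def bf4q2_3 : Fn2 := ⟨_, _, fun h1 h2 => (enc_subr 38847 40000 h2)⟩
noncomputable def bf4q2 : Fn2 := ⟨_, _, fun h1 h2 => (enc_norm (enc_case (enc_subr 21 20 h1) (enc_case (enc_subr 521 512 h1) (enc_add (enc_subr 42758711 7500000 (enc_scaleT 7481282 1171875 h1)) (enc_mul (enc_norm (bf4q2_3.enc h1 h2)) (enc_norm (enc_subr 128 1125 (enc_scaleT 352 5625 h1))))) (enc_case (enc_subr 2071 2000 h1) (enc_add (enc_subr 653893396971 114700000000 (enc_scaleT 22881832 3584375 h1)) (enc_mul (enc_norm (bf4q2_3.enc h1 h2)) (enc_norm (enc_subr 1356147 11470000 (enc_scaleT 384 5735 h1))))) (enc_add (enc_subr 570051647 100000000 (enc_scaleT 31917 5000 h1)) (enc_mul (enc_norm (bf4q2_3.enc h1 h2)) (enc_norm (enc_subr 34891 290000 (enc_scaleT 2 29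 h1))))))) (enc_case (enc_subr 231 200 h1) (enc_case (enc_subr 107 100 h1) (enc_add (enc_subr 570056267 100000000 (enc_scaleT 1595861 250000 h1)) (enc_mul (enc_norm (bf4q2_3.enc h1 h2)) (enc_norm (enc_subr 1319 10000 (enc_scaleT 2 25 h1))))) (enc_add (enc_subr 9691432047 1700000000 (enc_scaleT 6782687 1062500 h1)) (enc_mul (enc_norm (bf4q2_3.enc h1 h2)) (enc_norm (enc_subr 23279 170000 (enc_scaleT 36 425 h1)))))) (enc_case (enc_subr 13 10 h1) (enc_add (enc_subr 16532067651 2900000000 (enc_scaleT 11570263 1812500 h1)) (enc_mul (enc_norm (bf4q2_3.enc h1 h2)) (enc_norm (enc_subr 40907 290000 (enc_scaleT 64 725 h1))))) (enc_add (enc_subr 3562941 625000 (enc_scaleT 63835877 10000000 h1)) (enc_mul (enc_norm (bf4q2_3.enc h1 h2)) (enc_norm (enc_subr 71 500 (enc_scaleT 89 1000 h1)))))))))⟩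
noncomputable def kf4q2 : Fn2 := ⟨_, _, fun h1 h2 => (enc_norm (enc_mul (cv4p.enc h1) (bf4q2.enc h1 h2)))⟩
noncomputable def bx4q2_3 : Fn2 := ⟨_, _, fun h1 h2 => (enc_subr 38847 40000 h2)⟩
noncomputable def bx4q2 : Fn2 := ⟨_, _, fun h1 h2 => (enc_norm (enc_case (enc_subr 21 20 h1) (enc_case (enc_subr 521 512 h1) (enc_add (enc_sub (enc_rat _ 151115447 900000000) (enc_scaleT 635774 3515625 h1)) (enc_mul (enc_norm (bx4q2_3.enc h1 h2)) (enc_norm (enc_subr 2015921 90000 (enc_scaleT 122912 5625 h1))))) (enc_case (enc_subr 2071 2000 h1) (enc_add (enc_sub (enc_rat _ 1694271837 22940000000) (enc_scaleT 316922 3584375 h1)) (enc_mul (enc_norm (bx4q2_3.enc h1 h2)) (enc_norm (enc_subr 51473291 2294000 (enc_scaleT 125536 5735 h1))))) (enc_add (enc_sub (enc_rat _ 173895943 2900000000) (enc_scaleT 6797 90625 h1)) (enc_mul (enc_norm (bx4q2_3.enc h1 h2)) (enc_norm (enc_subr 1043849 290000 (enc_scaleT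 536 145 h1))))))) (enc_case (enc_subr 231 200 h1) (enc_case (enc_subr 107 100 h1) (enc_add (enc_sub (enc_rat _ 11535469 200000000) (enc_scaleT 145647 2000000 h1)) (enc_mul (enc_norm (bx4q2_3.enc h1 h2)) (enc_norm (enc_subr 49067 20000 (enc_scaleT 521 200 h1))))) (enc_add (enc_sub (enc_rat _ 5889317 106250000) (enc_scaleT 300569 4250000 h1)) (enc_mul (enc_norm (bx4q2_3.enc h1 h2)) (enc_norm (enc_subr 2311 1250 (enc_scaleT 51 25 h1)))))) (enc_case (enc_subr 13 10 h1) (enc_add (enc_subr 188544307 725000000 (enc_scaleT 1467613 7250000 h1)) (enc_mul (enc_norm (bx4q2_3.enc h1 h2)) (enc_norm (enc_subr 118099 72500 (enc_scaleT 1341 725 h1))))) (enc_add (enc_subr 29339987 25000000 (enc_scaleT 1131439 1250000 h1)) (enc_mul (enc_norm (bx4q2_3.enc h1 h2)) (enc_norm (enc_subr 3859 2500 (enc_scaleT 223 125 h1)))))))))⟩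
noncomputable def l4q2 : Fn2 := ⟨_, _, fun h1 h2 => (enc_norm (enc_mul (cv4p.enc h1) (bx4q2.enc h1 h2)))⟩
noncomputable def bd4q2_3 : Fn2 := ⟨_, _, fun h1 h2 => (enc_subr 38847 40000 h2)⟩
noncomputable def bd4q2 : Fn2 := ⟨_, _, fun h1 h2 => (enc_norm (enc_case (enc_subr 231 200 h1) (enc_add (enc_sub (enc_rat _ 5166382783 310000000) (enc_scaleT 81 62 h1)) (enc_scaleT 1 1000 (bd4q2_3.enc h1 h2))) (enc_add (enc_sub (enc_rat _ 3833101761 230000000) (enc_scaleT 2253493 1725000 h1)) (enc_mul (enc_norm (bd4q2_3.enc h1 h2)) (enc_norm (enc_sub (enc_rat _ 177 23000) (enc_scaleT 2 345 h1)))))))⟩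
noncomputable def kc4q2 : Fn2 := ⟨_, _, fun h1 h2 => (enc_norm (enc_mul (cv4p.enc h1) (bd4q2.enc h1 h2)))⟩
noncomputable def xc43 : Fn1 := ⟨_, _, fun h1 => (enc_norm (enc_add (enc_scaleT 3 10 (enc_subr 1 2 (swg.enc (ycg.enc h1)))) (enc_scaleT 7 10 h1)))⟩
noncomputable def kfc43_11 : Fn2 := ⟨_, _, fun h1 h2 => (enc_subr 38847 40000 h2)⟩
noncomputable def kfc43_32 : Fn2 := ⟨_, _, fun h1 h2 => (enc_scaleT 18 5 (ycg.enc h1))⟩
noncomputable def kfc43 : Fn2 := ⟨_, _, fun h1 h2 => (enc_norm (enc_mul (enc_norm (enc_add (enc_scaleT 3 10 (enc_subr 1 2 (swg.enc (ycg.enc h1)))) (enc_scaleT 7 10 h1))) (enc_norm (enc_case (enc_subr 987 500 (ycg.enc h1)) (enc_case (enc_subr 39 20 (ycg.enc h1)) (enc_case (enc_subr 193 100 (ycg.enc h1)) (enc_add (enc_subr 4937299813 2150000000 (enc_scaleT 31245659 21500000 (ycg.enc h1))) (enc_mul (enc_norm (kfc43_11.enc h1 h2)) (enc_norm (enc_sub (enc_rat _ 1163259 215000)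 (enc_scaleT 7737 2150 (ycg.enc h1)))))) (enc_add (enc_subr 28698803 12500000 (enc_scaleT 72651 50000 (ycg.enc h1))) (enc_mul (enc_norm (kfc43_11.enc h1 h2)) (enc_norm (enc_sub (enc_rat _ 13533 2500) (kfc43_32.enc h1 h2)))))) (enc_case (enc_subr 3929 2000 (ycg.enc h1)) (enc_add (enc_subr 52040407 22656250 (enc_scaleT 2107661 1450000 (ycg.enc h1))) (enc_mul (enc_norm (kfc43_11.enc h1 h2)) (enc_norm (enc_sub (enc_rat _ 98358 18125) (enc_scaleT 523 145 (ycg.enc h1)))))) (enc_add (enc_subr 4362301423 1900000000 (enc_scaleT 690197 475000 (ycg.enc h1))) (enc_mul (enc_norm (kfc43_11.enc h1 h2)) (enc_norm (enc_sub (enc_rat _ 54131 10000) (kfc43_32.enc h1 h2))))))) (enc_case (enc_sub (enc_rat _ 154764337 1000000000) h1) (enc_case (enc_subr 1015 512 (ycg.enc h1)) (enc_add (enc_subr 17685849257 7700000000 (enc_scaleT 2448256 1684375 (ycg.enc h1))) (enc_mul (enc_norm (kfc43_11.enc h1 h2)) (enc_norm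 (enc_sub (enc_rat _ 4182751 770000) (enc_scaleT 9728 2695 (ycg.enc h1)))))) (enc_add (enc_add (enc_scaleT 57631300 74370191 h1) (enc_rat _ 432456900494747 1062431300000000)) (enc_mul (enc_norm (kfc43_11.enc h1 h2)) (enc_norm (enc_subr 150995821 106243130000 (enc_neg (enc_scaleT 559000000 74370191 h1))))))) (enc_case (enc_sub (enc_rat _ 105307799 1000000000) h1) (enc_add (enc_add (enc_scaleT 19160200 24728269 h1) (enc_rat _ 1006587107768561 2472826900000000)) (enc_mul (enc_norm (kfc43_11.enc h1 h2)) (enc_norm (enc_subr 148482223 247282690000 (enc_neg (enc_scaleT 186000000 24728269 h1)))))) (enc_case (enc_sub (enc_rat _ 54765409 1000000000) h1) (enc_add (enc_add (enc_scaleT 3750635 5054239 h1) (enc_rat _ 414961497175269 1010847800000000)) (enc_mul (enc_norm (kfc43_11.enc h1 h2)) (enc_norm (enc_sub (enc_rat _ 9329933 101084780000) (enc_scaleT 38050000 5054239 h1))))) (enc_sub (enc_sub (enc_rat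 _ 1 2) (enc_scaleT 48851460 54765409 h1)) (enc_mul (enc_norm (kfc43_11.enc h1 h2)) (enc_scaleT 412200000 54765409 h1))))))))))⟩
noncomputable def lc43_11 : Fn2 := ⟨_, _, fun h1 h2 => (enc_subr 38847 40000 h2)⟩
noncomputable def lc43 : Fn2 := ⟨_, _, fun h1 h2 => (enc_norm (enc_mul (enc_norm (enc_add (enc_scaleT 3 10 (enc_subr 1 2 (swg.enc (ycg.enc h1)))) (enc_scaleT 7 10 h1))) (enc_norm (enc_case (enc_subr 987 500 (ycg.enc h1)) (enc_case (enc_subr 39 20 (ycg.enc h1)) (enc_case (enc_subr 193 100 (ycg.enc h1)) (enc_add (enc_subr 512938439 268750000 (enc_scaleT 239967 172000 (ycg.enc h1))) (enc_mul (enc_norm (lc43_11.enc h1 h2)) (enc_norm (enc_subr 42223 26875 (enc_scaleT 155 86 (ycg.enc h1)))))) (enc_add (enc_subr 381741517 200000000 (enc_scaleT 2790417 2000000 (ycg.enc h1))) (enc_mul (enc_norm (lc43_11.enc h1 h2)) (enc_norm (enc_subr 33069 20000 (enc_scaleT 369 200 (ycg.enc h1))))))) (enc_case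 (enc_subr 3929 2000 (ycg.enc h1)) (enc_add (enc_subr 5527649629 2900000000 (enc_scaleT 2021103 1450000 (ycg.enc h1))) (enc_mul (enc_norm (lc43_11.enc h1 h2)) (enc_norm (enc_subr 493053 290000 (enc_scaleT 271 145 (ycg.enc h1)))))) (enc_add (enc_subr 1811899711 950000000 (enc_scaleT 66237 47500 (ycg.enc h1))) (enc_mul (enc_norm (lc43_11.enc h1 h2)) (enc_norm (enc_subr 166327 95000 (enc_scaleT 36 19 (ycg.enc h1)))))))) (enc_case (enc_sub (enc_rat _ 154764337 1000000000) h1) (enc_case (enc_subr 1015 512 (ycg.enc h1)) (enc_add (enc_subr 667121611 350000000 (enc_scaleT 213434 153125 (ycg.enc h1))) (enc_mul (enc_norm (lc43_11.enc h1 h2)) (enc_norm (enc_subr 668897 385000 (enc_scaleT 5088 2695 (ycg.enc h1)))))) (enc_add (enc_add (enc_scaleT 5693760 74370191 h1) (enc_rat _ 892021375601373 1062431300000000)) (enc_mul (enc_norm (lc43_11.enc h1 h2)) (enc_norm (enc_sub (enc_rat _ 57408028523 15177590000)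 (enc_scaleT 82400000 10624313 h1)))))) (enc_case (enc_sub (enc_rat _ 105307799 1000000000) h1) (enc_add (enc_add (enc_scaleT 1082650 24728269 h1) (enc_rat _ 261092394913969 309103362500000)) (enc_mul (enc_norm (lc43_11.enc h1 h2)) (enc_norm (enc_sub (enc_rat _ 58236690779 15455168125) (enc_scaleT 189500000 24728269 h1))))) (enc_case (enc_sub (enc_rat _ 54765409 1000000000) h1) (enc_add (enc_sub (enc_rat _ 4305871571307 5054239000000) (enc_scaleT 126970 5054239 h1)) (enc_mul (enc_norm (lc43_11.enc h1 h2)) (enc_norm (enc_sub (enc_rat _ 173776557 50542390) (enc_scaleT 22900000 5054239 h1))))) (enc_add (enc_sub (enc_rat _ 12759566053 15000000000) (enc_scaleT 1212103 821481135 h1)) (enc_mul (enc_norm (lc43_11.enc h1 h2)) (enc_norm (enc_sub (enc_rat _ 5146421 1500000) (enc_scaleT 722542000 164296227 h1))))))))))))⟩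
noncomputable def kcc43_11 : Fn2 := ⟨_, _, fun h1 h2 => (enc_subr 38847 40000 h2)⟩
noncomputable def kcc43_33 : Fn2 := ⟨_, _, fun h1 h2 => (enc_scaleT 1 200 (kcc43_11.enc h1 h2))⟩
noncomputable def kcc43 : Fn2 := ⟨_, _, fun h1 h2 => (enc_norm (enc_mul (enc_norm (enc_add (enc_scaleT 3 10 (enc_subr 1 2 (swg.enc (ycg.enc h1)))) (enc_scaleT 7 10 h1))) (enc_norm (enc_case (enc_subr 197 100 (ycg.enc h1)) (enc_case (enc_subr 3929 2000 (ycg.enc h1)) (enc_add (enc_sub (enc_rat _ 154820591503 9290000000) (enc_scaleT 1516743 1161250 (ycg.enc h1))) (enc_mul (enc_norm (kcc43_11.enc h1 h2)) (enc_norm (enc_sub (enc_rat _ 11071 929000) (enc_scaleT 8 929 (ycg.enc h1)))))) (enc_sub (enc_sub (enc_rat _ 366764477 22000000) (enc_scaleT 72 55 (ycg.enc h1))) (kcc43_33.enc h1 h2))) (enc_case (enc_subr 1015 512 (ycg.enc h1)) (enc_sub (enc_sub (enc_rat _ 1766106371 106000000) (enc_scaleT 1728 1325 (ycg.enc h1)))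 (kcc43_33.enc h1 h2)) (enc_add (enc_add (enc_scaleT 44311095875 1366623792 h1) (enc_rat _ 11099819 1670000)) (enc_mul (enc_norm (kcc43_11.enc h1 h2)) (enc_norm (enc_subr 42117 167 (enc_scaleT 94009296875 85413987 h1))))))))))⟩
noncomputable def kf5q0 : Fn2 := ⟨_, _, fun h1 h2 => (enc_norm (enc_sub (enc_mul h1 (kcg.enc (enc_half h1) h2)) (enc_mul (enc_norm (enc_mul (enc_sq h1) (enc_norm (enc_add (c3g.enc h1) (enc_rat _ 3 2))))) (enc_inv (enc_mul (enc_norm (enc_sub (enc_pnc _ 1) h1)) (enc_norm (enc_add (enc_pnc _ 1) h1)))))))⟩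
noncomputable def l5q0_6 : Fn2 := ⟨_, _, fun h1 h2 => (enc_half h1)⟩
noncomputable def l5q0_7 : Fn2 := ⟨_, _, fun h1 h2 => (enc_half (c3g.enc h1))⟩
noncomputable def l5q0_8 : Fn2 := ⟨_, _, fun h1 h2 => (enc_scaleT 1 4 h1)⟩
noncomputable def l5q0 : Fn2 := ⟨_, _, fun h1 h2 => (enc_norm (enc_add (txg.enc (l5q0_6.enc h1 h2) (enc_norm (enc_sub (l5q0_7.enc h1 h2) (l5q0_8.enc h1 h2))) h2) (txg.enc (enc_neg (l5q0_6.enc h1 h2)) (enc_norm (enc_add (l5q0_7.enc h1 h2) (l5q0_8.enc h1 h2))) h2)))⟩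
noncomputable def kc5q0_3 : Fn2 := ⟨_, _, fun h1 h2 => (enc_subr 38847 40000 h2)⟩
noncomputable def kc5q0_6 : Fn2 := ⟨_, _, fun h1 h2 => (enc_half h1)⟩
noncomputable def kc5q0 : Fn2 := ⟨_, _, fun h1 h2 => (enc_norm (enc_case (enc_subr 167 1000 (kc5q0_6.enc h1 h2)) (enc_add (enc_sub (enc_rat _ 638569531 10000000) (enc_scaleT 331619481 3340000 h1)) (enc_mul (enc_norm (kc5q0_3.enc h1 h2)) (enc_norm (enc_sub (enc_rat _ 67 1000) (enc_scaleT 217 334 h1))))) (enc_case (enc_subr 333 1000 (kc5q0_6.enc h1 h2)) (enc_add (enc_sub (enc_rat _ 26500666949 415000000) (enc_scaleT 41204311 415000 h1)) (enc_mul (enc_norm (kc5q0_3.enc h1 h2)) (enc_norm (enc_sub (enc_rat _ 2793 41500) (enc_scaleT 54 83 h1))))) (enc_add (enc_subr 11342219 1670000 (enc_scaleT 11342219 1670000 h1)) (enc_mul (enc_norm (kc5q0_3.enc h1 h2)) (enc_norm (enc_subr 183 167 (enc_scaleT 183 167 h1))))))))⟩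
noncomputable def kf5q1 : Fn2 := ⟨_, _, fun h1 h2 => (enc_norm (enc_add (enc_mul (enc_norm (enc_mul h1 (enc_norm (enc_add (c3g.enc h1) (enc_rat _ 3 2))))) (enc_inv (enc_add (enc_pnc _ 1) h1))) (enc_mul (enc_norm (enc_subn 1 h1)) (kcg.enc (enc_half h1) h2))))⟩
noncomputable def l5q1_7 : Fn2 := ⟨_, _, fun h1 h2 => (enc_half h1)⟩
noncomputable def l5q1_8 : Fn2 := ⟨_, _, fun h1 h2 => (enc_half (c3g.enc h1))⟩
noncomputable def l5q1_9 : Fn2 := ⟨_, _, fun h1 h2 => (enc_scaleT 1 4 h1)⟩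
noncomputable def l5q1 : Fn2 := ⟨_, _, fun h1 h2 => (enc_norm (enc_add (txg.enc (l5q1_7.enc h1 h2) (enc_norm (enc_sub (l5q1_8.enc h1 h2) (l5q1_9.enc h1 h2))) h2) (txg.enc (enc_neg (l5q1_7.enc h1 h2)) (enc_norm (enc_add (l5q1_8.enc h1 h2) (l5q1_9.enc h1 h2))) h2)))⟩
noncomputable def kc5q1_3 : Fn2 := ⟨_, _, fun h1 h2 => (enc_subr 38847 40000 h2)⟩
noncomputable def kc5q1_7 : Fn2 := ⟨_, _, fun h1 h2 => (enc_half h1)⟩
noncomputable def kc5q1 : Fn2 := ⟨_, _, fun h1 h2 => (enc_norm (enc_case (enc_subr 167 1000 (kc5q1_7.enc h1 h2)) (enc_add (enc_sub (enc_rat _ 638569531 10000000) (enc_scaleT 331619481 3340000 h1)) (enc_mul (enc_norm (kc5q1_3.enc h1 h2)) (enc_norm (enc_sub (enc_rat _ 67 1000) (enc_scaleT 217 334 h1))))) (enc_case (enc_subr 333 1000 (kc5q1_7.enc h1 h2)) (enc_add (enc_sub (enc_rat _ 26500666949 415000000) (enc_scaleT 41204311 415000 h1)) (enc_mul (enc_norm (kc5q1_3.enc h1 h2))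 (enc_norm (enc_sub (enc_rat _ 2793 41500) (enc_scaleT 54 83 h1))))) (enc_add (enc_subr 11342219 1670000 (enc_scaleT 11342219 1670000 h1)) (enc_mul (enc_norm (kc5q1_3.enc h1 h2)) (enc_norm (enc_subr 183 167 (enc_scaleT 183 167 h1))))))))⟩
noncomputable def kf5q2 : Fn2 := ⟨_, _, fun h1 h2 => (enc_norm (enc_add (enc_mul (enc_norm (enc_mul (enc_norm (enc_sub (enc_nat 2 (c3g.enc h1)) h1)) (enc_norm (enc_sub (enc_add (c3g.enc h1) (enc_pnc _ 3)) (enc_scaleT 3 2 h1))))) (enc_inv (enc_nat 4 (enc_sub (enc_pnc _ 2) h1)))) (enc_mul (enc_norm (enc_subn 1 h1)) (kcg.enc (enc_norm (enc_sub (enc_scaleT 1 4 h1) (enc_half (c3g.enc h1)))) h2))))⟩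
noncomputable def l5q2_7 : Fn2 := ⟨_, _, fun h1 h2 => (enc_half (c3g.enc h1))⟩
noncomputable def l5q2_8 : Fn2 := ⟨_, _, fun h1 h2 => (enc_scaleT 1 4 h1)⟩
noncomputable def l5q2_9 : Fn2 := ⟨_, _, fun h1 h2 => (enc_sub (l5q2_7.enc h1 h2) (l5q2_8.enc h1 h2))⟩
noncomputable def l5q2_12 : Fn2 := ⟨_, _, fun h1 h2 => (enc_add (enc_scaleT 1 4 (c3g.enc h1)) (enc_scaleT 3 8 h1))⟩
noncomputable def l5q2_14 : Fn2 := ⟨_, _, fun h1 h2 => (enc_half (l5q2_9.enc h1 h2))⟩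
noncomputable def l5q2 : Fn2 := ⟨_, _, fun h1 h2 => (enc_norm (enc_sub (enc_nat 2 (txg.enc (enc_norm (enc_sub (l5q2_8.enc h1 h2) (l5q2_7.enc h1 h2))) (enc_norm (enc_add (l5q2_12.enc h1 h2) (l5q2_14.enc h1 h2))) h2)) (txg.enc (enc_norm (l5q2_9.enc h1 h2)) (enc_norm (enc_sub (l5q2_12.enc h1 h2) (l5q2_14.enc h1 h2))) h2)))⟩
noncomputable def kc5q2_3 : Fn2 := ⟨_, _, fun h1 h2 => (enc_subr 38847 40000 h2)⟩
noncomputable def kc5q2_9 : Fn2 := ⟨_, _, fun h1 h2 => (enc_sub (enc_half (c3g.enc h1)) (enc_scaleT 1 4 h1))⟩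
noncomputable def kc5q2 : Fn2 := ⟨_, _, fun h1 h2 => (enc_norm (enc_case (kc5q2_9.enc h1 h2) (enc_case (enc_add (kc5q2_9.enc h1 h2) (enc_rat _ 333 1000)) (enc_add (enc_add (enc_scaleT 11099819 835000 (kc5q2_9.enc h1 h2)) (enc_rat _ 11099819 1670000)) (enc_mul (enc_norm (kc5q2_3.enc h1 h2)) (enc_norm (enc_subr 42117 167 (enc_neg (enc_scaleT 84234 167 (kc5q2_9.enc h1 h2))))))) (enc_case (enc_add (kc5q2_9.enc h1 h2) (enc_rat _ 167 1000)) (enc_add (enc_subr 1710209377 830000000 (enc_neg (enc_scaleT 10669007 830000 (kc5q2_9.enc h1 h2)))) (enc_mul (enc_norm (kc5q2_3.enc h1 h2)) (enc_norm (enc_subr 3494589 83000 (enc_scaleT 10501 83 (kc5q2_9.enc h1 h2)))))) (enc_add (enc_subr 20605251 10000000 (enc_neg (enc_scaleT 34347 2672 (kc5q2_9.enc h1 h2)))) (enc_mul (enc_norm (kc5q2_3.enc h1 h2)) (enc_norm (enc_subr 42107 1000 (enc_scaleT 21125 167 (kc5q2_9.enc h1 h2)))))))) (enc_case (enc_subr 167 1000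 (kc5q2_9.enc h1 h2)) (enc_add (enc_subr 20605251 10000000 (enc_neg (enc_scaleT 536671 41750 (kc5q2_9.enc h1 h2)))) (enc_mul (enc_norm (kc5q2_3.enc h1 h2)) (enc_norm (enc_subr 42107 1000 (enc_scaleT 21120 167 (kc5q2_9.enc h1 h2)))))) (enc_case (enc_subr 333 1000 (kc5q2_9.enc h1 h2)) (enc_add (enc_subr 684106793 332000000 (enc_neg (enc_scaleT 21337923 1660000 (kc5q2_9.enc h1 h2)))) (enc_mul (enc_norm (kc5q2_3.enc h1 h2)) (enc_norm (enc_subr 1397801 33200 (enc_scaleT 20989 166 (kc5q2_9.enc h1 h2)))))) (enc_add (enc_subr 31705007 1670000 (enc_scaleT 31705007 835000 (kc5q2_9.enc h1 h2))) (enc_mul (enc_norm (kc5q2_3.enc h1 h2)) (enc_norm (enc_sub (enc_rat _ 1 167) (enc_scaleT 2 167 (kc5q2_9.enc h1 h2))))))))))⟩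
noncomputable def kfc53 : Fn2 := ⟨_, _, fun h1 h2 => (enc_norm (enc_sub (enc_mul (enc_norm (enc_subn 2 (ycg.enc h1))) (kcg.enc (enc_norm (enc_sub (enc_scaleT 1 4 (ycg.enc h1)) (enc_half h1))) h2)) (enc_mul (enc_norm (enc_mul (enc_norm (enc_sub (enc_nat 2 h1) (ycg.enc h1))) (enc_norm (enc_sub (enc_add h1 (enc_pnc _ 3)) (enc_scaleT 3 2 (ycg.enc h1)))))) (enc_inv (enc_nat 4 (enc_subn 1 (ycg.enc h1)))))))⟩
noncomputable def lc53_7 : Fn2 := ⟨_, _, fun h1 h2 => (enc_half h1)⟩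
noncomputable def lc53_8 : Fn2 := ⟨_, _, fun h1 h2 => (enc_scaleT 1 4 (ycg.enc h1))⟩
noncomputable def lc53_9 : Fn2 := ⟨_, _, fun h1 h2 => (enc_sub (lc53_7.enc h1 h2) (lc53_8.enc h1 h2))⟩
noncomputable def lc53_12 : Fn2 := ⟨_, _, fun h1 h2 => (enc_add (enc_scaleT 1 4 h1) (enc_scaleT 3 8 (ycg.enc h1)))⟩
noncomputable def lc53_14 : Fn2 := ⟨_, _, fun h1 h2 => (enc_half (lc53_9.enc h1 h2))⟩
noncomputable def lc53 : Fn2 := ⟨_, _, fun h1 h2 => (enc_norm (enc_sub (enc_nat 2 (txg.enc (enc_norm (enc_sub (lc53_8.enc h1 h2) (lc53_7.enc h1 h2))) (enc_norm (enc_add (lc53_12.enc h1 h2) (lc53_14.enc h1 h2))) h2)) (txg.enc (enc_norm (lc53_9.enc h1 h2)) (enc_norm (enc_sub (lc53_12.enc h1 h2) (lc53_14.enc h1 h2))) h2)))⟩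
noncomputable def kcc53_4 : Fn2 := ⟨_, _, fun h1 h2 => (enc_subr 38847 40000 h2)⟩
noncomputable def kcc53_9 : Fn2 := ⟨_, _, fun h1 h2 => (enc_sub (enc_half h1) (enc_scaleT 1 4 (ycg.enc h1)))⟩
noncomputable def kcc53 : Fn2 := ⟨_, _, fun h1 h2 => (enc_norm (enc_case (kcc53_9.enc h1 h2) (enc_case (enc_add (kcc53_9.enc h1 h2) (enc_rat _ 333 1000)) (enc_add (enc_add (enc_scaleT 11099819 835000 (kcc53_9.enc h1 h2)) (enc_rat _ 11099819 1670000)) (enc_mul (enc_norm (kcc53_4.enc h1 h2)) (enc_norm (enc_subr 42117 167 (enc_neg (enc_scaleT 84234 167 (kcc53_9.enc h1 h2))))))) (enc_case (enc_add (kcc53_9.enc h1 h2) (enc_rat _ 167 1000)) (enc_add (enc_subr 1710209377 830000000 (enc_neg (enc_scaleT 10669007 830000 (kcc53_9.enc h1 h2)))) (enc_mul (enc_norm (kcc53_4.enc h1 h2)) (enc_norm (enc_subr 3494589 83000 (enc_scaleT 10501 83 (kcc53_9.enc h1 h2)))))) (enc_add (enc_subr 20605251 10000000 (enc_neg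 (enc_scaleT 34347 2672 (kcc53_9.enc h1 h2)))) (enc_mul (enc_norm (kcc53_4.enc h1 h2)) (enc_norm (enc_subr 42107 1000 (enc_scaleT 21125 167 (kcc53_9.enc h1 h2)))))))) (enc_case (enc_subr 167 1000 (kcc53_9.enc h1 h2)) (enc_add (enc_subr 20605251 10000000 (enc_neg (enc_scaleT 536671 41750 (kcc53_9.enc h1 h2)))) (enc_mul (enc_norm (kcc53_4.enc h1 h2)) (enc_norm (enc_subr 42107 1000 (enc_scaleT 21120 167 (kcc53_9.enc h1 h2)))))) (enc_case (enc_subr 333 1000 (kcc53_9.enc h1 h2)) (enc_add (enc_subr 684106793 332000000 (enc_neg (enc_scaleT 21337923 1660000 (kcc53_9.enc h1 h2)))) (enc_mul (enc_norm (kcc53_4.enc h1 h2)) (enc_norm (enc_subr 1397801 33200 (enc_scaleT 20989 166 (kcc53_9.enc h1 h2)))))) (enc_add (enc_subr 31705007 1670000 (enc_scaleT 31705007 835000 (kcc53_9.enc h1 h2))) (enc_mul (enc_norm (kcc53_4.enc h1 h2)) (enc_norm (enc_sub (enc_rat _ 1 167) (enc_scaleT 2 167 (kcc53_9.enc h1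 h2))))))))))⟩
noncomputable def lm4m : Fn2 := ⟨_, _, fun h1 h2 => (enc_lam (enc_norm (enc_sub h1 (cv4m.enc h2))) (enc_sub (c3g.enc h2) (cv4m.enc h2)))⟩
noncomputable def lm3m : Fn2 := ⟨_, _, fun h1 h2 => (enc_lam (enc_norm (enc_sub h1 (cv3m.enc h2))) (enc_sub (cv4m.enc h2) (cv3m.enc h2)))⟩
noncomputable def bf3q0_3 : Fn2 := ⟨_, _, fun h1 h2 => (enc_subr 38847 40000 h2)⟩
noncomputable def bf3q0 : Fn2 := ⟨_, _, fun h1 h2 => (enc_norm (enc_case (enc_subr 3397 128000 h1) (enc_case (enc_subr 21 2000 h1) (enc_case (enc_subr 1 200 h1) (enc_add (enc_sub (enc_rat _ 12065481 12500000) (enc_scaleT 3015709 500000 h1)) (enc_mul (enc_norm (bf3q0_3.enc h1 h2)) (enc_norm (enc_add (enc_scaleT 1387 50 h1) (enc_rat _ 46 625))))) (enc_add (enc_sub (enc_rat _ 1061756209 1100000000) (enc_scaleT 829167 137500 h1)) (enc_mul (enc_norm (bf3q0_3.enc h1 h2)) (enc_norm (enc_add (enc_scaleT 1524 55 h1) (enc_rat _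 8113 110000)))))) (enc_case (enc_subr 29 2000 h1) (enc_add (enc_sub (enc_rat _ 97299257 100000000) (enc_scaleT 169233 25000 h1)) (enc_mul (enc_norm (bf3q0_3.enc h1 h2)) (enc_norm (enc_add (enc_scaleT 138 5 h1) (enc_rat _ 749 10000))))) (enc_add (enc_sub (enc_rat _ 479209381819 492500000000) (enc_scaleT 208413567 30781250 h1)) (enc_mul (enc_norm (bf3q0_3.enc h1 h2)) (enc_norm (enc_add (enc_scaleT 84795144 3078125 h1) (enc_rat _ 465775199 6156250000))))))) (enc_case (enc_subr 1 10 h1) (enc_case (enc_subr 1 20 h1) (enc_add (enc_sub (enc_rat _ 56033619 50000000) (enc_scaleT 19625111 2500000 h1)) (enc_mul (enc_norm (bf3q0_3.enc h1 h2)) (enc_norm (enc_sub (enc_rat _ 399740243 290000000) (enc_scaleT 60092243 14500000 h1))))) (enc_case (enc_subr 7 100 h1) (enc_add (enc_sub (enc_rat _ 224135017 200000000) (enc_scaleT 15700197 2000000 h1)) (enc_mul (enc_norm (bf3q0_3.enc h1 h2)) (enc_norm (enc_sub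 (enc_rat _ 27569 20000) (enc_scaleT 829 200 h1))))) (enc_add (enc_sub (enc_rat _ 336195599 300000000) (enc_scaleT 11774653 1500000 h1)) (enc_mul (enc_norm (bf3q0_3.enc h1 h2)) (enc_norm (enc_sub (enc_rat _ 13781 10000) (enc_scaleT 207 50 h1))))))) (enc_case (enc_subr 11 50 h1) (enc_case (enc_subr 3 20 h1) (enc_add (enc_sub (enc_rat _ 112068547 100000000) (enc_scaleT 39250517 5000000 h1)) (enc_mul (enc_norm (bf3q0_3.enc h1 h2)) (enc_norm (enc_sub (enc_rat _ 13779 10000) (enc_scaleT 2069 500 h1))))) (enc_add (enc_sub (enc_rat _ 784450207 700000000) (enc_scaleT 54948749 7000000 h1)) (enc_mul (enc_norm (bf3q0_3.enc h1 h2)) (enc_norm (enc_sub (enc_rat _ 96399 70000) (enc_scaleT 2893 700 h1)))))) (enc_case (enc_subr 33 100 h1) (enc_add (enc_sub (enc_rat _ 112066701 100000000) (enc_scaleT 86349227 11000000 h1)) (enc_mul (enc_norm (bf3q0_3.enc h1 h2)) (enc_norm (enc_sub (enc_rat _ 13757 10000)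 (enc_scaleT 4539 1100 h1))))) (enc_add (enc_sub (enc_rat _ 1905105723 1700000000) (enc_scaleT 133447951 17000000 h1)) (enc_mul (enc_norm (bf3q0_3.enc h1 h2)) (enc_norm (enc_sub (enc_rat _ 233611 170000) (enc_scaleT 7007 1700 h1))))))))))⟩
noncomputable def lm2m : Fn2 := ⟨_, _, fun h1 h2 => (enc_lam (enc_norm (enc_sub h1 (cv2m.enc h2))) (enc_sub (cv3m.enc h2) (cv2m.enc h2)))⟩
noncomputable def lm1m : Fn2 := ⟨_, _, fun h1 h2 => (enc_lam (enc_norm (enc_sub h1 (cv1m.enc h2))) (enc_sub (cv2m.enc h2) (cv1m.enc h2)))⟩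
noncomputable def lm0m : Fn2 := ⟨_, _, fun h1 h2 => (enc_lam (enc_norm (enc_sub h1 (c1g.enc h2))) (enc_sub (cv1m.enc h2) (c1g.enc h2)))⟩
noncomputable def rkbq0_36 : Fn3 := ⟨_, _, fun h1 h2 h3 => (enc_add (enc_mul h1 (bf3q0.enc h2 h3)) (enc_mul (enc_norm (enc_mul (enc_norm (enc_sub (enc_pnc _ 1) (lm2m.enc h1 h2))) (cv2m.enc h2))) (enc_norm (enc_sub (bf2q0.enc h2 h3) (bf3q0.enc h2 h3)))))⟩
noncomputable def rkbq0_38 : Fn3 := ⟨_, _, fun h1 h2 h3 => (enc_sub (enc_pnc _ 1) h2)⟩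
noncomputable def rkbq0_39 : Fn3 := ⟨_, _, fun h1 h2 h3 => (gsg.enc (enc_norm (rkbq0_38.enc h1 h2 h3)))⟩
noncomputable def rkbq0_42 : Fn3 := ⟨_, _, fun h1 h2 h3 => (enc_sub (enc_scaleT 3 4 (rkbq0_38.enc h1 h2 h3)) (enc_half (rkbq0_39.enc h1 h2 h3)))⟩
noncomputable def rkbq0_43 : Fn3 := ⟨_, _, fun h1 h2 h3 => (esg.enc (enc_norm (rkbq0_38.enc h1 h2 h3)))⟩
noncomputable def rkbq0_44 : Fn3 := ⟨_, _, fun h1 h2 h3 => (kcg.enc (enc_norm (rkbq0_42.enc h1 h2 h3)) h3)⟩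
noncomputable def rkbq0_52 : Fn3 := ⟨_, _, fun h1 h2 h3 => (enc_sub (rkbq0_42.enc h1 h2 h3) (enc_sub (enc_rat _ 1 4) (enc_scaleT 3 8 (enc_mul (enc_norm (rkbq0_38.enc h1 h2 h3)) (enc_inv (rkbq0_39.enc h1 h2 h3))))))⟩
noncomputable def rkbq0_58 : Fn3 := ⟨_, _, fun h1 h2 h3 => (enc_wB0 (enc_mul h2 (enc_norm (enc_sub (enc_mul (enc_norm (rkbq0_52.enc h1 h2 h3)) (enc_inv (rkbq0_43.enc h1 h2 h3))) (rkbq0_44.enc h1 h2 h3)))) (rkbq0_38.enc h1 h2 h3) (rkbq0_39.enc h1 h2 h3) (rkbq0_43.enc h1 h2 h3) h2 (rkbq0_52.enc h1 h2 h3) (rkbq0_44.enc h1 h2 h3) rfl rfl rfl rfl)⟩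
noncomputable def rkbq0_62 : Fn3 := ⟨_, _, fun h1 h2 h3 => (enc_add (swg.enc h2) (enc_rat _ 1 2))⟩
noncomputable def rkbq0_63 : Fn3 := ⟨_, _, fun h1 h2 h3 => (enc_sub h1 (cv2m.enc h2))⟩
noncomputable def rkbq0 : Fn3 := ⟨_, _, fun h1 h2 h3 => (enc_case (enc_sub h1 (cv1m.enc h2)) (enc_add (enc_mul h1 (bf1q0.enc h2 h3)) (enc_mul (enc_norm (enc_sub (enc_pnc _ 1) (lm0m.enc h1 h2))) (enc_norm (enc_sub (kf0q0.enc h2 h3) (enc_mul (c1g.enc h2) (bf1q0.enc h2 h3)))))) (enc_case (rkbq0_63.enc h1 h2 h3) (enc_add (enc_mul h1 (bf2q0.enc h2 h3)) (enc_mul (enc_norm (enc_mul (enc_norm (enc_sub (enc_pnc _ 1) (lm1m.enc h1 h2))) (cv1m.enc h2))) (enc_norm (enc_sub (bf1q0.enc h2 h3) (bf2q0.enc h2 h3))))) (enc_case (enc_sub h1 (cv3m.enc h2)) (enc_case (enc_subr 9 512 h2) (rkbq0_36.enc h1 h2 h3) (enc_case (enc_subr 71 2000 h2) (enc_wL (enc_add (kf2q0.enc h2 h3) (enc_mul (enc_norm (enc_mul (enc_norm (rkbq0_63.enc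 h1 h2 h3)) (enc_inv (enc_sub (rkbq0_62.enc h1 h2 h3) (cv2m.enc h2))))) (enc_norm (enc_sub (rkbq0_58.enc h1 h2 h3) (kf2q0.enc h2 h3))))) h1 (rkbq0_62.enc h1 h2 h3) (cv2m.enc h2) (rkbq0_58.enc h1 h2 h3) (kf2q0.enc h2 h3) rfl) (rkbq0_36.enc h1 h2 h3))) (enc_case (enc_sub h1 (cv4m.enc h2)) (enc_add (enc_mul h1 (bf4q0.enc h2 h3)) (enc_mul (enc_norm (enc_sub (enc_pnc _ 1) (lm3m.enc h1 h2))) (enc_norm (enc_sub (kf3q0.enc h2 h3) (enc_mul (cv3m.enc h2) (bf4q0.enc h2 h3)))))) (enc_add (kf4q0.enc h2 h3) (enc_mul (lm4m.enc h1 h2) (enc_norm (enc_sub (kf5q0.enc h2 h3) (kf4q0.enc h2 h3)))))))))⟩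
noncomputable def rsbq0 : Fn3 := ⟨_, _, fun h1 h2 h3 => (enc_case h1 (enc_neg (rkbq0.enc (enc_neg h1) h2 h3)) (rkbq0.enc h1 h2 h3))⟩
noncomputable def rkbq1 : Fn3 := ⟨_, _, fun h1 h2 h3 => (enc_case (enc_sub h1 (cv1m.enc h2)) (enc_add (enc_mul h1 (bf1q1.enc h2 h3)) (enc_mul (enc_norm (enc_sub (enc_pnc _ 1) (lm0m.enc h1 h2))) (enc_norm (enc_sub (kf0q1.enc h2 h3) (enc_mul (c1g.enc h2) (bf1q1.enc h2 h3)))))) (enc_case (enc_sub h1 (cv2m.enc h2)) (enc_add (enc_mul h1 (bf2q1.enc h2 h3)) (enc_mul (enc_norm (enc_mul (enc_norm (enc_sub (enc_pnc _ 1) (lm1m.enc h1 h2))) (cv1m.enc h2))) (enc_norm (enc_sub (bf1q1.enc h2 h3) (bf2q1.enc h2 h3))))) (enc_case (enc_sub h1 (cv3m.enc h2)) (enc_add (enc_mul h1 (bf3q1.enc h2 h3)) (enc_mul (enc_norm (enc_mul (enc_norm (enc_sub (enc_pnc _ 1) (lm2m.enc h1 h2))) (cv2m.enc h2))) (enc_norm (enc_sub (bf2q1.enc h2 h3) (bf3q1.enc h2 h3))))) (enc_case (enc_sub h1 (cv4m.enc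 h2)) (enc_add (enc_mul h1 (bf4q1.enc h2 h3)) (enc_mul (enc_norm (enc_mul (enc_norm (enc_sub (enc_pnc _ 1) (lm3m.enc h1 h2))) (cv3m.enc h2))) (enc_norm (enc_sub (bf3q1.enc h2 h3) (bf4q1.enc h2 h3))))) (enc_add (kf4q1.enc h2 h3) (enc_mul (lm4m.enc h1 h2) (enc_norm (enc_sub (kf5q1.enc h2 h3) (kf4q1.enc h2 h3)))))))))⟩
noncomputable def rsbq1 : Fn3 := ⟨_, _, fun h1 h2 h3 => (enc_case h1 (enc_neg (rkbq1.enc (enc_neg h1) h2 h3)) (rkbq1.enc h1 h2 h3))⟩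
noncomputable def cv1p : Fn1 := ⟨_, _, fun h1 => (enc_norm (enc_add (enc_scaleT 3 4 (c1g.enc h1)) (enc_scaleT 1 4 (enc_subr 1 2 (swg.enc h1)))))⟩
noncomputable def cv2p : Fn1 := ⟨_, _, fun h1 => (enc_norm (enc_add (enc_scaleT 7 20 (c1g.enc h1)) (enc_scaleT 13 20 (enc_subr 1 2 (swg.enc h1)))))⟩
noncomputable def lm4p : Fn2 := ⟨_, _, fun h1 h2 => (enc_lam (enc_norm (enc_sub h1 (cv4p.enc h2))) (enc_sub (c3g.enc h2) (cv4p.enc h2)))⟩
noncomputable def lm3p : Fn2 := ⟨_, _, fun h1 h2 => (enc_lam (enc_norm (enc_sub h1 (cv3p.enc h2))) (enc_sub (cv4p.enc h2) (cv3p.enc h2)))⟩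
noncomputable def lm2p : Fn2 := ⟨_, _, fun h1 h2 => (enc_lam (enc_norm (enc_sub h1 (cv2p.enc h2))) (enc_sub (cv3p.enc h2) (cv2p.enc h2)))⟩
noncomputable def lm1p : Fn2 := ⟨_, _, fun h1 h2 => (enc_lam (enc_norm (enc_sub h1 (cv1p.enc h2))) (enc_sub (cv2p.enc h2) (cv1p.enc h2)))⟩
noncomputable def kf0q2 : Fn2 := ⟨_, _, fun h1 h2 => (enc_norm (enc_add (c1g.enc h1) (enc_mul (enc_norm (enc_subn 1 h1)) (kcg.enc (enc_neg (c1g.enc h1)) h2))))⟩
noncomputable def lm0p : Fn2 := ⟨_, _, fun h1 h2 => (enc_lam (enc_norm (enc_sub h1 (c1g.enc h2))) (enc_sub (cv1p.enc h2) (c1g.enc h2)))⟩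
noncomputable def n0b : Fn2 := ⟨_, _, fun h1 h2 => (enc_norm (enc_sub (enc_pnc _ 1) (enc_mul (enc_norm (enc_subn 1 h1)) (enc_norm (enc_add (enc_scaleT 929 10000 (enc_subr 38847 40000 h2)) (enc_rat _ 151927497 100000000))))))⟩
noncomputable def rkbq2_51 : Fn3 := ⟨_, _, fun h1 h2 h3 => (enc_mul h1 (bf1q2.enc h2 h3))⟩
noncomputable def rkbq2_53 : Fn3 := ⟨_, _, fun h1 h2 h3 => (enc_sub (enc_pnc _ 1) (lm0p.enc h1 h2))⟩
noncomputable def rkbq2 : Fn3 := ⟨_, _, fun h1 h2 h3 => (enc_case (enc_sub h1 (cv1p.enc h2)) (enc_case (enc_subr 1149 1000 h2) (enc_add (rkbq2_51.enc h1 h2 h3) (enc_mul (enc_norm (rkbq2_53.enc h1 h2 h3)) (enc_norm (enc_sub (kf0q2.enc h2 h3) (enc_mul (c1g.enc h2) (bf1q2.enc h2 h3)))))) (enc_case (enc_subr 2887 2500 h2) (enc_add (rkbq2_51.enc h1 h2 h3) (enc_mul (enc_norm (rkbq2_53.enc h1 h2 h3)) (enc_norm (enc_mul (c1g.enc h2) (enc_norm (enc_sub (n0b.enc h2 h3) (bf1q2.enc h2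 h3))))))) (rkbq2_51.enc h1 h2 h3))) (enc_case (enc_sub h1 (cv2p.enc h2)) (enc_add (enc_mul h1 (bf2q2.enc h2 h3)) (enc_mul (enc_norm (enc_mul (enc_norm (enc_sub (enc_pnc _ 1) (lm1p.enc h1 h2))) (cv1p.enc h2))) (enc_norm (enc_sub (bf1q2.enc h2 h3) (bf2q2.enc h2 h3))))) (enc_case (enc_sub h1 (cv3p.enc h2)) (enc_add (enc_mul h1 (bf3q2.enc h2 h3)) (enc_mul (enc_norm (enc_mul (enc_norm (enc_sub (enc_pnc _ 1) (lm2p.enc h1 h2))) (cv2p.enc h2))) (enc_norm (enc_sub (bf2q2.enc h2 h3) (bf3q2.enc h2 h3))))) (enc_case (enc_sub h1 (cv4p.enc h2)) (enc_add (enc_mul h1 (bf4q2.enc h2 h3)) (enc_mul (enc_norm (enc_mul (enc_norm (enc_sub (enc_pnc _ 1) (lm3p.enc h1 h2))) (cv3p.enc h2))) (enc_norm (enc_sub (bf3q2.enc h2 h3) (bf4q2.enc h2 h3))))) (enc_add (kf4q2.enc h2 h3) (enc_mul (lm4p.enc h1 h2) (enc_norm (enc_sub (kf5q2.enc h2 h3) (kf4q2.enc h2 h3)))))))))⟩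
noncomputable def rsbq2 : Fn3 := ⟨_, _, fun h1 h2 h3 => (enc_case h1 (enc_neg (rkbq2.enc (enc_neg h1) h2 h3)) (rkbq2.enc h1 h2 h3))⟩
noncomputable def cv3r : Fn1 := ⟨_, _, fun h1 => (enc_norm (enc_add (enc_scaleT 1929 2000 (enc_subr 1 2 (swg.enc h1))) (enc_scaleT 71 2000 (c3g.enc h1))))⟩
noncomputable def cv4r : Fn1 := ⟨_, _, fun h1 => (enc_norm (enc_add (enc_scaleT 3 10 (enc_subr 1 2 (swg.enc h1))) (enc_scaleT 7 10 (c3g.enc h1))))⟩
noncomputable def kf4q3_4 : Fn2 := ⟨_, _, fun h1 h2 => (enc_subr 38847 40000 h2)⟩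
noncomputable def kf4q3_26 : Fn2 := ⟨_, _, fun h1 h2 => (enc_scaleT 18 5 h1)⟩
noncomputable def kf4q3 : Fn2 := ⟨_, _, fun h1 h2 => (enc_norm (enc_mul (cv4r.enc h1) (enc_norm (enc_case (enc_subr 987 500 h1) (enc_case (enc_subr 39 20 h1) (enc_case (enc_subr 193 100 h1) (enc_add (enc_subr 4937299813 2150000000 (enc_scaleT 31245659 21500000 h1)) (enc_mul (enc_norm (kf4q3_4.enc h1 h2)) (enc_norm (enc_sub (enc_rat _ 1163259 215000) (enc_scaleT 7737 2150 h1))))) (enc_add (enc_subr 28698803 12500000 (enc_scaleT 72651 50000 h1)) (enc_mul (enc_norm (kf4q3_4.enc h1 h2)) (enc_norm (enc_sub (enc_rat _ 13533 2500) (kf4q3_26.enc h1 h2)))))) (enc_case (enc_subr 3929 2000 h1) (enc_add (enc_subr 52040407 22656250 (enc_scaleT 2107661 1450000 h1)) (enc_mul (enc_norm (kf4q3_4.enc h1 h2)) (enc_norm (enc_sub (enc_rat _ 98358 18125) (enc_scaleT 523 145 h1))))) (enc_add (enc_subr 4362301423 1900000000 (enc_scaleT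 690197 475000 h1)) (enc_mul (enc_norm (kf4q3_4.enc h1 h2)) (enc_norm (enc_sub (enc_rat _ 54131 10000) (kf4q3_26.enc h1 h2))))))) (enc_case (enc_sub (enc_rat _ 154764337 1000000000) (c3g.enc h1)) (enc_case (enc_subr 1015 512 h1) (enc_add (enc_subr 17685849257 7700000000 (enc_scaleT 2448256 1684375 h1)) (enc_mul (enc_norm (kf4q3_4.enc h1 h2)) (enc_norm (enc_sub (enc_rat _ 4182751 770000) (enc_scaleT 9728 2695 h1))))) (enc_add (enc_add (enc_scaleT 57631300 74370191 (c3g.enc h1)) (enc_rat _ 432456900494747 1062431300000000)) (enc_mul (enc_norm (kf4q3_4.enc h1 h2)) (enc_norm (enc_subr 150995821 106243130000 (enc_neg (enc_scaleT 559000000 74370191 (c3g.enc h1)))))))) (enc_case (enc_sub (enc_rat _ 105307799 1000000000) (c3g.enc h1)) (enc_add (enc_add (enc_scaleT 19160200 24728269 (c3g.enc h1)) (enc_rat _ 1006587107768561 2472826900000000)) (enc_mul (enc_norm (kf4q3_4.enc h1 h2)) (enc_norm (enc_subr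 148482223 247282690000 (enc_neg (enc_scaleT 186000000 24728269 (c3g.enc h1))))))) (enc_case (enc_sub (enc_rat _ 54765409 1000000000) (c3g.enc h1)) (enc_add (enc_add (enc_scaleT 3750635 5054239 (c3g.enc h1)) (enc_rat _ 414961497175269 1010847800000000)) (enc_mul (enc_norm (kf4q3_4.enc h1 h2)) (enc_norm (enc_sub (enc_rat _ 9329933 101084780000) (enc_scaleT 38050000 5054239 (c3g.enc h1)))))) (enc_sub (enc_sub (enc_rat _ 1 2) (enc_scaleT 48851460 54765409 (c3g.enc h1))) (enc_mul (enc_norm (kf4q3_4.enc h1 h2)) (enc_scaleT 412200000 54765409 (c3g.enc h1)))))))))))⟩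
noncomputable def kf5q3 : Fn2 := ⟨_, _, fun h1 h2 => (enc_norm (enc_sub (enc_mul (enc_norm (enc_subn 2 h1)) (kcg.enc (enc_norm (enc_sub (enc_scaleT 1 4 h1) (enc_half (c3g.enc h1)))) h2)) (enc_mul (enc_norm (enc_mul (enc_norm (enc_sub (enc_nat 2 (c3g.enc h1)) h1)) (enc_norm (enc_sub (enc_add (c3g.enc h1) (enc_pnc _ 3)) (enc_scaleT 3 2 h1))))) (enc_inv (enc_nat 4 (enc_subn 1 h1))))))⟩
noncomputable def lm4r : Fn2 := ⟨_, _, fun h1 h2 => (enc_lam (enc_norm (enc_sub h1 (cv4r.enc h2))) (enc_sub (c3g.enc h2) (cv4r.enc h2)))⟩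
noncomputable def bf4q3_3 : Fn2 := ⟨_, _, fun h1 h2 => (enc_subr 38847 40000 h2)⟩
noncomputable def bf4q3_25 : Fn2 := ⟨_, _, fun h1 h2 => (enc_scaleT 18 5 h1)⟩
noncomputable def bf4q3 : Fn2 := ⟨_, _, fun h1 h2 => (enc_norm (enc_case (enc_subr 987 500 h1) (enc_case (enc_subr 39 20 h1) (enc_case (enc_subr 193 100 h1) (enc_add (enc_subr 4937299813 2150000000 (enc_scaleT 31245659 21500000 h1)) (enc_mul (enc_norm (bf4q3_3.enc h1 h2)) (enc_norm (enc_sub (enc_rat _ 1163259 215000) (enc_scaleT 7737 2150 h1))))) (enc_add (enc_subr 28698803 12500000 (enc_scaleT 72651 50000 h1)) (enc_mul (enc_norm (bf4q3_3.enc h1 h2)) (enc_norm (enc_sub (enc_rat _ 13533 2500) (bf4q3_25.enc h1 h2)))))) (enc_case (enc_subr 3929 2000 h1) (enc_add (enc_subr 52040407 22656250 (enc_scaleT 2107661 1450000 h1)) (enc_mul (enc_norm (bf4q3_3.enc h1 h2)) (enc_norm (enc_sub (enc_rat _ 98358 18125) (enc_scaleT 523 145 h1)))))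 (enc_add (enc_subr 4362301423 1900000000 (enc_scaleT 690197 475000 h1)) (enc_mul (enc_norm (bf4q3_3.enc h1 h2)) (enc_norm (enc_sub (enc_rat _ 54131 10000) (bf4q3_25.enc h1 h2))))))) (enc_case (enc_sub (enc_rat _ 154764337 1000000000) (c3g.enc h1)) (enc_case (enc_subr 1015 512 h1) (enc_add (enc_subr 17685849257 7700000000 (enc_scaleT 2448256 1684375 h1)) (enc_mul (enc_norm (bf4q3_3.enc h1 h2)) (enc_norm (enc_sub (enc_rat _ 4182751 770000) (enc_scaleT 9728 2695 h1))))) (enc_add (enc_add (enc_scaleT 57631300 74370191 (c3g.enc h1)) (enc_rat _ 432456900494747 1062431300000000)) (enc_mul (enc_norm (bf4q3_3.enc h1 h2)) (enc_norm (enc_subr 150995821 106243130000 (enc_neg (enc_scaleT 559000000 74370191 (c3g.enc h1)))))))) (enc_case (enc_sub (enc_rat _ 105307799 1000000000) (c3g.enc h1)) (enc_add (enc_add (enc_scaleT 19160200 24728269 (c3g.enc h1)) (enc_rat _ 1006587107768561 2472826900000000))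 (enc_mul (enc_norm (bf4q3_3.enc h1 h2)) (enc_norm (enc_subr 148482223 247282690000 (enc_neg (enc_scaleT 186000000 24728269 (c3g.enc h1))))))) (enc_case (enc_sub (enc_rat _ 54765409 1000000000) (c3g.enc h1)) (enc_add (enc_add (enc_scaleT 3750635 5054239 (c3g.enc h1)) (enc_rat _ 414961497175269 1010847800000000)) (enc_mul (enc_norm (bf4q3_3.enc h1 h2)) (enc_norm (enc_sub (enc_rat _ 9329933 101084780000) (enc_scaleT 38050000 5054239 (c3g.enc h1)))))) (enc_sub (enc_sub (enc_rat _ 1 2) (enc_scaleT 48851460 54765409 (c3g.enc h1))) (enc_mul (enc_norm (bf4q3_3.enc h1 h2)) (enc_scaleT 412200000 54765409 (c3g.enc h1)))))))))⟩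
noncomputable def lm3r : Fn2 := ⟨_, _, fun h1 h2 => (enc_lam (enc_norm (enc_sub h1 (cv3r.enc h2))) (enc_sub (cv4r.enc h2) (cv3r.enc h2)))⟩
noncomputable def kf3q3_4 : Fn2 := ⟨_, _, fun h1 h2 => (enc_subr 38847 40000 h2)⟩
noncomputable def kf3q3_6 : Fn2 := ⟨_, _, fun h1 h2 => (enc_subr 193 100 h1)⟩
noncomputable def kf3q3_18 : Fn2 := ⟨_, _, fun h1 h2 => (enc_subr 39 20 h1)⟩
noncomputable def kf3q3_44 : Fn2 := ⟨_, _, fun h1 h2 => (enc_sub (enc_rat _ 105307799 1000000000) (c3g.enc h1))⟩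
noncomputable def kf3q3_46 : Fn2 := ⟨_, _, fun h1 h2 => (enc_sub (enc_rat _ 154764337 1000000000) (c3g.enc h1))⟩
noncomputable def kf3q3_70 : Fn2 := ⟨_, _, fun h1 h2 => (enc_sub (enc_rat _ 54765409 1000000000) (c3g.enc h1))⟩
noncomputable def kf3q3_93 : Fn2 := ⟨_, _, fun h1 h2 => (enc_subn 1 h1)⟩
noncomputable def kf3q3_94 : Fn2 := ⟨_, _, fun h1 h2 => (gsg.enc (enc_norm (kf3q3_93.enc h1 h2)))⟩
noncomputable def kf3q3_95 : Fn2 := ⟨_, _, fun h1 h2 => (enc_scaleT 3 4 (kf3q3_93.enc h1 h2))⟩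
noncomputable def kf3q3_96 : Fn2 := ⟨_, _, fun h1 h2 => (enc_half (kf3q3_94.enc h1 h2))⟩
noncomputable def kf3q3_98 : Fn2 := ⟨_, _, fun h1 h2 => (esg.enc (enc_norm (kf3q3_93.enc h1 h2)))⟩
noncomputable def kf3q3_99 : Fn2 := ⟨_, _, fun h1 h2 => (kcg.enc (enc_norm (enc_sub (kf3q3_95.enc h1 h2) (kf3q3_96.enc h1 h2))) h2)⟩
noncomputable def kf3q3_101 : Fn2 := ⟨_, _, fun h1 h2 => (enc_subn 2 h1)⟩
noncomputable def kf3q3_108 : Fn2 := ⟨_, _, fun h1 h2 => (enc_sub (enc_sub (kf3q3_96.enc h1 h2) (kf3q3_95.enc h1 h2)) (enc_sub (enc_rat _ 1 4) (enc_scaleT 3 8 (enc_mul (enc_norm (kf3q3_93.enc h1 h2)) (enc_inv (kf3q3_94.enc h1 h2))))))⟩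
noncomputable def kf3q3_139 : Fn2 := ⟨_, _, fun h1 h2 => (enc_subr 3929 2000 h1)⟩
noncomputable def kf3q3_163 : Fn2 := ⟨_, _, fun h1 h2 => (enc_subr 1015 512 h1)⟩
noncomputable def kf3q3_223 : Fn2 := ⟨_, _, fun h1 h2 => (enc_mul (cv2r.enc h1) (enc_norm (enc_case (enc_subr 987 500 h1) (enc_case (kf3q3_18.enc h1 h2) (enc_case (kf3q3_6.enc h1 h2) (enc_add (enc_sub (enc_rat _ 4210818509 4300000000) (enc_scaleT 27295597 43000000 h1)) (enc_mul (enc_norm (kf3q3_4.enc h1 h2)) (enc_norm (enc_sub (enc_rat _ 8526213 430000) (enc_scaleT 56629 4300 h1))))) (enc_add (enc_sub (enc_rat _ 49010549 50000000) (enc_scaleT 317637 500000 h1)) (enc_mul (enc_norm (kf3q3_4.enc h1 h2)) (enc_norm (enc_sub (enc_rat _ 99243 5000) (enc_scaleT 659 50 h1)))))) (enc_case (kf3q3_139.enc h1 h2) (enc_add (enc_sub (enc_rat _ 354576559 362500000) (enc_scaleT 919609 1450000 h1)) (enc_mul (enc_norm (kf3q3_4.enc h1 h2)) (enc_norm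 (enc_sub (enc_rat _ 360219 18125) (enc_scaleT 1913 145 h1))))) (enc_add (enc_sub (enc_rat _ 930662431 950000000) (enc_scaleT 603229 950000 h1)) (enc_mul (enc_norm (kf3q3_4.enc h1 h2)) (enc_norm (enc_sub (enc_rat _ 1887367 95000) (enc_scaleT 1253 95 h1))))))) (enc_case (kf3q3_46.enc h1 h2) (enc_case (kf3q3_163.enc h1 h2) (enc_add (enc_sub (enc_rat _ 3766628639 3850000000) (enc_scaleT 1068432 1684375 h1)) (enc_mul (enc_norm (kf3q3_4.enc h1 h2)) (enc_norm (enc_sub (enc_rat _ 7659623 385000) (enc_scaleT 35584 2695 h1))))) (enc_add (enc_subr 250578196202209 531215650000000 (enc_scaleT 62500250 74370191 (c3g.enc h1))) (enc_mul (enc_norm (kf3q3_4.enc h1 h2)) (enc_norm (enc_subr 127802146113 53121565000 (enc_neg (enc_scaleT 1257500000 74370191 (c3g.enc h1)))))))) (enc_case (kf3q3_44.enc h1 h2) (enc_add (enc_subr 93317945458041 197826152000000 (enc_scaleT 20783055 24728269 (c3g.enc h1))) (enc_mul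 (enc_norm (kf3q3_4.enc h1 h2)) (enc_norm (enc_subr 47528469617 19782615200 (enc_neg (enc_scaleT 418650000 24728269 (c3g.enc h1))))))) (enc_case (kf3q3_70.enc h1 h2) (enc_add (enc_subr 2384597113001253 5054239000000000 (enc_scaleT 4251927 5054239 (c3g.enc h1))) (enc_mul (enc_norm (kf3q3_4.enc h1 h2)) (enc_norm (enc_subr 1213861123821 505423900000 (enc_neg (enc_scaleT 85610000 5054239 (c3g.enc h1))))))) (enc_add (enc_subr 5900861 12500000 (enc_scaleT 46339390 54765409 (c3g.enc h1))) (enc_mul (enc_norm (kf3q3_4.enc h1 h2)) (enc_norm (enc_subr 1501 625 (enc_neg (enc_scaleT 927700000 54765409 (c3g.enc h1)))))))))))))⟩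
noncomputable def kf3q3 : Fn2 := ⟨_, _, fun h1 h2 => (enc_norm (enc_case (kf3q3_139.enc h1 h2) (enc_mul (cv3r.enc h1) (enc_norm (enc_case (kf3q3_6.enc h1 h2) (enc_add (enc_sub (enc_rat _ 4549607357 430000000) (enc_scaleT 225893529 43000000 h1)) (enc_mul (enc_norm (kf3q3_4.enc h1 h2)) (enc_norm (enc_subr 235651 43000 (enc_scaleT 15647 4300 h1))))) (enc_case (kf3q3_18.enc h1 h2) (enc_add (enc_sub (enc_rat _ 42319691 4000000) (enc_scaleT 656631 125000 h1)) (enc_mul (enc_norm (kf3q3_4.enc h1 h2)) (enc_norm (enc_subr 2193 400 (enc_scaleT 91 25 h1))))) (enc_add (enc_sub (enc_rat _ 30684947611 2900000000) (enc_scaleT 190443321 36250000 h1)) (enc_mul (enc_norm (kf3q3_4.enc h1 h2)) (enc_norm (enc_subr 398477271 72500000 (enc_scaleT 13220539 3625000 h1))))))))) (enc_case (kf3q3_163.enc h1 h2) (enc_add (kf3q3_223.enc h1 h2) (enc_mul (enc_norm (enc_mul (enc_norm (enc_sub (enc_wB3 (enc_mul (enc_norm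 (kf3q3_101.enc h1 h2)) (enc_norm (enc_add (enc_mul (enc_norm (kf3q3_108.enc h1 h2)) (enc_inv (kf3q3_98.enc h1 h2))) (kf3q3_99.enc h1 h2)))) (kf3q3_93.enc h1 h2) (kf3q3_94.enc h1 h2) (kf3q3_98.enc h1 h2) (kf3q3_101.enc h1 h2) (kf3q3_108.enc h1 h2) (kf3q3_99.enc h1 h2) h1 rfl rfl rfl rfl rfl) (kf3q3_223.enc h1 h2))) (enc_norm (enc_sub (cv3r.enc h1) (cv2r.enc h1))))) (enc_inv (enc_sub (enc_subr 1 2 (swg.enc h1)) (cv2r.enc h1))))) (enc_mul (cv3r.enc h1) (enc_norm (enc_case (kf3q3_44.enc h1 h2) (enc_case (kf3q3_46.enc h1 h2) (enc_add (enc_subr 26725521113953037 21248626000000000 (enc_scaleT 927203447 148740382 (c3g.enc h1))) (enc_mul (enc_norm (kf3q3_4.enc h1 h2)) (enc_norm (enc_subr 340970584373227 10624313000000000 (enc_scaleT 981928797 74370191 (c3g.enc h1)))))) (enc_add (enc_subr 95859019119273 2472826900000000 (enc_neg (enc_scaleT 40621380 24728269 (c3g.enc h1)))) (enc_mul (enc_norm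 (kf3q3_4.enc h1 h2)) (enc_norm (enc_subr 3148191461 247282690000 (enc_scaleT 323400000 24728269 (c3g.enc h1))))))) (enc_case (kf3q3_70.enc h1 h2) (enc_add (enc_sub (enc_rat _ 413838409184381 5054239000000000) (enc_scaleT 14092969 5054239 (c3g.enc h1))) (enc_mul (enc_norm (kf3q3_4.enc h1 h2)) (enc_norm (enc_subr 1905404483 505423900000 (enc_scaleT 65670000 5054239 (c3g.enc h1)))))) (enc_add (enc_sub (enc_rat _ 1 2) (enc_scaleT 570825460 54765409 (c3g.enc h1))) (enc_mul (enc_norm (kf3q3_4.enc h1 h2)) (enc_scaleT 707800000 54765409 (c3g.enc h1)))))))))))⟩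
noncomputable def bf3q3_3 : Fn2 := ⟨_, _, fun h1 h2 => (enc_subr 38847 40000 h2)⟩
noncomputable def bf3q3 : Fn2 := ⟨_, _, fun h1 h2 => (enc_norm (enc_case (enc_subr 252603 128000 h1) (enc_case (enc_subr 193 100 h1) (enc_add (enc_sub (enc_rat _ 4549607357 430000000) (enc_scaleT 225893529 43000000 h1)) (enc_mul (enc_norm (bf3q3_3.enc h1 h2)) (enc_norm (enc_subr 235651 43000 (enc_scaleT 15647 4300 h1))))) (enc_case (enc_subr 39 20 h1) (enc_add (enc_sub (enc_rat _ 42319691 4000000) (enc_scaleT 656631 125000 h1)) (enc_mul (enc_norm (bf3q3_3.enc h1 h2)) (enc_norm (enc_subr 2193 400 (enc_scaleT 91 25 h1))))) (enc_add (enc_sub (enc_rat _ 30684947611 2900000000) (enc_scaleT 190443321 36250000 h1)) (enc_mul (enc_norm (bf3q3_3.enc h1 h2)) (enc_norm (enc_subr 398477271 72500000 (enc_scaleT 13220539 3625000 h1))))))) (enc_case (enc_sub (enc_rat _ 105307799 1000000000) (c3g.enc h1)) (enc_case (enc_sub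 (enc_rat _ 154764337 1000000000) (c3g.enc h1)) (enc_add (enc_subr 26725521113953037 21248626000000000 (enc_scaleT 927203447 148740382 (c3g.enc h1))) (enc_mul (enc_norm (bf3q3_3.enc h1 h2)) (enc_norm (enc_subr 340970584373227 10624313000000000 (enc_scaleT 981928797 74370191 (c3g.enc h1)))))) (enc_add (enc_subr 95859019119273 2472826900000000 (enc_neg (enc_scaleT 40621380 24728269 (c3g.enc h1)))) (enc_mul (enc_norm (bf3q3_3.enc h1 h2)) (enc_norm (enc_subr 3148191461 247282690000 (enc_scaleT 323400000 24728269 (c3g.enc h1))))))) (enc_case (enc_sub (enc_rat _ 54765409 1000000000) (c3g.enc h1)) (enc_add (enc_sub (enc_rat _ 413838409184381 5054239000000000) (enc_scaleT 14092969 5054239 (c3g.enc h1))) (enc_mul (enc_norm (bf3q3_3.enc h1 h2)) (enc_norm (enc_subr 1905404483 505423900000 (enc_scaleT 65670000 5054239 (c3g.enc h1)))))) (enc_add (enc_sub (enc_rat _ 1 2) (enc_scaleT 570825460 54765409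 (c3g.enc h1))) (enc_mul (enc_norm (bf3q3_3.enc h1 h2)) (enc_scaleT 707800000 54765409 (c3g.enc h1))))))))⟩
noncomputable def lm2r : Fn2 := ⟨_, _, fun h1 h2 => (enc_lam (enc_norm (enc_sub h1 (cv2r.enc h2))) (enc_sub (cv3r.enc h2) (cv2r.enc h2)))⟩
noncomputable def bf2q3_3 : Fn2 := ⟨_, _, fun h1 h2 => (enc_subr 38847 40000 h2)⟩
noncomputable def bf2q3 : Fn2 := ⟨_, _, fun h1 h2 => (enc_norm (enc_case (enc_subr 987 500 h1) (enc_case (enc_subr 39 20 h1) (enc_case (enc_subr 193 100 h1) (enc_add (enc_sub (enc_rat _ 4210818509 4300000000) (enc_scaleT 27295597 43000000 h1)) (enc_mul (enc_norm (bf2q3_3.enc h1 h2)) (enc_norm (enc_sub (enc_rat _ 8526213 430000) (enc_scaleT 56629 4300 h1))))) (enc_add (enc_sub (enc_rat _ 49010549 50000000) (enc_scaleT 317637 500000 h1)) (enc_mul (enc_norm (bf2q3_3.enc h1 h2)) (enc_norm (enc_sub (enc_rat _ 99243 5000) (enc_scaleT 659 50 h1)))))) (enc_case (enc_subr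 3929 2000 h1) (enc_add (enc_sub (enc_rat _ 354576559 362500000) (enc_scaleT 919609 1450000 h1)) (enc_mul (enc_norm (bf2q3_3.enc h1 h2)) (enc_norm (enc_sub (enc_rat _ 360219 18125) (enc_scaleT 1913 145 h1))))) (enc_add (enc_sub (enc_rat _ 930662431 950000000) (enc_scaleT 603229 950000 h1)) (enc_mul (enc_norm (bf2q3_3.enc h1 h2)) (enc_norm (enc_sub (enc_rat _ 1887367 95000) (enc_scaleT 1253 95 h1))))))) (enc_case (enc_sub (enc_rat _ 154764337 1000000000) (c3g.enc h1)) (enc_case (enc_subr 1015 512 h1) (enc_add (enc_sub (enc_rat _ 3766628639 3850000000) (enc_scaleT 1068432 1684375 h1)) (enc_mul (enc_norm (bf2q3_3.enc h1 h2)) (enc_norm (enc_sub (enc_rat _ 7659623 385000) (enc_scaleT 35584 2695 h1))))) (enc_add (enc_subr 250578196202209 531215650000000 (enc_scaleT 62500250 74370191 (c3g.enc h1))) (enc_mul (enc_norm (bf2q3_3.enc h1 h2)) (enc_norm (enc_subr 127802146113 53121565000 (enc_neg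 (enc_scaleT 1257500000 74370191 (c3g.enc h1)))))))) (enc_case (enc_sub (enc_rat _ 105307799 1000000000) (c3g.enc h1)) (enc_add (enc_subr 93317945458041 197826152000000 (enc_scaleT 20783055 24728269 (c3g.enc h1))) (enc_mul (enc_norm (bf2q3_3.enc h1 h2)) (enc_norm (enc_subr 47528469617 19782615200 (enc_neg (enc_scaleT 418650000 24728269 (c3g.enc h1))))))) (enc_case (enc_sub (enc_rat _ 54765409 1000000000) (c3g.enc h1)) (enc_add (enc_subr 2384597113001253 5054239000000000 (enc_scaleT 4251927 5054239 (c3g.enc h1))) (enc_mul (enc_norm (bf2q3_3.enc h1 h2)) (enc_norm (enc_subr 1213861123821 505423900000 (enc_neg (enc_scaleT 85610000 5054239 (c3g.enc h1))))))) (enc_add (enc_subr 5900861 12500000 (enc_scaleT 46339390 54765409 (c3g.enc h1))) (enc_mul (enc_norm (bf2q3_3.enc h1 h2)) (enc_norm (enc_subr 1501 625 (enc_neg (enc_scaleT 927700000 54765409 (c3g.enc h1))))))))))))⟩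
noncomputable def lm1r : Fn2 := ⟨_, _, fun h1 h2 => (enc_lam (enc_norm (enc_sub h1 (cv1r.enc h2))) (enc_sub (cv2r.enc h2) (cv1r.enc h2)))⟩
noncomputable def bf1q3_3 : Fn2 := ⟨_, _, fun h1 h2 => (enc_subr 38847 40000 h2)⟩
noncomputable def bf1q3_50 : Fn2 := ⟨_, _, fun h1 h2 => (enc_scaleT 1 2000 (bf1q3_3.enc h1 h2))⟩
noncomputable def bf1q3 : Fn2 := ⟨_, _, fun h1 h2 => (enc_norm (enc_case (enc_subr 987 500 h1) (enc_case (enc_subr 39 20 h1) (enc_case (enc_subr 193 100 h1) (enc_add (enc_subr 362163541 21500000 (enc_scaleT 93665007 10750000 h1)) (enc_mul (enc_norm (bf1q3_3.enc h1 h2)) (enc_norm (enc_sub (enc_rat _ 3 2150) (enc_scaleT 1 1075 h1))))) (enc_sub (enc_subr 421119243 25000000 (enc_scaleT 8713 1000 h1)) (enc_scaleT 1 2500 (bf1q3_3.enc h1 h2)))) (enc_case (enc_subr 3929 2000 h1) (enc_add (enc_subr 6106305561 362500000 (enc_scaleT 12634007 1450000 h1)) (enc_mul (enc_norm (bf1q3_3.enc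 h1 h2)) (enc_norm (enc_sub (enc_rat _ 473 36250) (enc_scaleT 1 145 h1))))) (enc_sub (enc_subr 6400736867 380000000 (enc_scaleT 8277 950 h1)) (bf1q3_50.enc h1 h2)))) (enc_case (enc_sub (enc_rat _ 154764337 1000000000) (c3g.enc h1)) (enc_case (enc_subr 1015 512 h1) (enc_sub (enc_subr 25941021661 1540000000 (enc_scaleT 117408 13475 h1)) (bf1q3_50.enc h1 h2)) (enc_add (enc_subr 11444517891967 30355180000000 (enc_scaleT 37329750 10624313 (c3g.enc h1))) (enc_mul (enc_norm (bf1q3_3.enc h1 h2)) (enc_norm (enc_subr 174291833 21248626000 (enc_scaleT 2500000 74370191 (c3g.enc h1))))))) (enc_case (enc_sub (enc_rat _ 105307799 1000000000) (c3g.enc h1)) (enc_add (enc_subr 466182425304819 1236413450000000 (enc_scaleT 86889440 24728269 (c3g.enc h1))) (enc_mul (enc_norm (bf1q3_3.enc h1 h2)) (enc_norm (enc_subr 989981383 123641345000 (enc_scaleT 800000 24728269 (c3g.enc h1)))))) (enc_case (enc_sub (enc_rat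 _ 54765409 1000000000) (c3g.enc h1)) (enc_add (enc_subr 1905613153943339 5054239000000000 (enc_scaleT 17758881 5054239 (c3g.enc h1))) (enc_mul (enc_norm (bf1q3_3.enc h1 h2)) (enc_norm (enc_subr 4115182523 505423900000 (enc_scaleT 170000 5054239 (c3g.enc h1)))))) (enc_add (enc_subr 37703433 100000000 (enc_scaleT 192428740 54765409 (c3g.enc h1))) (enc_mul (enc_norm (bf1q3_3.enc h1 h2)) (enc_norm (enc_subr 81 10000 (enc_scaleT 1800000 54765409 (c3g.enc h1)))))))))))⟩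
noncomputable def rkbq3_36 : Fn3 := ⟨_, _, fun h1 h2 h3 => (enc_add (enc_mul h1 (bf3q3.enc h2 h3)) (enc_mul (enc_norm (enc_mul (enc_norm (enc_sub (enc_pnc _ 1) (lm2r.enc h1 h2))) (cv2r.enc h2))) (enc_norm (enc_sub (bf2q3.enc h2 h3) (bf3q3.enc h2 h3)))))⟩
noncomputable def rkbq3_37 : Fn3 := ⟨_, _, fun h1 h2 h3 => (enc_subn 1 h2)⟩
noncomputable def rkbq3_38 : Fn3 := ⟨_, _, fun h1 h2 h3 => (gsg.enc (enc_norm (rkbq3_37.enc h1 h2 h3)))⟩
noncomputable def rkbq3_39 : Fn3 := ⟨_, _, fun h1 h2 h3 => (enc_scaleT 3 4 (rkbq3_37.enc h1 h2 h3))⟩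
noncomputable def rkbq3_40 : Fn3 := ⟨_, _, fun h1 h2 h3 => (enc_half (rkbq3_38.enc h1 h2 h3))⟩
noncomputable def rkbq3_42 : Fn3 := ⟨_, _, fun h1 h2 h3 => (esg.enc (enc_norm (rkbq3_37.enc h1 h2 h3)))⟩
noncomputable def rkbq3_43 : Fn3 := ⟨_, _, fun h1 h2 h3 => (kcg.enc (enc_norm (enc_sub (rkbq3_39.enc h1 h2 h3) (rkbq3_40.enc h1 h2 h3))) h3)⟩
noncomputable def rkbq3_45 : Fn3 := ⟨_, _, fun h1 h2 h3 => (enc_subn 2 h2)⟩
noncomputable def rkbq3_52 : Fn3 := ⟨_, _, fun h1 h2 h3 => (enc_sub (enc_sub (rkbq3_40.enc h1 h2 h3) (rkbq3_39.enc h1 h2 h3)) (enc_sub (enc_rat _ 1 4) (enc_scaleT 3 8 (enc_mul (enc_norm (rkbq3_37.enc h1 h2 h3)) (enc_inv (rkbq3_38.enc h1 h2 h3))))))⟩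
noncomputable def rkbq3_57 : Fn3 := ⟨_, _, fun h1 h2 h3 => (enc_wB3 (enc_mul (enc_norm (rkbq3_45.enc h1 h2 h3)) (enc_norm (enc_add (enc_mul (enc_norm (rkbq3_52.enc h1 h2 h3)) (enc_inv (rkbq3_42.enc h1 h2 h3))) (rkbq3_43.enc h1 h2 h3)))) (rkbq3_37.enc h1 h2 h3) (rkbq3_38.enc h1 h2 h3) (rkbq3_42.enc h1 h2 h3) (rkbq3_45.enc h1 h2 h3) (rkbq3_52.enc h1 h2 h3) (rkbq3_43.enc h1 h2 h3) h2 rfl rfl rfl rfl rfl)⟩
noncomputable def rkbq3_62 : Fn3 := ⟨_, _, fun h1 h2 h3 => (enc_subr 1 2 (swg.enc h2))⟩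
noncomputable def rkbq3_63 : Fn3 := ⟨_, _, fun h1 h2 h3 => (enc_sub h1 (cv2r.enc h2))⟩
noncomputable def rkbq3 : Fn3 := ⟨_, _, fun h1 h2 h3 => (enc_case (enc_sub h1 (cv1r.enc h2)) (enc_mul h1 (bf1q3.enc h2 h3)) (enc_case (rkbq3_63.enc h1 h2 h3) (enc_add (enc_mul h1 (bf2q3.enc h2 h3)) (enc_mul (enc_norm (enc_mul (enc_norm (enc_sub (enc_pnc _ 1) (lm1r.enc h1 h2))) (cv1r.enc h2))) (enc_norm (enc_sub (bf1q3.enc h2 h3) (bf2q3.enc h2 h3))))) (enc_case (enc_sub h1 (cv3r.enc h2)) (enc_case (enc_subr 3929 2000 h2) (rkbq3_36.enc h1 h2 h3) (enc_case (enc_subr 1015 512 h2) (enc_wL (enc_add (kf2q3.enc h2 h3) (enc_mul (enc_norm (enc_mul (enc_norm (rkbq3_63.enc h1 h2 h3)) (enc_inv (enc_sub (rkbq3_62.enc h1 h2 h3) (cv2r.enc h2))))) (enc_norm (enc_sub (rkbq3_57.enc h1 h2 h3) (kf2q3.enc h2 h3))))) h1 (rkbq3_62.enc h1 h2 h3) (cv2r.enc h2) (rkbq3_57.enc h1 h2 h3) (kf2q3.enc h2 h3) rfl) (rkbq3_36.enc h1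 h2 h3))) (enc_case (enc_sub h1 (cv4r.enc h2)) (enc_add (enc_mul h1 (bf4q3.enc h2 h3)) (enc_mul (enc_norm (enc_sub (enc_pnc _ 1) (lm3r.enc h1 h2))) (enc_norm (enc_sub (kf3q3.enc h2 h3) (enc_mul (cv3r.enc h2) (bf4q3.enc h2 h3)))))) (enc_add (kf4q3.enc h2 h3) (enc_mul (lm4r.enc h1 h2) (enc_norm (enc_sub (kf5q3.enc h2 h3) (kf4q3.enc h2 h3)))))))))⟩
noncomputable def rsbq3 : Fn3 := ⟨_, _, fun h1 h2 h3 => (enc_case h1 (enc_neg (rkbq3.enc (enc_neg h1) h2 h3)) (rkbq3.enc h1 h2 h3))⟩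
noncomputable def bx3q0_3 : Fn2 := ⟨_, _, fun h1 h2 => (enc_subr 38847 40000 h2)⟩
noncomputable def bx3q0_51 : Fn2 := ⟨_, _, fun h1 h2 => (enc_sq (enc_norm (bx3q0_3.enc h1 h2)))⟩
noncomputable def bx3q0 : Fn2 := ⟨_, _, fun h1 h2 => (enc_norm (enc_case (enc_subr 3397 128000 h1) (enc_case (enc_subr 21 2000 h1) (enc_case (enc_subr 1 200 h1) (enc_add (enc_add (enc_scaleT 123417 100000 h1) (enc_rat _ 2347527 100000000)) (enc_mul (enc_norm (bx3q0_3.enc h1 h2)) (enc_norm (enc_sub (enc_rat _ 639 10000) (enc_scaleT 31 10 h1))))) (enc_add (enc_add (enc_scaleT 628253 550000 h1) (enc_rat _ 13164101 550000000)) (enc_mul (enc_norm (bx3q0_3.enc h1 h2)) (enc_norm (enc_sub (enc_rat _ 3557 55000) (enc_scaleT 179 55 h1)))))) (enc_case (enc_subr 29 2000 h1) (enc_add (enc_add (enc_scaleT 468889 400000 h1) (enc_rat _ 18896251 800000000)) (enc_mul (enc_norm (bx3q0_3.enc h1 h2)) (enc_norm (enc_sub (enc_rat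 _ 5107 80000) (enc_scaleT 127 40 h1))))) (enc_add (enc_add (enc_add (enc_scaleT 31284763 30781250 h1) (enc_rat _ 6373036717 246250000000)) (enc_mul (enc_norm (bx3q0_3.enc h1 h2)) (enc_norm (enc_subr 166451693 1539062500 (enc_scaleT 26737518 3078125 h1))))) (enc_mul (bx3q0_51.enc h1 h2) (enc_norm (enc_sub (enc_rat _ 1497067 6156250) (enc_scaleT 412984 24625 h1))))))) (enc_case (enc_subr 1 10 h1) (enc_case (enc_subr 1 20 h1) (enc_add (enc_add (enc_add (enc_scaleT 3545297 7250000 h1) (enc_rat _ 126506079 2900000000)) (enc_mul (enc_norm (bx3q0_3.enc h1 h2)) (enc_norm (enc_sub (enc_rat _ 73080307 145000000) (enc_scaleT 79938807 7250000 h1))))) (enc_mul (bx3q0_51.enc h1 h2) (enc_norm (enc_sub (enc_rat _ 1631 18125) (enc_scaleT 6524 3625 h1))))) (enc_case (enc_subr 7 100 h1) (enc_add (enc_add (enc_scaleT 961637 2000000 h1) (enc_rat _ 8806437 200000000)) (enc_mul (enc_norm (bx3q0_3.enc h1 h2))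 (enc_norm (enc_subr 491 20000 (enc_neg (enc_scaleT 91 200 h1)))))) (enc_add (enc_add (enc_scaleT 285547 600000 h1) (enc_rat _ 13312699 300000000)) (enc_mul (enc_norm (bx3q0_3.enc h1 h2)) (enc_norm (enc_subr 319 10000 (enc_neg (enc_scaleT 7 20 h1)))))))) (enc_case (enc_subr 11 50 h1) (enc_case (enc_subr 3 20 h1) (enc_add (enc_add (enc_scaleT 17871 40000 h1) (enc_rat _ 4728933 100000000)) (enc_mul (enc_norm (bx3q0_3.enc h1 h2)) (enc_norm (enc_subr 419 10000 (enc_neg (enc_scaleT 1 4 h1)))))) (enc_add (enc_add (enc_scaleT 1422871 3500000 h1) (enc_rat _ 1166493 21875000)) (enc_mul (enc_norm (bx3q0_3.enc h1 h2)) (enc_norm (enc_subr 248 4375 (enc_neg (enc_scaleT 53 350 h1))))))) (enc_case (enc_subr 33 100 h1) (enc_add (enc_add (enc_scaleT 3916399 11000000 h1) (enc_rat _ 3221751 50000000)) (enc_mul (enc_norm (bx3q0_3.enc h1 h2)) (enc_norm (enc_subr 393 5000 (enc_neg (enc_scaleT 57 1100 h1))))))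 (enc_add (enc_sub (enc_rat _ 223023759 850000000) (enc_scaleT 828919 3400000 h1)) (enc_mul (enc_norm (bx3q0_3.enc h1 h2)) (enc_norm (enc_subr 561 5000 (enc_scaleT 1 20 h1))))))))))⟩
noncomputable def rxq0_36 : Fn3 := ⟨_, _, fun h1 h2 h3 => (enc_add (enc_mul h1 (bx3q0.enc h2 h3)) (enc_mul (enc_norm (enc_mul (enc_norm (enc_sub (enc_pnc _ 1) (lm2m.enc h1 h2))) (cv2m.enc h2))) (enc_norm (enc_sub (bx2q0.enc h2 h3) (bx3q0.enc h2 h3)))))⟩
noncomputable def rxq0_38 : Fn3 := ⟨_, _, fun h1 h2 h3 => (enc_sub (enc_pnc _ 1) h2)⟩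
noncomputable def rxq0_50 : Fn3 := ⟨_, _, fun h1 h2 h3 => (enc_sub (qsg.enc (enc_norm (rxq0_38.enc h1 h2 h3))) (enc_mul (enc_norm (enc_nat 2 (enc_sub (rxq0_38.enc h1 h2 h3) h3))) (enc_norm (enc_mul (esg.enc (enc_norm (rxq0_38.enc h1 h2 h3))) (kcg.enc (enc_norm (enc_sub (enc_scaleT 3 4 (rxq0_38.enc h1 h2 h3)) (enc_half (gsg.enc (enc_norm (rxq0_38.enc h1 h2 h3)))))) h3)))))⟩
noncomputable def rxq0_54 : Fn3 := ⟨_, _, fun h1 h2 h3 => (enc_add (swg.enc h2) (enc_rat _ 1 2))⟩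
noncomputable def rxq0_55 : Fn3 := ⟨_, _, fun h1 h2 h3 => (enc_sub h1 (cv2m.enc h2))⟩
noncomputable def rxq0 : Fn3 := ⟨_, _, fun h1 h2 h3 => (enc_case (enc_sub h1 (cv1m.enc h2)) (enc_add (enc_mul h1 (bx1q0.enc h2 h3)) (enc_mul (enc_norm (enc_sub (enc_pnc _ 1) (lm0m.enc h1 h2))) (enc_norm (enc_sub (l0q0.enc h2 h3) (enc_mul (c1g.enc h2) (bx1q0.enc h2 h3)))))) (enc_case (rxq0_55.enc h1 h2 h3) (enc_add (enc_mul h1 (bx2q0.enc h2 h3)) (enc_mul (enc_norm (enc_mul (enc_norm (enc_sub (enc_pnc _ 1) (lm1m.enc h1 h2))) (cv1m.enc h2))) (enc_norm (enc_sub (bx1q0.enc h2 h3) (bx2q0.enc h2 h3))))) (enc_case (enc_sub h1 (cv3m.enc h2)) (enc_case (enc_subr 9 512 h2) (rxq0_36.enc h1 h2 h3) (enc_case (enc_subr 71 2000 h2) (enc_wL (enc_add (l2q0.enc h2 h3) (enc_mul (enc_norm (enc_mul (enc_norm (rxq0_55.enc h1 h2 h3)) (enc_inv (enc_sub (rxq0_54.enc h1 h2 h3) (cv2m.enc h2))))) (enc_norm (enc_sub (rxq0_50.enc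 h1 h2 h3) (l2q0.enc h2 h3))))) h1 (rxq0_54.enc h1 h2 h3) (cv2m.enc h2) (rxq0_50.enc h1 h2 h3) (l2q0.enc h2 h3) rfl) (rxq0_36.enc h1 h2 h3))) (enc_case (enc_sub h1 (cv4m.enc h2)) (enc_add (enc_mul h1 (bx4q0.enc h2 h3)) (enc_mul (enc_norm (enc_sub (enc_pnc _ 1) (lm3m.enc h1 h2))) (enc_norm (enc_sub (l3q0.enc h2 h3) (enc_mul (cv3m.enc h2) (bx4q0.enc h2 h3)))))) (enc_add (l4q0.enc h2 h3) (enc_mul (lm4m.enc h1 h2) (enc_norm (enc_sub (l5q0.enc h2 h3) (l4q0.enc h2 h3)))))))))⟩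
noncomputable def rlq0 : Fn3 := ⟨_, _, fun h1 h2 h3 => (enc_case h1 (enc_neg (rxq0.enc (enc_neg h1) h2 h3)) (rxq0.enc h1 h2 h3))⟩
noncomputable def rxq1 : Fn3 := ⟨_, _, fun h1 h2 h3 => (enc_case (enc_sub h1 (cv1m.enc h2)) (enc_add (enc_mul h1 (bx1q1.enc h2 h3)) (enc_mul (enc_norm (enc_sub (enc_pnc _ 1) (lm0m.enc h1 h2))) (enc_norm (enc_sub (l0q1.enc h2 h3) (enc_mul (c1g.enc h2) (bx1q1.enc h2 h3)))))) (enc_case (enc_sub h1 (cv2m.enc h2)) (enc_add (enc_mul h1 (bx2q1.enc h2 h3)) (enc_mul (enc_norm (enc_mul (enc_norm (enc_sub (enc_pnc _ 1) (lm1m.enc h1 h2))) (cv1m.enc h2))) (enc_norm (enc_sub (bx1q1.enc h2 h3) (bx2q1.enc h2 h3))))) (enc_case (enc_sub h1 (cv3m.enc h2)) (enc_add (enc_mul h1 (bx3q1.enc h2 h3)) (enc_mul (enc_norm (enc_mul (enc_norm (enc_sub (enc_pnc _ 1) (lm2m.enc h1 h2))) (cv2m.enc h2))) (enc_norm (enc_sub (bx2q1.enc h2 h3) (bx3q1.enc h2 h3))))) (enc_case (enc_sub h1 (cv4m.enc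 h2)) (enc_add (enc_mul h1 (bx4q1.enc h2 h3)) (enc_mul (enc_norm (enc_mul (enc_norm (enc_sub (enc_pnc _ 1) (lm3m.enc h1 h2))) (cv3m.enc h2))) (enc_norm (enc_sub (bx3q1.enc h2 h3) (bx4q1.enc h2 h3))))) (enc_add (l4q1.enc h2 h3) (enc_mul (lm4m.enc h1 h2) (enc_norm (enc_sub (l5q1.enc h2 h3) (l4q1.enc h2 h3)))))))))⟩
noncomputable def rlq1 : Fn3 := ⟨_, _, fun h1 h2 h3 => (enc_case h1 (enc_neg (rxq1.enc (enc_neg h1) h2 h3)) (rxq1.enc h1 h2 h3))⟩
noncomputable def l0q2_7 : Fn2 := ⟨_, _, fun h1 h2 => (enc_scaleT 3 4 h1)⟩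
noncomputable def l0q2_8 : Fn2 := ⟨_, _, fun h1 h2 => (enc_half (c1g.enc h1))⟩
noncomputable def l0q2 : Fn2 := ⟨_, _, fun h1 h2 => (enc_norm (enc_sub (txg.enc (enc_neg (c1g.enc h1)) (enc_norm (enc_add (l0q2_7.enc h1 h2) (l0q2_8.enc h1 h2))) h2) (txg.enc (c1g.enc h1) (enc_norm (enc_sub (l0q2_7.enc h1 h2) (l0q2_8.enc h1 h2))) h2)))⟩
noncomputable def n0x : Fn2 := ⟨_, _, fun h1 h2 => (enc_norm (enc_subr 2476430229 10000000000 (enc_neg (enc_scaleT 409253 1000000 (enc_subr 38847 40000 h2)))))⟩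
noncomputable def rxq2_51 : Fn3 := ⟨_, _, fun h1 h2 h3 => (enc_mul h1 (bx1q2.enc h2 h3))⟩
noncomputable def rxq2_53 : Fn3 := ⟨_, _, fun h1 h2 h3 => (enc_sub (enc_pnc _ 1) (lm0p.enc h1 h2))⟩
noncomputable def rxq2 : Fn3 := ⟨_, _, fun h1 h2 h3 => (enc_case (enc_sub h1 (cv1p.enc h2)) (enc_case (enc_subr 1149 1000 h2) (enc_add (rxq2_51.enc h1 h2 h3) (enc_mul (enc_norm (rxq2_53.enc h1 h2 h3)) (enc_norm (enc_sub (l0q2.enc h2 h3) (enc_mul (c1g.enc h2) (bx1q2.enc h2 h3)))))) (enc_case (enc_subr 2887 2500 h2) (enc_add (rxq2_51.enc h1 h2 h3) (enc_mul (enc_norm (rxq2_53.enc h1 h2 h3)) (enc_norm (enc_mul (c1g.enc h2) (enc_norm (enc_sub (n0x.enc h2 h3) (bx1q2.enc h2 h3))))))) (rxq2_51.enc h1 h2 h3))) (enc_case (enc_sub h1 (cv2p.enc h2)) (enc_add (enc_mul h1 (bx2q2.enc h2 h3)) (enc_mul (enc_norm (enc_mul (enc_norm (enc_sub (enc_pnc _ 1) (lm1p.enc h1 h2))) (cv1p.enc h2))) (enc_norm (enc_sub (bx1q2.enc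 h2 h3) (bx2q2.enc h2 h3))))) (enc_case (enc_sub h1 (cv3p.enc h2)) (enc_add (enc_mul h1 (bx3q2.enc h2 h3)) (enc_mul (enc_norm (enc_mul (enc_norm (enc_sub (enc_pnc _ 1) (lm2p.enc h1 h2))) (cv2p.enc h2))) (enc_norm (enc_sub (bx2q2.enc h2 h3) (bx3q2.enc h2 h3))))) (enc_case (enc_sub h1 (cv4p.enc h2)) (enc_add (enc_mul h1 (bx4q2.enc h2 h3)) (enc_mul (enc_norm (enc_mul (enc_norm (enc_sub (enc_pnc _ 1) (lm3p.enc h1 h2))) (cv3p.enc h2))) (enc_norm (enc_sub (bx3q2.enc h2 h3) (bx4q2.enc h2 h3))))) (enc_add (l4q2.enc h2 h3) (enc_mul (lm4p.enc h1 h2) (enc_norm (enc_sub (l5q2.enc h2 h3) (l4q2.enc h2 h3)))))))))⟩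
noncomputable def rlq2 : Fn3 := ⟨_, _, fun h1 h2 h3 => (enc_case h1 (enc_neg (rxq2.enc (enc_neg h1) h2 h3)) (rxq2.enc h1 h2 h3))⟩
noncomputable def l4q3_4 : Fn2 := ⟨_, _, fun h1 h2 => (enc_subr 38847 40000 h2)⟩
noncomputable def l4q3 : Fn2 := ⟨_, _, fun h1 h2 => (enc_norm (enc_mul (cv4r.enc h1) (enc_norm (enc_case (enc_subr 987 500 h1) (enc_case (enc_subr 39 20 h1) (enc_case (enc_subr 193 100 h1) (enc_add (enc_subr 512938439 268750000 (enc_scaleT 239967 172000 h1)) (enc_mul (enc_norm (l4q3_4.enc h1 h2)) (enc_norm (enc_subr 42223 26875 (enc_scaleT 155 86 h1))))) (enc_add (enc_subr 381741517 200000000 (enc_scaleT 2790417 2000000 h1)) (enc_mul (enc_norm (l4q3_4.enc h1 h2)) (enc_norm (enc_subr 33069 20000 (enc_scaleT 369 200 h1)))))) (enc_case (enc_subr 3929 2000 h1) (enc_add (enc_subr 5527649629 2900000000 (enc_scaleT 2021103 1450000 h1)) (enc_mul (enc_norm (l4q3_4.enc h1 h2)) (enc_norm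 (enc_subr 493053 290000 (enc_scaleT 271 145 h1))))) (enc_add (enc_subr 1811899711 950000000 (enc_scaleT 66237 47500 h1)) (enc_mul (enc_norm (l4q3_4.enc h1 h2)) (enc_norm (enc_subr 166327 95000 (enc_scaleT 36 19 h1))))))) (enc_case (enc_sub (enc_rat _ 154764337 1000000000) (c3g.enc h1)) (enc_case (enc_subr 1015 512 h1) (enc_add (enc_subr 667121611 350000000 (enc_scaleT 213434 153125 h1)) (enc_mul (enc_norm (l4q3_4.enc h1 h2)) (enc_norm (enc_subr 668897 385000 (enc_scaleT 5088 2695 h1))))) (enc_add (enc_add (enc_scaleT 5693760 74370191 (c3g.enc h1)) (enc_rat _ 892021375601373 1062431300000000)) (enc_mul (enc_norm (l4q3_4.enc h1 h2)) (enc_norm (enc_sub (enc_rat _ 57408028523 15177590000) (enc_scaleT 82400000 10624313 (c3g.enc h1))))))) (enc_case (enc_sub (enc_rat _ 105307799 1000000000) (c3g.enc h1)) (enc_add (enc_add (enc_scaleT 1082650 24728269 (c3g.enc h1)) (enc_rat _ 261092394913969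 309103362500000)) (enc_mul (enc_norm (l4q3_4.enc h1 h2)) (enc_norm (enc_sub (enc_rat _ 58236690779 15455168125) (enc_scaleT 189500000 24728269 (c3g.enc h1)))))) (enc_case (enc_sub (enc_rat _ 54765409 1000000000) (c3g.enc h1)) (enc_add (enc_sub (enc_rat _ 4305871571307 5054239000000) (enc_scaleT 126970 5054239 (c3g.enc h1))) (enc_mul (enc_norm (l4q3_4.enc h1 h2)) (enc_norm (enc_sub (enc_rat _ 173776557 50542390) (enc_scaleT 22900000 5054239 (c3g.enc h1)))))) (enc_add (enc_sub (enc_rat _ 12759566053 15000000000) (enc_scaleT 1212103 821481135 (c3g.enc h1))) (enc_mul (enc_norm (l4q3_4.enc h1 h2)) (enc_norm (enc_sub (enc_rat _ 5146421 1500000) (enc_scaleT 722542000 164296227 (c3g.enc h1)))))))))))))⟩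
noncomputable def l5q3_7 : Fn2 := ⟨_, _, fun h1 h2 => (enc_half (c3g.enc h1))⟩
noncomputable def l5q3_8 : Fn2 := ⟨_, _, fun h1 h2 => (enc_scaleT 1 4 h1)⟩
noncomputable def l5q3_9 : Fn2 := ⟨_, _, fun h1 h2 => (enc_sub (l5q3_7.enc h1 h2) (l5q3_8.enc h1 h2))⟩
noncomputable def l5q3_12 : Fn2 := ⟨_, _, fun h1 h2 => (enc_add (enc_scaleT 1 4 (c3g.enc h1)) (enc_scaleT 3 8 h1))⟩
noncomputable def l5q3_14 : Fn2 := ⟨_, _, fun h1 h2 => (enc_half (l5q3_9.enc h1 h2))⟩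
noncomputable def l5q3 : Fn2 := ⟨_, _, fun h1 h2 => (enc_norm (enc_sub (enc_nat 2 (txg.enc (enc_norm (enc_sub (l5q3_8.enc h1 h2) (l5q3_7.enc h1 h2))) (enc_norm (enc_add (l5q3_12.enc h1 h2) (l5q3_14.enc h1 h2))) h2)) (txg.enc (enc_norm (l5q3_9.enc h1 h2)) (enc_norm (enc_sub (l5q3_12.enc h1 h2) (l5q3_14.enc h1 h2))) h2)))⟩
noncomputable def bx4q3_3 : Fn2 := ⟨_, _, fun h1 h2 => (enc_subr 38847 40000 h2)⟩
noncomputable def bx4q3 : Fn2 := ⟨_, _, fun h1 h2 => (enc_norm (enc_case (enc_subr 987 500 h1) (enc_case (enc_subr 39 20 h1) (enc_case (enc_subr 193 100 h1) (enc_add (enc_subr 512938439 268750000 (enc_scaleT 239967 172000 h1)) (enc_mul (enc_norm (bx4q3_3.enc h1 h2)) (enc_norm (enc_subr 42223 26875 (enc_scaleT 155 86 h1))))) (enc_add (enc_subr 381741517 200000000 (enc_scaleT 2790417 2000000 h1)) (enc_mul (enc_norm (bx4q3_3.enc h1 h2)) (enc_norm (enc_subr 33069 20000 (enc_scaleT 369 200 h1))))))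 (enc_case (enc_subr 3929 2000 h1) (enc_add (enc_subr 5527649629 2900000000 (enc_scaleT 2021103 1450000 h1)) (enc_mul (enc_norm (bx4q3_3.enc h1 h2)) (enc_norm (enc_subr 493053 290000 (enc_scaleT 271 145 h1))))) (enc_add (enc_subr 1811899711 950000000 (enc_scaleT 66237 47500 h1)) (enc_mul (enc_norm (bx4q3_3.enc h1 h2)) (enc_norm (enc_subr 166327 95000 (enc_scaleT 36 19 h1))))))) (enc_case (enc_sub (enc_rat _ 154764337 1000000000) (c3g.enc h1)) (enc_case (enc_subr 1015 512 h1) (enc_add (enc_subr 667121611 350000000 (enc_scaleT 213434 153125 h1)) (enc_mul (enc_norm (bx4q3_3.enc h1 h2)) (enc_norm (enc_subr 668897 385000 (enc_scaleT 5088 2695 h1))))) (enc_add (enc_add (enc_scaleT 5693760 74370191 (c3g.enc h1)) (enc_rat _ 892021375601373 1062431300000000)) (enc_mul (enc_norm (bx4q3_3.enc h1 h2)) (enc_norm (enc_sub (enc_rat _ 57408028523 15177590000) (enc_scaleT 82400000 10624313 (c3g.enc h1)))))))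 (enc_case (enc_sub (enc_rat _ 105307799 1000000000) (c3g.enc h1)) (enc_add (enc_add (enc_scaleT 1082650 24728269 (c3g.enc h1)) (enc_rat _ 261092394913969 309103362500000)) (enc_mul (enc_norm (bx4q3_3.enc h1 h2)) (enc_norm (enc_sub (enc_rat _ 58236690779 15455168125) (enc_scaleT 189500000 24728269 (c3g.enc h1)))))) (enc_case (enc_sub (enc_rat _ 54765409 1000000000) (c3g.enc h1)) (enc_add (enc_sub (enc_rat _ 4305871571307 5054239000000) (enc_scaleT 126970 5054239 (c3g.enc h1))) (enc_mul (enc_norm (bx4q3_3.enc h1 h2)) (enc_norm (enc_sub (enc_rat _ 173776557 50542390) (enc_scaleT 22900000 5054239 (c3g.enc h1)))))) (enc_add (enc_sub (enc_rat _ 12759566053 15000000000) (enc_scaleT 1212103 821481135 (c3g.enc h1))) (enc_mul (enc_norm (bx4q3_3.enc h1 h2)) (enc_norm (enc_sub (enc_rat _ 5146421 1500000) (enc_scaleT 722542000 164296227 (c3g.enc h1)))))))))))⟩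
noncomputable def l3q3_4 : Fn2 := ⟨_, _, fun h1 h2 => (enc_subr 38847 40000 h2)⟩
noncomputable def l3q3_6 : Fn2 := ⟨_, _, fun h1 h2 => (enc_subr 193 100 h1)⟩
noncomputable def l3q3_18 : Fn2 := ⟨_, _, fun h1 h2 => (enc_subr 39 20 h1)⟩
noncomputable def l3q3_43 : Fn2 := ⟨_, _, fun h1 h2 => (enc_sq (enc_norm (l3q3_4.enc h1 h2)))⟩
noncomputable def l3q3_51 : Fn2 := ⟨_, _, fun h1 h2 => (enc_sub (enc_rat _ 105307799 1000000000) (c3g.enc h1))⟩
noncomputable def l3q3_53 : Fn2 := ⟨_, _, fun h1 h2 => (enc_sub (enc_rat _ 154764337 1000000000) (c3g.enc h1))⟩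
noncomputable def l3q3_80 : Fn2 := ⟨_, _, fun h1 h2 => (enc_sub (enc_rat _ 54765409 1000000000) (c3g.enc h1))⟩
noncomputable def l3q3_102 : Fn2 := ⟨_, _, fun h1 h2 => (enc_subn 1 h1)⟩
noncomputable def l3q3_140 : Fn2 := ⟨_, _, fun h1 h2 => (enc_subr 3929 2000 h1)⟩
noncomputable def l3q3_164 : Fn2 := ⟨_, _, fun h1 h2 => (enc_subr 1015 512 h1)⟩
noncomputable def l3q3_216 : Fn2 := ⟨_, _, fun h1 h2 => (enc_mul (cv2r.enc h1) (enc_norm (enc_case (enc_subr 987 500 h1) (enc_case (l3q3_18.enc h1 h2) (enc_case (l3q3_6.enc h1 h2) (enc_add (enc_subr 7120970893 4300000000 (enc_scaleT 14207861 10750000 h1)) (enc_mul (enc_norm (l3q3_4.enc h1 h2)) (enc_norm (enc_subr 273301 430000 (enc_scaleT 627 1075 h1))))) (enc_add (enc_subr 68705969 40000000 (enc_scaleT 2707167 2000000 h1)) (enc_mul (enc_norm (l3q3_4.enc h1 h2)) (enc_norm (enc_subr 2633 4000 (enc_scaleT 119 200 h1)))))) (enc_case (l3q3_140.enc h1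 h2) (enc_add (enc_subr 8073739 4531250 (enc_scaleT 2010391 1450000 h1)) (enc_mul (enc_norm (l3q3_4.enc h1 h2)) (enc_norm (enc_subr 167 250 (enc_scaleT 3 5 h1))))) (enc_add (enc_subr 3508935057 1900000000 (enc_scaleT 674297 475000 h1)) (enc_mul (enc_norm (l3q3_4.enc h1 h2)) (enc_norm (enc_subr 130849 190000 (enc_scaleT 58 95 h1))))))) (enc_case (l3q3_53.enc h1 h2) (enc_case (l3q3_164.enc h1 h2) (enc_add (enc_subr 14312279463 7700000000 (enc_scaleT 2401272 1684375 h1)) (enc_mul (enc_norm (l3q3_4.enc h1 h2)) (enc_norm (enc_subr 540791 770000 (enc_scaleT 1664 2695 h1))))) (enc_add (enc_sub (enc_rat _ 1027953056612721 1062431300000000) (enc_scaleT 36670 74370191 (c3g.enc h1))) (enc_mul (enc_norm (l3q3_4.enc h1 h2)) (enc_norm (enc_sub (enc_rat _ 75689079897 106243130000) (enc_scaleT 61900000 74370191 (c3g.enc h1))))))) (enc_case (l3q3_51.enc h1 h2) (enc_add (enc_add (enc_scaleT 79370 24728269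 (c3g.enc h1)) (enc_rat _ 2391161136184043 2472826900000000)) (enc_mul (enc_norm (l3q3_4.enc h1 h2)) (enc_norm (enc_add (enc_scaleT 50900000 24728269 (c3g.enc h1)) (enc_rat _ 65539130351 247282690000))))) (enc_case (l3q3_80.enc h1 h2) (enc_add (enc_sub (enc_rat _ 2453118850954127 2527119500000000) (enc_scaleT 163406 5054239 (c3g.enc h1))) (enc_mul (enc_norm (l3q3_4.enc h1 h2)) (enc_norm (enc_add (enc_scaleT 10580000 5054239 (c3g.enc h1)) (enc_rat _ 66048791839 252711950000))))) (enc_add (enc_sub (enc_rat _ 12147711 12500000) (enc_scaleT 2870080 54765409 (c3g.enc h1))) (enc_mul (enc_norm (l3q3_4.enc h1 h2)) (enc_norm (enc_add (enc_scaleT 114400000 54765409 (c3g.enc h1)) (enc_rat _ 327 1250)))))))))))⟩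
noncomputable def l3q3 : Fn2 := ⟨_, _, fun h1 h2 => (enc_norm (enc_case (l3q3_140.enc h1 h2) (enc_mul (cv3r.enc h1) (enc_norm (enc_case (l3q3_6.enc h1 h2) (enc_add (enc_subr 1048508403 1075000000 (enc_scaleT 41070857 43000000 h1)) (enc_mul (enc_norm (l3q3_4.enc h1 h2)) (enc_norm (enc_sub (enc_rat _ 256129 107500) (enc_scaleT 5551 4300 h1))))) (enc_case (l3q3_18.enc h1 h2) (enc_add (enc_subr 195172961 200000000 (enc_scaleT 1910799 2000000 h1)) (enc_mul (enc_norm (l3q3_4.enc h1 h2)) (enc_norm (enc_sub (enc_rat _ 47423 20000) (enc_scaleT 257 200 h1))))) (enc_add (enc_add (enc_subr 1166749789 1450000000 (enc_scaleT 15725243 18125000 h1)) (enc_mul (enc_norm (l3q3_4.enc h1 h2)) (enc_norm (enc_subr 6968999083 29000000 (enc_scaleT 178592197 1450000 h1))))) (enc_mul (l3q3_43.enc h1 h2) (enc_norm (enc_subr 6023901 145000 (enc_scaleT 154459 7250 h1))))))))) (enc_case (l3q3_164.enc h1 h2) (enc_add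 (l3q3_216.enc h1 h2) (enc_mul (enc_norm (enc_mul (enc_norm (enc_sub (enc_sub (qsg.enc (enc_norm (l3q3_102.enc h1 h2))) (enc_mul (enc_norm (enc_nat 2 (enc_sub (l3q3_102.enc h1 h2) h2))) (enc_norm (enc_mul (esg.enc (enc_norm (l3q3_102.enc h1 h2))) (kcg.enc (enc_norm (enc_sub (enc_scaleT 3 4 (l3q3_102.enc h1 h2)) (enc_half (gsg.enc (enc_norm (l3q3_102.enc h1 h2)))))) h2))))) (l3q3_216.enc h1 h2))) (enc_norm (enc_sub (cv3r.enc h1) (cv2r.enc h1))))) (enc_inv (enc_sub (enc_subr 1 2 (swg.enc h1)) (cv2r.enc h1))))) (enc_mul (cv3r.enc h1) (enc_norm (enc_case (l3q3_51.enc h1 h2) (enc_case (l3q3_53.enc h1 h2) (enc_add (enc_add (enc_sub (enc_rat _ 9788952891447847 10624313000000000) (enc_scaleT 2376607 74370191 (c3g.enc h1))) (enc_mul (enc_norm (l3q3_4.enc h1 h2)) (enc_norm (enc_sub (enc_rat _ 34068732002346511 5312156500000000) (enc_scaleT 1356777042 74370191 (c3g.enc h1)))))) (enc_mul (l3q3_43.enc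 h1 h2) (enc_norm (enc_sub (enc_rat _ 1746692416573 1062431300000) (enc_scaleT 790030000 74370191 (c3g.enc h1)))))) (enc_add (enc_add (enc_scaleT 4926015 24728269 (c3g.enc h1)) (enc_rat _ 875971346412591 989130760000000)) (enc_mul (enc_norm (l3q3_4.enc h1 h2)) (enc_norm (enc_add (enc_scaleT 48550000 24728269 (c3g.enc h1)) (enc_rat _ 325032817287 98913076000)))))) (enc_case (l3q3_80.enc h1 h2) (enc_add (enc_add (enc_scaleT 794098 5054239 (c3g.enc h1)) (enc_rat _ 2249211105512129 2527119500000000)) (enc_mul (enc_norm (l3q3_4.enc h1 h2)) (enc_norm (enc_add (enc_scaleT 9860000 5054239 (c3g.enc h1)) (enc_rat _ 830755554053 252711950000))))) (enc_add (enc_add (enc_scaleT 719944847 821481135 (c3g.enc h1)) (enc_rat _ 12759566053 15000000000)) (enc_mul (enc_norm (l3q3_4.enc h1 h2)) (enc_norm (enc_sub (enc_rat _ 5146421 1500000) (enc_scaleT 110242000 164296227 (c3g.enc h1)))))))))))))⟩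
noncomputable def bx3q3_3 : Fn2 := ⟨_, _, fun h1 h2 => (enc_subr 38847 40000 h2)⟩
noncomputable def bx3q3_42 : Fn2 := ⟨_, _, fun h1 h2 => (enc_sq (enc_norm (bx3q3_3.enc h1 h2)))⟩
noncomputable def bx3q3 : Fn2 := ⟨_, _, fun h1 h2 => (enc_norm (enc_case (enc_subr 252603 128000 h1) (enc_case (enc_subr 193 100 h1) (enc_add (enc_subr 1048508403 1075000000 (enc_scaleT 41070857 43000000 h1)) (enc_mul (enc_norm (bx3q3_3.enc h1 h2)) (enc_norm (enc_sub (enc_rat _ 256129 107500) (enc_scaleT 5551 4300 h1))))) (enc_case (enc_subr 39 20 h1) (enc_add (enc_subr 195172961 200000000 (enc_scaleT 1910799 2000000 h1)) (enc_mul (enc_norm (bx3q3_3.enc h1 h2)) (enc_norm (enc_sub (enc_rat _ 47423 20000) (enc_scaleT 257 200 h1))))) (enc_add (enc_add (enc_subr 1166749789 1450000000 (enc_scaleT 15725243 18125000 h1)) (enc_mul (enc_norm (bx3q3_3.enc h1 h2)) (enc_norm (enc_subr 6968999083 29000000 (enc_scaleT 178592197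 1450000 h1))))) (enc_mul (bx3q3_42.enc h1 h2) (enc_norm (enc_subr 6023901 145000 (enc_scaleT 154459 7250 h1))))))) (enc_case (enc_sub (enc_rat _ 105307799 1000000000) (c3g.enc h1)) (enc_case (enc_sub (enc_rat _ 154764337 1000000000) (c3g.enc h1)) (enc_add (enc_add (enc_sub (enc_rat _ 9788952891447847 10624313000000000) (enc_scaleT 2376607 74370191 (c3g.enc h1))) (enc_mul (enc_norm (bx3q3_3.enc h1 h2)) (enc_norm (enc_sub (enc_rat _ 34068732002346511 5312156500000000) (enc_scaleT 1356777042 74370191 (c3g.enc h1)))))) (enc_mul (bx3q3_42.enc h1 h2) (enc_norm (enc_sub (enc_rat _ 1746692416573 1062431300000) (enc_scaleT 790030000 74370191 (c3g.enc h1)))))) (enc_add (enc_add (enc_scaleT 4926015 24728269 (c3g.enc h1)) (enc_rat _ 875971346412591 989130760000000)) (enc_mul (enc_norm (bx3q3_3.enc h1 h2)) (enc_norm (enc_add (enc_scaleT 48550000 24728269 (c3g.enc h1)) (enc_rat _ 325032817287 98913076000))))))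 (enc_case (enc_sub (enc_rat _ 54765409 1000000000) (c3g.enc h1)) (enc_add (enc_add (enc_scaleT 794098 5054239 (c3g.enc h1)) (enc_rat _ 2249211105512129 2527119500000000)) (enc_mul (enc_norm (bx3q3_3.enc h1 h2)) (enc_norm (enc_add (enc_scaleT 9860000 5054239 (c3g.enc h1)) (enc_rat _ 830755554053 252711950000))))) (enc_add (enc_add (enc_scaleT 719944847 821481135 (c3g.enc h1)) (enc_rat _ 12759566053 15000000000)) (enc_mul (enc_norm (bx3q3_3.enc h1 h2)) (enc_norm (enc_sub (enc_rat _ 5146421 1500000) (enc_scaleT 110242000 164296227 (c3g.enc h1))))))))))⟩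
noncomputable def bx2q3_3 : Fn2 := ⟨_, _, fun h1 h2 => (enc_subr 38847 40000 h2)⟩
noncomputable def bx2q3 : Fn2 := ⟨_, _, fun h1 h2 => (enc_norm (enc_case (enc_subr 987 500 h1) (enc_case (enc_subr 39 20 h1) (enc_case (enc_subr 193 100 h1) (enc_add (enc_subr 7120970893 4300000000 (enc_scaleT 14207861 10750000 h1)) (enc_mul (enc_norm (bx2q3_3.enc h1 h2)) (enc_norm (enc_subr 273301 430000 (enc_scaleT 627 1075 h1))))) (enc_add (enc_subr 68705969 40000000 (enc_scaleT 2707167 2000000 h1)) (enc_mul (enc_norm (bx2q3_3.enc h1 h2)) (enc_norm (enc_subr 2633 4000 (enc_scaleT 119 200 h1)))))) (enc_case (enc_subr 3929 2000 h1) (enc_add (enc_subr 8073739 4531250 (enc_scaleT 2010391 1450000 h1)) (enc_mul (enc_norm (bx2q3_3.enc h1 h2)) (enc_norm (enc_subr 167 250 (enc_scaleT 3 5 h1))))) (enc_add (enc_subr 3508935057 1900000000 (enc_scaleT 674297 475000 h1)) (enc_mul (enc_norm (bx2q3_3.enc h1 h2)) (enc_norm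 (enc_subr 130849 190000 (enc_scaleT 58 95 h1))))))) (enc_case (enc_sub (enc_rat _ 154764337 1000000000) (c3g.enc h1)) (enc_case (enc_subr 1015 512 h1) (enc_add (enc_subr 14312279463 7700000000 (enc_scaleT 2401272 1684375 h1)) (enc_mul (enc_norm (bx2q3_3.enc h1 h2)) (enc_norm (enc_subr 540791 770000 (enc_scaleT 1664 2695 h1))))) (enc_add (enc_sub (enc_rat _ 1027953056612721 1062431300000000) (enc_scaleT 36670 74370191 (c3g.enc h1))) (enc_mul (enc_norm (bx2q3_3.enc h1 h2)) (enc_norm (enc_sub (enc_rat _ 75689079897 106243130000) (enc_scaleT 61900000 74370191 (c3g.enc h1))))))) (enc_case (enc_sub (enc_rat _ 105307799 1000000000) (c3g.enc h1)) (enc_add (enc_add (enc_scaleT 79370 24728269 (c3g.enc h1)) (enc_rat _ 2391161136184043 2472826900000000)) (enc_mul (enc_norm (bx2q3_3.enc h1 h2)) (enc_norm (enc_add (enc_scaleT 50900000 24728269 (c3g.enc h1)) (enc_rat _ 65539130351 247282690000)))))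 (enc_case (enc_sub (enc_rat _ 54765409 1000000000) (c3g.enc h1)) (enc_add (enc_sub (enc_rat _ 2453118850954127 2527119500000000) (enc_scaleT 163406 5054239 (c3g.enc h1))) (enc_mul (enc_norm (bx2q3_3.enc h1 h2)) (enc_norm (enc_add (enc_scaleT 10580000 5054239 (c3g.enc h1)) (enc_rat _ 66048791839 252711950000))))) (enc_add (enc_sub (enc_rat _ 12147711 12500000) (enc_scaleT 2870080 54765409 (c3g.enc h1))) (enc_mul (enc_norm (bx2q3_3.enc h1 h2)) (enc_norm (enc_add (enc_scaleT 114400000 54765409 (c3g.enc h1)) (enc_rat _ 327 1250))))))))))⟩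
noncomputable def bx1q3_3 : Fn2 := ⟨_, _, fun h1 h2 => (enc_subr 38847 40000 h2)⟩
noncomputable def bx1q3 : Fn2 := ⟨_, _, fun h1 h2 => (enc_norm (enc_case (enc_subr 987 500 h1) (enc_case (enc_subr 39 20 h1) (enc_case (enc_subr 193 100 h1) (enc_add (enc_subr 47191467 26875000 (enc_scaleT 7017081 5375000 h1)) (enc_mul (enc_norm (bx1q3_3.enc h1 h2)) (enc_norm (enc_subr 5713 5375 (enc_scaleT 584 1075 h1))))) (enc_add (enc_subr 175617687 100000000 (enc_scaleT 261123 200000 h1)) (enc_mul (enc_norm (bx1q3_3.enc h1 h2)) (enc_norm (enc_subr 10759 10000 (enc_scaleT 11 20 h1)))))) (enc_case (enc_subr 3929 2000 h1) (enc_add (enc_subr 2547051699 1450000000 (enc_scaleT 1893447 1450000 h1)) (enc_mul (enc_norm (bx1q3_3.enc h1 h2)) (enc_norm (enc_subr 154543 145000 (enc_scaleT 79 145 h1))))) (enc_add (enc_subr 1666979663 950000000 (enc_scaleT 1239629 950000 h1)) (enc_mul (enc_norm (bx1q3_3.enc h1 h2))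 (enc_norm (enc_subr 103691 95000 (enc_scaleT 53 95 h1))))))) (enc_case (enc_sub (enc_rat _ 154764337 1000000000) (c3g.enc h1)) (enc_case (enc_subr 1015 512 h1) (enc_add (enc_subr 6762247183 3850000000 (enc_scaleT 2199356 1684375 h1)) (enc_mul (enc_norm (bx1q3_3.enc h1 h2)) (enc_norm (enc_subr 411331 385000 (enc_scaleT 1472 2695 h1))))) (enc_add (enc_sub (enc_rat _ 114309283495929 132803912500000) (enc_scaleT 9294840 74370191 (c3g.enc h1))) (enc_mul (enc_norm (bx1q3_3.enc h1 h2)) (enc_norm (enc_subr 338100111 6640195625 (enc_scaleT 21200000 74370191 (c3g.enc h1))))))) (enc_case (enc_sub (enc_rat _ 105307799 1000000000) (c3g.enc h1)) (enc_add (enc_sub (enc_rat _ 1064183423184087 1236413450000000) (enc_scaleT 3084900 24728269 (c3g.enc h1))) (enc_mul (enc_norm (bx1q3_3.enc h1 h2)) (enc_norm (enc_subr 6257512941 123641345000 (enc_scaleT 7000000 24728269 (c3g.enc h1)))))) (enc_case (enc_sub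 (enc_rat _ 54765409 1000000000) (c3g.enc h1)) (enc_add (enc_sub (enc_rat _ 174009786198233 202169560000000) (enc_scaleT 631015 5054239 (c3g.enc h1))) (enc_mul (enc_norm (bx1q3_3.enc h1 h2)) (enc_norm (enc_subr 1031297919 20216956000 (enc_scaleT 1450000 5054239 (c3g.enc h1)))))) (enc_add (enc_sub (enc_rat _ 86071563 100000000) (enc_scaleT 6840920 54765409 (c3g.enc h1))) (enc_mul (enc_norm (bx1q3_3.enc h1 h2)) (enc_norm (enc_subr 509 10000 (enc_scaleT 15600000 54765409 (c3g.enc h1)))))))))))⟩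
noncomputable def rxq3_36 : Fn3 := ⟨_, _, fun h1 h2 h3 => (enc_add (enc_mul h1 (bx3q3.enc h2 h3)) (enc_mul (enc_norm (enc_mul (enc_norm (enc_sub (enc_pnc _ 1) (lm2r.enc h1 h2))) (cv2r.enc h2))) (enc_norm (enc_sub (bx2q3.enc h2 h3) (bx3q3.enc h2 h3)))))⟩
noncomputable def rxq3_37 : Fn3 := ⟨_, _, fun h1 h2 h3 => (enc_subn 1 h2)⟩
noncomputable def rxq3_49 : Fn3 := ⟨_, _, fun h1 h2 h3 => (enc_sub (qsg.enc (enc_norm (rxq3_37.enc h1 h2 h3))) (enc_mul (enc_norm (enc_nat 2 (enc_sub (rxq3_37.enc h1 h2 h3) h3))) (enc_norm (enc_mul (esg.enc (enc_norm (rxq3_37.enc h1 h2 h3))) (kcg.enc (enc_norm (enc_sub (enc_scaleT 3 4 (rxq3_37.enc h1 h2 h3)) (enc_half (gsg.enc (enc_norm (rxq3_37.enc h1 h2 h3)))))) h3)))))⟩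
noncomputable def rxq3_54 : Fn3 := ⟨_, _, fun h1 h2 h3 => (enc_subr 1 2 (swg.enc h2))⟩
noncomputable def rxq3_55 : Fn3 := ⟨_, _, fun h1 h2 h3 => (enc_sub h1 (cv2r.enc h2))⟩
noncomputable def rxq3 : Fn3 := ⟨_, _, fun h1 h2 h3 => (enc_case (enc_sub h1 (cv1r.enc h2)) (enc_mul h1 (bx1q3.enc h2 h3)) (enc_case (rxq3_55.enc h1 h2 h3) (enc_add (enc_mul h1 (bx2q3.enc h2 h3)) (enc_mul (enc_norm (enc_mul (enc_norm (enc_sub (enc_pnc _ 1) (lm1r.enc h1 h2))) (cv1r.enc h2))) (enc_norm (enc_sub (bx1q3.enc h2 h3) (bx2q3.enc h2 h3))))) (enc_case (enc_sub h1 (cv3r.enc h2)) (enc_case (enc_subr 3929 2000 h2) (rxq3_36.enc h1 h2 h3) (enc_case (enc_subr 1015 512 h2) (enc_wL (enc_add (l2q3.enc h2 h3) (enc_mul (enc_norm (enc_mul (enc_norm (rxq3_55.enc h1 h2 h3)) (enc_inv (enc_sub (rxq3_54.enc h1 h2 h3) (cv2r.enc h2))))) (enc_norm (enc_sub (rxq3_49.enc h1 h2 h3) (l2q3.enc h2 h3))))) h1 (rxq3_54.enc h1 h2 h3) (cv2r.enc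 h2) (rxq3_49.enc h1 h2 h3) (l2q3.enc h2 h3) rfl) (rxq3_36.enc h1 h2 h3))) (enc_case (enc_sub h1 (cv4r.enc h2)) (enc_add (enc_mul h1 (bx4q3.enc h2 h3)) (enc_mul (enc_norm (enc_sub (enc_pnc _ 1) (lm3r.enc h1 h2))) (enc_norm (enc_sub (l3q3.enc h2 h3) (enc_mul (cv3r.enc h2) (bx4q3.enc h2 h3)))))) (enc_add (l4q3.enc h2 h3) (enc_mul (lm4r.enc h1 h2) (enc_norm (enc_sub (l5q3.enc h2 h3) (l4q3.enc h2 h3)))))))))⟩
noncomputable def rlq3 : Fn3 := ⟨_, _, fun h1 h2 h3 => (enc_case h1 (enc_neg (rxq3.enc (enc_neg h1) h2 h3)) (rxq3.enc h1 h2 h3))⟩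
noncomputable def bd3q0_3 : Fn2 := ⟨_, _, fun h1 h2 => (enc_subr 38847 40000 h2)⟩
noncomputable def bd3q0 : Fn2 := ⟨_, _, fun h1 h2 => (enc_norm (enc_case (enc_subr 3397 128000 h1) (enc_case (enc_subr 1 100 h1) (enc_add (enc_subr 2692041 10000000 (enc_neg (enc_scaleT 1542821 20000 h1))) (enc_mul (enc_norm (bd3q0_3.enc h1 h2)) (enc_norm (enc_sub (enc_rat _ 863 1000) (enc_scaleT 397 2 h1))))) (enc_add (enc_subr 16312375309 60625000000 (enc_neg (enc_scaleT 2923430301 37890625 h1))) (enc_mul (enc_norm (bd3q0_3.enc h1 h2)) (enc_norm (enc_sub (enc_rat _ 653593891 757812500) (enc_scaleT 1503859516 7578125 h1)))))) (enc_add (enc_subr 1498844297 929000000 (enc_scaleT 3747791161 2322500000 h1)) (enc_mul (enc_norm (bd3q0_3.enc h1 h2)) (enc_norm (enc_sub (enc_rat _ 66828503 23225000) (enc_scaleT 38586903 11612500 h1)))))))⟩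
noncomputable def rcq0_36 : Fn3 := ⟨_, _, fun h1 h2 h3 => (enc_add (enc_mul h1 (bd3q0.enc h2 h3)) (enc_mul (enc_norm (enc_mul (enc_norm (enc_sub (enc_pnc _ 1) (lm2m.enc h1 h2))) (cv2m.enc h2))) (enc_norm (enc_sub (bd2q0.enc h2 h3) (bd3q0.enc h2 h3)))))⟩
noncomputable def rcq0_38 : Fn3 := ⟨_, _, fun h1 h2 h3 => (enc_sub (enc_pnc _ 1) h2)⟩
noncomputable def rcq0_39 : Fn3 := ⟨_, _, fun h1 h2 h3 => (gsg.enc (enc_norm (rcq0_38.enc h1 h2 h3)))⟩
noncomputable def rcq0_43 : Fn3 := ⟨_, _, fun h1 h2 h3 => (esg.enc (enc_norm (rcq0_38.enc h1 h2 h3)))⟩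
noncomputable def rcq0_47 : Fn3 := ⟨_, _, fun h1 h2 h3 => (gug.enc (enc_norm (rcq0_38.enc h1 h2 h3)))⟩
noncomputable def rcq0_49 : Fn3 := ⟨_, _, fun h1 h2 h3 => (enc_mul (enc_norm (rcq0_38.enc h1 h2 h3)) (enc_inv (rcq0_39.enc h1 h2 h3)))⟩
noncomputable def rcq0_50 : Fn3 := ⟨_, _, fun h1 h2 h3 => (enc_scaleT 3 4 (rcq0_49.enc h1 h2 h3))⟩
noncomputable def rcq0_77 : Fn3 := ⟨_, _, fun h1 h2 h3 => (enc_add (enc_sub (enc_neg (enc_add (enc_add (enc_rat _ 3 4) (enc_scaleT 3 2 (rcq0_38.enc h1 h2 h3))) (enc_scaleT 3 4 (enc_mul (enc_norm (rcq0_49.enc h1 h2 h3)) (rcq0_47.enc h1 h2 h3))))) (enc_wT (enc_mul (enc_norm (enc_sub (enc_mul (enc_norm (enc_mul (enc_norm (rcq0_50.enc h1 h2 h3)) (enc_norm (enc_subn 3 (enc_nat 4 (rcq0_39.enc h1 h2 h3)))))) (rcq0_43.enc h1 h2 h3)) (enc_mul (qsg.enc (enc_norm (rcq0_38.enc h1 h2 h3))) (enc_norm (enc_sub (enc_rat _ 1 2) (rcq0_50.enc h1 h2 h3)))))) (enc_inv (enc_mul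 (enc_nat 2 (rcq0_43.enc h1 h2 h3)) (rcq0_43.enc h1 h2 h3)))) (rcq0_38.enc h1 h2 h3) (rcq0_39.enc h1 h2 h3) (rcq0_43.enc h1 h2 h3) rfl rfl rfl rfl)) (enc_mul (kcg.enc (enc_norm (enc_sub (enc_scaleT 3 4 (rcq0_38.enc h1 h2 h3)) (enc_half (rcq0_39.enc h1 h2 h3)))) h3) (enc_norm (enc_add (enc_pnc _ 1) (enc_add (rcq0_47.enc h1 h2 h3) (enc_nat 2 (rcq0_39.enc h1 h2 h3)))))))⟩
noncomputable def rcq0_80 : Fn3 := ⟨_, _, fun h1 h2 h3 => (enc_add (swg.enc h2) (enc_rat _ 1 2))⟩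
noncomputable def rcq0_81 : Fn3 := ⟨_, _, fun h1 h2 h3 => (enc_sub h1 (cv2m.enc h2))⟩
noncomputable def rcq0 : Fn3 := ⟨_, _, fun h1 h2 h3 => (enc_case (enc_sub h1 (cv1m.enc h2)) (enc_add (enc_mul h1 (bd1q0.enc h2 h3)) (enc_mul (enc_norm (enc_sub (enc_pnc _ 1) (lm0m.enc h1 h2))) (enc_norm (enc_sub (kc0q0.enc h2 h3) (enc_mul (c1g.enc h2) (bd1q0.enc h2 h3)))))) (enc_case (rcq0_81.enc h1 h2 h3) (enc_add (enc_mul h1 (bd2q0.enc h2 h3)) (enc_mul (enc_norm (enc_mul (enc_norm (enc_sub (enc_pnc _ 1) (lm1m.enc h1 h2))) (cv1m.enc h2))) (enc_norm (enc_sub (bd1q0.enc h2 h3) (bd2q0.enc h2 h3))))) (enc_case (enc_sub h1 (cv3m.enc h2)) (enc_case (enc_subr 9 512 h2) (rcq0_36.enc h1 h2 h3) (enc_case (enc_subr 71 2000 h2) (enc_wL (enc_add (kc2q0.enc h2 h3) (enc_mul (enc_norm (enc_mul (enc_norm (rcq0_81.enc h1 h2 h3)) (enc_inv (enc_sub (rcq0_80.enc h1 h2 h3) (cv2m.enc h2))))) (enc_norm (enc_sub (rcq0_77.enc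 h1 h2 h3) (kc2q0.enc h2 h3))))) h1 (rcq0_80.enc h1 h2 h3) (cv2m.enc h2) (rcq0_77.enc h1 h2 h3) (kc2q0.enc h2 h3) rfl) (rcq0_36.enc h1 h2 h3))) (enc_case (enc_sub h1 (cv4m.enc h2)) (enc_add (enc_mul h1 (bd4q0.enc h2 h3)) (enc_mul (enc_norm (enc_sub (enc_pnc _ 1) (lm3m.enc h1 h2))) (enc_norm (enc_sub (kc3q0.enc h2 h3) (enc_mul (cv3m.enc h2) (bd4q0.enc h2 h3)))))) (enc_add (kc4q0.enc h2 h3) (enc_mul (lm4m.enc h1 h2) (enc_norm (enc_sub (kc5q0.enc h2 h3) (kc4q0.enc h2 h3)))))))))⟩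
noncomputable def pd0 : Fn3 := ⟨_, _, fun h1 h2 h3 => (enc_case h1 (enc_neg (rcq0.enc (enc_neg h1) h2 h3)) (rcq0.enc h1 h2 h3))⟩
noncomputable def rcq1 : Fn3 := ⟨_, _, fun h1 h2 h3 => (enc_case (enc_sub h1 (cv1m.enc h2)) (enc_add (enc_mul h1 (bd1q1.enc h2 h3)) (enc_mul (enc_norm (enc_sub (enc_pnc _ 1) (lm0m.enc h1 h2))) (enc_norm (enc_sub (kc0q1.enc h2 h3) (enc_mul (c1g.enc h2) (bd1q1.enc h2 h3)))))) (enc_case (enc_sub h1 (cv2m.enc h2)) (enc_add (enc_mul h1 (bd2q1.enc h2 h3)) (enc_mul (enc_norm (enc_mul (enc_norm (enc_sub (enc_pnc _ 1) (lm1m.enc h1 h2))) (cv1m.enc h2))) (enc_norm (enc_sub (bd1q1.enc h2 h3) (bd2q1.enc h2 h3))))) (enc_case (enc_sub h1 (cv3m.enc h2)) (enc_add (enc_mul h1 (bd3q1.enc h2 h3)) (enc_mul (enc_norm (enc_mul (enc_norm (enc_sub (enc_pnc _ 1) (lm2m.enc h1 h2))) (cv2m.enc h2))) (enc_norm (enc_sub (bd2q1.enc h2 h3) (bd3q1.enc h2 h3))))) (enc_case (enc_sub h1 (cv4m.enc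 h2)) (enc_add (enc_mul h1 (bd4q1.enc h2 h3)) (enc_mul (enc_norm (enc_mul (enc_norm (enc_sub (enc_pnc _ 1) (lm3m.enc h1 h2))) (cv3m.enc h2))) (enc_norm (enc_sub (bd3q1.enc h2 h3) (bd4q1.enc h2 h3))))) (enc_add (kc4q1.enc h2 h3) (enc_mul (lm4m.enc h1 h2) (enc_norm (enc_sub (kc5q1.enc h2 h3) (kc4q1.enc h2 h3)))))))))⟩
noncomputable def pd1 : Fn3 := ⟨_, _, fun h1 h2 h3 => (enc_case h1 (enc_neg (rcq1.enc (enc_neg h1) h2 h3)) (rcq1.enc h1 h2 h3))⟩
noncomputable def kc0q2_3 : Fn2 := ⟨_, _, fun h1 h2 => (enc_subr 38847 40000 h2)⟩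
noncomputable def kc0q2_15 : Fn2 := ⟨_, _, fun h1 h2 => (enc_scaleT 25840979 2000000 (c1g.enc h1))⟩
noncomputable def kc0q2_19 : Fn2 := ⟨_, _, fun h1 h2 => (enc_scaleT 3 200 (c1g.enc h1))⟩
noncomputable def kc0q2 : Fn2 := ⟨_, _, fun h1 h2 => (enc_norm (enc_case (enc_subr 1 10 (c1g.enc h1)) (enc_pnc _ 0) (enc_case (enc_subr 3 10 (c1g.enc h1)) (enc_add (enc_sub (enc_rat _ 25840979 20000000) (kc0q2_15.enc h1 h2)) (enc_mul (enc_norm (kc0q2_3.enc h1 h2)) (enc_norm (enc_sub (enc_rat _ 3 2000) (kc0q2_19.enc h1 h2))))) (enc_add (enc_subr 25840979 4000000 (kc0q2_15.enc h1 h2)) (enc_mul (enc_norm (kc0q2_3.enc h1 h2)) (enc_norm (enc_subr 3 400 (kc0q2_19.enc h1 h2))))))))⟩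
noncomputable def n0d : Fn2 := ⟨_, _, fun h1 h2 => (enc_pnc _ 0)⟩
noncomputable def rcq2_51 : Fn3 := ⟨_, _, fun h1 h2 h3 => (enc_mul h1 (bd1q2.enc h2 h3))⟩
noncomputable def rcq2_53 : Fn3 := ⟨_, _, fun h1 h2 h3 => (enc_sub (enc_pnc _ 1) (lm0p.enc h1 h2))⟩
noncomputable def rcq2 : Fn3 := ⟨_, _, fun h1 h2 h3 => (enc_case (enc_sub h1 (cv1p.enc h2)) (enc_case (enc_subr 1149 1000 h2) (enc_add (rcq2_51.enc h1 h2 h3) (enc_mul (enc_norm (rcq2_53.enc h1 h2 h3)) (enc_norm (enc_sub (kc0q2.enc h2 h3) (enc_mul (c1g.enc h2) (bd1q2.enc h2 h3)))))) (enc_case (enc_subr 2887 2500 h2) (enc_add (rcq2_51.enc h1 h2 h3) (enc_mul (enc_norm (rcq2_53.enc h1 h2 h3)) (enc_norm (enc_mul (c1g.enc h2) (enc_norm (enc_sub (n0d.enc h2 h3) (bd1q2.enc h2 h3))))))) (rcq2_51.enc h1 h2 h3))) (enc_case (enc_sub h1 (cv2p.enc h2)) (enc_add (enc_mul h1 (bd2q2.enc h2 h3)) (enc_mul (enc_norm (enc_mul (enc_norm (enc_sub (enc_pnc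 _ 1) (lm1p.enc h1 h2))) (cv1p.enc h2))) (enc_norm (enc_sub (bd1q2.enc h2 h3) (bd2q2.enc h2 h3))))) (enc_case (enc_sub h1 (cv3p.enc h2)) (enc_add (enc_mul h1 (bd3q2.enc h2 h3)) (enc_mul (enc_norm (enc_mul (enc_norm (enc_sub (enc_pnc _ 1) (lm2p.enc h1 h2))) (cv2p.enc h2))) (enc_norm (enc_sub (bd2q2.enc h2 h3) (bd3q2.enc h2 h3))))) (enc_case (enc_sub h1 (cv4p.enc h2)) (enc_add (enc_mul h1 (bd4q2.enc h2 h3)) (enc_mul (enc_norm (enc_mul (enc_norm (enc_sub (enc_pnc _ 1) (lm3p.enc h1 h2))) (cv3p.enc h2))) (enc_norm (enc_sub (bd3q2.enc h2 h3) (bd4q2.enc h2 h3))))) (enc_add (kc4q2.enc h2 h3) (enc_mul (lm4p.enc h1 h2) (enc_norm (enc_sub (kc5q2.enc h2 h3) (kc4q2.enc h2 h3)))))))))⟩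
noncomputable def pd2 : Fn3 := ⟨_, _, fun h1 h2 h3 => (enc_case h1 (enc_neg (rcq2.enc (enc_neg h1) h2 h3)) (rcq2.enc h1 h2 h3))⟩
noncomputable def kc4q3_4 : Fn2 := ⟨_, _, fun h1 h2 => (enc_subr 38847 40000 h2)⟩
noncomputable def kc4q3_27 : Fn2 := ⟨_, _, fun h1 h2 => (enc_scaleT 1 200 (kc4q3_4.enc h1 h2))⟩
noncomputable def kc4q3 : Fn2 := ⟨_, _, fun h1 h2 => (enc_norm (enc_mul (cv4r.enc h1) (enc_norm (enc_case (enc_subr 197 100 h1) (enc_case (enc_subr 3929 2000 h1) (enc_add (enc_sub (enc_rat _ 154820591503 9290000000) (enc_scaleT 1516743 1161250 h1)) (enc_mul (enc_norm (kc4q3_4.enc h1 h2)) (enc_norm (enc_sub (enc_rat _ 11071 929000) (enc_scaleT 8 929 h1))))) (enc_sub (enc_sub (enc_rat _ 366764477 22000000) (enc_scaleT 72 55 h1)) (kc4q3_27.enc h1 h2))) (enc_case (enc_subr 1015 512 h1) (enc_sub (enc_sub (enc_rat _ 1766106371 106000000) (enc_scaleT 1728 1325 h1)) (kc4q3_27.enc h1 h2)) (enc_add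 (enc_add (enc_scaleT 44311095875 1366623792 (c3g.enc h1)) (enc_rat _ 11099819 1670000)) (enc_mul (enc_norm (kc4q3_4.enc h1 h2)) (enc_norm (enc_subr 42117 167 (enc_scaleT 94009296875 85413987 (c3g.enc h1)))))))))))⟩
noncomputable def kc5q3_3 : Fn2 := ⟨_, _, fun h1 h2 => (enc_subr 38847 40000 h2)⟩
noncomputable def kc5q3_9 : Fn2 := ⟨_, _, fun h1 h2 => (enc_sub (enc_half (c3g.enc h1)) (enc_scaleT 1 4 h1))⟩
noncomputable def kc5q3 : Fn2 := ⟨_, _, fun h1 h2 => (enc_norm (enc_case (kc5q3_9.enc h1 h2) (enc_case (enc_add (kc5q3_9.enc h1 h2) (enc_rat _ 333 1000)) (enc_add (enc_add (enc_scaleT 11099819 835000 (kc5q3_9.enc h1 h2)) (enc_rat _ 11099819 1670000)) (enc_mul (enc_norm (kc5q3_3.enc h1 h2)) (enc_norm (enc_subr 42117 167 (enc_neg (enc_scaleT 84234 167 (kc5q3_9.enc h1 h2))))))) (enc_case (enc_add (kc5q3_9.enc h1 h2) (enc_rat _ 167 1000)) (enc_add (enc_subr 1710209377 830000000 (enc_neg (enc_scaleT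 10669007 830000 (kc5q3_9.enc h1 h2)))) (enc_mul (enc_norm (kc5q3_3.enc h1 h2)) (enc_norm (enc_subr 3494589 83000 (enc_scaleT 10501 83 (kc5q3_9.enc h1 h2)))))) (enc_add (enc_subr 20605251 10000000 (enc_neg (enc_scaleT 34347 2672 (kc5q3_9.enc h1 h2)))) (enc_mul (enc_norm (kc5q3_3.enc h1 h2)) (enc_norm (enc_subr 42107 1000 (enc_scaleT 21125 167 (kc5q3_9.enc h1 h2)))))))) (enc_case (enc_subr 167 1000 (kc5q3_9.enc h1 h2)) (enc_add (enc_subr 20605251 10000000 (enc_neg (enc_scaleT 536671 41750 (kc5q3_9.enc h1 h2)))) (enc_mul (enc_norm (kc5q3_3.enc h1 h2)) (enc_norm (enc_subr 42107 1000 (enc_scaleT 21120 167 (kc5q3_9.enc h1 h2)))))) (enc_case (enc_subr 333 1000 (kc5q3_9.enc h1 h2)) (enc_add (enc_subr 684106793 332000000 (enc_neg (enc_scaleT 21337923 1660000 (kc5q3_9.enc h1 h2)))) (enc_mul (enc_norm (kc5q3_3.enc h1 h2)) (enc_norm (enc_subr 1397801 33200 (enc_scaleT 20989 166 (kc5q3_9.enc h1 h2))))))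 (enc_add (enc_subr 31705007 1670000 (enc_scaleT 31705007 835000 (kc5q3_9.enc h1 h2))) (enc_mul (enc_norm (kc5q3_3.enc h1 h2)) (enc_norm (enc_sub (enc_rat _ 1 167) (enc_scaleT 2 167 (kc5q3_9.enc h1 h2))))))))))⟩
noncomputable def bd4q3_3 : Fn2 := ⟨_, _, fun h1 h2 => (enc_subr 38847 40000 h2)⟩
noncomputable def bd4q3_26 : Fn2 := ⟨_, _, fun h1 h2 => (enc_scaleT 1 200 (bd4q3_3.enc h1 h2))⟩
noncomputable def bd4q3 : Fn2 := ⟨_, _, fun h1 h2 => (enc_norm (enc_case (enc_subr 197 100 h1) (enc_case (enc_subr 3929 2000 h1) (enc_add (enc_sub (enc_rat _ 154820591503 9290000000) (enc_scaleT 1516743 1161250 h1)) (enc_mul (enc_norm (bd4q3_3.enc h1 h2)) (enc_norm (enc_sub (enc_rat _ 11071 929000) (enc_scaleT 8 929 h1))))) (enc_sub (enc_sub (enc_rat _ 366764477 22000000) (enc_scaleT 72 55 h1)) (bd4q3_26.enc h1 h2))) (enc_case (enc_subr 1015 512 h1) (enc_sub (enc_sub (enc_rat _ 1766106371 106000000) (enc_scaleT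 1728 1325 h1)) (bd4q3_26.enc h1 h2)) (enc_add (enc_add (enc_scaleT 44311095875 1366623792 (c3g.enc h1)) (enc_rat _ 11099819 1670000)) (enc_mul (enc_norm (bd4q3_3.enc h1 h2)) (enc_norm (enc_subr 42117 167 (enc_scaleT 94009296875 85413987 (c3g.enc h1)))))))))⟩
noncomputable def kc3q3_4 : Fn2 := ⟨_, _, fun h1 h2 => (enc_subr 38847 40000 h2)⟩
noncomputable def kc3q3_28 : Fn2 := ⟨_, _, fun h1 h2 => (enc_subn 1 h1)⟩
noncomputable def kc3q3_29 : Fn2 := ⟨_, _, fun h1 h2 => (gsg.enc (enc_norm (kc3q3_28.enc h1 h2)))⟩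
noncomputable def kc3q3_33 : Fn2 := ⟨_, _, fun h1 h2 => (esg.enc (enc_norm (kc3q3_28.enc h1 h2)))⟩
noncomputable def kc3q3_38 : Fn2 := ⟨_, _, fun h1 h2 => (gug.enc (enc_norm (kc3q3_28.enc h1 h2)))⟩
noncomputable def kc3q3_40 : Fn2 := ⟨_, _, fun h1 h2 => (enc_mul (enc_norm (kc3q3_28.enc h1 h2)) (enc_inv (kc3q3_29.enc h1 h2)))⟩
noncomputable def kc3q3_41 : Fn2 := ⟨_, _, fun h1 h2 => (enc_scaleT 3 4 (kc3q3_40.enc h1 h2))⟩
noncomputable def kc3q3_72 : Fn2 := ⟨_, _, fun h1 h2 => (enc_subr 3929 2000 h1)⟩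
noncomputable def kc3q3_95 : Fn2 := ⟨_, _, fun h1 h2 => (enc_subr 1015 512 h1)⟩
noncomputable def kc3q3_117 : Fn2 := ⟨_, _, fun h1 h2 => (enc_mul (cv2r.enc h1) (enc_norm (enc_case (enc_subr 197 100 h1) (enc_case (kc3q3_72.enc h1 h2) (enc_add (enc_subr 394306844581 9290000000 (enc_scaleT 49287867 1161250 h1)) (enc_mul (enc_norm (kc3q3_4.enc h1 h2)) (enc_norm (enc_subr 202917 929000 (enc_scaleT 152 929 h1))))) (enc_add (enc_subr 186688077 4400000 (enc_scaleT 1166993 27500 h1)) (enc_mul (enc_norm (kc3q3_4.enc h1 h2)) (enc_norm (enc_subr 269 440 (enc_scaleT 4 11 h1)))))) (enc_case (kc3q3_95.enc h1 h2) (enc_add (enc_subr 4500182887 106000000 (enc_scaleT 1406124 33125 h1)) (enc_mul (enc_norm (kc3q3_4.enc h1 h2)) (enc_norm (enc_subr 21877 31800 (enc_scaleT 64 159 h1))))) (enc_add (enc_add (enc_scaleT 253516775 1591212 (c3g.enc h1)) (enc_rat _ 25954537 5000000)) (enc_mul (enc_norm (kc3q3_4.enc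 h1 h2)) (enc_norm (enc_subr 337791 500 (enc_scaleT 10557687500 3580227 (c3g.enc h1))))))))))⟩
noncomputable def kc3q3 : Fn2 := ⟨_, _, fun h1 h2 => (enc_norm (enc_case (kc3q3_72.enc h1 h2) (enc_mul (cv3r.enc h1) (enc_norm (enc_add (enc_subr 74448420223 4645000000 (enc_scaleT 37181094153 2322500000 h1)) (enc_mul (enc_norm (kc3q3_4.enc h1 h2)) (enc_norm (enc_sub (enc_rat _ 212909501 18580000) (enc_scaleT 88459807 9290000 h1))))))) (enc_case (kc3q3_95.enc h1 h2) (enc_add (kc3q3_117.enc h1 h2) (enc_mul (enc_norm (enc_mul (enc_norm (enc_sub (enc_add (enc_sub (enc_add (enc_add (enc_rat _ 3 4) (enc_scaleT 3 2 (kc3q3_28.enc h1 h2))) (enc_scaleT 3 4 (enc_mul (enc_norm (kc3q3_40.enc h1 h2)) (kc3q3_38.enc h1 h2)))) (enc_wT (enc_mul (enc_norm (enc_sub (enc_mul (enc_norm (enc_mul (enc_norm (kc3q3_41.enc h1 h2)) (enc_norm (enc_subn 3 (enc_nat 4 (kc3q3_29.enc h1 h2)))))) (kc3q3_33.enc h1 h2)) (enc_mul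 (qsg.enc (enc_norm (kc3q3_28.enc h1 h2))) (enc_norm (enc_sub (enc_rat _ 1 2) (kc3q3_41.enc h1 h2)))))) (enc_inv (enc_mul (enc_nat 2 (kc3q3_33.enc h1 h2)) (kc3q3_33.enc h1 h2)))) (kc3q3_28.enc h1 h2) (kc3q3_29.enc h1 h2) (kc3q3_33.enc h1 h2) rfl rfl rfl rfl)) (enc_mul (kcg.enc (enc_norm (enc_sub (enc_scaleT 3 4 (kc3q3_28.enc h1 h2)) (enc_half (kc3q3_29.enc h1 h2)))) h2) (enc_norm (enc_sub (enc_pnc _ 1) (enc_add (kc3q3_38.enc h1 h2) (enc_nat 2 (kc3q3_29.enc h1 h2))))))) (kc3q3_117.enc h1 h2))) (enc_norm (enc_sub (cv3r.enc h1) (cv2r.enc h1))))) (enc_inv (enc_sub (enc_subr 1 2 (swg.enc h1)) (cv2r.enc h1))))) (enc_mul (cv3r.enc h1) (enc_norm (enc_add (enc_add (enc_scaleT 12946643850997 127551553920 (c3g.enc h1)) (enc_rat _ 11099819 1670000)) (enc_mul (enc_norm (kc3q3_4.enc h1 h2)) (enc_norm (enc_subr 42117 167 (enc_scaleT 48034062698221 38265466176 (c3g.enc h1)))))))))))⟩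
noncomputable def bd3q3_3 : Fn2 := ⟨_, _, fun h1 h2 => (enc_subr 38847 40000 h2)⟩
noncomputable def bd3q3 : Fn2 := ⟨_, _, fun h1 h2 => (enc_norm (enc_case (enc_subr 252603 128000 h1) (enc_add (enc_subr 74448420223 4645000000 (enc_scaleT 37181094153 2322500000 h1)) (enc_mul (enc_norm (bd3q3_3.enc h1 h2)) (enc_norm (enc_sub (enc_rat _ 212909501 18580000) (enc_scaleT 88459807 9290000 h1))))) (enc_add (enc_add (enc_scaleT 12946643850997 127551553920 (c3g.enc h1)) (enc_rat _ 11099819 1670000)) (enc_mul (enc_norm (bd3q3_3.enc h1 h2)) (enc_norm (enc_subr 42117 167 (enc_scaleT 48034062698221 38265466176 (c3g.enc h1))))))))⟩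
noncomputable def bd2q3_3 : Fn2 := ⟨_, _, fun h1 h2 => (enc_subr 38847 40000 h2)⟩
noncomputable def bd2q3 : Fn2 := ⟨_, _, fun h1 h2 => (enc_norm (enc_case (enc_subr 197 100 h1) (enc_case (enc_subr 3929 2000 h1) (enc_add (enc_subr 394306844581 9290000000 (enc_scaleT 49287867 1161250 h1)) (enc_mul (enc_norm (bd2q3_3.enc h1 h2)) (enc_norm (enc_subr 202917 929000 (enc_scaleT 152 929 h1))))) (enc_add (enc_subr 186688077 4400000 (enc_scaleT 1166993 27500 h1)) (enc_mul (enc_norm (bd2q3_3.enc h1 h2)) (enc_norm (enc_subr 269 440 (enc_scaleT 4 11 h1)))))) (enc_case (enc_subr 1015 512 h1) (enc_add (enc_subr 4500182887 106000000 (enc_scaleT 1406124 33125 h1)) (enc_mul (enc_norm (bd2q3_3.enc h1 h2)) (enc_norm (enc_subr 21877 31800 (enc_scaleT 64 159 h1))))) (enc_add (enc_add (enc_scaleT 253516775 1591212 (c3g.enc h1)) (enc_rat _ 25954537 5000000)) (enc_mul (enc_norm (bd2q3_3.enc h1 h2)) (enc_norm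 (enc_subr 337791 500 (enc_scaleT 10557687500 3580227 (c3g.enc h1)))))))))⟩
noncomputable def bd1q3_3 : Fn2 := ⟨_, _, fun h1 h2 => (enc_subr 38847 40000 h2)⟩
noncomputable def bd1q3 : Fn2 := ⟨_, _, fun h1 h2 => (enc_norm (enc_case (enc_subr 1015 512 h1) (enc_sub (enc_neg (enc_rat _ 3993 10000000)) (enc_scaleT 1 1000 (bd1q3_3.enc h1 h2))) (enc_add (enc_sub (enc_rat _ 25074063 10000000) (enc_scaleT 26122975 2386818 (c3g.enc h1))) (enc_mul (enc_norm (bd1q3_3.enc h1 h2)) (enc_norm (enc_subr 9 1000 (enc_scaleT 125000 3580227 (c3g.enc h1))))))))⟩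
noncomputable def rcq3_36 : Fn3 := ⟨_, _, fun h1 h2 h3 => (enc_add (enc_mul h1 (bd3q3.enc h2 h3)) (enc_mul (enc_norm (enc_mul (enc_norm (enc_sub (enc_pnc _ 1) (lm2r.enc h1 h2))) (cv2r.enc h2))) (enc_norm (enc_sub (bd2q3.enc h2 h3) (bd3q3.enc h2 h3)))))⟩
noncomputable def rcq3_37 : Fn3 := ⟨_, _, fun h1 h2 h3 => (enc_subn 1 h2)⟩
noncomputable def rcq3_38 : Fn3 := ⟨_, _, fun h1 h2 h3 => (gsg.enc (enc_norm (rcq3_37.enc h1 h2 h3)))⟩
noncomputable def rcq3_42 : Fn3 := ⟨_, _, fun h1 h2 h3 => (esg.enc (enc_norm (rcq3_37.enc h1 h2 h3)))⟩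
noncomputable def rcq3_47 : Fn3 := ⟨_, _, fun h1 h2 h3 => (gug.enc (enc_norm (rcq3_37.enc h1 h2 h3)))⟩
noncomputable def rcq3_49 : Fn3 := ⟨_, _, fun h1 h2 h3 => (enc_mul (enc_norm (rcq3_37.enc h1 h2 h3)) (enc_inv (rcq3_38.enc h1 h2 h3)))⟩
noncomputable def rcq3_50 : Fn3 := ⟨_, _, fun h1 h2 h3 => (enc_scaleT 3 4 (rcq3_49.enc h1 h2 h3))⟩
noncomputable def rcq3_76 : Fn3 := ⟨_, _, fun h1 h2 h3 => (enc_add (enc_sub (enc_add (enc_add (enc_rat _ 3 4) (enc_scaleT 3 2 (rcq3_37.enc h1 h2 h3))) (enc_scaleT 3 4 (enc_mul (enc_norm (rcq3_49.enc h1 h2 h3)) (rcq3_47.enc h1 h2 h3)))) (enc_wT (enc_mul (enc_norm (enc_sub (enc_mul (enc_norm (enc_mul (enc_norm (rcq3_50.enc h1 h2 h3)) (enc_norm (enc_subn 3 (enc_nat 4 (rcq3_38.enc h1 h2 h3)))))) (rcq3_42.enc h1 h2 h3)) (enc_mul (qsg.enc (enc_norm (rcq3_37.enc h1 h2 h3))) (enc_norm (enc_sub (enc_rat _ 1 2) (rcq3_50.enc h1 h2 h3)))))) (enc_inv (enc_mul (enc_nat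 2 (rcq3_42.enc h1 h2 h3)) (rcq3_42.enc h1 h2 h3)))) (rcq3_37.enc h1 h2 h3) (rcq3_38.enc h1 h2 h3) (rcq3_42.enc h1 h2 h3) rfl rfl rfl rfl)) (enc_mul (kcg.enc (enc_norm (enc_sub (enc_scaleT 3 4 (rcq3_37.enc h1 h2 h3)) (enc_half (rcq3_38.enc h1 h2 h3)))) h3) (enc_norm (enc_sub (enc_pnc _ 1) (enc_add (rcq3_47.enc h1 h2 h3) (enc_nat 2 (rcq3_38.enc h1 h2 h3)))))))⟩
noncomputable def rcq3_80 : Fn3 := ⟨_, _, fun h1 h2 h3 => (enc_subr 1 2 (swg.enc h2))⟩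
noncomputable def rcq3_81 : Fn3 := ⟨_, _, fun h1 h2 h3 => (enc_sub h1 (cv2r.enc h2))⟩
noncomputable def rcq3 : Fn3 := ⟨_, _, fun h1 h2 h3 => (enc_case (enc_sub h1 (cv1r.enc h2)) (enc_mul h1 (bd1q3.enc h2 h3)) (enc_case (rcq3_81.enc h1 h2 h3) (enc_add (enc_mul h1 (bd2q3.enc h2 h3)) (enc_mul (enc_norm (enc_mul (enc_norm (enc_sub (enc_pnc _ 1) (lm1r.enc h1 h2))) (cv1r.enc h2))) (enc_norm (enc_sub (bd1q3.enc h2 h3) (bd2q3.enc h2 h3))))) (enc_case (enc_sub h1 (cv3r.enc h2)) (enc_case (enc_subr 3929 2000 h2) (rcq3_36.enc h1 h2 h3) (enc_case (enc_subr 1015 512 h2) (enc_wL (enc_add (kc2q3.enc h2 h3) (enc_mul (enc_norm (enc_mul (enc_norm (rcq3_81.enc h1 h2 h3)) (enc_inv (enc_sub (rcq3_80.enc h1 h2 h3) (cv2r.enc h2))))) (enc_norm (enc_sub (rcq3_76.enc h1 h2 h3) (kc2q3.enc h2 h3))))) h1 (rcq3_80.enc h1 h2 h3) (cv2r.enc h2) (rcq3_76.enc h1 h2 h3) (kc2q3.enc h2 h3) rfl) (rcq3_36.enc h1 h2 h3))) (enc_case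 (enc_sub h1 (cv4r.enc h2)) (enc_add (enc_mul h1 (bd4q3.enc h2 h3)) (enc_mul (enc_norm (enc_sub (enc_pnc _ 1) (lm3r.enc h1 h2))) (enc_norm (enc_sub (kc3q3.enc h2 h3) (enc_mul (cv3r.enc h2) (bd4q3.enc h2 h3)))))) (enc_add (kc4q3.enc h2 h3) (enc_mul (lm4r.enc h1 h2) (enc_norm (enc_sub (kc5q3.enc h2 h3) (kc4q3.enc h2 h3)))))))))⟩
noncomputable def pd3 : Fn3 := ⟨_, _, fun h1 h2 h3 => (enc_case h1 (enc_neg (rcq3.enc (enc_neg h1) h2 h3)) (rcq3.enc h1 h2 h3))⟩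
noncomputable def mug3 : Fn1 := ⟨_, _, fun h1 => (enc_inv (enc_add (enc_nat 2 (gsg.enc h1)) (enc_pnc _ 3)))⟩
noncomputable def eng : Fn1 := ⟨_, _, fun h1 => (enc_norm (enc_add (enc_pnc _ 1) (enc_mul (mug3.enc h1) (gug.enc h1))))⟩
noncomputable def mog : Fn1 := ⟨_, _, fun h1 => (enc_norm (enc_scaleT 1 20 (enc_mul (mug3.enc h1) (esg.enc h1))))⟩
noncomputable def kf1q2 : Fn2 := ⟨_, _, fun h1 h2 => (enc_norm (enc_mul (cv1p.enc h1) (bf1q2.enc h1 h2)))⟩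
noncomputable def l1q2 : Fn2 := ⟨_, _, fun h1 h2 => (enc_norm (enc_mul (cv1p.enc h1) (bx1q2.enc h1 h2)))⟩
noncomputable def kc1q2 : Fn2 := ⟨_, _, fun h1 h2 => (enc_norm (enc_mul (cv1p.enc h1) (bd1q2.enc h1 h2)))⟩
noncomputable def kf2q2 : Fn2 := ⟨_, _, fun h1 h2 => (enc_norm (enc_mul (cv2p.enc h1) (bf2q2.enc h1 h2)))⟩
noncomputable def l2q2 : Fn2 := ⟨_, _, fun h1 h2 => (enc_norm (enc_mul (cv2p.enc h1) (bx2q2.enc h1 h2)))⟩
noncomputable def kc2q2 : Fn2 := ⟨_, _, fun h1 h2 => (enc_norm (enc_mul (cv2p.enc h1) (bd2q2.enc h1 h2)))⟩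

noncomputable def ndB0q0 : Node := ⟨idf, c1g, kf0q0, l0q0⟩
noncomputable def cd0q0 : Fn2 := kc0q0
noncomputable def ndB0q1 : Node := ⟨idf, c1g, kf0q1, l0q1⟩
noncomputable def cd0q1 : Fn2 := kc0q1
noncomputable def ndB0q2 : Node := ⟨yag, idf, kfc02, lc02⟩
noncomputable def cd0q2 : Fn2 := kcc02
noncomputable def ndB1q0 : Node := ⟨idf, cv1m, kf1q0, l1q0⟩
noncomputable def cd1q0 : Fn2 := kc1q0
noncomputable def ndB1q1 : Node := ⟨idf, cv1m, kf1q1, l1q1⟩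
noncomputable def cd1q1 : Fn2 := kc1q1
noncomputable def ndB1q2a : Node := ⟨yag, xc12a, kfc12a, lc12a⟩
noncomputable def cd1q2a : Fn2 := kcc12a
noncomputable def ndB1q2b : Node := ⟨idf, xc12b, kfc12b, lc12b⟩
noncomputable def cd1q2b : Fn2 := kcc12b
noncomputable def ndB1q3 : Node := ⟨idf, cv1r, kf1q3, l1q3⟩
noncomputable def cd1q3 : Fn2 := kc1q3
noncomputable def ndB2q0 : Node := ⟨idf, cv2m, kf2q0, l2q0⟩
noncomputable def cd2q0 : Fn2 := kc2q0
noncomputable def ndB2q1 : Node := ⟨idf, cv2m, kf2q1, l2q1⟩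
noncomputable def cd2q1 : Fn2 := kc2q1
noncomputable def ndB2q2a : Node := ⟨yag, xc22a, kfc22a, lc22a⟩
noncomputable def cd2q2a : Fn2 := kcc22a
noncomputable def ndB2q2b : Node := ⟨idf, xc22b, kfc22b, lc22b⟩
noncomputable def cd2q2b : Fn2 := kcc22b
noncomputable def ndB2q3 : Node := ⟨idf, cv2r, kf2q3, l2q3⟩
noncomputable def cd2q3 : Fn2 := kc2q3
noncomputable def ndB3q0 : Node := ⟨idf, cv3m, kf3q0, l3q0⟩
noncomputable def cd3q0 : Fn2 := kc3q0
noncomputable def ndB3q1 : Node := ⟨idf, cv3m, kf3q1, l3q1⟩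
noncomputable def cd3q1 : Fn2 := kc3q1
noncomputable def ndB3q2 : Node := ⟨idf, cv3p, kf3q2, l3q2⟩
noncomputable def cd3q2 : Fn2 := kc3q2
noncomputable def ndB3q3 : Node := ⟨ycg, xc33, kfc33, lc33⟩
noncomputable def cd3q3 : Fn2 := kcc33
noncomputable def ndB4q0 : Node := ⟨idf, cv4m, kf4q0, l4q0⟩
noncomputable def cd4q0 : Fn2 := kc4q0
noncomputable def ndB4q1 : Node := ⟨idf, cv4m, kf4q1, l4q1⟩
noncomputable def cd4q1 : Fn2 := kc4q1
noncomputable def ndB4q2 : Node := ⟨idf, cv4p, kf4q2, l4q2⟩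
noncomputable def cd4q2 : Fn2 := kc4q2
noncomputable def ndB4q3 : Node := ⟨ycg, xc43, kfc43, lc43⟩
noncomputable def cd4q3 : Fn2 := kcc43
noncomputable def ndB5q0 : Node := ⟨idf, c3g, kf5q0, l5q0⟩
noncomputable def cd5q0 : Fn2 := kc5q0
noncomputable def ndB5q1 : Node := ⟨idf, c3g, kf5q1, l5q1⟩
noncomputable def cd5q1 : Fn2 := kc5q1
noncomputable def ndB5q2 : Node := ⟨idf, c3g, kf5q2, l5q2⟩
noncomputable def cd5q2 : Fn2 := kc5q2
noncomputable def ndB5q3 : Node := ⟨ycg, idf, kfc53, lc53⟩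
noncomputable def cd5q3 : Fn2 := kcc53
noncomputable def pcB0 : Piece := ⟨rsbq0, rlq0⟩
noncomputable def pcB1 : Piece := ⟨rsbq1, rlq1⟩
noncomputable def pcB2 : Piece := ⟨rsbq2, rlq2⟩
noncomputable def pcB3 : Piece := ⟨rsbq3, rlq3⟩
noncomputable def ndB1q2 : Node := ⟨idf, cv1p, kf1q2, l1q2⟩
noncomputable def cd1q2 : Fn2 := kc1q2
noncomputable def ndB2q2 : Node := ⟨idf, cv2p, kf2q2, l2q2⟩
noncomputable def cd2q2 : Fn2 := kc2q2
end Pool.Agent.Strip051.G.I9688_9736.Tab
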