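import Pool.Agent.Strip051.G.I9688_9736.MolD

/-! # The tight charts of a table: certificates (generated) -/

set_option linter.all false
set_option maxRecDepth 100000

namespace Pool.Agent.Strip051.G.I9688_9736.Tab.Mo

open Pool.Agent.Strip051.PB Pool.Agent.Strip051.PB.Mol Pool.Agent.Strip051.PB.T
open Pool.Agent.Strip051.G.I9688_9736.Tab

noncomputable def f0Ap : ℕ → ℕ → ℕ → ℕ → Bool :=
  onCell 0 92274688 0 1048576 1040187392 5207648 (c0_Ap.row false 46137344)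

def h0_0Ap : ∃ t, chk3 f0Ap t 2 1 1 = true :=
  ⟨(a (l 7) (a (l 7) (a (a (l 16) (c (l 16) (l 16))) (a (c (a (l 16) (l 16)) (a (l 16) (c (l 16) (l 16)))) (c (a (c (a (l 16) (l 8)) (a (l 16) (c (l 8) (l 8)))) (c (a (l 8) (l 10)) (a (l 8) (l 10)))) (a (c (a (l 16) (c (l 8) (l 8))) (a (l 16) (c (l 8) (l 8)))) (c (a (c (l 8) (l 8)) (l 10)) (a (c (l 8) (l 8)) (c (l 10) (l 10)))))))))), by decide +kernel⟩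

def h1_0Ap : ∃ t, chk3 f0Ap t 24 1 1 = true :=
  ⟨(a (c (a (c (a (l 10) (l 2)) (a (l 10) (l 2))) (c (a (l 2) (l 2)) (a (l 2) (l 2)))) (a (c (a (c (l 10) (l 10)) (l 2)) (a (c (l 10) (l 10)) (c (l 2) (l 2)))) (c (a (l 2) (c (l 2) (l 2))) (a (c (l 2) (l 2)) (c (l 2) (l 2)))))) (c (a (c (a (l 2) (l 2)) (a (l 2) (c (l 2) (l 2)))) (c (a (l 2) (c (l 2) (l 2))) (a (c (l 2) (l 2)) (c (l 2) (l 2))))) (a (c (a (c (l 2) (l 2)) (c (l 2) (l 2))) (a (c (l 2) (l 2)) (c (l 2) (b (l 2) (l 2))))) (c (a (c (l 2) (l 2)) (c (l 2) (b (l 2) (l 2)))) (a (c (b (l 2) (l 2)) (b (l 2) (l 2))) (c (b (l 2) (l 2)) (b (l 2) (a (l 2) (l 2))))))))), by decide +kernel⟩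

def h2_0Ap : ∃ t, chk3 f0Ap t 50 1 2 = true :=
  ⟨(a (c (a (c (l 2) (l 2)) (c (l 2) (l 2))) (a (c (l 2) (l 2)) (c (l 2) (b (l 2) (l 2))))) (c (a (c (l 2) (l 2)) (c (l 2) (b (l 2) (l 2)))) (a (c (b (l 2) (l 2)) (b (l 2) (l 2))) (c (b (l 2) (l 2)) (b (l 2) (a (l 2) (l 2))))))), by decide +kernel⟩

def h3_0Ap : ∃ t, chk3 f0Ap t 50 1 3 = true :=
  ⟨(a (c (a (c (b (l 2) (l 2)) (b (l 2) (l 2))) (c (b (l 2) (l 2)) (b (l 2) (a (l 2) (l 2))))) (a (c (b (l 2) (a (l 2) (l 2))) (b (a (l 2) (l 2)) (a (l 2) (l 2)))) (c (b (a (l 2) (l 2)) (a (l 2) (l 2))) (b (a (l 2) (l 2)) (a (l 2) (c (l 2) (l 2))))))) (c (a (c (b (l 2) (a (l 2) (l 2))) (b (a (l 2) (l 2)) (a (l 2) (l 2)))) (c (b (a (l 2) (l 2)) (a (l 2) (l 2))) (b (a (l 2) (l 2)) (a (c (l 2) (l 2)) (c (l 2) (l 2)))))) (a (c (b (a (l 2) (l 2)) (a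 (l 2) (c (l 2) (l 2)))) (b (a (c (l 2) (l 2)) (c (l 2) (l 2))) (a (c (l 2) (l 2)) (c (l 2) (l 2))))) (c (b (a (c (l 2) (l 2)) (c (l 2) (l 2))) (a (c (l 2) (l 2)) (c (l 2) (b (l 2) (l 2))))) (b (a (c (l 2) (l 2)) (c (l 2) (b (l 2) (l 2)))) (a (c (l 2) (b (l 2) (l 2))) (c (b (l 2) (l 2)) (b (l 2) (a (l 2) (c (l 2) (l 2))))))))))), by decide +kernel⟩

def h4_0Ap : ∃ t, chk3 f0Ap t 51 1 2 = true :=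
  ⟨(a (c (a (c (b (l 2) (l 2)) (b (l 2) (l 2))) (c (b (l 2) (l 2)) (b (l 2) (a (l 2) (l 2))))) (a (c (b (l 2) (a (l 2) (l 2))) (b (a (l 2) (l 2)) (a (l 2) (l 2)))) (c (b (a (l 2) (l 2)) (a (l 2) (l 2))) (b (a (l 2) (c (l 2) (l 2))) (a (c (l 2) (l 2)) (c (l 2) (l 2))))))) (c (a (c (b (l 2) (a (l 2) (l 2))) (b (a (l 2) (l 2)) (a (l 2) (l 2)))) (c (b (a (l 2) (l 2)) (a (l 2) (l 2))) (b (a (l 2) (c (l 2) (l 2))) (a (c (l 2) (l 2)) (c (l 2) (l 2)))))) (a (c (b (a (l 2) (c (l 2) (l 2))) (a (c (l 2) (l 2)) (c (l 2) (l 2)))) (b (a (c (l 2) (l 2)) (c (l 2) (l 2))) (a (c (l 2) (l 2)) (c (l 2) (b (l 2) (l 2)))))) (c (b (a (c (l 2) (l 2)) (c (l 2) (l 2))) (a (c (l 2) (l 2)) (c (l 2) (b (l 2) (l 2))))) (b (a (c (l 2) (b (l 2) (l 2))) (c (b (l 2) (l 2)) (b (l 2) (a (l 2) (l 2))))) (a (c (b (l 2)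 (l 2)) (b (l 2) (a (l 2) (l 2)))) (c (b (l 2) (a (l 2) (c (l 2) (l 2)))) (b (a (l 2) (c (l 2) (l 2))) (a (c (l 2) (b (l 2) (l 2))) (c (b (l 2) (l 2)) (b (a (l 2) (l 2)) (l 9)))))))))))), by decide +kernel⟩

def h5_0Ap : ∃ t, chk3 f0Ap t 102 1 6 = true :=
  ⟨(a (c (b (a (l 2) (l 2)) (a (c (l 2) (l 2)) (c (l 2) (l 2)))) (b (a (c (l 2) (l 2)) (c (l 2) (l 2))) (a (c (l 2) (l 2)) (c (l 2) (b (l 2) (l 2)))))) (c (b (a (c (l 2) (l 2)) (c (l 2) (l 2))) (a (c (l 2) (l 2)) (c (l 2) (b (l 2) (l 2))))) (b (a (c (l 2) (b (l 2) (l 2))) (c (b (l 2) (l 2)) (b (l 2) (l 2)))) (a (c (b (l 2) (l 2)) (b (l 2) (a (l 2) (l 2)))) (c (b (l 2) (a (l 2) (l 2))) (b (a (l 2) (l 2)) (a (c (l 2) (l 2)) (c (l 2) (b (l 2) (l 2)))))))))), by decide +kernel⟩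

def h6_0Ap : ∃ t, chk3 f0Ap t 204 1 7 = true :=
  ⟨(c (b (a (c (l 2) (l 2)) (c (l 2) (b (l 2) (l 2)))) (a (c (b (l 2) (l 2)) (b (l 2) (l 2))) (c (b (l 2) (l 2)) (b (a (l 2) (l 2)) (a (l 2) (c (l 2) (l 2))))))) (b (a (c (b (l 2) (l 2)) (b (l 2) (a (l 2) (l 2)))) (c (b (l 2) (a (l 2) (l 2))) (b (a (l 2) (c (l 2) (l 2))) (a (c (l 2) (l 2)) (c (l 2) (b (l 2) (a (l 2) (l 9)))))))) (a (c (b (a (l 2) (l 2)) (a (l 2) (c (l 2) (l 2)))) (b (a (l 2) (c (l 2) (b (l 2) (l 2)))) (a (c (l 2) (b (l 2) (a (l 2) (l 9)))) (c (b (l 2) (a (l 2) (l 9))) (b (a (l 2) (l 9)) (l 9)))))) (c (b (a (c (l 2) (l 2)) (c (l 2) (b (l 2) (l 2)))) (a (c (l 2) (b (l 2) (a (l 2) (l 9)))) (c (b (l 2) (a (l 2) (l 9))) (l 9)))) (b (a (c (b (l 2) (l 2)) (b (a (l 2) (l 2)) (l 9))) (c (b (a (l 2) (l 9)) (l 9)) (l 9))) (a (c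 (b (a (l 2) (l 9)) (l 9)) (l 9)) (l 9))))))), by decide +kernel⟩

def h7_0Ap : ∃ t, chk3 f0Ap t 205 1 14 = true :=
  ⟨(b (a (c (b (l 2) (l 2)) (b (l 2) (a (l 2) (l 2)))) (c (b (a (l 2) (l 2)) (a (l 2) (c (l 2) (l 2)))) (b (a (l 2) (c (l 2) (l 2))) (a (c (l 2) (b (l 2) (l 2))) (c (b (l 2) (l 2)) (b (a (l 2) (l 2)) (l 9))))))) (a (c (b (a (l 2) (l 2)) (a (l 2) (c (l 2) (b (l 2) (l 2))))) (b (a (c (l 2) (l 2)) (c (l 2) (b (l 2) (a (l 2) (l 9))))) (a (c (l 2) (b (l 2) (l 9))) (c (b (l 2) (l 9)) (l 9))))) (c (b (a (c (l 2) (l 2)) (c (l 2) (b (l 2) (a (l 2) (l 9))))) (a (c (b (l 2) (l 2)) (b (a (l 2) (l 2)) (l 9))) (c (b (a (l 2) (l 9)) (l 9)) (l 9)))) (b (a (c (b (l 2) (a (l 2) (l 9))) (b (a (l 2) (l 9)) (l 9))) (c (b (a (l 2) (l 9)) (l 9)) (l 9))) (l 9))))), by decide +kernel⟩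

def h8_0Ap : ∃ t, chk3 f0Ap t 205 1 15 = true :=
  ⟨(b (a (c (b (a (l 2) (c (l 2) (l 2))) (a (c (l 2) (l 2)) (c (b (l 2) (l 2)) (b (l 2) (a (l 2) (l 9)))))) (b (a (c (l 2) (b (l 2) (l 2))) (c (b (l 2) (a (l 2) (l 2))) (b (a (l 2) (l 5)) (l 9)))) (a (c (b (l 2) (a (l 2) (l 9))) (b (a (l 2) (l 9)) (l 9))) (l 9)))) (c (b (a (c (l 2) (b (l 2) (a (l 2) (l 2)))) (c (b (l 2) (a (l 2) (l 9))) (b (a (l 2) (l 5)) (l 9)))) (a (c (b (a (l 2) (l 2)) (l 9)) (l 9)) (l 9))) (b (a (c (b (a (l 2) (l 5)) (l 9)) (l 5)) (l 5)) (l 9)))) (a (c (b (a (c (b (l 2) (a (l 2) (l 2))) (b (a (l 2) (l 9)) (l 9))) (c (b (a (l 2) (l 9)) (l 9)) (l 9))) (l 9)) (l 9)) (l 9))), by decide +kernel⟩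

def h9_0Ap : ∃ t, chk3 f0Ap t 206 1 6 = true :=
  ⟨(c (b (a (c (l 2) (b (l 2) (l 2))) (c (b (l 2) (l 2)) (b (l 2) (a (l 2) (l 2))))) (a (c (b (l 2) (l 2)) (b (l 2) (a (l 2) (l 2)))) (c (b (l 2) (a (l 2) (l 2))) (b (a (l 2) (c (l 2) (l 2))) (a (c (l 2) (l 2)) (c (l 2) (b (l 2) (a (l 2) (l 9))))))))) (b (a (c (b (l 2) (l 2)) (b (a (l 2) (l 2)) (a (l 2) (c (l 2) (l 2))))) (c (b (a (l 2) (l 2)) (a (l 2) (c (l 2) (l 2)))) (b (a (l 2) (c (l 2) (b (l 2) (l 2)))) (a (c (l 2) (b (l 2) (a (l 2) (l 2)))) (c (b (l 2) (a (l 2) (l 9))) (b (a (l 2) (l 9)) (l 9))))))) (a (c (b (a (l 2) (l 2)) (a (c (l 2) (l 2)) (c (l 2) (b (l 2) (a (l 2) (l 9)))))) (b (a (c (l 2) (l 2)) (c (b (l 2) (l 2)) (b (l 2) (a (l 2) (l 9))))) (a (c (b (l 2) (a (l 2) (l 9))) (b (a (l 2) (l 9)) (l 9))) (c (b (a (l 2) (l 9))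 (l 9)) (l 9))))) (c (b (a (c (l 2) (b (l 2) (l 2))) (c (b (l 2) (l 2)) (b (a (l 2) (l 2)) (l 9)))) (a (c (b (l 2) (a (l 2) (l 9))) (b (a (l 2) (l 9)) (l 9))) (c (b (a (l 2) (l 9)) (l 9)) (l 9)))) (b (a (c (b (a (l 2) (l 2)) (l 9)) (l 9)) (l 9)) (l 9)))))), by decide +kernel⟩

def h10_0Ap : ∃ t, chk3 f0Ap t 207 1 12 = true :=
  ⟨(b (a (c (b (l 2) (a (l 2) (l 2))) (b (a (l 2) (l 2)) (a (l 2) (c (l 2) (b (l 2) (l 2)))))) (c (b (a (l 2) (l 2)) (a (l 2) (c (l 2) (b (l 2) (l 2))))) (b (a (c (l 2) (l 2)) (c (l 2) (b (l 2) (a (l 2) (c (l 2) (l 9)))))) (a (c (b (l 2) (l 2)) (b (a (l 2) (l 2)) (a (l 2) (l 9)))) (c (b (a (l 2) (l 2)) (a (c (l 2) (l 9)) (l 9))) (l 9)))))) (a (c (b (a (l 2) (c (l 2) (l 2))) (a (c (l 2) (l 2)) (c (b (l 2) (l 2)) (b (l 2) (a (l 2) (l 9)))))) (b (a (c (l 2) (b (l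 2) (a (l 2) (l 2)))) (c (b (l 2) (a (l 2) (l 2))) (b (a (l 2) (l 9)) (l 9)))) (a (c (b (l 2) (a (l 2) (l 9))) (l 9)) (l 9)))) (c (b (a (c (l 2) (b (l 2) (a (l 2) (l 9)))) (c (b (l 2) (a (l 2) (l 9))) (b (a (l 2) (l 9)) (l 9)))) (a (c (b (a (l 2) (l 2)) (l 9)) (l 9)) (l 9))) (b (a (c (b (a (l 2) (l 9)) (l 9)) (l 9)) (l 9)) (l 9))))), by decide +kernel⟩

def h11_0Ap : ∃ t, chk3 f0Ap t 207 1 13 = true :=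
  ⟨(b (a (c (b (a (c (l 2) (l 2)) (c (l 2) (b (l 2) (a (l 2) (l 2))))) (a (c (l 2) (b (l 2) (a (l 2) (l 9)))) (c (b (l 2) (a (l 2) (l 9))) (b (a (c (l 2) (l 9)) (l 9)) (l 9))))) (b (a (c (b (l 2) (a (l 2) (l 2))) (b (a (l 2) (l 2)) (l 9))) (c (b (a (l 2) (c (l 2) (l 5))) (l 9)) (l 5))) (a (c (b (a (l 2) (l 9)) (l 9)) (l 9)) (l 9)))) (c (b (a (c (b (l 2) (a (l 2) (l 2))) (b (a (l 2) (l 5)) (l 9))) (c (b (a (l 2) (l 5)) (l 9)) (l 5))) (l 9)) (l 5))) (a (c (b (a (c (b (a (l 2) (l 9)) (l 9)) (l 9)) (l 9)) (l 9)) (l 9)) (l 9))), by decide +kernel⟩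

def h12_0Ap : ∃ t, chk3 f0Ap t 103 1 7 = true :=
  ⟨(a (c (b (a (c (b (a (l 2) (c (l 2) (b (l 2) (l 2)))) (a (c (l 2) (b (l 2) (a (l 2) (l 2)))) (c (b (l 2) (a (l 2) (l 2))) (b (a (l 2) (l 9)) (l 9))))) (b (a (c (l 2) (b (l 2) (a (l 2) (l 9)))) (c (b (l 2) (a (l 2) (l 9))) (b (a (c (l 2) (l 5)) (l 5)) (l 9)))) (a (c (b (a (l 2) (l 2)) (l 9)) (l 9)) (l 9)))) (c (b (a (c (b (l 2) (l 2)) (b (a (l 2) (l 2)) (a (l 2) (l 9)))) (c (b (a (l 2) (l 2)) (a (c (l 2) (l 9)) (l 9))) (l 5))) (a (c (b (a (l 2) (l 9)) (l 9)) (l 9)) (l 9))) (l 5))) (a (c (b (a (c (b (l 2) (a (l 2) (l 9))) (l 9)) (l 9)) (l 9)) (l 9)) (l 9))) (b (a (c (b (a (c (b (a (l 2) (l 5)) (l 9)) (l 5)) (l 5)) (l 9)) (l 5)) (l 5)) (l 9))) (l 5)), by decide +kernel⟩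

def h13_0Ap : ∃ t, chk3 f0Ap t 104 1 4 = true :=
  ⟨(a (c (b (a (l 2) (c (l 2) (l 2))) (a (c (l 2) (l 2)) (c (l 2) (l 2)))) (b (a (c (l 2) (l 2)) (c (l 2) (l 2))) (a (c (l 2) (b (l 2) (l 2))) (c (b (l 2) (l 2)) (b (l 2) (l 2)))))) (c (b (a (c (l 2) (l 2)) (c (l 2) (l 2))) (a (c (l 2) (b (l 2) (l 2))) (c (b (l 2) (l 2)) (b (l 2) (l 2))))) (b (a (c (l 2) (b (l 2) (l 2))) (c (b (l 2) (l 2)) (b (l 2) (a (l 2) (l 2))))) (a (c (b (l 2) (l 2)) (b (a (l 2) (l 2)) (a (l 2) (c (l 2) (l 2))))) (c (b (a (l 2) (l 2)) (a (l 2) (c (l 2) (b (l 2) (l 2))))) (b (a (c (l 2) (l 2)) (c (l 2) (b (l 2) (a (l 2) (l 9))))) (a (c (l 2) (b (l 2) (a (l 2) (l 9)))) (c (b (l 2) (l 9)) (l 9))))))))), by decide +kernel⟩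

def h14_0Ap : ∃ t, chk3 f0Ap t 208 1 10 = true :=
  ⟨(b (a (c (l 2) (b (l 2) (l 2))) (c (b (l 2) (l 2)) (b (l 2) (a (l 2) (l 2))))) (a (c (b (l 2) (l 2)) (b (a (l 2) (l 2)) (a (l 2) (c (l 2) (l 2))))) (c (b (a (l 2) (l 2)) (a (l 2) (c (l 2) (l 2)))) (b (a (l 2) (c (l 2) (b (l 2) (l 2)))) (a (c (l 2) (b (l 2) (a (l 2) (l 9)))) (c (b (l 2) (a (l 2) (l 9))) (b (a (l 2) (l 9)) (l 9)))))))), by decide +kernel⟩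

def h15_0Ap : ∃ t, chk3 f0Ap t 208 1 11 = true :=
  ⟨(b (a (c (b (l 2) (a (l 2) (l 2))) (b (a (l 2) (l 2)) (a (c (l 2) (l 2)) (c (l 2) (b (l 2) (a (l 2) (l 2))))))) (c (b (a (l 2) (c (l 2) (l 2))) (a (c (l 2) (l 2)) (c (l 2) (b (l 2) (a (l 2) (c (l 2) (l 9))))))) (b (a (c (l 2) (b (l 2) (l 2))) (c (b (l 2) (l 2)) (b (a (l 2) (l 2)) (a (c (l 2) (l 9)) (l 9))))) (a (c (b (l 2) (a (l 2) (l 2))) (b (a (l 2) (l 9)) (l 9))) (c (b (a (l 2) (l 9)) (l 9)) (l 9)))))) (a (c (b (a (l 2) (c (l 2) (l 2))) (a (c (l 2) (b (l 2) (a (l 2) (l 2)))) (c (b (l 2) (a (l 2) (l 2))) (b (a (l 2) (l 9)) (l 9))))) (b (a (c (l 2) (b (l 2) (a (l 2) (l 9)))) (c (b (l 2) (a (l 2) (l 9))) (b (a (c (l 2) (l 9)) (l 9)) (l 9)))) (a (c (b (a (l 2) (l 9)) (l 9)) (l 9)) (l 9)))) (c (b (a (c (b (l 2) (l 2)) (b (l 2) (a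 (l 2) (l 9)))) (c (b (a (l 2) (l 2)) (l 9)) (l 9))) (a (c (b (a (l 2) (l 9)) (l 9)) (l 9)) (l 9))) (l 9)))), by decide +kernel⟩

def h16_0Ap : ∃ t, chk3 f0Ap t 209 1 10 = true :=
  ⟨(b (a (c (b (l 2) (a (l 2) (l 2))) (b (a (l 2) (c (l 2) (l 2))) (a (c (l 2) (l 2)) (c (l 2) (b (l 2) (a (l 2) (l 9))))))) (c (b (a (l 2) (c (l 2) (l 2))) (a (c (l 2) (b (l 2) (l 2))) (c (b (l 2) (l 2)) (b (a (l 2) (l 2)) (a (l 2) (l 9)))))) (b (a (c (l 2) (b (l 2) (a (l 2) (l 2)))) (c (b (l 2) (a (l 2) (l 2))) (b (a (l 2) (c (l 2) (l 5))) (l 9)))) (a (c (b (l 2) (a (l 2) (l 9))) (b (a (c (l 2) (l 9)) (l 9)) (l 9))) (l 9))))) (a (c (b (a (c (l 2) (l 2)) (c (l 2) (b (l 2) (a (l 2) (l 2))))) (a (c (l 2) (b (l 2) (a (l 2) (l 9)))) (c (b (l 2) (a (l 2) (l 9))) (l 9)))) (b (a (c (b (l 2) (l 2)) (b (a (l 2) (l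 2)) (l 9))) (c (b (a (l 2) (c (l 2) (l 9))) (l 9)) (l 9))) (a (c (b (a (l 2) (l 9)) (l 9)) (l 9)) (l 9)))) (c (b (a (c (b (l 2) (a (l 2) (l 2))) (b (a (l 2) (l 9)) (l 9))) (c (b (a (l 2) (l 9)) (l 9)) (l 9))) (l 9)) (l 9)))), by decide +kernel⟩

def h17_0Ap : ∃ t, chk3 f0Ap t 209 1 11 = true :=
  ⟨(b (a (c (b (a (c (l 2) (b (l 2) (l 2))) (c (b (l 2) (a (l 2) (l 2))) (b (a (l 2) (c (l 2) (l 5))) (l 9)))) (a (c (b (l 2) (a (l 2) (l 9))) (b (a (l 2) (l 9)) (l 9))) (c (b (a (l 2) (l 9)) (l 9)) (l 9)))) (b (a (c (b (a (l 2) (l 2)) (a (c (l 2) (l 9)) (l 9))) (l 5)) (l 5)) (l 9))) (c (b (a (c (b (a (l 2) (c (l 2) (l 5))) (l 9)) (l 5)) (l 5)) (l 9)) (l 5))) (l 9)), by decide +kernel⟩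

def h18_0Ap : ∃ t, chk3 f0Ap t 210 1 8 = true :=
  ⟨(b (a (c (l 2) (b (l 2) (l 2))) (c (b (l 2) (l 2)) (b (a (l 2) (l 2)) (a (l 2) (c (l 2) (l 2)))))) (a (c (b (l 2) (a (l 2) (l 2))) (b (a (l 2) (l 2)) (a (l 2) (c (l 2) (b (l 2) (l 2)))))) (c (b (a (l 2) (l 2)) (a (c (l 2) (l 2)) (c (l 2) (b (l 2) (a (l 2) (l 9)))))) (b (a (c (l 2) (l 2)) (c (l 2) (b (l 2) (a (l 2) (l 9))))) (a (c (b (l 2) (l 2)) (b (a (l 2) (l 9)) (l 9))) (c (b (a (l 2) (l 9)) (l 9)) (l 9))))))), by decide +kernel⟩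

def h19_0Ap : ∃ t, chk3 f0Ap t 210 1 9 = true :=
  ⟨(b (a (c (b (a (l 2) (l 2)) (a (l 2) (c (l 2) (l 2)))) (b (a (l 2) (c (l 2) (l 2))) (a (c (l 2) (b (l 2) (l 2))) (c (b (l 2) (l 2)) (b (a (l 2) (l 2)) (l 9)))))) (c (b (a (l 2) (c (l 2) (b (l 2) (l 2)))) (a (c (l 2) (b (l 2) (a (l 2) (l 2)))) (c (b (l 2) (a (l 2) (l 2))) (b (a (l 2) (l 9)) (l 9))))) (b (a (c (l 2) (b (l 2) (a (l 2) (l 9)))) (c (b (l 2) (a (l 2) (l 9))) (b (a (c (l 2) (l 5)) (l 5)) (l 9)))) (a (c (b (a (l 2) (c (l 2) (l 9))) (l 9)) (l 9)) (l 9))))) (a (c (b (a (c (l 2) (l 2)) (c (l 2) (b (l 2) (a (l 2) (l 9))))) (a (c (b (l 2) (l 2)) (b (a (l 2) (l 2)) (l 9))) (c (b (a (l 2) (l 9)) (l 9)) (l 9)))) (b (a (c (b (l 2) (a (l 2) (l 9))) (b (a (l 2) (l 9)) (l 9))) (c (b (a (l 2) (l 9)) (l 9)) (l 9))) (l 9))) (c (b (a (c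 (b (l 2) (a (l 2) (l 9))) (b (a (l 2) (l 9)) (l 9))) (l 9)) (l 9)) (l 9)))), by decide +kernel⟩

def h20_0Ap : ∃ t, chk3 f0Ap t 211 1 8 = true :=
  ⟨(b (a (c (b (a (l 2) (l 2)) (a (l 2) (c (l 2) (l 2)))) (b (a (l 2) (c (l 2) (b (l 2) (l 2)))) (a (c (l 2) (b (l 2) (a (l 2) (l 2)))) (c (b (l 2) (a (l 2) (l 9))) (b (a (l 2) (l 9)) (l 9)))))) (c (b (a (c (l 2) (l 2)) (c (l 2) (b (l 2) (a (l 2) (l 2))))) (a (c (l 2) (b (l 2) (a (l 2) (l 9)))) (c (b (l 2) (a (l 2) (l 9))) (b (a (l 2) (l 9)) (l 9))))) (b (a (c (b (l 2) (l 2)) (b (a (l 2) (l 2)) (a (c (l 2) (l 9)) (l 9)))) (c (b (a (l 2) (c (l 2) (l 5))) (l 9)) (l 5))) (a (c (b (a (l 2) (l 9)) (l 9)) (l 9)) (l 9))))) (a (c (b (a (c (l 2) (b (l 2) (l 2))) (c (b (l 2) (l 2)) (b (a (l 2) (l 2)) (l 9)))) (a (c (b (l 2) (a (l 2) (l 9))) (b (a (l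 2) (l 9)) (l 9))) (c (b (a (l 2) (l 9)) (l 9)) (l 9)))) (b (a (c (b (l 2) (a (l 2) (l 9))) (l 9)) (l 9)) (l 9))) (c (b (a (c (b (a (l 2) (l 2)) (l 9)) (l 9)) (l 9)) (l 9)) (l 9)))), by decide +kernel⟩

def h21_0Ap : ∃ t, chk3 f0Ap t 211 1 9 = true :=
  ⟨(b (a (c (b (a (c (b (l 2) (l 2)) (b (a (l 2) (l 2)) (a (l 2) (l 9)))) (c (b (a (l 2) (l 2)) (a (c (l 2) (l 9)) (l 9))) (l 5))) (a (c (b (a (l 2) (l 9)) (l 9)) (l 9)) (l 9))) (b (a (c (b (a (c (l 2) (l 5)) (l 5)) (l 9)) (l 5)) (l 5)) (l 9))) (l 5)) (l 9)), by decide +kernel⟩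

def h22_0Ap : ∃ t, chk3 f0Ap t 105 1 5 = true :=
  ⟨(a (c (b (a (c (b (a (c (l 2) (b (l 2) (a (l 2) (c (l 2) (l 9))))) (c (b (l 2) (a (l 2) (c (l 2) (l 9)))) (b (a (l 2) (l 5)) (l 9)))) (a (c (b (a (l 2) (l 2)) (a (c (l 2) (l 9)) (l 9))) (l 9)) (l 9))) (b (a (c (b (a (l 2) (l 5)) (l 9)) (l 5)) (l 5)) (l 9))) (c (b (a (c (b (a (l 2) (l 5)) (l 9)) (l 5)) (l 5)) (l 9)) (l 5))) (l 9)) (l 5)) (l 5)), by decide +kernel⟩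

def h23_0Ap : ∃ t, chk3 f0Ap t 52 1 3 = true :=
  ⟨(a (c (a (c (b (a (c (b (a (c (l 2) (l 2)) (c (l 2) (b (l 2) (a (l 2) (l 9))))) (a (c (b (l 2) (a (l 2) (l 2))) (b (a (l 2) (l 2)) (l 9))) (c (b (a (l 2) (c (l 2) (l 9))) (l 9)) (l 9)))) (b (a (c (b (l 2) (a (l 2) (l 9))) (b (a (l 2) (l 5)) (l 9))) (c (b (a (c (l 2) (l 5)) (l 5)) (l 9)) (l 5))) (l 9))) (c (b (a (c (b (l 2) (a (l 2) (l 9))) (b (a (c (l 2) (l 5)) (l 5)) (l 9))) (c (b (a (c (l 2) (l 5)) (l 5)) (l 9)) (l 5))) (l 9)) (l 5))) (a (c (b (a (c (b (a (l 2) (l 9)) (l 9)) (l 9)) (l 9)) (l 9)) (l 9)) (l 9))) (l 5)) (l 5)) (l 5)) (l 5)), by decide +kernel⟩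

def h24_0Ap : ∃ t, chk3 f0Ap t 53 1 1 = true :=
  ⟨(c (a (c (a (c (b (a (c (b (a (c (b (l 2) (a (l 2) (l 2))) (b (a (l 2) (c (l 2) (l 5))) (l 9))) (c (b (a (l 2) (l 5)) (l 9)) (l 5))) (a (c (b (a (c (l 2) (l 9)) (l 9)) (l 9)) (l 9)) (l 9))) (l 5)) (l 5)) (l 9)) (l 5)) (l 5)) (l 5)) (l 5)) (l 5)), by decide +kernel⟩

def h25_0Ap : ∃ t, chk3 f0Ap t 27 1 1 = true :=
  ⟨(l 5), by decide +kernel⟩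

def h26_0Ap : ∃ t, chk3 f0Ap t 7 1 1 = true :=
  ⟨(l 5), by decide +kernel⟩

theorem h27_0Ap : ∃ t, chk3 f0Ap t 211 1 4 = true := ex3_c h20_0Ap h21_0Ap

theorem h28_0Ap : ∃ t, chk3 f0Ap t 210 1 4 = true := ex3_c h18_0Ap h19_0Ap

theorem h29_0Ap : ∃ t, chk3 f0Ap t 105 1 4 = true := ex3_a h28_0Ap h27_0Ap

theorem h30_0Ap : ∃ t, chk3 f0Ap t 105 1 2 = true := ex3_c h29_0Ap h22_0Ap

theorem h31_0Ap : ∃ t, chk3 f0Ap t 209 1 5 = true := ex3_c h16_0Ap h17_0Ap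

theorem h32_0Ap : ∃ t, chk3 f0Ap t 208 1 5 = true := ex3_c h14_0Ap h15_0Ap

theorem h33_0Ap : ∃ t, chk3 f0Ap t 104 1 5 = true := ex3_a h32_0Ap h31_0Ap

theorem h34_0Ap : ∃ t, chk3 f0Ap t 104 1 2 = true := ex3_c h13_0Ap h33_0Ap

theorem h35_0Ap : ∃ t, chk3 f0Ap t 52 1 2 = true := ex3_a h34_0Ap h30_0Ap

theorem h36_0Ap : ∃ t, chk3 f0Ap t 52 1 1 = true := ex3_c h35_0Ap h23_0Ap

theorem h37_0Ap : ∃ t, chk3 f0Ap t 26 1 1 = true := ex3_a h36_0Ap h24_0Ap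

theorem h38_0Ap : ∃ t, chk3 f0Ap t 13 1 1 = true := ex3_a h37_0Ap h25_0Ap

theorem h39_0Ap : ∃ t, chk3 f0Ap t 207 1 6 = true := ex3_c h10_0Ap h11_0Ap

theorem h40_0Ap : ∃ t, chk3 f0Ap t 103 1 6 = true := ex3_a h9_0Ap h39_0Ap

theorem h41_0Ap : ∃ t, chk3 f0Ap t 103 1 3 = true := ex3_c h40_0Ap h12_0Ap

theorem h42_0Ap : ∃ t, chk3 f0Ap t 205 1 7 = true := ex3_c h7_0Ap h8_0Ap

theorem h43_0Ap : ∃ t, chk3 f0Ap t 102 1 7 = true := ex3_a h6_0Ap h42_0Ap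

theorem h44_0Ap : ∃ t, chk3 f0Ap t 102 1 3 = true := ex3_c h5_0Ap h43_0Ap

theorem h45_0Ap : ∃ t, chk3 f0Ap t 51 1 3 = true := ex3_a h44_0Ap h41_0Ap

theorem h46_0Ap : ∃ t, chk3 f0Ap t 51 1 1 = true := ex3_c h4_0Ap h45_0Ap

theorem h47_0Ap : ∃ t, chk3 f0Ap t 50 1 1 = true := ex3_c h2_0Ap h3_0Ap

theorem h48_0Ap : ∃ t, chk3 f0Ap t 25 1 1 = true := ex3_a h47_0Ap h46_0Ap

theorem h49_0Ap : ∃ t, chk3 f0Ap t 12 1 1 = true := ex3_a h1_0Ap h48_0Ap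

theorem h50_0Ap : ∃ t, chk3 f0Ap t 6 1 1 = true := ex3_a h49_0Ap h38_0Ap

theorem h51_0Ap : ∃ t, chk3 f0Ap t 3 1 1 = true := ex3_a h50_0Ap h26_0Ap

theorem h52_0Ap : ∃ t, chk3 f0Ap t 1 1 1 = true := ex3_a h0_0Ap h51_0Ap

theorem ct_0Ap : ∃ t, chk3 f0Ap t 1 1 1 = true := h52_0Ap

noncomputable def f0Apk1 : ℕ → ℕ → ℕ → ℕ → Bool :=
  onCell 0 92274688 0 1048576 1040187392 5207648 (c0_Apk1.row false 46137344)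

def h0_0Apk1 : ∃ t, chk3 f0Apk1 t 1 1 1 = true :=
  ⟨(a (a (l 7) (a (l 7) (a (a (l 16) (c (l 8) (l 8))) (a (c (l 8) (l 8)) (c (l 10) (l 10)))))) (a (a (a (a (c (l 10) (a (l 10) (l 2))) (c (l 2) (a (l 2) (l 2)))) (a (c (a (l 2) (l 2)) (a (l 2) (l 2))) (c (a (l 2) (c (l 2) (l 2))) (a (c (l 2) (l 2)) (c (l 2) (l 2)))))) (a (a (c (a (c (l 2) (l 2)) (c (l 2) (l 2))) (a (c (l 2) (l 5)) (l 5))) (c (a (c (l 2) (l 5)) (l 5)) (l 5))) (l 5))) (l 5))), by decide +kernel⟩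

theorem ct_0Apk1 : ∃ t, chk3 f0Apk1 t 1 1 1 = true := h0_0Apk1

noncomputable def f0Apk2 : ℕ → ℕ → ℕ → ℕ → Bool :=
  onCell 0 92274688 0 1048576 1040187392 5207648 (c0_Apk2.row false 46137344)

def h0_0Apk2 : ∃ t, chk3 f0Apk2 t 1 1 1 = true :=
  ⟨(a (a (l 7) (a (l 7) (a (l 8) (a (l 8) (l 10))))) (a (a (a (a (l 10) (c (l 2) (l 2))) (a (c (l 2) (l 2)) (c (l 2) (a (l 2) (l 2))))) (a (a (c (a (l 2) (l 2)) (a (l 2) (l 5))) (c (a (l 2) (l 5)) (l 5))) (l 5))) (l 5))), by decide +kernel⟩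

theorem ct_0Apk2 : ∃ t, chk3 f0Apk2 t 1 1 1 = true := h0_0Apk2

noncomputable def f0Am : ℕ → ℕ → ℕ → ℕ → Bool :=
  onCell 0 92274688 0 1048576 1040187392 5207648 (c0_Am.row true 46137344)

def h0_0Am : ∃ t, chk3 f0Am t 2 1 1 = true :=
  ⟨(a (l 7) (a (l 7) (a (a (l 8) (c (l 8) (l 8))) (a (c (l 8) (l 8)) (c (a (l 8) (c (l 10) (a (l 8) (l 10)))) (a (l 8) (a (l 8) (c (l 10) (l 10))))))))), by decide +kernel⟩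

def h1_0Am : ∃ t, chk3 f0Am t 24 1 1 = true :=
  ⟨(a (c (a (c (a (a (l 10) (b (b (l 2) (l 18)) (l 10))) (b (l 2) (c (l 18) (l 18)))) (a (a (l 10) (c (b (c (l 10) (l 10)) (l 10)) (b (b (l 2) (l 10)) (l 10)))) (b (l 2) (a (c (l 18) (l 18)) (l 2))))) (c (a (l 2) (l 2)) (a (l 2) (l 2)))) (a (c (a (c (b (a (l 10) (b (l 2) (l 10))) (l 10)) (a (l 10) (b (b (l 2) (l 18)) (l 10)))) (b (l 2) (a (c (l 18) (l 18)) (l 2)))) (a (c (a (l 10) (b (b (l 2) (l 18)) (l 10))) (a (l 10) (b (b (l 2) (l 18)) (c (l 10) (l 10))))) (b (l 2) (a (c (l 18) (l 18)) (l 2))))) (c (a (l 2) (l 2)) (a (l 2) (l 2))))) (c (a (c (a (l 2) (l 2)) (a (l 2) (l 2))) (c (a (l 2) (l 2)) (a (l 2) (c (l 2) (l 2))))) (a (c (a (l 2) (l 2)) (a (c (l 2) (l 2)) (c (l 2) (l 2)))) (c (a (c (l 2) (l 2)) (c (l 2) (l 2))) (a (c (l 2) (l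 2)) (c (l 2) (l 2))))))), by decide +kernel⟩

def h2_0Am : ∃ t, chk3 f0Am t 25 1 1 = true :=
  ⟨(a (c (a (c (a (l 2) (c (l 2) (l 2))) (a (c (l 2) (l 2)) (c (l 2) (l 2)))) (c (a (c (l 2) (l 2)) (c (l 2) (l 2))) (a (c (l 2) (l 2)) (c (l 2) (l 2))))) (a (c (a (c (l 2) (l 2)) (c (l 2) (l 2))) (a (c (l 2) (l 2)) (c (l 2) (l 2)))) (c (a (c (l 2) (l 2)) (c (l 2) (l 2))) (a (c (l 2) (l 2)) (c (l 2) (l 2)))))) (c (a (c (a (c (l 2) (l 2)) (c (l 2) (l 2))) (a (c (l 2) (l 2)) (c (l 2) (l 2)))) (c (a (c (l 2) (l 2)) (c (l 2) (l 2))) (a (c (l 2) (l 2)) (c (l 2) (l 2))))) (a (c (a (c (l 2) (l 2)) (c (l 2) (l 2))) (a (c (l 2) (l 2)) (c (b (l 2) (l 2)) (b (l 2) (l 2))))) (c (a (c (l 2) (b (l 2) (l 2))) (c (b (l 2) (l 2)) (b (l 2) (l 2)))) (a (c (b (l 2) (l 2)) (b (l 2) (l 2))) (l 5)))))), by decide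 +kernel⟩

def h3_0Am : ∃ t, chk3 f0Am t 13 1 1 = true :=
  ⟨(a (a (c (a (c (a (c (l 2) (l 2)) (c (l 2) (b (l 2) (l 2)))) (a (c (l 2) (b (l 2) (l 2))) (c (b (l 2) (l 2)) (b (l 2) (l 2))))) (c (a (c (b (l 2) (l 2)) (b (l 2) (l 2))) (c (b (l 2) (l 2)) (b (l 2) (l 2)))) (a (c (b (l 2) (l 2)) (l 5)) (l 5)))) (a (c (a (c (b (l 2) (l 2)) (l 5)) (l 5)) (l 5)) (l 5))) (c (a (c (a (c (b (l 2) (l 2)) (l 5)) (l 5)) (l 5)) (l 5)) (l 5))) (l 5)), by decide +kernel⟩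

def h4_0Am : ∃ t, chk3 f0Am t 7 1 1 = true :=
  ⟨(l 5), by decide +kernel⟩

theorem h5_0Am : ∃ t, chk3 f0Am t 12 1 1 = true := ex3_a h1_0Am h2_0Am

theorem h6_0Am : ∃ t, chk3 f0Am t 6 1 1 = true := ex3_a h5_0Am h3_0Am

theorem h7_0Am : ∃ t, chk3 f0Am t 3 1 1 = true := ex3_a h6_0Am h4_0Am

theorem h8_0Am : ∃ t, chk3 f0Am t 1 1 1 = true := ex3_a h0_0Am h7_0Am

theorem ct_0Am : ∃ t, chk3 f0Am t 1 1 1 = true := h8_0Am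

noncomputable def f0Bp : ℕ → ℕ → ℕ → ℕ → Bool :=
  onCell 0 92274688 0 1048576 1040187392 5207648 (c0_Bp.row false 46137344)

def h0_0Bp : ∃ t, chk3 f0Bp t 2 1 1 = true :=
  ⟨(a (l 7) (a (l 7) (a (a (c (l 7) (l 16)) (c (a (l 7) (l 8)) (a (l 16) (l 16)))) (a (c (a (c (l 8) (l 8)) (c (l 8) (l 8))) (a (c (l 8) (l 8)) (c (l 8) (a (l 8) (l 8))))) (c (a (c (a (l 8) (l 8)) (a (l 8) (l 8))) (c (a (c (l 8) (l 8)) (b (c (l 10) (l 10)) (l 8))) (a (c (l 8) (l 8)) (c (b (l 10) (l 8)) (b (l 10) (l 8)))))) (a (c (a (l 8) (l 8)) (a (l 8) (l 8))) (c (a (c (l 8) (l 8)) (c (b (l 10) (l 8)) (b (l 10) (l 8)))) (a (c (l 8) (l 8)) (c (b (l 10) (l 8)) (b (l 10) (l 8))))))))))), by decide +kernel⟩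

def h1_0Bp : ∃ t, chk3 f0Bp t 48 1 2 = true :=
  ⟨(a (c (a (c (b (a (l 10) (c (l 10) (l 10))) (a (l 8) (l 10))) (b (a (l 10) (c (l 10) (l 10))) (a (l 8) (l 10)))) (c (b (l 2) (a (c (l 18) (l 18)) (l 2))) (b (l 2) (a (c (l 18) (l 18)) (l 2))))) (a (c (b (a (l 10) (c (l 10) (l 10))) (a (l 8) (l 10))) (b (a (l 10) (c (l 10) (l 10))) (a (l 8) (l 10)))) (c (b (l 2) (a (c (l 18) (l 18)) (l 2))) (b (l 2) (a (c (l 18) (l 18)) (l 2)))))) (c (a (c (b (l 2) (l 2)) (b (l 2) (l 2))) (c (b (l 2) (l 2)) (b (l 2) (l 2)))) (a (c (b (l 2) (l 2)) (b (l 2) (l 2))) (c (b (l 2) (l 2)) (b (l 2) (l 2)))))), by decide +kernel⟩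

def h2_0Bp : ∃ t, chk3 f0Bp t 48 1 3 = true :=
  ⟨(a (c (a (c (b (a (l 10) (b (l 2) (l 10))) (a (l 8) (c (l 10) (l 10)))) (b (a (l 10) (b (l 2) (l 10))) (a (l 8) (c (l 10) (l 10))))) (c (b (l 2) (a (b (l 18) (l 18)) (l 2))) (b (l 2) (a (b (l 18) (l 18)) (l 2))))) (a (c (b (a (l 10) (b (l 2) (l 10))) (a (l 8) (c (l 10) (l 10)))) (b (a (l 10) (b (l 2) (l 10))) (a (l 8) (c (l 10) (l 10))))) (c (b (l 2) (a (b (l 18) (l 18)) (l 2))) (b (l 2) (a (b (l 18) (l 18)) (l 2)))))) (c (a (c (b (l 2) (l 2)) (b (l 2) (l 2))) (c (b (l 2) (l 2)) (b (l 2) (l 2)))) (a (c (b (l 2) (l 2)) (b (l 2) (l 2))) (c (b (l 2) (l 2)) (b (l 2) (l 2)))))), by decide +kernel⟩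

def h3_0Bp : ∃ t, chk3 f0Bp t 49 1 1 = true :=
  ⟨(c (a (c (a (c (b (l 2) (l 2)) (b (l 2) (l 2))) (c (b (l 2) (l 2)) (b (l 2) (l 2)))) (a (c (b (l 2) (l 2)) (b (l 2) (l 2))) (c (b (l 2) (l 2)) (b (l 2) (l 2))))) (c (a (c (b (l 2) (l 2)) (b (l 2) (l 2))) (c (b (l 2) (l 2)) (b (l 2) (l 2)))) (a (c (b (l 2) (l 2)) (b (l 2) (l 2))) (c (b (l 2) (a (l 2) (l 2))) (b (a (l 2) (l 2)) (a (l 2) (l 2))))))) (a (c (a (c (b (l 2) (l 2)) (b (l 2) (l 2))) (c (b (l 2) (l 2)) (b (l 2) (a (l 2) (l 2))))) (a (c (b (l 2) (l 2)) (b (a (l 2) (l 2)) (a (l 2) (l 2)))) (c (b (a (l 2) (l 2)) (a (l 2) (l 2))) (b (a (l 2) (l 2)) (a (l 2) (l 2)))))) (c (a (c (b (a (l 2) (l 2)) (a (l 2) (l 2))) (b (a (l 2) (l 2)) (a (l 2) (l 2)))) (c (b (a (l 2) (l 2)) (a (l 2) (l 2))) (b (a (l 2) (l 2)) (a (l 2) (l 2))))) (a (c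 (b (a (l 2) (l 2)) (a (l 2) (l 2))) (b (a (l 2) (c (l 2) (l 2))) (a (l 2) (c (l 2) (l 2))))) (c (b (a (l 2) (c (l 2) (l 2))) (a (c (l 2) (l 2)) (c (l 2) (l 2)))) (b (a (c (l 2) (l 2)) (c (l 2) (l 2))) (a (c (l 2) (l 2)) (c (l 2) (l 2))))))))), by decide +kernel⟩

def h4_0Bp : ∃ t, chk3 f0Bp t 50 1 2 = true :=
  ⟨(a (c (a (c (b (l 2) (l 2)) (b (l 2) (a (l 2) (l 2)))) (c (b (l 2) (a (l 2) (l 2))) (b (a (l 2) (l 2)) (a (l 2) (l 2))))) (a (c (b (a (l 2) (l 2)) (a (l 2) (l 2))) (b (a (l 2) (l 2)) (a (l 2) (l 2)))) (c (b (a (l 2) (l 2)) (a (l 2) (l 2))) (b (a (l 2) (c (l 2) (l 2))) (a (l 2) (c (l 2) (l 2))))))) (c (a (c (b (a (l 2) (l 2)) (a (l 2) (l 2))) (b (a (l 2) (l 2)) (a (l 2) (l 2)))) (c (b (a (l 2) (l 2)) (a (l 2) (l 2))) (b (a (l 2) (c (l 2) (l 2))) (a (c (l 2) (l 2)) (c (l 2) (l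 2)))))) (a (c (b (a (l 2) (c (l 2) (l 2))) (a (l 2) (c (l 2) (l 2)))) (b (a (c (l 2) (l 2)) (c (l 2) (l 2))) (a (c (l 2) (l 2)) (c (l 2) (l 2))))) (c (b (a (c (l 2) (l 2)) (c (l 2) (l 2))) (a (c (l 2) (l 2)) (c (l 2) (l 2)))) (b (a (c (l 2) (l 2)) (c (l 2) (l 2))) (a (c (l 2) (l 2)) (c (l 2) (b (l 2) (l 2))))))))), by decide +kernel⟩

def h5_0Bp : ∃ t, chk3 f0Bp t 100 1 3 = true :=
  ⟨(c (a (c (b (a (l 2) (l 2)) (a (l 2) (c (l 2) (l 2)))) (b (a (c (l 2) (l 2)) (c (l 2) (l 2))) (a (c (l 2) (l 2)) (c (l 2) (l 2))))) (c (b (a (c (l 2) (l 2)) (c (l 2) (l 2))) (a (c (l 2) (l 2)) (c (l 2) (l 2)))) (b (a (c (l 2) (l 2)) (c (l 2) (l 2))) (a (c (l 2) (l 2)) (c (l 2) (l 2)))))) (a (c (b (a (c (l 2) (l 2)) (c (l 2) (l 2))) (a (c (l 2) (l 2)) (c (l 2) (l 2)))) (b (a (c (l 2) (l 2)) (c (l 2) (l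 2))) (a (c (l 2) (l 2)) (c (l 2) (b (l 2) (l 2)))))) (c (b (a (c (l 2) (l 2)) (c (l 2) (b (l 2) (l 2)))) (a (c (l 2) (l 2)) (c (b (l 2) (l 2)) (b (l 2) (l 2))))) (b (a (c (l 2) (b (l 2) (l 2))) (c (b (l 2) (l 2)) (b (l 2) (l 2)))) (a (c (b (l 2) (l 2)) (b (l 2) (l 2))) (c (b (l 2) (l 2)) (b (l 2) (l 2)))))))), by decide +kernel⟩

def h6_0Bp : ∃ t, chk3 f0Bp t 101 1 6 = true :=
  ⟨(a (c (b (a (c (l 2) (l 2)) (c (l 2) (l 2))) (a (c (l 2) (l 2)) (c (l 2) (l 2)))) (b (a (c (l 2) (l 2)) (c (l 2) (b (l 2) (l 2)))) (a (c (l 2) (b (l 2) (l 2))) (c (b (l 2) (l 2)) (b (l 2) (l 2)))))) (c (b (a (c (l 2) (b (l 2) (l 2))) (c (b (l 2) (l 2)) (b (l 2) (l 2)))) (a (c (l 2) (b (l 2) (l 2))) (c (b (l 2) (l 2)) (b (l 2) (l 2))))) (b (a (c (b (l 2) (l 2)) (b (l 2) (l 2))) (c (b (l 2) (l 2)) (b (l 2) (l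 2)))) (a (c (b (l 2) (l 2)) (b (l 2) (l 2))) (c (b (l 2) (l 2)) (b (l 2) (l 2))))))), by decide +kernel⟩

def h7_0Bp : ∃ t, chk3 f0Bp t 101 1 7 = true :=
  ⟨(a (c (b (a (c (b (l 2) (l 2)) (b (l 2) (l 2))) (c (b (l 2) (l 2)) (b (l 2) (l 2)))) (a (c (b (l 2) (l 2)) (b (l 2) (l 2))) (c (b (l 2) (l 2)) (b (l 2) (l 2))))) (b (a (c (b (l 2) (l 2)) (b (l 2) (l 2))) (c (b (l 2) (l 2)) (b (l 2) (l 2)))) (a (c (b (l 2) (l 2)) (b (l 2) (l 2))) (c (b (l 2) (l 2)) (b (l 2) (l 2)))))) (c (b (a (c (b (l 2) (l 2)) (b (l 2) (l 2))) (c (b (l 2) (l 2)) (b (l 2) (l 2)))) (a (c (b (l 2) (l 2)) (b (l 2) (l 2))) (c (b (l 2) (l 2)) (b (l 2) (l 2))))) (b (a (c (b (l 2) (l 2)) (b (l 2) (l 2))) (c (b (l 2) (l 2)) (b (l 2) (l 2)))) (a (c (b (l 2) (l 2)) (b (l 2) (l 2))) (c (b (l 2) (a (l 2) (l 2))) (b (l 2) (a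 (l 2) (l 2)))))))), by decide +kernel⟩

def h8_0Bp : ∃ t, chk3 f0Bp t 102 1 2 = true :=
  ⟨(c (a (c (b (a (c (l 2) (l 2)) (c (l 2) (l 2))) (a (c (l 2) (l 2)) (c (l 2) (l 2)))) (b (a (c (l 2) (l 2)) (c (l 2) (l 2))) (a (c (l 2) (l 2)) (c (l 2) (l 2))))) (c (b (a (c (l 2) (l 2)) (c (l 2) (l 2))) (a (c (l 2) (l 2)) (c (l 2) (l 2)))) (b (a (c (l 2) (l 2)) (c (l 2) (b (l 2) (l 2)))) (a (c (l 2) (l 2)) (c (l 2) (b (l 2) (l 2))))))) (a (c (b (a (c (l 2) (l 2)) (c (l 2) (l 2))) (a (c (l 2) (l 2)) (c (l 2) (b (l 2) (l 2))))) (b (a (c (l 2) (b (l 2) (l 2))) (c (b (l 2) (l 2)) (b (l 2) (l 2)))) (a (c (b (l 2) (l 2)) (b (l 2) (l 2))) (c (b (l 2) (l 2)) (b (l 2) (l 2)))))) (c (b (a (c (b (l 2) (l 2)) (b (l 2) (l 2))) (c (b (l 2) (l 2)) (b (l 2) (l 2)))) (a (c (b (l 2) (l 2)) (b (l 2) (l 2))) (c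 (b (l 2) (l 2)) (b (l 2) (l 2))))) (b (a (c (b (l 2) (l 2)) (b (l 2) (l 2))) (c (b (l 2) (l 2)) (b (l 2) (l 2)))) (a (c (b (l 2) (l 2)) (b (l 2) (l 2))) (c (b (l 2) (l 2)) (b (l 2) (l 2)))))))), by decide +kernel⟩

def h9_0Bp : ∃ t, chk3 f0Bp t 103 1 4 = true :=
  ⟨(a (c (b (a (c (l 2) (l 2)) (c (l 2) (b (l 2) (l 2)))) (a (c (l 2) (l 2)) (c (b (l 2) (l 2)) (b (l 2) (l 2))))) (b (a (c (b (l 2) (l 2)) (b (l 2) (l 2))) (c (b (l 2) (l 2)) (b (l 2) (l 2)))) (a (c (b (l 2) (l 2)) (b (l 2) (l 2))) (c (b (l 2) (l 2)) (b (l 2) (l 2)))))) (c (b (a (c (b (l 2) (l 2)) (b (l 2) (l 2))) (c (b (l 2) (l 2)) (b (l 2) (l 2)))) (a (c (b (l 2) (l 2)) (b (l 2) (l 2))) (c (b (l 2) (l 2)) (b (l 2) (l 2))))) (b (a (c (b (l 2) (l 2)) (b (l 2) (l 2))) (c (b (l 2) (l 2)) (b (l 2) (l 2)))) (a (c (b (l 2) (l 2))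 (b (l 2) (l 2))) (c (b (l 2) (l 2)) (b (l 2) (a (l 2) (l 2)))))))), by decide +kernel⟩

def h10_0Bp : ∃ t, chk3 f0Bp t 103 1 5 = true :=
  ⟨(a (c (b (a (c (b (l 2) (l 2)) (b (l 2) (l 2))) (c (b (l 2) (l 2)) (b (l 2) (l 2)))) (a (c (b (l 2) (l 2)) (b (l 2) (l 2))) (c (b (l 2) (l 2)) (b (l 2) (l 2))))) (b (a (c (b (l 2) (l 2)) (b (l 2) (l 2))) (c (b (l 2) (l 2)) (b (l 2) (l 2)))) (a (c (b (l 2) (l 2)) (b (l 2) (a (l 2) (l 2)))) (c (b (l 2) (a (l 2) (l 2))) (b (a (l 2) (l 2)) (a (l 2) (l 2))))))) (b (c (a (c (b (l 2) (l 2)) (b (l 2) (l 2))) (c (b (l 2) (l 2)) (b (l 2) (a (l 2) (l 2))))) (a (c (b (l 2) (l 2)) (b (l 2) (a (l 2) (l 2)))) (c (b (l 2) (a (l 2) (l 2))) (b (a (l 2) (l 2)) (a (l 2) (l 2)))))) (c (a (c (b (l 2) (l 2)) (b (l 2) (a (l 2) (l 2)))) (c (b (a (l 2) (l 2)) (a (l 2) (l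 2))) (b (a (l 2) (l 2)) (a (l 2) (l 2))))) (a (c (b (a (l 2) (l 2)) (a (l 2) (l 2))) (b (a (l 2) (l 2)) (a (l 2) (l 2)))) (c (b (a (l 2) (l 2)) (a (l 2) (l 2))) (b (a (l 2) (l 2)) (a (l 2) (l 2)))))))), by decide +kernel⟩

def h11_0Bp : ∃ t, chk3 f0Bp t 102 1 6 = true :=
  ⟨(a (c (b (a (c (b (l 2) (l 2)) (b (l 2) (l 2))) (c (b (l 2) (l 2)) (b (l 2) (l 2)))) (a (c (b (l 2) (l 2)) (b (l 2) (l 2))) (c (b (l 2) (l 2)) (b (l 2) (l 2))))) (b (a (c (b (l 2) (l 2)) (b (l 2) (l 2))) (c (b (l 2) (l 2)) (b (l 2) (l 2)))) (a (c (b (l 2) (l 2)) (b (l 2) (l 2))) (c (b (l 2) (l 2)) (b (l 2) (a (l 2) (l 2))))))) (c (b (a (c (b (l 2) (l 2)) (b (l 2) (l 2))) (c (b (l 2) (l 2)) (b (l 2) (l 2)))) (a (c (b (l 2) (l 2)) (b (l 2) (l 2))) (c (b (l 2) (l 2)) (b (l 2) (a (l 2) (l 2)))))) (b (a (c (b (l 2) (l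 2)) (b (l 2) (l 2))) (c (b (l 2) (l 2)) (b (l 2) (l 2)))) (a (c (b (l 2) (a (l 2) (l 2))) (b (a (l 2) (l 2)) (a (l 2) (l 2)))) (c (b (a (l 2) (l 2)) (a (l 2) (l 2))) (b (a (l 2) (l 2)) (a (l 2) (l 2)))))))), by decide +kernel⟩

def h12_0Bp : ∃ t, chk3 f0Bp t 102 1 7 = true :=
  ⟨(a (c (b (a (c (b (l 2) (l 2)) (b (l 2) (l 2))) (c (b (l 2) (l 2)) (b (l 2) (l 2)))) (a (c (b (l 2) (l 2)) (b (l 2) (a (l 2) (l 2)))) (c (b (l 2) (a (l 2) (l 2))) (b (a (l 2) (l 2)) (a (l 2) (l 2)))))) (b (a (c (b (l 2) (l 2)) (b (l 2) (l 2))) (c (b (l 2) (l 2)) (b (l 2) (l 2)))) (a (c (b (l 2) (a (l 2) (l 2))) (b (a (l 2) (l 2)) (a (l 2) (l 2)))) (c (b (a (l 2) (l 2)) (a (l 2) (l 2))) (b (a (l 2) (l 2)) (a (l 2) (l 2))))))) (b (c (a (c (b (l 2) (l 2)) (b (l 2) (l 2))) (c (b (l 2) (a (l 2) (l 2))) (b (l 2)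 (a (l 2) (l 2))))) (a (c (b (l 2) (a (l 2) (l 2))) (b (l 2) (a (l 2) (l 2)))) (c (b (l 2) (a (l 2) (l 2))) (b (l 2) (a (l 2) (l 5)))))) (c (a (c (b (a (l 2) (l 2)) (a (l 2) (l 2))) (b (a (l 2) (l 2)) (a (l 2) (l 2)))) (c (b (a (l 2) (l 2)) (a (l 2) (l 2))) (b (a (l 2) (l 2)) (a (l 2) (l 2))))) (a (c (b (a (l 2) (l 2)) (a (l 2) (l 2))) (b (a (l 2) (l 2)) (a (l 2) (l 2)))) (c (b (a (l 2) (l 2)) (a (l 2) (l 2))) (a (b (l 2) (l 2)) (l 5))))))), by decide +kernel⟩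

def h13_0Bp : ∃ t, chk3 f0Bp t 206 1 6 = true :=
  ⟨(b (c (a (c (b (l 2) (l 2)) (b (l 2) (l 2))) (c (b (l 2) (a (l 2) (l 2))) (b (l 2) (a (l 2) (l 2))))) (a (c (b (l 2) (a (l 2) (l 2))) (b (l 2) (a (l 2) (l 2)))) (c (b (l 2) (a (l 2) (l 2))) (b (a (l 2) (l 2)) (a (l 2) (l 2)))))) (c (a (c (b (a (l 2) (l 2)) (a (l 2) (l 2))) (b (a (l 2) (l 2)) (a (l 2) (l 2)))) (c (b (a (l 2) (l 2)) (a (l 2) (l 2))) (b (a (l 2) (l 2)) (a (l 2) (l 2))))) (a (c (b (a (l 2) (l 2)) (a (l 2) (l 2))) (b (a (l 2) (l 2)) (a (l 2) (l 2)))) (c (b (a (l 2) (l 2)) (a (l 2) (l 2))) (b (a (l 2) (l 2)) (a (l 2) (l 2))))))), by decide +kernel⟩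

def h14_0Bp : ∃ t, chk3 f0Bp t 207 1 6 = true :=
  ⟨(b (c (a (c (b (l 2) (a (l 2) (l 2))) (b (a (l 2) (l 2)) (a (l 2) (l 2)))) (c (b (a (l 2) (l 2)) (a (l 2) (l 2))) (b (a (l 2) (l 2)) (a (l 2) (l 2))))) (a (c (b (a (l 2) (l 2)) (a (l 2) (l 2))) (b (a (l 2) (l 2)) (a (l 2) (l 2)))) (c (b (a (l 2) (l 2)) (a (l 2) (l 2))) (l 5)))) (c (a (c (b (a (l 2) (l 2)) (a (l 2) (l 2))) (b (a (l 2) (l 2)) (a (l 2) (l 2)))) (c (b (a (l 2) (l 2)) (a (l 2) (l 2))) (b (a (l 2) (l 2)) (a (l 2) (l 2))))) (a (c (b (a (l 2) (l 2)) (a (l 2) (l 2))) (b (a (l 2) (l 2)) (a (l 2) (l 2)))) (c (b (a (l 2) (l 2)) (a (l 2) (l 2))) (l 5))))), by decide +kernel⟩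

def h15_0Bp : ∃ t, chk3 f0Bp t 103 1 7 = true :=
  ⟨(a (b (c (a (c (b (l 2) (a (l 2) (l 2))) (b (a (l 2) (l 2)) (a (l 2) (l 2)))) (c (b (a (l 2) (l 2)) (a (l 2) (l 2))) (l 5))) (a (c (a (b (l 2) (l 2)) (l 5)) (l 5)) (l 5))) (c (a (c (b (a (l 2) (l 2)) (a (l 2) (l 2))) (b (a (l 2) (l 2)) (a (l 2) (l 2)))) (c (b (a (l 2) (l 2)) (a (l 2) (l 2))) (l 5))) (a (c (a (b (l 2) (l 2)) (l 5)) (l 5)) (l 5)))) (l 5)), by decide +kernel⟩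

def h16_0Bp : ∃ t, chk3 f0Bp t 104 1 4 = true :=
  ⟨(a (c (b (a (c (b (l 2) (l 2)) (b (l 2) (l 2))) (c (b (l 2) (l 2)) (b (l 2) (l 2)))) (a (c (b (l 2) (l 2)) (b (l 2) (l 2))) (c (b (l 2) (l 2)) (b (l 2) (a (l 2) (l 2)))))) (b (a (c (b (l 2) (l 2)) (b (l 2) (l 2))) (c (b (l 2) (l 2)) (b (l 2) (a (l 2) (l 2))))) (a (c (b (l 2) (a (l 2) (l 2))) (b (a (l 2) (l 2)) (a (l 2) (l 2)))) (c (b (a (l 2) (l 2)) (a (l 2) (l 2))) (b (a (l 2) (l 2)) (a (l 2) (l 2))))))) (b (c (a (c (b (l 2) (l 2)) (b (l 2) (a (l 2) (l 2)))) (c (b (l 2) (a (l 2) (l 2))) (b (a (l 2) (l 2)) (a (l 2) (l 2))))) (a (c (b (l 2) (a (l 2) (l 2))) (b (a (l 2) (l 2)) (a (l 2) (l 2)))) (c (b (a (l 2) (l 2)) (a (l 2) (l 2))) (b (a (l 2) (l 2)) (a (l 2) (l 2)))))) (c (a (c (b (l 2) (a (l 2) (l 2))) (b (a (l 2) (l 2)) (a (l 2)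 (l 2)))) (c (b (a (l 2) (l 2)) (a (l 2) (l 2))) (b (a (l 2) (l 2)) (a (l 2) (l 2))))) (a (c (b (a (l 2) (l 2)) (a (l 2) (l 2))) (b (a (l 2) (l 2)) (a (l 2) (l 2)))) (c (b (a (l 2) (l 2)) (a (l 2) (l 2))) (b (a (l 2) (l 2)) (a (l 2) (l 2)))))))), by decide +kernel⟩

def h17_0Bp : ∃ t, chk3 f0Bp t 208 1 5 = true :=
  ⟨(b (c (a (c (b (l 2) (a (l 2) (l 2))) (b (l 2) (a (l 2) (l 2)))) (c (b (a (l 2) (l 2)) (a (l 2) (l 2))) (b (a (l 2) (l 2)) (a (l 2) (l 2))))) (a (c (b (a (l 2) (l 2)) (a (l 2) (l 2))) (b (a (l 2) (l 2)) (a (l 2) (l 2)))) (c (b (a (l 2) (l 2)) (a (l 2) (l 2))) (b (a (l 2) (l 2)) (a (l 2) (l 2)))))) (c (a (c (b (a (l 2) (l 2)) (a (l 2) (l 2))) (b (a (l 2) (l 2)) (a (l 2) (l 2)))) (c (b (a (l 2) (l 2)) (a (l 2) (l 2))) (b (a (l 2) (l 2)) (a (l 2) (l 2))))) (a (c (b (a (l 2)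 (l 2)) (a (l 2) (l 2))) (b (a (l 2) (l 2)) (a (l 2) (l 2)))) (c (b (a (l 2) (l 2)) (a (l 2) (l 2))) (b (a (l 2) (l 2)) (a (l 2) (l 2))))))), by decide +kernel⟩

def h18_0Bp : ∃ t, chk3 f0Bp t 209 1 5 = true :=
  ⟨(b (c (a (c (b (a (l 2) (l 2)) (a (l 2) (l 2))) (b (a (l 2) (l 2)) (a (l 2) (l 2)))) (c (b (a (l 2) (l 2)) (a (l 2) (l 2))) (b (a (l 2) (l 2)) (a (l 2) (l 2))))) (a (c (b (a (l 2) (l 2)) (a (l 2) (l 2))) (a (b (l 2) (l 2)) (l 5))) (c (a (b (l 2) (l 2)) (l 5)) (l 5)))) (c (a (c (b (a (l 2) (l 2)) (a (l 2) (l 2))) (b (a (l 2) (l 2)) (a (l 2) (l 2)))) (c (b (a (l 2) (l 2)) (a (l 2) (l 2))) (b (a (l 2) (l 2)) (a (l 2) (l 2))))) (a (c (b (a (l 2) (l 2)) (a (l 2) (l 2))) (a (b (l 2) (l 2)) (l 5))) (c (a (b (l 2) (l 2)) (l 5)) (l 5))))), by decide +kernel⟩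

def h19_0Bp : ∃ t, chk3 f0Bp t 210 1 4 = true :=
  ⟨(b (c (a (c (b (a (l 2) (l 2)) (a (l 2) (l 2))) (b (a (l 2) (l 2)) (a (l 2) (l 2)))) (c (b (a (l 2) (l 2)) (a (l 2) (l 2))) (b (a (l 2) (l 2)) (a (l 2) (l 2))))) (a (c (b (a (l 2) (l 2)) (a (l 2) (l 2))) (b (a (l 2) (l 2)) (a (l 2) (l 2)))) (c (b (a (l 2) (l 2)) (a (l 2) (l 2))) (b (a (l 2) (l 2)) (a (l 2) (l 2)))))) (c (a (c (b (a (l 2) (l 2)) (a (l 2) (l 2))) (b (a (l 2) (l 2)) (a (l 2) (l 2)))) (c (b (a (l 2) (l 2)) (a (l 2) (l 2))) (b (a (l 2) (l 2)) (a (l 2) (l 2))))) (a (c (b (a (l 2) (l 2)) (a (l 2) (l 2))) (b (a (l 2) (l 2)) (a (l 2) (l 2)))) (c (b (a (l 2) (l 2)) (a (l 2) (l 2))) (b (a (l 2) (l 2)) (a (l 2) (c (l 2) (l 2)))))))), by decide +kernel⟩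

def h20_0Bp : ∃ t, chk3 f0Bp t 211 1 4 = true :=
  ⟨(b (c (a (c (b (a (l 2) (l 2)) (a (l 2) (l 2))) (b (a (l 2) (l 2)) (a (l 2) (l 2)))) (c (b (a (l 2) (l 2)) (a (l 2) (l 2))) (b (a (l 2) (l 2)) (a (l 2) (l 2))))) (a (c (b (a (l 2) (l 2)) (a (l 2) (l 2))) (a (b (l 2) (l 2)) (l 5))) (l 5))) (c (a (c (b (a (l 2) (l 2)) (a (l 2) (l 2))) (b (a (l 2) (l 2)) (a (l 2) (c (l 2) (l 2))))) (c (b (a (l 2) (l 2)) (a (l 2) (c (l 2) (l 2)))) (b (a (l 2) (l 2)) (a (c (l 2) (l 2)) (c (l 2) (l 5)))))) (a (c (b (a (l 2) (l 2)) (a (c (l 2) (l 2)) (c (l 2) (l 5)))) (a (b (l 2) (c (l 2) (l 5))) (l 5))) (l 5)))), by decide +kernel⟩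

def h21_0Bp : ∃ t, chk3 f0Bp t 105 1 5 = true :=
  ⟨(a (c (b (a (c (b (a (l 2) (l 2)) (a (l 2) (l 2))) (a (b (l 2) (l 2)) (l 5))) (c (a (b (l 2) (l 2)) (l 5)) (l 5))) (a (c (b (a (l 2) (l 2)) (a (l 2) (c (l 2) (l 2)))) (a (b (l 2) (c (l 2) (l 5))) (l 5))) (c (a (b (l 2) (c (l 2) (l 5))) (l 5)) (l 5)))) (l 5)) (l 5)), by decide +kernel⟩

def h22_0Bp : ∃ t, chk3 f0Bp t 52 1 3 = true :=
  ⟨(a (c (a (c (b (a (c (b (a (l 2) (l 2)) (a (l 2) (l 2))) (b (a (l 2) (l 2)) (a (l 2) (l 2)))) (c (b (a (l 2) (l 2)) (a (l 2) (l 2))) (l 5))) (a (c (b (a (l 2) (l 2)) (a (l 2) (l 2))) (b (a (l 2) (l 2)) (a (l 2) (l 2)))) (c (b (a (l 2) (l 2)) (a (l 2) (l 2))) (l 5)))) (l 5)) (l 5)) (l 5)) (l 5)), by decide +kernel⟩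

def h23_0Bp : ∃ t, chk3 f0Bp t 53 1 1 = true :=
  ⟨(c (a (c (a (c (a (c (b (b (a (l 2) (l 2)) (a (l 2) (l 2))) (b (a (l 2) (l 2)) (a (c (l 2) (l 2)) (c (l 2) (l 5))))) (l 5)) (l 5)) (l 5)) (l 5)) (l 5)) (l 5)) (l 5)), by decide +kernel⟩

def h24_0Bp : ∃ t, chk3 f0Bp t 27 1 1 = true :=
  ⟨(l 5), by decide +kernel⟩

def h25_0Bp : ∃ t, chk3 f0Bp t 7 1 1 = true :=
  ⟨(l 5), by decide +kernel⟩

theorem h26_0Bp : ∃ t, chk3 f0Bp t 105 1 4 = true := ex3_a h19_0Bp h20_0Bp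

theorem h27_0Bp : ∃ t, chk3 f0Bp t 105 1 2 = true := ex3_c h26_0Bp h21_0Bp

theorem h28_0Bp : ∃ t, chk3 f0Bp t 104 1 5 = true := ex3_a h17_0Bp h18_0Bp

theorem h29_0Bp : ∃ t, chk3 f0Bp t 104 1 2 = true := ex3_c h16_0Bp h28_0Bp

theorem h30_0Bp : ∃ t, chk3 f0Bp t 52 1 2 = true := ex3_a h29_0Bp h27_0Bp

theorem h31_0Bp : ∃ t, chk3 f0Bp t 52 1 1 = true := ex3_c h30_0Bp h22_0Bp

theorem h32_0Bp : ∃ t, chk3 f0Bp t 26 1 1 = true := ex3_a h31_0Bp h23_0Bp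

theorem h33_0Bp : ∃ t, chk3 f0Bp t 13 1 1 = true := ex3_a h32_0Bp h24_0Bp

theorem h34_0Bp : ∃ t, chk3 f0Bp t 103 1 6 = true := ex3_a h13_0Bp h14_0Bp

theorem h35_0Bp : ∃ t, chk3 f0Bp t 103 1 3 = true := ex3_c h34_0Bp h15_0Bp

theorem h36_0Bp : ∃ t, chk3 f0Bp t 102 1 3 = true := ex3_c h11_0Bp h12_0Bp

theorem h37_0Bp : ∃ t, chk3 f0Bp t 51 1 3 = true := ex3_a h36_0Bp h35_0Bp

theorem h38_0Bp : ∃ t, chk3 f0Bp t 103 1 2 = true := ex3_c h9_0Bp h10_0Bp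

theorem h39_0Bp : ∃ t, chk3 f0Bp t 51 1 2 = true := ex3_a h8_0Bp h38_0Bp

theorem h40_0Bp : ∃ t, chk3 f0Bp t 51 1 1 = true := ex3_c h39_0Bp h37_0Bp

theorem h41_0Bp : ∃ t, chk3 f0Bp t 101 1 3 = true := ex3_c h6_0Bp h7_0Bp

theorem h42_0Bp : ∃ t, chk3 f0Bp t 50 1 3 = true := ex3_a h5_0Bp h41_0Bp

theorem h43_0Bp : ∃ t, chk3 f0Bp t 50 1 1 = true := ex3_c h4_0Bp h42_0Bp

theorem h44_0Bp : ∃ t, chk3 f0Bp t 25 1 1 = true := ex3_a h43_0Bp h40_0Bp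

theorem h45_0Bp : ∃ t, chk3 f0Bp t 48 1 1 = true := ex3_c h1_0Bp h2_0Bp

theorem h46_0Bp : ∃ t, chk3 f0Bp t 24 1 1 = true := ex3_a h45_0Bp h3_0Bp

theorem h47_0Bp : ∃ t, chk3 f0Bp t 12 1 1 = true := ex3_a h46_0Bp h44_0Bp

theorem h48_0Bp : ∃ t, chk3 f0Bp t 6 1 1 = true := ex3_a h47_0Bp h33_0Bp

theorem h49_0Bp : ∃ t, chk3 f0Bp t 3 1 1 = true := ex3_a h48_0Bp h25_0Bp

theorem h50_0Bp : ∃ t, chk3 f0Bp t 1 1 1 = true := ex3_a h0_0Bp h49_0Bp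

theorem ct_0Bp : ∃ t, chk3 f0Bp t 1 1 1 = true := h50_0Bp

noncomputable def f0Bpk1 : ℕ → ℕ → ℕ → ℕ → Bool :=
  onCell 0 92274688 0 1048576 1040187392 5207648 (c0_Bpk1.row false 46137344)

def h0_0Bpk1 : ∃ t, chk3 f0Bpk1 t 1 1 1 = true :=
  ⟨(a (a (l 7) (a (l 7) (a (a (c (l 7) (l 8)) (c (l 8) (l 8))) (a (c (a (l 8) (l 8)) (a (l 8) (l 8))) (c (a (l 8) (l 10)) (a (l 8) (c (l 10) (l 10)))))))) (a (a (a (a (c (a (c (l 10) (l 10)) (l 2)) (a (c (l 10) (l 10)) (c (l 2) (l 2)))) (c (a (c (l 2) (l 2)) (c (l 2) (l 2))) (a (c (l 2) (l 2)) (c (l 2) (l 2))))) (a (c (a (c (l 2) (l 2)) (c (l 2) (a (l 2) (l 2)))) (a (c (l 2) (a (l 2) (l 2))) (c (a (l 2) (l 2)) (a (l 2) (l 2))))) (c (a (c (a (l 2) (l 2)) (a (l 2) (l 2))) (c (a (l 2) (l 2)) (a (l 2) (l 2)))) (a (c (a (l 2) (l 2)) (a (l 2) (c (l 2)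 (l 2)))) (c (a (l 2) (c (l 2) (l 2))) (a (c (l 2) (l 2)) (l 5))))))) (a (a (c (a (c (a (l 2) (l 2)) (a (l 2) (c (l 2) (l 2)))) (c (a (c (l 2) (l 2)) (c (l 2) (l 2))) (a (c (l 2) (l 5)) (l 5)))) (a (c (a (c (l 2) (l 5)) (l 5)) (l 5)) (l 5))) (c (a (c (a (c (l 2) (l 5)) (l 5)) (l 5)) (l 5)) (l 5))) (l 5))) (l 5))), by decide +kernel⟩

theorem ct_0Bpk1 : ∃ t, chk3 f0Bpk1 t 1 1 1 = true := h0_0Bpk1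

noncomputable def f0Bpk2 : ℕ → ℕ → ℕ → ℕ → Bool :=
  onCell 0 92274688 0 1048576 1040187392 5207648 (c0_Bpk2.row false 46137344)

def h0_0Bpk2 : ∃ t, chk3 f0Bpk2 t 1 1 1 = true :=
  ⟨(a (a (l 7) (a (l 7) (a (a (l 8) (c (l 8) (l 8))) (a (c (l 8) (l 8)) (c (l 10) (a (l 8) (l 10))))))) (a (a (a (a (c (a (l 10) (l 2)) (a (l 10) (l 2))) (c (a (l 2) (l 2)) (a (c (l 2) (l 2)) (c (l 2) (l 2))))) (a (c (a (c (l 2) (l 2)) (c (l 2) (l 2))) (a (c (l 2) (l 2)) (c (l 2) (a (l 2) (l 2))))) (c (a (c (l 2) (l 2)) (c (l 2) (a (l 2) (l 2)))) (a (c (a (l 2) (l 2)) (a (l 2) (l 2))) (c (a (l 2) (l 2)) (a (l 2) (l 5))))))) (a (a (c (a (c (a (l 2) (l 2)) (a (l 2) (l 2))) (c (a (l 2) (l 2)) (a (c (l 2) (l 5)) (l 5)))) (a (c (a (c (l 2) (l 5)) (l 5)) (l 5)) (l 5))) (c (a (c (a (c (l 2) (l 5)) (l 5)) (l 5))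 (l 5)) (l 5))) (l 5))) (l 5))), by decide +kernel⟩

theorem ct_0Bpk2 : ∃ t, chk3 f0Bpk2 t 1 1 1 = true := h0_0Bpk2

noncomputable def f0Bm : ℕ → ℕ → ℕ → ℕ → Bool :=
  onCell 0 92274688 0 1048576 1040187392 5207648 (c0_Bm.row true 46137344)

def h0_0Bm : ∃ t, chk3 f0Bm t 2 1 1 = true :=
  ⟨(a (l 7) (a (l 7) (a (a (c (l 7) (l 16)) (c (l 16) (a (l 16) (l 16)))) (a (c (a (l 16) (c (l 16) (l 16))) (a (l 16) (c (l 16) (a (l 16) (l 16))))) (c (a (c (a (l 16) (b (l 16) (l 16))) (a (l 16) (b (l 16) (l 16)))) (c (a (c (b (l 8) (l 8)) (b (l 8) (l 8))) (c (b (l 10) (l 10)) (b (l 10) (l 10)))) (a (c (b (l 8) (l 8)) (b (l 8) (l 8))) (c (b (l 10) (l 10)) (b (l 10) (l 10)))))) (a (c (a (l 16) (b (l 16) (c (l 8) (l 8)))) (a (c (l 16) (l 16)) (b (l 16) (c (l 16) (l 16))))) (c (a (c (b (l 8) (l 8)) (b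 (l 8) (a (l 8) (l 8)))) (c (b (l 10) (l 10)) (b (a (l 8) (l 10)) (a (l 8) (l 10))))) (a (c (b (a (l 8) (l 8)) (a (l 8) (l 8))) (b (a (l 8) (l 8)) (a (l 8) (c (l 8) (l 8))))) (c (b (a (l 8) (l 10)) (a (l 8) (l 10))) (b (a (l 8) (c (l 10) (l 10))) (a (c (l 8) (l 8)) (c (l 10) (l 10))))))))))))), by decide +kernel⟩

def h1_0Bm : ∃ t, chk3 f0Bm t 48 1 2 = true :=
  ⟨(a (c (a (b (c (l 10) (l 10)) (l 2)) (c (l 2) (l 2))) (a (c (b (l 10) (l 2)) (b (l 10) (l 2))) (c (l 2) (b (l 2) (l 2))))) (c (a (c (l 2) (l 2)) (c (l 2) (b (l 2) (l 2)))) (a (c (b (l 2) (l 2)) (b (l 2) (l 2))) (c (b (l 2) (a (l 2) (l 2))) (b (a (l 2) (l 2)) (a (l 2) (c (l 2) (l 2)))))))), by decide +kernel⟩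

def h2_0Bm : ∃ t, chk3 f0Bm t 96 1 3 = true :=
  ⟨(c (a (c (b (l 10) (l 2)) (b (a (l 10) (l 2)) (l 2))) (c (b (l 2) (l 2)) (b (a (l 2) (l 2)) (a (l 2) (l 2))))) (a (c (b (a (l 10) (l 2)) (a (l 2) (l 2))) (b (a (c (l 10) (l 10)) (c (l 2) (l 2))) (a (c (l 2) (l 2)) (c (l 2) (l 2))))) (c (b (a (l 2) (c (l 2) (l 2))) (a (c (l 2) (l 2)) (c (l 2) (l 2)))) (b (a (c (l 2) (l 2)) (c (l 2) (b (l 2) (l 2)))) (a (c (l 2) (b (l 2) (l 2))) (c (l 2) (b (l 2) (l 2)))))))), by decide +kernel⟩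

def h3_0Bm : ∃ t, chk3 f0Bm t 97 1 3 = true :=
  ⟨(c (a (c (b (a (l 2) (l 2)) (a (l 2) (l 2))) (b (a (l 2) (c (l 2) (l 2))) (a (c (l 2) (l 2)) (c (l 2) (l 2))))) (c (b (a (l 2) (c (l 2) (l 2))) (a (c (l 2) (l 2)) (c (l 2) (l 2)))) (b (a (c (l 2) (b (l 2) (l 2))) (c (b (l 2) (l 2)) (b (l 2) (l 2)))) (a (c (l 2) (l 2)) (c (l 2) (l 2)))))) (a (c (b (a (c (l 2) (l 2)) (c (b (l 2) (l 2)) (b (l 2) (l 2)))) (a (c (l 2) (l 2)) (c (l 2) (b (l 2) (l 2))))) (b (a (c (b (l 2) (l 2)) (b (l 2) (l 2))) (c (b (l 2) (l 2)) (b (l 2) (l 2)))) (a (c (b (l 2) (l 2)) (l 2)) (c (l 2) (l 2))))) (c (b (a (c (b (l 2) (l 2)) (b (l 2) (l 2))) (c (b (l 2) (l 2)) (b (l 2) (l 2)))) (a (c (b (l 2) (l 2)) (l 2)) (c (l 2) (l 2)))) (b (a (c (b (l 2) (l 2)) (l 2)) (c (l 2) (l 2))) (a (c (l 2) (l 2)) (c (l 2) (l 2))))))),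 by decide +kernel⟩

def h4_0Bm : ∃ t, chk3 f0Bm t 98 1 2 = true :=
  ⟨(c (a (c (b (l 2) (l 2)) (b (l 2) (a (l 2) (l 2)))) (c (b (l 2) (a (l 2) (l 2))) (b (a (l 2) (l 2)) (a (l 2) (c (l 2) (l 2)))))) (a (c (b (a (l 2) (l 2)) (a (l 2) (c (l 2) (l 2)))) (b (a (l 2) (c (l 2) (l 2))) (a (c (l 2) (l 2)) (c (l 2) (l 2))))) (c (b (a (c (l 2) (l 2)) (c (l 2) (l 2))) (a (c (l 2) (l 2)) (c (l 2) (b (l 2) (l 2))))) (b (a (c (l 2) (b (l 2) (l 2))) (c (b (l 2) (l 2)) (b (l 2) (l 2)))) (a (c (l 2) (b (l 2) (l 2))) (c (b (l 2) (l 2)) (l 2))))))), by decide +kernel⟩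

def h5_0Bm : ∃ t, chk3 f0Bm t 99 1 2 = true :=
  ⟨(c (a (c (b (a (l 2) (l 2)) (a (l 2) (c (l 2) (l 2)))) (b (a (c (l 2) (l 2)) (c (l 2) (b (l 2) (l 2)))) (a (c (l 2) (l 2)) (c (b (l 2) (l 2)) (b (l 2) (l 2)))))) (c (b (a (c (l 2) (l 2)) (c (l 2) (b (l 2) (l 2)))) (a (c (l 2) (b (l 2) (l 2))) (c (b (l 2) (l 2)) (b (l 2) (l 2))))) (b (a (c (b (l 2) (l 2)) (b (l 2) (l 2))) (c (b (l 2) (l 2)) (b (l 2) (l 2)))) (a (c (b (l 2) (l 2)) (b (l 2) (l 2))) (c (b (l 2) (l 2)) (b (l 2) (l 2))))))) (a (c (b (a (c (b (l 2) (l 2)) (b (l 2) (l 2))) (c (b (l 2) (l 2)) (b (l 2) (l 2)))) (a (c (b (l 2) (l 2)) (b (l 2) (l 2))) (c (b (l 2) (l 2)) (l 2)))) (b (a (c (b (l 2) (l 2)) (b (l 2) (l 2))) (c (b (l 2) (l 2)) (b (l 2) (l 2)))) (a (c (l 2) (l 2)) (c (l 2) (l 2))))) (c (b (a (c (b (l 2) (l 2)) (b (l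 2) (l 2))) (c (b (l 2) (l 2)) (b (l 2) (l 2)))) (a (c (l 2) (l 2)) (c (l 2) (l 2)))) (b (a (c (b (l 2) (l 2)) (l 2)) (c (l 2) (l 2))) (a (c (l 2) (l 2)) (c (l 2) (l 2))))))), by decide +kernel⟩

def h6_0Bm : ∃ t, chk3 f0Bm t 98 1 3 = true :=
  ⟨(c (a (c (b (a (c (l 2) (b (l 2) (l 2))) (c (b (l 2) (l 2)) (b (l 2) (l 2)))) (a (c (l 2) (b (l 2) (l 2))) (c (b (l 2) (l 2)) (l 2)))) (b (a (c (b (l 2) (l 2)) (b (l 2) (l 2))) (c (b (l 2) (l 2)) (b (l 2) (l 2)))) (a (c (l 2) (l 2)) (c (l 2) (l 2))))) (c (b (a (c (b (l 2) (l 2)) (b (l 2) (l 2))) (c (b (l 2) (l 2)) (b (l 2) (l 2)))) (a (c (l 2) (l 2)) (c (l 2) (l 2)))) (b (a (c (b (l 2) (l 2)) (l 2)) (c (l 2) (l 2))) (a (c (l 2) (l 2)) (c (l 2) (l 2)))))) (a (c (b (a (c (b (l 2) (l 2)) (l 2)) (c (l 2) (l 2))) (a (c (l 2) (l 2)) (c (l 2) (l 2))))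 (b (a (c (l 2) (l 2)) (c (l 2) (l 2))) (a (c (l 2) (l 2)) (l 2)))) (c (b (a (c (l 2) (l 2)) (c (l 2) (l 2))) (a (c (l 2) (l 2)) (c (l 2) (l 2)))) (b (a (c (l 2) (l 2)) (c (l 2) (l 2))) (a (l 2) (l 2)))))), by decide +kernel⟩

def h7_0Bm : ∃ t, chk3 f0Bm t 99 1 3 = true :=
  ⟨(c (a (c (b (a (c (b (l 2) (l 2)) (l 2)) (c (l 2) (l 2))) (a (c (l 2) (l 2)) (c (l 2) (l 2)))) (b (a (c (l 2) (l 2)) (c (l 2) (l 2))) (a (c (l 2) (l 2)) (c (l 2) (l 2))))) (c (b (a (c (l 2) (l 2)) (c (l 2) (l 2))) (a (c (l 2) (l 2)) (c (l 2) (l 2)))) (b (a (c (l 2) (l 2)) (c (l 2) (l 2))) (a (l 2) (l 2))))) (a (c (b (a (c (l 2) (l 2)) (c (l 2) (l 2))) (a (l 2) (l 2))) (b (a (c (l 2) (l 2)) (c (l 2) (l 2))) (a (l 2) (l 2)))) (c (b (a (c (l 2) (l 2)) (c (l 2) (l 2))) (a (l 2) (l 2))) (b (a (c (l 2) (l 2)) (c (l 2)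 (l 2))) (a (l 2) (c (l 2) (l 2))))))), by decide +kernel⟩

def h8_0Bm : ∃ t, chk3 f0Bm t 100 1 2 = true :=
  ⟨(c (a (c (b (a (c (b (l 2) (l 2)) (b (a (l 2) (l 2)) (l 2))) (c (b (a (l 2) (l 2)) (l 2)) (b (a (l 2) (l 2)) (l 2)))) (a (c (b (l 2) (l 2)) (b (l 2) (l 2))) (c (b (l 2) (l 2)) (b (l 2) (l 2))))) (b (a (c (b (a (l 2) (l 2)) (l 2)) (b (l 2) (l 2))) (c (b (l 2) (l 2)) (b (l 2) (l 2)))) (a (c (b (l 2) (l 2)) (l 2)) (c (l 2) (l 2))))) (c (b (a (c (b (a (l 2) (l 2)) (l 2)) (b (l 2) (l 2))) (c (b (l 2) (l 2)) (b (l 2) (l 2)))) (a (c (b (l 2) (l 2)) (l 2)) (c (l 2) (l 2)))) (b (a (c (b (l 2) (l 2)) (l 2)) (c (l 2) (l 2))) (a (c (l 2) (l 2)) (c (l 2) (l 2)))))) (a (c (b (a (c (b (l 2) (l 2)) (l 2)) (c (l 2) (l 2))) (a (c (l 2) (l 2)) (c (l 2) (l 2)))) (b (a (c (l 2) (l 2)) (c (l 2)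 (l 2))) (a (c (l 2) (l 2)) (c (l 2) (l 2))))) (c (b (a (c (l 2) (l 2)) (c (l 2) (l 2))) (a (c (l 2) (l 2)) (c (l 2) (l 2)))) (b (a (c (l 2) (l 2)) (c (l 2) (l 2))) (a (c (l 2) (l 2)) (c (l 2) (l 2))))))), by decide +kernel⟩

def h9_0Bm : ∃ t, chk3 f0Bm t 101 1 2 = true :=
  ⟨(c (a (c (b (a (c (b (l 2) (l 2)) (b (l 2) (l 2))) (c (b (l 2) (l 2)) (l 2))) (a (c (l 2) (l 2)) (c (l 2) (l 2)))) (b (a (c (l 2) (l 2)) (c (l 2) (l 2))) (a (c (l 2) (l 2)) (c (l 2) (l 2))))) (c (b (a (c (l 2) (l 2)) (c (l 2) (l 2))) (a (c (l 2) (l 2)) (c (l 2) (l 2)))) (b (a (c (l 2) (l 2)) (c (l 2) (l 2))) (a (c (l 2) (l 2)) (c (l 2) (l 2)))))) (a (c (b (a (c (l 2) (l 2)) (c (l 2) (l 2))) (a (c (l 2) (l 2)) (c (l 2) (l 2)))) (b (a (c (l 2) (l 2)) (c (l 2) (l 2))) (a (c (l 2) (l 2)) (c (l 2) (l 2))))) (c (b (a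 (c (l 2) (l 2)) (c (l 2) (l 2))) (a (c (l 2) (l 2)) (c (l 2) (l 2)))) (b (a (c (l 2) (l 2)) (c (l 2) (l 2))) (a (c (l 2) (l 2)) (c (l 2) (l 2))))))), by decide +kernel⟩

def h10_0Bm : ∃ t, chk3 f0Bm t 100 1 3 = true :=
  ⟨(c (a (c (b (a (c (l 2) (l 2)) (c (l 2) (l 2))) (a (c (l 2) (l 2)) (c (l 2) (l 2)))) (b (a (c (l 2) (l 2)) (c (l 2) (l 2))) (a (l 2) (c (l 2) (l 2))))) (c (b (a (c (l 2) (l 2)) (c (l 2) (l 2))) (a (c (l 2) (l 2)) (c (l 2) (l 2)))) (b (a (c (l 2) (l 2)) (c (l 2) (l 2))) (a (c (l 2) (l 2)) (c (l 2) (l 2)))))) (a (c (b (a (c (l 2) (l 2)) (c (l 2) (l 2))) (a (c (l 2) (l 2)) (c (l 2) (l 2)))) (b (a (c (l 2) (l 2)) (c (l 2) (l 2))) (a (c (l 2) (l 2)) (c (l 2) (l 2))))) (c (b (a (c (l 2) (l 2)) (c (l 2) (l 2))) (a (c (l 2) (l 2)) (c (l 2) (l 2)))) (b (a (c (l 2) (l 2)) (c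 (l 2) (l 2))) (a (c (l 2) (l 2)) (c (l 2) (l 2))))))), by decide +kernel⟩

def h11_0Bm : ∃ t, chk3 f0Bm t 101 1 3 = true :=
  ⟨(c (a (c (b (a (c (l 2) (l 2)) (c (l 2) (l 2))) (a (c (l 2) (l 2)) (c (l 2) (l 2)))) (b (a (c (l 2) (l 2)) (c (l 2) (l 2))) (a (c (l 2) (l 2)) (c (l 2) (l 2))))) (c (b (a (c (l 2) (l 2)) (c (l 2) (l 2))) (a (c (l 2) (l 2)) (c (l 2) (l 2)))) (b (a (c (l 2) (l 2)) (c (l 2) (l 2))) (a (c (l 2) (l 2)) (c (l 2) (l 2)))))) (a (c (b (a (c (l 2) (l 2)) (c (l 2) (l 2))) (a (c (l 2) (l 2)) (c (l 2) (l 2)))) (b (a (c (l 2) (l 2)) (c (l 2) (b (l 2) (l 2)))) (a (c (l 2) (l 2)) (c (l 2) (b (l 2) (l 2)))))) (c (b (a (c (l 2) (l 2)) (c (b (l 2) (l 2)) (b (l 2) (l 2)))) (a (c (l 2) (b (l 2) (l 2))) (c (b (l 2) (l 2)) (b (l 2) (l 2))))) (b (a (c (b (l 2) (l 2)) (b (l 2) (l 2)))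 (c (b (l 2) (l 2)) (b (a (l 2) (l 2)) (a (l 2) (l 2))))) (a (c (b (l 2) (l 2)) (b (l 2) (l 2))) (c (b (l 2) (l 2)) (b (a (l 2) (l 2)) (a (l 2) (l 2))))))))), by decide +kernel⟩

def h12_0Bm : ∃ t, chk3 f0Bm t 102 1 2 = true :=
  ⟨(c (a (c (b (a (c (l 2) (l 2)) (c (l 2) (l 2))) (a (c (l 2) (l 2)) (c (l 2) (l 2)))) (b (a (c (l 2) (l 2)) (c (l 2) (l 2))) (a (c (l 2) (l 2)) (c (l 2) (l 2))))) (c (b (a (c (l 2) (l 2)) (c (l 2) (l 2))) (a (c (l 2) (l 2)) (c (l 2) (l 2)))) (b (a (c (l 2) (l 2)) (c (l 2) (l 2))) (a (c (l 2) (l 2)) (c (l 2) (l 2)))))) (a (c (b (a (c (l 2) (l 2)) (c (l 2) (l 2))) (a (c (l 2) (l 2)) (c (l 2) (l 2)))) (b (a (c (l 2) (l 2)) (c (l 2) (l 2))) (a (c (l 2) (l 2)) (c (l 2) (l 2))))) (c (b (a (c (l 2) (l 2)) (c (l 2) (l 2))) (a (c (l 2) (l 2)) (c (l 2) (l 2)))) (b (a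 (c (l 2) (l 2)) (c (l 2) (l 2))) (a (c (l 2) (l 2)) (c (l 2) (l 2))))))), by decide +kernel⟩

def h13_0Bm : ∃ t, chk3 f0Bm t 103 1 2 = true :=
  ⟨(c (a (c (b (a (c (l 2) (l 2)) (c (l 2) (l 2))) (a (c (l 2) (l 2)) (c (l 2) (l 2)))) (b (a (c (l 2) (l 2)) (c (l 2) (l 2))) (a (c (l 2) (l 2)) (c (l 2) (l 2))))) (c (b (a (c (l 2) (l 2)) (c (l 2) (l 2))) (a (c (l 2) (l 2)) (c (l 2) (l 2)))) (b (a (c (l 2) (l 2)) (c (l 2) (b (l 2) (l 2)))) (a (c (l 2) (l 2)) (c (l 2) (b (l 2) (l 2))))))) (a (c (b (a (c (l 2) (l 2)) (c (l 2) (b (l 2) (l 2)))) (a (c (l 2) (l 2)) (c (l 2) (b (l 2) (l 2))))) (b (a (c (b (l 2) (l 2)) (b (l 2) (l 2))) (c (b (l 2) (l 2)) (b (l 2) (l 2)))) (a (c (l 2) (b (l 2) (l 2))) (c (b (l 2) (l 2)) (b (l 2) (l 2)))))) (c (b (a (c (b (l 2) (l 2)) (b (l 2) (l 2))) (c (b (l 2) (l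 2)) (b (l 2) (l 2)))) (a (c (b (l 2) (l 2)) (b (l 2) (l 2))) (c (b (l 2) (l 2)) (b (l 2) (l 2))))) (b (a (c (b (l 2) (l 2)) (b (l 2) (l 2))) (c (b (l 2) (l 2)) (b (a (l 2) (l 2)) (a (l 2) (l 2))))) (a (c (b (l 2) (l 2)) (b (l 2) (l 2))) (c (b (l 2) (l 2)) (b (a (l 2) (l 2)) (a (l 2) (l 2))))))))), by decide +kernel⟩

def h14_0Bm : ∃ t, chk3 f0Bm t 102 1 6 = true :=
  ⟨(a (c (b (a (c (l 2) (l 2)) (c (l 2) (l 2))) (a (c (l 2) (l 2)) (c (l 2) (l 2)))) (b (a (c (l 2) (b (l 2) (l 2))) (c (b (l 2) (l 2)) (b (l 2) (l 2)))) (a (c (l 2) (b (l 2) (l 2))) (c (b (l 2) (l 2)) (b (l 2) (l 2)))))) (c (b (a (c (l 2) (b (l 2) (l 2))) (c (b (l 2) (l 2)) (b (l 2) (l 2)))) (a (c (l 2) (b (l 2) (l 2))) (c (b (l 2) (l 2)) (b (l 2) (l 2))))) (b (a (c (b (l 2) (l 2)) (b (l 2) (l 2))) (c (b (l 2) (l 2)) (b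 (a (l 2) (l 2)) (a (l 2) (l 2))))) (a (c (b (l 2) (l 2)) (b (l 2) (l 2))) (c (b (l 2) (l 2)) (b (a (l 2) (l 2)) (a (l 2) (l 2)))))))), by decide +kernel⟩

def h15_0Bm : ∃ t, chk3 f0Bm t 204 1 7 = true :=
  ⟨(c (b (a (c (b (l 2) (l 2)) (b (l 2) (l 2))) (c (b (l 2) (l 2)) (b (a (l 2) (l 2)) (a (l 2) (l 2))))) (a (c (b (l 2) (l 2)) (b (l 2) (l 2))) (c (b (l 2) (l 2)) (b (a (l 2) (l 2)) (a (l 2) (l 2)))))) (b (a (c (b (a (l 2) (l 2)) (a (l 2) (l 2))) (b (a (l 2) (l 2)) (a (l 2) (l 2)))) (c (b (a (l 2) (l 2)) (a (l 2) (l 2))) (b (a (l 2) (c (l 2) (l 2))) (a (c (l 2) (l 2)) (c (l 2) (l 2)))))) (a (c (b (a (l 2) (l 2)) (a (l 2) (l 2))) (b (a (l 2) (l 2)) (a (l 2) (l 2)))) (c (b (a (l 2) (l 2)) (a (l 2) (l 2))) (b (a (c (l 2) (l 2)) (c (l 2) (l 9))) (a (c (l 2) (l 9)) (l 9))))))), by decide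 +kernel⟩

def h16_0Bm : ∃ t, chk3 f0Bm t 205 1 7 = true :=
  ⟨(c (b (a (c (b (a (l 2) (l 2)) (a (l 2) (l 2))) (b (a (l 2) (l 2)) (a (l 2) (l 2)))) (c (b (a (l 2) (l 2)) (a (l 2) (l 2))) (b (a (c (l 2) (l 2)) (c (l 2) (l 2))) (a (c (l 2) (l 2)) (c (l 2) (l 2)))))) (a (c (b (a (l 2) (l 2)) (a (l 2) (l 2))) (b (a (l 2) (l 2)) (a (l 2) (l 2)))) (c (b (a (l 2) (l 2)) (a (l 2) (l 2))) (b (a (c (l 2) (l 2)) (c (l 2) (l 9))) (l 9))))) (b (a (c (b (a (c (l 2) (l 2)) (c (l 2) (l 2))) (a (c (l 2) (l 2)) (c (l 2) (l 2)))) (b (a (c (l 2) (l 2)) (c (l 2) (b (l 2) (l 9)))) (a (c (l 2) (b (l 2) (l 9))) (l 9)))) (c (b (a (c (l 2) (l 2)) (c (l 2) (b (l 2) (l 9)))) (a (c (l 2) (l 9)) (l 9))) (b (a (c (b (l 2) (l 9)) (l 5)) (l 5)) (l 9)))) (a (c (b (a (c (l 2) (l 2)) (c (l 2) (l 9))) (l 9)) (l 9)) (l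 9)))), by decide +kernel⟩

def h17_0Bm : ∃ t, chk3 f0Bm t 206 1 6 = true :=
  ⟨(c (b (a (c (b (l 2) (l 2)) (b (l 2) (l 2))) (c (b (l 2) (l 2)) (b (a (l 2) (l 2)) (a (l 2) (l 2))))) (a (c (b (l 2) (l 2)) (b (l 2) (l 2))) (c (b (l 2) (l 2)) (b (a (l 2) (l 2)) (a (l 2) (l 2)))))) (b (a (c (b (a (l 2) (l 2)) (a (l 2) (l 2))) (b (a (l 2) (l 2)) (a (l 2) (l 2)))) (c (b (a (l 2) (l 2)) (a (l 2) (l 2))) (b (a (c (l 2) (l 2)) (c (l 2) (l 2))) (a (c (l 2) (l 2)) (c (l 2) (l 2)))))) (a (c (b (a (l 2) (l 2)) (a (l 2) (l 2))) (b (a (l 2) (l 2)) (a (l 2) (c (l 2) (l 9))))) (c (b (a (l 2) (l 2)) (a (l 2) (c (l 2) (l 9)))) (b (a (c (l 2) (l 9)) (l 9)) (l 9)))))), by decide +kernel⟩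

def h18_0Bm : ∃ t, chk3 f0Bm t 207 1 6 = true :=
  ⟨(c (b (a (c (b (a (l 2) (l 2)) (a (l 2) (l 2))) (b (a (l 2) (l 2)) (a (l 2) (l 2)))) (c (b (a (l 2) (l 2)) (a (l 2) (l 2))) (b (a (c (l 2) (l 2)) (c (l 2) (l 2))) (a (c (l 2) (l 2)) (c (l 2) (l 9)))))) (a (c (b (a (l 2) (l 2)) (a (l 2) (l 2))) (b (a (l 2) (c (l 2) (l 2))) (a (l 2) (l 9)))) (c (b (a (l 2) (c (l 2) (l 2))) (a (l 2) (l 9))) (b (a (c (l 2) (l 9)) (l 9)) (l 9))))) (b (a (c (b (a (c (l 2) (l 2)) (c (l 2) (l 2))) (a (c (l 2) (l 2)) (c (l 2) (l 2)))) (b (a (c (l 2) (b (l 2) (l 9))) (c (b (l 2) (l 9)) (l 5))) (a (c (l 2) (l 9)) (l 9)))) (c (b (a (c (l 2) (b (l 2) (l 9))) (c (b (l 2) (l 9)) (l 5))) (l 9)) (l 5))) (a (c (b (a (c (l 2) (l 9)) (l 9)) (l 9)) (l 9)) (l 9)))), by decide +kernel⟩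

def h19_0Bm : ∃ t, chk3 f0Bm t 103 1 7 = true :=
  ⟨(a (c (b (a (c (b (a (c (l 2) (l 2)) (c (l 2) (l 2))) (a (c (l 2) (l 2)) (c (l 2) (l 2)))) (b (a (c (l 2) (l 2)) (c (l 2) (b (l 2) (l 9)))) (a (c (l 2) (l 9)) (l 9)))) (c (b (a (c (l 2) (b (l 2) (l 2))) (c (b (l 2) (l 2)) (l 5))) (a (c (l 2) (l 9)) (l 9))) (l 5))) (a (c (b (a (c (l 2) (l 9)) (l 9)) (l 9)) (l 9)) (l 9))) (b (a (c (b (a (c (b (l 2) (l 9)) (l 5)) (l 5)) (l 9)) (l 5)) (l 5)) (l 9))) (l 5)), by decide +kernel⟩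

def h20_0Bm : ∃ t, chk3 f0Bm t 104 1 4 = true :=
  ⟨(a (c (b (a (c (l 2) (b (l 2) (l 2))) (c (b (l 2) (l 2)) (b (l 2) (l 2)))) (a (c (l 2) (l 2)) (c (l 2) (b (l 2) (l 2))))) (b (a (c (b (l 2) (l 2)) (b (l 2) (l 2))) (c (b (l 2) (l 2)) (b (l 2) (l 2)))) (a (c (b (l 2) (l 2)) (b (l 2) (l 2))) (c (b (l 2) (l 2)) (b (l 2) (l 2)))))) (c (b (a (c (b (l 2) (l 2)) (b (l 2) (l 2))) (c (b (l 2) (l 2)) (b (l 2) (l 2)))) (a (c (b (l 2) (l 2)) (b (l 2) (l 2))) (c (b (l 2) (l 2)) (b (l 2) (l 2))))) (b (a (c (b (l 2) (l 2)) (b (l 2) (l 2))) (c (b (a (l 2) (l 2)) (l 2)) (b (a (l 2) (l 2)) (a (l 2) (l 2))))) (a (c (b (l 2) (l 2)) (b (l 2) (a (l 2) (l 2)))) (c (b (a (l 2) (l 2)) (a (l 2) (l 2))) (b (a (l 2) (l 2)) (a (l 2) (l 2)))))))), by decide +kernel⟩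

def h21_0Bm : ∃ t, chk3 f0Bm t 208 1 5 = true :=
  ⟨(c (b (a (c (b (l 2) (l 2)) (b (l 2) (l 2))) (c (b (l 2) (l 2)) (b (a (l 2) (l 2)) (a (l 2) (l 2))))) (a (c (b (l 2) (l 2)) (b (l 2) (a (l 2) (l 2)))) (c (b (l 2) (a (l 2) (l 2))) (b (a (l 2) (l 2)) (a (l 2) (l 2)))))) (b (a (c (b (a (l 2) (l 2)) (a (l 2) (l 2))) (b (a (l 2) (l 2)) (a (l 2) (c (l 2) (l 2))))) (c (b (a (l 2) (l 2)) (a (l 2) (c (l 2) (l 2)))) (b (a (c (l 2) (l 2)) (c (l 2) (l 2))) (a (c (l 2) (l 2)) (c (l 2) (l 9)))))) (a (c (b (a (l 2) (l 2)) (a (l 2) (l 2))) (b (a (l 2) (c (l 2) (l 2))) (a (l 2) (l 9)))) (c (b (a (l 2) (c (l 2) (l 9))) (a (c (l 2) (l 9)) (l 9))) (l 9))))), by decide +kernel⟩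

def h22_0Bm : ∃ t, chk3 f0Bm t 209 1 5 = true :=
  ⟨(c (b (a (c (b (a (l 2) (l 2)) (a (l 2) (l 2))) (b (a (l 2) (c (l 2) (l 2))) (a (l 2) (c (l 2) (l 2))))) (c (b (a (l 2) (c (l 2) (l 2))) (a (l 2) (c (l 2) (l 2)))) (b (a (c (l 2) (l 2)) (c (l 2) (b (l 2) (l 9)))) (a (c (l 2) (l 2)) (l 9))))) (a (c (b (a (l 2) (l 2)) (a (l 2) (l 2))) (b (a (l 2) (c (l 2) (l 9))) (a (c (l 2) (l 9)) (l 9)))) (c (b (a (c (l 2) (l 2)) (c (l 2) (l 9))) (l 9)) (l 9)))) (b (a (c (b (a (c (l 2) (l 2)) (c (l 2) (l 2))) (a (c (l 2) (l 2)) (c (l 2) (l 9)))) (b (a (c (l 2) (l 5)) (l 5)) (l 9))) (c (b (a (c (b (l 2) (l 9)) (l 5)) (l 5)) (l 9)) (l 5))) (l 9))), by decide +kernel⟩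

def h23_0Bm : ∃ t, chk3 f0Bm t 210 1 4 = true :=
  ⟨(c (b (a (c (b (l 2) (l 2)) (b (a (l 2) (l 2)) (a (l 2) (l 2)))) (c (b (a (l 2) (l 2)) (a (l 2) (l 2))) (b (a (l 2) (l 2)) (a (l 2) (l 2))))) (a (c (b (l 2) (l 2)) (b (a (l 2) (l 2)) (a (l 2) (l 2)))) (c (b (a (l 2) (l 2)) (a (l 2) (l 2))) (b (a (l 2) (l 2)) (a (l 2) (c (l 2) (l 9))))))) (b (a (c (b (a (l 2) (l 2)) (a (l 2) (l 2))) (b (a (l 2) (c (l 2) (l 2))) (a (l 2) (c (l 2) (l 2))))) (c (b (a (l 2) (c (l 2) (l 2))) (a (c (l 2) (l 2)) (c (l 2) (l 2)))) (b (a (c (l 2) (l 2)) (c (l 2) (b (l 2) (l 9)))) (a (c (l 2) (l 9)) (l 9))))) (a (c (b (a (l 2) (l 2)) (a (l 2) (c (l 2) (l 9)))) (b (a (c (l 2) (l 2)) (c (l 2) (l 9))) (l 9))) (c (b (a (c (l 2) (l 2)) (l 9)) (l 9)) (l 9))))), by decide +kernel⟩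

def h24_0Bm : ∃ t, chk3 f0Bm t 211 1 4 = true :=
  ⟨(c (b (a (c (b (a (l 2) (l 2)) (a (l 2) (l 2))) (b (a (l 2) (c (l 2) (l 2))) (a (c (l 2) (l 2)) (c (l 2) (l 2))))) (c (b (a (c (l 2) (l 2)) (c (l 2) (l 2))) (a (c (l 2) (l 2)) (c (l 2) (l 2)))) (b (a (c (l 2) (l 2)) (c (b (l 2) (l 9)) (l 5))) (a (c (l 2) (l 9)) (l 9))))) (a (c (b (a (l 2) (l 2)) (a (l 2) (c (l 2) (l 9)))) (b (a (c (l 2) (l 9)) (l 9)) (l 9))) (c (b (a (c (l 2) (l 9)) (l 9)) (l 9)) (l 9)))) (b (a (c (b (a (c (l 2) (l 2)) (c (l 2) (l 5))) (a (c (l 2) (l 9)) (l 9))) (b (a (c (b (l 2) (l 9)) (l 5)) (l 5)) (l 9))) (l 5)) (l 9))), by decide +kernel⟩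

def h25_0Bm : ∃ t, chk3 f0Bm t 105 1 5 = true :=
  ⟨(a (c (b (a (c (b (a (c (l 2) (l 2)) (c (l 2) (b (l 2) (l 9)))) (a (c (l 2) (l 9)) (l 9))) (b (a (c (b (l 2) (l 9)) (l 5)) (l 5)) (l 9))) (c (b (a (c (b (l 2) (l 9)) (l 5)) (l 5)) (l 9)) (l 5))) (l 9)) (l 5)) (l 5)), by decide +kernel⟩

def h26_0Bm : ∃ t, chk3 f0Bm t 52 1 3 = true :=
  ⟨(a (c (a (c (b (a (c (b (a (c (l 2) (l 2)) (c (l 2) (l 2))) (a (c (l 2) (l 2)) (c (l 2) (l 9)))) (b (a (c (l 2) (b (l 2) (l 9))) (c (b (l 2) (l 9)) (l 5))) (l 9))) (c (b (a (c (l 2) (b (l 2) (l 9))) (c (b (l 2) (l 9)) (l 5))) (l 9)) (l 5))) (a (c (b (a (c (l 2) (l 9)) (l 9)) (l 9)) (l 9)) (l 9))) (l 5)) (l 5)) (l 5)) (l 5)), by decide +kernel⟩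

def h27_0Bm : ∃ t, chk3 f0Bm t 53 1 1 = true :=
  ⟨(c (a (c (a (c (b (a (c (b (a (c (l 2) (b (l 2) (l 9))) (c (b (l 2) (l 9)) (l 5))) (a (c (l 2) (l 9)) (l 9))) (l 5)) (l 5)) (l 9)) (l 5)) (l 5)) (l 5)) (l 5)) (l 5)), by decide +kernel⟩

def h28_0Bm : ∃ t, chk3 f0Bm t 27 1 1 = true :=
  ⟨(l 5), by decide +kernel⟩

def h29_0Bm : ∃ t, chk3 f0Bm t 7 1 1 = true :=
  ⟨(l 5), by decide +kernel⟩

theorem h30_0Bm : ∃ t, chk3 f0Bm t 105 1 4 = true := ex3_a h23_0Bm h24_0Bm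

theorem h31_0Bm : ∃ t, chk3 f0Bm t 105 1 2 = true := ex3_c h30_0Bm h25_0Bm

theorem h32_0Bm : ∃ t, chk3 f0Bm t 104 1 5 = true := ex3_a h21_0Bm h22_0Bm

theorem h33_0Bm : ∃ t, chk3 f0Bm t 104 1 2 = true := ex3_c h20_0Bm h32_0Bm

theorem h34_0Bm : ∃ t, chk3 f0Bm t 52 1 2 = true := ex3_a h33_0Bm h31_0Bm

theorem h35_0Bm : ∃ t, chk3 f0Bm t 52 1 1 = true := ex3_c h34_0Bm h26_0Bm

theorem h36_0Bm : ∃ t, chk3 f0Bm t 26 1 1 = true := ex3_a h35_0Bm h27_0Bm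

theorem h37_0Bm : ∃ t, chk3 f0Bm t 13 1 1 = true := ex3_a h36_0Bm h28_0Bm

theorem h38_0Bm : ∃ t, chk3 f0Bm t 103 1 6 = true := ex3_a h17_0Bm h18_0Bm

theorem h39_0Bm : ∃ t, chk3 f0Bm t 103 1 3 = true := ex3_c h38_0Bm h19_0Bm

theorem h40_0Bm : ∃ t, chk3 f0Bm t 102 1 7 = true := ex3_a h15_0Bm h16_0Bm

theorem h41_0Bm : ∃ t, chk3 f0Bm t 102 1 3 = true := ex3_c h14_0Bm h40_0Bm

theorem h42_0Bm : ∃ t, chk3 f0Bm t 51 1 3 = true := ex3_a h41_0Bm h39_0Bm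

theorem h43_0Bm : ∃ t, chk3 f0Bm t 51 1 2 = true := ex3_a h12_0Bm h13_0Bm

theorem h44_0Bm : ∃ t, chk3 f0Bm t 51 1 1 = true := ex3_c h43_0Bm h42_0Bm

theorem h45_0Bm : ∃ t, chk3 f0Bm t 50 1 3 = true := ex3_a h10_0Bm h11_0Bm

theorem h46_0Bm : ∃ t, chk3 f0Bm t 50 1 2 = true := ex3_a h8_0Bm h9_0Bm

theorem h47_0Bm : ∃ t, chk3 f0Bm t 50 1 1 = true := ex3_c h46_0Bm h45_0Bm

theorem h48_0Bm : ∃ t, chk3 f0Bm t 25 1 1 = true := ex3_a h47_0Bm h44_0Bm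

theorem h49_0Bm : ∃ t, chk3 f0Bm t 49 1 3 = true := ex3_a h6_0Bm h7_0Bm

theorem h50_0Bm : ∃ t, chk3 f0Bm t 49 1 2 = true := ex3_a h4_0Bm h5_0Bm

theorem h51_0Bm : ∃ t, chk3 f0Bm t 49 1 1 = true := ex3_c h50_0Bm h49_0Bm

theorem h52_0Bm : ∃ t, chk3 f0Bm t 48 1 3 = true := ex3_a h2_0Bm h3_0Bm

theorem h53_0Bm : ∃ t, chk3 f0Bm t 48 1 1 = true := ex3_c h1_0Bm h52_0Bm

theorem h54_0Bm : ∃ t, chk3 f0Bm t 24 1 1 = true := ex3_a h53_0Bm h51_0Bm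

theorem h55_0Bm : ∃ t, chk3 f0Bm t 12 1 1 = true := ex3_a h54_0Bm h48_0Bm

theorem h56_0Bm : ∃ t, chk3 f0Bm t 6 1 1 = true := ex3_a h55_0Bm h37_0Bm

theorem h57_0Bm : ∃ t, chk3 f0Bm t 3 1 1 = true := ex3_a h56_0Bm h29_0Bm

theorem h58_0Bm : ∃ t, chk3 f0Bm t 1 1 1 = true := ex3_a h0_0Bm h57_0Bm

theorem ct_0Bm : ∃ t, chk3 f0Bm t 1 1 1 = true := h58_0Bm

end Pool.Agent.Strip051.G.I9688_9736.Tab.Mo
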