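import Pool.Agent.Strip051.G.I9688_9736.MolD

/-! # The tight charts of a table: certificates (generated) -/

set_option linter.all false
set_option maxRecDepth 100000

namespace Pool.Agent.Strip051.G.I9688_9736.Tab.Mo

open Pool.Agent.Strip051.PB Pool.Agent.Strip051.PB.Mol Pool.Agent.Strip051.PB.T
open Pool.Agent.Strip051.G.I9688_9736.Tab

noncomputable def f2Ap : ℕ → ℕ → ℕ → ℕ → Bool :=
  onCell 0 92274688 0 1048576 1040187392 5207648 (c2_Ap.row false 46137344)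

def h0_2Ap : ∃ t, chk3 f2Ap t 1 1 1 = true :=
  ⟨(a (a (l 7) (a (l 7) (a (a (c (l 7) (l 16)) (c (a (l 7) (l 16)) (a (l 16) (l 16)))) (a (c (a (l 16) (c (l 16) (l 16))) (a (l 16) (c (l 16) (l 16)))) (c (a (c (a (l 8) (l 8)) (a (l 8) (l 8))) (c (a (l 8) (l 10)) (a (l 8) (l 10)))) (a (c (a (l 8) (l 8)) (a (l 8) (l 8))) (c (a (l 8) (l 10)) (a (l 8) (l 10))))))))) (a (a (a (a (a (a (a (a (a (a (a (a (a (a (a (a (a (a (a (a (a (a (a (c (c (l 10) (l 10)) (c (l 10) (l 10))) (l 13)) (l 13)) (l 13)) (l 13)) (l 13)) (l 13)) (l 13)) (l 13)) (l 13)) (l 13)) (l 13)) (l 13)) (l 13)) (l 13)) (l 13)) (l 13)) (l 13)) (l 13)) (l 13)) (l 13)) (l 13)) (l 13)) (l 5))), by decide +kernel⟩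

theorem ct_2Ap : ∃ t, chk3 f2Ap t 1 1 1 = true := h0_2Ap

noncomputable def f2Apk1 : ℕ → ℕ → ℕ → ℕ → Bool :=
  onCell 0 92274688 0 1048576 1040187392 5207648 (c2_Apk1.row false 46137344)

def h0_2Apk1 : ∃ t, chk3 f2Apk1 t 1 1 1 = true :=
  ⟨(a (a (l 7) (a (l 7) (a (a (c (l 7) (l 16)) (c (a (l 7) (l 8)) (a (l 8) (l 8)))) (a (c (a (l 8) (l 8)) (a (l 8) (l 8))) (c (a (l 8) (l 10)) (a (l 8) (l 10))))))) (a (a (a (a (a (c (l 10) (c (l 10) (l 10))) (l 13)) (l 13)) (l 13)) (l 13)) (l 5))), by decide +kernel⟩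

theorem ct_2Apk1 : ∃ t, chk3 f2Apk1 t 1 1 1 = true := h0_2Apk1

noncomputable def f2Apk2 : ℕ → ℕ → ℕ → ℕ → Bool :=
  onCell 0 92274688 0 1048576 1040187392 5207648 (c2_Apk2.row false 46137344)

def h0_2Apk2 : ∃ t, chk3 f2Apk2 t 1 1 1 = true :=
  ⟨(a (a (l 7) (a (l 7) (a (a (c (l 7) (l 8)) (c (l 8) (l 8))) (a (c (l 8) (l 8)) (c (l 10) (l 10)))))) (a (a (a (a (c (l 10) (l 10)) (l 13)) (l 13)) (l 13)) (l 5))), by decide +kernel⟩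

theorem ct_2Apk2 : ∃ t, chk3 f2Apk2 t 1 1 1 = true := h0_2Apk2

noncomputable def f2Am : ℕ → ℕ → ℕ → ℕ → Bool :=
  onCell 0 92274688 0 1048576 1040187392 5207648 (c2_Am.row true 46137344)

def h0_2Am : ∃ t, chk3 f2Am t 1 1 1 = true :=
  ⟨(a (a (l 7) (a (l 7) (a (a (c (l 7) (l 8)) (c (a (l 7) (l 8)) (a (l 8) (l 8)))) (a (c (a (l 8) (c (l 8) (l 8))) (a (l 8) (c (l 8) (l 8)))) (c (a (c (l 8) (l 8)) (c (a (l 8) (l 8)) (a (l 8) (l 8)))) (a (c (l 8) (l 8)) (c (a (l 8) (l 8)) (a (l 8) (l 8))))))))) (a (a (a (a (c (a (a (c (l 8) (c (l 8) (l 8))) (l 13)) (l 13)) (a (a (a (c (l 8) (l 8)) (l 13)) (l 13)) (l 13))) (l 13)) (l 13)) (l 13)) (l 5))), by decide +kernel⟩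

theorem ct_2Am : ∃ t, chk3 f2Am t 1 1 1 = true := h0_2Am

noncomputable def f2Bp : ℕ → ℕ → ℕ → ℕ → Bool :=
  onCell 0 92274688 0 1048576 1040187392 5207648 (c2_Bp.row false 46137344)

def h0_2Bp : ∃ t, chk3 f2Bp t 2 1 1 = true :=
  ⟨(a (l 7) (a (l 7) (a (a (c (l 7) (a (l 7) (l 16))) (c (a (l 7) (c (l 16) (l 16))) (a (l 16) (c (l 16) (l 16))))) (a (c (a (b (l 16) (c (l 8) (l 8))) (c (a (l 8) (l 8)) (a (l 8) (l 8)))) (a (b (l 16) (c (l 8) (l 8))) (c (a (l 8) (l 8)) (a (l 8) (l 8))))) (c (a (c (a (l 8) (c (l 8) (l 8))) (a (l 8) (c (l 8) (l 8)))) (c (b (a (l 8) (c (l 8) (l 8))) (a (l 8) (c (l 8) (l 8)))) (b (a (l 8) (c (l 8) (l 8))) (a (l 8) (c (l 8) (l 8)))))) (a (c (b (a (l 8) (l 8)) (a (l 8) (l 8))) (a (c (l 8) (l 8)) (c (l 8) (l 8)))) (c (b (a (l 8) (c (l 8) (l 8))) (a (l 8) (c (l 8) (l 8)))) (b (a (l 8) (c (l 8) (l 8)))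 (a (l 8) (c (l 8) (l 8))))))))))), by decide +kernel⟩

def h1_2Bp : ∃ t, chk3 f2Bp t 3 1 1 = true :=
  ⟨(a (a (a (a (a (c (a (a (a (a (a (a (a (a (a (a (a (a (a (a (a (a (a (a (c (c (l 8) (l 8)) (c (l 8) (l 8))) (l 13)) (l 13)) (l 13)) (l 13)) (l 13)) (l 13)) (l 13)) (l 13)) (l 13)) (l 13)) (l 13)) (l 13)) (l 13)) (l 13)) (l 13)) (l 13)) (l 13)) (l 13)) (a (a (a (a (a (a (a (a (a (a (a (a (a (a (a (a (a (a (c (c (l 8) (l 8)) (c (l 8) (l 8))) (l 13)) (l 13)) (l 13)) (l 13)) (l 13)) (l 13)) (l 13)) (l 13)) (l 13)) (l 13)) (l 13)) (l 13)) (l 13)) (l 13)) (l 13)) (l 13)) (l 13)) (l 13))) (l 13)) (l 13)) (l 13)) (l 13)) (l 5)), by decide +kernel⟩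

theorem h2_2Bp : ∃ t, chk3 f2Bp t 1 1 1 = true := ex3_a h0_2Bp h1_2Bp

theorem ct_2Bp : ∃ t, chk3 f2Bp t 1 1 1 = true := h2_2Bp

noncomputable def f2Bpk1 : ℕ → ℕ → ℕ → ℕ → Bool :=
  onCell 0 92274688 0 1048576 1040187392 5207648 (c2_Bpk1.row false 46137344)

def h0_2Bpk1 : ∃ t, chk3 f2Bpk1 t 1 1 1 = true :=
  ⟨(a (a (l 7) (a (l 7) (a (a (c (l 7) (a (l 7) (l 8))) (c (a (l 7) (l 8)) (a (l 8) (l 8)))) (a (c (a (l 8) (c (l 8) (l 8))) (a (l 8) (c (l 8) (l 8)))) (c (a (c (l 8) (l 8)) (c (l 8) (l 8))) (a (c (l 8) (l 8)) (c (l 8) (l 8)))))))) (a (a (a (a (a (c (c (l 8) (l 8)) (a (c (l 8) (l 8)) (l 13))) (l 13)) (l 13)) (l 13)) (l 13)) (l 5))), by decide +kernel⟩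

theorem ct_2Bpk1 : ∃ t, chk3 f2Bpk1 t 1 1 1 = true := h0_2Bpk1

noncomputable def f2Bpk2 : ℕ → ℕ → ℕ → ℕ → Bool :=
  onCell 0 92274688 0 1048576 1040187392 5207648 (c2_Bpk2.row false 46137344)

def h0_2Bpk2 : ∃ t, chk3 f2Bpk2 t 1 1 1 = true :=
  ⟨(a (a (l 7) (a (l 7) (a (a (c (l 7) (l 8)) (c (l 8) (l 8))) (a (c (l 8) (a (l 8) (l 8))) (c (a (l 8) (l 8)) (a (l 8) (l 8))))))) (a (a (a (a (c (a (l 8) (l 13)) (a (l 8) (l 13))) (l 13)) (l 13)) (l 13)) (l 5))), by decide +kernel⟩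

theorem ct_2Bpk2 : ∃ t, chk3 f2Bpk2 t 1 1 1 = true := h0_2Bpk2

noncomputable def f2Bm : ℕ → ℕ → ℕ → ℕ → Bool :=
  onCell 0 92274688 0 1048576 1040187392 5207648 (c2_Bm.row true 46137344)

def h0_2Bm : ∃ t, chk3 f2Bm t 1 1 1 = true :=
  ⟨(a (a (l 7) (a (l 7) (a (a (c (l 7) (l 16)) (c (a (l 7) (c (l 16) (l 16))) (a (l 16) (l 16)))) (a (c (a (c (l 16) (l 16)) (c (b (l 16) (l 16)) (a (l 16) (l 16)))) (a (c (l 16) (l 16)) (c (a (l 16) (l 16)) (a (l 16) (l 16))))) (c (a (c (a (c (l 8) (l 8)) (c (l 8) (l 8))) (a (c (l 8) (l 8)) (c (l 8) (l 8)))) (c (a (c (l 8) (l 8)) (c (l 10) (l 10))) (a (c (l 8) (l 8)) (c (l 10) (l 10))))) (a (c (a (c (l 8) (l 8)) (c (l 8) (l 8))) (a (c (l 8) (l 8)) (c (l 8) (b (l 8) (l 8))))) (c (a (c (l 8) (l 8)) (c (l 10) (l 10))) (a (c (b (l 8) (l 8)) (b (l 8) (l 8))) (c (b (l 10) (l 10)) (b (l 10) (l 10)))))))))))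 (a (a (a (a (a (c (a (a (a (c (l 10) (l 10)) (l 13)) (l 13)) (l 13)) (a (a (a (a (a (c (l 10) (c (l 10) (l 10))) (l 13)) (l 13)) (l 13)) (l 13)) (l 13))) (l 13)) (l 13)) (l 13)) (l 13)) (l 5))), by decide +kernel⟩

theorem ct_2Bm : ∃ t, chk3 f2Bm t 1 1 1 = true := h0_2Bm

end Pool.Agent.Strip051.G.I9688_9736.Tab.Mo
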