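import Pool.Agent.Strip051.G.I9688_9736.MolD

/-! # The tight charts of a table: certificates (generated) -/

set_option linter.all false
set_option maxRecDepth 100000

namespace Pool.Agent.Strip051.G.I9688_9736.Tab.Mo

open Pool.Agent.Strip051.PB Pool.Agent.Strip051.PB.Mol Pool.Agent.Strip051.PB.T
open Pool.Agent.Strip051.G.I9688_9736.Tab

noncomputable def f3Ap : ℕ → ℕ → ℕ → ℕ → Bool :=
  onCell 0 92274688 0 1048576 1040187392 5207648 (c3_Ap.row false 46137344)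

def h0_3Ap : ∃ t, chk3 f3Ap t 2 1 1 = true :=
  ⟨(a (l 7) (a (l 7) (a (l 13) (a (l 13) (a (l 13) (a (l 13) (a (l 13) (a (l 13) (a (l 13) (a (l 13) (a (l 13) (a (l 13) (a (l 13) (a (l 13) (a (l 13) (a (l 13) (a (l 13) (a (l 13) (a (l 13) (a (l 13) (a (l 13) (a (l 13) (a (l 13) (c (c (l 10) (l 10)) (c (l 10) (l 10)))))))))))))))))))))))))), by decide +kernel⟩

def h1_3Ap : ∃ t, chk3 f3Ap t 24 1 1 = true :=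
  ⟨(a (c (a (c (a (l 10) (l 2)) (a (l 10) (l 2))) (c (a (l 2) (l 2)) (a (l 2) (l 2)))) (a (c (a (l 10) (l 2)) (a (l 10) (l 2))) (c (a (l 2) (l 2)) (a (l 2) (l 2))))) (c (a (c (a (l 2) (l 2)) (a (l 2) (l 2))) (c (a (l 2) (l 2)) (c (l 2) (l 2)))) (a (c (a (l 2) (l 2)) (a (l 2) (c (l 2) (l 2)))) (c (a (c (l 2) (l 2)) (c (l 2) (l 2))) (a (c (l 2) (l 2)) (c (l 2) (l 2))))))), by decide +kernel⟩

def h2_3Ap : ∃ t, chk3 f3Ap t 50 1 1 = true :=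
  ⟨(c (a (c (a (l 2) (c (l 2) (l 2))) (a (c (l 2) (l 2)) (c (l 2) (l 2)))) (c (a (c (l 2) (l 2)) (c (l 2) (l 2))) (a (c (l 2) (l 2)) (c (l 2) (l 2))))) (a (c (a (c (l 2) (l 2)) (c (l 2) (l 2))) (a (c (l 2) (l 2)) (c (l 2) (l 2)))) (c (a (c (l 2) (l 2)) (c (l 2) (l 2))) (a (c (l 2) (b (l 2) (l 2))) (c (b (l 2) (l 2)) (b (l 2) (l 2))))))), by decide +kernel⟩

def h3_3Ap : ∃ t, chk3 f3Ap t 51 1 1 = true :=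
  ⟨(c (a (c (a (c (l 2) (l 2)) (c (l 2) (l 2))) (a (c (l 2) (l 2)) (c (l 2) (b (l 2) (l 2))))) (c (a (c (l 2) (l 2)) (c (l 2) (b (l 2) (l 2)))) (b (a (c (l 2) (l 2)) (c (l 2) (l 2))) (a (c (l 2) (l 2)) (c (l 2) (a (l 2) (l 2))))))) (b (a (c (a (c (l 2) (l 2)) (c (l 2) (l 2))) (a (c (l 2) (a (l 2) (l 2))) (c (a (l 2) (l 2)) (a (l 2) (l 2))))) (c (a (c (l 2) (a (l 2) (l 2))) (c (a (l 2) (l 2)) (a (l 2) (l 2)))) (a (c (a (l 2) (l 2)) (a (l 2) (l 5))) (l 5)))) (a (c (a (c (l 2) (l 2)) (c (l 2) (l 2))) (a (c (l 2) (a (l 2) (l 2))) (c (a (l 2) (l 2)) (a (l 2) (l 9))))) (c (a (c (a (l 2) (l 2)) (a (l 2) (l 2))) (c (a (l 2) (l 2)) (a (l 2) (l 9)))) (b (a (c (l 2) (l 9)) (l 5)) (l 9)))))), by decide +kernel⟩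

def h4_3Ap : ∃ t, chk3 f3Ap t 13 1 1 = true :=
  ⟨(a (a (c (b (a (c (a (c (l 2) (l 2)) (c (l 2) (l 2))) (a (c (l 2) (a (l 2) (l 2))) (c (a (l 2) (l 2)) (a (l 2) (l 2))))) (c (a (c (l 2) (a (l 2) (l 2))) (c (a (l 2) (l 2)) (a (l 2) (l 5)))) (a (c (a (l 2) (l 2)) (l 5)) (l 5)))) (a (c (a (c (l 2) (l 2)) (c (l 2) (a (l 2) (l 2)))) (a (c (a (l 2) (l 2)) (a (l 2) (l 2))) (c (a (l 2) (l 2)) (l 9)))) (c (b (a (c (l 2) (a (l 2) (l 2))) (c (a (l 2) (l 2)) (l 9))) (a (c (l 2) (a (l 2) (l 9))) (c (a (l 2) (l 9)) (l 9)))) (l 9)))) (a (c (a (c (b (a (l 2) (l 2)) (b (l 2) (l 9))) (l 5)) (l 5)) (l 5)) (l 5))) (c (b (a (c (a (c (a (l 2) (l 5)) (l 5)) (l 5)) (l 5)) (l 5)) (l 9)) (l 5))) (l 5)), by decide +kernel⟩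

def h5_3Ap : ∃ t, chk3 f3Ap t 7 1 1 = true :=
  ⟨(l 5), by decide +kernel⟩

theorem h6_3Ap : ∃ t, chk3 f3Ap t 25 1 1 = true := ex3_a h2_3Ap h3_3Ap

theorem h7_3Ap : ∃ t, chk3 f3Ap t 12 1 1 = true := ex3_a h1_3Ap h6_3Ap

theorem h8_3Ap : ∃ t, chk3 f3Ap t 6 1 1 = true := ex3_a h7_3Ap h4_3Ap

theorem h9_3Ap : ∃ t, chk3 f3Ap t 3 1 1 = true := ex3_a h8_3Ap h5_3Ap

theorem h10_3Ap : ∃ t, chk3 f3Ap t 1 1 1 = true := ex3_a h0_3Ap h9_3Ap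

theorem ct_3Ap : ∃ t, chk3 f3Ap t 1 1 1 = true := h10_3Ap

noncomputable def f3Apk1 : ℕ → ℕ → ℕ → ℕ → Bool :=
  onCell 0 92274688 0 1048576 1040187392 5207648 (c3_Apk1.row false 46137344)

def h0_3Apk1 : ∃ t, chk3 f3Apk1 t 1 1 1 = true :=
  ⟨(a (a (l 7) (a (l 7) (a (l 13) (a (l 13) (a (l 13) (c (l 10) (l 10))))))) (a (a (a (a (c (a (l 10) (l 2)) (a (c (l 10) (l 10)) (l 2))) (c (c (l 2) (l 2)) (a (c (l 2) (l 2)) (c (l 2) (l 2))))) (a (c (a (c (l 2) (l 2)) (c (l 2) (l 2))) (a (c (l 2) (l 2)) (c (l 2) (l 2)))) (c (a (c (l 2) (l 2)) (c (l 2) (a (l 2) (l 2)))) (b (a (c (l 2) (l 2)) (c (l 2) (a (l 2) (l 5)))) (a (c (l 2) (a (l 2) (c (l 2) (l 2)))) (c (a (l 2) (c (l 2) (l 2))) (b (l 2) (l 9)))))))) (a (a (c (b (a (c (l 2) (l 2)) (c (a (l 2) (l 2)) (a (l 2) (l 5)))) (a (c (l 2) (a (l 2) (c (l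 2) (l 9)))) (c (a (l 2) (c (l 2) (l 9))) (l 9)))) (a (c (a (c (b (l 2) (l 2)) (l 5)) (l 5)) (l 5)) (l 5))) (c (b (a (c (a (l 2) (l 5)) (l 5)) (l 5)) (l 9)) (l 5))) (l 5))) (l 5))), by decide +kernel⟩

theorem ct_3Apk1 : ∃ t, chk3 f3Apk1 t 1 1 1 = true := h0_3Apk1

noncomputable def f3Apk2 : ℕ → ℕ → ℕ → ℕ → Bool :=
  onCell 0 92274688 0 1048576 1040187392 5207648 (c3_Apk2.row false 46137344)

def h0_3Apk2 : ∃ t, chk3 f3Apk2 t 1 1 1 = true :=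
  ⟨(a (a (l 7) (a (l 7) (a (l 13) (a (l 13) (c (l 10) (l 10)))))) (a (a (a (a (c (l 10) (l 10)) (c (l 2) (l 2))) (a (c (l 2) (a (l 2) (l 2))) (c (a (l 2) (l 2)) (a (c (l 2) (l 2)) (c (a (l 2) (l 2)) (a (l 2) (l 5))))))) (a (a (c (a (c (l 2) (a (l 2) (l 2))) (c (a (l 2) (l 2)) (b (l 2) (l 9)))) (a (c (a (c (l 2) (l 5)) (l 5)) (l 5)) (l 5))) (c (b (a (c (l 2) (l 5)) (l 5)) (l 9)) (l 5))) (l 5))) (l 5))), by decide +kernel⟩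

theorem ct_3Apk2 : ∃ t, chk3 f3Apk2 t 1 1 1 = true := h0_3Apk2

noncomputable def f3Am : ℕ → ℕ → ℕ → ℕ → Bool :=
  onCell 0 92274688 0 1048576 1040187392 5207648 (c3_Am.row true 46137344)

def h0_3Am : ∃ t, chk3 f3Am t 2 1 1 = true :=
  ⟨(a (l 7) (a (l 7) (a (l 13) (a (l 13) (c (a (l 13) (a (l 13) (c (l 10) (l 10)))) (a (l 13) (a (l 13) (c (l 10) (l 10))))))))), by decide +kernel⟩

def h1_3Am : ∃ t, chk3 f3Am t 24 1 1 = true :=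
  ⟨(a (c (a (c (a (l 10) (c (l 10) (l 10))) (a (c (l 10) (l 10)) (b (l 2) (l 10)))) (c (a (l 2) (l 2)) (a (l 2) (l 2)))) (a (c (a (c (l 10) (l 10)) (b (l 2) (c (l 10) (l 10)))) (a (c (l 10) (l 10)) (b (l 2) (c (l 10) (l 10))))) (c (a (l 2) (l 2)) (a (l 2) (l 2))))) (c (a (c (a (l 2) (l 2)) (a (l 2) (l 2))) (c (a (l 2) (l 2)) (a (l 2) (l 2)))) (a (c (a (l 2) (l 2)) (a (l 2) (c (l 2) (l 2)))) (c (a (l 2) (c (l 2) (l 2))) (b (a (l 2) (l 2)) (a (l 2) (l 2))))))), by decide +kernel⟩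

def h2_3Am : ∃ t, chk3 f3Am t 25 1 1 = true :=
  ⟨(a (c (a (c (a (l 2) (l 2)) (a (l 2) (c (l 2) (l 2)))) (c (a (l 2) (c (l 2) (l 2))) (b (a (l 2) (l 2)) (a (l 2) (l 2))))) (a (c (b (a (l 2) (l 2)) (a (l 2) (l 2))) (b (a (l 2) (l 2)) (a (l 2) (l 2)))) (c (b (a (l 2) (l 2)) (a (l 2) (l 2))) (b (a (l 2) (c (l 2) (l 2))) (a (l 2) (c (l 2) (l 2))))))) (c (a (c (b (a (l 2) (l 2)) (a (l 2) (l 2))) (b (a (l 2) (l 2)) (a (l 2) (l 2)))) (c (b (a (l 2) (l 2)) (a (l 2) (l 2))) (b (a (l 2) (c (l 2) (l 2))) (a (l 2) (c (l 2) (l 2)))))) (a (c (b (a (l 2) (c (l 2) (l 2))) (a (l 2) (c (l 2) (l 2)))) (b (a (c (l 2) (l 2)) (c (l 2) (l 2))) (a (c (l 2) (l 2)) (c (l 2) (l 2))))) (c (b (a (c (l 2) (l 2)) (c (l 2) (l 2))) (a (c (l 2) (l 2)) (c (l 2) (l 2)))) (a (b (c (l 2) (l 2)) (c (l 2) (l 2))) (l 5)))))),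 by decide +kernel⟩

def h3_3Am : ∃ t, chk3 f3Am t 13 1 1 = true :=
  ⟨(a (a (c (a (c (b (a (l 2) (c (l 2) (l 2))) (a (l 2) (c (l 2) (l 2)))) (b (a (c (l 2) (l 2)) (c (l 2) (l 2))) (a (c (l 2) (l 2)) (c (l 2) (l 2))))) (c (b (a (c (l 2) (l 2)) (c (l 2) (l 2))) (a (c (l 2) (l 2)) (c (l 2) (l 2)))) (a (c (b (l 2) (l 2)) (l 5)) (l 5)))) (a (c (a (c (b (l 2) (l 2)) (l 5)) (l 5)) (l 5)) (l 5))) (c (a (c (a (c (b (l 2) (l 2)) (l 5)) (l 5)) (l 5)) (l 5)) (l 5))) (l 5)), by decide +kernel⟩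

def h4_3Am : ∃ t, chk3 f3Am t 7 1 1 = true :=
  ⟨(l 5), by decide +kernel⟩

theorem h5_3Am : ∃ t, chk3 f3Am t 12 1 1 = true := ex3_a h1_3Am h2_3Am

theorem h6_3Am : ∃ t, chk3 f3Am t 6 1 1 = true := ex3_a h5_3Am h3_3Am

theorem h7_3Am : ∃ t, chk3 f3Am t 3 1 1 = true := ex3_a h6_3Am h4_3Am

theorem h8_3Am : ∃ t, chk3 f3Am t 1 1 1 = true := ex3_a h0_3Am h7_3Am

theorem ct_3Am : ∃ t, chk3 f3Am t 1 1 1 = true := h8_3Am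

noncomputable def f3Bp : ℕ → ℕ → ℕ → ℕ → Bool :=
  onCell 0 92274688 0 1048576 1040187392 5207648 (c3_Bp.row false 46137344)

def h0_3Bp : ∃ t, chk3 f3Bp t 2 1 1 = true :=
  ⟨(a (l 7) (a (l 7) (a (l 13) (a (l 13) (c (a (l 13) (a (l 13) (a (l 13) (a (l 13) (a (l 13) (a (l 13) (a (l 13) (a (l 13) (a (l 13) (a (l 13) (a (l 13) (a (l 13) (a (l 13) (a (l 13) (a (l 13) (a (l 13) (a (l 13) (a (l 13) (a (l 13) (c (c (l 10) (l 10)) (c (l 10) (l 10)))))))))))))))))))))) (a (l 13) (a (l 13) (a (l 13) (a (l 13) (a (l 13) (a (l 13) (a (l 13) (a (l 13) (a (l 13) (a (l 13) (a (l 13) (a (l 13) (a (l 13) (a (l 13) (a (l 13) (a (l 13) (a (l 13) (a (l 13) (a (l 13) (c (c (l 10) (l 10)) (c (l 10) (l 10))))))))))))))))))))))))))), by decide +kernel⟩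

def h1_3Bp : ∃ t, chk3 f3Bp t 48 1 1 = true :=
  ⟨(c (a (c (b (a (c (a (l 10) (l 10)) (a (l 10) (l 10))) (c (l 2) (l 2))) (a (c (l 10) (l 10)) (a (c (l 10) (l 10)) (l 2)))) (b (a (c (a (l 10) (l 10)) (a (l 10) (l 10))) (c (l 2) (l 2))) (a (c (a (l 8) (l 10)) (a (l 8) (l 10))) (a (c (l 10) (c (l 10) (l 10))) (l 2))))) (c (b (a (c (l 2) (l 2)) (c (l 2) (l 2))) (a (c (l 2) (l 2)) (c (l 2) (l 2)))) (b (a (c (l 2) (l 2)) (c (l 2) (l 2))) (a (c (l 2) (l 2)) (c (l 2) (l 2)))))) (a (c (b (a (c (a (l 10) (l 10)) (a (l 10) (l 10))) (c (l 2) (l 2))) (a (c (a (l 8) (l 10)) (a (l 8) (l 10))) (c (a (c (l 10) (l 10)) (l 2)) (a (c (l 10) (l 10)) (l 2))))) (b (a (c (a (l 10) (l 10)) (a (l 10) (l 10))) (c (l 2) (l 2))) (a (c (a (l 8) (l 10)) (a (l 8) (l 10))) (c (a (c (l 10) (l 10)) (l 2)) (a (c (l 10)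 (l 10)) (l 2)))))) (c (b (a (c (l 2) (l 2)) (c (l 2) (l 2))) (a (c (l 2) (l 2)) (c (l 2) (l 2)))) (b (a (c (l 2) (l 2)) (c (l 2) (l 2))) (a (c (l 2) (l 2)) (c (l 2) (a (l 2) (l 2)))))))), by decide +kernel⟩

def h2_3Bp : ∃ t, chk3 f3Bp t 49 1 1 = true :=
  ⟨(c (a (c (b (a (c (l 2) (l 2)) (c (l 2) (l 2))) (a (c (l 2) (l 2)) (c (l 2) (l 2)))) (b (a (c (l 2) (l 2)) (c (l 2) (l 2))) (a (c (l 2) (l 2)) (c (l 2) (l 2))))) (c (b (a (c (l 2) (l 2)) (c (l 2) (l 2))) (a (c (l 2) (l 2)) (c (l 2) (l 2)))) (b (a (c (l 2) (l 2)) (c (l 2) (l 2))) (a (c (l 2) (a (l 2) (l 2))) (c (a (l 2) (l 2)) (a (l 2) (l 2))))))) (a (c (b (a (c (l 2) (l 2)) (c (l 2) (l 2))) (a (c (l 2) (l 2)) (c (l 2) (a (l 2) (l 2))))) (b (a (c (l 2) (l 2)) (c (l 2) (a (l 2) (l 2)))) (a (c (a (l 2) (l 2)) (a (l 2) (l 2))) (c (a (l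 2) (l 2)) (a (l 2) (l 2)))))) (c (b (a (c (l 2) (l 2)) (c (a (l 2) (l 2)) (a (l 2) (l 2)))) (a (c (a (l 2) (l 2)) (a (l 2) (l 2))) (c (a (l 2) (l 2)) (a (l 2) (l 2))))) (b (a (c (a (l 2) (l 2)) (a (l 2) (l 2))) (c (a (l 2) (l 2)) (a (l 2) (l 2)))) (a (c (a (l 2) (l 2)) (a (l 2) (l 2))) (c (a (l 2) (l 2)) (a (l 2) (l 2)))))))), by decide +kernel⟩

def h3_3Bp : ∃ t, chk3 f3Bp t 50 1 2 = true :=
  ⟨(a (c (b (a (c (l 2) (l 2)) (c (l 2) (l 2))) (a (c (l 2) (a (l 2) (l 2))) (c (a (l 2) (l 2)) (a (l 2) (l 2))))) (b (a (c (l 2) (a (l 2) (l 2))) (c (a (l 2) (l 2)) (a (l 2) (l 2)))) (a (c (a (l 2) (l 2)) (a (l 2) (l 2))) (c (a (l 2) (l 2)) (a (l 2) (l 2)))))) (c (b (a (c (l 2) (a (l 2) (l 2))) (c (a (l 2) (l 2)) (a (l 2) (l 2)))) (a (c (a (l 2) (l 2)) (a (l 2) (l 2))) (c (a (l 2) (l 2)) (a (l 2)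 (l 2))))) (b (a (c (a (l 2) (l 2)) (a (l 2) (l 2))) (c (a (l 2) (l 2)) (a (l 2) (l 2)))) (a (c (a (l 2) (l 2)) (a (l 2) (l 2))) (c (a (l 2) (l 2)) (a (l 2) (l 2))))))), by decide +kernel⟩

def h4_3Bp : ∃ t, chk3 f3Bp t 50 1 3 = true :=
  ⟨(a (c (b (a (c (a (l 2) (l 2)) (a (l 2) (l 2))) (c (a (l 2) (l 2)) (a (l 2) (l 2)))) (a (c (a (l 2) (l 2)) (a (l 2) (l 2))) (c (a (l 2) (l 2)) (a (l 2) (l 2))))) (b (a (c (a (l 2) (l 2)) (a (l 2) (l 2))) (c (a (l 2) (l 2)) (a (l 2) (c (l 2) (l 2))))) (a (c (a (l 2) (l 2)) (a (l 2) (l 2))) (c (a (l 2) (c (l 2) (l 2))) (a (c (l 2) (l 2)) (c (l 2) (l 2))))))) (c (b (a (c (a (l 2) (l 2)) (a (l 2) (l 2))) (c (a (l 2) (l 2)) (a (c (l 2) (l 2)) (c (l 2) (l 2))))) (a (c (a (l 2) (l 2)) (a (l 2) (c (l 2) (l 2)))) (c (a (l 2) (c (l 2) (l 2))) (a (c (l 2) (l 2))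 (c (l 2) (l 2)))))) (a (b (c (a (c (l 2) (l 2)) (c (l 2) (l 2))) (a (c (l 2) (l 2)) (c (l 2) (l 2)))) (c (a (c (l 2) (l 2)) (c (l 2) (l 2))) (a (c (l 2) (l 2)) (c (l 2) (l 2))))) (b (c (a (c (l 2) (l 2)) (c (l 2) (l 2))) (a (c (l 2) (l 2)) (c (l 2) (l 2)))) (c (a (c (l 2) (l 2)) (c (l 2) (l 2))) (a (c (l 2) (l 2)) (c (l 2) (l 2)))))))), by decide +kernel⟩

def h5_3Bp : ∃ t, chk3 f3Bp t 51 1 2 = true :=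
  ⟨(a (c (b (a (c (a (l 2) (l 2)) (a (l 2) (l 2))) (c (a (l 2) (l 2)) (a (l 2) (l 2)))) (a (c (a (l 2) (l 2)) (a (l 2) (l 2))) (c (a (l 2) (l 2)) (a (l 2) (l 2))))) (b (a (c (a (l 2) (l 2)) (a (l 2) (l 2))) (c (a (l 2) (c (l 2) (l 2))) (a (c (l 2) (l 2)) (c (l 2) (l 2))))) (a (c (a (l 2) (l 2)) (a (l 2) (c (l 2) (l 2)))) (c (a (c (l 2) (l 2)) (c (l 2) (l 2))) (a (c (l 2) (l 2)) (c (l 2) (l 2))))))) (c (a (b (c (a (l 2) (l 2)) (a (l 2) (c (l 2) (l 2)))) (c (a (l 2) (l 2)) (a (c (l 2) (l 2)) (c (l 2) (l 2))))) (b (c (a (l 2) (c (l 2) (l 2))) (a (c (l 2) (l 2)) (c (l 2) (l 2)))) (c (a (c (l 2) (l 2)) (c (l 2) (l 2))) (a (c (l 2) (l 2)) (c (l 2) (l 2)))))) (a (b (c (a (c (l 2) (l 2)) (c (l 2) (l 2))) (a (c (l 2) (l 2)) (c (l 2) (l 2)))) (c (a (c (l 2) (l 2)) (c (l 2) (l 2))) (a (c (l 2) (l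 2)) (c (l 2) (l 2))))) (b (c (a (c (l 2) (l 2)) (c (l 2) (l 2))) (a (c (l 2) (l 2)) (c (l 2) (l 2)))) (c (a (c (l 2) (l 2)) (c (l 2) (l 2))) (a (c (l 2) (l 2)) (c (l 2) (l 2)))))))), by decide +kernel⟩

def h6_3Bp : ∃ t, chk3 f3Bp t 102 1 3 = true :=
  ⟨(c (a (b (c (a (c (l 2) (l 2)) (c (l 2) (l 2))) (a (c (l 2) (l 2)) (c (l 2) (l 2)))) (c (a (c (l 2) (l 2)) (c (l 2) (l 2))) (a (c (l 2) (l 2)) (c (l 2) (l 2))))) (b (c (a (c (l 2) (l 2)) (c (l 2) (l 2))) (a (c (l 2) (l 2)) (c (l 2) (l 2)))) (c (a (c (l 2) (l 2)) (c (l 2) (l 2))) (a (c (l 2) (l 2)) (c (l 2) (l 2)))))) (b (a (c (a (c (l 2) (l 2)) (c (l 2) (l 2))) (a (c (l 2) (l 2)) (c (l 2) (l 2)))) (c (a (c (l 2) (l 2)) (c (l 2) (l 2))) (a (c (l 2) (l 2)) (c (l 2) (b (l 2) (l 2)))))) (a (c (a (c (l 2) (l 2)) (c (l 2) (l 2))) (a (c (l 2)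 (l 2)) (c (l 2) (l 2)))) (c (a (c (l 2) (l 2)) (c (l 2) (l 2))) (a (c (l 2) (l 2)) (c (l 2) (l 2))))))), by decide +kernel⟩

def h7_3Bp : ∃ t, chk3 f3Bp t 103 1 3 = true :=
  ⟨(c (b (a (c (a (c (l 2) (l 2)) (c (l 2) (l 2))) (a (c (l 2) (l 2)) (c (l 2) (l 2)))) (c (a (c (l 2) (l 2)) (c (l 2) (l 2))) (b (a (c (l 2) (l 2)) (c (l 2) (l 5))) (a (c (l 2) (l 2)) (c (l 2) (l 5)))))) (a (c (a (c (l 2) (l 2)) (c (l 2) (l 2))) (a (c (l 2) (l 2)) (c (l 2) (l 2)))) (c (a (c (l 2) (l 2)) (c (l 2) (l 2))) (a (c (l 2) (l 2)) (c (l 2) (l 5)))))) (a (b (c (b (a (c (l 2) (l 2)) (c (l 2) (l 5))) (a (l 2) (c (l 2) (l 5)))) (a (c (b (l 2) (l 2)) (l 5)) (l 5))) (c (a (c (l 2) (l 2)) (c (l 2) (l 5))) (a (c (l 2) (l 5)) (l 5)))) (l 5))), by decide +kernel⟩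

def h8_3Bp : ∃ t, chk3 f3Bp t 104 1 2 = true :=
  ⟨(c (a (b (c (a (c (l 2) (l 2)) (c (l 2) (l 2))) (a (c (l 2) (l 2)) (c (l 2) (l 2)))) (c (a (c (l 2) (l 2)) (c (l 2) (l 2))) (a (c (l 2) (l 2)) (c (l 2) (l 2))))) (b (c (a (c (l 2) (l 2)) (c (l 2) (l 2))) (a (c (l 2) (l 2)) (c (l 2) (l 2)))) (c (a (c (l 2) (l 2)) (c (l 2) (l 2))) (a (c (l 2) (l 2)) (c (l 2) (l 2)))))) (b (a (c (a (c (l 2) (l 2)) (c (l 2) (l 2))) (b (a (l 2) (c (l 2) (l 2))) (a (l 2) (l 2)))) (c (b (a (l 2) (c (l 2) (l 2))) (a (l 2) (l 2))) (b (a (c (l 2) (l 2)) (c (l 2) (l 5))) (a (c (l 2) (l 2)) (c (l 2) (l 5)))))) (a (c (a (c (l 2) (l 2)) (c (l 2) (l 2))) (a (c (l 2) (l 2)) (c (l 2) (l 2)))) (c (a (c (l 2) (l 2)) (c (l 2) (l 2))) (a (c (l 2) (l 2)) (c (l 2) (l 5))))))), by decide +kernel⟩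

def h9_3Bp : ∃ t, chk3 f3Bp t 105 1 2 = true :=
  ⟨(b (c (a (c (a (c (l 2) (l 2)) (c (l 2) (l 2))) (b (a (l 2) (c (l 2) (l 2))) (a (l 2) (c (l 2) (l 2))))) (c (b (a (l 2) (c (l 2) (l 2))) (a (l 2) (c (l 2) (l 2)))) (a (b (c (l 2) (l 2)) (c (l 2) (l 2))) (l 5)))) (a (c (b (a (c (l 2) (l 2)) (c (l 2) (l 5))) (a (c (l 2) (l 2)) (c (l 2) (l 5)))) (l 5)) (l 5))) (c (a (c (a (c (l 2) (l 2)) (c (l 2) (l 2))) (a (c (l 2) (l 2)) (c (l 2) (l 2)))) (c (a (c (l 2) (l 2)) (c (l 2) (l 2))) (a (c (l 2) (b (l 2) (l 2))) (l 5)))) (a (c (b (a (c (l 2) (l 2)) (c (l 2) (l 5))) (a (l 2) (c (l 2) (l 5)))) (l 5)) (l 5)))), by decide +kernel⟩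

def h10_3Bp : ∃ t, chk3 f3Bp t 52 1 3 = true :=
  ⟨(a (c (a (c (b (b (a (c (l 2) (l 2)) (c (l 2) (l 5))) (a (c (l 2) (l 2)) (c (l 2) (l 5)))) (a (c (l 2) (l 2)) (c (l 2) (l 5)))) (l 5)) (l 5)) (l 5)) (l 5)), by decide +kernel⟩

def h11_3Bp : ∃ t, chk3 f3Bp t 53 1 1 = true :=
  ⟨(c (a (c (a (c (b (a (c (b (l 2) (l 2)) (l 5)) (l 5)) (a (c (l 2) (l 5)) (l 5))) (l 5)) (l 5)) (l 5)) (l 5)) (l 5)), by decide +kernel⟩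

def h12_3Bp : ∃ t, chk3 f3Bp t 27 1 1 = true :=
  ⟨(l 5), by decide +kernel⟩

def h13_3Bp : ∃ t, chk3 f3Bp t 7 1 1 = true :=
  ⟨(l 5), by decide +kernel⟩

theorem h14_3Bp : ∃ t, chk3 f3Bp t 52 1 2 = true := ex3_a h8_3Bp h9_3Bp

theorem h15_3Bp : ∃ t, chk3 f3Bp t 52 1 1 = true := ex3_c h14_3Bp h10_3Bp

theorem h16_3Bp : ∃ t, chk3 f3Bp t 26 1 1 = true := ex3_a h15_3Bp h11_3Bp

theorem h17_3Bp : ∃ t, chk3 f3Bp t 13 1 1 = true := ex3_a h16_3Bp h12_3Bp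

theorem h18_3Bp : ∃ t, chk3 f3Bp t 51 1 3 = true := ex3_a h6_3Bp h7_3Bp

theorem h19_3Bp : ∃ t, chk3 f3Bp t 51 1 1 = true := ex3_c h5_3Bp h18_3Bp

theorem h20_3Bp : ∃ t, chk3 f3Bp t 50 1 1 = true := ex3_c h3_3Bp h4_3Bp

theorem h21_3Bp : ∃ t, chk3 f3Bp t 25 1 1 = true := ex3_a h20_3Bp h19_3Bp

theorem h22_3Bp : ∃ t, chk3 f3Bp t 24 1 1 = true := ex3_a h1_3Bp h2_3Bp

theorem h23_3Bp : ∃ t, chk3 f3Bp t 12 1 1 = true := ex3_a h22_3Bp h21_3Bp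

theorem h24_3Bp : ∃ t, chk3 f3Bp t 6 1 1 = true := ex3_a h23_3Bp h17_3Bp

theorem h25_3Bp : ∃ t, chk3 f3Bp t 3 1 1 = true := ex3_a h24_3Bp h13_3Bp

theorem h26_3Bp : ∃ t, chk3 f3Bp t 1 1 1 = true := ex3_a h0_3Bp h25_3Bp

theorem ct_3Bp : ∃ t, chk3 f3Bp t 1 1 1 = true := h26_3Bp

noncomputable def f3Bpk1 : ℕ → ℕ → ℕ → ℕ → Bool :=
  onCell 0 92274688 0 1048576 1040187392 5207648 (c3_Bpk1.row false 46137344)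

def h0_3Bpk1 : ∃ t, chk3 f3Bpk1 t 2 1 1 = true :=
  ⟨(a (l 7) (a (l 7) (a (l 13) (a (l 13) (c (a (l 13) (c (l 10) (l 10))) (a (l 13) (c (l 10) (l 10)))))))), by decide +kernel⟩

def h1_3Bpk1 : ∃ t, chk3 f3Bpk1 t 12 1 1 = true :=
  ⟨(a (a (c (a (c (l 10) (l 10)) (c (l 2) (l 2))) (a (c (a (l 10) (l 10)) (a (l 10) (l 10))) (c (l 2) (l 2)))) (c (a (c (l 2) (l 2)) (c (l 2) (a (l 2) (l 2)))) (a (c (l 2) (a (l 2) (l 2))) (c (a (l 2) (l 2)) (a (l 2) (l 2)))))) (a (c (a (c (a (l 2) (l 2)) (a (l 2) (l 2))) (c (a (l 2) (l 2)) (a (l 2) (l 2)))) (a (c (a (l 2) (l 2)) (a (l 2) (l 2))) (c (a (l 2) (l 2)) (a (c (l 2) (l 2)) (c (l 2) (l 2)))))) (c (a (c (a (l 2) (l 2)) (a (l 2) (c (l 2) (l 2)))) (c (a (l 2) (c (l 2) (l 2))) (a (c (l 2) (l 2)) (c (l 2) (l 2))))) (a (c (a (c (l 2) (l 2)) (c (l 2) (l 2)))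 (b (a (l 2) (l 2)) (a (l 2) (l 2)))) (c (b (a (l 2) (c (l 2) (l 2))) (a (l 2) (l 2))) (a (b (c (l 2) (l 2)) (c (l 2) (a (l 2) (l 5)))) (l 5))))))), by decide +kernel⟩

def h2_3Bpk1 : ∃ t, chk3 f3Bpk1 t 13 1 1 = true :=
  ⟨(a (a (c (a (c (a (c (l 2) (l 2)) (c (l 2) (l 2))) (b (a (l 2) (c (l 2) (l 2))) (a (l 2) (c (l 2) (l 2))))) (c (b (a (c (l 2) (l 2)) (c (l 2) (l 2))) (a (l 2) (c (l 2) (l 2)))) (a (c (b (l 2) (l 2)) (l 5)) (l 5)))) (a (c (a (c (b (l 2) (l 2)) (l 5)) (l 5)) (l 5)) (l 5))) (c (a (c (a (c (b (l 2) (l 2)) (l 5)) (l 5)) (l 5)) (l 5)) (l 5))) (l 5)), by decide +kernel⟩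

def h3_3Bpk1 : ∃ t, chk3 f3Bpk1 t 7 1 1 = true :=
  ⟨(l 5), by decide +kernel⟩

theorem h4_3Bpk1 : ∃ t, chk3 f3Bpk1 t 6 1 1 = true := ex3_a h1_3Bpk1 h2_3Bpk1

theorem h5_3Bpk1 : ∃ t, chk3 f3Bpk1 t 3 1 1 = true := ex3_a h4_3Bpk1 h3_3Bpk1

theorem h6_3Bpk1 : ∃ t, chk3 f3Bpk1 t 1 1 1 = true := ex3_a h0_3Bpk1 h5_3Bpk1

theorem ct_3Bpk1 : ∃ t, chk3 f3Bpk1 t 1 1 1 = true := h6_3Bpk1

noncomputable def f3Bpk2 : ℕ → ℕ → ℕ → ℕ → Bool :=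
  onCell 0 92274688 0 1048576 1040187392 5207648 (c3_Bpk2.row false 46137344)

def h0_3Bpk2 : ∃ t, chk3 f3Bpk2 t 1 1 1 = true :=
  ⟨(a (a (l 7) (a (l 7) (a (l 13) (a (l 13) (c (a (l 13) (l 10)) (a (l 13) (l 10))))))) (a (a (a (a (c (a (l 10) (l 2)) (a (l 10) (c (l 2) (l 2)))) (c (a (l 2) (c (l 2) (l 2))) (a (c (l 2) (l 2)) (c (l 2) (l 2))))) (a (c (a (c (l 2) (l 2)) (c (l 2) (l 2))) (a (c (l 2) (l 2)) (c (a (l 2) (l 2)) (a (l 2) (l 2))))) (c (a (c (l 2) (a (l 2) (l 2))) (c (a (l 2) (l 2)) (a (l 2) (l 2)))) (a (c (a (l 2) (l 2)) (a (l 2) (c (l 2) (l 2)))) (c (a (l 2) (c (l 2) (l 2))) (a (b (l 2) (l 2)) (l 5))))))) (a (a (c (a (c (a (l 2) (l 2)) (a (c (l 2) (l 2)) (c (l 2) (l 2)))) (c (a (c (l 2) (l 2)) (c (l 2) (l 2))) (a (c (l 2) (l 5)) (l 5)))) (a (c (a (c (l 2) (l 5)) (l 5)) (l 5)) (l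 5))) (c (a (c (a (c (l 2) (l 5)) (l 5)) (l 5)) (l 5)) (l 5))) (l 5))) (l 5))), by decide +kernel⟩

theorem ct_3Bpk2 : ∃ t, chk3 f3Bpk2 t 1 1 1 = true := h0_3Bpk2

noncomputable def f3Bm : ℕ → ℕ → ℕ → ℕ → Bool :=
  onCell 0 92274688 0 1048576 1040187392 5207648 (c3_Bm.row true 46137344)

def h0_3Bm : ∃ t, chk3 f3Bm t 2 1 1 = true :=
  ⟨(a (l 7) (a (l 7) (a (l 13) (a (l 13) (c (a (l 13) (a (l 13) (a (l 13) (a (l 13) (c (l 10) (l 10)))))) (a (l 13) (a (l 13) (a (l 13) (a (l 13) (a (l 13) (a (l 13) (c (l 10) (c (l 10) (l 10)))))))))))))), by decide +kernel⟩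

def h1_3Bm : ∃ t, chk3 f3Bm t 48 1 1 = true :=
  ⟨(c (a (c (a (c (l 10) (l 10)) (c (l 2) (l 2))) (a (c (l 10) (l 10)) (c (l 2) (l 2)))) (c (a (c (l 2) (l 2)) (c (l 2) (l 2))) (a (c (l 2) (l 2)) (c (l 2) (l 2))))) (a (c (a (c (l 10) (b (l 10) (l 2))) (c (l 2) (l 2))) (a (b (c (l 10) (l 10)) (c (l 2) (l 2))) (c (l 2) (b (l 2) (l 2))))) (c (a (c (l 2) (l 2)) (c (b (l 2) (l 2)) (b (l 2) (l 2)))) (a (c (b (l 2) (l 2)) (b (l 2) (l 2))) (c (b (l 2) (l 2)) (b (l 2) (l 2))))))), by decide +kernel⟩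

def h2_3Bm : ∃ t, chk3 f3Bm t 49 1 1 = true :=
  ⟨(c (a (c (a (c (l 2) (l 2)) (c (l 2) (l 2))) (a (c (l 2) (b (l 2) (l 2))) (c (b (l 2) (l 2)) (b (l 2) (l 2))))) (c (a (c (l 2) (b (l 2) (l 2))) (c (b (l 2) (l 2)) (b (l 2) (l 2)))) (a (c (b (l 2) (l 2)) (b (l 2) (l 2))) (b (c (l 2) (l 2)) (c (l 2) (l 2)))))) (a (c (a (c (b (l 2) (l 2)) (b (l 2) (l 2))) (c (b (l 2) (l 2)) (b (l 2) (l 2)))) (a (c (b (l 2) (l 2)) (b (l 2) (l 2))) (c (b (l 2) (l 2)) (b (l 2) (l 2))))) (c (a (c (b (l 2) (l 2)) (b (l 2) (l 2))) (b (c (l 2) (l 2)) (c (l 2) (l 2)))) (a (c (b (l 2) (l 2)) (b (l 2) (l 2))) (c (b (l 2) (l 2)) (b (l 2) (a (l 2) (l 2)))))))), by decide +kernel⟩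

def h3_3Bm : ∃ t, chk3 f3Bm t 50 1 2 = true :=
  ⟨(a (c (b (a (c (l 2) (l 2)) (c (l 2) (l 2))) (a (c (l 2) (l 2)) (c (l 2) (l 2)))) (b (a (c (l 2) (l 2)) (c (l 2) (l 2))) (a (c (l 2) (l 2)) (c (l 2) (l 2))))) (c (b (a (c (l 2) (l 2)) (c (l 2) (l 2))) (a (c (l 2) (l 2)) (c (l 2) (a (l 2) (l 2))))) (b (a (c (l 2) (a (l 2) (l 2))) (c (a (l 2) (l 2)) (a (l 2) (l 2)))) (a (c (l 2) (a (l 2) (l 2))) (c (a (l 2) (l 2)) (a (l 2) (l 2))))))), by decide +kernel⟩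

def h4_3Bm : ∃ t, chk3 f3Bm t 50 1 3 = true :=
  ⟨(a (c (b (a (c (l 2) (l 2)) (c (l 2) (a (l 2) (l 2)))) (a (c (l 2) (l 2)) (c (a (l 2) (l 2)) (a (l 2) (l 2))))) (b (a (c (a (l 2) (l 2)) (a (l 2) (l 2))) (c (a (l 2) (l 2)) (a (l 2) (l 2)))) (a (c (a (l 2) (l 2)) (a (l 2) (l 2))) (c (a (l 2) (l 2)) (a (l 2) (c (l 2) (l 2))))))) (c (a (b (c (a (l 2) (l 2)) (a (l 2) (l 2))) (c (a (l 2) (l 2)) (a (l 2) (l 2)))) (b (c (a (l 2) (l 2)) (a (l 2) (l 2))) (c (a (l 2) (l 2)) (a (c (l 2) (l 2)) (c (l 2) (l 2)))))) (a (b (c (a (l 2) (l 2)) (a (c (l 2) (l 2)) (c (l 2) (l 2)))) (c (a (l 2) (c (l 2) (l 2))) (a (c (l 2) (l 2)) (c (l 2) (l 2))))) (b (c (a (c (l 2) (l 2)) (c (l 2) (l 2))) (a (c (l 2) (l 2)) (c (l 2) (l 2)))) (c (a (c (l 2) (l 2)) (c (l 2) (l 2))) (a (c (l 2) (l 2)) (c (l 2) (b (l 2) (l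 2))))))))), by decide +kernel⟩

def h5_3Bm : ∃ t, chk3 f3Bm t 102 1 2 = true :=
  ⟨(c (b (a (c (a (l 2) (l 2)) (a (l 2) (l 2))) (c (a (l 2) (l 2)) (a (l 2) (l 2)))) (a (c (a (l 2) (l 2)) (a (l 2) (l 2))) (c (a (l 2) (l 2)) (a (l 2) (l 2))))) (a (b (c (a (l 2) (l 2)) (a (l 2) (l 2))) (c (a (l 2) (l 2)) (a (l 2) (c (l 2) (l 2))))) (b (c (a (l 2) (l 2)) (a (l 2) (c (l 2) (l 2)))) (c (a (l 2) (c (l 2) (l 2))) (a (c (l 2) (l 2)) (c (l 2) (l 2))))))), by decide +kernel⟩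

def h6_3Bm : ∃ t, chk3 f3Bm t 103 1 2 = true :=
  ⟨(c (a (b (c (a (l 2) (l 2)) (a (l 2) (l 2))) (c (a (l 2) (l 2)) (a (c (l 2) (l 2)) (c (l 2) (l 2))))) (b (c (a (l 2) (c (l 2) (l 2))) (a (c (l 2) (l 2)) (c (l 2) (l 2)))) (c (a (c (l 2) (l 2)) (c (l 2) (l 2))) (a (c (l 2) (l 2)) (c (l 2) (l 2)))))) (a (b (c (a (c (l 2) (l 2)) (c (l 2) (l 2))) (a (c (l 2) (l 2)) (c (l 2) (l 2)))) (c (a (c (l 2) (l 2)) (c (l 2) (l 2))) (a (c (l 2) (l 2)) (c (l 2) (b (l 2) (l 2)))))) (b (c (a (c (l 2) (l 2)) (c (l 2) (l 2))) (a (c (l 2) (l 2)) (c (b (l 2) (l 2)) (b (l 2) (l 2))))) (c (a (c (l 2) (l 2)) (c (l 2) (b (l 2) (l 2)))) (a (c (b (l 2) (l 2)) (b (l 2) (l 2))) (c (b (l 2) (a (l 2) (l 2))) (b (a (l 2) (l 2)) (a (l 2) (l 2))))))))), by decide +kernel⟩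

def h7_3Bm : ∃ t, chk3 f3Bm t 102 1 6 = true :=
  ⟨(a (b (c (a (l 2) (c (l 2) (l 2))) (a (c (l 2) (l 2)) (c (l 2) (l 2)))) (c (a (c (l 2) (l 2)) (c (l 2) (l 2))) (a (c (l 2) (l 2)) (c (l 2) (l 2))))) (b (c (a (c (l 2) (l 2)) (c (l 2) (l 2))) (a (c (l 2) (l 2)) (c (l 2) (b (l 2) (l 2))))) (c (a (c (l 2) (l 2)) (c (l 2) (l 2))) (a (c (l 2) (b (l 2) (l 2))) (c (b (l 2) (l 2)) (b (l 2) (a (l 2) (l 2)))))))), by decide +kernel⟩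

def h8_3Bm : ∃ t, chk3 f3Bm t 102 1 7 = true :=
  ⟨(a (b (c (a (c (l 2) (l 2)) (c (l 2) (l 2))) (a (c (l 2) (b (l 2) (l 2))) (c (b (l 2) (l 2)) (b (l 2) (a (l 2) (l 2)))))) (c (a (c (l 2) (b (l 2) (l 2))) (c (b (l 2) (l 2)) (b (l 2) (a (l 2) (l 2))))) (a (c (b (l 2) (l 2)) (b (a (l 2) (l 2)) (a (l 2) (l 2)))) (c (b (a (l 2) (l 2)) (a (l 2) (l 2))) (b (a (l 2) (l 2)) (a (l 2) (l 9))))))) (c (b (a (c (l 2) (b (l 2) (l 2))) (c (b (l 2) (l 2)) (b (a (l 2) (l 2)) (a (l 2) (l 2))))) (a (c (b (l 2) (a (l 2) (l 2))) (b (a (l 2) (l 2)) (a (l 2) (l 2)))) (c (b (a (l 2) (l 2)) (a (l 2) (l 2))) (b (a (l 2) (l 2)) (l 9))))) (b (a (c (b (l 2) (a (l 2) (l 2))) (b (a (l 2) (l 2)) (a (l 2) (l 9)))) (c (b (a (l 2) (l 2)) (a (l 2) (l 9))) (b (a (l 2) (l 5)) (l 9)))) (a (c (b (a (l 2) (l 2)) (l 9)) (l 9))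 (l 9))))), by decide +kernel⟩

def h9_3Bm : ∃ t, chk3 f3Bm t 103 1 6 = true :=
  ⟨(a (c (b (a (c (l 2) (l 2)) (c (l 2) (b (l 2) (l 2)))) (a (c (l 2) (b (l 2) (l 2))) (c (b (l 2) (l 2)) (b (l 2) (a (l 2) (l 2)))))) (b (a (c (b (l 2) (l 2)) (b (l 2) (l 2))) (c (b (l 2) (a (l 2) (l 2))) (b (a (l 2) (l 2)) (a (l 2) (l 2))))) (a (c (b (l 2) (a (l 2) (l 2))) (b (a (l 2) (l 2)) (a (l 2) (l 2)))) (c (b (a (l 2) (l 2)) (a (l 2) (l 2))) (b (a (l 2) (l 9)) (l 9)))))) (c (b (a (c (b (l 2) (l 2)) (b (l 2) (a (l 2) (l 2)))) (c (b (l 2) (a (l 2) (l 2))) (b (a (l 2) (l 2)) (a (l 2) (c (l 2) (l 9)))))) (a (c (b (a (l 2) (l 2)) (a (l 2) (l 2))) (b (a (l 2) (l 2)) (a (l 2) (l 9)))) (c (b (a (l 2) (l 2)) (a (c (l 2) (l 9)) (l 9))) (b (a (l 2) (l 9)) (l 9))))) (b (a (c (b (a (l 2) (l 2)) (a (l 2) (l 2))) (b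 (a (l 2) (l 2)) (a (l 2) (l 9)))) (c (b (a (l 2) (c (l 2) (l 5))) (l 9)) (l 5))) (a (c (b (a (l 2) (l 9)) (l 9)) (l 9)) (l 9))))), by decide +kernel⟩

def h10_3Bm : ∃ t, chk3 f3Bm t 103 1 7 = true :=
  ⟨(a (b (c (a (c (b (a (l 2) (l 2)) (a (l 2) (l 2))) (b (a (l 2) (l 2)) (a (l 2) (l 9)))) (c (b (a (l 2) (l 2)) (a (l 2) (l 9))) (l 5))) (a (c (b (a (l 2) (l 5)) (l 9)) (l 5)) (l 5))) (c (a (c (b (a (l 2) (l 9)) (l 9)) (l 9)) (l 9)) (l 9))) (l 5)), by decide +kernel⟩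

def h11_3Bm : ∃ t, chk3 f3Bm t 104 1 4 = true :=
  ⟨(a (b (c (a (c (l 2) (l 2)) (c (l 2) (l 2))) (a (c (l 2) (l 2)) (c (l 2) (l 2)))) (c (a (c (l 2) (l 2)) (c (l 2) (l 2))) (a (c (l 2) (l 2)) (c (b (l 2) (l 2)) (b (l 2) (l 2)))))) (b (c (a (c (l 2) (l 2)) (c (l 2) (b (l 2) (l 2)))) (a (c (l 2) (b (l 2) (l 2))) (c (b (l 2) (l 2)) (b (l 2) (a (l 2) (l 2)))))) (c (a (c (l 2) (b (l 2) (l 2))) (c (b (l 2) (l 2)) (b (l 2) (l 2)))) (a (c (b (l 2) (l 2)) (b (l 2) (a (l 2) (l 2)))) (c (b (l 2) (a (l 2) (l 2))) (b (a (l 2) (c (l 2) (l 2))) (a (c (l 2) (l 2)) (c (l 2) (l 9))))))))), by decide +kernel⟩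

def h12_3Bm : ∃ t, chk3 f3Bm t 208 1 5 = true :=
  ⟨(c (b (a (c (l 2) (b (l 2) (l 2))) (c (b (l 2) (l 2)) (b (l 2) (l 2)))) (a (c (b (l 2) (l 2)) (b (l 2) (a (l 2) (l 2)))) (c (b (l 2) (a (l 2) (l 2))) (b (a (l 2) (l 2)) (a (l 2) (c (l 2) (l 2))))))) (b (a (c (b (l 2) (l 2)) (b (l 2) (a (l 2) (l 2)))) (c (b (l 2) (a (l 2) (l 2))) (b (a (l 2) (l 2)) (a (c (l 2) (l 2)) (c (l 2) (l 9)))))) (a (c (b (a (l 2) (l 2)) (a (l 2) (c (l 2) (l 2)))) (b (a (l 2) (c (l 2) (l 2))) (a (c (l 2) (l 9)) (l 9)))) (c (b (a (l 2) (c (l 2) (l 9))) (a (c (l 2) (l 9)) (l 9))) (l 9))))), by decide +kernel⟩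

def h13_3Bm : ∃ t, chk3 f3Bm t 209 1 5 = true :=
  ⟨(c (b (a (c (b (l 2) (l 2)) (b (a (l 2) (l 2)) (a (l 2) (l 2)))) (c (b (a (l 2) (l 2)) (a (l 2) (c (l 2) (l 2)))) (b (a (l 2) (c (l 2) (l 2))) (a (c (l 2) (l 2)) (l 9))))) (a (c (b (a (l 2) (l 2)) (a (l 2) (c (l 2) (l 9)))) (b (a (c (l 2) (l 2)) (c (l 2) (l 9))) (a (c (l 2) (l 9)) (l 9)))) (c (b (a (c (l 2) (l 2)) (c (l 2) (l 9))) (l 9)) (l 9)))) (b (a (c (b (a (l 2) (c (l 2) (l 2))) (a (c (l 2) (l 2)) (c (l 2) (l 9)))) (b (a (c (l 2) (l 5)) (l 5)) (l 9))) (c (b (a (c (l 2) (l 5)) (l 5)) (l 9)) (l 5))) (l 9))), by decide +kernel⟩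

def h14_3Bm : ∃ t, chk3 f3Bm t 210 1 4 = true :=
  ⟨(c (b (a (c (b (l 2) (l 2)) (b (l 2) (l 2))) (c (b (l 2) (l 2)) (b (l 2) (a (l 2) (l 2))))) (a (c (b (l 2) (l 2)) (b (a (l 2) (l 2)) (a (l 2) (c (l 2) (l 2))))) (c (b (a (l 2) (l 2)) (a (l 2) (c (l 2) (l 2)))) (b (a (l 2) (c (l 2) (l 2))) (a (c (l 2) (l 2)) (c (l 2) (l 9))))))) (b (a (c (b (l 2) (a (l 2) (l 2))) (b (a (l 2) (l 2)) (a (l 2) (c (l 2) (l 2))))) (c (b (a (l 2) (l 2)) (a (l 2) (c (l 2) (l 2)))) (b (a (c (l 2) (l 2)) (c (l 2) (l 2))) (a (c (l 2) (l 9)) (l 9))))) (a (c (b (a (l 2) (c (l 2) (l 2))) (a (c (l 2) (l 2)) (c (l 2) (l 9)))) (b (a (c (l 2) (l 2)) (c (l 2) (l 9))) (l 9))) (c (b (a (c (l 2) (l 2)) (l 9)) (l 9)) (l 9))))), by decide +kernel⟩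

def h15_3Bm : ∃ t, chk3 f3Bm t 211 1 4 = true :=
  ⟨(b (c (a (c (b (l 2) (a (l 2) (l 2))) (b (a (l 2) (l 2)) (a (c (l 2) (l 2)) (c (l 2) (l 2))))) (c (b (a (l 2) (c (l 2) (l 2))) (a (c (l 2) (l 2)) (c (l 2) (l 2)))) (b (a (c (l 2) (l 2)) (c (l 2) (l 5))) (a (c (l 2) (l 9)) (l 9))))) (a (c (b (a (c (l 2) (l 2)) (c (l 2) (l 5))) (a (c (l 2) (l 9)) (l 9))) (b (a (c (l 2) (l 5)) (l 5)) (l 9))) (l 5))) (c (a (c (b (a (l 2) (c (l 2) (l 2))) (a (c (l 2) (l 2)) (c (l 2) (l 9)))) (b (a (c (l 2) (l 9)) (l 9)) (l 9))) (c (b (a (c (l 2) (l 9)) (l 9)) (l 9)) (l 9))) (l 9))), by decide +kernel⟩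

def h16_3Bm : ∃ t, chk3 f3Bm t 105 1 5 = true :=
  ⟨(b (a (c (a (c (b (a (c (l 2) (l 2)) (c (l 2) (l 2))) (a (c (l 2) (l 9)) (l 9))) (b (a (c (l 2) (l 5)) (l 5)) (l 9))) (c (b (a (c (l 2) (l 5)) (l 5)) (l 9)) (l 5))) (l 5)) (l 5)) (l 9)), by decide +kernel⟩

def h17_3Bm : ∃ t, chk3 f3Bm t 52 1 3 = true :=
  ⟨(a (c (a (c (b (a (c (b (a (l 2) (l 2)) (a (l 2) (c (l 2) (l 9)))) (b (a (c (l 2) (l 2)) (c (l 2) (l 5))) (l 9))) (c (b (a (c (l 2) (l 2)) (c (l 2) (l 5))) (l 9)) (l 5))) (a (c (b (a (c (l 2) (l 9)) (l 9)) (l 9)) (l 9)) (l 9))) (l 5)) (l 5)) (l 5)) (l 5)), by decide +kernel⟩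

def h18_3Bm : ∃ t, chk3 f3Bm t 53 1 1 = true :=
  ⟨(c (a (c (b (a (c (a (c (b (a (c (l 2) (l 2)) (c (l 2) (l 5))) (a (c (l 2) (l 9)) (l 9))) (l 5)) (l 5)) (l 5)) (l 5)) (l 9)) (l 5)) (l 5)) (l 5)), by decide +kernel⟩

def h19_3Bm : ∃ t, chk3 f3Bm t 27 1 1 = true :=
  ⟨(l 5), by decide +kernel⟩

def h20_3Bm : ∃ t, chk3 f3Bm t 7 1 1 = true :=
  ⟨(l 5), by decide +kernel⟩

theorem h21_3Bm : ∃ t, chk3 f3Bm t 105 1 4 = true := ex3_a h14_3Bm h15_3Bm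

theorem h22_3Bm : ∃ t, chk3 f3Bm t 105 1 2 = true := ex3_c h21_3Bm h16_3Bm

theorem h23_3Bm : ∃ t, chk3 f3Bm t 104 1 5 = true := ex3_a h12_3Bm h13_3Bm

theorem h24_3Bm : ∃ t, chk3 f3Bm t 104 1 2 = true := ex3_c h11_3Bm h23_3Bm

theorem h25_3Bm : ∃ t, chk3 f3Bm t 52 1 2 = true := ex3_a h24_3Bm h22_3Bm

theorem h26_3Bm : ∃ t, chk3 f3Bm t 52 1 1 = true := ex3_c h25_3Bm h17_3Bm

theorem h27_3Bm : ∃ t, chk3 f3Bm t 26 1 1 = true := ex3_a h26_3Bm h18_3Bm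

theorem h28_3Bm : ∃ t, chk3 f3Bm t 13 1 1 = true := ex3_a h27_3Bm h19_3Bm

theorem h29_3Bm : ∃ t, chk3 f3Bm t 103 1 3 = true := ex3_c h9_3Bm h10_3Bm

theorem h30_3Bm : ∃ t, chk3 f3Bm t 102 1 3 = true := ex3_c h7_3Bm h8_3Bm

theorem h31_3Bm : ∃ t, chk3 f3Bm t 51 1 3 = true := ex3_a h30_3Bm h29_3Bm

theorem h32_3Bm : ∃ t, chk3 f3Bm t 51 1 2 = true := ex3_a h5_3Bm h6_3Bm

theorem h33_3Bm : ∃ t, chk3 f3Bm t 51 1 1 = true := ex3_c h32_3Bm h31_3Bm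

theorem h34_3Bm : ∃ t, chk3 f3Bm t 50 1 1 = true := ex3_c h3_3Bm h4_3Bm

theorem h35_3Bm : ∃ t, chk3 f3Bm t 25 1 1 = true := ex3_a h34_3Bm h33_3Bm

theorem h36_3Bm : ∃ t, chk3 f3Bm t 24 1 1 = true := ex3_a h1_3Bm h2_3Bm

theorem h37_3Bm : ∃ t, chk3 f3Bm t 12 1 1 = true := ex3_a h36_3Bm h35_3Bm

theorem h38_3Bm : ∃ t, chk3 f3Bm t 6 1 1 = true := ex3_a h37_3Bm h28_3Bm

theorem h39_3Bm : ∃ t, chk3 f3Bm t 3 1 1 = true := ex3_a h38_3Bm h20_3Bm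

theorem h40_3Bm : ∃ t, chk3 f3Bm t 1 1 1 = true := ex3_a h0_3Bm h39_3Bm

theorem ct_3Bm : ∃ t, chk3 f3Bm t 1 1 1 = true := h40_3Bm

end Pool.Agent.Strip051.G.I9688_9736.Tab.Mo
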