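import Pool.Agent.Strip051.PB.StripC
import Pool.Agent.Strip051.G.I9688_9736.Fact

/-! # Facts about the strips of a table (generated) -/

set_option linter.all false
set_option maxRecDepth 4000

namespace Pool.Agent.Strip051.G.I9688_9736.Tab.St

open Pool.Agent.Strip051.PB Pool.Agent.StripNear Pool.Agent.Strip051.LC
open Pool.Agent.Strip051.G.I9688_9736.Tab

noncomputable def sl1 : Fn1 := ⟨_, _, fun h1 => (enc_norm (enc_subr 41937259367 3750000000 (enc_neg (enc_scaleT 22585769 375000 (enc_subr 38847 40000 h1)))))⟩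
noncomputable def sv1 : Fn1 := ⟨_, _, fun h1 => (enc_norm (enc_subr 9994179252157 1500000000000 (enc_neg (enc_scaleT 4246345549 150000000 (enc_subr 38847 40000 h1)))))⟩
noncomputable def sw1 : Fn1 := ⟨_, _, fun h1 => (enc_norm (enc_add (enc_scaleT 153 250 (enc_subr 38847 40000 h1)) (enc_rat _ 130929 2500000)))⟩
noncomputable def sl2 : Fn1 := ⟨_, _, fun h1 => (enc_norm (enc_subr 732996333619 70000000000 (enc_neg (enc_scaleT 321054483 7000000 (enc_subr 38847 40000 h1)))))⟩
noncomputable def sv2 : Fn1 := ⟨_, _, fun h1 => (enc_norm (enc_subr 113558973147947 17500000000000 (enc_neg (enc_scaleT 43407359579 1750000000 (enc_subr 38847 40000 h1)))))⟩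
noncomputable def sw2 : Fn1 := ⟨_, _, fun h1 => (enc_norm (enc_add (enc_scaleT 15329 1000 (enc_subr 38847 40000 h1)) (enc_rat _ 7817697 10000000)))⟩
noncomputable def sl3 : Fn1 := ⟨_, _, fun h1 => (enc_norm (enc_add (enc_scaleT 366369324340991 446188050000 (enc_subr 38847 40000 h1)) (enc_rat _ 2614496845616704313 4461880500000000)))⟩
noncomputable def sv3 : Fn1 := ⟨_, _, fun h1 => (enc_norm (enc_add (enc_scaleT 40983083054432821 223094025000000 (enc_subr 38847 40000 h1)) (enc_rat _ 305534810589742356253 2230940250000000000)))⟩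
noncomputable def sw3 : Fn1 := ⟨_, _, fun h1 => (enc_norm (enc_add (enc_scaleT 18331 20 (enc_subr 38847 40000 h1)) (enc_rat _ 124155183 200000)))⟩
noncomputable def sl4 : Fn1 := ⟨_, _, fun h1 => (enc_norm (enc_add (enc_scaleT 536563584805074789659 637293726387500000 (enc_subr 38847 40000 h1)) (enc_rat _ 2862237632353989587759387 6372937263875000000000)))⟩
noncomputable def sv4 : Fn1 := ⟨_, _, fun h1 => (enc_norm (enc_add (enc_scaleT 240440316073905833189 1274587452775000000 (enc_subr 38847 40000 h1)) (enc_rat _ 1332103628015189115452677 12745874527750000000000)))⟩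
noncomputable def sw4 : Fn1 := ⟨_, _, fun h1 => (enc_norm (enc_add (enc_scaleT 938517 1000 (enc_subr 38847 40000 h1)) (enc_rat _ 4764750381 10000000)))⟩
noncomputable def sl5 : Fn1 := ⟨_, _, fun h1 => (enc_norm (enc_subr 18804282731988913 86936687500000 (enc_scaleT 149895699793 17387337500 (enc_subr 38847 40000 h1))))⟩
noncomputable def sv5 : Fn1 := ⟨_, _, fun h1 => (enc_norm (enc_subr 1552815003078870891 34774675000000000 (enc_scaleT 6392818808713 3477467500000 (enc_subr 38847 40000 h1))))⟩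
noncomputable def sw5 : Fn1 := ⟨_, _, fun h1 => (enc_norm (enc_subr 332035647 1250000 (enc_scaleT 1146 125 (enc_subr 38847 40000 h1))))⟩
noncomputable def sl6 : Fn1 := ⟨_, _, fun h1 => (enc_norm (enc_subr 216156883971 1000000000 (enc_scaleT 238853 100000 (enc_subr 38847 40000 h1))))⟩
noncomputable def sv6 : Fn1 := ⟨_, _, fun h1 => (enc_norm (enc_subr 2231157521167 50000000000 (enc_scaleT 2491881 5000000 (enc_subr 38847 40000 h1))))⟩
noncomputable def sw6 : Fn1 := ⟨_, _, fun h1 => (enc_norm (enc_subr 2654637447 10000000 (enc_scaleT 1921 1000 (enc_subr 38847 40000 h1))))⟩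
noncomputable def sl7 : Fn1 := ⟨_, _, fun h1 => (enc_norm (enc_add (enc_scaleT 589 10000 (enc_subr 38847 40000 h1)) (enc_rat _ 151177877 100000000)))⟩
noncomputable def sv7 : Fn1 := ⟨_, _, fun h1 => (enc_norm (enc_subr 1679 1562500 (enc_scaleT 13 625 (enc_subr 38847 40000 h1))))⟩
noncomputable def sw7 : Fn1 := ⟨_, _, fun h1 => (enc_norm (enc_subr 3539 250000 (enc_neg (enc_scaleT 23 25 (enc_subr 38847 40000 h1)))))⟩
noncomputable def sl8 : Fn1 := ⟨_, _, fun h1 => (enc_norm (enc_sub (enc_rat _ 151877627 100000000) (enc_scaleT 1661 10000 (enc_subr 38847 40000 h1))))⟩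
noncomputable def sv8 : Fn1 := ⟨_, _, fun h1 => (enc_norm (enc_subr 4987 200000000 (enc_neg (enc_scaleT 259 20000 (enc_subr 38847 40000 h1)))))⟩
noncomputable def sw8 : Fn1 := ⟨_, _, fun h1 => (enc_norm (enc_subr 4987 2000000 (enc_neg (enc_scaleT 259 200 (enc_subr 38847 40000 h1)))))⟩
noncomputable def sl9 : Fn1 := ⟨_, _, fun h1 => (enc_norm (enc_add (enc_scaleT 929 10000 (enc_subr 38847 40000 h1)) (enc_rat _ 151927497 100000000)))⟩
noncomputable def sv9 : Fn1 := ⟨_, _, fun h1 => (enc_pnc _ 0)⟩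
noncomputable def sl10 : Fn1 := ⟨_, _, fun h1 => (enc_norm (enc_sub (enc_rat _ 151877627 100000000) (enc_scaleT 1661 10000 (enc_subr 38847 40000 h1))))⟩
noncomputable def sv10 : Fn1 := ⟨_, _, fun h1 => (enc_norm (enc_add (enc_scaleT 259 20000 (enc_subr 38847 40000 h1)) (enc_rat _ 4987 200000000)))⟩
noncomputable def sw10 : Fn1 := ⟨_, _, fun h1 => (enc_norm (enc_add (enc_scaleT 259 200 (enc_subr 38847 40000 h1)) (enc_rat _ 4987 2000000)))⟩
noncomputable def sl11 : Fn1 := ⟨_, _, fun h1 => (enc_norm (enc_add (enc_scaleT 589 10000 (enc_subr 38847 40000 h1)) (enc_rat _ 151177877 100000000)))⟩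
noncomputable def sv11 : Fn1 := ⟨_, _, fun h1 => (enc_norm (enc_sub (enc_rat _ 1679 1562500) (enc_scaleT 13 625 (enc_subr 38847 40000 h1))))⟩
noncomputable def sw11 : Fn1 := ⟨_, _, fun h1 => (enc_norm (enc_add (enc_scaleT 23 25 (enc_subr 38847 40000 h1)) (enc_rat _ 3539 250000)))⟩
noncomputable def sl12 : Fn1 := ⟨_, _, fun h1 => (enc_norm (enc_subr 216156883971 1000000000 (enc_scaleT 238853 100000 (enc_subr 38847 40000 h1))))⟩
noncomputable def sv12 : Fn1 := ⟨_, _, fun h1 => (enc_norm (enc_sub (enc_rat _ 2231157521167 50000000000) (enc_scaleT 2491881 5000000 (enc_subr 38847 40000 h1))))⟩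
noncomputable def sw12 : Fn1 := ⟨_, _, fun h1 => (enc_norm (enc_sub (enc_rat _ 2654637447 10000000) (enc_scaleT 1921 1000 (enc_subr 38847 40000 h1))))⟩
noncomputable def sl13 : Fn1 := ⟨_, _, fun h1 => (enc_norm (enc_subr 18804282731988913 86936687500000 (enc_scaleT 149895699793 17387337500 (enc_subr 38847 40000 h1))))⟩
noncomputable def sv13 : Fn1 := ⟨_, _, fun h1 => (enc_norm (enc_sub (enc_rat _ 1552815003078870891 34774675000000000) (enc_scaleT 6392818808713 3477467500000 (enc_subr 38847 40000 h1))))⟩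
noncomputable def sw13 : Fn1 := ⟨_, _, fun h1 => (enc_norm (enc_sub (enc_rat _ 332035647 1250000) (enc_scaleT 1146 125 (enc_subr 38847 40000 h1))))⟩
noncomputable def sl14 : Fn1 := ⟨_, _, fun h1 => (enc_norm (enc_add (enc_scaleT 536563584805074789659 637293726387500000 (enc_subr 38847 40000 h1)) (enc_rat _ 2862237632353989587759387 6372937263875000000000)))⟩
noncomputable def sv14 : Fn1 := ⟨_, _, fun h1 => (enc_norm (enc_subr 1332103628015189115452677 12745874527750000000000 (enc_neg (enc_scaleT 240440316073905833189 1274587452775000000 (enc_subr 38847 40000 h1)))))⟩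
noncomputable def sw14 : Fn1 := ⟨_, _, fun h1 => (enc_norm (enc_subr 4764750381 10000000 (enc_neg (enc_scaleT 938517 1000 (enc_subr 38847 40000 h1)))))⟩
noncomputable def sl15 : Fn1 := ⟨_, _, fun h1 => (enc_norm (enc_add (enc_scaleT 366369324340991 446188050000 (enc_subr 38847 40000 h1)) (enc_rat _ 2614496845616704313 4461880500000000)))⟩
noncomputable def sv15 : Fn1 := ⟨_, _, fun h1 => (enc_norm (enc_subr 305534810589742356253 2230940250000000000 (enc_neg (enc_scaleT 40983083054432821 223094025000000 (enc_subr 38847 40000 h1)))))⟩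
noncomputable def sw15 : Fn1 := ⟨_, _, fun h1 => (enc_norm (enc_subr 124155183 200000 (enc_neg (enc_scaleT 18331 20 (enc_subr 38847 40000 h1)))))⟩
noncomputable def sl16 : Fn1 := ⟨_, _, fun h1 => (enc_norm (enc_subr 732996333619 70000000000 (enc_neg (enc_scaleT 321054483 7000000 (enc_subr 38847 40000 h1)))))⟩
noncomputable def sv16 : Fn1 := ⟨_, _, fun h1 => (enc_norm (enc_add (enc_scaleT 43407359579 1750000000 (enc_subr 38847 40000 h1)) (enc_rat _ 113558973147947 17500000000000)))⟩
noncomputable def sw16 : Fn1 := ⟨_, _, fun h1 => (enc_norm (enc_subr 7817697 10000000 (enc_neg (enc_scaleT 15329 1000 (enc_subr 38847 40000 h1)))))⟩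
noncomputable def sl17 : Fn1 := ⟨_, _, fun h1 => (enc_norm (enc_subr 41937259367 3750000000 (enc_neg (enc_scaleT 22585769 375000 (enc_subr 38847 40000 h1)))))⟩
noncomputable def sv17 : Fn1 := ⟨_, _, fun h1 => (enc_norm (enc_add (enc_scaleT 4246345549 150000000 (enc_subr 38847 40000 h1)) (enc_rat _ 9994179252157 1500000000000)))⟩
noncomputable def sw17 : Fn1 := ⟨_, _, fun h1 => (enc_norm (enc_subr 130929 2500000 (enc_neg (enc_scaleT 153 250 (enc_subr 38847 40000 h1)))))⟩
noncomputable def sl34 : Fn1 := ⟨_, _, fun h1 => (enc_norm (enc_add (enc_scaleT 23883511 300000 (enc_subr 38847 40000 h1)) (enc_rat _ 137614823 3000000000)))⟩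
noncomputable def sv34 : Fn1 := ⟨_, _, fun h1 => (enc_norm (enc_add (enc_scaleT 11326261 600000 (enc_subr 38847 40000 h1)) (enc_rat _ 304865573 6000000000)))⟩
noncomputable def sw34 : Fn1 := ⟨_, _, fun h1 => (enc_norm (enc_subr 223001 2000000 (enc_scaleT 16743 200 (enc_subr 38847 40000 h1))))⟩
noncomputable def sl35 : Fn1 := ⟨_, _, fun h1 => (enc_norm (enc_subr 3057830597 10000000000 (enc_neg (enc_scaleT 302566403 7000000 (enc_subr 38847 40000 h1)))))⟩
noncomputable def sv35 : Fn1 := ⟨_, _, fun h1 => (enc_norm (enc_subr 10935335977 312500000000 (enc_neg (enc_scaleT 2426978523 218750000 (enc_subr 38847 40000 h1)))))⟩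
noncomputable def sw35 : Fn1 := ⟨_, _, fun h1 => (enc_norm (enc_subr 4718013 10000000 (enc_neg (enc_scaleT 42141 1000 (enc_subr 38847 40000 h1)))))⟩
noncomputable def sl36 : Fn1 := ⟨_, _, fun h1 => (enc_norm (enc_subr 944074716808291 274200000000000 (enc_scaleT 371754640271 9140000000 (enc_subr 38847 40000 h1))))⟩
noncomputable def sv36 : Fn1 := ⟨_, _, fun h1 => (enc_norm (enc_subr 216480694918000171 274200000000000000 (enc_scaleT 83014453298551 9140000000000 (enc_subr 38847 40000 h1))))⟩
noncomputable def sw36 : Fn1 := ⟨_, _, fun h1 => (enc_norm (enc_subr 3732949 1000000 (enc_scaleT 4507 100 (enc_subr 38847 40000 h1))))⟩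
noncomputable def sl37 : Fn1 := ⟨_, _, fun h1 => (enc_norm (enc_subr 1435028735278419 1886000000000000 (enc_neg (enc_scaleT 6474996554249 565800000000 (enc_subr 38847 40000 h1)))))⟩
noncomputable def sv37 : Fn1 := ⟨_, _, fun h1 => (enc_norm (enc_subr 629910142059419 4100000000000000 (enc_neg (enc_scaleT 4025923505249 1230000000000 (enc_subr 38847 40000 h1)))))⟩
noncomputable def sw37 : Fn1 := ⟨_, _, fun h1 => (enc_norm (enc_subr 9045777 10000000 (enc_neg (enc_scaleT 9889 1000 (enc_subr 38847 40000 h1)))))⟩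
noncomputable def sl38 : Fn1 := ⟨_, _, fun h1 => (enc_norm (enc_subr 294104375760047 291625000000000 (enc_neg (enc_scaleT 610315509433 58325000000 (enc_subr 38847 40000 h1)))))⟩
noncomputable def sv38 : Fn1 := ⟨_, _, fun h1 => (enc_norm (enc_subr 6141310813488787 29162500000000000 (enc_neg (enc_scaleT 555490775599 182265625000 (enc_subr 38847 40000 h1)))))⟩
noncomputable def sw38 : Fn1 := ⟨_, _, fun h1 => (enc_norm (enc_subr 733577 625000 (enc_neg (enc_scaleT 1103 125 (enc_subr 38847 40000 h1)))))⟩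
noncomputable def sl39 : Fn1 := ⟨_, _, fun h1 => (enc_norm (enc_add (enc_scaleT 396907162719613 333400000000 (enc_subr 38847 40000 h1)) (enc_rat _ 77961799073363709 3334000000000000)))⟩
noncomputable def sv39 : Fn1 := ⟨_, _, fun h1 => (enc_norm (enc_add (enc_scaleT 2218492005941243 8335000000000 (enc_subr 38847 40000 h1)) (enc_rat _ 438203444583822299 83350000000000000)))⟩
noncomputable def sw39 : Fn1 := ⟨_, _, fun h1 => (enc_norm (enc_add (enc_scaleT 1330517 1000 (enc_subr 38847 40000 h1)) (enc_rat _ 260295381 10000000)))⟩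
noncomputable def sl40 : Fn1 := ⟨_, _, fun h1 => (enc_norm (enc_sub (enc_rat _ 2872674673 500000000) (enc_scaleT 10463239 50000 (enc_subr 38847 40000 h1))))⟩
noncomputable def sv40 : Fn1 := ⟨_, _, fun h1 => (enc_norm (enc_sub (enc_rat _ 137691656257 100000000000) (enc_scaleT 417787751 10000000 (enc_subr 38847 40000 h1))))⟩
noncomputable def sw40 : Fn1 := ⟨_, _, fun h1 => (enc_norm (enc_sub (enc_rat _ 29928871 5000000) (enc_scaleT 130053 500 (enc_subr 38847 40000 h1))))⟩
noncomputable def sl41 : Fn1 := ⟨_, _, fun h1 => (enc_norm (enc_sub (enc_rat _ 5777983609 1000000000) (enc_scaleT 20379087 100000 (enc_subr 38847 40000 h1))))⟩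
noncomputable def sv41 : Fn1 := ⟨_, _, fun h1 => (enc_norm (enc_sub (enc_rat _ 138393335761 100000000000) (enc_scaleT 406018823 10000000 (enc_subr 38847 40000 h1))))⟩
noncomputable def sw41 : Fn1 := ⟨_, _, fun h1 => (enc_norm (enc_sub (enc_rat _ 60237187 10000000) (enc_scaleT 253741 1000 (enc_subr 38847 40000 h1))))⟩
noncomputable def sl42 : Fn1 := ⟨_, _, fun h1 => (enc_norm (enc_sub (enc_rat _ 1262771881 250000000) (enc_scaleT 2924233 25000 (enc_subr 38847 40000 h1))))⟩
noncomputable def sv42 : Fn1 := ⟨_, _, fun h1 => (enc_norm (enc_sub (enc_rat _ 123128497123 100000000000) (enc_scaleT 223693589 10000000 (enc_subr 38847 40000 h1))))⟩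
noncomputable def sw42 : Fn1 := ⟨_, _, fun h1 => (enc_norm (enc_sub (enc_rat _ 25791837 5000000) (enc_scaleT 75191 500 (enc_subr 38847 40000 h1))))⟩
noncomputable def sl43 : Fn1 := ⟨_, _, fun h1 => (enc_norm (enc_sub (enc_rat _ 208176441 200000000) (enc_scaleT 849463 20000 (enc_subr 38847 40000 h1))))⟩
noncomputable def sv43 : Fn1 := ⟨_, _, fun h1 => (enc_norm (enc_sub (enc_rat _ 40919288227 100000000000) (enc_scaleT 70976461 10000000 (enc_subr 38847 40000 h1))))⟩
noncomputable def sw43 : Fn1 := ⟨_, _, fun h1 => (enc_norm (enc_sub (enc_rat _ 2678731 10000000) (enc_scaleT 59533 1000 (enc_subr 38847 40000 h1))))⟩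
noncomputable def sl44 : Fn1 := ⟨_, _, fun h1 => (enc_norm (enc_add (enc_scaleT 193911 25000 (enc_subr 38847 40000 h1)) (enc_rat _ 187910123 250000000)))⟩
noncomputable def sv44 : Fn1 := ⟨_, _, fun h1 => (enc_norm (enc_add (enc_scaleT 29482699 10000000 (enc_subr 38847 40000 h1)) (enc_rat _ 35134434107 100000000000)))⟩
noncomputable def sw44 : Fn1 := ⟨_, _, fun h1 => (enc_norm (enc_subr 468389 5000000 (enc_scaleT 1627 500 (enc_subr 38847 40000 h1))))⟩
noncomputable def sl45 : Fn1 := ⟨_, _, fun h1 => (enc_norm (enc_add (enc_scaleT 5343229 600000 (enc_subr 38847 40000 h1)) (enc_rat _ 1313227799 2000000000)))⟩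
noncomputable def sv45 : Fn1 := ⟨_, _, fun h1 => (enc_norm (enc_add (enc_scaleT 63446277 20000000 (enc_subr 38847 40000 h1)) (enc_rat _ 66562896061 200000000000)))⟩
noncomputable def sw45 : Fn1 := ⟨_, _, fun h1 => (enc_norm (enc_subr 2155089 10000000 (enc_scaleT 4727 1000 (enc_subr 38847 40000 h1))))⟩
noncomputable def sl46 : Fn1 := ⟨_, _, fun h1 => (enc_norm (enc_subr 188568691 5000000000 (enc_neg (enc_scaleT 5687687 500000 (enc_subr 38847 40000 h1)))))⟩
noncomputable def sv46 : Fn1 := ⟨_, _, fun h1 => (enc_norm (enc_sub (enc_rat _ 20262820523 100000000000) (enc_scaleT 6303289 10000000 (enc_subr 38847 40000 h1))))⟩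
noncomputable def sw46 : Fn1 := ⟨_, _, fun h1 => (enc_norm (enc_subr 5706401 5000000 (enc_neg (enc_scaleT 11157 500 (enc_subr 38847 40000 h1)))))⟩
noncomputable def sl47 : Fn1 := ⟨_, _, fun h1 => (enc_norm (enc_subr 105901 100000000 (enc_neg (enc_scaleT 149377 10000 (enc_subr 38847 40000 h1)))))⟩
noncomputable def sv47 : Fn1 := ⟨_, _, fun h1 => (enc_norm (enc_sub (enc_rat _ 4180859567 20000000000) (enc_scaleT 2507481 2000000 (enc_subr 38847 40000 h1))))⟩
noncomputable def sw47 : Fn1 := ⟨_, _, fun h1 => (enc_norm (enc_subr 10889179 10000000 (enc_neg (enc_scaleT 27403 1000 (enc_subr 38847 40000 h1)))))⟩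
noncomputable def sl48 : Fn1 := ⟨_, _, fun h1 => (enc_norm (enc_sub (enc_rat _ 3102201943 5000000000) (enc_scaleT 4696849 500000 (enc_subr 38847 40000 h1))))⟩
noncomputable def sv48 : Fn1 := ⟨_, _, fun h1 => (enc_norm (enc_sub (enc_rat _ 30226791793 100000000000) (enc_scaleT 4221399 10000000 (enc_subr 38847 40000 h1))))⟩
noncomputable def sw48 : Fn1 := ⟨_, _, fun h1 => (enc_norm (enc_subr 530859 10000000 (enc_neg (enc_scaleT 18163 1000 (enc_subr 38847 40000 h1)))))⟩
noncomputable def sl49 : Fn1 := ⟨_, _, fun h1 => (enc_norm (enc_sub (enc_rat _ 355143971 625000000) (enc_scaleT 10103 62500 (enc_subr 38847 40000 h1))))⟩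
noncomputable def sv49 : Fn1 := ⟨_, _, fun h1 => (enc_norm (enc_add (enc_scaleT 3659363 5000000 (enc_subr 38847 40000 h1)) (enc_rat _ 14787097959 50000000000)))⟩
noncomputable def sw49 : Fn1 := ⟨_, _, fun h1 => (enc_norm (enc_subr 1575107 10000000 (enc_scaleT 301 1000 (enc_subr 38847 40000 h1))))⟩
noncomputable def sl50 : Fn1 := ⟨_, _, fun h1 => (enc_norm (enc_add (enc_scaleT 1397 2500 (enc_subr 38847 40000 h1)) (enc_rat _ 1139211 25000000)))⟩
noncomputable def sv50 : Fn1 := ⟨_, _, fun h1 => (enc_norm (enc_add (enc_scaleT 4019611 5000000 (enc_subr 38847 40000 h1)) (enc_rat _ 12173800223 50000000000)))⟩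
noncomputable def sw50 : Fn1 := ⟨_, _, fun h1 => (enc_norm (enc_subr 7320857 5000000 (enc_scaleT 1051 500 (enc_subr 38847 40000 h1))))⟩
noncomputable def sl51 : Fn1 := ⟨_, _, fun h1 => (enc_norm (enc_add (enc_scaleT 242513 500000 (enc_subr 38847 40000 h1)) (enc_rat _ 214763409 5000000000)))⟩
noncomputable def sv51 : Fn1 := ⟨_, _, fun h1 => (enc_norm (enc_add (enc_scaleT 7983911 10000000 (enc_subr 38847 40000 h1)) (enc_rat _ 24328001623 100000000000)))⟩
noncomputable def sw51 : Fn1 := ⟨_, _, fun h1 => (enc_norm (enc_subr 460281 312500 (enc_scaleT 232 125 (enc_subr 38847 40000 h1))))⟩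
noncomputable def sl52 : Fn1 := ⟨_, _, fun h1 => (enc_norm (enc_add (enc_scaleT 409253 2000000 (enc_subr 38847 40000 h1)) (enc_rat _ 2476430229 20000000000)))⟩
noncomputable def sv52 : Fn1 := ⟨_, _, fun h1 => (enc_norm (enc_add (enc_scaleT 15687423 20000000 (enc_subr 38847 40000 h1)) (enc_rat _ 49464617039 200000000000)))⟩
noncomputable def sw52 : Fn1 := ⟨_, _, fun h1 => (enc_norm (enc_subr 5342589 5000000 (enc_scaleT 227 500 (enc_subr 38847 40000 h1))))⟩
noncomputable def sl53 : Fn1 := ⟨_, _, fun h1 => (enc_norm (enc_add (enc_scaleT 434913 500000 (enc_subr 38847 40000 h1)) (enc_rat _ 633241609 5000000000)))⟩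
noncomputable def sv53 : Fn1 := ⟨_, _, fun h1 => (enc_norm (enc_add (enc_scaleT 938889 1250000 (enc_subr 38847 40000 h1)) (enc_rat _ 3089776527 12500000000)))⟩
noncomputable def sw53 : Fn1 := ⟨_, _, fun h1 => (enc_norm (enc_subr 676681 625000 (enc_neg (enc_scaleT 359 125 (enc_subr 38847 40000 h1)))))⟩
noncomputable def sl54 : Fn1 := ⟨_, _, fun h1 => (enc_norm (enc_add (enc_scaleT 322913 250000 (enc_subr 38847 40000 h1)) (enc_rat _ 525438609 2500000000)))⟩
noncomputable def sv54 : Fn1 := ⟨_, _, fun h1 => (enc_norm (enc_add (enc_scaleT 7194723 10000000 (enc_subr 38847 40000 h1)) (enc_rat _ 24091740939 100000000000)))⟩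
noncomputable def sw54 : Fn1 := ⟨_, _, fun h1 => (enc_norm (enc_subr 6805527 5000000 (enc_neg (enc_scaleT 2139 500 (enc_subr 38847 40000 h1)))))⟩
noncomputable def sl55 : Fn1 := ⟨_, _, fun h1 => (enc_norm (enc_add (enc_scaleT 730319 250000 (enc_subr 38847 40000 h1)) (enc_rat _ 766787267 2500000000)))⟩
noncomputable def sv55 : Fn1 := ⟨_, _, fun h1 => (enc_norm (enc_add (enc_scaleT 222603 400000 (enc_subr 38847 40000 h1)) (enc_rat _ 925053779 4000000000)))⟩
noncomputable def sw55 : Fn1 := ⟨_, _, fun h1 => (enc_norm (enc_subr 2003067 1250000 (enc_neg (enc_scaleT 1044 125 (enc_subr 38847 40000 h1)))))⟩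
noncomputable def sl56 : Fn1 := ⟨_, _, fun h1 => (enc_norm (enc_add (enc_scaleT 97063 250000 (enc_subr 38847 40000 h1)) (enc_rat _ 786838559 2500000000)))⟩
noncomputable def sv56 : Fn1 := ⟨_, _, fun h1 => (enc_norm (enc_add (enc_scaleT 1746277 2000000 (enc_subr 38847 40000 h1)) (enc_rat _ 4605224061 20000000000)))⟩
noncomputable def sw56 : Fn1 := ⟨_, _, fun h1 => (enc_norm (enc_subr 8092499 5000000 (enc_neg (enc_scaleT 1643 500 (enc_subr 38847 40000 h1)))))⟩
noncomputable def sl57 : Fn1 := ⟨_, _, fun h1 => (enc_norm (enc_sub (enc_rat _ 1440629909 5000000000) (enc_scaleT 857987 500000 (enc_subr 38847 40000 h1))))⟩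
noncomputable def sv57 : Fn1 := ⟨_, _, fun h1 => (enc_norm (enc_add (enc_scaleT 11887763 10000000 (enc_subr 38847 40000 h1)) (enc_rat _ 23425297659 100000000000)))⟩
noncomputable def sw57 : Fn1 := ⟨_, _, fun h1 => (enc_norm (enc_subr 15741547 10000000 (enc_scaleT 221 1000 (enc_subr 38847 40000 h1))))⟩
noncomputable def sl58 : Fn1 := ⟨_, _, fun h1 => (enc_norm (enc_add (enc_scaleT 718553 40000 (enc_subr 38847 40000 h1)) (enc_rat _ 298992489 400000000)))⟩
noncomputable def sv58 : Fn1 := ⟨_, _, fun h1 => (enc_norm (enc_sub (enc_rat _ 30773123369 200000000000) (enc_scaleT 45103767 20000000 (enc_subr 38847 40000 h1))))⟩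
noncomputable def sw58 : Fn1 := ⟨_, _, fun h1 => (enc_norm (enc_subr 22303749 10000000 (enc_neg (enc_scaleT 27893 1000 (enc_subr 38847 40000 h1)))))⟩
noncomputable def sl59 : Fn1 := ⟨_, _, fun h1 => (enc_norm (enc_add (enc_scaleT 24607 480 (enc_subr 38847 40000 h1)) (enc_rat _ 9329781 8000000)))⟩
noncomputable def sv59 : Fn1 := ⟨_, _, fun h1 => (enc_norm (enc_sub (enc_rat _ 7535124247 100000000000) (enc_scaleT 84990821 10000000 (enc_subr 38847 40000 h1))))⟩
noncomputable def sw59 : Fn1 := ⟨_, _, fun h1 => (enc_norm (enc_subr 13943471 5000000 (enc_neg (enc_scaleT 36147 500 (enc_subr 38847 40000 h1)))))⟩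
noncomputable def sl60 : Fn1 := ⟨_, _, fun h1 => (enc_norm (enc_add (enc_scaleT 34587 1250 (enc_subr 38847 40000 h1)) (enc_rat _ 28788507 25000000)))⟩
noncomputable def sv60 : Fn1 := ⟨_, _, fun h1 => (enc_norm (enc_sub (enc_rat _ 1955351863 25000000000) (enc_scaleT 9745159 2500000 (enc_subr 38847 40000 h1))))⟩
noncomputable def sw60 : Fn1 := ⟨_, _, fun h1 => (enc_norm (enc_subr 6924673 2500000 (enc_neg (enc_scaleT 10511 250 (enc_subr 38847 40000 h1)))))⟩
noncomputable def sl61 : Fn1 := ⟨_, _, fun h1 => (enc_norm (enc_add (enc_scaleT 1394239 100000 (enc_subr 38847 40000 h1)) (enc_rat _ 710508327 1000000000)))⟩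
noncomputable def sv61 : Fn1 := ⟨_, _, fun h1 => (enc_norm (enc_sub (enc_rat _ 4160516593 25000000000) (enc_scaleT 2881549 2500000 (enc_subr 38847 40000 h1))))⟩
noncomputable def sw61 : Fn1 := ⟨_, _, fun h1 => (enc_norm (enc_subr 4437161 2000000 (enc_neg (enc_scaleT 4977 200 (enc_subr 38847 40000 h1)))))⟩
noncomputable def sl62 : Fn1 := ⟨_, _, fun h1 => (enc_norm (enc_subr 2280800357 1000000000 (enc_scaleT 3589051 100000 (enc_subr 38847 40000 h1))))⟩
noncomputable def sv62 : Fn1 := ⟨_, _, fun h1 => (enc_norm (enc_sub (enc_rat _ 38981957447 50000000000) (enc_scaleT 28259921 5000000 (enc_subr 38847 40000 h1))))⟩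
noncomputable def sw62 : Fn1 := ⟨_, _, fun h1 => (enc_norm (enc_sub (enc_rat _ 14293557 10000000) (enc_scaleT 51651 1000 (enc_subr 38847 40000 h1))))⟩
noncomputable def sl63 : Fn1 := ⟨_, _, fun h1 => (enc_norm (enc_subr 250657193 100000000 (enc_scaleT 774999 10000 (enc_subr 38847 40000 h1))))⟩
noncomputable def sv63 : Fn1 := ⟨_, _, fun h1 => (enc_norm (enc_sub (enc_rat _ 4135256939 5000000000) (enc_scaleT 7194977 500000 (enc_subr 38847 40000 h1))))⟩
noncomputable def sw63 : Fn1 := ⟨_, _, fun h1 => (enc_norm (enc_sub (enc_rat _ 8490651 5000000) (enc_scaleT 50593 500 (enc_subr 38847 40000 h1))))⟩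
noncomputable def sl64 : Fn1 := ⟨_, _, fun h1 => (enc_norm (enc_subr 2682843511 1000000000 (enc_scaleT 9564073 100000 (enc_subr 38847 40000 h1))))⟩
noncomputable def sv64 : Fn1 := ⟨_, _, fun h1 => (enc_norm (enc_sub (enc_rat _ 86494999121 100000000000) (enc_scaleT 182902303 10000000 (enc_subr 38847 40000 h1))))⟩
noncomputable def sw64 : Fn1 := ⟨_, _, fun h1 => (enc_norm (enc_sub (enc_rat _ 237887 125000) (enc_scaleT 3057 25 (enc_subr 38847 40000 h1))))⟩
noncomputable def sl65_2 : Fn1 := ⟨_, _, fun h1 => (enc_subr 38847 40000 h1)⟩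
noncomputable def sl65 : Fn1 := ⟨_, _, fun h1 => (enc_norm (enc_sub (enc_subr 9657735715883499863 790432500000000000 (enc_neg (enc_scaleT 51453144504104407 79043250000000 (sl65_2.enc h1)))) (enc_scaleT 49328254013 329346875 (enc_sq (enc_norm (sl65_2.enc h1))))))⟩
noncomputable def sv65_2 : Fn1 := ⟨_, _, fun h1 => (enc_subr 38847 40000 h1)⟩
noncomputable def sv65 : Fn1 := ⟨_, _, fun h1 => (enc_norm (enc_add (enc_add (enc_scaleT 13110361660204841 89821875000000 (sv65_2.enc h1)) (enc_rat _ 2661196486802713669 898218750000000000)) (enc_scaleT 24664125238 748515625 (enc_sq (enc_norm (sv65_2.enc h1))))))⟩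
noncomputable def sw65_2 : Fn1 := ⟨_, _, fun h1 => (enc_subr 38847 40000 h1)⟩
noncomputable def sw65 : Fn1 := ⟨_, _, fun h1 => (enc_norm (enc_add (enc_add (enc_scaleT 18152943 25000 (sw65_2.enc h1)) (enc_rat _ 6369417099 500000000)) (enc_scaleT 851 5 (enc_sq (enc_norm (sw65_2.enc h1))))))⟩
noncomputable def sl67_2 : Fn1 := ⟨_, _, fun h1 => (enc_subr 38847 40000 h1)⟩
noncomputable def sl67 : Fn1 := ⟨_, _, fun h1 => (enc_norm (enc_add (enc_sub (enc_rat _ 11556019844149763863 8923761000000000000) (enc_scaleT 1699936803312043 892376100000000 (sl67_2.enc h1))) (enc_scaleT 170288391803 579465000 (enc_sq (enc_norm (sl67_2.enc h1))))))⟩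
noncomputable def sv67_2 : Fn1 := ⟨_, _, fun h1 => (enc_subr 38847 40000 h1)⟩
noncomputable def sv67 : Fn1 := ⟨_, _, fun h1 => (enc_norm (enc_sub (enc_subr 3340978089680752355369 44618805000000000000000 (enc_scaleT 3866064382293603659 4461880500000000000 (sv67_2.enc h1))) (enc_scaleT 102385890998807 1448662500000 (enc_sq (enc_norm (sv67_2.enc h1))))))⟩
noncomputable def sw67_2 : Fn1 := ⟨_, _, fun h1 => (enc_subr 38847 40000 h1)⟩
noncomputable def sw67 : Fn1 := ⟨_, _, fun h1 => (enc_norm (enc_sub (enc_subr 5732505213 2500000000 (enc_scaleT 44959 125000 (sw67_2.enc h1))) (enc_scaleT 7637 25 (enc_sq (enc_norm (sw67_2.enc h1))))))⟩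
noncomputable def sl68 : Fn1 := ⟨_, _, fun h1 => (enc_norm (enc_subr 26102534533 70000000000 (enc_scaleT 33547317 1000000 (enc_subr 38847 40000 h1))))⟩
noncomputable def sv68 : Fn1 := ⟨_, _, fun h1 => (enc_norm (enc_sub (enc_rat _ 5709260506349 17500000000000) (enc_scaleT 1914951701 250000000 (enc_subr 38847 40000 h1))))⟩
noncomputable def sw68 : Fn1 := ⟨_, _, fun h1 => (enc_norm (enc_subr 5592549 10000000 (enc_neg (enc_scaleT 36493 1000 (enc_subr 38847 40000 h1)))))⟩
noncomputable def sl69 : Fn1 := ⟨_, _, fun h1 => (enc_norm (enc_subr 4877826907 10000000000 (enc_neg (enc_scaleT 30152299 1000000 (enc_subr 38847 40000 h1)))))⟩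
noncomputable def sv69 : Fn1 := ⟨_, _, fun h1 => (enc_norm (enc_add (enc_scaleT 15765799 2000000 (enc_subr 38847 40000 h1)) (enc_rat _ 7085532407 20000000000)))⟩
noncomputable def sw69 : Fn1 := ⟨_, _, fun h1 => (enc_norm (enc_subr 4415411 10000000 (enc_scaleT 28773 1000 (enc_subr 38847 40000 h1))))⟩
noncomputable def skf0 : Fn2 := ⟨_, _, fun h1 h2 => (enc_norm (enc_add (bf1q0.enc h1 h2) (enc_mul (enc_norm (enc_sub (enc_mul (c1g.enc h1) (bf1q0.enc h1 h2)) (kf0q0.enc h1 h2))) (enc_inv (enc_sub (cv1m.enc h1) (c1g.enc h1))))))⟩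
noncomputable def sxf0 : Fn2 := ⟨_, _, fun h1 h2 => (enc_norm (enc_mul (enc_norm (enc_sub (l1q0.enc h1 h2) (l0q0.enc h1 h2))) (enc_inv (enc_sub (cv1m.enc h1) (c1g.enc h1)))))⟩
noncomputable def skl0 : Fn2 := ⟨_, _, fun h1 h2 => (enc_norm (enc_add (bf4q0.enc h1 h2) (enc_mul (enc_norm (enc_sub (kf5q0.enc h1 h2) (enc_mul (c3g.enc h1) (bf4q0.enc h1 h2)))) (enc_inv (enc_sub (c3g.enc h1) (cv4m.enc h1))))))⟩
noncomputable def sxl0 : Fn2 := ⟨_, _, fun h1 h2 => (enc_norm (enc_mul (enc_norm (enc_sub (l5q0.enc h1 h2) (l4q0.enc h1 h2))) (enc_inv (enc_sub (c3g.enc h1) (cv4m.enc h1)))))⟩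
noncomputable def skf1 : Fn2 := ⟨_, _, fun h1 h2 => (enc_norm (enc_add (bf1q1.enc h1 h2) (enc_mul (enc_norm (enc_sub (enc_mul (c1g.enc h1) (bf1q1.enc h1 h2)) (kf0q1.enc h1 h2))) (enc_inv (enc_sub (cv1m.enc h1) (c1g.enc h1))))))⟩
noncomputable def sxf1 : Fn2 := ⟨_, _, fun h1 h2 => (enc_norm (enc_mul (enc_norm (enc_sub (l1q1.enc h1 h2) (l0q1.enc h1 h2))) (enc_inv (enc_sub (cv1m.enc h1) (c1g.enc h1)))))⟩
noncomputable def skl1 : Fn2 := ⟨_, _, fun h1 h2 => (enc_norm (enc_add (bf4q1.enc h1 h2) (enc_mul (enc_norm (enc_sub (kf5q1.enc h1 h2) (enc_mul (c3g.enc h1) (bf4q1.enc h1 h2)))) (enc_inv (enc_sub (c3g.enc h1) (cv4m.enc h1))))))⟩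
noncomputable def sxl1 : Fn2 := ⟨_, _, fun h1 h2 => (enc_norm (enc_mul (enc_norm (enc_sub (l5q1.enc h1 h2) (l4q1.enc h1 h2))) (enc_inv (enc_sub (c3g.enc h1) (cv4m.enc h1)))))⟩
noncomputable def skf2 : Fn2 := ⟨_, _, fun h1 h2 => (enc_norm (enc_add (bf1q2.enc h1 h2) (enc_mul (enc_norm (enc_add (enc_mul (c1g.enc h1) (enc_norm (enc_subn 1 (bf1q2.enc h1 h2)))) (enc_mul (enc_norm (enc_subn 1 h1)) (kcg.enc (c1g.enc h1) h2)))) (enc_inv (enc_sub (cv1p.enc h1) (c1g.enc h1))))))⟩
noncomputable def sxf2 : Fn2 := ⟨_, _, fun h1 h2 => (enc_norm (enc_mul (enc_norm (enc_sub (l1q2.enc h1 h2) (l0q2.enc h1 h2))) (enc_inv (enc_sub (cv1p.enc h1) (c1g.enc h1)))))⟩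
noncomputable def skl2 : Fn2 := ⟨_, _, fun h1 h2 => (enc_norm (enc_add (bf4q2.enc h1 h2) (enc_mul (enc_norm (enc_sub (kf5q2.enc h1 h2) (enc_mul (c3g.enc h1) (bf4q2.enc h1 h2)))) (enc_inv (enc_sub (c3g.enc h1) (cv4p.enc h1))))))⟩
noncomputable def sxl2 : Fn2 := ⟨_, _, fun h1 h2 => (enc_norm (enc_mul (enc_norm (enc_sub (l5q2.enc h1 h2) (l4q2.enc h1 h2))) (enc_inv (enc_sub (c3g.enc h1) (cv4p.enc h1)))))⟩
noncomputable def skl3 : Fn2 := ⟨_, _, fun h1 h2 => (enc_norm (enc_add (bf4q3.enc h1 h2) (enc_mul (enc_norm (enc_sub (kf5q3.enc h1 h2) (enc_mul (c3g.enc h1) (bf4q3.enc h1 h2)))) (enc_inv (enc_sub (c3g.enc h1) (cv4r.enc h1))))))⟩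
noncomputable def sxl3 : Fn2 := ⟨_, _, fun h1 h2 => (enc_norm (enc_mul (enc_norm (enc_sub (l5q3.enc h1 h2) (l4q3.enc h1 h2))) (enc_inv (enc_sub (c3g.enc h1) (cv4r.enc h1)))))⟩
noncomputable def rhk : Fn2 := ⟨_, _, fun h1 h2 => (enc_norm (enc_mul (enc_norm (enc_sub (bf1q2.enc h1 h2) (n0b.enc h1 h2))) (enc_norm (enc_mul (cv1p.enc h1) (enc_inv (enc_sub (cv1p.enc h1) (c1g.enc h1)))))))⟩
noncomputable def rhx : Fn2 := ⟨_, _, fun h1 h2 => (enc_norm (enc_mul (enc_norm (enc_sub (bx1q2.enc h1 h2) (n0x.enc h1 h2))) (enc_norm (enc_mul (cv1p.enc h1) (enc_inv (enc_sub (cv1p.enc h1) (c1g.enc h1)))))))⟩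
noncomputable def sbk : Fn1 := ⟨_, _, fun h1 => (enc_norm (enc_add (enc_scaleT 3 500 (enc_subr 38847 40000 h1)) (enc_rat _ 1391 145000000)))⟩
noncomputable def sbx : Fn1 := ⟨_, _, fun h1 => (enc_norm (enc_add (enc_scaleT 60053 145000 (enc_subr 38847 40000 h1)) (enc_rat _ 1889574629 1450000000)))⟩
noncomputable def k0c : Fn1 := ⟨_, _, fun h1 => (enc_norm (enc_add (enc_scaleT 929 10000 (enc_subr 38847 40000 h1)) (enc_rat _ 151927497 100000000)))⟩
noncomputable def m0c : Fn1 := ⟨_, _, fun h1 => (enc_norm (enc_subr 2476430229 10000000000 (enc_neg (enc_scaleT 409253 1000000 (enc_subr 38847 40000 h1)))))⟩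
noncomputable def sl105 : Fn1 := ⟨_, _, fun h1 => (enc_norm (enc_subr 50184179 80000000 (enc_neg (enc_scaleT 18803 8000 (enc_subr 38847 40000 h1)))))⟩
noncomputable def sv105 : Fn1 := ⟨_, _, fun h1 => (enc_norm (enc_subr 6447851443 100000000000 (enc_neg (enc_scaleT 1753651 10000000 (enc_subr 38847 40000 h1)))))⟩
noncomputable def sw105 : Fn1 := ⟨_, _, fun h1 => (enc_norm (enc_subr 14449429 10000000 (enc_neg (enc_scaleT 8653 1000 (enc_subr 38847 40000 h1)))))⟩
noncomputable def sl106 : Fn1 := ⟨_, _, fun h1 => (enc_norm (enc_subr 81008607 10000000000 (enc_neg (enc_scaleT 1441199 1000000 (enc_subr 38847 40000 h1)))))⟩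
noncomputable def sv106 : Fn1 := ⟨_, _, fun h1 => (enc_norm (enc_subr 255859507 100000000000 (enc_neg (enc_scaleT 844499 10000000 (enc_subr 38847 40000 h1)))))⟩
noncomputable def sw106 : Fn1 := ⟨_, _, fun h1 => (enc_norm (enc_sub (enc_rat _ 51533 500000) (enc_scaleT 319 50 (enc_subr 38847 40000 h1))))⟩
noncomputable def sl107 : Fn1 := ⟨_, _, fun h1 => (enc_norm (enc_sub (enc_rat _ 780420193 10000000000) (enc_scaleT 945599 1000000 (enc_subr 38847 40000 h1))))⟩
noncomputable def sv107 : Fn1 := ⟨_, _, fun h1 => (enc_norm (enc_sub (enc_rat _ 390210593 100000000000) (enc_scaleT 472799 10000000 (enc_subr 38847 40000 h1))))⟩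
noncomputable def sw107 : Fn1 := ⟨_, _, fun h1 => (enc_norm (enc_sub (enc_rat _ 243881 625000) (enc_scaleT 591 125 (enc_subr 38847 40000 h1))))⟩
noncomputable def sl108 : Fn1 := ⟨_, _, fun h1 => (enc_pnc _ 0)⟩
noncomputable def sv108 : Fn1 := ⟨_, _, fun h1 => (enc_pnc _ 0)⟩
noncomputable def sl109 : Fn1 := ⟨_, _, fun h1 => (enc_norm (enc_sub (enc_rat _ 780420193 10000000000) (enc_scaleT 945599 1000000 (enc_subr 38847 40000 h1))))⟩
noncomputable def sv109 : Fn1 := ⟨_, _, fun h1 => (enc_norm (enc_subr 390210593 100000000000 (enc_scaleT 472799 10000000 (enc_subr 38847 40000 h1))))⟩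
noncomputable def sw109 : Fn1 := ⟨_, _, fun h1 => (enc_norm (enc_subr 243881 625000 (enc_scaleT 591 125 (enc_subr 38847 40000 h1))))⟩
noncomputable def sl110 : Fn1 := ⟨_, _, fun h1 => (enc_norm (enc_subr 81008607 10000000000 (enc_neg (enc_scaleT 1441199 1000000 (enc_subr 38847 40000 h1)))))⟩
noncomputable def sv110 : Fn1 := ⟨_, _, fun h1 => (enc_norm (enc_add (enc_scaleT 844499 10000000 (enc_subr 38847 40000 h1)) (enc_rat _ 255859507 100000000000)))⟩
noncomputable def sw110 : Fn1 := ⟨_, _, fun h1 => (enc_norm (enc_subr 51533 500000 (enc_scaleT 319 50 (enc_subr 38847 40000 h1))))⟩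
noncomputable def sl111 : Fn1 := ⟨_, _, fun h1 => (enc_norm (enc_subr 50184179 80000000 (enc_neg (enc_scaleT 18803 8000 (enc_subr 38847 40000 h1)))))⟩
noncomputable def sv111 : Fn1 := ⟨_, _, fun h1 => (enc_norm (enc_add (enc_scaleT 1753651 10000000 (enc_subr 38847 40000 h1)) (enc_rat _ 6447851443 100000000000)))⟩
noncomputable def sw111 : Fn1 := ⟨_, _, fun h1 => (enc_norm (enc_add (enc_scaleT 8653 1000 (enc_subr 38847 40000 h1)) (enc_rat _ 14449429 10000000)))⟩
noncomputable def kqf : Fn2 := ⟨_, _, fun h1 h2 => (enc_norm (enc_mul (enc_norm (enc_subn 1 h1)) (enc_norm (enc_case (enc_subr 1 10 (c1g.enc h1)) (enc_add (enc_scaleT 929 10000 (enc_subr 38847 40000 h2)) (enc_rat _ 151927497 100000000)) (enc_mul (kcg.enc (c1g.enc h1) h2) (enc_inv (c1g.enc h1)))))))⟩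
noncomputable def skm : Fn2 := ⟨_, _, fun h1 h2 => (enc_norm (enc_sub (enc_mul (enc_norm (enc_mul (cv1p.enc h1) (enc_inv (enc_sub (cv1p.enc h1) (c1g.enc h1))))) (enc_norm (enc_add (enc_subn 1 (bf1q2.enc h1 h2)) (kqf.enc h1 h2)))) (kqf.enc h1 h2)))⟩
noncomputable def dt1 : DT := .quad sw1 sl1 sv1
noncomputable def dt2 : DT := .quad sw2 sl2 sv2
noncomputable def dt3 : DT := .quad sw3 sl3 sv3
noncomputable def dt4 : DT := .quad sw4 sl4 sv4
noncomputable def dt5 : DT := .quad sw5 sl5 sv5
noncomputable def dt6 : DT := .quad sw6 sl6 sv6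
noncomputable def dt7 : DT := .quad sw7 sl7 sv7
noncomputable def dt8 : DT := .quad sw8 sl8 sv8
noncomputable def dt9 : DT := .lin sl9 sv9
noncomputable def dt10 : DT := .quad sw10 sl10 sv10
noncomputable def dt11 : DT := .quad sw11 sl11 sv11
noncomputable def dt12 : DT := .quad sw12 sl12 sv12
noncomputable def dt13 : DT := .quad sw13 sl13 sv13
noncomputable def dt14 : DT := .quad sw14 sl14 sv14
noncomputable def dt15 : DT := .quad sw15 sl15 sv15
noncomputable def dt16 : DT := .quad sw16 sl16 sv16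
noncomputable def dt17 : DT := .quad sw17 sl17 sv17
noncomputable def dt18 : DT := .node ((Cn.rt 61 125).ng) dt1 dt2
noncomputable def dt19 : DT := .node ((Cn.rt 541 1141).ng) dt3 dt4
noncomputable def dt20 : DT := .node ((Cn.rt 481 1000).ng) dt18 dt19
noncomputable def dt21 : DT := .node ((Cn.rt 43 100).ng) dt5 dt6
noncomputable def dt22 : DT := .node ((Cn.rt 3 10).ng) dt7 dt8
noncomputable def dt23 : DT := .node ((Cn.rt 41 100).ng) dt21 dt22
noncomputable def dt24 : DT := .node ((Cn.rt 781 1742).ng) dt20 dt23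
noncomputable def dt25 : DT := .node (Cn.rt 1 10) dt9 dt10
noncomputable def dt26 : DT := .node (Cn.rt 41 100) dt11 dt12
noncomputable def dt27 : DT := .node (Cn.rt 3 10) dt25 dt26
noncomputable def dt28 : DT := .node (Cn.rt 781 1742) dt13 dt14
noncomputable def dt29 : DT := .node (Cn.rt 61 125) dt16 dt17
noncomputable def dt30 : DT := .node (Cn.rt 481 1000) dt15 dt29
noncomputable def dt31 : DT := .node (Cn.rt 541 1141) dt28 dt30
noncomputable def dt32 : DT := .node (Cn.rt 43 100) dt27 dt31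
noncomputable def dt33 : DT := .node ((Cn.rt 1 10).ng) dt24 dt32
noncomputable def dt34 : DT := .quad sw34 sl34 sv34
noncomputable def dt35 : DT := .quad sw35 sl35 sv35
noncomputable def dt36 : DT := .quad sw36 sl36 sv36
noncomputable def dt37 : DT := .quad sw37 sl37 sv37
noncomputable def dt38 : DT := .quad sw38 sl38 sv38
noncomputable def dt39 : DT := .quad sw39 sl39 sv39
noncomputable def dt40 : DT := .quad sw40 sl40 sv40
noncomputable def dt41 : DT := .quad sw41 sl41 sv41
noncomputable def dt42 : DT := .quad sw42 sl42 sv42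
noncomputable def dt43 : DT := .quad sw43 sl43 sv43
noncomputable def dt44 : DT := .quad sw44 sl44 sv44
noncomputable def dt45 : DT := .quad sw45 sl45 sv45
noncomputable def dt46 : DT := .quad sw46 sl46 sv46
noncomputable def dt47 : DT := .quad sw47 sl47 sv47
noncomputable def dt48 : DT := .quad sw48 sl48 sv48
noncomputable def dt49 : DT := .quad sw49 sl49 sv49
noncomputable def dt50 : DT := .quad sw50 sl50 sv50
noncomputable def dt51 : DT := .quad sw51 sl51 sv51
noncomputable def dt52 : DT := .quad sw52 sl52 sv52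
noncomputable def dt53 : DT := .quad sw53 sl53 sv53
noncomputable def dt54 : DT := .quad sw54 sl54 sv54
noncomputable def dt55 : DT := .quad sw55 sl55 sv55
noncomputable def dt56 : DT := .quad sw56 sl56 sv56
noncomputable def dt57 : DT := .quad sw57 sl57 sv57
noncomputable def dt58 : DT := .quad sw58 sl58 sv58
noncomputable def dt59 : DT := .quad sw59 sl59 sv59
noncomputable def dt60 : DT := .quad sw60 sl60 sv60
noncomputable def dt61 : DT := .quad sw61 sl61 sv61
noncomputable def dt62 : DT := .quad sw62 sl62 sv62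
noncomputable def dt63 : DT := .quad sw63 sl63 sv63
noncomputable def dt64 : DT := .quad sw64 sl64 sv64
noncomputable def dt65 : DT := .quad sw65 sl65 sv65
noncomputable def dt66 : DT := .clo
noncomputable def dt67 : DT := .quad sw67 sl67 sv67
noncomputable def dt68 : DT := .quad sw68 sl68 sv68
noncomputable def dt69 : DT := .quad sw69 sl69 sv69
noncomputable def dt70 : DT := .node ((Cn.rt 61 125).ng) dt34 dt35
noncomputable def dt71 : DT := .node ((Cn.rt 94829 200000).ng) dt36 dt37
noncomputable def dt72 : DT := .node ((Cn.rt 481 1000).ng) dt70 dt71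
noncomputable def dt73 : DT := .node ((Cn.rt 89667 200000).ng) dt38 dt39
noncomputable def dt74 : DT := .node ((Cn.rt 21 50).ng) dt41 dt42
noncomputable def dt75 : DT := .node ((Cn.rt 43 100).ng) dt40 dt74
noncomputable def dt76 : DT := .node ((Cn.rt 11 25).ng) dt73 dt75
noncomputable def dt77 : DT := .node ((Cn.rt 23 50).ng) dt72 dt76
noncomputable def dt78 : DT := .node ((Cn.rt 2 5).ng) dt43 dt44
noncomputable def dt79 : DT := .node ((Cn.rt 3 8).ng) dt45 dt46
noncomputable def dt80 : DT := .node ((Cn.rt 39 100).ng) dt78 dt79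
noncomputable def dt81 : DT := .node ((Cn.rt 3 10).ng) dt47 dt48
noncomputable def dt82 : DT := .node ((Cn.rt 3 20).ng) dt50 dt51
noncomputable def dt83 : DT := .node ((Cn.rt 1 5).ng) dt49 dt82
noncomputable def dt84 : DT := .node ((Cn.rt 1 4).ng) dt81 dt83
noncomputable def dt85 : DT := .node ((Cn.rt 7 20).ng) dt80 dt84
noncomputable def dt86 : DT := .node ((Cn.rt 41 100).ng) dt77 dt85
noncomputable def dt87 : DT := .node (Cn.rt 1 10) dt52 dt53
noncomputable def dt88 : DT := .node (Cn.rt 1 5) dt54 dt55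
noncomputable def dt89 : DT := .node (Cn.rt 3 20) dt87 dt88
noncomputable def dt90 : DT := .node (Cn.rt 3 10) dt56 dt57
noncomputable def dt91 : DT := .node (Cn.rt 39 100) dt59 dt60
noncomputable def dt92 : DT := .node (Cn.rt 3 8) dt58 dt91
noncomputable def dt93 : DT := .node (Cn.rt 7 20) dt90 dt92
noncomputable def dt94 : DT := .node (Cn.rt 1 4) dt89 dt93
noncomputable def dt95 : DT := .node (Cn.rt 41 100) dt61 dt62
noncomputable def dt96 : DT := .node (Cn.rt 43 100) dt63 dt64
noncomputable def dt97 : DT := .node (Cn.rt 21 50) dt95 dt96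
noncomputable def dt98 : DT := .node (Cn.rt 781 1742) dt65 dt66
noncomputable def dt99 : DT := .node (Cn.rt 61 125) dt68 dt69
noncomputable def dt100 : DT := .node (Cn.rt 481 1000) dt67 dt99
noncomputable def dt101 : DT := .node (Cn.rt 541 1141) dt98 dt100
noncomputable def dt102 : DT := .node (Cn.rt 11 25) dt97 dt101
noncomputable def dt103 : DT := .node (Cn.rt 2 5) dt94 dt102
noncomputable def dt104 : DT := .node ((Cn.rt 1 10).ng) dt86 dt103
noncomputable def dt105 : DT := .quad sw105 sl105 sv105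
noncomputable def dt106 : DT := .quad sw106 sl106 sv106
noncomputable def dt107 : DT := .quad sw107 sl107 sv107
noncomputable def dt108 : DT := .lin sl108 sv108
noncomputable def dt109 : DT := .quad sw109 sl109 sv109
noncomputable def dt110 : DT := .quad sw110 sl110 sv110
noncomputable def dt111 : DT := .quad sw111 sl111 sv111
noncomputable def dt112 : DT := .node ((Cn.rt 3 20).ng) dt106 dt107
noncomputable def dt113 : DT := .node ((Cn.rt 1 5).ng) dt105 dt112
noncomputable def dt114 : DT := .node (Cn.rt 1 10) dt108 dt109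
noncomputable def dt115 : DT := .node (Cn.rt 1 5) dt110 dt111
noncomputable def dt116 : DT := .node (Cn.rt 3 20) dt114 dt115
noncomputable def dt117 : DT := .node ((Cn.rt 1 10).ng) dt113 dt116
noncomputable def dd : SDat := ⟨dt33, kcg, dt104, Kh.T⟩
noncomputable def gf0 : Sg := ⟨cv1m, skf0, sxf0⟩
noncomputable def gf1 : Sg := ⟨cv1m, skf1, sxf1⟩
noncomputable def gf2 : Sg := ⟨cv1p, skf2, sxf2⟩
noncomputable def gf3 : Sg := ⟨cv1r, skf2, sxf2⟩
noncomputable def gl0 : Sg := ⟨cv4m, skl0, sxl0⟩
noncomputable def gl1 : Sg := ⟨cv4m, skl1, sxl1⟩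
noncomputable def gl2 : Sg := ⟨cv4p, skl2, sxl2⟩
noncomputable def gl3 : Sg := ⟨cv4r, skl3, sxl3⟩
noncomputable def vv : Vt := ⟨(Cn.rt 1 10), (Cn.rt 577 500), (Cn.rt 231 200), (Cn.rt 13 10), k0c, m0c, sbk, sbx, rhk, rhx, bf1q2, bx1q2, (Cn.rt 1 4), (Cn.rt 577 500), skm, dt117⟩
noncomputable def ff (q : ℕ) : Sg := match q with
  | 0 => gf0
  | 1 => gf1
  | 2 => gf2
  | _ => gf3
noncomputable def fl (q : ℕ) : Sg := match q with
  | 0 => gl0
  | 1 => gl1
  | 2 => gl2
  | _ => gl3
noncomputable def tt : STab 5 := ⟨dd, 0, 4, ff, fl, vv⟩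
theorem kcl0 {p x : ℝ} (h1 : -1 / 2 ≤ p) (h2 : p ≤ -61 / 125) : kcg.v p x = (-9994179252157 / 1500000000000 + (x - 38847 / 40000) * (-4246345549 / 150000000)) + (-41937259367 / 3750000000 + (x - 38847 / 40000) * (-22585769 / 375000)) * p + (130929 / 2500000 + (x - 38847 / 40000) * (153 / 250)) * p ^ 2 := by
  simp only [kcg, kcg_3, kcg_6, kcg_9, kcg_12, kcg_13, kcg_18, kcg_31, kcg_34, kcg_35, kcg_40, kcg_45, kcg_58, kcg_59, kcg_67, kcg_68, kcg_73, kcg_86, kcg_87, kcg_92, kcg_95, kcg_108, kcg_109, kcg_118, kcg_121, kcg_122, kcg_125, kcg_135, kcg_136, kcg_141, kcg_144, kcg_154, kcg_155, kcg_163, kcg_164, kcg_167, kcg_175, kcg_176, kcg_184, kcg_187, kcg_195, kcg_196, kcg_201, kcg_204, kcg_211, kcg_212, kcg_213, kcg_218, kcg_219, kcg_228, kcg_234, kcg_239, kcg_249, kcg_256, kcg_257, kcg_264, kcg_275, kcg_281, kcg_288, kcg_300]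
  rcases eq_or_lt_of_le h1 with h | h1
  · subst h
    ((try push_cast); (repeat first | rw [if_pos (by linarith)] | rw [if_neg (by linarith)] | erw [if_pos (by linarith)] | erw [if_neg (by linarith)]); (try push_cast); (try ring1))
  rcases eq_or_lt_of_le h2 with h | h2
  · subst h
    ((try push_cast); (repeat first | rw [if_pos (by linarith)] | rw [if_neg (by linarith)] | erw [if_pos (by linarith)] | erw [if_neg (by linarith)]); (try push_cast); (try ring1))
  · ((try push_cast); (repeat first | rw [if_pos (by linarith)] | rw [if_neg (by linarith)] | erw [if_pos (by linarith)] | erw [if_neg (by linarith)]); (try push_cast); (try ring1))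
theorem kcl1 {p x : ℝ} (h1 : -61 / 125 ≤ p) (h2 : p ≤ -481 / 1000) : kcg.v p x = (-113558973147947 / 17500000000000 + (x - 38847 / 40000) * (-43407359579 / 1750000000)) + (-732996333619 / 70000000000 + (x - 38847 / 40000) * (-321054483 / 7000000)) * p + (7817697 / 10000000 + (x - 38847 / 40000) * (15329 / 1000)) * p ^ 2 := by
  simp only [kcg, kcg_3, kcg_6, kcg_9, kcg_12, kcg_13, kcg_18, kcg_31, kcg_34, kcg_35, kcg_40, kcg_45, kcg_58, kcg_59, kcg_67, kcg_68, kcg_73, kcg_86, kcg_87, kcg_92, kcg_95, kcg_108, kcg_109, kcg_118, kcg_121, kcg_122, kcg_125, kcg_135, kcg_136, kcg_141, kcg_144, kcg_154, kcg_155, kcg_163, kcg_164, kcg_167, kcg_175, kcg_176, kcg_184, kcg_187, kcg_195, kcg_196, kcg_201, kcg_204, kcg_211, kcg_212, kcg_213, kcg_218, kcg_219, kcg_228, kcg_234, kcg_239, kcg_249, kcg_256, kcg_257, kcg_264, kcg_275, kcg_281, kcg_288, kcg_300]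
  rcases eq_or_lt_of_le h1 with h | h1
  · subst h
    ((try push_cast); (repeat first | rw [if_pos (by linarith)] | rw [if_neg (by linarith)] | erw [if_pos (by linarith)] | erw [if_neg (by linarith)]); (try push_cast); (try ring1))
  rcases eq_or_lt_of_le h2 with h | h2
  · subst h
    ((try push_cast); (repeat first | rw [if_pos (by linarith)] | rw [if_neg (by linarith)] | erw [if_pos (by linarith)] | erw [if_neg (by linarith)]); (try push_cast); (try ring1))
  · ((try push_cast); (repeat first | rw [if_pos (by linarith)] | rw [if_neg (by linarith)] | erw [if_pos (by linarith)] | erw [if_neg (by linarith)]); (try push_cast); (try ring1))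
theorem kcl2 {p x : ℝ} (h1 : -481 / 1000 ≤ p) (h2 : p ≤ -541 / 1141) : kcg.v p x = (305534810589742356253 / 2230940250000000000 + (x - 38847 / 40000) * (40983083054432821 / 223094025000000)) + (2614496845616704313 / 4461880500000000 + (x - 38847 / 40000) * (366369324340991 / 446188050000)) * p + (124155183 / 200000 + (x - 38847 / 40000) * (18331 / 20)) * p ^ 2 := by
  simp only [kcg, kcg_3, kcg_6, kcg_9, kcg_12, kcg_13, kcg_18, kcg_31, kcg_34, kcg_35, kcg_40, kcg_45, kcg_58, kcg_59, kcg_67, kcg_68, kcg_73, kcg_86, kcg_87, kcg_92, kcg_95, kcg_108, kcg_109, kcg_118, kcg_121, kcg_122, kcg_125, kcg_135, kcg_136, kcg_141, kcg_144, kcg_154, kcg_155, kcg_163, kcg_164, kcg_167, kcg_175, kcg_176, kcg_184, kcg_187, kcg_195, kcg_196, kcg_201, kcg_204, kcg_211, kcg_212, kcg_213, kcg_218, kcg_219, kcg_228, kcg_234, kcg_239, kcg_249, kcg_256, kcg_257, kcg_264, kcg_275, kcg_281, kcg_288, kcg_300]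
  rcases eq_or_lt_of_le h1 with h | h1
  · subst h
    ((try push_cast); (repeat first | rw [if_pos (by linarith)] | rw [if_neg (by linarith)] | erw [if_pos (by linarith)] | erw [if_neg (by linarith)]); (try push_cast); (try ring1))
  rcases eq_or_lt_of_le h2 with h | h2
  · subst h
    ((try push_cast); (repeat first | rw [if_pos (by linarith)] | rw [if_neg (by linarith)] | erw [if_pos (by linarith)] | erw [if_neg (by linarith)]); (try push_cast); (try ring1))
  · ((try push_cast); (repeat first | rw [if_pos (by linarith)] | rw [if_neg (by linarith)] | erw [if_pos (by linarith)] | erw [if_neg (by linarith)]); (try push_cast); (try ring1))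
theorem kcl3 {p x : ℝ} (h1 : -541 / 1141 ≤ p) (h2 : p ≤ -781 / 1742) : kcg.v p x = (1332103628015189115452677 / 12745874527750000000000 + (x - 38847 / 40000) * (240440316073905833189 / 1274587452775000000)) + (2862237632353989587759387 / 6372937263875000000000 + (x - 38847 / 40000) * (536563584805074789659 / 637293726387500000)) * p + (4764750381 / 10000000 + (x - 38847 / 40000) * (938517 / 1000)) * p ^ 2 := by
  simp only [kcg, kcg_3, kcg_6, kcg_9, kcg_12, kcg_13, kcg_18, kcg_31, kcg_34, kcg_35, kcg_40, kcg_45, kcg_58, kcg_59, kcg_67, kcg_68, kcg_73, kcg_86, kcg_87, kcg_92, kcg_95, kcg_108, kcg_109, kcg_118, kcg_121, kcg_122, kcg_125, kcg_135, kcg_136, kcg_141, kcg_144, kcg_154, kcg_155, kcg_163, kcg_164, kcg_167, kcg_175, kcg_176, kcg_184, kcg_187, kcg_195, kcg_196, kcg_201, kcg_204, kcg_211, kcg_212, kcg_213, kcg_218, kcg_219, kcg_228, kcg_234, kcg_239, kcg_249, kcg_256, kcg_257, kcg_264, kcg_275, kcg_281, kcg_288, kcg_300]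
  rcases eq_or_lt_of_le h1 with h | h1
  · subst h
    ((try push_cast); (repeat first | rw [if_pos (by linarith)] | rw [if_neg (by linarith)] | erw [if_pos (by linarith)] | erw [if_neg (by linarith)]); (try push_cast); (try ring1))
  rcases eq_or_lt_of_le h2 with h | h2
  · subst h
    ((try push_cast); (repeat first | rw [if_pos (by linarith)] | rw [if_neg (by linarith)] | erw [if_pos (by linarith)] | erw [if_neg (by linarith)]); (try push_cast); (try ring1))
  · ((try push_cast); (repeat first | rw [if_pos (by linarith)] | rw [if_neg (by linarith)] | erw [if_pos (by linarith)] | erw [if_neg (by linarith)]); (try push_cast); (try ring1))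
theorem kcl4 {p x : ℝ} (h1 : -781 / 1742 ≤ p) (h2 : p ≤ -43 / 100) : kcg.v p x = (-1552815003078870891 / 34774675000000000 + (x - 38847 / 40000) * (6392818808713 / 3477467500000)) + (-18804282731988913 / 86936687500000 + (x - 38847 / 40000) * (149895699793 / 17387337500)) * p + (-332035647 / 1250000 + (x - 38847 / 40000) * (1146 / 125)) * p ^ 2 := by
  simp only [kcg, kcg_3, kcg_6, kcg_9, kcg_12, kcg_13, kcg_18, kcg_31, kcg_34, kcg_35, kcg_40, kcg_45, kcg_58, kcg_59, kcg_67, kcg_68, kcg_73, kcg_86, kcg_87, kcg_92, kcg_95, kcg_108, kcg_109, kcg_118, kcg_121, kcg_122, kcg_125, kcg_135, kcg_136, kcg_141, kcg_144, kcg_154, kcg_155, kcg_163, kcg_164, kcg_167, kcg_175, kcg_176, kcg_184, kcg_187, kcg_195, kcg_196, kcg_201, kcg_204, kcg_211, kcg_212, kcg_213, kcg_218, kcg_219, kcg_228, kcg_234, kcg_239, kcg_249, kcg_256, kcg_257, kcg_264, kcg_275, kcg_281, kcg_288, kcg_300]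
  rcases eq_or_lt_of_le h1 with h | h1
  · subst h
    ((try push_cast); (repeat first | rw [if_pos (by linarith)] | rw [if_neg (by linarith)] | erw [if_pos (by linarith)] | erw [if_neg (by linarith)]); (try push_cast); (try ring1))
  rcases eq_or_lt_of_le h2 with h | h2
  · subst h
    ((try push_cast); (repeat first | rw [if_pos (by linarith)] | rw [if_neg (by linarith)] | erw [if_pos (by linarith)] | erw [if_neg (by linarith)]); (try push_cast); (try ring1))
  · ((try push_cast); (repeat first | rw [if_pos (by linarith)] | rw [if_neg (by linarith)] | erw [if_pos (by linarith)] | erw [if_neg (by linarith)]); (try push_cast); (try ring1))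
theorem kcl5 {p x : ℝ} (h1 : -43 / 100 ≤ p) (h2 : p ≤ -41 / 100) : kcg.v p x = (-2231157521167 / 50000000000 + (x - 38847 / 40000) * (2491881 / 5000000)) + (-216156883971 / 1000000000 + (x - 38847 / 40000) * (238853 / 100000)) * p + (-2654637447 / 10000000 + (x - 38847 / 40000) * (1921 / 1000)) * p ^ 2 := by
  simp only [kcg, kcg_3, kcg_6, kcg_9, kcg_12, kcg_13, kcg_18, kcg_31, kcg_34, kcg_35, kcg_40, kcg_45, kcg_58, kcg_59, kcg_67, kcg_68, kcg_73, kcg_86, kcg_87, kcg_92, kcg_95, kcg_108, kcg_109, kcg_118, kcg_121, kcg_122, kcg_125, kcg_135, kcg_136, kcg_141, kcg_144, kcg_154, kcg_155, kcg_163, kcg_164, kcg_167, kcg_175, kcg_176, kcg_184, kcg_187, kcg_195, kcg_196, kcg_201, kcg_204, kcg_211, kcg_212, kcg_213, kcg_218, kcg_219, kcg_228, kcg_234, kcg_239, kcg_249, kcg_256, kcg_257, kcg_264, kcg_275, kcg_281, kcg_288, kcg_300]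
  rcases eq_or_lt_of_le h1 with h | h1
  · subst h
    ((try push_cast); (repeat first | rw [if_pos (by linarith)] | rw [if_neg (by linarith)] | erw [if_pos (by linarith)] | erw [if_neg (by linarith)]); (try push_cast); (try ring1))
  rcases eq_or_lt_of_le h2 with h | h2
  · subst h
    ((try push_cast); (repeat first | rw [if_pos (by linarith)] | rw [if_neg (by linarith)] | erw [if_pos (by linarith)] | erw [if_neg (by linarith)]); (try push_cast); (try ring1))
  · ((try push_cast); (repeat first | rw [if_pos (by linarith)] | rw [if_neg (by linarith)] | erw [if_pos (by linarith)] | erw [if_neg (by linarith)]); (try push_cast); (try ring1))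
theorem kcl6 {p x : ℝ} (h1 : -41 / 100 ≤ p) (h2 : p ≤ -3 / 10) : kcg.v p x = (-1679 / 1562500 + (x - 38847 / 40000) * (13 / 625)) + (151177877 / 100000000 + (x - 38847 / 40000) * (589 / 10000)) * p + (-3539 / 250000 + (x - 38847 / 40000) * (-23 / 25)) * p ^ 2 := by
  simp only [kcg, kcg_3, kcg_6, kcg_9, kcg_12, kcg_13, kcg_18, kcg_31, kcg_34, kcg_35, kcg_40, kcg_45, kcg_58, kcg_59, kcg_67, kcg_68, kcg_73, kcg_86, kcg_87, kcg_92, kcg_95, kcg_108, kcg_109, kcg_118, kcg_121, kcg_122, kcg_125, kcg_135, kcg_136, kcg_141, kcg_144, kcg_154, kcg_155, kcg_163, kcg_164, kcg_167, kcg_175, kcg_176, kcg_184, kcg_187, kcg_195, kcg_196, kcg_201, kcg_204, kcg_211, kcg_212, kcg_213, kcg_218, kcg_219, kcg_228, kcg_234, kcg_239, kcg_249, kcg_256, kcg_257, kcg_264, kcg_275, kcg_281, kcg_288, kcg_300]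
  rcases eq_or_lt_of_le h1 with h | h1
  · subst h
    ((try push_cast); (repeat first | rw [if_pos (by linarith)] | rw [if_neg (by linarith)] | erw [if_pos (by linarith)] | erw [if_neg (by linarith)]); (try push_cast); (try ring1))
  rcases eq_or_lt_of_le h2 with h | h2
  · subst h
    ((try push_cast); (repeat first | rw [if_pos (by linarith)] | rw [if_neg (by linarith)] | erw [if_pos (by linarith)] | erw [if_neg (by linarith)]); (try push_cast); (try ring1))
  · ((try push_cast); (repeat first | rw [if_pos (by linarith)] | rw [if_neg (by linarith)] | erw [if_pos (by linarith)] | erw [if_neg (by linarith)]); (try push_cast); (try ring1))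
theorem kcl7 {p x : ℝ} (h1 : -3 / 10 ≤ p) (h2 : p ≤ -1 / 10) : kcg.v p x = (-4987 / 200000000 + (x - 38847 / 40000) * (-259 / 20000)) + (151877627 / 100000000 + (x - 38847 / 40000) * (-1661 / 10000)) * p + (-4987 / 2000000 + (x - 38847 / 40000) * (-259 / 200)) * p ^ 2 := by
  simp only [kcg, kcg_3, kcg_6, kcg_9, kcg_12, kcg_13, kcg_18, kcg_31, kcg_34, kcg_35, kcg_40, kcg_45, kcg_58, kcg_59, kcg_67, kcg_68, kcg_73, kcg_86, kcg_87, kcg_92, kcg_95, kcg_108, kcg_109, kcg_118, kcg_121, kcg_122, kcg_125, kcg_135, kcg_136, kcg_141, kcg_144, kcg_154, kcg_155, kcg_163, kcg_164, kcg_167, kcg_175, kcg_176, kcg_184, kcg_187, kcg_195, kcg_196, kcg_201, kcg_204, kcg_211, kcg_212, kcg_213, kcg_218, kcg_219, kcg_228, kcg_234, kcg_239, kcg_249, kcg_256, kcg_257, kcg_264, kcg_275, kcg_281, kcg_288, kcg_300]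
  rcases eq_or_lt_of_le h1 with h | h1
  · subst h
    ((try push_cast); (repeat first | rw [if_pos (by linarith)] | rw [if_neg (by linarith)] | erw [if_pos (by linarith)] | erw [if_neg (by linarith)]); (try push_cast); (try ring1))
  rcases eq_or_lt_of_le h2 with h | h2
  · subst h
    ((try push_cast); (repeat first | rw [if_pos (by linarith)] | rw [if_neg (by linarith)] | erw [if_pos (by linarith)] | erw [if_neg (by linarith)]); (try push_cast); (try ring1))
  · ((try push_cast); (repeat first | rw [if_pos (by linarith)] | rw [if_neg (by linarith)] | erw [if_pos (by linarith)] | erw [if_neg (by linarith)]); (try push_cast); (try ring1))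
theorem kcl8 {p x : ℝ} (h1 : -1 / 10 ≤ p) (h2 : p ≤ 1 / 10) : kcg.v p x = (0) + (151927497 / 100000000 + (x - 38847 / 40000) * (929 / 10000)) * p := by
  simp only [kcg, kcg_3, kcg_6, kcg_9, kcg_12, kcg_13, kcg_18, kcg_31, kcg_34, kcg_35, kcg_40, kcg_45, kcg_58, kcg_59, kcg_67, kcg_68, kcg_73, kcg_86, kcg_87, kcg_92, kcg_95, kcg_108, kcg_109, kcg_118, kcg_121, kcg_122, kcg_125, kcg_135, kcg_136, kcg_141, kcg_144, kcg_154, kcg_155, kcg_163, kcg_164, kcg_167, kcg_175, kcg_176, kcg_184, kcg_187, kcg_195, kcg_196, kcg_201, kcg_204, kcg_211, kcg_212, kcg_213, kcg_218, kcg_219, kcg_228, kcg_234, kcg_239, kcg_249, kcg_256, kcg_257, kcg_264, kcg_275, kcg_281, kcg_288, kcg_300]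
  rcases eq_or_lt_of_le h1 with h | h1
  · subst h
    ((try push_cast); (repeat first | rw [if_pos (by linarith)] | rw [if_neg (by linarith)] | erw [if_pos (by linarith)] | erw [if_neg (by linarith)]); (try push_cast); (try ring1))
  rcases eq_or_lt_of_le h2 with h | h2
  · subst h
    ((try push_cast); (repeat first | rw [if_pos (by linarith)] | rw [if_neg (by linarith)] | erw [if_pos (by linarith)] | erw [if_neg (by linarith)]); (try push_cast); (try ring1))
  rcases lt_trichotomy p 0 with h | h | h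
  · ((try push_cast); (repeat first | rw [if_pos (by linarith)] | rw [if_neg (by linarith)] | erw [if_pos (by linarith)] | erw [if_neg (by linarith)]); (try push_cast); (try ring1))
  · subst h
    ((try push_cast); (repeat first | rw [if_pos (by linarith)] | rw [if_neg (by linarith)] | erw [if_pos (by linarith)] | erw [if_neg (by linarith)]); (try push_cast); (try ring1))
  · ((try push_cast); (repeat first | rw [if_pos (by linarith)] | rw [if_neg (by linarith)] | erw [if_pos (by linarith)] | erw [if_neg (by linarith)]); (try push_cast); (try ring1))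
theorem kcl9 {p x : ℝ} (h1 : 1 / 10 ≤ p) (h2 : p ≤ 3 / 10) : kcg.v p x = (4987 / 200000000 + (x - 38847 / 40000) * (259 / 20000)) + (151877627 / 100000000 + (x - 38847 / 40000) * (-1661 / 10000)) * p + (4987 / 2000000 + (x - 38847 / 40000) * (259 / 200)) * p ^ 2 := by
  simp only [kcg, kcg_3, kcg_6, kcg_9, kcg_12, kcg_13, kcg_18, kcg_31, kcg_34, kcg_35, kcg_40, kcg_45, kcg_58, kcg_59, kcg_67, kcg_68, kcg_73, kcg_86, kcg_87, kcg_92, kcg_95, kcg_108, kcg_109, kcg_118, kcg_121, kcg_122, kcg_125, kcg_135, kcg_136, kcg_141, kcg_144, kcg_154, kcg_155, kcg_163, kcg_164, kcg_167, kcg_175, kcg_176, kcg_184, kcg_187, kcg_195, kcg_196, kcg_201, kcg_204, kcg_211, kcg_212, kcg_213, kcg_218, kcg_219, kcg_228, kcg_234, kcg_239, kcg_249, kcg_256, kcg_257, kcg_264, kcg_275, kcg_281, kcg_288, kcg_300]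
  rcases eq_or_lt_of_le h1 with h | h1
  · subst h
    ((try push_cast); (repeat first | rw [if_pos (by linarith)] | rw [if_neg (by linarith)] | erw [if_pos (by linarith)] | erw [if_neg (by linarith)]); (try push_cast); (try ring1))
  rcases eq_or_lt_of_le h2 with h | h2
  · subst h
    ((try push_cast); (repeat first | rw [if_pos (by linarith)] | rw [if_neg (by linarith)] | erw [if_pos (by linarith)] | erw [if_neg (by linarith)]); (try push_cast); (try ring1))
  · ((try push_cast); (repeat first | rw [if_pos (by linarith)] | rw [if_neg (by linarith)] | erw [if_pos (by linarith)] | erw [if_neg (by linarith)]); (try push_cast); (try ring1))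
theorem kcl10 {p x : ℝ} (h1 : 3 / 10 ≤ p) (h2 : p ≤ 41 / 100) : kcg.v p x = (1679 / 1562500 + (x - 38847 / 40000) * (-13 / 625)) + (151177877 / 100000000 + (x - 38847 / 40000) * (589 / 10000)) * p + (3539 / 250000 + (x - 38847 / 40000) * (23 / 25)) * p ^ 2 := by
  simp only [kcg, kcg_3, kcg_6, kcg_9, kcg_12, kcg_13, kcg_18, kcg_31, kcg_34, kcg_35, kcg_40, kcg_45, kcg_58, kcg_59, kcg_67, kcg_68, kcg_73, kcg_86, kcg_87, kcg_92, kcg_95, kcg_108, kcg_109, kcg_118, kcg_121, kcg_122, kcg_125, kcg_135, kcg_136, kcg_141, kcg_144, kcg_154, kcg_155, kcg_163, kcg_164, kcg_167, kcg_175, kcg_176, kcg_184, kcg_187, kcg_195, kcg_196, kcg_201, kcg_204, kcg_211, kcg_212, kcg_213, kcg_218, kcg_219, kcg_228, kcg_234, kcg_239, kcg_249, kcg_256, kcg_257, kcg_264, kcg_275, kcg_281, kcg_288, kcg_300]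
  rcases eq_or_lt_of_le h1 with h | h1
  · subst h
    ((try push_cast); (repeat first | rw [if_pos (by linarith)] | rw [if_neg (by linarith)] | erw [if_pos (by linarith)] | erw [if_neg (by linarith)]); (try push_cast); (try ring1))
  rcases eq_or_lt_of_le h2 with h | h2
  · subst h
    ((try push_cast); (repeat first | rw [if_pos (by linarith)] | rw [if_neg (by linarith)] | erw [if_pos (by linarith)] | erw [if_neg (by linarith)]); (try push_cast); (try ring1))
  · ((try push_cast); (repeat first | rw [if_pos (by linarith)] | rw [if_neg (by linarith)] | erw [if_pos (by linarith)] | erw [if_neg (by linarith)]); (try push_cast); (try ring1))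
theorem kcl11 {p x : ℝ} (h1 : 41 / 100 ≤ p) (h2 : p ≤ 43 / 100) : kcg.v p x = (2231157521167 / 50000000000 + (x - 38847 / 40000) * (-2491881 / 5000000)) + (-216156883971 / 1000000000 + (x - 38847 / 40000) * (238853 / 100000)) * p + (2654637447 / 10000000 + (x - 38847 / 40000) * (-1921 / 1000)) * p ^ 2 := by
  simp only [kcg, kcg_3, kcg_6, kcg_9, kcg_12, kcg_13, kcg_18, kcg_31, kcg_34, kcg_35, kcg_40, kcg_45, kcg_58, kcg_59, kcg_67, kcg_68, kcg_73, kcg_86, kcg_87, kcg_92, kcg_95, kcg_108, kcg_109, kcg_118, kcg_121, kcg_122, kcg_125, kcg_135, kcg_136, kcg_141, kcg_144, kcg_154, kcg_155, kcg_163, kcg_164, kcg_167, kcg_175, kcg_176, kcg_184, kcg_187, kcg_195, kcg_196, kcg_201, kcg_204, kcg_211, kcg_212, kcg_213, kcg_218, kcg_219, kcg_228, kcg_234, kcg_239, kcg_249, kcg_256, kcg_257, kcg_264, kcg_275, kcg_281, kcg_288, kcg_300]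
  rcases eq_or_lt_of_le h1 with h | h1
  · subst h
    ((try push_cast); (repeat first | rw [if_pos (by linarith)] | rw [if_neg (by linarith)] | erw [if_pos (by linarith)] | erw [if_neg (by linarith)]); (try push_cast); (try ring1))
  rcases eq_or_lt_of_le h2 with h | h2
  · subst h
    ((try push_cast); (repeat first | rw [if_pos (by linarith)] | rw [if_neg (by linarith)] | erw [if_pos (by linarith)] | erw [if_neg (by linarith)]); (try push_cast); (try ring1))
  · ((try push_cast); (repeat first | rw [if_pos (by linarith)] | rw [if_neg (by linarith)] | erw [if_pos (by linarith)] | erw [if_neg (by linarith)]); (try push_cast); (try ring1))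
theorem kcl12 {p x : ℝ} (h1 : 43 / 100 ≤ p) (h2 : p ≤ 781 / 1742) : kcg.v p x = (1552815003078870891 / 34774675000000000 + (x - 38847 / 40000) * (-6392818808713 / 3477467500000)) + (-18804282731988913 / 86936687500000 + (x - 38847 / 40000) * (149895699793 / 17387337500)) * p + (332035647 / 1250000 + (x - 38847 / 40000) * (-1146 / 125)) * p ^ 2 := by
  simp only [kcg, kcg_3, kcg_6, kcg_9, kcg_12, kcg_13, kcg_18, kcg_31, kcg_34, kcg_35, kcg_40, kcg_45, kcg_58, kcg_59, kcg_67, kcg_68, kcg_73, kcg_86, kcg_87, kcg_92, kcg_95, kcg_108, kcg_109, kcg_118, kcg_121, kcg_122, kcg_125, kcg_135, kcg_136, kcg_141, kcg_144, kcg_154, kcg_155, kcg_163, kcg_164, kcg_167, kcg_175, kcg_176, kcg_184, kcg_187, kcg_195, kcg_196, kcg_201, kcg_204, kcg_211, kcg_212, kcg_213, kcg_218, kcg_219, kcg_228, kcg_234, kcg_239, kcg_249, kcg_256, kcg_257, kcg_264, kcg_275, kcg_281, kcg_288, kcg_300]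
  rcases eq_or_lt_of_le h1 with h | h1
  · subst h
    ((try push_cast); (repeat first | rw [if_pos (by linarith)] | rw [if_neg (by linarith)] | erw [if_pos (by linarith)] | erw [if_neg (by linarith)]); (try push_cast); (try ring1))
  rcases eq_or_lt_of_le h2 with h | h2
  · subst h
    ((try push_cast); (repeat first | rw [if_pos (by linarith)] | rw [if_neg (by linarith)] | erw [if_pos (by linarith)] | erw [if_neg (by linarith)]); (try push_cast); (try ring1))
  · ((try push_cast); (repeat first | rw [if_pos (by linarith)] | rw [if_neg (by linarith)] | erw [if_pos (by linarith)] | erw [if_neg (by linarith)]); (try push_cast); (try ring1))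
theorem kcl13 {p x : ℝ} (h1 : 781 / 1742 ≤ p) (h2 : p ≤ 541 / 1141) : kcg.v p x = (-1332103628015189115452677 / 12745874527750000000000 + (x - 38847 / 40000) * (-240440316073905833189 / 1274587452775000000)) + (2862237632353989587759387 / 6372937263875000000000 + (x - 38847 / 40000) * (536563584805074789659 / 637293726387500000)) * p + (-4764750381 / 10000000 + (x - 38847 / 40000) * (-938517 / 1000)) * p ^ 2 := by
  simp only [kcg, kcg_3, kcg_6, kcg_9, kcg_12, kcg_13, kcg_18, kcg_31, kcg_34, kcg_35, kcg_40, kcg_45, kcg_58, kcg_59, kcg_67, kcg_68, kcg_73, kcg_86, kcg_87, kcg_92, kcg_95, kcg_108, kcg_109, kcg_118, kcg_121, kcg_122, kcg_125, kcg_135, kcg_136, kcg_141, kcg_144, kcg_154, kcg_155, kcg_163, kcg_164, kcg_167, kcg_175, kcg_176, kcg_184, kcg_187, kcg_195, kcg_196, kcg_201, kcg_204, kcg_211, kcg_212, kcg_213, kcg_218, kcg_219, kcg_228, kcg_234, kcg_239, kcg_249, kcg_256, kcg_257, kcg_264, kcg_275, kcg_281, kcg_288, kcg_300]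
  rcases eq_or_lt_of_le h1 with h | h1
  · subst h
    ((try push_cast); (repeat first | rw [if_pos (by linarith)] | rw [if_neg (by linarith)] | erw [if_pos (by linarith)] | erw [if_neg (by linarith)]); (try push_cast); (try ring1))
  rcases eq_or_lt_of_le h2 with h | h2
  · subst h
    ((try push_cast); (repeat first | rw [if_pos (by linarith)] | rw [if_neg (by linarith)] | erw [if_pos (by linarith)] | erw [if_neg (by linarith)]); (try push_cast); (try ring1))
  · ((try push_cast); (repeat first | rw [if_pos (by linarith)] | rw [if_neg (by linarith)] | erw [if_pos (by linarith)] | erw [if_neg (by linarith)]); (try push_cast); (try ring1))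
theorem kcl14 {p x : ℝ} (h1 : 541 / 1141 ≤ p) (h2 : p ≤ 481 / 1000) : kcg.v p x = (-305534810589742356253 / 2230940250000000000 + (x - 38847 / 40000) * (-40983083054432821 / 223094025000000)) + (2614496845616704313 / 4461880500000000 + (x - 38847 / 40000) * (366369324340991 / 446188050000)) * p + (-124155183 / 200000 + (x - 38847 / 40000) * (-18331 / 20)) * p ^ 2 := by
  simp only [kcg, kcg_3, kcg_6, kcg_9, kcg_12, kcg_13, kcg_18, kcg_31, kcg_34, kcg_35, kcg_40, kcg_45, kcg_58, kcg_59, kcg_67, kcg_68, kcg_73, kcg_86, kcg_87, kcg_92, kcg_95, kcg_108, kcg_109, kcg_118, kcg_121, kcg_122, kcg_125, kcg_135, kcg_136, kcg_141, kcg_144, kcg_154, kcg_155, kcg_163, kcg_164, kcg_167, kcg_175, kcg_176, kcg_184, kcg_187, kcg_195, kcg_196, kcg_201, kcg_204, kcg_211, kcg_212, kcg_213, kcg_218, kcg_219, kcg_228, kcg_234, kcg_239, kcg_249, kcg_256, kcg_257, kcg_264, kcg_275, kcg_281, kcg_288, kcg_300]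
  rcases eq_or_lt_of_le h1 with h | h1
  · subst h
    ((try push_cast); (repeat first | rw [if_pos (by linarith)] | rw [if_neg (by linarith)] | erw [if_pos (by linarith)] | erw [if_neg (by linarith)]); (try push_cast); (try ring1))
  rcases eq_or_lt_of_le h2 with h | h2
  · subst h
    ((try push_cast); (repeat first | rw [if_pos (by linarith)] | rw [if_neg (by linarith)] | erw [if_pos (by linarith)] | erw [if_neg (by linarith)]); (try push_cast); (try ring1))
  · ((try push_cast); (repeat first | rw [if_pos (by linarith)] | rw [if_neg (by linarith)] | erw [if_pos (by linarith)] | erw [if_neg (by linarith)]); (try push_cast); (try ring1))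
theorem kcl15 {p x : ℝ} (h1 : 481 / 1000 ≤ p) (h2 : p ≤ 61 / 125) : kcg.v p x = (113558973147947 / 17500000000000 + (x - 38847 / 40000) * (43407359579 / 1750000000)) + (-732996333619 / 70000000000 + (x - 38847 / 40000) * (-321054483 / 7000000)) * p + (-7817697 / 10000000 + (x - 38847 / 40000) * (-15329 / 1000)) * p ^ 2 := by
  simp only [kcg, kcg_3, kcg_6, kcg_9, kcg_12, kcg_13, kcg_18, kcg_31, kcg_34, kcg_35, kcg_40, kcg_45, kcg_58, kcg_59, kcg_67, kcg_68, kcg_73, kcg_86, kcg_87, kcg_92, kcg_95, kcg_108, kcg_109, kcg_118, kcg_121, kcg_122, kcg_125, kcg_135, kcg_136, kcg_141, kcg_144, kcg_154, kcg_155, kcg_163, kcg_164, kcg_167, kcg_175, kcg_176, kcg_184, kcg_187, kcg_195, kcg_196, kcg_201, kcg_204, kcg_211, kcg_212, kcg_213, kcg_218, kcg_219, kcg_228, kcg_234, kcg_239, kcg_249, kcg_256, kcg_257, kcg_264, kcg_275, kcg_281, kcg_288, kcg_300]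
  rcases eq_or_lt_of_le h1 with h | h1
  · subst h
    ((try push_cast); (repeat first | rw [if_pos (by linarith)] | rw [if_neg (by linarith)] | erw [if_pos (by linarith)] | erw [if_neg (by linarith)]); (try push_cast); (try ring1))
  rcases eq_or_lt_of_le h2 with h | h2
  · subst h
    ((try push_cast); (repeat first | rw [if_pos (by linarith)] | rw [if_neg (by linarith)] | erw [if_pos (by linarith)] | erw [if_neg (by linarith)]); (try push_cast); (try ring1))
  · ((try push_cast); (repeat first | rw [if_pos (by linarith)] | rw [if_neg (by linarith)] | erw [if_pos (by linarith)] | erw [if_neg (by linarith)]); (try push_cast); (try ring1))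
theorem kcl16 {p x : ℝ} (h1 : 61 / 125 ≤ p) (h2 : p ≤ 1 / 2) : kcg.v p x = (9994179252157 / 1500000000000 + (x - 38847 / 40000) * (4246345549 / 150000000)) + (-41937259367 / 3750000000 + (x - 38847 / 40000) * (-22585769 / 375000)) * p + (-130929 / 2500000 + (x - 38847 / 40000) * (-153 / 250)) * p ^ 2 := by
  simp only [kcg, kcg_3, kcg_6, kcg_9, kcg_12, kcg_13, kcg_18, kcg_31, kcg_34, kcg_35, kcg_40, kcg_45, kcg_58, kcg_59, kcg_67, kcg_68, kcg_73, kcg_86, kcg_87, kcg_92, kcg_95, kcg_108, kcg_109, kcg_118, kcg_121, kcg_122, kcg_125, kcg_135, kcg_136, kcg_141, kcg_144, kcg_154, kcg_155, kcg_163, kcg_164, kcg_167, kcg_175, kcg_176, kcg_184, kcg_187, kcg_195, kcg_196, kcg_201, kcg_204, kcg_211, kcg_212, kcg_213, kcg_218, kcg_219, kcg_228, kcg_234, kcg_239, kcg_249, kcg_256, kcg_257, kcg_264, kcg_275, kcg_281, kcg_288, kcg_300]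
  rcases eq_or_lt_of_le h1 with h | h1
  · subst h
    ((try push_cast); (repeat first | rw [if_pos (by linarith)] | rw [if_neg (by linarith)] | erw [if_pos (by linarith)] | erw [if_neg (by linarith)]); (try push_cast); (try ring1))
  rcases eq_or_lt_of_le h2 with h | h2
  · subst h
    ((try push_cast); (repeat first | rw [if_pos (by linarith)] | rw [if_neg (by linarith)] | erw [if_pos (by linarith)] | erw [if_neg (by linarith)]); (try push_cast); (try ring1))
  · ((try push_cast); (repeat first | rw [if_pos (by linarith)] | rw [if_neg (by linarith)] | erw [if_pos (by linarith)] | erw [if_neg (by linarith)]); (try push_cast); (try ring1))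
theorem kvh0 {p x : ℝ} (h2 : p ≤ -61 / 125) : dt33.kv p x = (-9994179252157 / 1500000000000 + (x - 38847 / 40000) * (-4246345549 / 150000000)) + (-41937259367 / 3750000000 + (x - 38847 / 40000) * (-22585769 / 375000)) * p + (130929 / 2500000 + (x - 38847 / 40000) * (153 / 250)) * p ^ 2 := by
  refine (DT.kv_le (by simp only [Cn.rt_v, Cn.ng_v]; push_cast; linarith)).trans ?_
  refine (DT.kv_le (by simp only [Cn.rt_v, Cn.ng_v]; push_cast; linarith)).trans ?_
  refine (DT.kv_le (by simp only [Cn.rt_v, Cn.ng_v]; push_cast; linarith)).trans ?_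
  refine (DT.kv_le (by simp only [Cn.rt_v, Cn.ng_v]; push_cast; linarith)).trans ?_
  simp only [dt1, DT.kv, sw1, sl1, sv1]
  ((try push_cast); ring1)
theorem kvh1 {p x : ℝ} (h1 : -61 / 125 < p) (h2 : p ≤ -481 / 1000) : dt33.kv p x = (-113558973147947 / 17500000000000 + (x - 38847 / 40000) * (-43407359579 / 1750000000)) + (-732996333619 / 70000000000 + (x - 38847 / 40000) * (-321054483 / 7000000)) * p + (7817697 / 10000000 + (x - 38847 / 40000) * (15329 / 1000)) * p ^ 2 := by
  refine (DT.kv_le (by simp only [Cn.rt_v, Cn.ng_v]; push_cast; linarith)).trans ?_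
  refine (DT.kv_le (by simp only [Cn.rt_v, Cn.ng_v]; push_cast; linarith)).trans ?_
  refine (DT.kv_le (by simp only [Cn.rt_v, Cn.ng_v]; push_cast; linarith)).trans ?_
  refine (DT.kv_gt (by simp only [Cn.rt_v, Cn.ng_v]; push_cast; linarith)).trans ?_
  simp only [dt2, DT.kv, sw2, sl2, sv2]
  ((try push_cast); ring1)
theorem kvh2 {p x : ℝ} (h1 : -481 / 1000 < p) (h2 : p ≤ -541 / 1141) : dt33.kv p x = (305534810589742356253 / 2230940250000000000 + (x - 38847 / 40000) * (40983083054432821 / 223094025000000)) + (2614496845616704313 / 4461880500000000 + (x - 38847 / 40000) * (366369324340991 / 446188050000)) * p + (124155183 / 200000 + (x - 38847 / 40000) * (18331 / 20)) * p ^ 2 := by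
  refine (DT.kv_le (by simp only [Cn.rt_v, Cn.ng_v]; push_cast; linarith)).trans ?_
  refine (DT.kv_le (by simp only [Cn.rt_v, Cn.ng_v]; push_cast; linarith)).trans ?_
  refine (DT.kv_gt (by simp only [Cn.rt_v, Cn.ng_v]; push_cast; linarith)).trans ?_
  refine (DT.kv_le (by simp only [Cn.rt_v, Cn.ng_v]; push_cast; linarith)).trans ?_
  simp only [dt3, DT.kv, sw3, sl3, sv3]
  ((try push_cast); ring1)
theorem kvh3 {p x : ℝ} (h1 : -541 / 1141 < p) (h2 : p ≤ -781 / 1742) : dt33.kv p x = (1332103628015189115452677 / 12745874527750000000000 + (x - 38847 / 40000) * (240440316073905833189 / 1274587452775000000)) + (2862237632353989587759387 / 6372937263875000000000 + (x - 38847 / 40000) * (536563584805074789659 / 637293726387500000)) * p + (4764750381 / 10000000 + (x - 38847 / 40000) * (938517 / 1000)) * p ^ 2 := by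
  refine (DT.kv_le (by simp only [Cn.rt_v, Cn.ng_v]; push_cast; linarith)).trans ?_
  refine (DT.kv_le (by simp only [Cn.rt_v, Cn.ng_v]; push_cast; linarith)).trans ?_
  refine (DT.kv_gt (by simp only [Cn.rt_v, Cn.ng_v]; push_cast; linarith)).trans ?_
  refine (DT.kv_gt (by simp only [Cn.rt_v, Cn.ng_v]; push_cast; linarith)).trans ?_
  simp only [dt4, DT.kv, sw4, sl4, sv4]
  ((try push_cast); ring1)
theorem kvh4 {p x : ℝ} (h1 : -781 / 1742 < p) (h2 : p ≤ -43 / 100) : dt33.kv p x = (-1552815003078870891 / 34774675000000000 + (x - 38847 / 40000) * (6392818808713 / 3477467500000)) + (-18804282731988913 / 86936687500000 + (x - 38847 / 40000) * (149895699793 / 17387337500)) * p + (-332035647 / 1250000 + (x - 38847 / 40000) * (1146 / 125)) * p ^ 2 := by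
  refine (DT.kv_le (by simp only [Cn.rt_v, Cn.ng_v]; push_cast; linarith)).trans ?_
  refine (DT.kv_gt (by simp only [Cn.rt_v, Cn.ng_v]; push_cast; linarith)).trans ?_
  refine (DT.kv_le (by simp only [Cn.rt_v, Cn.ng_v]; push_cast; linarith)).trans ?_
  refine (DT.kv_le (by simp only [Cn.rt_v, Cn.ng_v]; push_cast; linarith)).trans ?_
  simp only [dt5, DT.kv, sw5, sl5, sv5]
  ((try push_cast); ring1)
theorem kvh5 {p x : ℝ} (h1 : -43 / 100 < p) (h2 : p ≤ -41 / 100) : dt33.kv p x = (-2231157521167 / 50000000000 + (x - 38847 / 40000) * (2491881 / 5000000)) + (-216156883971 / 1000000000 + (x - 38847 / 40000) * (238853 / 100000)) * p + (-2654637447 / 10000000 + (x - 38847 / 40000) * (1921 / 1000)) * p ^ 2 := by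
  refine (DT.kv_le (by simp only [Cn.rt_v, Cn.ng_v]; push_cast; linarith)).trans ?_
  refine (DT.kv_gt (by simp only [Cn.rt_v, Cn.ng_v]; push_cast; linarith)).trans ?_
  refine (DT.kv_le (by simp only [Cn.rt_v, Cn.ng_v]; push_cast; linarith)).trans ?_
  refine (DT.kv_gt (by simp only [Cn.rt_v, Cn.ng_v]; push_cast; linarith)).trans ?_
  simp only [dt6, DT.kv, sw6, sl6, sv6]
  ((try push_cast); ring1)
theorem kvh6 {p x : ℝ} (h1 : -41 / 100 < p) (h2 : p ≤ -3 / 10) : dt33.kv p x = (-1679 / 1562500 + (x - 38847 / 40000) * (13 / 625)) + (151177877 / 100000000 + (x - 38847 / 40000) * (589 / 10000)) * p + (-3539 / 250000 + (x - 38847 / 40000) * (-23 / 25)) * p ^ 2 := by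
  refine (DT.kv_le (by simp only [Cn.rt_v, Cn.ng_v]; push_cast; linarith)).trans ?_
  refine (DT.kv_gt (by simp only [Cn.rt_v, Cn.ng_v]; push_cast; linarith)).trans ?_
  refine (DT.kv_gt (by simp only [Cn.rt_v, Cn.ng_v]; push_cast; linarith)).trans ?_
  refine (DT.kv_le (by simp only [Cn.rt_v, Cn.ng_v]; push_cast; linarith)).trans ?_
  simp only [dt7, DT.kv, sw7, sl7, sv7]
  ((try push_cast); ring1)
theorem kvh7 {p x : ℝ} (h1 : -3 / 10 < p) (h2 : p ≤ -1 / 10) : dt33.kv p x = (-4987 / 200000000 + (x - 38847 / 40000) * (-259 / 20000)) + (151877627 / 100000000 + (x - 38847 / 40000) * (-1661 / 10000)) * p + (-4987 / 2000000 + (x - 38847 / 40000) * (-259 / 200)) * p ^ 2 := by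
  refine (DT.kv_le (by simp only [Cn.rt_v, Cn.ng_v]; push_cast; linarith)).trans ?_
  refine (DT.kv_gt (by simp only [Cn.rt_v, Cn.ng_v]; push_cast; linarith)).trans ?_
  refine (DT.kv_gt (by simp only [Cn.rt_v, Cn.ng_v]; push_cast; linarith)).trans ?_
  refine (DT.kv_gt (by simp only [Cn.rt_v, Cn.ng_v]; push_cast; linarith)).trans ?_
  simp only [dt8, DT.kv, sw8, sl8, sv8]
  ((try push_cast); ring1)
theorem kvh8 {p x : ℝ} (h1 : -1 / 10 < p) (h2 : p ≤ 1 / 10) : dt33.kv p x = (0) + (151927497 / 100000000 + (x - 38847 / 40000) * (929 / 10000)) * p := by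
  refine (DT.kv_gt (by simp only [Cn.rt_v, Cn.ng_v]; push_cast; linarith)).trans ?_
  refine (DT.kv_le (by simp only [Cn.rt_v, Cn.ng_v]; push_cast; linarith)).trans ?_
  refine (DT.kv_le (by simp only [Cn.rt_v, Cn.ng_v]; push_cast; linarith)).trans ?_
  refine (DT.kv_le (by simp only [Cn.rt_v, Cn.ng_v]; push_cast; linarith)).trans ?_
  simp only [dt9, DT.kv, sl9, sv9]
  ((try push_cast); ring1)
theorem kvh9 {p x : ℝ} (h1 : 1 / 10 < p) (h2 : p ≤ 3 / 10) : dt33.kv p x = (4987 / 200000000 + (x - 38847 / 40000) * (259 / 20000)) + (151877627 / 100000000 + (x - 38847 / 40000) * (-1661 / 10000)) * p + (4987 / 2000000 + (x - 38847 / 40000) * (259 / 200)) * p ^ 2 := by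
  refine (DT.kv_gt (by simp only [Cn.rt_v, Cn.ng_v]; push_cast; linarith)).trans ?_
  refine (DT.kv_le (by simp only [Cn.rt_v, Cn.ng_v]; push_cast; linarith)).trans ?_
  refine (DT.kv_le (by simp only [Cn.rt_v, Cn.ng_v]; push_cast; linarith)).trans ?_
  refine (DT.kv_gt (by simp only [Cn.rt_v, Cn.ng_v]; push_cast; linarith)).trans ?_
  simp only [dt10, DT.kv, sw10, sl10, sv10]
  ((try push_cast); ring1)
theorem kvh10 {p x : ℝ} (h1 : 3 / 10 < p) (h2 : p ≤ 41 / 100) : dt33.kv p x = (1679 / 1562500 + (x - 38847 / 40000) * (-13 / 625)) + (151177877 / 100000000 + (x - 38847 / 40000) * (589 / 10000)) * p + (3539 / 250000 + (x - 38847 / 40000) * (23 / 25)) * p ^ 2 := by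
  refine (DT.kv_gt (by simp only [Cn.rt_v, Cn.ng_v]; push_cast; linarith)).trans ?_
  refine (DT.kv_le (by simp only [Cn.rt_v, Cn.ng_v]; push_cast; linarith)).trans ?_
  refine (DT.kv_gt (by simp only [Cn.rt_v, Cn.ng_v]; push_cast; linarith)).trans ?_
  refine (DT.kv_le (by simp only [Cn.rt_v, Cn.ng_v]; push_cast; linarith)).trans ?_
  simp only [dt11, DT.kv, sw11, sl11, sv11]
  ((try push_cast); ring1)
theorem kvh11 {p x : ℝ} (h1 : 41 / 100 < p) (h2 : p ≤ 43 / 100) : dt33.kv p x = (2231157521167 / 50000000000 + (x - 38847 / 40000) * (-2491881 / 5000000)) + (-216156883971 / 1000000000 + (x - 38847 / 40000) * (238853 / 100000)) * p + (2654637447 / 10000000 + (x - 38847 / 40000) * (-1921 / 1000)) * p ^ 2 := by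
  refine (DT.kv_gt (by simp only [Cn.rt_v, Cn.ng_v]; push_cast; linarith)).trans ?_
  refine (DT.kv_le (by simp only [Cn.rt_v, Cn.ng_v]; push_cast; linarith)).trans ?_
  refine (DT.kv_gt (by simp only [Cn.rt_v, Cn.ng_v]; push_cast; linarith)).trans ?_
  refine (DT.kv_gt (by simp only [Cn.rt_v, Cn.ng_v]; push_cast; linarith)).trans ?_
  simp only [dt12, DT.kv, sw12, sl12, sv12]
  ((try push_cast); ring1)
theorem kvh12 {p x : ℝ} (h1 : 43 / 100 < p) (h2 : p ≤ 781 / 1742) : dt33.kv p x = (1552815003078870891 / 34774675000000000 + (x - 38847 / 40000) * (-6392818808713 / 3477467500000)) + (-18804282731988913 / 86936687500000 + (x - 38847 / 40000) * (149895699793 / 17387337500)) * p + (332035647 / 1250000 + (x - 38847 / 40000) * (-1146 / 125)) * p ^ 2 := by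
  refine (DT.kv_gt (by simp only [Cn.rt_v, Cn.ng_v]; push_cast; linarith)).trans ?_
  refine (DT.kv_gt (by simp only [Cn.rt_v, Cn.ng_v]; push_cast; linarith)).trans ?_
  refine (DT.kv_le (by simp only [Cn.rt_v, Cn.ng_v]; push_cast; linarith)).trans ?_
  refine (DT.kv_le (by simp only [Cn.rt_v, Cn.ng_v]; push_cast; linarith)).trans ?_
  simp only [dt13, DT.kv, sw13, sl13, sv13]
  ((try push_cast); ring1)
theorem kvh13 {p x : ℝ} (h1 : 781 / 1742 < p) (h2 : p ≤ 541 / 1141) : dt33.kv p x = (-1332103628015189115452677 / 12745874527750000000000 + (x - 38847 / 40000) * (-240440316073905833189 / 1274587452775000000)) + (2862237632353989587759387 / 6372937263875000000000 + (x - 38847 / 40000) * (536563584805074789659 / 637293726387500000)) * p + (-4764750381 / 10000000 + (x - 38847 / 40000) * (-938517 / 1000)) * p ^ 2 := by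
  refine (DT.kv_gt (by simp only [Cn.rt_v, Cn.ng_v]; push_cast; linarith)).trans ?_
  refine (DT.kv_gt (by simp only [Cn.rt_v, Cn.ng_v]; push_cast; linarith)).trans ?_
  refine (DT.kv_le (by simp only [Cn.rt_v, Cn.ng_v]; push_cast; linarith)).trans ?_
  refine (DT.kv_gt (by simp only [Cn.rt_v, Cn.ng_v]; push_cast; linarith)).trans ?_
  simp only [dt14, DT.kv, sw14, sl14, sv14]
  ((try push_cast); ring1)
theorem kvh14 {p x : ℝ} (h1 : 541 / 1141 < p) (h2 : p ≤ 481 / 1000) : dt33.kv p x = (-305534810589742356253 / 2230940250000000000 + (x - 38847 / 40000) * (-40983083054432821 / 223094025000000)) + (2614496845616704313 / 4461880500000000 + (x - 38847 / 40000) * (366369324340991 / 446188050000)) * p + (-124155183 / 200000 + (x - 38847 / 40000) * (-18331 / 20)) * p ^ 2 := by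
  refine (DT.kv_gt (by simp only [Cn.rt_v, Cn.ng_v]; push_cast; linarith)).trans ?_
  refine (DT.kv_gt (by simp only [Cn.rt_v, Cn.ng_v]; push_cast; linarith)).trans ?_
  refine (DT.kv_gt (by simp only [Cn.rt_v, Cn.ng_v]; push_cast; linarith)).trans ?_
  refine (DT.kv_le (by simp only [Cn.rt_v, Cn.ng_v]; push_cast; linarith)).trans ?_
  simp only [dt15, DT.kv, sw15, sl15, sv15]
  ((try push_cast); ring1)
theorem kvh15 {p x : ℝ} (h1 : 481 / 1000 < p) (h2 : p ≤ 61 / 125) : dt33.kv p x = (113558973147947 / 17500000000000 + (x - 38847 / 40000) * (43407359579 / 1750000000)) + (-732996333619 / 70000000000 + (x - 38847 / 40000) * (-321054483 / 7000000)) * p + (-7817697 / 10000000 + (x - 38847 / 40000) * (-15329 / 1000)) * p ^ 2 := by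
  refine (DT.kv_gt (by simp only [Cn.rt_v, Cn.ng_v]; push_cast; linarith)).trans ?_
  refine (DT.kv_gt (by simp only [Cn.rt_v, Cn.ng_v]; push_cast; linarith)).trans ?_
  refine (DT.kv_gt (by simp only [Cn.rt_v, Cn.ng_v]; push_cast; linarith)).trans ?_
  refine (DT.kv_gt (by simp only [Cn.rt_v, Cn.ng_v]; push_cast; linarith)).trans ?_
  refine (DT.kv_le (by simp only [Cn.rt_v, Cn.ng_v]; push_cast; linarith)).trans ?_
  simp only [dt16, DT.kv, sw16, sl16, sv16]
  ((try push_cast); ring1)
theorem kvh16 {p x : ℝ} (h1 : 61 / 125 < p) (h2 : p ≤ 1 / 2) : dt33.kv p x = (9994179252157 / 1500000000000 + (x - 38847 / 40000) * (4246345549 / 150000000)) + (-41937259367 / 3750000000 + (x - 38847 / 40000) * (-22585769 / 375000)) * p + (-130929 / 2500000 + (x - 38847 / 40000) * (-153 / 250)) * p ^ 2 := by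
  refine (DT.kv_gt (by simp only [Cn.rt_v, Cn.ng_v]; push_cast; linarith)).trans ?_
  refine (DT.kv_gt (by simp only [Cn.rt_v, Cn.ng_v]; push_cast; linarith)).trans ?_
  refine (DT.kv_gt (by simp only [Cn.rt_v, Cn.ng_v]; push_cast; linarith)).trans ?_
  refine (DT.kv_gt (by simp only [Cn.rt_v, Cn.ng_v]; push_cast; linarith)).trans ?_
  refine (DT.kv_gt (by simp only [Cn.rt_v, Cn.ng_v]; push_cast; linarith)).trans ?_
  simp only [dt17, DT.kv, sw17, sl17, sv17]
  ((try push_cast); ring1)
theorem kvl0 {p x : ℝ} (h1 : -1 / 2 ≤ p) (h2 : p ≤ -61 / 125) : dt33.kv p x = (-9994179252157 / 1500000000000 + (x - 38847 / 40000) * (-4246345549 / 150000000)) + (-41937259367 / 3750000000 + (x - 38847 / 40000) * (-22585769 / 375000)) * p + (130929 / 2500000 + (x - 38847 / 40000) * (153 / 250)) * p ^ 2 := by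
  exact kvh0 h2
theorem kvl1 {p x : ℝ} (h1 : -61 / 125 ≤ p) (h2 : p ≤ -481 / 1000) : dt33.kv p x = (-113558973147947 / 17500000000000 + (x - 38847 / 40000) * (-43407359579 / 1750000000)) + (-732996333619 / 70000000000 + (x - 38847 / 40000) * (-321054483 / 7000000)) * p + (7817697 / 10000000 + (x - 38847 / 40000) * (15329 / 1000)) * p ^ 2 := by
  rcases eq_or_lt_of_le h1 with h | h1
  · subst h
    rw [kvh0 (by norm_num)]
    ring1
  · exact kvh1 h1 h2
theorem kvl2 {p x : ℝ} (h1 : -481 / 1000 ≤ p) (h2 : p ≤ -541 / 1141) : dt33.kv p x = (305534810589742356253 / 2230940250000000000 + (x - 38847 / 40000) * (40983083054432821 / 223094025000000)) + (2614496845616704313 / 4461880500000000 + (x - 38847 / 40000) * (366369324340991 / 446188050000)) * p + (124155183 / 200000 + (x - 38847 / 40000) * (18331 / 20)) * p ^ 2 := by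
  rcases eq_or_lt_of_le h1 with h | h1
  · subst h
    rw [kvh1 (by norm_num) (by norm_num)]
    ring1
  · exact kvh2 h1 h2
theorem kvl3 {p x : ℝ} (h1 : -541 / 1141 ≤ p) (h2 : p ≤ -781 / 1742) : dt33.kv p x = (1332103628015189115452677 / 12745874527750000000000 + (x - 38847 / 40000) * (240440316073905833189 / 1274587452775000000)) + (2862237632353989587759387 / 6372937263875000000000 + (x - 38847 / 40000) * (536563584805074789659 / 637293726387500000)) * p + (4764750381 / 10000000 + (x - 38847 / 40000) * (938517 / 1000)) * p ^ 2 := by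
  rcases eq_or_lt_of_le h1 with h | h1
  · subst h
    rw [kvh2 (by norm_num) (by norm_num)]
    ring1
  · exact kvh3 h1 h2
theorem kvl4 {p x : ℝ} (h1 : -781 / 1742 ≤ p) (h2 : p ≤ -43 / 100) : dt33.kv p x = (-1552815003078870891 / 34774675000000000 + (x - 38847 / 40000) * (6392818808713 / 3477467500000)) + (-18804282731988913 / 86936687500000 + (x - 38847 / 40000) * (149895699793 / 17387337500)) * p + (-332035647 / 1250000 + (x - 38847 / 40000) * (1146 / 125)) * p ^ 2 := by
  rcases eq_or_lt_of_le h1 with h | h1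
  · subst h
    rw [kvh3 (by norm_num) (by norm_num)]
    ring1
  · exact kvh4 h1 h2
theorem kvl5 {p x : ℝ} (h1 : -43 / 100 ≤ p) (h2 : p ≤ -41 / 100) : dt33.kv p x = (-2231157521167 / 50000000000 + (x - 38847 / 40000) * (2491881 / 5000000)) + (-216156883971 / 1000000000 + (x - 38847 / 40000) * (238853 / 100000)) * p + (-2654637447 / 10000000 + (x - 38847 / 40000) * (1921 / 1000)) * p ^ 2 := by
  rcases eq_or_lt_of_le h1 with h | h1
  · subst h
    rw [kvh4 (by norm_num) (by norm_num)]
    ring1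
  · exact kvh5 h1 h2
theorem kvl6 {p x : ℝ} (h1 : -41 / 100 ≤ p) (h2 : p ≤ -3 / 10) : dt33.kv p x = (-1679 / 1562500 + (x - 38847 / 40000) * (13 / 625)) + (151177877 / 100000000 + (x - 38847 / 40000) * (589 / 10000)) * p + (-3539 / 250000 + (x - 38847 / 40000) * (-23 / 25)) * p ^ 2 := by
  rcases eq_or_lt_of_le h1 with h | h1
  · subst h
    rw [kvh5 (by norm_num) (by norm_num)]
    ring1
  · exact kvh6 h1 h2
theorem kvl7 {p x : ℝ} (h1 : -3 / 10 ≤ p) (h2 : p ≤ -1 / 10) : dt33.kv p x = (-4987 / 200000000 + (x - 38847 / 40000) * (-259 / 20000)) + (151877627 / 100000000 + (x - 38847 / 40000) * (-1661 / 10000)) * p + (-4987 / 2000000 + (x - 38847 / 40000) * (-259 / 200)) * p ^ 2 := by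
  rcases eq_or_lt_of_le h1 with h | h1
  · subst h
    rw [kvh6 (by norm_num) (by norm_num)]
    ring1
  · exact kvh7 h1 h2
theorem kvl8 {p x : ℝ} (h1 : -1 / 10 ≤ p) (h2 : p ≤ 1 / 10) : dt33.kv p x = (0) + (151927497 / 100000000 + (x - 38847 / 40000) * (929 / 10000)) * p := by
  rcases eq_or_lt_of_le h1 with h | h1
  · subst h
    rw [kvh7 (by norm_num) (by norm_num)]
    ring1
  · exact kvh8 h1 h2
theorem kvl9 {p x : ℝ} (h1 : 1 / 10 ≤ p) (h2 : p ≤ 3 / 10) : dt33.kv p x = (4987 / 200000000 + (x - 38847 / 40000) * (259 / 20000)) + (151877627 / 100000000 + (x - 38847 / 40000) * (-1661 / 10000)) * p + (4987 / 2000000 + (x - 38847 / 40000) * (259 / 200)) * p ^ 2 := by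
  rcases eq_or_lt_of_le h1 with h | h1
  · subst h
    rw [kvh8 (by norm_num) (by norm_num)]
    ring1
  · exact kvh9 h1 h2
theorem kvl10 {p x : ℝ} (h1 : 3 / 10 ≤ p) (h2 : p ≤ 41 / 100) : dt33.kv p x = (1679 / 1562500 + (x - 38847 / 40000) * (-13 / 625)) + (151177877 / 100000000 + (x - 38847 / 40000) * (589 / 10000)) * p + (3539 / 250000 + (x - 38847 / 40000) * (23 / 25)) * p ^ 2 := by
  rcases eq_or_lt_of_le h1 with h | h1
  · subst h
    rw [kvh9 (by norm_num) (by norm_num)]
    ring1
  · exact kvh10 h1 h2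
theorem kvl11 {p x : ℝ} (h1 : 41 / 100 ≤ p) (h2 : p ≤ 43 / 100) : dt33.kv p x = (2231157521167 / 50000000000 + (x - 38847 / 40000) * (-2491881 / 5000000)) + (-216156883971 / 1000000000 + (x - 38847 / 40000) * (238853 / 100000)) * p + (2654637447 / 10000000 + (x - 38847 / 40000) * (-1921 / 1000)) * p ^ 2 := by
  rcases eq_or_lt_of_le h1 with h | h1
  · subst h
    rw [kvh10 (by norm_num) (by norm_num)]
    ring1
  · exact kvh11 h1 h2
theorem kvl12 {p x : ℝ} (h1 : 43 / 100 ≤ p) (h2 : p ≤ 781 / 1742) : dt33.kv p x = (1552815003078870891 / 34774675000000000 + (x - 38847 / 40000) * (-6392818808713 / 3477467500000)) + (-18804282731988913 / 86936687500000 + (x - 38847 / 40000) * (149895699793 / 17387337500)) * p + (332035647 / 1250000 + (x - 38847 / 40000) * (-1146 / 125)) * p ^ 2 := by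
  rcases eq_or_lt_of_le h1 with h | h1
  · subst h
    rw [kvh11 (by norm_num) (by norm_num)]
    ring1
  · exact kvh12 h1 h2
theorem kvl13 {p x : ℝ} (h1 : 781 / 1742 ≤ p) (h2 : p ≤ 541 / 1141) : dt33.kv p x = (-1332103628015189115452677 / 12745874527750000000000 + (x - 38847 / 40000) * (-240440316073905833189 / 1274587452775000000)) + (2862237632353989587759387 / 6372937263875000000000 + (x - 38847 / 40000) * (536563584805074789659 / 637293726387500000)) * p + (-4764750381 / 10000000 + (x - 38847 / 40000) * (-938517 / 1000)) * p ^ 2 := by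
  rcases eq_or_lt_of_le h1 with h | h1
  · subst h
    rw [kvh12 (by norm_num) (by norm_num)]
    ring1
  · exact kvh13 h1 h2
theorem kvl14 {p x : ℝ} (h1 : 541 / 1141 ≤ p) (h2 : p ≤ 481 / 1000) : dt33.kv p x = (-305534810589742356253 / 2230940250000000000 + (x - 38847 / 40000) * (-40983083054432821 / 223094025000000)) + (2614496845616704313 / 4461880500000000 + (x - 38847 / 40000) * (366369324340991 / 446188050000)) * p + (-124155183 / 200000 + (x - 38847 / 40000) * (-18331 / 20)) * p ^ 2 := by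
  rcases eq_or_lt_of_le h1 with h | h1
  · subst h
    rw [kvh13 (by norm_num) (by norm_num)]
    ring1
  · exact kvh14 h1 h2
theorem kvl15 {p x : ℝ} (h1 : 481 / 1000 ≤ p) (h2 : p ≤ 61 / 125) : dt33.kv p x = (113558973147947 / 17500000000000 + (x - 38847 / 40000) * (43407359579 / 1750000000)) + (-732996333619 / 70000000000 + (x - 38847 / 40000) * (-321054483 / 7000000)) * p + (-7817697 / 10000000 + (x - 38847 / 40000) * (-15329 / 1000)) * p ^ 2 := by
  rcases eq_or_lt_of_le h1 with h | h1
  · subst h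
    rw [kvh14 (by norm_num) (by norm_num)]
    ring1
  · exact kvh15 h1 h2
theorem kvl16 {p x : ℝ} (h1 : 61 / 125 ≤ p) (h2 : p ≤ 1 / 2) : dt33.kv p x = (9994179252157 / 1500000000000 + (x - 38847 / 40000) * (4246345549 / 150000000)) + (-41937259367 / 3750000000 + (x - 38847 / 40000) * (-22585769 / 375000)) * p + (-130929 / 2500000 + (x - 38847 / 40000) * (-153 / 250)) * p ^ 2 := by
  rcases eq_or_lt_of_le h1 with h | h1
  · subst h
    rw [kvh15 (by norm_num) (by norm_num)]
    ring1
  · exact kvh16 h1 h2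
theorem kfe {x p : ℝ} (h : |p| ≤ 1 / 2) : kcg.v p x = dt33.kv p x := by
  obtain ⟨h1, h2⟩ := abs_le.1 h
  rcases le_total p (-61 / 125) with g0 | g1000
  · rw [kcl0 (by linarith) g0, kvl0 (by linarith) g0]
  rcases le_total p (-481 / 1000) with g1 | g1001
  · rw [kcl1 g1000 g1, kvl1 g1000 g1]
  rcases le_total p (-541 / 1141) with g2 | g1002
  · rw [kcl2 g1001 g2, kvl2 g1001 g2]
  rcases le_total p (-781 / 1742) with g3 | g1003
  · rw [kcl3 g1002 g3, kvl3 g1002 g3]
  rcases le_total p (-43 / 100) with g4 | g1004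
  · rw [kcl4 g1003 g4, kvl4 g1003 g4]
  rcases le_total p (-41 / 100) with g5 | g1005
  · rw [kcl5 g1004 g5, kvl5 g1004 g5]
  rcases le_total p (-3 / 10) with g6 | g1006
  · rw [kcl6 g1005 g6, kvl6 g1005 g6]
  rcases le_total p (-1 / 10) with g7 | g1007
  · rw [kcl7 g1006 g7, kvl7 g1006 g7]
  rcases le_total p (1 / 10) with g8 | g1008
  · rw [kcl8 g1007 g8, kvl8 g1007 g8]
  rcases le_total p (3 / 10) with g9 | g1009
  · rw [kcl9 g1008 g9, kvl9 g1008 g9]
  rcases le_total p (41 / 100) with g10 | g1010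
  · rw [kcl10 g1009 g10, kvl10 g1009 g10]
  rcases le_total p (43 / 100) with g11 | g1011
  · rw [kcl11 g1010 g11, kvl11 g1010 g11]
  rcases le_total p (781 / 1742) with g12 | g1012
  · rw [kcl12 g1011 g12, kvl12 g1011 g12]
  rcases le_total p (541 / 1141) with g13 | g1013
  · rw [kcl13 g1012 g13, kvl13 g1012 g13]
  rcases le_total p (481 / 1000) with g14 | g1014
  · rw [kcl14 g1013 g14, kvl14 g1013 g14]
  rcases le_total p (61 / 125) with g15 | g1015
  · rw [kcl15 g1014 g15, kvl15 g1014 g15]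
  · rw [kcl16 g1015 (by linarith), kvl16 g1015 (by linarith)]
theorem odd {x p : ℝ} (h : |p| ≤ 1 / 2) : kcg.v (-p) x = -kcg.v p x := by
  obtain ⟨h1, h2⟩ := abs_le.1 h
  rcases le_total p (-61 / 125) with g0 | g1000
  · rw [kcl0 (by linarith) g0, kcl16 (p := -p) (by linarith) (by linarith)]; ring
  rcases le_total p (-481 / 1000) with g1 | g1001
  · rw [kcl1 g1000 g1, kcl15 (p := -p) (by linarith) (by linarith)]; ring
  rcases le_total p (-541 / 1141) with g2 | g1002
  · rw [kcl2 g1001 g2, kcl14 (p := -p) (by linarith) (by linarith)]; ring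
  rcases le_total p (-781 / 1742) with g3 | g1003
  · rw [kcl3 g1002 g3, kcl13 (p := -p) (by linarith) (by linarith)]; ring
  rcases le_total p (-43 / 100) with g4 | g1004
  · rw [kcl4 g1003 g4, kcl12 (p := -p) (by linarith) (by linarith)]; ring
  rcases le_total p (-41 / 100) with g5 | g1005
  · rw [kcl5 g1004 g5, kcl11 (p := -p) (by linarith) (by linarith)]; ring
  rcases le_total p (-3 / 10) with g6 | g1006
  · rw [kcl6 g1005 g6, kcl10 (p := -p) (by linarith) (by linarith)]; ring
  rcases le_total p (-1 / 10) with g7 | g1007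
  · rw [kcl7 g1006 g7, kcl9 (p := -p) (by linarith) (by linarith)]; ring
  rcases le_total p (1 / 10) with g8 | g1008
  · rw [kcl8 g1007 g8, kcl8 (p := -p) (by linarith) (by linarith)]; ring
  rcases le_total p (3 / 10) with g9 | g1009
  · rw [kcl9 g1008 g9, kcl7 (p := -p) (by linarith) (by linarith)]; ring
  rcases le_total p (41 / 100) with g10 | g1010
  · rw [kcl10 g1009 g10, kcl6 (p := -p) (by linarith) (by linarith)]; ring
  rcases le_total p (43 / 100) with g11 | g1011
  · rw [kcl11 g1010 g11, kcl5 (p := -p) (by linarith) (by linarith)]; ring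
  rcases le_total p (781 / 1742) with g12 | g1012
  · rw [kcl12 g1011 g12, kcl4 (p := -p) (by linarith) (by linarith)]; ring
  rcases le_total p (541 / 1141) with g13 | g1013
  · rw [kcl13 g1012 g13, kcl3 (p := -p) (by linarith) (by linarith)]; ring
  rcases le_total p (481 / 1000) with g14 | g1014
  · rw [kcl14 g1013 g14, kcl2 (p := -p) (by linarith) (by linarith)]; ring
  rcases le_total p (61 / 125) with g15 | g1015
  · rw [kcl15 g1014 g15, kcl1 (p := -p) (by linarith) (by linarith)]; ring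
  · rw [kcl16 g1015 (by linarith), kcl0 (p := -p) (by linarith) (by linarith)]; ring
theorem ctA : cT (781 / 1742) = 479 / 871 := by
  unfold cT
  rw [show (3 / 4 * (1 - (781 / 1742 : ℝ) ^ 2)) = (2697 / 3484) ^ 2 by norm_num, Real.sqrt_sq (by norm_num)]
  norm_num
theorem ctB : cT (541 / 1141) = 1199 / 2282 := by
  unfold cT
  rw [show (3 / 4 * (1 - (541 / 1141 : ℝ) ^ 2)) = (870 / 1141) ^ 2 by norm_num, Real.sqrt_sq (by norm_num)]
  norm_num
theorem kgA {x : ℝ} : kcg.v (781 / 1742) x = (26796536593 / 25000000000 + (x - 38847 / 40000) * (459801 / 2500000)) := by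
  rw [kcl12 (by norm_num) (by norm_num)]
  ring
theorem kgB {x : ℝ} : kcg.v (541 / 1141) x = (329811416727 / 250000000000 + (x - 38847 / 40000) * (-10773961 / 25000000)) := by
  rw [kcl13 (by norm_num) (by norm_num)]
  ring
theorem ka_dt1 (x : ℝ) : dt1.kv (-1 / 2) x = (-529029342919 / 500000000000 + (x - 38847 / 40000) * (97919417 / 50000000)) := by
  simp only [dt1, DT.kv, sw1, sl1, sv1]
  ((try push_cast); ring1)
theorem kb_dt1 (x : ℝ) : dt1.kv (-61 / 125) x = (-596439416751 / 500000000000 + (x - 38847 / 40000) * (61419393 / 50000000)) := by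
  simp only [dt1, DT.kv, sw1, sl1, sv1]
  ((try push_cast); ring1)
theorem ka_dt2 (x : ℝ) : dt2.kv (-61 / 125) x = (-596439416751 / 500000000000 + (x - 38847 / 40000) * (61419393 / 50000000)) := by
  simp only [dt2, DT.kv, sw2, sl2, sv2]
  ((try push_cast); ring1)
theorem kb_dt2 (x : ℝ) : dt2.kv (-481 / 1000) x = (-1271481210739 / 1000000000000 + (x - 38847 / 40000) * (80335677 / 100000000)) := by
  simp only [dt2, DT.kv, sw2, sl2, sv2]
  ((try push_cast); ring1)
theorem ka_dt18 (x : ℝ) : dt18.kv (-1 / 2) x = (-529029342919 / 500000000000 + (x - 38847 / 40000) * (97919417 / 50000000)) :=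
  (DT.kv_le (by simp only [Cn.rt_v, Cn.ng_v]; norm_num)).trans (ka_dt1 x)
theorem kb_dt18 (x : ℝ) : dt18.kv (-481 / 1000) x = (-1271481210739 / 1000000000000 + (x - 38847 / 40000) * (80335677 / 100000000)) :=
  (DT.kv_gt (by simp only [Cn.rt_v, Cn.ng_v]; norm_num)).trans (kb_dt2 x)
theorem ka_dt3 (x : ℝ) : dt3.kv (-481 / 1000) x = (-1271481210739 / 1000000000000 + (x - 38847 / 40000) * (80335677 / 100000000)) := by
  simp only [dt3, DT.kv, sw3, sl3, sv3]
  ((try push_cast); ring1)
theorem kb_dt3 (x : ℝ) : dt3.kv (-541 / 1141) x = (-329811416727 / 250000000000 + (x - 38847 / 40000) * (10773961 / 25000000)) := by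
  simp only [dt3, DT.kv, sw3, sl3, sv3]
  ((try push_cast); ring1)
theorem ka_dt4 (x : ℝ) : dt4.kv (-541 / 1141) x = (-329811416727 / 250000000000 + (x - 38847 / 40000) * (10773961 / 25000000)) := by
  simp only [dt4, DT.kv, sw4, sl4, sv4]
  ((try push_cast); ring1)
theorem kb_dt4 (x : ℝ) : dt4.kv (-781 / 1742) x = (-26796536593 / 25000000000 + (x - 38847 / 40000) * (-459801 / 2500000)) := by
  simp only [dt4, DT.kv, sw4, sl4, sv4]
  ((try push_cast); ring1)
theorem ka_dt19 (x : ℝ) : dt19.kv (-481 / 1000) x = (-1271481210739 / 1000000000000 + (x - 38847 / 40000) * (80335677 / 100000000)) :=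
  (DT.kv_le (by simp only [Cn.rt_v, Cn.ng_v]; norm_num)).trans (ka_dt3 x)
theorem kb_dt19 (x : ℝ) : dt19.kv (-781 / 1742) x = (-26796536593 / 25000000000 + (x - 38847 / 40000) * (-459801 / 2500000)) :=
  (DT.kv_gt (by simp only [Cn.rt_v, Cn.ng_v]; norm_num)).trans (kb_dt4 x)
theorem ka_dt20 (x : ℝ) : dt20.kv (-1 / 2) x = (-529029342919 / 500000000000 + (x - 38847 / 40000) * (97919417 / 50000000)) :=
  (DT.kv_le (by simp only [Cn.rt_v, Cn.ng_v]; norm_num)).trans (ka_dt18 x)
theorem kb_dt20 (x : ℝ) : dt20.kv (-781 / 1742) x = (-26796536593 / 25000000000 + (x - 38847 / 40000) * (-459801 / 2500000)) :=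
  (DT.kv_gt (by simp only [Cn.rt_v, Cn.ng_v]; norm_num)).trans (kb_dt19 x)
theorem ka_dt5 (x : ℝ) : dt5.kv (-781 / 1742) x = (-26796536593 / 25000000000 + (x - 38847 / 40000) * (-459801 / 2500000)) := by
  simp only [dt5, DT.kv, sw5, sl5, sv5]
  ((try push_cast); ring1)
theorem kb_dt5 (x : ℝ) : dt5.kv (-43 / 100) x = (-18998417771 / 25000000000 + (x - 38847 / 40000) * (-433747 / 2500000)) := by
  simp only [dt5, DT.kv, sw5, sl5, sv5]
  ((try push_cast); ring1)
theorem ka_dt6 (x : ℝ) : dt6.kv (-43 / 100) x = (-18998417771 / 25000000000 + (x - 38847 / 40000) * (-433747 / 2500000)) := by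
  simp only [dt6, DT.kv, sw6, sl6, sv6]
  ((try push_cast); ring1)
theorem kb_dt6 (x : ℝ) : dt6.kv (-41 / 100) x = (-6232834793 / 10000000000 + (x - 38847 / 40000) * (-158001 / 1000000)) := by
  simp only [dt6, DT.kv, sw6, sl6, sv6]
  ((try push_cast); ring1)
theorem ka_dt21 (x : ℝ) : dt21.kv (-781 / 1742) x = (-26796536593 / 25000000000 + (x - 38847 / 40000) * (-459801 / 2500000)) :=
  (DT.kv_le (by simp only [Cn.rt_v, Cn.ng_v]; norm_num)).trans (ka_dt5 x)
theorem kb_dt21 (x : ℝ) : dt21.kv (-41 / 100) x = (-6232834793 / 10000000000 + (x - 38847 / 40000) * (-158001 / 1000000)) :=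
  (DT.kv_gt (by simp only [Cn.rt_v, Cn.ng_v]; norm_num)).trans (kb_dt6 x)
theorem ka_dt7 (x : ℝ) : dt7.kv (-41 / 100) x = (-6232834793 / 10000000000 + (x - 38847 / 40000) * (-158001 / 1000000)) := by
  simp only [dt7, DT.kv, sw7, sl7, sv7]
  ((try push_cast); ring1)
theorem kb_dt7 (x : ℝ) : dt7.kv (-3 / 10) x = (-455882231 / 1000000000 + (x - 38847 / 40000) * (-7967 / 100000)) := by
  simp only [dt7, DT.kv, sw7, sl7, sv7]
  ((try push_cast); ring1)
theorem ka_dt8 (x : ℝ) : dt8.kv (-3 / 10) x = (-455882231 / 1000000000 + (x - 38847 / 40000) * (-7967 / 100000)) := by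
  simp only [dt8, DT.kv, sw8, sl8, sv8]
  ((try push_cast); ring1)
theorem kb_dt8 (x : ℝ) : dt8.kv (-1 / 10) x = (-151927497 / 1000000000 + (x - 38847 / 40000) * (-929 / 100000)) := by
  simp only [dt8, DT.kv, sw8, sl8, sv8]
  ((try push_cast); ring1)
theorem ka_dt22 (x : ℝ) : dt22.kv (-41 / 100) x = (-6232834793 / 10000000000 + (x - 38847 / 40000) * (-158001 / 1000000)) :=
  (DT.kv_le (by simp only [Cn.rt_v, Cn.ng_v]; norm_num)).trans (ka_dt7 x)
theorem kb_dt22 (x : ℝ) : dt22.kv (-1 / 10) x = (-151927497 / 1000000000 + (x - 38847 / 40000) * (-929 / 100000)) :=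
  (DT.kv_gt (by simp only [Cn.rt_v, Cn.ng_v]; norm_num)).trans (kb_dt8 x)
theorem ka_dt23 (x : ℝ) : dt23.kv (-781 / 1742) x = (-26796536593 / 25000000000 + (x - 38847 / 40000) * (-459801 / 2500000)) :=
  (DT.kv_le (by simp only [Cn.rt_v, Cn.ng_v]; norm_num)).trans (ka_dt21 x)
theorem kb_dt23 (x : ℝ) : dt23.kv (-1 / 10) x = (-151927497 / 1000000000 + (x - 38847 / 40000) * (-929 / 100000)) :=
  (DT.kv_gt (by simp only [Cn.rt_v, Cn.ng_v]; norm_num)).trans (kb_dt22 x)
theorem ka_dt24 (x : ℝ) : dt24.kv (-1 / 2) x = (-529029342919 / 500000000000 + (x - 38847 / 40000) * (97919417 / 50000000)) :=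
  (DT.kv_le (by simp only [Cn.rt_v, Cn.ng_v]; norm_num)).trans (ka_dt20 x)
theorem kb_dt24 (x : ℝ) : dt24.kv (-1 / 10) x = (-151927497 / 1000000000 + (x - 38847 / 40000) * (-929 / 100000)) :=
  (DT.kv_gt (by simp only [Cn.rt_v, Cn.ng_v]; norm_num)).trans (kb_dt23 x)
theorem ka_dt9 (x : ℝ) : dt9.kv (-1 / 10) x = (-151927497 / 1000000000 + (x - 38847 / 40000) * (-929 / 100000)) := by
  simp only [dt9, DT.kv, sl9, sv9]
  ((try push_cast); ring1)
theorem kb_dt9 (x : ℝ) : dt9.kv (1 / 10) x = (151927497 / 1000000000 + (x - 38847 / 40000) * (929 / 100000)) := by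
  simp only [dt9, DT.kv, sl9, sv9]
  ((try push_cast); ring1)
theorem ka_dt10 (x : ℝ) : dt10.kv (1 / 10) x = (151927497 / 1000000000 + (x - 38847 / 40000) * (929 / 100000)) := by
  simp only [dt10, DT.kv, sw10, sl10, sv10]
  ((try push_cast); ring1)
theorem kb_dt10 (x : ℝ) : dt10.kv (3 / 10) x = (455882231 / 1000000000 + (x - 38847 / 40000) * (7967 / 100000)) := by
  simp only [dt10, DT.kv, sw10, sl10, sv10]
  ((try push_cast); ring1)
theorem ka_dt25 (x : ℝ) : dt25.kv (-1 / 10) x = (-151927497 / 1000000000 + (x - 38847 / 40000) * (-929 / 100000)) :=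
  (DT.kv_le (by simp only [Cn.rt_v, Cn.ng_v]; norm_num)).trans (ka_dt9 x)
theorem kb_dt25 (x : ℝ) : dt25.kv (3 / 10) x = (455882231 / 1000000000 + (x - 38847 / 40000) * (7967 / 100000)) :=
  (DT.kv_gt (by simp only [Cn.rt_v, Cn.ng_v]; norm_num)).trans (kb_dt10 x)
theorem ka_dt11 (x : ℝ) : dt11.kv (3 / 10) x = (455882231 / 1000000000 + (x - 38847 / 40000) * (7967 / 100000)) := by
  simp only [dt11, DT.kv, sw11, sl11, sv11]
  ((try push_cast); ring1)
theorem kb_dt11 (x : ℝ) : dt11.kv (41 / 100) x = (6232834793 / 10000000000 + (x - 38847 / 40000) * (158001 / 1000000)) := by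
  simp only [dt11, DT.kv, sw11, sl11, sv11]
  ((try push_cast); ring1)
theorem ka_dt12 (x : ℝ) : dt12.kv (41 / 100) x = (6232834793 / 10000000000 + (x - 38847 / 40000) * (158001 / 1000000)) := by
  simp only [dt12, DT.kv, sw12, sl12, sv12]
  ((try push_cast); ring1)
theorem kb_dt12 (x : ℝ) : dt12.kv (43 / 100) x = (18998417771 / 25000000000 + (x - 38847 / 40000) * (433747 / 2500000)) := by
  simp only [dt12, DT.kv, sw12, sl12, sv12]
  ((try push_cast); ring1)
theorem ka_dt26 (x : ℝ) : dt26.kv (3 / 10) x = (455882231 / 1000000000 + (x - 38847 / 40000) * (7967 / 100000)) :=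
  (DT.kv_le (by simp only [Cn.rt_v, Cn.ng_v]; norm_num)).trans (ka_dt11 x)
theorem kb_dt26 (x : ℝ) : dt26.kv (43 / 100) x = (18998417771 / 25000000000 + (x - 38847 / 40000) * (433747 / 2500000)) :=
  (DT.kv_gt (by simp only [Cn.rt_v, Cn.ng_v]; norm_num)).trans (kb_dt12 x)
theorem ka_dt27 (x : ℝ) : dt27.kv (-1 / 10) x = (-151927497 / 1000000000 + (x - 38847 / 40000) * (-929 / 100000)) :=
  (DT.kv_le (by simp only [Cn.rt_v, Cn.ng_v]; norm_num)).trans (ka_dt25 x)
theorem kb_dt27 (x : ℝ) : dt27.kv (43 / 100) x = (18998417771 / 25000000000 + (x - 38847 / 40000) * (433747 / 2500000)) :=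
  (DT.kv_gt (by simp only [Cn.rt_v, Cn.ng_v]; norm_num)).trans (kb_dt26 x)
theorem ka_dt13 (x : ℝ) : dt13.kv (43 / 100) x = (18998417771 / 25000000000 + (x - 38847 / 40000) * (433747 / 2500000)) := by
  simp only [dt13, DT.kv, sw13, sl13, sv13]
  ((try push_cast); ring1)
theorem kb_dt13 (x : ℝ) : dt13.kv (781 / 1742) x = (26796536593 / 25000000000 + (x - 38847 / 40000) * (459801 / 2500000)) := by
  simp only [dt13, DT.kv, sw13, sl13, sv13]
  ((try push_cast); ring1)
theorem ka_dt14 (x : ℝ) : dt14.kv (781 / 1742) x = (26796536593 / 25000000000 + (x - 38847 / 40000) * (459801 / 2500000)) := by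
  simp only [dt14, DT.kv, sw14, sl14, sv14]
  ((try push_cast); ring1)
theorem kb_dt14 (x : ℝ) : dt14.kv (541 / 1141) x = (329811416727 / 250000000000 + (x - 38847 / 40000) * (-10773961 / 25000000)) := by
  simp only [dt14, DT.kv, sw14, sl14, sv14]
  ((try push_cast); ring1)
theorem ka_dt28 (x : ℝ) : dt28.kv (43 / 100) x = (18998417771 / 25000000000 + (x - 38847 / 40000) * (433747 / 2500000)) :=
  (DT.kv_le (by simp only [Cn.rt_v, Cn.ng_v]; norm_num)).trans (ka_dt13 x)
theorem kb_dt28 (x : ℝ) : dt28.kv (541 / 1141) x = (329811416727 / 250000000000 + (x - 38847 / 40000) * (-10773961 / 25000000)) :=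
  (DT.kv_gt (by simp only [Cn.rt_v, Cn.ng_v]; norm_num)).trans (kb_dt14 x)
theorem ka_dt15 (x : ℝ) : dt15.kv (541 / 1141) x = (329811416727 / 250000000000 + (x - 38847 / 40000) * (-10773961 / 25000000)) := by
  simp only [dt15, DT.kv, sw15, sl15, sv15]
  ((try push_cast); ring1)
theorem kb_dt15 (x : ℝ) : dt15.kv (481 / 1000) x = (1271481210739 / 1000000000000 + (x - 38847 / 40000) * (-80335677 / 100000000)) := by
  simp only [dt15, DT.kv, sw15, sl15, sv15]
  ((try push_cast); ring1)
theorem ka_dt16 (x : ℝ) : dt16.kv (481 / 1000) x = (1271481210739 / 1000000000000 + (x - 38847 / 40000) * (-80335677 / 100000000)) := by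
  simp only [dt16, DT.kv, sw16, sl16, sv16]
  ((try push_cast); ring1)
theorem kb_dt16 (x : ℝ) : dt16.kv (61 / 125) x = (596439416751 / 500000000000 + (x - 38847 / 40000) * (-61419393 / 50000000)) := by
  simp only [dt16, DT.kv, sw16, sl16, sv16]
  ((try push_cast); ring1)
theorem ka_dt17 (x : ℝ) : dt17.kv (61 / 125) x = (596439416751 / 500000000000 + (x - 38847 / 40000) * (-61419393 / 50000000)) := by
  simp only [dt17, DT.kv, sw17, sl17, sv17]
  ((try push_cast); ring1)
theorem kb_dt17 (x : ℝ) : dt17.kv (1 / 2) x = (529029342919 / 500000000000 + (x - 38847 / 40000) * (-97919417 / 50000000)) := by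
  simp only [dt17, DT.kv, sw17, sl17, sv17]
  ((try push_cast); ring1)
theorem ka_dt29 (x : ℝ) : dt29.kv (481 / 1000) x = (1271481210739 / 1000000000000 + (x - 38847 / 40000) * (-80335677 / 100000000)) :=
  (DT.kv_le (by simp only [Cn.rt_v, Cn.ng_v]; norm_num)).trans (ka_dt16 x)
theorem kb_dt29 (x : ℝ) : dt29.kv (1 / 2) x = (529029342919 / 500000000000 + (x - 38847 / 40000) * (-97919417 / 50000000)) :=
  (DT.kv_gt (by simp only [Cn.rt_v, Cn.ng_v]; norm_num)).trans (kb_dt17 x)
theorem ka_dt30 (x : ℝ) : dt30.kv (541 / 1141) x = (329811416727 / 250000000000 + (x - 38847 / 40000) * (-10773961 / 25000000)) :=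
  (DT.kv_le (by simp only [Cn.rt_v, Cn.ng_v]; norm_num)).trans (ka_dt15 x)
theorem kb_dt30 (x : ℝ) : dt30.kv (1 / 2) x = (529029342919 / 500000000000 + (x - 38847 / 40000) * (-97919417 / 50000000)) :=
  (DT.kv_gt (by simp only [Cn.rt_v, Cn.ng_v]; norm_num)).trans (kb_dt29 x)
theorem ka_dt31 (x : ℝ) : dt31.kv (43 / 100) x = (18998417771 / 25000000000 + (x - 38847 / 40000) * (433747 / 2500000)) :=
  (DT.kv_le (by simp only [Cn.rt_v, Cn.ng_v]; norm_num)).trans (ka_dt28 x)
theorem kb_dt31 (x : ℝ) : dt31.kv (1 / 2) x = (529029342919 / 500000000000 + (x - 38847 / 40000) * (-97919417 / 50000000)) :=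
  (DT.kv_gt (by simp only [Cn.rt_v, Cn.ng_v]; norm_num)).trans (kb_dt30 x)
theorem ka_dt32 (x : ℝ) : dt32.kv (-1 / 10) x = (-151927497 / 1000000000 + (x - 38847 / 40000) * (-929 / 100000)) :=
  (DT.kv_le (by simp only [Cn.rt_v, Cn.ng_v]; norm_num)).trans (ka_dt27 x)
theorem kb_dt32 (x : ℝ) : dt32.kv (1 / 2) x = (529029342919 / 500000000000 + (x - 38847 / 40000) * (-97919417 / 50000000)) :=
  (DT.kv_gt (by simp only [Cn.rt_v, Cn.ng_v]; norm_num)).trans (kb_dt31 x)
theorem ka_dt33 (x : ℝ) : dt33.kv (-1 / 2) x = (-529029342919 / 500000000000 + (x - 38847 / 40000) * (97919417 / 50000000)) :=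
  (DT.kv_le (by simp only [Cn.rt_v, Cn.ng_v]; norm_num)).trans (ka_dt24 x)
theorem kb_dt33 (x : ℝ) : dt33.kv (1 / 2) x = (529029342919 / 500000000000 + (x - 38847 / 40000) * (-97919417 / 50000000)) :=
  (DT.kv_gt (by simp only [Cn.rt_v, Cn.ng_v]; norm_num)).trans (kb_dt32 x)
theorem ko_dt1 (x : ℝ) : dt1.KOk x := trivial
theorem ko_dt2 (x : ℝ) : dt2.KOk x := trivial
theorem ko_dt18 (x : ℝ) : dt18.KOk x :=
  DT.kOk_node (v := -61 / 125) (by simp only [Cn.rt_v, Cn.ng_v]; norm_num) (kb_dt1 x) (ka_dt2 x) (by ring1) (ko_dt1 x) (ko_dt2 x)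
theorem ko_dt3 (x : ℝ) : dt3.KOk x := trivial
theorem ko_dt4 (x : ℝ) : dt4.KOk x := trivial
theorem ko_dt19 (x : ℝ) : dt19.KOk x :=
  DT.kOk_node (v := -541 / 1141) (by simp only [Cn.rt_v, Cn.ng_v]; norm_num) (kb_dt3 x) (ka_dt4 x) (by ring1) (ko_dt3 x) (ko_dt4 x)
theorem ko_dt20 (x : ℝ) : dt20.KOk x :=
  DT.kOk_node (v := -481 / 1000) (by simp only [Cn.rt_v, Cn.ng_v]; norm_num) (kb_dt18 x) (ka_dt19 x) (by ring1) (ko_dt18 x) (ko_dt19 x)
theorem ko_dt5 (x : ℝ) : dt5.KOk x := trivial
theorem ko_dt6 (x : ℝ) : dt6.KOk x := trivial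
theorem ko_dt21 (x : ℝ) : dt21.KOk x :=
  DT.kOk_node (v := -43 / 100) (by simp only [Cn.rt_v, Cn.ng_v]; norm_num) (kb_dt5 x) (ka_dt6 x) (by ring1) (ko_dt5 x) (ko_dt6 x)
theorem ko_dt7 (x : ℝ) : dt7.KOk x := trivial
theorem ko_dt8 (x : ℝ) : dt8.KOk x := trivial
theorem ko_dt22 (x : ℝ) : dt22.KOk x :=
  DT.kOk_node (v := -3 / 10) (by simp only [Cn.rt_v, Cn.ng_v]; norm_num) (kb_dt7 x) (ka_dt8 x) (by ring1) (ko_dt7 x) (ko_dt8 x)
theorem ko_dt23 (x : ℝ) : dt23.KOk x :=
  DT.kOk_node (v := -41 / 100) (by simp only [Cn.rt_v, Cn.ng_v]; norm_num) (kb_dt21 x) (ka_dt22 x) (by ring1) (ko_dt21 x) (ko_dt22 x)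
theorem ko_dt24 (x : ℝ) : dt24.KOk x :=
  DT.kOk_node (v := -781 / 1742) (by simp only [Cn.rt_v, Cn.ng_v]; norm_num) (kb_dt20 x) (ka_dt23 x) (by ring1) (ko_dt20 x) (ko_dt23 x)
theorem ko_dt9 (x : ℝ) : dt9.KOk x := trivial
theorem ko_dt10 (x : ℝ) : dt10.KOk x := trivial
theorem ko_dt25 (x : ℝ) : dt25.KOk x :=
  DT.kOk_node (v := 1 / 10) (by simp only [Cn.rt_v, Cn.ng_v]; norm_num) (kb_dt9 x) (ka_dt10 x) (by ring1) (ko_dt9 x) (ko_dt10 x)
theorem ko_dt11 (x : ℝ) : dt11.KOk x := trivial
theorem ko_dt12 (x : ℝ) : dt12.KOk x := trivial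
theorem ko_dt26 (x : ℝ) : dt26.KOk x :=
  DT.kOk_node (v := 41 / 100) (by simp only [Cn.rt_v, Cn.ng_v]; norm_num) (kb_dt11 x) (ka_dt12 x) (by ring1) (ko_dt11 x) (ko_dt12 x)
theorem ko_dt27 (x : ℝ) : dt27.KOk x :=
  DT.kOk_node (v := 3 / 10) (by simp only [Cn.rt_v, Cn.ng_v]; norm_num) (kb_dt25 x) (ka_dt26 x) (by ring1) (ko_dt25 x) (ko_dt26 x)
theorem ko_dt13 (x : ℝ) : dt13.KOk x := trivial
theorem ko_dt14 (x : ℝ) : dt14.KOk x := trivial
theorem ko_dt28 (x : ℝ) : dt28.KOk x :=
  DT.kOk_node (v := 781 / 1742) (by simp only [Cn.rt_v, Cn.ng_v]; norm_num) (kb_dt13 x) (ka_dt14 x) (by ring1) (ko_dt13 x) (ko_dt14 x)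
theorem ko_dt15 (x : ℝ) : dt15.KOk x := trivial
theorem ko_dt16 (x : ℝ) : dt16.KOk x := trivial
theorem ko_dt17 (x : ℝ) : dt17.KOk x := trivial
theorem ko_dt29 (x : ℝ) : dt29.KOk x :=
  DT.kOk_node (v := 61 / 125) (by simp only [Cn.rt_v, Cn.ng_v]; norm_num) (kb_dt16 x) (ka_dt17 x) (by ring1) (ko_dt16 x) (ko_dt17 x)
theorem ko_dt30 (x : ℝ) : dt30.KOk x :=
  DT.kOk_node (v := 481 / 1000) (by simp only [Cn.rt_v, Cn.ng_v]; norm_num) (kb_dt15 x) (ka_dt29 x) (by ring1) (ko_dt15 x) (ko_dt29 x)
theorem ko_dt31 (x : ℝ) : dt31.KOk x :=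
  DT.kOk_node (v := 541 / 1141) (by simp only [Cn.rt_v, Cn.ng_v]; norm_num) (kb_dt28 x) (ka_dt30 x) (by ring1) (ko_dt28 x) (ko_dt30 x)
theorem ko_dt32 (x : ℝ) : dt32.KOk x :=
  DT.kOk_node (v := 43 / 100) (by simp only [Cn.rt_v, Cn.ng_v]; norm_num) (kb_dt27 x) (ka_dt31 x) (by ring1) (ko_dt27 x) (ko_dt31 x)
theorem ko_dt33 (x : ℝ) : dt33.KOk x :=
  DT.kOk_node (v := -1 / 10) (by simp only [Cn.rt_v, Cn.ng_v]; norm_num) (kb_dt24 x) (ka_dt32 x) (by ring1) (ko_dt24 x) (ko_dt32 x)
theorem txl0 {p c x : ℝ} (h1 : -1 / 2 ≤ p) (h2 : p ≤ -61 / 125) : txg.v p c x = dt104.val (fun p x => kcg.v p x) p c x := by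
  symm
  refine (DT.val_le (by simp only [Cn.rt_v, Cn.ng_v]; push_cast; linarith)).trans ?_
  refine (DT.val_le (by simp only [Cn.rt_v, Cn.ng_v]; push_cast; linarith)).trans ?_
  refine (DT.val_le (by simp only [Cn.rt_v, Cn.ng_v]; push_cast; linarith)).trans ?_
  refine (DT.val_le (by simp only [Cn.rt_v, Cn.ng_v]; push_cast; linarith)).trans ?_
  refine (DT.val_le (by simp only [Cn.rt_v, Cn.ng_v]; push_cast; linarith)).trans ?_
  simp only [dt34, DT.val, cloR, sw34, sl34, sv34, txg, txg_4, txg_6, txg_26, txg_29, txg_32, txg_35, txg_38, txg_54, txg_57, txg_58, txg_76, txg_77, txg_85, txg_101, txg_102, txg_120, txg_121, txg_130, txg_133, txg_147, txg_148, txg_167, txg_168, txg_176, txg_189, txg_190, txg_207, txg_208, txg_218, txg_221, txg_224, txg_237, txg_238, txg_255, txg_256, txg_264, txg_278, txg_279, txg_297, txg_298, txg_307, txg_310, txg_322, txg_323, txg_339, txg_340, txg_348, txg_360, txg_361, txg_380, txg_381, txg_390, txg_392, txg_395, txg_397, txg_412, txg_413, txg_431,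 txg_432, txg_438, txg_452, txg_453, txg_470, txg_471, txg_478, txg_479, txg_493, txg_494, txg_512, txg_513, txg_519, txg_533, txg_534, txg_554, txg_555, txg_563, txg_564, txg_565, txg_579, txg_580, txg_598, txg_599, txg_605, txg_619, txg_620, txg_638, txg_639, txg_646, txg_647, txg_662, txg_663, txg_682, txg_683, txg_689, txg_704, txg_705, txg_724, txg_737, txg_738, txg_749, txg_750, txg_774, txg_775, txg_780, txg_794, txg_795, txg_815, txg_816]
  rcases eq_or_lt_of_le h1 with h | h1
  · subst h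
    ((try push_cast); (repeat first | rw [if_pos (by linarith)] | rw [if_neg (by linarith)] | erw [if_pos (by linarith)] | erw [if_neg (by linarith)]); (try push_cast); (try ring1))
  rcases eq_or_lt_of_le h2 with h | h2
  · subst h
    ((try push_cast); (repeat first | rw [if_pos (by linarith)] | rw [if_neg (by linarith)] | erw [if_pos (by linarith)] | erw [if_neg (by linarith)]); (try push_cast); (try ring1))
  · ((try push_cast); (repeat first | rw [if_pos (by linarith)] | rw [if_neg (by linarith)] | erw [if_pos (by linarith)] | erw [if_neg (by linarith)]); (try push_cast); (try ring1))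
theorem txl1 {p c x : ℝ} (h1 : -61 / 125 < p) (h2 : p ≤ -481 / 1000) : txg.v p c x = dt104.val (fun p x => kcg.v p x) p c x := by
  symm
  refine (DT.val_le (by simp only [Cn.rt_v, Cn.ng_v]; push_cast; linarith)).trans ?_
  refine (DT.val_le (by simp only [Cn.rt_v, Cn.ng_v]; push_cast; linarith)).trans ?_
  refine (DT.val_le (by simp only [Cn.rt_v, Cn.ng_v]; push_cast; linarith)).trans ?_
  refine (DT.val_le (by simp only [Cn.rt_v, Cn.ng_v]; push_cast; linarith)).trans ?_
  refine (DT.val_gt (by simp only [Cn.rt_v, Cn.ng_v]; push_cast; linarith)).trans ?_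
  simp only [dt35, DT.val, cloR, sw35, sl35, sv35, txg, txg_4, txg_6, txg_26, txg_29, txg_32, txg_35, txg_38, txg_54, txg_57, txg_58, txg_76, txg_77, txg_85, txg_101, txg_102, txg_120, txg_121, txg_130, txg_133, txg_147, txg_148, txg_167, txg_168, txg_176, txg_189, txg_190, txg_207, txg_208, txg_218, txg_221, txg_224, txg_237, txg_238, txg_255, txg_256, txg_264, txg_278, txg_279, txg_297, txg_298, txg_307, txg_310, txg_322, txg_323, txg_339, txg_340, txg_348, txg_360, txg_361, txg_380, txg_381, txg_390, txg_392, txg_395, txg_397, txg_412, txg_413, txg_431, txg_432, txg_438, txg_452, txg_453, txg_470, txg_471, txg_478, txg_479, txg_493, txg_494, txg_512, txg_513, txg_519, txg_533, txg_534, txg_554, txg_555, txg_563, txg_564, txg_565, txg_579, txg_580, txg_598, txg_599, txg_605, txg_619, txg_620, txg_638, txg_639, txg_646, txg_647, txg_662, txg_663, txg_682, txg_683, txg_689, txg_704, txg_705, txg_724, txg_737, txg_738, txg_749, txg_750, txg_774, txg_775, txg_780, txg_794, txg_795,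 txg_815, txg_816]
  rcases eq_or_lt_of_le h2 with h | h2
  · subst h
    ((try push_cast); (repeat first | rw [if_pos (by linarith)] | rw [if_neg (by linarith)] | erw [if_pos (by linarith)] | erw [if_neg (by linarith)]); (try push_cast); (try ring1))
  · ((try push_cast); (repeat first | rw [if_pos (by linarith)] | rw [if_neg (by linarith)] | erw [if_pos (by linarith)] | erw [if_neg (by linarith)]); (try push_cast); (try ring1))
theorem txl2 {p c x : ℝ} (h1 : -481 / 1000 < p) (h2 : p ≤ -94829 / 200000) : txg.v p c x = dt104.val (fun p x => kcg.v p x) p c x := by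
  symm
  refine (DT.val_le (by simp only [Cn.rt_v, Cn.ng_v]; push_cast; linarith)).trans ?_
  refine (DT.val_le (by simp only [Cn.rt_v, Cn.ng_v]; push_cast; linarith)).trans ?_
  refine (DT.val_le (by simp only [Cn.rt_v, Cn.ng_v]; push_cast; linarith)).trans ?_
  refine (DT.val_gt (by simp only [Cn.rt_v, Cn.ng_v]; push_cast; linarith)).trans ?_
  refine (DT.val_le (by simp only [Cn.rt_v, Cn.ng_v]; push_cast; linarith)).trans ?_
  simp only [dt36, DT.val, cloR, sw36, sl36, sv36, txg, txg_4, txg_6, txg_26, txg_29, txg_32, txg_35, txg_38, txg_54, txg_57, txg_58, txg_76, txg_77, txg_85, txg_101, txg_102, txg_120, txg_121, txg_130, txg_133, txg_147, txg_148, txg_167, txg_168, txg_176, txg_189, txg_190, txg_207, txg_208, txg_218, txg_221, txg_224, txg_237, txg_238, txg_255, txg_256, txg_264, txg_278, txg_279, txg_297, txg_298, txg_307, txg_310, txg_322, txg_323, txg_339, txg_340, txg_348, txg_360, txg_361, txg_380, txg_381, txg_390, txg_392, txg_395, txg_397, txg_412, txg_413, txg_431,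 txg_432, txg_438, txg_452, txg_453, txg_470, txg_471, txg_478, txg_479, txg_493, txg_494, txg_512, txg_513, txg_519, txg_533, txg_534, txg_554, txg_555, txg_563, txg_564, txg_565, txg_579, txg_580, txg_598, txg_599, txg_605, txg_619, txg_620, txg_638, txg_639, txg_646, txg_647, txg_662, txg_663, txg_682, txg_683, txg_689, txg_704, txg_705, txg_724, txg_737, txg_738, txg_749, txg_750, txg_774, txg_775, txg_780, txg_794, txg_795, txg_815, txg_816]
  rcases eq_or_lt_of_le h2 with h | h2
  · subst h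
    ((try push_cast); (repeat first | rw [if_pos (by linarith)] | rw [if_neg (by linarith)] | erw [if_pos (by linarith)] | erw [if_neg (by linarith)]); (try push_cast); (try ring1))
  · ((try push_cast); (repeat first | rw [if_pos (by linarith)] | rw [if_neg (by linarith)] | erw [if_pos (by linarith)] | erw [if_neg (by linarith)]); (try push_cast); (try ring1))
theorem txl3 {p c x : ℝ} (h1 : -94829 / 200000 < p) (h2 : p ≤ -23 / 50) : txg.v p c x = dt104.val (fun p x => kcg.v p x) p c x := by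
  symm
  refine (DT.val_le (by simp only [Cn.rt_v, Cn.ng_v]; push_cast; linarith)).trans ?_
  refine (DT.val_le (by simp only [Cn.rt_v, Cn.ng_v]; push_cast; linarith)).trans ?_
  refine (DT.val_le (by simp only [Cn.rt_v, Cn.ng_v]; push_cast; linarith)).trans ?_
  refine (DT.val_gt (by simp only [Cn.rt_v, Cn.ng_v]; push_cast; linarith)).trans ?_
  refine (DT.val_gt (by simp only [Cn.rt_v, Cn.ng_v]; push_cast; linarith)).trans ?_
  simp only [dt37, DT.val, cloR, sw37, sl37, sv37, txg, txg_4, txg_6, txg_26, txg_29, txg_32, txg_35, txg_38, txg_54, txg_57, txg_58, txg_76, txg_77, txg_85, txg_101, txg_102, txg_120, txg_121, txg_130, txg_133, txg_147, txg_148, txg_167, txg_168, txg_176, txg_189, txg_190, txg_207, txg_208, txg_218, txg_221, txg_224, txg_237, txg_238, txg_255, txg_256, txg_264, txg_278, txg_279, txg_297, txg_298, txg_307, txg_310, txg_322, txg_323, txg_339, txg_340, txg_348, txg_360, txg_361, txg_380, txg_381, txg_390, txg_392, txg_395, txg_397, txg_412, txg_413, txg_431,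 txg_432, txg_438, txg_452, txg_453, txg_470, txg_471, txg_478, txg_479, txg_493, txg_494, txg_512, txg_513, txg_519, txg_533, txg_534, txg_554, txg_555, txg_563, txg_564, txg_565, txg_579, txg_580, txg_598, txg_599, txg_605, txg_619, txg_620, txg_638, txg_639, txg_646, txg_647, txg_662, txg_663, txg_682, txg_683, txg_689, txg_704, txg_705, txg_724, txg_737, txg_738, txg_749, txg_750, txg_774, txg_775, txg_780, txg_794, txg_795, txg_815, txg_816]
  rcases eq_or_lt_of_le h2 with h | h2
  · subst h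
    ((try push_cast); (repeat first | rw [if_pos (by linarith)] | rw [if_neg (by linarith)] | erw [if_pos (by linarith)] | erw [if_neg (by linarith)]); (try push_cast); (try ring1))
  · ((try push_cast); (repeat first | rw [if_pos (by linarith)] | rw [if_neg (by linarith)] | erw [if_pos (by linarith)] | erw [if_neg (by linarith)]); (try push_cast); (try ring1))
theorem txl4 {p c x : ℝ} (h1 : -23 / 50 < p) (h2 : p ≤ -89667 / 200000) : txg.v p c x = dt104.val (fun p x => kcg.v p x) p c x := by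
  symm
  refine (DT.val_le (by simp only [Cn.rt_v, Cn.ng_v]; push_cast; linarith)).trans ?_
  refine (DT.val_le (by simp only [Cn.rt_v, Cn.ng_v]; push_cast; linarith)).trans ?_
  refine (DT.val_gt (by simp only [Cn.rt_v, Cn.ng_v]; push_cast; linarith)).trans ?_
  refine (DT.val_le (by simp only [Cn.rt_v, Cn.ng_v]; push_cast; linarith)).trans ?_
  refine (DT.val_le (by simp only [Cn.rt_v, Cn.ng_v]; push_cast; linarith)).trans ?_
  simp only [dt38, DT.val, cloR, sw38, sl38, sv38, txg, txg_4, txg_6, txg_26, txg_29, txg_32, txg_35, txg_38, txg_54, txg_57, txg_58, txg_76, txg_77, txg_85, txg_101, txg_102, txg_120, txg_121, txg_130, txg_133, txg_147, txg_148, txg_167, txg_168, txg_176, txg_189, txg_190, txg_207, txg_208, txg_218, txg_221, txg_224, txg_237, txg_238, txg_255, txg_256, txg_264, txg_278, txg_279, txg_297, txg_298, txg_307, txg_310, txg_322, txg_323, txg_339, txg_340, txg_348, txg_360, txg_361, txg_380, txg_381, txg_390, txg_392, txg_395, txg_397, txg_412, txg_413, txg_431,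 txg_432, txg_438, txg_452, txg_453, txg_470, txg_471, txg_478, txg_479, txg_493, txg_494, txg_512, txg_513, txg_519, txg_533, txg_534, txg_554, txg_555, txg_563, txg_564, txg_565, txg_579, txg_580, txg_598, txg_599, txg_605, txg_619, txg_620, txg_638, txg_639, txg_646, txg_647, txg_662, txg_663, txg_682, txg_683, txg_689, txg_704, txg_705, txg_724, txg_737, txg_738, txg_749, txg_750, txg_774, txg_775, txg_780, txg_794, txg_795, txg_815, txg_816]
  rcases eq_or_lt_of_le h2 with h | h2
  · subst h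
    ((try push_cast); (repeat first | rw [if_pos (by linarith)] | rw [if_neg (by linarith)] | erw [if_pos (by linarith)] | erw [if_neg (by linarith)]); (try push_cast); (try ring1))
  · ((try push_cast); (repeat first | rw [if_pos (by linarith)] | rw [if_neg (by linarith)] | erw [if_pos (by linarith)] | erw [if_neg (by linarith)]); (try push_cast); (try ring1))
theorem txl5 {p c x : ℝ} (h1 : -89667 / 200000 < p) (h2 : p ≤ -11 / 25) : txg.v p c x = dt104.val (fun p x => kcg.v p x) p c x := by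
  symm
  refine (DT.val_le (by simp only [Cn.rt_v, Cn.ng_v]; push_cast; linarith)).trans ?_
  refine (DT.val_le (by simp only [Cn.rt_v, Cn.ng_v]; push_cast; linarith)).trans ?_
  refine (DT.val_gt (by simp only [Cn.rt_v, Cn.ng_v]; push_cast; linarith)).trans ?_
  refine (DT.val_le (by simp only [Cn.rt_v, Cn.ng_v]; push_cast; linarith)).trans ?_
  refine (DT.val_gt (by simp only [Cn.rt_v, Cn.ng_v]; push_cast; linarith)).trans ?_
  simp only [dt39, DT.val, cloR, sw39, sl39, sv39, txg, txg_4, txg_6, txg_26, txg_29, txg_32, txg_35, txg_38, txg_54, txg_57, txg_58, txg_76, txg_77, txg_85, txg_101, txg_102, txg_120, txg_121, txg_130, txg_133, txg_147, txg_148, txg_167, txg_168, txg_176, txg_189, txg_190, txg_207, txg_208, txg_218, txg_221, txg_224, txg_237, txg_238, txg_255, txg_256, txg_264, txg_278, txg_279, txg_297, txg_298, txg_307, txg_310, txg_322, txg_323, txg_339, txg_340, txg_348, txg_360, txg_361, txg_380, txg_381, txg_390, txg_392, txg_395, txg_397, txg_412, txg_413, txg_431,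 txg_432, txg_438, txg_452, txg_453, txg_470, txg_471, txg_478, txg_479, txg_493, txg_494, txg_512, txg_513, txg_519, txg_533, txg_534, txg_554, txg_555, txg_563, txg_564, txg_565, txg_579, txg_580, txg_598, txg_599, txg_605, txg_619, txg_620, txg_638, txg_639, txg_646, txg_647, txg_662, txg_663, txg_682, txg_683, txg_689, txg_704, txg_705, txg_724, txg_737, txg_738, txg_749, txg_750, txg_774, txg_775, txg_780, txg_794, txg_795, txg_815, txg_816]
  rcases eq_or_lt_of_le h2 with h | h2
  · subst h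
    ((try push_cast); (repeat first | rw [if_pos (by linarith)] | rw [if_neg (by linarith)] | erw [if_pos (by linarith)] | erw [if_neg (by linarith)]); (try push_cast); (try ring1))
  · ((try push_cast); (repeat first | rw [if_pos (by linarith)] | rw [if_neg (by linarith)] | erw [if_pos (by linarith)] | erw [if_neg (by linarith)]); (try push_cast); (try ring1))
theorem txl6 {p c x : ℝ} (h1 : -11 / 25 < p) (h2 : p ≤ -43 / 100) : txg.v p c x = dt104.val (fun p x => kcg.v p x) p c x := by
  symm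
  refine (DT.val_le (by simp only [Cn.rt_v, Cn.ng_v]; push_cast; linarith)).trans ?_
  refine (DT.val_le (by simp only [Cn.rt_v, Cn.ng_v]; push_cast; linarith)).trans ?_
  refine (DT.val_gt (by simp only [Cn.rt_v, Cn.ng_v]; push_cast; linarith)).trans ?_
  refine (DT.val_gt (by simp only [Cn.rt_v, Cn.ng_v]; push_cast; linarith)).trans ?_
  refine (DT.val_le (by simp only [Cn.rt_v, Cn.ng_v]; push_cast; linarith)).trans ?_
  simp only [dt40, DT.val, cloR, sw40, sl40, sv40, txg, txg_4, txg_6, txg_26, txg_29, txg_32, txg_35, txg_38, txg_54, txg_57, txg_58, txg_76, txg_77, txg_85, txg_101, txg_102, txg_120, txg_121, txg_130, txg_133, txg_147, txg_148, txg_167, txg_168, txg_176, txg_189, txg_190, txg_207, txg_208, txg_218, txg_221, txg_224, txg_237, txg_238, txg_255, txg_256, txg_264, txg_278, txg_279, txg_297, txg_298, txg_307, txg_310, txg_322, txg_323, txg_339, txg_340, txg_348, txg_360, txg_361, txg_380, txg_381, txg_390, txg_392, txg_395, txg_397, txg_412, txg_413, txg_431, txg_432,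 txg_438, txg_452, txg_453, txg_470, txg_471, txg_478, txg_479, txg_493, txg_494, txg_512, txg_513, txg_519, txg_533, txg_534, txg_554, txg_555, txg_563, txg_564, txg_565, txg_579, txg_580, txg_598, txg_599, txg_605, txg_619, txg_620, txg_638, txg_639, txg_646, txg_647, txg_662, txg_663, txg_682, txg_683, txg_689, txg_704, txg_705, txg_724, txg_737, txg_738, txg_749, txg_750, txg_774, txg_775, txg_780, txg_794, txg_795, txg_815, txg_816]
  rcases eq_or_lt_of_le h2 with h | h2
  · subst h
    ((try push_cast); (repeat first | rw [if_pos (by linarith)] | rw [if_neg (by linarith)] | erw [if_pos (by linarith)] | erw [if_neg (by linarith)]); (try push_cast); (try ring1))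
  · ((try push_cast); (repeat first | rw [if_pos (by linarith)] | rw [if_neg (by linarith)] | erw [if_pos (by linarith)] | erw [if_neg (by linarith)]); (try push_cast); (try ring1))
theorem txl7 {p c x : ℝ} (h1 : -43 / 100 < p) (h2 : p ≤ -21 / 50) : txg.v p c x = dt104.val (fun p x => kcg.v p x) p c x := by
  symm
  refine (DT.val_le (by simp only [Cn.rt_v, Cn.ng_v]; push_cast; linarith)).trans ?_
  refine (DT.val_le (by simp only [Cn.rt_v, Cn.ng_v]; push_cast; linarith)).trans ?_
  refine (DT.val_gt (by simp only [Cn.rt_v, Cn.ng_v]; push_cast; linarith)).trans ?_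
  refine (DT.val_gt (by simp only [Cn.rt_v, Cn.ng_v]; push_cast; linarith)).trans ?_
  refine (DT.val_gt (by simp only [Cn.rt_v, Cn.ng_v]; push_cast; linarith)).trans ?_
  refine (DT.val_le (by simp only [Cn.rt_v, Cn.ng_v]; push_cast; linarith)).trans ?_
  simp only [dt41, DT.val, cloR, sw41, sl41, sv41, txg, txg_4, txg_6, txg_26, txg_29, txg_32, txg_35, txg_38, txg_54, txg_57, txg_58, txg_76, txg_77, txg_85, txg_101, txg_102, txg_120, txg_121, txg_130, txg_133, txg_147, txg_148, txg_167, txg_168, txg_176, txg_189, txg_190, txg_207, txg_208, txg_218, txg_221, txg_224, txg_237, txg_238, txg_255, txg_256, txg_264, txg_278, txg_279, txg_297, txg_298, txg_307, txg_310, txg_322, txg_323, txg_339, txg_340, txg_348, txg_360, txg_361, txg_380, txg_381, txg_390, txg_392, txg_395, txg_397, txg_412, txg_413, txg_431, txg_432, txg_438, txg_452, txg_453, txg_470, txg_471, txg_478, txg_479, txg_493, txg_494, txg_512, txg_513, txg_519, txg_533, txg_534, txg_554, txg_555, txg_563, txg_564, txg_565,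 txg_579, txg_580, txg_598, txg_599, txg_605, txg_619, txg_620, txg_638, txg_639, txg_646, txg_647, txg_662, txg_663, txg_682, txg_683, txg_689, txg_704, txg_705, txg_724, txg_737, txg_738, txg_749, txg_750, txg_774, txg_775, txg_780, txg_794, txg_795, txg_815, txg_816]
  rcases eq_or_lt_of_le h2 with h | h2
  · subst h
    ((try push_cast); (repeat first | rw [if_pos (by linarith)] | rw [if_neg (by linarith)] | erw [if_pos (by linarith)] | erw [if_neg (by linarith)]); (try push_cast); (try ring1))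
  · ((try push_cast); (repeat first | rw [if_pos (by linarith)] | rw [if_neg (by linarith)] | erw [if_pos (by linarith)] | erw [if_neg (by linarith)]); (try push_cast); (try ring1))
theorem txl8 {p c x : ℝ} (h1 : -21 / 50 < p) (h2 : p ≤ -41 / 100) : txg.v p c x = dt104.val (fun p x => kcg.v p x) p c x := by
  symm
  refine (DT.val_le (by simp only [Cn.rt_v, Cn.ng_v]; push_cast; linarith)).trans ?_
  refine (DT.val_le (by simp only [Cn.rt_v, Cn.ng_v]; push_cast; linarith)).trans ?_
  refine (DT.val_gt (by simp only [Cn.rt_v, Cn.ng_v]; push_cast; linarith)).trans ?_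
  refine (DT.val_gt (by simp only [Cn.rt_v, Cn.ng_v]; push_cast; linarith)).trans ?_
  refine (DT.val_gt (by simp only [Cn.rt_v, Cn.ng_v]; push_cast; linarith)).trans ?_
  refine (DT.val_gt (by simp only [Cn.rt_v, Cn.ng_v]; push_cast; linarith)).trans ?_
  simp only [dt42, DT.val, cloR, sw42, sl42, sv42, txg, txg_4, txg_6, txg_26, txg_29, txg_32, txg_35, txg_38, txg_54, txg_57, txg_58, txg_76, txg_77, txg_85, txg_101, txg_102, txg_120, txg_121, txg_130, txg_133, txg_147, txg_148, txg_167, txg_168, txg_176, txg_189, txg_190, txg_207, txg_208, txg_218, txg_221, txg_224, txg_237, txg_238, txg_255, txg_256, txg_264, txg_278, txg_279, txg_297, txg_298, txg_307, txg_310, txg_322, txg_323, txg_339, txg_340, txg_348, txg_360, txg_361, txg_380, txg_381, txg_390, txg_392, txg_395, txg_397, txg_412, txg_413, txg_431, txg_432, txg_438, txg_452, txg_453, txg_470, txg_471, txg_478, txg_479, txg_493, txg_494, txg_512, txg_513, txg_519, txg_533, txg_534, txg_554, txg_555, txg_563, txg_564, txg_565,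 txg_579, txg_580, txg_598, txg_599, txg_605, txg_619, txg_620, txg_638, txg_639, txg_646, txg_647, txg_662, txg_663, txg_682, txg_683, txg_689, txg_704, txg_705, txg_724, txg_737, txg_738, txg_749, txg_750, txg_774, txg_775, txg_780, txg_794, txg_795, txg_815, txg_816]
  rcases eq_or_lt_of_le h2 with h | h2
  · subst h
    ((try push_cast); (repeat first | rw [if_pos (by linarith)] | rw [if_neg (by linarith)] | erw [if_pos (by linarith)] | erw [if_neg (by linarith)]); (try push_cast); (try ring1))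
  · ((try push_cast); (repeat first | rw [if_pos (by linarith)] | rw [if_neg (by linarith)] | erw [if_pos (by linarith)] | erw [if_neg (by linarith)]); (try push_cast); (try ring1))
theorem txl9 {p c x : ℝ} (h1 : -41 / 100 < p) (h2 : p ≤ -2 / 5) : txg.v p c x = dt104.val (fun p x => kcg.v p x) p c x := by
  symm
  refine (DT.val_le (by simp only [Cn.rt_v, Cn.ng_v]; push_cast; linarith)).trans ?_
  refine (DT.val_gt (by simp only [Cn.rt_v, Cn.ng_v]; push_cast; linarith)).trans ?_
  refine (DT.val_le (by simp only [Cn.rt_v, Cn.ng_v]; push_cast; linarith)).trans ?_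
  refine (DT.val_le (by simp only [Cn.rt_v, Cn.ng_v]; push_cast; linarith)).trans ?_
  refine (DT.val_le (by simp only [Cn.rt_v, Cn.ng_v]; push_cast; linarith)).trans ?_
  simp only [dt43, DT.val, cloR, sw43, sl43, sv43, txg, txg_4, txg_6, txg_26, txg_29, txg_32, txg_35, txg_38, txg_54, txg_57, txg_58, txg_76, txg_77, txg_85, txg_101, txg_102, txg_120, txg_121, txg_130, txg_133, txg_147, txg_148, txg_167, txg_168, txg_176, txg_189, txg_190, txg_207, txg_208, txg_218, txg_221, txg_224, txg_237, txg_238, txg_255, txg_256, txg_264, txg_278, txg_279, txg_297, txg_298, txg_307, txg_310, txg_322, txg_323, txg_339, txg_340, txg_348, txg_360, txg_361, txg_380, txg_381, txg_390, txg_392, txg_395, txg_397, txg_412, txg_413, txg_431, txg_432, txg_438, txg_452, txg_453, txg_470, txg_471, txg_478, txg_479, txg_493, txg_494, txg_512, txg_513, txg_519, txg_533, txg_534, txg_554, txg_555, txg_563, txg_564, txg_565, txg_579, txg_580, txg_598, txg_599, txg_605, txg_619, txg_620, txg_638, txg_639,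 txg_646, txg_647, txg_662, txg_663, txg_682, txg_683, txg_689, txg_704, txg_705, txg_724, txg_737, txg_738, txg_749, txg_750, txg_774, txg_775, txg_780, txg_794, txg_795, txg_815, txg_816]
  rcases eq_or_lt_of_le h2 with h | h2
  · subst h
    ((try push_cast); (repeat first | rw [if_pos (by linarith)] | rw [if_neg (by linarith)] | erw [if_pos (by linarith)] | erw [if_neg (by linarith)]); (try push_cast); (try ring1))
  · ((try push_cast); (repeat first | rw [if_pos (by linarith)] | rw [if_neg (by linarith)] | erw [if_pos (by linarith)] | erw [if_neg (by linarith)]); (try push_cast); (try ring1))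
theorem txl10 {p c x : ℝ} (h1 : -2 / 5 < p) (h2 : p ≤ -39 / 100) : txg.v p c x = dt104.val (fun p x => kcg.v p x) p c x := by
  symm
  refine (DT.val_le (by simp only [Cn.rt_v, Cn.ng_v]; push_cast; linarith)).trans ?_
  refine (DT.val_gt (by simp only [Cn.rt_v, Cn.ng_v]; push_cast; linarith)).trans ?_
  refine (DT.val_le (by simp only [Cn.rt_v, Cn.ng_v]; push_cast; linarith)).trans ?_
  refine (DT.val_le (by simp only [Cn.rt_v, Cn.ng_v]; push_cast; linarith)).trans ?_
  refine (DT.val_gt (by simp only [Cn.rt_v, Cn.ng_v]; push_cast; linarith)).trans ?_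
  simp only [dt44, DT.val, cloR, sw44, sl44, sv44, txg, txg_4, txg_6, txg_26, txg_29, txg_32, txg_35, txg_38, txg_54, txg_57, txg_58, txg_76, txg_77, txg_85, txg_101, txg_102, txg_120, txg_121, txg_130, txg_133, txg_147, txg_148, txg_167, txg_168, txg_176, txg_189, txg_190, txg_207, txg_208, txg_218, txg_221, txg_224, txg_237, txg_238, txg_255, txg_256, txg_264, txg_278, txg_279, txg_297, txg_298, txg_307, txg_310, txg_322, txg_323, txg_339, txg_340, txg_348, txg_360, txg_361, txg_380, txg_381, txg_390, txg_392, txg_395, txg_397, txg_412, txg_413, txg_431, txg_432, txg_438, txg_452, txg_453, txg_470, txg_471, txg_478, txg_479, txg_493, txg_494, txg_512, txg_513, txg_519, txg_533, txg_534, txg_554, txg_555, txg_563, txg_564, txg_565, txg_579, txg_580, txg_598, txg_599, txg_605, txg_619, txg_620, txg_638, txg_639, txg_646, txg_647, txg_662, txg_663, txg_682, txg_683, txg_689, txg_704, txg_705, txg_724, txg_737, txg_738, txg_749, txg_750, txg_774, txg_775, txg_780, txg_794, txg_795,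 txg_815, txg_816]
  rcases eq_or_lt_of_le h2 with h | h2
  · subst h
    ((try push_cast); (repeat first | rw [if_pos (by linarith)] | rw [if_neg (by linarith)] | erw [if_pos (by linarith)] | erw [if_neg (by linarith)]); (try push_cast); (try ring1))
  · ((try push_cast); (repeat first | rw [if_pos (by linarith)] | rw [if_neg (by linarith)] | erw [if_pos (by linarith)] | erw [if_neg (by linarith)]); (try push_cast); (try ring1))
theorem txl11 {p c x : ℝ} (h1 : -39 / 100 < p) (h2 : p ≤ -3 / 8) : txg.v p c x = dt104.val (fun p x => kcg.v p x) p c x := by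
  symm
  refine (DT.val_le (by simp only [Cn.rt_v, Cn.ng_v]; push_cast; linarith)).trans ?_
  refine (DT.val_gt (by simp only [Cn.rt_v, Cn.ng_v]; push_cast; linarith)).trans ?_
  refine (DT.val_le (by simp only [Cn.rt_v, Cn.ng_v]; push_cast; linarith)).trans ?_
  refine (DT.val_gt (by simp only [Cn.rt_v, Cn.ng_v]; push_cast; linarith)).trans ?_
  refine (DT.val_le (by simp only [Cn.rt_v, Cn.ng_v]; push_cast; linarith)).trans ?_
  simp only [dt45, DT.val, cloR, sw45, sl45, sv45, txg, txg_4, txg_6, txg_26, txg_29, txg_32, txg_35, txg_38, txg_54, txg_57, txg_58, txg_76, txg_77, txg_85, txg_101, txg_102, txg_120, txg_121, txg_130, txg_133, txg_147, txg_148, txg_167, txg_168, txg_176, txg_189, txg_190, txg_207, txg_208, txg_218, txg_221, txg_224, txg_237, txg_238, txg_255, txg_256, txg_264, txg_278, txg_279, txg_297, txg_298, txg_307, txg_310, txg_322, txg_323, txg_339, txg_340, txg_348, txg_360, txg_361, txg_380, txg_381, txg_390, txg_392, txg_395, txg_397, txg_412, txg_413, txg_431,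 txg_432, txg_438, txg_452, txg_453, txg_470, txg_471, txg_478, txg_479, txg_493, txg_494, txg_512, txg_513, txg_519, txg_533, txg_534, txg_554, txg_555, txg_563, txg_564, txg_565, txg_579, txg_580, txg_598, txg_599, txg_605, txg_619, txg_620, txg_638, txg_639, txg_646, txg_647, txg_662, txg_663, txg_682, txg_683, txg_689, txg_704, txg_705, txg_724, txg_737, txg_738, txg_749, txg_750, txg_774, txg_775, txg_780, txg_794, txg_795, txg_815, txg_816]
  rcases eq_or_lt_of_le h2 with h | h2
  · subst h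
    ((try push_cast); (repeat first | rw [if_pos (by linarith)] | rw [if_neg (by linarith)] | erw [if_pos (by linarith)] | erw [if_neg (by linarith)]); (try push_cast); (try ring1))
  · ((try push_cast); (repeat first | rw [if_pos (by linarith)] | rw [if_neg (by linarith)] | erw [if_pos (by linarith)] | erw [if_neg (by linarith)]); (try push_cast); (try ring1))
theorem txl12 {p c x : ℝ} (h1 : -3 / 8 < p) (h2 : p ≤ -7 / 20) : txg.v p c x = dt104.val (fun p x => kcg.v p x) p c x := by
  symm
  refine (DT.val_le (by simp only [Cn.rt_v, Cn.ng_v]; push_cast; linarith)).trans ?_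
  refine (DT.val_gt (by simp only [Cn.rt_v, Cn.ng_v]; push_cast; linarith)).trans ?_
  refine (DT.val_le (by simp only [Cn.rt_v, Cn.ng_v]; push_cast; linarith)).trans ?_
  refine (DT.val_gt (by simp only [Cn.rt_v, Cn.ng_v]; push_cast; linarith)).trans ?_
  refine (DT.val_gt (by simp only [Cn.rt_v, Cn.ng_v]; push_cast; linarith)).trans ?_
  simp only [dt46, DT.val, cloR, sw46, sl46, sv46, txg, txg_4, txg_6, txg_26, txg_29, txg_32, txg_35, txg_38, txg_54, txg_57, txg_58, txg_76, txg_77, txg_85, txg_101, txg_102, txg_120, txg_121, txg_130, txg_133, txg_147, txg_148, txg_167, txg_168, txg_176, txg_189, txg_190, txg_207, txg_208, txg_218, txg_221, txg_224, txg_237, txg_238, txg_255, txg_256, txg_264, txg_278, txg_279, txg_297, txg_298, txg_307, txg_310, txg_322, txg_323, txg_339, txg_340, txg_348, txg_360, txg_361, txg_380, txg_381, txg_390, txg_392, txg_395, txg_397, txg_412, txg_413, txg_431, txg_432, txg_438, txg_452, txg_453, txg_470, txg_471, txg_478, txg_479, txg_493, txg_494,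 txg_512, txg_513, txg_519, txg_533, txg_534, txg_554, txg_555, txg_563, txg_564, txg_565, txg_579, txg_580, txg_598, txg_599, txg_605, txg_619, txg_620, txg_638, txg_639, txg_646, txg_647, txg_662, txg_663, txg_682, txg_683, txg_689, txg_704, txg_705, txg_724, txg_737, txg_738, txg_749, txg_750, txg_774, txg_775, txg_780, txg_794, txg_795, txg_815, txg_816]
  rcases eq_or_lt_of_le h2 with h | h2
  · subst h
    ((try push_cast); (repeat first | rw [if_pos (by linarith)] | rw [if_neg (by linarith)] | erw [if_pos (by linarith)] | erw [if_neg (by linarith)]); (try push_cast); (try ring1))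
  · ((try push_cast); (repeat first | rw [if_pos (by linarith)] | rw [if_neg (by linarith)] | erw [if_pos (by linarith)] | erw [if_neg (by linarith)]); (try push_cast); (try ring1))
theorem txl13 {p c x : ℝ} (h1 : -7 / 20 < p) (h2 : p ≤ -3 / 10) : txg.v p c x = dt104.val (fun p x => kcg.v p x) p c x := by
  symm
  refine (DT.val_le (by simp only [Cn.rt_v, Cn.ng_v]; push_cast; linarith)).trans ?_
  refine (DT.val_gt (by simp only [Cn.rt_v, Cn.ng_v]; push_cast; linarith)).trans ?_
  refine (DT.val_gt (by simp only [Cn.rt_v, Cn.ng_v]; push_cast; linarith)).trans ?_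
  refine (DT.val_le (by simp only [Cn.rt_v, Cn.ng_v]; push_cast; linarith)).trans ?_
  refine (DT.val_le (by simp only [Cn.rt_v, Cn.ng_v]; push_cast; linarith)).trans ?_
  simp only [dt47, DT.val, cloR, sw47, sl47, sv47, txg, txg_4, txg_6, txg_26, txg_29, txg_32, txg_35, txg_38, txg_54, txg_57, txg_58, txg_76, txg_77, txg_85, txg_101, txg_102, txg_120, txg_121, txg_130, txg_133, txg_147, txg_148, txg_167, txg_168, txg_176, txg_189, txg_190, txg_207, txg_208, txg_218, txg_221, txg_224, txg_237, txg_238, txg_255, txg_256, txg_264, txg_278, txg_279, txg_297, txg_298, txg_307, txg_310, txg_322, txg_323, txg_339, txg_340, txg_348, txg_360, txg_361, txg_380, txg_381, txg_390, txg_392, txg_395, txg_397, txg_412, txg_413, txg_431, txg_432, txg_438, txg_452, txg_453, txg_470, txg_471, txg_478, txg_479, txg_493, txg_494, txg_512, txg_513, txg_519, txg_533, txg_534, txg_554, txg_555, txg_563, txg_564, txg_565, txg_579, txg_580, txg_598, txg_599, txg_605, txg_619, txg_620, txg_638, txg_639,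 txg_646, txg_647, txg_662, txg_663, txg_682, txg_683, txg_689, txg_704, txg_705, txg_724, txg_737, txg_738, txg_749, txg_750, txg_774, txg_775, txg_780, txg_794, txg_795, txg_815, txg_816]
  rcases eq_or_lt_of_le h2 with h | h2
  · subst h
    ((try push_cast); (repeat first | rw [if_pos (by linarith)] | rw [if_neg (by linarith)] | erw [if_pos (by linarith)] | erw [if_neg (by linarith)]); (try push_cast); (try ring1))
  · ((try push_cast); (repeat first | rw [if_pos (by linarith)] | rw [if_neg (by linarith)] | erw [if_pos (by linarith)] | erw [if_neg (by linarith)]); (try push_cast); (try ring1))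
theorem txl14 {p c x : ℝ} (h1 : -3 / 10 < p) (h2 : p ≤ -1 / 4) : txg.v p c x = dt104.val (fun p x => kcg.v p x) p c x := by
  symm
  refine (DT.val_le (by simp only [Cn.rt_v, Cn.ng_v]; push_cast; linarith)).trans ?_
  refine (DT.val_gt (by simp only [Cn.rt_v, Cn.ng_v]; push_cast; linarith)).trans ?_
  refine (DT.val_gt (by simp only [Cn.rt_v, Cn.ng_v]; push_cast; linarith)).trans ?_
  refine (DT.val_le (by simp only [Cn.rt_v, Cn.ng_v]; push_cast; linarith)).trans ?_
  refine (DT.val_gt (by simp only [Cn.rt_v, Cn.ng_v]; push_cast; linarith)).trans ?_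
  simp only [dt48, DT.val, cloR, sw48, sl48, sv48, txg, txg_4, txg_6, txg_26, txg_29, txg_32, txg_35, txg_38, txg_54, txg_57, txg_58, txg_76, txg_77, txg_85, txg_101, txg_102, txg_120, txg_121, txg_130, txg_133, txg_147, txg_148, txg_167, txg_168, txg_176, txg_189, txg_190, txg_207, txg_208, txg_218, txg_221, txg_224, txg_237, txg_238, txg_255, txg_256, txg_264, txg_278, txg_279, txg_297, txg_298, txg_307, txg_310, txg_322, txg_323, txg_339, txg_340, txg_348, txg_360, txg_361, txg_380, txg_381, txg_390, txg_392, txg_395, txg_397, txg_412, txg_413, txg_431, txg_432, txg_438, txg_452, txg_453, txg_470, txg_471, txg_478, txg_479, txg_493, txg_494, txg_512, txg_513, txg_519, txg_533, txg_534, txg_554, txg_555, txg_563, txg_564, txg_565, txg_579, txg_580, txg_598, txg_599, txg_605, txg_619, txg_620, txg_638, txg_639, txg_646, txg_647, txg_662, txg_663, txg_682, txg_683, txg_689, txg_704, txg_705, txg_724, txg_737, txg_738, txg_749, txg_750, txg_774, txg_775, txg_780, txg_794, txg_795,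 txg_815, txg_816]
  rcases eq_or_lt_of_le h2 with h | h2
  · subst h
    ((try push_cast); (repeat first | rw [if_pos (by linarith)] | rw [if_neg (by linarith)] | erw [if_pos (by linarith)] | erw [if_neg (by linarith)]); (try push_cast); (try ring1))
  · ((try push_cast); (repeat first | rw [if_pos (by linarith)] | rw [if_neg (by linarith)] | erw [if_pos (by linarith)] | erw [if_neg (by linarith)]); (try push_cast); (try ring1))
theorem txl15 {p c x : ℝ} (h1 : -1 / 4 < p) (h2 : p ≤ -1 / 5) : txg.v p c x = dt104.val (fun p x => kcg.v p x) p c x := by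
  symm
  refine (DT.val_le (by simp only [Cn.rt_v, Cn.ng_v]; push_cast; linarith)).trans ?_
  refine (DT.val_gt (by simp only [Cn.rt_v, Cn.ng_v]; push_cast; linarith)).trans ?_
  refine (DT.val_gt (by simp only [Cn.rt_v, Cn.ng_v]; push_cast; linarith)).trans ?_
  refine (DT.val_gt (by simp only [Cn.rt_v, Cn.ng_v]; push_cast; linarith)).trans ?_
  refine (DT.val_le (by simp only [Cn.rt_v, Cn.ng_v]; push_cast; linarith)).trans ?_
  simp only [dt49, DT.val, cloR, sw49, sl49, sv49, txg, txg_4, txg_6, txg_26, txg_29, txg_32, txg_35, txg_38, txg_54, txg_57, txg_58, txg_76, txg_77, txg_85, txg_101, txg_102, txg_120, txg_121, txg_130, txg_133, txg_147, txg_148, txg_167, txg_168, txg_176, txg_189, txg_190, txg_207, txg_208, txg_218, txg_221, txg_224, txg_237, txg_238, txg_255, txg_256, txg_264, txg_278, txg_279, txg_297, txg_298, txg_307, txg_310, txg_322, txg_323, txg_339, txg_340, txg_348, txg_360, txg_361, txg_380, txg_381, txg_390, txg_392, txg_395, txg_397, txg_412, txg_413, txg_431,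 txg_432, txg_438, txg_452, txg_453, txg_470, txg_471, txg_478, txg_479, txg_493, txg_494, txg_512, txg_513, txg_519, txg_533, txg_534, txg_554, txg_555, txg_563, txg_564, txg_565, txg_579, txg_580, txg_598, txg_599, txg_605, txg_619, txg_620, txg_638, txg_639, txg_646, txg_647, txg_662, txg_663, txg_682, txg_683, txg_689, txg_704, txg_705, txg_724, txg_737, txg_738, txg_749, txg_750, txg_774, txg_775, txg_780, txg_794, txg_795, txg_815, txg_816]
  rcases eq_or_lt_of_le h2 with h | h2
  · subst h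
    ((try push_cast); (repeat first | rw [if_pos (by linarith)] | rw [if_neg (by linarith)] | erw [if_pos (by linarith)] | erw [if_neg (by linarith)]); (try push_cast); (try ring1))
  · ((try push_cast); (repeat first | rw [if_pos (by linarith)] | rw [if_neg (by linarith)] | erw [if_pos (by linarith)] | erw [if_neg (by linarith)]); (try push_cast); (try ring1))
theorem txl16 {p c x : ℝ} (h1 : -1 / 5 < p) (h2 : p ≤ -3 / 20) : txg.v p c x = dt104.val (fun p x => kcg.v p x) p c x := by
  symm
  refine (DT.val_le (by simp only [Cn.rt_v, Cn.ng_v]; push_cast; linarith)).trans ?_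
  refine (DT.val_gt (by simp only [Cn.rt_v, Cn.ng_v]; push_cast; linarith)).trans ?_
  refine (DT.val_gt (by simp only [Cn.rt_v, Cn.ng_v]; push_cast; linarith)).trans ?_
  refine (DT.val_gt (by simp only [Cn.rt_v, Cn.ng_v]; push_cast; linarith)).trans ?_
  refine (DT.val_gt (by simp only [Cn.rt_v, Cn.ng_v]; push_cast; linarith)).trans ?_
  refine (DT.val_le (by simp only [Cn.rt_v, Cn.ng_v]; push_cast; linarith)).trans ?_
  simp only [dt50, DT.val, cloR, sw50, sl50, sv50, txg, txg_4, txg_6, txg_26, txg_29, txg_32, txg_35, txg_38, txg_54, txg_57, txg_58, txg_76, txg_77, txg_85, txg_101, txg_102, txg_120, txg_121, txg_130, txg_133, txg_147, txg_148, txg_167, txg_168, txg_176, txg_189, txg_190, txg_207, txg_208, txg_218, txg_221, txg_224, txg_237, txg_238, txg_255, txg_256, txg_264, txg_278, txg_279, txg_297, txg_298, txg_307, txg_310, txg_322, txg_323, txg_339, txg_340, txg_348, txg_360, txg_361, txg_380, txg_381, txg_390, txg_392, txg_395, txg_397, txg_412, txg_413, txg_431, txg_432,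 txg_438, txg_452, txg_453, txg_470, txg_471, txg_478, txg_479, txg_493, txg_494, txg_512, txg_513, txg_519, txg_533, txg_534, txg_554, txg_555, txg_563, txg_564, txg_565, txg_579, txg_580, txg_598, txg_599, txg_605, txg_619, txg_620, txg_638, txg_639, txg_646, txg_647, txg_662, txg_663, txg_682, txg_683, txg_689, txg_704, txg_705, txg_724, txg_737, txg_738, txg_749, txg_750, txg_774, txg_775, txg_780, txg_794, txg_795, txg_815, txg_816]
  rcases eq_or_lt_of_le h2 with h | h2
  · subst h
    ((try push_cast); (repeat first | rw [if_pos (by linarith)] | rw [if_neg (by linarith)] | erw [if_pos (by linarith)] | erw [if_neg (by linarith)]); (try push_cast); (try ring1))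
  · ((try push_cast); (repeat first | rw [if_pos (by linarith)] | rw [if_neg (by linarith)] | erw [if_pos (by linarith)] | erw [if_neg (by linarith)]); (try push_cast); (try ring1))
theorem txl17 {p c x : ℝ} (h1 : -3 / 20 < p) (h2 : p ≤ -1 / 10) : txg.v p c x = dt104.val (fun p x => kcg.v p x) p c x := by
  symm
  refine (DT.val_le (by simp only [Cn.rt_v, Cn.ng_v]; push_cast; linarith)).trans ?_
  refine (DT.val_gt (by simp only [Cn.rt_v, Cn.ng_v]; push_cast; linarith)).trans ?_
  refine (DT.val_gt (by simp only [Cn.rt_v, Cn.ng_v]; push_cast; linarith)).trans ?_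
  refine (DT.val_gt (by simp only [Cn.rt_v, Cn.ng_v]; push_cast; linarith)).trans ?_
  refine (DT.val_gt (by simp only [Cn.rt_v, Cn.ng_v]; push_cast; linarith)).trans ?_
  refine (DT.val_gt (by simp only [Cn.rt_v, Cn.ng_v]; push_cast; linarith)).trans ?_
  simp only [dt51, DT.val, cloR, sw51, sl51, sv51, txg, txg_4, txg_6, txg_26, txg_29, txg_32, txg_35, txg_38, txg_54, txg_57, txg_58, txg_76, txg_77, txg_85, txg_101, txg_102, txg_120, txg_121, txg_130, txg_133, txg_147, txg_148, txg_167, txg_168, txg_176, txg_189, txg_190, txg_207, txg_208, txg_218, txg_221, txg_224, txg_237, txg_238, txg_255, txg_256, txg_264, txg_278, txg_279, txg_297, txg_298, txg_307, txg_310, txg_322, txg_323, txg_339, txg_340, txg_348, txg_360, txg_361, txg_380, txg_381, txg_390, txg_392, txg_395, txg_397, txg_412, txg_413, txg_431, txg_432, txg_438, txg_452, txg_453, txg_470, txg_471, txg_478, txg_479, txg_493, txg_494, txg_512, txg_513, txg_519, txg_533, txg_534, txg_554, txg_555, txg_563, txg_564, txg_565,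 txg_579, txg_580, txg_598, txg_599, txg_605, txg_619, txg_620, txg_638, txg_639, txg_646, txg_647, txg_662, txg_663, txg_682, txg_683, txg_689, txg_704, txg_705, txg_724, txg_737, txg_738, txg_749, txg_750, txg_774, txg_775, txg_780, txg_794, txg_795, txg_815, txg_816]
  rcases eq_or_lt_of_le h2 with h | h2
  · subst h
    ((try push_cast); (repeat first | rw [if_pos (by linarith)] | rw [if_neg (by linarith)] | erw [if_pos (by linarith)] | erw [if_neg (by linarith)]); (try push_cast); (try ring1))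
  · ((try push_cast); (repeat first | rw [if_pos (by linarith)] | rw [if_neg (by linarith)] | erw [if_pos (by linarith)] | erw [if_neg (by linarith)]); (try push_cast); (try ring1))
theorem txl18 {p c x : ℝ} (h1 : -1 / 10 < p) (h2 : p ≤ 1 / 10) : txg.v p c x = dt104.val (fun p x => kcg.v p x) p c x := by
  symm
  refine (DT.val_gt (by simp only [Cn.rt_v, Cn.ng_v]; push_cast; linarith)).trans ?_
  refine (DT.val_le (by simp only [Cn.rt_v, Cn.ng_v]; push_cast; linarith)).trans ?_
  refine (DT.val_le (by simp only [Cn.rt_v, Cn.ng_v]; push_cast; linarith)).trans ?_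
  refine (DT.val_le (by simp only [Cn.rt_v, Cn.ng_v]; push_cast; linarith)).trans ?_
  refine (DT.val_le (by simp only [Cn.rt_v, Cn.ng_v]; push_cast; linarith)).trans ?_
  simp only [dt52, DT.val, cloR, sw52, sl52, sv52, txg, txg_4, txg_6, txg_26, txg_29, txg_32, txg_35, txg_38, txg_54, txg_57, txg_58, txg_76, txg_77, txg_85, txg_101, txg_102, txg_120, txg_121, txg_130, txg_133, txg_147, txg_148, txg_167, txg_168, txg_176, txg_189, txg_190, txg_207, txg_208, txg_218, txg_221, txg_224, txg_237, txg_238, txg_255, txg_256, txg_264, txg_278, txg_279, txg_297, txg_298, txg_307, txg_310, txg_322, txg_323, txg_339, txg_340, txg_348, txg_360, txg_361, txg_380, txg_381, txg_390, txg_392, txg_395, txg_397, txg_412, txg_413, txg_431, txg_432, txg_438, txg_452, txg_453, txg_470, txg_471, txg_478, txg_479, txg_493, txg_494, txg_512, txg_513, txg_519, txg_533, txg_534, txg_554, txg_555, txg_563, txg_564, txg_565, txg_579, txg_580, txg_598, txg_599, txg_605, txg_619, txg_620, txg_638, txg_639,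 txg_646, txg_647, txg_662, txg_663, txg_682, txg_683, txg_689, txg_704, txg_705, txg_724, txg_737, txg_738, txg_749, txg_750, txg_774, txg_775, txg_780, txg_794, txg_795, txg_815, txg_816]
  rcases eq_or_lt_of_le h2 with h | h2
  · subst h
    ((try push_cast); (repeat first | rw [if_pos (by linarith)] | rw [if_neg (by linarith)] | erw [if_pos (by linarith)] | erw [if_neg (by linarith)]); (try push_cast); (try ring1))
  · ((try push_cast); (repeat first | rw [if_pos (by linarith)] | rw [if_neg (by linarith)] | erw [if_pos (by linarith)] | erw [if_neg (by linarith)]); (try push_cast); (try ring1))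
theorem txl19 {p c x : ℝ} (h1 : 1 / 10 < p) (h2 : p ≤ 3 / 20) : txg.v p c x = dt104.val (fun p x => kcg.v p x) p c x := by
  symm
  refine (DT.val_gt (by simp only [Cn.rt_v, Cn.ng_v]; push_cast; linarith)).trans ?_
  refine (DT.val_le (by simp only [Cn.rt_v, Cn.ng_v]; push_cast; linarith)).trans ?_
  refine (DT.val_le (by simp only [Cn.rt_v, Cn.ng_v]; push_cast; linarith)).trans ?_
  refine (DT.val_le (by simp only [Cn.rt_v, Cn.ng_v]; push_cast; linarith)).trans ?_
  refine (DT.val_gt (by simp only [Cn.rt_v, Cn.ng_v]; push_cast; linarith)).trans ?_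
  simp only [dt53, DT.val, cloR, sw53, sl53, sv53, txg, txg_4, txg_6, txg_26, txg_29, txg_32, txg_35, txg_38, txg_54, txg_57, txg_58, txg_76, txg_77, txg_85, txg_101, txg_102, txg_120, txg_121, txg_130, txg_133, txg_147, txg_148, txg_167, txg_168, txg_176, txg_189, txg_190, txg_207, txg_208, txg_218, txg_221, txg_224, txg_237, txg_238, txg_255, txg_256, txg_264, txg_278, txg_279, txg_297, txg_298, txg_307, txg_310, txg_322, txg_323, txg_339, txg_340, txg_348, txg_360, txg_361, txg_380, txg_381, txg_390, txg_392, txg_395, txg_397, txg_412, txg_413, txg_431, txg_432, txg_438, txg_452, txg_453, txg_470, txg_471, txg_478, txg_479, txg_493, txg_494, txg_512, txg_513, txg_519, txg_533, txg_534, txg_554, txg_555, txg_563, txg_564, txg_565, txg_579, txg_580, txg_598, txg_599, txg_605, txg_619, txg_620, txg_638, txg_639, txg_646, txg_647, txg_662, txg_663, txg_682, txg_683, txg_689, txg_704, txg_705, txg_724, txg_737, txg_738, txg_749, txg_750, txg_774, txg_775, txg_780, txg_794, txg_795,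 txg_815, txg_816]
  rcases eq_or_lt_of_le h2 with h | h2
  · subst h
    ((try push_cast); (repeat first | rw [if_pos (by linarith)] | rw [if_neg (by linarith)] | erw [if_pos (by linarith)] | erw [if_neg (by linarith)]); (try push_cast); (try ring1))
  · ((try push_cast); (repeat first | rw [if_pos (by linarith)] | rw [if_neg (by linarith)] | erw [if_pos (by linarith)] | erw [if_neg (by linarith)]); (try push_cast); (try ring1))
theorem txl20 {p c x : ℝ} (h1 : 3 / 20 < p) (h2 : p ≤ 1 / 5) : txg.v p c x = dt104.val (fun p x => kcg.v p x) p c x := by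
  symm
  refine (DT.val_gt (by simp only [Cn.rt_v, Cn.ng_v]; push_cast; linarith)).trans ?_
  refine (DT.val_le (by simp only [Cn.rt_v, Cn.ng_v]; push_cast; linarith)).trans ?_
  refine (DT.val_le (by simp only [Cn.rt_v, Cn.ng_v]; push_cast; linarith)).trans ?_
  refine (DT.val_gt (by simp only [Cn.rt_v, Cn.ng_v]; push_cast; linarith)).trans ?_
  refine (DT.val_le (by simp only [Cn.rt_v, Cn.ng_v]; push_cast; linarith)).trans ?_
  simp only [dt54, DT.val, cloR, sw54, sl54, sv54, txg, txg_4, txg_6, txg_26, txg_29, txg_32, txg_35, txg_38, txg_54, txg_57, txg_58, txg_76, txg_77, txg_85, txg_101, txg_102, txg_120, txg_121, txg_130, txg_133, txg_147, txg_148, txg_167, txg_168, txg_176, txg_189, txg_190, txg_207, txg_208, txg_218, txg_221, txg_224, txg_237, txg_238, txg_255, txg_256, txg_264, txg_278, txg_279, txg_297, txg_298, txg_307, txg_310, txg_322, txg_323, txg_339, txg_340, txg_348, txg_360, txg_361, txg_380, txg_381, txg_390, txg_392, txg_395, txg_397, txg_412, txg_413, txg_431,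 txg_432, txg_438, txg_452, txg_453, txg_470, txg_471, txg_478, txg_479, txg_493, txg_494, txg_512, txg_513, txg_519, txg_533, txg_534, txg_554, txg_555, txg_563, txg_564, txg_565, txg_579, txg_580, txg_598, txg_599, txg_605, txg_619, txg_620, txg_638, txg_639, txg_646, txg_647, txg_662, txg_663, txg_682, txg_683, txg_689, txg_704, txg_705, txg_724, txg_737, txg_738, txg_749, txg_750, txg_774, txg_775, txg_780, txg_794, txg_795, txg_815, txg_816]
  rcases eq_or_lt_of_le h2 with h | h2
  · subst h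
    ((try push_cast); (repeat first | rw [if_pos (by linarith)] | rw [if_neg (by linarith)] | erw [if_pos (by linarith)] | erw [if_neg (by linarith)]); (try push_cast); (try ring1))
  · ((try push_cast); (repeat first | rw [if_pos (by linarith)] | rw [if_neg (by linarith)] | erw [if_pos (by linarith)] | erw [if_neg (by linarith)]); (try push_cast); (try ring1))
theorem txl21 {p c x : ℝ} (h1 : 1 / 5 < p) (h2 : p ≤ 1 / 4) : txg.v p c x = dt104.val (fun p x => kcg.v p x) p c x := by
  symm
  refine (DT.val_gt (by simp only [Cn.rt_v, Cn.ng_v]; push_cast; linarith)).trans ?_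
  refine (DT.val_le (by simp only [Cn.rt_v, Cn.ng_v]; push_cast; linarith)).trans ?_
  refine (DT.val_le (by simp only [Cn.rt_v, Cn.ng_v]; push_cast; linarith)).trans ?_
  refine (DT.val_gt (by simp only [Cn.rt_v, Cn.ng_v]; push_cast; linarith)).trans ?_
  refine (DT.val_gt (by simp only [Cn.rt_v, Cn.ng_v]; push_cast; linarith)).trans ?_
  simp only [dt55, DT.val, cloR, sw55, sl55, sv55, txg, txg_4, txg_6, txg_26, txg_29, txg_32, txg_35, txg_38, txg_54, txg_57, txg_58, txg_76, txg_77, txg_85, txg_101, txg_102, txg_120, txg_121, txg_130, txg_133, txg_147, txg_148, txg_167, txg_168, txg_176, txg_189, txg_190, txg_207, txg_208, txg_218, txg_221, txg_224, txg_237, txg_238, txg_255, txg_256, txg_264, txg_278, txg_279, txg_297, txg_298, txg_307, txg_310, txg_322, txg_323, txg_339, txg_340, txg_348, txg_360, txg_361, txg_380, txg_381, txg_390, txg_392, txg_395, txg_397, txg_412, txg_413, txg_431, txg_432, txg_438, txg_452, txg_453, txg_470, txg_471, txg_478, txg_479, txg_493, txg_494,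 txg_512, txg_513, txg_519, txg_533, txg_534, txg_554, txg_555, txg_563, txg_564, txg_565, txg_579, txg_580, txg_598, txg_599, txg_605, txg_619, txg_620, txg_638, txg_639, txg_646, txg_647, txg_662, txg_663, txg_682, txg_683, txg_689, txg_704, txg_705, txg_724, txg_737, txg_738, txg_749, txg_750, txg_774, txg_775, txg_780, txg_794, txg_795, txg_815, txg_816]
  rcases eq_or_lt_of_le h2 with h | h2
  · subst h
    ((try push_cast); (repeat first | rw [if_pos (by linarith)] | rw [if_neg (by linarith)] | erw [if_pos (by linarith)] | erw [if_neg (by linarith)]); (try push_cast); (try ring1))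
  · ((try push_cast); (repeat first | rw [if_pos (by linarith)] | rw [if_neg (by linarith)] | erw [if_pos (by linarith)] | erw [if_neg (by linarith)]); (try push_cast); (try ring1))
theorem txl22 {p c x : ℝ} (h1 : 1 / 4 < p) (h2 : p ≤ 3 / 10) : txg.v p c x = dt104.val (fun p x => kcg.v p x) p c x := by
  symm
  refine (DT.val_gt (by simp only [Cn.rt_v, Cn.ng_v]; push_cast; linarith)).trans ?_
  refine (DT.val_le (by simp only [Cn.rt_v, Cn.ng_v]; push_cast; linarith)).trans ?_
  refine (DT.val_gt (by simp only [Cn.rt_v, Cn.ng_v]; push_cast; linarith)).trans ?_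
  refine (DT.val_le (by simp only [Cn.rt_v, Cn.ng_v]; push_cast; linarith)).trans ?_
  refine (DT.val_le (by simp only [Cn.rt_v, Cn.ng_v]; push_cast; linarith)).trans ?_
  simp only [dt56, DT.val, cloR, sw56, sl56, sv56, txg, txg_4, txg_6, txg_26, txg_29, txg_32, txg_35, txg_38, txg_54, txg_57, txg_58, txg_76, txg_77, txg_85, txg_101, txg_102, txg_120, txg_121, txg_130, txg_133, txg_147, txg_148, txg_167, txg_168, txg_176, txg_189, txg_190, txg_207, txg_208, txg_218, txg_221, txg_224, txg_237, txg_238, txg_255, txg_256, txg_264, txg_278, txg_279, txg_297, txg_298, txg_307, txg_310, txg_322, txg_323, txg_339, txg_340, txg_348, txg_360, txg_361, txg_380, txg_381, txg_390, txg_392, txg_395, txg_397, txg_412, txg_413, txg_431, txg_432, txg_438, txg_452, txg_453, txg_470, txg_471, txg_478, txg_479, txg_493, txg_494, txg_512, txg_513, txg_519, txg_533, txg_534, txg_554, txg_555, txg_563, txg_564, txg_565, txg_579, txg_580, txg_598, txg_599, txg_605, txg_619, txg_620, txg_638, txg_639,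 txg_646, txg_647, txg_662, txg_663, txg_682, txg_683, txg_689, txg_704, txg_705, txg_724, txg_737, txg_738, txg_749, txg_750, txg_774, txg_775, txg_780, txg_794, txg_795, txg_815, txg_816]
  rcases eq_or_lt_of_le h2 with h | h2
  · subst h
    ((try push_cast); (repeat first | rw [if_pos (by linarith)] | rw [if_neg (by linarith)] | erw [if_pos (by linarith)] | erw [if_neg (by linarith)]); (try push_cast); (try ring1))
  · ((try push_cast); (repeat first | rw [if_pos (by linarith)] | rw [if_neg (by linarith)] | erw [if_pos (by linarith)] | erw [if_neg (by linarith)]); (try push_cast); (try ring1))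
theorem txl23 {p c x : ℝ} (h1 : 3 / 10 < p) (h2 : p ≤ 7 / 20) : txg.v p c x = dt104.val (fun p x => kcg.v p x) p c x := by
  symm
  refine (DT.val_gt (by simp only [Cn.rt_v, Cn.ng_v]; push_cast; linarith)).trans ?_
  refine (DT.val_le (by simp only [Cn.rt_v, Cn.ng_v]; push_cast; linarith)).trans ?_
  refine (DT.val_gt (by simp only [Cn.rt_v, Cn.ng_v]; push_cast; linarith)).trans ?_
  refine (DT.val_le (by simp only [Cn.rt_v, Cn.ng_v]; push_cast; linarith)).trans ?_
  refine (DT.val_gt (by simp only [Cn.rt_v, Cn.ng_v]; push_cast; linarith)).trans ?_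
  simp only [dt57, DT.val, cloR, sw57, sl57, sv57, txg, txg_4, txg_6, txg_26, txg_29, txg_32, txg_35, txg_38, txg_54, txg_57, txg_58, txg_76, txg_77, txg_85, txg_101, txg_102, txg_120, txg_121, txg_130, txg_133, txg_147, txg_148, txg_167, txg_168, txg_176, txg_189, txg_190, txg_207, txg_208, txg_218, txg_221, txg_224, txg_237, txg_238, txg_255, txg_256, txg_264, txg_278, txg_279, txg_297, txg_298, txg_307, txg_310, txg_322, txg_323, txg_339, txg_340, txg_348, txg_360, txg_361, txg_380, txg_381, txg_390, txg_392, txg_395, txg_397, txg_412, txg_413, txg_431, txg_432, txg_438, txg_452, txg_453, txg_470, txg_471, txg_478, txg_479, txg_493, txg_494, txg_512, txg_513, txg_519, txg_533, txg_534, txg_554, txg_555, txg_563, txg_564, txg_565, txg_579, txg_580, txg_598, txg_599, txg_605, txg_619, txg_620, txg_638, txg_639, txg_646, txg_647, txg_662, txg_663, txg_682, txg_683, txg_689, txg_704, txg_705, txg_724, txg_737, txg_738, txg_749, txg_750, txg_774, txg_775, txg_780, txg_794, txg_795,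 txg_815, txg_816]
  rcases eq_or_lt_of_le h2 with h | h2
  · subst h
    ((try push_cast); (repeat first | rw [if_pos (by linarith)] | rw [if_neg (by linarith)] | erw [if_pos (by linarith)] | erw [if_neg (by linarith)]); (try push_cast); (try ring1))
  · ((try push_cast); (repeat first | rw [if_pos (by linarith)] | rw [if_neg (by linarith)] | erw [if_pos (by linarith)] | erw [if_neg (by linarith)]); (try push_cast); (try ring1))
theorem txl24 {p c x : ℝ} (h1 : 7 / 20 < p) (h2 : p ≤ 3 / 8) : txg.v p c x = dt104.val (fun p x => kcg.v p x) p c x := by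
  symm
  refine (DT.val_gt (by simp only [Cn.rt_v, Cn.ng_v]; push_cast; linarith)).trans ?_
  refine (DT.val_le (by simp only [Cn.rt_v, Cn.ng_v]; push_cast; linarith)).trans ?_
  refine (DT.val_gt (by simp only [Cn.rt_v, Cn.ng_v]; push_cast; linarith)).trans ?_
  refine (DT.val_gt (by simp only [Cn.rt_v, Cn.ng_v]; push_cast; linarith)).trans ?_
  refine (DT.val_le (by simp only [Cn.rt_v, Cn.ng_v]; push_cast; linarith)).trans ?_
  simp only [dt58, DT.val, cloR, sw58, sl58, sv58, txg, txg_4, txg_6, txg_26, txg_29, txg_32, txg_35, txg_38, txg_54, txg_57, txg_58, txg_76, txg_77, txg_85, txg_101, txg_102, txg_120, txg_121, txg_130, txg_133, txg_147, txg_148, txg_167, txg_168, txg_176, txg_189, txg_190, txg_207, txg_208, txg_218, txg_221, txg_224, txg_237, txg_238, txg_255, txg_256, txg_264, txg_278, txg_279, txg_297, txg_298, txg_307, txg_310, txg_322, txg_323, txg_339, txg_340, txg_348, txg_360, txg_361, txg_380, txg_381, txg_390, txg_392, txg_395, txg_397, txg_412, txg_413, txg_431,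 txg_432, txg_438, txg_452, txg_453, txg_470, txg_471, txg_478, txg_479, txg_493, txg_494, txg_512, txg_513, txg_519, txg_533, txg_534, txg_554, txg_555, txg_563, txg_564, txg_565, txg_579, txg_580, txg_598, txg_599, txg_605, txg_619, txg_620, txg_638, txg_639, txg_646, txg_647, txg_662, txg_663, txg_682, txg_683, txg_689, txg_704, txg_705, txg_724, txg_737, txg_738, txg_749, txg_750, txg_774, txg_775, txg_780, txg_794, txg_795, txg_815, txg_816]
  rcases eq_or_lt_of_le h2 with h | h2
  · subst h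
    ((try push_cast); (repeat first | rw [if_pos (by linarith)] | rw [if_neg (by linarith)] | erw [if_pos (by linarith)] | erw [if_neg (by linarith)]); (try push_cast); (try ring1))
  · ((try push_cast); (repeat first | rw [if_pos (by linarith)] | rw [if_neg (by linarith)] | erw [if_pos (by linarith)] | erw [if_neg (by linarith)]); (try push_cast); (try ring1))
theorem txl25 {p c x : ℝ} (h1 : 3 / 8 < p) (h2 : p ≤ 39 / 100) : txg.v p c x = dt104.val (fun p x => kcg.v p x) p c x := by
  symm
  refine (DT.val_gt (by simp only [Cn.rt_v, Cn.ng_v]; push_cast; linarith)).trans ?_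
  refine (DT.val_le (by simp only [Cn.rt_v, Cn.ng_v]; push_cast; linarith)).trans ?_
  refine (DT.val_gt (by simp only [Cn.rt_v, Cn.ng_v]; push_cast; linarith)).trans ?_
  refine (DT.val_gt (by simp only [Cn.rt_v, Cn.ng_v]; push_cast; linarith)).trans ?_
  refine (DT.val_gt (by simp only [Cn.rt_v, Cn.ng_v]; push_cast; linarith)).trans ?_
  refine (DT.val_le (by simp only [Cn.rt_v, Cn.ng_v]; push_cast; linarith)).trans ?_
  simp only [dt59, DT.val, cloR, sw59, sl59, sv59, txg, txg_4, txg_6, txg_26, txg_29, txg_32, txg_35, txg_38, txg_54, txg_57, txg_58, txg_76, txg_77, txg_85, txg_101, txg_102, txg_120, txg_121, txg_130, txg_133, txg_147, txg_148, txg_167, txg_168, txg_176, txg_189, txg_190, txg_207, txg_208, txg_218, txg_221, txg_224, txg_237, txg_238, txg_255, txg_256, txg_264, txg_278, txg_279, txg_297, txg_298, txg_307, txg_310, txg_322, txg_323, txg_339, txg_340, txg_348, txg_360, txg_361, txg_380, txg_381, txg_390, txg_392, txg_395, txg_397, txg_412, txg_413, txg_431, txg_432,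 txg_438, txg_452, txg_453, txg_470, txg_471, txg_478, txg_479, txg_493, txg_494, txg_512, txg_513, txg_519, txg_533, txg_534, txg_554, txg_555, txg_563, txg_564, txg_565, txg_579, txg_580, txg_598, txg_599, txg_605, txg_619, txg_620, txg_638, txg_639, txg_646, txg_647, txg_662, txg_663, txg_682, txg_683, txg_689, txg_704, txg_705, txg_724, txg_737, txg_738, txg_749, txg_750, txg_774, txg_775, txg_780, txg_794, txg_795, txg_815, txg_816]
  rcases eq_or_lt_of_le h2 with h | h2
  · subst h
    ((try push_cast); (repeat first | rw [if_pos (by linarith)] | rw [if_neg (by linarith)] | erw [if_pos (by linarith)] | erw [if_neg (by linarith)]); (try push_cast); (try ring1))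
  · ((try push_cast); (repeat first | rw [if_pos (by linarith)] | rw [if_neg (by linarith)] | erw [if_pos (by linarith)] | erw [if_neg (by linarith)]); (try push_cast); (try ring1))
theorem txl26 {p c x : ℝ} (h1 : 39 / 100 < p) (h2 : p ≤ 2 / 5) : txg.v p c x = dt104.val (fun p x => kcg.v p x) p c x := by
  symm
  refine (DT.val_gt (by simp only [Cn.rt_v, Cn.ng_v]; push_cast; linarith)).trans ?_
  refine (DT.val_le (by simp only [Cn.rt_v, Cn.ng_v]; push_cast; linarith)).trans ?_
  refine (DT.val_gt (by simp only [Cn.rt_v, Cn.ng_v]; push_cast; linarith)).trans ?_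
  refine (DT.val_gt (by simp only [Cn.rt_v, Cn.ng_v]; push_cast; linarith)).trans ?_
  refine (DT.val_gt (by simp only [Cn.rt_v, Cn.ng_v]; push_cast; linarith)).trans ?_
  refine (DT.val_gt (by simp only [Cn.rt_v, Cn.ng_v]; push_cast; linarith)).trans ?_
  simp only [dt60, DT.val, cloR, sw60, sl60, sv60, txg, txg_4, txg_6, txg_26, txg_29, txg_32, txg_35, txg_38, txg_54, txg_57, txg_58, txg_76, txg_77, txg_85, txg_101, txg_102, txg_120, txg_121, txg_130, txg_133, txg_147, txg_148, txg_167, txg_168, txg_176, txg_189, txg_190, txg_207, txg_208, txg_218, txg_221, txg_224, txg_237, txg_238, txg_255, txg_256, txg_264, txg_278, txg_279, txg_297, txg_298, txg_307, txg_310, txg_322, txg_323, txg_339, txg_340, txg_348, txg_360, txg_361, txg_380, txg_381, txg_390, txg_392, txg_395, txg_397, txg_412, txg_413, txg_431, txg_432, txg_438, txg_452, txg_453, txg_470, txg_471, txg_478, txg_479, txg_493, txg_494, txg_512, txg_513, txg_519, txg_533, txg_534, txg_554, txg_555, txg_563, txg_564, txg_565,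 txg_579, txg_580, txg_598, txg_599, txg_605, txg_619, txg_620, txg_638, txg_639, txg_646, txg_647, txg_662, txg_663, txg_682, txg_683, txg_689, txg_704, txg_705, txg_724, txg_737, txg_738, txg_749, txg_750, txg_774, txg_775, txg_780, txg_794, txg_795, txg_815, txg_816]
  rcases eq_or_lt_of_le h2 with h | h2
  · subst h
    ((try push_cast); (repeat first | rw [if_pos (by linarith)] | rw [if_neg (by linarith)] | erw [if_pos (by linarith)] | erw [if_neg (by linarith)]); (try push_cast); (try ring1))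
  · ((try push_cast); (repeat first | rw [if_pos (by linarith)] | rw [if_neg (by linarith)] | erw [if_pos (by linarith)] | erw [if_neg (by linarith)]); (try push_cast); (try ring1))
theorem txl27 {p c x : ℝ} (h1 : 2 / 5 < p) (h2 : p ≤ 41 / 100) : txg.v p c x = dt104.val (fun p x => kcg.v p x) p c x := by
  symm
  refine (DT.val_gt (by simp only [Cn.rt_v, Cn.ng_v]; push_cast; linarith)).trans ?_
  refine (DT.val_gt (by simp only [Cn.rt_v, Cn.ng_v]; push_cast; linarith)).trans ?_
  refine (DT.val_le (by simp only [Cn.rt_v, Cn.ng_v]; push_cast; linarith)).trans ?_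
  refine (DT.val_le (by simp only [Cn.rt_v, Cn.ng_v]; push_cast; linarith)).trans ?_
  refine (DT.val_le (by simp only [Cn.rt_v, Cn.ng_v]; push_cast; linarith)).trans ?_
  simp only [dt61, DT.val, cloR, sw61, sl61, sv61, txg, txg_4, txg_6, txg_26, txg_29, txg_32, txg_35, txg_38, txg_54, txg_57, txg_58, txg_76, txg_77, txg_85, txg_101, txg_102, txg_120, txg_121, txg_130, txg_133, txg_147, txg_148, txg_167, txg_168, txg_176, txg_189, txg_190, txg_207, txg_208, txg_218, txg_221, txg_224, txg_237, txg_238, txg_255, txg_256, txg_264, txg_278, txg_279, txg_297, txg_298, txg_307, txg_310, txg_322, txg_323, txg_339, txg_340, txg_348, txg_360, txg_361, txg_380, txg_381, txg_390, txg_392, txg_395, txg_397, txg_412, txg_413, txg_431, txg_432, txg_438, txg_452, txg_453, txg_470, txg_471, txg_478, txg_479, txg_493, txg_494, txg_512, txg_513, txg_519, txg_533, txg_534, txg_554, txg_555, txg_563, txg_564, txg_565, txg_579, txg_580, txg_598, txg_599, txg_605, txg_619, txg_620, txg_638, txg_639,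 txg_646, txg_647, txg_662, txg_663, txg_682, txg_683, txg_689, txg_704, txg_705, txg_724, txg_737, txg_738, txg_749, txg_750, txg_774, txg_775, txg_780, txg_794, txg_795, txg_815, txg_816]
  rcases eq_or_lt_of_le h2 with h | h2
  · subst h
    ((try push_cast); (repeat first | rw [if_pos (by linarith)] | rw [if_neg (by linarith)] | erw [if_pos (by linarith)] | erw [if_neg (by linarith)]); (try push_cast); (try ring1))
  · ((try push_cast); (repeat first | rw [if_pos (by linarith)] | rw [if_neg (by linarith)] | erw [if_pos (by linarith)] | erw [if_neg (by linarith)]); (try push_cast); (try ring1))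
theorem txl28 {p c x : ℝ} (h1 : 41 / 100 < p) (h2 : p ≤ 21 / 50) : txg.v p c x = dt104.val (fun p x => kcg.v p x) p c x := by
  symm
  refine (DT.val_gt (by simp only [Cn.rt_v, Cn.ng_v]; push_cast; linarith)).trans ?_
  refine (DT.val_gt (by simp only [Cn.rt_v, Cn.ng_v]; push_cast; linarith)).trans ?_
  refine (DT.val_le (by simp only [Cn.rt_v, Cn.ng_v]; push_cast; linarith)).trans ?_
  refine (DT.val_le (by simp only [Cn.rt_v, Cn.ng_v]; push_cast; linarith)).trans ?_
  refine (DT.val_gt (by simp only [Cn.rt_v, Cn.ng_v]; push_cast; linarith)).trans ?_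
  simp only [dt62, DT.val, cloR, sw62, sl62, sv62, txg, txg_4, txg_6, txg_26, txg_29, txg_32, txg_35, txg_38, txg_54, txg_57, txg_58, txg_76, txg_77, txg_85, txg_101, txg_102, txg_120, txg_121, txg_130, txg_133, txg_147, txg_148, txg_167, txg_168, txg_176, txg_189, txg_190, txg_207, txg_208, txg_218, txg_221, txg_224, txg_237, txg_238, txg_255, txg_256, txg_264, txg_278, txg_279, txg_297, txg_298, txg_307, txg_310, txg_322, txg_323, txg_339, txg_340, txg_348, txg_360, txg_361, txg_380, txg_381, txg_390, txg_392, txg_395, txg_397, txg_412, txg_413, txg_431, txg_432, txg_438, txg_452, txg_453, txg_470, txg_471, txg_478, txg_479, txg_493, txg_494, txg_512, txg_513, txg_519, txg_533, txg_534, txg_554, txg_555, txg_563, txg_564, txg_565, txg_579, txg_580, txg_598, txg_599, txg_605, txg_619, txg_620, txg_638, txg_639, txg_646, txg_647, txg_662, txg_663, txg_682, txg_683, txg_689, txg_704, txg_705, txg_724, txg_737, txg_738, txg_749, txg_750, txg_774, txg_775, txg_780, txg_794, txg_795,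 txg_815, txg_816]
  rcases eq_or_lt_of_le h2 with h | h2
  · subst h
    ((try push_cast); (repeat first | rw [if_pos (by linarith)] | rw [if_neg (by linarith)] | erw [if_pos (by linarith)] | erw [if_neg (by linarith)]); (try push_cast); (try ring1))
  · ((try push_cast); (repeat first | rw [if_pos (by linarith)] | rw [if_neg (by linarith)] | erw [if_pos (by linarith)] | erw [if_neg (by linarith)]); (try push_cast); (try ring1))
theorem txl29 {p c x : ℝ} (h1 : 21 / 50 < p) (h2 : p ≤ 43 / 100) : txg.v p c x = dt104.val (fun p x => kcg.v p x) p c x := by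
  symm
  refine (DT.val_gt (by simp only [Cn.rt_v, Cn.ng_v]; push_cast; linarith)).trans ?_
  refine (DT.val_gt (by simp only [Cn.rt_v, Cn.ng_v]; push_cast; linarith)).trans ?_
  refine (DT.val_le (by simp only [Cn.rt_v, Cn.ng_v]; push_cast; linarith)).trans ?_
  refine (DT.val_gt (by simp only [Cn.rt_v, Cn.ng_v]; push_cast; linarith)).trans ?_
  refine (DT.val_le (by simp only [Cn.rt_v, Cn.ng_v]; push_cast; linarith)).trans ?_
  simp only [dt63, DT.val, cloR, sw63, sl63, sv63, txg, txg_4, txg_6, txg_26, txg_29, txg_32, txg_35, txg_38, txg_54, txg_57, txg_58, txg_76, txg_77, txg_85, txg_101, txg_102, txg_120, txg_121, txg_130, txg_133, txg_147, txg_148, txg_167, txg_168, txg_176, txg_189, txg_190, txg_207, txg_208, txg_218, txg_221, txg_224, txg_237, txg_238, txg_255, txg_256, txg_264, txg_278, txg_279, txg_297, txg_298, txg_307, txg_310, txg_322, txg_323, txg_339, txg_340, txg_348, txg_360, txg_361, txg_380, txg_381, txg_390, txg_392, txg_395, txg_397, txg_412, txg_413, txg_431,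 txg_432, txg_438, txg_452, txg_453, txg_470, txg_471, txg_478, txg_479, txg_493, txg_494, txg_512, txg_513, txg_519, txg_533, txg_534, txg_554, txg_555, txg_563, txg_564, txg_565, txg_579, txg_580, txg_598, txg_599, txg_605, txg_619, txg_620, txg_638, txg_639, txg_646, txg_647, txg_662, txg_663, txg_682, txg_683, txg_689, txg_704, txg_705, txg_724, txg_737, txg_738, txg_749, txg_750, txg_774, txg_775, txg_780, txg_794, txg_795, txg_815, txg_816]
  rcases eq_or_lt_of_le h2 with h | h2
  · subst h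
    ((try push_cast); (repeat first | rw [if_pos (by linarith)] | rw [if_neg (by linarith)] | erw [if_pos (by linarith)] | erw [if_neg (by linarith)]); (try push_cast); (try ring1))
  · ((try push_cast); (repeat first | rw [if_pos (by linarith)] | rw [if_neg (by linarith)] | erw [if_pos (by linarith)] | erw [if_neg (by linarith)]); (try push_cast); (try ring1))
theorem txl30 {p c x : ℝ} (h1 : 43 / 100 < p) (h2 : p ≤ 11 / 25) : txg.v p c x = dt104.val (fun p x => kcg.v p x) p c x := by
  symm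
  refine (DT.val_gt (by simp only [Cn.rt_v, Cn.ng_v]; push_cast; linarith)).trans ?_
  refine (DT.val_gt (by simp only [Cn.rt_v, Cn.ng_v]; push_cast; linarith)).trans ?_
  refine (DT.val_le (by simp only [Cn.rt_v, Cn.ng_v]; push_cast; linarith)).trans ?_
  refine (DT.val_gt (by simp only [Cn.rt_v, Cn.ng_v]; push_cast; linarith)).trans ?_
  refine (DT.val_gt (by simp only [Cn.rt_v, Cn.ng_v]; push_cast; linarith)).trans ?_
  simp only [dt64, DT.val, cloR, sw64, sl64, sv64, txg, txg_4, txg_6, txg_26, txg_29, txg_32, txg_35, txg_38, txg_54, txg_57, txg_58, txg_76, txg_77, txg_85, txg_101, txg_102, txg_120, txg_121, txg_130, txg_133, txg_147, txg_148, txg_167, txg_168, txg_176, txg_189, txg_190, txg_207, txg_208, txg_218, txg_221, txg_224, txg_237, txg_238, txg_255, txg_256, txg_264, txg_278, txg_279, txg_297, txg_298, txg_307, txg_310, txg_322, txg_323, txg_339, txg_340, txg_348, txg_360, txg_361, txg_380, txg_381, txg_390, txg_392, txg_395, txg_397, txg_412, txg_413, txg_431, txg_432,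 txg_438, txg_452, txg_453, txg_470, txg_471, txg_478, txg_479, txg_493, txg_494, txg_512, txg_513, txg_519, txg_533, txg_534, txg_554, txg_555, txg_563, txg_564, txg_565, txg_579, txg_580, txg_598, txg_599, txg_605, txg_619, txg_620, txg_638, txg_639, txg_646, txg_647, txg_662, txg_663, txg_682, txg_683, txg_689, txg_704, txg_705, txg_724, txg_737, txg_738, txg_749, txg_750, txg_774, txg_775, txg_780, txg_794, txg_795, txg_815, txg_816]
  rcases eq_or_lt_of_le h2 with h | h2
  · subst h
    ((try push_cast); (repeat first | rw [if_pos (by linarith)] | rw [if_neg (by linarith)] | erw [if_pos (by linarith)] | erw [if_neg (by linarith)]); (try push_cast); (try ring1))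
  · ((try push_cast); (repeat first | rw [if_pos (by linarith)] | rw [if_neg (by linarith)] | erw [if_pos (by linarith)] | erw [if_neg (by linarith)]); (try push_cast); (try ring1))
theorem txl31 {p c x : ℝ} (h1 : 11 / 25 < p) (h2 : p ≤ 781 / 1742) : txg.v p c x = dt104.val (fun p x => kcg.v p x) p c x := by
  symm
  refine (DT.val_gt (by simp only [Cn.rt_v, Cn.ng_v]; push_cast; linarith)).trans ?_
  refine (DT.val_gt (by simp only [Cn.rt_v, Cn.ng_v]; push_cast; linarith)).trans ?_
  refine (DT.val_gt (by simp only [Cn.rt_v, Cn.ng_v]; push_cast; linarith)).trans ?_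
  refine (DT.val_le (by simp only [Cn.rt_v, Cn.ng_v]; push_cast; linarith)).trans ?_
  refine (DT.val_le (by simp only [Cn.rt_v, Cn.ng_v]; push_cast; linarith)).trans ?_
  simp only [dt65, DT.val, cloR, sw65, sw65_2, sl65, sl65_2, sv65, sv65_2, txg, txg_4, txg_6, txg_26, txg_29, txg_32, txg_35, txg_38, txg_54, txg_57, txg_58, txg_76, txg_77, txg_85, txg_101, txg_102, txg_120, txg_121, txg_130, txg_133, txg_147, txg_148, txg_167, txg_168, txg_176, txg_189, txg_190, txg_207, txg_208, txg_218, txg_221, txg_224, txg_237, txg_238, txg_255, txg_256, txg_264, txg_278, txg_279, txg_297, txg_298, txg_307, txg_310, txg_322, txg_323, txg_339, txg_340, txg_348, txg_360, txg_361, txg_380, txg_381, txg_390, txg_392, txg_395, txg_397, txg_412, txg_413, txg_431, txg_432, txg_438, txg_452, txg_453, txg_470, txg_471, txg_478, txg_479, txg_493, txg_494, txg_512, txg_513, txg_519, txg_533, txg_534, txg_554, txg_555, txg_563, txg_564, txg_565, txg_579, txg_580, txg_598, txg_599, txg_605, txg_619, txg_620,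 txg_638, txg_639, txg_646, txg_647, txg_662, txg_663, txg_682, txg_683, txg_689, txg_704, txg_705, txg_724, txg_737, txg_738, txg_749, txg_750, txg_774, txg_775, txg_780, txg_794, txg_795, txg_815, txg_816]
  rcases eq_or_lt_of_le h2 with h | h2
  · subst h
    ((try push_cast); (repeat first | rw [if_pos (by linarith)] | rw [if_neg (by linarith)] | erw [if_pos (by linarith)] | erw [if_neg (by linarith)]); (try push_cast); (try ring1))
  · ((try push_cast); (repeat first | rw [if_pos (by linarith)] | rw [if_neg (by linarith)] | erw [if_pos (by linarith)] | erw [if_neg (by linarith)]); (try push_cast); (try ring1))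
theorem txl32 {p c x : ℝ} (h1 : 781 / 1742 < p) (h2 : p ≤ 541 / 1141) : txg.v p c x = dt104.val (fun p x => kcg.v p x) p c x := by
  symm
  refine (DT.val_gt (by simp only [Cn.rt_v, Cn.ng_v]; push_cast; linarith)).trans ?_
  refine (DT.val_gt (by simp only [Cn.rt_v, Cn.ng_v]; push_cast; linarith)).trans ?_
  refine (DT.val_gt (by simp only [Cn.rt_v, Cn.ng_v]; push_cast; linarith)).trans ?_
  refine (DT.val_le (by simp only [Cn.rt_v, Cn.ng_v]; push_cast; linarith)).trans ?_
  refine (DT.val_gt (by simp only [Cn.rt_v, Cn.ng_v]; push_cast; linarith)).trans ?_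
  simp only [dt66, DT.val, cloR, txg, txg_4, txg_6, txg_26, txg_29, txg_32, txg_35, txg_38, txg_54, txg_57, txg_58, txg_76, txg_77, txg_85, txg_101, txg_102, txg_120, txg_121, txg_130, txg_133, txg_147, txg_148, txg_167, txg_168, txg_176, txg_189, txg_190, txg_207, txg_208, txg_218, txg_221, txg_224, txg_237, txg_238, txg_255, txg_256, txg_264, txg_278, txg_279, txg_297, txg_298, txg_307, txg_310, txg_322, txg_323, txg_339, txg_340, txg_348, txg_360, txg_361, txg_380, txg_381, txg_390, txg_392, txg_395, txg_397, txg_412, txg_413, txg_431, txg_432, txg_438, txg_452, txg_453, txg_470, txg_471, txg_478, txg_479, txg_493, txg_494, txg_512, txg_513, txg_519, txg_533, txg_534, txg_554, txg_555, txg_563, txg_564, txg_565, txg_579, txg_580, txg_598, txg_599, txg_605, txg_619, txg_620, txg_638, txg_639, txg_646, txg_647, txg_662, txg_663, txg_682, txg_683, txg_689, txg_704, txg_705, txg_724, txg_737, txg_738, txg_749, txg_750, txg_774, txg_775, txg_780, txg_794, txg_795, txg_815, txg_816]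
  rcases eq_or_lt_of_le h2 with h | h2
  · subst h
    ((try push_cast); (repeat first | rw [if_pos (by linarith)] | rw [if_neg (by linarith)] | erw [if_pos (by linarith)] | erw [if_neg (by linarith)]); (try push_cast); (try ring1))
  · ((try push_cast); (repeat first | rw [if_pos (by linarith)] | rw [if_neg (by linarith)] | erw [if_pos (by linarith)] | erw [if_neg (by linarith)]); (try push_cast); (try ring1))
theorem txl33 {p c x : ℝ} (h1 : 541 / 1141 < p) (h2 : p ≤ 481 / 1000) : txg.v p c x = dt104.val (fun p x => kcg.v p x) p c x := by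
  symm
  refine (DT.val_gt (by simp only [Cn.rt_v, Cn.ng_v]; push_cast; linarith)).trans ?_
  refine (DT.val_gt (by simp only [Cn.rt_v, Cn.ng_v]; push_cast; linarith)).trans ?_
  refine (DT.val_gt (by simp only [Cn.rt_v, Cn.ng_v]; push_cast; linarith)).trans ?_
  refine (DT.val_gt (by simp only [Cn.rt_v, Cn.ng_v]; push_cast; linarith)).trans ?_
  refine (DT.val_le (by simp only [Cn.rt_v, Cn.ng_v]; push_cast; linarith)).trans ?_
  simp only [dt67, DT.val, cloR, sw67, sw67_2, sl67, sl67_2, sv67, sv67_2, txg, txg_4, txg_6, txg_26, txg_29, txg_32, txg_35, txg_38, txg_54, txg_57, txg_58, txg_76, txg_77, txg_85, txg_101, txg_102, txg_120, txg_121, txg_130, txg_133, txg_147, txg_148, txg_167, txg_168, txg_176, txg_189, txg_190, txg_207, txg_208, txg_218, txg_221, txg_224, txg_237, txg_238, txg_255, txg_256, txg_264, txg_278, txg_279, txg_297, txg_298, txg_307, txg_310, txg_322, txg_323, txg_339, txg_340, txg_348, txg_360, txg_361, txg_380, txg_381, txg_390, txg_392, txg_395, txg_397,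 txg_412, txg_413, txg_431, txg_432, txg_438, txg_452, txg_453, txg_470, txg_471, txg_478, txg_479, txg_493, txg_494, txg_512, txg_513, txg_519, txg_533, txg_534, txg_554, txg_555, txg_563, txg_564, txg_565, txg_579, txg_580, txg_598, txg_599, txg_605, txg_619, txg_620, txg_638, txg_639, txg_646, txg_647, txg_662, txg_663, txg_682, txg_683, txg_689, txg_704, txg_705, txg_724, txg_737, txg_738, txg_749, txg_750, txg_774, txg_775, txg_780, txg_794, txg_795, txg_815, txg_816]
  rcases eq_or_lt_of_le h2 with h | h2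
  · subst h
    ((try push_cast); (repeat first | rw [if_pos (by linarith)] | rw [if_neg (by linarith)] | erw [if_pos (by linarith)] | erw [if_neg (by linarith)]); (try push_cast); (try ring1))
  · ((try push_cast); (repeat first | rw [if_pos (by linarith)] | rw [if_neg (by linarith)] | erw [if_pos (by linarith)] | erw [if_neg (by linarith)]); (try push_cast); (try ring1))
theorem txl34 {p c x : ℝ} (h1 : 481 / 1000 < p) (h2 : p ≤ 61 / 125) : txg.v p c x = dt104.val (fun p x => kcg.v p x) p c x := by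
  symm
  refine (DT.val_gt (by simp only [Cn.rt_v, Cn.ng_v]; push_cast; linarith)).trans ?_
  refine (DT.val_gt (by simp only [Cn.rt_v, Cn.ng_v]; push_cast; linarith)).trans ?_
  refine (DT.val_gt (by simp only [Cn.rt_v, Cn.ng_v]; push_cast; linarith)).trans ?_
  refine (DT.val_gt (by simp only [Cn.rt_v, Cn.ng_v]; push_cast; linarith)).trans ?_
  refine (DT.val_gt (by simp only [Cn.rt_v, Cn.ng_v]; push_cast; linarith)).trans ?_
  refine (DT.val_le (by simp only [Cn.rt_v, Cn.ng_v]; push_cast; linarith)).trans ?_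
  simp only [dt68, DT.val, cloR, sw68, sl68, sv68, txg, txg_4, txg_6, txg_26, txg_29, txg_32, txg_35, txg_38, txg_54, txg_57, txg_58, txg_76, txg_77, txg_85, txg_101, txg_102, txg_120, txg_121, txg_130, txg_133, txg_147, txg_148, txg_167, txg_168, txg_176, txg_189, txg_190, txg_207, txg_208, txg_218, txg_221, txg_224, txg_237, txg_238, txg_255, txg_256, txg_264, txg_278, txg_279, txg_297, txg_298, txg_307, txg_310, txg_322, txg_323, txg_339, txg_340, txg_348, txg_360, txg_361, txg_380, txg_381, txg_390, txg_392, txg_395, txg_397, txg_412, txg_413, txg_431, txg_432, txg_438, txg_452, txg_453, txg_470, txg_471, txg_478, txg_479, txg_493, txg_494, txg_512, txg_513, txg_519, txg_533, txg_534, txg_554, txg_555, txg_563, txg_564, txg_565, txg_579, txg_580, txg_598, txg_599, txg_605, txg_619, txg_620, txg_638, txg_639, txg_646, txg_647, txg_662, txg_663, txg_682, txg_683, txg_689, txg_704, txg_705, txg_724, txg_737, txg_738, txg_749, txg_750, txg_774, txg_775, txg_780, txg_794, txg_795,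 txg_815, txg_816]
  rcases eq_or_lt_of_le h2 with h | h2
  · subst h
    ((try push_cast); (repeat first | rw [if_pos (by linarith)] | rw [if_neg (by linarith)] | erw [if_pos (by linarith)] | erw [if_neg (by linarith)]); (try push_cast); (try ring1))
  · ((try push_cast); (repeat first | rw [if_pos (by linarith)] | rw [if_neg (by linarith)] | erw [if_pos (by linarith)] | erw [if_neg (by linarith)]); (try push_cast); (try ring1))
theorem txl35 {p c x : ℝ} (h1 : 61 / 125 < p) (h2 : p ≤ 1 / 2) : txg.v p c x = dt104.val (fun p x => kcg.v p x) p c x := by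
  symm
  refine (DT.val_gt (by simp only [Cn.rt_v, Cn.ng_v]; push_cast; linarith)).trans ?_
  refine (DT.val_gt (by simp only [Cn.rt_v, Cn.ng_v]; push_cast; linarith)).trans ?_
  refine (DT.val_gt (by simp only [Cn.rt_v, Cn.ng_v]; push_cast; linarith)).trans ?_
  refine (DT.val_gt (by simp only [Cn.rt_v, Cn.ng_v]; push_cast; linarith)).trans ?_
  refine (DT.val_gt (by simp only [Cn.rt_v, Cn.ng_v]; push_cast; linarith)).trans ?_
  refine (DT.val_gt (by simp only [Cn.rt_v, Cn.ng_v]; push_cast; linarith)).trans ?_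
  simp only [dt69, DT.val, cloR, sw69, sl69, sv69, txg, txg_4, txg_6, txg_26, txg_29, txg_32, txg_35, txg_38, txg_54, txg_57, txg_58, txg_76, txg_77, txg_85, txg_101, txg_102, txg_120, txg_121, txg_130, txg_133, txg_147, txg_148, txg_167, txg_168, txg_176, txg_189, txg_190, txg_207, txg_208, txg_218, txg_221, txg_224, txg_237, txg_238, txg_255, txg_256, txg_264, txg_278, txg_279, txg_297, txg_298, txg_307, txg_310, txg_322, txg_323, txg_339, txg_340, txg_348, txg_360, txg_361, txg_380, txg_381, txg_390, txg_392, txg_395, txg_397, txg_412, txg_413, txg_431, txg_432, txg_438, txg_452, txg_453, txg_470, txg_471, txg_478, txg_479, txg_493, txg_494, txg_512, txg_513, txg_519, txg_533, txg_534, txg_554, txg_555, txg_563, txg_564, txg_565, txg_579, txg_580, txg_598, txg_599, txg_605, txg_619, txg_620, txg_638, txg_639, txg_646, txg_647, txg_662, txg_663, txg_682, txg_683, txg_689, txg_704, txg_705, txg_724, txg_737, txg_738, txg_749, txg_750, txg_774, txg_775, txg_780, txg_794, txg_795,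 txg_815, txg_816]
  rcases eq_or_lt_of_le h2 with h | h2
  · subst h
    ((try push_cast); (repeat first | rw [if_pos (by linarith)] | rw [if_neg (by linarith)] | erw [if_pos (by linarith)] | erw [if_neg (by linarith)]); (try push_cast); (try ring1))
  · ((try push_cast); (repeat first | rw [if_pos (by linarith)] | rw [if_neg (by linarith)] | erw [if_pos (by linarith)] | erw [if_neg (by linarith)]); (try push_cast); (try ring1))
theorem txe {x : ℝ} (p c : ℝ) (h : |p| ≤ 1 / 2) : txg.v p c x = dt104.val (fun p x => kcg.v p x) p c x := by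
  obtain ⟨h1, h2⟩ := abs_le.1 h
  rcases le_or_gt p (-61 / 125) with g0 | g1000
  · exact txl0 (by linarith) g0
  rcases le_or_gt p (-481 / 1000) with g1 | g1001
  · exact txl1 g1000 g1
  rcases le_or_gt p (-94829 / 200000) with g2 | g1002
  · exact txl2 g1001 g2
  rcases le_or_gt p (-23 / 50) with g3 | g1003
  · exact txl3 g1002 g3
  rcases le_or_gt p (-89667 / 200000) with g4 | g1004
  · exact txl4 g1003 g4
  rcases le_or_gt p (-11 / 25) with g5 | g1005
  · exact txl5 g1004 g5
  rcases le_or_gt p (-43 / 100) with g6 | g1006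
  · exact txl6 g1005 g6
  rcases le_or_gt p (-21 / 50) with g7 | g1007
  · exact txl7 g1006 g7
  rcases le_or_gt p (-41 / 100) with g8 | g1008
  · exact txl8 g1007 g8
  rcases le_or_gt p (-2 / 5) with g9 | g1009
  · exact txl9 g1008 g9
  rcases le_or_gt p (-39 / 100) with g10 | g1010
  · exact txl10 g1009 g10
  rcases le_or_gt p (-3 / 8) with g11 | g1011
  · exact txl11 g1010 g11
  rcases le_or_gt p (-7 / 20) with g12 | g1012
  · exact txl12 g1011 g12
  rcases le_or_gt p (-3 / 10) with g13 | g1013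
  · exact txl13 g1012 g13
  rcases le_or_gt p (-1 / 4) with g14 | g1014
  · exact txl14 g1013 g14
  rcases le_or_gt p (-1 / 5) with g15 | g1015
  · exact txl15 g1014 g15
  rcases le_or_gt p (-3 / 20) with g16 | g1016
  · exact txl16 g1015 g16
  rcases le_or_gt p (-1 / 10) with g17 | g1017
  · exact txl17 g1016 g17
  rcases le_or_gt p (1 / 10) with g18 | g1018
  · exact txl18 g1017 g18
  rcases le_or_gt p (3 / 20) with g19 | g1019
  · exact txl19 g1018 g19
  rcases le_or_gt p (1 / 5) with g20 | g1020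
  · exact txl20 g1019 g20
  rcases le_or_gt p (1 / 4) with g21 | g1021
  · exact txl21 g1020 g21
  rcases le_or_gt p (3 / 10) with g22 | g1022
  · exact txl22 g1021 g22
  rcases le_or_gt p (7 / 20) with g23 | g1023
  · exact txl23 g1022 g23
  rcases le_or_gt p (3 / 8) with g24 | g1024
  · exact txl24 g1023 g24
  rcases le_or_gt p (39 / 100) with g25 | g1025
  · exact txl25 g1024 g25
  rcases le_or_gt p (2 / 5) with g26 | g1026
  · exact txl26 g1025 g26
  rcases le_or_gt p (41 / 100) with g27 | g1027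
  · exact txl27 g1026 g27
  rcases le_or_gt p (21 / 50) with g28 | g1028
  · exact txl28 g1027 g28
  rcases le_or_gt p (43 / 100) with g29 | g1029
  · exact txl29 g1028 g29
  rcases le_or_gt p (11 / 25) with g30 | g1030
  · exact txl30 g1029 g30
  rcases le_or_gt p (781 / 1742) with g31 | g1031
  · exact txl31 g1030 g31
  rcases le_or_gt p (541 / 1141) with g32 | g1032
  · exact txl32 g1031 g32
  rcases le_or_gt p (481 / 1000) with g33 | g1033
  · exact txl33 g1032 g33
  rcases le_or_gt p (61 / 125) with g34 | g1034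
  · exact txl34 g1033 g34
  · exact txl35 g1034 (by linarith)
theorem ta_dt34 (x : ℝ) : dt34.val (fun p x => kcg.v p x) (-1 / 2) (cT (-1 / 2)) x = (0) := by
  simp only [dt34, DT.val, sw34, sl34, sv34]
  ((try push_cast); ring1)
theorem tb_dt34 (x : ℝ) : dt34.val (fun p x => kcg.v p x) (-61 / 125) (cT (-61 / 125)) x = (93620461 / 50000000000 + (x - 38847 / 40000) * (-185923 / 5000000)) := by
  simp only [dt34, DT.val, sw34, sl34, sv34]
  ((try push_cast); ring1)
theorem ta_dt35 (x : ℝ) : dt35.val (fun p x => kcg.v p x) (-61 / 125) (cT (-61 / 125)) x = (93620461 / 50000000000 + (x - 38847 / 40000) * (-185923 / 5000000)) := by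
  simp only [dt35, DT.val, sw35, sl35, sv35]
  ((try push_cast); ring1)
theorem tb_dt35 (x : ℝ) : dt35.val (fun p x => kcg.v p x) (-481 / 1000) (cT (-481 / 1000)) x = (146607801 / 50000000000 + (x - 38847 / 40000) * (-269543 / 5000000)) := by
  simp only [dt35, DT.val, sw35, sl35, sv35]
  ((try push_cast); ring1)
theorem ta_dt70 (x : ℝ) : dt70.val (fun p x => kcg.v p x) (-1 / 2) (cT (-1 / 2)) x = (0) :=
  (DT.val_le (by simp only [Cn.rt_v, Cn.ng_v]; norm_num)).trans (ta_dt34 x)
theorem tb_dt70 (x : ℝ) : dt70.val (fun p x => kcg.v p x) (-481 / 1000) (cT (-481 / 1000)) x = (146607801 / 50000000000 + (x - 38847 / 40000) * (-269543 / 5000000)) :=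
  (DT.val_gt (by simp only [Cn.rt_v, Cn.ng_v]; norm_num)).trans (tb_dt35 x)
theorem ta_dt36 (x : ℝ) : dt36.val (fun p x => kcg.v p x) (-481 / 1000) (cT (-481 / 1000)) x = (146607801 / 50000000000 + (x - 38847 / 40000) * (-269543 / 5000000)) := by
  simp only [dt36, DT.val, sw36, sl36, sv36]
  ((try push_cast); ring1)
theorem tb_dt36 (x : ℝ) : dt36.val (fun p x => kcg.v p x) (-94829 / 200000) (cT (-94829 / 200000)) x = (377184251 / 100000000000 + (x - 38847 / 40000) * (-701893 / 10000000)) := by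
  simp only [dt36, DT.val, sw36, sl36, sv36]
  ((try push_cast); ring1)
theorem ta_dt37 (x : ℝ) : dt37.val (fun p x => kcg.v p x) (-94829 / 200000) (cT (-94829 / 200000)) x = (377184251 / 100000000000 + (x - 38847 / 40000) * (-701893 / 10000000)) := by
  simp only [dt37, DT.val, sw37, sl37, sv37]
  ((try push_cast); ring1)
theorem tb_dt37 (x : ℝ) : dt37.val (fun p x => kcg.v p x) (-23 / 50) (cT (-23 / 50)) x = (496174727 / 100000000000 + (x - 38847 / 40000) * (-1013961 / 10000000)) := by
  simp only [dt37, DT.val, sw37, sl37, sv37]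
  ((try push_cast); ring1)
theorem ta_dt71 (x : ℝ) : dt71.val (fun p x => kcg.v p x) (-481 / 1000) (cT (-481 / 1000)) x = (146607801 / 50000000000 + (x - 38847 / 40000) * (-269543 / 5000000)) :=
  (DT.val_le (by simp only [Cn.rt_v, Cn.ng_v]; norm_num)).trans (ta_dt36 x)
theorem tb_dt71 (x : ℝ) : dt71.val (fun p x => kcg.v p x) (-23 / 50) (cT (-23 / 50)) x = (496174727 / 100000000000 + (x - 38847 / 40000) * (-1013961 / 10000000)) :=
  (DT.val_gt (by simp only [Cn.rt_v, Cn.ng_v]; norm_num)).trans (tb_dt37 x)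
theorem ta_dt72 (x : ℝ) : dt72.val (fun p x => kcg.v p x) (-1 / 2) (cT (-1 / 2)) x = (0) :=
  (DT.val_le (by simp only [Cn.rt_v, Cn.ng_v]; norm_num)).trans (ta_dt70 x)
theorem tb_dt72 (x : ℝ) : dt72.val (fun p x => kcg.v p x) (-23 / 50) (cT (-23 / 50)) x = (496174727 / 100000000000 + (x - 38847 / 40000) * (-1013961 / 10000000)) :=
  (DT.val_gt (by simp only [Cn.rt_v, Cn.ng_v]; norm_num)).trans (tb_dt71 x)
theorem ta_dt38 (x : ℝ) : dt38.val (fun p x => kcg.v p x) (-23 / 50) (cT (-23 / 50)) x = (496174727 / 100000000000 + (x - 38847 / 40000) * (-1013961 / 10000000)) := by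
  simp only [dt38, DT.val, sw38, sl38, sv38]
  ((try push_cast); ring1)
theorem tb_dt38 (x : ℝ) : dt38.val (fun p x => kcg.v p x) (-89667 / 200000) (cT (-89667 / 200000)) x = (4507219 / 800000000 + (x - 38847 / 40000) * (-10397 / 80000)) := by
  simp only [dt38, DT.val, sw38, sl38, sv38]
  ((try push_cast); ring1)
theorem ta_dt39 (x : ℝ) : dt39.val (fun p x => kcg.v p x) (-89667 / 200000) (cT (-89667 / 200000)) x = (4507219 / 800000000 + (x - 38847 / 40000) * (-10397 / 80000)) := by
  simp only [dt39, DT.val, sw39, sl39, sv39]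
  ((try push_cast); ring1)
theorem tb_dt39 (x : ℝ) : dt39.val (fun p x => kcg.v p x) (-11 / 25) (cT (-11 / 25)) x = (156174709 / 20000000000 + (x - 38847 / 40000) * (-117587 / 2000000)) := by
  simp only [dt39, DT.val, sw39, sl39, sv39]
  ((try push_cast); ring1)
theorem ta_dt73 (x : ℝ) : dt73.val (fun p x => kcg.v p x) (-23 / 50) (cT (-23 / 50)) x = (496174727 / 100000000000 + (x - 38847 / 40000) * (-1013961 / 10000000)) :=
  (DT.val_le (by simp only [Cn.rt_v, Cn.ng_v]; norm_num)).trans (ta_dt38 x)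
theorem tb_dt73 (x : ℝ) : dt73.val (fun p x => kcg.v p x) (-11 / 25) (cT (-11 / 25)) x = (156174709 / 20000000000 + (x - 38847 / 40000) * (-117587 / 2000000)) :=
  (DT.val_gt (by simp only [Cn.rt_v, Cn.ng_v]; norm_num)).trans (tb_dt39 x)
theorem ta_dt40 (x : ℝ) : dt40.val (fun p x => kcg.v p x) (-11 / 25) (cT (-11 / 25)) x = (156174709 / 20000000000 + (x - 38847 / 40000) * (-117587 / 2000000)) := by
  simp only [dt40, DT.val, sw40, sl40, sv40]
  ((try push_cast); ring1)
theorem tb_dt40 (x : ℝ) : dt40.val (fun p x => kcg.v p x) (-43 / 100) (cT (-43 / 100)) x = (1318599337 / 100000000000 + (x - 38847 / 40000) * (1114809 / 10000000)) := by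
  simp only [dt40, DT.val, sw40, sl40, sv40]
  ((try push_cast); ring1)
theorem ta_dt41 (x : ℝ) : dt41.val (fun p x => kcg.v p x) (-43 / 100) (cT (-43 / 100)) x = (1318599337 / 100000000000 + (x - 38847 / 40000) * (1114809 / 10000000)) := by
  simp only [dt41, DT.val, sw41, sl41, sv41]
  ((try push_cast); ring1)
theorem tb_dt41 (x : ℝ) : dt41.val (fun p x => kcg.v p x) (-21 / 50) (cT (-21 / 50)) x = (1976422051 / 100000000000 + (x - 38847 / 40000) * (2303707 / 10000000)) := by
  simp only [dt41, DT.val, sw41, sl41, sv41]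
  ((try push_cast); ring1)
theorem ta_dt42 (x : ℝ) : dt42.val (fun p x => kcg.v p x) (-21 / 50) (cT (-21 / 50)) x = (1976422051 / 100000000000 + (x - 38847 / 40000) * (2303707 / 10000000)) := by
  simp only [dt42, DT.val, sw42, sl42, sv42]
  ((try push_cast); ring1)
theorem tb_dt42 (x : ℝ) : dt42.val (fun p x => kcg.v p x) (-41 / 100) (cT (-41 / 100)) x = (2746064633 / 100000000000 + (x - 38847 / 40000) * (3088481 / 10000000)) := by
  simp only [dt42, DT.val, sw42, sl42, sv42]
  ((try push_cast); ring1)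
theorem ta_dt74 (x : ℝ) : dt74.val (fun p x => kcg.v p x) (-43 / 100) (cT (-43 / 100)) x = (1318599337 / 100000000000 + (x - 38847 / 40000) * (1114809 / 10000000)) :=
  (DT.val_le (by simp only [Cn.rt_v, Cn.ng_v]; norm_num)).trans (ta_dt41 x)
theorem tb_dt74 (x : ℝ) : dt74.val (fun p x => kcg.v p x) (-41 / 100) (cT (-41 / 100)) x = (2746064633 / 100000000000 + (x - 38847 / 40000) * (3088481 / 10000000)) :=
  (DT.val_gt (by simp only [Cn.rt_v, Cn.ng_v]; norm_num)).trans (tb_dt42 x)
theorem ta_dt75 (x : ℝ) : dt75.val (fun p x => kcg.v p x) (-11 / 25) (cT (-11 / 25)) x = (156174709 / 20000000000 + (x - 38847 / 40000) * (-117587 / 2000000)) :=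
  (DT.val_le (by simp only [Cn.rt_v, Cn.ng_v]; norm_num)).trans (ta_dt40 x)
theorem tb_dt75 (x : ℝ) : dt75.val (fun p x => kcg.v p x) (-41 / 100) (cT (-41 / 100)) x = (2746064633 / 100000000000 + (x - 38847 / 40000) * (3088481 / 10000000)) :=
  (DT.val_gt (by simp only [Cn.rt_v, Cn.ng_v]; norm_num)).trans (tb_dt74 x)
theorem ta_dt76 (x : ℝ) : dt76.val (fun p x => kcg.v p x) (-23 / 50) (cT (-23 / 50)) x = (496174727 / 100000000000 + (x - 38847 / 40000) * (-1013961 / 10000000)) :=
  (DT.val_le (by simp only [Cn.rt_v, Cn.ng_v]; norm_num)).trans (ta_dt73 x)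
theorem tb_dt76 (x : ℝ) : dt76.val (fun p x => kcg.v p x) (-41 / 100) (cT (-41 / 100)) x = (2746064633 / 100000000000 + (x - 38847 / 40000) * (3088481 / 10000000)) :=
  (DT.val_gt (by simp only [Cn.rt_v, Cn.ng_v]; norm_num)).trans (tb_dt75 x)
theorem ta_dt77 (x : ℝ) : dt77.val (fun p x => kcg.v p x) (-1 / 2) (cT (-1 / 2)) x = (0) :=
  (DT.val_le (by simp only [Cn.rt_v, Cn.ng_v]; norm_num)).trans (ta_dt72 x)
theorem tb_dt77 (x : ℝ) : dt77.val (fun p x => kcg.v p x) (-41 / 100) (cT (-41 / 100)) x = (2746064633 / 100000000000 + (x - 38847 / 40000) * (3088481 / 10000000)) :=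
  (DT.val_gt (by simp only [Cn.rt_v, Cn.ng_v]; norm_num)).trans (tb_dt76 x)
theorem ta_dt43 (x : ℝ) : dt43.val (fun p x => kcg.v p x) (-41 / 100) (cT (-41 / 100)) x = (2746064633 / 100000000000 + (x - 38847 / 40000) * (3088481 / 10000000)) := by
  simp only [dt43, DT.val, sw43, sl43, sv43]
  ((try push_cast); ring1)
theorem tb_dt43 (x : ℝ) : dt43.val (fun p x => kcg.v p x) (-2 / 5) (cT (-2 / 5)) x = (3569969627 / 100000000000 + (x - 38847 / 40000) * (3663339 / 10000000)) := by
  simp only [dt43, DT.val, sw43, sl43, sv43]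
  ((try push_cast); ring1)
theorem ta_dt44 (x : ℝ) : dt44.val (fun p x => kcg.v p x) (-2 / 5) (cT (-2 / 5)) x = (3569969627 / 100000000000 + (x - 38847 / 40000) * (3663339 / 10000000)) := by
  simp only [dt44, DT.val, sw44, sl44, sv44]
  ((try push_cast); ring1)
theorem tb_dt44 (x : ℝ) : dt44.val (fun p x => kcg.v p x) (-39 / 100) (cT (-39 / 100)) x = (4395615581 / 100000000000 + (x - 38847 / 40000) * (4181917 / 10000000)) := by
  simp only [dt44, DT.val, sw44, sl44, sv44]
  ((try push_cast); ring1)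
theorem ta_dt78 (x : ℝ) : dt78.val (fun p x => kcg.v p x) (-41 / 100) (cT (-41 / 100)) x = (2746064633 / 100000000000 + (x - 38847 / 40000) * (3088481 / 10000000)) :=
  (DT.val_le (by simp only [Cn.rt_v, Cn.ng_v]; norm_num)).trans (ta_dt43 x)
theorem tb_dt78 (x : ℝ) : dt78.val (fun p x => kcg.v p x) (-39 / 100) (cT (-39 / 100)) x = (4395615581 / 100000000000 + (x - 38847 / 40000) * (4181917 / 10000000)) :=
  (DT.val_gt (by simp only [Cn.rt_v, Cn.ng_v]; norm_num)).trans (tb_dt44 x)
theorem ta_dt45 (x : ℝ) : dt45.val (fun p x => kcg.v p x) (-39 / 100) (cT (-39 / 100)) x = (4395615581 / 100000000000 + (x - 38847 / 40000) * (4181917 / 10000000)) := by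
  simp only [dt45, DT.val, sw45, sl45, sv45]
  ((try push_cast); ring1)
theorem tb_dt45 (x : ℝ) : dt45.val (fun p x => kcg.v p x) (-3 / 8) (cT (-3 / 8)) x = (5627832893 / 100000000000 + (x - 38847 / 40000) * (4975301 / 10000000)) := by
  simp only [dt45, DT.val, sw45, sl45, sv45]
  ((try push_cast); ring1)
theorem ta_dt46 (x : ℝ) : dt46.val (fun p x => kcg.v p x) (-3 / 8) (cT (-3 / 8)) x = (5627832893 / 100000000000 + (x - 38847 / 40000) * (4975301 / 10000000)) := by
  simp only [dt46, DT.val, sw46, sl46, sv46]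
  ((try push_cast); ring1)
theorem tb_dt46 (x : ℝ) : dt46.val (fun p x => kcg.v p x) (-7 / 20) (cT (-7 / 20)) x = (760211891 / 10000000000 + (x - 38847 / 40000) * (617587 / 1000000)) := by
  simp only [dt46, DT.val, sw46, sl46, sv46]
  ((try push_cast); ring1)
theorem ta_dt79 (x : ℝ) : dt79.val (fun p x => kcg.v p x) (-39 / 100) (cT (-39 / 100)) x = (4395615581 / 100000000000 + (x - 38847 / 40000) * (4181917 / 10000000)) :=
  (DT.val_le (by simp only [Cn.rt_v, Cn.ng_v]; norm_num)).trans (ta_dt45 x)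
theorem tb_dt79 (x : ℝ) : dt79.val (fun p x => kcg.v p x) (-7 / 20) (cT (-7 / 20)) x = (760211891 / 10000000000 + (x - 38847 / 40000) * (617587 / 1000000)) :=
  (DT.val_gt (by simp only [Cn.rt_v, Cn.ng_v]; norm_num)).trans (tb_dt46 x)
theorem ta_dt80 (x : ℝ) : dt80.val (fun p x => kcg.v p x) (-41 / 100) (cT (-41 / 100)) x = (2746064633 / 100000000000 + (x - 38847 / 40000) * (3088481 / 10000000)) :=
  (DT.val_le (by simp only [Cn.rt_v, Cn.ng_v]; norm_num)).trans (ta_dt78 x)
theorem tb_dt80 (x : ℝ) : dt80.val (fun p x => kcg.v p x) (-7 / 20) (cT (-7 / 20)) x = (760211891 / 10000000000 + (x - 38847 / 40000) * (617587 / 1000000)) :=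
  (DT.val_gt (by simp only [Cn.rt_v, Cn.ng_v]; norm_num)).trans (tb_dt79 x)
theorem ta_dt47 (x : ℝ) : dt47.val (fun p x => kcg.v p x) (-7 / 20) (cT (-7 / 20)) x = (760211891 / 10000000000 + (x - 38847 / 40000) * (617587 / 1000000)) := by
  simp only [dt47, DT.val, sw47, sl47, sv47]
  ((try push_cast); ring1)
theorem tb_dt47 (x : ℝ) : dt47.val (fun p x => kcg.v p x) (-3 / 10) (cT (-3 / 10)) x = (2227161407 / 20000000000 + (x - 38847 / 40000) * (1522599 / 2000000)) := by
  simp only [dt47, DT.val, sw47, sl47, sv47]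
  ((try push_cast); ring1)
theorem ta_dt48 (x : ℝ) : dt48.val (fun p x => kcg.v p x) (-3 / 10) (cT (-3 / 10)) x = (2227161407 / 20000000000 + (x - 38847 / 40000) * (1522599 / 2000000)) := by
  simp only [dt48, DT.val, sw48, sl48, sv48]
  ((try push_cast); ring1)
theorem tb_dt48 (x : ℝ) : dt48.val (fun p x => kcg.v p x) (-1 / 4) (cT (-1 / 4)) x = (14383995203 / 100000000000 + (x - 38847 / 40000) * (7910971 / 10000000)) := by
  simp only [dt48, DT.val, sw48, sl48, sv48]
  ((try push_cast); ring1)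
theorem ta_dt81 (x : ℝ) : dt81.val (fun p x => kcg.v p x) (-7 / 20) (cT (-7 / 20)) x = (760211891 / 10000000000 + (x - 38847 / 40000) * (617587 / 1000000)) :=
  (DT.val_le (by simp only [Cn.rt_v, Cn.ng_v]; norm_num)).trans (ta_dt47 x)
theorem tb_dt81 (x : ℝ) : dt81.val (fun p x => kcg.v p x) (-1 / 4) (cT (-1 / 4)) x = (14383995203 / 100000000000 + (x - 38847 / 40000) * (7910971 / 10000000)) :=
  (DT.val_gt (by simp only [Cn.rt_v, Cn.ng_v]; norm_num)).trans (tb_dt48 x)
theorem ta_dt49 (x : ℝ) : dt49.val (fun p x => kcg.v p x) (-1 / 4) (cT (-1 / 4)) x = (14383995203 / 100000000000 + (x - 38847 / 40000) * (7910971 / 10000000)) := by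
  simp only [dt49, DT.val, sw49, sl49, sv49]
  ((try push_cast); ring1)
theorem tb_dt49 (x : ℝ) : dt49.val (fun p x => kcg.v p x) (-1 / 5) (cT (-1 / 5)) x = (8789773023 / 50000000000 + (x - 38847 / 40000) * (3881211 / 5000000)) := by
  simp only [dt49, DT.val, sw49, sl49, sv49]
  ((try push_cast); ring1)
theorem ta_dt50 (x : ℝ) : dt50.val (fun p x => kcg.v p x) (-1 / 5) (cT (-1 / 5)) x = (8789773023 / 50000000000 + (x - 38847 / 40000) * (3881211 / 5000000)) := by
  simp only [dt50, DT.val, sw50, sl50, sv50]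
  ((try push_cast); ring1)
theorem tb_dt50 (x : ℝ) : dt50.val (fun p x => kcg.v p x) (-3 / 20) (cT (-3 / 20)) x = (5092422049 / 25000000000 + (x - 38847 / 40000) * (1918493 / 2500000)) := by
  simp only [dt50, DT.val, sw50, sl50, sv50]
  ((try push_cast); ring1)
theorem ta_dt51 (x : ℝ) : dt51.val (fun p x => kcg.v p x) (-3 / 20) (cT (-3 / 20)) x = (5092422049 / 25000000000 + (x - 38847 / 40000) * (1918493 / 2500000)) := by
  simp only [dt51, DT.val, sw51, sl51, sv51]
  ((try push_cast); ring1)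
theorem tb_dt51 (x : ℝ) : dt51.val (fun p x => kcg.v p x) (-1 / 10) (cT (-1 / 10)) x = (4485115121 / 20000000000 + (x - 38847 / 40000) * (1536897 / 2000000)) := by
  simp only [dt51, DT.val, sw51, sl51, sv51]
  ((try push_cast); ring1)
theorem ta_dt82 (x : ℝ) : dt82.val (fun p x => kcg.v p x) (-1 / 5) (cT (-1 / 5)) x = (8789773023 / 50000000000 + (x - 38847 / 40000) * (3881211 / 5000000)) :=
  (DT.val_le (by simp only [Cn.rt_v, Cn.ng_v]; norm_num)).trans (ta_dt50 x)
theorem tb_dt82 (x : ℝ) : dt82.val (fun p x => kcg.v p x) (-1 / 10) (cT (-1 / 10)) x = (4485115121 / 20000000000 + (x - 38847 / 40000) * (1536897 / 2000000)) :=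
  (DT.val_gt (by simp only [Cn.rt_v, Cn.ng_v]; norm_num)).trans (tb_dt51 x)
theorem ta_dt83 (x : ℝ) : dt83.val (fun p x => kcg.v p x) (-1 / 4) (cT (-1 / 4)) x = (14383995203 / 100000000000 + (x - 38847 / 40000) * (7910971 / 10000000)) :=
  (DT.val_le (by simp only [Cn.rt_v, Cn.ng_v]; norm_num)).trans (ta_dt49 x)
theorem tb_dt83 (x : ℝ) : dt83.val (fun p x => kcg.v p x) (-1 / 10) (cT (-1 / 10)) x = (4485115121 / 20000000000 + (x - 38847 / 40000) * (1536897 / 2000000)) :=
  (DT.val_gt (by simp only [Cn.rt_v, Cn.ng_v]; norm_num)).trans (tb_dt82 x)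
theorem ta_dt84 (x : ℝ) : dt84.val (fun p x => kcg.v p x) (-7 / 20) (cT (-7 / 20)) x = (760211891 / 10000000000 + (x - 38847 / 40000) * (617587 / 1000000)) :=
  (DT.val_le (by simp only [Cn.rt_v, Cn.ng_v]; norm_num)).trans (ta_dt81 x)
theorem tb_dt84 (x : ℝ) : dt84.val (fun p x => kcg.v p x) (-1 / 10) (cT (-1 / 10)) x = (4485115121 / 20000000000 + (x - 38847 / 40000) * (1536897 / 2000000)) :=
  (DT.val_gt (by simp only [Cn.rt_v, Cn.ng_v]; norm_num)).trans (tb_dt83 x)
theorem ta_dt85 (x : ℝ) : dt85.val (fun p x => kcg.v p x) (-41 / 100) (cT (-41 / 100)) x = (2746064633 / 100000000000 + (x - 38847 / 40000) * (3088481 / 10000000)) :=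
  (DT.val_le (by simp only [Cn.rt_v, Cn.ng_v]; norm_num)).trans (ta_dt80 x)
theorem tb_dt85 (x : ℝ) : dt85.val (fun p x => kcg.v p x) (-1 / 10) (cT (-1 / 10)) x = (4485115121 / 20000000000 + (x - 38847 / 40000) * (1536897 / 2000000)) :=
  (DT.val_gt (by simp only [Cn.rt_v, Cn.ng_v]; norm_num)).trans (tb_dt84 x)
theorem ta_dt86 (x : ℝ) : dt86.val (fun p x => kcg.v p x) (-1 / 2) (cT (-1 / 2)) x = (0) :=
  (DT.val_le (by simp only [Cn.rt_v, Cn.ng_v]; norm_num)).trans (ta_dt77 x)
theorem tb_dt86 (x : ℝ) : dt86.val (fun p x => kcg.v p x) (-1 / 10) (cT (-1 / 10)) x = (4485115121 / 20000000000 + (x - 38847 / 40000) * (1536897 / 2000000)) :=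
  (DT.val_gt (by simp only [Cn.rt_v, Cn.ng_v]; norm_num)).trans (tb_dt85 x)
theorem ta_dt52 (x : ℝ) : dt52.val (fun p x => kcg.v p x) (-1 / 10) (cT (-1 / 10)) x = (4485115121 / 20000000000 + (x - 38847 / 40000) * (1536897 / 2000000)) := by
  simp only [dt52, DT.val, sw52, sl52, sv52]
  ((try push_cast); ring1)
theorem tb_dt52 (x : ℝ) : dt52.val (fun p x => kcg.v p x) (1 / 10) (cT (1 / 10)) x = (12451002917 / 50000000000 + (x - 38847 / 40000) * (4046869 / 5000000)) := by
  simp only [dt52, DT.val, sw52, sl52, sv52]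
  ((try push_cast); ring1)
theorem ta_dt53 (x : ℝ) : dt53.val (fun p x => kcg.v p x) (1 / 10) (cT (1 / 10)) x = (12451002917 / 50000000000 + (x - 38847 / 40000) * (4046869 / 5000000)) := by
  simp only [dt53, DT.val, sw53, sl53, sv53]
  ((try push_cast); ring1)
theorem tb_dt53 (x : ℝ) : dt53.val (fun p x => kcg.v p x) (3 / 20) (cT (3 / 20)) x = (24181885443 / 100000000000 + (x - 38847 / 40000) * (8169651 / 10000000)) := by
  simp only [dt53, DT.val, sw53, sl53, sv53]
  ((try push_cast); ring1)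
theorem ta_dt87 (x : ℝ) : dt87.val (fun p x => kcg.v p x) (-1 / 10) (cT (-1 / 10)) x = (4485115121 / 20000000000 + (x - 38847 / 40000) * (1536897 / 2000000)) :=
  (DT.val_le (by simp only [Cn.rt_v, Cn.ng_v]; norm_num)).trans (ta_dt52 x)
theorem tb_dt87 (x : ℝ) : dt87.val (fun p x => kcg.v p x) (3 / 20) (cT (3 / 20)) x = (24181885443 / 100000000000 + (x - 38847 / 40000) * (8169651 / 10000000)) :=
  (DT.val_gt (by simp only [Cn.rt_v, Cn.ng_v]; norm_num)).trans (tb_dt53 x)
theorem ta_dt54 (x : ℝ) : dt54.val (fun p x => kcg.v p x) (3 / 20) (cT (3 / 20)) x = (24181885443 / 100000000000 + (x - 38847 / 40000) * (8169651 / 10000000)) := by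
  simp only [dt54, DT.val, sw54, sl54, sv54]
  ((try push_cast); ring1)
theorem tb_dt54 (x : ℝ) : dt54.val (fun p x => kcg.v p x) (1 / 5) (cT (1 / 5)) x = (22850828211 / 100000000000 + (x - 38847 / 40000) * (8066827 / 10000000)) := by
  simp only [dt54, DT.val, sw54, sl54, sv54]
  ((try push_cast); ring1)
theorem ta_dt55 (x : ℝ) : dt55.val (fun p x => kcg.v p x) (1 / 5) (cT (1 / 5)) x = (22850828211 / 100000000000 + (x - 38847 / 40000) * (8066827 / 10000000)) := by
  simp only [dt55, DT.val, sw55, sl55, sv55]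
  ((try push_cast); ring1)
theorem tb_dt55 (x : ℝ) : dt55.val (fun p x => kcg.v p x) (1 / 4) (cT (1 / 4)) x = (4155776429 / 20000000000 + (x - 38847 / 40000) * (1529653 / 2000000)) := by
  simp only [dt55, DT.val, sw55, sl55, sv55]
  ((try push_cast); ring1)
theorem ta_dt88 (x : ℝ) : dt88.val (fun p x => kcg.v p x) (3 / 20) (cT (3 / 20)) x = (24181885443 / 100000000000 + (x - 38847 / 40000) * (8169651 / 10000000)) :=
  (DT.val_le (by simp only [Cn.rt_v, Cn.ng_v]; norm_num)).trans (ta_dt54 x)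
theorem tb_dt88 (x : ℝ) : dt88.val (fun p x => kcg.v p x) (1 / 4) (cT (1 / 4)) x = (4155776429 / 20000000000 + (x - 38847 / 40000) * (1529653 / 2000000)) :=
  (DT.val_gt (by simp only [Cn.rt_v, Cn.ng_v]; norm_num)).trans (tb_dt55 x)
theorem ta_dt89 (x : ℝ) : dt89.val (fun p x => kcg.v p x) (-1 / 10) (cT (-1 / 10)) x = (4485115121 / 20000000000 + (x - 38847 / 40000) * (1536897 / 2000000)) :=
  (DT.val_le (by simp only [Cn.rt_v, Cn.ng_v]; norm_num)).trans (ta_dt87 x)
theorem tb_dt89 (x : ℝ) : dt89.val (fun p x => kcg.v p x) (1 / 4) (cT (1 / 4)) x = (4155776429 / 20000000000 + (x - 38847 / 40000) * (1529653 / 2000000)) :=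
  (DT.val_gt (by simp only [Cn.rt_v, Cn.ng_v]; norm_num)).trans (tb_dt88 x)
theorem ta_dt56 (x : ℝ) : dt56.val (fun p x => kcg.v p x) (1 / 4) (cT (1 / 4)) x = (4155776429 / 20000000000 + (x - 38847 / 40000) * (1529653 / 2000000)) := by
  simp only [dt56, DT.val, sw56, sl56, sv56]
  ((try push_cast); ring1)
theorem tb_dt56 (x : ℝ) : dt56.val (fun p x => kcg.v p x) (3 / 10) (cT (3 / 10)) x = (17901684813 / 100000000000 + (x - 38847 / 40000) * (6938741 / 10000000)) := by
  simp only [dt56, DT.val, sw56, sl56, sv56]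
  ((try push_cast); ring1)
theorem ta_dt57 (x : ℝ) : dt57.val (fun p x => kcg.v p x) (3 / 10) (cT (3 / 10)) x = (17901684813 / 100000000000 + (x - 38847 / 40000) * (6938741 / 10000000)) := by
  simp only [dt57, DT.val, sw57, sl57, sv57]
  ((try push_cast); ring1)
theorem tb_dt57 (x : ℝ) : dt57.val (fun p x => kcg.v p x) (7 / 20) (cT (7 / 20)) x = (14226311947 / 100000000000 + (x - 38847 / 40000) * (6152579 / 10000000)) := by
  simp only [dt57, DT.val, sw57, sl57, sv57]
  ((try push_cast); ring1)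
theorem ta_dt90 (x : ℝ) : dt90.val (fun p x => kcg.v p x) (1 / 4) (cT (1 / 4)) x = (4155776429 / 20000000000 + (x - 38847 / 40000) * (1529653 / 2000000)) :=
  (DT.val_le (by simp only [Cn.rt_v, Cn.ng_v]; norm_num)).trans (ta_dt56 x)
theorem tb_dt90 (x : ℝ) : dt90.val (fun p x => kcg.v p x) (7 / 20) (cT (7 / 20)) x = (14226311947 / 100000000000 + (x - 38847 / 40000) * (6152579 / 10000000)) :=
  (DT.val_gt (by simp only [Cn.rt_v, Cn.ng_v]; norm_num)).trans (tb_dt57 x)
theorem ta_dt58 (x : ℝ) : dt58.val (fun p x => kcg.v p x) (7 / 20) (cT (7 / 20)) x = (14226311947 / 100000000000 + (x - 38847 / 40000) * (6152579 / 10000000)) := by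
  simp only [dt58, DT.val, sw58, sl58, sv58]
  ((try push_cast); ring1)
theorem tb_dt58 (x : ℝ) : dt58.val (fun p x => kcg.v p x) (3 / 8) (cT (3 / 8)) x = (12052460497 / 100000000000 + (x - 38847 / 40000) * (5587929 / 10000000)) := by
  simp only [dt58, DT.val, sw58, sl58, sv58]
  ((try push_cast); ring1)
theorem ta_dt59 (x : ℝ) : dt59.val (fun p x => kcg.v p x) (3 / 8) (cT (3 / 8)) x = (12052460497 / 100000000000 + (x - 38847 / 40000) * (5587929 / 10000000)) := by
  simp only [dt59, DT.val, sw59, sl59, sv59]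
  ((try push_cast); ring1)
theorem tb_dt59 (x : ℝ) : dt59.val (fun p x => kcg.v p x) (39 / 100) (cT (39 / 100)) x = (66261049 / 625000000 + (x - 38847 / 40000) * (124547 / 250000)) := by
  simp only [dt59, DT.val, sw59, sl59, sv59]
  ((try push_cast); ring1)
theorem ta_dt60 (x : ℝ) : dt60.val (fun p x => kcg.v p x) (39 / 100) (cT (39 / 100)) x = (66261049 / 625000000 + (x - 38847 / 40000) * (124547 / 250000)) := by
  simp only [dt60, DT.val, sw60, sl60, sv60]
  ((try push_cast); ring1)
theorem tb_dt60 (x : ℝ) : dt60.val (fun p x => kcg.v p x) (2 / 5) (cT (2 / 5)) x = (2391277863 / 25000000000 + (x - 38847 / 40000) * (1106841 / 2500000)) := by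
  simp only [dt60, DT.val, sw60, sl60, sv60]
  ((try push_cast); ring1)
theorem ta_dt91 (x : ℝ) : dt91.val (fun p x => kcg.v p x) (3 / 8) (cT (3 / 8)) x = (12052460497 / 100000000000 + (x - 38847 / 40000) * (5587929 / 10000000)) :=
  (DT.val_le (by simp only [Cn.rt_v, Cn.ng_v]; norm_num)).trans (ta_dt59 x)
theorem tb_dt91 (x : ℝ) : dt91.val (fun p x => kcg.v p x) (2 / 5) (cT (2 / 5)) x = (2391277863 / 25000000000 + (x - 38847 / 40000) * (1106841 / 2500000)) :=
  (DT.val_gt (by simp only [Cn.rt_v, Cn.ng_v]; norm_num)).trans (tb_dt60 x)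
theorem ta_dt92 (x : ℝ) : dt92.val (fun p x => kcg.v p x) (7 / 20) (cT (7 / 20)) x = (14226311947 / 100000000000 + (x - 38847 / 40000) * (6152579 / 10000000)) :=
  (DT.val_le (by simp only [Cn.rt_v, Cn.ng_v]; norm_num)).trans (ta_dt58 x)
theorem tb_dt92 (x : ℝ) : dt92.val (fun p x => kcg.v p x) (2 / 5) (cT (2 / 5)) x = (2391277863 / 25000000000 + (x - 38847 / 40000) * (1106841 / 2500000)) :=
  (DT.val_gt (by simp only [Cn.rt_v, Cn.ng_v]; norm_num)).trans (tb_dt91 x)
theorem ta_dt93 (x : ℝ) : dt93.val (fun p x => kcg.v p x) (1 / 4) (cT (1 / 4)) x = (4155776429 / 20000000000 + (x - 38847 / 40000) * (1529653 / 2000000)) :=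
  (DT.val_le (by simp only [Cn.rt_v, Cn.ng_v]; norm_num)).trans (ta_dt90 x)
theorem tb_dt93 (x : ℝ) : dt93.val (fun p x => kcg.v p x) (2 / 5) (cT (2 / 5)) x = (2391277863 / 25000000000 + (x - 38847 / 40000) * (1106841 / 2500000)) :=
  (DT.val_gt (by simp only [Cn.rt_v, Cn.ng_v]; norm_num)).trans (tb_dt92 x)
theorem ta_dt94 (x : ℝ) : dt94.val (fun p x => kcg.v p x) (-1 / 10) (cT (-1 / 10)) x = (4485115121 / 20000000000 + (x - 38847 / 40000) * (1536897 / 2000000)) :=
  (DT.val_le (by simp only [Cn.rt_v, Cn.ng_v]; norm_num)).trans (ta_dt89 x)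
theorem tb_dt94 (x : ℝ) : dt94.val (fun p x => kcg.v p x) (2 / 5) (cT (2 / 5)) x = (2391277863 / 25000000000 + (x - 38847 / 40000) * (1106841 / 2500000)) :=
  (DT.val_gt (by simp only [Cn.rt_v, Cn.ng_v]; norm_num)).trans (tb_dt93 x)
theorem ta_dt61 (x : ℝ) : dt61.val (fun p x => kcg.v p x) (2 / 5) (cT (2 / 5)) x = (2391277863 / 25000000000 + (x - 38847 / 40000) * (1106841 / 2500000)) := by
  simp only [dt61, DT.val, sw61, sl61, sv61]
  ((try push_cast); ring1)
theorem tb_dt61 (x : ℝ) : dt61.val (fun p x => kcg.v p x) (41 / 100) (cT (41 / 100)) x = (4239284787 / 50000000000 + (x - 38847 / 40000) * (1902959 / 5000000)) := by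
  simp only [dt61, DT.val, sw61, sl61, sv61]
  ((try push_cast); ring1)
theorem ta_dt62 (x : ℝ) : dt62.val (fun p x => kcg.v p x) (41 / 100) (cT (41 / 100)) x = (4239284787 / 50000000000 + (x - 38847 / 40000) * (1902959 / 5000000)) := by
  simp only [dt62, DT.val, sw62, sl62, sv62]
  ((try push_cast); ring1)
theorem tb_dt62 (x : ℝ) : dt62.val (fun p x => kcg.v p x) (21 / 50) (cT (21 / 50)) x = (461508403 / 6250000000 + (x - 38847 / 40000) * (97123 / 312500)) := by
  simp only [dt62, DT.val, sw62, sl62, sv62]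
  ((try push_cast); ring1)
theorem ta_dt95 (x : ℝ) : dt95.val (fun p x => kcg.v p x) (2 / 5) (cT (2 / 5)) x = (2391277863 / 25000000000 + (x - 38847 / 40000) * (1106841 / 2500000)) :=
  (DT.val_le (by simp only [Cn.rt_v, Cn.ng_v]; norm_num)).trans (ta_dt61 x)
theorem tb_dt95 (x : ℝ) : dt95.val (fun p x => kcg.v p x) (21 / 50) (cT (21 / 50)) x = (461508403 / 6250000000 + (x - 38847 / 40000) * (97123 / 312500)) :=
  (DT.val_gt (by simp only [Cn.rt_v, Cn.ng_v]; norm_num)).trans (tb_dt62 x)
theorem ta_dt63 (x : ℝ) : dt63.val (fun p x => kcg.v p x) (21 / 50) (cT (21 / 50)) x = (461508403 / 6250000000 + (x - 38847 / 40000) * (97123 / 312500)) := by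
  simp only [dt63, DT.val, sw63, sl63, sv63]
  ((try push_cast); ring1)
theorem tb_dt63 (x : ℝ) : dt63.val (fun p x => kcg.v p x) (43 / 100) (cT (43 / 100)) x = (1580243297 / 25000000000 + (x - 38847 / 40000) * (564279 / 2500000)) := by
  simp only [dt63, DT.val, sw63, sl63, sv63]
  ((try push_cast); ring1)
theorem ta_dt64 (x : ℝ) : dt64.val (fun p x => kcg.v p x) (43 / 100) (cT (43 / 100)) x = (1580243297 / 25000000000 + (x - 38847 / 40000) * (564279 / 2500000)) := by
  simp only [dt64, DT.val, sw64, sl64, sv64]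
  ((try push_cast); ring1)
theorem tb_dt64 (x : ℝ) : dt64.val (fun p x => kcg.v p x) (11 / 25) (cT (11 / 25)) x = (5293823197 / 100000000000 + (x - 38847 / 40000) * (1182829 / 10000000)) := by
  simp only [dt64, DT.val, sw64, sl64, sv64]
  ((try push_cast); ring1)
theorem ta_dt96 (x : ℝ) : dt96.val (fun p x => kcg.v p x) (21 / 50) (cT (21 / 50)) x = (461508403 / 6250000000 + (x - 38847 / 40000) * (97123 / 312500)) :=
  (DT.val_le (by simp only [Cn.rt_v, Cn.ng_v]; norm_num)).trans (ta_dt63 x)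
theorem tb_dt96 (x : ℝ) : dt96.val (fun p x => kcg.v p x) (11 / 25) (cT (11 / 25)) x = (5293823197 / 100000000000 + (x - 38847 / 40000) * (1182829 / 10000000)) :=
  (DT.val_gt (by simp only [Cn.rt_v, Cn.ng_v]; norm_num)).trans (tb_dt64 x)
theorem ta_dt97 (x : ℝ) : dt97.val (fun p x => kcg.v p x) (2 / 5) (cT (2 / 5)) x = (2391277863 / 25000000000 + (x - 38847 / 40000) * (1106841 / 2500000)) :=
  (DT.val_le (by simp only [Cn.rt_v, Cn.ng_v]; norm_num)).trans (ta_dt95 x)
theorem tb_dt97 (x : ℝ) : dt97.val (fun p x => kcg.v p x) (11 / 25) (cT (11 / 25)) x = (5293823197 / 100000000000 + (x - 38847 / 40000) * (1182829 / 10000000)) :=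
  (DT.val_gt (by simp only [Cn.rt_v, Cn.ng_v]; norm_num)).trans (tb_dt96 x)
theorem ta_dt65 (x : ℝ) : dt65.val (fun p x => kcg.v p x) (11 / 25) (cT (11 / 25)) x = (5293823197 / 100000000000 + (x - 38847 / 40000) * (1182829 / 10000000)) := by
  simp only [dt65, DT.val, sw65, sw65_2, sl65, sl65_2, sv65, sv65_2]
  ((try push_cast); ring1)
theorem tb_dt65 (x : ℝ) : dt65.val (fun p x => kcg.v p x) (781 / 1742) (479 / 871) x = (4307218546027768287 / 94830125000000000000 + (x - 38847 / 40000) * (654272679188443 / 9483012500000000) + (x - 38847 / 40000) ^ 2 * (3218607 / 272187500)) := by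
  simp only [dt65, DT.val, sw65, sw65_2, sl65, sl65_2, sv65, sv65_2]
  ((try push_cast); ring1)
theorem ta_dt66 (x : ℝ) : dt66.val (fun p x => kcg.v p x) (781 / 1742) (479 / 871) x = (4307218546027768287 / 94830125000000000000 + (x - 38847 / 40000) * (654272679188443 / 9483012500000000) + (x - 38847 / 40000) ^ 2 * (3218607 / 272187500)) := by
  simp only [dt66, DT.val, cloR, kgA]
  ring1
theorem tb_dt66 (x : ℝ) : dt66.val (fun p x => kcg.v p x) (541 / 1141) (1199 / 2282) x = (153804204630432398151 / 6509405000000000000000 + (x - 38847 / 40000) * (28705467317396939 / 650940500000000000) + (x - 38847 / 40000) ^ 2 * (-204705259 / 14262500000)) := by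
  simp only [dt66, DT.val, cloR, kgB]
  ring1
theorem ta_dt98 (x : ℝ) : dt98.val (fun p x => kcg.v p x) (11 / 25) (cT (11 / 25)) x = (5293823197 / 100000000000 + (x - 38847 / 40000) * (1182829 / 10000000)) :=
  (DT.val_le (by simp only [Cn.rt_v, Cn.ng_v]; norm_num)).trans (ta_dt65 x)
theorem tb_dt98 (x : ℝ) : dt98.val (fun p x => kcg.v p x) (541 / 1141) (1199 / 2282) x = (153804204630432398151 / 6509405000000000000000 + (x - 38847 / 40000) * (28705467317396939 / 650940500000000000) + (x - 38847 / 40000) ^ 2 * (-204705259 / 14262500000)) :=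
  (DT.val_gt (by simp only [Cn.rt_v, Cn.ng_v]; norm_num)).trans (tb_dt66 x)
theorem ta_dt67 (x : ℝ) : dt67.val (fun p x => kcg.v p x) (541 / 1141) (1199 / 2282) x = (153804204630432398151 / 6509405000000000000000 + (x - 38847 / 40000) * (28705467317396939 / 650940500000000000) + (x - 38847 / 40000) ^ 2 * (-204705259 / 14262500000)) := by
  simp only [dt67, DT.val, sw67, sw67_2, sl67, sl67_2, sv67, sv67_2]
  ((try push_cast); ring1)
theorem tb_dt67 (x : ℝ) : dt67.val (fun p x => kcg.v p x) (481 / 1000) (cT (481 / 1000)) x = (1749198301 / 100000000000 + (x - 38847 / 40000) * (333957 / 10000000)) := by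
  simp only [dt67, DT.val, sw67, sw67_2, sl67, sl67_2, sv67, sv67_2]
  ((try push_cast); ring1)
theorem ta_dt68 (x : ℝ) : dt68.val (fun p x => kcg.v p x) (481 / 1000) (cT (481 / 1000)) x = (1749198301 / 100000000000 + (x - 38847 / 40000) * (333957 / 10000000)) := by
  simp only [dt68, DT.val, sw68, sl68, sv68]
  ((try push_cast); ring1)
theorem tb_dt68 (x : ℝ) : dt68.val (fun p x => kcg.v p x) (61 / 125) (cT (61 / 125)) x = (1108830357 / 100000000000 + (x - 38847 / 40000) * (206949 / 10000000)) := by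
  simp only [dt68, DT.val, sw68, sl68, sv68]
  ((try push_cast); ring1)
theorem ta_dt69 (x : ℝ) : dt69.val (fun p x => kcg.v p x) (61 / 125) (cT (61 / 125)) x = (1108830357 / 100000000000 + (x - 38847 / 40000) * (206949 / 10000000)) := by
  simp only [dt69, DT.val, sw69, sl69, sv69]
  ((try push_cast); ring1)
theorem tb_dt69 (x : ℝ) : dt69.val (fun p x => kcg.v p x) (1 / 2) (cT (1 / 2)) x = (0) := by
  simp only [dt69, DT.val, sw69, sl69, sv69]
  ((try push_cast); ring1)
theorem ta_dt99 (x : ℝ) : dt99.val (fun p x => kcg.v p x) (481 / 1000) (cT (481 / 1000)) x = (1749198301 / 100000000000 + (x - 38847 / 40000) * (333957 / 10000000)) :=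
  (DT.val_le (by simp only [Cn.rt_v, Cn.ng_v]; norm_num)).trans (ta_dt68 x)
theorem tb_dt99 (x : ℝ) : dt99.val (fun p x => kcg.v p x) (1 / 2) (cT (1 / 2)) x = (0) :=
  (DT.val_gt (by simp only [Cn.rt_v, Cn.ng_v]; norm_num)).trans (tb_dt69 x)
theorem ta_dt100 (x : ℝ) : dt100.val (fun p x => kcg.v p x) (541 / 1141) (1199 / 2282) x = (153804204630432398151 / 6509405000000000000000 + (x - 38847 / 40000) * (28705467317396939 / 650940500000000000) + (x - 38847 / 40000) ^ 2 * (-204705259 / 14262500000)) :=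
  (DT.val_le (by simp only [Cn.rt_v, Cn.ng_v]; norm_num)).trans (ta_dt67 x)
theorem tb_dt100 (x : ℝ) : dt100.val (fun p x => kcg.v p x) (1 / 2) (cT (1 / 2)) x = (0) :=
  (DT.val_gt (by simp only [Cn.rt_v, Cn.ng_v]; norm_num)).trans (tb_dt99 x)
theorem ta_dt101 (x : ℝ) : dt101.val (fun p x => kcg.v p x) (11 / 25) (cT (11 / 25)) x = (5293823197 / 100000000000 + (x - 38847 / 40000) * (1182829 / 10000000)) :=
  (DT.val_le (by simp only [Cn.rt_v, Cn.ng_v]; norm_num)).trans (ta_dt98 x)
theorem tb_dt101 (x : ℝ) : dt101.val (fun p x => kcg.v p x) (1 / 2) (cT (1 / 2)) x = (0) :=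
  (DT.val_gt (by simp only [Cn.rt_v, Cn.ng_v]; norm_num)).trans (tb_dt100 x)
theorem ta_dt102 (x : ℝ) : dt102.val (fun p x => kcg.v p x) (2 / 5) (cT (2 / 5)) x = (2391277863 / 25000000000 + (x - 38847 / 40000) * (1106841 / 2500000)) :=
  (DT.val_le (by simp only [Cn.rt_v, Cn.ng_v]; norm_num)).trans (ta_dt97 x)
theorem tb_dt102 (x : ℝ) : dt102.val (fun p x => kcg.v p x) (1 / 2) (cT (1 / 2)) x = (0) :=
  (DT.val_gt (by simp only [Cn.rt_v, Cn.ng_v]; norm_num)).trans (tb_dt101 x)
theorem ta_dt103 (x : ℝ) : dt103.val (fun p x => kcg.v p x) (-1 / 10) (cT (-1 / 10)) x = (4485115121 / 20000000000 + (x - 38847 / 40000) * (1536897 / 2000000)) :=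
  (DT.val_le (by simp only [Cn.rt_v, Cn.ng_v]; norm_num)).trans (ta_dt94 x)
theorem tb_dt103 (x : ℝ) : dt103.val (fun p x => kcg.v p x) (1 / 2) (cT (1 / 2)) x = (0) :=
  (DT.val_gt (by simp only [Cn.rt_v, Cn.ng_v]; norm_num)).trans (tb_dt102 x)
theorem ta_dt104 (x : ℝ) : dt104.val (fun p x => kcg.v p x) (-1 / 2) (cT (-1 / 2)) x = (0) :=
  (DT.val_le (by simp only [Cn.rt_v, Cn.ng_v]; norm_num)).trans (ta_dt86 x)
theorem tb_dt104 (x : ℝ) : dt104.val (fun p x => kcg.v p x) (1 / 2) (cT (1 / 2)) x = (0) :=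
  (DT.val_gt (by simp only [Cn.rt_v, Cn.ng_v]; norm_num)).trans (tb_dt103 x)
theorem to_dt34 (x : ℝ) : dt34.Ok (fun p x => kcg.v p x) x := trivial
theorem to_dt35 (x : ℝ) : dt35.Ok (fun p x => kcg.v p x) x := trivial
theorem to_dt70 (x : ℝ) : dt70.Ok (fun p x => kcg.v p x) x :=
  DT.ok_node (v := -61 / 125) (by simp only [Cn.rt_v, Cn.ng_v]; norm_num) (by rw [abs_le]; constructor <;> norm_num) rfl (tb_dt34 x) (ta_dt35 x) (by ring1) (to_dt34 x) (to_dt35 x)
theorem to_dt36 (x : ℝ) : dt36.Ok (fun p x => kcg.v p x) x := trivial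
theorem to_dt37 (x : ℝ) : dt37.Ok (fun p x => kcg.v p x) x := trivial
theorem to_dt71 (x : ℝ) : dt71.Ok (fun p x => kcg.v p x) x :=
  DT.ok_node (v := -94829 / 200000) (by simp only [Cn.rt_v, Cn.ng_v]; norm_num) (by rw [abs_le]; constructor <;> norm_num) rfl (tb_dt36 x) (ta_dt37 x) (by ring1) (to_dt36 x) (to_dt37 x)
theorem to_dt72 (x : ℝ) : dt72.Ok (fun p x => kcg.v p x) x :=
  DT.ok_node (v := -481 / 1000) (by simp only [Cn.rt_v, Cn.ng_v]; norm_num) (by rw [abs_le]; constructor <;> norm_num) rfl (tb_dt70 x) (ta_dt71 x) (by ring1) (to_dt70 x) (to_dt71 x)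
theorem to_dt38 (x : ℝ) : dt38.Ok (fun p x => kcg.v p x) x := trivial
theorem to_dt39 (x : ℝ) : dt39.Ok (fun p x => kcg.v p x) x := trivial
theorem to_dt73 (x : ℝ) : dt73.Ok (fun p x => kcg.v p x) x :=
  DT.ok_node (v := -89667 / 200000) (by simp only [Cn.rt_v, Cn.ng_v]; norm_num) (by rw [abs_le]; constructor <;> norm_num) rfl (tb_dt38 x) (ta_dt39 x) (by ring1) (to_dt38 x) (to_dt39 x)
theorem to_dt40 (x : ℝ) : dt40.Ok (fun p x => kcg.v p x) x := trivial
theorem to_dt41 (x : ℝ) : dt41.Ok (fun p x => kcg.v p x) x := trivial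
theorem to_dt42 (x : ℝ) : dt42.Ok (fun p x => kcg.v p x) x := trivial
theorem to_dt74 (x : ℝ) : dt74.Ok (fun p x => kcg.v p x) x :=
  DT.ok_node (v := -21 / 50) (by simp only [Cn.rt_v, Cn.ng_v]; norm_num) (by rw [abs_le]; constructor <;> norm_num) rfl (tb_dt41 x) (ta_dt42 x) (by ring1) (to_dt41 x) (to_dt42 x)
theorem to_dt75 (x : ℝ) : dt75.Ok (fun p x => kcg.v p x) x :=
  DT.ok_node (v := -43 / 100) (by simp only [Cn.rt_v, Cn.ng_v]; norm_num) (by rw [abs_le]; constructor <;> norm_num) rfl (tb_dt40 x) (ta_dt74 x) (by ring1) (to_dt40 x) (to_dt74 x)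
theorem to_dt76 (x : ℝ) : dt76.Ok (fun p x => kcg.v p x) x :=
  DT.ok_node (v := -11 / 25) (by simp only [Cn.rt_v, Cn.ng_v]; norm_num) (by rw [abs_le]; constructor <;> norm_num) rfl (tb_dt73 x) (ta_dt75 x) (by ring1) (to_dt73 x) (to_dt75 x)
theorem to_dt77 (x : ℝ) : dt77.Ok (fun p x => kcg.v p x) x :=
  DT.ok_node (v := -23 / 50) (by simp only [Cn.rt_v, Cn.ng_v]; norm_num) (by rw [abs_le]; constructor <;> norm_num) rfl (tb_dt72 x) (ta_dt76 x) (by ring1) (to_dt72 x) (to_dt76 x)
theorem to_dt43 (x : ℝ) : dt43.Ok (fun p x => kcg.v p x) x := trivial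
theorem to_dt44 (x : ℝ) : dt44.Ok (fun p x => kcg.v p x) x := trivial
theorem to_dt78 (x : ℝ) : dt78.Ok (fun p x => kcg.v p x) x :=
  DT.ok_node (v := -2 / 5) (by simp only [Cn.rt_v, Cn.ng_v]; norm_num) (by rw [abs_le]; constructor <;> norm_num) rfl (tb_dt43 x) (ta_dt44 x) (by ring1) (to_dt43 x) (to_dt44 x)
theorem to_dt45 (x : ℝ) : dt45.Ok (fun p x => kcg.v p x) x := trivial
theorem to_dt46 (x : ℝ) : dt46.Ok (fun p x => kcg.v p x) x := trivial
theorem to_dt79 (x : ℝ) : dt79.Ok (fun p x => kcg.v p x) x :=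
  DT.ok_node (v := -3 / 8) (by simp only [Cn.rt_v, Cn.ng_v]; norm_num) (by rw [abs_le]; constructor <;> norm_num) rfl (tb_dt45 x) (ta_dt46 x) (by ring1) (to_dt45 x) (to_dt46 x)
theorem to_dt80 (x : ℝ) : dt80.Ok (fun p x => kcg.v p x) x :=
  DT.ok_node (v := -39 / 100) (by simp only [Cn.rt_v, Cn.ng_v]; norm_num) (by rw [abs_le]; constructor <;> norm_num) rfl (tb_dt78 x) (ta_dt79 x) (by ring1) (to_dt78 x) (to_dt79 x)
theorem to_dt47 (x : ℝ) : dt47.Ok (fun p x => kcg.v p x) x := trivial
theorem to_dt48 (x : ℝ) : dt48.Ok (fun p x => kcg.v p x) x := trivial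
theorem to_dt81 (x : ℝ) : dt81.Ok (fun p x => kcg.v p x) x :=
  DT.ok_node (v := -3 / 10) (by simp only [Cn.rt_v, Cn.ng_v]; norm_num) (by rw [abs_le]; constructor <;> norm_num) rfl (tb_dt47 x) (ta_dt48 x) (by ring1) (to_dt47 x) (to_dt48 x)
theorem to_dt49 (x : ℝ) : dt49.Ok (fun p x => kcg.v p x) x := trivial
theorem to_dt50 (x : ℝ) : dt50.Ok (fun p x => kcg.v p x) x := trivial
theorem to_dt51 (x : ℝ) : dt51.Ok (fun p x => kcg.v p x) x := trivial
theorem to_dt82 (x : ℝ) : dt82.Ok (fun p x => kcg.v p x) x :=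
  DT.ok_node (v := -3 / 20) (by simp only [Cn.rt_v, Cn.ng_v]; norm_num) (by rw [abs_le]; constructor <;> norm_num) rfl (tb_dt50 x) (ta_dt51 x) (by ring1) (to_dt50 x) (to_dt51 x)
theorem to_dt83 (x : ℝ) : dt83.Ok (fun p x => kcg.v p x) x :=
  DT.ok_node (v := -1 / 5) (by simp only [Cn.rt_v, Cn.ng_v]; norm_num) (by rw [abs_le]; constructor <;> norm_num) rfl (tb_dt49 x) (ta_dt82 x) (by ring1) (to_dt49 x) (to_dt82 x)
theorem to_dt84 (x : ℝ) : dt84.Ok (fun p x => kcg.v p x) x :=
  DT.ok_node (v := -1 / 4) (by simp only [Cn.rt_v, Cn.ng_v]; norm_num) (by rw [abs_le]; constructor <;> norm_num) rfl (tb_dt81 x) (ta_dt83 x) (by ring1) (to_dt81 x) (to_dt83 x)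
theorem to_dt85 (x : ℝ) : dt85.Ok (fun p x => kcg.v p x) x :=
  DT.ok_node (v := -7 / 20) (by simp only [Cn.rt_v, Cn.ng_v]; norm_num) (by rw [abs_le]; constructor <;> norm_num) rfl (tb_dt80 x) (ta_dt84 x) (by ring1) (to_dt80 x) (to_dt84 x)
theorem to_dt86 (x : ℝ) : dt86.Ok (fun p x => kcg.v p x) x :=
  DT.ok_node (v := -41 / 100) (by simp only [Cn.rt_v, Cn.ng_v]; norm_num) (by rw [abs_le]; constructor <;> norm_num) rfl (tb_dt77 x) (ta_dt85 x) (by ring1) (to_dt77 x) (to_dt85 x)
theorem to_dt52 (x : ℝ) : dt52.Ok (fun p x => kcg.v p x) x := trivial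
theorem to_dt53 (x : ℝ) : dt53.Ok (fun p x => kcg.v p x) x := trivial
theorem to_dt87 (x : ℝ) : dt87.Ok (fun p x => kcg.v p x) x :=
  DT.ok_node (v := 1 / 10) (by simp only [Cn.rt_v, Cn.ng_v]; norm_num) (by rw [abs_le]; constructor <;> norm_num) rfl (tb_dt52 x) (ta_dt53 x) (by ring1) (to_dt52 x) (to_dt53 x)
theorem to_dt54 (x : ℝ) : dt54.Ok (fun p x => kcg.v p x) x := trivial
theorem to_dt55 (x : ℝ) : dt55.Ok (fun p x => kcg.v p x) x := trivial
theorem to_dt88 (x : ℝ) : dt88.Ok (fun p x => kcg.v p x) x :=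
  DT.ok_node (v := 1 / 5) (by simp only [Cn.rt_v, Cn.ng_v]; norm_num) (by rw [abs_le]; constructor <;> norm_num) rfl (tb_dt54 x) (ta_dt55 x) (by ring1) (to_dt54 x) (to_dt55 x)
theorem to_dt89 (x : ℝ) : dt89.Ok (fun p x => kcg.v p x) x :=
  DT.ok_node (v := 3 / 20) (by simp only [Cn.rt_v, Cn.ng_v]; norm_num) (by rw [abs_le]; constructor <;> norm_num) rfl (tb_dt87 x) (ta_dt88 x) (by ring1) (to_dt87 x) (to_dt88 x)
theorem to_dt56 (x : ℝ) : dt56.Ok (fun p x => kcg.v p x) x := trivial
theorem to_dt57 (x : ℝ) : dt57.Ok (fun p x => kcg.v p x) x := trivial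
theorem to_dt90 (x : ℝ) : dt90.Ok (fun p x => kcg.v p x) x :=
  DT.ok_node (v := 3 / 10) (by simp only [Cn.rt_v, Cn.ng_v]; norm_num) (by rw [abs_le]; constructor <;> norm_num) rfl (tb_dt56 x) (ta_dt57 x) (by ring1) (to_dt56 x) (to_dt57 x)
theorem to_dt58 (x : ℝ) : dt58.Ok (fun p x => kcg.v p x) x := trivial
theorem to_dt59 (x : ℝ) : dt59.Ok (fun p x => kcg.v p x) x := trivial
theorem to_dt60 (x : ℝ) : dt60.Ok (fun p x => kcg.v p x) x := trivial
theorem to_dt91 (x : ℝ) : dt91.Ok (fun p x => kcg.v p x) x :=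
  DT.ok_node (v := 39 / 100) (by simp only [Cn.rt_v, Cn.ng_v]; norm_num) (by rw [abs_le]; constructor <;> norm_num) rfl (tb_dt59 x) (ta_dt60 x) (by ring1) (to_dt59 x) (to_dt60 x)
theorem to_dt92 (x : ℝ) : dt92.Ok (fun p x => kcg.v p x) x :=
  DT.ok_node (v := 3 / 8) (by simp only [Cn.rt_v, Cn.ng_v]; norm_num) (by rw [abs_le]; constructor <;> norm_num) rfl (tb_dt58 x) (ta_dt91 x) (by ring1) (to_dt58 x) (to_dt91 x)
theorem to_dt93 (x : ℝ) : dt93.Ok (fun p x => kcg.v p x) x :=
  DT.ok_node (v := 7 / 20) (by simp only [Cn.rt_v, Cn.ng_v]; norm_num) (by rw [abs_le]; constructor <;> norm_num) rfl (tb_dt90 x) (ta_dt92 x) (by ring1) (to_dt90 x) (to_dt92 x)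
theorem to_dt94 (x : ℝ) : dt94.Ok (fun p x => kcg.v p x) x :=
  DT.ok_node (v := 1 / 4) (by simp only [Cn.rt_v, Cn.ng_v]; norm_num) (by rw [abs_le]; constructor <;> norm_num) rfl (tb_dt89 x) (ta_dt93 x) (by ring1) (to_dt89 x) (to_dt93 x)
theorem to_dt61 (x : ℝ) : dt61.Ok (fun p x => kcg.v p x) x := trivial
theorem to_dt62 (x : ℝ) : dt62.Ok (fun p x => kcg.v p x) x := trivial
theorem to_dt95 (x : ℝ) : dt95.Ok (fun p x => kcg.v p x) x :=
  DT.ok_node (v := 41 / 100) (by simp only [Cn.rt_v, Cn.ng_v]; norm_num) (by rw [abs_le]; constructor <;> norm_num) rfl (tb_dt61 x) (ta_dt62 x) (by ring1) (to_dt61 x) (to_dt62 x)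
theorem to_dt63 (x : ℝ) : dt63.Ok (fun p x => kcg.v p x) x := trivial
theorem to_dt64 (x : ℝ) : dt64.Ok (fun p x => kcg.v p x) x := trivial
theorem to_dt96 (x : ℝ) : dt96.Ok (fun p x => kcg.v p x) x :=
  DT.ok_node (v := 43 / 100) (by simp only [Cn.rt_v, Cn.ng_v]; norm_num) (by rw [abs_le]; constructor <;> norm_num) rfl (tb_dt63 x) (ta_dt64 x) (by ring1) (to_dt63 x) (to_dt64 x)
theorem to_dt97 (x : ℝ) : dt97.Ok (fun p x => kcg.v p x) x :=
  DT.ok_node (v := 21 / 50) (by simp only [Cn.rt_v, Cn.ng_v]; norm_num) (by rw [abs_le]; constructor <;> norm_num) rfl (tb_dt95 x) (ta_dt96 x) (by ring1) (to_dt95 x) (to_dt96 x)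
theorem to_dt65 (x : ℝ) : dt65.Ok (fun p x => kcg.v p x) x := trivial
theorem to_dt66 (x : ℝ) : dt66.Ok (fun p x => kcg.v p x) x := trivial
theorem to_dt98 (x : ℝ) : dt98.Ok (fun p x => kcg.v p x) x :=
  DT.ok_node (v := 781 / 1742) (by simp only [Cn.rt_v, Cn.ng_v]; norm_num) (by rw [abs_le]; constructor <;> norm_num) ctA (tb_dt65 x) (ta_dt66 x) (by ring1) (to_dt65 x) (to_dt66 x)
theorem to_dt67 (x : ℝ) : dt67.Ok (fun p x => kcg.v p x) x := trivial
theorem to_dt68 (x : ℝ) : dt68.Ok (fun p x => kcg.v p x) x := trivial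
theorem to_dt69 (x : ℝ) : dt69.Ok (fun p x => kcg.v p x) x := trivial
theorem to_dt99 (x : ℝ) : dt99.Ok (fun p x => kcg.v p x) x :=
  DT.ok_node (v := 61 / 125) (by simp only [Cn.rt_v, Cn.ng_v]; norm_num) (by rw [abs_le]; constructor <;> norm_num) rfl (tb_dt68 x) (ta_dt69 x) (by ring1) (to_dt68 x) (to_dt69 x)
theorem to_dt100 (x : ℝ) : dt100.Ok (fun p x => kcg.v p x) x :=
  DT.ok_node (v := 481 / 1000) (by simp only [Cn.rt_v, Cn.ng_v]; norm_num) (by rw [abs_le]; constructor <;> norm_num) rfl (tb_dt67 x) (ta_dt99 x) (by ring1) (to_dt67 x) (to_dt99 x)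
theorem to_dt101 (x : ℝ) : dt101.Ok (fun p x => kcg.v p x) x :=
  DT.ok_node (v := 541 / 1141) (by simp only [Cn.rt_v, Cn.ng_v]; norm_num) (by rw [abs_le]; constructor <;> norm_num) ctB (tb_dt98 x) (ta_dt100 x) (by ring1) (to_dt98 x) (to_dt100 x)
theorem to_dt102 (x : ℝ) : dt102.Ok (fun p x => kcg.v p x) x :=
  DT.ok_node (v := 11 / 25) (by simp only [Cn.rt_v, Cn.ng_v]; norm_num) (by rw [abs_le]; constructor <;> norm_num) rfl (tb_dt97 x) (ta_dt101 x) (by ring1) (to_dt97 x) (to_dt101 x)
theorem to_dt103 (x : ℝ) : dt103.Ok (fun p x => kcg.v p x) x :=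
  DT.ok_node (v := 2 / 5) (by simp only [Cn.rt_v, Cn.ng_v]; norm_num) (by rw [abs_le]; constructor <;> norm_num) rfl (tb_dt94 x) (ta_dt102 x) (by ring1) (to_dt94 x) (to_dt102 x)
theorem to_dt104 (x : ℝ) : dt104.Ok (fun p x => kcg.v p x) x :=
  DT.ok_node (v := -1 / 10) (by simp only [Cn.rt_v, Cn.ng_v]; norm_num) (by rw [abs_le]; constructor <;> norm_num) rfl (tb_dt86 x) (ta_dt103 x) (by ring1) (to_dt86 x) (to_dt103 x)
theorem dok (x : ℝ) : dd.Ok x := ⟨ko_dt33 x, fun p h => kfe h, to_dt104 x⟩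
theorem K0_ (x : ℝ) : ∀ q y, OnC (0 : Fin 6) q y → TightK (tyO q) q (fun p => dd.kf.v p x) (c1n y) y (tK 0 q y x) := by
  refine K0_of (R := fun q y => tK 0 q y x) (kc := fun p => kcg.v p x) ?_ ?_ ?_
  · intro y h
    show tK 0 0 y x = _
    ·
      rw [← (atB00 h).K]
      show kf0q0.v y x = _
      simp only [kf0q0, kf0q0_9, kf0q0_12, c1g_v]
      ((try push_cast); (try simp only [mul_inv]); (try ring_nf))
  · intro y h
    show tK 0 1 y x = _
    ·
      rw [← (atB01 h).K]
      show kf0q1.v y x = _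
      simp only [kf0q1, kf0q1_10, c1g_v]
      ((try push_cast); (try simp only [mul_inv]); (try ring_nf))
  · intro y h
    show tK 0 2 y x = _
    ·
      have ey := yag_v h.1.nonneg (h.2 rfl)
      rw [← (atB02 h).K]
      show kfc02.v (c1n y) x = _
      simp only [kfc02, c1g_v, ey]
      ((try push_cast); (try simp only [mul_inv]); (try ring_nf))
theorem L0_ (x : ℝ) : ∀ q y, OnC (0 : Fin 6) q y → TightL (tyO q) (fun p c => dd.TX.val dd.kf.v p c x) (c1n y) y (tL 0 q y x) := by
  refine L0_of (R := fun q y => tL 0 q y x) (tx := fun p c => txg.v p c x) txe ?_ ?_ ?_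
  · intro y h
    show tL 0 0 y x = _
    ·
      rw [← (atB00 h).L]
      show l0q0.v y x = _
      simp only [l0q0, c1g_v]
      ((try push_cast); (try simp only [mul_inv]); (try ring_nf))
  · intro y h
    show tL 0 1 y x = _
    ·
      rw [← (atB01 h).L]
      show l0q1.v y x = _
      simp only [l0q1, c1g_v]
      ((try push_cast); (try simp only [mul_inv]); (try ring_nf))
  · intro y h
    show tL 0 2 y x = _
    ·
      have ey := yag_v h.1.nonneg (h.2 rfl)
      rw [← (atB02 h).L]
      show lc02.v (c1n y) x = _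
      simp only [lc02, lc02_7, lc02_8, c1g_v, ey]
      ((try push_cast); (try simp only [mul_inv]); (try ring_nf))
theorem Kn_ (x : ℝ) : ∀ q y, InQ q y → TightK (tyN q) q (fun p => dd.kf.v p x) (c3n y) y (tK (Fin.last 5) q y x) := by
  refine Kn_of (R := fun q y => tK 5 q y x) (kc := fun p => kcg.v p x) ?_ ?_ ?_ ?_
  · intro y h
    show tK 5 0 y x = _
    ·
      rw [← (atB50 (onc h (by decide))).K]
      show kf5q0.v y x = _
      simp only [kf5q0, c3g_v]
      ((try push_cast); (try simp only [mul_inv]); (try ring_nf))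
  · intro y h
    show tK 5 1 y x = _
    ·
      rw [← (atB51 (onc h (by decide))).K]
      show kf5q1.v y x = _
      simp only [kf5q1, c3g_v]
      ((try push_cast); (try simp only [mul_inv]); (try ring_nf))
  · intro y h
    show tK 5 2 y x = _
    ·
      rw [← (atB52 (onc h (by decide))).K]
      show kf5q2.v y x = _
      simp only [kf5q2, c3g_v]
      ((try push_cast); (try simp only [mul_inv]); (try ring_nf))
  · intro y h
    show tK 5 3 y x = _
    ·
      have ey := ycg_v h.nonneg h.le_two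
      rw [← (atB53 (onc h (by decide))).K]
      show kfc53.v (c3n y) x = _
      simp only [kfc53, c3g_v, ey]
      ((try push_cast); (try simp only [mul_inv]); (try ring_nf))
theorem Ln_ (x : ℝ) : ∀ q y, InQ q y → TightL (tyN q) (fun p c => dd.TX.val dd.kf.v p c x) (c3n y) y (tL (Fin.last 5) q y x) := by
  refine Ln_of (R := fun q y => tL 5 q y x) (tx := fun p c => txg.v p c x) txe ?_ ?_ ?_ ?_
  · intro y h
    show tL 5 0 y x = _
    ·
      rw [← (atB50 (onc h (by decide))).L]
      show l5q0.v y x = _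
      simp only [l5q0, l5q0_6, l5q0_7, l5q0_8, c3g_v]
      ((try push_cast); (try simp only [mul_inv]); (try ring_nf))
  · intro y h
    show tL 5 1 y x = _
    ·
      rw [← (atB51 (onc h (by decide))).L]
      show l5q1.v y x = _
      simp only [l5q1, l5q1_7, l5q1_8, l5q1_9, c3g_v]
      ((try push_cast); (try simp only [mul_inv]); (try ring_nf))
  · intro y h
    show tL 5 2 y x = _
    ·
      rw [← (atB52 (onc h (by decide))).L]
      show l5q2.v y x = _
      simp only [l5q2, l5q2_7, l5q2_8, l5q2_9, l5q2_12, l5q2_14, c3g_v]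
      ((try push_cast); (try simp only [mul_inv]); (try ring_nf))
  · intro y h
    show tL 5 3 y x = _
    ·
      have ey := ycg_v h.nonneg h.le_two
      rw [← (atB53 (onc h (by decide))).L]
      show lc53.v (c3n y) x = _
      simp only [lc53, lc53_7, lc53_8, lc53_9, lc53_12, lc53_14, c3g_v, ey]
      ((try push_cast); (try simp only [mul_inv]); (try ring_nf))
theorem f0_ : ∀ q y, InQ q y → (ff q).f.v y = crv PP 1 q y
  | 0, y, _ => ecv1q0.symm
  | 1, y, _ => ecv1q1.symm
  | 2, y, _ => ecv1q2.symm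
  | 3, y, h => (ecv1q3 h.1).symm
theorem fn_ : ∀ q y, InQ q y → (fl q).f.v y = crv PP 4 q y
  | 0, y, _ => ecv4q0.symm
  | 1, y, _ => ecv4q1.symm
  | 2, y, _ => ecv4q2.symm
  | 3, y, h => (ecv4q3 h.1).symm
theorem yK00 {y x : ℝ} (h : OnC (0 : Fin 6) 0 y) : tK 0 0 y x = kf0q0.v y x := (atB00 h).K.symm
theorem yK10 {y x : ℝ} (h : InQ 0 y) : tK 1 0 y x = kf1q0.v y x := (atB10 (onc h (by decide))).K.symm
theorem yK01 {y x : ℝ} (h : OnC (0 : Fin 6) 1 y) : tK 0 1 y x = kf0q1.v y x := (atB01 h).K.symm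
theorem yK11 {y x : ℝ} (h : InQ 1 y) : tK 1 1 y x = kf1q1.v y x := (atB11 (onc h (by decide))).K.symm
theorem yK02 {y x : ℝ} (h : OnC (0 : Fin 6) 2 y) : tK 0 2 y x = kf0q2.v y x := by
  rw [← (atB02 h).K]
  show kfc02.v (c1n y) x = _
  have ey := yag_v h.1.nonneg (h.2 rfl)
  simp only [kfc02, kf0q2, ey, c1g_v, c3g_v, swg_v]
  ((try push_cast); (try ring_nf))
theorem yK12 {y x : ℝ} (h : InQ 2 y) : tK 1 2 y x = kf1q2.v y x := (atB12 (onc h (by decide))).K.symm
theorem yK50 {y x : ℝ} (h : InQ 0 y) : tK 5 0 y x = kf5q0.v y x := (atB50 (onc h (by decide))).K.symm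
theorem yK40 {y x : ℝ} (h : InQ 0 y) : tK 4 0 y x = kf4q0.v y x := (atB40 (onc h (by decide))).K.symm
theorem yK51 {y x : ℝ} (h : InQ 1 y) : tK 5 1 y x = kf5q1.v y x := (atB51 (onc h (by decide))).K.symm
theorem yK41 {y x : ℝ} (h : InQ 1 y) : tK 4 1 y x = kf4q1.v y x := (atB41 (onc h (by decide))).K.symm
theorem yK52 {y x : ℝ} (h : InQ 2 y) : tK 5 2 y x = kf5q2.v y x := (atB52 (onc h (by decide))).K.symm
theorem yK42 {y x : ℝ} (h : InQ 2 y) : tK 4 2 y x = kf4q2.v y x := (atB42 (onc h (by decide))).K.symm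
theorem yK53 {y x : ℝ} (h : InQ 3 y) : tK 5 3 y x = kf5q3.v y x := by
  rw [← (atB53 (onc h (by decide))).K]
  show kfc53.v (c3n y) x = _
  have ey := ycg_v h.nonneg h.le_two
  simp only [kfc53, kf5q3, ey, c1g_v, c3g_v, swg_v]
  ((try push_cast); (try ring_nf))
theorem yK43 {y x : ℝ} (h : InQ 3 y) : tK 4 3 y x = kf4q3.v y x := by
  rw [← (atB43 (onc h (by decide))).K]
  show kfc43.v (c3n y) x = _
  have ey := ycg_v h.nonneg h.le_two
  simp only [kfc43, kfc43_11, kfc43_32, kf4q3, kf4q3_4, kf4q3_26, cv4r, ey, c1g_v, c3g_v, swg_v]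
  ((try push_cast); (try ring_nf))
theorem yL00 {y x : ℝ} (h : OnC (0 : Fin 6) 0 y) : tL 0 0 y x = l0q0.v y x := (atB00 h).L.symm
theorem yL10 {y x : ℝ} (h : InQ 0 y) : tL 1 0 y x = l1q0.v y x := (atB10 (onc h (by decide))).L.symm
theorem yL01 {y x : ℝ} (h : OnC (0 : Fin 6) 1 y) : tL 0 1 y x = l0q1.v y x := (atB01 h).L.symm
theorem yL11 {y x : ℝ} (h : InQ 1 y) : tL 1 1 y x = l1q1.v y x := (atB11 (onc h (by decide))).L.symm
theorem yL02 {y x : ℝ} (h : OnC (0 : Fin 6) 2 y) : tL 0 2 y x = l0q2.v y x := by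
  rw [← (atB02 h).L]
  show lc02.v (c1n y) x = _
  have ey := yag_v h.1.nonneg (h.2 rfl)
  simp only [lc02, lc02_7, lc02_8, l0q2, l0q2_7, l0q2_8, ey, c1g_v, c3g_v, swg_v]
  ((try push_cast); (try ring_nf))
theorem yL12 {y x : ℝ} (h : InQ 2 y) : tL 1 2 y x = l1q2.v y x := (atB12 (onc h (by decide))).L.symm
theorem yL50 {y x : ℝ} (h : InQ 0 y) : tL 5 0 y x = l5q0.v y x := (atB50 (onc h (by decide))).L.symm
theorem yL40 {y x : ℝ} (h : InQ 0 y) : tL 4 0 y x = l4q0.v y x := (atB40 (onc h (by decide))).L.symm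
theorem yL51 {y x : ℝ} (h : InQ 1 y) : tL 5 1 y x = l5q1.v y x := (atB51 (onc h (by decide))).L.symm
theorem yL41 {y x : ℝ} (h : InQ 1 y) : tL 4 1 y x = l4q1.v y x := (atB41 (onc h (by decide))).L.symm
theorem yL52 {y x : ℝ} (h : InQ 2 y) : tL 5 2 y x = l5q2.v y x := (atB52 (onc h (by decide))).L.symm
theorem yL42 {y x : ℝ} (h : InQ 2 y) : tL 4 2 y x = l4q2.v y x := (atB42 (onc h (by decide))).L.symm
theorem yL53 {y x : ℝ} (h : InQ 3 y) : tL 5 3 y x = l5q3.v y x := by
  rw [← (atB53 (onc h (by decide))).L]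
  show lc53.v (c3n y) x = _
  have ey := ycg_v h.nonneg h.le_two
  simp only [lc53, lc53_7, lc53_8, lc53_9, lc53_12, lc53_14, l5q3, l5q3_7, l5q3_8, l5q3_9, l5q3_12, l5q3_14, ey, c1g_v, c3g_v, swg_v]
  ((try push_cast); (try ring_nf))
theorem yL43 {y x : ℝ} (h : InQ 3 y) : tL 4 3 y x = l4q3.v y x := by
  rw [← (atB43 (onc h (by decide))).L]
  show lc43.v (c3n y) x = _
  have ey := ycg_v h.nonneg h.le_two
  simp only [lc43, lc43_11, l4q3, l4q3_4, cv4r, ey, c1g_v, c3g_v, swg_v]
  ((try push_cast); (try ring_nf))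
theorem sK0_ (x : ℝ) : ∀ q y, OnC (0 : Fin 6) q y → c1n y < crv PP 1 q y →
    (ff q).SK.v y x * (crv PP 1 q y - c1n y) = tK 1 q y x - tK 0 q y x := by
  intro q y h hlt
  rcases onC_q h with rfl | rfl | rfl
  · rw [yK10 h.1, yK00 h]
    rw [ecv1q0, ← c1g_v] at hlt ⊢
    have hd : 0 < cv1m.v y - c1g.v y := sub_pos.2 hlt
    have hi := inv_mul_cancel₀ hd.ne'
    show skf0.v y x * _ = _
    simp only [skf0, kf1q0]
    (try push_cast)
    linear_combination (c1g.v y * bf1q0.v y x - kf0q0.v y x) * hi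
  · rw [yK11 h.1, yK01 h]
    rw [ecv1q1, ← c1g_v] at hlt ⊢
    have hd : 0 < cv1m.v y - c1g.v y := sub_pos.2 hlt
    have hi := inv_mul_cancel₀ hd.ne'
    show skf1.v y x * _ = _
    simp only [skf1, kf1q1]
    (try push_cast)
    linear_combination (c1g.v y * bf1q1.v y x - kf0q1.v y x) * hi
  · rw [yK12 h.1, yK02 h]
    rw [ecv1q2, ← c1g_v] at hlt ⊢
    have hd : 0 < cv1p.v y - c1g.v y := sub_pos.2 hlt
    have hi := inv_mul_cancel₀ hd.ne'
    have hb : |c1g.v y| ≤ 1 / 2 := by rw [c1g_v]; exact bnd_O h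
    have eo := odd (x := x) hb
    show skf2.v y x * _ = _
    simp only [skf2, kf1q2, kf0q2, eo]
    (try push_cast)
    linear_combination (c1g.v y * (bf1q2.v y x - 1) + (y - 1) * kcg.v (c1g.v y) x) * hi
theorem sX0_ (x : ℝ) : ∀ q y, OnC (0 : Fin 6) q y → c1n y < crv PP 1 q y →
    (ff q).SX.v y x * (crv PP 1 q y - c1n y) = tL 1 q y x - tL 0 q y x := by
  intro q y h hlt
  rcases onC_q h with rfl | rfl | rfl
  · rw [yL10 h.1, yL00 h]
    rw [ecv1q0, ← c1g_v] at hlt ⊢
    have hd : 0 < cv1m.v y - c1g.v y := sub_pos.2 hlt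
    have hi := inv_mul_cancel₀ hd.ne'
    show sxf0.v y x * _ = _
    simp only [sxf0]
    (try push_cast)
    linear_combination (l1q0.v y x - l0q0.v y x) * hi
  · rw [yL11 h.1, yL01 h]
    rw [ecv1q1, ← c1g_v] at hlt ⊢
    have hd : 0 < cv1m.v y - c1g.v y := sub_pos.2 hlt
    have hi := inv_mul_cancel₀ hd.ne'
    show sxf1.v y x * _ = _
    simp only [sxf1]
    (try push_cast)
    linear_combination (l1q1.v y x - l0q1.v y x) * hi
  · rw [yL12 h.1, yL02 h]
    rw [ecv1q2, ← c1g_v] at hlt ⊢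
    have hd : 0 < cv1p.v y - c1g.v y := sub_pos.2 hlt
    have hi := inv_mul_cancel₀ hd.ne'
    show sxf2.v y x * _ = _
    simp only [sxf2]
    (try push_cast)
    linear_combination (l1q2.v y x - l0q2.v y x) * hi
theorem sKn_ (x : ℝ) : ∀ q y, InQ q y → crv PP 4 q y < c3n y →
    (fl q).SK.v y x * (c3n y - crv PP 4 q y) = tK 5 q y x - tK 4 q y x := by
  intro q y h hlt
  match q, h with
  | 0, h =>
    rw [yK50 h, yK40 h]
    rw [ecv4q0, ← c3g_v] at hlt ⊢
    have hd : 0 < c3g.v y - cv4m.v y := sub_pos.2 hlt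
    have hi := inv_mul_cancel₀ hd.ne'
    show skl0.v y x * _ = _
    simp only [skl0, kf4q0]
    (try push_cast)
    linear_combination (kf5q0.v y x - c3g.v y * bf4q0.v y x) * hi
  | 1, h =>
    rw [yK51 h, yK41 h]
    rw [ecv4q1, ← c3g_v] at hlt ⊢
    have hd : 0 < c3g.v y - cv4m.v y := sub_pos.2 hlt
    have hi := inv_mul_cancel₀ hd.ne'
    show skl1.v y x * _ = _
    simp only [skl1, kf4q1]
    (try push_cast)
    linear_combination (kf5q1.v y x - c3g.v y * bf4q1.v y x) * hi
  | 2, h =>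
    rw [yK52 h, yK42 h]
    rw [ecv4q2, ← c3g_v] at hlt ⊢
    have hd : 0 < c3g.v y - cv4p.v y := sub_pos.2 hlt
    have hi := inv_mul_cancel₀ hd.ne'
    show skl2.v y x * _ = _
    simp only [skl2, kf4q2]
    (try push_cast)
    linear_combination (kf5q2.v y x - c3g.v y * bf4q2.v y x) * hi
  | 3, h =>
    rw [yK53 h, yK43 h]
    rw [ecv4q3 h.1, ← c3g_v] at hlt ⊢
    have hd : 0 < c3g.v y - cv4r.v y := sub_pos.2 hlt
    have hi := inv_mul_cancel₀ hd.ne'
    have hB : kf4q3.v y x = cv4r.v y * bf4q3.v y x := by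
      simp only [kf4q3, kf4q3_4, kf4q3_26, bf4q3, bf4q3_3, bf4q3_25]
    show skl3.v y x * _ = _
    simp only [skl3, hB]
    (try push_cast)
    linear_combination (kf5q3.v y x - c3g.v y * bf4q3.v y x) * hi
theorem sXn_ (x : ℝ) : ∀ q y, InQ q y → crv PP 4 q y < c3n y →
    (fl q).SX.v y x * (c3n y - crv PP 4 q y) = tL 5 q y x - tL 4 q y x := by
  intro q y h hlt
  match q, h with
  | 0, h =>
    rw [yL50 h, yL40 h]
    rw [ecv4q0, ← c3g_v] at hlt ⊢
    have hd : 0 < c3g.v y - cv4m.v y := sub_pos.2 hlt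
    have hi := inv_mul_cancel₀ hd.ne'
    show sxl0.v y x * _ = _
    simp only [sxl0]
    (try push_cast)
    linear_combination (l5q0.v y x - l4q0.v y x) * hi
  | 1, h =>
    rw [yL51 h, yL41 h]
    rw [ecv4q1, ← c3g_v] at hlt ⊢
    have hd : 0 < c3g.v y - cv4m.v y := sub_pos.2 hlt
    have hi := inv_mul_cancel₀ hd.ne'
    show sxl1.v y x * _ = _
    simp only [sxl1]
    (try push_cast)
    linear_combination (l5q1.v y x - l4q1.v y x) * hi
  | 2, h =>
    rw [yL52 h, yL42 h]
    rw [ecv4q2, ← c3g_v] at hlt ⊢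
    have hd : 0 < c3g.v y - cv4p.v y := sub_pos.2 hlt
    have hi := inv_mul_cancel₀ hd.ne'
    show sxl2.v y x * _ = _
    simp only [sxl2]
    (try push_cast)
    linear_combination (l5q2.v y x - l4q2.v y x) * hi
  | 3, h =>
    rw [yL53 h, yL43 h]
    rw [ecv4q3 h.1, ← c3g_v] at hlt ⊢
    have hd : 0 < c3g.v y - cv4r.v y := sub_pos.2 hlt
    have hi := inv_mul_cancel₀ hd.ne'
    show sxl3.v y x * _ = _
    simp only [sxl3]
    (try push_cast)
    linear_combination (l5q3.v y x - l4q3.v y x) * hi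
theorem kn_ (x : ℝ) : ∀ X, |X| ≤ vv.k1.v → kcg.v (-X) x = -(k0c.v x * X) := by
  intro X h
  have h : |X| ≤ 1 / 10 := by
    refine h.trans_eq ?_
    show (Cn.rt 1 10).v = _
    rw [Cn.rt_v]
    norm_num
  obtain ⟨h1, h2⟩ := abs_le.1 h
  rw [kcl8 (p := -X) (by linarith) (by linarith)]
  simp only [k0c]
  push_cast
  ring
theorem tvm {p c x : ℝ} (h1 : -1 / 10 ≤ p) (h2 : p ≤ 1 / 10) : dt104.val (fun p x => kcg.v p x) p c x = (49464617039 / 200000000000 + (x - 38847 / 40000) * (15687423 / 20000000)) + (2476430229 / 20000000000 + (x - 38847 / 40000) * (409253 / 2000000)) * p + (-5342589 / 5000000 + (x - 38847 / 40000) * (227 / 500)) * p ^ 2 := by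
  rcases eq_or_lt_of_le h1 with h | h1
  · subst h
    refine (DT.val_le (by simp only [Cn.rt_v, Cn.ng_v]; push_cast; linarith)).trans ?_
    refine (DT.val_gt (by simp only [Cn.rt_v, Cn.ng_v]; push_cast; linarith)).trans ?_
    refine (DT.val_gt (by simp only [Cn.rt_v, Cn.ng_v]; push_cast; linarith)).trans ?_
    refine (DT.val_gt (by simp only [Cn.rt_v, Cn.ng_v]; push_cast; linarith)).trans ?_
    refine (DT.val_gt (by simp only [Cn.rt_v, Cn.ng_v]; push_cast; linarith)).trans ?_
    refine (DT.val_gt (by simp only [Cn.rt_v, Cn.ng_v]; push_cast; linarith)).trans ?_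
    simp only [dt51, DT.val, sw51, sl51, sv51]
    ((try push_cast); ring1)
  ·
    refine (DT.val_gt (by simp only [Cn.rt_v, Cn.ng_v]; push_cast; linarith)).trans ?_
    refine (DT.val_le (by simp only [Cn.rt_v, Cn.ng_v]; push_cast; linarith)).trans ?_
    refine (DT.val_le (by simp only [Cn.rt_v, Cn.ng_v]; push_cast; linarith)).trans ?_
    refine (DT.val_le (by simp only [Cn.rt_v, Cn.ng_v]; push_cast; linarith)).trans ?_
    refine (DT.val_le (by simp only [Cn.rt_v, Cn.ng_v]; push_cast; linarith)).trans ?_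
    simp only [dt52, DT.val, sw52, sl52, sv52]
    ((try push_cast); ring1)
theorem tn_ (x : ℝ) : ∀ X, |X| ≤ vv.k1.v → dd.tF x (-X) - dd.tF x X = m0c.v x * X := by
  intro X h
  have h : |X| ≤ 1 / 10 := by
    refine h.trans_eq ?_
    show (Cn.rt 1 10).v = _
    rw [Cn.rt_v]
    norm_num
  obtain ⟨h1, h2⟩ := abs_le.1 h
  show dt104.val (fun p x => kcg.v p x) (-X) (cT (-X)) x - dt104.val (fun p x => kcg.v p x) X (cT X) x = _
  rw [tvm (by linarith) (by linarith), tvm (by linarith) (by linarith)]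
  simp only [m0c]
  push_cast
  ring
theorem vK_ (x : ℝ) : ∀ y, InQ 2 y → tK 1 2 y x = crv PP 1 2 y * bf1q2.v y x := by
  intro y h
  rw [yK12 h, ecv1q2]
  simp only [kf1q2]
theorem vX_ (x : ℝ) : ∀ y, InQ 2 y → tL 1 2 y x = crv PP 1 2 y * bx1q2.v y x := by
  intro y h
  rw [yL12 h, ecv1q2]
  simp only [l1q2]
theorem n0_rK (y x : ℝ) : n0b.v y x = (1 - (y - 1) * k0c.v x) := by
  simp only [n0b, k0c]
  all_goals (try push_cast)
  all_goals (try ring)
theorem rK_ (x : ℝ) : ∀ y, OnC (0 : Fin 6) 2 y → c1n y < crv PP 1 2 y →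
    rhk.v y x * (crv PP 1 2 y - c1n y) = crv PP 1 2 y * (bf1q2.v y x - (1 - (y - 1) * k0c.v x)) := by
  intro y h hlt
  rw [ecv1q2, ← c1g_v] at hlt ⊢
  have hd : 0 < cv1p.v y - c1g.v y := sub_pos.2 hlt
  have hi := inv_mul_cancel₀ hd.ne'
  rw [← n0_rK]
  simp only [rhk]
  linear_combination ((bf1q2.v y x - n0b.v y x) * cv1p.v y) * hi
theorem n0_rX (y x : ℝ) : n0x.v y x = m0c.v x := by
  simp only [n0x, m0c]
  all_goals (try push_cast)
  all_goals (try ring)
theorem rX_ (x : ℝ) : ∀ y, OnC (0 : Fin 6) 2 y → c1n y < crv PP 1 2 y →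
    rhx.v y x * (crv PP 1 2 y - c1n y) = crv PP 1 2 y * (bx1q2.v y x - m0c.v x) := by
  intro y h hlt
  rw [ecv1q2, ← c1g_v] at hlt ⊢
  have hd : 0 < cv1p.v y - c1g.v y := sub_pos.2 hlt
  have hi := inv_mul_cancel₀ hd.ne'
  rw [← n0_rX]
  simp only [rhx]
  linear_combination ((bx1q2.v y x - n0x.v y x) * cv1p.v y) * hi
theorem flat_ (x : ℝ) : ∀ y, InQ 2 y → vv.ya.v ≤ y → y ≤ vv.yb.v → bf1q2.v y x = 1 - (y - 1) * k0c.v x ∧ bx1q2.v y x = m0c.v x := by
  intro y h h1 h2
  have ea : vv.ya.v = 577 / 500 := by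
    show (Cn.rt 577 500).v = _
    rw [Cn.rt_v]
    norm_num
  have eb : vv.yb.v = 231 / 200 := by
    show (Cn.rt 231 200).v = _
    rw [Cn.rt_v]
    norm_num
  rw [ea] at h1
  rw [eb] at h2
  constructor
  · simp only [bf1q2, bf1q2_3, k0c]
    rcases eq_or_lt_of_le h1 with g | h1
    · subst g
      ((try push_cast); (repeat first | rw [if_pos (by linarith)] | rw [if_neg (by linarith)] | erw [if_pos (by linarith)] | erw [if_neg (by linarith)]); (try push_cast); (try ring1))
    rcases eq_or_lt_of_le h2 with g | h2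
    · subst g
      ((try push_cast); (repeat first | rw [if_pos (by linarith)] | rw [if_neg (by linarith)] | erw [if_pos (by linarith)] | erw [if_neg (by linarith)]); (try push_cast); (try ring1))
    · ((try push_cast); (repeat first | rw [if_pos (by linarith)] | rw [if_neg (by linarith)] | erw [if_pos (by linarith)] | erw [if_neg (by linarith)]); (try push_cast); (try ring1))
  · simp only [bx1q2, bx1q2_3, m0c]
    rcases eq_or_lt_of_le h1 with g | h1
    · subst g
      ((try push_cast); (repeat first | rw [if_pos (by linarith)] | rw [if_neg (by linarith)] | erw [if_pos (by linarith)] | erw [if_neg (by linarith)]); (try push_cast); (try ring1))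
    rcases eq_or_lt_of_le h2 with g | h2
    · subst g
      ((try push_cast); (repeat first | rw [if_pos (by linarith)] | rw [if_neg (by linarith)] | erw [if_pos (by linarith)] | erw [if_neg (by linarith)]); (try push_cast); (try ring1))
    · ((try push_cast); (repeat first | rw [if_pos (by linarith)] | rw [if_neg (by linarith)] | erw [if_pos (by linarith)] | erw [if_neg (by linarith)]); (try push_cast); (try ring1))
theorem abk_ (x : ℝ) : ∀ y, InQ 2 y → vv.yb.v ≤ y → y ≤ vv.yk.v → bf1q2.v y x = 1 - (y - 1) * k0c.v x + sbk.v x * (y - vv.yb.v) ∧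
    bx1q2.v y x = m0c.v x + sbx.v x * (y - vv.yb.v) := by
  intro y h h1 h2
  have eb : vv.yb.v = 231 / 200 := by
    show (Cn.rt 231 200).v = _
    rw [Cn.rt_v]
    norm_num
  have ek : vv.yk.v = 13 / 10 := by
    show (Cn.rt 13 10).v = _
    rw [Cn.rt_v]
    norm_num
  rw [eb] at h1 ⊢
  rw [ek] at h2
  constructor
  · simp only [bf1q2, bf1q2_3, k0c, sbk]
    rcases eq_or_lt_of_le h1 with g | h1
    · subst g
      ((try push_cast); (repeat first | rw [if_pos (by linarith)] | rw [if_neg (by linarith)] | erw [if_pos (by linarith)] | erw [if_neg (by linarith)]); (try push_cast); (try ring1))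
    rcases eq_or_lt_of_le h2 with g | h2
    · subst g
      ((try push_cast); (repeat first | rw [if_pos (by linarith)] | rw [if_neg (by linarith)] | erw [if_pos (by linarith)] | erw [if_neg (by linarith)]); (try push_cast); (try ring1))
    · ((try push_cast); (repeat first | rw [if_pos (by linarith)] | rw [if_neg (by linarith)] | erw [if_pos (by linarith)] | erw [if_neg (by linarith)]); (try push_cast); (try ring1))
  · simp only [bx1q2, bx1q2_3, m0c, sbx]
    rcases eq_or_lt_of_le h1 with g | h1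
    · subst g
      ((try push_cast); (repeat first | rw [if_pos (by linarith)] | rw [if_neg (by linarith)] | erw [if_pos (by linarith)] | erw [if_neg (by linarith)]); (try push_cast); (try ring1))
    rcases eq_or_lt_of_le h2 with g | h2
    · subst g
      ((try push_cast); (repeat first | rw [if_pos (by linarith)] | rw [if_neg (by linarith)] | erw [if_pos (by linarith)] | erw [if_neg (by linarith)]); (try push_cast); (try ring1))
    · ((try push_cast); (repeat first | rw [if_pos (by linarith)] | rw [if_neg (by linarith)] | erw [if_pos (by linarith)] | erw [if_neg (by linarith)]); (try push_cast); (try ring1))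
theorem ka_dt105 (x : ℝ) : dt105.kv (-1 / 4) x = (407622739 / 200000000000 + (x - 38847 / 40000) * (-2571677 / 20000000)) := by
  simp only [dt105, DT.kv, sw105, sl105, sv105]
  ((try push_cast); ring1)
theorem kb_dt105 (x : ℝ) : dt105.kv (-1 / 5) x = (318421707 / 100000000000 + (x - 38847 / 40000) * (-514101 / 10000000)) := by
  simp only [dt105, DT.kv, sw105, sl105, sv105]
  ((try push_cast); ring1)
theorem ka_dt106 (x : ℝ) : dt106.kv (-1 / 5) x = (318421707 / 100000000000 + (x - 38847 / 40000) * (-514101 / 10000000)) := by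
  simp only [dt106, DT.kv, sw106, sl106, sv106]
  ((try push_cast); ring1)
theorem kb_dt106 (x : ℝ) : dt106.kv (-3 / 20) x = (195103807 / 200000000000 + (x - 38847 / 40000) * (-236401 / 20000000)) := by
  simp only [dt106, DT.kv, sw106, sl106, sv106]
  ((try push_cast); ring1)
theorem ka_dt107 (x : ℝ) : dt107.kv (-3 / 20) x = (195103807 / 200000000000 + (x - 38847 / 40000) * (-236401 / 20000000)) := by
  simp only [dt107, DT.kv, sw107, sl107, sv107]
  ((try push_cast); ring1)
theorem kb_dt107 (x : ℝ) : dt107.kv (-1 / 10) x = (0) := by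
  simp only [dt107, DT.kv, sw107, sl107, sv107]
  ((try push_cast); ring1)
theorem ka_dt112 (x : ℝ) : dt112.kv (-1 / 5) x = (318421707 / 100000000000 + (x - 38847 / 40000) * (-514101 / 10000000)) :=
  (DT.kv_le (by simp only [Cn.rt_v, Cn.ng_v]; norm_num)).trans (ka_dt106 x)
theorem kb_dt112 (x : ℝ) : dt112.kv (-1 / 10) x = (0) :=
  (DT.kv_gt (by simp only [Cn.rt_v, Cn.ng_v]; norm_num)).trans (kb_dt107 x)
theorem ka_dt113 (x : ℝ) : dt113.kv (-1 / 4) x = (407622739 / 200000000000 + (x - 38847 / 40000) * (-2571677 / 20000000)) :=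
  (DT.kv_le (by simp only [Cn.rt_v, Cn.ng_v]; norm_num)).trans (ka_dt105 x)
theorem kb_dt113 (x : ℝ) : dt113.kv (-1 / 10) x = (0) :=
  (DT.kv_gt (by simp only [Cn.rt_v, Cn.ng_v]; norm_num)).trans (kb_dt112 x)
theorem ka_dt108 (x : ℝ) : dt108.kv (-1 / 10) x = (0) := by
  simp only [dt108, DT.kv, sl108, sv108]
  ((try push_cast); ring1)
theorem kb_dt108 (x : ℝ) : dt108.kv (1 / 10) x = (0) := by
  simp only [dt108, DT.kv, sl108, sv108]
  ((try push_cast); ring1)
theorem ka_dt109 (x : ℝ) : dt109.kv (1 / 10) x = (0) := by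
  simp only [dt109, DT.kv, sw109, sl109, sv109]
  ((try push_cast); ring1)
theorem kb_dt109 (x : ℝ) : dt109.kv (3 / 20) x = (-195103807 / 200000000000 + (x - 38847 / 40000) * (236401 / 20000000)) := by
  simp only [dt109, DT.kv, sw109, sl109, sv109]
  ((try push_cast); ring1)
theorem ka_dt114 (x : ℝ) : dt114.kv (-1 / 10) x = (0) :=
  (DT.kv_le (by simp only [Cn.rt_v, Cn.ng_v]; norm_num)).trans (ka_dt108 x)
theorem kb_dt114 (x : ℝ) : dt114.kv (3 / 20) x = (-195103807 / 200000000000 + (x - 38847 / 40000) * (236401 / 20000000)) :=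
  (DT.kv_gt (by simp only [Cn.rt_v, Cn.ng_v]; norm_num)).trans (kb_dt109 x)
theorem ka_dt110 (x : ℝ) : dt110.kv (3 / 20) x = (-195103807 / 200000000000 + (x - 38847 / 40000) * (236401 / 20000000)) := by
  simp only [dt110, DT.kv, sw110, sl110, sv110]
  ((try push_cast); ring1)
theorem kb_dt110 (x : ℝ) : dt110.kv (1 / 5) x = (-318421707 / 100000000000 + (x - 38847 / 40000) * (514101 / 10000000)) := by
  simp only [dt110, DT.kv, sw110, sl110, sv110]
  ((try push_cast); ring1)
theorem ka_dt111 (x : ℝ) : dt111.kv (1 / 5) x = (-318421707 / 100000000000 + (x - 38847 / 40000) * (514101 / 10000000)) := by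
  simp only [dt111, DT.kv, sw111, sl111, sv111]
  ((try push_cast); ring1)
theorem kb_dt111 (x : ℝ) : dt111.kv (1 / 4) x = (-407622739 / 200000000000 + (x - 38847 / 40000) * (2571677 / 20000000)) := by
  simp only [dt111, DT.kv, sw111, sl111, sv111]
  ((try push_cast); ring1)
theorem ka_dt115 (x : ℝ) : dt115.kv (3 / 20) x = (-195103807 / 200000000000 + (x - 38847 / 40000) * (236401 / 20000000)) :=
  (DT.kv_le (by simp only [Cn.rt_v, Cn.ng_v]; norm_num)).trans (ka_dt110 x)
theorem kb_dt115 (x : ℝ) : dt115.kv (1 / 4) x = (-407622739 / 200000000000 + (x - 38847 / 40000) * (2571677 / 20000000)) :=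
  (DT.kv_gt (by simp only [Cn.rt_v, Cn.ng_v]; norm_num)).trans (kb_dt111 x)
theorem ka_dt116 (x : ℝ) : dt116.kv (-1 / 10) x = (0) :=
  (DT.kv_le (by simp only [Cn.rt_v, Cn.ng_v]; norm_num)).trans (ka_dt114 x)
theorem kb_dt116 (x : ℝ) : dt116.kv (1 / 4) x = (-407622739 / 200000000000 + (x - 38847 / 40000) * (2571677 / 20000000)) :=
  (DT.kv_gt (by simp only [Cn.rt_v, Cn.ng_v]; norm_num)).trans (kb_dt115 x)
theorem ka_dt117 (x : ℝ) : dt117.kv (-1 / 4) x = (407622739 / 200000000000 + (x - 38847 / 40000) * (-2571677 / 20000000)) :=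
  (DT.kv_le (by simp only [Cn.rt_v, Cn.ng_v]; norm_num)).trans (ka_dt113 x)
theorem kb_dt117 (x : ℝ) : dt117.kv (1 / 4) x = (-407622739 / 200000000000 + (x - 38847 / 40000) * (2571677 / 20000000)) :=
  (DT.kv_gt (by simp only [Cn.rt_v, Cn.ng_v]; norm_num)).trans (kb_dt116 x)
theorem ko_dt105 (x : ℝ) : dt105.KOk x := trivial
theorem ko_dt106 (x : ℝ) : dt106.KOk x := trivial
theorem ko_dt107 (x : ℝ) : dt107.KOk x := trivial
theorem ko_dt112 (x : ℝ) : dt112.KOk x :=
  DT.kOk_node (v := -3 / 20) (by simp only [Cn.rt_v, Cn.ng_v]; norm_num) (kb_dt106 x) (ka_dt107 x) (by ring1) (ko_dt106 x) (ko_dt107 x)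
theorem ko_dt113 (x : ℝ) : dt113.KOk x :=
  DT.kOk_node (v := -1 / 5) (by simp only [Cn.rt_v, Cn.ng_v]; norm_num) (kb_dt105 x) (ka_dt112 x) (by ring1) (ko_dt105 x) (ko_dt112 x)
theorem ko_dt108 (x : ℝ) : dt108.KOk x := trivial
theorem ko_dt109 (x : ℝ) : dt109.KOk x := trivial
theorem ko_dt114 (x : ℝ) : dt114.KOk x :=
  DT.kOk_node (v := 1 / 10) (by simp only [Cn.rt_v, Cn.ng_v]; norm_num) (kb_dt108 x) (ka_dt109 x) (by ring1) (ko_dt108 x) (ko_dt109 x)
theorem ko_dt110 (x : ℝ) : dt110.KOk x := trivial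
theorem ko_dt111 (x : ℝ) : dt111.KOk x := trivial
theorem ko_dt115 (x : ℝ) : dt115.KOk x :=
  DT.kOk_node (v := 1 / 5) (by simp only [Cn.rt_v, Cn.ng_v]; norm_num) (kb_dt110 x) (ka_dt111 x) (by ring1) (ko_dt110 x) (ko_dt111 x)
theorem ko_dt116 (x : ℝ) : dt116.KOk x :=
  DT.kOk_node (v := 3 / 20) (by simp only [Cn.rt_v, Cn.ng_v]; norm_num) (kb_dt114 x) (ka_dt115 x) (by ring1) (ko_dt114 x) (ko_dt115 x)
theorem ko_dt117 (x : ℝ) : dt117.KOk x :=
  DT.kOk_node (v := -1 / 10) (by simp only [Cn.rt_v, Cn.ng_v]; norm_num) (kb_dt113 x) (ka_dt116 x) (by ring1) (ko_dt113 x) (ko_dt116 x)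
theorem phl0 {p x : ℝ} (h2 : p ≤ -1 / 5) : dt117.kv p x = (-6447851443 / 100000000000 + (x - 38847 / 40000) * (-1753651 / 10000000)) + (-50184179 / 80000000 + (x - 38847 / 40000) * (-18803 / 8000)) * p + (-14449429 / 10000000 + (x - 38847 / 40000) * (-8653 / 1000)) * p ^ 2 := by
  refine (DT.kv_le (by simp only [Cn.rt_v, Cn.ng_v]; push_cast; linarith)).trans ?_
  refine (DT.kv_le (by simp only [Cn.rt_v, Cn.ng_v]; push_cast; linarith)).trans ?_
  simp only [dt105, DT.kv, sw105, sl105, sv105]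
  ((try push_cast); ring1)
theorem phl1 {p x : ℝ} (h1 : -1 / 5 < p) (h2 : p ≤ -3 / 20) : dt117.kv p x = (-255859507 / 100000000000 + (x - 38847 / 40000) * (-844499 / 10000000)) + (-81008607 / 10000000000 + (x - 38847 / 40000) * (-1441199 / 1000000)) * p + (51533 / 500000 + (x - 38847 / 40000) * (-319 / 50)) * p ^ 2 := by
  refine (DT.kv_le (by simp only [Cn.rt_v, Cn.ng_v]; push_cast; linarith)).trans ?_
  refine (DT.kv_gt (by simp only [Cn.rt_v, Cn.ng_v]; push_cast; linarith)).trans ?_
  refine (DT.kv_le (by simp only [Cn.rt_v, Cn.ng_v]; push_cast; linarith)).trans ?_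
  simp only [dt106, DT.kv, sw106, sl106, sv106]
  ((try push_cast); ring1)
theorem phl2 {p x : ℝ} (h1 : -3 / 20 < p) (h2 : p ≤ -1 / 10) : dt117.kv p x = (390210593 / 100000000000 + (x - 38847 / 40000) * (-472799 / 10000000)) + (780420193 / 10000000000 + (x - 38847 / 40000) * (-945599 / 1000000)) * p + (243881 / 625000 + (x - 38847 / 40000) * (-591 / 125)) * p ^ 2 := by
  refine (DT.kv_le (by simp only [Cn.rt_v, Cn.ng_v]; push_cast; linarith)).trans ?_
  refine (DT.kv_gt (by simp only [Cn.rt_v, Cn.ng_v]; push_cast; linarith)).trans ?_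
  refine (DT.kv_gt (by simp only [Cn.rt_v, Cn.ng_v]; push_cast; linarith)).trans ?_
  simp only [dt107, DT.kv, sw107, sl107, sv107]
  ((try push_cast); ring1)
theorem phl3 {p x : ℝ} (h1 : -1 / 10 < p) (h2 : p ≤ 1 / 10) : dt117.kv p x = (0) + (0) * p := by
  refine (DT.kv_gt (by simp only [Cn.rt_v, Cn.ng_v]; push_cast; linarith)).trans ?_
  refine (DT.kv_le (by simp only [Cn.rt_v, Cn.ng_v]; push_cast; linarith)).trans ?_
  refine (DT.kv_le (by simp only [Cn.rt_v, Cn.ng_v]; push_cast; linarith)).trans ?_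
  simp only [dt108, DT.kv, sl108, sv108]
  ((try push_cast); ring1)
theorem phl4 {p x : ℝ} (h1 : 1 / 10 < p) (h2 : p ≤ 3 / 20) : dt117.kv p x = (-390210593 / 100000000000 + (x - 38847 / 40000) * (472799 / 10000000)) + (780420193 / 10000000000 + (x - 38847 / 40000) * (-945599 / 1000000)) * p + (-243881 / 625000 + (x - 38847 / 40000) * (591 / 125)) * p ^ 2 := by
  refine (DT.kv_gt (by simp only [Cn.rt_v, Cn.ng_v]; push_cast; linarith)).trans ?_
  refine (DT.kv_le (by simp only [Cn.rt_v, Cn.ng_v]; push_cast; linarith)).trans ?_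
  refine (DT.kv_gt (by simp only [Cn.rt_v, Cn.ng_v]; push_cast; linarith)).trans ?_
  simp only [dt109, DT.kv, sw109, sl109, sv109]
  ((try push_cast); ring1)
theorem phl5 {p x : ℝ} (h1 : 3 / 20 < p) (h2 : p ≤ 1 / 5) : dt117.kv p x = (255859507 / 100000000000 + (x - 38847 / 40000) * (844499 / 10000000)) + (-81008607 / 10000000000 + (x - 38847 / 40000) * (-1441199 / 1000000)) * p + (-51533 / 500000 + (x - 38847 / 40000) * (319 / 50)) * p ^ 2 := by
  refine (DT.kv_gt (by simp only [Cn.rt_v, Cn.ng_v]; push_cast; linarith)).trans ?_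
  refine (DT.kv_gt (by simp only [Cn.rt_v, Cn.ng_v]; push_cast; linarith)).trans ?_
  refine (DT.kv_le (by simp only [Cn.rt_v, Cn.ng_v]; push_cast; linarith)).trans ?_
  simp only [dt110, DT.kv, sw110, sl110, sv110]
  ((try push_cast); ring1)
theorem phl6 {p x : ℝ} (h1 : 1 / 5 < p) (h2 : p ≤ 1 / 4) : dt117.kv p x = (6447851443 / 100000000000 + (x - 38847 / 40000) * (1753651 / 10000000)) + (-50184179 / 80000000 + (x - 38847 / 40000) * (-18803 / 8000)) * p + (14449429 / 10000000 + (x - 38847 / 40000) * (8653 / 1000)) * p ^ 2 := by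
  refine (DT.kv_gt (by simp only [Cn.rt_v, Cn.ng_v]; push_cast; linarith)).trans ?_
  refine (DT.kv_gt (by simp only [Cn.rt_v, Cn.ng_v]; push_cast; linarith)).trans ?_
  refine (DT.kv_gt (by simp only [Cn.rt_v, Cn.ng_v]; push_cast; linarith)).trans ?_
  simp only [dt111, DT.kv, sw111, sl111, sv111]
  ((try push_cast); ring1)
theorem tvc15 {p x : ℝ} (h1 : -1 / 4 ≤ p) (h2 : p ≤ -1 / 5) : dt104.val (fun p x => kcg.v p x) p (cT p) x = (14787097959 / 50000000000 + (x - 38847 / 40000) * (3659363 / 5000000)) + (355143971 / 625000000 + (x - 38847 / 40000) * (-10103 / 62500)) * p + (-1575107 / 10000000 + (x - 38847 / 40000) * (301 / 1000)) * p ^ 2 := by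
  rcases eq_or_lt_of_le h1 with h | h1
  · subst h
    refine (DT.val_le (by simp only [Cn.rt_v, Cn.ng_v]; push_cast; linarith)).trans ?_
    refine (DT.val_gt (by simp only [Cn.rt_v, Cn.ng_v]; push_cast; linarith)).trans ?_
    refine (DT.val_gt (by simp only [Cn.rt_v, Cn.ng_v]; push_cast; linarith)).trans ?_
    refine (DT.val_le (by simp only [Cn.rt_v, Cn.ng_v]; push_cast; linarith)).trans ?_
    refine (DT.val_gt (by simp only [Cn.rt_v, Cn.ng_v]; push_cast; linarith)).trans ?_
    simp only [dt48, DT.val, sw48, sl48, sv48]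
    ((try push_cast); ring1)
  ·
    refine (DT.val_le (by simp only [Cn.rt_v, Cn.ng_v]; push_cast; linarith)).trans ?_
    refine (DT.val_gt (by simp only [Cn.rt_v, Cn.ng_v]; push_cast; linarith)).trans ?_
    refine (DT.val_gt (by simp only [Cn.rt_v, Cn.ng_v]; push_cast; linarith)).trans ?_
    refine (DT.val_gt (by simp only [Cn.rt_v, Cn.ng_v]; push_cast; linarith)).trans ?_
    refine (DT.val_le (by simp only [Cn.rt_v, Cn.ng_v]; push_cast; linarith)).trans ?_
    simp only [dt49, DT.val, sw49, sl49, sv49]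
    ((try push_cast); ring1)
theorem tvc16 {p x : ℝ} (h1 : -1 / 5 ≤ p) (h2 : p ≤ -3 / 20) : dt104.val (fun p x => kcg.v p x) p (cT p) x = (12173800223 / 50000000000 + (x - 38847 / 40000) * (4019611 / 5000000)) + (1139211 / 25000000 + (x - 38847 / 40000) * (1397 / 2500)) * p + (-7320857 / 5000000 + (x - 38847 / 40000) * (1051 / 500)) * p ^ 2 := by
  rcases eq_or_lt_of_le h1 with h | h1
  · subst h
    refine (DT.val_le (by simp only [Cn.rt_v, Cn.ng_v]; push_cast; linarith)).trans ?_
    refine (DT.val_gt (by simp only [Cn.rt_v, Cn.ng_v]; push_cast; linarith)).trans ?_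
    refine (DT.val_gt (by simp only [Cn.rt_v, Cn.ng_v]; push_cast; linarith)).trans ?_
    refine (DT.val_gt (by simp only [Cn.rt_v, Cn.ng_v]; push_cast; linarith)).trans ?_
    refine (DT.val_le (by simp only [Cn.rt_v, Cn.ng_v]; push_cast; linarith)).trans ?_
    simp only [dt49, DT.val, sw49, sl49, sv49]
    ((try push_cast); ring1)
  ·
    refine (DT.val_le (by simp only [Cn.rt_v, Cn.ng_v]; push_cast; linarith)).trans ?_
    refine (DT.val_gt (by simp only [Cn.rt_v, Cn.ng_v]; push_cast; linarith)).trans ?_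
    refine (DT.val_gt (by simp only [Cn.rt_v, Cn.ng_v]; push_cast; linarith)).trans ?_
    refine (DT.val_gt (by simp only [Cn.rt_v, Cn.ng_v]; push_cast; linarith)).trans ?_
    refine (DT.val_gt (by simp only [Cn.rt_v, Cn.ng_v]; push_cast; linarith)).trans ?_
    refine (DT.val_le (by simp only [Cn.rt_v, Cn.ng_v]; push_cast; linarith)).trans ?_
    simp only [dt50, DT.val, sw50, sl50, sv50]
    ((try push_cast); ring1)
theorem tvc17 {p x : ℝ} (h1 : -3 / 20 ≤ p) (h2 : p ≤ -1 / 10) : dt104.val (fun p x => kcg.v p x) p (cT p) x = (24328001623 / 100000000000 + (x - 38847 / 40000) * (7983911 / 10000000)) + (214763409 / 5000000000 + (x - 38847 / 40000) * (242513 / 500000)) * p + (-460281 / 312500 + (x - 38847 / 40000) * (232 / 125)) * p ^ 2 := by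
  rcases eq_or_lt_of_le h1 with h | h1
  · subst h
    refine (DT.val_le (by simp only [Cn.rt_v, Cn.ng_v]; push_cast; linarith)).trans ?_
    refine (DT.val_gt (by simp only [Cn.rt_v, Cn.ng_v]; push_cast; linarith)).trans ?_
    refine (DT.val_gt (by simp only [Cn.rt_v, Cn.ng_v]; push_cast; linarith)).trans ?_
    refine (DT.val_gt (by simp only [Cn.rt_v, Cn.ng_v]; push_cast; linarith)).trans ?_
    refine (DT.val_gt (by simp only [Cn.rt_v, Cn.ng_v]; push_cast; linarith)).trans ?_
    refine (DT.val_le (by simp only [Cn.rt_v, Cn.ng_v]; push_cast; linarith)).trans ?_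
    simp only [dt50, DT.val, sw50, sl50, sv50]
    ((try push_cast); ring1)
  ·
    refine (DT.val_le (by simp only [Cn.rt_v, Cn.ng_v]; push_cast; linarith)).trans ?_
    refine (DT.val_gt (by simp only [Cn.rt_v, Cn.ng_v]; push_cast; linarith)).trans ?_
    refine (DT.val_gt (by simp only [Cn.rt_v, Cn.ng_v]; push_cast; linarith)).trans ?_
    refine (DT.val_gt (by simp only [Cn.rt_v, Cn.ng_v]; push_cast; linarith)).trans ?_
    refine (DT.val_gt (by simp only [Cn.rt_v, Cn.ng_v]; push_cast; linarith)).trans ?_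
    refine (DT.val_gt (by simp only [Cn.rt_v, Cn.ng_v]; push_cast; linarith)).trans ?_
    simp only [dt51, DT.val, sw51, sl51, sv51]
    ((try push_cast); ring1)
theorem tvc18 {p x : ℝ} (h1 : -1 / 10 ≤ p) (h2 : p ≤ 1 / 10) : dt104.val (fun p x => kcg.v p x) p (cT p) x = (49464617039 / 200000000000 + (x - 38847 / 40000) * (15687423 / 20000000)) + (2476430229 / 20000000000 + (x - 38847 / 40000) * (409253 / 2000000)) * p + (-5342589 / 5000000 + (x - 38847 / 40000) * (227 / 500)) * p ^ 2 := by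
  rcases eq_or_lt_of_le h1 with h | h1
  · subst h
    refine (DT.val_le (by simp only [Cn.rt_v, Cn.ng_v]; push_cast; linarith)).trans ?_
    refine (DT.val_gt (by simp only [Cn.rt_v, Cn.ng_v]; push_cast; linarith)).trans ?_
    refine (DT.val_gt (by simp only [Cn.rt_v, Cn.ng_v]; push_cast; linarith)).trans ?_
    refine (DT.val_gt (by simp only [Cn.rt_v, Cn.ng_v]; push_cast; linarith)).trans ?_
    refine (DT.val_gt (by simp only [Cn.rt_v, Cn.ng_v]; push_cast; linarith)).trans ?_
    refine (DT.val_gt (by simp only [Cn.rt_v, Cn.ng_v]; push_cast; linarith)).trans ?_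
    simp only [dt51, DT.val, sw51, sl51, sv51]
    ((try push_cast); ring1)
  ·
    refine (DT.val_gt (by simp only [Cn.rt_v, Cn.ng_v]; push_cast; linarith)).trans ?_
    refine (DT.val_le (by simp only [Cn.rt_v, Cn.ng_v]; push_cast; linarith)).trans ?_
    refine (DT.val_le (by simp only [Cn.rt_v, Cn.ng_v]; push_cast; linarith)).trans ?_
    refine (DT.val_le (by simp only [Cn.rt_v, Cn.ng_v]; push_cast; linarith)).trans ?_
    refine (DT.val_le (by simp only [Cn.rt_v, Cn.ng_v]; push_cast; linarith)).trans ?_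
    simp only [dt52, DT.val, sw52, sl52, sv52]
    ((try push_cast); ring1)
theorem tvc19 {p x : ℝ} (h1 : 1 / 10 ≤ p) (h2 : p ≤ 3 / 20) : dt104.val (fun p x => kcg.v p x) p (cT p) x = (3089776527 / 12500000000 + (x - 38847 / 40000) * (938889 / 1250000)) + (633241609 / 5000000000 + (x - 38847 / 40000) * (434913 / 500000)) * p + (-676681 / 625000 + (x - 38847 / 40000) * (-359 / 125)) * p ^ 2 := by
  rcases eq_or_lt_of_le h1 with h | h1
  · subst h
    refine (DT.val_gt (by simp only [Cn.rt_v, Cn.ng_v]; push_cast; linarith)).trans ?_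
    refine (DT.val_le (by simp only [Cn.rt_v, Cn.ng_v]; push_cast; linarith)).trans ?_
    refine (DT.val_le (by simp only [Cn.rt_v, Cn.ng_v]; push_cast; linarith)).trans ?_
    refine (DT.val_le (by simp only [Cn.rt_v, Cn.ng_v]; push_cast; linarith)).trans ?_
    refine (DT.val_le (by simp only [Cn.rt_v, Cn.ng_v]; push_cast; linarith)).trans ?_
    simp only [dt52, DT.val, sw52, sl52, sv52]
    ((try push_cast); ring1)
  ·
    refine (DT.val_gt (by simp only [Cn.rt_v, Cn.ng_v]; push_cast; linarith)).trans ?_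
    refine (DT.val_le (by simp only [Cn.rt_v, Cn.ng_v]; push_cast; linarith)).trans ?_
    refine (DT.val_le (by simp only [Cn.rt_v, Cn.ng_v]; push_cast; linarith)).trans ?_
    refine (DT.val_le (by simp only [Cn.rt_v, Cn.ng_v]; push_cast; linarith)).trans ?_
    refine (DT.val_gt (by simp only [Cn.rt_v, Cn.ng_v]; push_cast; linarith)).trans ?_
    simp only [dt53, DT.val, sw53, sl53, sv53]
    ((try push_cast); ring1)
theorem tvc20 {p x : ℝ} (h1 : 3 / 20 ≤ p) (h2 : p ≤ 1 / 5) : dt104.val (fun p x => kcg.v p x) p (cT p) x = (24091740939 / 100000000000 + (x - 38847 / 40000) * (7194723 / 10000000)) + (525438609 / 2500000000 + (x - 38847 / 40000) * (322913 / 250000)) * p + (-6805527 / 5000000 + (x - 38847 / 40000) * (-2139 / 500)) * p ^ 2 := by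
  rcases eq_or_lt_of_le h1 with h | h1
  · subst h
    refine (DT.val_gt (by simp only [Cn.rt_v, Cn.ng_v]; push_cast; linarith)).trans ?_
    refine (DT.val_le (by simp only [Cn.rt_v, Cn.ng_v]; push_cast; linarith)).trans ?_
    refine (DT.val_le (by simp only [Cn.rt_v, Cn.ng_v]; push_cast; linarith)).trans ?_
    refine (DT.val_le (by simp only [Cn.rt_v, Cn.ng_v]; push_cast; linarith)).trans ?_
    refine (DT.val_gt (by simp only [Cn.rt_v, Cn.ng_v]; push_cast; linarith)).trans ?_
    simp only [dt53, DT.val, sw53, sl53, sv53]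
    ((try push_cast); ring1)
  ·
    refine (DT.val_gt (by simp only [Cn.rt_v, Cn.ng_v]; push_cast; linarith)).trans ?_
    refine (DT.val_le (by simp only [Cn.rt_v, Cn.ng_v]; push_cast; linarith)).trans ?_
    refine (DT.val_le (by simp only [Cn.rt_v, Cn.ng_v]; push_cast; linarith)).trans ?_
    refine (DT.val_gt (by simp only [Cn.rt_v, Cn.ng_v]; push_cast; linarith)).trans ?_
    refine (DT.val_le (by simp only [Cn.rt_v, Cn.ng_v]; push_cast; linarith)).trans ?_
    simp only [dt54, DT.val, sw54, sl54, sv54]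
    ((try push_cast); ring1)
theorem tvc21 {p x : ℝ} (h1 : 1 / 5 ≤ p) (h2 : p ≤ 1 / 4) : dt104.val (fun p x => kcg.v p x) p (cT p) x = (925053779 / 4000000000 + (x - 38847 / 40000) * (222603 / 400000)) + (766787267 / 2500000000 + (x - 38847 / 40000) * (730319 / 250000)) * p + (-2003067 / 1250000 + (x - 38847 / 40000) * (-1044 / 125)) * p ^ 2 := by
  rcases eq_or_lt_of_le h1 with h | h1
  · subst h
    refine (DT.val_gt (by simp only [Cn.rt_v, Cn.ng_v]; push_cast; linarith)).trans ?_
    refine (DT.val_le (by simp only [Cn.rt_v, Cn.ng_v]; push_cast; linarith)).trans ?_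
    refine (DT.val_le (by simp only [Cn.rt_v, Cn.ng_v]; push_cast; linarith)).trans ?_
    refine (DT.val_gt (by simp only [Cn.rt_v, Cn.ng_v]; push_cast; linarith)).trans ?_
    refine (DT.val_le (by simp only [Cn.rt_v, Cn.ng_v]; push_cast; linarith)).trans ?_
    simp only [dt54, DT.val, sw54, sl54, sv54]
    ((try push_cast); ring1)
  ·
    refine (DT.val_gt (by simp only [Cn.rt_v, Cn.ng_v]; push_cast; linarith)).trans ?_
    refine (DT.val_le (by simp only [Cn.rt_v, Cn.ng_v]; push_cast; linarith)).trans ?_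
    refine (DT.val_le (by simp only [Cn.rt_v, Cn.ng_v]; push_cast; linarith)).trans ?_
    refine (DT.val_gt (by simp only [Cn.rt_v, Cn.ng_v]; push_cast; linarith)).trans ?_
    refine (DT.val_gt (by simp only [Cn.rt_v, Cn.ng_v]; push_cast; linarith)).trans ?_
    simp only [dt55, DT.val, sw55, sl55, sv55]
    ((try push_cast); ring1)
theorem ph_ (x : ℝ) : ∀ u, |u| ≤ vv.k2.v → dd.tF x (-u) - dd.tF x u = m0c.v x * u + dt117.kv u x := by
  intro u h
  have h : |u| ≤ 1 / 4 := by
    refine h.trans_eq ?_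
    show (Cn.rt 1 4).v = _
    rw [Cn.rt_v]
    norm_num
  obtain ⟨h1, h2⟩ := abs_le.1 h
  show dt104.val (fun p x => kcg.v p x) (-u) (cT (-u)) x - dt104.val (fun p x => kcg.v p x) u (cT u) x = _
  rcases le_or_gt u (-1 / 5) with g0 | g1000
  ·
    rw [tvc21 (p := -u) (by linarith) (by linarith), tvc15 (p := u) (by linarith) (by linarith), phl0 g0]
    simp only [m0c]
    push_cast
    ring
  rcases le_or_gt u (-3 / 20) with g1 | g1001
  ·
    rw [tvc20 (p := -u) (by linarith) (by linarith), tvc16 (p := u) (by linarith) (by linarith), phl1 g1000 g1]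
    simp only [m0c]
    push_cast
    ring
  rcases le_or_gt u (-1 / 10) with g2 | g1002
  ·
    rw [tvc19 (p := -u) (by linarith) (by linarith), tvc17 (p := u) (by linarith) (by linarith), phl2 g1001 g2]
    simp only [m0c]
    push_cast
    ring
  rcases le_or_gt u (1 / 10) with g3 | g1003
  ·
    rw [tvc18 (p := -u) (by linarith) (by linarith), tvc18 (p := u) (by linarith) (by linarith), phl3 g1002 g3]
    simp only [m0c]
    push_cast
    ring
  rcases le_or_gt u (3 / 20) with g4 | g1004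
  ·
    rw [tvc17 (p := -u) (by linarith) (by linarith), tvc19 (p := u) (by linarith) (by linarith), phl4 g1003 g4]
    simp only [m0c]
    push_cast
    ring
  rcases le_or_gt u (1 / 5) with g5 | g1005
  ·
    rw [tvc16 (p := -u) (by linarith) (by linarith), tvc20 (p := u) (by linarith) (by linarith), phl5 g1004 g5]
    simp only [m0c]
    push_cast
    ring
  ·
    rw [tvc15 (p := -u) (by linarith) (by linarith), tvc21 (p := u) (by linarith) (by linarith), phl6 g1005 (by linarith)]
    simp only [m0c]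
    push_cast
    ring
theorem kqf_ {y : ℝ} (x : ℝ) (h : OnC (0 : Fin 6) 2 y) : kqf.v y x * c1g.v y = (y - 1) * kcg.v (c1g.v y) x := by
  have h0 : 0 ≤ c1g.v y := by rw [c1g_v]; exact c1n_nn y
  simp only [kqf]
  (try push_cast)
  split_ifs with hh
  · rw [kcl8 (p := c1g.v y) (by linarith) (by linarith)]
    ring
  · have hc : c1g.v y ≠ 0 := by
      intro e
      rw [e] at hh
      exact hh (by norm_num)
    have hi := inv_mul_cancel₀ hc
    linear_combination ((y - 1) * kcg.v (c1g.v y) x) * hi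
theorem sM_ (x : ℝ) : ∀ y, OnC (0 : Fin 6) 2 y → c1n y < crv PP 1 2 y →
    (1 + skm.v y x) * (crv PP 1 2 y - c1n y) = tK 1 2 y x - tK 0 2 y x := by
  intro y h hlt
  rw [yK12 h.1, yK02 h]
  rw [ecv1q2, ← c1g_v] at hlt ⊢
  have hd : 0 < cv1p.v y - c1g.v y := sub_pos.2 hlt
  have hi := inv_mul_cancel₀ hd.ne'
  have hb : |c1g.v y| ≤ 1 / 2 := by rw [c1g_v]; exact bnd_O h
  have eo := odd (x := x) hb
  have hk := kqf_ x h
  simp only [skm, kf1q2, kf0q2, eo]
  (try push_cast)
  linear_combination (cv1p.v y * ((bf1q2.v y x - 1) + kqf.v y x)) * hi + hk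
theorem ok (x : ℝ) : tt.Ok PP tK tL x where
  i0 := rfl
  il := rfl
  rl := by
    show 1 < PP.ρ 4
    have e : PP.ρ 4 = 17 / 10 := rfl
    rw [e]
    norm_num
  ok := dok x
  kh := rfl
  odd := fun p h => odd h
  K0 := K0_ x
  L0 := L0_ x
  Kn := Kn_ x
  Ln := Ln_ x
  f0 := f0_
  fn := fn_
  sK0 := sK0_ x
  sX0 := sX0_ x
  sKn := sKn_ x
  sXn := sXn_ x
  k1 := by
    show 0 ≤ (Cn.rt 1 10).v ∧ (Cn.rt 1 10).v ≤ 1 / 2
    rw [Cn.rt_v]
    constructor <;> norm_num
  kn := kn_ x
  tn := tn_ x
  vK := vK_ x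
  vX := vX_ x
  rK := rK_ x
  rX := rX_ x
  yb := by
    show 0 ≤ (Cn.rt 231 200).v ∧ 1 ≤ 3 / 4 * (Cn.rt 231 200).v ^ 2
    rw [Cn.rt_v]
    constructor <;> norm_num
  flat := flat_ x
  abk := abk_ x
  phk := ko_dt117 x
  ph := ph_ x
  sM := sM_ x
  yz := by
    show (Cn.rt 577 500).v ≤ (Cn.rt 577 500).v ∧ 0 ≤ (Cn.rt 577 500).v ∧ 1 ≤ 3 / 4 * (Cn.rt 577 500).v ^ 2 + (Cn.rt 1 10).v ^ 2
    simp only [Cn.rt_v]
    refine ⟨?_, ?_, ?_⟩ <;> norm_num
theorem okx {x : ℝ} (hx : ((1040187392 : ℕ) : ℝ) / S ≤ x) (hx' : x ≤ (((1040187392 : ℕ) : ℝ) + (5207648 : ℕ)) / S) : tt.Ok PP tK tL x := ok x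

end Pool.Agent.Strip051.G.I9688_9736.Tab.St
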