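import Pool.Agent.Strip051.G.I9688_9736.StH
import Pool.Agent.Strip051.G.I9688_9736.StF

/-! # Unit strips 2 (generated) -/

set_option linter.all false
set_option maxRecDepth 100000

namespace Pool.Agent.Strip051.G.I9688_9736.Tab.St.C

open Pool.Agent.Strip051.PB Pool.Agent.Strip051.PB.T Pool.Agent.StripNear Pool.Agent.Strip051.LC
open Pool.Agent.Strip051.G.I9688_9736.Tab Pool.Agent.Strip051.G.I9688_9736.Tab.St

noncomputable def cut_A00pp_022_s3 : Cut := Cut.of [[⟨3, 0, 0, 2845415833⟩], [⟨0, 0, 0, 22369621⟩, ⟨1, 1, 0, 22369621⟩, ⟨2, 1, 0, 22369621⟩]]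

noncomputable def xt_A00pp_022_s3 : Ext := strExt dd true true true .u0 .u2 .s2 .pp 0 2 2 rfl rfl gl2 vv ndB0q0 ndB0q2

noncomputable def f_A00pp_022_s3 : ℕ → ℕ → ℕ → ℕ → Bool := onCell 1073741824 536870912 0 536870912 1040187392 5207648
    (rowF 2 true true true .pp 0 2 2 (qsf 0 536870912 0 536870912 2) ndB0q0 ndB0q2 pcB2 cut_A00pp_022_s3 xt_A00pp_022_s3)

def k0_A00pp_022_s3 : ∃ t, chk3 f_A00pp_022_s3 t 2 2 1 = true :=
  ⟨(a (l 6) (a (l 6) (b (l 6) (b (l 6) (b (l 6) (a (a (l 6) (b (l 6) (l 15577784))) (a (b (l 15452608) (l 15589256)) (b (l 15464336) (l 15607760))))))))), by decide +kernel⟩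

def k1_A00pp_022_s3 : ∃ t, chk3 f_A00pp_022_s3 t 4 6 1 = true :=
  ⟨(a (l 1) (a (b (l 1) (b (a (l 1) (b (l 16431904) (l 16390304))) (a (b (l 16502776) (a (l 1) (l 16518832))) (b (a (l 16533664) (l 16498624)) (a (l 16572664) (l 16542400)))))) (b (a (l 6) (b (l 6) (b (l 6) (l 16197104)))) (b (a (b (l 16342504) (l 16394112)) (b (l 16257920) (l 16234680))) (a (b (a (l 16463024) (l 16427264)) (a (l 16511144) (l 16480680))) (a (b (l 16394688) (l 16453688)) (b (l 16366096) (l 16433120)))))))), by decide +kernel⟩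

def k2_A00pp_022_s3 : ∃ t, chk3 f_A00pp_022_s3 t 8 14 1 = true :=
  ⟨(a (l 1) (b (a (l 1) (b (l 1) (a (l 1) (b (l 16548088) (a (l 16594576) (l 16612112)))))) (a (b (l 1) (a (b (l 1) (a (l 1) (b (l 1) (a (l 1) (b (l 1) (a (l 1) (b (l 16619936) (a (l 16623000) (l 16624664))))))))) (b (a (b (l 1) (a (l 1) (l 16600864))) (b (a (l 16594856) (b (l 16599192) (l 16605464))) (a (b (l 16604704) (l 16611472)) (l 16615200)))) (a (b (a (b (l 1) (a (l 1) (l 16613488))) (b (a (l 16609672) (l 16613176)) (a (l 16616936) (l 16620352)))) (b (a (a (b (l 16615664) (a (l 16618616) (l 16620312))) (b (l 16619072) (l 16622832))) (l 16625984)) (a (a (b (l 16623296) (l 16627144)) (l 16628520)) (l 16633432)))) (b (b (l 16611352) (c (l 16623704) (l 16628656))) (a (b (l 16632608) (l 16639880)) (b (l 16639144) (l 16646256)))))))) (b (a (b (a (l 1) (b (l 16588776) (l 16597248))) (a (b (l 16590784) (a (l 16597840) (l 16605480))) (b (l 16606584) (l 16616816)))) (b (a (l 16609480) (l 16625768)) (a (l 16605872) (l 16599936))))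 (a (b (b (a (l 16613352) (l 16627840)) (a (c (l 16604928) (l 16625584)) (l 16618608))) (a (b (b (l 16635432) (l 16631576)) (a (b (l 16645608) (l 16652544)) (b (l 16652008) (l 16658784)))) (b (b (l 16648776) (l 16655080)) (a (b (l 16658352) (l 16664968)) (l 16657384))))) (b (a (b (l 16642112) (l 16653200)) (b (l 16656200) (l 16666664))) (a (b (l 16654408) (a (l 16674032) (l 16680152))) (b (l 16656752) (a (l 16686248) (l 16692328)))))))))), by decide +kernel⟩

def k3_A00pp_022_s3 : ∃ t, chk3 f_A00pp_022_s3 t 32 30 1 = true :=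
  ⟨(l 1), by decide +kernel⟩

def k4_A00pp_022_s3 : ∃ t, chk3 f_A00pp_022_s3 t 33 60 1 = true :=
  ⟨(a (l 1) (b (l 1) (a (l 1) (b (l 1) (a (l 1) (b (a (l 1) (b (a (l 1) (b (l 1) (a (l 1) (b (l 16653904) (a (l 16654776) (l 16655160)))))) (a (b (l 1) (a (l 16656312) (b (l 16656568) (l 16657616)))) (b (a (b (l 16655248) (a (l 16656104) (l 16656496))) (l 16656552)) (l 16658256))))) (a (b (a (l 1) (b (l 16657240) (a (l 16658928) (b (l 16659184) (l 16660216))))) (a (b (a (l 1) (l 16660216)) (a (l 16664120) (l 16662272))) (a (b (l 16660992) (l 16663040)) (l 16662784)))) (b (a (a (b (b (l 16657880) (l 16658920)) (l 16660472)) (l 16660216)) (l 16661368)) (l 16664688))))))))), by decide +kernel⟩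

def k5_A00pp_022_s3 : ∃ t, chk3 f_A00pp_022_s3 t 66 61 1 = true :=
  ⟨(b (l 1) (a (l 1) (b (a (l 1) (b (l 1) (a (b (l 1) (l 16684136)) (b (a (l 1) (b (l 16683160) (l 16685040))) (a (b (l 16685432) (l 16687312)) (l 16687848)))))) (a (b (a (l 1) (b (l 1) (a (l 1) (b (l 16688488) (l 16690360))))) (a (b (l 1) (l 14)) (b (a (b (l 16690752) (l 16692624)) (l 16693160)) (l 16696144)))) (a (b (b (a (l 16687160) (b (l 16687704) (l 16689576))) (a (b (l 16689968) (l 16691832)) (l 16692360))) (l 16697184)) (b (l 16692688) (l 16700024))))))), by decide +kernel⟩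

def k6_A00pp_022_s3 : ∃ t, chk3 f_A00pp_022_s3 t 67 122 1 = true :=
  ⟨(a (b (a (l 1) (b (l 1) (a (l 1) (b (l 1) (a (l 1) (b (l 16668272) (a (l 16669864) (l 16670624)))))))) (a (b (l 1) (a (l 1) (b (l 16674112) (a (l 16682448) (b (a (l 16677384) (l 16678136)) (l 16679664)))))) (b (a (b (l 1) (a (l 1) (b (l 16673064) (a (l 16674624) (l 16675384))))) (b (a (b (l 16670680) (a (l 16672256) (l 16673016))) (a (l 16672800) (l 16673552))) (a (l 16675544) (l 16677040)))) (b (a (a (b (a (l 16675048) (l 16675800)) (l 16677344)) (l 16677888)) (l 16680112)) (a (l 16680944) (l 16683880)))))) (b (a (b (a (b (l 1) (c (l 16663656) (l 16663504))) (b (a (l 16661848) (b (a (l 1) (b (l 16662256) (l 16663272))) (a (l 16664024) (l 16664792)))) (a (b (a (l 16664504) (l 16665272)) (a (l 16666512) (l 16667272))) (l 16667416)))) (a (b (a (b (l 1) (a (l 1) (l 16668200))) (b (a (l 16666976) (l 16667744)) (l 16669344))) (a (b (a (l 16669416) (l 16670176)) (l 16671760)) (l 16672288))) (b (l 16670624) (l 16674536)))) (a (b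 (b (a (l 16664928) (l 16666448)) (l 16669688)) (b (l 16673616) (l 16677480))) (b (b (l 16668712) (l 16672664)) (b (l 16676544) (l 16680376))))) (a (c (b (a (l 16677416) (l 16680352)) (a (l 16684976) (l 16687824))) (b (a (l 16677280) (l 16680216)) (a (l 16684848) (l 16687704)))) (b (a (c (l 16683232) (l 16683104)) (c (l 16686064) (l 16685936))) (a (l 16690568) (l 16693320)))))), by decide +kernel⟩

def k7_A00pp_022_s3 : ∃ t, chk3 f_A00pp_022_s3 t 67 123 1 = true :=
  ⟨(a (b (a (b (a (b (a (l 1) (b (l 1) (l 16680472))) (a (b (l 16680872) (l 16682760)) (l 16683312))) (b (a (b (l 16680072) (l 16681968)) (l 16682504)) (l 16685520))) (a (b (l 16686320) (l 16690040)) (l 16691088))) (b (a (c (l 16686640) (l 16686512)) (l 16689448)) (a (l 16693936) (l 16696728)))) (a (b (a (l 16695560) (l 16698376)) (a (l 16702816) (l 16705552))) (b (a (l 16701152) (l 16703864)) (a (l 16708248) (l 16710888))))) (b (a (b (a (l 16692280) (l 16695048)) (a (l 16699480) (l 16702176))) (b (a (l 16697776) (l 16700448)) (a (l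 16704816) (l 16707416)))) (a (b (a (l 16706536) (l 16709152)) (a (l 16713480) (l 16716016))) (b (a (l 16711720) (l 16714240)) (a (l 16718512) (l 16720952)))))), by decide +kernel⟩

def k8_A00pp_022_s3 : ∃ t, chk3 f_A00pp_022_s3 t 17 240 1 = true :=
  ⟨(a (a (a (l 1) (a (b (l 1) (a (b (l 1) (l 16635224)) (b (a (l 1) (b (l 16628992) (a (l 16630608) (l 16631416)))) (a (b (a (l 1) (l 16631824)) (a (b (l 16632536) (l 16633560)) (l 16633856))) (l 16634056))))) (b (a (b (a (l 1) (l 16630528)) (a (b (l 16626616) (l 16628616)) (l 16629256))) (b (a (l 16626928) (l 16628576)) (l 16631696))) (a (b (b (l 16631432) (l 16633440)) (l 16636456)) (b (l 16635648) (l 16639624)))))) (a (a (b (a (l 16632968) (l 16636192)) (a (c (l 16640928) (l 16640680)) (c (l 16644056) (l 16643816)))) (b (b (l 16639072) (l 16642864)) (b (l 16646672) (c (l 16650624) (l 16650384))))) (a (b (c (l 16647384) (l 16647128)) (b (l 16652832) (l 16656576))) (b (l 16653456) (b (l 16658912) (l 16662568)))))) (a (a (a (b (l 16659584) (a (l 16665216)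 (l 16668184))) (b (l 16665656) (l 16667368))) (a (b (l 16671680) (l 16678464)) (b (l 16677648) (l 16684272)))) (a (b (l 16676032) (a (l 16690032) (l 16695760))) (b (l 16687792) (a (l 16701464) (l 16707152)))))), by decide +kernel⟩

def k9_A00pp_022_s3 : ∃ t, chk3 f_A00pp_022_s3 t 68 241 1 = true :=
  ⟨(a (a (l 1) (b (a (l 1) (b (l 1) (a (l 1) (b (l 1) (a (l 1) (b (l 16636744) (a (l 16637592) (l 16637992)))))))) (a (b (l 1) (a (l 1) (b (l 16642568) (a (c (l 16641776) (l 16641560)) (b (a (l 16641736) (b (l 16641872) (l 16642400))) (a (c (l 16642904) (l 16642688)) (l 16643200))))))) (b (a (b (l 1) (a (l 1) (b (a (l 1) (l 16639520)) (a (b (l 16639912) (l 16640440)) (l 16640576))))) (b (a (b (l 16638032) (a (l 16638872) (l 16639280))) (c (l 16642088) (l 16641864))) (c (l 16641160) (l 16643552)))) (a (b (a (b (a (l 1) (b (l 16640560) (l 16641088))) (a (b (l 16641216) (l 16641744)) (l 16641880))) (l 16641952)) (l 16643664)) (c (l 16644296) (l 16644080))))))) (b (a (a (b (a (c (l 16638656) (l 16633168))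 (b (a (l 16633480) (b (l 16633776) (l 16634800))) (a (b (l 16635024) (l 16636056)) (l 16636344)))) (a (b (a (c (l 16636112) (l 16635872)) (b (a (l 16636080) (l 16636480)) (l 16637320))) (a (b (a (l 16637352) (l 16637752)) (l 16638592)) (l 16638872))) (l 16639040))) (c (b (l 16637440) (l 16641528)) (b (l 16637200) (l 16641296)))) (a (b (c (l 16640608) (l 16640368)) (l 16644536)) (b (l 16643616) (l 16647624)))) (b (a (a (a (c (l 16641704) (l 16641480)) (c (l 16643288) (l 16643056))) (a (l 16644736) (l 16646296))) (a (b (l 16647584) (l 16649616)) (c (l 16651752) (l 16651536)))) (c (a (a (a (l 16645872) (l 16647424)) (b (l 16648712) (l 16650768))) (a (l 16652784) (l 16655784))) (a (a (a (l 16645648) (l 16647208)) (c (l 16649576) (l 16649472))) (a (c (l 16652624) (l 16652512)) (l 16655568))))))), by decide +kernel⟩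

def k10_A00pp_022_s3 : ∃ t, chk3 f_A00pp_022_s3 t 69 241 1 = true :=
  ⟨(a (a (b (a (b (l 16646720) (l 16650680)) (b (l 16649792) (l 16653712))) (a (b (c (l 16654768) (l 16654552)) (c (l 16658752) (l 16658544))) (b (l 16657648) (c (l 16661696) (l 16661488))))) (b (a (b (l 16652832) (l 16656712)) (b (l 16655856) (l 16659688))) (a (b (l 16660608) (a (l 16663784) (l 16665232))) (b (l 16663544) (l 16667400))))) (a (b (a (b (l 16658848) (l 16662648)) (b (l 16661824) (l 16665576))) (a (b (l 16666456) (l 16670272)) (b (l 16669344) (l 16673120)))) (b (a (a (l 16665904) (l 16667360)) (l 16672168)) (a (b (l 16672216) (l 16675952)) (b (l 16675064) (l 16678760)))))), by decide +kernel⟩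

def k11_A00pp_022_s3 : ∃ t, chk3 f_A00pp_022_s3 t 35 241 1 = true :=
  ⟨(a (a (a (b (a (l 16672448) (l 16675328)) (a (b (l 16677904) (l 16681560)) (b (l 16680728) (l 16684336)))) (b (a (l 16678200) (l 16681064)) (b (l 16684936) (a (l 16687104) (l 16689864))))) (a (b (a (l 16683912) (l 16686744)) (a (l 16690864) (l 16693624))) (b (l 16685728) (a (l 16696360) (l 16699096))))) (a (a (b (l 16696576) (a (l 16701816) (l 16704520))) (b (l 16702144) (l 16698088))) (a (b (l 16707696) (l 16703480)) (b (l 16713200) (l 16708792))))), by decide +kernel⟩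

def k12_A00pp_022_s3 : ∃ t, chk3 f_A00pp_022_s3 t 272 242 1 = true :=
  ⟨(b (a (l 1) (b (l 1) (a (l 1) (a (b (l 1) (c (b (l 16646600) (a (l 16647472) (l 16647872))) (b (l 16646392) (a (l 16647272) (l 16647664))))) (b (b (l 16645144) (a (l 16646016) (b (a (l 16646048) (l 16646240)) (l 16646680)))) (a (b (c (l 16647192) (l 16646984)) (l 16648160)) (l 16648016))))))) (a (b (a (l 1) (b (l 1) (a (l 1) (l 16648976)))) (a (b (l 1) (a (l 1) (b (l 1) (a (l 1) (l 16652464))))) (a (b (b (l 1) (l 16650896)) (b (a (l 16651784) (l 16652176)) (l 16653056))) (b (b (a (l 16650408) (b (l 16650528) (l 16651072))) (a (l 16651488) (l 16651880))) (l 16653296))))) (b (a (a (b (l 1) (b (a (l 16649032) (b (l 16649152) (l 16649696))) (a (b (l 16649840) (l 16650384)) (l 16650504)))) (b (b (a (l 1) (c (l 16648152) (l 16647952))) (a (b (l 16648464) (l 16649008)) (l 16649128))) (l 16650552))) (b (a (c (l 16649280) (l 16649080)) (l 16649968)) (l 16651728))) (c (b (l 16650568) (l 16655328)) (a (l 16650672) (l 16652224)))))),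 by decide +kernel⟩

def k13_A00pp_022_s3 : ∃ t, chk3 f_A00pp_022_s3 t 273 242 1 = true :=
  ⟨(b (a (b (b (a (a (l 1) (a (l 1) (b (l 1) (c (l 16643832) (l 16643624))))) (a (c (b (a (l 16643168) (l 16643568)) (l 16644432)) (b (a (l 16642952) (l 16643352)) (l 16644216))) (l 16644584))) (a (a (b (l 1) (a (l 1) (b (l 16644800) (a (l 16645232) (l 16645432))))) (b (a (b (l 16644128) (a (l 16644560) (l 16644760))) (l 16644792)) (l 16645656))) (c (l 16646416) (l 16646208)))) (a (a (b (b (a (b (a (l 16645368) (l 16645568)) (l 16646008)) (l 16646136)) (l 16647008)) (l 16648608)) (b (l 16647256) (l 16649392))) (b (c (l 16648536) (l 16648336)) (c (l 16650664) (l 16650464))))) (b (a (c (l 16646928) (c (l 16646776) (l 16646664))) (b (l 16647336) (l 16649440))) (a (c (l 16651152) (c (l 16651000) (l 16650904))) (b (c (l 16651648) (l 16651440)) (l 16653648))))) (a (b (a (b (c (l 16651240) (l 16651040)) (l 16653280)) (b (l 16652688) (l 16654816))) (a (c (l 16656568) (l 16653760)) (c (l 16658096) (l 16657912))))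 (b (a (b (l 16654224) (l 16656344)) (b (l 16655752) (l 16657864))) (a (c (l 16659608) (l 16659424)) (c (l 16661104) (l 16660920)))))), by decide +kernel⟩

def k14_A00pp_022_s3 : ∃ t, chk3 f_A00pp_022_s3 t 137 242 1 = true :=
  ⟨(a (b (a (b (a (b (l 16648896) (l 16650984)) (c (l 16651576) (l 16651368))) (a (b (l 16653080) (l 16655168)) (c (l 16655736) (l 16655536)))) (b (a (c (l 16653104) (l 16652896)) (c (l 16654616) (l 16654408))) (a (c (l 16657240) (l 16657040)) (c (l 16658728) (l 16658536))))) (a (b (a (b (l 16657264) (l 16659360)) (c (l 16659904) (l 16659712))) (a (c (l 16662592) (l 16662408)) (c (l 16664064) (l 16663880)))) (c (b (l 16662120) (l 16666248)) (b (a (l 16661200) (l 16662664)) (c (l 16666112) (l 16666024)))))) (b (c (a (b (l 16656856) (l 16660944)) (b (l 16659816) (l 16663856))) (a (b (a (l 16655912) (l 16657400)) (c (l 16660800) (l 16660696))) (b (c (l 16659664) (l 16659560)) (c (l 16663712) (l 16663616))))) (a (b (c (l 16665032) (c (l 16664896) (l 16664800))) (b (l 16665392)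 (l 16670048))) (b (b (c (l 16666896) (l 16666712)) (l 16666208)) (c (l 16671952) (l 16671776)))))), by decide +kernel⟩

def k15_A00pp_022_s3 : ∃ t, chk3 f_A00pp_022_s3 t 69 242 1 = true :=
  ⟨(a (a (b (a (b (c (l 16662744) (l 16662544)) (c (l 16666744) (l 16666552))) (b (a (l 16664824) (l 16666264)) (a (l 16668800) (l 16670216)))) (a (b (a (l 16669952) (l 16671368)) (a (l 16673968) (l 16675360))) (b (a (l 16672776) (l 16674176)) (a (l 16676752) (l 16678128))))) (b (a (b (a (l 16667704) (l 16669136)) (a (l 16671640) (l 16673048))) (b (a (l 16670560) (l 16671984)) (a (l 16674456) (l 16675848)))) (a (b (a (l 16675576) (l 16676968)) (a (l 16679504) (l 16680872))) (b (a (l 16678352) (l 16679728)) (l 16682920))))) (a (b (a (b (l 16674104) (l 16677936)) (b (l 16676912) (l 16680704))) (a (b (l 16681784) (l 16685624)) (b (l 16684504) (l 16688304)))) (b (a (b (l 16679696) (l 16683448)) (b (l 16682464) (l 16686184))) (a (b (l 16687216) (l 16690968)) (b (l 16689904) (l 16693616)))))), by decide +kernel⟩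

def k16_A00pp_022_s3 : ∃ t, chk3 f_A00pp_022_s3 t 35 242 1 = true :=
  ⟨(a (a (a (b (a (b (l 16685224) (l 16688896)) (b (l 16687960) (l 16691592))) (a (b (l 16692576) (l 16696248)) (b (l 16695232) (l 16698864)))) (b (a (a (l 16691808) (l 16693160)) (c (l 16695256) (l 16695104))) (a (c (l 16699752) (l 16694368)) (c (l 16702360) (l 16696984))))) (a (b (b (l 16697456) (l 16695704)) (a (l 16699656) (l 16702248))) (b (a (l 16703200) (l 16705848)) (a (l 16704832) (l 16712640))))) (a (a (b (a (l 16708488) (l 16711120)) (a (l 16715208) (l 16717760))) (a (b (l 16713752) (l 16720304)) (b (l 16716368) (l 16722832)))) (a (b (c (l 16709824) (l 16709720)) (a (l 16725328) (l 16727776))) (b (l 16714848) (l 16720880))))), by decide +kernel⟩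

def k17_A00pp_022_s3 : ∃ t, chk3 f_A00pp_022_s3 t 34 243 1 = true :=
  ⟨(a (a (a (a (b (a (b (a (b (b (l 16652552) (a (l 16653432) (l 16653824))) (a (l 16655024) (l 16655416))) (b (b (a (l 16653144) (l 16653536)) (l 16654408)) (l 16655992))) (l 16658760)) (b (l 16653480) (l 16660288))) (b (c (l 16663728) (l 16663568)) (l 16667696))) (b (b (a (l 16657640) (l 16659168)) (c (l 16662648) (l 16662480))) (b (l 16666648) (l 16670656)))) (b (a (b (c (l 16661528) (l 16661352)) (c (l 16665640) (l 16665472))) (b (c (l 16664504) (l 16664336)) (c (l 16668576) (l 16668408)))) (a (b (l 16669592) (l 16673560)) (b (l 16672496) (l 16676416))))) (a (b (a (b (c (l 16667440) (l 16667264)) (c (l 16671464) (l 16671304))) (b (l 16670232) (l 16674224))) (a (b (l 16675336) (l 16679224)) (b (l 16678136) (l 16681976)))) (b (a (b (l 16673064) (l 16677008)) (b (l 16675848) (l 16679760))) (a (b (l 16680880) (l 16684680)) (b (l 16683592) (l 16687352)))))) (a (a (b (a (b (l 16678608) (l 16682480)) (b (l 16681344) (l 16685168)))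 (a (b (l 16686264) (l 16689984)) (b (l 16688920) (l 16692592)))) (b (a (b (l 16684056) (l 16687840)) (b (l 16686736) (l 16690480))) (a (b (l 16691544) (l 16695184)) (b (l 16694144) (l 16697744))))) (a (b (a (b (l 16689400) (l 16693104)) (b (l 16692040) (l 16695704))) (a (b (l 16696728) (l 16700280)) (b (l 16699288) (l 16702800)))) (b (a (b (l 16694664) (l 16698280)) (b (l 16697272) (l 16700848))) (a (l 16698336) (l 16700840)))))), by decide +kernel⟩

def k18_A00pp_022_s3 : ∃ t, chk3 f_A00pp_022_s3 t 35 243 1 = true :=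
  ⟨(a (a (a (b (a (l 16696400) (l 16698952)) (a (l 16708568) (l 16711048))) (b (a (l 16706744) (l 16709272)) (a (l 16713512) (l 16715968)))) (a (b (a (l 16711800) (l 16714312)) (a (l 16718408) (l 16720848))) (b (a (l 16716816) (l 16719304)) (a (l 16723264) (l 16725688))))) (a (a (b (a (l 16721784) (l 16724264)) (a (l 16728080) (l 16730448))) (b (a (l 16726704) (l 16729128)) (l 16723456))) (a (b (l 16722176) (l 16727936)) (b (l 16726728) (l 16732208))))), by decide +kernel⟩

def k19_A00pp_022_s3 : ∃ t, chk3 f_A00pp_022_s3 t 34 122 1 = true :=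
  ⟨(a (a (b (a (b (a (b (l 16671672) (l 16675584)) (b (l 16674592) (l 16678464))) (a (b (l 16679432) (l 16683216)) (b (l 16682264) (l 16686008)))) (b (a (a (l 16678672) (l 16680080)) (b (l 16680272) (l 16684056))) (a (c (l 16686976) (l 16686848)) (c (l 16689688) (l 16689560))))) (a (b (a (c (l 16688848) (l 16688720)) (c (l 16691584) (l 16691456))) (a (l 16696024) (l 16698680))) (b (a (c (l 16694264) (l 16694144)) (c (l 16696896) (l 16696776))) (a (l 16701280) (l 16703832))))) (b (a (b (a (b (l 16683032) (l 16686784)) (b (l 16685752) (l 16689456))) (a (c (l 16692352) (l 16692224)) (b (l 16693096) (l 16696680)))) (b (a (b (l 16688416) (l 16692080)) (b (l 16691040) (l 16694664))) (a (b (l 16695680) (l 16699224)) (b (l 16698224) (l 16701728))))) (a (b (a (b (l 16697656) (l 16701168)) (l 16701952)) (a (b (l 16704624) (l 16708032)) (l 16708784))) (b (a (l 16704432) (l 16706872)) (a (l 16711192) (l 16713552)))))) (a (b (a (b (a (b (l 16693632) (l 16697216)) (b (l 16696208) (l 16699744))) (a (b (l 16700736)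 (l 16704200)) (l 16699704))) (b (a (b (l 16698752) (l 16702248)) (b (l 16701272) (l 16704736))) (a (l 16707392) (l 16709808)))) (a (b (a (l 16709288) (l 16711680)) (a (l 16715888) (l 16718200))) (b (a (l 16714040) (l 16716384)) (a (l 16720480) (l 16722744))))) (b (a (b (a (l 16700248) (l 16702704)) (a (l 16712208) (l 16714592))) (b (a (l 16710392) (l 16712816)) (a (l 16716952) (l 16719296)))) (a (b (a (l 16718704) (l 16721000)) (a (l 16724992) (l 16727208))) (b (a (l 16723288) (l 16725552)) (a (l 16729416) (l 16731608))))))), by decide +kernel⟩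

def k20_A00pp_022_s3 : ∃ t, chk3 f_A00pp_022_s3 t 35 122 1 = true :=
  ⟨(a (a (b (a (b (a (l 16715224) (l 16717616)) (a (l 16721624) (l 16723944))) (b (a (l 16720008) (l 16722384)) (a (l 16726256) (l 16728552)))) (a (b (a (l 16727808) (l 16730048)) (a (l 16733784) (l 16735944))) (b (a (l 16732272) (l 16734496)) (a (l 16738096) (l 16729760))))) (b (a (b (a (l 16724752) (l 16727104)) (a (l 16730840) (l 16733120))) (b (a (l 16729456) (l 16731784)) (a (l 16735384) (l 16737608)))) (a (b (a (l 16736712) (l 16738904)) (a (l 16731872) (l 16733960))) (b (a (l 16741056) (l 16732672)) (a (l 16735992) (l 16737968)))))) (a (b (a (b (a (l 16734080) (l 16736336)) (a (l 16739792) (l 16731432))) (b (l 16729152) (a (l 16733512) (l 16735536)))) (a (b (a (l 16734728) (l 16736728)) (a (l 16739888) (l 16741760))) (b (a (l 16738672) (l 16740560)) (b (l 16743264) (l 16745608))))) (b (a (b (l 16733360) (a (l 16737504) (l 16739416))) (b (b (l 16725616) (l 16738584)) (c (l 16742184) (l 16742160)))) (a (b (a (l 16742392)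 (l 16744152)) (a (l 16746984) (b (l 16747512) (l 16749648)))) (b (b (l 16745584) (l 16747200)) (a (l 16749304) (a (l 16749656) (l 16749912)))))))), by decide +kernel⟩

def k21_A00pp_022_s3 : ∃ t, chk3 f_A00pp_022_s3 t 34 123 1 = true :=
  ⟨(a (a (b (a (b (a (l 16703072) (l 16705648)) (a (l 16709960) (l 16712456))) (b (a (l 16708176) (l 16710648)) (a (l 16714904) (l 16717296)))) (a (b (a (l 16716704) (l 16719128)) (a (l 16723344) (l 16725680))) (b (a (l 16721488) (l 16723808)) (a (l 16722728) (l 16724968))))) (b (a (b (a (l 16713072) (l 16715440)) (a (l 16719640) (l 16721936))) (b (a (l 16717768) (l 16720048)) (a (l 16724176) (l 16726384)))) (a (b (a (l 16720832) (l 16728296)) (a (a (l 16731856) (l 16732936)) (l 16729296))) (b (a (l 16730456) (l 16727344)) (a (l 16731384) (l 16733440)))))) (a (b (a (b (a (l 16722304) (l 16724536)) (a (l 16728568) (l 16730720))) (b (a (l 16726744) (l 16728928)) (a (l 16732848) (l 16729712)))) (a (b (a (l 16729448) (l 16731528)) (a (l 16735464) (b (l 16741232) (l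 16744176)))) (b (a (l 16733576) (l 16735608)) (a (c (l 16739464) (l 16739416)) (c (l 16741424) (l 16741368)))))) (b (a (b (a (l 16731096) (l 16733240)) (a (l 16731800) (l 16733872))) (b (a (l 16735368) (l 16737480)) (a (l 16735920) (l 16737960)))) (a (a (b (l 16737616) (c (l 16743352) (l 16743304))) (b (l 16739608) (c (l 16745272) (l 16745224)))) (a (b (l 16741584) (b (l 16751008) (l 16753768))) (b (l 16743552) (b (l 16752904) (l 16755616)))))))), by decide +kernel⟩

def k22_A00pp_022_s3 : ∃ t, chk3 f_A00pp_022_s3 t 70 123 1 = true :=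
  ⟨(a (b (a (a (b (l 16734336) (l 16739984)) (b (l 16736432) (l 16741992))) (a (b (l 16733256) (l 16743968)) (b (l 16735296) (l 16745896)))) (a (a (b (l 16745488) (b (l 16754768) (l 16757416))) (b (l 16747392) (b (l 16756584) (l 16759168)))) (b (a (l 16749256) (a (l 16750616) (l 16751504))) (a (b (l 16758344) (l 16755624)) (b (l 16760056) (l 16757272)))))) (b (a (b (a (l 16737312) (l 16739272)) (a (l 16747784) (c (l 16744384) (l 16744352)))) (b (a (l 16741176) (l 16743024)) (a (a (l 16745704) (l 16746568)) (a (l 16747424) (l 16748264))))) (a (b (a (a (l 16752384) (l 16753240)) (b (l 16758544) (l 16750456))) (a (b (l 16756472) (l 16758856)) (b (l 16758056) (l 16760376)))) (b (a (b (l 16760208) (l 16752056)) (b (l 16751328) (l 532125199))) (a (b (l 532032783) (l 532073743)) (b (l 532168719) (l 532209935))))))), by decide +kernel⟩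

def k23_A00pp_022_s3 : ∃ t, chk3 f_A00pp_022_s3 t 71 123 1 = true :=
  ⟨(a (b (a (b (a (l 16744808) (l 16746536)) (a (b (l 16748344) (l 16750632)) (b (l 16749960) (l 16752168)))) (b (a (b (l 16747056) (l 16749312)) (c (l 16749800) (l 16749784))) (a (b (l 16751512) (l 16753648)) (b (l 16752992) (l 16755064))))) (a (b (a (b (l 16752864) (l 532260111)) (b (l 532347919) (l 532662543))) (a (b (l 532303631) (l 532613391)) (b (l 532707087) (l 532750095)))) (b (a (b (l 532750351) (l 532797967)) (b (l 532786447) (l 532722959))) (a (b (l 532797967) (l 532739343)) (l 532361231))))) (b (a (b (a (b (l 16750264) (l 16752344)) (b (l 16751232) (l 16752896))) (a (b (l 16754008) (l 532717839)) (b (l 532652303) (l 16761680)))) (b (a (b (l 16751760) (l 16753496)) (b (l 16752352) (l 16759408))) (a (b (l 532517135) (l 532445455)) (l 532073999)))) (a (b (a (a (l 532652303) (l 532315407)) (l 532210959)) (a (l 532221967) (l 532080911))) (b (a (l 532071695) (l 531930895)) (a (l 531938319) (l 532062735)))))), by decide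 +kernel⟩

def k24_A00pp_022_s3 : ∃ t, chk3 f_A00pp_022_s3 t 32 62 1 = true :=
  ⟨(l 14), by decide +kernel⟩

def k25_A00pp_022_s3 : ∃ t, chk3 f_A00pp_022_s3 t 33 124 1 = true :=
  ⟨(a (a (l 14) (a (a (l 14) (b (b (c (l 16701744) (l 16701624)) (c (l 16709072) (l 16708952))) (a (b (l 16715624) (l 16722912)) (b (l 16716968) (l 16724216))))) (b (b (a (l 16704496) (l 16707264)) (a (l 16711752) (l 16714440))) (b (a (c (l 16719016) (l 16718904)) (c (l 16721624) (l 16721520))) (a (c (l 16726200) (l 16726096)) (a (l 16728056) (l 16729312))))))) (a (b (a (b (a (l 16709976) (l 16712640)) (a (l 16717072) (l 16719664))) (b (a (l 16715256) (l 16717816)) (a (l 16722200) (l 16724688)))) (a (b (a (c (l 16724184) (l 16724080)) (a (l 16726024) (l 16727264))) (a (a (l 16730552) (l 16731784)) (a (l 16733000) (l 16734200)))) (b (a (b (l 16727376) (l 16730824)) (a (l 16730920) (l 16732112))) (a (a (l 16735400) (l 16736576)) (a (l 16737744) (l 16738896)))))) (b (a (b (a (l 16720336) (l 16722800)) (a (l 16727120) (l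 16724264))) (b (a (l 16725208) (l 16727576)) (a (l 16726600) (a (l 16733568) (l 16734696))))) (a (b (a (a (l 16733288) (l 16734456)) (a (l 16735616) (l 16736760))) (a (a (l 16740040) (l 16741168)) (a (l 16742288) (l 16743392)))) (b (a (a (l 16737888) (l 16739008)) (a (l 16740112) (l 16741200))) (a (a (l 16744488) (l 16740320)) (b (l 16745536) (l 16748784)))))))), by decide +kernel⟩

def k26_A00pp_022_s3 : ∃ t, chk3 f_A00pp_022_s3 t 66 125 1 = true :=
  ⟨(a (l 14) (a (a (l 14) (b (b (b (l 16729000) (l 16732624)) (b (l 16736256) (l 16739904))) (b (b (l 16743568) (a (l 16746664) (l 16747848))) (a (b (l 16750416) (l 16754216)) (b (l 16751576) (l 16755360)))))) (b (b (a (a (l 16732696) (l 16733944)) (a (l 16735168) (l 16736392))) (a (b (l 16738712) (l 16742320)) (b (l 16741112) (l 16744688)))) (b (a (b (l 16745944) (a (l 16749016) (l 16750176))) (b (l 16748272) (a (l 16751320) (l 16752448)))) (a (b (a (l 16752728) (l 16753872)) (a (l 16756488) (l 16757608))) (b (a (l 16754992) (l 16756104)) (a (l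 16756096) (b (l 16758880) (l 16760744))))))))), by decide +kernel⟩

def k27_A00pp_022_s3 : ∃ t, chk3 f_A00pp_022_s3 t 134 125 1 = true :=
  ⟨(b (a (b (a (a (l 16737592) (l 16738784)) (a (l 16739968) (l 16741128))) (a (b (l 16743464) (l 16747000)) (b (l 16745768) (l 16749264)))) (b (a (a (l 16742288) (l 16738184)) (a (l 16739312) (l 16740432))) (a (b (l 16748024) (l 16751480)) (b (l 16750224) (l 16751024))))) (a (b (a (b (l 16747928) (a (l 16753568) (l 16754680))) (b (a (l 16752224) (l 16753320)) (a (l 16755776) (l 16756856)))) (a (b (a (l 16757208) (l 16758296)) (a (c (l 16758296) (l 16758256)) (c (l 16759360) (l 16759320)))) (b (a (l 16756752) (l 16757816)) (a (b (l 16762104) (l 16763944)) (b (l 16763152) (l 16764984)))))) (b (a (b (c (l 16754976) (l 16752304)) (a (l 16757928) (l 16758984))) (b (a (l 16756552) (l 16757608)) (a (l 16760032) (l 16758440)))) (a (b (a (l 16758864) (b (l 16761640) (l 16763424))) (a (b (l 16764192) (l 16766008)) (b (l 16765216) (b (l 16766576) (l 16767480))))) (b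 (a (b (l 16762672) (l 16764440)) (b (l 16763688) (l 16765456))) (a (b (l 16766232) (b (l 16767576) (l 16768480))) (b (c (l 16767240) (l 16767216)) (b (l 16768568) (l 16769472))))))))), by decide +kernel⟩

def k28_A00pp_022_s3 : ∃ t, chk3 f_A00pp_022_s3 t 135 125 1 = true :=
  ⟨(b (a (b (a (b (l 16745648) (l 16749008)) (b (l 16747824) (l 16751152))) (a (b (l 16752376) (a (l 16755240) (l 16756280))) (b (l 16751864) (b (l 16756992) (l 16758664))))) (b (a (b (l 16749952) (l 16753240)) (b (l 16752032) (l 16752664))) (a (b (b (l 16755712) (l 16757360)) (b (l 16759016) (l 16760672))) (b (b (l 16757720) (l 16759352)) (b (l 16760992) (l 16760008)))))) (a (b (a (b (b (l 16758304) (l 16760008)) (a (l 16759464) (c (l 16760488) (l 16760448)))) (b (b (l 16760344) (l 16759408)) (a (c (l 16761480) (l 16761448)) (b (l 16764216) (l 16765920))))) (a (b (a (b (l 16764696) (l 16766448)) (b (l 16765688) (c (l 16767448) (l 16767424)))) (a (b (c (l 16768232) (l 16768208)) (b (l 16769552) (l 529041167))) (b (b (l 16768752)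 (l 16769632)) (a (l 529084943) (l 529109775))))) (b (a (b (l 16766672) (c (l 16768416) (l 16768392))) (b (c (l 16767648) (l 16767624)) (b (l 16768928) (l 16769800)))) (a (b (b (l 16769720) (l 529165839)) (a (l 529134863) (l 529159951))) (b (a (l 529209615) (l 529234703)) (b (l 529203471) (l 529191183))))))) (b (a (b (a (l 16760056) (l 16761032)) (a (b (l 16765192) (l 16766888)) (b (l 16766152) (l 16765216)))) (b (a (b (l 16763792) (l 16765440)) (b (l 16764744) (l 16766392))) (a (b (l 16767104) (c (l 16768792) (l 16768768))) (b (l 16765424) (l 529764623))))) (a (b (a (b (c (l 16768608) (l 16768584)) (b (l 16769880) (l 529290767))) (b (b (l 16769112) (l 16769960)) (b (l 529352975) (l 529340687)))) (a (b (b (l 529278223) (l 529265935)) (l 529247247)) (b (l 529590543) (l 529297423)))) (b (a (b (l 529421583) (l 529665295)) (b (l 529740047) (l 529446927))) (a (b (l 529372175) (l 529347343)) (b (l 529422095) (l 529397519)))))))), by decide +kernel⟩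

def k29_A00pp_022_s3 : ∃ t, chk3 f_A00pp_022_s3 t 68 124 1 = true :=
  ⟨(a (b (a (b (a (l 16724640) (l 16726904)) (a (a (l 16735816) (l 16736920)) (a (l 16738016) (l 16739096)))) (b (a (a (l 16733816) (l 16734912)) (c (l 16736560) (l 16736488))) (a (c (l 16735480) (l 16735416)) (c (l 16737568) (l 16737504))))) (a (b (a (b (l 16741208) (l 16744424)) (b (l 16743336) (l 16746520))) (a (b (l 16747640) (l 16750848)) (b (l 16749696) (l 16752872)))) (b (a (b (l 16745416) (l 16748560)) (b (l 16747448) (l 16750552))) (a (b (l 16751704) (l 16754832)) (b (l 16753656) (c (l 16756776) (l 16756728))))))) (b (a (b (a (c (l 16738672) (l 16733360)) (l 16735456)) (a (b (l 16743280) (l 16746352)) (c (l 16741592) (l 16741536)))) (b (a (c (l 16737504) (l 16737440)) (c (l 16739480) (l 16739416))) (a (b (l 16747240) (l 16750240)) (b (l 16749160) (l 16752120))))) (a (a (b (b (l 16749424) (l 16752496)) (b (l 16752936) (c (l 16758640) (l 16753360)))) (b (b (l 16751360) (l 16754384)) (b (l 16757416) (c (l 16760456) (l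 16755176))))) (a (b (b (l 16753240) (l 16756232)) (b (c (l 16759240) (l 16759200)) (b (l 16761456) (l 16762944)))) (b (b (l 16755080) (l 16752792)) (b (b (l 16760248) (l 16761720)) (b (l 16763192) (l 16764672)))))))), by decide +kernel⟩

def k30_A00pp_022_s3 : ∃ t, chk3 f_A00pp_022_s3 t 136 125 1 = true :=
  ⟨(b (a (b (a (b (l 16754064) (b (l 16756472) (l 16758080))) (b (b (l 16755248) (l 16756832)) (b (l 16758416) (l 16760008)))) (a (b (b (l 16759688) (l 16761296)) (a (l 16760632) (c (l 16761592) (l 16761560)))) (b (b (l 16761600) (l 16760568)) (a (b (l 16764328) (l 16765928)) (b (l 16765248) (l 16766848)))))) (b (a (b (c (l 16757992) (l 16757952)) (b (l 16760320) (l 16761888))) (b (b (l 16759072) (l 16760624)) (b (l 16762168) (l 16761104)))) (a (b (a (l 16761168) (b (l 16763920) (l 16765488))) (a (b (l 16766168) (l 16767752)) (b (l 16767064) (l 16766024)))) (b (a (b (l 16764824) (l 16766392)) (b (l 16765720) (l 16767272))) (a (b (l 16767952) (l 529937679)) (b (l 16766208) (l 529986831)))))))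 (a (b (a (b (a (b (l 16765688) (l 16767328)) (b (l 16766624) (l 16765624))) (a (b (l 529839375) (l 529814799)) (b (l 529889551) (l 529596431)))) (b (a (b (l 16767544) (l 529964303)) (b (l 16765824) (l 529745935))) (a (b (l 529671183) (l 529646607)) (b (l 529721359) (l 529696527))))) (a (b (a (b (l 529521679) (l 529497103)) (b (l 529571855) (l 529547023))) (a (b (l 529472271) (l 529447439)) (b (l 529522447) (l 529497615)))) (b (a (b (l 529621775) (l 529597199)) (b (l 529671951) (l 529647375))) (b (a (l 529572367) (l 529622543)) (l 4))))) (b (a (b (a (b (l 529819663) (l 529796111)) (b (l 529869583) (l 529846031))) (a (b (l 529771279) (l 529746703)) (b (l 529821455) (l 529796879)))) (b (a (b (l 529919503) (l 529896207)) (b (l 529969423) (l 529946383))) (a (b (l 529871631) (l 529847055)) (b (l 529921807) (l 529897231))))) (b (a (a (b (l 529722127) (l 529697295)) (b (l 529772303) (l 529747471))) (a (b (l 529822223) (l 4)) (l 530128399))) (l 4))))), by decide +kernel⟩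

def k31_A00pp_022_s3 : ∃ t, chk3 f_A00pp_022_s3 t 137 125 1 = true :=
  ⟨(b (a (b (a (b (b (l 16760912) (l 16762440)) (a (c (l 16764312) (l 16764280)) (b (l 16764416) (l 16765944)))) (b (b (l 16762704) (l 16764208)) (b (l 16763104) (c (l 16764624) (l 16764608))))) (a (b (a (b (l 16766600) (l 16768144)) (b (l 16767472) (l 16769008))) (a (b (l 530049295) (l 530035983)) (b (l 530096911) (l 530084623)))) (b (a (b (l 16768328) (l 16767232)) (b (l 16769176) (l 530198799))) (a (b (l 530143759) (l 530132751)) (b (l 530189839) (l 530179855)))))) (b (a (b (b (l 16764440) (l 16763312)) (a (b (l 16767008) (l 16768504)) (b (l 16767840) (l 16769336)))) (b (b (l 16763520) (c (l 16765000) (l 16764984))) (a (b (l 16768680) (l 16767536)) (b (l 16769504) (l 530395663))))) (a (b (a (b (l 16767384) (l 530242575)) (b (l 530293007) (l 530286095))) (a (b (l 530234383) (l 530225423)) (b (l 530543887) (l 530537487)))) (b (a (b (l 530340111) (l 530605071)) (b (l 530394127) (l 530393615))) (a (b (l 530333199) (l 530330383))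 (l 530660879)))))) (b (b (a (a (a (b (l 530019343) (l 529996559)) (b (l 530069007) (l 530046735))) (a (b (l 530118671) (l 530096655)) (b (l 530165263) (l 530415375)))) (a (a (b (l 530475791) (l 530467855)) (b (l 530266639) (l 530259215))) (a (b (l 530596879) (l 4)) (l 4)))) (a (a (a (l 529959183) (l 530277903)) (a (l 530328079) (b (l 530122255) (l 4)))) (l 4))) (l 4))), by decide +kernel⟩

def k32_A00pp_022_s3 : ∃ t, chk3 f_A00pp_022_s3 t 69 124 1 = true :=
  ⟨(a (b (a (a (b (c (l 16741424) (l 16741368)) (b (l 16751048) (l 16753976))) (b (b (l 16747104) (l 16750016)) (b (l 16752912) (l 16755808)))) (a (b (b (l 16749024) (l 16751896)) (b (l 16754760) (l 16757608))) (b (b (l 16750920) (l 16753760)) (b (l 16756584) (l 16754160))))) (a (b (a (b (l 16756896) (c (l 16759832) (l 16759800))) (b (l 16753448) (b (l 16760848) (l 16762288)))) (a (b (b (l 16762000) (l 16763456)) (b (l 16764912) (l 16763744))) (b (b (l 16763728) (l 16762544)) (b (l 16763976) (b (l 16767672) (l 16765768)))))) (b (a (b (c (l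 16760472) (l 16755200)) (b (l 16762592) (l 16764008))) (b (b (l 16761504) (l 16762904)) (b (l 16764304) (l 16763080)))) (a (b (b (l 16762808) (l 16764224)) (a (l 530947599) (l 531009039))) (a (b (l 531055631) (l 531071247)) (b (l 531117583) (l 531133967))))))) (b (a (b (a (b (l 16752800) (l 16755600)) (b (l 16754664) (l 16757424))) (a (b (l 16758384) (c (l 16755928) (l 16755904))) (b (l 16754912) (c (l 16757648) (l 16757624))))) (b (a (b (l 16756496) (l 16759208)) (b (l 16758288) (l 16755696))) (a (b (l 16756640) (b (l 16763880) (l 16765200))) (b (c (l 16758320) (l 16758304)) (a (l 16760504) (l 16761296)))))) (a (b (a (a (b (l 16763496) (l 531160079)) (b (l 16764336) (l 531222287))) (b (b (l 16764896) (l 16763624)) (a (l 531284751) (l 531348239)))) (a (b (a (l 531179791) (l 531243023)) (a (l 531197455) (l 531261711))) (b (a (l 531306767) (l 531371023)) (a (l 531326479) (l 531391759))))) (b (a (b (a (l 531388431) (l 531452175)) (a (l 531412239) (l 531477007))) (b (a (l 531516687) (l 531581967))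 (a (l 531542287) (l 531608335)))) (a (b (a (l 531436047) (l 531501839)) (a (l 531458063) (l 531524623))) (b (a (l 531568143) (l 531635215)) (l 531357199))))))), by decide +kernel⟩

def k33_A00pp_022_s3 : ∃ t, chk3 f_A00pp_022_s3 t 69 125 1 = true :=
  ⟨(b (a (a (b (a (b (a (b (l 16767400) (l 16768864)) (b (l 16768232) (l 16769680))) (a (b (l 16767704) (l 530453263)) (l 530781199))) (b (a (l 530567439) (l 530897167)) (a (l 530842895) (l 530905103)))) (a (b (a (l 530723087) (l 530785039)) (a (l 530723343) (l 530786319))) (b (a (l 530847503) (l 530910735)) (a (l 530850063) (l 4))))) (b (a (b (a (l 530958863) (l 531021327)) (a (l 530968079) (l 531031567))) (b (a (l 531084559) (l 531148559)) (a (l 531095823) (l 531160591)))) (b (a (a (l 530974735) (l 531039503)) (a (l 531104783) (l 4))) (l 4)))) (b (b (a (a (a (l 531213071) (l 531278095)) (a (l 531343887) (l 531410447))) (a (l 531242511) (l 531648015))) (a (a (a (l 531226383) (l 531292431)) (l 531124239)) (l 4))) (l 4))) (l 4)), by decide +kernel⟩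

def k34_A00pp_022_s3 : ∃ t, chk3 f_A00pp_022_s3 t 35 62 1 = true :=
  ⟨(b (a (a (b (a (b (a (b (l 16760032) (l 16757376)) (b (l 16756480) (c (l 16759008) (l 16758984)))) (a (b (b (l 16764536) (l 16765800)) (a (l 531621647) (l 531687695))) (b (a (l 16761096) (l 16761864)) (a (l 531754255) (l 531821583))))) (b (a (b (l 16758112) (c (l 16760568) (l 16760552))) (b (l 16759688) (l 531731727))) (a (b (a (l 16762608) (l 531928847)) (a (l 531889679) (l 531958799))) (b (l 531764239) (l 532063759))))) (a (b (a (b (a (l 531647759) (l 531714319)) (a (l 531674895) (l 531742223))) (b (a (l 531781391) (l 531849487)) (b (l 531836431) (l 531851791)))) (a (b (l 531468047) (l 531762959)) (b (l 531874575) (l 531902991)))) (b (a (b (l 531684111) (b (l 531974415) (l 531990799))) (b (l 531824911) (b (l 532114191) (l 531867663)))) (b (a (l 532014863) (a (l 532122127) (l 4))) (l 4))))) (b (a (b (a (b (l 531835919) (l 531871759)) (b (l 531974927) (l 532011791))) (a (b (l 531906063) (l 531940367)) (b (a (l 532280335)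 (l 532349455)) (a (l 532311823) (l 532380431))))) (b (a (b (l 532112911) (l 532149007)) (b (l 532248591) (l 532285199))) (a (b (l 532451343) (l 532483343)) (b (l 532588815) (l 532622351))))) (b (a (a (b (a (l 532203535) (l 532272399)) (b (l 531989007) (l 532271375))) (b (l 532374799) (l 532134159))) (a (b (l 532513551) (l 4)) (l 4))) (l 4)))) (b (b (a (a (a (b (l 532653327) (l 532691471)) (l 532389903)) (a (l 532385039) (l 532243983))) (a (a (l 532101391) (l 531957007)) (a (l 532079631) (l 4)))) (a (a (a (l 532476943) (l 532420111)) (a (l 532277519) (l 4))) (l 4))) (l 4))) (l 4)), by decide +kernel⟩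

def k35_A00pp_022_s3 : ∃ t, chk3 f_A00pp_022_s3 t 32 63 1 = true :=
  ⟨(l 14), by decide +kernel⟩

def k36_A00pp_022_s3 : ∃ t, chk3 f_A00pp_022_s3 t 132 126 1 = true :=
  ⟨(l 14), by decide +kernel⟩

def k37_A00pp_022_s3 : ∃ t, chk3 f_A00pp_022_s3 t 266 252 1 = true :=
  ⟨(a (l 14) (a (a (l 14) (b (b (l 16758344) (c (l 16759632) (l 16759592))) (b (b (l 16765184) (l 16767168)) (b (a (l 16769032) (l 16769296)) (b (l 16770672) (l 528155663)))))) (b (b (c (l 16756592) (l 16759160)) (b (l 16762088) (l 16764040))) (b (b (c (l 16766024) (l 16765992)) (b (l 16767488) (l 16768480))) (b (a (b (l 16769200) (l 16770200)) (b (l 16769736) (l 16770736))) (a (b (l 16771200) (l 528180495)) (b (l 528217871) (l 528205583)))))))), by decide +kernel⟩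

def k38_A00pp_022_s3 : ∃ t, chk3 f_A00pp_022_s3 t 267 252 1 = true :=
  ⟨(b (a (b (a (c (l 16757704) (l 16757656)) (b (l 16760448) (l 16762360))) (a (b (l 16763192) (l 16765128)) (b (l 16764280) (c (l 16766224) (l 16766192))))) (b (a (b (l 16761544) (l 16763440)) (b (l 16762624) (l 16764512))) (a (b (l 16765352) (b (l 16766792) (l 16767760))) (b (c (l 16766424) (l 16766400)) (b (l 16767848) (l 16768808)))))) (a (b (a (b (b (l 16766592) (l 16767576)) (b (l 16768560) (c (l 16769552) (l 16769536)))) (b (b (l 16767664) (l 16768640)) (a (b (l 16769352) (l 16770336)) (b (l 16769880) (l 16770864))))) (a (b (a (b (l 16770272) (l 16771264)) (b (l 16770800) (l 528280335))) (a (b (l 528242959) (l 528230415)) (b (l 528267791) (l 528255247)))) (b (a (b (l 16771320) (l 528305167)) (b (l 528342799) (l 528330255))) (a (b (l 528292879) (l 528280335)) (b (l 528317711) (l 528305167)))))) (b (a (b (b (l 16768720) (c (l 16769704) (l 16769680))) (a (b (l 16770408) (l 16771384)) (b (l 16770928) (l 528405007)))) (b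 (a (b (l 16769512) (l 16770472)) (b (l 16770032) (l 16770992))) (a (b (l 16771448) (l 528430095)) (b (l 528467471) (l 528454927))))) (a (b (a (b (l 528367631) (l 528355087)) (b (l 528392719) (l 528380175))) (a (b (l 528342799) (l 528330255)) (b (l 528367631) (l 528355343)))) (b (a (b (l 528417551) (l 528405263)) (b (l 528442639) (l 528430095))) (a (b (l 528392719) (l 528380175)) (l 528411151))))))), by decide +kernel⟩

def k39_A00pp_022_s3 : ∃ t, chk3 f_A00pp_022_s3 t 133 253 1 = true :=
  ⟨(b (a (a (l 14) (b (a (a (l 14) (a (b (l 528130575) (l 528105487)) (b (l 528143119) (l 528118031)))) (b (a (b (l 528167951) (l 528155407)) (b (l 528193039) (l 528180495))) (a (b (l 528143119) (l 528130575)) (b (l 528167951) (l 528155407))))) (b (a (a (l 14) (b (l 528092943) (l 528080655))) (b (a (l 528118031) (l 528142863)) (l 4))) (l 4)))) (b (b (a (a (a (b (l 528217871) (l 528205327)) (b (l 528242959) (l 528230415))) (a (b (l 528267791) (l 528255247)) (b (l 528292879) (l 528280335)))) (a (a (b (l 528317711)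 (l 528305167)) (l 528470543)) (a (l 528361231) (l 528386319)))) (a (b (a (a (l 528193039) (l 528217871)) (a (l 528242959) (l 528267791))) (a (a (l 528180495) (l 528205327)) (l 4))) (l 4))) (l 4))) (l 4)), by decide +kernel⟩

def k40_A00pp_022_s3 : ∃ t, chk3 f_A00pp_022_s3 t 66 127 1 = true :=
  ⟨(l 4), by decide +kernel⟩

def k41_A00pp_022_s3 : ∃ t, chk3 f_A00pp_022_s3 t 67 504 1 = true :=
  ⟨(a (a (a (b (a (b (l 16763688) (l 16765568)) (b (l 16764744) (b (l 16766152) (l 16767088)))) (a (b (b (l 16766992) (l 16767936)) (b (l 16768888) (c (l 16769856) (l 16769832)))) (b (b (l 16768024) (l 16768968)) (a (b (l 16769664) (l 16770616)) (b (l 16770176) (l 16771120)))))) (b (a (b (l 16765792) (b (l 16767184) (l 16768120))) (b (b (l 16766360) (l 16767280)) (b (l 16768208) (l 16769136)))) (a (b (b (l 16769056) (a (l 16769736) (l 16770248))) (a (l 528635663) (l 528660751))) (b (a (l 528710415) (l 528735503)) (a (l 528685583) (l 528710671)))))) (a (b (a (a (b (l 16767584) (l 528785423)) (b (l 16768096)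 (l 528810255))) (b (b (l 16768392) (l 16769304)) (a (l 528835343) (l 528860175)))) (a (b (a (l 528760591) (l 528785423)) (a (l 528735759) (l 528760591))) (b (a (l 528810511) (l 528835599)) (a (l 528785679) (l 528810767))))) (b (a (a (b (l 528910095) (l 528885263)) (b (l 528935183) (l 528910351))) (b (a (l 528960015) (l 528985103)) (a (l 528935183) (l 528960271)))) (a (b (a (l 528860431) (l 528885519)) (a (l 528835599) (l 528860687))) (b (a (l 528910607) (l 528935439)) (a (l 528885775) (l 528910607))))))) (a (a (b (a (b (a (l 529010191) (l 529035023)) (a (l 528985359) (l 529010447))) (b (a (l 529060111) (l 529085199)) (a (l 529035279) (l 529060367)))) (a (b (a (l 528960527) (l 528985615)) (a (l 528935695) (l 528960783))) (b (a (l 529010447) (l 529035535)) (b (l 529004303) (l 4))))) (b (a (b (a (l 529110031) (l 529135119)) (b (l 529103887) (l 529091599))) (b (b (l 529178895) (l 529166351)) (l 529147663))) (b (a (l 529072911) (l 529122831)) (l 4)))) (b (b (a (a (l 529222415) (l 529272591)) (a (l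 529322511) (l 529372687))) (a (a (l 529197839) (l 529247759)) (l 4))) (l 4)))), by decide +kernel⟩

def k42_A00pp_022_s3 : ∃ t, chk3 f_A00pp_022_s3 t 67 505 1 = true :=
  ⟨(a (a (a (b (a (b (a (b (l 16770544) (l 16771504)) (b (l 16771056) (l 16772016))) (a (b (l 528492559) (l 528480015)) (l 528510991))) (b (a (l 528695055) (l 528585743)) (a (l 528536079) (l 528560911)))) (a (b (a (l 528461071) (l 528486159)) (a (l 528436239) (l 528461071))) (b (a (l 528510991) (l 528536079)) (a (l 528486159) (l 528511247))))) (b (a (b (a (l 528610831) (l 528635919)) (a (l 528585999) (l 528611087))) (b (a (l 528660751) (l 528685839)) (a (l 528635919) (l 528661007)))) (b (a (a (l 528561167) (l 528585999)) (a (l 528611087) (l 528635919))) (l 4)))) (b (b (a (a (a (l 528710927) (l 528735759)) (a (l 528760847) (l 528785679))) (a (a (l 528810767) (l 528835855)) (a (l 528860687) (l 4)))) (a (a (a (l 528685839) (l 528710927)) (a (l 528736015) (l 528760847))) (l 4))) (l 4))) (l 4)), by decide +kernel⟩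

def k43_A00pp_022_s3 : ∃ t, chk3 f_A00pp_022_s3 t 67 253 1 = true :=
  ⟨(l 4), by decide +kernel⟩

def k44_A00pp_022_s3 : ∃ t, chk3 f_A00pp_022_s3 t 67 127 1 = true :=
  ⟨(l 4), by decide +kernel⟩

def k45_A00pp_022_s3 : ∃ t, chk3 f_A00pp_022_s3 t 17 63 1 = true :=
  ⟨(l 4), by decide +kernel⟩

def k46_A00pp_022_s3 : ∃ t, chk3 f_A00pp_022_s3 t 18 14 1 = true :=
  ⟨(b (b (a (a (b (l 16608232) (l 16533424)) (l 16552152)) (a (l 16527080) (l 16501392))) (a (a (b (l 16543392) (l 16554272)) (l 16626576)) (a (b (l 16638976) (l 16573600)) (b (l 16617296) (l 16638656))))) (a (b (a (b (l 16608048) (b (l 16576456) (l 16626440))) (b (l 16640512) (b (l 16607072) (l 16655784)))) (a (b (a (b (l 16670216) (l 16680056)) (b (l 16684280) (l 16651528))) (a (b (l 16669568) (a (l 16698416) (l 16704456))) (b (l 16661272) (a (l 16710432) (l 16674296))))) (b (a (b (l 16614392) (l 16622864)) (l 16693976)) (a (b (b (l 16629456) (l 16633936)) (l 16703664)) (b (l 16681368) (l 16707776)))))) (b (a (b (l 16634056) (b (l 16605040)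 (l 16655008))) (b (l 16618736) (a (l 16684504) (l 16679520)))) (a (b (a (l 16699872) (l 16695904)) (a (b (l 16720352) (l 16716424)) (b (l 16718048) (b (l 16723840) (l 16727736))))) (b (a (b (l 16698496) (l 16707520)) (b (l 16695224) (l 16705456))) (a (b (l 16716464) (b (l 16723192) (l 16727728))) (b (l 16715664) (b (l 16723384) (l 16728600))))))))), by decide +kernel⟩

def k47_A00pp_022_s3 : ∃ t, chk3 f_A00pp_022_s3 t 19 28 1 = true :=
  ⟨(a (b (a (l 16475536) (l 16534736)) (a (a (l 16613240) (l 16604024)) (a (l 16595632) (l 16588768)))) (b (a (b (l 16499984) (l 16531840)) (b (l 16485600) (l 16522056))) (a (b (l 16564792) (a (l 16600312) (l 16598384))) (b (a (l 16560376) (l 16560152)) (a (l 16598624) (b (l 16590944) (l 16611848))))))), by decide +kernel⟩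

def k48_A00pp_022_s3 : ∃ t, chk3 f_A00pp_022_s3 t 38 29 1 = true :=
  ⟨(b (a (b (a (l 16650608) (l 16644512)) (a (l 16675128) (l 16671392))) (b (a (l 16639472) (l 16636192)) (a (l 16647872) (b (l 16660296) (l 16676072))))) (a (b (a (b (l 16692648) (l 16704160)) (b (l 16690816) (l 16703680))) (a (b (l 16715704) (b (l 16724464) (l 16725152))) (b (a (l 16716320) (l 16717040)) (b (l 16726488) (a (l 16732384) (l 16734056)))))) (b (a (b (l 16690288) (l 16704560)) (b (l 16691784) (b (l 16703600) (l 16711528)))) (a (b (b (l 16715360) (l 16722640)) (a (b (l 16728920) (l 16736192)) (b (l 16731232) (l 16738904)))) (b (a (c (l 16711800) (l 16722104)) (b (l 16720976) (l 16729224))) (a (b (c (l 16734224) (l 16734080)) (b (l 16740176) (l 16744240))) (b (l 527323407) (l 527580687)))))))), by decide +kernel⟩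

def k49_A00pp_022_s3 : ∃ t, chk3 f_A00pp_022_s3 t 39 58 1 = true :=
  ⟨(a (b (a (l 16634856) (b (l 16626208) (l 16645176))) (a (b (l 16661040) (l 16678280)) (b (l 16669440) (a (l 16681512) (l 16684312))))) (b (a (b (l 16628768) (l 16649096)) (b (l 16633312) (a (l 16653384) (l 16656608)))) (a (b (a (l 16667864) (l 16670976)) (a (l 16692800) (l 525910543))) (b (a (l 16674320) (b (l 16672640) (l 16683160))) (a (b (l 16689688) (l 16699800)) (b (l 16693560) (l 16706464))))))), by decide +kernel⟩

def k50_A00pp_022_s3 : ∃ t, chk3 f_A00pp_022_s3 t 78 59 1 = true :=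
  ⟨(b (a (b (a (l 16694360) (l 16696856)) (a (b (l 16707048) (l 16715600)) (b (l 16710096) (l 16718912)))) (b (a (b (l 16695248) (l 16704392)) (l 526407695)) (a (l 526665743) (b (l 16719824) (l 526734095))))) (a (b (a (b (l 16724160) (l 527381519)) (b (l 16730392) (l 527169807))) (a (b (l 527378447) (l 527102479)) (b (l 526901775) (a (l 527217423) (l 527116047))))) (a (b (b (l 526955023) (l 526694415)) (b (a (l 527017487) (l 526916879)) (a (b (l 527016975) (l 527015183)) (b (l 526917647) (l 526916623))))) (b (b (b (l 16735968) (l 526753039)) (a (l 526811407) (l 526711311))) (b (a (l 526817551) (b (l 526717967) (l 526720783))) (a (a (l 526843919) (b (l 526795279) (l 526795279))) (b (a (l 526746895) (l 526698511)) (a (l 526747151) (b (l 526699279) (l 526699535)))))))))), by decide +kernel⟩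

def k51_A00pp_022_s3 : ∃ t, chk3 f_A00pp_022_s3 t 79 59 1 = true :=
  ⟨(b (a (b (a (b (l 16702056) (l 16711616)) (b (l 16705816) (a (l 16714552) (l 16716576)))) (a (b (a (l 16720104) (l 16722112)) (a (l 16732112) (l 526480143))) (b (b (l 16722816) (l 16730256)) (a (l 526380047) (l 526281487))))) (b (a (b (a (l 16708784) (l 16710840)) (a (l 16718664) (l 16723424))) (b (b (l 16711488) (l 16716552)) (a (l 16725616) (l 525826063)))) (a (b (a (l 526155023) (l 526056975)) (a (l 526183951) (l 526087439))) (b (l 525911311) (l 525944079))))) (a (b (a (b (a (l 526598927) (l 526499599)) (a (b (l 526609935) (l 526615567)) (b (l 526511887) (l 526518543)))) (b (a (b (l 526396687) (l 526406415)) (b (l 526299151) (l 526309647))) (a (b (l 526414863) (l 526422287)) (l 526323215)))) (a (b (a (b (l 526620431) (a (l 526648335) (l 526600207))) (b (l 526523919) (l 526528527))) (a (b (a (l 526650639) (l 526603023)) (l 526628111)) (l 526533135))) (b (a (l 526431247) (l 526337551)) (a (l 526439951) (l 526348047)))))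 (b (b (a (a (l 526208527) (l 526113551)) (a (l 526019855) (l 525927183))) (a (a (l 526228751) (l 526135823)) (a (l 526043663) (l 525952783)))) (b (a (a (l 526245135) (l 526153743)) (a (l 526063375) (l 525974031))) (a (a (l 526257167) (l 526167567)) (a (b (l 526075663) (l 4)) (l 4))))))), by decide +kernel⟩

def k52_A00pp_022_s3 : ∃ t, chk3 f_A00pp_022_s3 t 36 60 1 = true :=
  ⟨(a (b (a (b (b (l 16688880) (l 16705072)) (a (b (l 16718608) (l 16713936)) (b (l 16723840) (l 16708424)))) (b (a (l 16710480) (b (l 16723736) (l 16686800))) (a (b (l 16707928) (l 16713192)) (b (l 16712776) (l 16717760))))) (a (b (a (b (l 16719736) (l 16725504)) (b (l 16724432) (b (l 16718056) (l 16720768)))) (a (b (l 16731064) (a (l 16724784) (a (l 16726264) (l 16727232)))) (b (l 16735184) (l 16739448)))) (b (a (b (b (l 16717128) (l 16719728)) (l 16734104)) (b (l 16733192) (l 16735344))) (a (b (l 16737368) (l 16745048)) (b (l 16737640) (c (l 16745608) (l 16745608))))))) (b (a (b (b (l 16710528) (l 16715120)) (a (b (l 16717432)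 (l 16720488)) (b (l 16738816) (l 16730776)))) (b (b (l 16732856) (l 16725144)) (a (b (l 16738520) (l 16741264)) (b (l 16738424) (l 16741472))))) (a (b (a (b (l 16733208) (l 16740776)) (b (l 16738544) (c (l 16746416) (l 16741160)))) (a (b (l 16743360) (b (l 16750840) (l 16752464))) (b (c (l 16744072) (l 16744056)) (b (l 16751776) (l 16753560))))) (b (a (b (l 16738848) (b (l 16746280) (l 16747784))) (b (b (l 16743816) (l 16745416)) (b (l 16747040) (l 16748712)))) (a (a (b (l 16749984) (l 531386639)) (b (l 16750512) (l 531516175))) (b (b (l 16750480) (l 16749744)) (a (l 531376399) (l 531235087)))))))), by decide +kernel⟩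

def k53_A00pp_022_s3 : ∃ t, chk3 f_A00pp_022_s3 t 72 61 1 = true :=
  ⟨(b (a (b (a (b (b (l 16739928) (l 16742208)) (b (l 16743536) (l 16744952))) (b (c (l 16742000) (l 16742008)) (b (l 16744176) (l 16745744)))) (a (b (b (l 16746464) (l 16753304)) (a (b (l 16759952) (l 16761680)) (b (l 16760512) (l 16762320)))) (b (a (b (l 16757632) (l 16759336)) (l 16753792)) (a (b (l 16761136) (l 16763016)) (l 531838735))))) (b (a (b (a (l 16742464) (l 16742840)) (a (l 16750872) (l 16751400))) (b (b (l 16753176) (l 16754848)) (a (l 16751992) (l 531655439)))) (a (b (a (c (l 16754424) (l 16754416)) (l 531740687)) (a (l 531699983) (l 531559695))) (b (a (l 531602191) (l 531462159)) (a (l 531686415) (l 531543311)))))) (a (b (a (b (a (b (l 16758248) (l 16760136)) (l 531949839)) (a (l 531934735) (l 531794191))) (b (a (l 531810831) (l 531670287)) (a (l 531920399) (l 531776527)))) (a (b (a (l 531788559) (l 531912975)) (a (l 531916815) (l 531769615))) (b (a (l 531767311) (l 531620367)) (a (l 531620623) (l 4))))) (b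 (a (b (a (l 531796751) (l 531653135)) (a (l 531631119) (l 531484431))) (b (a (l 531508239) (l 531361807)) (a (l 531336207) (l 531186447)))) (b (a (a (l 531471631) (l 531321615)) (a (l 531170063) (l 4))) (l 4))))), by decide +kernel⟩

def k54_A00pp_022_s3 : ∃ t, chk3 f_A00pp_022_s3 t 73 61 1 = true :=
  ⟨(b (a (b (a (b (a (l 16749560) (l 16750168)) (a (l 531517199) (l 531645967))) (a (b (l 531445263) (l 531505167)) (b (l 531574543) (l 531362575)))) (a (b (a (l 531589135) (l 531446287)) (a (l 531398671) (l 531252495))) (b (a (l 531302159) (l 531156495)) (a (l 531105039) (l 530956047))))) (b (a (b (a (l 531433999) (l 531292175)) (a (l 531218959) (l 531073807))) (b (a (l 531149071) (l 531004431)) (a (l 530927375) (l 530779663)))) (a (b (a (l 531009551) (l 530861327)) (a (l 530806031) (l 530654223))) (b (a (l 530711567) (l 530560527)) (a (l 530501391) (l 530347023)))))) (b (a (a (b (a (l 531213839) (l 531064591)) (a (l 531035151) (l 530882575))) (b (a (l 530913807) (l 530761743)) (a (l 530728463)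 (l 4)))) (a (b (a (l 530608143) (l 530453263)) (l 4)) (l 4))) (l 4))), by decide +kernel⟩

def k55_A00pp_022_s3 : ∃ t, chk3 f_A00pp_022_s3 t 37 120 1 = true :=
  ⟨(a (a (b (b (l 16731872) (l 16729992)) (a (b (l 16738536) (l 16741896)) (b (l 16738856) (b (l 16741608) (l 16743480))))) (b (b (l 16731672) (a (l 16735488) (l 16735920))) (a (b (l 16739400) (b (l 16742408) (l 16744440))) (b (l 16740176) (b (l 16743432) (l 16745648)))))) (a (b (b (l 16727080) (a (l 16736584) (l 16737480))) (a (b (l 16741184) (b (l 16744704) (l 16747096))) (b (b (l 16741184) (l 16743688)) (b (l 16746232) (l 530436367))))) (b (a (b (l 16733416) (l 16738616)) (b (l 16734432) (l 16740000))) (b (a (b (l 16742592) (l 16745280)) (b (l 16744256) (l 16747136))) (a (b (l 16748008) (l 530129679)) (b (l 529885455) (l 529814031))))))), by decide +kernel⟩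

def k56_A00pp_022_s3 : ∃ t, chk3 f_A00pp_022_s3 t 37 121 1 = true :=
  ⟨(a (b (a (b (a (b (l 16744480) (l 16746240)) (b (l 16745376) (l 16747304))) (a (b (l 16748032) (c (l 16749888) (l 16749856))) (a (b (l 16748936) (l 16750904)) (b (l 16749616) (l 16751664))))) (b (a (b (l 16746512) (c (l 16748632) (l 16748592))) (b (a (l 16747520) (l 16748272)) (a (l 16749752) (l 16750600)))) (a (b (a (l 16750352) (l 16751160)) (a (l 16752496) (l 16753392))) (b (a (l 16752024) (l 16752960)) (a (l 16754352) (l 530521103)))))) (a (a (b (a (l 531331599) (l 531190799)) (a (l 531092239) (l 530948367))) (b (a (l 531048975) (l 530905871)) (a (l 530803215) (l 530657039)))) (a (b (a (l 530761231) (l 530615823)) (a (l 530509327) (l 530360335))) (b (a (l 530468879) (l 530320911)) (a (l 530210319) (l 530059279)))))) (b (a (b (a (b (a (l 16749088) (l 16749968)) (a (l 16751504) (l 16752472))) (b (a (l 16750912) (l 16751928)) (a (l 16753512) (l 530177295)))) (a (b (a (l 16753960) (l 530359823)) (a (l 530374415) (l 530226447)))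 (b (b (l 530167823) (l 530105359)) (l 529867535)))) (b (a (b (a (l 16753000) (l 529969423)) (b (l 529975567) (l 529923855))) (b (b (l 529755407) (l 529712655)) (b (l 529666831) (l 529616911)))) (a (b (b (l 529867279) (l 529804815)) (l 529430799)) (b (a (l 529340687) (l 529186831)) (l 529123855))))) (a (a (b (a (l 530171663) (l 530021391)) (a (l 529906703) (l 529753103))) (b (a (l 529869839) (l 529717263)) (a (l 529598479) (l 529442575)))) (a (b (a (l 529563663) (l 529408783)) (a (l 529285647) (l 529127439))) (b (a (l 529252879) (l 529095951)) (a (l 528968207) (l 528539663))))))), by decide +kernel⟩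

def k57_A00pp_022_s3 : ∃ t, chk3 f_A00pp_022_s3 t 37 61 1 = true :=
  ⟨(b (a (a (b (a (b (a (l 530858767) (l 530711567)) (a (l 530630671) (l 530480399))) (b (a (l 530563343) (l 530413583)) (a (l 530328591) (l 530175759)))) (a (b (a (l 530408207) (l 530254607)) (a (l 530191375) (l 530034447))) (b (a (l 530099727) (l 529943567)) (l 4)))) (b (a (b (a (l 530262799) (l 530110735)) (a (l 530021647) (l 529866255))) (b (a (l 529957391) (l 529802767)) (a (l 529709583) (l 529551887)))) (a (b (a (l 529786127) (l 529627407)) (l 4)) (l 4)))) (b (a (a (b (a (l 529647119) (l 529490191)) (a (l 529392911) (l 529232655))) (b (a (l 529332239) (l 529173007)) (l 4))) (a (b (a (l 529012751) (l 528582927)) (l 4)) (l 4))) (l 4))) (l 4)), by decide +kernel⟩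

def k58_A00pp_022_s3 : ∃ t, chk3 f_A00pp_022_s3 t 38 120 1 = true :=
  ⟨(a (a (b (b (a (l 16735696) (l 16737208)) (a (b (l 16740144) (l 16743144)) (b (l 16741944) (l 16745136)))) (a (b (b (l 16746184) (l 529615119)) (b (l 529553679) (l 529486863))) (b (b (l 16748368) (l 529262863)) (b (a (l 16754280) (l 16755640)) (a (l 529232143) (l 529055503)))))) (b (a (b (l 16738984) (l 529011727)) (b (l 16741040) (b (l 16746368) (l 528585743)))) (a (b (b (l 528938767) (l 528887311)) (a (b (l 528929807) (l 528872207)) (b (l 528735759) (l 528679951)))) (b (a (l 528611087) (l 528146447)) (a (b (l 528531983) (l 528208143)) (b (l 528071183) (a (l 528332815) (l 527982095)))))))) (a (b (a (a (b (l 16742888) (l 528059919)) (b (l 16744304) (l 527895311))) (b (a (l 16745872) (b (l 16745584) (l 16749584))) (a (b (l 16751752) (l 528016399)) (l 527645711)))) (a (b (a (b (l 16755992) (l 527952143)) (b (l 527845647) (a (l 528118031) (l 528061967)))) (a (b (a (l 528217871) (l 527883791)) (a (b (l 528191247) (l 528177935))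 (l 528129295))) (b (l 528069647) (l 528049423)))) (b (b (l 527676431) (l 527659791)) (b (l 527708943) (a (l 527944207) (b (l 527844879) (l 527835407))))))) (b (b (a (b (l 527782671) (l 527772175)) (l 527297295)) (a (b (l 527760655) (l 527747855)) (b (l 527551759) (l 527272463)))) (b (a (b (l 527465743) (a (l 527771407) (l 527668239))) (b (a (l 527580175) (l 527478543)) (a (l 527566351) (b (l 527469071) (l 527462415))))) (a (b (a (l 527755023) (b (l 527656719) (l 527648783))) (a (b (l 527741967) (a (l 527758607) (l 527707663))) (b (a (l 527665679) (l 527615247)) (l 4)))) (b (a (b (l 527555599) (a (l 527573007) (l 527523087))) (b (a (l 527480591) (l 527430927)) (l 4))) (l 4))))))), by decide +kernel⟩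

def k59_A00pp_022_s3 : ∃ t, chk3 f_A00pp_022_s3 t 152 121 1 = true :=
  ⟨(b (b (a (b (b (l 529432079) (l 529124111)) (b (l 529081359) (l 529034511))) (b (b (l 528826127) (l 528790543)) (a (l 528815375) (l 528647951)))) (b (a (a (l 529031695) (l 528875279)) (b (a (l 529013007) (l 528850959)) (b (l 528622607) (l 528591375)))) (a (a (l 529159951) (l 529003279)) (a (l 528845839) (l 528418575))))) (a (b (a (l 528937999) (l 528510479)) (a (l 528378127) (l 4))) (b (a (l 528350223) (l 528189199)) (l 4)))), by decide +kernel⟩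

def k60_A00pp_022_s3 : ∃ t, chk3 f_A00pp_022_s3 t 153 121 1 = true :=
  ⟨(b (b (a (b (a (l 528542479) (l 528353295)) (a (b (l 528761103) (l 528725007)) (a (l 528338959) (l 528243471)))) (a (a (b (l 528470287) (l 528142607)) (b (b (l 528384015) (l 528355599)) (b (l 528058895) (a (l 528321551) (b (l 528286735) (l 528276239)))))) (b (a (b (l 528294415) (l 528002319)) (b (l 527953935) (l 528208655))) (a (b (b (l 527987215) (l 527979279)) (b (l 528240655) (l 528233999))) (l 528189967))))) (a (b (a (b (l 528684559) (l 528367119)) (a (b (l 528554767) (l 528243983)) (b (l 528463631) (b (l 528437007) (l 528147727))))) (b (a (l 528566543) (b (b (l 528435215) (l 528416271)) (l 528386831))) (a (l 528488719) (a (l 528368399) (a (l 528307727) (l 4)))))) (b (a (a (b (a (l 528390671) (b (l 528346895) (l 528062223))) (a (b (l 528366863) (b (l 528354575) (l 528345615))) (b (a (l 528328719) (b (l 528308751) (l 528302351))) (a (a (l 528319503) (b (l 528310799) (b (l 528305167) (l 528302607)))) (b (a (l 528301071)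 (l 528293135)) (l 528292879)))))) (b (a (b (l 528301071) (a (l 528298255) (l 528281871))) (b (l 528268047) (l 528261135))) (b (a (a (b (l 528290319) (l 528286223)) (l 528274703)) (l 528254479)) (l 528261135)))) (b (l 528197647) (a (l 528211215) (l 4)))) (a (b (b (a (b (a (b (a (l 528348431) (l 528327183)) (l 528329999)) (a (a (b (a (l 528312591) (l 528305167)) (a (l 528306959) (l 528303119))) (l 528299279)) (l 528289039))) (a (a (l 528325903) (b (l 528310799) (l 4))) (l 4))) (l 4)) (l 4)) (l 4)) (l 4))))) (b (a (a (b (l 528372751) (l 4)) (l 4)) (l 4)) (l 4))), by decide +kernel⟩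

def k61_A00pp_022_s3 : ∃ t, chk3 f_A00pp_022_s3 t 77 121 1 = true :=
  ⟨(b (a (b (a (b (a (l 527865359) (l 527759631)) (a (a (l 528136975) (l 528084239)) (b (a (l 528037647) (l 527985423)) (a (l 528025871) (l 4))))) (b (a (c (l 527938319) (l 527640591)) (a (c (l 527861263) (l 527831311)) (b (l 527800079) (l 4)))) (a (b (a (l 527933455) (l 4)) (l 4)) (l 4)))) (b (a (a (b (a (l 528118543) (l 4)) (l 4)) (l 4)) (l 4)) (l 4))) (b (a (b (a (b (a (c (l 527764239) (l 527733775)) (l 4)) (l 4)) (l 4)) (l 4)) (l 4)) (l 4))) (l 4)), by decide +kernel⟩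

def k62_A00pp_022_s3 : ∃ t, chk3 f_A00pp_022_s3 t 38 61 1 = true :=
  ⟨(l 4), by decide +kernel⟩

def k63_A00pp_022_s3 : ∃ t, chk3 f_A00pp_022_s3 t 78 120 1 = true :=
  ⟨(a (b (b (a (b (l 527362831) (l 527355919)) (b (a (l 527211023) (l 527110927)) (a (l 527205391) (l 527106063)))) (b (a (a (l 527398671) (l 527298063)) (b (a (l 527200271) (l 527101711)) (a (l 527196687) (l 527098639)))) (a (a (l 527389199) (l 527289103)) (a (l 527190543) (b (l 527095055) (l 527091215)))))) (b (a (b (a (l 527378191) (b (l 527281935) (l 527276559))) (a (b (l 527369487) (a (l 527388175) (l 527338767))) (b (a (l 527295759) (l 527246863)) (l 4)))) (b (a (b (l 527183887) (a (l 527203343) (l 527154959))) (b (a (l 527111183) (l 4)) (l 4))) (l 4))) (l 4))) (b (a (b (a (b (l 527012111) (b (l 527009295) (l 527006991))) (b (a (l 526938895) (l 526890511)) (b (l 526912271) (a (l 526934543) (l 526886671))))) (a (b (b (l 527004431) (l 527001615)) (b (l 526998543) (a (l 527019023) (l 4)))) (b (b (a (l 526932239) (b (l 526885135)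 (a (l 526895887) (l 526872079)))) (a (b (l 526930447) (l 526929167)) (b (l 526882831) (a (l 526893583) (a (l 526875663) (l 4)))))) (a (b (l 526927119) (l 4)) (l 4))))) (b (a (b (a (l 526842127) (b (l 526794767) (l 526793999))) (a (b (l 526840335) (a (l 526850831) (l 526827023))) (b (a (l 526804751) (l 526780943)) (a (b (l 526803727) (l 526802959)) (l 526779663))))) (b (a (b (l 526746895) (l 526746383)) (l 526699279)) (a (b (l 526745615) (l 526744335)) (l 526697999)))) (b (a (a (b (a (b (l 526849551) (a (l 526854415) (b (l 526842895) (l 526842383)))) (c (b (l 526843919) (l 526842895)) (b (l 526807567) (l 526806543)))) (b (a (c (a (l 526871311) (l 526859535)) (a (l 526835215) (l 526823439))) (b (l 526823951) (l 4))) (l 4))) (b (l 526789903) (l 4))) (b (l 526719503) (l 4))) (l 4)))) (l 4))), by decide +kernel⟩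

def k64_A00pp_022_s3 : ∃ t, chk3 f_A00pp_022_s3 t 79 120 1 = true :=
  ⟨(b (b (a (a (a (b (l 526628623) (l 526628111)) (b (l 526535695) (l 526535951))) (a (b (l 526443791) (l 4)) (l 4))) (l 4)) (l 4)) (l 4)), by decide +kernel⟩

def k65_A00pp_022_s3 : ∃ t, chk3 f_A00pp_022_s3 t 39 121 1 = true :=
  ⟨(l 4), by decide +kernel⟩

def k66_A00pp_022_s3 : ∃ t, chk3 f_A00pp_022_s3 t 39 61 1 = true :=
  ⟨(l 4), by decide +kernel⟩

def k67_A00pp_022_s3 : ∃ t, chk3 f_A00pp_022_s3 t 9 31 1 = true :=
  ⟨(l 4), by decide +kernel⟩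

def k68_A00pp_022_s3 : ∃ t, chk3 f_A00pp_022_s3 t 10 6 1 = true :=
  ⟨(a (b (b (l 6) (a (b (l 16045768) (l 16116496)) (b (l 15973336) (l 16057064)))) (b (a (b (l 16187224) (a (l 16272456) (l 16250336))) (a (b (l 16151120) (l 16236192)) (b (l 16137368) (l 16231856)))) (a (a (b (l 16344480) (l 16377800)) (b (l 16330440) (b (l 16393384) (l 16437408)))) (b (a (b (l 16302672) (l 16348840)) (a (l 16328256) (l 16332616))) (a (b (l 16395920) (a (l 16441712) (l 16447032))) (b (l 16406008) (a (l 16453392) (l 16460928)))))))) (b (a (b (b (l 6) (l 15835408)) (a (b (l 15938896) (l 16034328)) (b (l 15927968) (l 16031760)))) (b (b (a (l 6) (l 15700408)) (a (l 15816576) (l 15813816))) (b (a (l 15925504) (l 15929720)) (a (l 16037032) (l 16046120))))) (b (a (b (a (l 16133696) (l 16169440)) (a (b (l 16210256) (l 16262584)) (b (l 16220312) (l 16274976)))) (a (b (l 16149576) (b (l 16234688) (l 16291712))) (b (l 16163424) (b (l 16251808) (l 16310840))))) (a (b (a (b (l 16315008) (l 16367808)) (b (l 16329928) (l 16385120)))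 (a (b (l 16420936) (a (l 16469600) (l 16479352))) (b (a (l 16435160) (l 16445984)) (a (l 16490136) (l 16501920))))) (a (b (b (l 16348880) (l 16427112)) (b (a (l 16457512) (l 16469392)) (a (l 16535288) (l 16547936)))) (b (b (l 16369872) (a (l 16423064) (l 16434672))) (b (a (l 16481520) (l 16493800)) (a (b (l 16525224) (l 16554280)) (b (l 16537952) (l 16567184)))))))))), by decide +kernel⟩

def k69_A00pp_022_s3 : ∃ t, chk3 f_A00pp_022_s3 t 11 6 1 = true :=
  ⟨(b (a (b (b (a (l 15698104) (l 15707408)) (a (a (l 15817088) (l 15823208)) (a (l 15832104) (l 15843080)))) (a (a (b (l 15937280) (l 16058240)) (b (l 15947760) (l 16072680))) (b (a (l 15960448) (l 15974656)) (a (l 16088736) (l 16105608))))) (a (b (b (a (l 15720648) (l 15731104)) (a (l 15855168) (l 15869064))) (b (a (l 15989776) (l 16006936)) (a (l 16166520) (l 16145536)))) (b (b (a (l 15743832) (l 15758888)) (l 15894544)) (b (a (l 16027432) (l 16051128)) (a (l 16170192) (l 16197912)))))) (a (b (a (a (b (l 16221624) (b (l 16270832) (l 16331528)))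 (b (b (l 16166400) (l 16228792)) (b (l 16291040) (l 16352872)))) (b (a (b (l 16184352) (l 16248248)) (b (l 16203768) (l 16269024))) (a (b (l 16311856) (l 16375584)) (b (l 16334600) (l 16400336))))) (a (b (a (b (l 16392064) (a (l 16446456) (l 16458208))) (b (l 16435720) (a (l 16470256) (l 16482696)))) (a (b (a (l 16506040) (l 16539536)) (a (b (l 16550672) (l 16580328)) (l 519130127))) (b (a (l 16531416) (l 16566032)) (a (l 518764559) (l 518401807))))) (b (a (b (l 16438976) (l 517862927)) (b (l 16487216) (l 517151759))) (a (b (l 517863183) (l 517862159)) (b (l 517154319) (l 517155599)))))) (b (a (b (a (l 16290384) (b (l 16249856) (l 16319568))) (a (b (l 16360512) (l 16428408)) (b (l 16389424) (l 16480392)))) (b (a (l 515034639) (l 514363663)) (a (l 515062799) (l 514396175)))) (a (b (a (b (l 516446991) (l 516453135)) (l 516297487)) (a (b (l 516457743) (l 516461327)) (b (l 515773711) (l 515779599)))) (b (a (b (l 515082511) (l 515093007)) (l 514423823)) (a (l 515104527) (l 514446863))))))), by decide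 +kernel⟩

def k70_A00pp_022_s3 : ∃ t, chk3 f_A00pp_022_s3 t 20 28 1 = true :=
  ⟨(a (b (a (b (l 16479288) (a (l 16520312) (l 16522248))) (b (a (l 16480824) (l 16484512)) (a (l 16526184) (l 16531888)))) (a (b (a (l 16562440) (b (l 16555496) (l 16578144))) (a (b (l 16595008) (l 16617232)) (b (l 16600888) (l 16629032)))) (b (a (b (l 16561032) (l 16584344)) (b (l 16567640) (l 16591632))) (a (b (l 16607800) (b (l 16625464) (l 16637280))) (b (l 16615736) (l 523463183)))))) (b (a (b (a (l 16489992) (l 16496496)) (a (l 16549072) (l 16562120))) (b (a (l 16504144) (l 16512888)) (a (b (l 16542432) (l 16568056)) (b (l 16552016) (l 16578168))))) (a (b (a (b (l 16575328) (l 16599944)) (b (l 16584040) (l 16609240))) (a (b (l 16635136) (a (l 16646976) (l 16651952))) (b (a (l 16631952) (l 16637104)) (a (l 16657136) (l 16667776))))) (b (a (b (l 16593736) (l 16629944)) (b (l 16604352) (a (l 16627712) (l 16633472)))) (a (b (a (l 16642464) (l 16648040)) (b (l 16669800) (l 522661647))) (b (a (l 16653816) (l 522142479))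 (a (l 522383887) (l 522222095)))))))), by decide +kernel⟩

def k71_A00pp_022_s3 : ∃ t, chk3 f_A00pp_022_s3 t 40 58 1 = true :=
  ⟨(a (b (a (b (a (l 16637952) (l 16641328)) (a (l 16660088) (l 16669064))) (b (b (l 16641048) (l 16652608)) (b (l 16669392) (a (l 16673440) (l 16677728))))) (a (b (a (b (l 16676392) (l 16687088)) (b (l 16680384) (l 16691248))) (b (a (l 16697656) (l 16704600)) (a (l 525588751) (l 525393423)))) (b (b (l 524645647) (l 524713743)) (b (l 524777999) (l 524838159))))) (b (a (b (b (l 16649128) (l 16666256)) (b (l 524099343) (l 524181263))) (a (b (l 16667144) (l 524122895)) (b (l 523759631) (l 523936527)))) (a (b (b (l 524259599) (l 524334095)) (b (a (l 524766223) (l 524583439)) (a (l 524831503) (l 524652047)))) (b (a (l 524289295) (b (l 524068111) (l 524150543))) (b (a (l 524404751) (a (l 524273423) (l 524186639))) (a (a (l 524520463) (l 524433679)) (l 524304911))))))), by decide +kernel⟩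

def k72_A00pp_022_s3 : ∃ t, chk3 f_A00pp_022_s3 t 40 59 1 = true :=
  ⟨(a (b (a (b (b (a (l 525637135) (l 525444879)) (a (l 525681167) (l 525492239))) (b (a (l 525721359) (l 525536015)) (a (l 525757711) (l 525575439)))) (b (b (a (l 525256719) (l 525072655)) (a (l 525307663) (l 525126927))) (b (a (l 525354511) (l 525177359)) (a (a (l 525441807) (l 525353999)) (a (l 525266959) (l 525180943)))))) (a (b (b (b (a (l 525782543) (l 525602831)) (a (l 525797647) (l 525619471))) (a (a (l 525862927) (l 525774095)) (a (l 525686287) (l 525599759)))) (b (a (a (l 525885967) (l 525798927)) (a (l 525712911) (l 4))) (l 4))) (b (b (b (a (l 525427215) (b (l 525250831) (l 525261327))) (a (l 525445903) (l 525276175))) (a (a (l 525513999) (l 525429519)) (l 4))) (l 4)))) (b (a (b (a (a (l 524966159) (l 524878095)) (b (l 524716815) (a (l 524820751) (b (l 524720655) (l 524750607))))) (a (b (a (l 525047311) (l 524961807)) (a (l 525096207) (b (a (l 525021199) (b (l 524973071) (l 524985615))) (a (b (l 525039375) (a (l 525061647)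 (l 525040911))) (b (l 524997903) (l 525009679)))))) (b (a (b (l 524863503) (a (l 524911631) (l 524869903))) (b (l 524779535) (l 524807439))) (a (b (b (l 524910351) (l 524923151)) (l 524941839)) (l 524847375))))) (b (a (b (a (l 524587791) (l 524502543)) (a (l 524651023) (l 524567567))) (b (l 524376335) (l 524443919))) (a (b (l 524669455) (a (l 524766479) (l 524686351))) (b (l 524507919) (l 4))))) (b (a (a (b (b (a (b (b (l 525122063) (a (l 525148687) (a (l 525117455) (l 525096719)))) (a (l 525156623) (a (l 525125647) (l 4)))) (b (b (a (l 525059855) (l 525018639)) (l 525045007)) (l 4))) (l 4)) (l 4)) (l 4)) (l 4)) (l 4)))), by decide +kernel⟩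

def k73_A00pp_022_s3 : ∃ t, chk3 f_A00pp_022_s3 t 41 29 1 = true :=
  ⟨(b (a (b (a (b (c (l 523236879) (l 523179791)) (a (l 523753487) (b (l 16695648) (l 523622671)))) (b (a (b (l 16676048) (l 16688680)) (l 523026447)) (a (l 523398415) (l 523226127)))) (b (a (a (b (l 523889935) (l 523975951)) (l 523760143)) (a (l 523590927) (l 523425295))) (b (a (a (l 524058383) (l 523890447)) (a (l 523726351) (l 523565839))) (a (a (l 524136975) (l 523972623)) (a (l 523811855) (l 523654671)))))) (b (b (a (b (l 522726415) (l 522811151)) (b (l 522391567) (a (l 522560271) (l 522396431)))) (a (a (l 523057167) (l 522891535)) (a (l 522729231) (l 522569999)))) (a (b (a (l 523262991) (l 523104271)) (a (b (l 523408655) (l 523500815)) (b (a (l 523293199) (l 523217167)) (a (l 523387919) (l 523313679))))) (b (a (b (l 522895375) (a (l 523040015) (l 522963983))) (b (l 522741263) (l 522850831))) (b (a (a (l 523141903) (l 523067407)) (l 522957071)) (l 4)))))) (b (a (a (b (a (b (l 524211727) (l 524282895)) (b (l 524050703) (l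 524125455))) (a (b (l 524350223) (l 4)) (l 4))) (b (a (b (l 523893519) (l 523971599)) (b (l 523739663) (l 4))) (l 4))) (a (b (a (b (a (l 523627023) (l 4)) (l 4)) (l 4)) (l 4)) (l 4))) (l 4))), by decide +kernel⟩

def k74_A00pp_022_s3 : ∃ t, chk3 f_A00pp_022_s3 t 21 28 1 = true :=
  ⟨(a (b (a (b (a (l 16522672) (l 16554416)) (b (a (l 16562576) (l 16574064)) (a (l 16589216) (l 16601144)))) (b (a (b (l 16531416) (l 16558936)) (b (l 16543848) (l 16571776))) (a (b (l 16586440) (l 16624408)) (b (l 16610152) (l 521043983))))) (a (b (b (a (l 16626344) (l 521540879)) (a (a (l 16639448) (l 16645624)) (a (l 16662472) (l 521517839)))) (a (b (a (l 521988623) (l 521840911)) (a (l 522065423) (l 521913871))) (b (a (l 521700111) (l 521566735)) (a (l 521768463) (l 521630223))))) (b (a (b (a (l 16638000) (l 16644768)) (a (l 521394959) (l 521281807))) (a (b (l 16656976) (l 521179919)) (b (l 521039887) (l 521086735)))) (a (b (a (l 521442319) (l 521328399)) (a (l 521500431) (l 521381903))) (a (b (l 521227535) (l 521278991))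 (b (l 521136143) (a (l 521212943) (b (l 521147663) (b (l 521164303) (l 521172751)))))))))) (b (a (b (a (b (l 16556840) (l 16585128)) (b (l 16570000) (l 16598600))) (a (b (l 16623840) (b (l 16634472) (l 16648520))) (b (b (l 16619992) (l 16634216)) (a (l 16657248) (l 520491791))))) (b (a (b (l 16583240) (l 16622488)) (b (l 16596448) (l 519860239))) (a (b (b (l 16633632) (l 16647992)) (b (l 16667576) (l 520221455))) (l 519852047)))) (a (b (a (a (b (l 520934159) (l 520979215)) (b (l 520812815) (b (l 16694104) (l 520853519)))) (b (a (l 520669967) (l 520496399)) (a (b (l 520678415) (l 520677135)) (l 520491023)))) (a (b (a (b (l 521011471) (a (l 521063951) (l 520992271))) (b (l 520858383) (l 520857615))) (a (b (a (l 521081103) (l 520994831)) (a (b (l 521085711) (l 521084943)) (l 520991503))) (l 520851471))) (b (l 520577039) (l 520569359)))) (b (a (b (l 520216591) (l 520210191)) (l 519841039)) (a (b (l 520203279) (l 520196367)) (b (l 519832847) (l 4))))))), by decide +kernel⟩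

def k75_A00pp_022_s3 : ∃ t, chk3 f_A00pp_022_s3 t 21 29 1 = true :=
  ⟨(b (a (a (b (b (b (a (a (l 522151439) (l 521995791)) (l 521771023)) (a (a (l 522236175) (l 522078991)) (a (l 521924879) (l 521774607)))) (a (a (l 522414095) (l 522261007)) (a (l 522110991) (l 521963791)))) (b (a (a (l 522646799) (l 522500623)) (a (l 522357519) (l 522217231))) (l 4))) (b (a (b (b (a (l 521561359) (l 521432847)) (b (l 521536527) (a (l 521653007) (l 521509647)))) (a (l 521819407) (b (l 521609231) (b (l 521712399) (l 4))))) (b (a (b (a (l 521347343) (l 521298703)) (a (b (l 521374735) (l 521411343)) (b (l 521320975) (a (l 521346831) (a (l 521332495) (b (l 521322511) (l 521325327))))))) (b (a (b (l 521247759) (a (l 521273871) (l 521240079))) (b (l 521172495) (l 521174543))) (a (b (a (l 521286927) (l 521244431)) (l 521265935)) (l 521171983)))) (a (b (a (l 521503759) (b (a (a (l 521424655) (l 521419791)) (a (l 521391887) (l 4))) (l 4))) (l 4)) (l 4)))) (l 4))) (b (a (b (a (b (l 520939279) (l 520935183)) (b (l 520563727)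 (l 4))) (l 4)) (l 4)) (l 4))) (l 4)), by decide +kernel⟩

def k76_A00pp_022_s3 : ∃ t, chk3 f_A00pp_022_s3 t 11 14 1 = true :=
  ⟨(b (a (a (b (a (b (a (l 519491343) (l 519123727)) (a (l 519482639) (l 519116303))) (b (a (l 518759439) (l 518397967)) (a (l 518753039) (l 518392591)))) (a (b (a (b (l 519476239) (l 519470863)) (l 519107599)) (a (b (l 519465231) (l 4)) (l 4))) (b (a (l 518745359) (l 518385935)) (l 4)))) (b (b (a (a (l 518039567) (l 517684239)) (l 517155599)) (a (a (l 518035471) (l 517681167)) (l 517154319))) (b (a (a (l 518029839) (l 4)) (l 4)) (l 4)))) (a (b (b (a (l 516463631) (l 515783951)) (l 4)) (l 4)) (l 4))) (l 4)), by decide +kernel⟩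

def k77_A00pp_022_s3 : ∃ t, chk3 f_A00pp_022_s3 t 5 15 1 = true :=
  ⟨(l 4), by decide +kernel⟩

def k78_A00pp_022_s3 : ∃ t, chk3 f_A00pp_022_s3 t 6 2 1 = true :=
  ⟨(b (l 6) (a (b (a (l 6) (a (l 6) (b (l 6) (l 15030264)))) (a (b (a (a (l 15256664) (l 15264568)) (l 15284088)) (a (b (l 15485936) (l 15637032)) (b (l 15521664) (l 15680320)))) (b (a (l 15322408) (l 15457992)) (a (b (l 15570704) (l 15736416)) (b (l 15632360) (l 15804600)))))) (b (a (b (a (l 6) (l 14778944)) (a (l 15082152) (l 15147000))) (b (a (l 14845280) (l 14924120)) (a (l 15328928) (l 504473103)))) (a (b (a (b (l 15349496) (l 15527688)) (b (l 15422984) (l 15606832))) (b (a (l 15705904) (l 15874520)) (a (l 15968048) (l 507101711)))) (b (a (b (l 15507936) (l 15696936)) (b (l 15603624) (l 504824335))) (a (b (l 505945359) (l 506063375)) (b (l 504955151) (l 505081103)))))))), by decide +kernel⟩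

def k79_A00pp_022_s3 : ∃ t, chk3 f_A00pp_022_s3 t 7 2 1 = true :=
  ⟨(b (b (a (l 6) (a (b (l 6) (a (l 6) (b (l 6) (l 14431968)))) (b (a (l 6) (b (l 6) (l 14269368))) (a (b (l 14348032) (l 14567808)) (b (l 14491456) (l 14712616)))))) (a (a (b (l 6) (a (l 14616232) (l 14751744))) (b (a (l 14399184) (b (l 6) (l 14613944))) (a (b (l 14711088) (l 14918320)) (l 500229903)))) (a (a (b (b (l 14520752) (l 14734920)) (l 499477775)) (b (l 498880015) (l 498787855))) (b (a (l 497701391) (l 497123855)) (a (l 498161167) (l 497598223)))))) (a (b (a (b (a (b (l 14915352) (l 15114280)) (l 502275599)) (a (l 503512335) (l 502610191))) (b (a (l 501416975) (l 500618767)) (a (l 501767439) (l 500984591)))) (a (b (a (b (l 15793192) (l 503883535)) (l 502923535)) (a (b (l 504022287) (l 504155919)) (l 503216143))) (b (a (l 502095887) (l 501327887)) (a (l 502403599) (b (l 501573903) (l 501730063)))))) (b (a (b (a (l 499881999) (l 499207183)) (a (l 500262415) (l 499601935))) (b (a (l 498594831) (l 498045967)) (a (l 499003663)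 (l 498468111)))) (a (b (a (b (l 500535055) (l 500708623)) (l 499973903)) (a (l 500956943) (l 500324111))) (b (a (l 499389199) (b (l 498771727) (l 498965263))) (a (l 499752719) (l 4))))))), by decide +kernel⟩

def k80_A00pp_022_s3 : ∃ t, chk3 f_A00pp_022_s3 t 3 3 1 = true :=
  ⟨(b (a (a (b (a (b (a (b (l 15788480) (l 15992712)) (b (l 15839256) (a (l 15982824) (l 16014920)))) (a (b (a (l 16077944) (l 16107784)) (a (l 16270560) (l 513013775))) (b (a (l 16140560) (l 16176192)) (a (l 512376591) (l 511752463))))) (b (a (b (l 15902320) (l 510702351)) (b (l 509432847) (l 509516559))) (a (b (l 510772751) (l 511107343)) (b (l 509595663) (l 509670159))))) (a (b (a (b (a (l 513705231) (l 513059599)) (a (l 513742095) (l 513101071))) (b (a (l 512427023) (l 511807247)) (a (l 512472847) (l 511857423)))) (a (b (a (l 513774351) (l 513137679)) (a (l 513801743) (l 4))) (b (a (l 512513807) (l 511902991)) (l 4)))) (b (a (b (l 511168783) (l 510957071)) (b (l 509740303) (l 509805583))) (b (a (l 511009039) (l 4)) (l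 4))))) (b (a (b (b (a (l 508292623) (l 507206671)) (a (l 508384527) (l 507307279))) (b (a (l 508472079) (l 507403023)) (a (l 508555023) (l 507494159)))) (b (a (b (l 506176527) (l 506285071)) (b (l 505202191) (l 505318671))) (a (b (l 506388751) (a (l 506735375) (l 506246159))) (b (l 505430543) (l 4))))) (a (b (b (a (l 508633359) (l 507580943)) (l 4)) (l 4)) (l 4)))) (a (b (a (b (a (b (l 504284943) (l 504409103)) (b (l 503425295) (l 503556879))) (a (b (l 504528655) (l 4)) (l 4))) (b (b (a (l 502623759) (l 501881103)) (l 4)) (l 4))) (l 4)) (l 4))) (l 4)), by decide +kernel⟩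

theorem t81_A00pp_022_s3 : ∃ t, chk3 f_A00pp_022_s3 t 3 2 1 = true := ex3_a k78_A00pp_022_s3 k79_A00pp_022_s3

theorem t82_A00pp_022_s3 : ∃ t, chk3 f_A00pp_022_s3 t 3 1 1 = true := ex3_b t81_A00pp_022_s3 k80_A00pp_022_s3

theorem t83_A00pp_022_s3 : ∃ t, chk3 f_A00pp_022_s3 t 21 14 1 = true := ex3_b k74_A00pp_022_s3 k75_A00pp_022_s3

theorem t84_A00pp_022_s3 : ∃ t, chk3 f_A00pp_022_s3 t 40 29 1 = true := ex3_b k71_A00pp_022_s3 k72_A00pp_022_s3

theorem t85_A00pp_022_s3 : ∃ t, chk3 f_A00pp_022_s3 t 20 29 1 = true := ex3_a t84_A00pp_022_s3 k73_A00pp_022_s3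

theorem t86_A00pp_022_s3 : ∃ t, chk3 f_A00pp_022_s3 t 20 14 1 = true := ex3_b k70_A00pp_022_s3 t85_A00pp_022_s3

theorem t87_A00pp_022_s3 : ∃ t, chk3 f_A00pp_022_s3 t 10 14 1 = true := ex3_a t86_A00pp_022_s3 t83_A00pp_022_s3

theorem t88_A00pp_022_s3 : ∃ t, chk3 f_A00pp_022_s3 t 5 14 1 = true := ex3_a t87_A00pp_022_s3 k76_A00pp_022_s3

theorem t89_A00pp_022_s3 : ∃ t, chk3 f_A00pp_022_s3 t 5 7 1 = true := ex3_b t88_A00pp_022_s3 k77_A00pp_022_s3

theorem t90_A00pp_022_s3 : ∃ t, chk3 f_A00pp_022_s3 t 5 6 1 = true := ex3_a k68_A00pp_022_s3 k69_A00pp_022_s3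

theorem t91_A00pp_022_s3 : ∃ t, chk3 f_A00pp_022_s3 t 5 3 1 = true := ex3_b t90_A00pp_022_s3 t89_A00pp_022_s3

theorem t92_A00pp_022_s3 : ∃ t, chk3 f_A00pp_022_s3 t 39 120 1 = true := ex3_a k63_A00pp_022_s3 k64_A00pp_022_s3

theorem t93_A00pp_022_s3 : ∃ t, chk3 f_A00pp_022_s3 t 39 60 1 = true := ex3_b t92_A00pp_022_s3 k65_A00pp_022_s3

theorem t94_A00pp_022_s3 : ∃ t, chk3 f_A00pp_022_s3 t 39 30 1 = true := ex3_b t93_A00pp_022_s3 k66_A00pp_022_s3

theorem t95_A00pp_022_s3 : ∃ t, chk3 f_A00pp_022_s3 t 76 121 1 = true := ex3_a k59_A00pp_022_s3 k60_A00pp_022_s3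

theorem t96_A00pp_022_s3 : ∃ t, chk3 f_A00pp_022_s3 t 38 121 1 = true := ex3_a t95_A00pp_022_s3 k61_A00pp_022_s3

theorem t97_A00pp_022_s3 : ∃ t, chk3 f_A00pp_022_s3 t 38 60 1 = true := ex3_b k58_A00pp_022_s3 t96_A00pp_022_s3

theorem t98_A00pp_022_s3 : ∃ t, chk3 f_A00pp_022_s3 t 38 30 1 = true := ex3_b t97_A00pp_022_s3 k62_A00pp_022_s3

theorem t99_A00pp_022_s3 : ∃ t, chk3 f_A00pp_022_s3 t 19 30 1 = true := ex3_a t98_A00pp_022_s3 t94_A00pp_022_s3

theorem t100_A00pp_022_s3 : ∃ t, chk3 f_A00pp_022_s3 t 37 60 1 = true := ex3_b k55_A00pp_022_s3 k56_A00pp_022_s3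

theorem t101_A00pp_022_s3 : ∃ t, chk3 f_A00pp_022_s3 t 37 30 1 = true := ex3_b t100_A00pp_022_s3 k57_A00pp_022_s3

theorem t102_A00pp_022_s3 : ∃ t, chk3 f_A00pp_022_s3 t 36 61 1 = true := ex3_a k53_A00pp_022_s3 k54_A00pp_022_s3

theorem t103_A00pp_022_s3 : ∃ t, chk3 f_A00pp_022_s3 t 36 30 1 = true := ex3_b k52_A00pp_022_s3 t102_A00pp_022_s3

theorem t104_A00pp_022_s3 : ∃ t, chk3 f_A00pp_022_s3 t 18 30 1 = true := ex3_a t103_A00pp_022_s3 t101_A00pp_022_s3

theorem t105_A00pp_022_s3 : ∃ t, chk3 f_A00pp_022_s3 t 9 30 1 = true := ex3_a t104_A00pp_022_s3 t99_A00pp_022_s3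

theorem t106_A00pp_022_s3 : ∃ t, chk3 f_A00pp_022_s3 t 9 15 1 = true := ex3_b t105_A00pp_022_s3 k67_A00pp_022_s3

theorem t107_A00pp_022_s3 : ∃ t, chk3 f_A00pp_022_s3 t 39 59 1 = true := ex3_a k50_A00pp_022_s3 k51_A00pp_022_s3

theorem t108_A00pp_022_s3 : ∃ t, chk3 f_A00pp_022_s3 t 39 29 1 = true := ex3_b k49_A00pp_022_s3 t107_A00pp_022_s3

theorem t109_A00pp_022_s3 : ∃ t, chk3 f_A00pp_022_s3 t 19 29 1 = true := ex3_a k48_A00pp_022_s3 t108_A00pp_022_s3

theorem t110_A00pp_022_s3 : ∃ t, chk3 f_A00pp_022_s3 t 19 14 1 = true := ex3_b k47_A00pp_022_s3 t109_A00pp_022_s3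

theorem t111_A00pp_022_s3 : ∃ t, chk3 f_A00pp_022_s3 t 9 14 1 = true := ex3_a k46_A00pp_022_s3 t110_A00pp_022_s3

theorem t112_A00pp_022_s3 : ∃ t, chk3 f_A00pp_022_s3 t 9 7 1 = true := ex3_b t111_A00pp_022_s3 t106_A00pp_022_s3

theorem t113_A00pp_022_s3 : ∃ t, chk3 f_A00pp_022_s3 t 67 252 1 = true := ex3_b k41_A00pp_022_s3 k42_A00pp_022_s3

theorem t114_A00pp_022_s3 : ∃ t, chk3 f_A00pp_022_s3 t 67 126 1 = true := ex3_b t113_A00pp_022_s3 k43_A00pp_022_s3

theorem t115_A00pp_022_s3 : ∃ t, chk3 f_A00pp_022_s3 t 67 63 1 = true := ex3_b t114_A00pp_022_s3 k44_A00pp_022_s3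

theorem t116_A00pp_022_s3 : ∃ t, chk3 f_A00pp_022_s3 t 133 252 1 = true := ex3_a k37_A00pp_022_s3 k38_A00pp_022_s3

theorem t117_A00pp_022_s3 : ∃ t, chk3 f_A00pp_022_s3 t 133 126 1 = true := ex3_b t116_A00pp_022_s3 k39_A00pp_022_s3

theorem t118_A00pp_022_s3 : ∃ t, chk3 f_A00pp_022_s3 t 66 126 1 = true := ex3_a k36_A00pp_022_s3 t117_A00pp_022_s3

theorem t119_A00pp_022_s3 : ∃ t, chk3 f_A00pp_022_s3 t 66 63 1 = true := ex3_b t118_A00pp_022_s3 k40_A00pp_022_s3

theorem t120_A00pp_022_s3 : ∃ t, chk3 f_A00pp_022_s3 t 33 63 1 = true := ex3_a t119_A00pp_022_s3 t115_A00pp_022_s3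

theorem t121_A00pp_022_s3 : ∃ t, chk3 f_A00pp_022_s3 t 16 63 1 = true := ex3_a k35_A00pp_022_s3 t120_A00pp_022_s3

theorem t122_A00pp_022_s3 : ∃ t, chk3 f_A00pp_022_s3 t 8 63 1 = true := ex3_a t121_A00pp_022_s3 k45_A00pp_022_s3

theorem t123_A00pp_022_s3 : ∃ t, chk3 f_A00pp_022_s3 t 69 62 1 = true := ex3_b k32_A00pp_022_s3 k33_A00pp_022_s3

theorem t124_A00pp_022_s3 : ∃ t, chk3 f_A00pp_022_s3 t 68 125 1 = true := ex3_a k30_A00pp_022_s3 k31_A00pp_022_s3

theorem t125_A00pp_022_s3 : ∃ t, chk3 f_A00pp_022_s3 t 68 62 1 = true := ex3_b k29_A00pp_022_s3 t124_A00pp_022_s3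

theorem t126_A00pp_022_s3 : ∃ t, chk3 f_A00pp_022_s3 t 34 62 1 = true := ex3_a t125_A00pp_022_s3 t123_A00pp_022_s3

theorem t127_A00pp_022_s3 : ∃ t, chk3 f_A00pp_022_s3 t 17 62 1 = true := ex3_a t126_A00pp_022_s3 k34_A00pp_022_s3

theorem t128_A00pp_022_s3 : ∃ t, chk3 f_A00pp_022_s3 t 67 125 1 = true := ex3_a k27_A00pp_022_s3 k28_A00pp_022_s3

theorem t129_A00pp_022_s3 : ∃ t, chk3 f_A00pp_022_s3 t 33 125 1 = true := ex3_a k26_A00pp_022_s3 t128_A00pp_022_s3

theorem t130_A00pp_022_s3 : ∃ t, chk3 f_A00pp_022_s3 t 33 62 1 = true := ex3_b k25_A00pp_022_s3 t129_A00pp_022_s3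

theorem t131_A00pp_022_s3 : ∃ t, chk3 f_A00pp_022_s3 t 16 62 1 = true := ex3_a k24_A00pp_022_s3 t130_A00pp_022_s3

theorem t132_A00pp_022_s3 : ∃ t, chk3 f_A00pp_022_s3 t 8 62 1 = true := ex3_a t131_A00pp_022_s3 t127_A00pp_022_s3

theorem t133_A00pp_022_s3 : ∃ t, chk3 f_A00pp_022_s3 t 8 31 1 = true := ex3_b t132_A00pp_022_s3 t122_A00pp_022_s3

theorem t134_A00pp_022_s3 : ∃ t, chk3 f_A00pp_022_s3 t 35 123 1 = true := ex3_a k22_A00pp_022_s3 k23_A00pp_022_s3

theorem t135_A00pp_022_s3 : ∃ t, chk3 f_A00pp_022_s3 t 17 123 1 = true := ex3_a k21_A00pp_022_s3 t134_A00pp_022_s3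

theorem t136_A00pp_022_s3 : ∃ t, chk3 f_A00pp_022_s3 t 17 122 1 = true := ex3_a k19_A00pp_022_s3 k20_A00pp_022_s3

theorem t137_A00pp_022_s3 : ∃ t, chk3 f_A00pp_022_s3 t 17 61 1 = true := ex3_b t136_A00pp_022_s3 t135_A00pp_022_s3

theorem t138_A00pp_022_s3 : ∃ t, chk3 f_A00pp_022_s3 t 17 243 1 = true := ex3_a k17_A00pp_022_s3 k18_A00pp_022_s3

theorem t139_A00pp_022_s3 : ∃ t, chk3 f_A00pp_022_s3 t 136 242 1 = true := ex3_a k12_A00pp_022_s3 k13_A00pp_022_s3

theorem t140_A00pp_022_s3 : ∃ t, chk3 f_A00pp_022_s3 t 68 242 1 = true := ex3_a t139_A00pp_022_s3 k14_A00pp_022_s3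

theorem t141_A00pp_022_s3 : ∃ t, chk3 f_A00pp_022_s3 t 34 242 1 = true := ex3_a t140_A00pp_022_s3 k15_A00pp_022_s3

theorem t142_A00pp_022_s3 : ∃ t, chk3 f_A00pp_022_s3 t 17 242 1 = true := ex3_a t141_A00pp_022_s3 k16_A00pp_022_s3

theorem t143_A00pp_022_s3 : ∃ t, chk3 f_A00pp_022_s3 t 17 121 1 = true := ex3_b t142_A00pp_022_s3 t138_A00pp_022_s3

theorem t144_A00pp_022_s3 : ∃ t, chk3 f_A00pp_022_s3 t 34 241 1 = true := ex3_a k9_A00pp_022_s3 k10_A00pp_022_s3

theorem t145_A00pp_022_s3 : ∃ t, chk3 f_A00pp_022_s3 t 17 241 1 = true := ex3_a t144_A00pp_022_s3 k11_A00pp_022_s3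

theorem t146_A00pp_022_s3 : ∃ t, chk3 f_A00pp_022_s3 t 17 120 1 = true := ex3_b k8_A00pp_022_s3 t145_A00pp_022_s3

theorem t147_A00pp_022_s3 : ∃ t, chk3 f_A00pp_022_s3 t 17 60 1 = true := ex3_b t146_A00pp_022_s3 t143_A00pp_022_s3

theorem t148_A00pp_022_s3 : ∃ t, chk3 f_A00pp_022_s3 t 17 30 1 = true := ex3_b t147_A00pp_022_s3 t137_A00pp_022_s3

theorem t149_A00pp_022_s3 : ∃ t, chk3 f_A00pp_022_s3 t 67 61 1 = true := ex3_b k6_A00pp_022_s3 k7_A00pp_022_s3

theorem t150_A00pp_022_s3 : ∃ t, chk3 f_A00pp_022_s3 t 33 61 1 = true := ex3_a k5_A00pp_022_s3 t149_A00pp_022_s3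

theorem t151_A00pp_022_s3 : ∃ t, chk3 f_A00pp_022_s3 t 33 30 1 = true := ex3_b k4_A00pp_022_s3 t150_A00pp_022_s3

theorem t152_A00pp_022_s3 : ∃ t, chk3 f_A00pp_022_s3 t 16 30 1 = true := ex3_a k3_A00pp_022_s3 t151_A00pp_022_s3

theorem t153_A00pp_022_s3 : ∃ t, chk3 f_A00pp_022_s3 t 8 30 1 = true := ex3_a t152_A00pp_022_s3 t148_A00pp_022_s3

theorem t154_A00pp_022_s3 : ∃ t, chk3 f_A00pp_022_s3 t 8 15 1 = true := ex3_b t153_A00pp_022_s3 t133_A00pp_022_s3

theorem t155_A00pp_022_s3 : ∃ t, chk3 f_A00pp_022_s3 t 8 7 1 = true := ex3_b k2_A00pp_022_s3 t154_A00pp_022_s3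

theorem t156_A00pp_022_s3 : ∃ t, chk3 f_A00pp_022_s3 t 4 7 1 = true := ex3_a t155_A00pp_022_s3 t112_A00pp_022_s3

theorem t157_A00pp_022_s3 : ∃ t, chk3 f_A00pp_022_s3 t 4 3 1 = true := ex3_b k1_A00pp_022_s3 t156_A00pp_022_s3

theorem t158_A00pp_022_s3 : ∃ t, chk3 f_A00pp_022_s3 t 2 3 1 = true := ex3_a t157_A00pp_022_s3 t91_A00pp_022_s3

theorem t159_A00pp_022_s3 : ∃ t, chk3 f_A00pp_022_s3 t 2 1 1 = true := ex3_b k0_A00pp_022_s3 t158_A00pp_022_s3

theorem t160_A00pp_022_s3 : ∃ t, chk3 f_A00pp_022_s3 t 1 1 1 = true := ex3_a t159_A00pp_022_s3 t82_A00pp_022_s3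

theorem c_A00pp_022_s3 : CertF 0 536870912 0 536870912 1040187392 5207648 true true true .pp 0 2 2
    ndB0q0 ndB0q2 pcB2 cut_A00pp_022_s3 xt_A00pp_022_s3 :=
  certF2 (fam := true) (s1 := true) (s2 := true) (a := 0) (b := 2) (c := 2) (cn := .pp) (n1 := ndB0q0) (n2 := ndB0q2) (pc := pcB2) (cut := cut_A00pp_022_s3) (xt := xt_A00pp_022_s3) (P1 := 0) (W1 := 536870912) (P2 := 0) (W2 := 536870912) (P3 := 1040187392) (W3 := 5207648)
    rfl (fun _ => rfl) t160_A00pp_022_s3

theorem s_A00pp_022_s3 {κ x : ℝ} (hκ : κ * h0 = ken x) (hx : ((1040187392 : ℕ) : ℝ) / S ≤ x)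
    (hx' : x ≤ (((1040187392 : ℕ) : ℝ) + (5207648 : ℕ)) / S)
    (H : CutA (VFD κ) PP tK tL pcB (Cut.of [[⟨0, 0, 0, 22369621⟩, ⟨1, 1, 0, 22369621⟩, ⟨2, 1, 0, 22369621⟩]]) 0 2 2 0 0 (sgb true) (sgb true) x) :
    AltA (VFD κ) PP tK tL pcB [⟨4, 0, 0, 2845415833⟩] 0 2 2 0 0 (sgb true) (sgb true) x :=
  strip_altAD (m := 2845415833) false rfl hκ (SH.κ0 hκ (SH.hx1 hx).le (SH.hx2 hx').le) (SH.hx1 hx).le (SH.hx2 hx') (covB00).cov (covB02).cov hx hx' c_A00pp_022_s3 H ((okx hx hx').extA (T := tt) (sideB hx hx') hκ rfl rfl (.O 0 true) (.O 2 true) (Or.inl rfl))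

end Pool.Agent.Strip051.G.I9688_9736.Tab.St.C
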