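import Pool.Agent.Strip051.G.I9688_9736.StH
import Pool.Agent.Strip051.G.I9688_9736.StF

/-! # Unit strips 3 (generated) -/

set_option linter.all false
set_option maxRecDepth 100000

namespace Pool.Agent.Strip051.G.I9688_9736.Tab.St.C

open Pool.Agent.Strip051.PB Pool.Agent.Strip051.PB.T Pool.Agent.StripNear Pool.Agent.Strip051.LC
open Pool.Agent.Strip051.G.I9688_9736.Tab Pool.Agent.Strip051.G.I9688_9736.Tab.St

noncomputable def cut_A00mm_202_s3 : Cut := Cut.of [[⟨3, 0, 0, 2845415833⟩], [⟨0, 1, 0, 22369621⟩, ⟨1, 0, 0, 22369621⟩, ⟨2, 1, 0, 22369621⟩]]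

noncomputable def xt_A00mm_202_s3 : Ext := strExt dd true false false .u2 .u0m .s2m .pp 2 0 2 rfl rfl gl2 vv ndB0q2 ndB0q0

noncomputable def f_A00mm_202_s3 : ℕ → ℕ → ℕ → ℕ → Bool := onCell 0 536870912 0 536870912 1040187392 5207648
    (rowF 0 true false false .pp 2 0 2 (qsf 0 536870912 0 536870912 2) ndB0q2 ndB0q0 pcB2 cut_A00mm_202_s3 xt_A00mm_202_s3)

def k0_A00mm_202_s3 : ∃ t, chk3 f_A00mm_202_s3 t 2 2 1 = true :=
  ⟨(b (b (l 6) (a (l 6) (a (l 6) (a (l 6) (b (b (l 6) (a (l 6) (l 15576336))) (b (a (l 15452520) (l 15585056)) (a (l 15464080) (l 15601208)))))))) (a (b (l 6) (a (l 6) (b (l 6) (a (l 6) (b (l 6) (a (l 6) (l 14752192))))))) (a (b (b (l 6) (a (l 6) (b (l 15021600) (l 15070776)))) (b (a (b (l 14789040) (l 14857456)) (b (l 15216944) (a (l 15121568) (l 15293560)))) (a (b (l 14948744) (a (l 14938864) (l 15122408))) (b (a (l 15206592) (l 15381208)) (a (l 15302688) (l 15479576)))))) (b (a (b (b (l 15350944) (l 15380280)) (a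 (l 509081359) (l 509470991))) (b (a (b (l 15485424) (l 15520856)) (b (l 15626752) (l 15666072))) (b (a (l 15569616) (l 15718392)) (l 509290511)))) (a (a (b (l 506514191) (b (l 15552384) (l 15736816))) (b (l 506894607) (b (l 15761904) (l 504596239)))) (b (a (l 507290895) (l 507703311)) (a (b (l 505968143) (l 504976399)) (b (l 506369807) (l 505370127))))))))), by decide +kernel⟩

def k1_A00mm_202_s3 : ∃ t, chk3 f_A00mm_202_s3 t 6 8 1 = true :=
  ⟨(b (a (a (l 6) (a (l 6) (b (l 16254112) (l 16164176)))) (b (a (a (l 16342056) (l 16341560)) (a (b (l 16520912) (l 16485184)) (b (l 16504536) (l 16474464)))) (a (a (l 16257416) (l 16262968)) (a (b (l 16449984) (l 16414792)) (b (l 16527264) (l 16496344)))))) (a (b (a (l 6) (a (l 15989416) (l 16089864))) (a (a (l 6) (l 15832304)) (a (l 15939688) (b (l 16051472) (l 16036432))))) (a (b (a (l 16186936) (l 16196408)) (b (a (l 16150928) (l 16246672)) (a (l 16137288) (l 16234400)))) (b (a (b (l 16383344)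 (l 16357496)) (b (l 16467032) (l 16443152))) (a (b (l 16338416) (l 16327528)) (b (l 16425784) (a (l 16394544) (l 16437824)))))))), by decide +kernel⟩

def k2_A00mm_202_s3 : ∃ t, chk3 f_A00mm_202_s3 t 6 9 1 = true :=
  ⟨(b (a (b (b (a (l 15759296) (a (l 15925576) (l 16031640))) (a (l 15819888) (a (l 15927256) (l 16035336)))) (a (a (l 15700480) (b (l 15817928) (l 15824560))) (a (b (l 15933056) (l 15942136)) (b (l 16043784) (l 16055288))))) (a (b (a (b (l 16133648) (l 16139136)) (b (l 16231968) (l 16238432))) (a (b (l 16149448) (l 16163648)) (b (a (l 16225824) (l 16275072)) (l 16298312)))) (b (a (b (l 16357760) (a (l 16310304) (l 16356944))) (b (a (l 16394264) (l 16438208)) (a (l 16402520) (l 16446992)))) (a (b (a (l 16323288) (l 16370072)) (a (l 16340536) (l 16388056))) (b (a (l 16416024) (b (l 16456976) (l 16465080))) (a (b (l 16429240) (l 16439496)) (b (l 16474296) (l 16484560)))))))) (a (a (b (a (l 15714096) (b (l 15833856) (l 15845112)))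 (a (l 15734720) (b (l 15857536) (l 15871400)))) (b (a (b (l 15953792) (l 15967312)) (b (l 16069264) (l 16085016))) (a (b (l 15981880) (l 15997800)) (b (l 16101704) (l 16119640))))) (a (b (a (b (l 16179928) (l 16218856)) (b (a (l 16259552) (l 16310936)) (a (l 16279152) (l 16331632)))) (a (a (l 517061903) (l 517618703)) (a (b (l 16299504) (l 16320920)) (b (l 16353016) (l 16375416))))) (b (a (a (b (l 16360912) (l 16382696)) (b (l 16409424) (l 16453264))) (a (b (l 520354319) (b (l 16474304) (l 16486504))) (b (b (l 16495904) (l 16507960)) (b (l 16520552) (l 16543776))))) (a (a (b (l 16405112) (l 16428488)) (b (b (l 16449968) (l 16461800)) (l 518481167))) (a (b (l 519252495) (l 518803215)) (b (b (l 16561856) (a (l 16547168) (l 16570672))) (l 518863887)))))))), by decide +kernel⟩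

def k3_A00mm_202_s3 : ∃ t, chk3 f_A00mm_202_s3 t 14 32 1 = true :=
  ⟨(a (a (b (l 16550816) (l 16538608)) (a (b (l 16536432) (l 16573424)) (b (l 16530336) (l 16565016)))) (a (a (b (b (l 16602808) (l 16619176)) (l 16601512)) (b (b (a (l 16603592) (l 16605904)) (l 16598928)) (a (l 16600272) (l 16622224)))) (a (a (b (b (l 16609552) (l 16624112)) (b (l 16638432) (l 16652560))) (b (b (a (l 16613112) (l 16615856)) (l 16618008)) (b (l 16642272) (l 16655864)))) (a (b (b (b (l 16619688) (l 16623920)) (a (l 16632544) (l 16625104))) (b (a (l 16645936) (l 16648728)) (l 16649864))) (b (a (b (b (l 16622392) (l 16629064)) (b (l 16635648) (l 16642144))) (b (b (l 16626240) (l 16632808)) (b (l 16639272) (l 16645648)))) (b (a (l 16641288) (b (l 16651952) (l 16658192))) (b (l 16657560) (l 16669008)))))))), by decide +kernel⟩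

def k4_A00mm_202_s3 : ∃ t, chk3 f_A00mm_202_s3 t 240 32 1 = true :=
  ⟨(b (a (b (a (b (l 16629280) (l 16635768)) (b (l 16631384) (l 16637808))) (b (a (l 16642144) (l 16644128)) (l 16649392))) (b (a (b (b (l 16631912) (l 16635136)) (l 16639904)) (b (b (l 16634120) (l 16637320)) (b (l 16640488) (l 16643616)))) (a (b (l 16646176) (l 16652344)) (b (b (l 16646728) (l 16649800)) (l 16654376))))) (a (b (b (l 16655560) (l 16661672)) (b (l 16667728) (l 16673728))) (b (a (b (l 16658424) (l 16664432)) (b (l 16660400) (l 16666344))) (b (l 16671304) (l 16677168))))), by decide +kernel⟩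

def k5_A00mm_202_s3 : ∃ t, chk3 f_A00mm_202_s3 t 241 32 1 = true :=
  ⟨(b (a (b (a (b (b (a (l 16635808) (l 16636944)) (l 16636936)) (b (l 16642696) (l 16645808))) (b (a (b (b (l 16637288) (l 16638888)) (l 16641264)) (b (c (l 16639360) (l 16639128)) (l 16642416))) (b (a (l 16644384) (l 16645528)) (l 16645416)))) (a (b (b (l 16648880) (l 16651936)) (b (l 16654960) (l 16657968))) (b (b (l 16651088) (l 16654120)) (b (l 16657112) (l 16660088))))) (b (a (b (a (b (b (l 16639616) (l 16641208)) (l 16643576)) (b (b (l 16640792) (l 16642384)) (b (l 16643960) (l 16645520)))) (a (b (l 16646680) (l 16649744)) (b (l 16645224) (l 16650896)))) (b (b (a (b (l 16641976) (l 16643568)) (b (c (l 16643288) (l 16643064)) (l 16644760))) (b (c (l 16645840) (l 16645624)) (a (l 16646696) (l 16647880)))) (a (b (c (l 16649120) (l 16648904)) (l 16649440)) (b (c (l 16650304) (l 16650088)) (c (l 16653336) (l 16653128)))))) (a (b (a (b (l 16652776) (l 16655784))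 (b (l 16653920) (l 16656912))) (b (l 16656696) (a (l 16661712) (l 16662816)))) (b (a (b (l 16655064) (l 16658048)) (b (c (l 16656336) (l 16656128)) (l 16659192))) (a (b (l 16661000) (l 16663920)) (b (l 16662136) (l 16665040))))))) (a (b (b (a (l 16662424) (b (l 16663040) (l 16665968))) (b (l 16667856) (l 16670768))) (a (b (l 16674128) (l 16679896)) (b (l 16676080) (l 16681776)))) (b (a (b (b (l 16665184) (l 16668080)) (b (l 16670960) (l 16673824))) (b (a (b (l 16666824) (l 16669704)) (b (l 16667928) (l 16670792))) (b (l 16673096) (l 16675928)))) (a (b (b (l 16676664) (l 16679496)) (l 16683712)) (b (b (l 16678736) (l 16681536)) (b (l 16684312) (l 16687080))))))), by decide +kernel⟩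

def k6_A00mm_202_s3 : ∃ t, chk3 f_A00mm_202_s3 t 242 128 1 = true :=
  ⟨(c (a (a (b (b (a (b (l 16644488) (l 16646064)) (b (l 16645696) (l 16647272))) (b (l 16648232) (l 16649784))) (b (b (l 16651320) (l 16652848)) (a (l 16654520) (l 16655712)))) (b (b (a (b (l 16646920) (l 16648488)) (b (l 16648152) (l 16649720))) (b (l 16650664) (l 16652208))) (b (b (l 16653736) (l 16655256)) (a (l 16656912) (l 16658120))))) (a (b (b (b (l 16647384) (l 16651568)) (a (l 16650656) (l 16654512))) (a (b (l 16656328) (l 16659328)) (b (l 16657560) (l 16660552)))) (b (a (b (l 16650040) (l 16655752)) (b (l 16653904) (l 16656984))) (a (b (l 16658792) (l 16661784)) (b (l 16660024) (l 16663008)))))) (a (a (b (a (b (b (l 16644272) (l 16645856)) (b (l 16647416) (l 16648976))) (b (b (l 16645488) (l 16647064)) (b (l 16648632) (l 16650176)))) (a (b (l 16651280) (l 16654312)) (b (b (l 16651720) (l 16653240)) (l 16655504)))) (b (a (b (b (l 16646712) (l 16648288))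 (b (l 16649848) (l 16651392))) (b (b (l 16647944) (l 16649512)) (b (l 16651072) (l 16652616)))) (a (b (b (l 16652928) (l 16654448)) (l 16656712)) (b (b (l 16654144) (l 16655664)) (l 16657920))))) (a (b (b (b (a (l 16649184) (l 16650432)) (l 16648752)) (b (l 16650304) (l 16651840))) (b (b (l 16655992) (l 16654888)) (b (l 16659008) (l 16660496)))) (b (b (b (l 16649688) (l 16651248)) (a (l 16652944) (l 16656800))) (a (b (l 16658608) (l 16661600)) (b (l 16659840) (l 16662824))))))), by decide +kernel⟩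

def k7_A00mm_202_s3 : ∃ t, chk3 f_A00mm_202_s3 t 242 129 1 = true :=
  ⟨(a (a (b (a (b (c (l 16657504) (l 16657304)) (l 16657736)) (b (c (l 16658688) (l 16658480)) (c (l 16661624) (l 16661424)))) (a (b (l 16663280) (l 16666176)) (b (l 16661816) (l 16667320)))) (b (b (a (c (l 16659872) (l 16659680)) (c (l 16661072) (l 16660880))) (c (l 16660776) (b (l 16662472) (l 16663928)))) (a (b (l 16662984) (l 16668472)) (b (l 16664160) (l 16669640))))) (a (b (b (a (c (l 16662280) (l 16662096)) (c (l 16663504) (l 16663320))) (b (l 16662360) (l 16663800))) (a (b (l 16665344) (l 16670816)) (b (l 16666544) (l 16672000)))) (b (a (b (l 16662008) (l 16664904)) (b (l 16665848) (l 16668736))) (a (b (l 16670368) (l 16673192)) (b (l 16671576) (l 16674376)))))), by decide +kernel⟩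

def k8_A00mm_202_s3 : ∃ t, chk3 f_A00mm_202_s3 t 242 65 1 = true :=
  ⟨(a (b (a (b (a (b (l 16669048) (l 16671896)) (b (l 16670176) (l 16673016))) (b (l 16675272) (l 16678072))) (b (b (c (l 16671984) (l 16671800)) (l 16674704)) (b (l 16677496) (l 16680264)))) (a (b (b (l 16680856) (l 16683616)) (b (l 16686368) (l 16689096))) (b (b (l 16683016) (l 16685744)) (b (l 16688464) (l 16691160))))) (b (a (b (b (c (l 16674304) (l 16674128)) (l 16677000)) (b (l 16679760) (l 16682504))) (b (b (c (l 16676648) (l 16676480)) (l 16679328)) (b (l 16682056) (l 16684768)))) (a (b (b (l 16685224) (l 16687920)) (b (l 16690608) (l 16693272))) (b (b (l 16687456) (l 16690128)) (b (l 16692776) (l 16695416)))))), by decide +kernel⟩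

def k9_A00mm_202_s3 : ∃ t, chk3 f_A00mm_202_s3 t 243 32 1 = true :=
  ⟨(b (a (b (a (b (b (b (l 16652248) (l 16653800)) (b (l 16655336) (l 16659488))) (b (b (l 16661000) (l 16662496)) (b (l 16663984) (l 16662840)))) (b (a (b (l 16654832) (l 16660520)) (b (l 16658648) (l 16661704))) (a (b (l 16663536) (l 16666504)) (b (l 16664720) (l 16667680))))) (a (b (b (b (l 16666928) (l 16668376)) (a (l 16669928) (l 16671112))) (b (l 16673352) (l 16676136))) (b (a (b (l 16669424) (l 16672288)) (b (l 16670584) (l 16673448))) (b (l 16675680) (l 16678448))))) (b (a (b (a (b (l 16659824) (l 16662880)) (b (l 16660984) (l 16664040))) (a (b (l 16665880) (l 16668840)) (b (l 16667032) (l 16669984)))) (b (a (b (l 16662144) (l 16665184)) (b (l 16663280) (l 16666320))) (b (l 16663504) (l 16666440)))) (a (b (b (c (l 16672392) (l 16672232)) (l 16675160)) (b (l 16677960) (l 16680712))) (b (b (l 16669328) (l 16677408)) (b (l 16680200) (l 16682936)))))) (b (a (a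 (b (b (l 16678896) (l 16681624)) (b (l 16684336) (l 16687016))) (b (b (l 16681176) (l 16683880)) (b (l 16686560) (l 16689216)))) (a (b (b (l 16683424) (l 16686104)) (b (l 16688752) (l 16691384))) (b (b (l 16685624) (l 16688280)) (b (l 16690904) (l 16693512))))) (b (b (a (a (l 16689672) (l 16691848)) (a (l 16693984) (l 16696088))) (a (a (l 16692312) (l 16694456)) (l 16697608))) (a (b (a (l 16694936) (l 16697048)) (l 16698584)) (b (l 16700152) (l 16702680)))))), by decide +kernel⟩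

def k10_A00mm_202_s3 : ∃ t, chk3 f_A00mm_202_s3 t 122 32 1 = true :=
  ⟨(a (b (a (b (a (b (b (l 16662352) (l 16668008)) (b (l 16670984) (l 16673912))) (b (b (l 16667200) (l 16670216)) (b (l 16673184) (l 16676096)))) (a (b (b (l 16676792) (l 16679616)) (b (l 16682392) (l 16685120))) (b (b (l 16678960) (l 16681776)) (b (l 16684544) (l 16687256))))) (b (a (b (b (l 16669376) (l 16672384)) (b (l 16675344) (l 16678248))) (b (b (l 16671520) (l 16674520)) (b (l 16677464) (l 16680360)))) (a (b (b (l 16681104) (l 16683904)) (b (l 16686656) (l 16689360))) (b (b (l 16683200) (l 16686000)) (b (l 16688736) (l 16691432)))))) (a (b (b (a (b (l 16687792) (l 16690424)) (b (l 16689920) (l 16692536))) (b (l 16694080) (l 16696640))) (b (b (l 16699176) (l 16701688)) (b (l 16704184) (l 16706648)))) (b (b (b (a (l 16692016) (l 16694072)) (l 16695648)) (b (l 16698200) (l 16700712))) (b (b (l 16703200) (l 16705664)) (a (l 16708344) (l 16710264)))))) (b (a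 (b (b (b (a (l 16673632) (l 16675712)) (l 16677656)) (b (l 16680584) (l 16683464))) (b (b (l 16686296) (l 16689072)) (b (l 16691800) (l 16694480)))) (b (b (b (a (l 16677768) (l 16679792)) (l 16681744)) (b (l 16684656) (l 16687512))) (b (b (l 16690320) (l 16693080)) (b (l 16695784) (l 16698448))))) (a (b (a (b (b (l 16696104) (l 16698688)) (l 16702464)) (b (b (l 16698104) (l 16700672)) (l 16704432))) (a (b (l 16707368) (l 16712168)) (b (l 16709296) (l 16714048)))) (b (b (b (l 16701056) (l 16703608)) (b (l 16706120) (a (l 16707608) (l 16709528)))) (a (b (l 16711216) (l 16715912)) (b (l 16713112) (l 16717768))))))), by decide +kernel⟩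

def k11_A00mm_202_s3 : ∃ t, chk3 f_A00mm_202_s3 t 123 32 1 = true :=
  ⟨(a (b (a (b (b (b (l 16682800) (l 16685736)) (b (l 16688624) (l 16691464))) (b (b (l 16694256) (l 16697000)) (b (l 16699688) (l 16702320)))) (b (b (b (l 16686736) (l 16689664)) (b (l 16692536) (l 16695352))) (b (b (l 16698128) (l 16700848)) (b (l 16703520) (l 16706136))))) (a (b (b (b (l 16704912) (l 16707448)) (b (l 16709936) (l 16712376))) (b (b (l 16714760) (l 16717096)) (a (l 16719608) (l 16721456)))) (b (b (b (l 16708712) (l 16711232)) (b (l 16713696) (l 16716120))) (b (b (l 16718488) (l 16720808)) (a (l 16723280) (l 16725104)))))) (b (a (b (b (b (l 16690632) (l 16693536)) (b (l 16696392) (l 16699200))) (a (b (l 16702360) (l 16707672)) (b (l 16704256) (l 16709560)))) (b (b (b (l 16694504) (l 16697392)) (b (l 16700232) (l 16703024))) (b (b (l 16705760) (l 16708448)) (a (l 16711440) (l 16713320))))) (b (b (a (a (l 16712792) (l 16714656)) (b (l 16716208) (l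 16718696))) (a (b (l 16717424) (l 16719824)) (b (l 16721128) (l 16723520)))) (b (a (b (l 16722176) (l 16724480)) (b (l 16725856) (l 16728136))) (a (b (l 16726728) (l 16728928)) (b (a (l 16729464) (l 16731288)) (l 16732560))))))), by decide +kernel⟩

def k12_A00mm_202_s3 : ∃ t, chk3 f_A00mm_202_s3 t 124 32 1 = true :=
  ⟨(b (b (b (a (a (b (l 16698384) (l 16701256)) (l 14)) (l 14)) (a (a (b (l 16704072) (l 16706848)) (b (l 16707952) (l 16710704))) (a (b (l 14) (l 16714616)) (l 14)))) (b (a (a (b (l 16709568) (l 16712240)) (b (l 16713416) (l 16716072))) (a (b (l 16717312) (l 16719952)) (b (l 16721280) (l 16723912)))) (a (a (b (l 16714864) (l 16717432)) (b (l 16718672) (l 16721232))) (a (b (l 16722544) (l 16725088)) (b (l 16726488) (l 16729016)))))) (b (b (a (a (b (l 16719952) (l 16722424)) (b (l 16723736) (l 16726192))) (a (b (l 16727584) (l 16730024)) (b (l 16731496) (l 16733920)))) (a (a (b (l 16724848) (l 16727216)) (b (l 16728600)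 (l 16730960))) (a (b (l 16732416) (l 16734760)) (a (b (l 16735320) (l 16737656)) (b (l 16737280) (l 16739608)))))) (b (a (a (b (l 16729544) (l 16731808)) (b (l 16733264) (l 16735520))) (a (a (a (l 16736752) (l 16737696)) (a (l 16738648) (l 16739608))) (a (a (l 16740576) (l 16738920)) (a (l 529705231) (l 529666575))))) (b (a (a (l 16734032) (l 16735104)) (a (a (l 16740536) (l 16742432)) (a (l 16744352) (l 16746288)))) (a (a (a (l 16735288) (l 16737120)) (a (l 16738952) (l 16740808))) (a (a (l 16742680) (l 16744568)) (a (l 16746480) (l 16748408)))))))), by decide +kernel⟩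

def k13_A00mm_202_s3 : ∃ t, chk3 f_A00mm_202_s3 t 125 32 1 = true :=
  ⟨(a (b (b (l 14) (b (a (a (b (l 14) (l 16726928)) (l 14)) (l 14)) (b (a (a (l 16729496) (l 16731528)) (l 14)) (a (a (l 16732016) (l 16734040)) (a (l 16736104) (l 16738200)))))) (a (a (b (a (b (l 16735200) (l 529164559)) (b (l 528926223) (l 529390095))) (a (b (l 529626383) (l 529818383)) (b (l 529584655) (l 529778191)))) (b (a (b (l 528881167) (l 529346063)) (b (l 528834575) (l 529300239))) (a (b (l 529541647) (l 529736207)) (a (l 529606415) (l 529583887))))) (a (b (b (b (l 16738560) (l 16740968)) (a (l 529252879) (l 529203983))) (a (a (l 529560847) (l 529537551)) (a (l 529513743) (l 529489423)))) (b (b (b (l 16740648) (l 16743048)) (b (l 16745400) (l 16747696))) (a (a (l 529464591) (l 529439247)) (a (l 529413647) (l 529387279))))))) (b (l 14) (b (b (b (a (a (l 16742776) (l 16744968)) (l 14)) (a (a (l 16745176) (l 16747352)) (a (c (l 16749640) (l 16749568)) (l 14))))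 (b (a (a (l 16747520) (l 16749688)) (a (c (l 16751968) (l 16751904)) (a (l 16753664) (l 16754840)))) (a (a (l 16749808) (a (l 16751432) (l 16752528))) (a (c (l 16754248) (l 16754184)) (a (l 16755944) (l 16757120)))))) (a (a (a (a (l 529360399) (l 529333007)) (a (l 529305103) (l 529276943))) (a (a (l 529248783) (l 529220623)) (a (l 529192463) (l 528895759)))) (a (a (a (l 528867599) (a (l 529114639) (l 529100559))) (a (a (l 529086479) (l 529072399)) (b (l 528682767) (l 529150991)))) (a (a (b (l 528654351) (l 529122575)) (b (l 528626191) (l 528825871))) (a (b (l 528597775) (l 528797455)) (b (l 528569615) (l 528769295))))))))), by decide +kernel⟩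

def k14_A00mm_202_s3 : ∃ t, chk3 f_A00mm_202_s3 t 63 32 1 = true :=
  ⟨(a (b (l 14) (b (b (l 14) (a (a (a (a (a (l 528341519) (l 528313103)) (a (l 528284943) (l 528256527))) (a (a (l 528228111) (l 528199695)) (a (l 528171279) (l 14)))) (l 14)) (l 14))) (b (a (a (a (a (a (l 528541199) (l 528512783)) (a (l 528484367) (l 528455951))) (a (a (l 528427535) (l 528399119)) (a (l 528370703) (l 528342287)))) (a (a (a (l 528313871) (l 528285199)) (a (l 528256783) (l 528228367))) (a (a (l 528199695) (b (l 528121359) (l 528220943))) (b (l 14) (a (l 528192527) (l 528163855)))))) (b (l 14) (a (a (a (a (l 528135183) (l 528106511)) (a (l 528078095) (a (l 528325135) (l 14)))) (l 14)) (l 14)))) (a (a (a (a (a (l 528740879) (l 528712463)) (a (l 528684047) (l 528655631))) (a (a (l 528627215) (l 528598799)) (a (l 528570383) (l 528541967)))) (a (a (a (l 528513551) (l 528484879)) (a (l 528456463) (l 528428047))) (a (a (l 528399375) (b (l 528320783) (l 528420623)))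 (a (b (l 528292367) (l 528392207)) (b (l 528263695) (l 528363535)))))) (a (a (a (a (b (l 528235023) (l 528334863)) (b (l 528206351) (l 528306191))) (a (a (l 528503311) (l 528220687)) (a (l 528206351) (l 528192015)))) (a (a (a (l 528177679) (l 528163343)) (a (l 528149007) (l 528134671))) (l 4))) (l 4)))))) (l 14)), by decide +kernel⟩

def k15_A00mm_202_s3 : ∃ t, chk3 f_A00mm_202_s3 t 14 33 1 = true :=
  ⟨(a (a (b (l 16513336) (a (l 16552976) (l 16588464))) (a (b (l 16643152) (l 16621288)) (b (l 16586784) (l 16567672)))) (a (a (b (l 16633792) (l 16637200)) (b (b (l 16664928) (l 16595984)) (b (l 16611040) (l 16615144)))) (a (b (a (b (l 16666584) (l 16680584)) (b (l 16669304) (l 16682696))) (a (l 16680632) (b (l 16696112) (l 16625432)))) (b (a (b (l 16652248) (l 16686000)) (a (b (l 16676872) (l 16689208)) (b (l 16679632) (l 16691672)))) (a (b (l 16656832) (l 16669360)) (b (l 16692072) (a (l 16713536) (l 16673424)))))))), by decide +kernel⟩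

def k16_A00mm_202_s3 : ∃ t, chk3 f_A00mm_202_s3 t 60 33 1 = true :=
  ⟨(a (b (a (a (b (b (l 16679680) (l 16685584)) (l 16683904)) (b (b (l 16682992) (l 16688760)) (b (l 16694488) (l 16700200)))) (a (b (b (a (l 16685616) (l 16687432)) (l 16692152)) (b (l 16697744) (l 16703304))) (b (a (b (l 16689296) (l 16694832)) (b (l 16691216) (l 16696680))) (b (l 16695968) (l 16701384))))) (a (a (b (l 16685104) (l 16696480)) (b (b (l 16705896) (l 16711552)) (l 16709296))) (a (b (b (l 16708848) (l 16714352)) (b (l 16719720) (l 16724920))) (b (b (l 16712024) (l 16717376)) (b (l 16722584) (l 16727624)))))) (b (a (a (b (a (b (b (l 16691824) (l 16694536)) (l 16698584)) (b (b (l 16693848) (l 16696528)) (l 16700528))) (a (b (l 16703936) (l 16709248)) (b (l 16705816) (l 16711056)))) (b (a (b (b (l 16695928) (l 16698568)) (l 16702520)) (b (b (l 16698040) (l 16700648)) (l 16699296))) (a (b (l 16707736) (l 16712912)) (b (l 16709696) (l 16714800))))) (a (b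 (a (b (l 16696176) (l 16706544)) (b (l 16703456) (l 16708512))) (b (c (l 16707400) (l 16707288)) (l 16712352))) (b (a (b (l 16705456) (l 16710448)) (b (l 16707424) (l 16712352))) (b (c (l 16711128) (l 16711024)) (l 16715952))))) (a (a (b (b (l 16710160) (l 16710112)) (b (l 16715168) (l 16720048))) (b (b (c (l 16719024) (l 16713672)) (l 16718776)) (b (l 16718440) (l 16723160)))) (a (b (b (l 16717328) (l 16716992)) (b (l 16721744) (l 16726304))) (b (b (l 16720792) (l 16720312)) (b (l 16724920) (l 16729336))))))), by decide +kernel⟩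

def k17_A00mm_202_s3 : ∃ t, chk3 f_A00mm_202_s3 t 122 33 1 = true :=
  ⟨(b (a (a (b (a (b (l 16709360) (l 16714224)) (b (l 16711272) (l 16716072))) (a (b (l 16719040) (l 16723816)) (b (l 16720824) (l 16725536)))) (b (a (b (l 16713160) (l 16717904)) (b (l 16715024) (l 16719704))) (a (b (l 16722584) (l 16727232)) (b (l 16724328) (l 16728912))))) (a (b (a (b (l 16716872) (l 16721496)) (b (l 16718696) (l 16723264))) (a (b (l 16726056) (l 16730568)) (b (l 16727768) (l 16732216)))) (b (a (b (l 16720512) (l 16725024)) (b (l 16722320) (l 16726776))) (a (b (l 16729472) (l 16733856)) (b (l 16731160) (l 16735488)))))) (a (a (b (b (l 16724144) (l 16728776)) (b (l 16728000) (l 16732272))) (b (b (c (l 16727440) (l 16727368)) (l 16731904)) (a (l 531913743) (l 531905039)))) (a (b (b (c (l 16730632) (l 16730568)) (l 16734968)) (a (l 531893519) (l 531744527))) (b (a (b (l 16738200) (l 16742472)) (b (l 16739768) (l 16743976))) (a (b (l 16746576) (l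 16739976)) (b (l 16748016) (l 16741352))))))), by decide +kernel⟩

def k18_A00mm_202_s3 : ∃ t, chk3 f_A00mm_202_s3 t 123 33 1 = true :=
  ⟨(a (b (a (b (a (b (l 16724112) (l 16728520)) (b (l 16725904) (l 16730256))) (a (b (l 16732848) (l 16737112)) (b (l 16734528) (l 16738736)))) (b (a (b (l 16727688) (l 16731992)) (b (l 16729472) (l 16733728))) (a (b (l 16736216) (l 16740360)) (b (l 16737896) (l 16741992))))) (a (b (a (b (l 16741328) (l 16745472)) (b (l 16737648) (l 16741728))) (a (b (l 16738960) (l 16742720)) (b (l 16740400) (l 16744088)))) (b (a (b (l 16739216) (l 16743232)) (b (l 16740784) (l 16744728))) (a (b (l 16747072) (l 16750704)) (b (l 16748512) (l 16752080)))))) (b (b (b (a (a (l 16731264) (l 16733048)) (a (l 16734848) (l 16734024))) (a (a (l 16735464) (l 16737216)) (b (l 16738832) (l 16740856)))) (b (a (b (l 16739416) (l 16741440)) (b (l 16742856) (l 16739584))) (a (b (l 16743448) (l 16745432)) (a (b (l 16745944) (l 16747888))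 (b (l 16747624) (l 16749544)))))) (a (b (b (b (l 16747408) (l 16744120)) (a (l 16746248) (l 531268111))) (a (b (l 16749960) (l 16753464)) (b (l 531521295) (l 532054543)))) (b (a (b (b (l 16749816) (l 16751736)) (b (l 16753624) (l 16755464))) (b (b (l 16751448) (l 16753328)) (b (l 16755192) (l 16757008)))) (a (b (l 531479055) (l 531744527)) (b (l 531434255) (l 531699727))))))), by decide +kernel⟩

def k19_A00mm_202_s3 : ∃ t, chk3 f_A00mm_202_s3 t 62 132 1 = true :=
  ⟨(a (b (a (a (a (a (l 530193679) (l 530440463)) (a (l 16737200) (l 16740728))) (a (b (l 16741064) (l 16743128)) (b (l 16742912) (l 16744960)))) (a (a (a (l 530266127) (l 530237711)) (a (l 530208783) (l 530178831))) (a (a (l 530147599) (l 530114831)) (a (l 530080783) (l 530045455))))) (a (a (b (l 16742416) (l 16741776)) (a (b (l 16745136) (l 16747096)) (b (l 16746968) (l 16748920)))) (a (a (b (l 16748816) (l 16750760)) (b (l 16750688) (l 16752624))) (a (b (l 16752576) (l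 16754512)) (b (l 16754488) (l 16756408)))))) (a (a (a (a (b (l 530008335) (l 530195215)) (b (l 529969679) (l 530158607))) (a (a (l 530035471) (l 530015503)) (a (l 529994767) (l 529973775)))) (a (a (a (l 529952527) (l 529930511)) (a (l 529907983) (l 529884943))) (a (a (l 529861135) (l 529837071)) (a (l 529811983) (l 529786383))))) (a (a (a (a (l 529760015) (l 529732879)) (a (l 529704975) (l 529676815))) (a (a (l 529648655) (l 529620495)) (a (l 529592335) (l 529564175)))) (a (a (a (l 529535759) (l 529507599)) (a (l 529479183) (l 529451023))) (a (a (l 529422607) (l 529394447)) (a (l 529366031) (l 529069327))))))), by decide +kernel⟩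

def k20_A00mm_202_s3 : ∃ t, chk3 f_A00mm_202_s3 t 62 133 1 = true :=
  ⟨(a (a (a (a (a (b (l 16746000) (l 16749848)) (b (l 16746872) (l 16750696))) (a (b (l 16747752) (l 16751544)) (b (l 16748632) (l 16749784)))) (a (a (b (l 16749520) (l 16750648)) (b (l 16750408) (l 530850063))) (a (b (l 16748696) (l 530824719)) (b (l 16749600) (l 530798863))))) (a (a (a (b (l 16750512) (l 530772751)) (b (l 530575631) (l 530746383))) (a (b (l 530550287) (l 530719759)) (b (l 530524687) (l 530692879)))) (a (a (b (l 530497807) (l 530665487)) (b (l 530469903) (l 530637327))) (a (b (l 530440207) (l 530608655)) (b (l 530409231) (l 530579215)))))) (a (a (a (a (b (l 530376719) (l 530549007)) (b (l 530342927) (l 530518031))) (a (b (l 530307087) (l 530485775)) (b (l 530269711) (l 530452239)))) (a (a (b (l 530230287) (l 530148367)) (b (l 530188815) (a (l 530388495) (l 530369039)))) (a (a (b (l 530156047) (l 530348815)) (l 529962767)) (a (l 530208271) (l 530184463)))))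 (a (a (a (a (l 530159631) (l 530133263)) (a (l 530105615) (l 530077455))) (a (a (l 530049295) (l 530021135)) (a (l 529992719) (l 529964559)))) (a (a (a (l 529936399) (l 529907983)) (a (l 529879823) (l 529851407))) (a (a (l 529822991) (l 529794831)) (a (l 529766415) (l 529737999))))))), by decide +kernel⟩

def k21_A00mm_202_s3 : ∃ t, chk3 f_A00mm_202_s3 t 63 66 1 = true :=
  ⟨(a (a (a (b (a (a (a (l 529040911) (b (l 528912399) (l 529112335))) (a (b (l 528883983) (l 529083919)) (b (l 528855567) (l 529055503)))) (a (a (b (l 528827151) (l 529027087)) (b (l 528798735) (l 528998671))) (a (b (l 528770319) (l 528970255)) (b (l 528741647) (l 528941583))))) (a (a (a (l 529709583) (l 529681167)) (a (l 529652751) (l 529624335))) (l 4))) (b (b (a (a (a (l 528713231) (l 528684815)) (a (l 528656143) (l 528627727))) (a (a (l 528867599) (l 528838927)) (a (l 528541967) (b (l 528463375) (l 4))))) (a (a (a (l 529181711) (l 529153039)) (l 4)) (l 4))) (l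 4))) (l 4)) (l 4)), by decide +kernel⟩

def k22_A00mm_202_s3 : ∃ t, chk3 f_A00mm_202_s3 t 31 67 1 = true :=
  ⟨(a (a (a (a (b (a (a (b (l 531177231) (l 531415311)) (b (l 531153423) (l 531391247))) (a (b (l 531128847) (l 531366671)) (b (l 531104015) (l 531341327)))) (a (a (b (l 531667727) (l 531932431)) (l 531505679)) (a (l 531480591) (l 531454991)))) (b (a (a (b (l 531078415) (l 531315471)) (b (l 531052303) (l 531289359))) (a (b (l 531025679) (l 531262479)) (b (l 530998799) (l 531235343)))) (a (a (l 531428879) (l 531133711)) (a (l 531240719) (l 531078927))))) (a (a (b (a (b (l 530971407) (l 531207695)) (b (l 530943759) (l 531180047))) (a (l 531319567) (l 531291663))) (b (a (b (l 530915599) (l 531151887)) (b (l 530887439) (l 531123983))) (a (l 531264015) (l 531236367)))) (a (b (a (b (l 530858511) (l 531094799)) (b (l 530828559) (l 531065103))) (a (l 531208207) (l 531178767))) (b (a (b (l 530797583) (l 531034127)) (b (l 530765839) (l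 531002127))) (a (l 531148559) (l 531117327)))))) (a (a (a (b (b (a (l 530733071) (l 530699535)) (a (l 530969359) (l 530935311))) (a (l 531085071) (l 531051791))) (b (b (a (l 530665231) (l 530361615)) (a (l 530900495) (l 530864399))) (a (l 531017743) (l 530982415)))) (a (b (b (a (b (l 530547983) (l 530645263)) (b (l 530513167) (l 530607631))) (a (l 530827535) (l 530789647))) (a (l 530677775) (a (l 531186703) (l 531168015)))) (b (b (a (b (l 530477327) (l 530569487)) (b (l 530170639) (a (l 530540559) (l 530503439)))) (a (l 530750735) (l 530710799))) (l 4)))) (b (a (b (a (a (a (b (l 530406927) (a (l 530226959) (l 530503951))) (b (l 530383119) (l 530483727))) (a (l 530406415) (l 530378511))) (a (a (l 530350351) (l 530321935)) (a (l 530293775) (l 530265615)))) (a (a (l 530669839) (l 4)) (l 4))) (l 4)) (l 4)))) (l 4)), by decide +kernel⟩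

def k23_A00mm_202_s3 : ∃ t, chk3 f_A00mm_202_s3 t 14 34 1 = true :=
  ⟨(a (a (a (b (l 16526584) (l 16504080)) (b (l 16564088) (l 16543008))) (a (b (l 16599624) (l 16580760)) (b (l 16633088) (l 16616328)))) (a (a (b (l 16621664) (b (l 16653232) (l 16646832))) (b (b (l 16608848) (l 16603080)) (a (l 16672504) (l 16643792)))) (a (b (a (l 16684800) (b (l 16716920) (l 16713008))) (a (b (l 16699456) (l 16696000)) (b (l 16709696) (l 16707056)))) (a (b (b (l 16681280) (l 16721320)) (b (l 16718776) (l 16716928))) (b (b (l 16704672) (l 16707592)) (b (l 16716280) (a (l 16723616) (l 16727752)))))))), by decide +kernel⟩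

def k24_A00mm_202_s3 : ∃ t, chk3 f_A00mm_202_s3 t 60 34 1 = true :=
  ⟨(a (a (b (a (b (l 16707176) (l 16733344)) (b (l 16719656) (l 16715272))) (a (b (l 16732112) (l 16731640)) (b (l 16724896) (b (l 16735248) (l 16735416))))) (b (a (b (b (l 16729936) (l 16713768)) (a (l 16717312) (l 16729088))) (b (b (l 16711496) (l 16716136)) (b (l 16720568) (l 16720336)))) (a (b (b (l 16738488) (l 16738432)) (b (l 16738584) (l 16738952))) (a (b (l 16735344) (l 531872271)) (b (l 532129039) (l 531599631)))))) (a (b (a (b (b (l 16724728) (l 16729200)) (b (l 16733296) (l 16733208))) (a (b (l 532379407) (l 532571663)) (b (l 532393231) (l 532536591)))) (a (a (b (l 532115215) (l 531587343)) (b (l 532093967) (l 531566607))) (a (b (l 532064527) (l 531535887)) (b (l 532026639) (l 531763727))))) (b (a (b (b (l 16730672) (l 16734808)) (b (l 16737352) (l 16737600))) (a (b (l 532423183) (l 532443151)) (b (l 532427535) (l 532418063)))) (a (a (b (l 531989519) (l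 531723535)) (b (l 531955471) (l 531686415))) (a (b (l 531924495) (l 531652111)) (b (l 531896335) (l 531352591))))))), by decide +kernel⟩

def k25_A00mm_202_s3 : ∃ t, chk3 f_A00mm_202_s3 t 61 34 1 = true :=
  ⟨(a (a (b (a (b (b (l 16736320) (l 16740144)) (a (l 532396047) (l 532376847))) (b (a (l 532155919) (l 532149007)) (a (l 532360719) (l 532347663)))) (a (a (b (l 531871247) (l 531324431)) (b (l 531849487) (l 531299343))) (a (b (l 531830543) (l 531277327)) (b (l 531814415) (l 531258383))))) (b (a (b (a (l 532139535) (l 532126991)) (a (l 532337679) (l 532331023))) (b (a (l 532245775) (b (l 16744936) (l 16748272))) (a (l 532327183) (l 532326415)))) (a (a (b (l 531801615) (l 531242511)) (b (l 531792143) (l 531229711))) (a (b (l 531785487) (l 531220239)) (b (l 531781903) (l 531213839)))))) (a (b (a (b (a (b (l 16746240) (l 532741391)) (a (l 532323087) (l 532310287))) (a (l 532328975) (l 532334351))) (b (a (a (l 532296975) (l 532282639))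 (b (l 532395023) (l 532393487))) (a (l 532074767) (l 532086543)))) (a (a (b (l 531781647) (l 531210511)) (b (l 531784463) (l 531210255))) (b (a (l 531790351) (l 531799567)) (a (l 531213327) (l 531085327))))) (b (a (b (a (b (l 532361487) (l 532361231)) (b (l 532324879) (l 532325903))) (a (l 532101647) (l 532119823))) (b (a (b (l 532285199) (l 532287759)) (b (l 531973903) (l 532246543))) (a (l 532141327) (l 532165903)))) (a (a (b (l 531812111) (a (l 531495183) (l 531500815))) (b (l 531559183) (a (l 531507215) (l 531514383)))) (a (b (l 531644943) (a (l 531522319) (l 531531279))) (b (a (l 532131599) (l 532143375)) (l 4))))))), by decide +kernel⟩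

def k26_A00mm_202_s3 : ∃ t, chk3 f_A00mm_202_s3 t 31 34 1 = true :=
  ⟨(a (a (a (b (a (b (a (b (l 531927567) (l 532202255)) (b (a (l 532159247) (l 532133647)) (l 532154895))) (a (a (l 532455439) (l 532470287)) (a (l 532485903) (l 532502287)))) (b (a (b (a (l 532107279) (l 532079887)) (a (l 532386063) (l 532359951))) (b (a (l 532051727) (l 532022799)) (b (l 531982351) (l 532119823)))) (a (a (l 532519439) (l 532507151)) (a (l 532481295) (l 532454415))))) (b (a (a (a (l 532155919) (l 532169487)) (a (l 532183823) (l 532198927))) (l 4)) (l 4))) (b (a (b (a (b (a (l 531993615) (l 531964687)) (b (a (l 532208143) (l 532183055)) (l 532063759))) (b (a (l 531938063) (l 531909135)) (a (b (l 532146447) (l 532288527)) (b (l 532119823) (l 532261135))))) (a (a (l 532427023) (l 532398607)) (l 4))) (b (a (b (a (l 531881487) (l 531853071)) (b (a (l 532092687) (l 4)) (l 4))) (b (a (l 531823375) (l 531792911)) (l 4))) (l 4))) (l 4))) (l 4)) (l 4)), by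 decide +kernel⟩

def k27_A00mm_202_s3 : ∃ t, chk3 f_A00mm_202_s3 t 14 35 1 = true :=
  ⟨(a (a (a (b (l 16488120) (l 16479912)) (b (l 16528064) (l 16520728))) (a (b (l 16566608) (b (l 16561040) (l 16559960))) (b (l 16603648) (b (l 16598864) (l 16598264))))) (a (a (b (b (l 16641424) (l 16637296)) (b (l 16635144) (l 16635056))) (b (a (l 16642720) (b (l 16680088) (l 16677232))) (a (b (l 16660392) (l 16660728)) (b (l 16675824) (l 16676464))))) (a (b (a (b (l 16693240) (l 16691168)) (b (l 16705136) (l 16703992))) (a (b (l 16690360) (l 16691184)) (b (l 16703720) (l 16704976)))) (b (a (b (l 16715848) (l 16715584)) (a (b (l 16723160) (l 16723552)) (b (l 16727704) (l 16728536)))) (a (b (b (l 16715960) (l 16716480)) (a (l 16714760) (l 16721088))) (b (a (l 16724848) (l 16730288)) (a (c (l 16727208) (l 16727064)) (b (l 16732208) (l 16733880))))))))), by decide +kernel⟩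

def k28_A00mm_202_s3 : ∃ t, chk3 f_A00mm_202_s3 t 120 35 1 = true :=
  ⟨(b (a (a (b (l 16732008) (b (l 16732872) (l 16733736))) (b (b (l 16735800) (l 16736416)) (b (l 16737264) (l 16738344)))) (a (b (b (l 16739544) (l 16740368)) (b (l 16741424) (a (l 16741648) (l 16743792)))) (b (a (l 531047439) (b (l 16743928) (l 16745008))) (a (b (l 16744408) (l 16745872)) (b (l 16746328) (l 16747904)))))) (a (a (b (b (l 16734840) (l 16736184)) (b (l 16737784) (l 16739632))) (b (b (l 16739672) (l 16741256)) (b (a (l 16741784) (l 16744384)) (a (l 16743832) (l 16746544))))) (a (b (a (b (l 16743152) (l 16744904)) (b (l 16745400) (l 16747272))) (b (a (l 16746920) (l 16749400)) (a (l 16749208) (a (l 16751160) (l 16752448))))) (b (a (b (l 16747592) (a (l 16749008) (l 16750152))) (b (l 530286607) (b (l 16751288) (l 16752408)))) (a (b (a (l 16751232) (l 16752432)) (b (l 16753704) (l 16755032))) (b (b (l 16753592) (l 16754848)) (a (l 529043983) (l 529193487)))))))),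 by decide +kernel⟩

def k29_A00mm_202_s3 : ∃ t, chk3 f_A00mm_202_s3 t 121 35 1 = true :=
  ⟨(a (a (b (a (b (b (l 16745592) (l 16746776)) (a (l 530735631) (l 530730767))) (b (b (l 16747208) (l 531146255)) (a (l 530722575) (l 530711055)))) (a (b (b (l 530288143) (a (l 529982223) (l 529982479))) (b (a (l 529398287) (l 529670415)) (a (l 529205775) (b (l 16759184) (l 16760656))))) (b (a (b (l 530280719) (l 529978895)) (l 529987343)) (a (b (l 529670159) (l 529084687)) (b (l 529664783) (l 529083407)))))) (b (a (b (b (l 16748784) (l 531115023)) (a (l 530695951) (l 530676495))) (b (l 531211791) (l 530371855))) (a (b (a (l 529839375) (l 530088463)) (a (b (l 529653775) (l 529075727)) (a (l 529487631) (l 529476879)))) (b (b (l 530199311) (l 529899535)) (b (l 529595663) (l 529018639)))))) (b (a (b (a (l 531168271) (l 530859279)) (a (l 530324751) (l 530280719))) (b (a (l 530821647) (l 530787343)) (a (b (l 530655503) (l 530359311)) (b (l 530618383)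 (l 530320399))))) (a (b (a (b (l 530149391) (l 529847823)) (b (l 530102543) (l 529798927))) (a (b (l 529273359) (l 528962831)) (b (l 529222415) (l 528910095)))) (a (b (b (l 530058511) (l 529753103)) (b (l 529174799) (l 528860175))) (b (b (l 530017807) (l 529710351)) (b (l 529129999) (l 528813583))))))), by decide +kernel⟩

def k30_A00mm_202_s3 : ∃ t, chk3 f_A00mm_202_s3 t 61 35 1 = true :=
  ⟨(a (b (a (a (b (a (l 530755855) (l 530727439)) (a (b (l 530584335) (l 530284559)) (b (l 530553359) (l 530251791)))) (a (b (l 530702095) (b (l 530525455) (l 530222351))) (b (l 530679823) (b (l 530500623) (l 530195727))))) (a (a (b (l 530660879) (b (l 530479119) (l 530172431))) (b (a (l 530917391) (l 530910223)) (b (l 530460687) (l 530152207)))) (a (b (a (l 530903823) (l 530898191)) (b (l 530445327) (l 530135055))) (b (a (l 530893327) (l 530889487)) (a (l 530280975) (l 530275343)))))) (b (b (a (a (a (l 529980175) (l 529945615)) (a (l 529914127)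 (l 529885711))) (a (a (l 529860623) (l 529838607)) (l 4))) (a (a (a (l 529670927) (l 529634319)) (a (l 529601039) (l 529570831))) (l 4))) (a (a (a (b (l 529088527) (l 528770063)) (b (l 529050127) (l 4))) (a (a (l 529131535) (l 4)) (l 4))) (l 4)))) (a (b (b (a (a (a (l 530886159) (l 530883855)) (a (l 530882063) (l 530881295))) (a (a (l 530881295) (l 530882063)) (a (l 530883599) (l 530886159)))) (a (a (a (l 530270479) (l 530266383)) (l 4)) (l 4))) (l 4)) (l 4))), by decide +kernel⟩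

def k31_A00mm_202_s3 : ∃ t, chk3 f_A00mm_202_s3 t 31 35 1 = true :=
  ⟨(l 4), by decide +kernel⟩

def k32_A00mm_202_s3 : ∃ t, chk3 f_A00mm_202_s3 t 28 36 1 = true :=
  ⟨(a (b (a (l 16491472) (b (l 16521104) (l 16524440))) (a (b (l 16487504) (l 16493496)) (b (l 16529544) (l 16535792)))) (b (a (b (l 16561208) (l 16564912)) (b (l 16599944) (a (l 16594392) (l 16613616)))) (a (b (l 16580832) (a (l 16566728) (l 16586960))) (a (b (l 16600096) (l 16606872)) (b (l 16619512) (l 16626448)))))), by decide +kernel⟩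

def k33_A00mm_202_s3 : ∃ t, chk3 f_A00mm_202_s3 t 29 36 1 = true :=
  ⟨(a (a (b (a (b (l 16628088) (l 16632528)) (b (l 16646192) (l 16650872))) (a (b (l 16638624) (b (l 16643864) (l 16647672))) (b (l 525501199) (b (l 16662560) (l 16666448))))) (b (b (a (l 16663280) (l 16679296)) (a (l 526281999) (b (l 16682984) (l 16686088)))) (a (b (b (l 16673008) (l 16676512)) (b (l 16685504) (l 525056271))) (a (b (l 526090255) (l 525405967)) (b (l 526246159) (l 525563407)))))) (a (b (b (a (b (l 16693320) (l 16695456)) (b (l 16707344) (l 16709632))) (a (b (l 16698208) (l 16701440)) (a (l 526839567) (l 526971663)))) (a (b (a (l 526396431) (l 526272527)) (a (l 525715471) (b (l 526231311) (l 526030351)))) (b (a (l 526411535) (b (l 16723040) (l 526709775))) (a (b (l 526371599) (l 526171663)) (b (l 526505999) (l 526038543)))))) (b (b (a (a (l 16718432) (l 527747343)) (a (b (l 16729920) (l 16732488)) (b (l 16735960) (l 16738616)))) (a (a (b (l 16722720)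 (l 16726200)) (b (l 16729280) (l 16732832))) (a (b (l 16735656) (l 527492879)) (b (l 527551759) (l 527333391))))) (a (b (a (b (l 16732552) (l 526569231)) (b (l 527166479) (l 526691343))) (a (b (l 526366223) (l 526168079)) (b (l 526489103) (a (l 526530063) (l 526590223))))) (b (a (b (l 527013391) (a (l 527047695) (l 527104271))) (b (a (l 527364879) (l 527418127)) (a (l 527159311) (l 527212815)))) (b (a (a (l 526845967) (b (l 526952975) (l 526853391))) (b (a (l 527008271) (l 527062031)) (a (l 526908943) (l 526962959)))) (a (a (l 526649103) (l 526706447)) (a (b (l 526810895) (l 526714127)) (b (l 526865167) (l 526768399)))))))))), by decide +kernel⟩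

def k34_A00mm_202_s3 : ∃ t, chk3 f_A00mm_202_s3 t 120 72 1 = true :=
  ⟨(b (a (a (b (l 528566799) (l 527940111)) (b (a (l 16746160) (l 16748984)) (l 528318735))) (a (b (a (a (l 16751064) (l 16752440)) (b (l 16753800) (l 16755200))) (a (l 528402191) (l 528190479))) (b (a (b (l 16756440) (l 528553487)) (b (a (l 16758384) (l 16759672)) (a (l 16759912) (l 16761224)))) (a (b (l 528352015) (l 528420111)) (b (a (l 16761504) (l 528696079)) (l 528208911)))))) (a (a (b (a (l 16746416) (l 527948303)) (a (l 527679759) (l 527729935))) (b (b (l 527814671) (l 527693327)) (a (l 527778319) (l 527825167)))) (b (a (b (l 527908623) (l 527783951)) (b (a (l 528246031) (l 528291599)) (a (l 528116751) (l 528157455)))) (a (a (l 527870735) (l 527914511)) (a (l 527956751) (l 527729167)))))), by decide +kernel⟩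

def k35_A00mm_202_s3 : ∃ t, chk3 f_A00mm_202_s3 t 120 73 1 = true :=
  ⟨(a (a (b (a (b (l 527470095) (l 526996495)) (b (l 527520271) (l 527047183))) (b (a (b (l 527114511) (l 527015695)) (a (b (l 527152911) (l 527054095)) (b (l 527177743) (l 527079183)))) (a (b (a (l 526904847) (l 526930959)) (b (l 526845455) (l 526797327))) (b (a (l 526956559) (b (l 527005967) (l 526957583))) (b (a (l 526884111) (l 526909455)) (a (l 526836239) (b (l 526873615) (l 526849551)))))))) (b (a (a (l 527454223) (l 527478287)) (b (l 527616271) (l 527412239))) (a (b (a (l 527153167) (l 527177231)) (a (b (a (l 527000335) (l 527012623)) (b (a (l 526928143) (l 526940431)) (a (b (l 526892303) (l 526868495)) (a (l 526889743) (l 526895887))))) (a (a (l 526973711) (l 526979855)) (l 526988815)))) (b (a (l 527201295) (l 527224847)) (a (b (l 527055119) (l 526959119)) (b (l 527078671) (a (l 526977039) (l 4)))))))) (a (b (a (b (l 527661839) (l 527206415)) (b (l 527437583)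 (a (l 527491599) (l 527245071)))) (b (a (a (b (l 527297295) (l 527198991)) (b (l 527320079) (l 527221775))) (a (b (l 527342351) (a (l 527238671) (l 4))) (b (a (l 527358735) (l 527369743)) (l 4)))) (a (b (a (a (l 527096335) (l 527107855)) (l 4)) (l 4)) (l 4)))) (b (b (a (c (l 527495439) (l 527464975)) (a (l 527511311) (b (l 527851279) (l 527748623)))) (a (a (b (l 527585295) (l 527484943)) (b (l 527606287) (a (l 527500815) (l 4)))) (b (a (a (l 527621903) (l 527632143)) (l 4)) (l 4)))) (l 4)))), by decide +kernel⟩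

def k36_A00mm_202_s3 : ∃ t, chk3 f_A00mm_202_s3 t 242 144 1 = true :=
  ⟨(a (a (b (a (b (l 16760936) (l 528907279)) (b (l 529098511) (l 528656911))) (b (a (l 528453391) (l 528476431)) (a (l 528254479) (b (l 528602639) (l 528502543))))) (b (a (b (l 528839183) (l 528670479)) (a (b (l 529111055) (l 528945679)) (l 528761615))) (b (a (b (l 528808463) (l 528718863)) (b (l 528552207) (l 528465935))) (a (a (l 528304655) (l 528316431)) (b (l 528377615) (l 528285711)))))) (b (a (a (b (l 528839439) (l 528678927)) (a (l 529020175) (l 529010703))) (l 528706063)) (a (a (b (a (l 528783375) (l 528783887)) (a (b (l 528655887) (l 528567823)) (b (l 528659215) (l 528573967)))) (a (b (l 528780815) (a (l 528617999) (l 528617487))) (b (l 528773647) (l 528345359)))) (a (l 528405263) (l 528642831))))), by decide +kernel⟩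

def k37_A00mm_202_s3 : ∃ t, chk3 f_A00mm_202_s3 t 242 145 1 = true :=
  ⟨(a (b (b (a (c (l 528083727) (l 528057103)) (b (a (l 528428559) (a (l 528450831) (l 528464143))) (a (l 528330255) (l 528086799)))) (a (l 527928335) (b (a (l 528252943) (l 528272143)) (l 528206863)))) (a (a (l 528027407) (l 527778319)) (a (b (l 528118287) (l 528013071)) (c (l 527829775) (l 527801359))))) (a (b (a (b (b (a (l 528475919) (l 528217103)) (b (a (l 528402703) (l 528415247)) (l 528089103))) (b (b (l 528309775) (l 528274703)) (l 528234255))) (b (b (a (l 528239887) (l 528223503)) (a (b (l 528156687) (l 528109839)) (a (b (l 528429327) (l 528385551)) (b (l 528429327) (l 528387599))))) (b (a (b (b (l 528340495) (l 528315663)) (l 528288015)) (b (a (b (l 528350735) (l 528325391)) (b (l 528355087) (a (l 528330767) (l 528333327)))) (b (b (l 528310031) (l 528300303)) (l 528289551)))) (l 528251919)))) (b (a (l 528154639) (c (l 528186127) (l 527889935))) (l 4)))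 (b (b (a (a (a (l 528177167) (l 528438031)) (l 528425999)) (l 528402447)) (a (b (a (a (b (a (b (l 528355855) (l 528334863)) (l 528342799)) (b (a (b (a (l 528317455) (l 528318735)) (b (l 528308751) (l 528304143))) (a (b (l 528318223) (b (l 528311823) (l 528306447))) (l 528312591))) (a (l 528294927) (a (l 528296719) (l 4))))) (b (l 528337679) (b (l 528307471) (l 4)))) (b (l 528325391) (l 4))) (l 4)) (l 4))) (l 4)))), by decide +kernel⟩

def k38_A00mm_202_s3 : ∃ t, chk3 f_A00mm_202_s3 t 243 72 1 = true :=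
  ⟨(b (b (a (a (l 528648207) (l 528593167)) (a (l 528541455) (l 528492815))) (a (a (l 528329487) (l 528272399)) (l 4))) (a (b (b (a (l 528087823) (l 4)) (l 4)) (l 4)) (l 4))), by decide +kernel⟩

def k39_A00mm_202_s3 : ∃ t, chk3 f_A00mm_202_s3 t 121 73 1 = true :=
  ⟨(a (a (b (b (a (a (b (l 527870991) (a (l 527763471) (l 527773455))) (b (a (l 527885583) (l 527895311)) (l 4))) (b (a (a (l 527904783) (l 4)) (l 4)) (l 4))) (l 4)) (l 4)) (l 4)) (l 4)), by decide +kernel⟩

def k40_A00mm_202_s3 : ∃ t, chk3 f_A00mm_202_s3 t 61 36 1 = true :=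
  ⟨(l 4), by decide +kernel⟩

def k41_A00mm_202_s3 : ∃ t, chk3 f_A00mm_202_s3 t 31 36 1 = true :=
  ⟨(l 4), by decide +kernel⟩

def k42_A00mm_202_s3 : ∃ t, chk3 f_A00mm_202_s3 t 28 37 1 = true :=
  ⟨(a (a (b (b (l 16500648) (l 16508912)) (b (l 16518248) (l 16528592))) (b (b (l 16543168) (l 16562096)) (a (b (l 16550472) (l 16560888)) (b (l 16571600) (l 16582056))))) (a (b (a (b (l 16574280) (l 16582864)) (b (l 16594640) (l 16603328))) (a (b (l 16592432) (l 16602944)) (b (l 16612976) (l 16628776)))) (b (a (b (l 16614680) (l 16623480)) (a (l 523444239) (l 523593743))) (a (b (l 522676495) (b (l 16641096) (l 16646616))) (b (a (l 16648184) (l 16658072)) (a (l 16658856) (l 16674016))))))), by decide +kernel⟩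

def k43_A00mm_202_s3 : ∃ t, chk3 f_A00mm_202_s3 t 58 37 1 = true :=
  ⟨(a (a (b (a (l 523754255) (b (l 16658600) (l 16672912))) (a (b (l 16673120) (l 523083535)) (b (l 523622671) (b (l 16685624) (l 16691208))))) (b (b (b (l 16675824) (l 524304655)) (a (l 524189199) (l 524373263))) (b (a (l 523812367) (l 523998991)) (a (l 523449871) (l 523639311))))) (b (a (b (a (l 524939279) (l 525110031)) (a (l 524551951) (l 524456719))) (a (b (l 525275151) (l 524624143)) (b (l 525166351) (l 524785935)))) (a (b (a (l 524180239) (l 524355855)) (a (b (l 523911183) (l 523736335)) (b (l 524088847) (l 523915279)))) (b (a (l 524525839) (l 524421647)) (a (b (l 524260879) (l 524088847)) (b (l 524427023) (l 524256271))))))), by decide +kernel⟩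

def k44_A00mm_202_s3 : ∃ t, chk3 f_A00mm_202_s3 t 118 37 1 = true :=
  ⟨(b (a (a (b (l 525320463) (l 524942095)) (b (l 525468687) (l 525092623))) (a (b (a (l 525844751) (l 525914639)) (a (l 525470223) (l 525541135))) (b (a (l 525982991) (l 526050063)) (a (l 525610511) (l 525678351))))) (a (b (a (b (a (l 524898831) (l 524976399)) (l 524760591)) (b (a (l 525052431) (l 525127183)) (a (l 524876559) (l 524951567)))) (a (b (a (l 524548111) (l 524626959)) (l 524418063)) (b (a (l 524704271) (l 524780047)) (l 524574223)))) (b (b (a (a (l 525200399) (l 525272079)) (a (l 525342223) (l 525411087))) (a (a (b (l 525068815) (l 524982287)) (b (l 525141007) (l 525054735))) (a (l 525168655) (a (l 525220879) (l 525254927))))) (b (a (b (a (l 524897039) (l 524969743)) (a (l 524812559) (l 524885519))) (b (a (a (l 525023247) (l 525058575)) (a (l 525093391) (l 525127951))) (b (a (l 524977935) (b (l 525058319) (l 525037583))) (a (l 524936207) (l 525006351)))))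 (a (a (l 524687631) (l 524761103)) (a (l 524833295) (l 524903695))))))), by decide +kernel⟩

def k45_A00mm_202_s3 : ∃ t, chk3 f_A00mm_202_s3 t 119 37 1 = true :=
  ⟨(b (a (a (b (a (l 525847055) (l 526179343)) (a (l 525476367) (l 525541391))) (b (a (l 525973519) (l 526034447)) (a (l 525604879) (l 525666831)))) (b (a (a (l 526093839) (b (l 526514703) (l 526327311))) (b (a (l 526570767) (b (l 526672911) (l 526578447))) (a (l 526383887) (l 526439183)))) (a (a (l 525727247) (c (l 525806863) (l 525765647))) (a (a (l 525829391) (l 525857807)) (a (l 525885711) (b (l 526270991) (l 4))))))) (a (b (a (a (a (a (l 525366287) (l 525383183)) (l 525408271)) (b (l 525543951) (l 525372175))) (a (b (l 525608207) (l 525436943)) (b (l 525670927) (l 525500175)))) (b (a (a (b (a (a (l 525153551) (l 525170703)) (l 525195791)) (a (b (a (b (l 525101583) (l 525080591)) (a (a (l 525101839) (l 525105935)) (l 525112335))) (a (l 525049615) (a (l 525062415) (l 4))))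 (b (l 525133583) (l 4)))) (b (l 525245711) (l 4))) (l 4)) (l 4))) (b (a (a (b (l 525732367) (l 4)) (l 4)) (l 4)) (l 4)))), by decide +kernel⟩

def k46_A00mm_202_s3 : ∃ t, chk3 f_A00mm_202_s3 t 15 37 1 = true :=
  ⟨(a (a (a (a (b (b (a (b (a (b (a (l 526713103) (l 526739215)) (l 526631951)) (b (b (a (l 526788623) (l 526813967)) (l 526754063)) (l 526683663))) (a (a (l 526479631) (l 526505999)) (a (l 526532111) (l 4)))) (a (b (a (b (b (a (b (l 526844687) (l 526820879)) (b (c (l 526875151) (l 526839055)) (l 526833423))) (l 526791695)) (l 526721551)) (b (b (a (b (a (a (l 526864655) (l 526867727)) (l 526872335)) (a (c (l 526860815) (l 526824463)) (b (l 526854671) (l 4)))) (b (l 526881551) (l 4))) (l 4)) (l 4))) (l 4)) (l 4))) (l 4)) (l 4)) (l 4)) (l 4)) (l 4)) (l 4)), by decide +kernel⟩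

def k47_A00mm_202_s3 : ∃ t, chk3 f_A00mm_202_s3 t 28 19 1 = true :=
  ⟨(a (b (b (a (b (l 16550400) (a (l 16541272) (l 16563072))) (a (b (l 16572232) (l 16584480)) (b (l 16593432) (l 16605672)))) (a (a (b (l 16554192) (l 16567320)) (b (l 16576064) (l 16589496))) (a (b (l 16597592) (l 16611240)) (b (b (l 16615400) (l 16622160)) (l 520973839))))) (b (a (a (b (l 16580552) (l 16593768)) (b (l 16602984) (l 16616440))) (a (b (l 16635472) (l 520279823)) (b (l 520745487) (l 520454159)))) (a (a (l 519385103) (l 519555599)) (a (l 519727887) (l 519902223))))) (b (a (b (a (b (l 16614336) (b (l 16623440) (l 16629768))) (a (b (l 16629832) (l 16642080)) (b (l 16640072) (l 16652320)))) (a (b (b (l 16636296) (l 16643016)) (b (l 16649944) (l 16662240))) (b (b (l 16656904) (l 16668848)) (a (l 521219343) (l 521293327))))) (b (a (a (b (l 16655472) (l 16667728)) (b (l 16665568) (l 522006543))) (a (b (l 522445071) (l 522122767)) (b (l 522581519) (l 522252047))))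 (a (a (b (l 521619215) (b (l 16685728) (l 16692768))) (b (b (l 16682264) (l 16688944)) (b (l 16695800) (l 521397519)))) (a (b (b (l 16692280) (l 16698952)) (b (l 16708424) (l 521486095))) (b (b (l 16702224) (l 521867023)) (a (l 521626127) (l 521682447))))))) (b (a (b (a (b (l 16669384) (l 16676520)) (a (l 521024271) (l 521099791))) (a (b (l 520709135) (l 520544783)) (b (l 520882447) (l 520723727)))) (b (a (b (a (l 521216527) (l 521289487)) (a (l 521124367) (l 521197583))) (a (b (l 521369359) (l 521268495)) (b (a (l 521435407) (l 521483791)) (a (l 521324815) (l 521366543))))) (a (b (a (l 521011471) (l 521095439)) (a (l 520859663) (l 520950543))) (b (a (l 521176847) (b (l 521273871) (l 521229327))) (a (l 521041423) (l 521132047)))))) (a (a (l 520346895) (a (l 520212239) (l 520302095))) (a (a (l 520392207) (l 520482831)) (a (l 520573967) (l 520665871))))))), by decide +kernel⟩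

def k48_A00mm_202_s3 : ∃ t, chk3 f_A00mm_202_s3 t 58 38 1 = true :=
  ⟨(a (a (b (a (a (l 522256399) (l 522336271)) (a (l 522422031) (l 522515215))) (a (b (a (l 522042383) (l 522117135)) (a (l 521743887) (l 521811983))) (a (b (l 522199567) (l 521889551)) (b (l 522291983) (l 521979663))))) (b (b (a (l 523101199) (l 523293711)) (a (l 522766095) (l 522961935))) (b (a (l 522443791) (l 522642959)) (a (l 522133775) (l 522336527))))) (a (b (a (b (l 523480591) (a (l 523105039) (l 523198735))) (b (l 523661839) (a (l 523290895) (l 523381775)))) (b (a (b (l 522914063) (l 522759695)) (b (l 523100943) (l 522948111))) (a (l 522533647) (l 522724879)))) (b (a (b (a (l 523794191) (l 523880719)) (a (l 523470863) (l 523558927))) (a (l 523535119) (l 523619343))) (a (b (b (a (l 523237391) (l 523326735)) (a (l 523086095) (l 523175951))) (a (l 522864655) (l 4))) (b (b (l 523457295) (a (b (l 523301647) (l 4)) (l 4))) (l 4)))))), by decide +kernel⟩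

def k49_A00mm_202_s3 : ∃ t, chk3 f_A00mm_202_s3 t 58 39 1 = true :=
  ⟨(a (b (a (a (b (a (b (l 521537295) (l 521412367)) (b (l 521597199) (l 521464335))) (b (a (b (l 521329935) (l 521284879)) (b (l 521373967) (l 521321743))) (b (l 521257487) (l 521182223)))) (b (a (a (l 521578255) (l 521614863)) (a (l 521656335) (l 521704207))) (a (b (a (l 521650447) (b (l 521442063) (l 521378831))) (b (b (l 521326351) (l 521304847)) (l 521248527))) (a (b (b (l 521477647) (l 521409295)) (b (b (l 521361167) (a (l 521327375) (l 521338383))) (b (b (l 521315855) (l 521299471)) (l 521264399)))) (b (l 521486607) (b (a (a (l 521365007) (l 521374479)) (l 521392655)) (b (a (b (a (l 521327631) (l 521330959)) (l 521330447)) (a (l 521333519) (l 521346063))) (a (l 521281807) (a (l 521290767) (l 4)))))))))) (b (a (l 521835791) (l 522042127)) (b (a (l 521619471) (l 521828879)) (a (b (l 521513743) (b (l 521460495) (l 4))) (l 4))))) (a (a (l 520758031) (a (l 520827663)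 (a (l 520862735) (l 4)))) (l 4))) (b (a (b (a (l 522243087) (l 4)) (l 4)) (l 4)) (l 4))), by decide +kernel⟩

def k50_A00mm_202_s3 : ∃ t, chk3 f_A00mm_202_s3 t 59 19 1 = true :=
  ⟨(a (b (a (b (a (a (b (l 524131087) (l 523813647)) (b (l 524211471) (l 523895823))) (a (b (l 524290575) (l 523976207)) (b (l 524368143) (l 524055311)))) (b (a (b (l 523895055) (l 4)) (l 4)) (l 4))) (b (b (a (a (l 524444175) (b (l 524598543) (l 4))) (a (b (l 524671247) (l 4)) (l 4))) (l 4)) (l 4))) (l 4)) (l 4)), by decide +kernel⟩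

def k51_A00mm_202_s3 : ∃ t, chk3 f_A00mm_202_s3 t 15 19 1 = true :=
  ⟨(l 4), by decide +kernel⟩

def k52_A00mm_202_s3 : ∃ t, chk3 f_A00mm_202_s3 t 6 5 1 = true :=
  ⟨(a (b (a (b (b (a (l 15764368) (l 15939928)) (a (l 15807472) (b (l 15931864) (l 15958424)))) (a (a (l 510635791) (l 510862863)) (a (l 511095311) (l 511332367)))) (b (a (b (l 514706191) (l 513357327)) (b (b (l 16140408) (l 16164360)) (l 513878031))) (a (a (l 511575055) (l 511822607)) (b (l 512571407) (a (l 511458063) (l 511714063)))))) (a (b (a (a (l 508023823) (l 508242959)) (a (l 508466703) (l 508695055))) (a (b (l 506786831) (l 505778447)) (b (l 507220239) (l 506738959)))) (b (a (a (l 508928015) (l 509165583)) (a (l 509408271) (l 509656079))) (a (b (a (l 507556367) (l 507786255)) (a (l 506530575) (l 506754831))) (b (a (l 508020495) (l 508259599)) (a (l 506983439) (l 507216399))))))) (b (a (b (a (b (a (l 515918095) (l 516201743)) (a (l 514552591) (l 514831119))) (b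 (a (l 516492047) (l 516520207)) (a (l 515115535) (l 515406351)))) (a (b (l 513104911) (l 511839247)) (b (a (l 513789711) (l 514074639)) (a (l 512515343) (l 512793871))))) (b (a (b (a (l 516823567) (l 517133839)) (a (l 515435279) (l 515739151))) (b (a (a (l 517639951) (l 517800463)) (a (l 517962767) (l 517858319))) (a (b (l 516664335) (l 515976463)) (a (l 516556559) (l 516448783))))) (a (a (b (l 514365711) (l 513078799)) (b (l 514931727) (l 513369615))) (a (b (l 514698767) (l 513666575)) (b (a (l 515200271) (l 515357455)) (l 4)))))) (a (b (a (a (l 510177295) (l 510435343)) (a (l 510699023) (b (l 511565071) (l 510388751)))) (a (a (l 507700751) (l 507946511)) (l 4))) (a (b (b (a (l 511843343) (l 512127247)) (l 4)) (l 4)) (l 4))))), by decide +kernel⟩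

def k53_A00mm_202_s3 : ∃ t, chk3 f_A00mm_202_s3 t 7 5 1 = true :=
  ⟨(b (a (a (a (b (a (b (a (l 518024207) (b (l 518822671) (l 518102287))) (a (l 516879631) (l 517043727))) (b (a (b (l 518993423) (l 518270991)) (b (l 519165711) (l 518441487))) (a (l 516941327) (l 517109263)))) (a (b (a (l 515784719) (l 4)) (l 4)) (l 4))) (b (a (b (a (a (l 518663695) (l 518750991)) (a (l 518838543) (b (l 519561487) (l 518833167)))) (a (l 517278991) (l 4))) (b (b (a (a (l 519650575) (l 519740431)) (a (l 519830543) (l 4))) (l 4)) (l 4))) (l 4))) (l 4)) (l 4)) (l 4)), by decide +kernel⟩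

def k54_A00mm_202_s3 : ∃ t, chk3 f_A00mm_202_s3 t 4 6 1 = true :=
  ⟨(b (a (b (l 6) (a (l 6) (b (l 6) (a (l 6) (l 14404600))))) (b (a (b (l 6) (a (l 6) (l 14571448))) (b (a (l 14660104) (l 14852192)) (a (l 14768760) (l 14962872)))) (a (b (a (l 14486272) (l 14688632)) (a (l 14611848) (l 14815720))) (b (a (l 14887712) (l 15083448)) (a (l 15016168) (l 15213136)))))) (b (a (a (b (l 6) (a (l 6) (l 14251776))) (b (a (l 14326440) (l 14538448)) (a (l 14468440) (l 14681440)))) (a (b (a (l 14746952) (l 14951928)) (a (l 14890768) (l 15096424))) (b (c (l 498605327) (l 498386959)) (a (l 15382264) (l 498047247))))) (b (b (a (a (l 14252600) (l 14770992)) (a (l 496902671) (l 497493775))) (a (l 2) (a (l 2) (l 497243151)))) (l 2)))), by decide +kernel⟩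

def k55_A00mm_202_s3 : ∃ t, chk3 f_A00mm_202_s3 t 5 6 1 = true :=
  ⟨(b (a (b (a (b (a (l 15041128) (l 15226800)) (a (l 15153688) (l 15341120))) (b (b (l 503014159) (l 502571791)) (a (l 15525080) (l 502101007)))) (a (b (b (l 500688655) (l 500309775)) (a (l 15406568) (l 499923983))) (b (a (l 500973839) (l 501303567)) (a (l 500241679) (l 500566543))))) (a (b (a (b (l 503307791) (l 502445327)) (b (l 503668751) (l 502799631))) (a (b (l 501641999) (l 500898831)) (b (l 501989647) (l 501239311)))) (b (a (b (l 504041743) (l 503165199)) (b (l 504427535) (l 503542287))) (a (b (l 502347279) (l 501588751)) (b (l 502715407) (l 501947663)))))) (a (b (a (b (a (l 498949135) (l 499257615)) (a (l 498348559) (l 498653711))) (b (a (l 499571215) (l 499890703)) (a (l 498962959) (l 499276815)))) (b (a (a (l 497811983) (l 498113295)) (a (l 498417679) (l 498725647))) (b (a (l 497602831) (l 498203919)) (l 2)))) (a (b (a (b (l 500216591) (l 499595791)) (b (l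 500549647) (l 499920911))) (a (b (l 499037455) (l 498541839)) (b (l 499354127) (l 498849807)))) (b (a (b (l 500890127) (l 500252431)) (b (l 501239567) (l 4))) (a (b (l 499676431) (l 4)) (l 4)))))), by decide +kernel⟩

def k56_A00mm_202_s3 : ∃ t, chk3 f_A00mm_202_s3 t 2 7 1 = true :=
  ⟨(a (l 2) (a (l 2) (a (l 2) (l 4)))), by decide +kernel⟩

def k57_A00mm_202_s3 : ∃ t, chk3 f_A00mm_202_s3 t 3 3 1 = true :=
  ⟨(a (b (a (b (a (b (a (b (l 504826639) (l 503931919)) (b (l 505240079) (l 504334863))) (a (b (l 503095311) (l 502317071)) (b (l 503487247) (l 4)))) (b (a (b (a (l 505560591) (l 505778959)) (a (l 504646927) (l 4))) (b (a (l 506001423) (l 4)) (l 4))) (l 4))) (l 4)) (l 4)) (l 4)) (l 4)), by decide +kernel⟩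

theorem t58_A00mm_202_s3 : ∃ t, chk3 f_A00mm_202_s3 t 2 6 1 = true := ex3_a k54_A00mm_202_s3 k55_A00mm_202_s3

theorem t59_A00mm_202_s3 : ∃ t, chk3 f_A00mm_202_s3 t 2 3 1 = true := ex3_b t58_A00mm_202_s3 k56_A00mm_202_s3

theorem t60_A00mm_202_s3 : ∃ t, chk3 f_A00mm_202_s3 t 1 3 1 = true := ex3_a t59_A00mm_202_s3 k57_A00mm_202_s3

theorem t61_A00mm_202_s3 : ∃ t, chk3 f_A00mm_202_s3 t 3 5 1 = true := ex3_a k52_A00mm_202_s3 k53_A00mm_202_s3

theorem t62_A00mm_202_s3 : ∃ t, chk3 f_A00mm_202_s3 t 58 19 1 = true := ex3_b k48_A00mm_202_s3 k49_A00mm_202_s3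

theorem t63_A00mm_202_s3 : ∃ t, chk3 f_A00mm_202_s3 t 29 19 1 = true := ex3_a t62_A00mm_202_s3 k50_A00mm_202_s3

theorem t64_A00mm_202_s3 : ∃ t, chk3 f_A00mm_202_s3 t 14 19 1 = true := ex3_a k47_A00mm_202_s3 t63_A00mm_202_s3

theorem t65_A00mm_202_s3 : ∃ t, chk3 f_A00mm_202_s3 t 7 19 1 = true := ex3_a t64_A00mm_202_s3 k51_A00mm_202_s3

theorem t66_A00mm_202_s3 : ∃ t, chk3 f_A00mm_202_s3 t 59 37 1 = true := ex3_a k44_A00mm_202_s3 k45_A00mm_202_s3

theorem t67_A00mm_202_s3 : ∃ t, chk3 f_A00mm_202_s3 t 29 37 1 = true := ex3_a k43_A00mm_202_s3 t66_A00mm_202_s3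

theorem t68_A00mm_202_s3 : ∃ t, chk3 f_A00mm_202_s3 t 14 37 1 = true := ex3_a k42_A00mm_202_s3 t67_A00mm_202_s3

theorem t69_A00mm_202_s3 : ∃ t, chk3 f_A00mm_202_s3 t 7 37 1 = true := ex3_a t68_A00mm_202_s3 k46_A00mm_202_s3

theorem t70_A00mm_202_s3 : ∃ t, chk3 f_A00mm_202_s3 t 242 72 1 = true := ex3_b k36_A00mm_202_s3 k37_A00mm_202_s3

theorem t71_A00mm_202_s3 : ∃ t, chk3 f_A00mm_202_s3 t 121 72 1 = true := ex3_a t70_A00mm_202_s3 k38_A00mm_202_s3

theorem t72_A00mm_202_s3 : ∃ t, chk3 f_A00mm_202_s3 t 121 36 1 = true := ex3_b t71_A00mm_202_s3 k39_A00mm_202_s3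

theorem t73_A00mm_202_s3 : ∃ t, chk3 f_A00mm_202_s3 t 120 36 1 = true := ex3_b k34_A00mm_202_s3 k35_A00mm_202_s3

theorem t74_A00mm_202_s3 : ∃ t, chk3 f_A00mm_202_s3 t 60 36 1 = true := ex3_a t73_A00mm_202_s3 t72_A00mm_202_s3

theorem t75_A00mm_202_s3 : ∃ t, chk3 f_A00mm_202_s3 t 30 36 1 = true := ex3_a t74_A00mm_202_s3 k40_A00mm_202_s3

theorem t76_A00mm_202_s3 : ∃ t, chk3 f_A00mm_202_s3 t 15 36 1 = true := ex3_a t75_A00mm_202_s3 k41_A00mm_202_s3

theorem t77_A00mm_202_s3 : ∃ t, chk3 f_A00mm_202_s3 t 14 36 1 = true := ex3_a k32_A00mm_202_s3 k33_A00mm_202_s3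

theorem t78_A00mm_202_s3 : ∃ t, chk3 f_A00mm_202_s3 t 7 36 1 = true := ex3_a t77_A00mm_202_s3 t76_A00mm_202_s3

theorem t79_A00mm_202_s3 : ∃ t, chk3 f_A00mm_202_s3 t 7 18 1 = true := ex3_b t78_A00mm_202_s3 t69_A00mm_202_s3

theorem t80_A00mm_202_s3 : ∃ t, chk3 f_A00mm_202_s3 t 7 9 1 = true := ex3_b t79_A00mm_202_s3 t65_A00mm_202_s3

theorem t81_A00mm_202_s3 : ∃ t, chk3 f_A00mm_202_s3 t 60 35 1 = true := ex3_a k28_A00mm_202_s3 k29_A00mm_202_s3

theorem t82_A00mm_202_s3 : ∃ t, chk3 f_A00mm_202_s3 t 30 35 1 = true := ex3_a t81_A00mm_202_s3 k30_A00mm_202_s3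

theorem t83_A00mm_202_s3 : ∃ t, chk3 f_A00mm_202_s3 t 15 35 1 = true := ex3_a t82_A00mm_202_s3 k31_A00mm_202_s3

theorem t84_A00mm_202_s3 : ∃ t, chk3 f_A00mm_202_s3 t 7 35 1 = true := ex3_a k27_A00mm_202_s3 t83_A00mm_202_s3

theorem t85_A00mm_202_s3 : ∃ t, chk3 f_A00mm_202_s3 t 30 34 1 = true := ex3_a k24_A00mm_202_s3 k25_A00mm_202_s3

theorem t86_A00mm_202_s3 : ∃ t, chk3 f_A00mm_202_s3 t 15 34 1 = true := ex3_a t85_A00mm_202_s3 k26_A00mm_202_s3

theorem t87_A00mm_202_s3 : ∃ t, chk3 f_A00mm_202_s3 t 7 34 1 = true := ex3_a k23_A00mm_202_s3 t86_A00mm_202_s3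

theorem t88_A00mm_202_s3 : ∃ t, chk3 f_A00mm_202_s3 t 7 17 1 = true := ex3_b t87_A00mm_202_s3 t84_A00mm_202_s3

theorem t89_A00mm_202_s3 : ∃ t, chk3 f_A00mm_202_s3 t 62 66 1 = true := ex3_b k19_A00mm_202_s3 k20_A00mm_202_s3

theorem t90_A00mm_202_s3 : ∃ t, chk3 f_A00mm_202_s3 t 31 66 1 = true := ex3_a t89_A00mm_202_s3 k21_A00mm_202_s3

theorem t91_A00mm_202_s3 : ∃ t, chk3 f_A00mm_202_s3 t 31 33 1 = true := ex3_b t90_A00mm_202_s3 k22_A00mm_202_s3

theorem t92_A00mm_202_s3 : ∃ t, chk3 f_A00mm_202_s3 t 61 33 1 = true := ex3_a k17_A00mm_202_s3 k18_A00mm_202_s3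

theorem t93_A00mm_202_s3 : ∃ t, chk3 f_A00mm_202_s3 t 30 33 1 = true := ex3_a k16_A00mm_202_s3 t92_A00mm_202_s3

theorem t94_A00mm_202_s3 : ∃ t, chk3 f_A00mm_202_s3 t 15 33 1 = true := ex3_a t93_A00mm_202_s3 t91_A00mm_202_s3

theorem t95_A00mm_202_s3 : ∃ t, chk3 f_A00mm_202_s3 t 7 33 1 = true := ex3_a k15_A00mm_202_s3 t94_A00mm_202_s3

theorem t96_A00mm_202_s3 : ∃ t, chk3 f_A00mm_202_s3 t 62 32 1 = true := ex3_a k12_A00mm_202_s3 k13_A00mm_202_s3

theorem t97_A00mm_202_s3 : ∃ t, chk3 f_A00mm_202_s3 t 31 32 1 = true := ex3_a t96_A00mm_202_s3 k14_A00mm_202_s3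

theorem t98_A00mm_202_s3 : ∃ t, chk3 f_A00mm_202_s3 t 61 32 1 = true := ex3_a k10_A00mm_202_s3 k11_A00mm_202_s3

theorem t99_A00mm_202_s3 : ∃ t, chk3 f_A00mm_202_s3 t 242 64 1 = true := ex3_b k6_A00mm_202_s3 k7_A00mm_202_s3

theorem t100_A00mm_202_s3 : ∃ t, chk3 f_A00mm_202_s3 t 242 32 1 = true := ex3_b t99_A00mm_202_s3 k8_A00mm_202_s3

theorem t101_A00mm_202_s3 : ∃ t, chk3 f_A00mm_202_s3 t 121 32 1 = true := ex3_a t100_A00mm_202_s3 k9_A00mm_202_s3

theorem t102_A00mm_202_s3 : ∃ t, chk3 f_A00mm_202_s3 t 120 32 1 = true := ex3_a k4_A00mm_202_s3 k5_A00mm_202_s3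

theorem t103_A00mm_202_s3 : ∃ t, chk3 f_A00mm_202_s3 t 60 32 1 = true := ex3_a t102_A00mm_202_s3 t101_A00mm_202_s3

theorem t104_A00mm_202_s3 : ∃ t, chk3 f_A00mm_202_s3 t 30 32 1 = true := ex3_a t103_A00mm_202_s3 t98_A00mm_202_s3

theorem t105_A00mm_202_s3 : ∃ t, chk3 f_A00mm_202_s3 t 15 32 1 = true := ex3_a t104_A00mm_202_s3 t97_A00mm_202_s3

theorem t106_A00mm_202_s3 : ∃ t, chk3 f_A00mm_202_s3 t 7 32 1 = true := ex3_a k3_A00mm_202_s3 t105_A00mm_202_s3

theorem t107_A00mm_202_s3 : ∃ t, chk3 f_A00mm_202_s3 t 7 16 1 = true := ex3_b t106_A00mm_202_s3 t95_A00mm_202_s3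

theorem t108_A00mm_202_s3 : ∃ t, chk3 f_A00mm_202_s3 t 7 8 1 = true := ex3_b t107_A00mm_202_s3 t88_A00mm_202_s3

theorem t109_A00mm_202_s3 : ∃ t, chk3 f_A00mm_202_s3 t 7 4 1 = true := ex3_b t108_A00mm_202_s3 t80_A00mm_202_s3

theorem t110_A00mm_202_s3 : ∃ t, chk3 f_A00mm_202_s3 t 6 4 1 = true := ex3_b k1_A00mm_202_s3 k2_A00mm_202_s3

theorem t111_A00mm_202_s3 : ∃ t, chk3 f_A00mm_202_s3 t 3 4 1 = true := ex3_a t110_A00mm_202_s3 t109_A00mm_202_s3

theorem t112_A00mm_202_s3 : ∃ t, chk3 f_A00mm_202_s3 t 3 2 1 = true := ex3_b t111_A00mm_202_s3 t61_A00mm_202_s3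

theorem t113_A00mm_202_s3 : ∃ t, chk3 f_A00mm_202_s3 t 1 2 1 = true := ex3_a k0_A00mm_202_s3 t112_A00mm_202_s3

theorem t114_A00mm_202_s3 : ∃ t, chk3 f_A00mm_202_s3 t 1 1 1 = true := ex3_b t113_A00mm_202_s3 t60_A00mm_202_s3

theorem c_A00mm_202_s3 : CertF 0 536870912 0 536870912 1040187392 5207648 true false false .pp 2 0 2
    ndB0q2 ndB0q0 pcB2 cut_A00mm_202_s3 xt_A00mm_202_s3 :=
  certF0 (fam := true) (s1 := false) (s2 := false) (a := 2) (b := 0) (c := 2) (cn := .pp) (n1 := ndB0q2) (n2 := ndB0q0) (pc := pcB2) (cut := cut_A00mm_202_s3) (xt := xt_A00mm_202_s3) (P1 := 0) (W1 := 536870912) (P2 := 0) (W2 := 536870912) (P3 := 1040187392) (W3 := 5207648)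
    rfl t114_A00mm_202_s3

theorem s_A00mm_202_s3 {κ x : ℝ} (hκ : κ * h0 = ken x) (hx : ((1040187392 : ℕ) : ℝ) / S ≤ x)
    (hx' : x ≤ (((1040187392 : ℕ) : ℝ) + (5207648 : ℕ)) / S)
    (H : CutA (VFD κ) PP tK tL pcB (Cut.of [[⟨0, 1, 0, 22369621⟩, ⟨1, 0, 0, 22369621⟩, ⟨2, 1, 0, 22369621⟩]]) 2 0 2 0 0 (sgb false) (sgb false) x) :
    AltA (VFD κ) PP tK tL pcB [⟨4, 0, 0, 2845415833⟩] 2 0 2 0 0 (sgb false) (sgb false) x :=
  strip_altAD (m := 2845415833) false rfl hκ (SH.κ0 hκ (SH.hx1 hx).le (SH.hx2 hx').le) (SH.hx1 hx).le (SH.hx2 hx') (covB02).cov (covB00).cov hx hx' c_A00mm_202_s3 H ((okx hx hx').extA (T := tt) (sideB hx hx') hκ rfl rfl (.O 2 false) (.O 0 false) (Or.inl rfl))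

noncomputable def cut_A00pp_001_s1 : Cut := Cut.of [[⟨4, 0, 0, 1449551462⟩]]

noncomputable def f_A00pp_001_s1 : ℕ → ℕ → ℕ → ℕ → Bool := onCell 0 536870912 0 536870912 1040187392 5207648
    (rowF 0 true true true .up 0 0 1 (qsf 0 536870912 0 536870912 1) ndB0q0 ndB0q0 pcB1 cut_A00pp_001_s1 Ext.none)

def k0_A00pp_001_s1 : ∃ t, chk3 f_A00pp_001_s1 t 1 1 1 = true :=
  ⟨(l 4), by decide +kernel⟩

theorem c_A00pp_001_s1 : CertF 0 536870912 0 536870912 1040187392 5207648 true true true .up 0 0 1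
    ndB0q0 ndB0q0 pcB1 cut_A00pp_001_s1 Ext.none :=
  certF0 (fam := true) (s1 := true) (s2 := true) (a := 0) (b := 0) (c := 1) (cn := .up) (n1 := ndB0q0) (n2 := ndB0q0) (pc := pcB1) (cut := cut_A00pp_001_s1) (xt := Ext.none) (P1 := 0) (W1 := 536870912) (P2 := 0) (W2 := 536870912) (P3 := 1040187392) (W3 := 5207648)
    rfl k0_A00pp_001_s1

theorem s_A00pp_001_s1 {κ x : ℝ} (hκ : κ * h0 = ken x) (hx : ((1040187392 : ℕ) : ℝ) / S ≤ x)
    (hx' : x ≤ (((1040187392 : ℕ) : ℝ) + (5207648 : ℕ)) / S) :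
    AltA (VFD κ) PP tK tL pcB [⟨3, 0, 0, 1449551462⟩] 0 0 1 0 0 (sgb true) (sgb true) x :=
  strip_altAD (m := 1449551462) true rfl hκ (SH.κ0 hκ (SH.hx1 hx).le (SH.hx2 hx').le) (SH.hx1 hx).le (SH.hx2 hx') (covB00).cov (covB00).cov hx hx' c_A00pp_001_s1 cutA_nil (noExt_A)

noncomputable def cut_A00pp_001_s3 : Cut := Cut.of [[⟨3, 0, 0, 2845415833⟩]]

noncomputable def f_A00pp_001_s3 : ℕ → ℕ → ℕ → ℕ → Bool := onCell 0 536870912 0 536870912 1040187392 5207648
    (rowF 0 true true true .up 0 0 1 (qsf 0 536870912 0 536870912 1) ndB0q0 ndB0q0 pcB1 cut_A00pp_001_s3 Ext.none)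

def k0_A00pp_001_s3 : ∃ t, chk3 f_A00pp_001_s3 t 1 1 1 = true :=
  ⟨(l 4), by decide +kernel⟩

theorem c_A00pp_001_s3 : CertF 0 536870912 0 536870912 1040187392 5207648 true true true .up 0 0 1
    ndB0q0 ndB0q0 pcB1 cut_A00pp_001_s3 Ext.none :=
  certF0 (fam := true) (s1 := true) (s2 := true) (a := 0) (b := 0) (c := 1) (cn := .up) (n1 := ndB0q0) (n2 := ndB0q0) (pc := pcB1) (cut := cut_A00pp_001_s3) (xt := Ext.none) (P1 := 0) (W1 := 536870912) (P2 := 0) (W2 := 536870912) (P3 := 1040187392) (W3 := 5207648)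
    rfl k0_A00pp_001_s3

theorem s_A00pp_001_s3 {κ x : ℝ} (hκ : κ * h0 = ken x) (hx : ((1040187392 : ℕ) : ℝ) / S ≤ x)
    (hx' : x ≤ (((1040187392 : ℕ) : ℝ) + (5207648 : ℕ)) / S) :
    AltA (VFD κ) PP tK tL pcB [⟨4, 0, 0, 2845415833⟩] 0 0 1 0 0 (sgb true) (sgb true) x :=
  strip_altAD (m := 2845415833) false rfl hκ (SH.κ0 hκ (SH.hx1 hx).le (SH.hx2 hx').le) (SH.hx1 hx).le (SH.hx2 hx') (covB00).cov (covB00).cov hx hx' c_A00pp_001_s3 cutA_nil (noExt_A)

noncomputable def cut_A00pp_011_s1 : Cut := Cut.of [[⟨4, 0, 0, 1449551462⟩], [⟨0, 0, 0, 26843545⟩, ⟨1, 1, 0, 26843545⟩, ⟨2, 1, 0, 26843545⟩]]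

noncomputable def f_A00pp_011_s1 : ℕ → ℕ → ℕ → ℕ → Bool := onCell 0 536870912 536870912 536870912 1040187392 5207648
    (rowF 0 true true true .pnn 0 1 1 (qsf 0 536870912 536870912 536870912 1) ndB0q0 ndB0q1 pcB1 cut_A00pp_011_s1 Ext.none)

def k0_A00pp_011_s1 : ∃ t, chk3 f_A00pp_011_s1 t 1 1 1 = true :=
  ⟨(l 6), by decide +kernel⟩

theorem c_A00pp_011_s1 : CertF 0 536870912 536870912 536870912 1040187392 5207648 true true true .pnn 0 1 1
    ndB0q0 ndB0q1 pcB1 cut_A00pp_011_s1 Ext.none :=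
  certF0 (fam := true) (s1 := true) (s2 := true) (a := 0) (b := 1) (c := 1) (cn := .pnn) (n1 := ndB0q0) (n2 := ndB0q1) (pc := pcB1) (cut := cut_A00pp_011_s1) (xt := Ext.none) (P1 := 0) (W1 := 536870912) (P2 := 536870912) (W2 := 536870912) (P3 := 1040187392) (W3 := 5207648)
    rfl k0_A00pp_011_s1

theorem s_A00pp_011_s1 {κ x : ℝ} (hκ : κ * h0 = ken x) (hx : ((1040187392 : ℕ) : ℝ) / S ≤ x)
    (hx' : x ≤ (((1040187392 : ℕ) : ℝ) + (5207648 : ℕ)) / S)
    (H : CutA (VFD κ) PP tK tL pcB (Cut.of [[⟨0, 0, 0, 26843545⟩, ⟨1, 1, 0, 26843545⟩, ⟨2, 1, 0, 26843545⟩]]) 0 1 1 0 0 (sgb true) (sgb true) x) :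
    AltA (VFD κ) PP tK tL pcB [⟨3, 0, 0, 1449551462⟩] 0 1 1 0 0 (sgb true) (sgb true) x :=
  strip_altAD (m := 1449551462) true rfl hκ (SH.κ0 hκ (SH.hx1 hx).le (SH.hx2 hx').le) (SH.hx1 hx).le (SH.hx2 hx') (covB00).cov (covB01).cov hx hx' c_A00pp_011_s1 H (noExt_A)

noncomputable def cut_A00pp_011_s3 : Cut := Cut.of [[⟨3, 0, 0, 2845415833⟩], [⟨0, 0, 0, 26843545⟩, ⟨1, 1, 0, 26843545⟩, ⟨2, 1, 0, 26843545⟩]]

noncomputable def f_A00pp_011_s3 : ℕ → ℕ → ℕ → ℕ → Bool := onCell 0 536870912 536870912 536870912 1040187392 5207648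
    (rowF 0 true true true .pnn 0 1 1 (qsf 0 536870912 536870912 536870912 1) ndB0q0 ndB0q1 pcB1 cut_A00pp_011_s3 Ext.none)

def k0_A00pp_011_s3 : ∃ t, chk3 f_A00pp_011_s3 t 1 1 1 = true :=
  ⟨(b (l 4) (a (b (l 4) (a (b (l 4) (a (b (l 4) (a (b (l 4) (a (l 14) (l 4))) (l 4))) (l 4))) (l 4))) (l 4))), by decide +kernel⟩

theorem c_A00pp_011_s3 : CertF 0 536870912 536870912 536870912 1040187392 5207648 true true true .pnn 0 1 1
    ndB0q0 ndB0q1 pcB1 cut_A00pp_011_s3 Ext.none :=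
  certF0 (fam := true) (s1 := true) (s2 := true) (a := 0) (b := 1) (c := 1) (cn := .pnn) (n1 := ndB0q0) (n2 := ndB0q1) (pc := pcB1) (cut := cut_A00pp_011_s3) (xt := Ext.none) (P1 := 0) (W1 := 536870912) (P2 := 536870912) (W2 := 536870912) (P3 := 1040187392) (W3 := 5207648)
    rfl k0_A00pp_011_s3

theorem s_A00pp_011_s3 {κ x : ℝ} (hκ : κ * h0 = ken x) (hx : ((1040187392 : ℕ) : ℝ) / S ≤ x)
    (hx' : x ≤ (((1040187392 : ℕ) : ℝ) + (5207648 : ℕ)) / S)
    (H : CutA (VFD κ) PP tK tL pcB (Cut.of [[⟨0, 0, 0, 26843545⟩, ⟨1, 1, 0, 26843545⟩, ⟨2, 1, 0, 26843545⟩]]) 0 1 1 0 0 (sgb true) (sgb true) x) :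
    AltA (VFD κ) PP tK tL pcB [⟨4, 0, 0, 2845415833⟩] 0 1 1 0 0 (sgb true) (sgb true) x :=
  strip_altAD (m := 2845415833) false rfl hκ (SH.κ0 hκ (SH.hx1 hx).le (SH.hx2 hx').le) (SH.hx1 hx).le (SH.hx2 hx') (covB00).cov (covB01).cov hx hx' c_A00pp_011_s3 H (noExt_A)

noncomputable def cut_A00pp_012_s1 : Cut := Cut.of [[⟨4, 0, 0, 1449551462⟩], [⟨0, 0, 0, 26843545⟩, ⟨1, 1, 0, 26843545⟩, ⟨2, 1, 0, 26843545⟩]]

noncomputable def f_A00pp_012_s1 : ℕ → ℕ → ℕ → ℕ → Bool := onCell 0 536870912 536870912 536870912 1040187392 5207648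
    (rowF 0 true true true .pnp 0 1 2 (qsf 0 536870912 536870912 536870912 2) ndB0q0 ndB0q1 pcB2 cut_A00pp_012_s1 Ext.none)

def k0_A00pp_012_s1 : ∃ t, chk3 f_A00pp_012_s1 t 1 1 1 = true :=
  ⟨(l 6), by decide +kernel⟩

theorem c_A00pp_012_s1 : CertF 0 536870912 536870912 536870912 1040187392 5207648 true true true .pnp 0 1 2
    ndB0q0 ndB0q1 pcB2 cut_A00pp_012_s1 Ext.none :=
  certF0 (fam := true) (s1 := true) (s2 := true) (a := 0) (b := 1) (c := 2) (cn := .pnp) (n1 := ndB0q0) (n2 := ndB0q1) (pc := pcB2) (cut := cut_A00pp_012_s1) (xt := Ext.none) (P1 := 0) (W1 := 536870912) (P2 := 536870912) (W2 := 536870912) (P3 := 1040187392) (W3 := 5207648)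
    rfl k0_A00pp_012_s1

theorem s_A00pp_012_s1 {κ x : ℝ} (hκ : κ * h0 = ken x) (hx : ((1040187392 : ℕ) : ℝ) / S ≤ x)
    (hx' : x ≤ (((1040187392 : ℕ) : ℝ) + (5207648 : ℕ)) / S)
    (H : CutA (VFD κ) PP tK tL pcB (Cut.of [[⟨0, 0, 0, 26843545⟩, ⟨1, 1, 0, 26843545⟩, ⟨2, 1, 0, 26843545⟩]]) 0 1 2 0 0 (sgb true) (sgb true) x) :
    AltA (VFD κ) PP tK tL pcB [⟨3, 0, 0, 1449551462⟩] 0 1 2 0 0 (sgb true) (sgb true) x :=
  strip_altAD (m := 1449551462) true rfl hκ (SH.κ0 hκ (SH.hx1 hx).le (SH.hx2 hx').le) (SH.hx1 hx).le (SH.hx2 hx') (covB00).cov (covB01).cov hx hx' c_A00pp_012_s1 H (noExt_A)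

noncomputable def cut_A00pp_012_s3 : Cut := Cut.of [[⟨3, 0, 0, 2845415833⟩], [⟨0, 0, 0, 26843545⟩, ⟨1, 1, 0, 26843545⟩, ⟨2, 1, 0, 26843545⟩]]

noncomputable def f_A00pp_012_s3 : ℕ → ℕ → ℕ → ℕ → Bool := onCell 0 536870912 536870912 536870912 1040187392 5207648
    (rowF 0 true true true .pnp 0 1 2 (qsf 0 536870912 536870912 536870912 2) ndB0q0 ndB0q1 pcB2 cut_A00pp_012_s3 Ext.none)

def k0_A00pp_012_s3 : ∃ t, chk3 f_A00pp_012_s3 t 1 1 1 = true :=
  ⟨(b (l 4) (a (b (l 4) (a (b (l 4) (a (a (a (b (l 1) (b (l 4) (l 14))) (l 4)) (l 4)) (l 4))) (l 4))) (l 4))), by decide +kernel⟩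

theorem c_A00pp_012_s3 : CertF 0 536870912 536870912 536870912 1040187392 5207648 true true true .pnp 0 1 2
    ndB0q0 ndB0q1 pcB2 cut_A00pp_012_s3 Ext.none :=
  certF0 (fam := true) (s1 := true) (s2 := true) (a := 0) (b := 1) (c := 2) (cn := .pnp) (n1 := ndB0q0) (n2 := ndB0q1) (pc := pcB2) (cut := cut_A00pp_012_s3) (xt := Ext.none) (P1 := 0) (W1 := 536870912) (P2 := 536870912) (W2 := 536870912) (P3 := 1040187392) (W3 := 5207648)
    rfl k0_A00pp_012_s3

theorem s_A00pp_012_s3 {κ x : ℝ} (hκ : κ * h0 = ken x) (hx : ((1040187392 : ℕ) : ℝ) / S ≤ x)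
    (hx' : x ≤ (((1040187392 : ℕ) : ℝ) + (5207648 : ℕ)) / S)
    (H : CutA (VFD κ) PP tK tL pcB (Cut.of [[⟨0, 0, 0, 26843545⟩, ⟨1, 1, 0, 26843545⟩, ⟨2, 1, 0, 26843545⟩]]) 0 1 2 0 0 (sgb true) (sgb true) x) :
    AltA (VFD κ) PP tK tL pcB [⟨4, 0, 0, 2845415833⟩] 0 1 2 0 0 (sgb true) (sgb true) x :=
  strip_altAD (m := 2845415833) false rfl hκ (SH.κ0 hκ (SH.hx1 hx).le (SH.hx2 hx').le) (SH.hx1 hx).le (SH.hx2 hx') (covB00).cov (covB01).cov hx hx' c_A00pp_012_s3 H (noExt_A)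

noncomputable def cut_A00pp_022_s1 : Cut := Cut.of [[⟨4, 0, 0, 1449551462⟩], [⟨0, 0, 0, 22369621⟩, ⟨1, 1, 0, 22369621⟩, ⟨2, 1, 0, 22369621⟩]]

noncomputable def f_A00pp_022_s1 : ℕ → ℕ → ℕ → ℕ → Bool := onCell 0 536870912 0 536870912 1040187392 5207648
    (rowF 0 true true true .pp 0 2 2 (qsf 0 536870912 0 536870912 2) ndB0q0 ndB0q2 pcB2 cut_A00pp_022_s1 Ext.none)

def k0_A00pp_022_s1 : ∃ t, chk3 f_A00pp_022_s1 t 1 1 1 = true :=
  ⟨(l 6), by decide +kernel⟩

theorem c_A00pp_022_s1 : CertF 0 536870912 0 536870912 1040187392 5207648 true true true .pp 0 2 2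
    ndB0q0 ndB0q2 pcB2 cut_A00pp_022_s1 Ext.none :=
  certF0 (fam := true) (s1 := true) (s2 := true) (a := 0) (b := 2) (c := 2) (cn := .pp) (n1 := ndB0q0) (n2 := ndB0q2) (pc := pcB2) (cut := cut_A00pp_022_s1) (xt := Ext.none) (P1 := 0) (W1 := 536870912) (P2 := 0) (W2 := 536870912) (P3 := 1040187392) (W3 := 5207648)
    rfl k0_A00pp_022_s1

theorem s_A00pp_022_s1 {κ x : ℝ} (hκ : κ * h0 = ken x) (hx : ((1040187392 : ℕ) : ℝ) / S ≤ x)
    (hx' : x ≤ (((1040187392 : ℕ) : ℝ) + (5207648 : ℕ)) / S)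
    (H : CutA (VFD κ) PP tK tL pcB (Cut.of [[⟨0, 0, 0, 22369621⟩, ⟨1, 1, 0, 22369621⟩, ⟨2, 1, 0, 22369621⟩]]) 0 2 2 0 0 (sgb true) (sgb true) x) :
    AltA (VFD κ) PP tK tL pcB [⟨3, 0, 0, 1449551462⟩] 0 2 2 0 0 (sgb true) (sgb true) x :=
  strip_altAD (m := 1449551462) true rfl hκ (SH.κ0 hκ (SH.hx1 hx).le (SH.hx2 hx').le) (SH.hx1 hx).le (SH.hx2 hx') (covB00).cov (covB02).cov hx hx' c_A00pp_022_s1 H (noExt_A)

noncomputable def cut_A00pp_023_s1 : Cut := Cut.of [[⟨4, 0, 0, 1449551462⟩]]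

noncomputable def f_A00pp_023_s1 : ℕ → ℕ → ℕ → ℕ → Bool := onCell 0 536870912 0 536870912 1040187392 5207648
    (rowF 0 true true true .up 0 2 3 (qsf 0 536870912 0 536870912 3) ndB0q0 ndB0q2 pcB3 cut_A00pp_023_s1 Ext.none)

def k0_A00pp_023_s1 : ∃ t, chk3 f_A00pp_023_s1 t 1 1 1 = true :=
  ⟨(l 6), by decide +kernel⟩

theorem c_A00pp_023_s1 : CertF 0 536870912 0 536870912 1040187392 5207648 true true true .up 0 2 3
    ndB0q0 ndB0q2 pcB3 cut_A00pp_023_s1 Ext.none :=
  certF0 (fam := true) (s1 := true) (s2 := true) (a := 0) (b := 2) (c := 3) (cn := .up) (n1 := ndB0q0) (n2 := ndB0q2) (pc := pcB3) (cut := cut_A00pp_023_s1) (xt := Ext.none) (P1 := 0) (W1 := 536870912) (P2 := 0) (W2 := 536870912) (P3 := 1040187392) (W3 := 5207648)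
    rfl k0_A00pp_023_s1

theorem s_A00pp_023_s1 {κ x : ℝ} (hκ : κ * h0 = ken x) (hx : ((1040187392 : ℕ) : ℝ) / S ≤ x)
    (hx' : x ≤ (((1040187392 : ℕ) : ℝ) + (5207648 : ℕ)) / S) :
    AltA (VFD κ) PP tK tL pcB [⟨3, 0, 0, 1449551462⟩] 0 2 3 0 0 (sgb true) (sgb true) x :=
  strip_altAD (m := 1449551462) true rfl hκ (SH.κ0 hκ (SH.hx1 hx).le (SH.hx2 hx').le) (SH.hx1 hx).le (SH.hx2 hx') (covB00).cov (covB02).cov hx hx' c_A00pp_023_s1 cutA_nil (noExt_A)

noncomputable def cut_A00pp_023_s3 : Cut := Cut.of [[⟨3, 0, 0, 2845415833⟩]]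

noncomputable def xt_A00pp_023_s3 : Ext := strExt dd true true true .u0 .u2 .s2 .up 0 2 3 rfl rfl gl3 vv ndB0q0 ndB0q2

noncomputable def f_A00pp_023_s3 : ℕ → ℕ → ℕ → ℕ → Bool := onCell 0 536870912 0 536870912 1040187392 5207648
    (rowF 0 true true true .up 0 2 3 (qsf 0 536870912 0 536870912 3) ndB0q0 ndB0q2 pcB3 cut_A00pp_023_s3 xt_A00pp_023_s3)

def k0_A00pp_023_s3 : ∃ t, chk3 f_A00pp_023_s3 t 1 1 1 = true :=
  ⟨(a (l 1) (b (a (a (l 1) (a (b (b (l 1) (l 1)) (l 1)) (b (b (l 16428648) (l 530055183)) (b (l 529740047) (l 529337615))))) (b (a (b (a (l 530621967) (l 530869263)) (a (l 530392591) (b (l 530713359) (l 530588431)))) (a (b (l 531033359) (l 530824719)) (b (l 531115023) (l 530919951)))) (a (b (a (l 530092559) (l 530365711)) (a (l 529712655) (l 4))) (b (a (l 530559759) (l 4)) (l 4))))) (b (a (l 1) (l 4)) (l 4)))), by decide +kernel⟩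

theorem c_A00pp_023_s3 : CertF 0 536870912 0 536870912 1040187392 5207648 true true true .up 0 2 3
    ndB0q0 ndB0q2 pcB3 cut_A00pp_023_s3 xt_A00pp_023_s3 :=
  certF0 (fam := true) (s1 := true) (s2 := true) (a := 0) (b := 2) (c := 3) (cn := .up) (n1 := ndB0q0) (n2 := ndB0q2) (pc := pcB3) (cut := cut_A00pp_023_s3) (xt := xt_A00pp_023_s3) (P1 := 0) (W1 := 536870912) (P2 := 0) (W2 := 536870912) (P3 := 1040187392) (W3 := 5207648)
    rfl k0_A00pp_023_s3

theorem s_A00pp_023_s3 {κ x : ℝ} (hκ : κ * h0 = ken x) (hx : ((1040187392 : ℕ) : ℝ) / S ≤ x)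
    (hx' : x ≤ (((1040187392 : ℕ) : ℝ) + (5207648 : ℕ)) / S) :
    AltA (VFD κ) PP tK tL pcB [⟨4, 0, 0, 2845415833⟩] 0 2 3 0 0 (sgb true) (sgb true) x :=
  strip_altAD (m := 2845415833) false rfl hκ (SH.κ0 hκ (SH.hx1 hx).le (SH.hx2 hx').le) (SH.hx1 hx).le (SH.hx2 hx') (covB00).cov (covB02).cov hx hx' c_A00pp_023_s3 cutA_nil ((okx hx hx').extA (T := tt) (sideB hx hx') hκ rfl rfl (.O 0 true) (.O 2 true) (Or.inr rfl))

noncomputable def cut_A00pp_101_s1 : Cut := Cut.of [[⟨4, 0, 0, 1449551462⟩]]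

noncomputable def f_A00pp_101_s1 : ℕ → ℕ → ℕ → ℕ → Bool := onCell 536870912 536870912 0 536870912 1040187392 5207648
    (rowF 0 true true true .npn 1 0 1 (qsf 536870912 536870912 0 536870912 1) ndB0q1 ndB0q0 pcB1 cut_A00pp_101_s1 Ext.none)

def k0_A00pp_101_s1 : ∃ t, chk3 f_A00pp_101_s1 t 1 1 1 = true :=
  ⟨(l 6), by decide +kernel⟩

theorem c_A00pp_101_s1 : CertF 536870912 536870912 0 536870912 1040187392 5207648 true true true .npn 1 0 1
    ndB0q1 ndB0q0 pcB1 cut_A00pp_101_s1 Ext.none :=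
  certF0 (fam := true) (s1 := true) (s2 := true) (a := 1) (b := 0) (c := 1) (cn := .npn) (n1 := ndB0q1) (n2 := ndB0q0) (pc := pcB1) (cut := cut_A00pp_101_s1) (xt := Ext.none) (P1 := 536870912) (W1 := 536870912) (P2 := 0) (W2 := 536870912) (P3 := 1040187392) (W3 := 5207648)
    rfl k0_A00pp_101_s1

theorem s_A00pp_101_s1 {κ x : ℝ} (hκ : κ * h0 = ken x) (hx : ((1040187392 : ℕ) : ℝ) / S ≤ x)
    (hx' : x ≤ (((1040187392 : ℕ) : ℝ) + (5207648 : ℕ)) / S) :
    AltA (VFD κ) PP tK tL pcB [⟨3, 0, 0, 1449551462⟩] 1 0 1 0 0 (sgb true) (sgb true) x :=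
  strip_altAD (m := 1449551462) true rfl hκ (SH.κ0 hκ (SH.hx1 hx).le (SH.hx2 hx').le) (SH.hx1 hx).le (SH.hx2 hx') (covB01).cov (covB00).cov hx hx' c_A00pp_101_s1 cutA_nil (noExt_A)

noncomputable def cut_A00pp_101_s3 : Cut := Cut.of [[⟨3, 0, 0, 2845415833⟩]]

noncomputable def f_A00pp_101_s3 : ℕ → ℕ → ℕ → ℕ → Bool := onCell 536870912 536870912 0 536870912 1040187392 5207648
    (rowF 0 true true true .npn 1 0 1 (qsf 536870912 536870912 0 536870912 1) ndB0q1 ndB0q0 pcB1 cut_A00pp_101_s3 Ext.none)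

def k0_A00pp_101_s3 : ∃ t, chk3 f_A00pp_101_s3 t 1 1 1 = true :=
  ⟨(a (l 4) (l 5)), by decide +kernel⟩

theorem c_A00pp_101_s3 : CertF 536870912 536870912 0 536870912 1040187392 5207648 true true true .npn 1 0 1
    ndB0q1 ndB0q0 pcB1 cut_A00pp_101_s3 Ext.none :=
  certF0 (fam := true) (s1 := true) (s2 := true) (a := 1) (b := 0) (c := 1) (cn := .npn) (n1 := ndB0q1) (n2 := ndB0q0) (pc := pcB1) (cut := cut_A00pp_101_s3) (xt := Ext.none) (P1 := 536870912) (W1 := 536870912) (P2 := 0) (W2 := 536870912) (P3 := 1040187392) (W3 := 5207648)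
    rfl k0_A00pp_101_s3

theorem s_A00pp_101_s3 {κ x : ℝ} (hκ : κ * h0 = ken x) (hx : ((1040187392 : ℕ) : ℝ) / S ≤ x)
    (hx' : x ≤ (((1040187392 : ℕ) : ℝ) + (5207648 : ℕ)) / S) :
    AltA (VFD κ) PP tK tL pcB [⟨4, 0, 0, 2845415833⟩] 1 0 1 0 0 (sgb true) (sgb true) x :=
  strip_altAD (m := 2845415833) false rfl hκ (SH.κ0 hκ (SH.hx1 hx).le (SH.hx2 hx').le) (SH.hx1 hx).le (SH.hx2 hx') (covB01).cov (covB00).cov hx hx' c_A00pp_101_s3 cutA_nil (noExt_A)

noncomputable def cut_A00pp_102_s1 : Cut := Cut.of [[⟨4, 0, 0, 1449551462⟩]]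

noncomputable def f_A00pp_102_s1 : ℕ → ℕ → ℕ → ℕ → Bool := onCell 536870912 536870912 0 536870912 1040187392 5207648
    (rowF 0 true true true .npp 1 0 2 (qsf 536870912 536870912 0 536870912 2) ndB0q1 ndB0q0 pcB2 cut_A00pp_102_s1 Ext.none)

def k0_A00pp_102_s1 : ∃ t, chk3 f_A00pp_102_s1 t 1 1 1 = true :=
  ⟨(l 6), by decide +kernel⟩

theorem c_A00pp_102_s1 : CertF 536870912 536870912 0 536870912 1040187392 5207648 true true true .npp 1 0 2
    ndB0q1 ndB0q0 pcB2 cut_A00pp_102_s1 Ext.none :=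
  certF0 (fam := true) (s1 := true) (s2 := true) (a := 1) (b := 0) (c := 2) (cn := .npp) (n1 := ndB0q1) (n2 := ndB0q0) (pc := pcB2) (cut := cut_A00pp_102_s1) (xt := Ext.none) (P1 := 536870912) (W1 := 536870912) (P2 := 0) (W2 := 536870912) (P3 := 1040187392) (W3 := 5207648)
    rfl k0_A00pp_102_s1

theorem s_A00pp_102_s1 {κ x : ℝ} (hκ : κ * h0 = ken x) (hx : ((1040187392 : ℕ) : ℝ) / S ≤ x)
    (hx' : x ≤ (((1040187392 : ℕ) : ℝ) + (5207648 : ℕ)) / S) :
    AltA (VFD κ) PP tK tL pcB [⟨3, 0, 0, 1449551462⟩] 1 0 2 0 0 (sgb true) (sgb true) x :=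
  strip_altAD (m := 1449551462) true rfl hκ (SH.κ0 hκ (SH.hx1 hx).le (SH.hx2 hx').le) (SH.hx1 hx).le (SH.hx2 hx') (covB01).cov (covB00).cov hx hx' c_A00pp_102_s1 cutA_nil (noExt_A)

noncomputable def cut_A00pp_102_s3 : Cut := Cut.of [[⟨3, 0, 0, 2845415833⟩]]

noncomputable def f_A00pp_102_s3 : ℕ → ℕ → ℕ → ℕ → Bool := onCell 536870912 536870912 0 536870912 1040187392 5207648
    (rowF 0 true true true .npp 1 0 2 (qsf 536870912 536870912 0 536870912 2) ndB0q1 ndB0q0 pcB2 cut_A00pp_102_s3 Ext.none)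

def k0_A00pp_102_s3 : ∃ t, chk3 f_A00pp_102_s3 t 1 1 1 = true :=
  ⟨(a (l 4) (l 5)), by decide +kernel⟩

theorem c_A00pp_102_s3 : CertF 536870912 536870912 0 536870912 1040187392 5207648 true true true .npp 1 0 2
    ndB0q1 ndB0q0 pcB2 cut_A00pp_102_s3 Ext.none :=
  certF0 (fam := true) (s1 := true) (s2 := true) (a := 1) (b := 0) (c := 2) (cn := .npp) (n1 := ndB0q1) (n2 := ndB0q0) (pc := pcB2) (cut := cut_A00pp_102_s3) (xt := Ext.none) (P1 := 536870912) (W1 := 536870912) (P2 := 0) (W2 := 536870912) (P3 := 1040187392) (W3 := 5207648)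
    rfl k0_A00pp_102_s3

theorem s_A00pp_102_s3 {κ x : ℝ} (hκ : κ * h0 = ken x) (hx : ((1040187392 : ℕ) : ℝ) / S ≤ x)
    (hx' : x ≤ (((1040187392 : ℕ) : ℝ) + (5207648 : ℕ)) / S) :
    AltA (VFD κ) PP tK tL pcB [⟨4, 0, 0, 2845415833⟩] 1 0 2 0 0 (sgb true) (sgb true) x :=
  strip_altAD (m := 2845415833) false rfl hκ (SH.κ0 hκ (SH.hx1 hx).le (SH.hx2 hx').le) (SH.hx1 hx).le (SH.hx2 hx') (covB01).cov (covB00).cov hx hx' c_A00pp_102_s3 cutA_nil (noExt_A)

noncomputable def cut_A00pp_112_s1 : Cut := Cut.of [[⟨4, 0, 0, 1449551462⟩]]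

noncomputable def f_A00pp_112_s1 : ℕ → ℕ → ℕ → ℕ → Bool := onCell 536870912 536870912 536870912 536870912 1040187392 5207648
    (rowF 0 true true true .dn 1 1 2 (qsf 536870912 536870912 536870912 536870912 2) ndB0q1 ndB0q1 pcB2 cut_A00pp_112_s1 Ext.none)

def k0_A00pp_112_s1 : ∃ t, chk3 f_A00pp_112_s1 t 1 1 1 = true :=
  ⟨(l 4), by decide +kernel⟩

theorem c_A00pp_112_s1 : CertF 536870912 536870912 536870912 536870912 1040187392 5207648 true true true .dn 1 1 2
    ndB0q1 ndB0q1 pcB2 cut_A00pp_112_s1 Ext.none :=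
  certF0 (fam := true) (s1 := true) (s2 := true) (a := 1) (b := 1) (c := 2) (cn := .dn) (n1 := ndB0q1) (n2 := ndB0q1) (pc := pcB2) (cut := cut_A00pp_112_s1) (xt := Ext.none) (P1 := 536870912) (W1 := 536870912) (P2 := 536870912) (W2 := 536870912) (P3 := 1040187392) (W3 := 5207648)
    rfl k0_A00pp_112_s1

theorem s_A00pp_112_s1 {κ x : ℝ} (hκ : κ * h0 = ken x) (hx : ((1040187392 : ℕ) : ℝ) / S ≤ x)
    (hx' : x ≤ (((1040187392 : ℕ) : ℝ) + (5207648 : ℕ)) / S) :
    AltA (VFD κ) PP tK tL pcB [⟨3, 0, 0, 1449551462⟩] 1 1 2 0 0 (sgb true) (sgb true) x :=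
  strip_altAD (m := 1449551462) true rfl hκ (SH.κ0 hκ (SH.hx1 hx).le (SH.hx2 hx').le) (SH.hx1 hx).le (SH.hx2 hx') (covB01).cov (covB01).cov hx hx' c_A00pp_112_s1 cutA_nil (noExt_A)

noncomputable def cut_A00pp_112_s3 : Cut := Cut.of [[⟨3, 0, 0, 2845415833⟩]]

noncomputable def f_A00pp_112_s3 : ℕ → ℕ → ℕ → ℕ → Bool := onCell 536870912 536870912 536870912 536870912 1040187392 5207648
    (rowF 0 true true true .dn 1 1 2 (qsf 536870912 536870912 536870912 536870912 2) ndB0q1 ndB0q1 pcB2 cut_A00pp_112_s3 Ext.none)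

def k0_A00pp_112_s3 : ∃ t, chk3 f_A00pp_112_s3 t 1 1 1 = true :=
  ⟨(l 4), by decide +kernel⟩

theorem c_A00pp_112_s3 : CertF 536870912 536870912 536870912 536870912 1040187392 5207648 true true true .dn 1 1 2
    ndB0q1 ndB0q1 pcB2 cut_A00pp_112_s3 Ext.none :=
  certF0 (fam := true) (s1 := true) (s2 := true) (a := 1) (b := 1) (c := 2) (cn := .dn) (n1 := ndB0q1) (n2 := ndB0q1) (pc := pcB2) (cut := cut_A00pp_112_s3) (xt := Ext.none) (P1 := 536870912) (W1 := 536870912) (P2 := 536870912) (W2 := 536870912) (P3 := 1040187392) (W3 := 5207648)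
    rfl k0_A00pp_112_s3

theorem s_A00pp_112_s3 {κ x : ℝ} (hκ : κ * h0 = ken x) (hx : ((1040187392 : ℕ) : ℝ) / S ≤ x)
    (hx' : x ≤ (((1040187392 : ℕ) : ℝ) + (5207648 : ℕ)) / S) :
    AltA (VFD κ) PP tK tL pcB [⟨4, 0, 0, 2845415833⟩] 1 1 2 0 0 (sgb true) (sgb true) x :=
  strip_altAD (m := 2845415833) false rfl hκ (SH.κ0 hκ (SH.hx1 hx).le (SH.hx2 hx').le) (SH.hx1 hx).le (SH.hx2 hx') (covB01).cov (covB01).cov hx hx' c_A00pp_112_s3 cutA_nil (noExt_A)

noncomputable def cut_A00pp_113_s1 : Cut := Cut.of [[⟨4, 0, 0, 1449551462⟩]]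

noncomputable def f_A00pp_113_s1 : ℕ → ℕ → ℕ → ℕ → Bool := onCell 536870912 536870912 536870912 536870912 1040187392 5207648
    (rowF 0 true true true .nn 1 1 3 (qsf 536870912 536870912 536870912 536870912 3) ndB0q1 ndB0q1 pcB3 cut_A00pp_113_s1 Ext.none)

def k0_A00pp_113_s1 : ∃ t, chk3 f_A00pp_113_s1 t 1 1 1 = true :=
  ⟨(l 4), by decide +kernel⟩

theorem c_A00pp_113_s1 : CertF 536870912 536870912 536870912 536870912 1040187392 5207648 true true true .nn 1 1 3
    ndB0q1 ndB0q1 pcB3 cut_A00pp_113_s1 Ext.none :=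
  certF0 (fam := true) (s1 := true) (s2 := true) (a := 1) (b := 1) (c := 3) (cn := .nn) (n1 := ndB0q1) (n2 := ndB0q1) (pc := pcB3) (cut := cut_A00pp_113_s1) (xt := Ext.none) (P1 := 536870912) (W1 := 536870912) (P2 := 536870912) (W2 := 536870912) (P3 := 1040187392) (W3 := 5207648)
    rfl k0_A00pp_113_s1

theorem s_A00pp_113_s1 {κ x : ℝ} (hκ : κ * h0 = ken x) (hx : ((1040187392 : ℕ) : ℝ) / S ≤ x)
    (hx' : x ≤ (((1040187392 : ℕ) : ℝ) + (5207648 : ℕ)) / S) :
    AltA (VFD κ) PP tK tL pcB [⟨3, 0, 0, 1449551462⟩] 1 1 3 0 0 (sgb true) (sgb true) x :=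
  strip_altAD (m := 1449551462) true rfl hκ (SH.κ0 hκ (SH.hx1 hx).le (SH.hx2 hx').le) (SH.hx1 hx).le (SH.hx2 hx') (covB01).cov (covB01).cov hx hx' c_A00pp_113_s1 cutA_nil (noExt_A)

noncomputable def cut_A00pp_113_s3 : Cut := Cut.of [[⟨3, 0, 0, 2845415833⟩]]

noncomputable def f_A00pp_113_s3 : ℕ → ℕ → ℕ → ℕ → Bool := onCell 536870912 536870912 536870912 536870912 1040187392 5207648
    (rowF 0 true true true .nn 1 1 3 (qsf 536870912 536870912 536870912 536870912 3) ndB0q1 ndB0q1 pcB3 cut_A00pp_113_s3 Ext.none)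

def k0_A00pp_113_s3 : ∃ t, chk3 f_A00pp_113_s3 t 1 1 1 = true :=
  ⟨(l 4), by decide +kernel⟩

theorem c_A00pp_113_s3 : CertF 536870912 536870912 536870912 536870912 1040187392 5207648 true true true .nn 1 1 3
    ndB0q1 ndB0q1 pcB3 cut_A00pp_113_s3 Ext.none :=
  certF0 (fam := true) (s1 := true) (s2 := true) (a := 1) (b := 1) (c := 3) (cn := .nn) (n1 := ndB0q1) (n2 := ndB0q1) (pc := pcB3) (cut := cut_A00pp_113_s3) (xt := Ext.none) (P1 := 536870912) (W1 := 536870912) (P2 := 536870912) (W2 := 536870912) (P3 := 1040187392) (W3 := 5207648)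
    rfl k0_A00pp_113_s3

theorem s_A00pp_113_s3 {κ x : ℝ} (hκ : κ * h0 = ken x) (hx : ((1040187392 : ℕ) : ℝ) / S ≤ x)
    (hx' : x ≤ (((1040187392 : ℕ) : ℝ) + (5207648 : ℕ)) / S) :
    AltA (VFD κ) PP tK tL pcB [⟨4, 0, 0, 2845415833⟩] 1 1 3 0 0 (sgb true) (sgb true) x :=
  strip_altAD (m := 2845415833) false rfl hκ (SH.κ0 hκ (SH.hx1 hx).le (SH.hx2 hx').le) (SH.hx1 hx).le (SH.hx2 hx') (covB01).cov (covB01).cov hx hx' c_A00pp_113_s3 cutA_nil (noExt_A)

noncomputable def cut_A00pp_123_s1 : Cut := Cut.of [[⟨4, 0, 0, 1449551462⟩]]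

noncomputable def f_A00pp_123_s1 : ℕ → ℕ → ℕ → ℕ → Bool := onCell 536870912 536870912 0 536870912 1040187392 5207648
    (rowF 0 true true true .npn 1 2 3 (qsf 536870912 536870912 0 536870912 3) ndB0q1 ndB0q2 pcB3 cut_A00pp_123_s1 Ext.none)

def k0_A00pp_123_s1 : ∃ t, chk3 f_A00pp_123_s1 t 1 1 1 = true :=
  ⟨(l 6), by decide +kernel⟩

theorem c_A00pp_123_s1 : CertF 536870912 536870912 0 536870912 1040187392 5207648 true true true .npn 1 2 3
    ndB0q1 ndB0q2 pcB3 cut_A00pp_123_s1 Ext.none :=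
  certF0 (fam := true) (s1 := true) (s2 := true) (a := 1) (b := 2) (c := 3) (cn := .npn) (n1 := ndB0q1) (n2 := ndB0q2) (pc := pcB3) (cut := cut_A00pp_123_s1) (xt := Ext.none) (P1 := 536870912) (W1 := 536870912) (P2 := 0) (W2 := 536870912) (P3 := 1040187392) (W3 := 5207648)
    rfl k0_A00pp_123_s1

theorem s_A00pp_123_s1 {κ x : ℝ} (hκ : κ * h0 = ken x) (hx : ((1040187392 : ℕ) : ℝ) / S ≤ x)
    (hx' : x ≤ (((1040187392 : ℕ) : ℝ) + (5207648 : ℕ)) / S) :
    AltA (VFD κ) PP tK tL pcB [⟨3, 0, 0, 1449551462⟩] 1 2 3 0 0 (sgb true) (sgb true) x :=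
  strip_altAD (m := 1449551462) true rfl hκ (SH.κ0 hκ (SH.hx1 hx).le (SH.hx2 hx').le) (SH.hx1 hx).le (SH.hx2 hx') (covB01).cov (covB02).cov hx hx' c_A00pp_123_s1 cutA_nil (noExt_A)

noncomputable def cut_A00pp_123_s3 : Cut := Cut.of [[⟨3, 0, 0, 2845415833⟩]]

noncomputable def xt_A00pp_123_s3 : Ext := strExt dd true true true .u0 .u2 .s2 .npn 1 2 3 rfl rfl gl3 vv ndB0q1 ndB0q2

noncomputable def f_A00pp_123_s3 : ℕ → ℕ → ℕ → ℕ → Bool := onCell 536870912 536870912 0 536870912 1040187392 5207648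
    (rowF 0 true true true .npn 1 2 3 (qsf 536870912 536870912 0 536870912 3) ndB0q1 ndB0q2 pcB3 cut_A00pp_123_s3 xt_A00pp_123_s3)

def k0_A00pp_123_s3 : ∃ t, chk3 f_A00pp_123_s3 t 1 1 1 = true :=
  ⟨(b (a (a (b (a (b (a (l 531114767) (l 531034383)) (a (l 530935567) (l 4))) (b (a (l 530876431) (l 4)) (l 4))) (l 4)) (l 4)) (l 4)) (l 4)), by decide +kernel⟩

theorem c_A00pp_123_s3 : CertF 536870912 536870912 0 536870912 1040187392 5207648 true true true .npn 1 2 3
    ndB0q1 ndB0q2 pcB3 cut_A00pp_123_s3 xt_A00pp_123_s3 :=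
  certF0 (fam := true) (s1 := true) (s2 := true) (a := 1) (b := 2) (c := 3) (cn := .npn) (n1 := ndB0q1) (n2 := ndB0q2) (pc := pcB3) (cut := cut_A00pp_123_s3) (xt := xt_A00pp_123_s3) (P1 := 536870912) (W1 := 536870912) (P2 := 0) (W2 := 536870912) (P3 := 1040187392) (W3 := 5207648)
    rfl k0_A00pp_123_s3

theorem s_A00pp_123_s3 {κ x : ℝ} (hκ : κ * h0 = ken x) (hx : ((1040187392 : ℕ) : ℝ) / S ≤ x)
    (hx' : x ≤ (((1040187392 : ℕ) : ℝ) + (5207648 : ℕ)) / S) :
    AltA (VFD κ) PP tK tL pcB [⟨4, 0, 0, 2845415833⟩] 1 2 3 0 0 (sgb true) (sgb true) x :=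
  strip_altAD (m := 2845415833) false rfl hκ (SH.κ0 hκ (SH.hx1 hx).le (SH.hx2 hx').le) (SH.hx1 hx).le (SH.hx2 hx') (covB01).cov (covB02).cov hx hx' c_A00pp_123_s3 cutA_nil ((okx hx hx').extA (T := tt) (sideB hx hx') hκ rfl rfl (.O 1 true) (.O 2 true) (Or.inr rfl))

noncomputable def cut_A00pp_202_s1 : Cut := Cut.of [[⟨4, 0, 0, 1449551462⟩]]

noncomputable def f_A00pp_202_s1 : ℕ → ℕ → ℕ → ℕ → Bool := onCell 0 536870912 0 536870912 1040187392 5207648
    (rowF 0 true true true .pp 2 0 2 (qsf 0 536870912 0 536870912 2) ndB0q2 ndB0q0 pcB2 cut_A00pp_202_s1 Ext.none)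

def k0_A00pp_202_s1 : ∃ t, chk3 f_A00pp_202_s1 t 1 1 1 = true :=
  ⟨(l 5), by decide +kernel⟩

theorem c_A00pp_202_s1 : CertF 0 536870912 0 536870912 1040187392 5207648 true true true .pp 2 0 2
    ndB0q2 ndB0q0 pcB2 cut_A00pp_202_s1 Ext.none :=
  certF0 (fam := true) (s1 := true) (s2 := true) (a := 2) (b := 0) (c := 2) (cn := .pp) (n1 := ndB0q2) (n2 := ndB0q0) (pc := pcB2) (cut := cut_A00pp_202_s1) (xt := Ext.none) (P1 := 0) (W1 := 536870912) (P2 := 0) (W2 := 536870912) (P3 := 1040187392) (W3 := 5207648)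
    rfl k0_A00pp_202_s1

theorem s_A00pp_202_s1 {κ x : ℝ} (hκ : κ * h0 = ken x) (hx : ((1040187392 : ℕ) : ℝ) / S ≤ x)
    (hx' : x ≤ (((1040187392 : ℕ) : ℝ) + (5207648 : ℕ)) / S) :
    AltA (VFD κ) PP tK tL pcB [⟨3, 0, 0, 1449551462⟩] 2 0 2 0 0 (sgb true) (sgb true) x :=
  strip_altAD (m := 1449551462) true rfl hκ (SH.κ0 hκ (SH.hx1 hx).le (SH.hx2 hx').le) (SH.hx1 hx).le (SH.hx2 hx') (covB02).cov (covB00).cov hx hx' c_A00pp_202_s1 cutA_nil (noExt_A)

noncomputable def cut_A00pp_202_s3 : Cut := Cut.of [[⟨3, 0, 0, 2845415833⟩]]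

noncomputable def f_A00pp_202_s3 : ℕ → ℕ → ℕ → ℕ → Bool := onCell 0 536870912 0 536870912 1040187392 5207648
    (rowF 0 true true true .pp 2 0 2 (qsf 0 536870912 0 536870912 2) ndB0q2 ndB0q0 pcB2 cut_A00pp_202_s3 Ext.none)

def k0_A00pp_202_s3 : ∃ t, chk3 f_A00pp_202_s3 t 1 1 1 = true :=
  ⟨(l 5), by decide +kernel⟩

theorem c_A00pp_202_s3 : CertF 0 536870912 0 536870912 1040187392 5207648 true true true .pp 2 0 2
    ndB0q2 ndB0q0 pcB2 cut_A00pp_202_s3 Ext.none :=
  certF0 (fam := true) (s1 := true) (s2 := true) (a := 2) (b := 0) (c := 2) (cn := .pp) (n1 := ndB0q2) (n2 := ndB0q0) (pc := pcB2) (cut := cut_A00pp_202_s3) (xt := Ext.none) (P1 := 0) (W1 := 536870912) (P2 := 0) (W2 := 536870912) (P3 := 1040187392) (W3 := 5207648)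
    rfl k0_A00pp_202_s3

theorem s_A00pp_202_s3 {κ x : ℝ} (hκ : κ * h0 = ken x) (hx : ((1040187392 : ℕ) : ℝ) / S ≤ x)
    (hx' : x ≤ (((1040187392 : ℕ) : ℝ) + (5207648 : ℕ)) / S) :
    AltA (VFD κ) PP tK tL pcB [⟨4, 0, 0, 2845415833⟩] 2 0 2 0 0 (sgb true) (sgb true) x :=
  strip_altAD (m := 2845415833) false rfl hκ (SH.κ0 hκ (SH.hx1 hx).le (SH.hx2 hx').le) (SH.hx1 hx).le (SH.hx2 hx') (covB02).cov (covB00).cov hx hx' c_A00pp_202_s3 cutA_nil (noExt_A)

noncomputable def cut_A00pp_203_s1 : Cut := Cut.of [[⟨4, 0, 0, 1449551462⟩]]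

noncomputable def f_A00pp_203_s1 : ℕ → ℕ → ℕ → ℕ → Bool := onCell 0 536870912 0 536870912 1040187392 5207648
    (rowF 0 true true true .up 2 0 3 (qsf 0 536870912 0 536870912 3) ndB0q2 ndB0q0 pcB3 cut_A00pp_203_s1 Ext.none)

def k0_A00pp_203_s1 : ∃ t, chk3 f_A00pp_203_s1 t 1 1 1 = true :=
  ⟨(l 5), by decide +kernel⟩

theorem c_A00pp_203_s1 : CertF 0 536870912 0 536870912 1040187392 5207648 true true true .up 2 0 3
    ndB0q2 ndB0q0 pcB3 cut_A00pp_203_s1 Ext.none :=
  certF0 (fam := true) (s1 := true) (s2 := true) (a := 2) (b := 0) (c := 3) (cn := .up) (n1 := ndB0q2) (n2 := ndB0q0) (pc := pcB3) (cut := cut_A00pp_203_s1) (xt := Ext.none) (P1 := 0) (W1 := 536870912) (P2 := 0) (W2 := 536870912) (P3 := 1040187392) (W3 := 5207648)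
    rfl k0_A00pp_203_s1

theorem s_A00pp_203_s1 {κ x : ℝ} (hκ : κ * h0 = ken x) (hx : ((1040187392 : ℕ) : ℝ) / S ≤ x)
    (hx' : x ≤ (((1040187392 : ℕ) : ℝ) + (5207648 : ℕ)) / S) :
    AltA (VFD κ) PP tK tL pcB [⟨3, 0, 0, 1449551462⟩] 2 0 3 0 0 (sgb true) (sgb true) x :=
  strip_altAD (m := 1449551462) true rfl hκ (SH.κ0 hκ (SH.hx1 hx).le (SH.hx2 hx').le) (SH.hx1 hx).le (SH.hx2 hx') (covB02).cov (covB00).cov hx hx' c_A00pp_203_s1 cutA_nil (noExt_A)

noncomputable def cut_A00pp_203_s3 : Cut := Cut.of [[⟨3, 0, 0, 2845415833⟩]]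

noncomputable def f_A00pp_203_s3 : ℕ → ℕ → ℕ → ℕ → Bool := onCell 0 536870912 0 536870912 1040187392 5207648
    (rowF 0 true true true .up 2 0 3 (qsf 0 536870912 0 536870912 3) ndB0q2 ndB0q0 pcB3 cut_A00pp_203_s3 Ext.none)

def k0_A00pp_203_s3 : ∃ t, chk3 f_A00pp_203_s3 t 1 1 1 = true :=
  ⟨(l 5), by decide +kernel⟩

theorem c_A00pp_203_s3 : CertF 0 536870912 0 536870912 1040187392 5207648 true true true .up 2 0 3
    ndB0q2 ndB0q0 pcB3 cut_A00pp_203_s3 Ext.none :=
  certF0 (fam := true) (s1 := true) (s2 := true) (a := 2) (b := 0) (c := 3) (cn := .up) (n1 := ndB0q2) (n2 := ndB0q0) (pc := pcB3) (cut := cut_A00pp_203_s3) (xt := Ext.none) (P1 := 0) (W1 := 536870912) (P2 := 0) (W2 := 536870912) (P3 := 1040187392) (W3 := 5207648)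
    rfl k0_A00pp_203_s3

theorem s_A00pp_203_s3 {κ x : ℝ} (hκ : κ * h0 = ken x) (hx : ((1040187392 : ℕ) : ℝ) / S ≤ x)
    (hx' : x ≤ (((1040187392 : ℕ) : ℝ) + (5207648 : ℕ)) / S) :
    AltA (VFD κ) PP tK tL pcB [⟨4, 0, 0, 2845415833⟩] 2 0 3 0 0 (sgb true) (sgb true) x :=
  strip_altAD (m := 2845415833) false rfl hκ (SH.κ0 hκ (SH.hx1 hx).le (SH.hx2 hx').le) (SH.hx1 hx).le (SH.hx2 hx') (covB02).cov (covB00).cov hx hx' c_A00pp_203_s3 cutA_nil (noExt_A)

noncomputable def cut_A00pp_213_s1 : Cut := Cut.of [[⟨4, 0, 0, 1449551462⟩]]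

noncomputable def f_A00pp_213_s1 : ℕ → ℕ → ℕ → ℕ → Bool := onCell 0 536870912 536870912 536870912 1040187392 5207648
    (rowF 0 true true true .pnn 2 1 3 (qsf 0 536870912 536870912 536870912 3) ndB0q2 ndB0q1 pcB3 cut_A00pp_213_s1 Ext.none)

def k0_A00pp_213_s1 : ∃ t, chk3 f_A00pp_213_s1 t 1 1 1 = true :=
  ⟨(l 6), by decide +kernel⟩

theorem c_A00pp_213_s1 : CertF 0 536870912 536870912 536870912 1040187392 5207648 true true true .pnn 2 1 3
    ndB0q2 ndB0q1 pcB3 cut_A00pp_213_s1 Ext.none :=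
  certF0 (fam := true) (s1 := true) (s2 := true) (a := 2) (b := 1) (c := 3) (cn := .pnn) (n1 := ndB0q2) (n2 := ndB0q1) (pc := pcB3) (cut := cut_A00pp_213_s1) (xt := Ext.none) (P1 := 0) (W1 := 536870912) (P2 := 536870912) (W2 := 536870912) (P3 := 1040187392) (W3 := 5207648)
    rfl k0_A00pp_213_s1

theorem s_A00pp_213_s1 {κ x : ℝ} (hκ : κ * h0 = ken x) (hx : ((1040187392 : ℕ) : ℝ) / S ≤ x)
    (hx' : x ≤ (((1040187392 : ℕ) : ℝ) + (5207648 : ℕ)) / S) :
    AltA (VFD κ) PP tK tL pcB [⟨3, 0, 0, 1449551462⟩] 2 1 3 0 0 (sgb true) (sgb true) x :=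
  strip_altAD (m := 1449551462) true rfl hκ (SH.κ0 hκ (SH.hx1 hx).le (SH.hx2 hx').le) (SH.hx1 hx).le (SH.hx2 hx') (covB02).cov (covB01).cov hx hx' c_A00pp_213_s1 cutA_nil (noExt_A)

noncomputable def cut_A00pp_213_s3 : Cut := Cut.of [[⟨3, 0, 0, 2845415833⟩]]

noncomputable def f_A00pp_213_s3 : ℕ → ℕ → ℕ → ℕ → Bool := onCell 0 536870912 536870912 536870912 1040187392 5207648
    (rowF 0 true true true .pnn 2 1 3 (qsf 0 536870912 536870912 536870912 3) ndB0q2 ndB0q1 pcB3 cut_A00pp_213_s3 Ext.none)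

def k0_A00pp_213_s3 : ∃ t, chk3 f_A00pp_213_s3 t 1 1 1 = true :=
  ⟨(a (l 5) (l 4)), by decide +kernel⟩

theorem c_A00pp_213_s3 : CertF 0 536870912 536870912 536870912 1040187392 5207648 true true true .pnn 2 1 3
    ndB0q2 ndB0q1 pcB3 cut_A00pp_213_s3 Ext.none :=
  certF0 (fam := true) (s1 := true) (s2 := true) (a := 2) (b := 1) (c := 3) (cn := .pnn) (n1 := ndB0q2) (n2 := ndB0q1) (pc := pcB3) (cut := cut_A00pp_213_s3) (xt := Ext.none) (P1 := 0) (W1 := 536870912) (P2 := 536870912) (W2 := 536870912) (P3 := 1040187392) (W3 := 5207648)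
    rfl k0_A00pp_213_s3

theorem s_A00pp_213_s3 {κ x : ℝ} (hκ : κ * h0 = ken x) (hx : ((1040187392 : ℕ) : ℝ) / S ≤ x)
    (hx' : x ≤ (((1040187392 : ℕ) : ℝ) + (5207648 : ℕ)) / S) :
    AltA (VFD κ) PP tK tL pcB [⟨4, 0, 0, 2845415833⟩] 2 1 3 0 0 (sgb true) (sgb true) x :=
  strip_altAD (m := 2845415833) false rfl hκ (SH.κ0 hκ (SH.hx1 hx).le (SH.hx2 hx').le) (SH.hx1 hx).le (SH.hx2 hx') (covB02).cov (covB01).cov hx hx' c_A00pp_213_s3 cutA_nil (noExt_A)

noncomputable def cut_A00pm_001_s1 : Cut := Cut.of [[⟨4, 0, 0, 1449551462⟩]]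

noncomputable def f_A00pm_001_s1 : ℕ → ℕ → ℕ → ℕ → Bool := onCell 0 536870912 0 536870912 1040187392 5207648
    (rowF 0 true true false .up 0 0 1 (qsf 0 536870912 0 536870912 1) ndB0q0 ndB0q0 pcB1 cut_A00pm_001_s1 Ext.none)

def k0_A00pm_001_s1 : ∃ t, chk3 f_A00pm_001_s1 t 1 1 1 = true :=
  ⟨(l 3), by decide +kernel⟩

theorem c_A00pm_001_s1 : CertF 0 536870912 0 536870912 1040187392 5207648 true true false .up 0 0 1
    ndB0q0 ndB0q0 pcB1 cut_A00pm_001_s1 Ext.none :=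
  certF0 (fam := true) (s1 := true) (s2 := false) (a := 0) (b := 0) (c := 1) (cn := .up) (n1 := ndB0q0) (n2 := ndB0q0) (pc := pcB1) (cut := cut_A00pm_001_s1) (xt := Ext.none) (P1 := 0) (W1 := 536870912) (P2 := 0) (W2 := 536870912) (P3 := 1040187392) (W3 := 5207648)
    rfl k0_A00pm_001_s1

theorem s_A00pm_001_s1 {κ x : ℝ} (hκ : κ * h0 = ken x) (hx : ((1040187392 : ℕ) : ℝ) / S ≤ x)
    (hx' : x ≤ (((1040187392 : ℕ) : ℝ) + (5207648 : ℕ)) / S) :
    AltA (VFD κ) PP tK tL pcB [⟨3, 0, 0, 1449551462⟩] 0 0 1 0 0 (sgb true) (sgb false) x :=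
  strip_altAD (m := 1449551462) true rfl hκ (SH.κ0 hκ (SH.hx1 hx).le (SH.hx2 hx').le) (SH.hx1 hx).le (SH.hx2 hx') (covB00).cov (covB00).cov hx hx' c_A00pm_001_s1 cutA_nil (noExt_A)

noncomputable def cut_A00pm_001_s3 : Cut := Cut.of [[⟨3, 0, 0, 2845415833⟩]]

noncomputable def f_A00pm_001_s3 : ℕ → ℕ → ℕ → ℕ → Bool := onCell 0 536870912 0 536870912 1040187392 5207648
    (rowF 0 true true false .up 0 0 1 (qsf 0 536870912 0 536870912 1) ndB0q0 ndB0q0 pcB1 cut_A00pm_001_s3 Ext.none)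

def k0_A00pm_001_s3 : ∃ t, chk3 f_A00pm_001_s3 t 1 1 1 = true :=
  ⟨(l 3), by decide +kernel⟩

theorem c_A00pm_001_s3 : CertF 0 536870912 0 536870912 1040187392 5207648 true true false .up 0 0 1
    ndB0q0 ndB0q0 pcB1 cut_A00pm_001_s3 Ext.none :=
  certF0 (fam := true) (s1 := true) (s2 := false) (a := 0) (b := 0) (c := 1) (cn := .up) (n1 := ndB0q0) (n2 := ndB0q0) (pc := pcB1) (cut := cut_A00pm_001_s3) (xt := Ext.none) (P1 := 0) (W1 := 536870912) (P2 := 0) (W2 := 536870912) (P3 := 1040187392) (W3 := 5207648)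
    rfl k0_A00pm_001_s3

theorem s_A00pm_001_s3 {κ x : ℝ} (hκ : κ * h0 = ken x) (hx : ((1040187392 : ℕ) : ℝ) / S ≤ x)
    (hx' : x ≤ (((1040187392 : ℕ) : ℝ) + (5207648 : ℕ)) / S) :
    AltA (VFD κ) PP tK tL pcB [⟨4, 0, 0, 2845415833⟩] 0 0 1 0 0 (sgb true) (sgb false) x :=
  strip_altAD (m := 2845415833) false rfl hκ (SH.κ0 hκ (SH.hx1 hx).le (SH.hx2 hx').le) (SH.hx1 hx).le (SH.hx2 hx') (covB00).cov (covB00).cov hx hx' c_A00pm_001_s3 cutA_nil (noExt_A)

noncomputable def cut_A00pm_011_s1 : Cut := Cut.of [[⟨4, 0, 0, 1449551462⟩], [⟨0, 0, 0, 26843545⟩, ⟨1, 1, 0, 26843545⟩, ⟨2, 1, 0, 26843545⟩]]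

noncomputable def f_A00pm_011_s1 : ℕ → ℕ → ℕ → ℕ → Bool := onCell 536870912 536870912 536870912 536870912 1040187392 5207648
    (rowF 2 true true false .pnn 0 1 1 (qsf 0 536870912 536870912 536870912 1) ndB0q0 ndB0q1 pcB1 cut_A00pm_011_s1 Ext.none)

def k0_A00pm_011_s1 : ∃ t, chk3 f_A00pm_011_s1 t 1 1 1 = true :=
  ⟨(a (l 3) (b (l 3) (a (l 3) (b (l 3) (a (l 3) (b (l 3) (a (l 3) (b (l 3) (a (l 3) (b (l 3) (l 14))))))))))), by decide +kernel⟩

theorem c_A00pm_011_s1 : CertF 0 536870912 536870912 536870912 1040187392 5207648 true true false .pnn 0 1 1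
    ndB0q0 ndB0q1 pcB1 cut_A00pm_011_s1 Ext.none :=
  certF2 (fam := true) (s1 := true) (s2 := false) (a := 0) (b := 1) (c := 1) (cn := .pnn) (n1 := ndB0q0) (n2 := ndB0q1) (pc := pcB1) (cut := cut_A00pm_011_s1) (xt := Ext.none) (P1 := 0) (W1 := 536870912) (P2 := 536870912) (W2 := 536870912) (P3 := 1040187392) (W3 := 5207648)
    rfl (fun _ => rfl) k0_A00pm_011_s1

theorem s_A00pm_011_s1 {κ x : ℝ} (hκ : κ * h0 = ken x) (hx : ((1040187392 : ℕ) : ℝ) / S ≤ x)
    (hx' : x ≤ (((1040187392 : ℕ) : ℝ) + (5207648 : ℕ)) / S)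
    (H : CutA (VFD κ) PP tK tL pcB (Cut.of [[⟨0, 0, 0, 26843545⟩, ⟨1, 1, 0, 26843545⟩, ⟨2, 1, 0, 26843545⟩]]) 0 1 1 0 0 (sgb true) (sgb false) x) :
    AltA (VFD κ) PP tK tL pcB [⟨3, 0, 0, 1449551462⟩] 0 1 1 0 0 (sgb true) (sgb false) x :=
  strip_altAD (m := 1449551462) true rfl hκ (SH.κ0 hκ (SH.hx1 hx).le (SH.hx2 hx').le) (SH.hx1 hx).le (SH.hx2 hx') (covB00).cov (covB01).cov hx hx' c_A00pm_011_s1 H (noExt_A)

noncomputable def cut_A00pm_011_s3 : Cut := Cut.of [[⟨3, 0, 0, 2845415833⟩], [⟨0, 0, 0, 26843545⟩, ⟨1, 1, 0, 26843545⟩, ⟨2, 1, 0, 26843545⟩]]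

noncomputable def f_A00pm_011_s3 : ℕ → ℕ → ℕ → ℕ → Bool := onCell 0 536870912 536870912 536870912 1040187392 5207648
    (rowF 0 true true false .pnn 0 1 1 (qsf 0 536870912 536870912 536870912 1) ndB0q0 ndB0q1 pcB1 cut_A00pm_011_s3 Ext.none)

def k0_A00pm_011_s3 : ∃ t, chk3 f_A00pm_011_s3 t 1 1 1 = true :=
  ⟨(l 6), by decide +kernel⟩

theorem c_A00pm_011_s3 : CertF 0 536870912 536870912 536870912 1040187392 5207648 true true false .pnn 0 1 1
    ndB0q0 ndB0q1 pcB1 cut_A00pm_011_s3 Ext.none :=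
  certF0 (fam := true) (s1 := true) (s2 := false) (a := 0) (b := 1) (c := 1) (cn := .pnn) (n1 := ndB0q0) (n2 := ndB0q1) (pc := pcB1) (cut := cut_A00pm_011_s3) (xt := Ext.none) (P1 := 0) (W1 := 536870912) (P2 := 536870912) (W2 := 536870912) (P3 := 1040187392) (W3 := 5207648)
    rfl k0_A00pm_011_s3

theorem s_A00pm_011_s3 {κ x : ℝ} (hκ : κ * h0 = ken x) (hx : ((1040187392 : ℕ) : ℝ) / S ≤ x)
    (hx' : x ≤ (((1040187392 : ℕ) : ℝ) + (5207648 : ℕ)) / S)
    (H : CutA (VFD κ) PP tK tL pcB (Cut.of [[⟨0, 0, 0, 26843545⟩, ⟨1, 1, 0, 26843545⟩, ⟨2, 1, 0, 26843545⟩]]) 0 1 1 0 0 (sgb true) (sgb false) x) :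
    AltA (VFD κ) PP tK tL pcB [⟨4, 0, 0, 2845415833⟩] 0 1 1 0 0 (sgb true) (sgb false) x :=
  strip_altAD (m := 2845415833) false rfl hκ (SH.κ0 hκ (SH.hx1 hx).le (SH.hx2 hx').le) (SH.hx1 hx).le (SH.hx2 hx') (covB00).cov (covB01).cov hx hx' c_A00pm_011_s3 H (noExt_A)

noncomputable def cut_A00pm_012_s3 : Cut := Cut.of [[⟨3, 0, 0, 2845415833⟩], [⟨0, 0, 0, 16777216⟩, ⟨1, 1, 0, 16777216⟩, ⟨2, 1, 0, 16777216⟩]]

noncomputable def f_A00pm_012_s3 : ℕ → ℕ → ℕ → ℕ → Bool := onCell 0 536870912 536870912 536870912 1040187392 5207648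
    (rowF 0 true true false .pnp 0 1 2 (qsf 0 536870912 536870912 536870912 2) ndB0q0 ndB0q1 pcB2 cut_A00pm_012_s3 Ext.none)

def k0_A00pm_012_s3 : ∃ t, chk3 f_A00pm_012_s3 t 1 1 1 = true :=
  ⟨(l 6), by decide +kernel⟩

theorem c_A00pm_012_s3 : CertF 0 536870912 536870912 536870912 1040187392 5207648 true true false .pnp 0 1 2
    ndB0q0 ndB0q1 pcB2 cut_A00pm_012_s3 Ext.none :=
  certF0 (fam := true) (s1 := true) (s2 := false) (a := 0) (b := 1) (c := 2) (cn := .pnp) (n1 := ndB0q0) (n2 := ndB0q1) (pc := pcB2) (cut := cut_A00pm_012_s3) (xt := Ext.none) (P1 := 0) (W1 := 536870912) (P2 := 536870912) (W2 := 536870912) (P3 := 1040187392) (W3 := 5207648)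
    rfl k0_A00pm_012_s3

theorem s_A00pm_012_s3 {κ x : ℝ} (hκ : κ * h0 = ken x) (hx : ((1040187392 : ℕ) : ℝ) / S ≤ x)
    (hx' : x ≤ (((1040187392 : ℕ) : ℝ) + (5207648 : ℕ)) / S)
    (H : CutA (VFD κ) PP tK tL pcB (Cut.of [[⟨0, 0, 0, 16777216⟩, ⟨1, 1, 0, 16777216⟩, ⟨2, 1, 0, 16777216⟩]]) 0 1 2 0 0 (sgb true) (sgb false) x) :
    AltA (VFD κ) PP tK tL pcB [⟨4, 0, 0, 2845415833⟩] 0 1 2 0 0 (sgb true) (sgb false) x :=
  strip_altAD (m := 2845415833) false rfl hκ (SH.κ0 hκ (SH.hx1 hx).le (SH.hx2 hx').le) (SH.hx1 hx).le (SH.hx2 hx') (covB00).cov (covB01).cov hx hx' c_A00pm_012_s3 H (noExt_A)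

noncomputable def cut_A00pm_022_s1 : Cut := Cut.of [[⟨4, 0, 0, 1449551462⟩], [⟨0, 0, 0, 22369621⟩, ⟨1, 1, 0, 22369621⟩, ⟨2, 1, 0, 22369621⟩]]

noncomputable def f_A00pm_022_s1 : ℕ → ℕ → ℕ → ℕ → Bool := onCell 1073741824 536870912 0 536870912 1040187392 5207648
    (rowF 2 true true false .pp 0 2 2 (qsf 0 536870912 0 536870912 2) ndB0q0 ndB0q2 pcB2 cut_A00pm_022_s1 Ext.none)

def k0_A00pm_022_s1 : ∃ t, chk3 f_A00pm_022_s1 t 4 2 1 = true :=
  ⟨(a (l 1) (l 6)), by decide +kernel⟩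

def k1_A00pm_022_s1 : ∃ t, chk3 f_A00pm_022_s1 t 8 6 1 = true :=
  ⟨(l 1), by decide +kernel⟩

def k2_A00pm_022_s1 : ∃ t, chk3 f_A00pm_022_s1 t 8 14 1 = true :=
  ⟨(a (l 1) (b (a (l 1) (l 16380832)) (b (a (l 1) (l 16524536)) (a (l 16508776) (l 16562968))))), by decide +kernel⟩

def k3_A00pm_022_s1 : ∃ t, chk3 f_A00pm_022_s1 t 32 15 1 = true :=
  ⟨(b (l 1) (l 14)), by decide +kernel⟩

def k4_A00pm_022_s1 : ∃ t, chk3 f_A00pm_022_s1 t 66 15 1 = true :=
  ⟨(a (b (l 1) (l 14)) (b (b (l 1) (b (l 1) (b (b (l 1) (a (l 1) (b (l 16566856) (a (l 16572720) (b (l 16571344) (l 16573568)))))) (a (b (a (l 1) (b (l 1) (b (l 16577984) (l 16581376)))) (a (l 16587672) (a (l 16586736) (l 16580008)))) (b (b (b (a (a (l 1) (c (b (a (l 16573960) (l 16574536)) (l 16575656)) (b (b (l 16572440) (a (a (l 1) (c (l 16573248) (l 16572488))) (b (l 16573160) (c (l 16573824) (l 16573064))))) (a (l 16573872) (l 16574440))))) (b (c (l 16576000) (a (l 16573904) (l 16575088)))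 (c (a (l 16576784) (b (l 16577520) (l 16578352))) (b (b (c (a (l 16575032) (l 16576192)) (b (a (b (l 16574136) (l 16574224)) (l 16575352)) (l 16574960))) (l 16573032)) (l 16576288))))) (c (a (a (l 16577048) (l 16578176)) (l 16579888)) (a (a (l 16575552) (l 16576688)) (c (l 16578768) (l 16578024))))) (a (a (c (l 16582104) (l 16580640)) (l 16572024)) (c (l 16584952) (l 16573016)))) (a (l 16581720) (l 16584024))))))) (b (b (b (a (b (a (l 14) (l 16603792)) (l 16616736)) (b (l 16586288) (l 16621392))) (a (l 16617256) (l 16601016))) (b (l 16648912) (l 16657696))) (b (l 16702344) (a (l 16622304) (l 16613056)))))), by decide +kernel⟩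

def k5_A00pm_022_s1 : ∃ t, chk3 f_A00pm_022_s1 t 67 15 1 = true :=
  ⟨(b (b (b (l 1) (l 16525736)) (b (b (l 16545256) (a (l 16555320) (l 16565552))) (b (b (a (l 16567648) (l 16577760)) (a (b (l 16553112) (a (a (l 16574840) (l 16577256)) (l 16575688))) (a (a (l 16582488) (l 16585024)) (l 16588880)))) (a (b (b (b (b (a (c (l 16579576) (a (l 16576880) (l 16579288))) (c (l 16584440) (l 16582968))) (a (c (b (a (b (l 16579088) (l 16579448)) (l 16581648)) (l 16581240)) (b (a (c (b (l 16577968) (l 16578328)) (b (a (b (l 16576536) (l 16576696)) (l 16577816)) (l 16577584))) (b (l 16579992) (a (l 16579712) (l 16580904)))) (a (l 16578592) (l 16580928)))) (c (b (l 16585288) (l 16575464)) (a (b (c (l 16582952) (l 16582216)) (l 16583288)) (b (l 16585048) (c (l 16586056) (b (l 16585128) (l 16585528)))))))) (a (c (l 16572864) (a (l 16580712) (l 16583048))) (a (l 16580904) (l 16578048)))) (a (a (l 16581304) (l 16578400)) (c (l 16593160) (l 16581256))))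 (a (c (l 16598704) (l 16586848)) (c (l 16603464) (l 16591632)))) (b (b (b (a (c (l 16579528) (a (b (l 16586712) (b (l 16587544) (b (l 16587976) (l 16588312)))) (l 16584576))) (c (l 16595064) (l 16588408))) (a (c (l 16592880) (l 16580968)) (a (l 16585368) (a (l 16587232) (l 16593736))))) (c (l 16589968) (a (l 16586120) (l 16601576)))) (a (l 16597192) (l 16591696))))))) (b (b (b (a (b (a (l 16611976) (l 16616792)) (l 16607592)) (a (l 16607856) (l 16612904))) (a (a (l 16605840) (l 16610768)) (l 16639320))) (b (a (l 16637776) (l 16606048)) (b (l 16665320) (l 16638424)))) (b (a (l 16691232) (l 16672936)) (a (a (l 16603640) (l 16594296)) (a (l 16584880) (l 16575496)))))), by decide +kernel⟩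

def k6_A00pm_022_s1 : ∃ t, chk3 f_A00pm_022_s1 t 17 15 1 = true :=
  ⟨(b (b (a (b (l 16538344) (b (l 16553976) (l 16565392))) (b (l 16591256) (l 16527344))) (b (a (a (b (l 16566960) (l 16581768)) (l 16597576)) (a (l 16622800) (l 16648720))) (a (a (b (b (a (l 16588336) (l 16599368)) (a (b (l 16594648) (l 16598944)) (l 16597248))) (a (a (b (b (b (l 16599568) (b (b (a (l 16589184) (l 16602288)) (l 16601736)) (l 16603024))) (l 16596840)) (l 16617760)) (b (b (b (l 16604904) (c (l 16608048) (b (l 16600704) (l 16607512)))) (l 16612496)) (l 16622960))) (b (b (a (b (l 16610344) (b (l 16606776) (l 16602960))) (l 16617120)) (c (l 16621088) (l 16609344))) (c (l 16631552) (l 16619880))))) (b (b (l 16616752) (l 16624992)) (b (b (a (l 16625632) (l 16637328)) (a (l 16631448) (l 16642848))) (a (l 16642000) (l 16653464))))) (b (a (l 16645328) (l 16669528)) (a (b (b (l 16655400) (l 16618400)) (l 16586952)) (b (l 16597144) (l 16608728))))))) (b (a (b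 (a (b (a (a (l 16618064) (l 16602344)) (a (l 16607704) (l 16613168))) (a (l 16628800) (l 16639648))) (b (a (l 16621616) (l 16591104)) (a (l 16608960) (l 16620360)))) (a (b (b (l 16656488) (l 16671648)) (a (l 16646888) (l 16632824))) (a (l 16669416) (l 16609368)))) (b (a (a (l 16616968) (l 16624360)) (l 16599288)) (a (b (l 16595976) (l 16570840)) (a (l 16559072) (l 16627920))))) (a (a (a (b (l 16654520) (l 16603448)) (b (l 16636192) (l 16585296))) (b (a (l 16576016) (l 16558544)) (a (l 16567800) (l 16593144)))) (b (a (a (l 16625728) (l 16609880)) (a (l 16595080) (l 16581504))) (a (a (l 16577464) (l 16562920)) (a (l 16549680) (l 16537936))))))), by decide +kernel⟩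

def k7_A00pm_022_s1 : ∃ t, chk3 f_A00pm_022_s1 t 9 3 1 = true :=
  ⟨(b (a (b (l 1) (b (a (l 1) (l 16507392)) (a (l 16470048) (l 16466232)))) (b (l 6) (b (a (l 16569288) (l 6)) (a (l 16576664) (l 16481944))))) (b (a (b (a (l 16448496) (l 16523072)) (b (a (l 16504640) (l 16644928)) (a (l 16539840) (l 16636448)))) (b (a (l 16573640) (l 16411984)) (b (a (l 16566488) (l 16507760)) (a (l 16573640) (l 16526496))))) (b (a (b (a (b (l 16647592) (l 16581024)) (b (l 16635456) (l 16551432))) (a (b (l 16600408) (b (l 16595768) (a (b (l 16604688) (l 16596416)) (l 16634768)))) (b (a (l 16645008) (l 16621992)) (a (b (l 16638664) (l 16590288)) (b (l 16618896) (l 16615120)))))) (b (a (b (l 16582824) (l 16590760)) (l 16469648)) (a (b (a (l 16603736) (l 16588968)) (a (l 16581688) (l 16589032))) (a (l 16574872) (l 16559536))))) (a (b (a (a (b (l 16568784) (l 16565632)) (b (l 16542928) (a (l 16590360) (l 16581376)))) (a (b (l 16565400) (a (l 16573344)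 (l 16566584))) (b (l 16550624) (l 16557912)))) (a (a (b (l 16521896) (a (l 16527840) (l 16519752))) (b (a (l 16550136) (l 16542760)) (a (l 16512896) (l 16507136)))) (a (b (l 16533768) (l 16498632)) (b (l 16522232) (l 16487416))))) (b (a (a (b (l 16580888) (l 16546104)) (b (l 16568592) (l 16533864))) (a (l 16537984) (l 16522944))) (a (a (b (l 16510608) (l 16475616)) (l 16480184)) (a (l 16464288) (l 16447808)))))))), by decide +kernel⟩

def k8_A00pm_022_s1 : ∃ t, chk3 f_A00pm_022_s1 t 5 1 1 = true :=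
  ⟨(b (l 6) (b (a (a (b (l 6) (b (l 6) (a (l 16397448) (l 6)))) (l 6)) (l 6)) (b (a (a (b (a (l 16432288) (l 16385032)) (a (b (l 16464744) (l 16490424)) (l 16349736))) (b (l 16139152) (a (l 16387040) (l 16337320)))) (l 6)) (a (a (b (a (b (l 16518576) (a (l 16542496) (l 16522512))) (b (l 16475984) (l 16490856))) (a (b (a (l 16505024) (l 16486280)) (a (l 16429744) (l 16410328))) (a (b (l 16466040) (l 16392840)) (a (l 16332312) (a (l 16326440) (b (l 16440072) (l 16372488))))))) (b (b (l 16403536) (l 16423416)) (b (l 16397008) (l 16329072)))) (b (b (l 16183208) (l 16299088)) (a (l 16116600) (l 16127336))))))), by decide +kernel⟩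

def k9_A00pm_022_s1 : ∃ t, chk3 f_A00pm_022_s1 t 3 1 1 = true :=
  ⟨(b (l 6) (l 6)), by decide +kernel⟩

theorem t10_A00pm_022_s1 : ∃ t, chk3 f_A00pm_022_s1 t 33 15 1 = true := ex3_a k4_A00pm_022_s1 k5_A00pm_022_s1

theorem t11_A00pm_022_s1 : ∃ t, chk3 f_A00pm_022_s1 t 16 15 1 = true := ex3_a k3_A00pm_022_s1 t10_A00pm_022_s1

theorem t12_A00pm_022_s1 : ∃ t, chk3 f_A00pm_022_s1 t 8 15 1 = true := ex3_a t11_A00pm_022_s1 k6_A00pm_022_s1

theorem t13_A00pm_022_s1 : ∃ t, chk3 f_A00pm_022_s1 t 8 7 1 = true := ex3_b k2_A00pm_022_s1 t12_A00pm_022_s1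

theorem t14_A00pm_022_s1 : ∃ t, chk3 f_A00pm_022_s1 t 8 3 1 = true := ex3_b k1_A00pm_022_s1 t13_A00pm_022_s1

theorem t15_A00pm_022_s1 : ∃ t, chk3 f_A00pm_022_s1 t 4 3 1 = true := ex3_a t14_A00pm_022_s1 k7_A00pm_022_s1

theorem t16_A00pm_022_s1 : ∃ t, chk3 f_A00pm_022_s1 t 4 1 1 = true := ex3_b k0_A00pm_022_s1 t15_A00pm_022_s1

theorem t17_A00pm_022_s1 : ∃ t, chk3 f_A00pm_022_s1 t 2 1 1 = true := ex3_a t16_A00pm_022_s1 k8_A00pm_022_s1

theorem t18_A00pm_022_s1 : ∃ t, chk3 f_A00pm_022_s1 t 1 1 1 = true := ex3_a t17_A00pm_022_s1 k9_A00pm_022_s1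

theorem c_A00pm_022_s1 : CertF 0 536870912 0 536870912 1040187392 5207648 true true false .pp 0 2 2
    ndB0q0 ndB0q2 pcB2 cut_A00pm_022_s1 Ext.none :=
  certF2 (fam := true) (s1 := true) (s2 := false) (a := 0) (b := 2) (c := 2) (cn := .pp) (n1 := ndB0q0) (n2 := ndB0q2) (pc := pcB2) (cut := cut_A00pm_022_s1) (xt := Ext.none) (P1 := 0) (W1 := 536870912) (P2 := 0) (W2 := 536870912) (P3 := 1040187392) (W3 := 5207648)
    rfl (fun _ => rfl) t18_A00pm_022_s1

theorem s_A00pm_022_s1 {κ x : ℝ} (hκ : κ * h0 = ken x) (hx : ((1040187392 : ℕ) : ℝ) / S ≤ x)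
    (hx' : x ≤ (((1040187392 : ℕ) : ℝ) + (5207648 : ℕ)) / S)
    (H : CutA (VFD κ) PP tK tL pcB (Cut.of [[⟨0, 0, 0, 22369621⟩, ⟨1, 1, 0, 22369621⟩, ⟨2, 1, 0, 22369621⟩]]) 0 2 2 0 0 (sgb true) (sgb false) x) :
    AltA (VFD κ) PP tK tL pcB [⟨3, 0, 0, 1449551462⟩] 0 2 2 0 0 (sgb true) (sgb false) x :=
  strip_altAD (m := 1449551462) true rfl hκ (SH.κ0 hκ (SH.hx1 hx).le (SH.hx2 hx').le) (SH.hx1 hx).le (SH.hx2 hx') (covB00).cov (covB02).cov hx hx' c_A00pm_022_s1 H (noExt_A)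

noncomputable def cut_A00pm_022_s3 : Cut := Cut.of [[⟨3, 0, 0, 2845415833⟩], [⟨0, 0, 0, 22369621⟩, ⟨1, 1, 0, 22369621⟩, ⟨2, 1, 0, 22369621⟩]]

noncomputable def f_A00pm_022_s3 : ℕ → ℕ → ℕ → ℕ → Bool := onCell 1073741824 536870912 0 536870912 1040187392 5207648
    (rowF 2 true true false .pp 0 2 2 (qsf 0 536870912 0 536870912 2) ndB0q0 ndB0q2 pcB2 cut_A00pm_022_s3 Ext.none)

def k0_A00pm_022_s3 : ∃ t, chk3 f_A00pm_022_s3 t 1 1 1 = true :=
  ⟨(a (l 6) (b (l 6) (l 6))), by decide +kernel⟩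

theorem c_A00pm_022_s3 : CertF 0 536870912 0 536870912 1040187392 5207648 true true false .pp 0 2 2
    ndB0q0 ndB0q2 pcB2 cut_A00pm_022_s3 Ext.none :=
  certF2 (fam := true) (s1 := true) (s2 := false) (a := 0) (b := 2) (c := 2) (cn := .pp) (n1 := ndB0q0) (n2 := ndB0q2) (pc := pcB2) (cut := cut_A00pm_022_s3) (xt := Ext.none) (P1 := 0) (W1 := 536870912) (P2 := 0) (W2 := 536870912) (P3 := 1040187392) (W3 := 5207648)
    rfl (fun _ => rfl) k0_A00pm_022_s3

theorem s_A00pm_022_s3 {κ x : ℝ} (hκ : κ * h0 = ken x) (hx : ((1040187392 : ℕ) : ℝ) / S ≤ x)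
    (hx' : x ≤ (((1040187392 : ℕ) : ℝ) + (5207648 : ℕ)) / S)
    (H : CutA (VFD κ) PP tK tL pcB (Cut.of [[⟨0, 0, 0, 22369621⟩, ⟨1, 1, 0, 22369621⟩, ⟨2, 1, 0, 22369621⟩]]) 0 2 2 0 0 (sgb true) (sgb false) x) :
    AltA (VFD κ) PP tK tL pcB [⟨4, 0, 0, 2845415833⟩] 0 2 2 0 0 (sgb true) (sgb false) x :=
  strip_altAD (m := 2845415833) false rfl hκ (SH.κ0 hκ (SH.hx1 hx).le (SH.hx2 hx').le) (SH.hx1 hx).le (SH.hx2 hx') (covB00).cov (covB02).cov hx hx' c_A00pm_022_s3 H (noExt_A)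

noncomputable def cut_A00pm_023_s1 : Cut := Cut.of [[⟨4, 0, 0, 1449551462⟩]]

noncomputable def f_A00pm_023_s1 : ℕ → ℕ → ℕ → ℕ → Bool := onCell 1610612736 536870912 0 536870912 1040187392 5207648
    (rowF 2 true true false .up 0 2 3 (qsf 0 536870912 0 536870912 3) ndB0q0 ndB0q2 pcB3 cut_A00pm_023_s1 Ext.none)

def k0_A00pm_023_s1 : ∃ t, chk3 f_A00pm_023_s1 t 1 1 1 = true :=
  ⟨(l 6), by decide +kernel⟩

theorem c_A00pm_023_s1 : CertF 0 536870912 0 536870912 1040187392 5207648 true true false .up 0 2 3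
    ndB0q0 ndB0q2 pcB3 cut_A00pm_023_s1 Ext.none :=
  certF2 (fam := true) (s1 := true) (s2 := false) (a := 0) (b := 2) (c := 3) (cn := .up) (n1 := ndB0q0) (n2 := ndB0q2) (pc := pcB3) (cut := cut_A00pm_023_s1) (xt := Ext.none) (P1 := 0) (W1 := 536870912) (P2 := 0) (W2 := 536870912) (P3 := 1040187392) (W3 := 5207648)
    rfl (fun _ => rfl) k0_A00pm_023_s1

theorem s_A00pm_023_s1 {κ x : ℝ} (hκ : κ * h0 = ken x) (hx : ((1040187392 : ℕ) : ℝ) / S ≤ x)
    (hx' : x ≤ (((1040187392 : ℕ) : ℝ) + (5207648 : ℕ)) / S) :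
    AltA (VFD κ) PP tK tL pcB [⟨3, 0, 0, 1449551462⟩] 0 2 3 0 0 (sgb true) (sgb false) x :=
  strip_altAD (m := 1449551462) true rfl hκ (SH.κ0 hκ (SH.hx1 hx).le (SH.hx2 hx').le) (SH.hx1 hx).le (SH.hx2 hx') (covB00).cov (covB02).cov hx hx' c_A00pm_023_s1 cutA_nil (noExt_A)

noncomputable def cut_A00pm_023_s3 : Cut := Cut.of [[⟨3, 0, 0, 2845415833⟩]]

noncomputable def xt_A00pm_023_s3 : Ext := strExt dd true true false .u0 .u2 .s2 .up 0 2 3 rfl rfl gl3 vv ndB0q0 ndB0q2

noncomputable def f_A00pm_023_s3 : ℕ → ℕ → ℕ → ℕ → Bool := onCell 0 536870912 0 536870912 1040187392 5207648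
    (rowF 0 true true false .up 0 2 3 (qsf 0 536870912 0 536870912 3) ndB0q0 ndB0q2 pcB3 cut_A00pm_023_s3 xt_A00pm_023_s3)

def k0_A00pm_023_s3 : ∃ t, chk3 f_A00pm_023_s3 t 1 1 1 = true :=
  ⟨(a (l 1) (b (a (b (a (l 1) (a (l 6) (b (b (l 16338216) (l 6)) (l 6)))) (l 6)) (b (a (b (a (b (l 16417696) (l 6)) (l 16374680)) (l 6)) (b (a (l 531192079) (l 531267343)) (a (b (b (l 16453928) (l 16340224)) (l 6)) (b (l 16496704) (b (a (l 16442872) (l 16469016)) (l 16344984)))))) (b (l 6) (l 6)))) (l 6))), by decide +kernel⟩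

theorem c_A00pm_023_s3 : CertF 0 536870912 0 536870912 1040187392 5207648 true true false .up 0 2 3
    ndB0q0 ndB0q2 pcB3 cut_A00pm_023_s3 xt_A00pm_023_s3 :=
  certF0 (fam := true) (s1 := true) (s2 := false) (a := 0) (b := 2) (c := 3) (cn := .up) (n1 := ndB0q0) (n2 := ndB0q2) (pc := pcB3) (cut := cut_A00pm_023_s3) (xt := xt_A00pm_023_s3) (P1 := 0) (W1 := 536870912) (P2 := 0) (W2 := 536870912) (P3 := 1040187392) (W3 := 5207648)
    rfl k0_A00pm_023_s3

theorem s_A00pm_023_s3 {κ x : ℝ} (hκ : κ * h0 = ken x) (hx : ((1040187392 : ℕ) : ℝ) / S ≤ x)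
    (hx' : x ≤ (((1040187392 : ℕ) : ℝ) + (5207648 : ℕ)) / S) :
    AltA (VFD κ) PP tK tL pcB [⟨4, 0, 0, 2845415833⟩] 0 2 3 0 0 (sgb true) (sgb false) x :=
  strip_altAD (m := 2845415833) false rfl hκ (SH.κ0 hκ (SH.hx1 hx).le (SH.hx2 hx').le) (SH.hx1 hx).le (SH.hx2 hx') (covB00).cov (covB02).cov hx hx' c_A00pm_023_s3 cutA_nil ((okx hx hx').extA (T := tt) (sideB hx hx') hκ rfl rfl (.O 0 true) (.O 2 false) (Or.inr rfl))

noncomputable def cut_A00pm_101_s1 : Cut := Cut.of [[⟨4, 0, 0, 1449551462⟩], [⟨0, 1, 0, 26843545⟩, ⟨1, 0, 0, 26843545⟩, ⟨2, 1, 0, 26843545⟩]]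

noncomputable def f_A00pm_101_s1 : ℕ → ℕ → ℕ → ℕ → Bool := onCell 536870912 536870912 536870912 536870912 1040187392 5207648
    (rowF 1 true true false .npn 1 0 1 (qsf 536870912 536870912 0 536870912 1) ndB0q1 ndB0q0 pcB1 cut_A00pm_101_s1 Ext.none)

def k0_A00pm_101_s1 : ∃ t, chk3 f_A00pm_101_s1 t 1 1 1 = true :=
  ⟨(b (l 3) (a (l 3) (b (l 3) (a (l 3) (b (l 3) (a (l 3) (b (l 3) (a (l 3) (b (l 3) (a (l 3) (l 14))))))))))), by decide +kernel⟩

theorem c_A00pm_101_s1 : CertF 536870912 536870912 0 536870912 1040187392 5207648 true true false .npn 1 0 1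
    ndB0q1 ndB0q0 pcB1 cut_A00pm_101_s1 Ext.none :=
  certF1 (fam := true) (s1 := true) (s2 := false) (a := 1) (b := 0) (c := 1) (cn := .npn) (n1 := ndB0q1) (n2 := ndB0q0) (pc := pcB1) (cut := cut_A00pm_101_s1) (xt := Ext.none) (P1 := 536870912) (W1 := 536870912) (P2 := 0) (W2 := 536870912) (P3 := 1040187392) (W3 := 5207648)
    rfl (fun _ => rfl) k0_A00pm_101_s1

theorem s_A00pm_101_s1 {κ x : ℝ} (hκ : κ * h0 = ken x) (hx : ((1040187392 : ℕ) : ℝ) / S ≤ x)
    (hx' : x ≤ (((1040187392 : ℕ) : ℝ) + (5207648 : ℕ)) / S)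
    (H : CutA (VFD κ) PP tK tL pcB (Cut.of [[⟨0, 1, 0, 26843545⟩, ⟨1, 0, 0, 26843545⟩, ⟨2, 1, 0, 26843545⟩]]) 1 0 1 0 0 (sgb true) (sgb false) x) :
    AltA (VFD κ) PP tK tL pcB [⟨3, 0, 0, 1449551462⟩] 1 0 1 0 0 (sgb true) (sgb false) x :=
  strip_altAD (m := 1449551462) true rfl hκ (SH.κ0 hκ (SH.hx1 hx).le (SH.hx2 hx').le) (SH.hx1 hx).le (SH.hx2 hx') (covB01).cov (covB00).cov hx hx' c_A00pm_101_s1 H (noExt_A)

noncomputable def cut_A00pm_101_s3 : Cut := Cut.of [[⟨3, 0, 0, 2845415833⟩], [⟨0, 1, 0, 26843545⟩, ⟨1, 0, 0, 26843545⟩, ⟨2, 1, 0, 26843545⟩]]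

noncomputable def f_A00pm_101_s3 : ℕ → ℕ → ℕ → ℕ → Bool := onCell 536870912 536870912 0 536870912 1040187392 5207648
    (rowF 0 true true false .npn 1 0 1 (qsf 536870912 536870912 0 536870912 1) ndB0q1 ndB0q0 pcB1 cut_A00pm_101_s3 Ext.none)

def k0_A00pm_101_s3 : ∃ t, chk3 f_A00pm_101_s3 t 1 1 1 = true :=
  ⟨(l 6), by decide +kernel⟩

theorem c_A00pm_101_s3 : CertF 536870912 536870912 0 536870912 1040187392 5207648 true true false .npn 1 0 1
    ndB0q1 ndB0q0 pcB1 cut_A00pm_101_s3 Ext.none :=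
  certF0 (fam := true) (s1 := true) (s2 := false) (a := 1) (b := 0) (c := 1) (cn := .npn) (n1 := ndB0q1) (n2 := ndB0q0) (pc := pcB1) (cut := cut_A00pm_101_s3) (xt := Ext.none) (P1 := 536870912) (W1 := 536870912) (P2 := 0) (W2 := 536870912) (P3 := 1040187392) (W3 := 5207648)
    rfl k0_A00pm_101_s3

theorem s_A00pm_101_s3 {κ x : ℝ} (hκ : κ * h0 = ken x) (hx : ((1040187392 : ℕ) : ℝ) / S ≤ x)
    (hx' : x ≤ (((1040187392 : ℕ) : ℝ) + (5207648 : ℕ)) / S)
    (H : CutA (VFD κ) PP tK tL pcB (Cut.of [[⟨0, 1, 0, 26843545⟩, ⟨1, 0, 0, 26843545⟩, ⟨2, 1, 0, 26843545⟩]]) 1 0 1 0 0 (sgb true) (sgb false) x) :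
    AltA (VFD κ) PP tK tL pcB [⟨4, 0, 0, 2845415833⟩] 1 0 1 0 0 (sgb true) (sgb false) x :=
  strip_altAD (m := 2845415833) false rfl hκ (SH.κ0 hκ (SH.hx1 hx).le (SH.hx2 hx').le) (SH.hx1 hx).le (SH.hx2 hx') (covB01).cov (covB00).cov hx hx' c_A00pm_101_s3 H (noExt_A)

noncomputable def cut_A00pm_102_s3 : Cut := Cut.of [[⟨3, 0, 0, 2845415833⟩], [⟨0, 1, 0, 16777216⟩, ⟨1, 0, 0, 16777216⟩, ⟨2, 1, 0, 16777216⟩]]

noncomputable def f_A00pm_102_s3 : ℕ → ℕ → ℕ → ℕ → Bool := onCell 536870912 536870912 0 536870912 1040187392 5207648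
    (rowF 0 true true false .npp 1 0 2 (qsf 536870912 536870912 0 536870912 2) ndB0q1 ndB0q0 pcB2 cut_A00pm_102_s3 Ext.none)

def k0_A00pm_102_s3 : ∃ t, chk3 f_A00pm_102_s3 t 1 1 1 = true :=
  ⟨(l 6), by decide +kernel⟩

theorem c_A00pm_102_s3 : CertF 536870912 536870912 0 536870912 1040187392 5207648 true true false .npp 1 0 2
    ndB0q1 ndB0q0 pcB2 cut_A00pm_102_s3 Ext.none :=
  certF0 (fam := true) (s1 := true) (s2 := false) (a := 1) (b := 0) (c := 2) (cn := .npp) (n1 := ndB0q1) (n2 := ndB0q0) (pc := pcB2) (cut := cut_A00pm_102_s3) (xt := Ext.none) (P1 := 536870912) (W1 := 536870912) (P2 := 0) (W2 := 536870912) (P3 := 1040187392) (W3 := 5207648)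
    rfl k0_A00pm_102_s3

theorem s_A00pm_102_s3 {κ x : ℝ} (hκ : κ * h0 = ken x) (hx : ((1040187392 : ℕ) : ℝ) / S ≤ x)
    (hx' : x ≤ (((1040187392 : ℕ) : ℝ) + (5207648 : ℕ)) / S)
    (H : CutA (VFD κ) PP tK tL pcB (Cut.of [[⟨0, 1, 0, 16777216⟩, ⟨1, 0, 0, 16777216⟩, ⟨2, 1, 0, 16777216⟩]]) 1 0 2 0 0 (sgb true) (sgb false) x) :
    AltA (VFD κ) PP tK tL pcB [⟨4, 0, 0, 2845415833⟩] 1 0 2 0 0 (sgb true) (sgb false) x :=
  strip_altAD (m := 2845415833) false rfl hκ (SH.κ0 hκ (SH.hx1 hx).le (SH.hx2 hx').le) (SH.hx1 hx).le (SH.hx2 hx') (covB01).cov (covB00).cov hx hx' c_A00pm_102_s3 H (noExt_A)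

noncomputable def cut_A00pm_112_s1 : Cut := Cut.of [[⟨4, 0, 0, 1449551462⟩]]

noncomputable def xt_A00pm_112_s1 : Ext := strExt dd true true false .u0 .u0m .u2 .dn 1 1 2 rfl rfl gf2 vv ndB0q1 ndB0q1

noncomputable def f_A00pm_112_s1 : ℕ → ℕ → ℕ → ℕ → Bool := onCell 536870912 536870912 1073741824 536870912 1040187392 5207648
    (rowF 1 true true false .dn 1 1 2 (qsf 536870912 536870912 536870912 536870912 2) ndB0q1 ndB0q1 pcB2 cut_A00pm_112_s1 xt_A00pm_112_s1)

def k0_A00pm_112_s1 : ∃ t, chk3 f_A00pm_112_s1 t 2 4 1 = true :=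
  ⟨(b (l 3) (l 3)), by decide +kernel⟩

def k1_A00pm_112_s1 : ∃ t, chk3 f_A00pm_112_s1 t 2 5 1 = true :=
  ⟨(b (a (b (b (l 3) (b (l 3) (b (a (l 528307007) (l 3)) (b (a (l 528591423) (a (l 3) (l 528605263))) (b (b (a (l 528598319) (l 528602415)) (b (b (a (l 528600111) (l 528604207)) (b (a (l 528600623) (l 528604719)) (b (a (l 528600879) (l 528604975)) (a (a (a (a (l 16768936) (l 16770456)) (a (l 16771808) (l 16772984))) (a (a (a (l 16773760) (l 16774216)) (a (l 16774632) (l 16775000))) (a (a (l 16775336) (l 16775624)) (a (l 16775864) (l 16776072))))) (a (a (a (a (l 16776232) (l 16776352)) (a (l 16776432) (l 16776464))) (a (a (l 16776456) (l 16776408)) (a (l 16776320) (l 16776184)))) (a (a (a (l 16776008) (l 16775792)) (a (l 16775536) (l 16775232))) (a (a (l 16774888) (l 16774504)) (a (l 16774072) (l 16773600))))))))) (a (l 528601439) (l 528605791)))) (a (l 528604255) (l 528608607))))))) (a (l 528667743) (l 528671071))) (a (b (b (l 3)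 (a (b (l 3) (b (l 528573007) (b (l 528590159) (b (b (l 528597551) (a (a (a (l 16773056) (l 16772496)) (l 16768952)) (a (l 16770192) (l 16768640)))) (l 528604255))))) (b (l 1) (b (l 1) (a (a (b (l 1) (l 181495890487)) (l 1)) (l 1)))))) (a (l 528676447) (a (l 528671583) (b (a (l 168074038375) (l 1)) (l 16664096))))) (b (l 1) (a (b (l 1) (a (l 161631505511) (l 1))) (l 1))))) (a (a (a (b (b (a (l 16668664) (l 16672640)) (l 16631472)) (a (b (l 16589144) (l 16546672)) (l 16575216))) (b (l 528843103) (b (l 16600736) (l 16562520)))) (b (l 528831839) (l 528984415))) (a (a (l 528898143) (l 528881503)) (b (a (b (a (l 16666584) (l 16618696)) (a (l 16631888) (l 16626784))) (a (l 173979315943) (l 1))) (a (b (l 16595016) (l 16560704)) (a (b (l 16585056) (l 16552504)) (l 16554912))))))), by decide +kernel⟩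

def k2_A00pm_112_s1 : ∃ t, chk3 f_A00pm_112_s1 t 2 3 1 = true :=
  ⟨(b (b (a (a (b (a (b (l 16507656) (l 16461296)) (b (l 16524192) (l 16485112))) (a (l 16385256) (a (l 16416872) (l 16429088)))) (b (l 529130591) (a (l 16437264) (l 16443520)))) (a (a (l 529199471) (l 529192559)) (a (b (l 16509352) (l 16441160)) (b (a (l 16502704) (l 16493560)) (l 16432624))))) (b (a (a (a (l 16275024) (l 16330120)) (a (l 16359544) (l 16370072))) (a (l 529405807) (a (l 16373056) (l 16366752)))) (a (a (l 6) (l 6)) (l 6)))) (a (l 6) (l 6))), by decide +kernel⟩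

def k3_A00pm_112_s1 : ∃ t, chk3 f_A00pm_112_s1 t 3 1 1 = true :=
  ⟨(b (a (b (l 1) (b (l 1) (a (a (b (l 1) (l 163778512599)) (l 1)) (l 1)))) (l 1)) (b (b (a (a (a (b (l 16382600) (l 16408552)) (b (l 16332592) (l 16360264))) (a (b (l 1) (l 16294448)) (l 1))) (l 1)) (b (a (a (a (l 16349936) (l 16306128)) (a (l 16241832) (l 16157344))) (l 1)) (a (l 6) (l 6)))) (l 6))), by decide +kernel⟩

theorem t4_A00pm_112_s1 : ∃ t, chk3 f_A00pm_112_s1 t 2 2 1 = true := ex3_b k0_A00pm_112_s1 k1_A00pm_112_s1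

theorem t5_A00pm_112_s1 : ∃ t, chk3 f_A00pm_112_s1 t 2 1 1 = true := ex3_b t4_A00pm_112_s1 k2_A00pm_112_s1

theorem t6_A00pm_112_s1 : ∃ t, chk3 f_A00pm_112_s1 t 1 1 1 = true := ex3_a t5_A00pm_112_s1 k3_A00pm_112_s1

theorem c_A00pm_112_s1 : CertF 536870912 536870912 536870912 536870912 1040187392 5207648 true true false .dn 1 1 2
    ndB0q1 ndB0q1 pcB2 cut_A00pm_112_s1 xt_A00pm_112_s1 :=
  certF1 (fam := true) (s1 := true) (s2 := false) (a := 1) (b := 1) (c := 2) (cn := .dn) (n1 := ndB0q1) (n2 := ndB0q1) (pc := pcB2) (cut := cut_A00pm_112_s1) (xt := xt_A00pm_112_s1) (P1 := 536870912) (W1 := 536870912) (P2 := 536870912) (W2 := 536870912) (P3 := 1040187392) (W3 := 5207648)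
    rfl (fun _ => rfl) t6_A00pm_112_s1

theorem s_A00pm_112_s1 {κ x : ℝ} (hκ : κ * h0 = ken x) (hx : ((1040187392 : ℕ) : ℝ) / S ≤ x)
    (hx' : x ≤ (((1040187392 : ℕ) : ℝ) + (5207648 : ℕ)) / S) :
    AltA (VFD κ) PP tK tL pcB [⟨3, 0, 0, 1449551462⟩] 1 1 2 0 0 (sgb true) (sgb false) x :=
  strip_altAD (m := 1449551462) true rfl hκ (SH.κ0 hκ (SH.hx1 hx).le (SH.hx2 hx').le) (SH.hx1 hx).le (SH.hx2 hx') (covB01).cov (covB01).cov hx hx' c_A00pm_112_s1 cutA_nil ((okx hx hx').extA (T := tt) (sideB hx hx') hκ rfl rfl (.O 1 true) (.O 1 false) rfl)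

noncomputable def cut_A00pm_112_s3 : Cut := Cut.of [[⟨3, 0, 0, 2845415833⟩]]

noncomputable def f_A00pm_112_s3 : ℕ → ℕ → ℕ → ℕ → Bool := onCell 536870912 536870912 1073741824 536870912 1040187392 5207648
    (rowF 1 true true false .dn 1 1 2 (qsf 536870912 536870912 536870912 536870912 2) ndB0q1 ndB0q1 pcB2 cut_A00pm_112_s3 Ext.none)

def k0_A00pm_112_s3 : ∃ t, chk3 f_A00pm_112_s3 t 1 1 1 = true :=
  ⟨(l 6), by decide +kernel⟩

theorem c_A00pm_112_s3 : CertF 536870912 536870912 536870912 536870912 1040187392 5207648 true true false .dn 1 1 2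
    ndB0q1 ndB0q1 pcB2 cut_A00pm_112_s3 Ext.none :=
  certF1 (fam := true) (s1 := true) (s2 := false) (a := 1) (b := 1) (c := 2) (cn := .dn) (n1 := ndB0q1) (n2 := ndB0q1) (pc := pcB2) (cut := cut_A00pm_112_s3) (xt := Ext.none) (P1 := 536870912) (W1 := 536870912) (P2 := 536870912) (W2 := 536870912) (P3 := 1040187392) (W3 := 5207648)
    rfl (fun _ => rfl) k0_A00pm_112_s3

theorem s_A00pm_112_s3 {κ x : ℝ} (hκ : κ * h0 = ken x) (hx : ((1040187392 : ℕ) : ℝ) / S ≤ x)
    (hx' : x ≤ (((1040187392 : ℕ) : ℝ) + (5207648 : ℕ)) / S) :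
    AltA (VFD κ) PP tK tL pcB [⟨4, 0, 0, 2845415833⟩] 1 1 2 0 0 (sgb true) (sgb false) x :=
  strip_altAD (m := 2845415833) false rfl hκ (SH.κ0 hκ (SH.hx1 hx).le (SH.hx2 hx').le) (SH.hx1 hx).le (SH.hx2 hx') (covB01).cov (covB01).cov hx hx' c_A00pm_112_s3 cutA_nil (noExt_A)

noncomputable def cut_A00pm_113_s1 : Cut := Cut.of [[⟨4, 0, 0, 1449551462⟩], [⟨0, 1, 0, 15728640⟩, ⟨1, 1, 0, 15728640⟩, ⟨2, 2, 0, 524288⟩], [⟨0, 0, 1, 46137344⟩, ⟨1, 1, 0, 1048576⟩, ⟨2, 1, 1, 46137344⟩, ⟨0, 0, 0, 1054867456⟩, ⟨0, 1, 0, 38117834⟩, ⟨2, 1, 0, 1054867456⟩, ⟨2, 2, 0, 38117834⟩], [⟨0, 1, 0, 1048576⟩, ⟨1, 0, 1, 46137344⟩, ⟨2, 1, 1, 46137344⟩, ⟨1, 0, 0, 1054867456⟩, ⟨1, 1, 0, 38117834⟩, ⟨2, 1, 0, 1054867456⟩, ⟨2, 2, 0, 38117834⟩]]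

noncomputable def f_A00pm_113_s1 : ℕ → ℕ → ℕ → ℕ → Bool := onCell 1610612736 536870912 536870912 536870912 1040187392 5207648
    (rowF 2 true true false .nn 1 1 3 (qsf 536870912 536870912 536870912 536870912 3) ndB0q1 ndB0q1 pcB3 cut_A00pm_113_s1 Ext.none)

def k0_A00pm_113_s1 : ∃ t, chk3 f_A00pm_113_s1 t 1 1 1 = true :=
  ⟨(a (b (a (l 6) (l 6)) (l 6)) (l 6)), by decide +kernel⟩

theorem c_A00pm_113_s1 : CertF 536870912 536870912 536870912 536870912 1040187392 5207648 true true false .nn 1 1 3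
    ndB0q1 ndB0q1 pcB3 cut_A00pm_113_s1 Ext.none :=
  certF2 (fam := true) (s1 := true) (s2 := false) (a := 1) (b := 1) (c := 3) (cn := .nn) (n1 := ndB0q1) (n2 := ndB0q1) (pc := pcB3) (cut := cut_A00pm_113_s1) (xt := Ext.none) (P1 := 536870912) (W1 := 536870912) (P2 := 536870912) (W2 := 536870912) (P3 := 1040187392) (W3 := 5207648)
    rfl (fun _ => rfl) k0_A00pm_113_s1

theorem s_A00pm_113_s1 {κ x : ℝ} (hκ : κ * h0 = ken x) (hx : ((1040187392 : ℕ) : ℝ) / S ≤ x)
    (hx' : x ≤ (((1040187392 : ℕ) : ℝ) + (5207648 : ℕ)) / S)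
    (H : CutA (VFD κ) PP tK tL pcB (Cut.of [[⟨0, 1, 0, 15728640⟩, ⟨1, 1, 0, 15728640⟩, ⟨2, 2, 0, 524288⟩], [⟨0, 0, 1, 46137344⟩, ⟨1, 1, 0, 1048576⟩, ⟨2, 1, 1, 46137344⟩, ⟨0, 0, 0, 1054867456⟩, ⟨0, 1, 0, 38117834⟩, ⟨2, 1, 0, 1054867456⟩, ⟨2, 2, 0, 38117834⟩], [⟨0, 1, 0, 1048576⟩, ⟨1, 0, 1, 46137344⟩, ⟨2, 1, 1, 46137344⟩, ⟨1, 0, 0, 1054867456⟩, ⟨1, 1, 0, 38117834⟩, ⟨2, 1, 0, 1054867456⟩, ⟨2, 2, 0, 38117834⟩]]) 1 1 3 0 0 (sgb true) (sgb false) x) :
    AltA (VFD κ) PP tK tL pcB [⟨3, 0, 0, 1449551462⟩] 1 1 3 0 0 (sgb true) (sgb false) x :=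
  strip_altAD (m := 1449551462) true rfl hκ (SH.κ0 hκ (SH.hx1 hx).le (SH.hx2 hx').le) (SH.hx1 hx).le (SH.hx2 hx') (covB01).cov (covB01).cov hx hx' c_A00pm_113_s1 H (noExt_A)

end Pool.Agent.Strip051.G.I9688_9736.Tab.St.C
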