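import Pool.Agent.Strip051.G.I9688_9736.StH
import Pool.Agent.Strip051.G.I9688_9736.StF

/-! # Unit strips 4 (generated) -/

set_option linter.all false
set_option maxRecDepth 100000

namespace Pool.Agent.Strip051.G.I9688_9736.Tab.St.C

open Pool.Agent.Strip051.PB Pool.Agent.Strip051.PB.T Pool.Agent.StripNear Pool.Agent.Strip051.LC
open Pool.Agent.Strip051.G.I9688_9736.Tab Pool.Agent.Strip051.G.I9688_9736.Tab.St

noncomputable def cut_A00pm_113_s3 : Cut := Cut.of [[⟨3, 0, 0, 3194381926⟩], [⟨0, 1, 0, 15728640⟩, ⟨1, 1, 0, 15728640⟩, ⟨2, 2, 0, 524288⟩], [⟨0, 0, 1, 46137344⟩, ⟨1, 1, 0, 1048576⟩, ⟨2, 1, 1, 46137344⟩, ⟨0, 0, 0, 1054867456⟩, ⟨0, 1, 0, 38117834⟩, ⟨2, 1, 0, 1054867456⟩, ⟨2, 2, 0, 38117834⟩], [⟨0, 1, 0, 1048576⟩, ⟨1, 0, 1, 46137344⟩, ⟨2, 1, 1, 46137344⟩, ⟨1, 0, 0, 1054867456⟩, ⟨1, 1, 0, 38117834⟩, ⟨2, 1, 0, 1054867456⟩, ⟨2, 2, 0, 38117834⟩]]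

noncomputable def f_A00pm_113_s3 : ℕ → ℕ → ℕ → ℕ → Bool := onCell 536870912 536870912 536870912 536870912 1040187392 5207648
    (rowF 0 true true false .nn 1 1 3 (qsf 536870912 536870912 536870912 536870912 3) ndB0q1 ndB0q1 pcB3 cut_A00pm_113_s3 Ext.none)

def k0_A00pm_113_s3 : ∃ t, chk3 f_A00pm_113_s3 t 2 1 1 = true :=
  ⟨(l 6), by decide +kernel⟩

def k1_A00pm_113_s3 : ∃ t, chk3 f_A00pm_113_s3 t 3 2 1 = true :=
  ⟨(l 6), by decide +kernel⟩

def k2_A00pm_113_s3 : ∃ t, chk3 f_A00pm_113_s3 t 6 3 1 = true :=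
  ⟨(l 6), by decide +kernel⟩

def k3_A00pm_113_s3 : ∃ t, chk3 f_A00pm_113_s3 t 7 6 1 = true :=
  ⟨(l 6), by decide +kernel⟩

def k4_A00pm_113_s3 : ∃ t, chk3 f_A00pm_113_s3 t 14 7 1 = true :=
  ⟨(l 6), by decide +kernel⟩

def k5_A00pm_113_s3 : ∃ t, chk3 f_A00pm_113_s3 t 15 14 1 = true :=
  ⟨(l 6), by decide +kernel⟩

def k6_A00pm_113_s3 : ∃ t, chk3 f_A00pm_113_s3 t 30 15 1 = true :=
  ⟨(l 6), by decide +kernel⟩

def k7_A00pm_113_s3 : ∃ t, chk3 f_A00pm_113_s3 t 31 30 1 = true :=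
  ⟨(l 6), by decide +kernel⟩

def k8_A00pm_113_s3 : ∃ t, chk3 f_A00pm_113_s3 t 62 31 1 = true :=
  ⟨(l 6), by decide +kernel⟩

def k9_A00pm_113_s3 : ∃ t, chk3 f_A00pm_113_s3 t 63 62 1 = true :=
  ⟨(l 6), by decide +kernel⟩

def k10_A00pm_113_s3 : ∃ t, chk3 f_A00pm_113_s3 t 126 63 1 = true :=
  ⟨(b (l 6) (b (l 6) (b (l 6) (a (l 6) (b (l 6) (a (l 6) (a (l 6) (b (a (l 6) (a (l 6) (b (l 6) (c (l 16774728) (l 16774816))))) (a (a (l 6) (b (l 6) (c (l 16772952) (l 16772976)))) (b (c (l 16774048) (c (l 16774088) (l 16774112))) (a (c (l 16773400) (l 16773424)) (a (c (c (l 16771088) (l 16771104)) (b (l 16773856) (b (l 16773696) (l 16770960)))) (c (b (l 16771400) (l 16773760)) (b (c (l 16774048) (l 16771440)) (b (l 16771240) (l 16773704)))))))))))))))), by decide +kernel⟩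

def k11_A00pm_113_s3 : ∃ t, chk3 f_A00pm_113_s3 t 254 126 1 = true :=
  ⟨(l 6), by decide +kernel⟩

def k12_A00pm_113_s3 : ∃ t, chk3 f_A00pm_113_s3 t 254 254 1 = true :=
  ⟨(b (l 6) (a (l 6) (a (l 6) (b (l 6) (a (l 16775360) (l 16774872)))))), by decide +kernel⟩

def k13_A00pm_113_s3 : ∃ t, chk3 f_A00pm_113_s3 t 254 510 1 = true :=
  ⟨(b (a (l 6) (b (a (a (l 6) (c (l 16781920) (l 16776664))) (c (l 16772968) (l 16772960))) (a (a (b (l 6) (c (l 16779512) (l 16776888))) (a (b (a (l 6) (c (l 16780400) (l 16780384))) (b (a (b (l 6) (l 16779648)) (c (l 16779792) (a (l 16779720) (l 16779808)))) (c (l 16779616) (l 16779608)))) (b (c (l 16780800) (l 16780784)) (b (c (l 16780128) (l 16780112)) (c (a (l 16777072) (l 16779848)) (a (a (l 16779656) (l 16779696)) (b (l 16779904) (l 16779736)))))))) (a (b (l 16778944) (c (l 16780664) (l 16778032))) (c (l 16771600) (l 16776840)))))) (a (a (l 6) (b (a (l 6) (c (l 16779072) (l 16779128)))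 (b (l 16778792) (a (l 16778560) (l 16778760))))) (a (b (a (c (l 16779280) (l 16779312)) (b (c (l 16776928) (l 16779552)) (c (l 16779384) (l 16779408)))) (a (l 16779008) (c (l 16779144) (l 16779192)))) (b (a (b (a (b (c (a (l 16779728) (l 16779896)) (a (b (l 16779752) (l 16779656)) (l 16779880))) (c (l 16779624) (c (l 16779624) (l 16777000)))) (b (l 16780240) (a (c (l 16779760) (a (l 16779696) (l 16779768))) (c (l 16779944) (l 16779928))))) (c (a (l 16779504) (b (l 16779624) (l 16779536))) (a (l 16779512) (b (c (l 16779624) (l 16779616)) (l 16779536))))) (b (c (l 16780752) (l 16780744)) (a (b (c (l 16779896) (a (b (l 16779840) (l 16779680)) (l 16779968))) (c (a (l 16779584) (l 16779656)) (a (l 16779584) (b (l 16779688) (l 16779592))))) (a (b (l 16780208) (c (l 16779808) (l 16779800))) (l 16780224))))) (a (c (l 16779296) (b (l 16779400) (l 16779248))) (b (a (c (l 16779472) (l 16779480)) (a (c (l 16779520) (l 16779512))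 (b (c (l 16779664) (a (l 16779608) (l 16779680))) (l 16779504)))) (c (l 16779336) (l 16779352)))))))), by decide +kernel⟩

def k14_A00pm_113_s3 : ∃ t, chk3 f_A00pm_113_s3 t 1016 1022 1 = true :=
  ⟨(b (b (l 6) (a (l 6) (a (l 6) (a (l 6) (b (l 6) (c (l 16778048) (b (l 16778240) (l 16778208)))))))) (b (a (l 6) (b (a (l 6) (c (l 16777792) (l 16777976))) (c (l 16777368) (c (l 16777496) (l 16777576))))) (a (a (l 6) (c (l 16776512) (l 16776656))) (a (c (l 16776792) (l 16776936)) (a (c (c (l 16776952) (l 16777024)) (a (l 16777104) (c (l 16777128) (a (l 16777184) (l 16777216))))) (c (b (b (l 16777328) (a (l 16777152) (l 16777216))) (c (l 16776928) (l 16774376))) (b (a (l 16777376) (l 16777432)) (l 16777096)))))))), by decide +kernel⟩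

def k15_A00pm_113_s3 : ∃ t, chk3 f_A00pm_113_s3 t 1017 1022 1 = true :=
  ⟨(b (b (a (c (l 16778352) (l 16778496)) (l 16778616)) (a (c (l 16778208) (b (l 16778408) (a (l 16778296) (l 16778392)))) (c (l 16778408) (l 16778552)))) (b (a (a (c (a (b (l 16777944) (a (l 16777632) (b (l 16777760) (l 16777616)))) (b (a (b (l 16778080) (l 16777968)) (b (l 16778112) (b (l 16778048) (l 16777976)))) (l 16777760))) (c (b (b (a (b (l 16778192) (l 16778136)) (l 16778232)) (l 16778072)) (a (l 16777784) (l 16777888))) (a (b (l 16778168) (l 16777864)) (b (b (l 16778320) (a (l 16778184) (b (l 16778272) (l 16778200)))) (l 16777968))))) (b (b (c (l 16778176) (l 16778344)) (a (c (b (l 16778112) (l 16778048)) (c (l 16778208) (l 16778296))) (c (b (l 16778168) (l 16778136)) (b (l 16778344) (c (l 16778264) (l 16778352)))))) (c (l 16777912) (l 16778072)))) (b (a (c (l 16778256) (a (l 16778392) (l 16778432))) (c (l 16778344) (l 16778496))) (a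 (a (c (l 16778048) (l 16778208)) (c (l 16778128) (c (l 16778248) (l 16778336)))) (c (b (a (l 16778264) (l 16778304)) (l 16778192)) (a (b (l 16778424) (l 16778320)) (b (l 16778464) (b (l 16778432) (l 16778376)))))))) (a (a (c (c (l 16777224) (l 16777296)) (a (c (l 16777320) (l 16777392)) (l 16777448))) (c (l 16777448) (l 16777584))) (c (l 16777720) (c (l 16777824) (l 16777896)))))), by decide +kernel⟩

def k16_A00pm_113_s3 : ∃ t, chk3 f_A00pm_113_s3 t 508 1023 1 = true :=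
  ⟨(a (b (a (b (c (l 16775784) (c (l 16775872) (l 16775928))) (a (c (l 16775096) (l 16775176)) (a (c (l 16775352) (c (l 16775416) (l 16775456))) (c (b (a (l 16775600) (l 16773056)) (l 16772736)) (b (c (l 16773088) (b (l 16775824) (l 16773064))) (c (l 16775416) (l 16772840))))))) (b (b (a (c (l 16776376) (c (l 16776464) (l 16776528))) (c (l 16776608) (a (l 16776680) (l 16776776)))) (a (b (c (a (l 16776104) (l 16776240)) (a (l 16776216) (c (l 16776320) (l 16776376)))) (c (a (l 16773352) (l 16776088)) (a (c (l 16776056) (l 16773488)) (l 16776192)))) (c (l 16776296) (l 16776408)))) (c (a (l 16775648) (l 16775824)) (a (c (l 16775712) (l 16775760)) (l 16775912))))) (c (a (a (b (b (a (l 16774648) (l 16772208)) (a (l 16771800) (l 16774560))) (l 16774040)) (b (l 16774840) (l 16774200))) (l 16774760)) (c (a (b (a (a (l 16774576) (b (l 16772256) (l 16774600))) (l 16774888)) (l 16774144)) (l 16774800)) (a (b (a (b (l 16774816)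 (a (l 16771864) (l 16772000))) (l 16774920)) (a (l 16774080) (l 16774240))) (l 16774824))))) (b (c (b (a (l 16776720) (l 16777072)) (a (l 16776072) (l 16776400))) (a (b (l 16776840) (l 16776160)) (b (c (l 16777160) (l 16777216)) (l 16776488)))) (c (b (a (l 16775408) (l 16775720)) (a (l 16774728) (l 16775016))) (b (a (l 16775472) (l 16775776)) (a (l 16774760) (l 16775048)))))), by decide +kernel⟩

def k17_A00pm_113_s3 : ∃ t, chk3 f_A00pm_113_s3 t 509 1022 1 = true :=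
  ⟨(b (a (b (a (l 16778792) (l 16778944)) (a (c (l 16778584) (l 16778704)) (l 16778784))) (a (b (l 16779072) (l 16778912)) (b (l 16779176) (l 16779008)))) (a (b (a (b (c (l 16778464) (l 16778600)) (c (a (b (l 16778368) (c (l 16778288) (l 16778368))) (l 16778424)) (a (b (l 16778512) (a (b (l 16778472) (l 16778448)) (l 16778496))) (l 16778568)))) (c (l 16778576) (l 16778688))) (a (b (c (a (l 16778144) (b (b (l 16778376) (a (l 16778320) (l 16778376))) (l 16778248))) (a (b (l 16778376) (l 16778216)) (b (a (b (l 16778504) (l 16778464)) (l 16778528)) (l 16778392)))) (c (l 16777912) (l 16778048))) (b (a (b (c (l 16778440) (l 16778568)) (b (c (l 16778408) (l 16778544)) (a (c (l 16778336) (l 16778480)) (c (l 16778400) (l 16778536))))) (c (l 16778480) (l 16778608))) (c (a (l 16778168) (b (l 16778392) (l 16778256))) (a (l 16778304) (b (a (l 16778504) (b (l 16778576) (l 16778544))) (l 16778384))))))) (c (b (a (l 16778696) (l 16778800))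 (a (b (l 16778568) (b (l 16778504) (a (l 16778400) (l 16778488)))) (l 16778616))) (b (a (l 16778792) (l 16778872)) (a (a (b (l 16778656) (b (l 16778600) (c (l 16778488) (l 16778552)))) (a (l 16778648) (l 16778672))) (a (l 16778696) (l 16778728))))))), by decide +kernel⟩

def k18_A00pm_113_s3 : ∃ t, chk3 f_A00pm_113_s3 t 509 1023 1 = true :=
  ⟨(b (a (b (c (a (l 16777408) (b (l 16777912) (l 16777568))) (a (c (l 16777496) (l 16777552)) (c (l 16777824) (l 16777880)))) (c (a (l 16776720) (l 16777032)) (a (l 16776808) (c (l 16777096) (l 16777144))))) (b (a (b (c (a (l 16778160) (b (l 16778392) (l 16778232))) (a (l 16778280) (b (b (l 16778552) (l 16778480)) (l 16778344)))) (c (l 16777880) (l 16777984))) (b (a (c (b (a (l 16778472) (l 16778496)) (l 16778376)) (b (a (b (l 16778600) (l 16778568)) (l 16778600)) (b (l 16778528) (l 16778456)))) (c (a (l 16778488) (l 16778512)) (c (l 16778576) (l 16778624)))) (c (a (l 16778112)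 (b (l 16778352) (l 16778176))) (a (l 16778216) (b (l 16778456) (l 16778272)))))) (a (c (l 16777336) (b (l 16777608) (l 16777232))) (c (b (l 16777816) (l 16777440)) (b (l 16777904) (l 16777512)))))) (a (c (b (a (l 16776016) (l 16776304)) (a (l 16775296) (l 16775560))) (b (a (l 16776080) (l 16776368)) (a (l 16775328) (l 16775600)))) (b (a (c (l 16776584) (c (l 16776632) (l 16776664))) (c (l 16776856) (b (l 16777120) (l 16776720)))) (c (a (l 16775824) (l 16776072)) (a (l 16775856) (b (l 16776312) (l 16775904))))))), by decide +kernel⟩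

def k19_A00pm_113_s3 : ∃ t, chk3 f_A00pm_113_s3 t 255 126 1 = true :=
  ⟨(a (l 6) (b (l 6) (a (l 6) (b (l 6) (b (l 6) (a (a (l 6) (a (l 6) (b (l 6) (c (l 16774416) (l 16774488))))) (b (a (l 6) (c (l 16772728) (c (l 16772744) (l 16772752)))) (a (c (l 16774048) (c (l 16774088) (l 16774112))) (b (c (l 16773400) (l 16773424)) (b (c (c (l 16771088) (l 16771104)) (a (l 16773856) (a (l 16773696) (l 16770960)))) (c (a (l 16771400) (l 16773760)) (a (c (l 16774048) (l 16771440)) (a (l 16771240) (l 16773704)))))))))))))), by decide +kernel⟩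

def k20_A00pm_113_s3 : ∃ t, chk3 f_A00pm_113_s3 t 510 254 1 = true :=
  ⟨(a (b (l 6) (a (b (b (l 6) (c (l 16781920) (l 16776664))) (c (l 16772968) (l 16772960))) (b (b (a (l 6) (c (l 16779512) (l 16776888))) (b (a (a (l 6) (b (l 6) (l 16780160))) (a (b (a (l 6) (l 16779648)) (c (l 16779792) (b (l 16779720) (l 16779808)))) (c (l 16779616) (l 16779608)))) (a (c (l 16780800) (l 16780784)) (a (c (l 16780128) (l 16780112)) (c (b (l 16777072) (l 16779848)) (b (b (l 16779656) (l 16779696)) (a (l 16779904) (l 16779736)))))))) (b (a (l 16778944) (c (l 16780664) (l 16778032))) (c (l 16771600) (l 16776840)))))) (b (b (l 6) (a (b (l 6) (c (l 16779072) (l 16779128))) (a (l 16778792) (b (l 16778560) (l 16778760))))) (b (a (b (c (l 16779280) (l 16779312)) (a (c (l 16776928) (l 16779552)) (c (l 16779384) (l 16779408)))) (b (l 16779008) (c (l 16779144) (l 16779192)))) (a (b (a (b (a (c (b (l 16779728) (l 16779896)) (b (a (l 16779752)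 (l 16779656)) (l 16779880))) (c (l 16779624) (c (l 16779624) (l 16777000)))) (a (l 16780240) (b (c (l 16779760) (b (l 16779696) (l 16779768))) (c (l 16779944) (l 16779928))))) (c (b (l 16779504) (a (l 16779624) (l 16779536))) (a (b (l 16779544) (c (l 16779624) (l 16779616))) (l 16779504)))) (a (c (l 16780752) (l 16780744)) (b (a (c (l 16779896) (b (a (l 16779840) (l 16779680)) (l 16779968))) (c (b (l 16779584) (l 16779656)) (b (l 16779584) (a (l 16779688) (l 16779592))))) (a (l 16780328) (b (c (l 16779808) (l 16779800)) (l 16780016)))))) (b (c (l 16779296) (a (l 16779400) (l 16779248))) (a (b (c (l 16779472) (l 16779480)) (b (c (l 16779520) (l 16779512)) (a (c (l 16779664) (b (l 16779608) (l 16779680))) (l 16779504)))) (c (l 16779336) (l 16779352)))))))), by decide +kernel⟩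

def k21_A00pm_113_s3 : ∃ t, chk3 f_A00pm_113_s3 t 1022 1016 1 = true :=
  ⟨(a (a (l 6) (b (l 6) (b (l 6) (b (l 6) (a (l 6) (c (l 16778048) (a (l 16778240) (l 16778208)))))))) (a (b (l 6) (a (b (l 6) (c (l 16777792) (l 16777976))) (c (l 16777368) (c (l 16777496) (l 16777576))))) (b (a (l 6) (c (l 16776208) (l 16776344))) (b (c (l 16776792) (l 16776936)) (b (c (c (l 16776952) (l 16777024)) (b (l 16777104) (c (l 16777128) (b (l 16777184) (l 16777216))))) (c (a (a (l 16777328) (b (l 16777152) (l 16777216))) (c (l 16776928) (l 16774376))) (a (b (l 16777376) (l 16777432)) (l 16777096)))))))), by decide +kernel⟩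

def k22_A00pm_113_s3 : ∃ t, chk3 f_A00pm_113_s3 t 1022 1017 1 = true :=
  ⟨(a (a (b (c (l 16778352) (l 16778496)) (l 16778616)) (b (c (l 16778208) (a (l 16778408) (b (l 16778296) (l 16778392)))) (c (l 16778408) (l 16778552)))) (a (b (b (c (b (a (l 16777944) (a (l 16777736) (b (l 16777560) (l 16777616)))) (a (a (a (l 16778104) (l 16778080)) (b (l 16777968) (a (l 16778048) (l 16777976)))) (l 16777760))) (c (a (a (a (l 16778216) (a (l 16778192) (l 16778160))) (l 16778072)) (b (l 16777784) (l 16777888))) (b (a (l 16778168) (l 16777864)) (a (a (l 16778320) (b (l 16778184) (a (l 16778272) (l 16778200)))) (l 16777968))))) (a (a (c (l 16778176) (l 16778344)) (a (c (b (l 16778112) (l 16778168)) (b (c (l 16778240) (l 16778336)) (l 16778344))) (c (b (l 16778048) (l 16778136)) (c (l 16778224) (l 16778304))))) (c (l 16777912) (l 16778072)))) (a (b (c (l 16778256) (a (l 16778432) (l 16778400))) (c (l 16778344) (l 16778496))) (b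 (b (c (l 16778048) (l 16778208)) (c (l 16778128) (c (l 16778248) (l 16778336)))) (c (a (b (l 16778264) (l 16778304)) (l 16778192)) (b (a (l 16778424) (l 16778320)) (a (l 16778464) (a (l 16778432) (l 16778376)))))))) (b (b (c (c (l 16777224) (l 16777296)) (a (c (l 16777520) (l 16777600)) (l 16777240))) (c (l 16777448) (l 16777584))) (c (l 16777720) (c (l 16777824) (l 16777896)))))), by decide +kernel⟩

def k23_A00pm_113_s3 : ∃ t, chk3 f_A00pm_113_s3 t 1023 508 1 = true :=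
  ⟨(b (a (b (a (c (l 16775784) (c (l 16775872) (l 16775928))) (b (c (l 16775096) (l 16775176)) (b (c (l 16775352) (c (l 16775416) (l 16775456))) (c (a (b (l 16775600) (l 16773056)) (l 16772736)) (a (c (l 16773088) (a (l 16775824) (l 16773064))) (c (l 16775416) (l 16772840))))))) (a (a (b (c (l 16776376) (c (l 16776464) (l 16776528))) (c (l 16776608) (b (l 16776680) (l 16776776)))) (b (a (c (b (l 16776104) (l 16776240)) (b (l 16776216) (c (l 16776320) (l 16776376)))) (c (b (l 16773352) (l 16776088)) (b (c (l 16776056) (l 16773488)) (l 16776192)))) (c (l 16776296) (l 16776408)))) (c (b (l 16775648) (l 16775824)) (a (c (l 16775960) (l 16776008)) (l 16775656))))) (c (b (b (a (a (b (l 16774648) (l 16772208)) (b (l 16771800) (l 16774560))) (l 16774040)) (a (l 16774840) (l 16774200))) (l 16774760)) (c (b (a (b (b (l 16774576) (a (l 16772256) (l 16774600))) (l 16774888)) (l 16774144)) (l 16774800)) (b (a (b (a (l 16774816)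 (b (l 16771864) (l 16772000))) (l 16774920)) (b (l 16774080) (l 16774240))) (l 16774824))))) (a (c (a (b (l 16776720) (l 16777072)) (b (l 16776072) (l 16776400))) (b (a (l 16776840) (l 16776160)) (a (c (l 16777160) (l 16777216)) (l 16776488)))) (c (a (b (l 16775408) (l 16775720)) (b (l 16774728) (l 16775016))) (a (b (l 16775472) (l 16775776)) (b (l 16774760) (l 16775048)))))), by decide +kernel⟩

def k24_A00pm_113_s3 : ∃ t, chk3 f_A00pm_113_s3 t 1022 509 1 = true :=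
  ⟨(a (b (a (b (l 16778792) (l 16778944)) (b (c (l 16778584) (l 16778704)) (l 16778784))) (b (a (l 16779072) (l 16778912)) (a (l 16779176) (l 16779008)))) (b (a (b (a (c (l 16778464) (l 16778600)) (c (a (l 16778408) (b (c (l 16778288) (l 16778368)) (l 16778408))) (b (a (l 16778512) (b (a (l 16778472) (l 16778448)) (l 16778496))) (l 16778568)))) (c (l 16778576) (l 16778688))) (b (a (c (b (l 16778144) (a (a (l 16778376) (b (l 16778320) (l 16778376))) (l 16778248))) (b (a (l 16778376) (l 16778216)) (a (a (l 16778520) (b (l 16778464) (l 16778520))) (l 16778392)))) (c (l 16777912) (l 16778048))) (a (b (a (c (l 16778440) (l 16778568)) (a (c (l 16778408) (l 16778544)) (b (c (l 16778336) (l 16778480)) (c (l 16778400) (l 16778536))))) (c (l 16778480) (l 16778608))) (c (b (l 16778168) (a (l 16778392) (l 16778256))) (b (l 16778304) (a (a (b (l 16778544) (l 16778576)) (l 16778504)) (l 16778384))))))) (c (a (b (l 16778696) (l 16778800))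 (b (a (l 16778568) (a (l 16778504) (b (l 16778400) (l 16778488)))) (l 16778616))) (a (b (l 16778792) (l 16778872)) (b (b (a (l 16778656) (a (l 16778600) (c (l 16778488) (l 16778552)))) (b (l 16778648) (l 16778672))) (b (l 16778696) (l 16778728))))))), by decide +kernel⟩

def k25_A00pm_113_s3 : ∃ t, chk3 f_A00pm_113_s3 t 1023 509 1 = true :=
  ⟨(a (b (a (c (b (l 16777408) (a (l 16777912) (l 16777568))) (b (c (l 16777496) (l 16777552)) (c (l 16777824) (l 16777880)))) (c (b (l 16776720) (l 16777032)) (b (l 16776808) (c (l 16777096) (l 16777144))))) (a (b (a (c (b (l 16778160) (a (l 16778392) (l 16778232))) (b (l 16778280) (a (a (l 16778552) (l 16778480)) (l 16778344)))) (c (l 16777880) (l 16777984))) (a (b (c (a (b (l 16778472) (l 16778496)) (l 16778376)) (a (b (a (l 16778600) (l 16778568)) (l 16778600)) (a (l 16778528) (l 16778456)))) (c (b (l 16778488) (l 16778512)) (c (l 16778576) (l 16778624)))) (c (b (l 16778112)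 (a (l 16778352) (l 16778176))) (b (l 16778216) (a (l 16778456) (l 16778272)))))) (b (c (l 16777336) (a (l 16777608) (l 16777232))) (c (a (l 16777816) (l 16777440)) (a (l 16777904) (l 16777512)))))) (b (c (a (b (l 16776016) (l 16776304)) (b (l 16775296) (l 16775560))) (a (b (l 16776080) (l 16776368)) (b (l 16775328) (l 16775600)))) (a (b (c (l 16776584) (c (l 16776632) (l 16776664))) (c (l 16776856) (a (l 16777120) (l 16776720)))) (c (b (l 16775824) (l 16776072)) (b (l 16775856) (a (l 16776312) (l 16775904))))))), by decide +kernel⟩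

def k26_A00pm_113_s3 : ∃ t, chk3 f_A00pm_113_s3 t 510 510 1 = true :=
  ⟨(b (a (a (c (l 16773416) (l 16773416)) (c (l 16772928) (l 16772928))) (a (b (c (l 16775976) (l 16775968)) (a (c (l 16772008) (l 16772000)) (l 16776376))) (b (a (b (a (c (l 16779944) (l 16779928)) (c (b (l 16779544) (l 16779664)) (b (a (l 16779568) (l 16779504)) (a (l 16779720) (l 16779568))))) (c (l 16780168) (l 16780160))) (b (c (l 16779408) (l 16779408)) (a (c (b (l 16779528) (l 16779664)) (b (a (l 16779560) (l 16779464)) (l 16779656))) (c (l 16779408) (l 16779408))))) (a (c (l 16780776) (l 16780776)) (b (a (l 16779952) (c (b (l 16779504) (l 16779656)) (b (a (l 16779552) (l 16779424)) (l 16779648)))) (c (l 16780144) (l 16780144))))))) (a (b (a (c (l 16775976) (l 16775968)) (a (l 16776608) (b (l 16772200) (l 16781816)))) (a (b (a (b (c (l 16779944) (l 16779928)) (c (a (l 16779544) (l 16779664)) (a (b (l 16779568) (l 16779504)) (b (l 16779720)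 (l 16779568))))) (c (l 16780168) (l 16780160))) (a (c (l 16779408) (l 16779408)) (b (c (a (l 16779528) (l 16779664)) (a (b (l 16779560) (l 16779464)) (l 16779656))) (c (l 16779408) (l 16779408))))) (b (c (l 16780776) (l 16780776)) (a (b (l 16779952) (c (a (l 16779504) (l 16779656)) (a (b (l 16779552) (l 16779424)) (l 16779648)))) (c (l 16780144) (l 16780144)))))) (a (b (c (l 16772328) (l 16772328)) (b (l 16776296) (c (l 16780712) (l 16775464)))) (a (b (l 16776296) (b (l 16776816) (l 16775984))) (b (c (l 16780712) (l 16775464)) (l 16776144)))))), by decide +kernel⟩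

def k27_A00pm_113_s3 : ∃ t, chk3 f_A00pm_113_s3 t 510 1022 1 = true :=
  ⟨(a (b (a (b (c (l 16779248) (l 16779272)) (c (l 16779064) (l 16779104))) (b (b (a (c (l 16779360) (a (l 16779352) (b (l 16779408) (l 16779336)))) (a (c (l 16779480) (b (l 16779544) (l 16779384))) (l 16779640))) (b (a (l 16779288) (c (l 16779344) (a (l 16779312) (l 16779368)))) (c (l 16779256) (l 16779264)))) (c (l 16779136) (l 16779152)))) (b (a (l 16778904) (c (l 16778936) (l 16778976))) (a (c (l 16778688) (l 16778760)) (b (l 16778816) (l 16778720))))) (b (b (a (a (a (b (l 16779824) (b (l 16779528) (c (l 16779352) (l 16779352)))) (l 16779808)) (l 16777456)) (c (l 16775344) (l 16775344))) (a (a (b (c (a (l 16779208) (l 16779280)) (a (l 16779208) (b (l 16779328) (l 16779208)))) (c (l 16779120) (l 16779128))) (b (c (l 16779496) (l 16779496)) (c (a (l 16779144) (l 16779224)) (a (b (l 16779176) (l 16779104)) (b (l 16779288) (l 16779144)))))) (b (l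 16777376) (c (l 16776992) (a (l 16779448) (l 16779768)))))) (a (b (a (l 16778976) (c (l 16778976) (l 16778984))) (a (l 16778784) (l 16778784))) (a (b (b (c (a (l 16779064) (l 16779168)) (a (b (l 16779104) (l 16779008)) (b (l 16779240) (l 16779072)))) (c (l 16778936) (a (l 16778936) (l 16778936)))) (c (l 16778776) (l 16778792))) (b (b (l 16779384) (a (c (b (l 16779040) (l 16778920)) (b (l 16779040) (l 16778920))) (c (l 16779096) (l 16779096)))) (b (a (l 16778832) (c (l 16778832) (b (l 16778872) (l 16778800)))) (l 16778720))))))), by decide +kernel⟩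

def k28_A00pm_113_s3 : ∃ t, chk3 f_A00pm_113_s3 t 510 2046 1 = true :=
  ⟨(a (b (a (b (a (c (l 16778536) (l 16778624)) (l 16778600)) (a (b (c (l 16778448) (b (l 16778568) (l 16778528))) (c (l 16778320) (l 16778408))) (a (b (c (l 16778480) (l 16778568)) (c (l 16778408) (l 16778496))) (c (l 16778472) (l 16778552))))) (a (c (l 16778536) (l 16778608)) (c (l 16778544) (l 16778608)))) (a (b (c (a (l 16778032) (l 16778176)) (a (l 16778120) (l 16778256))) (c (l 16777712) (l 16777784))) (b (a (b (c (a (l 16778360) (l 16778400)) (b (l 16778496) (l 16778432))) (c (l 16778216) (l 16778296))) (b (c (l 16778416) (l 16778496)) (c (a (l 16778312) (l 16778352)) (a (l 16778384) (l 16778424))))) (c (a (l 16777920) (l 16778048)) (a (l 16777984) (l 16778112)))))) (b (a (b (l 16778632) (c (l 16778504) (l 16778560))) (a (l 16778576) (c (l 16778552) (l 16778576)))) (a (b (a (c (l 16778400) (b (l 16778488) (l 16778440))) (b (l 16778448) (l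 16778400))) (a (b (c (b (l 16778304) (l 16778224)) (b (c (l 16778360) (l 16778392)) (l 16778296))) (c (l 16778072) (l 16778136))) (b (c (l 16778312) (a (l 16778376) (l 16778376))) (c (a (l 16778160) (l 16778216)) (a (l 16778224) (b (l 16778320) (l 16778232))))))) (b (a (l 16778416) (l 16778400)) (a (a (b (l 16778336) (c (l 16778240) (b (l 16778328) (l 16778280)))) (c (l 16778280) (l 16778328))) (c (l 16778264) (l 16778312))))))), by decide +kernel⟩

def k29_A00pm_113_s3 : ∃ t, chk3 f_A00pm_113_s3 t 510 2047 1 = true :=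
  ⟨(a (b (a (c (b (l 16777320) (l 16776920)) (b (l 16777384) (l 16776968))) (a (c (b (l 16777512) (l 16777096)) (b (l 16777576) (l 16777152))) (c (b (l 16777632) (l 16777208)) (b (l 16777688) (l 16777256))))) (a (c (a (l 16776248) (l 16776360)) (a (l 16776288) (b (l 16776616) (l 16776184)))) (c (a (l 16776464) (l 16776560)) (a (b (l 16776720) (l 16776280)) (b (l 16776816) (l 16776368)))))) (b (a (c (a (b (l 16777752) (l 16777320)) (b (l 16777872) (l 16777432))) (a (b (l 16777808) (l 16777368)) (b (l 16777928) (l 16777480)))) (b (a (c (b (a (l 16778072) (l 16778128)) (l 16777880)) (b (a (l 16778128) (b (l 16778232) (l 16778136))) (l 16777928))) (b (c (a (b (l 16778200) (l 16778136)) (l 16778176)) (a (b (l 16778248) (l 16778184)) (l 16778216))) (c (a (l 16777968) (l 16778024)) (a (l 16778016) (l 16778072))))) (a (c (l 16777544) (l 16777584)) (c (b (l 16777776) (l 16777544)) (a (l 16777672) (l 16777728)))))) (a (c (a (b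 (l 16776880) (l 16776432)) (b (l 16776984) (l 16776528))) (a (b (l 16776920) (l 16776456)) (b (l 16777016) (l 16776552)))) (a (c (b (l 16777088) (l 16776616)) (b (l 16777120) (l 16776648))) (b (c (l 16777192) (a (l 16777200) (l 16777248))) (c (l 16776712) (l 16776736))))))), by decide +kernel⟩

def k30_A00pm_113_s3 : ∃ t, chk3 f_A00pm_113_s3 t 1022 510 1 = true :=
  ⟨(b (a (b (a (c (l 16779248) (l 16779272)) (c (l 16779064) (l 16779104))) (a (a (b (c (l 16779360) (b (l 16779352) (a (l 16779408) (l 16779336)))) (b (c (l 16779480) (a (l 16779544) (l 16779384))) (l 16779640))) (a (b (l 16779288) (c (l 16779344) (b (l 16779312) (l 16779368)))) (c (l 16779256) (l 16779264)))) (c (l 16779136) (l 16779152)))) (a (b (l 16778904) (c (l 16778936) (l 16778976))) (b (c (l 16778688) (l 16778760)) (a (l 16778816) (l 16778720))))) (a (a (b (b (a (l 16779920) (a (l 16779616) (b (c (l 16779352) (l 16779352)) (l 16779512)))) (l 16777456))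 (c (l 16775344) (l 16775344))) (b (b (a (c (b (l 16779208) (l 16779280)) (b (l 16779208) (a (l 16779328) (l 16779208)))) (c (l 16779120) (l 16779128))) (a (c (l 16779496) (l 16779496)) (c (b (l 16779144) (l 16779224)) (b (a (l 16779176) (l 16779104)) (a (l 16779288) (l 16779144)))))) (a (l 16777376) (c (l 16776992) (b (l 16779448) (l 16779768)))))) (b (a (b (l 16778976) (c (l 16778976) (l 16778984))) (b (l 16778784) (l 16778784))) (b (a (a (c (b (l 16779064) (l 16779168)) (b (a (l 16779104) (l 16779008)) (a (l 16779240) (l 16779072)))) (c (l 16778936) (b (l 16778936) (l 16778936)))) (c (l 16778776) (l 16778792))) (a (a (l 16779384) (b (c (a (l 16779040) (l 16778920)) (a (l 16779040) (l 16778920))) (c (l 16779096) (l 16779096)))) (a (b (l 16778832) (c (l 16778832) (a (l 16778872) (l 16778800)))) (l 16778720))))))), by decide +kernel⟩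

def k31_A00pm_113_s3 : ∃ t, chk3 f_A00pm_113_s3 t 2046 510 1 = true :=
  ⟨(b (a (b (a (b (c (l 16778536) (l 16778624)) (l 16778600)) (b (a (c (l 16778448) (a (l 16778568) (l 16778528))) (c (l 16778320) (l 16778408))) (b (a (c (l 16778480) (l 16778568)) (c (l 16778408) (l 16778496))) (c (l 16778472) (l 16778552))))) (b (c (l 16778536) (l 16778608)) (c (l 16778544) (l 16778608)))) (b (a (c (b (l 16778032) (l 16778176)) (b (l 16778120) (l 16778256))) (c (l 16777712) (l 16777784))) (a (b (a (c (b (l 16778360) (l 16778400)) (a (l 16778496) (l 16778432))) (c (l 16778216) (l 16778296))) (a (c (l 16778416) (l 16778496)) (c (b (l 16778312) (l 16778352)) (b (l 16778384) (l 16778424))))) (c (b (l 16777920) (l 16778048)) (b (l 16777984) (l 16778112)))))) (a (b (a (l 16778632) (c (l 16778504) (l 16778560))) (b (l 16778576) (c (l 16778552) (l 16778576)))) (b (a (b (c (l 16778400) (a (l 16778488) (l 16778440))) (a (l 16778448) (l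 16778400))) (b (a (c (a (l 16778304) (l 16778224)) (a (c (l 16778360) (l 16778392)) (l 16778296))) (c (l 16778072) (l 16778136))) (a (c (l 16778312) (b (l 16778376) (l 16778376))) (c (b (l 16778160) (l 16778216)) (b (l 16778224) (a (l 16778320) (l 16778232))))))) (a (b (l 16778416) (l 16778400)) (b (b (a (l 16778336) (c (l 16778240) (a (l 16778328) (l 16778280)))) (c (l 16778280) (l 16778328))) (c (l 16778264) (l 16778312))))))), by decide +kernel⟩

def k32_A00pm_113_s3 : ∃ t, chk3 f_A00pm_113_s3 t 2047 510 1 = true :=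
  ⟨(b (a (b (c (a (l 16777320) (l 16776920)) (a (l 16777384) (l 16776968))) (b (c (a (l 16777512) (l 16777096)) (a (l 16777576) (l 16777152))) (c (a (l 16777632) (l 16777208)) (a (l 16777688) (l 16777256))))) (b (c (b (l 16776248) (l 16776360)) (b (l 16776288) (a (l 16776616) (l 16776184)))) (c (b (l 16776464) (l 16776560)) (b (a (l 16776720) (l 16776280)) (a (l 16776816) (l 16776368)))))) (a (b (c (b (a (l 16777752) (l 16777320)) (a (l 16777872) (l 16777432))) (b (a (l 16777808) (l 16777368)) (a (l 16777928) (l 16777480)))) (a (b (c (a (b (l 16778072) (l 16778128)) (l 16777880)) (a (b (l 16778128) (a (l 16778232) (l 16778136))) (l 16777928))) (a (c (b (a (l 16778200) (l 16778136)) (l 16778176)) (b (a (l 16778248) (l 16778184)) (l 16778216))) (c (b (l 16777968) (l 16778024)) (b (l 16778016) (l 16778072))))) (b (c (l 16777544) (l 16777584)) (c (a (l 16777776) (l 16777544)) (b (l 16777672) (l 16777728)))))) (b (c (b (a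 (l 16776880) (l 16776432)) (a (l 16776984) (l 16776528))) (b (a (l 16776920) (l 16776456)) (a (l 16777016) (l 16776552)))) (b (c (a (l 16777088) (l 16776616)) (a (l 16777120) (l 16776648))) (a (c (l 16777192) (b (l 16777200) (l 16777248))) (c (l 16776712) (l 16776736))))))), by decide +kernel⟩

def k33_A00pm_113_s3 : ∃ t, chk3 f_A00pm_113_s3 t 1022 1022 1 = true :=
  ⟨(b (a (a (c (l 16775400) (l 16775400)) (c (l 16775152) (l 16775152))) (a (a (c (l 16774584) (b (l 16779688) (l 16774720))) (c (l 16776832) (l 16776832))) (a (b (b (a (l 16778968) (c (l 16778824) (l 16778824))) (l 16779016)) (l 16779216)) (b (b (l 16778712) (a (c (l 16778776) (b (l 16778744) (l 16778784))) (c (l 16778672) (l 16778680)))) (b (a (l 16778880) (c (l 16778720) (l 16778720))) (l 16778920)))))) (a (b (b (c (l 16774584) (a (l 16779688) (l 16774720))) (c (l 16776832) (l 16776832))) (b (a (a (b (l 16778968) (c (l 16778824) (l 16778824))) (l 16779016))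 (l 16779216)) (a (a (l 16778712) (b (c (l 16778776) (a (l 16778744) (l 16778784))) (c (l 16778672) (l 16778680)))) (a (b (l 16778880) (c (l 16778720) (l 16778720))) (l 16778920))))) (a (b (c (l 16774784) (l 16774784)) (b (b (l 16776944) (l 16779376)) (c (l 16779112) (l 16779112)))) (a (b (a (l 16776944) (l 16779376)) (a (b (l 16779616) (l 16779256)) (b (l 16779552) (l 16776688)))) (a (b (l 16779200) (c (l 16774184) (l 16774184))) (b (l 16779024) (l 16776624))))))), by decide +kernel⟩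

def k34_A00pm_113_s3 : ∃ t, chk3 f_A00pm_113_s3 t 1022 2046 1 = true :=
  ⟨(a (b (a (c (l 16778536) (l 16778552)) (b (a (c (l 16778576) (b (l 16778616) (l 16778560))) (b (c (l 16778672) (l 16778672)) (c (l 16778552) (l 16778552)))) (c (l 16778456) (l 16778464)))) (b (a (l 16778376) (l 16778352)) (a (c (l 16778248) (l 16778280)) (l 16778232)))) (b (b (a (a (b (l 16778784) (c (l 16778616) (l 16778616))) (l 16778816)) (b (l 16776448) (l 16778896))) (b (a (a (c (l 16778488) (a (l 16778472) (l 16778488))) (c (l 16778560) (l 16778560))) (l 16778720)) (a (a (l 16778408) (c (l 16778416) (a (l 16778400) (l 16778424)))) (c (l 16778552) (l 16778552))))) (a (b (a (l 16778320) (c (l 16778304) (l 16778304))) (c (l 16778184) (l 16778200))) (b (a (b (c (a (l 16778328) (l 16778360)) (a (l 16778336) (l 16778360))) (c (l 16778256) (l 16778256))) (b (l 16778432) (c (a (l 16778264) (l 16778296)) (a (l 16778264) (l 16778296))))) (a (l 16778168)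 (b (c (l 16778176) (a (l 16778184) (l 16778168))) (l 16778112))))))), by decide +kernel⟩

def k35_A00pm_113_s3 : ∃ t, chk3 f_A00pm_113_s3 t 1022 4094 1 = true :=
  ⟨(a (b (a (a (b (l 16778184) (c (b (l 16778112) (l 16778032)) (b (l 16778160) (l 16778072)))) (b (l 16778168) (b (l 16778128) (c (l 16778064) (l 16778104))))) (b (l 16778144) (c (l 16778064) (l 16778104)))) (a (c (b (a (l 16777856) (l 16777912)) (l 16777648)) (b (a (l 16777896) (l 16777952)) (l 16777688))) (b (a (b (c (l 16778008) (a (l 16778048) (l 16778056))) (c (l 16777912) (l 16777952))) (b (c (l 16778016) (l 16778048)) (c (l 16777952) (b (l 16778016) (l 16777976))))) (c (l 16777760) (a (l 16777768) (l 16777824)))))) (b (a (c (l 16778064) (l 16778088)) (a (l 16778040) (l 16778016))) (b (a (a (c (l 16777976) (l 16778008)) (l 16777968)) (c (l 16777928) (l 16777944))) (a (a (a (c (l 16777832) (l 16777864)) (b (c (l 16777904) (l 16777936)) (l 16777816)))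 (b (c (l 16777904) (l 16777936)) (c (a (l 16777824) (l 16777848)) (b (l 16777888) (l 16777840))))) (a (b (l 16777896) (b (l 16777872) (c (l 16777840) (l 16777864)))) (c (l 16777848) (l 16777864))))))), by decide +kernel⟩

def k36_A00pm_113_s3 : ∃ t, chk3 f_A00pm_113_s3 t 1022 4095 1 = true :=
  ⟨(a (b (b (a (c (l 16777416) (l 16777448)) (c (l 16777520) (a (l 16777520) (l 16777576)))) (a (c (l 16777176) (l 16777200)) (c (l 16777272) (l 16777304)))) (b (a (c (l 16776928) (l 16776952)) (c (l 16777032) (l 16777048))) (a (c (l 16776688) (l 16776704)) (c (l 16776776) (l 16776800))))) (b (a (c (a (b (l 16777600) (l 16777352)) (b (l 16777656) (l 16777400))) (a (b (l 16777624) (l 16777376)) (b (l 16777680) (l 16777424)))) (b (a (a (b (l 16777768) (l 16777640)) (b (c (l 16777776) (l 16777800)) (l 16777672))) (b (c (a (l 16777792) (l 16777792)) (b (l 16777824) (a (l 16777800) (l 16777800)))) (c (l 16777696) (a (l 16777704) (l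 16777728))))) (c (a (l 16777456) (l 16777504)) (a (l 16777472) (c (l 16777520) (l 16777528)))))) (b (a (c (a (l 16777104) (l 16777152)) (a (l 16777120) (l 16777168))) (c (a (l 16777200) (l 16777248)) (a (l 16777216) (l 16777264)))) (a (c (l 16776872) (a (l 16776864) (l 16776912))) (a (c (l 16776944) (l 16776960)) (a (b (l 16777048) (l 16776920)) (b (l 16777072) (c (l 16776936) (l 16776944))))))))), by decide +kernel⟩

def k37_A00pm_113_s3 : ∃ t, chk3 f_A00pm_113_s3 t 2046 1022 1 = true :=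
  ⟨(b (a (b (c (l 16778536) (l 16778552)) (a (b (c (l 16778576) (a (l 16778616) (l 16778560))) (a (c (l 16778672) (l 16778672)) (c (l 16778552) (l 16778552)))) (c (l 16778456) (l 16778464)))) (a (b (l 16778376) (l 16778352)) (b (c (l 16778248) (l 16778280)) (l 16778232)))) (a (a (b (b (a (l 16778784) (c (l 16778616) (l 16778616))) (l 16778816)) (a (l 16776448) (l 16778896))) (a (b (b (c (l 16778488) (b (l 16778472) (l 16778488))) (c (l 16778560) (l 16778560))) (l 16778720)) (b (b (l 16778408) (c (l 16778416) (b (l 16778400) (l 16778424)))) (c (l 16778552) (l 16778552))))) (b (a (b (l 16778320) (c (l 16778304) (l 16778304))) (c (l 16778184) (l 16778200))) (a (b (a (c (b (l 16778328) (l 16778360)) (b (l 16778336) (l 16778360))) (c (l 16778256) (l 16778256))) (a (l 16778432) (c (b (l 16778264) (l 16778296)) (b (l 16778264) (l 16778296))))) (b (l 16778168) (a (c (l 16778176) (b (l 16778184) (l 16778168))) (l 16778112))))))),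 by decide +kernel⟩

def k38_A00pm_113_s3 : ∃ t, chk3 f_A00pm_113_s3 t 4094 1022 1 = true :=
  ⟨(b (a (b (b (a (l 16778184) (c (a (l 16778112) (l 16778032)) (a (l 16778160) (l 16778072)))) (a (l 16778168) (a (l 16778128) (c (l 16778064) (l 16778104))))) (a (l 16778144) (c (l 16778064) (l 16778104)))) (b (c (a (b (l 16777856) (l 16777912)) (l 16777648)) (a (b (l 16777896) (l 16777952)) (l 16777688))) (a (b (a (c (l 16778008) (b (l 16778048) (l 16778056))) (c (l 16777912) (l 16777952))) (a (c (l 16778016) (l 16778048)) (c (l 16777952) (a (l 16778016) (l 16777976))))) (c (l 16777760) (b (l 16777768) (l 16777824)))))) (a (b (c (l 16778064) (l 16778088)) (b (l 16778040) (l 16778016))) (a (b (b (c (l 16777976) (l 16778008)) (l 16777968)) (c (l 16777928) (l 16777944))) (b (b (b (c (l 16777832) (l 16777864)) (a (c (l 16777904) (l 16777936)) (l 16777816))) (a (c (l 16777904) (l 16777936)) (c (b (l 16777824) (l 16777848)) (a (l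 16777888) (l 16777840))))) (b (a (l 16777896) (a (l 16777872) (c (l 16777840) (l 16777864)))) (c (l 16777848) (l 16777864))))))), by decide +kernel⟩

def k39_A00pm_113_s3 : ∃ t, chk3 f_A00pm_113_s3 t 4095 1022 1 = true :=
  ⟨(b (a (a (b (c (l 16777416) (l 16777448)) (c (l 16777520) (b (l 16777520) (l 16777576)))) (b (c (l 16777176) (l 16777200)) (c (l 16777272) (l 16777304)))) (a (b (c (l 16776928) (l 16776952)) (c (l 16777032) (l 16777048))) (b (c (l 16776688) (l 16776704)) (c (l 16776776) (l 16776800))))) (a (b (c (b (a (l 16777600) (l 16777352)) (a (l 16777656) (l 16777400))) (b (a (l 16777624) (l 16777376)) (a (l 16777680) (l 16777424)))) (a (b (a (b (l 16777768) (c (l 16777776) (l 16777800))) (c (l 16777640) (l 16777664))) (a (c (b (l 16777792) (l 16777792)) (a (l 16777824) (b (l 16777800) (l 16777800)))) (c (l 16777696) (b (l 16777704) (l 16777728))))) (c (b (l 16777456) (l 16777504)) (b (l 16777472) (c (l 16777520)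 (l 16777528)))))) (a (b (c (b (l 16777104) (l 16777152)) (b (l 16777120) (l 16777168))) (c (b (l 16777200) (l 16777248)) (b (l 16777216) (l 16777264)))) (b (c (l 16776872) (b (l 16776864) (l 16776912))) (b (c (l 16776944) (l 16776960)) (a (a (l 16777096) (l 16777024)) (b (l 16776920) (c (l 16776936) (l 16776944))))))))), by decide +kernel⟩

def k40_A00pm_113_s3 : ∃ t, chk3 f_A00pm_113_s3 t 2046 2046 1 = true :=
  ⟨(b (a (a (b (b (l 16776488) (l 16779048)) (c (l 16776168) (l 16776168))) (a (b (l 16778872) (l 16776232)) (c (l 16776128) (l 16776128)))) (a (a (c (l 16775960) (c (l 16775960) (l 16775960))) (c (l 16778408) (l 16778408))) (a (b (a (l 16778240) (b (a (l 16778160) (l 16778136)) (l 16778184))) (l 16778288)) (b (b (l 16778088) (c (l 16778088) (a (l 16778112) (l 16778064)))) (b (c (l 16778112) (l 16778112)) (l 16778152)))))) (a (b (b (c (l 16775960) (c (l 16775960) (l 16775960))) (c (l 16778408) (l 16778408)))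 (b (a (a (b (l 16778216) (a (l 16778144) (l 16778152))) (l 16778224)) (l 16778288)) (a (a (l 16778088) (c (l 16778088) (b (l 16778112) (l 16778064)))) (a (c (l 16778112) (l 16778112)) (l 16778152))))) (b (a (b (c (l 16775984) (l 16775984)) (c (l 16778536) (l 16778536))) (a (a (l 16778416) (l 16778336)) (l 16778208))) (b (a (b (l 16778416) (l 16778336)) (c (a (l 16778432) (l 16778264)) (a (l 16775808) (l 16778264)))) (a (l 16778208) (b (c (l 16775704) (l 16775704)) (l 16778248))))))), by decide +kernel⟩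

def k41_A00pm_113_s3 : ∃ t, chk3 f_A00pm_113_s3 t 2046 4094 1 = true :=
  ⟨(a (b (a (c (l 16777984) (l 16777992)) (b (a (c (l 16778000) (l 16778000)) (c (l 16778008) (b (l 16778032) (l 16777976)))) (l 16777928))) (b (a (l 16777896) (l 16777864)) (a (l 16777832) (l 16777800)))) (b (b (a (b (l 16778088) (c (l 16778016) (l 16778016))) (b (a (l 16778144) (l 16778184)) (l 16778088))) (a (a (c (l 16777912) (b (l 16777936) (l 16777896))) (b (l 16777952) (c (l 16777888) (l 16777888)))) (b (l 16778008) (c (l 16777928) (l 16777928))))) (b (a (c (l 16777832) (l 16777840)) (a (b (c (l 16777840) (l 16777848)) (l 16777792)) (b (l 16777872) (c (l 16777800) (a (l 16777792) (l 16777800)))))) (a (l 16777768) (a (l 16777744) (c (l 16777728) (b (l 16777744) (l 16777712)))))))), by decide +kernel⟩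

def k42_A00pm_113_s3 : ∃ t, chk3 f_A00pm_113_s3 t 4092 4095 1 = true :=
  ⟨(b (b (a (b (c (l 16777768) (l 16777792)) (c (b (l 16777744) (a (l 16777704) (l 16777712))) (b (a (l 16777768) (l 16777760)) (a (l 16777720) (l 16777736))))) (c (l 16777728) (l 16777736))) (a (a (c (l 16777544) (l 16777560)) (b (c (l 16777632) (l 16777648)) (c (l 16777504) (l 16777520)))) (b (a (b (c (a (l 16777680) (l 16777680)) (a (l 16777696) (l 16777696))) (c (l 16777624) (l 16777640))) (b (c (l 16777672) (l 16777688)) (c (l 16777640) (b (l 16777672) (l 16777648))))) (c (a (l 16777528) (l 16777552)) (a (l 16777544) (l 16777568)))))) (b (b (a (a (l 16777360) (c (l 16777368) (a (l 16777384) (l 16777392)))) (c (a (l 16777392) (l 16777408)) (a (l 16777408) (l 16777424)))) (a (a (c (l 16777216) (l 16777232)) (c (l 16777240) (l 16777248))) (c (a (l 16777248) (l 16777272)) (a (l 16777264) (l 16777280))))) (a (a (c (b (l 16777088) (l 16776944))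 (b (l 16777096) (l 16776960))) (c (l 16777024) (b (l 16777112) (l 16776968)))) (c (a (l 16777040) (b (l 16777128) (l 16776976))) (a (b (l 16777120) (l 16776976)) (b (l 16777136) (l 16776984))))))), by decide +kernel⟩

def k43_A00pm_113_s3 : ∃ t, chk3 f_A00pm_113_s3 t 4093 4095 1 = true :=
  ⟨(a (b (b (c (l 16777696) (l 16777704)) (b (a (c (l 16777648) (l 16777664)) (l 16777640)) (a (a (c (l 16777568) (l 16777584)) (b (c (l 16777608) (l 16777624)) (l 16777552))) (b (c (l 16777608) (a (l 16777624) (l 16777616))) (c (a (l 16777560) (l 16777568)) (a (l 16777576) (b (l 16777600) (l 16777568)))))))) (b (a (c (b (l 16777432) (l 16777288)) (b (l 16777448) (l 16777304))) (c (b (l 16777456) (l 16777312)) (b (l 16777472) (l 16777320)))) (a (c (b (l 16777144) (l 16776992)) (b (l 16777152) (l 16777000))) (c (b (l 16777160) (l 16777008)) (b (l 16777168) (l 16777016)))))) (a (b (b (l 16777672) (b (l 16777624) (b (l 16777592) (b (l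 16777584) (a (c (l 16777568) (l 16777576)) (l 16777568)))))) (b (b (c (a (l 16777480) (b (l 16777528) (l 16777456))) (b (a (l 16777528) (b (l 16777560) (l 16777520))) (l 16777464))) (c (l 16777336) (c (l 16777344) (l 16777352)))) (c (b (l 16777184) (l 16777024)) (b (c (l 16777192) (l 16777192)) (l 16777032))))) (b (b (l 16777656) (c (l 16777584) (l 16777592))) (b (a (b (b (c (b (l 16777544) (l 16777528)) (b (l 16777560) (l 16777536))) (c (l 16777472) (l 16777480))) (c (l 16777352) (l 16777368))) (b (b (c (l 16777528) (l 16777544)) (c (l 16777488) (b (l 16777512) (l 16777480)))) (c (l 16777368) (l 16777376)))) (b (c (a (l 16777200) (l 16777216)) (a (l 16777208) (l 16777224))) (c (l 16777048) (a (l 16777048) (l 16777056)))))))), by decide +kernel⟩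

def k44_A00pm_113_s3 : ∃ t, chk3 f_A00pm_113_s3 t 4094 2046 1 = true :=
  ⟨(b (a (b (c (l 16777984) (l 16777992)) (a (b (c (l 16778000) (l 16778000)) (c (l 16778008) (a (l 16778032) (l 16777976)))) (l 16777928))) (a (b (l 16777896) (l 16777864)) (b (l 16777832) (l 16777800)))) (a (a (b (a (l 16778088) (c (l 16778016) (l 16778016))) (a (b (l 16778144) (l 16778184)) (l 16778088))) (b (b (c (l 16777912) (a (l 16777936) (l 16777896))) (a (l 16777952) (c (l 16777888) (l 16777888)))) (a (l 16778008) (c (l 16777928) (l 16777928))))) (a (b (c (l 16777832) (l 16777840)) (b (a (c (l 16777840) (l 16777848)) (l 16777792)) (a (l 16777872) (c (l 16777800) (b (l 16777792) (l 16777800)))))) (b (l 16777768) (b (l 16777744) (c (l 16777728) (a (l 16777744) (l 16777712)))))))), by decide +kernel⟩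

def k45_A00pm_113_s3 : ∃ t, chk3 f_A00pm_113_s3 t 4095 4092 1 = true :=
  ⟨(a (a (b (a (c (l 16777768) (l 16777792)) (c (a (l 16777744) (b (l 16777704) (l 16777712))) (a (b (l 16777768) (l 16777760)) (b (l 16777720) (l 16777736))))) (c (l 16777728) (l 16777736))) (b (b (c (l 16777544) (l 16777560)) (a (c (l 16777632) (l 16777648)) (c (l 16777504) (l 16777520)))) (a (b (a (c (b (l 16777680) (l 16777680)) (b (l 16777696) (l 16777696))) (c (l 16777624) (l 16777640))) (a (c (l 16777672) (l 16777688)) (c (l 16777640) (a (l 16777672) (l 16777648))))) (c (b (l 16777528) (l 16777552)) (b (l 16777544) (l 16777568)))))) (a (a (b (b (l 16777360) (c (l 16777368) (b (l 16777384) (l 16777392)))) (c (b (l 16777392) (l 16777408)) (b (l 16777408) (l 16777424)))) (b (b (c (l 16777216) (l 16777232)) (c (l 16777240) (l 16777248))) (c (b (l 16777248) (l 16777272)) (b (l 16777264) (l 16777280))))) (b (b (c (a (l 16777088) (l 16776944))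 (a (l 16777096) (l 16776960))) (c (l 16777024) (a (l 16777112) (l 16776968)))) (c (b (l 16777040) (a (l 16777128) (l 16776976))) (b (a (l 16777120) (l 16776976)) (a (l 16777136) (l 16776984))))))), by decide +kernel⟩

def k46_A00pm_113_s3 : ∃ t, chk3 f_A00pm_113_s3 t 4095 4093 1 = true :=
  ⟨(b (a (a (c (l 16777696) (l 16777704)) (a (b (c (l 16777648) (l 16777664)) (l 16777640)) (b (b (c (l 16777568) (l 16777584)) (a (c (l 16777608) (l 16777624)) (l 16777552))) (a (c (l 16777608) (b (l 16777624) (l 16777616))) (c (b (l 16777560) (l 16777568)) (b (l 16777576) (a (l 16777600) (l 16777568)))))))) (a (b (c (a (l 16777432) (l 16777288)) (a (l 16777448) (l 16777304))) (c (a (l 16777456) (l 16777312)) (a (l 16777472) (l 16777320)))) (b (c (a (l 16777144) (l 16776992)) (a (l 16777152) (l 16777000))) (c (a (l 16777160) (l 16777008)) (a (l 16777168) (l 16777016)))))) (b (a (a (l 16777672) (a (l 16777624) (a (l 16777592) (a (l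 16777584) (b (c (l 16777568) (l 16777576)) (l 16777568)))))) (a (a (c (b (l 16777480) (a (l 16777528) (l 16777456))) (a (b (l 16777528) (a (l 16777560) (l 16777520))) (l 16777464))) (c (l 16777336) (c (l 16777344) (l 16777352)))) (c (a (l 16777184) (l 16777024)) (a (c (l 16777192) (l 16777192)) (l 16777032))))) (a (a (l 16777656) (c (l 16777584) (l 16777592))) (a (b (a (a (c (a (l 16777544) (l 16777528)) (a (l 16777560) (l 16777536))) (c (l 16777472) (l 16777480))) (c (l 16777352) (l 16777368))) (a (a (c (l 16777528) (l 16777544)) (c (l 16777488) (a (l 16777512) (l 16777480)))) (c (l 16777368) (l 16777376)))) (a (c (b (l 16777200) (l 16777216)) (b (l 16777208) (l 16777224))) (c (l 16777048) (b (l 16777048) (l 16777056)))))))), by decide +kernel⟩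

def k47_A00pm_113_s3 : ∃ t, chk3 f_A00pm_113_s3 t 4094 4094 1 = true :=
  ⟨(b (a (b (a (b (l 16778168) (l 16778136)) (a (l 16778056) (l 16777976))) (b (a (l 16778056) (a (l 16778080) (l 16778000))) (a (l 16777976) (l 16778008)))) (a (a (b (l 16777904) (l 16777928)) (l 16777840)) (b (a (c (l 16777752) (b (l 16777744) (l 16777760))) (c (l 16777696) (b (l 16777696) (l 16777696)))) (a (l 16777776) (c (l 16777704) (a (l 16777720) (l 16777688))))))) (a (b (b (a (l 16777904) (l 16777928)) (l 16777840)) (a (b (c (l 16777752) (a (l 16777744) (l 16777760))) (c (l 16777696) (a (l 16777696) (l 16777696)))) (b (l 16777776) (c (l 16777704) (b (l 16777720) (l 16777688)))))) (a (b (a (b (l 16777952) (l 16777872)) (c (l 16777880) (l 16777880))) (b (b (l 16777824) (l 16777784)) (l 16777728))) (a (b (a (l 16777824) (l 16777784)) (b (a (l 16777824) (l 16777808)) (b (l 16777768) (l 16777728)))) (b (l 16777728) (a (b (l 16777768) (l 16777760))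 (l 16777736))))))), by decide +kernel⟩

def k48_A00pm_113_s3 : ∃ t, chk3 f_A00pm_113_s3 t 4094 4095 1 = true :=
  ⟨(b (a (b (a (c (l 16777640) (l 16777640)) (b (c (a (l 16777640) (l 16777640)) (a (l 16777648) (l 16777640))) (l 16777600))) (b (a (l 16777584) (l 16777568)) (c (l 16777536) (l 16777544)))) (b (b (a (c (l 16777656) (l 16777656)) (b (l 16777696) (l 16777664))) (a (c (a (l 16777592) (l 16777592)) (a (l 16777592) (b (l 16777608) (l 16777576)))) (a (l 16777600) (l 16777608)))) (b (b (a (l 16777560) (c (l 16777552) (a (l 16777552) (l 14)))) (a (l 16777536) (l 14))) (a (l 16777512) (l 14))))) (a (b (b (a (b (l 16777520) (a (c (b (l 16777504) (l 16777480)) (b (l 16777520) (l 16777488))) (b (l 16777504) (c (l 16777488) (c (l 16777496) (l 16777496)))))) (c (l 16777488) (l 16777496))) (b (a (c (a (l 16777424) (l 16777440)) (a (l 16777432) (l 16777448))) (b (c (a (c (l 16777464) (l 16777472)) (l 16777464)) (a (a (l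 16777472) (l 16777480)) (l 16777472))) (a (c (l 16777432) (l 16777440)) (l 14)))) (a (c (l 16777352) (l 16777360)) (a (c (l 16777376) (l 16777384)) (l 14))))) (a (b (b (c (l 16777272) (l 16777280)) (c (l 16777192) (l 16777200))) (c (a (l 16777064) (l 16777072)) (a (l 16777072) (l 16777080)))) (a (a (b (b (l 16777296) (l 14)) (l 14)) (l 14)) (l 14)))) (b (b (a (c (l 16777472) (l 16777480)) (l 14)) (l 14)) (l 14)))), by decide +kernel⟩

def k49_A00pm_113_s3 : ∃ t, chk3 f_A00pm_113_s3 t 4095 2047 1 = true :=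
  ⟨(b (a (b (a (b (c (l 16777640) (l 16777640)) (a (c (b (l 16777640) (l 16777640)) (b (l 16777648) (l 16777640))) (l 16777600))) (a (b (l 16777584) (l 16777568)) (c (l 16777536) (l 16777544)))) (a (a (b (c (l 16777656) (l 16777656)) (a (l 16777696) (l 16777664))) (b (c (b (l 16777592) (l 16777592)) (b (l 16777592) (a (l 16777608) (l 16777576)))) (a (l 16777624) (l 16777592)))) (a (a (b (l 16777560) (c (l 16777552) (b (l 16777552) (l 14)))) (b (l 16777536) (l 14))) (b (l 16777512) (l 14))))) (b (a (a (b (a (l 16777520) (a (b (c (l 16777504) (l 16777520)) (l 16777504)) (c (b (l 16777480) (l 16777488)) (b (l 16777488) (c (l 16777496) (l 16777496)))))) (c (l 16777488) (l 16777496))) (a (b (c (b (l 16777424) (l 16777440)) (b (l 16777432) (l 16777448))) (a (c (b (c (l 16777464) (l 16777472)) (l 16777464)) (b (a (l 16777480) (l 16777472)) (l 16777472))) (b (c (l 16777432) (l 16777440)) (l 14)))) (b (c (l 16777352) (l 16777360))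 (b (c (l 16777376) (l 16777384)) (l 14))))) (b (a (a (c (l 16777272) (l 16777280)) (c (l 16777192) (l 16777200))) (c (b (l 16777064) (l 16777072)) (b (l 16777072) (l 16777080)))) (b (a (a (a (l 16777320) (l 14)) (l 14)) (l 14)) (l 14)))) (a (a (b (c (l 16777472) (l 16777480)) (l 14)) (l 14)) (l 14)))) (a (b (b (a (a (b (a (l 16777696) (l 14)) (l 14)) (l 14)) (l 14)) (l 14)) (l 14)) (l 14))), by decide +kernel⟩

theorem t50_A00pm_113_s3 : ∃ t, chk3 f_A00pm_113_s3 t 4094 2047 1 = true := ex3_b k47_A00pm_113_s3 k48_A00pm_113_s3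

theorem t51_A00pm_113_s3 : ∃ t, chk3 f_A00pm_113_s3 t 2047 2047 1 = true := ex3_a t50_A00pm_113_s3 k49_A00pm_113_s3

theorem t52_A00pm_113_s3 : ∃ t, chk3 f_A00pm_113_s3 t 4095 2046 1 = true := ex3_b k45_A00pm_113_s3 k46_A00pm_113_s3

theorem t53_A00pm_113_s3 : ∃ t, chk3 f_A00pm_113_s3 t 2047 2046 1 = true := ex3_a k44_A00pm_113_s3 t52_A00pm_113_s3

theorem t54_A00pm_113_s3 : ∃ t, chk3 f_A00pm_113_s3 t 2047 1023 1 = true := ex3_b t53_A00pm_113_s3 t51_A00pm_113_s3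

theorem t55_A00pm_113_s3 : ∃ t, chk3 f_A00pm_113_s3 t 2046 4095 1 = true := ex3_a k42_A00pm_113_s3 k43_A00pm_113_s3

theorem t56_A00pm_113_s3 : ∃ t, chk3 f_A00pm_113_s3 t 2046 2047 1 = true := ex3_b k41_A00pm_113_s3 t55_A00pm_113_s3

theorem t57_A00pm_113_s3 : ∃ t, chk3 f_A00pm_113_s3 t 2046 1023 1 = true := ex3_b k40_A00pm_113_s3 t56_A00pm_113_s3

theorem t58_A00pm_113_s3 : ∃ t, chk3 f_A00pm_113_s3 t 1023 1023 1 = true := ex3_a t57_A00pm_113_s3 t54_A00pm_113_s3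

theorem t59_A00pm_113_s3 : ∃ t, chk3 f_A00pm_113_s3 t 2047 1022 1 = true := ex3_a k38_A00pm_113_s3 k39_A00pm_113_s3

theorem t60_A00pm_113_s3 : ∃ t, chk3 f_A00pm_113_s3 t 1023 1022 1 = true := ex3_a k37_A00pm_113_s3 t59_A00pm_113_s3

theorem t61_A00pm_113_s3 : ∃ t, chk3 f_A00pm_113_s3 t 1023 511 1 = true := ex3_b t60_A00pm_113_s3 t58_A00pm_113_s3

theorem t62_A00pm_113_s3 : ∃ t, chk3 f_A00pm_113_s3 t 1022 2047 1 = true := ex3_b k35_A00pm_113_s3 k36_A00pm_113_s3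

theorem t63_A00pm_113_s3 : ∃ t, chk3 f_A00pm_113_s3 t 1022 1023 1 = true := ex3_b k34_A00pm_113_s3 t62_A00pm_113_s3

theorem t64_A00pm_113_s3 : ∃ t, chk3 f_A00pm_113_s3 t 1022 511 1 = true := ex3_b k33_A00pm_113_s3 t63_A00pm_113_s3

theorem t65_A00pm_113_s3 : ∃ t, chk3 f_A00pm_113_s3 t 511 511 1 = true := ex3_a t64_A00pm_113_s3 t61_A00pm_113_s3

theorem t66_A00pm_113_s3 : ∃ t, chk3 f_A00pm_113_s3 t 1023 510 1 = true := ex3_a k31_A00pm_113_s3 k32_A00pm_113_s3

theorem t67_A00pm_113_s3 : ∃ t, chk3 f_A00pm_113_s3 t 511 510 1 = true := ex3_a k30_A00pm_113_s3 t66_A00pm_113_s3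

theorem t68_A00pm_113_s3 : ∃ t, chk3 f_A00pm_113_s3 t 511 255 1 = true := ex3_b t67_A00pm_113_s3 t65_A00pm_113_s3

theorem t69_A00pm_113_s3 : ∃ t, chk3 f_A00pm_113_s3 t 510 1023 1 = true := ex3_b k28_A00pm_113_s3 k29_A00pm_113_s3

theorem t70_A00pm_113_s3 : ∃ t, chk3 f_A00pm_113_s3 t 510 511 1 = true := ex3_b k27_A00pm_113_s3 t69_A00pm_113_s3

theorem t71_A00pm_113_s3 : ∃ t, chk3 f_A00pm_113_s3 t 510 255 1 = true := ex3_b k26_A00pm_113_s3 t70_A00pm_113_s3

theorem t72_A00pm_113_s3 : ∃ t, chk3 f_A00pm_113_s3 t 255 255 1 = true := ex3_a t71_A00pm_113_s3 t68_A00pm_113_s3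

theorem t73_A00pm_113_s3 : ∃ t, chk3 f_A00pm_113_s3 t 511 509 1 = true := ex3_a k24_A00pm_113_s3 k25_A00pm_113_s3

theorem t74_A00pm_113_s3 : ∃ t, chk3 f_A00pm_113_s3 t 1022 508 1 = true := ex3_b k21_A00pm_113_s3 k22_A00pm_113_s3

theorem t75_A00pm_113_s3 : ∃ t, chk3 f_A00pm_113_s3 t 511 508 1 = true := ex3_a t74_A00pm_113_s3 k23_A00pm_113_s3

theorem t76_A00pm_113_s3 : ∃ t, chk3 f_A00pm_113_s3 t 511 254 1 = true := ex3_b t75_A00pm_113_s3 t73_A00pm_113_s3

theorem t77_A00pm_113_s3 : ∃ t, chk3 f_A00pm_113_s3 t 255 254 1 = true := ex3_a k20_A00pm_113_s3 t76_A00pm_113_s3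

theorem t78_A00pm_113_s3 : ∃ t, chk3 f_A00pm_113_s3 t 255 127 1 = true := ex3_b t77_A00pm_113_s3 t72_A00pm_113_s3

theorem t79_A00pm_113_s3 : ∃ t, chk3 f_A00pm_113_s3 t 255 63 1 = true := ex3_b k19_A00pm_113_s3 t78_A00pm_113_s3

theorem t80_A00pm_113_s3 : ∃ t, chk3 f_A00pm_113_s3 t 509 511 1 = true := ex3_b k17_A00pm_113_s3 k18_A00pm_113_s3

theorem t81_A00pm_113_s3 : ∃ t, chk3 f_A00pm_113_s3 t 508 1022 1 = true := ex3_a k14_A00pm_113_s3 k15_A00pm_113_s3

theorem t82_A00pm_113_s3 : ∃ t, chk3 f_A00pm_113_s3 t 508 511 1 = true := ex3_b t81_A00pm_113_s3 k16_A00pm_113_s3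

theorem t83_A00pm_113_s3 : ∃ t, chk3 f_A00pm_113_s3 t 254 511 1 = true := ex3_a t82_A00pm_113_s3 t80_A00pm_113_s3

theorem t84_A00pm_113_s3 : ∃ t, chk3 f_A00pm_113_s3 t 254 255 1 = true := ex3_b k13_A00pm_113_s3 t83_A00pm_113_s3

theorem t85_A00pm_113_s3 : ∃ t, chk3 f_A00pm_113_s3 t 254 127 1 = true := ex3_b k12_A00pm_113_s3 t84_A00pm_113_s3

theorem t86_A00pm_113_s3 : ∃ t, chk3 f_A00pm_113_s3 t 254 63 1 = true := ex3_b k11_A00pm_113_s3 t85_A00pm_113_s3

theorem t87_A00pm_113_s3 : ∃ t, chk3 f_A00pm_113_s3 t 127 63 1 = true := ex3_a t86_A00pm_113_s3 t79_A00pm_113_s3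

theorem t88_A00pm_113_s3 : ∃ t, chk3 f_A00pm_113_s3 t 63 63 1 = true := ex3_a k10_A00pm_113_s3 t87_A00pm_113_s3

theorem t89_A00pm_113_s3 : ∃ t, chk3 f_A00pm_113_s3 t 63 31 1 = true := ex3_b k9_A00pm_113_s3 t88_A00pm_113_s3

theorem t90_A00pm_113_s3 : ∃ t, chk3 f_A00pm_113_s3 t 31 31 1 = true := ex3_a k8_A00pm_113_s3 t89_A00pm_113_s3

theorem t91_A00pm_113_s3 : ∃ t, chk3 f_A00pm_113_s3 t 31 15 1 = true := ex3_b k7_A00pm_113_s3 t90_A00pm_113_s3

theorem t92_A00pm_113_s3 : ∃ t, chk3 f_A00pm_113_s3 t 15 15 1 = true := ex3_a k6_A00pm_113_s3 t91_A00pm_113_s3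

theorem t93_A00pm_113_s3 : ∃ t, chk3 f_A00pm_113_s3 t 15 7 1 = true := ex3_b k5_A00pm_113_s3 t92_A00pm_113_s3

theorem t94_A00pm_113_s3 : ∃ t, chk3 f_A00pm_113_s3 t 7 7 1 = true := ex3_a k4_A00pm_113_s3 t93_A00pm_113_s3

theorem t95_A00pm_113_s3 : ∃ t, chk3 f_A00pm_113_s3 t 7 3 1 = true := ex3_b k3_A00pm_113_s3 t94_A00pm_113_s3

theorem t96_A00pm_113_s3 : ∃ t, chk3 f_A00pm_113_s3 t 3 3 1 = true := ex3_a k2_A00pm_113_s3 t95_A00pm_113_s3

theorem t97_A00pm_113_s3 : ∃ t, chk3 f_A00pm_113_s3 t 3 1 1 = true := ex3_b k1_A00pm_113_s3 t96_A00pm_113_s3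

theorem t98_A00pm_113_s3 : ∃ t, chk3 f_A00pm_113_s3 t 1 1 1 = true := ex3_a k0_A00pm_113_s3 t97_A00pm_113_s3

theorem c_A00pm_113_s3 : CertF 536870912 536870912 536870912 536870912 1040187392 5207648 true true false .nn 1 1 3
    ndB0q1 ndB0q1 pcB3 cut_A00pm_113_s3 Ext.none :=
  certF0 (fam := true) (s1 := true) (s2 := false) (a := 1) (b := 1) (c := 3) (cn := .nn) (n1 := ndB0q1) (n2 := ndB0q1) (pc := pcB3) (cut := cut_A00pm_113_s3) (xt := Ext.none) (P1 := 536870912) (W1 := 536870912) (P2 := 536870912) (W2 := 536870912) (P3 := 1040187392) (W3 := 5207648)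
    rfl t98_A00pm_113_s3

theorem s_A00pm_113_s3 {κ x : ℝ} (hκ : κ * h0 = ken x) (hx : ((1040187392 : ℕ) : ℝ) / S ≤ x)
    (hx' : x ≤ (((1040187392 : ℕ) : ℝ) + (5207648 : ℕ)) / S)
    (H : CutA (VFD κ) PP tK tL pcB (Cut.of [[⟨0, 1, 0, 15728640⟩, ⟨1, 1, 0, 15728640⟩, ⟨2, 2, 0, 524288⟩], [⟨0, 0, 1, 46137344⟩, ⟨1, 1, 0, 1048576⟩, ⟨2, 1, 1, 46137344⟩, ⟨0, 0, 0, 1054867456⟩, ⟨0, 1, 0, 38117834⟩, ⟨2, 1, 0, 1054867456⟩, ⟨2, 2, 0, 38117834⟩], [⟨0, 1, 0, 1048576⟩, ⟨1, 0, 1, 46137344⟩, ⟨2, 1, 1, 46137344⟩, ⟨1, 0, 0, 1054867456⟩, ⟨1, 1, 0, 38117834⟩, ⟨2, 1, 0, 1054867456⟩, ⟨2, 2, 0, 38117834⟩]]) 1 1 3 0 0 (sgb true) (sgb false) x) :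
    AltA (VFD κ) PP tK tL pcB [⟨4, 0, 0, 3194381926⟩] 1 1 3 0 0 (sgb true) (sgb false) x :=
  strip_altAD (m := 3194381926) false rfl hκ (SH.κ0 hκ (SH.hx1 hx).le (SH.hx2 hx').le) (SH.hx1 hx).le (SH.hx2 hx') (covB01).cov (covB01).cov hx hx' c_A00pm_113_s3 H (noExt_A)

noncomputable def cut_A00pm_123_s1 : Cut := Cut.of [[⟨4, 0, 0, 1449551462⟩], [⟨0, 1, 0, 15728640⟩, ⟨1, 1, 0, 15728640⟩, ⟨2, 2, 0, 524288⟩], [⟨0, 0, 1, 46137344⟩, ⟨1, 1, 0, 1048576⟩, ⟨2, 1, 1, 46137344⟩, ⟨0, 0, 0, 1054867456⟩, ⟨0, 1, 0, 38117834⟩, ⟨2, 1, 0, 1054867456⟩, ⟨2, 2, 0, 38117834⟩], [⟨0, 1, 0, 1048576⟩, ⟨1, 0, 1, 46137344⟩, ⟨2, 1, 1, 46137344⟩, ⟨1, 0, 0, 1054867456⟩, ⟨1, 1, 0, 38117834⟩, ⟨2, 1, 0, 1054867456⟩, ⟨2, 2, 0, 38117834⟩]]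

noncomputable def f_A00pm_123_s1 : ℕ → ℕ → ℕ → ℕ → Bool := onCell 536870912 536870912 0 536870912 1040187392 5207648
    (rowF 0 true true false .npn 1 2 3 (qsf 536870912 536870912 0 536870912 3) ndB0q1 ndB0q2 pcB3 cut_A00pm_123_s1 Ext.none)

def k0_A00pm_123_s1 : ∃ t, chk3 f_A00pm_123_s1 t 1 1 1 = true :=
  ⟨(l 6), by decide +kernel⟩

theorem c_A00pm_123_s1 : CertF 536870912 536870912 0 536870912 1040187392 5207648 true true false .npn 1 2 3
    ndB0q1 ndB0q2 pcB3 cut_A00pm_123_s1 Ext.none :=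
  certF0 (fam := true) (s1 := true) (s2 := false) (a := 1) (b := 2) (c := 3) (cn := .npn) (n1 := ndB0q1) (n2 := ndB0q2) (pc := pcB3) (cut := cut_A00pm_123_s1) (xt := Ext.none) (P1 := 536870912) (W1 := 536870912) (P2 := 0) (W2 := 536870912) (P3 := 1040187392) (W3 := 5207648)
    rfl k0_A00pm_123_s1

theorem s_A00pm_123_s1 {κ x : ℝ} (hκ : κ * h0 = ken x) (hx : ((1040187392 : ℕ) : ℝ) / S ≤ x)
    (hx' : x ≤ (((1040187392 : ℕ) : ℝ) + (5207648 : ℕ)) / S)
    (H : CutA (VFD κ) PP tK tL pcB (Cut.of [[⟨0, 1, 0, 15728640⟩, ⟨1, 1, 0, 15728640⟩, ⟨2, 2, 0, 524288⟩], [⟨0, 0, 1, 46137344⟩, ⟨1, 1, 0, 1048576⟩, ⟨2, 1, 1, 46137344⟩, ⟨0, 0, 0, 1054867456⟩, ⟨0, 1, 0, 38117834⟩, ⟨2, 1, 0, 1054867456⟩, ⟨2, 2, 0, 38117834⟩], [⟨0, 1, 0, 1048576⟩, ⟨1, 0, 1, 46137344⟩, ⟨2, 1, 1, 46137344⟩, ⟨1, 0, 0, 1054867456⟩, ⟨1, 1, 0, 38117834⟩, ⟨2, 1, 0, 1054867456⟩, ⟨2, 2, 0, 38117834⟩]]) 1 2 3 0 0 (sgb true) (sgb false) x) :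
    AltA (VFD κ) PP tK tL pcB [⟨3, 0, 0, 1449551462⟩] 1 2 3 0 0 (sgb true) (sgb false) x :=
  strip_altAD (m := 1449551462) true rfl hκ (SH.κ0 hκ (SH.hx1 hx).le (SH.hx2 hx').le) (SH.hx1 hx).le (SH.hx2 hx') (covB01).cov (covB02).cov hx hx' c_A00pm_123_s1 H (noExt_A)

noncomputable def cut_A00pm_202_s1 : Cut := Cut.of [[⟨4, 0, 0, 1449551462⟩], [⟨0, 1, 0, 22369621⟩, ⟨1, 0, 0, 22369621⟩, ⟨2, 1, 0, 22369621⟩]]

noncomputable def f_A00pm_202_s1 : ℕ → ℕ → ℕ → ℕ → Bool := onCell 0 536870912 1073741824 536870912 1040187392 5207648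
    (rowF 1 true true false .pp 2 0 2 (qsf 0 536870912 0 536870912 2) ndB0q2 ndB0q0 pcB2 cut_A00pm_202_s1 Ext.none)

def k0_A00pm_202_s1 : ∃ t, chk3 f_A00pm_202_s1 t 2 4 1 = true :=
  ⟨(b (l 1) (l 6)), by decide +kernel⟩

def k1_A00pm_202_s1 : ∃ t, chk3 f_A00pm_202_s1 t 6 8 1 = true :=
  ⟨(l 1), by decide +kernel⟩

def k2_A00pm_202_s1 : ∃ t, chk3 f_A00pm_202_s1 t 14 8 1 = true :=
  ⟨(b (l 1) (a (b (l 1) (a (l 1) (l 16483672))) (a (b (l 1) (l 16524536)) (b (a (l 16498896) (l 16518448)) (l 16562968))))), by decide +kernel⟩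

def k3_A00pm_202_s1 : ∃ t, chk3 f_A00pm_202_s1 t 15 32 1 = true :=
  ⟨(a (l 1) (l 14)), by decide +kernel⟩

def k4_A00pm_202_s1 : ∃ t, chk3 f_A00pm_202_s1 t 15 66 1 = true :=
  ⟨(b (a (l 1) (l 14)) (a (a (l 1) (a (l 1) (a (a (l 1) (b (l 1) (a (l 16566856) (b (a (l 1) (l 16571216)) (a (l 16571344) (l 16573568)))))) (b (a (a (l 1) (b (l 1) (b (l 1) (b (l 16579960) (l 16580520))))) (b (a (l 1) (l 14)) (b (a (l 16585928) (l 16592800)) (l 16580008)))) (a (a (a (b (b (l 1) (c (a (b (l 16573960) (l 16574536)) (l 16575656)) (a (a (l 16572440) (b (b (l 1) (c (l 16573248) (l 16572488))) (a (l 16573160) (c (l 16573824) (l 16573064))))) (b (l 16573872) (l 16574440))))) (a (c (l 16576000) (b (l 16573904) (l 16575088))) (c (b (l 16576784) (a (l 16577520) (l 16578352))) (a (a (c (b (l 16575032) (l 16576192)) (a (b (a (l 16574136) (l 16574224)) (l 16575352)) (l 16574960))) (l 16573032)) (l 16576288))))) (c (b (b (l 16577048) (l 16578176))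 (l 16579888)) (b (b (l 16575552) (l 16576688)) (c (l 16578768) (l 16578024))))) (b (b (c (l 16582104) (l 16580640)) (l 16572024)) (c (l 16584952) (l 16573016)))) (b (l 16581720) (l 16584024))))))) (a (a (a (b (a (b (l 14) (l 16603792)) (l 16616736)) (a (l 16586288) (l 16621392))) (b (l 16617256) (l 16601016))) (a (l 16648912) (l 16657696))) (a (l 16702344) (a (l 16630112) (l 16689192)))))), by decide +kernel⟩

def k5_A00pm_202_s1 : ∃ t, chk3 f_A00pm_202_s1 t 15 67 1 = true :=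
  ⟨(a (a (a (l 1) (l 16525736)) (a (a (l 16545256) (b (l 16555320) (l 16565552))) (a (a (b (l 16567648) (l 16577760)) (b (a (l 16553112) (b (b (l 16574840) (l 16577256)) (l 16575688))) (a (l 16584136) (b (l 16585936) (l 16591056))))) (b (a (a (a (a (b (c (l 16579576) (b (l 16576880) (l 16579288))) (c (l 16584440) (l 16582968))) (a (c (b (b (a (l 16579088) (l 16579448)) (l 16581648)) (l 16585288)) (b (a (b (c (l 16577968) (b (a (l 16576536) (l 16576696)) (l 16577816))) (l 16579992)) (b (b (l 16577376) (l 16578536)) (b (l 16579712) (l 16580904)))) (b (c (l 16582952) (l 16582216)) (l 16585048)))) (c (b (l 16581240) (l 16575464)) (b (b (l 16578592) (l 16580928)) (b (l 16583288) (a (a (l 16585408) (l 16585576)) (l 16585896))))))) (b (c (l 16572864) (b (l 16580712) (l 16583048))) (b (l 16580904) (l 16578048)))) (b (b (l 16581304) (l 16578400)) (c (l 16593160) (l 16581256)))) (b (c (l 16598704) (l 16586848)) (c (l 16603464)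 (l 16591632)))) (a (a (a (b (c (l 16579528) (a (l 16587968) (a (l 16588808) (a (l 16583992) (b (l 16588312) (l 16590792)))))) (c (l 16595064) (l 16588408))) (b (c (l 16592880) (l 16580968)) (a (b (l 16589760) (l 16592264)) (l 16597968)))) (c (l 16589968) (b (l 16586120) (l 16601576)))) (b (l 16597192) (l 16591696))))))) (a (a (a (b (a (a (l 16600368) (l 16617896)) (l 16607592)) (b (l 16607856) (l 16612904))) (b (b (l 16605840) (l 16610768)) (l 16639320))) (a (b (l 16637776) (l 16606048)) (a (l 16665320) (l 16638424)))) (a (b (l 16691232) (l 16672936)) (b (b (l 16603640) (l 16594296)) (b (l 16584880) (l 16575496)))))), by decide +kernel⟩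

def k6_A00pm_202_s1 : ∃ t, chk3 f_A00pm_202_s1 t 15 17 1 = true :=
  ⟨(a (a (b (a (l 16538344) (b (l 16547856) (l 16571824))) (a (l 16591256) (l 16527344))) (a (b (b (a (l 16566960) (l 16581768)) (l 16597576)) (b (l 16622800) (l 16648720))) (b (b (a (a (b (l 16588336) (l 16599368)) (b (a (l 16594648) (l 16598944)) (l 16597248))) (b (b (a (a (a (l 16599568) (a (a (b (l 16589184) (l 16602288)) (l 16601736)) (l 16603024))) (l 16596840)) (l 16617760)) (a (a (a (l 16604904) (c (l 16608048) (a (l 16600704) (l 16607512)))) (l 16612496)) (l 16622960))) (a (a (b (a (l 16610344) (a (l 16606776) (l 16602960))) (l 16617120)) (c (l 16621088) (l 16609344))) (c (l 16631552) (l 16619880))))) (a (a (l 16616752) (l 16624992)) (a (a (b (l 16625632) (l 16637328)) (b (l 16631448) (l 16642848))) (b (l 16642000) (l 16653464))))) (a (b (l 16645328) (l 16669528)) (b (a (a (l 16655400) (l 16618400)) (l 16586952)) (a (l 16597144) (l 16608728)))))))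 (a (b (a (b (a (a (b (l 16613512) (l 16624192)) (b (l 16648840) (l 16659592))) (b (l 16628800) (l 16639648))) (a (b (l 16621616) (l 16591104)) (b (l 16608960) (l 16620360)))) (b (a (a (l 16656488) (l 16671648)) (b (l 16646888) (l 16632824))) (b (l 16669416) (l 16609368)))) (a (b (b (l 16616968) (l 16624360)) (l 16599288)) (b (a (l 16595976) (l 16570840)) (b (l 16559072) (l 16627920))))) (b (b (a (b (l 16654520) (l 16636192)) (b (l 16603448) (l 16585296))) (a (b (l 16576016) (l 16558544)) (b (l 16525856) (l 16593144)))) (a (b (b (l 16625728) (l 16609880)) (b (l 16595080) (l 16581504))) (b (b (l 16577464) (l 16562920)) (b (l 16549680) (l 16537936))))))), by decide +kernel⟩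

def k7_A00pm_202_s1 : ∃ t, chk3 f_A00pm_202_s1 t 3 9 1 = true :=
  ⟨(a (b (a (l 1) (a (b (l 1) (l 16507392)) (b (l 16470048) (l 16466232)))) (a (l 6) (a (b (l 16569288) (l 6)) (b (l 16576664) (l 16481944))))) (a (b (a (b (l 16448496) (l 16523072)) (a (b (l 16504640) (l 16644928)) (b (l 16539840) (l 16636448)))) (a (b (l 16573640) (l 16411984)) (a (b (l 16566488) (l 16507760)) (b (l 16573640) (l 16526496))))) (a (b (a (b (a (l 16647592) (l 16581024)) (a (l 16635456) (l 16551432))) (b (a (l 16600408) (a (l 16595768) (b (a (l 16604688) (l 16596416)) (l 16634768)))) (a (b (l 16645008) (l 16621992)) (b (a (l 16638664) (l 16590288)) (a (l 16618896) (l 16615120)))))) (a (b (a (l 16582824) (l 16590760)) (l 16469648)) (b (a (b (l 16603736) (l 16588968)) (b (l 16581688) (l 16589032))) (b (l 16574872) (l 16559536))))) (b (a (b (b (a (l 16568784) (l 16565632)) (a (l 16542928) (b (l 16590360) (l 16581376)))) (b (a (l 16565400)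 (b (l 16573344) (l 16566584))) (a (l 16550624) (l 16557912)))) (b (b (a (l 16521896) (b (l 16527840) (l 16519752))) (a (b (l 16550136) (l 16542760)) (b (l 16512896) (l 16507136)))) (b (a (l 16533768) (l 16498632)) (a (l 16522232) (l 16487416))))) (a (b (b (a (l 16580888) (l 16546104)) (a (l 16568592) (l 16533864))) (b (l 16537984) (l 16522944))) (b (b (a (l 16510608) (l 16475616)) (l 16480184)) (b (l 16464288) (l 16447808)))))))), by decide +kernel⟩

def k8_A00pm_202_s1 : ∃ t, chk3 f_A00pm_202_s1 t 1 5 1 = true :=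
  ⟨(a (l 6) (a (b (b (a (l 6) (a (l 6) (b (l 16397448) (l 6)))) (l 6)) (l 6)) (a (b (b (a (b (l 16432288) (l 16385032)) (b (a (l 16464744) (l 16490424)) (l 16349736))) (a (l 16139152) (b (l 16387040) (l 16337320)))) (l 6)) (b (b (a (b (a (l 16518576) (b (l 16542496) (l 16522512))) (a (l 16475984) (l 16490856))) (b (a (b (l 16505024) (l 16486280)) (b (l 16429744) (l 16410328))) (b (a (l 16466040) (l 16392840)) (b (l 16332312) (b (l 16326440) (a (l 16440072) (l 16372488))))))) (a (a (l 16403536) (l 16423416)) (a (l 16397008) (l 16329072)))) (a (a (l 16183208) (l 16299088)) (b (l 16116600) (l 16127336))))))), by decide +kernel⟩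

def k9_A00pm_202_s1 : ∃ t, chk3 f_A00pm_202_s1 t 1 3 1 = true :=
  ⟨(a (l 6) (l 6)), by decide +kernel⟩

theorem t10_A00pm_202_s1 : ∃ t, chk3 f_A00pm_202_s1 t 15 33 1 = true := ex3_b k4_A00pm_202_s1 k5_A00pm_202_s1

theorem t11_A00pm_202_s1 : ∃ t, chk3 f_A00pm_202_s1 t 15 16 1 = true := ex3_b k3_A00pm_202_s1 t10_A00pm_202_s1

theorem t12_A00pm_202_s1 : ∃ t, chk3 f_A00pm_202_s1 t 15 8 1 = true := ex3_b t11_A00pm_202_s1 k6_A00pm_202_s1

theorem t13_A00pm_202_s1 : ∃ t, chk3 f_A00pm_202_s1 t 7 8 1 = true := ex3_a k2_A00pm_202_s1 t12_A00pm_202_s1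

theorem t14_A00pm_202_s1 : ∃ t, chk3 f_A00pm_202_s1 t 3 8 1 = true := ex3_a k1_A00pm_202_s1 t13_A00pm_202_s1

theorem t15_A00pm_202_s1 : ∃ t, chk3 f_A00pm_202_s1 t 3 4 1 = true := ex3_b t14_A00pm_202_s1 k7_A00pm_202_s1

theorem t16_A00pm_202_s1 : ∃ t, chk3 f_A00pm_202_s1 t 1 4 1 = true := ex3_a k0_A00pm_202_s1 t15_A00pm_202_s1

theorem t17_A00pm_202_s1 : ∃ t, chk3 f_A00pm_202_s1 t 1 2 1 = true := ex3_b t16_A00pm_202_s1 k8_A00pm_202_s1

theorem t18_A00pm_202_s1 : ∃ t, chk3 f_A00pm_202_s1 t 1 1 1 = true := ex3_b t17_A00pm_202_s1 k9_A00pm_202_s1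

theorem c_A00pm_202_s1 : CertF 0 536870912 0 536870912 1040187392 5207648 true true false .pp 2 0 2
    ndB0q2 ndB0q0 pcB2 cut_A00pm_202_s1 Ext.none :=
  certF1 (fam := true) (s1 := true) (s2 := false) (a := 2) (b := 0) (c := 2) (cn := .pp) (n1 := ndB0q2) (n2 := ndB0q0) (pc := pcB2) (cut := cut_A00pm_202_s1) (xt := Ext.none) (P1 := 0) (W1 := 536870912) (P2 := 0) (W2 := 536870912) (P3 := 1040187392) (W3 := 5207648)
    rfl (fun _ => rfl) t18_A00pm_202_s1

theorem s_A00pm_202_s1 {κ x : ℝ} (hκ : κ * h0 = ken x) (hx : ((1040187392 : ℕ) : ℝ) / S ≤ x)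
    (hx' : x ≤ (((1040187392 : ℕ) : ℝ) + (5207648 : ℕ)) / S)
    (H : CutA (VFD κ) PP tK tL pcB (Cut.of [[⟨0, 1, 0, 22369621⟩, ⟨1, 0, 0, 22369621⟩, ⟨2, 1, 0, 22369621⟩]]) 2 0 2 0 0 (sgb true) (sgb false) x) :
    AltA (VFD κ) PP tK tL pcB [⟨3, 0, 0, 1449551462⟩] 2 0 2 0 0 (sgb true) (sgb false) x :=
  strip_altAD (m := 1449551462) true rfl hκ (SH.κ0 hκ (SH.hx1 hx).le (SH.hx2 hx').le) (SH.hx1 hx).le (SH.hx2 hx') (covB02).cov (covB00).cov hx hx' c_A00pm_202_s1 H (noExt_A)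

noncomputable def cut_A00pm_202_s3 : Cut := Cut.of [[⟨3, 0, 0, 2845415833⟩], [⟨0, 1, 0, 22369621⟩, ⟨1, 0, 0, 22369621⟩, ⟨2, 1, 0, 22369621⟩]]

noncomputable def f_A00pm_202_s3 : ℕ → ℕ → ℕ → ℕ → Bool := onCell 0 536870912 1073741824 536870912 1040187392 5207648
    (rowF 1 true true false .pp 2 0 2 (qsf 0 536870912 0 536870912 2) ndB0q2 ndB0q0 pcB2 cut_A00pm_202_s3 Ext.none)

def k0_A00pm_202_s3 : ∃ t, chk3 f_A00pm_202_s3 t 1 1 1 = true :=
  ⟨(b (l 6) (a (l 6) (l 6))), by decide +kernel⟩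

theorem c_A00pm_202_s3 : CertF 0 536870912 0 536870912 1040187392 5207648 true true false .pp 2 0 2
    ndB0q2 ndB0q0 pcB2 cut_A00pm_202_s3 Ext.none :=
  certF1 (fam := true) (s1 := true) (s2 := false) (a := 2) (b := 0) (c := 2) (cn := .pp) (n1 := ndB0q2) (n2 := ndB0q0) (pc := pcB2) (cut := cut_A00pm_202_s3) (xt := Ext.none) (P1 := 0) (W1 := 536870912) (P2 := 0) (W2 := 536870912) (P3 := 1040187392) (W3 := 5207648)
    rfl (fun _ => rfl) k0_A00pm_202_s3

theorem s_A00pm_202_s3 {κ x : ℝ} (hκ : κ * h0 = ken x) (hx : ((1040187392 : ℕ) : ℝ) / S ≤ x)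
    (hx' : x ≤ (((1040187392 : ℕ) : ℝ) + (5207648 : ℕ)) / S)
    (H : CutA (VFD κ) PP tK tL pcB (Cut.of [[⟨0, 1, 0, 22369621⟩, ⟨1, 0, 0, 22369621⟩, ⟨2, 1, 0, 22369621⟩]]) 2 0 2 0 0 (sgb true) (sgb false) x) :
    AltA (VFD κ) PP tK tL pcB [⟨4, 0, 0, 2845415833⟩] 2 0 2 0 0 (sgb true) (sgb false) x :=
  strip_altAD (m := 2845415833) false rfl hκ (SH.κ0 hκ (SH.hx1 hx).le (SH.hx2 hx').le) (SH.hx1 hx).le (SH.hx2 hx') (covB02).cov (covB00).cov hx hx' c_A00pm_202_s3 H (noExt_A)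

noncomputable def cut_A00pm_203_s1 : Cut := Cut.of [[⟨4, 0, 0, 1449551462⟩]]

noncomputable def f_A00pm_203_s1 : ℕ → ℕ → ℕ → ℕ → Bool := onCell 0 536870912 1610612736 536870912 1040187392 5207648
    (rowF 1 true true false .up 2 0 3 (qsf 0 536870912 0 536870912 3) ndB0q2 ndB0q0 pcB3 cut_A00pm_203_s1 Ext.none)

def k0_A00pm_203_s1 : ∃ t, chk3 f_A00pm_203_s1 t 1 1 1 = true :=
  ⟨(l 6), by decide +kernel⟩

theorem c_A00pm_203_s1 : CertF 0 536870912 0 536870912 1040187392 5207648 true true false .up 2 0 3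
    ndB0q2 ndB0q0 pcB3 cut_A00pm_203_s1 Ext.none :=
  certF1 (fam := true) (s1 := true) (s2 := false) (a := 2) (b := 0) (c := 3) (cn := .up) (n1 := ndB0q2) (n2 := ndB0q0) (pc := pcB3) (cut := cut_A00pm_203_s1) (xt := Ext.none) (P1 := 0) (W1 := 536870912) (P2 := 0) (W2 := 536870912) (P3 := 1040187392) (W3 := 5207648)
    rfl (fun _ => rfl) k0_A00pm_203_s1

theorem s_A00pm_203_s1 {κ x : ℝ} (hκ : κ * h0 = ken x) (hx : ((1040187392 : ℕ) : ℝ) / S ≤ x)
    (hx' : x ≤ (((1040187392 : ℕ) : ℝ) + (5207648 : ℕ)) / S) :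
    AltA (VFD κ) PP tK tL pcB [⟨3, 0, 0, 1449551462⟩] 2 0 3 0 0 (sgb true) (sgb false) x :=
  strip_altAD (m := 1449551462) true rfl hκ (SH.κ0 hκ (SH.hx1 hx).le (SH.hx2 hx').le) (SH.hx1 hx).le (SH.hx2 hx') (covB02).cov (covB00).cov hx hx' c_A00pm_203_s1 cutA_nil (noExt_A)

noncomputable def cut_A00pm_203_s3 : Cut := Cut.of [[⟨3, 0, 0, 2845415833⟩]]

noncomputable def xt_A00pm_203_s3 : Ext := strExt dd true true false .u2 .u0m .s2m .up 2 0 3 rfl rfl gl3 vv ndB0q2 ndB0q0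

noncomputable def f_A00pm_203_s3 : ℕ → ℕ → ℕ → ℕ → Bool := onCell 0 536870912 0 536870912 1040187392 5207648
    (rowF 0 true true false .up 2 0 3 (qsf 0 536870912 0 536870912 3) ndB0q2 ndB0q0 pcB3 cut_A00pm_203_s3 xt_A00pm_203_s3)

def k0_A00pm_203_s3 : ∃ t, chk3 f_A00pm_203_s3 t 1 1 1 = true :=
  ⟨(a (b (l 1) (b (a (b (l 1) (b (l 6) (a (a (l 16338216) (l 6)) (l 6)))) (l 6)) (a (b (a (b (a (l 16417696) (l 6)) (l 16374680)) (l 6)) (a (b (l 531196175) (a (l 531235087) (l 16464104))) (b (a (a (l 16453928) (l 16340224)) (l 6)) (a (l 16496704) (a (b (l 16442872) (l 16469016)) (l 16344984)))))) (a (l 6) (l 6))))) (l 6)), by decide +kernel⟩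

theorem c_A00pm_203_s3 : CertF 0 536870912 0 536870912 1040187392 5207648 true true false .up 2 0 3
    ndB0q2 ndB0q0 pcB3 cut_A00pm_203_s3 xt_A00pm_203_s3 :=
  certF0 (fam := true) (s1 := true) (s2 := false) (a := 2) (b := 0) (c := 3) (cn := .up) (n1 := ndB0q2) (n2 := ndB0q0) (pc := pcB3) (cut := cut_A00pm_203_s3) (xt := xt_A00pm_203_s3) (P1 := 0) (W1 := 536870912) (P2 := 0) (W2 := 536870912) (P3 := 1040187392) (W3 := 5207648)
    rfl k0_A00pm_203_s3

theorem s_A00pm_203_s3 {κ x : ℝ} (hκ : κ * h0 = ken x) (hx : ((1040187392 : ℕ) : ℝ) / S ≤ x)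
    (hx' : x ≤ (((1040187392 : ℕ) : ℝ) + (5207648 : ℕ)) / S) :
    AltA (VFD κ) PP tK tL pcB [⟨4, 0, 0, 2845415833⟩] 2 0 3 0 0 (sgb true) (sgb false) x :=
  strip_altAD (m := 2845415833) false rfl hκ (SH.κ0 hκ (SH.hx1 hx).le (SH.hx2 hx').le) (SH.hx1 hx).le (SH.hx2 hx') (covB02).cov (covB00).cov hx hx' c_A00pm_203_s3 cutA_nil ((okx hx hx').extA (T := tt) (sideB hx hx') hκ rfl rfl (.O 2 true) (.O 0 false) (Or.inr rfl))

noncomputable def cut_A00pm_213_s1 : Cut := Cut.of [[⟨4, 0, 0, 1449551462⟩], [⟨0, 1, 0, 15728640⟩, ⟨1, 1, 0, 15728640⟩, ⟨2, 2, 0, 524288⟩], [⟨0, 0, 1, 46137344⟩, ⟨1, 1, 0, 1048576⟩, ⟨2, 1, 1, 46137344⟩, ⟨0, 0, 0, 1054867456⟩, ⟨0, 1, 0, 38117834⟩, ⟨2, 1, 0, 1054867456⟩, ⟨2, 2, 0, 38117834⟩], [⟨0, 1, 0, 1048576⟩, ⟨1, 0, 1, 46137344⟩, ⟨2, 1, 1, 46137344⟩, ⟨1, 0, 0, 1054867456⟩, ⟨1, 1, 0, 38117834⟩, ⟨2, 1, 0, 1054867456⟩, ⟨2, 2, 0, 38117834⟩]]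

noncomputable def f_A00pm_213_s1 : ℕ → ℕ → ℕ → ℕ → Bool := onCell 0 536870912 536870912 536870912 1040187392 5207648
    (rowF 0 true true false .pnn 2 1 3 (qsf 0 536870912 536870912 536870912 3) ndB0q2 ndB0q1 pcB3 cut_A00pm_213_s1 Ext.none)

def k0_A00pm_213_s1 : ∃ t, chk3 f_A00pm_213_s1 t 1 1 1 = true :=
  ⟨(l 6), by decide +kernel⟩

theorem c_A00pm_213_s1 : CertF 0 536870912 536870912 536870912 1040187392 5207648 true true false .pnn 2 1 3
    ndB0q2 ndB0q1 pcB3 cut_A00pm_213_s1 Ext.none :=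
  certF0 (fam := true) (s1 := true) (s2 := false) (a := 2) (b := 1) (c := 3) (cn := .pnn) (n1 := ndB0q2) (n2 := ndB0q1) (pc := pcB3) (cut := cut_A00pm_213_s1) (xt := Ext.none) (P1 := 0) (W1 := 536870912) (P2 := 536870912) (W2 := 536870912) (P3 := 1040187392) (W3 := 5207648)
    rfl k0_A00pm_213_s1

theorem s_A00pm_213_s1 {κ x : ℝ} (hκ : κ * h0 = ken x) (hx : ((1040187392 : ℕ) : ℝ) / S ≤ x)
    (hx' : x ≤ (((1040187392 : ℕ) : ℝ) + (5207648 : ℕ)) / S)
    (H : CutA (VFD κ) PP tK tL pcB (Cut.of [[⟨0, 1, 0, 15728640⟩, ⟨1, 1, 0, 15728640⟩, ⟨2, 2, 0, 524288⟩], [⟨0, 0, 1, 46137344⟩, ⟨1, 1, 0, 1048576⟩, ⟨2, 1, 1, 46137344⟩, ⟨0, 0, 0, 1054867456⟩, ⟨0, 1, 0, 38117834⟩, ⟨2, 1, 0, 1054867456⟩, ⟨2, 2, 0, 38117834⟩], [⟨0, 1, 0, 1048576⟩, ⟨1, 0, 1, 46137344⟩, ⟨2, 1, 1, 46137344⟩, ⟨1, 0, 0, 1054867456⟩, ⟨1, 1, 0, 38117834⟩, ⟨2, 1, 0, 1054867456⟩, ⟨2, 2, 0, 38117834⟩]]) 2 1 3 0 0 (sgb true) (sgb false) x) :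
    AltA (VFD κ) PP tK tL pcB [⟨3, 0, 0, 1449551462⟩] 2 1 3 0 0 (sgb true) (sgb false) x :=
  strip_altAD (m := 1449551462) true rfl hκ (SH.κ0 hκ (SH.hx1 hx).le (SH.hx2 hx').le) (SH.hx1 hx).le (SH.hx2 hx') (covB02).cov (covB01).cov hx hx' c_A00pm_213_s1 H (noExt_A)

noncomputable def cut_A00mm_001_s1 : Cut := Cut.of [[⟨4, 0, 0, 1449551462⟩]]

noncomputable def f_A00mm_001_s1 : ℕ → ℕ → ℕ → ℕ → Bool := onCell 0 536870912 0 536870912 1040187392 5207648
    (rowF 0 true false false .up 0 0 1 (qsf 0 536870912 0 536870912 1) ndB0q0 ndB0q0 pcB1 cut_A00mm_001_s1 Ext.none)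

def k0_A00mm_001_s1 : ∃ t, chk3 f_A00mm_001_s1 t 1 1 1 = true :=
  ⟨(l 4), by decide +kernel⟩

theorem c_A00mm_001_s1 : CertF 0 536870912 0 536870912 1040187392 5207648 true false false .up 0 0 1
    ndB0q0 ndB0q0 pcB1 cut_A00mm_001_s1 Ext.none :=
  certF0 (fam := true) (s1 := false) (s2 := false) (a := 0) (b := 0) (c := 1) (cn := .up) (n1 := ndB0q0) (n2 := ndB0q0) (pc := pcB1) (cut := cut_A00mm_001_s1) (xt := Ext.none) (P1 := 0) (W1 := 536870912) (P2 := 0) (W2 := 536870912) (P3 := 1040187392) (W3 := 5207648)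
    rfl k0_A00mm_001_s1

theorem s_A00mm_001_s1 {κ x : ℝ} (hκ : κ * h0 = ken x) (hx : ((1040187392 : ℕ) : ℝ) / S ≤ x)
    (hx' : x ≤ (((1040187392 : ℕ) : ℝ) + (5207648 : ℕ)) / S) :
    AltA (VFD κ) PP tK tL pcB [⟨3, 0, 0, 1449551462⟩] 0 0 1 0 0 (sgb false) (sgb false) x :=
  strip_altAD (m := 1449551462) true rfl hκ (SH.κ0 hκ (SH.hx1 hx).le (SH.hx2 hx').le) (SH.hx1 hx).le (SH.hx2 hx') (covB00).cov (covB00).cov hx hx' c_A00mm_001_s1 cutA_nil (noExt_A)

noncomputable def cut_A00mm_001_s3 : Cut := Cut.of [[⟨3, 0, 0, 2845415833⟩]]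

noncomputable def f_A00mm_001_s3 : ℕ → ℕ → ℕ → ℕ → Bool := onCell 0 536870912 0 536870912 1040187392 5207648
    (rowF 0 true false false .up 0 0 1 (qsf 0 536870912 0 536870912 1) ndB0q0 ndB0q0 pcB1 cut_A00mm_001_s3 Ext.none)

def k0_A00mm_001_s3 : ∃ t, chk3 f_A00mm_001_s3 t 1 1 1 = true :=
  ⟨(l 4), by decide +kernel⟩

theorem c_A00mm_001_s3 : CertF 0 536870912 0 536870912 1040187392 5207648 true false false .up 0 0 1
    ndB0q0 ndB0q0 pcB1 cut_A00mm_001_s3 Ext.none :=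
  certF0 (fam := true) (s1 := false) (s2 := false) (a := 0) (b := 0) (c := 1) (cn := .up) (n1 := ndB0q0) (n2 := ndB0q0) (pc := pcB1) (cut := cut_A00mm_001_s3) (xt := Ext.none) (P1 := 0) (W1 := 536870912) (P2 := 0) (W2 := 536870912) (P3 := 1040187392) (W3 := 5207648)
    rfl k0_A00mm_001_s3

theorem s_A00mm_001_s3 {κ x : ℝ} (hκ : κ * h0 = ken x) (hx : ((1040187392 : ℕ) : ℝ) / S ≤ x)
    (hx' : x ≤ (((1040187392 : ℕ) : ℝ) + (5207648 : ℕ)) / S) :
    AltA (VFD κ) PP tK tL pcB [⟨4, 0, 0, 2845415833⟩] 0 0 1 0 0 (sgb false) (sgb false) x :=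
  strip_altAD (m := 2845415833) false rfl hκ (SH.κ0 hκ (SH.hx1 hx).le (SH.hx2 hx').le) (SH.hx1 hx).le (SH.hx2 hx') (covB00).cov (covB00).cov hx hx' c_A00mm_001_s3 cutA_nil (noExt_A)

noncomputable def cut_A00mm_011_s1 : Cut := Cut.of [[⟨4, 0, 0, 1449551462⟩]]

noncomputable def f_A00mm_011_s1 : ℕ → ℕ → ℕ → ℕ → Bool := onCell 0 536870912 536870912 536870912 1040187392 5207648
    (rowF 0 true false false .pnn 0 1 1 (qsf 0 536870912 536870912 536870912 1) ndB0q0 ndB0q1 pcB1 cut_A00mm_011_s1 Ext.none)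

def k0_A00mm_011_s1 : ∃ t, chk3 f_A00mm_011_s1 t 1 1 1 = true :=
  ⟨(l 6), by decide +kernel⟩

theorem c_A00mm_011_s1 : CertF 0 536870912 536870912 536870912 1040187392 5207648 true false false .pnn 0 1 1
    ndB0q0 ndB0q1 pcB1 cut_A00mm_011_s1 Ext.none :=
  certF0 (fam := true) (s1 := false) (s2 := false) (a := 0) (b := 1) (c := 1) (cn := .pnn) (n1 := ndB0q0) (n2 := ndB0q1) (pc := pcB1) (cut := cut_A00mm_011_s1) (xt := Ext.none) (P1 := 0) (W1 := 536870912) (P2 := 536870912) (W2 := 536870912) (P3 := 1040187392) (W3 := 5207648)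
    rfl k0_A00mm_011_s1

theorem s_A00mm_011_s1 {κ x : ℝ} (hκ : κ * h0 = ken x) (hx : ((1040187392 : ℕ) : ℝ) / S ≤ x)
    (hx' : x ≤ (((1040187392 : ℕ) : ℝ) + (5207648 : ℕ)) / S) :
    AltA (VFD κ) PP tK tL pcB [⟨3, 0, 0, 1449551462⟩] 0 1 1 0 0 (sgb false) (sgb false) x :=
  strip_altAD (m := 1449551462) true rfl hκ (SH.κ0 hκ (SH.hx1 hx).le (SH.hx2 hx').le) (SH.hx1 hx).le (SH.hx2 hx') (covB00).cov (covB01).cov hx hx' c_A00mm_011_s1 cutA_nil (noExt_A)

noncomputable def cut_A00mm_011_s3 : Cut := Cut.of [[⟨3, 0, 0, 2845415833⟩]]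

noncomputable def f_A00mm_011_s3 : ℕ → ℕ → ℕ → ℕ → Bool := onCell 0 536870912 536870912 536870912 1040187392 5207648
    (rowF 0 true false false .pnn 0 1 1 (qsf 0 536870912 536870912 536870912 1) ndB0q0 ndB0q1 pcB1 cut_A00mm_011_s3 Ext.none)

def k0_A00mm_011_s3 : ∃ t, chk3 f_A00mm_011_s3 t 1 1 1 = true :=
  ⟨(b (l 4) (l 5)), by decide +kernel⟩

theorem c_A00mm_011_s3 : CertF 0 536870912 536870912 536870912 1040187392 5207648 true false false .pnn 0 1 1
    ndB0q0 ndB0q1 pcB1 cut_A00mm_011_s3 Ext.none :=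
  certF0 (fam := true) (s1 := false) (s2 := false) (a := 0) (b := 1) (c := 1) (cn := .pnn) (n1 := ndB0q0) (n2 := ndB0q1) (pc := pcB1) (cut := cut_A00mm_011_s3) (xt := Ext.none) (P1 := 0) (W1 := 536870912) (P2 := 536870912) (W2 := 536870912) (P3 := 1040187392) (W3 := 5207648)
    rfl k0_A00mm_011_s3

theorem s_A00mm_011_s3 {κ x : ℝ} (hκ : κ * h0 = ken x) (hx : ((1040187392 : ℕ) : ℝ) / S ≤ x)
    (hx' : x ≤ (((1040187392 : ℕ) : ℝ) + (5207648 : ℕ)) / S) :
    AltA (VFD κ) PP tK tL pcB [⟨4, 0, 0, 2845415833⟩] 0 1 1 0 0 (sgb false) (sgb false) x :=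
  strip_altAD (m := 2845415833) false rfl hκ (SH.κ0 hκ (SH.hx1 hx).le (SH.hx2 hx').le) (SH.hx1 hx).le (SH.hx2 hx') (covB00).cov (covB01).cov hx hx' c_A00mm_011_s3 cutA_nil (noExt_A)

noncomputable def cut_A00mm_012_s1 : Cut := Cut.of [[⟨4, 0, 0, 1449551462⟩]]

noncomputable def f_A00mm_012_s1 : ℕ → ℕ → ℕ → ℕ → Bool := onCell 0 536870912 536870912 536870912 1040187392 5207648
    (rowF 0 true false false .pnp 0 1 2 (qsf 0 536870912 536870912 536870912 2) ndB0q0 ndB0q1 pcB2 cut_A00mm_012_s1 Ext.none)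

def k0_A00mm_012_s1 : ∃ t, chk3 f_A00mm_012_s1 t 1 1 1 = true :=
  ⟨(l 6), by decide +kernel⟩

theorem c_A00mm_012_s1 : CertF 0 536870912 536870912 536870912 1040187392 5207648 true false false .pnp 0 1 2
    ndB0q0 ndB0q1 pcB2 cut_A00mm_012_s1 Ext.none :=
  certF0 (fam := true) (s1 := false) (s2 := false) (a := 0) (b := 1) (c := 2) (cn := .pnp) (n1 := ndB0q0) (n2 := ndB0q1) (pc := pcB2) (cut := cut_A00mm_012_s1) (xt := Ext.none) (P1 := 0) (W1 := 536870912) (P2 := 536870912) (W2 := 536870912) (P3 := 1040187392) (W3 := 5207648)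
    rfl k0_A00mm_012_s1

theorem s_A00mm_012_s1 {κ x : ℝ} (hκ : κ * h0 = ken x) (hx : ((1040187392 : ℕ) : ℝ) / S ≤ x)
    (hx' : x ≤ (((1040187392 : ℕ) : ℝ) + (5207648 : ℕ)) / S) :
    AltA (VFD κ) PP tK tL pcB [⟨3, 0, 0, 1449551462⟩] 0 1 2 0 0 (sgb false) (sgb false) x :=
  strip_altAD (m := 1449551462) true rfl hκ (SH.κ0 hκ (SH.hx1 hx).le (SH.hx2 hx').le) (SH.hx1 hx).le (SH.hx2 hx') (covB00).cov (covB01).cov hx hx' c_A00mm_012_s1 cutA_nil (noExt_A)

noncomputable def cut_A00mm_012_s3 : Cut := Cut.of [[⟨3, 0, 0, 2845415833⟩]]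

noncomputable def f_A00mm_012_s3 : ℕ → ℕ → ℕ → ℕ → Bool := onCell 0 536870912 536870912 536870912 1040187392 5207648
    (rowF 0 true false false .pnp 0 1 2 (qsf 0 536870912 536870912 536870912 2) ndB0q0 ndB0q1 pcB2 cut_A00mm_012_s3 Ext.none)

def k0_A00mm_012_s3 : ∃ t, chk3 f_A00mm_012_s3 t 1 1 1 = true :=
  ⟨(b (l 4) (l 5)), by decide +kernel⟩

theorem c_A00mm_012_s3 : CertF 0 536870912 536870912 536870912 1040187392 5207648 true false false .pnp 0 1 2
    ndB0q0 ndB0q1 pcB2 cut_A00mm_012_s3 Ext.none :=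
  certF0 (fam := true) (s1 := false) (s2 := false) (a := 0) (b := 1) (c := 2) (cn := .pnp) (n1 := ndB0q0) (n2 := ndB0q1) (pc := pcB2) (cut := cut_A00mm_012_s3) (xt := Ext.none) (P1 := 0) (W1 := 536870912) (P2 := 536870912) (W2 := 536870912) (P3 := 1040187392) (W3 := 5207648)
    rfl k0_A00mm_012_s3

theorem s_A00mm_012_s3 {κ x : ℝ} (hκ : κ * h0 = ken x) (hx : ((1040187392 : ℕ) : ℝ) / S ≤ x)
    (hx' : x ≤ (((1040187392 : ℕ) : ℝ) + (5207648 : ℕ)) / S) :
    AltA (VFD κ) PP tK tL pcB [⟨4, 0, 0, 2845415833⟩] 0 1 2 0 0 (sgb false) (sgb false) x :=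
  strip_altAD (m := 2845415833) false rfl hκ (SH.κ0 hκ (SH.hx1 hx).le (SH.hx2 hx').le) (SH.hx1 hx).le (SH.hx2 hx') (covB00).cov (covB01).cov hx hx' c_A00mm_012_s3 cutA_nil (noExt_A)

noncomputable def cut_A00mm_022_s1 : Cut := Cut.of [[⟨4, 0, 0, 1449551462⟩]]

noncomputable def f_A00mm_022_s1 : ℕ → ℕ → ℕ → ℕ → Bool := onCell 0 536870912 0 536870912 1040187392 5207648
    (rowF 0 true false false .pp 0 2 2 (qsf 0 536870912 0 536870912 2) ndB0q0 ndB0q2 pcB2 cut_A00mm_022_s1 Ext.none)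

def k0_A00mm_022_s1 : ∃ t, chk3 f_A00mm_022_s1 t 1 1 1 = true :=
  ⟨(l 5), by decide +kernel⟩

theorem c_A00mm_022_s1 : CertF 0 536870912 0 536870912 1040187392 5207648 true false false .pp 0 2 2
    ndB0q0 ndB0q2 pcB2 cut_A00mm_022_s1 Ext.none :=
  certF0 (fam := true) (s1 := false) (s2 := false) (a := 0) (b := 2) (c := 2) (cn := .pp) (n1 := ndB0q0) (n2 := ndB0q2) (pc := pcB2) (cut := cut_A00mm_022_s1) (xt := Ext.none) (P1 := 0) (W1 := 536870912) (P2 := 0) (W2 := 536870912) (P3 := 1040187392) (W3 := 5207648)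
    rfl k0_A00mm_022_s1

theorem s_A00mm_022_s1 {κ x : ℝ} (hκ : κ * h0 = ken x) (hx : ((1040187392 : ℕ) : ℝ) / S ≤ x)
    (hx' : x ≤ (((1040187392 : ℕ) : ℝ) + (5207648 : ℕ)) / S) :
    AltA (VFD κ) PP tK tL pcB [⟨3, 0, 0, 1449551462⟩] 0 2 2 0 0 (sgb false) (sgb false) x :=
  strip_altAD (m := 1449551462) true rfl hκ (SH.κ0 hκ (SH.hx1 hx).le (SH.hx2 hx').le) (SH.hx1 hx).le (SH.hx2 hx') (covB00).cov (covB02).cov hx hx' c_A00mm_022_s1 cutA_nil (noExt_A)

noncomputable def cut_A00mm_022_s3 : Cut := Cut.of [[⟨3, 0, 0, 2845415833⟩]]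

noncomputable def f_A00mm_022_s3 : ℕ → ℕ → ℕ → ℕ → Bool := onCell 0 536870912 0 536870912 1040187392 5207648
    (rowF 0 true false false .pp 0 2 2 (qsf 0 536870912 0 536870912 2) ndB0q0 ndB0q2 pcB2 cut_A00mm_022_s3 Ext.none)

def k0_A00mm_022_s3 : ∃ t, chk3 f_A00mm_022_s3 t 1 1 1 = true :=
  ⟨(l 5), by decide +kernel⟩

theorem c_A00mm_022_s3 : CertF 0 536870912 0 536870912 1040187392 5207648 true false false .pp 0 2 2
    ndB0q0 ndB0q2 pcB2 cut_A00mm_022_s3 Ext.none :=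
  certF0 (fam := true) (s1 := false) (s2 := false) (a := 0) (b := 2) (c := 2) (cn := .pp) (n1 := ndB0q0) (n2 := ndB0q2) (pc := pcB2) (cut := cut_A00mm_022_s3) (xt := Ext.none) (P1 := 0) (W1 := 536870912) (P2 := 0) (W2 := 536870912) (P3 := 1040187392) (W3 := 5207648)
    rfl k0_A00mm_022_s3

theorem s_A00mm_022_s3 {κ x : ℝ} (hκ : κ * h0 = ken x) (hx : ((1040187392 : ℕ) : ℝ) / S ≤ x)
    (hx' : x ≤ (((1040187392 : ℕ) : ℝ) + (5207648 : ℕ)) / S) :
    AltA (VFD κ) PP tK tL pcB [⟨4, 0, 0, 2845415833⟩] 0 2 2 0 0 (sgb false) (sgb false) x :=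
  strip_altAD (m := 2845415833) false rfl hκ (SH.κ0 hκ (SH.hx1 hx).le (SH.hx2 hx').le) (SH.hx1 hx).le (SH.hx2 hx') (covB00).cov (covB02).cov hx hx' c_A00mm_022_s3 cutA_nil (noExt_A)

noncomputable def cut_A00mm_023_s1 : Cut := Cut.of [[⟨4, 0, 0, 1449551462⟩]]

noncomputable def f_A00mm_023_s1 : ℕ → ℕ → ℕ → ℕ → Bool := onCell 0 536870912 0 536870912 1040187392 5207648
    (rowF 0 true false false .up 0 2 3 (qsf 0 536870912 0 536870912 3) ndB0q0 ndB0q2 pcB3 cut_A00mm_023_s1 Ext.none)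

def k0_A00mm_023_s1 : ∃ t, chk3 f_A00mm_023_s1 t 1 1 1 = true :=
  ⟨(l 5), by decide +kernel⟩

theorem c_A00mm_023_s1 : CertF 0 536870912 0 536870912 1040187392 5207648 true false false .up 0 2 3
    ndB0q0 ndB0q2 pcB3 cut_A00mm_023_s1 Ext.none :=
  certF0 (fam := true) (s1 := false) (s2 := false) (a := 0) (b := 2) (c := 3) (cn := .up) (n1 := ndB0q0) (n2 := ndB0q2) (pc := pcB3) (cut := cut_A00mm_023_s1) (xt := Ext.none) (P1 := 0) (W1 := 536870912) (P2 := 0) (W2 := 536870912) (P3 := 1040187392) (W3 := 5207648)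
    rfl k0_A00mm_023_s1

theorem s_A00mm_023_s1 {κ x : ℝ} (hκ : κ * h0 = ken x) (hx : ((1040187392 : ℕ) : ℝ) / S ≤ x)
    (hx' : x ≤ (((1040187392 : ℕ) : ℝ) + (5207648 : ℕ)) / S) :
    AltA (VFD κ) PP tK tL pcB [⟨3, 0, 0, 1449551462⟩] 0 2 3 0 0 (sgb false) (sgb false) x :=
  strip_altAD (m := 1449551462) true rfl hκ (SH.κ0 hκ (SH.hx1 hx).le (SH.hx2 hx').le) (SH.hx1 hx).le (SH.hx2 hx') (covB00).cov (covB02).cov hx hx' c_A00mm_023_s1 cutA_nil (noExt_A)

noncomputable def cut_A00mm_023_s3 : Cut := Cut.of [[⟨3, 0, 0, 2845415833⟩]]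

noncomputable def f_A00mm_023_s3 : ℕ → ℕ → ℕ → ℕ → Bool := onCell 0 536870912 0 536870912 1040187392 5207648
    (rowF 0 true false false .up 0 2 3 (qsf 0 536870912 0 536870912 3) ndB0q0 ndB0q2 pcB3 cut_A00mm_023_s3 Ext.none)

def k0_A00mm_023_s3 : ∃ t, chk3 f_A00mm_023_s3 t 1 1 1 = true :=
  ⟨(l 5), by decide +kernel⟩

theorem c_A00mm_023_s3 : CertF 0 536870912 0 536870912 1040187392 5207648 true false false .up 0 2 3
    ndB0q0 ndB0q2 pcB3 cut_A00mm_023_s3 Ext.none :=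
  certF0 (fam := true) (s1 := false) (s2 := false) (a := 0) (b := 2) (c := 3) (cn := .up) (n1 := ndB0q0) (n2 := ndB0q2) (pc := pcB3) (cut := cut_A00mm_023_s3) (xt := Ext.none) (P1 := 0) (W1 := 536870912) (P2 := 0) (W2 := 536870912) (P3 := 1040187392) (W3 := 5207648)
    rfl k0_A00mm_023_s3

theorem s_A00mm_023_s3 {κ x : ℝ} (hκ : κ * h0 = ken x) (hx : ((1040187392 : ℕ) : ℝ) / S ≤ x)
    (hx' : x ≤ (((1040187392 : ℕ) : ℝ) + (5207648 : ℕ)) / S) :
    AltA (VFD κ) PP tK tL pcB [⟨4, 0, 0, 2845415833⟩] 0 2 3 0 0 (sgb false) (sgb false) x :=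
  strip_altAD (m := 2845415833) false rfl hκ (SH.κ0 hκ (SH.hx1 hx).le (SH.hx2 hx').le) (SH.hx1 hx).le (SH.hx2 hx') (covB00).cov (covB02).cov hx hx' c_A00mm_023_s3 cutA_nil (noExt_A)

noncomputable def cut_A00mm_101_s1 : Cut := Cut.of [[⟨4, 0, 0, 1449551462⟩], [⟨0, 1, 0, 26843545⟩, ⟨1, 0, 0, 26843545⟩, ⟨2, 1, 0, 26843545⟩]]

noncomputable def f_A00mm_101_s1 : ℕ → ℕ → ℕ → ℕ → Bool := onCell 536870912 536870912 0 536870912 1040187392 5207648
    (rowF 0 true false false .npn 1 0 1 (qsf 536870912 536870912 0 536870912 1) ndB0q1 ndB0q0 pcB1 cut_A00mm_101_s1 Ext.none)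

def k0_A00mm_101_s1 : ∃ t, chk3 f_A00mm_101_s1 t 1 1 1 = true :=
  ⟨(l 6), by decide +kernel⟩

theorem c_A00mm_101_s1 : CertF 536870912 536870912 0 536870912 1040187392 5207648 true false false .npn 1 0 1
    ndB0q1 ndB0q0 pcB1 cut_A00mm_101_s1 Ext.none :=
  certF0 (fam := true) (s1 := false) (s2 := false) (a := 1) (b := 0) (c := 1) (cn := .npn) (n1 := ndB0q1) (n2 := ndB0q0) (pc := pcB1) (cut := cut_A00mm_101_s1) (xt := Ext.none) (P1 := 536870912) (W1 := 536870912) (P2 := 0) (W2 := 536870912) (P3 := 1040187392) (W3 := 5207648)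
    rfl k0_A00mm_101_s1

theorem s_A00mm_101_s1 {κ x : ℝ} (hκ : κ * h0 = ken x) (hx : ((1040187392 : ℕ) : ℝ) / S ≤ x)
    (hx' : x ≤ (((1040187392 : ℕ) : ℝ) + (5207648 : ℕ)) / S)
    (H : CutA (VFD κ) PP tK tL pcB (Cut.of [[⟨0, 1, 0, 26843545⟩, ⟨1, 0, 0, 26843545⟩, ⟨2, 1, 0, 26843545⟩]]) 1 0 1 0 0 (sgb false) (sgb false) x) :
    AltA (VFD κ) PP tK tL pcB [⟨3, 0, 0, 1449551462⟩] 1 0 1 0 0 (sgb false) (sgb false) x :=
  strip_altAD (m := 1449551462) true rfl hκ (SH.κ0 hκ (SH.hx1 hx).le (SH.hx2 hx').le) (SH.hx1 hx).le (SH.hx2 hx') (covB01).cov (covB00).cov hx hx' c_A00mm_101_s1 H (noExt_A)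

noncomputable def cut_A00mm_101_s3 : Cut := Cut.of [[⟨3, 0, 0, 2845415833⟩], [⟨0, 1, 0, 26843545⟩, ⟨1, 0, 0, 26843545⟩, ⟨2, 1, 0, 26843545⟩]]

noncomputable def f_A00mm_101_s3 : ℕ → ℕ → ℕ → ℕ → Bool := onCell 536870912 536870912 0 536870912 1040187392 5207648
    (rowF 0 true false false .npn 1 0 1 (qsf 536870912 536870912 0 536870912 1) ndB0q1 ndB0q0 pcB1 cut_A00mm_101_s3 Ext.none)

def k0_A00mm_101_s3 : ∃ t, chk3 f_A00mm_101_s3 t 1 1 1 = true :=
  ⟨(a (l 4) (b (a (l 4) (b (a (l 4) (b (a (l 4) (b (a (l 4) (b (l 14) (l 4))) (l 4))) (l 4))) (l 4))) (l 4))), by decide +kernel⟩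

theorem c_A00mm_101_s3 : CertF 536870912 536870912 0 536870912 1040187392 5207648 true false false .npn 1 0 1
    ndB0q1 ndB0q0 pcB1 cut_A00mm_101_s3 Ext.none :=
  certF0 (fam := true) (s1 := false) (s2 := false) (a := 1) (b := 0) (c := 1) (cn := .npn) (n1 := ndB0q1) (n2 := ndB0q0) (pc := pcB1) (cut := cut_A00mm_101_s3) (xt := Ext.none) (P1 := 536870912) (W1 := 536870912) (P2 := 0) (W2 := 536870912) (P3 := 1040187392) (W3 := 5207648)
    rfl k0_A00mm_101_s3

theorem s_A00mm_101_s3 {κ x : ℝ} (hκ : κ * h0 = ken x) (hx : ((1040187392 : ℕ) : ℝ) / S ≤ x)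
    (hx' : x ≤ (((1040187392 : ℕ) : ℝ) + (5207648 : ℕ)) / S)
    (H : CutA (VFD κ) PP tK tL pcB (Cut.of [[⟨0, 1, 0, 26843545⟩, ⟨1, 0, 0, 26843545⟩, ⟨2, 1, 0, 26843545⟩]]) 1 0 1 0 0 (sgb false) (sgb false) x) :
    AltA (VFD κ) PP tK tL pcB [⟨4, 0, 0, 2845415833⟩] 1 0 1 0 0 (sgb false) (sgb false) x :=
  strip_altAD (m := 2845415833) false rfl hκ (SH.κ0 hκ (SH.hx1 hx).le (SH.hx2 hx').le) (SH.hx1 hx).le (SH.hx2 hx') (covB01).cov (covB00).cov hx hx' c_A00mm_101_s3 H (noExt_A)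

noncomputable def cut_A00mm_102_s1 : Cut := Cut.of [[⟨4, 0, 0, 1449551462⟩], [⟨0, 1, 0, 26843545⟩, ⟨1, 0, 0, 26843545⟩, ⟨2, 1, 0, 26843545⟩]]

noncomputable def f_A00mm_102_s1 : ℕ → ℕ → ℕ → ℕ → Bool := onCell 536870912 536870912 0 536870912 1040187392 5207648
    (rowF 0 true false false .npp 1 0 2 (qsf 536870912 536870912 0 536870912 2) ndB0q1 ndB0q0 pcB2 cut_A00mm_102_s1 Ext.none)

def k0_A00mm_102_s1 : ∃ t, chk3 f_A00mm_102_s1 t 1 1 1 = true :=
  ⟨(l 6), by decide +kernel⟩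

theorem c_A00mm_102_s1 : CertF 536870912 536870912 0 536870912 1040187392 5207648 true false false .npp 1 0 2
    ndB0q1 ndB0q0 pcB2 cut_A00mm_102_s1 Ext.none :=
  certF0 (fam := true) (s1 := false) (s2 := false) (a := 1) (b := 0) (c := 2) (cn := .npp) (n1 := ndB0q1) (n2 := ndB0q0) (pc := pcB2) (cut := cut_A00mm_102_s1) (xt := Ext.none) (P1 := 536870912) (W1 := 536870912) (P2 := 0) (W2 := 536870912) (P3 := 1040187392) (W3 := 5207648)
    rfl k0_A00mm_102_s1

theorem s_A00mm_102_s1 {κ x : ℝ} (hκ : κ * h0 = ken x) (hx : ((1040187392 : ℕ) : ℝ) / S ≤ x)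
    (hx' : x ≤ (((1040187392 : ℕ) : ℝ) + (5207648 : ℕ)) / S)
    (H : CutA (VFD κ) PP tK tL pcB (Cut.of [[⟨0, 1, 0, 26843545⟩, ⟨1, 0, 0, 26843545⟩, ⟨2, 1, 0, 26843545⟩]]) 1 0 2 0 0 (sgb false) (sgb false) x) :
    AltA (VFD κ) PP tK tL pcB [⟨3, 0, 0, 1449551462⟩] 1 0 2 0 0 (sgb false) (sgb false) x :=
  strip_altAD (m := 1449551462) true rfl hκ (SH.κ0 hκ (SH.hx1 hx).le (SH.hx2 hx').le) (SH.hx1 hx).le (SH.hx2 hx') (covB01).cov (covB00).cov hx hx' c_A00mm_102_s1 H (noExt_A)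

noncomputable def cut_A00mm_102_s3 : Cut := Cut.of [[⟨3, 0, 0, 2845415833⟩], [⟨0, 1, 0, 26843545⟩, ⟨1, 0, 0, 26843545⟩, ⟨2, 1, 0, 26843545⟩]]

noncomputable def f_A00mm_102_s3 : ℕ → ℕ → ℕ → ℕ → Bool := onCell 536870912 536870912 0 536870912 1040187392 5207648
    (rowF 0 true false false .npp 1 0 2 (qsf 536870912 536870912 0 536870912 2) ndB0q1 ndB0q0 pcB2 cut_A00mm_102_s3 Ext.none)

def k0_A00mm_102_s3 : ∃ t, chk3 f_A00mm_102_s3 t 1 1 1 = true :=
  ⟨(a (l 4) (b (a (l 4) (b (a (l 4) (b (a (l 4) (a (l 4) (b (b (l 14) (l 4)) (l 4)))) (l 4))) (l 4))) (l 4))), by decide +kernel⟩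

theorem c_A00mm_102_s3 : CertF 536870912 536870912 0 536870912 1040187392 5207648 true false false .npp 1 0 2
    ndB0q1 ndB0q0 pcB2 cut_A00mm_102_s3 Ext.none :=
  certF0 (fam := true) (s1 := false) (s2 := false) (a := 1) (b := 0) (c := 2) (cn := .npp) (n1 := ndB0q1) (n2 := ndB0q0) (pc := pcB2) (cut := cut_A00mm_102_s3) (xt := Ext.none) (P1 := 536870912) (W1 := 536870912) (P2 := 0) (W2 := 536870912) (P3 := 1040187392) (W3 := 5207648)
    rfl k0_A00mm_102_s3

theorem s_A00mm_102_s3 {κ x : ℝ} (hκ : κ * h0 = ken x) (hx : ((1040187392 : ℕ) : ℝ) / S ≤ x)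
    (hx' : x ≤ (((1040187392 : ℕ) : ℝ) + (5207648 : ℕ)) / S)
    (H : CutA (VFD κ) PP tK tL pcB (Cut.of [[⟨0, 1, 0, 26843545⟩, ⟨1, 0, 0, 26843545⟩, ⟨2, 1, 0, 26843545⟩]]) 1 0 2 0 0 (sgb false) (sgb false) x) :
    AltA (VFD κ) PP tK tL pcB [⟨4, 0, 0, 2845415833⟩] 1 0 2 0 0 (sgb false) (sgb false) x :=
  strip_altAD (m := 2845415833) false rfl hκ (SH.κ0 hκ (SH.hx1 hx).le (SH.hx2 hx').le) (SH.hx1 hx).le (SH.hx2 hx') (covB01).cov (covB00).cov hx hx' c_A00mm_102_s3 H (noExt_A)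

noncomputable def cut_A00mm_112_s1 : Cut := Cut.of [[⟨4, 0, 0, 1449551462⟩]]

noncomputable def f_A00mm_112_s1 : ℕ → ℕ → ℕ → ℕ → Bool := onCell 536870912 536870912 536870912 536870912 1040187392 5207648
    (rowF 0 true false false .dn 1 1 2 (qsf 536870912 536870912 536870912 536870912 2) ndB0q1 ndB0q1 pcB2 cut_A00mm_112_s1 Ext.none)

def k0_A00mm_112_s1 : ∃ t, chk3 f_A00mm_112_s1 t 1 1 1 = true :=
  ⟨(l 4), by decide +kernel⟩

theorem c_A00mm_112_s1 : CertF 536870912 536870912 536870912 536870912 1040187392 5207648 true false false .dn 1 1 2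
    ndB0q1 ndB0q1 pcB2 cut_A00mm_112_s1 Ext.none :=
  certF0 (fam := true) (s1 := false) (s2 := false) (a := 1) (b := 1) (c := 2) (cn := .dn) (n1 := ndB0q1) (n2 := ndB0q1) (pc := pcB2) (cut := cut_A00mm_112_s1) (xt := Ext.none) (P1 := 536870912) (W1 := 536870912) (P2 := 536870912) (W2 := 536870912) (P3 := 1040187392) (W3 := 5207648)
    rfl k0_A00mm_112_s1

theorem s_A00mm_112_s1 {κ x : ℝ} (hκ : κ * h0 = ken x) (hx : ((1040187392 : ℕ) : ℝ) / S ≤ x)
    (hx' : x ≤ (((1040187392 : ℕ) : ℝ) + (5207648 : ℕ)) / S) :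
    AltA (VFD κ) PP tK tL pcB [⟨3, 0, 0, 1449551462⟩] 1 1 2 0 0 (sgb false) (sgb false) x :=
  strip_altAD (m := 1449551462) true rfl hκ (SH.κ0 hκ (SH.hx1 hx).le (SH.hx2 hx').le) (SH.hx1 hx).le (SH.hx2 hx') (covB01).cov (covB01).cov hx hx' c_A00mm_112_s1 cutA_nil (noExt_A)

noncomputable def cut_A00mm_112_s3 : Cut := Cut.of [[⟨3, 0, 0, 2845415833⟩]]

noncomputable def f_A00mm_112_s3 : ℕ → ℕ → ℕ → ℕ → Bool := onCell 536870912 536870912 536870912 536870912 1040187392 5207648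
    (rowF 0 true false false .dn 1 1 2 (qsf 536870912 536870912 536870912 536870912 2) ndB0q1 ndB0q1 pcB2 cut_A00mm_112_s3 Ext.none)

def k0_A00mm_112_s3 : ∃ t, chk3 f_A00mm_112_s3 t 1 1 1 = true :=
  ⟨(l 4), by decide +kernel⟩

theorem c_A00mm_112_s3 : CertF 536870912 536870912 536870912 536870912 1040187392 5207648 true false false .dn 1 1 2
    ndB0q1 ndB0q1 pcB2 cut_A00mm_112_s3 Ext.none :=
  certF0 (fam := true) (s1 := false) (s2 := false) (a := 1) (b := 1) (c := 2) (cn := .dn) (n1 := ndB0q1) (n2 := ndB0q1) (pc := pcB2) (cut := cut_A00mm_112_s3) (xt := Ext.none) (P1 := 536870912) (W1 := 536870912) (P2 := 536870912) (W2 := 536870912) (P3 := 1040187392) (W3 := 5207648)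
    rfl k0_A00mm_112_s3

theorem s_A00mm_112_s3 {κ x : ℝ} (hκ : κ * h0 = ken x) (hx : ((1040187392 : ℕ) : ℝ) / S ≤ x)
    (hx' : x ≤ (((1040187392 : ℕ) : ℝ) + (5207648 : ℕ)) / S) :
    AltA (VFD κ) PP tK tL pcB [⟨4, 0, 0, 2845415833⟩] 1 1 2 0 0 (sgb false) (sgb false) x :=
  strip_altAD (m := 2845415833) false rfl hκ (SH.κ0 hκ (SH.hx1 hx).le (SH.hx2 hx').le) (SH.hx1 hx).le (SH.hx2 hx') (covB01).cov (covB01).cov hx hx' c_A00mm_112_s3 cutA_nil (noExt_A)

noncomputable def cut_A00mm_113_s1 : Cut := Cut.of [[⟨4, 0, 0, 1449551462⟩]]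

noncomputable def f_A00mm_113_s1 : ℕ → ℕ → ℕ → ℕ → Bool := onCell 536870912 536870912 536870912 536870912 1040187392 5207648
    (rowF 0 true false false .nn 1 1 3 (qsf 536870912 536870912 536870912 536870912 3) ndB0q1 ndB0q1 pcB3 cut_A00mm_113_s1 Ext.none)

def k0_A00mm_113_s1 : ∃ t, chk3 f_A00mm_113_s1 t 1 1 1 = true :=
  ⟨(l 4), by decide +kernel⟩

theorem c_A00mm_113_s1 : CertF 536870912 536870912 536870912 536870912 1040187392 5207648 true false false .nn 1 1 3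
    ndB0q1 ndB0q1 pcB3 cut_A00mm_113_s1 Ext.none :=
  certF0 (fam := true) (s1 := false) (s2 := false) (a := 1) (b := 1) (c := 3) (cn := .nn) (n1 := ndB0q1) (n2 := ndB0q1) (pc := pcB3) (cut := cut_A00mm_113_s1) (xt := Ext.none) (P1 := 536870912) (W1 := 536870912) (P2 := 536870912) (W2 := 536870912) (P3 := 1040187392) (W3 := 5207648)
    rfl k0_A00mm_113_s1

theorem s_A00mm_113_s1 {κ x : ℝ} (hκ : κ * h0 = ken x) (hx : ((1040187392 : ℕ) : ℝ) / S ≤ x)
    (hx' : x ≤ (((1040187392 : ℕ) : ℝ) + (5207648 : ℕ)) / S) :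
    AltA (VFD κ) PP tK tL pcB [⟨3, 0, 0, 1449551462⟩] 1 1 3 0 0 (sgb false) (sgb false) x :=
  strip_altAD (m := 1449551462) true rfl hκ (SH.κ0 hκ (SH.hx1 hx).le (SH.hx2 hx').le) (SH.hx1 hx).le (SH.hx2 hx') (covB01).cov (covB01).cov hx hx' c_A00mm_113_s1 cutA_nil (noExt_A)

noncomputable def cut_A00mm_113_s3 : Cut := Cut.of [[⟨3, 0, 0, 2845415833⟩]]

noncomputable def f_A00mm_113_s3 : ℕ → ℕ → ℕ → ℕ → Bool := onCell 536870912 536870912 536870912 536870912 1040187392 5207648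
    (rowF 0 true false false .nn 1 1 3 (qsf 536870912 536870912 536870912 536870912 3) ndB0q1 ndB0q1 pcB3 cut_A00mm_113_s3 Ext.none)

def k0_A00mm_113_s3 : ∃ t, chk3 f_A00mm_113_s3 t 1 1 1 = true :=
  ⟨(l 4), by decide +kernel⟩

theorem c_A00mm_113_s3 : CertF 536870912 536870912 536870912 536870912 1040187392 5207648 true false false .nn 1 1 3
    ndB0q1 ndB0q1 pcB3 cut_A00mm_113_s3 Ext.none :=
  certF0 (fam := true) (s1 := false) (s2 := false) (a := 1) (b := 1) (c := 3) (cn := .nn) (n1 := ndB0q1) (n2 := ndB0q1) (pc := pcB3) (cut := cut_A00mm_113_s3) (xt := Ext.none) (P1 := 536870912) (W1 := 536870912) (P2 := 536870912) (W2 := 536870912) (P3 := 1040187392) (W3 := 5207648)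
    rfl k0_A00mm_113_s3

theorem s_A00mm_113_s3 {κ x : ℝ} (hκ : κ * h0 = ken x) (hx : ((1040187392 : ℕ) : ℝ) / S ≤ x)
    (hx' : x ≤ (((1040187392 : ℕ) : ℝ) + (5207648 : ℕ)) / S) :
    AltA (VFD κ) PP tK tL pcB [⟨4, 0, 0, 2845415833⟩] 1 1 3 0 0 (sgb false) (sgb false) x :=
  strip_altAD (m := 2845415833) false rfl hκ (SH.κ0 hκ (SH.hx1 hx).le (SH.hx2 hx').le) (SH.hx1 hx).le (SH.hx2 hx') (covB01).cov (covB01).cov hx hx' c_A00mm_113_s3 cutA_nil (noExt_A)

noncomputable def cut_A00mm_123_s1 : Cut := Cut.of [[⟨4, 0, 0, 1449551462⟩]]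

noncomputable def f_A00mm_123_s1 : ℕ → ℕ → ℕ → ℕ → Bool := onCell 536870912 536870912 0 536870912 1040187392 5207648
    (rowF 0 true false false .npn 1 2 3 (qsf 536870912 536870912 0 536870912 3) ndB0q1 ndB0q2 pcB3 cut_A00mm_123_s1 Ext.none)

def k0_A00mm_123_s1 : ∃ t, chk3 f_A00mm_123_s1 t 1 1 1 = true :=
  ⟨(l 6), by decide +kernel⟩

theorem c_A00mm_123_s1 : CertF 536870912 536870912 0 536870912 1040187392 5207648 true false false .npn 1 2 3
    ndB0q1 ndB0q2 pcB3 cut_A00mm_123_s1 Ext.none :=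
  certF0 (fam := true) (s1 := false) (s2 := false) (a := 1) (b := 2) (c := 3) (cn := .npn) (n1 := ndB0q1) (n2 := ndB0q2) (pc := pcB3) (cut := cut_A00mm_123_s1) (xt := Ext.none) (P1 := 536870912) (W1 := 536870912) (P2 := 0) (W2 := 536870912) (P3 := 1040187392) (W3 := 5207648)
    rfl k0_A00mm_123_s1

theorem s_A00mm_123_s1 {κ x : ℝ} (hκ : κ * h0 = ken x) (hx : ((1040187392 : ℕ) : ℝ) / S ≤ x)
    (hx' : x ≤ (((1040187392 : ℕ) : ℝ) + (5207648 : ℕ)) / S) :
    AltA (VFD κ) PP tK tL pcB [⟨3, 0, 0, 1449551462⟩] 1 2 3 0 0 (sgb false) (sgb false) x :=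
  strip_altAD (m := 1449551462) true rfl hκ (SH.κ0 hκ (SH.hx1 hx).le (SH.hx2 hx').le) (SH.hx1 hx).le (SH.hx2 hx') (covB01).cov (covB02).cov hx hx' c_A00mm_123_s1 cutA_nil (noExt_A)

noncomputable def cut_A00mm_123_s3 : Cut := Cut.of [[⟨3, 0, 0, 2845415833⟩]]

noncomputable def f_A00mm_123_s3 : ℕ → ℕ → ℕ → ℕ → Bool := onCell 536870912 536870912 0 536870912 1040187392 5207648
    (rowF 0 true false false .npn 1 2 3 (qsf 536870912 536870912 0 536870912 3) ndB0q1 ndB0q2 pcB3 cut_A00mm_123_s3 Ext.none)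

def k0_A00mm_123_s3 : ∃ t, chk3 f_A00mm_123_s3 t 1 1 1 = true :=
  ⟨(a (l 5) (l 4)), by decide +kernel⟩

theorem c_A00mm_123_s3 : CertF 536870912 536870912 0 536870912 1040187392 5207648 true false false .npn 1 2 3
    ndB0q1 ndB0q2 pcB3 cut_A00mm_123_s3 Ext.none :=
  certF0 (fam := true) (s1 := false) (s2 := false) (a := 1) (b := 2) (c := 3) (cn := .npn) (n1 := ndB0q1) (n2 := ndB0q2) (pc := pcB3) (cut := cut_A00mm_123_s3) (xt := Ext.none) (P1 := 536870912) (W1 := 536870912) (P2 := 0) (W2 := 536870912) (P3 := 1040187392) (W3 := 5207648)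
    rfl k0_A00mm_123_s3

theorem s_A00mm_123_s3 {κ x : ℝ} (hκ : κ * h0 = ken x) (hx : ((1040187392 : ℕ) : ℝ) / S ≤ x)
    (hx' : x ≤ (((1040187392 : ℕ) : ℝ) + (5207648 : ℕ)) / S) :
    AltA (VFD κ) PP tK tL pcB [⟨4, 0, 0, 2845415833⟩] 1 2 3 0 0 (sgb false) (sgb false) x :=
  strip_altAD (m := 2845415833) false rfl hκ (SH.κ0 hκ (SH.hx1 hx).le (SH.hx2 hx').le) (SH.hx1 hx).le (SH.hx2 hx') (covB01).cov (covB02).cov hx hx' c_A00mm_123_s3 cutA_nil (noExt_A)

noncomputable def cut_A00mm_202_s1 : Cut := Cut.of [[⟨4, 0, 0, 1449551462⟩], [⟨0, 1, 0, 22369621⟩, ⟨1, 0, 0, 22369621⟩, ⟨2, 1, 0, 22369621⟩]]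

noncomputable def f_A00mm_202_s1 : ℕ → ℕ → ℕ → ℕ → Bool := onCell 0 536870912 0 536870912 1040187392 5207648
    (rowF 0 true false false .pp 2 0 2 (qsf 0 536870912 0 536870912 2) ndB0q2 ndB0q0 pcB2 cut_A00mm_202_s1 Ext.none)

def k0_A00mm_202_s1 : ∃ t, chk3 f_A00mm_202_s1 t 1 1 1 = true :=
  ⟨(l 6), by decide +kernel⟩

theorem c_A00mm_202_s1 : CertF 0 536870912 0 536870912 1040187392 5207648 true false false .pp 2 0 2
    ndB0q2 ndB0q0 pcB2 cut_A00mm_202_s1 Ext.none :=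
  certF0 (fam := true) (s1 := false) (s2 := false) (a := 2) (b := 0) (c := 2) (cn := .pp) (n1 := ndB0q2) (n2 := ndB0q0) (pc := pcB2) (cut := cut_A00mm_202_s1) (xt := Ext.none) (P1 := 0) (W1 := 536870912) (P2 := 0) (W2 := 536870912) (P3 := 1040187392) (W3 := 5207648)
    rfl k0_A00mm_202_s1

theorem s_A00mm_202_s1 {κ x : ℝ} (hκ : κ * h0 = ken x) (hx : ((1040187392 : ℕ) : ℝ) / S ≤ x)
    (hx' : x ≤ (((1040187392 : ℕ) : ℝ) + (5207648 : ℕ)) / S)
    (H : CutA (VFD κ) PP tK tL pcB (Cut.of [[⟨0, 1, 0, 22369621⟩, ⟨1, 0, 0, 22369621⟩, ⟨2, 1, 0, 22369621⟩]]) 2 0 2 0 0 (sgb false) (sgb false) x) :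
    AltA (VFD κ) PP tK tL pcB [⟨3, 0, 0, 1449551462⟩] 2 0 2 0 0 (sgb false) (sgb false) x :=
  strip_altAD (m := 1449551462) true rfl hκ (SH.κ0 hκ (SH.hx1 hx).le (SH.hx2 hx').le) (SH.hx1 hx).le (SH.hx2 hx') (covB02).cov (covB00).cov hx hx' c_A00mm_202_s1 H (noExt_A)

noncomputable def cut_A00mm_203_s1 : Cut := Cut.of [[⟨4, 0, 0, 1449551462⟩]]

noncomputable def f_A00mm_203_s1 : ℕ → ℕ → ℕ → ℕ → Bool := onCell 0 536870912 0 536870912 1040187392 5207648
    (rowF 0 true false false .up 2 0 3 (qsf 0 536870912 0 536870912 3) ndB0q2 ndB0q0 pcB3 cut_A00mm_203_s1 Ext.none)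

def k0_A00mm_203_s1 : ∃ t, chk3 f_A00mm_203_s1 t 1 1 1 = true :=
  ⟨(l 6), by decide +kernel⟩

theorem c_A00mm_203_s1 : CertF 0 536870912 0 536870912 1040187392 5207648 true false false .up 2 0 3
    ndB0q2 ndB0q0 pcB3 cut_A00mm_203_s1 Ext.none :=
  certF0 (fam := true) (s1 := false) (s2 := false) (a := 2) (b := 0) (c := 3) (cn := .up) (n1 := ndB0q2) (n2 := ndB0q0) (pc := pcB3) (cut := cut_A00mm_203_s1) (xt := Ext.none) (P1 := 0) (W1 := 536870912) (P2 := 0) (W2 := 536870912) (P3 := 1040187392) (W3 := 5207648)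
    rfl k0_A00mm_203_s1

theorem s_A00mm_203_s1 {κ x : ℝ} (hκ : κ * h0 = ken x) (hx : ((1040187392 : ℕ) : ℝ) / S ≤ x)
    (hx' : x ≤ (((1040187392 : ℕ) : ℝ) + (5207648 : ℕ)) / S) :
    AltA (VFD κ) PP tK tL pcB [⟨3, 0, 0, 1449551462⟩] 2 0 3 0 0 (sgb false) (sgb false) x :=
  strip_altAD (m := 1449551462) true rfl hκ (SH.κ0 hκ (SH.hx1 hx).le (SH.hx2 hx').le) (SH.hx1 hx).le (SH.hx2 hx') (covB02).cov (covB00).cov hx hx' c_A00mm_203_s1 cutA_nil (noExt_A)

noncomputable def cut_A00mm_203_s3 : Cut := Cut.of [[⟨3, 0, 0, 2845415833⟩]]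

noncomputable def xt_A00mm_203_s3 : Ext := strExt dd true false false .u2 .u0m .s2m .up 2 0 3 rfl rfl gl3 vv ndB0q2 ndB0q0

noncomputable def f_A00mm_203_s3 : ℕ → ℕ → ℕ → ℕ → Bool := onCell 0 536870912 1610612736 536870912 1040187392 5207648
    (rowF 1 true false false .up 2 0 3 (qsf 0 536870912 0 536870912 3) ndB0q2 ndB0q0 pcB3 cut_A00mm_203_s3 xt_A00mm_203_s3)

def k0_A00mm_203_s3 : ∃ t, chk3 f_A00mm_203_s3 t 1 1 1 = true :=
  ⟨(b (a (a (b (b (a (b (l 16434536) (l 16423032)) (a (b (l 16529880) (l 16513424)) (b (l 530095119) (l 530410767)))) (a (b (l 530620175) (a (l 531087375) (l 531000079))) (a (b (l 530748431) (l 530904847)) (b (l 530646031) (l 530801423))))) (b (b (a (a (l 531160335) (l 531075087)) (a (l 530980623) (l 530876943))) (a (l 2) (l 2))) (l 2))) (b (b (a (a (b (l 529992719) (l 530304015)) (b (l 529883663) (l 530190095))) (a (b (l 529767439) (l 4)) (l 4))) (a (a (b (l 530536207) (l 4)) (l 4)) (l 4)))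 (l 4))) (l 4)) (l 2)), by decide +kernel⟩

theorem c_A00mm_203_s3 : CertF 0 536870912 0 536870912 1040187392 5207648 true false false .up 2 0 3
    ndB0q2 ndB0q0 pcB3 cut_A00mm_203_s3 xt_A00mm_203_s3 :=
  certF1 (fam := true) (s1 := false) (s2 := false) (a := 2) (b := 0) (c := 3) (cn := .up) (n1 := ndB0q2) (n2 := ndB0q0) (pc := pcB3) (cut := cut_A00mm_203_s3) (xt := xt_A00mm_203_s3) (P1 := 0) (W1 := 536870912) (P2 := 0) (W2 := 536870912) (P3 := 1040187392) (W3 := 5207648)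
    rfl (fun _ => rfl) k0_A00mm_203_s3

theorem s_A00mm_203_s3 {κ x : ℝ} (hκ : κ * h0 = ken x) (hx : ((1040187392 : ℕ) : ℝ) / S ≤ x)
    (hx' : x ≤ (((1040187392 : ℕ) : ℝ) + (5207648 : ℕ)) / S) :
    AltA (VFD κ) PP tK tL pcB [⟨4, 0, 0, 2845415833⟩] 2 0 3 0 0 (sgb false) (sgb false) x :=
  strip_altAD (m := 2845415833) false rfl hκ (SH.κ0 hκ (SH.hx1 hx).le (SH.hx2 hx').le) (SH.hx1 hx).le (SH.hx2 hx') (covB02).cov (covB00).cov hx hx' c_A00mm_203_s3 cutA_nil ((okx hx hx').extA (T := tt) (sideB hx hx') hκ rfl rfl (.O 2 false) (.O 0 false) (Or.inr rfl))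

noncomputable def cut_A00mm_213_s1 : Cut := Cut.of [[⟨4, 0, 0, 1449551462⟩]]

noncomputable def f_A00mm_213_s1 : ℕ → ℕ → ℕ → ℕ → Bool := onCell 0 536870912 536870912 536870912 1040187392 5207648
    (rowF 0 true false false .pnn 2 1 3 (qsf 0 536870912 536870912 536870912 3) ndB0q2 ndB0q1 pcB3 cut_A00mm_213_s1 Ext.none)

def k0_A00mm_213_s1 : ∃ t, chk3 f_A00mm_213_s1 t 1 1 1 = true :=
  ⟨(l 6), by decide +kernel⟩

theorem c_A00mm_213_s1 : CertF 0 536870912 536870912 536870912 1040187392 5207648 true false false .pnn 2 1 3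
    ndB0q2 ndB0q1 pcB3 cut_A00mm_213_s1 Ext.none :=
  certF0 (fam := true) (s1 := false) (s2 := false) (a := 2) (b := 1) (c := 3) (cn := .pnn) (n1 := ndB0q2) (n2 := ndB0q1) (pc := pcB3) (cut := cut_A00mm_213_s1) (xt := Ext.none) (P1 := 0) (W1 := 536870912) (P2 := 536870912) (W2 := 536870912) (P3 := 1040187392) (W3 := 5207648)
    rfl k0_A00mm_213_s1

theorem s_A00mm_213_s1 {κ x : ℝ} (hκ : κ * h0 = ken x) (hx : ((1040187392 : ℕ) : ℝ) / S ≤ x)
    (hx' : x ≤ (((1040187392 : ℕ) : ℝ) + (5207648 : ℕ)) / S) :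
    AltA (VFD κ) PP tK tL pcB [⟨3, 0, 0, 1449551462⟩] 2 1 3 0 0 (sgb false) (sgb false) x :=
  strip_altAD (m := 1449551462) true rfl hκ (SH.κ0 hκ (SH.hx1 hx).le (SH.hx2 hx').le) (SH.hx1 hx).le (SH.hx2 hx') (covB02).cov (covB01).cov hx hx' c_A00mm_213_s1 cutA_nil (noExt_A)

noncomputable def cut_A00mm_213_s3 : Cut := Cut.of [[⟨3, 0, 0, 2845415833⟩]]

noncomputable def xt_A00mm_213_s3 : Ext := strExt dd true false false .u2 .u0m .s2m .pnn 2 1 3 rfl rfl gl3 vv ndB0q2 ndB0q1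

noncomputable def f_A00mm_213_s3 : ℕ → ℕ → ℕ → ℕ → Bool := onCell 0 536870912 536870912 536870912 1040187392 5207648
    (rowF 0 true false false .pnn 2 1 3 (qsf 0 536870912 536870912 536870912 3) ndB0q2 ndB0q1 pcB3 cut_A00mm_213_s3 xt_A00mm_213_s3)

def k0_A00mm_213_s3 : ∃ t, chk3 f_A00mm_213_s3 t 1 1 1 = true :=
  ⟨(a (b (b (a (b (a (b (a (l 531152911) (l 531072783)) (a (l 531068687) (l 530996239))) (a (b (l 530983183) (l 4)) (l 4))) (a (b (a (l 530905871) (l 4)) (l 4)) (l 4))) (l 4)) (l 4)) (l 4)) (l 4)), by decide +kernel⟩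

theorem c_A00mm_213_s3 : CertF 0 536870912 536870912 536870912 1040187392 5207648 true false false .pnn 2 1 3
    ndB0q2 ndB0q1 pcB3 cut_A00mm_213_s3 xt_A00mm_213_s3 :=
  certF0 (fam := true) (s1 := false) (s2 := false) (a := 2) (b := 1) (c := 3) (cn := .pnn) (n1 := ndB0q2) (n2 := ndB0q1) (pc := pcB3) (cut := cut_A00mm_213_s3) (xt := xt_A00mm_213_s3) (P1 := 0) (W1 := 536870912) (P2 := 536870912) (W2 := 536870912) (P3 := 1040187392) (W3 := 5207648)
    rfl k0_A00mm_213_s3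

theorem s_A00mm_213_s3 {κ x : ℝ} (hκ : κ * h0 = ken x) (hx : ((1040187392 : ℕ) : ℝ) / S ≤ x)
    (hx' : x ≤ (((1040187392 : ℕ) : ℝ) + (5207648 : ℕ)) / S) :
    AltA (VFD κ) PP tK tL pcB [⟨4, 0, 0, 2845415833⟩] 2 1 3 0 0 (sgb false) (sgb false) x :=
  strip_altAD (m := 2845415833) false rfl hκ (SH.κ0 hκ (SH.hx1 hx).le (SH.hx2 hx').le) (SH.hx1 hx).le (SH.hx2 hx') (covB02).cov (covB01).cov hx hx' c_A00mm_213_s3 cutA_nil ((okx hx hx').extA (T := tt) (sideB hx hx') hκ rfl rfl (.O 2 false) (.O 1 false) (Or.inr rfl))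

noncomputable def cut_A05pp_001_s1 : Cut := Cut.of [[⟨4, 0, 0, 1449551462⟩]]

noncomputable def f_A05pp_001_s1 : ℕ → ℕ → ℕ → ℕ → Bool := onCell 0 536870912 0 536870912 1040187392 5207648
    (rowF 0 true true true .up 0 0 1 (qsf 0 536870912 0 536870912 1) ndB0q0 ndB5q0 pcB1 cut_A05pp_001_s1 Ext.none)

def k0_A05pp_001_s1 : ∃ t, chk3 f_A05pp_001_s1 t 1 1 1 = true :=
  ⟨(l 4), by decide +kernel⟩

theorem c_A05pp_001_s1 : CertF 0 536870912 0 536870912 1040187392 5207648 true true true .up 0 0 1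
    ndB0q0 ndB5q0 pcB1 cut_A05pp_001_s1 Ext.none :=
  certF0 (fam := true) (s1 := true) (s2 := true) (a := 0) (b := 0) (c := 1) (cn := .up) (n1 := ndB0q0) (n2 := ndB5q0) (pc := pcB1) (cut := cut_A05pp_001_s1) (xt := Ext.none) (P1 := 0) (W1 := 536870912) (P2 := 0) (W2 := 536870912) (P3 := 1040187392) (W3 := 5207648)
    rfl k0_A05pp_001_s1

theorem s_A05pp_001_s1 {κ x : ℝ} (hκ : κ * h0 = ken x) (hx : ((1040187392 : ℕ) : ℝ) / S ≤ x)
    (hx' : x ≤ (((1040187392 : ℕ) : ℝ) + (5207648 : ℕ)) / S) :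
    AltA (VFD κ) PP tK tL pcB [⟨3, 0, 0, 1449551462⟩] 0 0 1 0 5 (sgb true) (sgb true) x :=
  strip_altAD (m := 1449551462) true rfl hκ (SH.κ0 hκ (SH.hx1 hx).le (SH.hx2 hx').le) (SH.hx1 hx).le (SH.hx2 hx') (covB00).cov (covB50).cov hx hx' c_A05pp_001_s1 cutA_nil (noExt_A)

noncomputable def cut_A05pp_011_s1 : Cut := Cut.of [[⟨4, 0, 0, 1449551462⟩]]

noncomputable def f_A05pp_011_s1 : ℕ → ℕ → ℕ → ℕ → Bool := onCell 0 536870912 536870912 536870912 1040187392 5207648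
    (rowF 0 true true true .pnn 0 1 1 (qsf 0 536870912 536870912 536870912 1) ndB0q0 ndB5q1 pcB1 cut_A05pp_011_s1 Ext.none)

def k0_A05pp_011_s1 : ∃ t, chk3 f_A05pp_011_s1 t 1 1 1 = true :=
  ⟨(l 4), by decide +kernel⟩

theorem c_A05pp_011_s1 : CertF 0 536870912 536870912 536870912 1040187392 5207648 true true true .pnn 0 1 1
    ndB0q0 ndB5q1 pcB1 cut_A05pp_011_s1 Ext.none :=
  certF0 (fam := true) (s1 := true) (s2 := true) (a := 0) (b := 1) (c := 1) (cn := .pnn) (n1 := ndB0q0) (n2 := ndB5q1) (pc := pcB1) (cut := cut_A05pp_011_s1) (xt := Ext.none) (P1 := 0) (W1 := 536870912) (P2 := 536870912) (W2 := 536870912) (P3 := 1040187392) (W3 := 5207648)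
    rfl k0_A05pp_011_s1

theorem s_A05pp_011_s1 {κ x : ℝ} (hκ : κ * h0 = ken x) (hx : ((1040187392 : ℕ) : ℝ) / S ≤ x)
    (hx' : x ≤ (((1040187392 : ℕ) : ℝ) + (5207648 : ℕ)) / S) :
    AltA (VFD κ) PP tK tL pcB [⟨3, 0, 0, 1449551462⟩] 0 1 1 0 5 (sgb true) (sgb true) x :=
  strip_altAD (m := 1449551462) true rfl hκ (SH.κ0 hκ (SH.hx1 hx).le (SH.hx2 hx').le) (SH.hx1 hx).le (SH.hx2 hx') (covB00).cov (covB51).cov hx hx' c_A05pp_011_s1 cutA_nil (noExt_A)

noncomputable def cut_A05pp_012_s1 : Cut := Cut.of [[⟨4, 0, 0, 1449551462⟩]]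

noncomputable def f_A05pp_012_s1 : ℕ → ℕ → ℕ → ℕ → Bool := onCell 0 536870912 536870912 536870912 1040187392 5207648
    (rowF 0 true true true .pnp 0 1 2 (qsf 0 536870912 536870912 536870912 2) ndB0q0 ndB5q1 pcB2 cut_A05pp_012_s1 Ext.none)

def k0_A05pp_012_s1 : ∃ t, chk3 f_A05pp_012_s1 t 1 1 1 = true :=
  ⟨(l 4), by decide +kernel⟩

theorem c_A05pp_012_s1 : CertF 0 536870912 536870912 536870912 1040187392 5207648 true true true .pnp 0 1 2
    ndB0q0 ndB5q1 pcB2 cut_A05pp_012_s1 Ext.none :=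
  certF0 (fam := true) (s1 := true) (s2 := true) (a := 0) (b := 1) (c := 2) (cn := .pnp) (n1 := ndB0q0) (n2 := ndB5q1) (pc := pcB2) (cut := cut_A05pp_012_s1) (xt := Ext.none) (P1 := 0) (W1 := 536870912) (P2 := 536870912) (W2 := 536870912) (P3 := 1040187392) (W3 := 5207648)
    rfl k0_A05pp_012_s1

theorem s_A05pp_012_s1 {κ x : ℝ} (hκ : κ * h0 = ken x) (hx : ((1040187392 : ℕ) : ℝ) / S ≤ x)
    (hx' : x ≤ (((1040187392 : ℕ) : ℝ) + (5207648 : ℕ)) / S) :
    AltA (VFD κ) PP tK tL pcB [⟨3, 0, 0, 1449551462⟩] 0 1 2 0 5 (sgb true) (sgb true) x :=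
  strip_altAD (m := 1449551462) true rfl hκ (SH.κ0 hκ (SH.hx1 hx).le (SH.hx2 hx').le) (SH.hx1 hx).le (SH.hx2 hx') (covB00).cov (covB51).cov hx hx' c_A05pp_012_s1 cutA_nil (noExt_A)

noncomputable def cut_A05pp_022_s1 : Cut := Cut.of [[⟨4, 0, 0, 1449551462⟩]]

noncomputable def f_A05pp_022_s1 : ℕ → ℕ → ℕ → ℕ → Bool := onCell 0 536870912 1073741824 536870912 1040187392 5207648
    (rowF 0 true true true .pp 0 2 2 (qsf 0 536870912 1073741824 536870912 2) ndB0q0 ndB5q2 pcB2 cut_A05pp_022_s1 Ext.none)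

def k0_A05pp_022_s1 : ∃ t, chk3 f_A05pp_022_s1 t 1 1 1 = true :=
  ⟨(l 4), by decide +kernel⟩

theorem c_A05pp_022_s1 : CertF 0 536870912 1073741824 536870912 1040187392 5207648 true true true .pp 0 2 2
    ndB0q0 ndB5q2 pcB2 cut_A05pp_022_s1 Ext.none :=
  certF0 (fam := true) (s1 := true) (s2 := true) (a := 0) (b := 2) (c := 2) (cn := .pp) (n1 := ndB0q0) (n2 := ndB5q2) (pc := pcB2) (cut := cut_A05pp_022_s1) (xt := Ext.none) (P1 := 0) (W1 := 536870912) (P2 := 1073741824) (W2 := 536870912) (P3 := 1040187392) (W3 := 5207648)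
    rfl k0_A05pp_022_s1

theorem s_A05pp_022_s1 {κ x : ℝ} (hκ : κ * h0 = ken x) (hx : ((1040187392 : ℕ) : ℝ) / S ≤ x)
    (hx' : x ≤ (((1040187392 : ℕ) : ℝ) + (5207648 : ℕ)) / S) :
    AltA (VFD κ) PP tK tL pcB [⟨3, 0, 0, 1449551462⟩] 0 2 2 0 5 (sgb true) (sgb true) x :=
  strip_altAD (m := 1449551462) true rfl hκ (SH.κ0 hκ (SH.hx1 hx).le (SH.hx2 hx').le) (SH.hx1 hx).le (SH.hx2 hx') (covB00).cov (covB52).cov hx hx' c_A05pp_022_s1 cutA_nil (noExt_A)

noncomputable def cut_A05pp_023_s1 : Cut := Cut.of [[⟨4, 0, 0, 1449551462⟩]]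

noncomputable def f_A05pp_023_s1 : ℕ → ℕ → ℕ → ℕ → Bool := onCell 0 536870912 1073741824 536870912 1040187392 5207648
    (rowF 0 true true true .up 0 2 3 (qsf 0 536870912 1073741824 536870912 3) ndB0q0 ndB5q2 pcB3 cut_A05pp_023_s1 Ext.none)

def k0_A05pp_023_s1 : ∃ t, chk3 f_A05pp_023_s1 t 1 1 1 = true :=
  ⟨(l 4), by decide +kernel⟩

theorem c_A05pp_023_s1 : CertF 0 536870912 1073741824 536870912 1040187392 5207648 true true true .up 0 2 3
    ndB0q0 ndB5q2 pcB3 cut_A05pp_023_s1 Ext.none :=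
  certF0 (fam := true) (s1 := true) (s2 := true) (a := 0) (b := 2) (c := 3) (cn := .up) (n1 := ndB0q0) (n2 := ndB5q2) (pc := pcB3) (cut := cut_A05pp_023_s1) (xt := Ext.none) (P1 := 0) (W1 := 536870912) (P2 := 1073741824) (W2 := 536870912) (P3 := 1040187392) (W3 := 5207648)
    rfl k0_A05pp_023_s1

theorem s_A05pp_023_s1 {κ x : ℝ} (hκ : κ * h0 = ken x) (hx : ((1040187392 : ℕ) : ℝ) / S ≤ x)
    (hx' : x ≤ (((1040187392 : ℕ) : ℝ) + (5207648 : ℕ)) / S) :
    AltA (VFD κ) PP tK tL pcB [⟨3, 0, 0, 1449551462⟩] 0 2 3 0 5 (sgb true) (sgb true) x :=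
  strip_altAD (m := 1449551462) true rfl hκ (SH.κ0 hκ (SH.hx1 hx).le (SH.hx2 hx').le) (SH.hx1 hx).le (SH.hx2 hx') (covB00).cov (covB52).cov hx hx' c_A05pp_023_s1 cutA_nil (noExt_A)

noncomputable def cut_A05pp_033_s1 : Cut := Cut.of [[⟨4, 0, 0, 1449551462⟩]]

noncomputable def f_A05pp_033_s1 : ℕ → ℕ → ℕ → ℕ → Bool := onCell 0 536870912 0 1230186008 1040187392 5207648
    (rowF 0 true true true .pnn 0 3 3 (qsf 0 536870912 0 1230186008 3) ndB0q0 ndB5q3 pcB3 cut_A05pp_033_s1 Ext.none)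

def k0_A05pp_033_s1 : ∃ t, chk3 f_A05pp_033_s1 t 1 1 1 = true :=
  ⟨(l 4), by decide +kernel⟩

theorem c_A05pp_033_s1 : CertF 0 536870912 0 1230186008 1040187392 5207648 true true true .pnn 0 3 3
    ndB0q0 ndB5q3 pcB3 cut_A05pp_033_s1 Ext.none :=
  certF0 (fam := true) (s1 := true) (s2 := true) (a := 0) (b := 3) (c := 3) (cn := .pnn) (n1 := ndB0q0) (n2 := ndB5q3) (pc := pcB3) (cut := cut_A05pp_033_s1) (xt := Ext.none) (P1 := 0) (W1 := 536870912) (P2 := 0) (W2 := 1230186008) (P3 := 1040187392) (W3 := 5207648)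
    rfl k0_A05pp_033_s1

theorem s_A05pp_033_s1 {κ x : ℝ} (hκ : κ * h0 = ken x) (hx : ((1040187392 : ℕ) : ℝ) / S ≤ x)
    (hx' : x ≤ (((1040187392 : ℕ) : ℝ) + (5207648 : ℕ)) / S) :
    AltA (VFD κ) PP tK tL pcB [⟨3, 0, 0, 1449551462⟩] 0 3 3 0 5 (sgb true) (sgb true) x :=
  strip_altAD (m := 1449551462) true rfl hκ (SH.κ0 hκ (SH.hx1 hx).le (SH.hx2 hx').le) (SH.hx1 hx).le (SH.hx2 hx') (covB00).cov (covB53).cov hx hx' c_A05pp_033_s1 cutA_nil (noExt_A)

noncomputable def cut_A05pp_101_s1 : Cut := Cut.of [[⟨4, 0, 0, 1449551462⟩]]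

noncomputable def f_A05pp_101_s1 : ℕ → ℕ → ℕ → ℕ → Bool := onCell 536870912 536870912 0 536870912 1040187392 5207648
    (rowF 0 true true true .npn 1 0 1 (qsf 536870912 536870912 0 536870912 1) ndB0q1 ndB5q0 pcB1 cut_A05pp_101_s1 Ext.none)

def k0_A05pp_101_s1 : ∃ t, chk3 f_A05pp_101_s1 t 1 1 1 = true :=
  ⟨(l 4), by decide +kernel⟩

theorem c_A05pp_101_s1 : CertF 536870912 536870912 0 536870912 1040187392 5207648 true true true .npn 1 0 1
    ndB0q1 ndB5q0 pcB1 cut_A05pp_101_s1 Ext.none :=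
  certF0 (fam := true) (s1 := true) (s2 := true) (a := 1) (b := 0) (c := 1) (cn := .npn) (n1 := ndB0q1) (n2 := ndB5q0) (pc := pcB1) (cut := cut_A05pp_101_s1) (xt := Ext.none) (P1 := 536870912) (W1 := 536870912) (P2 := 0) (W2 := 536870912) (P3 := 1040187392) (W3 := 5207648)
    rfl k0_A05pp_101_s1

theorem s_A05pp_101_s1 {κ x : ℝ} (hκ : κ * h0 = ken x) (hx : ((1040187392 : ℕ) : ℝ) / S ≤ x)
    (hx' : x ≤ (((1040187392 : ℕ) : ℝ) + (5207648 : ℕ)) / S) :
    AltA (VFD κ) PP tK tL pcB [⟨3, 0, 0, 1449551462⟩] 1 0 1 0 5 (sgb true) (sgb true) x :=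
  strip_altAD (m := 1449551462) true rfl hκ (SH.κ0 hκ (SH.hx1 hx).le (SH.hx2 hx').le) (SH.hx1 hx).le (SH.hx2 hx') (covB01).cov (covB50).cov hx hx' c_A05pp_101_s1 cutA_nil (noExt_A)

noncomputable def cut_A05pp_102_s1 : Cut := Cut.of [[⟨4, 0, 0, 1449551462⟩]]

noncomputable def f_A05pp_102_s1 : ℕ → ℕ → ℕ → ℕ → Bool := onCell 536870912 536870912 0 536870912 1040187392 5207648
    (rowF 0 true true true .npp 1 0 2 (qsf 536870912 536870912 0 536870912 2) ndB0q1 ndB5q0 pcB2 cut_A05pp_102_s1 Ext.none)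

def k0_A05pp_102_s1 : ∃ t, chk3 f_A05pp_102_s1 t 1 1 1 = true :=
  ⟨(l 4), by decide +kernel⟩

theorem c_A05pp_102_s1 : CertF 536870912 536870912 0 536870912 1040187392 5207648 true true true .npp 1 0 2
    ndB0q1 ndB5q0 pcB2 cut_A05pp_102_s1 Ext.none :=
  certF0 (fam := true) (s1 := true) (s2 := true) (a := 1) (b := 0) (c := 2) (cn := .npp) (n1 := ndB0q1) (n2 := ndB5q0) (pc := pcB2) (cut := cut_A05pp_102_s1) (xt := Ext.none) (P1 := 536870912) (W1 := 536870912) (P2 := 0) (W2 := 536870912) (P3 := 1040187392) (W3 := 5207648)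
    rfl k0_A05pp_102_s1

theorem s_A05pp_102_s1 {κ x : ℝ} (hκ : κ * h0 = ken x) (hx : ((1040187392 : ℕ) : ℝ) / S ≤ x)
    (hx' : x ≤ (((1040187392 : ℕ) : ℝ) + (5207648 : ℕ)) / S) :
    AltA (VFD κ) PP tK tL pcB [⟨3, 0, 0, 1449551462⟩] 1 0 2 0 5 (sgb true) (sgb true) x :=
  strip_altAD (m := 1449551462) true rfl hκ (SH.κ0 hκ (SH.hx1 hx).le (SH.hx2 hx').le) (SH.hx1 hx).le (SH.hx2 hx') (covB01).cov (covB50).cov hx hx' c_A05pp_102_s1 cutA_nil (noExt_A)

noncomputable def cut_A05pp_112_s1 : Cut := Cut.of [[⟨4, 0, 0, 1449551462⟩]]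

noncomputable def f_A05pp_112_s1 : ℕ → ℕ → ℕ → ℕ → Bool := onCell 536870912 536870912 536870912 536870912 1040187392 5207648
    (rowF 0 true true true .dn 1 1 2 (qsf 536870912 536870912 536870912 536870912 2) ndB0q1 ndB5q1 pcB2 cut_A05pp_112_s1 Ext.none)

def k0_A05pp_112_s1 : ∃ t, chk3 f_A05pp_112_s1 t 1 1 1 = true :=
  ⟨(l 4), by decide +kernel⟩

theorem c_A05pp_112_s1 : CertF 536870912 536870912 536870912 536870912 1040187392 5207648 true true true .dn 1 1 2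
    ndB0q1 ndB5q1 pcB2 cut_A05pp_112_s1 Ext.none :=
  certF0 (fam := true) (s1 := true) (s2 := true) (a := 1) (b := 1) (c := 2) (cn := .dn) (n1 := ndB0q1) (n2 := ndB5q1) (pc := pcB2) (cut := cut_A05pp_112_s1) (xt := Ext.none) (P1 := 536870912) (W1 := 536870912) (P2 := 536870912) (W2 := 536870912) (P3 := 1040187392) (W3 := 5207648)
    rfl k0_A05pp_112_s1

theorem s_A05pp_112_s1 {κ x : ℝ} (hκ : κ * h0 = ken x) (hx : ((1040187392 : ℕ) : ℝ) / S ≤ x)
    (hx' : x ≤ (((1040187392 : ℕ) : ℝ) + (5207648 : ℕ)) / S) :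
    AltA (VFD κ) PP tK tL pcB [⟨3, 0, 0, 1449551462⟩] 1 1 2 0 5 (sgb true) (sgb true) x :=
  strip_altAD (m := 1449551462) true rfl hκ (SH.κ0 hκ (SH.hx1 hx).le (SH.hx2 hx').le) (SH.hx1 hx).le (SH.hx2 hx') (covB01).cov (covB51).cov hx hx' c_A05pp_112_s1 cutA_nil (noExt_A)

noncomputable def cut_A05pp_113_s1 : Cut := Cut.of [[⟨4, 0, 0, 1449551462⟩]]

noncomputable def f_A05pp_113_s1 : ℕ → ℕ → ℕ → ℕ → Bool := onCell 536870912 536870912 536870912 536870912 1040187392 5207648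
    (rowF 0 true true true .nn 1 1 3 (qsf 536870912 536870912 536870912 536870912 3) ndB0q1 ndB5q1 pcB3 cut_A05pp_113_s1 Ext.none)

def k0_A05pp_113_s1 : ∃ t, chk3 f_A05pp_113_s1 t 1 1 1 = true :=
  ⟨(l 4), by decide +kernel⟩

theorem c_A05pp_113_s1 : CertF 536870912 536870912 536870912 536870912 1040187392 5207648 true true true .nn 1 1 3
    ndB0q1 ndB5q1 pcB3 cut_A05pp_113_s1 Ext.none :=
  certF0 (fam := true) (s1 := true) (s2 := true) (a := 1) (b := 1) (c := 3) (cn := .nn) (n1 := ndB0q1) (n2 := ndB5q1) (pc := pcB3) (cut := cut_A05pp_113_s1) (xt := Ext.none) (P1 := 536870912) (W1 := 536870912) (P2 := 536870912) (W2 := 536870912) (P3 := 1040187392) (W3 := 5207648)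
    rfl k0_A05pp_113_s1

theorem s_A05pp_113_s1 {κ x : ℝ} (hκ : κ * h0 = ken x) (hx : ((1040187392 : ℕ) : ℝ) / S ≤ x)
    (hx' : x ≤ (((1040187392 : ℕ) : ℝ) + (5207648 : ℕ)) / S) :
    AltA (VFD κ) PP tK tL pcB [⟨3, 0, 0, 1449551462⟩] 1 1 3 0 5 (sgb true) (sgb true) x :=
  strip_altAD (m := 1449551462) true rfl hκ (SH.κ0 hκ (SH.hx1 hx).le (SH.hx2 hx').le) (SH.hx1 hx).le (SH.hx2 hx') (covB01).cov (covB51).cov hx hx' c_A05pp_113_s1 cutA_nil (noExt_A)

noncomputable def cut_A05pp_123_s1 : Cut := Cut.of [[⟨4, 0, 0, 1449551462⟩]]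

noncomputable def f_A05pp_123_s1 : ℕ → ℕ → ℕ → ℕ → Bool := onCell 536870912 536870912 1073741824 536870912 1040187392 5207648
    (rowF 0 true true true .npn 1 2 3 (qsf 536870912 536870912 1073741824 536870912 3) ndB0q1 ndB5q2 pcB3 cut_A05pp_123_s1 Ext.none)

def k0_A05pp_123_s1 : ∃ t, chk3 f_A05pp_123_s1 t 1 1 1 = true :=
  ⟨(l 4), by decide +kernel⟩

theorem c_A05pp_123_s1 : CertF 536870912 536870912 1073741824 536870912 1040187392 5207648 true true true .npn 1 2 3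
    ndB0q1 ndB5q2 pcB3 cut_A05pp_123_s1 Ext.none :=
  certF0 (fam := true) (s1 := true) (s2 := true) (a := 1) (b := 2) (c := 3) (cn := .npn) (n1 := ndB0q1) (n2 := ndB5q2) (pc := pcB3) (cut := cut_A05pp_123_s1) (xt := Ext.none) (P1 := 536870912) (W1 := 536870912) (P2 := 1073741824) (W2 := 536870912) (P3 := 1040187392) (W3 := 5207648)
    rfl k0_A05pp_123_s1

theorem s_A05pp_123_s1 {κ x : ℝ} (hκ : κ * h0 = ken x) (hx : ((1040187392 : ℕ) : ℝ) / S ≤ x)
    (hx' : x ≤ (((1040187392 : ℕ) : ℝ) + (5207648 : ℕ)) / S) :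
    AltA (VFD κ) PP tK tL pcB [⟨3, 0, 0, 1449551462⟩] 1 2 3 0 5 (sgb true) (sgb true) x :=
  strip_altAD (m := 1449551462) true rfl hκ (SH.κ0 hκ (SH.hx1 hx).le (SH.hx2 hx').le) (SH.hx1 hx).le (SH.hx2 hx') (covB01).cov (covB52).cov hx hx' c_A05pp_123_s1 cutA_nil (noExt_A)

noncomputable def cut_A05pp_133_s1 : Cut := Cut.of [[⟨4, 0, 0, 1449551462⟩]]

noncomputable def f_A05pp_133_s1 : ℕ → ℕ → ℕ → ℕ → Bool := onCell 536870912 536870912 0 1230186008 1040187392 5207648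
    (rowF 0 true true true .dn 1 3 3 (qsf 536870912 536870912 0 1230186008 3) ndB0q1 ndB5q3 pcB3 cut_A05pp_133_s1 Ext.none)

def k0_A05pp_133_s1 : ∃ t, chk3 f_A05pp_133_s1 t 1 1 1 = true :=
  ⟨(l 4), by decide +kernel⟩

theorem c_A05pp_133_s1 : CertF 536870912 536870912 0 1230186008 1040187392 5207648 true true true .dn 1 3 3
    ndB0q1 ndB5q3 pcB3 cut_A05pp_133_s1 Ext.none :=
  certF0 (fam := true) (s1 := true) (s2 := true) (a := 1) (b := 3) (c := 3) (cn := .dn) (n1 := ndB0q1) (n2 := ndB5q3) (pc := pcB3) (cut := cut_A05pp_133_s1) (xt := Ext.none) (P1 := 536870912) (W1 := 536870912) (P2 := 0) (W2 := 1230186008) (P3 := 1040187392) (W3 := 5207648)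
    rfl k0_A05pp_133_s1

theorem s_A05pp_133_s1 {κ x : ℝ} (hκ : κ * h0 = ken x) (hx : ((1040187392 : ℕ) : ℝ) / S ≤ x)
    (hx' : x ≤ (((1040187392 : ℕ) : ℝ) + (5207648 : ℕ)) / S) :
    AltA (VFD κ) PP tK tL pcB [⟨3, 0, 0, 1449551462⟩] 1 3 3 0 5 (sgb true) (sgb true) x :=
  strip_altAD (m := 1449551462) true rfl hκ (SH.κ0 hκ (SH.hx1 hx).le (SH.hx2 hx').le) (SH.hx1 hx).le (SH.hx2 hx') (covB01).cov (covB53).cov hx hx' c_A05pp_133_s1 cutA_nil (noExt_A)

noncomputable def cut_A05pp_202_s1 : Cut := Cut.of [[⟨4, 0, 0, 1449551462⟩]]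

noncomputable def f_A05pp_202_s1 : ℕ → ℕ → ℕ → ℕ → Bool := onCell 0 536870912 0 536870912 1040187392 5207648
    (rowF 0 true true true .pp 2 0 2 (qsf 0 536870912 0 536870912 2) ndB0q2 ndB5q0 pcB2 cut_A05pp_202_s1 Ext.none)

def k0_A05pp_202_s1 : ∃ t, chk3 f_A05pp_202_s1 t 1 1 1 = true :=
  ⟨(l 4), by decide +kernel⟩

theorem c_A05pp_202_s1 : CertF 0 536870912 0 536870912 1040187392 5207648 true true true .pp 2 0 2
    ndB0q2 ndB5q0 pcB2 cut_A05pp_202_s1 Ext.none :=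
  certF0 (fam := true) (s1 := true) (s2 := true) (a := 2) (b := 0) (c := 2) (cn := .pp) (n1 := ndB0q2) (n2 := ndB5q0) (pc := pcB2) (cut := cut_A05pp_202_s1) (xt := Ext.none) (P1 := 0) (W1 := 536870912) (P2 := 0) (W2 := 536870912) (P3 := 1040187392) (W3 := 5207648)
    rfl k0_A05pp_202_s1

theorem s_A05pp_202_s1 {κ x : ℝ} (hκ : κ * h0 = ken x) (hx : ((1040187392 : ℕ) : ℝ) / S ≤ x)
    (hx' : x ≤ (((1040187392 : ℕ) : ℝ) + (5207648 : ℕ)) / S) :
    AltA (VFD κ) PP tK tL pcB [⟨3, 0, 0, 1449551462⟩] 2 0 2 0 5 (sgb true) (sgb true) x :=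
  strip_altAD (m := 1449551462) true rfl hκ (SH.κ0 hκ (SH.hx1 hx).le (SH.hx2 hx').le) (SH.hx1 hx).le (SH.hx2 hx') (covB02).cov (covB50).cov hx hx' c_A05pp_202_s1 cutA_nil (noExt_A)

noncomputable def cut_A05pp_203_s1 : Cut := Cut.of [[⟨4, 0, 0, 1449551462⟩]]

noncomputable def f_A05pp_203_s1 : ℕ → ℕ → ℕ → ℕ → Bool := onCell 0 536870912 0 536870912 1040187392 5207648
    (rowF 0 true true true .up 2 0 3 (qsf 0 536870912 0 536870912 3) ndB0q2 ndB5q0 pcB3 cut_A05pp_203_s1 Ext.none)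

def k0_A05pp_203_s1 : ∃ t, chk3 f_A05pp_203_s1 t 1 1 1 = true :=
  ⟨(l 4), by decide +kernel⟩

theorem c_A05pp_203_s1 : CertF 0 536870912 0 536870912 1040187392 5207648 true true true .up 2 0 3
    ndB0q2 ndB5q0 pcB3 cut_A05pp_203_s1 Ext.none :=
  certF0 (fam := true) (s1 := true) (s2 := true) (a := 2) (b := 0) (c := 3) (cn := .up) (n1 := ndB0q2) (n2 := ndB5q0) (pc := pcB3) (cut := cut_A05pp_203_s1) (xt := Ext.none) (P1 := 0) (W1 := 536870912) (P2 := 0) (W2 := 536870912) (P3 := 1040187392) (W3 := 5207648)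
    rfl k0_A05pp_203_s1

theorem s_A05pp_203_s1 {κ x : ℝ} (hκ : κ * h0 = ken x) (hx : ((1040187392 : ℕ) : ℝ) / S ≤ x)
    (hx' : x ≤ (((1040187392 : ℕ) : ℝ) + (5207648 : ℕ)) / S) :
    AltA (VFD κ) PP tK tL pcB [⟨3, 0, 0, 1449551462⟩] 2 0 3 0 5 (sgb true) (sgb true) x :=
  strip_altAD (m := 1449551462) true rfl hκ (SH.κ0 hκ (SH.hx1 hx).le (SH.hx2 hx').le) (SH.hx1 hx).le (SH.hx2 hx') (covB02).cov (covB50).cov hx hx' c_A05pp_203_s1 cutA_nil (noExt_A)

noncomputable def cut_A05pp_213_s1 : Cut := Cut.of [[⟨4, 0, 0, 1449551462⟩]]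

noncomputable def f_A05pp_213_s1 : ℕ → ℕ → ℕ → ℕ → Bool := onCell 0 536870912 536870912 536870912 1040187392 5207648
    (rowF 0 true true true .pnn 2 1 3 (qsf 0 536870912 536870912 536870912 3) ndB0q2 ndB5q1 pcB3 cut_A05pp_213_s1 Ext.none)

def k0_A05pp_213_s1 : ∃ t, chk3 f_A05pp_213_s1 t 1 1 1 = true :=
  ⟨(l 4), by decide +kernel⟩

theorem c_A05pp_213_s1 : CertF 0 536870912 536870912 536870912 1040187392 5207648 true true true .pnn 2 1 3
    ndB0q2 ndB5q1 pcB3 cut_A05pp_213_s1 Ext.none :=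
  certF0 (fam := true) (s1 := true) (s2 := true) (a := 2) (b := 1) (c := 3) (cn := .pnn) (n1 := ndB0q2) (n2 := ndB5q1) (pc := pcB3) (cut := cut_A05pp_213_s1) (xt := Ext.none) (P1 := 0) (W1 := 536870912) (P2 := 536870912) (W2 := 536870912) (P3 := 1040187392) (W3 := 5207648)
    rfl k0_A05pp_213_s1

theorem s_A05pp_213_s1 {κ x : ℝ} (hκ : κ * h0 = ken x) (hx : ((1040187392 : ℕ) : ℝ) / S ≤ x)
    (hx' : x ≤ (((1040187392 : ℕ) : ℝ) + (5207648 : ℕ)) / S) :
    AltA (VFD κ) PP tK tL pcB [⟨3, 0, 0, 1449551462⟩] 2 1 3 0 5 (sgb true) (sgb true) x :=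
  strip_altAD (m := 1449551462) true rfl hκ (SH.κ0 hκ (SH.hx1 hx).le (SH.hx2 hx').le) (SH.hx1 hx).le (SH.hx2 hx') (covB02).cov (covB51).cov hx hx' c_A05pp_213_s1 cutA_nil (noExt_A)

noncomputable def cut_A05pm_001_s1 : Cut := Cut.of [[⟨4, 0, 0, 1449551462⟩]]

noncomputable def xt_A05pm_001_s1 : Ext := strExt dd true true false .u0 .s0m .u0m .up 0 0 1 rfl rfl gf1 vv ndB0q0 ndB5q0

noncomputable def f_A05pm_001_s1 : ℕ → ℕ → ℕ → ℕ → Bool := onCell 0 536870912 536870912 536870912 1040187392 5207648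
    (rowF 1 true true false .up 0 0 1 (qsf 0 536870912 0 536870912 1) ndB0q0 ndB5q0 pcB1 cut_A05pm_001_s1 xt_A05pm_001_s1)

def k0_A05pm_001_s1 : ∃ t, chk3 f_A05pm_001_s1 t 1 1 1 = true :=
  ⟨(a (b (l 3) (b (b (l 3) (l 2)) (l 2))) (b (b (l 3) (a (l 3) (a (b (l 3) (b (l 524759055) (l 524270607))) (b (l 527881231) (a (l 525617935) (l 526309135)))))) (a (b (a (b (a (l 3) (b (l 3) (l 522249743))) (a (l 2) (l 523060495))) (b (a (l 522574095) (l 523108623)) (a (l 523307535) (l 523523343)))) (b (a (l 2) (b (l 524065551) (l 2))) (l 2))) (b (b (a (a (l 523606031) (l 524067855)) (a (l 524495375) (l 524889359))) (a (b (l 523750415) (l 523867151)) (a (l 524012303) (l 524128527)))) (b (a (b (l 524108047) (l 523041039)) (b (l 16339064) (l 16249984))) (b (a (b (l 16266856) (l 2)) (l 16120600)) (a (l 2) (l 190151111399)))))))), by decide +kernel⟩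

theorem c_A05pm_001_s1 : CertF 0 536870912 0 536870912 1040187392 5207648 true true false .up 0 0 1
    ndB0q0 ndB5q0 pcB1 cut_A05pm_001_s1 xt_A05pm_001_s1 :=
  certF1 (fam := true) (s1 := true) (s2 := false) (a := 0) (b := 0) (c := 1) (cn := .up) (n1 := ndB0q0) (n2 := ndB5q0) (pc := pcB1) (cut := cut_A05pm_001_s1) (xt := xt_A05pm_001_s1) (P1 := 0) (W1 := 536870912) (P2 := 0) (W2 := 536870912) (P3 := 1040187392) (W3 := 5207648)
    rfl (fun _ => rfl) k0_A05pm_001_s1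

theorem s_A05pm_001_s1 {κ x : ℝ} (hκ : κ * h0 = ken x) (hx : ((1040187392 : ℕ) : ℝ) / S ≤ x)
    (hx' : x ≤ (((1040187392 : ℕ) : ℝ) + (5207648 : ℕ)) / S) :
    AltA (VFD κ) PP tK tL pcB [⟨3, 0, 0, 1449551462⟩] 0 0 1 0 5 (sgb true) (sgb false) x :=
  strip_altAD (m := 1449551462) true rfl hκ (SH.κ0 hκ (SH.hx1 hx).le (SH.hx2 hx').le) (SH.hx1 hx).le (SH.hx2 hx') (covB00).cov (covB50).cov hx hx' c_A05pm_001_s1 cutA_nil ((okx hx hx').extA (T := tt) (sideB hx hx') hκ rfl rfl (.O 0 true) (.N 0 false) (Or.inr rfl))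

noncomputable def cut_A05pm_011_s1 : Cut := Cut.of [[⟨4, 0, 0, 1449551462⟩], [⟨0, 0, 0, 22369621⟩, ⟨1, 1, 0, 22369621⟩, ⟨2, 1, 0, 22369621⟩]]

noncomputable def xt_A05pm_011_s1 : Ext := strExt dd true true false .u0 .s0m .u0m .pnn 0 1 1 rfl rfl gf1 vv ndB0q0 ndB5q1

noncomputable def f_A05pm_011_s1 : ℕ → ℕ → ℕ → ℕ → Bool := onCell 0 536870912 536870912 536870912 1040187392 5207648
    (rowF 1 true true false .pnn 0 1 1 (qsf 0 536870912 536870912 536870912 1) ndB0q0 ndB5q1 pcB1 cut_A05pm_011_s1 xt_A05pm_011_s1)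

def k0_A05pm_011_s1 : ∃ t, chk3 f_A05pm_011_s1 t 1 2 1 = true :=
  ⟨(a (l 3) (a (b (l 1) (l 3)) (l 1))), by decide +kernel⟩

def k1_A05pm_011_s1 : ∃ t, chk3 f_A05pm_011_s1 t 2 6 1 = true :=
  ⟨(a (l 3) (a (l 3) (b (l 3) (b (l 3) (a (l 522888975) (l 523108111)))))), by decide +kernel⟩

def k2_A05pm_011_s1 : ∃ t, chk3 f_A05pm_011_s1 t 2 14 1 = true :=
  ⟨(a (b (l 3) (a (l 3) (a (l 3) (a (l 3) (b (l 3) (a (b (l 3) (a (l 3) (l 520891407))) (l 521152015))))))) (a (b (a (l 3) (l 523328015)) (a (b (a (l 3) (l 522008335)) (a (l 521170191) (l 520675855))) (b (l 522053135) (l 521260047)))) (b (a (l 523423247) (l 523531535)) (a (b (l 522160655) (l 521377807)) (b (l 16658560) (l 16528040)))))), by decide +kernel⟩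

def k3_A05pm_011_s1 : ∃ t, chk3 f_A05pm_011_s1 t 2 30 1 = true :=
  ⟨(a (b (a (l 3) (a (a (l 3) (a (l 3) (b (l 3) (a (l 520135439) (l 519997199))))) (a (b (l 519921679) (a (l 520549135) (l 521102607))) (b (a (l 521405711) (b (l 521044751) (l 16754672))) (a (l 521843727) (l 16742240)))))) (a (a (l 3) (a (l 3) (b (l 3) (a (l 3) (b (l 3) (l 519771151)))))) (a (a (a (b (l 3) (b (a (l 3) (a (l 518368527) (l 519361039))) (a (l 518659343) (a (l 517688591) (b (l 518571023) (l 16742840)))))) (b (a (l 519891983) (l 519839247)) (b (l 519264271) (b (l 518444559) (l 517645327))))) (b (a (b (l 519957775) (l 519712015)) (l 520062479)) (a (b (l 519308559) (l 518445583)) (b (l 519557135) (l 16650376))))) (a (b (a (l 520474127) (l 521082895)) (a (l 518631183) (l 16677656))) (b (a (l 16732976) (l 16724808)) (a (l 16627544) (l 16620480))))))) (a (b (a (b (a (a (l 521300751) (l 16651000)) (l 16632688)) (a (l 522048271) (l 16615680))) (b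 (l 16595512) (l 16577264))) (a (a (b (l 16709272) (l 16691352)) (b (l 16685144) (l 16583392))) (b (l 16560176) (l 16625824)))) (b (a (l 16534680) (l 16482152)) (b (l 16478528) (l 16457592))))), by decide +kernel⟩

def k4_A05pm_011_s1 : ∃ t, chk3 f_A05pm_011_s1 t 4 62 1 = true :=
  ⟨(a (b (a (l 3) (a (a (l 3) (a (l 3) (l 519239183))) (a (a (l 518806799) (l 518279439)) (l 517299215)))) (a (a (l 3) (a (l 3) (a (l 3) (a (l 3) (b (l 3) (l 518103567)))))) (a (a (a (b (l 3) (a (l 517998351) (l 517867023))) (b (l 518302735) (l 517699343))) (a (b (l 518033935) (l 517409039)) (l 516755727))) (a (b (l 516916495) (l 516246799)) (l 513859087))))) (a (a (a (b (a (l 516137231) (b (b (l 16737544) (l 16751024)) (l 16697104))) (b (l 513935887) (l 16626344))) (b (a (b (l 16726336) (l 16730272)) (b (l 16698448) (l 16722552))) (a (l 16661144) (l 16693560)))) (b (a (b (l 16688792) (l 16711952)) (l 16667296)) (a (l 16639464) (l 16667264))))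 (a (b (b (l 16617952) (l 16683088)) (l 16567360)) (b (l 16677352) (l 16636800))))), by decide +kernel⟩

def k5_A05pm_011_s1 : ∃ t, chk3 f_A05pm_011_s1 t 4 63 1 = true :=
  ⟨(a (a (b (b (a (l 3) (a (a (l 3) (a (l 3) (l 517518095))) (a (a (l 517784591) (l 517816591)) (l 516421391)))) (a (a (l 3) (a (l 3) (a (l 3) (a (l 3) (l 517463311))))) (a (a (a (a (l 517537039) (l 517610511)) (l 517712143)) (a (l 517859343) (l 518005519))) (a (a (l 518150415) (l 518093839)) (b (l 517958927) (l 16758304)))))) (a (b (a (l 14) (a (l 14) (a (a (l 14) (l 517834255)) (a (l 517908751) (l 517982991))))) (l 14)) (a (a (a (a (l 518293263) (l 518368271)) (a (l 518442767) (l 518517007))) (a (b (l 518380303) (l 16731016)) (l 518768655))) (a (a (l 518915599) (l 519058447)) (b (l 16729000) (l 16739512)))))) (a (a (b (a (b (l 516457487) (l 517844495)) (b (l 517382927) (l 16705592))) (b (b (l 16700792) (l 16737384)) (l 16687872))) (b (b (a (l 517050127)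 (l 16703592)) (l 16715520)) (b (l 16724928) (l 16714512)))) (b (a (b (l 16712544) (l 16719944)) (b (l 16715144) (l 16700440))) (a (b (l 16707616) (l 16696632)) (l 16597144))))) (a (a (a (b (l 510974991) (l 16655720)) (b (l 16576784) (l 16628080))) (a (b (l 16639352) (l 16602920)) (b (l 16622768) (l 16581816)))) (a (b (l 16519416) (l 16560136)) (b (l 16591232) (l 16546416))))), by decide +kernel⟩

def k6_A05pm_011_s1 : ∃ t, chk3 f_A05pm_011_s1 t 5 31 1 = true :=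
  ⟨(a (b (a (a (l 16561504) (l 16625104)) (b (l 16604368) (l 16485296))) (a (b (l 16490960) (l 16532352)) (l 16418568))) (b (b (l 16430448) (l 16396536)) (l 16299712))), by decide +kernel⟩

def k7_A05pm_011_s1 : ∃ t, chk3 f_A05pm_011_s1 t 3 3 1 = true :=
  ⟨(b (a (a (b (a (l 3) (l 522035215)) (a (l 522875407) (l 523125007))) (b (b (l 1) (l 522950671)) (a (l 523350031) (l 523551247)))) (b (l 1) (a (l 523799311) (l 1)))) (a (b (b (a (l 523701519) (l 524011279)) (a (b (l 522478351) (l 521724175)) (l 522593039))) (b (b (a (l 16485384) (l 16291112)) (a (l 16354832) (l 16237216))) (a (b (l 16295240) (l 16305680)) (l 16052136)))) (b (b (a (l 16460904) (l 1)) (a (l 16351488) (l 16244624))) (b (a (l 16234408) (l 16114800)) (a (l 16011928) (l 15990216)))))), by decide +kernel⟩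

theorem t8_A05pm_011_s1 : ∃ t, chk3 f_A05pm_011_s1 t 4 31 1 = true := ex3_b k4_A05pm_011_s1 k5_A05pm_011_s1

theorem t9_A05pm_011_s1 : ∃ t, chk3 f_A05pm_011_s1 t 2 31 1 = true := ex3_a t8_A05pm_011_s1 k6_A05pm_011_s1

theorem t10_A05pm_011_s1 : ∃ t, chk3 f_A05pm_011_s1 t 2 15 1 = true := ex3_b k3_A05pm_011_s1 t9_A05pm_011_s1

theorem t11_A05pm_011_s1 : ∃ t, chk3 f_A05pm_011_s1 t 2 7 1 = true := ex3_b k2_A05pm_011_s1 t10_A05pm_011_s1

theorem t12_A05pm_011_s1 : ∃ t, chk3 f_A05pm_011_s1 t 2 3 1 = true := ex3_b k1_A05pm_011_s1 t11_A05pm_011_s1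

theorem t13_A05pm_011_s1 : ∃ t, chk3 f_A05pm_011_s1 t 1 3 1 = true := ex3_a t12_A05pm_011_s1 k7_A05pm_011_s1

theorem t14_A05pm_011_s1 : ∃ t, chk3 f_A05pm_011_s1 t 1 1 1 = true := ex3_b k0_A05pm_011_s1 t13_A05pm_011_s1

theorem c_A05pm_011_s1 : CertF 0 536870912 536870912 536870912 1040187392 5207648 true true false .pnn 0 1 1
    ndB0q0 ndB5q1 pcB1 cut_A05pm_011_s1 xt_A05pm_011_s1 :=
  certF1 (fam := true) (s1 := true) (s2 := false) (a := 0) (b := 1) (c := 1) (cn := .pnn) (n1 := ndB0q0) (n2 := ndB5q1) (pc := pcB1) (cut := cut_A05pm_011_s1) (xt := xt_A05pm_011_s1) (P1 := 0) (W1 := 536870912) (P2 := 536870912) (W2 := 536870912) (P3 := 1040187392) (W3 := 5207648)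
    rfl (fun _ => rfl) t14_A05pm_011_s1

theorem s_A05pm_011_s1 {κ x : ℝ} (hκ : κ * h0 = ken x) (hx : ((1040187392 : ℕ) : ℝ) / S ≤ x)
    (hx' : x ≤ (((1040187392 : ℕ) : ℝ) + (5207648 : ℕ)) / S)
    (H : CutA (VFD κ) PP tK tL pcB (Cut.of [[⟨0, 0, 0, 22369621⟩, ⟨1, 1, 0, 22369621⟩, ⟨2, 1, 0, 22369621⟩]]) 0 1 1 0 5 (sgb true) (sgb false) x) :
    AltA (VFD κ) PP tK tL pcB [⟨3, 0, 0, 1449551462⟩] 0 1 1 0 5 (sgb true) (sgb false) x :=
  strip_altAD (m := 1449551462) true rfl hκ (SH.κ0 hκ (SH.hx1 hx).le (SH.hx2 hx').le) (SH.hx1 hx).le (SH.hx2 hx') (covB00).cov (covB51).cov hx hx' c_A05pm_011_s1 H ((okx hx hx').extA (T := tt) (sideB hx hx') hκ rfl rfl (.O 0 true) (.N 1 false) (Or.inr rfl))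

noncomputable def cut_A05pm_012_s1 : Cut := Cut.of [[⟨4, 0, 0, 1449551462⟩], [⟨0, 0, 0, 26843545⟩, ⟨1, 1, 0, 26843545⟩, ⟨2, 1, 0, 26843545⟩]]

noncomputable def f_A05pm_012_s1 : ℕ → ℕ → ℕ → ℕ → Bool := onCell 1073741824 536870912 536870912 536870912 1040187392 5207648
    (rowF 2 true true false .pnp 0 1 2 (qsf 0 536870912 536870912 536870912 2) ndB0q0 ndB5q1 pcB2 cut_A05pm_012_s1 Ext.none)

def k0_A05pm_012_s1 : ∃ t, chk3 f_A05pm_012_s1 t 4 2 1 = true :=
  ⟨(b (a (b (a (l 16075352) (l 6)) (a (l 16189040) (l 16078784))) (l 6)) (a (b (a (l 16285288) (l 16181712)) (a (l 16282864) (l 16260944))) (b (l 16014776) (l 16111144)))), by decide +kernel⟩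

def k1_A05pm_012_s1 : ∃ t, chk3 f_A05pm_012_s1 t 4 6 1 = true :=
  ⟨(a (b (a (a (l 16465784) (l 16321656)) (l 16319192)) (a (b (l 16398432) (b (l 16516896) (l 16462984))) (b (l 16352200) (l 16306104)))) (b (a (l 16210448) (l 16109360)) (b (l 16009032) (a (l 16259512) (l 16140896))))), by decide +kernel⟩

def k2_A05pm_012_s1 : ∃ t, chk3 f_A05pm_012_s1 t 4 7 1 = true :=
  ⟨(a (b (a (b (a (b (l 16620392) (l 16565312)) (b (l 16540056) (l 16571744))) (a (b (a (l 16677328) (l 16642736)) (a (b (l 16670272) (l 16579264)) (l 16590352))) (b (l 16585688) (b (l 16582320) (l 16490176))))) (b (b (l 16427600) (l 16368232)) (a (b (l 16423288) (a (l 16521472) (l 16482952))) (b (l 16425200) (l 16422592))))) (a (b (a (b (a (b (l 16577712) (l 16662720)) (b (l 16621464) (l 16617952))) (a (b (l 16627104) (a (l 16693352) (l 16664888))) (b (l 16617752) (l 16623496)))) (b (a (l 16496288) (l 16545432)) (a (b (l 16572760) (l 16571896)) (l 16444904))))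 (b (a (b (a (a (a (l 16715136) (l 16700184)) (l 16677976)) (l 16550336)) (a (a (b (l 16677968) (l 14)) (l 16652400)) (a (l 16664496) (l 16634416)))) (a (b (l 16578368) (l 16590312)) (l 16529432))) (a (b (a (l 14) (a (b (l 16677592) (l 14)) (l 16652056))) (l 14)) (a (b (l 16523168) (a (l 16640736) (l 16610464))) (b (l 16547096) (l 16565024)))))) (b (a (b (a (l 16508632) (l 16470392)) (a (l 16489152) (l 16453952))) (b (l 16325448) (l 16397696))) (a (b (a (b (l 16480760) (l 16481648)) (l 16436912)) (a (b (l 16490336) (l 16504536)) (l 16441624))) (b (a (l 16396632) (l 16360808)) (a (l 16393336) (l 16347456))))))) (b (b (a (l 16131024) (l 16169096)) (a (b (l 16311400) (l 16301176)) (l 16165112))) (b (a (b (a (l 16242520) (l 16241048)) (a (l 16315672) (l 16228696))) (a (b (l 16162112) (l 16137688)) (b (l 16088472) (l 16054672)))) (a (a (b (l 16303640) (a (l 16306408) (l 16269848))) (b (l 16220488) (l 16211600))) (a (b (l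 16132424) (l 16127096)) (b (l 16039760) (l 16037728))))))), by decide +kernel⟩

def k3_A05pm_012_s1 : ∃ t, chk3 f_A05pm_012_s1 t 5 1 1 = true :=
  ⟨(a (b (l 6) (b (b (a (l 16015312) (l 6)) (b (l 15977736) (l 15819296))) (b (b (a (l 16053264) (l 15951536)) (a (l 16037440) (l 15925768))) (a (a (b (l 15915504) (l 15946152)) (b (l 15931288) (a (l 15881136) (a (l 15849368) (a (l 15833624) (l 15823832)))))) (b (l 15840320) (b (l 15761920) (l 15728824))))))) (b (l 6) (a (b (l 6) (b (l 6) (b (l 15734344) (b (l 15644120) (l 15589128))))) (l 6)))), by decide +kernel⟩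

def k4_A05pm_012_s1 : ∃ t, chk3 f_A05pm_012_s1 t 3 1 1 = true :=
  ⟨(b (l 6) (l 6)), by decide +kernel⟩

theorem t5_A05pm_012_s1 : ∃ t, chk3 f_A05pm_012_s1 t 4 3 1 = true := ex3_b k1_A05pm_012_s1 k2_A05pm_012_s1

theorem t6_A05pm_012_s1 : ∃ t, chk3 f_A05pm_012_s1 t 4 1 1 = true := ex3_b k0_A05pm_012_s1 t5_A05pm_012_s1

theorem t7_A05pm_012_s1 : ∃ t, chk3 f_A05pm_012_s1 t 2 1 1 = true := ex3_a t6_A05pm_012_s1 k3_A05pm_012_s1

theorem t8_A05pm_012_s1 : ∃ t, chk3 f_A05pm_012_s1 t 1 1 1 = true := ex3_a t7_A05pm_012_s1 k4_A05pm_012_s1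

theorem c_A05pm_012_s1 : CertF 0 536870912 536870912 536870912 1040187392 5207648 true true false .pnp 0 1 2
    ndB0q0 ndB5q1 pcB2 cut_A05pm_012_s1 Ext.none :=
  certF2 (fam := true) (s1 := true) (s2 := false) (a := 0) (b := 1) (c := 2) (cn := .pnp) (n1 := ndB0q0) (n2 := ndB5q1) (pc := pcB2) (cut := cut_A05pm_012_s1) (xt := Ext.none) (P1 := 0) (W1 := 536870912) (P2 := 536870912) (W2 := 536870912) (P3 := 1040187392) (W3 := 5207648)
    rfl (fun _ => rfl) t8_A05pm_012_s1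

theorem s_A05pm_012_s1 {κ x : ℝ} (hκ : κ * h0 = ken x) (hx : ((1040187392 : ℕ) : ℝ) / S ≤ x)
    (hx' : x ≤ (((1040187392 : ℕ) : ℝ) + (5207648 : ℕ)) / S)
    (H : CutA (VFD κ) PP tK tL pcB (Cut.of [[⟨0, 0, 0, 26843545⟩, ⟨1, 1, 0, 26843545⟩, ⟨2, 1, 0, 26843545⟩]]) 0 1 2 0 5 (sgb true) (sgb false) x) :
    AltA (VFD κ) PP tK tL pcB [⟨3, 0, 0, 1449551462⟩] 0 1 2 0 5 (sgb true) (sgb false) x :=
  strip_altAD (m := 1449551462) true rfl hκ (SH.κ0 hκ (SH.hx1 hx).le (SH.hx2 hx').le) (SH.hx1 hx).le (SH.hx2 hx') (covB00).cov (covB51).cov hx hx' c_A05pm_012_s1 H (noExt_A)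

noncomputable def cut_A05pm_022_s1 : Cut := Cut.of [[⟨4, 0, 0, 1449551462⟩], [⟨0, 0, 0, 26843545⟩, ⟨1, 1, 0, 26843545⟩, ⟨2, 1, 0, 26843545⟩]]

noncomputable def f_A05pm_022_s1 : ℕ → ℕ → ℕ → ℕ → Bool := onCell 0 536870912 1073741824 536870912 1040187392 5207648
    (rowF 1 true true false .pp 0 2 2 (qsf 0 536870912 1073741824 536870912 2) ndB0q0 ndB5q2 pcB2 cut_A05pm_022_s1 Ext.none)

def k0_A05pm_022_s1 : ∃ t, chk3 f_A05pm_022_s1 t 1 4 1 = true :=
  ⟨(a (b (a (a (b (a (a (b (l 14) (b (l 14) (a (l 16546112) (l 16605784)))) (b (a (l 14) (l 1)) (a (b (l 14) (l 16568496)) (b (b (l 1) (l 16562144)) (l 16574488))))) (a (b (l 1) (a (b (l 1) (l 16496872)) (l 1))) (l 1))) (a (a (b (b (l 16525928) (l 16476352)) (b (l 16427200) (l 16462824))) (b (b (l 16546712) (l 16564264)) (l 16446056))) (a (b (a (l 16437808) (l 16361928)) (l 16433912)) (b (b (l 1) (l 16347544)) (l 16288336))))) (a (b (l 1) (a (b (l 1) (l 16249984)) (l 1)))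 (l 1))) (l 1)) (a (a (a (b (a (b (l 16311888) (l 16318960)) (b (l 16437136) (l 16350096))) (a (b (l 16261904) (l 16220808)) (b (l 16361672) (l 16308992)))) (b (a (b (l 16470328) (l 16473584)) (b (l 16407040) (l 16359776))) (a (b (l 16475048) (l 16407384)) (b (l 16478240) (l 16504872))))) (a (b (a (b (l 16282608) (l 16317136)) (b (l 16173264) (l 16205424))) (a (b (l 16353344) (l 16387216)) (b (l 16239352) (l 16274696)))) (a (b (a (l 16105824) (l 1)) (l 16057056)) (b (l 1) (l 15935288))))) (a (a (b (l 1) (b (l 1) (l 15847112))) (l 1)) (l 1)))) (l 1)), by decide +kernel⟩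

def k1_A05pm_022_s1 : ∃ t, chk3 f_A05pm_022_s1 t 1 5 1 = true :=
  ⟨(a (a (a (b (b (b (a (a (l 16194944) (l 16273232)) (a (l 16360016) (l 16442640))) (a (b (l 16135112) (b (l 16215176) (a (l 16177736) (l 16257336)))) (b (l 16207600) (b (l 16283592) (a (l 16334448) (l 16398256)))))) (a (b (l 16021504) (l 16133728)) (b (a (l 16312400) (l 16373440)) (l 16131832)))) (a (b (a (l 15988368) (l 16086808)) (l 15907488)) (b (a (l 16179272) (l 16167240)) (a (l 16054024) (l 16139576))))) (b (a (b (b (a (l 16413896) (l 16306888)) (b (l 16205280) (a (l 16332176) (l 16245136)))) (a (l 16392064) (l 16260704))) (b (b (a (l 16192840) (l 16069208)) (b (l 16071544) (b (l 16165656) (a (l 16228656) (l 16110336))))) (b (l 16021864) (l 16060248)))) (a (b (a (l 16300192) (l 16322336)) (a (l 16195536) (l 16230736))) (b (a (l 16290760) (l 16126248)) (a (l 16268336) (l 16225016)))))) (b (a (b (b (a (l 15879016) (l 1)) (b (a (l 15903720) (l 1))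 (b (a (l 15915448) (l 1)) (a (b (l 15920344) (l 15923352)) (b (l 1) (l 15685064)))))) (a (b (l 15862976) (l 15907384)) (a (l 15781224) (l 15662888)))) (b (l 1) (a (a (l 15559712) (l 1)) (l 1)))) (b (a (a (b (l 15950712) (l 15992480)) (a (l 15872880) (l 15746416))) (a (a (l 15623120) (l 15519048)) (l 15402056))) (a (a (b (l 16013576) (l 16027240)) (a (l 15963064) (l 6))) (l 6))))) (a (b (l 1) (l 6)) (l 1))), by decide +kernel⟩

def k2_A05pm_022_s1 : ∃ t, chk3 f_A05pm_022_s1 t 1 3 1 = true :=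
  ⟨(b (a (b (a (a (a (l 15721464) (l 15917992)) (b (a (l 16108648) (l 16192256)) (l 6))) (l 6)) (l 6)) (l 6)) (l 6)), by decide +kernel⟩

theorem t3_A05pm_022_s1 : ∃ t, chk3 f_A05pm_022_s1 t 1 2 1 = true := ex3_b k0_A05pm_022_s1 k1_A05pm_022_s1

theorem t4_A05pm_022_s1 : ∃ t, chk3 f_A05pm_022_s1 t 1 1 1 = true := ex3_b t3_A05pm_022_s1 k2_A05pm_022_s1

theorem c_A05pm_022_s1 : CertF 0 536870912 1073741824 536870912 1040187392 5207648 true true false .pp 0 2 2
    ndB0q0 ndB5q2 pcB2 cut_A05pm_022_s1 Ext.none :=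
  certF1 (fam := true) (s1 := true) (s2 := false) (a := 0) (b := 2) (c := 2) (cn := .pp) (n1 := ndB0q0) (n2 := ndB5q2) (pc := pcB2) (cut := cut_A05pm_022_s1) (xt := Ext.none) (P1 := 0) (W1 := 536870912) (P2 := 1073741824) (W2 := 536870912) (P3 := 1040187392) (W3 := 5207648)
    rfl (fun _ => rfl) t4_A05pm_022_s1

theorem s_A05pm_022_s1 {κ x : ℝ} (hκ : κ * h0 = ken x) (hx : ((1040187392 : ℕ) : ℝ) / S ≤ x)
    (hx' : x ≤ (((1040187392 : ℕ) : ℝ) + (5207648 : ℕ)) / S)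
    (H : CutA (VFD κ) PP tK tL pcB (Cut.of [[⟨0, 0, 0, 26843545⟩, ⟨1, 1, 0, 26843545⟩, ⟨2, 1, 0, 26843545⟩]]) 0 2 2 0 5 (sgb true) (sgb false) x) :
    AltA (VFD κ) PP tK tL pcB [⟨3, 0, 0, 1449551462⟩] 0 2 2 0 5 (sgb true) (sgb false) x :=
  strip_altAD (m := 1449551462) true rfl hκ (SH.κ0 hκ (SH.hx1 hx).le (SH.hx2 hx').le) (SH.hx1 hx).le (SH.hx2 hx') (covB00).cov (covB52).cov hx hx' c_A05pm_022_s1 H (noExt_A)

noncomputable def cut_A05pm_023_s1 : Cut := Cut.of [[⟨4, 0, 0, 1449551462⟩]]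

noncomputable def f_A05pm_023_s1 : ℕ → ℕ → ℕ → ℕ → Bool := onCell 1610612736 536870912 1073741824 536870912 1040187392 5207648
    (rowF 2 true true false .up 0 2 3 (qsf 0 536870912 1073741824 536870912 3) ndB0q0 ndB5q2 pcB3 cut_A05pm_023_s1 Ext.none)

def k0_A05pm_023_s1 : ∃ t, chk3 f_A05pm_023_s1 t 1 1 1 = true :=
  ⟨(a (l 6) (l 6)), by decide +kernel⟩

theorem c_A05pm_023_s1 : CertF 0 536870912 1073741824 536870912 1040187392 5207648 true true false .up 0 2 3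
    ndB0q0 ndB5q2 pcB3 cut_A05pm_023_s1 Ext.none :=
  certF2 (fam := true) (s1 := true) (s2 := false) (a := 0) (b := 2) (c := 3) (cn := .up) (n1 := ndB0q0) (n2 := ndB5q2) (pc := pcB3) (cut := cut_A05pm_023_s1) (xt := Ext.none) (P1 := 0) (W1 := 536870912) (P2 := 1073741824) (W2 := 536870912) (P3 := 1040187392) (W3 := 5207648)
    rfl (fun _ => rfl) k0_A05pm_023_s1

theorem s_A05pm_023_s1 {κ x : ℝ} (hκ : κ * h0 = ken x) (hx : ((1040187392 : ℕ) : ℝ) / S ≤ x)
    (hx' : x ≤ (((1040187392 : ℕ) : ℝ) + (5207648 : ℕ)) / S) :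
    AltA (VFD κ) PP tK tL pcB [⟨3, 0, 0, 1449551462⟩] 0 2 3 0 5 (sgb true) (sgb false) x :=
  strip_altAD (m := 1449551462) true rfl hκ (SH.κ0 hκ (SH.hx1 hx).le (SH.hx2 hx').le) (SH.hx1 hx).le (SH.hx2 hx') (covB00).cov (covB52).cov hx hx' c_A05pm_023_s1 cutA_nil (noExt_A)

noncomputable def cut_A05pm_033_s1 : Cut := Cut.of [[⟨4, 0, 0, 1449551462⟩]]

noncomputable def f_A05pm_033_s1 : ℕ → ℕ → ℕ → ℕ → Bool := onCell 1610612736 536870912 0 1230186008 1040187392 5207648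
    (rowF 2 true true false .pnn 0 3 3 (qsf 0 536870912 0 1230186008 3) ndB0q0 ndB5q3 pcB3 cut_A05pm_033_s1 Ext.none)

def k0_A05pm_033_s1 : ∃ t, chk3 f_A05pm_033_s1 t 1 1 1 = true :=
  ⟨(b (l 6) (l 6)), by decide +kernel⟩

theorem c_A05pm_033_s1 : CertF 0 536870912 0 1230186008 1040187392 5207648 true true false .pnn 0 3 3
    ndB0q0 ndB5q3 pcB3 cut_A05pm_033_s1 Ext.none :=
  certF2 (fam := true) (s1 := true) (s2 := false) (a := 0) (b := 3) (c := 3) (cn := .pnn) (n1 := ndB0q0) (n2 := ndB5q3) (pc := pcB3) (cut := cut_A05pm_033_s1) (xt := Ext.none) (P1 := 0) (W1 := 536870912) (P2 := 0) (W2 := 1230186008) (P3 := 1040187392) (W3 := 5207648)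
    rfl (fun _ => rfl) k0_A05pm_033_s1

theorem s_A05pm_033_s1 {κ x : ℝ} (hκ : κ * h0 = ken x) (hx : ((1040187392 : ℕ) : ℝ) / S ≤ x)
    (hx' : x ≤ (((1040187392 : ℕ) : ℝ) + (5207648 : ℕ)) / S) :
    AltA (VFD κ) PP tK tL pcB [⟨3, 0, 0, 1449551462⟩] 0 3 3 0 5 (sgb true) (sgb false) x :=
  strip_altAD (m := 1449551462) true rfl hκ (SH.κ0 hκ (SH.hx1 hx).le (SH.hx2 hx').le) (SH.hx1 hx).le (SH.hx2 hx') (covB00).cov (covB53).cov hx hx' c_A05pm_033_s1 cutA_nil (noExt_A)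

noncomputable def cut_A05pm_101_s1 : Cut := Cut.of [[⟨4, 0, 0, 1449551462⟩]]

noncomputable def xt_A05pm_101_s1 : Ext := strExt dd true true false .u0 .s0m .u0m .npn 1 0 1 rfl rfl gf1 vv ndB0q1 ndB5q0

noncomputable def f_A05pm_101_s1 : ℕ → ℕ → ℕ → ℕ → Bool := onCell 536870912 536870912 536870912 536870912 1040187392 5207648
    (rowF 1 true true false .npn 1 0 1 (qsf 536870912 536870912 0 536870912 1) ndB0q1 ndB5q0 pcB1 cut_A05pm_101_s1 xt_A05pm_101_s1)

def k0_A05pm_101_s1 : ∃ t, chk3 f_A05pm_101_s1 t 1 1 1 = true :=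
  ⟨(b (a (b (a (b (a (l 3) (l 534001423)) (a (l 532748559) (l 534852111))) (a (b (l 1) (l 531870735)) (l 1))) (a (b (a (l 529757455) (l 531421711)) (a (l 527263759) (l 528391439))) (b (a (l 532020239) (b (l 1) (l 347388333335))) (a (l 529357839) (b (a (l 16528192) (l 16411488)) (a (l 16397688) (l 16306232))))))) (a (b (l 1) (a (b (l 1) (b (l 1) (l 15855816))) (l 1))) (l 1))) (a (b (a (b (a (l 525417743) (l 526020367)) (a (l 524259343) (b (l 16164664) (l 16149472)))) (b (a (b (l 16345576) (l 16224184)) (b (l 16010048) (l 16023440))) (a (b (l 16100096) (l 15985776)) (l 15834488)))) (b (a (a (b (l 16205776) (l 16128416)) (b (l 16054448) (l 15972848))) (a (l 15848320) (l 6))) (a (a (b (l 16030040) (l 15961728)) (l 15879224)) (l 6)))) (a (b (b (l 6) (l 6)) (l 6)) (l 6)))), by decide +kernel⟩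

theorem c_A05pm_101_s1 : CertF 536870912 536870912 0 536870912 1040187392 5207648 true true false .npn 1 0 1
    ndB0q1 ndB5q0 pcB1 cut_A05pm_101_s1 xt_A05pm_101_s1 :=
  certF1 (fam := true) (s1 := true) (s2 := false) (a := 1) (b := 0) (c := 1) (cn := .npn) (n1 := ndB0q1) (n2 := ndB5q0) (pc := pcB1) (cut := cut_A05pm_101_s1) (xt := xt_A05pm_101_s1) (P1 := 536870912) (W1 := 536870912) (P2 := 0) (W2 := 536870912) (P3 := 1040187392) (W3 := 5207648)
    rfl (fun _ => rfl) k0_A05pm_101_s1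

theorem s_A05pm_101_s1 {κ x : ℝ} (hκ : κ * h0 = ken x) (hx : ((1040187392 : ℕ) : ℝ) / S ≤ x)
    (hx' : x ≤ (((1040187392 : ℕ) : ℝ) + (5207648 : ℕ)) / S) :
    AltA (VFD κ) PP tK tL pcB [⟨3, 0, 0, 1449551462⟩] 1 0 1 0 5 (sgb true) (sgb false) x :=
  strip_altAD (m := 1449551462) true rfl hκ (SH.κ0 hκ (SH.hx1 hx).le (SH.hx2 hx').le) (SH.hx1 hx).le (SH.hx2 hx') (covB01).cov (covB50).cov hx hx' c_A05pm_101_s1 cutA_nil ((okx hx hx').extA (T := tt) (sideB hx hx') hκ rfl rfl (.O 1 true) (.N 0 false) (Or.inr rfl))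

noncomputable def cut_A05pm_102_s1 : Cut := Cut.of [[⟨4, 0, 0, 1449551462⟩]]

noncomputable def f_A05pm_102_s1 : ℕ → ℕ → ℕ → ℕ → Bool := onCell 536870912 536870912 1073741824 536870912 1040187392 5207648
    (rowF 1 true true false .npp 1 0 2 (qsf 536870912 536870912 0 536870912 2) ndB0q1 ndB5q0 pcB2 cut_A05pm_102_s1 Ext.none)

def k0_A05pm_102_s1 : ∃ t, chk3 f_A05pm_102_s1 t 1 1 1 = true :=
  ⟨(a (b (b (a (b (a (b (l 15970904) (l 6)) (l 6)) (l 6)) (l 6)) (l 6)) (l 6)) (l 6)), by decide +kernel⟩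

theorem c_A05pm_102_s1 : CertF 536870912 536870912 0 536870912 1040187392 5207648 true true false .npp 1 0 2
    ndB0q1 ndB5q0 pcB2 cut_A05pm_102_s1 Ext.none :=
  certF1 (fam := true) (s1 := true) (s2 := false) (a := 1) (b := 0) (c := 2) (cn := .npp) (n1 := ndB0q1) (n2 := ndB5q0) (pc := pcB2) (cut := cut_A05pm_102_s1) (xt := Ext.none) (P1 := 536870912) (W1 := 536870912) (P2 := 0) (W2 := 536870912) (P3 := 1040187392) (W3 := 5207648)
    rfl (fun _ => rfl) k0_A05pm_102_s1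

theorem s_A05pm_102_s1 {κ x : ℝ} (hκ : κ * h0 = ken x) (hx : ((1040187392 : ℕ) : ℝ) / S ≤ x)
    (hx' : x ≤ (((1040187392 : ℕ) : ℝ) + (5207648 : ℕ)) / S) :
    AltA (VFD κ) PP tK tL pcB [⟨3, 0, 0, 1449551462⟩] 1 0 2 0 5 (sgb true) (sgb false) x :=
  strip_altAD (m := 1449551462) true rfl hκ (SH.κ0 hκ (SH.hx1 hx).le (SH.hx2 hx').le) (SH.hx1 hx).le (SH.hx2 hx') (covB01).cov (covB50).cov hx hx' c_A05pm_102_s1 cutA_nil (noExt_A)

noncomputable def cut_A05pm_112_s1 : Cut := Cut.of [[⟨4, 0, 0, 1449551462⟩]]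

noncomputable def f_A05pm_112_s1 : ℕ → ℕ → ℕ → ℕ → Bool := onCell 536870912 536870912 536870912 536870912 1040187392 5207648
    (rowF 0 true true false .dn 1 1 2 (qsf 536870912 536870912 536870912 536870912 2) ndB0q1 ndB5q1 pcB2 cut_A05pm_112_s1 Ext.none)

def k0_A05pm_112_s1 : ∃ t, chk3 f_A05pm_112_s1 t 1 1 1 = true :=
  ⟨(a (b (a (b (a (b (l 15882136) (l 6)) (l 6)) (l 6)) (l 6)) (l 6)) (l 6)), by decide +kernel⟩

theorem c_A05pm_112_s1 : CertF 536870912 536870912 536870912 536870912 1040187392 5207648 true true false .dn 1 1 2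
    ndB0q1 ndB5q1 pcB2 cut_A05pm_112_s1 Ext.none :=
  certF0 (fam := true) (s1 := true) (s2 := false) (a := 1) (b := 1) (c := 2) (cn := .dn) (n1 := ndB0q1) (n2 := ndB5q1) (pc := pcB2) (cut := cut_A05pm_112_s1) (xt := Ext.none) (P1 := 536870912) (W1 := 536870912) (P2 := 536870912) (W2 := 536870912) (P3 := 1040187392) (W3 := 5207648)
    rfl k0_A05pm_112_s1

theorem s_A05pm_112_s1 {κ x : ℝ} (hκ : κ * h0 = ken x) (hx : ((1040187392 : ℕ) : ℝ) / S ≤ x)
    (hx' : x ≤ (((1040187392 : ℕ) : ℝ) + (5207648 : ℕ)) / S) :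
    AltA (VFD κ) PP tK tL pcB [⟨3, 0, 0, 1449551462⟩] 1 1 2 0 5 (sgb true) (sgb false) x :=
  strip_altAD (m := 1449551462) true rfl hκ (SH.κ0 hκ (SH.hx1 hx).le (SH.hx2 hx').le) (SH.hx1 hx).le (SH.hx2 hx') (covB01).cov (covB51).cov hx hx' c_A05pm_112_s1 cutA_nil (noExt_A)

noncomputable def cut_A05pm_113_s1 : Cut := Cut.of [[⟨4, 0, 0, 1449551462⟩]]

noncomputable def f_A05pm_113_s1 : ℕ → ℕ → ℕ → ℕ → Bool := onCell 536870912 536870912 1610612736 536870912 1040187392 5207648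
    (rowF 1 true true false .nn 1 1 3 (qsf 536870912 536870912 536870912 536870912 3) ndB0q1 ndB5q1 pcB3 cut_A05pm_113_s1 Ext.none)

def k0_A05pm_113_s1 : ∃ t, chk3 f_A05pm_113_s1 t 1 1 1 = true :=
  ⟨(l 6), by decide +kernel⟩

theorem c_A05pm_113_s1 : CertF 536870912 536870912 536870912 536870912 1040187392 5207648 true true false .nn 1 1 3
    ndB0q1 ndB5q1 pcB3 cut_A05pm_113_s1 Ext.none :=
  certF1 (fam := true) (s1 := true) (s2 := false) (a := 1) (b := 1) (c := 3) (cn := .nn) (n1 := ndB0q1) (n2 := ndB5q1) (pc := pcB3) (cut := cut_A05pm_113_s1) (xt := Ext.none) (P1 := 536870912) (W1 := 536870912) (P2 := 536870912) (W2 := 536870912) (P3 := 1040187392) (W3 := 5207648)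
    rfl (fun _ => rfl) k0_A05pm_113_s1

theorem s_A05pm_113_s1 {κ x : ℝ} (hκ : κ * h0 = ken x) (hx : ((1040187392 : ℕ) : ℝ) / S ≤ x)
    (hx' : x ≤ (((1040187392 : ℕ) : ℝ) + (5207648 : ℕ)) / S) :
    AltA (VFD κ) PP tK tL pcB [⟨3, 0, 0, 1449551462⟩] 1 1 3 0 5 (sgb true) (sgb false) x :=
  strip_altAD (m := 1449551462) true rfl hκ (SH.κ0 hκ (SH.hx1 hx).le (SH.hx2 hx').le) (SH.hx1 hx).le (SH.hx2 hx') (covB01).cov (covB51).cov hx hx' c_A05pm_113_s1 cutA_nil (noExt_A)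

noncomputable def cut_A05pm_123_s1 : Cut := Cut.of [[⟨4, 0, 0, 1449551462⟩]]

noncomputable def f_A05pm_123_s1 : ℕ → ℕ → ℕ → ℕ → Bool := onCell 536870912 536870912 1073741824 536870912 1040187392 5207648
    (rowF 0 true true false .npn 1 2 3 (qsf 536870912 536870912 1073741824 536870912 3) ndB0q1 ndB5q2 pcB3 cut_A05pm_123_s1 Ext.none)

def k0_A05pm_123_s1 : ∃ t, chk3 f_A05pm_123_s1 t 1 1 1 = true :=
  ⟨(l 6), by decide +kernel⟩

theorem c_A05pm_123_s1 : CertF 536870912 536870912 1073741824 536870912 1040187392 5207648 true true false .npn 1 2 3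
    ndB0q1 ndB5q2 pcB3 cut_A05pm_123_s1 Ext.none :=
  certF0 (fam := true) (s1 := true) (s2 := false) (a := 1) (b := 2) (c := 3) (cn := .npn) (n1 := ndB0q1) (n2 := ndB5q2) (pc := pcB3) (cut := cut_A05pm_123_s1) (xt := Ext.none) (P1 := 536870912) (W1 := 536870912) (P2 := 1073741824) (W2 := 536870912) (P3 := 1040187392) (W3 := 5207648)
    rfl k0_A05pm_123_s1

theorem s_A05pm_123_s1 {κ x : ℝ} (hκ : κ * h0 = ken x) (hx : ((1040187392 : ℕ) : ℝ) / S ≤ x)
    (hx' : x ≤ (((1040187392 : ℕ) : ℝ) + (5207648 : ℕ)) / S) :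
    AltA (VFD κ) PP tK tL pcB [⟨3, 0, 0, 1449551462⟩] 1 2 3 0 5 (sgb true) (sgb false) x :=
  strip_altAD (m := 1449551462) true rfl hκ (SH.κ0 hκ (SH.hx1 hx).le (SH.hx2 hx').le) (SH.hx1 hx).le (SH.hx2 hx') (covB01).cov (covB52).cov hx hx' c_A05pm_123_s1 cutA_nil (noExt_A)

noncomputable def cut_A05pm_133_s1 : Cut := Cut.of [[⟨4, 0, 0, 1449551462⟩]]

noncomputable def f_A05pm_133_s1 : ℕ → ℕ → ℕ → ℕ → Bool := onCell 536870912 536870912 0 1230186008 1040187392 5207648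
    (rowF 0 true true false .dn 1 3 3 (qsf 536870912 536870912 0 1230186008 3) ndB0q1 ndB5q3 pcB3 cut_A05pm_133_s1 Ext.none)

def k0_A05pm_133_s1 : ∃ t, chk3 f_A05pm_133_s1 t 1 1 1 = true :=
  ⟨(l 6), by decide +kernel⟩

theorem c_A05pm_133_s1 : CertF 536870912 536870912 0 1230186008 1040187392 5207648 true true false .dn 1 3 3
    ndB0q1 ndB5q3 pcB3 cut_A05pm_133_s1 Ext.none :=
  certF0 (fam := true) (s1 := true) (s2 := false) (a := 1) (b := 3) (c := 3) (cn := .dn) (n1 := ndB0q1) (n2 := ndB5q3) (pc := pcB3) (cut := cut_A05pm_133_s1) (xt := Ext.none) (P1 := 536870912) (W1 := 536870912) (P2 := 0) (W2 := 1230186008) (P3 := 1040187392) (W3 := 5207648)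
    rfl k0_A05pm_133_s1

theorem s_A05pm_133_s1 {κ x : ℝ} (hκ : κ * h0 = ken x) (hx : ((1040187392 : ℕ) : ℝ) / S ≤ x)
    (hx' : x ≤ (((1040187392 : ℕ) : ℝ) + (5207648 : ℕ)) / S) :
    AltA (VFD κ) PP tK tL pcB [⟨3, 0, 0, 1449551462⟩] 1 3 3 0 5 (sgb true) (sgb false) x :=
  strip_altAD (m := 1449551462) true rfl hκ (SH.κ0 hκ (SH.hx1 hx).le (SH.hx2 hx').le) (SH.hx1 hx).le (SH.hx2 hx') (covB01).cov (covB53).cov hx hx' c_A05pm_133_s1 cutA_nil (noExt_A)

noncomputable def cut_A05pm_202_s1 : Cut := Cut.of [[⟨4, 0, 0, 1449551462⟩]]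

noncomputable def f_A05pm_202_s1 : ℕ → ℕ → ℕ → ℕ → Bool := onCell 0 536870912 0 536870912 1040187392 5207648
    (rowF 0 true true false .pp 2 0 2 (qsf 0 536870912 0 536870912 2) ndB0q2 ndB5q0 pcB2 cut_A05pm_202_s1 Ext.none)

def k0_A05pm_202_s1 : ∃ t, chk3 f_A05pm_202_s1 t 1 1 1 = true :=
  ⟨(l 6), by decide +kernel⟩

theorem c_A05pm_202_s1 : CertF 0 536870912 0 536870912 1040187392 5207648 true true false .pp 2 0 2
    ndB0q2 ndB5q0 pcB2 cut_A05pm_202_s1 Ext.none :=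
  certF0 (fam := true) (s1 := true) (s2 := false) (a := 2) (b := 0) (c := 2) (cn := .pp) (n1 := ndB0q2) (n2 := ndB5q0) (pc := pcB2) (cut := cut_A05pm_202_s1) (xt := Ext.none) (P1 := 0) (W1 := 536870912) (P2 := 0) (W2 := 536870912) (P3 := 1040187392) (W3 := 5207648)
    rfl k0_A05pm_202_s1

theorem s_A05pm_202_s1 {κ x : ℝ} (hκ : κ * h0 = ken x) (hx : ((1040187392 : ℕ) : ℝ) / S ≤ x)
    (hx' : x ≤ (((1040187392 : ℕ) : ℝ) + (5207648 : ℕ)) / S) :
    AltA (VFD κ) PP tK tL pcB [⟨3, 0, 0, 1449551462⟩] 2 0 2 0 5 (sgb true) (sgb false) x :=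
  strip_altAD (m := 1449551462) true rfl hκ (SH.κ0 hκ (SH.hx1 hx).le (SH.hx2 hx').le) (SH.hx1 hx).le (SH.hx2 hx') (covB02).cov (covB50).cov hx hx' c_A05pm_202_s1 cutA_nil (noExt_A)

noncomputable def cut_A05pm_203_s1 : Cut := Cut.of [[⟨4, 0, 0, 1449551462⟩]]

noncomputable def f_A05pm_203_s1 : ℕ → ℕ → ℕ → ℕ → Bool := onCell 0 536870912 0 536870912 1040187392 5207648
    (rowF 0 true true false .up 2 0 3 (qsf 0 536870912 0 536870912 3) ndB0q2 ndB5q0 pcB3 cut_A05pm_203_s1 Ext.none)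

def k0_A05pm_203_s1 : ∃ t, chk3 f_A05pm_203_s1 t 1 1 1 = true :=
  ⟨(l 6), by decide +kernel⟩

theorem c_A05pm_203_s1 : CertF 0 536870912 0 536870912 1040187392 5207648 true true false .up 2 0 3
    ndB0q2 ndB5q0 pcB3 cut_A05pm_203_s1 Ext.none :=
  certF0 (fam := true) (s1 := true) (s2 := false) (a := 2) (b := 0) (c := 3) (cn := .up) (n1 := ndB0q2) (n2 := ndB5q0) (pc := pcB3) (cut := cut_A05pm_203_s1) (xt := Ext.none) (P1 := 0) (W1 := 536870912) (P2 := 0) (W2 := 536870912) (P3 := 1040187392) (W3 := 5207648)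
    rfl k0_A05pm_203_s1

theorem s_A05pm_203_s1 {κ x : ℝ} (hκ : κ * h0 = ken x) (hx : ((1040187392 : ℕ) : ℝ) / S ≤ x)
    (hx' : x ≤ (((1040187392 : ℕ) : ℝ) + (5207648 : ℕ)) / S) :
    AltA (VFD κ) PP tK tL pcB [⟨3, 0, 0, 1449551462⟩] 2 0 3 0 5 (sgb true) (sgb false) x :=
  strip_altAD (m := 1449551462) true rfl hκ (SH.κ0 hκ (SH.hx1 hx).le (SH.hx2 hx').le) (SH.hx1 hx).le (SH.hx2 hx') (covB02).cov (covB50).cov hx hx' c_A05pm_203_s1 cutA_nil (noExt_A)

noncomputable def cut_A05pm_213_s1 : Cut := Cut.of [[⟨4, 0, 0, 1449551462⟩]]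

noncomputable def f_A05pm_213_s1 : ℕ → ℕ → ℕ → ℕ → Bool := onCell 0 536870912 536870912 536870912 1040187392 5207648
    (rowF 0 true true false .pnn 2 1 3 (qsf 0 536870912 536870912 536870912 3) ndB0q2 ndB5q1 pcB3 cut_A05pm_213_s1 Ext.none)

def k0_A05pm_213_s1 : ∃ t, chk3 f_A05pm_213_s1 t 1 1 1 = true :=
  ⟨(l 6), by decide +kernel⟩

theorem c_A05pm_213_s1 : CertF 0 536870912 536870912 536870912 1040187392 5207648 true true false .pnn 2 1 3
    ndB0q2 ndB5q1 pcB3 cut_A05pm_213_s1 Ext.none :=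
  certF0 (fam := true) (s1 := true) (s2 := false) (a := 2) (b := 1) (c := 3) (cn := .pnn) (n1 := ndB0q2) (n2 := ndB5q1) (pc := pcB3) (cut := cut_A05pm_213_s1) (xt := Ext.none) (P1 := 0) (W1 := 536870912) (P2 := 536870912) (W2 := 536870912) (P3 := 1040187392) (W3 := 5207648)
    rfl k0_A05pm_213_s1

theorem s_A05pm_213_s1 {κ x : ℝ} (hκ : κ * h0 = ken x) (hx : ((1040187392 : ℕ) : ℝ) / S ≤ x)
    (hx' : x ≤ (((1040187392 : ℕ) : ℝ) + (5207648 : ℕ)) / S) :
    AltA (VFD κ) PP tK tL pcB [⟨3, 0, 0, 1449551462⟩] 2 1 3 0 5 (sgb true) (sgb false) x :=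
  strip_altAD (m := 1449551462) true rfl hκ (SH.κ0 hκ (SH.hx1 hx).le (SH.hx2 hx').le) (SH.hx1 hx).le (SH.hx2 hx') (covB02).cov (covB51).cov hx hx' c_A05pm_213_s1 cutA_nil (noExt_A)

noncomputable def cut_A05mm_001_s1 : Cut := Cut.of [[⟨4, 0, 0, 1449551462⟩]]

noncomputable def f_A05mm_001_s1 : ℕ → ℕ → ℕ → ℕ → Bool := onCell 0 536870912 0 536870912 1040187392 5207648
    (rowF 0 true false false .up 0 0 1 (qsf 0 536870912 0 536870912 1) ndB0q0 ndB5q0 pcB1 cut_A05mm_001_s1 Ext.none)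

def k0_A05mm_001_s1 : ∃ t, chk3 f_A05mm_001_s1 t 1 1 1 = true :=
  ⟨(l 4), by decide +kernel⟩

theorem c_A05mm_001_s1 : CertF 0 536870912 0 536870912 1040187392 5207648 true false false .up 0 0 1
    ndB0q0 ndB5q0 pcB1 cut_A05mm_001_s1 Ext.none :=
  certF0 (fam := true) (s1 := false) (s2 := false) (a := 0) (b := 0) (c := 1) (cn := .up) (n1 := ndB0q0) (n2 := ndB5q0) (pc := pcB1) (cut := cut_A05mm_001_s1) (xt := Ext.none) (P1 := 0) (W1 := 536870912) (P2 := 0) (W2 := 536870912) (P3 := 1040187392) (W3 := 5207648)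
    rfl k0_A05mm_001_s1

theorem s_A05mm_001_s1 {κ x : ℝ} (hκ : κ * h0 = ken x) (hx : ((1040187392 : ℕ) : ℝ) / S ≤ x)
    (hx' : x ≤ (((1040187392 : ℕ) : ℝ) + (5207648 : ℕ)) / S) :
    AltA (VFD κ) PP tK tL pcB [⟨3, 0, 0, 1449551462⟩] 0 0 1 0 5 (sgb false) (sgb false) x :=
  strip_altAD (m := 1449551462) true rfl hκ (SH.κ0 hκ (SH.hx1 hx).le (SH.hx2 hx').le) (SH.hx1 hx).le (SH.hx2 hx') (covB00).cov (covB50).cov hx hx' c_A05mm_001_s1 cutA_nil (noExt_A)

noncomputable def cut_A05mm_011_s1 : Cut := Cut.of [[⟨4, 0, 0, 1449551462⟩]]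

noncomputable def f_A05mm_011_s1 : ℕ → ℕ → ℕ → ℕ → Bool := onCell 0 536870912 536870912 536870912 1040187392 5207648
    (rowF 0 true false false .pnn 0 1 1 (qsf 0 536870912 536870912 536870912 1) ndB0q0 ndB5q1 pcB1 cut_A05mm_011_s1 Ext.none)

def k0_A05mm_011_s1 : ∃ t, chk3 f_A05mm_011_s1 t 1 1 1 = true :=
  ⟨(l 4), by decide +kernel⟩

theorem c_A05mm_011_s1 : CertF 0 536870912 536870912 536870912 1040187392 5207648 true false false .pnn 0 1 1
    ndB0q0 ndB5q1 pcB1 cut_A05mm_011_s1 Ext.none :=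
  certF0 (fam := true) (s1 := false) (s2 := false) (a := 0) (b := 1) (c := 1) (cn := .pnn) (n1 := ndB0q0) (n2 := ndB5q1) (pc := pcB1) (cut := cut_A05mm_011_s1) (xt := Ext.none) (P1 := 0) (W1 := 536870912) (P2 := 536870912) (W2 := 536870912) (P3 := 1040187392) (W3 := 5207648)
    rfl k0_A05mm_011_s1

theorem s_A05mm_011_s1 {κ x : ℝ} (hκ : κ * h0 = ken x) (hx : ((1040187392 : ℕ) : ℝ) / S ≤ x)
    (hx' : x ≤ (((1040187392 : ℕ) : ℝ) + (5207648 : ℕ)) / S) :
    AltA (VFD κ) PP tK tL pcB [⟨3, 0, 0, 1449551462⟩] 0 1 1 0 5 (sgb false) (sgb false) x :=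
  strip_altAD (m := 1449551462) true rfl hκ (SH.κ0 hκ (SH.hx1 hx).le (SH.hx2 hx').le) (SH.hx1 hx).le (SH.hx2 hx') (covB00).cov (covB51).cov hx hx' c_A05mm_011_s1 cutA_nil (noExt_A)

noncomputable def cut_A05mm_012_s1 : Cut := Cut.of [[⟨4, 0, 0, 1449551462⟩]]

noncomputable def f_A05mm_012_s1 : ℕ → ℕ → ℕ → ℕ → Bool := onCell 0 536870912 536870912 536870912 1040187392 5207648
    (rowF 0 true false false .pnp 0 1 2 (qsf 0 536870912 536870912 536870912 2) ndB0q0 ndB5q1 pcB2 cut_A05mm_012_s1 Ext.none)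

def k0_A05mm_012_s1 : ∃ t, chk3 f_A05mm_012_s1 t 1 1 1 = true :=
  ⟨(l 4), by decide +kernel⟩

theorem c_A05mm_012_s1 : CertF 0 536870912 536870912 536870912 1040187392 5207648 true false false .pnp 0 1 2
    ndB0q0 ndB5q1 pcB2 cut_A05mm_012_s1 Ext.none :=
  certF0 (fam := true) (s1 := false) (s2 := false) (a := 0) (b := 1) (c := 2) (cn := .pnp) (n1 := ndB0q0) (n2 := ndB5q1) (pc := pcB2) (cut := cut_A05mm_012_s1) (xt := Ext.none) (P1 := 0) (W1 := 536870912) (P2 := 536870912) (W2 := 536870912) (P3 := 1040187392) (W3 := 5207648)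
    rfl k0_A05mm_012_s1

theorem s_A05mm_012_s1 {κ x : ℝ} (hκ : κ * h0 = ken x) (hx : ((1040187392 : ℕ) : ℝ) / S ≤ x)
    (hx' : x ≤ (((1040187392 : ℕ) : ℝ) + (5207648 : ℕ)) / S) :
    AltA (VFD κ) PP tK tL pcB [⟨3, 0, 0, 1449551462⟩] 0 1 2 0 5 (sgb false) (sgb false) x :=
  strip_altAD (m := 1449551462) true rfl hκ (SH.κ0 hκ (SH.hx1 hx).le (SH.hx2 hx').le) (SH.hx1 hx).le (SH.hx2 hx') (covB00).cov (covB51).cov hx hx' c_A05mm_012_s1 cutA_nil (noExt_A)

noncomputable def cut_A05mm_022_s1 : Cut := Cut.of [[⟨4, 0, 0, 1449551462⟩]]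

noncomputable def f_A05mm_022_s1 : ℕ → ℕ → ℕ → ℕ → Bool := onCell 0 536870912 1073741824 536870912 1040187392 5207648
    (rowF 0 true false false .pp 0 2 2 (qsf 0 536870912 1073741824 536870912 2) ndB0q0 ndB5q2 pcB2 cut_A05mm_022_s1 Ext.none)

def k0_A05mm_022_s1 : ∃ t, chk3 f_A05mm_022_s1 t 1 1 1 = true :=
  ⟨(l 4), by decide +kernel⟩

theorem c_A05mm_022_s1 : CertF 0 536870912 1073741824 536870912 1040187392 5207648 true false false .pp 0 2 2
    ndB0q0 ndB5q2 pcB2 cut_A05mm_022_s1 Ext.none :=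
  certF0 (fam := true) (s1 := false) (s2 := false) (a := 0) (b := 2) (c := 2) (cn := .pp) (n1 := ndB0q0) (n2 := ndB5q2) (pc := pcB2) (cut := cut_A05mm_022_s1) (xt := Ext.none) (P1 := 0) (W1 := 536870912) (P2 := 1073741824) (W2 := 536870912) (P3 := 1040187392) (W3 := 5207648)
    rfl k0_A05mm_022_s1

theorem s_A05mm_022_s1 {κ x : ℝ} (hκ : κ * h0 = ken x) (hx : ((1040187392 : ℕ) : ℝ) / S ≤ x)
    (hx' : x ≤ (((1040187392 : ℕ) : ℝ) + (5207648 : ℕ)) / S) :
    AltA (VFD κ) PP tK tL pcB [⟨3, 0, 0, 1449551462⟩] 0 2 2 0 5 (sgb false) (sgb false) x :=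
  strip_altAD (m := 1449551462) true rfl hκ (SH.κ0 hκ (SH.hx1 hx).le (SH.hx2 hx').le) (SH.hx1 hx).le (SH.hx2 hx') (covB00).cov (covB52).cov hx hx' c_A05mm_022_s1 cutA_nil (noExt_A)

noncomputable def cut_A05mm_023_s1 : Cut := Cut.of [[⟨4, 0, 0, 1449551462⟩]]

noncomputable def f_A05mm_023_s1 : ℕ → ℕ → ℕ → ℕ → Bool := onCell 0 536870912 1073741824 536870912 1040187392 5207648
    (rowF 0 true false false .up 0 2 3 (qsf 0 536870912 1073741824 536870912 3) ndB0q0 ndB5q2 pcB3 cut_A05mm_023_s1 Ext.none)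

def k0_A05mm_023_s1 : ∃ t, chk3 f_A05mm_023_s1 t 1 1 1 = true :=
  ⟨(l 4), by decide +kernel⟩

theorem c_A05mm_023_s1 : CertF 0 536870912 1073741824 536870912 1040187392 5207648 true false false .up 0 2 3
    ndB0q0 ndB5q2 pcB3 cut_A05mm_023_s1 Ext.none :=
  certF0 (fam := true) (s1 := false) (s2 := false) (a := 0) (b := 2) (c := 3) (cn := .up) (n1 := ndB0q0) (n2 := ndB5q2) (pc := pcB3) (cut := cut_A05mm_023_s1) (xt := Ext.none) (P1 := 0) (W1 := 536870912) (P2 := 1073741824) (W2 := 536870912) (P3 := 1040187392) (W3 := 5207648)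
    rfl k0_A05mm_023_s1

theorem s_A05mm_023_s1 {κ x : ℝ} (hκ : κ * h0 = ken x) (hx : ((1040187392 : ℕ) : ℝ) / S ≤ x)
    (hx' : x ≤ (((1040187392 : ℕ) : ℝ) + (5207648 : ℕ)) / S) :
    AltA (VFD κ) PP tK tL pcB [⟨3, 0, 0, 1449551462⟩] 0 2 3 0 5 (sgb false) (sgb false) x :=
  strip_altAD (m := 1449551462) true rfl hκ (SH.κ0 hκ (SH.hx1 hx).le (SH.hx2 hx').le) (SH.hx1 hx).le (SH.hx2 hx') (covB00).cov (covB52).cov hx hx' c_A05mm_023_s1 cutA_nil (noExt_A)

noncomputable def cut_A05mm_033_s1 : Cut := Cut.of [[⟨4, 0, 0, 1449551462⟩]]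

noncomputable def f_A05mm_033_s1 : ℕ → ℕ → ℕ → ℕ → Bool := onCell 0 536870912 0 1230186008 1040187392 5207648
    (rowF 0 true false false .pnn 0 3 3 (qsf 0 536870912 0 1230186008 3) ndB0q0 ndB5q3 pcB3 cut_A05mm_033_s1 Ext.none)

def k0_A05mm_033_s1 : ∃ t, chk3 f_A05mm_033_s1 t 1 1 1 = true :=
  ⟨(l 4), by decide +kernel⟩

theorem c_A05mm_033_s1 : CertF 0 536870912 0 1230186008 1040187392 5207648 true false false .pnn 0 3 3
    ndB0q0 ndB5q3 pcB3 cut_A05mm_033_s1 Ext.none :=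
  certF0 (fam := true) (s1 := false) (s2 := false) (a := 0) (b := 3) (c := 3) (cn := .pnn) (n1 := ndB0q0) (n2 := ndB5q3) (pc := pcB3) (cut := cut_A05mm_033_s1) (xt := Ext.none) (P1 := 0) (W1 := 536870912) (P2 := 0) (W2 := 1230186008) (P3 := 1040187392) (W3 := 5207648)
    rfl k0_A05mm_033_s1

theorem s_A05mm_033_s1 {κ x : ℝ} (hκ : κ * h0 = ken x) (hx : ((1040187392 : ℕ) : ℝ) / S ≤ x)
    (hx' : x ≤ (((1040187392 : ℕ) : ℝ) + (5207648 : ℕ)) / S) :
    AltA (VFD κ) PP tK tL pcB [⟨3, 0, 0, 1449551462⟩] 0 3 3 0 5 (sgb false) (sgb false) x :=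
  strip_altAD (m := 1449551462) true rfl hκ (SH.κ0 hκ (SH.hx1 hx).le (SH.hx2 hx').le) (SH.hx1 hx).le (SH.hx2 hx') (covB00).cov (covB53).cov hx hx' c_A05mm_033_s1 cutA_nil (noExt_A)

noncomputable def cut_A05mm_101_s1 : Cut := Cut.of [[⟨4, 0, 0, 1449551462⟩]]

noncomputable def f_A05mm_101_s1 : ℕ → ℕ → ℕ → ℕ → Bool := onCell 536870912 536870912 0 536870912 1040187392 5207648
    (rowF 0 true false false .npn 1 0 1 (qsf 536870912 536870912 0 536870912 1) ndB0q1 ndB5q0 pcB1 cut_A05mm_101_s1 Ext.none)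

def k0_A05mm_101_s1 : ∃ t, chk3 f_A05mm_101_s1 t 1 1 1 = true :=
  ⟨(l 4), by decide +kernel⟩

theorem c_A05mm_101_s1 : CertF 536870912 536870912 0 536870912 1040187392 5207648 true false false .npn 1 0 1
    ndB0q1 ndB5q0 pcB1 cut_A05mm_101_s1 Ext.none :=
  certF0 (fam := true) (s1 := false) (s2 := false) (a := 1) (b := 0) (c := 1) (cn := .npn) (n1 := ndB0q1) (n2 := ndB5q0) (pc := pcB1) (cut := cut_A05mm_101_s1) (xt := Ext.none) (P1 := 536870912) (W1 := 536870912) (P2 := 0) (W2 := 536870912) (P3 := 1040187392) (W3 := 5207648)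
    rfl k0_A05mm_101_s1

theorem s_A05mm_101_s1 {κ x : ℝ} (hκ : κ * h0 = ken x) (hx : ((1040187392 : ℕ) : ℝ) / S ≤ x)
    (hx' : x ≤ (((1040187392 : ℕ) : ℝ) + (5207648 : ℕ)) / S) :
    AltA (VFD κ) PP tK tL pcB [⟨3, 0, 0, 1449551462⟩] 1 0 1 0 5 (sgb false) (sgb false) x :=
  strip_altAD (m := 1449551462) true rfl hκ (SH.κ0 hκ (SH.hx1 hx).le (SH.hx2 hx').le) (SH.hx1 hx).le (SH.hx2 hx') (covB01).cov (covB50).cov hx hx' c_A05mm_101_s1 cutA_nil (noExt_A)

noncomputable def cut_A05mm_102_s1 : Cut := Cut.of [[⟨4, 0, 0, 1449551462⟩]]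

noncomputable def f_A05mm_102_s1 : ℕ → ℕ → ℕ → ℕ → Bool := onCell 536870912 536870912 0 536870912 1040187392 5207648
    (rowF 0 true false false .npp 1 0 2 (qsf 536870912 536870912 0 536870912 2) ndB0q1 ndB5q0 pcB2 cut_A05mm_102_s1 Ext.none)

def k0_A05mm_102_s1 : ∃ t, chk3 f_A05mm_102_s1 t 1 1 1 = true :=
  ⟨(l 4), by decide +kernel⟩

theorem c_A05mm_102_s1 : CertF 536870912 536870912 0 536870912 1040187392 5207648 true false false .npp 1 0 2
    ndB0q1 ndB5q0 pcB2 cut_A05mm_102_s1 Ext.none :=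
  certF0 (fam := true) (s1 := false) (s2 := false) (a := 1) (b := 0) (c := 2) (cn := .npp) (n1 := ndB0q1) (n2 := ndB5q0) (pc := pcB2) (cut := cut_A05mm_102_s1) (xt := Ext.none) (P1 := 536870912) (W1 := 536870912) (P2 := 0) (W2 := 536870912) (P3 := 1040187392) (W3 := 5207648)
    rfl k0_A05mm_102_s1

theorem s_A05mm_102_s1 {κ x : ℝ} (hκ : κ * h0 = ken x) (hx : ((1040187392 : ℕ) : ℝ) / S ≤ x)
    (hx' : x ≤ (((1040187392 : ℕ) : ℝ) + (5207648 : ℕ)) / S) :
    AltA (VFD κ) PP tK tL pcB [⟨3, 0, 0, 1449551462⟩] 1 0 2 0 5 (sgb false) (sgb false) x :=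
  strip_altAD (m := 1449551462) true rfl hκ (SH.κ0 hκ (SH.hx1 hx).le (SH.hx2 hx').le) (SH.hx1 hx).le (SH.hx2 hx') (covB01).cov (covB50).cov hx hx' c_A05mm_102_s1 cutA_nil (noExt_A)

noncomputable def cut_A05mm_112_s1 : Cut := Cut.of [[⟨4, 0, 0, 1449551462⟩]]

noncomputable def f_A05mm_112_s1 : ℕ → ℕ → ℕ → ℕ → Bool := onCell 536870912 536870912 536870912 536870912 1040187392 5207648
    (rowF 0 true false false .dn 1 1 2 (qsf 536870912 536870912 536870912 536870912 2) ndB0q1 ndB5q1 pcB2 cut_A05mm_112_s1 Ext.none)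

def k0_A05mm_112_s1 : ∃ t, chk3 f_A05mm_112_s1 t 1 1 1 = true :=
  ⟨(l 4), by decide +kernel⟩

theorem c_A05mm_112_s1 : CertF 536870912 536870912 536870912 536870912 1040187392 5207648 true false false .dn 1 1 2
    ndB0q1 ndB5q1 pcB2 cut_A05mm_112_s1 Ext.none :=
  certF0 (fam := true) (s1 := false) (s2 := false) (a := 1) (b := 1) (c := 2) (cn := .dn) (n1 := ndB0q1) (n2 := ndB5q1) (pc := pcB2) (cut := cut_A05mm_112_s1) (xt := Ext.none) (P1 := 536870912) (W1 := 536870912) (P2 := 536870912) (W2 := 536870912) (P3 := 1040187392) (W3 := 5207648)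
    rfl k0_A05mm_112_s1

theorem s_A05mm_112_s1 {κ x : ℝ} (hκ : κ * h0 = ken x) (hx : ((1040187392 : ℕ) : ℝ) / S ≤ x)
    (hx' : x ≤ (((1040187392 : ℕ) : ℝ) + (5207648 : ℕ)) / S) :
    AltA (VFD κ) PP tK tL pcB [⟨3, 0, 0, 1449551462⟩] 1 1 2 0 5 (sgb false) (sgb false) x :=
  strip_altAD (m := 1449551462) true rfl hκ (SH.κ0 hκ (SH.hx1 hx).le (SH.hx2 hx').le) (SH.hx1 hx).le (SH.hx2 hx') (covB01).cov (covB51).cov hx hx' c_A05mm_112_s1 cutA_nil (noExt_A)

noncomputable def cut_A05mm_113_s1 : Cut := Cut.of [[⟨4, 0, 0, 1449551462⟩]]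

noncomputable def f_A05mm_113_s1 : ℕ → ℕ → ℕ → ℕ → Bool := onCell 536870912 536870912 536870912 536870912 1040187392 5207648
    (rowF 0 true false false .nn 1 1 3 (qsf 536870912 536870912 536870912 536870912 3) ndB0q1 ndB5q1 pcB3 cut_A05mm_113_s1 Ext.none)

def k0_A05mm_113_s1 : ∃ t, chk3 f_A05mm_113_s1 t 1 1 1 = true :=
  ⟨(l 4), by decide +kernel⟩

theorem c_A05mm_113_s1 : CertF 536870912 536870912 536870912 536870912 1040187392 5207648 true false false .nn 1 1 3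
    ndB0q1 ndB5q1 pcB3 cut_A05mm_113_s1 Ext.none :=
  certF0 (fam := true) (s1 := false) (s2 := false) (a := 1) (b := 1) (c := 3) (cn := .nn) (n1 := ndB0q1) (n2 := ndB5q1) (pc := pcB3) (cut := cut_A05mm_113_s1) (xt := Ext.none) (P1 := 536870912) (W1 := 536870912) (P2 := 536870912) (W2 := 536870912) (P3 := 1040187392) (W3 := 5207648)
    rfl k0_A05mm_113_s1

theorem s_A05mm_113_s1 {κ x : ℝ} (hκ : κ * h0 = ken x) (hx : ((1040187392 : ℕ) : ℝ) / S ≤ x)
    (hx' : x ≤ (((1040187392 : ℕ) : ℝ) + (5207648 : ℕ)) / S) :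
    AltA (VFD κ) PP tK tL pcB [⟨3, 0, 0, 1449551462⟩] 1 1 3 0 5 (sgb false) (sgb false) x :=
  strip_altAD (m := 1449551462) true rfl hκ (SH.κ0 hκ (SH.hx1 hx).le (SH.hx2 hx').le) (SH.hx1 hx).le (SH.hx2 hx') (covB01).cov (covB51).cov hx hx' c_A05mm_113_s1 cutA_nil (noExt_A)

noncomputable def cut_A05mm_123_s1 : Cut := Cut.of [[⟨4, 0, 0, 1449551462⟩]]

noncomputable def f_A05mm_123_s1 : ℕ → ℕ → ℕ → ℕ → Bool := onCell 536870912 536870912 1073741824 536870912 1040187392 5207648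
    (rowF 0 true false false .npn 1 2 3 (qsf 536870912 536870912 1073741824 536870912 3) ndB0q1 ndB5q2 pcB3 cut_A05mm_123_s1 Ext.none)

def k0_A05mm_123_s1 : ∃ t, chk3 f_A05mm_123_s1 t 1 1 1 = true :=
  ⟨(l 4), by decide +kernel⟩

theorem c_A05mm_123_s1 : CertF 536870912 536870912 1073741824 536870912 1040187392 5207648 true false false .npn 1 2 3
    ndB0q1 ndB5q2 pcB3 cut_A05mm_123_s1 Ext.none :=
  certF0 (fam := true) (s1 := false) (s2 := false) (a := 1) (b := 2) (c := 3) (cn := .npn) (n1 := ndB0q1) (n2 := ndB5q2) (pc := pcB3) (cut := cut_A05mm_123_s1) (xt := Ext.none) (P1 := 536870912) (W1 := 536870912) (P2 := 1073741824) (W2 := 536870912) (P3 := 1040187392) (W3 := 5207648)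
    rfl k0_A05mm_123_s1

theorem s_A05mm_123_s1 {κ x : ℝ} (hκ : κ * h0 = ken x) (hx : ((1040187392 : ℕ) : ℝ) / S ≤ x)
    (hx' : x ≤ (((1040187392 : ℕ) : ℝ) + (5207648 : ℕ)) / S) :
    AltA (VFD κ) PP tK tL pcB [⟨3, 0, 0, 1449551462⟩] 1 2 3 0 5 (sgb false) (sgb false) x :=
  strip_altAD (m := 1449551462) true rfl hκ (SH.κ0 hκ (SH.hx1 hx).le (SH.hx2 hx').le) (SH.hx1 hx).le (SH.hx2 hx') (covB01).cov (covB52).cov hx hx' c_A05mm_123_s1 cutA_nil (noExt_A)

noncomputable def cut_A05mm_133_s1 : Cut := Cut.of [[⟨4, 0, 0, 1449551462⟩]]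

noncomputable def f_A05mm_133_s1 : ℕ → ℕ → ℕ → ℕ → Bool := onCell 536870912 536870912 0 1230186008 1040187392 5207648
    (rowF 0 true false false .dn 1 3 3 (qsf 536870912 536870912 0 1230186008 3) ndB0q1 ndB5q3 pcB3 cut_A05mm_133_s1 Ext.none)

def k0_A05mm_133_s1 : ∃ t, chk3 f_A05mm_133_s1 t 1 1 1 = true :=
  ⟨(l 4), by decide +kernel⟩

theorem c_A05mm_133_s1 : CertF 536870912 536870912 0 1230186008 1040187392 5207648 true false false .dn 1 3 3
    ndB0q1 ndB5q3 pcB3 cut_A05mm_133_s1 Ext.none :=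
  certF0 (fam := true) (s1 := false) (s2 := false) (a := 1) (b := 3) (c := 3) (cn := .dn) (n1 := ndB0q1) (n2 := ndB5q3) (pc := pcB3) (cut := cut_A05mm_133_s1) (xt := Ext.none) (P1 := 536870912) (W1 := 536870912) (P2 := 0) (W2 := 1230186008) (P3 := 1040187392) (W3 := 5207648)
    rfl k0_A05mm_133_s1

theorem s_A05mm_133_s1 {κ x : ℝ} (hκ : κ * h0 = ken x) (hx : ((1040187392 : ℕ) : ℝ) / S ≤ x)
    (hx' : x ≤ (((1040187392 : ℕ) : ℝ) + (5207648 : ℕ)) / S) :
    AltA (VFD κ) PP tK tL pcB [⟨3, 0, 0, 1449551462⟩] 1 3 3 0 5 (sgb false) (sgb false) x :=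
  strip_altAD (m := 1449551462) true rfl hκ (SH.κ0 hκ (SH.hx1 hx).le (SH.hx2 hx').le) (SH.hx1 hx).le (SH.hx2 hx') (covB01).cov (covB53).cov hx hx' c_A05mm_133_s1 cutA_nil (noExt_A)

noncomputable def cut_A05mm_202_s1 : Cut := Cut.of [[⟨4, 0, 0, 1449551462⟩]]

noncomputable def f_A05mm_202_s1 : ℕ → ℕ → ℕ → ℕ → Bool := onCell 0 536870912 0 536870912 1040187392 5207648
    (rowF 0 true false false .pp 2 0 2 (qsf 0 536870912 0 536870912 2) ndB0q2 ndB5q0 pcB2 cut_A05mm_202_s1 Ext.none)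

def k0_A05mm_202_s1 : ∃ t, chk3 f_A05mm_202_s1 t 1 1 1 = true :=
  ⟨(l 4), by decide +kernel⟩

theorem c_A05mm_202_s1 : CertF 0 536870912 0 536870912 1040187392 5207648 true false false .pp 2 0 2
    ndB0q2 ndB5q0 pcB2 cut_A05mm_202_s1 Ext.none :=
  certF0 (fam := true) (s1 := false) (s2 := false) (a := 2) (b := 0) (c := 2) (cn := .pp) (n1 := ndB0q2) (n2 := ndB5q0) (pc := pcB2) (cut := cut_A05mm_202_s1) (xt := Ext.none) (P1 := 0) (W1 := 536870912) (P2 := 0) (W2 := 536870912) (P3 := 1040187392) (W3 := 5207648)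
    rfl k0_A05mm_202_s1

theorem s_A05mm_202_s1 {κ x : ℝ} (hκ : κ * h0 = ken x) (hx : ((1040187392 : ℕ) : ℝ) / S ≤ x)
    (hx' : x ≤ (((1040187392 : ℕ) : ℝ) + (5207648 : ℕ)) / S) :
    AltA (VFD κ) PP tK tL pcB [⟨3, 0, 0, 1449551462⟩] 2 0 2 0 5 (sgb false) (sgb false) x :=
  strip_altAD (m := 1449551462) true rfl hκ (SH.κ0 hκ (SH.hx1 hx).le (SH.hx2 hx').le) (SH.hx1 hx).le (SH.hx2 hx') (covB02).cov (covB50).cov hx hx' c_A05mm_202_s1 cutA_nil (noExt_A)

noncomputable def cut_A05mm_203_s1 : Cut := Cut.of [[⟨4, 0, 0, 1449551462⟩]]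

noncomputable def f_A05mm_203_s1 : ℕ → ℕ → ℕ → ℕ → Bool := onCell 0 536870912 0 536870912 1040187392 5207648
    (rowF 0 true false false .up 2 0 3 (qsf 0 536870912 0 536870912 3) ndB0q2 ndB5q0 pcB3 cut_A05mm_203_s1 Ext.none)

def k0_A05mm_203_s1 : ∃ t, chk3 f_A05mm_203_s1 t 1 1 1 = true :=
  ⟨(l 4), by decide +kernel⟩

theorem c_A05mm_203_s1 : CertF 0 536870912 0 536870912 1040187392 5207648 true false false .up 2 0 3
    ndB0q2 ndB5q0 pcB3 cut_A05mm_203_s1 Ext.none :=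
  certF0 (fam := true) (s1 := false) (s2 := false) (a := 2) (b := 0) (c := 3) (cn := .up) (n1 := ndB0q2) (n2 := ndB5q0) (pc := pcB3) (cut := cut_A05mm_203_s1) (xt := Ext.none) (P1 := 0) (W1 := 536870912) (P2 := 0) (W2 := 536870912) (P3 := 1040187392) (W3 := 5207648)
    rfl k0_A05mm_203_s1

theorem s_A05mm_203_s1 {κ x : ℝ} (hκ : κ * h0 = ken x) (hx : ((1040187392 : ℕ) : ℝ) / S ≤ x)
    (hx' : x ≤ (((1040187392 : ℕ) : ℝ) + (5207648 : ℕ)) / S) :
    AltA (VFD κ) PP tK tL pcB [⟨3, 0, 0, 1449551462⟩] 2 0 3 0 5 (sgb false) (sgb false) x :=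
  strip_altAD (m := 1449551462) true rfl hκ (SH.κ0 hκ (SH.hx1 hx).le (SH.hx2 hx').le) (SH.hx1 hx).le (SH.hx2 hx') (covB02).cov (covB50).cov hx hx' c_A05mm_203_s1 cutA_nil (noExt_A)

noncomputable def cut_A05mm_213_s1 : Cut := Cut.of [[⟨4, 0, 0, 1449551462⟩]]

noncomputable def f_A05mm_213_s1 : ℕ → ℕ → ℕ → ℕ → Bool := onCell 0 536870912 536870912 536870912 1040187392 5207648
    (rowF 0 true false false .pnn 2 1 3 (qsf 0 536870912 536870912 536870912 3) ndB0q2 ndB5q1 pcB3 cut_A05mm_213_s1 Ext.none)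

def k0_A05mm_213_s1 : ∃ t, chk3 f_A05mm_213_s1 t 1 1 1 = true :=
  ⟨(l 4), by decide +kernel⟩

theorem c_A05mm_213_s1 : CertF 0 536870912 536870912 536870912 1040187392 5207648 true false false .pnn 2 1 3
    ndB0q2 ndB5q1 pcB3 cut_A05mm_213_s1 Ext.none :=
  certF0 (fam := true) (s1 := false) (s2 := false) (a := 2) (b := 1) (c := 3) (cn := .pnn) (n1 := ndB0q2) (n2 := ndB5q1) (pc := pcB3) (cut := cut_A05mm_213_s1) (xt := Ext.none) (P1 := 0) (W1 := 536870912) (P2 := 536870912) (W2 := 536870912) (P3 := 1040187392) (W3 := 5207648)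
    rfl k0_A05mm_213_s1

theorem s_A05mm_213_s1 {κ x : ℝ} (hκ : κ * h0 = ken x) (hx : ((1040187392 : ℕ) : ℝ) / S ≤ x)
    (hx' : x ≤ (((1040187392 : ℕ) : ℝ) + (5207648 : ℕ)) / S) :
    AltA (VFD κ) PP tK tL pcB [⟨3, 0, 0, 1449551462⟩] 2 1 3 0 5 (sgb false) (sgb false) x :=
  strip_altAD (m := 1449551462) true rfl hκ (SH.κ0 hκ (SH.hx1 hx).le (SH.hx2 hx').le) (SH.hx1 hx).le (SH.hx2 hx') (covB02).cov (covB51).cov hx hx' c_A05mm_213_s1 cutA_nil (noExt_A)

noncomputable def cut_B00pp_001_s1 : Cut := Cut.of [[⟨4, 0, 0, 1449551462⟩]]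

noncomputable def f_B00pp_001_s1 : ℕ → ℕ → ℕ → ℕ → Bool := onCell 0 536870912 0 536870912 1040187392 5207648
    (rowF 1 false true true .up 0 0 1 (qsf 0 536870912 536870912 536870912 0) ndB0q0 ndB0q1 pcB0 cut_B00pp_001_s1 Ext.none)

def k0_B00pp_001_s1 : ∃ t, chk3 f_B00pp_001_s1 t 1 1 1 = true :=
  ⟨(l 3), by decide +kernel⟩

theorem c_B00pp_001_s1 : CertF 0 536870912 536870912 536870912 1040187392 5207648 false true true .up 0 0 1
    ndB0q0 ndB0q1 pcB0 cut_B00pp_001_s1 Ext.none :=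
  certF1 (fam := false) (s1 := true) (s2 := true) (a := 0) (b := 0) (c := 1) (cn := .up) (n1 := ndB0q0) (n2 := ndB0q1) (pc := pcB0) (cut := cut_B00pp_001_s1) (xt := Ext.none) (P1 := 0) (W1 := 536870912) (P2 := 536870912) (W2 := 536870912) (P3 := 1040187392) (W3 := 5207648)
    rfl (fun _ => rfl) k0_B00pp_001_s1

theorem s_B00pp_001_s1 {κ x : ℝ} (hκ : κ * h0 = ken x) (hx : ((1040187392 : ℕ) : ℝ) / S ≤ x)
    (hx' : x ≤ (((1040187392 : ℕ) : ℝ) + (5207648 : ℕ)) / S) :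
    AltB (VFD κ) PP tK tL pcB [⟨3, 0, 0, 1449551462⟩] 0 0 1 0 0 (sgb true) (sgb true) x :=
  strip_altBD (m := 1449551462) true rfl hκ (SH.κ0 hκ (SH.hx1 hx).le (SH.hx2 hx').le) (SH.hx1 hx).le (SH.hx2 hx') (covB00).cov (covB01).cov hx hx' c_B00pp_001_s1 cutB_nil (noExt_B)

noncomputable def cut_B00pp_001_s3 : Cut := Cut.of [[⟨3, 0, 0, 2845415833⟩]]

noncomputable def f_B00pp_001_s3 : ℕ → ℕ → ℕ → ℕ → Bool := onCell 0 536870912 536870912 536870912 1040187392 5207648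
    (rowF 0 false true true .up 0 0 1 (qsf 0 536870912 536870912 536870912 0) ndB0q0 ndB0q1 pcB0 cut_B00pp_001_s3 Ext.none)

def k0_B00pp_001_s3 : ∃ t, chk3 f_B00pp_001_s3 t 1 1 1 = true :=
  ⟨(l 6), by decide +kernel⟩

theorem c_B00pp_001_s3 : CertF 0 536870912 536870912 536870912 1040187392 5207648 false true true .up 0 0 1
    ndB0q0 ndB0q1 pcB0 cut_B00pp_001_s3 Ext.none :=
  certF0 (fam := false) (s1 := true) (s2 := true) (a := 0) (b := 0) (c := 1) (cn := .up) (n1 := ndB0q0) (n2 := ndB0q1) (pc := pcB0) (cut := cut_B00pp_001_s3) (xt := Ext.none) (P1 := 0) (W1 := 536870912) (P2 := 536870912) (W2 := 536870912) (P3 := 1040187392) (W3 := 5207648)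
    rfl k0_B00pp_001_s3

theorem s_B00pp_001_s3 {κ x : ℝ} (hκ : κ * h0 = ken x) (hx : ((1040187392 : ℕ) : ℝ) / S ≤ x)
    (hx' : x ≤ (((1040187392 : ℕ) : ℝ) + (5207648 : ℕ)) / S) :
    AltB (VFD κ) PP tK tL pcB [⟨4, 0, 0, 2845415833⟩] 0 0 1 0 0 (sgb true) (sgb true) x :=
  strip_altBD (m := 2845415833) false rfl hκ (SH.κ0 hκ (SH.hx1 hx).le (SH.hx2 hx').le) (SH.hx1 hx).le (SH.hx2 hx') (covB00).cov (covB01).cov hx hx' c_B00pp_001_s3 cutB_nil (noExt_B)

noncomputable def cut_B00pp_011_s1 : Cut := Cut.of [[⟨4, 0, 0, 1449551462⟩], [⟨0, 0, 0, 26843545⟩, ⟨1, 1, 0, 26843545⟩, ⟨2, 1, 0, 26843545⟩]]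

noncomputable def f_B00pp_011_s1 : ℕ → ℕ → ℕ → ℕ → Bool := onCell 536870912 536870912 536870912 536870912 1040187392 5207648
    (rowF 2 false true true .pnn 0 1 1 (qsf 0 536870912 536870912 536870912 1) ndB0q0 ndB0q1 pcB1 cut_B00pp_011_s1 Ext.none)

def k0_B00pp_011_s1 : ∃ t, chk3 f_B00pp_011_s1 t 1 1 1 = true :=
  ⟨(a (l 3) (b (l 3) (a (l 3) (b (l 3) (a (l 3) (b (l 3) (b (l 3) (a (l 3) (b (l 3) (a (l 3) (l 14))))))))))), by decide +kernel⟩

theorem c_B00pp_011_s1 : CertF 0 536870912 536870912 536870912 1040187392 5207648 false true true .pnn 0 1 1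
    ndB0q0 ndB0q1 pcB1 cut_B00pp_011_s1 Ext.none :=
  certF2 (fam := false) (s1 := true) (s2 := true) (a := 0) (b := 1) (c := 1) (cn := .pnn) (n1 := ndB0q0) (n2 := ndB0q1) (pc := pcB1) (cut := cut_B00pp_011_s1) (xt := Ext.none) (P1 := 0) (W1 := 536870912) (P2 := 536870912) (W2 := 536870912) (P3 := 1040187392) (W3 := 5207648)
    rfl (fun _ => rfl) k0_B00pp_011_s1

theorem s_B00pp_011_s1 {κ x : ℝ} (hκ : κ * h0 = ken x) (hx : ((1040187392 : ℕ) : ℝ) / S ≤ x)
    (hx' : x ≤ (((1040187392 : ℕ) : ℝ) + (5207648 : ℕ)) / S)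
    (H : CutB (VFD κ) PP tK tL pcB (Cut.of [[⟨0, 0, 0, 26843545⟩, ⟨1, 1, 0, 26843545⟩, ⟨2, 1, 0, 26843545⟩]]) 0 1 1 0 0 (sgb true) (sgb true) x) :
    AltB (VFD κ) PP tK tL pcB [⟨3, 0, 0, 1449551462⟩] 0 1 1 0 0 (sgb true) (sgb true) x :=
  strip_altBD (m := 1449551462) true rfl hκ (SH.κ0 hκ (SH.hx1 hx).le (SH.hx2 hx').le) (SH.hx1 hx).le (SH.hx2 hx') (covB00).cov (covB01).cov hx hx' c_B00pp_011_s1 H (noExt_B)

noncomputable def cut_B00pp_011_s3 : Cut := Cut.of [[⟨3, 0, 0, 2845415833⟩], [⟨0, 0, 0, 26843545⟩, ⟨1, 1, 0, 26843545⟩, ⟨2, 1, 0, 26843545⟩]]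

noncomputable def f_B00pp_011_s3 : ℕ → ℕ → ℕ → ℕ → Bool := onCell 0 536870912 536870912 536870912 1040187392 5207648
    (rowF 0 false true true .pnn 0 1 1 (qsf 0 536870912 536870912 536870912 1) ndB0q0 ndB0q1 pcB1 cut_B00pp_011_s3 Ext.none)

def k0_B00pp_011_s3 : ∃ t, chk3 f_B00pp_011_s3 t 1 1 1 = true :=
  ⟨(l 6), by decide +kernel⟩

theorem c_B00pp_011_s3 : CertF 0 536870912 536870912 536870912 1040187392 5207648 false true true .pnn 0 1 1
    ndB0q0 ndB0q1 pcB1 cut_B00pp_011_s3 Ext.none :=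
  certF0 (fam := false) (s1 := true) (s2 := true) (a := 0) (b := 1) (c := 1) (cn := .pnn) (n1 := ndB0q0) (n2 := ndB0q1) (pc := pcB1) (cut := cut_B00pp_011_s3) (xt := Ext.none) (P1 := 0) (W1 := 536870912) (P2 := 536870912) (W2 := 536870912) (P3 := 1040187392) (W3 := 5207648)
    rfl k0_B00pp_011_s3

theorem s_B00pp_011_s3 {κ x : ℝ} (hκ : κ * h0 = ken x) (hx : ((1040187392 : ℕ) : ℝ) / S ≤ x)
    (hx' : x ≤ (((1040187392 : ℕ) : ℝ) + (5207648 : ℕ)) / S)
    (H : CutB (VFD κ) PP tK tL pcB (Cut.of [[⟨0, 0, 0, 26843545⟩, ⟨1, 1, 0, 26843545⟩, ⟨2, 1, 0, 26843545⟩]]) 0 1 1 0 0 (sgb true) (sgb true) x) :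
    AltB (VFD κ) PP tK tL pcB [⟨4, 0, 0, 2845415833⟩] 0 1 1 0 0 (sgb true) (sgb true) x :=
  strip_altBD (m := 2845415833) false rfl hκ (SH.κ0 hκ (SH.hx1 hx).le (SH.hx2 hx').le) (SH.hx1 hx).le (SH.hx2 hx') (covB00).cov (covB01).cov hx hx' c_B00pp_011_s3 H (noExt_B)

noncomputable def cut_B00pp_012_s1 : Cut := Cut.of [[⟨4, 0, 0, 1449551462⟩], [⟨0, 0, 0, 16777216⟩, ⟨1, 1, 0, 16777216⟩, ⟨2, 1, 0, 16777216⟩]]

noncomputable def xt_B00pp_012_s1 : Ext := strExt dd false true true .u0 .u2 .u0m .pnp 0 1 2 rfl rfl gf1 vv ndB0q0 ndB0q2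

noncomputable def f_B00pp_012_s1 : ℕ → ℕ → ℕ → ℕ → Bool := onCell 0 536870912 0 536870912 1040187392 5207648
    (rowF 0 false true true .pnp 0 1 2 (qsf 0 536870912 0 536870912 1) ndB0q0 ndB0q2 pcB1 cut_B00pp_012_s1 xt_B00pp_012_s1)

def k0_B00pp_012_s1 : ∃ t, chk3 f_B00pp_012_s1 t 4 2 1 = true :=
  ⟨(a (l 2) (b (l 2) (a (l 2) (b (l 2) (a (l 2) (a (l 2) (b (l 2) (b (b (l 16385360) (l 16366704)) (b (a (b (l 2) (a (l 2) (l 16345096))) (b (l 16351792) (b (a (l 16345976) (b (l 16345936) (l 16322968))) (a (b (l 16342792) (a (l 16340952) (a (l 16319600) (c (l 16326288) (l 16319304))))) (a (b (b (l 16342512) (l 16321184)) (l 16343360)) (l 16345936)))))) (a (b (a (l 2) (b (a (a (l 2) (c (l 16339632) (l 16337896))) (b (l 16339392) (a (b (l 16337936) (b (a (l 16337208) (c (b (l 16338080) (l 16338048)) (l 16336344))) (a (c (a (l 16337624) (l 16337800)) (l 16336000)) (l 16337496)))) (b (c (b (l 16338816) (a (l 16338448) (l 16338992)))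 (l 16321408)) (l 16338608))))) (a (b (a (a (l 2) (b (c (l 16337176) (l 16335416)) (b (a (l 2) (a (b (l 2) (l 16335928)) (c (l 16336912) (l 16335152)))) (l 16336304)))) (b (a (b (l 16336432) (c (b (a (l 16336944) (c (l 16337464) (l 16336584))) (a (b (l 16336808) (l 16336864)) (l 16337216))) (b (l 16335232) (l 16335320)))) (b (c (a (b (l 16337336) (l 16337192)) (b (l 16337360) (l 16337512))) (l 16335656)) (l 16336888))) (l 16337400))) (l 189078346759)) (l 16340936)))) (a (b (a (l 2) (l 16338616)) (l 16342048)) (l 16346976))) (b (a (b (a (b (b (a (l 16339504) (l 16323688)) (a (a (l 16338512) (b (l 16338664) (l 16338752))) (l 16339856))) (l 16340840)) (l 16343408)) (l 16346632)) (l 16351656)) (l 16358448)))))))))))), by decide +kernel⟩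

def k1_B00pp_012_s1 : ∃ t, chk3 f_B00pp_012_s1 t 5 2 1 = true :=
  ⟨(a (b (l 6) (a (b (l 6) (b (a (b (l 6) (a (l 16404664) (l 16398120))) (b (l 16424352) (a (l 16395312) (b (l 16402112) (a (l 16390864) (l 16400384)))))) (a (b (a (a (l 16370720) (a (l 16369096) (b (l 16376016) (b (l 16363880) (l 16336112))))) (b (l 16331968) (a (b (l 16321344) (a (l 16319136) (l 16367144))) (b (l 16370624) (l 16378792))))) (a (b (a (b (b (l 16351752) (a (l 16348016) (a (l 16327816) (l 16351208)))) (a (b (a (b (l 16345392) (l 16345944)) (l 16348536)) (l 16351432)) (l 16356536))) (b (a (b (l 16332232) (l 16356432)) (l 16361624)) (l 16368208))) (l 16376368)) (l 16397336))) (b (a (b (a (b (l 16376976) (l 16376696)) (l 16387552)) (l 16397584)) (l 16419408)) (a (l 16429288) (l 16460288)))))) (b (b (l 6) (a (l 16464168) (b (l 16478248) (l 16456984)))) (b (a (b (a (l 16423336) (l 16428832)) (a (b (l 16410728) (l 16421448)) (l 16443816))) (b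 (a (l 16446520) (l 16471288)) (l 16488224))) (a (a (l 16386552) (l 16498560)) (l 16455160)))))) (b (b (l 6) (a (l 6) (l 16518600))) (a (b (b (a (l 16518496) (l 16533848)) (a (b (l 16490552) (l 16407872)) (l 16453352))) (a (b (l 16530000) (l 16505896)) (b (l 16584888) (l 16554328)))) (b (b (a (l 16478376) (l 16607536)) (l 16531448)) (b (l 16573648) (l 533631503)))))), by decide +kernel⟩

def k2_B00pp_012_s1 : ∃ t, chk3 f_B00pp_012_s1 t 4 6 1 = true :=
  ⟨(a (l 2) (a (b (l 2) (a (b (l 2) (a (l 2) (b (l 16448832) (l 16500816)))) (b (a (b (l 2) (l 16436696)) (b (l 16425656) (l 16475480))) (a (b (l 16487616) (l 16541240)) (b (l 16527824) (l 16582664)))))) (a (a (b (b (l 2) (b (l 2) (l 16414952))) (b (b (l 16463608) (l 16514664)) (b (l 16567968) (l 16622520)))) (b (b (b (l 2) (l 16316264)) (b (l 16403816) (l 16451240))) (b (b (l 16500944) (l 16552648)) (b (l 16605520) (b (l 16642960) (l 16665840)))))) (b (b (a (b (a (b (l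 2) (l 16350000)) (b (a (l 2) (l 16347912)) (l 16365816))) (b (l 16379976) (l 16402552))) (b (b (a (l 193910184743) (l 16374616)) (l 16388816)) (l 16422696))) (a (b (l 16437480) (l 16485744)) (b (l 16469496) (l 16518120)))) (b (a (b (l 16535680) (l 16586640)) (b (l 16566760) (l 16612680))) (b (a (l 16550232) (b (l 16644376) (l 16663448))) (a (b (l 16666536) (l 16644920)) (b (l 16682048) (l 16699880))))))))), by decide +kernel⟩

def k3_B00pp_012_s1 : ∃ t, chk3 f_B00pp_012_s1 t 4 28 1 = true :=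
  ⟨(a (a (l 2) (a (l 2) (a (l 2) (b (l 2) (b (l 16523792) (l 16551544)))))) (a (a (a (b (l 16516064) (b (l 16557672) (l 16586720))) (b (l 16555712) (b (l 16598800) (l 16628280)))) (b (a (l 16513688) (b (l 16624904) (l 16652232))) (a (b (l 16641032) (l 16627048)) (b (l 16594424) (a (l 16694880) (l 16687560)))))) (a (b (a (b (l 16661072) (a (l 16677624) (l 16690936))) (b (l 16645272) (a (l 16701960) (l 16710600)))) (a (b (a (l 16699864) (l 16669216)) (a (l 529389071) (l 529718287))) (b (a (l 16678168) (l 16707312)) (a (l 529956623) (l 530105103))))) (a (a (b (l 530082575) (b (l 530173711) (l 530147599))) (b (l 530097167) (a (l 530123023) (l 530044687)))) (b (a (l 530014223) (b (l 16720320) (l 529904911))) (b (a (b (l 16722568) (l 529914895)) (b (l 529894159) (l 529385999))) (a (b (a (l 529907471) (l 529861647)) (a (l 529836815) (l 529897231))) (l 530017295)))))))), by decide +kernel⟩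

def k4_B00pp_012_s1 : ∃ t, chk3 f_B00pp_012_s1 t 8 29 1 = true :=
  ⟨(a (l 2) (a (b (l 2) (a (a (l 2) (b (l 2) (b (l 2) (l 16623288)))) (b (a (l 16588960) (b (l 16590200) (l 16607112))) (a (b (l 16614552) (l 16632272)) (b (l 16624640) (l 16642712)))))) (b (a (b (l 16552792) (b (l 16574872) (l 16590736))) (b (l 16580200) (b (l 16603392) (l 16619872)))) (a (b (a (l 16609800) (l 16622832)) (a (b (l 16636384) (l 16654832)) (b (l 16650024) (b (l 16664072) (l 16673568))))) (b (a (b (l 16629032) (l 16646968)) (b (l 16645888) (l 16663912))) (a (b (l 16665392) (b (l 16679528) (l 16688912))) (b (l 16661136) (b (l 16695760) (l 16683856))))))))), by decide +kernel⟩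

def k5_B00pp_012_s1 : ∃ t, chk3 f_B00pp_012_s1 t 18 29 1 = true :=
  ⟨(a (a (b (a (b (l 16606584) (l 16638512)) (b (l 16626840) (l 16658696))) (b (a (b (l 16664336) (l 16681816)) (l 524918031)) (a (b (l 524369935) (a (l 16691640) (l 16710328))) (b (l 525345039) (a (l 525437199) (l 526026511)))))) (b (b (a (l 16647936) (l 16668080)) (a (l 16636664) (l 526428175))) (b (a (l 525933327) (b (l 16676904) (l 527062543))) (a (b (l 526443535) (a (l 526595087) (b (l 16746992) (l 527180303)))) (b (a (l 527163151) (l 527467279)) (a (b (l 527356431) (l 527452431)) (l 527618319))))))) (b (a (b (a (l 16686832) (l 16661488)) (a (b (l 16706824) (l 16720000)) (b (l 16700008) (l 528014351)))) (b (a (b (l 16711680) (l 16722192)) (b (l 16723480) (l 16722168))) (a (a (l 528329487) (l 528523791)) (b (l 528808975) (l 528736527))))) (a (b (a (b (a (l 16729568) (l 16725152)) (a (l 527575055) (l 527794191))) (b (l 528035855) (a (l 527990287)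 (l 528164879)))) (a (b (a (l 527684111) (l 527878927)) (a (l 527537935) (b (l 527950607) (l 528003343)))) (b (a (b (l 528034575) (l 528069135)) (l 528205839)) (l 527928079)))) (b (a (b (l 528397071) (l 528392719)) (a (b (l 528614671) (l 528309775)) (b (l 528735503) (l 528676879)))) (a (b (b (l 528397839) (l 528136975)) (a (b (l 528364047) (l 3)) (l 3))) (b (a (b (a (l 528534543) (l 528312079)) (l 3)) (l 3)) (l 3))))))), by decide +kernel⟩

def k6_B00pp_012_s1 : ∃ t, chk3 f_B00pp_012_s1 t 19 29 1 = true :=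
  ⟨(a (b (a (b (b (l 529497871) (a (l 529221135) (l 529473295))) (a (b (l 529095695) (a (l 528928527) (l 529032207))) (b (l 529306639) (l 529149455)))) (b (b (a (l 529846287) (l 529975567)) (a (l 529647887) (l 529740303))) (a (b (l 529436943) (a (l 529220623) (l 529240591))) (b (l 529482255) (b (l 529291791) (l 3)))))) (b (a (a (b (a (l 528836879) (l 528918031)) (l 528517903)) (b (l 529000463) (l 3))) (a (b (a (l 529034511) (l 3)) (l 3)) (l 3))) (l 3))) (b (a (b (a (b (a (l 530015247) (l 530050063)) (l 529746191)) (b (a (l 529976335) (a (l 529906447) (b (l 529862671) (l 529821711)))) (a (l 529693711) (b (a (l 529705231) (l 529807887)) (l 3))))) (a (b (a (l 529457935) (l 529416207)) (l 3)) (l 3))) (b (b (a (a (l 529873679) (l 529972239)) (l 530138127)) (l 3)) (l 3))) (l 3))), by decide +kernel⟩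

def k7_B00pp_012_s1 : ∃ t, chk3 f_B00pp_012_s1 t 16 30 1 = true :=
  ⟨(a (l 2) (a (b (l 2) (a (l 2) (b (l 2) (a (a (l 527120655) (l 527038991)) (a (l 526953487) (l 526864143)))))) (b (a (l 2) (b (l 2) (b (l 2) (a (l 2) (l 525528847))))) (a (a (b (b (l 2) (l 16700584)) (a (l 526770447) (l 526403087))) (b (b (l 16689296) (l 526368015)) (a (l 526300431) (l 526198799)))) (a (b (b (l 525980943) (l 16708080)) (a (l 526099471) (l 526003727))) (b (b (l 16696816) (l 525959183)) (b (l 526092047) (b (l 16732192) (l 525923343))))))))), by decide +kernel⟩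

def k8_B00pp_012_s1 : ∃ t, chk3 f_B00pp_012_s1 t 34 30 1 = true :=
  ⟨(b (a (b (a (b (l 2) (a (l 2) (l 16652808))) (b (b (l 16636608) (l 16645592)) (b (l 16654656) (l 16663776)))) (a (a (b (l 525019919) (l 16684440)) (b (l 16676152) (l 16688704))) (a (b (l 16675288) (l 16693288)) (b (l 16679984) (l 524530703))))) (b (a (b (l 16650416) (b (l 16664256) (l 16673568))) (b (b (l 16656568) (l 16665928)) (a (l 16677176) (l 523398671)))) (a (a (b (l 524023567) (l 524414223)) (b (l 524039439) (l 524347663))) (b (a (b (l 16691456) (l 16701056)) (b (l 16697648) (l 16707312))) (a (l 524346639) (l 524393743)))))) (a (a (b (a (b (l 16700976) (l 525507855)) (b (l 525128463) (l 525355023))) (a (b (l 525931791) (a (l 526080015) (l 525770767))) (b (b (l 16732688) (l 525599247)) (a (l 525760015) (l 526040591))))) (b (a (b (l 524978447) (l 525244431)) (b (l 524864527) (b (l 525109519) (l 525283855)))) (a (b (b (l 525443599) (l 525590031))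 (b (l 525742863) (l 525896207))) (b (l 525823759) (a (l 526154511) (b (l 526119951) (l 526297871))))))) (a (b (a (b (l 525075215) (l 525488399)) (b (l 524816655) (a (l 525536015) (l 525309967)))) (a (b (b (l 525532175) (a (l 525980431) (l 526031631))) (a (b (l 526173455) (l 526363151)) (l 526337807))) (b (a (l 525981711) (l 526045967)) (l 526463503)))) (b (a (b (l 525142031) (a (l 525359631) (l 525687311))) (b (a (l 524939279) (l 525262607)) (l 525796367))) (a (b (l 526163215) (l 526673935)) (b (l 526361359) (l 526933263))))))), by decide +kernel⟩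

def k9_B00pp_012_s1 : ∃ t, chk3 f_B00pp_012_s1 t 35 30 1 = true :=
  ⟨(b (b (a (a (b (b (l 16669024) (l 16678568)) (a (l 523392015) (l 523438095))) (b (b (l 16683088) (b (l 16690336) (l 16695120))) (a (b (l 16698704) (l 16708264)) (b (l 16705888) (l 16720544))))) (a (b (b (l 523419919) (a (l 16703848) (l 16711368))) (b (a (l 16713168) (l 524194831)) (a (l 524219919) (l 524451599)))) (a (b (l 523873295) (b (l 524469775) (l 524736527))) (b (l 524194063) (b (l 524804623) (l 524810767)))))) (a (a (b (a (b (l 16704200) (l 16719072)) (b (l 16716160) (l 524096783))) (a (a (l 524722447) (l 524773135)) (l 524867855))) (b (b (a (l 524168719) (l 524318735)) (a (l 524492303) (l 524664591))) (a (l 525035535) (l 525249551)))) (b (b (a (a (l 524515599) (l 524492815)) (a (l 524789263) (l 525407759))) (a (a (l 524615439) (l 524882191)) (a (l 525466639) (b (l 525710863) (l 525955855))))) (a (a (l 525511183) (l 525821967)) (a (l 526182415)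 (l 526594063)))))) (b (a (a (a (b (l 525363727) (l 525983247)) (b (l 525540879) (l 526217999))) (a (b (l 525764623) (l 526501647)) (b (l 526037007) (l 526835215)))) (a (a (b (l 526358543) (l 527219471)) (b (l 526730511) (l 3))) (b (a (l 527153935) (l 527629839)) (l 3)))) (b (a (a (a (l 526607887) (l 526903823)) (a (l 527250447) (l 3))) (l 3)) (l 3)))), by decide +kernel⟩

def k10_B00pp_012_s1 : ∃ t, chk3 f_B00pp_012_s1 t 36 60 1 = true :=
  ⟨(a (b (a (a (b (l 524851983) (b (l 525207311) (l 525486351))) (b (l 525319695) (b (l 525689103) (l 525971215)))) (a (b (l 525883407) (a (l 526256655) (l 526584335))) (b (b (l 16737536) (l 526641167)) (b (a (l 526765583) (l 527054863)) (a (a (l 526983439) (l 527129871)) (b (l 527224847) (l 527052303))))))) (a (b (b (a (b (l 525727247) (l 525910287)) (a (l 525898511) (l 526158607))) (a (b (l 526122511) (l 526379535)) (b (b (l 526533903) (l 526649103)) (l 526855439)))) (a (l 527057167)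 (b (a (l 527155215) (l 527416847)) (l 3)))) (b (a (a (b (l 526717967) (b (a (l 526647055) (b (l 527011087) (l 526835727))) (l 527246607))) (b (a (l 526964495) (b (l 527057423) (l 526971663))) (b (a (b (l 527174671) (a (l 527224079) (l 527052303))) (l 527080463)) (a (b (b (a (l 527292687) (l 527097359)) (l 527139087)) (l 3)) (l 3))))) (b (a (b (a (l 527210767) (l 527037199)) (a (l 527057679) (l 527392015))) (l 527166223)) (b (l 527220751) (l 3)))) (b (a (a (a (b (l 527473423) (l 3)) (l 3)) (l 3)) (l 3)) (l 3))))) (b (a (b (a (b (l 526940943) (a (l 527054607) (l 527255055))) (b (a (l 527257871) (l 527386383)) (l 527165711))) (a (b (a (b (l 527224335) (l 527307279)) (l 527389711)) (a (l 527137551) (l 527510287))) (b (l 527543567) (l 527386383)))) (b (a (b (l 527542543) (l 527634703)) (b (a (l 527687183) (l 527778063)) (b (a (l 527749903) (l 527836943)) (l 527835919)))) (b (a (l 527731215) (a (b (l 527837455) (l 3)) (l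 3))) (l 3)))) (b (a (a (b (a (l 527537167) (l 527633935)) (l 3)) (l 3)) (l 3)) (l 3)))), by decide +kernel⟩

def k11_B00pp_012_s1 : ∃ t, chk3 f_B00pp_012_s1 t 37 60 1 = true :=
  ⟨(a (b (a (b (a (b (a (l 527864335) (l 527945999)) (b (a (a (l 527899151) (l 527939087)) (l 527996687)) (l 3))) (b (l 528059663) (l 3))) (l 3)) (l 3)) (l 3)) (l 3)), by decide +kernel⟩

def k12_B00pp_012_s1 : ∃ t, chk3 f_B00pp_012_s1 t 19 60 1 = true :=
  ⟨(l 3), by decide +kernel⟩

def k13_B00pp_012_s1 : ∃ t, chk3 f_B00pp_012_s1 t 9 61 1 = true :=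
  ⟨(l 3), by decide +kernel⟩

def k14_B00pp_012_s1 : ∃ t, chk3 f_B00pp_012_s1 t 16 62 1 = true :=
  ⟨(a (a (l 2) (b (a (l 2) (a (l 2) (a (l 2) (b (l 2) (l 527339023))))) (a (l 14) (a (l 14) (a (l 14) (b (l 526875919) (b (l 16753632) (l 526739983)))))))) (b (a (a (a (b (l 16713864) (a (l 527282447) (l 527224079))) (a (b (l 527254031) (l 527163407)) (b (l 527184911) (l 527100431)))) (a (a (b (l 527112975) (l 527034639)) (b (l 16733520) (l 526697231))) (b (b (l 16733480) (l 16739816)) (a (l 526624271) (l 526546959))))) (a (a (a (b (l 526785295) (l 526463759)) (b (l 526690063) (l 526373135))) (b (a (l 526590479) (l 526493967)) (a (l 526277391) (b (l 526468879) (l 526443279))))) (a (b (a (l 526403343) (l 526054159)) (b (a (l 526389263) (l 526061583)) (a (l 526120975) (l 526102799)))) (b (a (l 525988111) (a (l 525953807) (l 525942543))) (b (a (l 526041103) (l 526316559)) (l 526122511)))))) (a (a (a (a (b (l 527092495) (l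 526776079)) (b (l 527039503) (l 526723599))) (a (b (l 526985231) (l 526670351)) (b (l 526929423) (l 526615823)))) (a (b (a (l 526871823) (l 526812175)) (a (l 526561039) (l 526505743))) (b (a (l 526749967) (l 526407439)) (a (l 526449423) (l 526123791))))) (b (a (a (a (l 526333199) (l 526258191)) (a (b (l 526205199) (l 526151439)) (a (l 526151183) (l 526147087)))) (a (a (l 526152719) (l 526445327)) (b (l 526204431) (l 3)))) (b (a (a (a (l 526157839) (b (l 526137103) (l 526074127))) (a (l 526121743) (l 3))) (l 3)) (l 3)))))), by decide +kernel⟩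

def k15_B00pp_012_s1 : ∃ t, chk3 f_B00pp_012_s1 t 17 62 1 = true :=
  ⟨(a (b (a (a (a (b (a (a (l 525938191) (l 525939983)) (l 525952783)) (b (a (l 526074127) (l 526108687)) (a (l 526449935) (l 526251535)))) (b (a (l 526253839) (l 526046735)) (a (b (b (l 526405135) (l 526205711)) (l 526305551)) (b (b (l 526203663) (l 526264847)) (l 3))))) (b (a (a (b (l 526290191) (l 526163727)) (b (l 526076175) (l 526494479))) (a (l 526216463) (l 526560783))) (a (b (b (l 526298895) (l 3)) (l 3)) (l 3)))) (a (b (a (l 526696207) (l 526919695)) (l 3)) (l 3))) (l 3)) (l 3)), by decide +kernel⟩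

def k16_B00pp_012_s1 : ∃ t, chk3 f_B00pp_012_s1 t 8 63 1 = true :=
  ⟨(a (a (a (l 14) (a (l 14) (a (l 14) (b (a (l 14) (a (l 14) (l 526003983))) (l 3))))) (b (b (a (a (a (a (a (l 526429967) (l 526402831)) (l 525824783)) (a (l 526306319) (l 526250255))) (a (a (l 526193423) (a (l 526151183) (l 3))) (l 3))) (l 3)) (l 3)) (l 3))) (l 3)), by decide +kernel⟩

def k17_B00pp_012_s1 : ∃ t, chk3 f_B00pp_012_s1 t 9 31 1 = true :=
  ⟨(l 3), by decide +kernel⟩

def k18_B00pp_012_s1 : ∃ t, chk3 f_B00pp_012_s1 t 5 3 1 = true :=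
  ⟨(b (a (b (a (a (b (a (b (l 16409136) (l 16454336)) (l 16379888)) (a (b (l 16501224) (l 16547200)) (l 16468384))) (b (b (l 16402872) (l 16528040)) (b (l 16484440) (l 16520448)))) (a (b (b (l 16539464) (l 16576080)) (b (l 16610576) (l 16560928))) (b (b (l 16588272) (l 16620832)) (l 531311887)))) (a (b (a (a (b (l 16592112) (l 16633544)) (b (l 16612496) (l 16649680))) (a (b (l 16631144) (l 16583400)) (b (l 16650064) (l 16600848)))) (a (a (b (b (l 16660616) (l 16678624)) (b (l 16696128) (l 529918479))) (b (l 529966095) (b (l 16690344) (l 530148623)))) (a (b (l 529972751) (l 530255887)) (l 530785807)))) (b (a (b (l 530016783) (l 531022351)) (l 531510799)) (a (b (l 531297807) (l 531612175)) (b (l 532217359) (l 532560143)))))) (b (a (b (a (l 16566256) (l 532651023)) (a (l 532179727) (l 533088015))) (b (l 532143887) (a (l 533223183) (l 532211983)))) (a (b (a (l 532698639) (l 533250575)) (a (b (l 533175055) (l 3)) (l 3)))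 (b (a (l 531930127) (l 531402255)) (l 3))))) (b (a (b (a (a (b (a (b (a (l 16685032) (l 529984783)) (a (b (l 16739992) (l 16738128)) (l 530118415))) (b (l 530296335) (l 530440463))) (a (b (a (l 530067471) (l 530276367)) (l 530338319)) (b (l 530611215) (l 3)))) (b (a (l 530805519) (l 531262991)) (b (a (l 531069455) (l 3)) (l 3)))) (a (b (a (l 531731215) (l 3)) (l 3)) (l 3))) (l 3)) (l 3)) (l 3))), by decide +kernel⟩

def k19_B00pp_012_s1 : ∃ t, chk3 f_B00pp_012_s1 t 3 1 1 = true :=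
  ⟨(b (a (b (a (b (a (l 6) (l 16543664)) (a (b (l 16593936) (l 16537584)) (b (l 16574192) (l 16596360)))) (b (a (l 16438824) (b (l 16484400) (a (l 16505800) (l 16500104)))) (a (b (l 16550344) (l 16586296)) (l 530755343)))) (a (b (a (b (l 16641352) (l 16659728)) (l 531412239)) (a (b (l 533154831) (l 532669455)) (b (l 531858447) (l 531306511)))) (a (b (l 530987791) (b (l 530553103) (l 529940495))) (b (l 529229327) (b (l 529263375) (l 528596495)))))) (b (a (b (a (b (a (l 16459144) (l 16453712)) (l 16507264)) (l 529016335)) (a (l 529624591) (b (l 528698639) (l 528374799)))) (a (b (l 528005647) (b (l 527670799) (l 527330063))) (b (l 527060239) (b (l 526713615) (l 526361103))))) (a (b (a (l 528841999) (b (l 527960079) (l 527445007))) (a (b (l 528011791) (l 3)) (l 3))) (b (a (b (l 526895119) (l 3)) (l 3)) (l 3))))) (b (b (a (a (a (b (l 530999055) (a (l 531727119) (l 530967823))) (b (l 529560847) (l 3))) (l 3)) (l 3)) (l 3))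 (l 3))), by decide +kernel⟩

theorem t20_B00pp_012_s1 : ∃ t, chk3 f_B00pp_012_s1 t 8 62 1 = true := ex3_a k14_B00pp_012_s1 k15_B00pp_012_s1

theorem t21_B00pp_012_s1 : ∃ t, chk3 f_B00pp_012_s1 t 8 31 1 = true := ex3_b t20_B00pp_012_s1 k16_B00pp_012_s1

theorem t22_B00pp_012_s1 : ∃ t, chk3 f_B00pp_012_s1 t 4 31 1 = true := ex3_a t21_B00pp_012_s1 k17_B00pp_012_s1

theorem t23_B00pp_012_s1 : ∃ t, chk3 f_B00pp_012_s1 t 18 60 1 = true := ex3_a k10_B00pp_012_s1 k11_B00pp_012_s1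

theorem t24_B00pp_012_s1 : ∃ t, chk3 f_B00pp_012_s1 t 9 60 1 = true := ex3_a t23_B00pp_012_s1 k12_B00pp_012_s1

theorem t25_B00pp_012_s1 : ∃ t, chk3 f_B00pp_012_s1 t 9 30 1 = true := ex3_b t24_B00pp_012_s1 k13_B00pp_012_s1

theorem t26_B00pp_012_s1 : ∃ t, chk3 f_B00pp_012_s1 t 17 30 1 = true := ex3_a k8_B00pp_012_s1 k9_B00pp_012_s1

theorem t27_B00pp_012_s1 : ∃ t, chk3 f_B00pp_012_s1 t 8 30 1 = true := ex3_a k7_B00pp_012_s1 t26_B00pp_012_s1

theorem t28_B00pp_012_s1 : ∃ t, chk3 f_B00pp_012_s1 t 4 30 1 = true := ex3_a t27_B00pp_012_s1 t25_B00pp_012_s1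

theorem t29_B00pp_012_s1 : ∃ t, chk3 f_B00pp_012_s1 t 4 15 1 = true := ex3_b t28_B00pp_012_s1 t22_B00pp_012_s1

theorem t30_B00pp_012_s1 : ∃ t, chk3 f_B00pp_012_s1 t 9 29 1 = true := ex3_a k5_B00pp_012_s1 k6_B00pp_012_s1

theorem t31_B00pp_012_s1 : ∃ t, chk3 f_B00pp_012_s1 t 4 29 1 = true := ex3_a k4_B00pp_012_s1 t30_B00pp_012_s1

theorem t32_B00pp_012_s1 : ∃ t, chk3 f_B00pp_012_s1 t 4 14 1 = true := ex3_b k3_B00pp_012_s1 t31_B00pp_012_s1

theorem t33_B00pp_012_s1 : ∃ t, chk3 f_B00pp_012_s1 t 4 7 1 = true := ex3_b t32_B00pp_012_s1 t29_B00pp_012_s1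

theorem t34_B00pp_012_s1 : ∃ t, chk3 f_B00pp_012_s1 t 4 3 1 = true := ex3_b k2_B00pp_012_s1 t33_B00pp_012_s1

theorem t35_B00pp_012_s1 : ∃ t, chk3 f_B00pp_012_s1 t 2 3 1 = true := ex3_a t34_B00pp_012_s1 k18_B00pp_012_s1

theorem t36_B00pp_012_s1 : ∃ t, chk3 f_B00pp_012_s1 t 2 2 1 = true := ex3_a k0_B00pp_012_s1 k1_B00pp_012_s1

theorem t37_B00pp_012_s1 : ∃ t, chk3 f_B00pp_012_s1 t 2 1 1 = true := ex3_b t36_B00pp_012_s1 t35_B00pp_012_s1

theorem t38_B00pp_012_s1 : ∃ t, chk3 f_B00pp_012_s1 t 1 1 1 = true := ex3_a t37_B00pp_012_s1 k19_B00pp_012_s1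

theorem c_B00pp_012_s1 : CertF 0 536870912 0 536870912 1040187392 5207648 false true true .pnp 0 1 2
    ndB0q0 ndB0q2 pcB1 cut_B00pp_012_s1 xt_B00pp_012_s1 :=
  certF0 (fam := false) (s1 := true) (s2 := true) (a := 0) (b := 1) (c := 2) (cn := .pnp) (n1 := ndB0q0) (n2 := ndB0q2) (pc := pcB1) (cut := cut_B00pp_012_s1) (xt := xt_B00pp_012_s1) (P1 := 0) (W1 := 536870912) (P2 := 0) (W2 := 536870912) (P3 := 1040187392) (W3 := 5207648)
    rfl t38_B00pp_012_s1

theorem s_B00pp_012_s1 {κ x : ℝ} (hκ : κ * h0 = ken x) (hx : ((1040187392 : ℕ) : ℝ) / S ≤ x)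
    (hx' : x ≤ (((1040187392 : ℕ) : ℝ) + (5207648 : ℕ)) / S)
    (H : CutB (VFD κ) PP tK tL pcB (Cut.of [[⟨0, 0, 0, 16777216⟩, ⟨1, 1, 0, 16777216⟩, ⟨2, 1, 0, 16777216⟩]]) 0 1 2 0 0 (sgb true) (sgb true) x) :
    AltB (VFD κ) PP tK tL pcB [⟨3, 0, 0, 1449551462⟩] 0 1 2 0 0 (sgb true) (sgb true) x :=
  strip_altBD (m := 1449551462) true rfl hκ (SH.κ0 hκ (SH.hx1 hx).le (SH.hx2 hx').le) (SH.hx1 hx).le (SH.hx2 hx') (covB00).cov (covB02).cov hx hx' c_B00pp_012_s1 H ((okx hx hx').extB (T := tt) (sideB hx hx') hκ rfl rfl (.O 0 true) (.O 2 true) (Or.inr rfl))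

noncomputable def cut_B00pp_012_s3 : Cut := Cut.of [[⟨3, 0, 0, 2845415833⟩], [⟨0, 0, 0, 16777216⟩, ⟨1, 1, 0, 16777216⟩, ⟨2, 1, 0, 16777216⟩]]

noncomputable def f_B00pp_012_s3 : ℕ → ℕ → ℕ → ℕ → Bool := onCell 0 536870912 0 536870912 1040187392 5207648
    (rowF 0 false true true .pnp 0 1 2 (qsf 0 536870912 0 536870912 1) ndB0q0 ndB0q2 pcB1 cut_B00pp_012_s3 Ext.none)

def k0_B00pp_012_s3 : ∃ t, chk3 f_B00pp_012_s3 t 1 1 1 = true :=
  ⟨(l 6), by decide +kernel⟩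

theorem c_B00pp_012_s3 : CertF 0 536870912 0 536870912 1040187392 5207648 false true true .pnp 0 1 2
    ndB0q0 ndB0q2 pcB1 cut_B00pp_012_s3 Ext.none :=
  certF0 (fam := false) (s1 := true) (s2 := true) (a := 0) (b := 1) (c := 2) (cn := .pnp) (n1 := ndB0q0) (n2 := ndB0q2) (pc := pcB1) (cut := cut_B00pp_012_s3) (xt := Ext.none) (P1 := 0) (W1 := 536870912) (P2 := 0) (W2 := 536870912) (P3 := 1040187392) (W3 := 5207648)
    rfl k0_B00pp_012_s3

theorem s_B00pp_012_s3 {κ x : ℝ} (hκ : κ * h0 = ken x) (hx : ((1040187392 : ℕ) : ℝ) / S ≤ x)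
    (hx' : x ≤ (((1040187392 : ℕ) : ℝ) + (5207648 : ℕ)) / S)
    (H : CutB (VFD κ) PP tK tL pcB (Cut.of [[⟨0, 0, 0, 16777216⟩, ⟨1, 1, 0, 16777216⟩, ⟨2, 1, 0, 16777216⟩]]) 0 1 2 0 0 (sgb true) (sgb true) x) :
    AltB (VFD κ) PP tK tL pcB [⟨4, 0, 0, 2845415833⟩] 0 1 2 0 0 (sgb true) (sgb true) x :=
  strip_altBD (m := 2845415833) false rfl hκ (SH.κ0 hκ (SH.hx1 hx).le (SH.hx2 hx').le) (SH.hx1 hx).le (SH.hx2 hx') (covB00).cov (covB02).cov hx hx' c_B00pp_012_s3 H (noExt_B)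

end Pool.Agent.Strip051.G.I9688_9736.Tab.St.C
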