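import Pool.Agent.Strip051.G.I9688_9736.StH
import Pool.Agent.Strip051.G.I9688_9736.Sp7_0
import Pool.Agent.Strip051.G.I9688_9736.Sp7_1
import Pool.Agent.Strip051.G.I9688_9736.Sp7_2
import Pool.Agent.Strip051.G.I9688_9736.Sp7_3
import Pool.Agent.Strip051.G.I9688_9736.Sp7_4
import Pool.Agent.Strip051.G.I9688_9736.StF

/-! # Unit strips 7 (generated) -/

set_option linter.all false
set_option maxRecDepth 100000

namespace Pool.Agent.Strip051.G.I9688_9736.Tab.St.C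

open Pool.Agent.Strip051.PB Pool.Agent.Strip051.PB.T Pool.Agent.StripNear Pool.Agent.Strip051.LC
open Pool.Agent.Strip051.G.I9688_9736.Tab Pool.Agent.Strip051.G.I9688_9736.Tab.St

theorem t436_A00pm_123_s3 : ∃ t, chk3 f_A00pm_123_s3 t 2047 31 1 = true := ex3_b k434_A00pm_123_s3 k435_A00pm_123_s3

theorem t437_A00pm_123_s3 : ∃ t, chk3 f_A00pm_123_s3 t 4092 4092 1 = true := ex3_b k429_A00pm_123_s3 k430_A00pm_123_s3

theorem t438_A00pm_123_s3 : ∃ t, chk3 f_A00pm_123_s3 t 4092 2046 1 = true := ex3_b t437_A00pm_123_s3 k431_A00pm_123_s3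

theorem t439_A00pm_123_s3 : ∃ t, chk3 f_A00pm_123_s3 t 2046 2046 1 = true := ex3_a t438_A00pm_123_s3 k432_A00pm_123_s3

theorem t440_A00pm_123_s3 : ∃ t, chk3 f_A00pm_123_s3 t 2046 1023 1 = true := ex3_b t439_A00pm_123_s3 k433_A00pm_123_s3

theorem t441_A00pm_123_s3 : ∃ t, chk3 f_A00pm_123_s3 t 2046 511 1 = true := ex3_b k428_A00pm_123_s3 t440_A00pm_123_s3

theorem t442_A00pm_123_s3 : ∃ t, chk3 f_A00pm_123_s3 t 2046 510 1 = true := ex3_a k426_A00pm_123_s3 k427_A00pm_123_s3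

theorem t443_A00pm_123_s3 : ∃ t, chk3 f_A00pm_123_s3 t 2046 255 1 = true := ex3_b t442_A00pm_123_s3 t441_A00pm_123_s3

theorem t444_A00pm_123_s3 : ∃ t, chk3 f_A00pm_123_s3 t 2046 254 1 = true := ex3_a k424_A00pm_123_s3 k425_A00pm_123_s3

theorem t445_A00pm_123_s3 : ∃ t, chk3 f_A00pm_123_s3 t 2046 127 1 = true := ex3_b t444_A00pm_123_s3 t443_A00pm_123_s3

theorem t446_A00pm_123_s3 : ∃ t, chk3 f_A00pm_123_s3 t 4093 253 1 = true := ex3_b k422_A00pm_123_s3 k423_A00pm_123_s3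

theorem t447_A00pm_123_s3 : ∃ t, chk3 f_A00pm_123_s3 t 131006 16162 1 = true := ex3_a k415_A00pm_123_s3 k416_A00pm_123_s3

theorem t448_A00pm_123_s3 : ∃ t, chk3 f_A00pm_123_s3 t 131006 8081 1 = true := ex3_b t447_A00pm_123_s3 k417_A00pm_123_s3

theorem t449_A00pm_123_s3 : ∃ t, chk3 f_A00pm_123_s3 t 65503 8081 1 = true := ex3_a t448_A00pm_123_s3 k418_A00pm_123_s3

theorem t450_A00pm_123_s3 : ∃ t, chk3 f_A00pm_123_s3 t 65503 4040 1 = true := ex3_b k414_A00pm_123_s3 t449_A00pm_123_s3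

theorem t451_A00pm_123_s3 : ∃ t, chk3 f_A00pm_123_s3 t 131005 8080 1 = true := ex3_b k411_A00pm_123_s3 k412_A00pm_123_s3

theorem t452_A00pm_123_s3 : ∃ t, chk3 f_A00pm_123_s3 t 131005 4040 1 = true := ex3_b t451_A00pm_123_s3 k413_A00pm_123_s3

theorem t453_A00pm_123_s3 : ∃ t, chk3 f_A00pm_123_s3 t 65502 4040 1 = true := ex3_a k410_A00pm_123_s3 t452_A00pm_123_s3

theorem t454_A00pm_123_s3 : ∃ t, chk3 f_A00pm_123_s3 t 32751 4040 1 = true := ex3_a t453_A00pm_123_s3 t450_A00pm_123_s3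

theorem t455_A00pm_123_s3 : ∃ t, chk3 f_A00pm_123_s3 t 32751 2020 1 = true := ex3_b t454_A00pm_123_s3 k419_A00pm_123_s3

theorem t456_A00pm_123_s3 : ∃ t, chk3 f_A00pm_123_s3 t 16375 2020 1 = true := ex3_a k409_A00pm_123_s3 t455_A00pm_123_s3

theorem t457_A00pm_123_s3 : ∃ t, chk3 f_A00pm_123_s3 t 16375 1010 1 = true := ex3_b t456_A00pm_123_s3 k420_A00pm_123_s3

theorem t458_A00pm_123_s3 : ∃ t, chk3 f_A00pm_123_s3 t 8187 1010 1 = true := ex3_a k408_A00pm_123_s3 t457_A00pm_123_s3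

theorem t459_A00pm_123_s3 : ∃ t, chk3 f_A00pm_123_s3 t 8187 505 1 = true := ex3_b t458_A00pm_123_s3 k421_A00pm_123_s3

theorem t460_A00pm_123_s3 : ∃ t, chk3 f_A00pm_123_s3 t 131004 8079 1 = true := ex3_a k404_A00pm_123_s3 k405_A00pm_123_s3

theorem t461_A00pm_123_s3 : ∃ t, chk3 f_A00pm_123_s3 t 65502 8079 1 = true := ex3_a t460_A00pm_123_s3 k406_A00pm_123_s3

theorem t462_A00pm_123_s3 : ∃ t, chk3 f_A00pm_123_s3 t 32751 8079 1 = true := ex3_a t461_A00pm_123_s3 k407_A00pm_123_s3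

theorem t463_A00pm_123_s3 : ∃ t, chk3 f_A00pm_123_s3 t 32751 4039 1 = true := ex3_b k403_A00pm_123_s3 t462_A00pm_123_s3

theorem t464_A00pm_123_s3 : ∃ t, chk3 f_A00pm_123_s3 t 32751 2019 1 = true := ex3_b k402_A00pm_123_s3 t463_A00pm_123_s3

theorem t465_A00pm_123_s3 : ∃ t, chk3 f_A00pm_123_s3 t 131003 8078 1 = true := ex3_b k399_A00pm_123_s3 k400_A00pm_123_s3

theorem t466_A00pm_123_s3 : ∃ t, chk3 f_A00pm_123_s3 t 65501 8078 1 = true := ex3_a k398_A00pm_123_s3 t465_A00pm_123_s3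

theorem t467_A00pm_123_s3 : ∃ t, chk3 f_A00pm_123_s3 t 65501 4039 1 = true := ex3_b t466_A00pm_123_s3 k401_A00pm_123_s3

theorem t468_A00pm_123_s3 : ∃ t, chk3 f_A00pm_123_s3 t 32750 4039 1 = true := ex3_a k397_A00pm_123_s3 t467_A00pm_123_s3

theorem t469_A00pm_123_s3 : ∃ t, chk3 f_A00pm_123_s3 t 131002 8077 1 = true := ex3_b k394_A00pm_123_s3 k395_A00pm_123_s3

theorem t470_A00pm_123_s3 : ∃ t, chk3 f_A00pm_123_s3 t 65501 8077 1 = true := ex3_a t469_A00pm_123_s3 k396_A00pm_123_s3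

theorem t471_A00pm_123_s3 : ∃ t, chk3 f_A00pm_123_s3 t 65501 4038 1 = true := ex3_b k393_A00pm_123_s3 t470_A00pm_123_s3

theorem t472_A00pm_123_s3 : ∃ t, chk3 f_A00pm_123_s3 t 65500 8076 1 = true := ex3_b k390_A00pm_123_s3 k391_A00pm_123_s3

theorem t473_A00pm_123_s3 : ∃ t, chk3 f_A00pm_123_s3 t 65500 4038 1 = true := ex3_b t472_A00pm_123_s3 k392_A00pm_123_s3

theorem t474_A00pm_123_s3 : ∃ t, chk3 f_A00pm_123_s3 t 32750 4038 1 = true := ex3_a t473_A00pm_123_s3 t471_A00pm_123_s3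

theorem t475_A00pm_123_s3 : ∃ t, chk3 f_A00pm_123_s3 t 32750 2019 1 = true := ex3_b t474_A00pm_123_s3 t468_A00pm_123_s3

theorem t476_A00pm_123_s3 : ∃ t, chk3 f_A00pm_123_s3 t 16375 2019 1 = true := ex3_a t475_A00pm_123_s3 t464_A00pm_123_s3

theorem t477_A00pm_123_s3 : ∃ t, chk3 f_A00pm_123_s3 t 16375 2018 1 = true := ex3_a k388_A00pm_123_s3 k389_A00pm_123_s3

theorem t478_A00pm_123_s3 : ∃ t, chk3 f_A00pm_123_s3 t 16375 1009 1 = true := ex3_b t477_A00pm_123_s3 t476_A00pm_123_s3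

theorem t479_A00pm_123_s3 : ∃ t, chk3 f_A00pm_123_s3 t 130999 8075 1 = true := ex3_b k385_A00pm_123_s3 k386_A00pm_123_s3

theorem t480_A00pm_123_s3 : ∃ t, chk3 f_A00pm_123_s3 t 65499 8075 1 = true := ex3_a k384_A00pm_123_s3 t479_A00pm_123_s3

theorem t481_A00pm_123_s3 : ∃ t, chk3 f_A00pm_123_s3 t 65499 8074 1 = true := ex3_b k382_A00pm_123_s3 k383_A00pm_123_s3

theorem t482_A00pm_123_s3 : ∃ t, chk3 f_A00pm_123_s3 t 65499 4037 1 = true := ex3_b t481_A00pm_123_s3 t480_A00pm_123_s3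

theorem t483_A00pm_123_s3 : ∃ t, chk3 f_A00pm_123_s3 t 32749 4037 1 = true := ex3_a k381_A00pm_123_s3 t482_A00pm_123_s3

theorem t484_A00pm_123_s3 : ∃ t, chk3 f_A00pm_123_s3 t 130997 8073 1 = true := ex3_b k378_A00pm_123_s3 k379_A00pm_123_s3

theorem t485_A00pm_123_s3 : ∃ t, chk3 f_A00pm_123_s3 t 65498 8073 1 = true := ex3_a k377_A00pm_123_s3 t484_A00pm_123_s3

theorem t486_A00pm_123_s3 : ∃ t, chk3 f_A00pm_123_s3 t 65498 4036 1 = true := ex3_b k376_A00pm_123_s3 t485_A00pm_123_s3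

theorem t487_A00pm_123_s3 : ∃ t, chk3 f_A00pm_123_s3 t 32749 4036 1 = true := ex3_a t486_A00pm_123_s3 k380_A00pm_123_s3

theorem t488_A00pm_123_s3 : ∃ t, chk3 f_A00pm_123_s3 t 32749 2018 1 = true := ex3_b t487_A00pm_123_s3 t483_A00pm_123_s3

theorem t489_A00pm_123_s3 : ∃ t, chk3 f_A00pm_123_s3 t 16374 2018 1 = true := ex3_a k375_A00pm_123_s3 t488_A00pm_123_s3

theorem t490_A00pm_123_s3 : ∃ t, chk3 f_A00pm_123_s3 t 16374 1009 1 = true := ex3_b t489_A00pm_123_s3 k387_A00pm_123_s3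

theorem t491_A00pm_123_s3 : ∃ t, chk3 f_A00pm_123_s3 t 8187 1009 1 = true := ex3_a t490_A00pm_123_s3 t478_A00pm_123_s3

theorem t492_A00pm_123_s3 : ∃ t, chk3 f_A00pm_123_s3 t 16375 1008 1 = true := ex3_a k373_A00pm_123_s3 k374_A00pm_123_s3

theorem t493_A00pm_123_s3 : ∃ t, chk3 f_A00pm_123_s3 t 130994 8071 1 = true := ex3_a k369_A00pm_123_s3 k370_A00pm_123_s3

theorem t494_A00pm_123_s3 : ∃ t, chk3 f_A00pm_123_s3 t 65497 8071 1 = true := ex3_a t493_A00pm_123_s3 k371_A00pm_123_s3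

theorem t495_A00pm_123_s3 : ∃ t, chk3 f_A00pm_123_s3 t 65497 4035 1 = true := ex3_b k368_A00pm_123_s3 t494_A00pm_123_s3

theorem t496_A00pm_123_s3 : ∃ t, chk3 f_A00pm_123_s3 t 130993 8070 1 = true := ex3_b k365_A00pm_123_s3 k366_A00pm_123_s3

theorem t497_A00pm_123_s3 : ∃ t, chk3 f_A00pm_123_s3 t 65496 8070 1 = true := ex3_a k364_A00pm_123_s3 t496_A00pm_123_s3

theorem t498_A00pm_123_s3 : ∃ t, chk3 f_A00pm_123_s3 t 65496 4035 1 = true := ex3_b t497_A00pm_123_s3 k367_A00pm_123_s3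

theorem t499_A00pm_123_s3 : ∃ t, chk3 f_A00pm_123_s3 t 32748 4035 1 = true := ex3_a t498_A00pm_123_s3 t495_A00pm_123_s3

theorem t500_A00pm_123_s3 : ∃ t, chk3 f_A00pm_123_s3 t 32748 2017 1 = true := ex3_b k363_A00pm_123_s3 t499_A00pm_123_s3

theorem t501_A00pm_123_s3 : ∃ t, chk3 f_A00pm_123_s3 t 16374 2017 1 = true := ex3_a t500_A00pm_123_s3 k372_A00pm_123_s3

theorem t502_A00pm_123_s3 : ∃ t, chk3 f_A00pm_123_s3 t 16374 1008 1 = true := ex3_b k362_A00pm_123_s3 t501_A00pm_123_s3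

theorem t503_A00pm_123_s3 : ∃ t, chk3 f_A00pm_123_s3 t 8187 1008 1 = true := ex3_a t502_A00pm_123_s3 t492_A00pm_123_s3

theorem t504_A00pm_123_s3 : ∃ t, chk3 f_A00pm_123_s3 t 8187 504 1 = true := ex3_b t503_A00pm_123_s3 t491_A00pm_123_s3

theorem t505_A00pm_123_s3 : ∃ t, chk3 f_A00pm_123_s3 t 8187 252 1 = true := ex3_b t504_A00pm_123_s3 t459_A00pm_123_s3

theorem t506_A00pm_123_s3 : ∃ t, chk3 f_A00pm_123_s3 t 130990 8068 1 = true := ex3_b k355_A00pm_123_s3 k356_A00pm_123_s3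

theorem t507_A00pm_123_s3 : ∃ t, chk3 f_A00pm_123_s3 t 65495 8068 1 = true := ex3_a t506_A00pm_123_s3 k357_A00pm_123_s3

theorem t508_A00pm_123_s3 : ∃ t, chk3 f_A00pm_123_s3 t 65495 4034 1 = true := ex3_b t507_A00pm_123_s3 k358_A00pm_123_s3

theorem t509_A00pm_123_s3 : ∃ t, chk3 f_A00pm_123_s3 t 32747 4034 1 = true := ex3_a k354_A00pm_123_s3 t508_A00pm_123_s3

theorem t510_A00pm_123_s3 : ∃ t, chk3 f_A00pm_123_s3 t 32747 2017 1 = true := ex3_b t509_A00pm_123_s3 k359_A00pm_123_s3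

theorem t511_A00pm_123_s3 : ∃ t, chk3 f_A00pm_123_s3 t 16373 2017 1 = true := ex3_a k353_A00pm_123_s3 t510_A00pm_123_s3

theorem t512_A00pm_123_s3 : ∃ t, chk3 f_A00pm_123_s3 t 130989 8067 1 = true := ex3_b k350_A00pm_123_s3 k351_A00pm_123_s3

theorem t513_A00pm_123_s3 : ∃ t, chk3 f_A00pm_123_s3 t 65494 8067 1 = true := ex3_a k349_A00pm_123_s3 t512_A00pm_123_s3

theorem t514_A00pm_123_s3 : ∃ t, chk3 f_A00pm_123_s3 t 65494 4033 1 = true := ex3_b k348_A00pm_123_s3 t513_A00pm_123_s3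

theorem t515_A00pm_123_s3 : ∃ t, chk3 f_A00pm_123_s3 t 65494 2016 1 = true := ex3_b k347_A00pm_123_s3 t514_A00pm_123_s3

theorem t516_A00pm_123_s3 : ∃ t, chk3 f_A00pm_123_s3 t 32747 2016 1 = true := ex3_a t515_A00pm_123_s3 k352_A00pm_123_s3

theorem t517_A00pm_123_s3 : ∃ t, chk3 f_A00pm_123_s3 t 130986 4032 1 = true := ex3_b k343_A00pm_123_s3 k344_A00pm_123_s3

theorem t518_A00pm_123_s3 : ∃ t, chk3 f_A00pm_123_s3 t 65493 4032 1 = true := ex3_a t517_A00pm_123_s3 k345_A00pm_123_s3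

theorem t519_A00pm_123_s3 : ∃ t, chk3 f_A00pm_123_s3 t 65492 8064 1 = true := ex3_a k340_A00pm_123_s3 k341_A00pm_123_s3

theorem t520_A00pm_123_s3 : ∃ t, chk3 f_A00pm_123_s3 t 65492 4032 1 = true := ex3_b t519_A00pm_123_s3 k342_A00pm_123_s3

theorem t521_A00pm_123_s3 : ∃ t, chk3 f_A00pm_123_s3 t 32746 4032 1 = true := ex3_a t520_A00pm_123_s3 t518_A00pm_123_s3

theorem t522_A00pm_123_s3 : ∃ t, chk3 f_A00pm_123_s3 t 32746 2016 1 = true := ex3_b t521_A00pm_123_s3 k346_A00pm_123_s3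

theorem t523_A00pm_123_s3 : ∃ t, chk3 f_A00pm_123_s3 t 16373 2016 1 = true := ex3_a t522_A00pm_123_s3 t516_A00pm_123_s3

theorem t524_A00pm_123_s3 : ∃ t, chk3 f_A00pm_123_s3 t 16373 1008 1 = true := ex3_b t523_A00pm_123_s3 t511_A00pm_123_s3

theorem t525_A00pm_123_s3 : ∃ t, chk3 f_A00pm_123_s3 t 8186 1008 1 = true := ex3_a k339_A00pm_123_s3 t524_A00pm_123_s3

theorem t526_A00pm_123_s3 : ∃ t, chk3 f_A00pm_123_s3 t 8186 504 1 = true := ex3_b t525_A00pm_123_s3 k360_A00pm_123_s3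

theorem t527_A00pm_123_s3 : ∃ t, chk3 f_A00pm_123_s3 t 8186 252 1 = true := ex3_b t526_A00pm_123_s3 k361_A00pm_123_s3

theorem t528_A00pm_123_s3 : ∃ t, chk3 f_A00pm_123_s3 t 4093 252 1 = true := ex3_a t527_A00pm_123_s3 t505_A00pm_123_s3

theorem t529_A00pm_123_s3 : ∃ t, chk3 f_A00pm_123_s3 t 4093 126 1 = true := ex3_b t528_A00pm_123_s3 t446_A00pm_123_s3

theorem t530_A00pm_123_s3 : ∃ t, chk3 f_A00pm_123_s3 t 4092 126 1 = true := ex3_b k337_A00pm_123_s3 k338_A00pm_123_s3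

theorem t531_A00pm_123_s3 : ∃ t, chk3 f_A00pm_123_s3 t 2046 126 1 = true := ex3_a t530_A00pm_123_s3 t529_A00pm_123_s3

theorem t532_A00pm_123_s3 : ∃ t, chk3 f_A00pm_123_s3 t 2046 63 1 = true := ex3_b t531_A00pm_123_s3 t445_A00pm_123_s3

theorem t533_A00pm_123_s3 : ∃ t, chk3 f_A00pm_123_s3 t 16375 1007 1 = true := ex3_a k335_A00pm_123_s3 k336_A00pm_123_s3

theorem t534_A00pm_123_s3 : ∃ t, chk3 f_A00pm_123_s3 t 16375 1006 1 = true := ex3_a k333_A00pm_123_s3 k334_A00pm_123_s3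

theorem t535_A00pm_123_s3 : ∃ t, chk3 f_A00pm_123_s3 t 16375 503 1 = true := ex3_b t534_A00pm_123_s3 t533_A00pm_123_s3

theorem t536_A00pm_123_s3 : ∃ t, chk3 f_A00pm_123_s3 t 16374 1006 1 = true := ex3_a k330_A00pm_123_s3 k331_A00pm_123_s3

theorem t537_A00pm_123_s3 : ∃ t, chk3 f_A00pm_123_s3 t 16374 503 1 = true := ex3_b t536_A00pm_123_s3 k332_A00pm_123_s3

theorem t538_A00pm_123_s3 : ∃ t, chk3 f_A00pm_123_s3 t 8187 503 1 = true := ex3_a t537_A00pm_123_s3 t535_A00pm_123_s3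

theorem t539_A00pm_123_s3 : ∃ t, chk3 f_A00pm_123_s3 t 16373 1007 1 = true := ex3_b k328_A00pm_123_s3 k329_A00pm_123_s3

theorem t540_A00pm_123_s3 : ∃ t, chk3 f_A00pm_123_s3 t 16373 503 1 = true := ex3_b k327_A00pm_123_s3 t539_A00pm_123_s3

theorem t541_A00pm_123_s3 : ∃ t, chk3 f_A00pm_123_s3 t 65491 8062 1 = true := ex3_a k324_A00pm_123_s3 k325_A00pm_123_s3

theorem t542_A00pm_123_s3 : ∃ t, chk3 f_A00pm_123_s3 t 65491 4031 1 = true := ex3_b t541_A00pm_123_s3 k326_A00pm_123_s3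

theorem t543_A00pm_123_s3 : ∃ t, chk3 f_A00pm_123_s3 t 32745 4031 1 = true := ex3_a k323_A00pm_123_s3 t542_A00pm_123_s3

theorem t544_A00pm_123_s3 : ∃ t, chk3 f_A00pm_123_s3 t 65490 8061 1 = true := ex3_a k320_A00pm_123_s3 k321_A00pm_123_s3

theorem t545_A00pm_123_s3 : ∃ t, chk3 f_A00pm_123_s3 t 65490 4030 1 = true := ex3_b k319_A00pm_123_s3 t544_A00pm_123_s3

theorem t546_A00pm_123_s3 : ∃ t, chk3 f_A00pm_123_s3 t 32745 4030 1 = true := ex3_a t545_A00pm_123_s3 k322_A00pm_123_s3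

theorem t547_A00pm_123_s3 : ∃ t, chk3 f_A00pm_123_s3 t 32745 2015 1 = true := ex3_b t546_A00pm_123_s3 t543_A00pm_123_s3

theorem t548_A00pm_123_s3 : ∃ t, chk3 f_A00pm_123_s3 t 16372 2015 1 = true := ex3_a k318_A00pm_123_s3 t547_A00pm_123_s3

theorem t549_A00pm_123_s3 : ∃ t, chk3 f_A00pm_123_s3 t 65488 8058 1 = true := ex3_a k313_A00pm_123_s3 k314_A00pm_123_s3

theorem t550_A00pm_123_s3 : ∃ t, chk3 f_A00pm_123_s3 t 65488 4029 1 = true := ex3_b t549_A00pm_123_s3 k315_A00pm_123_s3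

theorem t551_A00pm_123_s3 : ∃ t, chk3 f_A00pm_123_s3 t 32744 4029 1 = true := ex3_a t550_A00pm_123_s3 k316_A00pm_123_s3

theorem t552_A00pm_123_s3 : ∃ t, chk3 f_A00pm_123_s3 t 16372 4029 1 = true := ex3_a t551_A00pm_123_s3 k317_A00pm_123_s3

theorem t553_A00pm_123_s3 : ∃ t, chk3 f_A00pm_123_s3 t 16372 2014 1 = true := ex3_b k312_A00pm_123_s3 t552_A00pm_123_s3

theorem t554_A00pm_123_s3 : ∃ t, chk3 f_A00pm_123_s3 t 16372 1007 1 = true := ex3_b t553_A00pm_123_s3 t548_A00pm_123_s3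

theorem t555_A00pm_123_s3 : ∃ t, chk3 f_A00pm_123_s3 t 16372 503 1 = true := ex3_b k311_A00pm_123_s3 t554_A00pm_123_s3

theorem t556_A00pm_123_s3 : ∃ t, chk3 f_A00pm_123_s3 t 8186 503 1 = true := ex3_a t555_A00pm_123_s3 t540_A00pm_123_s3

theorem t557_A00pm_123_s3 : ∃ t, chk3 f_A00pm_123_s3 t 4093 503 1 = true := ex3_a t556_A00pm_123_s3 t538_A00pm_123_s3

theorem t558_A00pm_123_s3 : ∃ t, chk3 f_A00pm_123_s3 t 32751 1005 1 = true := ex3_b k309_A00pm_123_s3 k310_A00pm_123_s3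

theorem t559_A00pm_123_s3 : ∃ t, chk3 f_A00pm_123_s3 t 16375 1005 1 = true := ex3_a k308_A00pm_123_s3 t558_A00pm_123_s3

theorem t560_A00pm_123_s3 : ∃ t, chk3 f_A00pm_123_s3 t 32751 1004 1 = true := ex3_a k306_A00pm_123_s3 k307_A00pm_123_s3

theorem t561_A00pm_123_s3 : ∃ t, chk3 f_A00pm_123_s3 t 32750 1004 1 = true := ex3_b k304_A00pm_123_s3 k305_A00pm_123_s3

theorem t562_A00pm_123_s3 : ∃ t, chk3 f_A00pm_123_s3 t 16375 1004 1 = true := ex3_a t561_A00pm_123_s3 t560_A00pm_123_s3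

theorem t563_A00pm_123_s3 : ∃ t, chk3 f_A00pm_123_s3 t 16375 502 1 = true := ex3_b t562_A00pm_123_s3 t559_A00pm_123_s3

theorem t564_A00pm_123_s3 : ∃ t, chk3 f_A00pm_123_s3 t 16374 1005 1 = true := ex3_a k302_A00pm_123_s3 k303_A00pm_123_s3

theorem t565_A00pm_123_s3 : ∃ t, chk3 f_A00pm_123_s3 t 16374 1004 1 = true := ex3_b k300_A00pm_123_s3 k301_A00pm_123_s3

theorem t566_A00pm_123_s3 : ∃ t, chk3 f_A00pm_123_s3 t 16374 502 1 = true := ex3_b t565_A00pm_123_s3 t564_A00pm_123_s3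

theorem t567_A00pm_123_s3 : ∃ t, chk3 f_A00pm_123_s3 t 8187 502 1 = true := ex3_a t566_A00pm_123_s3 t563_A00pm_123_s3

theorem t568_A00pm_123_s3 : ∃ t, chk3 f_A00pm_123_s3 t 8186 1005 1 = true := ex3_a k298_A00pm_123_s3 k299_A00pm_123_s3

theorem t569_A00pm_123_s3 : ∃ t, chk3 f_A00pm_123_s3 t 16373 1004 1 = true := ex3_a k296_A00pm_123_s3 k297_A00pm_123_s3

theorem t570_A00pm_123_s3 : ∃ t, chk3 f_A00pm_123_s3 t 8186 1004 1 = true := ex3_a k295_A00pm_123_s3 t569_A00pm_123_s3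

theorem t571_A00pm_123_s3 : ∃ t, chk3 f_A00pm_123_s3 t 8186 502 1 = true := ex3_b t570_A00pm_123_s3 t568_A00pm_123_s3

theorem t572_A00pm_123_s3 : ∃ t, chk3 f_A00pm_123_s3 t 4093 502 1 = true := ex3_a t571_A00pm_123_s3 t567_A00pm_123_s3

theorem t573_A00pm_123_s3 : ∃ t, chk3 f_A00pm_123_s3 t 4093 251 1 = true := ex3_b t572_A00pm_123_s3 t557_A00pm_123_s3

theorem t574_A00pm_123_s3 : ∃ t, chk3 f_A00pm_123_s3 t 16375 1003 1 = true := ex3_b k293_A00pm_123_s3 k294_A00pm_123_s3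

theorem t575_A00pm_123_s3 : ∃ t, chk3 f_A00pm_123_s3 t 16375 501 1 = true := ex3_b k292_A00pm_123_s3 t574_A00pm_123_s3

theorem t576_A00pm_123_s3 : ∃ t, chk3 f_A00pm_123_s3 t 16374 1003 1 = true := ex3_a k290_A00pm_123_s3 k291_A00pm_123_s3

theorem t577_A00pm_123_s3 : ∃ t, chk3 f_A00pm_123_s3 t 16374 1002 1 = true := ex3_a k288_A00pm_123_s3 k289_A00pm_123_s3

theorem t578_A00pm_123_s3 : ∃ t, chk3 f_A00pm_123_s3 t 16374 501 1 = true := ex3_b t577_A00pm_123_s3 t576_A00pm_123_s3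

theorem t579_A00pm_123_s3 : ∃ t, chk3 f_A00pm_123_s3 t 8187 501 1 = true := ex3_a t578_A00pm_123_s3 t575_A00pm_123_s3

theorem t580_A00pm_123_s3 : ∃ t, chk3 f_A00pm_123_s3 t 8187 250 1 = true := ex3_b k287_A00pm_123_s3 t579_A00pm_123_s3

theorem t581_A00pm_123_s3 : ∃ t, chk3 f_A00pm_123_s3 t 16373 501 1 = true := ex3_b k285_A00pm_123_s3 k286_A00pm_123_s3

theorem t582_A00pm_123_s3 : ∃ t, chk3 f_A00pm_123_s3 t 16372 501 1 = true := ex3_b k283_A00pm_123_s3 k284_A00pm_123_s3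

theorem t583_A00pm_123_s3 : ∃ t, chk3 f_A00pm_123_s3 t 8186 501 1 = true := ex3_a t582_A00pm_123_s3 t581_A00pm_123_s3

theorem t584_A00pm_123_s3 : ∃ t, chk3 f_A00pm_123_s3 t 16372 500 1 = true := ex3_b k280_A00pm_123_s3 k281_A00pm_123_s3

theorem t585_A00pm_123_s3 : ∃ t, chk3 f_A00pm_123_s3 t 8186 500 1 = true := ex3_a t584_A00pm_123_s3 k282_A00pm_123_s3

theorem t586_A00pm_123_s3 : ∃ t, chk3 f_A00pm_123_s3 t 8186 250 1 = true := ex3_b t585_A00pm_123_s3 t583_A00pm_123_s3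

theorem t587_A00pm_123_s3 : ∃ t, chk3 f_A00pm_123_s3 t 4093 250 1 = true := ex3_a t586_A00pm_123_s3 t580_A00pm_123_s3

theorem t588_A00pm_123_s3 : ∃ t, chk3 f_A00pm_123_s3 t 4093 125 1 = true := ex3_b t587_A00pm_123_s3 t573_A00pm_123_s3

theorem t589_A00pm_123_s3 : ∃ t, chk3 f_A00pm_123_s3 t 65487 4028 1 = true := ex3_a k276_A00pm_123_s3 k277_A00pm_123_s3

theorem t590_A00pm_123_s3 : ∃ t, chk3 f_A00pm_123_s3 t 32743 4028 1 = true := ex3_a k275_A00pm_123_s3 t589_A00pm_123_s3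

theorem t591_A00pm_123_s3 : ∃ t, chk3 f_A00pm_123_s3 t 32743 2014 1 = true := ex3_b t590_A00pm_123_s3 k278_A00pm_123_s3

theorem t592_A00pm_123_s3 : ∃ t, chk3 f_A00pm_123_s3 t 16371 2014 1 = true := ex3_a k274_A00pm_123_s3 t591_A00pm_123_s3

theorem t593_A00pm_123_s3 : ∃ t, chk3 f_A00pm_123_s3 t 16371 1007 1 = true := ex3_b t592_A00pm_123_s3 k279_A00pm_123_s3

theorem t594_A00pm_123_s3 : ∃ t, chk3 f_A00pm_123_s3 t 8185 1007 1 = true := ex3_a k273_A00pm_123_s3 t593_A00pm_123_s3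

theorem t595_A00pm_123_s3 : ∃ t, chk3 f_A00pm_123_s3 t 65486 8055 1 = true := ex3_a k270_A00pm_123_s3 k271_A00pm_123_s3

theorem t596_A00pm_123_s3 : ∃ t, chk3 f_A00pm_123_s3 t 65486 4027 1 = true := ex3_b k269_A00pm_123_s3 t595_A00pm_123_s3

theorem t597_A00pm_123_s3 : ∃ t, chk3 f_A00pm_123_s3 t 65486 2013 1 = true := ex3_b k268_A00pm_123_s3 t596_A00pm_123_s3

theorem t598_A00pm_123_s3 : ∃ t, chk3 f_A00pm_123_s3 t 65486 1006 1 = true := ex3_b k267_A00pm_123_s3 t597_A00pm_123_s3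

theorem t599_A00pm_123_s3 : ∃ t, chk3 f_A00pm_123_s3 t 32743 1006 1 = true := ex3_a t598_A00pm_123_s3 k272_A00pm_123_s3

theorem t600_A00pm_123_s3 : ∃ t, chk3 f_A00pm_123_s3 t 65485 8054 1 = true := ex3_a k264_A00pm_123_s3 k265_A00pm_123_s3

theorem t601_A00pm_123_s3 : ∃ t, chk3 f_A00pm_123_s3 t 32742 8054 1 = true := ex3_a k263_A00pm_123_s3 t600_A00pm_123_s3

theorem t602_A00pm_123_s3 : ∃ t, chk3 f_A00pm_123_s3 t 32742 4027 1 = true := ex3_b t601_A00pm_123_s3 k266_A00pm_123_s3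

theorem t603_A00pm_123_s3 : ∃ t, chk3 f_A00pm_123_s3 t 65484 4026 1 = true := ex3_b k260_A00pm_123_s3 k261_A00pm_123_s3

theorem t604_A00pm_123_s3 : ∃ t, chk3 f_A00pm_123_s3 t 32742 4026 1 = true := ex3_a t603_A00pm_123_s3 k262_A00pm_123_s3

theorem t605_A00pm_123_s3 : ∃ t, chk3 f_A00pm_123_s3 t 32742 2013 1 = true := ex3_b t604_A00pm_123_s3 t602_A00pm_123_s3

theorem t606_A00pm_123_s3 : ∃ t, chk3 f_A00pm_123_s3 t 32742 1006 1 = true := ex3_b k259_A00pm_123_s3 t605_A00pm_123_s3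

theorem t607_A00pm_123_s3 : ∃ t, chk3 f_A00pm_123_s3 t 16371 1006 1 = true := ex3_a t606_A00pm_123_s3 t599_A00pm_123_s3

theorem t608_A00pm_123_s3 : ∃ t, chk3 f_A00pm_123_s3 t 65483 8051 1 = true := ex3_a k256_A00pm_123_s3 k257_A00pm_123_s3

theorem t609_A00pm_123_s3 : ∃ t, chk3 f_A00pm_123_s3 t 65483 4025 1 = true := ex3_b k255_A00pm_123_s3 t608_A00pm_123_s3

theorem t610_A00pm_123_s3 : ∃ t, chk3 f_A00pm_123_s3 t 32741 4025 1 = true := ex3_a k254_A00pm_123_s3 t609_A00pm_123_s3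

theorem t611_A00pm_123_s3 : ∃ t, chk3 f_A00pm_123_s3 t 32741 2012 1 = true := ex3_b k253_A00pm_123_s3 t610_A00pm_123_s3

theorem t612_A00pm_123_s3 : ∃ t, chk3 f_A00pm_123_s3 t 65481 4024 1 = true := ex3_b k250_A00pm_123_s3 k251_A00pm_123_s3

theorem t613_A00pm_123_s3 : ∃ t, chk3 f_A00pm_123_s3 t 32740 4024 1 = true := ex3_a k249_A00pm_123_s3 t612_A00pm_123_s3

theorem t614_A00pm_123_s3 : ∃ t, chk3 f_A00pm_123_s3 t 32740 2012 1 = true := ex3_b t613_A00pm_123_s3 k252_A00pm_123_s3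

theorem t615_A00pm_123_s3 : ∃ t, chk3 f_A00pm_123_s3 t 16370 2012 1 = true := ex3_a t614_A00pm_123_s3 t611_A00pm_123_s3

theorem t616_A00pm_123_s3 : ∃ t, chk3 f_A00pm_123_s3 t 16370 1006 1 = true := ex3_b t615_A00pm_123_s3 k258_A00pm_123_s3

theorem t617_A00pm_123_s3 : ∃ t, chk3 f_A00pm_123_s3 t 8185 1006 1 = true := ex3_a t616_A00pm_123_s3 t607_A00pm_123_s3

theorem t618_A00pm_123_s3 : ∃ t, chk3 f_A00pm_123_s3 t 8185 503 1 = true := ex3_b t617_A00pm_123_s3 t594_A00pm_123_s3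

theorem t619_A00pm_123_s3 : ∃ t, chk3 f_A00pm_123_s3 t 4092 503 1 = true := ex3_a k248_A00pm_123_s3 t618_A00pm_123_s3

theorem t620_A00pm_123_s3 : ∃ t, chk3 f_A00pm_123_s3 t 16370 1005 1 = true := ex3_b k245_A00pm_123_s3 k246_A00pm_123_s3

theorem t621_A00pm_123_s3 : ∃ t, chk3 f_A00pm_123_s3 t 8185 1005 1 = true := ex3_a t620_A00pm_123_s3 k247_A00pm_123_s3

theorem t622_A00pm_123_s3 : ∃ t, chk3 f_A00pm_123_s3 t 8185 502 1 = true := ex3_b k244_A00pm_123_s3 t621_A00pm_123_s3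

theorem t623_A00pm_123_s3 : ∃ t, chk3 f_A00pm_123_s3 t 65478 4022 1 = true := ex3_b k240_A00pm_123_s3 k241_A00pm_123_s3

theorem t624_A00pm_123_s3 : ∃ t, chk3 f_A00pm_123_s3 t 32739 4022 1 = true := ex3_a t623_A00pm_123_s3 k242_A00pm_123_s3

theorem t625_A00pm_123_s3 : ∃ t, chk3 f_A00pm_123_s3 t 32739 2011 1 = true := ex3_b t624_A00pm_123_s3 k243_A00pm_123_s3

theorem t626_A00pm_123_s3 : ∃ t, chk3 f_A00pm_123_s3 t 16369 2011 1 = true := ex3_a k239_A00pm_123_s3 t625_A00pm_123_s3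

theorem t627_A00pm_123_s3 : ∃ t, chk3 f_A00pm_123_s3 t 32738 4021 1 = true := ex3_a k236_A00pm_123_s3 k237_A00pm_123_s3

theorem t628_A00pm_123_s3 : ∃ t, chk3 f_A00pm_123_s3 t 32738 2010 1 = true := ex3_b k235_A00pm_123_s3 t627_A00pm_123_s3

theorem t629_A00pm_123_s3 : ∃ t, chk3 f_A00pm_123_s3 t 16369 2010 1 = true := ex3_a t628_A00pm_123_s3 k238_A00pm_123_s3

theorem t630_A00pm_123_s3 : ∃ t, chk3 f_A00pm_123_s3 t 16369 1005 1 = true := ex3_b t629_A00pm_123_s3 t626_A00pm_123_s3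

theorem t631_A00pm_123_s3 : ∃ t, chk3 f_A00pm_123_s3 t 32737 4020 1 = true := ex3_a k231_A00pm_123_s3 k232_A00pm_123_s3

theorem t632_A00pm_123_s3 : ∃ t, chk3 f_A00pm_123_s3 t 16368 4020 1 = true := ex3_a k230_A00pm_123_s3 t631_A00pm_123_s3

theorem t633_A00pm_123_s3 : ∃ t, chk3 f_A00pm_123_s3 t 16368 2010 1 = true := ex3_b t632_A00pm_123_s3 k233_A00pm_123_s3

theorem t634_A00pm_123_s3 : ∃ t, chk3 f_A00pm_123_s3 t 16368 1005 1 = true := ex3_b t633_A00pm_123_s3 k234_A00pm_123_s3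

theorem t635_A00pm_123_s3 : ∃ t, chk3 f_A00pm_123_s3 t 8184 1005 1 = true := ex3_a t634_A00pm_123_s3 t630_A00pm_123_s3

theorem t636_A00pm_123_s3 : ∃ t, chk3 f_A00pm_123_s3 t 32736 4019 1 = true := ex3_a k226_A00pm_123_s3 k227_A00pm_123_s3

theorem t637_A00pm_123_s3 : ∃ t, chk3 f_A00pm_123_s3 t 32736 2009 1 = true := ex3_b k225_A00pm_123_s3 t636_A00pm_123_s3

theorem t638_A00pm_123_s3 : ∃ t, chk3 f_A00pm_123_s3 t 32736 1004 1 = true := ex3_b k224_A00pm_123_s3 t637_A00pm_123_s3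

theorem t639_A00pm_123_s3 : ∃ t, chk3 f_A00pm_123_s3 t 16368 1004 1 = true := ex3_a t638_A00pm_123_s3 k228_A00pm_123_s3

theorem t640_A00pm_123_s3 : ∃ t, chk3 f_A00pm_123_s3 t 8184 1004 1 = true := ex3_a t639_A00pm_123_s3 k229_A00pm_123_s3

theorem t641_A00pm_123_s3 : ∃ t, chk3 f_A00pm_123_s3 t 8184 502 1 = true := ex3_b t640_A00pm_123_s3 t635_A00pm_123_s3

theorem t642_A00pm_123_s3 : ∃ t, chk3 f_A00pm_123_s3 t 4092 502 1 = true := ex3_a t641_A00pm_123_s3 t622_A00pm_123_s3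

theorem t643_A00pm_123_s3 : ∃ t, chk3 f_A00pm_123_s3 t 4092 251 1 = true := ex3_b t642_A00pm_123_s3 t619_A00pm_123_s3

theorem t644_A00pm_123_s3 : ∃ t, chk3 f_A00pm_123_s3 t 8185 501 1 = true := ex3_b k222_A00pm_123_s3 k223_A00pm_123_s3

theorem t645_A00pm_123_s3 : ∃ t, chk3 f_A00pm_123_s3 t 8185 500 1 = true := ex3_b k220_A00pm_123_s3 k221_A00pm_123_s3

theorem t646_A00pm_123_s3 : ∃ t, chk3 f_A00pm_123_s3 t 8185 250 1 = true := ex3_b t645_A00pm_123_s3 t644_A00pm_123_s3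

theorem t647_A00pm_123_s3 : ∃ t, chk3 f_A00pm_123_s3 t 8184 501 1 = true := ex3_b k218_A00pm_123_s3 k219_A00pm_123_s3

theorem t648_A00pm_123_s3 : ∃ t, chk3 f_A00pm_123_s3 t 8184 500 1 = true := ex3_a k216_A00pm_123_s3 k217_A00pm_123_s3

theorem t649_A00pm_123_s3 : ∃ t, chk3 f_A00pm_123_s3 t 8184 250 1 = true := ex3_b t648_A00pm_123_s3 t647_A00pm_123_s3

theorem t650_A00pm_123_s3 : ∃ t, chk3 f_A00pm_123_s3 t 4092 250 1 = true := ex3_a t649_A00pm_123_s3 t646_A00pm_123_s3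

theorem t651_A00pm_123_s3 : ∃ t, chk3 f_A00pm_123_s3 t 4092 125 1 = true := ex3_b t650_A00pm_123_s3 t643_A00pm_123_s3

theorem t652_A00pm_123_s3 : ∃ t, chk3 f_A00pm_123_s3 t 2046 125 1 = true := ex3_a t651_A00pm_123_s3 t588_A00pm_123_s3

theorem t653_A00pm_123_s3 : ∃ t, chk3 f_A00pm_123_s3 t 8185 499 1 = true := ex3_a k213_A00pm_123_s3 k214_A00pm_123_s3

theorem t654_A00pm_123_s3 : ∃ t, chk3 f_A00pm_123_s3 t 8185 249 1 = true := ex3_b k212_A00pm_123_s3 t653_A00pm_123_s3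

theorem t655_A00pm_123_s3 : ∃ t, chk3 f_A00pm_123_s3 t 8184 499 1 = true := ex3_a k210_A00pm_123_s3 k211_A00pm_123_s3

theorem t656_A00pm_123_s3 : ∃ t, chk3 f_A00pm_123_s3 t 8184 997 1 = true := ex3_a k208_A00pm_123_s3 k209_A00pm_123_s3

theorem t657_A00pm_123_s3 : ∃ t, chk3 f_A00pm_123_s3 t 8184 498 1 = true := ex3_b k207_A00pm_123_s3 t656_A00pm_123_s3

theorem t658_A00pm_123_s3 : ∃ t, chk3 f_A00pm_123_s3 t 8184 249 1 = true := ex3_b t657_A00pm_123_s3 t655_A00pm_123_s3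

theorem t659_A00pm_123_s3 : ∃ t, chk3 f_A00pm_123_s3 t 4092 249 1 = true := ex3_a t658_A00pm_123_s3 t654_A00pm_123_s3

theorem t660_A00pm_123_s3 : ∃ t, chk3 f_A00pm_123_s3 t 4092 124 1 = true := ex3_b k206_A00pm_123_s3 t659_A00pm_123_s3

theorem t661_A00pm_123_s3 : ∃ t, chk3 f_A00pm_123_s3 t 2046 124 1 = true := ex3_a t660_A00pm_123_s3 k215_A00pm_123_s3

theorem t662_A00pm_123_s3 : ∃ t, chk3 f_A00pm_123_s3 t 2046 62 1 = true := ex3_b t661_A00pm_123_s3 t652_A00pm_123_s3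

theorem t663_A00pm_123_s3 : ∃ t, chk3 f_A00pm_123_s3 t 2046 31 1 = true := ex3_b t662_A00pm_123_s3 t532_A00pm_123_s3

theorem t664_A00pm_123_s3 : ∃ t, chk3 f_A00pm_123_s3 t 1023 31 1 = true := ex3_a t663_A00pm_123_s3 t436_A00pm_123_s3

theorem t665_A00pm_123_s3 : ∃ t, chk3 f_A00pm_123_s3 t 2045 1023 3 = true := ex3_a k204_A00pm_123_s3 k205_A00pm_123_s3

theorem t666_A00pm_123_s3 : ∃ t, chk3 f_A00pm_123_s3 t 2045 1023 1 = true := ex3_c k203_A00pm_123_s3 t665_A00pm_123_s3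

theorem t667_A00pm_123_s3 : ∃ t, chk3 f_A00pm_123_s3 t 2045 2045 1 = true := ex3_a k201_A00pm_123_s3 k202_A00pm_123_s3

theorem t668_A00pm_123_s3 : ∃ t, chk3 f_A00pm_123_s3 t 2045 1022 1 = true := ex3_b k200_A00pm_123_s3 t667_A00pm_123_s3

theorem t669_A00pm_123_s3 : ∃ t, chk3 f_A00pm_123_s3 t 2045 511 1 = true := ex3_b t668_A00pm_123_s3 t666_A00pm_123_s3

theorem t670_A00pm_123_s3 : ∃ t, chk3 f_A00pm_123_s3 t 2045 255 1 = true := ex3_b k199_A00pm_123_s3 t669_A00pm_123_s3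

theorem t671_A00pm_123_s3 : ∃ t, chk3 f_A00pm_123_s3 t 1022 255 1 = true := ex3_a k198_A00pm_123_s3 t670_A00pm_123_s3

theorem t672_A00pm_123_s3 : ∃ t, chk3 f_A00pm_123_s3 t 1022 127 1 = true := ex3_b k197_A00pm_123_s3 t671_A00pm_123_s3

theorem t673_A00pm_123_s3 : ∃ t, chk3 f_A00pm_123_s3 t 2045 126 1 = true := ex3_b k195_A00pm_123_s3 k196_A00pm_123_s3

theorem t674_A00pm_123_s3 : ∃ t, chk3 f_A00pm_123_s3 t 2044 126 1 = true := ex3_b k193_A00pm_123_s3 k194_A00pm_123_s3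

theorem t675_A00pm_123_s3 : ∃ t, chk3 f_A00pm_123_s3 t 1022 126 1 = true := ex3_a t674_A00pm_123_s3 t673_A00pm_123_s3

theorem t676_A00pm_123_s3 : ∃ t, chk3 f_A00pm_123_s3 t 1022 63 1 = true := ex3_b t675_A00pm_123_s3 t672_A00pm_123_s3

theorem t677_A00pm_123_s3 : ∃ t, chk3 f_A00pm_123_s3 t 32735 2008 1 = true := ex3_b k188_A00pm_123_s3 k189_A00pm_123_s3

theorem t678_A00pm_123_s3 : ∃ t, chk3 f_A00pm_123_s3 t 32734 4016 1 = true := ex3_a k185_A00pm_123_s3 k186_A00pm_123_s3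

theorem t679_A00pm_123_s3 : ∃ t, chk3 f_A00pm_123_s3 t 32734 2008 1 = true := ex3_b t678_A00pm_123_s3 k187_A00pm_123_s3

theorem t680_A00pm_123_s3 : ∃ t, chk3 f_A00pm_123_s3 t 16367 2008 1 = true := ex3_a t679_A00pm_123_s3 t677_A00pm_123_s3

theorem t681_A00pm_123_s3 : ∃ t, chk3 f_A00pm_123_s3 t 16367 1004 1 = true := ex3_b t680_A00pm_123_s3 k190_A00pm_123_s3

theorem t682_A00pm_123_s3 : ∃ t, chk3 f_A00pm_123_s3 t 8183 1004 1 = true := ex3_a k184_A00pm_123_s3 t681_A00pm_123_s3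

theorem t683_A00pm_123_s3 : ∃ t, chk3 f_A00pm_123_s3 t 8183 502 1 = true := ex3_b t682_A00pm_123_s3 k191_A00pm_123_s3

theorem t684_A00pm_123_s3 : ∃ t, chk3 f_A00pm_123_s3 t 4091 502 1 = true := ex3_a k183_A00pm_123_s3 t683_A00pm_123_s3

theorem t685_A00pm_123_s3 : ∃ t, chk3 f_A00pm_123_s3 t 4091 251 1 = true := ex3_b t684_A00pm_123_s3 k192_A00pm_123_s3

theorem t686_A00pm_123_s3 : ∃ t, chk3 f_A00pm_123_s3 t 2045 251 1 = true := ex3_a k182_A00pm_123_s3 t685_A00pm_123_s3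

theorem t687_A00pm_123_s3 : ∃ t, chk3 f_A00pm_123_s3 t 32733 2007 1 = true := ex3_a k179_A00pm_123_s3 k180_A00pm_123_s3

theorem t688_A00pm_123_s3 : ∃ t, chk3 f_A00pm_123_s3 t 32732 4014 1 = true := ex3_a k176_A00pm_123_s3 k177_A00pm_123_s3

theorem t689_A00pm_123_s3 : ∃ t, chk3 f_A00pm_123_s3 t 32732 2007 1 = true := ex3_b t688_A00pm_123_s3 k178_A00pm_123_s3

theorem t690_A00pm_123_s3 : ∃ t, chk3 f_A00pm_123_s3 t 16366 2007 1 = true := ex3_a t689_A00pm_123_s3 t687_A00pm_123_s3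

theorem t691_A00pm_123_s3 : ∃ t, chk3 f_A00pm_123_s3 t 8183 2007 1 = true := ex3_a t690_A00pm_123_s3 k181_A00pm_123_s3

theorem t692_A00pm_123_s3 : ∃ t, chk3 f_A00pm_123_s3 t 8183 1003 1 = true := ex3_b k175_A00pm_123_s3 t691_A00pm_123_s3

theorem t693_A00pm_123_s3 : ∃ t, chk3 f_A00pm_123_s3 t 8183 501 1 = true := ex3_b k174_A00pm_123_s3 t692_A00pm_123_s3

theorem t694_A00pm_123_s3 : ∃ t, chk3 f_A00pm_123_s3 t 8183 500 1 = true := ex3_a k172_A00pm_123_s3 k173_A00pm_123_s3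

theorem t695_A00pm_123_s3 : ∃ t, chk3 f_A00pm_123_s3 t 8183 250 1 = true := ex3_b t694_A00pm_123_s3 t693_A00pm_123_s3

theorem t696_A00pm_123_s3 : ∃ t, chk3 f_A00pm_123_s3 t 32731 2006 1 = true := ex3_b k169_A00pm_123_s3 k170_A00pm_123_s3

theorem t697_A00pm_123_s3 : ∃ t, chk3 f_A00pm_123_s3 t 16365 2006 1 = true := ex3_a k168_A00pm_123_s3 t696_A00pm_123_s3

theorem t698_A00pm_123_s3 : ∃ t, chk3 f_A00pm_123_s3 t 16365 1003 1 = true := ex3_b t697_A00pm_123_s3 k171_A00pm_123_s3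

theorem t699_A00pm_123_s3 : ∃ t, chk3 f_A00pm_123_s3 t 8182 1003 1 = true := ex3_a k167_A00pm_123_s3 t698_A00pm_123_s3

theorem t700_A00pm_123_s3 : ∃ t, chk3 f_A00pm_123_s3 t 32729 2005 1 = true := ex3_b k164_A00pm_123_s3 k165_A00pm_123_s3

theorem t701_A00pm_123_s3 : ∃ t, chk3 f_A00pm_123_s3 t 16364 2005 1 = true := ex3_a k163_A00pm_123_s3 t700_A00pm_123_s3

theorem t702_A00pm_123_s3 : ∃ t, chk3 f_A00pm_123_s3 t 16364 1002 1 = true := ex3_b k162_A00pm_123_s3 t701_A00pm_123_s3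

theorem t703_A00pm_123_s3 : ∃ t, chk3 f_A00pm_123_s3 t 8182 1002 1 = true := ex3_a t702_A00pm_123_s3 k166_A00pm_123_s3

theorem t704_A00pm_123_s3 : ∃ t, chk3 f_A00pm_123_s3 t 8182 501 1 = true := ex3_b t703_A00pm_123_s3 t699_A00pm_123_s3

theorem t705_A00pm_123_s3 : ∃ t, chk3 f_A00pm_123_s3 t 8182 250 1 = true := ex3_b k161_A00pm_123_s3 t704_A00pm_123_s3

theorem t706_A00pm_123_s3 : ∃ t, chk3 f_A00pm_123_s3 t 4091 250 1 = true := ex3_a t705_A00pm_123_s3 t695_A00pm_123_s3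

theorem t707_A00pm_123_s3 : ∃ t, chk3 f_A00pm_123_s3 t 32727 2004 1 = true := ex3_b k157_A00pm_123_s3 k158_A00pm_123_s3

theorem t708_A00pm_123_s3 : ∃ t, chk3 f_A00pm_123_s3 t 16363 2004 1 = true := ex3_a k156_A00pm_123_s3 t707_A00pm_123_s3

theorem t709_A00pm_123_s3 : ∃ t, chk3 f_A00pm_123_s3 t 16363 1002 1 = true := ex3_b t708_A00pm_123_s3 k159_A00pm_123_s3

theorem t710_A00pm_123_s3 : ∃ t, chk3 f_A00pm_123_s3 t 16363 501 1 = true := ex3_b t709_A00pm_123_s3 k160_A00pm_123_s3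

theorem t711_A00pm_123_s3 : ∃ t, chk3 f_A00pm_123_s3 t 8181 501 1 = true := ex3_a k155_A00pm_123_s3 t710_A00pm_123_s3

theorem t712_A00pm_123_s3 : ∃ t, chk3 f_A00pm_123_s3 t 4090 501 1 = true := ex3_a k154_A00pm_123_s3 t711_A00pm_123_s3

theorem t713_A00pm_123_s3 : ∃ t, chk3 f_A00pm_123_s3 t 16362 2003 1 = true := ex3_a k151_A00pm_123_s3 k152_A00pm_123_s3

theorem t714_A00pm_123_s3 : ∃ t, chk3 f_A00pm_123_s3 t 16362 1001 1 = true := ex3_b k150_A00pm_123_s3 t713_A00pm_123_s3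

theorem t715_A00pm_123_s3 : ∃ t, chk3 f_A00pm_123_s3 t 8181 1001 1 = true := ex3_a t714_A00pm_123_s3 k153_A00pm_123_s3

theorem t716_A00pm_123_s3 : ∃ t, chk3 f_A00pm_123_s3 t 8181 500 1 = true := ex3_b k149_A00pm_123_s3 t715_A00pm_123_s3

theorem t717_A00pm_123_s3 : ∃ t, chk3 f_A00pm_123_s3 t 16360 1000 1 = true := ex3_b k145_A00pm_123_s3 k146_A00pm_123_s3

theorem t718_A00pm_123_s3 : ∃ t, chk3 f_A00pm_123_s3 t 8180 1000 1 = true := ex3_a t717_A00pm_123_s3 k147_A00pm_123_s3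

theorem t719_A00pm_123_s3 : ∃ t, chk3 f_A00pm_123_s3 t 8180 500 1 = true := ex3_b t718_A00pm_123_s3 k148_A00pm_123_s3

theorem t720_A00pm_123_s3 : ∃ t, chk3 f_A00pm_123_s3 t 4090 500 1 = true := ex3_a t719_A00pm_123_s3 t716_A00pm_123_s3

theorem t721_A00pm_123_s3 : ∃ t, chk3 f_A00pm_123_s3 t 4090 250 1 = true := ex3_b t720_A00pm_123_s3 t712_A00pm_123_s3

theorem t722_A00pm_123_s3 : ∃ t, chk3 f_A00pm_123_s3 t 2045 250 1 = true := ex3_a t721_A00pm_123_s3 t706_A00pm_123_s3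

theorem t723_A00pm_123_s3 : ∃ t, chk3 f_A00pm_123_s3 t 2045 125 1 = true := ex3_b t722_A00pm_123_s3 t686_A00pm_123_s3

theorem t724_A00pm_123_s3 : ∃ t, chk3 f_A00pm_123_s3 t 4089 250 1 = true := ex3_b k142_A00pm_123_s3 k143_A00pm_123_s3

theorem t725_A00pm_123_s3 : ∃ t, chk3 f_A00pm_123_s3 t 4089 125 1 = true := ex3_b t724_A00pm_123_s3 k144_A00pm_123_s3

theorem t726_A00pm_123_s3 : ∃ t, chk3 f_A00pm_123_s3 t 2044 125 1 = true := ex3_a k141_A00pm_123_s3 t725_A00pm_123_s3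

theorem t727_A00pm_123_s3 : ∃ t, chk3 f_A00pm_123_s3 t 1022 125 1 = true := ex3_a t726_A00pm_123_s3 t723_A00pm_123_s3

theorem t728_A00pm_123_s3 : ∃ t, chk3 f_A00pm_123_s3 t 8183 249 1 = true := ex3_b k139_A00pm_123_s3 k140_A00pm_123_s3

theorem t729_A00pm_123_s3 : ∃ t, chk3 f_A00pm_123_s3 t 8182 249 1 = true := ex3_b k137_A00pm_123_s3 k138_A00pm_123_s3

theorem t730_A00pm_123_s3 : ∃ t, chk3 f_A00pm_123_s3 t 4091 249 1 = true := ex3_a t729_A00pm_123_s3 t728_A00pm_123_s3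

theorem t731_A00pm_123_s3 : ∃ t, chk3 f_A00pm_123_s3 t 4090 249 1 = true := ex3_b k135_A00pm_123_s3 k136_A00pm_123_s3

theorem t732_A00pm_123_s3 : ∃ t, chk3 f_A00pm_123_s3 t 2045 249 1 = true := ex3_a t731_A00pm_123_s3 t730_A00pm_123_s3

theorem t733_A00pm_123_s3 : ∃ t, chk3 f_A00pm_123_s3 t 8182 248 1 = true := ex3_b k132_A00pm_123_s3 k133_A00pm_123_s3

theorem t734_A00pm_123_s3 : ∃ t, chk3 f_A00pm_123_s3 t 4091 248 1 = true := ex3_a t733_A00pm_123_s3 k134_A00pm_123_s3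

theorem t735_A00pm_123_s3 : ∃ t, chk3 f_A00pm_123_s3 t 4090 248 1 = true := ex3_b k130_A00pm_123_s3 k131_A00pm_123_s3

theorem t736_A00pm_123_s3 : ∃ t, chk3 f_A00pm_123_s3 t 2045 248 1 = true := ex3_a t735_A00pm_123_s3 t734_A00pm_123_s3

theorem t737_A00pm_123_s3 : ∃ t, chk3 f_A00pm_123_s3 t 2045 124 1 = true := ex3_b t736_A00pm_123_s3 t732_A00pm_123_s3

theorem t738_A00pm_123_s3 : ∃ t, chk3 f_A00pm_123_s3 t 16358 999 1 = true := ex3_b k127_A00pm_123_s3 k128_A00pm_123_s3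

theorem t739_A00pm_123_s3 : ∃ t, chk3 f_A00pm_123_s3 t 8179 999 1 = true := ex3_a t738_A00pm_123_s3 k129_A00pm_123_s3

theorem t740_A00pm_123_s3 : ∃ t, chk3 f_A00pm_123_s3 t 8179 499 1 = true := ex3_b k126_A00pm_123_s3 t739_A00pm_123_s3

theorem t741_A00pm_123_s3 : ∃ t, chk3 f_A00pm_123_s3 t 8178 1997 1 = true := ex3_a k123_A00pm_123_s3 k124_A00pm_123_s3

theorem t742_A00pm_123_s3 : ∃ t, chk3 f_A00pm_123_s3 t 8178 998 1 = true := ex3_b k122_A00pm_123_s3 t741_A00pm_123_s3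

theorem t743_A00pm_123_s3 : ∃ t, chk3 f_A00pm_123_s3 t 8178 499 1 = true := ex3_b t742_A00pm_123_s3 k125_A00pm_123_s3

theorem t744_A00pm_123_s3 : ∃ t, chk3 f_A00pm_123_s3 t 4089 499 1 = true := ex3_a t743_A00pm_123_s3 t740_A00pm_123_s3

theorem t745_A00pm_123_s3 : ∃ t, chk3 f_A00pm_123_s3 t 4089 249 1 = true := ex3_b k121_A00pm_123_s3 t744_A00pm_123_s3

theorem t746_A00pm_123_s3 : ∃ t, chk3 f_A00pm_123_s3 t 4089 124 1 = true := ex3_b k120_A00pm_123_s3 t745_A00pm_123_s3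

theorem t747_A00pm_123_s3 : ∃ t, chk3 f_A00pm_123_s3 t 8176 498 1 = true := ex3_b k116_A00pm_123_s3 k117_A00pm_123_s3

theorem t748_A00pm_123_s3 : ∃ t, chk3 f_A00pm_123_s3 t 4088 498 1 = true := ex3_a t747_A00pm_123_s3 k118_A00pm_123_s3

theorem t749_A00pm_123_s3 : ∃ t, chk3 f_A00pm_123_s3 t 4088 249 1 = true := ex3_b t748_A00pm_123_s3 k119_A00pm_123_s3

theorem t750_A00pm_123_s3 : ∃ t, chk3 f_A00pm_123_s3 t 4088 124 1 = true := ex3_b k115_A00pm_123_s3 t749_A00pm_123_s3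

theorem t751_A00pm_123_s3 : ∃ t, chk3 f_A00pm_123_s3 t 2044 124 1 = true := ex3_a t750_A00pm_123_s3 t746_A00pm_123_s3

theorem t752_A00pm_123_s3 : ∃ t, chk3 f_A00pm_123_s3 t 1022 124 1 = true := ex3_a t751_A00pm_123_s3 t737_A00pm_123_s3

theorem t753_A00pm_123_s3 : ∃ t, chk3 f_A00pm_123_s3 t 1022 62 1 = true := ex3_b t752_A00pm_123_s3 t727_A00pm_123_s3

theorem t754_A00pm_123_s3 : ∃ t, chk3 f_A00pm_123_s3 t 1022 31 1 = true := ex3_b t753_A00pm_123_s3 t676_A00pm_123_s3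

theorem t755_A00pm_123_s3 : ∃ t, chk3 f_A00pm_123_s3 t 511 31 1 = true := ex3_a t754_A00pm_123_s3 t664_A00pm_123_s3

theorem t756_A00pm_123_s3 : ∃ t, chk3 f_A00pm_123_s3 t 510 511 1 = true := ex3_b k113_A00pm_123_s3 k114_A00pm_123_s3

theorem t757_A00pm_123_s3 : ∃ t, chk3 f_A00pm_123_s3 t 510 255 1 = true := ex3_b k112_A00pm_123_s3 t756_A00pm_123_s3

theorem t758_A00pm_123_s3 : ∃ t, chk3 f_A00pm_123_s3 t 510 127 1 = true := ex3_b k111_A00pm_123_s3 t757_A00pm_123_s3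

theorem t759_A00pm_123_s3 : ∃ t, chk3 f_A00pm_123_s3 t 510 252 1 = true := ex3_a k108_A00pm_123_s3 k109_A00pm_123_s3

theorem t760_A00pm_123_s3 : ∃ t, chk3 f_A00pm_123_s3 t 510 126 1 = true := ex3_b t759_A00pm_123_s3 k110_A00pm_123_s3

theorem t761_A00pm_123_s3 : ∃ t, chk3 f_A00pm_123_s3 t 510 63 1 = true := ex3_b t760_A00pm_123_s3 t758_A00pm_123_s3

theorem t762_A00pm_123_s3 : ∃ t, chk3 f_A00pm_123_s3 t 1021 251 1 = true := ex3_b k106_A00pm_123_s3 k107_A00pm_123_s3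

theorem t763_A00pm_123_s3 : ∃ t, chk3 f_A00pm_123_s3 t 1021 125 1 = true := ex3_b k105_A00pm_123_s3 t762_A00pm_123_s3

theorem t764_A00pm_123_s3 : ∃ t, chk3 f_A00pm_123_s3 t 4087 995 1 = true := ex3_a k102_A00pm_123_s3 k103_A00pm_123_s3

theorem t765_A00pm_123_s3 : ∃ t, chk3 f_A00pm_123_s3 t 4087 497 1 = true := ex3_b k101_A00pm_123_s3 t764_A00pm_123_s3

theorem t766_A00pm_123_s3 : ∃ t, chk3 f_A00pm_123_s3 t 4087 248 1 = true := ex3_b k100_A00pm_123_s3 t765_A00pm_123_s3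

theorem t767_A00pm_123_s3 : ∃ t, chk3 f_A00pm_123_s3 t 4086 248 1 = true := ex3_b k98_A00pm_123_s3 k99_A00pm_123_s3

theorem t768_A00pm_123_s3 : ∃ t, chk3 f_A00pm_123_s3 t 2043 248 1 = true := ex3_a t767_A00pm_123_s3 t766_A00pm_123_s3

theorem t769_A00pm_123_s3 : ∃ t, chk3 f_A00pm_123_s3 t 2043 124 1 = true := ex3_b t768_A00pm_123_s3 k104_A00pm_123_s3

theorem t770_A00pm_123_s3 : ∃ t, chk3 f_A00pm_123_s3 t 4085 496 1 = true := ex3_b k94_A00pm_123_s3 k95_A00pm_123_s3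

theorem t771_A00pm_123_s3 : ∃ t, chk3 f_A00pm_123_s3 t 2042 496 1 = true := ex3_a k93_A00pm_123_s3 t770_A00pm_123_s3

theorem t772_A00pm_123_s3 : ∃ t, chk3 f_A00pm_123_s3 t 2042 248 1 = true := ex3_b t771_A00pm_123_s3 k96_A00pm_123_s3

theorem t773_A00pm_123_s3 : ∃ t, chk3 f_A00pm_123_s3 t 2042 124 1 = true := ex3_b t772_A00pm_123_s3 k97_A00pm_123_s3

theorem t774_A00pm_123_s3 : ∃ t, chk3 f_A00pm_123_s3 t 1021 124 1 = true := ex3_a t773_A00pm_123_s3 t769_A00pm_123_s3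

theorem t775_A00pm_123_s3 : ∃ t, chk3 f_A00pm_123_s3 t 1021 62 1 = true := ex3_b t774_A00pm_123_s3 t763_A00pm_123_s3

theorem t776_A00pm_123_s3 : ∃ t, chk3 f_A00pm_123_s3 t 1020 62 1 = true := ex3_b k91_A00pm_123_s3 k92_A00pm_123_s3

theorem t777_A00pm_123_s3 : ∃ t, chk3 f_A00pm_123_s3 t 510 62 1 = true := ex3_a t776_A00pm_123_s3 t775_A00pm_123_s3

theorem t778_A00pm_123_s3 : ∃ t, chk3 f_A00pm_123_s3 t 510 31 1 = true := ex3_b t777_A00pm_123_s3 t761_A00pm_123_s3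

theorem t779_A00pm_123_s3 : ∃ t, chk3 f_A00pm_123_s3 t 255 31 1 = true := ex3_a t778_A00pm_123_s3 t755_A00pm_123_s3

theorem t780_A00pm_123_s3 : ∃ t, chk3 f_A00pm_123_s3 t 254 255 1 = true := ex3_b k89_A00pm_123_s3 k90_A00pm_123_s3

theorem t781_A00pm_123_s3 : ∃ t, chk3 f_A00pm_123_s3 t 254 127 1 = true := ex3_b k88_A00pm_123_s3 t780_A00pm_123_s3

theorem t782_A00pm_123_s3 : ∃ t, chk3 f_A00pm_123_s3 t 254 126 1 = true := ex3_b k86_A00pm_123_s3 k87_A00pm_123_s3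

theorem t783_A00pm_123_s3 : ∃ t, chk3 f_A00pm_123_s3 t 254 63 1 = true := ex3_b t782_A00pm_123_s3 t781_A00pm_123_s3

theorem t784_A00pm_123_s3 : ∃ t, chk3 f_A00pm_123_s3 t 254 62 1 = true := ex3_b k84_A00pm_123_s3 k85_A00pm_123_s3

theorem t785_A00pm_123_s3 : ∃ t, chk3 f_A00pm_123_s3 t 254 31 1 = true := ex3_b t784_A00pm_123_s3 t783_A00pm_123_s3

theorem t786_A00pm_123_s3 : ∃ t, chk3 f_A00pm_123_s3 t 127 31 1 = true := ex3_a t785_A00pm_123_s3 t779_A00pm_123_s3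

theorem t787_A00pm_123_s3 : ∃ t, chk3 f_A00pm_123_s3 t 1015 31 1 = true := ex3_a k82_A00pm_123_s3 k83_A00pm_123_s3

theorem t788_A00pm_123_s3 : ∃ t, chk3 f_A00pm_123_s3 t 507 31 1 = true := ex3_a k81_A00pm_123_s3 t787_A00pm_123_s3

theorem t789_A00pm_123_s3 : ∃ t, chk3 f_A00pm_123_s3 t 253 31 1 = true := ex3_a k80_A00pm_123_s3 t788_A00pm_123_s3

theorem t790_A00pm_123_s3 : ∃ t, chk3 f_A00pm_123_s3 t 126 31 1 = true := ex3_a k79_A00pm_123_s3 t789_A00pm_123_s3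

theorem t791_A00pm_123_s3 : ∃ t, chk3 f_A00pm_123_s3 t 63 31 1 = true := ex3_a t790_A00pm_123_s3 t786_A00pm_123_s3

theorem t792_A00pm_123_s3 : ∃ t, chk3 f_A00pm_123_s3 t 31 31 1 = true := ex3_a k78_A00pm_123_s3 t791_A00pm_123_s3

theorem t793_A00pm_123_s3 : ∃ t, chk3 f_A00pm_123_s3 t 1022 495 1 = true := ex3_a k75_A00pm_123_s3 k76_A00pm_123_s3

theorem t794_A00pm_123_s3 : ∃ t, chk3 f_A00pm_123_s3 t 511 495 1 = true := ex3_a t793_A00pm_123_s3 k77_A00pm_123_s3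

theorem t795_A00pm_123_s3 : ∃ t, chk3 f_A00pm_123_s3 t 511 247 1 = true := ex3_b k74_A00pm_123_s3 t794_A00pm_123_s3

theorem t796_A00pm_123_s3 : ∃ t, chk3 f_A00pm_123_s3 t 511 123 1 = true := ex3_b k73_A00pm_123_s3 t795_A00pm_123_s3

theorem t797_A00pm_123_s3 : ∃ t, chk3 f_A00pm_123_s3 t 511 61 1 = true := ex3_b k72_A00pm_123_s3 t796_A00pm_123_s3

theorem t798_A00pm_123_s3 : ∃ t, chk3 f_A00pm_123_s3 t 511 30 1 = true := ex3_b k71_A00pm_123_s3 t797_A00pm_123_s3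

theorem t799_A00pm_123_s3 : ∃ t, chk3 f_A00pm_123_s3 t 2042 247 1 = true := ex3_a k68_A00pm_123_s3 k69_A00pm_123_s3

theorem t800_A00pm_123_s3 : ∃ t, chk3 f_A00pm_123_s3 t 1021 247 1 = true := ex3_a t799_A00pm_123_s3 k70_A00pm_123_s3

theorem t801_A00pm_123_s3 : ∃ t, chk3 f_A00pm_123_s3 t 1021 123 1 = true := ex3_b k67_A00pm_123_s3 t800_A00pm_123_s3

theorem t802_A00pm_123_s3 : ∃ t, chk3 f_A00pm_123_s3 t 1021 122 1 = true := ex3_a k65_A00pm_123_s3 k66_A00pm_123_s3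

theorem t803_A00pm_123_s3 : ∃ t, chk3 f_A00pm_123_s3 t 1021 61 1 = true := ex3_b t802_A00pm_123_s3 t801_A00pm_123_s3

theorem t804_A00pm_123_s3 : ∃ t, chk3 f_A00pm_123_s3 t 2041 494 1 = true := ex3_a k62_A00pm_123_s3 k63_A00pm_123_s3

theorem t805_A00pm_123_s3 : ∃ t, chk3 f_A00pm_123_s3 t 2041 247 1 = true := ex3_b t804_A00pm_123_s3 k64_A00pm_123_s3

theorem t806_A00pm_123_s3 : ∃ t, chk3 f_A00pm_123_s3 t 1020 247 1 = true := ex3_a k61_A00pm_123_s3 t805_A00pm_123_s3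

theorem t807_A00pm_123_s3 : ∃ t, chk3 f_A00pm_123_s3 t 1020 246 1 = true := ex3_a k59_A00pm_123_s3 k60_A00pm_123_s3

theorem t808_A00pm_123_s3 : ∃ t, chk3 f_A00pm_123_s3 t 1020 123 1 = true := ex3_b t807_A00pm_123_s3 t806_A00pm_123_s3

theorem t809_A00pm_123_s3 : ∃ t, chk3 f_A00pm_123_s3 t 1020 61 1 = true := ex3_b k58_A00pm_123_s3 t808_A00pm_123_s3

theorem t810_A00pm_123_s3 : ∃ t, chk3 f_A00pm_123_s3 t 510 61 1 = true := ex3_a t809_A00pm_123_s3 t803_A00pm_123_s3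

theorem t811_A00pm_123_s3 : ∃ t, chk3 f_A00pm_123_s3 t 1020 243 1 = true := ex3_a k55_A00pm_123_s3 k56_A00pm_123_s3

theorem t812_A00pm_123_s3 : ∃ t, chk3 f_A00pm_123_s3 t 4081 485 1 = true := ex3_b k52_A00pm_123_s3 k53_A00pm_123_s3

theorem t813_A00pm_123_s3 : ∃ t, chk3 f_A00pm_123_s3 t 2040 485 1 = true := ex3_a k51_A00pm_123_s3 t812_A00pm_123_s3

theorem t814_A00pm_123_s3 : ∃ t, chk3 f_A00pm_123_s3 t 2040 242 1 = true := ex3_b k50_A00pm_123_s3 t813_A00pm_123_s3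

theorem t815_A00pm_123_s3 : ∃ t, chk3 f_A00pm_123_s3 t 1020 242 1 = true := ex3_a t814_A00pm_123_s3 k54_A00pm_123_s3

theorem t816_A00pm_123_s3 : ∃ t, chk3 f_A00pm_123_s3 t 1020 121 1 = true := ex3_b t815_A00pm_123_s3 t811_A00pm_123_s3

theorem t817_A00pm_123_s3 : ∃ t, chk3 f_A00pm_123_s3 t 1020 60 1 = true := ex3_b k49_A00pm_123_s3 t816_A00pm_123_s3

theorem t818_A00pm_123_s3 : ∃ t, chk3 f_A00pm_123_s3 t 510 60 1 = true := ex3_a t817_A00pm_123_s3 k57_A00pm_123_s3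

theorem t819_A00pm_123_s3 : ∃ t, chk3 f_A00pm_123_s3 t 510 30 1 = true := ex3_b t818_A00pm_123_s3 t810_A00pm_123_s3

theorem t820_A00pm_123_s3 : ∃ t, chk3 f_A00pm_123_s3 t 255 30 1 = true := ex3_a t819_A00pm_123_s3 t798_A00pm_123_s3

theorem t821_A00pm_123_s3 : ∃ t, chk3 f_A00pm_123_s3 t 1019 122 1 = true := ex3_a k46_A00pm_123_s3 k47_A00pm_123_s3

theorem t822_A00pm_123_s3 : ∃ t, chk3 f_A00pm_123_s3 t 2036 488 1 = true := ex3_a k41_A00pm_123_s3 k42_A00pm_123_s3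

theorem t823_A00pm_123_s3 : ∃ t, chk3 f_A00pm_123_s3 t 2036 244 1 = true := ex3_b t822_A00pm_123_s3 k43_A00pm_123_s3

theorem t824_A00pm_123_s3 : ∃ t, chk3 f_A00pm_123_s3 t 1018 244 1 = true := ex3_a t823_A00pm_123_s3 k44_A00pm_123_s3

theorem t825_A00pm_123_s3 : ∃ t, chk3 f_A00pm_123_s3 t 1018 122 1 = true := ex3_b t824_A00pm_123_s3 k45_A00pm_123_s3

theorem t826_A00pm_123_s3 : ∃ t, chk3 f_A00pm_123_s3 t 509 122 1 = true := ex3_a t825_A00pm_123_s3 t821_A00pm_123_s3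

theorem t827_A00pm_123_s3 : ∃ t, chk3 f_A00pm_123_s3 t 509 61 1 = true := ex3_b t826_A00pm_123_s3 k48_A00pm_123_s3

theorem t828_A00pm_123_s3 : ∃ t, chk3 f_A00pm_123_s3 t 508 61 1 = true := ex3_b k39_A00pm_123_s3 k40_A00pm_123_s3

theorem t829_A00pm_123_s3 : ∃ t, chk3 f_A00pm_123_s3 t 254 61 1 = true := ex3_a t828_A00pm_123_s3 t827_A00pm_123_s3

theorem t830_A00pm_123_s3 : ∃ t, chk3 f_A00pm_123_s3 t 509 121 1 = true := ex3_a k37_A00pm_123_s3 k38_A00pm_123_s3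

theorem t831_A00pm_123_s3 : ∃ t, chk3 f_A00pm_123_s3 t 2038 240 1 = true := ex3_a k33_A00pm_123_s3 k34_A00pm_123_s3

theorem t832_A00pm_123_s3 : ∃ t, chk3 f_A00pm_123_s3 t 2038 120 1 = true := ex3_b t831_A00pm_123_s3 k35_A00pm_123_s3

theorem t833_A00pm_123_s3 : ∃ t, chk3 f_A00pm_123_s3 t 1019 120 1 = true := ex3_a t832_A00pm_123_s3 k36_A00pm_123_s3

theorem t834_A00pm_123_s3 : ∃ t, chk3 f_A00pm_123_s3 t 509 120 1 = true := ex3_a k32_A00pm_123_s3 t833_A00pm_123_s3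

theorem t835_A00pm_123_s3 : ∃ t, chk3 f_A00pm_123_s3 t 509 60 1 = true := ex3_b t834_A00pm_123_s3 t830_A00pm_123_s3

theorem t836_A00pm_123_s3 : ∃ t, chk3 f_A00pm_123_s3 t 2035 487 1 = true := ex3_a k30_A00pm_123_s3 k31_A00pm_123_s3

theorem t837_A00pm_123_s3 : ∃ t, chk3 f_A00pm_123_s3 t 1017 487 1 = true := ex3_a k29_A00pm_123_s3 t836_A00pm_123_s3

theorem t838_A00pm_123_s3 : ∃ t, chk3 f_A00pm_123_s3 t 1017 243 1 = true := ex3_b k28_A00pm_123_s3 t837_A00pm_123_s3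

theorem t839_A00pm_123_s3 : ∃ t, chk3 f_A00pm_123_s3 t 1017 121 1 = true := ex3_b k27_A00pm_123_s3 t838_A00pm_123_s3

theorem t840_A00pm_123_s3 : ∃ t, chk3 f_A00pm_123_s3 t 1017 60 1 = true := ex3_b k26_A00pm_123_s3 t839_A00pm_123_s3

theorem t841_A00pm_123_s3 : ∃ t, chk3 f_A00pm_123_s3 t 1016 121 1 = true := ex3_b k24_A00pm_123_s3 k25_A00pm_123_s3

theorem t842_A00pm_123_s3 : ∃ t, chk3 f_A00pm_123_s3 t 1016 60 1 = true := ex3_b k23_A00pm_123_s3 t841_A00pm_123_s3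

theorem t843_A00pm_123_s3 : ∃ t, chk3 f_A00pm_123_s3 t 508 60 1 = true := ex3_a t842_A00pm_123_s3 t840_A00pm_123_s3

theorem t844_A00pm_123_s3 : ∃ t, chk3 f_A00pm_123_s3 t 254 60 1 = true := ex3_a t843_A00pm_123_s3 t835_A00pm_123_s3

theorem t845_A00pm_123_s3 : ∃ t, chk3 f_A00pm_123_s3 t 254 30 1 = true := ex3_b t844_A00pm_123_s3 t829_A00pm_123_s3

theorem t846_A00pm_123_s3 : ∃ t, chk3 f_A00pm_123_s3 t 127 30 1 = true := ex3_a t845_A00pm_123_s3 t820_A00pm_123_s3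

theorem t847_A00pm_123_s3 : ∃ t, chk3 f_A00pm_123_s3 t 126 60 1 = true := ex3_a k20_A00pm_123_s3 k21_A00pm_123_s3

theorem t848_A00pm_123_s3 : ∃ t, chk3 f_A00pm_123_s3 t 126 30 1 = true := ex3_b t847_A00pm_123_s3 k22_A00pm_123_s3

theorem t849_A00pm_123_s3 : ∃ t, chk3 f_A00pm_123_s3 t 63 30 1 = true := ex3_a t848_A00pm_123_s3 t846_A00pm_123_s3

theorem t850_A00pm_123_s3 : ∃ t, chk3 f_A00pm_123_s3 t 31 30 1 = true := ex3_a k19_A00pm_123_s3 t849_A00pm_123_s3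

theorem t851_A00pm_123_s3 : ∃ t, chk3 f_A00pm_123_s3 t 31 15 1 = true := ex3_b t850_A00pm_123_s3 t792_A00pm_123_s3

theorem t852_A00pm_123_s3 : ∃ t, chk3 f_A00pm_123_s3 t 15 15 1 = true := ex3_a k18_A00pm_123_s3 t851_A00pm_123_s3

theorem t853_A00pm_123_s3 : ∃ t, chk3 f_A00pm_123_s3 t 508 59 1 = true := ex3_b k14_A00pm_123_s3 k15_A00pm_123_s3

theorem t854_A00pm_123_s3 : ∃ t, chk3 f_A00pm_123_s3 t 508 29 1 = true := ex3_b k13_A00pm_123_s3 t853_A00pm_123_s3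

theorem t855_A00pm_123_s3 : ∃ t, chk3 f_A00pm_123_s3 t 254 29 1 = true := ex3_a t854_A00pm_123_s3 k16_A00pm_123_s3

theorem t856_A00pm_123_s3 : ∃ t, chk3 f_A00pm_123_s3 t 127 29 1 = true := ex3_a t855_A00pm_123_s3 k17_A00pm_123_s3

theorem t857_A00pm_123_s3 : ∃ t, chk3 f_A00pm_123_s3 t 253 58 1 = true := ex3_a k10_A00pm_123_s3 k11_A00pm_123_s3

theorem t858_A00pm_123_s3 : ∃ t, chk3 f_A00pm_123_s3 t 253 29 1 = true := ex3_b t857_A00pm_123_s3 k12_A00pm_123_s3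

theorem t859_A00pm_123_s3 : ∃ t, chk3 f_A00pm_123_s3 t 126 29 1 = true := ex3_a k9_A00pm_123_s3 t858_A00pm_123_s3

theorem t860_A00pm_123_s3 : ∃ t, chk3 f_A00pm_123_s3 t 63 29 1 = true := ex3_a t859_A00pm_123_s3 t856_A00pm_123_s3

theorem t861_A00pm_123_s3 : ∃ t, chk3 f_A00pm_123_s3 t 31 29 1 = true := ex3_a k8_A00pm_123_s3 t860_A00pm_123_s3

theorem t862_A00pm_123_s3 : ∃ t, chk3 f_A00pm_123_s3 t 31 28 1 = true := ex3_a k6_A00pm_123_s3 k7_A00pm_123_s3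

theorem t863_A00pm_123_s3 : ∃ t, chk3 f_A00pm_123_s3 t 31 14 1 = true := ex3_b t862_A00pm_123_s3 t861_A00pm_123_s3

theorem t864_A00pm_123_s3 : ∃ t, chk3 f_A00pm_123_s3 t 15 14 1 = true := ex3_a k5_A00pm_123_s3 t863_A00pm_123_s3

theorem t865_A00pm_123_s3 : ∃ t, chk3 f_A00pm_123_s3 t 15 7 1 = true := ex3_b t864_A00pm_123_s3 t852_A00pm_123_s3

theorem t866_A00pm_123_s3 : ∃ t, chk3 f_A00pm_123_s3 t 7 7 1 = true := ex3_a k4_A00pm_123_s3 t865_A00pm_123_s3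

theorem t867_A00pm_123_s3 : ∃ t, chk3 f_A00pm_123_s3 t 7 3 1 = true := ex3_b k3_A00pm_123_s3 t866_A00pm_123_s3

theorem t868_A00pm_123_s3 : ∃ t, chk3 f_A00pm_123_s3 t 3 3 1 = true := ex3_a k2_A00pm_123_s3 t867_A00pm_123_s3

theorem t869_A00pm_123_s3 : ∃ t, chk3 f_A00pm_123_s3 t 3 1 1 = true := ex3_b k1_A00pm_123_s3 t868_A00pm_123_s3

theorem t870_A00pm_123_s3 : ∃ t, chk3 f_A00pm_123_s3 t 1 1 1 = true := ex3_a k0_A00pm_123_s3 t869_A00pm_123_s3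

theorem c_A00pm_123_s3 : CertF 536870912 536870912 0 536870912 1040187392 5207648 true true false .npn 1 2 3
    ndB0q1 ndB0q2 pcB3 cut_A00pm_123_s3 xt_A00pm_123_s3 :=
  certF2 (fam := true) (s1 := true) (s2 := false) (a := 1) (b := 2) (c := 3) (cn := .npn) (n1 := ndB0q1) (n2 := ndB0q2) (pc := pcB3) (cut := cut_A00pm_123_s3) (xt := xt_A00pm_123_s3) (P1 := 536870912) (W1 := 536870912) (P2 := 0) (W2 := 536870912) (P3 := 1040187392) (W3 := 5207648)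
    rfl (fun _ => rfl) t870_A00pm_123_s3

theorem s_A00pm_123_s3 {κ x : ℝ} (hκ : κ * h0 = ken x) (hx : ((1040187392 : ℕ) : ℝ) / S ≤ x)
    (hx' : x ≤ (((1040187392 : ℕ) : ℝ) + (5207648 : ℕ)) / S)
    (H : CutA (VFD κ) PP tK tL pcB (Cut.of [[⟨0, 1, 0, 15728640⟩, ⟨1, 1, 0, 15728640⟩, ⟨2, 2, 0, 524288⟩], [⟨0, 0, 1, 46137344⟩, ⟨1, 1, 0, 1048576⟩, ⟨2, 1, 1, 46137344⟩, ⟨0, 0, 0, 1054867456⟩, ⟨0, 1, 0, 38117834⟩, ⟨2, 1, 0, 1054867456⟩, ⟨2, 2, 0, 38117834⟩], [⟨0, 1, 0, 1048576⟩, ⟨1, 0, 1, 46137344⟩, ⟨2, 1, 1, 46137344⟩, ⟨1, 0, 0, 1054867456⟩, ⟨1, 1, 0, 38117834⟩, ⟨2, 1, 0, 1054867456⟩, ⟨2, 2, 0, 38117834⟩]]) 1 2 3 0 0 (sgb true) (sgb false) x) :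
    AltA (VFD κ) PP tK tL pcB [⟨4, 0, 0, 3194381926⟩] 1 2 3 0 0 (sgb true) (sgb false) x :=
  strip_altAD (m := 3194381926) false rfl hκ (SH.κ0 hκ (SH.hx1 hx).le (SH.hx2 hx').le) (SH.hx1 hx).le (SH.hx2 hx') (covB01).cov (covB02).cov hx hx' c_A00pm_123_s3 H ((okx hx hx').extAN (T := tt) (sideB hx hx') hκ rfl rfl (.O 1 true) (.O 2 false) (Or.inr rfl))

end Pool.Agent.Strip051.G.I9688_9736.Tab.St.C
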