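import Pool.Agent.Strip051.G.I9688_9736.Tab
import Pool.Agent.Strip051.PB.StripB

/-! # Strips, near vertex: certificates 0 (generated) -/

set_option linter.all false
set_option maxRecDepth 100000

namespace Pool.Agent.Strip051.G.I9688_9736.Tab.CS.BA00

open Pool.Agent.Strip051.PB Pool.Agent.Strip051.PB.T
open Pool.Agent.Strip051.G.I9688_9736.Tab

noncomputable def cut_pp_001_s : Cut := Cut.of [[⟨4, 0, 0, 1449551462⟩]]

noncomputable def f_pp_001_s : ℕ → ℕ → ℕ → ℕ → Bool := onCell 0 536870912 0 536870912 1040187392 5207648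
    (rowNE 3 eng mog cd0q0 cd0q0 pd1 0 true true true .up 0 0 1 (qsf 0 536870912 0 536870912 1) ndB0q0 ndB0q0 pcB1 cut_pp_001_s Ext.none)

def k0_pp_001_s : ∃ t, chk3 f_pp_001_s t 1 1 1 = true :=
  ⟨(l 4), by decide +kernel⟩

theorem c_pp_001_s : CertNE 0 536870912 0 536870912 1040187392 5207648 3 eng mog cd0q0 cd0q0 pd1 true true true .up 0 0 1
    ndB0q0 ndB0q0 pcB1 cut_pp_001_s Ext.none :=
  certNE0 (fam := true) (s1 := true) (s2 := true) (a := 0) (b := 0) (c := 1) (cn := .up) (n1 := ndB0q0) (n2 := ndB0q0) (pc := pcB1) (cut := cut_pp_001_s) (xt := Ext.none) (P1 := 0) (W1 := 536870912) (P2 := 0) (W2 := 536870912) (P3 := 1040187392) (W3 := 5207648) (N0 := 3) (En := eng) (mo := mog) (C1 := cd0q0) (C2 := cd0q0) (C3 := pd1)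
    rfl k0_pp_001_s

noncomputable def cut_pp_001_t : Cut := Cut.of [[⟨3, 0, 0, 2845415833⟩]]

noncomputable def f_pp_001_t : ℕ → ℕ → ℕ → ℕ → Bool := onCell 0 536870912 0 536870912 1040187392 5207648
    (rowNE 3 eng mog cd0q0 cd0q0 pd1 0 true true true .up 0 0 1 (qsf 0 536870912 0 536870912 1) ndB0q0 ndB0q0 pcB1 cut_pp_001_t Ext.none)

def k0_pp_001_t : ∃ t, chk3 f_pp_001_t t 1 1 1 = true :=
  ⟨(l 4), by decide +kernel⟩

theorem c_pp_001_t : CertNE 0 536870912 0 536870912 1040187392 5207648 3 eng mog cd0q0 cd0q0 pd1 true true true .up 0 0 1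
    ndB0q0 ndB0q0 pcB1 cut_pp_001_t Ext.none :=
  certNE0 (fam := true) (s1 := true) (s2 := true) (a := 0) (b := 0) (c := 1) (cn := .up) (n1 := ndB0q0) (n2 := ndB0q0) (pc := pcB1) (cut := cut_pp_001_t) (xt := Ext.none) (P1 := 0) (W1 := 536870912) (P2 := 0) (W2 := 536870912) (P3 := 1040187392) (W3 := 5207648) (N0 := 3) (En := eng) (mo := mog) (C1 := cd0q0) (C2 := cd0q0) (C3 := pd1)
    rfl k0_pp_001_t

noncomputable def cut_pp_011_s : Cut := Cut.of [[⟨4, 0, 0, 1449551462⟩], [⟨0, 0, 0, 26843545⟩, ⟨1, 1, 0, 26843545⟩, ⟨2, 1, 0, 26843545⟩]]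

noncomputable def f_pp_011_s : ℕ → ℕ → ℕ → ℕ → Bool := onCell 0 536870912 536870912 536870912 1040187392 5207648
    (rowNE 3 eng mog cd0q0 cd0q1 pd1 0 true true true .pnn 0 1 1 (qsf 0 536870912 536870912 536870912 1) ndB0q0 ndB0q1 pcB1 cut_pp_011_s Ext.none)

def k0_pp_011_s : ∃ t, chk3 f_pp_011_s t 1 1 1 = true :=
  ⟨(l 6), by decide +kernel⟩

theorem c_pp_011_s : CertNE 0 536870912 536870912 536870912 1040187392 5207648 3 eng mog cd0q0 cd0q1 pd1 true true true .pnn 0 1 1
    ndB0q0 ndB0q1 pcB1 cut_pp_011_s Ext.none :=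
  certNE0 (fam := true) (s1 := true) (s2 := true) (a := 0) (b := 1) (c := 1) (cn := .pnn) (n1 := ndB0q0) (n2 := ndB0q1) (pc := pcB1) (cut := cut_pp_011_s) (xt := Ext.none) (P1 := 0) (W1 := 536870912) (P2 := 536870912) (W2 := 536870912) (P3 := 1040187392) (W3 := 5207648) (N0 := 3) (En := eng) (mo := mog) (C1 := cd0q0) (C2 := cd0q1) (C3 := pd1)
    rfl k0_pp_011_s

noncomputable def cut_pp_011_t : Cut := Cut.of [[⟨3, 0, 0, 2845415833⟩], [⟨0, 0, 0, 26843545⟩, ⟨1, 1, 0, 26843545⟩, ⟨2, 1, 0, 26843545⟩]]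

noncomputable def f_pp_011_t : ℕ → ℕ → ℕ → ℕ → Bool := onCell 0 536870912 536870912 536870912 1040187392 5207648
    (rowNE 3 eng mog cd0q0 cd0q1 pd1 0 true true true .pnn 0 1 1 (qsf 0 536870912 536870912 536870912 1) ndB0q0 ndB0q1 pcB1 cut_pp_011_t Ext.none)

def k0_pp_011_t : ∃ t, chk3 f_pp_011_t t 1 1 1 = true :=
  ⟨(b (l 4) (a (b (l 4) (a (b (l 4) (a (b (l 4) (a (b (l 4) (a (l 14) (l 4))) (l 4))) (l 4))) (l 4))) (l 4))), by decide +kernel⟩

theorem c_pp_011_t : CertNE 0 536870912 536870912 536870912 1040187392 5207648 3 eng mog cd0q0 cd0q1 pd1 true true true .pnn 0 1 1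
    ndB0q0 ndB0q1 pcB1 cut_pp_011_t Ext.none :=
  certNE0 (fam := true) (s1 := true) (s2 := true) (a := 0) (b := 1) (c := 1) (cn := .pnn) (n1 := ndB0q0) (n2 := ndB0q1) (pc := pcB1) (cut := cut_pp_011_t) (xt := Ext.none) (P1 := 0) (W1 := 536870912) (P2 := 536870912) (W2 := 536870912) (P3 := 1040187392) (W3 := 5207648) (N0 := 3) (En := eng) (mo := mog) (C1 := cd0q0) (C2 := cd0q1) (C3 := pd1)
    rfl k0_pp_011_t

noncomputable def cut_pp_012_s : Cut := Cut.of [[⟨4, 0, 0, 1449551462⟩], [⟨0, 0, 0, 26843545⟩, ⟨1, 1, 0, 26843545⟩, ⟨2, 1, 0, 26843545⟩]]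

noncomputable def f_pp_012_s : ℕ → ℕ → ℕ → ℕ → Bool := onCell 0 536870912 536870912 536870912 1040187392 5207648
    (rowNE 3 eng mog cd0q0 cd0q1 pd2 0 true true true .pnp 0 1 2 (qsf 0 536870912 536870912 536870912 2) ndB0q0 ndB0q1 pcB2 cut_pp_012_s Ext.none)

def k0_pp_012_s : ∃ t, chk3 f_pp_012_s t 1 1 1 = true :=
  ⟨(l 6), by decide +kernel⟩

theorem c_pp_012_s : CertNE 0 536870912 536870912 536870912 1040187392 5207648 3 eng mog cd0q0 cd0q1 pd2 true true true .pnp 0 1 2
    ndB0q0 ndB0q1 pcB2 cut_pp_012_s Ext.none :=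
  certNE0 (fam := true) (s1 := true) (s2 := true) (a := 0) (b := 1) (c := 2) (cn := .pnp) (n1 := ndB0q0) (n2 := ndB0q1) (pc := pcB2) (cut := cut_pp_012_s) (xt := Ext.none) (P1 := 0) (W1 := 536870912) (P2 := 536870912) (W2 := 536870912) (P3 := 1040187392) (W3 := 5207648) (N0 := 3) (En := eng) (mo := mog) (C1 := cd0q0) (C2 := cd0q1) (C3 := pd2)
    rfl k0_pp_012_s

noncomputable def cut_pp_012_t : Cut := Cut.of [[⟨3, 0, 0, 2845415833⟩], [⟨0, 0, 0, 26843545⟩, ⟨1, 1, 0, 26843545⟩, ⟨2, 1, 0, 26843545⟩]]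

noncomputable def f_pp_012_t : ℕ → ℕ → ℕ → ℕ → Bool := onCell 0 536870912 536870912 536870912 1040187392 5207648
    (rowNE 3 eng mog cd0q0 cd0q1 pd2 0 true true true .pnp 0 1 2 (qsf 0 536870912 536870912 536870912 2) ndB0q0 ndB0q1 pcB2 cut_pp_012_t Ext.none)

def k0_pp_012_t : ∃ t, chk3 f_pp_012_t t 1 1 1 = true :=
  ⟨(b (l 4) (a (b (l 4) (a (b (l 4) (a (b (l 4) (a (b (l 4) (a (l 14) (l 4))) (l 4))) (l 4))) (l 4))) (l 4))), by decide +kernel⟩

theorem c_pp_012_t : CertNE 0 536870912 536870912 536870912 1040187392 5207648 3 eng mog cd0q0 cd0q1 pd2 true true true .pnp 0 1 2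
    ndB0q0 ndB0q1 pcB2 cut_pp_012_t Ext.none :=
  certNE0 (fam := true) (s1 := true) (s2 := true) (a := 0) (b := 1) (c := 2) (cn := .pnp) (n1 := ndB0q0) (n2 := ndB0q1) (pc := pcB2) (cut := cut_pp_012_t) (xt := Ext.none) (P1 := 0) (W1 := 536870912) (P2 := 536870912) (W2 := 536870912) (P3 := 1040187392) (W3 := 5207648) (N0 := 3) (En := eng) (mo := mog) (C1 := cd0q0) (C2 := cd0q1) (C3 := pd2)
    rfl k0_pp_012_t

noncomputable def cut_pp_022_s : Cut := Cut.of [[⟨4, 0, 0, 1449551462⟩], [⟨0, 0, 0, 22369621⟩, ⟨1, 1, 0, 22369621⟩, ⟨2, 1, 0, 22369621⟩]]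

noncomputable def f_pp_022_s : ℕ → ℕ → ℕ → ℕ → Bool := onCell 0 536870912 0 536870912 1040187392 5207648
    (rowNE 3 eng mog cd0q0 cd0q2 pd2 0 true true true .pp 0 2 2 (qsf 0 536870912 0 536870912 2) ndB0q0 ndB0q2 pcB2 cut_pp_022_s Ext.none)

def k0_pp_022_s : ∃ t, chk3 f_pp_022_s t 1 1 1 = true :=
  ⟨(l 6), by decide +kernel⟩

theorem c_pp_022_s : CertNE 0 536870912 0 536870912 1040187392 5207648 3 eng mog cd0q0 cd0q2 pd2 true true true .pp 0 2 2
    ndB0q0 ndB0q2 pcB2 cut_pp_022_s Ext.none :=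
  certNE0 (fam := true) (s1 := true) (s2 := true) (a := 0) (b := 2) (c := 2) (cn := .pp) (n1 := ndB0q0) (n2 := ndB0q2) (pc := pcB2) (cut := cut_pp_022_s) (xt := Ext.none) (P1 := 0) (W1 := 536870912) (P2 := 0) (W2 := 536870912) (P3 := 1040187392) (W3 := 5207648) (N0 := 3) (En := eng) (mo := mog) (C1 := cd0q0) (C2 := cd0q2) (C3 := pd2)
    rfl k0_pp_022_s

noncomputable def cut_pp_022_t : Cut := Cut.of [[⟨3, 0, 0, 2845415833⟩], [⟨0, 0, 0, 22369621⟩, ⟨1, 1, 0, 22369621⟩, ⟨2, 1, 0, 22369621⟩]]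

noncomputable def f_pp_022_t : ℕ → ℕ → ℕ → ℕ → Bool := onCell 0 536870912 0 536870912 1040187392 5207648
    (rowNE 3 eng mog cd0q0 cd0q2 pd2 0 true true true .pp 0 2 2 (qsf 0 536870912 0 536870912 2) ndB0q0 ndB0q2 pcB2 cut_pp_022_t Ext.none)

def k0_pp_022_t : ∃ t, chk3 f_pp_022_t t 2 2 1 = true :=
  ⟨(a (b (l 6) (b (l 6) (a (l 6) (b (l 6) (a (a (l 6) (b (l 6) (a (l 6) (l 15577496)))) (a (b (l 15452520) (l 15585056)) (b (l 15464080) (l 15601208)))))))) (b (a (l 6) (b (l 6) (a (l 6) (b (l 6) (a (l 6) (b (l 6) (l 14752192))))))) (a (b (a (l 6) (b (l 6) (a (b (l 6) (l 15102336)) (b (l 14987720) (l 15153392))))) (a (b (a (b (l 6) (l 15340648)) (b (l 15220032) (l 15372088))) (a (b (l 15485424) (l 15626752)) (b (l 15520856) (l 15666072)))) (b (a (b (l 15261352) (l 15417192)) (b (l 15315968) (l 15475248))) (a (b (l 15569616) (l 15718392)) (b (l 15631008) (l 15783032)))))) (b (a (b (a (b (l 6) (l 14876328)) (b (l 14768272) (l 14946416))) (a (b (l 15048368) (l 15217376)) (b (l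 15121568) (l 15293560)))) (b (a (b (l 14847656) (l 15028688)) (b (l 14938864) (l 15122408))) (a (b (l 15206592) (l 15381208)) (b (l 15302688) (l 15479576))))) (a (b (a (b (l 15383168) (l 15545544)) (b (l 15462216) (l 15627360))) (a (b (l 15704312) (l 15859264)) (b (l 15788808) (l 15946368)))) (b (a (b (l 15552384) (l 15719960)) (b (l 15652928) (l 15822608))) (a (b (l 15883768) (l 16043624)) (b (l 15988456) (l 16150304))))))))), by decide +kernel⟩

def k1_pp_022_t : ∃ t, chk3 f_pp_022_t t 8 6 1 = true :=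
  ⟨(a (b (b (l 6) (b (l 6) (a (l 16191192) (l 16122240)))) (b (a (b (l 16279136) (a (l 16445896) (l 16405696))) (b (l 16173536) (a (l 16366040) (l 16328536)))) (a (b (a (l 16520912) (l 16485184)) (b (l 16514624) (l 16547600))) (b (a (l 16449984) (l 16414792)) (a (l 16506288) (l 16496344)))))) (b (a (b (l 6) (b (l 15989416) (l 16005984))) (b (b (l 6) (a (l 15842360) (l 15824224))) (b (a (l 15948544) (l 15932240)) (a (l 16051472) (l 16036432))))) (b (a (b (a (l 16202536) (l 16173128)) (a (l 16295008) (l 16267344))) (b (a (l 16150928) (l 16137288)) (a (l 16246672) (l 16234400)))) (a (b (a (l 16383344) (l 16357496)) (a (l 16467032) (l 16443152))) (b (a (l 16338416) (l 16327528)) (a (l 16425784) (b (l 16394544) (l 16437824)))))))), by decide +kernel⟩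

def k2_pp_022_t : ∃ t, chk3 f_pp_022_t t 9 6 1 = true :=
  ⟨(b (a (a (b (a (b (l 6) (l 15815640)) (b (l 15698064) (l 15814656))) (b (a (l 15925576) (l 15927256)) (a (l 16031640) (l 16035336)))) (b (b (a (l 15698760) (l 15702904)) (a (l 15817928) (l 15824560))) (b (a (l 15933056) (l 15942136)) (a (l 16043784) (l 16055288))))) (b (a (b (a (l 15709800) (l 15718752)) (a (l 15833856) (l 15845112))) (b (a (l 15728984) (l 15740768)) (a (l 15857536) (l 15871400)))) (a (b (a (l 15953792) (l 15967312)) (a (l 16069264) (l 16085016))) (b (a (l 15981880) (l 15997800)) (a (l 16101704) (l 16119640)))))) (a (b (a (a (b (l 16133648) (l 16231968)) (b (l 16139136) (l 16238432))) (a (b (l 16149448) (l 16250608)) (b (l 16163648) (l 16266848)))) (a (b (a (l 16347272) (b (l 16310304) (l 16356944))) (a (b (l 16394264) (l 16438208)) (b (l 16402520) (l 16446992)))) (b (a (b (l 16323288) (l 16370072)) (b (l 16340536) (l 16388056))) (a (b (l 16416024) (l 16460888)) (b (l 16434376) (l 16479296))))))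 (b (a (b (a (l 16179928) (l 16197880)) (a (l 16285416) (l 16305560))) (b (a (l 16216672) (l 16236592)) (a (l 16326424) (l 16348320)))) (a (b (a (b (l 16360912) (l 16409424)) (b (l 16382696) (l 16432296))) (a (b (l 16456264) (l 16501848)) (b (l 16480384) (l 16526896)))) (b (a (b (l 16405112) (l 16455744)) (l 16391536)) (a (b (l 16504856) (l 16552408)) (b (l 16530192) (l 16578720)))))))), by decide +kernel⟩

def k3_pp_022_t : ∃ t, chk3 f_pp_022_t t 8 14 1 = true :=
  ⟨(a (b (a (b (a (l 16592760) (l 16580552)) (a (a (l 16607928) (l 16604936)) (l 16610832))) (b (a (l 16555280) (l 16507768)) (a (l 16594352) (b (l 16621288) (l 16630584))))) (a (b (a (b (l 16611032) (a (l 16604584) (l 16619896))) (b (l 16622480) (l 16621576))) (a (b (a (l 16611864) (l 16626168)) (a (b (l 16620504) (l 16627616)) (l 16626752))) (b (a (l 16640200) (l 16654072)) (a (l 16629272) (l 16642024))))) (b (a (b (l 16654760) (l 16651432)) (b (l 16658168) (l 16681424))) (a (b (a (l 16667808) (l 16681504))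 (b (l 16658648) (l 16663368))) (b (b (l 16680632) (l 16681752)) (a (l 16679576) (l 16691776))))))) (b (a (b (a (l 16482704) (l 16460840)) (a (b (l 16599624) (l 16633088)) (b (l 16580760) (l 16616328)))) (b (a (b (l 16488120) (l 16528064)) (b (l 16479912) (l 16520728))) (a (b (l 16566608) (l 16603648)) (b (l 16560216) (l 16598280))))) (a (b (b (a (l 16642640) (l 16628752)) (a (l 16668792) (l 16658320))) (a (b (a (l 16712704) (l 16687448)) (a (l 16703344) (l 16704096))) (b (b (l 16697632) (l 16708280)) (a (l 16701928) (l 16700480))))) (b (a (b (a (l 16641424) (l 16637296)) (b (l 16663688) (l 16678448))) (b (a (l 16635144) (l 16635056)) (a (l 16668240) (l 16668728)))) (b (a (a (l 16699336) (l 16676664)) (a (l 16676192) (b (l 16691184) (l 16704976)))) (a (a (l 16707680) (b (l 16715584) (l 16726072))) (a (b (l 16716128) (l 16727600)) (b (l 16718016) (l 16730096))))))))), by decide +kernel⟩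

def k4_pp_022_t : ∃ t, chk3 f_pp_022_t t 16 30 1 = true :=
  ⟨(a (b (a (b (a (b (l 16635696) (l 16644552)) (b (l 16648264) (l 16656728))) (a (b (a (l 16651056) (l 16657152)) (a (l 16660776) (l 16666792))) (b (l 16666000) (l 16675424)))) (b (a (b (l 16660496) (l 16668480)) (b (l 16672464) (l 16679928))) (a (b (l 16677288) (l 16686384)) (b (l 16688224) (l 16696816))))) (a (b (a (b (a (l 16669808) (l 16675736)) (a (l 16678240) (l 16684080))) (b (l 16684240) (l 16681976))) (a (b (a (l 16686248) (l 16692016)) (a (l 16694032) (l 16699720))) (b (a (l 16697576) (l 16702936)) (a (l 16705216) (l 16710504))))) (b (a (b (l 16694888) (l 16692424)) (b (l 16704928) (l 16691696))) (a (b (a (l 16708096) (l 16713048)) (a (l 16715592) (l 16720488))) (b (a (l 16717800) (l 16722376)) (a (l 16725176) (l 16729648))))))) (b (a (b (a (b (l 16684240) (l 16691152)) (b (l 16695848) (l 16702208))) (b (a (l 16698920) (l 16709424)) (a (l 16707000) (l 16716952)))) (b (a (b (l 16707376) (l 16713136))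 (b (l 16718592) (l 16723712))) (a (b (l 16719776) (l 16726752)) (b (l 16708760) (l 16715136))))) (a (b (a (b (l 16714624) (l 16700928)) (b (l 16724064) (l 16709872))) (a (b (l 16718496) (a (l 16733952) (l 16738096))) (b (l 16726992) (a (l 16742136) (l 16746096))))) (b (a (b (l 16712344) (l 16718616)) (b (l 16721152) (l 16726880))) (b (a (l 16735240) (a (l 16730632) (l 16734296))) (a (b (l 16729368) (l 16742992)) (a (l 16746928) (l 16750328)))))))), by decide +kernel⟩

def k5_pp_022_t : ∃ t, chk3 f_pp_022_t t 32 62 1 = true :=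
  ⟨(a (b (a (b (a (l 16701768) (l 16707400)) (a (l 14) (b (l 16713256) (l 14)))) (b (a (l 16712832) (l 16718056)) (a (b (l 16718640) (l 16722600)) (l 16720544)))) (a (l 14) (b (a (b (l 16726648) (l 14)) (b (l 16731776) (l 16735904))) (l 14)))) (b (a (b (a (l 16723088) (l 16727912)) (a (l 16725512) (l 16730288))) (b (a (l 16732536) (l 16736968)) (a (l 16734856) (l 16739224)))) (a (b (a (b (l 16736704) (l 16740808)) (b (l 16741440) (l 16745520))) (a (b (l 16745072) (a (l 14) (l 16750760))) (b (l 16749752) (a (l 16753088) (l 16755368))))) (b (a (b (l 16745968) (l 16750024)) (b (l 16750296) (l 16754328))) (a (b (l 16743744) (a (l 16757592) (l 16759776))) (b (l 16753272) (a (l 16761904) (l 16758736)))))))), by decide +kernel⟩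

def k6_pp_022_t : ∃ t, chk3 f_pp_022_t t 64 63 1 = true :=
  ⟨(l 14), by decide +kernel⟩

def k7_pp_022_t : ∃ t, chk3 f_pp_022_t t 65 63 1 = true :=
  ⟨(b (a (b (a (l 14) (b (b (l 16757784) (l 16755000)) (l 14))) (l 14)) (b (b (a (a (l 16757104) (l 16760584)) (a (b (l 16765424) (l 16767864)) (b (l 16767496) (l 16764688)))) (a (a (b (l 16766104) (l 16763464)) (b (l 16768264) (l 16768240))) (b (a (l 16765136) (c (l 16769824) (l 16769808))) (a (b (l 16767064) (l 16771000)) (b (l 16771744) (a (l 16769920) (b (l 16770608) (a (l 16776256) (l 16775440))))))))) (b (a (a (l 14) (b (a (l 16770368) (l 16772088)) (l 14))) (b (a (b (a (l 16769184) (l 16772848)) (a (l 16773160) (a (a (l 16773808) (b (l 16776344) (b (l 16776856) (b (l 16777104) (a (l 16777192) (l 236458082455)))))) (b (l 16775416) (b (b (a (l 16771784) (a (l 16777192) (l 241826791575))) (a (l 16777248) (l 4))) (l 288534559639)))))) (b (a (a (l 16773616) (b (l 16771168) (b (l 16776904) (b (a (l 16771792) (l 116198996967))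 (a (l 16777168) (l 4)))))) (b (a (b (l 16771512) (b (l 16776992) (a (l 16771800) (l 119420222439)))) (b (b (a (l 16777048) (l 122641446599)) (a (l 16777176) (l 4))) (l 292829528263))) (b (a (b (a (l 16777176) (l 4)) (l 286923948183)) (l 4)) (l 4)))) (a (b (b (a (b (l 16776984) (a (l 16771792) (l 118883351511))) (l 288534560967)) (a (b (a (l 16777168) (l 4)) (l 281555239063)) (l 4))) (l 4)) (l 4)))) (a (b (a (a (b (l 16771296) (l 14)) (b (b (l 16775576) (b (a (l 16777016) (a (l 16777184) (l 231626244247))) (a (a (l 16777120) (l 16777208)) (l 4)))) (a (a (l 283702722071) (l 4)) (l 4)))) (a (a (b (b (b (a (l 16777128) (l 16777208)) (l 173644185879)) (l 4)) (l 4)) (l 4)) (l 4))) (l 4)) (l 4)))) (a (l 14) (l 4))))) (l 14)), by decide +kernel⟩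

def k8_pp_022_t : ∃ t, chk3 f_pp_022_t t 66 62 1 = true :=
  ⟨(b (a (b (a (l 16741168) (l 16734736)) (a (b (l 16746744) (l 16750544)) (b (l 16750728) (l 16754504)))) (b (a (l 16728128) (l 16742360)) (a (b (l 16754512) (l 16758248)) (b (l 16758144) (l 16761832))))) (b (a (a (b (l 16754432) (l 16747952)) (b (l 16758360) (l 16757104))) (a (b (l 16751608) (b (l 16765048) (l 16756576))) (b (b (l 16764664) (l 16756104)) (b (l 16763320) (l 16767944))))) (a (b (a (b (l 16761536) (l 16763672)) (a (l 16755040) (l 16762176))) (a (a (l 16760768) (l 16764056)) (b (b (l 16763944) (l 16765056)) (a (l 16765824) (l 16767704))))) (b (a (b (l 16763872) (a (l 16770328) (l 16766872))) (b (a (l 16771752) (l 16768208)) (a (l 16768608) (b (l 16769768) (a (l 16770416) (b (l 16776224) (c (l 16776752) (l 16776752)))))))) (a (b (a (l 16767272) (l 16771672)) (a (b (l 16768952) (l 16772728)) (a (b (l 16770296) (b (l 16771152) (b (l 16776816) (a (l 16771656) (a (l 16777176) (l 243974275367)))))) (b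 (b (l 16776128) (a (l 16776480) (l 16776904))) (b (a (a (l 16771696) (b (l 16771776) (l 124252062023))) (l 315378104775)) (l 349737841399)))))) (b (a (b (l 16770232) (a (l 16770912) (a (a (l 16771440) (b (l 16776624) (b (l 16771792) (l 152706220311)))) (b (l 16776928) (l 315914974871))))) (b (a (b (l 16771232) (a (l 16771568) (a (l 39426457335) (b (l 16777160) (l 4))))) (b (a (a (l 16776984) (b (l 16777064) (l 143579414887))) (l 316988715895)) (l 346516612647))) (a (b (a (l 289071430967) (l 4)) (l 4)) (l 4)))) (a (b (a (b (b (l 16776840) (a (l 16771680) (a (l 16777096) (l 279944626423)))) (b (b (a (l 16777112) (l 4)) (l 315378104455)) (l 345979745031))) (l 350811579335)) (l 4)) (l 4)))))))), by decide +kernel⟩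

def k9_pp_022_t : ∃ t, chk3 f_pp_022_t t 67 124 1 = true :=
  ⟨(b (a (a (b (l 16754856) (l 16758208)) (a (l 16748728) (l 16750472))) (b (a (l 16761912) (l 16744160)) (a (l 16744072) (l 16757648)))) (a (a (b (l 16761672) (l 16754784)) (b (l 16754600) (l 16763336))) (b (a (l 16757808) (a (l 16760064) (l 16761488))) (a (a (l 16760440) (l 16767176)) (b (a (l 16762520) (l 16763904)) (a (l 16764208) (b (l 16765144) (a (l 16765648) (b (l 16776584) (l 101166610855)))))))))), by decide +kernel⟩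

def k10_pp_022_t : ∃ t, chk3 f_pp_022_t t 67 250 1 = true :=
  ⟨(a (a (b (a (l 16757672) (l 16759320)) (a (l 16769440) (b (l 16762200) (l 16769424)))) (b (a (l 16766184) (l 16770368)) (b (a (l 16769032) (b (l 16764832) (a (l 16765416) (a (l 16765976) (l 81302386455))))) (a (b (l 16770488) (a (l 16771096) (b (l 82912999415) (a (b (l 16777032) (l 100092865863)) (l 320746810071))))) (b (a (a (l 16776680) (a (l 98482256215) (b (l 16776904) (l 163443633495)))) (a (a (b (l 16777072) (l 4)) (l 301419457207)) (l 327726126839))) (a (l 319136202279) (l 4))))))) (b (a (a (a (l 16768872) (l 16772232)) (b (l 16769792) (b (a (l 16765536) (l 77007418775)) (a (a (l 16776744) (b (l 16776872) (a (l 132305125559) (l 177402282503)))) (b (a (l 143042533191) (l 324504904391)) (l 4)))))) (b (a (a (l 16770832) (b (l 16776320) (b (l 97408514423) (l 284239591719)))) (b (a (a (l 16776816) (a (l 114051513015) (b (l 16777016) (l 343832264535)))) (b (l 285850203895) (l 4))) (a (l 317525585895) (l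 4)))) (a (b (a (a (b (l 16777000) (l 304103811991)) (l 300882589175)) (l 4)) (l 4)) (l 4)))) (a (b (a (b (a (l 16776432) (b (l 89892321463) (a (a (l 16777088) (l 143042533415)) (l 323431163239)))) (a (a (b (l 16776944) (l 299808845863)) (l 299808848695)) (l 4))) (b (a (l 318062458503) (l 4)) (l 4))) (l 4)) (l 4)))), by decide +kernel⟩

def k11_pp_022_t : ∃ t, chk3 f_pp_022_t t 67 251 1 = true :=
  ⟨(a (b (a (b (a (l 16769848) (b (b (l 16770680) (a (l 16776040) (l 79154902887))) (a (a (l 16771368) (b (l 16776752) (b (l 16777104) (l 153243088823)))) (a (a (b (l 16777032) (l 347053485255)) (l 298735106615)) (l 328799870695))))) (a (b (a (l 16771008) (b (l 16776776) (b (a (l 16776984) (l 161296149815)) (l 299271975975)))) (a (a (b (l 16771592) (l 291218913447)) (a (b (l 40500199207) (l 4)) (l 316988714263))) (l 350811575287))) (b (a (b (l 309472523831) (l 4)) (l 4)) (l 4)))) (b (a (b (a (b (a (l 16776896) (b (l 16777120) (l 192434667895))) (l 310009396535)) (l 4)) (l 4)) (l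 4)) (l 4))) (l 4)) (l 4)), by decide +kernel⟩

def k12_pp_022_t : ∃ t, chk3 f_pp_022_t t 132 504 1 = true :=
  ⟨(a (a (b (l 16769512) (l 16769320)) (b (l 16766248) (b (l 16768056) (l 16771904)))) (a (b (l 16770784) (b (l 16772592) (a (l 16770720) (a (a (l 16771312) (a (l 69491226215) (b (l 16776544) (b (l 16777008) (l 139821318423))))) (b (l 16776832) (a (b (l 16777144) (l 4)) (l 283165851847))))))) (b (b (l 16769448) (a (l 16770168) (b (l 16776040) (c (l 16877872887) (l 16877872871))))) (b (a (b (l 16771072) (b (l 16775456) (a (l 16771600) (a (l 16777152) (l 196192764263))))) (b (a (a (l 16771648) (a (l 16777048) (b (l 16777032) (l 148948123943)))) (a (b (l 16777160) (l 4)) (l 292829528263))) (a (a (l 257932916311) (l 4)) (l 4)))) (a (b (a (a (b (l 16777032) (a (l 121567707383) (l 222499438855))) (a (b (l 16777176) (l 4)) (l 265985982599))) (l 4)) (l 4)) (l 4)))))), by decide +kernel⟩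

def k13_pp_022_t : ∃ t, chk3 f_pp_022_t t 132 505 1 = true :=
  ⟨(a (b (a (a (l 16771328) (l 16772320)) (a (b (l 16770048) (b (l 16770992) (b (l 16775400) (a (l 16771552) (c (a (l 16777128) (l 176865410103)) (a (l 16777128) (l 177402281015))))))) (b (b (l 16770704) (a (l 16776328) (l 16774184))) (b (a (a (l 16771600) (a (l 16777008) (b (l 16776984) (l 131231383815)))) (a (b (a (l 16777096) (l 16777184)) (l 252564209975)) (l 277797142711))) (b (b (a (a (l 16777192) (l 4)) (l 4)) (l 308398784807)) (l 4)))))) (a (b (a (l 16773248) (a (a (l 16773872) (a (l 64659387735) (b (l 16776480) (b (l 16776960) (l 105998449671))))) (b (l 16774160) (a (b (a (l 16777080) (l 16777168)) (l 226257535319)) (c (l 268670335895) (l 272965303175)))))) (a (b (a (l 16771360) (b (l 16776928) (b (a (l 16777056) (l 123715191063)) (a (l 16777176) (l 4))))) (b (a (b (l 16777000) (a (l 16771808) (l 126399545607))) (l 297124495559)) (a (b (a (l 16777176) (l 4)) (l 292292657303)) (l 4)))) (a (a (b (b (b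 (l 16777184) (l 230015631575)) (l 4)) (l 4)) (l 4)) (l 4)))) (b (a (b (a (b (b (l 16777024) (a (l 16777072) (l 134452609303))) (b (a (l 16777184) (l 4)) (l 298735108263))) (l 310546268455)) (l 4)) (l 4)) (l 4)))) (b (a (b (a (b (b (l 16775424) (a (l 16771576) (a (l 16777304) (l 188676571479)))) (a (b (b (l 16777040) (a (l 16777088) (l 155927445767))) (b (a (l 16777200) (l 4)) (l 314841235623))) (l 317525590311))) (a (a (b (c (l 251490466663) (l 252564208487)) (l 4)) (l 4)) (l 4))) (l 4)) (l 4)) (l 4))), by decide +kernel⟩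

def k14_pp_022_t : ∃ t, chk3 f_pp_022_t t 133 252 1 = true :=
  ⟨(b (a (b (a (b (a (l 16770816) (a (a (l 16771376) (b (l 16776552) (b (l 16776992) (l 115662122167)))) (b (l 16776880) (l 314304363799)))) (a (b (b (l 16775480) (a (l 16771624) (a (l 16777168) (l 261154144455)))) (b (a (a (l 16777048) (l 95797901095)) (l 4)) (l 345979748103))) (l 356180293831))) (b (a (b (b (a (a (l 16777064) (l 103850962167)) (l 4)) (l 347053488311)) (l 4)) (l 4)) (l 4))) (l 4)) (l 4)) (l 4)), by decide +kernel⟩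

def k15_pp_022_t : ∃ t, chk3 f_pp_022_t t 66 253 1 = true :=
  ⟨(l 4), by decide +kernel⟩

def k16_pp_022_t : ∃ t, chk3 f_pp_022_t t 67 126 1 = true :=
  ⟨(l 4), by decide +kernel⟩

def k17_pp_022_t : ∃ t, chk3 f_pp_022_t t 33 127 1 = true :=
  ⟨(l 4), by decide +kernel⟩

def k18_pp_022_t : ∃ t, chk3 f_pp_022_t t 34 30 1 = true :=
  ⟨(b (b (a (b (b (l 16712264) (l 16714072)) (b (l 16716120) (l 16718400))) (b (a (l 16733768) (l 16733496)) (a (l 16739880) (l 16740376)))) (a (b (a (l 16717952) (l 16723784)) (a (l 16723696) (l 16728080))) (b (a (l 16724176) (l 16735920)) (a (l 16729176) (l 16741664))))) (a (b (b (a (l 16729104) (l 16743384)) (a (l 16744744) (a (l 16737688) (l 16759648)))) (a (b (a (l 16737712) (l 16740880)) (b (l 16753664) (a (l 16744360) (l 16747192)))) (b (a (l 16743032) (l 16754816)) (b (a (l 16747088) (l 16759104)) (a (l 16760232) (l 16767176)))))) (b (a (b (a (l 16734152) (l 16735272)) (a (l 16739896) (l 16751856))) (b (a (l 16736640) (l 16748752)) (a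 (l 16758824) (b (l 16764320) (l 16757312))))) (b (a (a (b (l 16744368) (l 16747384)) (b (l 16746096) (l 16759760))) (a (b (l 16758568) (a (l 16761352) (l 16762504))) (b (l 16766072) (b (l 16768720) (a (l 16764592) (b (l 16765456) (a (l 16776504) (b (l 16776960) (l 147874358247))))))))) (a (b (a (l 16760888) (b (l 16762144) (l 16768976))) (a (a (l 16763368) (l 16769648)) (b (a (l 16775224) (b (l 16775976) (a (l 16776480) (b (l 16776880) (l 147874380903))))) (a (b (l 16765896) (a (l 16776864) (b (l 147874381399) (l 299808838471)))) (b (a (b (l 16777080) (l 281018361495)) (l 301419445383)) (l 4)))))) (b (a (b (l 16769672) (a (l 16770728) (b (a (l 16776480) (b (l 16776912) (l 147874380071))) (a (b (l 79154894743) (l 283702714807)) (l 4))))) (b (a (b (l 16776384) (a (l 16769064) (l 277260262919))) (b (a (l 265449110263) (l 4)) (l 4))) (a (b (a (l 289608289079) (l 4)) (l 4)) (l 4)))) (a (b (a (b (a (l 64122508759) (l 275649656695)) (a (l 288534548423) (l 4))) (l 4)) (l 4)) (l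 4)))))))), by decide +kernel⟩

def k19_pp_022_t : ∃ t, chk3 f_pp_022_t t 35 60 1 = true :=
  ⟨(b (a (b (a (l 16734072) (l 16735544)) (a (l 16741760) (l 16733608))) (b (a (l 16737976) (b (l 16738632) (l 16744104))) (a (b (l 16745152) (l 16749656)) (a (l 16729648) (l 16742608))))) (a (b (a (l 16742368) (b (l 16749960) (l 16753624))) (a (b (l 16753464) (l 16735872)) (a (l 16747568) (l 16755088)))) (b (a (b (l 16743480) (a (l 16756864) (l 16759360))) (b (a (l 16757680) (l 16760512)) (a (l 16762144) (l 16754728)))) (a (a (b (l 16760840) (l 16764960)) (b (l 16763568) (l 16757424))) (b (a (l 16756096) (l 16764640)) (a (a (l 16759832) (l 16761528)) (b (l 16768240) (a (l 16764512) (b (l 16770992) (a (l 16769752) (l 268133455863))))))))))), by decide +kernel⟩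

def k20_pp_022_t : ∃ t, chk3 f_pp_022_t t 35 122 1 = true :=
  ⟨(a (b (a (a (l 16750624) (b (l 16761408) (l 16765128))) (a (b (l 16763728) (l 16757168)) (b (l 16755840) (l 16765216)))) (a (b (a (l 16766488) (l 16758440)) (a (l 16759664) (a (l 16761616) (l 16763008)))) (b (a (l 16767720) (b (l 16768368) (a (l 16764448) (b (l 16765520) (a (l 16776664) (l 262764752103)))))) (a (b (a (l 16773944) (l 16764976)) (a (l 39963313559) (b (a (l 16776608) (l 260617269863)) (l 276723395959)))) (b (a (b (l 39963312839) (a (b (l 16776896) (l 147874361271)) (l 282092096231))) (b (l 276723394823) (l 4))) (l 4)))))) (b (a (a (b (l 16763968) (a (l 16762272) (b (l 16773272) (l 2382350743)))) (b (a (l 16761080) (l 16762736)) (b (a (l 16764456) (b (l 16776104) (a (l 16776800) (l 265985974839)))) (a (b (a (l 16765728) (l 39426439895)) (a (l 147874369367) (l 4))) (b (l 276723382151) (l 4)))))) (b (a (b (a (l 16763304) (l 16770328)) (a (b (l 16765064) (a (l 16765792) (b (l 16776872) (l 147337492215))))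 (b (a (l 16769016) (l 267059715335)) (l 276723381111)))) (b (a (b (a (l 16776352) (b (l 16776960) (l 146800620215))) (l 264375366023)) (b (l 276186509207) (l 4))) (l 4))) (a (b (a (b (a (l 257396044279) (l 4)) (l 4)) (l 4)) (l 4)) (l 4)))) (a (b (a (b (a (b (l 16764992) (a (l 16776160) (l 39426441223))) (b (a (l 16776728) (l 264375363447)) (l 276723393719))) (a (b (a (l 147874370455) (l 283165836887)) (l 4)) (l 4))) (l 4)) (l 4)) (l 4)))), by decide +kernel⟩

def k21_pp_022_t : ∃ t, chk3 f_pp_022_t t 35 123 1 = true :=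
  ⟨(a (b (a (b (a (b (l 16762440) (a (l 16763624) (l 16764984))) (b (a (l 16764496) (b (l 16765464) (a (l 16776568) (l 258469787639)))) (a (b (l 16776424) (a (l 39426439031) (l 279944614999))) (b (l 276186526199) (l 4))))) (a (b (a (l 16770704) (b (a (l 16776528) (l 147874367431)) (a (l 267596589943) (l 4)))) (a (b (a (l 39426440071) (l 278870874407)) (l 292292645255)) (l 4))) (b (a (b (l 291755762871) (l 4)) (l 4)) (l 4)))) (b (a (b (a (b (a (b (l 16776840) (l 147874362375)) (l 281555226519)) (l 295513858279)) (l 4)) (l 4)) (l 4)) (l 4))) (l 4)) (l 4)), by decide +kernel⟩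

def k22_pp_022_t : ∃ t, chk3 f_pp_022_t t 68 124 1 = true :=
  ⟨(b (a (a (b (l 16757616) (l 16765736)) (b (l 16760320) (a (l 16762456) (l 16768920)))) (b (a (l 16767992) (b (l 16769272) (a (l 16764920) (b (l 16765568) (a (l 16776488) (b (l 16776840) (a (l 16777056) (l 148411233271)))))))) (a (b (l 16769952) (a (l 16770752) (b (a (l 16776464) (b (l 16776816) (a (l 16777016) (l 276186529143)))) (a (b (l 16776960) (l 270817817831)) (l 300345707047))))) (b (a (b (l 16765928) (a (l 16776824) (b (a (l 16777040) (l 153243091255)) (l 295513873575)))) (b (a (a (l 103850965543) (l 268133463335)) (l 300882576759)) (l 4))) (a (b (a (l 284239592583) (l 4)) (l 4)) (l 4)))))) (a (b (a (b (l 16767976) (l 16772136)) (b (a (l 16764624) (b (l 16775920) (a (l 16776360) (b (l 16776744) (l 117809609479))))) (a (b (l 16765736) (a (l 16776680) (b (l 113514642135) (l 290682037751)))) (b (a (b (l 16776896) (l 269207206983)) (l 299271976935)) (a (l 316451830679) (l 4)))))) (a (b (a (l 16770456)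 (b (a (l 16776248) (b (l 16776664) (l 109219674791))) (a (b (l 16776840) (a (l 16777064) (l 311620009511))) (l 298735107287)))) (a (b (a (l 16776600) (b (l 104924707367) (l 287460813447))) (a (b (a (l 16777048) (l 302493204071)) (l 313767483335)) (l 4))) (b (a (l 316988702983) (l 4)) (l 4)))) (b (a (b (a (b (a (l 16777088) (l 318062460535)) (l 314841223847)) (l 4)) (l 4)) (l 4)) (l 4)))) (b (a (b (a (b (a (l 16776752) (b (a (l 16776992) (l 269207207303)) (l 292829520215))) (a (b (l 273502174295) (l 315914964423)) (l 4))) (l 4)) (l 4)) (l 4)) (l 4)))), by decide +kernel⟩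

def k23_pp_022_t : ∃ t, chk3 f_pp_022_t t 69 124 1 = true :=
  ⟨(b (a (b (a (b (a (l 16770792) (b (a (l 16776480) (b (l 16776856) (l 147874371303))) (a (b (l 16777040) (l 277797137271)) (l 301419446519)))) (a (b (a (l 16776848) (b (a (l 16777072) (l 148411232663)) (l 297661356023))) (a (l 285850201495) (l 4))) (l 4))) (b (a (b (a (l 287460807799) (l 4)) (l 4)) (l 4)) (l 4))) (l 4)) (l 4)) (l 4)), by decide +kernel⟩

def k24_pp_022_t : ∃ t, chk3 f_pp_022_t t 34 125 1 = true :=
  ⟨(l 4), by decide +kernel⟩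

def k25_pp_022_t : ∃ t, chk3 f_pp_022_t t 35 62 1 = true :=
  ⟨(l 4), by decide +kernel⟩

def k26_pp_022_t : ∃ t, chk3 f_pp_022_t t 17 63 1 = true :=
  ⟨(l 4), by decide +kernel⟩

def k27_pp_022_t : ∃ t, chk3 f_pp_022_t t 18 28 1 = true :=
  ⟨(a (b (a (b (l 16480984) (l 16522552)) (b (l 16490344) (l 16532520))) (a (b (a (l 16561208) (l 16564912)) (a (l 16599944) (l 16604048))) (b (a (l 16570344) (l 16576880)) (a (l 16609848) (l 16616696))))) (b (a (b (l 16504640) (l 16526280)) (b (l 16523288) (a (l 16561072) (l 16571504)))) (a (b (a (l 16584496) (l 16593128)) (a (l 16624584) (l 16633432))) (b (a (l 16602736) (l 16613272)) (a (l 16643208) (l 16653856)))))), by decide +kernel⟩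

def k28_pp_022_t : ∃ t, chk3 f_pp_022_t t 36 29 1 = true :=
  ⟨(b (a (b (a (l 16637216) (l 16641776)) (a (l 16671416) (b (l 16668200) (l 16684472)))) (b (a (l 16647968) (b (l 16645736) (l 16664472))) (a (b (l 16674728) (l 16691232)) (b (l 16682224) (l 16698936))))) (b (a (a (b (l 16694312) (l 16708408)) (b (l 16699760) (l 16714144))) (a (b (l 16706768) (l 16700448)) (b (l 16714688) (a (l 16727456) (l 16731752))))) (a (a (b (l 16721672) (l 16723704)) (b (l 16717232) (a (l 16738776) (l 16742448)))) (a (b (a (l 16733304) (l 16737288)) (a (l 16735872) (l 16740000))) (b (a (l 16741496) (l 16724936)) (a (b (l 16751552) (l 16758056)) (a (l 16747720) (l 16750040)))))))), by decide +kernel⟩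

def k29_pp_022_t : ∃ t, chk3 f_pp_022_t t 37 29 1 = true :=
  ⟨(b (b (a (a (b (l 16653840) (l 16672736)) (b (l 16662872) (l 16681904))) (a (b (l 16672792) (l 16691928)) (b (l 16683552) (l 16702760)))) (a (a (b (l 16690656) (l 16707544)) (b (l 16699968) (l 16717008))) (a (b (l 16710104) (l 16706304)) (b (l 16721024) (l 16717320))))) (b (a (a (b (l 16702520) (b (l 16734888) (l 16742232))) (b (l 16712152) (b (l 16744648) (l 16731112)))) (b (a (l 16727792) (a (l 16730832) (l 16736560))) (a (a (l 16735264) (l 16740712)) (a (l 16756816) (b (l 16748304) (b (l 16753816) (l 121030790743))))))) (a (b (a (a (l 16740032) (l 16744848)) (a (l 16749840) (l 16755024))) (a (b (a (l 16760760) (l 16744680)) (a (l 16746416) (l 43184531735))) (b (a (l 16749752) (b (l 16763704) (a (l 16765672) (l 230015617895)))) (a (b (a (l 16753528) (l 42647657239)) (a (b (l 16766296) (l 125862642439)) (l 4))) (b (l 258469760583) (l 4)))))) (b (a (b (a (l 16746304) (l 16762208)) (a (a (l 16752072) (b (l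 16753040) (l 124788904551))) (b (a (l 16765976) (l 122104535639)) (l 258469758391)))) (b (a (b (b (l 16754536) (l 122641418135)) (l 226794385623)) (l 4)) (l 4))) (a (b (a (b (a (l 124788898167) (l 4)) (l 4)) (l 4)) (l 4)) (l 4)))))), by decide +kernel⟩

def k30_pp_022_t : ∃ t, chk3 f_pp_022_t t 19 14 1 = true :=
  ⟨(b (a (b (a (b (l 16546080) (a (l 16582864) (l 16595104))) (b (a (l 16565120) (l 16578456)) (a (l 16608232) (l 16621864)))) (a (b (a (l 16624680) (l 16636920)) (a (l 16644360) (l 16656616))) (b (a (l 16649960) (l 16663792)) (a (l 16669616) (l 16683312))))) (b (a (b (l 16598344) (l 16600656)) (b (l 16625632) (l 16649896))) (b (a (b (l 16674680) (l 16674376)) (l 16672448)) (a (a (l 16697720) (l 16691416)) (b (l 16724904) (a (l 16737552) (b (l 16747848) (l 105461515767)))))))) (a (b (b (a (a (b (l 16695088) (l 16714352)) (b (l 16707368) (l 16726656))) (a (b (l 16720352) (l 16718656)) (a (l 16719232) (l 16726200)))) (a (b (a (l 16732672) (l 16724032)) (a (l 16729032)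 (l 16741408))) (b (a (l 16737008) (b (l 16746072) (a (l 16751376) (l 111903976359)))) (a (b (b (l 16747976) (l 16762352)) (a (l 47479481623) (l 247732341959))) (b (a (l 112440836919) (l 4)) (l 4)))))) (b (a (b (a (b (l 16741440) (a (l 16767408) (l 16762760))) (b (a (l 16750632) (a (l 16754824) (l 115662077767))) (a (b (l 16759936) (l 251490442359)) (l 4)))) (a (b (a (b (l 16752272) (l 45332003975)) (l 221425672519)) (a (l 252564175015) (l 4))) (l 4))) (b (a (b (l 254174765975) (l 4)) (l 4)) (l 4))) (l 4))) (b (b (a (b (a (l 16727272) (l 16742008)) (a (b (l 16741736) (l 50700707767)) (b (b (l 16753144) (l 108682744215)) (l 214983203479)))) (b (a (b (l 16751424) (l 106535237639)) (l 248806046583)) (l 4))) (a (b (a (b (a (l 16754808) (l 139284368695)) (l 4)) (l 4)) (l 4)) (l 4))) (l 4)))), by decide +kernel⟩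

def k31_pp_022_t : ∃ t, chk3 f_pp_022_t t 36 120 1 = true :=
  ⟨(a (a (b (a (l 16744752) (l 16737024)) (a (b (l 16753120) (l 16758480)) (b (l 16756112) (l 16761640)))) (b (a (b (l 16747912) (l 16753824)) (b (l 16751712) (l 16757696))) (a (b (l 16759592) (l 16760000)) (b (l 16753072) (a (l 16757768) (l 16759856)))))) (b (a (b (a (l 16755736) (l 16759968)) (a (l 16751320) (l 16755632))) (b (a (l 16753928) (l 16758560)) (a (l 16765384) (b (l 16768520) (a (l 16770384) (b (l 131231372359) (l 243974260407))))))) (a (b (a (l 16762504) (b (l 16760160) (l 16768376))) (a (b (l 16761632) (a (l 16763424) (b (l 16764904) (a (l 16776264) (l 140358171735))))) (b (a (l 16770168) (b (a (l 16776384) (l 136600073991)) (l 248269230327))) (a (b (a (l 16771720) (l 252027329031)) (l 4)) (l 4))))) (b (a (b (a (l 16753080) (b (l 16765128) (a (l 16776512) (l 133378847351)))) (a (b (l 16771008) (a (l 16769208) (l 250953585847))) (l 248269221959))) (b (a (b (l 235921204311) (l 4)) (l 4)) (l 4)))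 (l 4))))), by decide +kernel⟩

def k32_pp_022_t : ∃ t, chk3 f_pp_022_t t 36 121 1 = true :=
  ⟨(a (b (a (b (a (l 16763624) (l 16761768)) (a (l 16763328) (a (l 16760808) (l 16767952)))) (b (a (a (l 16759312) (l 16766536)) (a (b (l 16772472) (l 16769992)) (b (l 16764104) (b (a (l 16776152) (l 143579398535)) (l 252564206871))))) (a (b (a (l 16763360) (b (l 16764728) (a (l 16765560) (l 41037055815)))) (a (b (l 16765352) (a (l 16776632) (l 254711687783))) (b (a (l 146800631719) (l 4)) (l 4)))) (b (a (b (a (l 16776736) (l 254711686375)) (l 263838482583)) (l 4)) (l 4))))) (a (b (a (b (l 16761760) (a (l 16763312) (l 40500186215))) (b (a (l 16764624) (b (l 40500185367) (a (l 147337493319) (l 269207195239)))) (a (b (a (l 16776528) (l 146800617863)) (l 264375355767)) (l 4)))) (a (b (a (b (l 16765184) (a (l 16776440) (l 147337500375))) (b (a (l 39963312135) (l 268670325527)) (l 4))) (a (b (l 264912238327) (l 4)) (l 4))) (l 4))) (b (a (b (a (b (l 264375354631) (l 4)) (l 4)) (l 4))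 (l 4)) (l 4)))) (b (a (b (a (b (a (b (l 16770784) (a (l 16771600) (l 253637943143))) (b (l 250416720567) (l 4))) (a (l 270280924871) (l 4))) (l 4)) (l 4)) (l 4)) (l 4))), by decide +kernel⟩

def k33_pp_022_t : ∃ t, chk3 f_pp_022_t t 37 60 1 = true :=
  ⟨(b (a (b (a (b (a (b (l 16751296) (a (l 16753272) (b (l 16775880) (l 128547006119)))) (b (a (l 16765392) (l 230552491591)) (a (l 236994936599) (l 4)))) (a (b (a (b (l 16766016) (l 233773719223)) (l 262227863351)) (l 4)) (l 4))) (l 4)) (l 4)) (l 4)) (l 4)), by decide +kernel⟩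

def k34_pp_022_t : ∃ t, chk3 f_pp_022_t t 18 61 1 = true :=
  ⟨(l 4), by decide +kernel⟩

def k35_pp_022_t : ∃ t, chk3 f_pp_022_t t 18 31 1 = true :=
  ⟨(l 4), by decide +kernel⟩

def k36_pp_022_t : ∃ t, chk3 f_pp_022_t t 19 15 1 = true :=
  ⟨(l 4), by decide +kernel⟩

def k37_pp_022_t : ∃ t, chk3 f_pp_022_t t 10 6 1 = true :=
  ⟨(b (a (b (a (b (l 15764368) (l 15897984)) (b (l 15807472) (l 15944792))) (a (b (a (l 16016632) (l 16038712)) (a (l 16140408) (l 16164360))) (b (l 16035808) (a (l 16191392) (l 16221424))))) (b (a (b (l 15863280) (l 16004008)) (b (l 15931080) (l 16074920))) (a (b (l 16119344) (a (l 16254368) (l 16290144))) (b (l 16172352) (a (l 16328656) (l 16369824)))))) (a (b (a (b (a (l 16259280) (l 16285072)) (a (l 16372904) (l 16400528))) (b (a (l 16313880) (l 16345624)) (b (l 16418504) (l 16455192)))) (b (a (a (b (l 16454496) (l 16507048)) (b (l 16483496) (l 16536960))) (a (l 16479792) (l 16514928))) (a (a (b (l 16558080) (l 16607552)) (b (l 16588904) (l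 16639288))) (a (b (l 16622560) (l 16673824)) (a (l 16612800) (l 16631880)))))) (b (b (a (a (l 16380216) (l 16417560)) (a (l 16457576) (l 16500176))) (a (b (l 16490120) (l 16507472)) (a (l 16539256) (l 16562320)))) (a (b (a (l 16531808) (l 16572288)) (b (a (l 16677088) (l 36741918151)) (a (a (l 16719808) (l 67343631447)) (b (a (l 16746304) (l 16763016)) (l 123178176231))))) (b (b (a (l 16670312) (l 16694456)) (a (l 16685888) (b (l 16715192) (l 87744745447)))) (b (a (b (l 70028002823) (l 88818464967)) (l 4)) (l 4))))))), by decide +kernel⟩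

def k38_pp_022_t : ∃ t, chk3 f_pp_022_t t 11 6 1 = true :=
  ⟨(b (a (b (a (b (l 16010176) (l 16156824)) (b (l 16099840) (l 16207064))) (a (b (a (l 16276800) (l 16321696)) (a (l 16413544) (l 16459744))) (b (l 16267824) (b (l 16499072) (l 16546808))))) (b (a (b (l 16199352) (l 16266864)) (b (l 16287016) (l 16356464))) (a (b (a (l 16470736) (l 16524904)) (a (l 16570352) (l 16604576))) (b (b (l 16552440) (l 16583712)) (a (b (l 16689384) (l 80228467847)) (b (l 16680888) (l 16714816))))))) (a (b (a (b (a (l 16545272) (l 16550832)) (a (l 16587816) (b (l 16689168) (b (l 16715208) (l 16720440))))) (b (a (l 16579680) (b (l 16661352) (l 16685416))) (a (b (l 16675416) (b (l 16726592) (l 16749328))) (b (a (l 16727032) (l 16737984)) (l 4))))) (b (a (b (a (b (l 16705472) (l 72712367511)) (l 116735722695)) (a (l 118883182823) (l 4))) (l 4)) (l 4))) (b (b (a (b (a (l 16694304) (b (l 16730808) (l 16748104))) (a (b (l 16739552) (l 16742976)) (l 16722808))) (a (l 178475905335) (l 4))) (l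 4)) (l 4)))), by decide +kernel⟩

def k39_pp_022_t : ∃ t, chk3 f_pp_022_t t 5 7 1 = true :=
  ⟨(b (b (a (a (b (a (b (a (l 16655408) (l 16667080)) (a (l 16659656) (l 16693216))) (a (b (l 16681536) (b (b (l 16732696) (l 16732816)) (a (l 16750192) (l 129620662839)))) (a (b (l 16709416) (l 226794366087)) (b (a (l 64659303559) (l 94187206407)) (l 4))))) (a (b (a (b (l 16714152) (a (l 16748680) (l 16743848))) (b (a (l 16739480) (l 100092797255)) (a (l 101166523095) (l 4)))) (a (b (a (l 54458787111) (l 102240247143)) (a (l 240753000503) (l 4))) (l 4))) (b (a (b (l 237531741623) (l 4)) (l 4)) (l 4)))) (b (a (b (a (b (a (l 16752280) (l 16751728)) (l 4)) (l 4)) (l 4)) (l 4)) (l 4))) (l 4)) (l 4)) (l 4)), by decide +kernel⟩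

def k40_pp_022_t : ∃ t, chk3 f_pp_022_t t 6 4 1 = true :=
  ⟨(a (b (a (l 6) (b (l 6) (a (l 6) (b (l 6) (l 14404600))))) (a (b (a (l 6) (b (l 6) (l 14571448))) (a (b (l 14660104) (l 14852192)) (b (l 14768760) (l 14962872)))) (b (a (b (l 14486272) (l 14688632)) (b (l 14611848) (l 14815720))) (a (b (l 14887712) (l 15083448)) (b (l 15016168) (l 15213136)))))) (a (b (b (a (l 6) (b (l 6) (l 14251776))) (a (b (l 14326440) (l 14538448)) (l 14532816))) (b (a (l 14828336) (l 14972464)) (a (b (l 15153328) (l 15351136)) (l 15313488)))) (a (b (a (b (l 14252600) (l 14687104)) (l 2)) (b (l 15145248) (l 15465624))) (l 2)))), by decide +kernel⟩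

def k41_pp_022_t : ∃ t, chk3 f_pp_022_t t 6 5 1 = true :=
  ⟨(a (b (a (b (a (b (l 15041128) (l 15226800)) (b (l 15153688) (l 15341120))) (a (b (l 15409104) (l 15587912)) (b (l 15525080) (l 15705464)))) (b (a (b (l 15275760) (l 15464592)) (b (l 15406568) (l 15596416))) (a (b (l 15649848) (l 15831456)) (b (l 15782624) (l 15965112))))) (a (b (a (b (l 15763104) (l 15934552)) (b (l 15882160) (l 16055056))) (a (b (l 16102120) (l 16265656)) (b (l 16224024) (l 16347000)))) (b (a (b (l 16009320) (l 16183336)) (b (l 16143816) (l 16318640))) (b (a (l 16353408) (l 16426592)) (a (l 16435520) (a (l 16600456) (l 16584392))))))) (b (a (b (a (b (l 15545312) (l 15735816)) (b (l 15691184) (l 15881984))) (a (b (l 15922616) (l 16105648)) (b (l 16069032) (l 16252272)))) (b (a (b (l 15843368) (l 16034112)) (l 87608756327)) (a (b (l 16221056) (l 16404184)) (a (l 16303552) (l 2))))) (a (b (a (b (l 16284864) (l 16418240)) (b (l 16410704) (l 16502328))) (a (b (b (l 16568208) (a (l 16637728) (l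 16709712))) (a (b (l 16677960) (l 16766496)) (b (l 16746328) (l 4)))) (b (b (a (l 16678032) (l 16736192)) (a (l 16741872) (l 4))) (l 4)))) (b (a (b (l 16499576) (b (a (l 16677080) (l 16723344)) (a (l 16729992) (l 16762784)))) (b (a (b (l 16655728) (l 16737280)) (b (l 16729912) (l 16766160))) (l 100629585559))) (a (b (l 97945215223) (l 4)) (l 4)))))), by decide +kernel⟩

def k42_pp_022_t : ∃ t, chk3 f_pp_022_t t 7 2 1 = true :=
  ⟨(b (l 2) (b (l 2) (b (l 2) (l 4)))), by decide +kernel⟩

def k43_pp_022_t : ∃ t, chk3 f_pp_022_t t 3 3 1 = true :=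
  ⟨(b (b (a (a (a (b (a (b (l 16341120) (l 16454160)) (b (l 16444800) (a (l 16589800) (b (l 16678904) (l 16719568))))) (a (b (b (l 16587816) (a (l 16671208) (l 16734032))) (a (b (l 16719736) (l 4)) (l 4))) (b (a (b (l 16725368) (l 4)) (l 4)) (l 4)))) (b (a (b (a (l 16605696) (b (l 16675016) (l 16704984))) (a (b (l 16712648) (l 16754112)) (l 104387683495))) (b (b (a (l 16696616) (l 16764552)) (l 101166474839)) (l 4))) (l 4))) (l 4)) (l 4)) (l 4)) (l 4)), by decide +kernel⟩

theorem s44_pp_022_t : ∃ t, chk3 f_pp_022_t t 6 2 1 = true := ex3_b k40_pp_022_t k41_pp_022_t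

theorem s45_pp_022_t : ∃ t, chk3 f_pp_022_t t 3 2 1 = true := ex3_a s44_pp_022_t k42_pp_022_t

theorem s46_pp_022_t : ∃ t, chk3 f_pp_022_t t 3 1 1 = true := ex3_b s45_pp_022_t k43_pp_022_t

theorem s47_pp_022_t : ∃ t, chk3 f_pp_022_t t 5 6 1 = true := ex3_a k37_pp_022_t k38_pp_022_t

theorem s48_pp_022_t : ∃ t, chk3 f_pp_022_t t 5 3 1 = true := ex3_b s47_pp_022_t k39_pp_022_t

theorem s49_pp_022_t : ∃ t, chk3 f_pp_022_t t 36 60 1 = true := ex3_b k31_pp_022_t k32_pp_022_t

theorem s50_pp_022_t : ∃ t, chk3 f_pp_022_t t 18 60 1 = true := ex3_a s49_pp_022_t k33_pp_022_t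

theorem s51_pp_022_t : ∃ t, chk3 f_pp_022_t t 18 30 1 = true := ex3_b s50_pp_022_t k34_pp_022_t

theorem s52_pp_022_t : ∃ t, chk3 f_pp_022_t t 18 15 1 = true := ex3_b s51_pp_022_t k35_pp_022_t

theorem s53_pp_022_t : ∃ t, chk3 f_pp_022_t t 9 15 1 = true := ex3_a s52_pp_022_t k36_pp_022_t

theorem s54_pp_022_t : ∃ t, chk3 f_pp_022_t t 18 29 1 = true := ex3_a k28_pp_022_t k29_pp_022_t

theorem s55_pp_022_t : ∃ t, chk3 f_pp_022_t t 18 14 1 = true := ex3_b k27_pp_022_t s54_pp_022_t

theorem s56_pp_022_t : ∃ t, chk3 f_pp_022_t t 9 14 1 = true := ex3_a s55_pp_022_t k30_pp_022_t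

theorem s57_pp_022_t : ∃ t, chk3 f_pp_022_t t 9 7 1 = true := ex3_b s56_pp_022_t s53_pp_022_t

theorem s58_pp_022_t : ∃ t, chk3 f_pp_022_t t 34 124 1 = true := ex3_a k22_pp_022_t k23_pp_022_t

theorem s59_pp_022_t : ∃ t, chk3 f_pp_022_t t 34 62 1 = true := ex3_b s58_pp_022_t k24_pp_022_t

theorem s60_pp_022_t : ∃ t, chk3 f_pp_022_t t 17 62 1 = true := ex3_a s59_pp_022_t k25_pp_022_t

theorem s61_pp_022_t : ∃ t, chk3 f_pp_022_t t 17 31 1 = true := ex3_b s60_pp_022_t k26_pp_022_t

theorem s62_pp_022_t : ∃ t, chk3 f_pp_022_t t 35 61 1 = true := ex3_b k20_pp_022_t k21_pp_022_t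

theorem s63_pp_022_t : ∃ t, chk3 f_pp_022_t t 35 30 1 = true := ex3_b k19_pp_022_t s62_pp_022_t

theorem s64_pp_022_t : ∃ t, chk3 f_pp_022_t t 17 30 1 = true := ex3_a k18_pp_022_t s63_pp_022_t

theorem s65_pp_022_t : ∃ t, chk3 f_pp_022_t t 17 15 1 = true := ex3_b s64_pp_022_t s61_pp_022_t

theorem s66_pp_022_t : ∃ t, chk3 f_pp_022_t t 132 252 1 = true := ex3_b k12_pp_022_t k13_pp_022_t

theorem s67_pp_022_t : ∃ t, chk3 f_pp_022_t t 66 252 1 = true := ex3_a s66_pp_022_t k14_pp_022_t

theorem s68_pp_022_t : ∃ t, chk3 f_pp_022_t t 66 126 1 = true := ex3_b s67_pp_022_t k15_pp_022_t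

theorem s69_pp_022_t : ∃ t, chk3 f_pp_022_t t 33 126 1 = true := ex3_a s68_pp_022_t k16_pp_022_t

theorem s70_pp_022_t : ∃ t, chk3 f_pp_022_t t 33 63 1 = true := ex3_b s69_pp_022_t k17_pp_022_t

theorem s71_pp_022_t : ∃ t, chk3 f_pp_022_t t 67 125 1 = true := ex3_b k10_pp_022_t k11_pp_022_t

theorem s72_pp_022_t : ∃ t, chk3 f_pp_022_t t 67 62 1 = true := ex3_b k9_pp_022_t s71_pp_022_t

theorem s73_pp_022_t : ∃ t, chk3 f_pp_022_t t 33 62 1 = true := ex3_a k8_pp_022_t s72_pp_022_t

theorem s74_pp_022_t : ∃ t, chk3 f_pp_022_t t 33 31 1 = true := ex3_b s73_pp_022_t s70_pp_022_t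

theorem s75_pp_022_t : ∃ t, chk3 f_pp_022_t t 32 63 1 = true := ex3_a k6_pp_022_t k7_pp_022_t

theorem s76_pp_022_t : ∃ t, chk3 f_pp_022_t t 32 31 1 = true := ex3_b k5_pp_022_t s75_pp_022_t

theorem s77_pp_022_t : ∃ t, chk3 f_pp_022_t t 16 31 1 = true := ex3_a s76_pp_022_t s74_pp_022_t

theorem s78_pp_022_t : ∃ t, chk3 f_pp_022_t t 16 15 1 = true := ex3_b k4_pp_022_t s77_pp_022_t

theorem s79_pp_022_t : ∃ t, chk3 f_pp_022_t t 8 15 1 = true := ex3_a s78_pp_022_t s65_pp_022_t

theorem s80_pp_022_t : ∃ t, chk3 f_pp_022_t t 8 7 1 = true := ex3_b k3_pp_022_t s79_pp_022_t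

theorem s81_pp_022_t : ∃ t, chk3 f_pp_022_t t 4 7 1 = true := ex3_a s80_pp_022_t s57_pp_022_t

theorem s82_pp_022_t : ∃ t, chk3 f_pp_022_t t 4 6 1 = true := ex3_a k1_pp_022_t k2_pp_022_t

theorem s83_pp_022_t : ∃ t, chk3 f_pp_022_t t 4 3 1 = true := ex3_b s82_pp_022_t s81_pp_022_t

theorem s84_pp_022_t : ∃ t, chk3 f_pp_022_t t 2 3 1 = true := ex3_a s83_pp_022_t s48_pp_022_t

theorem s85_pp_022_t : ∃ t, chk3 f_pp_022_t t 2 1 1 = true := ex3_b k0_pp_022_t s84_pp_022_t

theorem s86_pp_022_t : ∃ t, chk3 f_pp_022_t t 1 1 1 = true := ex3_a s85_pp_022_t s46_pp_022_t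

theorem c_pp_022_t : CertNE 0 536870912 0 536870912 1040187392 5207648 3 eng mog cd0q0 cd0q2 pd2 true true true .pp 0 2 2
    ndB0q0 ndB0q2 pcB2 cut_pp_022_t Ext.none :=
  certNE0 (fam := true) (s1 := true) (s2 := true) (a := 0) (b := 2) (c := 2) (cn := .pp) (n1 := ndB0q0) (n2 := ndB0q2) (pc := pcB2) (cut := cut_pp_022_t) (xt := Ext.none) (P1 := 0) (W1 := 536870912) (P2 := 0) (W2 := 536870912) (P3 := 1040187392) (W3 := 5207648) (N0 := 3) (En := eng) (mo := mog) (C1 := cd0q0) (C2 := cd0q2) (C3 := pd2)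
    rfl s86_pp_022_t

noncomputable def cut_pp_023_s : Cut := Cut.of [[⟨4, 0, 0, 1449551462⟩]]

noncomputable def f_pp_023_s : ℕ → ℕ → ℕ → ℕ → Bool := onCell 0 536870912 0 536870912 1040187392 5207648
    (rowNE 3 eng mog cd0q0 cd0q2 pd3 0 true true true .up 0 2 3 (qsf 0 536870912 0 536870912 3) ndB0q0 ndB0q2 pcB3 cut_pp_023_s Ext.none)

def k0_pp_023_s : ∃ t, chk3 f_pp_023_s t 1 1 1 = true :=
  ⟨(l 6), by decide +kernel⟩

theorem c_pp_023_s : CertNE 0 536870912 0 536870912 1040187392 5207648 3 eng mog cd0q0 cd0q2 pd3 true true true .up 0 2 3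
    ndB0q0 ndB0q2 pcB3 cut_pp_023_s Ext.none :=
  certNE0 (fam := true) (s1 := true) (s2 := true) (a := 0) (b := 2) (c := 3) (cn := .up) (n1 := ndB0q0) (n2 := ndB0q2) (pc := pcB3) (cut := cut_pp_023_s) (xt := Ext.none) (P1 := 0) (W1 := 536870912) (P2 := 0) (W2 := 536870912) (P3 := 1040187392) (W3 := 5207648) (N0 := 3) (En := eng) (mo := mog) (C1 := cd0q0) (C2 := cd0q2) (C3 := pd3)
    rfl k0_pp_023_s

noncomputable def cut_pp_023_t : Cut := Cut.of [[⟨3, 0, 0, 2845415833⟩]]

noncomputable def f_pp_023_t : ℕ → ℕ → ℕ → ℕ → Bool := onCell 1610612736 536870912 0 536870912 1040187392 5207648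
    (rowNE 3 eng mog cd0q0 cd0q2 pd3 2 true true true .up 0 2 3 (qsf 0 536870912 0 536870912 3) ndB0q0 ndB0q2 pcB3 cut_pp_023_t Ext.none)

def k0_pp_023_t : ∃ t, chk3 f_pp_023_t t 1 1 1 = true :=
  ⟨(a (b (a (a (b (a (b (l 16434536) (l 16542848)) (b (l 16506920) (l 16566616))) (b (a (b (l 16647416) (a (l 16727152) (l 16753384))) (b (l 16728240) (a (l 16708416) (l 16678448)))) (a (b (a (l 97945169303) (l 4)) (l 4)) (l 4)))) (b (a (b (l 16570624) (l 16667424)) (b (l 16627872) (b (l 16712376) (l 88281530647)))) (b (a (a (l 99018843543) (l 167201630695)) (b (l 4) (l 4))) (l 4)))) (a (b (a (b (l 16680888) (b (l 74859746247) (l 107071960983))) (b (l 2) (l 2))) (l 4)) (l 2))) (l 4)) (l 2)), by decide +kernel⟩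

theorem c_pp_023_t : CertNE 0 536870912 0 536870912 1040187392 5207648 3 eng mog cd0q0 cd0q2 pd3 true true true .up 0 2 3
    ndB0q0 ndB0q2 pcB3 cut_pp_023_t Ext.none :=
  certNE2 (fam := true) (s1 := true) (s2 := true) (a := 0) (b := 2) (c := 3) (cn := .up) (n1 := ndB0q0) (n2 := ndB0q2) (pc := pcB3) (cut := cut_pp_023_t) (xt := Ext.none) (P1 := 0) (W1 := 536870912) (P2 := 0) (W2 := 536870912) (P3 := 1040187392) (W3 := 5207648) (N0 := 3) (En := eng) (mo := mog) (C1 := cd0q0) (C2 := cd0q2) (C3 := pd3)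
    rfl (fun _ => rfl) k0_pp_023_t

noncomputable def cut_pp_101_s : Cut := Cut.of [[⟨4, 0, 0, 1449551462⟩]]

noncomputable def f_pp_101_s : ℕ → ℕ → ℕ → ℕ → Bool := onCell 536870912 536870912 0 536870912 1040187392 5207648
    (rowNE 3 eng mog cd0q1 cd0q0 pd1 0 true true true .npn 1 0 1 (qsf 536870912 536870912 0 536870912 1) ndB0q1 ndB0q0 pcB1 cut_pp_101_s Ext.none)

def k0_pp_101_s : ∃ t, chk3 f_pp_101_s t 1 1 1 = true :=
  ⟨(l 6), by decide +kernel⟩

theorem c_pp_101_s : CertNE 536870912 536870912 0 536870912 1040187392 5207648 3 eng mog cd0q1 cd0q0 pd1 true true true .npn 1 0 1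
    ndB0q1 ndB0q0 pcB1 cut_pp_101_s Ext.none :=
  certNE0 (fam := true) (s1 := true) (s2 := true) (a := 1) (b := 0) (c := 1) (cn := .npn) (n1 := ndB0q1) (n2 := ndB0q0) (pc := pcB1) (cut := cut_pp_101_s) (xt := Ext.none) (P1 := 536870912) (W1 := 536870912) (P2 := 0) (W2 := 536870912) (P3 := 1040187392) (W3 := 5207648) (N0 := 3) (En := eng) (mo := mog) (C1 := cd0q1) (C2 := cd0q0) (C3 := pd1)
    rfl k0_pp_101_s

noncomputable def cut_pp_101_t : Cut := Cut.of [[⟨3, 0, 0, 2845415833⟩]]

noncomputable def f_pp_101_t : ℕ → ℕ → ℕ → ℕ → Bool := onCell 536870912 536870912 0 536870912 1040187392 5207648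
    (rowNE 3 eng mog cd0q1 cd0q0 pd1 0 true true true .npn 1 0 1 (qsf 536870912 536870912 0 536870912 1) ndB0q1 ndB0q0 pcB1 cut_pp_101_t Ext.none)

def k0_pp_101_t : ∃ t, chk3 f_pp_101_t t 1 1 1 = true :=
  ⟨(a (l 4) (l 5)), by decide +kernel⟩

theorem c_pp_101_t : CertNE 536870912 536870912 0 536870912 1040187392 5207648 3 eng mog cd0q1 cd0q0 pd1 true true true .npn 1 0 1
    ndB0q1 ndB0q0 pcB1 cut_pp_101_t Ext.none :=
  certNE0 (fam := true) (s1 := true) (s2 := true) (a := 1) (b := 0) (c := 1) (cn := .npn) (n1 := ndB0q1) (n2 := ndB0q0) (pc := pcB1) (cut := cut_pp_101_t) (xt := Ext.none) (P1 := 536870912) (W1 := 536870912) (P2 := 0) (W2 := 536870912) (P3 := 1040187392) (W3 := 5207648) (N0 := 3) (En := eng) (mo := mog) (C1 := cd0q1) (C2 := cd0q0) (C3 := pd1)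
    rfl k0_pp_101_t

noncomputable def cut_pp_102_s : Cut := Cut.of [[⟨4, 0, 0, 1449551462⟩]]

noncomputable def f_pp_102_s : ℕ → ℕ → ℕ → ℕ → Bool := onCell 536870912 536870912 0 536870912 1040187392 5207648
    (rowNE 3 eng mog cd0q1 cd0q0 pd2 0 true true true .npp 1 0 2 (qsf 536870912 536870912 0 536870912 2) ndB0q1 ndB0q0 pcB2 cut_pp_102_s Ext.none)

def k0_pp_102_s : ∃ t, chk3 f_pp_102_s t 1 1 1 = true :=
  ⟨(l 6), by decide +kernel⟩

theorem c_pp_102_s : CertNE 536870912 536870912 0 536870912 1040187392 5207648 3 eng mog cd0q1 cd0q0 pd2 true true true .npp 1 0 2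
    ndB0q1 ndB0q0 pcB2 cut_pp_102_s Ext.none :=
  certNE0 (fam := true) (s1 := true) (s2 := true) (a := 1) (b := 0) (c := 2) (cn := .npp) (n1 := ndB0q1) (n2 := ndB0q0) (pc := pcB2) (cut := cut_pp_102_s) (xt := Ext.none) (P1 := 536870912) (W1 := 536870912) (P2 := 0) (W2 := 536870912) (P3 := 1040187392) (W3 := 5207648) (N0 := 3) (En := eng) (mo := mog) (C1 := cd0q1) (C2 := cd0q0) (C3 := pd2)
    rfl k0_pp_102_s

noncomputable def cut_pp_102_t : Cut := Cut.of [[⟨3, 0, 0, 2845415833⟩]]

noncomputable def f_pp_102_t : ℕ → ℕ → ℕ → ℕ → Bool := onCell 536870912 536870912 0 536870912 1040187392 5207648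
    (rowNE 3 eng mog cd0q1 cd0q0 pd2 0 true true true .npp 1 0 2 (qsf 536870912 536870912 0 536870912 2) ndB0q1 ndB0q0 pcB2 cut_pp_102_t Ext.none)

def k0_pp_102_t : ∃ t, chk3 f_pp_102_t t 1 1 1 = true :=
  ⟨(a (l 4) (l 5)), by decide +kernel⟩

theorem c_pp_102_t : CertNE 536870912 536870912 0 536870912 1040187392 5207648 3 eng mog cd0q1 cd0q0 pd2 true true true .npp 1 0 2
    ndB0q1 ndB0q0 pcB2 cut_pp_102_t Ext.none :=
  certNE0 (fam := true) (s1 := true) (s2 := true) (a := 1) (b := 0) (c := 2) (cn := .npp) (n1 := ndB0q1) (n2 := ndB0q0) (pc := pcB2) (cut := cut_pp_102_t) (xt := Ext.none) (P1 := 536870912) (W1 := 536870912) (P2 := 0) (W2 := 536870912) (P3 := 1040187392) (W3 := 5207648) (N0 := 3) (En := eng) (mo := mog) (C1 := cd0q1) (C2 := cd0q0) (C3 := pd2)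
    rfl k0_pp_102_t

noncomputable def cut_pp_112_s : Cut := Cut.of [[⟨4, 0, 0, 1449551462⟩]]

noncomputable def f_pp_112_s : ℕ → ℕ → ℕ → ℕ → Bool := onCell 536870912 536870912 536870912 536870912 1040187392 5207648
    (rowNE 3 eng mog cd0q1 cd0q1 pd2 0 true true true .dn 1 1 2 (qsf 536870912 536870912 536870912 536870912 2) ndB0q1 ndB0q1 pcB2 cut_pp_112_s Ext.none)

def k0_pp_112_s : ∃ t, chk3 f_pp_112_s t 1 1 1 = true :=
  ⟨(l 4), by decide +kernel⟩

theorem c_pp_112_s : CertNE 536870912 536870912 536870912 536870912 1040187392 5207648 3 eng mog cd0q1 cd0q1 pd2 true true true .dn 1 1 2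
    ndB0q1 ndB0q1 pcB2 cut_pp_112_s Ext.none :=
  certNE0 (fam := true) (s1 := true) (s2 := true) (a := 1) (b := 1) (c := 2) (cn := .dn) (n1 := ndB0q1) (n2 := ndB0q1) (pc := pcB2) (cut := cut_pp_112_s) (xt := Ext.none) (P1 := 536870912) (W1 := 536870912) (P2 := 536870912) (W2 := 536870912) (P3 := 1040187392) (W3 := 5207648) (N0 := 3) (En := eng) (mo := mog) (C1 := cd0q1) (C2 := cd0q1) (C3 := pd2)
    rfl k0_pp_112_s

noncomputable def cut_pp_112_t : Cut := Cut.of [[⟨3, 0, 0, 2845415833⟩]]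

noncomputable def f_pp_112_t : ℕ → ℕ → ℕ → ℕ → Bool := onCell 536870912 536870912 536870912 536870912 1040187392 5207648
    (rowNE 3 eng mog cd0q1 cd0q1 pd2 0 true true true .dn 1 1 2 (qsf 536870912 536870912 536870912 536870912 2) ndB0q1 ndB0q1 pcB2 cut_pp_112_t Ext.none)

def k0_pp_112_t : ∃ t, chk3 f_pp_112_t t 1 1 1 = true :=
  ⟨(l 4), by decide +kernel⟩

theorem c_pp_112_t : CertNE 536870912 536870912 536870912 536870912 1040187392 5207648 3 eng mog cd0q1 cd0q1 pd2 true true true .dn 1 1 2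
    ndB0q1 ndB0q1 pcB2 cut_pp_112_t Ext.none :=
  certNE0 (fam := true) (s1 := true) (s2 := true) (a := 1) (b := 1) (c := 2) (cn := .dn) (n1 := ndB0q1) (n2 := ndB0q1) (pc := pcB2) (cut := cut_pp_112_t) (xt := Ext.none) (P1 := 536870912) (W1 := 536870912) (P2 := 536870912) (W2 := 536870912) (P3 := 1040187392) (W3 := 5207648) (N0 := 3) (En := eng) (mo := mog) (C1 := cd0q1) (C2 := cd0q1) (C3 := pd2)
    rfl k0_pp_112_t

noncomputable def cut_pp_113_s : Cut := Cut.of [[⟨4, 0, 0, 1449551462⟩]]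

noncomputable def f_pp_113_s : ℕ → ℕ → ℕ → ℕ → Bool := onCell 536870912 536870912 536870912 536870912 1040187392 5207648
    (rowNE 3 eng mog cd0q1 cd0q1 pd3 0 true true true .nn 1 1 3 (qsf 536870912 536870912 536870912 536870912 3) ndB0q1 ndB0q1 pcB3 cut_pp_113_s Ext.none)

def k0_pp_113_s : ∃ t, chk3 f_pp_113_s t 1 1 1 = true :=
  ⟨(l 4), by decide +kernel⟩

theorem c_pp_113_s : CertNE 536870912 536870912 536870912 536870912 1040187392 5207648 3 eng mog cd0q1 cd0q1 pd3 true true true .nn 1 1 3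
    ndB0q1 ndB0q1 pcB3 cut_pp_113_s Ext.none :=
  certNE0 (fam := true) (s1 := true) (s2 := true) (a := 1) (b := 1) (c := 3) (cn := .nn) (n1 := ndB0q1) (n2 := ndB0q1) (pc := pcB3) (cut := cut_pp_113_s) (xt := Ext.none) (P1 := 536870912) (W1 := 536870912) (P2 := 536870912) (W2 := 536870912) (P3 := 1040187392) (W3 := 5207648) (N0 := 3) (En := eng) (mo := mog) (C1 := cd0q1) (C2 := cd0q1) (C3 := pd3)
    rfl k0_pp_113_s

noncomputable def cut_pp_113_t : Cut := Cut.of [[⟨3, 0, 0, 2845415833⟩]]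

noncomputable def f_pp_113_t : ℕ → ℕ → ℕ → ℕ → Bool := onCell 536870912 536870912 536870912 536870912 1040187392 5207648
    (rowNE 3 eng mog cd0q1 cd0q1 pd3 0 true true true .nn 1 1 3 (qsf 536870912 536870912 536870912 536870912 3) ndB0q1 ndB0q1 pcB3 cut_pp_113_t Ext.none)

def k0_pp_113_t : ∃ t, chk3 f_pp_113_t t 1 1 1 = true :=
  ⟨(l 4), by decide +kernel⟩

theorem c_pp_113_t : CertNE 536870912 536870912 536870912 536870912 1040187392 5207648 3 eng mog cd0q1 cd0q1 pd3 true true true .nn 1 1 3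
    ndB0q1 ndB0q1 pcB3 cut_pp_113_t Ext.none :=
  certNE0 (fam := true) (s1 := true) (s2 := true) (a := 1) (b := 1) (c := 3) (cn := .nn) (n1 := ndB0q1) (n2 := ndB0q1) (pc := pcB3) (cut := cut_pp_113_t) (xt := Ext.none) (P1 := 536870912) (W1 := 536870912) (P2 := 536870912) (W2 := 536870912) (P3 := 1040187392) (W3 := 5207648) (N0 := 3) (En := eng) (mo := mog) (C1 := cd0q1) (C2 := cd0q1) (C3 := pd3)
    rfl k0_pp_113_t

noncomputable def cut_pp_123_s : Cut := Cut.of [[⟨4, 0, 0, 1449551462⟩]]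

noncomputable def f_pp_123_s : ℕ → ℕ → ℕ → ℕ → Bool := onCell 536870912 536870912 0 536870912 1040187392 5207648
    (rowNE 3 eng mog cd0q1 cd0q2 pd3 0 true true true .npn 1 2 3 (qsf 536870912 536870912 0 536870912 3) ndB0q1 ndB0q2 pcB3 cut_pp_123_s Ext.none)

def k0_pp_123_s : ∃ t, chk3 f_pp_123_s t 1 1 1 = true :=
  ⟨(l 6), by decide +kernel⟩

theorem c_pp_123_s : CertNE 536870912 536870912 0 536870912 1040187392 5207648 3 eng mog cd0q1 cd0q2 pd3 true true true .npn 1 2 3
    ndB0q1 ndB0q2 pcB3 cut_pp_123_s Ext.none :=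
  certNE0 (fam := true) (s1 := true) (s2 := true) (a := 1) (b := 2) (c := 3) (cn := .npn) (n1 := ndB0q1) (n2 := ndB0q2) (pc := pcB3) (cut := cut_pp_123_s) (xt := Ext.none) (P1 := 536870912) (W1 := 536870912) (P2 := 0) (W2 := 536870912) (P3 := 1040187392) (W3 := 5207648) (N0 := 3) (En := eng) (mo := mog) (C1 := cd0q1) (C2 := cd0q2) (C3 := pd3)
    rfl k0_pp_123_s

noncomputable def cut_pp_123_t : Cut := Cut.of [[⟨3, 0, 0, 2845415833⟩]]

noncomputable def f_pp_123_t : ℕ → ℕ → ℕ → ℕ → Bool := onCell 536870912 536870912 0 536870912 1040187392 5207648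
    (rowNE 3 eng mog cd0q1 cd0q2 pd3 0 true true true .npn 1 2 3 (qsf 536870912 536870912 0 536870912 3) ndB0q1 ndB0q2 pcB3 cut_pp_123_t Ext.none)

def k0_pp_123_t : ∃ t, chk3 f_pp_123_t t 1 1 1 = true :=
  ⟨(a (b (b (a (a (b (a (b (l 16701936) (l 16724600)) (a (l 80228451655) (l 92039618583))) (a (b (l 102240155751) (l 4)) (l 4))) (b (a (b (l 100092687095) (l 4)) (l 4)) (l 4))) (l 4)) (l 4)) (l 4)) (l 4)), by decide +kernel⟩

theorem c_pp_123_t : CertNE 536870912 536870912 0 536870912 1040187392 5207648 3 eng mog cd0q1 cd0q2 pd3 true true true .npn 1 2 3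
    ndB0q1 ndB0q2 pcB3 cut_pp_123_t Ext.none :=
  certNE0 (fam := true) (s1 := true) (s2 := true) (a := 1) (b := 2) (c := 3) (cn := .npn) (n1 := ndB0q1) (n2 := ndB0q2) (pc := pcB3) (cut := cut_pp_123_t) (xt := Ext.none) (P1 := 536870912) (W1 := 536870912) (P2 := 0) (W2 := 536870912) (P3 := 1040187392) (W3 := 5207648) (N0 := 3) (En := eng) (mo := mog) (C1 := cd0q1) (C2 := cd0q2) (C3 := pd3)
    rfl k0_pp_123_t

noncomputable def cut_pp_202_s : Cut := Cut.of [[⟨4, 0, 0, 1449551462⟩]]

noncomputable def f_pp_202_s : ℕ → ℕ → ℕ → ℕ → Bool := onCell 0 536870912 0 536870912 1040187392 5207648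
    (rowNE 3 eng mog cd0q2 cd0q0 pd2 0 true true true .pp 2 0 2 (qsf 0 536870912 0 536870912 2) ndB0q2 ndB0q0 pcB2 cut_pp_202_s Ext.none)

def k0_pp_202_s : ∃ t, chk3 f_pp_202_s t 1 1 1 = true :=
  ⟨(l 5), by decide +kernel⟩

theorem c_pp_202_s : CertNE 0 536870912 0 536870912 1040187392 5207648 3 eng mog cd0q2 cd0q0 pd2 true true true .pp 2 0 2
    ndB0q2 ndB0q0 pcB2 cut_pp_202_s Ext.none :=
  certNE0 (fam := true) (s1 := true) (s2 := true) (a := 2) (b := 0) (c := 2) (cn := .pp) (n1 := ndB0q2) (n2 := ndB0q0) (pc := pcB2) (cut := cut_pp_202_s) (xt := Ext.none) (P1 := 0) (W1 := 536870912) (P2 := 0) (W2 := 536870912) (P3 := 1040187392) (W3 := 5207648) (N0 := 3) (En := eng) (mo := mog) (C1 := cd0q2) (C2 := cd0q0) (C3 := pd2)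
    rfl k0_pp_202_s

noncomputable def cut_pp_202_t : Cut := Cut.of [[⟨3, 0, 0, 2845415833⟩]]

noncomputable def f_pp_202_t : ℕ → ℕ → ℕ → ℕ → Bool := onCell 0 536870912 0 536870912 1040187392 5207648
    (rowNE 3 eng mog cd0q2 cd0q0 pd2 0 true true true .pp 2 0 2 (qsf 0 536870912 0 536870912 2) ndB0q2 ndB0q0 pcB2 cut_pp_202_t Ext.none)

def k0_pp_202_t : ∃ t, chk3 f_pp_202_t t 1 1 1 = true :=
  ⟨(l 5), by decide +kernel⟩

theorem c_pp_202_t : CertNE 0 536870912 0 536870912 1040187392 5207648 3 eng mog cd0q2 cd0q0 pd2 true true true .pp 2 0 2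
    ndB0q2 ndB0q0 pcB2 cut_pp_202_t Ext.none :=
  certNE0 (fam := true) (s1 := true) (s2 := true) (a := 2) (b := 0) (c := 2) (cn := .pp) (n1 := ndB0q2) (n2 := ndB0q0) (pc := pcB2) (cut := cut_pp_202_t) (xt := Ext.none) (P1 := 0) (W1 := 536870912) (P2 := 0) (W2 := 536870912) (P3 := 1040187392) (W3 := 5207648) (N0 := 3) (En := eng) (mo := mog) (C1 := cd0q2) (C2 := cd0q0) (C3 := pd2)
    rfl k0_pp_202_t

noncomputable def cut_pp_203_s : Cut := Cut.of [[⟨4, 0, 0, 1449551462⟩]]

noncomputable def f_pp_203_s : ℕ → ℕ → ℕ → ℕ → Bool := onCell 0 536870912 0 536870912 1040187392 5207648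
    (rowNE 3 eng mog cd0q2 cd0q0 pd3 0 true true true .up 2 0 3 (qsf 0 536870912 0 536870912 3) ndB0q2 ndB0q0 pcB3 cut_pp_203_s Ext.none)

def k0_pp_203_s : ∃ t, chk3 f_pp_203_s t 1 1 1 = true :=
  ⟨(l 5), by decide +kernel⟩

theorem c_pp_203_s : CertNE 0 536870912 0 536870912 1040187392 5207648 3 eng mog cd0q2 cd0q0 pd3 true true true .up 2 0 3
    ndB0q2 ndB0q0 pcB3 cut_pp_203_s Ext.none :=
  certNE0 (fam := true) (s1 := true) (s2 := true) (a := 2) (b := 0) (c := 3) (cn := .up) (n1 := ndB0q2) (n2 := ndB0q0) (pc := pcB3) (cut := cut_pp_203_s) (xt := Ext.none) (P1 := 0) (W1 := 536870912) (P2 := 0) (W2 := 536870912) (P3 := 1040187392) (W3 := 5207648) (N0 := 3) (En := eng) (mo := mog) (C1 := cd0q2) (C2 := cd0q0) (C3 := pd3)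
    rfl k0_pp_203_s

noncomputable def cut_pp_203_t : Cut := Cut.of [[⟨3, 0, 0, 2845415833⟩]]

noncomputable def f_pp_203_t : ℕ → ℕ → ℕ → ℕ → Bool := onCell 0 536870912 0 536870912 1040187392 5207648
    (rowNE 3 eng mog cd0q2 cd0q0 pd3 0 true true true .up 2 0 3 (qsf 0 536870912 0 536870912 3) ndB0q2 ndB0q0 pcB3 cut_pp_203_t Ext.none)

def k0_pp_203_t : ∃ t, chk3 f_pp_203_t t 1 1 1 = true :=
  ⟨(l 5), by decide +kernel⟩

theorem c_pp_203_t : CertNE 0 536870912 0 536870912 1040187392 5207648 3 eng mog cd0q2 cd0q0 pd3 true true true .up 2 0 3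
    ndB0q2 ndB0q0 pcB3 cut_pp_203_t Ext.none :=
  certNE0 (fam := true) (s1 := true) (s2 := true) (a := 2) (b := 0) (c := 3) (cn := .up) (n1 := ndB0q2) (n2 := ndB0q0) (pc := pcB3) (cut := cut_pp_203_t) (xt := Ext.none) (P1 := 0) (W1 := 536870912) (P2 := 0) (W2 := 536870912) (P3 := 1040187392) (W3 := 5207648) (N0 := 3) (En := eng) (mo := mog) (C1 := cd0q2) (C2 := cd0q0) (C3 := pd3)
    rfl k0_pp_203_t

noncomputable def cut_pp_213_s : Cut := Cut.of [[⟨4, 0, 0, 1449551462⟩]]

noncomputable def f_pp_213_s : ℕ → ℕ → ℕ → ℕ → Bool := onCell 0 536870912 536870912 536870912 1040187392 5207648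
    (rowNE 3 eng mog cd0q2 cd0q1 pd3 0 true true true .pnn 2 1 3 (qsf 0 536870912 536870912 536870912 3) ndB0q2 ndB0q1 pcB3 cut_pp_213_s Ext.none)

def k0_pp_213_s : ∃ t, chk3 f_pp_213_s t 1 1 1 = true :=
  ⟨(l 6), by decide +kernel⟩

theorem c_pp_213_s : CertNE 0 536870912 536870912 536870912 1040187392 5207648 3 eng mog cd0q2 cd0q1 pd3 true true true .pnn 2 1 3
    ndB0q2 ndB0q1 pcB3 cut_pp_213_s Ext.none :=
  certNE0 (fam := true) (s1 := true) (s2 := true) (a := 2) (b := 1) (c := 3) (cn := .pnn) (n1 := ndB0q2) (n2 := ndB0q1) (pc := pcB3) (cut := cut_pp_213_s) (xt := Ext.none) (P1 := 0) (W1 := 536870912) (P2 := 536870912) (W2 := 536870912) (P3 := 1040187392) (W3 := 5207648) (N0 := 3) (En := eng) (mo := mog) (C1 := cd0q2) (C2 := cd0q1) (C3 := pd3)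
    rfl k0_pp_213_s

noncomputable def cut_pp_213_t : Cut := Cut.of [[⟨3, 0, 0, 2845415833⟩]]

noncomputable def f_pp_213_t : ℕ → ℕ → ℕ → ℕ → Bool := onCell 0 536870912 536870912 536870912 1040187392 5207648
    (rowNE 3 eng mog cd0q2 cd0q1 pd3 0 true true true .pnn 2 1 3 (qsf 0 536870912 536870912 536870912 3) ndB0q2 ndB0q1 pcB3 cut_pp_213_t Ext.none)

def k0_pp_213_t : ∃ t, chk3 f_pp_213_t t 1 1 1 = true :=
  ⟨(a (l 5) (l 4)), by decide +kernel⟩

theorem c_pp_213_t : CertNE 0 536870912 536870912 536870912 1040187392 5207648 3 eng mog cd0q2 cd0q1 pd3 true true true .pnn 2 1 3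
    ndB0q2 ndB0q1 pcB3 cut_pp_213_t Ext.none :=
  certNE0 (fam := true) (s1 := true) (s2 := true) (a := 2) (b := 1) (c := 3) (cn := .pnn) (n1 := ndB0q2) (n2 := ndB0q1) (pc := pcB3) (cut := cut_pp_213_t) (xt := Ext.none) (P1 := 0) (W1 := 536870912) (P2 := 536870912) (W2 := 536870912) (P3 := 1040187392) (W3 := 5207648) (N0 := 3) (En := eng) (mo := mog) (C1 := cd0q2) (C2 := cd0q1) (C3 := pd3)
    rfl k0_pp_213_t

noncomputable def cut_pm_001_s : Cut := Cut.of [[⟨4, 0, 0, 1449551462⟩]]

noncomputable def f_pm_001_s : ℕ → ℕ → ℕ → ℕ → Bool := onCell 0 536870912 0 536870912 1040187392 5207648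
    (rowNE 3 eng mog cd0q0 cd0q0 pd1 0 true true false .up 0 0 1 (qsf 0 536870912 0 536870912 1) ndB0q0 ndB0q0 pcB1 cut_pm_001_s Ext.none)

def k0_pm_001_s : ∃ t, chk3 f_pm_001_s t 1 1 1 = true :=
  ⟨(l 3), by decide +kernel⟩

theorem c_pm_001_s : CertNE 0 536870912 0 536870912 1040187392 5207648 3 eng mog cd0q0 cd0q0 pd1 true true false .up 0 0 1
    ndB0q0 ndB0q0 pcB1 cut_pm_001_s Ext.none :=
  certNE0 (fam := true) (s1 := true) (s2 := false) (a := 0) (b := 0) (c := 1) (cn := .up) (n1 := ndB0q0) (n2 := ndB0q0) (pc := pcB1) (cut := cut_pm_001_s) (xt := Ext.none) (P1 := 0) (W1 := 536870912) (P2 := 0) (W2 := 536870912) (P3 := 1040187392) (W3 := 5207648) (N0 := 3) (En := eng) (mo := mog) (C1 := cd0q0) (C2 := cd0q0) (C3 := pd1)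
    rfl k0_pm_001_s

noncomputable def cut_pm_001_t : Cut := Cut.of [[⟨3, 0, 0, 2845415833⟩]]

noncomputable def f_pm_001_t : ℕ → ℕ → ℕ → ℕ → Bool := onCell 0 536870912 0 536870912 1040187392 5207648
    (rowNE 3 eng mog cd0q0 cd0q0 pd1 0 true true false .up 0 0 1 (qsf 0 536870912 0 536870912 1) ndB0q0 ndB0q0 pcB1 cut_pm_001_t Ext.none)

def k0_pm_001_t : ∃ t, chk3 f_pm_001_t t 1 1 1 = true :=
  ⟨(l 3), by decide +kernel⟩

theorem c_pm_001_t : CertNE 0 536870912 0 536870912 1040187392 5207648 3 eng mog cd0q0 cd0q0 pd1 true true false .up 0 0 1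
    ndB0q0 ndB0q0 pcB1 cut_pm_001_t Ext.none :=
  certNE0 (fam := true) (s1 := true) (s2 := false) (a := 0) (b := 0) (c := 1) (cn := .up) (n1 := ndB0q0) (n2 := ndB0q0) (pc := pcB1) (cut := cut_pm_001_t) (xt := Ext.none) (P1 := 0) (W1 := 536870912) (P2 := 0) (W2 := 536870912) (P3 := 1040187392) (W3 := 5207648) (N0 := 3) (En := eng) (mo := mog) (C1 := cd0q0) (C2 := cd0q0) (C3 := pd1)
    rfl k0_pm_001_t

noncomputable def cut_pm_011_s : Cut := Cut.of [[⟨4, 0, 0, 1449551462⟩], [⟨0, 0, 0, 26843545⟩, ⟨1, 1, 0, 26843545⟩, ⟨2, 1, 0, 26843545⟩]]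

noncomputable def f_pm_011_s : ℕ → ℕ → ℕ → ℕ → Bool := onCell 536870912 536870912 536870912 536870912 1040187392 5207648
    (rowNE 3 eng mog cd0q0 cd0q1 pd1 2 true true false .pnn 0 1 1 (qsf 0 536870912 536870912 536870912 1) ndB0q0 ndB0q1 pcB1 cut_pm_011_s Ext.none)

def k0_pm_011_s : ∃ t, chk3 f_pm_011_s t 1 1 1 = true :=
  ⟨(a (l 3) (b (l 3) (a (l 3) (b (l 3) (a (l 3) (b (l 3) (a (l 3) (b (l 3) (a (l 3) (b (l 3) (l 14))))))))))), by decide +kernel⟩

theorem c_pm_011_s : CertNE 0 536870912 536870912 536870912 1040187392 5207648 3 eng mog cd0q0 cd0q1 pd1 true true false .pnn 0 1 1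
    ndB0q0 ndB0q1 pcB1 cut_pm_011_s Ext.none :=
  certNE2 (fam := true) (s1 := true) (s2 := false) (a := 0) (b := 1) (c := 1) (cn := .pnn) (n1 := ndB0q0) (n2 := ndB0q1) (pc := pcB1) (cut := cut_pm_011_s) (xt := Ext.none) (P1 := 0) (W1 := 536870912) (P2 := 536870912) (W2 := 536870912) (P3 := 1040187392) (W3 := 5207648) (N0 := 3) (En := eng) (mo := mog) (C1 := cd0q0) (C2 := cd0q1) (C3 := pd1)
    rfl (fun _ => rfl) k0_pm_011_s

noncomputable def cut_pm_011_t : Cut := Cut.of [[⟨3, 0, 0, 2845415833⟩], [⟨0, 0, 0, 26843545⟩, ⟨1, 1, 0, 26843545⟩, ⟨2, 1, 0, 26843545⟩]]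

noncomputable def f_pm_011_t : ℕ → ℕ → ℕ → ℕ → Bool := onCell 0 536870912 536870912 536870912 1040187392 5207648
    (rowNE 3 eng mog cd0q0 cd0q1 pd1 0 true true false .pnn 0 1 1 (qsf 0 536870912 536870912 536870912 1) ndB0q0 ndB0q1 pcB1 cut_pm_011_t Ext.none)

def k0_pm_011_t : ∃ t, chk3 f_pm_011_t t 1 1 1 = true :=
  ⟨(l 6), by decide +kernel⟩

theorem c_pm_011_t : CertNE 0 536870912 536870912 536870912 1040187392 5207648 3 eng mog cd0q0 cd0q1 pd1 true true false .pnn 0 1 1
    ndB0q0 ndB0q1 pcB1 cut_pm_011_t Ext.none :=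
  certNE0 (fam := true) (s1 := true) (s2 := false) (a := 0) (b := 1) (c := 1) (cn := .pnn) (n1 := ndB0q0) (n2 := ndB0q1) (pc := pcB1) (cut := cut_pm_011_t) (xt := Ext.none) (P1 := 0) (W1 := 536870912) (P2 := 536870912) (W2 := 536870912) (P3 := 1040187392) (W3 := 5207648) (N0 := 3) (En := eng) (mo := mog) (C1 := cd0q0) (C2 := cd0q1) (C3 := pd1)
    rfl k0_pm_011_t

noncomputable def cut_pm_012_s : Cut := Cut.of [[⟨4, 0, 0, 1449551462⟩], [⟨0, 0, 0, 16777216⟩, ⟨1, 1, 0, 16777216⟩, ⟨2, 1, 0, 16777216⟩]]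

noncomputable def f_pm_012_s : ℕ → ℕ → ℕ → ℕ → Bool := onCell 1073741824 536870912 536870912 536870912 1040187392 5207648
    (rowNE 3 eng mog cd0q0 cd0q1 pd2 2 true true false .pnp 0 1 2 (qsf 0 536870912 536870912 536870912 2) ndB0q0 ndB0q1 pcB2 cut_pm_012_s Ext.none)

def k0_pm_012_s : ∃ t, chk3 f_pm_012_s t 4 2 1 = true :=
  ⟨(a (l 3) (l 3)), by decide +kernel⟩

def k1_pm_012_s : ∃ t, chk3 f_pm_012_s t 4 6 1 = true :=
  ⟨(a (l 3) (a (b (l 3) (a (l 3) (b (l 3) (a (l 3) (b (l 3) (l 16686056)))))) (b (a (l 3) (b (l 3) (a (b (l 3) (l 16747016)) (b (l 16761696) (l 16773688))))) (a (b (a (l 3) (b (l 3) (l 16763856))) (a (b (l 16755256) (l 16768584)) (b (l 16767400) (l 16750864)))) (b (a (b (l 16773848) (l 16764864)) (l 16754240)) (a (b (l 16749768) (a (l 16736448) (l 16703184))) (b (l 16686088) (a (l 16686800) (l 16684816))))))))), by decide +kernel⟩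

def k2_pm_012_s : ∃ t, chk3 f_pm_012_s t 8 14 1 = true :=
  ⟨(a (l 3) (b (l 3) (a (l 3) (b (l 3) (a (b (l 3) (a (l 3) (b (l 3) (a (l 431275061031) (l 191830642743))))) (b (a (l 413021414439) (l 120426734487)) (a (b (l 16735200) (l 16770712)) (l 16764448)))))))), by decide +kernel⟩

def k3_pm_012_s : ∃ t, chk3 f_pm_012_s t 16 30 1 = true :=
  ⟨(a (l 3) (b (l 3) (a (l 3) (b (l 3) (a (l 3) (b (l 3) (a (b (l 3) (a (l 3) (b (l 3) (a (b (l 3) (l 349133858151)) (b (a (l 255181427575) (l 173577060215)) (l 16764944)))))) (b (a (b (l 3) (a (l 3) (l 410874001959))) (b (a (l 3) (a (l 427517002151) (l 351818216375))) (a (b (l 370071821799) (l 140291063911)) (l 16770856)))) (a (b (a (b (l 440401905719) (a (l 227801015351) (l 16766080))) (b (a (l 199346861111) (l 16765696)) (l 16753600))) (l 16767104)) (b (l 16761080) (l 16756296))))))))))), by decide +kernel⟩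

def k4_pm_012_s : ∃ t, chk3 f_pm_012_s t 32 62 1 = true :=
  ⟨(a (l 3) (b (l 3) (a (l 3) (b (l 3) (a (l 3) (b (l 3) (a (l 3) (b (l 3) (a (b (l 3) (b (l 3) (a (l 3) (a (l 375440538471) (a (l 203641846103) (l 16771448)))))) (b (a (l 493015266183) (b (l 468856076167) (a (a (l 363092507831) (l 200420618807)) (l 16771336)))) (a (b (a (l 308331669239) (l 16775400)) (l 16765176)) (l 16764240)))))))))))), by decide +kernel⟩

def k5_pm_012_s : ∃ t, chk3 f_pm_012_s t 64 63 1 = true :=
  ⟨(b (a (l 3) (b (l 3) (a (l 3) (b (l 3) (a (l 3) (b (l 3) (a (l 3) (b (l 3) (a (l 3) (a (l 460266140935) (b (l 3) (b (l 359871282567) (l 16774208))))))))))))) (a (l 14) (b (a (l 14) (b (a (l 14) (b (a (l 14) (b (a (l 14) (a (l 14) (l 16769864))) (l 14))) (l 14))) (l 14))) (l 14)))), by decide +kernel⟩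

def k6_pm_012_s : ∃ t, chk3 f_pm_012_s t 130 252 1 = true :=
  ⟨(a (l 3) (b (l 3) (a (l 3) (b (l 3) (a (l 3) (b (l 3) (a (a (l 499994591015) (b (l 3) (b (l 432348855639) (l 16771680)))) (b (a (l 428053888951) (a (l 265918872631) (l 261623903799))) (l 16773512))))))))), by decide +kernel⟩

def k7_pm_012_s : ∃ t, chk3 f_pm_012_s t 260 253 1 = true :=
  ⟨(b (a (l 3) (b (l 3) (a (l 3) (b (l 3) (a (l 503215816423) (b (l 457581789047) (a (b (l 431275113799) (l 16774304)) (l 16773928)))))))) (a (b (b (l 3) (a (l 3) (a (l 3) (b (l 3) (a (a (l 443086273847) (l 358260668583)) (b (l 197199393447) (l 16771312))))))) (a (b (a (l 3) (b (l 3) (a (c (l 351818216887) (l 354502571447)) (b (l 258402674999) (l 16771464))))) (a (b (a (l 380809246103) (b (l 307794804135) (l 16771528))) (l 61371050615)) (b (l 16773400) (l 16769376)))) (b (a (b (a (c (l 361481893671) (l 366850602775)) (b (l 229411648263) (l 16771392))) (l 16770704)) (l 16772536)) (a (l 16768584) (l 16767072))))) (b (a (b (a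 (l 535964942023) (b (l 508047654727) (a (a (l 369534958967) (a (l 292225547335) (l 302962964663))) (a (l 84993373623) (l 16771312))))) (a (b (a (b (l 536501813143) (l 182167005223)) (b (l 163376523255) (l 16765992))) (l 16770544)) (l 16769736))) (b (a (b (a (b (l 453823692087) (l 16775688)) (l 75329696375)) (l 16770368)) (l 16769552)) (l 16769400))) (a (b (a (l 16768400) (l 16766872)) (l 16766744)) (a (l 16765200) (l 16763632)))))), by decide +kernel⟩

def k8_pm_012_s : ∃ t, chk3 f_pm_012_s t 261 253 1 = true :=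
  ⟨(b (a (b (a (l 3) (b (l 3) (b (a (l 3) (a (l 3) (c (l 307257930295) (l 309942284855)))) (b (a (l 3) (a (l 215453007159) (l 16766072))) (a (l 357723795975) (l 16770968)))))) (a (b (a (l 468319204567) (b (l 406579049831) (a (b (l 320679706023) (l 16771536)) (l 16771136)))) (a (a (b (b (l 389936053623) (l 16771616)) (l 16765320)) (l 16773128)) (l 16769352))) (b (a (a (b (b (l 262160776615) (l 16771448)) (l 16775608)) (l 16770312)) (l 16769136)) (l 16769616)))) (b (a (b (a (a (l 538112425719) (a (l 446307494647) (b (l 3) (l 241222805319)))) (a (b (l 509658267511) (a (l 16775576) (l 16771312))) (b (b (l 463487368823) (l 16774384)) (l 16765488)))) (a (a (a (b (l 265382000231) (l 16775600)) (l 16770680)) (l 16764864)) (l 16768912))) (b (b (a (c (l 69424114567) (l 68350372743)) (l 16774664)) (l 16768736)) (l 16766504))) (a (b (l 16766752) (l 16763800)) (a (l 16762848) (l 16761208))))) (a (b (a (b (l 16768528) (l 16766936)) (b (l 16764064) (l 16761128))) (b (a (l 16761400) (l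 16763432)) (a (a (l 16764528) (a (l 16763328) (a (l 16762640) (b (l 16763056) (l 16761496))))) (b (a (l 16761960) (a (b (l 16761160) (l 16760368)) (b (l 16760296) (l 16759304)))) (a (b (a (l 16761272) (l 16760424)) (l 16759928)) (l 16758240)))))) (b (a (a (l 16760176) (l 16758544)) (b (l 16762800) (b (l 16760456) (a (a (l 16760320) (l 16759376)) (a (b (l 16758952) (l 16758144)) (l 16757608)))))) (b (a (b (b (l 16761224) (a (l 16761352) (a (l 16760064) (l 16759216)))) (b (a (l 16760520) (c (l 16758792) (l 16758760))) (a (a (l 16760216) (l 16759320)) (l 16757648)))) (a (a (b (b (l 16759128) (l 16758152)) (l 16756552)) (l 16756576)) (l 16754904))) (a (a (l 16757184) (l 16754984)) (l 16751736)))))), by decide +kernel⟩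

def k9_pm_012_s : ∃ t, chk3 f_pm_012_s t 262 252 1 = true :=
  ⟨(b (a (l 3) (b (l 3) (a (b (l 3) (l 493015263767)) (b (a (l 3) (b (l 3) (l 382419856215))) (a (b (l 417316465447) (b (a (l 354502573447) (l 16771504)) (l 16771160))) (a (a (b (l 162839652391) (l 16775768)) (l 57076082631)) (l 16770240))))))) (a (b (a (l 3) (b (l 531133103719) (a (b (l 3) (b (l 336248959239) (a (l 210621168919) (l 16776520)))) (b (a (l 306184188183) (a (l 16775584) (l 16771312))) (l 16765184))))) (b (a (a (a (l 450065590999) (b (l 3) (a (l 182167007911) (l 16774240)))) (b (b (l 355576314951) (a (l 317458480231) (l 16776632))) (l 16770672))) (a (l 16769800) (l 16762912))) (a (a (l 16772656) (l 16763184)) (l 16765960)))) (b (b (a (a (b (l 486572818263) (a (a (l 380272376903) (l 155323462215)) (l 16773984))) (a (b (b (l 431811984727) (l 16771664)) (l 16775824)) (l 16773120))) (a (l 16764024) (l 16762352))) (a (l 16768712) (l 16765352))) (a (b (l 16765656) (l 16762608)) (a (l 16761592) (l 16759880)))))),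 by decide +kernel⟩

def k10_pm_012_s : ∃ t, chk3 f_pm_012_s t 263 252 1 = true :=
  ⟨(b (a (b (a (b (l 3) (a (l 3) (a (l 533280587527) (b (l 3) (l 278803771559))))) (b (a (l 3) (a (l 482277850503) (b (l 3) (a (l 266992614359) (l 16774304))))) (a (b (a (l 480130367367) (a (l 333027736599) (l 186461977111))) (l 56002341415)) (l 16772704)))) (a (b (b (b (a (l 3) (l 83919630791)) (a (l 329806508295) (l 16765528))) (b (a (a (l 16776512) (l 16776504)) (l 16775248)) (l 16770072))) (l 16768144)) (b (l 16767848) (l 16764736)))) (b (a (b (b (a (a (l 421611436983) (l 195588779319)) (l 16770568)) (l 16772488)) (l 16767536)) (b (l 16767224) (l 16758848))) (a (a (l 16763712) (l 16756736)) (l 16759368)))) (a (b (a (a (l 16764352) (l 16762640)) (c (l 16760064) (l 16760032))) (a (l 16757280) (l 16753784))) (b (a (l 16756560) (l 16753032)) (b (a (l 16757072) (l 16753464)) (a (a (l 16754808) (b (l 16753816) (l 16752104))) (b (a (l 16751928) (a (l 16750592) (l 16749680))) (a (a (l 16750808)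 (l 16749816)) (l 16748096)))))))), by decide +kernel⟩

def k11_pm_012_s : ∃ t, chk3 f_pm_012_s t 131 253 1 = true :=
  ⟨(a (b (a (b (a (b (l 16766240) (l 16763232)) (a (l 16762256) (l 16760576))) (a (a (l 16759560) (l 16763128)) (b (l 16762120) (a (l 16759936) (b (l 16758992) (l 16757344)))))) (b (a (c (l 16758048) (l 16758024)) (l 16754592)) (b (a (l 16758704) (b (a (l 16756864) (a (l 16755488) (l 16754576))) (a (a (l 16755664) (a (l 16755024) (l 16754592))) (l 16753320)))) (a (b (a (l 16757200) (b (l 16755824) (l 16755040))) (a (a (a (l 16756304) (l 16755872)) (l 16755144)) (l 16753432))) (l 16751232))))) (a (b (b (a (a (l 16760296) (b (l 16759368) (a (l 16758176) (a (l 16757552) (l 16755816))))) (b (b (a (l 16758024) (a (l 16756696) (l 16755720))) (a (l 16757184) (l 16755176))) (a (a (l 16756392) (l 16755232)) (l 16753600)))) (a (b (a (b (l 16758312) (a (l 16758016) (l 16756960))) (l 16755896)) (l 16754824)) (l 16751520))) (a (b (l 16751648) (l 16747400)) (b (l 16747296)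 (l 16743064)))) (a (b (b (l 16751376) (l 16747160)) (l 16740840)) (b (l 16739656) (l 16736496))))) (b (b (a (b (a (l 16757880) (a (l 16755232) (b (l 16754240) (a (l 16753016) (l 16752144))))) (a (b (l 16755456) (a (l 16754768) (a (l 16752168) (l 16752520)))) (a (b (a (l 16753248) (l 16752352)) (l 16750792)) (l 16749656)))) (a (b (b (a (c (l 16749728) (l 16752280)) (a (l 16751016) (l 16749872))) (a (l 16750632) (l 16748344))) (l 16746328)) (l 16744000))) (a (a (b (a (b (b (l 16753648) (l 16752600)) (l 16751032)) (l 16749872)) (l 16746800)) (l 16739248)) (a (l 16740096) (l 16735712)))) (a (a (b (l 16740528) (l 16732144)) (b (l 16736160) (l 16727800))) (a (b (l 16731784) (l 16723448)) (b (l 16727408) (l 16719096)))))), by decide +kernel⟩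

def k12_pm_012_s : ∃ t, chk3 f_pm_012_s t 130 254 1 = true :=
  ⟨(b (a (a (b (a (b (a (l 16768760) (l 16767264)) (a (l 14) (l 16769688))) (a (a (l 16767336) (l 16766576)) (a (l 16763192) (l 16762424)))) (b (a (l 14) (a (l 14) (b (b (l 16764784) (l 14)) (l 14)))) (l 14))) (b (a (b (l 16764536) (b (a (l 16765792) (a (l 16764616) (l 16763744))) (b (a (l 16764720) (a (l 16763464) (l 16762608))) (a (a (l 16764384) (a (l 16763752) (l 16763344))) (l 16762072))))) (b (a (l 16764808) (b (l 16763944) (a (b (l 16763264) (l 16762456)) (b (l 16762384) (l 16761552))))) (a (b (a (b (l 16763360) (a (l 16762816) (l 16762344))) (b (a (l 16762752) (l 16762328)) (l 16761504))) (l 16760416)) (l 16759360)))) (a (b (b (b (a (b (a (l 16763800) (l 16762824)) (l 16762864)) (l 16760944)) (l 16760936)) (l 16759304)) (a (l 14) (l 16754984))) (b (c (l 16751536) (l 16750840)) (l 16747840))))) (b (b (a (a (b (b (a (l 16762672) (a (l 16761432) (l 16760440))) (a (a (l 16762320) (l 16761496)) (l 16759888)))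 (b (a (a (l 16761536) (l 16760424)) (l 16758808)) (l 16758816))) (l 16750864)) (a (l 16751792) (l 16747472))) (a (a (l 16752192) (l 16751816)) (a (l 16747512) (l 16743200)))) (b (a (a (l 16751808) (l 16747520)) (a (l 16743224) (l 16738928))) (a (a (l 16747488) (l 16743208)) (a (l 16738928) (l 16734640)))))) (a (a (l 14) (a (l 14) (b (b (l 16747432) (l 14)) (l 14)))) (a (b (a (b (l 16743168) (l 16738832)) (b (l 16738896) (l 16734576))) (a (l 14) (l 16730704))) (b (a (l 16734440) (l 16728200)) (b (l 16726496) (a (b (l 16722760) (l 14)) (b (l 16718520) (c (l 16714912) (l 16706840))))))))), by decide +kernel⟩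

def k13_pm_012_s : ∃ t, chk3 f_pm_012_s t 131 254 1 = true :=
  ⟨(b (a (a (b (a (b (l 16743152) (l 16738888)) (l 16736704)) (a (l 16732488) (l 16728192))) (a (b (l 16732384) (l 16723896)) (b (l 16728064) (l 16719600)))) (a (a (b (l 16723736) (l 16715304)) (b (l 16719416) (l 16711000))) (b (l 16715544) (l 16704544)))) (a (b (a (a (l 16723936) (l 16719664)) (a (l 16715392) (l 16711080))) (a (b (a (l 16717504) (b (l 16714320) (a (l 16702808) (l 16706264)))) (a (a (b (l 16710368) (l 16715408)) (l 16708928)) (l 16712264))) (b (b (a (l 16704904) (l 16701504)) (l 16705536)) (l 16708696)))) (b (a (b (l 16706816) (b (a (l 16705784) (l 16696512)) (a (l 16698968) (l 16701288)))) (b (b (l 16699264) (a (l 16688912) (l 16685448))) (l 16694936))) (l 16701136)))), by decide +kernel⟩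

def k14_pm_012_s : ∃ t, chk3 f_pm_012_s t 65 255 1 = true :=
  ⟨(a (b (a (l 14) (a (l 14) (a (l 14) (l 16719056)))) (l 14)) (b (a (b (l 16712336) (l 16714080)) (l 16703800)) (a (l 16716792) (l 16707520)))), by decide +kernel⟩

def k15_pm_012_s : ∃ t, chk3 f_pm_012_s t 66 124 1 = true :=
  ⟨(a (l 3) (b (l 3) (a (l 3) (b (l 3) (a (b (l 3) (a (l 435033202679) (b (l 401747209463) (a (b (l 386177956183) (l 16765992)) (l 16765080))))) (b (a (b (l 3) (a (l 3) (l 354502570919))) (b (a (l 440401909991) (b (l 436106951751) (l 16771520))) (a (l 155323457927) (l 16753768)))) (a (b (a (b (l 322827187687) (l 16765616)) (l 16764680)) (l 16762568)) (l 16760664)))))))), by decide +kernel⟩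

def k16_pm_012_s : ∃ t, chk3 f_pm_012_s t 132 250 1 = true :=
  ⟨(a (l 3) (b (l 3) (a (b (l 3) (a (l 3) (b (l 3) (a (l 3) (l 412484626743))))) (b (a (l 3) (b (l 3) (a (l 3) (a (l 407115918359) (b (l 3) (l 16771552)))))) (b (a (a (l 3) (a (l 443623139175) (a (l 406579051063) (l 352355088023)))) (a (b (a (l 406042180695) (l 16771696)) (l 16765488)) (l 16764536))) (a (b (a (l 312089765383) (l 16770904)) (l 67813498007)) (l 16762320))))))), by decide +kernel⟩

def k17_pm_012_s : ∃ t, chk3 f_pm_012_s t 132 251 1 = true :=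
  ⟨(a (b (a (l 3) (b (a (l 3) (l 483888449047)) (a (b (l 3) (a (a (l 459729268279) (a (l 411947758711) (b (l 3) (l 16775704)))) (b (a (l 429127630071) (l 179482652423)) (l 16770808)))) (b (a (a (l 425369530343) (b (l 3) (l 244444034183))) (b (a (l 304573578263) (l 16771512)) (l 16765240))) (l 16770320))))) (a (a (b (b (l 3) (a (l 463487365527) (b (l 429664499623) (a (l 215989874071) (l 16771056))))) (b (a (a (b (a (l 285783096471) (l 16776336)) (l 16775776)) (l 16770440)) (l 16763920)) (l 16766896))) (b (b (a (b (l 3) (l 410337146919)) (a (b (l 490330912055) (l 84993372711)) (b (l 255718322519) (l 16765496)))) (a (a (b (l 170892717239) (l 16775456)) (l 16764888)) (l 16763592))) (a (l 16765864) (l 16764120)))) (b (a (a (a (b (l 64055403399) (l 16772776)) (l 16768232)) (l 16766928)) (a (l 16765184) (l 16758200))) (a (l 16761496) (l 16757984))))) (b (a (a (b (b (l 447918103303) (a (b (l 449528720967) (a (l 231559134199) (l 16771368))) (a (b (l 174113941191) (l 16775808))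 (l 16770456)))) (b (l 16768664) (l 16760296))) (b (b (b (a (l 407115919815) (l 50096761223)) (b (a (l 261087032583) (l 16775400)) (l 16770232))) (l 16763056)) (l 16763608))) (b (a (a (l 16762008) (l 16760264)) (l 16757640)) (a (l 16754864) (l 16761840)))) (a (a (b (l 16760808) (l 16759696)) (b (l 16752056) (l 16756160))) (b (a (l 16759016) (l 16755496)) (l 16742984))))), by decide +kernel⟩

def k18_pm_012_s : ∃ t, chk3 f_pm_012_s t 133 125 1 = true :=
  ⟨(b (a (b (a (b (l 3) (a (l 3) (b (l 3) (a (l 419463946999) (b (l 386177956167) (l 16771200)))))) (b (a (l 3) (b (l 462950484663) (a (b (l 3) (l 190756938279)) (b (l 177872038391) (l 16765224))))) (a (b (a (l 387788564711) (b (l 328732767751) (l 16765608))) (l 16770744)) (l 16767528)))) (a (b (a (b (a (l 450602458535) (b (l 442549402711) (l 234780356519))) (a (b (c (l 173577070519) (l 175187682935)) (l 16765120)) (l 16764152))) (a (b (b (l 16774640) (l 16775208)) (l 16772904)) (l 16762224))) (a (l 16760384) (l 16756904)))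 (b (a (l 16759624) (l 16756168)) (l 16754320)))) (b (a (b (a (b (a (b (l 448454982743) (l 238538452999)) (l 16772008)) (l 16763400)) (l 16761480)) (b (l 16758656) (l 16755608))) (b (l 16761624) (l 16750320))) (a (a (l 16752240) (l 16746184)) (a (l 16742776) (l 16749888))))) (a (b (a (b (a (l 16764632) (l 16761144)) (l 16751336)) (a (l 16744016) (l 16740536))) (b (a (l 16739728) (b (l 16744808) (a (l 16743216) (b (a (l 16741496) (l 16739696)) (a (l 16739840) (l 16737760)))))) (a (b (a (l 16747160) (a (l 16744512) (l 16742568))) (a (b (l 16744736) (a (l 16743976) (l 16742128))) (b (a (l 16741968) (l 16740152)) (l 16739128)))) (a (b (b (a (l 16741680) (l 16739968)) (l 16739072)) (l 16735848)) (l 16733680))))) (b (b (a (l 16749008) (a (l 16743888) (b (l 16742088) (a (l 16739784) (l 16737912))))) (a (a (l 16744392) (b (l 16742552) (b (l 16740032) (a (l 16728816) (l 16737616))))) (b (a (b (l 16739944) (a (l 16739136) (l 16726928))) (b (a (l 16726816) (l 16735472)) (l 16734408)))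 (a (a (b (l 16737520) (l 16735488)) (l 16734432)) (l 16731336))))) (a (b (b (a (b (l 16740224) (a (l 16729072) (l 16737744))) (l 16735712)) (l 16733600)) (l 16727368)) (b (l 16727256) (l 16719016)))))), by decide +kernel⟩

def k19_pm_012_s : ∃ t, chk3 f_pm_012_s t 134 124 1 = true :=
  ⟨(b (a (b (l 3) (a (l 3) (b (l 3) (a (l 3) (l 414095237943))))) (b (a (l 3) (b (l 3) (a (l 3) (b (l 446307485415) (a (l 224042916647) (l 16771216)))))) (a (b (a (l 3) (b (l 3) (a (l 432885717127) (c (l 193978159911) (l 194515030599))))) (a (b (l 373293052663) (a (l 163913393047) (l 16754360))) (a (l 120963715111) (l 16752536)))) (b (a (b (a (l 248738974327) (l 170355833431)) (l 16764688)) (l 16762920)) (l 16759064))))) (a (b (a (b (l 3) (a (b (l 3) (a (l 404968431879) (b (l 367924345015) (l 16765920)))) (b (a (l 384030471895) (l 154786588487)) (l 16764192)))) (b (a (b (l 427517004855) (a (b (l 271287557799) (l 16771712)) (l 16770904))) (a (b (a (l 212231760951) (l 16771560)) (l 16774624))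 (l 16769128))) (l 16763304))) (a (b (a (a (l 16770536) (l 16751872)) (l 16759856)) (l 16755632)) (a (l 16753616) (l 16750344)))) (b (a (b (b (l 16761264) (l 16758456)) (l 16754200)) (a (l 16752288) (l 16749184))) (a (b (l 16758928) (l 16753088)) (l 16739296))))), by decide +kernel⟩

def k20_pm_012_s : ∃ t, chk3 f_pm_012_s t 135 124 1 = true :=
  ⟨(b (a (b (a (b (a (l 417853322967) (b (l 379198626631) (a (l 173577059367) (l 16754688)))) (a (b (a (l 199346869431) (l 16765592)) (l 16753328)) (l 16751576))) (b (a (a (l 123648069639) (l 16752968)) (l 16750744)) (l 16757576))) (a (a (l 16757136) (l 16754104)) (a (l 16751136) (l 16748240)))) (b (a (a (l 16755800) (l 16752984)) (l 16751544)) (a (l 16744040) (l 16738736)))) (a (b (a (l 16744640) (l 16738824)) (a (l 16733312) (b (l 16740944) (a (l 16736656) (b (l 16735336) (b (l 16733048) (l 16731576))))))) (b (a (l 16743816) (b (l 16741352) (a (l 16737240) (l 16734568)))) (b (a (a (l 16736880) (b (l 16735664) (b (l 16733592) (l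 16732008)))) (b (a (l 16732920) (b (l 16731184) (l 16729384))) (a (b (l 16730832) (l 16728840)) (l 16726272)))) (a (b (a (a (l 16733200) (l 16731816)) (b (l 16730488) (l 16728416))) (a (l 16729192) (l 16725376))) (l 16721960)))))), by decide +kernel⟩

def k21_pm_012_s : ∃ t, chk3 f_pm_012_s t 67 125 1 = true :=
  ⟨(a (b (a (b (a (a (l 16748304) (l 16744984)) (b (l 16753568) (l 16747536))) (b (a (l 16747968) (l 16741440)) (a (l 16741648) (b (a (l 16738440) (b (l 16735824) (a (l 16724648) (l 16733472)))) (a (b (l 16735920) (a (l 16724776) (l 16733368))) (l 16731432)))))) (b (a (l 16733696) (b (l 16741000) (b (l 16738960) (a (b (l 16735816) (l 16734128)) (b (c (l 16732760) (l 16732536)) (l 16730864)))))) (b (a (b (a (l 16738200) (b (l 16735856) (l 16734152))) (a (b (l 16735800) (a (l 16735048) (l 16723000))) (b (l 16732592) (l 16730488)))) (a (b (b (a (l 16722960) (l 16731720)) (l 16730616)) (l 16727568)) (l 16725688))) (a (a (b (l 16731568) (l 16727344)) (l 16725400)) (l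 16719480))))) (a (b (a (b (b (a (l 16738576) (b (a (l 16736968) (l 16724840)) (l 16734456))) (a (b (a (l 16726616) (l 16724952)) (l 16734472)) (l 16731288))) (l 16727208)) (b (l 16727248) (l 16719056))) (a (b (l 16719000) (l 16710720)) (b (l 16710808) (l 16702496)))) (b (a (b (l 16719208) (l 16710976)) (l 16707120)) (a (l 16698520) (l 16690464))))) (b (a (b (b (a (b (l 16736568) (a (l 16734976) (b (l 16732760) (l 16731240)))) (b (a (b (l 16732880) (l 16731728)) (l 16728816)) (l 16726552))) (a (a (b (b (l 16732688) (l 16731064)) (l 16727912)) (l 16726112)) (l 16720408))) (a (l 16705288) (l 16708080))) (b (a (l 16706520) (l 16709632)) (a (l 16700472) (l 16692976)))) (a (b (a (l 16699232) (l 16691432)) (a (l 16682480) (l 16674584))) (b (a (l 16683720) (l 16676096)) (a (l 16666776) (l 16659048)))))), by decide +kernel⟩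

def k22_pm_012_s : ∃ t, chk3 f_pm_012_s t 66 252 1 = true :=
  ⟨(a (a (b (a (b (a (l 16762184) (l 16758672)) (a (l 16755848) (l 16757552))) (b (a (l 16749904) (l 16756840)) (a (l 16753984) (b (l 16752024) (a (l 16749688) (b (l 16748704) (l 16746952))))))) (b (a (b (l 16749288) (a (l 16753120) (b (l 16750184) (a (l 16749496) (c (l 16747760) (l 16747664)))))) (b (a (b (l 16749968) (a (l 16749184) (l 16744728))) (b (a (l 16747152) (l 16745256)) (l 16744216))) (a (a (b (c (l 16744968) (l 16747496)) (l 16745464)) (l 16744320)) (l 16741056)))) (a (b (a (a (a (l 16749800) (b (l 16751176) (l 16749496))) (b (l 16749696) (l 16747936))) (a (b (l 16747848) (l 16745672)) (l 16744528))) (l 16738408)) (a (l 16739168) (l 16734800))))) (b (b (a (a (l 16753280) (l 16749720)) (b (a (l 16747784) (b (l 16744920) (a (l 16744176) (l 16742440)))) (a (b (l 16745160) (a (l 16744496) (l 16742648))) (a (l 16741592) (l 16739304))))) (a (b (a (l 16748296) (b (a (l 16746528) (l 16744672)) (a (l 16744856)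 (l 16742720)))) (a (b (a (l 16746784) (l 16745016)) (a (l 16745160) (l 16742904))) (l 16740688))) (a (l 16738520) (l 16734152)))) (b (a (a (l 16738784) (l 16734448)) (l 16727968)) (a (a (l 16730456) (l 16726112)) (l 16719624))))) (b (a (a (b (a (b (a (b (l 16742288) (l 16740264)) (l 16739160)) (l 16736096)) (l 16733904)) (l 16727728)) (b (l 16727528) (l 16719208))) (a (b (l 16719088) (l 16710752)) (b (l 16710704) (l 16702352)))) (a (a (b (l 16719376) (l 16711016)) (b (l 16710848) (l 16702472))) (a (b (l 16702368) (l 16693976)) (l 16689736))))), by decide +kernel⟩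

def k23_pm_012_s : ∃ t, chk3 f_pm_012_s t 66 253 1 = true :=
  ⟨(a (a (b (b (a (a (l 16739616) (l 16735232)) (a (l 16730856) (l 16726496))) (a (a (l 16731320) (l 16726944)) (l 16723008))) (a (b (a (l 16723040) (l 16718664)) (l 16712560)) (b (l 16712120) (l 16703856)))) (b (a (b (l 16719968) (l 16711680)) (b (l 16711304) (l 16703016))) (a (b (l 16703416) (l 16695168)) (b (l 16694752) (l 16686504))))) (b (a (a (b (l 16702688) (l 16694392)) (l 16693240)) (a (l 16681440) (l 16672976))) (a (a (l 16685920) (b (l 16677536) (l 16669240))) (b (l 16664752) (a (b (l 16662808) (b (l 16638928) (l 16648544))) (b (l 16652160) (l 16653768))))))), by decide +kernel⟩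

def k24_pm_012_s : ∃ t, chk3 f_pm_012_s t 67 126 1 = true :=
  ⟨(b (a (a (b (a (l 16698200) (l 16689928)) (a (l 16681368) (l 16673056))) (b (a (l 16681736) (l 16673600)) (a (l 16664800) (l 16656616)))) (a (b (a (l 16665552) (l 16657568)) (l 16649704)) (b (l 16650992) (l 16628512)))) (a (b (a (a (l 16664568) (l 16656216)) (b (l 16648016) (a (l 16643744) (b (l 16637600) (l 16623576))))) (a (b (b (l 16649920) (a (l 16629184) (l 16632984))) (a (l 16638336) (l 16643952))) (b (b (a (l 16628168) (l 16633168)) (l 16636040)) (l 16637064)))) (b (a (b (a (l 16635752) (l 16627664)) (b (a (l 16608736) (l 16602560)) (l 16605048))) (b (b (a (l 16621744) (l 16593840)) (a (l 16598080) (l 16614120))) (l 16616952))) (l 16622976)))), by decide +kernel⟩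

def k25_pm_012_s : ∃ t, chk3 f_pm_012_s t 33 127 1 = true :=
  ⟨(a (b (b (a (a (b (a (l 16704264) (l 16695592)) (a (a (l 16698088) (b (l 16695864) (l 16686568))) (b (l 16689352) (b (a (l 16688488) (l 16674488)) (l 16675928))))) (b (a (l 16686928) (b (l 16680328) (b (l 16677224) (l 16674472)))) (b (a (b (l 16681912) (l 16679688)) (l 16665072)) (l 16678768)))) (a (b (a (b (l 16671792) (b (l 16659448) (l 16669928))) (b (a (l 16655624) (l 16642088)) (l 16664872))) (l 16668592)) (l 16658096))) (a (a (a (b (b (b (a (l 16682880) (l 16690392)) (l 16691992)) (l 16692640)) (l 16693968)) (l 16688272)) (l 16681008)) (l 16673072))) (a (b (a (l 16694336) (l 16684816)) (a (l 16698192) (l 16688800))) (b (l 16670416) (l 16674544)))) (b (a (b (l 16643952) (l 16647376)) (b (l 16625672) (l 16628856))) (a (b (l 16651224) (l 16655488)) (b (l 16632480) (l 16636536))))), by decide +kernel⟩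

def k26_pm_012_s : ∃ t, chk3 f_pm_012_s t 34 60 1 = true :=
  ⟨(a (l 3) (b (l 3) (a (a (l 3) (b (l 3) (b (l 400673437495) (a (l 162302734039) (l 16775032))))) (b (a (b (l 3) (l 298131106743)) (b (l 151028433847) (l 16774056))) (a (b (l 96267626583) (l 16749904)) (l 16747152)))))), by decide +kernel⟩

def k27_pm_012_s : ∃ t, chk3 f_pm_012_s t 68 61 1 = true :=
  ⟨(b (a (b (l 3) (a (l 3) (b (l 3) (a (l 3) (b (l 3) (l 400136592103)))))) (b (a (l 3) (b (l 3) (a (l 432348822055) (b (l 391546649815) (l 118279344983))))) (a (b (a (l 3) (b (l 3) (a (l 411410875863) (l 142438538455)))) (a (b (a (l 3) (l 183240719431)) (a (l 133311734311) (l 16753808))) (a (l 71034716503) (l 16751448)))) (b (a (b (b (l 178408880055) (l 16766016)) (l 16753352)) (l 16751216)) (a (l 16748648) (l 16766200)))))) (a (b (a (b (l 3) (a (b (l 3) (a (l 3) (b (l 407115910951) (b (l 204178698839) (l 16766096))))) (b (a (l 385104200359) (b (l 213842367047) (l 16765728))) (a (b (l 138143579879) (l 16753712))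 (l 16752288))))) (b (a (b (l 434496313943) (a (b (l 3) (l 186998825447)) (b (l 160155283879) (l 16754480)))) (b (a (b (l 235317200839) (l 16766248)) (l 16765016)) (l 16752024))) (a (b (l 60297297751) (l 16759272)) (a (l 16757952) (l 16755872))))) (a (b (a (b (a (b (a (l 248202109575) (l 16766392)) (l 16765016)) (l 16763512)) (l 16760352)) (a (l 16758808) (l 16756400))) (a (a (l 16754712) (l 16752168)) (l 16751184))) (b (a (a (l 16754144) (l 16752008)) (l 16752936)) (a (l 16744216) (l 16740416))))) (b (b (a (a (l 16760088) (l 16756224)) (a (l 16763224) (l 16760104))) (a (a (l 16752952) (l 16749408)) (a (l 16756712) (l 16753888)))) (a (b (a (l 16755912) (l 16752680)) (a (l 16747544) (l 16744592))) (b (a (l 16749800) (l 16747264)) (b (a (l 16744072) (a (l 16742304) (b (l 16742160) (a (l 16740304) (l 16739536))))) (a (b (l 16741032) (a (l 16739456) (b (l 16728168) (l 16737264)))) (b (a (b (l 16729136) (l 16738312)) (l 16736552)) (l 16733992))))))))), by decide +kernel⟩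

def k28_pm_012_s : ∃ t, chk3 f_pm_012_s t 69 61 1 = true :=
  ⟨(b (a (a (b (b (a (l 323900910743) (b (l 156934042087) (l 16775128))) (a (l 16763912) (l 16771176))) (b (l 16756808) (l 16751240))) (b (a (l 16749760) (l 16746968)) (b (l 16761872) (l 16756816)))) (b (a (l 16743288) (l 16760152)) (a (l 16755232) (b (l 16754024) (a (l 16750336) (b (l 16750024) (l 16746760))))))) (b (a (a (b (l 16756040) (l 16750232)) (b (l 16751632) (b (l 16747400) (a (l 16745472) (a (b (l 16744952) (l 16742752)) (l 16741760)))))) (a (b (a (l 16748704) (b (l 16748416) (a (l 16745904) (l 16744112)))) (a (b (a (l 16744856) (l 16742984)) (l 16737488)) (l 16735368))) (b (a (b (l 16735376) (l 16739904)) (l 16737664)) (l 16727048)))) (a (a (b (a (b (l 16746688) (a (l 16743824) (b (l 16743672) (l 16741576)))) (b (a (l 16745144) (l 16743856)) (b (a (l 16742360) (l 16740496)) (l 16738224)))) (a (b (b (a (l 16740728) (l 16738656)) (l 16736232)) (l 16730304)) (l 16728584))) (b (a (b (a (b (l 16743776)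 (l 16741320)) (l 16740360)) (l 16734368)) (l 16732456)) (l 16699224))) (a (a (l 16698520) (l 16693000)) (b (l 16713088) (l 16698136)))))), by decide +kernel⟩

def k29_pm_012_s : ∃ t, chk3 f_pm_012_s t 35 30 1 = true :=
  ⟨(b (a (b (a (b (a (l 3) (l 304573545111)) (a (b (l 400136570807) (l 16755640)) (l 16773680))) (b (a (l 16775800) (l 16771312)) (l 16746536))) (a (b (a (l 16771192) (l 16767040)) (l 16751704)) (b (l 16761648) (a (l 16757344) (b (l 16755728) (l 16730752)))))) (b (a (l 16740968) (b (l 16755464) (a (l 16752984) (l 16725984)))) (a (b (a (l 16756400) (l 16740888)) (a (b (l 16751264) (l 16723584)) (l 16717280))) (b (a (b (l 16748352) (l 16741728)) (l 16734024)) (l 16719552))))) (b (a (a (b (a (l 16756760) (b (l 16755528) (a (l 16752664) (l 16750376)))) (a (b (a (l 16751672) (b (l 16751304) (l 16748264))) (a (b (l 16747560) (l 16741912)) (l 16739536))) (b (a (l 16735768) (l 16740912)) (l 16731136)))) (b (a (b (a (l 16753272) (l 16750920)) (b (l 16726336) (l 16741584)))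 (b (l 16723904) (l 16733096))) (l 16699592))) (a (b (l 16700536) (l 16697984)) (b (l 16697944) (l 16675248)))) (a (a (b (a (l 16701840) (l 16690808)) (a (l 16673840) (l 16683968))) (b (l 16663824) (a (l 16673184) (l 16662448)))) (a (b (l 16673336) (l 16646400)) (b (l 16651352) (l 16625064)))))), by decide +kernel⟩

def k30_pm_012_s : ∃ t, chk3 f_pm_012_s t 68 62 1 = true :=
  ⟨(b (a (b (a (b (a (l 16743816) (l 16749624)) (a (l 16744304) (l 16739832))) (b (a (l 16745448) (l 16741776)) (b (a (l 16738280) (b (a (l 16736768) (l 16734832)) (a (b (l 16734912) (l 16733528)) (l 16733216)))) (a (b (a (l 16735576) (b (l 16734208) (l 16732832))) (a (a (l 16722912) (l 16732328)) (l 16730224))) (a (b (l 16731048) (l 16726872)) (l 16725712)))))) (a (a (b (b (l 16736472) (b (a (l 16733648) (b (l 16731992) (l 16730456))) (a (b (l 16731568) (l 16729920)) (l 16727352)))) (l 16708416)) (b (b (b (a (l 16734592) (b (l 16722496) (l 16731576))) (a (b (l 16721976) (l 16731000)) (l 16728656)))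 (l 16724224)) (l 16711896))) (b (a (b (l 16725760) (l 16717456)) (l 16714968)) (a (l 16705008) (l 16698240))))) (b (a (b (b (a (l 16740856) (b (l 16739088) (a (l 16737448) (b (l 16736600) (l 16735008))))) (a (b (l 16737224) (a (l 16735640) (b (l 16734608) (l 16732808)))) (a (b (b (l 16735576) (l 16733888)) (l 16730760)) (l 16729840)))) (a (b (a (b (b (l 16733696) (l 16731752)) (l 16728696)) (l 16727656)) (l 16720984)) (l 16718960))) (b (a (b (b (a (b (l 16737648) (l 16736160)) (l 16734272)) (l 16731640)) (l 16725480)) (l 16723856)) (a (l 16712960) (l 16707128)))) (a (b (a (l 16708504) (l 16702176)) (a (l 16691600) (l 16685080))) (b (a (l 16695976) (l 16689912)) (l 16679472))))) (a (b (a (b (a (l 16702368) (l 16695208)) (a (l 16685568) (l 16678272))) (b (a (l 16688168) (l 16681232)) (a (l 16671088) (l 16664008)))) (a (b (a (l 16668576) (l 16661144)) (l 16652872)) (b (l 16650200) (l 16632736)))) (b (a (b (a (l 16674424) (l 16667736)) (l 16653592)) (b (l 16657928) (l 16640128)))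 (a (b (l 16635976) (l 16618248)) (b (l 16622200) (l 16604184)))))), by decide +kernel⟩

def k31_pm_012_s : ∃ t, chk3 f_pm_012_s t 69 62 1 = true :=
  ⟨(b (a (b (a (b (a (l 16718224) (l 16712592)) (a (l 16701384) (l 16695720))) (b (l 16683240) (l 16687384))) (a (b (a (l 16683984) (l 16678232)) (l 16663296)) (b (l 16669760) (l 16651664)))) (b (a (b (l 16693160) (l 16676344)) (b (l 16682224) (l 16665440))) (a (b (l 16658752) (l 16640440)) (b (l 16647872) (l 16629592))))) (b (a (a (b (l 16645304) (l 16627152)) (b (l 16633216) (l 16614680))) (a (b (l 16621736) (l 16602752)) (b (l 16610672) (l 16591432)))) (a (b (a (l 16608888) (l 16596072)) (a (l 16590496) (b (l 16582096) (a (l 16566104) (l 16561392))))) (b (a (l 16583768) (b (l 16576840) (b (l 16569552) (l 16555272)))) (a (b (a (l 16551840) (l 16557536)) (l 16567016)) (l 16552256)))))), by decide +kernel⟩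

def k32_pm_012_s : ∃ t, chk3 f_pm_012_s t 34 63 1 = true :=
  ⟨(b (a (b (a (b (a (l 16630280) (l 16615176)) (a (b (l 16617224) (b (l 16610832) (a (l 16589848) (l 16605336)))) (b (b (l 16604136) (a (l 16603616) (l 16576576))) (l 16594128)))) (b (a (b (l 16604904) (a (l 16599648) (l 16587480))) (b (l 16590656) (b (a (l 16566784) (l 16582712)) (l 16584200)))) (a (b (b (a (l 16573056) (l 16589400)) (l 16591288)) (l 16591528)) (l 16584192)))) (a (b (a (l 16587184) (l 16600032)) (l 16605872)) (l 16589064))) (b (a (b (a (b (b (a (l 16582528) (l 16556088)) (l 16557096)) (l 16577528)) (l 16571560)) (l 16574120)) (l 16552112)) (a (l 16553512) (l 16540344)))) (a (b (a (l 16609584) (l 16592824)) (a (l 16616224) (l 16598728))) (b (a (l 16577120) (l 16562632)) (a (l 16582072) (l 16566448))))), by decide +kernel⟩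

def k33_pm_012_s : ∃ t, chk3 f_pm_012_s t 35 31 1 = true :=
  ⟨(b (b (a (a (b (a (l 16639536) (l 16652424)) (a (b (l 16637120) (l 16618864)) (l 16617456))) (b (a (l 16641808) (l 16631272)) (a (l 16606968) (l 16596576)))) (a (b (l 16615576) (a (l 16586280) (l 16576064))) (b (l 16594800) (b (l 16569656) (a (l 16557840) (l 16530264)))))) (a (b (a (a (b (l 16599976) (l 16580528)) (b (l 16589408) (a (l 16572624) (l 16567480)))) (b (a (l 16578976) (l 16568624)) (a (b (l 16564520) (l 16547448)) (b (l 16535912) (l 16553936))))) (a (b (a (b (a (l 16568440) (l 16542616)) (l 16539688)) (b (l 16553824) (l 16556768))) (l 16556472)) (l 16545920))) (b (a (b (a (b (l 16563184) (l 16534936)) (l 16543104)) (l 16550520)) (l 16525728)) (a (l 16524592) (l 16540024))))) (b (a (b (a (l 16531720) (l 16523856)) (a (l 16528752) (l 16539880))) (b (a (l 16517264) (l 16532672)) (a (l 16511088) (l 16504520)))) (a (b (b (l 16543576) (l 16543768)) (b (l 16544640) (l 16546176))) (b (a (l 16528184) (l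 16520376)) (l 16522336))))), by decide +kernel⟩

def k34_pm_012_s : ∃ t, chk3 f_pm_012_s t 9 14 1 = true :=
  ⟨(a (b (a (a (l 3) (b (l 3) (a (l 368997997207) (l 112910504695)))) (a (b (a (l 16667624) (l 16761736)) (b (l 16771624) (l 16740280))) (b (l 16768320) (a (l 16752976) (l 16721712))))) (a (b (a (b (l 367387396151) (a (l 130627266983) (l 16770768))) (a (l 16746376) (l 16737312))) (a (b (l 16742488) (a (l 16755288) (b (l 16749632) (a (l 16745040) (l 16717528))))) (b (a (l 16749800) (b (l 16743312) (l 16712872))) (a (b (l 16716616) (l 16702104)) (l 16686480))))) (b (a (b (l 16750440) (a (l 16742384) (b (l 16735616) (l 16724496)))) (b (a (l 16713264) (l 16697544)) (l 16655440))) (a (b (a (b (l 16708592) (l 16712160)) (l 16696632)) (l 16627240)) (b (l 16659392) (l 16599056)))))) (b (a (a (b (l 16750504) (b (a (l 16740336) (l 16706896)) (a (l 16703272) (l 16703128)))) (b (b (l 16714776) (a (l 16730160) (l 16714352))) (a (l 16674000) (l 16670496)))) (a (b (a (l 16683432)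 (l 16680776)) (l 16635152)) (b (l 16645688) (l 16589384)))) (a (b (a (l 16623208) (l 16596616)) (a (b (l 16611184) (l 16572480)) (b (l 16564568) (l 16526592)))) (b (a (l 16571560) (l 16527128)) (a (b (l 16519608) (l 16482448)) (b (l 16476384) (a (l 16450608) (l 16430880)))))))), by decide +kernel⟩

def k35_pm_012_s : ∃ t, chk3 f_pm_012_s t 9 30 1 = true :=
  ⟨(a (b (a (a (b (a (b (a (l 16748608) (l 16721176)) (a (l 16718256) (l 16727352))) (b (a (l 16712912) (l 16721328)) (l 16707720))) (a (l 16662448) (l 16657864))) (b (a (l 16691800) (l 16666352)) (a (l 16653120) (l 16628000)))) (a (b (l 16586928) (l 16549120)) (b (l 16580392) (l 16543344)))) (a (a (b (a (b (l 16674032) (l 16652272)) (l 16597056)) (b (a (l 16629224) (l 16606856)) (a (l 16603696) (l 16582192)))) (b (a (l 16615024) (l 16590656)) (b (a (l 16584160) (l 16560848)) (a (l 16560464) (l 16545456))))) (b (a (a (l 16566144) (l 16542272)) (b (l 16516344) (a (l 16509632) (l 16490576)))) (a (b (a (l 16537448) (l 16516288))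 (a (b (l 16524704) (l 16522720)) (l 16513312))) (b (a (l 16479928) (l 16490680)) (l 16500280)))))) (a (b (a (b (l 16533584) (l 16476432)) (b (l 16488512) (b (l 16462432) (a (l 16458096) (l 16445048))))) (b (a (b (a (l 16482920) (l 16445536)) (l 16473272)) (l 16455184)) (a (l 16481312) (l 16465704)))) (b (a (a (b (l 16455904) (l 16416360)) (b (l 16437280) (l 16429272))) (b (a (l 16423304) (l 16414008)) (l 16420592))) (b (l 16435128) (l 16444320))))), by decide +kernel⟩

def k36_pm_012_s : ∃ t, chk3 f_pm_012_s t 9 31 1 = true :=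
  ⟨(a (b (a (b (a (b (a (l 16574096) (b (l 16560976) (l 16548224))) (a (b (b (l 16554272) (l 16528040)) (l 16545512)) (l 16541120))) (b (a (b (l 16542544) (l 16537376)) (l 16531072)) (l 16532184))) (a (b (l 16517704) (l 16511056)) (a (l 16527368) (l 16521704)))) (b (a (l 16519000) (l 16503488)) (a (l 16512624) (l 16497904)))) (a (b (a (b (l 16524488) (l 16496216)) (a (l 16512688) (l 16507320))) (a (b (a (l 16513800) (l 16508232)) (l 16505088)) (b (l 16479008) (l 16473816)))) (b (a (l 16499032) (l 16486864)) (a (b (l 16489120) (l 16483760)) (l 16475016))))) (b (a (b (l 16477984) (a (l 16482232) (l 16464648))) (b (l 16446632) (l 16440096))) (a (b (a (l 16471888) (l 16455912)) (a (l 16462488) (l 16447096))) (b (l 16429576) (l 16422240))))), by decide +kernel⟩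

def k37_pm_012_s : ∃ t, chk3 f_pm_012_s t 5 2 1 = true :=
  ⟨(b (a (a (a (l 3) (l 2)) (l 2)) (l 2)) (b (a (a (a (l 3) (a (b (l 3) (l 16765088)) (a (b (l 16772992) (l 16774416)) (l 16768888)))) (b (l 16731944) (l 16725632))) (b (l 2) (a (l 16655064) (l 2)))) (a (a (a (b (l 3) (a (l 3) (l 16770032))) (a (b (l 16776608) (l 16764400)) (a (b (l 16764408) (l 16750464)) (a (b (l 16757504) (l 16739896)) (b (l 16751776) (l 16728080)))))) (b (l 16714584) (l 16668576))) (b (a (l 16646168) (l 16577824)) (a (l 16625296) (l 16561888)))))), by decide +kernel⟩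

def k38_pm_012_s : ∃ t, chk3 f_pm_012_s t 5 6 1 = true :=
  ⟨(a (a (a (b (a (b (l 16767648) (l 16761888)) (b (l 16765128) (l 16721528))) (b (a (b (l 16743624) (l 16682832)) (b (l 16676280) (l 16688760))) (a (b (l 16653448) (l 16649872)) (l 16584544)))) (a (b (b (a (l 16751992) (l 16741776)) (a (l 16704728) (l 16686600))) (b (l 16636424) (l 16538360))) (b (a (b (l 16705520) (l 16681224)) (a (b (l 16706160) (l 16658176)) (b (l 16690736) (l 16643176)))) (a (b (l 16620296) (l 16545536)) (a (b (l 16598504) (l 16526024)) (b (l 16584648) (b (l 16533080) (l 16495488)))))))) (b (b (l 16630752) (l 16582104)) (b (l 16542896) (l 16470128)))) (b (b (a (l 16587272) (l 16525680)) (a (l 16536920) (l 16474768))) (b (a (l 16473496) (l 16409264)) (a (l 16396000) (l 16328176))))), by decide +kernel⟩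

def k39_pm_012_s : ∃ t, chk3 f_pm_012_s t 5 7 1 = true :=
  ⟨(b (a (b (a (a (a (b (l 16600112) (l 16545048)) (l 16445352)) (a (a (l 16497552) (l 16455776)) (a (b (l 16479752) (l 16438128)) (a (b (l 16465336) (l 16437104)) (b (a (a (a (l 16460776) (l 16463376)) (l 16463296)) (l 16461168)) (l 16442560)))))) (b (l 16416280) (l 16399688))) (a (a (b (a (l 16484360) (a (l 16453608) (l 16435016))) (a (b (l 16436056) (b (l 16415496) (l 16387432))) (b (a (l 16412112) (l 16404896)) (l 16401408)))) (a (b (a (l 16421384) (l 16413872)) (l 16378240)) (b (a (l 16414928) (l 16423664)) (a (l 16400376) (a (l 16405744) (l 16410224)))))) (b (l 16383984) (l 16366656)))) (b (b (a (l 16334040) (l 16259496)) (l 16273968)) (b (l 16258200) (a (l 16281264) (l 16201408))))) (a (b (a (a (b (a (l 16386768) (l 16378352)) (b (l 16412400) (l 16419392))) (b (a (l 16393824) (a (l 16392824) (a (l 16396552) (l 16399824)))) (a (l 16403032) (a (l 16399576) (a (l 16401416) (l 16403312)))))) (b (l 16356032)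 (l 16359384))) (a (a (b (l 16374000) (b (l 16397264) (l 16386472))) (a (b (l 16397712) (l 16368712)) (a (b (l 16391472) (l 16359320)) (b (a (l 16391152) (l 16391472)) (a (l 16356552) (l 16355064)))))) (b (l 16347488) (l 16311136)))) (b (b (l 16189328) (a (l 16275224) (l 16196608))) (b (a (l 16264432) (l 16186896)) (a (l 16229552) (l 16153456)))))), by decide +kernel⟩

def k40_pm_012_s : ∃ t, chk3 f_pm_012_s t 3 1 1 = true :=
  ⟨(a (a (b (b (l 2) (b (l 2) (b (l 2) (a (l 16497720) (l 2))))) (b (b (b (l 16290840) (l 16346312)) (b (l 16238128) (a (l 16266128) (l 16209264)))) (b (b (a (l 16135072) (l 16113400)) (b (l 16108368) (l 16091760))) (b (b (l 16082760) (l 16088744)) (l 6))))) (b (l 2) (b (b (b (l 2) (l 16279720)) (b (l 16216856) (l 16132808))) (b (l 6) (l 6))))) (b (l 2) (l 6))), by decide +kernel⟩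

theorem s41_pm_012_s : ∃ t, chk3 f_pm_012_s t 5 3 1 = true := ex3_b k38_pm_012_s k39_pm_012_s

theorem s42_pm_012_s : ∃ t, chk3 f_pm_012_s t 5 1 1 = true := ex3_b k37_pm_012_s s41_pm_012_s

theorem s43_pm_012_s : ∃ t, chk3 f_pm_012_s t 9 15 1 = true := ex3_b k35_pm_012_s k36_pm_012_s

theorem s44_pm_012_s : ∃ t, chk3 f_pm_012_s t 9 7 1 = true := ex3_b k34_pm_012_s s43_pm_012_s

theorem s45_pm_012_s : ∃ t, chk3 f_pm_012_s t 34 62 1 = true := ex3_a k30_pm_012_s k31_pm_012_s

theorem s46_pm_012_s : ∃ t, chk3 f_pm_012_s t 34 31 1 = true := ex3_b s45_pm_012_s k32_pm_012_s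

theorem s47_pm_012_s : ∃ t, chk3 f_pm_012_s t 17 31 1 = true := ex3_a s46_pm_012_s k33_pm_012_s

theorem s48_pm_012_s : ∃ t, chk3 f_pm_012_s t 34 61 1 = true := ex3_a k27_pm_012_s k28_pm_012_s

theorem s49_pm_012_s : ∃ t, chk3 f_pm_012_s t 34 30 1 = true := ex3_b k26_pm_012_s s48_pm_012_s

theorem s50_pm_012_s : ∃ t, chk3 f_pm_012_s t 17 30 1 = true := ex3_a s49_pm_012_s k29_pm_012_s

theorem s51_pm_012_s : ∃ t, chk3 f_pm_012_s t 17 15 1 = true := ex3_b s50_pm_012_s s47_pm_012_s

theorem s52_pm_012_s : ∃ t, chk3 f_pm_012_s t 66 126 1 = true := ex3_b k22_pm_012_s k23_pm_012_s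

theorem s53_pm_012_s : ∃ t, chk3 f_pm_012_s t 33 126 1 = true := ex3_a s52_pm_012_s k24_pm_012_s

theorem s54_pm_012_s : ∃ t, chk3 f_pm_012_s t 33 63 1 = true := ex3_b s53_pm_012_s k25_pm_012_s

theorem s55_pm_012_s : ∃ t, chk3 f_pm_012_s t 67 124 1 = true := ex3_a k19_pm_012_s k20_pm_012_s

theorem s56_pm_012_s : ∃ t, chk3 f_pm_012_s t 67 62 1 = true := ex3_b s55_pm_012_s k21_pm_012_s

theorem s57_pm_012_s : ∃ t, chk3 f_pm_012_s t 132 125 1 = true := ex3_b k16_pm_012_s k17_pm_012_s

theorem s58_pm_012_s : ∃ t, chk3 f_pm_012_s t 66 125 1 = true := ex3_a s57_pm_012_s k18_pm_012_s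

theorem s59_pm_012_s : ∃ t, chk3 f_pm_012_s t 66 62 1 = true := ex3_b k15_pm_012_s s58_pm_012_s

theorem s60_pm_012_s : ∃ t, chk3 f_pm_012_s t 33 62 1 = true := ex3_a s59_pm_012_s s56_pm_012_s

theorem s61_pm_012_s : ∃ t, chk3 f_pm_012_s t 33 31 1 = true := ex3_b s60_pm_012_s s54_pm_012_s

theorem s62_pm_012_s : ∃ t, chk3 f_pm_012_s t 65 254 1 = true := ex3_a k12_pm_012_s k13_pm_012_s

theorem s63_pm_012_s : ∃ t, chk3 f_pm_012_s t 65 127 1 = true := ex3_b s62_pm_012_s k14_pm_012_s

theorem s64_pm_012_s : ∃ t, chk3 f_pm_012_s t 131 252 1 = true := ex3_a k9_pm_012_s k10_pm_012_s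

theorem s65_pm_012_s : ∃ t, chk3 f_pm_012_s t 131 126 1 = true := ex3_b s64_pm_012_s k11_pm_012_s

theorem s66_pm_012_s : ∃ t, chk3 f_pm_012_s t 130 253 1 = true := ex3_a k7_pm_012_s k8_pm_012_s

theorem s67_pm_012_s : ∃ t, chk3 f_pm_012_s t 130 126 1 = true := ex3_b k6_pm_012_s s66_pm_012_s

theorem s68_pm_012_s : ∃ t, chk3 f_pm_012_s t 65 126 1 = true := ex3_a s67_pm_012_s s65_pm_012_s

theorem s69_pm_012_s : ∃ t, chk3 f_pm_012_s t 65 63 1 = true := ex3_b s68_pm_012_s s63_pm_012_s

theorem s70_pm_012_s : ∃ t, chk3 f_pm_012_s t 32 63 1 = true := ex3_a k5_pm_012_s s69_pm_012_s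

theorem s71_pm_012_s : ∃ t, chk3 f_pm_012_s t 32 31 1 = true := ex3_b k4_pm_012_s s70_pm_012_s

theorem s72_pm_012_s : ∃ t, chk3 f_pm_012_s t 16 31 1 = true := ex3_a s71_pm_012_s s61_pm_012_s

theorem s73_pm_012_s : ∃ t, chk3 f_pm_012_s t 16 15 1 = true := ex3_b k3_pm_012_s s72_pm_012_s

theorem s74_pm_012_s : ∃ t, chk3 f_pm_012_s t 8 15 1 = true := ex3_a s73_pm_012_s s51_pm_012_s

theorem s75_pm_012_s : ∃ t, chk3 f_pm_012_s t 8 7 1 = true := ex3_b k2_pm_012_s s74_pm_012_s

theorem s76_pm_012_s : ∃ t, chk3 f_pm_012_s t 4 7 1 = true := ex3_a s75_pm_012_s s44_pm_012_s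

theorem s77_pm_012_s : ∃ t, chk3 f_pm_012_s t 4 3 1 = true := ex3_b k1_pm_012_s s76_pm_012_s

theorem s78_pm_012_s : ∃ t, chk3 f_pm_012_s t 4 1 1 = true := ex3_b k0_pm_012_s s77_pm_012_s

theorem s79_pm_012_s : ∃ t, chk3 f_pm_012_s t 2 1 1 = true := ex3_a s78_pm_012_s s42_pm_012_s

theorem s80_pm_012_s : ∃ t, chk3 f_pm_012_s t 1 1 1 = true := ex3_a s79_pm_012_s k40_pm_012_s

theorem c_pm_012_s : CertNE 0 536870912 536870912 536870912 1040187392 5207648 3 eng mog cd0q0 cd0q1 pd2 true true false .pnp 0 1 2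
    ndB0q0 ndB0q1 pcB2 cut_pm_012_s Ext.none :=
  certNE2 (fam := true) (s1 := true) (s2 := false) (a := 0) (b := 1) (c := 2) (cn := .pnp) (n1 := ndB0q0) (n2 := ndB0q1) (pc := pcB2) (cut := cut_pm_012_s) (xt := Ext.none) (P1 := 0) (W1 := 536870912) (P2 := 536870912) (W2 := 536870912) (P3 := 1040187392) (W3 := 5207648) (N0 := 3) (En := eng) (mo := mog) (C1 := cd0q0) (C2 := cd0q1) (C3 := pd2)
    rfl (fun _ => rfl) s80_pm_012_s

noncomputable def cut_pm_012_t : Cut := Cut.of [[⟨3, 0, 0, 2845415833⟩], [⟨0, 0, 0, 16777216⟩, ⟨1, 1, 0, 16777216⟩, ⟨2, 1, 0, 16777216⟩]]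

noncomputable def f_pm_012_t : ℕ → ℕ → ℕ → ℕ → Bool := onCell 0 536870912 536870912 536870912 1040187392 5207648
    (rowNE 3 eng mog cd0q0 cd0q1 pd2 0 true true false .pnp 0 1 2 (qsf 0 536870912 536870912 536870912 2) ndB0q0 ndB0q1 pcB2 cut_pm_012_t Ext.none)

def k0_pm_012_t : ∃ t, chk3 f_pm_012_t t 1 1 1 = true :=
  ⟨(l 6), by decide +kernel⟩

theorem c_pm_012_t : CertNE 0 536870912 536870912 536870912 1040187392 5207648 3 eng mog cd0q0 cd0q1 pd2 true true false .pnp 0 1 2
    ndB0q0 ndB0q1 pcB2 cut_pm_012_t Ext.none :=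
  certNE0 (fam := true) (s1 := true) (s2 := false) (a := 0) (b := 1) (c := 2) (cn := .pnp) (n1 := ndB0q0) (n2 := ndB0q1) (pc := pcB2) (cut := cut_pm_012_t) (xt := Ext.none) (P1 := 0) (W1 := 536870912) (P2 := 536870912) (W2 := 536870912) (P3 := 1040187392) (W3 := 5207648) (N0 := 3) (En := eng) (mo := mog) (C1 := cd0q0) (C2 := cd0q1) (C3 := pd2)
    rfl k0_pm_012_t

noncomputable def cut_pm_022_s : Cut := Cut.of [[⟨4, 0, 0, 1449551462⟩], [⟨0, 0, 0, 22369621⟩, ⟨1, 1, 0, 22369621⟩, ⟨2, 1, 0, 22369621⟩]]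

noncomputable def f_pm_022_s : ℕ → ℕ → ℕ → ℕ → Bool := onCell 1073741824 536870912 0 536870912 1040187392 5207648
    (rowNE 3 eng mog cd0q0 cd0q2 pd2 2 true true false .pp 0 2 2 (qsf 0 536870912 0 536870912 2) ndB0q0 ndB0q2 pcB2 cut_pm_022_s Ext.none)

def k0_pm_022_s : ∃ t, chk3 f_pm_022_s t 4 2 1 = true :=
  ⟨(a (l 1) (l 6)), by decide +kernel⟩

def k1_pm_022_s : ∃ t, chk3 f_pm_022_s t 8 6 1 = true :=
  ⟨(l 1), by decide +kernel⟩

def k2_pm_022_s : ∃ t, chk3 f_pm_022_s t 8 14 1 = true :=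
  ⟨(a (l 1) (b (a (l 1) (b (l 1) (l 16483672))) (b (a (l 1) (l 16503560)) (a (a (l 16496408) (l 16521680)) (l 16542000))))), by decide +kernel⟩

def k3_pm_022_s : ∃ t, chk3 f_pm_022_s t 8 15 1 = true :=
  ⟨(a (a (b (l 1) (l 14)) (a (a (b (l 1) (l 14)) (b (b (l 1) (b (l 1) (b (b (l 1) (l 16566704)) (b (a (l 16575104) (b (l 16565848) (l 16583080))) (l 16593680))))) (b (b (b (a (l 16609680) (l 16614312)) (l 16619608)) (b (l 16648912) (l 16678672))) (b (l 16702344) (a (l 16664248) (l 16675968)))))) (b (b (b (l 1) (l 16525736)) (b (b (l 16545256) (l 16571512)) (b (a (b (l 16567648) (l 16576272)) (l 16582000)) (a (b (b (l 16583408) (l 16590064)) (l 16600392)) (b (b (l 16593248) (l 16599768)) (l 16610152)))))) (b (b (a (b (l 16600480) (l 16650232)) (b (l 16631344) (l 16660288))) (b (a (l 16679720) (l 16689936)) (l 16672840))) (b (a (l 16691232) (l 16672936)) (b (a (l 16695544) (l 16676800)) (a (l 16670320) (l 16651440)))))))) (b (b (a (b (l 16517376) (a (l 16547856) (l 16571824)))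 (b (l 16570280) (l 16569288))) (a (b (a (b (l 16566960) (l 16581768)) (l 16597576)) (a (b (l 16576992) (b (a (l 16606632) (l 16617344)) (l 16604624))) (b (l 16620840) (b (l 16613472) (l 16647744))))) (b (a (l 16622800) (l 16648720)) (a (b (l 16645328) (b (l 16658032) (l 16670840))) (b (l 16669528) (l 16665736)))))) (b (a (b (a (a (l 16614184) (l 16624968)) (b (l 16648264) (l 16677536))) (a (a (l 16673736) (l 16684800)) (a (l 16669416) (l 16651312)))) (a (b (l 16664376) (a (l 16654800) (l 16638000))) (b (l 16641232) (l 16614352)))) (a (b (a (b (l 16658184) (l 16632576)) (a (l 16638936) (l 16621456))) (a (a (l 16603448) (l 16606264)) (a (l 16588768) (l 16593144)))) (b (a (l 16575760) (l 16567176)) (a (a (l 16577464) (l 16562920)) (a (l 16549680) (l 16537936)))))))), by decide +kernel⟩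

def k4_pm_022_s : ∃ t, chk3 f_pm_022_s t 9 3 1 = true :=
  ⟨(b (a (b (l 1) (a (b (l 1) (l 16428104)) (b (l 16486424) (a (l 16529528) (l 16571240))))) (b (l 6) (b (a (l 16569288) (l 6)) (a (l 16534720) (l 16460968))))) (b (a (b (a (b (l 16515064) (l 16549968)) (a (l 16546120) (l 16605312))) (b (a (l 16546584) (l 16623952)) (a (l 16581784) (l 16615480)))) (b (a (l 16510728) (b (l 16489032) (l 16498288))) (a (b (l 16566488) (l 16552664)) (b (l 16507760) (l 16505520))))) (b (a (b (a (b (l 16626624) (l 16643936)) (b (l 16635456) (l 16614344))) (a (b (l 16642352) (a (l 16647704) (l 16617936))) (b (a (l 16645008) (l 16621992)) (a (l 16614168) (l 16616792))))) (a (b (b (l 16582824) (l 16590760)) (b (l 16574016) (a (l 16602664) (l 16589032)))) (b (l 16532560) (b (l 16566352) (l 16567424))))) (a (b (a (a (b (l 16631704) (l 16586608)) (b (l 16626816) (l 16565416))) (a (b (l 16607336) (l 16569880)) (b (l 16592560) (l 16557912)))) (a (a (b (l 16563840) (a (l 16527840) (l 16519752)))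 (b (l 16546312) (a (l 16512896) (l 16507136)))) (a (b (l 16533768) (l 16498632)) (b (l 16522232) (l 16487416))))) (b (a (a (b (l 16580888) (l 16546104)) (l 16530256)) (a (l 16537984) (l 16522944))) (a (a (l 16493016) (l 16480184)) (a (l 16464288) (l 16447808)))))))), by decide +kernel⟩

def k5_pm_022_s : ∃ t, chk3 f_pm_022_s t 5 1 1 = true :=
  ⟨(b (l 6) (b (a (a (b (l 6) (b (l 6) (a (l 16334528) (l 6)))) (l 6)) (l 6)) (b (a (a (b (a (l 16390344) (l 16385032)) (a (b (l 16464744) (l 16490424)) (b (l 16421936) (l 16447288)))) (b (a (l 6) (l 6)) (a (l 16387040) (l 16274408)))) (l 6)) (a (a (b (a (b (l 16518576) (a (l 16542496) (l 16522512))) (b (l 16475984) (l 16490856))) (a (b (a (l 16505024) (l 16486280)) (a (l 16429744) (l 16410328))) (a (b (l 16466040) (l 16392840)) (a (l 16353280) (a (l 16368384) (b (l 16440072) (l 16372488))))))) (b (b (l 16403536) (l 16423416)) (b (l 16397008) (l 16329072)))) (b (b (l 16204184) (l 16278120)) (b (a (l 16319840) (l 6)) (l 16212712))))))),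 by decide +kernel⟩

def k6_pm_022_s : ∃ t, chk3 f_pm_022_s t 3 1 1 = true :=
  ⟨(b (l 6) (l 6)), by decide +kernel⟩

theorem s7_pm_022_s : ∃ t, chk3 f_pm_022_s t 8 7 1 = true := ex3_b k2_pm_022_s k3_pm_022_s

theorem s8_pm_022_s : ∃ t, chk3 f_pm_022_s t 8 3 1 = true := ex3_b k1_pm_022_s s7_pm_022_s

theorem s9_pm_022_s : ∃ t, chk3 f_pm_022_s t 4 3 1 = true := ex3_a s8_pm_022_s k4_pm_022_s

theorem s10_pm_022_s : ∃ t, chk3 f_pm_022_s t 4 1 1 = true := ex3_b k0_pm_022_s s9_pm_022_s

theorem s11_pm_022_s : ∃ t, chk3 f_pm_022_s t 2 1 1 = true := ex3_a s10_pm_022_s k5_pm_022_s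

theorem s12_pm_022_s : ∃ t, chk3 f_pm_022_s t 1 1 1 = true := ex3_a s11_pm_022_s k6_pm_022_s

theorem c_pm_022_s : CertNE 0 536870912 0 536870912 1040187392 5207648 3 eng mog cd0q0 cd0q2 pd2 true true false .pp 0 2 2
    ndB0q0 ndB0q2 pcB2 cut_pm_022_s Ext.none :=
  certNE2 (fam := true) (s1 := true) (s2 := false) (a := 0) (b := 2) (c := 2) (cn := .pp) (n1 := ndB0q0) (n2 := ndB0q2) (pc := pcB2) (cut := cut_pm_022_s) (xt := Ext.none) (P1 := 0) (W1 := 536870912) (P2 := 0) (W2 := 536870912) (P3 := 1040187392) (W3 := 5207648) (N0 := 3) (En := eng) (mo := mog) (C1 := cd0q0) (C2 := cd0q2) (C3 := pd2)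
    rfl (fun _ => rfl) s12_pm_022_s

noncomputable def cut_pm_022_t : Cut := Cut.of [[⟨3, 0, 0, 2845415833⟩], [⟨0, 0, 0, 22369621⟩, ⟨1, 1, 0, 22369621⟩, ⟨2, 1, 0, 22369621⟩]]

noncomputable def f_pm_022_t : ℕ → ℕ → ℕ → ℕ → Bool := onCell 1073741824 536870912 0 536870912 1040187392 5207648
    (rowNE 3 eng mog cd0q0 cd0q2 pd2 2 true true false .pp 0 2 2 (qsf 0 536870912 0 536870912 2) ndB0q0 ndB0q2 pcB2 cut_pm_022_t Ext.none)

def k0_pm_022_t : ∃ t, chk3 f_pm_022_t t 1 1 1 = true :=
  ⟨(a (l 6) (b (l 6) (l 6))), by decide +kernel⟩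

theorem c_pm_022_t : CertNE 0 536870912 0 536870912 1040187392 5207648 3 eng mog cd0q0 cd0q2 pd2 true true false .pp 0 2 2
    ndB0q0 ndB0q2 pcB2 cut_pm_022_t Ext.none :=
  certNE2 (fam := true) (s1 := true) (s2 := false) (a := 0) (b := 2) (c := 2) (cn := .pp) (n1 := ndB0q0) (n2 := ndB0q2) (pc := pcB2) (cut := cut_pm_022_t) (xt := Ext.none) (P1 := 0) (W1 := 536870912) (P2 := 0) (W2 := 536870912) (P3 := 1040187392) (W3 := 5207648) (N0 := 3) (En := eng) (mo := mog) (C1 := cd0q0) (C2 := cd0q2) (C3 := pd2)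
    rfl (fun _ => rfl) k0_pm_022_t

noncomputable def cut_pm_023_s : Cut := Cut.of [[⟨4, 0, 0, 1449551462⟩]]

noncomputable def f_pm_023_s : ℕ → ℕ → ℕ → ℕ → Bool := onCell 1610612736 536870912 0 536870912 1040187392 5207648
    (rowNE 3 eng mog cd0q0 cd0q2 pd3 2 true true false .up 0 2 3 (qsf 0 536870912 0 536870912 3) ndB0q0 ndB0q2 pcB3 cut_pm_023_s Ext.none)

def k0_pm_023_s : ∃ t, chk3 f_pm_023_s t 1 1 1 = true :=
  ⟨(l 6), by decide +kernel⟩

theorem c_pm_023_s : CertNE 0 536870912 0 536870912 1040187392 5207648 3 eng mog cd0q0 cd0q2 pd3 true true false .up 0 2 3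
    ndB0q0 ndB0q2 pcB3 cut_pm_023_s Ext.none :=
  certNE2 (fam := true) (s1 := true) (s2 := false) (a := 0) (b := 2) (c := 3) (cn := .up) (n1 := ndB0q0) (n2 := ndB0q2) (pc := pcB3) (cut := cut_pm_023_s) (xt := Ext.none) (P1 := 0) (W1 := 536870912) (P2 := 0) (W2 := 536870912) (P3 := 1040187392) (W3 := 5207648) (N0 := 3) (En := eng) (mo := mog) (C1 := cd0q0) (C2 := cd0q2) (C3 := pd3)
    rfl (fun _ => rfl) k0_pm_023_s

noncomputable def cut_pm_023_t : Cut := Cut.of [[⟨3, 0, 0, 2845415833⟩]]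

noncomputable def f_pm_023_t : ℕ → ℕ → ℕ → ℕ → Bool := onCell 0 536870912 0 536870912 1040187392 5207648
    (rowNE 3 eng mog cd0q0 cd0q2 pd3 0 true true false .up 0 2 3 (qsf 0 536870912 0 536870912 3) ndB0q0 ndB0q2 pcB3 cut_pm_023_t Ext.none)

def k0_pm_023_t : ∃ t, chk3 f_pm_023_t t 1 1 1 = true :=
  ⟨(a (l 1) (b (a (b (a (l 1) (b (a (l 1) (b (l 16338216) (l 6))) (l 6))) (l 6)) (b (a (b (a (l 16295992) (l 16458560)) (l 6)) (b (a (l 16519120) (l 16573704)) (a (b (l 16435232) (l 6)) (b (l 16496704) (l 16443016))))) (a (l 6) (l 6)))) (l 6))), by decide +kernel⟩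

theorem c_pm_023_t : CertNE 0 536870912 0 536870912 1040187392 5207648 3 eng mog cd0q0 cd0q2 pd3 true true false .up 0 2 3
    ndB0q0 ndB0q2 pcB3 cut_pm_023_t Ext.none :=
  certNE0 (fam := true) (s1 := true) (s2 := false) (a := 0) (b := 2) (c := 3) (cn := .up) (n1 := ndB0q0) (n2 := ndB0q2) (pc := pcB3) (cut := cut_pm_023_t) (xt := Ext.none) (P1 := 0) (W1 := 536870912) (P2 := 0) (W2 := 536870912) (P3 := 1040187392) (W3 := 5207648) (N0 := 3) (En := eng) (mo := mog) (C1 := cd0q0) (C2 := cd0q2) (C3 := pd3)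
    rfl k0_pm_023_t

noncomputable def cut_pm_101_s : Cut := Cut.of [[⟨4, 0, 0, 1449551462⟩], [⟨0, 1, 0, 26843545⟩, ⟨1, 0, 0, 26843545⟩, ⟨2, 1, 0, 26843545⟩]]

noncomputable def f_pm_101_s : ℕ → ℕ → ℕ → ℕ → Bool := onCell 536870912 536870912 536870912 536870912 1040187392 5207648
    (rowNE 3 eng mog cd0q1 cd0q0 pd1 1 true true false .npn 1 0 1 (qsf 536870912 536870912 0 536870912 1) ndB0q1 ndB0q0 pcB1 cut_pm_101_s Ext.none)

def k0_pm_101_s : ∃ t, chk3 f_pm_101_s t 1 1 1 = true :=
  ⟨(b (l 3) (a (l 3) (b (l 3) (a (l 3) (b (l 3) (a (l 3) (b (l 3) (a (l 3) (b (l 3) (a (l 3) (l 14))))))))))), by decide +kernel⟩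

theorem c_pm_101_s : CertNE 536870912 536870912 0 536870912 1040187392 5207648 3 eng mog cd0q1 cd0q0 pd1 true true false .npn 1 0 1
    ndB0q1 ndB0q0 pcB1 cut_pm_101_s Ext.none :=
  certNE1 (fam := true) (s1 := true) (s2 := false) (a := 1) (b := 0) (c := 1) (cn := .npn) (n1 := ndB0q1) (n2 := ndB0q0) (pc := pcB1) (cut := cut_pm_101_s) (xt := Ext.none) (P1 := 536870912) (W1 := 536870912) (P2 := 0) (W2 := 536870912) (P3 := 1040187392) (W3 := 5207648) (N0 := 3) (En := eng) (mo := mog) (C1 := cd0q1) (C2 := cd0q0) (C3 := pd1)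
    rfl (fun _ => rfl) k0_pm_101_s

noncomputable def cut_pm_101_t : Cut := Cut.of [[⟨3, 0, 0, 2845415833⟩], [⟨0, 1, 0, 26843545⟩, ⟨1, 0, 0, 26843545⟩, ⟨2, 1, 0, 26843545⟩]]

noncomputable def f_pm_101_t : ℕ → ℕ → ℕ → ℕ → Bool := onCell 536870912 536870912 0 536870912 1040187392 5207648
    (rowNE 3 eng mog cd0q1 cd0q0 pd1 0 true true false .npn 1 0 1 (qsf 536870912 536870912 0 536870912 1) ndB0q1 ndB0q0 pcB1 cut_pm_101_t Ext.none)

def k0_pm_101_t : ∃ t, chk3 f_pm_101_t t 1 1 1 = true :=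
  ⟨(l 6), by decide +kernel⟩

theorem c_pm_101_t : CertNE 536870912 536870912 0 536870912 1040187392 5207648 3 eng mog cd0q1 cd0q0 pd1 true true false .npn 1 0 1
    ndB0q1 ndB0q0 pcB1 cut_pm_101_t Ext.none :=
  certNE0 (fam := true) (s1 := true) (s2 := false) (a := 1) (b := 0) (c := 1) (cn := .npn) (n1 := ndB0q1) (n2 := ndB0q0) (pc := pcB1) (cut := cut_pm_101_t) (xt := Ext.none) (P1 := 536870912) (W1 := 536870912) (P2 := 0) (W2 := 536870912) (P3 := 1040187392) (W3 := 5207648) (N0 := 3) (En := eng) (mo := mog) (C1 := cd0q1) (C2 := cd0q0) (C3 := pd1)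
    rfl k0_pm_101_t

noncomputable def cut_pm_102_s : Cut := Cut.of [[⟨4, 0, 0, 1449551462⟩], [⟨0, 1, 0, 16777216⟩, ⟨1, 0, 0, 16777216⟩, ⟨2, 1, 0, 16777216⟩]]

noncomputable def f_pm_102_s : ℕ → ℕ → ℕ → ℕ → Bool := onCell 536870912 536870912 1073741824 536870912 1040187392 5207648
    (rowNE 3 eng mog cd0q1 cd0q0 pd2 1 true true false .npp 1 0 2 (qsf 536870912 536870912 0 536870912 2) ndB0q1 ndB0q0 pcB2 cut_pm_102_s Ext.none)

def k0_pm_102_s : ∃ t, chk3 f_pm_102_s t 2 1 1 = true :=
  ⟨(b (b (b (l 3) (l 3)) (a (b (b (b (l 3) (l 2)) (l 2)) (l 2)) (a (b (b (b (l 3) (b (a (l 3) (l 16765088)) (b (a (l 16772992) (l 16774416)) (l 16768888)))) (a (l 16731944) (l 16725632))) (a (l 2) (b (l 16655064) (l 2)))) (b (b (b (a (l 3) (b (l 3) (l 16770032))) (b (a (l 16776608) (l 16764400)) (b (a (l 16764408) (l 16750464)) (b (a (l 16757504) (l 16739896)) (a (l 16751776) (l 16728080)))))) (a (l 16714584) (l 16668576))) (a (b (l 16646168) (l 16577824)) (b (l 16625296) (l 16561888)))))))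 (a (l 2) (b (a (l 2) (b (a (l 2) (b (l 16497720) (l 2))) (l 2))) (l 2)))), by decide +kernel⟩

def k1_pm_102_s : ∃ t, chk3 f_pm_102_s t 6 4 1 = true :=
  ⟨(b (l 3) (b (a (l 3) (b (l 3) (a (l 3) (b (l 3) (a (l 3) (l 16686056)))))) (a (b (l 3) (a (l 3) (b (l 305647213607) (l 67276511559)))) (b (a (b (l 3) (a (l 3) (l 16763856))) (b (a (l 16755256) (l 16768584)) (a (l 16767400) (l 16750864)))) (a (b (a (l 16773848) (l 16764864)) (l 16754240)) (b (a (l 16749768) (a (l 16736448) (l 16682000))) (a (b (l 16735656) (l 16702416)) (b (l 16686800) (l 16684816))))))))), by decide +kernel⟩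

def k2_pm_102_s : ∃ t, chk3 f_pm_102_s t 14 8 1 = true :=
  ⟨(b (l 3) (a (l 3) (b (l 3) (a (l 3) (b (a (l 3) (b (l 3) (a (l 3) (b (l 431275061031) (l 190756900919))))) (a (b (l 413021414439) (l 120426734487)) (b (a (l 16735200) (l 16770712)) (l 16764448)))))))), by decide +kernel⟩

def k3_pm_102_s : ∃ t, chk3 f_pm_102_s t 30 16 1 = true :=
  ⟨(b (l 3) (a (l 3) (b (l 3) (a (l 3) (b (l 3) (a (l 3) (b (a (l 3) (b (l 3) (a (l 3) (b (a (l 3) (l 349133860775)) (a (b (l 255181427655) (l 173577060215)) (l 16764944)))))) (a (b (a (l 3) (b (l 3) (l 410874001959))) (a (b (l 3) (b (l 427517002151) (l 351818216359))) (b (a (l 370071821799) (l 140291063911)) (l 102710103319)))) (b (a (b (a (l 440401905719) (b (l 227801015351) (l 16766080))) (a (b (l 199346861111) (l 16765696)) (l 16753600))) (l 16767104)) (a (l 16761080) (l 16756296))))))))))), by decide +kernel⟩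

def k4_pm_102_s : ∃ t, chk3 f_pm_102_s t 62 32 1 = true :=
  ⟨(b (l 3) (a (l 3) (b (l 3) (a (l 3) (b (l 3) (a (l 3) (b (l 3) (a (l 3) (b (a (l 3) (b (l 3) (b (l 433959467751) (a (l 3) (a (l 16775840) (l 16776552)))))) (a (a (l 476909138647) (b (l 488720300039) (a (a (l 378124892583) (l 198273134455)) (l 46875533079)))) (a (b (b (l 308331669239) (l 83382759895)) (l 16765024)) (l 16769560)))))))))))), by decide +kernel⟩

def k5_pm_102_s : ∃ t, chk3 f_pm_102_s t 63 64 1 = true :=
  ⟨(a (b (l 3) (a (l 3) (b (l 3) (a (l 3) (b (l 3) (a (l 3) (b (l 3) (a (l 3) (b (l 3) (a (l 3) (a (l 394231018887) (b (l 385641086327) (l 16774208))))))))))))) (b (l 14) (a (b (l 14) (a (b (l 14) (a (b (l 14) (a (b (l 14) (b (l 14) (l 16769864))) (l 14))) (l 14))) (l 14))) (l 14)))), by decide +kernel⟩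

def k6_pm_102_s : ∃ t, chk3 f_pm_102_s t 252 130 1 = true :=
  ⟨(b (l 3) (a (l 3) (b (l 3) (a (l 3) (b (l 3) (a (l 3) (b (b (l 500531461927) (a (l 3) (a (l 432885726551) (l 16771680)))) (a (a (l 409263407047) (b (l 415705857383) (l 16771592))) (l 53317984391))))))))), by decide +kernel⟩

def k7_pm_102_s : ∃ t, chk3 f_pm_102_s t 253 260 1 = true :=
  ⟨(a (b (l 3) (a (l 3) (b (l 3) (a (l 3) (b (l 503215816423) (a (l 457581789047) (a (b (l 431275113799) (l 16771648)) (l 72645341687)))))))) (b (a (a (l 3) (b (l 3) (b (l 3) (a (l 3) (a (b (l 3) (l 197199393447)) (b (l 214916133591) (l 16771312))))))) (b (a (b (l 3) (a (l 3) (a (a (l 461876756391) (l 353965700919)) (b (l 280951258551) (l 16771464))))) (b (a (b (l 380809246103) (a (l 307794804135) (l 16771528))) (l 61371050615)) (a (l 16773400) (l 16769376)))) (a (b (a (a (b (l 3) (l 229411648263)) (b (l 241222808391) (l 16771392))) (l 16770704)) (l 16772536)) (b (l 16768584) (l 16767072))))) (a (b (a (b (l 535964942023) (a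 (l 508047654727) (b (a (l 477446012519) (a (l 16775896) (l 16776944))) (b (l 84993373623) (l 16771312))))) (b (a (a (b (l 536501813143) (l 163376523255)) (b (l 182167007847) (l 16765992))) (l 16770544)) (l 16769736))) (a (b (a (b (a (l 453823692087) (l 16775688)) (l 75329696375)) (l 16770368)) (l 16769552)) (l 16769400))) (b (a (b (l 16768400) (l 16766872)) (c (l 16767400) (l 16767400))) (b (l 16765200) (l 16763632)))))), by decide +kernel⟩

def k8_pm_102_s : ∃ t, chk3 f_pm_102_s t 253 261 1 = true :=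
  ⟨(a (b (a (b (l 3) (a (l 3) (a (a (l 3) (a (l 460803009239) (b (l 3) (l 275582546487)))) (a (b (l 3) (b (l 215453007159) (l 16766072))) (b (l 357723795975) (l 16770968)))))) (b (a (b (l 468319204567) (a (l 406579049831) (a (b (l 320679706023) (l 16771496)) (l 16771152)))) (b (b (a (a (l 389936053623) (l 16771616)) (l 16765320)) (l 16773128)) (l 16769352))) (a (b (b (a (a (l 262160776615) (l 16771448)) (l 16775608)) (l 16770312)) (l 16769136)) (l 16769616)))) (a (a (a (a (b (l 511268880151) (b (l 75329695975) (l 16775032))) (b (b (l 3) (b (l 475298528871) (l 16774384))) (l 16769848))) (b (b (a (l 533817458535) (b (l 3) (l 16776424))) (a (a (l 84993373575) (l 16771296)) (l 16765520))) (l 16768736))) (b (b (b (b (a (l 265382000231) (l 16775600)) (l 16770680)) (l 16764864)) (l 16768912)) (l 16766504))) (b (a (l 16766752) (l 16763800)) (b (l 16762848) (l 16761208))))) (b (a (b (a (l 16768528) (l 16766936)) (a (l 16764064) (l 16761128))) (a (b (l 16761400) (l 16763432)) (b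 (b (l 16764528) (a (l 16763656) (a (l 16762560) (a (l 16761960) (l 16761560))))) (a (b (l 16761960) (a (a (l 16760888) (l 16760504)) (b (l 16760368) (l 16759304)))) (b (a (b (l 16761272) (l 16760424)) (l 16759928)) (l 16758240)))))) (a (b (b (l 16760176) (l 16758544)) (a (l 16762800) (a (l 16757832) (a (b (l 16760272) (a (l 16758704) (l 16758328))) (b (l 16759424) (l 16757616)))))) (a (b (a (a (l 16761224) (b (l 16761352) (a (l 16759800) (l 16758120)))) (a (b (l 16760520) (c (l 16758792) (l 16758760))) (b (b (l 16760216) (l 16759320)) (l 16757648)))) (b (b (a (a (l 16759128) (l 16758152)) (l 16756552)) (l 16756576)) (l 16754904))) (b (b (l 16757184) (l 16754984)) (l 16751736)))))), by decide +kernel⟩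

def k9_pm_102_s : ∃ t, chk3 f_pm_102_s t 252 262 1 = true :=
  ⟨(a (b (l 3) (a (l 3) (b (a (l 3) (l 493015263767)) (a (b (l 3) (a (l 3) (l 382419858839))) (b (a (l 417316465447) (a (b (l 354502573447) (l 16771504)) (l 16771160))) (b (a (a (l 319605963895) (l 16776688)) (l 16775560)) (l 16770240))))))) (b (a (b (l 3) (a (l 531133103719) (b (a (l 3) (a (l 336248959239) (b (l 210621168919) (l 16776520)))) (a (b (l 306184188183) (a (l 16774432) (l 16776400))) (l 16765184))))) (a (b (b (b (l 450065590999) (a (l 3) (a (l 351281347703) (l 16771496)))) (a (a (l 355576314951) (b (l 317458480231) (l 16766144))) (l 16770672))) (b (l 16769800) (l 16762912))) (b (b (l 16772656) (l 16763184)) (l 16765960)))) (a (a (b (b (a (l 486572818263) (a (b (l 466171723383) (l 16771712)) (l 80698405159))) (b (a (a (l 431811984727) (l 16771664)) (l 16775824)) (l 16773120))) (b (l 16769272) (l 16762352))) (b (l 16770024) (l 16765352))) (b (a (l 16765656) (l 16762608)) (b (l 16761592) (l 16759880)))))),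 by decide +kernel⟩

def k10_pm_102_s : ∃ t, chk3 f_pm_102_s t 252 263 1 = true :=
  ⟨(a (b (a (b (a (l 3) (a (l 3) (b (l 3) (b (l 531133103975) (l 278803771559))))) (a (b (l 3) (b (l 482277850503) (a (l 3) (a (l 394767891655) (l 16776808))))) (b (a (a (l 454897434519) (b (l 455434304823) (l 16771680))) (l 56002341415)) (l 64592272583)))) (a (b (b (b (a (l 3) (a (l 16776512) (l 16776568))) (a (l 324974667479) (l 16765632))) (b (a (l 86067114839) (l 16775280)) (l 16764720))) (l 16767848)) (b (l 16768144) (l 16764736)))) (a (b (a (b (a (a (l 402820955031) (a (l 203641841367) (l 16775536))) (l 16770712)) (l 16769792)) (l 16767536)) (a (l 16767224) (l 16764088))) (b (b (l 16763712) (l 16756736)) (l 16759368)))) (b (a (b (b (l 16764352) (l 16762640)) (c (l 16760064) (l 16760032))) (b (l 16757280) (l 16753784))) (a (b (l 16756560) (l 16753032)) (a (b (l 16757072) (l 16753464)) (b (b (l 16754808) (a (l 16753816) (l 16752104))) (a (b (l 16751928) (a (l 16750536) (l 16749720)))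 (a (b (l 16750760) (l 16748616)) (l 16748736)))))))), by decide +kernel⟩

def k11_pm_102_s : ∃ t, chk3 f_pm_102_s t 253 131 1 = true :=
  ⟨(b (a (b (a (b (a (l 16766240) (l 16763232)) (b (l 16762256) (l 16760576))) (b (b (l 16759560) (l 16763128)) (a (l 16762120) (b (l 16759936) (a (l 16758992) (l 16756032)))))) (a (b (c (l 16758048) (l 16758024)) (l 16754592)) (a (b (l 16758704) (a (a (l 16756328) (b (l 16756480) (l 16754632))) (b (a (l 16755624) (a (l 16755064) (l 16754672))) (l 16753320)))) (b (a (b (l 16757200) (a (l 16755824) (l 16755040))) (a (b (a (l 16756240) (l 16755864)) (l 16753952)) (l 16754080))) (l 16751232))))) (b (a (a (b (b (l 16760296) (a (l 16759368) (a (l 16758144) (a (l 16757584) (l 16757192))))) (a (a (b (l 16758024) (a (l 16756440) (l 16756016))) (b (l 16757184) (l 16755176))) (a (b (l 16756368) (l 16754128)) (l 16754160)))) (b (a (b (a (l 16758312) (a (l 16757768) (l 16757288))) (l 16755896)) (l 16754824)) (l 16751520))) (b (a (l 16751648) (l 16747400))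 (a (l 16747296) (l 16743064)))) (a (b (a (l 16751376) (l 16747160)) (l 16739656)) (b (l 16735592) (l 16736496))))) (a (a (b (a (b (l 16757880) (a (l 16755128) (a (l 16753824) (b (l 16754072) (l 16752200))))) (b (a (l 16755456) (b (l 16754768) (a (l 16753432) (l 16752536)))) (a (b (a (l 16753192) (l 16752400)) (l 16750688)) (l 16749696)))) (b (a (a (a (b (l 16752800) (l 16750968)) (b (l 16751976) (l 16749896))) (b (l 16750632) (l 16748344))) (l 16746328)) (l 16744000))) (b (b (a (a (a (b (l 16753648) (l 16751440)) (l 16751496)) (l 16749936)) (l 16746800)) (l 16739248)) (b (l 16740096) (l 16735712)))) (b (a (b (l 16740528) (l 16736160)) (b (l 16732144) (l 16727800))) (b (a (l 16731784) (l 16723448)) (a (l 16727408) (l 16719096)))))), by decide +kernel⟩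

def k12_pm_102_s : ∃ t, chk3 f_pm_102_s t 254 130 1 = true :=
  ⟨(a (b (b (a (b (a (b (l 16768760) (l 16767264)) (b (l 14) (l 16769688))) (a (a (l 16765704) (l 16764288)) (b (l 16768168) (l 16766632)))) (a (b (l 14) (a (a (a (l 16765800) (l 14)) (l 14)) (l 14))) (l 14))) (a (b (a (l 16764536) (a (a (l 16765368) (b (l 16765432) (l 16763776))) (a (b (l 16764720) (b (l 16763464) (l 16762608))) (b (a (l 16764112) (b (l 16764200) (l 16763360))) (l 16762072))))) (a (b (l 16764808) (a (l 16763944) (a (a (l 16763016) (l 16762592)) (b (l 16762456) (l 16761552))))) (b (a (a (a (l 16763104) (b (l 16763184) (l 16762336))) (a (b (l 16762800) (l 16761776)) (l 16761800))) (l 16760416)) (l 16759360)))) (b (a (a (b (a (a (b (l 16763800) (l 16762824)) (l 16762864)) (l 16762008)) (l 16760400)) (l 16759304)) (b (l 14) (l 16754984))) (a (c (l 16751536) (l 16750840)) (l 16747840))))) (a (a (b (b (a (a (b (l 16762672) (b (l 16761432) (l 16760440))) (b (b (l 16762320) (l 16761496)) (l 16759888)))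 (a (b (b (l 16761536) (l 16760424)) (l 16758808)) (l 16758816))) (l 16750864)) (b (l 16751792) (l 16747472))) (b (b (l 16752192) (l 16751816)) (b (l 16747512) (l 16743200)))) (a (b (b (l 16751808) (l 16747520)) (b (l 16743224) (l 16738928))) (b (b (l 16747488) (l 16743208)) (b (l 16738928) (l 16734640)))))) (b (b (l 14) (a (b (l 14) (b (l 14) (l 16738952))) (l 14))) (b (a (b (a (l 16743168) (l 16738832)) (a (l 16738896) (l 16734576))) (b (l 14) (l 16730704))) (a (b (l 16733784) (l 16728200)) (a (l 16726496) (b (a (l 16722760) (l 14)) (a (l 16718520) (c (l 16714912) (l 16706840))))))))), by decide +kernel⟩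

def k13_pm_102_s : ∃ t, chk3 f_pm_102_s t 254 131 1 = true :=
  ⟨(a (b (b (a (b (a (l 16743152) (l 16738888)) (l 16736704)) (b (l 16732488) (l 16728192))) (b (a (l 16732384) (l 16723896)) (a (l 16728064) (l 16719600)))) (b (b (a (l 16723736) (l 16715304)) (a (l 16719416) (l 16711000))) (a (l 16715544) (l 16704544)))) (b (a (b (b (l 16723936) (l 16719664)) (b (l 16715392) (l 16711080))) (b (a (b (l 16717504) (a (l 16714320) (b (l 16702808) (l 16701024)))) (a (a (b (l 16709736) (l 16711952)) (l 16713424)) (l 16713640))) (a (a (b (l 16704904) (l 16701504)) (l 16705536)) (l 16708696)))) (a (b (a (l 16706816) (a (b (l 16705784) (l 16696512)) (b (l 16698968) (l 16701288)))) (a (a (l 16699264) (b (l 16688912) (l 16685448))) (l 16694936))) (l 16701136)))), by decide +kernel⟩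

def k14_pm_102_s : ∃ t, chk3 f_pm_102_s t 255 65 1 = true :=
  ⟨(b (a (b (l 14) (b (l 14) (b (l 14) (l 16719056)))) (l 14)) (a (b (a (l 16712336) (l 16714080)) (l 16703800)) (b (l 16716792) (l 16707520)))), by decide +kernel⟩

def k15_pm_102_s : ∃ t, chk3 f_pm_102_s t 124 66 1 = true :=
  ⟨(b (l 3) (a (l 3) (b (l 3) (a (l 3) (b (a (l 3) (b (l 435033202679) (a (l 401747209463) (b (a (l 386177956183) (l 16765992)) (l 16765080))))) (a (b (a (l 3) (b (l 3) (a (l 3) (l 187535703895)))) (a (b (l 440401909991) (a (l 436106951751) (l 16771520))) (b (l 155323457927) (l 16753768)))) (b (a (b (a (l 322827187687) (l 16765616)) (l 16764680)) (l 16762568)) (l 16760664)))))))), by decide +kernel⟩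

def k16_pm_102_s : ∃ t, chk3 f_pm_102_s t 250 132 1 = true :=
  ⟨(b (l 3) (a (l 3) (b (a (l 3) (b (l 3) (a (l 3) (b (l 3) (l 412484626743))))) (a (b (l 3) (a (l 3) (a (l 3) (a (l 401747209079) (b (l 3) (l 16771584)))))) (a (b (a (l 3) (a (l 435033204439) (b (l 3) (l 188609457591)))) (a (b (a (l 394767891303) (l 174113934695)) (l 16765304)) (l 16769872))) (b (a (b (l 312089765383) (l 16770904)) (l 67813498007)) (l 16762320))))))), by decide +kernel⟩

def k17_pm_102_s : ∃ t, chk3 f_pm_102_s t 251 132 1 = true :=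
  ⟨(b (a (b (l 3) (a (b (l 3) (l 483888449047)) (b (a (l 3) (b (a (l 3) (a (l 444696886535) (a (l 281488129175) (l 196662524295)))) (a (b (l 429127630071) (l 179482652423)) (l 16770808)))) (a (b (b (l 425369530343) (a (l 3) (l 244444034183))) (a (a (l 279877516247) (l 221895455335)) (l 16765240))) (l 16770648))))) (b (b (a (a (l 3) (b (l 463487365527) (a (l 429664499623) (b (l 215989874071) (l 16771056))))) (a (b (a (a (a (l 272361323415) (l 174113940583)) (l 16771232)) (l 16764864)) (l 16763920)) (l 16766896))) (a (a (b (a (l 3) (l 410337146919)) (b (a (l 490330912055) (l 84993372711)) (a (l 255718322519) (l 16765496)))) (b (b (a (l 170892717239) (l 16775456)) (l 16764888)) (l 16763592))) (a (l 16766568) (l 16763424)))) (a (b (a (a (b (l 60297307367) (l 16774520)) (l 16763336)) (l 16766232)) (b (l 16765184) (l 16763440))) (b (c (l 16761520) (l 16761480)) (l 16757984))))) (a (b (b (a (a (l 447918103303) (b (a (l 449528720967) (a (l 226190419623) (l 16771400))) (a (a (l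 186998844343) (l 16771256)) (l 16764888)))) (a (l 16768664) (l 16760296))) (a (a (a (b (l 407115919815) (c (l 50633633447) (l 48486149463))) (a (b (l 261087032583) (l 16775400)) (l 16770232))) (l 16763056)) (l 16763608))) (a (b (b (l 16762008) (l 16760264)) (l 16757640)) (b (l 16760104) (l 16761840)))) (b (a (b (l 16760808) (l 16757296)) (b (l 16759696) (l 16756160))) (a (b (l 16759016) (l 16755496)) (l 16742984))))), by decide +kernel⟩

def k18_pm_102_s : ∃ t, chk3 f_pm_102_s t 250 133 1 = true :=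
  ⟨(b (a (b (a (l 3) (b (l 3) (a (l 3) (b (l 419463946999) (a (l 386177956167) (l 16771200)))))) (a (b (l 3) (a (l 462950484663) (b (a (l 3) (l 190756938279)) (a (l 177872038391) (l 16765224))))) (b (a (b (l 387788564711) (a (l 328732767735) (l 16765608))) (l 16770744)) (l 16767528)))) (b (a (b (a (b (l 450602458535) (a (l 442549402711) (l 234780356519))) (b (a (c (l 173577070519) (l 175187685559)) (l 16765120)) (l 16764152))) (a (a (b (l 207936810615) (l 16775008)) (l 16763856)) (l 16761552))) (b (l 16760384) (l 16756904))) (a (b (l 16759624) (l 16756168)) (a (l 16753256) (l 16760624))))) (a (b (a (b (a (b (a (l 448454982743) (l 238538452999)) (l 63518530023)) (l 16763400)) (l 16761480)) (a (l 16758656) (l 16755608))) (a (l 16761624) (l 16750320))) (b (a (l 16756240) (l 16744792)) (b (l 16742776) (l 16739400))))), by decide +kernel⟩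

def k19_pm_102_s : ∃ t, chk3 f_pm_102_s t 251 133 1 = true :=
  ⟨(b (a (a (b (b (l 16754152) (l 16761144)) (l 16745432)) (b (b (l 16758336) (l 16754832)) (l 16749592))) (a (b (l 16739728) (a (l 16744808) (b (l 16743216) (a (b (l 16741496) (l 16739696)) (b (l 16739840) (l 16737760)))))) (b (a (b (l 16747160) (b (l 16744512) (l 16742568))) (b (a (l 16744736) (b (l 16743976) (l 16742128))) (a (b (l 16741968) (l 16740152)) (l 16739128)))) (b (a (a (b (l 16741680) (l 16739968)) (l 16739072)) (l 16735848)) (l 16733680))))) (a (a (b (l 16749008) (b (l 16743888) (a (l 16742088) (b (l 16739784) (l 16737912))))) (b (b (l 16744392) (a (l 16742552) (a (l 16740032) (b (l 16728816) (l 16737616))))) (a (b (a (l 16739944) (b (l 16739136) (l 16726928))) (a (b (l 16726816) (l 16735472)) (l 16734408))) (b (b (a (l 16737520) (l 16735488)) (l 16734432)) (l 16731336))))) (b (a (a (b (a (l 16740224) (b (l 16729072) (l 16737744))) (l 16735712)) (l 16733600)) (l 16727368)) (a (l 16727256) (l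 16719016))))), by decide +kernel⟩

def k20_pm_102_s : ∃ t, chk3 f_pm_102_s t 124 134 1 = true :=
  ⟨(a (b (a (l 3) (b (l 3) (a (l 3) (b (l 3) (a (l 3) (l 400673461575)))))) (a (b (l 3) (a (l 3) (b (l 3) (a (l 446307485415) (b (l 224042937623) (l 16771216)))))) (b (a (b (l 3) (a (l 3) (b (l 432885717127) (c (l 193978159911) (l 194515030599))))) (a (b (l 373293052663) (l 130090521063)) (b (b (l 163913393047) (l 16754360)) (l 16772928)))) (a (b (a (b (l 248738974327) (l 170355843911)) (l 16764688)) (l 16762920)) (l 16759064))))) (b (a (b (a (l 3) (b (a (l 3) (b (l 404968431879) (a (l 367924345015) (l 16765920)))) (a (b (l 384030471895) (l 154786588487)) (l 16764192)))) (a (b (a (l 427517004855) (b (a (l 271287557799) (l 16771712)) (l 16770904))) (a (a (b (l 403357825735) (l 16776440)) (l 16770600)) (l 16752832))) (l 16763304))) (b (a (b (b (l 16770536) (l 16751872)) (l 16759856)) (l 16755632)) (b (l 16753616) (l 16750344)))) (a (b (a (a (l 16761264) (l 16758456)) (l 16754200))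 (b (l 16752288) (l 16749184))) (b (b (l 16747120) (l 16743952)) (a (l 16752672) (l 16746872)))))), by decide +kernel⟩

def k21_pm_102_s : ∃ t, chk3 f_pm_102_s t 124 135 1 = true :=
  ⟨(a (b (a (b (a (b (l 417853322967) (a (l 379198626631) (b (l 173577059367) (l 16754688)))) (b (a (b (l 199346869431) (l 16765592)) (l 16753328)) (l 16751576))) (a (b (b (l 123648069639) (l 16752968)) (l 16750744)) (l 16757576))) (b (b (l 16757136) (l 16754104)) (b (l 16751136) (l 16748240)))) (a (b (b (l 16755800) (l 16752984)) (l 16751544)) (b (l 16746664) (l 16738736)))) (b (a (b (a (l 16757904) (l 16752328)) (l 16740136)) (b (l 16733312) (a (l 16740944) (b (l 16736656) (a (l 16735336) (a (l 16733048) (l 16731904))))))) (a (b (l 16733328) (a (l 16741352) (b (l 16737240) (l 16734568)))) (a (b (b (l 16736880) (a (l 16735664) (a (l 16733592) (l 16732008)))) (a (b (l 16732920) (a (l 16731184) (l 16729384))) (b (a (l 16730832) (l 16728840)) (l 16726272)))) (b (a (b (b (l 16733200) (l 16731816))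 (a (l 16730488) (l 16728416))) (b (l 16729192) (l 16725376))) (l 16721960)))))), by decide +kernel⟩

def k22_pm_102_s : ∃ t, chk3 f_pm_102_s t 125 67 1 = true :=
  ⟨(b (a (b (a (b (b (l 16748304) (l 16744984)) (a (l 16753568) (l 16747536))) (a (b (l 16747968) (l 16741440)) (b (l 16736400) (a (b (l 16738440) (a (l 16735824) (b (l 16724648) (l 16733472)))) (b (a (l 16735920) (b (l 16724776) (l 16733368))) (l 16731432)))))) (a (b (l 16733696) (a (l 16741000) (a (l 16739120) (b (a (l 16735816) (l 16734128)) (a (c (l 16732760) (l 16732536)) (l 16730864)))))) (a (b (a (b (l 16738200) (a (l 16735856) (l 16734152))) (b (a (l 16735800) (b (l 16735048) (l 16723000))) (b (l 16732584) (l 16730512)))) (b (a (a (b (l 16722960) (l 16731720)) (l 16730616)) (l 16727568)) (l 16725688))) (b (b (a (l 16731568) (l 16727344)) (l 16725400)) (l 16719480))))) (b (a (b (a (a (b (l 16738576) (a (b (l 16736968) (l 16724840)) (l 16734456))) (b (a (b (l 16726616) (l 16724952)) (l 16734472)) (l 16731288)))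 (l 16727208)) (a (l 16727248) (l 16719056))) (b (a (l 16719000) (l 16710720)) (a (l 16710808) (l 16702496)))) (a (b (a (l 16719208) (l 16710976)) (l 16707120)) (b (l 16698520) (l 16690464))))) (a (b (a (a (b (a (l 16736568) (b (l 16734976) (a (l 16732760) (l 16731240)))) (a (b (a (l 16732880) (b (l 16721696) (l 16730560))) (l 16728816)) (l 16726552))) (b (b (a (a (l 16732688) (l 16731064)) (l 16727912)) (l 16726112)) (l 16720408))) (b (l 16705288) (l 16708080))) (a (b (l 16706520) (l 16709632)) (b (l 16700472) (l 16692976)))) (b (a (b (l 16699232) (l 16691432)) (b (l 16682480) (l 16674584))) (a (b (l 16683720) (l 16676096)) (b (l 16666776) (l 16659048)))))), by decide +kernel⟩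

def k23_pm_102_s : ∃ t, chk3 f_pm_102_s t 252 66 1 = true :=
  ⟨(b (b (a (b (a (b (b (l 16763056) (l 16756064)) (l 16758672)) (b (l 16755848) (l 16757552))) (a (b (l 16749904) (l 16756840)) (b (l 16753984) (a (l 16752024) (b (l 16749688) (a (l 16748704) (l 16746952))))))) (a (b (a (l 16749288) (b (l 16753120) (a (l 16750184) (b (l 16749496) (c (l 16747760) (l 16747664)))))) (a (b (a (l 16749968) (b (l 16749184) (c (l 16747400) (l 16747296)))) (a (b (l 16747152) (l 16745256)) (l 16744216))) (a (b (a (b (l 16747960) (l 16745880)) (l 16746024)) (l 16742096)) (l 16742192)))) (b (a (b (a (b (l 16751624) (l 16749696)) (b (a (l 16750328) (l 16749552)) (l 16747936))) (b (a (l 16747848) (l 16745672)) (l 16744528))) (l 16738408)) (b (l 16739168) (l 16734800))))) (a (a (b (b (l 16753280) (l 16749720)) (a (b (l 16747784) (a (l 16744920) (b (l 16744176) (l 16742440)))) (b (a (l 16745160) (b (l 16744496) (l 16742648))) (b (l 16741592) (l 16739304))))) (b (a (b (l 16748296) (a (b (l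 16746528) (l 16744672)) (b (l 16744856) (l 16742720)))) (b (a (b (l 16746784) (l 16745016)) (b (l 16745160) (l 16742904))) (l 16740688))) (b (l 16738520) (l 16734152)))) (a (b (b (l 16738784) (l 16734448)) (l 16727968)) (b (b (l 16730456) (l 16726112)) (l 16719624))))) (a (b (b (a (b (a (b (a (l 16742288) (l 16740264)) (l 16739160)) (l 16736096)) (l 16733904)) (l 16727728)) (a (l 16727528) (l 16719208))) (b (a (l 16719088) (l 16710752)) (a (l 16710704) (l 16702352)))) (b (b (a (l 16719376) (l 16711016)) (a (l 16710848) (l 16702472))) (b (a (l 16702368) (l 16693976)) (l 16689736))))), by decide +kernel⟩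

def k24_pm_102_s : ∃ t, chk3 f_pm_102_s t 253 66 1 = true :=
  ⟨(b (b (a (a (b (b (l 16739616) (l 16735232)) (b (l 16730856) (l 16726496))) (b (b (l 16731320) (l 16726944)) (l 16723008))) (a (b (a (l 16722920) (l 16718784)) (l 16712120)) (b (l 16712560) (l 16703856)))) (a (a (b (l 16719968) (l 16711304)) (b (l 16711680) (l 16703016))) (b (a (l 16703416) (l 16695168)) (a (l 16694752) (l 16686504))))) (a (b (b (a (l 16702688) (l 16694392)) (l 16693240)) (b (l 16681440) (l 16672976))) (b (b (l 16685920) (a (l 16677536) (l 16669240))) (a (l 16664752) (b (a (l 16662808) (a (l 16638928) (l 16648544))) (a (l 16653472) (l 16653768))))))), by decide +kernel⟩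

def k25_pm_102_s : ∃ t, chk3 f_pm_102_s t 126 67 1 = true :=
  ⟨(a (b (b (a (b (l 16698200) (l 16689928)) (b (l 16681368) (l 16673056))) (a (b (l 16681736) (l 16673600)) (b (l 16664800) (l 16656616)))) (b (a (b (l 16665552) (l 16657568)) (l 16649704)) (a (l 16650992) (l 16628512)))) (b (a (b (b (l 16664568) (l 16656216)) (a (l 16648016) (b (l 16643744) (a (l 16637600) (l 16623576))))) (b (a (a (l 16649920) (b (l 16639672) (l 16632984))) (b (l 16638336) (l 16643952))) (a (a (b (l 16628168) (l 16633168)) (l 16636040)) (l 16637064)))) (a (b (a (b (l 16635752) (l 16627664)) (a (b (l 16608736) (l 16602560)) (l 16605048))) (a (a (b (l 16621744) (l 16593840)) (b (l 16598080) (l 16614120))) (l 16616952))) (l 16622976)))), by decide +kernel⟩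

def k26_pm_102_s : ∃ t, chk3 f_pm_102_s t 127 33 1 = true :=
  ⟨(b (a (a (b (b (a (b (l 16704264) (l 16695592)) (b (b (l 16698088) (a (l 16695864) (l 16686568))) (a (l 16689352) (a (b (l 16688488) (l 16674488)) (l 16675928))))) (a (b (l 16686928) (a (l 16680328) (a (l 16677224) (l 16674472)))) (a (b (a (l 16681912) (l 16679688)) (l 16665072)) (l 16678768)))) (b (a (b (a (l 16671792) (a (l 16659448) (l 16669928))) (a (b (l 16655624) (l 16642088)) (l 16664872))) (l 16668592)) (l 16658096))) (b (b (b (a (a (a (b (l 16682880) (l 16690392)) (l 16691992)) (l 16692640)) (l 16693968)) (l 16688272)) (l 16681008)) (l 16673072))) (b (a (b (l 16694336) (l 16684816)) (b (l 16698192) (l 16688800))) (a (l 16670416) (l 16674544)))) (a (b (a (l 16643952) (l 16647376)) (a (l 16625672) (l 16628856))) (b (a (l 16651224) (l 16655488)) (a (l 16632480) (l 16636536))))), by decide +kernel⟩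

def k27_pm_102_s : ∃ t, chk3 f_pm_102_s t 60 34 1 = true :=
  ⟨(b (l 3) (a (l 3) (b (a (l 3) (b (l 3) (a (l 400673437495) (b (l 162302734039) (l 16775032))))) (a (b (a (l 3) (l 298131106743)) (a (l 151028433847) (l 16774056))) (b (a (l 96267626583) (l 16749904)) (l 16747152)))))), by decide +kernel⟩

def k28_pm_102_s : ∃ t, chk3 f_pm_102_s t 61 68 1 = true :=
  ⟨(a (b (a (l 3) (b (l 3) (a (l 3) (b (l 3) (a (l 3) (l 400136592103)))))) (a (b (l 3) (a (l 3) (b (l 432348822055) (a (l 391546649815) (l 118279344983))))) (b (a (b (l 3) (a (l 3) (b (l 411410875863) (l 142438538455)))) (b (a (a (l 434496320471) (l 304573570919)) (b (l 133311734311) (l 16753808))) (b (l 71034716503) (l 16751448)))) (a (b (a (a (l 178408880055) (l 16766016)) (l 16753352)) (l 16751216)) (b (l 16748648) (l 16766200)))))) (b (a (b (a (l 3) (b (a (l 3) (b (l 3) (a (l 407115910951) (a (l 204178698839) (l 16766096))))) (a (b (l 385104200359) (a (l 213842367127) (l 16770976))) (b (a (l 138143579879) (l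 16753712)) (l 16752288))))) (a (b (a (l 434496313943) (b (a (l 3) (l 186998825447)) (a (l 160155283879) (l 16754480)))) (a (b (a (l 235317200839) (l 16766248)) (l 16765016)) (l 16752024))) (b (a (l 60297297751) (l 16759272)) (b (l 16757952) (l 16755872))))) (b (a (b (a (b (a (b (l 248202109575) (l 16766392)) (l 16765016)) (l 16763512)) (l 16760352)) (b (l 16758808) (l 16756400))) (b (b (l 16754712) (l 16752168)) (l 16751184))) (a (b (b (l 16754144) (l 16752008)) (a (l 16761560) (l 16757416))) (b (l 16744216) (l 16745656))))) (a (a (b (b (l 16760088) (l 16756224)) (b (l 16763224) (l 16760104))) (b (b (l 16752952) (l 16749408)) (b (l 16756712) (l 16753888)))) (b (a (b (l 16755912) (l 16752680)) (b (l 16747544) (l 16744592))) (a (b (l 16749800) (l 16747264)) (a (b (l 16744072) (b (l 16742304) (a (l 16742160) (b (l 16740304) (l 16739536))))) (b (a (l 16741032) (b (l 16739456) (a (l 16728168) (l 16737264)))) (a (b (a (l 16729136) (l 16738312)) (l 16736552)) (l 16733992))))))))),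 by decide +kernel⟩

def k29_pm_102_s : ∃ t, chk3 f_pm_102_s t 61 69 1 = true :=
  ⟨(a (b (b (a (a (b (l 323900910743) (l 118279334487)) (b (l 16763912) (l 16771176))) (a (l 16756808) (l 16751240))) (a (b (l 16749760) (l 16746968)) (a (l 16761872) (l 16756816)))) (a (b (l 16743288) (l 16760152)) (b (l 16744744) (a (l 16754024) (b (l 16750336) (a (l 16750024) (l 16746760))))))) (b (a (b (a (l 16756040) (l 16739744)) (a (l 16751632) (b (a (l 16748568) (l 16745472)) (a (l 16746512) (b (a (l 16744952) (l 16742752)) (l 16741760)))))) (b (a (b (a (l 16746688) (b (l 16743824) (a (l 16743672) (l 16741576)))) (a (b (l 16745144) (l 16743856)) (a (b (l 16742360) (l 16740496)) (l 16738224)))) (b (a (a (b (l 16741712) (l 16738656)) (l 16736232)) (l 16730304)) (l 16728584))) (a (b (a (b (a (l 16743776) (l 16741320)) (l 16740360)) (l 16734368)) (l 16732456)) (l 16699224)))) (a (b (a (b (l 16748704) (a (l 16748416) (b (l 16745904) (l 16744112)))) (b (a (b (l 16744856) (l 16742984)) (l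 16737488)) (l 16735368))) (a (b (a (l 16740616) (l 16739904)) (l 16737664)) (l 16727048))) (b (b (l 16698520) (l 16693000)) (a (l 16713088) (l 16698136)))))), by decide +kernel⟩

def k30_pm_102_s : ∃ t, chk3 f_pm_102_s t 30 35 1 = true :=
  ⟨(a (b (a (b (a (b (l 3) (l 304573545111)) (b (a (l 400136570807) (l 16755640)) (l 16773680))) (a (b (l 16775800) (l 16771312)) (l 16746536))) (b (a (b (l 16771192) (l 16767040)) (l 16751704)) (a (l 16761648) (b (l 16757344) (a (l 16755728) (l 16741240)))))) (a (b (l 16740968) (a (l 16755464) (b (l 16752984) (l 16736472)))) (b (a (b (l 16756400) (a (l 16753856) (l 16750160))) (b (a (l 16730296) (l 16723584)) (l 16717280))) (a (b (a (l 16748352) (l 16741728)) (l 16734024)) (l 16719552))))) (a (b (b (a (b (l 16756760) (a (l 16755528) (b (l 16752664) (l 16750376)))) (b (a (b (l 16751672) (a (l 16751304) (l 16748264))) (b (a (l 16747560) (l 16741912)) (l 16739536))) (a (b (l 16735768) (l 16740912)) (l 16731136)))) (a (b (a (b (l 16753272)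 (l 16750920)) (a (l 16726336) (l 16741584))) (a (l 16723904) (l 16733096))) (l 16699592))) (b (a (l 16700536) (l 16697984)) (a (l 16697944) (l 16675248)))) (b (b (a (b (l 16701840) (l 16690808)) (b (l 16673840) (l 16683968))) (a (l 16663824) (b (l 16673184) (l 16662448)))) (b (a (l 16673336) (l 16646400)) (a (l 16651352) (l 16625064)))))), by decide +kernel⟩

def k31_pm_102_s : ∃ t, chk3 f_pm_102_s t 62 68 1 = true :=
  ⟨(a (b (a (b (a (b (l 16746432) (l 16739136)) (b (l 16733816) (l 16739832))) (a (b (l 16745448) (l 16741776)) (a (b (l 16738280) (a (b (l 16736768) (l 16734832)) (b (a (l 16734912) (l 16733528)) (l 16733216)))) (b (a (b (l 16735576) (a (l 16734208) (l 16732832))) (b (b (l 16722912) (l 16732328)) (l 16730224))) (b (a (l 16731048) (l 16726872)) (l 16725712)))))) (b (a (a (b (l 16736472) (a (b (l 16734592) (a (l 16722496) (l 16731576))) (b (a (l 16721976) (l 16731000)) (l 16728656)))) (b (a (b (l 16733648) (a (l 16731992) (l 16730456))) (b (a (l 16731568)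 (l 16729920)) (l 16727352))) (l 16724224))) (b (l 16708416) (l 16711896))) (a (b (a (l 16725760) (l 16717456)) (l 16714968)) (b (l 16705008) (l 16698240))))) (a (b (a (a (b (l 16740856) (a (l 16739088) (b (l 16737448) (a (l 16736600) (l 16735008))))) (b (a (l 16737224) (b (l 16735640) (a (l 16734608) (l 16732808)))) (b (a (a (l 16735576) (l 16733888)) (l 16730760)) (l 16729840)))) (b (a (b (a (a (l 16733696) (l 16731752)) (l 16728696)) (l 16727656)) (l 16720984)) (l 16718960))) (a (b (a (a (b (a (l 16737648) (l 16736160)) (l 16734272)) (l 16731640)) (l 16725480)) (l 16723856)) (b (l 16712960) (l 16707128)))) (b (a (b (l 16708504) (l 16702176)) (b (l 16691600) (l 16685080))) (a (b (l 16695976) (l 16689912)) (l 16679472))))) (b (a (b (a (b (l 16702368) (l 16695208)) (b (l 16685568) (l 16678272))) (a (b (l 16688168) (l 16681232)) (b (l 16671088) (l 16664008)))) (b (a (b (l 16668576) (l 16661144)) (l 16652872)) (a (l 16650200) (l 16632736)))) (a (b (a (b (l 16674424) (l 16667736))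 (l 16653592)) (a (l 16657928) (l 16640128))) (b (a (l 16635976) (l 16618248)) (a (l 16622200) (l 16604184)))))), by decide +kernel⟩

def k32_pm_102_s : ∃ t, chk3 f_pm_102_s t 62 69 1 = true :=
  ⟨(a (b (a (b (a (b (l 16718224) (l 16712592)) (b (l 16701384) (l 16695720))) (a (l 16683240) (l 16687384))) (b (a (b (l 16683984) (l 16678232)) (l 16663296)) (a (l 16669760) (l 16651664)))) (a (b (a (l 16693160) (l 16676344)) (a (l 16682224) (l 16665440))) (b (a (l 16658752) (l 16640440)) (a (l 16647872) (l 16629592))))) (a (b (b (a (l 16645304) (l 16627152)) (a (l 16633216) (l 16614680))) (b (a (l 16621736) (l 16602752)) (a (l 16610672) (l 16591432)))) (b (a (b (l 16608888) (l 16596072)) (b (l 16590496) (a (l 16582096) (b (l 16566104) (l 16561392))))) (a (b (l 16583768) (a (l 16576840) (a (l 16569552) (l 16555272)))) (b (a (b (l 16551840) (l 16557536)) (l 16567016)) (l 16552256)))))), by decide +kernel⟩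

def k33_pm_102_s : ∃ t, chk3 f_pm_102_s t 63 34 1 = true :=
  ⟨(a (b (a (b (a (b (l 16630280) (l 16615176)) (b (a (l 16617224) (a (l 16610832) (b (l 16589848) (l 16605336)))) (a (a (l 16604136) (b (l 16603616) (l 16576576))) (l 16594128)))) (a (b (a (l 16604904) (b (l 16599648) (l 16590104))) (a (l 16590656) (a (b (l 16566784) (l 16582712)) (l 16584200)))) (b (a (a (b (l 16573056) (l 16589400)) (l 16591288)) (l 16591528)) (l 16584192)))) (b (a (b (l 16587184) (l 16600032)) (l 16605872)) (l 16589064))) (a (b (a (b (a (a (b (l 16582528) (l 16556088)) (l 16557096)) (l 16577528)) (l 16571560)) (l 16574120)) (l 16552112)) (b (l 16553512) (l 16540344)))) (b (a (b (l 16609584) (l 16592824)) (b (l 16616224) (l 16598728))) (a (b (l 16577120) (l 16562632)) (b (l 16582072) (l 16566448))))), by decide +kernel⟩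

def k34_pm_102_s : ∃ t, chk3 f_pm_102_s t 31 35 1 = true :=
  ⟨(a (a (b (b (a (b (a (l 16671400) (l 16654664)) (l 16652424)) (b (a (l 16637120) (l 16618864)) (l 16617456))) (a (b (l 16641808) (l 16631272)) (b (l 16606968) (l 16596576)))) (b (a (l 16615576) (b (l 16586280) (l 16576064))) (a (l 16594800) (a (l 16569656) (b (l 16557840) (l 16530264)))))) (b (a (b (b (a (l 16599976) (l 16580528)) (a (l 16589408) (b (l 16572624) (l 16567480)))) (a (b (l 16578976) (l 16568624)) (b (a (l 16564520) (l 16547448)) (a (l 16535912) (l 16553936))))) (b (a (b (a (b (l 16568440) (l 16542616)) (l 16539688)) (a (l 16553824) (l 16556768))) (l 16556472)) (l 16545920))) (a (b (a (b (a (l 16563184) (l 16534936)) (l 16543104)) (l 16550520)) (l 16525728)) (b (l 16524592) (l 16540024))))) (a (b (a (b (l 16531720) (l 16523856)) (b (l 16528752) (l 16539880))) (a (b (l 16517264) (l 16532672)) (b (l 16511088) (l 16504520)))) (b (a (a (l 16543576) (l 16543768)) (a (l 16544640) (l 16546176))) (a (b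 (l 16528184) (l 16520376)) (l 16522336))))), by decide +kernel⟩

def k35_pm_102_s : ∃ t, chk3 f_pm_102_s t 14 9 1 = true :=
  ⟨(b (a (b (b (l 3) (a (l 3) (b (l 368997997207) (l 16703616)))) (b (a (b (l 16667624) (l 16761736)) (b (l 16770944) (l 16761936))) (a (l 16768320) (b (l 16752976) (l 16721712))))) (b (a (b (a (l 367387396151) (b (l 16702264) (l 16770768))) (b (l 16746376) (l 16737312))) (b (a (l 16763456) (b (l 16755288) (a (l 16749632) (b (l 16745040) (l 16717528))))) (a (b (l 16749800) (a (l 16743312) (b (l 16738496) (l 16730648)))) (b (a (b (l 16741912) (l 16734928)) (l 16702104)) (l 16686480))))) (a (b (a (l 16750440) (b (l 16742384) (a (l 16735616) (l 16703520)))) (a (b (l 16713264) (l 16697544)) (b (l 16688440) (l 16684216)))) (b (a (b (a (l 16708592) (l 16712160)) (l 16696632)) (l 16627240)) (a (l 16659392) (l 16599056)))))) (a (b (b (a (l 16750504) (a (b (l 16740336) (l 16706896)) (b (l 16703272) (l 16703128)))) (a (a (l 16714776) (b (l 16730160) (l 16714352)))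 (b (l 16674000) (l 16670496)))) (b (a (b (l 16662456) (l 16680776)) (l 16635152)) (a (l 16645688) (l 16589384)))) (b (a (b (l 16623208) (l 16596616)) (b (a (l 16611184) (l 16572480)) (a (l 16564568) (l 16526592)))) (a (b (l 16571560) (l 16527128)) (b (a (l 16519608) (l 16482448)) (a (l 16476384) (b (l 16450608) (l 16430880)))))))), by decide +kernel⟩

def k36_pm_102_s : ∃ t, chk3 f_pm_102_s t 30 9 1 = true :=
  ⟨(b (a (b (b (a (b (a (b (l 16748608) (l 16721176)) (b (a (l 16743056) (l 16735720)) (l 16727352))) (a (b (l 16712912) (l 16721328)) (l 16707720))) (b (l 16662448) (l 16657864))) (a (b (l 16691800) (l 16666352)) (b (l 16653120) (l 16628000)))) (b (a (l 16586928) (l 16549120)) (a (l 16580392) (l 16543344)))) (b (b (a (b (a (l 16674032) (l 16652272)) (l 16597056)) (a (b (l 16629224) (l 16606856)) (b (l 16603696) (l 16582192)))) (a (b (l 16615024) (l 16590656)) (a (b (l 16584160) (l 16560848)) (b (l 16560464) (a (l 16544456) (l 16534864)))))) (a (b (b (l 16566144)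 (l 16542272)) (a (l 16516344) (b (l 16509632) (l 16490576)))) (b (a (b (l 16537448) (l 16516288)) (b (a (l 16524704) (l 16522720)) (l 16513312))) (a (b (l 16479928) (l 16490680)) (l 16500280)))))) (b (a (b (a (l 16533584) (l 16476432)) (a (l 16488512) (a (l 16462432) (b (l 16458096) (l 16445048))))) (a (b (a (b (l 16482920) (l 16445536)) (l 16473272)) (l 16455184)) (b (l 16481312) (l 16465704)))) (a (b (a (b (l 16455904) (l 16437280)) (b (l 16416360) (l 16429272))) (a (b (l 16423304) (l 16414008)) (l 16420592))) (a (l 16435128) (l 16444320))))), by decide +kernel⟩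

def k37_pm_102_s : ∃ t, chk3 f_pm_102_s t 31 9 1 = true :=
  ⟨(b (a (b (a (b (a (b (l 16574096) (a (l 16560976) (l 16548224))) (b (a (a (l 16554272) (l 16528040)) (l 16545512)) (l 16541120))) (a (b (a (l 16542544) (l 16537376)) (l 16531072)) (l 16532184))) (b (a (l 16517704) (l 16511056)) (b (l 16527368) (l 16521704)))) (a (b (l 16519000) (l 16503488)) (b (l 16512624) (l 16497904)))) (b (a (b (a (l 16524488) (l 16496216)) (b (l 16512688) (l 16507320))) (b (a (b (l 16513800) (l 16508232)) (l 16503776)) (a (l 16479008) (l 16473816)))) (a (b (l 16499032) (l 16486864)) (b (a (l 16489120) (l 16483760)) (l 16475016))))) (a (b (a (l 16477984) (b (l 16482232) (l 16464648))) (a (l 16446632) (l 16440096))) (b (a (b (l 16471888) (l 16455912)) (b (l 16462488) (l 16447096))) (a (l 16429576) (l 16422240))))), by decide +kernel⟩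

def k38_pm_102_s : ∃ t, chk3 f_pm_102_s t 6 5 1 = true :=
  ⟨(b (b (b (a (b (a (l 16767648) (l 16761888)) (a (l 16765128) (l 16700552))) (a (b (a (l 16743624) (l 16682832)) (a (l 16676280) (l 16688760))) (b (a (l 16653448) (l 16649872)) (l 16584544)))) (b (a (a (b (l 16751992) (l 16741776)) (b (l 16704728) (l 16686600))) (a (l 16615448) (l 16538360))) (a (b (a (l 16684552) (l 16681224)) (b (a (l 16706160) (l 16658176)) (a (l 16690736) (l 16643176)))) (b (a (l 16620296) (l 16545536)) (a (b (l 16598504) (l 16584648)) (b (l 16526024) (a (l 16533080) (l 16495488)))))))) (a (a (l 16630752) (l 16582104)) (a (l 16542896) (l 16470128)))) (a (a (b (l 16587272) (l 16525680)) (b (l 16536920) (l 16474768))) (a (b (l 16473496) (l 16409264)) (b (l 16396000) (l 16328176))))), by decide +kernel⟩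

def k39_pm_102_s : ∃ t, chk3 f_pm_102_s t 7 5 1 = true :=
  ⟨(a (b (a (b (b (b (a (l 16600112) (l 16545048)) (l 16445352)) (b (b (l 16497552) (l 16455776)) (b (a (l 16479752) (l 16417152)) (b (a (l 16465336) (l 16437104)) (a (b (b (b (l 16460776) (l 16463376)) (l 16463296)) (l 16461168)) (l 16442560)))))) (a (l 16416280) (l 16399688))) (b (b (a (b (l 16484360) (b (l 16453608) (l 16435016))) (b (a (l 16436056) (a (l 16415496) (l 16387432))) (a (b (l 16412112) (l 16404896)) (l 16401408)))) (b (a (b (l 16421384) (l 16413872)) (l 16378240)) (a (b (l 16414928) (l 16423664)) (b (l 16400376) (b (l 16405744) (l 16410224)))))) (a (l 16383984) (l 16366656)))) (a (a (a (l 16305088) (l 16287392)) (l 16273968)) (a (l 16258200) (b (l 16281264) (l 16201408))))) (b (a (b (b (a (b (l 16386768) (l 16378352)) (a (l 16412400) (l 16419392))) (a (b (l 16393824) (b (l 16392824) (b (l 16396552) (l 16399824)))) (b (l 16403032) (b (l 16399576) (b (l 16401416) (l 16403312)))))) (a (l 16356032)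 (l 16359384))) (b (b (a (a (l 16419376) (l 16410376)) (a (l 16397264) (l 16386472))) (b (a (l 16397712) (l 16368712)) (b (a (l 16391472) (l 16359320)) (a (b (l 16391152) (l 16391472)) (b (l 16356552) (l 16355064)))))) (a (l 16347488) (l 16311136)))) (a (a (l 16189328) (b (l 16275224) (l 16196608))) (a (b (l 16264432) (l 16186896)) (b (l 16229552) (l 16153456)))))), by decide +kernel⟩

def k40_pm_102_s : ∃ t, chk3 f_pm_102_s t 3 3 1 = true :=
  ⟨(b (b (a (a (a (b (l 16466320) (l 16408528)) (l 16346312)) (a (l 16238128) (b (l 16266128) (l 16209264)))) (a (a (b (l 16135072) (l 16113400)) (a (l 16108368) (l 16091760))) (a (a (l 16082760) (l 16088744)) (l 6)))) (a (a (a (l 2) (l 16279720)) (a (l 16216856) (l 16132808))) (a (l 6) (l 6)))) (l 6)), by decide +kernel⟩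

theorem s41_pm_102_s : ∃ t, chk3 f_pm_102_s t 3 5 1 = true := ex3_a k38_pm_102_s k39_pm_102_s

theorem s42_pm_102_s : ∃ t, chk3 f_pm_102_s t 15 9 1 = true := ex3_a k36_pm_102_s k37_pm_102_s

theorem s43_pm_102_s : ∃ t, chk3 f_pm_102_s t 7 9 1 = true := ex3_a k35_pm_102_s s42_pm_102_s

theorem s44_pm_102_s : ∃ t, chk3 f_pm_102_s t 62 34 1 = true := ex3_b k31_pm_102_s k32_pm_102_s

theorem s45_pm_102_s : ∃ t, chk3 f_pm_102_s t 31 34 1 = true := ex3_a s44_pm_102_s k33_pm_102_s

theorem s46_pm_102_s : ∃ t, chk3 f_pm_102_s t 31 17 1 = true := ex3_b s45_pm_102_s k34_pm_102_s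

theorem s47_pm_102_s : ∃ t, chk3 f_pm_102_s t 61 34 1 = true := ex3_b k28_pm_102_s k29_pm_102_s

theorem s48_pm_102_s : ∃ t, chk3 f_pm_102_s t 30 34 1 = true := ex3_a k27_pm_102_s s47_pm_102_s

theorem s49_pm_102_s : ∃ t, chk3 f_pm_102_s t 30 17 1 = true := ex3_b s48_pm_102_s k30_pm_102_s

theorem s50_pm_102_s : ∃ t, chk3 f_pm_102_s t 15 17 1 = true := ex3_a s49_pm_102_s s46_pm_102_s

theorem s51_pm_102_s : ∃ t, chk3 f_pm_102_s t 126 66 1 = true := ex3_a k23_pm_102_s k24_pm_102_s

theorem s52_pm_102_s : ∃ t, chk3 f_pm_102_s t 126 33 1 = true := ex3_b s51_pm_102_s k25_pm_102_s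

theorem s53_pm_102_s : ∃ t, chk3 f_pm_102_s t 63 33 1 = true := ex3_a s52_pm_102_s k26_pm_102_s

theorem s54_pm_102_s : ∃ t, chk3 f_pm_102_s t 124 67 1 = true := ex3_b k20_pm_102_s k21_pm_102_s

theorem s55_pm_102_s : ∃ t, chk3 f_pm_102_s t 62 67 1 = true := ex3_a s54_pm_102_s k22_pm_102_s

theorem s56_pm_102_s : ∃ t, chk3 f_pm_102_s t 125 133 1 = true := ex3_a k18_pm_102_s k19_pm_102_s

theorem s57_pm_102_s : ∃ t, chk3 f_pm_102_s t 125 132 1 = true := ex3_a k16_pm_102_s k17_pm_102_s

theorem s58_pm_102_s : ∃ t, chk3 f_pm_102_s t 125 66 1 = true := ex3_b s57_pm_102_s s56_pm_102_s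

theorem s59_pm_102_s : ∃ t, chk3 f_pm_102_s t 62 66 1 = true := ex3_a k15_pm_102_s s58_pm_102_s

theorem s60_pm_102_s : ∃ t, chk3 f_pm_102_s t 62 33 1 = true := ex3_b s59_pm_102_s s55_pm_102_s

theorem s61_pm_102_s : ∃ t, chk3 f_pm_102_s t 31 33 1 = true := ex3_a s60_pm_102_s s53_pm_102_s

theorem s62_pm_102_s : ∃ t, chk3 f_pm_102_s t 254 65 1 = true := ex3_b k12_pm_102_s k13_pm_102_s

theorem s63_pm_102_s : ∃ t, chk3 f_pm_102_s t 127 65 1 = true := ex3_a s62_pm_102_s k14_pm_102_s

theorem s64_pm_102_s : ∃ t, chk3 f_pm_102_s t 252 131 1 = true := ex3_b k9_pm_102_s k10_pm_102_s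

theorem s65_pm_102_s : ∃ t, chk3 f_pm_102_s t 126 131 1 = true := ex3_a s64_pm_102_s k11_pm_102_s

theorem s66_pm_102_s : ∃ t, chk3 f_pm_102_s t 253 130 1 = true := ex3_b k7_pm_102_s k8_pm_102_s

theorem s67_pm_102_s : ∃ t, chk3 f_pm_102_s t 126 130 1 = true := ex3_a k6_pm_102_s s66_pm_102_s

theorem s68_pm_102_s : ∃ t, chk3 f_pm_102_s t 126 65 1 = true := ex3_b s67_pm_102_s s65_pm_102_s

theorem s69_pm_102_s : ∃ t, chk3 f_pm_102_s t 63 65 1 = true := ex3_a s68_pm_102_s s63_pm_102_s

theorem s70_pm_102_s : ∃ t, chk3 f_pm_102_s t 63 32 1 = true := ex3_b k5_pm_102_s s69_pm_102_s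

theorem s71_pm_102_s : ∃ t, chk3 f_pm_102_s t 31 32 1 = true := ex3_a k4_pm_102_s s70_pm_102_s

theorem s72_pm_102_s : ∃ t, chk3 f_pm_102_s t 31 16 1 = true := ex3_b s71_pm_102_s s61_pm_102_s

theorem s73_pm_102_s : ∃ t, chk3 f_pm_102_s t 15 16 1 = true := ex3_a k3_pm_102_s s72_pm_102_s

theorem s74_pm_102_s : ∃ t, chk3 f_pm_102_s t 15 8 1 = true := ex3_b s73_pm_102_s s50_pm_102_s

theorem s75_pm_102_s : ∃ t, chk3 f_pm_102_s t 7 8 1 = true := ex3_a k2_pm_102_s s74_pm_102_s

theorem s76_pm_102_s : ∃ t, chk3 f_pm_102_s t 7 4 1 = true := ex3_b s75_pm_102_s s43_pm_102_s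

theorem s77_pm_102_s : ∃ t, chk3 f_pm_102_s t 3 4 1 = true := ex3_a k1_pm_102_s s76_pm_102_s

theorem s78_pm_102_s : ∃ t, chk3 f_pm_102_s t 3 2 1 = true := ex3_b s77_pm_102_s s41_pm_102_s

theorem s79_pm_102_s : ∃ t, chk3 f_pm_102_s t 3 1 1 = true := ex3_b s78_pm_102_s k40_pm_102_s

theorem s80_pm_102_s : ∃ t, chk3 f_pm_102_s t 1 1 1 = true := ex3_a k0_pm_102_s s79_pm_102_s

theorem c_pm_102_s : CertNE 536870912 536870912 0 536870912 1040187392 5207648 3 eng mog cd0q1 cd0q0 pd2 true true false .npp 1 0 2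
    ndB0q1 ndB0q0 pcB2 cut_pm_102_s Ext.none :=
  certNE1 (fam := true) (s1 := true) (s2 := false) (a := 1) (b := 0) (c := 2) (cn := .npp) (n1 := ndB0q1) (n2 := ndB0q0) (pc := pcB2) (cut := cut_pm_102_s) (xt := Ext.none) (P1 := 536870912) (W1 := 536870912) (P2 := 0) (W2 := 536870912) (P3 := 1040187392) (W3 := 5207648) (N0 := 3) (En := eng) (mo := mog) (C1 := cd0q1) (C2 := cd0q0) (C3 := pd2)
    rfl (fun _ => rfl) s80_pm_102_s

noncomputable def cut_pm_102_t : Cut := Cut.of [[⟨3, 0, 0, 2845415833⟩], [⟨0, 1, 0, 16777216⟩, ⟨1, 0, 0, 16777216⟩, ⟨2, 1, 0, 16777216⟩]]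

noncomputable def f_pm_102_t : ℕ → ℕ → ℕ → ℕ → Bool := onCell 536870912 536870912 0 536870912 1040187392 5207648
    (rowNE 3 eng mog cd0q1 cd0q0 pd2 0 true true false .npp 1 0 2 (qsf 536870912 536870912 0 536870912 2) ndB0q1 ndB0q0 pcB2 cut_pm_102_t Ext.none)

def k0_pm_102_t : ∃ t, chk3 f_pm_102_t t 1 1 1 = true :=
  ⟨(l 6), by decide +kernel⟩

theorem c_pm_102_t : CertNE 536870912 536870912 0 536870912 1040187392 5207648 3 eng mog cd0q1 cd0q0 pd2 true true false .npp 1 0 2
    ndB0q1 ndB0q0 pcB2 cut_pm_102_t Ext.none :=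
  certNE0 (fam := true) (s1 := true) (s2 := false) (a := 1) (b := 0) (c := 2) (cn := .npp) (n1 := ndB0q1) (n2 := ndB0q0) (pc := pcB2) (cut := cut_pm_102_t) (xt := Ext.none) (P1 := 536870912) (W1 := 536870912) (P2 := 0) (W2 := 536870912) (P3 := 1040187392) (W3 := 5207648) (N0 := 3) (En := eng) (mo := mog) (C1 := cd0q1) (C2 := cd0q0) (C3 := pd2)
    rfl k0_pm_102_t

noncomputable def cut_pm_112_s : Cut := Cut.of [[⟨4, 0, 0, 1449551462⟩]]

noncomputable def f_pm_112_s : ℕ → ℕ → ℕ → ℕ → Bool := onCell 536870912 536870912 1073741824 536870912 1040187392 5207648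
    (rowNE 3 eng mog cd0q1 cd0q1 pd2 1 true true false .dn 1 1 2 (qsf 536870912 536870912 536870912 536870912 2) ndB0q1 ndB0q1 pcB2 cut_pm_112_s Ext.none)

def k0_pm_112_s : ∃ t, chk3 f_pm_112_s t 1 1 1 = true :=
  ⟨(b (a (b (b (l 3) (l 3)) (b (b (a (b (l 3) (b (l 3) (b (a (a (l 16772096) (l 3)) (l 3)) (a (l 16774592) (l 16777096))))) (a (b (l 3) (b (a (l 3) (l 1)) (b (a (l 16772976) (l 1)) (l 16769096)))) (l 1))) (a (a (a (l 16728592) (l 16733632)) (a (l 16735856) (l 16735304))) (a (a (l 16731976) (l 16725808)) (a (l 16715016) (l 1))))) (a (a (a (b (l 16650648) (l 16570456)) (l 16534600)) (a (l 16539528) (l 16541376))) (a (a (l 16519216) (b (l 16655088) (l 16584952))) (a (b (l 16646336) (l 16577856)) (b (l 16625728) (l 16562056))))))) (a (b (l 1) (b (l 1) (a (a (b (l 1) (l 16526104)) (l 1)) (l 1)))) (l 1))) (b (b (a (a (a (a (b (l 16483968) (l 16385256)) (b (l 16504040) (l 16422304))) (a (l 16473760) (l 16479152))) (a (a (l 16481112) (l 16479680)) (a (l 16474840) (b (l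 16497744) (l 16432624))))) (a (a (a (b (l 16466488) (l 16408552)) (l 123512773079)) (a (l 162167316311) (l 1))) (l 1))) (b (a (a (a (a (l 16275024) (l 16330120)) (a (l 16359544) (l 16370072))) (a (l 16374256) (l 16369136))) (a (a (a (l 16349936) (l 16306128)) (a (l 16241832) (l 16157344))) (l 1))) (a (a (a (l 6) (l 6)) (l 6)) (a (l 6) (l 6))))) (a (a (l 6) (l 6)) (l 6)))), by decide +kernel⟩

theorem c_pm_112_s : CertNE 536870912 536870912 536870912 536870912 1040187392 5207648 3 eng mog cd0q1 cd0q1 pd2 true true false .dn 1 1 2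
    ndB0q1 ndB0q1 pcB2 cut_pm_112_s Ext.none :=
  certNE1 (fam := true) (s1 := true) (s2 := false) (a := 1) (b := 1) (c := 2) (cn := .dn) (n1 := ndB0q1) (n2 := ndB0q1) (pc := pcB2) (cut := cut_pm_112_s) (xt := Ext.none) (P1 := 536870912) (W1 := 536870912) (P2 := 536870912) (W2 := 536870912) (P3 := 1040187392) (W3 := 5207648) (N0 := 3) (En := eng) (mo := mog) (C1 := cd0q1) (C2 := cd0q1) (C3 := pd2)
    rfl (fun _ => rfl) k0_pm_112_s

noncomputable def cut_pm_112_t : Cut := Cut.of [[⟨3, 0, 0, 2845415833⟩]]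

noncomputable def f_pm_112_t : ℕ → ℕ → ℕ → ℕ → Bool := onCell 536870912 536870912 1073741824 536870912 1040187392 5207648
    (rowNE 3 eng mog cd0q1 cd0q1 pd2 1 true true false .dn 1 1 2 (qsf 536870912 536870912 536870912 536870912 2) ndB0q1 ndB0q1 pcB2 cut_pm_112_t Ext.none)

def k0_pm_112_t : ∃ t, chk3 f_pm_112_t t 1 1 1 = true :=
  ⟨(l 6), by decide +kernel⟩

theorem c_pm_112_t : CertNE 536870912 536870912 536870912 536870912 1040187392 5207648 3 eng mog cd0q1 cd0q1 pd2 true true false .dn 1 1 2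
    ndB0q1 ndB0q1 pcB2 cut_pm_112_t Ext.none :=
  certNE1 (fam := true) (s1 := true) (s2 := false) (a := 1) (b := 1) (c := 2) (cn := .dn) (n1 := ndB0q1) (n2 := ndB0q1) (pc := pcB2) (cut := cut_pm_112_t) (xt := Ext.none) (P1 := 536870912) (W1 := 536870912) (P2 := 536870912) (W2 := 536870912) (P3 := 1040187392) (W3 := 5207648) (N0 := 3) (En := eng) (mo := mog) (C1 := cd0q1) (C2 := cd0q1) (C3 := pd2)
    rfl (fun _ => rfl) k0_pm_112_t

noncomputable def cut_pm_113_s : Cut := Cut.of [[⟨4, 0, 0, 1449551462⟩], [⟨0, 1, 0, 15728640⟩, ⟨1, 1, 0, 15728640⟩, ⟨2, 2, 0, 524288⟩], [⟨0, 0, 1, 46137344⟩, ⟨1, 1, 0, 1048576⟩, ⟨2, 1, 1, 46137344⟩, ⟨0, 0, 0, 1054867456⟩, ⟨0, 1, 0, 38117834⟩, ⟨2, 1, 0, 1054867456⟩, ⟨2, 2, 0, 38117834⟩], [⟨0, 1, 0, 1048576⟩, ⟨1, 0, 1, 46137344⟩, ⟨2, 1, 1, 46137344⟩, ⟨1, 0, 0, 1054867456⟩, ⟨1, 1, 0, 38117834⟩, ⟨2, 1, 0, 1054867456⟩, ⟨2, 2, 0, 38117834⟩]]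

noncomputable def f_pm_113_s : ℕ → ℕ → ℕ → ℕ → Bool := onCell 1610612736 536870912 536870912 536870912 1040187392 5207648
    (rowNE 3 eng mog cd0q1 cd0q1 pd3 2 true true false .nn 1 1 3 (qsf 536870912 536870912 536870912 536870912 3) ndB0q1 ndB0q1 pcB3 cut_pm_113_s Ext.none)

def k0_pm_113_s : ∃ t, chk3 f_pm_113_s t 1 1 1 = true :=
  ⟨(a (b (a (l 6) (l 6)) (l 6)) (l 6)), by decide +kernel⟩

theorem c_pm_113_s : CertNE 536870912 536870912 536870912 536870912 1040187392 5207648 3 eng mog cd0q1 cd0q1 pd3 true true false .nn 1 1 3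
    ndB0q1 ndB0q1 pcB3 cut_pm_113_s Ext.none :=
  certNE2 (fam := true) (s1 := true) (s2 := false) (a := 1) (b := 1) (c := 3) (cn := .nn) (n1 := ndB0q1) (n2 := ndB0q1) (pc := pcB3) (cut := cut_pm_113_s) (xt := Ext.none) (P1 := 536870912) (W1 := 536870912) (P2 := 536870912) (W2 := 536870912) (P3 := 1040187392) (W3 := 5207648) (N0 := 3) (En := eng) (mo := mog) (C1 := cd0q1) (C2 := cd0q1) (C3 := pd3)
    rfl (fun _ => rfl) k0_pm_113_s

end Pool.Agent.Strip051.G.I9688_9736.Tab.CS.BA00

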