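import Pool.Agent.Strip051.G.I9688_9736.Tab
import Pool.Agent.Strip051.PB.StripB

/-! # Strips, near vertex: certificates 1 (generated) -/

set_option linter.all false
set_option maxRecDepth 100000

namespace Pool.Agent.Strip051.G.I9688_9736.Tab.CS.BA00

open Pool.Agent.Strip051.PB Pool.Agent.Strip051.PB.T
open Pool.Agent.Strip051.G.I9688_9736.Tab

noncomputable def cut_pm_113_t : Cut := Cut.of [[⟨3, 0, 0, 3194381926⟩], [⟨0, 1, 0, 15728640⟩, ⟨1, 1, 0, 15728640⟩, ⟨2, 2, 0, 524288⟩], [⟨0, 0, 1, 46137344⟩, ⟨1, 1, 0, 1048576⟩, ⟨2, 1, 1, 46137344⟩, ⟨0, 0, 0, 1054867456⟩, ⟨0, 1, 0, 38117834⟩, ⟨2, 1, 0, 1054867456⟩, ⟨2, 2, 0, 38117834⟩], [⟨0, 1, 0, 1048576⟩, ⟨1, 0, 1, 46137344⟩, ⟨2, 1, 1, 46137344⟩, ⟨1, 0, 0, 1054867456⟩, ⟨1, 1, 0, 38117834⟩, ⟨2, 1, 0, 1054867456⟩, ⟨2, 2, 0, 38117834⟩]]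

noncomputable def f_pm_113_t : ℕ → ℕ → ℕ → ℕ → Bool := onCell 536870912 536870912 536870912 536870912 1040187392 5207648
    (rowNE 3 eng mog cd0q1 cd0q1 pd3 0 true true false .nn 1 1 3 (qsf 536870912 536870912 536870912 536870912 3) ndB0q1 ndB0q1 pcB3 cut_pm_113_t Ext.none)

def k0_pm_113_t : ∃ t, chk3 f_pm_113_t t 2 1 1 = true :=
  ⟨(l 6), by decide +kernel⟩

def k1_pm_113_t : ∃ t, chk3 f_pm_113_t t 3 2 1 = true :=
  ⟨(l 6), by decide +kernel⟩

def k2_pm_113_t : ∃ t, chk3 f_pm_113_t t 6 3 1 = true :=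
  ⟨(l 6), by decide +kernel⟩

def k3_pm_113_t : ∃ t, chk3 f_pm_113_t t 7 6 1 = true :=
  ⟨(l 6), by decide +kernel⟩

def k4_pm_113_t : ∃ t, chk3 f_pm_113_t t 14 7 1 = true :=
  ⟨(l 6), by decide +kernel⟩

def k5_pm_113_t : ∃ t, chk3 f_pm_113_t t 15 14 1 = true :=
  ⟨(l 6), by decide +kernel⟩

def k6_pm_113_t : ∃ t, chk3 f_pm_113_t t 30 15 1 = true :=
  ⟨(l 6), by decide +kernel⟩

def k7_pm_113_t : ∃ t, chk3 f_pm_113_t t 31 30 1 = true :=
  ⟨(l 6), by decide +kernel⟩

def k8_pm_113_t : ∃ t, chk3 f_pm_113_t t 62 31 1 = true :=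
  ⟨(l 6), by decide +kernel⟩

def k9_pm_113_t : ∃ t, chk3 f_pm_113_t t 63 62 1 = true :=
  ⟨(l 6), by decide +kernel⟩

def k10_pm_113_t : ∃ t, chk3 f_pm_113_t t 63 126 1 = true :=
  ⟨(a (l 6) (a (l 6) (b (l 6) (a (l 6) (b (l 6) (a (l 6) (b (l 6) (b (b (l 6) (b (l 6) (a (l 6) (a (l 6) (a (l 6) (c (c (l 16772960) (l 16772968)) (c (l 16772320) (c (l 16772984) (l 16772328))))))))) (b (a (l 6) (c (a (c (l 16772520) (l 16773200)) (c (l 16772736) (c (l 16772088) (l 16772752)))) (a (a (l 6) (c (l 16772448) (l 16773128))) (a (c (l 16772872) (l 16773216)) (c (l 16772656) (a (l 16772720) (l 16772944))))))) (a (a (l 6) (a (l 6) (b (l 6) (c (l 16774696) (l 16774120))))) (a (c (c (l 16772920) (l 16772952)) (c (l 16774288) (a (l 16773128) (l 16773544)))) (a (a (c (l 16773320) (c (l 16774008) (l 16773368))) (c (b (l 16773768) (b (l 16773928) (a (l 16773552) (l 16773328)))) (b (c (l 16773792) (l 16773808)) (b (c (l 16773952) (l 16773968)) (c (l 16773712) (a (l 16773760) (l 16773368)))))))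 (a (c (b (l 16773016) (c (l 16773176) (b (l 16773160) (l 16773872)))) (b (c (l 16773688) (l 16773704)) (b (a (c (l 16773216) (a (l 16773240) (l 16773376))) (c (l 16773144) (l 16773400))) (l 16773560)))) (c (b (b (l 16773520) (c (l 16772952) (l 16773128))) (l 16773688)) (b (c (b (l 16773536) (a (l 16773008) (l 16772936))) (b (l 16773544) (c (a (l 16773016) (l 16772944)) (a (l 16773264) (l 16773112))))) (c (l 16773696) (l 16773712))))))))))))))))), by decide +kernel⟩

def k11_pm_113_t : ∃ t, chk3 f_pm_113_t t 126 127 1 = true :=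
  ⟨(b (l 6) (a (l 6) (b (l 6) (a (l 6) (b (l 6) (a (l 6) (a (a (l 6) (a (l 6) (b (l 6) (b (l 6) (b (l 6) (c (c (l 16772960) (l 16772968)) (c (l 16772320) (c (l 16772984) (l 16772328))))))))) (a (b (l 6) (c (b (c (l 16772520) (l 16773200)) (c (l 16772736) (c (l 16772088) (l 16772752)))) (b (a (l 6) (c (l 16772672) (l 16773360))) (b (c (l 16772872) (l 16773216)) (c (l 16772656) (a (l 16772880) (l 16772776))))))) (b (a (l 6) (b (l 6) (b (l 6) (c (l 16774696) (l 16774120))))) (b (c (c (l 16772920) (l 16772952)) (c (l 16774288) (b (l 16773128) (l 16772888)))) (b (b (c (l 16773320) (c (l 16774008) (l 16773368))) (c (a (l 16773768) (c (l 16773464) (a (l 16773936) (l 16773368)))) (a (c (l 16773792) (l 16773808)) (a (c (l 16773952) (l 16773968)) (c (l 16773712) (a (l 16773712) (l 16773416))))))) (b (c (a (l 16773016) (c (l 16773176) (a (l 16773160) (l 16773872)))) (a (c (l 16773688) (l 16773704)) (a (a (c (l 16773160) (a (l 16773168) (l 16773432))) (c (l 16773192) (l 16773536)))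 (l 16773560)))) (c (a (a (l 16773520) (c (l 16772952) (l 16773128))) (l 16773688)) (a (c (a (l 16773536) (a (l 16773120) (l 16772992))) (a (l 16773544) (c (b (l 16773016) (l 16772944)) (b (l 16773264) (l 16773112))))) (c (l 16773696) (l 16773712)))))))))))))))), by decide +kernel⟩

def k12_pm_113_t : ∃ t, chk3 f_pm_113_t t 1016 254 1 = true :=
  ⟨(l 6), by decide +kernel⟩

def k13_pm_113_t : ∃ t, chk3 f_pm_113_t t 1016 510 1 = true :=
  ⟨(l 6), by decide +kernel⟩

def k14_pm_113_t : ∃ t, chk3 f_pm_113_t t 2032 511 1 = true :=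
  ⟨(a (b (l 6) (b (c (b (l 16775616) (l 16774440)) (b (c (l 16775704) (l 16775760)) (c (l 16775160) (l 16775200)))) (b (c (b (a (l 16774648) (c (l 16774152) (b (l 16774904) (l 16774128)))) (b (a (l 16774480) (c (l 16773312) (l 16773992))) (a (c (l 16773704) (l 16774048)) (l 16774488)))) (b (a (l 16774056) (a (l 16774200) (b (l 16775000) (c (l 16773544) (l 16774232))))) (b (a (l 16774208) (c (l 16774352) (a (l 16774352) (l 16774736)))) (a (a (l 16774048) (c (l 16773792) (c (l 16773808) (l 16773824)))) (l 16774536))))) (c (a (b (b (c (l 16773568) (l 16773920)) (l 16774088)) (l 16773840)) (l 16773424)) (b (a (a (b (c (l 16773584) (c (l 16773600) (l 16773936))) (l 16774096)) (l 16773896)) (l 16773952)) (c (l 16773896) (l 16773912))))))) (b (b (l 6) (b (l 6) (c (l 16776512) (l 16776000)))) (b (b (c (l 16775944) (c (l 16776032) (l 16776088))) (a (c (b (l 16775472) (c (l 16774552) (l 16774920))) (b (l 16775568) (a (l 16775272) (b (l 16775424) (a (l 16774944) (l 16774648))))))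 (c (b (c (l 16774304) (l 16775000)) (c (l 16774024) (l 16774720))) (b (c (l 16775376) (b (l 16775824) (l 16775032))) (c (l 16774760) (b (l 16774888) (l 16775384))))))) (c (b (a (b (c (l 16774288) (l 16774320)) (l 16774648)) (l 16774888)) (l 16773544)) (b (b (a (a (b (b (l 16774792) (l 16774720)) (l 16774928)) (l 16775048)) (l 16775112)) (l 16774080)) (c (l 16774224) (l 16774240))))))), by decide +kernel⟩

def k15_pm_113_t : ∃ t, chk3 f_pm_113_t t 2033 511 1 = true :=
  ⟨(b (a (b (l 6) (c (b (l 16777400) (l 16776792)) (b (l 16777576) (l 16776936)))) (b (a (l 6) (b (l 6) (c (l 16778080) (l 16776944)))) (b (c (l 16777640) (l 16777160)) (c (b (a (l 16777136) (l 16776600)) (a (l 16776192) (l 16775648))) (b (c (l 16777304) (l 16776728)) (a (c (l 16775640) (l 16775712)) (c (l 16775752) (l 16775824)))))))) (c (b (b (a (b (a (l 16776304) (l 16776120)) (a (c (l 16774704) (l 16774760)) (l 16775504))) (c (l 16776424) (l 16776152))) (a (a (c (l 16775584) (l 16775296)) (l 16775696))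 (l 16775824))) (c (b (l 16775072) (l 16774424)) (b (l 16775104) (l 16774440)))) (b (b (b (a (a (l 16776424) (c (l 16775224) (l 16775944))) (c (l 16776696) (l 16776760))) (a (a (c (l 16775464) (l 16775848)) (c (l 16774928) (l 16775640))) (l 16776408))) (a (a (b (c (l 16775176) (l 16775224)) (l 16775528)) (l 16775776)) (l 16775912))) (c (b (l 16775136) (l 16774456)) (b (l 16775168) (a (l 16774392) (l 16774544))))))), by decide +kernel⟩

def k16_pm_113_t : ∃ t, chk3 f_pm_113_t t 1017 127 1 = true :=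
  ⟨(b (l 6) (b (b (l 6) (b (c (l 16778968) (a (l 6) (l 16779128))) (c (a (l 16778568) (l 16778784)) (a (l 16778680) (l 16778872))))) (c (b (b (a (b (l 16778352) (l 16778208)) (l 16777832)) (b (a (a (b (b (l 16776744) (l 16777936)) (a (l 16777656) (l 16777760))) (b (c (l 16777448) (l 16777856)) (l 16777912))) (b (l 16775680) (a (l 16778080) (c (l 16778200) (l 16778272))))) (a (a (b (l 16777408) (l 16777104)) (l 16777448)) (l 16777720)))) (b (a (c (l 16775064) (l 16775768)) (c (l 16775400) (l 16775944))) (b (a (l 16774752) (l 16775720)) (a (c (l 16774720) (l 16774736)) (c (l 16775008) (l 16775024)))))) (b (b (a (b (l 16778496) (l 16778376)) (b (l 16778680) (l 16778552))) (b (a (a (a (b (l 16778128) (l 16777496)) (b (b (l 16778272) (l 16778168)) (l 16777928))) (b (b (l 16778344) (l 16778288)) (l 16778072))) (b (l 16778456) (a (c (l 16778208) (l 16778288)) (c (l 16778352) (l 16778432))))) (a (a (c (l 16777368) (l 16776944)) (l 16777584)) (l 16777864)))) (b (b (a (l 16776184)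 (l 16777184)) (a (c (l 16776136) (l 16776184)) (c (l 16776472) (l 16776512)))) (a (c (b (l 16775456) (l 16774752)) (b (l 16775488) (l 16774120))) (c (b (l 16775760) (l 16775040)) (b (l 16775792) (l 16774408))))))))), by decide +kernel⟩

def k17_pm_113_t : ∃ t, chk3 f_pm_113_t t 509 254 1 = true :=
  ⟨(b (l 6) (a (l 6) (b (l 6) (a (l 16780600) (l 16780120))))), by decide +kernel⟩

def k18_pm_113_t : ∃ t, chk3 f_pm_113_t t 509 510 1 = true :=
  ⟨(b (b (a (a (l 6) (l 16779296)) (l 16780824)) (a (a (b (l 6) (c (l 16779512) (l 16779512))) (b (c (l 16777928) (l 16779224)) (b (a (c (l 16779744) (c (l 16779736) (l 16779728))) (c (l 16780128) (l 16780112))) (a (l 16779616) (c (l 16779792) (a (l 16779680) (l 16779832))))))) (a (c (l 16775896) (l 16778504)) (l 16779464)))) (a (b (a (c (l 16779280) (l 16779312)) (c (a (l 16779416) (l 16779488)) (a (l 16779440) (l 16779496)))) (c (a (l 16778976) (l 16779144)) (a (l 16779048) (l 16779192)))) (b (a (a (b (c (b (l 16779832) (l 16779624))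 (b (a (l 16779712) (l 16779880)) (l 16777000))) (l 16778856)) (b (b (l 16780240) (a (c (l 16779760) (l 16779744)) (l 16779936))) (c (l 16779576) (b (l 16779624) (l 16779536))))) (b (l 16778128) (a (c (b (l 16779896) (l 16779624)) (b (l 16779232) (a (l 16779584) (l 16779648)))) (c (l 16780136) (l 16778816))))) (a (c (l 16779296) (l 16779320)) (b (a (l 16778824) (a (c (l 16779520) (l 16779512)) (b (c (l 16779664) (l 16779656)) (l 16779504)))) (c (l 16779336) (l 16779352))))))), by decide +kernel⟩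

def k19_pm_113_t : ∃ t, chk3 f_pm_113_t t 509 1022 1 = true :=
  ⟨(b (a (c (a (l 16778664) (l 16778816)) (a (b (l 16778840) (l 16778704)) (l 16778912))) (a (c (l 16778952) (l 16779024)) (c (l 16779072) (b (l 16779192) (l 16779040))))) (a (b (a (c (a (l 16778392) (l 16778464)) (a (b (l 16778568) (l 16778496)) (l 16778600))) (c (l 16778576) (l 16778688))) (a (c (b (a (l 16778144) (l 16777968)) (l 16777912)) (b (a (l 16778288) (c (l 16778400) (l 16778472))) (l 16778048))) (c (b (a (l 16778408) (l 16778480)) (a (l 16778168) (l 16778320))) (b (a (l 16778216) (l 16778608)) (a (l 16778304) (c (l 16778416) (l 16778480))))))) (a (b (c (l 16778696) (l 16778792)) (a (b (l 16778600) (b (l 16778208) (c (l 16778400) (l 16778520)))) (c (l 16778552) (l 16778664)))) (c (b (l 16778800) (l 16778616)) (b (l 16778872) (l 16778712)))))), by decide +kernel⟩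

def k20_pm_113_t : ∃ t, chk3 f_pm_113_t t 509 1023 1 = true :=
  ⟨(b (b (a (c (a (l 16777408) (l 16777744)) (a (l 16777520) (l 16777856))) (a (c (a (l 16777984) (b (l 16778304) (l 16777960))) (a (l 16778096) (b (c (l 16778392) (l 16778448)) (l 16778064)))) (c (b (a (c (l 16778400) (l 16778448)) (l 16778496)) (a (l 16778112) (l 16778256))) (a (b (a (l 16778184) (l 16778560)) (l 16778216)) (b (l 16778600) (l 16778360)))))) (a (c (a (l 16776720) (l 16777032)) (a (c (l 16776784) (l 16776832)) (l 16776464))) (c (a (l 16777336) (l 16776968)) (a (c (l 16777400) (l 16777440)) (c (l 16777688) (l 16777728)))))) (a (c (a (b (l 16776016) (c (l 16775280) (l 16775304))) (b (l 16776304) (c (l 16775552) (l 16775568)))) (a (b (c (l 16776064) (l 16776096)) (c (l 16775320) (l 16774688))) (b (c (l 16776352) (l 16776384)) (c (l 16775592) (l 16774952))))) (c (a (b (l 16775928) (c (l 16775808) (l 16775832))) (b (c (l 16776840) (l 16776872)) (c (l 16776064) (l 16775424)))) (a (a (b (l 16776576)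 (l 16775144)) (b (l 16776720) (l 16775264))) (a (b (l 16776848) (l 16775720)) (b (l 16776984) (a (l 16776136) (l 16776200)))))))), by decide +kernel⟩

def k21_pm_113_t : ∃ t, chk3 f_pm_113_t t 510 254 1 = true :=
  ⟨(b (a (l 6) (b (l 6) (b (a (l 6) (c (l 16778568) (l 16778680))) (a (c (l 16779072) (l 16779128)) (c (l 16778784) (l 16778872)))))) (a (a (b (b (l 6) (l 16779296)) (l 16780824)) (b (b (a (l 6) (c (l 16779512) (l 16779512))) (a (c (l 16777928) (l 16779224)) (a (b (c (l 16779744) (c (l 16779736) (l 16779728))) (l 16779464)) (b (l 16779616) (c (l 16779792) (b (l 16779680) (l 16779832))))))) (b (c (l 16775896) (l 16778504)) (l 16779464)))) (b (a (b (c (l 16779280) (l 16779312)) (c (b (l 16779416) (l 16779488)) (b (l 16779440) (l 16779496)))) (c (b (l 16778976) (l 16779144)) (b (l 16779048) (l 16779192)))) (a (b (b (a (c (a (l 16779832) (l 16779624)) (a (b (l 16779712) (l 16779880)) (l 16779616))) (l 16778856)) (a (a (l 16780240) (b (c (l 16779760) (l 16779744))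 (l 16779936))) (c (l 16779576) (a (l 16779624) (l 16779536))))) (a (l 16778128) (b (c (a (l 16779896) (l 16779624)) (a (l 16778576) (b (l 16779584) (l 16779648)))) (c (l 16780136) (l 16778816))))) (b (c (l 16779296) (a (l 16779400) (l 16779248))) (a (b (l 16778824) (a (c (l 16779624) (a (l 16779656) (l 16779560))) (l 16779496))) (c (l 16779336) (l 16779352)))))))), by decide +kernel⟩

def k22_pm_113_t : ∃ t, chk3 f_pm_113_t t 1022 508 1 = true :=
  ⟨(b (b (b (l 6) (a (l 6) (a (l 6) (c (l 16776512) (l 16776000))))) (b (a (l 6) (c (a (l 16777400) (l 16776792)) (a (l 16777576) (l 16776936)))) (a (a (l 6) (b (l 6) (c (l 16778080) (l 16776944)))) (a (c (l 16777640) (l 16777160)) (c (a (b (l 16777136) (l 16776600)) (b (l 16776192) (l 16775648))) (a (c (l 16777304) (l 16776728)) (b (c (l 16775640) (l 16775712)) (c (l 16775752) (l 16775824))))))))) (a (b (c (a (l 16778352) (l 16778208)) (a (l 16778496) (l 16778376))) (c (a (l 16778560) (l 16778408)) (a (l 16778680) (l 16778552))))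 (a (b (b (c (a (a (l 16776744) (l 16777936)) (b (l 16777656) (l 16777760))) (a (a (l 16778232) (a (l 16778152) (l 16778072))) (b (l 16777496) (l 16777928)))) (c (a (a (l 16778176) (l 16776800)) (l 16777912)) (a (a (l 16778344) (l 16778288)) (l 16778072)))) (c (a (l 16776992) (b (l 16778080) (c (l 16778200) (l 16778272)))) (a (l 16778456) (b (c (l 16778208) (l 16778288)) (c (l 16778352) (l 16778432)))))) (b (a (c (b (l 16777408) (l 16777600)) (b (c (l 16777520) (l 16777600)) (l 16777752))) (c (l 16777192) (l 16777328))) (c (l 16777720) (l 16777864)))))), by decide +kernel⟩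

def k23_pm_113_t : ∃ t, chk3 f_pm_113_t t 1023 508 2 = true :=
  ⟨(b (a (b (a (c (l 16775752) (l 16775160)) (b (l 16774440) (a (b (l 16775472) (c (l 16774304) (l 16775000))) (b (c (l 16774552) (l 16774920)) (c (l 16774024) (l 16774720)))))) (a (b (a (b (l 16776304) (l 16776120)) (b (c (l 16774704) (l 16774760)) (l 16775504))) (c (l 16776424) (l 16776152))) (a (b (c (l 16774472) (l 16775176)) (l 16775984)) (l 16774264)))) (b (a (a (b (b (l 16774648) (c (l 16774152) (a (l 16774904) (l 16774128)))) (c (l 16774328) (b (l 16774320) (l 16775064)))) (b (a (b (l 16774480) (c (l 16773312) (l 16773992))) (b (c (l 16773704) (l 16774048)) (l 16774488))) (l 16774688))) (b (a (a (b (c (l 16773568) (l 16773920)) (l 16774328)) (l 16774128)) (l 16773224)) (l 16773544))) (c (a (l 16775072) (l 16774424)) (a (l 16775104) (l 16774440))))) (a (a (b (l 16776720) (l 16777072)) (b (l 16776072) (l 16776400))) (a (b (l 16775080) (l 16775064)) (b (c (l 16774720) (l 16774736)) (c (l 16775008) (l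 16775024)))))), by decide +kernel⟩

def k24_pm_113_t : ∃ t, chk3 f_pm_113_t t 1023 508 3 = true :=
  ⟨(b (a (b (a (c (b (l 16775704) (l 16776032)) (b (l 16775760) (l 16776088))) (b (c (l 16775160) (l 16775200)) (b (a (l 16775568) (a (l 16775376) (b (l 16775208) (a (l 16775000) (l 16774600))))) (a (c (l 16775376) (a (l 16775824) (l 16775032))) (c (l 16774760) (a (l 16774888) (l 16775384))))))) (a (a (b (b (l 16776424) (c (l 16775224) (l 16775944))) (c (l 16776696) (l 16776760))) (b (b (c (l 16775464) (l 16775848)) (c (l 16774928) (l 16775640))) (l 16776408))) (a (b (c (l 16775544) (b (l 16775224) (l 16775968))) (l 16776072)) (l 16775656)))) (b (a (b (a (b (l 16774056) (a (l 16774304) (b (l 16774792) (c (l 16773544) (l 16774232))))) (a (b (l 16774208) (c (l 16774352) (b (l 16774352) (l 16774736)))) (b (b (l 16774048) (c (l 16773792) (c (l 16773808) (l 16773824)))) (l 16774536)))) (a (a (b (c (l 16774432) (b (l 16774440) (l 16775152))) (l 16775192)) (l 16774992)) (l 16774080)))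 (b (a (b (a (b (c (l 16773584) (c (l 16773600) (l 16773936))) (l 16774304)) (l 16773792)) (l 16773952)) (c (l 16773896) (l 16773912))) (c (l 16774224) (l 16774240)))) (c (a (l 16775136) (l 16773800)) (a (l 16775168) (c (l 16774464) (l 16773824)))))) (a (a (b (l 16776184) (l 16776528)) (b (c (l 16776136) (l 16776184)) (c (l 16776472) (l 16776512)))) (b (c (a (l 16775456) (l 16774752)) (a (l 16775488) (b (l 16774696) (l 16774848)))) (c (a (l 16775760) (l 16775040)) (a (l 16775792) (l 16774408)))))), by decide +kernel⟩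

def k25_pm_113_t : ∃ t, chk3 f_pm_113_t t 1022 509 1 = true :=
  ⟨(a (b (b (c (a (l 16778736) (l 16778584)) (a (l 16778840) (l 16778704))) (c (l 16778816) (l 16778584))) (b (c (l 16778952) (l 16778368)) (c (l 16779072) (a (l 16779192) (l 16779040))))) (b (a (b (c (b (a (l 16778424) (l 16777040)) (l 16778464)) (b (a (l 16778568) (l 16778496)) (l 16778600))) (c (l 16778576) (l 16778688))) (b (c (a (b (l 16778144) (c (l 16778256) (l 16778328))) (l 16777912)) (a (b (l 16778288) (c (l 16778400) (l 16778472))) (l 16778048))) (c (a (b (l 16778408) (l 16778480)) (b (l 16778168) (l 16777992))) (a (b (c (l 16778512) (l 16778584)) (l 16778608)) (a (b (l 16778392) (l 16778528)) (l 16778304)))))) (b (a (c (l 16778696) (l 16778792)) (c (a (l 16778568) (b (c (l 16778408) (l 16778464)) (l 16778512))) (a (l 16778680) (a (l 16778616) (b (l 16778520) (l 16778600)))))) (c (a (l 16778800) (l 16778616)) (a (l 16778872) (l 16778712)))))), by decide +kernel⟩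

def k26_pm_113_t : ∃ t, chk3 f_pm_113_t t 1023 509 1 = true :=
  ⟨(a (a (b (c (b (l 16777408) (l 16777744)) (b (l 16777520) (l 16777856))) (b (c (b (l 16777984) (a (c (l 16778280) (l 16778336)) (l 16777960))) (b (l 16778096) (a (c (l 16778392) (l 16778448)) (l 16778064)))) (c (a (a (l 16778504) (b (l 16778376) (l 16777160))) (b (l 16778112) (l 16778256))) (a (a (l 16778608) (b (l 16778488) (l 16778576))) (b (l 16778216) (l 16778360)))))) (b (c (b (l 16776720) (l 16777032)) (b (c (l 16776784) (l 16776832)) (c (l 16777096) (l 16777144)))) (c (b (l 16776680) (c (l 16777608) (l 16777648))) (b (c (l 16777400) (l 16777440)) (c (l 16777688) (l 16777728)))))) (b (c (b (a (l 16776016) (c (l 16775280) (l 16775304))) (a (l 16775648) (c (l 16775552) (l 16775568)))) (b (a (c (l 16776064) (l 16776096)) (c (l 16775320) (l 16774688))) (a (c (l 16776352) (l 16776384)) (c (l 16775592) (l 16774952))))) (c (b (a (c (l 16776568) (l 16776600)) (c (l 16775808) (l 16775832))) (a (c (l 16776840)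 (l 16776872)) (a (l 16776272) (l 16775872)))) (b (a (c (l 16776632) (l 16776008)) (c (l 16775520) (b (l 16775808) (l 16775936)))) (a (c (l 16776248) (l 16776280)) (c (b (l 16776040) (l 16776160)) (b (l 16776056) (l 16776176)))))))), by decide +kernel⟩

def k27_pm_113_t : ∃ t, chk3 f_pm_113_t t 1020 510 1 = true :=
  ⟨(b (a (l 16781280) (l 16780792)) (b (c (l 16776408) (l 16779024)) (a (b (a (c (b (l 16779944) (a (l 16779544) (l 16779664))) (b (l 16779928) (a (l 16779536) (l 16779656)))) (l 16778848)) (b (a (l 16778800) (c (a (l 16779528) (l 16779664)) (a (l 16779520) (l 16779656)))) (c (l 16779392) (l 16779392)))) (b (l 16778152) (a (b (l 16779952) (a (c (l 16779504) (l 16778840)) (l 16778992))) (l 16780144)))))), by decide +kernel⟩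

def k28_pm_113_t : ∃ t, chk3 f_pm_113_t t 1020 511 1 = true :=
  ⟨(b (b (a (c (b (l 16779248) (l 16779064)) (b (l 16779272) (l 16779104))) (b (b (a (c (l 16779360) (a (l 16779352) (l 16779376))) (c (l 16778264) (a (l 16779472) (l 16779632)))) (a (l 16779264) (a (l 16779280) (c (l 16779328) (l 16779000))))) (c (l 16779136) (l 16779152)))) (a (c (b (l 16778880) (l 16778688)) (b (l 16778936) (l 16778760))) (b (c (l 16778936) (l 16778976)) (c (l 16778744) (l 16778792))))) (b (b (b (a (c (l 16778552) (l 16778632)) (c (l 16778592) (l 16778656))) (a (b (a (c (l 16778448) (l 16778544)) (l 16777872)) (c (a (l 16778320) (l 16778416)) (a (l 16778408) (l 16778504)))) (c (l 16778488) (l 16778560)))) (b (a (c (l 16777448) (a (l 16778120) (l 16778256))) (b (c (a (l 16778376) (l 16778416)) (a (l 16778456) (l 16778496))) (a (l 16778256) (c (l 16778320) (c (l 16778376) (l 16778416)))))) (a (c (l 16777712) (l 16777784)) (c (a (l 16777920) (l 16778048)) (a (l 16777984) (l 16778112))))))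 (a (a (c (b (l 16777056) (l 16776008)) (b (l 16777112) (c (l 16776280) (l 16775640)))) (c (b (l 16777184) (a (l 16775680) (l 16775736))) (b (c (l 16777224) (l 16777256)) (b (l 16776616) (l 16776184))))) (b (c (a (c (l 16777288) (l 16776664)) (l 16776768)) (a (a (l 16776680) (l 16776736)) (c (l 16776808) (l 16776832)))) (c (a (c (l 16776456) (l 16775816)) (c (l 16775896) (l 16776240))) (a (b (l 16776720) (l 16776280)) (b (l 16776816) (l 16776368)))))))), by decide +kernel⟩

def k29_pm_113_t : ∃ t, chk3 f_pm_113_t t 1021 510 1 = true :=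
  ⟨(b (a (c (l 16776408) (l 16779024)) (b (a (b (c (a (l 16779944) (l 16779208)) (a (l 16779928) (b (l 16779536) (l 16779656)))) (l 16778848)) (a (b (l 16778144) (c (l 16779120) (b (l 16779520) (l 16779656)))) (c (l 16779392) (l 16779392)))) (a (l 16778152) (a (l 16780152) (b (b (c (l 16779504) (l 16779496)) (l 16778992)) (l 16779944)))))) (a (b (l 16777568) (l 16778496)) (c (l 16778848) (l 16778848)))), by decide +kernel⟩

def k30_pm_113_t : ∃ t, chk3 f_pm_113_t t 1021 1022 1 = true :=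
  ⟨(b (a (a (b (c (l 16778432) (b (l 16779920) (l 16778880))) (b (c (a (l 16779208) (l 16779280)) (a (l 16779208) (c (l 16779280) (l 16779280)))) (l 16778464))) (b (l 16777456) (c (b (l 16779496) (a (l 16779144) (l 16779224))) (b (l 16779496) (a (l 16779136) (l 16778896)))))) (b (l 16777960) (c (l 16778496) (l 16778496)))) (a (b (c (a (l 16778968) (l 16778976)) (a (l 16778984) (l 16778984))) (c (l 16778768) (l 16778800))) (b (b (a (c (a (l 16779064) (l 16779168)) (a (c (l 16779064) (l 16778736)) (l 16779168))) (l 16779384)) (a (c (l 16778936) (l 16778936)) (a (c (l 16778664) (a (l 16778960) (l 16779000))) (a (l 16778728) (l 16779128))))) (b (a (l 16778832) (a (l 16778832) (a (l 16778824) (c (l 16778840) (l 16778840))))) (c (l 16778720) (l 16778736)))))), by decide +kernel⟩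

def k31_pm_113_t : ∃ t, chk3 f_pm_113_t t 1021 1023 1 = true :=
  ⟨(b (b (a (c (l 16778232) (a (l 16778608) (l 16778600))) (c (a (l 16778560) (l 16778552)) (a (l 16778592) (l 16778576)))) (b (a (c (a (l 16778400) (l 16778400)) (a (l 16778464) (l 16778456))) (c (l 16778384) (l 16778424))) (b (a (c (a (l 16778256) (l 16778312)) (a (c (l 16778312) (l 16778344)) (l 16778376))) (c (l 16776992) (l 16778352))) (a (c (a (l 16778072) (l 16778184)) (a (l 16778136) (a (l 16778224) (l 16778272)))) (a (a (c (l 16778240) (l 16778296)) (l 16778280)) (l 16778264)))))) (b (a (c (a (c (l 16777528) (l 16776896)) (c (l 16776984) (l 16777008))) (a (c (l 16776920) (l 16776944)) (a (l 16777016) (l 16777080)))) (c (b (a (a (l 16777960) (l 16777688)) (b (a (l 16778160) (l 16778176)) (l 16778000))) (a (l 16777544) (l 16777656))) (b (b (a (a (l 16778128) (l 16778176)) (a (l 16778208) (l 16778216))) (a (l 16777928) (l 16777720))) (a (l 16777584) (l 16777368))))) (b (a (c (a (l 16776880) (l 16776984))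 (a (l 16776920) (l 16777016))) (c (a (l 16777088) (l 16776864)) (a (l 16776792) (c (l 16777216) (l 16777232))))) (a (c (a (l 16776432) (l 16776528)) (a (l 16776136) (c (l 16776544) (l 16776560)))) (c (a (l 16776456) (c (l 16776704) (l 16776392))) (a (c (l 16776640) (l 16776648)) (a (l 16776712) (l 16776432)))))))), by decide +kernel⟩

def k32_pm_113_t : ∃ t, chk3 f_pm_113_t t 511 1020 1 = true :=
  ⟨(a (a (b (c (a (l 16779248) (l 16779064)) (a (l 16779272) (l 16779104))) (a (a (b (c (l 16779360) (l 16779360)) (c (l 16779568) (b (l 16779472) (l 16779632)))) (b (l 16779264) (c (l 16778984) (b (l 16779288) (l 16779328))))) (c (l 16779136) (l 16779152)))) (b (c (a (l 16778880) (l 16778688)) (a (l 16778936) (l 16778760))) (a (c (l 16778936) (l 16778976)) (c (l 16778744) (l 16778792))))) (a (a (b (a (c (l 16778552) (l 16778632)) (a (b (c (l 16778448) (l 16778544)) (l 16777872)) (c (b (l 16778320) (l 16778416)) (b (l 16778408) (l 16778504))))) (c (b (l 16778536) (l 16778544))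 (b (l 16778608) (l 16778608)))) (a (a (b (c (l 16778200) (l 16778288)) (c (b (l 16778376) (l 16778416)) (b (l 16778256) (l 16778496)))) (b (c (l 16778008) (l 16778088)) (b (l 16778256) (c (l 16778320) (c (l 16778376) (l 16778416)))))) (b (c (l 16777712) (l 16777784)) (c (b (l 16777920) (l 16778048)) (b (l 16777984) (l 16778112)))))) (b (b (c (a (l 16777056) (c (l 16776240) (l 16776264))) (a (l 16776456) (c (l 16776280) (l 16775640)))) (c (a (l 16776528) (a (l 16776568) (l 16776152))) (a (c (l 16777224) (l 16777256)) (a (l 16776616) (l 16775856))))) (a (a (c (b (l 16777512) (l 16777632)) (b (l 16777576) (l 16777688))) (c (b (l 16777096) (l 16777208)) (b (l 16777152) (l 16777256)))) (a (b (c (l 16776680) (l 16776720)) (c (l 16776776) (l 16776816))) (b (c (l 16776248) (l 16776280)) (c (l 16776336) (l 16776368)))))))), by decide +kernel⟩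

def k33_pm_113_t : ∃ t, chk3 f_pm_113_t t 1022 1021 1 = true :=
  ⟨(a (b (b (a (c (l 16778432) (a (l 16779920) (l 16778224))) (a (a (b (l 16778912) (l 16779008)) (c (l 16779200) (l 16779200))) (l 16778464))) (a (l 16777456) (c (a (l 16779496) (b (l 16779144) (l 16779224))) (a (l 16779496) (b (l 16779136) (l 16778568)))))) (a (l 16777960) (c (l 16778496) (l 16778496)))) (b (a (c (b (l 16778968) (l 16778976)) (b (l 16778984) (l 16778984))) (c (l 16778768) (b (l 16778800) (l 16778800)))) (a (a (b (c (b (l 16779064) (l 16779168)) (b (c (l 16779064) (l 16779064)) (l 16779168))) (l 16779384)) (b (c (l 16778936) (l 16778936)) (c (b (l 16778984) (l 16779096)) (b (c (l 16778984) (l 16778656)) (l 16779096))))) (a (b (l 16778832) (a (b (l 16778856) (b (l 16778200) (l 16778712))) (l 16778800))) (c (l 16778720) (l 16778736)))))), by decide +kernel⟩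

def k34_pm_113_t : ∃ t, chk3 f_pm_113_t t 1023 1021 1 = true :=
  ⟨(a (a (b (c (b (l 16778560) (l 16778560)) (b (l 16778608) (l 16778600))) (c (b (l 16778560) (l 16778552)) (b (l 16778592) (l 16778576)))) (a (b (c (b (l 16778400) (l 16778400)) (b (l 16778464) (l 16778456))) (c (l 16778384) (l 16778424))) (a (b (c (b (l 16778256) (l 16778312)) (b (c (l 16778312) (l 16778344)) (l 16778376))) (c (l 16777648) (l 16778352))) (b (c (b (l 16778072) (l 16778184)) (b (l 16778136) (b (l 16778224) (l 16778272)))) (b (a (l 16777968) (c (l 16778224) (l 16778280))) (l 16778264)))))) (a (b (c (b (c (l 16776872) (l 16776896)) (c (l 16776984) (l 16777008))) (a (b (l 16777808) (l 16777928)) (b (l 16777368) (l 16777480)))) (c (a (a (b (l 16778096) (b (l 16778160) (l 16778176))) (b (l 16777880) (l 16778000))) (b (l 16777544) (l 16777656))) (a (a (b (b (l 16778128) (l 16778176)) (b (l 16778048) (l 16778216))) (b (l 16777928) (l 16777880))) (b (l 16777584) (l 16777368))))) (a (b (c (b (l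 16776880) (l 16776984)) (b (l 16776920) (l 16776688))) (c (b (l 16777088) (l 16776864)) (b (c (l 16777112) (l 16777128)) (c (l 16777216) (l 16777232))))) (b (c (b (l 16776432) (l 16776528)) (b (l 16776296) (c (l 16776544) (l 16776560)))) (a (c (b (l 16776736) (l 16776832)) (b (l 16776768) (l 16776856))) (c (b (l 16776504) (l 16776592)) (b (l 16776528) (l 16776616)))))))), by decide +kernel⟩

def k35_pm_113_t : ∃ t, chk3 f_pm_113_t t 1022 1022 1 = true :=
  ⟨(b (a (a (l 16778024) (l 16777776)) (a (l 16778328) (a (b (a (l 16778384) (b (b (l 16778800) (l 16778832)) (l 16778920))) (l 16779216)) (b (b (l 16778712) (a (b (l 16778624) (l 16778784)) (l 16778672))) (c (l 16778544) (b (l 16778480) (l 16778920))))))) (a (b (l 16778328) (a (a (b (b (l 16778968) (a (l 16778800) (l 16778664))) (l 16778712)) (b (l 16779016) (b (c (l 16778776) (l 16778776)) (l 16778672)))) (a (b (l 16779152) (a (c (l 16778776) (l 16778120)) (l 16778176))) (l 16777792)))) (a (l 16778672) (l 16778424)))),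 by decide +kernel⟩

def k36_pm_113_t : ∃ t, chk3 f_pm_113_t t 1022 2046 1 = true :=
  ⟨(b (a (a (c (l 16778536) (l 16778552)) (c (b (a (l 16778576) (a (l 16778264) (l 16777968))) (l 16778456)) (b (a (l 16778584) (b (l 16778672) (l 16778552))) (l 16778464)))) (b (a (c (l 16778104) (l 16778432)) (l 16777672)) (b (a (a (c (l 16778488) (l 16778320)) (l 16778560)) (l 16778720)) (a (a (l 16778408) (c (l 16778416) (c (l 16778416) (l 16778096)))) (l 16778224))))) (b (a (a (l 16778376) (a (l 16778352) (l 16778344))) (b (a (c (l 16778344) (l 16778352)) (a (c (l 16778024) (c (l 16778352) (l 16778192))) (l 16778432))) (a (l 16778288) (c (a (l 16778256) (l 16777952)) (a (l 16778256) (c (l 16777952) (l 16778120))))))) (b (a (c (l 16778264) (l 16778288)) (a (l 16778224) (a (l 16778192) (c (l 16778176) (l 16778176))))) (a (c (l 16778200) (l 16778232)) (a (l 16778168) (a (l 16778136) (l 16778112))))))), by decide +kernel⟩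

def k37_pm_113_t : ∃ t, chk3 f_pm_113_t t 1022 2047 1 = true :=
  ⟨(b (a (b (a (b (l 16778176) (a (c (l 16778064) (c (l 16778096) (l 16778120))) (c (l 16778080) (l 16778120)))) (c (l 16778096) (l 16778128))) (b (a (c (l 16777888) (l 16777928)) (a (c (l 16777792) (c (l 16777984) (l 16777840))) (b (l 16778032) (c (l 16777952) (l 16777992))))) (c (a (l 16777648) (l 16777760)) (a (l 16777688) (l 16777800))))) (b (a (c (l 16778064) (l 16778088)) (c (l 16778024) (l 16777872))) (a (b (c (l 16777968) (c (l 16777992) (l 16778000))) (b (c (a (l 16777896) (l 16777904)) (a (l 16777928) (l 16777936))) (a (l 16777800) (c (l 16777832) (l 16777864))))) (b (c (l 16777928) (l 16777944)) (a (a (c (l 16777872) (l 16777896)) (l 16777880)) (l 16777856)))))) (a (a (a (b (c (l 16777264) (l 16777296)) (c (l 16776784) (l 16776480))) (b (c (l 16777320) (l 16776696)) (c (l 16776504) (c (l 16776848) (l 16776856))))) (a (c (b (l 16777368) (l 16776552)) (b (l 16777072) (c (l 16776568) (l 16776576))))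 (c (b (l 16777096) (c (l 16776920) (l 16776608))) (b (l 16777120) (c (l 16776616) (l 16776624)))))) (a (b (a (c (l 16777152) (l 16777176)) (c (l 16777200) (a (l 16777216) (l 16777240)))) (b (a (c (l 16777104) (l 16777120)) (c (l 16777152) (l 16777168))) (a (c (l 16776848) (l 16776864)) (c (l 16776896) (l 16776744))))) (a (b (b (a (l 16777544) (c (l 16777720) (l 16777576))) (c (l 16777456) (l 16777472))) (b (c (l 16777200) (l 16777216)) (c (l 16776944) (c (l 16776952) (l 16776960))))) (c (b (b (b (l 16777784) (l 16777696)) (l 16777504)) (b (l 16777248) (b (l 16777056) (a (l 16776912) (l 16776848))))) (b (b (b (c (l 16777800) (l 16777816)) (l 16777720)) (l 16777528)) (b (l 16777104) (b (l 16777064) (a (l 16776928) (a (l 16776944) (l 16776952))))))))))), by decide +kernel⟩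

def k38_pm_113_t : ∃ t, chk3 f_pm_113_t t 2046 1022 1 = true :=
  ⟨(a (b (b (c (l 16778536) (l 16778552)) (c (a (a (b (l 16778608) (l 16778672)) (l 16778552)) (l 16778456)) (a (b (l 16778584) (a (l 16778672) (l 16778552))) (l 16778464)))) (a (b (c (l 16778104) (l 16778432)) (l 16777672)) (a (b (b (c (l 16778488) (l 16778320)) (l 16778560)) (l 16778720)) (b (b (l 16778408) (c (l 16778416) (c (l 16778416) (l 16778424)))) (l 16778224))))) (b (c (b (l 16777976) (a (l 16778336) (l 16778216))) (b (a (l 16778392) (l 16778280)) (a (l 16778360) (l 16778248)))) (b (c (a (l 16778312) (l 16778184)) (a (l 16778160) (l 16778200))) (a (a (b (c (l 16778352) (c (l 16778352) (l 16778024))) (l 16778432)) (c (b (l 16778256) (l 16778280)) (b (l 16778256) (c (l 16778280) (l 16777952))))) (b (l 16778168) (a (c (l 16778176) (l 16778176)) (l 16778112))))))), by decide +kernel⟩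

def k39_pm_113_t : ∃ t, chk3 f_pm_113_t t 4094 1022 1 = true :=
  ⟨(a (b (b (a (a (l 16778192) (l 16778160)) (c (b (l 16778064) (l 16778080)) (b (c (l 16778096) (l 16778120)) (l 16778120)))) (c (l 16778096) (l 16778128))) (b (c (l 16778064) (l 16778088)) (c (l 16778024) (b (l 16778048) (l 16778024))))) (b (a (b (c (l 16777888) (l 16777928)) (a (b (c (l 16778008) (l 16778048)) (l 16778032)) (b (l 16777936) (c (l 16777952) (l 16777992))))) (c (b (l 16777648) (l 16777760)) (b (l 16777688) (l 16777800)))) (b (a (c (l 16777968) (c (l 16777992) (l 16778000))) (a (c (b (l 16777896) (l 16777904)) (b (l 16777928) (l 16777936))) (b (l 16777800) (c (l 16777832) (l 16777864))))) (a (c (l 16777928) (l 16777944)) (b (a (l 16777896) (c (l 16777848) (l 16777872))) (l 16777776)))))), by decide +kernel⟩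

def k40_pm_113_t : ∃ t, chk3 f_pm_113_t t 4095 1022 1 = true :=
  ⟨(b (a (a (c (b (l 16777416) (l 16777520)) (b (l 16777448) (l 16777552))) (c (b (l 16777176) (l 16777272)) (b (l 16777200) (l 16777136)))) (a (c (b (l 16776928) (l 16776864)) (b (l 16776792) (c (l 16777048) (l 16777056)))) (c (b (l 16776688) (c (l 16776776) (l 16776784))) (b (c (l 16776704) (l 16776712)) (c (l 16776792) (l 16776640)))))) (b (a (b (c (l 16777152) (a (l 16777624) (l 16777376))) (c (l 16777200) (c (l 16777216) (l 16777232)))) (a (b (c (l 16777104) (l 16777120)) (c (l 16777152) (l 16777168))) (b (c (l 16776848) (l 16776864)) (c (l 16776896) (l 16776744))))) (b (a (a (b (l 16777544) (c (l 16777392) (l 16777576))) (c (l 16777456) (l 16777472))) (a (c (l 16777200) (l 16777216)) (c (l 16776944) (c (l 16776952) (l 16776960))))) (c (a (a (a (l 16777704) (l 16777696)) (l 16777504)) (a (l 16777248) (a (l 16777056) (a (l 16776952) (b (l 16776880) (l 16776736)))))) (a (a (a (c (l 16777800) (l 16777736))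 (l 16777720)) (l 16777528)) (a (l 16777104) (a (l 16777064) (b (l 16776928) (b (l 16776944) (l 16776952)))))))))), by decide +kernel⟩

def k41_pm_113_t : ∃ t, chk3 f_pm_113_t t 2046 2046 1 = true :=
  ⟨(b (a (l 16777696) (a (l 16777840) (b (a (c (l 16778208) (l 16778048)) (a (b (l 16778112) (l 16778032)) (l 16778072))) (a (l 16778288) (c (l 16778136) (l 16777808)))))) (a (b (l 16777840) (a (b (a (c (l 16778192) (l 16778192)) (l 16778224)) (a (l 16778088) (c (l 16778088) (l 16777928)))) (b (l 16778288) (c (l 16777808) (l 16777808))))) (c (l 16777184) (l 16777840)))), by decide +kernel⟩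

def k42_pm_113_t : ∃ t, chk3 f_pm_113_t t 2046 4094 1 = true :=
  ⟨(b (a (b (a (l 16778024) (b (a (l 16778024) (l 16777872)) (c (l 16777984) (l 16777984)))) (c (l 16777944) (l 16777864))) (b (a (c (l 16778056) (l 16777728)) (l 16777472)) (a (a (c (l 16777912) (a (l 16777912) (l 16777912))) (c (l 16777760) (a (l 16777752) (l 16777928)))) (l 16777808)))) (b (a (c (l 16777872) (l 16777720)) (a (c (l 16777832) (l 16777840)) (a (b (c (l 16777840) (l 16777848)) (l 16777792)) (c (l 16777672) (a (l 16777664) (l 16777840)))))) (a (a (l 16777832) (l 16777632)) (a (c (l 16777768) (l 16777768)) (a (l 16777744) (c (l 16777728) (c (l 16777728) (l 16777728)))))))), by decide +kernel⟩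

def k43_pm_113_t : ∃ t, chk3 f_pm_113_t t 4092 4095 1 = true :=
  ⟨(b (a (b (b (l 16777776) (a (c (l 16777720) (l 16777576)) (c (l 16777728) (l 16777744)))) (b (c (l 16777616) (l 16777640)) (a (l 16777488) (c (l 16777504) (l 16777520))))) (b (c (l 16777728) (l 16777736)) (b (b (a (c (l 16777680) (a (l 16777696) (l 16777696))) (l 16777680)) (a (c (l 16777624) (l 16777640)) (c (l 16777640) (l 16777656)))) (a (a (l 16777448) (l 16777536)) (a (l 16777552) (l 16777560)))))) (b (a (b (a (l 16777272) (c (l 16777368) (c (l 16777384) (l 16777392)))) (a (c (l 16777216) (l 16777232)) (c (l 16777240) (l 16777248)))) (a (c (l 16777160) (c (l 16777008) (l 16777176))) (c (c (l 16777008) (l 16777184)) (c (l 16777184) (l 16777192))))) (a (b (a (a (c (l 16777080) (l 16777096)) (c (l 16777088) (l 16777104))) (c (l 16777096) (l 16777112))) (a (c (l 16776944) (l 16776880)) (c (l 16776952) (l 16776968)))) (a (b (c (l 16777112) (l 16777120)) (c (l 16776968) (l 16776976))) (b (c (l 16777128)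 (l 16777136)) (c (l 16776976) (l 16776904))))))), by decide +kernel⟩

def k44_pm_113_t : ∃ t, chk3 f_pm_113_t t 4093 4095 1 = true :=
  ⟨(a (b (b (c (l 16777696) (l 16777704)) (b (c (l 16777560) (c (l 16777648) (l 16777576))) (b (a (c (l 16777600) (l 16777616)) (c (l 16777608) (l 16777616))) (a (l 16777544) (c (l 16777560) (l 16777512)))))) (b (a (a (c (l 16777032) (l 16777208)) (c (l 16777208) (l 16777216))) (b (c (l 16777456) (l 16777472)) (c (l 16777312) (l 16777320)))) (b (a (c (l 16777144) (l 16777152)) (c (l 16777160) (l 16777088))) (a (c (l 16776912) (c (l 16777000) (l 16777000))) (c (c (l 16777008) (l 16777008)) (c (l 16776928) (l 16776936))))))) (b (b (c (l 16777664) (l 16777672)) (b (c (l 16777608) (l 16777616)) (a (a (c (l 16777584) (l 16777512)) (l 16777584)) (l 16777568)))) (b (b (b (a (c (l 16777520) (c (l 16777528) (l 16777536))) (a (c (l 16777536) (l 16777544)) (c (l 16777528) (l 16777544)))) (a (c (l 16777448) (l 16777464)) (c (l 16777392) (c (l 16777488)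 (l 16777488))))) (a (c (l 16777336) (l 16777184)) (c (l 16777200) (c (l 16777208) (l 16777208))))) (b (a (c (l 16777104) (c (l 16777192) (l 16777032))) (a (c (l 16777200) (l 16777208)) (c (l 16777216) (l 16777056)))) (b (a (c (l 16777064) (l 16777072)) (c (l 16777088) (l 16777056))) (a (c (l 16776984) (l 16776952)) (c (l 16776968) (c (l 16777008) (l 16777016))))))))), by decide +kernel⟩

def k45_pm_113_t : ∃ t, chk3 f_pm_113_t t 4094 2046 1 = true :=
  ⟨(a (b (b (a (l 16778024) (l 16777960)) (a (a (b (l 16778024) (l 16778032)) (c (l 16777984) (l 16777984))) (l 16777928))) (a (b (b (l 16777872) (l 16778072)) (l 16777472)) (b (b (c (l 16777912) (l 16777832)) (c (l 16777760) (a (l 16777952) (l 16777888)))) (l 16777808)))) (a (b (c (l 16777872) (l 16777720)) (a (b (l 16777856) (b (b (l 16777840) (l 16777848)) (l 16777872))) (b (l 16777816) (b (l 16777792) (c (l 16777800) (l 16777800)))))) (b (b (l 16777744) (l 16777720)) (a (b (l 16777784) (a (c (l 16777760) (l 16777760))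 (l 16777744))) (b (l 16777752) (l 16777640)))))), by decide +kernel⟩

def k46_pm_113_t : ∃ t, chk3 f_pm_113_t t 4094 2047 1 = true :=
  ⟨(b (a (b (l 16777456) (b (l 16777552) (b (c (l 16777688) (c (l 16777600) (l 16777688))) (a (c (l 16777696) (l 16777656)) (c (l 16777704) (l 16777704)))))) (b (a (l 16777552) (b (a (c (l 16777752) (l 16777752)) (c (l 16777696) (l 16777616))) (c (l 16777416) (l 16777576)))) (l 16777528))) (b (b (a (b (a (l 16777656) (a (l 16777648) (b (l 16777656) (l 16777624)))) (c (l 16777608) (l 16777616))) (b (a (a (l 16777488) (l 16777664)) (l 16777352)) (a (a (c (l 16777592) (l 16777592)) (c (l 16777592) (l 16777512))) (l 16777528)))) (a (a (c (l 16777568) (l 16777568)) (c (l 16777544) (l 16777552))) (b (b (a (l 16777560) (c (l 16777552) (l 16777512))) (a (l 16777536) (l 14))) (a (l 16777512) (l 14))))) (b (a (b (b (a (l 16777520) (l 16777504)) (a (a (c (l 16777448) (c (l 16777496) (l 16777424))) (c (l 16777496) (l 16777424))) (l 16777488))) (a (b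 (c (l 16777432) (l 16777360)) (c (l 16777352) (l 16777360))) (b (b (a (c (l 16777464) (l 16777472)) (l 16777464)) (a (l 16777440) (l 14))) (c (l 16777384) (l 16777304))))) (b (a (c (l 16777472) (l 16777480)) (l 14)) (l 14))) (a (a (a (b (c (l 16777064) (l 16777072)) (c (c (l 16776896) (l 16776904)) (c (l 16776984) (l 16776992)))) (b (c (l 16777072) (l 16777160)) (b (c (l 16777112) (l 16777120)) (l 14)))) (a (b (c (l 16777168) (c (l 16777096) (l 16777096))) (l 14)) (l 14))) (l 14))))), by decide +kernel⟩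

def k47_pm_113_t : ∃ t, chk3 f_pm_113_t t 4095 4092 1 = true :=
  ⟨(b (a (a (a (l 16777776) (b (c (l 16777720) (l 16777664)) (c (l 16777728) (l 16777744)))) (a (c (l 16777616) (l 16777640)) (b (l 16777488) (c (l 16777504) (l 16777520))))) (a (a (b (c (l 16777352) (l 16777368)) (c (l 16777368) (a (l 16777424) (l 16777352)))) (b (c (l 16777216) (l 16777072)) (c (l 16777240) (l 16777248)))) (a (b (a (c (l 16776952) (l 16777136)) (c (l 16776888) (l 16776984))) (c (l 16777096) (l 16777112))) (b (c (l 16776944) (l 16776880)) (c (l 16776952) (l 16776968)))))) (a (a (c (l 16777728) (l 16777736)) (a (a (b (c (l 16777600) (a (l 16777712) (l 16777688))) (l 16777680)) (b (c (l 16777624) (l 16777640)) (c (l 16777640) (l 16777656)))) (a (c (l 16777568) (l 16777584)) (b (l 16777504) (l 16777520))))) (a (b (c (l 16777160) (a (l 16777408) (l 16777264))) (c (a (l 16777408) (l 16777272)) (c (l 16777184) (l 16777192)))) (a (b (c (l 16777112) (l 16777120)) (c (l 16777128) (l 16777136)))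 (b (c (l 16776968) (l 16776976)) (c (l 16776976) (l 16776904))))))), by decide +kernel⟩

def k48_pm_113_t : ∃ t, chk3 f_pm_113_t t 4095 4093 1 = true :=
  ⟨(b (a (a (a (l 16777720) (l 16777680)) (a (a (l 16777656) (c (l 16777632) (l 16777608))) (a (b (c (l 16777600) (l 16777536)) (c (l 16777608) (l 16777616))) (b (l 16777544) (c (l 16777560) (c (l 16777576) (l 16777584))))))) (a (a (b (c (l 16777432) (l 16777448)) (c (l 16777456) (l 16777472))) (b (c (l 16777288) (l 16777304)) (c (l 16777312) (l 16777320)))) (a (b (c (l 16777144) (l 16776992)) (c (l 16777160) (a (l 16777208) (l 16777136)))) (b (c (l 16776912) (a (l 16777040) (l 16776960))) (c (a (l 16777048) (l 16776968)) (c (l 16776928) (l 16776936))))))) (a (a (c (l 16777664) (l 16777672)) (a (c (l 16777608) (l 16777616)) (b (b (c (l 16777584) (l 16777512)) (l 16777584)) (l 16777568)))) (a (a (a (b (c (l 16777440) (c (l 16777528) (l 16777536))) (b (c (l 16777536) (l 16777464)) (c (l 16777528) (l 16777544)))) (b (c (l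 16777448) (l 16777464)) (c (l 16777392) (a (l 16777504) (l 16777472))))) (b (c (l 16777336) (l 16777184)) (c (l 16777200) (a (l 16777408) (l 16777336))))) (b (a (c (l 16777104) (a (l 16777232) (l 16777152))) (b (c (l 16777024) (l 16776944)) (c (l 16777032) (l 16776952)))) (b (a (c (l 16777200) (l 16777208)) (c (l 16776960) (c (l 16777048) (l 16777048)))) (a (c (l 16777216) (l 16777056)) (c (l 16776968) (c (l 16777056) (l 16776976))))))))), by decide +kernel⟩

def k49_pm_113_t : ∃ t, chk3 f_pm_113_t t 4095 2047 1 = true :=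
  ⟨(a (a (b (b (a (b (l 16777656) (b (l 16777640) (a (l 16777656) (l 16777624)))) (c (l 16777608) (l 16777616))) (a (a (l 16777360) (b (l 16777560) (l 16777664))) (b (a (c (l 16777608) (l 16777528)) (c (l 16777576) (l 16777536))) (l 16777440)))) (b (b (l 16777336) (l 14)) (l 14))) (b (b (a (c (l 16777576) (l 16777576)) (c (l 16777536) (l 16777544))) (a (a (b (l 16777560) (c (l 16777552) (l 16777472))) (b (l 16777536) (l 14))) (b (l 16777512) (l 14)))) (l 14))) (b (a (b (a (a (b (l 16777520) (l 16777504)) (b (b (c (l 16777448) (c (l 16777496) (l 16777464))) (c (l 16777496) (l 16777464))) (l 16777488))) (b (a (c (l 16777432) (l 16777360)) (c (l 16777352) (l 16777360))) (a (a (b (c (l 16777464) (l 16777472)) (l 16777464)) (b (l 16777440) (l 14))) (c (l 16777384) (l 16777304))))) (a (b (c (l 16777472) (l 16777480)) (l 14)) (l 14))) (b (b (b (a (c (l 16777064) (l 16777072)) (c (c (l 16776896) (l 16776904)) (c (l 16776984) (l 16776992)))) (a (c (l 16777072) (l 16777160)) (a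 (c (l 16777112) (l 16777120)) (l 14)))) (b (a (c (l 16777168) (c (l 16777096) (l 16777096))) (l 14)) (l 14))) (l 14))) (l 14))), by decide +kernel⟩

theorem s50_pm_113_t : ∃ t, chk3 f_pm_113_t t 4095 2046 1 = true := ex3_b k47_pm_113_t k48_pm_113_t

theorem s51_pm_113_t : ∃ t, chk3 f_pm_113_t t 4095 1023 1 = true := ex3_b s50_pm_113_t k49_pm_113_t

theorem s52_pm_113_t : ∃ t, chk3 f_pm_113_t t 4094 1023 1 = true := ex3_b k45_pm_113_t k46_pm_113_t

theorem s53_pm_113_t : ∃ t, chk3 f_pm_113_t t 2047 1023 1 = true := ex3_a s52_pm_113_t s51_pm_113_t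

theorem s54_pm_113_t : ∃ t, chk3 f_pm_113_t t 2046 4095 1 = true := ex3_a k43_pm_113_t k44_pm_113_t

theorem s55_pm_113_t : ∃ t, chk3 f_pm_113_t t 2046 2047 1 = true := ex3_b k42_pm_113_t s54_pm_113_t

theorem s56_pm_113_t : ∃ t, chk3 f_pm_113_t t 2046 1023 1 = true := ex3_b k41_pm_113_t s55_pm_113_t

theorem s57_pm_113_t : ∃ t, chk3 f_pm_113_t t 1023 1023 1 = true := ex3_a s56_pm_113_t s53_pm_113_t

theorem s58_pm_113_t : ∃ t, chk3 f_pm_113_t t 2047 1022 1 = true := ex3_a k39_pm_113_t k40_pm_113_t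

theorem s59_pm_113_t : ∃ t, chk3 f_pm_113_t t 1023 1022 1 = true := ex3_a k38_pm_113_t s58_pm_113_t

theorem s60_pm_113_t : ∃ t, chk3 f_pm_113_t t 1023 511 1 = true := ex3_b s59_pm_113_t s57_pm_113_t

theorem s61_pm_113_t : ∃ t, chk3 f_pm_113_t t 1022 1023 1 = true := ex3_b k36_pm_113_t k37_pm_113_t

theorem s62_pm_113_t : ∃ t, chk3 f_pm_113_t t 1022 511 1 = true := ex3_b k35_pm_113_t s61_pm_113_t

theorem s63_pm_113_t : ∃ t, chk3 f_pm_113_t t 511 511 1 = true := ex3_a s62_pm_113_t s60_pm_113_t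

theorem s64_pm_113_t : ∃ t, chk3 f_pm_113_t t 511 1021 1 = true := ex3_a k33_pm_113_t k34_pm_113_t

theorem s65_pm_113_t : ∃ t, chk3 f_pm_113_t t 511 510 1 = true := ex3_b k32_pm_113_t s64_pm_113_t

theorem s66_pm_113_t : ∃ t, chk3 f_pm_113_t t 511 255 1 = true := ex3_b s65_pm_113_t s63_pm_113_t

theorem s67_pm_113_t : ∃ t, chk3 f_pm_113_t t 1021 511 1 = true := ex3_b k30_pm_113_t k31_pm_113_t

theorem s68_pm_113_t : ∃ t, chk3 f_pm_113_t t 1021 255 1 = true := ex3_b k29_pm_113_t s67_pm_113_t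

theorem s69_pm_113_t : ∃ t, chk3 f_pm_113_t t 1020 255 1 = true := ex3_b k27_pm_113_t k28_pm_113_t

theorem s70_pm_113_t : ∃ t, chk3 f_pm_113_t t 510 255 1 = true := ex3_a s69_pm_113_t s68_pm_113_t

theorem s71_pm_113_t : ∃ t, chk3 f_pm_113_t t 255 255 1 = true := ex3_a s70_pm_113_t s66_pm_113_t

theorem s72_pm_113_t : ∃ t, chk3 f_pm_113_t t 511 509 1 = true := ex3_a k25_pm_113_t k26_pm_113_t

theorem s73_pm_113_t : ∃ t, chk3 f_pm_113_t t 1023 508 1 = true := ex3_c k23_pm_113_t k24_pm_113_t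

theorem s74_pm_113_t : ∃ t, chk3 f_pm_113_t t 511 508 1 = true := ex3_a k22_pm_113_t s73_pm_113_t

theorem s75_pm_113_t : ∃ t, chk3 f_pm_113_t t 511 254 1 = true := ex3_b s74_pm_113_t s72_pm_113_t

theorem s76_pm_113_t : ∃ t, chk3 f_pm_113_t t 255 254 1 = true := ex3_a k21_pm_113_t s75_pm_113_t

theorem s77_pm_113_t : ∃ t, chk3 f_pm_113_t t 255 127 1 = true := ex3_b s76_pm_113_t s71_pm_113_t

theorem s78_pm_113_t : ∃ t, chk3 f_pm_113_t t 509 511 1 = true := ex3_b k19_pm_113_t k20_pm_113_t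

theorem s79_pm_113_t : ∃ t, chk3 f_pm_113_t t 509 255 1 = true := ex3_b k18_pm_113_t s78_pm_113_t

theorem s80_pm_113_t : ∃ t, chk3 f_pm_113_t t 509 127 1 = true := ex3_b k17_pm_113_t s79_pm_113_t

theorem s81_pm_113_t : ∃ t, chk3 f_pm_113_t t 1016 511 1 = true := ex3_a k14_pm_113_t k15_pm_113_t

theorem s82_pm_113_t : ∃ t, chk3 f_pm_113_t t 1016 255 1 = true := ex3_b k13_pm_113_t s81_pm_113_t

theorem s83_pm_113_t : ∃ t, chk3 f_pm_113_t t 1016 127 1 = true := ex3_b k12_pm_113_t s82_pm_113_t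

theorem s84_pm_113_t : ∃ t, chk3 f_pm_113_t t 508 127 1 = true := ex3_a s83_pm_113_t k16_pm_113_t

theorem s85_pm_113_t : ∃ t, chk3 f_pm_113_t t 254 127 1 = true := ex3_a s84_pm_113_t s80_pm_113_t

theorem s86_pm_113_t : ∃ t, chk3 f_pm_113_t t 127 127 1 = true := ex3_a s85_pm_113_t s77_pm_113_t

theorem s87_pm_113_t : ∃ t, chk3 f_pm_113_t t 63 127 1 = true := ex3_a k11_pm_113_t s86_pm_113_t

theorem s88_pm_113_t : ∃ t, chk3 f_pm_113_t t 63 63 1 = true := ex3_b k10_pm_113_t s87_pm_113_t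

theorem s89_pm_113_t : ∃ t, chk3 f_pm_113_t t 63 31 1 = true := ex3_b k9_pm_113_t s88_pm_113_t

theorem s90_pm_113_t : ∃ t, chk3 f_pm_113_t t 31 31 1 = true := ex3_a k8_pm_113_t s89_pm_113_t

theorem s91_pm_113_t : ∃ t, chk3 f_pm_113_t t 31 15 1 = true := ex3_b k7_pm_113_t s90_pm_113_t

theorem s92_pm_113_t : ∃ t, chk3 f_pm_113_t t 15 15 1 = true := ex3_a k6_pm_113_t s91_pm_113_t

theorem s93_pm_113_t : ∃ t, chk3 f_pm_113_t t 15 7 1 = true := ex3_b k5_pm_113_t s92_pm_113_t

theorem s94_pm_113_t : ∃ t, chk3 f_pm_113_t t 7 7 1 = true := ex3_a k4_pm_113_t s93_pm_113_t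

theorem s95_pm_113_t : ∃ t, chk3 f_pm_113_t t 7 3 1 = true := ex3_b k3_pm_113_t s94_pm_113_t

theorem s96_pm_113_t : ∃ t, chk3 f_pm_113_t t 3 3 1 = true := ex3_a k2_pm_113_t s95_pm_113_t

theorem s97_pm_113_t : ∃ t, chk3 f_pm_113_t t 3 1 1 = true := ex3_b k1_pm_113_t s96_pm_113_t

theorem s98_pm_113_t : ∃ t, chk3 f_pm_113_t t 1 1 1 = true := ex3_a k0_pm_113_t s97_pm_113_t

theorem c_pm_113_t : CertNE 536870912 536870912 536870912 536870912 1040187392 5207648 3 eng mog cd0q1 cd0q1 pd3 true true false .nn 1 1 3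
    ndB0q1 ndB0q1 pcB3 cut_pm_113_t Ext.none :=
  certNE0 (fam := true) (s1 := true) (s2 := false) (a := 1) (b := 1) (c := 3) (cn := .nn) (n1 := ndB0q1) (n2 := ndB0q1) (pc := pcB3) (cut := cut_pm_113_t) (xt := Ext.none) (P1 := 536870912) (W1 := 536870912) (P2 := 536870912) (W2 := 536870912) (P3 := 1040187392) (W3 := 5207648) (N0 := 3) (En := eng) (mo := mog) (C1 := cd0q1) (C2 := cd0q1) (C3 := pd3)
    rfl s98_pm_113_t

noncomputable def cut_pm_123_s : Cut := Cut.of [[⟨4, 0, 0, 1449551462⟩], [⟨0, 1, 0, 15728640⟩, ⟨1, 1, 0, 15728640⟩, ⟨2, 2, 0, 524288⟩], [⟨0, 0, 1, 46137344⟩, ⟨1, 1, 0, 1048576⟩, ⟨2, 1, 1, 46137344⟩, ⟨0, 0, 0, 1054867456⟩, ⟨0, 1, 0, 38117834⟩, ⟨2, 1, 0, 1054867456⟩, ⟨2, 2, 0, 38117834⟩], [⟨0, 1, 0, 1048576⟩, ⟨1, 0, 1, 46137344⟩, ⟨2, 1, 1, 46137344⟩, ⟨1, 0, 0, 1054867456⟩, ⟨1, 1, 0, 38117834⟩, ⟨2, 1, 0, 1054867456⟩, ⟨2, 2, 0, 38117834⟩]]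

noncomputable def f_pm_123_s : ℕ → ℕ → ℕ → ℕ → Bool := onCell 536870912 536870912 0 536870912 1040187392 5207648
    (rowNE 3 eng mog cd0q1 cd0q2 pd3 0 true true false .npn 1 2 3 (qsf 536870912 536870912 0 536870912 3) ndB0q1 ndB0q2 pcB3 cut_pm_123_s Ext.none)

def k0_pm_123_s : ∃ t, chk3 f_pm_123_s t 1 1 1 = true :=
  ⟨(l 6), by decide +kernel⟩

theorem c_pm_123_s : CertNE 536870912 536870912 0 536870912 1040187392 5207648 3 eng mog cd0q1 cd0q2 pd3 true true false .npn 1 2 3
    ndB0q1 ndB0q2 pcB3 cut_pm_123_s Ext.none :=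
  certNE0 (fam := true) (s1 := true) (s2 := false) (a := 1) (b := 2) (c := 3) (cn := .npn) (n1 := ndB0q1) (n2 := ndB0q2) (pc := pcB3) (cut := cut_pm_123_s) (xt := Ext.none) (P1 := 536870912) (W1 := 536870912) (P2 := 0) (W2 := 536870912) (P3 := 1040187392) (W3 := 5207648) (N0 := 3) (En := eng) (mo := mog) (C1 := cd0q1) (C2 := cd0q2) (C3 := pd3)
    rfl k0_pm_123_s

noncomputable def cut_pm_123_t : Cut := Cut.of [[⟨3, 0, 0, 3194381926⟩], [⟨0, 1, 0, 15728640⟩, ⟨1, 1, 0, 15728640⟩, ⟨2, 2, 0, 524288⟩], [⟨0, 0, 1, 46137344⟩, ⟨1, 1, 0, 1048576⟩, ⟨2, 1, 1, 46137344⟩, ⟨0, 0, 0, 1054867456⟩, ⟨0, 1, 0, 38117834⟩, ⟨2, 1, 0, 1054867456⟩, ⟨2, 2, 0, 38117834⟩], [⟨0, 1, 0, 1048576⟩, ⟨1, 0, 1, 46137344⟩, ⟨2, 1, 1, 46137344⟩, ⟨1, 0, 0, 1054867456⟩, ⟨1, 1, 0, 38117834⟩, ⟨2, 1, 0, 1054867456⟩, ⟨2, 2, 0, 38117834⟩]]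

noncomputable def f_pm_123_t : ℕ → ℕ → ℕ → ℕ → Bool := onCell 1610612736 536870912 0 536870912 1040187392 5207648
    (rowNE 3 eng mog cd0q1 cd0q2 pd3 2 true true false .npn 1 2 3 (qsf 536870912 536870912 0 536870912 3) ndB0q1 ndB0q2 pcB3 cut_pm_123_t Ext.none)

def k0_pm_123_t : ∃ t, chk3 f_pm_123_t t 2 1 1 = true :=
  ⟨(b (a (l 6) (a (l 6) (b (b (a (l 16678184) (a (l 16716032) (l 16739568))) (l 6)) (l 6)))) (l 6)), by decide +kernel⟩

def k1_pm_123_t : ∃ t, chk3 f_pm_123_t t 3 2 1 = true :=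
  ⟨(a (a (b (b (a (a (l 77007240967) (l 92039628327)) (a (l 111366952535) (l 4))) (a (l 16669112) (a (l 16720456) (l 17414639703)))) (l 6)) (b (b (l 4) (a (a (b (l 16735808) (l 16752928)) (l 110830086679)) (a (l 192971443111) (l 4)))) (a (b (a (l 6) (l 16706272)) (l 6)) (b (a (b (l 16763096) (l 16712712)) (b (l 118346345399) (l 16748184))) (l 6))))) (b (l 4) (a (a (b (a (b (l 4) (l 112440772551)) (l 4)) (a (l 16598872) (b (a (l 16761496) (l 16752784)) (l 16717336)))) (b (l 4) (a (b (a (l 16735576) (l 4)) (a (l 16751112) (l 16749576))) (b (l 4) (a (l 16719960) (l 4)))))) (l 4)))), by decide +kernel⟩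

def k2_pm_123_t : ∃ t, chk3 f_pm_123_t t 6 3 1 = true :=
  ⟨(l 6), by decide +kernel⟩

def k3_pm_123_t : ∃ t, chk3 f_pm_123_t t 7 6 1 = true :=
  ⟨(a (a (l 6) (b (a (b (l 16683856) (l 6)) (b (a (l 16743040) (l 16724352)) (l 16633192))) (l 6))) (b (a (a (b (a (l 99018999799) (l 4)) (a (l 16718448) (b (l 16731336) (l 16755216)))) (a (b (l 4) (a (l 94187184007) (l 173644064135))) (l 4))) (l 4)) (a (a (b (a (l 6) (l 16685944)) (l 6)) (a (b (a (l 16711432) (l 16708688)) (b (l 16688000) (l 6))) (b (a (b (l 16751240) (l 16753616)) (b (l 4) (l 16751776))) (a (l 16699376) (l 16700808))))) (a (a (b (a (b (l 4) (l 185992136695)) (l 4)) (a (b (l 16742048) (l 16727048)) (b (a (l 16754848) (l 16745728)) (l 16731624)))) (b (l 4) (b (l 4) (a (a (l 16751088) (l 107072135255)) (a (l 254174748647) (l 4)))))) (l 4))))), by decide +kernel⟩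

def k4_pm_123_t : ∃ t, chk3 f_pm_123_t t 14 7 1 = true :=
  ⟨(l 6), by decide +kernel⟩

def k5_pm_123_t : ∃ t, chk3 f_pm_123_t t 30 14 1 = true :=
  ⟨(a (l 6) (l 6)), by decide +kernel⟩

def k6_pm_123_t : ∃ t, chk3 f_pm_123_t t 31 28 1 = true :=
  ⟨(a (a (b (a (l 16687200) (l 16714920)) (a (l 6) (b (l 16684048) (l 6)))) (a (b (l 16722816) (l 16705112)) (b (a (l 16745040) (b (l 256322257639) (l 16751504))) (a (l 16729768) (l 16725144))))) (a (a (b (a (b (l 4) (l 268670288359)) (l 4)) (a (a (l 16737360) (l 16745656)) (a (b (l 16751760) (l 16766496)) (b (l 4) (l 16754192))))) (b (l 4) (a (b (l 4) (a (l 180623473655) (l 4))) (l 4)))) (l 4))), by decide +kernel⟩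

def k7_pm_123_t : ∃ t, chk3 f_pm_123_t t 31 29 1 = true :=
  ⟨(a (a (l 6) (b (a (b (a (l 6) (l 16682448)) (l 6)) (b (a (l 16700728) (l 16718576)) (a (l 16680456) (b (l 16705016) (l 16696288))))) (a (l 6) (a (l 6) (b (b (l 16686376) (l 16674800)) (l 16656616)))))) (a (a (b (a (b (l 16736080) (l 16719168)) (b (l 16732832) (l 16737464))) (b (a (b (l 16707240) (l 16698104)) (b (l 16726104) (l 16719000))) (a (l 16681728) (b (a (l 16705696) (l 16716656)) (l 16701856))))) (b (a (b (a (l 16767304) (a (l 16753168) (l 138747552039))) (a (l 16751288) (l 16760560))) (b (a (b (l 4) (l 332021079575)) (l 4)) (a (a (l 16767600) (l 74859877351)) (a (b (l 16753224) (l 16773216)) (b (l 4) (l 16755336)))))) (a (b (a (l 16736568) (l 16745960)) (b (l 16731400) (a (l 16719976) (l 16730456)))) (b (a (l 16755352) (b (l 16768264) (l 16761400))) (a (l 16742808) (b (l 16755112) (l 16749560))))))) (a (b (a (b (l 4) (a (b (l 4) (l 718568148039)) (l 4))) (l 4)) (a (b (a (b (a (l 16775216) (l 247195482871))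 (l 16765512)) (b (l 4) (a (a (l 16755432) (l 247195487175)) (l 786213886407)))) (a (b (l 16764408) (l 16758800)) (b (a (l 16771344) (b (l 191360914887) (l 16774384))) (a (l 16765616) (l 16770088))))) (a (b (l 4) (a (b (b (l 4) (l 286387064135)) (b (l 82376123799) (l 16773168))) (b (l 4) (b (l 827552949559) (a (l 16776312) (l 336316062119)))))) (l 4)))) (l 4)))), by decide +kernel⟩

def k8_pm_123_t : ∃ t, chk3 f_pm_123_t t 30 15 1 = true :=
  ⟨(l 6), by decide +kernel⟩

def k9_pm_123_t : ∃ t, chk3 f_pm_123_t t 62 30 1 = true :=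
  ⟨(l 6), by decide +kernel⟩

def k10_pm_123_t : ∃ t, chk3 f_pm_123_t t 126 30 1 = true :=
  ⟨(b (a (b (b (l 16678864) (l 16669832)) (b (l 16662504) (a (l 6) (l 16672128)))) (b (a (b (a (l 16711872) (b (l 16726240) (l 16722824))) (l 16710544)) (b (a (l 16740496) (l 16744984)) (a (b (l 16731752) (l 16728760)) (b (l 16742392) (a (l 16738152) (l 16743392)))))) (a (b (l 16704464) (l 16700952)) (b (a (l 16724752) (b (a (l 16735728) (l 16741936)) (l 16736808))) (l 16728456))))) (a (b (b (a (l 6) (l 16670944)) (l 6)) (l 6)) (b (a (b (l 16701096) (b (l 16704520) (l 16708840))) (b (a (l 16722616) (l 16736168)) (a (l 16729008) (l 16742928)))) (a (b (b (l 16715096) (l 16723640)) (b (l 16734880) (l 16749336))) (b (a (l 16743008) (l 16757488)) (a (l 16757840) (l 16759680))))))), by decide +kernel⟩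

def k11_pm_123_t : ∃ t, chk3 f_pm_123_t t 254 30 1 = true :=
  ⟨(b (a (b (a (b (l 16754192) (l 16750888)) (b (a (l 16760880) (l 16765216)) (a (l 16757464) (l 16761656)))) (a (b (b (l 16749440) (a (l 16746184) (l 16751344))) (b (a (l 16744896) (l 16750952)) (l 16747504))) (b (b (l 16758088) (l 16757784)) (b (a (b (l 16755968) (l 16756152)) (l 16760104)) (a (l 16756320) (b (l 16760552) (a (l 16759104) (l 16760224)))))))) (b (a (b (a (l 16769472) (a (l 16772616) (l 16772024))) (a (l 16765704) (l 16769608))) (a (b (a (b (l 293903261079) (l 16775528)) (b (l 4) (b (l 363696481351) (l 16766288)))) (b (l 16774344) (l 16772528))) (b (l 4) (a (b (b (l 327189260119) (l 16766064)) (l 16775192)) (b (l 943517068087) (b (c (l 298198231479) (l 298735102375)) (l 16776416))))))) (a (b (a (l 16763688) (l 16767288)) (a (l 16743176) (l 16746192))) (b (a (b (l 16771160) (l 16770312)) (b (l 16769200) (l 16773336))) (a (l 16759504) (b (l 16772848) (l 16771848))))))) (a (b (b (a (l 16748928)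 (b (a (l 16756936) (b (l 16759408) (l 16759640))) (l 16759744))) (a (l 16755840) (l 16760384))) (b (a (l 16760144) (l 16761216)) (a (l 16760912) (l 16762112)))) (b (a (b (a (b (a (b (l 16760704) (l 16760104)) (l 16761832)) (b (l 16760448) (l 16760712))) (b (l 16764192) (a (b (l 16761896) (l 16761320)) (l 16763112)))) (b (a (l 16761080) (b (a (l 16761504) (l 16762008)) (l 16761960))) (l 16761936))) (b (a (l 16745496) (l 16759096)) (a (b (a (b (l 16763344) (l 16762752)) (l 16764640)) (b (a (l 16762872) (c (l 16763432) (l 16753216))) (l 16763368))) (a (b (l 16766304) (a (b (l 16764576) (l 16764040)) (l 16765160))) (l 16767184))))) (a (b (l 16762664) (l 16763648)) (b (a (l 16764016) (a (l 16764744) (b (b (a (l 16764936) (l 16765680)) (l 16765160)) (l 16765592)))) (l 16760304)))))), by decide +kernel⟩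

def k12_pm_123_t : ∃ t, chk3 f_pm_123_t t 510 60 1 = true :=
  ⟨(a (b (a (a (a (b (l 4) (b (l 4) (l 809836212999))) (l 4)) (l 4)) (l 4)) (a (b (a (b (a (l 16776376) (b (l 423826025751) (l 16776744))) (l 16775432)) (a (b (b (l 4) (l 414162349527)) (l 16776424)) (b (l 4) (b (l 409867382359) (l 16776760))))) (a (l 16763856) (l 16770200))) (b (b (l 4) (a (a (b (l 4) (l 426510380727)) (l 4)) (l 4))) (b (b (a (a (l 16776800) (l 423826026215)) (l 4)) (a (l 16776616) (a (l 426510380791) (l 4)))) (a (l 16775960) (a (l 16776696) (b (l 436174057159) (l 16776936)))))))) (b (l 4) (a (b (l 4) (a (a (b (l 4) (b (l 4) (c (l 448522088055) (l 454427668071)))) (l 4)) (l 4))) (l 4)))), by decide +kernel⟩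

def k13_pm_123_t : ∃ t, chk3 f_pm_123_t t 510 61 1 = true :=
  ⟨(a (b (a (b (a (l 16771752) (l 16752136)) (b (l 16770400) (l 16768960))) (b (a (l 16763896) (l 16770288)) (a (l 16772000) (l 16752448)))) (b (a (b (a (b (l 16766960) (c (l 16755768) (l 16761232))) (l 16768360)) (a (b (c (l 16765912) (l 16766136)) (l 16766296)) (b (l 16767400) (a (l 16766712) (l 16761968))))) (a (b (l 16770064) (l 16768816)) (l 16771080))) (a (l 16767224) (b (a (b (a (l 16767600) (l 16768296)) (l 16767984)) (a (b (l 16769080) (b (l 16768688) (l 16768536))) (l 16769744))) (a (l 16768368) (a (l 16768848) (a (l 16769056) (b (l 16769176) (l 16769376))))))))) (b (a (b (a (b (a (l 16776752) (b (a (l 16771680) (l 627836972535)) (l 16777008))) (l 16776112)) (a (b (b (l 4) (c (l 505430403703) (l 511872854631))) (l 16771616)) (b (l 4) (b (c (l 545695721815) (l 552675043655)) (l 16771904))))) (a (l 16764232) (b (l 16776264) (l 16775424)))) (b (a (a (b (l 4) (b (l 4) (c (l 1013310289719) (l 1022973966135))))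 (l 4)) (l 4)) (b (a (a (b (c (l 16772008) (l 16774496)) (l 16776752)) (b (l 1117463246167) (a (l 16777096) (l 431342220055)))) (a (l 1308589288567) (l 4))) (a (l 16765960) (a (a (l 16774416) (b (l 538179530407) (l 16777016))) (b (l 4) (a (l 16775752) (l 656291129751)))))))) (a (b (a (l 16751672) (l 16763584)) (b (l 16766576) (a (a (b (l 16767160) (l 16769584)) (b (l 16770560) (b (l 16770216) (l 16770040)))) (l 16761176)))) (b (a (l 16773352) (a (l 16765632) (b (l 16771640) (l 16776272)))) (a (l 16768408) (b (l 16775352) (l 16774640))))))), by decide +kernel⟩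

def k14_pm_123_t : ∃ t, chk3 f_pm_123_t t 511 30 1 = true :=
  ⟨(a (b (l 4) (b (l 4) (a (b (a (a (b (a (b (b (l 16775224) (l 16777136)) (l 16777000)) (b (l 1422405924263) (l 16774536))) (l 16776704)) (a (b (b (l 4) (l 639648131703)) (l 16776992)) (b (l 4) (b (b (l 670786646599) (l 16777176)) (l 16777024))))) (b (l 4) (a (b (l 1479851110695) (a (b (l 16774376) (l 16777128)) (b (l 4) (l 574149883159)))) (l 4)))) (b (a (l 16771136) (a (l 16775984) (a (b (b (l 725010608567) (l 16771872)) (l 16777072)) (b (l 1601183937687) (b (l 513483470311) (l 16777184)))))) (a (l 16765344) (a (l 16776536) (l 16776888))))) (a (b (l 4) (b (a (a (b (l 4) (b (l 4) (l 691724612199))) (l 4)) (l 4)) (b (a (a (b (l 16774536) (l 16777128)) (a (b (l 16773960) (l 16777176)) (l 797488180983))) (l 4)) (a (l 16777096) (a (b (l 702998901351) (l 16775832)) (l 1701041927335)))))) (l 4))))) (l 4)), by decide +kernel⟩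

def k15_pm_123_t : ∃ t, chk3 f_pm_123_t t 62 31 1 = true :=
  ⟨(l 6), by decide +kernel⟩

def k16_pm_123_t : ∃ t, chk3 f_pm_123_t t 252 31 1 = true :=
  ⟨(l 6), by decide +kernel⟩

def k17_pm_123_t : ∃ t, chk3 f_pm_123_t t 506 31 1 = true :=
  ⟨(a (l 6) (b (b (b (l 16756056) (l 16756616)) (l 6)) (l 6))), by decide +kernel⟩

def k18_pm_123_t : ∃ t, chk3 f_pm_123_t t 1014 31 1 = true :=
  ⟨(b (b (b (l 16758312) (l 16759184)) (b (b (l 16760112) (l 16760880)) (b (l 16761776) (l 16762880)))) (a (l 6) (b (b (b (l 16764976) (c (l 16766616) (l 16766480))) (l 6)) (l 6)))), by decide +kernel⟩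

def k19_pm_123_t : ∃ t, chk3 f_pm_123_t t 1015 62 1 = true :=
  ⟨(b (b (l 16760488) (b (l 16761312) (l 16761984))) (b (b (l 16762736) (l 16763584)) (b (a (l 16763896) (l 16765200)) (a (l 16765056) (l 16766376))))), by decide +kernel⟩

def k20_pm_123_t : ∃ t, chk3 f_pm_123_t t 1015 126 1 = true :=
  ⟨(b (b (a (l 16766432) (a (l 16767488) (l 16768040))) (a (c (l 16768080) (l 16767968)) (a (l 16769088) (l 16769632)))) (b (a (c (l 16769872) (l 16769752)) (a (l 16768264) (c (l 16771472) (l 16771376)))) (a (c (l 16771856) (l 16769096)) (a (c (l 16772912) (l 16772792)) (c (l 16773440) (l 16773328)))))), by decide +kernel⟩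

def k21_pm_123_t : ∃ t, chk3 f_pm_123_t t 2030 127 1 = true :=
  ⟨(b (b (c (b (l 16773440) (l 16774528)) (b (l 16773288) (l 16774368))) (c (b (l 16775640) (l 16776744)) (b (l 16775472) (l 16773952)))) (a (l 6) (b (b (c (l 16778168) (l 16778000)) (b (b (c (l 16778856) (l 16778680)) (c (l 16778800) (b (l 16778760) (l 16778512)))) (c (l 16777960) (l 16777816)))) (b (c (c (l 16773624) (l 16773576)) (c (l 16774840) (b (l 16776664) (l 16775544)))) (a (l 6) (b (c (l 16774616) (c (l 16774592) (l 16774568))) (c (c (l 16773448) (l 16772136)) (c (c (l 16773440) (l 16772128)) (c (l 16772784) (b (l 16773720) (l 16772504))))))))))), by decide +kernel⟩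

def k22_pm_123_t : ∃ t, chk3 f_pm_123_t t 2031 127 1 = true :=
  ⟨(a (b (b (c (l 16775024) (l 16772272)) (c (l 16777192) (l 16775728))) (b (b (c (l 16778808) (l 16778648)) (b (b (l 16778744) (c (l 16778200) (b (l 16779464) (l 16779264)))) (c (l 16778664) (l 16778520)))) (c (b (c (l 16774240) (l 16774200)) (b (l 16773712) (c (l 16772496) (c (l 16772496) (l 16772496))))) (b (c (l 16774152) (b (l 16777320) (l 16776144))) (c (b (l 16774992) (a (l 16773032) (l 16772616))) (b (l 16773664) (b (l 16774096) (c (l 16773512) (l 16772856))))))))) (b (b (c (l 16774216) (b (l 16774872) (l 16775928))) (c (l 16776336) (b (l 16776984) (l 16778032)))) (b (b (c (l 16779232) (l 16779088)) (b (b (c (l 16779896) (l 16779744)) (c (b (l 16780088) (l 16779960)) (b (c (l 16779968) (l 16779896)) (l 16779808)))) (c (l 16779176) (l 16777736)))) (a (c (b (c (l 16774664) (l 16774616)) (c (a (l 16773416) (l 16772184)) (a (l 16773408) (l 16773480)))) (b (c (l 16775888) (a (l 16774496) (l 16774576)))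 (c (a (b (l 16775320) (l 16774104)) (l 16773472)) (a (b (l 16775304) (l 16773448)) (b (l 16775384) (l 16774168)))))) (c (b (l 16774728) (c (l 16773544) (l 16773536))) (b (l 16775960) (b (l 16774792) (c (l 16774232) (l 16772920))))))))), by decide +kernel⟩

def k23_pm_123_t : ∃ t, chk3 f_pm_123_t t 254 62 1 = true :=
  ⟨(b (a (b (a (l 16761888) (l 16763160)) (a (b (l 16762800) (l 16763512)) (b (l 16764088) (l 16764784)))) (b (a (l 16759480) (b (l 16766328) (l 16766872))) (a (b (l 16765632) (l 16766296)) (b (l 16767448) (l 16768056))))) (a (b (a (b (l 16764288) (l 16765144)) (b (l 16765536) (l 16766344))) (a (b (l 16766104) (b (l 16766936) (l 16767560))) (b (a (l 16766944) (l 16767560)) (a (l 16768032) (l 16768600))))) (b (a (b (l 16766992) (l 16766432)) (b (l 16766064) (a (l 16768920) (l 16769776)))) (a (b (a (l 16768216) (l 16768912)) (a (l 16769208) (l 16769864))) (b (a (l 16769672) (l 16770472)) (a (l 16770568) (l 16771312))))))), by decide +kernel⟩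

def k24_pm_123_t : ∃ t, chk3 f_pm_123_t t 254 126 1 = true :=
  ⟨(a (b (a (b (a (l 16768368) (l 16768824)) (b (l 16769736) (l 16769240))) (b (a (l 16769320) (l 16769848)) (a (l 16770800) (l 16771272)))) (a (b (b (c (l 16771456) (l 16771384)) (c (l 16772368) (l 16772280))) (b (c (l 16773320) (l 16773224)) (c (l 16774288) (l 16774184)))) (b (b (a (l 16772016) (l 16772440)) (a (l 16772872) (l 16773256))) (a (b (l 16773760) (l 16774656)) (c (l 16774544) (l 16774480)))))) (b (a (b (a (l 16770408) (l 16771008)) (a (l 16771776) (l 16771000))) (b (a (l 16771640) (l 16772312)) (a (l 16771552) (b (l 16773152) (l 16773736))))) (a (b (a (b (l 16772888) (l 16773656)) (b (l 16773352) (l 16774064))) (a (c (l 16774848) (l 16774800)) (l 16773824))) (b (a (l 16774152) (l 16774608)) (a (l 16774136) (l 16774464)))))), by decide +kernel⟩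

def k25_pm_123_t : ∃ t, chk3 f_pm_123_t t 254 254 1 = true :=
  ⟨(a (a (b (b (c (l 16775264) (l 16773848)) (c (l 16776264) (l 16776152))) (c (b (l 16777248) (l 16778232)) (b (l 16776472) (a (l 16778088) (l 16778136))))) (b (c (b (l 16775688) (l 16776560)) (b (l 16775616) (l 16776480))) (c (b (l 16777424) (l 16778288)) (b (l 16777336) (a (l 16778184) (l 16778224)))))) (a (b (a (c (l 16776400) (l 16776336)) (b (l 16776200) (l 16776904))) (a (c (l 16777944) (l 16776568)) (c (l 16778000) (l 16776632)))) (b (a (b (l 16776416) (l 16777064)) (b (l 16776640) (l 16777224))) (a (b (l 16777704) (l 16778352)) (b (l 16777800) (l 16778376)))))), by decide +kernel⟩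

def k26_pm_123_t : ∃ t, chk3 f_pm_123_t t 254 510 1 = true :=
  ⟨(a (b (a (c (l 16779216) (a (l 16779096) (l 16779088))) (c (l 16779160) (a (l 16779072) (l 16779048)))) (b (a (a (b (l 16779472) (b (l 16779984) (c (l 16780064) (c (l 16779960) (l 16779888))))) (c (l 16779928) (a (l 16779816) (l 16779784)))) (c (l 16779808) (l 16779704))) (a (c (a (l 16779352) (l 16778240)) (a (l 16779232) (b (l 16779728) (l 16779152)))) (b (b (a (c (l 16780080) (l 16779968)) (l 16779976)) (a (l 16779192) (c (l 16780016) (l 16779920)))) (c (l 16779552) (l 16779456)))))) (a (b (c (l 16777768) (a (l 16779024) (l 16779000))) (b (c (l 16779632) (l 16779560)) (b (a (c (l 16779976) (l 16779888)) (l 16779824)) (a (c (l 16779800) (l 16779064)) (c (b (l 16779968) (l 16779840)) (b (l 16779896) (l 16779768))))))) (a (b (l 16778664) (b (l 16779472) (b (l 16779712) (b (l 16779832) (c (l 16779896) (l 16779504)))))) (b (l 16778296) (c (l 16779552) (l 16779504)))))), by decide +kernel⟩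

def k27_pm_123_t : ∃ t, chk3 f_pm_123_t t 254 511 1 = true :=
  ⟨(b (a (a (c (a (l 16776192) (l 16776424)) (a (c (l 16774824) (l 16776096)) (c (l 16775064) (l 16776344)))) (c (a (l 16776656) (l 16776864)) (a (c (l 16775296) (l 16776576)) (c (l 16775512) (l 16776800))))) (a (c (a (l 16777072) (l 16777264)) (a (c (l 16775728) (l 16777008)) (c (l 16775920) (l 16777208)))) (a (c (a (l 16776096) (l 16777488)) (b (l 16777952) (l 16778176))) (b (b (b (c (l 16779800) (a (l 16779760) (l 16779768))) (l 16779592)) (l 16779184)) (c (l 16778392) (l 16777056)))))) (b (a (a (c (a (l 16774336) (l 16774608)) (a (c (l 16775624) (l 16774304)) (c (l 16775896) (l 16775888)))) (a (c (l 16776168) (c (l 16776160) (l 16776152))) (c (l 16776416) (c (l 16776408) (l 16776400))))) (a (c (a (l 16776656) (l 16776880)) (a (l 16775984) (l 16776216))) (c (a (l 16777096) (l 16775992)) (a (l 16776432) (l 16776640))))) (a (a (c (a (c (l 16774416) (l 16773104)) (c (l 16774696) (l 16773392))) (a (c (c (l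 16773104) (l 16773104)) (a (l 16773688) (l 16773176))) (c (l 16774048) (c (l 16773400) (l 16774056))))) (c (a (c (l 16774976) (l 16773664)) (c (l 16775240) (l 16775248))) (a (c (l 16774328) (c (l 16773680) (l 16773680))) (c (l 16773944) (c (l 16773944) (l 16773952)))))) (a (c (a (c (l 16775496) (l 16775504)) (c (l 16775744) (l 16775752))) (a (c (l 16774200) (l 16774864)) (c (l 16774448) (l 16775112)))) (c (a (c (l 16775984) (l 16774680)) (c (l 16774896) (l 16775560))) (a (a (l 16775288) (l 16775408)) (a (l 16775520) (l 16775632)))))))), by decide +kernel⟩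

def k28_pm_123_t : ∃ t, chk3 f_pm_123_t t 1020 31 1 = true :=
  ⟨(b (b (b (a (l 16768224) (l 16769400)) (b (l 16766920) (a (l 16769552) (l 16770600)))) (b (b (a (l 16770104) (l 16771088)) (a (l 16770680) (l 16771600))) (b (a (l 16771312) (l 16772160)) (a (l 16772088) (l 16772848))))) (b (b (b (a (l 16771704) (l 16773672)) (a (b (l 16773768) (l 16774280)) (l 16774560))) (b (a (l 16773744) (l 16775440)) (a (b (l 16775824) (l 16776336)) (b (l 16776104) (l 16776544))))) (b (b (a (b (l 16776848) (l 16777360)) (b (l 16776984) (l 16777416))) (a (b (l 16777872) (l 16777888)) (b (l 16777856) (l 16778296)))) (b (a (b (c (l 16778904) (l 16778872)) (c (l 16779416) (l 16778720))) (b (c (l 16778744) (l 16778720)) (c (l 16779176) (l 16777840)))) (b (b (a (b (a (b (l 16779744) (a (l 16779680) (l 16779696))) (c (l 16779656) (l 16779288))) (c (l 16779336) (l 16779304))) (b (c (l 16779456) (l 16779424)) (b (a (l 16779216) (a (l 16779112) (l 16779392))) (l 16779232)))) (a (c (l 16777232)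 (c (l 16777216) (l 16777208))) (c (l 16777296) (l 16777936)))) (b (a (c (a (l 16777448) (l 16777520)) (a (l 16777448) (l 16776208))) (c (c (l 16776280) (l 16776936)) (a (l 16776256) (l 16776312)))) (a (c (a (l 16775720) (l 16775808)) (a (c (l 16776392) (l 16775088)) (c (l 16775168) (l 16775176)))) (c (a (l 16775888) (c (l 16775304) (l 16775968))) (a (c (l 16775240) (l 16775904)) (c (l 16775976) (l 16775984))))))))))), by decide +kernel⟩

def k29_pm_123_t : ∃ t, chk3 f_pm_123_t t 1021 62 1 = true :=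
  ⟨(b (a (b (b (a (l 16770136) (a (b (b (l 16765368) (l 16770568)) (l 16770760)) (b (l 16766120) (b (l 16768440) (l 16771160))))) (l 16770904)) (b (l 16771328) (l 16771752))) (b (b (a (a (a (b (l 16771912) (b (l 16771592) (l 16771432))) (l 16772184)) (l 16772728)) (l 16773896)) (b (a (a (l 16771624) (b (l 16772264) (a (l 16771976) (l 16772248)))) (l 16773344)) (a (l 16772048) (a (a (b (l 16772480) (l 16772552)) (b (l 16772872) (l 16772728))) (l 16773432))))) (b (b (a (l 16772232) (a (l 16772776) (a (l 16773008) (b (l 16773336) (l 16773256))))) (l 16772776)) (l 16773032)))) (b (b (a (l 16772168) (l 16773376)) (a (l 16772608) (l 16773728))) (b (a (l 16773088) (l 16774120)) (a (l 16773696) (l 16771984))))), by decide +kernel⟩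

def k30_pm_123_t : ∃ t, chk3 f_pm_123_t t 1021 63 1 = true :=
  ⟨(b (b (b (a (l 16773080) (l 16775176)) (a (l 16773816) (l 16774768))) (b (a (l 16774544) (b (l 16776184) (l 16776472))) (a (b (l 16776408) (l 16776768)) (b (l 16776752) (l 16777040))))) (b (b (a (b (l 16777136) (l 16777496)) (b (l 16777328) (l 16777608))) (a (b (l 16777864) (l 16777896)) (b (l 16777240) (c (l 16778176) (l 16778176))))) (b (a (b (c (l 16778584) (l 16778576)) (c (l 16777640) (l 16778272))) (a (b (l 16778488) (l 16778136)) (b (l 16778432) (l 16778360)))) (b (b (a (b (l 16778504) (c (b (l 16779248) (a (l 16779240) (l 16779192))) (b (l 16778576) (a (l 16779216) (l 16778840))))) (a (l 16779008) (l 16778880))) (a (c (a (l 16778656) (l 16777368)) (a (l 16777328) (l 16777352))) (b (b (a (c (l 16778368) (c (l 16778360) (l 16778352))) (c (l 16778304) (l 16778784))) (a (l 16778816) (c (l 16778840) (l 16778832)))) (c (l 16777840) (l 16778160))))) (a (a (c (b (l 16776360) (c (l 16776032) (l 16776040)))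 (b (l 16777016) (a (l 16776032) (l 16776072)))) (c (b (l 16776416) (c (l 16776112) (l 16776120))) (b (l 16777072) (a (l 16776112) (l 16776232))))) (b (c (a (l 16777120) (l 16777176)) (a (l 16777128) (c (l 16777176) (l 16777176)))) (b (c (a (l 16777080) (l 16777152)) (a (l 16777096) (l 16776832))) (c (a (l 16776288) (c (l 16776696) (l 16776704))) (a (c (l 16776632) (l 16776640)) (c (l 16776384) (l 16776392))))))))))), by decide +kernel⟩

def k31_pm_123_t : ∃ t, chk3 f_pm_123_t t 2044 62 1 = true :=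
  ⟨(b (b (a (b (l 16764768) (l 16764160)) (a (l 16770608) (a (l 16765744) (l 16765968)))) (b (a (a (a (b (b (l 16773688) (l 16770952)) (l 16773576)) (b (l 16773992) (b (b (l 16773832) (l 16773760)) (l 16773824)))) (a (b (l 16774368) (b (l 16774160) (b (l 16774072) (l 16774016)))) (l 16774632))) (c (l 16772784) (l 16772864))) (a (a (l 16773912) (a (l 16774192) (b (b (b (l 16774312) (l 16774272)) (l 16774344)) (l 16774440)))) (a (a (b (b (l 16774656) (b (l 16771928) (l 16774528))) (l 16774632)) (b (l 16774976) (b (b (l 16773480) (l 16774784)) (l 16774848)))) (b (l 16775432) (a (b (l 16775144) (b (c (l 16772360) (l 16772464)) (l 16775040))) (b (l 16775432) (l 16775384)))))))) (b (b (a (l 16774376) (a (l 16774912) (a (l 16775184) (b (b (b (c (l 16773912) (l 16774016)) (l 16775296)) (l 16775344)) (l 16775424))))) (l 16772368)) (b (l 16773960) (l 16774320)))), by decide +kernel⟩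

def k32_pm_123_t : ∃ t, chk3 f_pm_123_t t 2044 63 1 = true :=
  ⟨(b (b (b (l 16774728) (a (l 16776272) (l 16776640))) (b (a (l 16776720) (l 16777000)) (a (l 16777168) (l 16777368)))) (a (b (b (l 16776304) (a (l 16777400) (l 16777408))) (b (b (l 16778384) (l 16778352)) (b (b (l 16778760) (b (b (l 16778832) (a (b (l 16778872) (l 16778808)) (a (l 16778656) (l 16778144)))) (l 16777888))) (c (b (c (l 16777232) (l 16777232)) (b (l 16776568) (a (l 16776760) (l 16776808)))) (b (c (l 16777232) (l 16777232)) (b (l 16776904) (a (l 16776448) (l 16776496)))))))) (b (b (l 16777072) (b (l 16777992) (l 16778168))) (b (b (l 16778344) (c (l 16778520) (l 16777208))) (b (b (l 16777992) (b (c (l 16778064) (l 16778384)) (b (a (l 16778504) (b (l 16778368) (l 16777984))) (l 16777816)))) (c (b (a (l 16776616) (l 16777296)) (b (l 16776968) (a (l 16776520) (l 16776560)))) (b (a (l 16777272) (l 16777304)) (b (c (l 16776648) (l 16776984)) (a (l 16776536) (a (l 16776896) (l 16776912))))))))))), by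 decide +kernel⟩

def k33_pm_123_t : ∃ t, chk3 f_pm_123_t t 2045 62 1 = true :=
  ⟨(b (b (a (b (a (l 16776888) (a (l 16777080) (a (l 16775872) (b (b (l 783529538679) (l 16777224)) (l 16777152))))) (a (l 16776600) (l 16776936))) (a (b (a (a (b (l 786213892023) (l 16777192)) (b (l 4) (b (l 16775664) (l 16777192)))) (a (b (l 4) (b (l 4) (l 16774440))) (l 1819690397783))) (a (l 16777112) (b (c (l 16774624) (l 16775944)) (l 16777160)))) (b (l 4) (b (a (a (b (l 844732822551) (l 16777192)) (b (l 4) (l 764739056887))) (l 4)) (a (l 16777224) (a (b (l 687429645735) (l 16777232)) (a (b (l 4) (l 16774472)) (l 1624806259143)))))))) (a (a (b (l 16776288) (l 16775952)) (b (l 16766240) (l 16776488))) (a (b (l 16774416) (l 16771664)) (a (b (l 16777184) (l 16777128)) (b (l 16777232) (l 16777232)))))) (a (b (b (b (a (a (b (l 16773000) (a (l 16775480) (b (l 16775608) (l 16775592)))) (b (l 16775896) (l 16774552))) (l 16776296)) (a (a (l 16775616) (a (l 16775744) (b (b (l 16775848) (l 16775832))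 (l 16775880)))) (b (a (l 16774792) (l 16776344)) (a (a (l 16775960) (b (l 16776096) (l 16776064))) (l 16773712))))) (a (l 16775856) (a (l 16776136) (a (l 16776240) (b (b (b (l 16776344) (l 16776296)) (l 16776352)) (l 16776408)))))) (b (l 16776240) (l 16776480))) (b (b (a (l 16771512) (a (l 16777056) (l 16777208))) (b (a (a (b (l 16771328) (a (l 16776416) (b (l 16776584) (l 16776536)))) (l 16771576)) (l 16777096)) (a (b (a (l 16776536) (a (l 16775328) (b (l 16776816) (l 16771528)))) (l 16776664)) (a (b (l 16776992) (a (b (l 16771648) (l 16776912)) (b (l 16777024) (l 16771776)))) (l 16777176))))) (b (b (a (l 16776712) (a (l 16776968) (a (b (b (l 16771896) (l 16777104)) (l 16777152)) (b (l 16774624) (l 16774552))))) (l 16776968)) (l 16771856))))), by decide +kernel⟩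

def k34_pm_123_t : ∃ t, chk3 f_pm_123_t t 2045 63 1 = true :=
  ⟨(a (b (b (b (l 16776760) (l 16777032)) (b (l 16777312) (l 16774960))) (b (b (l 16777528) (b (l 16778048) (l 16778184))) (b (b (l 16778312) (c (l 16778440) (l 16778440))) (b (b (l 16778208) (b (l 16777920) (a (b (c (l 16777976) (l 16778464)) (l 16777848)) (b (l 16777232) (a (l 16778184) (b (l 16778168) (l 16778480))))))) (b (c (a (l 16777328) (l 16777352)) (a (l 16777328) (l 16777520))) (b (a (c (l 16777352) (l 16776704)) (c (l 16777392) (l 16777072))) (a (c (l 16776600) (c (l 16776616) (l 16776616))) (c (c (l 16776640) (l 16776648)) (c (l 16776656) (l 16776664)))))))))) (b (b (b (l 16772040) (l 16774840)) (b (l 16776984) (c (l 16777800) (l 16776520)))) (a (b (b (l 16775336) (l 16778072)) (b (b (l 16778296) (l 16777728)) (b (b (l 16777080) (b (l 16777056) (b (l 16777040) (b (l 16777688) (c (l 16777720) (l 16778048)))))) (c (b (l 16777384) (b (l 16776768) (a (l 16776680) (l 16776696)))) (b (c (l 16777384)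 (l 16777384)) (b (l 16777104) (a (l 16776688) (l 16776712)))))))) (b (b (l 16778032) (b (l 16778136) (l 16778208))) (b (b (l 16777624) (c (l 16777584) (l 16777904))) (b (a (b (l 16778240) (c (l 16777880) (b (l 16778224) (l 16777552)))) (c (l 16777808) (l 16777976))) (b (b (a (l 16777928) (b (a (l 16778040) (b (l 16777944) (l 16776880))) (l 16777512))) (a (l 16777528) (a (l 16777216) (l 16777544)))) (a (b (c (l 16777456) (l 16776800)) (c (l 16776720) (l 16776728))) (a (b (l 16777144) (c (l 16776736) (l 16776744))) (b (c (l 16776816) (l 16776816)) (c (l 16776744) (a (l 16776752) (l 16776752))))))))))))), by decide +kernel⟩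

def k35_pm_123_t : ∃ t, chk3 f_pm_123_t t 4092 62 1 = true :=
  ⟨(b (b (b (l 4) (l 4)) (a (b (b (a (a (b (b (l 759907219591) (l 16777160)) (l 16777224)) (b (l 2015111412103) (b (l 682060937479) (l 16777192)))) (a (l 1991489091223) (l 4))) (a (l 16777232) (a (a (l 16777240) (b (l 16776376) (l 16777224))) (b (l 1791236242071) (b (l 611193977255) (l 16777232)))))) (a (l 16777240) (l 16777232))) (b (a (a (b (l 4) (b (l 4) (l 1042838188871))) (l 4)) (l 4)) (a (b (a (a (l 16777232) (b (l 16775776) (l 16777224))) (b (l 1032637641607) (c (l 16775832) (l 16776488)))) (l 16777232)) (a (b (b (l 4) (l 1033174512551)) (b (c (l 16775840) (l 16776488)) (l 16777224))) (b (l 4) (a (b (l 969823745703) (l 16777224)) (b (l 4) (l 16775792))))))))) (b (a (a (b (l 16777240) (l 16777224)) (b (l 16777240) (l 16777232))) (a (b (l 16777240) (l 16777240)) (b (l 16777232) (l 16777240)))) (a (b (b (a (a (b (l 16777208) (b (l 16777240) (l 16774568))) (l 16777248)) (l 16777224)) (a (a (l 16777248)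 (b (b (l 16775896) (l 16777232)) (l 16777256))) (a (b (b (l 16777224) (l 16775920)) (l 16777216)) (b (l 16777224) (b (l 16774632) (l 16771976)))))) (l 16777328)) (b (a (b (l 16777232) (b (l 16777232) (l 16775984))) (l 16777240)) (b (b (a (a (b (c (l 16775888) (l 16775952)) (l 16777264)) (a (b (l 16777264) (l 16771992)) (l 16777288))) (l 16777256)) (a (l 16777248) (a (b (l 16775968) (l 16777240)) (l 16777304)))) (a (l 16777320) (a (l 16777296) (a (l 16777272) (b (b (l 16777272) (l 16777280)) (l 16777296)))))))))), by decide +kernel⟩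

def k36_pm_123_t : ∃ t, chk3 f_pm_123_t t 4093 62 1 = true :=
  ⟨(a (b (a (a (b (l 4) (b (l 4) (b (l 4) (b (l 4) (c (l 1059481187207) (l 1073439830919)))))) (l 4)) (l 4)) (b (b (b (b (a (a (a (l 16777224) (a (l 16777168) (l 16775752))) (a (l 1034248255399) (l 4))) (l 4)) (b (a (a (l 16777224) (a (l 16777216) (l 16774376))) (l 4)) (a (l 16777232) (a (l 1101357118631) (l 4))))) (a (l 16777224) (a (a (l 16777232) (b (b (l 16775640) (l 16777192)) (l 16777224))) (a (b (l 1177055917127) (l 16777208)) (b (l 4) (b (l 16775576) (l 16777160))))))) (a (l 16777240) (l 16776904))) (a (b (l 16777248) (b (l 16777264) (b (a (a (b (l 16777280) (l 16777264)) (l 16777304)) (l 16777272)) (a (l 16772016) (b (l 16776000) (a (l 16777288) (l 16777280))))))) (b (l 16777248) (a (l 16776656) (l 16777272)))))) (b (l 4) (b (b (a (a (b (l 4) (b (l 4) (l 2297505511751))) (l 4)) (l 4)) (b (a (b (a (a (l 16774560) (b (l 16776128) (l 16774488))) (l 2578288998487)) (a (l 16777224) (a (l 16776640) (b (l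 4) (l 16775728))))) (l 4)) (b (a (l 16775920) (a (a (b (l 16776328) (l 16777208)) (l 1251144102983)) (l 4))) (a (l 16777232) (a (l 16775912) (a (b (l 1292483164167) (l 16774520)) (l 2672241408663))))))) (b (a (b (l 16777240) (l 16777248)) (a (l 16777240) (a (l 16777232) (b (b (b (l 16775776) (l 16777224)) (l 16777224)) (l 16777232))))) (a (l 16777272) (c (l 16777248) (l 16776616))))))), by decide +kernel⟩

def k37_pm_123_t : ∃ t, chk3 f_pm_123_t t 2047 62 1 = true :=
  ⟨(b (l 4) (a (b (l 4) (a (a (a (a (b (b (b (b (l 4) (l 955328232119)) (l 16777232)) (l 16777232)) (l 16777256)) (l 14)) (l 14)) (l 14)) (l 14))) (l 4))), by decide +kernel⟩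

def k38_pm_123_t : ∃ t, chk3 f_pm_123_t t 4092 63 1 = true :=
  ⟨(b (b (b (l 16777408) (l 16777520)) (b (l 16776976) (b (l 16775096) (l 16775152)))) (b (b (b (l 16775208) (l 16776568)) (b (l 16777600) (c (l 16777320) (l 16777336)))) (b (a (b (l 16776824) (l 16777976)) (b (l 16777288) (c (l 16776672) (l 16777328)))) (b (a (b (l 16777456) (l 16777928)) (b (l 16777360) (l 16777864))) (a (b (b (b (b (c (l 16777752) (l 16778000)) (a (l 16777496) (a (l 16777776) (l 16777752)))) (l 16777760)) (a (l 16777592) (l 16777544))) (c (b (a (l 16777120) (l 16777096)) (a (a (l 16776744) (l 16776736)) (a (l 16776736) (l 16776736)))) (b (a (l 16777128) (l 16777104)) (b (a (l 16777168) (l 16777160)) (a (l 16776816) (l 16776856)))))) (b (a (b (b (b (l 16778056) (l 16777976)) (l 16777672)) (c (l 16777088) (l 16777096))) (b (b (l 16777992) (b (a (l 16777664) (l 16777792)) (l 16777904))) (c (l 16777048) (l 16777048)))) (c (b (a (l 16777080) (l 16777056)) (b (a (l 16777144) (l 16777144)) (a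 (l 16776816) (a (l 16776984) (l 16776984))))) (b (a (l 16777248) (a (l 16777064) (l 16777056))) (b (a (l 16777152) (l 16777152)) (c (a (l 16776984) (l 16776984)) (a (l 16776984) (l 16776832)))))))))))), by decide +kernel⟩

def k39_pm_123_t : ∃ t, chk3 f_pm_123_t t 4093 126 1 = true :=
  ⟨(b (b (a (b (a (l 16777320) (b (a (a (l 16775952) (b (l 16777304) (l 16777280))) (b (l 16777288) (c (l 16775984) (l 16776688)))) (a (l 16777312) (a (l 16777304) (b (l 16774664) (l 16777304)))))) (l 16777344)) (b (a (a (a (b (l 16777288) (b (l 16777312) (l 16777280))) (l 16774712)) (l 16777288)) (l 16777280)) (b (a (a (l 16777280) (a (b (l 16777312) (l 16777296)) (b (l 16777296) (l 16775992)))) (l 16776016)) (a (l 16777320) (a (a (b (l 16775984) (l 16777312)) (b (l 16777320) (l 16777288))) (l 16776688)))))) (b (b (a (l 16777376) (a (l 16777336) (a (l 16777320) (a (l 16777280) (b (l 16777320) (l 16777296)))))) (l 16777352)) (l 16777384))) (a (b (l 16772248) (l 16774952)) (b (l 16777408)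 (l 16776160)))), by decide +kernel⟩

def k40_pm_123_t : ∃ t, chk3 f_pm_123_t t 4093 127 1 = true :=
  ⟨(b (a (b (l 16776992) (b (l 16777704) (l 16776424))) (b (b (l 16777512) (l 16777536)) (b (l 16777568) (l 16776280)))) (a (b (b (l 16777112) (c (l 16777144) (l 16777144))) (b (b (l 16777488) (a (l 16777224) (l 16777136))) (b (a (b (b (l 16777888) (b (c (l 16777240) (l 16777568)) (l 16777520))) (c (l 16777008) (l 16777336))) (b (b (l 16777792) (b (l 16777800) (a (l 16777640) (l 16777688)))) (c (l 16777296) (l 16777296)))) (b (a (c (l 16777200) (c (l 16777040) (l 16777208))) (b (l 16777336) (a (l 16777120) (l 16777112)))) (a (b (c (l 16777136) (l 16776984)) (a (c (l 16776984) (l 16776992)) (c (l 16776992) (l 16777000)))) (b (c (l 16777136) (l 16777064)) (a (c (l 16777000) (l 16776840)) (c (l 16777000) (l 16776928))))))))) (b (b (l 16777288) (c (l 16777304) (l 16777472))) (b (b (l 16777480) (a (l 16777696) (l 16777616))) (a (b (b (a (c (l 16777728) (l 16777568)) (l 16777688))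 (b (a (l 16777336) (c (l 16777312) (l 16777552))) (l 16777360))) (b (a (c (l 16777008) (l 16777008)) (c (l 16777000) (l 16777168))) (b (c (l 16777056) (c (l 16777144) (l 16776984))) (a (c (l 16777008) (l 16776928)) (c (l 16776928) (c (l 16777016) (l 16777024))))))) (b (b (l 16777624) (b (b (a (c (l 16777312) (l 16777472)) (l 16777440)) (l 16777248)) (l 16777328))) (c (b (a (l 16776992) (l 16777152)) (a (b (l 16777136) (l 16776936)) (b (l 16777144) (c (l 16777024) (l 16777032))))) (b (a (l 16777160) (l 16777152)) (a (b (l 16777144) (c (l 16777024) (l 16777024))) (b (l 16777144) (c (l 16776952) (l 16776952)))))))))))), by decide +kernel⟩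

def k41_pm_123_t : ∃ t, chk3 f_pm_123_t t 2047 63 1 = true :=
  ⟨(a (a (a (a (a (b (b (b (l 16777288) (b (b (b (l 16777304) (l 16776656)) (l 16777304)) (l 16777336))) (b (l 16777376) (l 16777424))) (b (b (l 16777472) (l 16776856)) (b (b (l 16777536) (l 16777552)) (b (l 16777528) (b (b (l 16777576) (b (b (l 16777576) (l 16777552)) (l 16777472))) (a (b (l 16777184) (a (c (l 16776920) (l 16776968)) (l 14))) (l 14))))))) (b (l 14) (l 14))) (b (l 14) (l 14))) (l 14)) (l 14)) (l 14)), by decide +kernel⟩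

theorem s42_pm_123_t : ∃ t, chk3 f_pm_123_t t 4093 63 1 = true := ex3_b k39_pm_123_t k40_pm_123_t

theorem s43_pm_123_t : ∃ t, chk3 f_pm_123_t t 2046 63 1 = true := ex3_a k38_pm_123_t s42_pm_123_t

theorem s44_pm_123_t : ∃ t, chk3 f_pm_123_t t 1023 63 1 = true := ex3_a s43_pm_123_t k41_pm_123_t

theorem s45_pm_123_t : ∃ t, chk3 f_pm_123_t t 2046 62 1 = true := ex3_a k35_pm_123_t k36_pm_123_t

theorem s46_pm_123_t : ∃ t, chk3 f_pm_123_t t 1023 62 1 = true := ex3_a s45_pm_123_t k37_pm_123_t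

theorem s47_pm_123_t : ∃ t, chk3 f_pm_123_t t 1023 31 1 = true := ex3_b s46_pm_123_t s44_pm_123_t

theorem s48_pm_123_t : ∃ t, chk3 f_pm_123_t t 2045 31 1 = true := ex3_b k33_pm_123_t k34_pm_123_t

theorem s49_pm_123_t : ∃ t, chk3 f_pm_123_t t 2044 31 1 = true := ex3_b k31_pm_123_t k32_pm_123_t

theorem s50_pm_123_t : ∃ t, chk3 f_pm_123_t t 1022 31 1 = true := ex3_a s49_pm_123_t s48_pm_123_t

theorem s51_pm_123_t : ∃ t, chk3 f_pm_123_t t 511 31 1 = true := ex3_a s50_pm_123_t s47_pm_123_t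

theorem s52_pm_123_t : ∃ t, chk3 f_pm_123_t t 1021 31 1 = true := ex3_b k29_pm_123_t k30_pm_123_t

theorem s53_pm_123_t : ∃ t, chk3 f_pm_123_t t 510 31 1 = true := ex3_a k28_pm_123_t s52_pm_123_t

theorem s54_pm_123_t : ∃ t, chk3 f_pm_123_t t 255 31 1 = true := ex3_a s53_pm_123_t s51_pm_123_t

theorem s55_pm_123_t : ∃ t, chk3 f_pm_123_t t 254 255 1 = true := ex3_b k26_pm_123_t k27_pm_123_t

theorem s56_pm_123_t : ∃ t, chk3 f_pm_123_t t 254 127 1 = true := ex3_b k25_pm_123_t s55_pm_123_t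

theorem s57_pm_123_t : ∃ t, chk3 f_pm_123_t t 254 63 1 = true := ex3_b k24_pm_123_t s56_pm_123_t

theorem s58_pm_123_t : ∃ t, chk3 f_pm_123_t t 254 31 1 = true := ex3_b k23_pm_123_t s57_pm_123_t

theorem s59_pm_123_t : ∃ t, chk3 f_pm_123_t t 127 31 1 = true := ex3_a s58_pm_123_t s54_pm_123_t

theorem s60_pm_123_t : ∃ t, chk3 f_pm_123_t t 1015 127 1 = true := ex3_a k21_pm_123_t k22_pm_123_t

theorem s61_pm_123_t : ∃ t, chk3 f_pm_123_t t 1015 63 1 = true := ex3_b k20_pm_123_t s60_pm_123_t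

theorem s62_pm_123_t : ∃ t, chk3 f_pm_123_t t 1015 31 1 = true := ex3_b k19_pm_123_t s61_pm_123_t

theorem s63_pm_123_t : ∃ t, chk3 f_pm_123_t t 507 31 1 = true := ex3_a k18_pm_123_t s62_pm_123_t

theorem s64_pm_123_t : ∃ t, chk3 f_pm_123_t t 253 31 1 = true := ex3_a k17_pm_123_t s63_pm_123_t

theorem s65_pm_123_t : ∃ t, chk3 f_pm_123_t t 126 31 1 = true := ex3_a k16_pm_123_t s64_pm_123_t

theorem s66_pm_123_t : ∃ t, chk3 f_pm_123_t t 63 31 1 = true := ex3_a s65_pm_123_t s59_pm_123_t

theorem s67_pm_123_t : ∃ t, chk3 f_pm_123_t t 31 31 1 = true := ex3_a k15_pm_123_t s66_pm_123_t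

theorem s68_pm_123_t : ∃ t, chk3 f_pm_123_t t 510 30 1 = true := ex3_b k12_pm_123_t k13_pm_123_t

theorem s69_pm_123_t : ∃ t, chk3 f_pm_123_t t 255 30 1 = true := ex3_a s68_pm_123_t k14_pm_123_t

theorem s70_pm_123_t : ∃ t, chk3 f_pm_123_t t 127 30 1 = true := ex3_a k11_pm_123_t s69_pm_123_t

theorem s71_pm_123_t : ∃ t, chk3 f_pm_123_t t 63 30 1 = true := ex3_a k10_pm_123_t s70_pm_123_t

theorem s72_pm_123_t : ∃ t, chk3 f_pm_123_t t 31 30 1 = true := ex3_a k9_pm_123_t s71_pm_123_t

theorem s73_pm_123_t : ∃ t, chk3 f_pm_123_t t 31 15 1 = true := ex3_b s72_pm_123_t s67_pm_123_t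

theorem s74_pm_123_t : ∃ t, chk3 f_pm_123_t t 15 15 1 = true := ex3_a k8_pm_123_t s73_pm_123_t

theorem s75_pm_123_t : ∃ t, chk3 f_pm_123_t t 31 14 1 = true := ex3_b k6_pm_123_t k7_pm_123_t

theorem s76_pm_123_t : ∃ t, chk3 f_pm_123_t t 15 14 1 = true := ex3_a k5_pm_123_t s75_pm_123_t

theorem s77_pm_123_t : ∃ t, chk3 f_pm_123_t t 15 7 1 = true := ex3_b s76_pm_123_t s74_pm_123_t

theorem s78_pm_123_t : ∃ t, chk3 f_pm_123_t t 7 7 1 = true := ex3_a k4_pm_123_t s77_pm_123_t

theorem s79_pm_123_t : ∃ t, chk3 f_pm_123_t t 7 3 1 = true := ex3_b k3_pm_123_t s78_pm_123_t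

theorem s80_pm_123_t : ∃ t, chk3 f_pm_123_t t 3 3 1 = true := ex3_a k2_pm_123_t s79_pm_123_t

theorem s81_pm_123_t : ∃ t, chk3 f_pm_123_t t 3 1 1 = true := ex3_b k1_pm_123_t s80_pm_123_t

theorem s82_pm_123_t : ∃ t, chk3 f_pm_123_t t 1 1 1 = true := ex3_a k0_pm_123_t s81_pm_123_t

theorem c_pm_123_t : CertNE 536870912 536870912 0 536870912 1040187392 5207648 3 eng mog cd0q1 cd0q2 pd3 true true false .npn 1 2 3
    ndB0q1 ndB0q2 pcB3 cut_pm_123_t Ext.none :=
  certNE2 (fam := true) (s1 := true) (s2 := false) (a := 1) (b := 2) (c := 3) (cn := .npn) (n1 := ndB0q1) (n2 := ndB0q2) (pc := pcB3) (cut := cut_pm_123_t) (xt := Ext.none) (P1 := 536870912) (W1 := 536870912) (P2 := 0) (W2 := 536870912) (P3 := 1040187392) (W3 := 5207648) (N0 := 3) (En := eng) (mo := mog) (C1 := cd0q1) (C2 := cd0q2) (C3 := pd3)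
    rfl (fun _ => rfl) s82_pm_123_t

noncomputable def cut_pm_202_s : Cut := Cut.of [[⟨4, 0, 0, 1449551462⟩], [⟨0, 1, 0, 22369621⟩, ⟨1, 0, 0, 22369621⟩, ⟨2, 1, 0, 22369621⟩]]

noncomputable def f_pm_202_s : ℕ → ℕ → ℕ → ℕ → Bool := onCell 0 536870912 1073741824 536870912 1040187392 5207648
    (rowNE 3 eng mog cd0q2 cd0q0 pd2 1 true true false .pp 2 0 2 (qsf 0 536870912 0 536870912 2) ndB0q2 ndB0q0 pcB2 cut_pm_202_s Ext.none)

def k0_pm_202_s : ∃ t, chk3 f_pm_202_s t 2 4 1 = true :=
  ⟨(b (l 1) (l 6)), by decide +kernel⟩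

def k1_pm_202_s : ∃ t, chk3 f_pm_202_s t 6 8 1 = true :=
  ⟨(l 1), by decide +kernel⟩

def k2_pm_202_s : ∃ t, chk3 f_pm_202_s t 14 8 1 = true :=
  ⟨(b (l 1) (a (b (l 1) (a (l 1) (l 16483672))) (a (b (l 1) (l 16482592)) (b (b (l 16496408) (l 16521680)) (l 16542000))))), by decide +kernel⟩

def k3_pm_202_s : ∃ t, chk3 f_pm_202_s t 15 8 1 = true :=
  ⟨(b (b (a (l 1) (l 14)) (b (b (a (l 1) (l 14)) (a (a (l 1) (a (l 1) (a (b (l 1) (l 16564680)) (a (a (b (l 1) (l 16571096)) (l 16580808)) (b (l 16588792) (l 16593352)))))) (a (a (a (b (l 16609680) (l 16614312)) (l 16619608)) (a (l 16648912) (l 16678672))) (a (l 16702344) (a (l 16693032) (l 16668224)))))) (a (a (a (l 1) (b (l 1) (l 16531104))) (a (b (a (l 16540128) (l 16555320)) (l 16568360)) (a (b (a (l 16567648) (l 16576272)) (l 16582000)) (b (a (a (l 16583408) (l 16590064)) (l 16600392)) (a (a (l 16593248) (l 16599768)) (l 16610152)))))) (a (a (b (a (l 16600480) (l 16650232)) (a (l 16631344) (l 16660288))) (a (l 16653312)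 (l 16672840))) (a (b (l 16691232) (l 16672936)) (a (b (l 16695544) (l 16676800)) (b (l 16670320) (l 16651440)))))))) (a (a (b (a (b (l 16526360) (l 16550848)) (b (l 16547856) (l 16571824))) (a (l 16570280) (l 16569288))) (b (a (b (a (l 16566960) (l 16581768)) (l 16597576)) (b (a (l 16576992) (a (b (l 16606632) (l 16617344)) (l 16604624))) (a (l 16620840) (a (l 16613472) (l 16647744))))) (a (b (l 16622800) (l 16648720)) (b (a (l 16645328) (a (l 16658032) (l 16670840))) (a (l 16669528) (l 16665736)))))) (a (b (a (b (b (l 16614184) (l 16624968)) (a (l 16648264) (l 16677536))) (b (b (l 16673736) (l 16684800)) (b (l 16669416) (l 16651312)))) (a (b (l 16664376) (l 16641232)) (b (a (l 16658896) (l 16654720)) (l 16614352)))) (b (a (b (a (l 16658184) (l 16632576)) (b (l 16638936) (l 16621456))) (b (b (l 16603448) (l 16606264)) (b (l 16588768) (l 16593144)))) (a (b (l 16575760) (l 16567176)) (b (b (l 16577464) (l 16562920)) (b (l 16549680) (l 16537936)))))))), by decide +kernel⟩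

def k4_pm_202_s : ∃ t, chk3 f_pm_202_s t 3 9 1 = true :=
  ⟨(a (b (a (l 1) (b (a (l 1) (a (l 16456384) (l 16483936))) (a (l 16486424) (b (l 16529528) (l 16571240))))) (a (l 6) (a (b (l 16548320) (l 6)) (b (l 16534720) (l 16460968))))) (a (b (a (b (a (l 16515064) (l 16549968)) (b (l 16546120) (l 16605312))) (a (b (l 16546584) (l 16623952)) (b (l 16581784) (l 16615480)))) (a (b (l 16510728) (a (l 16489032) (l 16498288))) (b (a (l 16566488) (l 16552664)) (a (l 16507760) (l 16505520))))) (a (b (a (b (a (l 16626624) (l 16643936)) (a (l 16635456) (l 16614344))) (b (a (l 16642352) (b (l 16647704) (l 16617936))) (a (b (l 16645008) (l 16621992)) (b (l 16614168) (l 16616792))))) (b (a (a (l 16582824) (l 16590760)) (a (l 16574016) (b (l 16602664) (l 16589032)))) (a (l 16532560) (a (l 16566352) (l 16567424))))) (b (a (b (b (a (l 16631704) (l 16586608)) (a (l 16626816) (l 16565416))) (b (a (l 16607336) (l 16569880)) (a (l 16592560) (l 16557912)))) (b (b (a (l 16563840) (b (l 16527840)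 (l 16519752))) (a (l 16546312) (b (l 16512896) (l 16507136)))) (b (a (l 16533768) (l 16498632)) (a (l 16522232) (l 16487416))))) (a (b (b (a (l 16580888) (l 16546104)) (l 16530256)) (b (l 16537984) (l 16522944))) (b (b (l 16493016) (l 16480184)) (b (l 16464288) (l 16447808)))))))), by decide +kernel⟩

def k5_pm_202_s : ∃ t, chk3 f_pm_202_s t 1 5 1 = true :=
  ⟨(a (l 6) (a (b (b (a (l 6) (a (l 6) (b (l 16334528) (l 6)))) (l 6)) (l 6)) (a (b (b (a (b (l 16390344) (l 16385032)) (b (a (l 16464744) (l 16490424)) (a (l 16421936) (l 16447288)))) (a (b (l 6) (l 6)) (b (l 16387040) (l 16274408)))) (l 6)) (b (b (a (b (a (l 16518576) (b (l 16542496) (l 16522512))) (a (l 16475984) (l 16490856))) (b (a (b (l 16505024) (l 16486280)) (b (l 16429744) (l 16410328))) (b (a (l 16466040) (l 16392840)) (b (l 16374256) (b (l 16368384) (a (l 16440072) (l 16372488))))))) (a (a (l 16403536) (l 16423416)) (a (l 16397008) (l 16329072)))) (a (a (l 16204184) (l 16278120)) (b (a (l 16319840) (l 16249792))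 (l 16148312))))))), by decide +kernel⟩

def k6_pm_202_s : ∃ t, chk3 f_pm_202_s t 1 3 1 = true :=
  ⟨(a (l 6) (l 6)), by decide +kernel⟩

theorem s7_pm_202_s : ∃ t, chk3 f_pm_202_s t 7 8 1 = true := ex3_a k2_pm_202_s k3_pm_202_s

theorem s8_pm_202_s : ∃ t, chk3 f_pm_202_s t 3 8 1 = true := ex3_a k1_pm_202_s s7_pm_202_s

theorem s9_pm_202_s : ∃ t, chk3 f_pm_202_s t 3 4 1 = true := ex3_b s8_pm_202_s k4_pm_202_s

theorem s10_pm_202_s : ∃ t, chk3 f_pm_202_s t 1 4 1 = true := ex3_a k0_pm_202_s s9_pm_202_s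

theorem s11_pm_202_s : ∃ t, chk3 f_pm_202_s t 1 2 1 = true := ex3_b s10_pm_202_s k5_pm_202_s

theorem s12_pm_202_s : ∃ t, chk3 f_pm_202_s t 1 1 1 = true := ex3_b s11_pm_202_s k6_pm_202_s

theorem c_pm_202_s : CertNE 0 536870912 0 536870912 1040187392 5207648 3 eng mog cd0q2 cd0q0 pd2 true true false .pp 2 0 2
    ndB0q2 ndB0q0 pcB2 cut_pm_202_s Ext.none :=
  certNE1 (fam := true) (s1 := true) (s2 := false) (a := 2) (b := 0) (c := 2) (cn := .pp) (n1 := ndB0q2) (n2 := ndB0q0) (pc := pcB2) (cut := cut_pm_202_s) (xt := Ext.none) (P1 := 0) (W1 := 536870912) (P2 := 0) (W2 := 536870912) (P3 := 1040187392) (W3 := 5207648) (N0 := 3) (En := eng) (mo := mog) (C1 := cd0q2) (C2 := cd0q0) (C3 := pd2)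
    rfl (fun _ => rfl) s12_pm_202_s

noncomputable def cut_pm_202_t : Cut := Cut.of [[⟨3, 0, 0, 2845415833⟩], [⟨0, 1, 0, 22369621⟩, ⟨1, 0, 0, 22369621⟩, ⟨2, 1, 0, 22369621⟩]]

noncomputable def f_pm_202_t : ℕ → ℕ → ℕ → ℕ → Bool := onCell 0 536870912 1073741824 536870912 1040187392 5207648
    (rowNE 3 eng mog cd0q2 cd0q0 pd2 1 true true false .pp 2 0 2 (qsf 0 536870912 0 536870912 2) ndB0q2 ndB0q0 pcB2 cut_pm_202_t Ext.none)

def k0_pm_202_t : ∃ t, chk3 f_pm_202_t t 1 1 1 = true :=
  ⟨(b (l 6) (a (l 6) (l 6))), by decide +kernel⟩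

theorem c_pm_202_t : CertNE 0 536870912 0 536870912 1040187392 5207648 3 eng mog cd0q2 cd0q0 pd2 true true false .pp 2 0 2
    ndB0q2 ndB0q0 pcB2 cut_pm_202_t Ext.none :=
  certNE1 (fam := true) (s1 := true) (s2 := false) (a := 2) (b := 0) (c := 2) (cn := .pp) (n1 := ndB0q2) (n2 := ndB0q0) (pc := pcB2) (cut := cut_pm_202_t) (xt := Ext.none) (P1 := 0) (W1 := 536870912) (P2 := 0) (W2 := 536870912) (P3 := 1040187392) (W3 := 5207648) (N0 := 3) (En := eng) (mo := mog) (C1 := cd0q2) (C2 := cd0q0) (C3 := pd2)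
    rfl (fun _ => rfl) k0_pm_202_t

noncomputable def cut_pm_203_s : Cut := Cut.of [[⟨4, 0, 0, 1449551462⟩]]

noncomputable def f_pm_203_s : ℕ → ℕ → ℕ → ℕ → Bool := onCell 0 536870912 1610612736 536870912 1040187392 5207648
    (rowNE 3 eng mog cd0q2 cd0q0 pd3 1 true true false .up 2 0 3 (qsf 0 536870912 0 536870912 3) ndB0q2 ndB0q0 pcB3 cut_pm_203_s Ext.none)

def k0_pm_203_s : ∃ t, chk3 f_pm_203_s t 1 1 1 = true :=
  ⟨(l 6), by decide +kernel⟩

theorem c_pm_203_s : CertNE 0 536870912 0 536870912 1040187392 5207648 3 eng mog cd0q2 cd0q0 pd3 true true false .up 2 0 3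
    ndB0q2 ndB0q0 pcB3 cut_pm_203_s Ext.none :=
  certNE1 (fam := true) (s1 := true) (s2 := false) (a := 2) (b := 0) (c := 3) (cn := .up) (n1 := ndB0q2) (n2 := ndB0q0) (pc := pcB3) (cut := cut_pm_203_s) (xt := Ext.none) (P1 := 0) (W1 := 536870912) (P2 := 0) (W2 := 536870912) (P3 := 1040187392) (W3 := 5207648) (N0 := 3) (En := eng) (mo := mog) (C1 := cd0q2) (C2 := cd0q0) (C3 := pd3)
    rfl (fun _ => rfl) k0_pm_203_s

noncomputable def cut_pm_203_t : Cut := Cut.of [[⟨3, 0, 0, 2845415833⟩]]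

noncomputable def f_pm_203_t : ℕ → ℕ → ℕ → ℕ → Bool := onCell 0 536870912 0 536870912 1040187392 5207648
    (rowNE 3 eng mog cd0q2 cd0q0 pd3 0 true true false .up 2 0 3 (qsf 0 536870912 0 536870912 3) ndB0q2 ndB0q0 pcB3 cut_pm_203_t Ext.none)

def k0_pm_203_t : ∃ t, chk3 f_pm_203_t t 1 1 1 = true :=
  ⟨(a (b (l 1) (b (a (b (l 1) (a (b (l 1) (a (l 16338216) (l 6))) (l 6))) (l 6)) (a (b (a (b (l 16295992) (l 16458560)) (l 6)) (a (b (l 16519120) (l 16573704)) (b (a (l 16435232) (l 6)) (a (l 16496704) (l 16443016))))) (b (l 6) (l 6))))) (l 6)), by decide +kernel⟩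

theorem c_pm_203_t : CertNE 0 536870912 0 536870912 1040187392 5207648 3 eng mog cd0q2 cd0q0 pd3 true true false .up 2 0 3
    ndB0q2 ndB0q0 pcB3 cut_pm_203_t Ext.none :=
  certNE0 (fam := true) (s1 := true) (s2 := false) (a := 2) (b := 0) (c := 3) (cn := .up) (n1 := ndB0q2) (n2 := ndB0q0) (pc := pcB3) (cut := cut_pm_203_t) (xt := Ext.none) (P1 := 0) (W1 := 536870912) (P2 := 0) (W2 := 536870912) (P3 := 1040187392) (W3 := 5207648) (N0 := 3) (En := eng) (mo := mog) (C1 := cd0q2) (C2 := cd0q0) (C3 := pd3)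
    rfl k0_pm_203_t

noncomputable def cut_pm_213_s : Cut := Cut.of [[⟨4, 0, 0, 1449551462⟩], [⟨0, 1, 0, 15728640⟩, ⟨1, 1, 0, 15728640⟩, ⟨2, 2, 0, 524288⟩], [⟨0, 0, 1, 46137344⟩, ⟨1, 1, 0, 1048576⟩, ⟨2, 1, 1, 46137344⟩, ⟨0, 0, 0, 1054867456⟩, ⟨0, 1, 0, 38117834⟩, ⟨2, 1, 0, 1054867456⟩, ⟨2, 2, 0, 38117834⟩], [⟨0, 1, 0, 1048576⟩, ⟨1, 0, 1, 46137344⟩, ⟨2, 1, 1, 46137344⟩, ⟨1, 0, 0, 1054867456⟩, ⟨1, 1, 0, 38117834⟩, ⟨2, 1, 0, 1054867456⟩, ⟨2, 2, 0, 38117834⟩]]

noncomputable def f_pm_213_s : ℕ → ℕ → ℕ → ℕ → Bool := onCell 0 536870912 536870912 536870912 1040187392 5207648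
    (rowNE 3 eng mog cd0q2 cd0q1 pd3 0 true true false .pnn 2 1 3 (qsf 0 536870912 536870912 536870912 3) ndB0q2 ndB0q1 pcB3 cut_pm_213_s Ext.none)

def k0_pm_213_s : ∃ t, chk3 f_pm_213_s t 1 1 1 = true :=
  ⟨(l 6), by decide +kernel⟩

theorem c_pm_213_s : CertNE 0 536870912 536870912 536870912 1040187392 5207648 3 eng mog cd0q2 cd0q1 pd3 true true false .pnn 2 1 3
    ndB0q2 ndB0q1 pcB3 cut_pm_213_s Ext.none :=
  certNE0 (fam := true) (s1 := true) (s2 := false) (a := 2) (b := 1) (c := 3) (cn := .pnn) (n1 := ndB0q2) (n2 := ndB0q1) (pc := pcB3) (cut := cut_pm_213_s) (xt := Ext.none) (P1 := 0) (W1 := 536870912) (P2 := 536870912) (W2 := 536870912) (P3 := 1040187392) (W3 := 5207648) (N0 := 3) (En := eng) (mo := mog) (C1 := cd0q2) (C2 := cd0q1) (C3 := pd3)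
    rfl k0_pm_213_s

noncomputable def cut_pm_213_t : Cut := Cut.of [[⟨3, 0, 0, 3194381926⟩], [⟨0, 1, 0, 15728640⟩, ⟨1, 1, 0, 15728640⟩, ⟨2, 2, 0, 524288⟩], [⟨0, 0, 1, 46137344⟩, ⟨1, 1, 0, 1048576⟩, ⟨2, 1, 1, 46137344⟩, ⟨0, 0, 0, 1054867456⟩, ⟨0, 1, 0, 38117834⟩, ⟨2, 1, 0, 1054867456⟩, ⟨2, 2, 0, 38117834⟩], [⟨0, 1, 0, 1048576⟩, ⟨1, 0, 1, 46137344⟩, ⟨2, 1, 1, 46137344⟩, ⟨1, 0, 0, 1054867456⟩, ⟨1, 1, 0, 38117834⟩, ⟨2, 1, 0, 1054867456⟩, ⟨2, 2, 0, 38117834⟩]]

noncomputable def f_pm_213_t : ℕ → ℕ → ℕ → ℕ → Bool := onCell 0 536870912 1610612736 536870912 1040187392 5207648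
    (rowNE 3 eng mog cd0q2 cd0q1 pd3 1 true true false .pnn 2 1 3 (qsf 0 536870912 536870912 536870912 3) ndB0q2 ndB0q1 pcB3 cut_pm_213_t Ext.none)

def k0_pm_213_t : ∃ t, chk3 f_pm_213_t t 2 1 1 = true :=
  ⟨(b (b (l 6) (b (l 6) (a (a (b (l 16678184) (b (l 16716032) (l 16739568))) (l 6)) (l 6)))) (a (b (a (b (b (b (l 77007240967) (l 92576499239)) (a (l 4) (l 108682607847))) (l 4)) (b (b (b (l 6) (l 16692848)) (b (l 16720456) (l 16714424))) (b (b (l 80228473799) (l 110830086679)) (b (l 192971443111) (l 4))))) (l 4)) (b (b (l 6) (b (a (b (l 6) (l 16706272)) (l 6)) (a (b (a (l 16763096) (l 16712712)) (a (l 118346345399) (l 16748184))) (l 6)))) (b (b (a (b (a (l 4) (l 112440772551)) (l 4)) (b (l 16598872) (a (b (l 16761496) (l 16752784)) (l 16717336)))) (a (l 4) (b (a (b (l 16735576) (l 4)) (b (l 16751112) (l 16749576))) (a (l 4) (b (l 16719960) (l 4)))))) (l 4))))), by decide +kernel⟩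

def k1_pm_213_t : ∃ t, chk3 f_pm_213_t t 3 2 1 = true :=
  ⟨(l 6), by decide +kernel⟩

def k2_pm_213_t : ∃ t, chk3 f_pm_213_t t 6 3 1 = true :=
  ⟨(b (l 6) (b (b (l 6) (a (b (a (l 16683856) (l 6)) (a (b (l 16743040) (l 16724352)) (l 16633192))) (l 6))) (b (b (a (a (b (l 99018999799) (l 4)) (b (l 16718448) (a (l 93650335831) (l 16755216)))) (a (b (l 6) (l 16685944)) (l 6))) (a (b (a (l 4) (a (l 4) (l 157001092711))) (l 4)) (b (a (b (l 16711432) (l 16729664)) (a (l 16688000) (l 6))) (a (b (l 73249214935) (a (l 4) (l 16751776))) (b (l 16699376) (l 16700808)))))) (b (a (l 4) (b (a (b (a (l 4) (l 185992137351)) (l 4)) (b (a (l 16742048) (l 16727048)) (a (l 97945313415) (l 16731624)))) (a (l 4) (a (l 4) (b (b (l 16751088) (l 16740392)) (b (l 253637877735) (l 4))))))) (l 4))))), by decide +kernel⟩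

def k3_pm_213_t : ∃ t, chk3 f_pm_213_t t 7 6 1 = true :=
  ⟨(l 6), by decide +kernel⟩

def k4_pm_213_t : ∃ t, chk3 f_pm_213_t t 14 14 1 = true :=
  ⟨(l 6), by decide +kernel⟩

def k5_pm_213_t : ∃ t, chk3 f_pm_213_t t 14 30 1 = true :=
  ⟨(b (l 6) (l 6)), by decide +kernel⟩

def k6_pm_213_t : ∃ t, chk3 f_pm_213_t t 14 62 1 = true :=
  ⟨(a (b (a (b (l 16687200) (l 16714920)) (b (l 6) (a (l 16684048) (l 6)))) (b (a (l 16722816) (l 16705112)) (a (b (l 16745040) (a (l 256322257639) (l 16751504))) (b (l 16729768) (l 16725144))))) (b (l 6) (a (b (a (b (l 6) (l 16682448)) (l 6)) (a (b (l 16700728) (l 16718576)) (b (l 16701424) (a (l 16705016) (l 16696288))))) (b (l 6) (b (l 6) (a (a (l 16686376) (l 16674800)) (l 16656616))))))), by decide +kernel⟩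

def k7_pm_213_t : ∃ t, chk3 f_pm_213_t t 14 63 1 = true :=
  ⟨(b (a (b (a (b (a (l 4) (l 268670288359)) (l 4)) (b (b (l 16737360) (l 16745656)) (b (a (l 16751760) (l 16766496)) (a (l 4) (l 16754192))))) (a (l 4) (b (a (l 4) (b (l 180623473655) (l 4))) (l 4)))) (b (a (b (a (l 16736080) (l 16719168)) (a (l 16711856) (l 16737464))) (a (b (a (l 16707240) (l 16698104)) (a (l 16726104) (l 16719000))) (b (l 16681728) (a (b (l 16705696) (l 16716656)) (l 16701856))))) (a (b (a (b (l 16767304) (b (l 16753168) (l 16765232))) (b (l 16751288) (l 16760560))) (a (b (a (l 4) (l 332021079575)) (l 4)) (a (b (l 16773744) (l 633742547287)) (b (l 16766160) (a (l 16766128) (l 16773672)))))) (b (a (b (l 16736568) (l 16745960)) (a (l 16731400) (b (l 16719976) (l 16730456)))) (a (b (l 16755352) (a (l 16768264) (l 16761400))) (b (l 16742808) (a (l 16755112) (l 16749560)))))))) (b (a (l 4) (a (b (a (l 4) (b (a (l 4) (l 719105018951)) (l 4))) (l 4)) (b (a (b (a (b (l 16775216) (l 247732353783))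 (l 16760264)) (a (l 4) (b (b (l 16755432) (l 16770200)) (l 786213886407)))) (a (b (l 16764408) (b (l 16771344) (a (l 16771312) (l 16774384)))) (b (l 16758800) (l 16767848)))) (b (a (l 4) (b (a (a (l 4) (l 286387064135)) (a (l 16770552) (l 16773168))) (a (l 4) (a (l 827552949559) (b (l 16776312) (l 336316062119)))))) (l 4))))) (l 4))), by decide +kernel⟩

def k8_pm_213_t : ∃ t, chk3 f_pm_213_t t 15 14 1 = true :=
  ⟨(l 6), by decide +kernel⟩

def k9_pm_213_t : ∃ t, chk3 f_pm_213_t t 30 30 1 = true :=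
  ⟨(l 6), by decide +kernel⟩

def k10_pm_213_t : ∃ t, chk3 f_pm_213_t t 30 62 1 = true :=
  ⟨(l 6), by decide +kernel⟩

def k11_pm_213_t : ∃ t, chk3 f_pm_213_t t 30 126 1 = true :=
  ⟨(a (b (a (a (l 16678864) (l 16669832)) (a (l 16662504) (b (l 6) (l 16672128)))) (a (b (a (b (l 16711872) (a (l 16726240) (l 16722824))) (l 16710544)) (a (b (a (l 16736520) (l 16734264)) (l 16744984)) (b (a (b (l 16728824) (l 16734776)) (l 16728760)) (a (l 16742392) (b (l 16738152) (l 16743392)))))) (b (a (l 16704464) (l 16700952)) (a (b (l 16724752) (a (b (l 16735728) (l 16741936)) (l 16736808))) (l 16749424))))) (b (a (a (b (l 6) (l 16670944)) (l 6)) (l 6)) (a (b (a (l 16701096) (a (l 16704520) (l 16708840))) (a (b (l 16722616) (l 16736168)) (b (l 16729008) (l 16742928)))) (b (a (a (l 16715096) (l 16723640)) (a (l 16734880) (l 16749336))) (a (b (l 16743008) (l 16757488)) (b (l 16757840) (l 16759680))))))), by decide +kernel⟩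

def k12_pm_213_t : ∃ t, chk3 f_pm_213_t t 30 254 1 = true :=
  ⟨(a (b (a (b (a (l 16754192) (l 16750888)) (a (l 16764352) (b (l 16757464) (l 16761656)))) (b (a (a (b (l 16747176) (l 16751760)) (b (l 16746184) (l 16751344))) (a (b (l 16744896) (l 16750952)) (l 16747504))) (a (a (l 16758088) (l 16757784)) (a (b (a (l 16755968) (l 16756152)) (l 16760104)) (b (l 16756320) (a (l 16760552) (b (l 16759104) (l 16760224)))))))) (a (b (a (b (l 16769472) (b (l 16772616) (l 16769408))) (b (l 16765704) (l 16769608))) (b (a (b (a (l 293366390167) (l 16775528)) (a (l 4) (a (l 363159610439) (l 16766288)))) (a (l 16774344) (l 16772528))) (a (l 4) (b (a (a (l 327189260119) (l 16776552)) (l 16775192)) (a (l 943517068087) (a (l 298198231479) (l 16776416))))))) (b (a (b (l 16763688) (l 16767288)) (b (l 16743176) (l 16746192))) (a (b (a (l 16771160) (l 16770312)) (a (l 16774440) (l 16773336))) (b (l 16759504) (a (l 16772848) (l 16771848))))))) (b (a (a (b (l 16748928) (a (b (l 16756936) (a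 (l 16759408) (l 16759640))) (l 16759744))) (b (l 16755840) (l 16760384))) (a (b (l 16760144) (l 16761216)) (b (l 16760912) (l 16762112)))) (a (b (a (b (a (b (a (l 16760704) (l 16760104)) (l 16761832)) (a (l 16760448) (l 16760712))) (a (l 16764192) (b (a (l 16761896) (l 16761320)) (l 16763112)))) (a (b (l 16761080) (a (b (l 16761504) (l 16762008)) (l 16761960))) (l 16761936))) (a (b (l 16745496) (l 16759096)) (b (a (b (a (l 16763344) (l 16752272)) (l 16764640)) (a (b (l 16762872) (c (l 16752944) (l 16753216))) (l 16763368))) (a (l 16767160) (a (l 16765920) (b (a (l 16764496) (l 16764272)) (l 16765960))))))) (b (a (l 16762664) (l 16763648)) (a (b (l 16764016) (a (a (b (l 16764368) (a (l 16765448) (l 16765184))) (l 16764864)) (l 16765312))) (a (l 16765288) (l 16765800))))))), by decide +kernel⟩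

def k13_pm_213_t : ∃ t, chk3 f_pm_213_t t 60 510 1 = true :=
  ⟨(b (a (b (a (l 4) (b (a (l 4) (a (l 4) (l 811983696775))) (l 4))) (l 4)) (b (a (b (a (a (a (l 341147905079) (l 16774224)) (l 16776384)) (l 16775432)) (b (a (a (l 4) (l 414162349527)) (l 16776424)) (a (l 4) (a (l 409330511447) (l 16776760))))) (b (l 16763856) (l 16764952))) (a (a (l 4) (a (l 4) (b (a (l 962844422999) (l 470533793479)) (l 4)))) (b (b (l 16770968) (a (a (l 423289155303) (l 16776848)) (l 16776208))) (b (a (a (l 4) (l 426510380791)) (l 16776696)) (a (l 4) (a (l 435637186247) (l 16776936)))))))) (a (l 4) (b (a (l 4) (b (b (a (l 4) (a (l 4) (l 453353925591))) (l 4)) (l 4))) (l 4)))), by decide +kernel⟩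

def k14_pm_213_t : ∃ t, chk3 f_pm_213_t t 61 510 1 = true :=
  ⟨(b (a (b (a (a (l 16752120) (l 16771784)) (a (l 16770400) (l 16768960))) (a (b (l 16763896) (l 16765048)) (b (l 16772000) (l 16752448)))) (a (b (a (b (a (l 16766960) (c (l 16761008) (l 16761232))) (l 16768360)) (b (a (c (l 16765912) (l 16760888)) (l 16766296)) (a (l 16767400) (b (l 16766712) (l 16764592))))) (b (a (l 16770064) (l 16768816)) (l 16771080))) (b (l 16767224) (a (b (a (b (l 16767600) (l 16768296)) (l 16767984)) (b (a (l 16769080) (a (l 16768688) (l 16768536))) (l 16769744))) (a (a (b (l 16768192) (b (l 16768672) (l 16769056))) (l 16768624)) (l 16768800)))))) (a (b (a (b (b (l 16774352) (a (a (l 476976245575) (l 16777008)) (l 16776360))) (b (a (a (l 4) (l 508651629175)) (l 16771616)) (a (l 4) (a (l 549453818199) (l 16766664))))) (b (l 16764232) (l 16770608))) (a (b (b (a (l 4) (a (l 4) (l 1019215869751))) (l 4)) (l 4)) (a (b (a (b (l 16774600) (l 1117463246167)) (a (b (l 16776840) (l 407719899671))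 (l 16771672))) (b (l 1308589288567) (l 4))) (b (l 16776448) (b (b (l 16771792) (a (l 537642659495) (l 16777016))) (b (a (l 4) (l 16771816)) (l 1208731300455))))))) (b (a (b (l 16751672) (l 16763584)) (a (l 16766576) (b (b (a (l 16767160) (l 16769584)) (a (l 16770560) (a (l 16770216) (l 16770040)))) (l 16761176)))) (b (a (l 16770072) (l 16768408)) (b (a (l 16765632) (l 16774680)) (a (a (l 16771640) (l 16776272)) (l 16764816))))))), by decide +kernel⟩

def k15_pm_213_t : ∃ t, chk3 f_pm_213_t t 30 511 1 = true :=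
  ⟨(b (a (l 4) (a (l 4) (b (a (b (b (a (b (a (l 478049989239) (l 16777000)) (a (l 1421869053351) (l 16771912))) (l 16776704)) (b (a (a (l 4) (l 639648131703)) (l 16776992)) (a (l 4) (a (a (l 16775296) (l 16777176)) (l 16777024))))) (a (l 4) (b (a (l 1479851110695) (b (l 16774528) (l 664344194247))) (l 4)))) (a (b (l 16771136) (b (l 16774344) (b (a (a (l 724473737655) (l 16771872)) (l 16777072)) (a (l 1601183937687) (a (l 512946599399) (l 16777184)))))) (b (l 16765344) (c (l 16774088) (l 16774120))))) (b (a (l 4) (a (b (b (a (l 4) (a (l 4) (l 691187741287))) (l 4)) (l 4)) (a (b (b (a (l 16771912) (l 16777128)) (a (l 1593667745927) (l 497377343015))) (l 4)) (b (l 16777096) (b (a (l 702998901351) (l 16774528)) (l 1701041927335)))))) (l 4))))) (l 4)), by decide +kernel⟩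

def k16_pm_213_t : ∃ t, chk3 f_pm_213_t t 31 30 1 = true :=
  ⟨(l 6), by decide +kernel⟩

def k17_pm_213_t : ∃ t, chk3 f_pm_213_t t 62 62 1 = true :=
  ⟨(l 6), by decide +kernel⟩

def k18_pm_213_t : ∃ t, chk3 f_pm_213_t t 62 126 1 = true :=
  ⟨(b (l 6) (a (b (b (l 6) (a (l 16756056) (l 16756616))) (a (b (l 16758312) (l 16760488)) (b (l 16759184) (a (l 16761312) (l 16761984))))) (b (l 6) (a (b (a (l 16760112) (l 16760880)) (a (l 16762736) (l 16760960))) (b (a (l 16761776) (l 16760264)) (a (b (l 16763896) (l 16765200)) (b (l 16765056) (l 16766376)))))))), by decide +kernel⟩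

def k19_pm_213_t : ∃ t, chk3 f_pm_213_t t 62 254 1 = true :=
  ⟨(a (b (a (b (l 16761888) (l 16763160)) (b (a (l 16762800) (l 16763512)) (a (l 16764088) (l 16764784)))) (a (b (l 16762104) (a (l 16766328) (l 16766872))) (b (a (l 16765632) (l 16766296)) (a (l 16767448) (l 16768056))))) (b (a (b (a (l 16764288) (l 16765144)) (a (l 16765536) (l 16766344))) (b (a (l 16766104) (a (l 16766936) (l 16767560))) (a (b (l 16766944) (l 16767560)) (b (l 16768032) (l 16768600))))) (a (b (a (l 16766992) (l 16766432)) (a (l 16766064) (b (l 16768920) (l 16769776)))) (b (a (b (l 16768216) (l 16768912)) (b (l 16769208) (l 16769864))) (a (b (l 16769672) (l 16770472)) (b (l 16770568) (l 16771312))))))), by decide +kernel⟩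

def k20_pm_213_t : ∃ t, chk3 f_pm_213_t t 62 510 1 = true :=
  ⟨(b (a (a (b (l 16768224) (l 16769400)) (a (l 16766920) (b (l 16769552) (l 16770600)))) (a (a (b (l 16770104) (l 16771088)) (b (l 16770680) (l 16771600))) (a (b (l 16771312) (l 16772160)) (b (l 16772088) (l 16772848))))) (a (b (a (a (b (l 16770136) (b (a (a (l 16765368) (l 16770568)) (l 16770760)) (a (l 16771360) (a (l 16765816) (l 16771160))))) (l 16770904)) (a (l 16771328) (l 16771752))) (a (a (b (b (b (a (l 16771912) (a (l 16771592) (l 16771432))) (l 16772184)) (l 16772728)) (l 16773896)) (a (b (b (l 16771624) (a (l 16772264) (a (l 16769488) (l 16772080)))) (l 16773344)) (b (l 16772048) (b (b (a (l 16772480) (l 16772552)) (a (l 16772872) (l 16772728))) (l 16773432))))) (a (a (b (l 16772232) (b (l 16772776) (b (l 16773008) (a (l 16773336) (l 16773256))))) (l 16772776)) (l 16773032)))) (a (a (b (l 16772168) (l 16773376)) (b (l 16772608) (l 16773728))) (a (b (l 16773088) (l 16774120)) (b (l 16773696) (l 16771984)))))),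 by decide +kernel⟩

def k21_pm_213_t : ∃ t, chk3 f_pm_213_t t 124 1022 1 = true :=
  ⟨(b (a (a (b (l 16764768) (l 16775008)) (b (l 16774648) (l 16774584))) (a (b (b (b (a (a (l 16773688) (l 16770952)) (l 16773576)) (a (l 16773992) (a (a (l 16773832) (l 16773760)) (l 16773824)))) (b (a (l 16774368) (a (l 16774160) (a (l 16774072) (l 16774016)))) (l 16774632))) (c (l 16772784) (l 16772864))) (b (b (l 16773912) (b (l 16774192) (a (a (a (l 16774312) (l 16774272)) (l 16774344)) (l 16774440)))) (b (b (a (a (l 16774656) (a (l 16771928) (l 16774528))) (l 16774632)) (a (l 16774976) (a (a (l 16772168) (l 16774784)) (l 16774848)))) (a (l 16775432) (b (a (l 16775144) (a (l 16773720) (l 16775040))) (a (l 16775432) (l 16775384)))))))) (a (b (b (a (l 16776888) (l 16776600)) (a (b (l 16777080) (b (l 16774560) (a (a (l 16774096) (l 16777224)) (l 16777152)))) (l 16776936))) (b (a (b (b (a (l 786213892023) (l 16777192)) (a (l 4) (a (l 16774352) (l 16777192)))) (b (a (l 4) (a (l 4) (l 16771816)))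 (l 1819690397783))) (b (l 16777112) (a (l 16775944) (l 16777160)))) (a (l 4) (a (b (a (l 1581319715031) (b (l 16777192) (l 764202185975))) (l 4)) (b (l 16777224) (b (a (l 686892774823) (l 16777232)) (a (l 4) (c (l 604214654855) (l 619783911287))))))))) (b (b (a (l 16776288) (l 16775952)) (a (l 16766240) (l 16776488))) (b (a (l 16777040) (l 16771664)) (b (a (l 16777184) (l 16777128)) (a (l 16777232) (l 16777232))))))), by decide +kernel⟩

def k22_pm_213_t : ∃ t, chk3 f_pm_213_t t 125 1022 1 = true :=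
  ⟨(a (a (a (b (b (l 16774304) (b (l 16774848) (b (l 16775128) (a (a (c (l 16772608) (l 16774016)) (l 16775296)) (l 16775344))))) (b (b (b (a (l 16773000) (a (c (l 16774160) (l 16774920)) (l 16775544))) (a (l 16775896) (l 16773240))) (l 16776296)) (b (l 16776792) (l 16777152)))) (b (l 16774784) (b (b (b (l 16775616) (b (l 16775744) (a (a (l 16775848) (l 16775832)) (l 16775880)))) (a (b (l 16773480) (l 16776344)) (b (b (l 16775960) (a (l 16776096) (l 16776064))) (l 16773712)))) (b (l 16776712) (l 16777128))))) (b (l 16769744) (b (b (l 16775856) (b (l 16776136) (b (l 16776240) (a (a (a (l 16776344) (l 16776296)) (l 16776352)) (l 16776408))))) (a (b (b (a (l 16771328) (b (l 16776416) (a (l 16776584) (l 16776536)))) (l 16771576)) (l 16777096)) (b (a (b (l 16776536) (b (l 16775328) (a (l 16776816) (l 16771528)))) (l 16776664)) (b (a (l 16776992) (b (a (l 16771648) (l 16776912)) (a (l 16777024) (l 16771776)))) (l 16777176))))))) (a (b (l 16772648) (b (l 16776240) (a (b (l 16776712)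 (b (l 16776968) (b (a (a (l 16771896) (l 16777104)) (l 16777152)) (a (l 16772000) (l 16774552))))) (l 16776968)))) (b (l 16774320) (b (l 16776480) (l 16771856))))), by decide +kernel⟩

def k23_pm_213_t : ∃ t, chk3 f_pm_213_t t 62 4092 1 = true :=
  ⟨(a (a (a (l 4) (l 4)) (b (a (a (b (b (a (a (l 16775600) (l 16777160)) (l 16777224)) (a (l 2014574541191) (a (l 16775664) (l 16777192)))) (a (l 4) (l 1983972898519))) (b (l 16777232) (b (a (c (l 16775768) (l 16776424)) (l 16777224)) (a (l 1790699371159) (c (l 16775800) (l 16776456)))))) (a (l 16777232) (l 16777240))) (a (b (b (a (l 4) (a (l 4) (l 1042301317959))) (l 4)) (l 4)) (b (a (b (a (l 16776472) (l 16777224)) (a (l 1032637641607) (l 16776488))) (l 16777232)) (b (a (a (l 4) (l 1032637641639)) (a (l 16776496) (l 16777224))) (a (l 4) (a (l 1043911930791) (c (l 16775840) (l 16775832))))))))) (a (b (b (a (l 16777240) (l 16777224)) (a (l 16777240) (l 16777232))) (b (a (l 16777240) (l 16777240)) (a (l 16777232) (l 16777240))))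 (b (a (a (b (b (a (l 16777208) (a (l 16777240) (l 16774568))) (l 16777248)) (l 16777224)) (b (b (l 16777248) (a (a (l 16775896) (l 16777232)) (l 16777256))) (b (a (a (l 16777224) (l 16775920)) (l 16777216)) (a (l 16777224) (a (l 16777256) (l 16771976)))))) (l 16777328)) (a (b (a (l 16777232) (a (l 16777232) (l 16775984))) (l 16777240)) (a (a (b (b (a (c (l 16775888) (l 16775952)) (l 16777264)) (a (l 16777272) (a (l 16777264) (l 16777240)))) (l 16777256)) (b (l 16777248) (b (a (l 16775968) (l 16777240)) (l 16777304)))) (b (l 16777320) (b (l 16777296) (b (l 16777272) (a (a (l 16777272) (l 16777280)) (l 16777296)))))))))), by decide +kernel⟩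

def k24_pm_213_t : ∃ t, chk3 f_pm_213_t t 62 4093 1 = true :=
  ⟨(b (b (a (b (a (l 4) (a (l 4) (a (l 4) (a (l 4) (l 1066997379975))))) (l 4)) (a (a (a (b (a (a (l 16775784) (l 16777224)) (l 16777224)) (b (a (l 1033711384487) (l 16777232)) (a (l 4) (l 16775760)))) (l 16777224)) (l 16777240)) (a (l 16777248) (a (l 16777264) (a (b (b (a (l 16777280) (l 16777264)) (l 16777304)) (l 16777272)) (b (l 16772016) (a (l 16774688) (a (l 16775960) (l 16777264))))))))) (a (l 4) (a (a (a (b (a (l 4) (l 2018869508759)) (l 4)) (b (b (l 16777232) (a (l 696019581319) (l 16777224))) (a (l 2142886689287) (b (l 16777208) (a (l 16774264) (l 16777160)))))) (l 16777232)) (a (l 16777248) (b (l 16776000) (l 16777272)))))) (a (l 4) (a (a (b (b (a (l 4) (l 2418301466039)) (l 4)) (l 4)) (a (b (a (b (b (l 16777176) (l 917747268071)) (l 2578288998487)) (b (l 16777224) (b (l 16775824) (l 1072902960471)))) (l 4)) (b (l 16775920) (a (b (b (a (l 16775672) (l 16777208)) (l 1250607232071)) (l 4)) (b (l 16777224)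 (b (a (l 16776192) (l 16777136)) (l 2672241408663))))))) (a (b (l 16776592) (b (l 16777240) (b (l 16777232) (a (a (l 16775824) (l 16777224)) (l 16777232))))) (b (l 16777272) (c (l 16777248) (l 16777272))))))), by decide +kernel⟩

def k25_pm_213_t : ∃ t, chk3 f_pm_213_t t 62 2047 1 = true :=
  ⟨(a (l 4) (b (a (l 4) (b (b (b (b (a (a (a (a (l 4) (l 16775712)) (l 16777232)) (l 16777232)) (l 16777256)) (l 14)) (l 14)) (l 14)) (l 14))) (l 4))), by decide +kernel⟩

def k26_pm_213_t : ∃ t, chk3 f_pm_213_t t 63 62 1 = true :=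
  ⟨(l 6), by decide +kernel⟩

def k27_pm_213_t : ∃ t, chk3 f_pm_213_t t 63 252 1 = true :=
  ⟨(l 6), by decide +kernel⟩

def k28_pm_213_t : ∃ t, chk3 f_pm_213_t t 63 506 1 = true :=
  ⟨(l 6), by decide +kernel⟩

def k29_pm_213_t : ∃ t, chk3 f_pm_213_t t 63 1014 1 = true :=
  ⟨(b (l 6) (a (a (a (l 16764976) (a (l 16766136) (l 16766968))) (l 6)) (l 6))), by decide +kernel⟩

def k30_pm_213_t : ∃ t, chk3 f_pm_213_t t 126 1015 1 = true :=
  ⟨(a (a (b (a (l 16766064) (l 16766808)) (b (l 16767488) (l 16768040))) (b (a (l 16767600) (l 16768448)) (b (l 16769088) (l 16769632)))) (a (b (c (l 16769872) (l 16769752)) (b (l 16769576) (c (l 16771472) (l 16771376)))) (b (c (l 16769232) (l 16769096)) (b (c (l 16772912) (l 16772792)) (c (l 16773440) (l 16773328)))))), by decide +kernel⟩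

def k31_pm_213_t : ∃ t, chk3 f_pm_213_t t 127 2030 1 = true :=
  ⟨(a (a (c (a (l 16773440) (l 16774528)) (a (l 16773288) (l 16774368))) (c (a (l 16775640) (l 16776744)) (a (l 16775472) (l 16773952)))) (b (l 6) (a (a (c (l 16778168) (l 16778000)) (a (a (c (l 16778856) (l 16778680)) (c (l 16778800) (a (l 16778760) (l 16778512)))) (c (l 16777960) (l 16777816)))) (a (c (c (l 16773624) (l 16773576)) (c (l 16774840) (a (l 16776664) (l 16775544)))) (b (l 6) (a (c (l 16773312) (c (l 16774592) (l 16774568))) (c (c (l 16773448) (l 16772136)) (c (c (l 16773440) (l 16772128)) (c (l 16772784) (a (l 16773720) (l 16772504))))))))))), by decide +kernel⟩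

def k32_pm_213_t : ∃ t, chk3 f_pm_213_t t 127 2031 1 = true :=
  ⟨(b (a (a (c (l 16775024) (l 16772272)) (c (l 16777192) (l 16775728))) (a (a (c (l 16778808) (l 16778648)) (a (a (l 16778744) (c (l 16778200) (a (l 16779464) (l 16779264)))) (c (l 16778664) (l 16778520)))) (c (a (c (l 16774240) (l 16774200)) (a (l 16774040) (c (l 16772496) (c (l 16772496) (l 16772496))))) (a (c (l 16775464) (a (l 16777320) (l 16776144))) (c (a (l 16773680) (a (l 16774104) (l 16772856))) (a (l 16773664) (a (l 16774096) (c (l 16773512) (l 16772856))))))))) (a (a (c (l 16774216) (a (l 16774872) (l 16775928))) (c (l 16776336) (a (l 16776984) (l 16778032)))) (a (a (c (l 16779232) (c (l 16779120) (l 16779048))) (a (a (c (l 16779896) (l 16779744)) (c (a (l 16780088) (l 16779960)) (a (c (l 16779968) (l 16779896)) (l 16779808)))) (c (l 16779176) (l 16777736)))) (b (c (a (c (l 16774664) (l 16774616)) (c (b (l 16773416) (l 16772184)) (b (l 16773408) (l 16773480)))) (a (c (l 16775888) (b (l 16774496)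 (l 16774576))) (c (b (a (l 16775320) (l 16774104)) (l 16773472)) (b (a (l 16775304) (l 16773448)) (a (l 16775384) (l 16774168)))))) (c (a (l 16774728) (c (l 16773544) (l 16773536))) (a (l 16775960) (a (l 16774792) (c (l 16774232) (l 16772920))))))))), by decide +kernel⟩

def k33_pm_213_t : ∃ t, chk3 f_pm_213_t t 126 254 1 = true :=
  ⟨(b (a (b (a (b (l 16767056) (l 16768824)) (a (l 16769736) (l 16769240))) (a (b (l 16769320) (l 16769848)) (b (l 16770800) (l 16771272)))) (b (a (a (c (l 16771456) (l 16771384)) (c (l 16772368) (l 16772280))) (a (c (l 16773320) (l 16773224)) (c (l 16774288) (l 16774184)))) (a (b (a (l 16772016) (l 16772872)) (a (l 16772440) (l 16773256))) (b (a (l 16773760) (l 16774656)) (c (l 16774544) (l 16774480)))))) (a (b (a (b (l 16770408) (l 16771008)) (b (l 16771776) (l 16771000))) (a (b (l 16771640) (l 16772312)) (b (l 16771552) (a (l 16773152) (l 16773736))))) (b (a (b (a (l 16772888) (l 16773656)) (a (l 16773352) (l 16774064))) (b (a (l 16774432)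 (l 16775208)) (l 16774152))) (a (b (l 16774152) (l 16774608)) (b (l 16774136) (l 16774464)))))), by decide +kernel⟩

def k34_pm_213_t : ∃ t, chk3 f_pm_213_t t 254 254 1 = true :=
  ⟨(b (a (b (a (b (l 16774456) (l 16775336)) (c (l 16776264) (l 16776152))) (c (a (l 16775688) (l 16776560)) (a (l 16775616) (l 16776480)))) (b (c (a (l 16777248) (l 16777576)) (a (b (l 16777080) (l 16777184)) (b (l 16778088) (l 16778136)))) (a (c (l 16777424) (l 16776024)) (c (b (l 16778280) (l 16778312)) (b (l 16778184) (l 16778224)))))) (b (b (a (c (l 16776400) (l 16776336)) (a (c (l 16777560) (l 16777488)) (c (l 16778336) (l 16778256)))) (a (a (l 16776200) (l 16776904)) (a (c (l 16777640) (l 16777592)) (l 16778328)))) (a (b (a (l 16776416) (l 16777064)) (a (l 16776640) (l 16777224))) (a (b (l 16777704) (l 16777800)) (b (l 16778352) (l 16778376)))))), by decide +kernel⟩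

def k35_pm_213_t : ∃ t, chk3 f_pm_213_t t 510 254 1 = true :=
  ⟨(b (a (b (c (b (l 16779232) (l 16779208)) (b (l 16779096) (l 16779088))) (c (l 16778504) (b (l 16779072) (l 16779048)))) (a (b (a (c (l 16779832) (l 16779696)) (b (a (l 16779984) (c (l 16780064) (c (l 16779960) (l 16779888)))) (c (l 16780040) (l 16779912)))) (c (l 16779808) (l 16779704))) (b (c (b (l 16779352) (l 16778240)) (b (l 16779232) (a (l 16779072) (l 16779152)))) (a (a (b (c (l 16780080) (l 16779640)) (l 16779976)) (b (l 16779192) (c (l 16780016) (l 16779264)))) (c (l 16779552) (l 16779456)))))) (b (a (c (l 16778424) (b (l 16779024) (l 16779000))) (a (c (l 16779632) (l 16779560)) (a (b (c (l 16779976) (l 16779888)) (l 16779824)) (b (c (l 16779800) (l 16779064)) (c (a (l 16779968) (l 16779840)) (a (l 16779896) (l 16779768))))))) (b (a (c (l 16779024) (l 16778968)) (a (l 16779472) (a (l 16779712) (a (l 16779832) (c (l 16779896) (l 16779504)))))) (a (c (l 16778976) (l 16778936)) (c (l 16779552) (l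 16779504)))))), by decide +kernel⟩

def k36_pm_213_t : ∃ t, chk3 f_pm_213_t t 511 254 1 = true :=
  ⟨(a (b (b (c (b (c (l 16774896) (l 16774864)) (l 16776424)) (b (c (l 16774824) (l 16776096)) (c (l 16775064) (l 16776344)))) (c (b (l 16776656) (l 16776864)) (b (c (l 16775296) (l 16776576)) (c (l 16775512) (l 16776800))))) (b (c (b (l 16777072) (l 16777264)) (b (c (l 16775728) (l 16777008)) (c (l 16775920) (l 16777208)))) (b (c (b (l 16776096) (l 16777488)) (a (l 16777952) (l 16778176))) (a (a (a (c (l 16779800) (b (l 16779760) (l 16779768))) (l 16779592)) (l 16777872)) (c (l 16778392) (l 16777056)))))) (c (a (b (b (b (l 16774336) (l 16774608)) (b (l 16776168) (l 16776416))) (b (b (l 16776656) (l 16776880)) (b (l 16777096) (l 16775992)))) (b (b (b (c (l 16774416) (l 16773104)) (c (l 16774696) (l 16773392))) (b (c (l 16774976) (l 16773664)) (c (l 16775240) (l 16775248)))) (b (b (c (l 16775496) (l 16775504)) (c (l 16775744) (l 16774440))) (b (c (l 16775984) (l 16774680))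 (b (l 16774848) (l 16775616)))))) (b (b (b (c (a (l 16775624) (c (l 16773104) (l 16773104))) (a (l 16774304) (b (l 16773688) (l 16773176)))) (c (a (l 16775896) (l 16774048)) (a (l 16775888) (c (l 16773400) (l 16774056))))) (b (c (a (l 16776160) (l 16774328)) (a (l 16776152) (c (l 16773680) (l 16773680)))) (c (a (l 16776408) (l 16774600)) (a (l 16776400) (c (l 16773944) (l 16773952)))))) (b (b (a (l 16775984) (c (l 16774200) (c (l 16774208) (l 16774208)))) (a (l 16776216) (c (l 16775104) (l 16775112)))) (b (a (l 16776432) (b (l 16775288) (l 16775408))) (a (c (l 16777296) (l 16775984)) (a (l 16775840) (c (l 16775960) (l 16775968))))))))), by decide +kernel⟩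

def k37_pm_213_t : ∃ t, chk3 f_pm_213_t t 126 510 1 = true :=
  ⟨(a (b (a (b (l 16771704) (l 16773672)) (b (a (l 16773768) (l 16774280)) (l 16774560))) (a (b (l 16771768) (l 16775176)) (b (l 16773816) (l 16774440)))) (b (a (b (a (l 16774792) (l 16775312)) (l 16774128)) (b (a (l 16775824) (l 16776336)) (a (l 16776104) (l 16776544)))) (a (b (l 16774872) (a (l 16776184) (l 16776472))) (b (a (l 16776408) (l 16776768)) (a (l 16776752) (l 16777040)))))), by decide +kernel⟩

def k38_pm_213_t : ∃ t, chk3 f_pm_213_t t 254 510 1 = true :=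
  ⟨(b (a (b (a (l 16776848) (l 16777360)) (a (l 16776984) (l 16777416))) (b (a (l 16777872) (c (l 16778392) (l 16778368))) (a (l 16777856) (c (l 16778304) (l 16778288))))) (a (b (a (l 16777136) (l 16777496)) (a (l 16777328) (l 16777608))) (b (a (l 16777864) (c (l 16778224) (l 16778216))) (a (l 16777568) (c (l 16778176) (l 16778176)))))), by decide +kernel⟩

def k39_pm_213_t : ∃ t, chk3 f_pm_213_t t 510 510 1 = true :=
  ⟨(b (b (a (c (l 16778904) (l 16778872)) (c (l 16779416) (l 16778720))) (a (c (l 16778744) (l 16778720)) (c (l 16779176) (l 16778496)))) (b (a (c (l 16778584) (l 16778576)) (b (l 16778344) (l 16778560))) (a (c (l 16777152) (l 16777800)) (b (l 16778456) (l 16778360))))), by decide +kernel⟩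

def k40_pm_213_t : ∃ t, chk3 f_pm_213_t t 511 510 1 = true :=
  ⟨(a (b (a (b (a (b (a (l 16779744) (a (l 16779736) (l 16779640))) (c (l 16779656) (l 16779368))) (c (l 16779336) (l 16779304))) (a (c (l 16779456) (l 16779424)) (a (a (b (l 16779520) (l 16779432)) (b (l 16779416) (l 16779400))) (l 16779232)))) (b (c (l 16777232) (c (l 16777216) (l 16777208))) (c (l 16777952) (c (l 16777288) (l 16777280))))) (a (b (a (c (l 16779168) (l 16779152)) (c (a (l 16779248) (b (l 16779240) (l 16779192))) (a (l 16778576) (b (l 16779216) (l 16778840))))) (b (l 16779008) (l 16778880))) (b (c (b (l 16776032) (l 16777368)) (b (l 16777328) (l 16777352))) (b (a (a (a (a (l 16779080) (l 16779056)) (l 16778984)) (l 16778816)) (l 16777816)) (a (c (a (l 16778304) (l 16778840)) (a (l 16778784) (l 16778832))) (l 16777856)))))) (b (b (c (b (a (l 16777448) (c (l 16776376) (l 16776384))) (a (l 16777520) (l 16775808))) (b (a (l 16776136) (c (l 16775080) (l 16775744))) (a (l 16776208) (c (l 16775168)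 (l 16775832))))) (c (a (b (l 16777568) (l 16776312)) (b (l 16775888) (c (l 16775304) (l 16775968)))) (a (b (l 16776256) (l 16776312)) (b (c (l 16775896) (l 16775904)) (c (l 16775976) (l 16775984)))))) (b (c (a (b (l 16776360) (l 16776416)) (b (c (l 16776032) (l 16776040)) (c (l 16776112) (l 16776120)))) (a (b (l 16777016) (l 16777072)) (b (a (l 16776952) (l 16776144)) (a (l 16777024) (a (l 16776672) (l 16776432)))))) (a (c (b (l 16777120) (l 16777176)) (b (l 16777128) (c (l 16777176) (l 16777176)))) (a (c (b (l 16777080) (l 16777152)) (b (l 16777096) (l 16776832))) (c (b (l 16776288) (c (l 16776696) (l 16776704))) (b (c (l 16776632) (l 16776640)) (c (l 16776384) (l 16776392))))))))), by decide +kernel⟩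

def k41_pm_213_t : ∃ t, chk3 f_pm_213_t t 63 2044 1 = true :=
  ⟨(a (a (a (l 16774728) (b (l 16776272) (l 16776640))) (a (b (l 16776720) (l 16777000)) (b (l 16777168) (l 16777368)))) (b (a (a (l 16776960) (a (l 16777944) (l 16778168))) (a (a (l 16778384) (c (l 16778600) (l 16778600))) (a (a (l 16778104) (a (a (l 16778832) (a (b (l 16778872) (l 16778816)) (b (l 16778808) (l 16778472)))) (l 16778216))) (c (a (c (l 16777232) (l 16777232)) (a (l 16776568) (a (l 16776896) (l 16776672)))) (a (c (l 16777232) (l 16777400)) (a (l 16776904) (b (l 16776448) (l 16776496)))))))) (a (a (l 16777400) (a (l 16777992) (l 16778168))) (a (a (l 16777688) (c (l 16777208) (l 16777208))) (a (a (l 16777992) (a (c (l 16778064) (l 16778384)) (a (a (b (l 16778064) (l 16778368)) (a (l 16778328) (l 16778608))) (l 16777816)))) (c (a (b (l 16776616) (l 16777296)) (a (l 16776968) (b (l 16776520) (l 16776560)))) (a (b (l 16777272) (l 16777304)) (a (c (l 16776976) (l 16776984)) (a (l 16776824) (b (l 16776752)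 (l 16776800))))))))))), by decide +kernel⟩

def k42_pm_213_t : ∃ t, chk3 f_pm_213_t t 63 2045 1 = true :=
  ⟨(b (a (a (a (l 16776760) (l 16777032)) (a (l 16777312) (l 16774960))) (a (a (a (l 16777784) (l 16777920)) (a (l 16778048) (l 16778184))) (a (a (l 16778312) (c (l 16778440) (l 16778440))) (a (a (l 16778208) (a (l 16777920) (a (b (c (l 16777976) (l 16778464)) (l 16777232)) (a (b (l 16778552) (a (l 16778208) (l 16777888))) (l 16777808))))) (a (c (b (l 16777328) (l 16777352)) (b (l 16777328) (l 16777520))) (a (a (b (l 16777464) (l 16777168)) (c (l 16777264) (l 16777112))) (b (c (l 16776600) (c (l 16776616) (l 16776616))) (c (c (l 16776640) (l 16776648)) (c (l 16776656) (l 16776664)))))))))) (a (a (a (l 16772040) (l 16774840)) (a (l 16776984) (c (l 16777800) (l 16776520)))) (b (a (a (l 16776648) (a (l 16778104) (l 16778200))) (a (a (l 16778296) (l 16777728)) (a (a (l 16777080) (a (l 16777056) (a (l 16777040) (a (l 16777688) (c (l 16777720) (l 16778048)))))) (c (a (l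 16777384) (a (l 16776768) (a (l 16777120) (l 16776912)))) (a (c (l 16777384) (l 16777384)) (a (l 16777104) (a (l 16777128) (l 16776760)))))))) (a (a (l 16778032) (a (l 16778136) (l 16778208))) (a (a (l 16777952) (c (l 16777584) (l 16777904))) (a (b (a (l 16778240) (c (l 16777880) (a (l 16778224) (l 16777552)))) (a (l 16777496) (l 16777960))) (a (a (b (l 16777928) (a (a (b (l 16777832) (l 16778024)) (l 16777568)) (l 16777512))) (b (l 16777528) (a (l 16777640) (l 16777608)))) (b (a (c (l 16777456) (l 16776800)) (c (l 16776720) (l 16776816))) (b (a (l 16777224) (c (l 16776736) (l 16776744))) (a (c (l 16776816) (l 16776816)) (c (l 16776744) (a (l 16777176) (l 16776984))))))))))))), by decide +kernel⟩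

def k43_pm_213_t : ∃ t, chk3 f_pm_213_t t 63 4092 1 = true :=
  ⟨(a (a (a (l 16777408) (l 16777520)) (a (l 16776976) (a (l 16775096) (l 16775152)))) (a (a (a (l 16776520) (l 16776568)) (a (l 16777600) (c (l 16777320) (l 16777336)))) (a (b (a (l 16776824) (l 16777976)) (a (l 16777288) (c (l 16777328) (l 16777328)))) (a (a (b (l 16777456) (l 16777360)) (b (l 16777928) (a (l 16777368) (l 16777384)))) (b (a (a (a (a (b (l 16777928) (l 16778072)) (a (b (l 16778120) (l 16777752)) (l 16777816))) (l 16777760)) (c (l 16777480) (c (l 16777488) (l 16777488)))) (c (a (a (l 16777528) (l 16777184)) (a (a (l 16777208) (l 16777112)) (b (l 16776968) (l 16776976)))) (a (b (l 16777128) (l 16777104)) (a (a (l 16777216) (l 16777120)) (b (l 16776816) (l 16776856)))))) (a (b (a (a (a (l 16778056) (l 16777976)) (l 16777672)) (c (l 16777088) (l 16777096))) (a (a (l 16777992) (a (a (l 16777664) (l 16777304)) (l 16777904))) (c (l 16777048) (l 16777376)))) (c (a (b (l 16777080) (l 16777056)) (a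 (a (l 16777184) (l 16777024)) (b (l 16776816) (a (l 16777024) (l 16776776))))) (a (b (l 16777248) (a (l 16777464) (l 16777312))) (a (b (l 16777152) (l 16777152)) (c (b (l 16776984) (l 16776984)) (b (l 16776984) (l 16776832)))))))))))), by decide +kernel⟩

def k44_pm_213_t : ∃ t, chk3 f_pm_213_t t 126 4093 1 = true :=
  ⟨(a (a (b (a (b (l 16777320) (a (b (b (l 16774640) (a (l 16777304) (l 16777280))) (a (l 16777288) (c (l 16775984) (l 16776688)))) (b (l 16777312) (b (l 16777304) (a (l 16777288) (l 16777304)))))) (l 16777344)) (a (b (b (b (a (l 16777288) (a (l 16777312) (l 16777280))) (l 16777336)) (l 16777288)) (l 16777280)) (a (b (b (l 16777280) (b (a (l 16777312) (l 16777296)) (a (l 16777296) (l 16775992)))) (l 16776016)) (b (l 16777320) (b (b (a (l 16775984) (l 16777312)) (a (l 16777320) (l 16777288))) (l 16776688)))))) (a (a (b (l 16777376) (b (l 16777336) (b (l 16777320) (b (l 16777280) (a (l 16777320) (l 16777296)))))) (l 16777352)) (l 16777384))) (a (c (l 16776768)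 (l 16776800)) (a (l 16777488) (l 16776872)))), by decide +kernel⟩

def k45_pm_213_t : ∃ t, chk3 f_pm_213_t t 127 4093 1 = true :=
  ⟨(a (b (a (l 16776992) (a (l 16777704) (l 16776424))) (a (a (l 16777512) (l 16777536)) (a (l 16777568) (l 16776280)))) (b (a (a (l 16777112) (c (l 16777144) (l 16777144))) (a (a (l 16777488) (a (l 16777176) (l 16777512))) (a (b (a (a (l 16777888) (a (c (l 16777240) (l 16777568)) (l 16777520))) (c (l 16777008) (l 16777336))) (a (a (l 16777792) (a (l 16777800) (a (l 16777632) (l 16777616)))) (c (l 16777296) (l 16777296)))) (a (b (c (l 16777200) (c (l 16777040) (l 16777208))) (a (a (l 16777456) (l 16777384)) (a (l 16777312) (l 16777160)))) (b (a (c (l 16777136) (l 16776984)) (a (c (l 16777024) (l 16777032)) (c (l 16776784) (l 16776960)))) (a (c (l 16777136) (a (l 16777176) (l 16777112))) (b (c (l 16777000) (l 16776920)) (c (l 16777000) (l 16776928))))))))) (a (a (l 16777288) (c (l 16777304) (l 16777472))) (b (a (c (l 16777368) (l 16777528))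 (a (a (a (l 16777704) (a (l 16777704) (l 16777624))) (a (a (c (l 16777352) (l 16777592)) (l 16777616)) (l 16777360))) (c (a (a (l 16777392) (l 16777264)) (a (l 16777056) (b (l 16776840) (l 16776928)))) (a (a (l 16777400) (l 16777104)) (a (c (l 16777144) (l 16776984)) (a (l 16777048) (c (l 16776984) (l 16776984)))))))) (a (c (l 16777288) (l 16777448)) (a (a (l 16777624) (a (a (a (l 16777624) (c (l 16777288) (l 16777448))) (l 16777416)) (l 16777328))) (c (a (a (l 16777376) (l 16777256)) (a (c (l 16777136) (l 16777056)) (a (l 16777056) (c (l 16776992) (l 16776992))))) (a (a (l 16777376) (l 16777176)) (a (a (l 16777176) (l 16777112)) (b (c (l 16777024) (l 16777024)) (c (l 16776952) (l 16776952)))))))))))), by decide +kernel⟩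

def k46_pm_213_t : ∃ t, chk3 f_pm_213_t t 63 2047 1 = true :=
  ⟨(b (b (b (b (b (a (a (a (l 16777288) (a (a (a (l 16777304) (l 16776656)) (l 16777304)) (l 16777336))) (a (l 16777376) (l 16777424))) (a (a (l 16777472) (l 16776856)) (a (a (l 16777536) (l 16777552)) (b (a (l 16777488) (b (a (a (l 16777584) (a (a (l 16777584) (l 16777560)) (l 16777480))) (a (l 16777144) (c (l 16776920) (l 16776968)))) (l 14))) (l 14))))) (a (l 14) (l 14))) (a (l 14) (l 14))) (l 14)) (l 14)) (l 14)), by decide +kernel⟩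

theorem s47_pm_213_t : ∃ t, chk3 f_pm_213_t t 63 4093 1 = true := ex3_a k44_pm_213_t k45_pm_213_t

theorem s48_pm_213_t : ∃ t, chk3 f_pm_213_t t 63 2046 1 = true := ex3_b k43_pm_213_t s47_pm_213_t

theorem s49_pm_213_t : ∃ t, chk3 f_pm_213_t t 63 1023 1 = true := ex3_b s48_pm_213_t k46_pm_213_t

theorem s50_pm_213_t : ∃ t, chk3 f_pm_213_t t 63 1022 1 = true := ex3_b k41_pm_213_t k42_pm_213_t

theorem s51_pm_213_t : ∃ t, chk3 f_pm_213_t t 63 511 1 = true := ex3_b s50_pm_213_t s49_pm_213_t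

theorem s52_pm_213_t : ∃ t, chk3 f_pm_213_t t 255 510 1 = true := ex3_a k39_pm_213_t k40_pm_213_t

theorem s53_pm_213_t : ∃ t, chk3 f_pm_213_t t 127 510 1 = true := ex3_a k38_pm_213_t s52_pm_213_t

theorem s54_pm_213_t : ∃ t, chk3 f_pm_213_t t 63 510 1 = true := ex3_a k37_pm_213_t s53_pm_213_t

theorem s55_pm_213_t : ∃ t, chk3 f_pm_213_t t 63 255 1 = true := ex3_b s54_pm_213_t s51_pm_213_t

theorem s56_pm_213_t : ∃ t, chk3 f_pm_213_t t 255 254 1 = true := ex3_a k35_pm_213_t k36_pm_213_t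

theorem s57_pm_213_t : ∃ t, chk3 f_pm_213_t t 127 254 1 = true := ex3_a k34_pm_213_t s56_pm_213_t

theorem s58_pm_213_t : ∃ t, chk3 f_pm_213_t t 63 254 1 = true := ex3_a k33_pm_213_t s57_pm_213_t

theorem s59_pm_213_t : ∃ t, chk3 f_pm_213_t t 63 127 1 = true := ex3_b s58_pm_213_t s55_pm_213_t

theorem s60_pm_213_t : ∃ t, chk3 f_pm_213_t t 127 1015 1 = true := ex3_b k31_pm_213_t k32_pm_213_t

theorem s61_pm_213_t : ∃ t, chk3 f_pm_213_t t 63 1015 1 = true := ex3_a k30_pm_213_t s60_pm_213_t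

theorem s62_pm_213_t : ∃ t, chk3 f_pm_213_t t 63 507 1 = true := ex3_b k29_pm_213_t s61_pm_213_t

theorem s63_pm_213_t : ∃ t, chk3 f_pm_213_t t 63 253 1 = true := ex3_b k28_pm_213_t s62_pm_213_t

theorem s64_pm_213_t : ∃ t, chk3 f_pm_213_t t 63 126 1 = true := ex3_b k27_pm_213_t s63_pm_213_t

theorem s65_pm_213_t : ∃ t, chk3 f_pm_213_t t 63 63 1 = true := ex3_b s64_pm_213_t s59_pm_213_t

theorem s66_pm_213_t : ∃ t, chk3 f_pm_213_t t 63 31 1 = true := ex3_b k26_pm_213_t s65_pm_213_t

theorem s67_pm_213_t : ∃ t, chk3 f_pm_213_t t 62 2046 1 = true := ex3_b k23_pm_213_t k24_pm_213_t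

theorem s68_pm_213_t : ∃ t, chk3 f_pm_213_t t 62 1023 1 = true := ex3_b s67_pm_213_t k25_pm_213_t

theorem s69_pm_213_t : ∃ t, chk3 f_pm_213_t t 62 1022 1 = true := ex3_a k21_pm_213_t k22_pm_213_t

theorem s70_pm_213_t : ∃ t, chk3 f_pm_213_t t 62 511 1 = true := ex3_b s69_pm_213_t s68_pm_213_t

theorem s71_pm_213_t : ∃ t, chk3 f_pm_213_t t 62 255 1 = true := ex3_b k20_pm_213_t s70_pm_213_t

theorem s72_pm_213_t : ∃ t, chk3 f_pm_213_t t 62 127 1 = true := ex3_b k19_pm_213_t s71_pm_213_t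

theorem s73_pm_213_t : ∃ t, chk3 f_pm_213_t t 62 63 1 = true := ex3_b k18_pm_213_t s72_pm_213_t

theorem s74_pm_213_t : ∃ t, chk3 f_pm_213_t t 62 31 1 = true := ex3_b k17_pm_213_t s73_pm_213_t

theorem s75_pm_213_t : ∃ t, chk3 f_pm_213_t t 31 31 1 = true := ex3_a s74_pm_213_t s66_pm_213_t

theorem s76_pm_213_t : ∃ t, chk3 f_pm_213_t t 31 15 1 = true := ex3_b k16_pm_213_t s75_pm_213_t

theorem s77_pm_213_t : ∃ t, chk3 f_pm_213_t t 30 510 1 = true := ex3_a k13_pm_213_t k14_pm_213_t

theorem s78_pm_213_t : ∃ t, chk3 f_pm_213_t t 30 255 1 = true := ex3_b s77_pm_213_t k15_pm_213_t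

theorem s79_pm_213_t : ∃ t, chk3 f_pm_213_t t 30 127 1 = true := ex3_b k12_pm_213_t s78_pm_213_t

theorem s80_pm_213_t : ∃ t, chk3 f_pm_213_t t 30 63 1 = true := ex3_b k11_pm_213_t s79_pm_213_t

theorem s81_pm_213_t : ∃ t, chk3 f_pm_213_t t 30 31 1 = true := ex3_b k10_pm_213_t s80_pm_213_t

theorem s82_pm_213_t : ∃ t, chk3 f_pm_213_t t 30 15 1 = true := ex3_b k9_pm_213_t s81_pm_213_t

theorem s83_pm_213_t : ∃ t, chk3 f_pm_213_t t 15 15 1 = true := ex3_a s82_pm_213_t s76_pm_213_t

theorem s84_pm_213_t : ∃ t, chk3 f_pm_213_t t 15 7 1 = true := ex3_b k8_pm_213_t s83_pm_213_t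

theorem s85_pm_213_t : ∃ t, chk3 f_pm_213_t t 14 31 1 = true := ex3_b k6_pm_213_t k7_pm_213_t

theorem s86_pm_213_t : ∃ t, chk3 f_pm_213_t t 14 15 1 = true := ex3_b k5_pm_213_t s85_pm_213_t

theorem s87_pm_213_t : ∃ t, chk3 f_pm_213_t t 14 7 1 = true := ex3_b k4_pm_213_t s86_pm_213_t

theorem s88_pm_213_t : ∃ t, chk3 f_pm_213_t t 7 7 1 = true := ex3_a s87_pm_213_t s84_pm_213_t

theorem s89_pm_213_t : ∃ t, chk3 f_pm_213_t t 7 3 1 = true := ex3_b k3_pm_213_t s88_pm_213_t

theorem s90_pm_213_t : ∃ t, chk3 f_pm_213_t t 3 3 1 = true := ex3_a k2_pm_213_t s89_pm_213_t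

theorem s91_pm_213_t : ∃ t, chk3 f_pm_213_t t 3 1 1 = true := ex3_b k1_pm_213_t s90_pm_213_t

theorem s92_pm_213_t : ∃ t, chk3 f_pm_213_t t 1 1 1 = true := ex3_a k0_pm_213_t s91_pm_213_t

theorem c_pm_213_t : CertNE 0 536870912 536870912 536870912 1040187392 5207648 3 eng mog cd0q2 cd0q1 pd3 true true false .pnn 2 1 3
    ndB0q2 ndB0q1 pcB3 cut_pm_213_t Ext.none :=
  certNE1 (fam := true) (s1 := true) (s2 := false) (a := 2) (b := 1) (c := 3) (cn := .pnn) (n1 := ndB0q2) (n2 := ndB0q1) (pc := pcB3) (cut := cut_pm_213_t) (xt := Ext.none) (P1 := 0) (W1 := 536870912) (P2 := 536870912) (W2 := 536870912) (P3 := 1040187392) (W3 := 5207648) (N0 := 3) (En := eng) (mo := mog) (C1 := cd0q2) (C2 := cd0q1) (C3 := pd3)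
    rfl (fun _ => rfl) s92_pm_213_t

noncomputable def cut_mm_001_s : Cut := Cut.of [[⟨4, 0, 0, 1449551462⟩]]

noncomputable def f_mm_001_s : ℕ → ℕ → ℕ → ℕ → Bool := onCell 0 536870912 0 536870912 1040187392 5207648
    (rowNE 3 eng mog cd0q0 cd0q0 pd1 0 true false false .up 0 0 1 (qsf 0 536870912 0 536870912 1) ndB0q0 ndB0q0 pcB1 cut_mm_001_s Ext.none)

def k0_mm_001_s : ∃ t, chk3 f_mm_001_s t 1 1 1 = true :=
  ⟨(l 4), by decide +kernel⟩

theorem c_mm_001_s : CertNE 0 536870912 0 536870912 1040187392 5207648 3 eng mog cd0q0 cd0q0 pd1 true false false .up 0 0 1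
    ndB0q0 ndB0q0 pcB1 cut_mm_001_s Ext.none :=
  certNE0 (fam := true) (s1 := false) (s2 := false) (a := 0) (b := 0) (c := 1) (cn := .up) (n1 := ndB0q0) (n2 := ndB0q0) (pc := pcB1) (cut := cut_mm_001_s) (xt := Ext.none) (P1 := 0) (W1 := 536870912) (P2 := 0) (W2 := 536870912) (P3 := 1040187392) (W3 := 5207648) (N0 := 3) (En := eng) (mo := mog) (C1 := cd0q0) (C2 := cd0q0) (C3 := pd1)
    rfl k0_mm_001_s

noncomputable def cut_mm_001_t : Cut := Cut.of [[⟨3, 0, 0, 2845415833⟩]]

noncomputable def f_mm_001_t : ℕ → ℕ → ℕ → ℕ → Bool := onCell 0 536870912 0 536870912 1040187392 5207648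
    (rowNE 3 eng mog cd0q0 cd0q0 pd1 0 true false false .up 0 0 1 (qsf 0 536870912 0 536870912 1) ndB0q0 ndB0q0 pcB1 cut_mm_001_t Ext.none)

def k0_mm_001_t : ∃ t, chk3 f_mm_001_t t 1 1 1 = true :=
  ⟨(l 4), by decide +kernel⟩

theorem c_mm_001_t : CertNE 0 536870912 0 536870912 1040187392 5207648 3 eng mog cd0q0 cd0q0 pd1 true false false .up 0 0 1
    ndB0q0 ndB0q0 pcB1 cut_mm_001_t Ext.none :=
  certNE0 (fam := true) (s1 := false) (s2 := false) (a := 0) (b := 0) (c := 1) (cn := .up) (n1 := ndB0q0) (n2 := ndB0q0) (pc := pcB1) (cut := cut_mm_001_t) (xt := Ext.none) (P1 := 0) (W1 := 536870912) (P2 := 0) (W2 := 536870912) (P3 := 1040187392) (W3 := 5207648) (N0 := 3) (En := eng) (mo := mog) (C1 := cd0q0) (C2 := cd0q0) (C3 := pd1)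
    rfl k0_mm_001_t

noncomputable def cut_mm_011_s : Cut := Cut.of [[⟨4, 0, 0, 1449551462⟩]]

noncomputable def f_mm_011_s : ℕ → ℕ → ℕ → ℕ → Bool := onCell 0 536870912 536870912 536870912 1040187392 5207648
    (rowNE 3 eng mog cd0q0 cd0q1 pd1 0 true false false .pnn 0 1 1 (qsf 0 536870912 536870912 536870912 1) ndB0q0 ndB0q1 pcB1 cut_mm_011_s Ext.none)

def k0_mm_011_s : ∃ t, chk3 f_mm_011_s t 1 1 1 = true :=
  ⟨(l 6), by decide +kernel⟩

theorem c_mm_011_s : CertNE 0 536870912 536870912 536870912 1040187392 5207648 3 eng mog cd0q0 cd0q1 pd1 true false false .pnn 0 1 1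
    ndB0q0 ndB0q1 pcB1 cut_mm_011_s Ext.none :=
  certNE0 (fam := true) (s1 := false) (s2 := false) (a := 0) (b := 1) (c := 1) (cn := .pnn) (n1 := ndB0q0) (n2 := ndB0q1) (pc := pcB1) (cut := cut_mm_011_s) (xt := Ext.none) (P1 := 0) (W1 := 536870912) (P2 := 536870912) (W2 := 536870912) (P3 := 1040187392) (W3 := 5207648) (N0 := 3) (En := eng) (mo := mog) (C1 := cd0q0) (C2 := cd0q1) (C3 := pd1)
    rfl k0_mm_011_s

noncomputable def cut_mm_011_t : Cut := Cut.of [[⟨3, 0, 0, 2845415833⟩]]

noncomputable def f_mm_011_t : ℕ → ℕ → ℕ → ℕ → Bool := onCell 0 536870912 536870912 536870912 1040187392 5207648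
    (rowNE 3 eng mog cd0q0 cd0q1 pd1 0 true false false .pnn 0 1 1 (qsf 0 536870912 536870912 536870912 1) ndB0q0 ndB0q1 pcB1 cut_mm_011_t Ext.none)

def k0_mm_011_t : ∃ t, chk3 f_mm_011_t t 1 1 1 = true :=
  ⟨(b (l 4) (l 5)), by decide +kernel⟩

theorem c_mm_011_t : CertNE 0 536870912 536870912 536870912 1040187392 5207648 3 eng mog cd0q0 cd0q1 pd1 true false false .pnn 0 1 1
    ndB0q0 ndB0q1 pcB1 cut_mm_011_t Ext.none :=
  certNE0 (fam := true) (s1 := false) (s2 := false) (a := 0) (b := 1) (c := 1) (cn := .pnn) (n1 := ndB0q0) (n2 := ndB0q1) (pc := pcB1) (cut := cut_mm_011_t) (xt := Ext.none) (P1 := 0) (W1 := 536870912) (P2 := 536870912) (W2 := 536870912) (P3 := 1040187392) (W3 := 5207648) (N0 := 3) (En := eng) (mo := mog) (C1 := cd0q0) (C2 := cd0q1) (C3 := pd1)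
    rfl k0_mm_011_t

noncomputable def cut_mm_012_s : Cut := Cut.of [[⟨4, 0, 0, 1449551462⟩]]

noncomputable def f_mm_012_s : ℕ → ℕ → ℕ → ℕ → Bool := onCell 0 536870912 536870912 536870912 1040187392 5207648
    (rowNE 3 eng mog cd0q0 cd0q1 pd2 0 true false false .pnp 0 1 2 (qsf 0 536870912 536870912 536870912 2) ndB0q0 ndB0q1 pcB2 cut_mm_012_s Ext.none)

def k0_mm_012_s : ∃ t, chk3 f_mm_012_s t 1 1 1 = true :=
  ⟨(l 6), by decide +kernel⟩

theorem c_mm_012_s : CertNE 0 536870912 536870912 536870912 1040187392 5207648 3 eng mog cd0q0 cd0q1 pd2 true false false .pnp 0 1 2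
    ndB0q0 ndB0q1 pcB2 cut_mm_012_s Ext.none :=
  certNE0 (fam := true) (s1 := false) (s2 := false) (a := 0) (b := 1) (c := 2) (cn := .pnp) (n1 := ndB0q0) (n2 := ndB0q1) (pc := pcB2) (cut := cut_mm_012_s) (xt := Ext.none) (P1 := 0) (W1 := 536870912) (P2 := 536870912) (W2 := 536870912) (P3 := 1040187392) (W3 := 5207648) (N0 := 3) (En := eng) (mo := mog) (C1 := cd0q0) (C2 := cd0q1) (C3 := pd2)
    rfl k0_mm_012_s

noncomputable def cut_mm_012_t : Cut := Cut.of [[⟨3, 0, 0, 2845415833⟩]]

noncomputable def f_mm_012_t : ℕ → ℕ → ℕ → ℕ → Bool := onCell 0 536870912 536870912 536870912 1040187392 5207648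
    (rowNE 3 eng mog cd0q0 cd0q1 pd2 0 true false false .pnp 0 1 2 (qsf 0 536870912 536870912 536870912 2) ndB0q0 ndB0q1 pcB2 cut_mm_012_t Ext.none)

def k0_mm_012_t : ∃ t, chk3 f_mm_012_t t 1 1 1 = true :=
  ⟨(b (l 4) (l 5)), by decide +kernel⟩

theorem c_mm_012_t : CertNE 0 536870912 536870912 536870912 1040187392 5207648 3 eng mog cd0q0 cd0q1 pd2 true false false .pnp 0 1 2
    ndB0q0 ndB0q1 pcB2 cut_mm_012_t Ext.none :=
  certNE0 (fam := true) (s1 := false) (s2 := false) (a := 0) (b := 1) (c := 2) (cn := .pnp) (n1 := ndB0q0) (n2 := ndB0q1) (pc := pcB2) (cut := cut_mm_012_t) (xt := Ext.none) (P1 := 0) (W1 := 536870912) (P2 := 536870912) (W2 := 536870912) (P3 := 1040187392) (W3 := 5207648) (N0 := 3) (En := eng) (mo := mog) (C1 := cd0q0) (C2 := cd0q1) (C3 := pd2)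
    rfl k0_mm_012_t

noncomputable def cut_mm_022_s : Cut := Cut.of [[⟨4, 0, 0, 1449551462⟩]]

noncomputable def f_mm_022_s : ℕ → ℕ → ℕ → ℕ → Bool := onCell 0 536870912 0 536870912 1040187392 5207648
    (rowNE 3 eng mog cd0q0 cd0q2 pd2 0 true false false .pp 0 2 2 (qsf 0 536870912 0 536870912 2) ndB0q0 ndB0q2 pcB2 cut_mm_022_s Ext.none)

def k0_mm_022_s : ∃ t, chk3 f_mm_022_s t 1 1 1 = true :=
  ⟨(l 5), by decide +kernel⟩

theorem c_mm_022_s : CertNE 0 536870912 0 536870912 1040187392 5207648 3 eng mog cd0q0 cd0q2 pd2 true false false .pp 0 2 2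
    ndB0q0 ndB0q2 pcB2 cut_mm_022_s Ext.none :=
  certNE0 (fam := true) (s1 := false) (s2 := false) (a := 0) (b := 2) (c := 2) (cn := .pp) (n1 := ndB0q0) (n2 := ndB0q2) (pc := pcB2) (cut := cut_mm_022_s) (xt := Ext.none) (P1 := 0) (W1 := 536870912) (P2 := 0) (W2 := 536870912) (P3 := 1040187392) (W3 := 5207648) (N0 := 3) (En := eng) (mo := mog) (C1 := cd0q0) (C2 := cd0q2) (C3 := pd2)
    rfl k0_mm_022_s

noncomputable def cut_mm_022_t : Cut := Cut.of [[⟨3, 0, 0, 2845415833⟩]]

noncomputable def f_mm_022_t : ℕ → ℕ → ℕ → ℕ → Bool := onCell 0 536870912 0 536870912 1040187392 5207648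
    (rowNE 3 eng mog cd0q0 cd0q2 pd2 0 true false false .pp 0 2 2 (qsf 0 536870912 0 536870912 2) ndB0q0 ndB0q2 pcB2 cut_mm_022_t Ext.none)

def k0_mm_022_t : ∃ t, chk3 f_mm_022_t t 1 1 1 = true :=
  ⟨(l 5), by decide +kernel⟩

theorem c_mm_022_t : CertNE 0 536870912 0 536870912 1040187392 5207648 3 eng mog cd0q0 cd0q2 pd2 true false false .pp 0 2 2
    ndB0q0 ndB0q2 pcB2 cut_mm_022_t Ext.none :=
  certNE0 (fam := true) (s1 := false) (s2 := false) (a := 0) (b := 2) (c := 2) (cn := .pp) (n1 := ndB0q0) (n2 := ndB0q2) (pc := pcB2) (cut := cut_mm_022_t) (xt := Ext.none) (P1 := 0) (W1 := 536870912) (P2 := 0) (W2 := 536870912) (P3 := 1040187392) (W3 := 5207648) (N0 := 3) (En := eng) (mo := mog) (C1 := cd0q0) (C2 := cd0q2) (C3 := pd2)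
    rfl k0_mm_022_t

noncomputable def cut_mm_023_s : Cut := Cut.of [[⟨4, 0, 0, 1449551462⟩]]

noncomputable def f_mm_023_s : ℕ → ℕ → ℕ → ℕ → Bool := onCell 0 536870912 0 536870912 1040187392 5207648
    (rowNE 3 eng mog cd0q0 cd0q2 pd3 0 true false false .up 0 2 3 (qsf 0 536870912 0 536870912 3) ndB0q0 ndB0q2 pcB3 cut_mm_023_s Ext.none)

def k0_mm_023_s : ∃ t, chk3 f_mm_023_s t 1 1 1 = true :=
  ⟨(l 5), by decide +kernel⟩

theorem c_mm_023_s : CertNE 0 536870912 0 536870912 1040187392 5207648 3 eng mog cd0q0 cd0q2 pd3 true false false .up 0 2 3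
    ndB0q0 ndB0q2 pcB3 cut_mm_023_s Ext.none :=
  certNE0 (fam := true) (s1 := false) (s2 := false) (a := 0) (b := 2) (c := 3) (cn := .up) (n1 := ndB0q0) (n2 := ndB0q2) (pc := pcB3) (cut := cut_mm_023_s) (xt := Ext.none) (P1 := 0) (W1 := 536870912) (P2 := 0) (W2 := 536870912) (P3 := 1040187392) (W3 := 5207648) (N0 := 3) (En := eng) (mo := mog) (C1 := cd0q0) (C2 := cd0q2) (C3 := pd3)
    rfl k0_mm_023_s

noncomputable def cut_mm_023_t : Cut := Cut.of [[⟨3, 0, 0, 2845415833⟩]]

noncomputable def f_mm_023_t : ℕ → ℕ → ℕ → ℕ → Bool := onCell 0 536870912 0 536870912 1040187392 5207648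
    (rowNE 3 eng mog cd0q0 cd0q2 pd3 0 true false false .up 0 2 3 (qsf 0 536870912 0 536870912 3) ndB0q0 ndB0q2 pcB3 cut_mm_023_t Ext.none)

def k0_mm_023_t : ∃ t, chk3 f_mm_023_t t 1 1 1 = true :=
  ⟨(l 5), by decide +kernel⟩

theorem c_mm_023_t : CertNE 0 536870912 0 536870912 1040187392 5207648 3 eng mog cd0q0 cd0q2 pd3 true false false .up 0 2 3
    ndB0q0 ndB0q2 pcB3 cut_mm_023_t Ext.none :=
  certNE0 (fam := true) (s1 := false) (s2 := false) (a := 0) (b := 2) (c := 3) (cn := .up) (n1 := ndB0q0) (n2 := ndB0q2) (pc := pcB3) (cut := cut_mm_023_t) (xt := Ext.none) (P1 := 0) (W1 := 536870912) (P2 := 0) (W2 := 536870912) (P3 := 1040187392) (W3 := 5207648) (N0 := 3) (En := eng) (mo := mog) (C1 := cd0q0) (C2 := cd0q2) (C3 := pd3)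
    rfl k0_mm_023_t

noncomputable def cut_mm_101_s : Cut := Cut.of [[⟨4, 0, 0, 1449551462⟩], [⟨0, 1, 0, 26843545⟩, ⟨1, 0, 0, 26843545⟩, ⟨2, 1, 0, 26843545⟩]]

noncomputable def f_mm_101_s : ℕ → ℕ → ℕ → ℕ → Bool := onCell 536870912 536870912 0 536870912 1040187392 5207648
    (rowNE 3 eng mog cd0q1 cd0q0 pd1 0 true false false .npn 1 0 1 (qsf 536870912 536870912 0 536870912 1) ndB0q1 ndB0q0 pcB1 cut_mm_101_s Ext.none)

def k0_mm_101_s : ∃ t, chk3 f_mm_101_s t 1 1 1 = true :=
  ⟨(l 6), by decide +kernel⟩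

theorem c_mm_101_s : CertNE 536870912 536870912 0 536870912 1040187392 5207648 3 eng mog cd0q1 cd0q0 pd1 true false false .npn 1 0 1
    ndB0q1 ndB0q0 pcB1 cut_mm_101_s Ext.none :=
  certNE0 (fam := true) (s1 := false) (s2 := false) (a := 1) (b := 0) (c := 1) (cn := .npn) (n1 := ndB0q1) (n2 := ndB0q0) (pc := pcB1) (cut := cut_mm_101_s) (xt := Ext.none) (P1 := 536870912) (W1 := 536870912) (P2 := 0) (W2 := 536870912) (P3 := 1040187392) (W3 := 5207648) (N0 := 3) (En := eng) (mo := mog) (C1 := cd0q1) (C2 := cd0q0) (C3 := pd1)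
    rfl k0_mm_101_s

noncomputable def cut_mm_101_t : Cut := Cut.of [[⟨3, 0, 0, 2845415833⟩], [⟨0, 1, 0, 26843545⟩, ⟨1, 0, 0, 26843545⟩, ⟨2, 1, 0, 26843545⟩]]

noncomputable def f_mm_101_t : ℕ → ℕ → ℕ → ℕ → Bool := onCell 536870912 536870912 0 536870912 1040187392 5207648
    (rowNE 3 eng mog cd0q1 cd0q0 pd1 0 true false false .npn 1 0 1 (qsf 536870912 536870912 0 536870912 1) ndB0q1 ndB0q0 pcB1 cut_mm_101_t Ext.none)

def k0_mm_101_t : ∃ t, chk3 f_mm_101_t t 1 1 1 = true :=
  ⟨(a (l 4) (b (a (l 4) (b (a (l 4) (b (a (l 4) (b (a (l 4) (b (l 14) (l 4))) (l 4))) (l 4))) (l 4))) (l 4))), by decide +kernel⟩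

theorem c_mm_101_t : CertNE 536870912 536870912 0 536870912 1040187392 5207648 3 eng mog cd0q1 cd0q0 pd1 true false false .npn 1 0 1
    ndB0q1 ndB0q0 pcB1 cut_mm_101_t Ext.none :=
  certNE0 (fam := true) (s1 := false) (s2 := false) (a := 1) (b := 0) (c := 1) (cn := .npn) (n1 := ndB0q1) (n2 := ndB0q0) (pc := pcB1) (cut := cut_mm_101_t) (xt := Ext.none) (P1 := 536870912) (W1 := 536870912) (P2 := 0) (W2 := 536870912) (P3 := 1040187392) (W3 := 5207648) (N0 := 3) (En := eng) (mo := mog) (C1 := cd0q1) (C2 := cd0q0) (C3 := pd1)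
    rfl k0_mm_101_t

noncomputable def cut_mm_102_s : Cut := Cut.of [[⟨4, 0, 0, 1449551462⟩], [⟨0, 1, 0, 26843545⟩, ⟨1, 0, 0, 26843545⟩, ⟨2, 1, 0, 26843545⟩]]

noncomputable def f_mm_102_s : ℕ → ℕ → ℕ → ℕ → Bool := onCell 536870912 536870912 0 536870912 1040187392 5207648
    (rowNE 3 eng mog cd0q1 cd0q0 pd2 0 true false false .npp 1 0 2 (qsf 536870912 536870912 0 536870912 2) ndB0q1 ndB0q0 pcB2 cut_mm_102_s Ext.none)

def k0_mm_102_s : ∃ t, chk3 f_mm_102_s t 1 1 1 = true :=
  ⟨(l 6), by decide +kernel⟩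

theorem c_mm_102_s : CertNE 536870912 536870912 0 536870912 1040187392 5207648 3 eng mog cd0q1 cd0q0 pd2 true false false .npp 1 0 2
    ndB0q1 ndB0q0 pcB2 cut_mm_102_s Ext.none :=
  certNE0 (fam := true) (s1 := false) (s2 := false) (a := 1) (b := 0) (c := 2) (cn := .npp) (n1 := ndB0q1) (n2 := ndB0q0) (pc := pcB2) (cut := cut_mm_102_s) (xt := Ext.none) (P1 := 536870912) (W1 := 536870912) (P2 := 0) (W2 := 536870912) (P3 := 1040187392) (W3 := 5207648) (N0 := 3) (En := eng) (mo := mog) (C1 := cd0q1) (C2 := cd0q0) (C3 := pd2)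
    rfl k0_mm_102_s

noncomputable def cut_mm_102_t : Cut := Cut.of [[⟨3, 0, 0, 2845415833⟩], [⟨0, 1, 0, 26843545⟩, ⟨1, 0, 0, 26843545⟩, ⟨2, 1, 0, 26843545⟩]]

noncomputable def f_mm_102_t : ℕ → ℕ → ℕ → ℕ → Bool := onCell 536870912 536870912 0 536870912 1040187392 5207648
    (rowNE 3 eng mog cd0q1 cd0q0 pd2 0 true false false .npp 1 0 2 (qsf 536870912 536870912 0 536870912 2) ndB0q1 ndB0q0 pcB2 cut_mm_102_t Ext.none)

def k0_mm_102_t : ∃ t, chk3 f_mm_102_t t 1 1 1 = true :=
  ⟨(a (l 4) (b (a (l 4) (b (a (l 4) (b (a (l 4) (b (a (l 4) (b (l 14) (l 4))) (l 4))) (l 4))) (l 4))) (l 4))), by decide +kernel⟩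

theorem c_mm_102_t : CertNE 536870912 536870912 0 536870912 1040187392 5207648 3 eng mog cd0q1 cd0q0 pd2 true false false .npp 1 0 2
    ndB0q1 ndB0q0 pcB2 cut_mm_102_t Ext.none :=
  certNE0 (fam := true) (s1 := false) (s2 := false) (a := 1) (b := 0) (c := 2) (cn := .npp) (n1 := ndB0q1) (n2 := ndB0q0) (pc := pcB2) (cut := cut_mm_102_t) (xt := Ext.none) (P1 := 536870912) (W1 := 536870912) (P2 := 0) (W2 := 536870912) (P3 := 1040187392) (W3 := 5207648) (N0 := 3) (En := eng) (mo := mog) (C1 := cd0q1) (C2 := cd0q0) (C3 := pd2)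
    rfl k0_mm_102_t

noncomputable def cut_mm_112_s : Cut := Cut.of [[⟨4, 0, 0, 1449551462⟩]]

noncomputable def f_mm_112_s : ℕ → ℕ → ℕ → ℕ → Bool := onCell 536870912 536870912 536870912 536870912 1040187392 5207648
    (rowNE 3 eng mog cd0q1 cd0q1 pd2 0 true false false .dn 1 1 2 (qsf 536870912 536870912 536870912 536870912 2) ndB0q1 ndB0q1 pcB2 cut_mm_112_s Ext.none)

def k0_mm_112_s : ∃ t, chk3 f_mm_112_s t 1 1 1 = true :=
  ⟨(l 4), by decide +kernel⟩

theorem c_mm_112_s : CertNE 536870912 536870912 536870912 536870912 1040187392 5207648 3 eng mog cd0q1 cd0q1 pd2 true false false .dn 1 1 2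
    ndB0q1 ndB0q1 pcB2 cut_mm_112_s Ext.none :=
  certNE0 (fam := true) (s1 := false) (s2 := false) (a := 1) (b := 1) (c := 2) (cn := .dn) (n1 := ndB0q1) (n2 := ndB0q1) (pc := pcB2) (cut := cut_mm_112_s) (xt := Ext.none) (P1 := 536870912) (W1 := 536870912) (P2 := 536870912) (W2 := 536870912) (P3 := 1040187392) (W3 := 5207648) (N0 := 3) (En := eng) (mo := mog) (C1 := cd0q1) (C2 := cd0q1) (C3 := pd2)
    rfl k0_mm_112_s

noncomputable def cut_mm_112_t : Cut := Cut.of [[⟨3, 0, 0, 2845415833⟩]]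

noncomputable def f_mm_112_t : ℕ → ℕ → ℕ → ℕ → Bool := onCell 536870912 536870912 536870912 536870912 1040187392 5207648
    (rowNE 3 eng mog cd0q1 cd0q1 pd2 0 true false false .dn 1 1 2 (qsf 536870912 536870912 536870912 536870912 2) ndB0q1 ndB0q1 pcB2 cut_mm_112_t Ext.none)

def k0_mm_112_t : ∃ t, chk3 f_mm_112_t t 1 1 1 = true :=
  ⟨(l 4), by decide +kernel⟩

theorem c_mm_112_t : CertNE 536870912 536870912 536870912 536870912 1040187392 5207648 3 eng mog cd0q1 cd0q1 pd2 true false false .dn 1 1 2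
    ndB0q1 ndB0q1 pcB2 cut_mm_112_t Ext.none :=
  certNE0 (fam := true) (s1 := false) (s2 := false) (a := 1) (b := 1) (c := 2) (cn := .dn) (n1 := ndB0q1) (n2 := ndB0q1) (pc := pcB2) (cut := cut_mm_112_t) (xt := Ext.none) (P1 := 536870912) (W1 := 536870912) (P2 := 536870912) (W2 := 536870912) (P3 := 1040187392) (W3 := 5207648) (N0 := 3) (En := eng) (mo := mog) (C1 := cd0q1) (C2 := cd0q1) (C3 := pd2)
    rfl k0_mm_112_t

noncomputable def cut_mm_113_s : Cut := Cut.of [[⟨4, 0, 0, 1449551462⟩]]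

noncomputable def f_mm_113_s : ℕ → ℕ → ℕ → ℕ → Bool := onCell 536870912 536870912 536870912 536870912 1040187392 5207648
    (rowNE 3 eng mog cd0q1 cd0q1 pd3 0 true false false .nn 1 1 3 (qsf 536870912 536870912 536870912 536870912 3) ndB0q1 ndB0q1 pcB3 cut_mm_113_s Ext.none)

def k0_mm_113_s : ∃ t, chk3 f_mm_113_s t 1 1 1 = true :=
  ⟨(l 4), by decide +kernel⟩

theorem c_mm_113_s : CertNE 536870912 536870912 536870912 536870912 1040187392 5207648 3 eng mog cd0q1 cd0q1 pd3 true false false .nn 1 1 3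
    ndB0q1 ndB0q1 pcB3 cut_mm_113_s Ext.none :=
  certNE0 (fam := true) (s1 := false) (s2 := false) (a := 1) (b := 1) (c := 3) (cn := .nn) (n1 := ndB0q1) (n2 := ndB0q1) (pc := pcB3) (cut := cut_mm_113_s) (xt := Ext.none) (P1 := 536870912) (W1 := 536870912) (P2 := 536870912) (W2 := 536870912) (P3 := 1040187392) (W3 := 5207648) (N0 := 3) (En := eng) (mo := mog) (C1 := cd0q1) (C2 := cd0q1) (C3 := pd3)
    rfl k0_mm_113_s

noncomputable def cut_mm_113_t : Cut := Cut.of [[⟨3, 0, 0, 2845415833⟩]]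

noncomputable def f_mm_113_t : ℕ → ℕ → ℕ → ℕ → Bool := onCell 536870912 536870912 536870912 536870912 1040187392 5207648
    (rowNE 3 eng mog cd0q1 cd0q1 pd3 0 true false false .nn 1 1 3 (qsf 536870912 536870912 536870912 536870912 3) ndB0q1 ndB0q1 pcB3 cut_mm_113_t Ext.none)

def k0_mm_113_t : ∃ t, chk3 f_mm_113_t t 1 1 1 = true :=
  ⟨(l 4), by decide +kernel⟩

theorem c_mm_113_t : CertNE 536870912 536870912 536870912 536870912 1040187392 5207648 3 eng mog cd0q1 cd0q1 pd3 true false false .nn 1 1 3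
    ndB0q1 ndB0q1 pcB3 cut_mm_113_t Ext.none :=
  certNE0 (fam := true) (s1 := false) (s2 := false) (a := 1) (b := 1) (c := 3) (cn := .nn) (n1 := ndB0q1) (n2 := ndB0q1) (pc := pcB3) (cut := cut_mm_113_t) (xt := Ext.none) (P1 := 536870912) (W1 := 536870912) (P2 := 536870912) (W2 := 536870912) (P3 := 1040187392) (W3 := 5207648) (N0 := 3) (En := eng) (mo := mog) (C1 := cd0q1) (C2 := cd0q1) (C3 := pd3)
    rfl k0_mm_113_t

noncomputable def cut_mm_123_s : Cut := Cut.of [[⟨4, 0, 0, 1449551462⟩]]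

noncomputable def f_mm_123_s : ℕ → ℕ → ℕ → ℕ → Bool := onCell 536870912 536870912 0 536870912 1040187392 5207648
    (rowNE 3 eng mog cd0q1 cd0q2 pd3 0 true false false .npn 1 2 3 (qsf 536870912 536870912 0 536870912 3) ndB0q1 ndB0q2 pcB3 cut_mm_123_s Ext.none)

def k0_mm_123_s : ∃ t, chk3 f_mm_123_s t 1 1 1 = true :=
  ⟨(l 6), by decide +kernel⟩

theorem c_mm_123_s : CertNE 536870912 536870912 0 536870912 1040187392 5207648 3 eng mog cd0q1 cd0q2 pd3 true false false .npn 1 2 3
    ndB0q1 ndB0q2 pcB3 cut_mm_123_s Ext.none :=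
  certNE0 (fam := true) (s1 := false) (s2 := false) (a := 1) (b := 2) (c := 3) (cn := .npn) (n1 := ndB0q1) (n2 := ndB0q2) (pc := pcB3) (cut := cut_mm_123_s) (xt := Ext.none) (P1 := 536870912) (W1 := 536870912) (P2 := 0) (W2 := 536870912) (P3 := 1040187392) (W3 := 5207648) (N0 := 3) (En := eng) (mo := mog) (C1 := cd0q1) (C2 := cd0q2) (C3 := pd3)
    rfl k0_mm_123_s

noncomputable def cut_mm_123_t : Cut := Cut.of [[⟨3, 0, 0, 2845415833⟩]]

noncomputable def f_mm_123_t : ℕ → ℕ → ℕ → ℕ → Bool := onCell 536870912 536870912 0 536870912 1040187392 5207648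
    (rowNE 3 eng mog cd0q1 cd0q2 pd3 0 true false false .npn 1 2 3 (qsf 536870912 536870912 0 536870912 3) ndB0q1 ndB0q2 pcB3 cut_mm_123_t Ext.none)

def k0_mm_123_t : ∃ t, chk3 f_mm_123_t t 1 1 1 = true :=
  ⟨(a (l 5) (l 4)), by decide +kernel⟩

theorem c_mm_123_t : CertNE 536870912 536870912 0 536870912 1040187392 5207648 3 eng mog cd0q1 cd0q2 pd3 true false false .npn 1 2 3
    ndB0q1 ndB0q2 pcB3 cut_mm_123_t Ext.none :=
  certNE0 (fam := true) (s1 := false) (s2 := false) (a := 1) (b := 2) (c := 3) (cn := .npn) (n1 := ndB0q1) (n2 := ndB0q2) (pc := pcB3) (cut := cut_mm_123_t) (xt := Ext.none) (P1 := 536870912) (W1 := 536870912) (P2 := 0) (W2 := 536870912) (P3 := 1040187392) (W3 := 5207648) (N0 := 3) (En := eng) (mo := mog) (C1 := cd0q1) (C2 := cd0q2) (C3 := pd3)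
    rfl k0_mm_123_t

noncomputable def cut_mm_202_s : Cut := Cut.of [[⟨4, 0, 0, 1449551462⟩], [⟨0, 1, 0, 22369621⟩, ⟨1, 0, 0, 22369621⟩, ⟨2, 1, 0, 22369621⟩]]

noncomputable def f_mm_202_s : ℕ → ℕ → ℕ → ℕ → Bool := onCell 0 536870912 0 536870912 1040187392 5207648
    (rowNE 3 eng mog cd0q2 cd0q0 pd2 0 true false false .pp 2 0 2 (qsf 0 536870912 0 536870912 2) ndB0q2 ndB0q0 pcB2 cut_mm_202_s Ext.none)

def k0_mm_202_s : ∃ t, chk3 f_mm_202_s t 1 1 1 = true :=
  ⟨(l 6), by decide +kernel⟩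

theorem c_mm_202_s : CertNE 0 536870912 0 536870912 1040187392 5207648 3 eng mog cd0q2 cd0q0 pd2 true false false .pp 2 0 2
    ndB0q2 ndB0q0 pcB2 cut_mm_202_s Ext.none :=
  certNE0 (fam := true) (s1 := false) (s2 := false) (a := 2) (b := 0) (c := 2) (cn := .pp) (n1 := ndB0q2) (n2 := ndB0q0) (pc := pcB2) (cut := cut_mm_202_s) (xt := Ext.none) (P1 := 0) (W1 := 536870912) (P2 := 0) (W2 := 536870912) (P3 := 1040187392) (W3 := 5207648) (N0 := 3) (En := eng) (mo := mog) (C1 := cd0q2) (C2 := cd0q0) (C3 := pd2)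
    rfl k0_mm_202_s

end Pool.Agent.Strip051.G.I9688_9736.Tab.CS.BA00

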