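import Pool.Agent.Strip051.G.I9688_9736.StH
import Pool.Agent.Strip051.G.I9688_9736.StF

/-! # Unit strips 5 (generated) -/

set_option linter.all false
set_option maxRecDepth 100000

namespace Pool.Agent.Strip051.G.I9688_9736.Tab.St.C

open Pool.Agent.Strip051.PB Pool.Agent.Strip051.PB.T Pool.Agent.StripNear Pool.Agent.Strip051.LC
open Pool.Agent.Strip051.G.I9688_9736.Tab Pool.Agent.Strip051.G.I9688_9736.Tab.St

noncomputable def cut_B00pp_022_s1 : Cut := Cut.of [[⟨4, 0, 0, 1449551462⟩], [⟨0, 0, 0, 22369621⟩, ⟨1, 1, 0, 22369621⟩, ⟨2, 1, 0, 22369621⟩]]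

noncomputable def f_B00pp_022_s1 : ℕ → ℕ → ℕ → ℕ → Bool := onCell 1073741824 536870912 0 536870912 1040187392 5207648
    (rowF 2 false true true .pp 0 2 2 (qsf 0 536870912 0 536870912 2) ndB0q0 ndB0q2 pcB2 cut_B00pp_022_s1 Ext.none)

def k0_B00pp_022_s1 : ∃ t, chk3 f_B00pp_022_s1 t 4 2 1 = true :=
  ⟨(a (b (l 6) (a (b (l 6) (b (l 6) (a (a (b (l 16576120) (l 16583056)) (l 16502800)) (l 16552928)))) (l 6))) (l 6)), by decide +kernel⟩

def k1_B00pp_022_s1 : ∃ t, chk3 f_B00pp_022_s1 t 8 6 1 = true :=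
  ⟨(a (b (a (a (b (b (a (l 16589608) (l 16591560)) (a (a (l 16597856) (l 16598688)) (l 16600344))) (a (b (b (l 16605896) (l 16606272)) (a (b (l 16617208) (l 16623680)) (l 16621064))) (b (l 16610608) (l 16622352)))) (b (b (l 16596504) (l 16605016)) (b (l 16614784) (l 16625752)))) (b (a (l 16609664) (l 16603528)) (a (a (l 16541128) (l 16628648)) (b (l 16620040) (l 16630288))))) (a (b (b (a (a (a (b (l 16630552) (l 16637816)) (l 16634592)) (l 16635464)) (l 16616768)) (a (a (a (b (l 16645440) (l 16653400)) (l 16639000)) (l 16639264)) (a (l 16650240) (l 16650784)))) (a (b (a (a (b (l 16661640) (a (l 16670264) (l 16669984))) (b (l 16661384) (l 16669576))) (b (l 16661032) (l 16668736))) (b (a (a (a (l 16668520) (l 16678560)) (l 16677888)) (l 16655696)) (b (a (a (l 16685344) (l 16684168)) (l 16682256)) (a (a (l 16684496) (l 16688376)) (l 16685720))))) (b (b (l 16639744) (l 16645872)) (a (b (l 16674176) (l 16679824)) (l 16630384)))))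 (b (a (b (l 16642736) (l 16651528)) (b (l 16642392) (l 16648824))) (a (b (a (l 16576544) (l 16657040)) (l 16661968)) (b (l 16648296) (l 16643536)))))) (b (a (b (a (l 16577344) (l 16550816)) (a (l 16604952) (l 16589640))) (b (l 16435872) (l 16573168))) (a (b (a (l 16640728) (l 16631576)) (a (l 16585232) (l 16519480))) (b (l 16523176) (a (l 16495872) (l 16556056)))))), by decide +kernel⟩

def k2_B00pp_022_s1 : ∃ t, chk3 f_B00pp_022_s1 t 64 28 1 = true :=
  ⟨(b (a (a (b (b (b (l 16693080) (l 16689992)) (a (b (l 16697848) (l 16694768)) (l 16687440))) (b (a (a (b (a (l 16692016) (l 16691728)) (l 16699112)) (c (l 16692544) (l 16691952))) (a (l 16691584) (l 16680408))) (b (a (a (b (l 16700456) (l 16700704)) (l 16695016)) (l 16704328)) (a (a (c (b (l 16705872) (l 16706176)) (l 16701472)) (a (l 16695896) (l 16695904))) (l 16695456))))) (b (b (l 16692400) (l 16675208)) (b (l 16689040) (l 16702504)))) (a (b (l 16670960) (l 16676488))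 (b (l 16689056) (l 16693448)))) (b (a (a (b (b (a (a (c (a (b (l 16706488) (l 16706832)) (l 16706696)) (b (l 16701952) (l 16707552))) (l 16701872)) (l 16696808)) (a (a (c (a (a (b (l 16707184) (l 16707576)) (l 16704792)) (l 16707472)) (b (l 16707928) (l 16705704))) (l 16702696)) (l 16697744))) (a (a (b (c (a (b (b (l 16707904) (l 16708120)) (b (l 16708344) (l 16708568))) (l 16708344)) (a (b (l 16708704) (l 16709152)) (l 16709040))) (a (b (c (b (l 16708800) (l 16709048)) (l 16709624)) (c (b (l 16709288) (l 16709544)) (l 16710112))) (c (l 16709312) (l 16710016)))) (b (a (l 16703568) (l 16698448)) (l 16704656))) (b (l 16698784) (l 16699912)))) (b (l 16694616) (l 16696856))) (a (l 16680576) (l 16696456))) (a (b (a (b (a (a (c (a (b (b (l 16709800) (l 16710064)) (a (l 16710432) (l 16710520))) (l 16710384)) (b (l 16708096) (l 16708648))) (l 16705776)) (l 16701136)) (a (b (a (a (c (l 16711040) (l 16711744)) (l 16706360)) (l 16706680))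 (a (c (l 16709120) (l 16712448)) (l 16702072))) (l 16702464))) (l 16698736)) (a (a (a (b (a (c (l 16709944) (l 16708032)) (l 16707928)) (c (l 16708784) (l 16709504))) (b (l 16703064) (l 16704480))) (l 16704576)) (l 16710752))) (a (l 16683280) (l 16698144))))), by decide +kernel⟩

def k3_B00pp_022_s1 : ∃ t, chk3 f_B00pp_022_s1 t 65 28 1 = true :=
  ⟨(a (b (b (l 16683952) (l 16686720)) (a (l 16681024) (l 16685288))) (b (l 16655320) (l 16633488))), by decide +kernel⟩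

def k4_B00pp_022_s1 : ∃ t, chk3 f_B00pp_022_s1 t 33 28 1 = true :=
  ⟨(a (b (a (l 16665800) (l 16654176)) (a (l 16661456) (l 16646736))) (b (l 16635104) (l 16622896))), by decide +kernel⟩

def k5_B00pp_022_s1 : ∃ t, chk3 f_B00pp_022_s1 t 16 29 1 = true :=
  ⟨(a (b (a (a (b (a (a (b (b (a (l 16710576) (l 16705976)) (b (l 16706816) (l 16707616))) (b (l 16708896) (l 16710760))) (b (l 16706200) (l 16717776))) (b (l 16701512) (l 16691736))) (a (b (a (l 16710944) (l 16696936)) (l 16708472)) (b (l 16712496) (l 16711312)))) (b (a (l 16695160) (l 16698600)) (a (l 16704328) (l 16696424)))) (a (b (l 16687560) (l 16684160)) (b (l 16672072) (l 16667232)))) (a (a (b (a (b (l 16717376) (l 16715024)) (l 16687016)) (a (l 16689376) (l 16701264))) (b (l 16674176) (l 16687352))) (b (a (l 16677456) (l 16659152)) (a (l 16668272) (l 16648776))))) (b (a (b (l 16647552) (l 16598576)) (b (l 16613192) (l 16604784))) (a (b (l 16630992) (l 16619712))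 (l 16588112)))), by decide +kernel⟩

def k6_B00pp_022_s1 : ∃ t, chk3 f_B00pp_022_s1 t 17 14 1 = true :=
  ⟨(b (a (a (b (l 16606680) (l 16591152)) (l 16484928)) (a (l 16539744) (l 16513048))) (a (b (a (l 16574568) (l 16542152)) (a (l 16552728) (l 16519248))) (b (l 16497200) (l 16472632)))), by decide +kernel⟩

def k7_B00pp_022_s1 : ∃ t, chk3 f_B00pp_022_s1 t 16 60 1 = true :=
  ⟨(a (a (b (a (l 16676784) (l 16677888)) (a (l 16689040) (l 16668008))) (b (l 16605576) (l 16636896))) (b (a (l 16607712) (l 16569728)) (a (l 16596448) (l 16557968)))), by decide +kernel⟩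

def k8_B00pp_022_s1 : ∃ t, chk3 f_B00pp_022_s1 t 16 61 1 = true :=
  ⟨(a (b (a (a (l 16683424) (l 16661888)) (b (l 16631176) (l 16629360))) (b (b (a (a (l 16682536) (l 16660752)) (a (l 16639384) (l 16618440))) (a (b (a (l 16682632) (l 16660800)) (b (a (a (l 16688296) (l 16677232)) (l 16660888)) (a (a (l 16688752) (l 16677608)) (a (l 16666600) (l 16655720))))) (a (a (b (l 16644704) (l 16644928)) (l 16634256)) (a (l 16613232) (l 16613280))))) (b (a (a (a (c (l 16694184) (l 16690448)) (l 16679936)) (a (l 16668960) (l 16658080))) (a (a (l 16647296) (l 16636608)) (a (l 16626008) (l 16615496)))) (b (a (a (a (l 16693832) (l 16682840)) (a (l 16671936) (l 16661128))) (a (a (l 16650408) (l 16639792)) (l 16629280))) (l 14))))) (b (a (b (l 16590560) (l 16588512)) (b (l 16551720) (l 16559912))) (a (b (b (a (l 16597920) (l 16577848)) (a (l 16587368) (a (l 16572224) (b (l 16572760) (a (l 16575240) (l 16570280)))))) (a (b (a (l 16605064)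 (b (b (l 16582672) (l 16594256)) (l 16595952))) (a (l 16609656) (l 16599448))) (a (b (b (b (b (a (l 16585328) (b (l 16580256) (l 16569816))) (l 16572720)) (a (l 16586592) (l 16581512))) (a (l 16588312) (l 16572760))) (a (l 16581368) (b (l 16580368) (l 16588040)))) (a (b (b (c (b (b (a (l 16577288) (l 16574792)) (l 16576352)) (l 16577208)) (b (b (b (l 16574512) (b (l 16569272) (a (l 16575784) (a (b (l 16573896) (c (l 16574288) (l 16573528))) (l 358662914551))))) (a (l 16576112) (a (l 16574216) (l 1)))) (a (l 16576976) (l 16574456)))) (a (b (l 16578880) (l 1)) (l 1))) (l 1)) (l 1))))) (b (a (l 408055009287) (l 1)) (l 1))))), by decide +kernel⟩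

def k9_B00pp_022_s1 : ∃ t, chk3 f_B00pp_022_s1 t 16 31 1 = true :=
  ⟨(a (l 14) (a (a (l 14) (a (a (l 14) (l 1)) (l 1))) (l 1))), by decide +kernel⟩

def k10_B00pp_022_s1 : ∃ t, chk3 f_B00pp_022_s1 t 17 15 1 = true :=
  ⟨(b (b (a (b (l 16516168) (l 416644730151)) (l 1)) (l 1)) (l 1)), by decide +kernel⟩

def k11_B00pp_022_s1 : ∃ t, chk3 f_B00pp_022_s1 t 9 3 1 = true :=
  ⟨(b (a (b (b (l 6) (a (l 16564872) (l 16557136))) (a (b (l 16572352) (l 16523240)) (b (l 16542056) (l 16487848)))) (b (l 6) (b (l 16514768) (l 1)))) (b (b (a (a (l 16476904) (l 1)) (l 1)) (l 1)) (l 1))), by decide +kernel⟩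

def k12_B00pp_022_s1 : ∃ t, chk3 f_B00pp_022_s1 t 5 1 1 = true :=
  ⟨(b (l 6) (b (l 1) (l 1))), by decide +kernel⟩

def k13_B00pp_022_s1 : ∃ t, chk3 f_B00pp_022_s1 t 3 1 1 = true :=
  ⟨(l 1), by decide +kernel⟩

theorem t14_B00pp_022_s1 : ∃ t, chk3 f_B00pp_022_s1 t 16 30 1 = true := ex3_b k7_B00pp_022_s1 k8_B00pp_022_s1

theorem t15_B00pp_022_s1 : ∃ t, chk3 f_B00pp_022_s1 t 16 15 1 = true := ex3_b t14_B00pp_022_s1 k9_B00pp_022_s1

theorem t16_B00pp_022_s1 : ∃ t, chk3 f_B00pp_022_s1 t 8 15 1 = true := ex3_a t15_B00pp_022_s1 k10_B00pp_022_s1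

theorem t17_B00pp_022_s1 : ∃ t, chk3 f_B00pp_022_s1 t 32 28 1 = true := ex3_a k2_B00pp_022_s1 k3_B00pp_022_s1

theorem t18_B00pp_022_s1 : ∃ t, chk3 f_B00pp_022_s1 t 16 28 1 = true := ex3_a t17_B00pp_022_s1 k4_B00pp_022_s1

theorem t19_B00pp_022_s1 : ∃ t, chk3 f_B00pp_022_s1 t 16 14 1 = true := ex3_b t18_B00pp_022_s1 k5_B00pp_022_s1

theorem t20_B00pp_022_s1 : ∃ t, chk3 f_B00pp_022_s1 t 8 14 1 = true := ex3_a t19_B00pp_022_s1 k6_B00pp_022_s1

theorem t21_B00pp_022_s1 : ∃ t, chk3 f_B00pp_022_s1 t 8 7 1 = true := ex3_b t20_B00pp_022_s1 t16_B00pp_022_s1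

theorem t22_B00pp_022_s1 : ∃ t, chk3 f_B00pp_022_s1 t 8 3 1 = true := ex3_b k1_B00pp_022_s1 t21_B00pp_022_s1

theorem t23_B00pp_022_s1 : ∃ t, chk3 f_B00pp_022_s1 t 4 3 1 = true := ex3_a t22_B00pp_022_s1 k11_B00pp_022_s1

theorem t24_B00pp_022_s1 : ∃ t, chk3 f_B00pp_022_s1 t 4 1 1 = true := ex3_b k0_B00pp_022_s1 t23_B00pp_022_s1

theorem t25_B00pp_022_s1 : ∃ t, chk3 f_B00pp_022_s1 t 2 1 1 = true := ex3_a t24_B00pp_022_s1 k12_B00pp_022_s1

theorem t26_B00pp_022_s1 : ∃ t, chk3 f_B00pp_022_s1 t 1 1 1 = true := ex3_a t25_B00pp_022_s1 k13_B00pp_022_s1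

theorem c_B00pp_022_s1 : CertF 0 536870912 0 536870912 1040187392 5207648 false true true .pp 0 2 2
    ndB0q0 ndB0q2 pcB2 cut_B00pp_022_s1 Ext.none :=
  certF2 (fam := false) (s1 := true) (s2 := true) (a := 0) (b := 2) (c := 2) (cn := .pp) (n1 := ndB0q0) (n2 := ndB0q2) (pc := pcB2) (cut := cut_B00pp_022_s1) (xt := Ext.none) (P1 := 0) (W1 := 536870912) (P2 := 0) (W2 := 536870912) (P3 := 1040187392) (W3 := 5207648)
    rfl (fun _ => rfl) t26_B00pp_022_s1

theorem s_B00pp_022_s1 {κ x : ℝ} (hκ : κ * h0 = ken x) (hx : ((1040187392 : ℕ) : ℝ) / S ≤ x)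
    (hx' : x ≤ (((1040187392 : ℕ) : ℝ) + (5207648 : ℕ)) / S)
    (H : CutB (VFD κ) PP tK tL pcB (Cut.of [[⟨0, 0, 0, 22369621⟩, ⟨1, 1, 0, 22369621⟩, ⟨2, 1, 0, 22369621⟩]]) 0 2 2 0 0 (sgb true) (sgb true) x) :
    AltB (VFD κ) PP tK tL pcB [⟨3, 0, 0, 1449551462⟩] 0 2 2 0 0 (sgb true) (sgb true) x :=
  strip_altBD (m := 1449551462) true rfl hκ (SH.κ0 hκ (SH.hx1 hx).le (SH.hx2 hx').le) (SH.hx1 hx).le (SH.hx2 hx') (covB00).cov (covB02).cov hx hx' c_B00pp_022_s1 H (noExt_B)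

noncomputable def cut_B00pp_022_s3 : Cut := Cut.of [[⟨3, 0, 0, 2845415833⟩], [⟨0, 0, 0, 22369621⟩, ⟨1, 1, 0, 22369621⟩, ⟨2, 1, 0, 22369621⟩]]

noncomputable def f_B00pp_022_s3 : ℕ → ℕ → ℕ → ℕ → Bool := onCell 0 536870912 0 536870912 1040187392 5207648
    (rowF 0 false true true .pp 0 2 2 (qsf 0 536870912 0 536870912 2) ndB0q0 ndB0q2 pcB2 cut_B00pp_022_s3 Ext.none)

def k0_B00pp_022_s3 : ∃ t, chk3 f_B00pp_022_s3 t 1 1 1 = true :=
  ⟨(l 6), by decide +kernel⟩

theorem c_B00pp_022_s3 : CertF 0 536870912 0 536870912 1040187392 5207648 false true true .pp 0 2 2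
    ndB0q0 ndB0q2 pcB2 cut_B00pp_022_s3 Ext.none :=
  certF0 (fam := false) (s1 := true) (s2 := true) (a := 0) (b := 2) (c := 2) (cn := .pp) (n1 := ndB0q0) (n2 := ndB0q2) (pc := pcB2) (cut := cut_B00pp_022_s3) (xt := Ext.none) (P1 := 0) (W1 := 536870912) (P2 := 0) (W2 := 536870912) (P3 := 1040187392) (W3 := 5207648)
    rfl k0_B00pp_022_s3

theorem s_B00pp_022_s3 {κ x : ℝ} (hκ : κ * h0 = ken x) (hx : ((1040187392 : ℕ) : ℝ) / S ≤ x)
    (hx' : x ≤ (((1040187392 : ℕ) : ℝ) + (5207648 : ℕ)) / S)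
    (H : CutB (VFD κ) PP tK tL pcB (Cut.of [[⟨0, 0, 0, 22369621⟩, ⟨1, 1, 0, 22369621⟩, ⟨2, 1, 0, 22369621⟩]]) 0 2 2 0 0 (sgb true) (sgb true) x) :
    AltB (VFD κ) PP tK tL pcB [⟨4, 0, 0, 2845415833⟩] 0 2 2 0 0 (sgb true) (sgb true) x :=
  strip_altBD (m := 2845415833) false rfl hκ (SH.κ0 hκ (SH.hx1 hx).le (SH.hx2 hx').le) (SH.hx1 hx).le (SH.hx2 hx') (covB00).cov (covB02).cov hx hx' c_B00pp_022_s3 H (noExt_B)

noncomputable def cut_B00pp_101_s1 : Cut := Cut.of [[⟨4, 0, 0, 1449551462⟩]]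

noncomputable def f_B00pp_101_s1 : ℕ → ℕ → ℕ → ℕ → Bool := onCell 536870912 536870912 536870912 536870912 1040187392 5207648
    (rowF 0 false true true .npn 1 0 1 (qsf 536870912 536870912 536870912 536870912 0) ndB0q1 ndB0q1 pcB0 cut_B00pp_101_s1 Ext.none)

def k0_B00pp_101_s1 : ∃ t, chk3 f_B00pp_101_s1 t 1 1 1 = true :=
  ⟨(l 3), by decide +kernel⟩

theorem c_B00pp_101_s1 : CertF 536870912 536870912 536870912 536870912 1040187392 5207648 false true true .npn 1 0 1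
    ndB0q1 ndB0q1 pcB0 cut_B00pp_101_s1 Ext.none :=
  certF0 (fam := false) (s1 := true) (s2 := true) (a := 1) (b := 0) (c := 1) (cn := .npn) (n1 := ndB0q1) (n2 := ndB0q1) (pc := pcB0) (cut := cut_B00pp_101_s1) (xt := Ext.none) (P1 := 536870912) (W1 := 536870912) (P2 := 536870912) (W2 := 536870912) (P3 := 1040187392) (W3 := 5207648)
    rfl k0_B00pp_101_s1

theorem s_B00pp_101_s1 {κ x : ℝ} (hκ : κ * h0 = ken x) (hx : ((1040187392 : ℕ) : ℝ) / S ≤ x)
    (hx' : x ≤ (((1040187392 : ℕ) : ℝ) + (5207648 : ℕ)) / S) :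
    AltB (VFD κ) PP tK tL pcB [⟨3, 0, 0, 1449551462⟩] 1 0 1 0 0 (sgb true) (sgb true) x :=
  strip_altBD (m := 1449551462) true rfl hκ (SH.κ0 hκ (SH.hx1 hx).le (SH.hx2 hx').le) (SH.hx1 hx).le (SH.hx2 hx') (covB01).cov (covB01).cov hx hx' c_B00pp_101_s1 cutB_nil (noExt_B)

noncomputable def cut_B00pp_101_s3 : Cut := Cut.of [[⟨3, 0, 0, 2845415833⟩]]

noncomputable def f_B00pp_101_s3 : ℕ → ℕ → ℕ → ℕ → Bool := onCell 536870912 536870912 536870912 536870912 1040187392 5207648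
    (rowF 0 false true true .npn 1 0 1 (qsf 536870912 536870912 536870912 536870912 0) ndB0q1 ndB0q1 pcB0 cut_B00pp_101_s3 Ext.none)

def k0_B00pp_101_s3 : ∃ t, chk3 f_B00pp_101_s3 t 1 1 1 = true :=
  ⟨(l 3), by decide +kernel⟩

theorem c_B00pp_101_s3 : CertF 536870912 536870912 536870912 536870912 1040187392 5207648 false true true .npn 1 0 1
    ndB0q1 ndB0q1 pcB0 cut_B00pp_101_s3 Ext.none :=
  certF0 (fam := false) (s1 := true) (s2 := true) (a := 1) (b := 0) (c := 1) (cn := .npn) (n1 := ndB0q1) (n2 := ndB0q1) (pc := pcB0) (cut := cut_B00pp_101_s3) (xt := Ext.none) (P1 := 536870912) (W1 := 536870912) (P2 := 536870912) (W2 := 536870912) (P3 := 1040187392) (W3 := 5207648)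
    rfl k0_B00pp_101_s3

theorem s_B00pp_101_s3 {κ x : ℝ} (hκ : κ * h0 = ken x) (hx : ((1040187392 : ℕ) : ℝ) / S ≤ x)
    (hx' : x ≤ (((1040187392 : ℕ) : ℝ) + (5207648 : ℕ)) / S) :
    AltB (VFD κ) PP tK tL pcB [⟨4, 0, 0, 2845415833⟩] 1 0 1 0 0 (sgb true) (sgb true) x :=
  strip_altBD (m := 2845415833) false rfl hκ (SH.κ0 hκ (SH.hx1 hx).le (SH.hx2 hx').le) (SH.hx1 hx).le (SH.hx2 hx') (covB01).cov (covB01).cov hx hx' c_B00pp_101_s3 cutB_nil (noExt_B)

noncomputable def cut_B00pp_102_s1 : Cut := Cut.of [[⟨4, 0, 0, 1449551462⟩]]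

noncomputable def f_B00pp_102_s1 : ℕ → ℕ → ℕ → ℕ → Bool := onCell 0 536870912 0 536870912 1040187392 5207648
    (rowF 2 false true true .npp 1 0 2 (qsf 536870912 536870912 0 536870912 0) ndB0q1 ndB0q2 pcB0 cut_B00pp_102_s1 Ext.none)

def k0_B00pp_102_s1 : ∃ t, chk3 f_B00pp_102_s1 t 1 1 1 = true :=
  ⟨(a (b (l 3) (l 3)) (l 3)), by decide +kernel⟩

theorem c_B00pp_102_s1 : CertF 536870912 536870912 0 536870912 1040187392 5207648 false true true .npp 1 0 2
    ndB0q1 ndB0q2 pcB0 cut_B00pp_102_s1 Ext.none :=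
  certF2 (fam := false) (s1 := true) (s2 := true) (a := 1) (b := 0) (c := 2) (cn := .npp) (n1 := ndB0q1) (n2 := ndB0q2) (pc := pcB0) (cut := cut_B00pp_102_s1) (xt := Ext.none) (P1 := 536870912) (W1 := 536870912) (P2 := 0) (W2 := 536870912) (P3 := 1040187392) (W3 := 5207648)
    rfl (fun _ => rfl) k0_B00pp_102_s1

theorem s_B00pp_102_s1 {κ x : ℝ} (hκ : κ * h0 = ken x) (hx : ((1040187392 : ℕ) : ℝ) / S ≤ x)
    (hx' : x ≤ (((1040187392 : ℕ) : ℝ) + (5207648 : ℕ)) / S) :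
    AltB (VFD κ) PP tK tL pcB [⟨3, 0, 0, 1449551462⟩] 1 0 2 0 0 (sgb true) (sgb true) x :=
  strip_altBD (m := 1449551462) true rfl hκ (SH.κ0 hκ (SH.hx1 hx).le (SH.hx2 hx').le) (SH.hx1 hx).le (SH.hx2 hx') (covB01).cov (covB02).cov hx hx' c_B00pp_102_s1 cutB_nil (noExt_B)

noncomputable def cut_B00pp_102_s3 : Cut := Cut.of [[⟨3, 0, 0, 2845415833⟩]]

noncomputable def f_B00pp_102_s3 : ℕ → ℕ → ℕ → ℕ → Bool := onCell 536870912 536870912 0 536870912 1040187392 5207648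
    (rowF 0 false true true .npp 1 0 2 (qsf 536870912 536870912 0 536870912 0) ndB0q1 ndB0q2 pcB0 cut_B00pp_102_s3 Ext.none)

def k0_B00pp_102_s3 : ∃ t, chk3 f_B00pp_102_s3 t 1 1 1 = true :=
  ⟨(l 6), by decide +kernel⟩

theorem c_B00pp_102_s3 : CertF 536870912 536870912 0 536870912 1040187392 5207648 false true true .npp 1 0 2
    ndB0q1 ndB0q2 pcB0 cut_B00pp_102_s3 Ext.none :=
  certF0 (fam := false) (s1 := true) (s2 := true) (a := 1) (b := 0) (c := 2) (cn := .npp) (n1 := ndB0q1) (n2 := ndB0q2) (pc := pcB0) (cut := cut_B00pp_102_s3) (xt := Ext.none) (P1 := 536870912) (W1 := 536870912) (P2 := 0) (W2 := 536870912) (P3 := 1040187392) (W3 := 5207648)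
    rfl k0_B00pp_102_s3

theorem s_B00pp_102_s3 {κ x : ℝ} (hκ : κ * h0 = ken x) (hx : ((1040187392 : ℕ) : ℝ) / S ≤ x)
    (hx' : x ≤ (((1040187392 : ℕ) : ℝ) + (5207648 : ℕ)) / S) :
    AltB (VFD κ) PP tK tL pcB [⟨4, 0, 0, 2845415833⟩] 1 0 2 0 0 (sgb true) (sgb true) x :=
  strip_altBD (m := 2845415833) false rfl hκ (SH.κ0 hκ (SH.hx1 hx).le (SH.hx2 hx').le) (SH.hx1 hx).le (SH.hx2 hx') (covB01).cov (covB02).cov hx hx' c_B00pp_102_s3 cutB_nil (noExt_B)

noncomputable def cut_B00pp_112_s1 : Cut := Cut.of [[⟨4, 0, 0, 1449551462⟩]]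

noncomputable def xt_B00pp_112_s1 : Ext := strExt dd false true true .u0 .u2 .u0m .dn 1 1 2 rfl rfl gf1 vv ndB0q1 ndB0q2

noncomputable def f_B00pp_112_s1 : ℕ → ℕ → ℕ → ℕ → Bool := onCell 536870912 536870912 0 536870912 1040187392 5207648
    (rowF 0 false true true .dn 1 1 2 (qsf 536870912 536870912 0 536870912 1) ndB0q1 ndB0q2 pcB1 cut_B00pp_112_s1 xt_B00pp_112_s1)

def k0_B00pp_112_s1 : ∃ t, chk3 f_B00pp_112_s1 t 1 1 1 = true :=
  ⟨(a (b (a (b (a (a (b (l 526199311) (b (l 525846031) (l 3))) (b (l 525443855) (l 3))) (b (a (l 524820239) (l 3)) (l 3))) (l 3)) (l 3)) (l 3)) (l 1)), by decide +kernel⟩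

theorem c_B00pp_112_s1 : CertF 536870912 536870912 0 536870912 1040187392 5207648 false true true .dn 1 1 2
    ndB0q1 ndB0q2 pcB1 cut_B00pp_112_s1 xt_B00pp_112_s1 :=
  certF0 (fam := false) (s1 := true) (s2 := true) (a := 1) (b := 1) (c := 2) (cn := .dn) (n1 := ndB0q1) (n2 := ndB0q2) (pc := pcB1) (cut := cut_B00pp_112_s1) (xt := xt_B00pp_112_s1) (P1 := 536870912) (W1 := 536870912) (P2 := 0) (W2 := 536870912) (P3 := 1040187392) (W3 := 5207648)
    rfl k0_B00pp_112_s1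

theorem s_B00pp_112_s1 {κ x : ℝ} (hκ : κ * h0 = ken x) (hx : ((1040187392 : ℕ) : ℝ) / S ≤ x)
    (hx' : x ≤ (((1040187392 : ℕ) : ℝ) + (5207648 : ℕ)) / S) :
    AltB (VFD κ) PP tK tL pcB [⟨3, 0, 0, 1449551462⟩] 1 1 2 0 0 (sgb true) (sgb true) x :=
  strip_altBD (m := 1449551462) true rfl hκ (SH.κ0 hκ (SH.hx1 hx).le (SH.hx2 hx').le) (SH.hx1 hx).le (SH.hx2 hx') (covB01).cov (covB02).cov hx hx' c_B00pp_112_s1 cutB_nil ((okx hx hx').extB (T := tt) (sideB hx hx') hκ rfl rfl (.O 1 true) (.O 2 true) (Or.inr rfl))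

noncomputable def cut_B00pp_112_s3 : Cut := Cut.of [[⟨3, 0, 0, 2845415833⟩]]

noncomputable def f_B00pp_112_s3 : ℕ → ℕ → ℕ → ℕ → Bool := onCell 536870912 536870912 0 536870912 1040187392 5207648
    (rowF 0 false true true .dn 1 1 2 (qsf 536870912 536870912 0 536870912 1) ndB0q1 ndB0q2 pcB1 cut_B00pp_112_s3 Ext.none)

def k0_B00pp_112_s3 : ∃ t, chk3 f_B00pp_112_s3 t 1 1 1 = true :=
  ⟨(l 6), by decide +kernel⟩

theorem c_B00pp_112_s3 : CertF 536870912 536870912 0 536870912 1040187392 5207648 false true true .dn 1 1 2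
    ndB0q1 ndB0q2 pcB1 cut_B00pp_112_s3 Ext.none :=
  certF0 (fam := false) (s1 := true) (s2 := true) (a := 1) (b := 1) (c := 2) (cn := .dn) (n1 := ndB0q1) (n2 := ndB0q2) (pc := pcB1) (cut := cut_B00pp_112_s3) (xt := Ext.none) (P1 := 536870912) (W1 := 536870912) (P2 := 0) (W2 := 536870912) (P3 := 1040187392) (W3 := 5207648)
    rfl k0_B00pp_112_s3

theorem s_B00pp_112_s3 {κ x : ℝ} (hκ : κ * h0 = ken x) (hx : ((1040187392 : ℕ) : ℝ) / S ≤ x)
    (hx' : x ≤ (((1040187392 : ℕ) : ℝ) + (5207648 : ℕ)) / S) :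
    AltB (VFD κ) PP tK tL pcB [⟨4, 0, 0, 2845415833⟩] 1 1 2 0 0 (sgb true) (sgb true) x :=
  strip_altBD (m := 2845415833) false rfl hκ (SH.κ0 hκ (SH.hx1 hx).le (SH.hx2 hx').le) (SH.hx1 hx).le (SH.hx2 hx') (covB01).cov (covB02).cov hx hx' c_B00pp_112_s3 cutB_nil (noExt_B)

noncomputable def cut_B00pp_202_s1 : Cut := Cut.of [[⟨4, 0, 0, 1449551462⟩]]

noncomputable def f_B00pp_202_s1 : ℕ → ℕ → ℕ → ℕ → Bool := onCell 0 536870912 0 536870912 1040187392 5207648
    (rowF 0 false true true .pp 2 0 2 (qsf 0 536870912 0 536870912 0) ndB0q2 ndB0q2 pcB0 cut_B00pp_202_s1 Ext.none)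

def k0_B00pp_202_s1 : ∃ t, chk3 f_B00pp_202_s1 t 1 1 1 = true :=
  ⟨(l 3), by decide +kernel⟩

theorem c_B00pp_202_s1 : CertF 0 536870912 0 536870912 1040187392 5207648 false true true .pp 2 0 2
    ndB0q2 ndB0q2 pcB0 cut_B00pp_202_s1 Ext.none :=
  certF0 (fam := false) (s1 := true) (s2 := true) (a := 2) (b := 0) (c := 2) (cn := .pp) (n1 := ndB0q2) (n2 := ndB0q2) (pc := pcB0) (cut := cut_B00pp_202_s1) (xt := Ext.none) (P1 := 0) (W1 := 536870912) (P2 := 0) (W2 := 536870912) (P3 := 1040187392) (W3 := 5207648)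
    rfl k0_B00pp_202_s1

theorem s_B00pp_202_s1 {κ x : ℝ} (hκ : κ * h0 = ken x) (hx : ((1040187392 : ℕ) : ℝ) / S ≤ x)
    (hx' : x ≤ (((1040187392 : ℕ) : ℝ) + (5207648 : ℕ)) / S) :
    AltB (VFD κ) PP tK tL pcB [⟨3, 0, 0, 1449551462⟩] 2 0 2 0 0 (sgb true) (sgb true) x :=
  strip_altBD (m := 1449551462) true rfl hκ (SH.κ0 hκ (SH.hx1 hx).le (SH.hx2 hx').le) (SH.hx1 hx).le (SH.hx2 hx') (covB02).cov (covB02).cov hx hx' c_B00pp_202_s1 cutB_nil (noExt_B)

noncomputable def cut_B00pp_202_s3 : Cut := Cut.of [[⟨3, 0, 0, 2845415833⟩]]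

noncomputable def f_B00pp_202_s3 : ℕ → ℕ → ℕ → ℕ → Bool := onCell 0 536870912 0 536870912 1040187392 5207648
    (rowF 0 false true true .pp 2 0 2 (qsf 0 536870912 0 536870912 0) ndB0q2 ndB0q2 pcB0 cut_B00pp_202_s3 Ext.none)

def k0_B00pp_202_s3 : ∃ t, chk3 f_B00pp_202_s3 t 1 1 1 = true :=
  ⟨(l 3), by decide +kernel⟩

theorem c_B00pp_202_s3 : CertF 0 536870912 0 536870912 1040187392 5207648 false true true .pp 2 0 2
    ndB0q2 ndB0q2 pcB0 cut_B00pp_202_s3 Ext.none :=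
  certF0 (fam := false) (s1 := true) (s2 := true) (a := 2) (b := 0) (c := 2) (cn := .pp) (n1 := ndB0q2) (n2 := ndB0q2) (pc := pcB0) (cut := cut_B00pp_202_s3) (xt := Ext.none) (P1 := 0) (W1 := 536870912) (P2 := 0) (W2 := 536870912) (P3 := 1040187392) (W3 := 5207648)
    rfl k0_B00pp_202_s3

theorem s_B00pp_202_s3 {κ x : ℝ} (hκ : κ * h0 = ken x) (hx : ((1040187392 : ℕ) : ℝ) / S ≤ x)
    (hx' : x ≤ (((1040187392 : ℕ) : ℝ) + (5207648 : ℕ)) / S) :
    AltB (VFD κ) PP tK tL pcB [⟨4, 0, 0, 2845415833⟩] 2 0 2 0 0 (sgb true) (sgb true) x :=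
  strip_altBD (m := 2845415833) false rfl hκ (SH.κ0 hκ (SH.hx1 hx).le (SH.hx2 hx').le) (SH.hx1 hx).le (SH.hx2 hx') (covB02).cov (covB02).cov hx hx' c_B00pp_202_s3 cutB_nil (noExt_B)

noncomputable def cut_B00pm_001_s1 : Cut := Cut.of [[⟨4, 0, 0, 1449551462⟩]]

noncomputable def f_B00pm_001_s1 : ℕ → ℕ → ℕ → ℕ → Bool := onCell 0 536870912 536870912 536870912 1040187392 5207648
    (rowF 0 false true false .up 0 0 1 (qsf 0 536870912 536870912 536870912 0) ndB0q0 ndB0q1 pcB0 cut_B00pm_001_s1 Ext.none)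

def k0_B00pm_001_s1 : ∃ t, chk3 f_B00pm_001_s1 t 1 1 1 = true :=
  ⟨(l 6), by decide +kernel⟩

theorem c_B00pm_001_s1 : CertF 0 536870912 536870912 536870912 1040187392 5207648 false true false .up 0 0 1
    ndB0q0 ndB0q1 pcB0 cut_B00pm_001_s1 Ext.none :=
  certF0 (fam := false) (s1 := true) (s2 := false) (a := 0) (b := 0) (c := 1) (cn := .up) (n1 := ndB0q0) (n2 := ndB0q1) (pc := pcB0) (cut := cut_B00pm_001_s1) (xt := Ext.none) (P1 := 0) (W1 := 536870912) (P2 := 536870912) (W2 := 536870912) (P3 := 1040187392) (W3 := 5207648)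
    rfl k0_B00pm_001_s1

theorem s_B00pm_001_s1 {κ x : ℝ} (hκ : κ * h0 = ken x) (hx : ((1040187392 : ℕ) : ℝ) / S ≤ x)
    (hx' : x ≤ (((1040187392 : ℕ) : ℝ) + (5207648 : ℕ)) / S) :
    AltB (VFD κ) PP tK tL pcB [⟨3, 0, 0, 1449551462⟩] 0 0 1 0 0 (sgb true) (sgb false) x :=
  strip_altBD (m := 1449551462) true rfl hκ (SH.κ0 hκ (SH.hx1 hx).le (SH.hx2 hx').le) (SH.hx1 hx).le (SH.hx2 hx') (covB00).cov (covB01).cov hx hx' c_B00pm_001_s1 cutB_nil (noExt_B)

noncomputable def cut_B00pm_001_s3 : Cut := Cut.of [[⟨3, 0, 0, 2845415833⟩]]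

noncomputable def xt_B00pm_001_s3 : Ext := strExt dd false true false .u0 .u0m .s0m .up 0 0 1 rfl rfl gl0 vv ndB0q0 ndB0q1

noncomputable def f_B00pm_001_s3 : ℕ → ℕ → ℕ → ℕ → Bool := onCell 0 536870912 536870912 536870912 1040187392 5207648
    (rowF 0 false true false .up 0 0 1 (qsf 0 536870912 536870912 536870912 0) ndB0q0 ndB0q1 pcB0 cut_B00pm_001_s3 xt_B00pm_001_s3)

def k0_B00pm_001_s3 : ∃ t, chk3 f_B00pm_001_s3 t 2 1 1 = true :=
  ⟨(b (l 4) (b (b (l 4) (l 2)) (l 2))), by decide +kernel⟩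

def k1_B00pm_001_s3 : ∃ t, chk3 f_B00pm_001_s3 t 3 2 1 = true :=
  ⟨(b (l 4) (a (l 4) (a (b (l 4) (a (b (l 4) (a (b (l 4) (l 526978063)) (b (l 527870991) (l 527664911)))) (b (a (l 4) (l 528204047)) (a (b (l 528176399) (l 528025615)) (b (l 528432143) (l 528332559)))))) (b (a (b (l 4) (b (l 4) (l 528542735))) (b (l 528017679) (b (l 528386319) (l 528584207)))) (a (b (a (l 528617999) (l 528724495)) (b (l 528450831) (a (l 528589583) (l 528800271)))) (b (a (l 528795151) (l 528831503)) (a (l 528944143) (l 529051919)))))))), by decide +kernel⟩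

def k2_B00pm_001_s3 : ∃ t, chk3 f_B00pm_001_s3 t 6 6 1 = true :=
  ⟨(a (b (a (l 4) (b (l 4) (a (l 4) (b (l 4) (a (l 520033295) (l 520687375)))))) (a (l 2) (b (a (l 2) (b (a (l 2) (l 519433743)) (l 2))) (l 2)))) (b (a (b (l 4) (b (a (l 523038991) (a (l 523368207) (l 523839759))) (a (b (l 521869839) (l 521333007)) (b (l 522954511) (l 522480143))))) (b (a (b (l 4) (a (l 524979727) (l 525085711))) (b (a (b (l 4) (l 526101775)) (l 526509327)) (a (b (l 525847567) (l 525570831)) (b (l 526170127) (l 525914127))))) (a (b (b (l 524677391) (l 524316175)) (a (l 523482383) (l 523956239))) (b (a (l 524838159) (l 525214479)) (a (l 524136207) (l 524560399)))))) (a (b (a (b (a (l 520126223) (l 520783375)) (a (l 2) (l 519518223))) (b (a (l 521406479) (l 521997583)) (a (l 520214287) (l 520874767)))) (b (a (l 2) (a (l 2) (l 519598351))) (l 2))) (b (a (b (a (l 522558223) (l 523089167)) (a (l 521501199) (l 522095375))) (b (a (l 523592463)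 (l 524068879)) (a (l 522658831) (l 523192847)))) (a (b (a (l 520297999) (l 520962063)) (a (l 2) (l 519674383))) (b (a (l 521592079) (l 522189583)) (a (l 520378127) (l 521045775)))))))), by decide +kernel⟩

def k3_B00pm_001_s3 : ∃ t, chk3 f_B00pm_001_s3 t 7 12 1 = true :=
  ⟨(a (a (b (b (a (l 526373647) (l 527125263)) (a (b (l 526345999) (l 526119439)) (a (l 526925071) (l 527184399)))) (a (b (a (l 525569551) (l 525904143)) (b (l 525308943) (l 524991503))) (b (a (l 526487823) (l 526784015)) (a (l 525964815) (l 526301455))))) (b (a (b (l 527814415) (l 527268879)) (b (l 528176911) (l 527960335))) (a (b (l 527189519) (a (l 526618383) (l 526916111))) (b (l 527409423) (l 527324175))))) (a (b (b (a (l 528485391) (l 528744207)) (a (l 528324879) (l 528635663))) (a (b (l 528103439) (l 527547407)) (a (l 528264463) (l 528180239)))) (b (a (b (l 528956175) (l 528896015)) (l 528842511)) (b (a (l 528783375) (l 16436544)) (a (l 528614159)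 (l 16385312)))))), by decide +kernel⟩

def k4_B00pm_001_s3 : ∃ t, chk3 f_B00pm_001_s3 t 14 13 1 = true :=
  ⟨(b (a (a (b (b (l 524917263) (l 524548111)) (a (l 523698703) (l 524177935))) (b (b (l 525699599) (l 525378575)) (b (l 525032207) (l 524658959)))) (b (a (a (l 526088719) (l 526427151)) (l 526892815)) (a (a (l 525465615) (l 525848591)) (b (l 526520079) (l 16309248))))) (a (b (a (b (l 523268623) (l 522780175)) (b (l 524257807) (l 523827471))) (b (a (l 522258191) (l 16171600)) (a (a (l 16119840) (b (l 16131024) (b (l 16104000) (a (l 16086904) (b (l 16089800) (l 16045496)))))) (b (a (l 16124832) (b (a (l 16129232) (l 16087192)) (a (b (l 16117768) (l 16074168)) (b (l 16042728) (l 16138472))))) (a (b (a (l 16018192) (b (l 16064656) (l 16110896))) (a (b (l 16014672) (l 16110624)) (l 16131880))) (l 16159344)))))) (b (a (b (l 525144079) (l 16218160)) (b (l 16256808) (a (l 16208792) (b (l 16216168) (b (l 16196792) (a (l 16185256)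 (b (l 16187480) (l 16145776)))))))) (b (a (b (a (l 16177792) (l 16172656)) (a (b (l 16154912) (a (l 16140584) (b (l 16143384) (l 16100456)))) (b (a (l 16122368) (b (l 16116024) (l 16163264))) (a (l 16115936) (l 16182048))))) (b (a (b (a (l 16175760) (b (l 16176864) (l 16131128))) (a (b (l 16166632) (l 16124336)) (l 16097024))) (b (a (b (l 16138096) (l 16185792)) (l 16202432)) (l 16214376))) (l 16143800))) (a (a (b (b (a (b (l 16091536) (l 16138280)) (l 16157808)) (l 16171104)) (l 16211200)) (l 16233768)) (b (l 16276576) (l 16327328))))))), by decide +kernel⟩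

def k5_B00pm_001_s3 : ∃ t, chk3 f_B00pm_001_s3 t 15 13 1 = true :=
  ⟨(b (a (b (a (l 527456527) (l 527951631)) (a (l 527019279) (l 527587087))) (b (a (l 528383503) (l 16328360)) (a (b (l 16296800) (a (l 16263584) (b (l 16266136) (l 6)))) (b (l 16281072) (l 6))))) (b (a (a (b (l 16243712) (b (a (l 16127600) (b (a (l 16212960) (l 16182032)) (a (b (l 16205888) (l 16122792)) (l 16219496)))) (a (b (a (b (l 16196320) (l 16109424)) (b (l 16157712) (l 16205840))) (l 16169192)) (l 16241088)))) (b (b (a (l 16245752) (l 16156992)) (a (b (l 16229352) (a (l 16220360) (a (l 16137064) (l 16140360)))) (b (a (l 16186512) (l 16150968)) (l 16242840)))) (a (b (b (a (b (l 16132904) (l 16223360)) (l 16236760)) (l 16247480)) (l 16277832)) (l 6)))) (a (b (b (a (b (a (l 16240560) (l 6)) (l 6)) (l 6)) (l 6)) (l 6)) (l 6))) (a (a (b (a (l 16267656) (l 16306128)) (l 16297136)) (l 6)) (l 6)))), by decide +kernel⟩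

def k6_B00pm_001_s3 : ∃ t, chk3 f_B00pm_001_s3 t 3 7 1 = true :=
  ⟨(b (a (a (l 2) (b (a (l 2) (b (b (a (l 2) (b (l 16072232) (l 2))) (l 2)) (l 2))) (l 2))) (a (b (a (b (b (a (b (a (b (l 16043032) (a (b (l 16059504) (l 15972512)) (b (l 15984248) (l 16080360)))) (b (a (b (l 15993464) (l 16081144)) (l 16103104)) (l 16118008))) (a (l 16103376) (l 16163344))) (b (l 16104560) (l 16247160))) (a (l 16061016) (l 16255192))) (b (a (l 16279168) (l 16301064)) (a (l 2) (l 16235344)))) (b (a (b (l 16151048) (l 16268216)) (b (l 16323016) (l 6))) (l 6))) (a (a (l 2) (l 6)) (l 6))) (l 6))) (a (l 2) (l 6))), by decide +kernel⟩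

theorem t7_B00pm_001_s3 : ∃ t, chk3 f_B00pm_001_s3 t 7 13 1 = true := ex3_a k4_B00pm_001_s3 k5_B00pm_001_s3

theorem t8_B00pm_001_s3 : ∃ t, chk3 f_B00pm_001_s3 t 7 6 1 = true := ex3_b k3_B00pm_001_s3 t7_B00pm_001_s3

theorem t9_B00pm_001_s3 : ∃ t, chk3 f_B00pm_001_s3 t 3 6 1 = true := ex3_a k2_B00pm_001_s3 t8_B00pm_001_s3

theorem t10_B00pm_001_s3 : ∃ t, chk3 f_B00pm_001_s3 t 3 3 1 = true := ex3_b t9_B00pm_001_s3 k6_B00pm_001_s3

theorem t11_B00pm_001_s3 : ∃ t, chk3 f_B00pm_001_s3 t 3 1 1 = true := ex3_b k1_B00pm_001_s3 t10_B00pm_001_s3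

theorem t12_B00pm_001_s3 : ∃ t, chk3 f_B00pm_001_s3 t 1 1 1 = true := ex3_a k0_B00pm_001_s3 t11_B00pm_001_s3

theorem c_B00pm_001_s3 : CertF 0 536870912 536870912 536870912 1040187392 5207648 false true false .up 0 0 1
    ndB0q0 ndB0q1 pcB0 cut_B00pm_001_s3 xt_B00pm_001_s3 :=
  certF0 (fam := false) (s1 := true) (s2 := false) (a := 0) (b := 0) (c := 1) (cn := .up) (n1 := ndB0q0) (n2 := ndB0q1) (pc := pcB0) (cut := cut_B00pm_001_s3) (xt := xt_B00pm_001_s3) (P1 := 0) (W1 := 536870912) (P2 := 536870912) (W2 := 536870912) (P3 := 1040187392) (W3 := 5207648)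
    rfl t12_B00pm_001_s3

theorem s_B00pm_001_s3 {κ x : ℝ} (hκ : κ * h0 = ken x) (hx : ((1040187392 : ℕ) : ℝ) / S ≤ x)
    (hx' : x ≤ (((1040187392 : ℕ) : ℝ) + (5207648 : ℕ)) / S) :
    AltB (VFD κ) PP tK tL pcB [⟨4, 0, 0, 2845415833⟩] 0 0 1 0 0 (sgb true) (sgb false) x :=
  strip_altBD (m := 2845415833) false rfl hκ (SH.κ0 hκ (SH.hx1 hx).le (SH.hx2 hx').le) (SH.hx1 hx).le (SH.hx2 hx') (covB00).cov (covB01).cov hx hx' c_B00pm_001_s3 cutB_nil ((okx hx hx').extB (T := tt) (sideB hx hx') hκ rfl rfl (.O 0 true) (.O 1 false) (Or.inl rfl))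

noncomputable def cut_B00pm_011_s1 : Cut := Cut.of [[⟨4, 0, 0, 1449551462⟩], [⟨0, 0, 0, 22369621⟩, ⟨1, 1, 0, 22369621⟩, ⟨2, 1, 0, 22369621⟩]]

noncomputable def f_B00pm_011_s1 : ℕ → ℕ → ℕ → ℕ → Bool := onCell 0 536870912 536870912 536870912 1040187392 5207648
    (rowF 0 false true false .pnn 0 1 1 (qsf 0 536870912 536870912 536870912 1) ndB0q0 ndB0q1 pcB1 cut_B00pm_011_s1 Ext.none)

def k0_B00pm_011_s1 : ∃ t, chk3 f_B00pm_011_s1 t 1 1 1 = true :=
  ⟨(l 6), by decide +kernel⟩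

theorem c_B00pm_011_s1 : CertF 0 536870912 536870912 536870912 1040187392 5207648 false true false .pnn 0 1 1
    ndB0q0 ndB0q1 pcB1 cut_B00pm_011_s1 Ext.none :=
  certF0 (fam := false) (s1 := true) (s2 := false) (a := 0) (b := 1) (c := 1) (cn := .pnn) (n1 := ndB0q0) (n2 := ndB0q1) (pc := pcB1) (cut := cut_B00pm_011_s1) (xt := Ext.none) (P1 := 0) (W1 := 536870912) (P2 := 536870912) (W2 := 536870912) (P3 := 1040187392) (W3 := 5207648)
    rfl k0_B00pm_011_s1

theorem s_B00pm_011_s1 {κ x : ℝ} (hκ : κ * h0 = ken x) (hx : ((1040187392 : ℕ) : ℝ) / S ≤ x)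
    (hx' : x ≤ (((1040187392 : ℕ) : ℝ) + (5207648 : ℕ)) / S)
    (H : CutB (VFD κ) PP tK tL pcB (Cut.of [[⟨0, 0, 0, 22369621⟩, ⟨1, 1, 0, 22369621⟩, ⟨2, 1, 0, 22369621⟩]]) 0 1 1 0 0 (sgb true) (sgb false) x) :
    AltB (VFD κ) PP tK tL pcB [⟨3, 0, 0, 1449551462⟩] 0 1 1 0 0 (sgb true) (sgb false) x :=
  strip_altBD (m := 1449551462) true rfl hκ (SH.κ0 hκ (SH.hx1 hx).le (SH.hx2 hx').le) (SH.hx1 hx).le (SH.hx2 hx') (covB00).cov (covB01).cov hx hx' c_B00pm_011_s1 H (noExt_B)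

noncomputable def cut_B00pm_011_s3 : Cut := Cut.of [[⟨3, 0, 0, 2845415833⟩], [⟨0, 0, 0, 22369621⟩, ⟨1, 1, 0, 22369621⟩, ⟨2, 1, 0, 22369621⟩]]

noncomputable def xt_B00pm_011_s3 : Ext := strExt dd false true false .u0 .u0m .s0m .pnn 0 1 1 rfl rfl gl1 vv ndB0q0 ndB0q1

noncomputable def f_B00pm_011_s3 : ℕ → ℕ → ℕ → ℕ → Bool := onCell 0 536870912 536870912 536870912 1040187392 5207648
    (rowF 0 false true false .pnn 0 1 1 (qsf 0 536870912 536870912 536870912 1) ndB0q0 ndB0q1 pcB1 cut_B00pm_011_s3 xt_B00pm_011_s3)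

def k0_B00pm_011_s3 : ∃ t, chk3 f_B00pm_011_s3 t 1 2 1 = true :=
  ⟨(a (l 4) (a (b (l 1) (l 4)) (l 1))), by decide +kernel⟩

def k1_B00pm_011_s3 : ∃ t, chk3 f_B00pm_011_s3 t 2 6 1 = true :=
  ⟨(a (l 4) (a (l 4) (b (l 4) (b (l 4) (a (a (l 4) (b (l 4) (a (l 4) (l 523108623)))) (a (b (l 4) (a (l 523206159) (l 523305999))) (b (b (l 523618831) (l 523555343)) (l 523454991)))))))), by decide +kernel⟩

def k2_B00pm_011_s3 : ∃ t, chk3 f_B00pm_011_s3 t 4 14 1 = true :=
  ⟨(b (l 4) (a (l 4) (a (l 4) (b (l 4) (a (l 4) (b (l 4) (a (a (l 4) (l 521992463)) (l 521987855)))))))), by decide +kernel⟩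

def k3_B00pm_011_s3 : ∃ t, chk3 f_B00pm_011_s3 t 8 30 1 = true :=
  ⟨(b (l 4) (a (l 4) (a (l 4) (b (l 4) (a (l 4) (b (l 4) (a (l 4) (a (l 531839503) (l 532394255))))))))), by decide +kernel⟩

def k4_B00pm_011_s3 : ∃ t, chk3 f_B00pm_011_s3 t 16 62 1 = true :=
  ⟨(b (l 4) (a (l 4) (a (l 4) (a (l 4) (b (l 4) (a (l 4) (b (l 4) (l 528432655)))))))), by decide +kernel⟩

def k5_B00pm_011_s3 : ∃ t, chk3 f_B00pm_011_s3 t 16 126 1 = true :=
  ⟨(a (b (l 4) (a (l 4) (a (l 4) (a (l 4) (a (l 4) (l 530426639)))))) (b (a (a (l 4) (a (l 4) (b (l 4) (l 529504015)))) (a (a (a (b (l 4) (l 529570063)) (l 528990223)) (b (l 528954639) (l 529200655))) (a (b (l 528770831) (l 528983823)) (b (l 528629519) (l 528813583))))) (a (a (a (a (l 530806543) (l 530918415)) (a (l 530762255) (l 530606095))) (a (a (l 530450447) (l 530295055)) (a (l 530139919) (l 529985039)))) (b (a (a (l 529659151) (l 528868367)) (a (l 529154063) (l 528965391))) (a (a (l 529848591)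 (b (l 16762360) (b (a (l 16760936) (l 16758680)) (a (b (l 16759688) (l 16758512)) (b (l 16757072) (l 16754976)))))) (b (a (a (l 16759208) (b (l 16757928) (l 16755888))) (b (a (l 16755768) (l 16747904)) (a (b (l 16754096) (l 16752416)) (l 16749544)))) (a (b (a (b (l 16756872) (l 16755584)) (l 16752928)) (l 16750064)) (l 16744368)))))))), by decide +kernel⟩

def k6_B00pm_011_s3 : ∃ t, chk3 f_B00pm_011_s3 t 32 127 1 = true :=
  ⟨(b (a (l 14) (a (l 14) (a (b (a (l 14) (l 531851023)) (l 14)) (b (a (l 531424271) (l 531534607)) (a (l 14) (b (l 531685903) (l 14))))))) (l 14)), by decide +kernel⟩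

def k7_B00pm_011_s3 : ∃ t, chk3 f_B00pm_011_s3 t 33 254 1 = true :=
  ⟨(a (a (a (b (a (l 531376655) (l 531218959)) (b (b (l 16759288) (b (a (l 16769624) (a (l 16768280) (l 16756648))) (a (a (l 16769320) (l 16757792)) (l 16755392)))) (a (b (b (a (l 16757624) (l 16766240)) (l 16764712)) (l 16760968)) (l 16749112)))) (a (b (l 531061519) (b (b (b (l 16767552) (b (l 16756392) (l 16755696))) (l 16742216)) (l 16734736))) (b (b (l 16765128) (b (l 16768320) (b (l 16767312) (l 16755944)))) (b (b (b (a (l 16766040) (l 16764472)) (l 16762944)) (l 16759240)) (l 16730808))))) (a (b (b (l 530347279) (b (a (l 16766592) (a (l 16765104) (l 16758712))) (a (b (l 16754776) (l 16753408)) (l 16750792)))) (b (a (l 16736792) (l 16732816)) (b (l 16748344) (l 16743352)))) (b (b (b (l 16764864) (a (l 16764264) (b (l 16762608) (l 16750928)))) (b (a (b (a (l 16763528) (l 16762200)) (l 16760880)) (l 16758016)) (l 16734176))) (b (l 16737288) (l 16727352)))))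 (b (a (b (a (b (a (l 16751168) (b (l 16759920) (l 16758408))) (a (b (l 16749480) (l 16757600)) (l 16754728))) (a (l 16732216) (l 16748952))) (a (l 16728504) (l 16720312))) (a (b (l 16721864) (l 16733120)) (b (l 16734752) (l 16725024)))) (a (a (b (l 16718680) (l 16729712)) (b (l 16731456) (l 16721520))) (a (b (l 16723288) (l 16713344)) (b (l 16715192) (l 16705248)))))), by decide +kernel⟩

def k8_B00pm_011_s3 : ∃ t, chk3 f_B00pm_011_s3 t 33 255 1 = true :=
  ⟨(b (a (a (b (a (a (l 14) (l 16739080)) (a (l 16724696) (l 16741744))) (a (l 14) (b (l 16736112) (l 16731008)))) (b (a (b (l 16738328) (l 16733280)) (l 16717312)) (a (b (l 16728208) (l 16723104)) (l 16717640)))) (a (b (a (l 16719672) (l 16711472)) (a (l 16709512) (l 16701312))) (b (a (l 16703296) (l 16695200)) (a (l 16693136) (l 16685040))))) (a (a (b (a (l 14) (b (l 16725872) (l 16720720))) (l 14)) (b (a (b (l 16717968) (l 16712808)) (l 16707376)) (b (a (l 16707624)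 (l 16699608)) (b (a (l 16703680) (l 16695688)) (l 16699600))))) (b (a (a (l 16699248) (l 16691048)) (a (l 16682872) (l 16674768))) (b (a (l 16687384) (l 16671032)) (a (b (b (l 16684120) (l 16683176)) (l 16684072)) (b (l 16667616) (l 16668544))))))), by decide +kernel⟩

def k9_B00pm_011_s3 : ∃ t, chk3 f_B00pm_011_s3 t 17 62 1 = true :=
  ⟨(b (a (a (l 4) (a (l 4) (a (l 4) (b (l 4) (l 528775695))))) (a (a (b (l 4) (a (l 529049615) (l 529352719))) (b (a (l 529799439) (l 530201615)) (a (l 529685775) (l 530047759)))) (a (b (a (l 530632719) (l 531092239)) (a (l 530438927) (l 530859023))) (b (a (l 531579919) (l 532096015)) (a (l 531307535) (l 531784719)))))) (a (a (a (b (l 4) (a (b (l 4) (l 528361487)) (b (l 528201231) (l 528326671)))) (b (a (l 4) (l 528145679)) (a (b (l 528218639) (l 528322575)) (b (l 528265999) (l 528349711))))) (a (b (a (l 528256527) (l 528398095)) (b (l 528387087) (l 528165135))) (b (a (l 528570127) (l 528772623))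 (b (l 528669199) (l 528672527))))) (a (a (b (a (l 529005071) (l 529267727)) (a (l 528950799) (l 529171983))) (b (a (l 529560079) (l 529881871)) (b (l 529597199) (b (a (l 16742696) (b (l 16741328) (l 16739144))) (a (b (l 16739728) (a (l 16738304) (l 16736520))) (b (a (l 16737680) (l 16735680)) (l 16732368))))))) (b (a (a (l 530233103) (l 530613263)) (a (l 531022607) (l 531460623))) (a (b (a (l 16743840) (b (l 16744048) (b (l 16741528) (a (l 16739880) (l 16738888))))) (b (a (b (a (l 16739832) (l 16738624)) (a (l 16737312) (l 16734960))) (a (l 16724520) (l 16732488))) (l 16726960))) (b (b (a (l 16742848) (b (l 16743064) (a (l 16741312) (l 16740192)))) (a (b (a (l 16740392) (l 16739424)) (l 16736080)) (l 16734224))) (a (l 16682720) (l 16720632)))))))), by decide +kernel⟩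

def k10_B00pm_011_s3 : ∃ t, chk3 f_B00pm_011_s3 t 34 126 1 = true :=
  ⟨(a (b (a (a (l 528064783) (b (l 528480783) (l 528606991))) (b (a (l 528442127) (l 528440847)) (a (l 528555023) (b (l 16751608) (b (l 16748744) (a (l 16747872) (l 16745416))))))) (b (b (a (a (l 16756712) (l 16747056)) (a (b (l 16743536) (a (l 16747816) (l 16744952))) (b (a (l 16740088) (l 16742064)) (l 16739200)))) (a (a (b (l 16753952) (a (l 16752992) (b (l 16751224) (l 16749824)))) (b (a (l 16750344) (l 16742480)) (l 16745280))) (a (l 16739760) (l 16732200)))) (a (b (a (b (a (l 16739792) (l 16746280)) (l 16743528)) (l 16738048)) (a (l 16736384) (l 16728528))) (a (b (l 16730344) (l 16720824)) (l 16697056))))) (b (a (b (l 528491279) (b (a (l 16747544) (b (l 16744584) (a (l 16743320) (l 16741024)))) (a (b (a (l 16745520) (l 16743168)) (a (l 16742864) (l 16739232))) (b (l 16738624) (l 16733856))))) (b (b (l 16745784) (a (a (l 16744648) (l 16742576))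 (b (a (l 16742048) (l 16740000)) (a (l 16739568) (l 16736856))))) (b (a (b (a (l 16741344) (l 16738928)) (l 16736056)) (l 16731560)) (l 16704800)))) (b (a (a (l 16708504) (l 16701312)) (b (l 16695584) (l 16707224))) (a (b (l 16690792) (l 16702240)) (b (l 16697800) (l 16688264)))))), by decide +kernel⟩

def k11_B00pm_011_s3 : ∃ t, chk3 f_B00pm_011_s3 t 35 126 1 = true :=
  ⟨(b (a (b (a (b (a (b (l 16741760) (a (l 16740536) (l 16738632))) (b (a (l 16739240) (l 16737488)) (l 16734944))) (a (b (a (l 16737936) (l 16734856)) (l 16731896)) (l 16727968))) (b (a (l 16731240) (l 16725576)) (l 16719256))) (a (b (l 16700984) (l 16712816)) (b (l 16710176) (l 16701032)))) (b (a (b (l 16717904) (l 16708832)) (b (l 16709008) (l 16699936))) (a (b (l 16699744) (l 16690600)) (l 16675784)))) (a (b (a (b (l 16703592) (l 16694256)) (b (l 16691800) (l 16682464))) (a (b (l 16684824) (l 16675288)) (b (l 16673024) (l 16663480)))) (a (b (b (l 16681360)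 (l 16672016)) (l 16636840)) (b (l 16667784) (l 16648888))))), by decide +kernel⟩

def k12_B00pm_011_s3 : ∃ t, chk3 f_B00pm_011_s3 t 17 127 1 = true :=
  ⟨(a (b (a (b (a (a (b (l 16726760) (l 16717032)) (b (l 16718904) (l 16709176))) (b (l 16686424) (l 16676688))) (a (b (a (l 16707200) (l 16699344)) (a (l 16697256) (l 16689392))) (b (l 16687824) (l 16677872)))) (b (a (b (l 16692608) (l 16682872)) (b (l 16678632) (l 16668888))) (a (b (l 16673024) (l 16663072)) (b (l 16659040) (l 16649088))))) (b (b (a (a (a (l 16687200) (l 16679344)) (l 16667816)) (a (l 16653016) (l 16639024))) (a (a (a (l 16677040) (l 16669176)) (l 16657656)) (a (l 16642848) (l 16628856)))) (b (a (a (a (l 16666768) (l 16658904)) (l 16647376)) (a (l 16632576) (l 16618584))) (a (b (a (l 16655048) (l 16639600)) (a (b (l 16652088) (l 16653360)) (l 16638072))) (b (a (l 16624728) (l 16610784)) (a (l 16623960) (l 16610632))))))) (b (a (b (a (b (l 16665648) (l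 16655904)) (b (l 16653840) (l 16644088))) (a (b (l 16646048) (l 16636096)) (b (l 16634240) (l 16624280)))) (b (a (l 16638520) (l 16629592)) (a (l 16618808) (l 16609880)))) (b (a (a (b (l 16626032) (l 16615864)) (b (l 16614216) (l 16604048))) (a (l 16598680) (l 16589744))) (b (a (a (l 16605584) (l 16593768)) (a (l 16583304) (l 16574376))) (a (b (a (l 16597920) (l 16586320)) (l 16592752)) (b (a (l 16565656) (l 16557080)) (l 16573416))))))), by decide +kernel⟩

def k13_B00pm_011_s3 : ∃ t, chk3 f_B00pm_011_s3 t 9 60 1 = true :=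
  ⟨(a (a (l 4) (a (l 4) (b (l 4) (b (l 4) (a (l 524768527) (b (l 524207119) (l 524492303))))))) (a (b (a (l 4) (l 522320911)) (a (b (l 523331087) (l 523837455)) (b (l 522973455) (l 523394575)))) (b (a (a (l 522315279) (l 522562575)) (b (l 522180111) (l 522540047))) (a (l 523032591) (b (l 522889487) (l 16632472)))))), by decide +kernel⟩

def k14_B00pm_011_s3 : ∃ t, chk3 f_B00pm_011_s3 t 9 61 1 = true :=
  ⟨(a (a (a (b (l 4) (b (b (l 4) (a (l 4) (b (a (l 4) (l 530367503)) (a (a (b (l 4) (l 531278607)) (b (a (l 530957071) (l 530831631)) (a (a (l 531083791) (l 531019791)) (l 530920975)))) (b (l 530526991) (l 530612239)))))) (a (a (l 532196623) (l 531626255)) (a (a (l 531450127) (b (a (l 531143183) (b (l 530959375) (l 531034895))) (l 531231503))) (b (b (a (b (l 530786575) (l 530810127)) (l 530583567)) (a (l 530857743) (l 530638351))) (a (l 530957583) (l 530717455))))))) (b (b (l 4) (a (b (l 4) (a (l 4) (l 528755471))) (b (a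 (l 4) (l 527588367)) (l 528151311)))) (b (a (b (a (l 529591823) (l 529153807)) (b (l 529673487) (a (l 530104335) (l 529651215)))) (b (l 528530447) (l 528909071))) (a (b (a (b (l 530249743) (l 530324751)) (l 529857039)) (a (a (l 530509327) (l 530306063)) (l 529998095))) (b (l 529219343) (l 529386511)))))) (b (a (b (a (l 526524943) (l 525918991)) (a (a (b (l 527231247) (l 527591439)) (b (l 526892047) (l 527239695))) (b (l 526415375) (l 526744335)))) (a (b (l 525383439) (l 525994511)) (b (l 524916751) (l 525480719)))) (a (b (a (a (l 528130063) (l 527759375)) (a (l 527406863) (l 527072271))) (a (b (l 528420623) (l 528603151)) (b (l 527688207) (l 16705528)))) (b (a (l 526602255) (l 526040335)) (a (l 527121167) (l 526521615)))))) (a (b (a (a (b (l 524518159) (l 525035791)) (l 524419087)) (a (l 524131855) (l 523910415))) (a (b (l 525321999) (a (l 16688424) (l 16652856))) (b (l 524612111) (b (a (l 16662672) (l 16648640)) (a (l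 16657096) (l 16650520)))))) (a (b (l 523692303) (b (a (l 16647152) (b (l 16637416) (l 16630552))) (a (l 16623760) (l 16643160)))) (b (l 523305743) (b (b (l 16620632) (l 16625024)) (l 16644000)))))), by decide +kernel⟩

def k15_B00pm_011_s3 : ∃ t, chk3 f_B00pm_011_s3 t 36 62 1 = true :=
  ⟨(b (b (a (a (b (l 531592975) (l 531746575)) (a (l 531100943) (a (l 531216911) (b (l 530875151) (l 16749448))))) (a (a (b (b (l 530491663) (l 16749544)) (l 530696463)) (b (l 530117903) (l 530250255))) (b (l 529515023) (a (l 16730000) (l 16734744))))) (a (a (a (l 532021775) (l 532272655)) (a (l 531471887) (l 530938895))) (b (a (a (l 530885647) (l 16730352)) (a (l 16735048) (l 16728936))) (a (a (l 16731608) (l 16736224)) (b (l 16717624) (a (l 16729048) (b (l 16723216) (a (l 16724088) (l 16722168))))))))) (b (a (b (a (l 531728655) (a (l 16728800) (a (l 16745608) (b (l 16743584) (l 16731752))))) (a (b (l 16748888) (a (b (l 16746512) (a (l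 16744928) (l 16744680))) (b (a (l 16746720) (l 16746720)) (l 16733016)))) (b (a (b (l 16706144) (a (l 16728096) (l 16726064))) (b (a (l 16733808) (l 16742544)) (l 16745632))) (a (l 16722152) (l 16698752))))) (b (a (b (a (l 16739192) (b (l 16733576) (a (l 16734352) (l 16731816)))) (a (b (a (l 16739368) (l 16736808)) (a (l 16728992) (l 16738248))) (a (l 16725440) (l 16735120)))) (a (b (b (a (l 16729224) (l 16726912)) (l 16729744)) (l 16733728)) (l 16729248))) (a (a (l 16701080) (l 16698912)) (l 16695736)))) (a (b (a (b (a (b (a (l 16742584) (l 16741144)) (l 16737432)) (l 16736568)) (l 16729008)) (a (l 16687440) (l 16685128))) (a (b (l 16719944) (l 16710880)) (l 16699568))) (a (b (l 16702792) (l 16684648)) (b (l 16677560) (l 16701360)))))), by decide +kernel⟩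

def k16_B00pm_011_s3 : ∃ t, chk3 f_B00pm_011_s3 t 37 62 1 = true :=
  ⟨(b (a (a (b (a (l 528994575) (l 528617231)) (b (l 16698208) (b (a (l 16718696) (b (l 16712736) (l 16713568))) (a (l 16708992) (l 16717576))))) (b (b (l 16719240) (l 16712072)) (b (b (l 16706984) (a (l 16708136) (l 16703456))) (l 16712032)))) (b (a (b (l 16705376) (a (l 16701336) (l 16694592))) (b (l 16690680) (b (l 16685712) (l 16686456)))) (a (b (b (a (l 16697680) (l 16694024)) (l 16700416)) (l 16708488)) (l 16699752)))) (a (a (b (b (l 16684456) (l 16649624)) (l 16685272)) (b (l 16643920) (l 16618160))) (b (l 16680440) (l 16653560)))), by decide +kernel⟩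

def k17_B00pm_011_s3 : ∃ t, chk3 f_B00pm_011_s3 t 18 63 1 = true :=
  ⟨(b (a (b (a (a (b (l 16676312) (l 16679072)) (b (l 16670944) (l 16673688))) (a (b (l 16687472) (l 16669248)) (b (l 16683208) (l 16664968)))) (a (a (b (l 16660568) (l 16641672)) (b (l 16655184) (l 16636280))) (a (b (l 16650736) (l 16631824)) (b (l 16646456) (l 16627544))))) (a (a (b (l 16627984) (l 16590896)) (b (l 16665728) (l 16628632))) (b (l 16617232) (l 16580120)))) (a (b (a (a (b (l 16622368) (l 16602656)) (b (l 16616976) (l 16597256))) (a (b (l 16612512) (l 16592800)) (b (l 16608232) (l 16588512)))) (b (a (a (l 16582520) (l 16577128)) (a (l 16572664) (l 16568384))) (a (b (a (l 16567152) (l 16561752)) (b (a (l 16539792) (l 16534880)) (l 16539664))) (b (l 16555152) (a (l 16532520) (l 16507896)))))) (a (b (a (l 16573240) (l 16590000)) (b (l 16562112) (b (l 16546624) (l 16502704)))) (b (l 16541496) (b (l 16553432) (b (l 16538016) (l 16537160))))))),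 by decide +kernel⟩

def k18_B00pm_011_s3 : ∃ t, chk3 f_B00pm_011_s3 t 19 31 1 = true :=
  ⟨(b (b (a (a (b (b (a (b (l 16677560) (l 16675336)) (l 16667512)) (l 16678752)) (l 16611392)) (b (l 16668776) (l 16690992))) (a (l 16594768) (l 16595576))) (a (a (a (l 16664416) (l 16617144)) (l 16639592)) (a (l 16593416) (l 16576240)))) (a (b (a (b (l 16649360) (l 16612248)) (b (l 16637592) (l 16600480))) (b (a (l 16573624) (l 16561872)) (b (l 16538104) (a (l 16529096) (l 16518280))))) (b (a (l 16520520) (l 16587248)) (b (l 16538984) (b (l 16509048) (l 16497160)))))), by decide +kernel⟩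

def k19_B00pm_011_s3 : ∃ t, chk3 f_B00pm_011_s3 t 5 14 1 = true :=
  ⟨(b (b (a (l 4) (a (a (a (b (l 4) (l 522718223)) (l 522820367)) (a (l 522907919) (l 522998287))) (a (a (l 523091215) (l 523186959)) (a (l 523285263) (l 523386127))))) (a (a (l 4) (a (a (l 4) (l 522422799)) (a (l 522492943) (l 522566671)))) (a (a (a (b (l 522672399) (l 522627599)) (b (l 522753039) (l 522705423))) (a (l 522805263) (l 522890767))) (a (a (l 522979087) (l 523070223)) (a (l 523164175) (l 523260687)))))) (a (a (b (a (l 4) (a (l 522446863) (l 522232847))) (a (a (l 521781263) (l 521821711)) (b (l 522166287) (l 522411791)))) (b (a (a (b (l 522315279) (l 522284815)) (b (l 522377487) (l 522343951))) (b (a (l 522443023) (l 522511631)) (a (l 522406415) (l 522472207)))) (a (b (a (l 522255887) (l 522311695)) (l 523048463)) (b (l 522392591) (l 522356751))))) (b (a (a (a (b (l 522583823) (l 522541327)) (l 522629135)) (a (l 522706447) (l 522786831))) (a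 (a (l 522870031) (l 522956303)) (b (l 523120911) (a (l 16451904) (b (l 16437296) (b (l 16419384) (l 16387840))))))) (a (a (a (l 522471695) (b (l 522569487) (a (l 16497984) (b (l 16496672) (l 16473840))))) (b (l 522672399) (b (a (l 16475744) (b (l 16454728) (l 16429144))) (a (b (b (l 16377960) (l 16376432)) (l 16463896)) (l 16458776))))) (b (a (b (l 522848015) (a (b (l 16451440) (l 16441048)) (b (a (l 16431592) (l 16339352)) (l 16429136)))) (b (a (b (l 16422104) (a (l 16334752) (l 16412840))) (b (l 16364208) (l 16411552))) (l 16340168))) (a (b (a (b (l 16355264) (l 16445552)) (l 16440920)) (l 16458128)) (l 16448128))))))), by decide +kernel⟩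

def k20_B00pm_011_s3 : ∃ t, chk3 f_B00pm_011_s3 t 5 15 1 = true :=
  ⟨(b (a (b (a (b (a (a (l 521498383) (l 522250255)) (l 522245391)) (a (a (l 522886671) (l 522731023)) (b (l 16594312) (a (l 16587048) (l 16561568))))) (b (a (l 522033679) (b (a (l 16539064) (l 16510560)) (a (b (l 16521200) (l 16513368)) (b (l 16499080) (l 16503648))))) (a (b (a (l 16550976) (b (l 16528856) (l 16528464))) (a (l 16547192) (l 16543880))) (b (l 16521200) (l 16544032))))) (a (b (a (b (a (l 16624256) (l 16595856)) (a (b (l 16608376) (l 16605000)) (l 16595552))) (b (a (l 16576440) (l 16568648)) (l 16593992))) (a (a (l 16548568) (l 16633056)) (l 16550112))) (b (a (l 16581728) (l 16581808)) (l 16550568)))) (b (a (b (a (b (a (b (l 16489056) (l 16402176)) (l 16478720)) (l 16497944)) (l 16487008)) (a (l 16531712) (l 16530784))) (b (a (l 16485896) (l 16484240)) (l 16528136))) (a (b (l 16496592) (l 16632536)) (b (l 16576576) (l 16572048))))) (a (b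 (a (b (a (l 16597064) (l 16673136)) (a (l 16550168) (l 16600048))) (b (l 16539632) (l 16467000))) (a (b (a (l 16477344) (l 16527320)) (b (l 16487208) (a (l 16469224) (l 16436696)))) (b (l 16478408) (b (l 16421584) (l 16390768))))) (b (a (b (l 16559912) (l 16488032)) (b (l 16499128) (l 16428152))) (b (a (l 16416024) (l 16356768)) (a (l 16345240) (l 16288136)))))), by decide +kernel⟩

def k21_B00pm_011_s3 : ∃ t, chk3 f_B00pm_011_s3 t 3 6 1 = true :=
  ⟨(a (a (b (a (l 4) (b (l 4) (b (l 4) (l 524554255)))) (a (b (a (l 523723791) (l 523963663)) (a (b (l 523803919) (l 523669775)) (b (l 524034063) (l 523893263)))) (b (a (l 524210191) (l 524462863)) (b (l 524113679) (l 523963407))))) (b (a (b (l 1) (a (l 525287695) (l 1))) (l 1)) (a (b (b (l 525198095) (l 524775951)) (b (l 524619023) (l 524459791))) (b (a (l 525521167) (l 1)) (b (l 525415951) (l 524982031)))))) (b (l 1) (a (b (l 1) (a (b (l 1) (a (l 223370787031) (l 1))) (l 1)))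 (l 1)))), by decide +kernel⟩

def k22_B00pm_011_s3 : ∃ t, chk3 f_B00pm_011_s3 t 3 14 1 = true :=
  ⟨(a (b (a (a (b (a (l 523536399) (l 523752975)) (a (a (l 523359759) (l 523461647)) (l 523613199))) (b (a (l 523978511) (l 524212495)) (b (l 523706895) (a (a (l 16390848) (b (l 16377752) (l 16355792))) (b (a (l 16353744) (b (l 16335848) (l 16329784))) (a (b (l 16255640) (l 16338520)) (l 16334136))))))) (a (b (a (l 524454415) (b (l 16369472) (a (l 16338504) (l 16317000)))) (b (a (b (l 16339824) (a (l 16329920) (l 16231408))) (b (a (l 16225832) (l 16300088)) (l 16309448))) (a (a (l 16286912) (l 16326920)) (l 16326000)))) (b (a (b (l 16326568) (b (a (l 16305872) (l 16288400)) (l 16249792))) (b (b (l 16295864) (l 16260280)) (l 16199896))) (a (l 16313592) (l 16312216))))) (a (b (a (b (a (l 523312911) (b (l 16393864) (a (a (l 16389568) (l 16293992)) (b (l 16324952) (l 16366256))))) (a (b (a (l 16411048) (b (l 16391248) (a (l 16387464)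 (l 16381456)))) (a (b (a (l 16400000) (l 16391440)) (l 16396520)) (l 16391576))) (b (a (b (l 16291456) (l 16379904)) (l 16375776)) (l 16390488)))) (a (b (b (a (b (l 16362416) (l 16272496)) (l 16265632)) (l 16361376)) (l 16381792)) (b (l 16353176) (l 16380016)))) (a (b (a (l 16414576) (l 16412992)) (a (l 16446456) (l 16444336))) (b (l 16409784) (l 16440272)))) (b (a (b (l 16350752) (l 16376656)) (l 16274784)) (a (b (l 16404352) (l 16433664)) (l 16326224))))) (a (b (a (b (a (b (b (l 16183632) (l 16269200)) (l 16282000)) (l 16272728)) (l 16309608)) (b (l 1) (l 6))) (b (a (l 16352816) (l 6)) (l 6))) (l 6))), by decide +kernel⟩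

def k23_B00pm_011_s3 : ∃ t, chk3 f_B00pm_011_s3 t 3 15 1 = true :=
  ⟨(a (b (a (b (a (b (l 16480704) (l 16522832)) (l 16410384)) (a (b (l 16570328) (l 16512048)) (l 16320728))) (b (a (l 16485920) (l 6)) (l 6))) (a (b (a (l 16321712) (l 6)) (b (l 16189608) (l 6))) (l 6))) (l 6)), by decide +kernel⟩

theorem t24_B00pm_011_s3 : ∃ t, chk3 f_B00pm_011_s3 t 3 7 1 = true := ex3_b k22_B00pm_011_s3 k23_B00pm_011_s3

theorem t25_B00pm_011_s3 : ∃ t, chk3 f_B00pm_011_s3 t 3 3 1 = true := ex3_b k21_B00pm_011_s3 t24_B00pm_011_s3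

theorem t26_B00pm_011_s3 : ∃ t, chk3 f_B00pm_011_s3 t 5 7 1 = true := ex3_b k19_B00pm_011_s3 k20_B00pm_011_s3

theorem t27_B00pm_011_s3 : ∃ t, chk3 f_B00pm_011_s3 t 18 62 1 = true := ex3_a k15_B00pm_011_s3 k16_B00pm_011_s3

theorem t28_B00pm_011_s3 : ∃ t, chk3 f_B00pm_011_s3 t 18 31 1 = true := ex3_b t27_B00pm_011_s3 k17_B00pm_011_s3

theorem t29_B00pm_011_s3 : ∃ t, chk3 f_B00pm_011_s3 t 9 31 1 = true := ex3_a t28_B00pm_011_s3 k18_B00pm_011_s3

theorem t30_B00pm_011_s3 : ∃ t, chk3 f_B00pm_011_s3 t 9 30 1 = true := ex3_b k13_B00pm_011_s3 k14_B00pm_011_s3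

theorem t31_B00pm_011_s3 : ∃ t, chk3 f_B00pm_011_s3 t 9 15 1 = true := ex3_b t30_B00pm_011_s3 t29_B00pm_011_s3

theorem t32_B00pm_011_s3 : ∃ t, chk3 f_B00pm_011_s3 t 17 126 1 = true := ex3_a k10_B00pm_011_s3 k11_B00pm_011_s3

theorem t33_B00pm_011_s3 : ∃ t, chk3 f_B00pm_011_s3 t 17 63 1 = true := ex3_b t32_B00pm_011_s3 k12_B00pm_011_s3

theorem t34_B00pm_011_s3 : ∃ t, chk3 f_B00pm_011_s3 t 17 31 1 = true := ex3_b k9_B00pm_011_s3 t33_B00pm_011_s3

theorem t35_B00pm_011_s3 : ∃ t, chk3 f_B00pm_011_s3 t 33 127 1 = true := ex3_b k7_B00pm_011_s3 k8_B00pm_011_s3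

theorem t36_B00pm_011_s3 : ∃ t, chk3 f_B00pm_011_s3 t 16 127 1 = true := ex3_a k6_B00pm_011_s3 t35_B00pm_011_s3

theorem t37_B00pm_011_s3 : ∃ t, chk3 f_B00pm_011_s3 t 16 63 1 = true := ex3_b k5_B00pm_011_s3 t36_B00pm_011_s3

theorem t38_B00pm_011_s3 : ∃ t, chk3 f_B00pm_011_s3 t 16 31 1 = true := ex3_b k4_B00pm_011_s3 t37_B00pm_011_s3

theorem t39_B00pm_011_s3 : ∃ t, chk3 f_B00pm_011_s3 t 8 31 1 = true := ex3_a t38_B00pm_011_s3 t34_B00pm_011_s3

theorem t40_B00pm_011_s3 : ∃ t, chk3 f_B00pm_011_s3 t 8 15 1 = true := ex3_b k3_B00pm_011_s3 t39_B00pm_011_s3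

theorem t41_B00pm_011_s3 : ∃ t, chk3 f_B00pm_011_s3 t 4 15 1 = true := ex3_a t40_B00pm_011_s3 t31_B00pm_011_s3

theorem t42_B00pm_011_s3 : ∃ t, chk3 f_B00pm_011_s3 t 4 7 1 = true := ex3_b k2_B00pm_011_s3 t41_B00pm_011_s3

theorem t43_B00pm_011_s3 : ∃ t, chk3 f_B00pm_011_s3 t 2 7 1 = true := ex3_a t42_B00pm_011_s3 t26_B00pm_011_s3

theorem t44_B00pm_011_s3 : ∃ t, chk3 f_B00pm_011_s3 t 2 3 1 = true := ex3_b k1_B00pm_011_s3 t43_B00pm_011_s3

theorem t45_B00pm_011_s3 : ∃ t, chk3 f_B00pm_011_s3 t 1 3 1 = true := ex3_a t44_B00pm_011_s3 t25_B00pm_011_s3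

theorem t46_B00pm_011_s3 : ∃ t, chk3 f_B00pm_011_s3 t 1 1 1 = true := ex3_b k0_B00pm_011_s3 t45_B00pm_011_s3

theorem c_B00pm_011_s3 : CertF 0 536870912 536870912 536870912 1040187392 5207648 false true false .pnn 0 1 1
    ndB0q0 ndB0q1 pcB1 cut_B00pm_011_s3 xt_B00pm_011_s3 :=
  certF0 (fam := false) (s1 := true) (s2 := false) (a := 0) (b := 1) (c := 1) (cn := .pnn) (n1 := ndB0q0) (n2 := ndB0q1) (pc := pcB1) (cut := cut_B00pm_011_s3) (xt := xt_B00pm_011_s3) (P1 := 0) (W1 := 536870912) (P2 := 536870912) (W2 := 536870912) (P3 := 1040187392) (W3 := 5207648)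
    rfl t46_B00pm_011_s3

theorem s_B00pm_011_s3 {κ x : ℝ} (hκ : κ * h0 = ken x) (hx : ((1040187392 : ℕ) : ℝ) / S ≤ x)
    (hx' : x ≤ (((1040187392 : ℕ) : ℝ) + (5207648 : ℕ)) / S)
    (H : CutB (VFD κ) PP tK tL pcB (Cut.of [[⟨0, 0, 0, 22369621⟩, ⟨1, 1, 0, 22369621⟩, ⟨2, 1, 0, 22369621⟩]]) 0 1 1 0 0 (sgb true) (sgb false) x) :
    AltB (VFD κ) PP tK tL pcB [⟨4, 0, 0, 2845415833⟩] 0 1 1 0 0 (sgb true) (sgb false) x :=
  strip_altBD (m := 2845415833) false rfl hκ (SH.κ0 hκ (SH.hx1 hx).le (SH.hx2 hx').le) (SH.hx1 hx).le (SH.hx2 hx') (covB00).cov (covB01).cov hx hx' c_B00pm_011_s3 H ((okx hx hx').extB (T := tt) (sideB hx hx') hκ rfl rfl (.O 0 true) (.O 1 false) (Or.inr rfl))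

noncomputable def cut_B00pm_012_s1 : Cut := Cut.of [[⟨4, 0, 0, 1449551462⟩], [⟨0, 0, 0, 26843545⟩, ⟨1, 1, 0, 26843545⟩, ⟨2, 1, 0, 26843545⟩]]

noncomputable def xt_B00pm_012_s1 : Ext := strExt dd false true false .u0 .u2 .u0m .pnp 0 1 2 rfl rfl gf1 vv ndB0q0 ndB0q2

noncomputable def f_B00pm_012_s1 : ℕ → ℕ → ℕ → ℕ → Bool := onCell 0 536870912 0 536870912 1040187392 5207648
    (rowF 0 false true false .pnp 0 1 2 (qsf 0 536870912 0 536870912 1) ndB0q0 ndB0q2 pcB1 cut_B00pm_012_s1 xt_B00pm_012_s1)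

def k0_B00pm_012_s1 : ∃ t, chk3 f_B00pm_012_s1 t 1 1 1 = true :=
  ⟨(a (l 6) (b (a (b (a (l 6) (a (l 6) (b (l 16482504) (l 6)))) (l 6)) (b (a (b (a (a (l 16459392) (l 16439616)) (b (a (b (l 16415944) (l 16411400)) (b (l 16419360) (l 16393768))) (l 16412944))) (l 6)) (b (a (b (a (l 16415528) (l 16434840)) (a (b (a (l 16374320) (l 16284024)) (l 16379536)) (b (l 16373032) (a (l 16357392) (l 16264112))))) (a (b (l 16459448) (b (l 16392872) (a (l 16346640) (l 16352896)))) (l 527037967))) (a (a (l 16410952) (l 16388616)) (b (a (a (l 16352936) (b (l 16288776) (l 16347784))) (b (a (b (l 16329768) (l 16235208)) (l 16331008)) (a (l 16332448) (l 16232936)))) (a (l 16381264) (l 16355928)))))) (l 6))) (l 6))), by decide +kernel⟩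

theorem c_B00pm_012_s1 : CertF 0 536870912 0 536870912 1040187392 5207648 false true false .pnp 0 1 2
    ndB0q0 ndB0q2 pcB1 cut_B00pm_012_s1 xt_B00pm_012_s1 :=
  certF0 (fam := false) (s1 := true) (s2 := false) (a := 0) (b := 1) (c := 2) (cn := .pnp) (n1 := ndB0q0) (n2 := ndB0q2) (pc := pcB1) (cut := cut_B00pm_012_s1) (xt := xt_B00pm_012_s1) (P1 := 0) (W1 := 536870912) (P2 := 0) (W2 := 536870912) (P3 := 1040187392) (W3 := 5207648)
    rfl k0_B00pm_012_s1

theorem s_B00pm_012_s1 {κ x : ℝ} (hκ : κ * h0 = ken x) (hx : ((1040187392 : ℕ) : ℝ) / S ≤ x)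
    (hx' : x ≤ (((1040187392 : ℕ) : ℝ) + (5207648 : ℕ)) / S)
    (H : CutB (VFD κ) PP tK tL pcB (Cut.of [[⟨0, 0, 0, 26843545⟩, ⟨1, 1, 0, 26843545⟩, ⟨2, 1, 0, 26843545⟩]]) 0 1 2 0 0 (sgb true) (sgb false) x) :
    AltB (VFD κ) PP tK tL pcB [⟨3, 0, 0, 1449551462⟩] 0 1 2 0 0 (sgb true) (sgb false) x :=
  strip_altBD (m := 1449551462) true rfl hκ (SH.κ0 hκ (SH.hx1 hx).le (SH.hx2 hx').le) (SH.hx1 hx).le (SH.hx2 hx') (covB00).cov (covB02).cov hx hx' c_B00pm_012_s1 H ((okx hx hx').extB (T := tt) (sideB hx hx') hκ rfl rfl (.O 0 true) (.O 2 false) (Or.inr rfl))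

noncomputable def cut_B00pm_012_s3 : Cut := Cut.of [[⟨3, 0, 0, 2845415833⟩], [⟨0, 0, 0, 26843545⟩, ⟨1, 1, 0, 26843545⟩, ⟨2, 1, 0, 26843545⟩]]

noncomputable def f_B00pm_012_s3 : ℕ → ℕ → ℕ → ℕ → Bool := onCell 0 536870912 0 536870912 1040187392 5207648
    (rowF 0 false true false .pnp 0 1 2 (qsf 0 536870912 0 536870912 1) ndB0q0 ndB0q2 pcB1 cut_B00pm_012_s3 Ext.none)

def k0_B00pm_012_s3 : ∃ t, chk3 f_B00pm_012_s3 t 2 2 1 = true :=
  ⟨(l 6), by decide +kernel⟩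

def k1_B00pm_012_s3 : ∃ t, chk3 f_B00pm_012_s3 t 4 6 1 = true :=
  ⟨(a (l 2) (a (a (a (l 2) (l 6)) (l 6)) (l 6))), by decide +kernel⟩

def k2_B00pm_012_s3 : ∃ t, chk3 f_B00pm_012_s3 t 8 14 1 = true :=
  ⟨(a (l 2) (b (a (l 2) (b (l 2) (a (l 2) (b (l 16517080) (a (l 16541368) (l 16543624)))))) (a (b (l 2) (a (b (l 2) (a (l 2) (b (l 2) (a (l 2) (l 16638288))))) (b (a (b (l 2) (l 16611456)) (b (l 16602576) (l 16607624))) (a (b (a (l 16625664) (l 16629160)) (a (l 16620960) (l 16645392))) (b (l 16634016) (l 16608248)))))) (b (a (b (a (l 2) (b (l 16556960) (l 16570032))) (a (b (l 16578936) (l 16593360)) (l 16590824))) (b (l 16568328) (b (l 16588408) (l 16602648)))) (b (a (a (l 16595064) (l 16578696)) (a (l 16581992) (l 16541856))) (a (a (l 16626704) (l 16610184)) (b (l 16606416) (l 16602528)))))))), by decide +kernel⟩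

def k3_B00pm_012_s3 : ∃ t, chk3 f_B00pm_012_s3 t 16 15 1 = true :=
  ⟨(b (a (l 2) (b (a (l 2) (b (l 2) (a (l 2) (b (l 2) (a (l 2) (a (l 16666256) (l 16668304))))))) (a (b (l 2) (l 14)) (a (b (b (a (l 2) (l 16694640)) (a (l 16682688) (b (l 16655424) (l 16695024)))) (b (a (l 16689136) (l 16692096)) (l 16671976))) (b (b (a (b (l 16653320) (l 16650648)) (l 16644744)) (l 16663992)) (b (l 16680864) (l 16677888))))))) (a (l 14) (a (l 14) (b (b (a (b (l 16690952) (l 16689680)) (b (l 16675832) (l 16674504))) (a (b (l 16689008) (l 16688680)) (b (l 16673768) (l 16673376)))) (b (a (b (l 16688264) (l 16687608)) (b (l 16672896) (l 16672184))) (b (a (l 16686720) (l 16671248)) (a (b (l 16685904) (l 16685288)) (l 16670088)))))))), by decide +kernel⟩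

def k4_B00pm_012_s3 : ∃ t, chk3 f_B00pm_012_s3 t 17 30 1 = true :=
  ⟨(a (b (a (b (a (b (l 2) (a (l 2) (b (l 16659528) (l 16667824)))) (b (a (b (l 2) (l 16655128)) (b (l 16650624) (l 16658880))) (b (l 16654808) (l 16631616)))) (b (a (a (b (l 16672120) (l 16659408)) (l 16659280)) (l 16656264)) (a (l 16661760) (l 16626744)))) (b (b (a (l 16618160) (l 16624592)) (a (l 16631232) (l 16618592))) (a (b (l 16642832) (l 16655240)) (b (l 16630184) (l 16642584))))) (a (b (a (b (l 16654816) (l 16670344)) (b (l 16661720) (l 16656232))) (a (b (l 16666200) (l 16663168)) (b (l 16652048) (l 16648968)))) (b (a (b (l 16648256) (l 16642736)) (b (l 16635576) (l 16630032))) (a (b (l 16638512) (l 16635384)) (l 16624072))))) (b (b (a (b (a (l 16616544) (l 16564064)) (a (l 16606912) (l 16638312))) (b (a (l 16638728) (l 16631000)) (a (l 16629096) (l 16621368)))) (a (b (a (l 16639472) (l 16628928)) (a (l 16630896) (l 16620344))) (b (a (l 16619712)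 (l 16611992)) (a (l 16611120) (l 16603400))))) (a (b (a (b (l 16623864) (l 16618288)) (b (l 16613304) (l 16607704))) (a (l 16612272) (l 16601632))) (b (a (l 16601104) (l 16593352)) (a (l 16592320) (l 16584512)))))), by decide +kernel⟩

def k5_B00pm_012_s3 : ∃ t, chk3 f_B00pm_012_s3 t 17 31 1 = true :=
  ⟨(a (b (a (b (a (b (l 16661056) (l 16659672)) (b (l 16646800) (l 16645352))) (a (b (l 16658872) (l 16658416)) (l 16644256))) (b (a (l 16632344) (l 16619472)) (a (l 16630480) (l 16617496)))) (b (a (a (b (l 16657880) (l 16657112)) (l 16643024)) (a (l 16629128) (l 16616040))) (a (b (a (l 16656128) (l 16641536)) (a (l 16654920) (l 16640288))) (b (l 16620888) (a (l 16626288) (l 16613096)))))) (b (b (a (a (l 16607576) (l 16596840)) (a (l 16587440) (l 16579552))) (a (a (l 16605488) (l 16594648)) (a (l 16543200) (l 16535216)))) (b (a (a (l 16603936) (l 16593000)) (a (l 16541456) (l 16533376))) (a (b (l 16596592) (b (l 16595576)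 (l 16594840))) (b (l 16577328) (l 16575888)))))), by decide +kernel⟩

def k6_B00pm_012_s3 : ∃ t, chk3 f_B00pm_012_s3 t 9 14 1 = true :=
  ⟨(a (b (a (b (a (b (l 16467728) (l 16493072)) (l 16477352)) (a (b (l 16518424) (l 16543768)) (l 16496016))) (b (a (l 16473744) (l 6)) (a (l 16523240) (l 16519504)))) (a (b (a (b (l 16569096) (l 16574952)) (b (l 16564976) (l 16549536))) (a (b (a (l 16542008) (l 16540368)) (a (l 16597752) (l 16593472))) (b (l 16599432) (a (l 16548152) (l 16544912))))) (b (a (b (l 16560264) (l 16586424)) (b (l 16556008) (l 16581808))) (a (b (l 16531112) (l 16582056)) (a (l 16584048) (l 16539768)))))) (b (a (b (l 6) (l 16516640)) (l 6)) (a (b (a (l 16481856) (l 16564696)) (a (l 16535040) (l 16524848))) (b (l 16484848) (l 16503984))))), by decide +kernel⟩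

def k7_B00pm_012_s3 : ∃ t, chk3 f_B00pm_012_s3 t 9 15 1 = true :=
  ⟨(a (b (a (b (b (b (a (a (l 16624944) (l 16620672)) (l 16594712)) (a (a (l 16615312) (l 16611056)) (l 16595592))) (a (b (a (l 16605944) (l 16601688)) (a (l 16597352) (l 16593104))) (b (a (l 16598344) (l 16595136)) (l 16588152)))) (a (b (a (l 16587288) (l 16583024)) (a (l 16578392) (l 16574072))) (b (a (l 16579672) (l 16576464)) (a (l 16570672) (l 16567416))))) (b (a (b (a (l 16606096) (l 16602888)) (a (l 16587624) (l 16584440))) (b (l 16597744) (l 16579352))) (a (b (l 16571744) (l 16562640)) (b (l 16565072) (l 16555896))))) (a (b (a (b (a (l 16531400) (l 16527008)) (a (l 16528920) (l 16524440))) (b (b (l 16522880) (l 16520984)) (b (l 16519640) (l 16518656)))) (a (b (b (l 16546112) (l 16555448)) (a (l 16545352) (l 16540720))) (b (a (l 16560736) (l 16557256)) (a (l 16516048) (l 16554456))))) (b (a (b (l 16557288) (l 16512488)) (b (l 16550424) (l 16547424)))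 (a (b (l 16510216) (l 16528312)) (a (l 16461672) (l 16541744)))))) (b (b (a (b (l 16543096) (a (l 16571440) (l 16561488))) (a (l 16473152) (l 16541448))) (a (a (l 16552096) (l 16542168)) (l 16521808))) (a (b (a (l 16540872) (l 16530760)) (a (l 16535344) (l 16525024))) (b (l 16510176) (l 16504176))))), by decide +kernel⟩

def k8_B00pm_012_s3 : ∃ t, chk3 f_B00pm_012_s3 t 5 3 1 = true :=
  ⟨(b (l 6) (b (a (b (l 6) (a (b (l 6) (l 16455400)) (l 6))) (l 6)) (a (b (b (a (a (l 16517552) (l 16486248)) (l 16440440)) (a (l 16474560) (l 16414064))) (a (b (l 16462640) (l 16456248)) (b (l 16402032) (l 16395384)))) (b (l 6) (a (l 16340872) (l 16285584)))))), by decide +kernel⟩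

def k9_B00pm_012_s3 : ∃ t, chk3 f_B00pm_012_s3 t 3 1 1 = true :=
  ⟨(b (l 6) (b (l 6) (l 6))), by decide +kernel⟩

theorem t10_B00pm_012_s3 : ∃ t, chk3 f_B00pm_012_s3 t 9 7 1 = true := ex3_b k6_B00pm_012_s3 k7_B00pm_012_s3

theorem t11_B00pm_012_s3 : ∃ t, chk3 f_B00pm_012_s3 t 17 15 1 = true := ex3_b k4_B00pm_012_s3 k5_B00pm_012_s3

theorem t12_B00pm_012_s3 : ∃ t, chk3 f_B00pm_012_s3 t 8 15 1 = true := ex3_a k3_B00pm_012_s3 t11_B00pm_012_s3

theorem t13_B00pm_012_s3 : ∃ t, chk3 f_B00pm_012_s3 t 8 7 1 = true := ex3_b k2_B00pm_012_s3 t12_B00pm_012_s3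

theorem t14_B00pm_012_s3 : ∃ t, chk3 f_B00pm_012_s3 t 4 7 1 = true := ex3_a t13_B00pm_012_s3 t10_B00pm_012_s3

theorem t15_B00pm_012_s3 : ∃ t, chk3 f_B00pm_012_s3 t 4 3 1 = true := ex3_b k1_B00pm_012_s3 t14_B00pm_012_s3

theorem t16_B00pm_012_s3 : ∃ t, chk3 f_B00pm_012_s3 t 2 3 1 = true := ex3_a t15_B00pm_012_s3 k8_B00pm_012_s3

theorem t17_B00pm_012_s3 : ∃ t, chk3 f_B00pm_012_s3 t 2 1 1 = true := ex3_b k0_B00pm_012_s3 t16_B00pm_012_s3

theorem t18_B00pm_012_s3 : ∃ t, chk3 f_B00pm_012_s3 t 1 1 1 = true := ex3_a t17_B00pm_012_s3 k9_B00pm_012_s3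

theorem c_B00pm_012_s3 : CertF 0 536870912 0 536870912 1040187392 5207648 false true false .pnp 0 1 2
    ndB0q0 ndB0q2 pcB1 cut_B00pm_012_s3 Ext.none :=
  certF0 (fam := false) (s1 := true) (s2 := false) (a := 0) (b := 1) (c := 2) (cn := .pnp) (n1 := ndB0q0) (n2 := ndB0q2) (pc := pcB1) (cut := cut_B00pm_012_s3) (xt := Ext.none) (P1 := 0) (W1 := 536870912) (P2 := 0) (W2 := 536870912) (P3 := 1040187392) (W3 := 5207648)
    rfl t18_B00pm_012_s3

theorem s_B00pm_012_s3 {κ x : ℝ} (hκ : κ * h0 = ken x) (hx : ((1040187392 : ℕ) : ℝ) / S ≤ x)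
    (hx' : x ≤ (((1040187392 : ℕ) : ℝ) + (5207648 : ℕ)) / S)
    (H : CutB (VFD κ) PP tK tL pcB (Cut.of [[⟨0, 0, 0, 26843545⟩, ⟨1, 1, 0, 26843545⟩, ⟨2, 1, 0, 26843545⟩]]) 0 1 2 0 0 (sgb true) (sgb false) x) :
    AltB (VFD κ) PP tK tL pcB [⟨4, 0, 0, 2845415833⟩] 0 1 2 0 0 (sgb true) (sgb false) x :=
  strip_altBD (m := 2845415833) false rfl hκ (SH.κ0 hκ (SH.hx1 hx).le (SH.hx2 hx').le) (SH.hx1 hx).le (SH.hx2 hx') (covB00).cov (covB02).cov hx hx' c_B00pm_012_s3 H (noExt_B)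

noncomputable def cut_B00pm_022_s1 : Cut := Cut.of [[⟨4, 0, 0, 1449551462⟩], [⟨0, 0, 0, 26843545⟩, ⟨1, 1, 0, 26843545⟩, ⟨2, 1, 0, 26843545⟩]]

noncomputable def f_B00pm_022_s1 : ℕ → ℕ → ℕ → ℕ → Bool := onCell 1073741824 536870912 0 536870912 1040187392 5207648
    (rowF 2 false true false .pp 0 2 2 (qsf 0 536870912 0 536870912 2) ndB0q0 ndB0q2 pcB2 cut_B00pm_022_s1 Ext.none)

def k0_B00pm_022_s1 : ∃ t, chk3 f_B00pm_022_s1 t 1 1 1 = true :=
  ⟨(l 6), by decide +kernel⟩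

theorem c_B00pm_022_s1 : CertF 0 536870912 0 536870912 1040187392 5207648 false true false .pp 0 2 2
    ndB0q0 ndB0q2 pcB2 cut_B00pm_022_s1 Ext.none :=
  certF2 (fam := false) (s1 := true) (s2 := false) (a := 0) (b := 2) (c := 2) (cn := .pp) (n1 := ndB0q0) (n2 := ndB0q2) (pc := pcB2) (cut := cut_B00pm_022_s1) (xt := Ext.none) (P1 := 0) (W1 := 536870912) (P2 := 0) (W2 := 536870912) (P3 := 1040187392) (W3 := 5207648)
    rfl (fun _ => rfl) k0_B00pm_022_s1

theorem s_B00pm_022_s1 {κ x : ℝ} (hκ : κ * h0 = ken x) (hx : ((1040187392 : ℕ) : ℝ) / S ≤ x)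
    (hx' : x ≤ (((1040187392 : ℕ) : ℝ) + (5207648 : ℕ)) / S)
    (H : CutB (VFD κ) PP tK tL pcB (Cut.of [[⟨0, 0, 0, 26843545⟩, ⟨1, 1, 0, 26843545⟩, ⟨2, 1, 0, 26843545⟩]]) 0 2 2 0 0 (sgb true) (sgb false) x) :
    AltB (VFD κ) PP tK tL pcB [⟨3, 0, 0, 1449551462⟩] 0 2 2 0 0 (sgb true) (sgb false) x :=
  strip_altBD (m := 1449551462) true rfl hκ (SH.κ0 hκ (SH.hx1 hx).le (SH.hx2 hx').le) (SH.hx1 hx).le (SH.hx2 hx') (covB00).cov (covB02).cov hx hx' c_B00pm_022_s1 H (noExt_B)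

noncomputable def cut_B00pm_022_s3 : Cut := Cut.of [[⟨3, 0, 0, 2845415833⟩], [⟨0, 0, 0, 26843545⟩, ⟨1, 1, 0, 26843545⟩, ⟨2, 1, 0, 26843545⟩]]

noncomputable def f_B00pm_022_s3 : ℕ → ℕ → ℕ → ℕ → Bool := onCell 0 536870912 0 536870912 1040187392 5207648
    (rowF 0 false true false .pp 0 2 2 (qsf 0 536870912 0 536870912 2) ndB0q0 ndB0q2 pcB2 cut_B00pm_022_s3 Ext.none)

def k0_B00pm_022_s3 : ∃ t, chk3 f_B00pm_022_s3 t 2 2 1 = true :=
  ⟨(l 6), by decide +kernel⟩

def k1_B00pm_022_s3 : ∃ t, chk3 f_B00pm_022_s3 t 4 6 1 = true :=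
  ⟨(b (l 6) (a (a (b (a (b (l 16386152) (l 16459896)) (b (l 6) (l 16447568))) (a (b (l 16443024) (l 16502512)) (b (l 16504024) (l 16469104)))) (b (l 6) (a (b (l 16488712) (l 16528384)) (b (l 6) (l 16530832))))) (a (b (l 6) (l 6)) (l 6)))), by decide +kernel⟩

def k2_B00pm_022_s3 : ∃ t, chk3 f_B00pm_022_s3 t 8 14 1 = true :=
  ⟨(a (b (a (b (a (l 16538296) (l 16626544)) (a (b (l 16611304) (l 16607416)) (l 16544736))) (b (b (l 16500280) (l 16518864)) (a (l 16555672) (l 16530912)))) (a (b (a (b (l 16564416) (b (l 16608320) (l 16590392))) (b (l 16545168) (a (l 16628208) (l 16639848)))) (a (b (a (b (l 16609008) (l 16614384)) (b (l 16622384) (l 16628160))) (a (b (a (l 16617264) (l 16624488)) (a (b (l 16622752) (l 16626704)) (l 16621600))) (b (l 16635000) (l 16632304)))) (b (b (l 16599328) (l 16605568)) (a (b (l 16648336) (l 16656312)) (l 16622872))))) (b (a (b (l 16649624) (l 16572088)) (b (l 16548712) (l 16640608))) (a (b (l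 16625104) (b (l 16592088) (l 16591904))) (b (l 16602176) (a (l 16651584) (l 16636408))))))) (b (a (b (a (l 16567176) (l 16556664)) (a (l 16594264) (l 16580464))) (b (l 16472456) (a (l 16574576) (l 16578256)))) (a (b (b (a (l 16609712) (l 16593440)) (a (l 16616120) (l 16598248))) (a (b (l 16618064) (l 16574352)) (b (l 16598640) (l 16595344)))) (b (a (b (l 16585104) (l 16588336)) (l 16587600)) (a (b (l 16587184) (l 1)) (l 1)))))), by decide +kernel⟩

def k3_B00pm_022_s3 : ∃ t, chk3 f_B00pm_022_s3 t 16 60 1 = true :=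
  ⟨(a (a (b (a (a (b (b (a (l 16628968) (l 16632760)) (a (b (l 16632216) (l 16629192)) (l 16637136))) (b (a (b (a (l 16635736) (l 16637664)) (a (b (l 16637456) (l 16638616)) (l 16639976))) (l 16641688)) (a (a (b (b (l 16639792) (l 16640968)) (b (l 16642160) (l 16643360))) (b (l 16642320) (l 16644704))) (a (l 16645440) (l 16647360))))) (b (b (l 16638352) (l 16642760)) (b (l 16647344) (l 16646848)))) (b (b (l 16649160) (l 16632672)) (b (l 16637320) (l 16652616)))) (b (b (a (a (a (a (b (a (b (l 16644080) (l 16645296)) (l 16645664)) (c (l 16645104) (l 16644904))) (b (l 16647128) (l 16649584))) (a (l 16650296) (l 16652216))) (l 16651736)) (l 16657568)) (a (a (b (a (a (b (l 16646864) (l 16650736)) (l 16652072)) (l 16654992)) (a (a (b (l 16651992) (l 16653240)) (l 16654576)) (l 16657504))) (l 16651520)) (l 16662656))) (b (a (a (a (a (b (l 16649840) (l 16657496)) (l 16658272)) (l 16661208)) (l 16666992)) (l 16657208)) (a (a (a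 (b (l 16660848) (l 16663168)) (l 16665960)) (l 16671768)) (l 16662048))))) (b (a (b (l 16623144) (l 16653592)) (b (l 16594072) (l 16603720))) (a (b (l 16663696) (l 16652896)) (b (l 16613992) (l 16613776))))) (b (a (a (b (l 16683640) (l 16598448)) (l 16644624)) (b (l 16599744) (l 16597528))) (a (a (b (l 16596608) (l 16678688)) (b (l 16662480) (l 16660328))) (a (l 16622840) (b (l 16628600) (l 16625728)))))), by decide +kernel⟩

def k4_B00pm_022_s3 : ∃ t, chk3 f_B00pm_022_s3 t 16 61 1 = true :=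
  ⟨(a (b (a (a (a (b (a (b (a (l 16665568) (l 16667560)) (l 16665704)) (b (l 16670528) (l 16674928))) (a (b (l 16675192) (l 16679312)) (b (l 16679184) (l 16683328)))) (b (a (l 16666176) (l 16680520)) (b (l 16685072) (l 16689240)))) (a (b (l 16665232) (l 16694848)) (b (l 16693592) (l 16702304)))) (a (b (l 16662336) (l 16671144)) (b (l 16613136) (l 16613224)))) (l 14)) (a (b (a (b (l 16677704) (l 16677456)) (l 16658624)) (l 14)) (b (a (b (l 16640872) (l 16639928)) (l 16612472)) (a (b (l 16639536) (l 1)) (l 1))))), by decide +kernel⟩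

def k5_B00pm_022_s3 : ∃ t, chk3 f_B00pm_022_s3 t 17 30 1 = true :=
  ⟨(b (a (a (b (a (l 16618272) (l 16605320)) (b (l 16585576) (l 16603128))) (l 1)) (l 1)) (l 1)), by decide +kernel⟩

def k6_B00pm_022_s3 : ∃ t, chk3 f_B00pm_022_s3 t 8 31 1 = true :=
  ⟨(a (a (l 14) (a (l 14) (l 1))) (l 1)), by decide +kernel⟩

def k7_B00pm_022_s3 : ∃ t, chk3 f_B00pm_022_s3 t 9 7 1 = true :=
  ⟨(b (a (a (b (a (a (l 134787679703) (l 16509816)) (l 47814631751)) (l 1)) (l 1)) (l 1)) (l 1)), by decide +kernel⟩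

def k8_B00pm_022_s3 : ∃ t, chk3 f_B00pm_022_s3 t 5 3 1 = true :=
  ⟨(b (l 1) (l 1)), by decide +kernel⟩

def k9_B00pm_022_s3 : ∃ t, chk3 f_B00pm_022_s3 t 3 1 1 = true :=
  ⟨(l 1), by decide +kernel⟩

theorem t10_B00pm_022_s3 : ∃ t, chk3 f_B00pm_022_s3 t 16 30 1 = true := ex3_b k3_B00pm_022_s3 k4_B00pm_022_s3

theorem t11_B00pm_022_s3 : ∃ t, chk3 f_B00pm_022_s3 t 8 30 1 = true := ex3_a t10_B00pm_022_s3 k5_B00pm_022_s3

theorem t12_B00pm_022_s3 : ∃ t, chk3 f_B00pm_022_s3 t 8 15 1 = true := ex3_b t11_B00pm_022_s3 k6_B00pm_022_s3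

theorem t13_B00pm_022_s3 : ∃ t, chk3 f_B00pm_022_s3 t 8 7 1 = true := ex3_b k2_B00pm_022_s3 t12_B00pm_022_s3

theorem t14_B00pm_022_s3 : ∃ t, chk3 f_B00pm_022_s3 t 4 7 1 = true := ex3_a t13_B00pm_022_s3 k7_B00pm_022_s3

theorem t15_B00pm_022_s3 : ∃ t, chk3 f_B00pm_022_s3 t 4 3 1 = true := ex3_b k1_B00pm_022_s3 t14_B00pm_022_s3

theorem t16_B00pm_022_s3 : ∃ t, chk3 f_B00pm_022_s3 t 2 3 1 = true := ex3_a t15_B00pm_022_s3 k8_B00pm_022_s3

theorem t17_B00pm_022_s3 : ∃ t, chk3 f_B00pm_022_s3 t 2 1 1 = true := ex3_b k0_B00pm_022_s3 t16_B00pm_022_s3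

theorem t18_B00pm_022_s3 : ∃ t, chk3 f_B00pm_022_s3 t 1 1 1 = true := ex3_a t17_B00pm_022_s3 k9_B00pm_022_s3

theorem c_B00pm_022_s3 : CertF 0 536870912 0 536870912 1040187392 5207648 false true false .pp 0 2 2
    ndB0q0 ndB0q2 pcB2 cut_B00pm_022_s3 Ext.none :=
  certF0 (fam := false) (s1 := true) (s2 := false) (a := 0) (b := 2) (c := 2) (cn := .pp) (n1 := ndB0q0) (n2 := ndB0q2) (pc := pcB2) (cut := cut_B00pm_022_s3) (xt := Ext.none) (P1 := 0) (W1 := 536870912) (P2 := 0) (W2 := 536870912) (P3 := 1040187392) (W3 := 5207648)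
    rfl t18_B00pm_022_s3

theorem s_B00pm_022_s3 {κ x : ℝ} (hκ : κ * h0 = ken x) (hx : ((1040187392 : ℕ) : ℝ) / S ≤ x)
    (hx' : x ≤ (((1040187392 : ℕ) : ℝ) + (5207648 : ℕ)) / S)
    (H : CutB (VFD κ) PP tK tL pcB (Cut.of [[⟨0, 0, 0, 26843545⟩, ⟨1, 1, 0, 26843545⟩, ⟨2, 1, 0, 26843545⟩]]) 0 2 2 0 0 (sgb true) (sgb false) x) :
    AltB (VFD κ) PP tK tL pcB [⟨4, 0, 0, 2845415833⟩] 0 2 2 0 0 (sgb true) (sgb false) x :=
  strip_altBD (m := 2845415833) false rfl hκ (SH.κ0 hκ (SH.hx1 hx).le (SH.hx2 hx').le) (SH.hx1 hx).le (SH.hx2 hx') (covB00).cov (covB02).cov hx hx' c_B00pm_022_s3 H (noExt_B)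

noncomputable def cut_B00pm_101_s1 : Cut := Cut.of [[⟨4, 0, 0, 1127428915⟩], [⟨0, 1, 0, 8388608⟩, ⟨1, 0, 0, 8388608⟩, ⟨2, 1, 0, 8388608⟩], [⟨0, 0, 1, 46137344⟩, ⟨1, 1, 2, 46137344⟩, ⟨2, 1, 0, 1048576⟩, ⟨0, 0, 0, 1054867456⟩, ⟨0, 1, 0, 38117834⟩, ⟨1, 0, 0, 38117834⟩, ⟨1, 1, 0, 1054867456⟩]]

noncomputable def f_B00pm_101_s1 : ℕ → ℕ → ℕ → ℕ → Bool := onCell 0 536870912 536870912 536870912 1040187392 5207648
    (rowF 2 false true false .npn 1 0 1 (qsf 536870912 536870912 536870912 536870912 0) ndB0q1 ndB0q1 pcB0 cut_B00pm_101_s1 Ext.none)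

def k0_B00pm_101_s1 : ∃ t, chk3 f_B00pm_101_s1 t 2 2 1 = true :=
  ⟨(l 6), by decide +kernel⟩

def k1_B00pm_101_s1 : ∃ t, chk3 f_B00pm_101_s1 t 4 6 1 = true :=
  ⟨(l 6), by decide +kernel⟩

def k2_B00pm_101_s1 : ∃ t, chk3 f_B00pm_101_s1 t 8 14 1 = true :=
  ⟨(l 6), by decide +kernel⟩

def k3_B00pm_101_s1 : ∃ t, chk3 f_B00pm_101_s1 t 16 30 1 = true :=
  ⟨(l 6), by decide +kernel⟩

def k4_B00pm_101_s1 : ∃ t, chk3 f_B00pm_101_s1 t 32 62 1 = true :=
  ⟨(l 6), by decide +kernel⟩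

def k5_B00pm_101_s1 : ∃ t, chk3 f_B00pm_101_s1 t 32 126 1 = true :=
  ⟨(a (b (l 6) (b (l 6) (b (l 6) (a (a (a (a (c (a (l 16773304) (l 16775096)) (a (l 16772936) (l 16774704))) (c (l 16777792) (l 16772112))) (a (c (l 16781376) (l 16780896)) (l 6))) (l 6)) (l 6))))) (l 6)), by decide +kernel⟩

def k6_B00pm_101_s1 : ∃ t, chk3 f_B00pm_101_s1 t 32 254 1 = true :=
  ⟨(a (a (a (b (a (b (a (c (a (l 16774400) (l 16776024)) (b (l 16774632) (l 16775120))) (c (l 16778456) (l 16772840))) (a (l 14) (c (l 16778960) (l 16773400)))) (b (c (b (l 16772832) (l 16772872)) (b (l 16772368) (l 16772448))) (a (c (l 16781880) (l 16781512)) (c (l 16784808) (l 16784400))))) (a (l 14) (a (l 14) (b (c (l 16784472) (l 16773640)) (l 14))))) (b (a (a (b (b (l 16777584) (l 16777400)) (c (l 16787744) (l 16776808))) (b (c (l 16770536) (l 16769976)) (c (l 16769728) (l 16769232)))) (b (a (c (l 16773808) (l 16773200)) (l 6)) (c (a (l 16772464) (l 16770448))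 (a (l 16772144) (l 16771040))))) (b (a (a (c (l 16776600) (l 16776208)) (c (l 16768744) (l 16778800))) (c (l 16779456) (a (l 16770288) (l 16768648)))) (a (a (l 14) (c (l 16778080) (l 16777704))) (a (c (l 16777800) (l 16778216)) (c (l 16776432) (l 16776888))))))) (a (b (b (l 6) (a (c (l 16777896) (l 16778560)) (a (l 16780464) (l 6)))) (a (b (c (l 16776048) (b (l 16766616) (l 16776176))) (c (a (l 16785536) (l 16784128)) (b (l 16775288) (l 16784928)))) (b (c (l 16777896) (a (l 16784616) (l 16783000))) (c (l 16776832) (a (l 16783312) (l 16782024)))))) (b (l 6) (a (b (c (l 16774552) (a (l 16781384) (l 16779744))) (c (a (l 16780064) (l 16778704)) (a (l 16780728) (l 16779408)))) (a (b (c (l 16777256) (l 16778096)) (c (l 16777320) (l 16778064))) (b (l 6) (c (l 16775920) (l 16776712)))))))) (a (a (b (l 6) (b (l 6) (a (a (c (l 16774504) (l 16775336)) (c (l 16773064) (l 16773944))) (a (c (l 16771592) (b (l 6) (l 16772848))) (l 6)))))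 (l 6)) (l 6))), by decide +kernel⟩

def k7_B00pm_101_s1 : ∃ t, chk3 f_B00pm_101_s1 t 64 255 1 = true :=
  ⟨(b (a (a (l 14) (b (b (a (l 14) (c (l 16775472) (l 16775856))) (l 14)) (l 14))) (a (a (b (b (c (l 16783664) (l 16773640)) (c (l 16777688) (l 16778112))) (b (c (l 16776992) (a (l 14) (l 16782216))) (l 14))) (b (a (b (l 16782176) (l 16781664)) (c (l 16780672) (l 16781208))) (a (b (c (l 16780968) (l 16781416)) (c (l 16780544) (l 16780960))) (c (l 16780080) (b (l 16780696) (l 16780408)))))) (c (b (a (b (l 16779176) (l 16779088)) (a (l 16777536) (l 16776440))) (a (a (l 16779384) (l 16778656)) (b (l 16777368) (l 16777672)))) (b (a (a (l 16780232) (l 16779224)) (a (l 16778200) (l 16777144))) (a (a (l 16779888) (l 16779200)) (a (l 16778488) (l 16777744))))))) (a (l 14) (a (b (a (l 14) (a (l 14) (b (c (l 16779744) (l 16780152)) (l 14)))) (l 14)) (b (a (b (a (c (l 16779288) (l 16779736)) (c (l 16778800) (l 16779288))) (a (c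 (l 16779272) (l 16779688)) (c (l 16778944) (l 16779392)))) (b (a (c (l 16778288) (l 16778800)) (c (l 16777736) (l 16778288))) (a (c (l 16778584) (l 16779064)) (c (l 16778192) (l 16778704))))) (b (b (a (a (l 14) (c (l 16779080) (l 16779496))) (c (a (l 16778840) (l 16778560)) (a (l 16779288) (l 16779048)))) (a (l 14) (c (a (l 16779016) (l 16778816)) (a (l 16779448) (l 16779280))))) (a (l 14) (b (a (c (l 16779208) (a (l 14) (l 16779600))) (c (l 16779080) (l 16779528))) (a (l 14) (c (a (l 16779376) (l 16779344)) (a (l 16779792) (l 16779776))))))))))), by decide +kernel⟩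

def k8_B00pm_101_s1 : ∃ t, chk3 f_B00pm_101_s1 t 260 255 1 = true :=
  ⟨(b (c (b (a (a (l 16775328) (l 16774192)) (a (l 16773040) (l 16771864))) (a (b (l 16775600) (l 16776208)) (b (l 16773736) (l 16774640)))) (b (a (b (l 16770048) (l 16770536)) (a (l 16771256) (b (l 16772312) (l 16773168)))) (a (b (l 16776304) (l 16776864)) (a (l 16775360) (b (l 16774056) (l 16774984)))))) (b (a (b (a (c (l 16777152) (l 16777752)) (c (l 16776544) (l 16777176))) (a (c (l 16777760) (l 16778320)) (c (l 16777304) (l 16777896)))) (b (c (a (l 16775912) (l 16775240)) (a (l 16776584) (l 16775952))) (c (a (l 16776816) (l 16776296)) (a (l 16777440) (l 16776960))))) (b (a (a (c (b (l 16778248) (l 16778576)) (b (l 16778768) (l 16779080))) (c (b (l 16777896) (l 16778304)) (b (l 16778456) (l 16778848)))) (c (a (b (l 16777520) (l 16778000)) (b (l 16777112) (l 16777664))) (a (b (l 16778112) (l 16778576)) (b (l 16777744) (l 16778272))))) (a (a (c (b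 (l 16778920) (a (l 16779296) (l 16779248))) (b (l 16779400) (a (l 16779752) (l 16779720)))) (c (b (l 16778728) (a (l 16779184) (l 16779120))) (b (l 16779240) (a (l 16779672) (l 16779624))))) (b (c (a (l 16778496) (l 16778232)) (a (l 16779048) (l 16778816))) (c (a (a (l 16779040) (l 16778952)) (c (l 16778664) (l 16778944))) (a (a (l 16779560) (l 16779488)) (c (l 16779232) (l 16779512))))))))), by decide +kernel⟩

def k9_B00pm_101_s1 : ∃ t, chk3 f_B00pm_101_s1 t 261 255 1 = true :=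
  ⟨(b (a (a (b (c (l 16770648) (b (l 16771072) (l 16772080))) (c (l 16772832) (b (l 16773120) (l 16774192)))) (a (c (b (l 16769728) (l 16772136)) (b (l 16770680) (l 16772992))) (c (b (l 16768736) (l 16771272)) (b (l 16769696) (l 16772128))))) (a (b (c (l 16761448) (c (l 16767392) (l 16762624))) (c (b (l 16768688) (l 16770048)) (c (l 16769984) (l 16765160)))) (b (l 6) (b (c (l 16766080) (l 16766904)) (c (l 16767536) (l 16768296)))))) (c (a (b (a (b (l 16774552) (l 16775744)) (a (l 16772040) (b (l 16773240) (l 16774600)))) (b (a (b (l 16776672) (l 16777296)) (a (l 16776656) (b (l 16775640) (l 16776352)))) (a (b (l 16777936) (c (l 16778432) (l 16778728))) (a (b (l 16777688) (l 16778392)) (b (l 16777064) (c (l 16777640) (l 16777944))))))) (b (b (a (l 16771432) (l 16769008)) (a (l 16770232) (b (l 16770128) (l 16770888)))) (a (a (b (l 16774872) (b (l 16775968) (c (l 16776576) (l 16776864)))) (b (l 16773744) (b (l 16774872) (c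 (l 16775504) (l 16775776))))) (b (b (l 16771656) (a (l 16772992) (l 16771864))) (b (a (l 16773768) (l 16772656)) (a (c (l 16774424) (l 16774680)) (c (l 16773344) (l 16773584)))))))) (a (b (a (b (l 16775304) (l 16776456)) (a (l 16775424) (l 16772048))) (a (b (b (l 16777336) (l 16777944)) (b (l 16778560) (c (l 16779032) (l 16779336)))) (a (b (l 16777344) (b (l 16778344) (l 16779016))) (b (l 16776672) (b (l 16777712) (c (l 16778256) (l 16778568))))))) (b (b (a (l 16772176) (l 16769704)) (a (l 16770920) (l 16768520))) (c (b (a (l 16772160) (l 16769848)) (a (a (l 16776792) (l 16775672)) (b (l 16773608) (a (l 16774936) (l 16773824))))) (a (b (l 16775096) (a (l 16777088) (l 16775960))) (b (l 16772760) (a (l 16774824) (l 16773680))))))))), by decide +kernel⟩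

def k10_B00pm_101_s1 : ∃ t, chk3 f_B00pm_101_s1 t 262 510 1 = true :=
  ⟨(b (l 6) (b (a (a (a (c (l 16764096) (l 16764896)) (l 6)) (l 6)) (l 6)) (a (c (c (l 16758280) (l 16758632)) (a (c (l 16765528) (l 16765888)) (c (l 16762920) (l 16763264)))) (a (b (l 6) (c (l 16760232) (l 16760856))) (l 6))))), by decide +kernel⟩

def k11_B00pm_101_s1 : ∃ t, chk3 f_B00pm_101_s1 t 262 1022 1 = true :=
  ⟨(b (a (c (a (l 16766560) (l 16764072)) (a (l 16761968) (c (l 16764528) (l 16764832)))) (c (a (l 16761552) (l 16756376)) (a (c (l 16761976) (l 16762264)) (c (l 16759392) (l 16759656))))) (a (c (a (b (l 16767744) (l 16768544)) (b (l 16765336) (l 16766176))) (a (b (l 16768344) (l 16769112)) (b (l 16765888) (l 16766696)))) (c (a (b (l 16762888) (l 16763776)) (a (l 16761496) (l 16760256))) (a (b (l 16763392) (l 16764240)) (c (l 16761200) (l 16761424)))))), by decide +kernel⟩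

def k12_B00pm_101_s1 : ∃ t, chk3 f_B00pm_101_s1 t 262 1023 1 = true :=
  ⟨(a (b (c (a (b (l 16769352) (c (l 16770048) (l 16770288))) (b (c (l 16766912) (l 16767152)) (c (l 16767776) (l 16768000)))) (a (b (l 16769888) (a (l 16771248) (l 16770080))) (b (l 16767504) (a (l 16768912) (l 16767736))))) (b (c (a (a (l 16771544) (l 16770432)) (c (a (l 16769208) (l 16768096)) (a (l 16769416) (l 16768280)))) (a (a (l 16772024) (l 16770880)) (c (l 16769048) (l 16769256)))) (c (a (a (c (l 16772256) (l 16772480)) (c (l 16771168) (l 16771376))) (a (c (l 16770080) (l 16770264)) (c (l 16768984) (l 16769152)))) (a (c (a (l 16772704) (l 16771584)) (a (l 16772928) (l 16771792))) (a (c (l 16770456) (l 16770648)) (c (l 16769328) (l 16769504))))))) (b (b (c (a (c (l 16764576) (l 16764784)) (c (l 16762200) (l 16762384))) (a (c (l 16764992) (l 16765208)) (c (l 16762568) (l 16762752)))) (c (a (c (l 16765488) (l 16765672)) (c (l 16763160) (l 16763320)))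 (a (c (l 16765864) (l 16766056)) (c (l 16763488) (l 16763648))))) (b (c (a (c (a (l 16766968) (l 16765840)) (a (l 16767144) (l 16766000))) (c (a (l 16764696) (l 16763552)) (a (l 16764848) (l 16763680)))) (a (c (a (l 16767320) (l 16766160)) (a (l 16767504) (l 16766328))) (c (a (l 16764992) (l 16763816)) (a (l 16765144) (l 16763952))))) (c (a (a (c (l 16767880) (l 16768040)) (c (b (l 16766536) (l 16767008)) (l 16766912))) (c (a (b (l 16765416) (l 16765896)) (c (l 16764504) (l 16764560))) (a (b (l 16765544) (l 16766016)) (b (l 16764400) (l 16764880))))) (a (a (c (l 16768192) (l 16768352)) (c (l 16767056) (l 16767200))) (c (a (l 16765912) (b (l 16764520) (l 16764984))) (a (l 16766040) (b (l 16764640) (l 16765096))))))))), by decide +kernel⟩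

def k13_B00pm_101_s1 : ∃ t, chk3 f_B00pm_101_s1 t 263 510 1 = true :=
  ⟨(l 6), by decide +kernel⟩

def k14_B00pm_101_s1 : ∃ t, chk3 f_B00pm_101_s1 t 263 1022 1 = true :=
  ⟨(b (a (a (b (l 6) (c (l 16756904) (a (l 16758016) (l 16756704)))) (l 6)) (l 6)) (a (c (a (b (l 16757888) (c (l 16758784) (l 16758968))) (b (c (l 16755240) (l 16755424)) (c (l 16756288) (l 16756448)))) (a (c (l 16758672) (l 16758872)) (c (b (l 16755608) (l 16756608)) (a (l 16756936) (l 16755632))))) (b (l 6) (a (c (c (l 16753760) (l 16753896)) (c (l 16754032) (l 16754176))) (l 6))))), by decide +kernel⟩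

def k15_B00pm_101_s1 : ∃ t, chk3 f_B00pm_101_s1 t 1052 1023 1 = true :=
  ⟨(b (c (a (c (l 16760896) (l 16761048)) (b (l 16759256) (a (l 16760568) (l 16759968)))) (b (c (l 16760112) (l 16760272)) (c (l 16761072) (l 16761208)))) (b (c (c (a (l 16762392) (l 16761224)) (a (l 16762512) (l 16761328))) (c (a (l 16762632) (l 16761440)) (a (l 16762752) (l 16761544)))) (c (c (a (c (c (l 16763360) (l 16763384)) (a (l 16763704) (l 16763136))) (c (b (l 16761976) (a (l 16762776) (l 16762208))) (b (l 16762016) (a (l 16762816) (l 16762240))))) (a (b (l 16763248) (l 16763736)) (c (c (l 16762304) (l 16762328)) (c (l 16762344) (l 16762368))))) (c (a (b (l 16763352) (l 16763832)) (a (l 16762712) (l 16762120))) (a (b (l 16763456) (l 16763920)) (b (l 16762264) (l 16762736))))))), by decide +kernel⟩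

def k16_B00pm_101_s1 : ∃ t, chk3 f_B00pm_101_s1 t 1053 1023 1 = true :=
  ⟨(b (a (c (b (l 16758032) (c (l 16759000) (l 16759120))) (c (l 16758736) (l 16758872))) (c (b (b (l 16756528) (l 16757056)) (c (l 16757792) (l 16757896))) (b (l 16757048) (c (l 16758000) (l 16758104))))) (b (c (a (c (c (l 16760024) (l 16760072)) (c (l 16760120) (l 16760168))) (c (c (a (l 16759144) (l 16758552)) (l 16758888)) (c (l 16758928) (l 16758960)))) (c (a (l 16760232) (b (l 16758768) (l 16759280))) (a (l 16760328) (b (l 16758856) (l 16759352))))) (c (b (a (a (c (l 16761128) (l 16761208)) (c (c (l 16760528) (l 16760568)) (l 16760616))) (c (a (c (l 16759952) (l 16759984)) (c (l 16759368) (l 16759392))) (a (c (l 16760008) (l 16760040)) (c (l 16759424) (l 16759448))))) (a (a (c (c (l 16761640) (l 16761672)) (c (l 16761704) (l 16761736))) (c (c (b (l 16760928) (l 16761200)) (l 16761096)) (c (l 16761120) (l 16761152)))) (c (a (a (c (l 16760632)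 (l 16760656)) (b (l 16760224) (c (l 16760480) (l 16760504)))) (c (b (l 16759776) (l 16760048)) (b (l 16759800) (l 16760064)))) (a (c (b (l 16760408) (l 16760672)) (b (l 16760432) (l 16760696))) (c (b (l 16759824) (l 16760088)) (l 16759976)))))) (a (c (b (l 16760984) (c (l 16761472) (l 16761504))) (b (l 16761056) (c (l 16761536) (l 16761568)))) (c (b (c (a (l 16760072) (l 16759480)) (l 16759808)) (c (a (l 16760592) (l 16760000)) (a (l 16760616) (l 16760016)))) (a (c (l 16760392) (l 16760416)) (c (l 16759784) (l 16759808)))))))), by decide +kernel⟩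

def k17_B00pm_101_s1 : ∃ t, chk3 f_B00pm_101_s1 t 1054 1023 1 = true :=
  ⟨(b (c (b (c (l 16754856) (l 16754968)) (c (a (l 16756576) (l 16755352)) (a (l 16756664) (l 16755432)))) (c (b (l 16755080) (a (l 16756760) (l 16755504))) (a (l 16756344) (l 16755072)))) (b (c (c (a (c (l 16757656) (l 16757688)) (c (l 16756456) (l 16756480))) (a (c (l 16757720) (l 16757752)) (c (l 16756512) (l 16756536)))) (c (a (l 16757800) (l 16756576)) (a (l 16757872) (l 16756624)))) (b (c (c (c (b (a (l 16758344) (l 16757160)) (a (l 16758624) (l 16757448))) (b (a (l 16758368) (l 16757184)) (a (l 16758648) (l 16757456)))) (c (b (a (l 16758392) (l 16757200)) (a (l 16758664) (l 16757472))) (b (l 16757816) (a (l 16758688) (l 16757488))))) (c (a (l 16758584) (l 16757376)) (a (l 16758632) (l 16757408)))) (c (c (c (b (a (a (l 16759192) (l 16758608)) (a (l 16758024) (l 16757432))) (a (a (l 16759472) (l 16758888)) (a (l 16758304) (l 16757720)))) (b (a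 (a (l 16759216) (l 16758624)) (a (l 16758032) (l 16757440))) (a (a (l 16759488) (l 16758904)) (a (l 16758312) (l 16757728))))) (c (b (a (a (l 16759232) (l 16758640)) (a (l 16758048) (l 16757448))) (a (a (l 16759504) (l 16758912)) (a (l 16758320) (l 16757728)))) (a (a (l 16759384) (l 16758792)) (a (l 16758192) (l 16757600))))) (c (a (c (a (l 16759400) (l 16758808)) (l 16759120)) (a (c (l 16758208) (l 16758216)) (c (l 16757608) (l 16757616)))) (a (c (l 16759136) (l 16759152)) (c (l 16757928) (l 16757936)))))))), by decide +kernel⟩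

def k18_B00pm_101_s1 : ∃ t, chk3 f_B00pm_101_s1 t 1055 1023 1 = true :=
  ⟨(b (c (b (c (l 16752336) (l 16752424)) (c (a (l 16754112) (l 16752864)) (a (l 16754176) (l 16752920)))) (b (c (l 16749896) (a (l 16753256) (l 16751952))) (c (a (l 16754248) (l 16752976)) (a (l 16754312) (l 16753032))))) (b (a (c (c (c (l 16755248) (l 16755264)) (c (l 16755288) (l 16755304))) (c (c (l 16755328) (l 16755344)) (l 16755376))) (c (c (c (l 16754032) (l 16754040)) (c (l 16754056) (l 16754064))) (c (c (l 16754080) (l 16754096)) (l 16754112)))) (c (b (c (c (b (a (l 16755968) (l 16754768)) (a (l 16756256) (l 16755056))) (b (a (l 16755976) (l 16754768)) (a (l 16756264) (l 16755064)))) (c (b (a (l 16755992) (l 16754776)) (a (l 16756272) (l 16755064))) (b (l 16755392) (a (l 16756280) (l 16755064))))) (a (a (c (c (b (l 16756840) (l 16757128)) (b (l 16756848) (l 16757136))) (c (b (l 16756856) (l 16757136)) (l 16757000))) (c (c (b (l 16756248)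 (l 16756544)) (b (l 16756248) (l 16756536))) (c (b (l 16756256) (l 16756536)) (b (l 16756256) (l 16756536))))) (b (c (c (a (l 16755656) (l 16755056)) (a (l 16755656) (l 16755048))) (c (a (l 16755648) (l 16755048)) (a (l 16755648) (l 16755040)))) (c (c (a (l 16755944) (l 16755352)) (a (l 16755944) (l 16755344))) (c (a (l 16755936) (l 16755336)) (a (l 16755936) (l 16755328))))))) (c (a (a (b (l 16756456) (c (l 16757000) (l 16757008))) (b (l 16755848) (c (l 16756400) (l 16756400)))) (c (b (b (l 16754784) (l 16755064)) (b (l 16755344) (a (l 16755928) (l 16755320)))) (b (l 16754920) (a (l 16755784) (l 16755168))))) (b (a (l 16756176) (l 16754928)) (a (c (l 16756704) (l 16756704)) (c (l 16755472) (l 16755472)))))))), by decide +kernel⟩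

def k19_B00pm_101_s1 : ∃ t, chk3 f_B00pm_101_s1 t 33 62 1 = true :=
  ⟨(l 6), by decide +kernel⟩

def k20_B00pm_101_s1 : ∃ t, chk3 f_B00pm_101_s1 t 66 126 1 = true :=
  ⟨(l 6), by decide +kernel⟩

def k21_B00pm_101_s1 : ∃ t, chk3 f_B00pm_101_s1 t 66 254 1 = true :=
  ⟨(l 6), by decide +kernel⟩

def k22_B00pm_101_s1 : ∃ t, chk3 f_B00pm_101_s1 t 528 510 1 = true :=
  ⟨(l 6), by decide +kernel⟩

def k23_B00pm_101_s1 : ∃ t, chk3 f_B00pm_101_s1 t 528 1022 1 = true :=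
  ⟨(l 6), by decide +kernel⟩

def k24_B00pm_101_s1 : ∃ t, chk3 f_B00pm_101_s1 t 528 2046 1 = true :=
  ⟨(a (b (l 6) (a (c (c (l 16751608) (l 16751648)) (c (l 16751696) (l 16751736))) (c (c (l 16750344) (l 16750368)) (c (l 16750400) (c (l 16750424) (l 16750440)))))) (l 6)), by decide +kernel⟩

def k25_B00pm_101_s1 : ∃ t, chk3 f_B00pm_101_s1 t 528 4094 1 = true :=
  ⟨(a (c (c (a (c (l 16752800) (l 16752808)) (c (l 16751560) (l 16751560))) (a (c (l 16752808) (l 16752816)) (c (l 16751560) (l 16751560)))) (c (b (c (l 16751904) (l 16751912)) (c (l 16752480) (l 16752480))) (a (l 16752840) (c (l 16751560) (l 16751560))))) (a (c (c (b (l 16749992) (c (l 16750624) (l 16750608))) (c (l 16750296) (l 16750288))) (c (c (l 16750288) (l 16750280)) (c (l 16750272) (l 16750272)))) (a (b (l 6) (c (c (l 16749672) (l 16749648)) (b (l 6) (c (l 16749768) (l 16749736))))) (l 6)))), by decide +kernel⟩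

def k26_B00pm_101_s1 : ∃ t, chk3 f_B00pm_101_s1 t 1056 4095 2 = true :=
  ⟨(c (a (c (b (b (l 16753552) (l 16753848)) (a (b (l 16754456) (l 16754752)) (a (l 16754152) (l 16753848)))) (b (b (l 16753544) (l 16753848)) (b (a (l 16754448) (l 16753840)) (a (l 16754744) (l 16754136))))) (c (b (b (l 16752328) (l 16752632)) (b (a (l 16753248) (l 16752632)) (a (b (l 16753472) (l 16753624)) (b (l 16752864) (l 16753024))))) (b (b (l 16752320) (l 16752624)) (a (a (l 16753536) (l 16753232)) (a (l 16752920) (l 16752616)))))) (b (c (b (a (l 16753544) (l 16752304)) (a (l 16753840) (l 16752608))) (b (l 16752920) (a (l 16753832) (l 16752592)))) (c (b (a (a (l 16754440) (l 16753824)) (a (l 16753216) (l 16752600))) (a (a (l 16754728) (l 16754120)) (a (l 16753512) (l 16752904)))) (b (a (a (l 16754432) (l 16753816)) (a (l 16753200) (l 16752584))) (a (a (l 16754720) (l 16754104)) (a (l 16753496) (l 16752880))))))), by decide +kernel⟩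

def k27_B00pm_101_s1 : ∃ t, chk3 f_B00pm_101_s1 t 1057 4095 2 = true :=
  ⟨(a (a (b (c (c (l 16751560) (l 16751544)) (c (l 16751528) (l 16751512))) (c (c (b (l 16752024) (b (l 16752256) (l 16752416))) (b (l 16752000) (b (l 16752232) (l 16752392)))) (a (c (l 16752288) (l 16752264)) (c (l 16751976) (l 16751952))))) (b (c (c (l 16750936) (l 16750920)) (c (l 16750904) (l 16750880))) (c (c (b (l 16751408) (a (l 16751880) (l 16751576))) (b (l 16751384) (b (l 16751616) (l 16751776)))) (c (b (l 16751360) (b (l 16751592) (l 16751744))) (b (l 16751336) (b (l 16751568) (l 16751720))))))) (b (a (c (c (l 16750320) (l 16750296)) (c (l 16750272) (l 16750248))) (c (c (l 16749696) (l 16749664)) (c (l 16749640) (l 16749616)))) (b (c (c (a (l 16750792) (l 16750176)) (a (l 16750768) (l 16750144))) (c (a (l 16750736) (l 16750112)) (a (l 16750712) (l 16750080)))) (c (c (a (a (l 16751264) (l 16750960)) (a (l 16750648) (l 16750344))) (a (a (l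 16751232) (l 16750928)) (a (l 16750616) (l 16750304)))) (c (a (a (l 16751200) (l 16750896)) (a (l 16750584) (l 16750272))) (a (b (l 16750944) (l 16751096)) (a (l 16750544) (l 16750232)))))))), by decide +kernel⟩

def k28_B00pm_101_s1 : ∃ t, chk3 f_B00pm_101_s1 t 528 4095 3 = true :=
  ⟨(c (a (b (c (b (l 16752920) (a (l 16753824) (l 16752584))) (b (l 16752912) (a (l 16753824) (l 16752568)))) (c (b (a (a (l 16754424) (l 16753808)) (a (l 16753184) (l 16752560))) (a (a (l 16754704) (l 16754096)) (a (l 16753480) (l 16752856)))) (b (a (l 16754104) (a (l 16753168) (l 16752544))) (a (a (l 16754696) (l 16754080)) (a (l 16753456) (l 16752832)))))) (c (a (b (b (l 16751032) (l 16751328)) (a (b (l 16751936) (l 16752232)) (a (l 16751616) (l 16751304)))) (c (b (l 16749920) (b (l 16750376) (a (l 16750992) (l 16750368)))) (b (l 16749904) (b (l 16750360) (a (l 16750976) (l 16750344)))))) (b (b (l 16750376) (a (l 16751312) (l 16750040)))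 (b (a (a (l 16751920) (l 16751288)) (a (l 16750656) (l 16750016))) (a (a (l 16752208) (l 16751584)) (a (b (l 16750880) (l 16751032)) (b (l 16750248) (l 16750400)))))))) (b (a (a (c (l 16753672) (l 16753672)) (c (b (l 16752272) (l 16752560)) (l 16752408))) (a (c (b (l 16751000) (l 16751288)) (l 16751128)) (c (b (l 16749720) (l 16750016)) (l 16749840)))) (c (a (a (b (l 16754096) (a (l 16754680) (l 16754064))) (b (a (l 16753160) (l 16752528)) (a (l 16753440) (l 16752816)))) (a (b (a (l 16751896) (l 16751264)) (a (l 16752184) (l 16751552))) (a (a (l 16750936) (l 16750616)) (b (l 16749992) (b (l 16750208) (l 16750360)))))) (c (a (a (l 16754224) (l 16752968)) (a (l 16751704) (b (l 16750288) (a (l 16750896) (l 16750264))))) (a (a (l 16754224) (l 16752960)) (a (l 16751696) (c (l 16750424) (l 16750416)))))))), by decide +kernel⟩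

def k29_B00pm_101_s1 : ∃ t, chk3 f_B00pm_101_s1 t 1058 255 1 = true :=
  ⟨(b (l 6) (b (l 6) (b (l 6) (a (b (l 6) (a (c (c (b (c (l 16749064) (l 16749040)) (c (b (l 16749552) (b (l 16749800) (c (l 16749968) (l 16749952)))) (b (l 16749520) (b (l 16749760) (c (l 16749928) (l 16749912)))))) (b (c (l 16749008) (l 16748984)) (c (b (l 16749488) (a (l 16749960) (l 16749640))) (b (l 16749448) (a (l 16749920) (l 16749608)))))) (c (b (c (l 16748952) (l 16748928)) (c (b (l 16749416) (a (l 16749880) (l 16749568))) (b (l 16749384) (a (l 16749848) (l 16749528))))) (b (c (l 16748896) (l 16748872)) (c (b (l 16749344) (a (l 16749808) (l 16749488))) (b (l 16749312) (a (l 16749768) (l 16749448))))))) (b (l 6) (c (b (c (c (l 16748928) (l 16748888)) (c (l 16748856) (l 16748816))) (c (c (b (c (l 16749184) (l 16749160)) (c (l 16749352) (l 16749328))) (b (l 16749136) (c (l 16749304) (l 16749288)))) (c (b (l 16749096) (c (l 16749264) (l 16749240)))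 (b (l 16749056) (c (l 16749224) (l 16749200)))))) (c (c (b (l 16748776) (b (l 16749008) (c (l 16749176) (l 16749160)))) (b (l 16748744) (c (l 16749056) (l 16749040)))) (c (b (l 16748704) (a (l 16749168) (l 16748848))) (b (l 16748664) (a (l 16749128) (l 16748808))))))))) (a (b (l 6) (b (l 6) (b (l 6) (c (c (a (a (c (l 16748864) (l 16748824)) (c (l 16748712) (l 16748664))) (c (c (l 16748488) (l 16748464)) (c (l 16748440) (l 16748416)))) (b (a (c (l 16748616) (l 16748576)) (l 6)) (c (c (l 16748632) (l 16748608)) (c (l 16748592) (l 16748568))))) (c (c (b (l 16748376) (c (l 16748544) (l 16748520))) (b (l 16748328) (c (l 16748496) (l 16748472)))) (c (b (l 16748288) (c (l 16748448) (l 16748432))) (b (l 16748240) (c (l 16748408) (l 16748384))))))))) (l 6)))))), by decide +kernel⟩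

def k30_B00pm_101_s1 : ∃ t, chk3 f_B00pm_101_s1 t 1059 255 1 = true :=
  ⟨(l 6), by decide +kernel⟩

def k31_B00pm_101_s1 : ∃ t, chk3 f_B00pm_101_s1 t 265 255 1 = true :=
  ⟨(l 6), by decide +kernel⟩

def k32_B00pm_101_s1 : ∃ t, chk3 f_B00pm_101_s1 t 133 255 1 = true :=
  ⟨(l 6), by decide +kernel⟩

def k33_B00pm_101_s1 : ∃ t, chk3 f_B00pm_101_s1 t 67 63 1 = true :=
  ⟨(l 6), by decide +kernel⟩

def k34_B00pm_101_s1 : ∃ t, chk3 f_B00pm_101_s1 t 17 15 1 = true :=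
  ⟨(l 6), by decide +kernel⟩

def k35_B00pm_101_s1 : ∃ t, chk3 f_B00pm_101_s1 t 9 7 1 = true :=
  ⟨(l 6), by decide +kernel⟩

def k36_B00pm_101_s1 : ∃ t, chk3 f_B00pm_101_s1 t 5 3 1 = true :=
  ⟨(l 6), by decide +kernel⟩

def k37_B00pm_101_s1 : ∃ t, chk3 f_B00pm_101_s1 t 3 1 1 = true :=
  ⟨(l 6), by decide +kernel⟩

theorem t38_B00pm_101_s1 : ∃ t, chk3 f_B00pm_101_s1 t 529 255 1 = true := ex3_a k29_B00pm_101_s1 k30_B00pm_101_s1

theorem t39_B00pm_101_s1 : ∃ t, chk3 f_B00pm_101_s1 t 528 4095 2 = true := ex3_a k26_B00pm_101_s1 k27_B00pm_101_s1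

theorem t40_B00pm_101_s1 : ∃ t, chk3 f_B00pm_101_s1 t 528 4095 1 = true := ex3_c t39_B00pm_101_s1 k28_B00pm_101_s1

theorem t41_B00pm_101_s1 : ∃ t, chk3 f_B00pm_101_s1 t 528 2047 1 = true := ex3_b k25_B00pm_101_s1 t40_B00pm_101_s1

theorem t42_B00pm_101_s1 : ∃ t, chk3 f_B00pm_101_s1 t 528 1023 1 = true := ex3_b k24_B00pm_101_s1 t41_B00pm_101_s1

theorem t43_B00pm_101_s1 : ∃ t, chk3 f_B00pm_101_s1 t 528 511 1 = true := ex3_b k23_B00pm_101_s1 t42_B00pm_101_s1

theorem t44_B00pm_101_s1 : ∃ t, chk3 f_B00pm_101_s1 t 528 255 1 = true := ex3_b k22_B00pm_101_s1 t43_B00pm_101_s1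

theorem t45_B00pm_101_s1 : ∃ t, chk3 f_B00pm_101_s1 t 264 255 1 = true := ex3_a t44_B00pm_101_s1 t38_B00pm_101_s1

theorem t46_B00pm_101_s1 : ∃ t, chk3 f_B00pm_101_s1 t 132 255 1 = true := ex3_a t45_B00pm_101_s1 k31_B00pm_101_s1

theorem t47_B00pm_101_s1 : ∃ t, chk3 f_B00pm_101_s1 t 66 255 1 = true := ex3_a t46_B00pm_101_s1 k32_B00pm_101_s1

theorem t48_B00pm_101_s1 : ∃ t, chk3 f_B00pm_101_s1 t 66 127 1 = true := ex3_b k21_B00pm_101_s1 t47_B00pm_101_s1

theorem t49_B00pm_101_s1 : ∃ t, chk3 f_B00pm_101_s1 t 66 63 1 = true := ex3_b k20_B00pm_101_s1 t48_B00pm_101_s1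

theorem t50_B00pm_101_s1 : ∃ t, chk3 f_B00pm_101_s1 t 33 63 1 = true := ex3_a t49_B00pm_101_s1 k33_B00pm_101_s1

theorem t51_B00pm_101_s1 : ∃ t, chk3 f_B00pm_101_s1 t 33 31 1 = true := ex3_b k19_B00pm_101_s1 t50_B00pm_101_s1

theorem t52_B00pm_101_s1 : ∃ t, chk3 f_B00pm_101_s1 t 527 1023 1 = true := ex3_a k17_B00pm_101_s1 k18_B00pm_101_s1

theorem t53_B00pm_101_s1 : ∃ t, chk3 f_B00pm_101_s1 t 526 1023 1 = true := ex3_a k15_B00pm_101_s1 k16_B00pm_101_s1

theorem t54_B00pm_101_s1 : ∃ t, chk3 f_B00pm_101_s1 t 263 1023 1 = true := ex3_a t53_B00pm_101_s1 t52_B00pm_101_s1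

theorem t55_B00pm_101_s1 : ∃ t, chk3 f_B00pm_101_s1 t 263 511 1 = true := ex3_b k14_B00pm_101_s1 t54_B00pm_101_s1

theorem t56_B00pm_101_s1 : ∃ t, chk3 f_B00pm_101_s1 t 263 255 1 = true := ex3_b k13_B00pm_101_s1 t55_B00pm_101_s1

theorem t57_B00pm_101_s1 : ∃ t, chk3 f_B00pm_101_s1 t 262 511 1 = true := ex3_b k11_B00pm_101_s1 k12_B00pm_101_s1

theorem t58_B00pm_101_s1 : ∃ t, chk3 f_B00pm_101_s1 t 262 255 1 = true := ex3_b k10_B00pm_101_s1 t57_B00pm_101_s1

theorem t59_B00pm_101_s1 : ∃ t, chk3 f_B00pm_101_s1 t 131 255 1 = true := ex3_a t58_B00pm_101_s1 t56_B00pm_101_s1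

theorem t60_B00pm_101_s1 : ∃ t, chk3 f_B00pm_101_s1 t 130 255 1 = true := ex3_a k8_B00pm_101_s1 k9_B00pm_101_s1

theorem t61_B00pm_101_s1 : ∃ t, chk3 f_B00pm_101_s1 t 65 255 1 = true := ex3_a t60_B00pm_101_s1 t59_B00pm_101_s1

theorem t62_B00pm_101_s1 : ∃ t, chk3 f_B00pm_101_s1 t 32 255 1 = true := ex3_a k7_B00pm_101_s1 t61_B00pm_101_s1

theorem t63_B00pm_101_s1 : ∃ t, chk3 f_B00pm_101_s1 t 32 127 1 = true := ex3_b k6_B00pm_101_s1 t62_B00pm_101_s1

theorem t64_B00pm_101_s1 : ∃ t, chk3 f_B00pm_101_s1 t 32 63 1 = true := ex3_b k5_B00pm_101_s1 t63_B00pm_101_s1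

theorem t65_B00pm_101_s1 : ∃ t, chk3 f_B00pm_101_s1 t 32 31 1 = true := ex3_b k4_B00pm_101_s1 t64_B00pm_101_s1

theorem t66_B00pm_101_s1 : ∃ t, chk3 f_B00pm_101_s1 t 16 31 1 = true := ex3_a t65_B00pm_101_s1 t51_B00pm_101_s1

theorem t67_B00pm_101_s1 : ∃ t, chk3 f_B00pm_101_s1 t 16 15 1 = true := ex3_b k3_B00pm_101_s1 t66_B00pm_101_s1

theorem t68_B00pm_101_s1 : ∃ t, chk3 f_B00pm_101_s1 t 8 15 1 = true := ex3_a t67_B00pm_101_s1 k34_B00pm_101_s1

theorem t69_B00pm_101_s1 : ∃ t, chk3 f_B00pm_101_s1 t 8 7 1 = true := ex3_b k2_B00pm_101_s1 t68_B00pm_101_s1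

theorem t70_B00pm_101_s1 : ∃ t, chk3 f_B00pm_101_s1 t 4 7 1 = true := ex3_a t69_B00pm_101_s1 k35_B00pm_101_s1

theorem t71_B00pm_101_s1 : ∃ t, chk3 f_B00pm_101_s1 t 4 3 1 = true := ex3_b k1_B00pm_101_s1 t70_B00pm_101_s1

theorem t72_B00pm_101_s1 : ∃ t, chk3 f_B00pm_101_s1 t 2 3 1 = true := ex3_a t71_B00pm_101_s1 k36_B00pm_101_s1

theorem t73_B00pm_101_s1 : ∃ t, chk3 f_B00pm_101_s1 t 2 1 1 = true := ex3_b k0_B00pm_101_s1 t72_B00pm_101_s1

theorem t74_B00pm_101_s1 : ∃ t, chk3 f_B00pm_101_s1 t 1 1 1 = true := ex3_a t73_B00pm_101_s1 k37_B00pm_101_s1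

theorem c_B00pm_101_s1 : CertF 536870912 536870912 536870912 536870912 1040187392 5207648 false true false .npn 1 0 1
    ndB0q1 ndB0q1 pcB0 cut_B00pm_101_s1 Ext.none :=
  certF2 (fam := false) (s1 := true) (s2 := false) (a := 1) (b := 0) (c := 1) (cn := .npn) (n1 := ndB0q1) (n2 := ndB0q1) (pc := pcB0) (cut := cut_B00pm_101_s1) (xt := Ext.none) (P1 := 536870912) (W1 := 536870912) (P2 := 536870912) (W2 := 536870912) (P3 := 1040187392) (W3 := 5207648)
    rfl (fun _ => rfl) t74_B00pm_101_s1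

theorem s_B00pm_101_s1 {κ x : ℝ} (hκ : κ * h0 = ken x) (hx : ((1040187392 : ℕ) : ℝ) / S ≤ x)
    (hx' : x ≤ (((1040187392 : ℕ) : ℝ) + (5207648 : ℕ)) / S)
    (H : CutB (VFD κ) PP tK tL pcB (Cut.of [[⟨0, 1, 0, 8388608⟩, ⟨1, 0, 0, 8388608⟩, ⟨2, 1, 0, 8388608⟩], [⟨0, 0, 1, 46137344⟩, ⟨1, 1, 2, 46137344⟩, ⟨2, 1, 0, 1048576⟩, ⟨0, 0, 0, 1054867456⟩, ⟨0, 1, 0, 38117834⟩, ⟨1, 0, 0, 38117834⟩, ⟨1, 1, 0, 1054867456⟩]]) 1 0 1 0 0 (sgb true) (sgb false) x) :
    AltB (VFD κ) PP tK tL pcB [⟨3, 0, 0, 1127428915⟩] 1 0 1 0 0 (sgb true) (sgb false) x :=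
  strip_altBD (m := 1127428915) true rfl hκ (SH.κ0 hκ (SH.hx1 hx).le (SH.hx2 hx').le) (SH.hx1 hx).le (SH.hx2 hx') (covB01).cov (covB01).cov hx hx' c_B00pm_101_s1 H (noExt_B)

noncomputable def cut_B00pm_101_s3 : Cut := Cut.of [[⟨3, 0, 0, 2845415833⟩], [⟨0, 1, 0, 8388608⟩, ⟨1, 0, 0, 8388608⟩, ⟨2, 1, 0, 8388608⟩], [⟨0, 0, 1, 46137344⟩, ⟨1, 1, 2, 46137344⟩, ⟨2, 1, 0, 1048576⟩, ⟨0, 0, 0, 1054867456⟩, ⟨0, 1, 0, 38117834⟩, ⟨1, 0, 0, 38117834⟩, ⟨1, 1, 0, 1054867456⟩]]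

noncomputable def xt_B00pm_101_s3 : Ext := strExt dd false true false .u0 .u0m .s0m .npn 1 0 1 rfl rfl gl0 vv ndB0q1 ndB0q1

noncomputable def f_B00pm_101_s3 : ℕ → ℕ → ℕ → ℕ → Bool := onCell 536870912 536870912 536870912 536870912 1040187392 5207648
    (rowF 0 false true false .npn 1 0 1 (qsf 536870912 536870912 536870912 536870912 0) ndB0q1 ndB0q1 pcB0 cut_B00pm_101_s3 xt_B00pm_101_s3)

def k0_B00pm_101_s3 : ∃ t, chk3 f_B00pm_101_s3 t 1 1 1 = true :=
  ⟨(a (b (a (b (a (b (l 4) (b (a (l 4) (l 525972495)) (a (l 527158287) (l 526780687)))) (b (b (l 1) (a (l 524559119) (l 1))) (b (a (l 525458191) (l 524884239)) (a (l 526321935) (l 525787663))))) (a (a (b (b (l 527813135) (l 528369167)) (b (l 528813839) (b (l 529080335) (l 529205263)))) (b (b (l 527513615) (l 528158991)) (b (l 528706063) (l 529142287)))) (b (b (a (l 527125007) (l 526651919)) (a (l 527852047) (l 527453967))) (a (b (l 528491791) (l 529033487)) (b (l 528178959)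 (l 528816655)))))) (b (a (b (l 1) (a (b (l 1) (l 525186063)) (l 1))) (l 1)) (b (a (a (b (l 526097935) (l 526967311)) (b (l 525469455) (l 526394127))) (b (l 1) (a (l 6) (l 1)))) (a (b (a (l 527772175) (l 6)) (l 6)) (l 6))))) (b (a (b (a (a (b (a (l 529260047) (l 529369615)) (a (l 528953615) (l 529416975))) (b (l 529183759) (a (l 529569551) (l 16306896)))) (b (a (l 529464591) (l 6)) (l 6))) (b (a (a (b (a (l 16309120) (l 6)) (l 6)) (l 6)) (l 6)) (l 6))) (l 6)) (l 6))) (b (a (b (l 1) (l 6)) (l 1)) (l 6))), by decide +kernel⟩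

theorem c_B00pm_101_s3 : CertF 536870912 536870912 536870912 536870912 1040187392 5207648 false true false .npn 1 0 1
    ndB0q1 ndB0q1 pcB0 cut_B00pm_101_s3 xt_B00pm_101_s3 :=
  certF0 (fam := false) (s1 := true) (s2 := false) (a := 1) (b := 0) (c := 1) (cn := .npn) (n1 := ndB0q1) (n2 := ndB0q1) (pc := pcB0) (cut := cut_B00pm_101_s3) (xt := xt_B00pm_101_s3) (P1 := 536870912) (W1 := 536870912) (P2 := 536870912) (W2 := 536870912) (P3 := 1040187392) (W3 := 5207648)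
    rfl k0_B00pm_101_s3

theorem s_B00pm_101_s3 {κ x : ℝ} (hκ : κ * h0 = ken x) (hx : ((1040187392 : ℕ) : ℝ) / S ≤ x)
    (hx' : x ≤ (((1040187392 : ℕ) : ℝ) + (5207648 : ℕ)) / S)
    (H : CutB (VFD κ) PP tK tL pcB (Cut.of [[⟨0, 1, 0, 8388608⟩, ⟨1, 0, 0, 8388608⟩, ⟨2, 1, 0, 8388608⟩], [⟨0, 0, 1, 46137344⟩, ⟨1, 1, 2, 46137344⟩, ⟨2, 1, 0, 1048576⟩, ⟨0, 0, 0, 1054867456⟩, ⟨0, 1, 0, 38117834⟩, ⟨1, 0, 0, 38117834⟩, ⟨1, 1, 0, 1054867456⟩]]) 1 0 1 0 0 (sgb true) (sgb false) x) :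
    AltB (VFD κ) PP tK tL pcB [⟨4, 0, 0, 2845415833⟩] 1 0 1 0 0 (sgb true) (sgb false) x :=
  strip_altBD (m := 2845415833) false rfl hκ (SH.κ0 hκ (SH.hx1 hx).le (SH.hx2 hx').le) (SH.hx1 hx).le (SH.hx2 hx') (covB01).cov (covB01).cov hx hx' c_B00pm_101_s3 H ((okx hx hx').extB (T := tt) (sideB hx hx') hκ rfl rfl (.O 1 true) (.O 1 false) (Or.inl rfl))

noncomputable def cut_B00pm_102_s3 : Cut := Cut.of [[⟨3, 0, 0, 2845415833⟩], [⟨0, 1, 0, 8388608⟩, ⟨1, 0, 0, 8388608⟩, ⟨2, 1, 0, 8388608⟩], [⟨0, 0, 1, 46137344⟩, ⟨1, 1, 2, 46137344⟩, ⟨2, 1, 0, 1048576⟩, ⟨0, 0, 0, 1054867456⟩, ⟨0, 1, 0, 38117834⟩, ⟨1, 0, 0, 38117834⟩, ⟨1, 1, 0, 1054867456⟩]]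

noncomputable def f_B00pm_102_s3 : ℕ → ℕ → ℕ → ℕ → Bool := onCell 536870912 536870912 0 536870912 1040187392 5207648
    (rowF 0 false true false .npp 1 0 2 (qsf 536870912 536870912 0 536870912 0) ndB0q1 ndB0q2 pcB0 cut_B00pm_102_s3 Ext.none)

def k0_B00pm_102_s3 : ∃ t, chk3 f_B00pm_102_s3 t 1 1 1 = true :=
  ⟨(l 6), by decide +kernel⟩

theorem c_B00pm_102_s3 : CertF 536870912 536870912 0 536870912 1040187392 5207648 false true false .npp 1 0 2
    ndB0q1 ndB0q2 pcB0 cut_B00pm_102_s3 Ext.none :=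
  certF0 (fam := false) (s1 := true) (s2 := false) (a := 1) (b := 0) (c := 2) (cn := .npp) (n1 := ndB0q1) (n2 := ndB0q2) (pc := pcB0) (cut := cut_B00pm_102_s3) (xt := Ext.none) (P1 := 536870912) (W1 := 536870912) (P2 := 0) (W2 := 536870912) (P3 := 1040187392) (W3 := 5207648)
    rfl k0_B00pm_102_s3

theorem s_B00pm_102_s3 {κ x : ℝ} (hκ : κ * h0 = ken x) (hx : ((1040187392 : ℕ) : ℝ) / S ≤ x)
    (hx' : x ≤ (((1040187392 : ℕ) : ℝ) + (5207648 : ℕ)) / S)
    (H : CutB (VFD κ) PP tK tL pcB (Cut.of [[⟨0, 1, 0, 8388608⟩, ⟨1, 0, 0, 8388608⟩, ⟨2, 1, 0, 8388608⟩], [⟨0, 0, 1, 46137344⟩, ⟨1, 1, 2, 46137344⟩, ⟨2, 1, 0, 1048576⟩, ⟨0, 0, 0, 1054867456⟩, ⟨0, 1, 0, 38117834⟩, ⟨1, 0, 0, 38117834⟩, ⟨1, 1, 0, 1054867456⟩]]) 1 0 2 0 0 (sgb true) (sgb false) x) :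
    AltB (VFD κ) PP tK tL pcB [⟨4, 0, 0, 2845415833⟩] 1 0 2 0 0 (sgb true) (sgb false) x :=
  strip_altBD (m := 2845415833) false rfl hκ (SH.κ0 hκ (SH.hx1 hx).le (SH.hx2 hx').le) (SH.hx1 hx).le (SH.hx2 hx') (covB01).cov (covB02).cov hx hx' c_B00pm_102_s3 H (noExt_B)

noncomputable def cut_B00pm_112_s1 : Cut := Cut.of [[⟨4, 0, 0, 1449551462⟩]]

noncomputable def xt_B00pm_112_s1 : Ext := strExt dd false true false .u0 .u2 .u0m .dn 1 1 2 rfl rfl gf1 vv ndB0q1 ndB0q2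

noncomputable def f_B00pm_112_s1 : ℕ → ℕ → ℕ → ℕ → Bool := onCell 536870912 536870912 0 536870912 1040187392 5207648
    (rowF 0 false true false .dn 1 1 2 (qsf 536870912 536870912 0 536870912 1) ndB0q1 ndB0q2 pcB1 cut_B00pm_112_s1 xt_B00pm_112_s1)

def k0_B00pm_112_s1 : ∃ t, chk3 f_B00pm_112_s1 t 4 4 1 = true :=
  ⟨(a (b (a (l 526400271) (l 525645071)) (a (b (a (b (l 16350880) (a (b (l 16308816) (l 16305344)) (b (l 16319504) (b (l 16301000) (l 16211112))))) (l 16273224)) (a (b (l 16315576) (l 16339144)) (b (a (b (b (l 16207400) (l 16204088)) (l 16296760)) (b (l 16297848) (b (l 16261864) (l 16282648)))) (l 16308944)))) (b (l 525603343) (a (b (a (b (l 16315152) (l 16288192)) (l 16319688)) (b (a (b (a (l 16276392) (l 16189504)) (l 16279240)) (b (l 16283272) (a (l 16186000) (l 16273568)))) (a (l 16291160) (a (l 16277896) (l 16228120))))) (a (b (l 16339696) (b (l 16295512) (b (l 16273968) (a (l 16180752) (l 16181032)))))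 (l 16331136)))))) (b (a (l 525018639) (l 524127247)) (a (b (l 524976655) (l 524573711)) (b (l 524484111) (a (l 524480271) (l 524268559)))))), by decide +kernel⟩

def k1_B00pm_112_s1 : ∃ t, chk3 f_B00pm_112_s1 t 4 5 1 = true :=
  ⟨(b (a (a (b (a (l 16371440) (l 16346616)) (l 6)) (b (a (l 16318984) (b (b (a (l 16187888) (b (a (l 16177416) (l 16268200)) (a (l 16262104) (l 16216288)))) (l 16279824)) (l 16303888))) (a (l 16370544) (l 16346896)))) (a (b (a (b (b (l 16247088) (a (b (a (l 16213824) (l 16259416)) (a (l 16261656) (l 16212016))) (a (l 16242400) (l 16273632)))) (a (l 16279736) (b (a (l 16173504) (b (b (l 16253848) (l 16165608)) (l 16252576))) (l 16271608)))) (b (l 16319960) (b (a (b (l 16267328) (a (b (l 16250312) (l 16163752)) (l 16257056))) (l 16284024)) (a (a (l 16258112) (b (a (l 16163232) (l 16247200)) (l 16253832))) (b (l 16259864) (a (b (l 16203504) (l 16246816)) (l 16250296))))))) (a (l 16237176) (b (a (l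 16282352) (b (a (l 16259920) (b (l 16204472) (l 16255968))) (l 16275392))) (l 16309872)))) (b (a (l 524272911) (l 524090383)) (b (a (b (a (b (a (b (l 16249360) (l 16244240)) (l 16258160)) (a (l 16162880) (b (l 16246336) (l 16200968)))) (l 16270016)) (a (l 16258128) (b (a (b (l 16244032) (l 16158664)) (l 16251488)) (a (l 16249776) (b (l 16242544) (l 16243256)))))) (a (b (l 16298064) (a (l 16215536) (l 16270864))) (l 16309960))) (a (l 16196368) (b (a (b (a (b (l 16241984) (l 16245128)) (b (l 16249056) (l 16201288))) (a (l 16253864) (l 16161208))) (a (b (l 16259264) (b (l 16246680) (l 16242504))) (l 16265312))) (a (l 16266096) (b (a (l 16247064) (b (l 16244984) (l 16242752))) (l 16254384))))))))) (a (l 6) (a (b (a (l 16378760) (l 16356864)) (l 6)) (b (a (l 16249736) (b (l 16289416) (l 16326696))) (a (l 16395568) (l 16375792)))))), by decide +kernel⟩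

def k2_B00pm_112_s1 : ∃ t, chk3 f_B00pm_112_s1 t 5 2 1 = true :=
  ⟨(a (b (a (b (a (l 523670543) (l 3)) (b (l 523622415) (a (l 523869199) (l 523547407)))) (b (l 1) (l 1))) (a (a (b (b (l 523894543) (a (b (l 16339896) (b (l 16288048) (b (l 16261840) (a (b (l 16244120) (l 16160200)) (l 16252176))))) (l 523665679))) (b (b (b (a (a (l 16258736) (b (b (l 16244192) (l 16246616)) (l 16255976))) (a (b (l 16261432) (l 16226928)) (l 1))) (a (l 16277288) (l 1))) (l 16301456)) (l 16271808))) (b (b (l 523612175) (l 523619599)) (l 1))) (l 1))) (l 1)), by decide +kernel⟩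

def k3_B00pm_112_s1 : ∃ t, chk3 f_B00pm_112_s1 t 2 3 1 = true :=
  ⟨(a (b (l 6) (l 6)) (b (l 1) (l 1))), by decide +kernel⟩

def k4_B00pm_112_s1 : ∃ t, chk3 f_B00pm_112_s1 t 3 1 1 = true :=
  ⟨(l 1), by decide +kernel⟩

theorem t5_B00pm_112_s1 : ∃ t, chk3 f_B00pm_112_s1 t 4 2 1 = true := ex3_b k0_B00pm_112_s1 k1_B00pm_112_s1

theorem t6_B00pm_112_s1 : ∃ t, chk3 f_B00pm_112_s1 t 2 2 1 = true := ex3_a t5_B00pm_112_s1 k2_B00pm_112_s1

theorem t7_B00pm_112_s1 : ∃ t, chk3 f_B00pm_112_s1 t 2 1 1 = true := ex3_b t6_B00pm_112_s1 k3_B00pm_112_s1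

theorem t8_B00pm_112_s1 : ∃ t, chk3 f_B00pm_112_s1 t 1 1 1 = true := ex3_a t7_B00pm_112_s1 k4_B00pm_112_s1

theorem c_B00pm_112_s1 : CertF 536870912 536870912 0 536870912 1040187392 5207648 false true false .dn 1 1 2
    ndB0q1 ndB0q2 pcB1 cut_B00pm_112_s1 xt_B00pm_112_s1 :=
  certF0 (fam := false) (s1 := true) (s2 := false) (a := 1) (b := 1) (c := 2) (cn := .dn) (n1 := ndB0q1) (n2 := ndB0q2) (pc := pcB1) (cut := cut_B00pm_112_s1) (xt := xt_B00pm_112_s1) (P1 := 536870912) (W1 := 536870912) (P2 := 0) (W2 := 536870912) (P3 := 1040187392) (W3 := 5207648)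
    rfl t8_B00pm_112_s1

theorem s_B00pm_112_s1 {κ x : ℝ} (hκ : κ * h0 = ken x) (hx : ((1040187392 : ℕ) : ℝ) / S ≤ x)
    (hx' : x ≤ (((1040187392 : ℕ) : ℝ) + (5207648 : ℕ)) / S) :
    AltB (VFD κ) PP tK tL pcB [⟨3, 0, 0, 1449551462⟩] 1 1 2 0 0 (sgb true) (sgb false) x :=
  strip_altBD (m := 1449551462) true rfl hκ (SH.κ0 hκ (SH.hx1 hx).le (SH.hx2 hx').le) (SH.hx1 hx).le (SH.hx2 hx') (covB01).cov (covB02).cov hx hx' c_B00pm_112_s1 cutB_nil ((okx hx hx').extB (T := tt) (sideB hx hx') hκ rfl rfl (.O 1 true) (.O 2 false) (Or.inr rfl))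

noncomputable def cut_B00pm_112_s3 : Cut := Cut.of [[⟨3, 0, 0, 2845415833⟩]]

noncomputable def f_B00pm_112_s3 : ℕ → ℕ → ℕ → ℕ → Bool := onCell 536870912 536870912 0 536870912 1040187392 5207648
    (rowF 0 false true false .dn 1 1 2 (qsf 536870912 536870912 0 536870912 1) ndB0q1 ndB0q2 pcB1 cut_B00pm_112_s3 Ext.none)

def k0_B00pm_112_s3 : ∃ t, chk3 f_B00pm_112_s3 t 1 1 1 = true :=
  ⟨(l 6), by decide +kernel⟩

theorem c_B00pm_112_s3 : CertF 536870912 536870912 0 536870912 1040187392 5207648 false true false .dn 1 1 2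
    ndB0q1 ndB0q2 pcB1 cut_B00pm_112_s3 Ext.none :=
  certF0 (fam := false) (s1 := true) (s2 := false) (a := 1) (b := 1) (c := 2) (cn := .dn) (n1 := ndB0q1) (n2 := ndB0q2) (pc := pcB1) (cut := cut_B00pm_112_s3) (xt := Ext.none) (P1 := 536870912) (W1 := 536870912) (P2 := 0) (W2 := 536870912) (P3 := 1040187392) (W3 := 5207648)
    rfl k0_B00pm_112_s3

theorem s_B00pm_112_s3 {κ x : ℝ} (hκ : κ * h0 = ken x) (hx : ((1040187392 : ℕ) : ℝ) / S ≤ x)
    (hx' : x ≤ (((1040187392 : ℕ) : ℝ) + (5207648 : ℕ)) / S) :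
    AltB (VFD κ) PP tK tL pcB [⟨4, 0, 0, 2845415833⟩] 1 1 2 0 0 (sgb true) (sgb false) x :=
  strip_altBD (m := 2845415833) false rfl hκ (SH.κ0 hκ (SH.hx1 hx).le (SH.hx2 hx').le) (SH.hx1 hx).le (SH.hx2 hx') (covB01).cov (covB02).cov hx hx' c_B00pm_112_s3 cutB_nil (noExt_B)

noncomputable def cut_B00pm_202_s1 : Cut := Cut.of [[⟨4, 0, 0, 1449551462⟩], [⟨0, 1, 0, 26843545⟩, ⟨1, 0, 0, 26843545⟩, ⟨2, 1, 0, 26843545⟩], [⟨0, 0, 1, 46137344⟩, ⟨1, 1, 2, 46137344⟩, ⟨2, 1, 0, 1048576⟩, ⟨0, 0, 0, 1054867456⟩, ⟨0, 1, 0, 38117834⟩, ⟨1, 0, 0, 38117834⟩, ⟨1, 1, 0, 1054867456⟩]]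

noncomputable def f_B00pm_202_s1 : ℕ → ℕ → ℕ → ℕ → Bool := onCell 0 536870912 0 536870912 1040187392 5207648
    (rowF 0 false true false .pp 2 0 2 (qsf 0 536870912 0 536870912 0) ndB0q2 ndB0q2 pcB0 cut_B00pm_202_s1 Ext.none)

def k0_B00pm_202_s1 : ∃ t, chk3 f_B00pm_202_s1 t 1 1 1 = true :=
  ⟨(a (l 3) (b (l 3) (a (l 3) (b (l 3) (a (l 3) (b (l 3) (a (l 3) (b (l 3) (l 14))))))))), by decide +kernel⟩

theorem c_B00pm_202_s1 : CertF 0 536870912 0 536870912 1040187392 5207648 false true false .pp 2 0 2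
    ndB0q2 ndB0q2 pcB0 cut_B00pm_202_s1 Ext.none :=
  certF0 (fam := false) (s1 := true) (s2 := false) (a := 2) (b := 0) (c := 2) (cn := .pp) (n1 := ndB0q2) (n2 := ndB0q2) (pc := pcB0) (cut := cut_B00pm_202_s1) (xt := Ext.none) (P1 := 0) (W1 := 536870912) (P2 := 0) (W2 := 536870912) (P3 := 1040187392) (W3 := 5207648)
    rfl k0_B00pm_202_s1

theorem s_B00pm_202_s1 {κ x : ℝ} (hκ : κ * h0 = ken x) (hx : ((1040187392 : ℕ) : ℝ) / S ≤ x)
    (hx' : x ≤ (((1040187392 : ℕ) : ℝ) + (5207648 : ℕ)) / S)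
    (H : CutB (VFD κ) PP tK tL pcB (Cut.of [[⟨0, 1, 0, 26843545⟩, ⟨1, 0, 0, 26843545⟩, ⟨2, 1, 0, 26843545⟩], [⟨0, 0, 1, 46137344⟩, ⟨1, 1, 2, 46137344⟩, ⟨2, 1, 0, 1048576⟩, ⟨0, 0, 0, 1054867456⟩, ⟨0, 1, 0, 38117834⟩, ⟨1, 0, 0, 38117834⟩, ⟨1, 1, 0, 1054867456⟩]]) 2 0 2 0 0 (sgb true) (sgb false) x) :
    AltB (VFD κ) PP tK tL pcB [⟨3, 0, 0, 1449551462⟩] 2 0 2 0 0 (sgb true) (sgb false) x :=
  strip_altBD (m := 1449551462) true rfl hκ (SH.κ0 hκ (SH.hx1 hx).le (SH.hx2 hx').le) (SH.hx1 hx).le (SH.hx2 hx') (covB02).cov (covB02).cov hx hx' c_B00pm_202_s1 H (noExt_B)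

noncomputable def cut_B00pm_202_s3 : Cut := Cut.of [[⟨3, 0, 0, 2845415833⟩], [⟨0, 1, 0, 26843545⟩, ⟨1, 0, 0, 26843545⟩, ⟨2, 1, 0, 26843545⟩], [⟨0, 0, 1, 46137344⟩, ⟨1, 1, 2, 46137344⟩, ⟨2, 1, 0, 1048576⟩, ⟨0, 0, 0, 1054867456⟩, ⟨0, 1, 0, 38117834⟩, ⟨1, 0, 0, 38117834⟩, ⟨1, 1, 0, 1054867456⟩]]

noncomputable def f_B00pm_202_s3 : ℕ → ℕ → ℕ → ℕ → Bool := onCell 0 536870912 0 536870912 1040187392 5207648
    (rowF 0 false true false .pp 2 0 2 (qsf 0 536870912 0 536870912 0) ndB0q2 ndB0q2 pcB0 cut_B00pm_202_s3 Ext.none)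

def k0_B00pm_202_s3 : ∃ t, chk3 f_B00pm_202_s3 t 1 1 1 = true :=
  ⟨(l 6), by decide +kernel⟩

theorem c_B00pm_202_s3 : CertF 0 536870912 0 536870912 1040187392 5207648 false true false .pp 2 0 2
    ndB0q2 ndB0q2 pcB0 cut_B00pm_202_s3 Ext.none :=
  certF0 (fam := false) (s1 := true) (s2 := false) (a := 2) (b := 0) (c := 2) (cn := .pp) (n1 := ndB0q2) (n2 := ndB0q2) (pc := pcB0) (cut := cut_B00pm_202_s3) (xt := Ext.none) (P1 := 0) (W1 := 536870912) (P2 := 0) (W2 := 536870912) (P3 := 1040187392) (W3 := 5207648)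
    rfl k0_B00pm_202_s3

theorem s_B00pm_202_s3 {κ x : ℝ} (hκ : κ * h0 = ken x) (hx : ((1040187392 : ℕ) : ℝ) / S ≤ x)
    (hx' : x ≤ (((1040187392 : ℕ) : ℝ) + (5207648 : ℕ)) / S)
    (H : CutB (VFD κ) PP tK tL pcB (Cut.of [[⟨0, 1, 0, 26843545⟩, ⟨1, 0, 0, 26843545⟩, ⟨2, 1, 0, 26843545⟩], [⟨0, 0, 1, 46137344⟩, ⟨1, 1, 2, 46137344⟩, ⟨2, 1, 0, 1048576⟩, ⟨0, 0, 0, 1054867456⟩, ⟨0, 1, 0, 38117834⟩, ⟨1, 0, 0, 38117834⟩, ⟨1, 1, 0, 1054867456⟩]]) 2 0 2 0 0 (sgb true) (sgb false) x) :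
    AltB (VFD κ) PP tK tL pcB [⟨4, 0, 0, 2845415833⟩] 2 0 2 0 0 (sgb true) (sgb false) x :=
  strip_altBD (m := 2845415833) false rfl hκ (SH.κ0 hκ (SH.hx1 hx).le (SH.hx2 hx').le) (SH.hx1 hx).le (SH.hx2 hx') (covB02).cov (covB02).cov hx hx' c_B00pm_202_s3 H (noExt_B)

noncomputable def cut_B00mm_001_s1 : Cut := Cut.of [[⟨4, 0, 0, 1449551462⟩]]

noncomputable def f_B00mm_001_s1 : ℕ → ℕ → ℕ → ℕ → Bool := onCell 0 536870912 0 536870912 1040187392 5207648
    (rowF 1 false false false .up 0 0 1 (qsf 0 536870912 536870912 536870912 0) ndB0q0 ndB0q1 pcB0 cut_B00mm_001_s1 Ext.none)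

def k0_B00mm_001_s1 : ∃ t, chk3 f_B00mm_001_s1 t 1 1 1 = true :=
  ⟨(l 3), by decide +kernel⟩

theorem c_B00mm_001_s1 : CertF 0 536870912 536870912 536870912 1040187392 5207648 false false false .up 0 0 1
    ndB0q0 ndB0q1 pcB0 cut_B00mm_001_s1 Ext.none :=
  certF1 (fam := false) (s1 := false) (s2 := false) (a := 0) (b := 0) (c := 1) (cn := .up) (n1 := ndB0q0) (n2 := ndB0q1) (pc := pcB0) (cut := cut_B00mm_001_s1) (xt := Ext.none) (P1 := 0) (W1 := 536870912) (P2 := 536870912) (W2 := 536870912) (P3 := 1040187392) (W3 := 5207648)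
    rfl (fun _ => rfl) k0_B00mm_001_s1

theorem s_B00mm_001_s1 {κ x : ℝ} (hκ : κ * h0 = ken x) (hx : ((1040187392 : ℕ) : ℝ) / S ≤ x)
    (hx' : x ≤ (((1040187392 : ℕ) : ℝ) + (5207648 : ℕ)) / S) :
    AltB (VFD κ) PP tK tL pcB [⟨3, 0, 0, 1449551462⟩] 0 0 1 0 0 (sgb false) (sgb false) x :=
  strip_altBD (m := 1449551462) true rfl hκ (SH.κ0 hκ (SH.hx1 hx).le (SH.hx2 hx').le) (SH.hx1 hx).le (SH.hx2 hx') (covB00).cov (covB01).cov hx hx' c_B00mm_001_s1 cutB_nil (noExt_B)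

noncomputable def cut_B00mm_001_s3 : Cut := Cut.of [[⟨3, 0, 0, 2845415833⟩]]

noncomputable def f_B00mm_001_s3 : ℕ → ℕ → ℕ → ℕ → Bool := onCell 0 536870912 536870912 536870912 1040187392 5207648
    (rowF 0 false false false .up 0 0 1 (qsf 0 536870912 536870912 536870912 0) ndB0q0 ndB0q1 pcB0 cut_B00mm_001_s3 Ext.none)

def k0_B00mm_001_s3 : ∃ t, chk3 f_B00mm_001_s3 t 1 1 1 = true :=
  ⟨(l 6), by decide +kernel⟩

theorem c_B00mm_001_s3 : CertF 0 536870912 536870912 536870912 1040187392 5207648 false false false .up 0 0 1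
    ndB0q0 ndB0q1 pcB0 cut_B00mm_001_s3 Ext.none :=
  certF0 (fam := false) (s1 := false) (s2 := false) (a := 0) (b := 0) (c := 1) (cn := .up) (n1 := ndB0q0) (n2 := ndB0q1) (pc := pcB0) (cut := cut_B00mm_001_s3) (xt := Ext.none) (P1 := 0) (W1 := 536870912) (P2 := 536870912) (W2 := 536870912) (P3 := 1040187392) (W3 := 5207648)
    rfl k0_B00mm_001_s3

theorem s_B00mm_001_s3 {κ x : ℝ} (hκ : κ * h0 = ken x) (hx : ((1040187392 : ℕ) : ℝ) / S ≤ x)
    (hx' : x ≤ (((1040187392 : ℕ) : ℝ) + (5207648 : ℕ)) / S) :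
    AltB (VFD κ) PP tK tL pcB [⟨4, 0, 0, 2845415833⟩] 0 0 1 0 0 (sgb false) (sgb false) x :=
  strip_altBD (m := 2845415833) false rfl hκ (SH.κ0 hκ (SH.hx1 hx).le (SH.hx2 hx').le) (SH.hx1 hx).le (SH.hx2 hx') (covB00).cov (covB01).cov hx hx' c_B00mm_001_s3 cutB_nil (noExt_B)

noncomputable def cut_B00mm_011_s1 : Cut := Cut.of [[⟨4, 0, 0, 1449551462⟩]]

noncomputable def f_B00mm_011_s1 : ℕ → ℕ → ℕ → ℕ → Bool := onCell 0 536870912 536870912 536870912 1040187392 5207648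
    (rowF 1 false false false .pnn 0 1 1 (qsf 0 536870912 536870912 536870912 1) ndB0q0 ndB0q1 pcB1 cut_B00mm_011_s1 Ext.none)

def k0_B00mm_011_s1 : ∃ t, chk3 f_B00mm_011_s1 t 1 1 1 = true :=
  ⟨(l 5), by decide +kernel⟩

theorem c_B00mm_011_s1 : CertF 0 536870912 536870912 536870912 1040187392 5207648 false false false .pnn 0 1 1
    ndB0q0 ndB0q1 pcB1 cut_B00mm_011_s1 Ext.none :=
  certF1 (fam := false) (s1 := false) (s2 := false) (a := 0) (b := 1) (c := 1) (cn := .pnn) (n1 := ndB0q0) (n2 := ndB0q1) (pc := pcB1) (cut := cut_B00mm_011_s1) (xt := Ext.none) (P1 := 0) (W1 := 536870912) (P2 := 536870912) (W2 := 536870912) (P3 := 1040187392) (W3 := 5207648)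
    rfl (fun _ => rfl) k0_B00mm_011_s1

theorem s_B00mm_011_s1 {κ x : ℝ} (hκ : κ * h0 = ken x) (hx : ((1040187392 : ℕ) : ℝ) / S ≤ x)
    (hx' : x ≤ (((1040187392 : ℕ) : ℝ) + (5207648 : ℕ)) / S) :
    AltB (VFD κ) PP tK tL pcB [⟨3, 0, 0, 1449551462⟩] 0 1 1 0 0 (sgb false) (sgb false) x :=
  strip_altBD (m := 1449551462) true rfl hκ (SH.κ0 hκ (SH.hx1 hx).le (SH.hx2 hx').le) (SH.hx1 hx).le (SH.hx2 hx') (covB00).cov (covB01).cov hx hx' c_B00mm_011_s1 cutB_nil (noExt_B)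

noncomputable def cut_B00mm_011_s3 : Cut := Cut.of [[⟨3, 0, 0, 2845415833⟩]]

noncomputable def f_B00mm_011_s3 : ℕ → ℕ → ℕ → ℕ → Bool := onCell 0 536870912 536870912 536870912 1040187392 5207648
    (rowF 0 false false false .pnn 0 1 1 (qsf 0 536870912 536870912 536870912 1) ndB0q0 ndB0q1 pcB1 cut_B00mm_011_s3 Ext.none)

def k0_B00mm_011_s3 : ∃ t, chk3 f_B00mm_011_s3 t 1 1 1 = true :=
  ⟨(l 6), by decide +kernel⟩

theorem c_B00mm_011_s3 : CertF 0 536870912 536870912 536870912 1040187392 5207648 false false false .pnn 0 1 1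
    ndB0q0 ndB0q1 pcB1 cut_B00mm_011_s3 Ext.none :=
  certF0 (fam := false) (s1 := false) (s2 := false) (a := 0) (b := 1) (c := 1) (cn := .pnn) (n1 := ndB0q0) (n2 := ndB0q1) (pc := pcB1) (cut := cut_B00mm_011_s3) (xt := Ext.none) (P1 := 0) (W1 := 536870912) (P2 := 536870912) (W2 := 536870912) (P3 := 1040187392) (W3 := 5207648)
    rfl k0_B00mm_011_s3

theorem s_B00mm_011_s3 {κ x : ℝ} (hκ : κ * h0 = ken x) (hx : ((1040187392 : ℕ) : ℝ) / S ≤ x)
    (hx' : x ≤ (((1040187392 : ℕ) : ℝ) + (5207648 : ℕ)) / S) :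
    AltB (VFD κ) PP tK tL pcB [⟨4, 0, 0, 2845415833⟩] 0 1 1 0 0 (sgb false) (sgb false) x :=
  strip_altBD (m := 2845415833) false rfl hκ (SH.κ0 hκ (SH.hx1 hx).le (SH.hx2 hx').le) (SH.hx1 hx).le (SH.hx2 hx') (covB00).cov (covB01).cov hx hx' c_B00mm_011_s3 cutB_nil (noExt_B)

noncomputable def cut_B00mm_012_s1 : Cut := Cut.of [[⟨4, 0, 0, 1449551462⟩]]

noncomputable def f_B00mm_012_s1 : ℕ → ℕ → ℕ → ℕ → Bool := onCell 0 536870912 0 536870912 1040187392 5207648
    (rowF 0 false false false .pnp 0 1 2 (qsf 0 536870912 0 536870912 1) ndB0q0 ndB0q2 pcB1 cut_B00mm_012_s1 Ext.none)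

def k0_B00mm_012_s1 : ∃ t, chk3 f_B00mm_012_s1 t 1 1 1 = true :=
  ⟨(l 5), by decide +kernel⟩

theorem c_B00mm_012_s1 : CertF 0 536870912 0 536870912 1040187392 5207648 false false false .pnp 0 1 2
    ndB0q0 ndB0q2 pcB1 cut_B00mm_012_s1 Ext.none :=
  certF0 (fam := false) (s1 := false) (s2 := false) (a := 0) (b := 1) (c := 2) (cn := .pnp) (n1 := ndB0q0) (n2 := ndB0q2) (pc := pcB1) (cut := cut_B00mm_012_s1) (xt := Ext.none) (P1 := 0) (W1 := 536870912) (P2 := 0) (W2 := 536870912) (P3 := 1040187392) (W3 := 5207648)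
    rfl k0_B00mm_012_s1

theorem s_B00mm_012_s1 {κ x : ℝ} (hκ : κ * h0 = ken x) (hx : ((1040187392 : ℕ) : ℝ) / S ≤ x)
    (hx' : x ≤ (((1040187392 : ℕ) : ℝ) + (5207648 : ℕ)) / S) :
    AltB (VFD κ) PP tK tL pcB [⟨3, 0, 0, 1449551462⟩] 0 1 2 0 0 (sgb false) (sgb false) x :=
  strip_altBD (m := 1449551462) true rfl hκ (SH.κ0 hκ (SH.hx1 hx).le (SH.hx2 hx').le) (SH.hx1 hx).le (SH.hx2 hx') (covB00).cov (covB02).cov hx hx' c_B00mm_012_s1 cutB_nil (noExt_B)

noncomputable def cut_B00mm_012_s3 : Cut := Cut.of [[⟨3, 0, 0, 2845415833⟩]]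

noncomputable def f_B00mm_012_s3 : ℕ → ℕ → ℕ → ℕ → Bool := onCell 0 536870912 0 536870912 1040187392 5207648
    (rowF 0 false false false .pnp 0 1 2 (qsf 0 536870912 0 536870912 1) ndB0q0 ndB0q2 pcB1 cut_B00mm_012_s3 Ext.none)

def k0_B00mm_012_s3 : ∃ t, chk3 f_B00mm_012_s3 t 1 1 1 = true :=
  ⟨(l 5), by decide +kernel⟩

theorem c_B00mm_012_s3 : CertF 0 536870912 0 536870912 1040187392 5207648 false false false .pnp 0 1 2
    ndB0q0 ndB0q2 pcB1 cut_B00mm_012_s3 Ext.none :=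
  certF0 (fam := false) (s1 := false) (s2 := false) (a := 0) (b := 1) (c := 2) (cn := .pnp) (n1 := ndB0q0) (n2 := ndB0q2) (pc := pcB1) (cut := cut_B00mm_012_s3) (xt := Ext.none) (P1 := 0) (W1 := 536870912) (P2 := 0) (W2 := 536870912) (P3 := 1040187392) (W3 := 5207648)
    rfl k0_B00mm_012_s3

theorem s_B00mm_012_s3 {κ x : ℝ} (hκ : κ * h0 = ken x) (hx : ((1040187392 : ℕ) : ℝ) / S ≤ x)
    (hx' : x ≤ (((1040187392 : ℕ) : ℝ) + (5207648 : ℕ)) / S) :
    AltB (VFD κ) PP tK tL pcB [⟨4, 0, 0, 2845415833⟩] 0 1 2 0 0 (sgb false) (sgb false) x :=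
  strip_altBD (m := 2845415833) false rfl hκ (SH.κ0 hκ (SH.hx1 hx).le (SH.hx2 hx').le) (SH.hx1 hx).le (SH.hx2 hx') (covB00).cov (covB02).cov hx hx' c_B00mm_012_s3 cutB_nil (noExt_B)

noncomputable def cut_B00mm_022_s1 : Cut := Cut.of [[⟨4, 0, 0, 1449551462⟩]]

noncomputable def f_B00mm_022_s1 : ℕ → ℕ → ℕ → ℕ → Bool := onCell 0 536870912 0 536870912 1040187392 5207648
    (rowF 0 false false false .pp 0 2 2 (qsf 0 536870912 0 536870912 2) ndB0q0 ndB0q2 pcB2 cut_B00mm_022_s1 Ext.none)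

def k0_B00mm_022_s1 : ∃ t, chk3 f_B00mm_022_s1 t 1 1 1 = true :=
  ⟨(l 5), by decide +kernel⟩

theorem c_B00mm_022_s1 : CertF 0 536870912 0 536870912 1040187392 5207648 false false false .pp 0 2 2
    ndB0q0 ndB0q2 pcB2 cut_B00mm_022_s1 Ext.none :=
  certF0 (fam := false) (s1 := false) (s2 := false) (a := 0) (b := 2) (c := 2) (cn := .pp) (n1 := ndB0q0) (n2 := ndB0q2) (pc := pcB2) (cut := cut_B00mm_022_s1) (xt := Ext.none) (P1 := 0) (W1 := 536870912) (P2 := 0) (W2 := 536870912) (P3 := 1040187392) (W3 := 5207648)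
    rfl k0_B00mm_022_s1

theorem s_B00mm_022_s1 {κ x : ℝ} (hκ : κ * h0 = ken x) (hx : ((1040187392 : ℕ) : ℝ) / S ≤ x)
    (hx' : x ≤ (((1040187392 : ℕ) : ℝ) + (5207648 : ℕ)) / S) :
    AltB (VFD κ) PP tK tL pcB [⟨3, 0, 0, 1449551462⟩] 0 2 2 0 0 (sgb false) (sgb false) x :=
  strip_altBD (m := 1449551462) true rfl hκ (SH.κ0 hκ (SH.hx1 hx).le (SH.hx2 hx').le) (SH.hx1 hx).le (SH.hx2 hx') (covB00).cov (covB02).cov hx hx' c_B00mm_022_s1 cutB_nil (noExt_B)

noncomputable def cut_B00mm_022_s3 : Cut := Cut.of [[⟨3, 0, 0, 2845415833⟩]]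

noncomputable def f_B00mm_022_s3 : ℕ → ℕ → ℕ → ℕ → Bool := onCell 0 536870912 0 536870912 1040187392 5207648
    (rowF 0 false false false .pp 0 2 2 (qsf 0 536870912 0 536870912 2) ndB0q0 ndB0q2 pcB2 cut_B00mm_022_s3 Ext.none)

def k0_B00mm_022_s3 : ∃ t, chk3 f_B00mm_022_s3 t 1 1 1 = true :=
  ⟨(l 5), by decide +kernel⟩

theorem c_B00mm_022_s3 : CertF 0 536870912 0 536870912 1040187392 5207648 false false false .pp 0 2 2
    ndB0q0 ndB0q2 pcB2 cut_B00mm_022_s3 Ext.none :=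
  certF0 (fam := false) (s1 := false) (s2 := false) (a := 0) (b := 2) (c := 2) (cn := .pp) (n1 := ndB0q0) (n2 := ndB0q2) (pc := pcB2) (cut := cut_B00mm_022_s3) (xt := Ext.none) (P1 := 0) (W1 := 536870912) (P2 := 0) (W2 := 536870912) (P3 := 1040187392) (W3 := 5207648)
    rfl k0_B00mm_022_s3

theorem s_B00mm_022_s3 {κ x : ℝ} (hκ : κ * h0 = ken x) (hx : ((1040187392 : ℕ) : ℝ) / S ≤ x)
    (hx' : x ≤ (((1040187392 : ℕ) : ℝ) + (5207648 : ℕ)) / S) :
    AltB (VFD κ) PP tK tL pcB [⟨4, 0, 0, 2845415833⟩] 0 2 2 0 0 (sgb false) (sgb false) x :=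
  strip_altBD (m := 2845415833) false rfl hκ (SH.κ0 hκ (SH.hx1 hx).le (SH.hx2 hx').le) (SH.hx1 hx).le (SH.hx2 hx') (covB00).cov (covB02).cov hx hx' c_B00mm_022_s3 cutB_nil (noExt_B)

noncomputable def cut_B00mm_101_s1 : Cut := Cut.of [[⟨4, 0, 0, 1449551462⟩]]

noncomputable def f_B00mm_101_s1 : ℕ → ℕ → ℕ → ℕ → Bool := onCell 536870912 536870912 536870912 536870912 1040187392 5207648
    (rowF 0 false false false .npn 1 0 1 (qsf 536870912 536870912 536870912 536870912 0) ndB0q1 ndB0q1 pcB0 cut_B00mm_101_s1 Ext.none)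

def k0_B00mm_101_s1 : ∃ t, chk3 f_B00mm_101_s1 t 1 1 1 = true :=
  ⟨(l 3), by decide +kernel⟩

theorem c_B00mm_101_s1 : CertF 536870912 536870912 536870912 536870912 1040187392 5207648 false false false .npn 1 0 1
    ndB0q1 ndB0q1 pcB0 cut_B00mm_101_s1 Ext.none :=
  certF0 (fam := false) (s1 := false) (s2 := false) (a := 1) (b := 0) (c := 1) (cn := .npn) (n1 := ndB0q1) (n2 := ndB0q1) (pc := pcB0) (cut := cut_B00mm_101_s1) (xt := Ext.none) (P1 := 536870912) (W1 := 536870912) (P2 := 536870912) (W2 := 536870912) (P3 := 1040187392) (W3 := 5207648)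
    rfl k0_B00mm_101_s1

theorem s_B00mm_101_s1 {κ x : ℝ} (hκ : κ * h0 = ken x) (hx : ((1040187392 : ℕ) : ℝ) / S ≤ x)
    (hx' : x ≤ (((1040187392 : ℕ) : ℝ) + (5207648 : ℕ)) / S) :
    AltB (VFD κ) PP tK tL pcB [⟨3, 0, 0, 1449551462⟩] 1 0 1 0 0 (sgb false) (sgb false) x :=
  strip_altBD (m := 1449551462) true rfl hκ (SH.κ0 hκ (SH.hx1 hx).le (SH.hx2 hx').le) (SH.hx1 hx).le (SH.hx2 hx') (covB01).cov (covB01).cov hx hx' c_B00mm_101_s1 cutB_nil (noExt_B)

noncomputable def cut_B00mm_101_s3 : Cut := Cut.of [[⟨3, 0, 0, 2845415833⟩]]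

noncomputable def f_B00mm_101_s3 : ℕ → ℕ → ℕ → ℕ → Bool := onCell 536870912 536870912 536870912 536870912 1040187392 5207648
    (rowF 0 false false false .npn 1 0 1 (qsf 536870912 536870912 536870912 536870912 0) ndB0q1 ndB0q1 pcB0 cut_B00mm_101_s3 Ext.none)

def k0_B00mm_101_s3 : ∃ t, chk3 f_B00mm_101_s3 t 1 1 1 = true :=
  ⟨(l 3), by decide +kernel⟩

theorem c_B00mm_101_s3 : CertF 536870912 536870912 536870912 536870912 1040187392 5207648 false false false .npn 1 0 1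
    ndB0q1 ndB0q1 pcB0 cut_B00mm_101_s3 Ext.none :=
  certF0 (fam := false) (s1 := false) (s2 := false) (a := 1) (b := 0) (c := 1) (cn := .npn) (n1 := ndB0q1) (n2 := ndB0q1) (pc := pcB0) (cut := cut_B00mm_101_s3) (xt := Ext.none) (P1 := 536870912) (W1 := 536870912) (P2 := 536870912) (W2 := 536870912) (P3 := 1040187392) (W3 := 5207648)
    rfl k0_B00mm_101_s3

theorem s_B00mm_101_s3 {κ x : ℝ} (hκ : κ * h0 = ken x) (hx : ((1040187392 : ℕ) : ℝ) / S ≤ x)
    (hx' : x ≤ (((1040187392 : ℕ) : ℝ) + (5207648 : ℕ)) / S) :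
    AltB (VFD κ) PP tK tL pcB [⟨4, 0, 0, 2845415833⟩] 1 0 1 0 0 (sgb false) (sgb false) x :=
  strip_altBD (m := 2845415833) false rfl hκ (SH.κ0 hκ (SH.hx1 hx).le (SH.hx2 hx').le) (SH.hx1 hx).le (SH.hx2 hx') (covB01).cov (covB01).cov hx hx' c_B00mm_101_s3 cutB_nil (noExt_B)

noncomputable def cut_B00mm_102_s1 : Cut := Cut.of [[⟨4, 0, 0, 1449551462⟩]]

noncomputable def f_B00mm_102_s1 : ℕ → ℕ → ℕ → ℕ → Bool := onCell 536870912 536870912 0 536870912 1040187392 5207648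
    (rowF 0 false false false .npp 1 0 2 (qsf 536870912 536870912 0 536870912 0) ndB0q1 ndB0q2 pcB0 cut_B00mm_102_s1 Ext.none)

def k0_B00mm_102_s1 : ∃ t, chk3 f_B00mm_102_s1 t 1 1 1 = true :=
  ⟨(a (l 5) (l 3)), by decide +kernel⟩

theorem c_B00mm_102_s1 : CertF 536870912 536870912 0 536870912 1040187392 5207648 false false false .npp 1 0 2
    ndB0q1 ndB0q2 pcB0 cut_B00mm_102_s1 Ext.none :=
  certF0 (fam := false) (s1 := false) (s2 := false) (a := 1) (b := 0) (c := 2) (cn := .npp) (n1 := ndB0q1) (n2 := ndB0q2) (pc := pcB0) (cut := cut_B00mm_102_s1) (xt := Ext.none) (P1 := 536870912) (W1 := 536870912) (P2 := 0) (W2 := 536870912) (P3 := 1040187392) (W3 := 5207648)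
    rfl k0_B00mm_102_s1

theorem s_B00mm_102_s1 {κ x : ℝ} (hκ : κ * h0 = ken x) (hx : ((1040187392 : ℕ) : ℝ) / S ≤ x)
    (hx' : x ≤ (((1040187392 : ℕ) : ℝ) + (5207648 : ℕ)) / S) :
    AltB (VFD κ) PP tK tL pcB [⟨3, 0, 0, 1449551462⟩] 1 0 2 0 0 (sgb false) (sgb false) x :=
  strip_altBD (m := 1449551462) true rfl hκ (SH.κ0 hκ (SH.hx1 hx).le (SH.hx2 hx').le) (SH.hx1 hx).le (SH.hx2 hx') (covB01).cov (covB02).cov hx hx' c_B00mm_102_s1 cutB_nil (noExt_B)

noncomputable def cut_B00mm_102_s3 : Cut := Cut.of [[⟨3, 0, 0, 2845415833⟩]]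

noncomputable def f_B00mm_102_s3 : ℕ → ℕ → ℕ → ℕ → Bool := onCell 536870912 536870912 0 536870912 1040187392 5207648
    (rowF 0 false false false .npp 1 0 2 (qsf 536870912 536870912 0 536870912 0) ndB0q1 ndB0q2 pcB0 cut_B00mm_102_s3 Ext.none)

def k0_B00mm_102_s3 : ∃ t, chk3 f_B00mm_102_s3 t 1 1 1 = true :=
  ⟨(l 6), by decide +kernel⟩

theorem c_B00mm_102_s3 : CertF 536870912 536870912 0 536870912 1040187392 5207648 false false false .npp 1 0 2
    ndB0q1 ndB0q2 pcB0 cut_B00mm_102_s3 Ext.none :=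
  certF0 (fam := false) (s1 := false) (s2 := false) (a := 1) (b := 0) (c := 2) (cn := .npp) (n1 := ndB0q1) (n2 := ndB0q2) (pc := pcB0) (cut := cut_B00mm_102_s3) (xt := Ext.none) (P1 := 536870912) (W1 := 536870912) (P2 := 0) (W2 := 536870912) (P3 := 1040187392) (W3 := 5207648)
    rfl k0_B00mm_102_s3

theorem s_B00mm_102_s3 {κ x : ℝ} (hκ : κ * h0 = ken x) (hx : ((1040187392 : ℕ) : ℝ) / S ≤ x)
    (hx' : x ≤ (((1040187392 : ℕ) : ℝ) + (5207648 : ℕ)) / S) :
    AltB (VFD κ) PP tK tL pcB [⟨4, 0, 0, 2845415833⟩] 1 0 2 0 0 (sgb false) (sgb false) x :=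
  strip_altBD (m := 2845415833) false rfl hκ (SH.κ0 hκ (SH.hx1 hx).le (SH.hx2 hx').le) (SH.hx1 hx).le (SH.hx2 hx') (covB01).cov (covB02).cov hx hx' c_B00mm_102_s3 cutB_nil (noExt_B)

noncomputable def cut_B00mm_112_s1 : Cut := Cut.of [[⟨4, 0, 0, 1449551462⟩]]

noncomputable def f_B00mm_112_s1 : ℕ → ℕ → ℕ → ℕ → Bool := onCell 536870912 536870912 0 536870912 1040187392 5207648
    (rowF 2 false false false .dn 1 1 2 (qsf 536870912 536870912 0 536870912 1) ndB0q1 ndB0q2 pcB1 cut_B00mm_112_s1 Ext.none)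

def k0_B00mm_112_s1 : ∃ t, chk3 f_B00mm_112_s1 t 1 1 1 = true :=
  ⟨(l 5), by decide +kernel⟩

theorem c_B00mm_112_s1 : CertF 536870912 536870912 0 536870912 1040187392 5207648 false false false .dn 1 1 2
    ndB0q1 ndB0q2 pcB1 cut_B00mm_112_s1 Ext.none :=
  certF2 (fam := false) (s1 := false) (s2 := false) (a := 1) (b := 1) (c := 2) (cn := .dn) (n1 := ndB0q1) (n2 := ndB0q2) (pc := pcB1) (cut := cut_B00mm_112_s1) (xt := Ext.none) (P1 := 536870912) (W1 := 536870912) (P2 := 0) (W2 := 536870912) (P3 := 1040187392) (W3 := 5207648)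
    rfl (fun _ => rfl) k0_B00mm_112_s1

theorem s_B00mm_112_s1 {κ x : ℝ} (hκ : κ * h0 = ken x) (hx : ((1040187392 : ℕ) : ℝ) / S ≤ x)
    (hx' : x ≤ (((1040187392 : ℕ) : ℝ) + (5207648 : ℕ)) / S) :
    AltB (VFD κ) PP tK tL pcB [⟨3, 0, 0, 1449551462⟩] 1 1 2 0 0 (sgb false) (sgb false) x :=
  strip_altBD (m := 1449551462) true rfl hκ (SH.κ0 hκ (SH.hx1 hx).le (SH.hx2 hx').le) (SH.hx1 hx).le (SH.hx2 hx') (covB01).cov (covB02).cov hx hx' c_B00mm_112_s1 cutB_nil (noExt_B)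

noncomputable def cut_B00mm_112_s3 : Cut := Cut.of [[⟨3, 0, 0, 2845415833⟩]]

noncomputable def f_B00mm_112_s3 : ℕ → ℕ → ℕ → ℕ → Bool := onCell 536870912 536870912 0 536870912 1040187392 5207648
    (rowF 0 false false false .dn 1 1 2 (qsf 536870912 536870912 0 536870912 1) ndB0q1 ndB0q2 pcB1 cut_B00mm_112_s3 Ext.none)

def k0_B00mm_112_s3 : ∃ t, chk3 f_B00mm_112_s3 t 1 1 1 = true :=
  ⟨(l 6), by decide +kernel⟩

theorem c_B00mm_112_s3 : CertF 536870912 536870912 0 536870912 1040187392 5207648 false false false .dn 1 1 2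
    ndB0q1 ndB0q2 pcB1 cut_B00mm_112_s3 Ext.none :=
  certF0 (fam := false) (s1 := false) (s2 := false) (a := 1) (b := 1) (c := 2) (cn := .dn) (n1 := ndB0q1) (n2 := ndB0q2) (pc := pcB1) (cut := cut_B00mm_112_s3) (xt := Ext.none) (P1 := 536870912) (W1 := 536870912) (P2 := 0) (W2 := 536870912) (P3 := 1040187392) (W3 := 5207648)
    rfl k0_B00mm_112_s3

theorem s_B00mm_112_s3 {κ x : ℝ} (hκ : κ * h0 = ken x) (hx : ((1040187392 : ℕ) : ℝ) / S ≤ x)
    (hx' : x ≤ (((1040187392 : ℕ) : ℝ) + (5207648 : ℕ)) / S) :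
    AltB (VFD κ) PP tK tL pcB [⟨4, 0, 0, 2845415833⟩] 1 1 2 0 0 (sgb false) (sgb false) x :=
  strip_altBD (m := 2845415833) false rfl hκ (SH.κ0 hκ (SH.hx1 hx).le (SH.hx2 hx').le) (SH.hx1 hx).le (SH.hx2 hx') (covB01).cov (covB02).cov hx hx' c_B00mm_112_s3 cutB_nil (noExt_B)

noncomputable def cut_B00mm_202_s1 : Cut := Cut.of [[⟨4, 0, 0, 1449551462⟩]]

noncomputable def f_B00mm_202_s1 : ℕ → ℕ → ℕ → ℕ → Bool := onCell 0 536870912 0 536870912 1040187392 5207648
    (rowF 0 false false false .pp 2 0 2 (qsf 0 536870912 0 536870912 0) ndB0q2 ndB0q2 pcB0 cut_B00mm_202_s1 Ext.none)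

def k0_B00mm_202_s1 : ∃ t, chk3 f_B00mm_202_s1 t 1 1 1 = true :=
  ⟨(l 3), by decide +kernel⟩

theorem c_B00mm_202_s1 : CertF 0 536870912 0 536870912 1040187392 5207648 false false false .pp 2 0 2
    ndB0q2 ndB0q2 pcB0 cut_B00mm_202_s1 Ext.none :=
  certF0 (fam := false) (s1 := false) (s2 := false) (a := 2) (b := 0) (c := 2) (cn := .pp) (n1 := ndB0q2) (n2 := ndB0q2) (pc := pcB0) (cut := cut_B00mm_202_s1) (xt := Ext.none) (P1 := 0) (W1 := 536870912) (P2 := 0) (W2 := 536870912) (P3 := 1040187392) (W3 := 5207648)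
    rfl k0_B00mm_202_s1

theorem s_B00mm_202_s1 {κ x : ℝ} (hκ : κ * h0 = ken x) (hx : ((1040187392 : ℕ) : ℝ) / S ≤ x)
    (hx' : x ≤ (((1040187392 : ℕ) : ℝ) + (5207648 : ℕ)) / S) :
    AltB (VFD κ) PP tK tL pcB [⟨3, 0, 0, 1449551462⟩] 2 0 2 0 0 (sgb false) (sgb false) x :=
  strip_altBD (m := 1449551462) true rfl hκ (SH.κ0 hκ (SH.hx1 hx).le (SH.hx2 hx').le) (SH.hx1 hx).le (SH.hx2 hx') (covB02).cov (covB02).cov hx hx' c_B00mm_202_s1 cutB_nil (noExt_B)

noncomputable def cut_B00mm_202_s3 : Cut := Cut.of [[⟨3, 0, 0, 2845415833⟩]]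

noncomputable def f_B00mm_202_s3 : ℕ → ℕ → ℕ → ℕ → Bool := onCell 0 536870912 0 536870912 1040187392 5207648
    (rowF 0 false false false .pp 2 0 2 (qsf 0 536870912 0 536870912 0) ndB0q2 ndB0q2 pcB0 cut_B00mm_202_s3 Ext.none)

def k0_B00mm_202_s3 : ∃ t, chk3 f_B00mm_202_s3 t 1 1 1 = true :=
  ⟨(l 3), by decide +kernel⟩

theorem c_B00mm_202_s3 : CertF 0 536870912 0 536870912 1040187392 5207648 false false false .pp 2 0 2
    ndB0q2 ndB0q2 pcB0 cut_B00mm_202_s3 Ext.none :=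
  certF0 (fam := false) (s1 := false) (s2 := false) (a := 2) (b := 0) (c := 2) (cn := .pp) (n1 := ndB0q2) (n2 := ndB0q2) (pc := pcB0) (cut := cut_B00mm_202_s3) (xt := Ext.none) (P1 := 0) (W1 := 536870912) (P2 := 0) (W2 := 536870912) (P3 := 1040187392) (W3 := 5207648)
    rfl k0_B00mm_202_s3

theorem s_B00mm_202_s3 {κ x : ℝ} (hκ : κ * h0 = ken x) (hx : ((1040187392 : ℕ) : ℝ) / S ≤ x)
    (hx' : x ≤ (((1040187392 : ℕ) : ℝ) + (5207648 : ℕ)) / S) :
    AltB (VFD κ) PP tK tL pcB [⟨4, 0, 0, 2845415833⟩] 2 0 2 0 0 (sgb false) (sgb false) x :=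
  strip_altBD (m := 2845415833) false rfl hκ (SH.κ0 hκ (SH.hx1 hx).le (SH.hx2 hx').le) (SH.hx1 hx).le (SH.hx2 hx') (covB02).cov (covB02).cov hx hx' c_B00mm_202_s3 cutB_nil (noExt_B)

noncomputable def cut_B05pp_001_s1 : Cut := Cut.of [[⟨4, 0, 0, 1449551462⟩]]

noncomputable def f_B05pp_001_s1 : ℕ → ℕ → ℕ → ℕ → Bool := onCell 0 536870912 0 536870912 1040187392 5207648
    (rowF 1 false true true .up 0 0 1 (qsf 0 536870912 536870912 536870912 0) ndB0q0 ndB5q1 pcB0 cut_B05pp_001_s1 Ext.none)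

def k0_B05pp_001_s1 : ∃ t, chk3 f_B05pp_001_s1 t 1 1 1 = true :=
  ⟨(l 3), by decide +kernel⟩

theorem c_B05pp_001_s1 : CertF 0 536870912 536870912 536870912 1040187392 5207648 false true true .up 0 0 1
    ndB0q0 ndB5q1 pcB0 cut_B05pp_001_s1 Ext.none :=
  certF1 (fam := false) (s1 := true) (s2 := true) (a := 0) (b := 0) (c := 1) (cn := .up) (n1 := ndB0q0) (n2 := ndB5q1) (pc := pcB0) (cut := cut_B05pp_001_s1) (xt := Ext.none) (P1 := 0) (W1 := 536870912) (P2 := 536870912) (W2 := 536870912) (P3 := 1040187392) (W3 := 5207648)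
    rfl (fun _ => rfl) k0_B05pp_001_s1

theorem s_B05pp_001_s1 {κ x : ℝ} (hκ : κ * h0 = ken x) (hx : ((1040187392 : ℕ) : ℝ) / S ≤ x)
    (hx' : x ≤ (((1040187392 : ℕ) : ℝ) + (5207648 : ℕ)) / S) :
    AltB (VFD κ) PP tK tL pcB [⟨3, 0, 0, 1449551462⟩] 0 0 1 0 5 (sgb true) (sgb true) x :=
  strip_altBD (m := 1449551462) true rfl hκ (SH.κ0 hκ (SH.hx1 hx).le (SH.hx2 hx').le) (SH.hx1 hx).le (SH.hx2 hx') (covB00).cov (covB51).cov hx hx' c_B05pp_001_s1 cutB_nil (noExt_B)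

noncomputable def cut_B05pp_011_s1 : Cut := Cut.of [[⟨4, 0, 0, 1449551462⟩], [⟨0, 0, 0, 26843545⟩, ⟨1, 1, 0, 26843545⟩, ⟨2, 1, 0, 26843545⟩]]

noncomputable def f_B05pp_011_s1 : ℕ → ℕ → ℕ → ℕ → Bool := onCell 0 536870912 536870912 536870912 1040187392 5207648
    (rowF 1 false true true .pnn 0 1 1 (qsf 0 536870912 536870912 536870912 1) ndB0q0 ndB5q1 pcB1 cut_B05pp_011_s1 Ext.none)

def k0_B05pp_011_s1 : ∃ t, chk3 f_B05pp_011_s1 t 1 1 1 = true :=
  ⟨(b (l 3) (a (b (l 3) (a (b (l 3) (a (b (l 3) (a (a (b (l 3) (l 14)) (l 3)) (l 3))) (l 3))) (l 3))) (l 3))), by decide +kernel⟩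

theorem c_B05pp_011_s1 : CertF 0 536870912 536870912 536870912 1040187392 5207648 false true true .pnn 0 1 1
    ndB0q0 ndB5q1 pcB1 cut_B05pp_011_s1 Ext.none :=
  certF1 (fam := false) (s1 := true) (s2 := true) (a := 0) (b := 1) (c := 1) (cn := .pnn) (n1 := ndB0q0) (n2 := ndB5q1) (pc := pcB1) (cut := cut_B05pp_011_s1) (xt := Ext.none) (P1 := 0) (W1 := 536870912) (P2 := 536870912) (W2 := 536870912) (P3 := 1040187392) (W3 := 5207648)
    rfl (fun _ => rfl) k0_B05pp_011_s1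

theorem s_B05pp_011_s1 {κ x : ℝ} (hκ : κ * h0 = ken x) (hx : ((1040187392 : ℕ) : ℝ) / S ≤ x)
    (hx' : x ≤ (((1040187392 : ℕ) : ℝ) + (5207648 : ℕ)) / S)
    (H : CutB (VFD κ) PP tK tL pcB (Cut.of [[⟨0, 0, 0, 26843545⟩, ⟨1, 1, 0, 26843545⟩, ⟨2, 1, 0, 26843545⟩]]) 0 1 1 0 5 (sgb true) (sgb true) x) :
    AltB (VFD κ) PP tK tL pcB [⟨3, 0, 0, 1449551462⟩] 0 1 1 0 5 (sgb true) (sgb true) x :=
  strip_altBD (m := 1449551462) true rfl hκ (SH.κ0 hκ (SH.hx1 hx).le (SH.hx2 hx').le) (SH.hx1 hx).le (SH.hx2 hx') (covB00).cov (covB51).cov hx hx' c_B05pp_011_s1 H (noExt_B)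

noncomputable def cut_B05pp_012_s1 : Cut := Cut.of [[⟨4, 0, 0, 1449551462⟩], [⟨0, 0, 0, 26843545⟩, ⟨1, 1, 0, 26843545⟩, ⟨2, 1, 0, 26843545⟩]]

noncomputable def f_B05pp_012_s1 : ℕ → ℕ → ℕ → ℕ → Bool := onCell 0 536870912 536870912 536870912 1040187392 5207648
    (rowF 1 false true true .pnp 0 1 2 (qsf 0 536870912 1073741824 536870912 1) ndB0q0 ndB5q2 pcB1 cut_B05pp_012_s1 Ext.none)

def k0_B05pp_012_s1 : ∃ t, chk3 f_B05pp_012_s1 t 1 1 1 = true :=
  ⟨(b (l 3) (a (b (l 3) (a (b (l 3) (a (a (a (b (l 1) (b (l 3) (l 14))) (l 3)) (l 3)) (l 3))) (l 3))) (l 3))), by decide +kernel⟩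

theorem c_B05pp_012_s1 : CertF 0 536870912 1073741824 536870912 1040187392 5207648 false true true .pnp 0 1 2
    ndB0q0 ndB5q2 pcB1 cut_B05pp_012_s1 Ext.none :=
  certF1 (fam := false) (s1 := true) (s2 := true) (a := 0) (b := 1) (c := 2) (cn := .pnp) (n1 := ndB0q0) (n2 := ndB5q2) (pc := pcB1) (cut := cut_B05pp_012_s1) (xt := Ext.none) (P1 := 0) (W1 := 536870912) (P2 := 1073741824) (W2 := 536870912) (P3 := 1040187392) (W3 := 5207648)
    rfl (fun _ => rfl) k0_B05pp_012_s1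

theorem s_B05pp_012_s1 {κ x : ℝ} (hκ : κ * h0 = ken x) (hx : ((1040187392 : ℕ) : ℝ) / S ≤ x)
    (hx' : x ≤ (((1040187392 : ℕ) : ℝ) + (5207648 : ℕ)) / S)
    (H : CutB (VFD κ) PP tK tL pcB (Cut.of [[⟨0, 0, 0, 26843545⟩, ⟨1, 1, 0, 26843545⟩, ⟨2, 1, 0, 26843545⟩]]) 0 1 2 0 5 (sgb true) (sgb true) x) :
    AltB (VFD κ) PP tK tL pcB [⟨3, 0, 0, 1449551462⟩] 0 1 2 0 5 (sgb true) (sgb true) x :=
  strip_altBD (m := 1449551462) true rfl hκ (SH.κ0 hκ (SH.hx1 hx).le (SH.hx2 hx').le) (SH.hx1 hx).le (SH.hx2 hx') (covB00).cov (covB52).cov hx hx' c_B05pp_012_s1 H (noExt_B)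

noncomputable def cut_B05pp_022_s1 : Cut := Cut.of [[⟨4, 0, 0, 1449551462⟩], [⟨0, 0, 0, 22369621⟩, ⟨1, 1, 0, 22369621⟩, ⟨2, 1, 0, 22369621⟩]]

noncomputable def xt_B05pp_022_s1 : Ext := strExt dd false true true .u0 .s2 .u2 .pp 0 2 2 rfl rfl gf2 vv ndB0q0 ndB5q2

noncomputable def f_B05pp_022_s1 : ℕ → ℕ → ℕ → ℕ → Bool := onCell 0 536870912 1073741824 536870912 1040187392 5207648
    (rowF 1 false true true .pp 0 2 2 (qsf 0 536870912 1073741824 536870912 2) ndB0q0 ndB5q2 pcB2 cut_B05pp_022_s1 xt_B05pp_022_s1)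

def k0_B05pp_022_s1 : ∃ t, chk3 f_B05pp_022_s1 t 16 32 1 = true :=
  ⟨(a (a (b (l 14) (a (l 14) (b (l 14) (b (l 16713024) (l 16699392))))) (b (b (l 14) (a (l 14) (a (a (l 14) (b (l 3) (l 505219199))) (b (l 3) (a (l 505179263) (l 505139327)))))) (b (a (b (a (l 14) (b (l 14) (b (a (l 14) (l 16758120)) (l 16752896)))) (a (l 16737232) (l 16733840))) (b (a (a (b (l 16754592) (b (l 16760864) (l 16757984))) (l 504439423)) (a (l 504401023) (l 504362367))) (a (b (a (l 16753224) (l 16751016)) (l 16747968)) (b (b (l 16761904) (l 16758992)) (a (l 16742672) (l 16755840)))))) (a (b (l 16706088) (l 16713264)) (b (b (a (l 16741040) (l 16737808)) (l 16737600)) (l 16685184)))))) (b (a (b (l 3) (a (a (b (l 3) (a (l 505099391) (l 3))) (l 3)) (l 3))) (l 3)) (a (a (b (a (a (b (l 504323711) (l 503514751)) (b (l 504285311) (l 503477887))) (b (a (l 504246911) (l 504208511)) (a (l 503441023) (l 503404159)))) (b (b (a (a (l 16752656) (l 16755640))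 (l 16759680)) (a (a (l 16746472) (l 16749432)) (l 16753784))) (a (l 16737536) (b (l 16736904) (l 16741120))))) (b (a (b (l 504144767) (l 503342719)) (b (l 3) (l 503270527))) (b (a (l 502487167) (l 502521215)) (a (b (l 16753224) (l 16746736)) (l 501520511))))) (b (a (a (b (l 3) (l 503198335)) (l 3)) (l 3)) (a (a (b (l 502309247) (l 501382015)) (b (l 502357631) (l 501425279))) (a (l 500229503) (l 501981055))))))), by decide +kernel⟩

def k1_B05pp_022_s1 : ∃ t, chk3 f_B05pp_022_s1 t 16 33 1 = true :=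
  ⟨(a (a (b (a (b (a (l 16664040) (l 16668600)) (l 16639952)) (b (l 16678824) (l 16651160))) (a (l 16558792) (l 16609136))) (b (b (a (l 16650504) (b (l 16713104) (l 16699016))) (a (l 16664464) (l 16677728))) (b (l 16642712) (l 16614328)))) (b (a (b (a (b (l 16726800) (l 16712536)) (b (a (b (l 16740584) (l 16733480)) (b (l 16746416) (l 16739808))) (b (l 16730128) (l 16722584)))) (a (l 16691120) (l 16683784))) (b (a (a (b (l 16727984) (b (l 16739216) (l 16733048))) (b (l 500722815) (l 16742040))) (a (l 500400511) (l 500564095))) (a (b (a (l 16722400) (b (l 16732616) (l 16726280))) (l 16711872)) (b (a (l 16714288) (l 16741712)) (a (l 16723008) (l 16718472)))))) (a (b (a (l 16662584) (l 16676440)) (l 16641368)) (b (a (l 16690912) (b (l 16712888) (l 16698864))) (l 16639352))))), by decide +kernel⟩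

def k2_B05pp_022_s1 : ∃ t, chk3 f_B05pp_022_s1 t 17 16 1 = true :=
  ⟨(b (a (b (l 3) (a (b (l 3) (a (b (l 3) (l 501976447)) (l 3))) (l 3))) (l 3)) (a (a (b (a (b (a (l 500801407) (l 500973951)) (b (l 500547711) (l 16738400))) (b (b (l 501625215) (l 501181055)) (l 500802431))) (b (a (b (a (l 16723040) (l 16729120)) (a (l 16709984) (l 16717352))) (b (l 16738208) (a (l 16723232) (l 16729560)))) (a (l 16693688) (b (a (l 16711768) (l 16718024)) (l 16702376))))) (b (b (a (l 501760639) (l 3)) (a (l 501276287) (l 501859199))) (b (a (l 501528703) (l 502086015)) (a (b (l 16727208) (a (l 16713344) (l 16719296))) (l 503089535))))) (b (a (b (l 3) (a (l 502551935) (l 3))) (l 3)) (a (b (a (l 502752895) (l 503529343)) (a (l 503723903) (l 504468351))) (b (l 504886655) (l 505778303)))))), by decide +kernel⟩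

def k3_B05pp_022_s1 : ∃ t, chk3 f_B05pp_022_s1 t 8 17 1 = true :=
  ⟨(a (a (b (a (b (a (l 16548304) (l 16552960)) (l 16498664)) (b (l 16571944) (l 16516768))) (a (b (l 16449000) (l 16403192)) (b (l 16463760) (l 16415320)))) (b (b (a (b (l 16613640) (l 16586320)) (b (l 16643976) (l 16617656))) (a (l 16546448) (l 16579432))) (b (a (l 16495456) (l 16531304)) (a (l 16447672) (l 16487008))))) (b (a (b (a (b (l 16633528) (l 16650432)) (b (a (b (l 16705368) (l 16692888)) (b (a (l 16715200) (l 16721272)) (a (l 16704848) (l 16711872)))) (l 16641360))) (a (b (l 16626216) (l 16602904)) (b (l 16660856) (l 16639472)))) (a (b (b (a (b (l 16729504) (l 16720400)) (b (l 16740208) (l 16731440))) (a (b (a (l 16709088) (l 16715296)) (l 16702552)) (b (l 16723808) (l 16695368)))) (b (a (l 16686776) (b (l 16708800) (l 16699120))) (l 16634656))) (b (b (b (a (l 506557567) (l 507572095)) (a (l 16741760) (l 508826495))) (a (l 16709864) (b (l 16744184)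 (l 16737952)))) (b (a (b (l 16721664) (l 16694832)) (b (l 16732640) (l 16727760))) (a (l 16703224) (b (l 16722832) (l 16715880))))))) (a (b (a (l 16569824) (b (l 16619240) (l 16600584))) (a (l 16530376) (l 16573888))) (a (b (b (l 16658440) (l 16641136)) (l 16616344)) (b (b (l 16694976) (l 16678224)) (l 16653232)))))), by decide +kernel⟩

def k4_B05pp_022_s1 : ∃ t, chk3 f_B05pp_022_s1 t 9 8 1 = true :=
  ⟨(b (a (b (l 3) (a (b (l 3) (a (b (l 3) (a (l 507358591) (l 3))) (l 3))) (l 3))) (l 3)) (b (a (a (b (a (b (a (b (b (l 508312191) (l 508624511)) (a (l 16748216) (l 510488191))) (b (a (b (l 509113215) (l 509907071)) (l 509701247)) (a (l 511209599) (l 511345535)))) (a (b (a (l 16751376) (l 16755816)) (l 16747232)) (b (l 512855679) (l 514383487)))) (b (b (l 3) (l 511605119)) (b (a (l 513119871) (l 513290111)) (a (l 514618751) (l 514783871))))) (a (b (a (l 16718448) (l 514826367)) (a (b (l 16732944) (l 16728248)) (l 16737848)))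 (b (a (l 516664191) (l 516823423)) (a (l 16743704) (l 16749336))))) (b (b (l 3) (a (b (a (l 513397631) (l 3)) (l 514907263)) (l 3))) (a (b (a (l 516919679) (l 516952959)) (l 519268991)) (b (a (l 516923519) (l 516831615)) (a (l 519247231) (l 519149951)))))) (b (l 3) (a (b (l 3) (a (l 518881407) (l 3))) (l 3)))) (a (a (b (a (b (a (l 16718296) (b (l 16731744) (l 16726560))) (l 16707992)) (b (a (l 16735816) (l 16741376)) (a (l 16641800) (l 16649344)))) (a (l 16598936) (l 16664688))) (b (a (b (l 521142655) (l 16657432)) (b (l 520804479) (l 16707776))) (a (b (a (l 16645576) (l 16735368)) (l 16718648)) (b (l 16741816) (l 16731888))))) (a (b (b (a (l 520750975) (l 520178047)) (a (l 522135167) (l 521519999))) (a (l 523015551) (b (l 522143615) (l 16661568)))) (b (b (a (l 519356031) (l 3)) (a (a (l 521465471) (b (l 519917951) (l 520556927))) (l 520377727))) (a (b (a (l 521306239) (l 520534143)) (l 520750463)) (l 520607359))))))),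 by decide +kernel⟩

def k5_B05pp_022_s1 : ∃ t, chk3 f_B05pp_022_s1 t 5 8 1 = true :=
  ⟨(a (b (l 3) (b (l 3) (b (l 3) (a (a (l 520737663) (l 3)) (l 3))))) (l 3)), by decide +kernel⟩

def k6_B05pp_022_s1 : ∃ t, chk3 f_B05pp_022_s1 t 4 9 1 = true :=
  ⟨(a (a (b (b (a (a (l 16341712) (l 16271008)) (b (a (l 16403768) (l 16447920)) (a (l 16365856) (l 16412264)))) (a (a (l 16276992) (l 16295696)) (b (a (l 16334976) (l 16380064)) (l 16331608)))) (b (a (l 16240768) (b (l 16308568) (l 16289192))) (a (l 16209568) (l 16264440)))) (b (b (a (b (a (l 16494312) (l 16540848)) (l 16485504)) (b (a (l 16583280) (l 16619952)) (l 16569328))) (a (b (l 16453120) (l 16420736)) (b (l 16535640) (l 16501128)))) (b (a (b (l 16387872) (l 16357208)) (l 16444928)) (a (l 16234752) (l 16371776))))) (b (a (b (a (b (a (l 16648952) (l 16671376)) (l 16542048)) (b (a (l 16691136) (b (l 16718512) (l 16699200))) (a (l 16653464) (l 16668760)))) (a (b (l 16589456)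 (l 16550312)) (b (l 16620736) (l 16579360)))) (b (a (b (a (b (l 16644776) (l 16630312)) (b (l 16734560) (l 16722472))) (a (l 16683256) (l 16655680))) (a (b (l 16651400) (b (l 16717544) (l 16703240))) (b (l 16723256) (l 16636952)))) (a (b (l 16647872) (l 16605768)) (b (a (l 16672864) (l 16607816)) (l 16640552))))) (a (b (a (l 16406832) (l 16515800)) (a (l 16408208) (l 16433592))) (b (a (l 16543040) (l 16494232)) (a (l 16460928) (l 16496248)))))), by decide +kernel⟩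

def k7_B05pp_022_s1 : ∃ t, chk3 f_B05pp_022_s1 t 5 9 1 = true :=
  ⟨(b (a (a (b (a (b (l 520847743) (l 520957311)) (l 521077887)) (b (a (b (l 16718144) (l 16620976)) (l 16689176)) (a (b (l 16605440) (l 16669240)) (b (l 16713816) (l 16616712))))) (b (a (l 521267839) (l 521457535)) (a (b (l 521447807) (l 16642288)) (l 521675647)))) (b (l 3) (a (b (l 521903743) (l 522015359)) (l 522325887)))) (a (b (a (b (a (l 16638312) (b (l 16601000) (l 16664784))) (l 16532496)) (b (a (b (l 16708784) (l 16611552)) (l 16636880)) (a (l 16585368) (b (l 16703080) (l 16605296))))) (a (b (l 16575856) (l 16535584)) (b (a (l 16628728) (l 16661584)) (l 16521920)))) (b (a (b (l 522126207) (l 522236287)) (b (l 522511743) (l 522623615))) (a (b (a (b (l 16696544) (l 16681272)) (l 16623728)) (a (l 16652104) (l 16637768))) (b (l 522734719) (a (b (l 16706872) (l 16694128)) (l 16715984))))))), by decide +kernel⟩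

def k8_B05pp_022_s1 : ∃ t, chk3 f_B05pp_022_s1 t 2 5 1 = true :=
  ⟨(a (a (b (b (b (a (a (l 16181248) (l 16230760)) (a (l 16279304) (l 16313408))) (a (b (l 16185928) (b (l 16180384) (a (l 16159352) (l 16205088)))) (b (l 16273768) (b (l 16267664) (l 16270608))))) (a (b (l 15984904) (l 16083600)) (l 16208344))) (a (b (l 15985144) (l 15856096)) (b (l 16080000) (l 15955032)))) (b (b (b (a (a (l 16251840) (l 16354368)) (a (l 16380128) (l 16415368))) (a (b (a (l 16300136) (l 16305688)) (b (l 16300056) (l 16304328))) (b (l 16256304) (b (l 16317936) (b (l 16315608) (l 16318792)))))) (a (l 16244784) (l 16259112))) (b (a (l 16120672) (l 16151584)) (a (l 16013344) (l 16066440))))) (b (b (b (a (a (b (l 16495520) (l 16455528)) (b (l 16566248) (l 16526592))) (a (b (l 16544136) (l 16589120)) (b (a (l 16668768) (b (l 16698392) (l 16683352))) (l 16559288)))) (a (a (b (l 16415176) (b (l 16384696) (b (l 16370728) (l 16282432)))) (b (l 16486232)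 (b (l 16455304) (b (l 16438032) (l 16428056))))) (a (b (l 16549288) (b (l 16518448) (b (l 16500856) (l 16489688)))) (b (l 16604424) (b (l 16574200) (b (l 16556704) (l 16545448))))))) (a (a (l 16314728) (l 16381056)) (a (l 16445376) (l 16502688)))) (a (b (l 16098544) (l 16193032)) (b (a (l 16369376) (l 16428960)) (l 16248296))))), by decide +kernel⟩

def k9_B05pp_022_s1 : ∃ t, chk3 f_B05pp_022_s1 t 2 3 1 = true :=
  ⟨(b (b (a (a (a (l 15675728) (l 15810056)) (a (l 15898656) (l 15965560))) (a (b (l 16126680) (l 16066200)) (b (l 16267360) (l 16121752)))) (a (a (l 6) (a (l 15782736) (l 15853096))) (b (a (l 16010472) (l 16055376)) (l 6)))) (l 6)), by decide +kernel⟩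

def k10_B05pp_022_s1 : ∃ t, chk3 f_B05pp_022_s1 t 3 1 1 = true :=
  ⟨(b (b (b (l 3) (a (b (l 3) (a (b (a (l 522932863) (l 3)) (a (b (l 523123071) (l 523235455)) (l 523301135))) (b (l 3) (a (b (l 3) (l 524015487)) (l 3))))) (l 3))) (b (a (b (b (a (b (a (a (l 16623176) (l 16721080)) (l 523739263)) (a (b (a (l 16687296) (l 16704192)) (l 16596080)) (a (b (l 16717448) (l 16705896)) (l 16723888)))) (b (a (l 524132735) (l 524525695)) (a (l 524245631) (b (l 524624767) (l 524685951))))) (b (a (a (l 16567792) (b (a (l 16691296) (l 16706768)) (l 16682520))) (a (b (a (l 16719064) (l 16729576)) (a (l 16706592) (l 16718704))) (b (l 524746111) (l 59693205639)))) (a (a (b (l 16622616) (b (l 16605664) (l 16594632))) (b (l 16663728) (b (l 16647784) (l 16637296)))) (a (b (a (l 16689584) (l 16704784)) (b (l 16683064) (a (l 16664904) (l 16681376)))) (a (b (b (l 16720792) (l 16713944)) (b (l 16704880) (l 16696216))) (l 2)))))) (a (a (b (l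 16571312) (l 16534016)) (b (l 16614512) (l 16577640))) (a (b (l 16651048) (l 16614008)) (b (l 16617968) (l 2))))) (b (b (b (b (l 3) (l 2)) (l 2)) (l 2)) (l 2))) (a (b (a (a (l 16480528) (l 16524016)) (a (l 16559296) (l 2))) (a (a (l 16411472) (l 16454024)) (l 2))) (l 2)))) (a (b (b (a (b (l 67208344775) (l 2)) (l 2)) (l 2)) (l 2)) (l 2))), by decide +kernel⟩

theorem t11_B05pp_022_s1 : ∃ t, chk3 f_B05pp_022_s1 t 2 9 1 = true := ex3_a k6_B05pp_022_s1 k7_B05pp_022_s1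

theorem t12_B05pp_022_s1 : ∃ t, chk3 f_B05pp_022_s1 t 16 16 1 = true := ex3_b k0_B05pp_022_s1 k1_B05pp_022_s1

theorem t13_B05pp_022_s1 : ∃ t, chk3 f_B05pp_022_s1 t 8 16 1 = true := ex3_a t12_B05pp_022_s1 k2_B05pp_022_s1

theorem t14_B05pp_022_s1 : ∃ t, chk3 f_B05pp_022_s1 t 8 8 1 = true := ex3_b t13_B05pp_022_s1 k3_B05pp_022_s1

theorem t15_B05pp_022_s1 : ∃ t, chk3 f_B05pp_022_s1 t 4 8 1 = true := ex3_a t14_B05pp_022_s1 k4_B05pp_022_s1

theorem t16_B05pp_022_s1 : ∃ t, chk3 f_B05pp_022_s1 t 2 8 1 = true := ex3_a t15_B05pp_022_s1 k5_B05pp_022_s1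

theorem t17_B05pp_022_s1 : ∃ t, chk3 f_B05pp_022_s1 t 2 4 1 = true := ex3_b t16_B05pp_022_s1 t11_B05pp_022_s1

theorem t18_B05pp_022_s1 : ∃ t, chk3 f_B05pp_022_s1 t 2 2 1 = true := ex3_b t17_B05pp_022_s1 k8_B05pp_022_s1

theorem t19_B05pp_022_s1 : ∃ t, chk3 f_B05pp_022_s1 t 2 1 1 = true := ex3_b t18_B05pp_022_s1 k9_B05pp_022_s1

theorem t20_B05pp_022_s1 : ∃ t, chk3 f_B05pp_022_s1 t 1 1 1 = true := ex3_a t19_B05pp_022_s1 k10_B05pp_022_s1

theorem c_B05pp_022_s1 : CertF 0 536870912 1073741824 536870912 1040187392 5207648 false true true .pp 0 2 2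
    ndB0q0 ndB5q2 pcB2 cut_B05pp_022_s1 xt_B05pp_022_s1 :=
  certF1 (fam := false) (s1 := true) (s2 := true) (a := 0) (b := 2) (c := 2) (cn := .pp) (n1 := ndB0q0) (n2 := ndB5q2) (pc := pcB2) (cut := cut_B05pp_022_s1) (xt := xt_B05pp_022_s1) (P1 := 0) (W1 := 536870912) (P2 := 1073741824) (W2 := 536870912) (P3 := 1040187392) (W3 := 5207648)
    rfl (fun _ => rfl) t20_B05pp_022_s1

theorem s_B05pp_022_s1 {κ x : ℝ} (hκ : κ * h0 = ken x) (hx : ((1040187392 : ℕ) : ℝ) / S ≤ x)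
    (hx' : x ≤ (((1040187392 : ℕ) : ℝ) + (5207648 : ℕ)) / S)
    (H : CutB (VFD κ) PP tK tL pcB (Cut.of [[⟨0, 0, 0, 22369621⟩, ⟨1, 1, 0, 22369621⟩, ⟨2, 1, 0, 22369621⟩]]) 0 2 2 0 5 (sgb true) (sgb true) x) :
    AltB (VFD κ) PP tK tL pcB [⟨3, 0, 0, 1449551462⟩] 0 2 2 0 5 (sgb true) (sgb true) x :=
  strip_altBD (m := 1449551462) true rfl hκ (SH.κ0 hκ (SH.hx1 hx).le (SH.hx2 hx').le) (SH.hx1 hx).le (SH.hx2 hx') (covB00).cov (covB52).cov hx hx' c_B05pp_022_s1 H ((okx hx hx').extB (T := tt) (sideB hx hx') hκ rfl rfl (.O 0 true) (.N 2 true) rfl)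

noncomputable def cut_B05pp_023_s1 : Cut := Cut.of [[⟨4, 0, 0, 1449551462⟩]]

noncomputable def xt_B05pp_023_s1 : Ext := strExt dd false true true .u0 .s2 .u2 .up 0 2 3 rfl rfl gf2 vv ndB0q0 ndB5q3

noncomputable def f_B05pp_023_s1 : ℕ → ℕ → ℕ → ℕ → Bool := onCell 1073741824 536870912 0 1230186008 1040187392 5207648
    (rowF 2 false true true .up 0 2 3 (qsf 0 536870912 0 1230186008 2) ndB0q0 ndB5q3 pcB2 cut_B05pp_023_s1 xt_B05pp_023_s1)

def k0_B05pp_023_s1 : ∃ t, chk3 f_B05pp_023_s1 t 1 2 1 = true :=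
  ⟨(a (l 2) (a (l 2) (l 6))), by decide +kernel⟩

def k1_B05pp_023_s1 : ∃ t, chk3 f_B05pp_023_s1 t 4 3 1 = true :=
  ⟨(b (l 2) (b (l 2) (l 3))), by decide +kernel⟩

def k2_B05pp_023_s1 : ∃ t, chk3 f_B05pp_023_s1 t 5 3 1 = true :=
  ⟨(b (a (l 2) (b (l 2) (b (l 2) (l 393626422183)))) (a (b (b (a (l 2) (l 527614303)) (a (a (l 3) (a (l 3) (a (l 526789695) (b (l 2) (a (l 526632511) (b (l 16745504) (l 16762984))))))) (l 526905439))) (a (a (b (l 3) (b (a (l 3) (a (l 3) (l 525376127))) (a (b (l 3) (l 524794239)) (a (l 524922239) (l 524935295))))) (a (b (b (a (l 3) (b (l 526336895) (l 525871999))) (a (l 525811839) (l 525833855))) (b (a (l 525391743) (a (l 525403775) (l 525411199))) (a (l 524947071) (b (l 16661280) (l 16735384))))) (a (b (b (a (a (l 526234239) (l 526237823)) (l 526244991)) (a (b (l 525945983) (l 16717744)) (l 525847167))) (b (a (b (l 16752696) (l 16744792)) (l 525426559)) (b (a (l 16735904) (l 16729536)) (a (l 16725800)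 (l 16718360))))) (b (b (b (a (l 16743520) (l 16758840)) (l 16714912)) (b (a (l 16754208) (a (a (a (l 16750936) (b (l 16751704) (a (l 16748896) (l 16748640)))) (l 16749232)) (l 16747040))) (a (l 16747888) (a (a (a (l 16744624) (a (l 16744184) (l 16743992))) (l 16743144)) (l 16740920))))) (b (b (a (a (l 16742216) (l 16697280)) (a (a (a (l 16737312) (l 16736384)) (l 16735096)) (l 16732840))) (a (a (l 16734072) (l 16730600)) (l 16724808))) (b (a (a (l 16724208) (l 16719504)) (l 16712680)) (a (l 16708280) (l 16698096)))))))) (b (b (a (b (l 16649456) (l 16644224)) (l 16684824)) (a (b (l 16638296) (l 16715560)) (l 16587560))) (b (b (l 16598760) (l 16587464)) (b (l 16573648) (l 16641056)))))) (a (b (b (l 527789151) (b (l 16637640) (l 16627896))) (b (b (l 16615248) (l 16599296)) (b (l 16577336) (l 16544024)))) (b (b (l 16563392) (l 16542984)) (b (l 16426976) (b (l 16475344) (l 16435408))))))), by decide +kernel⟩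

def k3_B05pp_023_s1 : ∃ t, chk3 f_B05pp_023_s1 t 3 3 1 = true :=
  ⟨(a (b (b (a (l 2) (b (l 16148328) (l 16218160))) (a (b (l 16363776) (l 16371192)) (b (l 16273472) (l 16287392)))) (b (b (a (l 16435368) (l 16257424)) (a (l 16320696) (l 16210744))) (b (a (a (l 16412064) (l 16310088)) (l 16149384)) (a (b (l 16315824) (l 16265152)) (b (l 16090480) (l 16023832)))))) (l 6)), by decide +kernel⟩

theorem t4_B05pp_023_s1 : ∃ t, chk3 f_B05pp_023_s1 t 2 3 1 = true := ex3_a k1_B05pp_023_s1 k2_B05pp_023_s1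

theorem t5_B05pp_023_s1 : ∃ t, chk3 f_B05pp_023_s1 t 1 3 1 = true := ex3_a t4_B05pp_023_s1 k3_B05pp_023_s1

theorem t6_B05pp_023_s1 : ∃ t, chk3 f_B05pp_023_s1 t 1 1 1 = true := ex3_b k0_B05pp_023_s1 t5_B05pp_023_s1

theorem c_B05pp_023_s1 : CertF 0 536870912 0 1230186008 1040187392 5207648 false true true .up 0 2 3
    ndB0q0 ndB5q3 pcB2 cut_B05pp_023_s1 xt_B05pp_023_s1 :=
  certF2 (fam := false) (s1 := true) (s2 := true) (a := 0) (b := 2) (c := 3) (cn := .up) (n1 := ndB0q0) (n2 := ndB5q3) (pc := pcB2) (cut := cut_B05pp_023_s1) (xt := xt_B05pp_023_s1) (P1 := 0) (W1 := 536870912) (P2 := 0) (W2 := 1230186008) (P3 := 1040187392) (W3 := 5207648)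
    rfl (fun _ => rfl) t6_B05pp_023_s1

theorem s_B05pp_023_s1 {κ x : ℝ} (hκ : κ * h0 = ken x) (hx : ((1040187392 : ℕ) : ℝ) / S ≤ x)
    (hx' : x ≤ (((1040187392 : ℕ) : ℝ) + (5207648 : ℕ)) / S) :
    AltB (VFD κ) PP tK tL pcB [⟨3, 0, 0, 1449551462⟩] 0 2 3 0 5 (sgb true) (sgb true) x :=
  strip_altBD (m := 1449551462) true rfl hκ (SH.κ0 hκ (SH.hx1 hx).le (SH.hx2 hx').le) (SH.hx1 hx).le (SH.hx2 hx') (covB00).cov (covB53).cov hx hx' c_B05pp_023_s1 cutB_nil ((okx hx hx').extB (T := tt) (sideB hx hx') hκ rfl rfl (.O 0 true) (.N 3 true) rfl)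

noncomputable def cut_B05pp_033_s1 : Cut := Cut.of [[⟨4, 0, 0, 1449551462⟩]]

noncomputable def f_B05pp_033_s1 : ℕ → ℕ → ℕ → ℕ → Bool := onCell 1610612736 536870912 0 1230186008 1040187392 5207648
    (rowF 2 false true true .pnn 0 3 3 (qsf 0 536870912 0 1230186008 3) ndB0q0 ndB5q3 pcB3 cut_B05pp_033_s1 Ext.none)

def k0_B05pp_033_s1 : ∃ t, chk3 f_B05pp_033_s1 t 1 1 1 = true :=
  ⟨(b (l 6) (l 6)), by decide +kernel⟩

theorem c_B05pp_033_s1 : CertF 0 536870912 0 1230186008 1040187392 5207648 false true true .pnn 0 3 3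
    ndB0q0 ndB5q3 pcB3 cut_B05pp_033_s1 Ext.none :=
  certF2 (fam := false) (s1 := true) (s2 := true) (a := 0) (b := 3) (c := 3) (cn := .pnn) (n1 := ndB0q0) (n2 := ndB5q3) (pc := pcB3) (cut := cut_B05pp_033_s1) (xt := Ext.none) (P1 := 0) (W1 := 536870912) (P2 := 0) (W2 := 1230186008) (P3 := 1040187392) (W3 := 5207648)
    rfl (fun _ => rfl) k0_B05pp_033_s1

theorem s_B05pp_033_s1 {κ x : ℝ} (hκ : κ * h0 = ken x) (hx : ((1040187392 : ℕ) : ℝ) / S ≤ x)
    (hx' : x ≤ (((1040187392 : ℕ) : ℝ) + (5207648 : ℕ)) / S) :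
    AltB (VFD κ) PP tK tL pcB [⟨3, 0, 0, 1449551462⟩] 0 3 3 0 5 (sgb true) (sgb true) x :=
  strip_altBD (m := 1449551462) true rfl hκ (SH.κ0 hκ (SH.hx1 hx).le (SH.hx2 hx').le) (SH.hx1 hx).le (SH.hx2 hx') (covB00).cov (covB53).cov hx hx' c_B05pp_033_s1 cutB_nil (noExt_B)

noncomputable def cut_B05pp_101_s1 : Cut := Cut.of [[⟨4, 0, 0, 1449551462⟩]]

noncomputable def f_B05pp_101_s1 : ℕ → ℕ → ℕ → ℕ → Bool := onCell 536870912 536870912 536870912 536870912 1040187392 5207648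
    (rowF 0 false true true .npn 1 0 1 (qsf 536870912 536870912 536870912 536870912 0) ndB0q1 ndB5q1 pcB0 cut_B05pp_101_s1 Ext.none)

def k0_B05pp_101_s1 : ∃ t, chk3 f_B05pp_101_s1 t 1 1 1 = true :=
  ⟨(a (l 3) (l 5)), by decide +kernel⟩

theorem c_B05pp_101_s1 : CertF 536870912 536870912 536870912 536870912 1040187392 5207648 false true true .npn 1 0 1
    ndB0q1 ndB5q1 pcB0 cut_B05pp_101_s1 Ext.none :=
  certF0 (fam := false) (s1 := true) (s2 := true) (a := 1) (b := 0) (c := 1) (cn := .npn) (n1 := ndB0q1) (n2 := ndB5q1) (pc := pcB0) (cut := cut_B05pp_101_s1) (xt := Ext.none) (P1 := 536870912) (W1 := 536870912) (P2 := 536870912) (W2 := 536870912) (P3 := 1040187392) (W3 := 5207648)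
    rfl k0_B05pp_101_s1

theorem s_B05pp_101_s1 {κ x : ℝ} (hκ : κ * h0 = ken x) (hx : ((1040187392 : ℕ) : ℝ) / S ≤ x)
    (hx' : x ≤ (((1040187392 : ℕ) : ℝ) + (5207648 : ℕ)) / S) :
    AltB (VFD κ) PP tK tL pcB [⟨3, 0, 0, 1449551462⟩] 1 0 1 0 5 (sgb true) (sgb true) x :=
  strip_altBD (m := 1449551462) true rfl hκ (SH.κ0 hκ (SH.hx1 hx).le (SH.hx2 hx').le) (SH.hx1 hx).le (SH.hx2 hx') (covB01).cov (covB51).cov hx hx' c_B05pp_101_s1 cutB_nil (noExt_B)

noncomputable def cut_B05pp_102_s1 : Cut := Cut.of [[⟨4, 0, 0, 1449551462⟩]]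

noncomputable def f_B05pp_102_s1 : ℕ → ℕ → ℕ → ℕ → Bool := onCell 536870912 536870912 1073741824 536870912 1040187392 5207648
    (rowF 0 false true true .npp 1 0 2 (qsf 536870912 536870912 1073741824 536870912 0) ndB0q1 ndB5q2 pcB0 cut_B05pp_102_s1 Ext.none)

def k0_B05pp_102_s1 : ∃ t, chk3 f_B05pp_102_s1 t 1 1 1 = true :=
  ⟨(a (l 3) (b (l 5) (l 3))), by decide +kernel⟩

theorem c_B05pp_102_s1 : CertF 536870912 536870912 1073741824 536870912 1040187392 5207648 false true true .npp 1 0 2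
    ndB0q1 ndB5q2 pcB0 cut_B05pp_102_s1 Ext.none :=
  certF0 (fam := false) (s1 := true) (s2 := true) (a := 1) (b := 0) (c := 2) (cn := .npp) (n1 := ndB0q1) (n2 := ndB5q2) (pc := pcB0) (cut := cut_B05pp_102_s1) (xt := Ext.none) (P1 := 536870912) (W1 := 536870912) (P2 := 1073741824) (W2 := 536870912) (P3 := 1040187392) (W3 := 5207648)
    rfl k0_B05pp_102_s1

theorem s_B05pp_102_s1 {κ x : ℝ} (hκ : κ * h0 = ken x) (hx : ((1040187392 : ℕ) : ℝ) / S ≤ x)
    (hx' : x ≤ (((1040187392 : ℕ) : ℝ) + (5207648 : ℕ)) / S) :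
    AltB (VFD κ) PP tK tL pcB [⟨3, 0, 0, 1449551462⟩] 1 0 2 0 5 (sgb true) (sgb true) x :=
  strip_altBD (m := 1449551462) true rfl hκ (SH.κ0 hκ (SH.hx1 hx).le (SH.hx2 hx').le) (SH.hx1 hx).le (SH.hx2 hx') (covB01).cov (covB52).cov hx hx' c_B05pp_102_s1 cutB_nil (noExt_B)

noncomputable def cut_B05pp_112_s1 : Cut := Cut.of [[⟨4, 0, 0, 1449551462⟩]]

noncomputable def f_B05pp_112_s1 : ℕ → ℕ → ℕ → ℕ → Bool := onCell 536870912 536870912 1073741824 536870912 1040187392 5207648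
    (rowF 0 false true true .dn 1 1 2 (qsf 536870912 536870912 1073741824 536870912 1) ndB0q1 ndB5q2 pcB1 cut_B05pp_112_s1 Ext.none)

def k0_B05pp_112_s1 : ∃ t, chk3 f_B05pp_112_s1 t 1 1 1 = true :=
  ⟨(a (l 3) (b (l 5) (l 3))), by decide +kernel⟩

theorem c_B05pp_112_s1 : CertF 536870912 536870912 1073741824 536870912 1040187392 5207648 false true true .dn 1 1 2
    ndB0q1 ndB5q2 pcB1 cut_B05pp_112_s1 Ext.none :=
  certF0 (fam := false) (s1 := true) (s2 := true) (a := 1) (b := 1) (c := 2) (cn := .dn) (n1 := ndB0q1) (n2 := ndB5q2) (pc := pcB1) (cut := cut_B05pp_112_s1) (xt := Ext.none) (P1 := 536870912) (W1 := 536870912) (P2 := 1073741824) (W2 := 536870912) (P3 := 1040187392) (W3 := 5207648)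
    rfl k0_B05pp_112_s1

theorem s_B05pp_112_s1 {κ x : ℝ} (hκ : κ * h0 = ken x) (hx : ((1040187392 : ℕ) : ℝ) / S ≤ x)
    (hx' : x ≤ (((1040187392 : ℕ) : ℝ) + (5207648 : ℕ)) / S) :
    AltB (VFD κ) PP tK tL pcB [⟨3, 0, 0, 1449551462⟩] 1 1 2 0 5 (sgb true) (sgb true) x :=
  strip_altBD (m := 1449551462) true rfl hκ (SH.κ0 hκ (SH.hx1 hx).le (SH.hx2 hx').le) (SH.hx1 hx).le (SH.hx2 hx') (covB01).cov (covB52).cov hx hx' c_B05pp_112_s1 cutB_nil (noExt_B)

noncomputable def cut_B05pp_113_s1 : Cut := Cut.of [[⟨4, 0, 0, 1449551462⟩], [⟨0, 1, 0, 15728640⟩, ⟨1, 1, 0, 15728640⟩, ⟨2, 2, 0, 524288⟩]]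

noncomputable def f_B05pp_113_s1 : ℕ → ℕ → ℕ → ℕ → Bool := onCell 536870912 536870912 0 1230186008 1040187392 5207648
    (rowF 2 false true true .nn 1 1 3 (qsf 536870912 536870912 0 1230186008 1) ndB0q1 ndB5q3 pcB1 cut_B05pp_113_s1 Ext.none)

def k0_B05pp_113_s1 : ∃ t, chk3 f_B05pp_113_s1 t 1 1 1 = true :=
  ⟨(b (a (l 2) (a (l 2) (b (a (l 2) (b (a (l 2) (b (a (l 2) (b (a (l 2) (l 14)) (l 3))) (l 3))) (l 3))) (l 3)))) (a (a (b (l 2) (b (l 2) (l 3))) (b (b (l 2) (a (l 2) (l 3))) (l 3))) (b (a (l 3) (l 3)) (l 3)))), by decide +kernel⟩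

theorem c_B05pp_113_s1 : CertF 536870912 536870912 0 1230186008 1040187392 5207648 false true true .nn 1 1 3
    ndB0q1 ndB5q3 pcB1 cut_B05pp_113_s1 Ext.none :=
  certF2 (fam := false) (s1 := true) (s2 := true) (a := 1) (b := 1) (c := 3) (cn := .nn) (n1 := ndB0q1) (n2 := ndB5q3) (pc := pcB1) (cut := cut_B05pp_113_s1) (xt := Ext.none) (P1 := 536870912) (W1 := 536870912) (P2 := 0) (W2 := 1230186008) (P3 := 1040187392) (W3 := 5207648)
    rfl (fun _ => rfl) k0_B05pp_113_s1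

theorem s_B05pp_113_s1 {κ x : ℝ} (hκ : κ * h0 = ken x) (hx : ((1040187392 : ℕ) : ℝ) / S ≤ x)
    (hx' : x ≤ (((1040187392 : ℕ) : ℝ) + (5207648 : ℕ)) / S)
    (H : CutB (VFD κ) PP tK tL pcB (Cut.of [[⟨0, 1, 0, 15728640⟩, ⟨1, 1, 0, 15728640⟩, ⟨2, 2, 0, 524288⟩]]) 1 1 3 0 5 (sgb true) (sgb true) x) :
    AltB (VFD κ) PP tK tL pcB [⟨3, 0, 0, 1449551462⟩] 1 1 3 0 5 (sgb true) (sgb true) x :=
  strip_altBD (m := 1449551462) true rfl hκ (SH.κ0 hκ (SH.hx1 hx).le (SH.hx2 hx').le) (SH.hx1 hx).le (SH.hx2 hx') (covB01).cov (covB53).cov hx hx' c_B05pp_113_s1 H (noExt_B)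

end Pool.Agent.Strip051.G.I9688_9736.Tab.St.C
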