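import Pool.Agent.Strip051.G.I9688_9736.Tab
import Pool.Agent.Strip051.PB.StripB
import Pool.Agent.Strip051.PB.ExtD3

/-! # Strips, near vertex: certificates 2 (generated) -/

set_option linter.all false
set_option maxRecDepth 100000

namespace Pool.Agent.Strip051.G.I9688_9736.Tab.CS.BA00

open Pool.Agent.Strip051.PB Pool.Agent.Strip051.PB.T
open Pool.Agent.Strip051.G.I9688_9736.Tab

noncomputable def cut_mm_202_t : Cut := Cut.of [[⟨3, 0, 0, 2845415833⟩], [⟨0, 1, 0, 22369621⟩, ⟨1, 0, 0, 22369621⟩, ⟨2, 1, 0, 22369621⟩]]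

noncomputable def f_mm_202_t : ℕ → ℕ → ℕ → ℕ → Bool := onCell 0 536870912 0 536870912 1040187392 5207648
    (rowNE 3 eng mog cd0q2 cd0q0 pd2 0 true false false .pp 2 0 2 (qsf 0 536870912 0 536870912 2) ndB0q2 ndB0q0 pcB2 cut_mm_202_t Ext.none)

def k0_mm_202_t : ∃ t, chk3 f_mm_202_t t 2 2 1 = true :=
  ⟨(b (a (l 6) (a (l 6) (b (l 6) (a (l 6) (b (b (l 6) (a (l 6) (b (l 6) (l 15577496)))) (b (a (l 15452520) (l 15595544)) (a (l 15464080) (l 15601208)))))))) (a (b (l 6) (a (l 6) (b (l 6) (a (l 6) (b (l 6) (a (l 6) (l 14752192))))))) (b (a (b (l 6) (a (l 6) (b (a (l 6) (l 15102336)) (a (l 14987720) (l 15153392))))) (b (a (b (a (l 6) (l 15340648)) (a (l 15220032) (l 15372088))) (b (a (l 15485424) (l 15626752)) (a (l 15520856) (l 15666072)))) (a (b (a (l 15261352) (l 15417192)) (a (l 15315968) (l 15475248))) (b (a (l 15569616) (l 15718392)) (a (l 15631008) (l 15783032)))))) (a (b (a (b (a (l 6) (l 14876328)) (a (l 14768272) (l 14946416))) (b (a (l 15048368) (l 15217376))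 (a (l 15121568) (l 15293560)))) (a (b (a (l 14847656) (l 15028688)) (a (l 14938864) (l 15122408))) (b (a (l 15206592) (l 15381208)) (a (l 15302688) (l 15479576))))) (b (a (b (a (l 15383168) (l 15545544)) (a (l 15462216) (l 15627360))) (b (a (l 15704312) (l 15859264)) (a (l 15788808) (l 15946368)))) (a (b (a (l 15552384) (l 15719960)) (a (l 15652928) (l 15822608))) (b (a (l 15883768) (l 16043624)) (a (l 15988456) (l 16150304))))))))), by decide +kernel⟩

def k1_mm_202_t : ∃ t, chk3 f_mm_202_t t 6 8 1 = true :=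
  ⟨(b (a (a (l 6) (a (l 6) (b (l 16191192) (l 16122240)))) (a (b (a (l 16258168) (b (l 16445896) (l 16405696))) (a (l 16173536) (b (l 16366040) (l 16328536)))) (b (a (b (l 16520912) (l 16485184)) (b (l 16546480) (l 16537376))) (a (b (l 16449984) (l 16414792)) (b (l 16506288) (l 16496344)))))) (a (b (a (l 6) (a (l 15989416) (b (l 16106344) (l 16075216)))) (a (a (l 6) (b (l 15842360) (l 15824224))) (a (b (l 15948544) (l 15932240)) (b (l 16051472) (l 16036432))))) (a (b (a (b (l 16202536) (l 16173128)) (b (l 16295008) (l 16267344))) (a (b (l 16150928) (l 16137288)) (b (l 16246672) (l 16234400)))) (b (a (b (l 16383344) (l 16357496)) (b (l 16467032) (l 16443152))) (a (b (l 16338416) (l 16327528)) (b (l 16425784) (a (l 16394544) (l 16437824)))))))), by decide +kernel⟩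

def k2_mm_202_t : ∃ t, chk3 f_mm_202_t t 6 9 1 = true :=
  ⟨(a (b (b (a (b (a (l 6) (l 15815640)) (a (l 15698064) (l 15814656))) (a (b (l 15925576) (l 15927256)) (b (l 16031640) (l 16035336)))) (a (a (b (l 15698760) (l 15702904)) (b (l 15817928) (l 15824560))) (a (b (l 15933056) (l 15942136)) (b (l 16043784) (l 16055288))))) (a (b (a (b (l 15709800) (l 15718752)) (b (l 15833856) (l 15845112))) (a (b (l 15728984) (l 15740768)) (b (l 15857536) (l 15871400)))) (b (a (b (l 15953792) (l 15967312)) (b (l 16069264) (l 16085016))) (a (b (l 15981880) (l 15997800)) (b (l 16101704) (l 16119640)))))) (b (a (b (b (a (l 16133648) (l 16231968)) (a (l 16139136) (l 16238432))) (b (a (l 16149448) (l 16250608)) (a (l 16163648) (l 16266848)))) (b (a (b (l 16347272) (a (l 16310304) (l 16356944))) (b (a (l 16394264) (l 16438208)) (a (l 16402520) (l 16446992)))) (a (b (a (l 16323288) (l 16370072)) (a (l 16340536) (l 16388056))) (b (a (l 16416024) (l 16460888)) (a (l 16434376) (l 16479296))))))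 (a (b (a (b (l 16179928) (l 16197880)) (b (l 16285416) (l 16305560))) (a (b (l 16216672) (l 16236592)) (b (l 16326424) (l 16348320)))) (b (a (b (a (l 16360912) (l 16409424)) (a (l 16382696) (l 16432296))) (b (a (l 16456264) (l 16501848)) (a (l 16480384) (l 16526896)))) (a (b (a (l 16405112) (l 16455744)) (l 16391536)) (b (a (l 16504856) (l 16552408)) (a (l 16530192) (l 16578720)))))))), by decide +kernel⟩

def k3_mm_202_t : ∃ t, chk3 f_mm_202_t t 14 8 1 = true :=
  ⟨(b (a (b (a (b (l 16592760) (l 16580552)) (b (b (l 16607928) (l 16604936)) (l 16610832))) (a (b (l 16555280) (l 16507768)) (b (l 16594352) (a (l 16621288) (l 16630584))))) (b (a (b (a (l 16611032) (b (l 16604584) (l 16619896))) (a (l 16622480) (l 16621576))) (b (a (b (l 16611864) (l 16626168)) (b (a (l 16620504) (l 16627616)) (l 16621512))) (a (b (l 16640200) (l 16654072)) (b (l 16629272) (l 16642024))))) (a (b (a (l 16654760) (l 16651432)) (a (l 16658168) (l 16681424))) (b (a (b (l 16667808) (l 16681504))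 (a (l 16658648) (l 16663368))) (a (a (l 16680632) (l 16681752)) (b (l 16679576) (l 16691776))))))) (a (b (a (b (l 16482704) (l 16460840)) (b (a (l 16599624) (l 16633088)) (a (l 16580760) (l 16616328)))) (a (b (a (l 16488120) (l 16528064)) (a (l 16479912) (l 16520728))) (b (a (l 16566608) (l 16603648)) (a (l 16560216) (l 16598280))))) (b (a (a (b (l 16642640) (l 16628752)) (b (l 16668792) (l 16658320))) (b (a (b (l 16712704) (l 16687448)) (b (l 16703344) (l 16704096))) (a (a (l 16697632) (l 16708280)) (b (l 16701928) (l 16700480))))) (a (b (a (b (l 16641424) (l 16637296)) (a (l 16663688) (l 16678448))) (a (b (l 16635144) (l 16635056)) (b (l 16668240) (l 16668728)))) (a (b (b (l 16699336) (l 16676664)) (b (l 16676192) (l 16682464))) (b (b (a (l 16715848) (l 16725464)) (a (l 16715584) (l 16726072))) (b (a (l 16716128) (l 16727600)) (a (l 16718016) (l 16730096))))))))), by decide +kernel⟩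

def k4_mm_202_t : ∃ t, chk3 f_mm_202_t t 30 16 1 = true :=
  ⟨(b (a (b (a (b (a (l 16635696) (l 16644552)) (a (l 16648264) (l 16656728))) (b (a (b (l 16651056) (l 16657152)) (b (l 16660776) (l 16666792))) (a (l 16666000) (l 16675424)))) (a (b (a (l 16660496) (l 16668480)) (a (l 16672464) (l 16679928))) (b (a (l 16677288) (l 16686384)) (a (l 16688224) (l 16696816))))) (b (a (b (a (b (l 16669808) (l 16675736)) (b (l 16678240) (l 16684080))) (a (l 16684240) (l 16681976))) (b (a (b (l 16686248) (l 16692016)) (b (l 16694032) (l 16699720))) (a (b (l 16697576) (l 16702936)) (b (l 16705216) (l 16710504))))) (a (b (a (l 16694888) (l 16692424)) (a (l 16704928) (l 16691696))) (b (a (b (l 16708096) (l 16713048)) (b (l 16715592) (l 16720488))) (a (b (l 16717800) (l 16722376)) (b (l 16725176) (l 16729648))))))) (a (b (a (a (b (l 16684240) (l 16695848)) (b (l 16691152) (l 16702208))) (a (b (l 16698920) (l 16709424)) (b (l 16707000) (l 16716952)))) (a (b (a (l 16707376) (l 16713136))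 (a (l 16718592) (l 16723712))) (b (a (l 16719776) (l 16705784)) (a (l 16708760) (l 16715136))))) (b (a (b (a (l 16714624) (l 16700928)) (a (l 16724064) (l 16709872))) (b (a (l 16718496) (b (l 16733952) (l 16738096))) (a (l 16726992) (b (l 16742136) (l 16746096))))) (a (b (a (l 16712344) (l 16718616)) (a (l 16721152) (l 16726880))) (a (b (a (l 16744184) (l 16726288)) (b (l 16730632) (l 16734296))) (b (b (l 16729016) (l 16732816)) (b (l 16736440) (l 16750328)))))))), by decide +kernel⟩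

def k5_mm_202_t : ∃ t, chk3 f_mm_202_t t 62 32 1 = true :=
  ⟨(b (a (b (a (b (a (l 16699824) (l 14)) (l 16707400)) (b (l 14) (a (l 16713256) (l 14)))) (a (b (l 16712832) (l 16718056)) (b (a (l 16718640) (l 16722600)) (l 16720544)))) (b (l 14) (a (b (a (l 16726648) (l 14)) (a (l 16731776) (l 16735904))) (l 14)))) (a (b (a (b (l 16723088) (l 16727912)) (b (l 16725512) (l 16730288))) (a (b (l 16732536) (l 16736968)) (b (l 16734856) (l 16736600)))) (b (a (b (a (l 16736704) (l 16740808)) (a (l 16741440) (l 16745520))) (b (a (l 16745072) (b (l 14) (l 16750760))) (a (l 16749752) (b (l 16753088) (l 16755368))))) (a (b (a (l 16745968) (l 16750024)) (a (l 16750296) (l 16754328))) (b (a (l 16743744) (b (l 16757592) (l 16759776))) (a (l 16753272) (b (l 16761904) (l 16753496)))))))), by decide +kernel⟩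

def k6_mm_202_t : ∃ t, chk3 f_mm_202_t t 63 64 1 = true :=
  ⟨(l 14), by decide +kernel⟩

def k7_mm_202_t : ∃ t, chk3 f_mm_202_t t 126 130 1 = true :=
  ⟨(a (b (l 14) (a (b (l 16757864) (l 16754888)) (l 14))) (l 14)), by decide +kernel⟩

def k8_mm_202_t : ∃ t, chk3 f_mm_202_t t 126 131 1 = true :=
  ⟨(a (a (b (b (l 16757104) (l 16761896)) (b (a (l 16765424) (l 16767864)) (a (l 16767496) (l 16764688)))) (b (b (a (l 16766104) (l 16763464)) (a (l 16768264) (l 16768240))) (a (b (l 16765136) (c (l 16769824) (l 16769808))) (b (a (l 16767064) (l 16771000)) (a (l 16771744) (b (l 16769920) (a (l 16770608) (b (l 16776256) (l 16775440))))))))) (a (b (a (b (l 14) (b (l 16770368) (l 16772088))) (l 14)) (a (b (a (b (l 16769184) (l 16772848)) (b (l 16773160) (a (b (l 16776216) (l 16775416)) (a (b (l 16771480) (a (b (l 16771784) (a (l 16777200) (l 170422960343))) (b (a (l 16777144) (l 16777200)) (l 4)))) (a (b (l 16776976) (l 278870884503)) (b (b (l 16771776) (a (l 16777200) (l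 166664863959))) (l 4))))))) (a (b (b (l 16773616) (a (l 16771168) (a (l 16776904) (a (b (l 16771792) (l 116198996967)) (b (l 16777168) (l 4)))))) (a (b (a (l 16771512) (a (l 16776992) (b (l 16771800) (l 119420222439)))) (a (a (b (l 16777048) (l 122641446599)) (b (l 16777176) (l 4))) (l 292829528263))) (b (a (a (b (l 16777176) (l 4)) (l 286923948183)) (l 4)) (l 4)))) (b (a (a (b (a (l 16776984) (b (l 16771792) (l 118883351511))) (l 288534560967)) (b (a (b (l 16777248) (l 4)) (l 281555239063)) (l 4))) (l 4)) (l 4)))) (b (a (b (b (a (l 16771296) (l 14)) (a (a (l 16775576) (a (b (l 16777016) (a (l 16777192) (l 162369896663))) (b (a (l 16777136) (l 16777192)) (l 4)))) (a (a (l 278870884487) (l 4)) (l 4)))) (b (b (a (a (a (a (l 16777136) (l 16777192)) (l 173644185879)) (l 4)) (l 4)) (l 4)) (l 4))) (l 4)) (l 4)))) (b (l 14) (l 4)))), by decide +kernel⟩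

def k9_mm_202_t : ∃ t, chk3 f_mm_202_t t 127 65 1 = true :=
  ⟨(l 14), by decide +kernel⟩

def k10_mm_202_t : ∃ t, chk3 f_mm_202_t t 62 66 1 = true :=
  ⟨(a (b (a (b (l 16741168) (l 16734736)) (b (a (l 16746744) (l 16750544)) (a (l 16750728) (l 16754504)))) (a (b (l 16738616) (l 16742360)) (b (a (l 16754512) (l 16758248)) (a (l 16758144) (l 16761832))))) (a (b (b (a (l 16754432) (l 16747952)) (a (l 16758360) (l 16757104))) (b (a (l 16751608) (a (l 16765048) (l 16756576))) (a (a (l 16764664) (l 16756104)) (a (l 16763320) (l 16767944))))) (b (a (b (a (l 16761536) (l 16763672)) (b (l 16755040) (l 16762176))) (b (b (l 16760768) (l 16764056)) (a (a (l 16763944) (l 16765056)) (b (l 16765824) (l 16767704))))) (a (b (a (l 16763872) (b (l 16770328) (l 16766872))) (a (b (l 16771752) (l 16768208)) (b (l 16768608) (a (l 16769768) (b (l 16770416) (a (l 16776224) (c (l 16776752) (l 16776752)))))))) (b (a (b (l 16767272) (l 16771672)) (b (a (l 16768952) (l 16772728)) (b (a (l 16770296)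 (a (l 16771152) (a (l 16776816) (b (l 16771656) (b (l 16777176) (l 243974275367)))))) (a (a (l 16776128) (b (l 16776480) (l 16776904))) (a (b (a (l 16771664) (b (l 16777080) (l 124252062023))) (l 315378104775)) (l 349737841399)))))) (a (b (a (l 16770232) (b (l 16770912) (b (b (l 16771440) (a (l 16776624) (a (l 16771792) (l 152706220311)))) (a (l 16776928) (l 315914974871))))) (a (b (a (l 16771232) (a (l 16776872) (b (l 16771704) (a (l 124788932935) (l 227868148023))))) (a (b (b (l 16776984) (a (l 16777064) (l 143579414887))) (l 316988715895)) (l 346516612647))) (b (a (b (c (l 289071430679) (l 287997688103)) (l 4)) (l 4)) (l 4)))) (b (a (b (a (a (l 16776840) (b (l 16771680) (a (l 92039804759) (l 218741342503)))) (a (a (b (l 16777112) (l 4)) (l 315378104455)) (l 345979745031))) (l 350811579335)) (l 4)) (l 4)))))))), by decide +kernel⟩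

def k11_mm_202_t : ∃ t, chk3 f_mm_202_t t 124 67 1 = true :=
  ⟨(a (b (b (l 16751280) (l 16754200)) (a (b (l 16761912) (l 16744160)) (b (l 16744072) (l 16757648)))) (b (b (a (l 16761672) (l 16754784)) (a (l 16754600) (l 16763336))) (a (b (l 16757808) (b (l 16760064) (l 16761488))) (b (b (l 16760440) (l 16767176)) (a (b (l 16762520) (l 16763904)) (b (l 16764208) (a (l 16765144) (b (l 16765648) (l 82376128039))))))))), by decide +kernel⟩

def k12_mm_202_t : ∃ t, chk3 f_mm_202_t t 250 67 1 = true :=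
  ⟨(b (b (a (b (l 16757672) (l 16759320)) (b (l 16769440) (a (l 16762200) (l 16769424)))) (a (b (l 16766184) (l 16770368)) (a (b (l 16769032) (a (l 16764832) (b (l 16765416) (b (l 16765976) (l 81302386455))))) (b (a (l 16770488) (b (l 16771096) (a (l 82912999415) (a (b (l 16777032) (l 188139700647)) (l 302493200167))))) (a (b (a (l 16766144) (a (l 16776968) (b (l 16777040) (l 183844733399)))) (a (a (b (l 16777048) (l 218741342551)) (l 304103812279)) (l 4))) (b (l 319136202279) (l 4))))))) (a (b (b (b (l 16768872) (l 16772232)) (a (l 16769792) (a (b (l 16765536) (l 77007418775)) (b (a (l 16776704) (a (l 105461578407) (b (l 16777080) (l 213909504455)))) (a (b (l 143042533191) (l 324504904391)) (l 4)))))) (a (b (b (l 16770832) (a (l 16776320) (a (l 97408514423) (l 284239591719)))) (a (b (a (l 16776768) (a (l 112977771415) (b (l 16777120) (l 362622746567)))) (a (l 285850203895) (l 4))) (b (l 317525585895) (l 4)))) (b (a (b (b (a (l 16777000) (l 304103811991)) (l 300882589175))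 (l 4)) (l 4)) (l 4)))) (b (a (b (a (b (l 16776432) (a (l 89892321463) (a (b (l 16777072) (l 343295393559)) (l 305177553463)))) (b (b (a (l 16776944) (l 299808845863)) (l 299808848695)) (l 4))) (a (b (l 318062458503) (l 4)) (l 4))) (l 4)) (l 4)))), by decide +kernel⟩

def k13_mm_202_t : ∃ t, chk3 f_mm_202_t t 251 67 1 = true :=
  ⟨(b (a (b (a (b (l 16769848) (a (a (l 16770680) (b (l 16776040) (l 16776808))) (b (a (l 16766064) (a (l 16776920) (b (l 16776992) (l 153243086199)))) (a (a (b (l 16777008) (l 162369896935)) (l 300882588071)) (l 344369126343))))) (b (a (b (l 16771008) (a (l 16776776) (a (b (l 16776984) (l 161296149815)) (l 299271975975)))) (b (b (a (l 16771592) (l 291218913447)) (b (a (l 40500199207) (l 4)) (l 316988714263))) (l 350811575287))) (a (b (a (l 309472523831) (l 4)) (l 4)) (l 4)))) (a (b (a (b (a (a (l 16776944) (b (l 16777016) (l 192434667895))) (l 310009396535)) (l 4)) (l 4)) (l 4)) (l 4))) (l 4)) (l 4)), by decide +kernel⟩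

def k14_mm_202_t : ∃ t, chk3 f_mm_202_t t 504 132 1 = true :=
  ⟨(b (b (a (l 16769512) (l 16769320)) (a (l 16766248) (a (l 16768056) (l 16771904)))) (b (a (l 16770784) (a (l 16772592) (b (l 16770720) (b (b (l 16771312) (b (l 69491226215) (a (l 16776544) (a (l 16777008) (l 139821318423))))) (a (l 16776832) (a (b (l 16777312) (l 189750313319)) (l 4))))))) (a (a (l 16769448) (a (l 16770336) (a (l 16770784) (b (l 16775864) (l 16775464))))) (a (b (a (l 16771072) (a (l 16775456) (b (l 16771600) (b (l 16777152) (l 196192764263))))) (a (b (a (l 16771616) (a (l 16777064) (b (l 16777112) (l 188139700471)))) (a (b (l 16777160) (l 207467053399)) (l 4))) (b (b (l 257932916311) (l 4)) (l 4)))) (b (a (b (a (a (l 16777056) (b (l 16777104) (l 185992216807))) (a (b (l 16777208) (l 4)) (l 4))) (l 4)) (l 4)) (l 4)))))), by decide +kernel⟩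

def k15_mm_202_t : ∃ t, chk3 f_mm_202_t t 505 132 1 = true :=
  ⟨(b (a (b (b (l 16771328) (l 16772320)) (b (a (l 16770048) (a (l 16770992) (a (l 16775400) (b (l 16771552) (c (b (l 16777128) (l 176865410103)) (b (l 16777128) (l 177402281015))))))) (a (a (l 16770704) (b (l 16776328) (l 16774184))) (a (b (a (l 16771560) (a (l 16777032) (b (l 16777080) (l 154853703927)))) (a (b (a (l 16777080) (l 16777192)) (l 183307861047)) (l 311620010199))) (a (a (b (b (l 16777192) (l 4)) (l 4)) (l 308398784807)) (l 4)))))) (b (a (b (l 16773248) (b (b (l 16773872) (b (l 64659387735) (a (l 16776480) (a (l 16776960) (l 105998449671))))) (a (l 16775472) (b (a (a (l 16777064) (l 16777184)) (l 226257535319)) (c (l 268670335895) (l 272965303175)))))) (b (a (b (l 16771360) (a (l 16776928) (a (b (l 16777056) (l 123715191063)) (b (l 16777176) (l 4))))) (a (b (a (l 16777000) (b (l 16771808) (l 126399545607))) (l 297124495559)) (b (a (b (l 16777176) (l 4)) (l 292292657303)) (l 4)))) (b (b (a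 (a (a (l 16777184) (l 229478760663)) (l 4)) (l 4)) (l 4)) (l 4)))) (a (b (a (b (a (a (l 16777024) (b (l 16777072) (l 134452609303))) (a (b (l 16777184) (l 4)) (l 298735108263))) (l 310546268455)) (l 4)) (l 4)) (l 4)))) (a (b (a (b (a (a (l 16775424) (b (l 16771576) (b (a (l 16777088) (l 16777200)) (l 188676571479)))) (b (a (a (l 16777040) (b (l 16777088) (l 155927445767))) (a (b (l 16777200) (l 4)) (l 314841235623))) (l 317525590311))) (b (b (a (c (l 251490466663) (l 252564208487)) (l 4)) (l 4)) (l 4))) (l 4)) (l 4)) (l 4))), by decide +kernel⟩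

def k16_mm_202_t : ∃ t, chk3 f_mm_202_t t 252 133 1 = true :=
  ⟨(a (b (a (b (a (b (l 16770816) (b (b (l 16771376) (a (l 16776552) (a (l 16776992) (l 115662122167)))) (a (l 16776880) (l 314304363799)))) (b (a (a (l 16775480) (b (l 16771624) (b (l 16777168) (l 261154144455)))) (a (b (b (l 16777048) (l 95797901095)) (l 4)) (l 345979748103))) (l 356180293831))) (a (b (a (a (a (b (l 16777096) (l 4)) (l 314304363479)) (l 347053488311)) (l 4)) (l 4)) (l 4))) (l 4)) (l 4)) (l 4)), by decide +kernel⟩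

def k17_mm_202_t : ∃ t, chk3 f_mm_202_t t 253 66 1 = true :=
  ⟨(l 4), by decide +kernel⟩

def k18_mm_202_t : ∃ t, chk3 f_mm_202_t t 126 67 1 = true :=
  ⟨(l 4), by decide +kernel⟩

def k19_mm_202_t : ∃ t, chk3 f_mm_202_t t 127 33 1 = true :=
  ⟨(l 4), by decide +kernel⟩

def k20_mm_202_t : ∃ t, chk3 f_mm_202_t t 30 34 1 = true :=
  ⟨(a (a (b (a (a (l 16712264) (l 16714072)) (a (l 16716120) (l 16718400))) (a (b (l 16733768) (l 16733496)) (b (l 16739880) (l 16740376)))) (b (a (b (l 16717952) (l 16723784)) (b (l 16723696) (l 16728080))) (a (b (l 16724176) (l 16725440)) (b (l 16729176) (l 16741664))))) (b (a (a (b (l 16729104) (l 16732896)) (b (l 16744744) (b (l 16737688) (l 16759648)))) (b (a (b (l 16737712) (l 16740880)) (a (l 16753664) (b (l 16744360) (l 16747192)))) (a (b (l 16743032) (l 16754816)) (a (b (l 16747088) (l 16759104)) (b (l 16760232) (l 16767176)))))) (a (b (a (l 16750408) (b (l 16739896) (l 16751856))) (a (b (l 16736640) (l 16748752)) (b (l 16758824)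 (a (l 16764320) (l 16757312))))) (a (b (b (a (l 16744368) (l 16747384)) (a (l 16746096) (l 16759760))) (b (a (l 16758568) (b (l 16761352) (l 16762504))) (a (l 16766072) (a (l 16768720) (b (l 16764592) (a (l 16765456) (b (l 16776504) (a (l 16776960) (l 147874358247))))))))) (b (a (b (l 16760888) (a (l 16762144) (l 16768976))) (b (b (l 16763368) (l 16769648)) (a (b (l 16775224) (a (l 16775976) (b (l 16776480) (a (l 16776880) (l 147874380903))))) (b (a (l 16765896) (b (l 16776864) (a (l 147874381399) (l 299808838471)))) (a (b (a (l 16777080) (l 281018361511)) (l 301419445383)) (l 4)))))) (a (b (a (l 16769672) (b (l 16770728) (a (b (l 16776480) (a (l 16776912) (l 147874380071))) (b (a (l 79154894743) (l 283702714807)) (l 4))))) (a (b (a (l 16776384) (b (l 16769064) (l 277260262919))) (a (b (l 265449110263) (l 4)) (l 4))) (b (a (b (l 289608289079) (l 4)) (l 4)) (l 4)))) (b (a (b (a (b (l 64122508759) (l 275649651447)) (b (l 288534548439) (l 4))) (l 4)) (l 4)) (l 4)))))))),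 by decide +kernel⟩

def k21_mm_202_t : ∃ t, chk3 f_mm_202_t t 60 35 1 = true :=
  ⟨(a (b (a (b (l 16734072) (l 16735544)) (b (l 16741760) (l 16733608))) (a (b (l 16737976) (a (l 16738632) (l 16744104))) (b (a (l 16745152) (l 16749656)) (b (l 16729648) (l 16742608))))) (b (a (b (l 16742048) (a (l 16749960) (l 16753624))) (b (a (l 16753464) (l 16735872)) (b (l 16747568) (l 16755088)))) (a (b (a (l 16743480) (b (l 16756864) (l 16759360))) (a (b (l 16757680) (l 16760512)) (b (l 16762144) (l 16754728)))) (b (b (a (l 16760840) (l 16764960)) (a (l 16763568) (l 16757424))) (a (b (l 16756096) (l 16764640)) (b (b (l 16759832) (l 16761528)) (a (l 16768240) (b (l 16764512) (a (l 16770992) (b (l 16769104) (l 268133455863))))))))))), by decide +kernel⟩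

def k22_mm_202_t : ∃ t, chk3 f_mm_202_t t 122 35 1 = true :=
  ⟨(b (a (b (b (l 16750624) (a (l 16761408) (l 16765128))) (b (a (l 16763728) (l 16757168)) (a (l 16755840) (l 16765216)))) (b (a (b (l 16766488) (l 16758440)) (b (l 16759664) (b (l 16761616) (l 16763008)))) (a (b (l 16767720) (a (l 16768368) (b (l 16764448) (a (l 16765520) (b (l 16776664) (l 262764752103)))))) (b (a (b (l 16773944) (l 16764976)) (b (l 39963313559) (a (b (l 16776608) (l 260617269863)) (l 276723395959)))) (a (b (a (l 39963312839) (b (a (l 16776896) (l 147874361271)) (l 282092096231))) (a (l 276723394823) (l 4))) (l 4)))))) (a (b (b (a (l 16763968) (b (l 16762272) (a (l 16773272) (l 2382350743)))) (a (b (l 16761080) (l 16762736)) (a (b (l 16764456) (a (l 16776104) (b (l 16776800) (l 265985974839)))) (b (a (b (l 16765728) (l 39426439895)) (b (l 147874369367) (l 4))) (a (l 276723382151) (l 4)))))) (a (b (a (b (l 16763304) (l 16770328)) (b (a (l 16765064) (b (l 16765792) (a (l 16776872) (l 147337492215))))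 (a (b (l 16769016) (l 267059715335)) (l 276723381111)))) (a (b (a (b (l 16776352) (a (l 16776960) (l 146800620215))) (l 264375366023)) (a (l 276186509207) (l 4))) (l 4))) (b (a (b (a (b (l 257396044279) (l 4)) (l 4)) (l 4)) (l 4)) (l 4)))) (b (a (b (a (b (b (l 16765128) (l 39963311543)) (a (b (l 16776728) (l 264375363447)) (l 276723393719))) (b (a (b (l 147874370455) (l 283165836887)) (l 4)) (l 4))) (l 4)) (l 4)) (l 4)))), by decide +kernel⟩

def k23_mm_202_t : ∃ t, chk3 f_mm_202_t t 123 35 1 = true :=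
  ⟨(b (a (b (a (b (a (l 16762440) (b (l 16763624) (l 16764984))) (a (b (l 16764496) (a (l 16765464) (b (l 16776568) (l 258469787639)))) (b (a (l 16776424) (b (l 39426439031) (l 279944614999))) (a (l 276186526199) (l 4))))) (b (a (b (l 16770704) (a (b (l 16776528) (l 147874367431)) (l 276186527383))) (b (a (b (l 39426440071) (l 278870874407)) (l 292292645255)) (l 4))) (a (b (a (l 291755762871) (l 4)) (l 4)) (l 4)))) (a (b (a (b (a (b (a (l 16776840) (l 147874362375)) (l 281555226519)) (l 295513858279)) (l 4)) (l 4)) (l 4)) (l 4))) (l 4)) (l 4)), by decide +kernel⟩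

def k24_mm_202_t : ∃ t, chk3 f_mm_202_t t 124 68 1 = true :=
  ⟨(a (b (b (a (l 16757616) (l 16765736)) (a (l 16760320) (b (l 16762456) (l 16768920)))) (a (b (l 16767992) (a (l 16769272) (b (l 16764920) (a (l 16765568) (b (l 16776488) (a (l 16776840) (b (l 16777056) (l 148411233271)))))))) (b (a (l 16769952) (b (l 16770752) (a (b (l 16776464) (a (l 16776816) (b (l 16777016) (l 276186529159)))) (b (a (l 16776960) (l 270817817831)) (l 299808836135))))) (a (b (a (l 16765928) (b (l 16776824) (a (b (l 16777040) (l 153243091255)) (l 295513873575)))) (a (b (b (l 103850965543) (l 268133463335)) (l 300882576759)) (l 4))) (b (a (b (l 284239589959) (l 4)) (l 4)) (l 4)))))) (b (a (b (a (l 16767976) (l 16772136)) (a (b (l 16764624) (a (l 16775920) (b (l 16776360) (a (l 16776744) (l 117809609479))))) (b (a (l 16765736) (b (l 16776680) (a (l 113514642135) (l 290682037751)))) (a (b (a (l 16776896) (l 269207206983)) (l 299271976935)) (b (l 316451830679) (l 4)))))) (b (a (b (l 16770456)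 (a (b (l 16776248) (a (l 16776664) (l 109219674791))) (b (a (l 16776840) (b (l 16777064) (l 311620009511))) (l 298735107287)))) (b (a (b (l 16776600) (a (l 104924707367) (l 287460813447))) (b (a (b (l 16777048) (l 302493204071)) (l 313767483335)) (l 4))) (a (b (l 316988702983) (l 4)) (l 4)))) (a (b (a (b (a (b (l 16777088) (l 318062460535)) (l 314841223847)) (l 4)) (l 4)) (l 4)) (l 4)))) (a (b (a (b (a (b (l 16776752) (a (b (l 16776992) (l 269207207303)) (l 292829520215))) (b (a (l 273502174295) (l 315914964423)) (l 4))) (l 4)) (l 4)) (l 4)) (l 4)))), by decide +kernel⟩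

def k25_mm_202_t : ∃ t, chk3 f_mm_202_t t 124 69 1 = true :=
  ⟨(a (b (a (b (a (b (l 16770792) (a (b (l 16776480) (a (l 16776856) (l 147874371303))) (b (a (l 16777040) (l 277797137271)) (l 301419446519)))) (b (a (b (l 16776848) (a (b (l 16777072) (l 148411232663)) (l 297661356023))) (b (l 285850201511) (l 4))) (l 4))) (a (b (a (b (l 287460807799) (l 4)) (l 4)) (l 4)) (l 4))) (l 4)) (l 4)) (l 4)), by decide +kernel⟩

def k26_mm_202_t : ∃ t, chk3 f_mm_202_t t 125 34 1 = true :=
  ⟨(l 4), by decide +kernel⟩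

def k27_mm_202_t : ∃ t, chk3 f_mm_202_t t 62 35 1 = true :=
  ⟨(l 4), by decide +kernel⟩

def k28_mm_202_t : ∃ t, chk3 f_mm_202_t t 63 17 1 = true :=
  ⟨(l 4), by decide +kernel⟩

def k29_mm_202_t : ∃ t, chk3 f_mm_202_t t 28 18 1 = true :=
  ⟨(b (a (b (a (l 16480984) (l 16522552)) (a (l 16490344) (l 16532520))) (b (a (b (l 16561208) (l 16564912)) (b (l 16599944) (l 16604048))) (a (b (l 16570344) (l 16576880)) (b (l 16609848) (l 16616696))))) (a (b (a (l 16504640) (b (l 16543168) (l 16551608))) (a (l 16523288) (b (l 16561072) (l 16571504)))) (b (a (b (l 16584496) (l 16593128)) (b (l 16624584) (l 16633432))) (a (b (l 16602736) (l 16613272)) (b (l 16643208) (l 16653856)))))), by decide +kernel⟩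

def k30_mm_202_t : ∃ t, chk3 f_mm_202_t t 29 36 1 = true :=
  ⟨(a (b (a (b (l 16637216) (l 16641776)) (b (l 16671416) (a (l 16668200) (l 16684472)))) (a (b (l 16647968) (l 16634200)) (b (a (l 16674728) (l 16691232)) (a (l 16682224) (l 16698936))))) (a (b (b (a (l 16694312) (l 16708408)) (a (l 16699760) (l 16714144))) (b (a (l 16706768) (l 16700448)) (a (l 16714688) (b (l 16727456) (l 16731752))))) (b (b (a (l 16721672) (l 16723704)) (a (l 16717232) (b (l 16738776) (l 16742448)))) (b (a (b (l 16733304) (l 16737288)) (b (l 16735872) (l 16740000))) (a (b (l 16741496) (l 16724936)) (b (a (l 16751552) (l 16758056)) (b (l 16747720) (l 16750040)))))))), by decide +kernel⟩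

def k31_mm_202_t : ∃ t, chk3 f_mm_202_t t 29 37 1 = true :=
  ⟨(a (a (b (b (a (l 16653840) (l 16672736)) (a (l 16662872) (l 16681904))) (b (a (l 16672792) (l 16691928)) (a (l 16683552) (l 16702760)))) (b (b (a (l 16690656) (l 16707544)) (a (l 16699968) (l 16717008))) (b (a (l 16710104) (l 16706304)) (a (l 16721024) (l 16717320))))) (a (b (b (a (l 16702520) (a (l 16734888) (l 16742232))) (a (l 16712152) (a (l 16744648) (l 16731112)))) (a (b (l 16727792) (b (l 16730832) (l 16736560))) (b (b (l 16735264) (l 16740712)) (b (l 16756816) (a (l 16748304) (a (l 16753816) (l 121030790743))))))) (b (a (b (b (l 16740032) (l 16744848)) (b (l 16749840) (l 16755024))) (b (a (b (l 16760760) (l 16744680)) (b (l 16746416) (l 43184531735))) (a (b (l 16749752) (a (l 16763704) (b (l 16765672) (l 230015617911)))) (b (a (b (l 16753528) (l 42647657239)) (b (a (l 16766296) (l 125862642439)) (l 4))) (a (l 258469760583) (l 4)))))) (a (b (a (b (l 16746304) (l 16762208)) (b (a (l 16751672) (b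 (l 16774792) (l 124788904551))) (a (b (l 16755488) (l 122104535639)) (l 258469758391)))) (a (b (a (a (l 16754536) (l 122641418135)) (l 226794385623)) (l 4)) (l 4))) (b (a (b (a (b (l 124788898167) (l 4)) (l 4)) (l 4)) (l 4)) (l 4)))))), by decide +kernel⟩

def k32_mm_202_t : ∃ t, chk3 f_mm_202_t t 14 19 1 = true :=
  ⟨(a (b (a (b (a (l 16546080) (b (l 16582864) (l 16595104))) (a (l 16550616) (b (l 16608232) (l 16621864)))) (b (a (b (l 16624680) (l 16636920)) (b (l 16644360) (l 16656616))) (a (b (l 16649960) (l 16663792)) (b (l 16669616) (l 16683312))))) (a (b (a (l 16598344) (l 16600656)) (a (l 16625632) (l 16649896))) (a (b (a (l 16674680) (l 16674376)) (l 16672448)) (b (b (l 16697720) (l 16691416)) (a (l 16724904) (b (l 16737552) (a (l 16747848) (l 105461515767)))))))) (b (a (a (b (b (a (l 16695088) (l 16714352)) (a (l 16707368) (l 16726656))) (b (a (l 16720352) (l 16718656)) (b (l 16719232) (l 16726200)))) (b (a (b (l 16732672) (l 16724032)) (b (l 16729032) (l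 16741408))) (a (b (l 16737008) (a (l 16746072) (b (l 16751376) (l 111903976279)))) (b (a (a (l 16747976) (l 16762352)) (b (l 47479481623) (l 247732341959))) (a (b (l 112440836919) (l 4)) (l 4)))))) (a (b (a (b (a (l 16741440) (b (l 16767408) (l 16762760))) (a (b (l 16750632) (b (l 16754824) (l 115662077767))) (b (a (l 16759936) (l 251490442359)) (l 4)))) (b (a (b (a (l 16752272) (l 45332003975)) (l 221425672519)) (b (l 252564175015) (l 4))) (l 4))) (a (b (a (l 254174765975) (l 4)) (l 4)) (l 4))) (l 4))) (a (a (b (a (b (l 16727272) (l 16742008)) (b (a (l 16741736) (l 50700707767)) (a (a (l 16753144) (l 108682744215)) (l 214983203479)))) (a (b (a (l 16751424) (l 106535237639)) (l 248806046583)) (l 4))) (b (a (b (a (b (l 16754808) (l 139284368695)) (l 4)) (l 4)) (l 4)) (l 4))) (l 4)))), by decide +kernel⟩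

def k33_mm_202_t : ∃ t, chk3 f_mm_202_t t 120 36 1 = true :=
  ⟨(b (b (a (b (l 16744752) (l 16737024)) (b (a (l 16753120) (l 16758480)) (a (l 16756112) (l 16761640)))) (a (b (a (l 16747912) (l 16753824)) (a (l 16751712) (l 16757696))) (b (a (l 16759592) (l 16760000)) (a (l 16753072) (b (l 16757768) (l 16759856)))))) (a (b (a (b (l 16755736) (l 16759968)) (b (l 16751320) (l 16755632))) (a (b (l 16753928) (l 16758560)) (b (l 16765384) (a (l 16768520) (b (l 16770384) (a (l 131231372359) (l 243974260407))))))) (b (a (b (l 16762504) (a (l 16760160) (l 16768376))) (b (a (l 16761632) (b (l 16763424) (a (l 16764904) (b (l 16776264) (l 140358171735))))) (a (b (l 16770168) (a (b (l 16776384) (l 136600073991)) (l 248269230327))) (b (a (b (l 16771720) (l 252027329031)) (l 4)) (l 4))))) (a (b (a (b (l 16753080) (a (l 16765128) (b (l 16776512) (l 133378847351)))) (b (a (l 16765768) (b (l 16766592) (l 250953585847))) (l 248269221959))) (a (b (a (l 235921204311) (l 4)) (l 4)) (l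 4))) (l 4))))), by decide +kernel⟩

def k34_mm_202_t : ∃ t, chk3 f_mm_202_t t 121 36 1 = true :=
  ⟨(b (a (b (a (b (l 16763624) (l 16761768)) (b (l 16763328) (b (l 16760808) (l 16767952)))) (a (b (b (l 16759312) (l 16766536)) (b (a (l 16772472) (l 16769992)) (a (l 16764104) (a (b (l 16776152) (l 143579398535)) (l 252564206871))))) (b (a (b (l 16763360) (a (l 16764728) (b (l 16765560) (l 41037055815)))) (b (a (l 16765352) (b (l 16776632) (l 254711687783))) (a (b (l 146800631719) (l 4)) (l 4)))) (a (b (a (b (l 16776736) (l 254711686375)) (l 263838482583)) (l 4)) (l 4))))) (b (a (b (a (l 16761760) (b (l 16763312) (l 40500186215))) (a (b (l 16764624) (a (l 40500185367) (b (l 147337493319) (l 269207195239)))) (b (a (b (l 16776528) (l 146800617863)) (l 264375355767)) (l 4)))) (b (a (b (a (l 16765184) (b (l 16776440) (l 147337500375))) (a (b (l 39963312135) (l 268670325527)) (l 4))) (b (a (l 264912238327) (l 4)) (l 4))) (l 4))) (a (b (a (b (a (l 264375354631) (l 4)) (l 4))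 (l 4)) (l 4)) (l 4)))) (a (b (a (b (a (b (a (l 16770784) (b (l 16771600) (l 253637943143))) (a (l 250416720567) (l 4))) (b (l 270280924871) (l 4))) (l 4)) (l 4)) (l 4)) (l 4))), by decide +kernel⟩

def k35_mm_202_t : ∃ t, chk3 f_mm_202_t t 60 37 1 = true :=
  ⟨(a (b (a (b (a (b (a (l 16751296) (b (l 16753272) (a (l 16775880) (l 128547006119)))) (a (b (l 16765392) (l 230552491591)) (b (l 236994936599) (l 4)))) (b (a (b (a (l 16766016) (l 233773719223)) (l 262227863351)) (l 4)) (l 4))) (l 4)) (l 4)) (l 4)) (l 4)), by decide +kernel⟩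

def k36_mm_202_t : ∃ t, chk3 f_mm_202_t t 61 18 1 = true :=
  ⟨(l 4), by decide +kernel⟩

def k37_mm_202_t : ∃ t, chk3 f_mm_202_t t 31 18 1 = true :=
  ⟨(l 4), by decide +kernel⟩

def k38_mm_202_t : ∃ t, chk3 f_mm_202_t t 15 19 1 = true :=
  ⟨(l 4), by decide +kernel⟩

def k39_mm_202_t : ∃ t, chk3 f_mm_202_t t 6 10 1 = true :=
  ⟨(a (b (a (b (a (l 15764368) (l 15897984)) (a (l 15807472) (l 15944792))) (b (a (b (l 16016632) (l 16038712)) (b (l 16140408) (l 16164360))) (a (b (l 16063944) (l 16092256)) (b (l 16191392) (l 16221424))))) (a (b (a (l 15863280) (l 16004008)) (a (l 15931080) (l 16074920))) (b (a (l 16056432) (b (l 16254368) (l 16290144))) (a (l 16172352) (b (l 16328656) (l 16369824)))))) (b (a (b (a (b (l 16259280) (l 16285072)) (b (l 16372904) (l 16400528))) (a (b (l 16313880) (l 16345624)) (b (l 16431104) (l 16464544)))) (a (b (b (l 16438984) (l 16447456)) (b (l 16479792) (l 16493960))) (b (b (a (l 16558080) (l 16607552)) (a (l 16588904) (l 16639288)))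 (b (a (l 16622560) (l 16673824)) (b (l 16612800) (l 16631880)))))) (a (a (b (b (l 16380216) (l 16417560)) (b (l 16457576) (l 16500176))) (b (a (l 16490120) (l 16507472)) (b (l 16539256) (l 16562320)))) (b (a (b (l 16531808) (l 16572288)) (a (b (l 16677088) (l 36741918151)) (b (b (l 16719808) (l 67343631447)) (a (b (l 16746304) (l 16763016)) (l 123178176231))))) (a (a (b (l 16670312) (l 16694456)) (b (l 16685888) (a (l 16715192) (l 87744745447)))) (a (b (a (l 70028002823) (l 88818464967)) (l 4)) (l 4))))))), by decide +kernel⟩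

def k40_mm_202_t : ∃ t, chk3 f_mm_202_t t 6 11 1 = true :=
  ⟨(a (b (a (b (a (l 16010176) (l 16156824)) (a (l 16099840) (l 16249008))) (b (a (b (l 16276800) (l 16321696)) (b (l 16413544) (l 16459744))) (a (l 16267824) (a (l 16499072) (l 16546808))))) (a (b (a (l 16199352) (l 16266864)) (a (l 16287016) (l 16356464))) (b (a (b (l 16470736) (l 16524904)) (b (l 16570352) (l 16604576))) (a (a (l 16552440) (l 16583712)) (b (a (l 16689384) (l 80228467847)) (a (l 16680888) (l 16714816))))))) (b (a (b (a (b (l 16545272) (l 16550832)) (b (l 16587816) (a (l 16689168) (a (l 16715208) (l 16720440))))) (a (b (l 16579680) (a (l 16661352) (l 16685416))) (b (a (l 16675416) (a (l 16726592) (l 16749328))) (a (a (l 16746960) (l 16757320)) (l 4))))) (a (b (a (b (a (l 16705472) (l 72712367511)) (l 116735722695)) (b (l 118883182823) (l 4))) (l 4)) (l 4))) (a (a (b (a (b (l 16694304) (a (l 16730808) (l 16748104))) (b (b (l 16740976) (l 16744208)) (l 16722808))) (b (l 177939034087) (l 4)))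 (l 4)) (l 4)))), by decide +kernel⟩

def k41_mm_202_t : ∃ t, chk3 f_mm_202_t t 7 5 1 = true :=
  ⟨(a (a (b (b (a (b (a (b (l 16655408) (l 16667080)) (b (l 16659656) (l 16693216))) (b (a (l 16681536) (a (a (l 16732696) (l 16732816)) (b (l 16750192) (l 129620662839)))) (a (a (l 16728040) (b (l 16742488) (l 16726408))) (b (l 226794366087) (l 4))))) (b (a (b (a (l 16714152) (b (l 16748680) (l 16743848))) (a (b (l 16739480) (l 100092797255)) (b (l 101166523095) (l 4)))) (b (a (b (l 54458787111) (l 102240247143)) (b (l 240753000503) (l 4))) (l 4))) (a (b (a (l 237531741623) (l 4)) (l 4)) (l 4)))) (a (b (a (b (a (b (l 16752280) (l 16751728)) (l 4)) (l 4)) (l 4)) (l 4)) (l 4))) (l 4)) (l 4)) (l 4)), by decide +kernel⟩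

def k42_mm_202_t : ∃ t, chk3 f_mm_202_t t 4 6 1 = true :=
  ⟨(b (a (b (l 6) (a (l 6) (b (l 6) (a (l 6) (l 14404600))))) (b (a (b (l 6) (a (l 6) (l 14571448))) (b (a (l 14660104) (l 14852192)) (a (l 14768760) (l 14962872)))) (a (b (a (l 14486272) (l 14688632)) (a (l 14611848) (l 14815720))) (b (a (l 14887712) (l 15083448)) (a (l 15016168) (l 15213136)))))) (b (a (a (b (l 6) (a (l 6) (l 14251776))) (b (a (l 14326440) (l 14538448)) (a (l 14468440) (l 14681440)))) (a (b (l 14828336) (l 14972464)) (b (a (l 15153328) (l 15351136)) (l 15292520)))) (b (a (a (a (l 14180584) (l 14401808)) (l 14704792)) (a (l 15124280) (l 15444656))) (l 2)))), by decide +kernel⟩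

def k43_mm_202_t : ∃ t, chk3 f_mm_202_t t 5 6 1 = true :=
  ⟨(b (a (b (a (b (a (l 15041128) (l 15226800)) (a (l 15153688) (l 15341120))) (b (a (l 15409104) (l 15587912)) (a (l 15525080) (l 15705464)))) (a (b (a (l 15275760) (l 15464592)) (a (l 15406568) (l 15596416))) (b (a (l 15649848) (l 15831456)) (a (l 15782624) (l 15965112))))) (b (a (b (a (l 15763104) (l 15934552)) (a (l 15882160) (l 16055056))) (a (b (l 16102120) (l 16224024)) (b (l 16265656) (l 16347000)))) (a (b (a (l 16009320) (l 16183336)) (a (l 16143816) (l 16318640))) (a (b (l 16353408) (l 16426592)) (b (l 16435520) (b (l 16600456) (l 16584392))))))) (a (b (a (b (a (l 15545312) (l 15735816)) (a (l 15691184) (l 15881984))) (b (a (l 15922616) (l 16105648)) (a (l 16069032) (l 16252272)))) (a (b (a (l 15843368) (l 16034112)) (l 87608756327)) (b (a (l 16221056) (l 16404184)) (b (l 16303552) (l 2))))) (b (a (b (a (l 16284864) (l 16418240)) (a (l 16410704) (l 16502328))) (b (a (a (l 16568208) (b (l 16637728)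 (l 16709712))) (b (a (l 16677960) (l 16766496)) (a (l 16767304) (l 4)))) (a (a (b (l 16678032) (l 16736192)) (b (l 16741872) (l 4))) (l 4)))) (a (b (a (l 16499576) (a (b (l 16677080) (l 16723344)) (b (l 16729992) (l 16762784)))) (a (b (a (l 16655728) (l 16737280)) (a (l 16729912) (l 16766160))) (l 100629585559))) (b (a (l 97945215223) (l 4)) (l 4)))))), by decide +kernel⟩

def k44_mm_202_t : ∃ t, chk3 f_mm_202_t t 2 7 1 = true :=
  ⟨(a (l 2) (a (l 2) (a (l 2) (l 4)))), by decide +kernel⟩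

def k45_mm_202_t : ∃ t, chk3 f_mm_202_t t 3 3 1 = true :=
  ⟨(a (a (b (b (b (a (b (a (l 16341120) (l 16454160)) (a (l 16444800) (b (l 16589800) (a (l 16678904) (l 16719568))))) (b (a (a (l 16587816) (b (l 16671208) (l 16723544))) (b (a (l 16719736) (l 4)) (l 4))) (a (b (a (l 16725368) (l 4)) (l 4)) (l 4)))) (a (b (a (b (l 16605696) (a (l 16675016) (l 16704984))) (b (a (l 16712648) (l 16754112)) (l 104387683495))) (a (a (b (l 16696616) (l 16764552)) (l 101166474839)) (l 4))) (l 4))) (l 4)) (l 4)) (l 4)) (l 4)), by decide +kernel⟩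

theorem s46_mm_202_t : ∃ t, chk3 f_mm_202_t t 2 6 1 = true := ex3_a k42_mm_202_t k43_mm_202_t

theorem s47_mm_202_t : ∃ t, chk3 f_mm_202_t t 2 3 1 = true := ex3_b s46_mm_202_t k44_mm_202_t

theorem s48_mm_202_t : ∃ t, chk3 f_mm_202_t t 1 3 1 = true := ex3_a s47_mm_202_t k45_mm_202_t

theorem s49_mm_202_t : ∃ t, chk3 f_mm_202_t t 6 5 1 = true := ex3_b k39_mm_202_t k40_mm_202_t

theorem s50_mm_202_t : ∃ t, chk3 f_mm_202_t t 3 5 1 = true := ex3_a s49_mm_202_t k41_mm_202_t

theorem s51_mm_202_t : ∃ t, chk3 f_mm_202_t t 60 36 1 = true := ex3_a k33_mm_202_t k34_mm_202_t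

theorem s52_mm_202_t : ∃ t, chk3 f_mm_202_t t 60 18 1 = true := ex3_b s51_mm_202_t k35_mm_202_t

theorem s53_mm_202_t : ∃ t, chk3 f_mm_202_t t 30 18 1 = true := ex3_a s52_mm_202_t k36_mm_202_t

theorem s54_mm_202_t : ∃ t, chk3 f_mm_202_t t 15 18 1 = true := ex3_a s53_mm_202_t k37_mm_202_t

theorem s55_mm_202_t : ∃ t, chk3 f_mm_202_t t 15 9 1 = true := ex3_b s54_mm_202_t k38_mm_202_t

theorem s56_mm_202_t : ∃ t, chk3 f_mm_202_t t 29 18 1 = true := ex3_b k30_mm_202_t k31_mm_202_t

theorem s57_mm_202_t : ∃ t, chk3 f_mm_202_t t 14 18 1 = true := ex3_a k29_mm_202_t s56_mm_202_t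

theorem s58_mm_202_t : ∃ t, chk3 f_mm_202_t t 14 9 1 = true := ex3_b s57_mm_202_t k32_mm_202_t

theorem s59_mm_202_t : ∃ t, chk3 f_mm_202_t t 7 9 1 = true := ex3_a s58_mm_202_t s55_mm_202_t

theorem s60_mm_202_t : ∃ t, chk3 f_mm_202_t t 124 34 1 = true := ex3_b k24_mm_202_t k25_mm_202_t

theorem s61_mm_202_t : ∃ t, chk3 f_mm_202_t t 62 34 1 = true := ex3_a s60_mm_202_t k26_mm_202_t

theorem s62_mm_202_t : ∃ t, chk3 f_mm_202_t t 62 17 1 = true := ex3_b s61_mm_202_t k27_mm_202_t

theorem s63_mm_202_t : ∃ t, chk3 f_mm_202_t t 31 17 1 = true := ex3_a s62_mm_202_t k28_mm_202_t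

theorem s64_mm_202_t : ∃ t, chk3 f_mm_202_t t 61 35 1 = true := ex3_a k22_mm_202_t k23_mm_202_t

theorem s65_mm_202_t : ∃ t, chk3 f_mm_202_t t 30 35 1 = true := ex3_a k21_mm_202_t s64_mm_202_t

theorem s66_mm_202_t : ∃ t, chk3 f_mm_202_t t 30 17 1 = true := ex3_b k20_mm_202_t s65_mm_202_t

theorem s67_mm_202_t : ∃ t, chk3 f_mm_202_t t 15 17 1 = true := ex3_a s66_mm_202_t s63_mm_202_t

theorem s68_mm_202_t : ∃ t, chk3 f_mm_202_t t 252 132 1 = true := ex3_a k14_mm_202_t k15_mm_202_t

theorem s69_mm_202_t : ∃ t, chk3 f_mm_202_t t 252 66 1 = true := ex3_b s68_mm_202_t k16_mm_202_t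

theorem s70_mm_202_t : ∃ t, chk3 f_mm_202_t t 126 66 1 = true := ex3_a s69_mm_202_t k17_mm_202_t

theorem s71_mm_202_t : ∃ t, chk3 f_mm_202_t t 126 33 1 = true := ex3_b s70_mm_202_t k18_mm_202_t

theorem s72_mm_202_t : ∃ t, chk3 f_mm_202_t t 63 33 1 = true := ex3_a s71_mm_202_t k19_mm_202_t

theorem s73_mm_202_t : ∃ t, chk3 f_mm_202_t t 125 67 1 = true := ex3_a k12_mm_202_t k13_mm_202_t

theorem s74_mm_202_t : ∃ t, chk3 f_mm_202_t t 62 67 1 = true := ex3_a k11_mm_202_t s73_mm_202_t

theorem s75_mm_202_t : ∃ t, chk3 f_mm_202_t t 62 33 1 = true := ex3_b k10_mm_202_t s74_mm_202_t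

theorem s76_mm_202_t : ∃ t, chk3 f_mm_202_t t 31 33 1 = true := ex3_a s75_mm_202_t s72_mm_202_t

theorem s77_mm_202_t : ∃ t, chk3 f_mm_202_t t 126 65 1 = true := ex3_b k7_mm_202_t k8_mm_202_t

theorem s78_mm_202_t : ∃ t, chk3 f_mm_202_t t 63 65 1 = true := ex3_a s77_mm_202_t k9_mm_202_t

theorem s79_mm_202_t : ∃ t, chk3 f_mm_202_t t 63 32 1 = true := ex3_b k6_mm_202_t s78_mm_202_t

theorem s80_mm_202_t : ∃ t, chk3 f_mm_202_t t 31 32 1 = true := ex3_a k5_mm_202_t s79_mm_202_t

theorem s81_mm_202_t : ∃ t, chk3 f_mm_202_t t 31 16 1 = true := ex3_b s80_mm_202_t s76_mm_202_t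

theorem s82_mm_202_t : ∃ t, chk3 f_mm_202_t t 15 16 1 = true := ex3_a k4_mm_202_t s81_mm_202_t

theorem s83_mm_202_t : ∃ t, chk3 f_mm_202_t t 15 8 1 = true := ex3_b s82_mm_202_t s67_mm_202_t

theorem s84_mm_202_t : ∃ t, chk3 f_mm_202_t t 7 8 1 = true := ex3_a k3_mm_202_t s83_mm_202_t

theorem s85_mm_202_t : ∃ t, chk3 f_mm_202_t t 7 4 1 = true := ex3_b s84_mm_202_t s59_mm_202_t

theorem s86_mm_202_t : ∃ t, chk3 f_mm_202_t t 6 4 1 = true := ex3_b k1_mm_202_t k2_mm_202_t

theorem s87_mm_202_t : ∃ t, chk3 f_mm_202_t t 3 4 1 = true := ex3_a s86_mm_202_t s85_mm_202_t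

theorem s88_mm_202_t : ∃ t, chk3 f_mm_202_t t 3 2 1 = true := ex3_b s87_mm_202_t s50_mm_202_t

theorem s89_mm_202_t : ∃ t, chk3 f_mm_202_t t 1 2 1 = true := ex3_a k0_mm_202_t s88_mm_202_t

theorem s90_mm_202_t : ∃ t, chk3 f_mm_202_t t 1 1 1 = true := ex3_b s89_mm_202_t s48_mm_202_t

theorem c_mm_202_t : CertNE 0 536870912 0 536870912 1040187392 5207648 3 eng mog cd0q2 cd0q0 pd2 true false false .pp 2 0 2
    ndB0q2 ndB0q0 pcB2 cut_mm_202_t Ext.none :=
  certNE0 (fam := true) (s1 := false) (s2 := false) (a := 2) (b := 0) (c := 2) (cn := .pp) (n1 := ndB0q2) (n2 := ndB0q0) (pc := pcB2) (cut := cut_mm_202_t) (xt := Ext.none) (P1 := 0) (W1 := 536870912) (P2 := 0) (W2 := 536870912) (P3 := 1040187392) (W3 := 5207648) (N0 := 3) (En := eng) (mo := mog) (C1 := cd0q2) (C2 := cd0q0) (C3 := pd2)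
    rfl s90_mm_202_t

noncomputable def cut_mm_203_s : Cut := Cut.of [[⟨4, 0, 0, 1449551462⟩]]

noncomputable def f_mm_203_s : ℕ → ℕ → ℕ → ℕ → Bool := onCell 0 536870912 0 536870912 1040187392 5207648
    (rowNE 3 eng mog cd0q2 cd0q0 pd3 0 true false false .up 2 0 3 (qsf 0 536870912 0 536870912 3) ndB0q2 ndB0q0 pcB3 cut_mm_203_s Ext.none)

def k0_mm_203_s : ∃ t, chk3 f_mm_203_s t 1 1 1 = true :=
  ⟨(l 6), by decide +kernel⟩

theorem c_mm_203_s : CertNE 0 536870912 0 536870912 1040187392 5207648 3 eng mog cd0q2 cd0q0 pd3 true false false .up 2 0 3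
    ndB0q2 ndB0q0 pcB3 cut_mm_203_s Ext.none :=
  certNE0 (fam := true) (s1 := false) (s2 := false) (a := 2) (b := 0) (c := 3) (cn := .up) (n1 := ndB0q2) (n2 := ndB0q0) (pc := pcB3) (cut := cut_mm_203_s) (xt := Ext.none) (P1 := 0) (W1 := 536870912) (P2 := 0) (W2 := 536870912) (P3 := 1040187392) (W3 := 5207648) (N0 := 3) (En := eng) (mo := mog) (C1 := cd0q2) (C2 := cd0q0) (C3 := pd3)
    rfl k0_mm_203_s

noncomputable def cut_mm_203_t : Cut := Cut.of [[⟨3, 0, 0, 2845415833⟩]]

noncomputable def f_mm_203_t : ℕ → ℕ → ℕ → ℕ → Bool := onCell 0 536870912 1610612736 536870912 1040187392 5207648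
    (rowNE 3 eng mog cd0q2 cd0q0 pd3 1 true false false .up 2 0 3 (qsf 0 536870912 0 536870912 3) ndB0q2 ndB0q0 pcB3 cut_mm_203_t Ext.none)

def k0_mm_203_t : ∃ t, chk3 f_mm_203_t t 1 1 1 = true :=
  ⟨(b (a (b (b (a (b (a (l 16434536) (l 16542848)) (a (l 16506920) (l 16566616))) (a (b (a (l 16647416) (b (l 16727152) (l 16753384))) (a (l 16728240) (b (l 16708416) (l 16678448)))) (b (a (b (l 97945169303) (l 4)) (l 4)) (l 4)))) (a (b (a (l 16570624) (l 16667424)) (a (l 16606904) (a (l 16712376) (l 88281530647)))) (a (a (b (b (l 16764000) (l 16717376)) (l 4)) (l 4)) (l 4)))) (b (a (b (a (l 16680888) (a (l 74859746247) (l 107071960983))) (a (l 2) (l 2))) (l 4)) (l 2))) (l 4)) (l 2)), by decide +kernel⟩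

theorem c_mm_203_t : CertNE 0 536870912 0 536870912 1040187392 5207648 3 eng mog cd0q2 cd0q0 pd3 true false false .up 2 0 3
    ndB0q2 ndB0q0 pcB3 cut_mm_203_t Ext.none :=
  certNE1 (fam := true) (s1 := false) (s2 := false) (a := 2) (b := 0) (c := 3) (cn := .up) (n1 := ndB0q2) (n2 := ndB0q0) (pc := pcB3) (cut := cut_mm_203_t) (xt := Ext.none) (P1 := 0) (W1 := 536870912) (P2 := 0) (W2 := 536870912) (P3 := 1040187392) (W3 := 5207648) (N0 := 3) (En := eng) (mo := mog) (C1 := cd0q2) (C2 := cd0q0) (C3 := pd3)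
    rfl (fun _ => rfl) k0_mm_203_t

noncomputable def cut_mm_213_s : Cut := Cut.of [[⟨4, 0, 0, 1449551462⟩]]

noncomputable def f_mm_213_s : ℕ → ℕ → ℕ → ℕ → Bool := onCell 0 536870912 536870912 536870912 1040187392 5207648
    (rowNE 3 eng mog cd0q2 cd0q1 pd3 0 true false false .pnn 2 1 3 (qsf 0 536870912 536870912 536870912 3) ndB0q2 ndB0q1 pcB3 cut_mm_213_s Ext.none)

def k0_mm_213_s : ∃ t, chk3 f_mm_213_s t 1 1 1 = true :=
  ⟨(l 6), by decide +kernel⟩

theorem c_mm_213_s : CertNE 0 536870912 536870912 536870912 1040187392 5207648 3 eng mog cd0q2 cd0q1 pd3 true false false .pnn 2 1 3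
    ndB0q2 ndB0q1 pcB3 cut_mm_213_s Ext.none :=
  certNE0 (fam := true) (s1 := false) (s2 := false) (a := 2) (b := 1) (c := 3) (cn := .pnn) (n1 := ndB0q2) (n2 := ndB0q1) (pc := pcB3) (cut := cut_mm_213_s) (xt := Ext.none) (P1 := 0) (W1 := 536870912) (P2 := 536870912) (W2 := 536870912) (P3 := 1040187392) (W3 := 5207648) (N0 := 3) (En := eng) (mo := mog) (C1 := cd0q2) (C2 := cd0q1) (C3 := pd3)
    rfl k0_mm_213_s

noncomputable def cut_mm_213_t : Cut := Cut.of [[⟨3, 0, 0, 2845415833⟩]]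

noncomputable def f_mm_213_t : ℕ → ℕ → ℕ → ℕ → Bool := onCell 0 536870912 536870912 536870912 1040187392 5207648
    (rowNE 3 eng mog cd0q2 cd0q1 pd3 0 true false false .pnn 2 1 3 (qsf 0 536870912 536870912 536870912 3) ndB0q2 ndB0q1 pcB3 cut_mm_213_t Ext.none)

def k0_mm_213_t : ∃ t, chk3 f_mm_213_t t 1 1 1 = true :=
  ⟨(a (b (a (b (b (a (b (a (l 16701936) (l 16729840)) (b (l 80228451655) (l 92576489495))) (b (a (l 102240155751) (l 4)) (l 4))) (a (b (a (l 100092687095) (l 4)) (l 4)) (l 4))) (l 4)) (l 4)) (l 4)) (l 4)), by decide +kernel⟩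

theorem c_mm_213_t : CertNE 0 536870912 536870912 536870912 1040187392 5207648 3 eng mog cd0q2 cd0q1 pd3 true false false .pnn 2 1 3
    ndB0q2 ndB0q1 pcB3 cut_mm_213_t Ext.none :=
  certNE0 (fam := true) (s1 := false) (s2 := false) (a := 2) (b := 1) (c := 3) (cn := .pnn) (n1 := ndB0q2) (n2 := ndB0q1) (pc := pcB3) (cut := cut_mm_213_t) (xt := Ext.none) (P1 := 0) (W1 := 536870912) (P2 := 536870912) (W2 := 536870912) (P3 := 1040187392) (W3 := 5207648) (N0 := 3) (En := eng) (mo := mog) (C1 := cd0q2) (C2 := cd0q1) (C3 := pd3)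
    rfl k0_mm_213_t

end Pool.Agent.Strip051.G.I9688_9736.Tab.CS.BA00

namespace Pool.Agent.Strip051.G.I9688_9736.Tab.CS.BA05

open Pool.Agent.Strip051.PB Pool.Agent.Strip051.PB.T
open Pool.Agent.Strip051.G.I9688_9736.Tab

noncomputable def cut_pp_001_s : Cut := Cut.of [[⟨4, 0, 0, 1449551462⟩]]

noncomputable def f_pp_001_s : ℕ → ℕ → ℕ → ℕ → Bool := onCell 0 536870912 0 536870912 1040187392 5207648
    (rowNE 3 eng mog cd0q0 cd5q0 pd1 0 true true true .up 0 0 1 (qsf 0 536870912 0 536870912 1) ndB0q0 ndB5q0 pcB1 cut_pp_001_s Ext.none)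

def k0_pp_001_s : ∃ t, chk3 f_pp_001_s t 1 1 1 = true :=
  ⟨(l 4), by decide +kernel⟩

theorem c_pp_001_s : CertNE 0 536870912 0 536870912 1040187392 5207648 3 eng mog cd0q0 cd5q0 pd1 true true true .up 0 0 1
    ndB0q0 ndB5q0 pcB1 cut_pp_001_s Ext.none :=
  certNE0 (fam := true) (s1 := true) (s2 := true) (a := 0) (b := 0) (c := 1) (cn := .up) (n1 := ndB0q0) (n2 := ndB5q0) (pc := pcB1) (cut := cut_pp_001_s) (xt := Ext.none) (P1 := 0) (W1 := 536870912) (P2 := 0) (W2 := 536870912) (P3 := 1040187392) (W3 := 5207648) (N0 := 3) (En := eng) (mo := mog) (C1 := cd0q0) (C2 := cd5q0) (C3 := pd1)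
    rfl k0_pp_001_s

noncomputable def cut_pp_011_s : Cut := Cut.of [[⟨4, 0, 0, 1449551462⟩]]

noncomputable def f_pp_011_s : ℕ → ℕ → ℕ → ℕ → Bool := onCell 0 536870912 536870912 536870912 1040187392 5207648
    (rowNE 3 eng mog cd0q0 cd5q1 pd1 0 true true true .pnn 0 1 1 (qsf 0 536870912 536870912 536870912 1) ndB0q0 ndB5q1 pcB1 cut_pp_011_s Ext.none)

def k0_pp_011_s : ∃ t, chk3 f_pp_011_s t 1 1 1 = true :=
  ⟨(l 4), by decide +kernel⟩

theorem c_pp_011_s : CertNE 0 536870912 536870912 536870912 1040187392 5207648 3 eng mog cd0q0 cd5q1 pd1 true true true .pnn 0 1 1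
    ndB0q0 ndB5q1 pcB1 cut_pp_011_s Ext.none :=
  certNE0 (fam := true) (s1 := true) (s2 := true) (a := 0) (b := 1) (c := 1) (cn := .pnn) (n1 := ndB0q0) (n2 := ndB5q1) (pc := pcB1) (cut := cut_pp_011_s) (xt := Ext.none) (P1 := 0) (W1 := 536870912) (P2 := 536870912) (W2 := 536870912) (P3 := 1040187392) (W3 := 5207648) (N0 := 3) (En := eng) (mo := mog) (C1 := cd0q0) (C2 := cd5q1) (C3 := pd1)
    rfl k0_pp_011_s

noncomputable def cut_pp_012_s : Cut := Cut.of [[⟨4, 0, 0, 1449551462⟩]]

noncomputable def f_pp_012_s : ℕ → ℕ → ℕ → ℕ → Bool := onCell 0 536870912 536870912 536870912 1040187392 5207648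
    (rowNE 3 eng mog cd0q0 cd5q1 pd2 0 true true true .pnp 0 1 2 (qsf 0 536870912 536870912 536870912 2) ndB0q0 ndB5q1 pcB2 cut_pp_012_s Ext.none)

def k0_pp_012_s : ∃ t, chk3 f_pp_012_s t 1 1 1 = true :=
  ⟨(l 4), by decide +kernel⟩

theorem c_pp_012_s : CertNE 0 536870912 536870912 536870912 1040187392 5207648 3 eng mog cd0q0 cd5q1 pd2 true true true .pnp 0 1 2
    ndB0q0 ndB5q1 pcB2 cut_pp_012_s Ext.none :=
  certNE0 (fam := true) (s1 := true) (s2 := true) (a := 0) (b := 1) (c := 2) (cn := .pnp) (n1 := ndB0q0) (n2 := ndB5q1) (pc := pcB2) (cut := cut_pp_012_s) (xt := Ext.none) (P1 := 0) (W1 := 536870912) (P2 := 536870912) (W2 := 536870912) (P3 := 1040187392) (W3 := 5207648) (N0 := 3) (En := eng) (mo := mog) (C1 := cd0q0) (C2 := cd5q1) (C3 := pd2)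
    rfl k0_pp_012_s

noncomputable def cut_pp_022_s : Cut := Cut.of [[⟨4, 0, 0, 1449551462⟩]]

noncomputable def f_pp_022_s : ℕ → ℕ → ℕ → ℕ → Bool := onCell 0 536870912 1073741824 536870912 1040187392 5207648
    (rowNE 3 eng mog cd0q0 cd5q2 pd2 0 true true true .pp 0 2 2 (qsf 0 536870912 1073741824 536870912 2) ndB0q0 ndB5q2 pcB2 cut_pp_022_s Ext.none)

def k0_pp_022_s : ∃ t, chk3 f_pp_022_s t 1 1 1 = true :=
  ⟨(l 4), by decide +kernel⟩

theorem c_pp_022_s : CertNE 0 536870912 1073741824 536870912 1040187392 5207648 3 eng mog cd0q0 cd5q2 pd2 true true true .pp 0 2 2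
    ndB0q0 ndB5q2 pcB2 cut_pp_022_s Ext.none :=
  certNE0 (fam := true) (s1 := true) (s2 := true) (a := 0) (b := 2) (c := 2) (cn := .pp) (n1 := ndB0q0) (n2 := ndB5q2) (pc := pcB2) (cut := cut_pp_022_s) (xt := Ext.none) (P1 := 0) (W1 := 536870912) (P2 := 1073741824) (W2 := 536870912) (P3 := 1040187392) (W3 := 5207648) (N0 := 3) (En := eng) (mo := mog) (C1 := cd0q0) (C2 := cd5q2) (C3 := pd2)
    rfl k0_pp_022_s

noncomputable def cut_pp_023_s : Cut := Cut.of [[⟨4, 0, 0, 1449551462⟩]]

noncomputable def f_pp_023_s : ℕ → ℕ → ℕ → ℕ → Bool := onCell 0 536870912 1073741824 536870912 1040187392 5207648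
    (rowNE 3 eng mog cd0q0 cd5q2 pd3 0 true true true .up 0 2 3 (qsf 0 536870912 1073741824 536870912 3) ndB0q0 ndB5q2 pcB3 cut_pp_023_s Ext.none)

def k0_pp_023_s : ∃ t, chk3 f_pp_023_s t 1 1 1 = true :=
  ⟨(l 4), by decide +kernel⟩

theorem c_pp_023_s : CertNE 0 536870912 1073741824 536870912 1040187392 5207648 3 eng mog cd0q0 cd5q2 pd3 true true true .up 0 2 3
    ndB0q0 ndB5q2 pcB3 cut_pp_023_s Ext.none :=
  certNE0 (fam := true) (s1 := true) (s2 := true) (a := 0) (b := 2) (c := 3) (cn := .up) (n1 := ndB0q0) (n2 := ndB5q2) (pc := pcB3) (cut := cut_pp_023_s) (xt := Ext.none) (P1 := 0) (W1 := 536870912) (P2 := 1073741824) (W2 := 536870912) (P3 := 1040187392) (W3 := 5207648) (N0 := 3) (En := eng) (mo := mog) (C1 := cd0q0) (C2 := cd5q2) (C3 := pd3)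
    rfl k0_pp_023_s

noncomputable def cut_pp_033_s : Cut := Cut.of [[⟨4, 0, 0, 1449551462⟩]]

noncomputable def f_pp_033_s : ℕ → ℕ → ℕ → ℕ → Bool := onCell 0 536870912 0 1230186008 1040187392 5207648
    (rowNE 3 eng mog cd0q0 cd5q3 pd3 0 true true true .pnn 0 3 3 (qsf 0 536870912 0 1230186008 3) ndB0q0 ndB5q3 pcB3 cut_pp_033_s Ext.none)

def k0_pp_033_s : ∃ t, chk3 f_pp_033_s t 1 1 1 = true :=
  ⟨(l 4), by decide +kernel⟩

theorem c_pp_033_s : CertNE 0 536870912 0 1230186008 1040187392 5207648 3 eng mog cd0q0 cd5q3 pd3 true true true .pnn 0 3 3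
    ndB0q0 ndB5q3 pcB3 cut_pp_033_s Ext.none :=
  certNE0 (fam := true) (s1 := true) (s2 := true) (a := 0) (b := 3) (c := 3) (cn := .pnn) (n1 := ndB0q0) (n2 := ndB5q3) (pc := pcB3) (cut := cut_pp_033_s) (xt := Ext.none) (P1 := 0) (W1 := 536870912) (P2 := 0) (W2 := 1230186008) (P3 := 1040187392) (W3 := 5207648) (N0 := 3) (En := eng) (mo := mog) (C1 := cd0q0) (C2 := cd5q3) (C3 := pd3)
    rfl k0_pp_033_s

noncomputable def cut_pp_101_s : Cut := Cut.of [[⟨4, 0, 0, 1449551462⟩]]

noncomputable def f_pp_101_s : ℕ → ℕ → ℕ → ℕ → Bool := onCell 536870912 536870912 0 536870912 1040187392 5207648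
    (rowNE 3 eng mog cd0q1 cd5q0 pd1 0 true true true .npn 1 0 1 (qsf 536870912 536870912 0 536870912 1) ndB0q1 ndB5q0 pcB1 cut_pp_101_s Ext.none)

def k0_pp_101_s : ∃ t, chk3 f_pp_101_s t 1 1 1 = true :=
  ⟨(l 4), by decide +kernel⟩

theorem c_pp_101_s : CertNE 536870912 536870912 0 536870912 1040187392 5207648 3 eng mog cd0q1 cd5q0 pd1 true true true .npn 1 0 1
    ndB0q1 ndB5q0 pcB1 cut_pp_101_s Ext.none :=
  certNE0 (fam := true) (s1 := true) (s2 := true) (a := 1) (b := 0) (c := 1) (cn := .npn) (n1 := ndB0q1) (n2 := ndB5q0) (pc := pcB1) (cut := cut_pp_101_s) (xt := Ext.none) (P1 := 536870912) (W1 := 536870912) (P2 := 0) (W2 := 536870912) (P3 := 1040187392) (W3 := 5207648) (N0 := 3) (En := eng) (mo := mog) (C1 := cd0q1) (C2 := cd5q0) (C3 := pd1)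
    rfl k0_pp_101_s

noncomputable def cut_pp_102_s : Cut := Cut.of [[⟨4, 0, 0, 1449551462⟩]]

noncomputable def f_pp_102_s : ℕ → ℕ → ℕ → ℕ → Bool := onCell 536870912 536870912 0 536870912 1040187392 5207648
    (rowNE 3 eng mog cd0q1 cd5q0 pd2 0 true true true .npp 1 0 2 (qsf 536870912 536870912 0 536870912 2) ndB0q1 ndB5q0 pcB2 cut_pp_102_s Ext.none)

def k0_pp_102_s : ∃ t, chk3 f_pp_102_s t 1 1 1 = true :=
  ⟨(l 4), by decide +kernel⟩

theorem c_pp_102_s : CertNE 536870912 536870912 0 536870912 1040187392 5207648 3 eng mog cd0q1 cd5q0 pd2 true true true .npp 1 0 2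
    ndB0q1 ndB5q0 pcB2 cut_pp_102_s Ext.none :=
  certNE0 (fam := true) (s1 := true) (s2 := true) (a := 1) (b := 0) (c := 2) (cn := .npp) (n1 := ndB0q1) (n2 := ndB5q0) (pc := pcB2) (cut := cut_pp_102_s) (xt := Ext.none) (P1 := 536870912) (W1 := 536870912) (P2 := 0) (W2 := 536870912) (P3 := 1040187392) (W3 := 5207648) (N0 := 3) (En := eng) (mo := mog) (C1 := cd0q1) (C2 := cd5q0) (C3 := pd2)
    rfl k0_pp_102_s

noncomputable def cut_pp_112_s : Cut := Cut.of [[⟨4, 0, 0, 1449551462⟩]]

noncomputable def f_pp_112_s : ℕ → ℕ → ℕ → ℕ → Bool := onCell 536870912 536870912 536870912 536870912 1040187392 5207648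
    (rowNE 3 eng mog cd0q1 cd5q1 pd2 0 true true true .dn 1 1 2 (qsf 536870912 536870912 536870912 536870912 2) ndB0q1 ndB5q1 pcB2 cut_pp_112_s Ext.none)

def k0_pp_112_s : ∃ t, chk3 f_pp_112_s t 1 1 1 = true :=
  ⟨(l 4), by decide +kernel⟩

theorem c_pp_112_s : CertNE 536870912 536870912 536870912 536870912 1040187392 5207648 3 eng mog cd0q1 cd5q1 pd2 true true true .dn 1 1 2
    ndB0q1 ndB5q1 pcB2 cut_pp_112_s Ext.none :=
  certNE0 (fam := true) (s1 := true) (s2 := true) (a := 1) (b := 1) (c := 2) (cn := .dn) (n1 := ndB0q1) (n2 := ndB5q1) (pc := pcB2) (cut := cut_pp_112_s) (xt := Ext.none) (P1 := 536870912) (W1 := 536870912) (P2 := 536870912) (W2 := 536870912) (P3 := 1040187392) (W3 := 5207648) (N0 := 3) (En := eng) (mo := mog) (C1 := cd0q1) (C2 := cd5q1) (C3 := pd2)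
    rfl k0_pp_112_s

noncomputable def cut_pp_113_s : Cut := Cut.of [[⟨4, 0, 0, 1449551462⟩]]

noncomputable def f_pp_113_s : ℕ → ℕ → ℕ → ℕ → Bool := onCell 536870912 536870912 536870912 536870912 1040187392 5207648
    (rowNE 3 eng mog cd0q1 cd5q1 pd3 0 true true true .nn 1 1 3 (qsf 536870912 536870912 536870912 536870912 3) ndB0q1 ndB5q1 pcB3 cut_pp_113_s Ext.none)

def k0_pp_113_s : ∃ t, chk3 f_pp_113_s t 1 1 1 = true :=
  ⟨(l 4), by decide +kernel⟩

theorem c_pp_113_s : CertNE 536870912 536870912 536870912 536870912 1040187392 5207648 3 eng mog cd0q1 cd5q1 pd3 true true true .nn 1 1 3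
    ndB0q1 ndB5q1 pcB3 cut_pp_113_s Ext.none :=
  certNE0 (fam := true) (s1 := true) (s2 := true) (a := 1) (b := 1) (c := 3) (cn := .nn) (n1 := ndB0q1) (n2 := ndB5q1) (pc := pcB3) (cut := cut_pp_113_s) (xt := Ext.none) (P1 := 536870912) (W1 := 536870912) (P2 := 536870912) (W2 := 536870912) (P3 := 1040187392) (W3 := 5207648) (N0 := 3) (En := eng) (mo := mog) (C1 := cd0q1) (C2 := cd5q1) (C3 := pd3)
    rfl k0_pp_113_s

noncomputable def cut_pp_123_s : Cut := Cut.of [[⟨4, 0, 0, 1449551462⟩]]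

noncomputable def f_pp_123_s : ℕ → ℕ → ℕ → ℕ → Bool := onCell 536870912 536870912 1073741824 536870912 1040187392 5207648
    (rowNE 3 eng mog cd0q1 cd5q2 pd3 0 true true true .npn 1 2 3 (qsf 536870912 536870912 1073741824 536870912 3) ndB0q1 ndB5q2 pcB3 cut_pp_123_s Ext.none)

def k0_pp_123_s : ∃ t, chk3 f_pp_123_s t 1 1 1 = true :=
  ⟨(l 4), by decide +kernel⟩

theorem c_pp_123_s : CertNE 536870912 536870912 1073741824 536870912 1040187392 5207648 3 eng mog cd0q1 cd5q2 pd3 true true true .npn 1 2 3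
    ndB0q1 ndB5q2 pcB3 cut_pp_123_s Ext.none :=
  certNE0 (fam := true) (s1 := true) (s2 := true) (a := 1) (b := 2) (c := 3) (cn := .npn) (n1 := ndB0q1) (n2 := ndB5q2) (pc := pcB3) (cut := cut_pp_123_s) (xt := Ext.none) (P1 := 536870912) (W1 := 536870912) (P2 := 1073741824) (W2 := 536870912) (P3 := 1040187392) (W3 := 5207648) (N0 := 3) (En := eng) (mo := mog) (C1 := cd0q1) (C2 := cd5q2) (C3 := pd3)
    rfl k0_pp_123_s

noncomputable def cut_pp_133_s : Cut := Cut.of [[⟨4, 0, 0, 1449551462⟩]]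

noncomputable def f_pp_133_s : ℕ → ℕ → ℕ → ℕ → Bool := onCell 536870912 536870912 0 1230186008 1040187392 5207648
    (rowNE 3 eng mog cd0q1 cd5q3 pd3 0 true true true .dn 1 3 3 (qsf 536870912 536870912 0 1230186008 3) ndB0q1 ndB5q3 pcB3 cut_pp_133_s Ext.none)

def k0_pp_133_s : ∃ t, chk3 f_pp_133_s t 1 1 1 = true :=
  ⟨(l 4), by decide +kernel⟩

theorem c_pp_133_s : CertNE 536870912 536870912 0 1230186008 1040187392 5207648 3 eng mog cd0q1 cd5q3 pd3 true true true .dn 1 3 3
    ndB0q1 ndB5q3 pcB3 cut_pp_133_s Ext.none :=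
  certNE0 (fam := true) (s1 := true) (s2 := true) (a := 1) (b := 3) (c := 3) (cn := .dn) (n1 := ndB0q1) (n2 := ndB5q3) (pc := pcB3) (cut := cut_pp_133_s) (xt := Ext.none) (P1 := 536870912) (W1 := 536870912) (P2 := 0) (W2 := 1230186008) (P3 := 1040187392) (W3 := 5207648) (N0 := 3) (En := eng) (mo := mog) (C1 := cd0q1) (C2 := cd5q3) (C3 := pd3)
    rfl k0_pp_133_s

noncomputable def cut_pp_202_s : Cut := Cut.of [[⟨4, 0, 0, 1449551462⟩]]

noncomputable def f_pp_202_s : ℕ → ℕ → ℕ → ℕ → Bool := onCell 0 536870912 0 536870912 1040187392 5207648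
    (rowNE 3 eng mog cd0q2 cd5q0 pd2 0 true true true .pp 2 0 2 (qsf 0 536870912 0 536870912 2) ndB0q2 ndB5q0 pcB2 cut_pp_202_s Ext.none)

def k0_pp_202_s : ∃ t, chk3 f_pp_202_s t 1 1 1 = true :=
  ⟨(l 4), by decide +kernel⟩

theorem c_pp_202_s : CertNE 0 536870912 0 536870912 1040187392 5207648 3 eng mog cd0q2 cd5q0 pd2 true true true .pp 2 0 2
    ndB0q2 ndB5q0 pcB2 cut_pp_202_s Ext.none :=
  certNE0 (fam := true) (s1 := true) (s2 := true) (a := 2) (b := 0) (c := 2) (cn := .pp) (n1 := ndB0q2) (n2 := ndB5q0) (pc := pcB2) (cut := cut_pp_202_s) (xt := Ext.none) (P1 := 0) (W1 := 536870912) (P2 := 0) (W2 := 536870912) (P3 := 1040187392) (W3 := 5207648) (N0 := 3) (En := eng) (mo := mog) (C1 := cd0q2) (C2 := cd5q0) (C3 := pd2)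
    rfl k0_pp_202_s

noncomputable def cut_pp_203_s : Cut := Cut.of [[⟨4, 0, 0, 1449551462⟩]]

noncomputable def f_pp_203_s : ℕ → ℕ → ℕ → ℕ → Bool := onCell 0 536870912 0 536870912 1040187392 5207648
    (rowNE 3 eng mog cd0q2 cd5q0 pd3 0 true true true .up 2 0 3 (qsf 0 536870912 0 536870912 3) ndB0q2 ndB5q0 pcB3 cut_pp_203_s Ext.none)

def k0_pp_203_s : ∃ t, chk3 f_pp_203_s t 1 1 1 = true :=
  ⟨(l 4), by decide +kernel⟩

theorem c_pp_203_s : CertNE 0 536870912 0 536870912 1040187392 5207648 3 eng mog cd0q2 cd5q0 pd3 true true true .up 2 0 3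
    ndB0q2 ndB5q0 pcB3 cut_pp_203_s Ext.none :=
  certNE0 (fam := true) (s1 := true) (s2 := true) (a := 2) (b := 0) (c := 3) (cn := .up) (n1 := ndB0q2) (n2 := ndB5q0) (pc := pcB3) (cut := cut_pp_203_s) (xt := Ext.none) (P1 := 0) (W1 := 536870912) (P2 := 0) (W2 := 536870912) (P3 := 1040187392) (W3 := 5207648) (N0 := 3) (En := eng) (mo := mog) (C1 := cd0q2) (C2 := cd5q0) (C3 := pd3)
    rfl k0_pp_203_s

noncomputable def cut_pp_213_s : Cut := Cut.of [[⟨4, 0, 0, 1449551462⟩]]

noncomputable def f_pp_213_s : ℕ → ℕ → ℕ → ℕ → Bool := onCell 0 536870912 536870912 536870912 1040187392 5207648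
    (rowNE 3 eng mog cd0q2 cd5q1 pd3 0 true true true .pnn 2 1 3 (qsf 0 536870912 536870912 536870912 3) ndB0q2 ndB5q1 pcB3 cut_pp_213_s Ext.none)

def k0_pp_213_s : ∃ t, chk3 f_pp_213_s t 1 1 1 = true :=
  ⟨(l 4), by decide +kernel⟩

theorem c_pp_213_s : CertNE 0 536870912 536870912 536870912 1040187392 5207648 3 eng mog cd0q2 cd5q1 pd3 true true true .pnn 2 1 3
    ndB0q2 ndB5q1 pcB3 cut_pp_213_s Ext.none :=
  certNE0 (fam := true) (s1 := true) (s2 := true) (a := 2) (b := 1) (c := 3) (cn := .pnn) (n1 := ndB0q2) (n2 := ndB5q1) (pc := pcB3) (cut := cut_pp_213_s) (xt := Ext.none) (P1 := 0) (W1 := 536870912) (P2 := 536870912) (W2 := 536870912) (P3 := 1040187392) (W3 := 5207648) (N0 := 3) (En := eng) (mo := mog) (C1 := cd0q2) (C2 := cd5q1) (C3 := pd3)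
    rfl k0_pp_213_s

noncomputable def cut_pm_001_s : Cut := Cut.of [[⟨4, 0, 0, 1449551462⟩]]

noncomputable def f_pm_001_s : ℕ → ℕ → ℕ → ℕ → Bool := onCell 0 536870912 536870912 536870912 1040187392 5207648
    (rowNE 3 eng mog cd0q0 cd5q0 pd1 1 true true false .up 0 0 1 (qsf 0 536870912 0 536870912 1) ndB0q0 ndB5q0 pcB1 cut_pm_001_s Ext.none)

def k0_pm_001_s : ∃ t, chk3 f_pm_001_s t 1 1 1 = true :=
  ⟨(a (b (l 3) (b (b (l 3) (l 2)) (l 2))) (b (b (l 3) (a (l 3) (b (a (l 3) (b (a (l 3) (b (l 3) (l 559050304951))) (a (b (l 3) (l 556365959527)) (b (l 299204725431) (l 16736072))))) (a (b (a (l 3) (b (l 3) (a (l 3) (l 16724968)))) (a (b (l 635285926935) (l 324437599111)) (b (l 297594126167) (l 16735368)))) (b (a (b (l 299204730375) (l 16747248)) (l 16718832)) (a (l 16704192) (l 16640944))))))) (b (a (b (a (b (l 3) (a (l 3) (b (l 3) (a (l 3) (l 616495498439))))) (b (a (l 3) (b (l 618642957479) (l 322290141351))) (a (b (a (l 637970303047) (l 16712704)) (l 279340484919))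 (b (l 16738312) (l 16706232))))) (a (a (l 2) (b (b (l 211090699943) (l 2)) (l 2))) (b (a (b (l 16722424) (l 16690520)) (l 16636264)) (a (l 207869256615) (l 16595120))))) (b (a (b (a (b (l 16731624) (l 16721496)) (l 16709680)) (a (l 16672824) (l 16624768))) (b (a (l 16621712) (l 16597632)) (a (l 16576656) (l 16528152)))) (a (b (a (l 16608680) (l 16559136)) (a (l 16545568) (l 16493840))) (b (l 16479408) (l 16408536))))) (b (a (b (a (l 2) (a (l 2) (l 16536496))) (l 2)) (b (a (a (l 16485232) (l 16430704)) (l 16339064)) (a (a (l 16380672) (l 16327616)) (l 16249984)))) (a (l 2) (b (a (a (l 2) (l 16207584)) (l 16120600)) (a (l 2) (l 176192569927)))))))), by decide +kernel⟩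

theorem c_pm_001_s : CertNE 0 536870912 0 536870912 1040187392 5207648 3 eng mog cd0q0 cd5q0 pd1 true true false .up 0 0 1
    ndB0q0 ndB5q0 pcB1 cut_pm_001_s Ext.none :=
  certNE1 (fam := true) (s1 := true) (s2 := false) (a := 0) (b := 0) (c := 1) (cn := .up) (n1 := ndB0q0) (n2 := ndB5q0) (pc := pcB1) (cut := cut_pm_001_s) (xt := Ext.none) (P1 := 0) (W1 := 536870912) (P2 := 0) (W2 := 536870912) (P3 := 1040187392) (W3 := 5207648) (N0 := 3) (En := eng) (mo := mog) (C1 := cd0q0) (C2 := cd5q0) (C3 := pd1)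
    rfl (fun _ => rfl) k0_pm_001_s

noncomputable def cut_pm_011_s : Cut := Cut.of [[⟨4, 0, 0, 1449551462⟩], [⟨0, 0, 0, 22369621⟩, ⟨1, 1, 0, 22369621⟩, ⟨2, 1, 0, 22369621⟩]]

noncomputable def f_pm_011_s : ℕ → ℕ → ℕ → ℕ → Bool := onCell 0 536870912 536870912 536870912 1040187392 5207648
    (rowNE 3 eng mog cd0q0 cd5q1 pd1 1 true true false .pnn 0 1 1 (qsf 0 536870912 536870912 536870912 1) ndB0q0 ndB5q1 pcB1 cut_pm_011_s Ext.none)

def k0_pm_011_s : ∃ t, chk3 f_pm_011_s t 1 2 1 = true :=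
  ⟨(a (l 3) (b (l 1) (a (l 3) (l 1)))), by decide +kernel⟩

def k1_pm_011_s : ∃ t, chk3 f_pm_011_s t 2 6 1 = true :=
  ⟨(a (l 3) (b (l 3) (a (l 3) (b (l 3) (a (b (l 3) (a (l 3) (l 741586318887))) (b (a (l 3) (l 615421760967)) (a (l 290614686407) (l 16755608)))))))), by decide +kernel⟩

def k2_pm_011_s : ∃ t, chk3 f_pm_011_s t 4 14 1 = true :=
  ⟨(a (l 3) (b (l 3) (a (l 3) (b (l 3) (a (l 3) (b (l 3) (a (b (l 3) (a (l 3) (l 709911053975))) (b (l 800642225975) (l 309942182375))))))))), by decide +kernel⟩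

def k3_pm_011_s : ∃ t, chk3 f_pm_011_s t 8 30 1 = true :=
  ⟨(a (l 3) (b (l 3) (a (l 3) (b (l 3) (a (l 3) (b (l 3) (a (l 3) (b (l 3) (a (b (l 3) (b (l 3) (a (l 3) (a (l 788831128071) (b (l 753934526983) (l 16776784)))))) (b (a (l 3) (b (l 833928270551) (a (l 752860787495) (l 218674214983)))) (a (b (a (l 770577519703) (b (l 729238467575) (l 16776656))) (l 16775960)) (l 86067103367)))))))))))), by decide +kernel⟩

def k4_pm_011_s : ∃ t, chk3 f_pm_011_s t 16 62 1 = true :=
  ⟨(a (l 3) (b (l 3) (a (l 3) (b (l 3) (a (l 3) (b (l 3) (a (l 3) (b (l 3) (a (l 3) (b (l 3) (a (b (l 3) (b (l 3) (b (l 904258387495) (a (l 3) (a (l 377051152535) (l 16777064)))))) (b (a (l 3) (a (l 885467905015) (b (l 981030922279) (l 230485393143)))) (b (a (a (l 838760134071) (a (l 352891961303) (l 16777088))) (l 16771600)) (l 16774040)))))))))))))), by decide +kernel⟩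

def k5_pm_011_s : ∃ t, chk3 f_pm_011_s t 32 63 1 = true :=
  ⟨(b (a (l 3) (b (l 3) (a (l 3) (b (l 3) (a (l 3) (b (l 3) (a (l 3) (b (l 3) (a (l 3) (a (l 3) (b (l 3) (b (l 3) (b (b (l 925733224631) (a (l 3) (l 430201372791))) (a (a (l 3) (l 419463954567)) (l 16777120))))))))))))))) (a (l 14) (a (l 14) (b (b (a (b (b (l 3) (b (l 3) (l 14))) (l 14)) (b (a (b (a (l 3) (a (l 3) (b (l 3) (b (l 3) (a (c (l 802789785783) (l 806011011255)) (b (a (l 3) (l 544018006167)) (l 16777152))))))) (a (b (b (l 3) (a (l 3) (a (l 846276329655) (b (c (l 640117899495) (l 642265383143)) (l 231022264199))))) (b (a (b (l 842518233287) (a (l 14) (l 217063620519))) (a (l 154786594535) (l 16774264))) (a (a (l 14) (l 16774272)) (l 16776600)))) (b (a (a (b (l 825875234343) (l 138143596263)) (b (b (a (l 3) (l 585893937303)) (l 16777160)) (l 16776872))) (a (b (l 64592281383) (l 16776680)) (l 16774056))) (l 16773576)))) (b (a (b (b (l 3) (a (l 3) (a (a (l 3) (l 743733985415)) (b (a (l 3) (l 486035947655))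 (l 16777136))))) (b (a (a (c (l 795810463911) (l 798494818471)) (b (a (l 3) (l 501605204119)) (l 16777144))) (l 16776952)) (a (l 16776960) (l 16776560)))) (b (b (a (a (a (l 3) (l 734070308983)) (b (a (l 3) (l 442012532871)) (l 16777128))) (l 16776928)) (l 16776744)) (l 16770920))) (a (l 16773176) (l 16769776)))) (a (b (a (l 16773208) (l 16769808)) (l 16768664)) (l 16767872)))) (a (l 14) (b (l 16765624) (l 14)))) (l 14))))), by decide +kernel⟩

def k6_pm_011_s : ∃ t, chk3 f_pm_011_s t 66 252 1 = true :=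
  ⟨(a (l 3) (b (l 3) (a (l 3) (b (l 3) (a (l 3) (b (l 3) (a (l 3) (b (l 3) (a (c (l 921438256615) (l 910700837911)) (b (l 835538910295) (l 16776960))))))))))), by decide +kernel⟩

def k7_pm_011_s : ∃ t, chk3 f_pm_011_s t 66 506 1 = true :=
  ⟨(a (a (l 3) (b (l 3) (a (l 3) (b (l 3) (a (l 3) (b (l 3) (b (l 1050824146871) (a (l 868824907991) (b (a (l 571935293687) (l 16777152)) (l 16777056)))))))))) (a (b (a (l 3) (b (l 3) (a (l 3) (b (l 3) (a (l 993378956279) (b (l 935933770007) (b (a (l 386177958007) (l 16771816)) (l 16771720)))))))) (a (b (a (l 3) (a (l 1059414078055) (b (l 3) (b (l 990157732647) (b (a (l 443086273463) (l 16777104)) (l 16777016)))))) (a (b (b (l 1045992307623) (a (l 1032570535447) (b (a (l 590188904615) (l 16777128)) (l 16777040)))) (b (b (a (a (l 550997328103) (l 16777144)) (l 16776848)) (l 16776848)) (l 16771320))) (b (b (b (a (a (l 526838137015) (l 16777120)) (l 16776824)) (l 16776824)) (l 16771296)) (l 16770720)))) (b (a (a (b (l 1014316922423)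 (b (b (a (l 419463953319) (l 16777096)) (l 16777000)) (l 16776712))) (b (b (l 962777315815) (b (a (l 375440538535) (l 16777080)) (l 16776992))) (l 16771264))) (b (a (a (b (b (l 391009796247) (l 16777080)) (l 16776792)) (l 16774160)) (l 16771240)) (l 16770672))) (l 16772544)))) (b (a (a (b (l 3) (a (b (l 973514734743) (a (b (b (l 772188143063) (l 16777056)) (l 16776768)) (l 16771512))) (b (b (l 910163966135) (b (a (l 293836161143) (l 16777032)) (l 16771696))) (l 16771216)))) (b (b (l 3) (a (l 954187381607) (b (l 884394162359) (l 130627403367)))) (b (a (a (b (b (l 226727297159) (l 16777024)) (l 16776736)) (l 16771488)) (l 16771192)) (l 16775872)))) (b (a (b (a (c (l 940765609623) (l 928417576663)) (b (l 860234971415) (l 16776984))) (a (a (l 69960990183) (l 16771464)) (l 16771168))) (b (a (l 16776784) (l 16771144)) (l 16775816))) (l 16769824))) (a (b (l 16769880) (l 16773600)) (l 16762312))))), by decide +kernel⟩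

def k8_pm_011_s : ∃ t, chk3 f_pm_011_s t 264 507 1 = true :=
  ⟨(b (a (l 3) (b (l 3) (a (l 3) (a (l 3) (b (l 3) (b (l 3) (b (a (l 3) (l 275045677943)) (a (l 293836159863) (l 16771800))))))))) (a (b (a (l 3) (a (l 3) (b (l 3) (b (l 3) (a (a (l 844128845991) (b (l 3) (l 16777224))) (a (b (l 649781575847) (l 16777136)) (l 16777128))))))) (a (a (b (l 3) (b (a (a (l 919827644599) (b (l 3) (l 402284085367))) (b (a (l 762524467383) (l 379198636151)) (l 16777112))) (l 16776920))) (b (b (l 3) (a (a (l 901037162663) (b (l 3) (l 356650057847))) (b (a (l 716353568951) (l 333564608631)) (l 16777104)))) (l 252497093911))) (a (b (b (a (a (l 873119875239) (b (l 3) (l 337322704999))) (b (a (l 669645799607) (l 16777224)) (l 16777096))) (l 16776904)) (l 16771080)) (l 16775008)))) (b (a (a (b (l 3) (b (b (a (l 3) (a (l 601463193767) (l 16777216))) (a (a (l 625622384807) (l 16777224)) (l 16777072))) (l 16774264))) (b (b (l 3) (b (a (l 3) (a (l 580525228183) (l 16777208))) (a (a (l 577304002727)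 (l 16777216)) (l 16777064)))) (l 16774064))) (a (b (b (b (a (l 3) (l 311016029047)) (a (a (l 555829166231) (l 16777200)) (l 16771816))) (l 16774248)) (l 16776288)) (l 16773656))) (l 16772712)))), by decide +kernel⟩

def k9_pm_011_s : ∃ t, chk3 f_pm_011_s t 265 507 1 = true :=
  ⟨(b (a (b (a (l 3) (b (l 3) (a (b (l 3) (l 908553355543)) (b (l 888689131799) (b (a (l 713669214471) (l 16777192)) (a (l 160692174983) (l 16777008))))))) (a (a (b (l 3) (b (b (a (l 3) (l 257865808743)) (a (l 256255196023) (l 16777032))) (l 16771600))) (b (b (l 917680161063) (b (a (l 3) (l 219211103079)) (a (l 238538455911) (l 16777024)))) (l 16774024))) (a (b (b (b (a (l 752860791047) (l 220821717095)) (a (l 219747975287) (l 16777016))) (l 16771584)) (l 16776248)) (l 16773616)))) (b (a (a (b (b (l 3) (l 879025455367)) (b (b (a (l 694341861623) (l 16777184)) (l 16777176)) (l 16771560))) (b (a (b (l 3) (b (l 715816698055) (l 16777176))) (b (l 845202587831) (l 16777080))) (l 16771360))) (b (b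 (b (a (a (l 633675448551) (l 16777160)) (l 16776864)) (l 16776872)) (l 16771344)) (l 16770768))) (l 16772632))) (a (b (l 16772672) (l 16773776)) (l 16767736))), by decide +kernel⟩

def k10_pm_011_s : ∃ t, chk3 f_pm_011_s t 133 507 1 = true :=
  ⟨(a (b (a (b (l 16772592) (l 16773688)) (l 16762408)) (l 16760176)) (b (l 16760088) (l 16767608))), by decide +kernel⟩

def k11_pm_011_s : ∃ t, chk3 f_pm_011_s t 134 252 1 = true :=
  ⟨(b (a (l 3) (b (l 3) (a (l 3) (b (l 3) (a (b (l 3) (a (l 3) (l 976199086439))) (b (a (l 3) (l 957408607479)) (b (a (l 943986830135) (b (a (l 509121396903) (l 16777104)) (l 16777016))) (b (a (a (l 486572818663) (l 16777120)) (l 16776824)) (l 16776832))))))))) (a (b (a (l 3) (b (l 3) (a (l 3) (b (l 3) (b (b (l 920364513015) (a (l 3) (a (l 754471403079) (l 16777032)))) (a (b (l 860234971223) (a (l 318532223127) (l 16777048))) (l 16771608))))))) (a (b (a (l 3) (b (l 3) (b (a (l 3) (c (l 787220528295) (l 785609915207))) (a (c (l 799568559143) (l 797421075079))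 (l 16776904))))) (a (b (b (a (l 3) (l 811379719495)) (a (l 823727750343) (l 16776928))) (l 16775248)) (l 116131881767))) (b (a (b (b (b (l 941302478375) (a (l 3) (a (l 311552900007) (l 16777064)))) (a (c (l 775409368375) (l 774872497191)) (l 16774256))) (l 16773880)) (l 16773472)) (l 16769720)))) (b (a (b (a (b (l 3) (l 1017538148167)) (b (a (l 3) (l 996063309927)) (a (a (l 890836613351) (b (l 988010245879) (l 16777088))) (a (b (l 793126108647) (l 16776888)) (l 16776880))))) (a (b (b (b (l 899426549047) (a (l 1022906854791) (l 212231782103))) (a (a (l 853792521767) (b (l 184314495127) (l 16777024))) (l 16771576))) (l 16773824)) (l 16773408))) (b (a (b (b (a (l 970293504439) (a (l 751250177463) (l 16777040))) (b (a (a (l 579988357367) (l 16777152)) (l 16776856)) (l 16776864))) (l 16773760)) (l 16773344)) (l 16769592))) (a (l 16771520) (l 16762064))))), by decide +kernel⟩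

def k12_pm_011_s : ∃ t, chk3 f_pm_011_s t 135 252 1 = true :=
  ⟨(b (a (b (a (l 3) (b (l 3) (a (a (l 3) (b (l 3) (a (l 994452691927) (l 882246679159)))) (a (b (l 3) (b (l 841981361559) (l 125258694199))) (b (a (l 972440985047) (l 860771843255)) (l 16776792)))))) (a (b (a (b (l 3) (a (l 3) (l 938618125959))) (b (a (l 3) (c (l 924659480791) (l 913385192823))) (a (b (l 892447223527) (b (a (l 803326656215) (l 16777056)) (l 16771728))) (a (b (l 213305524039) (l 16776760)) (l 16771512))))) (a (b (b (a (l 918217026807) (b (a (l 511805751367) (l 16777072)) (l 16776984))) (b (a (a (l 410874020039) (l 16777088)) (l 16776792)) (l 16776800))) (l 16771080)) (l 16773288))) (b (a (b (b (a (l 867214293847) (l 144586047047)) (l 339470186551)) (l 16771016)) (l 16773216)) (l 16769464)))) (b (a (b (a (a (l 3) (b (l 3) (b (l 3) (l 804937268279)))) (b (a (l 3) (b (l 3) (c (l 780241206471) (l 779167463735)))) (a (b (l 792589237623) (l 16776928)) (l 16774104)))) (a (a (b (b (l 817285298919)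 (l 16776960)) (l 16771144)) (l 117205624055)) (l 16770528))) (b (a (b (b (a (a (l 872046129927) (a (l 382419858583) (l 16777128))) (l 16774256)) (l 16774072)) (l 16770880)) (l 16770464)) (l 16769328))) (a (l 16771248) (l 16761776)))) (a (b (a (l 16771384) (l 16761912)) (l 16759656)) (l 16763200))), by decide +kernel⟩

def k13_pm_011_s : ∃ t, chk3 f_pm_011_s t 67 253 1 = true :=
  ⟨(a (b (a (b (a (l 16771640) (l 16762208)) (l 16759992)) (b (l 16759856) (l 16767376))) (a (l 16745080) (l 16763024))) (b (a (l 16744704) (l 16762424)) (l 16737328))), by decide +kernel⟩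

def k14_pm_011_s : ∃ t, chk3 f_pm_011_s t 33 127 1 = true :=
  ⟨(a (b (a (b (a (b (a (b (l 16773408) (l 16763360)) (l 16767808)) (l 16765560)) (b (l 16760248) (l 16767760))) (b (l 16761072) (l 16742416))) (b (a (l 16755728) (l 16763224)) (l 16737992))) (b (a (l 16748576) (l 16753360)) (a (l 16753432) (l 16747896)))) (b (a (b (l 16737840) (l 16753240)) (l 16739488)) (b (l 16723984) (l 16718784)))), by decide +kernel⟩

def k15_pm_011_s : ∃ t, chk3 f_pm_011_s t 34 124 1 = true :=
  ⟨(a (l 3) (b (l 3) (a (l 3) (b (l 3) (a (l 3) (b (l 3) (a (b (l 3) (a (b (l 3) (l 859161217287)) (a (a (l 819969653943) (l 778093721927)) (b (l 832317677191) (l 16776864))))) (b (a (b (l 3) (l 832854544919)) (b (l 819969644199) (l 219211088343))) (a (b (a (l 365776846167) (l 16776808)) (l 16765776)) (l 16765344)))))))))), by decide +kernel⟩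

def k16_pm_011_s : ∃ t, chk3 f_pm_011_s t 68 250 1 = true :=
  ⟨(a (l 3) (b (l 3) (a (l 3) (b (l 3) (a (b (l 3) (a (l 3) (b (l 3) (a (l 3) (l 858087485751))))) (b (a (l 3) (b (l 3) (a (l 3) (l 823727749351)))) (a (b (a (l 3) (l 840907617543)) (a (a (l 757155755751) (l 475298528103)) (l 16776816))) (b (a (a (l 737828403895) (l 218674221271)) (l 16776776)) (l 16770976))))))))), by decide +kernel⟩

def k17_pm_011_s : ∃ t, chk3 f_pm_011_s t 136 251 1 = true :=
  ⟨(b (a (l 3) (b (l 3) (a (l 3) (b (l 3) (a (b (l 3) (b (a (l 3) (l 785073044039)) (a (l 796884204983) (l 16776960)))) (b (b (a (l 3) (l 760913853863)) (a (l 772725013495) (l 16776920))) (l 16776552))))))) (a (b (a (l 3) (b (l 3) (a (b (l 3) (a (c (l 937544382535) (l 925733223735)) (b (l 901037156455) (b (a (l 904795258647) (l 16777112)) (l 16777016))))) (a (a (b (l 3) (b (b (l 458118660263) (l 16777104)) (l 16776816))) (b (l 903184645079) (l 16774184))) (b (b (l 875804226999) (b (a (l 388862309991) (l 16777072))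 (l 16776984))) (l 16771264)))))) (a (b (a (b (l 3) (a (l 970293508711) (b (l 954187375271) (a (l 812990332455) (l 16777088))))) (b (a (c (l 956871737335) (l 943449963047)) (a (c (l 844665716151) (l 839833875991)) (b (l 911774576087) (l 16777048)))) (b (b (a (a (l 612200612103) (l 16777168)) (l 16776864)) (l 16776872)) (l 16771344)))) (a (a (a (b (b (b (l 967609151655) (l 357723799559)) (l 16771680)) (l 16776352)) (l 293836157863)) (l 16773616)) (l 16770392))) (b (a (b (b (a (a (l 727090985975) (l 16777032)) (l 16771488)) (l 16771312)) (l 16770736)) (l 16770312)) (l 16769184)))) (b (a (b (a (b (l 3) (b (a (l 3) (l 850034424023)) (a (l 862919325511) (a (a (l 375440534327) (l 16777088)) (l 16771696))))) (b (b (a (l 3) (l 819969653783)) (a (l 837686393463) (l 159081561559))) (a (l 330343381047) (l 16771184)))) (a (a (a (b (l 379735505463) (l 16776208)) (l 16773768)) (l 16773464)) (l 16770240))) (b (b (a (l 236927837623) (l 16775792)) (l 16770184)) (l 16769032))) (a (l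 16768336) (l 16761464))))), by decide +kernel⟩

def k18_pm_011_s : ∃ t, chk3 f_pm_011_s t 137 251 1 = true :=
  ⟨(b (a (b (a (b (l 3) (a (l 3) (b (l 3) (a (l 3) (l 946134306343))))) (b (a (l 3) (b (l 3) (a (l 3) (l 892984098375)))) (a (b (a (l 3) (l 910700837543)) (a (a (l 837149523127) (b (l 911237703959) (l 16777096))) (a (b (b (l 399599718135) (l 16777184)) (l 16776904)) (l 16776888)))) (b (b (a (l 890299737079) (a (l 366313722839) (l 16777040))) (b (l 433959467671) (l 16776864))) (l 16771144))))) (a (b (a (b (l 3) (a (b (l 3) (l 749102693591)) (a (b (l 823727747927) (l 16776984)) (l 377051150919)))) (b (b (b (l 844665715319) (a (l 3) (l 443086273767))) (a (l 720111664263) (l 16771600))) (l 16773848))) (a (l 83919627015) (l 16770088))) (b (a (l 16773432) (l 16770000)) (l 16763632)))) (b (a (b (a (b (a (l 3) (l 875267353975)) (a (b (l 865066805159) (l 217063609927)) (l 226727286903))) (a (b (b (l 840370744151) (l 16772488)) (l 16771264)) (l 16772712))) (l 16772944))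 (b (l 16770232) (l 16773944))) (l 16767200))) (a (b (a (l 16768184) (l 16761312)) (l 16748520)) (l 16757264))), by decide +kernel⟩

def k19_pm_011_s : ∃ t, chk3 f_pm_011_s t 69 125 1 = true :=
  ⟨(b (a (b (a (l 3) (b (l 3) (a (b (l 3) (a (l 3) (b (l 3) (a (l 859161221575) (l 723869760615))))) (b (a (l 3) (b (l 3) (a (l 824801485351) (b (l 378124877815) (l 16776976))))) (a (b (c (c (l 758229498471) (l 757692627415)) (l 757692627175)) (l 16776656)) (l 16776232)))))) (a (b (a (b (l 3) (a (l 3) (b (l 3) (a (l 3) (l 790441749559))))) (b (a (l 3) (b (l 3) (a (l 894057828743) (l 757692625991)))) (a (b (a (l 3) (l 773798752311)) (l 381882988215)) (b (l 226727284551) (l 16776040))))) (a (b (a (b (a (l 3) (l 807084752071)) (a (a (a (l 757155757319) (l 359334409575)) (l 221358577383)) (l 16776736))) (b (a (l 466708593207) (l 16771448)) (l 16770888))) (l 16770144)) (a (l 16769696) (l 16763640)))) (b (a (b (a (b (a (l 876341089687) (l 741586499671)) (l 16771504)) (l 16771080))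 (l 16769968)) (l 16769104)) (l 16761592)))) (b (a (b (a (b (l 3) (a (l 3) (b (l 3) (a (l 790978620087) (l 334638341175))))) (b (a (b (l 3) (l 900500275207)) (b (l 872582988935) (a (l 758229496647) (l 16776960)))) (a (b (a (l 774335622903) (l 16771768)) (l 16765976)) (l 16765552)))) (a (b (a (b (a (l 807621617255) (l 344302016375)) (l 16776560)) (l 16770888)) (l 16764536)) (l 16768912))) (b (a (b (a (a (b (b (l 843591968695) (l 16777120)) (l 16776568)) (l 16776536)) (l 16765448)) (l 16764336)) (l 16763464)) (l 16761192))) (a (b (l 16761400) (l 16768736)) (l 16745952)))) (a (b (a (b (l 16767024) (l 16769144)) (l 16756872)) (l 16752192)) (b (l 16751696) (l 16755600)))), by decide +kernel⟩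

def k20_pm_011_s : ∃ t, chk3 f_pm_011_s t 70 124 1 = true :=
  ⟨(b (a (l 3) (b (l 3) (a (b (l 3) (a (l 3) (b (l 3) (a (l 3) (l 833391408455))))) (b (a (l 3) (b (l 3) (a (l 3) (l 796884196855)))) (a (b (a (l 3) (l 815137805287)) (a (b (l 808158484391) (l 16769112)) (l 16771312))) (b (a (b (l 782925554039) (l 16776864)) (l 16776440)) (l 16764864))))))) (a (b (a (l 3) (b (l 3) (a (b (l 3) (a (b (l 3) (l 757155753399)) (b (l 744807723591) (l 16776640)))) (b (a (b (l 3) (l 732459693799)) (b (l 717964180359) (l 16766040))) (l 16770560))))) (b (a (a (b (l 3) (a (b (l 3) (l 807621614407)) (b (l 794736713687) (l 16771608)))) (b (a (b (l 3) (l 782388683895)) (b (l 769503783191) (l 16776744))) (l 16770784))) (b (l 16772488) (l 16763096))) (a (a (b (l 231559120279) (l 16764128)) (l 16763256)) (l 16760760)))) (b (a (b (a (b (a (l 3) (l 852181887783)) (a (b (l 871509246983) (a (l 379198615207) (l 16777008))) (b (l 364703101943) (l 16765928)))) (b (a (b (l 833928285655) (l 213305506279))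 (l 224042925975)) (l 16765096))) (a (l 79624652103) (l 16762808))) (b (a (l 16764224) (l 16762576)) (l 16749808))) (a (l 16758944) (l 16744968))))), by decide +kernel⟩

def k21_pm_011_s : ∃ t, chk3 f_pm_011_s t 71 124 1 = true :=
  ⟨(b (a (b (a (b (l 3) (a (l 3) (b (l 3) (a (l 3) (l 761987592711))))) (b (a (l 3) (b (l 3) (a (l 824801473815) (b (l 804400387527) (l 16769176))))) (a (b (a (l 853255629447) (l 744807724775)) (a (l 218674213639) (l 16765584))) (b (l 226727280215) (l 16764376))))) (a (b (a (a (b (l 3) (b (l 757692623671) (l 16776744))) (b (l 779167459335) (l 16776320))) (b (a (b (l 732996564215) (l 16776624)) (l 16765712)) (l 16764624))) (a (l 16763992) (l 16751856))) (b (b (l 16763688) (l 16751664)) (l 16749312)))) (b (a (b (a (b (a (l 806547865495) (b (l 779167457271) (l 16776912))) (l 16770976)) (l 16770112)) (l 16762672)) (b (l 16762416) (l 16769768))) (a (l 16757936) (l 16743864)))) (a (b (a (l 16758456) (l 16744432)) (l 16739496)) (b (l 16738856) (l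 16752648)))), by decide +kernel⟩

def k22_pm_011_s : ∃ t, chk3 f_pm_011_s t 35 125 1 = true :=
  ⟨(b (a (a (b (a (l 16764648) (l 16745480)) (l 16740672)) (b (l 16740104) (l 16754200))) (a (l 16728856) (l 16720392))) (a (a (l 16741024) (l 16722624)) (a (l 16735056) (l 16725792)))), by decide +kernel⟩

def k23_pm_011_s : ∃ t, chk3 f_pm_011_s t 17 63 1 = true :=
  ⟨(a (b (b (a (a (b (a (b (a (l 16768488) (l 16761624)) (l 16759336)) (l 16762848)) (a (l 16744192) (l 16761824))) (b (l 16752592) (l 16756712))) (a (a (l 16733688) (l 16730120)) (l 16724560))) (a (a (b (l 16736464) (l 16751640)) (l 16726568)) (a (l 16740272) (l 16732568)))) (a (b (a (l 16743456) (l 16736344)) (l 16714088)) (b (l 16703952) (l 16714512)))) (b (a (b (a (l 16737664) (l 16729200)) (l 16698968)) (b (l 16694168) (l 16700440))) (a (b (l 16707616) (l 16696632)) (l 16660064)))), by decide +kernel⟩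

def k24_pm_011_s : ∃ t, chk3 f_pm_011_s t 18 60 1 = true :=
  ⟨(a (l 3) (b (l 3) (a (l 3) (b (l 3) (a (b (l 3) (a (l 3) (b (l 818359003399) (l 346449462951)))) (b (a (l 814600893303) (b (l 793662953255) (l 16755424))) (l 289004279015))))))), by decide +kernel⟩

def k25_pm_011_s : ∃ t, chk3 f_pm_011_s t 36 122 1 = true :=
  ⟨(a (l 3) (b (l 3) (a (b (l 3) (a (l 3) (b (l 3) (a (l 3) (b (l 3) (l 759303222695)))))) (b (a (l 3) (b (l 3) (a (l 3) (l 729775324903)))) (a (b (a (l 3) (b (l 3) (l 732996553495))) (a (b (l 745881452647) (l 249812725431)) (l 16768112))) (b (a (b (l 720111654311) (l 16776504)) (l 16775680)) (l 16763224))))))), by decide +kernel⟩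

def k26_pm_011_s : ∃ t, chk3 f_pm_011_s t 36 123 1 = true :=
  ⟨(a (b (a (l 3) (b (l 3) (a (b (l 3) (a (b (l 3) (a (l 3) (l 733533436103))) (b (a (l 792052349191) (l 706689890471)) (l 228337894151)))) (b (a (b (l 3) (a (l 773798740871) (l 689510021239))) (b (a (l 756082003447) (l 355039423431)) (l 16776176))) (a (l 242296540135) (l 16763592)))))) (a (b (a (b (l 3) (a (b (l 3) (a (l 3) (l 807621605975))) (b (a (l 3) (l 788831126775)) (a (b (l 787757390135) (l 16771792)) (l 16771368))))) (b (a (b (l 3) (a (l 3) (l 771114389383))) (b (a (l 3) (l 752860781047)) (a (b (l 737291529639) (l 16776768)) (l 16776344)))) (a (b (a (b (l 762524459895) (l 16776904)) (l 16776480)) (l 16764944)) (l 16764072)))) (a (b (a (b (a (l 735680918279) (l 16770192)) (l 16765216)) (l 16764344)) (l 16762152)) (b (l 16761880) (l 16769224)))) (b (a (b (a (b (a (l 217600472855) (l 16765720)) (l 16764672)) (l 16763816)) (l 16761600)) (l 16765136)) (a (l 16746328) (l 16742840))))) (b (a (b (a (b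 (a (l 3) (b (l 3) (l 819432759287))) (a (b (l 3) (a (l 738902136935) (l 231022245911))) (b (a (l 721722270391) (l 16769016)) (l 16775888)))) (a (b (b (l 809232214743) (a (l 704542403831) (l 16776736))) (l 16764568)) (b (b (l 242296529367) (l 16765112)) (l 16773520)))) (a (b (a (l 16775336) (l 16752832)) (l 16750784)) (l 16759600))) (b (b (a (l 16763512) (l 16770944)) (l 16759192)) (l 16754936))) (a (b (l 16758448) (l 16737816)) (l 16745480)))), by decide +kernel⟩

def k27_pm_011_s : ∃ t, chk3 f_pm_011_s t 37 61 1 = true :=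
  ⟨(b (a (b (a (b (l 3) (a (l 3) (b (l 3) (a (l 826948943991) (l 693268111271))))) (b (a (l 3) (b (l 3) (l 687362530215))) (a (b (a (l 809769080599) (l 671256409287)) (l 16765000)) (l 16773832)))) (a (a (b (b (a (l 3) (l 709911104071)) (a (l 262160743079) (l 16775368))) (l 16761560)) (b (b (l 273971909543) (l 16752144)) (l 16748048))) (b (a (l 16750496) (l 16768472)) (l 16743520)))) (b (a (b (a (b (l 669108914199) (l 16774840)) (l 16773200)) (l 16748416)) (l 16766176)) (a (l 16740312) (l 16734472)))) (a (b (a (b (l 16743976) (l 16759208)) (l 16735120)) (a (l 16728648) (l 16743360))) (b (l 16726152) (l 16713296)))), by decide +kernel⟩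

def k28_pm_011_s : ∃ t, chk3 f_pm_011_s t 19 30 1 = true :=
  ⟨(b (a (b (a (l 3) (b (a (l 3) (l 821043306663)) (a (b (l 821043329031) (l 340006975831)) (l 302962892471)))) (b (a (a (b (l 3) (a (l 720648495911) (l 280414324407))) (b (a (l 704005509559) (l 16755224)) (l 16772616))) (a (l 16769432) (l 16763928))) (a (a (b (l 16752344) (l 16747232)) (l 16765072)) (l 16756928)))) (b (a (b (a (b (l 800642259431) (l 16754312)) (l 16772080)) (l 16765520)) (b (l 16763520) (l 16754672))) (a (b (l 16756336) (l 16747208)) (l 16742240)))) (a (b (b (a (a (l 16739472) (l 16754896)) (l 16726064)) (a (l 16726048) (l 16736688))) (a (b (l 16735832) (l 16722968)) (l 16698632))) (b (a (l 16732976) (l 16724808)) (l 16713024)))), by decide +kernel⟩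

def k29_pm_011_s : ∃ t, chk3 f_pm_011_s t 9 31 1 = true :=
  ⟨(a (b (a (b (a (b (a (b (a (l 16746904) (l 16743272)) (l 16738192)) (a (l 16735840) (l 16731840))) (a (l 16727048) (l 16718080))) (b (a (l 16726336) (l 16719424)) (a (l 16730272) (l 16722552)))) (a (b (a (l 16732160) (l 16722160)) (l 16689256)) (b (l 16686696) (l 16688704)))) (b (a (b (l 16709760) (l 16690984)) (l 16688272)) (a (b (l 16691832) (l 16670856)) (l 16646296)))) (a (b (a (b (l 16693248) (l 16677080)) (b (l 16669816) (l 16651880))) (a (l 16634744) (l 16628080))) (b (a (l 16639352) (l 16622768)) (a (l 16602920) (l 16581816))))) (b (a (b (a (l 16676896) (l 16688104)) (l 16609304)) (b (l 16677352) (l 16636800))) (a (b (a (l 16609664) (l 16600592)) (l 16560136)) (b (l 16591232) (l 16546416))))), by decide +kernel⟩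

def k30_pm_011_s : ∃ t, chk3 f_pm_011_s t 5 7 1 = true :=
  ⟨(b (b (a (a (l 3) (b (l 3) (a (b (l 3) (l 754471273223)) (b (l 666961370279) (l 16725720))))) (a (b (a (b (l 3) (l 472614028439)) (l 16683048)) (a (l 16733672) (l 16732792))) (b (a (l 16746248) (l 16725184)) (l 16699560)))) (a (b (a (a (l 3) (b (l 790978433031) (a (l 659445199495) (l 16749440)))) (a (b (l 307257750231) (l 16753384)) (l 16740104))) (a (b (a (a (b (l 3) (l 679846298071)) (l 315847694807)) (l 16757040)) (a (a (l 224579727575) (l 16754352)) (l 16736560))) (b (l 16721880) (l 16700424)))) (b (a (l 16705592) (l 16658560)) (a (l 16661552) (l 16569984))))) (b (a (b (a (a (b (a (l 16747552) (l 16713912)) (l 16725104)) (b (l 16695600) (l 16699568))) (b (l 16658424) (l 16640176))) (a (b (a (l 16709272) (l 16685144)) (a (l 16691352) (l 16646304))) (b (l 16623088) (l 16625824)))) (b (a (l 16576616) (l 16566040)) (a (l 16539104) (l 16524856)))) (a (b (a (a (a (l 16639928) (l 16641216)) (l 16614616)) (a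 (l 16557960) (l 16570576))) (a (a (l 16496656) (l 16525144)) (b (l 16531464) (l 16494504)))) (b (a (l 16527368) (l 16468792)) (a (l 16454976) (l 16395928)))))), by decide +kernel⟩

def k31_pm_011_s : ∃ t, chk3 f_pm_011_s t 3 3 1 = true :=
  ⟨(b (a (b (a (b (l 3) (a (l 3) (b (l 3) (l 633138432423)))) (b (l 1) (b (l 1) (a (l 16714272) (l 1))))) (a (b (a (b (l 3) (a (l 636896540599) (l 16690656))) (b (l 308331447175) (l 16739488))) (a (b (l 261086890183) (l 16722536)) (l 16629520))) (b (a (b (l 16723896) (l 16692056)) (l 16659712)) (a (l 16645816) (l 16597792))))) (b (l 1) (a (b (l 1) (l 16522360)) (l 1)))) (b (a (b (a (a (b (l 16692920) (l 16654304)) (l 16629688)) (a (l 16584072) (l 16537624))) (a (b (l 16586112) (a (l 16540328) (l 16509752))) (b (l 16486440) (l 16430888)))) (b (a (l 16460904) (l 1)) (a (l 16351488) (l 16244624)))) (a (b (a (b (l 16485384) (l 16354832)) (b (l 16354024) (l 16300136))) (a (b (l 16337184) (l 16305680)) (l 16052136))) (b (a (l 16234408)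 (l 16114800)) (a (l 16032896) (l 15990216)))))), by decide +kernel⟩

theorem s32_pm_011_s : ∃ t, chk3 f_pm_011_s t 36 61 1 = true := ex3_b k25_pm_011_s k26_pm_011_s

theorem s33_pm_011_s : ∃ t, chk3 f_pm_011_s t 18 61 1 = true := ex3_a s32_pm_011_s k27_pm_011_s

theorem s34_pm_011_s : ∃ t, chk3 f_pm_011_s t 18 30 1 = true := ex3_b k24_pm_011_s s33_pm_011_s

theorem s35_pm_011_s : ∃ t, chk3 f_pm_011_s t 9 30 1 = true := ex3_a s34_pm_011_s k28_pm_011_s

theorem s36_pm_011_s : ∃ t, chk3 f_pm_011_s t 9 15 1 = true := ex3_b s35_pm_011_s k29_pm_011_s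

theorem s37_pm_011_s : ∃ t, chk3 f_pm_011_s t 35 124 1 = true := ex3_a k20_pm_011_s k21_pm_011_s

theorem s38_pm_011_s : ∃ t, chk3 f_pm_011_s t 35 62 1 = true := ex3_b s37_pm_011_s k22_pm_011_s

theorem s39_pm_011_s : ∃ t, chk3 f_pm_011_s t 68 251 1 = true := ex3_a k17_pm_011_s k18_pm_011_s

theorem s40_pm_011_s : ∃ t, chk3 f_pm_011_s t 68 125 1 = true := ex3_b k16_pm_011_s s39_pm_011_s

theorem s41_pm_011_s : ∃ t, chk3 f_pm_011_s t 34 125 1 = true := ex3_a s40_pm_011_s k19_pm_011_s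

theorem s42_pm_011_s : ∃ t, chk3 f_pm_011_s t 34 62 1 = true := ex3_b k15_pm_011_s s41_pm_011_s

theorem s43_pm_011_s : ∃ t, chk3 f_pm_011_s t 17 62 1 = true := ex3_a s42_pm_011_s s38_pm_011_s

theorem s44_pm_011_s : ∃ t, chk3 f_pm_011_s t 17 31 1 = true := ex3_b s43_pm_011_s k23_pm_011_s

theorem s45_pm_011_s : ∃ t, chk3 f_pm_011_s t 67 252 1 = true := ex3_a k11_pm_011_s k12_pm_011_s

theorem s46_pm_011_s : ∃ t, chk3 f_pm_011_s t 67 126 1 = true := ex3_b s45_pm_011_s k13_pm_011_s

theorem s47_pm_011_s : ∃ t, chk3 f_pm_011_s t 132 507 1 = true := ex3_a k8_pm_011_s k9_pm_011_s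

theorem s48_pm_011_s : ∃ t, chk3 f_pm_011_s t 66 507 1 = true := ex3_a s47_pm_011_s k10_pm_011_s

theorem s49_pm_011_s : ∃ t, chk3 f_pm_011_s t 66 253 1 = true := ex3_b k7_pm_011_s s48_pm_011_s

theorem s50_pm_011_s : ∃ t, chk3 f_pm_011_s t 66 126 1 = true := ex3_b k6_pm_011_s s49_pm_011_s

theorem s51_pm_011_s : ∃ t, chk3 f_pm_011_s t 33 126 1 = true := ex3_a s50_pm_011_s s46_pm_011_s

theorem s52_pm_011_s : ∃ t, chk3 f_pm_011_s t 33 63 1 = true := ex3_b s51_pm_011_s k14_pm_011_s

theorem s53_pm_011_s : ∃ t, chk3 f_pm_011_s t 16 63 1 = true := ex3_a k5_pm_011_s s52_pm_011_s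

theorem s54_pm_011_s : ∃ t, chk3 f_pm_011_s t 16 31 1 = true := ex3_b k4_pm_011_s s53_pm_011_s

theorem s55_pm_011_s : ∃ t, chk3 f_pm_011_s t 8 31 1 = true := ex3_a s54_pm_011_s s44_pm_011_s

theorem s56_pm_011_s : ∃ t, chk3 f_pm_011_s t 8 15 1 = true := ex3_b k3_pm_011_s s55_pm_011_s

theorem s57_pm_011_s : ∃ t, chk3 f_pm_011_s t 4 15 1 = true := ex3_a s56_pm_011_s s36_pm_011_s

theorem s58_pm_011_s : ∃ t, chk3 f_pm_011_s t 4 7 1 = true := ex3_b k2_pm_011_s s57_pm_011_s

theorem s59_pm_011_s : ∃ t, chk3 f_pm_011_s t 2 7 1 = true := ex3_a s58_pm_011_s k30_pm_011_s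

theorem s60_pm_011_s : ∃ t, chk3 f_pm_011_s t 2 3 1 = true := ex3_b k1_pm_011_s s59_pm_011_s

theorem s61_pm_011_s : ∃ t, chk3 f_pm_011_s t 1 3 1 = true := ex3_a s60_pm_011_s k31_pm_011_s

theorem s62_pm_011_s : ∃ t, chk3 f_pm_011_s t 1 1 1 = true := ex3_b k0_pm_011_s s61_pm_011_s

theorem c_pm_011_s : CertNE 0 536870912 536870912 536870912 1040187392 5207648 3 eng mog cd0q0 cd5q1 pd1 true true false .pnn 0 1 1
    ndB0q0 ndB5q1 pcB1 cut_pm_011_s Ext.none :=
  certNE1 (fam := true) (s1 := true) (s2 := false) (a := 0) (b := 1) (c := 1) (cn := .pnn) (n1 := ndB0q0) (n2 := ndB5q1) (pc := pcB1) (cut := cut_pm_011_s) (xt := Ext.none) (P1 := 0) (W1 := 536870912) (P2 := 536870912) (W2 := 536870912) (P3 := 1040187392) (W3 := 5207648) (N0 := 3) (En := eng) (mo := mog) (C1 := cd0q0) (C2 := cd5q1) (C3 := pd1)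
    rfl (fun _ => rfl) s62_pm_011_s

noncomputable def cut_pm_012_s : Cut := Cut.of [[⟨4, 0, 0, 1449551462⟩], [⟨0, 0, 0, 26843545⟩, ⟨1, 1, 0, 26843545⟩, ⟨2, 1, 0, 26843545⟩]]

noncomputable def f_pm_012_s : ℕ → ℕ → ℕ → ℕ → Bool := onCell 1073741824 536870912 536870912 536870912 1040187392 5207648
    (rowNE 3 eng mog cd0q0 cd5q1 pd2 2 true true false .pnp 0 1 2 (qsf 0 536870912 536870912 536870912 2) ndB0q0 ndB5q1 pcB2 cut_pm_012_s Ext.none)

def k0_pm_012_s : ∃ t, chk3 f_pm_012_s t 4 2 1 = true :=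
  ⟨(b (a (b (a (l 16075352) (l 6)) (a (l 16189040) (l 16078784))) (l 6)) (a (b (a (l 16285288) (l 16181712)) (a (l 16366752) (l 16260944))) (b (l 16014776) (a (l 16159488) (l 16061456))))), by decide +kernel⟩

def k1_pm_012_s : ∃ t, chk3 f_pm_012_s t 4 6 1 = true :=
  ⟨(b (a (a (b (l 16398216) (l 16429968)) (l 16319192)) (a (l 16210448) (l 16109360))) (a (a (b (l 16419408) (b (l 16495928) (l 16504928))) (b (l 16352200) (l 16348048))) (b (l 16003784) (a (l 16259512) (l 16140896))))), by decide +kernel⟩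

def k2_pm_012_s : ∃ t, chk3 f_pm_012_s t 8 7 1 = true :=
  ⟨(b (a (b (a (b (l 16620392) (b (l 16643384) (l 16653848))) (b (l 16540056) (l 16571744))) (a (b (a (l 16677328) (l 16642736)) (a (b (l 16670272) (l 16642176)) (b (l 16635352) (l 16627344)))) (b (l 16575200) (b (l 16582320) (l 16532112))))) (b (b (l 16427600) (l 16431144)) (a (b (l 16486208) (a (l 16521472) (l 16482952))) (b (l 16425200) (l 16422592))))) (a (b (a (b (a (b (l 16640624) (l 16641752)) (b (l 16621464) (l 16617952))) (a (b (a (l 16682552) (l 16655800)) (a (l 16672384) (l 16664888))) (b (l 16617752) (l 16623496)))) (b (a (b (l 16585360) (l 16577672)) (l 16545432)) (a (b (l 16572760) (l 16571896)) (b (l 16532248) (l 16526600))))) (a (b (a (a (b (a (l 16694160) (l 16700184)) (b (l 16698936) (l 14))) (b (l 16677976) (b (l 16690072) (l 16698664)))) (b (a (l 16648720) (l 16620048)) (a (l 16664496) (l 16634416)))) (a (l 14) (b (a (b (l 16677592) (l 14)) (l 16652056)) (l 14)))) (b (a (b (l 16578368) (l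 16590312)) (b (l 16526400) (l 16534016))) (b (a (a (l 16621936) (l 16591584)) (l 16547096)) (a (b (l 16620784) (l 16609520)) (l 16523080)))))) (b (a (b (a (l 16508632) (l 16470392)) (a (b (l 16495752) (l 16485808)) (l 16453952))) (b (b (l 16411696) (l 16406424)) (l 16355752))) (b (a (a (b (l 16480760) (l 16481648)) (l 16436912)) (a (l 16396632) (l 16360808))) (a (b (a (l 16490336) (l 16437536)) (a (l 16504536) (l 16447288))) (a (b (l 16391104) (l 16394024)) (l 16347456))))))), by decide +kernel⟩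

def k3_pm_012_s : ∃ t, chk3 f_pm_012_s t 9 7 1 = true :=
  ⟨(b (b (a (l 16256856) (l 16169096)) (a (l 16224320) (l 16165112))) (b (a (b (a (l 16305432) (l 16241048)) (a (l 16315672) (l 16228696))) (a (b (l 16162112) (l 16137688)) (l 16072672))) (a (a (b (l 16303640) (a (l 16306408) (l 16269848))) (b (l 16220488) (l 16211600))) (a (b (l 16132424) (l 16127096)) (b (l 16039760) (l 16037728)))))), by decide +kernel⟩

def k4_pm_012_s : ∃ t, chk3 f_pm_012_s t 5 1 1 = true :=
  ⟨(a (b (l 6) (b (b (a (l 16015312) (l 6)) (b (l 15977736) (l 15924160))) (b (b (a (l 16053264) (l 15951536)) (a (l 16037440) (l 15925768))) (a (a (b (l 15999392) (l 15946152)) (b (l 15931288) (a (l 15881136) (a (l 15849368) (a (l 15833624) (l 15823832)))))) (b (l 15840320) (l 15747416)))))) (b (l 6) (b (l 6) (b (l 6) (b (l 15501440) (a (l 15616784) (l 6))))))), by decide +kernel⟩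

def k5_pm_012_s : ∃ t, chk3 f_pm_012_s t 3 1 1 = true :=
  ⟨(b (l 6) (l 6)), by decide +kernel⟩

theorem s6_pm_012_s : ∃ t, chk3 f_pm_012_s t 4 7 1 = true := ex3_a k2_pm_012_s k3_pm_012_s

theorem s7_pm_012_s : ∃ t, chk3 f_pm_012_s t 4 3 1 = true := ex3_b k1_pm_012_s s6_pm_012_s

theorem s8_pm_012_s : ∃ t, chk3 f_pm_012_s t 4 1 1 = true := ex3_b k0_pm_012_s s7_pm_012_s

theorem s9_pm_012_s : ∃ t, chk3 f_pm_012_s t 2 1 1 = true := ex3_a s8_pm_012_s k4_pm_012_s

theorem s10_pm_012_s : ∃ t, chk3 f_pm_012_s t 1 1 1 = true := ex3_a s9_pm_012_s k5_pm_012_s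

theorem c_pm_012_s : CertNE 0 536870912 536870912 536870912 1040187392 5207648 3 eng mog cd0q0 cd5q1 pd2 true true false .pnp 0 1 2
    ndB0q0 ndB5q1 pcB2 cut_pm_012_s Ext.none :=
  certNE2 (fam := true) (s1 := true) (s2 := false) (a := 0) (b := 1) (c := 2) (cn := .pnp) (n1 := ndB0q0) (n2 := ndB5q1) (pc := pcB2) (cut := cut_pm_012_s) (xt := Ext.none) (P1 := 0) (W1 := 536870912) (P2 := 536870912) (W2 := 536870912) (P3 := 1040187392) (W3 := 5207648) (N0 := 3) (En := eng) (mo := mog) (C1 := cd0q0) (C2 := cd5q1) (C3 := pd2)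
    rfl (fun _ => rfl) s10_pm_012_s

noncomputable def cut_pm_022_s : Cut := Cut.of [[⟨4, 0, 0, 1449551462⟩], [⟨0, 0, 0, 26843545⟩, ⟨1, 1, 0, 26843545⟩, ⟨2, 1, 0, 26843545⟩]]

noncomputable def f_pm_022_s : ℕ → ℕ → ℕ → ℕ → Bool := onCell 0 536870912 1073741824 536870912 1040187392 5207648
    (rowNE 3 eng mog cd0q0 cd5q2 pd2 1 true true false .pp 0 2 2 (qsf 0 536870912 1073741824 536870912 2) ndB0q0 ndB5q2 pcB2 cut_pm_022_s Ext.none)

def k0_pm_022_s : ∃ t, chk3 f_pm_022_s t 1 4 1 = true :=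
  ⟨(a (b (a (a (b (a (b (a (l 14) (a (l 14) (l 1))) (b (a (l 14) (a (l 14) (b (l 1) (l 16562144)))) (a (a (l 16588056) (l 16647728)) (a (l 16610440) (l 16553512))))) (a (b (l 1) (a (b (l 1) (l 16496872)) (l 1))) (l 1))) (a (a (b (b (a (l 16558400) (l 16619776)) (l 16455376)) (b (l 16448176) (l 16441856))) (a (b (l 16614984) (l 16518960)) (b (l 16537016) (l 16593896)))) (a (b (b (a (l 16513376) (l 16437720)) (l 16407984)) (l 16433912)) (b (b (l 1) (l 16347544)) (a (l 16406968) (l 16339128)))))) (a (b (l 1) (a (b (l 1) (a (l 16278328) (l 1))) (l 1))) (l 1))) (l 1)) (a (a (a (b (a (b (l 16269944) (l 16318960)) (b (l 16416160) (l 16392040))) (a (b (l 16261904) (l 16220808)) (b (l 16361672) (l 16308992)))) (b (b (a (l 16449352) (l 16386064)) (a (l 16494560) (l 16401712))) (b (a (l 16454080) (l 16457272)) (a (l 16407384) (l 16504872))))) (a (b (a (b (l 16282608) (l 16317136)) (b (l 16173264) (l 16205424))) (a (b (l 16353344) (l 16387216)) (b (l 16239352) (l 16274696))))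 (b (b (l 1) (a (l 16093232) (l 1))) (a (l 16036080) (l 15935288))))) (a (b (l 1) (a (b (l 1) (l 15847112)) (l 1))) (l 1)))) (l 1)), by decide +kernel⟩

def k1_pm_022_s : ∃ t, chk3 f_pm_022_s t 1 5 1 = true :=
  ⟨(b (a (a (a (b (a (b (a (l 16194944) (l 16273232)) (b (l 16135112) (b (l 16215176) (a (l 16177736) (l 16257336))))) (b (a (l 16360016) (l 16442640)) (b (l 16249536) (b (l 16304568) (a (l 16334448) (l 16398256)))))) (a (a (l 16119856) (l 16161568)) (a (l 16246640) (b (l 16373440) (l 16328800))))) (a (b (b (a (l 16413896) (l 16306888)) (b (l 16226248) (a (l 16332176) (b (l 16330784) (l 16329592))))) (a (l 16392064) (l 16302648))) (b (b (a (l 16192840) (l 16069208)) (b (l 16113488) (b (l 16165656) (l 16001848)))) (a (l 16263984) (l 16131440))))) (a (b (b (a (l 15879016) (l 1)) (b (a (l 15903720) (l 1)) (b (a (l 15915448) (l 1)) (a (l 15880808) (b (l 1) (l 15685064)))))) (a (a (l 16031088) (l 15906216)) (l 15553976))) (b (l 1) (a (l 15519264) (l 1))))) (l 1))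 (b (a (a (a (a (a (l 15988368) (l 16086808)) (a (l 16179272) (l 16230160))) (a (a (l 16300192) (l 16322336)) (a (l 16290760) (l 16210128)))) (a (a (a (l 16114448) (l 15995704)) (l 15641488)) (a (l 15468096) (l 15402056)))) (l 1)) (a (a (a (a (l 15907488) (a (l 16054024) (l 16139576))) (a (a (l 16195536) (l 16230736)) (a (l 16268336) (l 16225016)))) (a (a (a (l 16147560) (l 16060248)) (l 15752576)) (l 6))) (l 6)))), by decide +kernel⟩

def k2_pm_022_s : ∃ t, chk3 f_pm_022_s t 1 3 1 = true :=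
  ⟨(b (a (b (a (a (a (l 15679520) (l 15834104)) (b (a (l 16045736) (l 16192256)) (l 6))) (l 6)) (l 6)) (l 6)) (l 6)), by decide +kernel⟩

theorem s3_pm_022_s : ∃ t, chk3 f_pm_022_s t 1 2 1 = true := ex3_b k0_pm_022_s k1_pm_022_s

theorem s4_pm_022_s : ∃ t, chk3 f_pm_022_s t 1 1 1 = true := ex3_b s3_pm_022_s k2_pm_022_s

theorem c_pm_022_s : CertNE 0 536870912 1073741824 536870912 1040187392 5207648 3 eng mog cd0q0 cd5q2 pd2 true true false .pp 0 2 2
    ndB0q0 ndB5q2 pcB2 cut_pm_022_s Ext.none :=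
  certNE1 (fam := true) (s1 := true) (s2 := false) (a := 0) (b := 2) (c := 2) (cn := .pp) (n1 := ndB0q0) (n2 := ndB5q2) (pc := pcB2) (cut := cut_pm_022_s) (xt := Ext.none) (P1 := 0) (W1 := 536870912) (P2 := 1073741824) (W2 := 536870912) (P3 := 1040187392) (W3 := 5207648) (N0 := 3) (En := eng) (mo := mog) (C1 := cd0q0) (C2 := cd5q2) (C3 := pd2)
    rfl (fun _ => rfl) s4_pm_022_s

noncomputable def cut_pm_023_s : Cut := Cut.of [[⟨4, 0, 0, 1449551462⟩]]

noncomputable def f_pm_023_s : ℕ → ℕ → ℕ → ℕ → Bool := onCell 1610612736 536870912 1073741824 536870912 1040187392 5207648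
    (rowNE 3 eng mog cd0q0 cd5q2 pd3 2 true true false .up 0 2 3 (qsf 0 536870912 1073741824 536870912 3) ndB0q0 ndB5q2 pcB3 cut_pm_023_s Ext.none)

def k0_pm_023_s : ∃ t, chk3 f_pm_023_s t 1 1 1 = true :=
  ⟨(a (l 6) (l 6)), by decide +kernel⟩

theorem c_pm_023_s : CertNE 0 536870912 1073741824 536870912 1040187392 5207648 3 eng mog cd0q0 cd5q2 pd3 true true false .up 0 2 3
    ndB0q0 ndB5q2 pcB3 cut_pm_023_s Ext.none :=
  certNE2 (fam := true) (s1 := true) (s2 := false) (a := 0) (b := 2) (c := 3) (cn := .up) (n1 := ndB0q0) (n2 := ndB5q2) (pc := pcB3) (cut := cut_pm_023_s) (xt := Ext.none) (P1 := 0) (W1 := 536870912) (P2 := 1073741824) (W2 := 536870912) (P3 := 1040187392) (W3 := 5207648) (N0 := 3) (En := eng) (mo := mog) (C1 := cd0q0) (C2 := cd5q2) (C3 := pd3)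
    rfl (fun _ => rfl) k0_pm_023_s

noncomputable def cut_pm_033_s : Cut := Cut.of [[⟨4, 0, 0, 1449551462⟩]]

noncomputable def f_pm_033_s : ℕ → ℕ → ℕ → ℕ → Bool := onCell 1610612736 536870912 0 1230186008 1040187392 5207648
    (rowNE 3 eng mog cd0q0 cd5q3 pd3 2 true true false .pnn 0 3 3 (qsf 0 536870912 0 1230186008 3) ndB0q0 ndB5q3 pcB3 cut_pm_033_s Ext.none)

def k0_pm_033_s : ∃ t, chk3 f_pm_033_s t 1 1 1 = true :=
  ⟨(b (l 6) (l 6)), by decide +kernel⟩

theorem c_pm_033_s : CertNE 0 536870912 0 1230186008 1040187392 5207648 3 eng mog cd0q0 cd5q3 pd3 true true false .pnn 0 3 3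
    ndB0q0 ndB5q3 pcB3 cut_pm_033_s Ext.none :=
  certNE2 (fam := true) (s1 := true) (s2 := false) (a := 0) (b := 3) (c := 3) (cn := .pnn) (n1 := ndB0q0) (n2 := ndB5q3) (pc := pcB3) (cut := cut_pm_033_s) (xt := Ext.none) (P1 := 0) (W1 := 536870912) (P2 := 0) (W2 := 1230186008) (P3 := 1040187392) (W3 := 5207648) (N0 := 3) (En := eng) (mo := mog) (C1 := cd0q0) (C2 := cd5q3) (C3 := pd3)
    rfl (fun _ => rfl) k0_pm_033_s

noncomputable def cut_pm_101_s : Cut := Cut.of [[⟨4, 0, 0, 1449551462⟩]]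

noncomputable def f_pm_101_s : ℕ → ℕ → ℕ → ℕ → Bool := onCell 536870912 536870912 536870912 536870912 1040187392 5207648
    (rowNE 3 eng mog cd0q1 cd5q0 pd1 1 true true false .npn 1 0 1 (qsf 536870912 536870912 0 536870912 1) ndB0q1 ndB5q0 pcB1 cut_pm_101_s Ext.none)

def k0_pm_101_s : ∃ t, chk3 f_pm_101_s t 1 1 1 = true :=
  ⟨(b (a (b (a (b (a (l 3) (a (a (l 3) (l 1)) (l 1))) (a (b (a (l 3) (b (l 3) (l 589651942071))) (a (b (l 3) (l 578914524535)) (b (a (l 574619589719) (l 276119349799)) (a (l 277729963031) (l 16765032))))) (b (a (b (a (l 581598911335) (l 280280100247)) (a (l 274508737111) (l 16772072))) (l 340946504071)) (a (b (l 16764960) (l 16753080)) (l 16751568))))) (b (l 1) (a (b (l 1) (a (l 16755128) (l 1))) (l 1)))) (a (b (a (b (a (b (a (l 559587207895) (l 16733792)) (a (l 16752664) (l 16757384))) (b (l 16754976) (l 16737520))) (a (b (l 16744480) (l 16722176)) (l 16703616))) (b (a (l 16726472) (l 16713856)) (a (l 16679488) (l 16659936)))) (a (b (a (l 16661264)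 (l 16648968)) (a (l 16621776) (l 16583384))) (b (l 16559328) (l 16524936)))) (b (a (b (l 16746904) (l 16593616)) (b (l 1) (l 392485510903))) (a (b (l 16551296) (l 16454160)) (b (a (l 16528192) (l 16453432)) (a (l 16397688) (l 16306232))))))) (a (b (l 1) (a (b (l 1) (b (l 1) (l 434360279447))) (l 1))) (l 1))) (a (b (a (b (a (b (l 16528136) (l 16450824)) (a (l 16418080) (l 16368448))) (a (b (l 16369760) (l 16287304)) (b (l 16227576) (l 16149472)))) (b (a (b (l 16345576) (l 16224184)) (b (l 16072960) (l 16023440))) (a (b (l 16100096) (l 15985776)) (l 15834488)))) (b (a (a (b (l 16205776) (l 16128416)) (b (l 16054448) (l 15972848))) (a (l 15848320) (l 6))) (a (a (b (l 16030040) (l 15961728)) (l 15879224)) (l 6)))) (a (b (a (l 6) (l 6)) (l 6)) (l 6)))), by decide +kernel⟩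

theorem c_pm_101_s : CertNE 536870912 536870912 0 536870912 1040187392 5207648 3 eng mog cd0q1 cd5q0 pd1 true true false .npn 1 0 1
    ndB0q1 ndB5q0 pcB1 cut_pm_101_s Ext.none :=
  certNE1 (fam := true) (s1 := true) (s2 := false) (a := 1) (b := 0) (c := 1) (cn := .npn) (n1 := ndB0q1) (n2 := ndB5q0) (pc := pcB1) (cut := cut_pm_101_s) (xt := Ext.none) (P1 := 536870912) (W1 := 536870912) (P2 := 0) (W2 := 536870912) (P3 := 1040187392) (W3 := 5207648) (N0 := 3) (En := eng) (mo := mog) (C1 := cd0q1) (C2 := cd5q0) (C3 := pd1)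
    rfl (fun _ => rfl) k0_pm_101_s

noncomputable def cut_pm_102_s : Cut := Cut.of [[⟨4, 0, 0, 1449551462⟩]]

noncomputable def f_pm_102_s : ℕ → ℕ → ℕ → ℕ → Bool := onCell 536870912 536870912 1073741824 536870912 1040187392 5207648
    (rowNE 3 eng mog cd0q1 cd5q0 pd2 1 true true false .npp 1 0 2 (qsf 536870912 536870912 0 536870912 2) ndB0q1 ndB5q0 pcB2 cut_pm_102_s Ext.none)

def k0_pm_102_s : ∃ t, chk3 f_pm_102_s t 1 1 1 = true :=
  ⟨(a (b (b (a (b (a (b (l 15970904) (l 6)) (l 6)) (l 6)) (l 6)) (l 6)) (l 6)) (l 6)), by decide +kernel⟩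

theorem c_pm_102_s : CertNE 536870912 536870912 0 536870912 1040187392 5207648 3 eng mog cd0q1 cd5q0 pd2 true true false .npp 1 0 2
    ndB0q1 ndB5q0 pcB2 cut_pm_102_s Ext.none :=
  certNE1 (fam := true) (s1 := true) (s2 := false) (a := 1) (b := 0) (c := 2) (cn := .npp) (n1 := ndB0q1) (n2 := ndB5q0) (pc := pcB2) (cut := cut_pm_102_s) (xt := Ext.none) (P1 := 536870912) (W1 := 536870912) (P2 := 0) (W2 := 536870912) (P3 := 1040187392) (W3 := 5207648) (N0 := 3) (En := eng) (mo := mog) (C1 := cd0q1) (C2 := cd5q0) (C3 := pd2)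
    rfl (fun _ => rfl) k0_pm_102_s

noncomputable def cut_pm_112_s : Cut := Cut.of [[⟨4, 0, 0, 1449551462⟩]]

noncomputable def f_pm_112_s : ℕ → ℕ → ℕ → ℕ → Bool := onCell 536870912 536870912 536870912 536870912 1040187392 5207648
    (rowNE 3 eng mog cd0q1 cd5q1 pd2 0 true true false .dn 1 1 2 (qsf 536870912 536870912 536870912 536870912 2) ndB0q1 ndB5q1 pcB2 cut_pm_112_s Ext.none)

def k0_pm_112_s : ∃ t, chk3 f_pm_112_s t 1 1 1 = true :=
  ⟨(a (b (a (b (a (b (l 15882136) (l 6)) (l 6)) (l 6)) (l 6)) (l 6)) (l 6)), by decide +kernel⟩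

theorem c_pm_112_s : CertNE 536870912 536870912 536870912 536870912 1040187392 5207648 3 eng mog cd0q1 cd5q1 pd2 true true false .dn 1 1 2
    ndB0q1 ndB5q1 pcB2 cut_pm_112_s Ext.none :=
  certNE0 (fam := true) (s1 := true) (s2 := false) (a := 1) (b := 1) (c := 2) (cn := .dn) (n1 := ndB0q1) (n2 := ndB5q1) (pc := pcB2) (cut := cut_pm_112_s) (xt := Ext.none) (P1 := 536870912) (W1 := 536870912) (P2 := 536870912) (W2 := 536870912) (P3 := 1040187392) (W3 := 5207648) (N0 := 3) (En := eng) (mo := mog) (C1 := cd0q1) (C2 := cd5q1) (C3 := pd2)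
    rfl k0_pm_112_s

noncomputable def cut_pm_113_s : Cut := Cut.of [[⟨4, 0, 0, 1449551462⟩]]

noncomputable def f_pm_113_s : ℕ → ℕ → ℕ → ℕ → Bool := onCell 536870912 536870912 1610612736 536870912 1040187392 5207648
    (rowNE 3 eng mog cd0q1 cd5q1 pd3 1 true true false .nn 1 1 3 (qsf 536870912 536870912 536870912 536870912 3) ndB0q1 ndB5q1 pcB3 cut_pm_113_s Ext.none)

def k0_pm_113_s : ∃ t, chk3 f_pm_113_s t 1 1 1 = true :=
  ⟨(l 6), by decide +kernel⟩

theorem c_pm_113_s : CertNE 536870912 536870912 536870912 536870912 1040187392 5207648 3 eng mog cd0q1 cd5q1 pd3 true true false .nn 1 1 3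
    ndB0q1 ndB5q1 pcB3 cut_pm_113_s Ext.none :=
  certNE1 (fam := true) (s1 := true) (s2 := false) (a := 1) (b := 1) (c := 3) (cn := .nn) (n1 := ndB0q1) (n2 := ndB5q1) (pc := pcB3) (cut := cut_pm_113_s) (xt := Ext.none) (P1 := 536870912) (W1 := 536870912) (P2 := 536870912) (W2 := 536870912) (P3 := 1040187392) (W3 := 5207648) (N0 := 3) (En := eng) (mo := mog) (C1 := cd0q1) (C2 := cd5q1) (C3 := pd3)
    rfl (fun _ => rfl) k0_pm_113_s

noncomputable def cut_pm_123_s : Cut := Cut.of [[⟨4, 0, 0, 1449551462⟩]]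

noncomputable def f_pm_123_s : ℕ → ℕ → ℕ → ℕ → Bool := onCell 536870912 536870912 1073741824 536870912 1040187392 5207648
    (rowNE 3 eng mog cd0q1 cd5q2 pd3 0 true true false .npn 1 2 3 (qsf 536870912 536870912 1073741824 536870912 3) ndB0q1 ndB5q2 pcB3 cut_pm_123_s Ext.none)

def k0_pm_123_s : ∃ t, chk3 f_pm_123_s t 1 1 1 = true :=
  ⟨(l 6), by decide +kernel⟩

theorem c_pm_123_s : CertNE 536870912 536870912 1073741824 536870912 1040187392 5207648 3 eng mog cd0q1 cd5q2 pd3 true true false .npn 1 2 3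
    ndB0q1 ndB5q2 pcB3 cut_pm_123_s Ext.none :=
  certNE0 (fam := true) (s1 := true) (s2 := false) (a := 1) (b := 2) (c := 3) (cn := .npn) (n1 := ndB0q1) (n2 := ndB5q2) (pc := pcB3) (cut := cut_pm_123_s) (xt := Ext.none) (P1 := 536870912) (W1 := 536870912) (P2 := 1073741824) (W2 := 536870912) (P3 := 1040187392) (W3 := 5207648) (N0 := 3) (En := eng) (mo := mog) (C1 := cd0q1) (C2 := cd5q2) (C3 := pd3)
    rfl k0_pm_123_s

noncomputable def cut_pm_133_s : Cut := Cut.of [[⟨4, 0, 0, 1449551462⟩]]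

noncomputable def f_pm_133_s : ℕ → ℕ → ℕ → ℕ → Bool := onCell 536870912 536870912 0 1230186008 1040187392 5207648
    (rowNE 3 eng mog cd0q1 cd5q3 pd3 0 true true false .dn 1 3 3 (qsf 536870912 536870912 0 1230186008 3) ndB0q1 ndB5q3 pcB3 cut_pm_133_s Ext.none)

def k0_pm_133_s : ∃ t, chk3 f_pm_133_s t 1 1 1 = true :=
  ⟨(l 6), by decide +kernel⟩

theorem c_pm_133_s : CertNE 536870912 536870912 0 1230186008 1040187392 5207648 3 eng mog cd0q1 cd5q3 pd3 true true false .dn 1 3 3
    ndB0q1 ndB5q3 pcB3 cut_pm_133_s Ext.none :=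
  certNE0 (fam := true) (s1 := true) (s2 := false) (a := 1) (b := 3) (c := 3) (cn := .dn) (n1 := ndB0q1) (n2 := ndB5q3) (pc := pcB3) (cut := cut_pm_133_s) (xt := Ext.none) (P1 := 536870912) (W1 := 536870912) (P2 := 0) (W2 := 1230186008) (P3 := 1040187392) (W3 := 5207648) (N0 := 3) (En := eng) (mo := mog) (C1 := cd0q1) (C2 := cd5q3) (C3 := pd3)
    rfl k0_pm_133_s

noncomputable def cut_pm_202_s : Cut := Cut.of [[⟨4, 0, 0, 1449551462⟩]]

noncomputable def f_pm_202_s : ℕ → ℕ → ℕ → ℕ → Bool := onCell 0 536870912 0 536870912 1040187392 5207648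
    (rowNE 3 eng mog cd0q2 cd5q0 pd2 0 true true false .pp 2 0 2 (qsf 0 536870912 0 536870912 2) ndB0q2 ndB5q0 pcB2 cut_pm_202_s Ext.none)

def k0_pm_202_s : ∃ t, chk3 f_pm_202_s t 1 1 1 = true :=
  ⟨(l 6), by decide +kernel⟩

theorem c_pm_202_s : CertNE 0 536870912 0 536870912 1040187392 5207648 3 eng mog cd0q2 cd5q0 pd2 true true false .pp 2 0 2
    ndB0q2 ndB5q0 pcB2 cut_pm_202_s Ext.none :=
  certNE0 (fam := true) (s1 := true) (s2 := false) (a := 2) (b := 0) (c := 2) (cn := .pp) (n1 := ndB0q2) (n2 := ndB5q0) (pc := pcB2) (cut := cut_pm_202_s) (xt := Ext.none) (P1 := 0) (W1 := 536870912) (P2 := 0) (W2 := 536870912) (P3 := 1040187392) (W3 := 5207648) (N0 := 3) (En := eng) (mo := mog) (C1 := cd0q2) (C2 := cd5q0) (C3 := pd2)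
    rfl k0_pm_202_s

noncomputable def cut_pm_203_s : Cut := Cut.of [[⟨4, 0, 0, 1449551462⟩]]

noncomputable def f_pm_203_s : ℕ → ℕ → ℕ → ℕ → Bool := onCell 0 536870912 0 536870912 1040187392 5207648
    (rowNE 3 eng mog cd0q2 cd5q0 pd3 0 true true false .up 2 0 3 (qsf 0 536870912 0 536870912 3) ndB0q2 ndB5q0 pcB3 cut_pm_203_s Ext.none)

def k0_pm_203_s : ∃ t, chk3 f_pm_203_s t 1 1 1 = true :=
  ⟨(l 6), by decide +kernel⟩

theorem c_pm_203_s : CertNE 0 536870912 0 536870912 1040187392 5207648 3 eng mog cd0q2 cd5q0 pd3 true true false .up 2 0 3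
    ndB0q2 ndB5q0 pcB3 cut_pm_203_s Ext.none :=
  certNE0 (fam := true) (s1 := true) (s2 := false) (a := 2) (b := 0) (c := 3) (cn := .up) (n1 := ndB0q2) (n2 := ndB5q0) (pc := pcB3) (cut := cut_pm_203_s) (xt := Ext.none) (P1 := 0) (W1 := 536870912) (P2 := 0) (W2 := 536870912) (P3 := 1040187392) (W3 := 5207648) (N0 := 3) (En := eng) (mo := mog) (C1 := cd0q2) (C2 := cd5q0) (C3 := pd3)
    rfl k0_pm_203_s

noncomputable def cut_pm_213_s : Cut := Cut.of [[⟨4, 0, 0, 1449551462⟩]]

noncomputable def f_pm_213_s : ℕ → ℕ → ℕ → ℕ → Bool := onCell 0 536870912 536870912 536870912 1040187392 5207648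
    (rowNE 3 eng mog cd0q2 cd5q1 pd3 0 true true false .pnn 2 1 3 (qsf 0 536870912 536870912 536870912 3) ndB0q2 ndB5q1 pcB3 cut_pm_213_s Ext.none)

def k0_pm_213_s : ∃ t, chk3 f_pm_213_s t 1 1 1 = true :=
  ⟨(l 6), by decide +kernel⟩

theorem c_pm_213_s : CertNE 0 536870912 536870912 536870912 1040187392 5207648 3 eng mog cd0q2 cd5q1 pd3 true true false .pnn 2 1 3
    ndB0q2 ndB5q1 pcB3 cut_pm_213_s Ext.none :=
  certNE0 (fam := true) (s1 := true) (s2 := false) (a := 2) (b := 1) (c := 3) (cn := .pnn) (n1 := ndB0q2) (n2 := ndB5q1) (pc := pcB3) (cut := cut_pm_213_s) (xt := Ext.none) (P1 := 0) (W1 := 536870912) (P2 := 536870912) (W2 := 536870912) (P3 := 1040187392) (W3 := 5207648) (N0 := 3) (En := eng) (mo := mog) (C1 := cd0q2) (C2 := cd5q1) (C3 := pd3)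
    rfl k0_pm_213_s

noncomputable def cut_mm_001_s : Cut := Cut.of [[⟨4, 0, 0, 1449551462⟩]]

noncomputable def f_mm_001_s : ℕ → ℕ → ℕ → ℕ → Bool := onCell 0 536870912 0 536870912 1040187392 5207648
    (rowNE 3 eng mog cd0q0 cd5q0 pd1 0 true false false .up 0 0 1 (qsf 0 536870912 0 536870912 1) ndB0q0 ndB5q0 pcB1 cut_mm_001_s Ext.none)

def k0_mm_001_s : ∃ t, chk3 f_mm_001_s t 1 1 1 = true :=
  ⟨(l 4), by decide +kernel⟩

theorem c_mm_001_s : CertNE 0 536870912 0 536870912 1040187392 5207648 3 eng mog cd0q0 cd5q0 pd1 true false false .up 0 0 1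
    ndB0q0 ndB5q0 pcB1 cut_mm_001_s Ext.none :=
  certNE0 (fam := true) (s1 := false) (s2 := false) (a := 0) (b := 0) (c := 1) (cn := .up) (n1 := ndB0q0) (n2 := ndB5q0) (pc := pcB1) (cut := cut_mm_001_s) (xt := Ext.none) (P1 := 0) (W1 := 536870912) (P2 := 0) (W2 := 536870912) (P3 := 1040187392) (W3 := 5207648) (N0 := 3) (En := eng) (mo := mog) (C1 := cd0q0) (C2 := cd5q0) (C3 := pd1)
    rfl k0_mm_001_s

noncomputable def cut_mm_011_s : Cut := Cut.of [[⟨4, 0, 0, 1449551462⟩]]

noncomputable def f_mm_011_s : ℕ → ℕ → ℕ → ℕ → Bool := onCell 0 536870912 536870912 536870912 1040187392 5207648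
    (rowNE 3 eng mog cd0q0 cd5q1 pd1 0 true false false .pnn 0 1 1 (qsf 0 536870912 536870912 536870912 1) ndB0q0 ndB5q1 pcB1 cut_mm_011_s Ext.none)

def k0_mm_011_s : ∃ t, chk3 f_mm_011_s t 1 1 1 = true :=
  ⟨(l 4), by decide +kernel⟩

theorem c_mm_011_s : CertNE 0 536870912 536870912 536870912 1040187392 5207648 3 eng mog cd0q0 cd5q1 pd1 true false false .pnn 0 1 1
    ndB0q0 ndB5q1 pcB1 cut_mm_011_s Ext.none :=
  certNE0 (fam := true) (s1 := false) (s2 := false) (a := 0) (b := 1) (c := 1) (cn := .pnn) (n1 := ndB0q0) (n2 := ndB5q1) (pc := pcB1) (cut := cut_mm_011_s) (xt := Ext.none) (P1 := 0) (W1 := 536870912) (P2 := 536870912) (W2 := 536870912) (P3 := 1040187392) (W3 := 5207648) (N0 := 3) (En := eng) (mo := mog) (C1 := cd0q0) (C2 := cd5q1) (C3 := pd1)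
    rfl k0_mm_011_s

noncomputable def cut_mm_012_s : Cut := Cut.of [[⟨4, 0, 0, 1449551462⟩]]

noncomputable def f_mm_012_s : ℕ → ℕ → ℕ → ℕ → Bool := onCell 0 536870912 536870912 536870912 1040187392 5207648
    (rowNE 3 eng mog cd0q0 cd5q1 pd2 0 true false false .pnp 0 1 2 (qsf 0 536870912 536870912 536870912 2) ndB0q0 ndB5q1 pcB2 cut_mm_012_s Ext.none)

def k0_mm_012_s : ∃ t, chk3 f_mm_012_s t 1 1 1 = true :=
  ⟨(l 4), by decide +kernel⟩

theorem c_mm_012_s : CertNE 0 536870912 536870912 536870912 1040187392 5207648 3 eng mog cd0q0 cd5q1 pd2 true false false .pnp 0 1 2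
    ndB0q0 ndB5q1 pcB2 cut_mm_012_s Ext.none :=
  certNE0 (fam := true) (s1 := false) (s2 := false) (a := 0) (b := 1) (c := 2) (cn := .pnp) (n1 := ndB0q0) (n2 := ndB5q1) (pc := pcB2) (cut := cut_mm_012_s) (xt := Ext.none) (P1 := 0) (W1 := 536870912) (P2 := 536870912) (W2 := 536870912) (P3 := 1040187392) (W3 := 5207648) (N0 := 3) (En := eng) (mo := mog) (C1 := cd0q0) (C2 := cd5q1) (C3 := pd2)
    rfl k0_mm_012_s

noncomputable def cut_mm_022_s : Cut := Cut.of [[⟨4, 0, 0, 1449551462⟩]]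

noncomputable def f_mm_022_s : ℕ → ℕ → ℕ → ℕ → Bool := onCell 0 536870912 1073741824 536870912 1040187392 5207648
    (rowNE 3 eng mog cd0q0 cd5q2 pd2 0 true false false .pp 0 2 2 (qsf 0 536870912 1073741824 536870912 2) ndB0q0 ndB5q2 pcB2 cut_mm_022_s Ext.none)

def k0_mm_022_s : ∃ t, chk3 f_mm_022_s t 1 1 1 = true :=
  ⟨(l 4), by decide +kernel⟩

theorem c_mm_022_s : CertNE 0 536870912 1073741824 536870912 1040187392 5207648 3 eng mog cd0q0 cd5q2 pd2 true false false .pp 0 2 2
    ndB0q0 ndB5q2 pcB2 cut_mm_022_s Ext.none :=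
  certNE0 (fam := true) (s1 := false) (s2 := false) (a := 0) (b := 2) (c := 2) (cn := .pp) (n1 := ndB0q0) (n2 := ndB5q2) (pc := pcB2) (cut := cut_mm_022_s) (xt := Ext.none) (P1 := 0) (W1 := 536870912) (P2 := 1073741824) (W2 := 536870912) (P3 := 1040187392) (W3 := 5207648) (N0 := 3) (En := eng) (mo := mog) (C1 := cd0q0) (C2 := cd5q2) (C3 := pd2)
    rfl k0_mm_022_s

noncomputable def cut_mm_023_s : Cut := Cut.of [[⟨4, 0, 0, 1449551462⟩]]

noncomputable def f_mm_023_s : ℕ → ℕ → ℕ → ℕ → Bool := onCell 0 536870912 1073741824 536870912 1040187392 5207648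
    (rowNE 3 eng mog cd0q0 cd5q2 pd3 0 true false false .up 0 2 3 (qsf 0 536870912 1073741824 536870912 3) ndB0q0 ndB5q2 pcB3 cut_mm_023_s Ext.none)

def k0_mm_023_s : ∃ t, chk3 f_mm_023_s t 1 1 1 = true :=
  ⟨(l 4), by decide +kernel⟩

theorem c_mm_023_s : CertNE 0 536870912 1073741824 536870912 1040187392 5207648 3 eng mog cd0q0 cd5q2 pd3 true false false .up 0 2 3
    ndB0q0 ndB5q2 pcB3 cut_mm_023_s Ext.none :=
  certNE0 (fam := true) (s1 := false) (s2 := false) (a := 0) (b := 2) (c := 3) (cn := .up) (n1 := ndB0q0) (n2 := ndB5q2) (pc := pcB3) (cut := cut_mm_023_s) (xt := Ext.none) (P1 := 0) (W1 := 536870912) (P2 := 1073741824) (W2 := 536870912) (P3 := 1040187392) (W3 := 5207648) (N0 := 3) (En := eng) (mo := mog) (C1 := cd0q0) (C2 := cd5q2) (C3 := pd3)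
    rfl k0_mm_023_s

noncomputable def cut_mm_033_s : Cut := Cut.of [[⟨4, 0, 0, 1449551462⟩]]

noncomputable def f_mm_033_s : ℕ → ℕ → ℕ → ℕ → Bool := onCell 0 536870912 0 1230186008 1040187392 5207648
    (rowNE 3 eng mog cd0q0 cd5q3 pd3 0 true false false .pnn 0 3 3 (qsf 0 536870912 0 1230186008 3) ndB0q0 ndB5q3 pcB3 cut_mm_033_s Ext.none)

def k0_mm_033_s : ∃ t, chk3 f_mm_033_s t 1 1 1 = true :=
  ⟨(l 4), by decide +kernel⟩

theorem c_mm_033_s : CertNE 0 536870912 0 1230186008 1040187392 5207648 3 eng mog cd0q0 cd5q3 pd3 true false false .pnn 0 3 3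
    ndB0q0 ndB5q3 pcB3 cut_mm_033_s Ext.none :=
  certNE0 (fam := true) (s1 := false) (s2 := false) (a := 0) (b := 3) (c := 3) (cn := .pnn) (n1 := ndB0q0) (n2 := ndB5q3) (pc := pcB3) (cut := cut_mm_033_s) (xt := Ext.none) (P1 := 0) (W1 := 536870912) (P2 := 0) (W2 := 1230186008) (P3 := 1040187392) (W3 := 5207648) (N0 := 3) (En := eng) (mo := mog) (C1 := cd0q0) (C2 := cd5q3) (C3 := pd3)
    rfl k0_mm_033_s

noncomputable def cut_mm_101_s : Cut := Cut.of [[⟨4, 0, 0, 1449551462⟩]]

noncomputable def f_mm_101_s : ℕ → ℕ → ℕ → ℕ → Bool := onCell 536870912 536870912 0 536870912 1040187392 5207648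
    (rowNE 3 eng mog cd0q1 cd5q0 pd1 0 true false false .npn 1 0 1 (qsf 536870912 536870912 0 536870912 1) ndB0q1 ndB5q0 pcB1 cut_mm_101_s Ext.none)

def k0_mm_101_s : ∃ t, chk3 f_mm_101_s t 1 1 1 = true :=
  ⟨(l 4), by decide +kernel⟩

theorem c_mm_101_s : CertNE 536870912 536870912 0 536870912 1040187392 5207648 3 eng mog cd0q1 cd5q0 pd1 true false false .npn 1 0 1
    ndB0q1 ndB5q0 pcB1 cut_mm_101_s Ext.none :=
  certNE0 (fam := true) (s1 := false) (s2 := false) (a := 1) (b := 0) (c := 1) (cn := .npn) (n1 := ndB0q1) (n2 := ndB5q0) (pc := pcB1) (cut := cut_mm_101_s) (xt := Ext.none) (P1 := 536870912) (W1 := 536870912) (P2 := 0) (W2 := 536870912) (P3 := 1040187392) (W3 := 5207648) (N0 := 3) (En := eng) (mo := mog) (C1 := cd0q1) (C2 := cd5q0) (C3 := pd1)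
    rfl k0_mm_101_s

noncomputable def cut_mm_102_s : Cut := Cut.of [[⟨4, 0, 0, 1449551462⟩]]

noncomputable def f_mm_102_s : ℕ → ℕ → ℕ → ℕ → Bool := onCell 536870912 536870912 0 536870912 1040187392 5207648
    (rowNE 3 eng mog cd0q1 cd5q0 pd2 0 true false false .npp 1 0 2 (qsf 536870912 536870912 0 536870912 2) ndB0q1 ndB5q0 pcB2 cut_mm_102_s Ext.none)

def k0_mm_102_s : ∃ t, chk3 f_mm_102_s t 1 1 1 = true :=
  ⟨(l 4), by decide +kernel⟩

theorem c_mm_102_s : CertNE 536870912 536870912 0 536870912 1040187392 5207648 3 eng mog cd0q1 cd5q0 pd2 true false false .npp 1 0 2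
    ndB0q1 ndB5q0 pcB2 cut_mm_102_s Ext.none :=
  certNE0 (fam := true) (s1 := false) (s2 := false) (a := 1) (b := 0) (c := 2) (cn := .npp) (n1 := ndB0q1) (n2 := ndB5q0) (pc := pcB2) (cut := cut_mm_102_s) (xt := Ext.none) (P1 := 536870912) (W1 := 536870912) (P2 := 0) (W2 := 536870912) (P3 := 1040187392) (W3 := 5207648) (N0 := 3) (En := eng) (mo := mog) (C1 := cd0q1) (C2 := cd5q0) (C3 := pd2)
    rfl k0_mm_102_s

noncomputable def cut_mm_112_s : Cut := Cut.of [[⟨4, 0, 0, 1449551462⟩]]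

noncomputable def f_mm_112_s : ℕ → ℕ → ℕ → ℕ → Bool := onCell 536870912 536870912 536870912 536870912 1040187392 5207648
    (rowNE 3 eng mog cd0q1 cd5q1 pd2 0 true false false .dn 1 1 2 (qsf 536870912 536870912 536870912 536870912 2) ndB0q1 ndB5q1 pcB2 cut_mm_112_s Ext.none)

def k0_mm_112_s : ∃ t, chk3 f_mm_112_s t 1 1 1 = true :=
  ⟨(l 4), by decide +kernel⟩

theorem c_mm_112_s : CertNE 536870912 536870912 536870912 536870912 1040187392 5207648 3 eng mog cd0q1 cd5q1 pd2 true false false .dn 1 1 2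
    ndB0q1 ndB5q1 pcB2 cut_mm_112_s Ext.none :=
  certNE0 (fam := true) (s1 := false) (s2 := false) (a := 1) (b := 1) (c := 2) (cn := .dn) (n1 := ndB0q1) (n2 := ndB5q1) (pc := pcB2) (cut := cut_mm_112_s) (xt := Ext.none) (P1 := 536870912) (W1 := 536870912) (P2 := 536870912) (W2 := 536870912) (P3 := 1040187392) (W3 := 5207648) (N0 := 3) (En := eng) (mo := mog) (C1 := cd0q1) (C2 := cd5q1) (C3 := pd2)
    rfl k0_mm_112_s

noncomputable def cut_mm_113_s : Cut := Cut.of [[⟨4, 0, 0, 1449551462⟩]]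

noncomputable def f_mm_113_s : ℕ → ℕ → ℕ → ℕ → Bool := onCell 536870912 536870912 536870912 536870912 1040187392 5207648
    (rowNE 3 eng mog cd0q1 cd5q1 pd3 0 true false false .nn 1 1 3 (qsf 536870912 536870912 536870912 536870912 3) ndB0q1 ndB5q1 pcB3 cut_mm_113_s Ext.none)

def k0_mm_113_s : ∃ t, chk3 f_mm_113_s t 1 1 1 = true :=
  ⟨(l 4), by decide +kernel⟩

theorem c_mm_113_s : CertNE 536870912 536870912 536870912 536870912 1040187392 5207648 3 eng mog cd0q1 cd5q1 pd3 true false false .nn 1 1 3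
    ndB0q1 ndB5q1 pcB3 cut_mm_113_s Ext.none :=
  certNE0 (fam := true) (s1 := false) (s2 := false) (a := 1) (b := 1) (c := 3) (cn := .nn) (n1 := ndB0q1) (n2 := ndB5q1) (pc := pcB3) (cut := cut_mm_113_s) (xt := Ext.none) (P1 := 536870912) (W1 := 536870912) (P2 := 536870912) (W2 := 536870912) (P3 := 1040187392) (W3 := 5207648) (N0 := 3) (En := eng) (mo := mog) (C1 := cd0q1) (C2 := cd5q1) (C3 := pd3)
    rfl k0_mm_113_s

noncomputable def cut_mm_123_s : Cut := Cut.of [[⟨4, 0, 0, 1449551462⟩]]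

noncomputable def f_mm_123_s : ℕ → ℕ → ℕ → ℕ → Bool := onCell 536870912 536870912 1073741824 536870912 1040187392 5207648
    (rowNE 3 eng mog cd0q1 cd5q2 pd3 0 true false false .npn 1 2 3 (qsf 536870912 536870912 1073741824 536870912 3) ndB0q1 ndB5q2 pcB3 cut_mm_123_s Ext.none)

def k0_mm_123_s : ∃ t, chk3 f_mm_123_s t 1 1 1 = true :=
  ⟨(l 4), by decide +kernel⟩

theorem c_mm_123_s : CertNE 536870912 536870912 1073741824 536870912 1040187392 5207648 3 eng mog cd0q1 cd5q2 pd3 true false false .npn 1 2 3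
    ndB0q1 ndB5q2 pcB3 cut_mm_123_s Ext.none :=
  certNE0 (fam := true) (s1 := false) (s2 := false) (a := 1) (b := 2) (c := 3) (cn := .npn) (n1 := ndB0q1) (n2 := ndB5q2) (pc := pcB3) (cut := cut_mm_123_s) (xt := Ext.none) (P1 := 536870912) (W1 := 536870912) (P2 := 1073741824) (W2 := 536870912) (P3 := 1040187392) (W3 := 5207648) (N0 := 3) (En := eng) (mo := mog) (C1 := cd0q1) (C2 := cd5q2) (C3 := pd3)
    rfl k0_mm_123_s

noncomputable def cut_mm_133_s : Cut := Cut.of [[⟨4, 0, 0, 1449551462⟩]]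

noncomputable def f_mm_133_s : ℕ → ℕ → ℕ → ℕ → Bool := onCell 536870912 536870912 0 1230186008 1040187392 5207648
    (rowNE 3 eng mog cd0q1 cd5q3 pd3 0 true false false .dn 1 3 3 (qsf 536870912 536870912 0 1230186008 3) ndB0q1 ndB5q3 pcB3 cut_mm_133_s Ext.none)

def k0_mm_133_s : ∃ t, chk3 f_mm_133_s t 1 1 1 = true :=
  ⟨(l 4), by decide +kernel⟩

theorem c_mm_133_s : CertNE 536870912 536870912 0 1230186008 1040187392 5207648 3 eng mog cd0q1 cd5q3 pd3 true false false .dn 1 3 3
    ndB0q1 ndB5q3 pcB3 cut_mm_133_s Ext.none :=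
  certNE0 (fam := true) (s1 := false) (s2 := false) (a := 1) (b := 3) (c := 3) (cn := .dn) (n1 := ndB0q1) (n2 := ndB5q3) (pc := pcB3) (cut := cut_mm_133_s) (xt := Ext.none) (P1 := 536870912) (W1 := 536870912) (P2 := 0) (W2 := 1230186008) (P3 := 1040187392) (W3 := 5207648) (N0 := 3) (En := eng) (mo := mog) (C1 := cd0q1) (C2 := cd5q3) (C3 := pd3)
    rfl k0_mm_133_s

noncomputable def cut_mm_202_s : Cut := Cut.of [[⟨4, 0, 0, 1449551462⟩]]

noncomputable def f_mm_202_s : ℕ → ℕ → ℕ → ℕ → Bool := onCell 0 536870912 0 536870912 1040187392 5207648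
    (rowNE 3 eng mog cd0q2 cd5q0 pd2 0 true false false .pp 2 0 2 (qsf 0 536870912 0 536870912 2) ndB0q2 ndB5q0 pcB2 cut_mm_202_s Ext.none)

def k0_mm_202_s : ∃ t, chk3 f_mm_202_s t 1 1 1 = true :=
  ⟨(l 4), by decide +kernel⟩

theorem c_mm_202_s : CertNE 0 536870912 0 536870912 1040187392 5207648 3 eng mog cd0q2 cd5q0 pd2 true false false .pp 2 0 2
    ndB0q2 ndB5q0 pcB2 cut_mm_202_s Ext.none :=
  certNE0 (fam := true) (s1 := false) (s2 := false) (a := 2) (b := 0) (c := 2) (cn := .pp) (n1 := ndB0q2) (n2 := ndB5q0) (pc := pcB2) (cut := cut_mm_202_s) (xt := Ext.none) (P1 := 0) (W1 := 536870912) (P2 := 0) (W2 := 536870912) (P3 := 1040187392) (W3 := 5207648) (N0 := 3) (En := eng) (mo := mog) (C1 := cd0q2) (C2 := cd5q0) (C3 := pd2)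
    rfl k0_mm_202_s

noncomputable def cut_mm_203_s : Cut := Cut.of [[⟨4, 0, 0, 1449551462⟩]]

noncomputable def f_mm_203_s : ℕ → ℕ → ℕ → ℕ → Bool := onCell 0 536870912 0 536870912 1040187392 5207648
    (rowNE 3 eng mog cd0q2 cd5q0 pd3 0 true false false .up 2 0 3 (qsf 0 536870912 0 536870912 3) ndB0q2 ndB5q0 pcB3 cut_mm_203_s Ext.none)

def k0_mm_203_s : ∃ t, chk3 f_mm_203_s t 1 1 1 = true :=
  ⟨(l 4), by decide +kernel⟩

theorem c_mm_203_s : CertNE 0 536870912 0 536870912 1040187392 5207648 3 eng mog cd0q2 cd5q0 pd3 true false false .up 2 0 3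
    ndB0q2 ndB5q0 pcB3 cut_mm_203_s Ext.none :=
  certNE0 (fam := true) (s1 := false) (s2 := false) (a := 2) (b := 0) (c := 3) (cn := .up) (n1 := ndB0q2) (n2 := ndB5q0) (pc := pcB3) (cut := cut_mm_203_s) (xt := Ext.none) (P1 := 0) (W1 := 536870912) (P2 := 0) (W2 := 536870912) (P3 := 1040187392) (W3 := 5207648) (N0 := 3) (En := eng) (mo := mog) (C1 := cd0q2) (C2 := cd5q0) (C3 := pd3)
    rfl k0_mm_203_s

noncomputable def cut_mm_213_s : Cut := Cut.of [[⟨4, 0, 0, 1449551462⟩]]

noncomputable def f_mm_213_s : ℕ → ℕ → ℕ → ℕ → Bool := onCell 0 536870912 536870912 536870912 1040187392 5207648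
    (rowNE 3 eng mog cd0q2 cd5q1 pd3 0 true false false .pnn 2 1 3 (qsf 0 536870912 536870912 536870912 3) ndB0q2 ndB5q1 pcB3 cut_mm_213_s Ext.none)

def k0_mm_213_s : ∃ t, chk3 f_mm_213_s t 1 1 1 = true :=
  ⟨(l 4), by decide +kernel⟩

theorem c_mm_213_s : CertNE 0 536870912 536870912 536870912 1040187392 5207648 3 eng mog cd0q2 cd5q1 pd3 true false false .pnn 2 1 3
    ndB0q2 ndB5q1 pcB3 cut_mm_213_s Ext.none :=
  certNE0 (fam := true) (s1 := false) (s2 := false) (a := 2) (b := 1) (c := 3) (cn := .pnn) (n1 := ndB0q2) (n2 := ndB5q1) (pc := pcB3) (cut := cut_mm_213_s) (xt := Ext.none) (P1 := 0) (W1 := 536870912) (P2 := 536870912) (W2 := 536870912) (P3 := 1040187392) (W3 := 5207648) (N0 := 3) (En := eng) (mo := mog) (C1 := cd0q2) (C2 := cd5q1) (C3 := pd3)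
    rfl k0_mm_213_s

end Pool.Agent.Strip051.G.I9688_9736.Tab.CS.BA05

namespace Pool.Agent.Strip051.G.I9688_9736.Tab.CS.BB00

open Pool.Agent.Strip051.PB Pool.Agent.Strip051.PB.T
open Pool.Agent.Strip051.G.I9688_9736.Tab

noncomputable def cut_pp_001_s : Cut := Cut.of [[⟨4, 0, 0, 1449551462⟩]]

noncomputable def f_pp_001_s : ℕ → ℕ → ℕ → ℕ → Bool := onCell 0 536870912 0 536870912 1040187392 5207648
    (rowNE 3 eng mog cd0q0 cd0q1 pd0 1 false true true .up 0 0 1 (qsf 0 536870912 536870912 536870912 0) ndB0q0 ndB0q1 pcB0 cut_pp_001_s Ext.none)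

def k0_pp_001_s : ∃ t, chk3 f_pp_001_s t 1 1 1 = true :=
  ⟨(l 3), by decide +kernel⟩

theorem c_pp_001_s : CertNE 0 536870912 536870912 536870912 1040187392 5207648 3 eng mog cd0q0 cd0q1 pd0 false true true .up 0 0 1
    ndB0q0 ndB0q1 pcB0 cut_pp_001_s Ext.none :=
  certNE1 (fam := false) (s1 := true) (s2 := true) (a := 0) (b := 0) (c := 1) (cn := .up) (n1 := ndB0q0) (n2 := ndB0q1) (pc := pcB0) (cut := cut_pp_001_s) (xt := Ext.none) (P1 := 0) (W1 := 536870912) (P2 := 536870912) (W2 := 536870912) (P3 := 1040187392) (W3 := 5207648) (N0 := 3) (En := eng) (mo := mog) (C1 := cd0q0) (C2 := cd0q1) (C3 := pd0)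
    rfl (fun _ => rfl) k0_pp_001_s

noncomputable def cut_pp_001_t : Cut := Cut.of [[⟨3, 0, 0, 2845415833⟩]]

noncomputable def f_pp_001_t : ℕ → ℕ → ℕ → ℕ → Bool := onCell 0 536870912 536870912 536870912 1040187392 5207648
    (rowNE 3 eng mog cd0q0 cd0q1 pd0 0 false true true .up 0 0 1 (qsf 0 536870912 536870912 536870912 0) ndB0q0 ndB0q1 pcB0 cut_pp_001_t Ext.none)

def k0_pp_001_t : ∃ t, chk3 f_pp_001_t t 1 1 1 = true :=
  ⟨(l 6), by decide +kernel⟩

theorem c_pp_001_t : CertNE 0 536870912 536870912 536870912 1040187392 5207648 3 eng mog cd0q0 cd0q1 pd0 false true true .up 0 0 1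
    ndB0q0 ndB0q1 pcB0 cut_pp_001_t Ext.none :=
  certNE0 (fam := false) (s1 := true) (s2 := true) (a := 0) (b := 0) (c := 1) (cn := .up) (n1 := ndB0q0) (n2 := ndB0q1) (pc := pcB0) (cut := cut_pp_001_t) (xt := Ext.none) (P1 := 0) (W1 := 536870912) (P2 := 536870912) (W2 := 536870912) (P3 := 1040187392) (W3 := 5207648) (N0 := 3) (En := eng) (mo := mog) (C1 := cd0q0) (C2 := cd0q1) (C3 := pd0)
    rfl k0_pp_001_t

noncomputable def cut_pp_011_s : Cut := Cut.of [[⟨4, 0, 0, 1449551462⟩], [⟨0, 0, 0, 26843545⟩, ⟨1, 1, 0, 26843545⟩, ⟨2, 1, 0, 26843545⟩]]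

noncomputable def f_pp_011_s : ℕ → ℕ → ℕ → ℕ → Bool := onCell 536870912 536870912 536870912 536870912 1040187392 5207648
    (rowNE 3 eng mog cd0q0 cd0q1 pd1 2 false true true .pnn 0 1 1 (qsf 0 536870912 536870912 536870912 1) ndB0q0 ndB0q1 pcB1 cut_pp_011_s Ext.none)

def k0_pp_011_s : ∃ t, chk3 f_pp_011_s t 1 1 1 = true :=
  ⟨(a (l 3) (b (l 3) (a (l 3) (b (l 3) (a (l 3) (b (l 3) (a (l 3) (b (l 3) (b (l 3) (a (l 3) (l 14))))))))))), by decide +kernel⟩

theorem c_pp_011_s : CertNE 0 536870912 536870912 536870912 1040187392 5207648 3 eng mog cd0q0 cd0q1 pd1 false true true .pnn 0 1 1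
    ndB0q0 ndB0q1 pcB1 cut_pp_011_s Ext.none :=
  certNE2 (fam := false) (s1 := true) (s2 := true) (a := 0) (b := 1) (c := 1) (cn := .pnn) (n1 := ndB0q0) (n2 := ndB0q1) (pc := pcB1) (cut := cut_pp_011_s) (xt := Ext.none) (P1 := 0) (W1 := 536870912) (P2 := 536870912) (W2 := 536870912) (P3 := 1040187392) (W3 := 5207648) (N0 := 3) (En := eng) (mo := mog) (C1 := cd0q0) (C2 := cd0q1) (C3 := pd1)
    rfl (fun _ => rfl) k0_pp_011_s

noncomputable def cut_pp_011_t : Cut := Cut.of [[⟨3, 0, 0, 2845415833⟩], [⟨0, 0, 0, 26843545⟩, ⟨1, 1, 0, 26843545⟩, ⟨2, 1, 0, 26843545⟩]]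

noncomputable def f_pp_011_t : ℕ → ℕ → ℕ → ℕ → Bool := onCell 0 536870912 536870912 536870912 1040187392 5207648
    (rowNE 3 eng mog cd0q0 cd0q1 pd1 0 false true true .pnn 0 1 1 (qsf 0 536870912 536870912 536870912 1) ndB0q0 ndB0q1 pcB1 cut_pp_011_t Ext.none)

def k0_pp_011_t : ∃ t, chk3 f_pp_011_t t 1 1 1 = true :=
  ⟨(l 6), by decide +kernel⟩

theorem c_pp_011_t : CertNE 0 536870912 536870912 536870912 1040187392 5207648 3 eng mog cd0q0 cd0q1 pd1 false true true .pnn 0 1 1
    ndB0q0 ndB0q1 pcB1 cut_pp_011_t Ext.none :=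
  certNE0 (fam := false) (s1 := true) (s2 := true) (a := 0) (b := 1) (c := 1) (cn := .pnn) (n1 := ndB0q0) (n2 := ndB0q1) (pc := pcB1) (cut := cut_pp_011_t) (xt := Ext.none) (P1 := 0) (W1 := 536870912) (P2 := 536870912) (W2 := 536870912) (P3 := 1040187392) (W3 := 5207648) (N0 := 3) (En := eng) (mo := mog) (C1 := cd0q0) (C2 := cd0q1) (C3 := pd1)
    rfl k0_pp_011_t

noncomputable def cut_pp_012_s : Cut := Cut.of [[⟨4, 0, 0, 1449551462⟩], [⟨0, 0, 0, 16777216⟩, ⟨1, 1, 0, 16777216⟩, ⟨2, 1, 0, 16777216⟩]]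

noncomputable def f_pp_012_s : ℕ → ℕ → ℕ → ℕ → Bool := onCell 536870912 536870912 0 536870912 1040187392 5207648
    (rowNE 3 eng mog cd0q0 cd0q2 pd1 2 false true true .pnp 0 1 2 (qsf 0 536870912 0 536870912 1) ndB0q0 ndB0q2 pcB1 cut_pp_012_s Ext.none)

def k0_pp_012_s : ∃ t, chk3 f_pp_012_s t 2 1 1 = true :=
  ⟨(b (b (a (l 2) (a (a (a (l 2) (b (l 16658080) (l 127406007991))) (b (a (l 16618832) (l 16583864)) (b (a (l 16744944) (l 16706704)) (l 120426692599)))) (a (b (l 16518936) (a (l 16685376) (l 16651888))) (a (l 16405768) (l 16448224))))) (a (l 3) (a (l 3) (b (a (a (l 196125544535) (l 148343992279)) (b (l 16705064) (a (l 175187604279) (l 16747120)))) (l 3))))) (l 3)), by decide +kernel⟩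

def k1_pp_012_s : ∃ t, chk3 f_pp_012_s t 6 1 1 = true :=
  ⟨(b (a (b (a (b (b (l 16459440) (l 16505664)) (l 16589112)) (b (b (l 16486408) (l 16505168)) (l 16568704))) (b (a (a (l 16711824) (l 16666080)) (l 16596264)) (a (b (a (l 170892621047) (l 16764400)) (l 3)) (b (l 16727960) (a (l 152638992935) (l 16760672)))))) (b (a (b (l 16524872) (l 16549088)) (b (l 16544496) (l 16590624))) (a (b (l 16619240) (a (l 16719856) (l 16684904))) (b (l 16641792) (a (l 16676328) (l 16694056)))))) (b (a (b (a (l 3) (b (l 202567922567) (l 3))) (l 3)) (b (a (b (a (l 16681888) (l 16757968)) (a (l 3) (l 158007622055))) (b (a (l 16721120) (l 16731600)) (a (l 85530031639) (l 16757304)))) (a (l 3) (b (a (l 3) (b (l 16712728) (l 218674051639))) (l 3))))) (l 3))), by decide +kernel⟩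

def k2_pp_012_s : ∃ t, chk3 f_pp_012_s t 7 2 1 = true :=
  ⟨(a (b (b (l 6) (a (l 16538680) (l 16595472))) (a (b (l 16566280) (b (l 16672968) (l 16692688))) (b (b (a (l 16567688) (l 16536192)) (a (l 16577448) (l 16525864))) (a (l 16617608) (l 16566512))))) (b (l 6) (a (b (a (b (l 16519968) (l 16462304)) (l 16490936)) (a (l 16471128) (b (b (l 16437592) (l 16443376)) (l 16475640)))) (b (a (l 16452472) (l 6)) (b (a (a (l 16393048) (l 16408408)) (l 16413992)) (a (a (l 16430104) (l 16401816)) (b (a (l 16371216) (l 16369656)) (a (l 16378704) (b (l 16351432) (l 16354744)))))))))), by decide +kernel⟩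

def k3_pp_012_s : ∃ t, chk3 f_pp_012_s t 7 6 1 = true :=
  ⟨(a (a (b (b (l 16693000) (a (l 16747488) (l 16723152))) (b (a (b (l 16763568) (l 16690240)) (l 16739200)) (a (b (l 238538326855) (l 3)) (b (l 16707160) (a (l 259476269831) (l 135995976439)))))) (b (a (b (l 16660264) (l 16669944)) (b (l 16616088) (l 16630432))) (a (b (l 16701744) (b (l 16746968) (l 16721568))) (b (a (l 16697992) (l 16679304)) (a (l 16713472) (l 16676144)))))) (a (b (a (b (l 16569224) (l 16609648)) (b (l 16520952) (l 16546784))) (a (b (l 16609344) (a (l 16680528) (l 16665696))) (b (a (l 16624664) (l 16606712)) (a (b (l 16659904) (l 16683856)) (b (l 16642656) (l 16665568)))))) (b (a (b (l 16463328) (a (l 16528880) (l 16498968))) (b (a (l 16416840) (l 16384624)) (a (l 16465920) (l 16432256)))) (a (b (a (l 16580560) (l 16527344)) (a (l 16586696) (b (l 16582440) (l 16602320)))) (b (a (l 16491568) (l 16432296)) (a (b (l 16542632) (l 16560984)) (b (l 16502184) (l 16519784)))))))), by decide +kernel⟩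

def k4_pp_012_s : ∃ t, chk3 f_pp_012_s t 14 7 1 = true :=
  ⟨(b (a (l 3) (b (a (b (a (l 272361214375) (l 94656863927)) (l 3)) (a (b (l 16762072) (b (l 66739610663) (l 305110339751))) (b (l 16726488) (a (l 69960872871) (l 16764040))))) (a (l 3) (b (a (l 3) (b (a (l 3) (b (l 16734680) (l 319069031927))) (l 3))) (l 3))))) (l 3)), by decide +kernel⟩

def k5_pp_012_s : ∃ t, chk3 f_pp_012_s t 30 14 1 = true :=
  ⟨(a (b (a (b (l 16711760) (b (l 16727776) (l 16738048))) (b (l 16699248) (b (l 16714920) (l 16725016)))) (b (a (b (a (l 67276566535) (l 16744600)) (a (b (l 247128353255) (l 3)) (b (l 16772888) (a (l 257328901255) (l 16755344))))) (b (a (l 16737560) (l 16751048)) (a (l 16757616) (l 16739360)))) (a (l 3) (b (a (b (a (l 135459151079) (l 16774256)) (a (l 3) (l 264845096215))) (b (l 16747336) (a (l 53317930247) (l 16750976)))) (a (l 3) (b (a (l 338933257671) (b (l 16755312) (l 272898168503))) (l 3))))))) (b (a (b (l 16684648) (b (l 16721200) (l 16709216))) (b (l 16666432)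 (a (l 16711472) (l 16699640)))) (b (a (b (a (l 16742896) (l 16733864)) (a (l 16731040) (l 16721944))) (b (a (l 16723872) (l 16711984)) (a (l 16712000) (l 16721184)))) (a (b (b (a (l 16738976) (l 16750896)) (a (l 16744664) (l 16735680))) (a (b (a (l 16752688) (l 16748416)) (a (b (l 259476410247) (l 3)) (b (l 16773944) (a (l 151565311783) (l 16775920))))) (b (a (l 16764952) (l 16760328)) (a (l 16750136) (l 16745592))))) (b (a (b (l 16741064) (l 16725968)) (b (l 16729440) (l 16735472))) (a (b (a (l 16755488) (l 16750440)) (a (l 16761816) (l 16756872))) (b (l 16741832) (a (l 16751464) (l 16745200))))))))), by decide +kernel⟩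

def k6_pp_012_s : ∃ t, chk3 f_pp_012_s t 31 14 1 = true :=
  ⟨(a (b (b (a (l 16658600) (l 16620536)) (a (a (l 16684728) (l 16667192)) (a (l 16647752) (l 16627096)))) (a (b (b (a (l 16697024) (l 16679456)) (a (l 16706336) (l 16688912))) (b (a (l 16696864) (b (l 16697544) (l 16703824))) (a (b (l 16727528) (l 16713328)) (b (l 16710768) (l 16697488))))) (b (b (a (l 16660048) (l 16639232)) (a (l 16669424) (l 16649544))) (b (a (l 16661040) (l 16663336)) (a (b (l 16693240) (l 16701816)) (b (l 16676168) (l 16685688))))))) (b (a (b (l 16578296) (a (l 16605024) (l 16584512))) (b (l 16536544) (b (l 16550864) (l 16561432)))) (b (a (b (a (l 16618560) (l 16598912)) (a (l 16629928) (l 16612192))) (b (l 16574024) (a (l 16596712) (l 16583304)))) (a (b (a (l 16645704) (l 16629664)) (a (b (l 16659856) (l 16670200)) (b (l 16644976) (l 16656048)))) (b (a (l 16615704) (l 16603664)) (a (l 16637864) (l 16627008))))))), by decide +kernel⟩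

def k7_pp_012_s : ∃ t, chk3 f_pp_012_s t 30 15 1 = true :=
  ⟨(b (a (l 3) (b (a (b (a (b (a (l 3) (b (l 291688640231) (l 3))) (l 3)) (b (a (b (a (l 142975394951) (l 16774680)) (a (l 3) (l 264845123991))) (b (l 16750336) (l 16764000))) (a (l 3) (b (a (l 292762398887) (b (l 16775760) (l 156397170951))) (l 354502547655))))) (l 3)) (b (a (b (a (l 16763032) (l 16752968)) (a (b (l 16762664) (a (b (l 16760960) (l 300278597511)) (l 16764752))) (b (l 16757944) (l 16766512)))) (b (a (l 16747688) (l 16730992)) (a (b (l 16763264) (l 16756152)) (b (l 16757248) (l 16760832))))) (a (b (a (b (a (l 3) (b (l 281488123959) (l 3))) (l 3)) (b (a (a (b (l 16775968) (l 171429560871)) (l 16765136)) (l 16752896)) (a (b (l 320679687799) (l 3)) (b (l 38285584743) (a (l 350744459911) (l 238538438135)))))) (l 3)) (b (a (b (l 16759592) (a (l 16764328) (l 16751304))) (b (l 16764472) (l 16757784))) (a (b (a (b (a (l 315847859255) (l 16776728)) (l 343765132535)) (b (l 16753968) (a (l 229411633623)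 (l 16776048)))) (a (l 3) (b (l 322290304839) (l 3)))) (b (l 16761544) (a (b (l 16765448) (a (l 335712078839) (l 16764544))) (l 16763856)))))))) (a (l 3) (b (a (l 3) (b (a (l 3) (b (a (l 3) (b (a (l 182166996615) (l 16776320)) (l 337322686231))) (l 3))) (l 3))) (l 3))))) (l 3)), by decide +kernel⟩

def k8_pp_012_s : ∃ t, chk3 f_pp_012_s t 62 60 1 = true :=
  ⟨(a (b (a (b (a (l 16745152) (l 16737800)) (a (l 16742072) (l 16745816))) (b (a (l 16730280) (l 16722632)) (a (l 16738848) (l 16731720)))) (a (b (a (b (l 16758480) (l 16762576)) (b (l 16752168) (l 16756544))) (a (b (l 16745648) (l 16759976)) (a (l 16753888) (l 16750992)))) (a (b (l 16737456) (b (l 16754800) (l 16759152))) (b (l 16741312) (l 16729880))))) (b (a (b (l 16690104) (a (l 16724504) (l 16717272))) (b (l 16695840) (a (l 16710072) (l 16702968)))) (a (b (b (l 16728528) (l 16712768)) (b (l 16728384) (l 16733264))) (b (a (l 16720968) (l 16714232)) (a (l 16731720) (l 16725328)))))), by decide +kernel⟩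

def k9_pp_012_s : ∃ t, chk3 f_pp_012_s t 62 61 1 = true :=
  ⟨(a (b (a (b (a (b (a (b (l 16753504) (l 16765712)) (l 16751856)) (a (b (a (l 356113169479) (l 260550152343)) (l 3)) (b (l 16754512) (a (l 318532215063) (l 16776584))))) (b (l 16758368) (l 16767328))) (a (b (a (l 3) (b (l 352891938791) (l 3))) (l 3)) (b (a (b (a (l 241759670279) (l 16775864)) (l 326048413239)) (l 16764376)) (a (l 3) (b (a (l 337322693447) (l 101099499575)) (l 368998062711)))))) (b (a (a (l 16756192) (l 16753392)) (b (l 16757464) (l 16761616))) (a (b (l 16760512) (a (b (l 16754024) (a (l 292225545383) (l 16776112))) (l 16762848))) (b (l 16755104) (l 16758920))))) (a (l 3) (b (a (b (a (b (l 340543924599) (l 3)) (b (l 38285583559) (a (l 357186914103) (b (l 16776664) (l 323900930439))))) (l 3)) (b (l 16767824) (a (b (a (l 311552896295) (l 16776344)) (l 355576307543)) (b (l 16753488) (a (l 102710112455) (l 16754624)))))) (a (l 3) (b (a (l 3) (b (a (l 378124877287) (a (l 323900926791) (l 110226306231)))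 (l 3))) (l 3)))))) (b (a (b (a (l 16743176) (l 16747632)) (a (a (l 16752904) (l 16750096)) (b (l 16754200) (l 16758352)))) (b (a (l 16741552) (l 16735472)) (a (l 16740040) (l 16744712)))) (a (b (a (b (l 16757304) (l 16766248)) (b (l 16762336) (l 16755696))) (a (b (a (b (l 16764968) (a (l 329269633863) (l 88751468055))) (l 16763312)) (a (b (l 371682433319) (l 3)) (b (a (b (l 16776624) (l 247128391271)) (l 16775808)) (a (l 3) (b (l 266455741975) (l 366313725479)))))) (b (l 16764648) (a (b (l 16763416) (l 16769104)) (l 16761728))))) (b (a (b (l 16756768) (l 16760736)) (b (l 16751144) (l 16755224))) (a (b (l 16754088) (l 16763048)) (a (l 16751960) (l 16749256))))))), by decide +kernel⟩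

def k10_pp_012_s : ∃ t, chk3 f_pp_012_s t 63 30 1 = true :=
  ⟨(b (a (b (a (b (l 16681136) (l 16682040)) (b (l 16667664) (l 16679688))) (a (b (a (l 16707584) (l 16701096)) (a (l 16718992) (l 16712784))) (b (l 16681536) (l 16704088)))) (b (a (b (l 16655968) (l 16668528)) (b (l 16645880) (l 16658856))) (a (b (l 16681344) (l 16693816)) (b (l 16672088) (l 16684928))))) (a (b (a (b (a (l 16729416) (l 16723456)) (a (l 16738904) (l 16733160))) (b (l 16704600) (a (l 16727680) (l 16722544)))) (a (b (a (l 16747608) (l 16742032)) (a (b (l 16753696) (l 16757584)) (l 16739760))) (b (a (l 16736712) (l 16731728)) (a (l 16745048) (l 16740192))))) (b (b (a (l 16705184) (l 16696576)) (a (a (l 16717752) (l 16713280)) (a (l 16709104) (l 16705224)))) (a (b (a (l 16727064) (l 16722704)) (a (l 16735640) (l 16731360))) (a (b (l 16718632) (l 16727248)) (b (l 16714728) (l 16723264))))))), by decide +kernel⟩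

def k11_pp_012_s : ∃ t, chk3 f_pp_012_s t 62 31 1 = true :=
  ⟨(b (a (l 3) (b (a (b (a (l 3) (b (a (b (a (l 348060114183) (b (l 16776344) (l 189683192903))) (l 389399162951)) (b (l 16764400) (a (b (l 16776816) (l 340007054535)) (l 16765520)))) (a (l 3) (b (a (l 3) (b (l 199883745719) (l 394767883223))) (l 3))))) (l 3)) (b (a (b (a (l 16762720) (l 16760136)) (b (a (a (a (l 97878274839) (l 16776176)) (l 16775224)) (l 16773304)) (a (a (l 368461208663) (b (l 16776536) (a (l 369534955239) (l 16777080)))) (l 16764584)))) (b (l 16761448) (a (l 16766368) (l 16769008)))) (a (b (a (l 423222047335) (b (a (b (a (l 304036706759) (l 16776696)) (l 366313728967)) (l 49023009655)) (a (l 3) (b (a (l 388325437271) (l 273971935543)) (l 3))))) (l 3)) (b (a (b (l 16763784) (a (b (l 16776232) (a (l 258939551431) (l 16776784))) (l 16764912))) (l 16767344)) (a (b (a (l 401747207399) (b (l 89288340231) (a (l 420000821767) (l 208473675143)))) (l 3)) (b (l 16769992) (a (b (a (l 350744476471)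 (l 16776864)) (l 407115920311)) (a (a (b (l 16776392) (l 306184190855)) (l 16771264)) (l 16765544))))))))) (a (l 3) (b (a (l 3) (b (a (l 3) (b (a (l 3) (b (l 357186926823) (l 3))) (l 3))) (l 3))) (l 3))))) (l 3)), by decide +kernel⟩

def k12_pp_012_s : ∃ t, chk3 f_pp_012_s t 126 62 1 = true :=
  ⟨(b (a (b (a (b (l 16750880) (l 16759824)) (a (l 16748776) (l 16756648))) (a (b (a (l 16759504) (l 16767392)) (a (l 16768312) (l 16760496))) (b (l 16758256) (b (l 16760976) (l 16762760))))) (b (a (l 16747632) (l 16737616)) (a (b (l 16758480) (l 16751656)) (b (l 16753752) (l 16757376))))) (a (b (a (b (a (b (a (b (l 16771144) (a (l 346449509815) (l 16776936))) (l 16765064)) (a (l 429127630023) (b (a (l 286856837431) (l 16776544)) (l 321753443095)))) (b (l 16763144) (b (l 16764464) (l 16773200)))) (a (l 3) (b (a (b (a (l 351281348519) (b (l 16776800) (l 16776568))) (l 452749950743)) (b (l 16765576) (a (l 301352352183) (l 16776616)))) (a (l 3) (b (l 342154537735) (l 3)))))) (b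 (a (l 16766704) (l 16758912)) (a (b (l 16769336) (a (b (l 16771288) (a (l 380272377735) (b (l 16776864) (l 319069092903)))) (l 16765208))) (l 16767672)))) (a (l 3) (b (a (b (a (l 466171723415) (b (a (l 221895453255) (l 16776680)) (l 362018761447))) (l 3)) (b (a (a (l 82309017767) (l 16765360)) (l 16764408)) (a (b (a (l 408726536055) (l 280951257335)) (l 3)) (b (l 16765704) (a (l 248202127911) (l 16776744)))))) (a (l 3) (b (a (l 3) (l 410874014295)) (l 3)))))) (b (a (b (a (l 16766920) (l 16764480)) (a (l 16765168) (l 16767952))) (b (l 16760896) (l 16759056))) (a (a (b (b (l 16762512) (l 16769472)) (b (a (b (l 92509565607) (a (l 435570081623) (l 292225546615))) (l 16770568)) (a (l 3) (b (a (l 267529481047) (l 16776800)) (l 399599730487))))) (b (l 16766104) (b (l 16768664) (a (b (l 16765352) (a (b (l 16776816) (l 209010556615)) (l 16776392))) (l 16764512))))) (b (a (l 16768864) (l 16766408)) (a (a (l 16767632) (l 16766368)) (l 16764496))))))), by decide +kernel⟩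

def k13_pp_012_s : ∃ t, chk3 f_pp_012_s t 127 62 1 = true :=
  ⟨(b (a (b (a (l 16743600) (l 16739256)) (a (b (l 16749192) (l 16752776)) (l 16736048))) (a (b (l 16735056) (l 16742152)) (b (l 16730904) (l 16737840)))) (a (b (a (b (l 16756200) (l 16759512)) (b (l 16751600) (l 16754824))) (a (b (l 16757520) (a (l 16767256) (l 16764808))) (b (l 16757984) (a (l 16762376) (l 16759968))))) (a (b (b (l 16747080) (l 16750232)) (b (l 16753304) (l 14))) (b (a (l 16745312) (l 16743096)) (l 14))))), by decide +kernel⟩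

def k14_pp_012_s : ∃ t, chk3 f_pp_012_s t 63 63 1 = true :=
  ⟨(a (b (a (l 3) (b (a (b (a (l 3) (b (a (b (a (l 457044918087) (b (l 16777040) (l 346449510007))) (l 3)) (b (l 16771056) (a (l 290614930247) (l 16776848)))) (l 450065594567))) (l 3)) (b (a (b (l 16769576) (a (b (a (b (l 16776864) (l 239075327671)) (l 16765952)) (a (l 475298529079) (b (l 16777088) (l 359871283127)))) (l 16773288))) (b (l 16767040) (l 16768752))) (a (b (a (l 3) (b (a (l 312089766711) (b (l 16776680) (c (l 16777112) (l 16777112)))) (l 432348856071))) (l 3)) (b (a (b (l 16770688) (a (b (l 16776904) (l 329269640215)) (l 16771240))) (l 16769840)) (a (b (a (l 3) (a (l 333027737527) (l 179482653767))) (l 3)) (b (l 16773768) (a (l 327659025767) (b (l 16771480) (l 150491624615))))))))) (a (l 3) (b (a (l 3) (b (l 459192401319) (l 3))) (l 3))))) (l 3)) (b (b (a (a (b (a (l 16767992) (l 16762872)) (a (b (l 16770552) (a (l 16770296) (l 16769016))) (a (l 16769504) (l 14)))) (b (a (l 16765648) (l 14))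 (l 14))) (l 14)) (l 14)) (l 14))), by decide +kernel⟩

theorem s15_pp_012_s : ∃ t, chk3 f_pp_012_s t 63 62 1 = true := ex3_a k12_pp_012_s k13_pp_012_s

theorem s16_pp_012_s : ∃ t, chk3 f_pp_012_s t 63 31 1 = true := ex3_b s15_pp_012_s k14_pp_012_s

theorem s17_pp_012_s : ∃ t, chk3 f_pp_012_s t 31 31 1 = true := ex3_a k11_pp_012_s s16_pp_012_s

theorem s18_pp_012_s : ∃ t, chk3 f_pp_012_s t 62 30 1 = true := ex3_b k8_pp_012_s k9_pp_012_s

theorem s19_pp_012_s : ∃ t, chk3 f_pp_012_s t 31 30 1 = true := ex3_a s18_pp_012_s k10_pp_012_s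

theorem s20_pp_012_s : ∃ t, chk3 f_pp_012_s t 31 15 1 = true := ex3_b s19_pp_012_s s17_pp_012_s

theorem s21_pp_012_s : ∃ t, chk3 f_pp_012_s t 15 15 1 = true := ex3_a k7_pp_012_s s20_pp_012_s

theorem s22_pp_012_s : ∃ t, chk3 f_pp_012_s t 15 14 1 = true := ex3_a k5_pp_012_s k6_pp_012_s

theorem s23_pp_012_s : ∃ t, chk3 f_pp_012_s t 15 7 1 = true := ex3_b s22_pp_012_s s21_pp_012_s

theorem s24_pp_012_s : ∃ t, chk3 f_pp_012_s t 7 7 1 = true := ex3_a k4_pp_012_s s23_pp_012_s

theorem s25_pp_012_s : ∃ t, chk3 f_pp_012_s t 7 3 1 = true := ex3_b k3_pp_012_s s24_pp_012_s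

theorem s26_pp_012_s : ∃ t, chk3 f_pp_012_s t 7 1 1 = true := ex3_b k2_pp_012_s s25_pp_012_s

theorem s27_pp_012_s : ∃ t, chk3 f_pp_012_s t 3 1 1 = true := ex3_a k1_pp_012_s s26_pp_012_s

theorem s28_pp_012_s : ∃ t, chk3 f_pp_012_s t 1 1 1 = true := ex3_a k0_pp_012_s s27_pp_012_s

theorem c_pp_012_s : CertNE 0 536870912 0 536870912 1040187392 5207648 3 eng mog cd0q0 cd0q2 pd1 false true true .pnp 0 1 2
    ndB0q0 ndB0q2 pcB1 cut_pp_012_s Ext.none :=
  certNE2 (fam := false) (s1 := true) (s2 := true) (a := 0) (b := 1) (c := 2) (cn := .pnp) (n1 := ndB0q0) (n2 := ndB0q2) (pc := pcB1) (cut := cut_pp_012_s) (xt := Ext.none) (P1 := 0) (W1 := 536870912) (P2 := 0) (W2 := 536870912) (P3 := 1040187392) (W3 := 5207648) (N0 := 3) (En := eng) (mo := mog) (C1 := cd0q0) (C2 := cd0q2) (C3 := pd1)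
    rfl (fun _ => rfl) s28_pp_012_s

noncomputable def cut_pp_012_t : Cut := Cut.of [[⟨3, 0, 0, 2845415833⟩], [⟨0, 0, 0, 16777216⟩, ⟨1, 1, 0, 16777216⟩, ⟨2, 1, 0, 16777216⟩]]

noncomputable def f_pp_012_t : ℕ → ℕ → ℕ → ℕ → Bool := onCell 0 536870912 0 536870912 1040187392 5207648
    (rowNE 3 eng mog cd0q0 cd0q2 pd1 0 false true true .pnp 0 1 2 (qsf 0 536870912 0 536870912 1) ndB0q0 ndB0q2 pcB1 cut_pp_012_t Ext.none)

def k0_pp_012_t : ∃ t, chk3 f_pp_012_t t 1 1 1 = true :=
  ⟨(l 6), by decide +kernel⟩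

theorem c_pp_012_t : CertNE 0 536870912 0 536870912 1040187392 5207648 3 eng mog cd0q0 cd0q2 pd1 false true true .pnp 0 1 2
    ndB0q0 ndB0q2 pcB1 cut_pp_012_t Ext.none :=
  certNE0 (fam := false) (s1 := true) (s2 := true) (a := 0) (b := 1) (c := 2) (cn := .pnp) (n1 := ndB0q0) (n2 := ndB0q2) (pc := pcB1) (cut := cut_pp_012_t) (xt := Ext.none) (P1 := 0) (W1 := 536870912) (P2 := 0) (W2 := 536870912) (P3 := 1040187392) (W3 := 5207648) (N0 := 3) (En := eng) (mo := mog) (C1 := cd0q0) (C2 := cd0q2) (C3 := pd1)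
    rfl k0_pp_012_t

noncomputable def cut_pp_022_s : Cut := Cut.of [[⟨4, 0, 0, 1449551462⟩], [⟨0, 0, 0, 22369621⟩, ⟨1, 1, 0, 22369621⟩, ⟨2, 1, 0, 22369621⟩]]

noncomputable def f_pp_022_s : ℕ → ℕ → ℕ → ℕ → Bool := onCell 1073741824 536870912 0 536870912 1040187392 5207648
    (rowNE 3 eng mog cd0q0 cd0q2 pd2 2 false true true .pp 0 2 2 (qsf 0 536870912 0 536870912 2) ndB0q0 ndB0q2 pcB2 cut_pp_022_s Ext.none)

def k0_pp_022_s : ∃ t, chk3 f_pp_022_s t 4 2 1 = true :=
  ⟨(a (b (l 6) (a (b (l 6) (b (l 6) (a (l 16582696) (l 16594872)))) (l 6))) (l 6)), by decide +kernel⟩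

def k1_pp_022_s : ∃ t, chk3 f_pp_022_s t 8 6 1 = true :=
  ⟨(a (b (a (b (a (l 16595440) (l 16600592)) (a (l 16594312) (l 16599160))) (b (l 16573072) (a (l 16626784) (l 16623936)))) (b (a (a (b (l 16634840) (l 16649544)) (b (l 16637744) (l 16650496))) (a (b (l 16642736) (l 16651528)) (l 16625552))) (a (b (a (l 16644272) (l 16663864)) (a (a (l 16662232) (l 16659456)) (l 16674144))) (a (b (l 16658152) (l 16661968)) (l 16604368))))) (b (a (b (a (l 16577344) (l 16550816)) (a (l 16604952) (l 16589640))) (b (l 16477816) (l 16573168))) (a (b (a (l 16640728) (l 16631576)) (a (l 16585232) (l 16582392))) (b (l 16544152) (a (l 16558792) (l 16556056)))))), by decide +kernel⟩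

def k2_pp_022_s : ∃ t, chk3 f_pp_022_s t 8 7 1 = true :=
  ⟨(b (a (b (a (a (b (a (l 16677928) (l 16693192)) (a (l 16689824) (l 16700280))) (b (l 16681048) (l 16661080))) (b (a (l 16660104) (l 16635104)) (a (l 16633280) (l 16622896)))) (a (b (a (b (l 16688080) (l 16687216)) (a (l 16665024) (l 16648824))) (a (b (l 16682768) (a (l 16705824) (l 16687352))) (b (l 16668352) (l 16637416)))) (b (a (b (l 16647552) (l 16640520)) (l 16588016)) (a (b (l 16630992) (l 16619712)) (l 16588112))))) (b (a (b (a (l 16606680) (l 16577936)) (a (l 16591152) (l 16559760))) (b (l 16536304) (l 16516488))) (a (b (a (l 16574568) (l 16542152)) (a (l 16552728) (l 16519248))) (b (l 16497200) (l 16472632))))) (a (b (b (a (a (b (a (l 16697760) (l 16677888)) (a (l 16689040) (l 16668008))) (b (l 16647520) (l 16636896))) (b (a (l 16607712) (l 16569728)) (a (l 16596448) (l 16557968)))) (a (b (a (a (l 16683424) (l 16661888)) (b (l 16631176) (l 16629360))) (b (a (a (b (l 16682536) (a (l 16688464) (l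 16677416))) (a (l 16666408) (l 16655576))) (a (b (l 16639384) (l 16639584)) (l 16621104))) (a (a (a (l 16692872) (l 16681856)) (a (l 16670928) (l 16660096))) (a (a (l 16649360) (l 16638712)) (a (l 16628160) (l 16617672)))))) (a (b (b (l 16590560) (l 16588512)) (b (a (l 16597848) (l 16577088)) (a (b (a (l 16605064) (l 16594744)) (l 16604536)) (b (a (l 16574056) (b (l 16562904) (l 16575696))) (a (l 16589328) (l 1)))))) (b (b (l 16551720) (l 16559912)) (b (l 216928967863) (l 1)))))) (a (l 14) (a (a (l 14) (a (a (l 14) (l 1)) (l 1))) (l 1)))) (b (b (a (b (l 16516168) (a (l 16521312) (l 1))) (l 1)) (l 1)) (l 1)))), by decide +kernel⟩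

def k3_pp_022_s : ∃ t, chk3 f_pp_022_s t 9 3 1 = true :=
  ⟨(b (b (a (b (l 6) (a (l 16543904) (l 16557136))) (l 6)) (a (b (a (l 16530416) (l 16542056)) (a (l 16523240) (l 16487848))) (b (l 16514768) (l 1)))) (b (b (a (a (l 16455928) (l 1)) (l 1)) (l 1)) (l 1))), by decide +kernel⟩

def k4_pp_022_s : ∃ t, chk3 f_pp_022_s t 5 1 1 = true :=
  ⟨(b (l 6) (b (l 1) (l 1))), by decide +kernel⟩

def k5_pp_022_s : ∃ t, chk3 f_pp_022_s t 3 1 1 = true :=
  ⟨(l 1), by decide +kernel⟩

theorem s6_pp_022_s : ∃ t, chk3 f_pp_022_s t 8 3 1 = true := ex3_b k1_pp_022_s k2_pp_022_s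

theorem s7_pp_022_s : ∃ t, chk3 f_pp_022_s t 4 3 1 = true := ex3_a s6_pp_022_s k3_pp_022_s

theorem s8_pp_022_s : ∃ t, chk3 f_pp_022_s t 4 1 1 = true := ex3_b k0_pp_022_s s7_pp_022_s

theorem s9_pp_022_s : ∃ t, chk3 f_pp_022_s t 2 1 1 = true := ex3_a s8_pp_022_s k4_pp_022_s

theorem s10_pp_022_s : ∃ t, chk3 f_pp_022_s t 1 1 1 = true := ex3_a s9_pp_022_s k5_pp_022_s

theorem c_pp_022_s : CertNE 0 536870912 0 536870912 1040187392 5207648 3 eng mog cd0q0 cd0q2 pd2 false true true .pp 0 2 2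
    ndB0q0 ndB0q2 pcB2 cut_pp_022_s Ext.none :=
  certNE2 (fam := false) (s1 := true) (s2 := true) (a := 0) (b := 2) (c := 2) (cn := .pp) (n1 := ndB0q0) (n2 := ndB0q2) (pc := pcB2) (cut := cut_pp_022_s) (xt := Ext.none) (P1 := 0) (W1 := 536870912) (P2 := 0) (W2 := 536870912) (P3 := 1040187392) (W3 := 5207648) (N0 := 3) (En := eng) (mo := mog) (C1 := cd0q0) (C2 := cd0q2) (C3 := pd2)
    rfl (fun _ => rfl) s10_pp_022_s

noncomputable def cut_pp_022_t : Cut := Cut.of [[⟨3, 0, 0, 2845415833⟩], [⟨0, 0, 0, 22369621⟩, ⟨1, 1, 0, 22369621⟩, ⟨2, 1, 0, 22369621⟩]]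

noncomputable def f_pp_022_t : ℕ → ℕ → ℕ → ℕ → Bool := onCell 0 536870912 0 536870912 1040187392 5207648
    (rowNE 3 eng mog cd0q0 cd0q2 pd2 0 false true true .pp 0 2 2 (qsf 0 536870912 0 536870912 2) ndB0q0 ndB0q2 pcB2 cut_pp_022_t Ext.none)

def k0_pp_022_t : ∃ t, chk3 f_pp_022_t t 1 1 1 = true :=
  ⟨(l 6), by decide +kernel⟩

theorem c_pp_022_t : CertNE 0 536870912 0 536870912 1040187392 5207648 3 eng mog cd0q0 cd0q2 pd2 false true true .pp 0 2 2
    ndB0q0 ndB0q2 pcB2 cut_pp_022_t Ext.none :=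
  certNE0 (fam := false) (s1 := true) (s2 := true) (a := 0) (b := 2) (c := 2) (cn := .pp) (n1 := ndB0q0) (n2 := ndB0q2) (pc := pcB2) (cut := cut_pp_022_t) (xt := Ext.none) (P1 := 0) (W1 := 536870912) (P2 := 0) (W2 := 536870912) (P3 := 1040187392) (W3 := 5207648) (N0 := 3) (En := eng) (mo := mog) (C1 := cd0q0) (C2 := cd0q2) (C3 := pd2)
    rfl k0_pp_022_t

noncomputable def cut_pp_101_s : Cut := Cut.of [[⟨4, 0, 0, 1449551462⟩]]

noncomputable def f_pp_101_s : ℕ → ℕ → ℕ → ℕ → Bool := onCell 536870912 536870912 536870912 536870912 1040187392 5207648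
    (rowNE 3 eng mog cd0q1 cd0q1 pd0 0 false true true .npn 1 0 1 (qsf 536870912 536870912 536870912 536870912 0) ndB0q1 ndB0q1 pcB0 cut_pp_101_s Ext.none)

def k0_pp_101_s : ∃ t, chk3 f_pp_101_s t 1 1 1 = true :=
  ⟨(l 3), by decide +kernel⟩

theorem c_pp_101_s : CertNE 536870912 536870912 536870912 536870912 1040187392 5207648 3 eng mog cd0q1 cd0q1 pd0 false true true .npn 1 0 1
    ndB0q1 ndB0q1 pcB0 cut_pp_101_s Ext.none :=
  certNE0 (fam := false) (s1 := true) (s2 := true) (a := 1) (b := 0) (c := 1) (cn := .npn) (n1 := ndB0q1) (n2 := ndB0q1) (pc := pcB0) (cut := cut_pp_101_s) (xt := Ext.none) (P1 := 536870912) (W1 := 536870912) (P2 := 536870912) (W2 := 536870912) (P3 := 1040187392) (W3 := 5207648) (N0 := 3) (En := eng) (mo := mog) (C1 := cd0q1) (C2 := cd0q1) (C3 := pd0)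
    rfl k0_pp_101_s

noncomputable def cut_pp_101_t : Cut := Cut.of [[⟨3, 0, 0, 2845415833⟩]]

noncomputable def f_pp_101_t : ℕ → ℕ → ℕ → ℕ → Bool := onCell 536870912 536870912 536870912 536870912 1040187392 5207648
    (rowNE 3 eng mog cd0q1 cd0q1 pd0 0 false true true .npn 1 0 1 (qsf 536870912 536870912 536870912 536870912 0) ndB0q1 ndB0q1 pcB0 cut_pp_101_t Ext.none)

def k0_pp_101_t : ∃ t, chk3 f_pp_101_t t 1 1 1 = true :=
  ⟨(l 3), by decide +kernel⟩

theorem c_pp_101_t : CertNE 536870912 536870912 536870912 536870912 1040187392 5207648 3 eng mog cd0q1 cd0q1 pd0 false true true .npn 1 0 1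
    ndB0q1 ndB0q1 pcB0 cut_pp_101_t Ext.none :=
  certNE0 (fam := false) (s1 := true) (s2 := true) (a := 1) (b := 0) (c := 1) (cn := .npn) (n1 := ndB0q1) (n2 := ndB0q1) (pc := pcB0) (cut := cut_pp_101_t) (xt := Ext.none) (P1 := 536870912) (W1 := 536870912) (P2 := 536870912) (W2 := 536870912) (P3 := 1040187392) (W3 := 5207648) (N0 := 3) (En := eng) (mo := mog) (C1 := cd0q1) (C2 := cd0q1) (C3 := pd0)
    rfl k0_pp_101_t

noncomputable def cut_pp_102_s : Cut := Cut.of [[⟨4, 0, 0, 1449551462⟩]]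

noncomputable def f_pp_102_s : ℕ → ℕ → ℕ → ℕ → Bool := onCell 0 536870912 0 536870912 1040187392 5207648
    (rowNE 3 eng mog cd0q1 cd0q2 pd0 2 false true true .npp 1 0 2 (qsf 536870912 536870912 0 536870912 0) ndB0q1 ndB0q2 pcB0 cut_pp_102_s Ext.none)

def k0_pp_102_s : ∃ t, chk3 f_pp_102_s t 1 1 1 = true :=
  ⟨(a (b (l 3) (l 3)) (l 3)), by decide +kernel⟩

theorem c_pp_102_s : CertNE 536870912 536870912 0 536870912 1040187392 5207648 3 eng mog cd0q1 cd0q2 pd0 false true true .npp 1 0 2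
    ndB0q1 ndB0q2 pcB0 cut_pp_102_s Ext.none :=
  certNE2 (fam := false) (s1 := true) (s2 := true) (a := 1) (b := 0) (c := 2) (cn := .npp) (n1 := ndB0q1) (n2 := ndB0q2) (pc := pcB0) (cut := cut_pp_102_s) (xt := Ext.none) (P1 := 536870912) (W1 := 536870912) (P2 := 0) (W2 := 536870912) (P3 := 1040187392) (W3 := 5207648) (N0 := 3) (En := eng) (mo := mog) (C1 := cd0q1) (C2 := cd0q2) (C3 := pd0)
    rfl (fun _ => rfl) k0_pp_102_s

noncomputable def cut_pp_102_t : Cut := Cut.of [[⟨3, 0, 0, 2845415833⟩]]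

noncomputable def f_pp_102_t : ℕ → ℕ → ℕ → ℕ → Bool := onCell 536870912 536870912 0 536870912 1040187392 5207648
    (rowNE 3 eng mog cd0q1 cd0q2 pd0 0 false true true .npp 1 0 2 (qsf 536870912 536870912 0 536870912 0) ndB0q1 ndB0q2 pcB0 cut_pp_102_t Ext.none)

def k0_pp_102_t : ∃ t, chk3 f_pp_102_t t 1 1 1 = true :=
  ⟨(l 6), by decide +kernel⟩

theorem c_pp_102_t : CertNE 536870912 536870912 0 536870912 1040187392 5207648 3 eng mog cd0q1 cd0q2 pd0 false true true .npp 1 0 2
    ndB0q1 ndB0q2 pcB0 cut_pp_102_t Ext.none :=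
  certNE0 (fam := false) (s1 := true) (s2 := true) (a := 1) (b := 0) (c := 2) (cn := .npp) (n1 := ndB0q1) (n2 := ndB0q2) (pc := pcB0) (cut := cut_pp_102_t) (xt := Ext.none) (P1 := 536870912) (W1 := 536870912) (P2 := 0) (W2 := 536870912) (P3 := 1040187392) (W3 := 5207648) (N0 := 3) (En := eng) (mo := mog) (C1 := cd0q1) (C2 := cd0q2) (C3 := pd0)
    rfl k0_pp_102_t

noncomputable def cut_pp_112_s : Cut := Cut.of [[⟨4, 0, 0, 1449551462⟩]]

noncomputable def f_pp_112_s : ℕ → ℕ → ℕ → ℕ → Bool := onCell 536870912 536870912 0 536870912 1040187392 5207648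
    (rowNE 3 eng mog cd0q1 cd0q2 pd1 0 false true true .dn 1 1 2 (qsf 536870912 536870912 0 536870912 1) ndB0q1 ndB0q2 pcB1 cut_pp_112_s Ext.none)

def k0_pp_112_s : ∃ t, chk3 f_pp_112_s t 1 1 1 = true :=
  ⟨(a (b (b (a (a (b (a (b (l 16637960) (a (l 16711752) (l 16751272))) (b (b (l 16682824) (l 75866347127)) (l 124184774935))) (a (b (l 126869147879) (l 3)) (l 3))) (a (b (b (l 121500405671) (l 3)) (l 3)) (l 3))) (l 3)) (l 3)) (l 3)) (l 1)), by decide +kernel⟩

theorem c_pp_112_s : CertNE 536870912 536870912 0 536870912 1040187392 5207648 3 eng mog cd0q1 cd0q2 pd1 false true true .dn 1 1 2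
    ndB0q1 ndB0q2 pcB1 cut_pp_112_s Ext.none :=
  certNE0 (fam := false) (s1 := true) (s2 := true) (a := 1) (b := 1) (c := 2) (cn := .dn) (n1 := ndB0q1) (n2 := ndB0q2) (pc := pcB1) (cut := cut_pp_112_s) (xt := Ext.none) (P1 := 536870912) (W1 := 536870912) (P2 := 0) (W2 := 536870912) (P3 := 1040187392) (W3 := 5207648) (N0 := 3) (En := eng) (mo := mog) (C1 := cd0q1) (C2 := cd0q2) (C3 := pd1)
    rfl k0_pp_112_s

noncomputable def cut_pp_112_t : Cut := Cut.of [[⟨3, 0, 0, 2845415833⟩]]

noncomputable def f_pp_112_t : ℕ → ℕ → ℕ → ℕ → Bool := onCell 536870912 536870912 0 536870912 1040187392 5207648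
    (rowNE 3 eng mog cd0q1 cd0q2 pd1 0 false true true .dn 1 1 2 (qsf 536870912 536870912 0 536870912 1) ndB0q1 ndB0q2 pcB1 cut_pp_112_t Ext.none)

def k0_pp_112_t : ∃ t, chk3 f_pp_112_t t 1 1 1 = true :=
  ⟨(l 6), by decide +kernel⟩

theorem c_pp_112_t : CertNE 536870912 536870912 0 536870912 1040187392 5207648 3 eng mog cd0q1 cd0q2 pd1 false true true .dn 1 1 2
    ndB0q1 ndB0q2 pcB1 cut_pp_112_t Ext.none :=
  certNE0 (fam := false) (s1 := true) (s2 := true) (a := 1) (b := 1) (c := 2) (cn := .dn) (n1 := ndB0q1) (n2 := ndB0q2) (pc := pcB1) (cut := cut_pp_112_t) (xt := Ext.none) (P1 := 536870912) (W1 := 536870912) (P2 := 0) (W2 := 536870912) (P3 := 1040187392) (W3 := 5207648) (N0 := 3) (En := eng) (mo := mog) (C1 := cd0q1) (C2 := cd0q2) (C3 := pd1)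
    rfl k0_pp_112_t

noncomputable def cut_pp_202_s : Cut := Cut.of [[⟨4, 0, 0, 1449551462⟩]]

noncomputable def f_pp_202_s : ℕ → ℕ → ℕ → ℕ → Bool := onCell 0 536870912 0 536870912 1040187392 5207648
    (rowNE 3 eng mog cd0q2 cd0q2 pd0 0 false true true .pp 2 0 2 (qsf 0 536870912 0 536870912 0) ndB0q2 ndB0q2 pcB0 cut_pp_202_s Ext.none)

def k0_pp_202_s : ∃ t, chk3 f_pp_202_s t 1 1 1 = true :=
  ⟨(l 3), by decide +kernel⟩

theorem c_pp_202_s : CertNE 0 536870912 0 536870912 1040187392 5207648 3 eng mog cd0q2 cd0q2 pd0 false true true .pp 2 0 2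
    ndB0q2 ndB0q2 pcB0 cut_pp_202_s Ext.none :=
  certNE0 (fam := false) (s1 := true) (s2 := true) (a := 2) (b := 0) (c := 2) (cn := .pp) (n1 := ndB0q2) (n2 := ndB0q2) (pc := pcB0) (cut := cut_pp_202_s) (xt := Ext.none) (P1 := 0) (W1 := 536870912) (P2 := 0) (W2 := 536870912) (P3 := 1040187392) (W3 := 5207648) (N0 := 3) (En := eng) (mo := mog) (C1 := cd0q2) (C2 := cd0q2) (C3 := pd0)
    rfl k0_pp_202_s

noncomputable def cut_pp_202_t : Cut := Cut.of [[⟨3, 0, 0, 2845415833⟩]]

noncomputable def f_pp_202_t : ℕ → ℕ → ℕ → ℕ → Bool := onCell 0 536870912 0 536870912 1040187392 5207648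
    (rowNE 3 eng mog cd0q2 cd0q2 pd0 0 false true true .pp 2 0 2 (qsf 0 536870912 0 536870912 0) ndB0q2 ndB0q2 pcB0 cut_pp_202_t Ext.none)

def k0_pp_202_t : ∃ t, chk3 f_pp_202_t t 1 1 1 = true :=
  ⟨(l 3), by decide +kernel⟩

theorem c_pp_202_t : CertNE 0 536870912 0 536870912 1040187392 5207648 3 eng mog cd0q2 cd0q2 pd0 false true true .pp 2 0 2
    ndB0q2 ndB0q2 pcB0 cut_pp_202_t Ext.none :=
  certNE0 (fam := false) (s1 := true) (s2 := true) (a := 2) (b := 0) (c := 2) (cn := .pp) (n1 := ndB0q2) (n2 := ndB0q2) (pc := pcB0) (cut := cut_pp_202_t) (xt := Ext.none) (P1 := 0) (W1 := 536870912) (P2 := 0) (W2 := 536870912) (P3 := 1040187392) (W3 := 5207648) (N0 := 3) (En := eng) (mo := mog) (C1 := cd0q2) (C2 := cd0q2) (C3 := pd0)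
    rfl k0_pp_202_t

noncomputable def cut_pm_001_s : Cut := Cut.of [[⟨4, 0, 0, 1449551462⟩]]

noncomputable def f_pm_001_s : ℕ → ℕ → ℕ → ℕ → Bool := onCell 0 536870912 536870912 536870912 1040187392 5207648
    (rowNE 3 eng mog cd0q0 cd0q1 pd0 0 false true false .up 0 0 1 (qsf 0 536870912 536870912 536870912 0) ndB0q0 ndB0q1 pcB0 cut_pm_001_s Ext.none)

def k0_pm_001_s : ∃ t, chk3 f_pm_001_s t 1 1 1 = true :=
  ⟨(l 6), by decide +kernel⟩

theorem c_pm_001_s : CertNE 0 536870912 536870912 536870912 1040187392 5207648 3 eng mog cd0q0 cd0q1 pd0 false true false .up 0 0 1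
    ndB0q0 ndB0q1 pcB0 cut_pm_001_s Ext.none :=
  certNE0 (fam := false) (s1 := true) (s2 := false) (a := 0) (b := 0) (c := 1) (cn := .up) (n1 := ndB0q0) (n2 := ndB0q1) (pc := pcB0) (cut := cut_pm_001_s) (xt := Ext.none) (P1 := 0) (W1 := 536870912) (P2 := 536870912) (W2 := 536870912) (P3 := 1040187392) (W3 := 5207648) (N0 := 3) (En := eng) (mo := mog) (C1 := cd0q0) (C2 := cd0q1) (C3 := pd0)
    rfl k0_pm_001_s

noncomputable def cut_pm_001_t : Cut := Cut.of [[⟨3, 0, 0, 2845415833⟩]]

noncomputable def f_pm_001_t : ℕ → ℕ → ℕ → ℕ → Bool := onCell 0 536870912 536870912 536870912 1040187392 5207648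
    (rowNE 3 eng mog cd0q0 cd0q1 pd0 0 false true false .up 0 0 1 (qsf 0 536870912 536870912 536870912 0) ndB0q0 ndB0q1 pcB0 cut_pm_001_t Ext.none)

def k0_pm_001_t : ∃ t, chk3 f_pm_001_t t 2 1 1 = true :=
  ⟨(b (l 4) (b (b (l 4) (l 2)) (l 2))), by decide +kernel⟩

def k1_pm_001_t : ∃ t, chk3 f_pm_001_t t 3 2 1 = true :=
  ⟨(b (l 4) (a (l 4) (b (a (l 4) (b (a (l 4) (b (l 4) (a (l 4) (l 121030691623)))) (a (b (l 4) (a (l 4) (l 126936281927))) (b (a (l 123178179895) (l 16762144)) (a (l 16758696) (l 16723592)))))) (a (b (a (l 4) (b (l 4) (a (l 4) (l 73786075783)))) (a (b (a (l 4) (l 124788730887)) (a (l 126399352647) (l 65196131591))) (b (a (l 68954246951) (l 16741832)) (l 16699760)))) (b (a (b (a (l 130694383959) (l 16754376)) (l 16711416)) (b (l 16703080) (l 16643088))) (a (b (l 16649480) (l 16627688)) (b (l 16624728) (l 16584440)))))))), by decide +kernel⟩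

def k2_pm_001_t : ∃ t, chk3 f_pm_001_t t 6 6 1 = true :=
  ⟨(b (a (a (l 4) (b (l 4) (b (l 4) (a (l 4) (b (l 4) (a (l 16722920) (l 16750776))))))) (b (a (l 4) (b (a (l 4) (b (l 4) (l 16723824))) (a (b (l 119956938455) (l 16727304)) (l 16722448)))) (a (b (a (b (l 4) (l 111366977959)) (b (l 121030699959) (l 16734328))) (a (b (a (l 16742472) (l 16759440)) (l 16712736)) (b (l 16719744) (l 16678168)))) (b (a (b (l 16742384) (l 16707736)) (l 16659880)) (a (l 16629488) (l 16607632)))))) (a (b (a (l 2) (a (l 2) (a (l 2) (b (l 16667664) (l 2))))) (l 2)) (b (a (b (a (l 16579528) (l 16567264)) (a (l 16469272) (l 16502432))) (b (a (l 16562744) (l 16522800)) (a (l 16459720) (l 16423744)))) (a (b (a (l 2) (l 16375640)) (l 2)) (b (a (l 16338096) (l 16307432)) (a (l 16193984) (l 16170256))))))), by decide +kernel⟩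

def k3_pm_001_t : ∃ t, chk3 f_pm_001_t t 7 6 1 = true :=
  ⟨(b (a (b (a (b (a (l 9361608247) (l 16699000)) (a (l 16682336) (l 16665800))) (a (l 16595808) (l 16583888))) (a (b (a (l 16641016) (l 16605280)) (a (l 16570040) (l 16536744))) (b (l 16558064) (l 16493440)))) (b (a (b (l 16603496) (l 16554952)) (l 16457992)) (a (b (l 16501880) (l 16442984)) (l 16403144)))) (a (b (a (b (a (l 16488296) (l 16458272)) (a (l 16393384) (l 16367616))) (b (l 16420032) (l 16335824))) (a (b (a (l 16282464) (l 16262152)) (b (l 16178752) (a (a (l 16119840) (l 16117288)) (b (a (l 16124832) (l 16132360)) (a (l 16115952) (l 16159344)))))) (b (a (l 16245552) (b (l 16256808) (l 16210576))) (b (a (b (l 16177128) (a (l 16152008) (l 16166816))) (b (a (l 16179560) (l 16203400)) (l 16227688))) (a (a (l 16184416) (l 16233768)) (l 16301712)))))) (b (a (b (l 16376736) (l 16301392)) (b (l 16337992) (b (l 16288968) (a (l 16264616) (l 6))))) (b (a (b (a (l 16243712) (b (l 16244896) (l 16237320))) (a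 (b (l 16218424) (l 16224288)) (l 16274744))) (a (b (l 16226832) (l 6)) (l 6))) (a (a (l 16249488) (l 6)) (l 6)))))), by decide +kernel⟩

def k4_pm_001_t : ∃ t, chk3 f_pm_001_t t 3 7 1 = true :=
  ⟨(b (a (a (l 2) (b (a (l 2) (b (b (b (l 16080672) (l 2)) (l 2)) (l 2))) (l 2))) (a (b (a (b (a (b (b (a (l 16075744) (l 16105336)) (l 16130272)) (l 16228792)) (l 16130712)) (a (l 16203056) (l 16298312))) (b (a (l 16208848) (l 16357560)) (l 6))) (a (a (l 2) (l 6)) (l 6))) (l 6))) (a (l 2) (l 6))), by decide +kernel⟩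

theorem s5_pm_001_t : ∃ t, chk3 f_pm_001_t t 3 6 1 = true := ex3_a k2_pm_001_t k3_pm_001_t

theorem s6_pm_001_t : ∃ t, chk3 f_pm_001_t t 3 3 1 = true := ex3_b s5_pm_001_t k4_pm_001_t

theorem s7_pm_001_t : ∃ t, chk3 f_pm_001_t t 3 1 1 = true := ex3_b k1_pm_001_t s6_pm_001_t

theorem s8_pm_001_t : ∃ t, chk3 f_pm_001_t t 1 1 1 = true := ex3_a k0_pm_001_t s7_pm_001_t

theorem c_pm_001_t : CertNE 0 536870912 536870912 536870912 1040187392 5207648 3 eng mog cd0q0 cd0q1 pd0 false true false .up 0 0 1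
    ndB0q0 ndB0q1 pcB0 cut_pm_001_t Ext.none :=
  certNE0 (fam := false) (s1 := true) (s2 := false) (a := 0) (b := 0) (c := 1) (cn := .up) (n1 := ndB0q0) (n2 := ndB0q1) (pc := pcB0) (cut := cut_pm_001_t) (xt := Ext.none) (P1 := 0) (W1 := 536870912) (P2 := 536870912) (W2 := 536870912) (P3 := 1040187392) (W3 := 5207648) (N0 := 3) (En := eng) (mo := mog) (C1 := cd0q0) (C2 := cd0q1) (C3 := pd0)
    rfl s8_pm_001_t

noncomputable def cut_pm_011_s : Cut := Cut.of [[⟨4, 0, 0, 1449551462⟩], [⟨0, 0, 0, 22369621⟩, ⟨1, 1, 0, 22369621⟩, ⟨2, 1, 0, 22369621⟩]]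

noncomputable def f_pm_011_s : ℕ → ℕ → ℕ → ℕ → Bool := onCell 0 536870912 536870912 536870912 1040187392 5207648
    (rowNE 3 eng mog cd0q0 cd0q1 pd1 0 false true false .pnn 0 1 1 (qsf 0 536870912 536870912 536870912 1) ndB0q0 ndB0q1 pcB1 cut_pm_011_s Ext.none)

def k0_pm_011_s : ∃ t, chk3 f_pm_011_s t 1 1 1 = true :=
  ⟨(l 6), by decide +kernel⟩

theorem c_pm_011_s : CertNE 0 536870912 536870912 536870912 1040187392 5207648 3 eng mog cd0q0 cd0q1 pd1 false true false .pnn 0 1 1
    ndB0q0 ndB0q1 pcB1 cut_pm_011_s Ext.none :=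
  certNE0 (fam := false) (s1 := true) (s2 := false) (a := 0) (b := 1) (c := 1) (cn := .pnn) (n1 := ndB0q0) (n2 := ndB0q1) (pc := pcB1) (cut := cut_pm_011_s) (xt := Ext.none) (P1 := 0) (W1 := 536870912) (P2 := 536870912) (W2 := 536870912) (P3 := 1040187392) (W3 := 5207648) (N0 := 3) (En := eng) (mo := mog) (C1 := cd0q0) (C2 := cd0q1) (C3 := pd1)
    rfl k0_pm_011_s

noncomputable def cut_pm_011_t : Cut := Cut.of [[⟨3, 0, 0, 2845415833⟩], [⟨0, 0, 0, 22369621⟩, ⟨1, 1, 0, 22369621⟩, ⟨2, 1, 0, 22369621⟩]]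

noncomputable def f_pm_011_t : ℕ → ℕ → ℕ → ℕ → Bool := onCell 0 536870912 536870912 536870912 1040187392 5207648
    (rowNE 3 eng mog cd0q0 cd0q1 pd1 0 false true false .pnn 0 1 1 (qsf 0 536870912 536870912 536870912 1) ndB0q0 ndB0q1 pcB1 cut_pm_011_t Ext.none)

def k0_pm_011_t : ∃ t, chk3 f_pm_011_t t 1 2 1 = true :=
  ⟨(a (l 4) (b (l 1) (a (l 4) (l 1)))), by decide +kernel⟩

def k1_pm_011_t : ∃ t, chk3 f_pm_011_t t 2 6 1 = true :=
  ⟨(a (l 4) (b (l 4) (a (l 4) (b (l 4) (a (b (l 4) (a (l 4) (b (l 4) (a (l 4) (l 141968618471))))) (b (a (l 4) (a (l 117272462487) (b (l 16713680) (l 16766152)))) (a (a (b (l 4) (l 16750856)) (b (l 16724080) (l 16743880))) (b (l 16727360) (l 16703752))))))))), by decide +kernel⟩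

def k2_pm_011_t : ∃ t, chk3 f_pm_011_t t 4 14 1 = true :=
  ⟨(a (l 4) (b (l 4) (a (l 4) (b (l 4) (a (l 4) (b (l 4) (a (b (l 4) (a (l 4) (b (l 4) (a (l 301419415431) (l 119957027799))))) (b (a (l 4) (b (l 301956268903) (l 113514564039))) (a (b (a (l 160759191543) (l 16754040)) (l 16746920)) (l 16738656)))))))))), by decide +kernel⟩

def k3_pm_011_t : ∃ t, chk3 f_pm_011_t t 8 30 1 = true :=
  ⟨(a (l 4) (b (l 4) (a (l 4) (b (l 4) (a (l 4) (b (l 4) (a (l 4) (b (l 4) (a (b (l 4) (a (l 4) (b (l 4) (a (l 285313327319) (b (l 276186524407) (l 16776896)))))) (b (a (l 4) (b (a (l 4) (l 296587604791)) (a (b (l 4) (l 150558725463)) (b (l 150558729607) (l 16776752))))) (a (b (a (b (l 4) (l 272965300151)) (b (l 269744075895) (l 16776816))) (l 16771056)) (l 16773144)))))))))))), by decide +kernel⟩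

def k4_pm_011_t : ∃ t, chk3 f_pm_011_t t 16 62 1 = true :=
  ⟨(a (l 4) (b (l 4) (a (l 4) (b (l 4) (a (l 4) (b (l 4) (a (l 4) (b (l 4) (a (l 4) (b (l 4) (a (a (l 4) (b (l 4) (b (l 4) (b (l 302493201671) (a (l 290682044023) (l 16777024)))))) (a (b (l 4) (b (b (l 297661365127) (a (l 141431928375) (l 16771760))) (l 16774136))) (b (b (l 344369127671) (b (l 292292656343) (a (l 147874378295) (l 16776976)))) (l 16773872)))))))))))))), by decide +kernel⟩

def k5_pm_011_t : ∃ t, chk3 f_pm_011_t t 32 126 1 = true :=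
  ⟨(a (l 4) (b (l 4) (a (l 4) (b (l 4) (a (l 4) (b (l 4) (a (l 4) (b (l 4) (a (l 4) (a (l 4) (b (l 4) (b (l 4) (a (a (l 4) (b (l 4) (l 142505672871))) (b (a (l 4) (l 135526351015)) (l 16777136))))))))))))))), by decide +kernel⟩

def k6_pm_011_t : ∃ t, chk3 f_pm_011_t t 32 127 1 = true :=
  ⟨(a (l 14) (b (a (l 14) (b (a (b (b (l 4) (b (l 4) (l 14))) (l 14)) (b (a (b (a (l 4) (a (l 4) (b (l 4) (b (l 4) (a (a (l 4) (a (l 315914977431) (l 274039046263))) (b (a (l 4) (l 182770991287)) (c (l 16777168) (l 16777168)))))))) (a (b (a (l 4) (b (l 4) (a (c (l 294977011239) (l 296587623975)) (a (b (l 4) (l 136600092711)) (b (l 200487731399) (l 16777144)))))) (b (a (a (c (l 301419462839) (l 303030075575)) (b (l 286387077239) (a (l 140895060023) (l 16777152)))) (b (b (a (l 141431930919) (l 16777064)) (l 16777072)) (l 16776952))) (a (a (l 14) (l 16776960)) (l 16776720)))) (b (b (b (b (a (l 4) (a (l 115662127143) (l 16777048))) (a (c (l 283165851783) (l 284776464519)) (l 16777048)))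 (a (a (l 246121758247) (a (l 123715190823) (l 16777136))) (l 16776936))) (b (b (a (a (l 128547029031) (l 16777056)) (l 16776816)) (l 16776896)) (l 16776784))) (l 16776392)))) (b (b (a (a (l 4) (b (l 4) (a (a (l 4) (b (l 4) (l 162369896631))) (b (a (l 4) (l 163980509351)) (l 16777152))))) (a (b (b (b (l 4) (a (l 4) (l 151632478375))) (a (a (l 4) (l 157001187495)) (l 16777144))) (l 39426456983)) (c (l 16776808) (l 16776816)))) (a (b (a (a (a (l 4) (c (l 270280949895) (l 271891562631))) (b (a (l 4) (l 168812347575)) (l 16777160))) (c (l 16776992) (l 16777000))) (a (a (l 71101840951) (l 16776920)) (l 16771432))) (l 16776336))) (a (l 16774736) (l 16770128)))) (b (a (a (l 16775136) (l 16770224)) (l 16769216)) (a (l 16769344) (l 16762736))))) (b (a (l 14) (a (l 14) (l 16760920))) (l 14)))) (l 14))), by decide +kernel⟩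

def k7_pm_011_t : ∃ t, chk3 f_pm_011_t t 66 252 1 = true :=
  ⟨(a (l 4) (b (l 4) (a (l 4) (b (l 4) (a (l 4) (b (l 4) (b (l 4) (a (l 4) (a (a (l 358864645223) (b (l 4) (l 277797141895))) (b (a (l 345442874727) (b (l 209614536919) (l 16777136))) (l 16776936))))))))))), by decide +kernel⟩

def k8_pm_011_t : ∃ t, chk3 f_pm_011_t t 132 506 1 = true :=
  ⟨(a (l 4) (b (l 4) (a (l 4) (b (l 4) (a (l 4) (b (l 4) (b (a (l 4) (l 346516619239)) (b (a (l 4) (a (l 220888826071) (l 16777152))) (a (l 291755786407) (l 16777064)))))))))), by decide +kernel⟩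

def k9_pm_011_t : ∃ t, chk3 f_pm_011_t t 264 507 1 = true :=
  ⟨(b (a (l 4) (b (l 4) (a (l 4) (a (l 4) (b (l 4) (b (l 4) (b (a (l 4) (a (l 189213442183) (l 16777192))) (a (a (l 197803376775) (l 16777200)) (l 16777064))))))))) (a (b (a (l 4) (a (l 4) (b (l 4) (b (l 4) (b (b (l 293903270039) (a (l 4) (l 95261032583))) (a (a (l 240753049767) (l 100629741703)) (l 16777104))))))) (b (a (a (l 4) (b (l 4) (b (b (l 306788171943) (a (l 4) (l 117272739991))) (a (a (l 244511146199) (l 122104578199)) (l 16777120))))) (a (b (a (a (l 304640688295) (b (l 4) (l 107072192663))) (b (a (l 248269242535) (l 108145934471)) (l 16777112))) (l 16776944)) (l 16776768))) (a (a (b (b (b (l 318062461095) (a (l 4) (l 131768254615))) (a (a (l 278870884535) (l 136600092823)) (l 16777128))) (l 16776968)) (l 16776792)) (l 16771024)))) (b (a (a (b (l 4) (b (a (a (l 291218915479) (b (l 4) (l 16777216))) (b (a (l 226257535127) (l 16777216)) (l 16777088))) (l 16776920))) (b (b (l 4) (b (a (l 4) (a (l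 210688278679) (l 16777208))) (a (a (l 218741342359) (l 16777216)) (l 16777080)))) (l 16776736))) (a (b (b (b (a (l 4) (a (l 179012894903) (l 16777200))) (a (l 141968800599) (l 16777072))) (l 16776896)) (l 16771136)) (l 16776368))) (a (l 16773272) (l 16769928))))), by decide +kernel⟩

def k10_pm_011_t : ∃ t, chk3 f_pm_011_t t 265 507 1 = true :=
  ⟨(b (a (b (a (l 4) (b (l 4) (b (a (l 4) (c (l 312693752071) (l 324504912087))) (a (l 319673073927) (b (a (l 260080402679) (a (l 139821318247) (l 16777152))) (a (a (l 139821318263) (l 16777160)) (l 16777016))))))) (a (a (b (l 4) (b (b (a (l 4) (l 106535320423)) (a (l 112977771367) (l 16777048))) (l 16776872))) (b (b (l 322894299415) (b (a (l 4) (l 114051511831)) (a (a (l 164517380231) (l 16777176)) (l 16777040)))) (l 16776688))) (a (b (b (b (a (l 319673073799) (a (l 130694512791) (l 16777160))) (a (l 94187289431) (l 16777024))) (l 16774232)) (l 16771072)) (l 16773672)))) (a (b (a (b (c (b (l 4) (l 306251301127)) (l 379802615367))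 (b (b (a (l 247195500791) (l 16777184)) (a (a (l 16777224) (l 16777144)) (l 16777008))) (l 16771584))) (b (a (b (l 4) (b (l 240753049831) (l 16777184))) (b (l 296050753719) (l 16777088))) (l 16774008))) (l 16773104)) (b (a (b (b (b (a (l 227868147943) (l 16777168)) (l 16777072)) (l 16771552)) (l 16776240)) (l 16773600)) (l 16769704)))) (a (b (a (l 16773192) (l 16769816)) (l 16768800)) (l 16770560))), by decide +kernel⟩

def k11_pm_011_t : ∃ t, chk3 f_pm_011_t t 133 506 1 = true :=
  ⟨(a (b (a (l 4) (b (l 4) (a (l 4) (b (l 4) (a (c (l 350811585031) (l 345442875815)) (b (l 330410490231) (b (a (l 286387076759) (l 16771808)) (l 16774336)))))))) (b (a (a (l 4) (b (l 4) (a (l 362085874135) (b (l 347590359975) (b (a (l 185992214119) (l 16777104)) (l 16777016)))))) (a (b (a (l 355643423767) (b (l 339000425047) (b (a (l 164517378935) (l 16777080)) (l 16774360)))) (b (b (a (a (l 179012892247) (l 16777096)) (l 16776792)) (l 16774176)) (l 16771264))) (b (b (b (a (a (l 144116284295)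 (l 16774448)) (l 16776760)) (l 16774144)) (l 16771224)) (l 16770640)))) (a (a (a (b (l 369065196887) (a (b (b (l 195119021015) (l 16777144)) (l 16776864)) (l 16776856))) (b (b (l 356717165943) (b (a (l 194045279159) (l 16777128)) (l 16777040))) (l 16771320))) (b (b (b (a (a (l 180623506359) (l 16777120)) (l 16776816)) (l 16776824)) (l 16773920)) (l 16770728))) (l 16773160)))) (b (a (b (a (l 4) (b (l 4) (b (a (l 4) (c (l 314304363271) (l 312156879927))) (a (l 317525589543) (b (a (l 83449869895) (l 16776992)) (l 16771656)))))) (a (a (b (c (l 343832263927) (l 339537296807)) (a (b (b (l 277260271079) (l 16771800)) (l 16776744)) (l 16774120))) (b (b (l 321820556855) (b (a (l 119420220983) (l 16777024)) (l 16771688))) (l 16771184))) (b (a (a (b (b (l 98482255431) (l 16777016)) (l 16776712)) (l 16774080)) (l 16771144)) (l 16770544)))) (b (b (b (a (a (l 4) (c (a (l 359401519063) (l 282092109207)) (l 304640687335))) (l 94187288263)) (a (a (c (l 310009396615) (l 308398783623))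 (c (a (l 16777072) (l 16776856)) (l 16776968))) (l 16771072))) (b (b (a (a (a (a (l 16777080) (l 16777136)) (l 16776976)) (l 16776656)) (l 16776000)) (l 16773608)) (l 16773304))) (l 16772272))) (a (b (l 16773048) (l 16762944)) (l 16767216)))), by decide +kernel⟩

def k12_pm_011_t : ∃ t, chk3 f_pm_011_t t 133 507 1 = true :=
  ⟨(b (a (a (b (l 16773600) (l 16763256)) (l 16767584)) (b (l 16760488) (l 16758936))) (a (b (l 16760944) (l 16759480)) (l 16756632))), by decide +kernel⟩

def k13_pm_011_t : ∃ t, chk3 f_pm_011_t t 134 504 1 = true :=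
  ⟨(a (l 4) (b (l 4) (a (l 4) (b (l 4) (a (b (l 4) (a (l 4) (c (l 344906004071) (l 340074163911)))) (a (b (l 4) (b (l 332557973031) (b (a (l 189750310551) (l 16777096)) (l 16776992)))) (a (b (l 4) (b (b (l 172033571767) (l 16777088)) (l 16776744))) (b (l 333631716023) (l 16774112))))))))), by decide +kernel⟩

def k14_pm_011_t : ∃ t, chk3 f_pm_011_t t 134 505 1 = true :=
  ⟨(a (b (a (l 4) (b (l 4) (b (l 4) (a (l 4) (a (a (l 329336749175) (b (l 4) (b (l 139284444711) (l 16771784)))) (b (b (l 300882590039) (a (l 270280949159) (l 16771760))) (l 16774168))))))) (a (b (a (l 4) (b (l 4) (b (b (l 339000425351) (a (l 4) (a (l 197266505831) (l 16777072)))) (a (b (l 326652393063) (a (l 176328539047) (l 16777088))) (l 16774240))))) (a (a (a (b (l 351348452375) (l 40500193383)) (b (b (l 4) (b (l 244511146071) (l 16777120))) (l 16771352))) (b (b (b (l 332021102087) (a (l 179549764551) (l 16777104))) (l 16776896)) (l 16771024))) (b (a (l 16774048) (l 16770976)) (l 16770344)))) (b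 (a (b (a (b (l 4) (b (l 316451845991) (a (l 299808849543) (l 16777056)))) (b (b (l 311083137015) (a (l 152169346631) (l 16771800))) (l 16774208))) (l 29225903399)) (b (l 16773736) (l 16775480))) (l 16772024)))) (b (a (b (a (b (l 4) (a (l 4) (l 355643420903))) (a (b (l 4) (b (l 349737838887) (b (a (l 253637951719) (l 16777168)) (c (a (l 16777176) (l 16776952)) (l 16777064))))) (b (l 349200972759) (a (b (l 284239592887) (l 16776832)) (l 98482255895))))) (a (b (a (b (l 358327773223) (b (l 301419462119) (a (l 96334771799) (l 16776992)))) (b (b (a (l 352959067303) (a (l 162369896519) (l 16777136))) (a (l 90966062647) (l 16776968))) (l 16771504))) (l 16773696)) (b (l 16773648) (l 16775376)))) (b (a (b (a (b (l 341147904615) (b (a (l 243974275239) (l 16777136)) (l 16777024))) (a (b (b (l 338463555319) (l 16777128)) (l 16776784)) (l 16776776))) (l 16773600)) (l 16773096)) (l 16771768))) (a (b (l 16771896) (l 16762264)) (l 16766464)))), by decide +kernel⟩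

def k15_pm_011_t : ∃ t, chk3 f_pm_011_t t 135 252 1 = true :=
  ⟨(b (a (b (a (l 4) (b (l 4) (a (a (l 4) (b (l 4) (a (l 348664093959) (b (l 4) (l 294977011159))))) (b (b (l 4) (b (l 340074165031) (a (l 4) (a (l 249342984391) (l 16777144))))) (b (a (a (l 342221646919) (a (l 319673073287) (l 263838497895))) (l 105998449031)) (b (a (a (a (l 155390574663) (l 16777120)) (l 16776936)) (l 16776560)) (l 16773952))))))) (a (b (a (a (l 4) (b (l 4) (b (l 4) (l 320209942727)))) (a (b (l 4) (b (l 316451846583) (b (a (l 147337508423) (l 16777024)) (l 16774288)))) (a (b (l 4) (b (b (l 140358186535) (l 16771768)) (l 16776656))) (b (a (l 336316070551) (l 315914976439)) (l 16774024))))) (a (b (a (b (l 324504909783) (b (a (l 177939150423) (l 16777064)) (l 16776952))) (b (b (a (l 177402276839) (l 16777040)) (l 16776928)) (l 16776584))) (l 16773504)) (l 16772992))) (b (a (b (b (a (c (l 308398783767) (l 306788170359)) (b (a (l 97408513591) (l 16776960)) (l 16771600))) (b (a (a (l 105461577303)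 (l 16776984)) (l 16776608)) (l 16774000))) (l 16773408)) (l 16772888)) (l 16771504)))) (b (a (b (a (b (l 4) (a (l 4) (a (l 334705456519) (b (l 4) (b (l 329873620663) (l 16777104)))))) (a (b (l 4) (b (b (l 318062457143) (a (l 209077665943) (l 16777088))) (l 16776856))) (b (b (l 4) (b (l 313230619255) (a (l 189213439575) (l 16777064)))) (l 16773968)))) (a (b (a (b (b (l 328799874775) (a (l 242363662503) (l 16777128))) (l 100629739783)) (l 85060482327)) (l 16770688)) (l 16772776))) (b (a (b (a (b (b (l 307861910455) (a (a (l 254174822551) (l 16777056)) (l 16777048))) (l 16776808)) (l 16773920)) (l 16770584)) (l 16772664)) (l 16768624))) (a (a (l 16770936) (l 16767296)) (l 16765768)))) (a (b (a (b (l 16771632) (l 16772432)) (l 16766104)) (l 16764792)) (b (l 16763048) (l 16764616)))), by decide +kernel⟩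

def k16_pm_011_t : ∃ t, chk3 f_pm_011_t t 67 253 1 = true :=
  ⟨(b (a (a (b (a (b (l 16772152) (l 16762608)) (l 16766824)) (a (l 16760136) (l 16768704))) (b (a (l 16759656) (l 16768168)) (l 16755240))) (a (b (l 16754648) (l 16761608)) (b (l 16760968) (l 16757360)))) (a (b (a (l 16755928) (l 16762360)) (a (l 16763232) (b (l 16749160) (a (l 16748424) (l 16745616))))) (b (a (a (l 16759208) (l 16751464)) (b (a (l 16755768) (l 16753144)) (a (l 16742744) (l 16749544)))) (a (b (a (l 16750856) (l 16752928)) (l 16750064)) (l 16744368))))), by decide +kernel⟩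

def k17_pm_011_t : ∃ t, chk3 f_pm_011_t t 33 254 1 = true :=
  ⟨(a (a (b (a (b (a (b (b (l 16774640) (l 16770056)) (l 16769080)) (a (l 16768640) (l 16762656))) (a (l 16769784) (l 16760408))) (b (a (l 16766736) (l 16759888)) (a (l 16769312) (b (l 16768320) (l 16756272))))) (b (a (b (l 16748800) (a (b (l 16769624) (a (l 16769320) (l 16757792))) (b (a (l 16768280) (l 16746168)) (l 16744912)))) (b (a (b (l 16767552) (c (l 16761152) (l 16763888))) (b (l 16759976) (l 16762944))) (l 16740264))) (a (a (b (b (l 16761968) (l 16764712)) (l 16760968)) (l 16738624)) (b (l 16735272) (l 16751248))))) (a (b (b (l 16757328) (b (a (l 16766592) (b (l 16765136) (l 16753568))) (a (b (l 16765264) (l 16753408)) (l 16740304)))) (b (l 16745296) (l 16735360))) (b (b (b (l 16764864) (a (l 16764264) (b (l 16762608) (l 16740440)))) (b (a (b (l 16752288) (l 16760880)) (l 16758016)) (l 16755152))) (b (l 16726800) (l 16737840))))) (b (a (b (b (a (a (l 16761648) (b (l 16759920) (l 16758408))) (l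 16732552)) (a (a (l 16748400) (l 16754728)) (l 16748584))) (a (l 16728504) (l 16741280))) (a (a (l 16719048) (l 16714984)) (b (l 16734752) (l 16725024)))) (a (a (b (l 16739648) (l 16729712)) (b (l 16731456) (l 16721520))) (b (a (l 16723288) (l 16715192)) (l 16693560))))), by decide +kernel⟩

def k18_pm_011_t : ∃ t, chk3 f_pm_011_t t 33 255 1 = true :=
  ⟨(b (a (a (b (a (a (l 14) (l 16728592)) (b (l 16746232) (l 16741184))) (a (l 14) (b (l 16736112) (l 16731008)))) (b (a (l 16714840) (l 16727800)) (a (l 16725656) (l 16717640)))) (a (b (a (l 16719672) (l 16711472)) (a (l 16709512) (l 16701312))) (b (l 16678272) (l 16689080)))) (a (a (b (a (l 14) (b (l 16725872) (l 16720720))) (l 14)) (b (b (l 16703496) (l 16698336)) (b (l 16703632) (b (l 16699704) (l 16699600))))) (b (a (a (l 16699248) (l 16691048)) (l 16678808)) (b (a (l 16687384) (l 16671032)) (b (a (l 16683640) (l 16667616)) (l 16676344)))))), by decide +kernel⟩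

def k19_pm_011_t : ∃ t, chk3 f_pm_011_t t 34 124 1 = true :=
  ⟨(a (l 4) (b (l 4) (a (l 4) (b (l 4) (a (l 4) (b (l 4) (a (b (l 4) (a (b (l 4) (l 305714416391)) (b (l 301956321127) (a (b (l 148411234711) (l 16777032)) (l 16776776))))) (b (a (b (l 4) (l 298198236343)) (b (l 294440135863) (a (a (l 146263754071) (l 16777008)) (l 16771416)))) (a (b (a (c (l 145190018343) (l 146800633687)) (l 16776720)) (l 16776048)) (l 16765048)))))))))), by decide +kernel⟩

def k20_pm_011_t : ∃ t, chk3 f_pm_011_t t 68 250 1 = true :=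
  ⟨(a (l 4) (b (l 4) (a (l 4) (b (l 4) (a (b (l 4) (a (l 4) (b (l 4) (a (l 4) (c (l 305714426871) (l 304103813335)))))) (b (a (l 4) (b (l 4) (a (l 4) (c (l 294977010423) (l 294440138919))))) (a (b (a (l 4) (c (l 300345718631) (l 299271976119))) (a (b (l 292292652967) (l 16775656)) (l 16774072))) (a (b (b (l 285313332055) (l 16776912)) (l 16776168)) (l 22783451943))))))))), by decide +kernel⟩

def k21_pm_011_t : ∃ t, chk3 f_pm_011_t t 136 502 1 = true :=
  ⟨(a (l 4) (b (l 4) (a (l 4) (b (l 4) (a (b (l 4) (a (b (l 4) (a (l 320209939351) (b (a (l 4) (l 227331276919)) (l 16777144)))) (b (b (l 312693747095) (a (a (l 4) (l 325041782615)) (l 16777120))) (l 64659384887)))) (a (b (b (l 4) (b (l 307861909303) (a (l 211225149607) (l 16777096)))) (l 16775296)) (b (b (b (l 303030071511) (a (l 182770986039) (l 16777072))) (l 16776824)) (l 16770840)))))))), by decide +kernel⟩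

def k22_pm_011_t : ∃ t, chk3 f_pm_011_t t 272 503 1 = true :=
  ⟨(b (a (l 4) (b (l 4) (a (b (l 4) (a (b (l 4) (l 323431169079)) (b (l 319136202151) (b (a (l 196729632359) (l 16777072)) (l 16776960))))) (b (b (a (l 4) (c (l 311620007831) (l 310009397095))) (b (a (l 4) (a (a (l 290145173559) (l 16777144)) (l 16777032))) (a (l 307325039207) (l 16776912)))) (b (b (a (a (l 307325042247) (l 16777048)) (l 16776664)) (l 16774056)) (l 16773680)))))) (a (b (a (b (l 4) (a (c (l 342758522631) (l 337926682823)) (a (a (l 321820556135) (b (l 4) (l 268670336231))) (b (l 333094841239) (a (b (l 121030836343) (l 16776992)) (l 16776984)))))) (a (a (b (l 4) (b (b (l 247732371655) (c (l 16777152) (l 16777152))) (l 16776792))) (b (l 333631716423) (l 93650417527))) (b (b (l 327189265095) (b (a (l 214983246055) (l 16777120)) (l 16777008))) (l 16773776)))) (a (a (b (b (b (a (l 340074164519) (l 95797895591)) (a (l 101166604727) (l 16776952))) (l 16774096)) (l 16775976)) (l 16773336)) (l 16772560)))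 (b (a (b (b (a (a (b (l 299271978951) (l 16777112)) (l 16776976)) (l 16771344)) (l 16773736)) (l 16770376)) (l 16772448)) (l 16768384)))), by decide +kernel⟩

def k23_pm_011_t : ∃ t, chk3 f_pm_011_t t 273 503 1 = true :=
  ⟨(b (b (a (a (b (l 4) (b (a (l 4) (a (l 4) (l 291218914439))) (b (a (l 4) (a (l 269744078295) (l 16774360))) (a (l 297124493975) (l 16774240))))) (b (a (b (l 4) (b (l 334168582359) (b (l 305177556135) (l 279944625607)))) (b (b (l 323968035431) (b (a (l 4) (l 129620770919)) (a (l 246658629815) (l 16777112)))) (b (b (l 136063220903) (l 16776992)) (l 16771568)))) (b (b (a (a (a (l 176865411175) (l 16777144)) (l 16776952)) (l 16776560)) (l 16773952)) (l 16770960)))) (b (a (a (a (c (l 94724159335) (l 63048771143)) (l 16773904)) (l 16770888)) (l 16770104)) (l 16772256))) (a (a (b (b (b (a (a (a (l 227331276919) (l 16777192)) (l 16774384)) (l 16776616)) (l 16774000)) (l 16773632)) (l 16770264)) (l 16769720)) (l 16768144))) (a (a (l 16767800) (l 16766760))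 (l 16759952))), by decide +kernel⟩

def k24_pm_011_t : ∃ t, chk3 f_pm_011_t t 137 251 1 = true :=
  ⟨(b (a (b (a (b (l 4) (a (l 4) (b (l 4) (a (l 4) (l 333094844599))))) (b (a (l 4) (b (l 4) (a (l 4) (c (l 316988714279) (l 314304353479))))) (a (b (a (l 4) (l 321283685415)) (a (a (a (l 311083137351) (l 295513881735)) (b (l 321820551639) (l 16777056))) (a (b (b (l 149484982295) (l 16777160)) (l 16776800)) (l 16774160)))) (b (b (a (l 315378099431) (a (a (l 144653155767) (l 52848230295)) (l 16776976))) (b (a (a (l 148411241239) (l 16777128)) (l 16776736)) (l 16774128))) (l 16770888))))) (a (b (a (b (l 4) (a (b (l 4) (b (l 297661362823) (a (l 299808849543) (l 16777048)))) (b (b (l 292829525047) (a (l 286923947623) (l 16777016))) (l 16774152)))) (b (a (b (l 4) (b (a (l 4) (l 265985981927)) (a (l 126936411159) (l 16771752)))) (a (b (b (l 4) (l 143042536183)) (l 16771608)) (l 100629739495))) (l 16773616))) (a (b (l 21709710407) (l 16775288)) (l 16769496))) (b (a (l 16773064)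 (l 16769384)) (l 16767920)))) (b (a (b (a (b (a (l 4) (c (l 311620006023) (l 308935650567))) (b (a (l 307325036647) (a (a (l 144116275943) (l 16777112)) (l 16776928))) (a (a (l 143042538487) (l 16776952)) (l 16776560)))) (b (a (b (l 299808844807) (l 124252060151)) (l 97408513527)) (l 16770776))) (a (l 16772952) (l 16769280))) (b (l 16772320) (l 16762472))) (a (l 16766824) (l 16759504)))) (a (b (a (b (l 16768032) (l 16771296)) (l 16759704)) (l 16756824)) (b (l 16756592) (l 16763160)))), by decide +kernel⟩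

def k25_pm_011_t : ∃ t, chk3 f_pm_011_t t 138 250 1 = true :=
  ⟨(b (a (l 4) (b (l 4) (a (b (l 4) (a (l 4) (b (l 4) (a (l 305714420503) (b (l 295513877703) (l 16777016)))))) (b (a (l 4) (b (l 4) (b (l 293366391863) (a (a (l 150021848903) (l 16772000)) (l 16776904))))) (b (a (a (l 300882583335) (b (a (l 154853686359) (l 146263757495)) (l 16776960))) (l 16771192)) (l 16773360)))))) (a (b (a (b (l 4) (a (l 4) (a (l 4) (b (l 4) (a (l 303030068343) (l 277260270183)))))) (b (a (l 4) (b (l 4) (a (l 316451836695) (a (l 290682039367) (a (l 279407754327) (l 197803372935)))))) (a (b (a (l 4) (b (l 322894291175) (l 144116283383))) (a (b (l 259006659607) (l 16771504)) (l 16771224))) (b (a (a (b (l 145726886503) (l 16776816)) (l 16776800)) (l 16771168)) (l 16775688))))) (a (b (a (a (b (l 4) (b (a (a (l 4) (l 148411239863)) (l 144116275399)) (l 16776856))) (b (c (l 289608300903) (l 289608301719)) (l 16771336))) (b (b (a (a (a (l 150021850935) (l 146800628503)) (l 16777144)) (l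 16771528)) (l 16771296)) (l 16770552))) (l 16769592)) (a (l 16769024) (l 16767992)))) (b (a (b (a (b (a (l 311083128599) (a (l 284776460343) (l 198877113783))) (a (l 59290670727) (l 16771112))) (b (l 61438155639) (l 16775576))) (l 16769384)) (l 16768320)) (l 16766760)))), by decide +kernel⟩

def k26_pm_011_t : ∃ t, chk3 f_pm_011_t t 139 250 1 = true :=
  ⟨(b (a (b (a (b (l 4) (a (l 4) (b (l 4) (a (l 285850200935) (b (l 145726885287) (l 16766296)))))) (b (a (b (l 4) (l 318599316055)) (b (l 309472511655) (a (l 276186526647) (l 16771640)))) (a (b (a (l 281018363799) (l 57143186007)) (l 16771024)) (l 16770496)))) (a (b (a (b (a (l 290682038087) (a (l 201024597783) (l 16776944))) (l 16771136)) (l 16770600)) (l 16769192)) (l 16768152))) (b (a (b (a (b (a (l 271354689511) (l 16776832)) (l 16765672)) (l 16765152)) (l 16763776)) (l 16768016)) (l 16765256))) (a (b (l 16765336) (l 16756272)) (l 16759656))), by decide +kernel⟩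

def k27_pm_011_t : ∃ t, chk3 f_pm_011_t t 69 251 1 = true :=
  ⟨(a (a (b (b (a (l 16766624) (l 16759336)) (l 16756424)) (l 16750560)) (b (b (l 16756320) (l 16762920)) (l 16757104))) (b (a (l 16750528) (l 16757368)) (a (l 16753336) (l 16749776)))), by decide +kernel⟩

def k28_pm_011_t : ∃ t, chk3 f_pm_011_t t 70 124 1 = true :=
  ⟨(b (a (l 4) (b (l 4) (a (b (l 4) (a (l 4) (b (l 4) (a (l 4) (b (l 4) (l 294440129671)))))) (b (a (l 4) (b (l 4) (a (l 4) (b (l 4) (l 280481490775))))) (a (b (a (l 4) (b (l 4) (l 287460810231))) (a (b (l 290682034503) (l 54458829191)) (l 56606313943))) (b (a (b (l 283702715047) (l 16776856)) (l 16776432)) (l 16764840))))))) (a (b (a (l 4) (b (l 4) (a (b (l 4) (a (b (l 4) (a (l 297661357687) (l 147337505047))) (b (a (l 292829520631) (l 52848215527)) (l 16771304)))) (b (a (b (l 4) (a (l 287997683575) (l 53385088135))) (b (a (l 283165846535) (l 16771792)) (l 16765952))) (l 13656640167))))) (b (a (a (b (l 4) (a (b (l 4) (l 290682040599)) (b (l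 286923945351) (l 57143185335)))) (b (a (b (l 4) (l 283702721015)) (b (l 279944624455) (l 16776656))) (a (l 59290670119) (l 16764856)))) (a (b (l 20099096519) (l 16773976)) (l 16762584))) (a (a (b (a (b (a (l 54458829399) (l 16766120)) (l 16775936)) (l 16764952)) (l 16763616)) (l 16762664)) (l 16760008)))) (b (a (b (a (b (a (l 4) (b (l 4) (l 301956320023))) (a (a (l 290145172615) (b (l 305177548279) (l 16776984))) (b (a (l 147874363127) (l 16776928)) (l 16765848)))) (b (a (b (l 298198224855) (a (l 147874364759) (l 16776872))) (b (a (l 147874366247) (l 16776816)) (l 16776240))) (l 16764976))) (a (l 7751063543) (l 16762552))) (b (a (l 16769368) (l 16762568)) (l 16760224))) (a (b (l 16760088) (l 16767232)) (l 16755464))))), by decide +kernel⟩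

def k29_pm_011_t : ∃ t, chk3 f_pm_011_t t 71 124 1 = true :=
  ⟨(b (a (b (a (b (l 4) (a (l 4) (b (l 4) (a (l 4) (b (l 4) (l 267059722743)))))) (b (a (l 4) (b (l 4) (a (l 294976993351) (b (l 289608292247) (l 16770520))))) (a (b (a (l 303566925351) (b (l 296587611607) (a (l 149484977895) (l 16777000)))) (a (b (l 149484986327) (l 16776568)) (l 16776192))) (b (a (b (l 51774472999) (l 16776480)) (l 16776136)) (l 16764704))))) (a (b (a (b (b (l 4) (a (l 4) (l 273502171319))) (a (b (l 277260266503) (l 16776752)) (l 16776344))) (b (a (b (l 270280947031) (l 16776656)) (l 16776264)) (l 16764752))) (a (l 16769304) (l 16762632))) (b (a (l 16764048) (l 16762760)) (l 16760704)))) (a (b (b (a (b (a (l 290145162967) (b (l 282628972887) (l 16771736))) (l 55532571863)) (b (l 16771104) (l 16775192))) (l 16771368)) (b (l 16761064) (l 16748064))) (b (b (l 16768928) (l 16771992)) (l 16758088)))) (a (b (a (a (l 16759616) (l 16758312)) (l 16756560)) (a (l 16742424) (l 16761288))) (b (a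 (l 16744160) (l 16742768)) (l 16748576)))), by decide +kernel⟩

def k30_pm_011_t : ∃ t, chk3 f_pm_011_t t 35 125 1 = true :=
  ⟨(b (a (a (b (a (a (l 16764320) (l 16757296)) (l 16754760)) (a (l 16740400) (l 16758144))) (b (a (l 16741184) (l 16759432)) (l 16743440))) (a (b (l 16745648) (l 16728760)) (b (l 16732456) (l 16747464)))) (a (a (b (l 16741912) (l 16734472)) (b (l 16746912) (b (a (l 16742696) (l 16739992)) (a (b (l 16739728) (l 16737280)) (b (l 16736640) (l 16732368)))))) (a (b (a (l 16743840) (b (l 16744048) (l 16729488))) (b (a (b (l 16738968) (l 16736240)) (l 16733880)) (l 16726960))) (b (b (a (l 16742848) (b (l 16743064) (l 16740680))) (a (b (l 16739752) (l 16736080)) (l 16734224))) (l 16701624))))), by decide +kernel⟩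

def k31_pm_011_t : ∃ t, chk3 f_pm_011_t t 17 126 1 = true :=
  ⟨(a (a (b (a (b (a (b (a (a (l 16770672) (l 16767016)) (l 16765464)) (l 16762664)) (b (l 16762344) (l 16763744))) (a (b (l 16764136) (l 16760416)) (b (l 16759944) (l 16756184)))) (b (a (b (l 16763416) (l 16759568)) (l 16746872)) (a (l 16743376) (b (l 16751608) (b (l 16748744) (l 16735872)))))) (a (b (b (a (l 16756712) (l 16752296)) (a (b (l 16753952) (a (l 16752992) (l 16750432))) (b (a (l 16750344) (l 16747720)) (l 16745280)))) (b (a (b (a (l 16750272) (l 16746280)) (l 16743528)) (l 16738048)) (l 16711472))) (b (b (a (b (l 16748776) (a (l 16747816) (l 16744952))) (b (a (l 16745328) (l 16742064)) (l 16739200))) (l 16714992)) (a (l 16704624) (l 16718032))))) (b (a (b (a (l 16753304) (l 16749392)) (b (a (l 16747544) (b (l 16744584) (a (l 16743320) (l 16741024)))) (a (b (l 16738856) (l 16730688)) (l 16736408)))) (b (b (l 16745784) (a (l 16743440) (b (l 16740768) (l 16732960)))) (b (a (b (a (l 16741344) (l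 16738928)) (l 16736056)) (l 16731560)) (l 16725776)))) (b (a (a (l 16708504) (l 16722280)) (l 16693552)) (a (b (l 16711768) (l 16702240)) (l 16672072))))) (b (a (b (a (b (a (b (l 16741760) (l 16739328)) (b (l 16738168) (l 16734944))) (a (b (l 16736512) (l 16731896)) (l 16727968))) (a (l 16705816) (l 16721048))) (a (l 16696416) (l 16705608))) (a (b (l 16713368) (l 16695176)) (b (l 16704472) (l 16686272)))) (a (a (b (l 16677960) (l 16680064)) (b (l 16687136) (l 16668264))) (a (b (l 16676696) (l 16657816)) (b (l 16667784) (l 16648888)))))), by decide +kernel⟩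

def k32_pm_011_t : ∃ t, chk3 f_pm_011_t t 17 127 1 = true :=
  ⟨(b (a (a (b (a (a (l 16700936) (l 16693080)) (b (l 16707392) (l 16697664))) (a (a (l 16681264) (l 16694376)) (b (l 16687824) (l 16677872)))) (b (a (b (l 16692608) (l 16682872)) (l 16673768)) (a (b (l 16673024) (l 16663072)) (l 16654072)))) (a (b (a (l 16660784) (l 16648976)) (a (l 16641088) (l 16629272))) (b (a (l 16638520) (l 16629592)) (a (l 16618808) (l 16609880))))) (a (a (b (a (b (l 16683264) (l 16673096)) (b (l 16667816) (l 16657656))) (b (a (l 16662824) (l 16647376)) (b (a (l 16655048) (l 16639600)) (a (l 16652864) (l 16638072))))) (b (a (b (l 16653016) (l 16642848)) (l 16633952)) (b (a (l 16632576) (l 16618584)) (b (a (l 16624728) (l 16610784)) (l 16617320))))) (b (a (a (l 16620960) (l 16609144)) (a (l 16598680) (l 16589744))) (b (a (l 16599528) (l 16578648)) (a (b (l 16597304) (l 16592752)) (b (l 16571784) (l 16573416))))))), by decide +kernel⟩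

def k33_pm_011_t : ∃ t, chk3 f_pm_011_t t 18 60 1 = true :=
  ⟨(a (l 4) (b (l 4) (a (l 4) (b (l 4) (a (b (l 4) (a (l 4) (b (l 294440104359) (a (b (l 162906723559) (l 16766176)) (l 16764776))))) (b (a (b (l 4) (l 290145142663)) (b (a (l 4) (l 135526302215)) (a (l 82376098375) (l 16773904)))) (a (b (b (a (l 16758624) (l 16775896)) (l 16764280)) (l 16750072)) (l 16746512)))))))), by decide +kernel⟩

def k34_pm_011_t : ∃ t, chk3 f_pm_011_t t 36 122 1 = true :=
  ⟨(a (l 4) (b (l 4) (a (b (l 4) (a (l 4) (b (l 4) (a (l 4) (b (l 4) (a (l 4) (l 271891550567))))))) (b (a (l 4) (b (l 4) (a (l 4) (b (l 4) (a (l 272965290663) (l 143042522695)))))) (a (b (a (l 4) (b (l 4) (a (l 4) (l 262764750119)))) (a (b (a (l 4) (l 267596585815)) (a (b (l 144653136727) (l 16776696)) (l 16776152))) (b (a (b (l 144653139863) (l 16776496)) (l 16775920)) (l 16753624)))) (b (a (b (b (l 293903254279) (l 259006658231)) (l 68954343767)) (l 74859925975)) (l 16766984))))))), by decide +kernel⟩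

def k35_pm_011_t : ∃ t, chk3 f_pm_011_t t 72 123 1 = true :=
  ⟨(b (a (l 4) (b (l 4) (a (b (l 4) (a (b (l 4) (a (l 4) (b (l 4) (c (l 151095599079) (l 152169332839))))) (b (a (l 283702705271) (b (l 279407745111) (c (l 52311346711) (l 49626991815)))) (a (a (b (l 150021851111) (l 16776728)) (l 16776672)) (l 16765648))))) (b (a (b (l 4) (a (l 278870869639) (b (l 272965296663) (l 16771680)))) (b (a (b (l 4) (l 270280943335)) (b (l 267059719095) (l 16776784))) (l 57143188279))) (a (b (a (b (l 52311347895) (l 16776376)) (l 16765448)) (l 16764496)) (l 16768776)))))) (a (b (a (b (l 4) (a (b (l 4) (a (l 4) (l 289608285575))) (b (a (l 4) (l 284776455223)) (a (b (l 284239583991) (l 51237604903)) (l 53385090007))))) (b (a (b (l 4) (a (l 4) (b (l 4) (l 274575911335)))) (b (a (l 4) (b (l 4) (l 268670333751))) (a (b (l 271354687095) (l 16776840)) (l 16776488)))) (a (b (b (a (l 277797135559) (l 16776904)) (l 16772736)) (l 16775872)) (l 16769856)))) (b (a (a (b (a (b (l 291218903319)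 (a (l 150558721111) (l 16777048))) (b (l 51237603687) (l 16776664))) (l 16765744)) (l 16770312)) (l 16768344)) (a (l 16768992) (l 16771464)))) (b (b (a (a (b (a (b (a (l 150021848007) (l 16771864)) (l 16776712)) (l 16776320)) (l 16764960)) (l 16769336)) (b (l 16767560) (l 16760976))) (a (a (l 16763152) (l 16751056)) (l 16758960))) (a (b (l 16759952) (l 16747120)) (a (l 16745496) (l 16743576)))))), by decide +kernel⟩

def k36_pm_011_t : ∃ t, chk3 f_pm_011_t t 73 123 1 = true :=
  ⟨(b (a (b (a (b (a (l 4) (b (l 4) (l 293366375639))) (a (b (l 4) (a (a (l 279407742455) (l 267059723031)) (b (l 146263751767) (l 16776616)))) (b (a (b (l 4) (l 146800624055)) (b (l 146800625863) (l 16765936))) (l 13656640279)))) (b (a (b (a (l 4) (l 276723386215)) (a (b (l 277260261399) (l 57680055767)) (l 60901282455))) (b (b (a (l 271354683895) (l 16776792)) (l 16771168)) (l 16764680))) (b (l 16769224) (l 16762344)))) (a (b (a (b (l 16770656) (l 16774424)) (l 16762872)) (l 16766120)) (b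 (l 16759968) (l 16746456)))) (b (a (b (a (l 16763520) (l 16750920)) (l 16759024)) (a (l 16757400) (l 16744584))) (a (b (l 16766216) (l 16763080)) (l 16749480)))) (a (b (a (a (l 16757592) (l 16745160)) (l 16752528)) (a (l 16740520) (l 16757128))) (b (b (l 16747160) (l 16733544)) (l 16739328)))), by decide +kernel⟩

def k37_pm_011_t : ∃ t, chk3 f_pm_011_t t 37 61 1 = true :=
  ⟨(b (a (b (a (b (l 4) (a (l 4) (b (l 4) (a (l 297124464487) (b (l 292292639143) (a (l 140358166887) (l 16776248))))))) (b (a (l 4) (b (l 4) (a (l 263301610519) (b (l 138747543799) (l 16775632))))) (a (b (a (l 268670311639) (b (l 262227873319) (l 16765680))) (a (b (l 75396789047) (l 16774408)) (l 16751936))) (b (b (l 16769352) (l 16751352)) (l 16747864))))) (a (a (b (b (a (l 4) (b (l 4) (a (l 141431902695) (l 16766208)))) (a (b (a (l 267596584119) (l 69491210295)) (l 16775632)) (l 16763832))) (b (l 16760960) (l 16746536))) (b (b (a (b (b (l 140895034615) (l 16766040)) (l 16775064)) (l 16752672))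 (l 16749640)) (l 16753952))) (b (a (l 16759680) (l 16741088)) (a (l 16738136) (l 16753480))))) (b (a (b (a (b (a (b (l 4) (l 137673805159)) (b (l 137136937383) (l 16775000))) (l 16762216)) (l 16758904)) (a (l 16744536) (l 16759616))) (b (a (l 16742384) (l 16757120)) (l 16729392))) (a (b (a (l 16756304) (l 16750296)) (l 16723576)) (b (l 16740888) (l 16731848))))) (a (b (a (b (a (l 16751400) (l 16756696)) (a (l 16754920) (l 16749536))) (b (l 16737848) (l 16740888))) (a (b (l 16724576) (l 16738792)) (b (l 16733744) (l 16726504)))) (b (a (b (l 16736232) (l 16728424)) (b (l 16723232) (l 16715072))) (a (b (l 16720864) (l 16713152)) (l 16703048))))), by decide +kernel⟩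

def k38_pm_011_t : ∃ t, chk3 f_pm_011_t t 19 30 1 = true :=
  ⟨(b (a (b (a (l 4) (b (a (l 4) (b (l 4) (a (l 4) (l 254174790039)))) (a (b (a (l 4) (l 293903226135)) (a (b (l 294976979127) (l 126399505047)) (l 102777186711))) (b (a (a (l 128010094215) (l 99019085495)) (l 16749744)) (l 16741512))))) (a (b (a (b (l 4) (a (b (l 4) (a (l 4) (l 133915695703))) (b (a (l 163980451095) (l 16759224)) (l 16763096)))) (b (a (b (l 4) (a (l 134989428119) (l 16755208))) (b (l 129083853463) (l 16771944))) (b (l 72175546151) (l 16742904)))) (a (b (a (b (l 90966037687) (l 16769192)) (l 16744480)) (l 16736920)) (a (l 16732376) (l 16725640)))) (b (a (b (l 16743656) (l 16732120)) (l 16723968)) (a (l 16715376) (l 16722504))))) (b (a (b (a (a (b (l 4) (l 102240302023)) (b (l 125325723335) (l 16768832))) (b (l 110293373799) (l 16737232))) (a (l 16733360) (l 16719360))) (b (a (l 16728896) (l 16735368)) (l 16698176))) (a (b (a (l 16731008) (l 16717248)) (a (l 16708632) (l 16694952))) (b (l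 16696528) (l 16674416))))) (a (b (a (b (a (b (l 16726480) (l 16737392)) (l 16707944)) (a (l 16702048) (l 16709216))) (b (a (l 16715112) (l 16701128)) (a (l 16695072) (l 16680784)))) (a (b (a (l 16684376) (l 16690992)) (a (l 16688424) (l 16673824))) (b (a (l 16676344) (l 16661592)) (b (a (l 16662672) (l 16648640)) (a (l 16657096) (l 16650520)))))) (b (a (b (l 16648936) (l 16659672)) (b (l 16652832) (l 16631728))) (b (a (a (l 16647152) (l 16634672)) (b (l 16620632) (l 16625024))) (a (a (l 16644728) (l 16643160)) (l 16644000)))))), by decide +kernel⟩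

def k39_pm_011_t : ∃ t, chk3 f_pm_011_t t 18 62 1 = true :=
  ⟨(a (b (a (b (a (b (a (a (l 16761392) (l 16749784)) (l 16757904)) (b (l 16756744) (l 16744496))) (a (b (l 16743736) (l 16739488)) (b (l 16739560) (l 16755880)))) (a (b (l 16741760) (l 16737072)) (b (l 16743640) (l 16729416)))) (b (a (b (b (l 16734168) (l 16731456)) (a (l 16751024) (l 16745920))) (b (l 16722664) (l 16716672))) (a (b (l 16722656) (l 16739192)) (b (l 16732024) (b (l 16728104) (a (l 16729048) (l 16723576))))))) (b (a (b (a (l 16752968) (a (l 16749768) (l 16723648))) (a (b (l 16748888) (a (l 16745224) (b (l 16746504) (l 16743496)))) (b (a (l 16727552) (l 16723488)) (l 16741936)))) (b (a (b (a (l 16739192) (l 16733784)) (a (l 16728336) (l 16735432))) (a (b (l 16729056) (l 16733728)) (l 16729248))) (a (l 16720960) (l 16737680)))) (a (b (a (b (a (l 16718896) (l 16736568)) (l 16729008)) (l 16707216)) (a (l 16715416) (l 16710056))) (a (a (l 16694784) (l 16692616)) (l 16689440))))) (b (a (b (a (b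 (l 16732056) (l 16725480)) (l 16694656)) (b (a (l 16719184) (b (l 16706984) (l 16695720))) (a (b (a (l 16718696) (l 16713384)) (l 16718424)) (l 16712032)))) (b (b (l 16677144) (a (l 16698376) (b (l 16685712) (l 16686456)))) (a (b (b (l 16696144) (l 16700416)) (l 16708488)) (l 16699752)))) (a (b (a (l 16710616) (l 16706840)) (a (l 16685272) (l 16681072))) (b (l 16701416) (l 16674528))))), by decide +kernel⟩

def k40_pm_011_t : ∃ t, chk3 f_pm_011_t t 18 63 1 = true :=
  ⟨(b (a (b (a (a (b (l 16697280) (l 16679072)) (b (l 16691912) (l 16673688))) (a (l 16657416) (l 16674112))) (a (a (b (l 16660568) (l 16641672)) (l 16624800)) (a (l 16641320) (l 16637032)))) (a (b (a (l 16669928) (l 16665728)) (a (l 16632840) (l 16628632))) (b (l 16659168) (l 16622064)))) (a (b (a (a (b (l 16622368) (l 16602656)) (l 16586184)) (b (l 16610368) (l 16590648))) (b (a (a (l 16582520) (l 16577128)) (l 16570520)) (a (b (l 16564352) (b (l 16537360) (l 16560640))) (b (l 16555152) (l 16530808)))))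 (b (a (a (l 16594208) (l 16590000)) (l 16583440)) (b (a (l 16562112) (l 16553432)) (a (b (l 16546624) (l 16544640)) (l 16538024)))))), by decide +kernel⟩

def k41_pm_011_t : ∃ t, chk3 f_pm_011_t t 19 31 1 = true :=
  ⟨(b (a (b (b (a (b (a (l 16677144) (l 16667512)) (l 16678752)) (l 16668776)) (a (l 16695272) (l 16690992))) (a (b (l 16716176) (l 16664728)) (l 16629104))) (b (a (l 16657680) (l 16658496)) (b (l 16666344) (l 16630024)))) (b (a (a (b (l 16649360) (l 16612248)) (l 16577168)) (a (l 16583440) (l 16587248))) (a (b (a (l 16573624) (l 16561872)) (b (l 16538104) (a (l 16529096) (l 16518280)))) (b (l 16538984) (b (l 16509048) (l 16497160)))))), by decide +kernel⟩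

def k42_pm_011_t : ∃ t, chk3 f_pm_011_t t 5 14 1 = true :=
  ⟨(b (a (a (l 4) (b (l 4) (a (b (l 4) (a (l 4) (b (l 4) (l 128546896263)))) (b (a (l 277797021703) (b (l 136063066215) (l 16747544))) (b (a (l 119420118039) (l 16749240)) (l 16698768)))))) (a (b (a (b (a (l 4) (l 4)) (a (l 132304918823) (l 56069352759))) (b (a (l 96871496327) (l 16755720)) (l 16686376))) (a (b (a (l 16711352) (l 16726400)) (l 16653800)) (b (l 16663832) (l 16640120)))) (b (a (a (l 16666504) (l 16660392)) (l 16599328)) (a (b (l 16630128) (l 16585408)) (l 16533160))))) (a (a (b (a (l 4) (b (a (l 4) (b (l 4) (l 272965231815))) (a (b (l 287460720263) (a (l 141968678743) (l 16747248))) (b (b (l 128010063015) (l 16743976)) (l 16727032))))) (a (b (a (b (l 4) (a (l 295513802215) (b (l 154316722423) (l 16751168)))) (b (a (l 278870829735) (l 99019043879)) (b (l 16742392) (l 16730816)))) (a (b (a (a (l 105998382999) (l 16744872)) (l 16734288)) (l 16716856)) (b (l 16712464) (l 16708672)))) (b (a (a (l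 16706120) (l 16712688)) (l 16690992)) (a (l 16649744) (l 16641672))))) (b (a (b (a (b (a (l 4) (l 16725184)) (l 79154823143)) (a (l 16734616) (l 16721000))) (b (l 16686552) (l 16662872))) (b (l 16643480) (l 16596584))) (a (b (a (l 16683096) (l 16654320)) (a (l 16633680) (l 16604824))) (b (l 16590432) (l 16561776))))) (b (a (a (b (l 16628976) (l 16602952)) (b (l 16594256) (l 16547168))) (a (l 16473952) (b (l 16485792) (l 16439256)))) (a (b (a (l 16554720) (l 16498832)) (a (a (l 16519080) (l 16492136)) (b (l 16466168) (l 16463008)))) (b (a (b (l 16456168) (l 16440472)) (b (l 16417168) (l 16424048))) (a (l 16450592) (l 16448128))))))), by decide +kernel⟩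

def k43_pm_011_t : ∃ t, chk3 f_pm_011_t t 5 15 1 = true :=
  ⟨(b (a (a (b (a (b (a (b (l 16713352) (l 16690184)) (l 16630304)) (a (b (l 16667632) (l 16645760)) (l 16627384))) (b (a (l 16643040) (l 16613888)) (a (l 16597888) (b (l 16579712) (l 16561568))))) (b (a (b (a (l 16624256) (l 16595856)) (a (b (l 16608376) (l 16605000)) (l 16595552))) (b (a (l 16576440) (l 16568648)) (l 16593992))) (a (b (l 16619952) (l 16645592)) (l 16613024)))) (b (b (a (l 16549360) (b (l 16524704) (a (l 16518072) (l 16502584)))) (a (b (a (l 16550976) (l 16530320)) (l 16525760)) (l 16512000))) (b (a (l 16581728) (l 16581808)) (l 16571536)))) (b (a (b (a (b (a (l 16489080) (l 16478720)) (l 16497944)) (l 16487008)) (l 16510248)) (b (l 16485032) (l 16528136))) (a (b (l 16580480) (l 16632536)) (b (l 16576576) (l 16572048))))) (a (b (a (a (b (l 16659976) (b (l 16631280) (l 16615984))) (b (l 16673136) (l 16579080))) (b (l 16581576) (l 16508944))) (a (b (a (l 16540256) (l 16527320)) (b (l 16487208)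 (b (l 16457432) (l 16449128)))) (b (l 16457440) (b (l 16421584) (l 16390768))))) (b (a (b (l 16559912) (l 16488032)) (l 16337504)) (b (a (l 16416024) (l 16356768)) (a (l 16282328) (l 16288136)))))), by decide +kernel⟩

def k44_pm_011_t : ∃ t, chk3 f_pm_011_t t 3 3 1 = true :=
  ⟨(b (a (b (a (b (l 4) (a (l 4) (b (l 4) (a (l 4) (l 101703246823))))) (a (b (l 1) (b (l 1) (b (l 1) (l 89153973703)))) (l 1))) (a (b (a (b (l 4) (a (b (l 4) (l 110830074567)) (b (l 99018966567) (l 16752120)))) (b (a (b (l 16675056) (l 16726008)) (b (l 16757032) (l 16725584))) (a (b (l 16739512) (l 16703824)) (l 16672976)))) (a (b (a (b (l 84523488807) (l 16730480)) (l 16656176)) (a (l 16629392) (l 16620064))) (a (b (l 16648064) (l 16570192)) (b (l 16599488) (l 16521832))))) (b (a (b (a (l 16674016) (l 16649040)) (l 16518824)) (b (l 1) (l 16514992))) (a (b (l 16487712) (l 16452392)) (b (l 16442664) (l 16366104)))))) (b (l 1) (a (a (a (b (l 1) (l 16302848)) (l 1)) (l 1)) (l 1)))) (b (a (b (a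 (a (b (a (l 16588800) (l 16537640)) (a (l 16501688) (l 16450576))) (b (a (l 16487912) (l 16439736)) (a (l 16401328) (b (l 16375216) (l 16344216))))) (a (b (a (l 16393240) (l 16348784)) (b (a (l 16333256) (l 16309896)) (l 16328312))) (b (a (l 16313360) (l 16290040)) (l 16312840)))) (a (b (a (b (a (l 16433320) (l 16387312)) (a (b (l 16401224) (l 16396272)) (l 16384664))) (a (b (l 16361192) (l 16381792)) (l 16366416))) (a (b (l 16413752) (l 16445360)) (l 16423440))) (b (a (l 16363472) (l 16358672)) (a (l 16417416) (l 16410112))))) (a (b (a (b (l 16276880) (l 16309608)) (l 16287600)) (b (a (l 16352816) (l 6)) (l 6))) (l 6))) (a (b (a (b (a (l 16438080) (l 16494272)) (a (l 16484688) (l 16488504))) (b (a (l 16485920) (l 6)) (l 6))) (a (b (a (l 16363656) (l 6)) (b (l 16252528) (l 6))) (l 6))) (l 6)))), by decide +kernel⟩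

theorem s45_pm_011_t : ∃ t, chk3 f_pm_011_t t 5 7 1 = true := ex3_b k42_pm_011_t k43_pm_011_t

theorem s46_pm_011_t : ∃ t, chk3 f_pm_011_t t 18 31 1 = true := ex3_b k39_pm_011_t k40_pm_011_t

theorem s47_pm_011_t : ∃ t, chk3 f_pm_011_t t 9 31 1 = true := ex3_a s46_pm_011_t k41_pm_011_t

theorem s48_pm_011_t : ∃ t, chk3 f_pm_011_t t 36 123 1 = true := ex3_a k35_pm_011_t k36_pm_011_t

theorem s49_pm_011_t : ∃ t, chk3 f_pm_011_t t 36 61 1 = true := ex3_b k34_pm_011_t s48_pm_011_t

theorem s50_pm_011_t : ∃ t, chk3 f_pm_011_t t 18 61 1 = true := ex3_a s49_pm_011_t k37_pm_011_t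

theorem s51_pm_011_t : ∃ t, chk3 f_pm_011_t t 18 30 1 = true := ex3_b k33_pm_011_t s50_pm_011_t

theorem s52_pm_011_t : ∃ t, chk3 f_pm_011_t t 9 30 1 = true := ex3_a s51_pm_011_t k38_pm_011_t

theorem s53_pm_011_t : ∃ t, chk3 f_pm_011_t t 9 15 1 = true := ex3_b s52_pm_011_t s47_pm_011_t

theorem s54_pm_011_t : ∃ t, chk3 f_pm_011_t t 17 63 1 = true := ex3_b k31_pm_011_t k32_pm_011_t

theorem s55_pm_011_t : ∃ t, chk3 f_pm_011_t t 35 124 1 = true := ex3_a k28_pm_011_t k29_pm_011_t

theorem s56_pm_011_t : ∃ t, chk3 f_pm_011_t t 35 62 1 = true := ex3_b s55_pm_011_t k30_pm_011_t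

theorem s57_pm_011_t : ∃ t, chk3 f_pm_011_t t 69 250 1 = true := ex3_a k25_pm_011_t k26_pm_011_t

theorem s58_pm_011_t : ∃ t, chk3 f_pm_011_t t 69 125 1 = true := ex3_b s57_pm_011_t k27_pm_011_t

theorem s59_pm_011_t : ∃ t, chk3 f_pm_011_t t 136 503 1 = true := ex3_a k22_pm_011_t k23_pm_011_t

theorem s60_pm_011_t : ∃ t, chk3 f_pm_011_t t 136 251 1 = true := ex3_b k21_pm_011_t s59_pm_011_t

theorem s61_pm_011_t : ∃ t, chk3 f_pm_011_t t 68 251 1 = true := ex3_a s60_pm_011_t k24_pm_011_t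

theorem s62_pm_011_t : ∃ t, chk3 f_pm_011_t t 68 125 1 = true := ex3_b k20_pm_011_t s61_pm_011_t

theorem s63_pm_011_t : ∃ t, chk3 f_pm_011_t t 34 125 1 = true := ex3_a s62_pm_011_t s58_pm_011_t

theorem s64_pm_011_t : ∃ t, chk3 f_pm_011_t t 34 62 1 = true := ex3_b k19_pm_011_t s63_pm_011_t

theorem s65_pm_011_t : ∃ t, chk3 f_pm_011_t t 17 62 1 = true := ex3_a s64_pm_011_t s56_pm_011_t

theorem s66_pm_011_t : ∃ t, chk3 f_pm_011_t t 17 31 1 = true := ex3_b s65_pm_011_t s54_pm_011_t

theorem s67_pm_011_t : ∃ t, chk3 f_pm_011_t t 33 127 1 = true := ex3_b k17_pm_011_t k18_pm_011_t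

theorem s68_pm_011_t : ∃ t, chk3 f_pm_011_t t 134 252 1 = true := ex3_b k13_pm_011_t k14_pm_011_t

theorem s69_pm_011_t : ∃ t, chk3 f_pm_011_t t 67 252 1 = true := ex3_a s68_pm_011_t k15_pm_011_t

theorem s70_pm_011_t : ∃ t, chk3 f_pm_011_t t 67 126 1 = true := ex3_b s69_pm_011_t k16_pm_011_t

theorem s71_pm_011_t : ∃ t, chk3 f_pm_011_t t 133 253 1 = true := ex3_b k11_pm_011_t k12_pm_011_t

theorem s72_pm_011_t : ∃ t, chk3 f_pm_011_t t 132 507 1 = true := ex3_a k9_pm_011_t k10_pm_011_t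

theorem s73_pm_011_t : ∃ t, chk3 f_pm_011_t t 132 253 1 = true := ex3_b k8_pm_011_t s72_pm_011_t

theorem s74_pm_011_t : ∃ t, chk3 f_pm_011_t t 66 253 1 = true := ex3_a s73_pm_011_t s71_pm_011_t

theorem s75_pm_011_t : ∃ t, chk3 f_pm_011_t t 66 126 1 = true := ex3_b k7_pm_011_t s74_pm_011_t

theorem s76_pm_011_t : ∃ t, chk3 f_pm_011_t t 33 126 1 = true := ex3_a s75_pm_011_t s70_pm_011_t

theorem s77_pm_011_t : ∃ t, chk3 f_pm_011_t t 33 63 1 = true := ex3_b s76_pm_011_t s67_pm_011_t

theorem s78_pm_011_t : ∃ t, chk3 f_pm_011_t t 32 63 1 = true := ex3_b k5_pm_011_t k6_pm_011_t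

theorem s79_pm_011_t : ∃ t, chk3 f_pm_011_t t 16 63 1 = true := ex3_a s78_pm_011_t s77_pm_011_t

theorem s80_pm_011_t : ∃ t, chk3 f_pm_011_t t 16 31 1 = true := ex3_b k4_pm_011_t s79_pm_011_t

theorem s81_pm_011_t : ∃ t, chk3 f_pm_011_t t 8 31 1 = true := ex3_a s80_pm_011_t s66_pm_011_t

theorem s82_pm_011_t : ∃ t, chk3 f_pm_011_t t 8 15 1 = true := ex3_b k3_pm_011_t s81_pm_011_t

theorem s83_pm_011_t : ∃ t, chk3 f_pm_011_t t 4 15 1 = true := ex3_a s82_pm_011_t s53_pm_011_t

theorem s84_pm_011_t : ∃ t, chk3 f_pm_011_t t 4 7 1 = true := ex3_b k2_pm_011_t s83_pm_011_t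

theorem s85_pm_011_t : ∃ t, chk3 f_pm_011_t t 2 7 1 = true := ex3_a s84_pm_011_t s45_pm_011_t

theorem s86_pm_011_t : ∃ t, chk3 f_pm_011_t t 2 3 1 = true := ex3_b k1_pm_011_t s85_pm_011_t

theorem s87_pm_011_t : ∃ t, chk3 f_pm_011_t t 1 3 1 = true := ex3_a s86_pm_011_t k44_pm_011_t

theorem s88_pm_011_t : ∃ t, chk3 f_pm_011_t t 1 1 1 = true := ex3_b k0_pm_011_t s87_pm_011_t

theorem c_pm_011_t : CertNE 0 536870912 536870912 536870912 1040187392 5207648 3 eng mog cd0q0 cd0q1 pd1 false true false .pnn 0 1 1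
    ndB0q0 ndB0q1 pcB1 cut_pm_011_t Ext.none :=
  certNE0 (fam := false) (s1 := true) (s2 := false) (a := 0) (b := 1) (c := 1) (cn := .pnn) (n1 := ndB0q0) (n2 := ndB0q1) (pc := pcB1) (cut := cut_pm_011_t) (xt := Ext.none) (P1 := 0) (W1 := 536870912) (P2 := 536870912) (W2 := 536870912) (P3 := 1040187392) (W3 := 5207648) (N0 := 3) (En := eng) (mo := mog) (C1 := cd0q0) (C2 := cd0q1) (C3 := pd1)
    rfl s88_pm_011_t

noncomputable def cut_pm_012_s : Cut := Cut.of [[⟨4, 0, 0, 1449551462⟩], [⟨0, 0, 0, 26843545⟩, ⟨1, 1, 0, 26843545⟩, ⟨2, 1, 0, 26843545⟩]]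

noncomputable def f_pm_012_s : ℕ → ℕ → ℕ → ℕ → Bool := onCell 0 536870912 0 536870912 1040187392 5207648
    (rowNE 3 eng mog cd0q0 cd0q2 pd1 0 false true false .pnp 0 1 2 (qsf 0 536870912 0 536870912 1) ndB0q0 ndB0q2 pcB1 cut_pm_012_s Ext.none)

def k0_pm_012_s : ∃ t, chk3 f_pm_012_s t 1 1 1 = true :=
  ⟨(a (l 6) (b (a (b (a (l 6) (a (l 6) (b (l 16482504) (l 6)))) (l 6)) (b (a (b (a (l 16450352) (b (a (l 16415496) (l 16408864)) (l 16412944))) (l 6)) (b (a (b (l 16424808) (a (l 16377088) (l 16367376))) (a (l 16333432) (l 16442296))) (a (l 16400208) (b (a (l 16346736) (b (l 16331160) (l 16324928))) (l 16369016))))) (l 6))) (l 6))), by decide +kernel⟩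

theorem c_pm_012_s : CertNE 0 536870912 0 536870912 1040187392 5207648 3 eng mog cd0q0 cd0q2 pd1 false true false .pnp 0 1 2
    ndB0q0 ndB0q2 pcB1 cut_pm_012_s Ext.none :=
  certNE0 (fam := false) (s1 := true) (s2 := false) (a := 0) (b := 1) (c := 2) (cn := .pnp) (n1 := ndB0q0) (n2 := ndB0q2) (pc := pcB1) (cut := cut_pm_012_s) (xt := Ext.none) (P1 := 0) (W1 := 536870912) (P2 := 0) (W2 := 536870912) (P3 := 1040187392) (W3 := 5207648) (N0 := 3) (En := eng) (mo := mog) (C1 := cd0q0) (C2 := cd0q2) (C3 := pd1)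
    rfl k0_pm_012_s

noncomputable def cut_pm_012_t : Cut := Cut.of [[⟨3, 0, 0, 2845415833⟩], [⟨0, 0, 0, 26843545⟩, ⟨1, 1, 0, 26843545⟩, ⟨2, 1, 0, 26843545⟩]]

noncomputable def f_pm_012_t : ℕ → ℕ → ℕ → ℕ → Bool := onCell 0 536870912 0 536870912 1040187392 5207648
    (rowNE 3 eng mog cd0q0 cd0q2 pd1 0 false true false .pnp 0 1 2 (qsf 0 536870912 0 536870912 1) ndB0q0 ndB0q2 pcB1 cut_pm_012_t Ext.none)

def k0_pm_012_t : ∃ t, chk3 f_pm_012_t t 1 2 1 = true :=
  ⟨(l 6), by decide +kernel⟩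

def k1_pm_012_t : ∃ t, chk3 f_pm_012_t t 4 6 1 = true :=
  ⟨(a (l 2) (a (a (a (l 2) (l 6)) (l 6)) (l 6))), by decide +kernel⟩

def k2_pm_012_t : ∃ t, chk3 f_pm_012_t t 8 14 1 = true :=
  ⟨(a (l 2) (b (a (l 2) (a (l 2) (b (l 2) (b (l 16517080) (l 16542704))))) (a (b (l 2) (a (b (l 2) (a (l 2) (l 16628224))) (b (a (l 16603608) (l 16610296)) (a (l 16614568) (l 16621112))))) (b (a (b (a (l 2) (l 16563472)) (a (l 16586072) (l 16590824))) (b (l 16568328) (l 16595464))) (a (b (l 16597528) (l 16629088)) (b (l 16604072) (l 16628448))))))), by decide +kernel⟩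

def k3_pm_012_t : ∃ t, chk3 f_pm_012_t t 8 15 1 = true :=
  ⟨(b (a (a (l 2) (b (a (l 2) (b (l 2) (a (l 2) (b (l 2) (l 16686192))))) (b (a (l 2) (a (b (l 16692528) (l 16678944)) (b (l 16669400) (l 16684960)))) (a (l 14) (a (b (l 16674896) (l 16692944)) (l 16679272)))))) (a (b (a (b (a (b (l 2) (l 16661696)) (b (l 16652888) (l 16648464))) (b (a (l 16657320) (l 16677232)) (l 16654656))) (b (l 16640080) (b (l 16636400) (l 16648800)))) (a (b (a (l 16651936) (l 16658816)) (a (l 16664576) (l 16650400))) (b (l 16617904) (l 16609368)))) (b (b (a (l 16627256) (l 16608856)) (a (l 16608688) (l 16611256))) (a (b (l 16615480) (l 16606792)) (b (l 16597024) (l 16588216)))))) (a (a (l 14) (a (l 14) (b (b (a (b (l 16690952) (l 16689680)) (l 16675096)) (a (b (l 16689008) (l 16688680)) (l 16673592))) (b (a (b (l 16688264) (l 16687608)) (l 16672584)) (b (a (l 16686720) (l 16671248)) (a (l 16685608) (l 16670088))))))) (a (b (a (b (a (l 16660296) (l 16646008)) (a (l 16658664) (l 16644256)))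 (b (l 16604824) (a (l 16630480) (l 16617496)))) (b (a (a (l 16657544) (l 16643024)) (a (l 16629128) (l 16616040))) (a (b (l 16648752) (a (l 16654920) (l 16640288))) (b (l 16620888) (l 16619584))))) (b (a (b (l 16602048) (l 16599912)) (b (l 16583296) (l 16580952))) (a (b (l 16598312) (b (l 16596592) (l 16595216))) (b (l 16579160) (l 16576648))))))), by decide +kernel⟩

def k4_pm_012_t : ∃ t, chk3 f_pm_012_t t 9 7 1 = true :=
  ⟨(b (a (b (a (a (b (b (l 16467728) (l 16493072)) (l 16531120)) (b (l 16477352) (l 16527472))) (b (a (l 16473744) (l 6)) (a (l 16523240) (l 16519504)))) (a (b (a (b (l 16569096) (l 16595920)) (l 16536264)) (a (b (l 16604216) (l 16616472)) (l 16593616))) (b (a (l 16552344) (l 16568888)) (a (l 16588024) (l 16603824))))) (b (a (b (l 6) (l 16516640)) (l 6)) (a (b (l 16543952) (l 16572176)) (b (l 16547768) (l 16587872))))) (a (b (a (b (a (b (l 16617872) (l 16599320)) (b (l 16610856) (l 16592344))) (a (b (l 16585048) (l 16576120)) (b (l 16578048) (l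 16569024)))) (b (b (a (l 16604504) (l 16597744)) (a (l 16586040) (l 16579352))) (a (l 16566704) (l 16560000)))) (a (b (a (b (l 16571040) (l 16568512)) (b (l 16563800) (l 16561104))) (a (b (l 16566552) (l 16563896)) (b (l 16558984) (l 16535240)))) (b (a (b (l 16557288) (l 16554432)) (l 16548984)) (a (l 16540384) (l 16543680))))) (b (b (a (b (l 16585040) (l 16566776)) (l 16528584)) (a (l 16526456) (l 16521808))) (b (a (a (l 16540872) (l 16530760)) (l 16510176)) (a (l 16509512) (l 16504176)))))), by decide +kernel⟩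

def k5_pm_012_t : ∃ t, chk3 f_pm_012_t t 5 3 1 = true :=
  ⟨(b (l 6) (b (a (a (b (l 6) (b (l 6) (l 16539288))) (l 6)) (l 6)) (a (b (b (a (l 16459896) (l 16440440)) (a (l 16474560) (l 16414064))) (a (b (l 16462640) (l 16456248)) (b (l 16402032) (l 16395384)))) (b (l 6) (a (l 16340872) (l 16285584)))))), by decide +kernel⟩

def k6_pm_012_t : ∃ t, chk3 f_pm_012_t t 3 3 1 = true :=
  ⟨(b (l 6) (l 6)), by decide +kernel⟩

theorem s7_pm_012_t : ∃ t, chk3 f_pm_012_t t 8 7 1 = true := ex3_b k2_pm_012_t k3_pm_012_t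

theorem s8_pm_012_t : ∃ t, chk3 f_pm_012_t t 4 7 1 = true := ex3_a s7_pm_012_t k4_pm_012_t

theorem s9_pm_012_t : ∃ t, chk3 f_pm_012_t t 4 3 1 = true := ex3_b k1_pm_012_t s8_pm_012_t

theorem s10_pm_012_t : ∃ t, chk3 f_pm_012_t t 2 3 1 = true := ex3_a s9_pm_012_t k5_pm_012_t

theorem s11_pm_012_t : ∃ t, chk3 f_pm_012_t t 1 3 1 = true := ex3_a s10_pm_012_t k6_pm_012_t

theorem s12_pm_012_t : ∃ t, chk3 f_pm_012_t t 1 1 1 = true := ex3_b k0_pm_012_t s11_pm_012_t

theorem c_pm_012_t : CertNE 0 536870912 0 536870912 1040187392 5207648 3 eng mog cd0q0 cd0q2 pd1 false true false .pnp 0 1 2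
    ndB0q0 ndB0q2 pcB1 cut_pm_012_t Ext.none :=
  certNE0 (fam := false) (s1 := true) (s2 := false) (a := 0) (b := 1) (c := 2) (cn := .pnp) (n1 := ndB0q0) (n2 := ndB0q2) (pc := pcB1) (cut := cut_pm_012_t) (xt := Ext.none) (P1 := 0) (W1 := 536870912) (P2 := 0) (W2 := 536870912) (P3 := 1040187392) (W3 := 5207648) (N0 := 3) (En := eng) (mo := mog) (C1 := cd0q0) (C2 := cd0q2) (C3 := pd1)
    rfl s12_pm_012_t

noncomputable def cut_pm_022_s : Cut := Cut.of [[⟨4, 0, 0, 1449551462⟩], [⟨0, 0, 0, 26843545⟩, ⟨1, 1, 0, 26843545⟩, ⟨2, 1, 0, 26843545⟩]]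

noncomputable def f_pm_022_s : ℕ → ℕ → ℕ → ℕ → Bool := onCell 1073741824 536870912 0 536870912 1040187392 5207648
    (rowNE 3 eng mog cd0q0 cd0q2 pd2 2 false true false .pp 0 2 2 (qsf 0 536870912 0 536870912 2) ndB0q0 ndB0q2 pcB2 cut_pm_022_s Ext.none)

def k0_pm_022_s : ∃ t, chk3 f_pm_022_s t 1 1 1 = true :=
  ⟨(l 6), by decide +kernel⟩

theorem c_pm_022_s : CertNE 0 536870912 0 536870912 1040187392 5207648 3 eng mog cd0q0 cd0q2 pd2 false true false .pp 0 2 2
    ndB0q0 ndB0q2 pcB2 cut_pm_022_s Ext.none :=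
  certNE2 (fam := false) (s1 := true) (s2 := false) (a := 0) (b := 2) (c := 2) (cn := .pp) (n1 := ndB0q0) (n2 := ndB0q2) (pc := pcB2) (cut := cut_pm_022_s) (xt := Ext.none) (P1 := 0) (W1 := 536870912) (P2 := 0) (W2 := 536870912) (P3 := 1040187392) (W3 := 5207648) (N0 := 3) (En := eng) (mo := mog) (C1 := cd0q0) (C2 := cd0q2) (C3 := pd2)
    rfl (fun _ => rfl) k0_pm_022_s

noncomputable def cut_pm_022_t : Cut := Cut.of [[⟨3, 0, 0, 2845415833⟩], [⟨0, 0, 0, 26843545⟩, ⟨1, 1, 0, 26843545⟩, ⟨2, 1, 0, 26843545⟩]]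

noncomputable def f_pm_022_t : ℕ → ℕ → ℕ → ℕ → Bool := onCell 0 536870912 0 536870912 1040187392 5207648
    (rowNE 3 eng mog cd0q0 cd0q2 pd2 0 false true false .pp 0 2 2 (qsf 0 536870912 0 536870912 2) ndB0q0 ndB0q2 pcB2 cut_pm_022_t Ext.none)

def k0_pm_022_t : ∃ t, chk3 f_pm_022_t t 2 2 1 = true :=
  ⟨(l 6), by decide +kernel⟩

def k1_pm_022_t : ∃ t, chk3 f_pm_022_t t 4 6 1 = true :=
  ⟨(b (l 6) (b (a (a (a (b (l 16386152) (l 16459896)) (b (l 6) (l 16447568))) (l 6)) (l 6)) (a (a (a (b (l 16505936) (l 16523480)) (b (l 16504024) (l 16511048))) (a (b (l 16488712) (l 16507408)) (b (l 6) (l 16509864)))) (a (l 6) (l 1))))), by decide +kernel⟩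

def k2_pm_022_t : ∃ t, chk3 f_pm_022_t t 4 7 1 = true :=
  ⟨(a (b (a (b (a (b (b (l 16604608) (l 16605112)) (a (l 16588048) (l 16607648))) (b (b (l 16563192) (l 16560808)) (a (l 16618584) (l 16593824)))) (a (b (a (b (l 16606352) (l 16588744)) (b (l 16629048) (l 16613144))) (a (b (a (l 16611560) (l 16625144)) (a (l 16603592) (l 16638768))) (b (l 16623248) (l 16637664)))) (b (a (b (l 16649624) (l 16655976)) (b (l 16611624) (l 16640608))) (a (b (l 16646080) (l 16655008)) (b (l 16644120) (l 16622912)))))) (b (a (b (a (l 16567176) (l 16556664)) (a (l 16594264) (l 16580464))) (b (l 16535368) (a (l 16574576) (l 16578256)))) (a (b (a (b (l 16609712) (l 16616120)) (l 16575240)) (a (b (l 16618064) (l 16616296)) (b (l 16598640) (l 16595344)))) (b (a (l 16566120) (l 16587600)) (a (b (l 16587184) (l 1)) (l 1)))))) (b (a (a (b (a (b (a (b (l 16636792) (l 16645936)) (l 16634992)) (a (b (l 16655712) (l 16665560)) (b (l 16670616) (l 16680632)))) (b (a (l 16648784) (l 16661744)) (a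 (l 16668792) (l 16677408)))) (b (a (a (b (l 16674720) (l 16662288)) (a (l 16669632) (l 16677056))) (a (l 16687792) (l 16676024))) (l 14))) (b (b (a (l 16632296) (l 16619680)) (a (b (l 16650432) (l 16648448)) (a (l 16643816) (l 16627160)))) (a (b (b (l 16647288) (l 16646864)) (l 14)) (b (a (l 16640328) (l 16622960)) (a (l 16639504) (l 1)))))) (a (a (b (b (l 16590600) (a (l 16611896) (l 1))) (l 1)) (l 1)) (l 1))) (a (a (l 14) (a (l 14) (l 1))) (l 1)))) (b (a (a (b (a (a (l 16540392) (l 16572728)) (l 16549808)) (l 1)) (l 1)) (l 1)) (l 1))), by decide +kernel⟩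

def k3_pm_022_t : ∃ t, chk3 f_pm_022_t t 5 3 1 = true :=
  ⟨(b (l 1) (l 1)), by decide +kernel⟩

def k4_pm_022_t : ∃ t, chk3 f_pm_022_t t 3 1 1 = true :=
  ⟨(l 1), by decide +kernel⟩

theorem s5_pm_022_t : ∃ t, chk3 f_pm_022_t t 4 3 1 = true := ex3_b k1_pm_022_t k2_pm_022_t

theorem s6_pm_022_t : ∃ t, chk3 f_pm_022_t t 2 3 1 = true := ex3_a s5_pm_022_t k3_pm_022_t

theorem s7_pm_022_t : ∃ t, chk3 f_pm_022_t t 2 1 1 = true := ex3_b k0_pm_022_t s6_pm_022_t

theorem s8_pm_022_t : ∃ t, chk3 f_pm_022_t t 1 1 1 = true := ex3_a s7_pm_022_t k4_pm_022_t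

theorem c_pm_022_t : CertNE 0 536870912 0 536870912 1040187392 5207648 3 eng mog cd0q0 cd0q2 pd2 false true false .pp 0 2 2
    ndB0q0 ndB0q2 pcB2 cut_pm_022_t Ext.none :=
  certNE0 (fam := false) (s1 := true) (s2 := false) (a := 0) (b := 2) (c := 2) (cn := .pp) (n1 := ndB0q0) (n2 := ndB0q2) (pc := pcB2) (cut := cut_pm_022_t) (xt := Ext.none) (P1 := 0) (W1 := 536870912) (P2 := 0) (W2 := 536870912) (P3 := 1040187392) (W3 := 5207648) (N0 := 3) (En := eng) (mo := mog) (C1 := cd0q0) (C2 := cd0q2) (C3 := pd2)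
    rfl s8_pm_022_t

noncomputable def cut_pm_101_s : Cut := Cut.of [[⟨4, 0, 0, 1127428915⟩], [⟨0, 1, 0, 8388608⟩, ⟨1, 0, 0, 8388608⟩, ⟨2, 1, 0, 8388608⟩], [⟨0, 0, 1, 46137344⟩, ⟨1, 1, 2, 46137344⟩, ⟨2, 1, 0, 1048576⟩, ⟨0, 0, 0, 1054867456⟩, ⟨0, 1, 0, 38117834⟩, ⟨1, 0, 0, 38117834⟩, ⟨1, 1, 0, 1054867456⟩]]

noncomputable def xt_pm_101_s : Ext := extD3 3 ⟨4, 1, 1, 5, 33, 5, 163, 200, 81, 200, 1, 64⟩ eng cd0q1 cd0q1 pd0 false true false .npn 1 0 1 rfl ndB0q1 ndB0q1 pcB0

noncomputable def f_pm_101_s : ℕ → ℕ → ℕ → ℕ → Bool := onCell 0 536870912 536870912 536870912 1040187392 5207648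
    (rowNE 3 eng mog cd0q1 cd0q1 pd0 2 false true false .npn 1 0 1 (qsf 536870912 536870912 536870912 536870912 0) ndB0q1 ndB0q1 pcB0 cut_pm_101_s xt_pm_101_s)

def k0_pm_101_s : ∃ t, chk3 f_pm_101_s t 2 2 1 = true :=
  ⟨(l 6), by decide +kernel⟩

def k1_pm_101_s : ∃ t, chk3 f_pm_101_s t 4 6 1 = true :=
  ⟨(l 6), by decide +kernel⟩

def k2_pm_101_s : ∃ t, chk3 f_pm_101_s t 8 14 1 = true :=
  ⟨(l 6), by decide +kernel⟩

def k3_pm_101_s : ∃ t, chk3 f_pm_101_s t 16 30 1 = true :=
  ⟨(l 6), by decide +kernel⟩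

def k4_pm_101_s : ∃ t, chk3 f_pm_101_s t 16 62 1 = true :=
  ⟨(l 6), by decide +kernel⟩

def k5_pm_101_s : ∃ t, chk3 f_pm_101_s t 32 126 1 = true :=
  ⟨(a (b (l 6) (b (l 6) (b (l 6) (a (a (b (b (l 6) (a (a (a (c (a (l 16772040) (l 16772296)) (c (l 16772872) (l 16772680))) (l 6)) (l 6)) (l 6))) (a (c (a (a (c (l 16773680) (l 16772192)) (l 16774032)) (c (l 16772832) (l 16772624))) (a (c (b (l 16771432) (l 16771704)) (b (l 16771896) (l 16771528))) (c (l 16775040) (l 16774832)))) (c (l 144016678718275695) (l 144012692987625583)))) (l 6)) (l 6))))) (l 6)), by decide +kernel⟩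

def k6_pm_101_s : ∃ t, chk3 f_pm_101_s t 32 254 1 = true :=
  ⟨(b (a (a (a (a (b (b (a (a (c (c (l 16774224) (l 16774056)) (c (l 16773896) (l 16773728))) (c (l 16775808) (l 16774144))) (c (l 16775688) (l 143999773716119663))) (a (c (l 603945392047808972367471) (l 603931556986661313095279)) (c (l 16775976) (l 144034751930433647)))) (a (l 14) (c (l 144008432372318319) (l 144028773336776815)))) (c (b (c (l 144022657313194095) (l 144021351642693743)) (l 144035370373218415)) (b (c (l 144020045972177007) (l 144018740301660271)) (l 144033721104990319)))) (c (a (b (l 144034614472343663) (l 144033171362005103)) (l 144093850669219951)) (a (b (l 144031453375316079) (l 144076876948242543)) (l 144090758293995631)))) (a (c (l 144099210775068783) (l 144139342951006319)) (l 6))) (l 6)) (a (a (a (a (l 14) (a (l 14) (c (l 144063957698855023) (l 144062995625525359)))) (c (a (l 144087803343356015) (l 144079557007851631)) (a (l 144087253586755695) (l 144124293388173423)))) (a (a (c (l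 144125255453556847) (l 144124568259919983)) (l 144188958424318063)) (c (l 144086978710929519) (l 144091720356397167)))) (a (a (c (l 144011112395604079) (l 144109243821080687)) (l 6)) (l 6)))), by decide +kernel⟩

def k7_pm_101_s : ∃ t, chk3 f_pm_101_s t 64 255 1 = true :=
  ⟨(a (a (l 14) (b (b (c (l 144108556643795055) (l 144108350486052975)) (l 14)) (l 14))) (a (b (b (c (l 144123812359012463) (l 144124018518425711)) (c (l 144132608460587119) (l 144144084614037615))) (a (l 14) (b (b (l 144155973085954159) (l 14)) (l 14)))) (b (b (l 144186072207786095) (c (l 144153774064238703) (l 144154804836057199))) (b (c (l 144153224303804527) (a (l 144126973470851183) (l 144141267120357487))) (b (c (l 144163188628701295) (l 144162913754349679)) (a (l 14) (c (l 144157347479027823) (l 144156729004605551)))))))), by decide +kernel⟩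

def k8_pm_101_s : ∃ t, chk3 f_pm_101_s t 130 255 1 = true :=
  ⟨(c (a (b (l 144100379012022383) (b (l 144110480779788399) (b (l 144162913748549743) (b (l 144166487162732655) (l 144168205153288303))))) (a (b (l 144054817981546607) (b (l 144075914879058031) (b (l 144089658778370159) (b (l 144096943050326127) (l 144102165731950703))))) (b (l 144009119520440431) (b (l 144035576538497135) (b (l 144052962573336687) (a (b (l 144164837894127727) (l 144170816484786287)) (a (l 144150269362471023) (l 144137968573890671)))))))) (b (a (l 144105258096427119) (a (l 144062102247899247) (l 144015922755780719))) (b (a (l 144113366999105647) (a (l 144081068841336943) (l 144039837147463791))) (a (b (l 144165044053491823) (a (l 144129928408318063) (l 144118383535571055))) (b (a (l 144093988106780783) (l 144056054948348015)) (a (b (l 144100860056436847) (l 144105807865462895)) (a (l 144170610326765679) (l 144145940030570607)))))))), by decide +kernel⟩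

def k9_pm_101_s : ∃ t, chk3 f_pm_101_s t 262 255 1 = true :=
  ⟨(b (b (l 6) (a (c (l 144052137926623343) (l 143966925755514991)) (c (l 143995994081755247) (l 143909751150559471)))) (c (a (b (l 143983006128898159) (b (b (l 144088902857523311) (l 144095706082066543)) (a (c (l 144118933275213935) (l 144119414312009839)) (b (l 144090277248204911) (c (l 144097905111711855) (l 144097836392611951)))))) (a (b (l 144033171350110319) (b (l 144053581040205935) (b (l 144064782317699183) (c (l 144072891217674351) (l 144072410181632111))))) (b (l 144006027151671407) (b (l 144027330195259503) (b (l 144039012507877487) (c (l 144047671165141103) (l 144046777812189295))))))) (a (b (l 143985961067610223) (b (l 144003621983387759) (b (c (l 144103471379955823) (l 144103814977781871)) (c (l 144020595698073711) (l 144020664417960047))))) (b (l 143931191634378863) (b (b (l 144037019643773039) (l 143953800353874031)) (a (c (l 144068080848633967) (l 144067668537475183)) (c (b (l 144038050436989039)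 (l 144045747020267631)) (l 144041005370327151)))))))), by decide +kernel⟩

def k10_pm_101_s : ∃ t, chk3 f_pm_101_s t 263 255 1 = true :=
  ⟨(b (l 6) (a (a (b (c (l 143978539350409327) (l 143979157821227247)) (b (c (c (l 144001079350083695) (l 144000529594564719)) (l 143999567516975215)) (c (b (c (l 144013448858992751) (l 144012418067071087)) (c (c (l 144022382391672943) (l 144021763917807727)) (b (l 144018602821501039) (l 144022863430074479)))) (b (c (l 144011318555672687) (l 144010219044290671)) (c (l 144019358733762671) (l 144017915627618415)))))) (b (b (l 6) (c (l 143958129668014319) (l 143957442473967855))) (b (c (c (l 143974416187474031) (l 143973454115717231)) (c (l 143972423323828463) (l 143971392531923183))) (c (b (c (a (l 143993795085041775) (l 143980600943083631)) (a (l 143992489415180399) (l 143979089114759279))) (c (a (c (l 144003072216531055) (l 144002247582875759)) (a (a (l 143994482280480879) (l 143991252464484463)) (l 143986304661258351))) (a (l 144001010632392815)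 (a (l 143991046306463855) (l 143984449235484783))))) (b (c (l 143984311796400239) (l 143982731248615663)) (a (c (l 143999292645621871) (l 143997505939357807)) (c (c (l 143986304662044783) (l 143985342589436015)) (a (l 143987266735472879) (l 143980394786570479))))))))) (b (a (b (l 6) (c (l 143930229555200239) (l 143928855155556591))) (l 6)) (b (a (c (c (l 143947271989805295) (l 143945966319943919)) (c (l 143944591930605807) (l 143943217541284079))) (c (c (l 143919784193982703) (l 143918134926688495)) (c (l 143916416939933935) (l 143914630233686255)))) (c (b (c (a (l 143960603571683567) (l 143933596812361967)) (a (l 143958748145926383) (l 143931397789171951))) (c (b (a (l 143967544240881775) (l 143940743639728367)) (a (a (l 143978814237065327) (l 143965620095123695)) (a (l 143952288514228463) (a (l 143942255468789999) (l 143935520958841071))))) (b (a (l 143965413936840943) (l 143938269738582255)) (a (c (l 143970499179380847) (l 143969399667622127)) (a (l 143949745893589231)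 (l 143936139434721519)))))) (c (b (a (l 143956892720185583) (l 143929130046505199)) (a (a (l 143972285886365935) (l 143958610708021487)) (b (l 143935727117959407) (c (l 143940949799338223) (l 143939575409787119))))) (b (a (l 143954968574951663) (l 143926793584361711)) (a (a (l 143970086863192303) (l 143956274245877999)) (a (l 143942324189577455) (a (l 143931810107736303) (l 143924732000354543))))))))))), by decide +kernel⟩

def k11_pm_101_s : ∃ t, chk3 f_pm_101_s t 33 63 1 = true :=
  ⟨(a (b (l 6) (a (a (b (l 6) (b (l 6) (b (l 6) (a (b (a (b (l 6) (c (l 143895526215106799) (c (l 143892090241040623) (l 143889822498390255)))) (l 6)) (c (b (c (a (l 143906246455574767) (l 143878415062352111)) (a (l 143903635115475183) (l 143875460124819695))) (a (a (c (c (l 143923632486908143) (l 143922189377880303)) (c (l 143920746268852463) (l 143919303159824623))) (c (c (l 143910026028024047) (l 143908514199519471)) (c (l 143907002370998511) (l 143905421823000815)))) (a (c (c (l 143896350849646831)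 (l 143894701582172399)) (c (l 143893121034158319) (l 143891471766667503))) (b (c (l 143879102257774831) (l 143875735003316463)) (c (c (l 143885149573071087) (l 143883431586087151)) (c (l 143881644879626479) (l 143879858173165807))))))) (c (b (a (l 143900955055898863) (l 143872436467810543)) (a (b (l 143907827005325551) (a (l 143919440599335151) (l 143905421823377647))) (a (c (l 143889822499193071) (l 143888104512225519)) (c (l 143875597564920047) (l 143873810858459375))))) (b (a (l 143898274996322543) (l 143869344085950703)) (a (b (l 143904803348316399) (c (l 143910094749188335) (l 143908445481730287))) (a (c (l 143886455244734703) (l 143884737257783535)) (c (l 143872024152015087) (l 143870237445570799)))))))) (b (l 6) (a (b (l 6) (a (b (c (c (l 143865083481948399) (l 143861510069043439)) (c (l 143857936656122095) (l 143854294523740399))) (c (c (c (l 143871336955691247) (l 143869481529753839)) (c (l 143867557384323311) (l 143865701958369519))) (c (c (l 143863777812955375)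 (l 143861853667524847)) (c (l 143859929522094319) (l 143858005376663791))))) (a (c (c (c (l 143858142814241007) (l 143856218669482223)) (c (l 143854363242184943) (l 143852439096754415))) (c (c (l 143850514951340271) (l 143848590805909743)) (c (l 143846597941002479) (l 143844673795571951)))) (l 6)))) (l 6))))))) (l 6)) (l 6))) (l 6)), by decide +kernel⟩

def k12_pm_101_s : ∃ t, chk3 f_pm_101_s t 17 15 1 = true :=
  ⟨(l 6), by decide +kernel⟩

def k13_pm_101_s : ∃ t, chk3 f_pm_101_s t 9 7 1 = true :=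
  ⟨(l 6), by decide +kernel⟩

def k14_pm_101_s : ∃ t, chk3 f_pm_101_s t 5 3 1 = true :=
  ⟨(l 6), by decide +kernel⟩

def k15_pm_101_s : ∃ t, chk3 f_pm_101_s t 3 1 1 = true :=
  ⟨(l 6), by decide +kernel⟩

theorem s16_pm_101_s : ∃ t, chk3 f_pm_101_s t 131 255 1 = true := ex3_a k9_pm_101_s k10_pm_101_s

theorem s17_pm_101_s : ∃ t, chk3 f_pm_101_s t 65 255 1 = true := ex3_a k8_pm_101_s s16_pm_101_s

theorem s18_pm_101_s : ∃ t, chk3 f_pm_101_s t 32 255 1 = true := ex3_a k7_pm_101_s s17_pm_101_s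

theorem s19_pm_101_s : ∃ t, chk3 f_pm_101_s t 32 127 1 = true := ex3_b k6_pm_101_s s18_pm_101_s

theorem s20_pm_101_s : ∃ t, chk3 f_pm_101_s t 32 63 1 = true := ex3_b k5_pm_101_s s19_pm_101_s

theorem s21_pm_101_s : ∃ t, chk3 f_pm_101_s t 16 63 1 = true := ex3_a s20_pm_101_s k11_pm_101_s

theorem s22_pm_101_s : ∃ t, chk3 f_pm_101_s t 16 31 1 = true := ex3_b k4_pm_101_s s21_pm_101_s

theorem s23_pm_101_s : ∃ t, chk3 f_pm_101_s t 16 15 1 = true := ex3_b k3_pm_101_s s22_pm_101_s

theorem s24_pm_101_s : ∃ t, chk3 f_pm_101_s t 8 15 1 = true := ex3_a s23_pm_101_s k12_pm_101_s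

theorem s25_pm_101_s : ∃ t, chk3 f_pm_101_s t 8 7 1 = true := ex3_b k2_pm_101_s s24_pm_101_s

theorem s26_pm_101_s : ∃ t, chk3 f_pm_101_s t 4 7 1 = true := ex3_a s25_pm_101_s k13_pm_101_s

theorem s27_pm_101_s : ∃ t, chk3 f_pm_101_s t 4 3 1 = true := ex3_b k1_pm_101_s s26_pm_101_s

theorem s28_pm_101_s : ∃ t, chk3 f_pm_101_s t 2 3 1 = true := ex3_a s27_pm_101_s k14_pm_101_s

theorem s29_pm_101_s : ∃ t, chk3 f_pm_101_s t 2 1 1 = true := ex3_b k0_pm_101_s s28_pm_101_s

theorem s30_pm_101_s : ∃ t, chk3 f_pm_101_s t 1 1 1 = true := ex3_a s29_pm_101_s k15_pm_101_s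

theorem c_pm_101_s : CertNE 536870912 536870912 536870912 536870912 1040187392 5207648 3 eng mog cd0q1 cd0q1 pd0 false true false .npn 1 0 1
    ndB0q1 ndB0q1 pcB0 cut_pm_101_s xt_pm_101_s :=
  certNE2 (fam := false) (s1 := true) (s2 := false) (a := 1) (b := 0) (c := 1) (cn := .npn) (n1 := ndB0q1) (n2 := ndB0q1) (pc := pcB0) (cut := cut_pm_101_s) (xt := xt_pm_101_s) (P1 := 536870912) (W1 := 536870912) (P2 := 536870912) (W2 := 536870912) (P3 := 1040187392) (W3 := 5207648) (N0 := 3) (En := eng) (mo := mog) (C1 := cd0q1) (C2 := cd0q1) (C3 := pd0)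
    rfl (fun _ => rfl) s30_pm_101_s

end Pool.Agent.Strip051.G.I9688_9736.Tab.CS.BB00

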