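import Pool.Agent.Strip051.G.I9688_9736.Tab
import Pool.Agent.Strip051.PB.StripB

/-! # Strips, near vertex: certificates 3 (generated) -/

set_option linter.all false
set_option maxRecDepth 100000

namespace Pool.Agent.Strip051.G.I9688_9736.Tab.CS.BB00

open Pool.Agent.Strip051.PB Pool.Agent.Strip051.PB.T
open Pool.Agent.Strip051.G.I9688_9736.Tab

noncomputable def cut_pm_101_t : Cut := Cut.of [[⟨3, 0, 0, 2845415833⟩], [⟨0, 1, 0, 8388608⟩, ⟨1, 0, 0, 8388608⟩, ⟨2, 1, 0, 8388608⟩], [⟨0, 0, 1, 46137344⟩, ⟨1, 1, 2, 46137344⟩, ⟨2, 1, 0, 1048576⟩, ⟨0, 0, 0, 1054867456⟩, ⟨0, 1, 0, 38117834⟩, ⟨1, 0, 0, 38117834⟩, ⟨1, 1, 0, 1054867456⟩]]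

noncomputable def f_pm_101_t : ℕ → ℕ → ℕ → ℕ → Bool := onCell 536870912 536870912 536870912 536870912 1040187392 5207648
    (rowNE 3 eng mog cd0q1 cd0q1 pd0 0 false true false .npn 1 0 1 (qsf 536870912 536870912 536870912 536870912 0) ndB0q1 ndB0q1 pcB0 cut_pm_101_t Ext.none)

def k0_pm_101_t : ∃ t, chk3 f_pm_101_t t 1 1 1 = true :=
  ⟨(a (b (a (b (a (b (l 4) (a (b (l 4) (b (l 4) (a (l 4) (l 238605503559)))) (b (b (l 4) (a (l 4) (l 259543464999))) (b (a (l 255248499239) (l 59827466759)) (a (l 58753726631) (l 16726312)))))) (b (a (a (l 4) (l 1)) (l 1)) (b (a (b (a (b (l 4) (l 132305012727)) (b (l 1) (l 16759200))) (a (a (l 115662048775) (b (l 16770936) (l 16747456))) (b (l 16734160) (l 16709008)))) (b (l 1) (a (l 16671032) (l 1)))) (a (a (b (l 16724440) (l 16678912)) (b (l 16631504) (l 16628400))) (a (b (l 16620080) (l 16574432)) (l 142840520183)))))) (b (a (b (a (b (a (l 237531765527) (l 16725024)) (a (l 16743912) (l 16727016))) (a (l 16706728) (l 16620856))) (a (a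 (l 16706624) (l 16646992)) (b (l 16604640) (l 16588200)))) (a (b (a (l 16595256) (l 16566656)) (l 16412408)) (b (a (l 16513728) (l 16457088)) (l 16394040)))) (a (a (b (l 16507664) (l 16496304)) (b (l 16493296) (l 16466408))) (b (a (l 16449456) (l 16352240)) (a (l 16386664) (l 16296072)))))) (b (a (b (l 1) (b (l 1) (a (b (l 1) (l 16442120)) (l 1)))) (l 1)) (b (a (a (b (a (l 16335304) (l 16340968)) (a (l 16327840) (l 16264856))) (b (l 306048555239) (a (l 16200208) (l 16139352)))) (b (l 1) (a (l 6) (l 1)))) (a (b (a (l 16240552) (l 6)) (l 6)) (l 6))))) (b (a (b (a (b (a (l 16461000) (l 16396896)) (a (l 16374672) (l 16321408))) (b (a (l 16325376) (l 6)) (l 6))) (a (b (a (b (a (l 16309120) (l 6)) (l 6)) (l 6)) (l 6)) (l 6))) (l 6)) (l 6))) (b (a (b (l 1) (l 6)) (l 1)) (l 6))), by decide +kernel⟩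

theorem c_pm_101_t : CertNE 536870912 536870912 536870912 536870912 1040187392 5207648 3 eng mog cd0q1 cd0q1 pd0 false true false .npn 1 0 1
    ndB0q1 ndB0q1 pcB0 cut_pm_101_t Ext.none :=
  certNE0 (fam := false) (s1 := true) (s2 := false) (a := 1) (b := 0) (c := 1) (cn := .npn) (n1 := ndB0q1) (n2 := ndB0q1) (pc := pcB0) (cut := cut_pm_101_t) (xt := Ext.none) (P1 := 536870912) (W1 := 536870912) (P2 := 536870912) (W2 := 536870912) (P3 := 1040187392) (W3 := 5207648) (N0 := 3) (En := eng) (mo := mog) (C1 := cd0q1) (C2 := cd0q1) (C3 := pd0)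
    rfl k0_pm_101_t

noncomputable def cut_pm_102_s : Cut := Cut.of [[⟨4, 0, 0, 1100585369⟩], [⟨0, 1, 0, 8388608⟩, ⟨1, 0, 0, 8388608⟩, ⟨2, 1, 0, 8388608⟩], [⟨0, 0, 1, 46137344⟩, ⟨1, 1, 2, 46137344⟩, ⟨2, 1, 0, 1048576⟩, ⟨0, 0, 0, 1054867456⟩, ⟨0, 1, 0, 38117834⟩, ⟨1, 0, 0, 38117834⟩, ⟨1, 1, 0, 1054867456⟩]]

noncomputable def f_pm_102_s : ℕ → ℕ → ℕ → ℕ → Bool := onCell 536870912 536870912 0 536870912 1040187392 5207648
    (rowNE 3 eng mog cd0q1 cd0q2 pd0 0 false true false .npp 1 0 2 (qsf 536870912 536870912 0 536870912 0) ndB0q1 ndB0q2 pcB0 cut_pm_102_s Ext.none)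

def k0_pm_102_s : ∃ t, chk3 f_pm_102_s t 2 1 1 = true :=
  ⟨(b (b (a (l 2) (a (a (a (l 2) (b (l 3) (a (l 16714848) (l 16713696)))) (b (l 3) (b (l 127942834759) (a (l 16723976) (l 16734592))))) (b (l 3) (a (b (l 3) (l 134385287015)) (l 3))))) (a (l 6) (a (b (a (l 6) (b (l 16620288) (l 6))) (l 6)) (b (a (b (a (l 16724184) (l 16694312)) (l 16595432)) (b (l 182703815527) (a (l 16716744) (l 89825046407)))) (a (l 6) (b (a (l 6) (l 16663552)) (l 6))))))) (l 6)), by decide +kernel⟩

def k1_pm_102_s : ∃ t, chk3 f_pm_102_s t 3 2 1 = true :=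
  ⟨(b (l 3) (a (a (b (a (b (l 3) (l 190756894967)) (l 3)) (a (b (a (b (l 16755704) (l 16713096)) (b (l 16744352) (l 16737992))) (a (l 6) (b (l 16718488) (l 6)))) (b (l 179482600759) (a (b (l 93583202151) (l 16724952)) (b (l 3) (l 107004970263)))))) (l 3)) (l 3))), by decide +kernel⟩

def k2_pm_102_s : ∃ t, chk3 f_pm_102_s t 6 3 1 = true :=
  ⟨(b (a (b (b (a (l 6) (a (l 16646368) (b (l 16710952) (l 16679376)))) (l 6)) (l 6)) (b (a (b (a (b (l 108078712103) (a (l 16726032) (l 16754344))) (b (l 3) (l 105394363671))) (a (l 16576736) (b (a (l 16735760) (l 16739888)) (l 16676112)))) (b (l 3) (a (b (l 136532887575) (a (l 16724560) (l 76403356999))) (b (l 3) (l 185925088935))))) (a (l 6) (b (a (b (l 16665584) (l 6)) (b (a (b (l 16745760) (l 16743088)) (l 109152490039)) (a (l 16696368) (l 16690088)))) (a (l 6) (b (l 6) (l 6))))))) (l 6)), by decide +kernel⟩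

def k3_pm_102_s : ∃ t, chk3 f_pm_102_s t 7 6 1 = true :=
  ⟨(b (l 3) (a (a (b (a (b (l 3) (a (b (l 105931288999) (l 16734168)) (l 111836859431))) (l 3)) (a (b (a (l 16701888) (b (a (l 16752080) (l 16770008)) (l 16725736))) (a (l 6) (l 16666880))) (b (a (b (l 149417849911) (a (l 16760752) (l 16751352))) (l 3)) (a (l 16689904) (b (a (l 16747920) (l 16751960)) (a (l 16728744) (l 16755664))))))) (a (b (l 3) (b (l 3) (a (b (l 3) (a (l 118279302903) (l 16750800))) (l 3)))) (l 3))) (l 3))), by decide +kernel⟩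

def k4_pm_102_s : ∃ t, chk3 f_pm_102_s t 14 7 1 = true :=
  ⟨(b (a (b (a (l 6) (b (a (l 6) (b (l 16697272) (l 16650848))) (l 6))) (l 6)) (a (b (b (a (b (a (l 16738592) (b (l 16752080) (l 16756472))) (l 16705128)) (b (a (l 113984375175) (l 3)) (a (l 16740240) (b (l 16763376) (l 88214520663))))) (a (b (l 16655048) (l 6)) (b (l 16715256) (l 16619224)))) (l 6)) (b (b (a (l 211158016647) (l 3)) (a (b (a (b (l 124184885607) (l 16752360)) (b (l 3) (l 108078801799))) (a (l 16710552) (a (l 16737176) (b (l 16769792) (l 16741200))))) (b (l 3) (a (b (l 159618414599) (a (l 16760168) (l 86067100087))) (l 214379253079))))) (b (a (b (a (l 16652528) (l 16687432)) (l 6)) (b (a (l 16724808) (b (a (b (l 16774856) (l 16762272)) (l 133311726887)) (a (l 16739112) (l 16759592)))) (a (b (l 16678888) (l 16648016)) (b (l 16697224) (l 16686840))))) (a (l 6) (b (a (l 6) (l 16659992)) (l 6))))))) (l 6)), by decide +kernel⟩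

def k5_pm_102_s : ∃ t, chk3 f_pm_102_s t 15 14 1 = true :=
  ⟨(a (b (l 3) (a (b (a (b (a (b (l 3) (a (b (l 16770120) (l 16772592)) (l 212231775943))) (l 3)) (a (a (l 16733376) (b (b (l 80698396599) (l 16762568)) (l 16738600))) (b (a (b (l 3) (l 110763169047)) (l 3)) (a (b (l 16768096) (l 16752048)) (b (l 163376518871) (a (l 16768440) (l 16770520))))))) (b (l 3) (a (b (l 3) (l 219211094135)) (l 3)))) (a (b (a (b (l 16695824) (l 16663128)) (b (a (l 16727616) (l 16749432)) (a (l 16694608) (l 16716224)))) (a (l 6) (b (l 16671592) (l 16637032)))) (b (a (b (a (b (a (l 16774160) (l 127943042503)) (l 16763440)) (b (l 3) (a (l 100562625367) (l 3)))) (a (b (l 16746784) (l 16729952)) (b (a (l 16763776) (l 57076081047)) (l 16731624)))) (b (l 3) (a (b (l 197199392439) (a (l 16769888) (l 107541947975))) (l 3)))) (a (b (a (l 16704352) (b (l 16735512) (l 16718240))) (l 16701624)) (b (a (b (l 16758640) (l 16741304)) (b (a (b (l 110226304647) (l 16772000)) (l 170892713111)) (a (l 16758984)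 (b (l 16775176) (l 16766568))))) (a (l 16735864) (b (a (l 16741400) (l 16753344)) (l 16729536)))))))) (b (l 3) (a (b (l 3) (a (b (a (b (l 3) (a (b (l 199346877783) (l 96267660279)) (l 3))) (l 3)) (a (b (a (l 16765424) (b (l 140827935799) (l 16773168))) (l 16753672)) (b (l 216526744551) (a (b (l 73719082695) (l 16767664)) (b (l 3) (l 105931337783)))))) (l 3))) (l 3))))) (l 3)), by decide +kernel⟩

def k6_pm_102_s : ∃ t, chk3 f_pm_102_s t 60 30 1 = true :=
  ⟨(a (l 6) (b (b (a (b (l 16644792) (l 6)) (b (a (l 16678856) (l 16702328)) (l 16695264))) (a (l 6) (b (l 16614888) (l 6)))) (l 6))), by decide +kernel⟩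

def k7_pm_102_s : ∃ t, chk3 f_pm_102_s t 122 60 1 = true :=
  ⟨(b (a (b (a (l 16757872) (b (a (l 16754056) (b (l 16771096) (l 16761992))) (l 16762888))) (a (l 16689144) (l 16755760))) (b (a (b (a (b (l 154249718599) (a (l 16771464) (l 89825211623))) (l 227264164007)) (a (l 16760832) (b (a (l 16775000) (l 127943045543)) (l 16768992)))) (b (l 3) (a (b (l 3) (a (l 100025758679) (l 3))) (l 3)))) (a (b (a (l 16742184) (b (l 16759672) (l 16750280))) (l 16750608)) (b (a (b (a (l 16769368) (l 66202891783)) (l 16742264)) (b (l 199346878167) (a (l 16773032) (l 110226305991)))) (a (l 16749008) (l 16772600)))))) (a (b (a (l 16650664) (l 16675344)) (a (l 6) (l 16635200))) (b (a (b (l 16710400) (l 16690848)) (b (l 16757312) (l 16716824))) (a (l 16660608) (l 16728616))))), by decide +kernel⟩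

def k8_pm_102_s : ∃ t, chk3 f_pm_102_s t 123 60 1 = true :=
  ⟨(b (a (b (l 3) (a (b (l 3) (a (b (a (l 81772148295) (l 189683202407)) (a (l 16767272) (l 44191184775))) (b (l 3) (a (l 122574336567) (l 3))))) (l 3))) (l 3)) (a (b (a (b (b (a (l 16771496) (a (l 16771040) (b (l 149417877543) (l 16775360)))) (l 16771136)) (a (l 16736704) (l 16771104))) (b (a (b (l 222969197815) (a (b (l 90898954311) (l 16772480)) (l 134385496503))) (l 3)) (a (b (a (l 16765184) (l 16771992)) (l 16758792)) (b (a (b (l 147270399287) (l 16776368)) (l 3)) (a (l 16769056) (b (l 108078823143) (l 16773480))))))) (a (b (l 16744488) (l 16703104)) (b (a (l 16743864) (l 16768088)) (l 16751368)))) (b (a (b (l 3) (a (b (l 3) (l 200420619847)) (l 3))) (l 3)) (a (b (a (b (a (l 16776272) (b (l 214379264663) (l 94657050791))) (l 16766496)) (b (l 3) (a (b (l 123648079479) (l 16774544)) (l 207399942359)))) (a (l 16772240) (b (a (l 16766968) (l 60297312455)) (l 16770800)))) (b (l 3) (a (b (a (l 165524001335)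 (l 3)) (a (l 16771064) (b (l 156934070247) (l 16775720)))) (l 231022259847))))))), by decide +kernel⟩

def k9_pm_102_s : ∃ t, chk3 f_pm_102_s t 61 61 1 = true :=
  ⟨(b (a (a (l 6) (b (a (l 16618320) (l 16644592)) (l 6))) (a (b (a (b (l 16682184) (l 16660776)) (b (l 16709608) (l 16688376))) (a (l 16627816) (l 16697688))) (b (a (b (l 16758648) (l 16716608)) (b (a (l 16769688) (b (a (b (l 100025759623) (l 16772696)) (l 185388235335)) (b (l 16776416) (l 16765976)))) (a (l 16738256) (l 16773856)))) (a (b (l 16695168) (l 16673416)) (b (l 16745280) (l 16702800)))))) (a (l 6) (a (b (a (l 6) (l 16611088)) (l 6)) (b (a (l 16640288) (b (l 16681088) (l 16659256))) (a (l 6) (l 16626480)))))), by decide +kernel⟩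

def k10_pm_102_s : ∃ t, chk3 f_pm_102_s t 30 31 1 = true :=
  ⟨(l 6), by decide +kernel⟩

def k11_pm_102_s : ∃ t, chk3 f_pm_102_s t 62 60 1 = true :=
  ⟨(l 3), by decide +kernel⟩

def k12_pm_102_s : ∃ t, chk3 f_pm_102_s t 124 61 1 = true :=
  ⟨(b (a (b (a (b (a (b (l 3) (a (b (l 207399942903) (l 16776288)) (l 3))) (l 3)) (a (b (a (l 16769176) (b (l 117205628647) (l 16773960))) (l 16762384)) (b (l 213305521511) (a (l 55465474375) (b (l 3) (l 106468210551)))))) (l 3)) (a (b (a (l 16767496) (a (l 16768192) (l 16775672))) (l 16753656)) (b (a (b (a (b (l 136532980903) (l 16775320)) (l 227801036743)) (a (l 16767408) (b (l 96267663047) (l 16772272)))) (b (l 3) (a (l 186461977207) (l 3)))) (a (l 16776248) (b (a (l 16771872) (b (l 206326201111) (l 16776416))) (l 16765080)))))) (b (l 3) (a (b (l 3) (a (b (l 3) (a (b (l 115058144743) (l 16773744)) (l 206326200615))) (l 3))) (l 3)))) (a (b (a (b (l 16711264) (l 16689792)) (b (a (l 16734048) (l 16770200)) (l 16741480))) (a (l 16699696)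 (b (l 16699544) (l 16678920)))) (b (a (b (a (b (a (l 16765848) (l 53854861735)) (l 16769600)) (b (a (b (l 198810007975) (l 104857597879)) (l 3)) (a (l 16770400) (b (l 135459239095) (l 16775272))))) (a (l 16743432) (l 16769040))) (b (a (l 235854097991) (l 3)) (a (b (a (b (l 95193921607) (l 16772352)) (b (l 3) (l 154786579623))) (a (l 16764640) (l 16774672))) (b (l 3) (a (b (l 210621168375) (l 85530245415)) (l 3)))))) (a (b (l 16751408) (l 16710320)) (b (a (l 16774096) (b (a (l 16769248) (b (l 116668757463) (l 16774008))) (l 16762920))) (a (l 16733344) (l 16748288))))))), by decide +kernel⟩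

def k13_pm_102_s : ∃ t, chk3 f_pm_102_s t 125 61 1 = true :=
  ⟨(b (l 3) (a (b (l 3) (a (b (a (b (l 218137359607) (a (b (l 76403440071) (l 16771288)) (b (l 3) (l 107005081511)))) (l 3)) (a (b (l 16775432) (l 16758072)) (b (a (b (l 189683203111) (l 67813505687)) (l 199346857271)) (a (l 16768608) (b (l 98952017959) (l 16773112)))))) (b (l 3) (a (b (l 3) (a (b (l 3) (l 180019526823)) (l 3))) (l 3))))) (l 3))), by decide +kernel⟩

def k14_pm_102_s : ∃ t, chk3 f_pm_102_s t 63 30 1 = true :=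
  ⟨(l 3), by decide +kernel⟩

def k15_pm_102_s : ∃ t, chk3 f_pm_102_s t 124 62 1 = true :=
  ⟨(b (a (b (a (b (l 16626400) (l 6)) (l 16690936)) (a (l 6) (b (b (l 16625568) (l 6)) (l 6)))) (b (a (b (l 16690888) (l 16672400)) (b (l 16743016) (l 16704384))) (a (b (l 16655168) (b (a (l 6) (l 16651968)) (l 6))) (b (l 16688264) (l 16674136))))) (b (a (l 6) (b (a (l 6) (a (b (a (l 6) (l 16660752)) (l 6)) (b (l 16673888) (a (b (l 16665776) (l 6)) (l 16673560))))) (l 6))) (l 6))), by decide +kernel⟩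

def k16_pm_102_s : ∃ t, chk3 f_pm_102_s t 125 124 1 = true :=
  ⟨(a (b (a (b (a (l 16744336) (l 16768944)) (a (l 16727240) (l 16741688))) (b (a (b (a (b (l 16776512) (l 16770752)) (b (l 218137361015) (a (l 16775608) (l 126332434615)))) (l 16772768)) (b (l 3) (a (b (a (l 98952018407) (l 198810008471)) (l 16776184)) (l 217600489543)))) (a (l 16755312) (b (a (l 16768776) (b (a (l 16775288) (l 115595016487)) (l 16772808))) (l 16764176))))) (a (b (l 16719464) (l 16706752)) (b (a (l 16740896) (l 16753872)) (a (l 16729168) (l 16742744))))) (b (a (b (l 3) (a (b (a (b (l 3) (a (l 87677729575) (l 218674232359))) (l 3)) (a (b (l 16774704) (l 16771072)) (b (l 200420621191) (a (l 16775128) (l 104857598375))))) (l 3))) (l 3)) (a (b (a (b (l 16768696) (l 16762536)) (b (a (b (a (l 78014053175) (l 205789330599)) (l 16774736)) (b (l 3) (a (l 122037467351) (l 3)))) (a (l 16770280) (b (a (l 16775176) (l 95193922055)) (l 16773496))))) (a (l 16754904) (b (l 16767512) (l 16763416)))) (b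 (a (b (l 3) (a (b (l 191830665143) (a (l 67813506071) (l 193978170647))) (l 3))) (l 3)) (a (b (a (l 16776504) (b (a (l 112373791047) (l 3)) (a (l 16775504) (b (l 118279371479) (l 16776592))))) (l 16771832)) (b (a (l 227801036615) (l 3)) (a (b (a (l 16776624) (l 182703881607)) (l 16775696)) (b (l 3) (a (b (l 162302779815) (l 16777048)) (l 197199395623)))))))))), by decide +kernel⟩

def k17_pm_102_s : ∃ t, chk3 f_pm_102_s t 125 250 1 = true :=
  ⟨(a (a (b (l 16718040) (a (b (b (l 16684136) (a (l 6) (l 16687248))) (a (l 6) (b (b (a (l 6) (l 16688744)) (l 6)) (l 6)))) (b (l 16700928) (b (a (a (l 16734984) (l 16697528)) (l 16704120)) (a (b (a (l 16692552) (l 16718112)) (l 16715560)) (a (c (l 16718832) (l 16684296)) (l 16706048))))))) (b (a (l 16720888) (l 16735352)) (a (l 16716992) (l 16732736)))) (a (b (a (l 16748344) (l 16759504)) (a (l 16746968) (l 16759304))) (b (a (b (l 16769200) (l 16767992)) (b (a (l 16773984) (b (a (l 16776184) (b (l 105394469687) (l 16776824)))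 (l 16775832))) (l 16774304))) (a (l 16769280) (l 16776320))))), by decide +kernel⟩

def k18_pm_102_s : ∃ t, chk3 f_pm_102_s t 250 251 1 = true :=
  ⟨(b (a (b (a (l 6) (a (l 6) (b (b (a (l 16701456) (c (l 16723848) (l 16688288))) (l 16703768)) (l 16703888)))) (l 6)) (b (a (b (a (b (l 16712776) (a (c (l 16728792) (l 16692688)) (l 16715232))) (l 16721600)) (a (a (l 16711048) (b (c (l 16733888) (l 16697240)) (l 16715904))) (b (l 16722240) (a (c (l 16739144) (l 16701928)) (l 16725008))))) (l 16734656)) (a (a (c (l 16735080) (l 16694312)) (b (a (l 16721320) (b (c (l 16744568) (l 16706776)) (l 16726344))) (l 16725144))) (b (a (a (b (l 16730136) (c (l 16750168) (l 16711776))) (c (l 16753536) (l 16716312))) (l 16741336)) (a (a (l 16732296) (b (c (l 16755952) (l 16716944)) (l 16737496))) (b (a (c (l 16760096) (l 16721680)) (l 16745208)) (a (c (l 16761920) (l 16722288)) (c (l 16766056) (l 16747992))))))))) (a (l 6) (b (a (c (l 16745624) (l 16721552)) (a (a (l 16756720) (l 16761640))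 (b (c (l 16766984) (l 16725768)) (l 16749496)))) (a (l 6) (a (l 6) (b (l 16753200) (l 6))))))), by decide +kernel⟩

def k19_pm_102_s : ∃ t, chk3 f_pm_102_s t 251 251 1 = true :=
  ⟨(b (a (a (l 16752200) (l 16766312)) (a (l 16777984) (l 16769152))) (a (b (a (b (a (b (a (a (a (l 16750752) (l 16751848)) (l 16753456)) (l 16756640)) (a (l 16754000) (a (a (l 16756792) (l 16757888)) (l 16769976)))) (l 16763712)) (a (l 16758920) (b (a (c (b (l 16782376) (l 16782320)) (b (l 16743808) (l 16744504))) (l 16768848)) (a (l 16766728) (b (a (l 16769488) (l 16771592)) (l 16771696)))))) (a (a (c (l 16760968) (l 16752272)) (l 16775616)) (l 16781120))) (a (c (a (l 16780248) (l 16759960)) (a (l 16741928) (l 16752104))) (b (a (b (a (a (l 16776728) (b (l 16778208) (l 16779512))) (c (l 16781976) (l 16761056))) (a (l 16780384) (a (l 16781952) (b (l 16782104) (l 16781976))))) (a (b (l 16781936) (c (l 16781848) (l 16767576))) (l 16781776))) (a (l 16770648) (b (b (a (c (l 16781856) (l 16769328))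 (l 16781864)) (a (l 16781712) (c (l 16781752) (l 16774984)))) (a (l 16781368) (c (l 16771136) (b (l 16776296) (l 16777600))))))))) (a (b (l 16780984) (a (b (l 16781456) (a (a (b (l 16781744) (b (l 16781776) (l 16781752))) (l 16771136)) (l 16781520))) (l 16781120))) (l 16775096)))), by decide +kernel⟩

def k20_pm_102_s : ∃ t, chk3 f_pm_102_s t 126 62 1 = true :=
  ⟨(b (l 3) (a (b (a (b (a (b (a (b (l 214916135559) (a (l 16776928) (l 121500596423))) (l 3)) (a (l 16776800) (b (a (b (l 130627402327) (l 16771960)) (l 228337908631)) (a (l 16777336) (b (l 16776480) (l 16777328)))))) (b (l 3) (a (b (l 3) (a (l 194515041543) (l 3))) (l 3)))) (a (b (l 16772640) (l 16757336)) (b (a (b (a (l 16774688) (b (l 156397205863) (l 16776488))) (l 16772224)) (b (l 3) (a (b (l 118816242359) (l 16777256)) (l 218137361415)))) (a (l 16767296) (b (a (l 16777440) (b (l 16775848) (l 16777328))) (l 16777560)))))) (b (l 3) (a (b (l 3) (a (b (a (b (l 3) (l 113447533271)) (l 3)) (a (l 16772072) (b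 (l 145122916807) (l 16775864)))) (l 3))) (l 3)))) (a (b (a (l 16773632) (b (l 16767512) (l 16757376))) (a (b (l 16779384) (l 16779704)) (b (l 16757704) (l 16778968)))) (b (a (b (a (l 16772296) (b (a (b (l 108078824199) (l 16777272)) (l 208473685095)) (a (l 16777416) (b (l 16775872) (l 16777328))))) (l 16772488)) (b (a (b (l 3) (a (b (l 197199395991) (l 102710115111)) (l 3))) (l 3)) (a (b (a (l 16772072) (b (l 134385498647) (l 16775880))) (l 16777416)) (b (l 194515030071) (a (b (l 96804535111) (l 16777272)) (l 197736266935)))))) (a (b (l 16767552) (l 16767816)) (b (a (l 16777624) (b (a (l 16777376) (l 16776592)) (l 16777456))) (l 16767256)))))) (b (l 3) (a (b (l 3) (a (b (a (b (a (b (l 222969199847) (l 91435826007)) (l 3)) (a (l 16777296) (b (l 123648080487) (l 16774584)))) (l 191830680071)) (a (l 16777416) (b (a (b (l 86067116903) (l 16777264)) (b (l 3) (l 118816242311))) (a (l 16777336) (l 16775928))))) (b (l 3) (a (b (l 3) (a (b (l 210084298039) (l 81772149623)) (l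 3))) (l 3))))) (l 3))))), by decide +kernel⟩

def k21_pm_102_s : ∃ t, chk3 f_pm_102_s t 127 62 1 = true :=
  ⟨(l 3), by decide +kernel⟩

def k22_pm_102_s : ∃ t, chk3 f_pm_102_s t 124 126 1 = true :=
  ⟨(l 6), by decide +kernel⟩

def k23_pm_102_s : ∃ t, chk3 f_pm_102_s t 250 126 1 = true :=
  ⟨(l 6), by decide +kernel⟩

def k24_pm_102_s : ∃ t, chk3 f_pm_102_s t 251 504 1 = true :=
  ⟨(b (a (a (c (a (l 16778504) (l 16779216)) (a (l 16749824) (l 16760904))) (c (a (l 16758888) (l 16759456)) (a (l 16771536) (l 16759416)))) (a (b (b (a (a (c (l 16781448) (l 16760624)) (a (b (l 16781632) (l 16781584)) (l 16771048))) (l 16781328)) (a (c (l 16781152) (l 16781256)) (a (a (b (l 16781496) (l 16781400)) (a (l 16770936) (l 16781392))) (l 16781296)))) (a (c (l 16780552) (l 16780560)) (b (a (l 16781144) (a (b (l 16781352) (l 16781208)) (b (l 16781296) (l 16770792)))) (l 16780856)))) (a (b (l 16780944) (b (l 16781024) (a (c (b (l 16781064) (l 16781024)) (b (l 16770736) (l 16781168)))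 (l 16780976)))) (l 16780600)))) (a (a (l 6) (c (a (l 16767872) (l 16773720)) (a (b (l 16778352) (l 16777528)) (b (l 16779072) (l 16778256))))) (a (c (a (l 16774248) (l 16769464)) (a (b (l 16779712) (l 16778920)) (b (l 16780272) (l 16779496)))) (b (b (a (a (l 16780792) (a (b (l 16781040) (l 16780848)) (b (l 16780976) (l 16780952)))) (c (l 16780624) (l 16775536))) (a (l 16780528) (a (a (l 16770304) (b (l 16780832) (l 16780768))) (c (l 16780584) (l 16770248))))) (a (c (l 16780024) (l 16779992)) (a (l 16780288) (a (l 16777816) (b (b (l 16780680) (l 16780568)) (l 16780328))))))))), by decide +kernel⟩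

def k25_pm_102_s : ∃ t, chk3 f_pm_102_s t 251 505 1 = true :=
  ⟨(a (b (b (a (l 6) (a (l 6) (a (l 16767104) (l 16767424)))) (l 6)) (l 6)) (a (a (b (c (b (l 16778552) (l 16778000)) (b (l 16778176) (l 16777504))) (b (c (l 16777496) (l 16776888)) (l 6))) (b (c (b (l 16779040) (l 16778496)) (b (l 16778776) (l 16778120))) (c (b (l 16778016) (l 16777592)) (b (l 16777520) (l 16776984))))) (b (c (a (b (l 16779440) (l 16778920)) (b (l 16779768) (l 16779264))) (a (b (l 16779288) (l 16778648)) (b (l 16779720) (l 16779104)))) (c (a (b (l 16778456) (l 16778056)) (b (l 16778816) (l 16778440))) (a (b (l 16778072) (l 16777560)) (b (l 16778544) (l 16778056))))))), by decide +kernel⟩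

def k26_pm_102_s : ∃ t, chk3 f_pm_102_s t 251 253 1 = true :=
  ⟨(a (l 6) (b (a (l 6) (a (b (c (b (l 16777720) (l 16777448)) (b (l 16777112) (l 16771496))) (l 6)) (b (c (b (l 16778120) (l 16777872)) (b (l 16777632) (l 16777280))) (a (l 6) (b (b (l 16776200) (l 6)) (l 6)))))) (l 6))), by decide +kernel⟩

def k27_pm_102_s : ∃ t, chk3 f_pm_102_s t 62 127 1 = true :=
  ⟨(l 6), by decide +kernel⟩

def k28_pm_102_s : ∃ t, chk3 f_pm_102_s t 252 252 1 = true :=
  ⟨(a (b (a (b (l 16779984) (a (b (l 16780384) (b (a (c (l 16775192) (b (l 16780640) (l 16780608))) (l 16780368)) (b (a (a (l 16780480) (l 16780520)) (l 16780392)) (a (l 16780352) (c (l 16780312) (l 16779136)))))) (l 16780032))) (b (l 16779224) (l 16779448))) (b (a (a (b (a (l 16779976) (b (c (l 16777616) (a (l 16780272) (l 16780368))) (l 16779960))) (c (l 16779528) (l 16779464))) (a (b (b (a (b (l 16780280) (l 16780272)) (l 16780176)) (c (l 16780064) (l 16780160))) (l 16779680)) (b (b (l 16780064) (b (l 16778744) (a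 (l 16780096) (l 16780040)))) (c (l 16779776) (l 16779840))))) (b (l 16779592) (a (b (a (a (b (l 16779960) (l 16779904)) (b (l 16779896) (l 16779880))) (l 16779752)) (a (l 16779728) (a (b (l 16779808) (l 16779712)) (b (l 16779720) (l 16777104))))) (a (l 16779544) (l 16779392))))) (a (c (a (b (l 16779104) (l 16778744)) (b (l 16779304) (l 16778960))) (a (b (l 16778928) (l 16778464)) (b (l 16779232) (l 16778784)))) (b (a (c (l 16779424) (l 16779440)) (b (a (a (b (l 16779648) (l 16779536)) (b (l 16779552) (l 16779560))) (l 16778088)) (a (l 16779400) (a (b (l 16779480) (l 16779368)) (b (l 16779392) (l 16779392)))))) (c (a (l 16779096) (l 16779152)) (a (l 16779016) (l 16779160))))))) (b (a (b (l 16778536) (l 16778728)) (b (l 16777944) (l 16778112))) (a (b (l 16778888) (a (b (a (b (l 16779256) (c (l 16779176) (l 16779288))) (l 16779080)) (b (b (a (a (l 16779304) (l 16779232)) (l 16779120)) (a (l 16779216) (c (l 16779040) (l 16779144)))) (a (l 16779088) (a (l 16779088) (b (l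 16779080) (l 16779032)))))) (b (l 16778816) (a (a (b (l 16778984) (b (l 16779000) (l 16779000))) (l 16778888)) (l 16778776))))) (b (l 16778248) (l 16778344))))), by decide +kernel⟩

def k29_pm_102_s : ∃ t, chk3 f_pm_102_s t 252 506 1 = true :=
  ⟨(a (a (b (c (a (b (l 16778448) (l 16778224)) (b (l 16778688) (l 16778488))) (a (b (l 16778064) (l 16777736)) (b (l 16778408) (l 16778112)))) (c (a (b (l 16778072) (l 16777336)) (b (l 16778360) (l 16778312))) (a (b (l 16776176) (c (l 16777488) (l 16777152))) (b (l 16777888) (c (l 16777888) (l 16777608)))))) (b (c (a (b (l 16778848) (l 16778672)) (b (l 16778920) (l 16778768))) (a (b (l 16778664) (l 16778392)) (b (l 16778832) (l 16778584)))) (c (a (b (l 16778568) (l 16778552)) (b (l 16778696) (l 16778696))) (a (b (l 16778200) (l 16776776)) (b (l 16778416) (l 16778336)))))) (b (a (a (c (b (l 16778904) (l 16778776)) (b (l 16778896) (l 16778672))) (b (b (b (a (a (l 16778944) (l 16778928)) (l 16778776)) (a (l 16778880) (c (l 16778736)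 (l 16778176)))) (a (l 16778808) (c (l 16778752) (a (l 16778800) (l 16778808))))) (c (l 16778680) (l 16778664)))) (b (a (a (b (l 16778632) (a (b (l 16778664) (l 16778688)) (l 16777256))) (l 16778480)) (l 16778248)) (a (b (a (c (l 16778600) (l 16778664)) (a (b (l 16778512) (l 16778536)) (a (l 16777792) (l 16778408)))) (c (l 16778496) (l 16778528))) (b (l 16778264) (a (a (b (l 16778376) (l 16778376)) (b (l 16778304) (l 16778312))) (l 16778184)))))) (a (c (a (b (l 16778720) (l 16778760)) (b (l 16778664) (l 16778720))) (a (b (l 16778536) (l 16778488)) (b (l 16778552) (l 16778536)))) (a (c (b (l 16778504) (l 16778592)) (b (l 16778480) (l 16778488))) (b (a (l 16778344) (b (c (b (l 16778144) (l 16778200)) (b (l 16778224) (l 16778272))) (l 16778224))) (c (l 16778376) (l 16778344))))))), by decide +kernel⟩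

def k30_pm_102_s : ∃ t, chk3 f_pm_102_s t 252 507 1 = true :=
  ⟨(a (a (a (l 6) (b (a (b (c (l 16778264) (l 16777584)) (l 6)) (c (b (l 16778416) (l 16778536)) (b (l 16777792) (l 16777832)))) (l 6))) (a (b (c (b (l 16777952) (c (l 16778904) (l 16778592))) (b (c (l 16778200) (l 16777928)) (c (l 16778288) (l 16777968)))) (b (a (c (l 16778904) (l 16777528)) (c (l 16779056) (l 16777072))) (l 6))) (b (c (b (l 16778784) (c (l 16779096) (l 16778832))) (b (c (l 16778456) (l 16778232)) (c (l 16778576) (l 16778312)))) (c (b (c (l 16779376) (l 16779088)) (c (l 16779760) (l 16779432))) (b (c (l 16778792) (l 16778496)) (c (l 16778448) (b (l 16778696) (l 16778864)))))))) (a (b (c (a (b (l 16778880) (l 16777776)) (b (l 16778872) (l 16779120))) (a (b (l 16778528) (c (l 16778768) (l 16778560))) (b (l 16778608) (l 16778128)))) (c (a (b (c (l 16779512) (l 16779272)) (c (l 16779936) (l 16779656))) (b (l 16778808) (c (l 16780016) (l 16779792)))) (a (b (c (l 16779024) (l 16778776)) (c (l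 16779384) (l 16779104))) (b (c (l 16779160) (l 16778960)) (c (l 16779560) (l 16779336)))))) (b (a (c (b (l 16778776) (l 16779056)) (b (l 16778592) (l 16778808))) (c (b (l 16778584) (l 16778904)) (b (l 16778480) (l 16778728)))) (a (c (b (l 16779432) (a (l 16779928) (l 16779912))) (b (l 16778464) (c (l 16779648) (l 16779464)))) (c (b (l 16779320) (l 16778536)) (b (l 16777776) (c (l 16779632) (l 16779488)))))))), by decide +kernel⟩

def k31_pm_102_s : ∃ t, chk3 f_pm_102_s t 253 252 1 = true :=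
  ⟨(a (b (a (b (l 16772264) (l 16772408)) (b (a (b (a (l 16777280) (b (l 114521275047) (l 16774584))) (l 16777320)) (b (l 220821715383) (a (b (c (l 77477182663) (l 77477182679)) (l 16777248)) (b (l 3) (l 110226307767))))) (a (l 16777408) (b (a (l 16777288) (l 16775920)) (l 16777312))))) (a (b (l 16777760) (l 16777832)) (b (l 16774800) (l 16776160)))) (b (a (b (l 3) (a (b (a (b (l 199346879879) (a (l 16777216) (l 104320728199))) (l 3)) (a (l 16777248) (b (a (l 16775840) (l 151028497271)) (l 16774584)))) (b (l 3) (a (l 206863072295) (l 3))))) (l 3)) (a (b (a (l 16777272) (b (a (a (l 16777224) (b (l 98952019111) (l 16777224))) (a (b (l 198273138039) (l 16775848)) (l 217063619767))) (a (l 16777240) (l 16775896)))) (a (l 16777296) (l 16777232))) (b (a (b (l 3) (a (b (l 188072590775) (a (l 16777216) (l 93583310007))) (l 197199385095))) (l 3)) (a (b (a (l 16777216) (b (a (l 16775856) (l 140827950007)) (l 16777200))) (l 16777208)) (b (a (a (a (l 130627402279) (l 219747974423))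 (l 3)) (l 3)) (a (a (l 16777208) (b (l 88751471815) (l 16777208))) (a (b (l 161765915431) (l 16775856)) (l 207936814311))))))))), by decide +kernel⟩

def k32_pm_102_s : ∃ t, chk3 f_pm_102_s t 253 506 1 = true :=
  ⟨(a (a (b (l 16775248) (b (a (a (b (l 16778032) (c (b (l 16778024) (l 16778080)) (b (l 16778104) (l 16778144)))) (c (l 16777848) (l 16777920))) (l 16777752)) (a (a (l 16778152) (b (b (a (l 16778000) (l 16777888)) (l 16777992)) (l 16778032))) (b (a (c (l 16777728) (l 16776496)) (l 16777688)) (b (a (c (l 16777808) (l 16776560)) (l 16777680)) (a (l 16777872) (c (l 16777632) (l 16777696)))))))) (b (a (l 16777560) (l 16777408)) (a (l 16777544) (l 16777376)))) (a (b (a (l 16777288) (l 16777216)) (a (l 16777248) (l 16777152))) (b (a (l 16777176) (b (a (l 16777184) (l 16775880)) (l 16777152))) (a (l 16777104) (l 16777088))))), by decide +kernel⟩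

def k33_pm_102_s : ∃ t, chk3 f_pm_102_s t 253 507 1 = true :=
  ⟨(a (a (b (a (c (b (l 16778304) (l 16778648)) (b (l 16778264) (l 16778552))) (b (a (l 16778024) (a (l 16777872) (b (b (l 16777672) (l 16777720)) (l 16777840)))) (c (l 16778296) (l 16778256)))) (a (c (b (l 16779104) (l 16779672)) (b (l 16778952) (l 16778160))) (c (b (l 16778784) (l 16779400)) (b (l 16778696) (l 16776640))))) (b (b (a (b (a (a (b (l 16777584) (l 16777624)) (l 16777520)) (l 16777464)) (b (a (c (l 16777616) (l 16777672)) (l 16777432)) (a (l 16777704) (c (l 16777440) (l 16776192))))) (l 16777328)) (a (a (l 16777952) (b (c (l 16777600) (l 16777648)) (l 16777816))) (b (a (b (l 16776672) (a (l 16777448) (l 16777312))) (l 16777256)) (a (c (l 16777536) (l 16777576)) (c (b (l 16777200) (l 16777296)) (b (l 16777256) (l 16777344))))))) (a (b (c (l 16778352) (l 16778320)) (c (l 16779008) (l 16778928))) (b (a (l 16776632) (b (l 16777504) (l 16777800))) (c (l 16778488) (l 16778456)))))) (a (b (a (l 16777168)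 (l 16777064)) (b (a (b (a (c (b (l 16777120) (l 16777232)) (b (l 16777176) (l 16777280))) (l 16777056)) (a (l 16777456) (a (b (l 16777128) (l 16777264)) (b (l 16777016) (l 16777104))))) (a (b (l 16777008) (l 16776960)) (l 16776952))) (a (c (l 16777824) (l 16775216)) (b (a (b (a (l 16777080) (l 16776936)) (l 16776504)) (c (l 16776856) (l 16776896))) (a (l 16777448) (a (l 16777152) (b (l 16776872) (l 16777024)))))))) (b (a (l 16777000) (l 16776968)) (a (b (l 16776896) (a (a (b (l 16776864) (b (l 16776832) (l 16776848))) (l 16776824)) (l 16776808))) (l 16776160))))), by decide +kernel⟩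

def k34_pm_102_s : ∃ t, chk3 f_pm_102_s t 127 126 1 = true :=
  ⟨(a (b (l 3) (a (b (a (b (a (b (a (a (b (l 110226308199) (l 16777200)) (b (l 3) (l 84456504519))) (l 192904417863)) (a (l 16777176) (b (a (l 16776512) (l 131701144551)) (l 16777184)))) (b (l 3) (a (a (b (l 3) (l 105931340919)) (l 3)) (l 3)))) (a (l 16775808) (b (a (a (l 16777176) (a (l 16775864) (b (l 101636373687) (l 16777192)))) (b (l 221895458007) (a (l 16776512) (l 127406177287)))) (a (l 16777128) (l 16775848))))) (b (l 3) (a (b (l 3) (a (a (b (a (l 82845891815) (l 129553660999)) (l 16777184)) (b (l 3) (a (l 16777176) (l 96804535495)))) (l 224042941287))) (l 3)))) (a (b (a (l 16776984) (b (l 16777072) (l 16776992))) (a (b (l 16776864) (l 16776768)) (b (l 16776904) (l 16776808)))) (b (a (b (a (l 16777136) (b (a (l 16776840) (l 123648080919)) (l 16777168))) (l 16777080)) (b (a (a (b (l 3) (a (l 78014053623) (l 124721822807))) (l 199883739895)) (l 3)) (a (a (l 16777152) (a (l 16776504) (b (l 91972697303)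 (l 16777168)))) (b (l 214379265287) (a (c (l 16776512) (l 16776840)) (a (l 105931340967) (l 152639110103))))))) (a (b (l 16776984) (l 16776880)) (b (a (l 16777064) (l 16776800)) (l 16776992)))))) (b (l 3) (a (b (l 3) (a (b (a (a (b (b (l 132238015575) (l 16776512)) (l 16777168)) (b (l 197199385751) (b (l 96804535511) (l 16777184)))) (a (b (l 3) (l 198273138231)) (l 3))) (a (l 16777096) (b (a (c (l 16776840) (l 6073351767)) (a (a (l 90362084743) (l 117742501015)) (l 148344142823))) (l 16777144)))) (b (l 3) (a (a (b (l 3) (b (l 127943048295) (l 16776840))) (l 195051906951)) (l 3))))) (l 3))))) (l 3)), by decide +kernel⟩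

def k35_pm_102_s : ∃ t, chk3 f_pm_102_s t 504 254 1 = true :=
  ⟨(b (a (l 6) (a (l 6) (a (l 6) (a (l 6) (b (b (c (l 16780160) (l 16778176)) (l 6)) (l 6)))))) (l 6)), by decide +kernel⟩

def k36_pm_102_s : ∃ t, chk3 f_pm_102_s t 1010 254 1 = true :=
  ⟨(b (b (b (b (a (c (l 16780168) (l 16778920)) (c (l 16780304) (l 16779808))) (a (c (l 16779792) (a (l 16779744) (l 16779904))) (c (l 16780608) (l 16779432)))) (b (a (c (c (l 16780912) (l 16780592)) (a (l 16780024) (l 16780192))) (c (l 16780288) (c (l 16780536) (l 16780264)))) (a (a (l 6) (c (l 16781152) (l 16780512))) (c (c (l 16781440) (l 16781160)) (c (l 16780880) (l 16780600)))))) (a (l 6) (a (b (b (c (l 16781640) (l 16781032)) (l 6)) (l 6)) (b (c (b (l 16781736) (l 16782168)) (b (l 16781184) (l 16781592))) (b (c (l 16782624) (l 16780728)) (l 6)))))) (l 6)), by decide +kernel⟩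

def k37_pm_102_s : ∃ t, chk3 f_pm_102_s t 1011 254 1 = true :=
  ⟨(a (a (b (b (b (c (l 16780512) (l 16780072)) (c (l 16779896) (l 16780072))) (b (c (b (l 16781816) (l 16782256)) (b (l 16781304) (l 16781736))) (c (c (l 16780496) (l 16780224)) (c (l 16781264) (l 16780992))))) (l 6)) (b (b (b (c (l 16780520) (l 16780128)) (c (l 16781240) (l 16779496))) (b (c (l 16780784) (b (l 16781408) (l 16781848))) (c (b (l 16782816) (l 16783336)) (c (l 16780080) (l 16779832))))) (b (b (c (c (l 16781696) (l 16782752)) (c (l 16782496) (l 16782568))) (l 6)) (l 6)))) (a (b (b (b (c (l 16780504) (l 16780152)) (c (l 16781256) (l 16780864))) (b (c (l 16779512) (l 16780728)) (c (l 16782160) (b (l 16782440) (l 16782968))))) (b (b (c (c (l 16781784) (l 16781560)) (c (l 16781328) (l 16781104))) (b (c (l 16782632) (l 16782176)) (l 6))) (l 6))) (b (b (b (c (l 16780464) (l 16780160)) (c (l 16781248) (l 16780896))) (b (c (l 16779528) (l 16780464)) (c (l 16781880) (b (l 16782528) (l 16783072)))))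 (b (b (c (l 16783392) (c (l 16781448) (l 16781248))) (c (c (l 16783200) (l 16782992)) (c (l 16782784) (l 16782584)))) (b (b (c (l 16782992) (l 16783400)) (l 6)) (l 6)))))), by decide +kernel⟩

def k38_pm_102_s : ∃ t, chk3 f_pm_102_s t 252 255 1 = true :=
  ⟨(l 6), by decide +kernel⟩

def k39_pm_102_s : ∃ t, chk3 f_pm_102_s t 506 508 1 = true :=
  ⟨(b (a (a (b (c (l 16779056) (b (l 16779944) (l 16780296))) (c (b (l 16780968) (l 16781408)) (b (l 16780688) (l 16781112)))) (b (c (l 16777512) (l 16779304)) (c (l 16779696) (b (l 16780576) (l 16781024))))) (a (b (c (l 16777168) (l 16778368)) (c (l 16778088) (b (l 16780336) (l 16780816)))) (b (c (l 16779320) (l 16776632)) (c (l 16777672) (l 16778896))))) (a (b (a (c (c (l 16782208) (l 16779432)) (c (l 16779272) (l 16779120))) (c (c (l 16782072) (l 16776712)) (c (l 16779216) (l 16779104)))) (a (c (a (l 16780592) (l 16780592)) (b (l 16779984) (l 16781872))) (c (a (l 16777944) (l 16777896)) (a (l 16780304) (l 16780288))))) (a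 (b (c (l 16780472) (c (l 16776416) (l 16776336))) (c (l 16781688) (a (l 16777624) (l 16777544)))) (b (c (l 16778800) (a (l 16776168) (l 16775984))) (c (l 16780088) (a (l 16777432) (l 16777288))))))), by decide +kernel⟩

def k40_pm_102_s : ∃ t, chk3 f_pm_102_s t 507 508 1 = true :=
  ⟨(a (b (a (b (c (l 16776080) (l 16776064)) (c (l 16777112) (l 16778384))) (b (c (l 16775304) (l 16775320)) (c (l 16776392) (l 16777704)))) (a (b (c (l 16778296) (l 16779560)) (c (l 16779656) (a (l 16777096) (l 16776872)))) (b (c (l 16777640) (l 16778944)) (c (l 16779072) (l 16780384))))) (b (b (a (b (b (a (a (l 16777008) (l 16776824)) (l 16776752)) (a (l 16777120) (a (l 16776800) (l 16776720)))) (b (a (l 16777376) (a (l 16777000) (l 16776456))) (l 16776088))) (a (a (b (l 16776720) (b (l 16776680) (l 16776368))) (l 16776672)) (l 16776680))) (a (c (l 16775496) (l 16776832)) (b (b (a (c (l 16776888) (l 16776272)) (l 16776608)) (a (l 16777176) (a (l 16776768) (l 16776592)))) (a (l 16777656)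 (a (l 16777216) (b (l 16776768) (l 16777072))))))) (a (b (c (l 16776808) (a (l 16774432) (l 16773976))) (c (l 16778312) (a (l 16775920) (l 16775504)))) (c (b (l 16776760) (l 16778008)) (b (a (l 16773464) (l 16772904)) (a (l 16775040) (l 16774512))))))), by decide +kernel⟩

def k41_pm_102_s : ∃ t, chk3 f_pm_102_s t 253 1018 1 = true :=
  ⟨(a (a (b (a (c (b (l 16781512) (l 16782168)) (b (l 16782488) (c (l 16779296) (l 16779128)))) (c (a (l 16781864) (l 16779224)) (a (l 16781592) (l 16781616)))) (a (c (b (l 16782872) (l 16783792)) (b (c (l 16779992) (l 16779824)) (c (l 16782728) (l 16782896)))) (a (c (l 16781832) (l 16783408)) (c (l 16781304) (l 16782832))))) (a (b (c (a (l 16779024) (l 16778592)) (a (l 16781616) (l 16778736))) (c (a (l 16780800) (l 16780320)) (b (l 16780952) (l 16781768)))) (b (c (l 16781936) (a (l 16778304) (l 16777904))) (c (a (l 16779880) (l 16776848)) (a (l 16779976) (l 16779528)))))) (a (a (b (c (l 16781272) (a (l 16777536) (l 16777216))) (c (a (l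 16776472) (l 16776128)) (a (l 16779112) (l 16778744)))) (b (c (l 16780760) (a (l 16776936) (l 16776704))) (c (a (l 16775824) (l 16775568)) (a (l 16778416) (l 16778128))))) (a (b (c (l 16779112) (a (l 16776512) (l 16776376))) (c (a (l 16775352) (l 16775184)) (a (l 16777896) (l 16777704)))) (b (c (l 16779632) (a (l 16776296) (l 16776272))) (c (a (l 16775064) (l 16775000)) (a (l 16777568) (l 16777496))))))), by decide +kernel⟩

def k42_pm_102_s : ∃ t, chk3 f_pm_102_s t 506 1019 1 = true :=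
  ⟨(a (b (a (c (b (c (l 16781968) (l 16782128)) (c (l 16781488) (l 16782960))) (b (c (l 16782288) (l 16782456)) (c (l 16783120) (l 16783272)))) (c (b (l 16782176) (c (l 16780280) (l 16780392))) (b (c (l 16781032) (l 16781152)) (c (l 16780496) (l 16780608))))) (a (a (l 6) (c (b (l 16782024) (l 16781936)) (b (l 16782632) (c (l 16782952) (l 16780464))))) (a (c (b (l 16780072) (l 16780776)) (b (l 16781616) (c (l 16782240) (l 16782352)))) (c (c (l 16780416) (l 16780496)) (b (l 16780944) (c (l 16781560) (l 16781640))))))) (b (a (c (a (l 16781080) (l 16780560)) (b (c (l 16777264) (l 16777336)) (c (l 16779304) (l 16779360)))) (c (a (l 16780064) (l 16778288)) (b (l 16780192) (c (l 16780848) (l 16778240))))) (a (c (b (c (l 16781184) (l 16778608)) (c (l 16779200) (l 16779240))) (a (b (l 16778992) (l 16779624)) (b (l 16781008) (l 16778984)))) (a (c (c (l 16777416) (l 16777424)) (c (l 16778752) (l 16778760))) (c (c (l 16776904) (l 16776896)) (c (l 16778200) (l 16778192))))))), by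 decide +kernel⟩

def k43_pm_102_s : ∃ t, chk3 f_pm_102_s t 507 1019 1 = true :=
  ⟨(a (b (a (c (a (l 16777864) (l 16777472)) (a (l 16779168) (l 16778736))) (c (a (l 16777120) (l 16776808)) (a (l 16778352) (l 16778008)))) (b (a (c (l 16777888) (a (l 16779376) (l 16778904))) (c (l 16777096) (a (l 16778472) (l 16778080)))) (a (c (a (l 16778640) (l 16778176)) (c (l 16777024) (l 16776976))) (c (a (l 16777744) (l 16777360)) (c (l 16776112) (l 16776024)))))) (b (a (c (a (l 16776536) (l 16776312)) (a (l 16777712) (l 16777472))) (c (a (l 16776136) (l 16776016)) (a (l 16777272) (l 16777136)))) (b (a (c (l 16776464) (a (l 16777736) (l 16777440))) (c (l 16776024) (a (l 16777192) (l 16777008)))) (a (c (a (l 16777008) (l 16776704)) (c (l 16775368) (l 16775248))) (a (c (l 16776448) (l 16776176)) (b (c (l 16776504) (l 16776224)) (a (l 16775872) (a (c (l 16775968) (l 16775656)) (c (l 16776000) (l 16775688)))))))))), by decide +kernel⟩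

def k44_pm_102_s : ∃ t, chk3 f_pm_102_s t 1012 1020 1 = true :=
  ⟨(a (l 6) (a (a (l 6) (b (b (c (l 16781256) (l 16780776)) (l 6)) (l 6))) (b (b (c (c (l 16780720) (l 16780792)) (c (l 16780856) (l 16779616))) (b (c (l 16780208) (c (l 16780288) (l 16780352))) (a (l 6) (b (c (l 16779744) (l 16779840)) (a (l 6) (b (c (l 16779512) (l 16779592)) (a (l 6) (b (c (l 16778088) (l 16779144)) (a (l 6) (c (l 16779200) (b (l 16779256) (l 16779448)))))))))))) (b (c (c (l 16778232) (l 16778256)) (c (l 16779600) (l 16779632))) (l 6))))), by decide +kernel⟩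

def k45_pm_102_s : ∃ t, chk3 f_pm_102_s t 1013 2040 1 = true :=
  ⟨(a (c (a (b (l 16779456) (a (a (a (b (l 16779824) (b (l 16779536) (b (l 16779384) (c (l 16778632) (l 16778992))))) (l 16779544)) (l 16779424)) (l 16779176))) (b (l 16778176) (c (l 16778688) (l 16778688)))) (a (b (c (l 16780168) (l 16780208)) (a (a (a (b (l 16779912) (b (l 16779608) (b (l 16779448) (b (l 16779368) (a (b (l 16779360) (l 16779032)) (l 16778976)))))) (l 16779616)) (l 16778824)) (c (l 16779200) (l 16779224)))) (b (c (l 16779512) (l 16779528)) (c (l 16778688) (l 16777376))))) (a (c (b (l 16778896) (c (l 16778072) (l 16778048))) (b (c (l 16778880) (l 16778872)) (c (l 16778024) (l 16776688)))) (c (b (l 16778336) (l 16776152)) (b (l 16777616) (c (l 16777392) (l 16777336)))))), by decide +kernel⟩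

def k46_pm_102_s : ∃ t, chk3 f_pm_102_s t 2026 16328 1 = true :=
  ⟨(a (b (a (b (a (a (c (l 16779320) (l 16779376)) (b (c (l 16778496) (a (l 16779064) (l 16779168))) (c (l 16777856) (l 16778888)))) (c (l 16778672) (c (l 16777720) (l 16777744)))) (a (c (l 16779328) (l 16779384)) (a (c (c (l 16777736) (l 16777752)) (c (l 16777776) (l 16778456))) (c (c (l 16778256) (l 16778272)) (c (l 16778616) (c (l 16778632) (l 16778640))))))) (c (l 16778712) (l 16778736))) (a (c (l 16779288) (l 16779336)) (a (b (a (b (c (l 16778464) (a (l 16778520) (l 16778128))) (c (l 16778816) (l 16778184))) (c (l 16778360) (c (l 16777392) (l 16778056)))) (c (l 16778792) (c (l 16778808) (l 16778824)))) (b (c (l 16778544) (l 16778560)) (a (b (c (l 16777248) (l 16778240)) (c (l 16778232) (a (l 16778608) (l 16778360)))) (c (l 16778456) (l 16777152))))))) (c (l 16778152) (l 16778136))), by decide +kernel⟩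

def k47_pm_102_s : ∃ t, chk3 f_pm_102_s t 2026 16329 1 = true :=
  ⟨(a (a (c (l 16779584) (l 16779616)) (b (b (a (c (l 16778896) (l 16778912)) (a (c (l 16778624) (l 16778632)) (c (b (l 16778104) (l 16778464)) (c (l 16778288) (c (l 16778128) (l 16778288)))))) (c (l 16778808) (l 16778816))) (c (l 16778952) (l 16778960)))) (a (a (b (b (c (c (l 16776976) (l 16777624)) (a (c (l 16777672) (l 16777664)) (l 16778216))) (a (c (l 16777040) (l 16778024)) (b (c (l 16777544) (a (l 16777880) (l 16778152))) (c (l 16777544) (c (l 16776880) (l 16776872)))))) (c (l 16778408) (l 16778400))) (b (c (l 16776768) (c (l 16778064) (l 16778056))) (b (a (c (c (l 16776792) (l 16777432)) (c (l 16777752) (c (l 16777416) (l 16777736)))) (c (c (l 16776664) (l 16777304)) (c (l 16777288) (c (l 16777280) (l 16777272))))) (c (l 16778096) (l 16778064))))) (a (a (b (c (l 16777952) (l 16777920)) (b (c (l 16777864) (l 16777832)) (b (c (l 16777184) (c (l 16776504) (l 16776480))) (c (l 16776536) (c (l 16777824)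 (l 16776488)))))) (c (l 16777160) (c (l 16776480) (l 16776456)))) (c (l 16777688) (l 16777640))))), by decide +kernel⟩

def k48_pm_102_s : ∃ t, chk3 f_pm_102_s t 2027 8164 1 = true :=
  ⟨(a (c (l 16777392) (c (l 16777336) (l 16777296))) (c (l 16776768) (c (l 16776672) (l 16776608)))), by decide +kernel⟩

def k49_pm_102_s : ∃ t, chk3 f_pm_102_s t 2026 8165 1 = true :=
  ⟨(a (c (c (l 16779800) (l 16777176)) (c (l 16777176) (l 16777176))) (a (c (l 16778704) (c (l 16778680) (l 16778664))) (b (b (a (c (c (l 16777232) (l 16777864)) (c (l 16777880) (c (l 16777824) (l 16777816)))) (b (a (c (c (l 16776312) (l 16776936)) (c (l 16777240) (a (l 16777240) (l 16776200)))) (c (l 16777504) (l 16777448))) (b (a (c (l 16777632) (l 16777576)) (c (l 16777152) (c (l 16776120) (l 16776744)))) (c (l 16776272) (l 16777360))))) (c (l 16777888) (l 16777832))) (c (l 16778176) (l 16778104))))), by decide +kernel⟩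

def k50_pm_102_s : ∃ t, chk3 f_pm_102_s t 2027 8165 1 = true :=
  ⟨(b (a (a (b (c (c (l 16775992) (l 16776608)) (c (l 16777224) (a (l 16776616) (l 16777080)))) (a (a (c (l 16777272) (c (l 16776720) (l 16776688))) (b (b (c (l 16777248) (l 16776840)) (c (l 16776912) (c (l 16775872) (l 16776488)))) (c (l 16777304) (l 16777224)))) (b (c (l 16777104) (l 16776360)) (a (b (c (l 16776792) (a (l 16776736) (l 16776344))) (c (l 16777144) (l 16777056))) (c (l 16776688) (c (l 16776288) (l 16776240))))))) (c (l 16776888) (l 16776784))) (c (l 16776408) (l 16776264))) (a (a (c (c (l 16777472) (l 16777424)) (c (l 16777376) (l 16776680))) (a (b (b (a (b (c (l 16775576) (c (l 16776808) (l 16775448))) (c (l 16776232) (c (l 16775496) (l 16776104)))) (c (l 16776784) (l 16776016))) (a (c (l 16776952) (l 16776848)) (c (b (l 16776432) (l 16776792)) (c (l 16776368) (a (l 16776680) (l 16776272)))))) (c (l 16777008) (l 16776888))) (c (b (c (l 16776016) (l 16776288)) (b (a (l 16776688) (c (l 16775904)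 (l 16776176))) (l 16776688))) (a (b (c (l 16776432) (c (l 16776224) (c (l 16776200) (l 16776192)))) (l 16775952)) (b (l 16776464) (b (a (c (l 16775808) (l 16776072)) (c (l 16775744) (l 16776008))) (l 16776472))))))) (a (b (c (l 16776384) (l 16776248)) (b (c (l 16776136) (c (l 16774888) (l 16775472))) (a (a (c (c (l 16775144) (l 16775736)) (c (l 16775664) (c (l 16775616) (l 16775584)))) (c (c (l 16775016) (l 16775600)) (c (l 16775856) (c (l 16775808) (l 16775936))))) (c (l 16776152) (l 16776000))))) (c (l 16776008) (l 16775840))))), by decide +kernel⟩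

def k51_pm_102_s : ∃ t, chk3 f_pm_102_s t 1013 4083 1 = true :=
  ⟨(c (a (c (a (l 16778328) (l 16776888)) (a (l 16778312) (l 16776840))) (a (c (l 16775448) (l 16775376)) (a (b (a (l 16776752) (b (b (b (a (c (l 16775552) (l 16775808)) (l 16775408)) (c (l 16774888) (l 16774808))) (l 16776296)) (l 16776584))) (l 16777320)) (b (b (a (a (b (b (l 16775968) (b (l 16775928) (l 16775592))) (l 16776032)) (b (l 16775864) (b (c (l 16775200) (l 16775440)) (l 16775896)))) (b (l 16775744) (a (b (l 16775368) (l 16775056)) (b (l 16775608) (c (l 16774968) (l 16775200)))))) (l 16776040)) (l 16776600))))) (a (c (a (l 16778288) (l 16776800)) (a (l 16778272) (l 16776752))) (a (c (l 16776624) (l 16776552)) (a (a (c (l 16774384) (l 16775608)) (b (b (b (a (b (b (c (l 16774736) (l 16775320)) (l 16775696)) (l 16776096)) (b (c (l 16774632) (l 16775208)) (c (l 16775296) (l 16775216)))) (l 16776136)) (l 16776408)) (l 16776952))) (b (b (a (a (b (b (l 16775808) (b (l 16775112) (c (l 16775144) (l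 16775056)))) (l 16775856)) (b (l 16775688) (b (b (c (l 16775016) (l 16774928)) (l 16774992)) (l 16775720)))) (b (l 16775560) (b (c (l 16774864) (c (l 16774792) (l 16774752))) (a (c (l 16774264) (l 16774824)) (b (c (l 16775424) (l 16774016)) (c (l 16774112) (l 16774672))))))) (l 16775192)) (l 16775736)))))), by decide +kernel⟩

def k52_pm_102_s : ∃ t, chk3 f_pm_102_s t 506 1021 1 = true :=
  ⟨(a (l 6) (b (a (a (l 6) (b (c (l 16778368) (a (l 16778608) (l 16777856))) (l 6))) (c (a (c (l 16777704) (l 16777600)) (c (l 16776256) (l 16776128))) (c (b (a (l 16776768) (l 16775280)) (l 16777456)) (b (a (l 16776672) (l 16775160)) (l 16777328))))) (a (l 6) (b (c (l 16779104) (c (l 16776256) (l 16778720))) (c (l 16777920) (c (l 16777656) (l 16777480))))))), by decide +kernel⟩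

def k53_pm_102_s : ∃ t, chk3 f_pm_102_s t 1014 2040 1 = true :=
  ⟨(a (c (b (c (l 16776272) (l 16776208)) (a (l 16775584) (l 16775056))) (b (a (l 16776384) (l 16775840)) (a (c (l 16776792) (l 16776712)) (c (l 16776224) (l 16776128))))) (c (b (c (l 16775360) (l 16775256)) (a (l 16774552) (l 16775400))) (b (a (l 16775336) (l 16774880)) (a (c (l 16775688) (l 16775576)) (c (l 16775200) (l 16775064)))))), by decide +kernel⟩

def k54_pm_102_s : ∃ t, chk3 f_pm_102_s t 1014 4082 1 = true :=
  ⟨(a (c (a (c (l 16775976) (l 16775880)) (c (l 16775416) (l 16775304))) (a (c (l 16774480) (b (l 16775960) (l 16775432))) (c (l 16773872) (l 16774080)))) (c (a (c (l 16774888) (l 16774752)) (c (l 16774400) (l 16774240))) (a (c (l 16773304) (l 16773160)) (c (l 16774080) (l 16772608))))), by decide +kernel⟩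

def k55_pm_102_s : ∃ t, chk3 f_pm_102_s t 4056 4083 1 = true :=
  ⟨(a (b (b (c (l 16775448) (c (l 16775296) (l 16775192))) (a (b (b (a (b (c (l 16775112) (c (l 16774640) (l 16774864))) (c (l 16775472) (l 16775272))) (c (c (l 16774080) (l 16773976)) (c (l 16774528) (c (l 16774448) (l 16774720))))) (c (l 16774136) (c (l 16775296) (l 16773880)))) (c (l 16775592) (l 16775384))) (b (b (c (l 16775200) (l 16774984)) (b (c (l 16774840) (c (l 16774344) (l 16774240))) (a (c (l 16774552) (c (l 16773736) (l 16774280))) (c (l 16773776) (l 16774536))))) (c (c (l 16774960) (c (l 16774544) (l 16774816))) (b (a (l 16775056) (c (l 16774608) (b (l 16774472) (l 16774840)))) (l 16775056)))))) (c (l 16775880) (c (l 16775704) (l 16775584)))) (c (b (b (l 16775136) (b (l 16774936) (a (b (c (l 16774336) (l 16774712)) (a (l 16775008) (c (l 16774256) (l 16774464)))) (l 16774408)))) (a (l 16775336) (b (a (c (l 16773632) (l 16774160)) (b (b (c (l 16774016) (l 16773896)) (l 16774656)) (l 16774792)))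 (l 16775160)))) (a (b (b (l 16774992) (b (l 16774784) (b (a (b (l 16774744) (c (l 16774136) (l 16774344))) (l 16774640)) (b (a (l 16773440) (c (l 16773352) (l 16773888))) (c (l 16773448) (l 16773984)))))) (l 16774432)) (b (c (l 16774760) (b (l 16774768) (l 16773840))) (b (b (b (b (a (c (l 16773224) (l 16773760)) (l 16773696)) (a (l 16774512) (c (l 16773752) (l 16773952)))) (l 16774488)) (l 16774624)) (l 16774888)))))), by decide +kernel⟩

def k56_pm_102_s : ∃ t, chk3 f_pm_102_s t 4057 4083 1 = true :=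
  ⟨(c (b (l 16773904) (b (a (b (a (b (l 16774472) (a (c (l 16773904) (l 16774096)) (l 16774048))) (l 16774288)) (a (c (l 16773280) (l 16773144)) (b (a (b (l 16772936) (l 16773912)) (l 16774152)) (a (l 16774304) (b (l 16773792) (l 16774144)))))) (c (l 16773424) (a (l 16773680) (l 16773840)))) (a (l 16774624) (b (b (a (a (l 16772720) (b (l 16773224) (l 16773224))) (l 16772432)) (a (l 16774032) (a (c (l 16772544) (l 16773040)) (c (l 16772416) (l 16772912))))) (l 16773992))))) (b (c (l 16774360) (l 16774224)) (b (a (a (b (a (b (l 16774248) (b (c (l 16773624) (l 16773824)) (l 16773576))) (c (l 16773552) (l 16773912))) (c (l 16773664) (l 16774176))) (b (l 16774008) (b (b (c (l 16772688) (l 16772544)) (a (c (l 16773376) (l 16773560)) (l 16773184))) (b (a (l 16773992) (c (l 16773248) (c (l 16773136) (l 16773064)))) (l 16773288))))) (b (l 16773768) (b (l 16773656) (a (a (a (c (l 16773160) (l 16773336)) (l 16773032)) (l 16773624)) (l 16773504))))) (a (l 16773680) (b (a (a (c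 (l 16772544) (l 16772392)) (b (b (c (l 16772344) (l 16772848)) (c (l 16772344) (l 16772840))) (l 16773640))) (b (c (l 16773512) (l 16772040)) (b (a (c (l 16772864) (c (l 16772752) (l 16772672))) (l 16773328)) (a (l 16773472) (c (l 16772736) (c (l 16772616) (l 16772536))))))) (c (l 16773752) (l 16773600))))))), by decide +kernel⟩

def k57_pm_102_s : ∃ t, chk3 f_pm_102_s t 2029 4083 1 = true :=
  ⟨(a (a (c (b (l 16774128) (b (l 16773704) (b (l 16773488) (a (b (a (b (l 16772864) (l 16772872)) (l 16772760)) (c (l 16772928) (l 16773088))) (a (b (l 16773336) (c (l 16772720) (l 16772544))) (l 16773224)))))) (b (l 16773824) (b (l 16773376) (b (l 16773152) (a (a (b (b (c (l 16771960) (l 16772448)) (c (l 16771968) (l 16772456))) (l 16773256)) (b (c (l 16771856) (l 16772344)) (a (l 16773120) (b (b (l 16772360) (l 16772360)) (l 16773048))))) (b (l 16772960) (a (b (l 16772288) (c (l 16772360) (c (l 16772232) (l 16772472)))) (l 16772840)))))))) (c (l 16772584) (c (l 16773312) (l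 16771832)))) (c (c (l 16773256) (l 16771760)) (c (c (l 16771616) (l 16771520)) (a (l 16771528) (l 16771240))))), by decide +kernel⟩

def k58_pm_102_s : ∃ t, chk3 f_pm_102_s t 1015 2040 1 = true :=
  ⟨(a (a (c (b (l 16776032) (l 16774984)) (b (l 16774456) (c (l 16774752) (l 16774600)))) (c (b (l 16775688) (l 16774600)) (b (l 16774088) (c (l 16774344) (l 16774176))))) (a (b (c (b (l 16775664) (l 16775120)) (c (l 16773848) (l 16773688))) (a (a (c (l 16774384) (l 16774024)) (b (l 16773760) (c (l 16773392) (b (l 16773792) (l 16773528))))) (a (c (b (l 16774528) (l 16774088)) (b (l 16773520) (l 16773048))) (b (c (l 16774544) (a (l 16773504) (l 16774200))) (l 16774016))))) (b (a (a (b (l 16775352) (c (l 16775016) (c (l 16774760) (l 16774584)))) (c (b (l 16775488) (l 16775088)) (b (c (l 16775248) (l 16775080)) (l 16774752)))) (a (c (l 16775376) (l 16774392)) (l 16775336))) (c (l 16774672) (l 16774312))))), by decide +kernel⟩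

def k59_pm_102_s : ∃ t, chk3 f_pm_102_s t 1015 2041 1 = true :=
  ⟨(a (a (a (c (b (l 16773968) (l 16771464)) (b (l 16772632) (c (l 16772472) (l 16770960)))) (c (b (l 16773744) (c (l 16772640) (l 16771120))) (b (l 16772064) (b (l 16772432) (c (l 16771888) (l 16771664)))))) (b (c (a (l 16773536) (b (l 16773640) (a (l 16772432) (a (l 16773064) (l 16773096))))) (a (l 16771840) (b (l 16772592) (a (c (l 16772784) (b (l 16772720) (l 16771104))) (a (b (l 16771448) (l 16772528)) (l 16772680)))))) (c (a (a (b (l 16772672) (b (l 16771560) (l 16771320))) (b (b (l 16772720) (l 16771800)) (l 16770856))) (b (c (l 16771480) (l 16772576)) (l 16772352))) (a (a (b (l 16772248) (c (b (l 16770568) (l 16770976)) (b (c (l 16770400) (l 16770944)) (c (l 16770800) (l 16770688))))) (b (b (l 16772296) (a (l 16771344) (l 16771352))) (c (l 16769208) (l 16770288)))) (a (a (b (b (l 16771600) (l 16772064)) (l 16771816)) (l 16772048)) (l 16772144)))))) (a (b (c (a (a (b (a (l 16773552) (l 16773560))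 (l 16773184)) (l 16773472)) (l 16773656)) (a (a (b (b (l 16773272) (l 16773040)) (l 16772776)) (l 16772416)) (l 16773264))) (c (l 16772896) (l 16771816))) (c (c (l 16771184) (l 16772304)) (b (l 16773656) (l 16771688))))), by decide +kernel⟩

def k60_pm_102_s : ∃ t, chk3 f_pm_102_s t 1014 1021 2 = true :=
  ⟨(a (b (c (b (a (l 16774072) (l 16772640)) (l 16774824)) (b (a (l 16773928) (l 16772472)) (l 16774648))) (c (l 16775672) (b (l 16773448) (l 16774856)))) (b (b (b (b (a (a (b (b (b (a (l 16773568) (a (l 16773304) (l 16772824))) (l 16773432)) (l 16773504)) (l 16773640)) (a (b (b (c (l 16771800) (l 16771616)) (a (c (l 16771840) (l 16771656)) (c (l 16772360) (l 16772504)))) (l 16773104)) (b (l 16772824) (b (b (c (l 16772192) (l 16772328)) (a (l 16772808) (l 16772344))) (l 16772464))))) (b (l 16772472) (b (l 16772360) (a (a (a (b (l 16771896) (l 16772224)) (l 16772456)) (l 16772352)) (l 16772136))))) (a (c (l 16773648) (l 16773464)) (a (b (b (c (a (l 16772296) (l 16771736))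 (a (a (l 16772512) (l 16772016)) (c (l 16771576) (l 16771472)))) (a (l 16772616) (a (l 16771032) (b (l 16771536) (l 16771536))))) (l 16772568)) (b (c (l 16770824) (l 16770608)) (b (a (a (c (l 16770880) (l 16771320)) (c (l 16771408) (l 16771520))) (l 16771832)) (a (l 16772080) (a (b (a (l 16771192) (l 16771792)) (l 16770520)) (l 16771072)))))))) (a (c (l 16774192) (l 16774000)) (a (l 16773016) (a (l 16772480) (b (c (l 16771400) (l 16771664)) (l 16772304)))))) (a (c (l 16775280) (l 16772448)) (a (l 16772784) (b (c (l 16773136) (l 16772896)) (a (c (l 16774040) (l 16772488)) (b (a (l 16773472) (l 16773352)) (l 16773888))))))) (a (b (c (l 16776720) (l 16773864)) (a (b (l 16778016) (c (l 16778864) (l 16777304))) (a (b (l 16777480) (l 16777024)) (a (b (l 16775944) (l 16778240)) (l 16776360))))) (b (a (a (b (l 16775336) (a (l 16774848) (l 16775056))) (b (b (l 16774800) (l 16774544)) (l 16775928))) (b (c (l 16774208) (b (l 16774352) (l 16774864))) (l 16775768))) (l 16774808))))),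 by decide +kernel⟩

def k61_pm_102_s : ∃ t, chk3 f_pm_102_s t 2028 4084 3 = true :=
  ⟨(c (a (l 16773792) (l 16773616)) (a (l 16774960) (c (l 16772184) (l 16772104)))), by decide +kernel⟩

def k62_pm_102_s : ∃ t, chk3 f_pm_102_s t 2029 4084 3 = true :=
  ⟨(b (a (b (a (b (b (b (a (l 16773232) (a (l 16772952) (c (l 16772232) (c (l 16772096) (l 16772008))))) (c (l 16773176) (l 16773000))) (l 16773160)) (l 16772632)) (a (b (b (c (l 16772088) (c (l 16771952) (l 16772192))) (b (a (c (l 16772112) (l 16772256)) (c (l 16772640) (l 16771144))) (a (l 16772712) (c (l 16771976) (c (l 16771840) (l 16772072)))))) (l 16772728)) (b (l 16771792) (b (b (a (c (l 16771848) (c (l 16771712) (l 16771944))) (l 16772312)) (a (l 16771776) (c (l 16771728) (c (l 16771584) (l 16771480))))) (c (l 16771840) (l 16771976)))))) (c (l 16773272) (l 16771776))) (b (a (a (a (b (l 16772336) (b (l 16772208) (b (c (l 16770952) (l 16771408)) (c (l 16771600) (c (l 16771448) (l 16771352)))))) (c (l 16772280) (l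 16770768))) (l 16772064)) (l 16771840)) (a (b (a (b (b (a (l 16772192) (c (l 16771472) (a (l 16770640) (l 16771232)))) (l 16772144)) (l 16772208)) (a (b (b (l 16771920) (c (l 16771344) (c (l 16771192) (l 16771416)))) (c (l 16772032) (l 16770512))) (b (l 16771816) (b (c (l 16771216) (l 16771336)) (c (l 16771224) (l 16771336)))))) (c (l 16772256) (l 16772048))) (a (b (c (l 16770464) (l 16770904)) (b (b (a (a (l 16771016) (c (l 16770392) (l 16770832))) (l 16770872)) (a (l 16771672) (c (l 16771288) (a (l 16770768) (l 16770704))))) (l 16770984))) (a (b (l 16771552) (b (l 16771424) (b (a (c (l 16770200) (l 16770640)) (l 16771016)) (c (l 16770184) (l 16770616))))) (c (l 16770856) (c (l 16770688) (l 16771072)))))))) (a (c (l 16773808) (l 16772296)) (b (a (c (l 16772520) (l 16772312)) (a (l 16771864) (a (l 16771584) (a (l 16770136) (b (b (c (l 16770680) (b (l 16770440) (l 16771128))) (l 16771304)) (l 16771440)))))) (c (l 16772504) (l 16772280))))), by decide +kernel⟩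

def k63_pm_102_s : ∃ t, chk3 f_pm_102_s t 1014 4085 3 = true :=
  ⟨(a (c (a (l 16772592) (l 16773720)) (a (l 16775048) (l 16773536))) (a (c (l 16772240) (l 16772024)) (a (c (l 16773744) (l 16770896)) (b (c (l 16772664) (l 16771768)) (b (a (l 16773240) (a (b (l 16772880) (l 16773064)) (c (l 16772976) (l 16772728)))) (a (a (l 16773680) (a (l 16773544) (l 16772824))) (l 16772736))))))), by decide +kernel⟩

def k64_pm_102_s : ∃ t, chk3 f_pm_102_s t 1014 2043 3 = true :=
  ⟨(a (c (b (l 16775872) (l 16774632)) (b (l 16775664) (l 16774408))) (a (b (c (l 16773624) (l 16773384)) (a (a (l 16778056) (b (l 16777336) (b (l 16777848) (l 16776920)))) (b (a (l 16776312) (a (a (l 16776112) (l 16776048)) (l 16775328))) (c (l 16776576) (l 16776968))))) (b (a (a (b (l 16774848) (b (l 16774720) (a (l 16775832) (l 16775752)))) (b (b (l 16774304) (a (l 16774744) (l 16774624))) (l 16774104))) (a (a (b (b (a (l 16774088) (l 16774032)) (l 16774552)) (l 16775336)) (l 16772144)) (l 16772072)))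 (l 16774296)))), by decide +kernel⟩

def k65_pm_102_s : ∃ t, chk3 f_pm_102_s t 8120 4084 1 = true :=
  ⟨(a (c (b (l 16771896) (b (b (b (a (a (b (l 16771608) (l 16771608)) (l 16770904)) (l 16771496)) (a (l 16771632) (a (l 16770840) (b (l 16770112) (l 16771432))))) (l 16771672)) (l 16771944))) (b (l 16770792) (b (b (b (b (c (l 16771208) (l 16770320)) (a (c (l 16770904) (a (l 16769720) (l 16770312))) (l 16770352))) (b (a (l 16771144) (c (l 16770776) (a (l 16770240) (l 16770184)))) (c (l 16771216) (l 16769672)))) (l 16771208)) (l 16771464)))) (b (c (l 16771760) (l 16770656)) (b (c (b (c (l 16770168) (l 16770592)) (b (a (l 16770704) (b (l 16770568) (c (l 16770024) (l 16769784)))) (l 16770712))) (a (b (b (l 16770960) (b (l 16770896) (c (l 16770328) (a (l 16770112) (l 16770712))))) (c (l 16770392) (c (l 16770208) (l 16770416)))) (b (l 16770840) (b (b (c (l 16769552) (l 16769960)) (a (l 16770112) (c (l 16769504) (l 16770240)))) (c (l 16769600) (l 16770016)))))) (a (b (c (l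 16771584) (l 16771104)) (c (l 16771120) (c (l 16770760) (c (l 16770576) (l 16770448))))) (c (c (l 16770384) (l 16770792)) (b (c (l 16770752) (a (l 16770192) (l 16769488))) (l 16769888))))))), by decide +kernel⟩

def k66_pm_102_s : ∃ t, chk3 f_pm_102_s t 8121 4084 1 = true :=
  ⟨(b (a (a (c (l 16771664) (l 16771200)) (b (c (l 16771760) (l 16771304)) (c (l 16770808) (b (l 16770392) (a (l 16770576) (l 16770256)))))) (b (a (c (l 16770400) (c (l 16770056) (l 16770472))) (c (l 16770400) (c (l 16770048) (l 16770472)))) (c (l 16770200) (c (l 16769840) (l 16769608))))) (b (c (a (a (b (l 16769960) (b (c (l 16769984) (l 16770400)) (a (l 16770536) (c (l 16769992) (l 16770408))))) (b (l 16771288) (c (l 16770688) (l 16770776)))) (l 16771344)) (a (b (a (c (l 16769592) (l 16770008)) (l 16770808)) (a (b (a (a (c (l 16769480) (l 16769896)) (l 16770672)) (l 16770696)) (b (a (c (l 16769480) (l 16769888)) (c (l 16769488) (l 16769896))) (l 16770720))) (b (l 16770744) (b (l 16770712) (c (l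 16770176) (a (l 16769920) (l 16770592))))))) (l 16770864))) (a (c (l 16771480) (c (l 16769808) (l 16770216))) (c (b (b (a (b (l 16770584) (l 16770600)) (l 16769976)) (c (l 16770800) (c (l 16770616) (l 16770656)))) (l 16771528)) (b (a (b (b (c (l 16770216) (l 16770304)) (c (l 16770240) (c (l 16770056) (l 16769936)))) (l 16770864)) (b (c (l 16770920) (l 16770024)) (b (a (l 16770472) (c (l 16769608) (l 16770024))) (l 16770856)))) (l 16771040)))))), by decide +kernel⟩

def k67_pm_102_s : ∃ t, chk3 f_pm_102_s t 4061 4084 1 = true :=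
  ⟨(a (c (b (l 16771776) (b (l 16771536) (b (b (l 16771440) (c (l 16771208) (a (c (l 16770640) (l 16770680)) (l 16771344)))) (a (b (a (l 16771392) (b (l 16770696) (l 16770072))) (l 16771504)) (b (l 16770776) (a (c (l 16770248) (l 16770664)) (b (l 16771432) (l 16771112)))))))) (b (l 16771312) (b (l 16771072) (a (a (b (b (l 16770864) (b (l 16770176) (c (l 16770304) (a (l 16770056) (l 16770064))))) (l 16770320)) (b (l 16770912) (b (b (c (l 16770344) (c (l 16770160) (l 16770200))) (c (l 16769712) (l 16770128))) (l 16771000)))) (b (l 16771016) (b (c (l 16770424) (l 16770512)) (b (a (c (l 16770392) (c (l 16770216) (l 16770264))) (l 16770632)) (a (l 16770992) (c (l 16770432) (a (l 16769528) (l 16770184))))))))))) (c (l 16770568) (c (l 16771536) (l 16771304)))), by decide +kernel⟩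

def k68_pm_102_s : ∃ t, chk3 f_pm_102_s t 2031 4084 1 = true :=
  ⟨(a (c (l 16770944) (c (l 16771928) (l 16770392))) (c (l 16772760) (c (l 16772448) (l 16772240)))), by decide +kernel⟩

def k69_pm_102_s : ∃ t, chk3 f_pm_102_s t 1015 4085 2 = true :=
  ⟨(b (a (a (a (c (a (b (l 16772440) (l 16772880)) (l 16772496)) (a (b (c (l 16771600) (l 16771480)) (c (l 16772696) (l 16772568))) (l 16772256))) (l 16772232)) (b (a (l 16771784) (b (a (b (a (c (l 16770960) (l 16771048)) (l 16770864)) (l 16771256)) (b (l 16771600) (a (b (l 16770240) (l 16770904)) (l 16771600)))) (b (a (l 16771712) (a (l 16771648) (b (l 16770936) (l 16771632)))) (l 16771800)))) (l 16772216))) (a (a (a (b (b (l 16771712) (b (c (l 16770472) (l 16770896)) (a (l 16770376) (c (l 16771136) (l 16771232))))) (l 16771992)) (b (l 16770496) (b (b (a (c (l 16770544) (l 16770968)) (c (l 16770552) (l 16770984))) (l 16771832)) (l 16772032)))) (b (l 16771992) (a (b (a (b (l 16771792) (c (l 16771256) (l 16771352))) (l 16770536))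 (c (l 16770744) (l 16771168))) (b (l 16771936) (b (c (l 16771352) (l 16771456)) (a (l 16771936) (a (l 16771256) (l 16771584)))))))) (c (l 16772408) (a (l 16771408) (l 16772304))))) (a (c (l 16773312) (l 16773072)) (a (l 16771320) (a (b (b (a (a (l 16771392) (b (c (l 16770784) (l 16771216)) (l 16772064))) (b (l 16772048) (a (c (l 16770832) (l 16771272)) (l 16771400)))) (l 16771576)) (l 16772624)) (a (b (b (l 16772160) (b (a (a (l 16771760) (l 16771440)) (l 16772136)) (c (l 16771624) (l 16771736)))) (l 16772488)) (b (c (l 16771704) (l 16771816)) (a (l 16772416) (b (b (c (l 16771016) (l 16771448)) (l 16772312)) (l 16772504))))))))), by decide +kernel⟩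

def k70_pm_102_s : ∃ t, chk3 f_pm_102_s t 2030 4085 3 = true :=
  ⟨(a (b (a (a (a (b (l 16771904) (b (a (l 16772208) (l 16771480)) (l 16771744))) (b (b (c (l 16771760) (l 16770200)) (c (l 16770656) (l 16771064))) (l 16772216))) (c (l 16770696) (c (l 16771824) (l 16771040)))) (l 16770848)) (l 16771904)) (a (c (l 16769592) (l 16770664)) (b (b (a (b (b (b (a (a (b (l 16770648) (l 16771000)) (l 16770672)) (l 16771048)) (a (l 16770704) (c (l 16769848) (l 16770264)))) (c (l 16770576) (c (l 16770400) (l 16770608)))) (l 16771312)) (b (b (l 16771136) (b (c (l 16769920) (l 16770336)) (a (c (l 16770552) (c (l 16770376) (l 16770424))) (l 16770464)))) (b (b (a (l 16771144) (c (l 16770584) (c (l 16770408) (l 16770456)))) (l 16769880)) (l 16771288)))) (l 16771656)) (l 16771128)))), by decide +kernel⟩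

def k71_pm_102_s : ∃ t, chk3 f_pm_102_s t 2031 4085 3 = true :=
  ⟨(a (a (b (a (b (b (l 16771248) (a (b (b (l 16771168) (c (l 16770624) (l 16770720))) (c (l 16771336) (l 16770448))) (b (l 16771224) (b (c (l 16770008) (l 16770432)) (c (l 16770024) (l 16770448)))))) (l 16771528)) (b (c (l 16771464) (l 16769920)) (b (b (b (a (c (l 16770712) (c (l 16770536) (l 16770424))) (l 16771288)) (a (l 16771304) (c (l 16770744) (l 16770840)))) (l 16770720)) (l 16771568)))) (l 16770952)) (b (b (l 16771544) (a (a (b (b (l 16771336) (b (c (l 16770128) (l 16770552)) (c (l 16770152) (l 16770576)))) (l 16771504)) (b (c (l 16770192) (l 16770624)) (b (b (c (l 16770832) (l 16770936)) (l 16771432)) (l 16771528)))) (b (l 16771488) (a (b (b (l 16770752) (c (l 16770864) (l 16770968))) (l 16771488)) (b (l 16771456) (b (c (l 16770904) (l 16771000)) (l 16771152))))))) (l 16771432))) (b (a (b (l 16771808) (c (l 16771104) (c (l 16770936) (l 16771152)))) (l 16771984)) (b (b (a (a (b (a (c (l 16770992)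 (l 16771088)) (b (l 16771192) (c (l 16770992) (l 16771096)))) (l 16771640)) (b (l 16770296) (b (a (c (l 16771024) (l 16771128)) (l 16771608)) (a (l 16771608) (c (l 16770408) (l 16770840)))))) (l 16771784)) (a (c (l 16770584) (l 16771016)) (b (b (c (l 16770536) (l 16770976)) (a (a (c (l 16770456) (l 16770896)) (l 16771032)) (l 16771776))) (b (a (a (l 16771712) (c (l 16771144) (l 16771256))) (l 16771760)) (a (l 16771760) (a (c (l 16771176) (l 16771288)) (l 16771768))))))) (a (l 16772176) (a (l 16772048) (a (l 16771656) (b (b (b (c (l 16770560) (l 16771000)) (c (l 16770584) (l 16771016))) (l 16771880)) (l 16772064)))))))), by decide +kernel⟩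

def k72_pm_102_s : ∃ t, chk3 f_pm_102_s t 1015 2043 1 = true :=
  ⟨(c (a (c (b (l 16772248) (l 16774304)) (b (l 16772008) (l 16774064))) (b (c (l 16772792) (c (l 16771312) (l 16771200))) (c (l 16773496) (l 16773272)))) (a (c (b (l 16773080) (l 16773816)) (b (a (l 16771712) (l 16771336)) (l 16773576))) (c (b (a (l 16771208) (l 16770848)) (l 16773048)) (b (a (l 16770976) (l 16771936)) (l 16774128))))), by decide +kernel⟩

def k73_pm_102_s : ∃ t, chk3 f_pm_102_s t 506 511 1 = true :=
  ⟨(l 6), by decide +kernel⟩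

def k74_pm_102_s : ∃ t, chk3 f_pm_102_s t 1014 511 1 = true :=
  ⟨(a (b (b (a (c (c (l 16777920) (l 16777680)) (c (l 16777432) (l 16779808))) (b (c (a (l 16781232) (a (l 16778064) (b (l 16779968) (l 16779456)))) (a (l 16780736) (b (l 16779640) (a (l 16780504) (a (l 16778960) (l 16780168)))))) (c (a (b (l 16780984) (c (l 16780632) (l 16781672))) (b (l 16779192) (l 16782816))) (a (a (b (l 16781928) (a (l 6) (l 16779960))) (b (l 16780264) (l 16782456))) (c (l 16780600) (l 16780168)))))) (b (a (l 6) (c (l 16779208) (l 16778664))) (l 6))) (l 6)) (b (b (b (a (a (a (b (c (l 16778680) (a (l 16777872) (l 16778400))) (l 16779024)) (c (l 16777360) (l 16778144))) (c (l 16779808) (l 16779288))) (c (l 16774232) (l 16776344))) (c (l 16779104) (l 16779240))) (b (c (l 16778472) (l 16780576)) (c (l 16780440) (l 16782544)))) (b (b (c (l 16781920) (l 16782440)) (c (l 16781680) (c (l 16780752) (l 16781016)))) (l 6)))), by decide +kernel⟩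

def k75_pm_102_s : ∃ t, chk3 f_pm_102_s t 1015 511 1 = true :=
  ⟨(a (b (b (b (c (l 16776200) (c (l 16775840) (l 16775600))) (c (l 16778192) (l 16778368))) (b (c (l 16780152) (l 16779672)) (c (l 16779464) (l 16781600)))) (b (b (c (l 16781912) (l 16782392)) (c (l 16781704) (l 16782352))) (a (b (c (l 16780208) (l 16780704)) (b (c (l 16780424) (l 16780264)) (l 6))) (b (c (l 16780232) (l 16780712)) (c (c (l 16778672) (l 16778912)) (c (l 16779152) (l 16779392))))))) (b (b (c (b (l 16776024) (l 16777328)) (c (b (l 16775032) (l 16776984)) (b (l 16774808) (l 16776760)))) (b (c (l 16779248) (l 16779456)) (c (l 16781144) (c (l 16778184) (l 16777952))))) (b (c (c (l 16781008) (l 16781232)) (c (l 16781456) (l 16782344))) (c (b (c (l 16778824) (l 16779056)) (c (a (l 16778712) (l 16778736)) (a (l 16778936) (l 16778960)))) (c (b (l 16779280) (a (l 16779168) (l 16779176))) (b (l 16780816) (a (l 16779400) (l 16779400)))))))), by decide +kernel⟩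

def k76_pm_102_s : ∃ t, chk3 f_pm_102_s t 508 508 1 = true :=
  ⟨(a (b (a (b (l 16776672) (a (b (l 16776592) (a (b (l 16776576) (l 16776776)) (a (b (l 16776552) (l 16776576)) (l 16776536)))) (l 16776568))) (b (l 16776704) (l 16776584))) (a (b (b (b (a (l 16776288) (a (a (l 16776576) (l 16776504)) (l 16776496))) (a (l 16777304) (a (l 16776800) (a (l 16776576) (l 16776488))))) (a (l 16775264) (c (l 16777200) (l 16777232)))) (c (a (l 16773864) (l 16773208)) (a (l 16773920) (l 16775888)))) (b (b (l 16776496) (b (a (a (a (l 16776576) (l 16776480)) (l 16776440)) (l 16776456)) (a (a (l 16776856) (b (l 16776144) (l 16776592))) (l 16776424)))) (b (a (l 16774688) (b (a (a (l 16776608) (a (l 16776488) (l 16776440))) (l 16776400)) (b (a (l 16776824) (a (l 16776520) (l 16776400))) (l 16775536)))) (c (l 16775192) (l 16776552)))))) (a (b (b (l 16776768) (l 16776648)) (b (l 16776520) (a (a (b (c (l 16776392) (l 16776416)) (a (l 16776912) (b (b (l 16776400) (l 16776568)) (l 16776936))))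 (b (l 16776408) (b (c (l 16776376) (l 16776392)) (a (l 16776712) (b (l 16776408) (l 16776608)))))) (a (b (l 16776424) (b (l 16776368) (a (b (c (l 16776328) (l 16776352)) (a (l 16776440) (l 16776368))) (l 16776344)))) (l 16776408))))) (b (b (l 16776872) (l 16776744)) (b (l 16776608) (c (l 16776456) (l 16776472)))))), by decide +kernel⟩

def k77_pm_102_s : ∃ t, chk3 f_pm_102_s t 508 1018 1 = true :=
  ⟨(a (a (b (c (a (l 16775712) (l 16775104)) (a (l 16775800) (l 16775192))) (c (a (l 16774992) (l 16775048)) (a (l 16777480) (l 16777528)))) (b (a (c (l 16774424) (l 16777136)) (b (l 16777128) (a (l 16774448) (a (b (l 16779128) (l 16778360)) (b (l 16776304) (l 16776832)))))) (a (b (c (l 16778192) (l 16779376)) (a (a (l 16774624) (b (l 16780112) (l 16779040))) (b (a (l 16778848) (l 16777616)) (l 16777224)))) (b (a (c (b (l 16777848) (l 16778184)) (b (l 16779264) (l 16778064))) (l 16779024)) (l 16775112))))) (b (a (a (a (b (a (l 16775296) (b (l 16777440) (a (l 16776712) (l 16777904))))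 (b (c (l 16775936) (l 16777312)) (l 16779096))) (b (b (a (a (l 16777280) (l 16775856)) (l 16776336)) (l 16774992)) (l 16778368))) (b (b (b (a (l 16776528) (l 16776328)) (a (l 16776760) (a (l 16776432) (l 16776328)))) (c (l 16776896) (l 16776928))) (l 16772416))) (b (b (l 16776368) (a (b (l 16776328) (a (a (l 16776456) (l 16776320)) (l 16776312))) (l 16776360))) (a (b (a (l 16776712) (b (l 16776320) (a (l 16776488) (l 16776328)))) (l 16776976)) (a (b (l 16776304) (a (b (l 16776336) (l 16776520)) (b (l 16776280) (l 16776344)))) (l 16776312))))) (a (b (l 16777176) (l 16777528)) (a (c (l 16772960) (l 16773016)) (a (l 16774912) (b (b (b (c (l 16776320) (l 16776088)) (c (l 16776456) (l 16776480))) (l 16776816)) (l 16777568))))))), by decide +kernel⟩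

def k78_pm_102_s : ∃ t, chk3 f_pm_102_s t 508 1019 1 = true :=
  ⟨(b (b (a (a (a (l 16777616) (a (l 16778920) (b (l 16777864) (a (l 16778056) (l 16777472))))) (a (a (b (c (l 16779384) (l 16777888)) (l 16778944)) (l 16779344)) (l 16774448))) (a (l 16777752) (c (l 16773976) (l 16774064)))) (a (a (a (c (l 16775496) (b (l 16778136) (l 16777648))) (c (a (b (l 16778344) (l 16777944)) (l 16778328)) (a (b (c (l 16778184) (l 16778072)) (c (l 16777776) (l 16777656))) (l 16778104)))) (l 16777496)) (a (l 16778400) (l 16778288)))) (a (a (a (a (b (a (l 16777048) (b (l 16777272) (b (l 16776896) (l 16776176)))) (b (a (c (l 16776456) (l 16776168)) (l 16776400)) (l 16776008))) (b (a (b (a (l 16777256) (l 16776608)) (l 16776200)) (c (l 16777272) (l 16776200))) (l 16776416))) (c (l 16777240) (l 16774360))) (c (l 16776624) (b (l 16772800) (l 16774760)))) (a (c (l 16777520) (b (l 16773736) (l 16775696))) (c (l 16778376) (a (l 16774088) (l 16774528)))))), by decide +kernel⟩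

def k79_pm_102_s : ∃ t, chk3 f_pm_102_s t 509 508 1 = true :=
  ⟨(a (b (a (b (l 16776360) (l 16776224)) (b (a (a (l 16777120) (b (a (l 16777176) (b (l 130627403255) (l 16777192))) (l 16777136))) (a (b (a (l 130090531895) (l 3)) (b (l 56539217511) (l 16777168))) (b (l 3) (a (b (l 153175981479) (l 16777184)) (l 144049175543))))) (a (l 16777008) (b (l 16777136) (l 16777064))))) (a (b (a (l 16776704) (l 16776776)) (a (l 16776552) (l 16776624))) (b (a (l 16776856) (l 16776952)) (a (l 16776704) (l 16776792))))) (b (a (b (l 3) (a (b (a (b (l 123648081015) (a (l 16777184) (l 16776512))) (l 226190425511)) (a (l 16777144) (a (l 16777168) (b (l 125258694151) (l 16777184))))) (a (a (b (l 3) (b (l 3) (l 100025761351))) (l 3)) (l 3)))) (l 3)) (a (b (a (l 16774432) (b (a (a (l 16777160) (b (l 16776848) (l 16777168))) (a (b (l 147807272391) (l 16777184)) (l 140827950087))) (l 16777120))) (a (l 16776896) (l 16777000))) (b (a (b (l 3) (a (a (b (l 97341406791) (l 16777176)) (b (l 176261430311)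 (l 16777008))) (l 221895458231))) (l 3)) (a (b (a (l 16777128) (a (l 16777168) (b (l 119889985047) (l 16777184)))) (l 16777072)) (a (a (b (b (l 3) (l 94657052231)) (l 16777152)) (b (l 198273132919) (b (l 69424119399) (l 16777168)))) (b (l 3) (b (l 151565368311) (a (l 16777184) (l 117742501399)))))))))), by decide +kernel⟩

def k80_pm_102_s : ∃ t, chk3 f_pm_102_s t 509 509 1 = true :=
  ⟨(a (b (a (b (a (l 16776400) (l 16776464)) (b (a (b (l 16774984) (a (b (a (l 16776376) (l 16776272)) (l 16776496)) (l 16776280))) (l 16776336)) (b (b (a (a (l 16776736) (a (l 16776400) (l 16776272))) (l 16776288)) (a (l 16776760) (a (a (l 16776280) (l 16776256)) (l 16776280)))) (a (l 16777128) (b (a (a (l 16776440) (l 16776288)) (l 16776256)) (a (l 16776568) (a (l 16776296) (l 16776248)))))))) (b (a (l 16776544) (l 16776624)) (a (l 16776368) (l 16776456)))) (b (a (a (c (l 16775720) (l 16775776)) (a (l 16776376) (a (l 16776032) (b (b (b (l 16776304) (l 16776504)) (l 16776872)) (l 16777608)))))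 (b (a (b (a (a (b (l 16776240) (l 16776312)) (l 16776248)) (l 16776280)) (b (a (a (l 16776520) (l 16776328)) (l 16774936)) (a (l 16776656) (a (l 16776344) (l 16776240))))) (l 16776312)) (a (a (l 16777272) (c (l 16776000) (b (l 16776600) (l 16777088)))) (a (b (a (b (l 16776248) (l 16776376)) (c (l 16776248) (l 16776256))) (l 16776632)) (b (l 16776264) (a (b (a (l 16776272) (l 16776232)) (l 16776416)) (b (l 16776240) (c (l 16776264) (l 16776280))))))))) (a (a (c (l 16775048) (l 16774960)) (c (l 16776760) (l 16776848))) (b (a (l 16775408) (c (l 16774504) (l 16774528))) (a (l 16776384) (l 16775488)))))) (b (a (b (a (l 16776720) (l 16776832)) (a (l 16776544) (l 16776648))) (b (a (l 16775632) (b (l 16776784) (l 16777024))) (a (l 16776104) (l 14)))) (a (b (a (b (l 16776408) (l 16776312)) (c (l 16776456) (l 16776464))) (l 14)) (l 14)))), by decide +kernel⟩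

def k81_pm_102_s : ∃ t, chk3 f_pm_102_s t 255 254 1 = true :=
  ⟨(b (l 3) (l 14)), by decide +kernel⟩

def k82_pm_102_s : ∃ t, chk3 f_pm_102_s t 508 1020 1 = true :=
  ⟨(a (b (a (c (a (l 16772856) (l 16773328)) (b (l 16773112) (l 16773768))) (c (a (l 16773800) (l 16774264)) (b (l 16774096) (l 16774752)))) (a (c (b (l 16773448) (a (l 16773888) (l 16774368))) (b (c (l 16774504) (l 16773024)) (c (l 16772544) (l 16772688)))) (c (b (l 16774400) (l 16773776)) (b (a (l 16775168) (l 16775656)) (c (l 16773536) (l 16773376)))))) (b (a (c (a (l 16774720) (l 16775160)) (b (l 16775048) (l 16775704))) (c (b (l 16776128) (l 16775504)) (b (l 16775952) (l 16775312)))) (a (c (b (l 16774008) (l 16774696)) (b (l 16775064) (a (l 16775496) (l 16775968)))) (c (b (l 16774888) (l 16775584)) (b (l 16775984) (l 16775680)))))), by decide +kernel⟩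

def k83_pm_102_s : ∃ t, chk3 f_pm_102_s t 508 2042 1 = true :=
  ⟨(a (a (b (c (c (l 16773600) (l 16772096)) (a (c (l 16772960) (l 16772760)) (l 16772064))) (a (c (b (l 16772784) (b (l 16772552) (a (a (b (b (l 16770968) (a (l 16771944) (c (l 16771080) (l 16771520)))) (l 16772440)) (b (l 16772376) (b (a (c (l 16771128) (l 16771568)) (l 16771048)) (l 16772088)))) (b (l 16772560) (a (a (a (b (l 16772392) (l 16771728)) (l 16771760)) (l 16772456)) (l 16772544)))))) (b (l 16772376) (b (l 16772136) (a (a (b (b (c (l 16771952) (l 16770424)) (b (a (c (l 16771264) (l 16771376)) (l 16771840)) (a (l 16771864) (c (l 16771296) (l 16771408))))) (l 16770696)) (b (l 16771952) (b (a (b (c (l 16770680) (l 16771120)) (l 16771584)) (c (l 16770728) (l 16771168))) (c (l 16771440) (c (l 16771272) (l 16771496)))))) (b (l 16772144) (a (b (l 16772016) (b (l 16771336) (a (a (l 16771312) (l 16771640)) (l 16772000)))) (l 16772128))))))) (c (l 16771816) (c (l 16772832) (l 16772632))))) (a (c (b (l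 16774224) (l 16773608)) (b (l 16772568) (c (l 16773328) (l 16773144)))) (c (b (l 16774704) (l 16774088)) (b (l 16774368) (l 16773080))))) (a (c (b (a (l 16775168) (l 16775624)) (c (l 16773560) (l 16773400))) (b (c (l 16773864) (l 16774368)) (a (l 16772920) (l 16773400)))) (c (b (l 16774984) (c (l 16774456) (l 16774312))) (a (b (l 16775808) (l 16775184)) (b (l 16776264) (l 16775648)))))), by decide +kernel⟩

def k84_pm_102_s : ∃ t, chk3 f_pm_102_s t 2032 8172 1 = true :=
  ⟨(b (a (a (c (l 16772776) (l 16772344)) (c (b (b (a (a (l 16772472) (a (l 16771136) (l 16771784))) (l 16771840)) (a (l 16772584) (a (l 16771208) (c (l 16771304) (l 16771752))))) (l 16772728)) (b (a (b (b (a (l 16772016) (c (l 16770800) (l 16771240))) (l 16771400)) (l 16772152)) (a (b (c (l 16771496) (l 16771288)) (c (l 16770888) (l 16771328))) (b (l 16772104) (b (l 16771752) (c (l 16770888) (l 16771328)))))) (l 16770992)))) (a (b (c (l 16771344) (l 16771592)) (a (b (a (b (c (l 16771888) (c (l 16771576)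 (l 16771360))) (c (l 16772584) (l 16772168))) (c (l 16771928) (c (l 16771616) (c (l 16771456) (l 16771680))))) (c (l 16771344) (l 16771912))) (a (b (c (l 16772632) (l 16772216)) (b (c (l 16771296) (c (l 16770992) (l 16771432))) (c (l 16771320) (c (l 16771008) (l 16771456))))) (c (l 16772672) (l 16771608))))) (c (l 16772864) (l 16772456)))) (a (c (l 16773192) (l 16772104)) (c (a (c (l 16772368) (c (l 16772216) (l 16772440))) (a (b (b (c (l 16771512) (l 16771960)) (a (l 16772760) (a (l 16772080) (l 16772080)))) (l 16772920)) (b (l 16771504) (a (l 16772528) (b (c (l 16771592) (l 16772048)) (l 16772880)))))) (a (b (b (a (l 16772368) (a (l 16772304) (a (l 16771616) (b (l 16771912) (l 16772288))))) (l 16772448)) (l 16772640)) (a (b (a (b (a (b (l 16772256) (l 16771616)) (l 16771632)) (l 16772344)) (b (l 16772328) (b (c (l 16771104) (l 16771552)) (l 16772008)))) (l 16772512)) (b (c (l 16771200) (l 16771656)) (b (a (c (l 16771840) (l 16771960)) (b (l 16771080) (c (l 16771184)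 (l 16771640)))) (l 16772496)))))))), by decide +kernel⟩

def k85_pm_102_s : ∃ t, chk3 f_pm_102_s t 2033 8172 1 = true :=
  ⟨(a (a (a (b (c (l 16773048) (l 16772648)) (a (b (c (l 16772904) (l 16772496)) (b (c (l 16772840) (l 16772440)) (b (c (l 16772176) (a (l 16771768) (l 16771776))) (c (l 16772864) (l 16771808))))) (c (l 16772280) (c (l 16771976) (l 16772104))))) (c (l 16773088) (l 16772696))) (c (l 16773272) (l 16772888))) (c (l 16773632) (l 16773264))), by decide +kernel⟩

def k86_pm_102_s : ∃ t, chk3 f_pm_102_s t 1016 8173 1 = true :=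
  ⟨(c (b (a (c (l 16773616) (l 16773408)) (a (a (a (l 16773120) (b (b (a (a (l 16772248) (l 16771608)) (l 16772952)) (c (l 16772424) (l 16772560))) (l 16773160))) (b (c (l 16771880) (l 16772336)) (a (b (a (l 16773040) (c (l 16771816) (l 16772272))) (l 16773136)) (b (l 16773088) (a (l 16772432) (l 16772440)))))) (l 16773408))) (a (c (l 16774120) (l 16773904)) (a (l 16772832) (a (a (b (b (a (a (l 16772480) (l 16772480)) (l 16771856)) (l 16772888)) (l 16773400)) (b (c (l 16772688) (l 16772824)) (b (a (l 16773272) (a (l 16771936) (l 16772592))) (l 16773376)))) (b (l 16773416) (a (b (l 16771992) (a (l 16772000) (l 16772984))) (l 16773400))))))) (a (c (l 16772136) (c (l 16771984) (l 16771872))) (b (a (b (a (a (c (l 16771384) (l 16771840)) (b (b (l 16772208) (a (a (l 16772520) (l 16771856)) (l 16772544))) (b (a (l 16772568) (a (l 16771888) (l 16771896))) (l 16772608)))) (a (c (l 16772080) (c (l 16771936) (l 16772160))) (l 16772752))) (a (l 16772800) (a (a (l 16772048) (b (b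 (l 16772296) (c (l 16771424) (l 16771880))) (l 16772720))) (b (l 16772048) (a (c (l 16772136) (c (l 16771984) (l 16772216))) (c (l 16772144) (c (l 16772000) (l 16772232)))))))) (l 16773032)) (a (c (l 16773192) (l 16772992)) (a (b (a (a (b (b (c (l 16771520) (l 16771984)) (l 16772104)) (l 16772848)) (b (l 16772128) (c (l 16772256) (l 16772384)))) (b (l 16772872) (a (c (l 16772264) (a (l 16772056) (l 16771416))) (l 16772864)))) (b (b (a (l 16772920) (a (l 16772856) (a (l 16772184) (l 16772856)))) (l 16772280)) (l 16773032))) (a (b (l 16772976) (b (c (l 16771712) (l 16772176)) (a (c (l 16771720) (l 16772184)) (b (l 16772272) (a (l 16772936) (l 16772272)))))) (l 16773064))))))), by decide +kernel⟩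

def k87_pm_102_s : ∃ t, chk3 f_pm_102_s t 1016 4087 1 = true :=
  ⟨(c (a (c (l 16772728) (l 16773832)) (a (l 16773400) (a (l 16771824) (a (l 16771696) (b (b (b (b (a (l 16773040) (l 16772728)) (l 16772136)) (l 16773632)) (l 16773992)) (l 16774712)))))) (a (c (l 16773624) (a (l 16772280) (l 16771928))) (a (c (l 16771792) (l 16771592)) (b (a (l 16773576) (a (l 16773456) (b (b (b (a (a (l 16772328) (b (l 16772312) (l 16772992))) (c (l 16771792) (l 16772256))) (l 16772744)) (l 16773256)) (l 16773616)))) (l 16773144))))), by decide +kernel⟩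

def k88_pm_102_s : ∃ t, chk3 f_pm_102_s t 1017 4086 1 = true :=
  ⟨(a (c (a (l 16772648) (l 16774424)) (a (c (l 16773696) (l 16773512)) (c (l 16774176) (l 16774008)))) (a (c (l 16774880) (l 16773920)) (l 14))), by decide +kernel⟩

def k89_pm_102_s : ∃ t, chk3 f_pm_102_s t 1017 4087 1 = true :=
  ⟨(b (b (c (a (a (a (a (b (a (b (l 16773432) (l 16773096)) (l 16773472)) (c (l 16772984) (l 16773128))) (b (l 16773560) (b (l 16772864) (a (l 16773544) (l 16773208))))) (l 16772392)) (l 16774048)) (l 14)) (a (a (a (b (b (l 16773152) (a (a (b (l 16772384) (l 16772808)) (l 16771776)) (l 16773176))) (b (c (a (l 16772888) (l 16772584)) (a (a (l 16773040) (l 16772688)) (c (l 16772448) (l 16772680)))) (a (l 16773240) (a (l 16773176) (b (l 16772496) (l 16772520)))))) (c (l 16772128) (l 16771944))) (l 16773712)) (l 14))) (a (a (a (c (l 16773864) (l 16773496)) (c (b (b (a (a (l 16772936) (l 16772944)) (l 16773664)) (a (l 16773680) (a (l 16773312) (l 16772360)))) (l 16773160)) (b (a (b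 (a (c (l 16772664) (l 16772480)) (c (l 16772672) (l 16772816))) (l 16773320)) (a (b (l 16773280) (b (l 16772936) (l 16771984))) (l 16773000))) (c (l 16772896) (l 16773040))))) (a (a (b (c (l 16773768) (l 16773408)) (b (a (c (l 16773048) (b (l 16773336) (l 16773016))) (c (l 16773744) (l 16773384))) (a (c (l 16773776) (l 16773424)) (c (l 16773096) (b (l 16773048) (l 16773408)))))) (c (l 16773200) (c (l 16772936) (l 16772760)))) (c (l 16774024) (l 16773680)))) (l 14))) (a (a (c (l 16774496) (l 16773480)) (b (a (a (c (l 16774056) (l 16773696)) (a (c (l 16773992) (l 16773312)) (b (b (c (l 16773160) (b (l 16772792) (l 16772808))) (c (l 16773896) (l 16773544))) (c (l 16774072) (l 16773720))))) (a (b (b (c (l 16773872) (l 16773528)) (a (c (l 16773208) (c (l 16772944) (l 16773096))) (l 14))) (c (l 16774008) (l 16772344))) (l 14))) (c (l 16774400) (l 16774048)))) (l 14))), by decide +kernel⟩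

def k90_pm_102_s : ∃ t, chk3 f_pm_102_s t 509 510 1 = true :=
  ⟨(b (a (a (b (c (a (l 16776440) (l 16776848)) (a (l 16776296) (l 16776720))) (c (b (l 16775728) (l 16776432)) (b (l 16776872) (l 16776248)))) (a (b (c (l 16777240) (l 16777136)) (l 14)) (l 14))) (l 14)) (l 14)), by decide +kernel⟩

def k91_pm_102_s : ∃ t, chk3 f_pm_102_s t 254 511 1 = true :=
  ⟨(a (a (a (b (b (b (c (c (l 16774680) (l 16774472)) (c (l 16774264) (l 16774048))) (c (l 16777808) (c (l 16776184) (l 16775968)))) (b (c (l 16778384) (l 16778944)) (c (b (l 16777160) (l 16778080)) (l 16779816)))) (a (b (c (l 16781072) (l 16782160)) (b (c (l 16778936) (l 16780672)) (c (c (l 16778760) (l 16778968)) (c (l 16779184) (l 16779392))))) (b (c (l 16781032) (l 16782096)) (b (c (l 16778920) (l 16780640)) (l 14))))) (b (b (c (b (c (l 16773920) (l 16773728)) (c (l 16775808) (l 16775616))) (b (c (l 16774848) (l 16774648)) (c (l 16775416) (l 16775224)))) (b (c (l 16778872) (c (l 16777272) (l 16777072))) (c (l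 16779376) (l 16779648)))) (a (b (c (l 16780976) (l 16782032)) (l 14)) (l 14)))) (b (b (a (a (b (c (l 16774600) (a (l 16774320) (l 16774152))) (c (l 16775144) (l 16776088))) (a (b (c (l 16773032) (l 16773984)) (l 14)) (l 14))) (l 14)) (l 14)) (l 14))) (l 14)), by decide +kernel⟩

def k92_pm_102_s : ∃ t, chk3 f_pm_102_s t 255 255 1 = true :=
  ⟨(l 14), by decide +kernel⟩

theorem s93_pm_102_s : ∃ t, chk3 f_pm_102_s t 1017 2043 1 = true := ex3_b k88_pm_102_s k89_pm_102_s

theorem s94_pm_102_s : ∃ t, chk3 f_pm_102_s t 1016 8172 1 = true := ex3_a k84_pm_102_s k85_pm_102_s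

theorem s95_pm_102_s : ∃ t, chk3 f_pm_102_s t 1016 4086 1 = true := ex3_b s94_pm_102_s k86_pm_102_s

theorem s96_pm_102_s : ∃ t, chk3 f_pm_102_s t 1016 2043 1 = true := ex3_b s95_pm_102_s k87_pm_102_s

theorem s97_pm_102_s : ∃ t, chk3 f_pm_102_s t 508 2043 1 = true := ex3_a s96_pm_102_s s93_pm_102_s

theorem s98_pm_102_s : ∃ t, chk3 f_pm_102_s t 508 1021 1 = true := ex3_b k83_pm_102_s s97_pm_102_s

theorem s99_pm_102_s : ∃ t, chk3 f_pm_102_s t 508 510 1 = true := ex3_b k82_pm_102_s s98_pm_102_s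

theorem s100_pm_102_s : ∃ t, chk3 f_pm_102_s t 254 510 1 = true := ex3_a s99_pm_102_s k90_pm_102_s

theorem s101_pm_102_s : ∃ t, chk3 f_pm_102_s t 254 255 1 = true := ex3_b s100_pm_102_s k91_pm_102_s

theorem s102_pm_102_s : ∃ t, chk3 f_pm_102_s t 127 255 1 = true := ex3_a s101_pm_102_s k92_pm_102_s

theorem s103_pm_102_s : ∃ t, chk3 f_pm_102_s t 509 254 1 = true := ex3_b k79_pm_102_s k80_pm_102_s

theorem s104_pm_102_s : ∃ t, chk3 f_pm_102_s t 508 509 1 = true := ex3_b k77_pm_102_s k78_pm_102_s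

theorem s105_pm_102_s : ∃ t, chk3 f_pm_102_s t 508 254 1 = true := ex3_b k76_pm_102_s s104_pm_102_s

theorem s106_pm_102_s : ∃ t, chk3 f_pm_102_s t 254 254 1 = true := ex3_a s105_pm_102_s s103_pm_102_s

theorem s107_pm_102_s : ∃ t, chk3 f_pm_102_s t 127 254 1 = true := ex3_a s106_pm_102_s k81_pm_102_s

theorem s108_pm_102_s : ∃ t, chk3 f_pm_102_s t 127 127 1 = true := ex3_b s107_pm_102_s s102_pm_102_s

theorem s109_pm_102_s : ∃ t, chk3 f_pm_102_s t 507 511 1 = true := ex3_a k74_pm_102_s k75_pm_102_s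

theorem s110_pm_102_s : ∃ t, chk3 f_pm_102_s t 253 511 1 = true := ex3_a k73_pm_102_s s109_pm_102_s

theorem s111_pm_102_s : ∃ t, chk3 f_pm_102_s t 1015 4085 3 = true := ex3_a k70_pm_102_s k71_pm_102_s

theorem s112_pm_102_s : ∃ t, chk3 f_pm_102_s t 1015 4085 1 = true := ex3_c k69_pm_102_s s111_pm_102_s

theorem s113_pm_102_s : ∃ t, chk3 f_pm_102_s t 4060 4084 1 = true := ex3_a k65_pm_102_s k66_pm_102_s

theorem s114_pm_102_s : ∃ t, chk3 f_pm_102_s t 2030 4084 1 = true := ex3_a s113_pm_102_s k67_pm_102_s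

theorem s115_pm_102_s : ∃ t, chk3 f_pm_102_s t 1015 4084 1 = true := ex3_a s114_pm_102_s k68_pm_102_s

theorem s116_pm_102_s : ∃ t, chk3 f_pm_102_s t 1015 2042 1 = true := ex3_b s115_pm_102_s s112_pm_102_s

theorem s117_pm_102_s : ∃ t, chk3 f_pm_102_s t 1015 1021 1 = true := ex3_b s116_pm_102_s k72_pm_102_s

theorem s118_pm_102_s : ∃ t, chk3 f_pm_102_s t 1014 4084 3 = true := ex3_a k61_pm_102_s k62_pm_102_s

theorem s119_pm_102_s : ∃ t, chk3 f_pm_102_s t 1014 2042 3 = true := ex3_b s118_pm_102_s k63_pm_102_s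

theorem s120_pm_102_s : ∃ t, chk3 f_pm_102_s t 1014 1021 3 = true := ex3_b s119_pm_102_s k64_pm_102_s

theorem s121_pm_102_s : ∃ t, chk3 f_pm_102_s t 1014 1021 1 = true := ex3_c k60_pm_102_s s120_pm_102_s

theorem s122_pm_102_s : ∃ t, chk3 f_pm_102_s t 507 1021 1 = true := ex3_a s121_pm_102_s s117_pm_102_s

theorem s123_pm_102_s : ∃ t, chk3 f_pm_102_s t 1015 1020 1 = true := ex3_b k58_pm_102_s k59_pm_102_s

theorem s124_pm_102_s : ∃ t, chk3 f_pm_102_s t 2028 4083 1 = true := ex3_a k55_pm_102_s k56_pm_102_s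

theorem s125_pm_102_s : ∃ t, chk3 f_pm_102_s t 1014 4083 1 = true := ex3_a s124_pm_102_s k57_pm_102_s

theorem s126_pm_102_s : ∃ t, chk3 f_pm_102_s t 1014 2041 1 = true := ex3_b k54_pm_102_s s125_pm_102_s

theorem s127_pm_102_s : ∃ t, chk3 f_pm_102_s t 1014 1020 1 = true := ex3_b k53_pm_102_s s126_pm_102_s

theorem s128_pm_102_s : ∃ t, chk3 f_pm_102_s t 507 1020 1 = true := ex3_a s127_pm_102_s s123_pm_102_s

theorem s129_pm_102_s : ∃ t, chk3 f_pm_102_s t 507 510 1 = true := ex3_b s128_pm_102_s s122_pm_102_s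

theorem s130_pm_102_s : ∃ t, chk3 f_pm_102_s t 1013 8165 1 = true := ex3_a k49_pm_102_s k50_pm_102_s

theorem s131_pm_102_s : ∃ t, chk3 f_pm_102_s t 2026 8164 1 = true := ex3_b k46_pm_102_s k47_pm_102_s

theorem s132_pm_102_s : ∃ t, chk3 f_pm_102_s t 1013 8164 1 = true := ex3_a s131_pm_102_s k48_pm_102_s

theorem s133_pm_102_s : ∃ t, chk3 f_pm_102_s t 1013 4082 1 = true := ex3_b s132_pm_102_s s130_pm_102_s

theorem s134_pm_102_s : ∃ t, chk3 f_pm_102_s t 1013 2041 1 = true := ex3_b s133_pm_102_s k51_pm_102_s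

theorem s135_pm_102_s : ∃ t, chk3 f_pm_102_s t 1013 1020 1 = true := ex3_b k45_pm_102_s s134_pm_102_s

theorem s136_pm_102_s : ∃ t, chk3 f_pm_102_s t 506 1020 1 = true := ex3_a k44_pm_102_s s135_pm_102_s

theorem s137_pm_102_s : ∃ t, chk3 f_pm_102_s t 506 510 1 = true := ex3_b s136_pm_102_s k52_pm_102_s

theorem s138_pm_102_s : ∃ t, chk3 f_pm_102_s t 253 510 1 = true := ex3_a s137_pm_102_s s129_pm_102_s

theorem s139_pm_102_s : ∃ t, chk3 f_pm_102_s t 253 255 1 = true := ex3_b s138_pm_102_s s110_pm_102_s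

theorem s140_pm_102_s : ∃ t, chk3 f_pm_102_s t 253 1019 1 = true := ex3_a k42_pm_102_s k43_pm_102_s

theorem s141_pm_102_s : ∃ t, chk3 f_pm_102_s t 253 509 1 = true := ex3_b k41_pm_102_s s140_pm_102_s

theorem s142_pm_102_s : ∃ t, chk3 f_pm_102_s t 253 508 1 = true := ex3_a k39_pm_102_s k40_pm_102_s

theorem s143_pm_102_s : ∃ t, chk3 f_pm_102_s t 253 254 1 = true := ex3_b s142_pm_102_s s141_pm_102_s

theorem s144_pm_102_s : ∃ t, chk3 f_pm_102_s t 253 127 1 = true := ex3_b s143_pm_102_s s139_pm_102_s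

theorem s145_pm_102_s : ∃ t, chk3 f_pm_102_s t 505 254 1 = true := ex3_a k36_pm_102_s k37_pm_102_s

theorem s146_pm_102_s : ∃ t, chk3 f_pm_102_s t 252 254 1 = true := ex3_a k35_pm_102_s s145_pm_102_s

theorem s147_pm_102_s : ∃ t, chk3 f_pm_102_s t 252 127 1 = true := ex3_b s146_pm_102_s k38_pm_102_s

theorem s148_pm_102_s : ∃ t, chk3 f_pm_102_s t 126 127 1 = true := ex3_a s147_pm_102_s s144_pm_102_s

theorem s149_pm_102_s : ∃ t, chk3 f_pm_102_s t 63 127 1 = true := ex3_a s148_pm_102_s s108_pm_102_s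

theorem s150_pm_102_s : ∃ t, chk3 f_pm_102_s t 253 253 1 = true := ex3_b k32_pm_102_s k33_pm_102_s

theorem s151_pm_102_s : ∃ t, chk3 f_pm_102_s t 253 126 1 = true := ex3_b k31_pm_102_s s150_pm_102_s

theorem s152_pm_102_s : ∃ t, chk3 f_pm_102_s t 252 253 1 = true := ex3_b k29_pm_102_s k30_pm_102_s

theorem s153_pm_102_s : ∃ t, chk3 f_pm_102_s t 252 126 1 = true := ex3_b k28_pm_102_s s152_pm_102_s

theorem s154_pm_102_s : ∃ t, chk3 f_pm_102_s t 126 126 1 = true := ex3_a s153_pm_102_s s151_pm_102_s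

theorem s155_pm_102_s : ∃ t, chk3 f_pm_102_s t 63 126 1 = true := ex3_a s154_pm_102_s k34_pm_102_s

theorem s156_pm_102_s : ∃ t, chk3 f_pm_102_s t 63 63 1 = true := ex3_b s155_pm_102_s s149_pm_102_s

theorem s157_pm_102_s : ∃ t, chk3 f_pm_102_s t 251 252 1 = true := ex3_b k24_pm_102_s k25_pm_102_s

theorem s158_pm_102_s : ∃ t, chk3 f_pm_102_s t 251 126 1 = true := ex3_b s157_pm_102_s k26_pm_102_s

theorem s159_pm_102_s : ∃ t, chk3 f_pm_102_s t 125 126 1 = true := ex3_a k23_pm_102_s s158_pm_102_s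

theorem s160_pm_102_s : ∃ t, chk3 f_pm_102_s t 62 126 1 = true := ex3_a k22_pm_102_s s159_pm_102_s

theorem s161_pm_102_s : ∃ t, chk3 f_pm_102_s t 62 63 1 = true := ex3_b s160_pm_102_s k27_pm_102_s

theorem s162_pm_102_s : ∃ t, chk3 f_pm_102_s t 31 63 1 = true := ex3_a s161_pm_102_s s156_pm_102_s

theorem s163_pm_102_s : ∃ t, chk3 f_pm_102_s t 63 62 1 = true := ex3_a k20_pm_102_s k21_pm_102_s

theorem s164_pm_102_s : ∃ t, chk3 f_pm_102_s t 125 251 1 = true := ex3_a k18_pm_102_s k19_pm_102_s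

theorem s165_pm_102_s : ∃ t, chk3 f_pm_102_s t 125 125 1 = true := ex3_b k17_pm_102_s s164_pm_102_s

theorem s166_pm_102_s : ∃ t, chk3 f_pm_102_s t 125 62 1 = true := ex3_b k16_pm_102_s s165_pm_102_s

theorem s167_pm_102_s : ∃ t, chk3 f_pm_102_s t 62 62 1 = true := ex3_a k15_pm_102_s s166_pm_102_s

theorem s168_pm_102_s : ∃ t, chk3 f_pm_102_s t 31 62 1 = true := ex3_a s167_pm_102_s s163_pm_102_s

theorem s169_pm_102_s : ∃ t, chk3 f_pm_102_s t 31 31 1 = true := ex3_b s168_pm_102_s s162_pm_102_s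

theorem s170_pm_102_s : ∃ t, chk3 f_pm_102_s t 62 61 1 = true := ex3_a k12_pm_102_s k13_pm_102_s

theorem s171_pm_102_s : ∃ t, chk3 f_pm_102_s t 62 30 1 = true := ex3_b k11_pm_102_s s170_pm_102_s

theorem s172_pm_102_s : ∃ t, chk3 f_pm_102_s t 31 30 1 = true := ex3_a s171_pm_102_s k14_pm_102_s

theorem s173_pm_102_s : ∃ t, chk3 f_pm_102_s t 31 15 1 = true := ex3_b s172_pm_102_s s169_pm_102_s

theorem s174_pm_102_s : ∃ t, chk3 f_pm_102_s t 61 60 1 = true := ex3_a k7_pm_102_s k8_pm_102_s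

theorem s175_pm_102_s : ∃ t, chk3 f_pm_102_s t 61 30 1 = true := ex3_b s174_pm_102_s k9_pm_102_s

theorem s176_pm_102_s : ∃ t, chk3 f_pm_102_s t 30 30 1 = true := ex3_a k6_pm_102_s s175_pm_102_s

theorem s177_pm_102_s : ∃ t, chk3 f_pm_102_s t 30 15 1 = true := ex3_b s176_pm_102_s k10_pm_102_s

theorem s178_pm_102_s : ∃ t, chk3 f_pm_102_s t 15 15 1 = true := ex3_a s177_pm_102_s s173_pm_102_s

theorem s179_pm_102_s : ∃ t, chk3 f_pm_102_s t 15 7 1 = true := ex3_b k5_pm_102_s s178_pm_102_s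

theorem s180_pm_102_s : ∃ t, chk3 f_pm_102_s t 7 7 1 = true := ex3_a k4_pm_102_s s179_pm_102_s

theorem s181_pm_102_s : ∃ t, chk3 f_pm_102_s t 7 3 1 = true := ex3_b k3_pm_102_s s180_pm_102_s

theorem s182_pm_102_s : ∃ t, chk3 f_pm_102_s t 3 3 1 = true := ex3_a k2_pm_102_s s181_pm_102_s

theorem s183_pm_102_s : ∃ t, chk3 f_pm_102_s t 3 1 1 = true := ex3_b k1_pm_102_s s182_pm_102_s

theorem s184_pm_102_s : ∃ t, chk3 f_pm_102_s t 1 1 1 = true := ex3_a k0_pm_102_s s183_pm_102_s

theorem c_pm_102_s : CertNE 536870912 536870912 0 536870912 1040187392 5207648 3 eng mog cd0q1 cd0q2 pd0 false true false .npp 1 0 2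
    ndB0q1 ndB0q2 pcB0 cut_pm_102_s Ext.none :=
  certNE0 (fam := false) (s1 := true) (s2 := false) (a := 1) (b := 0) (c := 2) (cn := .npp) (n1 := ndB0q1) (n2 := ndB0q2) (pc := pcB0) (cut := cut_pm_102_s) (xt := Ext.none) (P1 := 536870912) (W1 := 536870912) (P2 := 0) (W2 := 536870912) (P3 := 1040187392) (W3 := 5207648) (N0 := 3) (En := eng) (mo := mog) (C1 := cd0q1) (C2 := cd0q2) (C3 := pd0)
    rfl s184_pm_102_s

noncomputable def cut_pm_102_t : Cut := Cut.of [[⟨3, 0, 0, 2845415833⟩], [⟨0, 1, 0, 8388608⟩, ⟨1, 0, 0, 8388608⟩, ⟨2, 1, 0, 8388608⟩], [⟨0, 0, 1, 46137344⟩, ⟨1, 1, 2, 46137344⟩, ⟨2, 1, 0, 1048576⟩, ⟨0, 0, 0, 1054867456⟩, ⟨0, 1, 0, 38117834⟩, ⟨1, 0, 0, 38117834⟩, ⟨1, 1, 0, 1054867456⟩]]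

noncomputable def f_pm_102_t : ℕ → ℕ → ℕ → ℕ → Bool := onCell 536870912 536870912 0 536870912 1040187392 5207648
    (rowNE 3 eng mog cd0q1 cd0q2 pd0 0 false true false .npp 1 0 2 (qsf 536870912 536870912 0 536870912 0) ndB0q1 ndB0q2 pcB0 cut_pm_102_t Ext.none)

def k0_pm_102_t : ∃ t, chk3 f_pm_102_t t 1 1 1 = true :=
  ⟨(l 6), by decide +kernel⟩

theorem c_pm_102_t : CertNE 536870912 536870912 0 536870912 1040187392 5207648 3 eng mog cd0q1 cd0q2 pd0 false true false .npp 1 0 2
    ndB0q1 ndB0q2 pcB0 cut_pm_102_t Ext.none :=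
  certNE0 (fam := false) (s1 := true) (s2 := false) (a := 1) (b := 0) (c := 2) (cn := .npp) (n1 := ndB0q1) (n2 := ndB0q2) (pc := pcB0) (cut := cut_pm_102_t) (xt := Ext.none) (P1 := 536870912) (W1 := 536870912) (P2 := 0) (W2 := 536870912) (P3 := 1040187392) (W3 := 5207648) (N0 := 3) (En := eng) (mo := mog) (C1 := cd0q1) (C2 := cd0q2) (C3 := pd0)
    rfl k0_pm_102_t

noncomputable def cut_pm_112_s : Cut := Cut.of [[⟨4, 0, 0, 1449551462⟩]]

noncomputable def f_pm_112_s : ℕ → ℕ → ℕ → ℕ → Bool := onCell 536870912 536870912 0 536870912 1040187392 5207648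
    (rowNE 3 eng mog cd0q1 cd0q2 pd1 0 false true false .dn 1 1 2 (qsf 536870912 536870912 0 536870912 1) ndB0q1 ndB0q2 pcB1 cut_pm_112_s Ext.none)

def k0_pm_112_s : ∃ t, chk3 f_pm_112_s t 1 1 1 = true :=
  ⟨(a (a (b (a (b (b (a (l 16471504) (l 16448936)) (a (b (a (b (l 16350880) (l 16312984)) (l 16357112)) (a (l 16327872) (b (l 16297408) (l 16308944)))) (b (l 16414400) (a (b (l 16311392) (l 16285064)) (l 16323888))))) (b (a (l 16254800) (b (a (l 16318984) (b (l 16276640) (l 16303888))) (l 16359056))) (l 6))) (b (b (a (b (a (l 16700168) (l 16721936)) (l 16596784)) (b (a (l 16699976) (l 3)) (a (l 16676448) (l 16698936)))) (a (b (l 16505864) (l 16388456)) (b (l 16569312) (l 16492856)))) (b (a (b (a (b (l 16281176) (l 16272808)) (b (l 16319960) (b (l 16274584) (l 16259048)))) (a (l 16321064) (l 16292896))) (b (l 16367048) (a (b (b (l 16264264) (l 16255704)) (l 16280256)) (b (l 16296200) (b (l 16258856) (l 16258440)))))) (a (b (l 16368080) (l 6)) (b (l 16321488) (l 16385848))))))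 (b (l 6) (l 6))) (b (a (a (a (b (b (l 131164051927) (l 16529728)) (b (b (l 16452688) (l 16303192)) (b (b (b (l 116533418839) (l 16267904)) (l 16301456)) (l 16355696)))) (b (b (l 3) (b (l 16699320) (l 16633768))) (b (l 16384960) (l 1)))) (b (b (l 1) (l 1)) (l 1))) (l 1)) (b (l 1) (l 1)))) (l 1)), by decide +kernel⟩

theorem c_pm_112_s : CertNE 536870912 536870912 0 536870912 1040187392 5207648 3 eng mog cd0q1 cd0q2 pd1 false true false .dn 1 1 2
    ndB0q1 ndB0q2 pcB1 cut_pm_112_s Ext.none :=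
  certNE0 (fam := false) (s1 := true) (s2 := false) (a := 1) (b := 1) (c := 2) (cn := .dn) (n1 := ndB0q1) (n2 := ndB0q2) (pc := pcB1) (cut := cut_pm_112_s) (xt := Ext.none) (P1 := 536870912) (W1 := 536870912) (P2 := 0) (W2 := 536870912) (P3 := 1040187392) (W3 := 5207648) (N0 := 3) (En := eng) (mo := mog) (C1 := cd0q1) (C2 := cd0q2) (C3 := pd1)
    rfl k0_pm_112_s

noncomputable def cut_pm_112_t : Cut := Cut.of [[⟨3, 0, 0, 2845415833⟩]]

noncomputable def f_pm_112_t : ℕ → ℕ → ℕ → ℕ → Bool := onCell 536870912 536870912 0 536870912 1040187392 5207648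
    (rowNE 3 eng mog cd0q1 cd0q2 pd1 0 false true false .dn 1 1 2 (qsf 536870912 536870912 0 536870912 1) ndB0q1 ndB0q2 pcB1 cut_pm_112_t Ext.none)

def k0_pm_112_t : ∃ t, chk3 f_pm_112_t t 1 1 1 = true :=
  ⟨(l 6), by decide +kernel⟩

theorem c_pm_112_t : CertNE 536870912 536870912 0 536870912 1040187392 5207648 3 eng mog cd0q1 cd0q2 pd1 false true false .dn 1 1 2
    ndB0q1 ndB0q2 pcB1 cut_pm_112_t Ext.none :=
  certNE0 (fam := false) (s1 := true) (s2 := false) (a := 1) (b := 1) (c := 2) (cn := .dn) (n1 := ndB0q1) (n2 := ndB0q2) (pc := pcB1) (cut := cut_pm_112_t) (xt := Ext.none) (P1 := 536870912) (W1 := 536870912) (P2 := 0) (W2 := 536870912) (P3 := 1040187392) (W3 := 5207648) (N0 := 3) (En := eng) (mo := mog) (C1 := cd0q1) (C2 := cd0q2) (C3 := pd1)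
    rfl k0_pm_112_t

noncomputable def cut_pm_202_s : Cut := Cut.of [[⟨4, 0, 0, 1449551462⟩], [⟨0, 1, 0, 26843545⟩, ⟨1, 0, 0, 26843545⟩, ⟨2, 1, 0, 26843545⟩], [⟨0, 0, 1, 46137344⟩, ⟨1, 1, 2, 46137344⟩, ⟨2, 1, 0, 1048576⟩, ⟨0, 0, 0, 1054867456⟩, ⟨0, 1, 0, 38117834⟩, ⟨1, 0, 0, 38117834⟩, ⟨1, 1, 0, 1054867456⟩]]

noncomputable def f_pm_202_s : ℕ → ℕ → ℕ → ℕ → Bool := onCell 0 536870912 0 536870912 1040187392 5207648
    (rowNE 3 eng mog cd0q2 cd0q2 pd0 0 false true false .pp 2 0 2 (qsf 0 536870912 0 536870912 0) ndB0q2 ndB0q2 pcB0 cut_pm_202_s Ext.none)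

def k0_pm_202_s : ∃ t, chk3 f_pm_202_s t 1 1 1 = true :=
  ⟨(a (l 3) (b (l 3) (a (l 3) (b (l 3) (a (l 3) (b (l 3) (a (l 3) (b (l 3) (l 14))))))))), by decide +kernel⟩

theorem c_pm_202_s : CertNE 0 536870912 0 536870912 1040187392 5207648 3 eng mog cd0q2 cd0q2 pd0 false true false .pp 2 0 2
    ndB0q2 ndB0q2 pcB0 cut_pm_202_s Ext.none :=
  certNE0 (fam := false) (s1 := true) (s2 := false) (a := 2) (b := 0) (c := 2) (cn := .pp) (n1 := ndB0q2) (n2 := ndB0q2) (pc := pcB0) (cut := cut_pm_202_s) (xt := Ext.none) (P1 := 0) (W1 := 536870912) (P2 := 0) (W2 := 536870912) (P3 := 1040187392) (W3 := 5207648) (N0 := 3) (En := eng) (mo := mog) (C1 := cd0q2) (C2 := cd0q2) (C3 := pd0)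
    rfl k0_pm_202_s

noncomputable def cut_pm_202_t : Cut := Cut.of [[⟨3, 0, 0, 2845415833⟩], [⟨0, 1, 0, 26843545⟩, ⟨1, 0, 0, 26843545⟩, ⟨2, 1, 0, 26843545⟩], [⟨0, 0, 1, 46137344⟩, ⟨1, 1, 2, 46137344⟩, ⟨2, 1, 0, 1048576⟩, ⟨0, 0, 0, 1054867456⟩, ⟨0, 1, 0, 38117834⟩, ⟨1, 0, 0, 38117834⟩, ⟨1, 1, 0, 1054867456⟩]]

noncomputable def f_pm_202_t : ℕ → ℕ → ℕ → ℕ → Bool := onCell 0 536870912 0 536870912 1040187392 5207648
    (rowNE 3 eng mog cd0q2 cd0q2 pd0 0 false true false .pp 2 0 2 (qsf 0 536870912 0 536870912 0) ndB0q2 ndB0q2 pcB0 cut_pm_202_t Ext.none)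

def k0_pm_202_t : ∃ t, chk3 f_pm_202_t t 1 1 1 = true :=
  ⟨(l 6), by decide +kernel⟩

theorem c_pm_202_t : CertNE 0 536870912 0 536870912 1040187392 5207648 3 eng mog cd0q2 cd0q2 pd0 false true false .pp 2 0 2
    ndB0q2 ndB0q2 pcB0 cut_pm_202_t Ext.none :=
  certNE0 (fam := false) (s1 := true) (s2 := false) (a := 2) (b := 0) (c := 2) (cn := .pp) (n1 := ndB0q2) (n2 := ndB0q2) (pc := pcB0) (cut := cut_pm_202_t) (xt := Ext.none) (P1 := 0) (W1 := 536870912) (P2 := 0) (W2 := 536870912) (P3 := 1040187392) (W3 := 5207648) (N0 := 3) (En := eng) (mo := mog) (C1 := cd0q2) (C2 := cd0q2) (C3 := pd0)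
    rfl k0_pm_202_t

noncomputable def cut_mm_001_s : Cut := Cut.of [[⟨4, 0, 0, 1449551462⟩]]

noncomputable def f_mm_001_s : ℕ → ℕ → ℕ → ℕ → Bool := onCell 0 536870912 0 536870912 1040187392 5207648
    (rowNE 3 eng mog cd0q0 cd0q1 pd0 1 false false false .up 0 0 1 (qsf 0 536870912 536870912 536870912 0) ndB0q0 ndB0q1 pcB0 cut_mm_001_s Ext.none)

def k0_mm_001_s : ∃ t, chk3 f_mm_001_s t 1 1 1 = true :=
  ⟨(l 3), by decide +kernel⟩

theorem c_mm_001_s : CertNE 0 536870912 536870912 536870912 1040187392 5207648 3 eng mog cd0q0 cd0q1 pd0 false false false .up 0 0 1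
    ndB0q0 ndB0q1 pcB0 cut_mm_001_s Ext.none :=
  certNE1 (fam := false) (s1 := false) (s2 := false) (a := 0) (b := 0) (c := 1) (cn := .up) (n1 := ndB0q0) (n2 := ndB0q1) (pc := pcB0) (cut := cut_mm_001_s) (xt := Ext.none) (P1 := 0) (W1 := 536870912) (P2 := 536870912) (W2 := 536870912) (P3 := 1040187392) (W3 := 5207648) (N0 := 3) (En := eng) (mo := mog) (C1 := cd0q0) (C2 := cd0q1) (C3 := pd0)
    rfl (fun _ => rfl) k0_mm_001_s

noncomputable def cut_mm_001_t : Cut := Cut.of [[⟨3, 0, 0, 2845415833⟩]]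

noncomputable def f_mm_001_t : ℕ → ℕ → ℕ → ℕ → Bool := onCell 0 536870912 536870912 536870912 1040187392 5207648
    (rowNE 3 eng mog cd0q0 cd0q1 pd0 0 false false false .up 0 0 1 (qsf 0 536870912 536870912 536870912 0) ndB0q0 ndB0q1 pcB0 cut_mm_001_t Ext.none)

def k0_mm_001_t : ∃ t, chk3 f_mm_001_t t 1 1 1 = true :=
  ⟨(l 6), by decide +kernel⟩

theorem c_mm_001_t : CertNE 0 536870912 536870912 536870912 1040187392 5207648 3 eng mog cd0q0 cd0q1 pd0 false false false .up 0 0 1
    ndB0q0 ndB0q1 pcB0 cut_mm_001_t Ext.none :=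
  certNE0 (fam := false) (s1 := false) (s2 := false) (a := 0) (b := 0) (c := 1) (cn := .up) (n1 := ndB0q0) (n2 := ndB0q1) (pc := pcB0) (cut := cut_mm_001_t) (xt := Ext.none) (P1 := 0) (W1 := 536870912) (P2 := 536870912) (W2 := 536870912) (P3 := 1040187392) (W3 := 5207648) (N0 := 3) (En := eng) (mo := mog) (C1 := cd0q0) (C2 := cd0q1) (C3 := pd0)
    rfl k0_mm_001_t

noncomputable def cut_mm_011_s : Cut := Cut.of [[⟨4, 0, 0, 1449551462⟩]]

noncomputable def f_mm_011_s : ℕ → ℕ → ℕ → ℕ → Bool := onCell 0 536870912 536870912 536870912 1040187392 5207648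
    (rowNE 3 eng mog cd0q0 cd0q1 pd1 1 false false false .pnn 0 1 1 (qsf 0 536870912 536870912 536870912 1) ndB0q0 ndB0q1 pcB1 cut_mm_011_s Ext.none)

def k0_mm_011_s : ∃ t, chk3 f_mm_011_s t 1 1 1 = true :=
  ⟨(l 5), by decide +kernel⟩

theorem c_mm_011_s : CertNE 0 536870912 536870912 536870912 1040187392 5207648 3 eng mog cd0q0 cd0q1 pd1 false false false .pnn 0 1 1
    ndB0q0 ndB0q1 pcB1 cut_mm_011_s Ext.none :=
  certNE1 (fam := false) (s1 := false) (s2 := false) (a := 0) (b := 1) (c := 1) (cn := .pnn) (n1 := ndB0q0) (n2 := ndB0q1) (pc := pcB1) (cut := cut_mm_011_s) (xt := Ext.none) (P1 := 0) (W1 := 536870912) (P2 := 536870912) (W2 := 536870912) (P3 := 1040187392) (W3 := 5207648) (N0 := 3) (En := eng) (mo := mog) (C1 := cd0q0) (C2 := cd0q1) (C3 := pd1)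
    rfl (fun _ => rfl) k0_mm_011_s

noncomputable def cut_mm_011_t : Cut := Cut.of [[⟨3, 0, 0, 2845415833⟩]]

noncomputable def f_mm_011_t : ℕ → ℕ → ℕ → ℕ → Bool := onCell 0 536870912 536870912 536870912 1040187392 5207648
    (rowNE 3 eng mog cd0q0 cd0q1 pd1 0 false false false .pnn 0 1 1 (qsf 0 536870912 536870912 536870912 1) ndB0q0 ndB0q1 pcB1 cut_mm_011_t Ext.none)

def k0_mm_011_t : ∃ t, chk3 f_mm_011_t t 1 1 1 = true :=
  ⟨(l 6), by decide +kernel⟩

theorem c_mm_011_t : CertNE 0 536870912 536870912 536870912 1040187392 5207648 3 eng mog cd0q0 cd0q1 pd1 false false false .pnn 0 1 1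
    ndB0q0 ndB0q1 pcB1 cut_mm_011_t Ext.none :=
  certNE0 (fam := false) (s1 := false) (s2 := false) (a := 0) (b := 1) (c := 1) (cn := .pnn) (n1 := ndB0q0) (n2 := ndB0q1) (pc := pcB1) (cut := cut_mm_011_t) (xt := Ext.none) (P1 := 0) (W1 := 536870912) (P2 := 536870912) (W2 := 536870912) (P3 := 1040187392) (W3 := 5207648) (N0 := 3) (En := eng) (mo := mog) (C1 := cd0q0) (C2 := cd0q1) (C3 := pd1)
    rfl k0_mm_011_t

noncomputable def cut_mm_012_s : Cut := Cut.of [[⟨4, 0, 0, 1449551462⟩]]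

noncomputable def f_mm_012_s : ℕ → ℕ → ℕ → ℕ → Bool := onCell 0 536870912 0 536870912 1040187392 5207648
    (rowNE 3 eng mog cd0q0 cd0q2 pd1 0 false false false .pnp 0 1 2 (qsf 0 536870912 0 536870912 1) ndB0q0 ndB0q2 pcB1 cut_mm_012_s Ext.none)

def k0_mm_012_s : ∃ t, chk3 f_mm_012_s t 1 1 1 = true :=
  ⟨(l 5), by decide +kernel⟩

theorem c_mm_012_s : CertNE 0 536870912 0 536870912 1040187392 5207648 3 eng mog cd0q0 cd0q2 pd1 false false false .pnp 0 1 2
    ndB0q0 ndB0q2 pcB1 cut_mm_012_s Ext.none :=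
  certNE0 (fam := false) (s1 := false) (s2 := false) (a := 0) (b := 1) (c := 2) (cn := .pnp) (n1 := ndB0q0) (n2 := ndB0q2) (pc := pcB1) (cut := cut_mm_012_s) (xt := Ext.none) (P1 := 0) (W1 := 536870912) (P2 := 0) (W2 := 536870912) (P3 := 1040187392) (W3 := 5207648) (N0 := 3) (En := eng) (mo := mog) (C1 := cd0q0) (C2 := cd0q2) (C3 := pd1)
    rfl k0_mm_012_s

noncomputable def cut_mm_012_t : Cut := Cut.of [[⟨3, 0, 0, 2845415833⟩]]

noncomputable def f_mm_012_t : ℕ → ℕ → ℕ → ℕ → Bool := onCell 0 536870912 0 536870912 1040187392 5207648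
    (rowNE 3 eng mog cd0q0 cd0q2 pd1 0 false false false .pnp 0 1 2 (qsf 0 536870912 0 536870912 1) ndB0q0 ndB0q2 pcB1 cut_mm_012_t Ext.none)

def k0_mm_012_t : ∃ t, chk3 f_mm_012_t t 1 1 1 = true :=
  ⟨(l 5), by decide +kernel⟩

theorem c_mm_012_t : CertNE 0 536870912 0 536870912 1040187392 5207648 3 eng mog cd0q0 cd0q2 pd1 false false false .pnp 0 1 2
    ndB0q0 ndB0q2 pcB1 cut_mm_012_t Ext.none :=
  certNE0 (fam := false) (s1 := false) (s2 := false) (a := 0) (b := 1) (c := 2) (cn := .pnp) (n1 := ndB0q0) (n2 := ndB0q2) (pc := pcB1) (cut := cut_mm_012_t) (xt := Ext.none) (P1 := 0) (W1 := 536870912) (P2 := 0) (W2 := 536870912) (P3 := 1040187392) (W3 := 5207648) (N0 := 3) (En := eng) (mo := mog) (C1 := cd0q0) (C2 := cd0q2) (C3 := pd1)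
    rfl k0_mm_012_t

noncomputable def cut_mm_022_s : Cut := Cut.of [[⟨4, 0, 0, 1449551462⟩]]

noncomputable def f_mm_022_s : ℕ → ℕ → ℕ → ℕ → Bool := onCell 0 536870912 0 536870912 1040187392 5207648
    (rowNE 3 eng mog cd0q0 cd0q2 pd2 0 false false false .pp 0 2 2 (qsf 0 536870912 0 536870912 2) ndB0q0 ndB0q2 pcB2 cut_mm_022_s Ext.none)

def k0_mm_022_s : ∃ t, chk3 f_mm_022_s t 1 1 1 = true :=
  ⟨(l 5), by decide +kernel⟩

theorem c_mm_022_s : CertNE 0 536870912 0 536870912 1040187392 5207648 3 eng mog cd0q0 cd0q2 pd2 false false false .pp 0 2 2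
    ndB0q0 ndB0q2 pcB2 cut_mm_022_s Ext.none :=
  certNE0 (fam := false) (s1 := false) (s2 := false) (a := 0) (b := 2) (c := 2) (cn := .pp) (n1 := ndB0q0) (n2 := ndB0q2) (pc := pcB2) (cut := cut_mm_022_s) (xt := Ext.none) (P1 := 0) (W1 := 536870912) (P2 := 0) (W2 := 536870912) (P3 := 1040187392) (W3 := 5207648) (N0 := 3) (En := eng) (mo := mog) (C1 := cd0q0) (C2 := cd0q2) (C3 := pd2)
    rfl k0_mm_022_s

noncomputable def cut_mm_022_t : Cut := Cut.of [[⟨3, 0, 0, 2845415833⟩]]

noncomputable def f_mm_022_t : ℕ → ℕ → ℕ → ℕ → Bool := onCell 0 536870912 0 536870912 1040187392 5207648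
    (rowNE 3 eng mog cd0q0 cd0q2 pd2 0 false false false .pp 0 2 2 (qsf 0 536870912 0 536870912 2) ndB0q0 ndB0q2 pcB2 cut_mm_022_t Ext.none)

def k0_mm_022_t : ∃ t, chk3 f_mm_022_t t 1 1 1 = true :=
  ⟨(l 5), by decide +kernel⟩

theorem c_mm_022_t : CertNE 0 536870912 0 536870912 1040187392 5207648 3 eng mog cd0q0 cd0q2 pd2 false false false .pp 0 2 2
    ndB0q0 ndB0q2 pcB2 cut_mm_022_t Ext.none :=
  certNE0 (fam := false) (s1 := false) (s2 := false) (a := 0) (b := 2) (c := 2) (cn := .pp) (n1 := ndB0q0) (n2 := ndB0q2) (pc := pcB2) (cut := cut_mm_022_t) (xt := Ext.none) (P1 := 0) (W1 := 536870912) (P2 := 0) (W2 := 536870912) (P3 := 1040187392) (W3 := 5207648) (N0 := 3) (En := eng) (mo := mog) (C1 := cd0q0) (C2 := cd0q2) (C3 := pd2)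
    rfl k0_mm_022_t

noncomputable def cut_mm_101_s : Cut := Cut.of [[⟨4, 0, 0, 1449551462⟩]]

noncomputable def f_mm_101_s : ℕ → ℕ → ℕ → ℕ → Bool := onCell 536870912 536870912 536870912 536870912 1040187392 5207648
    (rowNE 3 eng mog cd0q1 cd0q1 pd0 0 false false false .npn 1 0 1 (qsf 536870912 536870912 536870912 536870912 0) ndB0q1 ndB0q1 pcB0 cut_mm_101_s Ext.none)

def k0_mm_101_s : ∃ t, chk3 f_mm_101_s t 1 1 1 = true :=
  ⟨(l 3), by decide +kernel⟩

theorem c_mm_101_s : CertNE 536870912 536870912 536870912 536870912 1040187392 5207648 3 eng mog cd0q1 cd0q1 pd0 false false false .npn 1 0 1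
    ndB0q1 ndB0q1 pcB0 cut_mm_101_s Ext.none :=
  certNE0 (fam := false) (s1 := false) (s2 := false) (a := 1) (b := 0) (c := 1) (cn := .npn) (n1 := ndB0q1) (n2 := ndB0q1) (pc := pcB0) (cut := cut_mm_101_s) (xt := Ext.none) (P1 := 536870912) (W1 := 536870912) (P2 := 536870912) (W2 := 536870912) (P3 := 1040187392) (W3 := 5207648) (N0 := 3) (En := eng) (mo := mog) (C1 := cd0q1) (C2 := cd0q1) (C3 := pd0)
    rfl k0_mm_101_s

noncomputable def cut_mm_101_t : Cut := Cut.of [[⟨3, 0, 0, 2845415833⟩]]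

noncomputable def f_mm_101_t : ℕ → ℕ → ℕ → ℕ → Bool := onCell 536870912 536870912 536870912 536870912 1040187392 5207648
    (rowNE 3 eng mog cd0q1 cd0q1 pd0 0 false false false .npn 1 0 1 (qsf 536870912 536870912 536870912 536870912 0) ndB0q1 ndB0q1 pcB0 cut_mm_101_t Ext.none)

def k0_mm_101_t : ∃ t, chk3 f_mm_101_t t 1 1 1 = true :=
  ⟨(l 3), by decide +kernel⟩

theorem c_mm_101_t : CertNE 536870912 536870912 536870912 536870912 1040187392 5207648 3 eng mog cd0q1 cd0q1 pd0 false false false .npn 1 0 1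
    ndB0q1 ndB0q1 pcB0 cut_mm_101_t Ext.none :=
  certNE0 (fam := false) (s1 := false) (s2 := false) (a := 1) (b := 0) (c := 1) (cn := .npn) (n1 := ndB0q1) (n2 := ndB0q1) (pc := pcB0) (cut := cut_mm_101_t) (xt := Ext.none) (P1 := 536870912) (W1 := 536870912) (P2 := 536870912) (W2 := 536870912) (P3 := 1040187392) (W3 := 5207648) (N0 := 3) (En := eng) (mo := mog) (C1 := cd0q1) (C2 := cd0q1) (C3 := pd0)
    rfl k0_mm_101_t

noncomputable def cut_mm_102_s : Cut := Cut.of [[⟨4, 0, 0, 1449551462⟩]]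

noncomputable def f_mm_102_s : ℕ → ℕ → ℕ → ℕ → Bool := onCell 536870912 536870912 0 536870912 1040187392 5207648
    (rowNE 3 eng mog cd0q1 cd0q2 pd0 0 false false false .npp 1 0 2 (qsf 536870912 536870912 0 536870912 0) ndB0q1 ndB0q2 pcB0 cut_mm_102_s Ext.none)

def k0_mm_102_s : ∃ t, chk3 f_mm_102_s t 1 1 1 = true :=
  ⟨(a (l 5) (l 3)), by decide +kernel⟩

theorem c_mm_102_s : CertNE 536870912 536870912 0 536870912 1040187392 5207648 3 eng mog cd0q1 cd0q2 pd0 false false false .npp 1 0 2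
    ndB0q1 ndB0q2 pcB0 cut_mm_102_s Ext.none :=
  certNE0 (fam := false) (s1 := false) (s2 := false) (a := 1) (b := 0) (c := 2) (cn := .npp) (n1 := ndB0q1) (n2 := ndB0q2) (pc := pcB0) (cut := cut_mm_102_s) (xt := Ext.none) (P1 := 536870912) (W1 := 536870912) (P2 := 0) (W2 := 536870912) (P3 := 1040187392) (W3 := 5207648) (N0 := 3) (En := eng) (mo := mog) (C1 := cd0q1) (C2 := cd0q2) (C3 := pd0)
    rfl k0_mm_102_s

noncomputable def cut_mm_102_t : Cut := Cut.of [[⟨3, 0, 0, 2845415833⟩]]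

noncomputable def f_mm_102_t : ℕ → ℕ → ℕ → ℕ → Bool := onCell 536870912 536870912 0 536870912 1040187392 5207648
    (rowNE 3 eng mog cd0q1 cd0q2 pd0 0 false false false .npp 1 0 2 (qsf 536870912 536870912 0 536870912 0) ndB0q1 ndB0q2 pcB0 cut_mm_102_t Ext.none)

def k0_mm_102_t : ∃ t, chk3 f_mm_102_t t 1 1 1 = true :=
  ⟨(l 6), by decide +kernel⟩

theorem c_mm_102_t : CertNE 536870912 536870912 0 536870912 1040187392 5207648 3 eng mog cd0q1 cd0q2 pd0 false false false .npp 1 0 2
    ndB0q1 ndB0q2 pcB0 cut_mm_102_t Ext.none :=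
  certNE0 (fam := false) (s1 := false) (s2 := false) (a := 1) (b := 0) (c := 2) (cn := .npp) (n1 := ndB0q1) (n2 := ndB0q2) (pc := pcB0) (cut := cut_mm_102_t) (xt := Ext.none) (P1 := 536870912) (W1 := 536870912) (P2 := 0) (W2 := 536870912) (P3 := 1040187392) (W3 := 5207648) (N0 := 3) (En := eng) (mo := mog) (C1 := cd0q1) (C2 := cd0q2) (C3 := pd0)
    rfl k0_mm_102_t

noncomputable def cut_mm_112_s : Cut := Cut.of [[⟨4, 0, 0, 1449551462⟩]]

noncomputable def f_mm_112_s : ℕ → ℕ → ℕ → ℕ → Bool := onCell 536870912 536870912 0 536870912 1040187392 5207648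
    (rowNE 3 eng mog cd0q1 cd0q2 pd1 2 false false false .dn 1 1 2 (qsf 536870912 536870912 0 536870912 1) ndB0q1 ndB0q2 pcB1 cut_mm_112_s Ext.none)

def k0_mm_112_s : ∃ t, chk3 f_mm_112_s t 1 1 1 = true :=
  ⟨(l 5), by decide +kernel⟩

theorem c_mm_112_s : CertNE 536870912 536870912 0 536870912 1040187392 5207648 3 eng mog cd0q1 cd0q2 pd1 false false false .dn 1 1 2
    ndB0q1 ndB0q2 pcB1 cut_mm_112_s Ext.none :=
  certNE2 (fam := false) (s1 := false) (s2 := false) (a := 1) (b := 1) (c := 2) (cn := .dn) (n1 := ndB0q1) (n2 := ndB0q2) (pc := pcB1) (cut := cut_mm_112_s) (xt := Ext.none) (P1 := 536870912) (W1 := 536870912) (P2 := 0) (W2 := 536870912) (P3 := 1040187392) (W3 := 5207648) (N0 := 3) (En := eng) (mo := mog) (C1 := cd0q1) (C2 := cd0q2) (C3 := pd1)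
    rfl (fun _ => rfl) k0_mm_112_s

noncomputable def cut_mm_112_t : Cut := Cut.of [[⟨3, 0, 0, 2845415833⟩]]

noncomputable def f_mm_112_t : ℕ → ℕ → ℕ → ℕ → Bool := onCell 536870912 536870912 0 536870912 1040187392 5207648
    (rowNE 3 eng mog cd0q1 cd0q2 pd1 0 false false false .dn 1 1 2 (qsf 536870912 536870912 0 536870912 1) ndB0q1 ndB0q2 pcB1 cut_mm_112_t Ext.none)

def k0_mm_112_t : ∃ t, chk3 f_mm_112_t t 1 1 1 = true :=
  ⟨(l 6), by decide +kernel⟩

theorem c_mm_112_t : CertNE 536870912 536870912 0 536870912 1040187392 5207648 3 eng mog cd0q1 cd0q2 pd1 false false false .dn 1 1 2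
    ndB0q1 ndB0q2 pcB1 cut_mm_112_t Ext.none :=
  certNE0 (fam := false) (s1 := false) (s2 := false) (a := 1) (b := 1) (c := 2) (cn := .dn) (n1 := ndB0q1) (n2 := ndB0q2) (pc := pcB1) (cut := cut_mm_112_t) (xt := Ext.none) (P1 := 536870912) (W1 := 536870912) (P2 := 0) (W2 := 536870912) (P3 := 1040187392) (W3 := 5207648) (N0 := 3) (En := eng) (mo := mog) (C1 := cd0q1) (C2 := cd0q2) (C3 := pd1)
    rfl k0_mm_112_t

noncomputable def cut_mm_202_s : Cut := Cut.of [[⟨4, 0, 0, 1449551462⟩]]

noncomputable def f_mm_202_s : ℕ → ℕ → ℕ → ℕ → Bool := onCell 0 536870912 0 536870912 1040187392 5207648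
    (rowNE 3 eng mog cd0q2 cd0q2 pd0 0 false false false .pp 2 0 2 (qsf 0 536870912 0 536870912 0) ndB0q2 ndB0q2 pcB0 cut_mm_202_s Ext.none)

def k0_mm_202_s : ∃ t, chk3 f_mm_202_s t 1 1 1 = true :=
  ⟨(l 3), by decide +kernel⟩

theorem c_mm_202_s : CertNE 0 536870912 0 536870912 1040187392 5207648 3 eng mog cd0q2 cd0q2 pd0 false false false .pp 2 0 2
    ndB0q2 ndB0q2 pcB0 cut_mm_202_s Ext.none :=
  certNE0 (fam := false) (s1 := false) (s2 := false) (a := 2) (b := 0) (c := 2) (cn := .pp) (n1 := ndB0q2) (n2 := ndB0q2) (pc := pcB0) (cut := cut_mm_202_s) (xt := Ext.none) (P1 := 0) (W1 := 536870912) (P2 := 0) (W2 := 536870912) (P3 := 1040187392) (W3 := 5207648) (N0 := 3) (En := eng) (mo := mog) (C1 := cd0q2) (C2 := cd0q2) (C3 := pd0)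
    rfl k0_mm_202_s

noncomputable def cut_mm_202_t : Cut := Cut.of [[⟨3, 0, 0, 2845415833⟩]]

noncomputable def f_mm_202_t : ℕ → ℕ → ℕ → ℕ → Bool := onCell 0 536870912 0 536870912 1040187392 5207648
    (rowNE 3 eng mog cd0q2 cd0q2 pd0 0 false false false .pp 2 0 2 (qsf 0 536870912 0 536870912 0) ndB0q2 ndB0q2 pcB0 cut_mm_202_t Ext.none)

def k0_mm_202_t : ∃ t, chk3 f_mm_202_t t 1 1 1 = true :=
  ⟨(l 3), by decide +kernel⟩

theorem c_mm_202_t : CertNE 0 536870912 0 536870912 1040187392 5207648 3 eng mog cd0q2 cd0q2 pd0 false false false .pp 2 0 2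
    ndB0q2 ndB0q2 pcB0 cut_mm_202_t Ext.none :=
  certNE0 (fam := false) (s1 := false) (s2 := false) (a := 2) (b := 0) (c := 2) (cn := .pp) (n1 := ndB0q2) (n2 := ndB0q2) (pc := pcB0) (cut := cut_mm_202_t) (xt := Ext.none) (P1 := 0) (W1 := 536870912) (P2 := 0) (W2 := 536870912) (P3 := 1040187392) (W3 := 5207648) (N0 := 3) (En := eng) (mo := mog) (C1 := cd0q2) (C2 := cd0q2) (C3 := pd0)
    rfl k0_mm_202_t

end Pool.Agent.Strip051.G.I9688_9736.Tab.CS.BB00

namespace Pool.Agent.Strip051.G.I9688_9736.Tab.CS.BB05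

open Pool.Agent.Strip051.PB Pool.Agent.Strip051.PB.T
open Pool.Agent.Strip051.G.I9688_9736.Tab

noncomputable def cut_pp_001_s : Cut := Cut.of [[⟨4, 0, 0, 1449551462⟩]]

noncomputable def f_pp_001_s : ℕ → ℕ → ℕ → ℕ → Bool := onCell 0 536870912 0 536870912 1040187392 5207648
    (rowNE 3 eng mog cd0q0 cd5q1 pd0 1 false true true .up 0 0 1 (qsf 0 536870912 536870912 536870912 0) ndB0q0 ndB5q1 pcB0 cut_pp_001_s Ext.none)

def k0_pp_001_s : ∃ t, chk3 f_pp_001_s t 1 1 1 = true :=
  ⟨(l 3), by decide +kernel⟩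

theorem c_pp_001_s : CertNE 0 536870912 536870912 536870912 1040187392 5207648 3 eng mog cd0q0 cd5q1 pd0 false true true .up 0 0 1
    ndB0q0 ndB5q1 pcB0 cut_pp_001_s Ext.none :=
  certNE1 (fam := false) (s1 := true) (s2 := true) (a := 0) (b := 0) (c := 1) (cn := .up) (n1 := ndB0q0) (n2 := ndB5q1) (pc := pcB0) (cut := cut_pp_001_s) (xt := Ext.none) (P1 := 0) (W1 := 536870912) (P2 := 536870912) (W2 := 536870912) (P3 := 1040187392) (W3 := 5207648) (N0 := 3) (En := eng) (mo := mog) (C1 := cd0q0) (C2 := cd5q1) (C3 := pd0)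
    rfl (fun _ => rfl) k0_pp_001_s

noncomputable def cut_pp_011_s : Cut := Cut.of [[⟨4, 0, 0, 1449551462⟩], [⟨0, 0, 0, 26843545⟩, ⟨1, 1, 0, 26843545⟩, ⟨2, 1, 0, 26843545⟩]]

noncomputable def f_pp_011_s : ℕ → ℕ → ℕ → ℕ → Bool := onCell 0 536870912 536870912 536870912 1040187392 5207648
    (rowNE 3 eng mog cd0q0 cd5q1 pd1 1 false true true .pnn 0 1 1 (qsf 0 536870912 536870912 536870912 1) ndB0q0 ndB5q1 pcB1 cut_pp_011_s Ext.none)

def k0_pp_011_s : ∃ t, chk3 f_pp_011_s t 1 1 1 = true :=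
  ⟨(b (l 3) (a (b (l 3) (a (b (l 3) (a (b (l 3) (a (a (b (l 3) (l 14)) (l 3)) (l 3))) (l 3))) (l 3))) (l 3))), by decide +kernel⟩

theorem c_pp_011_s : CertNE 0 536870912 536870912 536870912 1040187392 5207648 3 eng mog cd0q0 cd5q1 pd1 false true true .pnn 0 1 1
    ndB0q0 ndB5q1 pcB1 cut_pp_011_s Ext.none :=
  certNE1 (fam := false) (s1 := true) (s2 := true) (a := 0) (b := 1) (c := 1) (cn := .pnn) (n1 := ndB0q0) (n2 := ndB5q1) (pc := pcB1) (cut := cut_pp_011_s) (xt := Ext.none) (P1 := 0) (W1 := 536870912) (P2 := 536870912) (W2 := 536870912) (P3 := 1040187392) (W3 := 5207648) (N0 := 3) (En := eng) (mo := mog) (C1 := cd0q0) (C2 := cd5q1) (C3 := pd1)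
    rfl (fun _ => rfl) k0_pp_011_s

noncomputable def cut_pp_012_s : Cut := Cut.of [[⟨4, 0, 0, 1449551462⟩], [⟨0, 0, 0, 26843545⟩, ⟨1, 1, 0, 26843545⟩, ⟨2, 1, 0, 26843545⟩]]

noncomputable def f_pp_012_s : ℕ → ℕ → ℕ → ℕ → Bool := onCell 0 536870912 536870912 536870912 1040187392 5207648
    (rowNE 3 eng mog cd0q0 cd5q2 pd1 1 false true true .pnp 0 1 2 (qsf 0 536870912 1073741824 536870912 1) ndB0q0 ndB5q2 pcB1 cut_pp_012_s Ext.none)

def k0_pp_012_s : ∃ t, chk3 f_pp_012_s t 1 1 1 = true :=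
  ⟨(b (l 3) (a (b (l 3) (a (b (l 3) (a (a (a (b (l 1) (b (l 3) (l 14))) (l 3)) (l 3)) (l 3))) (l 3))) (l 3))), by decide +kernel⟩

theorem c_pp_012_s : CertNE 0 536870912 1073741824 536870912 1040187392 5207648 3 eng mog cd0q0 cd5q2 pd1 false true true .pnp 0 1 2
    ndB0q0 ndB5q2 pcB1 cut_pp_012_s Ext.none :=
  certNE1 (fam := false) (s1 := true) (s2 := true) (a := 0) (b := 1) (c := 2) (cn := .pnp) (n1 := ndB0q0) (n2 := ndB5q2) (pc := pcB1) (cut := cut_pp_012_s) (xt := Ext.none) (P1 := 0) (W1 := 536870912) (P2 := 1073741824) (W2 := 536870912) (P3 := 1040187392) (W3 := 5207648) (N0 := 3) (En := eng) (mo := mog) (C1 := cd0q0) (C2 := cd5q2) (C3 := pd1)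
    rfl (fun _ => rfl) k0_pp_012_s

noncomputable def cut_pp_022_s : Cut := Cut.of [[⟨4, 0, 0, 1449551462⟩], [⟨0, 0, 0, 22369621⟩, ⟨1, 1, 0, 22369621⟩, ⟨2, 1, 0, 22369621⟩]]

noncomputable def f_pp_022_s : ℕ → ℕ → ℕ → ℕ → Bool := onCell 0 536870912 1073741824 536870912 1040187392 5207648
    (rowNE 3 eng mog cd0q0 cd5q2 pd2 1 false true true .pp 0 2 2 (qsf 0 536870912 1073741824 536870912 2) ndB0q0 ndB5q2 pcB2 cut_pp_022_s Ext.none)

def k0_pp_022_s : ∃ t, chk3 f_pp_022_s t 32 64 1 = true :=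
  ⟨(a (l 14) (b (l 14) (a (l 14) (a (a (l 14) (b (l 3) (b (l 14) (b (b (l 14) (l 16768384)) (l 16766416))))) (b (l 3) (b (a (a (a (l 14) (l 3)) (l 3)) (l 3)) (b (a (a (b (a (b (b (l 14) (l 16771432)) (l 16776192)) (b (b (l 863456198839) (a (a (l 16777064) (l 16777200)) (l 681993830631))) (l 328195897287))) (l 16772912)) (a (b (b (l 3) (b (l 853792522407) (a (l 16777120) (l 654076543207)))) (b (l 321753446311) (l 16776160))) (b (l 3) (b (b (l 831780815015) (a (l 16777104) (l 626159255783))) (l 315310995335))))) (a (a (b (l 3) (b (l 3) (b (l 809232236711) (a (l 16777096) (l 646023479479))))) (l 3)) (l 3))) (a (b (l 16772896) (l 16768304)) (a (b (b (a (l 16776120) (b (l 786683658407) (a (l 16777080) (l 585357066455)))) (l 277730030151)) (l 16770216)) (a (b (b (l 3) (b (l 775409369239) (a (l 16777064) (l 556366037207)))) (l 269676966423)) (b (l 3) (b (b (c (l 750176436375) (l 754471403671)) (a (l 16777056) (l 570324680871))) (l 16775416))))))))))))), by decide +kernel⟩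

def k1_pp_022_s : ∃ t, chk3 f_pp_022_s t 32 65 1 = true :=
  ⟨(a (a (l 14) (b (l 14) (b (a (l 14) (l 16716528)) (l 16699392)))) (b (b (a (a (l 14) (b (l 14) (a (l 14) (b (l 16758120) (l 16754680))))) (b (a (b (a (l 16766432) (l 16768992)) (l 16754520)) (b (a (l 16766312) (b (l 16772160) (l 16768216))) (a (l 16768872) (l 16766208)))) (a (a (b (l 16760864) (l 16757984)) (l 16762176)) (a (l 16754288) (l 16762128))))) (a (a (l 16726744) (b (l 16747760) (l 16740896))) (a (b (a (l 16753224) (b (l 16757784) (l 16754912))) (l 16747968)) (b (b (l 16761904) (l 16758992)) (a (b (l 16754704) (l 16751640)) (l 16755840)))))) (a (b (a (l 16723544) (l 16730560)) (l 16692296)) (b (a (l 16716600) (b (a (l 16746312) (l 16739432)) (l 16741088))) (a (l 16723656) (l 16730584)))))), by decide +kernel⟩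

def k2_pp_022_s : ∃ t, chk3 f_pp_022_s t 33 64 1 = true :=
  ⟨(a (b (l 3) (b (l 3) (a (b (l 3) (a (b (l 3) (a (a (a (b (l 3) (b (l 3) (b (c (l 727090987159) (l 730849083543)) (a (l 16777040) (l 539723038887))))) (l 3)) (l 3)) (l 3))) (l 3))) (l 3)))) (l 3)), by decide +kernel⟩

def k3_pp_022_s : ∃ t, chk3 f_pp_022_s t 132 520 1 = true :=
  ⟨(a (b (a (a (b (a (l 16773760) (b (b (a (l 524153782439) (l 3)) (a (l 16777024) (l 508584525991))) (l 16774072))) (l 16770144)) (a (b (b (l 3) (b (a (l 493015269543) (l 3)) (a (l 16777008) (l 477446013095)))) (l 16773728)) (b (l 3) (b (b (a (l 461876756647) (l 3)) (a (l 16776992) (l 446307500199))) (l 16771416))))) (a (a (b (l 3) (b (l 3) (b (a (l 430201372839) (l 3)) (a (l 16776976) (l 425369534615))))) (l 3)) (l 3))) (a (b (l 16772080) (l 16768120)) (a (a (l 231559128823) (b (b (b (a (l 419463954567) (l 3)) (a (l 16776960) (l 383493603495))) (l 16776632)) (l 16775632))) (a (b (b (l 3) (b (a (l 377051152535) (l 3)) (a (l 16776944)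 (l 386714828903)))) (l 16771032)) (b (l 3) (b (b (a (l 425906405367) (l 3)) (a (l 16776928) (l 412484632551))) (l 16771352))))))) (b (l 3) (a (a (a (b (l 3) (b (l 3) (b (a (l 390472925159) (l 3)) (a (l 16776912) (l 16777192))))) (l 3)) (l 3)) (l 3)))), by decide +kernel⟩

def k4_pp_022_s : ∃ t, chk3 f_pp_022_s t 132 521 1 = true :=
  ⟨(a (b (a (l 16766096) (b (l 16771992) (l 16768024))) (a (l 16768608) (l 16765984))) (b (a (b (a (b (b (a (l 16771496) (a (l 16777184) (l 3))) (l 331953993143)) (l 16770984)) (a (b (l 960092963079) (b (a (l 16777176) (l 796347334903)) (l 16777016))) (l 943449964935))) (a (l 16769976) (b (b (a (l 16776704) (a (l 16777160) (l 745881469175))) (l 319069091191)) (l 16770944)))) (a (b (l 3) (a (b (l 925196353783) (b (a (l 16777144) (l 708837376247)) (l 16776984))) (l 919827644791))) (l 3))) (a (b (l 16769280) (l 16767920)) (b (a (b (b (a (l 16776664) (a (l 16777128) (l 689510023399))) (l 16775336)) (l 16770904)) (b (a (l 877414842599) (l 3))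 (a (b (c (l 441475660487) (l 444160015047)) (l 16776944)) (l 854329393383)))) (b (b (a (l 16775640) (a (l 16776624) (c (l 420537693575) (l 417316469431)))) (l 242833417927)) (l 16770200)))))), by decide +kernel⟩

def k5_pp_022_s : ∃ t, chk3 f_pp_022_s t 132 261 1 = true :=
  ⟨(a (b (b (l 16761912) (l 16764360)) (l 16749616)) (b (b (a (l 16760616) (a (l 16767840) (l 16769160))) (a (l 16768328) (l 16760496))) (b (l 16756368) (l 16764008)))), by decide +kernel⟩

def k6_pp_022_s : ∃ t, chk3 f_pp_022_s t 133 130 1 = true :=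
  ⟨(b (b (l 3) (a (b (l 3) (a (b (l 3) (a (b (l 1023443730391) (a (b (l 388325440167) (l 16776912)) (l 1035791761159))) (l 3))) (l 3))) (l 3))) (a (b (b (a (b (a (a (l 16770824) (a (l 16771320) (b (l 350207605399) (l 16776552)))) (b (l 1050824145911) (a (a (l 16776880) (l 315310996119)) (l 1004116376807)))) (b (b (a (l 16775544) (a (l 16776536) (l 294909900135))) (l 16773240)) (l 16770112))) (b (l 3) (a (b (l 1027201824983) (a (a (l 16776840) (l 249275872615)) (l 972977863511))) (l 3)))) (a (l 16771008) (b (a (b (c (l 337322701447) (l 336785830519)) (l 16770720)) (b (l 1004116375127) (a (a (l 16776792) (l 186998849415)) (l 942376221271)))) (a (l 16774936) (a (l 16770688) (l 322827186711)))))) (b (a (l 16760360) (l 16770896)) (l 16764128))) (b (b (l 3) (a (b (l 3) (b (l 1023443729623) (a (a (l 16776896) (l 912311450039)) (l 3)))) (l 3))) (b (a (a (b (l 286856833879) (l 16774824)) (b (a (b (l 897279064471) (l 16776848)) (l 949892412103)) (l 276656286455))) (a (b (l 3)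 (b (l 937007510055) (a (l 16776808) (a (l 775409368103) (l 1025591211495))))) (l 3))) (a (l 16768160) (b (a (l 16773488) (b (l 915532673463) (a (l 16776760) (a (l 404968439751) (l 697026216247))))) (l 16772768))))))), by decide +kernel⟩

def k7_pp_022_s : ∃ t, chk3 f_pp_022_s t 66 131 1 = true :=
  ⟨(b (a (a (b (a (l 16752656) (l 16755640)) (a (l 16746472) (l 16749432))) (b (l 16749200) (l 16753784))) (a (b (b (l 16756040) (l 16763640)) (l 16759232)) (b (b (a (l 16770576) (l 16768032)) (l 16763824)) (b (l 16755680) (l 16763224))))) (a (a (l 16737536) (b (a (l 16746136) (l 16748864)) (l 16730640))) (b (a (l 16753224) (l 16758728)) (a (l 16736248) (l 16752624))))), by decide +kernel⟩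

def k8_pp_022_s : ∃ t, chk3 f_pp_022_s t 67 130 1 = true :=
  ⟨(b (l 3) (a (b (l 3) (a (b (l 3) (a (a (b (l 3) (b (l 895131581415) (a (l 16776720) (a (l 344302026647) (l 617032450391))))) (l 3)) (l 3))) (l 3))) (l 3))), by decide +kernel⟩

def k9_pp_022_s : ∃ t, chk3 f_pp_022_s t 134 131 1 = true :=
  ⟨(b (b (a (b (a (a (l 16772680) (b (b (l 875267357735) (a (l 16776664) (l 769503787879))) (l 16770712))) (b (l 3) (a (a (b (l 749102692887) (l 16776616)) (c (l 849497553415) (l 844128844471))) (l 3)))) (a (l 16767904) (a (l 16769944) (b (a (a (l 16774104) (b (l 870972390759) (l 16776736))) (a (b (l 3) (l 16777040)) (l 918753898055))) (l 16770592))))) (b (l 3) (a (a (b (l 3) (b (b (l 909627092695) (a (l 16777016) (l 1047066046263))) (a (l 16776504) (a (l 16776992) (l 524690653143))))) (l 1042234204983)) (l 3)))) (a (b (a (l 16770264) (l 16767760)) (l 16763480)) (b (a (a (l 16769816) (b (b (b (l 884931031031) (l 738365274455)) (l 379198632967)) (l 16765232))) (b (l 1016464400951)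 (a (b (a (l 346986380567) (l 975125343111)) (l 364166247335)) (l 993378947783)))) (a (l 16767616) (b (a (l 16765168) (a (l 352891957943) (b (l 943986830583) (l 16776976)))) (l 16769656)))))) (b (a (a (l 16762872) (l 16755168)) (b (a (l 16769936) (l 16767480)) (l 16757888))) (a (l 16758216) (l 16758640)))), by decide +kernel⟩

def k10_pp_022_s : ∃ t, chk3 f_pp_022_s t 135 131 1 = true :=
  ⟨(b (b (l 3) (a (b (l 3) (a (a (b (l 976199078823) (a (l 337322701383) (b (l 913385189031) (l 16776920)))) (b (l 3) (l 959019209927))) (l 3))) (l 3))) (b (a (b (a (b (b (a (l 16775888) (a (l 16776896) (l 616495579447))) (l 255181446087)) (l 16769528)) (a (b (l 941839351575) (a (l 16771248) (b (l 549923586391) (l 16776816)))) (b (l 3) (l 925196348487)))) (a (l 16762088) (b (a (l 16764912) (a (l 16771184) (b (l 526838137079) (l 16776760)))) (l 16764152)))) (b (l 3) (a (b (a (l 908553350679) (l 3)) (b (a (a (l 16776728) (l 811379719063)) (l 3)) (a (l 16776352) (l 853255645767)))) (l 3))))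 (a (b (a (l 16769624) (l 16761944)) (l 16757560)) (b (a (a (l 16764040) (a (l 16770328) (b (b (l 471003561911) (l 16776632)) (l 16775544)))) (b (a (a (l 835538906135) (l 3)) (l 3)) (b (a (a (l 16776600) (l 378661757591)) (l 3)) (a (l 16776224) (l 811916586807))))) (a (l 16761800) (a (l 16763904) (a (l 16770192) (b (l 398525985927) (l 16775400))))))))), by decide +kernel⟩

def k11_pp_022_s : ∃ t, chk3 f_pp_022_s t 16 33 1 = true :=
  ⟨(a (a (b (a (b (a (l 16664040) (l 16668600)) (a (l 16638184) (l 16641176))) (b (b (l 16685696) (l 16671928)) (l 16651160))) (a (b (l 16613528) (l 16587224)) (b (l 16623240) (l 16595024)))) (b (b (a (b (l 16699400) (l 16685472)) (b (l 16713104) (l 16699016))) (a (l 16664464) (l 16656752))) (b (a (l 16636176) (l 16649256)) (l 16614328)))) (b (a (b (a (b (l 16705824) (l 16712536)) (b (a (b (a (l 16739080) (l 16742000)) (l 16733480)) (b (l 16746416) (l 16739808))) (a (l 16722736) (b (l 16733432) (l 16726040))))) (a (b (l 16698256) (l 16683984))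 (b (l 16711872) (l 16697648)))) (b (b (a (b (a (l 16752056) (l 16757800)) (l 16738240)) (b (a (l 16753040) (b (l 16765480) (l 16757240))) (a (l 16757424) (l 16752704)))) (a (a (b (l 16739216) (l 16733048)) (l 16721064)) (a (l 16727192) (b (l 16757088) (l 16750944))))) (a (b (a (l 16722400) (b (l 16732616) (l 16726280))) (l 16711872)) (b (a (b (l 16738856) (l 16732320)) (l 16741712)) (a (b (l 16726288) (l 16719288)) (b (l 16732360) (l 16726160))))))) (a (b (a (l 16662584) (l 16676440)) (a (l 16634336) (l 16648504))) (b (a (l 16669936) (b (l 16691912) (l 16698864))) (a (l 16663304) (l 16678520)))))), by decide +kernel⟩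

def k12_pp_022_s : ∃ t, chk3 f_pp_022_s t 17 32 1 = true :=
  ⟨(b (l 3) (a (a (b (l 3) (b (l 3) (a (b (l 3) (a (b (l 3) (a (a (a (b (l 794736719431) (l 16765616)) (b (l 994989560871) (l 380272374711))) (b (l 3) (a (l 789368011095) (l 963314177719)))) (l 3))) (l 3))) (l 3)))) (l 3)) (l 3))), by decide +kernel⟩

def k13_pp_022_s : ∃ t, chk3 f_pp_022_s t 68 66 1 = true :=
  ⟨(b (b (a (b (a (b (a (a (l 16763752) (b (l 327122152887) (l 16774904))) (b (a (b (l 952039889079) (l 753934530743)) (l 3)) (a (l 229411639159) (b (l 929491311495) (l 722259146695))))) (a (l 16761496) (b (l 259476413367) (l 16763568)))) (b (l 3) (a (a (b (a (a (l 366313727927) (l 788831140407)) (l 897815928615)) (l 16770904)) (b (l 3) (a (a (l 352891960103) (l 752323918279)) (l 875804221991)))) (l 3)))) (b (a (l 16765168) (a (l 252497089751) (a (b (a (b (l 844665715687) (l 16776752)) (l 854329386311)) (l 16770760)) (b (l 3) (a (b (l 797957946263) (l 16776680)) (l 832317679735)))))) (a (l 16756920)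 (a (l 16771672) (l 16769248))))) (a (b (l 3) (b (l 3) (a (b (a (a (l 571935290679) (l 810842844087)) (l 3)) (a (l 16765368) (a (l 538112423015) (l 789368008471)))) (b (l 3) (l 974051582727))))) (l 3))) (a (b (a (l 16752392) (a (l 16756696) (l 16764776))) (a (l 16756800) (l 16741608))) (b (a (a (a (l 16766896) (l 16769616)) (b (a (b (a (l 383493600215) (b (l 948281795255) (l 16777072))) (l 16765208)) (b (l 946671174919) (a (l 16776696) (b (l 445233734247) (l 16777008))))) (l 16768928))) (b (a (b (l 3) (l 937007512551)) (l 3)) (a (a (a (l 16771968) (b (b (l 434496317911) (l 16776944)) (l 16775872))) (b (l 910700825639) (a (l 16776552) (b (l 927343836519) (l 16776872))))) (b (l 3) (a (l 892984086487) (l 3)))))) (a (b (l 16759296) (l 16766784)) (b (a (l 16763520) (a (a (l 16770496) (b (b (l 565492842775) (l 16776800)) (l 16775704))) (b (l 874730476423) (a (l 16776392) (l 612737480183))))) (a (l 16771032) (l 16763352))))))) (b (a (b (l 16743112) (l 16747512)) (b (a (l 16762272)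 (l 16761408)) (a (l 16756240) (l 16761976)))) (a (l 16717432) (b (l 16732128) (l 16747104))))), by decide +kernel⟩

def k14_pp_022_s : ∃ t, chk3 f_pp_022_s t 69 66 1 = true :=
  ⟨(b (b (l 3) (a (a (b (l 3) (b (a (b (l 3) (a (l 857013737303) (l 3))) (l 3)) (a (a (a (l 16770336) (b (l 576230258023) (l 16775536))) (b (l 839297003431) (a (l 16776232) (l 537575552055)))) (b (l 3) (a (l 821580264327) (l 3)))))) (l 3)) (l 3))) (b (a (b (a (b (a (l 16763184) (b (a (l 227264154775) (l 803863525223)) (l 245517766055))) (l 16766856)) (b (a (a (b (l 3) (c (l 786146783783) (l 784536170519))) (l 3)) (l 3)) (a (b (a (l 16771048) (c (l 768430044647) (l 767893173319))) (l 16770280)) (b (l 3) (a (a (a (l 586967676743) (l 384567326503)) (l 853255643223)) (l 3)))))) (a (l 16762408) (b (a (l 16762832) (a (l 16770144) (b (b (l 839297000295) (l 354502557639)) (l 16765544)))) (l 16766520)))) (b (l 3) (a (b (a (a (b (l 3) (a (l 484962195863) (l 806011005079))) (l 3)) (l 3)) (a (b (b (a (l 16776304)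 (a (l 16771256) (l 3))) (l 309405409255)) (l 16764680)) (b (l 3) (a (a (l 16771568) (a (l 379198618631) (l 417316448375))) (l 927343822087))))) (l 3)))) (a (b (a (l 16761696) (l 16756848)) (l 16748120)) (b (a (b (a (l 16762480) (b (a (l 16765272) (a (l 16776728) (a (l 541870512567) (l 406042160967)))) (l 16764496))) (l 16760928)) (b (a (b (l 905332108327) (a (a (l 16776648) (a (l 511805742519) (l 394767873383))) (l 879562313191))) (l 3)) (a (a (l 16764352) (a (l 16770600) (b (l 364166232919) (l 16775808)))) (b (a (l 860234961511) (l 3)) (a (c (l 444160006247) (l 331953979255)) (l 841444480727)))))) (a (l 16756544) (b (a (l 16762128) (a (l 16764168) (b (l 324437788455) (l 16775280)))) (l 16760584))))))), by decide +kernel⟩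

def k15_pp_022_s : ∃ t, chk3 f_pp_022_s t 34 67 1 = true :=
  ⟨(a (b (a (b (a (b (l 16726088) (l 16720224)) (l 16729120)) (a (l 16709984) (l 16706864))) (b (l 16738208) (a (l 16723232) (l 16729560)))) (a (l 16693688) (b (a (l 16711768) (l 16718024)) (l 16702376)))) (b (b (a (a (l 16746912) (l 16731664)) (b (a (l 16761192) (l 16756248)) (l 16747712))) (a (l 16738264) (a (l 16746816) (l 16752432)))) (a (b (l 16727208) (a (l 16713344) (l 16719296))) (b (l 16738592) (l 16728144))))), by decide +kernel⟩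

def k16_pp_022_s : ∃ t, chk3 f_pp_022_s t 35 66 1 = true :=
  ⟨(b (l 3) (a (b (l 3) (a (b (l 3) (a (b (a (b (a (l 822117129047) (l 3)) (a (l 225653542103) (l 803326648279))) (l 3)) (a (l 256792054711) (b (a (l 783999296583) (l 3)) (a (l 16776392) (l 764671944903))))) (l 3))) (l 3))) (l 3))), by decide +kernel⟩

def k17_pp_022_s : ∃ t, chk3 f_pp_022_s t 70 67 1 = true :=
  ⟨(b (b (a (a (b (b (b (l 271824440615) (l 16762400)) (l 16760248)) (l 16755960)) (b (b (a (b (a (l 745881464119) (l 3)) (a (l 16776208) (a (l 356650042055) (l 817822164023)))) (l 3)) (a (l 16769496) (b (a (a (l 484962197079) (l 411410867767)) (l 3)) (a (l 16776008) (a (l 16771672) (l 399599709207)))))) (b (l 16767984) (l 16759912)))) (b (l 3) (a (b (a (b (a (a (l 16776832) (l 388862292775)) (l 899426535703)) (a (l 16765320) (a (l 16776744) (l 377588005287)))) (b (l 3) (l 876877951687))) (a (l 16763864) (a (b (l 339470171831) (l 16775600)) (b (l 848960672471) (l 330343367799))))) (b (l 3) (a (b (l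 3) (l 847886925015)) (l 3)))))) (a (b (a (l 16760768) (l 16755688)) (l 16747416)) (a (b (b (l 16767616) (l 16759584)) (l 16744952)) (b (b (a (a (l 298131114167) (b (l 807621614727) (l 16771376))) (b (l 3) (a (l 787220521287) (l 3)))) (a (l 16763472) (b (a (l 16776520) (l 766819427863)) (l 16770560)))) (b (l 16762008) (l 16759272)))))) (a (b (l 16736592) (l 16739232)) (b (a (l 16736800) (b (l 16744720) (l 16760360))) (l 16739496)))), by decide +kernel⟩

def k18_pp_022_s : ∃ t, chk3 f_pp_022_s t 71 67 1 = true :=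
  ⟨(b (b (l 3) (a (b (a (b (l 3) (a (b (l 3) (a (l 746418334423) (l 3))) (l 3))) (l 3)) (a (b (a (a (l 16770408) (a (l 315847853271) (b (l 428053866023) (l 16776536)))) (b (l 3) (b (l 832317672663) (l 736217789159)))) (a (l 16763088) (a (l 16764960) (a (l 16771088) (b (l 403357807367) (l 16776328)))))) (b (l 3) (a (b (l 3) (a (l 356113168471) (l 883857279895))) (l 3))))) (l 3))) (b (a (b (a (l 16765552) (a (a (l 16763424) (b (b (l 346449493927) (l 16775800)) (l 16773816))) (b (b (l 858624341895) (a (l 336248948071) (l 830707062215))) (l 286319953559)))) (a (l 16765488) (l 16765240))) (b (a (b (l 3) (a (b (l 828022702599) (a (l 16771488) (l 786683649991))) (l 3))) (l 3)) (a (b (a (l 16772784) (b (l 796884192343) (a (l 16776536) (l 397989094535)))) (l 255718312039)) (b (l 3) (a (a (b (l 387251677879) (l 16776336)) (b (l 3) (l 376514261527))) (l 3)))))) (a (a (l 16736784) (b (l 16765320) (l 16760280))) (b (a (l 16764952) (b (a (l 16764528) (b (a (l 365776844839) (l 3))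 (a (l 16776120) (l 354502557383)))) (l 16768416))) (a (l 16765176) (l 16759440)))))), by decide +kernel⟩

def k19_pp_022_s : ∃ t, chk3 f_pp_022_s t 8 17 1 = true :=
  ⟨(a (a (b (a (b (a (l 16548304) (l 16552960)) (a (l 16497296) (l 16499216))) (b (b (l 16585936) (l 16557976)) (l 16516768))) (a (b (l 16449000) (l 16403192)) (b (l 16463760) (l 16415320)))) (b (b (a (b (l 16613640) (l 16586320)) (b (l 16623008) (l 16617656))) (a (l 16525480) (b (l 16591992) (l 16567080)))) (b (a (l 16495456) (l 16531304)) (a (l 16447672) (l 16487008))))) (b (b (a (a (b (a (l 16667592) (l 16683288)) (l 16629456)) (b (a (b (l 16684400) (l 16692888)) (b (a (l 16715200) (l 16721272)) (a (l 16704848) (l 16711872)))) (a (l 16675072) (l 16691456)))) (b (a (b (a (l 16729504) (l 16740208)) (a (l 16720400) (l 16731440))) (b (a (a (l 16747976) (l 16753024)) (b (a (l 16760304) (l 16765072)) (l 16737072))) (a (l 16741760) (l 16741152)))) (a (a (b (a (l 16709088) (l 16715296)) (l 16702552)) (b (l 16723808)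 (a (l 16713688) (l 16719672)))) (a (l 16720344) (b (l 16744184) (l 16737952)))))) (a (a (b (l 16626216) (l 16602904)) (b (l 16639888) (l 16639472))) (a (b (a (l 16686776) (b (l 16708800) (l 16699120))) (a (l 16667056) (l 16685464))) (b (a (b (l 16721664) (l 16694832)) (b (l 16732640) (l 16727760))) (a (l 16703224) (b (l 16701864) (l 16715880))))))) (a (b (a (l 16548848) (b (l 16619240) (l 16600584))) (a (l 16530376) (l 16573888))) (b (a (b (l 16658440) (l 16641136)) (b (l 16674008) (l 16678224))) (a (l 16595368) (l 16632256)))))), by decide +kernel⟩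

def k20_pp_022_s : ∃ t, chk3 f_pp_022_s t 9 16 1 = true :=
  ⟨(a (b (l 3) (a (b (l 3) (a (b (l 3) (a (b (l 3) (b (a (b (a (l 866677398855) (l 3)) (a (b (a (l 343765140743) (l 833928287207)) (l 302426081559)) (l 829633308775))) (l 3)) (a (b (a (l 16764128) (b (a (l 16771608) (l 787757391415)) (l 16770968))) (l 16762816)) (b (a (b (l 3) (l 790978612391)) (l 3)) (a (b (a (l 16776656) (l 402820934039)) (l 16776016)) (b (l 3) (l 758229489415))))))) (l 3))) (l 3))) (l 3))) (l 3)), by decide +kernel⟩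

def k21_pp_022_s : ∃ t, chk3 f_pp_022_s t 36 68 1 = true :=
  ⟨(b (a (b (a (b (a (l 16759200) (a (l 16762552) (a (l 16772048) (b (a (l 16771376) (l 346449491415)) (l 16774584))))) (a (l 16765048) (l 16759040))) (b (a (b (a (a (l 730312206567) (l 3)) (l 3)) (a (b (l 315847852295) (l 16775608)) (b (l 3) (a (l 342154529079) (l 821043385927))))) (l 3)) (a (a (l 16762280) (b (l 278803762119) (l 16773744))) (b (a (b (l 806547867143) (a (l 16776888) (l 768430039159))) (l 3)) (a (l 16770504) (b (l 768966905959) (c (l 335712071639) (l 334638329639)))))))) (a (b (a (l 16760736) (l 16765256)) (l 16748584)) (a (b (l 16759000) (l 16765488)) (b (b (l 232632865223) (l 16761960)) (l 16758888))))) (b (l 3) (a (b (a (b (a (b (l 731385944743) (l 312089754679)) (l 3)) (a (l 16775368) (b (l 693804983511) (l 16770144)))) (b (l 3) (a (l 837686372951) (l 3)))) (a (a (l 16761752) (l 16763648)) (b (a (b (l 656224022247) (l 16776504)) (l 811379701047)) (a (l 16754008) (b (l 326585265479) (l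 16776304)))))) (b (l 3) (a (b (l 3) (a (l 785073029111) (l 3))) (l 3)))))) (a (a (b (a (l 16751376) (l 16755816)) (l 16747232)) (b (a (l 16759928) (l 16753176)) (l 16734200))) (b (a (b (a (l 16769216) (l 16767640)) (a (l 16765496) (l 16769064))) (b (a (b (a (l 272898177079) (l 713669200535)) (l 234243473207)) (b (l 3) (a (l 683604432167) (l 3)))) (a (l 16762104) (b (a (l 16776160) (l 654076534679)) (l 16764624))))) (a (b (l 16742800) (l 16760472)) (b (a (l 16768920) (l 16751344)) (l 16756656)))))), by decide +kernel⟩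

def k22_pp_022_s : ∃ t, chk3 f_pp_022_s t 37 68 1 = true :=
  ⟨(b (l 3) (a (b (a (b (l 3) (a (b (l 3) (a (l 624011766247) (l 3))) (l 3))) (l 3)) (a (b (a (b (a (l 16775768) (l 305647293159)) (l 16753776)) (b (l 3) (a (l 290614911191) (l 810842830055)))) (a (l 16751072) (l 226727274087))) (b (l 3) (a (b (l 796347308919) (l 595557609047)) (l 3))))) (l 3))), by decide +kernel⟩

def k23_pp_022_s : ∃ t, chk3 f_pp_022_s t 18 69 1 = true :=
  ⟨(a (a (b (a (l 16718448) (b (l 16749352) (l 16744288))) (a (b (l 16732944) (l 16728248)) (l 16737848))) (b (b (a (l 16755936) (l 16751848)) (a (l 16750552) (l 16756616))) (a (l 16743704) (l 16749336)))) (b (a (b (b (a (l 16759736) (a (l 16774888) (b (l 691657486823) (l 281488097527)))) (a (l 16746016) (l 16767792))) (a (l 16741544) (l 16757808))) (b (a (b (l 3) (a (b (l 654613399543) (l 16755648)) (l 3))) (l 3)) (a (b (a (l 16753216) (l 277729991079)) (l 16751472)) (b (l 799031659783) (a (l 260550128487) (l 764135052583)))))) (a (a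 (l 16733792) (b (l 16762624) (l 16757608))) (a (b (l 16747024) (l 16762648)) (b (b (l 221895427207) (l 16750880)) (l 16746680)))))), by decide +kernel⟩

def k24_pp_022_s : ∃ t, chk3 f_pp_022_s t 19 34 1 = true :=
  ⟨(b (l 3) (a (b (l 3) (a (b (a (b (l 760376966519) (a (l 16775800) (l 628306723559))) (l 3)) (a (l 16772680) (b (l 635286035143) (l 16755264)))) (l 3))) (l 3))), by decide +kernel⟩

def k25_pp_022_s : ∃ t, chk3 f_pp_022_s t 9 35 1 = true :=
  ⟨(a (a (b (a (b (a (l 16697328) (b (l 16731744) (l 16726560))) (l 16687024)) (b (a (l 16735816) (l 16741376)) (a (l 16704712) (l 16712264)))) (a (l 16640880) (b (l 16694040) (l 16697608)))) (b (a (b (l 16738232) (l 16720344)) (b (b (l 16739272) (l 16734808)) (l 16728752))) (a (b (b (l 16714032) (l 16708872)) (l 16718648)) (b (l 16741816) (l 16731888))))) (b (a (b (a (a (l 16743792) (b (l 16751040) (l 16766800))) (b (a (a (l 16754648) (l 584820184263)) (l 778093666823)) (a (l 16750344) (l 240685881207)))) (a (l 16736816)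 (a (l 16742888) (l 16768040)))) (b (a (b (l 3) (a (l 751787004903) (l 3))) (l 3)) (a (b (a (l 16754088) (l 619179902311)) (l 16756216)) (b (l 3) (l 612200565415))))) (a (a (l 16744456) (a (l 16728336) (l 16731440))) (a (b (l 16763728) (l 16731576)) (b (l 211694828807) (l 16761216)))))), by decide +kernel⟩

def k26_pp_022_s : ∃ t, chk3 f_pp_022_s t 5 8 1 = true :=
  ⟨(b (l 3) (a (b (l 3) (a (b (l 3) (a (a (b (l 710447968343) (l 16770448)) (b (l 3) (l 555292270807))) (l 3))) (l 3))) (l 3))), by decide +kernel⟩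

def k27_pp_022_s : ∃ t, chk3 f_pp_022_s t 4 9 1 = true :=
  ⟨(a (a (b (b (a (a (l 16341712) (b (l 16372408) (l 16336136))) (b (a (l 16403768) (l 16447920)) (a (l 16365856) (l 16412264)))) (a (a (l 16276992) (l 16295696)) (b (a (l 16334976) (l 16380064)) (a (l 16311528) (l 16349368))))) (b (a (a (l 16229560) (l 16256016)) (b (l 16308568) (l 16289192))) (a (l 16209568) (l 16264440)))) (b (b (a (b (a (l 16494312) (l 16540848)) (a (l 16461648) (l 16508128))) (b (a (l 16583280) (l 16619952)) (l 16506416))) (a (b (l 16453120) (l 16420736)) (b (l 16535640) (l 16501128)))) (b (a (b (l 16387872) (l 16357208)) (b (l 16465456) (l 16427224))) (a (b (l 16330088) (l 16306120)) (b (l 16389072) (l 16352080)))))) (b (a (b (a (b (a (l 16648952) (l 16671376)) (a (l 16614376) (l 16635440))) (b (a (l 16670168) (b (l 16718512) (l 16699200))) (a (l 16653464) (l 16668760)))) (a (a (l 16539256) (l 16535488)) (b (l 16599768) (l 16579360)))) (b (a (b (a (b (l 16707696) (l 16693232)) (a (l 16705736)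 (l 16730336))) (a (l 16683256) (l 16655680))) (b (b (l 16724160) (l 16712800)) (a (b (l 16717544) (l 16703240)) (l 16720840)))) (a (b (l 16647872) (l 16605768)) (b (a (l 16672864) (l 16670736)) (l 16640552))))) (a (b (a (b (l 16511104) (l 16470488)) (l 16494832)) (a (l 16408208) (l 16433592))) (b (a (l 16501096) (b (l 16599024) (l 16557824))) (a (l 16460928) (l 16496248)))))), by decide +kernel⟩

def k28_pp_022_s : ∃ t, chk3 f_pp_022_s t 5 9 1 = true :=
  ⟨(b (a (b (a (b (a (b (l 16763744) (l 16731488)) (b (a (l 16714184) (l 739438933015)) (l 16728344))) (a (l 16714616) (l 16753512))) (b (a (b (l 3) (l 708837282199)) (l 3)) (a (b (l 220821579335) (l 16765064)) (b (l 3) (l 244980739831))))) (a (b (a (b (l 16718144) (l 16683888)) (l 16731120)) (a (l 16637592) (l 16664288))) (b (a (l 16727440) (l 16743984)) (a (l 16726176) (l 16721864))))) (b (l 3) (a (b (a (l 234780163511) (l 691120498679)) (a (l 16758768) (l 16711064))) (b (l 3) (a (l 381345900775) (l 3)))))) (a (b (a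 (b (a (l 16638312) (l 16654176)) (l 16574440)) (b (a (l 16680232) (l 16720760)) (a (l 16648280) (l 16674328)))) (a (b (l 16575856) (l 16535584)) (b (l 16603672) (l 16605808)))) (b (a (b (l 16736552) (l 16701912)) (b (a (l 16766736) (l 16703864)) (l 16752312))) (a (b (a (l 16667320) (l 16707616)) (a (l 16652104) (l 16679712))) (b (l 16730704) (l 16692832)))))), by decide +kernel⟩

def k29_pp_022_s : ∃ t, chk3 f_pp_022_s t 2 5 1 = true :=
  ⟨(a (a (b (b (b (a (a (l 16181248) (l 16230760)) (a (l 16279304) (b (l 16321504) (l 16301064)))) (a (b (a (l 16162992) (l 16209912)) (b (l 16180384) (a (l 16159352) (l 16205088)))) (b (l 16273768) (b (l 16267664) (l 16207696))))) (a (a (l 16097496) (l 16139704)) (l 16082520))) (a (b (l 15985144) (l 15856096)) (b (l 16080000) (l 15955032)))) (b (b (b (a (a (b (l 16348744) (l 16317640)) (b (l 16373624) (l 16334120))) (a (l 16380128) (l 16415368))) (a (b (a (l 16300136) (l 16305688)) (b (l 16300056) (a (l 16299328) (l 16301536)))) (b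 (a (l 16323352) (l 16356264)) (b (l 16296968) (b (l 16315608) (l 16318792)))))) (a (a (l 16238880) (l 16242424)) (l 16154256))) (a (b (l 16057760) (l 16013344)) (b (l 16151584) (l 16066440))))) (b (b (b (a (a (b (l 16495520) (l 16455528)) (b (l 16566248) (l 16526592))) (a (b (l 16628016) (l 16589120)) (b (a (l 16668768) (l 16690408)) (l 16643176)))) (a (b (a (l 16415176) (l 16486232)) (b (a (l 16384696) (l 16455304)) (a (b (l 16370728) (a (l 16351672) (l 16378976))) (b (l 16438032) (l 16428056))))) (b (a (l 16549288) (l 16604424)) (b (a (l 16518448) (l 16574200)) (b (a (l 16500856) (l 16556704)) (a (l 16489688) (l 16545448))))))) (a (a (l 16293760) (l 16381056)) (a (l 16445376) (l 16502688)))) (a (b (a (l 16226184) (l 16301792)) (l 16088176)) (b (a (l 16369376) (l 16428960)) (l 16248296))))), by decide +kernel⟩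

def k30_pp_022_s : ∃ t, chk3 f_pp_022_s t 2 3 1 = true :=
  ⟨(b (b (a (a (a (b (l 15730640) (l 15618664)) (b (l 15846328) (l 15764872))) (a (b (l 15930648) (l 15864968)) (l 15944592))) (a (b (l 16126680) (l 16066200)) (a (l 16205568) (l 16161128)))) (a (a (l 6) (a (l 15782736) (l 15853096))) (b (a (l 16010472) (l 16097320)) (l 6)))) (l 6)), by decide +kernel⟩

def k31_pp_022_s : ∃ t, chk3 f_pp_022_s t 3 1 1 = true :=
  ⟨(b (b (b (l 3) (a (b (l 3) (a (b (a (b (l 657834504695) (l 201494186855)) (l 3)) (a (b (l 16757552) (l 16736192)) (b (l 16682680) (l 16760504)))) (b (l 3) (a (b (l 3) (l 16724576)) (l 3))))) (l 3))) (a (b (b (b (a (a (b (l 16713768) (l 16687424)) (b (l 16739376) (l 16717384))) (a (b (l 16761208) (l 16740296)) (b (l 16771136) (l 16759664)))) (b (a (a (l 16651680) (l 16669704)) (a (l 16718000) (l 16738960))) (b (a (a (l 16622616) (l 16663728)) (a (l 16697848) (l 16722344))) (a (b (a (l 16605664) (l 16647784)) (a (l 16594632) (l 16637296))) (b (a (l 16683064)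 (l 16711704)) (a (l 16673472) (l 16703136))))))) (a (a (l 16553048) (l 16596472)) (a (l 16611968) (l 16620400)))) (a (b (a (l 16480528) (l 16524016)) (l 33385644519)) (b (a (l 16559296) (l 2)) (l 2)))) (b (b (b (b (b (l 3) (l 2)) (l 2)) (l 2)) (l 2)) (l 2)))) (a (b (b (a (b (a (l 16345088) (l 2)) (l 2)) (l 2)) (l 2)) (l 2)) (l 2))), by decide +kernel⟩

theorem s32_pp_022_s : ∃ t, chk3 f_pp_022_s t 2 9 1 = true := ex3_a k27_pp_022_s k28_pp_022_s

theorem s33_pp_022_s : ∃ t, chk3 f_pp_022_s t 18 68 1 = true := ex3_a k21_pp_022_s k22_pp_022_s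

theorem s34_pp_022_s : ∃ t, chk3 f_pp_022_s t 18 34 1 = true := ex3_b s33_pp_022_s k23_pp_022_s

theorem s35_pp_022_s : ∃ t, chk3 f_pp_022_s t 9 34 1 = true := ex3_a s34_pp_022_s k24_pp_022_s

theorem s36_pp_022_s : ∃ t, chk3 f_pp_022_s t 9 17 1 = true := ex3_b s35_pp_022_s k25_pp_022_s

theorem s37_pp_022_s : ∃ t, chk3 f_pp_022_s t 9 8 1 = true := ex3_b k20_pp_022_s s36_pp_022_s

theorem s38_pp_022_s : ∃ t, chk3 f_pp_022_s t 35 67 1 = true := ex3_a k17_pp_022_s k18_pp_022_s

theorem s39_pp_022_s : ∃ t, chk3 f_pp_022_s t 35 33 1 = true := ex3_b k16_pp_022_s s38_pp_022_s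

theorem s40_pp_022_s : ∃ t, chk3 f_pp_022_s t 34 66 1 = true := ex3_a k13_pp_022_s k14_pp_022_s

theorem s41_pp_022_s : ∃ t, chk3 f_pp_022_s t 34 33 1 = true := ex3_b s40_pp_022_s k15_pp_022_s

theorem s42_pp_022_s : ∃ t, chk3 f_pp_022_s t 17 33 1 = true := ex3_a s41_pp_022_s s39_pp_022_s

theorem s43_pp_022_s : ∃ t, chk3 f_pp_022_s t 17 16 1 = true := ex3_b k12_pp_022_s s42_pp_022_s

theorem s44_pp_022_s : ∃ t, chk3 f_pp_022_s t 67 131 1 = true := ex3_a k9_pp_022_s k10_pp_022_s

theorem s45_pp_022_s : ∃ t, chk3 f_pp_022_s t 67 65 1 = true := ex3_b k8_pp_022_s s44_pp_022_s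

theorem s46_pp_022_s : ∃ t, chk3 f_pp_022_s t 132 260 1 = true := ex3_b k3_pp_022_s k4_pp_022_s

theorem s47_pp_022_s : ∃ t, chk3 f_pp_022_s t 132 130 1 = true := ex3_b s46_pp_022_s k5_pp_022_s

theorem s48_pp_022_s : ∃ t, chk3 f_pp_022_s t 66 130 1 = true := ex3_a s47_pp_022_s k6_pp_022_s

theorem s49_pp_022_s : ∃ t, chk3 f_pp_022_s t 66 65 1 = true := ex3_b s48_pp_022_s k7_pp_022_s

theorem s50_pp_022_s : ∃ t, chk3 f_pp_022_s t 33 65 1 = true := ex3_a s49_pp_022_s s45_pp_022_s

theorem s51_pp_022_s : ∃ t, chk3 f_pp_022_s t 33 32 1 = true := ex3_b k2_pp_022_s s50_pp_022_s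

theorem s52_pp_022_s : ∃ t, chk3 f_pp_022_s t 32 32 1 = true := ex3_b k0_pp_022_s k1_pp_022_s

theorem s53_pp_022_s : ∃ t, chk3 f_pp_022_s t 16 32 1 = true := ex3_a s52_pp_022_s s51_pp_022_s

theorem s54_pp_022_s : ∃ t, chk3 f_pp_022_s t 16 16 1 = true := ex3_b s53_pp_022_s k11_pp_022_s

theorem s55_pp_022_s : ∃ t, chk3 f_pp_022_s t 8 16 1 = true := ex3_a s54_pp_022_s s43_pp_022_s

theorem s56_pp_022_s : ∃ t, chk3 f_pp_022_s t 8 8 1 = true := ex3_b s55_pp_022_s k19_pp_022_s

theorem s57_pp_022_s : ∃ t, chk3 f_pp_022_s t 4 8 1 = true := ex3_a s56_pp_022_s s37_pp_022_s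

theorem s58_pp_022_s : ∃ t, chk3 f_pp_022_s t 2 8 1 = true := ex3_a s57_pp_022_s k26_pp_022_s

theorem s59_pp_022_s : ∃ t, chk3 f_pp_022_s t 2 4 1 = true := ex3_b s58_pp_022_s s32_pp_022_s

theorem s60_pp_022_s : ∃ t, chk3 f_pp_022_s t 2 2 1 = true := ex3_b s59_pp_022_s k29_pp_022_s

theorem s61_pp_022_s : ∃ t, chk3 f_pp_022_s t 2 1 1 = true := ex3_b s60_pp_022_s k30_pp_022_s

theorem s62_pp_022_s : ∃ t, chk3 f_pp_022_s t 1 1 1 = true := ex3_a s61_pp_022_s k31_pp_022_s

theorem c_pp_022_s : CertNE 0 536870912 1073741824 536870912 1040187392 5207648 3 eng mog cd0q0 cd5q2 pd2 false true true .pp 0 2 2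
    ndB0q0 ndB5q2 pcB2 cut_pp_022_s Ext.none :=
  certNE1 (fam := false) (s1 := true) (s2 := true) (a := 0) (b := 2) (c := 2) (cn := .pp) (n1 := ndB0q0) (n2 := ndB5q2) (pc := pcB2) (cut := cut_pp_022_s) (xt := Ext.none) (P1 := 0) (W1 := 536870912) (P2 := 1073741824) (W2 := 536870912) (P3 := 1040187392) (W3 := 5207648) (N0 := 3) (En := eng) (mo := mog) (C1 := cd0q0) (C2 := cd5q2) (C3 := pd2)
    rfl (fun _ => rfl) s62_pp_022_s

noncomputable def cut_pp_023_s : Cut := Cut.of [[⟨4, 0, 0, 1449551462⟩]]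

noncomputable def f_pp_023_s : ℕ → ℕ → ℕ → ℕ → Bool := onCell 1073741824 536870912 0 1230186008 1040187392 5207648
    (rowNE 3 eng mog cd0q0 cd5q3 pd2 2 false true true .up 0 2 3 (qsf 0 536870912 0 1230186008 2) ndB0q0 ndB5q3 pcB2 cut_pp_023_s Ext.none)

def k0_pp_023_s : ∃ t, chk3 f_pp_023_s t 1 1 1 = true :=
  ⟨(a (b (l 2) (a (b (l 2) (b (l 2) (l 3))) (b (a (l 2) (b (l 2) (b (l 2) (l 117138412375)))) (b (a (a (a (l 3) (a (l 3) (b (l 2) (a (b (l 2) (l 16775320)) (l 16770152))))) (b (l 238471259175) (b (l 16724520) (l 16717448)))) (b (a (l 16626104) (l 16563392)) (b (l 16572720) (l 16561376)))) (a (a (a (b (l 3) (b (a (l 3) (l 16758616)) (a (l 16699304) (l 16771424)))) (a (b (b (l 16761520) (l 16776960)) (b (l 16763832) (l 16746616))) (b (a (b (l 16770616) (l 16759832)) (b (l 16759232) (a (l 16751056) (l 16745456)))) (a (b (l 16745776) (l 16727248)) (b (a (l 16736560) (l 16729936)) (a (l 16715360) (l 16705704))))))) (b (b (l 16707712) (l 16695160)) (b (l 16656160)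 (l 16628536)))) (b (b (l 16526056) (l 16487256)) (b (l 16421232) (l 16405592)))))))) (a (b (l 2) (b (b (a (l 2) (b (l 16148328) (l 16218160))) (a (b (l 16405720) (l 16455080)) (b (l 16273472) (l 16287392)))) (b (b (a (l 16435368) (l 16257424)) (a (l 16383608) (l 16210744))) (b (a (l 16255952) (l 16149384)) (a (b (l 16315824) (l 16265152)) (b (l 16090480) (l 16023832))))))) (b (l 6) (l 6)))), by decide +kernel⟩

theorem c_pp_023_s : CertNE 0 536870912 0 1230186008 1040187392 5207648 3 eng mog cd0q0 cd5q3 pd2 false true true .up 0 2 3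
    ndB0q0 ndB5q3 pcB2 cut_pp_023_s Ext.none :=
  certNE2 (fam := false) (s1 := true) (s2 := true) (a := 0) (b := 2) (c := 3) (cn := .up) (n1 := ndB0q0) (n2 := ndB5q3) (pc := pcB2) (cut := cut_pp_023_s) (xt := Ext.none) (P1 := 0) (W1 := 536870912) (P2 := 0) (W2 := 1230186008) (P3 := 1040187392) (W3 := 5207648) (N0 := 3) (En := eng) (mo := mog) (C1 := cd0q0) (C2 := cd5q3) (C3 := pd2)
    rfl (fun _ => rfl) k0_pp_023_s

noncomputable def cut_pp_033_s : Cut := Cut.of [[⟨4, 0, 0, 1449551462⟩]]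

noncomputable def f_pp_033_s : ℕ → ℕ → ℕ → ℕ → Bool := onCell 1610612736 536870912 0 1230186008 1040187392 5207648
    (rowNE 3 eng mog cd0q0 cd5q3 pd3 2 false true true .pnn 0 3 3 (qsf 0 536870912 0 1230186008 3) ndB0q0 ndB5q3 pcB3 cut_pp_033_s Ext.none)

def k0_pp_033_s : ∃ t, chk3 f_pp_033_s t 1 1 1 = true :=
  ⟨(b (l 6) (l 6)), by decide +kernel⟩

theorem c_pp_033_s : CertNE 0 536870912 0 1230186008 1040187392 5207648 3 eng mog cd0q0 cd5q3 pd3 false true true .pnn 0 3 3
    ndB0q0 ndB5q3 pcB3 cut_pp_033_s Ext.none :=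
  certNE2 (fam := false) (s1 := true) (s2 := true) (a := 0) (b := 3) (c := 3) (cn := .pnn) (n1 := ndB0q0) (n2 := ndB5q3) (pc := pcB3) (cut := cut_pp_033_s) (xt := Ext.none) (P1 := 0) (W1 := 536870912) (P2 := 0) (W2 := 1230186008) (P3 := 1040187392) (W3 := 5207648) (N0 := 3) (En := eng) (mo := mog) (C1 := cd0q0) (C2 := cd5q3) (C3 := pd3)
    rfl (fun _ => rfl) k0_pp_033_s

noncomputable def cut_pp_101_s : Cut := Cut.of [[⟨4, 0, 0, 1449551462⟩]]

noncomputable def f_pp_101_s : ℕ → ℕ → ℕ → ℕ → Bool := onCell 536870912 536870912 536870912 536870912 1040187392 5207648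
    (rowNE 3 eng mog cd0q1 cd5q1 pd0 0 false true true .npn 1 0 1 (qsf 536870912 536870912 536870912 536870912 0) ndB0q1 ndB5q1 pcB0 cut_pp_101_s Ext.none)

def k0_pp_101_s : ∃ t, chk3 f_pp_101_s t 1 1 1 = true :=
  ⟨(a (l 3) (l 5)), by decide +kernel⟩

theorem c_pp_101_s : CertNE 536870912 536870912 536870912 536870912 1040187392 5207648 3 eng mog cd0q1 cd5q1 pd0 false true true .npn 1 0 1
    ndB0q1 ndB5q1 pcB0 cut_pp_101_s Ext.none :=
  certNE0 (fam := false) (s1 := true) (s2 := true) (a := 1) (b := 0) (c := 1) (cn := .npn) (n1 := ndB0q1) (n2 := ndB5q1) (pc := pcB0) (cut := cut_pp_101_s) (xt := Ext.none) (P1 := 536870912) (W1 := 536870912) (P2 := 536870912) (W2 := 536870912) (P3 := 1040187392) (W3 := 5207648) (N0 := 3) (En := eng) (mo := mog) (C1 := cd0q1) (C2 := cd5q1) (C3 := pd0)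
    rfl k0_pp_101_s

noncomputable def cut_pp_102_s : Cut := Cut.of [[⟨4, 0, 0, 1449551462⟩]]

noncomputable def f_pp_102_s : ℕ → ℕ → ℕ → ℕ → Bool := onCell 536870912 536870912 1073741824 536870912 1040187392 5207648
    (rowNE 3 eng mog cd0q1 cd5q2 pd0 0 false true true .npp 1 0 2 (qsf 536870912 536870912 1073741824 536870912 0) ndB0q1 ndB5q2 pcB0 cut_pp_102_s Ext.none)

def k0_pp_102_s : ∃ t, chk3 f_pp_102_s t 1 1 1 = true :=
  ⟨(a (l 3) (b (l 5) (l 3))), by decide +kernel⟩

theorem c_pp_102_s : CertNE 536870912 536870912 1073741824 536870912 1040187392 5207648 3 eng mog cd0q1 cd5q2 pd0 false true true .npp 1 0 2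
    ndB0q1 ndB5q2 pcB0 cut_pp_102_s Ext.none :=
  certNE0 (fam := false) (s1 := true) (s2 := true) (a := 1) (b := 0) (c := 2) (cn := .npp) (n1 := ndB0q1) (n2 := ndB5q2) (pc := pcB0) (cut := cut_pp_102_s) (xt := Ext.none) (P1 := 536870912) (W1 := 536870912) (P2 := 1073741824) (W2 := 536870912) (P3 := 1040187392) (W3 := 5207648) (N0 := 3) (En := eng) (mo := mog) (C1 := cd0q1) (C2 := cd5q2) (C3 := pd0)
    rfl k0_pp_102_s

noncomputable def cut_pp_112_s : Cut := Cut.of [[⟨4, 0, 0, 1449551462⟩]]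

noncomputable def f_pp_112_s : ℕ → ℕ → ℕ → ℕ → Bool := onCell 536870912 536870912 1073741824 536870912 1040187392 5207648
    (rowNE 3 eng mog cd0q1 cd5q2 pd1 0 false true true .dn 1 1 2 (qsf 536870912 536870912 1073741824 536870912 1) ndB0q1 ndB5q2 pcB1 cut_pp_112_s Ext.none)

def k0_pp_112_s : ∃ t, chk3 f_pp_112_s t 1 1 1 = true :=
  ⟨(a (l 3) (b (l 5) (l 3))), by decide +kernel⟩

theorem c_pp_112_s : CertNE 536870912 536870912 1073741824 536870912 1040187392 5207648 3 eng mog cd0q1 cd5q2 pd1 false true true .dn 1 1 2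
    ndB0q1 ndB5q2 pcB1 cut_pp_112_s Ext.none :=
  certNE0 (fam := false) (s1 := true) (s2 := true) (a := 1) (b := 1) (c := 2) (cn := .dn) (n1 := ndB0q1) (n2 := ndB5q2) (pc := pcB1) (cut := cut_pp_112_s) (xt := Ext.none) (P1 := 536870912) (W1 := 536870912) (P2 := 1073741824) (W2 := 536870912) (P3 := 1040187392) (W3 := 5207648) (N0 := 3) (En := eng) (mo := mog) (C1 := cd0q1) (C2 := cd5q2) (C3 := pd1)
    rfl k0_pp_112_s

noncomputable def cut_pp_113_s : Cut := Cut.of [[⟨4, 0, 0, 1449551462⟩], [⟨0, 1, 0, 15728640⟩, ⟨1, 1, 0, 15728640⟩, ⟨2, 2, 0, 524288⟩]]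

noncomputable def f_pp_113_s : ℕ → ℕ → ℕ → ℕ → Bool := onCell 536870912 536870912 0 1230186008 1040187392 5207648
    (rowNE 3 eng mog cd0q1 cd5q3 pd1 2 false true true .nn 1 1 3 (qsf 536870912 536870912 0 1230186008 1) ndB0q1 ndB5q3 pcB1 cut_pp_113_s Ext.none)

def k0_pp_113_s : ∃ t, chk3 f_pp_113_s t 1 1 1 = true :=
  ⟨(a (b (l 2) (a (b (l 2) (b (l 2) (l 3))) (b (b (l 2) (a (l 2) (l 3))) (l 3)))) (a (b (l 2) (b (l 3) (l 3))) (b (b (a (l 2) (a (l 2) (b (b (a (l 2) (a (l 2) (b (l 14) (l 3)))) (l 3)) (l 3)))) (l 3)) (l 3)))), by decide +kernel⟩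

theorem c_pp_113_s : CertNE 536870912 536870912 0 1230186008 1040187392 5207648 3 eng mog cd0q1 cd5q3 pd1 false true true .nn 1 1 3
    ndB0q1 ndB5q3 pcB1 cut_pp_113_s Ext.none :=
  certNE2 (fam := false) (s1 := true) (s2 := true) (a := 1) (b := 1) (c := 3) (cn := .nn) (n1 := ndB0q1) (n2 := ndB5q3) (pc := pcB1) (cut := cut_pp_113_s) (xt := Ext.none) (P1 := 536870912) (W1 := 536870912) (P2 := 0) (W2 := 1230186008) (P3 := 1040187392) (W3 := 5207648) (N0 := 3) (En := eng) (mo := mog) (C1 := cd0q1) (C2 := cd5q3) (C3 := pd1)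
    rfl (fun _ => rfl) k0_pp_113_s

noncomputable def cut_pp_123_s : Cut := Cut.of [[⟨4, 0, 0, 1449551462⟩], [⟨0, 1, 0, 15728640⟩, ⟨1, 1, 0, 15728640⟩, ⟨2, 2, 0, 524288⟩]]

noncomputable def f_pp_123_s : ℕ → ℕ → ℕ → ℕ → Bool := onCell 1073741824 536870912 0 1230186008 1040187392 5207648
    (rowNE 3 eng mog cd0q1 cd5q3 pd2 2 false true true .npn 1 2 3 (qsf 536870912 536870912 0 1230186008 2) ndB0q1 ndB5q3 pcB2 cut_pp_123_s Ext.none)

def k0_pp_123_s : ∃ t, chk3 f_pp_123_s t 32 32 1 = true :=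
  ⟨(a (l 14) (a (l 14) (a (l 14) (b (l 16742824) (b (l 16719760) (b (a (b (l 16712672) (l 16717440)) (l 16709232)) (a (l 16734672) (l 16719200)))))))), by decide +kernel⟩

def k1_pp_123_s : ∃ t, chk3 f_pp_123_s t 64 33 1 = true :=
  ⟨(l 3), by decide +kernel⟩

def k2_pp_123_s : ∃ t, chk3 f_pp_123_s t 130 66 1 = true :=
  ⟨(a (l 3) (l 3)), by decide +kernel⟩

def k3_pp_123_s : ∃ t, chk3 f_pp_123_s t 262 132 1 = true :=
  ⟨(b (b (l 14) (a (a (l 3) (b (a (l 488720300455) (b (b (b (l 14) (a (l 262160775815) (l 16775784))) (a (l 378124891975) (l 16776496))) (a (l 3) (b (l 368998086679) (l 3))))) (l 3))) (a (b (a (a (a (b (l 16775008) (b (l 16776512) (l 371682441943))) (l 290614926663)) (l 16774296)) (l 16761728)) (b (a (b (a (l 494625881655) (a (l 275582548647) (l 16776464))) (l 460266140551)) (l 292225539095)) (a (l 3) (a (b (l 341080796855) (l 3)) (a (b (l 16776416) (l 368461216423)) (l 16776216)))))) (a (b (l 16769424) (l 16768240)) (l 16747672))))) (a (l 3) (b (a (b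 (l 492478396247) (l 3)) (b (a (a (b (b (a (l 16776624) (l 16776368)) (l 373829924855)) (l 3)) (b (l 16775824) (b (l 328195894855) (l 487109688775)))) (a (a (b (l 16774792) (b (l 16776320) (l 351818218039))) (l 16772488)) (l 16763576))) (a (l 3) (a (l 495699622823) (b (b (c (l 16776560) (l 16776560)) (l 371145570391)) (l 3)))))) (l 3)))), by decide +kernel⟩

def k4_pp_123_s : ∃ t, chk3 f_pp_123_s t 263 132 1 = true :=
  ⟨(a (b (b (a (l 14) (l 16748552)) (a (l 16764384) (b (a (l 16757648) (l 16754808)) (l 16760712)))) (b (a (b (l 16760064) (a (b (l 16772400) (a (b (c (l 279340644695) (l 282024996631)) (l 493015268871)) (a (b (l 16776216) (l 285783096071)) (l 16776016)))) (l 16762752))) (l 16756424)) (a (b (a (l 496236493447) (a (b (b (l 16776464) (l 368461215735)) (l 3)) (b (l 16775616) (b (c (l 263771388119) (l 268603223687)) (l 489257172551))))) (l 3)) (b (a (a (a (b (l 16774560) (b (l 16776096) (l 218137361351))) (l 16774880)) (l 16763336)) (l 16771688)) (b (a (a (l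 448454977991) (b (l 16776368) (l 333027735751))) (l 16774784)) (a (l 3) (a (a (l 415168981687) (b (l 16776664) (l 378124893047))) (b (l 16775624) (c (l 16776592) (l 16776592)))))))))) (b (b (l 16736656) (a (b (l 16749248) (l 16749216)) (l 16744320))) (b (a (l 16739888) (b (l 16742344) (l 16756984))) (a (b (l 16767392) (l 16766304)) (l 16763704))))), by decide +kernel⟩

def k5_pp_123_s : ∃ t, chk3 f_pp_123_s t 131 133 1 = true :=
  ⟨(a (l 3) (b (a (b (a (l 3) (a (l 3) (a (l 3) (b (b (l 431811982439) (l 3)) (l 3))))) (l 3)) (b (b (a (b (a (a (b (l 16776264) (l 316921605639)) (l 16775376)) (l 16773232)) (b (a (a (l 488720301543) (a (l 291151805239) (l 16776560))) (l 16764304)) (a (l 475835399543) (l 287393702983)))) (l 16759480)) (b (a (a (l 3) (a (b (l 369534957591) (l 3)) (b (l 16776152) (c (l 265918871799) (l 269140094647))))) (l 16767848)) (a (l 491404654887) (a (a (a (l 368998086727) (b (l 16776440) (l 370071829191))) (l 16773248)) (l 16773744))))) (a (l 3) (b (a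 (a (l 3) (a (l 491941526535) (b (l 360945022983) (l 3)))) (a (b (b (l 16776024) (c (l 214916135319) (l 217600487255))) (l 491404655991)) (b (l 16764624) (b (c (l 16776600) (l 16776600)) (l 372756183063))))) (l 3))))) (l 3))), by decide +kernel⟩

def k6_pp_123_s : ∃ t, chk3 f_pp_123_s t 65 67 1 = true :=
  ⟨(l 3), by decide +kernel⟩

def k7_pp_123_s : ∃ t, chk3 f_pp_123_s t 33 32 1 = true :=
  ⟨(a (a (b (l 16738608) (b (l 16715424) (b (l 16703992) (a (a (b (l 16703224) (l 16709824)) (l 16699632)) (l 16695152))))) (l 16718376)) (b (l 16706296) (l 16699008))), by decide +kernel⟩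

def k8_pp_123_s : ∃ t, chk3 f_pp_123_s t 132 132 1 = true :=
  ⟨(a (b (a (l 16727152) (l 16712064)) (b (a (a (b (l 16745272) (l 16751144)) (l 16740512)) (l 16729160)) (a (a (b (l 16755256) (l 16759984)) (b (l 16749376) (l 16753616))) (l 16720040)))) (b (a (l 16677904) (l 16690536)) (l 16712392))), by decide +kernel⟩

def k9_pp_123_s : ∃ t, chk3 f_pp_123_s t 132 133 1 = true :=
  ⟨(a (b (a (b (a (l 16745304) (l 16760456)) (b (a (a (l 304573565287) (l 16771112)) (l 16766760)) (a (b (a (a (b (l 350207604487) (l 488720301543)) (a (b (l 16776248) (l 291688676151)) (l 16776040))) (l 16763768)) (a (l 490867784823) (a (b (l 16776488) (l 369534957591)) (l 16775616)))) (l 16760472)))) (b (a (b (l 16752016) (l 16756720)) (b (l 16745464) (l 16750448))) (a (l 16763040) (l 16757008)))) (a (b (a (b (a (l 3) (a (l 3) (b (b (c (l 264845129959) (l 267529481895)) (l 495699623479)) (l 3)))) (l 3)) (b (a (a (b (a (b (l 16776112) (l 16776352)) (l 16775912)) (l 451139332535)) (b (l 16774832)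 (b (l 16776368) (l 332490864839)))) (l 16768464)) (a (l 3) (a (b (b (c (l 211694909815) (l 214379261751)) (l 381882988919)) (l 3)) (b (b (l 16775608) (l 16776584)) (l 430738237991)))))) (l 3)) (b (a (b (l 16748384) (a (a (b (l 16774680) (b (l 16776240) (l 278266900279))) (l 16774280)) (l 16751136))) (l 16744664)) (a (b (b (a (a (l 493552139511) (b (c (l 154786593271) (l 157470945207)) (l 377588021079))) (l 304036698983)) (a (l 3) (a (b (l 367387473911) (l 3)) (b (l 16776104) (l 258402676343))))) (l 496773363543)) (b (l 16766704) (a (a (b (b (c (l 16776656) (l 16776656)) (l 373829924823)) (l 3)) (b (l 16775808) (b (l 323900930199) (l 490867785159)))) (a (b (l 16774376) (b (l 16775944) (l 202568101623))) (l 16763480)))))))) (b (a (b (l 16736800) (a (b (l 16748872) (l 16753072)) (l 16723832))) (l 16727512)) (a (b (a (l 16759800) (l 16742856)) (a (l 16757744) (l 16762400))) (b (a (b (l 16745576) (l 16749736)) (l 16741088)) (a (l 16756576) (b (l 16748192) (l 16752880))))))),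 by decide +kernel⟩

def k10_pp_123_s : ∃ t, chk3 f_pp_123_s t 133 66 1 = true :=
  ⟨(b (b (l 16684424) (a (a (l 16691160) (l 16682008)) (l 16676432))) (a (b (l 16705472) (a (b (l 16729544) (a (b (l 16741840) (l 16746688)) (l 16737016))) (l 16720488))) (b (a (l 16684080) (l 16674152)) (l 16698912)))), by decide +kernel⟩

def k11_pp_123_s : ∃ t, chk3 f_pp_123_s t 67 66 1 = true :=
  ⟨(a (b (l 16677256) (a (b (l 16668000) (a (l 16677736) (l 16667064))) (l 16663592))) (l 16669072)), by decide +kernel⟩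

def k12_pp_123_s : ∃ t, chk3 f_pp_123_s t 132 67 1 = true :=
  ⟨(b (a (b (a (l 3) (b (a (l 3) (b (a (l 3) (a (l 495699622839) (b (b (l 16776536) (l 369534957655)) (l 3)))) (l 3))) (l 3))) (l 3)) (b (a (b (a (b (a (b (l 16774936) (a (l 368461215111) (b (l 16775784) (l 145122916759)))) (l 16762592)) (a (l 497847106231) (a (b (b (l 16776400) (l 365239990183)) (l 3)) (b (l 16775504) (b (l 213305522583) (l 381882988903)))))) (a (b (l 16770168) (b (l 16773320) (l 300815473815))) (l 16748384))) (a (l 3) (b (b (a (a (l 431811974583) (a (l 243370288119) (l 16776376))) (l 16774608)) (a (l 494089010087) (a (a (l 371682441223) (l 233706616839)) (l 16775944)))) (a (l 3) (b (l 444696884071) (l 3)))))) (b (l 16741112) (a (b (l 16760800) (a (a (b (b (l 16776088) (l 255718324391)) (l 496236494167)) (b (l 16775160) (b (l 16776640) (l 372756183015)))) (l 16768776))) (l 16746600)))) (a (l 3) (b (a (b (a (l 3) (b (a (l 370608698775) (a (l 137069852983) (l 16776064))) (l 493015268455)))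 (l 3)) (b (a (a (b (l 16774984) (a (l 336785831751) (l 16776600))) (l 16774576)) (l 16772400)) (a (a (l 3) (b (l 367387473223) (l 3))) (a (b (l 16776184) (l 447381241431)) (b (l 16774808) (b (l 16776344) (l 325511542951))))))) (l 494625877447))))) (l 3)), by decide +kernel⟩

def k13_pp_123_s : ∃ t, chk3 f_pp_123_s t 266 67 1 = true :=
  ⟨(b (b (a (b (a (l 16753248) (l 16736496)) (l 16758888)) (b (l 16723400) (a (l 16749680) (l 16733584)))) (a (b (a (b (l 16768048) (l 16761736)) (l 16764344)) (a (b (a (b (a (l 326585284039) (l 16776032)) (l 453823681655)) (a (a (b (l 16774984) (l 232096004119)) (l 16775280)) (l 16774208))) (a (l 3) (a (l 488183429959) (b (l 285246218679) (l 3))))) (b (l 16749624) (a (b (l 16775144) (a (l 372219311783) (a (l 16774096) (l 16776136)))) (l 16752328))))) (b (l 16755744) (l 16753544)))) (b (a (b (a (l 3) (b (a (l 492478397015) (b (a (l 265918865623) (l 16775680)) (l 413021497895))) (l 3))) (l 3)) (b (a (a (b (l 308331662711) (a (l 486572817447)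 (b (l 198810004631) (l 3)))) (a (b (l 16772392) (b (l 16775488) (l 330880251383))) (l 318532204231))) (l 16758936)) (a (l 494625879239) (b (a (a (b (l 126332429271) (l 490867784999)) (b (l 16775288) (l 287393707607))) (l 16774152)) (a (l 3) (a (l 447918101607) (b (l 16776400) (l 384030472327)))))))) (l 3))), by decide +kernel⟩

def k14_pp_123_s : ∃ t, chk3 f_pp_123_s t 267 67 1 = true :=
  ⟨(b (a (b (l 16728720) (b (a (l 16746544) (l 16741184)) (l 16752448))) (b (l 16713864) (b (l 16730336) (a (l 16743728) (l 16738176))))) (b (a (b (l 16739920) (a (b (l 16769872) (a (a (b (l 16775088) (l 268066354519)) (l 16774672)) (l 16772536))) (l 16766232))) (b (l 16738536) (l 16757848))) (a (b (b (a (a (b (l 412484621751) (l 3)) (b (l 16775544) (c (l 327659024759) (l 329806505783)))) (l 16772336)) (a (l 3) (a (a (l 406579046967) (b (l 16776056) (l 374903666167))) (a (b (l 16774672) (l 16774576)) (l 16774264))))) (a (l 3) (b (a (l 3) (b (l 362018761559) (l 3))) (l 3)))) (a (b (l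 16747736) (b (a (a (b (l 16775864) (l 370608699079)) (l 16775400)) (l 16752376)) (a (l 493552138871) (a (l 359871277895) (b (l 16775656) (l 345912637063)))))) (b (l 16763128) (b (l 16769144) (l 324974655335))))))), by decide +kernel⟩

def k15_pp_123_s : ∃ t, chk3 f_pp_123_s t 67 67 1 = true :=
  ⟨(a (b (a (l 16682776) (b (l 16666928) (l 16687328))) (a (b (a (b (a (l 16741096) (l 16734904)) (a (l 16749656) (l 16743608))) (b (l 16724056) (l 16724936))) (a (l 16737912) (b (a (l 16746728) (l 16741152)) (l 16752160)))) (b (l 16708968) (a (b (l 16732544) (a (l 16743840) (l 16738888))) (l 16724136))))) (b (a (b (l 16653544) (l 16661640)) (l 16650384)) (a (l 16693224) (l 16667704)))), by decide +kernel⟩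

def k16_pp_123_s : ∃ t, chk3 f_pp_123_s t 32 34 1 = true :=
  ⟨(l 3), by decide +kernel⟩

def k17_pp_123_s : ∃ t, chk3 f_pp_123_s t 66 34 1 = true :=
  ⟨(b (a (l 3) (b (a (l 3) (b (a (l 3) (b (a (l 3) (b (a (b (l 326585280231) (l 490330913687)) (a (b (l 16775440) (l 299741738711)) (l 16775016))) (l 491941525735))) (l 3))) (l 3))) (l 3))) (l 3)), by decide +kernel⟩

def k18_pp_123_s : ∃ t, chk3 f_pp_123_s t 134 68 1 = true :=
  ⟨(b (a (b (a (b (a (b (l 16750576) (a (b (l 16775816) (l 352355087015)) (l 16774112))) (l 16747040)) (a (b (a (l 3) (b (b (l 16773808) (l 337859572887)) (l 482277850295))) (l 3)) (b (b (l 16751944) (a (c (l 16776104) (l 67813502055)) (l 16773504))) (a (l 436643817623) (b (l 16775424) (l 285783091447)))))) (a (l 16754680) (l 16740168))) (a (l 493015262919) (b (a (b (a (b (c (l 139217335671) (l 140827945783)) (l 429127630375)) (l 16774776)) (a (l 3) (b (l 344302023191) (l 3)))) (a (b (l 16772112) (b (l 16774992) (l 219211098407))) (l 16750360)))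 (a (l 3) (b (a (l 487646559031) (b (l 16775992) (l 367924343591))) (l 3)))))) (b (a (l 16753368) (b (a (l 16741480) (l 16736672)) (l 16746864))) (a (b (l 16743752) (a (b (l 16773024) (a (b (l 258939548599) (l 496773364823)) (b (l 16774536) (l 110763177431)))) (l 16748656))) (l 16737296)))) (a (l 3) (b (a (b (a (l 494625876903) (b (a (b (l 16775592) (l 299204867015)) (l 16773920)) (a (l 491404655079) (b (l 171966461175) (l 376514278295))))) (l 3)) (b (a (b (l 16770008) (a (l 16774944) (l 16772400))) (l 16766744)) (a (b (a (l 404968428919) (l 340007050471)) (l 494625880151)) (b (l 16751216) (a (b (l 16776080) (l 367387472615)) (l 16774520)))))) (a (l 3) (b (a (l 3) (b (a (l 3) (l 357723794231)) (l 3))) (l 3)))))), by decide +kernel⟩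

def k19_pp_123_s : ∃ t, chk3 f_pp_123_s t 135 68 1 = true :=
  ⟨(a (b (b (a (b (l 16726528) (a (l 16739488) (l 16734320))) (l 16718800)) (a (b (l 16744336) (l 16752248)) (b (l 16734960) (l 16742312)))) (b (a (l 16752432) (l 16753592)) (a (b (a (b (b (l 16752432) (a (l 16773672) (l 16773928))) (a (l 448991853719) (b (l 16775664) (l 305647317991)))) (l 16771072)) (a (l 491404653495) (b (a (b (l 179482653991) (l 375440536487)) (l 16775040)) (a (l 3) (l 402820945271))))) (a (b (l 16766232) (a (b (l 16772616) (l 337322696311)) (l 16750944))) (l 16743992))))) (b (b (l 16699744) (a (l 16728000) (l 16714680))) (b (a (b (l 16740720) (l 16748360)) (b (l 16730928) (l 16739448))) (a (l 16758248) (l 16749808))))), by decide +kernel⟩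

def k20_pp_123_s : ∃ t, chk3 f_pp_123_s t 67 69 1 = true :=
  ⟨(a (l 3) (b (a (b (a (l 3) (b (a (b (a (l 489257171767) (b (l 16776096) (l 365239988983))) (l 3)) (b (l 16773408) (a (l 351818208919) (l 16775480)))) (a (l 3) (l 493552137799)))) (l 3)) (b (a (b (l 16747120) (a (b (b (l 16774488) (l 338396437703)) (a (l 490867784279) (l 293299280855))) (l 16772312))) (l 16741624)) (a (b (a (l 3) (b (b (l 340543921847) (l 345375757895)) (l 496773363991))) (l 3)) (b (a (b (l 16772608) (a (l 270750707143) (l 16774632))) (l 16769800)) (a (b (a (l 3) (l 342154538903)) (l 3)) (b (l 16774368) (a (l 425369533799) (l 153175978999)))))))) (a (l 3) (b (a (l 3) (l 493015263271)) (l 3))))), by decide +kernel⟩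

def k21_pp_123_s : ∃ t, chk3 f_pp_123_s t 16 35 1 = true :=
  ⟨(l 3), by decide +kernel⟩

def k22_pp_123_s : ∃ t, chk3 f_pp_123_s t 16 9 1 = true :=
  ⟨(l 3), by decide +kernel⟩

def k23_pp_123_s : ∃ t, chk3 f_pp_123_s t 34 16 1 = true :=
  ⟨(b (a (b (l 16713104) (l 16703688)) (l 16677160)) (a (b (l 16673248) (a (b (l 16649992) (a (b (l 16642968) (l 16654096)) (l 16641248))) (l 16648152))) (l 16670104))), by decide +kernel⟩

def k24_pp_123_s : ∃ t, chk3 f_pp_123_s t 34 34 1 = true :=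
  ⟨(a (b (b (a (a (l 16685904) (l 16662392)) (a (l 16644352) (l 16634848))) (a (a (b (l 16717512) (a (b (l 16738408) (l 16745216)) (l 16711952))) (l 16704456)) (l 16670512))) (a (b (a (b (a (l 16754728) (l 16736288)) (a (b (l 16763648) (l 16769560)) (l 16759120))) (b (a (b (l 16736576) (l 16743600)) (l 16730280)) (a (l 16752608) (b (l 16743160) (l 16749440))))) (a (b (a (b (a (b (a (l 292762415031) (l 16775040)) (l 424295786455)) (a (l 16775336) (l 16772360))) (a (l 3) (b (a (l 454360562791) (l 217063617063)) (l 493015267207)))) (b (l 16746512) (a (b (l 16773616) (a (l 313163510071) (l 16775392))) (l 16771112)))) (a (l 3) (b (a (l 474224780087) (b (a (l 16776064) (l 16774232)) (a (l 480130366391) (l 236927841239)))) (l 3)))) (b (l 16744120) (a (b (l 16770896) (a (b (a (l 355039440887) (l 16775680)) (l 459192400567)) (b (l 16772960) (l 78014051687)))) (l 16745616))))) (b (a (b (l 16712560) (a (l 16717576) (l 16727240))) (l 16700112)) (a (b (a (l 16750736) (b (l 16742112)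 (l 16748032))) (l 16757840)) (b (l 16731024) (a (l 16749496) (l 16722608))))))) (b (a (b (l 16633896) (a (l 16639912) (l 16629064))) (l 16633216)) (a (b (l 16666872) (l 16685632)) (b (l 16589520) (l 16662712))))), by decide +kernel⟩

def k25_pp_123_s : ∃ t, chk3 f_pp_123_s t 34 35 1 = true :=
  ⟨(b (a (a (a (l 3) (b (b (a (b (a (l 3) (b (l 362555616503) (l 3))) (l 3)) (b (a (b (l 16774400) (l 263234514343)) (l 16772176)) (a (l 489794041479) (a (l 343228263783) (l 330343373815))))) (l 3)) (l 3))) (a (b (b (a (l 16772288) (l 16763864)) (a (b (a (l 358260659591) (l 74255955079)) (a (l 3) (l 435033188375))) (a (b (l 16771736) (b (l 16774960) (l 286856835015))) (l 16749936)))) (b (a (l 3) (b (a (l 510732006871) (l 292762413543)) (l 3))) (l 3))) (b (a (l 16741848) (l 16758024)) (b (a (b (l 16772752) (a (l 373829905319) (l 16775192))) (l 16748416)) (a (l 512342617399) (b (a (l 221895454583) (l 16773616)) (l 381882968567))))))) (a (b (a (b (a (l 16748816) (l 16741904)) (l 16734032))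 (b (l 16724880) (a (l 16748016) (l 16738976)))) (a (a (l 16768192) (l 16763968)) (b (a (l 16757304) (l 16752584)) (l 16761624)))) (b (l 16701264) (a (b (l 16720400) (a (l 16756440) (l 16751768))) (l 16728728))))) (a (l 3) (a (b (a (b (a (b (l 284172477751) (l 509121393719)) (l 128479915831)) (a (l 3) (l 430738219751))) (a (b (l 16769352) (l 224579806583)) (l 16747472))) (a (l 3) (b (a (l 509658262951) (l 302962957799)) (l 3)))) (b (a (l 16763536) (b (l 16731184) (l 16760232))) (a (b (l 16771112) (a (l 365776841271) (l 16774296))) (l 16767304)))))), by decide +kernel⟩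

def k26_pp_123_s : ∃ t, chk3 f_pp_123_s t 35 8 1 = true :=
  ⟨(b (b (l 16670840) (b (l 16644528) (l 16668112))) (a (b (b (l 16639712) (a (b (l 16619288) (l 16625680)) (l 16617120))) (b (a (l 16655296) (b (l 16618840) (l 16651008))) (a (b (a (b (l 16733952) (l 16729512)) (l 16720728)) (a (l 16739816) (a (l 16734640) (l 16728744)))) (b (l 16687176) (l 16702744))))) (b (l 16632056) (b (a (b (l 16601296) (l 16610376)) (l 16595920)) (a (l 16659912) (l 16616496)))))), by decide +kernel⟩

def k27_pp_123_s : ∃ t, chk3 f_pp_123_s t 17 9 1 = true :=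
  ⟨(b (a (a (l 3) (b (b (a (l 3) (b (a (l 508047646327) (a (l 349670714039) (l 321753429783))) (a (l 3) (l 516637577879)))) (l 3)) (l 3))) (b (a (a (b (b (l 16772944) (a (l 356113164519) (l 16772440))) (b (a (l 3) (l 404431564759)) (l 3))) (a (b (b (b (l 16734832) (l 16762512)) (l 16767672)) (b (l 16774192) (l 444160009559))) (b (b (l 16745696) (l 16761832)) (l 234243477015)))) (b (a (b (l 16711864) (a (l 16752240) (l 16734824))) (l 16683016)) (a (b (a (l 16764520) (l 16735360)) (l 16768176)) (b (l 16733288) (a (l 16759512) (l 16728864)))))) (a (a (l 3) (b (b (l 505363285783) (l 3)) (l 3))) (b (a (b (l 266992603239) (l 409263400455)) (b (l 16764584) (l 16770672))) (a (l 3) (b (l 320142818327) (l 488183420375))))))) (l 3)), by decide +kernel⟩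

def k28_pp_123_s : ∃ t, chk3 f_pp_123_s t 8 5 1 = true :=
  ⟨(l 3), by decide +kernel⟩

def k29_pp_123_s : ∃ t, chk3 f_pp_123_s t 9 4 1 = true :=
  ⟨(b (a (b (a (b (l 16607872) (l 16585856)) (l 16557328)) (b (a (l 16635096) (l 16619728)) (a (a (b (l 16594432) (a (l 16587528) (l 16572912))) (l 16583024)) (l 16583808)))) (b (l 16429744) (a (b (l 16575752) (l 16582712)) (l 16486056)))) (a (b (a (b (a (a (b (l 16638608) (l 16683856)) (l 16564864)) (b (l 16541872) (l 16596552))) (a (b (a (b (a (l 16753960) (l 16741128)) (l 16738192)) (b (l 16708056) (l 16737808))) (a (b (l 16766944) (l 16772856)) (a (l 16762656) (l 16754248)))) (a (b (l 16680088) (b (l 16726904) (l 16747200))) (l 16646888)))) (b (a (b (l 16548728) (l 16542992)) (l 16539336)) (a (l 16521760) (b (l 16524576) (l 16557584))))) (a (a (b (b (a (b (l 358260667543) (l 489794029607)) (l 16771848)) (a (l 3) (l 475835388423))) (l 3)) (b (b (a (l 16761192) (b (l 16739224) (l 16752840))) (a (l 16773520) (l 16764008)))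 (a (b (l 475835386039) (l 3)) (b (l 16753920) (l 475835384311))))) (a (b (b (a (l 16693872) (l 16672408)) (a (l 16749488) (l 16726640))) (a (b (l 16765432) (l 16775976)) (b (l 16753392) (l 16766560)))) (b (l 16618584) (b (a (l 16734584) (l 16699400)) (a (l 16756472) (l 16739936))))))) (b (a (b (l 16540584) (a (l 16512288) (l 16504128))) (l 16521888)) (a (b (a (l 16563136) (l 16508792)) (a (a (l 16665000) (l 16646216)) (l 16590432))) (b (l 16418768) (a (l 16521672) (l 16476992))))))), by decide +kernel⟩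

def k30_pp_123_s : ∃ t, chk3 f_pp_123_s t 9 5 1 = true :=
  ⟨(a (b (a (l 3) (b (a (b (a (l 481204082087) (l 367924316871)) (l 3)) (b (a (l 282561822727) (l 16763048)) (a (l 3) (l 434496309623)))) (l 3))) (l 3)) (b (a (b (a (b (b (a (l 16743560) (l 16719168)) (l 16750120)) (a (l 16772856) (l 16763680))) (a (b (l 16703568) (l 16751920)) (b (l 16665248) (l 16736048)))) (a (b (a (l 3) (l 16752336)) (l 3)) (b (a (l 16772320) (l 16763224)) (l 376514228103)))) (b (a (b (l 16610392) (a (l 16712976) (l 16677368))) (l 16582600)) (a (b (a (l 16752968) (l 16738008)) (l 16766224)) (b (l 16700272) (a (l 16751904) (l 16737184)))))) (a (l 3) (b (a (b (l 366313686967) (l 3)) (b (l 16763568) (l 346449470007))) (a (l 3) (b (l 352355026631) (l 3))))))), by decide +kernel⟩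

def k31_pp_123_s : ∃ t, chk3 f_pp_123_s t 5 2 1 = true :=
  ⟨(b (b (a (b (l 16046256) (a (a (l 16464312) (l 16383728)) (l 16245200))) (l 6)) (a (a (b (a (l 16519624) (a (l 16508072) (a (l 16499944) (l 16490856)))) (a (a (l 16469760) (l 16471640)) (a (l 16475600) (l 16483976)))) (b (l 16427216) (l 16462448))) (b (l 15969968) (a (l 16409328) (l 16324712))))) (a (a (a (b (b (a (l 16464216) (b (l 16453800) (l 16493640))) (a (b (l 16629496) (l 16699232)) (l 16595576))) (a (b (b (l 16738376) (l 16759808)) (l 223505998103)) (b (b (l 16692168) (l 16731640)) (b (l 16753992) (l 16766800))))) (b (a (b (l 16458040) (l 16530344)) (b (a (l 16457592) (l 16470136)) (a (l 16490952) (a (l 16478416) (l 16476136))))) (a (b (a (l 16665312) (l 16629040)) (a (l 16741120) (l 16720920))) (b (a (l 16591752) (a (l 16561560) (l 16543152))) (a (l 16687112) (a (l 16650632) (l 16627728))))))) (b (b (l 16447400) (l 16439064)) (b (l 16483520) (l 16567936)))) (b (b (l 16374712) (l 16353688)) (b (a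 (l 16388648) (l 16314120)) (a (l 16465072) (l 16365552)))))), by decide +kernel⟩

def k32_pp_123_s : ∃ t, chk3 f_pp_123_s t 3 2 1 = true :=
  ⟨(a (b (l 6) (a (b (b (l 6) (l 16268896)) (b (l 16240480) (l 16246896))) (l 6))) (l 6)), by decide +kernel⟩

def k33_pp_123_s : ∃ t, chk3 f_pp_123_s t 1 3 1 = true :=
  ⟨(b (a (a (l 3) (a (a (a (b (b (a (l 3) (l 320679624391)) (l 3)) (l 3)) (b (a (b (a (l 16768760) (l 16759600)) (a (l 16768960) (l 16776768))) (b (a (b (l 16738416) (l 16754592)) (a (l 16703384) (l 16701344))) (a (l 16767352) (a (l 16758896) (b (l 16745336) (l 16758752)))))) (a (l 3) (b (a (l 16774832) (l 16770000)) (a (l 3) (l 16776760)))))) (b (b (l 16623160) (b (l 16692320) (l 16715552))) (b (l 16727520) (l 16732320)))) (b (b (a (l 16548304) (l 16453744)) (a (l 16616592) (l 16526688))) (b (a (l 16650416) (l 16571872)) (a (l 16653208) (l 16574560)))))) (a (b (a (b (l 16315920) (l 16394064)) (b (l 16148232) (l 16217608))) (a (b (l 16363568) (l 16391032)) (b (l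 16271840) (l 1)))) (l 6))) (a (b (a (l 3) (a (a (a (l 3) (a (l 3) (b (a (l 3) (l 16777112)) (a (b (l 16768344) (l 16775368)) (l 16770024))))) (b (b (l 16731904) (l 16729216)) (b (l 16724376) (l 16717096)))) (b (b (l 16566520) (l 16538808)) (l 1)))) (a (l 3) (a (a (a (b (l 3) (l 1)) (l 1)) (l 1)) (l 1)))) (l 1))), by decide +kernel⟩

theorem s34_pp_123_s : ∃ t, chk3 f_pp_123_s t 9 2 1 = true := ex3_b k29_pp_123_s k30_pp_123_s

theorem s35_pp_123_s : ∃ t, chk3 f_pp_123_s t 34 17 1 = true := ex3_b k24_pp_123_s k25_pp_123_s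

theorem s36_pp_123_s : ∃ t, chk3 f_pp_123_s t 34 8 1 = true := ex3_b k23_pp_123_s s35_pp_123_s

theorem s37_pp_123_s : ∃ t, chk3 f_pp_123_s t 17 8 1 = true := ex3_a s36_pp_123_s k26_pp_123_s

theorem s38_pp_123_s : ∃ t, chk3 f_pp_123_s t 17 4 1 = true := ex3_b s37_pp_123_s k27_pp_123_s

theorem s39_pp_123_s : ∃ t, chk3 f_pp_123_s t 67 68 1 = true := ex3_a k18_pp_123_s k19_pp_123_s

theorem s40_pp_123_s : ∃ t, chk3 f_pp_123_s t 67 34 1 = true := ex3_b s39_pp_123_s k20_pp_123_s

theorem s41_pp_123_s : ∃ t, chk3 f_pp_123_s t 33 34 1 = true := ex3_a k17_pp_123_s s40_pp_123_s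

theorem s42_pp_123_s : ∃ t, chk3 f_pp_123_s t 16 34 1 = true := ex3_a k16_pp_123_s s41_pp_123_s

theorem s43_pp_123_s : ∃ t, chk3 f_pp_123_s t 16 17 1 = true := ex3_b s42_pp_123_s k21_pp_123_s

theorem s44_pp_123_s : ∃ t, chk3 f_pp_123_s t 133 67 1 = true := ex3_a k13_pp_123_s k14_pp_123_s

theorem s45_pp_123_s : ∃ t, chk3 f_pp_123_s t 66 67 1 = true := ex3_a k12_pp_123_s s44_pp_123_s

theorem s46_pp_123_s : ∃ t, chk3 f_pp_123_s t 33 67 1 = true := ex3_a s45_pp_123_s k15_pp_123_s

theorem s47_pp_123_s : ∃ t, chk3 f_pp_123_s t 132 66 1 = true := ex3_b k8_pp_123_s k9_pp_123_s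

theorem s48_pp_123_s : ∃ t, chk3 f_pp_123_s t 66 66 1 = true := ex3_a s47_pp_123_s k10_pp_123_s

theorem s49_pp_123_s : ∃ t, chk3 f_pp_123_s t 33 66 1 = true := ex3_a s48_pp_123_s k11_pp_123_s

theorem s50_pp_123_s : ∃ t, chk3 f_pp_123_s t 33 33 1 = true := ex3_b s49_pp_123_s s46_pp_123_s

theorem s51_pp_123_s : ∃ t, chk3 f_pp_123_s t 33 16 1 = true := ex3_b k7_pp_123_s s50_pp_123_s

theorem s52_pp_123_s : ∃ t, chk3 f_pp_123_s t 131 132 1 = true := ex3_a k3_pp_123_s k4_pp_123_s

theorem s53_pp_123_s : ∃ t, chk3 f_pp_123_s t 131 66 1 = true := ex3_b s52_pp_123_s k5_pp_123_s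

theorem s54_pp_123_s : ∃ t, chk3 f_pp_123_s t 65 66 1 = true := ex3_a k2_pp_123_s s53_pp_123_s

theorem s55_pp_123_s : ∃ t, chk3 f_pp_123_s t 65 33 1 = true := ex3_b s54_pp_123_s k6_pp_123_s

theorem s56_pp_123_s : ∃ t, chk3 f_pp_123_s t 32 33 1 = true := ex3_a k1_pp_123_s s55_pp_123_s

theorem s57_pp_123_s : ∃ t, chk3 f_pp_123_s t 32 16 1 = true := ex3_b k0_pp_123_s s56_pp_123_s

theorem s58_pp_123_s : ∃ t, chk3 f_pp_123_s t 16 16 1 = true := ex3_a s57_pp_123_s s51_pp_123_s

theorem s59_pp_123_s : ∃ t, chk3 f_pp_123_s t 16 8 1 = true := ex3_b s58_pp_123_s s43_pp_123_s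

theorem s60_pp_123_s : ∃ t, chk3 f_pp_123_s t 16 4 1 = true := ex3_b s59_pp_123_s k22_pp_123_s

theorem s61_pp_123_s : ∃ t, chk3 f_pp_123_s t 8 4 1 = true := ex3_a s60_pp_123_s s38_pp_123_s

theorem s62_pp_123_s : ∃ t, chk3 f_pp_123_s t 8 2 1 = true := ex3_b s61_pp_123_s k28_pp_123_s

theorem s63_pp_123_s : ∃ t, chk3 f_pp_123_s t 4 2 1 = true := ex3_a s62_pp_123_s s34_pp_123_s

theorem s64_pp_123_s : ∃ t, chk3 f_pp_123_s t 2 2 1 = true := ex3_a s63_pp_123_s k31_pp_123_s

theorem s65_pp_123_s : ∃ t, chk3 f_pp_123_s t 1 2 1 = true := ex3_a s64_pp_123_s k32_pp_123_s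

theorem s66_pp_123_s : ∃ t, chk3 f_pp_123_s t 1 1 1 = true := ex3_b s65_pp_123_s k33_pp_123_s

theorem c_pp_123_s : CertNE 536870912 536870912 0 1230186008 1040187392 5207648 3 eng mog cd0q1 cd5q3 pd2 false true true .npn 1 2 3
    ndB0q1 ndB5q3 pcB2 cut_pp_123_s Ext.none :=
  certNE2 (fam := false) (s1 := true) (s2 := true) (a := 1) (b := 2) (c := 3) (cn := .npn) (n1 := ndB0q1) (n2 := ndB5q3) (pc := pcB2) (cut := cut_pp_123_s) (xt := Ext.none) (P1 := 536870912) (W1 := 536870912) (P2 := 0) (W2 := 1230186008) (P3 := 1040187392) (W3 := 5207648) (N0 := 3) (En := eng) (mo := mog) (C1 := cd0q1) (C2 := cd5q3) (C3 := pd2)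
    rfl (fun _ => rfl) s66_pp_123_s

noncomputable def cut_pp_133_s : Cut := Cut.of [[⟨4, 0, 0, 1449551462⟩]]

noncomputable def f_pp_133_s : ℕ → ℕ → ℕ → ℕ → Bool := onCell 1610612736 536870912 0 1230186008 1040187392 5207648
    (rowNE 3 eng mog cd0q1 cd5q3 pd3 2 false true true .dn 1 3 3 (qsf 536870912 536870912 0 1230186008 3) ndB0q1 ndB5q3 pcB3 cut_pp_133_s Ext.none)

def k0_pp_133_s : ∃ t, chk3 f_pp_133_s t 1 1 1 = true :=
  ⟨(b (l 6) (l 1)), by decide +kernel⟩

theorem c_pp_133_s : CertNE 536870912 536870912 0 1230186008 1040187392 5207648 3 eng mog cd0q1 cd5q3 pd3 false true true .dn 1 3 3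
    ndB0q1 ndB5q3 pcB3 cut_pp_133_s Ext.none :=
  certNE2 (fam := false) (s1 := true) (s2 := true) (a := 1) (b := 3) (c := 3) (cn := .dn) (n1 := ndB0q1) (n2 := ndB5q3) (pc := pcB3) (cut := cut_pp_133_s) (xt := Ext.none) (P1 := 536870912) (W1 := 536870912) (P2 := 0) (W2 := 1230186008) (P3 := 1040187392) (W3 := 5207648) (N0 := 3) (En := eng) (mo := mog) (C1 := cd0q1) (C2 := cd5q3) (C3 := pd3)
    rfl (fun _ => rfl) k0_pp_133_s

noncomputable def cut_pp_202_s : Cut := Cut.of [[⟨4, 0, 0, 1449551462⟩]]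

noncomputable def f_pp_202_s : ℕ → ℕ → ℕ → ℕ → Bool := onCell 0 536870912 1073741824 536870912 1040187392 5207648
    (rowNE 3 eng mog cd0q2 cd5q2 pd0 0 false true true .pp 2 0 2 (qsf 0 536870912 1073741824 536870912 0) ndB0q2 ndB5q2 pcB0 cut_pp_202_s Ext.none)

def k0_pp_202_s : ∃ t, chk3 f_pp_202_s t 1 1 1 = true :=
  ⟨(l 5), by decide +kernel⟩

theorem c_pp_202_s : CertNE 0 536870912 1073741824 536870912 1040187392 5207648 3 eng mog cd0q2 cd5q2 pd0 false true true .pp 2 0 2
    ndB0q2 ndB5q2 pcB0 cut_pp_202_s Ext.none :=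
  certNE0 (fam := false) (s1 := true) (s2 := true) (a := 2) (b := 0) (c := 2) (cn := .pp) (n1 := ndB0q2) (n2 := ndB5q2) (pc := pcB0) (cut := cut_pp_202_s) (xt := Ext.none) (P1 := 0) (W1 := 536870912) (P2 := 1073741824) (W2 := 536870912) (P3 := 1040187392) (W3 := 5207648) (N0 := 3) (En := eng) (mo := mog) (C1 := cd0q2) (C2 := cd5q2) (C3 := pd0)
    rfl k0_pp_202_s

noncomputable def cut_pp_203_s : Cut := Cut.of [[⟨4, 0, 0, 1449551462⟩]]

noncomputable def f_pp_203_s : ℕ → ℕ → ℕ → ℕ → Bool := onCell 0 536870912 0 1230186008 1040187392 5207648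
    (rowNE 3 eng mog cd0q2 cd5q3 pd0 0 false true true .up 2 0 3 (qsf 0 536870912 0 1230186008 0) ndB0q2 ndB5q3 pcB0 cut_pp_203_s Ext.none)

def k0_pp_203_s : ∃ t, chk3 f_pp_203_s t 1 1 1 = true :=
  ⟨(b (l 2) (a (l 5) (b (l 2) (l 3)))), by decide +kernel⟩

theorem c_pp_203_s : CertNE 0 536870912 0 1230186008 1040187392 5207648 3 eng mog cd0q2 cd5q3 pd0 false true true .up 2 0 3
    ndB0q2 ndB5q3 pcB0 cut_pp_203_s Ext.none :=
  certNE0 (fam := false) (s1 := true) (s2 := true) (a := 2) (b := 0) (c := 3) (cn := .up) (n1 := ndB0q2) (n2 := ndB5q3) (pc := pcB0) (cut := cut_pp_203_s) (xt := Ext.none) (P1 := 0) (W1 := 536870912) (P2 := 0) (W2 := 1230186008) (P3 := 1040187392) (W3 := 5207648) (N0 := 3) (En := eng) (mo := mog) (C1 := cd0q2) (C2 := cd5q3) (C3 := pd0)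
    rfl k0_pp_203_s

noncomputable def cut_pp_213_s : Cut := Cut.of [[⟨4, 0, 0, 1449551462⟩], [⟨0, 1, 0, 15728640⟩, ⟨1, 1, 0, 15728640⟩, ⟨2, 2, 0, 524288⟩]]

noncomputable def f_pp_213_s : ℕ → ℕ → ℕ → ℕ → Bool := onCell 0 536870912 0 1230186008 1040187392 5207648
    (rowNE 3 eng mog cd0q2 cd5q3 pd1 0 false true true .pnn 2 1 3 (qsf 0 536870912 0 1230186008 1) ndB0q2 ndB5q3 pcB1 cut_pp_213_s Ext.none)

def k0_pp_213_s : ∃ t, chk3 f_pp_213_s t 1 1 1 = true :=
  ⟨(b (a (l 3) (b (a (l 3) (a (l 3) (b (a (l 3) (b (a (l 3) (b (b (l 14) (l 3)) (l 3))) (l 3))) (l 3)))) (l 3))) (a (l 5) (b (l 3) (l 3)))), by decide +kernel⟩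

theorem c_pp_213_s : CertNE 0 536870912 0 1230186008 1040187392 5207648 3 eng mog cd0q2 cd5q3 pd1 false true true .pnn 2 1 3
    ndB0q2 ndB5q3 pcB1 cut_pp_213_s Ext.none :=
  certNE0 (fam := false) (s1 := true) (s2 := true) (a := 2) (b := 1) (c := 3) (cn := .pnn) (n1 := ndB0q2) (n2 := ndB5q3) (pc := pcB1) (cut := cut_pp_213_s) (xt := Ext.none) (P1 := 0) (W1 := 536870912) (P2 := 0) (W2 := 1230186008) (P3 := 1040187392) (W3 := 5207648) (N0 := 3) (En := eng) (mo := mog) (C1 := cd0q2) (C2 := cd5q3) (C3 := pd1)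
    rfl k0_pp_213_s

noncomputable def cut_pm_001_s : Cut := Cut.of [[⟨4, 0, 0, 1449551462⟩]]

noncomputable def f_pm_001_s : ℕ → ℕ → ℕ → ℕ → Bool := onCell 0 536870912 536870912 536870912 1040187392 5207648
    (rowNE 3 eng mog cd0q0 cd5q1 pd0 0 false true false .up 0 0 1 (qsf 0 536870912 536870912 536870912 0) ndB0q0 ndB5q1 pcB0 cut_pm_001_s Ext.none)

def k0_pm_001_s : ∃ t, chk3 f_pm_001_s t 1 1 1 = true :=
  ⟨(l 4), by decide +kernel⟩

theorem c_pm_001_s : CertNE 0 536870912 536870912 536870912 1040187392 5207648 3 eng mog cd0q0 cd5q1 pd0 false true false .up 0 0 1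
    ndB0q0 ndB5q1 pcB0 cut_pm_001_s Ext.none :=
  certNE0 (fam := false) (s1 := true) (s2 := false) (a := 0) (b := 0) (c := 1) (cn := .up) (n1 := ndB0q0) (n2 := ndB5q1) (pc := pcB0) (cut := cut_pm_001_s) (xt := Ext.none) (P1 := 0) (W1 := 536870912) (P2 := 536870912) (W2 := 536870912) (P3 := 1040187392) (W3 := 5207648) (N0 := 3) (En := eng) (mo := mog) (C1 := cd0q0) (C2 := cd5q1) (C3 := pd0)
    rfl k0_pm_001_s

noncomputable def cut_pm_011_s : Cut := Cut.of [[⟨4, 0, 0, 1449551462⟩]]

noncomputable def f_pm_011_s : ℕ → ℕ → ℕ → ℕ → Bool := onCell 0 536870912 536870912 536870912 1040187392 5207648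
    (rowNE 3 eng mog cd0q0 cd5q1 pd1 0 false true false .pnn 0 1 1 (qsf 0 536870912 536870912 536870912 1) ndB0q0 ndB5q1 pcB1 cut_pm_011_s Ext.none)

def k0_pm_011_s : ∃ t, chk3 f_pm_011_s t 1 1 1 = true :=
  ⟨(l 4), by decide +kernel⟩

theorem c_pm_011_s : CertNE 0 536870912 536870912 536870912 1040187392 5207648 3 eng mog cd0q0 cd5q1 pd1 false true false .pnn 0 1 1
    ndB0q0 ndB5q1 pcB1 cut_pm_011_s Ext.none :=
  certNE0 (fam := false) (s1 := true) (s2 := false) (a := 0) (b := 1) (c := 1) (cn := .pnn) (n1 := ndB0q0) (n2 := ndB5q1) (pc := pcB1) (cut := cut_pm_011_s) (xt := Ext.none) (P1 := 0) (W1 := 536870912) (P2 := 536870912) (W2 := 536870912) (P3 := 1040187392) (W3 := 5207648) (N0 := 3) (En := eng) (mo := mog) (C1 := cd0q0) (C2 := cd5q1) (C3 := pd1)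
    rfl k0_pm_011_s

noncomputable def cut_pm_012_s : Cut := Cut.of [[⟨4, 0, 0, 1449551462⟩]]

noncomputable def f_pm_012_s : ℕ → ℕ → ℕ → ℕ → Bool := onCell 0 536870912 1073741824 536870912 1040187392 5207648
    (rowNE 3 eng mog cd0q0 cd5q2 pd1 0 false true false .pnp 0 1 2 (qsf 0 536870912 1073741824 536870912 1) ndB0q0 ndB5q2 pcB1 cut_pm_012_s Ext.none)

def k0_pm_012_s : ∃ t, chk3 f_pm_012_s t 1 1 1 = true :=
  ⟨(l 4), by decide +kernel⟩

theorem c_pm_012_s : CertNE 0 536870912 1073741824 536870912 1040187392 5207648 3 eng mog cd0q0 cd5q2 pd1 false true false .pnp 0 1 2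
    ndB0q0 ndB5q2 pcB1 cut_pm_012_s Ext.none :=
  certNE0 (fam := false) (s1 := true) (s2 := false) (a := 0) (b := 1) (c := 2) (cn := .pnp) (n1 := ndB0q0) (n2 := ndB5q2) (pc := pcB1) (cut := cut_pm_012_s) (xt := Ext.none) (P1 := 0) (W1 := 536870912) (P2 := 1073741824) (W2 := 536870912) (P3 := 1040187392) (W3 := 5207648) (N0 := 3) (En := eng) (mo := mog) (C1 := cd0q0) (C2 := cd5q2) (C3 := pd1)
    rfl k0_pm_012_s

noncomputable def cut_pm_022_s : Cut := Cut.of [[⟨4, 0, 0, 1449551462⟩]]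

noncomputable def f_pm_022_s : ℕ → ℕ → ℕ → ℕ → Bool := onCell 0 536870912 1073741824 536870912 1040187392 5207648
    (rowNE 3 eng mog cd0q0 cd5q2 pd2 0 false true false .pp 0 2 2 (qsf 0 536870912 1073741824 536870912 2) ndB0q0 ndB5q2 pcB2 cut_pm_022_s Ext.none)

def k0_pm_022_s : ∃ t, chk3 f_pm_022_s t 1 1 1 = true :=
  ⟨(l 4), by decide +kernel⟩

theorem c_pm_022_s : CertNE 0 536870912 1073741824 536870912 1040187392 5207648 3 eng mog cd0q0 cd5q2 pd2 false true false .pp 0 2 2
    ndB0q0 ndB5q2 pcB2 cut_pm_022_s Ext.none :=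
  certNE0 (fam := false) (s1 := true) (s2 := false) (a := 0) (b := 2) (c := 2) (cn := .pp) (n1 := ndB0q0) (n2 := ndB5q2) (pc := pcB2) (cut := cut_pm_022_s) (xt := Ext.none) (P1 := 0) (W1 := 536870912) (P2 := 1073741824) (W2 := 536870912) (P3 := 1040187392) (W3 := 5207648) (N0 := 3) (En := eng) (mo := mog) (C1 := cd0q0) (C2 := cd5q2) (C3 := pd2)
    rfl k0_pm_022_s

noncomputable def cut_pm_023_s : Cut := Cut.of [[⟨4, 0, 0, 1449551462⟩]]

noncomputable def f_pm_023_s : ℕ → ℕ → ℕ → ℕ → Bool := onCell 0 536870912 0 1230186008 1040187392 5207648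
    (rowNE 3 eng mog cd0q0 cd5q3 pd2 0 false true false .up 0 2 3 (qsf 0 536870912 0 1230186008 2) ndB0q0 ndB5q3 pcB2 cut_pm_023_s Ext.none)

def k0_pm_023_s : ∃ t, chk3 f_pm_023_s t 1 1 1 = true :=
  ⟨(l 6), by decide +kernel⟩

theorem c_pm_023_s : CertNE 0 536870912 0 1230186008 1040187392 5207648 3 eng mog cd0q0 cd5q3 pd2 false true false .up 0 2 3
    ndB0q0 ndB5q3 pcB2 cut_pm_023_s Ext.none :=
  certNE0 (fam := false) (s1 := true) (s2 := false) (a := 0) (b := 2) (c := 3) (cn := .up) (n1 := ndB0q0) (n2 := ndB5q3) (pc := pcB2) (cut := cut_pm_023_s) (xt := Ext.none) (P1 := 0) (W1 := 536870912) (P2 := 0) (W2 := 1230186008) (P3 := 1040187392) (W3 := 5207648) (N0 := 3) (En := eng) (mo := mog) (C1 := cd0q0) (C2 := cd5q3) (C3 := pd2)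
    rfl k0_pm_023_s

noncomputable def cut_pm_033_s : Cut := Cut.of [[⟨4, 0, 0, 1449551462⟩]]

noncomputable def f_pm_033_s : ℕ → ℕ → ℕ → ℕ → Bool := onCell 0 536870912 0 1230186008 1040187392 5207648
    (rowNE 3 eng mog cd0q0 cd5q3 pd3 0 false true false .pnn 0 3 3 (qsf 0 536870912 0 1230186008 3) ndB0q0 ndB5q3 pcB3 cut_pm_033_s Ext.none)

def k0_pm_033_s : ∃ t, chk3 f_pm_033_s t 1 1 1 = true :=
  ⟨(l 6), by decide +kernel⟩

theorem c_pm_033_s : CertNE 0 536870912 0 1230186008 1040187392 5207648 3 eng mog cd0q0 cd5q3 pd3 false true false .pnn 0 3 3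
    ndB0q0 ndB5q3 pcB3 cut_pm_033_s Ext.none :=
  certNE0 (fam := false) (s1 := true) (s2 := false) (a := 0) (b := 3) (c := 3) (cn := .pnn) (n1 := ndB0q0) (n2 := ndB5q3) (pc := pcB3) (cut := cut_pm_033_s) (xt := Ext.none) (P1 := 0) (W1 := 536870912) (P2 := 0) (W2 := 1230186008) (P3 := 1040187392) (W3 := 5207648) (N0 := 3) (En := eng) (mo := mog) (C1 := cd0q0) (C2 := cd5q3) (C3 := pd3)
    rfl k0_pm_033_s

noncomputable def cut_pm_101_s : Cut := Cut.of [[⟨4, 0, 0, 1449551462⟩]]

noncomputable def f_pm_101_s : ℕ → ℕ → ℕ → ℕ → Bool := onCell 536870912 536870912 536870912 536870912 1040187392 5207648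
    (rowNE 3 eng mog cd0q1 cd5q1 pd0 0 false true false .npn 1 0 1 (qsf 536870912 536870912 536870912 536870912 0) ndB0q1 ndB5q1 pcB0 cut_pm_101_s Ext.none)

def k0_pm_101_s : ∃ t, chk3 f_pm_101_s t 1 1 1 = true :=
  ⟨(l 4), by decide +kernel⟩

theorem c_pm_101_s : CertNE 536870912 536870912 536870912 536870912 1040187392 5207648 3 eng mog cd0q1 cd5q1 pd0 false true false .npn 1 0 1
    ndB0q1 ndB5q1 pcB0 cut_pm_101_s Ext.none :=
  certNE0 (fam := false) (s1 := true) (s2 := false) (a := 1) (b := 0) (c := 1) (cn := .npn) (n1 := ndB0q1) (n2 := ndB5q1) (pc := pcB0) (cut := cut_pm_101_s) (xt := Ext.none) (P1 := 536870912) (W1 := 536870912) (P2 := 536870912) (W2 := 536870912) (P3 := 1040187392) (W3 := 5207648) (N0 := 3) (En := eng) (mo := mog) (C1 := cd0q1) (C2 := cd5q1) (C3 := pd0)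
    rfl k0_pm_101_s

noncomputable def cut_pm_102_s : Cut := Cut.of [[⟨4, 0, 0, 1449551462⟩]]

noncomputable def f_pm_102_s : ℕ → ℕ → ℕ → ℕ → Bool := onCell 536870912 536870912 1073741824 536870912 1040187392 5207648
    (rowNE 3 eng mog cd0q1 cd5q2 pd0 0 false true false .npp 1 0 2 (qsf 536870912 536870912 1073741824 536870912 0) ndB0q1 ndB5q2 pcB0 cut_pm_102_s Ext.none)

def k0_pm_102_s : ∃ t, chk3 f_pm_102_s t 1 1 1 = true :=
  ⟨(l 6), by decide +kernel⟩

theorem c_pm_102_s : CertNE 536870912 536870912 1073741824 536870912 1040187392 5207648 3 eng mog cd0q1 cd5q2 pd0 false true false .npp 1 0 2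
    ndB0q1 ndB5q2 pcB0 cut_pm_102_s Ext.none :=
  certNE0 (fam := false) (s1 := true) (s2 := false) (a := 1) (b := 0) (c := 2) (cn := .npp) (n1 := ndB0q1) (n2 := ndB5q2) (pc := pcB0) (cut := cut_pm_102_s) (xt := Ext.none) (P1 := 536870912) (W1 := 536870912) (P2 := 1073741824) (W2 := 536870912) (P3 := 1040187392) (W3 := 5207648) (N0 := 3) (En := eng) (mo := mog) (C1 := cd0q1) (C2 := cd5q2) (C3 := pd0)
    rfl k0_pm_102_s

noncomputable def cut_pm_112_s : Cut := Cut.of [[⟨4, 0, 0, 1449551462⟩]]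

noncomputable def f_pm_112_s : ℕ → ℕ → ℕ → ℕ → Bool := onCell 536870912 536870912 1073741824 536870912 1040187392 5207648
    (rowNE 3 eng mog cd0q1 cd5q2 pd1 0 false true false .dn 1 1 2 (qsf 536870912 536870912 1073741824 536870912 1) ndB0q1 ndB5q2 pcB1 cut_pm_112_s Ext.none)

def k0_pm_112_s : ∃ t, chk3 f_pm_112_s t 1 1 1 = true :=
  ⟨(l 6), by decide +kernel⟩

theorem c_pm_112_s : CertNE 536870912 536870912 1073741824 536870912 1040187392 5207648 3 eng mog cd0q1 cd5q2 pd1 false true false .dn 1 1 2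
    ndB0q1 ndB5q2 pcB1 cut_pm_112_s Ext.none :=
  certNE0 (fam := false) (s1 := true) (s2 := false) (a := 1) (b := 1) (c := 2) (cn := .dn) (n1 := ndB0q1) (n2 := ndB5q2) (pc := pcB1) (cut := cut_pm_112_s) (xt := Ext.none) (P1 := 536870912) (W1 := 536870912) (P2 := 1073741824) (W2 := 536870912) (P3 := 1040187392) (W3 := 5207648) (N0 := 3) (En := eng) (mo := mog) (C1 := cd0q1) (C2 := cd5q2) (C3 := pd1)
    rfl k0_pm_112_s

noncomputable def cut_pm_113_s : Cut := Cut.of [[⟨4, 0, 0, 1449551462⟩], [⟨0, 1, 0, 15728640⟩, ⟨1, 1, 0, 15728640⟩, ⟨2, 2, 0, 524288⟩]]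

noncomputable def f_pm_113_s : ℕ → ℕ → ℕ → ℕ → Bool := onCell 536870912 536870912 0 1230186008 1040187392 5207648
    (rowNE 3 eng mog cd0q1 cd5q3 pd1 0 false true false .nn 1 1 3 (qsf 536870912 536870912 0 1230186008 1) ndB0q1 ndB5q3 pcB1 cut_pm_113_s Ext.none)

def k0_pm_113_s : ∃ t, chk3 f_pm_113_s t 1 1 1 = true :=
  ⟨(b (a (l 2) (a (l 2) (b (a (l 2) (a (l 2) (a (b (l 2) (b (l 2) (l 16448480))) (b (a (l 2) (b (b (l 14) (l 16678712)) (l 16606856))) (b (l 16532672) (l 16447040)))))) (a (l 6) (a (l 6) (b (b (l 16387176) (l 6)) (l 6))))))) (b (l 6) (l 6))), by decide +kernel⟩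

theorem c_pm_113_s : CertNE 536870912 536870912 0 1230186008 1040187392 5207648 3 eng mog cd0q1 cd5q3 pd1 false true false .nn 1 1 3
    ndB0q1 ndB5q3 pcB1 cut_pm_113_s Ext.none :=
  certNE0 (fam := false) (s1 := true) (s2 := false) (a := 1) (b := 1) (c := 3) (cn := .nn) (n1 := ndB0q1) (n2 := ndB5q3) (pc := pcB1) (cut := cut_pm_113_s) (xt := Ext.none) (P1 := 536870912) (W1 := 536870912) (P2 := 0) (W2 := 1230186008) (P3 := 1040187392) (W3 := 5207648) (N0 := 3) (En := eng) (mo := mog) (C1 := cd0q1) (C2 := cd5q3) (C3 := pd1)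
    rfl k0_pm_113_s

noncomputable def cut_pm_123_s : Cut := Cut.of [[⟨4, 0, 0, 1449551462⟩], [⟨0, 1, 0, 15728640⟩, ⟨1, 1, 0, 15728640⟩, ⟨2, 2, 0, 524288⟩]]

noncomputable def f_pm_123_s : ℕ → ℕ → ℕ → ℕ → Bool := onCell 1073741824 536870912 0 1230186008 1040187392 5207648
    (rowNE 3 eng mog cd0q1 cd5q3 pd2 2 false true false .npn 1 2 3 (qsf 536870912 536870912 0 1230186008 2) ndB0q1 ndB5q3 pcB2 cut_pm_123_s Ext.none)

def k0_pm_123_s : ∃ t, chk3 f_pm_123_s t 1 1 1 = true :=
  ⟨(b (a (b (a (a (a (b (b (a (b (a (l 14) (b (a (l 14) (l 16775496)) (l 16747544))) (l 16676728)) (b (b (a (l 16755624) (l 16728840)) (l 16734192)) (l 16714000))) (a (b (l 16736416) (l 16756480)) (b (l 16682504) (l 16651752)))) (b (a (l 16714736) (l 16595640)) (a (l 16644376) (l 16212864)))) (b (b (a (l 16642640) (l 16601888)) (a (l 16558288) (l 16491744))) (b (a (l 16415024) (l 16273608)) (l 6)))) (b (a (b (a (l 16519208) (l 16418992)) (l 16318824)) (b (l 16257384) (l 6))) (l 6))) (b (l 6) (l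 6))) (b (l 6) (l 6))) (l 6)) (l 6)), by decide +kernel⟩

theorem c_pm_123_s : CertNE 536870912 536870912 0 1230186008 1040187392 5207648 3 eng mog cd0q1 cd5q3 pd2 false true false .npn 1 2 3
    ndB0q1 ndB5q3 pcB2 cut_pm_123_s Ext.none :=
  certNE2 (fam := false) (s1 := true) (s2 := false) (a := 1) (b := 2) (c := 3) (cn := .npn) (n1 := ndB0q1) (n2 := ndB5q3) (pc := pcB2) (cut := cut_pm_123_s) (xt := Ext.none) (P1 := 536870912) (W1 := 536870912) (P2 := 0) (W2 := 1230186008) (P3 := 1040187392) (W3 := 5207648) (N0 := 3) (En := eng) (mo := mog) (C1 := cd0q1) (C2 := cd5q3) (C3 := pd2)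
    rfl (fun _ => rfl) k0_pm_123_s

noncomputable def cut_pm_133_s : Cut := Cut.of [[⟨4, 0, 0, 1449551462⟩]]

noncomputable def f_pm_133_s : ℕ → ℕ → ℕ → ℕ → Bool := onCell 1610612736 536870912 0 1230186008 1040187392 5207648
    (rowNE 3 eng mog cd0q1 cd5q3 pd3 2 false true false .dn 1 3 3 (qsf 536870912 536870912 0 1230186008 3) ndB0q1 ndB5q3 pcB3 cut_pm_133_s Ext.none)

def k0_pm_133_s : ∃ t, chk3 f_pm_133_s t 1 1 1 = true :=
  ⟨(l 6), by decide +kernel⟩

theorem c_pm_133_s : CertNE 536870912 536870912 0 1230186008 1040187392 5207648 3 eng mog cd0q1 cd5q3 pd3 false true false .dn 1 3 3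
    ndB0q1 ndB5q3 pcB3 cut_pm_133_s Ext.none :=
  certNE2 (fam := false) (s1 := true) (s2 := false) (a := 1) (b := 3) (c := 3) (cn := .dn) (n1 := ndB0q1) (n2 := ndB5q3) (pc := pcB3) (cut := cut_pm_133_s) (xt := Ext.none) (P1 := 536870912) (W1 := 536870912) (P2 := 0) (W2 := 1230186008) (P3 := 1040187392) (W3 := 5207648) (N0 := 3) (En := eng) (mo := mog) (C1 := cd0q1) (C2 := cd5q3) (C3 := pd3)
    rfl (fun _ => rfl) k0_pm_133_s

noncomputable def cut_pm_202_s : Cut := Cut.of [[⟨4, 0, 0, 1449551462⟩]]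

noncomputable def f_pm_202_s : ℕ → ℕ → ℕ → ℕ → Bool := onCell 0 536870912 1073741824 536870912 1040187392 5207648
    (rowNE 3 eng mog cd0q2 cd5q2 pd0 0 false true false .pp 2 0 2 (qsf 0 536870912 1073741824 536870912 0) ndB0q2 ndB5q2 pcB0 cut_pm_202_s Ext.none)

def k0_pm_202_s : ∃ t, chk3 f_pm_202_s t 1 1 1 = true :=
  ⟨(a (b (l 6) (b (l 6) (l 6))) (l 6)), by decide +kernel⟩

theorem c_pm_202_s : CertNE 0 536870912 1073741824 536870912 1040187392 5207648 3 eng mog cd0q2 cd5q2 pd0 false true false .pp 2 0 2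
    ndB0q2 ndB5q2 pcB0 cut_pm_202_s Ext.none :=
  certNE0 (fam := false) (s1 := true) (s2 := false) (a := 2) (b := 0) (c := 2) (cn := .pp) (n1 := ndB0q2) (n2 := ndB5q2) (pc := pcB0) (cut := cut_pm_202_s) (xt := Ext.none) (P1 := 0) (W1 := 536870912) (P2 := 1073741824) (W2 := 536870912) (P3 := 1040187392) (W3 := 5207648) (N0 := 3) (En := eng) (mo := mog) (C1 := cd0q2) (C2 := cd5q2) (C3 := pd0)
    rfl k0_pm_202_s

noncomputable def cut_pm_203_s : Cut := Cut.of [[⟨4, 0, 0, 1449551462⟩]]

noncomputable def f_pm_203_s : ℕ → ℕ → ℕ → ℕ → Bool := onCell 0 536870912 0 1230186008 1040187392 5207648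
    (rowNE 3 eng mog cd0q2 cd5q3 pd0 0 false true false .up 2 0 3 (qsf 0 536870912 0 1230186008 0) ndB0q2 ndB5q3 pcB0 cut_pm_203_s Ext.none)

def k0_pm_203_s : ∃ t, chk3 f_pm_203_s t 1 1 1 = true :=
  ⟨(b (l 2) (b (l 2) (a (b (b (l 2) (b (a (l 2) (l 2)) (a (a (a (l 16553000) (l 16472312)) (l 16306832)) (l 6)))) (a (a (b (b (a (b (l 16490112) (l 16443728)) (l 16356896)) (l 16285280)) (b (l 16145288) (b (l 16035104) (l 6)))) (b (b (l 16173384) (l 6)) (l 6))) (l 6))) (l 6)))), by decide +kernel⟩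

theorem c_pm_203_s : CertNE 0 536870912 0 1230186008 1040187392 5207648 3 eng mog cd0q2 cd5q3 pd0 false true false .up 2 0 3
    ndB0q2 ndB5q3 pcB0 cut_pm_203_s Ext.none :=
  certNE0 (fam := false) (s1 := true) (s2 := false) (a := 2) (b := 0) (c := 3) (cn := .up) (n1 := ndB0q2) (n2 := ndB5q3) (pc := pcB0) (cut := cut_pm_203_s) (xt := Ext.none) (P1 := 0) (W1 := 536870912) (P2 := 0) (W2 := 1230186008) (P3 := 1040187392) (W3 := 5207648) (N0 := 3) (En := eng) (mo := mog) (C1 := cd0q2) (C2 := cd5q3) (C3 := pd0)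
    rfl k0_pm_203_s

noncomputable def cut_pm_213_s : Cut := Cut.of [[⟨4, 0, 0, 1449551462⟩], [⟨0, 1, 0, 15728640⟩, ⟨1, 1, 0, 15728640⟩, ⟨2, 2, 0, 524288⟩]]

noncomputable def f_pm_213_s : ℕ → ℕ → ℕ → ℕ → Bool := onCell 0 536870912 0 1230186008 1040187392 5207648
    (rowNE 3 eng mog cd0q2 cd5q3 pd1 0 false true false .pnn 2 1 3 (qsf 0 536870912 0 1230186008 1) ndB0q2 ndB5q3 pcB1 cut_pm_213_s Ext.none)

def k0_pm_213_s : ∃ t, chk3 f_pm_213_s t 2 2 1 = true :=
  ⟨(b (l 3) (b (l 3) (a (l 3) (a (b (l 3) (a (l 3) (l 390472864663))) (b (a (l 3) (b (l 352355062151) (a (l 340007045143) (l 224042883719)))) (a (b (l 341617653703) (a (l 289541107207) (l 16745136))) (b (l 155323396903) (l 16694632)))))))), by decide +kernel⟩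

def k1_pm_213_s : ∃ t, chk3 f_pm_213_s t 6 4 1 = true :=
  ⟨(b (l 3) (a (l 3) (b (l 3) (a (l 3) (b (a (l 3) (b (l 3) (l 313700375991))) (a (l 298667969623) (b (l 266992605047) (l 16752200)))))))), by decide +kernel⟩

def k2_pm_213_s : ∃ t, chk3 f_pm_213_s t 14 4 1 = true :=
  ⟨(b (b (l 3) (a (l 3) (b (l 3) (a (l 3) (b (a (l 3) (b (l 3) (a (l 3) (b (l 3) (a (l 3) (l 367924324247)))))) (a (b (l 3) (a (l 3) (b (l 391009789959) (l 326048394631)))) (b (a (b (l 3) (l 358260647415)) (b (a (l 343228263431) (l 16774320)) (l 16771944))) (a (b (l 219747968215) (l 16770664)) (l 16765552))))))))) (b (a (b (l 3) (a (b (l 3) (l 385641070823)) (b (a (l 396378490615) (l 311016008407)) (a (l 261087031447) (l 16760448))))) (b (a (b (a (l 3) (b (l 3) (a (l 410337141127) (l 309405395335)))) (a (b (l 403357817703) (l 309405375063)) (b (a (l 245517769191) (l 16768440)) (l 16763096)))) (b (a (b (a (l 331417103095) (l 155860331991)) (l 16766416)) (l 16734808)) (a (l 16752416) (l 16735712))))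 (a (a (b (l 174113937783) (l 16744216)) (l 16737360)) (l 16709672)))) (a (b (a (b (l 298131106023) (l 205789317159)) (l 16737288)) (a (l 16728168) (l 16688784))) (a (b (l 16699000) (l 16642824)) (l 16622672))))), by decide +kernel⟩

def k3_pm_213_s : ∃ t, chk3 f_pm_213_s t 30 16 1 = true :=
  ⟨(a (l 3) (b (l 3) (b (l 3) (a (l 3) (b (a (l 3) (b (l 3) (a (l 3) (b (l 3) (a (l 3) (l 440938788823)))))) (a (b (l 3) (a (l 3) (b (l 3) (a (l 440401916967) (l 345912633959))))) (b (a (b (l 3) (a (l 3) (b (l 440938788983) (l 355039434471)))) (b (a (b (l 3) (l 389399172327)) (b (a (l 360408133111) (l 16776304)) (l 16775632))) (a (l 169282107575) (l 16773848)))) (a (b (a (b (l 437180693159) (l 224579807495)) (l 16775536)) (l 16774176)) (l 16771344))))))))), by decide +kernel⟩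

def k4_pm_213_s : ∃ t, chk3 f_pm_213_s t 30 17 1 = true :=
  ⟨(a (b (b (l 3) (a (b (l 3) (l 3)) (b (a (l 3) (b (a (l 3) (b (l 3) (a (l 3) (l 377588001847)))) (a (b (l 439865044583) (a (l 435033208391) (l 231559124039))) (b (a (l 352891940231) (l 16775408)) (l 16774120))))) (a (b (a (l 3) (b (l 432885723847) (a (l 407652793031) (l 199883748839)))) (a (b (a (l 3) (l 380809227047)) (a (l 353965682055) (l 16775608))) (l 153175979895))) (b (a (b (a (l 220821713719) (l 16774744)) (l 16773472)) (l 16770696)) (l 16768152)))))) (a (b (b (a (b (l 3) (a (l 3) (l 409263403143))) (b (a (l 434496334855) (b (l 374366791543) (l 271287574071))) (a (b (l 337322683767) (l 16775192)) (l 16772616)))) (a (b (a (l 393157276935) (l 215989873511)) (a (l 193978167831) (l 16771400))) (l 16746992))) (a (l 16741352) (l 16754456))) (b (a (a (b (l 16771032) (l 16762168)) (l 16741752)) (l 16756944)) (l 16742512)))) (b (b (a (b (a (l 3) (b (l 3) (a (l 3) (b (a (l 3) (l 413558362599)) (a (l 388325430327)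 (l 164450269607)))))) (a (b (a (l 3) (l 438791301223)) (a (l 437717560519) (b (a (l 437180692311) (l 219747968855)) (a (l 207936812119) (l 16774480))))) (b (a (b (a (l 3) (l 363629368983)) (a (l 338933296199) (l 16775152))) (l 16773312)) (l 16770688)))) (b (a (b (a (b (l 439865045079) (a (l 438254434455) (b (l 334638328951) (l 16775936)))) (a (b (b (l 368461196631) (l 16776264)) (l 16774504)) (l 16773680))) (a (b (a (l 189683201639) (l 16774160)) (l 16772832)) (l 16770032))) (l 16745424)) (a (l 16765152) (l 16757360)))) (a (b (a (b (a (b (a (l 402284063207) (l 181630138359)) (l 16774784)) (l 16771984)) (l 16748432)) (l 16763960)) (l 16738072)) (l 16748264))) (a (b (l 16746536) (l 16729992)) (l 16724696)))), by decide +kernel⟩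

def k5_pm_213_s : ∃ t, chk3 f_pm_213_s t 31 16 1 = true :=
  ⟨(a (b (a (l 3) (a (l 3) (l 14))) (a (b (b (l 3) (a (l 3) (b (a (l 3) (b (a (l 3) (l 450602464551)) (a (b (l 3) (a (l 3) (l 393694145047))) (b (a (l 418927077607) (l 178408913847)) (l 141901692135))))) (a (b (a (l 3) (b (l 3) (a (l 444696885783) (l 342154532391)))) (a (b (l 443623143415) (a (l 438791306311) (l 203641846311))) (b (l 270213836103) (l 16775280)))) (b (a (b (a (l 367924341575) (l 16776296)) (l 16775616)) (l 16774160)) (l 16772808)))))) (b (a (b (a (l 452213073367) (b (a (l 3) (b (l 442012531255) (a (l 387788559783) (l 16776472)))) (a (b (a (l 3) (l 362555627223)) (a (l 337322683687) (l 16776144))) (l 16775200)))) (a (b (a (l 442012530071) (b (a (l 441475660615) (l 225653553351)) (l 174650817063))) (a (b (l 340007048679) (l 16775976)) (l 16774528))) (l 16772672))) (b (a (b (a (l 146733529911) (l 16773496)) (l 16772152)) (l 16769272)) (l 16766600))) (a (b (l 16759504) (l 16765336)) (l 16759664))))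 (b (b (a (b (a (l 3) (b (l 3) (a (l 3) (b (l 452213077975) (a (l 442549402711) (l 203104975319)))))) (a (b (l 3) (a (l 452213076711) (b (a (l 454897432807) (l 365239987031)) (a (l 339470183047) (l 16776104))))) (b (a (b (a (l 3) (l 416779596615)) (a (b (l 450602466439) (l 341617661543)) (l 16776432))) (b (a (l 174113946615) (l 16775568)) (l 16774888))) (l 16776872)))) (b (a (b (l 14) (a (a (a (l 269676965767) (l 16776072)) (l 16764808)) (l 16773744))) (l 16761352)) (l 16761264))) (a (a (b (b (a (a (b (l 450602466087) (l 202568104471)) (a (l 268066352759) (l 16776112))) (l 16774824)) (l 16762984)) (l 16769920)) (l 16747248)) (l 16762056))) (l 16731272)))) (b (b (l 14) (l 14)) (a (b (b (l 16738056) (l 16749600)) (l 16735808)) (l 16728344)))), by decide +kernel⟩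

def k6_pm_213_s : ∃ t, chk3 f_pm_213_s t 31 17 1 = true :=
  ⟨(a (b (a (b (l 16729152) (l 16733136)) (l 16726216)) (l 16703672)) (b (l 16659712) (l 16671920))), by decide +kernel⟩

def k7_pm_213_s : ∃ t, chk3 f_pm_213_s t 15 9 1 = true :=
  ⟨(a (b (a (b (a (l 16728416) (l 16711456)) (l 16669824)) (b (l 16701080) (l 16650400))) (a (l 16572184) (l 16536160))) (b (a (l 16623376) (l 16635880)) (a (l 16588888) (l 16599488)))), by decide +kernel⟩

def k8_pm_213_s : ∃ t, chk3 f_pm_213_s t 3 5 1 = true :=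
  ⟨(a (b (a (b (a (l 3) (b (l 3) (l 337859567399))) (a (b (l 3) (l 314237225127)) (b (a (l 306184187031) (l 253033940231)) (a (l 202031201607) (l 16722872))))) (b (a (b (a (l 3) (l 285246221863)) (a (l 274508804487) (l 16743872))) (b (a (l 217600470983) (l 16718432)) (l 16688616))) (a (b (l 16715768) (l 16667168)) (l 16607608)))) (a (b (a (b (a (l 280951203287) (l 16746296)) (l 16717616)) (b (l 16693640) (l 16645768))) (a (l 16606000) (l 16575088))) (b (a (l 16590280) (l 16496896)) (a (l 16493168) (l 16398384))))) (b (a (b (a (l 16646768) (l 16512416)) (a (l 16501800) (l 16363456))) (a (b (a (l 16410056) (l 16338776)) (a (l 16237896) (l 16138416))) (b (a (l 16293376) (l 16378128)) (l 15979832)))) (b (a (a (l 16378336) (l 16223856)) (l 6)) (a (a (l 16271360) (l 6)) (l 6))))), by decide +kernel⟩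

def k9_pm_213_s : ∃ t, chk3 f_pm_213_s t 1 3 1 = true :=
  ⟨(b (a (b (a (b (l 3) (a (l 3) (a (l 3) (b (l 394767840775) (l 264308031751))))) (b (a (a (b (l 3) (l 340007019767)) (b (l 262160633735) (l 16724536))) (b (a (l 16710488) (l 16645288)) (l 16570128))) (a (b (a (a (l 276656136583) (l 16723512)) (l 16655544)) (l 16620400)) (b (l 16533856) (l 16365720))))) (a (b (b (a (l 3) (a (a (l 395841590359) (l 275045506551)) (l 16690144))) (a (l 399599593207) (a (b (l 16734944) (l 16691856)) (l 16593240)))) (a (b (a (l 407652713495) (b (l 222432239207) (l 16717488))) (a (a (l 293299101095) (l 135459099751)) (l 16615920))) (b (l 16567880) (l 16341800)))) (b (a (b (l 16442480) (l 16418040)) (a (b (l 16378152) (l 16302952)) (b (l 16350776) (l 16385616)))) (a (b (a (l 16355752) (l 16267640)) (a (l 16244952) (l 16256224))) (b (l 16205528) (l 16505272)))))) (a (b (a (b (a (l 16556400) (l 16496784)) (a (b (l 16445992) (l 16409344)) (l 16449896))) (b (a (l 16421736) (l 16318736))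 (l 16296680))) (b (a (l 16369576) (l 6)) (l 6))) (b (l 6) (l 6)))) (a (a (b (b (a (b (a (l 16663912) (l 16513968)) (l 16290728)) (b (a (l 16365032) (l 16234272)) (a (l 16234696) (b (l 16186632) (l 16232888))))) (b (a (a (l 16400344) (l 16245280)) (a (b (l 16179704) (l 16224504)) (l 16411048))) (b (a (a (l 16294632) (l 16187488)) (l 16423336)) (l 1)))) (l 1)) (b (a (b (b (a (l 16095576) (l 16438696)) (l 16368944)) (b (l 16467272) (l 6))) (l 6)) (l 6))) (l 6))), by decide +kernel⟩

theorem s10_pm_213_s : ∃ t, chk3 f_pm_213_s t 31 8 1 = true := ex3_b k5_pm_213_s k6_pm_213_s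

theorem s11_pm_213_s : ∃ t, chk3 f_pm_213_s t 30 8 1 = true := ex3_b k3_pm_213_s k4_pm_213_s

theorem s12_pm_213_s : ∃ t, chk3 f_pm_213_s t 15 8 1 = true := ex3_a s11_pm_213_s s10_pm_213_s

theorem s13_pm_213_s : ∃ t, chk3 f_pm_213_s t 15 4 1 = true := ex3_b s12_pm_213_s k7_pm_213_s

theorem s14_pm_213_s : ∃ t, chk3 f_pm_213_s t 7 4 1 = true := ex3_a k2_pm_213_s s13_pm_213_s

theorem s15_pm_213_s : ∃ t, chk3 f_pm_213_s t 3 4 1 = true := ex3_a k1_pm_213_s s14_pm_213_s

theorem s16_pm_213_s : ∃ t, chk3 f_pm_213_s t 3 2 1 = true := ex3_b s15_pm_213_s k8_pm_213_s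

theorem s17_pm_213_s : ∃ t, chk3 f_pm_213_s t 1 2 1 = true := ex3_a k0_pm_213_s s16_pm_213_s

theorem s18_pm_213_s : ∃ t, chk3 f_pm_213_s t 1 1 1 = true := ex3_b s17_pm_213_s k9_pm_213_s

theorem c_pm_213_s : CertNE 0 536870912 0 1230186008 1040187392 5207648 3 eng mog cd0q2 cd5q3 pd1 false true false .pnn 2 1 3
    ndB0q2 ndB5q3 pcB1 cut_pm_213_s Ext.none :=
  certNE0 (fam := false) (s1 := true) (s2 := false) (a := 2) (b := 1) (c := 3) (cn := .pnn) (n1 := ndB0q2) (n2 := ndB5q3) (pc := pcB1) (cut := cut_pm_213_s) (xt := Ext.none) (P1 := 0) (W1 := 536870912) (P2 := 0) (W2 := 1230186008) (P3 := 1040187392) (W3 := 5207648) (N0 := 3) (En := eng) (mo := mog) (C1 := cd0q2) (C2 := cd5q3) (C3 := pd1)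
    rfl s18_pm_213_s

noncomputable def cut_mm_001_s : Cut := Cut.of [[⟨4, 0, 0, 1449551462⟩]]

noncomputable def f_mm_001_s : ℕ → ℕ → ℕ → ℕ → Bool := onCell 0 536870912 0 536870912 1040187392 5207648
    (rowNE 3 eng mog cd0q0 cd5q1 pd0 1 false false false .up 0 0 1 (qsf 0 536870912 536870912 536870912 0) ndB0q0 ndB5q1 pcB0 cut_mm_001_s Ext.none)

def k0_mm_001_s : ∃ t, chk3 f_mm_001_s t 1 1 1 = true :=
  ⟨(l 3), by decide +kernel⟩

theorem c_mm_001_s : CertNE 0 536870912 536870912 536870912 1040187392 5207648 3 eng mog cd0q0 cd5q1 pd0 false false false .up 0 0 1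
    ndB0q0 ndB5q1 pcB0 cut_mm_001_s Ext.none :=
  certNE1 (fam := false) (s1 := false) (s2 := false) (a := 0) (b := 0) (c := 1) (cn := .up) (n1 := ndB0q0) (n2 := ndB5q1) (pc := pcB0) (cut := cut_mm_001_s) (xt := Ext.none) (P1 := 0) (W1 := 536870912) (P2 := 536870912) (W2 := 536870912) (P3 := 1040187392) (W3 := 5207648) (N0 := 3) (En := eng) (mo := mog) (C1 := cd0q0) (C2 := cd5q1) (C3 := pd0)
    rfl (fun _ => rfl) k0_mm_001_s

noncomputable def cut_mm_011_s : Cut := Cut.of [[⟨4, 0, 0, 1449551462⟩]]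

noncomputable def f_mm_011_s : ℕ → ℕ → ℕ → ℕ → Bool := onCell 0 536870912 536870912 536870912 1040187392 5207648
    (rowNE 3 eng mog cd0q0 cd5q1 pd1 1 false false false .pnn 0 1 1 (qsf 0 536870912 536870912 536870912 1) ndB0q0 ndB5q1 pcB1 cut_mm_011_s Ext.none)

def k0_mm_011_s : ∃ t, chk3 f_mm_011_s t 1 1 1 = true :=
  ⟨(l 5), by decide +kernel⟩

theorem c_mm_011_s : CertNE 0 536870912 536870912 536870912 1040187392 5207648 3 eng mog cd0q0 cd5q1 pd1 false false false .pnn 0 1 1
    ndB0q0 ndB5q1 pcB1 cut_mm_011_s Ext.none :=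
  certNE1 (fam := false) (s1 := false) (s2 := false) (a := 0) (b := 1) (c := 1) (cn := .pnn) (n1 := ndB0q0) (n2 := ndB5q1) (pc := pcB1) (cut := cut_mm_011_s) (xt := Ext.none) (P1 := 0) (W1 := 536870912) (P2 := 536870912) (W2 := 536870912) (P3 := 1040187392) (W3 := 5207648) (N0 := 3) (En := eng) (mo := mog) (C1 := cd0q0) (C2 := cd5q1) (C3 := pd1)
    rfl (fun _ => rfl) k0_mm_011_s

noncomputable def cut_mm_012_s : Cut := Cut.of [[⟨4, 0, 0, 1449551462⟩]]

noncomputable def f_mm_012_s : ℕ → ℕ → ℕ → ℕ → Bool := onCell 0 536870912 1073741824 536870912 1040187392 5207648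
    (rowNE 3 eng mog cd0q0 cd5q2 pd1 0 false false false .pnp 0 1 2 (qsf 0 536870912 1073741824 536870912 1) ndB0q0 ndB5q2 pcB1 cut_mm_012_s Ext.none)

def k0_mm_012_s : ∃ t, chk3 f_mm_012_s t 1 1 1 = true :=
  ⟨(l 5), by decide +kernel⟩

theorem c_mm_012_s : CertNE 0 536870912 1073741824 536870912 1040187392 5207648 3 eng mog cd0q0 cd5q2 pd1 false false false .pnp 0 1 2
    ndB0q0 ndB5q2 pcB1 cut_mm_012_s Ext.none :=
  certNE0 (fam := false) (s1 := false) (s2 := false) (a := 0) (b := 1) (c := 2) (cn := .pnp) (n1 := ndB0q0) (n2 := ndB5q2) (pc := pcB1) (cut := cut_mm_012_s) (xt := Ext.none) (P1 := 0) (W1 := 536870912) (P2 := 1073741824) (W2 := 536870912) (P3 := 1040187392) (W3 := 5207648) (N0 := 3) (En := eng) (mo := mog) (C1 := cd0q0) (C2 := cd5q2) (C3 := pd1)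
    rfl k0_mm_012_s

noncomputable def cut_mm_022_s : Cut := Cut.of [[⟨4, 0, 0, 1449551462⟩]]

noncomputable def f_mm_022_s : ℕ → ℕ → ℕ → ℕ → Bool := onCell 0 536870912 1073741824 536870912 1040187392 5207648
    (rowNE 3 eng mog cd0q0 cd5q2 pd2 0 false false false .pp 0 2 2 (qsf 0 536870912 1073741824 536870912 2) ndB0q0 ndB5q2 pcB2 cut_mm_022_s Ext.none)

def k0_mm_022_s : ∃ t, chk3 f_mm_022_s t 1 1 1 = true :=
  ⟨(l 5), by decide +kernel⟩

theorem c_mm_022_s : CertNE 0 536870912 1073741824 536870912 1040187392 5207648 3 eng mog cd0q0 cd5q2 pd2 false false false .pp 0 2 2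
    ndB0q0 ndB5q2 pcB2 cut_mm_022_s Ext.none :=
  certNE0 (fam := false) (s1 := false) (s2 := false) (a := 0) (b := 2) (c := 2) (cn := .pp) (n1 := ndB0q0) (n2 := ndB5q2) (pc := pcB2) (cut := cut_mm_022_s) (xt := Ext.none) (P1 := 0) (W1 := 536870912) (P2 := 1073741824) (W2 := 536870912) (P3 := 1040187392) (W3 := 5207648) (N0 := 3) (En := eng) (mo := mog) (C1 := cd0q0) (C2 := cd5q2) (C3 := pd2)
    rfl k0_mm_022_s

noncomputable def cut_mm_023_s : Cut := Cut.of [[⟨4, 0, 0, 1449551462⟩]]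

noncomputable def f_mm_023_s : ℕ → ℕ → ℕ → ℕ → Bool := onCell 0 536870912 0 1230186008 1040187392 5207648
    (rowNE 3 eng mog cd0q0 cd5q3 pd2 0 false false false .up 0 2 3 (qsf 0 536870912 0 1230186008 2) ndB0q0 ndB5q3 pcB2 cut_mm_023_s Ext.none)

def k0_mm_023_s : ∃ t, chk3 f_mm_023_s t 1 1 1 = true :=
  ⟨(l 5), by decide +kernel⟩

theorem c_mm_023_s : CertNE 0 536870912 0 1230186008 1040187392 5207648 3 eng mog cd0q0 cd5q3 pd2 false false false .up 0 2 3
    ndB0q0 ndB5q3 pcB2 cut_mm_023_s Ext.none :=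
  certNE0 (fam := false) (s1 := false) (s2 := false) (a := 0) (b := 2) (c := 3) (cn := .up) (n1 := ndB0q0) (n2 := ndB5q3) (pc := pcB2) (cut := cut_mm_023_s) (xt := Ext.none) (P1 := 0) (W1 := 536870912) (P2 := 0) (W2 := 1230186008) (P3 := 1040187392) (W3 := 5207648) (N0 := 3) (En := eng) (mo := mog) (C1 := cd0q0) (C2 := cd5q3) (C3 := pd2)
    rfl k0_mm_023_s

noncomputable def cut_mm_033_s : Cut := Cut.of [[⟨4, 0, 0, 1449551462⟩]]

noncomputable def f_mm_033_s : ℕ → ℕ → ℕ → ℕ → Bool := onCell 0 536870912 0 1230186008 1040187392 5207648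
    (rowNE 3 eng mog cd0q0 cd5q3 pd3 0 false false false .pnn 0 3 3 (qsf 0 536870912 0 1230186008 3) ndB0q0 ndB5q3 pcB3 cut_mm_033_s Ext.none)

def k0_mm_033_s : ∃ t, chk3 f_mm_033_s t 1 1 1 = true :=
  ⟨(l 5), by decide +kernel⟩

theorem c_mm_033_s : CertNE 0 536870912 0 1230186008 1040187392 5207648 3 eng mog cd0q0 cd5q3 pd3 false false false .pnn 0 3 3
    ndB0q0 ndB5q3 pcB3 cut_mm_033_s Ext.none :=
  certNE0 (fam := false) (s1 := false) (s2 := false) (a := 0) (b := 3) (c := 3) (cn := .pnn) (n1 := ndB0q0) (n2 := ndB5q3) (pc := pcB3) (cut := cut_mm_033_s) (xt := Ext.none) (P1 := 0) (W1 := 536870912) (P2 := 0) (W2 := 1230186008) (P3 := 1040187392) (W3 := 5207648) (N0 := 3) (En := eng) (mo := mog) (C1 := cd0q0) (C2 := cd5q3) (C3 := pd3)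
    rfl k0_mm_033_s

noncomputable def cut_mm_101_s : Cut := Cut.of [[⟨4, 0, 0, 1449551462⟩], [⟨0, 1, 0, 26843545⟩, ⟨1, 0, 0, 26843545⟩, ⟨2, 1, 0, 26843545⟩]]

noncomputable def f_mm_101_s : ℕ → ℕ → ℕ → ℕ → Bool := onCell 536870912 536870912 0 536870912 1040187392 5207648
    (rowNE 3 eng mog cd0q1 cd5q1 pd0 1 false false false .npn 1 0 1 (qsf 536870912 536870912 536870912 536870912 0) ndB0q1 ndB5q1 pcB0 cut_mm_101_s Ext.none)

def k0_mm_101_s : ∃ t, chk3 f_mm_101_s t 1 1 1 = true :=
  ⟨(a (l 3) (b (a (l 3) (b (a (l 3) (b (a (l 3) (b (b (a (l 3) (l 14)) (l 3)) (l 3))) (l 3))) (l 3))) (l 3))), by decide +kernel⟩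

theorem c_mm_101_s : CertNE 536870912 536870912 536870912 536870912 1040187392 5207648 3 eng mog cd0q1 cd5q1 pd0 false false false .npn 1 0 1
    ndB0q1 ndB5q1 pcB0 cut_mm_101_s Ext.none :=
  certNE1 (fam := false) (s1 := false) (s2 := false) (a := 1) (b := 0) (c := 1) (cn := .npn) (n1 := ndB0q1) (n2 := ndB5q1) (pc := pcB0) (cut := cut_mm_101_s) (xt := Ext.none) (P1 := 536870912) (W1 := 536870912) (P2 := 536870912) (W2 := 536870912) (P3 := 1040187392) (W3 := 5207648) (N0 := 3) (En := eng) (mo := mog) (C1 := cd0q1) (C2 := cd5q1) (C3 := pd0)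
    rfl (fun _ => rfl) k0_mm_101_s

noncomputable def cut_mm_102_s : Cut := Cut.of [[⟨4, 0, 0, 1449551462⟩], [⟨0, 1, 0, 26843545⟩, ⟨1, 0, 0, 26843545⟩, ⟨2, 1, 0, 26843545⟩]]

noncomputable def f_mm_102_s : ℕ → ℕ → ℕ → ℕ → Bool := onCell 536870912 536870912 0 536870912 1040187392 5207648
    (rowNE 3 eng mog cd0q1 cd5q2 pd0 1 false false false .npp 1 0 2 (qsf 536870912 536870912 1073741824 536870912 0) ndB0q1 ndB5q2 pcB0 cut_mm_102_s Ext.none)

def k0_mm_102_s : ∃ t, chk3 f_mm_102_s t 1 1 1 = true :=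
  ⟨(a (l 3) (b (a (l 3) (b (a (l 3) (b (a (l 3) (a (l 3) (b (b (l 14) (l 3)) (l 3)))) (l 3))) (l 3))) (l 3))), by decide +kernel⟩

theorem c_mm_102_s : CertNE 536870912 536870912 1073741824 536870912 1040187392 5207648 3 eng mog cd0q1 cd5q2 pd0 false false false .npp 1 0 2
    ndB0q1 ndB5q2 pcB0 cut_mm_102_s Ext.none :=
  certNE1 (fam := false) (s1 := false) (s2 := false) (a := 1) (b := 0) (c := 2) (cn := .npp) (n1 := ndB0q1) (n2 := ndB5q2) (pc := pcB0) (cut := cut_mm_102_s) (xt := Ext.none) (P1 := 536870912) (W1 := 536870912) (P2 := 1073741824) (W2 := 536870912) (P3 := 1040187392) (W3 := 5207648) (N0 := 3) (En := eng) (mo := mog) (C1 := cd0q1) (C2 := cd5q2) (C3 := pd0)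
    rfl (fun _ => rfl) k0_mm_102_s

noncomputable def cut_mm_112_s : Cut := Cut.of [[⟨4, 0, 0, 1449551462⟩]]

noncomputable def f_mm_112_s : ℕ → ℕ → ℕ → ℕ → Bool := onCell 536870912 536870912 1073741824 536870912 1040187392 5207648
    (rowNE 3 eng mog cd0q1 cd5q2 pd1 2 false false false .dn 1 1 2 (qsf 536870912 536870912 1073741824 536870912 1) ndB0q1 ndB5q2 pcB1 cut_mm_112_s Ext.none)

def k0_mm_112_s : ∃ t, chk3 f_mm_112_s t 1 1 1 = true :=
  ⟨(a (l 3) (l 5)), by decide +kernel⟩

theorem c_mm_112_s : CertNE 536870912 536870912 1073741824 536870912 1040187392 5207648 3 eng mog cd0q1 cd5q2 pd1 false false false .dn 1 1 2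
    ndB0q1 ndB5q2 pcB1 cut_mm_112_s Ext.none :=
  certNE2 (fam := false) (s1 := false) (s2 := false) (a := 1) (b := 1) (c := 2) (cn := .dn) (n1 := ndB0q1) (n2 := ndB5q2) (pc := pcB1) (cut := cut_mm_112_s) (xt := Ext.none) (P1 := 536870912) (W1 := 536870912) (P2 := 1073741824) (W2 := 536870912) (P3 := 1040187392) (W3 := 5207648) (N0 := 3) (En := eng) (mo := mog) (C1 := cd0q1) (C2 := cd5q2) (C3 := pd1)
    rfl (fun _ => rfl) k0_mm_112_s

noncomputable def cut_mm_113_s : Cut := Cut.of [[⟨4, 0, 0, 1449551462⟩]]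

noncomputable def f_mm_113_s : ℕ → ℕ → ℕ → ℕ → Bool := onCell 536870912 536870912 0 1230186008 1040187392 5207648
    (rowNE 3 eng mog cd0q1 cd5q3 pd1 0 false false false .nn 1 1 3 (qsf 536870912 536870912 0 1230186008 1) ndB0q1 ndB5q3 pcB1 cut_mm_113_s Ext.none)

def k0_mm_113_s : ∃ t, chk3 f_mm_113_s t 1 1 1 = true :=
  ⟨(a (l 5) (b (l 5) (a (b (l 5) (l 3)) (l 3)))), by decide +kernel⟩

theorem c_mm_113_s : CertNE 536870912 536870912 0 1230186008 1040187392 5207648 3 eng mog cd0q1 cd5q3 pd1 false false false .nn 1 1 3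
    ndB0q1 ndB5q3 pcB1 cut_mm_113_s Ext.none :=
  certNE0 (fam := false) (s1 := false) (s2 := false) (a := 1) (b := 1) (c := 3) (cn := .nn) (n1 := ndB0q1) (n2 := ndB5q3) (pc := pcB1) (cut := cut_mm_113_s) (xt := Ext.none) (P1 := 536870912) (W1 := 536870912) (P2 := 0) (W2 := 1230186008) (P3 := 1040187392) (W3 := 5207648) (N0 := 3) (En := eng) (mo := mog) (C1 := cd0q1) (C2 := cd5q3) (C3 := pd1)
    rfl k0_mm_113_s

noncomputable def cut_mm_123_s : Cut := Cut.of [[⟨4, 0, 0, 1449551462⟩]]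

noncomputable def f_mm_123_s : ℕ → ℕ → ℕ → ℕ → Bool := onCell 1073741824 536870912 0 1230186008 1040187392 5207648
    (rowNE 3 eng mog cd0q1 cd5q3 pd2 2 false false false .npn 1 2 3 (qsf 536870912 536870912 0 1230186008 2) ndB0q1 ndB5q3 pcB2 cut_mm_123_s Ext.none)

def k0_mm_123_s : ∃ t, chk3 f_mm_123_s t 1 1 1 = true :=
  ⟨(b (l 5) (l 5)), by decide +kernel⟩

theorem c_mm_123_s : CertNE 536870912 536870912 0 1230186008 1040187392 5207648 3 eng mog cd0q1 cd5q3 pd2 false false false .npn 1 2 3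
    ndB0q1 ndB5q3 pcB2 cut_mm_123_s Ext.none :=
  certNE2 (fam := false) (s1 := false) (s2 := false) (a := 1) (b := 2) (c := 3) (cn := .npn) (n1 := ndB0q1) (n2 := ndB5q3) (pc := pcB2) (cut := cut_mm_123_s) (xt := Ext.none) (P1 := 536870912) (W1 := 536870912) (P2 := 0) (W2 := 1230186008) (P3 := 1040187392) (W3 := 5207648) (N0 := 3) (En := eng) (mo := mog) (C1 := cd0q1) (C2 := cd5q3) (C3 := pd2)
    rfl (fun _ => rfl) k0_mm_123_s

noncomputable def cut_mm_133_s : Cut := Cut.of [[⟨4, 0, 0, 1449551462⟩]]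

noncomputable def f_mm_133_s : ℕ → ℕ → ℕ → ℕ → Bool := onCell 1610612736 536870912 0 1230186008 1040187392 5207648
    (rowNE 3 eng mog cd0q1 cd5q3 pd3 2 false false false .dn 1 3 3 (qsf 536870912 536870912 0 1230186008 3) ndB0q1 ndB5q3 pcB3 cut_mm_133_s Ext.none)

def k0_mm_133_s : ∃ t, chk3 f_mm_133_s t 1 1 1 = true :=
  ⟨(l 5), by decide +kernel⟩

theorem c_mm_133_s : CertNE 536870912 536870912 0 1230186008 1040187392 5207648 3 eng mog cd0q1 cd5q3 pd3 false false false .dn 1 3 3
    ndB0q1 ndB5q3 pcB3 cut_mm_133_s Ext.none :=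
  certNE2 (fam := false) (s1 := false) (s2 := false) (a := 1) (b := 3) (c := 3) (cn := .dn) (n1 := ndB0q1) (n2 := ndB5q3) (pc := pcB3) (cut := cut_mm_133_s) (xt := Ext.none) (P1 := 536870912) (W1 := 536870912) (P2 := 0) (W2 := 1230186008) (P3 := 1040187392) (W3 := 5207648) (N0 := 3) (En := eng) (mo := mog) (C1 := cd0q1) (C2 := cd5q3) (C3 := pd3)
    rfl (fun _ => rfl) k0_mm_133_s

end Pool.Agent.Strip051.G.I9688_9736.Tab.CS.BB05

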