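import Pool.Agent.Strip051.G.I9688_9736.Tab

/-! # Certificates B0 (generated) -/

set_option linter.all false
set_option maxRecDepth 100000

namespace Pool.Agent.Strip051.G.I9688_9736.Tab.C.BA00

open Pool.Agent.Strip051.PB Pool.Agent.Strip051.PB.T
open Pool.Agent.Strip051.G.I9688_9736.Tab

noncomputable def cut_pp_001 : Cut := Cut.of [[⟨3, 0, 0, 1449551462⟩], [⟨4, 0, 0, 2845415833⟩]]

noncomputable def f_pp_001 : ℕ → ℕ → ℕ → ℕ → Bool := onCell 0 536870912 0 536870912 1040187392 5207648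
    (rowB 3 eng mog cd0q0 cd0q0 pd1 0 true true true .up 0 0 1 (qsf 0 536870912 0 536870912 1) ndB0q0 ndB0q0 pcB1 cut_pp_001 Ext.none)

def k0_pp_001 : ∃ t, chk3 f_pp_001 t 1 1 1 = true :=
  ⟨(l 4), by decide +kernel⟩

theorem c_pp_001 : CertB 0 536870912 0 536870912 1040187392 5207648 3 eng mog cd0q0 cd0q0 pd1 true true true .up 0 0 1
    ndB0q0 ndB0q0 pcB1 cut_pp_001 Ext.none :=
  certB0 (fam := true) (s1 := true) (s2 := true) (a := 0) (b := 0) (c := 1) (cn := .up) (n1 := ndB0q0) (n2 := ndB0q0) (pc := pcB1) (cut := cut_pp_001) (xt := Ext.none) (P1 := 0) (W1 := 536870912) (P2 := 0) (W2 := 536870912) (P3 := 1040187392) (W3 := 5207648) (N0 := 3) (En := eng) (mo := mog) (C1 := cd0q0) (C2 := cd0q0) (C3 := pd1)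
    rfl k0_pp_001

noncomputable def cut_pp_011 : Cut := Cut.of [[⟨3, 0, 0, 1449551462⟩], [⟨4, 0, 0, 2845415833⟩], [⟨0, 0, 0, 26843545⟩, ⟨1, 1, 0, 26843545⟩, ⟨2, 1, 0, 26843545⟩]]

noncomputable def f_pp_011 : ℕ → ℕ → ℕ → ℕ → Bool := onCell 0 536870912 536870912 536870912 1040187392 5207648
    (rowB 3 eng mog cd0q0 cd0q1 pd1 0 true true true .pnn 0 1 1 (qsf 0 536870912 536870912 536870912 1) ndB0q0 ndB0q1 pcB1 cut_pp_011 Ext.none)

def k0_pp_011 : ∃ t, chk3 f_pp_011 t 1 1 1 = true :=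
  ⟨(l 14), by decide +kernel⟩

theorem c_pp_011 : CertB 0 536870912 536870912 536870912 1040187392 5207648 3 eng mog cd0q0 cd0q1 pd1 true true true .pnn 0 1 1
    ndB0q0 ndB0q1 pcB1 cut_pp_011 Ext.none :=
  certB0 (fam := true) (s1 := true) (s2 := true) (a := 0) (b := 1) (c := 1) (cn := .pnn) (n1 := ndB0q0) (n2 := ndB0q1) (pc := pcB1) (cut := cut_pp_011) (xt := Ext.none) (P1 := 0) (W1 := 536870912) (P2 := 536870912) (W2 := 536870912) (P3 := 1040187392) (W3 := 5207648) (N0 := 3) (En := eng) (mo := mog) (C1 := cd0q0) (C2 := cd0q1) (C3 := pd1)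
    rfl k0_pp_011

noncomputable def cut_pp_012 : Cut := Cut.of [[⟨3, 0, 0, 1449551462⟩], [⟨4, 0, 0, 2845415833⟩], [⟨0, 0, 0, 26843545⟩, ⟨1, 1, 0, 26843545⟩, ⟨2, 1, 0, 26843545⟩]]

noncomputable def f_pp_012 : ℕ → ℕ → ℕ → ℕ → Bool := onCell 0 536870912 536870912 536870912 1040187392 5207648
    (rowB 3 eng mog cd0q0 cd0q1 pd2 0 true true true .pnp 0 1 2 (qsf 0 536870912 536870912 536870912 2) ndB0q0 ndB0q1 pcB2 cut_pp_012 Ext.none)

def k0_pp_012 : ∃ t, chk3 f_pp_012 t 1 1 1 = true :=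
  ⟨(l 14), by decide +kernel⟩

theorem c_pp_012 : CertB 0 536870912 536870912 536870912 1040187392 5207648 3 eng mog cd0q0 cd0q1 pd2 true true true .pnp 0 1 2
    ndB0q0 ndB0q1 pcB2 cut_pp_012 Ext.none :=
  certB0 (fam := true) (s1 := true) (s2 := true) (a := 0) (b := 1) (c := 2) (cn := .pnp) (n1 := ndB0q0) (n2 := ndB0q1) (pc := pcB2) (cut := cut_pp_012) (xt := Ext.none) (P1 := 0) (W1 := 536870912) (P2 := 536870912) (W2 := 536870912) (P3 := 1040187392) (W3 := 5207648) (N0 := 3) (En := eng) (mo := mog) (C1 := cd0q0) (C2 := cd0q1) (C3 := pd2)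
    rfl k0_pp_012

noncomputable def cut_pp_022 : Cut := Cut.of [[⟨3, 0, 0, 1449551462⟩], [⟨4, 0, 0, 2845415833⟩], [⟨0, 0, 0, 22369621⟩, ⟨1, 1, 0, 22369621⟩, ⟨2, 1, 0, 22369621⟩]]

noncomputable def f_pp_022 : ℕ → ℕ → ℕ → ℕ → Bool := onCell 0 536870912 0 536870912 1040187392 5207648
    (rowB 3 eng mog cd0q0 cd0q2 pd2 0 true true true .pp 0 2 2 (qsf 0 536870912 0 536870912 2) ndB0q0 ndB0q2 pcB2 cut_pp_022 Ext.none)

def k0_pp_022 : ∃ t, chk3 f_pp_022 t 4 4 1 = true :=
  ⟨(a (a (b (a (l 15336392) (l 15156064)) (a (l 15218896) (l 15021792))) (b (a (l 14979792) (l 14817040)) (b (a (l 14858736) (l 14684744)) (a (b (l 14811928) (b (l 14792408) (b (l 14785224) (l 14790192)))) (b (l 14631824) (b (b (l 14572336) (a (l 14651888) (a (l 14593704) (l 14566544)))) (a (b (l 14660744) (l 14689584)) (l 14626592)))))))) (a (b (a (l 14653576) (l 14504032)) (b (a (l 14510688) (l 14372128)) (a (b (a (l 14512696) (b (l 14445672) (b (l 14434024) (a (l 14451488) (l 14430384)))))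 (a (b (b (a (l 14519024) (l 14495736)) (l 14538248)) (l 14588664)) (l 14524408))) (a (b (b (l 14376152) (b (a (l 14387688) (l 14368064)) (l 14410192))) (l 14498728)) (b (b (b (l 14311280) (a (b (l 14321632) (l 14329160)) (l 14308176))) (l 14368576)) (l 14477304)))))) (b (a (b (l 14478400) (l 14341384)) (b (l 14355904) (l 14213176))) (b (a (b (l 14282720) (b (l 14245840) (a (a (l 14273576) (l 14241640)) (b (a (l 14211144) (l 14179640)) (a (b (l 14205368) (l 14212632)) (l 14193440)))))) (b (l 14087032) (b (a (a (l 14161504) (b (l 14133880) (b (l 14124376) (a (l 14127064) (l 14113056))))) (b (a (l 14100040) (b (l 14069872) (a (l 14072008) (b (l 14057032) (l 14058104))))) (a (b (a (l 14099240) (l 14085416)) (l 14100424)) (a (b (l 14075552) (l 14094576)) (l 14081272))))) (a (b (a (b (l 14149032) (l 14156192)) (l 14137472)) (l 14180648)) (l 14146000))))) (a (b (a (b (b (a (b (l 14262712) (l 14270104)) (l 14250152)) (l 14292608)) (l 14348352)) (l 14293304))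 (l 14409880)) (a (l 14355184) (l 14343680))))))), by decide +kernel⟩

def k1_pp_022 : ∃ t, chk3 f_pp_022 t 4 5 1 = true :=
  ⟨(a (b (a (b (a (b (l 15185208) (l 15240632)) (b (b (l 14982192) (l 15012016)) (l 15097488))) (a (l 15401640) (l 15267928))) (a (b (b (a (l 14881280) (l 14821736)) (l 14972008)) (b (l 15092248) (l 15211464))) (b (a (l 14832720) (l 14789936)) (a (l 15083456) (l 15047280))))) (a (a (b (l 15570632) (b (l 15767480) (l 15869176))) (b (b (l 15435168) (l 15545448)) (b (l 15654128) (l 15760944)))) (a (b (b (l 15329176) (l 15445064)) (b (l 15558952) (l 15670320))) (b (a (l 15328120) (l 15298104)) (b (l 15491456) (l 15608272)))))) (a (b (a (b (a (l 14756264) (l 14730568)) (a (l 15020104) (l 15000768))) (b (a (l 14709792) (l 14693128)) (a (l 14986184) (l 14975520)))) (a (b (a (l 15277000) (l 15284616)) (a (b (l 15463320) (l 15584128)) (b (l 15454256) (l 15577816)))) (b (b (l 15163848) (l 15297216)) (b (l 15448800) (a (l 15575896) (l 15577496))))))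 (b (b (a (a (l 14679920) (l 14669552)) (a (l 14661280) (l 14655360))) (a (b (l 14872384) (l 15015928)) (a (l 14960448) (l 14959688)))) (b (a (b (l 15157168) (l 15295808)) (b (l 15159168) (l 15323624))) (a (b (l 15452520) (l 15585056)) (b (l 15464080) (l 14))))))), by decide +kernel⟩

def k2_pp_022 : ∃ t, chk3 f_pp_022 t 20 8 1 = true :=
  ⟨(a (b (l 14214512) (a (l 14139112) (l 13994112))) (b (l 14079832) (b (l 13937440) (c (a (l 13994504) (l 13915512)) (l 13929352))))), by decide +kernel⟩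

def k3_pp_022 : ∃ t, chk3 f_pp_022 t 21 16 1 = true :=
  ⟨(a (l 13972896) (c (l 13859552) (l 13907048))), by decide +kernel⟩

def k4_pp_022 : ∃ t, chk3 f_pp_022 t 21 34 1 = true :=
  ⟨(a (a (l 13937864) (l 13884472)) (a (l 13832864) (l 13762096))), by decide +kernel⟩

def k5_pp_022 : ∃ t, chk3 f_pp_022 t 42 35 1 = true :=
  ⟨(b (a (l 13888504) (l 13834240)) (a (a (l 13870472) (b (l 13850536) (b (l 13838568) (a (c (l 13845864) (l 13830160)) (b (c (l 13834008) (l 13818224)) (c (a (b (l 13834568) (a (l 13835816) (l 13835240))) (a (b (l 13830896) (l 13835584)) (l 13833088))) (l 13819112))))))) (b (a (l 13823176) (b (l 13800352) (a (c (l 13807312) (l 13791352)) (b (c (l 13796056) (l 13780024)) (c (a (b (l 13796400) (c (l 13801592) (l 13793576))) (b (c (l 13797024) (l 13789000)) (l 13798152))) (l 13780968)))))) (a (b (a (c (l 13826264) (l 13810424)) (b (c (l 13814704) (l 13798792)) (c (a (b (l 13815152) (c (l 13820256) (l 13812304))) (b (c (l 13815528)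 (l 13807560)) (l 13816608))) (l 13799704)))) (a (b (c (a (b (l 13824776) (a (l 13826016) (l 13825512))) (b (c (l 13825032) (l 13817096)) (l 13826088))) (l 13809328)) (l 13826096)) (l 13822112))) (b (a (b (c (a (b (l 13805696) (c (l 13810840) (l 13802856))) (b (c (l 13806192) (l 13798200)) (l 13807296))) (l 13790256)) (l 13807208)) (l 13803608)) (l 13824904)))))), by decide +kernel⟩

def k6_pp_022 : ∃ t, chk3 f_pp_022 t 43 35 1 = true :=
  ⟨(b (a (a (l 13794728) (b (l 13777376) (b (l 13764728) (a (c (l 13771376) (l 13755168)) (b (c (l 13760712) (l 13744440)) (c (a (b (l 13760856) (l 13762184)) (b (l 13757944) (l 13763256))) (l 13745488))))))) (b (a (l 13752144) (b (l 13731664) (a (c (l 13738008) (l 13721584)) (b (c (l 13727944) (l 13711448)) (c (a (b (l 13727896) (l 13729424)) (l 13728160)) (l 13712640)))))) (a (b (a (c (l 13754376) (l 13738056)) (b (c (l 13744008) (l 13727624)) (c (a (b (l 13744056) (l 13745472)) (l 13744000)) (l 13728736)))) (a (b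 (c (a (b (l 13752376) (l 13753744)) (b (l 13749584) (l 13754944))) (l 13737032)) (l 13754568)) (l 13752104))) (b (a (b (c (a (b (l 13735896) (l 13737368)) (l 13736000)) (l 13720608)) (l 13738352)) (l 13736264)) (l 13757448))))) (a (b (a (b (a (c (l 13789016) (l 13772936)) (b (c (l 13778064) (l 13761904)) (c (a (b (l 13778304) (l 13779552)) (b (l 13775144) (l 13780368))) (l 13762896)))) (a (b (c (a (b (l 13787272) (c (l 13792504) (l 13784464))) (b (l 13783992) (l 13789176))) (l 13771848)) (l 13788992)) (l 13785768))) (b (a (b (c (a (b (l 13769496) (l 13770784)) (b (l 13766464) (l 13771728))) (l 13754112)) (l 13771440)) (l 13768600)) (l 13789848))) (l 13820944)) (c (l 13819136) (l 13803152)))), by decide +kernel⟩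

def k7_pp_022 : ∃ t, chk3 f_pp_022 t 20 72 1 = true :=
  ⟨(a (a (l 14065552) (l 14002696)) (a (a (l 13956744) (b (l 13934144) (b (l 13922928) (a (c (l 13930960) (l 13915808)) (b (c (l 13917888) (l 13902664)) (c (a (b (l 13918896) (a (l 13920296) (l 13919264))) (a (b (l 13914696) (l 13919168)) (l 13916320))) (l 13903528))))))) (b (a (l 13904632) (b (l 13879416) (a (c (l 13887072) (l 13871632)) (b (c (l 13874608) (l 13859088)) (c (a (b (l 13875384) (a (l 13876696) (l 13875872))) (a (b (l 13871440) (l 13876000)) (l 13873328))) (l 13859952)))))) (a (b (a (c (l 13908680) (l 13893384)) (b (c (l 13895904) (l 13880528)) (c (a (b (l 13896800) (a (l 13898160) (l 13897224))) (a (b (l 13892728) (l 13897240)) (l 13894480))) (l 13881400)))) (a (b (c (a (b (l 13907760) (a (l 13930112) (l 13908152))) (a (b (l 13903624) (l 13908112)) (l 13905312))) (l 13892376)) (l 13908512)) (l 13902960))) (b (a (b (c (a (b (l 13886008) (a (l 13887344) (l 13886464))) (a (b (l 13882000)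 (l 13886536)) (l 13883816))) (l 13870592)) (l 13886872)) (l 13881720)) (l 13903136)))))), by decide +kernel⟩

def k8_pp_022 : ∃ t, chk3 f_pp_022 t 20 73 1 = true :=
  ⟨(a (a (a (l 14053856) (b (l 14028520) (b (l 14018120) (a (l 14019680) (b (l 14005328) (c (l 14013608) (l 13999000))))))) (b (a (l 13996824) (b (l 13969152) (a (l 13970144) (b (l 13956424) (c (a (l 13966112) (l 13962520)) (l 13949856)))))) (a (b (a (l 13994568) (b (l 13980528) (a (l 13982888) (l 13979104)))) (a (b (c (l 14001136) (l 13986448)) (l 14002040)) (l 13994888))) (b (a (b (c (a (l 13978096) (l 13974424)) (l 13961880)) (l 13977600)) (l 13970856)) (l 13992384))))) (a (b (a (b (a (l 13946424) (b (l 13933008) (c (a (b (l 13941664) (l 13942696)) (l 13939232)) (l 13926344)))) (a (b (c (a (b (l 13953312) (l 13954344)) (l 13950792)) (l 13938016)) (l 13953872)) (l 13947528))) (b (a (b (c (a (b (l 13930192) (l 13931216)) (b (c (l 13929336) (l 13921744)) (l 13930296))) (l 13914848)) (l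 13930840)) (l 13924896)) (l 13946368))) (l 13978688)) (a (l 13956424) (l 13956952)))), by decide +kernel⟩

def k9_pp_022 : ∃ t, chk3 f_pp_022 t 20 37 1 = true :=
  ⟨(a (a (b (b (a (b (a (l 14045488) (b (l 14030824) (l 14031848))) (a (b (l 14044888) (l 14053048)) (l 14045088))) (b (a (b (l 14018984) (l 14027184)) (l 14019632)) (l 14041216))) (l 14074152)) (l 14134872)) (l 14003048)) (a (l 13999840) (l 14000840))), by decide +kernel⟩

def k10_pp_022 : ∃ t, chk3 f_pp_022 t 20 19 1 = true :=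
  ⟨(a (b (l 14190136) (l 14351632)) (b (a (l 14250712) (l 14254352)) (l 14355912))), by decide +kernel⟩

def k11_pp_022 : ∃ t, chk3 f_pp_022 t 21 9 1 = true :=
  ⟨(b (b (a (a (b (b (a (b (a (c (l 13866136) (l 13850560)) (b (c (l 13853976) (l 13838320)) (c (a (b (l 13854640) (a (l 13855920) (l 13855216))) (a (b (l 13850832) (l 13855448)) (l 13852864))) (l 13839192)))) (a (b (c (a (b (l 13864928) (a (l 13866224) (l 13865456))) (a (b (l 13861048) (l 13865640)) (l 13863008))) (l 13849488)) (l 13865928)) (l 13861168))) (b (a (b (c (a (b (l 13844520) (a (l 13845784) (l 13845144))) (a (b (l 13840776) (l 13845432)) (l 13842888))) (l 13829072)) (l 13845672)) (l 13841296)) (l 13862656))) (c (l 13902064) (l 13886664))) (c (l 13967256) (l 13952200))) (c (b (l 13886256) (l 13974520)) (l 13915112))) (a (c (l 13836200) (l 13925768)) (l 13864136))) (a (a (l 14005968) (l 14057064)) (a (l 14112112) (l 14129072)))) (a (b (l 14204488) (l 14397008)) (b (l 14256296) (l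 14432280)))), by decide +kernel⟩

def k12_pp_022 : ∃ t, chk3 f_pp_022 t 11 32 1 = true :=
  ⟨(a (a (l 13858768) (l 13773504)) (a (l 13695272) (a (l 13641232) (l 13607480)))), by decide +kernel⟩

def k13_pp_022 : ∃ t, chk3 f_pp_022 t 22 33 1 = true :=
  ⟨(a (a (l 13807072) (l 13761832)) (a (l 13718384) (l 13676744))), by decide +kernel⟩

def k14_pp_022 : ∃ t, chk3 f_pp_022 t 23 33 1 = true :=
  ⟨(a (b (l 13636856) (a (a (l 13627624) (b (l 13617576) (b (l 13603304) (a (c (b (l 13609712) (l 13606360)) (l 13591240)) (b (c (l 13601472) (l 13584088)) (a (b (l 13592200) (l 13595960)) (l 13596744))))))) (b (a (l 13598528) (b (l 13584752) (c (a (b (l 13590872) (a (l 13588456) (l 13585648))) (b (a (l 13584096) (l 13581408)) (a (l 13585176) (l 13588480)))) (a (l 13572448) (l 13568688))))) (b (c (a (a (b (l 13600008) (l 13596744)) (b (l 13613128) (a (l 13593760) (l 13596672)))) (a (b (a (l 13589392) (l 13592496)) (l 13602896)) (l 13605128))) (a (a (l 13581552)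 (l 13577352)) (l 13583328))) (a (a (a (b (b (l 13587448) (l 13591400)) (l 13600736)) (l 13598504)) (l 13604624)) (l 13617216)))))) (b (a (a (l 13590944) (b (l 13583176) (b (l 13568488) (c (a (b (l 13574320) (a (l 13571880) (l 13569576))) (b (a (l 13568096) (l 13565928)) (l 13571856))) (a (l 13556000) (l 13553152)))))) (b (a (l 13566120) (b (l 13554464) (a (b (l 13551160) (c (a (l 13557608) (l 13555872)) (l 13539752))) (b (c (a (l 13554392) (l 13552808)) (l 13536600)) (l 13550432))))) (c (a (b (a (b (l 13566896) (a (l 13564456) (l 13562432))) (b (a (l 13560960) (l 13559080)) (l 13565272))) (a (l 13574496) (l 13584264))) (a (l 13580880) (l 13591320))) (a (b (a (l 13548648) (l 13546272)) (l 13561624)) (l 13568216))))) (a (b (c (a (b (a (b (l 13582312) (a (l 13579880) (l 13577320))) (b (a (l 13575808) (l 13573376)) (a (l 13577216) (l 13580896)))) (a (b (a (l 13581120) (l 13584616)) (l 13594992)) (l 13597568))) (a (b (b (l 13575376) (l 13587696)) (l 13606648))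 (l 13603280))) (a (b (a (l 13563936) (l 13560616)) (l 13575480)) (l 13580640))) (l 13631288)) (l 13644280)))), by decide +kernel⟩

def k15_pp_022 : ∃ t, chk3 f_pp_022 t 44 34 1 = true :=
  ⟨(a (b (l 13752784) (a (l 13729208) (b (l 13714368) (b (l 13701112) (a (c (l 13707184) (l 13690544)) (b (c (l 13697712) (l 13681008)) (c (a (b (l 13697496) (l 13699280)) (l 13698440)) (l 13682400)))))))) (b (l 13706864) (b (a (l 13691232) (b (l 13673040) (a (c (l 13678864) (l 13662032)) (b (c (l 13669984) (l 13653088)) (c (a (b (l 13669616) (l 13671744)) (l 13671320)) (l 13654736)))))) (a (b (a (c (l 13692712) (l 13675976)) (b (c (l 13683536) (l 13666736)) (c (a (b (l 13683240) (l 13685192)) (l 13684560)) (l 13668248)))) (a (b (c (a (b (l 13690288) (l 13692152)) (l 13691416)) (l 13675248)) (l 13693656)) (l 13692688))) (b (a (b (c (a (b (l 13676352) (l 13678384)) (l 13677856)) (l 13661416)) (l 13680064)) (l 13679456)) (l 13700512)))))), by decide +kernel⟩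

def k16_pp_022 : ∃ t, chk3 f_pp_022 t 45 34 1 = true :=
  ⟨(b (a (a (l 13673608) (b (l 13661208) (b (l 13647408) (a (c (l 13653016) (l 13636000)) (b (c (l 13644720) (l 13627648)) (a (b (l 13656672) (l 13638264)) (l 13638264))))))) (b (a (l 13640128) (b (l 13624176) (a (c (b (l 13630880) (l 13627376)) (l 13612416)) (b (c (l 13621896) (l 13604656)) (a (b (l 13612720) (l 13615816)) (l 13616216)))))) (a (b (a (c (b (l 13642344) (l 13638784)) (l 13623904)) (b (c (l 13633008) (l 13615848)) (a (b (l 13623904) (l 13626720)) (l 13626920)))) (a (a (b (b (l 13629728) (l 13632416)) (l 13641528)) (l 13638520)) (l 13643608))) (b (a (a (b (b (l 13618232) (l 13621184)) (l 13630392)) (l 13627560)) (l 13632928)) (l 13653856))))) (a (b (a (b (a (c (l 13665632) (l 13648704)) (b (c (l 13657048) (l 13640056)) (c (a (b (l 13656616) (l 13658952)) (l 13658736)) (l 13641864)))) (a (b (c (a (b (l 13663040) (l 13665264)) (l 13664952)) (l 13648224)) (l 13667112)) (l 13666872)))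 (b (a (b (c (a (b (l 13650352) (l 13652792)) (l 13652680)) (l 13635664)) (l 13654808)) (l 13654920)) (l 13675912))) (l 13705816)) (l 13707712))), by decide +kernel⟩

def k17_pp_022 : ∃ t, chk3 f_pp_022 t 23 34 1 = true :=
  ⟨(a (a (b (b (a (b (a (c (b (l 13620000) (l 13616568)) (l 13601528)) (b (c (l 13611384) (l 13594072)) (a (b (l 13602152) (l 13605560)) (l 13606160)))) (a (a (b (b (l 13607360) (l 13610608)) (l 13619880)) (l 13617240)) (l 13622872))) (b (a (a (b (b (l 13597096) (l 13600680)) (l 13610000)) (l 13607552)) (l 13613440)) (l 13634296))) (l 13663600)) (l 13737296)) (l 13636904)) (a (l 13757000) (l 13796648))), by decide +kernel⟩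

def k18_pp_022 : ∃ t, chk3 f_pp_022 t 11 35 1 = true :=
  ⟨(a (a (a (b (b (a (b (a (c (l 13722280) (l 13705744)) (b (c (l 13712512) (l 13695912)) (c (a (b (l 13712376) (l 13714024)) (l 13712976)) (l 13697200)))) (a (b (c (a (b (l 13720056) (l 13721640)) (l 13720488)) (l 13704840)) (l 13722800)) (l 13721088))) (b (a (b (c (a (b (l 13704856) (l 13706576)) (l 13705624)) (l 13689720)) (l 13707904)) (l 13706560)) (l 13727680))) (l 13758176)) (l 13827864)) (c (l 13704592) (l 13793320))) (a (l 13741288) (l 13810728))) (a (a (l 13883776) (l 13918408)) (l 13934896))), by decide +kernel⟩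

def k19_pp_022 : ∃ t, chk3 f_pp_022 t 11 9 1 = true :=
  ⟨(a (b (a (b (a (l 13882616) (l 13988760)) (l 14119680)) (b (l 13945240) (l 14175616))) (a (a (l 14420664) (l 14448016)) (b (l 14382704) (l 14587304)))) (b (a (b (l 14053256) (l 14266296)) (b (l 14153744) (l 14369992))) (a (b (l 14476800) (l 14663648)) (b (l 14562528) (l 14752192))))), by decide +kernel⟩

def k20_pp_022 : ∃ t, chk3 f_pp_022 t 5 5 1 = true :=
  ⟨(a (b (a (b (a (a (l 14653200) (l 14655072)) (a (l 14660896) (l 14670584))) (a (a (l 14962488) (l 14969144)) (b (l 14907000) (l 15064920)))) (b (a (a (l 14684048) (l 14701192)) (b (l 14647928) (l 14819168))) (a (b (l 14940360) (l 15102336)) (b (l 14987720) (l 15153392))))) (a (b (a (b (l 15192704) (l 15340648)) (b (l 15220032) (l 15372088))) (a (b (l 15485424) (l 14)) (l 14))) (b (a (b (l 15261352) (l 14)) (l 14)) (l 14)))) (b (a (b (a (b (l 14701448) (l 14876328)) (b (l 14768272) (l 14946416))) (a (b (l 15048368) (l 14)) (l 14))) (b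 (b (a (l 14847656) (l 14938864)) (l 14)) (l 14))) (l 14))), by decide +kernel⟩

def k21_pp_022 : ∃ t, chk3 f_pp_022 t 2 3 1 = true :=
  ⟨(a (b (a (a (b (a (b (b (l 15968968) (l 16066528)) (b (l 16161480) (l 16191192))) (b (b (l 15865640) (l 15967944)) (b (l 16067568) (l 16122240)))) (b (a (b (l 16279136) (l 14)) (l 14)) (l 14))) (b (a (b (b (l 15779408) (l 15885848)) (b (l 15989416) (l 16005984))) (b (b (l 15742872) (a (l 15842360) (l 15824224))) (b (a (l 15948544) (l 14)) (l 14)))) (l 14))) (b (b (a (a (a (b (l 15701680) (l 15815640)) (b (l 15698064) (l 15814656))) (b (a (l 15698760) (l 15702904)) (l 14))) (l 14)) (l 14)) (l 14))) (l 14)) (l 14)), by decide +kernel⟩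

def k22_pp_022 : ∃ t, chk3 f_pp_022 t 24 8 1 = true :=
  ⟨(b (a (b (b (l 13580392) (a (b (l 13565408) (a (l 13553264) (b (l 13542656) (a (b (l 13539016) (c (a (l 13545608) (l 13544512)) (l 13528008))) (b (c (a (l 13542960) (l 13542040)) (l 13525432)) (l 13540272)))))) (b (a (l 13542592) (b (l 13533008) (a (a (l 13529304) (b (l 13527232) (l 13526544))) (b (a (l 13524808) (l 13524648)) (l 13532576))))) (a (b (a (b (l 13533760) (c (a (l 13540456) (l 13539720)) (l 13523000))) (b (a (l 13529144) (l 13528584)) (l 13536120))) (l 13550120)) (l 13559512))))) (a (b (b (a (b (a (b (l 13544816) (c (a (l 13551328) (l 13549896)) (l 13533592))) (b (c (a (l 13548392) (l 13547136)) (l 13530728)) (l 13545048))) (c (l 13567912) (l 13550216))) (l 13567064)) (l 13608624)) (l 13685984)) (l 13678944))) (b (b (a (b (l 13547560) (a (l 13534064) (b (l 13525488) (a (a (l 13521680) (b (l 13519528) (l 13519848))) (b (a (l 13517832) (l 13518544)) (l 13527336)))))) (b (a (l 13527768)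 (b (l 13520280) (a (b (l 13515664) (c (l 13524592) (l 13506536))) (b (c (l 13523744) (l 13505672)) (l 13524328))))) (a (b (a (a (l 13518688) (b (l 13516504) (l 13517392))) (b (c (l 13546552) (l 13507536)) (l 13525568))) (l 13539456)) (l 13551440)))) (a (b (a (b (a (a (l 13525216) (b (l 13523120) (l 13522896))) (b (a (l 13521040) (l 13521296)) (l 13529648))) (l 13543592)) (l 13554336)) (l 13595336)) (l 13618776))) (l 13668184))) (a (b (l 13820528) (l 14045072)) (b (l 13940272) (l 14167592)))), by decide +kernel⟩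

def k23_pp_022 : ∃ t, chk3 f_pp_022 t 25 8 1 = true :=
  ⟨(b (b (a (a (b (b (a (b (a (b (l 13513728) (c (l 13523040) (l 13504952))) (b (c (l 13522480) (l 13504384)) (l 13523648))) (l 13537272)) (l 13550632)) (l 13591160)) (l 13671856)) (l 13673752)) (l 13742176)) (a (l 13839320) (l 13980192))) (a (b (l 14072024) (l 14280712)) (b (l 14194024) (l 14404600)))), by decide +kernel⟩

def k24_pp_022 : ∃ t, chk3 f_pp_022 t 12 9 1 = true :=
  ⟨(a (b (a (b (l 14266920) (l 14464976)) (b (l 14371032) (l 14571448))) (a (b (l 14660104) (l 14852192)) (b (l 14768760) (l 14)))) (b (a (b (l 14486272) (l 14688632)) (b (l 14611848) (l 14))) (l 14))), by decide +kernel⟩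

def k25_pp_022 : ∃ t, chk3 f_pp_022 t 13 4 1 = true :=
  ⟨(b (a (b (a (b (l 13892048) (l 14110960)) (b (l 14031472) (l 14251776))) (a (b (l 14326440) (l 14538448)) (b (l 14468440) (l 14)))) (a (b (b (l 14180584) (l 14401808)) (l 14)) (l 2))) (l 14)), by decide +kernel⟩

def k26_pp_022 : ∃ t, chk3 f_pp_022 t 7 4 1 = true :=
  ⟨(l 2), by decide +kernel⟩

def k27_pp_022 : ∃ t, chk3 f_pp_022 t 3 5 1 = true :=
  ⟨(l 14), by decide +kernel⟩

def k28_pp_022 : ∃ t, chk3 f_pp_022 t 3 3 1 = true :=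
  ⟨(l 14), by decide +kernel⟩

theorem s29_pp_022 : ∃ t, chk3 f_pp_022 t 12 8 1 = true := ex3_a k22_pp_022 k23_pp_022

theorem s30_pp_022 : ∃ t, chk3 f_pp_022 t 12 4 1 = true := ex3_b s29_pp_022 k24_pp_022

theorem s31_pp_022 : ∃ t, chk3 f_pp_022 t 6 4 1 = true := ex3_a s30_pp_022 k25_pp_022

theorem s32_pp_022 : ∃ t, chk3 f_pp_022 t 3 4 1 = true := ex3_a s31_pp_022 k26_pp_022

theorem s33_pp_022 : ∃ t, chk3 f_pp_022 t 3 2 1 = true := ex3_b s32_pp_022 k27_pp_022

theorem s34_pp_022 : ∃ t, chk3 f_pp_022 t 3 1 1 = true := ex3_b s33_pp_022 k28_pp_022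

theorem s35_pp_022 : ∃ t, chk3 f_pp_022 t 22 34 1 = true := ex3_a k15_pp_022 k16_pp_022

theorem s36_pp_022 : ∃ t, chk3 f_pp_022 t 11 34 1 = true := ex3_a s35_pp_022 k17_pp_022

theorem s37_pp_022 : ∃ t, chk3 f_pp_022 t 11 17 1 = true := ex3_b s36_pp_022 k18_pp_022

theorem s38_pp_022 : ∃ t, chk3 f_pp_022 t 11 33 1 = true := ex3_a k13_pp_022 k14_pp_022

theorem s39_pp_022 : ∃ t, chk3 f_pp_022 t 11 16 1 = true := ex3_b k12_pp_022 s38_pp_022

theorem s40_pp_022 : ∃ t, chk3 f_pp_022 t 11 8 1 = true := ex3_b s39_pp_022 s37_pp_022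

theorem s41_pp_022 : ∃ t, chk3 f_pp_022 t 11 4 1 = true := ex3_b s40_pp_022 k19_pp_022

theorem s42_pp_022 : ∃ t, chk3 f_pp_022 t 20 36 1 = true := ex3_b k7_pp_022 k8_pp_022

theorem s43_pp_022 : ∃ t, chk3 f_pp_022 t 20 18 1 = true := ex3_b s42_pp_022 k9_pp_022

theorem s44_pp_022 : ∃ t, chk3 f_pp_022 t 20 9 1 = true := ex3_b s43_pp_022 k10_pp_022

theorem s45_pp_022 : ∃ t, chk3 f_pp_022 t 10 9 1 = true := ex3_a s44_pp_022 k11_pp_022

theorem s46_pp_022 : ∃ t, chk3 f_pp_022 t 21 35 1 = true := ex3_a k5_pp_022 k6_pp_022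

theorem s47_pp_022 : ∃ t, chk3 f_pp_022 t 21 17 1 = true := ex3_b k4_pp_022 s46_pp_022

theorem s48_pp_022 : ∃ t, chk3 f_pp_022 t 21 8 1 = true := ex3_b k3_pp_022 s47_pp_022

theorem s49_pp_022 : ∃ t, chk3 f_pp_022 t 10 8 1 = true := ex3_a k2_pp_022 s48_pp_022

theorem s50_pp_022 : ∃ t, chk3 f_pp_022 t 10 4 1 = true := ex3_b s49_pp_022 s45_pp_022

theorem s51_pp_022 : ∃ t, chk3 f_pp_022 t 5 4 1 = true := ex3_a s50_pp_022 s41_pp_022

theorem s52_pp_022 : ∃ t, chk3 f_pp_022 t 5 2 1 = true := ex3_b s51_pp_022 k20_pp_022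

theorem s53_pp_022 : ∃ t, chk3 f_pp_022 t 4 2 1 = true := ex3_b k0_pp_022 k1_pp_022

theorem s54_pp_022 : ∃ t, chk3 f_pp_022 t 2 2 1 = true := ex3_a s53_pp_022 s52_pp_022

theorem s55_pp_022 : ∃ t, chk3 f_pp_022 t 2 1 1 = true := ex3_b s54_pp_022 k21_pp_022

theorem s56_pp_022 : ∃ t, chk3 f_pp_022 t 1 1 1 = true := ex3_a s55_pp_022 s34_pp_022

theorem c_pp_022 : CertB 0 536870912 0 536870912 1040187392 5207648 3 eng mog cd0q0 cd0q2 pd2 true true true .pp 0 2 2
    ndB0q0 ndB0q2 pcB2 cut_pp_022 Ext.none :=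
  certB0 (fam := true) (s1 := true) (s2 := true) (a := 0) (b := 2) (c := 2) (cn := .pp) (n1 := ndB0q0) (n2 := ndB0q2) (pc := pcB2) (cut := cut_pp_022) (xt := Ext.none) (P1 := 0) (W1 := 536870912) (P2 := 0) (W2 := 536870912) (P3 := 1040187392) (W3 := 5207648) (N0 := 3) (En := eng) (mo := mog) (C1 := cd0q0) (C2 := cd0q2) (C3 := pd2)
    rfl s56_pp_022

noncomputable def cut_pp_023 : Cut := Cut.of [[⟨3, 0, 0, 1449551462⟩], [⟨4, 0, 0, 2845415833⟩]]

noncomputable def f_pp_023 : ℕ → ℕ → ℕ → ℕ → Bool := onCell 1610612736 536870912 0 536870912 1040187392 5207648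
    (rowB 3 eng mog cd0q0 cd0q2 pd3 2 true true true .up 0 2 3 (qsf 0 536870912 0 536870912 3) ndB0q0 ndB0q2 pcB3 cut_pp_023 Ext.none)

def k0_pp_023 : ∃ t, chk3 f_pp_023 t 1 1 1 = true :=
  ⟨(a (b (a (a (b (b (a (l 16434536) (l 14)) (l 14)) (l 14)) (l 14)) (l 14)) (l 4)) (l 2)), by decide +kernel⟩

theorem c_pp_023 : CertB 0 536870912 0 536870912 1040187392 5207648 3 eng mog cd0q0 cd0q2 pd3 true true true .up 0 2 3
    ndB0q0 ndB0q2 pcB3 cut_pp_023 Ext.none :=
  certB2 (fam := true) (s1 := true) (s2 := true) (a := 0) (b := 2) (c := 3) (cn := .up) (n1 := ndB0q0) (n2 := ndB0q2) (pc := pcB3) (cut := cut_pp_023) (xt := Ext.none) (P1 := 0) (W1 := 536870912) (P2 := 0) (W2 := 536870912) (P3 := 1040187392) (W3 := 5207648) (N0 := 3) (En := eng) (mo := mog) (C1 := cd0q0) (C2 := cd0q2) (C3 := pd3)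
    rfl (fun _ => rfl) k0_pp_023

noncomputable def cut_pp_101 : Cut := Cut.of [[⟨3, 0, 0, 1449551462⟩], [⟨4, 0, 0, 2845415833⟩]]

noncomputable def f_pp_101 : ℕ → ℕ → ℕ → ℕ → Bool := onCell 536870912 536870912 0 536870912 1040187392 5207648
    (rowB 3 eng mog cd0q1 cd0q0 pd1 0 true true true .npn 1 0 1 (qsf 536870912 536870912 0 536870912 1) ndB0q1 ndB0q0 pcB1 cut_pp_101 Ext.none)

def k0_pp_101 : ∃ t, chk3 f_pp_101 t 1 1 1 = true :=
  ⟨(l 14), by decide +kernel⟩

theorem c_pp_101 : CertB 536870912 536870912 0 536870912 1040187392 5207648 3 eng mog cd0q1 cd0q0 pd1 true true true .npn 1 0 1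
    ndB0q1 ndB0q0 pcB1 cut_pp_101 Ext.none :=
  certB0 (fam := true) (s1 := true) (s2 := true) (a := 1) (b := 0) (c := 1) (cn := .npn) (n1 := ndB0q1) (n2 := ndB0q0) (pc := pcB1) (cut := cut_pp_101) (xt := Ext.none) (P1 := 536870912) (W1 := 536870912) (P2 := 0) (W2 := 536870912) (P3 := 1040187392) (W3 := 5207648) (N0 := 3) (En := eng) (mo := mog) (C1 := cd0q1) (C2 := cd0q0) (C3 := pd1)
    rfl k0_pp_101

noncomputable def cut_pp_102 : Cut := Cut.of [[⟨3, 0, 0, 1449551462⟩], [⟨4, 0, 0, 2845415833⟩]]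

noncomputable def f_pp_102 : ℕ → ℕ → ℕ → ℕ → Bool := onCell 536870912 536870912 0 536870912 1040187392 5207648
    (rowB 3 eng mog cd0q1 cd0q0 pd2 0 true true true .npp 1 0 2 (qsf 536870912 536870912 0 536870912 2) ndB0q1 ndB0q0 pcB2 cut_pp_102 Ext.none)

def k0_pp_102 : ∃ t, chk3 f_pp_102 t 1 1 1 = true :=
  ⟨(l 14), by decide +kernel⟩

theorem c_pp_102 : CertB 536870912 536870912 0 536870912 1040187392 5207648 3 eng mog cd0q1 cd0q0 pd2 true true true .npp 1 0 2
    ndB0q1 ndB0q0 pcB2 cut_pp_102 Ext.none :=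
  certB0 (fam := true) (s1 := true) (s2 := true) (a := 1) (b := 0) (c := 2) (cn := .npp) (n1 := ndB0q1) (n2 := ndB0q0) (pc := pcB2) (cut := cut_pp_102) (xt := Ext.none) (P1 := 536870912) (W1 := 536870912) (P2 := 0) (W2 := 536870912) (P3 := 1040187392) (W3 := 5207648) (N0 := 3) (En := eng) (mo := mog) (C1 := cd0q1) (C2 := cd0q0) (C3 := pd2)
    rfl k0_pp_102

noncomputable def cut_pp_112 : Cut := Cut.of [[⟨3, 0, 0, 1449551462⟩], [⟨4, 0, 0, 2845415833⟩]]

noncomputable def f_pp_112 : ℕ → ℕ → ℕ → ℕ → Bool := onCell 536870912 536870912 536870912 536870912 1040187392 5207648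
    (rowB 3 eng mog cd0q1 cd0q1 pd2 0 true true true .dn 1 1 2 (qsf 536870912 536870912 536870912 536870912 2) ndB0q1 ndB0q1 pcB2 cut_pp_112 Ext.none)

def k0_pp_112 : ∃ t, chk3 f_pp_112 t 1 1 1 = true :=
  ⟨(l 4), by decide +kernel⟩

theorem c_pp_112 : CertB 536870912 536870912 536870912 536870912 1040187392 5207648 3 eng mog cd0q1 cd0q1 pd2 true true true .dn 1 1 2
    ndB0q1 ndB0q1 pcB2 cut_pp_112 Ext.none :=
  certB0 (fam := true) (s1 := true) (s2 := true) (a := 1) (b := 1) (c := 2) (cn := .dn) (n1 := ndB0q1) (n2 := ndB0q1) (pc := pcB2) (cut := cut_pp_112) (xt := Ext.none) (P1 := 536870912) (W1 := 536870912) (P2 := 536870912) (W2 := 536870912) (P3 := 1040187392) (W3 := 5207648) (N0 := 3) (En := eng) (mo := mog) (C1 := cd0q1) (C2 := cd0q1) (C3 := pd2)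
    rfl k0_pp_112

noncomputable def cut_pp_113 : Cut := Cut.of [[⟨3, 0, 0, 1449551462⟩], [⟨4, 0, 0, 2845415833⟩]]

noncomputable def f_pp_113 : ℕ → ℕ → ℕ → ℕ → Bool := onCell 536870912 536870912 536870912 536870912 1040187392 5207648
    (rowB 3 eng mog cd0q1 cd0q1 pd3 0 true true true .nn 1 1 3 (qsf 536870912 536870912 536870912 536870912 3) ndB0q1 ndB0q1 pcB3 cut_pp_113 Ext.none)

def k0_pp_113 : ∃ t, chk3 f_pp_113 t 1 1 1 = true :=
  ⟨(l 4), by decide +kernel⟩

theorem c_pp_113 : CertB 536870912 536870912 536870912 536870912 1040187392 5207648 3 eng mog cd0q1 cd0q1 pd3 true true true .nn 1 1 3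
    ndB0q1 ndB0q1 pcB3 cut_pp_113 Ext.none :=
  certB0 (fam := true) (s1 := true) (s2 := true) (a := 1) (b := 1) (c := 3) (cn := .nn) (n1 := ndB0q1) (n2 := ndB0q1) (pc := pcB3) (cut := cut_pp_113) (xt := Ext.none) (P1 := 536870912) (W1 := 536870912) (P2 := 536870912) (W2 := 536870912) (P3 := 1040187392) (W3 := 5207648) (N0 := 3) (En := eng) (mo := mog) (C1 := cd0q1) (C2 := cd0q1) (C3 := pd3)
    rfl k0_pp_113

noncomputable def cut_pp_123 : Cut := Cut.of [[⟨3, 0, 0, 1449551462⟩], [⟨4, 0, 0, 2845415833⟩]]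

noncomputable def f_pp_123 : ℕ → ℕ → ℕ → ℕ → Bool := onCell 536870912 536870912 0 536870912 1040187392 5207648
    (rowB 3 eng mog cd0q1 cd0q2 pd3 0 true true true .npn 1 2 3 (qsf 536870912 536870912 0 536870912 3) ndB0q1 ndB0q2 pcB3 cut_pp_123 Ext.none)

def k0_pp_123 : ∃ t, chk3 f_pp_123 t 1 1 1 = true :=
  ⟨(a (l 14) (l 4)), by decide +kernel⟩

theorem c_pp_123 : CertB 536870912 536870912 0 536870912 1040187392 5207648 3 eng mog cd0q1 cd0q2 pd3 true true true .npn 1 2 3
    ndB0q1 ndB0q2 pcB3 cut_pp_123 Ext.none :=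
  certB0 (fam := true) (s1 := true) (s2 := true) (a := 1) (b := 2) (c := 3) (cn := .npn) (n1 := ndB0q1) (n2 := ndB0q2) (pc := pcB3) (cut := cut_pp_123) (xt := Ext.none) (P1 := 536870912) (W1 := 536870912) (P2 := 0) (W2 := 536870912) (P3 := 1040187392) (W3 := 5207648) (N0 := 3) (En := eng) (mo := mog) (C1 := cd0q1) (C2 := cd0q2) (C3 := pd3)
    rfl k0_pp_123

noncomputable def cut_pp_202 : Cut := Cut.of [[⟨3, 0, 0, 1449551462⟩], [⟨4, 0, 0, 2845415833⟩]]

noncomputable def f_pp_202 : ℕ → ℕ → ℕ → ℕ → Bool := onCell 0 536870912 0 536870912 1040187392 5207648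
    (rowB 3 eng mog cd0q2 cd0q0 pd2 0 true true true .pp 2 0 2 (qsf 0 536870912 0 536870912 2) ndB0q2 ndB0q0 pcB2 cut_pp_202 Ext.none)

def k0_pp_202 : ∃ t, chk3 f_pp_202 t 1 1 1 = true :=
  ⟨(l 5), by decide +kernel⟩

theorem c_pp_202 : CertB 0 536870912 0 536870912 1040187392 5207648 3 eng mog cd0q2 cd0q0 pd2 true true true .pp 2 0 2
    ndB0q2 ndB0q0 pcB2 cut_pp_202 Ext.none :=
  certB0 (fam := true) (s1 := true) (s2 := true) (a := 2) (b := 0) (c := 2) (cn := .pp) (n1 := ndB0q2) (n2 := ndB0q0) (pc := pcB2) (cut := cut_pp_202) (xt := Ext.none) (P1 := 0) (W1 := 536870912) (P2 := 0) (W2 := 536870912) (P3 := 1040187392) (W3 := 5207648) (N0 := 3) (En := eng) (mo := mog) (C1 := cd0q2) (C2 := cd0q0) (C3 := pd2)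
    rfl k0_pp_202

noncomputable def cut_pp_203 : Cut := Cut.of [[⟨3, 0, 0, 1449551462⟩], [⟨4, 0, 0, 2845415833⟩]]

noncomputable def f_pp_203 : ℕ → ℕ → ℕ → ℕ → Bool := onCell 0 536870912 0 536870912 1040187392 5207648
    (rowB 3 eng mog cd0q2 cd0q0 pd3 0 true true true .up 2 0 3 (qsf 0 536870912 0 536870912 3) ndB0q2 ndB0q0 pcB3 cut_pp_203 Ext.none)

def k0_pp_203 : ∃ t, chk3 f_pp_203 t 1 1 1 = true :=
  ⟨(l 5), by decide +kernel⟩

theorem c_pp_203 : CertB 0 536870912 0 536870912 1040187392 5207648 3 eng mog cd0q2 cd0q0 pd3 true true true .up 2 0 3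
    ndB0q2 ndB0q0 pcB3 cut_pp_203 Ext.none :=
  certB0 (fam := true) (s1 := true) (s2 := true) (a := 2) (b := 0) (c := 3) (cn := .up) (n1 := ndB0q2) (n2 := ndB0q0) (pc := pcB3) (cut := cut_pp_203) (xt := Ext.none) (P1 := 0) (W1 := 536870912) (P2 := 0) (W2 := 536870912) (P3 := 1040187392) (W3 := 5207648) (N0 := 3) (En := eng) (mo := mog) (C1 := cd0q2) (C2 := cd0q0) (C3 := pd3)
    rfl k0_pp_203

noncomputable def cut_pp_213 : Cut := Cut.of [[⟨3, 0, 0, 1449551462⟩], [⟨4, 0, 0, 2845415833⟩]]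

noncomputable def f_pp_213 : ℕ → ℕ → ℕ → ℕ → Bool := onCell 0 536870912 536870912 536870912 1040187392 5207648
    (rowB 3 eng mog cd0q2 cd0q1 pd3 0 true true true .pnn 2 1 3 (qsf 0 536870912 536870912 536870912 3) ndB0q2 ndB0q1 pcB3 cut_pp_213 Ext.none)

def k0_pp_213 : ∃ t, chk3 f_pp_213 t 1 1 1 = true :=
  ⟨(a (l 5) (l 4)), by decide +kernel⟩

theorem c_pp_213 : CertB 0 536870912 536870912 536870912 1040187392 5207648 3 eng mog cd0q2 cd0q1 pd3 true true true .pnn 2 1 3
    ndB0q2 ndB0q1 pcB3 cut_pp_213 Ext.none :=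
  certB0 (fam := true) (s1 := true) (s2 := true) (a := 2) (b := 1) (c := 3) (cn := .pnn) (n1 := ndB0q2) (n2 := ndB0q1) (pc := pcB3) (cut := cut_pp_213) (xt := Ext.none) (P1 := 0) (W1 := 536870912) (P2 := 536870912) (W2 := 536870912) (P3 := 1040187392) (W3 := 5207648) (N0 := 3) (En := eng) (mo := mog) (C1 := cd0q2) (C2 := cd0q1) (C3 := pd3)
    rfl k0_pp_213

noncomputable def cut_pm_001 : Cut := Cut.of [[⟨3, 0, 0, 1449551462⟩], [⟨4, 0, 0, 2845415833⟩]]

noncomputable def f_pm_001 : ℕ → ℕ → ℕ → ℕ → Bool := onCell 0 536870912 0 536870912 1040187392 5207648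
    (rowB 3 eng mog cd0q0 cd0q0 pd1 0 true true false .up 0 0 1 (qsf 0 536870912 0 536870912 1) ndB0q0 ndB0q0 pcB1 cut_pm_001 Ext.none)

def k0_pm_001 : ∃ t, chk3 f_pm_001 t 1 1 1 = true :=
  ⟨(l 3), by decide +kernel⟩

theorem c_pm_001 : CertB 0 536870912 0 536870912 1040187392 5207648 3 eng mog cd0q0 cd0q0 pd1 true true false .up 0 0 1
    ndB0q0 ndB0q0 pcB1 cut_pm_001 Ext.none :=
  certB0 (fam := true) (s1 := true) (s2 := false) (a := 0) (b := 0) (c := 1) (cn := .up) (n1 := ndB0q0) (n2 := ndB0q0) (pc := pcB1) (cut := cut_pm_001) (xt := Ext.none) (P1 := 0) (W1 := 536870912) (P2 := 0) (W2 := 536870912) (P3 := 1040187392) (W3 := 5207648) (N0 := 3) (En := eng) (mo := mog) (C1 := cd0q0) (C2 := cd0q0) (C3 := pd1)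
    rfl k0_pm_001

noncomputable def cut_pm_011 : Cut := Cut.of [[⟨3, 0, 0, 1449551462⟩], [⟨4, 0, 0, 2845415833⟩], [⟨0, 0, 0, 26843545⟩, ⟨1, 1, 0, 26843545⟩, ⟨2, 1, 0, 26843545⟩]]

noncomputable def f_pm_011 : ℕ → ℕ → ℕ → ℕ → Bool := onCell 0 536870912 536870912 536870912 1040187392 5207648
    (rowB 3 eng mog cd0q0 cd0q1 pd1 1 true true false .pnn 0 1 1 (qsf 0 536870912 536870912 536870912 1) ndB0q0 ndB0q1 pcB1 cut_pm_011 Ext.none)

def k0_pm_011 : ∃ t, chk3 f_pm_011 t 1 1 1 = true :=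
  ⟨(l 6), by decide +kernel⟩

theorem c_pm_011 : CertB 0 536870912 536870912 536870912 1040187392 5207648 3 eng mog cd0q0 cd0q1 pd1 true true false .pnn 0 1 1
    ndB0q0 ndB0q1 pcB1 cut_pm_011 Ext.none :=
  certB1 (fam := true) (s1 := true) (s2 := false) (a := 0) (b := 1) (c := 1) (cn := .pnn) (n1 := ndB0q0) (n2 := ndB0q1) (pc := pcB1) (cut := cut_pm_011) (xt := Ext.none) (P1 := 0) (W1 := 536870912) (P2 := 536870912) (W2 := 536870912) (P3 := 1040187392) (W3 := 5207648) (N0 := 3) (En := eng) (mo := mog) (C1 := cd0q0) (C2 := cd0q1) (C3 := pd1)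
    rfl (fun _ => rfl) k0_pm_011

noncomputable def cut_pm_012 : Cut := Cut.of [[⟨3, 0, 0, 1449551462⟩], [⟨4, 0, 0, 2845415833⟩], [⟨0, 0, 0, 16777216⟩, ⟨1, 1, 0, 16777216⟩, ⟨2, 1, 0, 16777216⟩]]

noncomputable def f_pm_012 : ℕ → ℕ → ℕ → ℕ → Bool := onCell 0 536870912 536870912 536870912 1040187392 5207648
    (rowB 3 eng mog cd0q0 cd0q1 pd2 0 true true false .pnp 0 1 2 (qsf 0 536870912 536870912 536870912 2) ndB0q0 ndB0q1 pcB2 cut_pm_012 Ext.none)

def k0_pm_012 : ∃ t, chk3 f_pm_012 t 1 1 1 = true :=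
  ⟨(b (l 6) (a (b (l 6) (a (l 6) (b (l 6) (b (l 6) (a (l 6) (b (l 6) (a (l 6) (l 16171944)))))))) (b (a (l 6) (b (l 6) (a (b (l 6) (a (l 6) (l 16236584))) (b (a (l 6) (l 16267120)) (a (l 16182112) (l 16131832)))))) (b (a (a (l 6) (b (l 6) (b (l 16162128) (l 16046376)))) (b (a (a (b (l 16176248) (l 16106896)) (b (l 16118688) (l 16043424))) (a (b (l 16066616) (l 15987488)) (l 15979224))) (a (b (l 16024464) (l 15976512)) (b (a (l 15932384) (l 15876328)) (l 15860240))))) (b (a (a (b (l 16127608) (a (l 16215712) (l 16141016))) (b (l 16065520) (a (l 16071224) (l 16005984)))) (a (b (l 15937888) (l 15916296)) (b (l 15825904) (l 15808808)))) (a (a (b (l 16132584) (l 16065936)) (b (l 15999536) (l 15939928))) (a (b (l 15883032) (l 15829448)) (b (l 15780248) (l 15731608))))))))), by decide +kernel⟩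

theorem c_pm_012 : CertB 0 536870912 536870912 536870912 1040187392 5207648 3 eng mog cd0q0 cd0q1 pd2 true true false .pnp 0 1 2
    ndB0q0 ndB0q1 pcB2 cut_pm_012 Ext.none :=
  certB0 (fam := true) (s1 := true) (s2 := false) (a := 0) (b := 1) (c := 2) (cn := .pnp) (n1 := ndB0q0) (n2 := ndB0q1) (pc := pcB2) (cut := cut_pm_012) (xt := Ext.none) (P1 := 0) (W1 := 536870912) (P2 := 536870912) (W2 := 536870912) (P3 := 1040187392) (W3 := 5207648) (N0 := 3) (En := eng) (mo := mog) (C1 := cd0q0) (C2 := cd0q1) (C3 := pd2)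
    rfl k0_pm_012

noncomputable def cut_pm_022 : Cut := Cut.of [[⟨3, 0, 0, 1449551462⟩], [⟨4, 0, 0, 2845415833⟩], [⟨0, 0, 0, 22369621⟩, ⟨1, 1, 0, 22369621⟩, ⟨2, 1, 0, 22369621⟩]]

noncomputable def f_pm_022 : ℕ → ℕ → ℕ → ℕ → Bool := onCell 1073741824 536870912 0 536870912 1040187392 5207648
    (rowB 3 eng mog cd0q0 cd0q2 pd2 2 true true false .pp 0 2 2 (qsf 0 536870912 0 536870912 2) ndB0q0 ndB0q2 pcB2 cut_pm_022 Ext.none)

def k0_pm_022 : ∃ t, chk3 f_pm_022 t 4 1 1 = true :=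
  ⟨(b (a (l 1) (b (l 1) (a (l 1) (b (l 1) (b (l 1) (l 16295880)))))) (b (a (l 1) (a (b (l 1) (a (l 6) (b (l 16486424) (l 6)))) (b (b (a (l 16518328) (l 16406064)) (a (l 16548944) (l 16440512))) (b (a (l 16569288) (l 16465224)) (a (l 16534720) (l 16460968)))))) (l 6))), by decide +kernel⟩

def k1_pm_022 : ∃ t, chk3 f_pm_022 t 5 1 1 = true :=
  ⟨(b (a (b (a (b (l 15564168) (a (l 1) (l 15807240))) (b (a (l 15484752) (l 15319424)) (a (l 15655696) (l 15504616)))) (a (b (a (l 16093208) (l 15956208)) (a (l 16088928) (b (l 16057624) (l 16118416)))) (b (a (l 15817168) (l 15680096)) (a (b (l 15928680) (l 15997080)) (b (l 15806264) (l 15890696)))))) (b (a (b (a (l 15158616) (l 15012048)) (a (l 15359536) (l 15231160))) (b (a (l 14884976) (l 14769600)) (a (l 15118104) (l 15015920)))) (a (b (a (b (l 15506712) (l 15605256)) (l 15448568)) (a (b (l 15701440) (l 15798672)) (b (l 15612376) (l 15719008)))) (a (b (l 15354392) (l 15562064)) (b (l 15260904) (l 15454344))))))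 (b (a (a (b (a (b (l 16289832) (l 16330000)) (b (l 16173648) (l 16222824))) (b (a (l 16362536) (l 16275360)) (a (l 16334528) (l 16328136)))) (b (a (b (l 16064128) (l 16132864)) (b (l 15973200) (l 16056600))) (b (a (l 16202272) (l 16141528)) (a (l 16273680) (l 16214336))))) (b (a (b (a (l 15896888) (l 15822168)) (a (l 15990464) (l 15918368))) (b (a (l 15743488) (l 15663928)) (a (l 15843544) (l 15766928)))) (a (b (a (l 16075768) (l 16007688)) (a (l 16153648) (l 16087104))) (b (l 15901304) (l 15992056))))) (b (a (a (b (a (l 16390344) (l 16385032)) (a (l 6) (b (l 16421936) (l 6)))) (b (a (l 16332576) (l 16279168)) (a (l 16387040) (l 16274408)))) (a (b (l 16189256) (l 16254992)) (b (l 16075776) (l 16156376)))) (a (a (l 6) (b (b (l 16403536) (l 6)) (l 6))) (b (b (l 16204184) (l 16278120)) (b (a (l 16319840) (l 16247656)) (l 16212712))))))), by decide +kernel⟩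

def k2_pm_022 : ∃ t, chk3 f_pm_022 t 6 2 1 = true :=
  ⟨(a (b (a (b (a (l 14655960) (b (l 14474552) (l 14607424))) (a (l 14911400) (l 14785952))) (b (b (a (l 14359648) (l 14251224)) (l 14277128)) (b (l 14585064) (l 14724832)))) (a (b (a (l 15164680) (l 15068320)) (b (a (l 15349496) (l 15260432)) (l 15425960))) (b (b (l 14863720) (l 15001240)) (b (l 15136832) (l 15269912))))) (b (b (a (b (a (l 14149200) (l 14011720)) (b (l 14191128) (l 14265504))) (b (a (l 13901792) (l 13819496)) (b (l 13997432) (l 14075312)))) (a (b (l 14398136) (l 14546712)) (b (l 14234280) (l 14390152)))) (b (a (b (l 14694608) (l 14841312)) (b (l 14545520) (l 14699904))) (a (b (l 14986288) (l 15128944)) (b (l 14852752) (l 15003480)))))), by decide +kernel⟩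

def k3_pm_022 : ∃ t, chk3 f_pm_022 t 14 4 1 = true :=
  ⟨(b (a (b (a (l 13722984) (l 13654280)) (b (l 13829400) (l 13910016))) (b (a (l 13592504) (b (l 13580376) (l 13662784))) (a (l 13840256) (l 13786976)))) (a (b (l 14073168) (l 14255744)) (b (l 13936408) (l 14123112)))), by decide +kernel⟩

def k4_pm_022 : ∃ t, chk3 f_pm_022 t 30 16 1 = true :=
  ⟨(b (a (b (a (b (a (b (a (l 13516344) (b (c (l 13521384) (l 13503272)) (l 13513016))) (l 13523688)) (b (a (b (l 13520688) (c (l 13521008) (l 13502888))) (l 13527632)) (a (l 13515000) (b (c (l 13520776) (l 13502648)) (l 13511976))))) (l 13533344)) (b (a (b (l 13548576) (a (b (l 13521088) (c (l 13520688) (l 13502552))) (l 13528336))) (l 13563472)) (a (b (a (l 13514280) (b (c (l 13520744) (l 13502600)) (l 13511512))) (l 13521688)) (b (a (b (l 13522064) (c (l 13520952) (l 13502792))) (l 13529616)) (a (l 13514064) (b (c (l 13521296) (l 13503136)) (l 13511560))))))) (l 13553104)) (b (a (a (b (l 13592768) (b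 (l 13551576) (a (b (l 13523616) (c (l 13521800) (l 13503624))) (l 13531488)))) (l 13595264)) (l 13641608)) (a (b (a (b (a (l 13514360) (b (l 13513360) (l 13512128))) (l 13521632)) (b (a (b (l 13525752) (l 13514152)) (l 13533928)) (a (l 13515160) (b (l 13515104) (l 13513216))))) (l 13532320)) (b (a (b (l 13556896) (a (b (l 13528464) (l 13516208)) (l 13536952))) (l 13574272)) (a (b (a (l 13516480) (b (l 13517472) (l 13514840))) (l 13523488)) (b (a (l 13525080) (l 13540552)) (a (l 13518304) (b (l 13520488) (l 13516992))))))))) (a (l 13615360) (l 13575000))), by decide +kernel⟩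

def k5_pm_022 : ∃ t, chk3 f_pm_022 t 31 16 1 = true :=
  ⟨(b (a (a (a (l 13549024) (l 13666632)) (l 13716992)) (l 13822272)) (a (b (a (b (a (b (a (l 13520648) (b (l 13524160) (l 13519696))) (l 13527232)) (b (l 13540968) (a (l 13523512) (b (l 13528528) (l 13522968))))) (l 13538904)) (b (l 13577168) (a (b (a (l 13526896) (b (l 13533608) (l 13526808))) (l 13532840)) (b (l 13551936) (a (l 13530816) (b (l 13539440) (l 13531248))))))) (l 13562656)) (b (l 13592568) (a (b (a (b (a (b (l 13533704) (l 13534064)) (b (l 13545968) (l 13536312))) (l 13540464)) (b (l 13565232) (c (a (l 13549384) (l 13556552)) (l 13536408)))) (l 13553344)) (b (l 13604848) (a (b (a (b (l 13545128) (l 13543824)) (l 13554272)) (l 13550440)) (b (l 13580592) (a (b (l 13551864) (l 13549496)) (l 13561760))))))))), by decide +kernel⟩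

def k6_pm_022 : ∃ t, chk3 f_pm_022 t 15 17 1 = true :=
  ⟨(a (a (l 13740376) (b (l 13658568) (l 13742408))) (a (b (l 13625488) (l 13709480)) (b (a (l 13605240) (l 13595440)) (l 13683368)))), by decide +kernel⟩

def k7_pm_022 : ∃ t, chk3 f_pm_022 t 15 9 1 = true :=
  ⟨(a (b (l 13761688) (l 14013816)) (a (b (l 13835976) (l 14005016)) (b (l 13809824) (l 13978880)))), by decide +kernel⟩

def k8_pm_022 : ∃ t, chk3 f_pm_022 t 7 5 1 = true :=
  ⟨(a (b (a (b (l 14417032) (l 14577528)) (b (l 14288728) (l 14453728))) (a (b (l 14736688) (l 14893920)) (b (l 14638560) (l 14800680)))) (b (a (b (a (l 14243232) (l 14205936)) (l 14370952)) (a (b (l 14174232) (l 14343136)) (b (l 14148184) (l 14317264)))) (a (b (l 14537864) (l 14703216)) (b (a (l 14511208) (l 14485592)) (a (l 14677856) (l 14652560)))))), by decide +kernel⟩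

def k9_pm_022 : ∃ t, chk3 f_pm_022 t 3 3 1 = true :=
  ⟨(b (a (a (b (a (b (l 15544648) (l 15659256)) (b (l 15399824) (l 15525848))) (a (b (l 15768976) (l 15872880)) (b (l 15647160) (l 15762816)))) (b (a (b (l 15268640) (l 15404624)) (b (l 15151432) (l 15295864))) (a (b (l 15536056) (l 15661976)) (b (l 15435888) (l 15570512))))) (a (b (a (b (l 15048568) (l 15199856)) (b (l 14960400) (l 15116912))) (a (b (l 15346880) (l 15488584)) (b (l 15269272) (l 15416344)))) (b (a (b (l 14887296) (a (l 15063224) (l 15031832))) (b (a (l 14842360) (l 14817456)) (a (l 15003888) (l 14979424)))) (a (b (l 15203304) (l 15333016)) (b (a (l 15161384) (l 15137384)) (a (l 15313560) (l 15289984))))))) (b (a (a (b (a (l 15969928) (l 15871736)) (a (l 16063984) (l 15977768))) (b (a (l 15781256) (l 15698552)) (a (l 15897696) (l 15823728)))) (a (b (a (l 15623696) (l 15556784)) (a (l 15713920) (b (l 15657288) (l 15728640)))) (b (a (l 15497904) (a (l 15458840) (l 15435568))) (a (b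 (l 15600848) (l 15673720)) (b (l 15551104) (l 15624456)))))) (a (b (a (b (l 16039688) (l 16148240)) (b (l 15937016) (l 16014000))) (a (a (l 16079944) (l 15932096)) (b (a (l 16056840) (l 16000512)) (l 15955344)))) (b (a (b (a (l 15861480) (l 15803368)) (l 15895112)) (b (a (l 15749856) (l 15700936)) (l 15727664))) (a (b (a (l 15947224) (l 15896656)) (l 15850536)) (b (a (l 15848520) (l 15802584)) (l 15757760))))))), by decide +kernel⟩

theorem s10_pm_022 : ∃ t, chk3 f_pm_022 t 15 16 1 = true := ex3_a k4_pm_022 k5_pm_022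

theorem s11_pm_022 : ∃ t, chk3 f_pm_022 t 15 8 1 = true := ex3_b s10_pm_022 k6_pm_022

theorem s12_pm_022 : ∃ t, chk3 f_pm_022 t 15 4 1 = true := ex3_b s11_pm_022 k7_pm_022

theorem s13_pm_022 : ∃ t, chk3 f_pm_022 t 7 4 1 = true := ex3_a k3_pm_022 s12_pm_022

theorem s14_pm_022 : ∃ t, chk3 f_pm_022 t 7 2 1 = true := ex3_b s13_pm_022 k8_pm_022

theorem s15_pm_022 : ∃ t, chk3 f_pm_022 t 3 2 1 = true := ex3_a k2_pm_022 s14_pm_022

theorem s16_pm_022 : ∃ t, chk3 f_pm_022 t 3 1 1 = true := ex3_b s15_pm_022 k9_pm_022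

theorem s17_pm_022 : ∃ t, chk3 f_pm_022 t 2 1 1 = true := ex3_a k0_pm_022 k1_pm_022

theorem s18_pm_022 : ∃ t, chk3 f_pm_022 t 1 1 1 = true := ex3_a s17_pm_022 s16_pm_022

theorem c_pm_022 : CertB 0 536870912 0 536870912 1040187392 5207648 3 eng mog cd0q0 cd0q2 pd2 true true false .pp 0 2 2
    ndB0q0 ndB0q2 pcB2 cut_pm_022 Ext.none :=
  certB2 (fam := true) (s1 := true) (s2 := false) (a := 0) (b := 2) (c := 2) (cn := .pp) (n1 := ndB0q0) (n2 := ndB0q2) (pc := pcB2) (cut := cut_pm_022) (xt := Ext.none) (P1 := 0) (W1 := 536870912) (P2 := 0) (W2 := 536870912) (P3 := 1040187392) (W3 := 5207648) (N0 := 3) (En := eng) (mo := mog) (C1 := cd0q0) (C2 := cd0q2) (C3 := pd2)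
    rfl (fun _ => rfl) s18_pm_022

noncomputable def cut_pm_023 : Cut := Cut.of [[⟨3, 0, 0, 1449551462⟩], [⟨4, 0, 0, 2845415833⟩]]

noncomputable def f_pm_023 : ℕ → ℕ → ℕ → ℕ → Bool := onCell 1610612736 536870912 0 536870912 1040187392 5207648
    (rowB 3 eng mog cd0q0 cd0q2 pd3 2 true true false .up 0 2 3 (qsf 0 536870912 0 536870912 3) ndB0q0 ndB0q2 pcB3 cut_pm_023 Ext.none)

def k0_pm_023 : ∃ t, chk3 f_pm_023 t 1 1 1 = true :=
  ⟨(a (b (a (b (a (b (a (b (l 16344608) (l 16287816)) (b (l 16421736) (l 16362784))) (a (l 16186880) (l 16279096))) (b (a (l 16463408) (a (l 16509048) (l 14))) (a (b (a (l 16370280) (l 16402064)) (l 16323864)) (b (a (l 16431448) (l 16463488)) (a (l 16379152) (l 16416584)))))) (a (b (a (l 16061864) (l 16150016)) (a (l 15943264) (l 16030184))) (b (a (l 16232352) (l 16308088)) (a (l 16113632) (l 16192784))))) (a (b (b (l 14) (a (b (l 16505304) (a (b (l 16455112) (l 16432016)) (b (l 14) (l 16460184)))) (l 2))) (a (b (l 16292544)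 (l 16266816)) (l 2))) (l 2))) (b (a (a (b (a (l 15765664) (l 15892120)) (a (b (l 15743040) (l 15685400)) (b (l 15824920) (l 15765056)))) (b (a (l 15996592) (l 16078272)) (a (b (l 15907712) (l 15846976)) (b (l 15990616) (l 2))))) (l 2)) (a (a (a (b (b (l 15626416) (b (l 15580904) (l 15549736))) (b (b (l 15517992) (l 15485352)) (b (l 15462432) (l 15563800)))) (b (b (l 15703472) (b (l 15655792) (l 15623528))) (b (b (l 15590968) (l 2)) (l 2)))) (b (b (a (l 15784176) (l 2)) (l 2)) (l 2))) (l 2)))) (l 2)), by decide +kernel⟩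

theorem c_pm_023 : CertB 0 536870912 0 536870912 1040187392 5207648 3 eng mog cd0q0 cd0q2 pd3 true true false .up 0 2 3
    ndB0q0 ndB0q2 pcB3 cut_pm_023 Ext.none :=
  certB2 (fam := true) (s1 := true) (s2 := false) (a := 0) (b := 2) (c := 3) (cn := .up) (n1 := ndB0q0) (n2 := ndB0q2) (pc := pcB3) (cut := cut_pm_023) (xt := Ext.none) (P1 := 0) (W1 := 536870912) (P2 := 0) (W2 := 536870912) (P3 := 1040187392) (W3 := 5207648) (N0 := 3) (En := eng) (mo := mog) (C1 := cd0q0) (C2 := cd0q2) (C3 := pd3)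
    rfl (fun _ => rfl) k0_pm_023

noncomputable def cut_pm_101 : Cut := Cut.of [[⟨3, 0, 0, 1449551462⟩], [⟨4, 0, 0, 2845415833⟩], [⟨0, 1, 0, 26843545⟩, ⟨1, 0, 0, 26843545⟩, ⟨2, 1, 0, 26843545⟩]]

noncomputable def f_pm_101 : ℕ → ℕ → ℕ → ℕ → Bool := onCell 536870912 536870912 536870912 536870912 1040187392 5207648
    (rowB 3 eng mog cd0q1 cd0q0 pd1 1 true true false .npn 1 0 1 (qsf 536870912 536870912 0 536870912 1) ndB0q1 ndB0q0 pcB1 cut_pm_101 Ext.none)

def k0_pm_101 : ∃ t, chk3 f_pm_101 t 1 1 1 = true :=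
  ⟨(l 6), by decide +kernel⟩

theorem c_pm_101 : CertB 536870912 536870912 0 536870912 1040187392 5207648 3 eng mog cd0q1 cd0q0 pd1 true true false .npn 1 0 1
    ndB0q1 ndB0q0 pcB1 cut_pm_101 Ext.none :=
  certB1 (fam := true) (s1 := true) (s2 := false) (a := 1) (b := 0) (c := 1) (cn := .npn) (n1 := ndB0q1) (n2 := ndB0q0) (pc := pcB1) (cut := cut_pm_101) (xt := Ext.none) (P1 := 536870912) (W1 := 536870912) (P2 := 0) (W2 := 536870912) (P3 := 1040187392) (W3 := 5207648) (N0 := 3) (En := eng) (mo := mog) (C1 := cd0q1) (C2 := cd0q0) (C3 := pd1)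
    rfl (fun _ => rfl) k0_pm_101

noncomputable def cut_pm_102 : Cut := Cut.of [[⟨3, 0, 0, 1449551462⟩], [⟨4, 0, 0, 2845415833⟩], [⟨0, 1, 0, 16777216⟩, ⟨1, 0, 0, 16777216⟩, ⟨2, 1, 0, 16777216⟩]]

noncomputable def f_pm_102 : ℕ → ℕ → ℕ → ℕ → Bool := onCell 536870912 536870912 0 536870912 1040187392 5207648
    (rowB 3 eng mog cd0q1 cd0q0 pd2 0 true true false .npp 1 0 2 (qsf 536870912 536870912 0 536870912 2) ndB0q1 ndB0q0 pcB2 cut_pm_102 Ext.none)

def k0_pm_102 : ∃ t, chk3 f_pm_102 t 1 1 1 = true :=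
  ⟨(a (l 6) (b (a (l 6) (b (l 6) (a (l 6) (a (l 6) (b (l 6) (a (l 6) (b (l 6) (l 16171944)))))))) (a (b (l 6) (a (l 6) (b (a (l 6) (b (l 6) (l 16236584))) (a (b (l 6) (l 16267120)) (b (l 16182112) (l 16131832)))))) (a (b (b (l 6) (a (l 6) (a (l 16162128) (l 16046376)))) (a (b (b (a (l 16176248) (l 16106896)) (a (l 16118688) (l 16043424))) (b (a (l 16066616) (l 15987488)) (l 15979224))) (b (a (l 16024464) (l 15976512)) (a (b (l 15932384) (l 15876328)) (l 15860240))))) (a (b (b (a (l 16127608) (b (l 16215712) (l 16141016))) (a (l 16065520) (b (l 16071224) (l 16005984)))) (b (a (l 15937888) (l 15916296)) (a (l 15825904) (l 15808808)))) (b (b (a (l 16132584) (l 16065936)) (a (l 15999536) (l 15939928))) (b (a (l 15883032) (l 15829448)) (a (l 15780248) (l 15731608))))))))), by decide +kernel⟩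

theorem c_pm_102 : CertB 536870912 536870912 0 536870912 1040187392 5207648 3 eng mog cd0q1 cd0q0 pd2 true true false .npp 1 0 2
    ndB0q1 ndB0q0 pcB2 cut_pm_102 Ext.none :=
  certB0 (fam := true) (s1 := true) (s2 := false) (a := 1) (b := 0) (c := 2) (cn := .npp) (n1 := ndB0q1) (n2 := ndB0q0) (pc := pcB2) (cut := cut_pm_102) (xt := Ext.none) (P1 := 536870912) (W1 := 536870912) (P2 := 0) (W2 := 536870912) (P3 := 1040187392) (W3 := 5207648) (N0 := 3) (En := eng) (mo := mog) (C1 := cd0q1) (C2 := cd0q0) (C3 := pd2)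
    rfl k0_pm_102

noncomputable def cut_pm_112 : Cut := Cut.of [[⟨3, 0, 0, 1449551462⟩], [⟨4, 0, 0, 2845415833⟩]]

noncomputable def f_pm_112 : ℕ → ℕ → ℕ → ℕ → Bool := onCell 536870912 536870912 536870912 536870912 1040187392 5207648
    (rowB 3 eng mog cd0q1 cd0q1 pd2 0 true true false .dn 1 1 2 (qsf 536870912 536870912 536870912 536870912 2) ndB0q1 ndB0q1 pcB2 cut_pm_112 Ext.none)

def k0_pm_112 : ∃ t, chk3 f_pm_112 t 1 1 1 = true :=
  ⟨(a (b (a (b (l 6) (b (l 6) (a (l 6) (a (l 16311432) (l 16370072))))) (b (a (l 6) (b (l 6) (b (l 16311432) (l 16370072)))) (a (b (a (l 16425272) (l 16375712)) (l 16079984)) (b (l 16079984) (l 16133328))))) (b (a (b (a (b (a (l 6) (l 16379472)) (a (l 16332680) (l 16279472))) (b (a (l 16320792) (l 16259008)) (a (l 16227032) (l 16174288)))) (a (b (l 16065912) (l 15999984)) (b (l 16096320) (l 15978144)))) (b (a (b (l 16162048) (l 16045152)) (l 15996632)) (a (b (l 16001968) (l 15896224)) (b (l 15891552) (l 2))))) (b (a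 (b (a (a (l 15936296) (l 15897296)) (l 15843344)) (a (b (a (l 15826176) (l 15783200)) (l 15758000)) (b (l 15731608) (a (l 15689344) (l 2))))) (b (a (l 15775776) (l 2)) (l 2))) (a (b (a (b (l 15727072) (l 15713504)) (b (l 15639152) (l 2))) (a (b (l 15688632) (l 15643808)) (l 2))) (l 2))))) (b (a (b (a (b (a (b (l 6) (l 16379472)) (b (l 16332680) (l 16279472))) (a (b (l 16320792) (l 16259008)) (b (l 16227032) (l 16174288)))) (b (a (l 16065912) (l 15999984)) (a (l 16096320) (l 15978144)))) (a (b (a (l 16162048) (l 16045152)) (l 15996632)) (b (a (l 16001968) (l 15896224)) (a (l 15891552) (l 2))))) (a (b (a (b (b (l 15936296) (l 15897296)) (l 15843344)) (b (a (b (l 15826176) (l 15783200)) (l 15758000)) (a (l 15731608) (b (l 15689344) (l 2))))) (a (b (l 15775776) (l 2)) (l 2))) (b (a (b (a (l 15727072) (l 15713504)) (a (l 15639152) (l 2))) (b (a (l 15688632) (l 15643808)) (l 2))) (l 2)))) (a (b (b (a (l 15867248) (l 2)) (l 2)) (l 2)) (l 2)))), by decide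 +kernel⟩

theorem c_pm_112 : CertB 536870912 536870912 536870912 536870912 1040187392 5207648 3 eng mog cd0q1 cd0q1 pd2 true true false .dn 1 1 2
    ndB0q1 ndB0q1 pcB2 cut_pm_112 Ext.none :=
  certB0 (fam := true) (s1 := true) (s2 := false) (a := 1) (b := 1) (c := 2) (cn := .dn) (n1 := ndB0q1) (n2 := ndB0q1) (pc := pcB2) (cut := cut_pm_112) (xt := Ext.none) (P1 := 536870912) (W1 := 536870912) (P2 := 536870912) (W2 := 536870912) (P3 := 1040187392) (W3 := 5207648) (N0 := 3) (En := eng) (mo := mog) (C1 := cd0q1) (C2 := cd0q1) (C3 := pd2)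
    rfl k0_pm_112

end Pool.Agent.Strip051.G.I9688_9736.Tab.C.BA00

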