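import Pool.Agent.Strip051.G.I9688_9736.Tab
import Pool.Agent.Strip051.PB.ExtD3

/-! # Certificates B4 (generated) -/

set_option linter.all false
set_option maxRecDepth 100000

namespace Pool.Agent.Strip051.G.I9688_9736.Tab.C.BA00

open Pool.Agent.Strip051.PB Pool.Agent.Strip051.PB.T
open Pool.Agent.Strip051.G.I9688_9736.Tab

noncomputable def cut_mm_202 : Cut := Cut.of [[⟨3, 0, 0, 1449551462⟩], [⟨4, 0, 0, 2845415833⟩], [⟨0, 1, 0, 22369621⟩, ⟨1, 0, 0, 22369621⟩, ⟨2, 1, 0, 22369621⟩]]

noncomputable def f_mm_202 : ℕ → ℕ → ℕ → ℕ → Bool := onCell 0 536870912 0 536870912 1040187392 5207648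
    (rowB 3 eng mog cd0q2 cd0q0 pd2 0 true false false .pp 2 0 2 (qsf 0 536870912 0 536870912 2) ndB0q2 ndB0q0 pcB2 cut_mm_202 Ext.none)

def k0_mm_202 : ∃ t, chk3 f_mm_202 t 4 4 1 = true :=
  ⟨(b (b (a (b (l 15336392) (l 15156064)) (b (l 15218896) (l 15021792))) (a (b (l 14979792) (l 14817040)) (a (b (l 14858736) (l 14684744)) (b (a (l 14811928) (a (l 14792408) (a (l 14785224) (l 14790192)))) (a (l 14631824) (a (a (l 14572336) (b (l 14651888) (b (l 14593704) (l 14566544)))) (b (a (l 14660744) (l 14689584)) (l 14626592)))))))) (b (a (b (l 14611632) (l 14462088)) (a (b (l 14510688) (l 14372128)) (b (a (b (l 14512696) (a (l 14445672) (a (l 14434024) (b (l 14451488) (l 14430384))))) (b (a (a (b (l 14519024) (l 14495736)) (l 14538248)) (l 14588664)) (l 14524408))) (b (a (a (l 14376152) (a (b (l 14387688) (l 14368064)) (l 14410192))) (l 14498728)) (a (a (a (l 14311280) (b (l 14373808) (l 14308176))) (l 14368576)) (l 14477304)))))) (a (b (a (l 14478400) (l 14341384)) (a (l 14334928) (l 14213176))) (a (a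 (b (l 14282720) (l 14087032)) (b (a (l 14245840) (b (b (l 14273576) (l 14241640)) (a (b (l 14211144) (l 14179640)) (b (a (l 14205368) (l 14212632)) (l 14193440))))) (a (b (b (l 14161504) (a (l 14133880) (a (l 14124376) (l 14121064)))) (a (b (l 14100040) (a (l 14069872) (b (l 14072008) (a (l 14057032) (l 14058104))))) (b (a (b (l 14099240) (l 14085416)) (l 14100424)) (b (a (l 14075552) (l 14094576)) (l 14081272))))) (b (a (b (a (l 14149032) (l 14156192)) (l 14137472)) (l 14180648)) (l 14146000))))) (b (a (b (a (a (b (a (l 14262712) (l 14270104)) (l 14250152)) (l 14292608)) (l 14348352)) (l 14293304)) (l 14409880)) (b (l 14355184) (l 14343680))))))), by decide +kernel⟩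

def k1_mm_202 : ∃ t, chk3 f_mm_202 t 5 4 1 = true :=
  ⟨(b (a (b (a (b (a (l 15185208) (l 15240632)) (a (a (l 14982192) (l 15012016)) (l 15097488))) (b (l 15401640) (l 15205008))) (b (a (a (b (l 14881280) (l 14821736)) (l 14972008)) (a (l 15092248) (l 15211464))) (a (b (l 14832720) (l 14789936)) (b (l 15083456) (l 15047280))))) (b (b (a (l 15528696) (a (l 15767480) (l 15869176))) (a (a (l 15435168) (l 15545448)) (a (l 15654128) (l 15760944)))) (b (a (a (l 15329176) (l 15445064)) (a (l 15558952) (l 15670320))) (a (b (l 15328120) (l 15298104)) (a (l 15491456) (l 15608272)))))) (b (a (b (a (b (l 14756264) (l 14730568)) (b (l 15020104) (l 15000768))) (a (b (l 14709792) (l 14693128)) (a (l 14890104) (l 15028040)))) (b (a (b (l 15277000) (l 15284616)) (b (a (l 15463320) (l 15584128)) (a (l 15454256) (l 15577816)))) (a (a (l 15163848) (l 15297216)) (a (l 15448800) (b (l 15575896) (l 15577496)))))) (a (a (b (b (l 14679920) (l 14669552)) (b (l 14661280) (l 14655360))) (b (a (l 14872384) (l 15015928)) (b (l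 14960448) (l 14959688)))) (a (b (a (l 15157168) (l 15295808)) (a (l 15159168) (l 15323624))) (b (a (l 15452520) (l 15595544)) (a (l 15464080) (l 14))))))), by decide +kernel⟩

def k2_mm_202 : ∃ t, chk3 f_mm_202 t 8 20 1 = true :=
  ⟨(b (a (l 14214512) (a (l 14138712) (l 13993936))) (a (l 14079832) (a (l 13937440) (c (b (l 13994504) (a (l 13952120) (l 13920800))) (l 13908376))))), by decide +kernel⟩

def k3_mm_202 : ∃ t, chk3 f_mm_202 t 16 21 1 = true :=
  ⟨(b (l 13972896) (c (l 13859552) (l 13907048))), by decide +kernel⟩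

def k4_mm_202 : ∃ t, chk3 f_mm_202 t 34 21 1 = true :=
  ⟨(b (b (l 13937864) (l 13884472)) (b (l 13832864) (c (l 13791136) (l 13774992)))), by decide +kernel⟩

def k5_mm_202 : ∃ t, chk3 f_mm_202 t 35 42 1 = true :=
  ⟨(a (b (l 13888504) (l 13834240)) (b (b (l 13870472) (a (l 13850536) (a (l 13838568) (b (c (l 13845864) (l 13830160)) (a (c (l 13834008) (l 13818224)) (c (b (a (l 13834568) (a (l 13834584) (l 13836472))) (a (a (l 13829672) (l 13831576)) (l 13835744))) (l 13819112))))))) (a (b (l 13823176) (a (l 13800352) (b (c (l 13807312) (l 13791352)) (a (c (l 13796056) (l 13780024)) (c (b (a (l 13796400) (c (l 13801592) (l 13793576))) (a (c (l 13797024) (l 13789000)) (l 13798152))) (l 13780968)))))) (b (a (b (c (l 13826264) (l 13810424)) (a (c (l 13814704) (l 13798792)) (c (b (a (l 13815152) (c (l 13820256) (l 13812304))) (a (c (l 13815528) (l 13807560)) (l 13816608))) (l 13799704)))) (b (a (c (b (a (l 13824776) (c (l 13829840) (l 13821928))) (a (c (l 13825032) (l 13817096)) (l 13826088))) (l 13809328))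 (l 13826096)) (l 13822112))) (a (b (a (c (b (a (l 13805696) (c (l 13810840) (l 13802856))) (a (c (l 13806192) (l 13798200)) (l 13807296))) (l 13790256)) (l 13807208)) (l 13803608)) (l 13824904)))))), by decide +kernel⟩

def k6_mm_202 : ∃ t, chk3 f_mm_202 t 35 43 1 = true :=
  ⟨(a (b (b (l 13794728) (a (l 13777376) (a (l 13764728) (b (c (l 13771376) (l 13755168)) (a (c (l 13760712) (l 13744440)) (c (b (a (l 13760856) (l 13762184)) (a (l 13757944) (l 13763256))) (l 13745488))))))) (a (b (l 13752144) (a (l 13731664) (b (c (l 13738008) (l 13721584)) (a (c (l 13727944) (l 13711448)) (c (b (a (l 13727896) (l 13729424)) (l 13728160)) (l 13712640)))))) (b (a (b (c (l 13754376) (l 13738056)) (a (c (l 13744008) (l 13727624)) (c (b (a (l 13744056) (l 13745472)) (l 13744000)) (l 13728736)))) (b (a (c (b (a (l 13752376) (l 13753744)) (a (l 13749584) (l 13754944))) (l 13737032)) (l 13754568)) (l 13752104))) (a (b (a (c (b (a (l 13735896) (l 13737368)) (l 13736000)) (l 13720608)) (l 13738352)) (l 13736264)) (l 13757448)))))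 (b (a (b (a (b (c (l 13789016) (l 13772936)) (a (c (l 13778064) (l 13761904)) (c (b (a (l 13778304) (l 13779552)) (a (l 13775144) (l 13780368))) (l 13762896)))) (b (a (c (b (a (l 13787272) (l 13788480)) (a (l 13783992) (l 13789176))) (l 13771848)) (l 13788992)) (l 13785768))) (a (b (a (c (b (a (l 13769496) (l 13770784)) (a (l 13766464) (l 13771728))) (l 13754112)) (l 13771440)) (l 13768600)) (l 13789848))) (l 13820944)) (c (l 13819136) (l 13803152)))), by decide +kernel⟩

def k7_mm_202 : ∃ t, chk3 f_mm_202 t 72 20 1 = true :=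
  ⟨(b (b (l 14065552) (l 14002696)) (b (b (l 13956744) (a (l 13934144) (a (l 13922928) (b (c (l 13930960) (l 13915808)) (a (c (l 13917888) (l 13902664)) (c (b (a (l 13918896) (a (l 13918896) (l 13920664))) (a (b (l 13914696) (l 13913688)) (l 13919096))) (l 13903528))))))) (a (b (l 13904632) (a (l 13879416) (b (c (l 13887072) (l 13871632)) (a (c (l 13874608) (l 13859088)) (c (b (a (l 13875384) (a (l 13875384) (l 13877192))) (a (a (l 13870136) (l 13871952)) (l 13876048))) (l 13859952)))))) (b (a (b (c (l 13908680) (l 13893384)) (a (c (l 13895904) (l 13880528)) (c (b (a (l 13896800) (a (l 13896800) (l 13898584))) (a (a (l 13891376) (l 13893176)) (l 13897224))) (l 13881400)))) (b (a (c (b (a (l 13907760) (a (l 13928736) (l 13909536))) (a (a (l 13902256) (l 13904040)) (l 13908080))) (l 13892376)) (l 13908512)) (l 13902960))) (a (b (a (c (b (a (l 13886008) (a (l 13886000) (l 13887800))) (a (a (l 13880672) (l 13882480)) (l 13886552))) (l 13870592)) (l 13886872)) (l 13881720)) (l 13903136)))))), by decide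 +kernel⟩

def k8_mm_202 : ∃ t, chk3 f_mm_202 t 73 20 1 = true :=
  ⟨(b (b (b (l 14053856) (a (l 14028520) (a (l 14018120) (b (l 14019680) (a (l 14005328) (c (l 14013608) (l 13999000))))))) (a (b (l 13996824) (a (l 13969152) (b (l 13970144) (a (l 13956424) (c (b (l 13966112) (l 13962520)) (l 13949856)))))) (b (a (a (l 13988368) (b (l 13992840) (b (l 13982888) (l 13979104)))) (b (a (c (l 14001136) (l 13986448)) (l 14002040)) (l 13994888))) (a (b (a (c (b (l 13978096) (l 13974424)) (l 13961880)) (l 13977600)) (l 13970856)) (l 13992384))))) (b (a (b (a (b (l 13946424) (a (l 13933008) (c (b (a (l 13941664) (l 13942696)) (l 13939232)) (l 13926344)))) (b (a (c (b (a (l 13953312) (l 13954344)) (l 13950792)) (l 13938016)) (l 13953872)) (l 13947528))) (a (b (a (c (b (a (l 13930192) (l 13931216)) (a (c (l 13929336) (l 13921744)) (l 13930296))) (l 13914848)) (l 13930840)) (l 13924896)) (l 13946368))) (l 13978688)) (b (l 13956424) (l 13956952)))), by decide +kernel⟩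

def k9_mm_202 : ∃ t, chk3 f_mm_202 t 37 20 1 = true :=
  ⟨(b (b (a (a (b (a (b (l 14045488) (a (l 14030824) (l 14031848))) (b (a (l 14044888) (l 14053048)) (l 14045088))) (a (b (a (l 14018984) (l 14027184)) (l 14019632)) (l 14041216))) (l 14074152)) (l 14134872)) (l 14003048)) (b (l 13999840) (l 14000840))), by decide +kernel⟩

def k10_mm_202 : ∃ t, chk3 f_mm_202 t 19 20 1 = true :=
  ⟨(b (a (l 14190136) (l 14351632)) (a (b (l 14250712) (l 14254352)) (l 14355912))), by decide +kernel⟩

def k11_mm_202 : ∃ t, chk3 f_mm_202 t 9 21 1 = true :=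
  ⟨(a (a (b (b (a (a (b (a (b (c (l 13866136) (l 13850560)) (a (c (l 13853976) (l 13838320)) (c (b (a (l 13854640) (a (l 13854648) (l 13856496))) (a (a (l 13849568) (l 13851424)) (l 13855552))) (l 13839192)))) (b (a (c (b (a (l 13864928) (a (l 13864928) (l 13866760))) (a (a (l 13859768) (l 13861600)) (l 13865712))) (l 13849488)) (l 13865928)) (l 13861168))) (a (b (a (c (b (a (l 13844520) (a (l 13844528) (l 13846400))) (a (a (l 13839536) (l 13841416)) (l 13845560))) (l 13829072)) (l 13845672)) (l 13841296)) (l 13862656))) (c (l 13902064) (l 13886664))) (c (l 13967256) (l 13952200))) (c (a (l 13886256) (l 13974520)) (l 13915112))) (b (c (l 13836200) (l 13925768)) (l 13864136))) (b (b (l 14005968) (l 14015120)) (b (l 14112112) (l 14129072)))) (b (a (l 14204488) (l 14397008)) (a (l 14256296) (l 14432280)))), by decide +kernel⟩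

def k12_mm_202 : ∃ t, chk3 f_mm_202 t 32 11 1 = true :=
  ⟨(b (b (l 13858768) (l 13773504)) (b (l 13674304) (b (l 13641232) (l 13607480)))), by decide +kernel⟩

def k13_mm_202 : ∃ t, chk3 f_mm_202 t 33 22 1 = true :=
  ⟨(b (b (l 13807072) (l 13761832)) (b (l 13718384) (l 13676744))), by decide +kernel⟩

def k14_mm_202 : ∃ t, chk3 f_mm_202 t 33 23 1 = true :=
  ⟨(b (a (l 13636856) (b (b (l 13627624) (a (l 13617576) (a (l 13603304) (b (c (a (l 13609712) (l 13606360)) (l 13591240)) (a (c (l 13601472) (l 13584088)) (a (b (l 13592200) (l 13593656)) (l 13597904))))))) (a (b (l 13598528) (a (l 13584752) (c (b (a (l 13590872) (b (l 13588456) (l 13585648))) (a (b (l 13584096) (l 13581408)) (b (l 13585176) (l 13588480)))) (b (l 13572448) (l 13568688))))) (a (c (b (b (a (l 13600008) (l 13596744)) (a (l 13613128) (b (l 13593760) (l 13596672)))) (b (a (b (l 13589392) (l 13592496)) (l 13602896)) (l 13605128))) (b (b (l 13581552) (l 13577352)) (l 13583328))) (b (a (a (b (b (l 13587448) (l 13589176)) (l 13595264))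 (l 13597464)) (l 13606776)) (l 13617216)))))) (a (b (b (l 13590944) (a (l 13583176) (a (l 13568488) (c (b (a (l 13574320) (b (l 13571880) (l 13569576))) (a (b (l 13568096) (l 13565928)) (l 13571856))) (b (l 13556000) (l 13553152)))))) (a (b (l 13566120) (a (l 13554464) (b (a (l 13551160) (c (b (l 13557608) (l 13555872)) (l 13539752))) (a (c (b (l 13554392) (l 13552808)) (l 13536600)) (l 13550432))))) (c (b (a (b (a (l 13566896) (b (l 13564456) (l 13562432))) (a (b (l 13560960) (l 13559080)) (l 13565272))) (b (l 13574496) (l 13584264))) (b (l 13580880) (l 13591320))) (b (a (b (l 13548648) (l 13546272)) (l 13561624)) (l 13568216))))) (b (a (c (b (a (b (a (l 13582312) (b (l 13579880) (l 13577320))) (a (b (l 13575808) (l 13573376)) (b (l 13577216) (l 13580896)))) (b (a (b (l 13581120) (l 13584616)) (l 13594992)) (l 13597568))) (b (a (a (l 13575376) (l 13587696)) (l 13606648)) (l 13603280))) (b (a (b (l 13563936) (l 13560616)) (l 13575480)) (l 13580640))) (l 13631288)) (l 13644280)))), by decide +kernel⟩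

def k15_mm_202 : ∃ t, chk3 f_mm_202 t 34 44 1 = true :=
  ⟨(b (a (l 13752784) (b (l 13729208) (a (l 13714368) (a (l 13701112) (b (c (l 13707184) (l 13690544)) (a (c (l 13697712) (l 13681008)) (c (b (a (l 13697496) (l 13699280)) (l 13698440)) (l 13682400)))))))) (a (l 13706864) (a (b (l 13691232) (a (l 13673040) (b (c (l 13678864) (l 13662032)) (a (c (l 13669984) (l 13653088)) (c (b (a (l 13669616) (l 13671744)) (l 13671320)) (l 13654736)))))) (b (a (b (c (l 13692712) (l 13675976)) (a (c (l 13683536) (l 13666736)) (c (b (a (l 13683240) (l 13685192)) (l 13684560)) (l 13668248)))) (b (a (c (b (a (l 13690288) (l 13692152)) (l 13691416)) (l 13675248)) (l 13693656)) (l 13692688))) (a (b (a (c (b (a (l 13676352) (l 13678384)) (l 13677856)) (l 13661416)) (l 13680064)) (l 13679456)) (l 13700512)))))), by decide +kernel⟩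

def k16_mm_202 : ∃ t, chk3 f_mm_202 t 34 45 1 = true :=
  ⟨(a (b (b (l 13673608) (a (l 13661208) (a (l 13647408) (b (c (l 13653016) (l 13636000)) (a (c (l 13644720) (l 13627648)) (a (b (l 13656672) (l 13635320)) (l 13639744))))))) (a (b (l 13640128) (a (l 13624176) (b (c (a (l 13630880) (l 13627376)) (l 13612416)) (a (c (l 13621896) (l 13604656)) (a (b (l 13612720) (l 13613192)) (l 13617544)))))) (b (a (b (c (l 13651496) (l 13623904)) (a (c (l 13633008) (l 13615848)) (a (b (l 13623904) (l 13623936)) (l 13628320)))) (a (a (b (b (l 13629728) (l 13629544)) (l 13634496)) (l 13637168)) (l 13646384))) (a (a (a (b (b (l 13618232) (l 13618480)) (l 13623752)) (l 13626288)) (l 13635544)) (l 13653856))))) (b (a (b (a (b (c (l 13665632) (l 13648704)) (a (c (l 13657048) (l 13640056)) (c (b (a (l 13656616) (l 13658952)) (l 13658736)) (l 13641864)))) (b (a (c (b (a (l 13663040) (l 13665264)) (l 13664952)) (l 13648224)) (l 13667112)) (l 13666872))) (a (a (a (b (b (l 13662808) (l 13641256)) (l 13645872)) (l 13648688))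 (l 13657856)) (l 13675912))) (l 13705816)) (l 13707712))), by decide +kernel⟩

def k17_mm_202 : ∃ t, chk3 f_mm_202 t 34 23 1 = true :=
  ⟨(b (b (a (a (b (a (b (c (a (l 13620000) (l 13616568)) (l 13601528)) (a (c (l 13611384) (l 13594072)) (a (b (l 13602152) (l 13603104)) (l 13607400)))) (a (a (b (b (l 13607360) (l 13608064)) (l 13613632)) (l 13616040)) (l 13625336))) (a (a (a (b (b (l 13597096) (l 13598296)) (l 13604144)) (l 13606432)) (l 13615744)) (l 13634296))) (l 13663600)) (l 13737296)) (l 13636904)) (b (l 13757000) (l 13796648))), by decide +kernel⟩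

def k18_mm_202 : ∃ t, chk3 f_mm_202 t 35 11 1 = true :=
  ⟨(b (b (b (a (a (b (a (b (c (l 13722280) (l 13705744)) (a (c (l 13712512) (l 13695912)) (c (b (a (l 13712376) (l 13714024)) (l 13712976)) (l 13697200)))) (b (a (c (b (a (l 13720056) (l 13721640)) (l 13720488)) (l 13704840)) (l 13722800)) (l 13721088))) (a (b (a (c (b (a (l 13704856) (l 13706576)) (l 13705624)) (l 13689720)) (l 13707904)) (l 13706560)) (l 13727680))) (l 13758176)) (l 13827864)) (c (l 13704592) (l 13793320))) (b (l 13741288) (l 13810728))) (b (b (l 13883776) (l 13918408)) (l 13934896))), by decide +kernel⟩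

def k19_mm_202 : ∃ t, chk3 f_mm_202 t 9 11 1 = true :=
  ⟨(b (a (a (b (b (l 13882616) (l 13988760)) (l 13924272)) (b (l 14119680) (l 14175616))) (b (b (l 14420664) (l 14448016)) (a (l 14382704) (l 14587304)))) (a (b (a (l 14053256) (l 14266296)) (a (l 14153744) (l 14369992))) (b (a (l 14476800) (l 14663648)) (a (l 14562528) (l 14752192))))), by decide +kernel⟩

def k20_mm_202 : ∃ t, chk3 f_mm_202 t 5 5 1 = true :=
  ⟨(b (a (b (a (b (b (l 14653200) (l 14655072)) (b (l 14660896) (l 14670584))) (b (b (l 14962488) (l 14969144)) (a (l 14907000) (l 15064920)))) (a (b (a (l 14566504) (l 14775656)) (a (l 14647928) (l 14819168))) (b (a (l 14940360) (l 15102336)) (a (l 14987720) (l 15153392))))) (b (a (b (a (l 15192704) (l 15340648)) (a (l 15220032) (l 15372088))) (b (a (l 15485424) (l 14)) (l 14))) (a (b (a (l 15261352) (l 14)) (l 14)) (l 14)))) (a (b (a (b (a (l 14701448) (l 14876328)) (a (l 14768272) (l 14946416))) (b (a (l 15048368) (l 14)) (l 14))) (a (a (b (l 14847656) (l 14938864)) (l 14)) (l 14)))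 (l 14))), by decide +kernel⟩

def k21_mm_202 : ∃ t, chk3 f_mm_202 t 3 2 1 = true :=
  ⟨(b (a (b (b (a (b (a (a (l 15968968) (l 16066528)) (a (l 16161480) (l 16191192))) (a (a (l 15865640) (l 15967944)) (a (l 16067568) (l 16122240)))) (a (b (a (l 16258168) (l 14)) (l 14)) (l 14))) (a (b (a (a (l 15779408) (l 15885848)) (a (l 15989416) (b (l 16106344) (l 14)))) (a (a (l 15742872) (b (l 15842360) (l 15824224))) (a (b (l 15948544) (l 14)) (l 14)))) (l 14))) (a (a (b (b (b (a (l 15701680) (l 15815640)) (a (l 15698064) (l 15814656))) (a (b (l 15698760) (l 15702904)) (l 14))) (l 14)) (l 14)) (l 14))) (l 14)) (l 14)), by decide +kernel⟩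

def k22_mm_202 : ∃ t, chk3 f_mm_202 t 8 24 1 = true :=
  ⟨(a (b (a (a (l 13580392) (b (a (l 13565408) (b (l 13553264) (a (l 13542656) (b (a (l 13539016) (c (b (l 13545608) (l 13544512)) (l 13528008))) (a (c (b (l 13542960) (l 13542040)) (l 13525432)) (l 13540272)))))) (a (b (l 13542592) (a (l 13533008) (b (a (l 13529048) (a (l 13526392) (l 13558528))) (a (a (l 13524328) (l 13525136)) (l 13532576))))) (b (a (b (a (l 13533760) (c (b (l 13540456) (l 13539720)) (l 13523000))) (a (b (l 13529144) (l 13528584)) (l 13536120))) (l 13550120)) (l 13559512))))) (b (a (a (b (a (b (a (l 13544816) (c (b (l 13551328) (l 13549896)) (l 13533592))) (a (c (b (l 13548392) (l 13547136)) (l 13530728)) (l 13545048))) (c (l 13567912) (l 13550216))) (l 13567064)) (l 13608624)) (l 13685984)) (l 13678944))) (a (a (b (a (l 13547560) (b (l 13534064) (a (l 13525488) (b (a (l 13521216) (a (l 13519000) (l 13520232))) (a (a (l 13517504) (l 13518896)) (l 13527336)))))) (a (b (l 13527768) (a (l 13520280) (b (a (l 13515664) (c (l 13524592)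 (l 13506536))) (a (c (l 13523744) (l 13505672)) (l 13524328))))) (b (a (b (a (l 13518128) (a (l 13516144) (l 13517704))) (a (c (l 13557040) (l 13507536)) (l 13525568))) (l 13539456)) (l 13551440)))) (b (a (b (a (b (a (l 13524872) (a (l 13522416) (l 13523360))) (a (a (l 13520640) (l 13521720)) (l 13529648))) (l 13543592)) (l 13554336)) (l 13595336)) (l 13618776))) (l 13647216))) (b (a (l 13820528) (l 14045072)) (a (l 13940272) (l 14167592)))), by decide +kernel⟩

def k23_mm_202 : ∃ t, chk3 f_mm_202 t 8 25 1 = true :=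
  ⟨(a (a (b (b (a (a (b (a (b (a (l 13513728) (c (l 13523040) (l 13504952))) (a (c (l 13522480) (l 13504384)) (l 13523648))) (l 13537272)) (l 13550632)) (l 13591160)) (l 13671856)) (l 13673752)) (l 13742176)) (b (l 13839320) (l 13980192))) (b (a (l 14072024) (l 14280712)) (a (l 14194024) (l 14404600)))), by decide +kernel⟩

def k24_mm_202 : ∃ t, chk3 f_mm_202 t 9 12 1 = true :=
  ⟨(b (a (b (a (l 14266920) (l 14464976)) (a (l 14371032) (l 14571448))) (b (a (l 14660104) (l 14852192)) (a (l 14768760) (l 14)))) (a (b (a (l 14486272) (l 14688632)) (a (l 14611848) (l 14))) (l 14))), by decide +kernel⟩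

def k25_mm_202 : ∃ t, chk3 f_mm_202 t 4 13 1 = true :=
  ⟨(a (b (a (b (a (l 13892048) (l 14110960)) (a (l 14031472) (l 14251776))) (b (a (l 14326440) (l 14538448)) (a (l 14468440) (l 14)))) (b (a (a (l 14180584) (l 14401808)) (l 14)) (l 2))) (l 14)), by decide +kernel⟩

def k26_mm_202 : ∃ t, chk3 f_mm_202 t 4 7 1 = true :=
  ⟨(l 2), by decide +kernel⟩

def k27_mm_202 : ∃ t, chk3 f_mm_202 t 5 3 1 = true :=
  ⟨(l 14), by decide +kernel⟩

def k28_mm_202 : ∃ t, chk3 f_mm_202 t 3 3 1 = true :=
  ⟨(l 14), by decide +kernel⟩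

theorem s29_mm_202 : ∃ t, chk3 f_mm_202 t 8 12 1 = true := ex3_b k22_mm_202 k23_mm_202

theorem s30_mm_202 : ∃ t, chk3 f_mm_202 t 4 12 1 = true := ex3_a s29_mm_202 k24_mm_202

theorem s31_mm_202 : ∃ t, chk3 f_mm_202 t 4 6 1 = true := ex3_b s30_mm_202 k25_mm_202

theorem s32_mm_202 : ∃ t, chk3 f_mm_202 t 4 3 1 = true := ex3_b s31_mm_202 k26_mm_202

theorem s33_mm_202 : ∃ t, chk3 f_mm_202 t 2 3 1 = true := ex3_a s32_mm_202 k27_mm_202

theorem s34_mm_202 : ∃ t, chk3 f_mm_202 t 1 3 1 = true := ex3_a s33_mm_202 k28_mm_202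

theorem s35_mm_202 : ∃ t, chk3 f_mm_202 t 34 22 1 = true := ex3_b k15_mm_202 k16_mm_202

theorem s36_mm_202 : ∃ t, chk3 f_mm_202 t 34 11 1 = true := ex3_b s35_mm_202 k17_mm_202

theorem s37_mm_202 : ∃ t, chk3 f_mm_202 t 17 11 1 = true := ex3_a s36_mm_202 k18_mm_202

theorem s38_mm_202 : ∃ t, chk3 f_mm_202 t 33 11 1 = true := ex3_b k13_mm_202 k14_mm_202

theorem s39_mm_202 : ∃ t, chk3 f_mm_202 t 16 11 1 = true := ex3_a k12_mm_202 s38_mm_202

theorem s40_mm_202 : ∃ t, chk3 f_mm_202 t 8 11 1 = true := ex3_a s39_mm_202 s37_mm_202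

theorem s41_mm_202 : ∃ t, chk3 f_mm_202 t 4 11 1 = true := ex3_a s40_mm_202 k19_mm_202

theorem s42_mm_202 : ∃ t, chk3 f_mm_202 t 36 20 1 = true := ex3_a k7_mm_202 k8_mm_202

theorem s43_mm_202 : ∃ t, chk3 f_mm_202 t 18 20 1 = true := ex3_a s42_mm_202 k9_mm_202

theorem s44_mm_202 : ∃ t, chk3 f_mm_202 t 9 20 1 = true := ex3_a s43_mm_202 k10_mm_202

theorem s45_mm_202 : ∃ t, chk3 f_mm_202 t 9 10 1 = true := ex3_b s44_mm_202 k11_mm_202

theorem s46_mm_202 : ∃ t, chk3 f_mm_202 t 35 21 1 = true := ex3_b k5_mm_202 k6_mm_202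

theorem s47_mm_202 : ∃ t, chk3 f_mm_202 t 17 21 1 = true := ex3_a k4_mm_202 s46_mm_202

theorem s48_mm_202 : ∃ t, chk3 f_mm_202 t 8 21 1 = true := ex3_a k3_mm_202 s47_mm_202

theorem s49_mm_202 : ∃ t, chk3 f_mm_202 t 8 10 1 = true := ex3_b k2_mm_202 s48_mm_202

theorem s50_mm_202 : ∃ t, chk3 f_mm_202 t 4 10 1 = true := ex3_a s49_mm_202 s45_mm_202

theorem s51_mm_202 : ∃ t, chk3 f_mm_202 t 4 5 1 = true := ex3_b s50_mm_202 s41_mm_202

theorem s52_mm_202 : ∃ t, chk3 f_mm_202 t 2 5 1 = true := ex3_a s51_mm_202 k20_mm_202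

theorem s53_mm_202 : ∃ t, chk3 f_mm_202 t 2 4 1 = true := ex3_a k0_mm_202 k1_mm_202

theorem s54_mm_202 : ∃ t, chk3 f_mm_202 t 2 2 1 = true := ex3_b s53_mm_202 s52_mm_202

theorem s55_mm_202 : ∃ t, chk3 f_mm_202 t 1 2 1 = true := ex3_a s54_mm_202 k21_mm_202

theorem s56_mm_202 : ∃ t, chk3 f_mm_202 t 1 1 1 = true := ex3_b s55_mm_202 s34_mm_202

theorem c_mm_202 : CertB 0 536870912 0 536870912 1040187392 5207648 3 eng mog cd0q2 cd0q0 pd2 true false false .pp 2 0 2
    ndB0q2 ndB0q0 pcB2 cut_mm_202 Ext.none :=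
  certB0 (fam := true) (s1 := false) (s2 := false) (a := 2) (b := 0) (c := 2) (cn := .pp) (n1 := ndB0q2) (n2 := ndB0q0) (pc := pcB2) (cut := cut_mm_202) (xt := Ext.none) (P1 := 0) (W1 := 536870912) (P2 := 0) (W2 := 536870912) (P3 := 1040187392) (W3 := 5207648) (N0 := 3) (En := eng) (mo := mog) (C1 := cd0q2) (C2 := cd0q0) (C3 := pd2)
    rfl s56_mm_202

noncomputable def cut_mm_203 : Cut := Cut.of [[⟨3, 0, 0, 1449551462⟩], [⟨4, 0, 0, 2845415833⟩]]

noncomputable def f_mm_203 : ℕ → ℕ → ℕ → ℕ → Bool := onCell 0 536870912 1610612736 536870912 1040187392 5207648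
    (rowB 3 eng mog cd0q2 cd0q0 pd3 1 true false false .up 2 0 3 (qsf 0 536870912 0 536870912 3) ndB0q2 ndB0q0 pcB3 cut_mm_203 Ext.none)

def k0_mm_203 : ∃ t, chk3 f_mm_203 t 1 1 1 = true :=
  ⟨(a (b (b (a (a (b (b (l 16434536) (l 14)) (l 14)) (l 14)) (l 14)) (l 14)) (l 2)) (l 14)), by decide +kernel⟩

theorem c_mm_203 : CertB 0 536870912 0 536870912 1040187392 5207648 3 eng mog cd0q2 cd0q0 pd3 true false false .up 2 0 3
    ndB0q2 ndB0q0 pcB3 cut_mm_203 Ext.none :=
  certB1 (fam := true) (s1 := false) (s2 := false) (a := 2) (b := 0) (c := 3) (cn := .up) (n1 := ndB0q2) (n2 := ndB0q0) (pc := pcB3) (cut := cut_mm_203) (xt := Ext.none) (P1 := 0) (W1 := 536870912) (P2 := 0) (W2 := 536870912) (P3 := 1040187392) (W3 := 5207648) (N0 := 3) (En := eng) (mo := mog) (C1 := cd0q2) (C2 := cd0q0) (C3 := pd3)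
    rfl (fun _ => rfl) k0_mm_203

noncomputable def cut_mm_213 : Cut := Cut.of [[⟨3, 0, 0, 1449551462⟩], [⟨4, 0, 0, 2845415833⟩]]

noncomputable def f_mm_213 : ℕ → ℕ → ℕ → ℕ → Bool := onCell 0 536870912 536870912 536870912 1040187392 5207648
    (rowB 3 eng mog cd0q2 cd0q1 pd3 0 true false false .pnn 2 1 3 (qsf 0 536870912 536870912 536870912 3) ndB0q2 ndB0q1 pcB3 cut_mm_213 Ext.none)

def k0_mm_213 : ∃ t, chk3 f_mm_213 t 1 1 1 = true :=
  ⟨(a (l 14) (l 4)), by decide +kernel⟩

theorem c_mm_213 : CertB 0 536870912 536870912 536870912 1040187392 5207648 3 eng mog cd0q2 cd0q1 pd3 true false false .pnn 2 1 3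
    ndB0q2 ndB0q1 pcB3 cut_mm_213 Ext.none :=
  certB0 (fam := true) (s1 := false) (s2 := false) (a := 2) (b := 1) (c := 3) (cn := .pnn) (n1 := ndB0q2) (n2 := ndB0q1) (pc := pcB3) (cut := cut_mm_213) (xt := Ext.none) (P1 := 0) (W1 := 536870912) (P2 := 536870912) (W2 := 536870912) (P3 := 1040187392) (W3 := 5207648) (N0 := 3) (En := eng) (mo := mog) (C1 := cd0q2) (C2 := cd0q1) (C3 := pd3)
    rfl k0_mm_213

end Pool.Agent.Strip051.G.I9688_9736.Tab.C.BA00

namespace Pool.Agent.Strip051.G.I9688_9736.Tab.C.BA01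

open Pool.Agent.Strip051.PB Pool.Agent.Strip051.PB.T
open Pool.Agent.Strip051.G.I9688_9736.Tab

noncomputable def f_pp_001 : ℕ → ℕ → ℕ → ℕ → Bool := onCell 0 536870912 0 536870912 1040187392 5207648
    (rowB 3 eng mog cd0q0 cd1q0 pd1 0 true true true .up 0 0 1 (qsf 0 536870912 0 536870912 1) ndB0q0 ndB1q0 pcB1 Cut.none Ext.none)

def k0_pp_001 : ∃ t, chk3 f_pp_001 t 1 1 1 = true :=
  ⟨(l 4), by decide +kernel⟩

theorem c_pp_001 : CertB 0 536870912 0 536870912 1040187392 5207648 3 eng mog cd0q0 cd1q0 pd1 true true true .up 0 0 1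
    ndB0q0 ndB1q0 pcB1 Cut.none Ext.none :=
  certB0 (fam := true) (s1 := true) (s2 := true) (a := 0) (b := 0) (c := 1) (cn := .up) (n1 := ndB0q0) (n2 := ndB1q0) (pc := pcB1) (cut := Cut.none) (xt := Ext.none) (P1 := 0) (W1 := 536870912) (P2 := 0) (W2 := 536870912) (P3 := 1040187392) (W3 := 5207648) (N0 := 3) (En := eng) (mo := mog) (C1 := cd0q0) (C2 := cd1q0) (C3 := pd1)
    rfl k0_pp_001

noncomputable def f_pp_011 : ℕ → ℕ → ℕ → ℕ → Bool := onCell 0 536870912 536870912 536870912 1040187392 5207648
    (rowB 3 eng mog cd0q0 cd1q1 pd1 0 true true true .pnn 0 1 1 (qsf 0 536870912 536870912 536870912 1) ndB0q0 ndB1q1 pcB1 Cut.none Ext.none)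

def k0_pp_011 : ∃ t, chk3 f_pp_011 t 1 1 1 = true :=
  ⟨(l 4), by decide +kernel⟩

theorem c_pp_011 : CertB 0 536870912 536870912 536870912 1040187392 5207648 3 eng mog cd0q0 cd1q1 pd1 true true true .pnn 0 1 1
    ndB0q0 ndB1q1 pcB1 Cut.none Ext.none :=
  certB0 (fam := true) (s1 := true) (s2 := true) (a := 0) (b := 1) (c := 1) (cn := .pnn) (n1 := ndB0q0) (n2 := ndB1q1) (pc := pcB1) (cut := Cut.none) (xt := Ext.none) (P1 := 0) (W1 := 536870912) (P2 := 536870912) (W2 := 536870912) (P3 := 1040187392) (W3 := 5207648) (N0 := 3) (En := eng) (mo := mog) (C1 := cd0q0) (C2 := cd1q1) (C3 := pd1)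
    rfl k0_pp_011

noncomputable def f_pp_012 : ℕ → ℕ → ℕ → ℕ → Bool := onCell 0 536870912 536870912 536870912 1040187392 5207648
    (rowB 3 eng mog cd0q0 cd1q1 pd2 0 true true true .pnp 0 1 2 (qsf 0 536870912 536870912 536870912 2) ndB0q0 ndB1q1 pcB2 Cut.none Ext.none)

def k0_pp_012 : ∃ t, chk3 f_pp_012 t 1 1 1 = true :=
  ⟨(l 4), by decide +kernel⟩

theorem c_pp_012 : CertB 0 536870912 536870912 536870912 1040187392 5207648 3 eng mog cd0q0 cd1q1 pd2 true true true .pnp 0 1 2
    ndB0q0 ndB1q1 pcB2 Cut.none Ext.none :=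
  certB0 (fam := true) (s1 := true) (s2 := true) (a := 0) (b := 1) (c := 2) (cn := .pnp) (n1 := ndB0q0) (n2 := ndB1q1) (pc := pcB2) (cut := Cut.none) (xt := Ext.none) (P1 := 0) (W1 := 536870912) (P2 := 536870912) (W2 := 536870912) (P3 := 1040187392) (W3 := 5207648) (N0 := 3) (En := eng) (mo := mog) (C1 := cd0q0) (C2 := cd1q1) (C3 := pd2)
    rfl k0_pp_012

noncomputable def cut_pp_022_a : Cut := Cut.of [[⟨0, 0, 0, 26843545⟩, ⟨1, 1, 0, 26843545⟩, ⟨2, 1, 0, 26843545⟩]]

noncomputable def f_pp_022_a : ℕ → ℕ → ℕ → ℕ → Bool := onCell 0 536870912 0 536870912 1040187392 5207648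
    (rowB 3 eng mog cd0q0 cd1q2a pd2 0 true true true .pp 0 2 2 (qsf 0 536870912 0 536870912 2) ndB0q0 ndB1q2a pcB2 cut_pp_022_a Ext.none)

def k0_pp_022_a : ∃ t, chk3 f_pp_022_a t 4 2 1 = true :=
  ⟨(a (b (a (b (b (a (b (l 15061216) (l 15082136)) (b (b (l 14873408) (l 14893520)) (l 14949816))) (a (l 15189640) (l 15068640))) (a (b (l 15338336) (l 15491112)) (b (l 15230720) (l 15395192)))) (b (a (b (l 14794008) (l 14965832)) (b (l 14704184) (l 14889504))) (a (b (l 15140920) (l 15317080)) (b (l 15077048) (l 15264432))))) (b (a (a (b (l 15645672) (l 15800104)) (b (l 15559784) (l 15722760))) (a (b (l 15492000) (l 15663192)) (b (l 15449464) (l 15630080)))) (a (a (b (l 15952712) (l 16101944)) (b (l 15881808) (l 16036688))) (a (b (l 15829576) (l 15989600)) (b (l 15804320) (l 15906864)))))) (b (a (b (a (b (l 14647176) (l 14845696)) (b (l 14616160) (l 14827272))) (a (b (l 15045176) (l 15243360)) (b (l 15038136) (l 15246624)))) (b (a (b (l 14599936) (l 14822976)) (b (l 14593968) (l 14828272))) (a (b (l 15044600)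 (l 15262776)) (b (l 15059984) (l 15287216))))) (a (b (a (b (l 15438160) (l 15627616)) (b (l 15450752) (l 15648688))) (a (b (l 15809872) (a (l 15977096) (l 15990968))) (b (l 15838656) (b (l 15974888) (l 16062336))))) (b (a (b (l 15475664) (l 15681520)) (b (l 15508224) (l 15721376))) (a (b (l 15878680) (l 16002600)) (b (l 15925096) (l 16013000))))))), by decide +kernel⟩

def k1_pp_022_a : ∃ t, chk3 f_pp_022_a t 4 6 1 = true :=
  ⟨(a (a (b (a (b (l 16225248) (b (l 16349832) (l 16417432))) (b (l 16185832) (b (l 16292936) (l 16361952)))) (a (b (a (l 16461680) (l 16457096)) (a (l 16564136) (l 16527896))) (b (b (l 16428648) (l 16492728)) (b (l 16491496) (l 16547960))))) (b (a (b (l 16099768) (b (l 16251040) (l 16321416))) (b (b (l 16088128) (l 16163848)) (b (l 16237544) (l 16307712)))) (b (a (b (l 16389512) (l 16455128)) (b (l 16376328) (l 16442504))) (a (b (l 16497024) (l 16535816)) (b (l 16485104) (a (l 16566888) (l 16568992))))))) (a (b (a (b (a (l 16137928) (l 16155112)) (a (l 16286408) (l 16306048)))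 (b (b (l 16146840) (l 16228184)) (b (l 16306152) (l 16380528)))) (a (b (a (b (l 16390040) (l 16456096)) (b (l 16410936) (l 16476552))) (a (b (l 16519608) (l 16580440)) (b (l 16539728) (l 16600288)))) (b (a (b (l 16436528) (l 16502792)) (l 16436928)) (b (a (l 16565784) (l 16595760)) (a (l 16625272) (l 16634296)))))) (b (b (a (b (l 16197968) (l 16282168)) (b (l 16254432) (l 16341176))) (a (b (l 16362872) (l 16439864)) (b (l 16424312) (l 16503624)))) (b (a (b (l 16491968) (l 16518960)) (b (l 16536960) (l 16587024))) (a (b (l 16562544) (a (a (l 16658928) (l 16697312)) (l 16680648))) (b (a (l 16677824) (l 16677216)) (a (b (l 16715896) (l 16714896)) (l 143579256679)))))))), by decide +kernel⟩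

def k2_pp_022_a : ∃ t, chk3 f_pp_022_a t 8 14 1 = true :=
  ⟨(a (b (a (b (a (l 16588160) (l 16616768)) (a (l 16586960) (l 16612008))) (b (a (l 16646464) (l 16654408)) (a (l 16637640) (l 16664440)))) (a (b (a (l 16594640) (l 16616592)) (a (b (l 16606376) (l 16617112)) (b (l 16626200) (l 16635768)))) (b (a (l 16638528) (l 16640096)) (a (b (l 16645736) (l 16653808)) (b (l 16665360) (l 16671656)))))) (b (a (b (a (l 16640480) (l 16629272)) (a (l 16669112) (l 16682240))) (b (a (l 16624280) (l 16626792)) (a (l 16677992) (l 16660200)))) (a (a (b (l 16662056) (b (l 16683936) (l 16688128))) (b (l 16682832) (b (l 16700224) (l 16701984)))) (b (a (l 16689328) (b (l 16719408) (l 16729280))) (a (b (l 16693296) (a (l 16710448) (l 16715264))) (b (a (l 16721888) (l 16725952)) (a (l 161296025607) (l 175791551735)))))))), by decide +kernel⟩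

def k3_pp_022_a : ∃ t, chk3 f_pp_022_a t 8 15 1 = true :=
  ⟨(a (b (a (b (a (b (a (l 16625552) (l 16634672)) (a (l 16640760) (l 16649808))) (b (l 16647768) (a (l 16658248) (l 16666144)))) (a (a (b (l 16657864) (b (l 16671760) (l 16681576))) (b (l 16666944) (l 16664872))) (b (a (l 16675200) (l 16682880)) (a (b (l 16689304) (l 16699264)) (b (l 16696864) (l 16706872)))))) (b (a (b (l 16664424) (a (l 16673888) (l 16681456))) (b (l 16680696) (a (l 16688920) (l 16695992)))) (a (b (a (l 16690032) (l 16697016)) (a (b (l 16703800) (l 16713792)) (b (l 16710384) (l 16720144)))) (b (a (l 16703808) (l 16710176)) (a (b (l 16716736) (l 16726120)) (b (l 16722440) (l 146800531639))))))) (a (b (a (b (a (l 6) (b (l 16701160) (l 16711936))) (l 6)) (b (a (b (l 16709680) (l 16720544)) (b (l 16717408) (l 16728360))) (a (b (a (l 6) (l 16733904)) (l 6)) (b (a (l 16737856) (l 16741608)) (a (b (l 16746688) (l 16752624)) (b (l 16750288) (l 144116233495))))))) (a (l 6) (a (l 6) (a (l 6) (l 4))))) (b (a (b (a (b (l 16724320)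 (l 16724888)) (b (l 16730568) (a (l 89355362327) (l 144116201703)))) (a (a (b (l 35131409735) (l 138747509719)) (b (b (l 16745144) (l 16749640)) (l 4))) (b (l 166664786663) (l 4)))) (b (a (b (a (l 16734392) (l 171496609399)) (l 4)) (l 4)) (l 4))) (l 4)))) (b (a (b (a (b (l 16695208) (a (l 16702320) (l 16707840))) (b (a (l 16704136) (l 16709152)) (a (l 145189878327) (l 172033432759)))) (a (b (a (b (l 16712056) (l 16719288)) (l 145189889655)) (a (b (l 169349104167) (l 4)) (l 4))) (b (a (l 185992109223) (l 4)) (l 4)))) (b (a (b (a (l 167201590743) (l 168275341959)) (l 4)) (l 4)) (l 4))) (l 4))), by decide +kernel⟩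

def k4_pp_022_a : ∃ t, chk3 f_pp_022_a t 9 7 1 = true :=
  ⟨(b (a (b (a (b (a (l 16638384) (l 16637120)) (a (l 16651192) (l 16660472))) (b (a (l 16640632) (b (l 16697472) (l 16703576))) (a (b (l 16723640) (l 93650307895)) (b (l 95260915479) (l 4))))) (a (b (a (b (l 16731872) (a (l 16732048) (l 16732232))) (b (l 104387727431) (l 181160273239))) (a (b (a (l 192971429767) (l 4)) (l 4)) (l 4))) (b (a (b (l 146263700119) (l 4)) (l 4)) (l 4)))) (b (a (b (a (b (l 16708384) (l 16728120)) (b (l 16720568) (l 4))) (l 4)) (l 4)) (l 4))) (l 4)), by decide +kernel⟩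

def k5_pp_022_a : ∃ t, chk3 f_pp_022_a t 5 2 1 = true :=
  ⟨(b (a (b (a (a (b (l 14599984) (l 14844888)) (b (l 14621824) (l 14876656))) (b (a (l 14658712) (l 14709936)) (a (l 14922808) (l 14982632)))) (a (a (b (l 15086040) (l 15321696)) (b (l 15126632) (l 15370120))) (b (a (l 15180984) (l 15248368)) (a (l 15431728) (l 15505776))))) (b (a (a (b (l 14774760) (l 15055368)) (b (l 14852432) (l 15140280))) (a (b (l 14942200) (l 15236616)) (b (l 15043312) (l 15343600)))) (a (b (a (l 15328040) (l 15419264)) (a (l 15591520) (l 15688224))) (b (a (l 15521264) (l 15633280)) (a (l 15795120) (l 15911440)))))) (a (b (a (b (a (l 15550216) (l 15605608)) (a (l 15770072) (l 15831672))) (b (a (l 15673632) (l 15753560)) (a (l 15905392) (l 15990496)))) (a (b (a (l 15979792) (l 16046912)) (a (l 16135976) (l 16124144))) (b (a (l 16062776) (l 16089536)) (a (b (l 16282848) (l 16383208)) (b (l 16375632) (l 16477848)))))) (b (a (b (a (l 15844632) (l 15946112)) (a (l 16086240) (l 16066040))) (b (a (l 16036256) (l 16030408))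 (a (l 16096880) (b (l 16368232) (l 16490872))))) (a (b (a (b (l 16259512) (l 16370624)) (b (l 16367904) (l 16480632))) (a (a (l 16419600) (l 16452536)) (b (l 16526672) (a (l 16644608) (b (l 16697632) (l 16705664)))))) (b (a (b (l 16484952) (l 16515024)) (b (l 16525768) (a (l 16626360) (l 69490977495)))) (a (b (a (l 16635496) (b (l 16710112) (l 16702592))) (a (l 70027873335) (l 4))) (b (a (l 16681440) (l 4)) (l 4)))))))), by decide +kernel⟩

def k6_pp_022_a : ∃ t, chk3 f_pp_022_a t 5 3 1 = true :=
  ⟨(b (a (b (a (b (a (b (l 16318200) (l 16407224)) (b (l 16393640) (l 16484736))) (a (b (l 16492512) (l 16531920)) (b (l 16530024) (l 16571232)))) (b (a (b (l 16479944) (l 16530928)) (b (l 16513384) (a (l 16603456) (l 16652888)))) (a (b (l 16556704) (a (l 16654456) (l 57142988279))) (b (a (b (l 16712200) (l 16703040)) (l 61437962663)) (l 4))))) (a (b (a (b (l 16588144) (a (l 16682976) (l 48553062695))) (b (a (l 16668248) (l 52848020775)) (a (l 16707776) (l 4)))) (a (b (a (l 69491053639) (l 4)) (l 4)) (l 4)))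 (b (a (b (a (l 16705392) (l 4)) (l 4)) (l 4)) (l 4)))) (b (a (b (a (b (a (l 16633584) (l 16641672)) (a (b (l 16692424) (l 16699984)) (l 16700992))) (b (a (l 67880379383) (l 16701176)) (l 4))) (l 4)) (l 4)) (l 4))) (l 4)), by decide +kernel⟩

def k7_pp_022_a : ∃ t, chk3 f_pp_022_a t 3 1 1 = true :=
  ⟨(b (b (a (a (b (a (a (b (l 15154976) (l 15460464)) (b (l 15276416) (l 15586424))) (b (a (l 15406848) (b (l 15464752) (l 15626528))) (a (b (l 15643944) (l 15797680)) (b (l 15785016) (l 15940136))))) (a (b (a (l 15754536) (l 15779392)) (a (l 15910576) (b (l 16099704) (l 16238840)))) (b (a (b (l 15948152) (l 16095296)) (b (l 16091840) (l 16240048))) (a (b (l 16239016) (l 16379200)) (a (l 16334000) (l 16366392)))))) (a (b (b (a (b (l 15610048) (l 15773224)) (b (l 15762072) (l 15926280))) (a (b (l 15932928) (l 16089104)) (b (l 16086856) (l 16243736)))) (b (a (a (l 16235920) (l 16249448)) (a (l 16306144) (l 16342936))) (a (b (l 16430784) (a (l 16575192) (b (l 16679712) (l 16668456)))) (b (a (l 16588424) (b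 (l 16672520) (l 93650219735))) (a (b (l 16667744) (l 16716224)) (l 4)))))) (a (a (b (b (l 15962064) (l 16137248)) (b (b (l 16516008) (l 16559024)) (b (b (l 97945192263) (l 4)) (l 4)))) (b (l 2) (b (l 2) (l 4)))) (l 2)))) (l 2)) (a (a (b (a (b (a (b (l 16239752) (l 16370744)) (b (l 16374488) (l 16464528))) (a (a (l 16421776) (l 16446576)) (b (l 16487008) (a (b (l 16692520) (l 16692112)) (l 77007190759))))) (b (a (b (l 16452744) (a (l 16591096) (l 16618352))) (b (a (l 16582976) (b (l 16665496) (l 16703208))) (a (b (l 16697504) (l 16711248)) (l 16691400)))) (a (b (a (b (l 16706104) (l 16711288)) (l 83449662071)) (l 4)) (l 4)))) (a (b (a (b (a (l 16637880) (l 71101596247)) (l 74859755335)) (b (l 4) (l 4))) (l 4)) (l 4))) (b (a (b (a (b (a (b (l 16687608) (l 16712928)) (l 16715264)) (l 4)) (l 4)) (l 4)) (l 4)) (l 4))) (l 4))) (l 4)), by decide +kernel⟩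

theorem s8_pp_022_a : ∃ t, chk3 f_pp_022_a t 5 1 1 = true := ex3_b k5_pp_022_a k6_pp_022_a

theorem s9_pp_022_a : ∃ t, chk3 f_pp_022_a t 8 7 1 = true := ex3_b k2_pp_022_a k3_pp_022_a

theorem s10_pp_022_a : ∃ t, chk3 f_pp_022_a t 4 7 1 = true := ex3_a s9_pp_022_a k4_pp_022_a

theorem s11_pp_022_a : ∃ t, chk3 f_pp_022_a t 4 3 1 = true := ex3_b k1_pp_022_a s10_pp_022_a

theorem s12_pp_022_a : ∃ t, chk3 f_pp_022_a t 4 1 1 = true := ex3_b k0_pp_022_a s11_pp_022_a

theorem s13_pp_022_a : ∃ t, chk3 f_pp_022_a t 2 1 1 = true := ex3_a s12_pp_022_a s8_pp_022_a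

theorem s14_pp_022_a : ∃ t, chk3 f_pp_022_a t 1 1 1 = true := ex3_a s13_pp_022_a k7_pp_022_a

theorem c_pp_022_a : CertB 0 536870912 0 536870912 1040187392 5207648 3 eng mog cd0q0 cd1q2a pd2 true true true .pp 0 2 2
    ndB0q0 ndB1q2a pcB2 cut_pp_022_a Ext.none :=
  certB0 (fam := true) (s1 := true) (s2 := true) (a := 0) (b := 2) (c := 2) (cn := .pp) (n1 := ndB0q0) (n2 := ndB1q2a) (pc := pcB2) (cut := cut_pp_022_a) (xt := Ext.none) (P1 := 0) (W1 := 536870912) (P2 := 0) (W2 := 536870912) (P3 := 1040187392) (W3 := 5207648) (N0 := 3) (En := eng) (mo := mog) (C1 := cd0q0) (C2 := cd1q2a) (C3 := pd2)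
    rfl s14_pp_022_a

noncomputable def cut_pp_022_b : Cut := Cut.of [[⟨0, 0, 0, 26843545⟩, ⟨1, 1, 0, 26843545⟩, ⟨2, 1, 0, 26843545⟩]]

noncomputable def f_pp_022_b : ℕ → ℕ → ℕ → ℕ → Bool := onCell 0 536870912 1073741824 536870912 1040187392 5207648
    (rowB 3 eng mog cd0q0 cd1q2b pd2 1 true true true .pp 0 2 2 (qsf 0 536870912 1239849684 370763052 2) ndB0q0 ndB1q2b pcB2 cut_pp_022_b Ext.none)

def k0_pp_022_b : ∃ t, chk3 f_pp_022_b t 1 2 1 = true :=
  ⟨(a (a (b (l 1) (a (b (a (a (b (l 464424282663) (l 14951176)) (b (l 1) (b (l 15046304) (l 14850792)))) (b (l 1) (a (l 360270388567) (l 1)))) (a (b (a (l 14651792) (l 14651544)) (a (l 14483264) (l 14491344))) (b (a (l 14638368) (l 272759703831)) (a (l 14493528) (b (l 14528472) (l 14471736)))))) (b (l 1) (a (b (a (a (l 279202166055) (l 1)) (l 1)) (a (b (l 183102233623) (l 14486544)) (b (l 295845144407) (l 206187575223)))) (b (l 1) (a (b (l 1) (l 320004231495)) (l 1))))))) (l 1)) (l 1)), by decide +kernel⟩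

def k1_pp_022_b : ∃ t, chk3 f_pp_022_b t 2 3 1 = true :=
  ⟨(a (b (a (b (a (b (a (l 14392392) (l 14405544)) (a (l 14371976) (l 14390360))) (b (a (l 14412800) (l 14421448)) (a (l 14402864) (l 14415848)))) (a (b (l 14429712) (l 14539288)) (b (a (l 14459352) (l 14476848)) (l 14587440)))) (b (a (b (a (b (l 14449528) (l 14430584)) (b (l 14470000) (l 14451808))) (a (l 14435232) (l 14457704))) (b (a (b (l 14485608) (l 14468192)) (b (l 342015853047) (l 320540966071))) (a (b (l 14468448) (l 14485808)) (b (l 14476832) (l 14495344))))) (a (b (a (l 14499120) (l 14523440)) (l 14636296)) (b (a (l 14543008) (l 14554384)) (l 14679824))))) (a (b (a (b (l 14704536) (l 14919080)) (b (l 14763768) (l 14989640))) (b (l 15174648) (l 15490800))) (b (a (b (l 14819448) (l 15052416)) (b (l 14867560) (l 15105480))) (a (b (l 15327848) (l 15636696)) (b (l 15386192) (l 15700672)))))) (b (b (a (b (a (b (l 1) (a (l 440799968999) (l 1))) (l 1)) (a (b (a (l 338257676135) (l 446705548727)) (a (l 14497488) (l 405366558039))) (b (l 1)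 (a (l 473549125783) (l 1))))) (l 1)) (a (b (a (b (l 14533808) (l 14586944)) (b (a (l 409661573959) (l 496097765911)) (a (l 14584704) (l 412346007671)))) (a (l 14674632) (a (l 14675592) (l 14670712)))) (b (a (b (l 1) (l 500392808903)) (l 1)) (a (b (a (l 14640040) (l 498782329495)) (a (l 14728016) (l 14715344))) (b (l 1) (l 503077419511)))))) (b (a (b (a (l 14889616) (l 14893960)) (a (l 15134312) (l 15145200))) (b (a (b (l 14824448) (l 14940656)) (b (a (l 14803024) (l 503077609943)) (l 246453386103))) (a (l 15138672) (b (l 15043488) (l 15187024))))) (b (a (l 15430984) (a (l 15440728) (l 15422904))) (a (l 15757392) (l 15668640)))))), by decide +kernel⟩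

def k2_pp_022_b : ∃ t, chk3 f_pp_022_b t 3 3 1 = true :=
  ⟨(b (l 1) (a (b (a (b (a (b (l 1) (l 542269349911)) (l 1)) (a (b (a (l 14970552) (l 473013244231)) (l 252896246759)) (b (l 1) (l 507373180231)))) (l 1)) (a (b (a (b (l 15303152) (l 15470904)) (b (a (l 15241240) (l 482140535063)) (l 259876065783))) (a (l 15718584) (b (l 15596840) (l 15785424)))) (b (a (b (l 1) (a (l 485362029271) (l 1))) (l 1)) (a (b (a (l 252897031607) (l 488583538727)) (a (l 15737464) (l 256655414519))) (b (l 1) (a (l 492341932743) (l 1))))))) (l 1))), by decide +kernel⟩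

theorem s3_pp_022_b : ∃ t, chk3 f_pp_022_b t 1 3 1 = true := ex3_a k1_pp_022_b k2_pp_022_b

theorem s4_pp_022_b : ∃ t, chk3 f_pp_022_b t 1 1 1 = true := ex3_b k0_pp_022_b s3_pp_022_b

theorem c_pp_022_b : CertB 0 536870912 1239849684 370763052 1040187392 5207648 3 eng mog cd0q0 cd1q2b pd2 true true true .pp 0 2 2
    ndB0q0 ndB1q2b pcB2 cut_pp_022_b Ext.none :=
  certB1 (fam := true) (s1 := true) (s2 := true) (a := 0) (b := 2) (c := 2) (cn := .pp) (n1 := ndB0q0) (n2 := ndB1q2b) (pc := pcB2) (cut := cut_pp_022_b) (xt := Ext.none) (P1 := 0) (W1 := 536870912) (P2 := 1239849684) (W2 := 370763052) (P3 := 1040187392) (W3 := 5207648) (N0 := 3) (En := eng) (mo := mog) (C1 := cd0q0) (C2 := cd1q2b) (C3 := pd2)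
    rfl (fun _ => rfl) s4_pp_022_b

noncomputable def f_pp_023_a : ℕ → ℕ → ℕ → ℕ → Bool := onCell 1610612736 536870912 0 536870912 1040187392 5207648
    (rowB 3 eng mog cd0q0 cd1q2a pd3 2 true true true .up 0 2 3 (qsf 0 536870912 0 536870912 3) ndB0q0 ndB1q2a pcB3 Cut.none Ext.none)

def k0_pp_023_a : ∃ t, chk3 f_pp_023_a t 1 1 1 = true :=
  ⟨(b (a (b (a (a (a (b (a (l 16613928) (l 16604152)) (b (a (b (l 16696408) (l 93650237895)) (b (l 90429024087) (l 4))) (l 4))) (b (a (b (l 16674728) (b (l 16708224) (l 90965906967))) (b (l 16683232) (b (l 91502791031) (l 4)))) (b (l 4) (l 4)))) (b (a (b (a (a (l 16703256) (l 63585509463)) (a (l 73249213223) (l 103314019911))) (l 4)) (l 4)) (l 4))) (l 4)) (l 4)) (l 2)) (l 4)), by decide +kernel⟩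

theorem c_pp_023_a : CertB 0 536870912 0 536870912 1040187392 5207648 3 eng mog cd0q0 cd1q2a pd3 true true true .up 0 2 3
    ndB0q0 ndB1q2a pcB3 Cut.none Ext.none :=
  certB2 (fam := true) (s1 := true) (s2 := true) (a := 0) (b := 2) (c := 3) (cn := .up) (n1 := ndB0q0) (n2 := ndB1q2a) (pc := pcB3) (cut := Cut.none) (xt := Ext.none) (P1 := 0) (W1 := 536870912) (P2 := 0) (W2 := 536870912) (P3 := 1040187392) (W3 := 5207648) (N0 := 3) (En := eng) (mo := mog) (C1 := cd0q0) (C2 := cd1q2a) (C3 := pd3)
    rfl (fun _ => rfl) k0_pp_023_a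

noncomputable def f_pp_023_b : ℕ → ℕ → ℕ → ℕ → Bool := onCell 1610612736 536870912 1239849684 370763052 1040187392 5207648
    (rowB 3 eng mog cd0q0 cd1q2b pd3 2 true true true .up 0 2 3 (qsf 0 536870912 1239849684 370763052 3) ndB0q0 ndB1q2b pcB3 Cut.none Ext.none)

def k0_pp_023_b : ∃ t, chk3 f_pp_023_b t 1 1 1 = true :=
  ⟨(a (a (a (b (b (a (b (b (l 16554744) (l 16515960)) (l 16420664)) (b (b (a (l 16624736) (l 16655232)) (l 16582600)) (l 16491120))) (a (l 16168392) (l 16097232))) (b (a (b (l 15976296) (l 15798872)) (l 15974560)) (b (a (b (l 15707112) (l 15614696)) (l 15716040)) (a (b (l 15507336) (l 15389472)) (b (l 15611464) (l 15524952)))))) (b (b (a (b (a (b (l 16663344) (l 16628232)) (b (a (l 16684216) (l 87744632567)) (l 16648488))) (l 59826821767)) (b (l 4) (l 4))) (a (l 61436808503) (l 4))) (l 4))) (l 4)) (l 4)), by decide +kernel⟩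

theorem c_pp_023_b : CertB 0 536870912 1239849684 370763052 1040187392 5207648 3 eng mog cd0q0 cd1q2b pd3 true true true .up 0 2 3
    ndB0q0 ndB1q2b pcB3 Cut.none Ext.none :=
  certB2 (fam := true) (s1 := true) (s2 := true) (a := 0) (b := 2) (c := 3) (cn := .up) (n1 := ndB0q0) (n2 := ndB1q2b) (pc := pcB3) (cut := Cut.none) (xt := Ext.none) (P1 := 0) (W1 := 536870912) (P2 := 1239849684) (W2 := 370763052) (P3 := 1040187392) (W3 := 5207648) (N0 := 3) (En := eng) (mo := mog) (C1 := cd0q0) (C2 := cd1q2b) (C3 := pd3)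
    rfl (fun _ => rfl) k0_pp_023_b

noncomputable def f_pp_033 : ℕ → ℕ → ℕ → ℕ → Bool := onCell 0 536870912 1610612736 536870912 1040187392 5207648
    (rowB 3 eng mog cd0q0 cd1q3 pd3 0 true true true .pnn 0 3 3 (qsf 0 536870912 1610612736 536870912 3) ndB0q0 ndB1q3 pcB3 Cut.none Ext.none)

def k0_pp_033 : ∃ t, chk3 f_pp_033 t 1 1 1 = true :=
  ⟨(a (b (a (b (a (b (a (b (l 15004888) (l 14964208)) (b (l 15181744) (l 4))) (l 4)) (l 4)) (l 4)) (l 4)) (l 4)) (l 4)), by decide +kernel⟩

theorem c_pp_033 : CertB 0 536870912 1610612736 536870912 1040187392 5207648 3 eng mog cd0q0 cd1q3 pd3 true true true .pnn 0 3 3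
    ndB0q0 ndB1q3 pcB3 Cut.none Ext.none :=
  certB0 (fam := true) (s1 := true) (s2 := true) (a := 0) (b := 3) (c := 3) (cn := .pnn) (n1 := ndB0q0) (n2 := ndB1q3) (pc := pcB3) (cut := Cut.none) (xt := Ext.none) (P1 := 0) (W1 := 536870912) (P2 := 1610612736) (W2 := 536870912) (P3 := 1040187392) (W3 := 5207648) (N0 := 3) (En := eng) (mo := mog) (C1 := cd0q0) (C2 := cd1q3) (C3 := pd3)
    rfl k0_pp_033

noncomputable def f_pp_101 : ℕ → ℕ → ℕ → ℕ → Bool := onCell 536870912 536870912 0 536870912 1040187392 5207648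
    (rowB 3 eng mog cd0q1 cd1q0 pd1 0 true true true .npn 1 0 1 (qsf 536870912 536870912 0 536870912 1) ndB0q1 ndB1q0 pcB1 Cut.none Ext.none)

def k0_pp_101 : ∃ t, chk3 f_pp_101 t 1 1 1 = true :=
  ⟨(l 5), by decide +kernel⟩

theorem c_pp_101 : CertB 536870912 536870912 0 536870912 1040187392 5207648 3 eng mog cd0q1 cd1q0 pd1 true true true .npn 1 0 1
    ndB0q1 ndB1q0 pcB1 Cut.none Ext.none :=
  certB0 (fam := true) (s1 := true) (s2 := true) (a := 1) (b := 0) (c := 1) (cn := .npn) (n1 := ndB0q1) (n2 := ndB1q0) (pc := pcB1) (cut := Cut.none) (xt := Ext.none) (P1 := 536870912) (W1 := 536870912) (P2 := 0) (W2 := 536870912) (P3 := 1040187392) (W3 := 5207648) (N0 := 3) (En := eng) (mo := mog) (C1 := cd0q1) (C2 := cd1q0) (C3 := pd1)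
    rfl k0_pp_101

noncomputable def f_pp_102 : ℕ → ℕ → ℕ → ℕ → Bool := onCell 536870912 536870912 0 536870912 1040187392 5207648
    (rowB 3 eng mog cd0q1 cd1q0 pd2 0 true true true .npp 1 0 2 (qsf 536870912 536870912 0 536870912 2) ndB0q1 ndB1q0 pcB2 Cut.none Ext.none)

def k0_pp_102 : ∃ t, chk3 f_pp_102 t 1 1 1 = true :=
  ⟨(l 5), by decide +kernel⟩

theorem c_pp_102 : CertB 536870912 536870912 0 536870912 1040187392 5207648 3 eng mog cd0q1 cd1q0 pd2 true true true .npp 1 0 2
    ndB0q1 ndB1q0 pcB2 Cut.none Ext.none :=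
  certB0 (fam := true) (s1 := true) (s2 := true) (a := 1) (b := 0) (c := 2) (cn := .npp) (n1 := ndB0q1) (n2 := ndB1q0) (pc := pcB2) (cut := Cut.none) (xt := Ext.none) (P1 := 536870912) (W1 := 536870912) (P2 := 0) (W2 := 536870912) (P3 := 1040187392) (W3 := 5207648) (N0 := 3) (En := eng) (mo := mog) (C1 := cd0q1) (C2 := cd1q0) (C3 := pd2)
    rfl k0_pp_102

noncomputable def f_pp_112 : ℕ → ℕ → ℕ → ℕ → Bool := onCell 536870912 536870912 536870912 536870912 1040187392 5207648
    (rowB 3 eng mog cd0q1 cd1q1 pd2 0 true true true .dn 1 1 2 (qsf 536870912 536870912 536870912 536870912 2) ndB0q1 ndB1q1 pcB2 Cut.none Ext.none)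

def k0_pp_112 : ∃ t, chk3 f_pp_112 t 1 1 1 = true :=
  ⟨(l 4), by decide +kernel⟩

theorem c_pp_112 : CertB 536870912 536870912 536870912 536870912 1040187392 5207648 3 eng mog cd0q1 cd1q1 pd2 true true true .dn 1 1 2
    ndB0q1 ndB1q1 pcB2 Cut.none Ext.none :=
  certB0 (fam := true) (s1 := true) (s2 := true) (a := 1) (b := 1) (c := 2) (cn := .dn) (n1 := ndB0q1) (n2 := ndB1q1) (pc := pcB2) (cut := Cut.none) (xt := Ext.none) (P1 := 536870912) (W1 := 536870912) (P2 := 536870912) (W2 := 536870912) (P3 := 1040187392) (W3 := 5207648) (N0 := 3) (En := eng) (mo := mog) (C1 := cd0q1) (C2 := cd1q1) (C3 := pd2)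
    rfl k0_pp_112

noncomputable def f_pp_113 : ℕ → ℕ → ℕ → ℕ → Bool := onCell 536870912 536870912 536870912 536870912 1040187392 5207648
    (rowB 3 eng mog cd0q1 cd1q1 pd3 0 true true true .nn 1 1 3 (qsf 536870912 536870912 536870912 536870912 3) ndB0q1 ndB1q1 pcB3 Cut.none Ext.none)

def k0_pp_113 : ∃ t, chk3 f_pp_113 t 1 1 1 = true :=
  ⟨(l 4), by decide +kernel⟩

theorem c_pp_113 : CertB 536870912 536870912 536870912 536870912 1040187392 5207648 3 eng mog cd0q1 cd1q1 pd3 true true true .nn 1 1 3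
    ndB0q1 ndB1q1 pcB3 Cut.none Ext.none :=
  certB0 (fam := true) (s1 := true) (s2 := true) (a := 1) (b := 1) (c := 3) (cn := .nn) (n1 := ndB0q1) (n2 := ndB1q1) (pc := pcB3) (cut := Cut.none) (xt := Ext.none) (P1 := 536870912) (W1 := 536870912) (P2 := 536870912) (W2 := 536870912) (P3 := 1040187392) (W3 := 5207648) (N0 := 3) (En := eng) (mo := mog) (C1 := cd0q1) (C2 := cd1q1) (C3 := pd3)
    rfl k0_pp_113

noncomputable def f_pp_123_a : ℕ → ℕ → ℕ → ℕ → Bool := onCell 536870912 536870912 0 536870912 1040187392 5207648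
    (rowB 3 eng mog cd0q1 cd1q2a pd3 0 true true true .npn 1 2 3 (qsf 536870912 536870912 0 536870912 3) ndB0q1 ndB1q2a pcB3 Cut.none Ext.none)

def k0_pp_123_a : ∃ t, chk3 f_pp_123_a t 1 1 1 = true :=
  ⟨(a (l 4) (l 4)), by decide +kernel⟩

theorem c_pp_123_a : CertB 536870912 536870912 0 536870912 1040187392 5207648 3 eng mog cd0q1 cd1q2a pd3 true true true .npn 1 2 3
    ndB0q1 ndB1q2a pcB3 Cut.none Ext.none :=
  certB0 (fam := true) (s1 := true) (s2 := true) (a := 1) (b := 2) (c := 3) (cn := .npn) (n1 := ndB0q1) (n2 := ndB1q2a) (pc := pcB3) (cut := Cut.none) (xt := Ext.none) (P1 := 536870912) (W1 := 536870912) (P2 := 0) (W2 := 536870912) (P3 := 1040187392) (W3 := 5207648) (N0 := 3) (En := eng) (mo := mog) (C1 := cd0q1) (C2 := cd1q2a) (C3 := pd3)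
    rfl k0_pp_123_a

noncomputable def f_pp_123_b : ℕ → ℕ → ℕ → ℕ → Bool := onCell 536870912 536870912 1239849684 370763052 1040187392 5207648
    (rowB 3 eng mog cd0q1 cd1q2b pd3 0 true true true .npn 1 2 3 (qsf 536870912 536870912 1239849684 370763052 3) ndB0q1 ndB1q2b pcB3 Cut.none Ext.none)

def k0_pp_123_b : ∃ t, chk3 f_pp_123_b t 1 1 1 = true :=
  ⟨(a (l 4) (l 4)), by decide +kernel⟩

theorem c_pp_123_b : CertB 536870912 536870912 1239849684 370763052 1040187392 5207648 3 eng mog cd0q1 cd1q2b pd3 true true true .npn 1 2 3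
    ndB0q1 ndB1q2b pcB3 Cut.none Ext.none :=
  certB0 (fam := true) (s1 := true) (s2 := true) (a := 1) (b := 2) (c := 3) (cn := .npn) (n1 := ndB0q1) (n2 := ndB1q2b) (pc := pcB3) (cut := Cut.none) (xt := Ext.none) (P1 := 536870912) (W1 := 536870912) (P2 := 1239849684) (W2 := 370763052) (P3 := 1040187392) (W3 := 5207648) (N0 := 3) (En := eng) (mo := mog) (C1 := cd0q1) (C2 := cd1q2b) (C3 := pd3)
    rfl k0_pp_123_b

noncomputable def f_pp_133 : ℕ → ℕ → ℕ → ℕ → Bool := onCell 536870912 536870912 1610612736 536870912 1040187392 5207648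
    (rowB 3 eng mog cd0q1 cd1q3 pd3 0 true true true .dn 1 3 3 (qsf 536870912 536870912 1610612736 536870912 3) ndB0q1 ndB1q3 pcB3 Cut.none Ext.none)

def k0_pp_133 : ∃ t, chk3 f_pp_133 t 1 1 1 = true :=
  ⟨(l 4), by decide +kernel⟩

theorem c_pp_133 : CertB 536870912 536870912 1610612736 536870912 1040187392 5207648 3 eng mog cd0q1 cd1q3 pd3 true true true .dn 1 3 3
    ndB0q1 ndB1q3 pcB3 Cut.none Ext.none :=
  certB0 (fam := true) (s1 := true) (s2 := true) (a := 1) (b := 3) (c := 3) (cn := .dn) (n1 := ndB0q1) (n2 := ndB1q3) (pc := pcB3) (cut := Cut.none) (xt := Ext.none) (P1 := 536870912) (W1 := 536870912) (P2 := 1610612736) (W2 := 536870912) (P3 := 1040187392) (W3 := 5207648) (N0 := 3) (En := eng) (mo := mog) (C1 := cd0q1) (C2 := cd1q3) (C3 := pd3)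
    rfl k0_pp_133

noncomputable def f_pp_202 : ℕ → ℕ → ℕ → ℕ → Bool := onCell 0 536870912 0 536870912 1040187392 5207648
    (rowB 3 eng mog cd0q2 cd1q0 pd2 0 true true true .pp 2 0 2 (qsf 0 536870912 0 536870912 2) ndB0q2 ndB1q0 pcB2 Cut.none Ext.none)

def k0_pp_202 : ∃ t, chk3 f_pp_202 t 1 1 1 = true :=
  ⟨(l 5), by decide +kernel⟩

theorem c_pp_202 : CertB 0 536870912 0 536870912 1040187392 5207648 3 eng mog cd0q2 cd1q0 pd2 true true true .pp 2 0 2
    ndB0q2 ndB1q0 pcB2 Cut.none Ext.none :=
  certB0 (fam := true) (s1 := true) (s2 := true) (a := 2) (b := 0) (c := 2) (cn := .pp) (n1 := ndB0q2) (n2 := ndB1q0) (pc := pcB2) (cut := Cut.none) (xt := Ext.none) (P1 := 0) (W1 := 536870912) (P2 := 0) (W2 := 536870912) (P3 := 1040187392) (W3 := 5207648) (N0 := 3) (En := eng) (mo := mog) (C1 := cd0q2) (C2 := cd1q0) (C3 := pd2)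
    rfl k0_pp_202

noncomputable def f_pp_203 : ℕ → ℕ → ℕ → ℕ → Bool := onCell 0 536870912 0 536870912 1040187392 5207648
    (rowB 3 eng mog cd0q2 cd1q0 pd3 0 true true true .up 2 0 3 (qsf 0 536870912 0 536870912 3) ndB0q2 ndB1q0 pcB3 Cut.none Ext.none)

def k0_pp_203 : ∃ t, chk3 f_pp_203 t 1 1 1 = true :=
  ⟨(l 5), by decide +kernel⟩

theorem c_pp_203 : CertB 0 536870912 0 536870912 1040187392 5207648 3 eng mog cd0q2 cd1q0 pd3 true true true .up 2 0 3
    ndB0q2 ndB1q0 pcB3 Cut.none Ext.none :=
  certB0 (fam := true) (s1 := true) (s2 := true) (a := 2) (b := 0) (c := 3) (cn := .up) (n1 := ndB0q2) (n2 := ndB1q0) (pc := pcB3) (cut := Cut.none) (xt := Ext.none) (P1 := 0) (W1 := 536870912) (P2 := 0) (W2 := 536870912) (P3 := 1040187392) (W3 := 5207648) (N0 := 3) (En := eng) (mo := mog) (C1 := cd0q2) (C2 := cd1q0) (C3 := pd3)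
    rfl k0_pp_203

noncomputable def f_pp_213 : ℕ → ℕ → ℕ → ℕ → Bool := onCell 0 536870912 536870912 536870912 1040187392 5207648
    (rowB 3 eng mog cd0q2 cd1q1 pd3 0 true true true .pnn 2 1 3 (qsf 0 536870912 536870912 536870912 3) ndB0q2 ndB1q1 pcB3 Cut.none Ext.none)

def k0_pp_213 : ∃ t, chk3 f_pp_213 t 1 1 1 = true :=
  ⟨(l 5), by decide +kernel⟩

theorem c_pp_213 : CertB 0 536870912 536870912 536870912 1040187392 5207648 3 eng mog cd0q2 cd1q1 pd3 true true true .pnn 2 1 3
    ndB0q2 ndB1q1 pcB3 Cut.none Ext.none :=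
  certB0 (fam := true) (s1 := true) (s2 := true) (a := 2) (b := 1) (c := 3) (cn := .pnn) (n1 := ndB0q2) (n2 := ndB1q1) (pc := pcB3) (cut := Cut.none) (xt := Ext.none) (P1 := 0) (W1 := 536870912) (P2 := 536870912) (W2 := 536870912) (P3 := 1040187392) (W3 := 5207648) (N0 := 3) (En := eng) (mo := mog) (C1 := cd0q2) (C2 := cd1q1) (C3 := pd3)
    rfl k0_pp_213

noncomputable def f_pm_001 : ℕ → ℕ → ℕ → ℕ → Bool := onCell 0 536870912 0 536870912 1040187392 5207648
    (rowB 3 eng mog cd0q0 cd1q0 pd1 0 true true false .up 0 0 1 (qsf 0 536870912 0 536870912 1) ndB0q0 ndB1q0 pcB1 Cut.none Ext.none)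

def k0_pm_001 : ∃ t, chk3 f_pm_001 t 1 1 1 = true :=
  ⟨(l 3), by decide +kernel⟩

theorem c_pm_001 : CertB 0 536870912 0 536870912 1040187392 5207648 3 eng mog cd0q0 cd1q0 pd1 true true false .up 0 0 1
    ndB0q0 ndB1q0 pcB1 Cut.none Ext.none :=
  certB0 (fam := true) (s1 := true) (s2 := false) (a := 0) (b := 0) (c := 1) (cn := .up) (n1 := ndB0q0) (n2 := ndB1q0) (pc := pcB1) (cut := Cut.none) (xt := Ext.none) (P1 := 0) (W1 := 536870912) (P2 := 0) (W2 := 536870912) (P3 := 1040187392) (W3 := 5207648) (N0 := 3) (En := eng) (mo := mog) (C1 := cd0q0) (C2 := cd1q0) (C3 := pd1)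
    rfl k0_pm_001

noncomputable def f_pm_011 : ℕ → ℕ → ℕ → ℕ → Bool := onCell 0 536870912 536870912 536870912 1040187392 5207648
    (rowB 3 eng mog cd0q0 cd1q1 pd1 1 true true false .pnn 0 1 1 (qsf 0 536870912 536870912 536870912 1) ndB0q0 ndB1q1 pcB1 Cut.none Ext.none)

def k0_pm_011 : ∃ t, chk3 f_pm_011 t 1 1 1 = true :=
  ⟨(l 3), by decide +kernel⟩

theorem c_pm_011 : CertB 0 536870912 536870912 536870912 1040187392 5207648 3 eng mog cd0q0 cd1q1 pd1 true true false .pnn 0 1 1
    ndB0q0 ndB1q1 pcB1 Cut.none Ext.none :=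
  certB1 (fam := true) (s1 := true) (s2 := false) (a := 0) (b := 1) (c := 1) (cn := .pnn) (n1 := ndB0q0) (n2 := ndB1q1) (pc := pcB1) (cut := Cut.none) (xt := Ext.none) (P1 := 0) (W1 := 536870912) (P2 := 536870912) (W2 := 536870912) (P3 := 1040187392) (W3 := 5207648) (N0 := 3) (En := eng) (mo := mog) (C1 := cd0q0) (C2 := cd1q1) (C3 := pd1)
    rfl (fun _ => rfl) k0_pm_011

noncomputable def f_pm_012 : ℕ → ℕ → ℕ → ℕ → Bool := onCell 1073741824 536870912 536870912 536870912 1040187392 5207648
    (rowB 3 eng mog cd0q0 cd1q1 pd2 2 true true false .pnp 0 1 2 (qsf 0 536870912 536870912 536870912 2) ndB0q0 ndB1q1 pcB2 Cut.none Ext.none)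

def k0_pm_012 : ∃ t, chk3 f_pm_012 t 4 1 1 = true :=
  ⟨(b (l 3) (a (l 3) (b (l 3) (b (l 3) (a (l 3) (b (l 3) (a (l 3) (a (l 3) (b (l 226189598423) (a (b (l 3) (a (l 3) (b (l 222968337287) (b (l 177334309303) (b (a (l 203640977335) (l 16337168)) (a (a (l 219747096631) (c (l 16337312) (l 16335560))) (l 16334176))))))) (b (l 164986283575) (b (l 16339320) (a (b (l 16337168) (l 16331168)) (l 16328176)))))))))))))), by decide +kernel⟩

def k1_pm_012 : ∃ t, chk3 f_pm_012 t 5 2 1 = true :=
  ⟨(a (b (a (a (b (l 2) (l 3)) (l 2)) (l 2)) (a (a (l 3) (a (b (l 3) (l 3)) (a (b (b (a (l 16288592) (l 16295256)) (l 16314984)) (l 3)) (b (b (l 16305240) (l 16326816)) (b (l 16356776) (l 16393944)))))) (b (b (a (l 16338440) (l 2)) (l 16337672)) (b (l 16402480) (l 16432504))))) (b (l 2) (a (b (b (l 2) (l 16473264)) (b (l 16483416) (l 16500424))) (b (l 2) (l 44660317607))))), by decide +kernel⟩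

def k2_pm_012 : ∃ t, chk3 f_pm_012 t 5 3 1 = true :=
  ⟨(b (a (a (a (l 3) (a (b (l 3) (b (l 3) (l 16563760))) (a (b (l 3) (b (l 16533288) (l 16589400))) (b (l 16460632) (l 16564576))))) (b (b (l 16468736) (l 16510216)) (b (l 16555968) (l 16604880)))) (b (b (l 16487096) (l 16551712)) (b (l 16600744) (l 16545144)))) (a (a (a (b (a (l 3) (b (l 3) (l 16483768))) (b (a (b (l 3) (l 16391944)) (b (l 16464152) (l 16410440))) (a (a (b (l 16387648) (b (l 16349760) (b (l 16331312) (l 16319224)))) (b (l 16375816) (b (l 16337896) (l 16313400)))) (b (a (l 16364048) (l 16352360)) (a (l 16313848) (b (l 16314408) (l 16288912))))))) (a (b (b (l 188072123623) (a (l 16529456) (l 16518080))) (b (a (l 16419936) (l 16365184)) (a (b (l 16340168) (b (l 16298840) (a (l 16275368) (l 16256856)))) (b (a (l 16328296) (l 16314288)) (l 16245112))))) (a (b (b (l 16618280) (l 16485160)) (b (b (l 16419432) (a (l 16366424) (l 16345640))) (b (l 16278704) (a (l 16212272) (l 16188368))))) (b (a (b (l 16609928) (b (l 16523600) (l 16461104)))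 (b (l 16496976) (b (l 16466176) (l 16435584)))) (b (a (b (l 16391616) (l 16314344)) (b (l 16361592) (b (l 16305312) (l 16267496)))) (a (b (l 16237328) (a (l 16169000) (l 16153112))) (b (a (a (a (l 16218200) (l 16167712)) (l 16204000)) (l 16201584)) (a (a (a (l 16141368) (a (l 16135728) (b (l 16150104) (l 16091048)))) (l 16128096)) (l 16125568))))))))) (b (b (l 16471384) (l 16312424)) (b (b (l 16304328) (l 16227568)) (b (a (l 16174624) (l 16125088)) (a (a (l 16110552) (l 16084168)) (l 16045608)))))) (b (b (a (l 16450568) (l 16390624)) (a (l 16333912) (l 16256368))) (b (a (l 16176672) (l 16093624)) (a (b (l 16054536) (l 15971912)) (l 15923672)))))), by decide +kernel⟩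

def k3_pm_012 : ∃ t, chk3 f_pm_012 t 3 1 1 = true :=
  ⟨(b (a (b (l 2) (a (b (l 2) (b (l 2) (l 16622856))) (l 2))) (l 2)) (b (a (b (a (b (l 16652752) (l 16604408)) (b (l 2) (l 16435800))) (a (b (l 16498672) (l 16387600)) (b (l 16350016) (l 16238224)))) (b (l 2) (a (b (l 2) (l 16095104)) (l 2)))) (a (b (a (b (l 16273600) (l 16124824)) (b (l 16123776) (l 16004080))) (a (b (l 15981440) (l 15698176)) (b (l 15849384) (l 15663216)))) (b (a (b (l 15980824) (l 15866200)) (l 87071266183)) (a (b (l 15731056) (l 15545392)) (b (l 15611128) (l 15445112))))))), by decide +kernel⟩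

theorem s4_pm_012 : ∃ t, chk3 f_pm_012 t 5 1 1 = true := ex3_b k1_pm_012 k2_pm_012

theorem s5_pm_012 : ∃ t, chk3 f_pm_012 t 2 1 1 = true := ex3_a k0_pm_012 s4_pm_012

theorem s6_pm_012 : ∃ t, chk3 f_pm_012 t 1 1 1 = true := ex3_a s5_pm_012 k3_pm_012

theorem c_pm_012 : CertB 0 536870912 536870912 536870912 1040187392 5207648 3 eng mog cd0q0 cd1q1 pd2 true true false .pnp 0 1 2
    ndB0q0 ndB1q1 pcB2 Cut.none Ext.none :=
  certB2 (fam := true) (s1 := true) (s2 := false) (a := 0) (b := 1) (c := 2) (cn := .pnp) (n1 := ndB0q0) (n2 := ndB1q1) (pc := pcB2) (cut := Cut.none) (xt := Ext.none) (P1 := 0) (W1 := 536870912) (P2 := 536870912) (W2 := 536870912) (P3 := 1040187392) (W3 := 5207648) (N0 := 3) (En := eng) (mo := mog) (C1 := cd0q0) (C2 := cd1q1) (C3 := pd2)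
    rfl (fun _ => rfl) s6_pm_012

noncomputable def cut_pm_022_a : Cut := Cut.of [[⟨0, 0, 0, 26843545⟩, ⟨1, 1, 0, 26843545⟩, ⟨2, 1, 0, 26843545⟩]]

noncomputable def f_pm_022_a : ℕ → ℕ → ℕ → ℕ → Bool := onCell 1073741824 536870912 0 536870912 1040187392 5207648
    (rowB 3 eng mog cd0q0 cd1q2a pd2 2 true true false .pp 0 2 2 (qsf 0 536870912 0 536870912 2) ndB0q0 ndB1q2a pcB2 cut_pm_022_a Ext.none)

def k0_pm_022_a : ∃ t, chk3 f_pm_022_a t 8 2 1 = true :=
  ⟨(l 1), by decide +kernel⟩

def k1_pm_022_a : ∃ t, chk3 f_pm_022_a t 8 6 1 = true :=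
  ⟨(l 1), by decide +kernel⟩

def k2_pm_022_a : ∃ t, chk3 f_pm_022_a t 16 7 1 = true :=
  ⟨(b (l 1) (a (b (l 1) (l 6)) (a (b (b (l 1) (b (l 1) (l 6))) (l 6)) (b (b (a (l 1) (a (l 1) (b (l 1) (b (l 1) (l 16567952))))) (b (a (b (b (l 1) (l 16578960)) (a (l 16593144) (l 16597528))) (b (b (b (a (b (l 16571440) (l 16568176)) (l 16566616)) (a (l 16577368) (l 16581856))) (a (l 16585544) (l 16590072))) (l 16583336))) (a (b (l 16596424) (l 16639792)) (b (l 16626584) (l 16649184))))) (b (b (a (l 16653040) (l 16662744)) (a (l 16678800) (l 16688912))) (b (a (l 16697488) (l 16679192)) (a (b (l 16688688) (l 16668144)) (l 16617672)))))))), by decide +kernel⟩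

def k3_pm_022_a : ∃ t, chk3 f_pm_022_a t 17 7 1 = true :=
  ⟨(b (b (a (l 1) (b (l 1) (l 16472736))) (a (b (l 1) (a (l 16505752) (l 16527552))) (b (l 16516136) (l 16500776)))) (b (a (b (a (b (l 16545240) (b (l 16565960) (a (b (l 16571600) (l 16578784)) (l 16585248)))) (b (l 16566624) (b (l 16587144) (l 16601208)))) (b (a (b (b (a (b (a (l 16581840) (l 16586688)) (l 16578280)) (b (l 16594240) (a (l 16575008) (l 16600960)))) (a (l 16597064) (l 16606768))) (a (l 16592744) (l 16602592))) (b (b (a (l 16596352) (l 16617672)) (l 16601168)) (l 16618144))) (a (a (l 16616120) (l 16636720)) (a (l 16647240) (l 16658224))))) (b (a (b (l 16589856) (l 16596376)) (b (l 16614984) (l 16620720))) (a (b (b (b (l 16634928) (l 16644120)) (l 16640368)) (l 16653920)) (b (b (l 16642176) (l 16662936)) (l 16638824))))) (a (b (a (b (a (l 16672824) (l 16662320)) (a (l 16679200) (l 16681984))) (b (l 16672256) (a (l 16663800) (l 16666720)))) (b (a (a (l 16660784) (l 16642464)) (l 16594496)) (a (a (l 16619960) (l 16601816)) (a (l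 16605296) (l 16588712))))) (b (b (a (l 16636512) (l 16623928)) (a (l 16619832) (l 16609048))) (b (a (l 16582144) (l 16573664)) (a (a (l 16573040) (l 16558512)) (l 16507800))))))), by decide +kernel⟩

def k4_pm_022_a : ∃ t, chk3 f_pm_022_a t 9 1 1 = true :=
  ⟨(b (b (l 1) (a (l 1) (b (l 1) (a (l 1) (l 16470360))))) (b (a (b (l 1) (b (a (l 1) (l 16457336)) (a (l 16441688) (l 16509488)))) (b (a (l 16470648) (b (l 16513144) (l 16531072))) (b (a (l 16535256) (l 16539720)) (a (l 16563224) (l 16540920))))) (b (a (b (a (l 16447720) (l 16470752)) (a (b (l 16530352) (l 16554832)) (a (l 16553424) (l 16594832)))) (b (a (l 16547432) (b (l 16536824) (l 16538856))) (a (b (l 16593480) (l 16545424)) (b (l 16540608) (l 16524040))))) (a (b (a (b (b (l 16610864) (l 16635592)) (b (b (a (l 16664464) (l 16635648)) (l 16616560)) (a (l 16627560) (l 16620016)))) (b (a (l 16620320) (l 16613216)) (b (a (b (l 16628368) (l 16617864)) (b (l 16605352) (l 16598184))) (a (l 16596616) (l 16579688))))) (a (b (a (b (l 16614680) (l 16581504))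 (b (l 16589144) (l 16539568))) (a (b (l 16549472) (a (l 16523488) (l 16515424))) (b (l 16532088) (a (l 16508584) (l 16502856))))) (b (a (b (l 16570040) (l 16544304)) (b (l 16555664) (l 16532624))) (a (b (l 16519704) (l 16494392)) (b (l 16508344) (l 16483232)))))) (b (a (b (a (l 16591312) (l 16573576)) (b (a (b (l 16588536) (l 16583280)) (l 16572704)) (a (l 16567064) (l 16555008)))) (b (l 16552032) (b (a (l 16559528) (l 16545664)) (l 16536208)))) (a (b (a (b (l 16544440) (l 16521136)) (l 16521048)) (a (l 16484344) (l 16471648))) (b (a (l 16508264) (l 16493728)) (a (l 16455904) (l 16439592))))))))), by decide +kernel⟩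

def k5_pm_022_a : ∃ t, chk3 f_pm_022_a t 5 1 1 = true :=
  ⟨(b (a (b (a (b (l 15991496) (l 16018232)) (b (l 15571264) (a (l 15933448) (l 15805816)))) (a (b (a (l 16282440) (l 16166976)) (a (l 16365464) (l 16256816))) (b (a (l 16048616) (l 15931336)) (a (l 16149360) (l 16052088))))) (b (a (b (a (l 15535024) (l 15413048)) (a (l 15683088) (l 15575952))) (a (b (l 15309232) (l 15482960)) (b (l 15215768) (l 15399680)))) (a (b (a (l 15827776) (l 15736544)) (a (l 15966840) (l 15897480))) (b (a (l 15659264) (l 15581720)) (a (l 15828088) (l 15754336)))))) (b (a (a (b (a (l 16339648) (b (l 16310672) (l 16339352))) (b (a (l 16448240) (l 16371816)) (a (l 16465600) (l 16405080)))) (b (a (b (l 16215216) (l 16261552)) (b (l 16137696) (l 16196888))) (b (a (l 16309016) (l 16258056)) (a (l 16359024) (l 16307688))))) (b (a (a (l 16108600) (l 16045008)) (b (l 15910056) (l 15984704))) (a (b (l 16172848) (l 16164240)) (l 16080112)))) (a (b (a (b (a (l 16441632) (l 16443152)) (a (b (l 16503208) (l 16513536)) (l 16468696)))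 (b (a (l 16397232) (l 16350048)) (a (l 16426784) (l 16381512)))) (b (b (a (a (l 16520656) (l 16481488)) (l 16413888)) (a (a (a (l 16522400) (l 16504184)) (a (l 16484352) (a (l 16468480) (a (l 16460704) (l 16454888))))) (l 16411744))) (a (a (b (l 16467448) (l 16351200)) (a (l 16412040) (a (l 16399248) (a (l 16393744) (l 16390200))))) (l 16347136)))) (b (a (b (l 16268896) (l 16305432)) (l 16191200)) (b (a (l 16330304) (l 16252040)) (l 16148104)))))), by decide +kernel⟩

def k6_pm_022_a : ∃ t, chk3 f_pm_022_a t 3 1 1 = true :=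
  ⟨(b (a (a (b (a (b (l 14948944) (l 15206392)) (b (l 14887376) (l 15096128))) (a (b (a (l 15500496) (l 15418168)) (b (l 15601296) (l 15685496))) (b (l 15301864) (l 15501200)))) (b (b (a (l 14717944) (l 14568240)) (a (l 14939792) (l 14800896))) (b (a (l 15159392) (l 15032072)) (a (l 15373368) (l 15258408))))) (b (a (b (a (l 14438872) (l 14330416)) (a (l 14679984) (l 14577592))) (b (a (l 14243472) (l 14178616)) (a (l 14494272) (l 14430568)))) (a (b (a (l 14920376) (l 14824792)) (a (l 15156712) (l 15068664))) (b (a (l 14745792) (l 14683872)) (a (l 14994680) (l 14935184)))))) (b (a (a (b (a (l 15812800) (l 15690080)) (a (l 15967792) (l 15863416))) (b (a (l 15577656) (l 15475816)) (a (l 15767128) (l 15679064)))) (a (b (a (l 15384840) (l 15305016)) (a (l 15599400) (l 15528304))) (b (a (l 15236672) (l 15180136)) (a (l 15465984) (b (l 15355600) (l 15467352)))))) (a (b (a (a (l 16100072) (l 16014712)) (a (l 15935112) (l 15861264))) (a (b (a (l 16177984) (l 16107864)) (l 16095944)) (b (a (l 16041432) (l 15978464))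 (a (l 16005400) (l 15950096))))) (b (a (a (l 15793184) (l 15730896)) (a (l 15611560) (b (l 15573184) (l 15671608)))) (a (b (a (l 15918760) (l 15862720)) (a (l 15898152) (l 15849168))) (b (a (l 15810128) (l 15760936)) (a (l 15802808) (l 15758760)))))))), by decide +kernel⟩

theorem s7_pm_022_a : ∃ t, chk3 f_pm_022_a t 8 7 1 = true := ex3_a k2_pm_022_a k3_pm_022_a

theorem s8_pm_022_a : ∃ t, chk3 f_pm_022_a t 8 3 1 = true := ex3_b k1_pm_022_a s7_pm_022_a

theorem s9_pm_022_a : ∃ t, chk3 f_pm_022_a t 8 1 1 = true := ex3_b k0_pm_022_a s8_pm_022_a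

theorem s10_pm_022_a : ∃ t, chk3 f_pm_022_a t 4 1 1 = true := ex3_a s9_pm_022_a k4_pm_022_a

theorem s11_pm_022_a : ∃ t, chk3 f_pm_022_a t 2 1 1 = true := ex3_a s10_pm_022_a k5_pm_022_a

theorem s12_pm_022_a : ∃ t, chk3 f_pm_022_a t 1 1 1 = true := ex3_a s11_pm_022_a k6_pm_022_a

theorem c_pm_022_a : CertB 0 536870912 0 536870912 1040187392 5207648 3 eng mog cd0q0 cd1q2a pd2 true true false .pp 0 2 2
    ndB0q0 ndB1q2a pcB2 cut_pm_022_a Ext.none :=
  certB2 (fam := true) (s1 := true) (s2 := false) (a := 0) (b := 2) (c := 2) (cn := .pp) (n1 := ndB0q0) (n2 := ndB1q2a) (pc := pcB2) (cut := cut_pm_022_a) (xt := Ext.none) (P1 := 0) (W1 := 536870912) (P2 := 0) (W2 := 536870912) (P3 := 1040187392) (W3 := 5207648) (N0 := 3) (En := eng) (mo := mog) (C1 := cd0q0) (C2 := cd1q2a) (C3 := pd2)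
    rfl (fun _ => rfl) s12_pm_022_a

noncomputable def cut_pm_022_b : Cut := Cut.of [[⟨0, 0, 0, 26843545⟩, ⟨1, 1, 0, 26843545⟩, ⟨2, 1, 0, 26843545⟩]]

noncomputable def f_pm_022_b : ℕ → ℕ → ℕ → ℕ → Bool := onCell 0 536870912 1073741824 536870912 1040187392 5207648
    (rowB 3 eng mog cd0q0 cd1q2b pd2 1 true true false .pp 0 2 2 (qsf 0 536870912 1239849684 370763052 2) ndB0q0 ndB1q2b pcB2 cut_pm_022_b Ext.none)

def k0_pm_022_b : ∃ t, chk3 f_pm_022_b t 1 1 1 = true :=
  ⟨(a (a (b (b (l 1) (b (a (a (b (l 302826683687) (l 335575329799)) (b (l 1) (l 282961921783))) (l 1)) (a (a (b (l 15422928) (l 15178680)) (b (l 164850331575) (l 15160648))) (a (b (a (l 15392208) (l 1)) (a (l 15164808) (l 15177936))) (b (l 1) (l 296383205847)))))) (a (b (b (a (l 15000144) (b (l 14932904) (l 14710952))) (a (l 14368368) (l 14389128))) (b (a (l 13945160) (l 13988088)) (a (l 13562832) (l 13627624)))) (b (a (b (a (l 14833616) (l 14851008)) (a (l 14414344) (l 14437440))) (b (b (l 227126404791) (l 14768248)) (b (l 14566464)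 (l 14371648)))) (a (b (l 14143456) (l 13693000)) (b (l 14093640) (l 13759712)))))) (b (l 1) (b (b (a (a (b (l 308193880071) (l 285644877991)) (b (l 1) (l 310340938535))) (l 1)) (a (b (a (l 14588624) (l 278665529783)) (a (l 14402184) (l 14428104))) (a (b (l 309266885367) (l 291550110887)) (b (l 1) (l 356511226263))))) (b (a (b (l 14220888) (l 14055424)) (a (b (l 14289152) (l 14136208)) (b (l 300676649095) (l 14172488)))) (a (a (l 13818608) (l 13873528)) (a (l 13925120) (l 13973432))))))) (b (l 1) (b (l 1) (a (b (a (a (b (l 354363486103) (l 343089222871)) (b (l 1) (l 352215789767))) (l 1)) (a (a (b (l 14078848) (l 13963296)) (b (l 348457746535) (l 14008944))) (b (a (l 401070874855) (l 1)) (a (b (l 441873082295) (l 14028464)) (l 409123816359))))) (l 1))))), by decide +kernel⟩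

theorem c_pm_022_b : CertB 0 536870912 1239849684 370763052 1040187392 5207648 3 eng mog cd0q0 cd1q2b pd2 true true false .pp 0 2 2
    ndB0q0 ndB1q2b pcB2 cut_pm_022_b Ext.none :=
  certB1 (fam := true) (s1 := true) (s2 := false) (a := 0) (b := 2) (c := 2) (cn := .pp) (n1 := ndB0q0) (n2 := ndB1q2b) (pc := pcB2) (cut := cut_pm_022_b) (xt := Ext.none) (P1 := 0) (W1 := 536870912) (P2 := 1239849684) (W2 := 370763052) (P3 := 1040187392) (W3 := 5207648) (N0 := 3) (En := eng) (mo := mog) (C1 := cd0q0) (C2 := cd1q2b) (C3 := pd2)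
    rfl (fun _ => rfl) k0_pm_022_b

noncomputable def f_pm_023_a : ℕ → ℕ → ℕ → ℕ → Bool := onCell 1610612736 536870912 0 536870912 1040187392 5207648
    (rowB 3 eng mog cd0q0 cd1q2a pd3 2 true true false .up 0 2 3 (qsf 0 536870912 0 536870912 3) ndB0q0 ndB1q2a pcB3 Cut.none Ext.none)

def k0_pm_023_a : ∃ t, chk3 f_pm_023_a t 1 1 1 = true :=
  ⟨(a (b (a (a (b (a (l 16008408) (l 16098808)) (b (l 15913128) (l 15764416))) (b (a (l 16183528) (l 16261768)) (a (l 16001872) (l 16085600)))) (a (b (b (a (l 16378080) (l 2)) (l 193909807191)) (a (l 16165336) (l 2))) (l 2))) (a (b (a (b (a (l 15702360) (l 15787640)) (a (l 15622472) (l 15703632))) (b (a (l 15873608) (l 15959408)) (a (l 15787616) (l 15873584)))) (a (b (a (l 15539448) (l 15615136)) (b (a (l 15472088) (l 15542712)) (a (b (l 15466408) (l 15576528)) (l 2)))) (b (a (l 15695952) (l 2)) (l 2)))) (b (l 2) (l 2)))) (l 2)), by decide +kernel⟩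

theorem c_pm_023_a : CertB 0 536870912 0 536870912 1040187392 5207648 3 eng mog cd0q0 cd1q2a pd3 true true false .up 0 2 3
    ndB0q0 ndB1q2a pcB3 Cut.none Ext.none :=
  certB2 (fam := true) (s1 := true) (s2 := false) (a := 0) (b := 2) (c := 3) (cn := .up) (n1 := ndB0q0) (n2 := ndB1q2a) (pc := pcB3) (cut := Cut.none) (xt := Ext.none) (P1 := 0) (W1 := 536870912) (P2 := 0) (W2 := 536870912) (P3 := 1040187392) (W3 := 5207648) (N0 := 3) (En := eng) (mo := mog) (C1 := cd0q0) (C2 := cd1q2a) (C3 := pd3)
    rfl (fun _ => rfl) k0_pm_023_a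

noncomputable def f_pm_023_b : ℕ → ℕ → ℕ → ℕ → Bool := onCell 0 536870912 1610612736 536870912 1040187392 5207648
    (rowB 3 eng mog cd0q0 cd1q2b pd3 1 true true false .up 0 2 3 (qsf 0 536870912 1239849684 370763052 3) ndB0q0 ndB1q2b pcB3 Cut.none Ext.none)

def k0_pm_023_b : ∃ t, chk3 f_pm_023_b t 1 1 1 = true :=
  ⟨(a (b (a (b (a (b (a (l 14975280) (l 15160144)) (l 15077440)) (b (a (l 15283864) (l 15378448)) (a (l 15292120) (l 15386448)))) (a (l 2) (b (a (l 2) (l 15371480)) (l 2)))) (b (b (a (l 15553944) (l 15759552)) (a (l 15564176) (l 15769976))) (b (a (l 15550200) (l 15768520)) (b (l 15646760) (l 15613184))))) (l 4)) (b (b (a (b (a (l 15935896) (b (l 16071984) (l 16098832))) (a (l 15938256) (b (l 16123696) (l 16126640)))) (b (a (l 350072216087) (l 1)) (a (b (l 16250120) (l 16271112)) (b (l 348461756855) (l 230350202743))))) (b (a (a (l 15960352) (l 16127344)) (a (b (l 16267400) (l 16268576)) (b (a (l 16362424) (b (l 16416072) (l 16420424))) (l 16392504)))) (a (b (l 16036200) (l 16024560)) (a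 (l 16264560) (b (l 16390136) (l 16390472)))))) (b (b (a (b (l 15989080) (l 4)) (b (a (l 16250920) (l 16391536)) (l 16120688))) (l 4)) (l 4)))), by decide +kernel⟩

theorem c_pm_023_b : CertB 0 536870912 1239849684 370763052 1040187392 5207648 3 eng mog cd0q0 cd1q2b pd3 true true false .up 0 2 3
    ndB0q0 ndB1q2b pcB3 Cut.none Ext.none :=
  certB1 (fam := true) (s1 := true) (s2 := false) (a := 0) (b := 2) (c := 3) (cn := .up) (n1 := ndB0q0) (n2 := ndB1q2b) (pc := pcB3) (cut := Cut.none) (xt := Ext.none) (P1 := 0) (W1 := 536870912) (P2 := 1239849684) (W2 := 370763052) (P3 := 1040187392) (W3 := 5207648) (N0 := 3) (En := eng) (mo := mog) (C1 := cd0q0) (C2 := cd1q2b) (C3 := pd3)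
    rfl (fun _ => rfl) k0_pm_023_b

noncomputable def f_pm_033 : ℕ → ℕ → ℕ → ℕ → Bool := onCell 0 536870912 1610612736 536870912 1040187392 5207648
    (rowB 3 eng mog cd0q0 cd1q3 pd3 1 true true false .pnn 0 3 3 (qsf 0 536870912 1610612736 536870912 3) ndB0q0 ndB1q3 pcB3 Cut.none Ext.none)

def k0_pm_033 : ∃ t, chk3 f_pm_033 t 1 1 1 = true :=
  ⟨(a (b (a (b (a (b (a (l 15275056) (l 15428104)) (l 15138528)) (b (a (l 15519184) (l 1)) (a (l 15501064) (l 15566760)))) (b (a (l 15054552) (a (l 15445352) (l 15515096))) (b (a (l 15193384) (l 15261432)) (l 4)))) (b (b (l 1) (a (l 15701808) (l 1))) (b (a (l 15655352) (l 15825088)) (b (l 15633704) (l 15620368))))) (l 4)) (b (b (l 1) (a (b (l 1) (a (l 15917432) (l 1))) (l 1))) (b (b (a (a (l 4) (l 161629719319)) (l 1)) (l 4)) (l 4)))), by decide +kernel⟩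

theorem c_pm_033 : CertB 0 536870912 1610612736 536870912 1040187392 5207648 3 eng mog cd0q0 cd1q3 pd3 true true false .pnn 0 3 3
    ndB0q0 ndB1q3 pcB3 Cut.none Ext.none :=
  certB1 (fam := true) (s1 := true) (s2 := false) (a := 0) (b := 3) (c := 3) (cn := .pnn) (n1 := ndB0q0) (n2 := ndB1q3) (pc := pcB3) (cut := Cut.none) (xt := Ext.none) (P1 := 0) (W1 := 536870912) (P2 := 1610612736) (W2 := 536870912) (P3 := 1040187392) (W3 := 5207648) (N0 := 3) (En := eng) (mo := mog) (C1 := cd0q0) (C2 := cd1q3) (C3 := pd3)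
    rfl (fun _ => rfl) k0_pm_033

noncomputable def cut_pm_101 : Cut := Cut.of [[⟨0, 1, 0, 26843545⟩, ⟨1, 0, 0, 26843545⟩, ⟨2, 1, 0, 26843545⟩]]

noncomputable def f_pm_101 : ℕ → ℕ → ℕ → ℕ → Bool := onCell 536870912 536870912 0 536870912 1040187392 5207648
    (rowB 3 eng mog cd0q1 cd1q0 pd1 2 true true false .npn 1 0 1 (qsf 536870912 536870912 0 536870912 1) ndB0q1 ndB1q0 pcB1 cut_pm_101 Ext.none)

def k0_pm_101 : ∃ t, chk3 f_pm_101 t 1 1 1 = true :=
  ⟨(a (l 3) (b (a (l 3) (b (a (l 3) (b (a (l 3) (b (a (l 3) (b (a (l 3) (l 6)) (l 3))) (l 3))) (l 3))) (l 3))) (l 3))), by decide +kernel⟩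

theorem c_pm_101 : CertB 536870912 536870912 0 536870912 1040187392 5207648 3 eng mog cd0q1 cd1q0 pd1 true true false .npn 1 0 1
    ndB0q1 ndB1q0 pcB1 cut_pm_101 Ext.none :=
  certB2 (fam := true) (s1 := true) (s2 := false) (a := 1) (b := 0) (c := 1) (cn := .npn) (n1 := ndB0q1) (n2 := ndB1q0) (pc := pcB1) (cut := cut_pm_101) (xt := Ext.none) (P1 := 536870912) (W1 := 536870912) (P2 := 0) (W2 := 536870912) (P3 := 1040187392) (W3 := 5207648) (N0 := 3) (En := eng) (mo := mog) (C1 := cd0q1) (C2 := cd1q0) (C3 := pd1)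
    rfl (fun _ => rfl) k0_pm_101

noncomputable def cut_pm_102 : Cut := Cut.of [[⟨0, 1, 0, 26843545⟩, ⟨1, 0, 0, 26843545⟩, ⟨2, 1, 0, 26843545⟩]]

noncomputable def xt_pm_102 : Ext := extD3 3 ⟨4, 1, 1, 5, 33, 5, 163, 200, 81, 200, 1, 64⟩ eng cd0q1 cd1q0 pd2 true true false .npp 1 0 2 rfl ndB0q1 ndB1q0 pcB2

noncomputable def f_pm_102 : ℕ → ℕ → ℕ → ℕ → Bool := onCell 536870912 536870912 1073741824 536870912 1040187392 5207648
    (rowB 3 eng mog cd0q1 cd1q0 pd2 1 true true false .npp 1 0 2 (qsf 536870912 536870912 0 536870912 2) ndB0q1 ndB1q0 pcB2 cut_pm_102 xt_pm_102)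

def k0_pm_102 : ∃ t, chk3 f_pm_102 t 2 4 1 = true :=
  ⟨(b (l 3) (a (l 3) (b (l 3) (a (b (l 3) (b (l 3) (a (l 3) (l 122573642775)))) (b (a (l 3) (b (l 3) (a (l 3) (l 164449633735)))) (a (b (l 160691473463) (a (l 16441624) (l 16432512))) (b (a (l 16442000) (l 16435904)) (l 16420872)))))))), by decide +kernel⟩

def k1_pm_102 : ∃ t, chk3 f_pm_102 t 6 8 1 = true :=
  ⟨(a (l 3) (l 3)), by decide +kernel⟩

def k2_pm_102 : ∃ t, chk3 f_pm_102 t 14 8 1 = true :=
  ⟨(b (l 3) (b (a (l 3) (a (b (l 3) (b (a (l 3) (b (l 3) (l 370608057159))) (a (l 346448849175) (b (l 236927139255) (l 16495808))))) (b (b (a (l 3) (b (l 3) (l 423758290359))) (a (b (l 3) (l 399599089335)) (b (a (l 384029812599) (l 16499728)) (l 169818420711)))) (a (b (b (l 288466812823) (l 16499704)) (l 16530120)) (b (l 16497224) (a (l 16502640) (b (l 16581040) (l 16594536)))))))) (a (b (a (l 3) (b (a (l 3) (l 320679056007)) (a (l 294909269255) (b (l 185924429847) (l 16499400))))) (a (b (a (l 3) (l 269139487127)) (a (l 241759093399) (l 16483704)))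 (b (a (l 123110549271) (l 16526328)) (a (l 16530112) (l 16557832))))) (a (b (b (a (b (l 210620474263) (l 16495720)) (l 16525272)) (a (l 16524288) (b (l 16553816) (a (l 16561808) (l 16579088))))) (a (b (a (l 16550992) (l 16566896)) (a (b (l 16573696) (l 16571176)) (l 16570136))) (b (a (b (l 16576712) (l 16580968)) (l 16579464)) (l 16554768)))) (b (a (b (a (l 16557648) (b (l 16570752) (l 16585680))) (a (b (l 16582080) (l 16588720)) (l 16587416))) (b (a (l 16593360) (l 16595616)) (l 16571080))) (a (l 16547552) (l 16521904))))))), by decide +kernel⟩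

def k3_pm_102 : ∃ t, chk3 f_pm_102 t 30 16 1 = true :=
  ⟨(b (l 3) (a (b (l 3) (b (a (l 3) (a (l 3) (b (l 3) (b (l 3) (l 129553118279))))) (a (b (l 3) (a (l 3) (l 394767301319))) (b (a (l 295983066359) (l 16527168)) (a (l 16519040) (l 16551048)))))) (b (a (b (l 3) (a (l 3) (b (l 3) (a (l 347522716615) (l 594632812828694317718063))))) (b (a (l 3) (b (l 3) (b (a (l 3) (l 3155893043654869168509261871)) (l 2411195001350130271086254127)))) (a (b (a (l 5622099744172939807085025839) (l 1705180952736208983941192239)) (l 2237109124446924311753005615)) (b (l 2846408354633932756670339119) (l 598291320993188158904367))))) (a (b (b (a (a (l 349670176871) (b (l 16511576) (l 16527200))) (b (a (l 16533544) (l 16554320)) (l 16556792))) (a (l 16537168) (l 16575320))) (a (b (l 16561888) (l 16584200)) (b (b (l 16592712) (l 16604096)) (l 16619960)))) (b (a (b (l 597757806566931296950831) (a (l 16605048) (l 16626392))) (b (l 599674250337964120774703) (l 16655208))) (a (b (l 16636272) (l 16649736)) (l 16670240))))))),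 by decide +kernel⟩

def k4_pm_102 : ∃ t, chk3 f_pm_102 t 62 64 1 = true :=
  ⟨(l 3), by decide +kernel⟩

def k5_pm_102 : ∃ t, chk3 f_pm_102 t 124 65 1 = true :=
  ⟨(a (l 3) (b (l 3) (b (b (l 3) (a (l 3) (b (l 3) (l 7479014378470001251972044847)))) (b (a (l 3) (b (a (l 3) (b (a (l 425906175015) (l 599918669696940841424943)) (l 599762448833066606680111))) (a (c (l 3861908858832765889657691183) (l 3803878989868597976715155503)) (l 16668488)))) (a (b (a (l 3) (l 3658808002483537294196693039)) (a (l 3484722137109546380909500463) (l 598644979664726369458223))) (l 599642256766211336362031)))))), by decide +kernel⟩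

def k6_pm_102 : ∃ t, chk3 f_pm_102 t 250 130 1 = true :=
  ⟨(b (l 3) (a (l 3) (b (l 3) (a (l 3) (a (l 8523529732122957376649747503) (b (l 3) (b (l 7546717611651801020856949807) (c (l 4200410913559009097822379055) (l 4190739470685064669272513583))))))))), by decide +kernel⟩

def k7_pm_102 : ∃ t, chk3 f_pm_102 t 251 130 1 = true :=
  ⟨(b (b (l 3) (a (l 3) (a (b (l 3) (a (l 3) (b (l 3) (l 467782325367)))) (b (a (l 3) (b (l 3) (b (l 3) (a (l 3) (a (l 466708602279) (b (l 6) (l 16780496))))))) (a (b (a (l 3) (c (l 452749948775) (b (l 3) (l 444160003671)))) (b (a (l 457581776727) (c (l 239075332423) (l 239075332423))) (a (a (a (l 425906412247) (l 225653560983)) (l 16780688)) (l 16779784)))) (b (b (a (a (l 487109697351) (b (l 480667245047) (l 225116690071))) (l 181630143591)) (c (l 186461979687) (l 185925109095))) (l 16778416))))))) (a (b (b (l 3) (a (l 3) (b (a (l 3) (a (c (l 432885716503) (l 453286809543)) (c (b (l 430201380199) (l 16760352)) (b (a (l 479056621991) (l 410873987655)) (l 220284814839)))))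 (b (a (l 442012522775) (c (l 176261434903) (l 177335142327))) (a (a (l 466708598375) (c (l 227801045383) (l 231559102407))) (l 16780176)))))) (b (a (b (a (l 3) (c (a (l 3) (b (l 466708605687) (l 213305510663))) (l 7082489867488404001012014127))) (a (c (l 7217889709741498819833928751) (l 7343617952899785335768456239)) (c (c (l 4519567146910982343648582703) (l 4519567122123169994570685487)) (l 3300969857616983758281628719)))) (b (a (c (b (a (l 220284844215) (l 16780944)) (l 16780600)) (l 4703323671172294552728050735)) (l 16778744)) (l 16776968))) (a (b (a (c (l 4355153322488966373666380847) (l 4355153280695561831653284911)) (l 16762248)) (l 16755280)) (l 16771120)))) (b (a (b (a (b (l 3) (b (a (l 3) (a (l 455434287287) (b (l 422685165175) (l 16781304)))) (a (a (l 467782305559) (a (l 421074560311) (l 226727271719))) (l 16759936)))) (b (b (a (l 485499085943) (a (b (l 482277854599) (l 222969201607)) (l 242296558983))) (a (a (a (l 472077298439) (l 424295789543)) (l 235317230759)) (l 16780352))) (l 16758584)))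 (b (c (l 206863069223) (l 207399918215)) (l 16776976))) (b (b (l 16756792) (l 16775864)) (l 16772984))) (a (l 16751160) (l 602447026556543853321775))))), by decide +kernel⟩

def k8_pm_102 : ∃ t, chk3 f_pm_102 t 125 131 1 = true :=
  ⟨(a (b (a (a (b (l 3) (b (c (l 7488687800333708338227665967) (l 7304929420157004088166571055)) (a (b (l 7488688253720090024890211375) (l 600278957667130496949295)) (l 600655386538384648952879)))) (b (b (l 3) (a (l 3) (b (l 3) (a (l 435569930887) (l 3871582053859166944560127023))))) (a (b (c (l 3987639974494981133742021679) (l 4006980419796275114150157359)) (l 16694408)) (l 3533082656905222231487880239)))) (b (a (b (a (l 3) (b (l 3) (a (l 7246904159131859712899439663) (l 3242941516273809449475513391)))) (a (b (a (l 7546717843965484199140695087) (l 3010827306962570842033757231)) (l 184314433255)) (l 602264864958815877897263))) (a (a (b (c (l 4239096646431916407545404463) (l 4229425198369825208244296751)) (l 16726696)) (l 3610455097157938619924536367)) (l 602853431386917708225583)))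 (l 602302623138091753577519))) (a (b (l 600892311907581365623855) (l 16693944)) (b (l 602268323723329696455727) (l 602393127476203390098479)))) (b (a (b (l 602781950253632119888943) (l 602360557443698301787183)) (b (l 601792455372303261179439) (l 16730408))) (a (l 602674440323327506029615) (l 16735168)))), by decide +kernel⟩

def k9_pm_102 : ∃ t, chk3 f_pm_102 t 63 32 1 = true :=
  ⟨(b (l 6) (a (b (a (b (a (b (l 6) (a (b (l 6) (l 16765168)) (l 6))) (l 6)) (a (b (a (l 16748952) (l 603203919524318243544623)) (l 602569524466408271289903)) (b (l 6) (l 16744200)))) (l 6)) (a (b (l 601224496806760661331567) (l 600191190939936415493743)) (a (l 143384459343560815) (l 143595909210882159)))) (l 6))), by decide +kernel⟩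

def k10_pm_102 : ∃ t, chk3 f_pm_102 t 31 33 1 = true :=
  ⟨(a (b (a (b (a (b (a (b (l 3) (b (l 6637599782591485078866843695) (l 2208095131037018490718591023))) (b (b (a (l 3) (l 3300964921095331407658850351)) (l 2488566664533752554559068207)) (l 597699584030948707244079))) (b (l 2952794455678700887123941423) (l 16625472))) (b (b (l 3378338008713472632843507759) (l 599673097416459565865007)) (a (l 599748037314259008985135) (l 601065250133272387868719)))) (a (b (l 599056572641871010830383) (l 600321615762800918566959)) (b (l 601448884763930322360367) (l 16701192)))) (b (a (b (a (l 601515465980821386599471) (l 16724480)) (l 16720168)) (l 600623681197007929433647)) (a (l 16657608) (l 599854970783811331874351)))) (b (a (b (l 16672048) (l 16684504)) (a (b (l 16670792) (l 16655192)) (l 16656448))) (a (a (l 16666336) (b (l 16655296) (l 16638328))) (a (l 16638880) (l 16640200))))) (a (b (b (a (l 599092456403616893611631) (l 16692024)) (l 597249799377156925550191)) (a (l 16650008) (l 16652232))) (b (a (l 16666312)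 (b (l 6) (l 16683864))) (b (l 16665592) (l 16649920))))), by decide +kernel⟩

def k11_pm_102 : ∃ t, chk3 f_pm_102 t 15 17 1 = true :=
  ⟨(a (b (a (b (b (a (b (a (l 416242126151) (l 16511912)) (l 180019022023)) (b (l 16557016) (a (l 16564032) (l 16594232)))) (a (a (l 16537808) (l 16481784)) (a (b (l 16584408) (l 16602480)) (l 16616840)))) (a (b (a (b (l 16569240) (l 16587496)) (b (l 16594584) (l 16604800))) (l 16607296)) (l 16565920))) (b (a (b (b (a (l 16606000) (l 16634056)) (l 16632648)) (l 16637608)) (b (l 16652696) (l 16616080))) (a (l 16544832) (a (b (l 16586904) (l 16555304)) (b (l 16579232) (l 16558840)))))) (a (b (a (l 16562656) (l 16539424)) (a (l 16495632) (b (l 16488864) (l 16461336)))) (b (a (b (l 16535512) (l 16508896)) (l 16532128)) (a (l 16481376) (l 16503056))))) (a (b (b (a (b (a (l 16629280) (l 16620584)) (a (l 16600912) (l 16602728))) (l 16615816)) (a (l 16577560) (l 16585496))) (a (l 16533576) (l 16540984))) (b (a (b (l 16619984) (l 16589480)) (b (l 16626648) (l 16595984))) (a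 (l 16544480) (l 16550520))))), by decide +kernel⟩

def k12_pm_102 : ∃ t, chk3 f_pm_102 t 6 9 1 = true :=
  ⟨(a (b (b (l 3) (a (l 3) (b (l 3) (a (l 225652969271) (b (l 194514468823) (l 16478568)))))) (b (a (b (a (l 3) (l 182703271207)) (a (l 16449896) (l 16446416))) (b (a (l 16464216) (l 16462936)) (a (l 16443736) (b (l 16447040) (l 16434536))))) (a (b (l 16428432) (a (l 16410760) (b (l 16409984) (l 16394744)))) (b (a (b (l 16427864) (l 16414552)) (b (l 16419000) (l 16396792))) (a (l 16385480) (l 16361664)))))) (b (b (a (b (l 3) (a (l 3) (b (l 3) (l 246054105719)))) (b (a (b (l 3) (l 279876872663)) (b (a (l 308867948535) (l 212768087575)) (a (l 159080957831) (l 16522480)))) (a (b (a (l 278803233687) (l 16497128)) (l 16500488)) (b (l 16533704) (l 16525632))))) (a (b (a (b (l 224579274695) (l 134384920663)) (b (l 100562107607) (l 16500296))) (a (l 16488992) (l 16484272))) (b (a (l 16507360) (b (a (l 16514488) (a (l 16514120) (l 16512016))) (a (a (l 16501792) (l 16499640)) (l 16490424)))) (a (b (a (l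 16490528) (a (l 16489568) (l 16487264))) (a (l 16475520) (l 16465632))) (b (l 16470080) (l 16441688)))))) (b (a (b (a (b (l 16467648) (l 16434808)) (b (a (l 16467096) (l 16463480)) (a (l 16451536) (l 16440112)))) (a (b (a (l 16444736) (l 16439600)) (l 16421648)) (l 16407896))) (b (a (l 16432592) (l 16400552)) (a (l 16379240) (l 16347512)))) (a (b (l 16329112) (l 16323136)) (b (l 16270680) (l 16263944)))))), by decide +kernel⟩

def k13_pm_102 : ∃ t, chk3 f_pm_102 t 7 9 1 = true :=
  ⟨(a (b (a (b (b (a (a (l 16464744) (l 16549280)) (b (a (l 16559784) (a (l 16541432) (l 16559640))) (a (a (l 16550816) (l 16548328)) (l 16535408)))) (a (b (a (l 16538552) (a (l 16538760) (l 16536488))) (a (b (l 16529560) (l 16521256)) (l 16513960))) (b (l 16515304) (l 16484776)))) (b (a (b (l 16493584) (l 16463976)) (l 16440144)) (a (l 16421088) (l 16382312)))) (b (a (b (b (l 16534544) (l 16503344)) (l 16456928)) (b (a (l 16483424) (l 16457016)) (a (l 16420784) (l 16396312)))) (a (b (l 16396664) (a (l 16350112) (l 16328672)))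 (b (a (l 16362024) (l 16353312)) (a (l 16320304) (l 16326200)))))) (a (b (b (a (l 16365648) (l 16326576)) (a (l 16312304) (l 16275272))) (b (a (l 16261216) (l 16237216)) (a (l 16218432) (l 16212304)))) (b (a (b (a (l 16296536) (l 16289056)) (l 16263072)) (l 16286072)) (a (l 16231896) (l 16242224))))) (a (b (a (b (b (a (b (l 16446448) (l 16418448)) (l 16433104)) (a (l 16389912) (l 16404592))) (l 16357152)) (b (a (l 16439080) (l 16461200)) (l 16397472))) (a (b (l 16307888) (l 16260616)) (b (l 16345192) (l 16294456)))) (b (a (b (a (l 16476456) (l 16482904)) (l 16424304)) (b (a (l 16485456) (l 16490560)) (l 16407768))) (a (b (l 16369000) (l 16314632)) (b (b (l 16384872) (l 16356072)) (a (l 16312328) (l 16307664))))))), by decide +kernel⟩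

def k14_pm_102 : ∃ t, chk3 f_pm_102 t 2 5 1 = true :=
  ⟨(b (a (b (b (b (l 3) (l 2)) (l 2)) (l 2)) (a (a (b (b (b (l 66202217047) (b (l 16461712) (l 16455656))) (b (b (l 16449712) (l 16443592)) (a (l 2) (b (l 16425688) (a (l 2) (b (l 16408056) (l 16379056))))))) (b (l 16404408) (l 2))) (b (b (b (a (l 16449720) (l 16437224)) (a (l 16436160) (l 16422864))) (b (b (a (l 16426280) (l 16411496)) (a (l 16418080) (l 16399792))) (b (l 16393376) (b (a (l 16391064) (l 16368584)) (b (b (b (l 16373560) (a (l 16382696) (l 16359656))) (l 16369184)) (l 16368016)))))) (b (l 16334224) (l 16332768)))) (b (b (b (a (l 16420832) (a (l 16407000) (b (l 16403768) (l 16391584)))) (a (b (l 16408720) (a (l 16406688) (l 16392872))) (a (b (l 16391520) (l 16374488)) (l 16363560)))) (b (a (b (a (l 16395704) (l 16376256)) (l 16368568)) (b (l 16345184) (l 16326072))) (b (a (l 16350200) (l 16306232)) (b (a (a (l 16346192) (l 16323832)) (a (l 16301392) (l 16278800))) (a (b (b (b (l 16328120) (a (l 16315880) (l 16293240))) (l 16323368))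 (l 16322000)) (b (b (b (l 16282952) (a (l 16270680) (l 16248112))) (l 16278152)) (l 16276560))))))) (a (a (l 16306032) (l 16280928)) (a (l 16255808) (l 16230600)))))) (a (l 2) (a (a (l 2) (b (l 16303656) (l 2))) (a (b (l 16245200) (l 16207112)) (b (l 16185912) (l 16139440)))))), by decide +kernel⟩

def k15_pm_102 : ∃ t, chk3 f_pm_102 t 6 5 1 = true :=
  ⟨(b (b (b (a (a (b (a (b (l 16392832) (l 16373400)) (l 16362632)) (l 16331576)) (b (l 16328384) (l 16285192))) (a (b (l 16277128) (l 16233072)) (b (a (l 16233640) (l 16203688)) (a (l 16190960) (l 16174792))))) (a (b (a (a (l 16302376) (l 16279512)) (a (l 16255728) (l 16230856))) (b (a (l 16260720) (l 16212704)) (b (a (l 16244184) (b (l 16199912) (l 16195552))) (a (b (b (b (l 16237320) (a (l 16225440) (l 16202544))) (l 16232808)) (l 16230976)) (b (b (b (l 16192872) (b (l 16192664) (a (l 16179128) (l 16185792)))) (l 16192056)) (l 16189976)))))) (b (a (b (l 16201600) (l 16183400)) (a (l 16165120) (l 16162280))) (b (a (a (l 16177192) (l 16142288)) (l 16158616))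 (b (a (a (l 16151008) (l 16166072)) (l 16161152)) (a (l 16150808) (l 16142600))))))) (a (a (a (l 16205184) (l 16179456)) (a (l 16153784) (l 16138432))) (a (l 16125560) (l 16113400)))) (a (a (b (l 16125088) (l 16069240)) (a (l 16045712) (l 16022576))) (a (b (l 16039752) (l 15965016)) (b (l 16020808) (l 15939168))))), by decide +kernel⟩

def k16_pm_102 : ∃ t, chk3 f_pm_102 t 7 5 1 = true :=
  ⟨(a (b (b (a (b (b (a (l 16169336) (l 16195304)) (l 16177040)) (b (l 16164864) (b (l 16158312) (b (l 16158568) (l 16138392))))) (b (a (l 16194984) (l 16201472)) (b (a (l 16170256) (l 16173456)) (b (a (l 16160824) (l 16161912)) (a (b (l 16159064) (l 16158400)) (b (l 16158616) (l 16156848))))))) (a (l 16105752) (a (l 16102584) (l 16099768)))) (a (b (l 16007544) (l 15920112)) (a (l 15954304) (l 15948808)))) (a (b (b (b (a (l 16215904) (l 16245576)) (b (a (l 16184392) (l 16210320)) (a (b (l 16170560) (b (l 16165576) (l 16162576))) (b (l 16193992) (b (l 16187136) (l 16182760)))))) (a (l 16104392) (l 16123640))) (a (l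 15951344) (l 15969144))) (b (b (b (a (l 16261312) (a (l 16255936) (l 16238312))) (b (a (l 16222008) (l 16196592)) (b (a (l 16202944) (l 16171712)) (a (b (l 16194000) (l 16187920)) (b (l 16158936) (l 16149464)))))) (a (l 16127592) (l 16073696))) (a (b (l 16014264) (l 15900952)) (l 15711424))))), by decide +kernel⟩

def k17_pm_102 : ∃ t, chk3 f_pm_102 t 1 3 1 = true :=
  ⟨(a (a (l 2) (b (a (l 2) (b (a (l 2) (l 16089928)) (l 2))) (l 2))) (a (b (a (b (a (l 16007024) (a (l 15941992) (l 15907216))) (a (l 2) (l 15862080))) (b (a (l 15873856) (l 15837312)) (a (l 15790816) (l 15739360)))) (a (l 2) (b (l 15715200) (l 2)))) (a (b (a (b (l 15809192) (l 15698360)) (b (a (l 15793568) (l 15784016)) (l 15660504))) (a (b (l 15628912) (l 2)) (b (l 15579448) (l 15537008)))) (b (a (b (a (l 15783224) (a (l 15793120) (l 15790744))) (a (l 15655208) (b (l 15671000) (l 15590592)))) (b (a (l 15579960) (l 15582256)) (a (l 15506632) (l 15334040)))) (a (b (a (l 15554744) (l 15473896)) (a (l 15474240) (l 15348336))) (b (a (l 15320464)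 (l 15123992)) (a (l 15177480) (l 14961240)))))))), by decide +kernel⟩

theorem s18_pm_102 : ∃ t, chk3 f_pm_102 t 3 5 1 = true := ex3_a k15_pm_102 k16_pm_102

theorem s19_pm_102 : ∃ t, chk3 f_pm_102 t 1 5 1 = true := ex3_a k14_pm_102 s18_pm_102

theorem s20_pm_102 : ∃ t, chk3 f_pm_102 t 3 9 1 = true := ex3_a k12_pm_102 k13_pm_102

theorem s21_pm_102 : ∃ t, chk3 f_pm_102 t 125 130 1 = true := ex3_a k6_pm_102 k7_pm_102

theorem s22_pm_102 : ∃ t, chk3 f_pm_102 t 125 65 1 = true := ex3_b s21_pm_102 k8_pm_102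

theorem s23_pm_102 : ∃ t, chk3 f_pm_102 t 62 65 1 = true := ex3_a k5_pm_102 s22_pm_102

theorem s24_pm_102 : ∃ t, chk3 f_pm_102 t 62 32 1 = true := ex3_b k4_pm_102 s23_pm_102

theorem s25_pm_102 : ∃ t, chk3 f_pm_102 t 31 32 1 = true := ex3_a s24_pm_102 k9_pm_102

theorem s26_pm_102 : ∃ t, chk3 f_pm_102 t 31 16 1 = true := ex3_b s25_pm_102 k10_pm_102

theorem s27_pm_102 : ∃ t, chk3 f_pm_102 t 15 16 1 = true := ex3_a k3_pm_102 s26_pm_102

theorem s28_pm_102 : ∃ t, chk3 f_pm_102 t 15 8 1 = true := ex3_b s27_pm_102 k11_pm_102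

theorem s29_pm_102 : ∃ t, chk3 f_pm_102 t 7 8 1 = true := ex3_a k2_pm_102 s28_pm_102

theorem s30_pm_102 : ∃ t, chk3 f_pm_102 t 3 8 1 = true := ex3_a k1_pm_102 s29_pm_102

theorem s31_pm_102 : ∃ t, chk3 f_pm_102 t 3 4 1 = true := ex3_b s30_pm_102 s20_pm_102

theorem s32_pm_102 : ∃ t, chk3 f_pm_102 t 1 4 1 = true := ex3_a k0_pm_102 s31_pm_102

theorem s33_pm_102 : ∃ t, chk3 f_pm_102 t 1 2 1 = true := ex3_b s32_pm_102 s19_pm_102

theorem s34_pm_102 : ∃ t, chk3 f_pm_102 t 1 1 1 = true := ex3_b s33_pm_102 k17_pm_102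

theorem c_pm_102 : CertB 536870912 536870912 0 536870912 1040187392 5207648 3 eng mog cd0q1 cd1q0 pd2 true true false .npp 1 0 2
    ndB0q1 ndB1q0 pcB2 cut_pm_102 xt_pm_102 :=
  certB1 (fam := true) (s1 := true) (s2 := false) (a := 1) (b := 0) (c := 2) (cn := .npp) (n1 := ndB0q1) (n2 := ndB1q0) (pc := pcB2) (cut := cut_pm_102) (xt := xt_pm_102) (P1 := 536870912) (W1 := 536870912) (P2 := 0) (W2 := 536870912) (P3 := 1040187392) (W3 := 5207648) (N0 := 3) (En := eng) (mo := mog) (C1 := cd0q1) (C2 := cd1q0) (C3 := pd2)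
    rfl (fun _ => rfl) s34_pm_102

noncomputable def f_pm_112 : ℕ → ℕ → ℕ → ℕ → Bool := onCell 536870912 536870912 1073741824 536870912 1040187392 5207648
    (rowB 3 eng mog cd0q1 cd1q1 pd2 1 true true false .dn 1 1 2 (qsf 536870912 536870912 536870912 536870912 2) ndB0q1 ndB1q1 pcB2 Cut.none Ext.none)

def k0_pm_112 : ∃ t, chk3 f_pm_112 t 1 4 1 = true :=
  ⟨(a (a (l 3) (a (a (l 3) (l 1)) (l 1))) (l 1)), by decide +kernel⟩

def k1_pm_112 : ∃ t, chk3 f_pm_112 t 2 5 1 = true :=
  ⟨(b (a (b (b (a (l 3) (b (l 3) (a (a (l 3) (l 16201584)) (b (l 52243088791) (l 27010187655))))) (b (a (a (b (l 3) (l 16272848)) (b (l 16245152) (l 16261232))) (a (b (l 16223904) (l 16260784)) (b (l 16257016) (l 16272544)))) (b (a (a (b (l 16284704) (l 16292552)) (b (l 16273160) (l 16281056))) (a (b (l 16272600) (l 16280432)) (b (l 16283872) (l 16289728)))) (a (a (l 16304224) (b (l 16288904) (a (l 16298552) (b (b (b (l 16292016) (l 16291832)) (l 16292792)) (l 16295776))))) (b (a (b (l 16286272) (l 16287944)) (b (l 16292360)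 (a (l 16288560) (l 16286192)))) (b (b (b (a (l 16287416) (l 16278920)) (a (a (l 16254584) (l 16277912)) (a (l 16272808) (l 16271208)))) (a (l 16277896) (l 16268224))) (a (l 16280904) (l 16271104)))))))) (a (a (l 16329712) (b (l 16330288) (l 16389696))) (a (b (l 16293888) (l 16376856)) (b (a (l 16304872) (l 16302680)) (l 16341584))))) (a (a (b (b (b (a (l 79086619079) (l 1)) (a (l 46337555751) (l 16267960))) (b (b (l 16272376) (a (l 16276256) (l 16281472))) (b (b (a (l 16281896) (l 16290432)) (l 16277864)) (b (a (l 16290056) (l 16294600)) (b (b (b (l 16282032) (a (l 16252200) (l 16257752))) (l 16251688)) (l 16254424)))))) (a (l 16290992) (l 16295240))) (b (b (l 1) (b (l 1) (b (l 1) (b (l 1) (b (l 1) (l 16294136)))))) (a (l 16303136) (l 16314712)))) (b (l 1) (a (l 227665997575) (l 1))))) (a (b (a (a (l 16477912) (l 16471192)) (a (l 16421312) (l 16446264))) (a (l 16480304) (a (l 16565192) (l 16526872)))) (a (a (b (l 16438840) (l 16504256)) (b (l 16449448) (l 16499664))) (a (b (l 16477784) (l 16513576))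 (l 115460092295))))), by decide +kernel⟩

def k2_pm_112 : ∃ t, chk3 f_pm_112 t 3 5 1 = true :=
  ⟨(a (b (l 1) (a (a (l 149283056903) (l 1)) (l 1))) (l 1)), by decide +kernel⟩

def k3_pm_112 : ∃ t, chk3 f_pm_112 t 1 3 1 = true :=
  ⟨(a (a (b (a (b (b (l 16633152) (l 16623976)) (a (l 16329264) (l 16394216))) (b (a (l 16577448) (l 16475952)) (a (l 16557048) (l 16627592)))) (a (b (l 15809168) (a (b (l 15705048) (l 15507296)) (l 15732920))) (b (l 16073272) (l 15860680)))) (b (a (b (a (l 16551920) (l 16566808)) (b (l 16696400) (l 16671568))) (b (a (l 16578784) (l 16588312)) (b (l 16635216) (l 16715752)))) (a (b (a (l 16352368) (l 16507096)) (a (l 16069960) (l 16178880))) (b (a (l 16578224) (l 16620624)) (a (l 16280176) (l 16357688)))))) (a (b (a (b (a (l 16616784) (l 16630456)) (a (l 16674016) (l 16678912))) (b (a (l 16639440) (l 1)) (l 16496616))) (a (b (a (l 16632760) (l 16615128)) (a (l 16404280) (l 16418496))) (b (l 16476480) (a (l 16417912) (l 16421712))))) (a (b (a (b (l 1) (l 16537776)) (l 1)) (a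 (b (l 16492296) (l 16418976)) (b (l 16428040) (l 16393816)))) (b (l 1) (a (b (a (l 16404552) (l 1)) (a (l 16365192) (l 16250264))) (b (l 1) (l 15723544))))))), by decide +kernel⟩

theorem s4_pm_112 : ∃ t, chk3 f_pm_112 t 1 5 1 = true := ex3_a k1_pm_112 k2_pm_112

theorem s5_pm_112 : ∃ t, chk3 f_pm_112 t 1 2 1 = true := ex3_b k0_pm_112 s4_pm_112

theorem s6_pm_112 : ∃ t, chk3 f_pm_112 t 1 1 1 = true := ex3_b s5_pm_112 k3_pm_112

theorem c_pm_112 : CertB 536870912 536870912 536870912 536870912 1040187392 5207648 3 eng mog cd0q1 cd1q1 pd2 true true false .dn 1 1 2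
    ndB0q1 ndB1q1 pcB2 Cut.none Ext.none :=
  certB1 (fam := true) (s1 := true) (s2 := false) (a := 1) (b := 1) (c := 2) (cn := .dn) (n1 := ndB0q1) (n2 := ndB1q1) (pc := pcB2) (cut := Cut.none) (xt := Ext.none) (P1 := 536870912) (W1 := 536870912) (P2 := 536870912) (W2 := 536870912) (P3 := 1040187392) (W3 := 5207648) (N0 := 3) (En := eng) (mo := mog) (C1 := cd0q1) (C2 := cd1q1) (C3 := pd2)
    rfl (fun _ => rfl) s6_pm_112

noncomputable def f_pm_113 : ℕ → ℕ → ℕ → ℕ → Bool := onCell 536870912 536870912 536870912 536870912 1040187392 5207648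
    (rowB 3 eng mog cd0q1 cd1q1 pd3 0 true true false .nn 1 1 3 (qsf 536870912 536870912 536870912 536870912 3) ndB0q1 ndB1q1 pcB3 Cut.none Ext.none)

def k0_pm_113 : ∃ t, chk3 f_pm_113 t 2 1 1 = true :=
  ⟨(b (a (l 1) (b (l 1) (a (l 1) (b (l 1) (a (l 1) (l 16428528)))))) (b (a (b (l 1) (a (l 1) (l 149281846391))) (a (b (a (l 1) (l 84858053175)) (b (l 16103688) (l 15922760))) (b (l 63919493943) (a (b (l 16002464) (l 15840640)) (l 15816528))))) (a (b (a (l 153576081895) (l 15451864)) (a (b (l 15237832) (l 15167736)) (b (l 15307848) (a (l 15079624) (l 15048776))))) (b (a (l 15492696) (b (l 15588736) (l 15448024))) (a (b (l 15277976) (l 15037984)) (l 14948824)))))), by decide +kernel⟩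

def k1_pm_113 : ∃ t, chk3 f_pm_113 t 3 2 1 = true :=
  ⟨(a (b (a (l 1) (b (l 1) (a (l 1) (l 15569704)))) (a (b (a (l 1) (l 16345800)) (a (l 16351488) (l 16280544))) (b (a (b (l 16170024) (l 16290216)) (b (l 15890432) (l 16000040))) (a (a (l 16235320) (l 16219040)) (l 15933808))))) (a (b (a (b (l 1) (b (l 15431080) (l 15499104))) (a (b (l 1) (l 15225680)) (b (l 14872016) (b (l 15031752) (l 15108232))))) (a (b (b (l 15587600) (l 15695096)) (b (l 15819320) (l 15955584))) (b (a (l 15400848) (b (l 15214688) (l 15347816))) (a (l 15424600) (b (l 15503472) (l 15676312)))))) (b (a (b (a (a (l 201356052279) (l 14889832)) (l 14940728)) (a (b (l 15000048) (l 15112496)) (l 15127328))) (b (a (l 15010208) (l 15080504)) (a (l 15198288) (l 15264128)))) (a (b (a (l 15318952) (l 15391576)) (a (l 15646680) (l 15712064))) (b (a (l 15457392) (l 15511712)) (a (l 15765136) (l 15799768))))))), by decide +kernel⟩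

def k2_pm_113 : ∃ t, chk3 f_pm_113 t 3 3 1 = true :=
  ⟨(a (b (a (b (a (l 16057064) (l 15983112)) (a (l 15751416) (l 15672616))) (b (a (a (l 15933584) (l 15906008)) (l 15823536)) (a (b (l 15682408) (l 15525568)) (b (l 15634344) (l 15470344))))) (a (a (b (b (l 15528752) (l 15375776)) (l 15113624)) (b (l 15370216) (b (l 15157640) (l 14999728)))) (b (a (l 15300160) (b (l 15315136) (a (l 15186280) (l 15159248)))) (a (b (l 15091008) (l 14967872)) (a (l 14991872) (b (l 15034696) (l 14928464))))))) (b (a (a (b (b (l 15986472) (l 15805880)) (b (l 15625864) (l 15450392))) (b (a (b (l 15881624) (l 15840872)) (b (l 15857352) (l 15842112))) (a (b (l 15648944) (l 15465136)) (l 15555576)))) (a (b (a (l 15930672) (l 15929056)) (a (l 15555728) (l 15570088))) (b (a (l 15910024) (l 15866168)) (a (l 15572736) (l 15557440))))) (a (b (a (b (l 15284216) (l 15133200)) (a (b (l 15295952) (l 15148968)) (l 15238936))) (a (b (l 15004816) (a (l 14916592) (l 14913416))) (a (b (l 15033544) (l 14962656)) (l 15068472)))) (b (a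 (a (l 15269968) (l 15324728)) (a (l 15383880) (l 15442104))) (a (a (l 15187656) (a (l 15342744) (b (l 15356344) (b (l 15519800) (l 15774880))))) (b (a (l 15512856) (b (a (l 15618872) (l 15759128)) (a (l 15873520) (b (l 16017800) (l 16305912))))) (a (b (a (l 15725808) (b (l 15901432) (l 16144360))) (a (b (l 16018272) (l 16340632)) (b (l 16510528) (l 16451688)))) (b (a (b (l 16240128) (l 16562664)) (b (l 16599336) (l 16537208))) (a (b (l 16490696) (a (l 16429640) (l 16393032))) (b (a (l 16475584) (l 4)) (l 4))))))))))), by decide +kernel⟩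

theorem s3_pm_113 : ∃ t, chk3 f_pm_113 t 3 1 1 = true := ex3_b k1_pm_113 k2_pm_113

theorem s4_pm_113 : ∃ t, chk3 f_pm_113 t 1 1 1 = true := ex3_a k0_pm_113 s3_pm_113

theorem c_pm_113 : CertB 536870912 536870912 536870912 536870912 1040187392 5207648 3 eng mog cd0q1 cd1q1 pd3 true true false .nn 1 1 3
    ndB0q1 ndB1q1 pcB3 Cut.none Ext.none :=
  certB0 (fam := true) (s1 := true) (s2 := false) (a := 1) (b := 1) (c := 3) (cn := .nn) (n1 := ndB0q1) (n2 := ndB1q1) (pc := pcB3) (cut := Cut.none) (xt := Ext.none) (P1 := 536870912) (W1 := 536870912) (P2 := 536870912) (W2 := 536870912) (P3 := 1040187392) (W3 := 5207648) (N0 := 3) (En := eng) (mo := mog) (C1 := cd0q1) (C2 := cd1q1) (C3 := pd3)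
    rfl s4_pm_113

noncomputable def cut_pm_123_a : Cut := Cut.of [[⟨0, 1, 0, 15728640⟩, ⟨1, 1, 0, 15728640⟩, ⟨2, 2, 0, 524288⟩], [⟨0, 0, 1, 46137344⟩, ⟨1, 1, 0, 1048576⟩, ⟨2, 1, 1, 46137344⟩, ⟨0, 0, 0, 1054867456⟩, ⟨0, 1, 0, 38117834⟩, ⟨2, 1, 0, 1054867456⟩, ⟨2, 2, 0, 38117834⟩]]

noncomputable def xt_pm_123_a : Ext := extD3 3 ⟨4, 1, 1, 5, 33, 5, 163, 200, 81, 200, 1, 64⟩ eng cd0q1 cd1q2a pd3 true true false .npn 1 2 3 rfl ndB0q1 ndB1q2a pcB3

noncomputable def f_pm_123_a : ℕ → ℕ → ℕ → ℕ → Bool := onCell 1610612736 536870912 0 536870912 1040187392 5207648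
    (rowB 3 eng mog cd0q1 cd1q2a pd3 2 true true false .npn 1 2 3 (qsf 536870912 536870912 0 536870912 3) ndB0q1 ndB1q2a pcB3 cut_pm_123_a xt_pm_123_a)

def k0_pm_123_a : ∃ t, chk3 f_pm_123_a t 2 1 1 = true :=
  ⟨(b (a (a (l 1) (b (l 1) (a (l 1) (l 16064288)))) (b (a (a (b (l 16378008) (l 16288128)) (b (b (a (l 16444304) (l 16445376)) (l 16414504)) (l 16354120))) (b (a (b (l 16481600) (a (l 16456336) (b (l 16485752) (l 16469336)))) (a (b (l 16539072) (l 16498952)) (l 16543512))) (a (l 16411752) (b (a (l 16467352) (b (l 16493976) (l 16479248))) (l 16444432))))) (a (a (l 16165216) (l 16240120)) (a (l 16267048) (b (l 16399408) (l 16340368)))))) (a (b (a (l 1) (b (a (l 1) (l 15959296)) (a (l 15787440) (l 15873544)))) (a (b (a (l 1) (l 5936601431)) (b (a (l 15471920) (l 15542664)) (a (b (l 15466336) (l 15576488)) (b (l 15528200) (l 15632120))))) (b (a (l 15695896) (l 15781088)) (b (a (l 15620280) (l 15703960)) (b (a (l 15598464) (l 15676424)) (a (l 15694784) (l 15763808))))))) (b (a (b (a (l 16044056)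 (l 16126584)) (a (l 15960576) (l 16047448))) (b (a (l 16205728) (l 16280272)) (a (l 16132888) (l 16215400)))) (b (a (a (l 15869504) (l 15959984)) (a (l 15988120) (b (l 16160360) (l 16119248)))) (a (b (a (l 15792696) (l 15885208)) (b (a (l 15761080) (l 15851080)) (a (l 15838240) (l 15916600)))) (b (a (l 15979688) (l 16072968)) (b (a (l 15944328) (l 16036504)) (a (l 15996040) (l 15999544))))))))), by decide +kernel⟩

def k1_pm_123_a : ∃ t, chk3 f_pm_123_a t 3 2 1 = true :=
  ⟨(a (a (a (b (b (a (l 16567752) (l 16593032)) (b (a (l 16507512) (l 16533456)) (a (l 16478512) (b (l 16503200) (l 16489280))))) (b (l 16406160) (l 16399184))) (b (b (a (l 16619680) (l 16627032)) (a (b (l 16558968) (l 16518128)) (l 16566256))) (b (b (a (l 16490920) (b (l 16515096) (l 16501288))) (l 16477536)) (l 16449784)))) (b (a (a (b (l 16636376) (l 16595064)) (b (b (a (l 16723856) (l 109756402567)) (l 16689208)) (l 16626248))) (b (a (a (b (l 126936305607) (l 16714968)) (b (l 140358119207) (l 16711144))) (b (l 4) (a (l 123178193943)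 (l 113514554215)))) (a (l 16639144) (b (l 83986519319) (l 16675360))))) (a (a (b (b (l 16532712) (b (l 16508376) (l 16498600))) (l 16481504)) (b (b (l 16563904) (b (l 16532080) (l 16516520))) (l 16500648))) (b (a (l 16575896) (l 16611584)) (b (a (b (l 16526144) (l 16517480)) (b (l 16557592) (l 16537856))) (a (l 16511736) (l 16529112))))))) (b (a (a (b (l 4) (a (b (a (l 16700032) (l 114588288087)) (l 75933443687)) (a (l 104387676631) (l 145189925415)))) (l 4)) (l 4)) (a (a (b (a (l 16629880) (a (l 16682576) (l 16641120))) (a (b (l 16585408) (b (l 16552528) (l 16542392))) (b (l 16628304) (l 16582712)))) (a (b (a (b (l 16741440) (l 16706752)) (b (l 16753896) (l 16707408))) (b (l 16675688) (l 16631224))) (b (a (l 108145785127) (l 4)) (a (l 16629112) (b (l 16735472) (l 16697680)))))) (a (a (b (l 4) (a (b (l 124788834007) (l 16703632)) (b (l 4) (a (l 16742568) (l 16752064))))) (l 4)) (l 4))))), by decide +kernel⟩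

def k2_pm_123_a : ∃ t, chk3 f_pm_123_a t 6 3 1 = true :=
  ⟨(b (a (b (a (l 16348888) (l 16410224)) (a (l 16292984) (l 16362088))) (a (b (l 16463144) (l 16280048)) (b (l 16507896) (b (l 16413880) (l 16316312))))) (a (b (a (b (l 16243120) (l 16203664)) (b (l 16259816) (l 16149336))) (b (a (l 16112688) (l 15950600)) (a (b (l 15983736) (a (l 15905128) (l 15844648))) (b (l 15805976) (a (l 15787248) (l 15733472)))))) (b (a (b (l 16215368) (l 16026552)) (b (l 16199912) (a (l 16063776) (l 16058288)))) (b (a (a (l 15952448) (l 15919856)) (a (l 15895656) (l 15881784))) (a (b (l 15794928) (a (l 15684440) (b (l 15685384) (l 15596448)))) (b (a (l 15742856) (l 15721072)) (a (b (l 15649984) (l 15562216)) (b (l 15625208) (l 15538936))))))))), by decide +kernel⟩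

def k3_pm_123_a : ∃ t, chk3 f_pm_123_a t 7 6 1 = true :=
  ⟨(a (a (b (a (l 16537024) (b (b (l 16558016) (l 16552920)) (l 16551216))) (b (l 16456264) (l 16350912))) (b (a (b (b (l 16596888) (l 16556848)) (l 16572448)) (b (l 16639048) (a (l 16589296) (l 16608432)))) (b (a (l 16516768) (l 16570608)) (l 16311608)))) (a (a (b (a (l 16618408) (b (l 16692680) (l 16669536))) (b (a (l 16607672) (b (l 16634112) (l 16619280))) (l 16546768))) (b (a (b (a (l 16714360) (l 24930924535)) (l 16703680)) (b (a (l 211225059815) (l 4)) (a (l 16708096) (b (l 16752056) (l 16736920))))) (a (b (l 16658032) (b (l 16627944) (l 16591352))) (b (l 16675352) (b (l 16661256) (l 16638112)))))) (b (a (a (b (l 4) (a (l 222499335383) (l 4))) (l 4)) (l 4)) (b (a (a (a (l 16704440) (b (l 25467803351) (l 16735408))) (a (b (l 4) (l 160759216359)) (l 4))) (l 4)) (a (a (a (l 16681480) (l 16703912)) (a (l 16684576) (b (a (l 16751928) (l 211225132471)) (a (l 16733872) (l 16745736))))) (a (a (b (l 4) (a (l 47479515271) (l 4))) (l 4)) (l 4))))))),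 by decide +kernel⟩

def k4_pm_123_a : ∃ t, chk3 f_pm_123_a t 14 7 1 = true :=
  ⟨(b (a (b (a (l 16214144) (l 16239336)) (a (l 16064568) (l 16085240))) (b (a (l 16280280) (l 16340432)) (a (b (l 16166296) (l 16080200)) (b (l 16226968) (l 16141624))))) (a (b (a (l 15754968) (b (l 15948008) (l 15842648))) (b (a (l 15713312) (l 15724056)) (b (a (b (l 15633640) (l 15596680)) (a (l 15619592) (l 15630360))) (a (l 15530472) (a (l 15537264) (l 15550040)))))) (b (a (b (l 15984832) (l 15878656)) (b (l 16047728) (a (l 15924672) (l 15966752)))) (b (a (a (l 15748176) (l 15773960)) (a (l 15809352) (l 15856432))) (a (b (a (l 15648744) (b (l 15693712) (l 15659584))) (a (l 15571152) (l 15602688))) (b (b (l 15756224) (a (l 15699696) (l 15755032))) (a (b (l 15665200) (l 15629976)) (b (l 15724872) (a (l 15676640) (l 15714720)))))))))), by decide +kernel⟩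

def k5_pm_123_a : ∃ t, chk3 f_pm_123_a t 15 14 1 = true :=
  ⟨(a (a (b (l 16361248) (b (l 16314840) (l 16233352))) (a (b (l 16505360) (l 16386248)) (b (l 16505776) (a (l 16419616) (l 16479712))))) (b (a (a (b (a (l 16641864) (l 16667816)) (l 16612744)) (b (a (l 16691048) (l 16720008)) (a (l 16668384) (a (l 16689576) (l 16703648))))) (a (a (b (a (l 16740448) (l 16731432)) (l 16707584)) (a (b (b (l 4) (l 143579408023)) (l 16728736)) (b (l 4) (a (l 16737552) (l 308935615127))))) (l 4))) (a (a (b (l 16554920) (a (l 16469264) (l 16517888))) (b (a (l 16623456) (a (l 16658712) (l 16681120))) (a (l 16569832) (l 16623816)))) (a (a (b (a (b (l 16705768) (l 16693816)) (b (l 16722360) (l 16714608))) (b (l 16686472) (l 16666688))) (b (a (l 16733640) (l 16726616)) (a (b (l 16721592) (l 16707440)) (b (l 16733824) (a (l 16722864) (l 16727504)))))) (a (a (b (a (b (l 16760752) (l 16753040)) (b (l 522610265735) (l 16758664))) (b (l 16746640) (l 16714880))) (b (a (a (l 503819770247) (l 4)) (l 4)) (a (b (l 16734216)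 (l 16745104)) (b (a (l 16739160) (l 4)) (a (l 16749096) (l 16752064)))))) (a (b (l 4) (a (b (l 4) (a (l 523147081927) (l 4))) (l 4))) (l 4))))))), by decide +kernel⟩

def k6_pm_123_a : ∃ t, chk3 f_pm_123_a t 30 15 1 = true :=
  ⟨(a (b (b (l 16145224) (a (l 16019936) (l 16086368))) (b (a (l 15917912) (b (l 16019104) (l 15976808))) (b (a (a (l 15822056) (l 15864080)) (a (l 15912736) (l 15969064))) (a (b (a (l 15783720) (l 15831432)) (a (l 15759600) (l 15812448))) (b (a (b (l 15891080) (l 15883624)) (b (l 15954576) (l 15950744))) (a (b (l 15877312) (l 15872320)) (b (l 15948472) (l 15968984)))))))) (b (a (b (l 16248016) (b (l 16188192) (l 16149824))) (b (a (l 16310976) (l 16356896)) (a (b (l 16258576) (l 16227408)) (b (l 16310440) (l 16285384))))) (b (a (b (l 16114856) (a (l 16056440) (l 16118800))) (a (b (l 16202760) (a (l 16171144) (l 16208968))) (b (l 16269664) (a (l 16249296) (l 16292472))))) (a (b (a (l 16034216) (l 16109696)) (a (b (b (l 16028888) (l 16029656)) (b (l 16032600) (c (l 16087216) (l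 15988920)))) (b (b (l 16116296) (l 16123056)) (c (b (l 16204448) (l 137579586699591695)) (b (l 16082368) (l 16113304)))))) (a (b (a (l 16174264) (b (l 16215544) (l 16230264))) (b (a (b (l 16192280) (l 16204824)) (a (b (l 16234208) (l 16250200)) (l 138570659141058575))) (a (c (l 138661575039746063) (l 137340305430298639)) (b (l 138707204773396495) (c (b (l 139620349344989199) (l 140883001132498959)) (l 138266163102466063)))))) (a (b (b (l 16263816) (l 16285928)) (b (l 139175047084146703) (b (c (l 140313522819186703) (l 138896801839792143)) (c (b (l 140970893393788943) (b (l 141852495723298831) (l 14))) (l 140449793443266575))))) (b (b (l 16316152) (l 16451760)) (b (b (l 139877635091185679) (l 140387327510937615)) (b (c (l 141316827359297551) (l 139819292260565007)) (b (c (l 142036938874175503) (l 140090665533341711)) (l 14))))))))))), by decide +kernel⟩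

def k7_pm_123_a : ∃ t, chk3 f_pm_123_a t 31 30 1 = true :=
  ⟨(b (a (a (a (l 16406896) (l 16461696)) (a (l 16520832) (a (l 16567384) (l 16598120)))) (a (a (b (l 16649808) (l 16639632)) (b (a (l 16693872) (l 16722624)) (l 16703368))) (a (a (b (a (b (l 16726160) (l 16724504)) (b (l 16731480) (l 16727160))) (l 143733004597411855)) (b (a (l 16735000) (l 16740560)) (a (l 143536879194832911) (l 143410504065548303)))) (a (a (b (a (l 16744560) (l 143563267495591951)) (l 143586357259681807)) (b (a (l 656827929783) (l 4)) (a (l 143523341465485327) (a (l 172570356215) (l 733600463095))))) (l 4))))) (a (a (a (l 16378168) (l 16486560)) (a (b (l 16497992) (l 16498112)) (b (l 16590744) (a (l 16560032) (l 16602104))))) (b (a (a (l 16641664) (l 16712544)) (a (a (l 16725168) (a (l 16726112) (b (l 143683526580273167) (l 16728336)))) (a (a (a (l 143695896092639247) (l 16733192)) (a (l 16735736) (l 143702630575177743))) (a (a (a (b (l 16741832) (l 16739920)) (b (l 4) (l 16742000))) (l 4)) (l 4))))) (a (a (l 16665520)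 (l 597358174755603830398991)) (a (l 143767295628722191) (a (a (l 143822683491647503) (a (b (l 16735752) (l 16737880)) (b (l 16738488) (l 143911950147567695)))) (a (a (b (l 16741040) (l 16742720)) (b (a (l 143861991094943823) (l 1868545595415)) (a (l 16744344) (a (l 16745240) (l 707830676119))))) (a (a (a (a (l 2103695058967) (l 4)) (l 4)) (l 4)) (l 4))))))))), by decide +kernel⟩

def k8_pm_123_a : ∃ t, chk3 f_pm_123_a t 124 31 1 = true :=
  ⟨(b (a (b (l 16344712) (b (l 16355440) (l 16456984))) (b (l 16491672) (b (l 16454552) (l 140969244195029007)))) (b (a (b (l 140061803333140495) (l 140974329359695887)) (b (l 141532881443930127) (l 142365624214355983))) (b (a (b (l 142455096918229007) (a (l 141147983572320271) (l 142193894202343439))) (a (l 143381092036362255) (l 143558182255067151))) (b (a (c (l 143551791298854927) (l 142999080432402447)) (a (c (l 143723521316634639) (l 143280830375264271)) (c (l 143724139797954639) (l 143704279867850767)))) (b (b (a (c (l 143456477385015311) (l 142815393212596239))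 (c (l 143608965954175055) (l 143501557410938895))) (l 14)) (l 14)))))), by decide +kernel⟩

def k9_pm_123_a : ∃ t, chk3 f_pm_123_a t 125 62 1 = true :=
  ⟨(a (b (b (l 16512808) (l 16533312)) (b (l 16566312) (l 595875804591162995302415))) (b (a (l 16597144) (l 16649560)) (a (l 16689552) (l 16720712)))), by decide +kernel⟩

def k10_pm_123_a : ∃ t, chk3 f_pm_123_a t 125 126 1 = true :=
  ⟨(a (a (l 143294917877170191) (b (l 16722048) (l 601088740419302557982735))) (a (b (l 16723088) (l 601510133171580723142671)) (b (l 16727656) (l 602178539289288141955151)))), by decide +kernel⟩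

def k11_pm_123_a : ∃ t, chk3 f_pm_123_a t 250 127 1 = true :=
  ⟨(b (a (l 143529320079622159) (a (l 143684694820061199) (b (l 16731056) (l 601033112015941481996367)))) (b (a (c (l 143723452609118287) (l 143706959933407311)) (c (l 143719810482716879) (l 143706891219828815))) (b (b (c (l 143680434222612687) (l 143622916019585103)) (l 14)) (l 14)))), by decide +kernel⟩

def k12_pm_123_a : ∃ t, chk3 f_pm_123_a t 251 254 1 = true :=
  ⟨(a (b (a (l 16732128) (l 16733224)) (a (l 601807875249376380118095) (b (l 16735640) (l 602495592919658823476431)))) (a (a (b (l 16734896) (l 602561309447826597455055)) (l 602345136689627192927439)) (a (l 601541838500794090546383) (l 601101710766575649236175)))), by decide +kernel⟩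

def k13_pm_123_a : ∃ t, chk3 f_pm_123_a t 502 255 1 = true :=
  ⟨(b (a (b (l 601501486390588318491855) (l 143719810487894223)) (b (l 602138763741951834432719) (c (l 601747635156767056815311) (l 601721982645180655117519)))) (b (c (a (l 143748466513117391) (l 143756987731427535)) (b (l 143735959568302287) (l 143750940415836367))) (a (l 14) (a (l 14) (a (l 14) (a (l 14) (a (l 14) (a (l 14) (a (l 14) (a (l 14) (a (l 14) (a (l 14) (b (c (l 143792446985404623) (l 143783719611171023)) (c (b (l 143808527344173263) (b (c (l 143819041424867535) (l 143814437219647695)) (c (b (l 143823164593782991) (c (c (l 143827700079542479) (l 143826531848454351)) (c (c (l 143825707214602447) (l 143825088739279055)) (c (l 143824538983432399) (l 143823920508109007))))) (c (c (c (l 143821996362612943) (l 143821377887289551)) (c (l 143820828131442895) (l 143820209656119503))) (c (c (l 143819659900272847) (l 143819041424949455)) (c (l 143818491669102799) (l 143817873193779407))))))) (b (c (l 143801792834994383) (l 143797188629758159))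 (b (c (l 143809833014427855) (l 143805160089714895)) (c (b (l 143813887463866575) (c (c (c (l 143818697827582159) (l 143818079352258767)) (c (l 143817529596395727) (l 143816911121072335))) (b (l 143814780817162447) (c (c (l 143816979840581839) (l 143816430084735183)) (c (l 143815811609411791) (b (l 143814918256148687) (l 143815536731488463))))))) (c (c (c (c (l 143812719232729295) (l 143812444354805967)) (c (l 143812169477226703) (l 143811825879826639))) (c (c (l 143811551001903311) (l 143811276123799759)) (b (l 143809489417109711) (c (l 143812306915885263) (l 143812032037961935))))) (b (l 143807977588539599) (b (l 143809970453528783) (c (c (c (l 143812375635378383) (l 143812100757455055)) (c (l 143811757160054991) (l 143811482282131663))) (b (l 143810382770438351) (c (c (l 143811551001624783) (l 143811207404224719)) (c (l 143810932526301391) (c (l 143810657648378063) (l 143810520209424591)))))))))))))))))))))))))), by decide +kernel⟩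

def k14_pm_123_a : ∃ t, chk3 f_pm_123_a t 1006 510 2 = true :=
  ⟨(a (l 602003295507010697045199) (l 601545585722664499799247)), by decide +kernel⟩

def k15_pm_123_a : ∃ t, chk3 f_pm_123_a t 1006 1022 2 = true :=
  ⟨(a (l 143787774060626127) (l 143748603962966223)), by decide +kernel⟩

def k16_pm_123_a : ∃ t, chk3 f_pm_123_a t 1006 1023 4 = true :=
  ⟨(b (a (b (l 143816086487154895) (l 143826050812051663)) (l 143858211530653903)) (b (a (a (l 143824126666506447) (l 143843917877723343)) (l 143857730495381711)) (a (a (a (b (l 143825775934062799) (b (c (l 143830861175718095) (l 143828524713361615)) (a (b (c (l 143829830383468751) (l 143827493921128655)) (b (c (l 143830861175701711) (l 143828524713361615)) (a (c (c (l 143830448858808527) (l 143829280627474639)) (c (c (l 143828387274391759) (l 143827837518545103)) (c (l 143827219043221711) (l 143826669287375055)))) (a (c (c (l 143832991479611599) (l 143831823248441551)) (c (l 143830655017271503) (l 143829486786117839))) (c (c (c (l 143834778186154191)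 (l 143834159710830799)) (c (l 143833609954984143) (l 143832991479660751))) (c (c (l 143832441723814095) (l 143831823248490703)) (c (l 143831204773167311) (l 143830655017320655)))))))) (b (c (l 143835259222606031) (l 143832854040789199)) (b (c (l 143835465381101775) (l 143833128918761679)) (c (c (l 143836015136997583) (l 143834846905827535)) (c (l 143833678674673871) (l 143832510443503823)))))))) (b (l 143836771051290831) (b (l 143837733124260047) (c (c (l 143839176233566415) (l 143838008002396367)) (c (l 143836839770882255) (l 143835671539810511)))))) (b (l 143844398914617551) (b (l 143843849159098575) (b (c (l 143844742512492751) (l 143842474769629391)) (c (c (l 143845086109663439) (l 143843986597970127)) (c (l 143842887086293199) (l 143841718855123151))))))) (b (l 143856493545324751) (a (c (c (l 143853332448919759) (l 143852232937242831)) (c (l 143851133425549519) (l 143850033913856207))) (c (l 143860547995795663) (l 143858486411378895))))))), by decide +kernel⟩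

def k17_pm_123_a : ∃ t, chk3 f_pm_123_a t 1006 1023 5 = true :=
  ⟨(b (a (l 143771075229941967) (l 143853126289064143)) (b (a (a (l 143819385022316751) (l 143838970075103439)) (l 143853057570685135)) (a (b (a (a (l 143821034289889487) (l 143831891968164047)) (l 143839657270460623)) (a (a (b (c (l 143826119531544783) (l 143823783069204687)) (a (b (c (l 143825157458788559) (l 143822752276971727)) (a (c (c (c (l 143825707214635215) (l 143825157458788559)) (c (l 143824538983465167) (l 143823989227618511))) (c (c (l 143823370752295119) (l 143822820996448463)) (c (l 143822202521125071) (l 143821584045801679)))) (a (c (c (l 143827906237972687) (c (l 143827012884807887) (l 143826463128961231))) (c (c (l 143825844653637839) (l 143825226178314447)) (c (l 143824676422467791) (l 143824057947144399)))) (b (c (l 143828662152364239) (l 143826256970547407)) (c (c (c (l 143830036541997263) (l 143829418066673871)) (c (l 143828868310827215) (l 143828249835503823))) (c (c (l 143827631360180431) (l 143827081604333775))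 (c (l 143826463129010383) (l 143825844653686991)))))))) (b (c (l 143830517578449103) (l 143828112396632271)) (b (c (l 143830723736961231) (l 143828387274621135)) (c (c (l 143831342212153551) (c (l 143830448859087055) (l 143829830383763663))) (c (c (l 143829280627917007) (l 143828662152593615)) (c (l 143828043677270223) (l 143827425201946831)))))))) (b (l 143832991480103119) (c (b (l 143834022272467151) (c (l 143834434589130959) (l 143833266357960911))) (c (a (l 143831136053985487) (l 143833197638926543)) (c (l 143831273493299407) (l 143830723737452751)))))) (a (b (l 143837183369117903) (c (c (l 143838626478424271) (l 143837526966730959)) (c (l 143836358735560911) (l 143835190504390863)))) (c (c (l 143842887086817487) (l 143841718855647439)) (c (l 143840619343954127) (l 143839451112800463)))))) (b (l 143852026779091151) (a (c (c (l 143848934402162895) (l 143847834890485967)) (c (l 143846735378792655) (l 143845635867099343))) (c (l 143856356106813647) (l 143854294522380495))))))), by decide +kernel⟩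

def k18_pm_123_a : ∃ t, chk3 f_pm_123_a t 1007 255 2 = true :=
  ⟨(b (l 143677754184827087) (b (l 143840275750961359) (b (l 143882332072591567) (c (b (l 143881232562012367) (b (l 143879583294537935) (a (c (l 143871955430998223) (b (l 143870306164031695) (l 143869825127186639))) (c (l 143886661403295951) (l 143884943416279247))))) (b (l 143877178112655567) (b (l 143875803723006159) (a (b (l 143867351226368207) (c (l 143867900981739727) (l 143865976836276431))) (c (l 143883225429262543) (l 143881438722769103))))))))), by decide +kernel⟩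

def k19_pm_123_a : ∃ t, chk3 f_pm_123_a t 503 510 3 = true :=
  ⟨(a (b (l 601999260282225608942799) (l 601281854911993007318223)) (l 143666140592226511)), by decide +kernel⟩

def k20_pm_123_a : ∃ t, chk3 f_pm_123_a t 503 1022 3 = true :=
  ⟨(a (a (l 143778909247291599) (l 143738089882239183)) (l 143784338096177359)), by decide +kernel⟩

def k21_pm_123_a : ∃ t, chk3 f_pm_123_a t 503 2046 3 = true :=
  ⟨(a (a (c (l 143766333585703119) (l 143761454502527183)) (c (l 143847972327997647) (l 143842749647454415))) (l 143873123662135503)), by decide +kernel⟩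

def k22_pm_123_a : ∃ t, chk3 f_pm_123_a t 503 4094 3 = true :=
  ⟨(a (a (c (a (l 143814643378127055) (l 143834022272483535)) (a (l 143809833014444239) (l 143828937030926543))) (c (l 143848315926511823) (l 143843505562878159))) (c (l 143873054943805647) (l 143868863055478991))), by decide +kernel⟩

def k23_pm_123_a : ∃ t, chk3 f_pm_123_a t 1006 8190 3 = true :=
  ⟨(a (c (a (a (l 143816292645716175) (l 143827012885037263)) (l 143834915626303695)) (a (c (l 143817735755006159) (l 143815330573172943)) (l 143830036543176911))) (c (l 143847491293380815) (l 143842955807654095))), by decide +kernel⟩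

def k24_pm_123_a : ∃ t, chk3 f_pm_123_a t 8048 8191 6 = true :=
  ⟨(b (c (l 143821377887387855) (l 143818972705554639)) (c (b (a (l 143820415814631631) (l 143825707214815439)) (b (a (l 143820003497853135) (l 143825982092804303)) (a (a (c (c (l 143821377887371471) (l 143820759412048079)) (c (l 143820209656201423) (l 143819591180878031))) (a (c (c (l 143823783069237455) (l 143823233313390799)) (c (l 143822614838067407) (l 143821996362744015))) (c (c (l 143825226178363599) (l 143824676422516943)) (c (l 143824057947193551) (l 143823439471870159))))) (c (c (l 143826875446100175) (l 143826256970776783)) (c (l 143825638495453391) (l 143825088739606735)))))) (b (a (l 143818010632814799) (l 143823233313521871)) (c (a (b (l 143819591180894415) (a (c (l 143818972705554639) (l 143818354230231247)) (a (c (l 143821377887420623) (l 143820828131573967)) (c (l 143822820996546767) (l 143822202521223375))))) (b (l 143824126666834127) (c (l 143824470264283343) (l 143823851788959951)))) (a (a (c (c (l 143817598315937999)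 (l 143817323438014671)) (c (l 143816979840614607) (l 143816704962691279))) (a (c (l 143819866058834127) (l 143819247583510735)) (b (l 143820828131590351) (c (l 143821652765376719) (l 143821034290053327))))) (b (l 143822958435664079) (c (l 143823233313636559) (l 143822614838313167)))))))), by decide +kernel⟩

def k25_pm_123_a : ∃ t, chk3 f_pm_123_a t 8048 8191 7 = true :=
  ⟨(b (c (l 143816567523737807) (l 143814093622444239)) (c (a (b (l 143815605450997967) (a (c (c (c (l 143816430084767951) (l 143816086487367887)) (c (l 143815811609444559) (l 143815468012044495))) (c (c (l 143815193134121167) (l 143814918256197839)) (c (l 143814574658797775) (l 143814299780874447)))) (a (c (c (l 143818629108187343) (l 143818010632863951)) (c (l 143817460877017295) (l 143816842401693903))) (b (l 143818972705620175) (c (c (l 143820415814729935) (l 143819797339406543)) (c (l 143819178864083151) (l 143818560388759759))))))) (b (l 143820828131705039) (c (b (l 143821721485017295) (c (l 143821996362989775) (l 143821446607143119)))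 (b (l 143820484534370511) (c (l 143820828131819727) (l 143820209656496335)))))) (b (c (l 143814505939501263) (l 143813681305714895)) (c (a (b (l 143814780817260751) (a (c (c (l 143814299780874447) (l 143814024902951119)) (c (l 143813750025027791) (l 143813406427463887))) (a (c (l 143816567523786959) (l 143815949048463567)) (c (l 143817941913436367) (l 143817323438112975))))) (b (l 143819247583723727) (c (l 143819591181172943) (l 143818972705849551)))) (a (b (l 143813543866613967) (b (l 143814024902983887) (c (a (c (l 143813268988674255) (l 143812994110669007)) (a (l 143815468012110031) (l 143816842401759439))) (a (c (c (l 143812719232827599) (l 143812581793874127)) (c (l 143812444354904271) (l 143812306915950799))) (a (l 143814849536786639) (l 143816223926436047)))))) (b (l 143818010633076943) (c (l 143818354230526159) (l 143817735755202767)))))))), by decide +kernel⟩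

def k26_pm_123_a : ∃ t, chk3 f_pm_123_a t 8049 8191 3 = true :=
  ⟨(c (c (b (l 143829349347639503) (c (c (l 143830105262129359) (l 143829486786805967)) (c (l 143828937030959311) (l 143828318555635919)))) (b (l 143826944165822671) (c (c (l 143827700080312527) (l 143827150324465871)) (c (l 143826531849142479) (l 143825913373819087))))) (c (b (l 143824470264512719) (c (c (l 143825294898495695) (l 143824745142649039)) (c (l 143824126666997967) (l 143823508191674575)))) (b (l 143822065082695887) (c (c (l 143822889716351183) (l 143822271241027791)) (c (l 143821721485263055) (l 143821103009939663)))))), by decide +kernel⟩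

def k27_pm_123_a : ∃ t, chk3 f_pm_123_a t 4025 8191 3 = true :=
  ⟨(c (a (b (l 143832441724960975) (c (c (l 143834022273237199) (l 143832854042067151)) (c (l 143831685810897103) (l 143830517579399375)))) (c (c (l 143838282881630415) (l 143837183369937103)) (c (l 143836015138767055) (l 143834846907597007)))) (c (b (l 143830998616228047) (c (a (l 143829349348229327) (l 143833609957064911)) (c (l 143830586299154639) (l 143830036543307983)))) (b (l 143828662153887951) (b (l 143828593434575055) (c (c (l 143829418068115663) (l 143828799592792271)) (c (l 143828249836945615) (l 143827631361622223))))))), by decide +kernel⟩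

def k28_pm_123_a : ∃ t, chk3 f_pm_123_a t 2013 8191 3 = true :=
  ⟨(a (c (c (c (l 143844536355406031) (l 143843436843729103)) (c (l 143842268612559055) (l 143841169100865743))) (c (c (l 143840069588844751) (l 143838901357674703)) (c (l 143837801845997775) (l 143836633614827727)))) (b (c (l 143851202146336975) (l 143846872819056847)) (c (c (l 143852026779631823) (l 143849896475738319)) (c (l 143847766171844815) (c (l 143846116904992975) (l 143845086112776399)))))), by decide +kernel⟩

def k29_pm_123_a : ∃ t, chk3 f_pm_123_a t 1007 4095 3 = true :=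
  ⟨(a (a (c (c (l 143860547996991695) (l 143858486412574927)) (c (l 143856356108681423) (l 143854225804787919))) (c (c (l 143868519458144463) (l 143866526593204431)) (c (l 143864533728264399) (l 143862472143847631)))) (c (c (l 143880133052448975) (l 143878277626462415)) (c (l 143876422200492239) (l 143874566774522063)))), by decide +kernel⟩

def k30_pm_123_a : ∃ t, chk3 f_pm_123_a t 63 62 1 = true :=
  ⟨(b (a (a (l 599103409553803665006607) (l 599228213401647691309071)) (a (l 143639271261159439) (a (a (l 16742984) (b (l 143760354986737871) (l 16747552))) (a (a (b (l 143702012141027535) (l 16749216)) (b (a (l 16747160) (l 16748040)) (a (l 143781177004949711) (l 143751077876809935)))) (a (b (a (a (l 16748832) (l 19617239275030338558381490383)) (l 4)) (a (l 16752200) (a (b (l 1036395685575) (l 16753496)) (b (l 4) (l 35004447107085300486024102095))))) (l 4)))))) (a (a (l 600974024641976852832271) (l 597132778478033046462479)) (a (l 143597352403681359) (a (l 143713076011679823) (a (a (l 16757080) (b (a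 (l 16755392) (l 143817323460051023)) (l 16760712))) (a (a (b (a (l 143806190906376271) (l 16756768)) (l 143884531118538831)) (a (b (l 16756616) (b (l 143858830032896079) (l 16762184))) (b (b (l 143772243483754575) (l 16757840)) (b (l 16760104) (l 143894495445975119))))) (a (a (a (b (b (l 2481652193079) (l 16758104)) (l 16761280)) (b (b (l 4) (l 6)) (l 6))) (b (l 4) (l 6))) (b (l 4) (l 6))))))))), by decide +kernel⟩

def k31_pm_123_a : ∃ t, chk3 f_pm_123_a t 126 63 1 = true :=
  ⟨(b (a (b (l 600399005117420507537487) (a (l 16741816) (l 16739152))) (a (l 143701050100351183) (l 143798081971454031))) (a (b (a (b (l 16736448) (l 143750528117965007)) (l 143855256613322831)) (b (a (b (l 143769769575694543) (l 143852988842344655)) (l 143926243830677583)) (b (a (c (l 143846941551919183) (l 143838351595257935)) (a (l 143930985482862671) (l 144001422953627727))) (b (a (a (c (l 143912912247193807) (l 143905353104277711)) (c (l 143940881081450575) (l 143934971206041679))) (c (l 143887623486554191) (l 143884256231899215)))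 (a (a (a (b (c (l 143901573532483791) (l 143894564145430735)) (c (c (l 143900611460448463) (l 143897450364321999)) (c (l 143894289267523791) (c (l 143891815366901967) (l 143890166099361999))))) (c (c (l 143915661029113935) (l 143912843530387535)) (c (l 143909888592707791) (l 143906796216058063)))) (c (c (l 143935039924043855) (l 143932772181164111)) (c (l 143930435718791247) (l 143928030536941647)))) (a (c (l 143934971211137103) (c (l 143955243459280975) (l 143953731630661711))) (c (l 143977439856705615) (l 143976202905944143)))))))) (a (b (l 143925075573915727) (b (b (l 143901023808716879) (l 143878483820413007)) (a (b (l 144023138314993743) (a (a (c (l 143993726376443983) (l 143992970462003279)) (b (l 144003347104645199) (c (l 603641020766400857400911) (b (l 143994688450363471) (l 603828082278118136456783))))) (b (c (l 603845664351679236499023) (l 603428018536360528062031)) (b (c (l 603944239131389589677647) (l 603906192722287319393871)) (c (l 603815400147614777255503) (l 603825776442187030914639))))))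 (c (b (l 603576457213270172198479) (b (l 603757465869770956432975) (a (l 603968450488552613619279) (l 604154215074490448123407)))) (b (l 603536104959784298571343) (b (l 603720572382379451409999) (b (a (l 604092101324182305547855) (l 603902878186486155564559)) (a (l 603962253643973405365775) (l 604149315158095868777999))))))))) (b (l 143962184104247375) (b (b (b (l 603120765069732027917903) (l 603365472473610964887119)) (b (l 603516216948312401438287) (l 603718843067330200462927))) (b (b (a (l 16770056) (l 603940059905009738044943)) (a (l 604016296777448172021327) (l 604407569575127813150223))) (c (a (b (l 604141532937939777345039) (a (l 604343294201245973403151) (l 604536120322891470804495))) (b (l 604472997870514250389007) (l 604675335594572750640655))) (b (a (l 604109251135810785515023) (l 604446192445532141131279)) (a (b (a (l 604095127847379349755407) (l 604291124503162516051471)) (a (l 604340123667108304295439) (l 604534679171010711934479))) (b (l 604658330002379799975439) (l 604654006546737523627535))))))))))),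 by decide +kernel⟩

def k32_pm_123_a : ∃ t, chk3 f_pm_123_a t 127 63 1 = true :=
  ⟨(a (b (b (l 143817804505120847) (l 143972560737255503)) (a (b (b (l 16771264) (l 16774608)) (b (b (l 16775712) (b (l 604119771361059332482639) (l 16777336))) (a (b (l 604395463899329444222479) (c (l 604637577415296879203855) (l 604615383676333197399567))) (b (l 16775256) (c (l 604556584679598249317903) (l 604539290857029146613263)))))) (a (b (l 16762784) (b (l 604149747319904231859791) (b (l 16775696) (b (l 604482509472927261103631) (c (l 604421404633183096854031) (b (l 16775568) (l 604432933848229165028879))))))) (b (l 16768216) (b (l 604042813854337676404303) (b (l 604258698581722291103311) (b (l 604339403078523553424975) (c (l 604276568850062848157263) (b (l 16776040) (l 604285503991929709389391)))))))))) (a (b (b (l 143963902118920271) (a (l 16768344) (l 16768896))) (a (b (l 603179852096044815722063) (b (l 603898122209151627486799) (b (l 604120636151762309195343) (b (l 604220652129670346876495) (c (l 604216328690658183390799)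 (b (l 604163294326391438812751) (l 604226128523309902374479))))))) (b (l 603121341330579371451983) (b (l 603910227886942884767311) (b (l 604103918795168179365455) (b (l 144075983614099535) (c (l 144104708353015887) (b (l 144117765055217743) (l 144104158598332495))))))))) (a (b (b (l 16754608) (l 143920402703499343)) (b (b (l 143922876610953295) (l 143931878866305103)) (b (l 144032140575768655) (b (b (l 144038394050347087) (l 144083336593735759)) (b (l 144102715485651023) (a (c (l 144108556645548111) (l 144108968961097807)) (a (c (l 144109724876914767) (l 144109999754838095)) (c (l 144110137192595535) (l 144115978348806223))))))))) (a (b (a (l 16762696) (a (l 16757320) (b (l 16761488) (l 16769672)))) (b (l 143926175125831759) (b (l 144027261491773519) (b (l 144078732387762255) (a (b (l 144079144705146959) (c (l 144115016276115535) (l 144115153715085391))) (b (l 144098592319324239) (a (c (l 144113916764454991) (l 144113985483948111)) (c (l 144115978349084751) (l 144116047068561487))))))))) (a (a (a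 (b (b (b (l 143928511591252047) (l 16766656)) (l 16769624)) (b (l 16773168) (b (l 16775504) (b (l 16776560) (b (l 144074265627050063) (c (l 144115428593614927) (l 144115428593614927))))))) (l 6)) (l 6)) (l 6)))))), by decide +kernel⟩

theorem s33_pm_123_a : ∃ t, chk3 f_pm_123_a t 63 63 1 = true := ex3_a k31_pm_123_a k32_pm_123_a

theorem s34_pm_123_a : ∃ t, chk3 f_pm_123_a t 63 31 1 = true := ex3_b k30_pm_123_a s33_pm_123_a

theorem s35_pm_123_a : ∃ t, chk3 f_pm_123_a t 8048 8191 3 = true := ex3_c k24_pm_123_a k25_pm_123_a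

theorem s36_pm_123_a : ∃ t, chk3 f_pm_123_a t 4024 8191 3 = true := ex3_a s35_pm_123_a k26_pm_123_a

theorem s37_pm_123_a : ∃ t, chk3 f_pm_123_a t 2012 8191 3 = true := ex3_a s36_pm_123_a k27_pm_123_a

theorem s38_pm_123_a : ∃ t, chk3 f_pm_123_a t 1006 8191 3 = true := ex3_a s37_pm_123_a k28_pm_123_a

theorem s39_pm_123_a : ∃ t, chk3 f_pm_123_a t 1006 4095 3 = true := ex3_b k23_pm_123_a s38_pm_123_a

theorem s40_pm_123_a : ∃ t, chk3 f_pm_123_a t 503 4095 3 = true := ex3_a s39_pm_123_a k29_pm_123_a

theorem s41_pm_123_a : ∃ t, chk3 f_pm_123_a t 503 2047 3 = true := ex3_b k22_pm_123_a s40_pm_123_a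

theorem s42_pm_123_a : ∃ t, chk3 f_pm_123_a t 503 1023 3 = true := ex3_b k21_pm_123_a s41_pm_123_a

theorem s43_pm_123_a : ∃ t, chk3 f_pm_123_a t 503 511 3 = true := ex3_b k20_pm_123_a s42_pm_123_a

theorem s44_pm_123_a : ∃ t, chk3 f_pm_123_a t 503 255 3 = true := ex3_b k19_pm_123_a s43_pm_123_a

theorem s45_pm_123_a : ∃ t, chk3 f_pm_123_a t 1006 1023 2 = true := ex3_c k16_pm_123_a k17_pm_123_a

theorem s46_pm_123_a : ∃ t, chk3 f_pm_123_a t 1006 511 2 = true := ex3_b k15_pm_123_a s45_pm_123_a

theorem s47_pm_123_a : ∃ t, chk3 f_pm_123_a t 1006 255 2 = true := ex3_b k14_pm_123_a s46_pm_123_a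

theorem s48_pm_123_a : ∃ t, chk3 f_pm_123_a t 503 255 2 = true := ex3_a s47_pm_123_a k18_pm_123_a

theorem s49_pm_123_a : ∃ t, chk3 f_pm_123_a t 503 255 1 = true := ex3_c s48_pm_123_a s44_pm_123_a

theorem s50_pm_123_a : ∃ t, chk3 f_pm_123_a t 251 255 1 = true := ex3_a k13_pm_123_a s49_pm_123_a

theorem s51_pm_123_a : ∃ t, chk3 f_pm_123_a t 251 127 1 = true := ex3_b k12_pm_123_a s50_pm_123_a

theorem s52_pm_123_a : ∃ t, chk3 f_pm_123_a t 125 127 1 = true := ex3_a k11_pm_123_a s51_pm_123_a

theorem s53_pm_123_a : ∃ t, chk3 f_pm_123_a t 125 63 1 = true := ex3_b k10_pm_123_a s52_pm_123_a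

theorem s54_pm_123_a : ∃ t, chk3 f_pm_123_a t 125 31 1 = true := ex3_b k9_pm_123_a s53_pm_123_a

theorem s55_pm_123_a : ∃ t, chk3 f_pm_123_a t 62 31 1 = true := ex3_a k8_pm_123_a s54_pm_123_a

theorem s56_pm_123_a : ∃ t, chk3 f_pm_123_a t 31 31 1 = true := ex3_a s55_pm_123_a s34_pm_123_a

theorem s57_pm_123_a : ∃ t, chk3 f_pm_123_a t 31 15 1 = true := ex3_b k7_pm_123_a s56_pm_123_a

theorem s58_pm_123_a : ∃ t, chk3 f_pm_123_a t 15 15 1 = true := ex3_a k6_pm_123_a s57_pm_123_a

theorem s59_pm_123_a : ∃ t, chk3 f_pm_123_a t 15 7 1 = true := ex3_b k5_pm_123_a s58_pm_123_a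

theorem s60_pm_123_a : ∃ t, chk3 f_pm_123_a t 7 7 1 = true := ex3_a k4_pm_123_a s59_pm_123_a

theorem s61_pm_123_a : ∃ t, chk3 f_pm_123_a t 7 3 1 = true := ex3_b k3_pm_123_a s60_pm_123_a

theorem s62_pm_123_a : ∃ t, chk3 f_pm_123_a t 3 3 1 = true := ex3_a k2_pm_123_a s61_pm_123_a

theorem s63_pm_123_a : ∃ t, chk3 f_pm_123_a t 3 1 1 = true := ex3_b k1_pm_123_a s62_pm_123_a

theorem s64_pm_123_a : ∃ t, chk3 f_pm_123_a t 1 1 1 = true := ex3_a k0_pm_123_a s63_pm_123_a

theorem c_pm_123_a : CertB 536870912 536870912 0 536870912 1040187392 5207648 3 eng mog cd0q1 cd1q2a pd3 true true false .npn 1 2 3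
    ndB0q1 ndB1q2a pcB3 cut_pm_123_a xt_pm_123_a :=
  certB2 (fam := true) (s1 := true) (s2 := false) (a := 1) (b := 2) (c := 3) (cn := .npn) (n1 := ndB0q1) (n2 := ndB1q2a) (pc := pcB3) (cut := cut_pm_123_a) (xt := xt_pm_123_a) (P1 := 536870912) (W1 := 536870912) (P2 := 0) (W2 := 536870912) (P3 := 1040187392) (W3 := 5207648) (N0 := 3) (En := eng) (mo := mog) (C1 := cd0q1) (C2 := cd1q2a) (C3 := pd3)
    rfl (fun _ => rfl) s64_pm_123_a

noncomputable def cut_pm_123_b : Cut := Cut.of [[⟨0, 1, 0, 15728640⟩, ⟨1, 1, 0, 15728640⟩, ⟨2, 2, 0, 524288⟩], [⟨0, 0, 1, 46137344⟩, ⟨1, 1, 0, 1048576⟩, ⟨2, 1, 1, 46137344⟩, ⟨0, 0, 0, 1054867456⟩, ⟨0, 1, 0, 38117834⟩, ⟨2, 1, 0, 1054867456⟩, ⟨2, 2, 0, 38117834⟩]]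

noncomputable def f_pm_123_b : ℕ → ℕ → ℕ → ℕ → Bool := onCell 1610612736 536870912 1239849684 370763052 1040187392 5207648
    (rowB 3 eng mog cd0q1 cd1q2b pd3 2 true true false .npn 1 2 3 (qsf 536870912 536870912 1239849684 370763052 3) ndB0q1 ndB1q2b pcB3 cut_pm_123_b Ext.none)

def k0_pm_123_b : ∃ t, chk3 f_pm_123_b t 1 1 1 = true :=
  ⟨(a (b (a (l 1) (b (a (b (a (b (a (l 1) (l 16418152)) (l 1)) (b (l 16457848) (l 16421008))) (l 1)) (b (a (b (l 16506880) (l 16472480)) (b (a (l 16543152) (l 16567824)) (l 16523472))) (a (l 16416520) (l 16471520)))) (a (l 1) (b (a (l 1) (l 16395192)) (l 1))))) (l 1)) (a (b (b (a (a (b (b (a (l 16593240) (l 16619704)) (l 16576600)) (l 16528368)) (b (b (a (l 16647528) (l 16677008)) (l 16634344)) (l 16544688))) (a (b (a (b (l 16687408) (l 16678448)) (b (a (l 16709200) (l 60901155095)) (l 4))) (a (l 16620824) (l 4))) (l 4))) (a (a (b (l 16457384) (l 1)) (b (l 16509152) (l 16417584))) (l 4))) (a (l 1) (l 4))) (l 4))), by decide +kernel⟩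

theorem c_pm_123_b : CertB 536870912 536870912 1239849684 370763052 1040187392 5207648 3 eng mog cd0q1 cd1q2b pd3 true true false .npn 1 2 3
    ndB0q1 ndB1q2b pcB3 cut_pm_123_b Ext.none :=
  certB2 (fam := true) (s1 := true) (s2 := false) (a := 1) (b := 2) (c := 3) (cn := .npn) (n1 := ndB0q1) (n2 := ndB1q2b) (pc := pcB3) (cut := cut_pm_123_b) (xt := Ext.none) (P1 := 536870912) (W1 := 536870912) (P2 := 1239849684) (W2 := 370763052) (P3 := 1040187392) (W3 := 5207648) (N0 := 3) (En := eng) (mo := mog) (C1 := cd0q1) (C2 := cd1q2b) (C3 := pd3)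
    rfl (fun _ => rfl) k0_pm_123_b

noncomputable def f_pm_133 : ℕ → ℕ → ℕ → ℕ → Bool := onCell 536870912 536870912 1610612736 536870912 1040187392 5207648
    (rowB 3 eng mog cd0q1 cd1q3 pd3 0 true true false .dn 1 3 3 (qsf 536870912 536870912 1610612736 536870912 3) ndB0q1 ndB1q3 pcB3 Cut.none Ext.none)

def k0_pm_133 : ∃ t, chk3 f_pm_133 t 1 1 1 = true :=
  ⟨(l 4), by decide +kernel⟩

theorem c_pm_133 : CertB 536870912 536870912 1610612736 536870912 1040187392 5207648 3 eng mog cd0q1 cd1q3 pd3 true true false .dn 1 3 3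
    ndB0q1 ndB1q3 pcB3 Cut.none Ext.none :=
  certB0 (fam := true) (s1 := true) (s2 := false) (a := 1) (b := 3) (c := 3) (cn := .dn) (n1 := ndB0q1) (n2 := ndB1q3) (pc := pcB3) (cut := Cut.none) (xt := Ext.none) (P1 := 536870912) (W1 := 536870912) (P2 := 1610612736) (W2 := 536870912) (P3 := 1040187392) (W3 := 5207648) (N0 := 3) (En := eng) (mo := mog) (C1 := cd0q1) (C2 := cd1q3) (C3 := pd3)
    rfl k0_pm_133

end Pool.Agent.Strip051.G.I9688_9736.Tab.C.BA01

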