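import Pool.Agent.Strip051.G.I9688_9736.Tab
import Pool.Agent.Strip051.PB.ExtD3

/-! # Certificates B6 (generated) -/

set_option linter.all false
set_option maxRecDepth 100000

namespace Pool.Agent.Strip051.G.I9688_9736.Tab.C.BA02

open Pool.Agent.Strip051.PB Pool.Agent.Strip051.PB.T
open Pool.Agent.Strip051.G.I9688_9736.Tab

noncomputable def cut_pm_123_a : Cut := Cut.of [[⟨0, 1, 0, 15728640⟩, ⟨1, 1, 0, 15728640⟩, ⟨2, 2, 0, 524288⟩], [⟨0, 0, 1, 46137344⟩, ⟨1, 1, 0, 1048576⟩, ⟨2, 1, 1, 46137344⟩, ⟨0, 0, 0, 1054867456⟩, ⟨0, 1, 0, 38117834⟩, ⟨2, 1, 0, 1054867456⟩, ⟨2, 2, 0, 38117834⟩]]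

noncomputable def xt_pm_123_a : Ext := extD3 3 ⟨4, 1, 1, 5, 33, 5, 163, 200, 81, 200, 1, 64⟩ eng cd0q1 cd2q2a pd3 true true false .npn 1 2 3 rfl ndB0q1 ndB2q2a pcB3

noncomputable def f_pm_123_a : ℕ → ℕ → ℕ → ℕ → Bool := onCell 1610612736 536870912 0 536870912 1040187392 5207648
    (rowB 3 eng mog cd0q1 cd2q2a pd3 2 true true false .npn 1 2 3 (qsf 536870912 536870912 0 536870912 3) ndB0q1 ndB2q2a pcB3 cut_pm_123_a xt_pm_123_a)

def k0_pm_123_a : ∃ t, chk3 f_pm_123_a t 2 1 1 = true :=
  ⟨(b (a (a (l 1) (b (l 1) (l 15583472))) (a (b (l 15977536) (l 15859648)) (b (l 16104712) (l 15978536)))) (a (b (a (l 1) (b (l 15696960) (l 15641304))) (a (b (a (l 1) (l 15515872)) (b (a (l 15437648) (l 15499168)) (a (l 15556656) (l 15610344)))) (b (a (l 15588936) (l 15667264)) (b (a (l 15568912) (l 15646016)) (a (l 15671072) (l 15738208)))))) (b (a (b (l 15851952) (l 15821776)) (a (l 15954584) (l 16009216))) (a (b (a (l 15749784) (l 15835192)) (b (a (l 15729360) (l 15817480)) (a (l 15810880)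 (l 15887528)))) (b (a (l 15921776) (l 16006920)) (b (a (l 15907888) (l 15998016)) (a (b (l 15929096) (l 16003224)) (b (l 16011320) (l 15964600))))))))), by decide +kernel⟩

def k1_pm_123_a : ∃ t, chk3 f_pm_123_a t 3 2 1 = true :=
  ⟨(a (a (b (l 16204816) (l 16117112)) (b (a (l 16256256) (l 16280232)) (a (l 16223664) (l 16256696)))) (a (a (b (b (a (l 16302144) (l 16322272)) (l 16290064)) (l 16285248)) (b (a (l 16274856) (l 16382536)) (a (l 16305928) (b (l 16319352) (l 16318792))))) (a (a (b (a (l 16419224) (l 16441528)) (b (l 16366128) (l 16341848))) (b (a (l 16460872) (l 4)) (a (b (l 16409432) (l 16375664)) (b (l 16435672) (l 16409152))))) (a (b (l 4) (a (b (l 315377317335) (l 161295345639)) (b (l 4) (a (l 16462496) (l 4))))) (l 4))))), by decide +kernel⟩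

def k2_pm_123_a : ∃ t, chk3 f_pm_123_a t 6 3 1 = true :=
  ⟨(b (a (b (l 16136640) (a (l 16093640) (l 16120784))) (a (b (l 16164480) (l 16078368)) (b (l 16163488) (l 16065544)))) (a (b (a (l 16085160) (l 16018488)) (b (a (l 16012384) (l 15908024)) (a (b (l 15900456) (l 15840632)) (b (b (l 15848160) (l 15812008)) (l 15727344))))) (b (a (l 15830832) (b (l 15967344) (l 15881928))) (b (a (l 15824696) (l 15626176)) (a (b (a (l 15755888) (l 15714544)) (a (l 15653808) (l 15612216))) (b (a (l 15681640) (l 15659608)) (a (l 15578880) (l 15556360)))))))), by decide +kernel⟩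

def k3_pm_123_a : ∃ t, chk3 f_pm_123_a t 7 6 1 = true :=
  ⟨(a (a (b (l 16198104) (l 16092872)) (b (l 16275968) (l 16175448))) (a (a (b (l 16352528) (l 16284888)) (b (a (l 16373160) (l 16392816)) (a (l 16354928) (l 16401656)))) (a (a (b (a (l 16414072) (l 16434184)) (b (l 16428064) (l 16441448))) (b (a (l 16454120) (b (l 16473376) (l 16472984))) (a (b (l 16448784) (l 16462976)) (b (l 16472696) (l 16479736))))) (a (a (b (l 506503506839) (b (l 16497520) (l 16505344))) (b (l 4) (a (b (l 16513584) (l 16524624)) (b (l 4) (l 383560185735))))) (a (b (l 4) (a (b (l 4) (b (l 4) (l 16553168))) (l 4))) (l 4)))))), by decide +kernel⟩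

def k4_pm_123_a : ∃ t, chk3 f_pm_123_a t 14 7 1 = true :=
  ⟨(b (a (b (l 15985544) (l 15891240)) (b (l 16067384) (a (l 15942568) (l 16006392)))) (a (b (a (l 15765056) (l 15780184)) (b (a (l 15651744) (l 15662904)) (a (b (l 15579176) (l 15517256)) (b (b (l 15604560) (l 15575600)) (a (l 15524528) (l 15537640)))))) (b (a (l 15817504) (l 15905392)) (b (a (l 15699352) (l 15772304)) (a (b (b (l 15642104) (l 15615640)) (a (l 15559104) (l 15591024))) (b (b (l 15720672) (a (l 15672856) (l 15729216))) (a (b (l 15648336) (l 15624328)) (b (l 15708688) (a (l 15671152) (l 15709344)))))))))), by decide +kernel⟩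

def k5_pm_123_a : ∃ t, chk3 f_pm_123_a t 15 14 1 = true :=
  ⟨(a (a (b (l 16189904) (l 16102288)) (a (b (l 16277600) (l 16201264)) (b (l 16347080) (l 16282488)))) (b (a (a (l 16425000) (l 16503048)) (a (a (l 16524224) (b (l 16543368) (l 16554448))) (a (a (b (l 16562176) (l 16574744)) (a (b (l 16572832) (l 16583664)) (b (l 4) (l 16591472)))) (l 4)))) (a (a (b (l 16391248) (l 16364712)) (b (l 16496560) (l 16482744))) (a (a (l 16575472) (b (l 16572744) (l 16597816))) (a (a (b (l 16586920) (l 16601720)) (b (a (l 16596472) (l 16601936)) (a (l 16606360) (l 16611664)))) (a (a (b (a (l 16606336) (l 16610680)) (b (l 16614248) (l 16619096))) (b (l 4) (a (l 16620704) (b (l 4) (l 16625336))))) (l 4))))))), by decide +kernel⟩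

def k6_pm_123_a : ∃ t, chk3 f_pm_123_a t 30 15 1 = true :=
  ⟨(a (b (b (l 16022008) (l 15961656)) (b (a (l 15861360) (b (l 15956560) (l 15931240))) (b (a (b (l 15820592) (l 15805360)) (b (l 15915808) (l 15971176))) (a (b (l 15791200) (a (l 15754344) (l 15807328))) (b (a (l 15872440) (l 15938184)) (a (l 15911616) (b (l 15941240) (l 15945576)))))))) (b (a (b (l 16133032) (l 16086232)) (b (l 16226832) (a (l 16165248) (l 16224344)))) (a (a (b (l 16020112) (b (l 16007304) (b (l 16015248) (a (l 16007088) (l 16180464))))) (b (l 16079960) (b (l 16083904) (b (l 16106128) (b (l 16210096) (c (l 137549625003180047) (l 16090016))))))) (a (a (b (l 16129944) (b (l 16149472) (b (l 16185384) (c (l 138604675304308751) (l 137281481549086735))))) (b (l 16165928) (b (b (l 16187776) (b (l 16203384) (l 16217176))) (b (b (l 16234416) (l 16255776)) (b (l 138624122913112079) (c (b (l 139578361738297359) (l 140688593687691279)) (l 138236957320347663))))))) (b (b (l 16219176) (l 16234040)) (b (b (l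 16263304) (b (l 16286912) (l 139025719586816015))) (b (l 140168180967063567) (a (b (l 139523935895339023) (c (b (l 140569090607005711) (b (l 140750510062321679) (l 14))) (l 140060634999144463))) (b (l 140848435262603279) (b (c (l 141635548361408527) (l 140048196890230799)) (l 14))))))))))), by decide +kernel⟩

def k7_pm_123_a : ∃ t, chk3 f_pm_123_a t 31 30 1 = true :=
  ⟨(a (a (b (l 16338760) (a (l 16290120) (l 16363136))) (b (a (l 16437600) (l 16509168)) (a (l 16443384) (l 16530184)))) (a (b (a (l 16583040) (l 16622112)) (a (l 16621632) (l 16649128))) (a (b (a (l 16622160) (b (l 16619216) (l 16629824))) (b (l 16642912) (l 16660584))) (a (a (b (b (l 16624144) (l 16631384)) (l 16653904)) (b (b (l 143267773546954767) (l 16635864)) (b (l 16647104) (l 16665720)))) (a (b (b (l 28340847989368851428316741647) (a (l 16638880) (l 30990813385964387066294812687))) (b (a (l 16651016) (l 143243927898701839)) (a (l 16667480) (b (l 16665432) (l 16675088))))) (b (l 4) (a (b (a (l 36851685759456268528328081423)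 (l 4)) (a (l 143528632769593423) (b (l 43379885185375345305332465743) (l 20623065556949599874254667983)))) (l 4)))))))), by decide +kernel⟩

def k8_pm_123_a : ∃ t, chk3 f_pm_123_a t 124 31 1 = true :=
  ⟨(b (a (b (l 16298800) (l 16330184)) (b (l 16388512) (l 16482304))) (b (a (l 140111143918272527) (l 141747904719650831)) (b (a (l 142372564760035343) (l 143521898336305167)) (b (a (l 142838620370960399) (l 143631918243512335)) (b (b (a (l 143089858861006863) (l 143642363611693071)) (l 14)) (l 14)))))), by decide +kernel⟩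

def k9_pm_123_a : ∃ t, chk3 f_pm_123_a t 125 62 1 = true :=
  ⟨(a (b (l 16488568) (l 16566784)) (b (l 16599504) (a (l 16673088) (l 16681200)))), by decide +kernel⟩

def k10_pm_123_a : ∃ t, chk3 f_pm_123_a t 125 126 1 = true :=
  ⟨(a (a (l 16682304) (l 16700152)) (a (l 16701496) (l 16685376))), by decide +kernel⟩

def k11_pm_123_a : ∃ t, chk3 f_pm_123_a t 250 127 1 = true :=
  ⟨(b (a (l 143579760150151183) (l 599136556006173014794255)) (b (l 143460531880394831) (b (a (l 143672256595214415) (l 143693697078378703)) (l 14)))), by decide +kernel⟩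

def k12_pm_123_a : ∃ t, chk3 f_pm_123_a t 251 254 1 = true :=
  ⟨(a (b (l 600757851798015514812495) (l 600622960062103437812815)) (b (l 16724008) (l 599726275266787718390991))), by decide +kernel⟩

def k13_pm_123_a : ∃ t, chk3 f_pm_123_a t 251 510 1 = true :=
  ⟨(a (a (l 143643669293252815) (l 601386194185152043853007)) (a (l 600389493414883216745679) (l 143611371156357327))), by decide +kernel⟩

def k14_pm_123_a : ∃ t, chk3 f_pm_123_a t 502 511 1 = true :=
  ⟨(b (b (l 143703730126635215) (l 143729156336730319)) (a (l 14) (a (l 14) (a (l 14) (a (l 14) (a (l 14) (a (l 14) (a (l 14) (a (l 14) (b (l 143790522836484303) (b (c (l 143801311797493967) (l 143792172106481871)) (c (b (l 143813062829441231) (c (b (l 143821309167485135) (b (l 143824264105345231) (c (c (l 143828043676893391) (l 143826875445723343)) (c (c (l 143825982092476623) (l 143825432336629967)) (c (l 143824813861306575) (l 143824264105459919)))))) (c (c (c (l 143820690692276431) (l 143820140936429775)) (c (l 143819522461106383)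 (l 143818972705931471))) (c (c (l 143818354230608079) (l 143817804474761423)) (c (l 143817185999438031) (l 143816636243591375)))))) (b (l 143803785699508431) (c (b (l 143812032037585103) (b (l 143814986975445199) (c (c (c (l 143818972705456335) (l 143818422949609679)) (c (l 143817804474286287) (l 143817254718439631))) (c (c (l 143816636243116239) (l 143816017767792847)) (c (l 143815468012110031) (c (l 143814986975576271) (l 143814712097652943))))))) (b (l 143807290393428175) (b (l 143810176611811535) (c (c (c (c (l 143814368500252879) (l 143814093622329551)) (c (l 143813818744406223) (l 143813475147006159))) (c (c (l 143813200269082831) (l 143812925391159503)) (c (l 143812581793759439) (l 143812306915836111)))) (b (l 143810451489833167) (b (l 143811207404175567) (c (c (c (l 143812719232778447) (l 143812444354855119)) (c (l 143812169476931791) (l 143811825879531727))) (b (l 143810932526285007) (c (c (l 143811688440578255) (l 143811344843178191)) (c (l 143811069965254863)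 (c (l 143810795087331535) (l 143810657648378063))))))))))))))))))))))))), by decide +kernel⟩

def k15_pm_123_a : ∃ t, chk3 f_pm_123_a t 2012 1022 1 = true :=
  ⟨(l 143754307668558031), by decide +kernel⟩

def k16_pm_123_a : ∃ t, chk3 f_pm_123_a t 2012 2046 1 = true :=
  ⟨(c (l 143803991856201935) (l 143794233689850063)), by decide +kernel⟩

def k17_pm_123_a : ∃ t, chk3 f_pm_123_a t 2012 4094 1 = true :=
  ⟨(a (c (l 143814574657470671) (l 143804953930137807)) (c (l 143834159710240975) (l 143824126666064079))), by decide +kernel⟩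

def k18_pm_123_a : ∃ t, chk3 f_pm_123_a t 2012 8190 2 = true :=
  ⟨(a (c (l 143827356481700047) (l 143822614837526735)) (l 143838420319191247)), by decide +kernel⟩

def k19_pm_123_a : ∃ t, chk3 f_pm_123_a t 2012 8191 2 = true :=
  ⟨(c (b (a (a (l 143827906237743311) (l 143835946417455311)) (l 143842062452293839)) (b (a (a (a (l 143827768798904527) (l 143833197638041807)) (l 143836633612566735)) (l 143842680927928527)) (a (a (a (b (c (l 143830380139266255) (l 143828043676926159)) (a (c (c (l 143830311419822287) (c (l 143829418066575567) (l 143828868310728911))) (c (c (l 143828249835405519) (l 143827700079558863)) (c (l 143827081604235471) (l 143826531848388815)))) (a (c (c (l 143832854040625359) (l 143831685809455311)) (c (l 143830517578285263) (l 143829280627638479))) (c (c (c (l 143834640747167951) (l 143834022271844559)) (c (l 143833472515997903) (l 143832854040674511))) (c (c (l 143832235565351119) (l 143831685809504463)) (c (l 143831067334181071) (l 143830448858857679)))))))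 (b (c (l 143835053064143055) (l 143832647882326223)) (c (c (l 143835877698011343) (l 143834709466841295)) (c (l 143833541235671247) (l 143832373004501199))))) (c (c (l 143838832636149967) (l 143837664404996303)) (c (l 143836496173826255) (l 143835327942312143)))) (c (c (l 143844811231690959) (l 143843711719997647)) (b (l 143841925013799119) (c (l 143842680927846607) (l 143841581416153295))))))) (a (c (b (l 143828112396435663) (b (a (l 143826806726262991) (l 143833128919072975)) (b (a (a (l 143825707214586063) (l 143830311419986127)) (l 143833472516620495)) (c (a (a (a (c (l 143825913373065423) (l 143825363617218767)) (a (l 143828112396468431) (c (l 143829899103011023) (l 143829280627687631)))) (l 143831204773167311)) (l 143834297150161103)) (a (c (a (a (l 143824745141895375) (a (l 143827219043221711) (l 143828730871840975))) (l 143830311420100815)) (a (a (l 143824195386048719) (a (l 143826669287391439) (l 143828112396517583))) (l 143829692944777423))) (l 143833128918991055))))))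 (b (l 143825707214618831) (a (b (l 143824470263922895) (a (a (c (c (l 143823095874322639) (l 143822477398999247)) (c (l 143821927643152591) (l 143821309167829199))) (a (c (c (l 143825569775665359) (l 143824951300341967)) (c (l 143824332825018575) (l 143823783069171919))) (b (l 143825775934095567) (c (c (l 143827493921194191) (l 143826875445870799)) (c (l 143826325690024143) (l 143825707214700751)))))) (b (l 143827906238169295) (c (c (l 143829074469454031) (l 143828524713607375)) (c (l 143827906238283983) (l 143827287762960591)))))) (c (c (l 143831891968524495) (l 143831273493201103)) (c (l 143830655017877711) (l 143830105262031055)))))) (b (l 143837458247090383) (a (c (c (l 143838008003002575) (l 143836908491309263)) (c (l 143835740260139215) (l 143834572028969167))) (c (c (l 143842131172540623) (l 143840962941370575)) (c (l 143839863429677263) (l 143838695198507215))))))), by decide +kernel⟩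

def k20_pm_123_a : ∃ t, chk3 f_pm_123_a t 4024 8190 3 = true :=
  ⟨(c (l 143817735754399951) (l 143812856671273167)), by decide +kernel⟩

def k21_pm_123_a : ∃ t, chk3 f_pm_123_a t 8048 8191 3 = true :=
  ⟨(c (b (l 143818354229936335) (b (c (l 143822065082106063) (l 143819659900289231)) (b (a (c (l 143820965570429135) (l 143818560388612303)) (c (l 143825501056352463) (l 143823095874552015))) (a (a (c (c (c (l 143821240448385231) (l 143820621973061839)) (c (l 143820003497738447) (l 143819453741891791))) (b (l 143817667035381967) (c (c (l 143819110144508111) (l 143818491669184719)) (c (l 143817873193763023) (c (l 143817460876968143) (l 143817117279568079)))))) (a (c (c (c (l 143823645630251215) (l 143823027154927823)) (c (l 143822477399081167) (l 143821858923757775))) (c (c (l 143821240448434383) (l 143820621973110991)) (c (l 143820072217264335) (l 143819453741940943)))) (c (c (c (l 143825088739377359) (l 143824470264053967)) (c (l 143823920508207311) (l 143823302032883919)))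 (c (c (l 143822683557560527) (l 143822065082237135)) (c (l 143821446606913743) (l 143820828131590351)))))) (c (c (c (l 143826738007113935) (l 143826119531790543)) (c (l 143825501056467151) (l 143824882581143759))) (c (c (l 143824332825297103) (l 143823714349973711)) (c (l 143823095874650319) (l 143822477399326927)))))))) (b (l 143813475146825935) (c (b (l 143817185998995663) (b (a (l 143816155206795471) (l 143820621973258447)) (c (a (a (c (c (l 143816567523705039) (l 143816292645781711)) (c (l 143816017767858383) (l 143815674170458319))) (a (c (l 143818835266617551) (l 143818216791294159)) (c (l 143820278375743695) (l 143819659900420303)))) (c (l 143821858924003535) (l 143821240448680143))) (a (a (c (c (l 143815399292534991) (l 143815055695134927)) (c (l 143814780817211599) (l 143814505939288271))) (a (c (l 143817598315970767) (l 143816979840647375)) (c (l 143819041425096911) (l 143818422949773519)))) (c (l 143820690692833487) (l 143820072217510095)))))) (b (l 143814780817178831)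 (a (b (l 143813681305501903) (a (b (l 143812856671748303) (c (c (c (l 143814437219827919) (l 143814093622427855)) (c (l 143813818744504527) (l 143813543866581199))) (b (l 143812650513334479) (c (c (l 143813337708150991) (l 143812994110669007)) (c (c (l 143812787952304335) (l 143812650513350863)) (c (l 143812513074381007) (l 143812375635427535))))))) (a (c (c (l 143816430084800719) (l 143815811609477327)) (c (l 143815193134153935) (l 143814574658830543))) (c (c (l 143817804474450127) (l 143817185999126735)) (c (l 143816567523803343) (l 143815949048479951)))))) (b (l 143818216791441615) (c (c (l 143819453742186703) (l 143818835266863311)) (c (l 143818216791539919) (l 143817598316216527))))))))), by decide +kernel⟩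

def k22_pm_123_a : ∃ t, chk3 f_pm_123_a t 8049 8191 3 = true :=
  ⟨(c (b (l 143826325690187983) (c (c (c (l 143829486786707663) (l 143828868311384271)) (c (l 143828318555537615) (l 143827700080214223))) (b (l 143825913373622479) (c (c (l 143827356482912463) (l 143826806727065807)) (c (l 143826188251758799) (l 143825569776435407)))))) (b (l 143821446607077583) (b (l 143822339960635599) (c (c (c (l 143824951301112015) (l 143824401545265359)) (c (l 143823783069941967) (l 143823164594618575))) (c (c (l 143822546118951119) (l 143821996363104463)) (c (l 143821377887781071) (l 143820759412555983))))))), by decide +kernel⟩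

def k23_pm_123_a : ∃ t, chk3 f_pm_123_a t 4025 4095 3 = true :=
  ⟨(b (l 143828730872447183) (b (c (l 143832716602933455) (l 143827974958792911)) (c (a (b (l 143831410932760783) (c (c (l 143833678675837135) (l 143832510444667087)) (c (l 143831342213497039) (l 143830173982326991)))) (c (c (l 143837595686830287) (l 143836427455660239)) (c (l 143835259224490191) (l 143834159712796879)))) (b (l 143828799592874191) (c (c (a (l 143829005750829263) (l 143833266359664847)) (c (l 143830242701836495) (l 143829692945989839))) (b (l 143828043678744783) (c (c (l 143829211909685455) (l 143828662153838799)) (c (l 143828043678515407) (l 143827493922668751))))))))), by decide +kernel⟩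

def k24_pm_123_a : ∃ t, chk3 f_pm_123_a t 2013 511 1 = true :=
  ⟨(b (l 143713763181281487) (b (c (l 143840894219059407) (l 143830380138512591)) (b (c (l 143848041047376079) (l 143838420320092367)) (c (b (l 143850583669375183) (c (b (l 143854019644014799) (a (c (c (l 143852507815149775) (l 143851408303472847)) (c (l 143850308791779535) (l 143849277999562959))) (c (l 143859723362025679) (l 143857661777608911)))) (b (l 143849690316751055) (a (c (c (l 143848178487886031) (l 143847078976192719)) (c (l 143845979464499407) (l 143844879952822479))) (c (l 143855600193192143) (l 143853469888626895)))))) (b (c (l 143843780440801487) (l 143839176235614415)) (c (b (l 143845292269994191) (a (c (c (l 143843780441129167) (l 143842680929435855)) (c (l 143841581417758927) (l 143840413186588879))) (c (l 143851408304210127) (b (l 143849003122950351) (l 143849484158861519))))) (b (l 143840825503760591) (c (a (c (l 143839313674895567) (l 143838214163218639)) (b (l 143846872819056847) (l 143847422574444751)))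 (a (c (l 143837045931720911) (l 143835946420027599)) (a (l 143842887088947407) (l 143847078977962191))))))))))), by decide +kernel⟩

def k25_pm_123_a : ∃ t, chk3 f_pm_123_a t 1007 511 1 = true :=
  ⟨(b (l 143759324200272079) (b (c (l 143867145064841423) (l 143857730495987919)) (b (c (l 143871611833467087) (l 143863228056813775)) (c (c (b (l 143875803722973391) (b (l 143876903235256527) (a (c (l 143871062077751503) (l 143869206651764943)) (c (l 143885699330556111) (l 143883981343539407))))) (b (l 143871955432046799) (b (l 143873192383299791) (a (b (l 143866114275705039) (c (l 143867488664846543) (l 143865564519399631))) (c (l 143882263356522703) (l 143880545369505999)))))) (a (b (l 143858005376090319) (a (c (c (l 143858967448928463) (l 143856905864511695)) (c (l 143854844280094927) (l 143852782695694543))) (c (c (l 143866801471111375) (l 143864877325648079)) (c (l 143862953180201167) (l 143860960315261135))))) (b (l 143873879578886351) (c (c (l 143878415065399503) (l 143876628358906063))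 (c (l 143874772932935887) (l 143872986226442447))))))))), by decide +kernel⟩

def k26_pm_123_a : ∃ t, chk3 f_pm_123_a t 63 62 1 = true :=
  ⟨(a (a (b (l 16669424) (l 16691336)) (b (l 16678160) (l 16703640))) (a (b (l 16683360) (l 16709752)) (a (b (l 16687224) (l 16713248)) (a (b (a (l 16690008) (b (l 16685304) (l 16697400))) (l 16715632)) (a (b (a (b (l 16687096) (l 16697992)) (b (l 143524303474458831) (a (l 16698648) (l 16698664)))) (a (l 16716744) (b (a (l 16710296) (l 16710640)) (l 16723080)))) (b (a (b (l 55614214479875253533894099151) (a (l 16699120) (l 60653017296029275599091187919))) (l 4)) (a (a (b (l 16711064) (l 16722976)) (b (a (l 16710992) (l 143669645177503823)) (l 6))) (b (b (l 4) (l 6)) (l 6))))))))), by decide +kernel⟩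

def k27_pm_123_a : ∃ t, chk3 f_pm_123_a t 126 63 1 = true :=
  ⟨(b (a (b (l 16711272) (l 16704648)) (b (l 16724912) (l 143577836051103823))) (b (a (b (l 16715888) (a (l 143647242722541775) (l 143934971188510799))) (a (l 143802136447844431) (l 143839244978192463))) (b (a (b (l 143729774832222287) (l 143737746254561359)) (a (l 143997162341285967) (l 602306225937941711513167))) (a (b (l 143840756777779279) (b (c (l 143848796966584399) (l 143843505561141327)) (b (a (c (l 143869687688134735) (l 143863777812774991)) (c (l 143961909249982543) (l 143959366629097551))) (a (a (a (b (c (l 143895801095979215) (l 143889135306342607)) (c (c (l 143898618595459279) (l 143895594938302671)) (c (l 143892433842192591) (l 143889204025589967)))) (c (c (l 143911537860149327) (l 143908789080916047)) (c (l 143905971582189775) (l 143903085364003023)))) (c (c (l 143930504438153295) (l 143928374134227023)) (c (l 143926175110840399) (l 143923907365273679)))) (a (c (l 143952494677196879) (c (l 143950501814878287)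 (l 143949058705768527))) (c (l 143971942297960527) (l 143970911505645647))))))) (b (a (a (l 143986579545571407) (l 16763104)) (a (l 16768416) (l 603643614881567674476111))) (b (a (a (c (l 603192246066815629092431) (l 143986991865937999)) (b (l 16764384) (l 603630068025026357028431))) (a (l 603958362437688092911183) (l 604290836272786364290575))) (a (b (a (c (l 603380172272272705349199) (l 603340396480363768964687)) (c (l 603760636384873327715919) (l 603724895819673624372815))) (a (a (a (c (l 143981975345184847) (l 143982044064530511)) (c (l 603839035028838488188495) (l 603659179274600856266319))) (c (l 603788018258856707008079) (b (l 603911092630160682296911) (l 603827217591250290566735)))) (c (a (l 603969747633753349281295) (l 604154791535242750678543)) (b (l 603904463344359738959439) (a (l 603963118335101860107791) (l 604149891618848171775503)))))) (a (b (c (l 604139515325306712528399) (l 604108386444682327610895)) (c (a (l 604343294201245972485647) (l 604535255631763014686223))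 (b (l 604286224586767934428687) (a (l 604340123667108303853071) (l 604534390940634559747599))))) (b (l 604563213978249732986383) (c (l 604651124242976005789199) (l 604625759969874655155727))))))))))), by decide +kernel⟩

def k28_pm_123_a : ∃ t, chk3 f_pm_123_a t 127 63 1 = true :=
  ⟨(a (a (b (l 16717248) (b (l 16739520) (b (l 603057930764511658829391) (b (l 16772184) (b (l 604246737025235155113487) (a (c (l 604558602292231308023311) (l 604536408553267626235407)) (c (l 604481068321046498727439) (l 604511044280166276765199)))))))) (b (l 16718352) (b (l 16760728) (b (l 603357401948724233135695) (b (l 603598650975598483138127) (b (l 604097865906828901295695) (c (a (l 604414487104155454379535) (l 604270804235942742779471)) (b (l 604165311821033155864143) (a (l 604405840192870903436815) (l 604305968345269225858639)))))))))) (a (b (b (l 16733616) (l 16747296)) (b (l 16752776) (b (b (l 16768776) (l 603241821589602754127439)) (b (l 603753430617017050965583) (b (l 603920316062120938169935)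 (a (b (l 604096136638302727448143) (c (l 604222381523953163413071) (l 144081824767033423))) (b (l 144107663290122319) (c (l 144100241587454031) (l 144100860061433935))))))))) (a (b (l 16731184) (b (l 16750136) (b (l 602975208482179086607951) (b (l 143911744036765775) (b (l 144015785349021775) (b (l 144067256233066575) (a (c (l 144115497311830095) (l 144104570915045455)) (a (c (l 144116665543196751) (l 144116940421120079)) (c (l 144111442863145039) (l 144111649020919887)))))))))) (a (b (l 143850789784567887) (b (l 16760280) (b (l 16769208) (b (l 143998468015882319) (b (l 144013861203640399) (b (l 144066156727009359) (b (l 144103608842616911) (a (c (l 144112061338746959) (l 144112198777716815)) (b (l 144104914513100879) (c (l 144114603959599183) (l 144114672678748239))))))))))) (a (a (a (b (l 16741832) (b (l 16760024) (b (l 16768888) (b (l 16773256) (b (l 16775264) (b (l 16776136) (b (l 16776560) (c (l 144113367008952399) (l 144113367008968783))))))))) (l 6)) (l 6)) (l 6)))))),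 by decide +kernel⟩

theorem s29_pm_123_a : ∃ t, chk3 f_pm_123_a t 63 63 1 = true := ex3_a k27_pm_123_a k28_pm_123_a

theorem s30_pm_123_a : ∃ t, chk3 f_pm_123_a t 63 31 1 = true := ex3_b k26_pm_123_a s29_pm_123_a

theorem s31_pm_123_a : ∃ t, chk3 f_pm_123_a t 4024 8191 3 = true := ex3_a k21_pm_123_a k22_pm_123_a

theorem s32_pm_123_a : ∃ t, chk3 f_pm_123_a t 4024 4095 3 = true := ex3_b k20_pm_123_a s31_pm_123_a

theorem s33_pm_123_a : ∃ t, chk3 f_pm_123_a t 2012 4095 3 = true := ex3_a s32_pm_123_a k23_pm_123_a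

theorem s34_pm_123_a : ∃ t, chk3 f_pm_123_a t 2012 4095 2 = true := ex3_b k18_pm_123_a k19_pm_123_a

theorem s35_pm_123_a : ∃ t, chk3 f_pm_123_a t 2012 4095 1 = true := ex3_c s34_pm_123_a s33_pm_123_a

theorem s36_pm_123_a : ∃ t, chk3 f_pm_123_a t 2012 2047 1 = true := ex3_b k17_pm_123_a s35_pm_123_a

theorem s37_pm_123_a : ∃ t, chk3 f_pm_123_a t 2012 1023 1 = true := ex3_b k16_pm_123_a s36_pm_123_a

theorem s38_pm_123_a : ∃ t, chk3 f_pm_123_a t 2012 511 1 = true := ex3_b k15_pm_123_a s37_pm_123_a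

theorem s39_pm_123_a : ∃ t, chk3 f_pm_123_a t 1006 511 1 = true := ex3_a s38_pm_123_a k24_pm_123_a

theorem s40_pm_123_a : ∃ t, chk3 f_pm_123_a t 503 511 1 = true := ex3_a s39_pm_123_a k25_pm_123_a

theorem s41_pm_123_a : ∃ t, chk3 f_pm_123_a t 251 511 1 = true := ex3_a k14_pm_123_a s40_pm_123_a

theorem s42_pm_123_a : ∃ t, chk3 f_pm_123_a t 251 255 1 = true := ex3_b k13_pm_123_a s41_pm_123_a

theorem s43_pm_123_a : ∃ t, chk3 f_pm_123_a t 251 127 1 = true := ex3_b k12_pm_123_a s42_pm_123_a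

theorem s44_pm_123_a : ∃ t, chk3 f_pm_123_a t 125 127 1 = true := ex3_a k11_pm_123_a s43_pm_123_a

theorem s45_pm_123_a : ∃ t, chk3 f_pm_123_a t 125 63 1 = true := ex3_b k10_pm_123_a s44_pm_123_a

theorem s46_pm_123_a : ∃ t, chk3 f_pm_123_a t 125 31 1 = true := ex3_b k9_pm_123_a s45_pm_123_a

theorem s47_pm_123_a : ∃ t, chk3 f_pm_123_a t 62 31 1 = true := ex3_a k8_pm_123_a s46_pm_123_a

theorem s48_pm_123_a : ∃ t, chk3 f_pm_123_a t 31 31 1 = true := ex3_a s47_pm_123_a s30_pm_123_a

theorem s49_pm_123_a : ∃ t, chk3 f_pm_123_a t 31 15 1 = true := ex3_b k7_pm_123_a s48_pm_123_a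

theorem s50_pm_123_a : ∃ t, chk3 f_pm_123_a t 15 15 1 = true := ex3_a k6_pm_123_a s49_pm_123_a

theorem s51_pm_123_a : ∃ t, chk3 f_pm_123_a t 15 7 1 = true := ex3_b k5_pm_123_a s50_pm_123_a

theorem s52_pm_123_a : ∃ t, chk3 f_pm_123_a t 7 7 1 = true := ex3_a k4_pm_123_a s51_pm_123_a

theorem s53_pm_123_a : ∃ t, chk3 f_pm_123_a t 7 3 1 = true := ex3_b k3_pm_123_a s52_pm_123_a

theorem s54_pm_123_a : ∃ t, chk3 f_pm_123_a t 3 3 1 = true := ex3_a k2_pm_123_a s53_pm_123_a

theorem s55_pm_123_a : ∃ t, chk3 f_pm_123_a t 3 1 1 = true := ex3_b k1_pm_123_a s54_pm_123_a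

theorem s56_pm_123_a : ∃ t, chk3 f_pm_123_a t 1 1 1 = true := ex3_a k0_pm_123_a s55_pm_123_a

theorem c_pm_123_a : CertB 536870912 536870912 0 536870912 1040187392 5207648 3 eng mog cd0q1 cd2q2a pd3 true true false .npn 1 2 3
    ndB0q1 ndB2q2a pcB3 cut_pm_123_a xt_pm_123_a :=
  certB2 (fam := true) (s1 := true) (s2 := false) (a := 1) (b := 2) (c := 3) (cn := .npn) (n1 := ndB0q1) (n2 := ndB2q2a) (pc := pcB3) (cut := cut_pm_123_a) (xt := xt_pm_123_a) (P1 := 536870912) (W1 := 536870912) (P2 := 0) (W2 := 536870912) (P3 := 1040187392) (W3 := 5207648) (N0 := 3) (En := eng) (mo := mog) (C1 := cd0q1) (C2 := cd2q2a) (C3 := pd3)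
    rfl (fun _ => rfl) s56_pm_123_a

noncomputable def cut_pm_123_b : Cut := Cut.of [[⟨0, 1, 0, 15728640⟩, ⟨1, 1, 0, 15728640⟩, ⟨2, 2, 0, 524288⟩], [⟨0, 0, 1, 46137344⟩, ⟨1, 1, 0, 1048576⟩, ⟨2, 1, 1, 46137344⟩, ⟨0, 0, 0, 1054867456⟩, ⟨0, 1, 0, 38117834⟩, ⟨2, 1, 0, 1054867456⟩, ⟨2, 2, 0, 38117834⟩]]

noncomputable def f_pm_123_b : ℕ → ℕ → ℕ → ℕ → Bool := onCell 1610612736 536870912 1239849684 370763052 1040187392 5207648
    (rowB 3 eng mog cd0q1 cd2q2b pd3 2 true true false .npn 1 2 3 (qsf 536870912 536870912 1239849684 370763052 3) ndB0q1 ndB2q2b pcB3 cut_pm_123_b Ext.none)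

def k0_pm_123_b : ∃ t, chk3 f_pm_123_b t 1 1 1 = true :=
  ⟨(a (b (a (l 1) (b (a (b (l 15995488) (l 1)) (b (l 16116376) (l 16062896))) (a (l 1) (b (l 16005616) (l 1))))) (l 1)) (b (a (a (b (b (a (l 16185208) (l 16219936)) (l 16121720)) (a (l 16032008) (b (l 16089096) (l 16025352)))) (b (a (b (l 16244648) (l 16174776)) (b (a (l 16257984) (l 16268744)) (l 16201808))) (a (b (l 16111128) (l 16063432)) (l 16052344)))) (b (a (a (b (a (l 16290232) (l 16325568)) (l 16262968)) (a (b (l 16364464) (l 16314328)) (b (l 16404840) (l 16339408)))) (a (a (b (a (l 16430368) (l 4)) (l 4)) (l 4)) (l 4))) (a (a (b (l 16216504) (l 16162208)) (a (l 16219672) (l 4))) (l 4)))) (a (a (l 1) (b (a (l 15983992) (l 16033152)) (l 1))) (a (b (a (a (l 16062208) (l 4)) (l 4)) (l 4)) (l 4))))), by decide +kernel⟩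

theorem c_pm_123_b : CertB 536870912 536870912 1239849684 370763052 1040187392 5207648 3 eng mog cd0q1 cd2q2b pd3 true true false .npn 1 2 3
    ndB0q1 ndB2q2b pcB3 cut_pm_123_b Ext.none :=
  certB2 (fam := true) (s1 := true) (s2 := false) (a := 1) (b := 2) (c := 3) (cn := .npn) (n1 := ndB0q1) (n2 := ndB2q2b) (pc := pcB3) (cut := cut_pm_123_b) (xt := Ext.none) (P1 := 536870912) (W1 := 536870912) (P2 := 1239849684) (W2 := 370763052) (P3 := 1040187392) (W3 := 5207648) (N0 := 3) (En := eng) (mo := mog) (C1 := cd0q1) (C2 := cd2q2b) (C3 := pd3)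
    rfl (fun _ => rfl) k0_pm_123_b

noncomputable def f_pm_133 : ℕ → ℕ → ℕ → ℕ → Bool := onCell 536870912 536870912 1610612736 536870912 1040187392 5207648
    (rowB 3 eng mog cd0q1 cd2q3 pd3 0 true true false .dn 1 3 3 (qsf 536870912 536870912 1610612736 536870912 3) ndB0q1 ndB2q3 pcB3 Cut.none Ext.none)

def k0_pm_133 : ∃ t, chk3 f_pm_133 t 1 1 1 = true :=
  ⟨(l 4), by decide +kernel⟩

theorem c_pm_133 : CertB 536870912 536870912 1610612736 536870912 1040187392 5207648 3 eng mog cd0q1 cd2q3 pd3 true true false .dn 1 3 3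
    ndB0q1 ndB2q3 pcB3 Cut.none Ext.none :=
  certB0 (fam := true) (s1 := true) (s2 := false) (a := 1) (b := 3) (c := 3) (cn := .dn) (n1 := ndB0q1) (n2 := ndB2q3) (pc := pcB3) (cut := Cut.none) (xt := Ext.none) (P1 := 536870912) (W1 := 536870912) (P2 := 1610612736) (W2 := 536870912) (P3 := 1040187392) (W3 := 5207648) (N0 := 3) (En := eng) (mo := mog) (C1 := cd0q1) (C2 := cd2q3) (C3 := pd3)
    rfl k0_pm_133

noncomputable def cut_pm_202 : Cut := Cut.of [[⟨0, 1, 0, 22369621⟩, ⟨1, 0, 0, 22369621⟩, ⟨2, 1, 0, 22369621⟩]]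

noncomputable def f_pm_202 : ℕ → ℕ → ℕ → ℕ → Bool := onCell 0 536870912 1073741824 536870912 1040187392 5207648
    (rowB 3 eng mog cd0q2 cd2q0 pd2 1 true true false .pp 2 0 2 (qsf 0 536870912 0 536870912 2) ndB0q2 ndB2q0 pcB2 cut_pm_202 Ext.none)

def k0_pm_202 : ∃ t, chk3 f_pm_202 t 2 2 1 = true :=
  ⟨(a (b (l 1) (b (b (b (l 1) (a (l 15664088) (l 15788992))) (a (b (l 15388264) (l 15211528)) (b (b (l 15659960) (l 15549912)) (l 15373856)))) (b (a (b (l 14962992) (l 14715768)) (b (l 15138688) (l 14904288))) (a (b (l 14470864) (l 14229216)) (b (l 14671624) (l 14441624)))))) (a (b (l 1) (b (b (b (l 16110984) (a (l 15903008) (l 15956592))) (b (l 15724696) (l 15502984))) (b (b (l 15280408) (l 15058176)) (b (l 14837224) (l 14618432))))) (b (b (l 1) (b (l 1) (b (l 1) (l 16252560)))) (b (b (b (a (l 16180600) (l 16148192)) (a (l 15996848) (l 16021440))) (b (l 15802640) (l 15592800))) (b (b (l 15382048) (l 15171344)) (b (l 14961592) (l 14753624))))))), by decide +kernel⟩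

def k1_pm_202 : ∃ t, chk3 f_pm_202 t 2 6 1 = true :=
  ⟨(b (a (a (b (a (b (b (l 13991672) (l 13867424)) (a (b (a (l 13824064) (b (l 13780792) (l 13754712))) (l 13804696)) (a (b (l 13773448) (b (l 13705032) (l 13690824))) (l 13750352)))) (l 13936832)) (a (b (b (l 13748920) (l 13781864)) (l 13840920)) (b (a (b (l 13632192) (a (l 13576136) (l 13629120))) (l 13629256)) (a (l 13585952) (b (a (b (l 13484696) (l 13458040)) (l 13481744)) (a (l 13474760) (b (l 13416272) (l 13400280)))))))) (b (b (l 14215120) (l 13992920)) (b (l 13775784) (l 13568304)))) (b (a (b (l 14402624) (l 14190576)) (b (l 14548216) (l 14346112))) (a (l 13965608) (l 14051336)))) (a (a (b (b (l 13762192) (l 13878144)) (l 13923856)) (b (a (b (a (b (a (l 13501672) (l 13342056)) (a (l 13383864) (l 13301464))) (b (l 13381320) (l 13291760))) (b (a (l 13388776) (a (l 13253656) (l 13216920))) (l 13348920))) (b (l 13420760) (l 13244024))) (a (l 13510120) (b (a (b (a (l 13176144) (l 13108336)) (l 13188104)) (b (l 13117400)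 (a (l 13061032) (l 13045264)))) (l 13187208))))) (a (b (l 13488864) (b (l 13211304) (a (a (b (l 13005576) (a (l 12981776) (l 12942272))) (l 13009352)) (l 13092824)))) (b (l 13675328) (l 13324280))))), by decide +kernel⟩

def k2_pm_202 : ∃ t, chk3 f_pm_202 t 2 7 1 = true :=
  ⟨(b (a (b (a (l 14443272) (l 13500784)) (a (l 14859800) (l 14009200))) (a (b (a (b (b (a (l 12998776) (l 12906008)) (l 12980760)) (l 13096304)) (b (l 12930528) (a (b (l 12819544) (l 12830768)) (l 12808216)))) (b (a (l 13274448) (b (l 12827728) (l 12891808))) (l 13253608))) (b (l 13002816) (a (b (l 12856168) (a (l 12705376) (l 12842784))) (l 12765216))))) (a (b (a (b (l 15207480) (l 15446040)) (l 14452504)) (a (b (l 15639424) (l 15775472)) (l 14902336))) (a (b (l 13570736) (l 14042736)) (b (a (b (l 12795816) (l 13011192)) (b (a (b (l 12588376) (l 12572632)) (l 12599616)) (b (l 12564160) (l 12625616)))) (b (l 13004488) (l 13247952)))))), by decide +kernel⟩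

def k3_pm_202 : ∃ t, chk3 f_pm_202 t 6 8 1 = true :=
  ⟨(l 1), by decide +kernel⟩

def k4_pm_202 : ∃ t, chk3 f_pm_202 t 14 8 1 = true :=
  ⟨(b (l 1) (a (b (l 1) (b (l 1) (l 16478976))) (b (a (l 1) (b (l 303901853719) (l 16521560))) (a (b (l 16509600) (a (l 16531456) (l 16558384))) (b (a (l 16540480) (l 16565984)) (l 16559472)))))), by decide +kernel⟩

def k5_pm_202 : ∃ t, chk3 f_pm_202 t 15 16 1 = true :=
  ⟨(a (b (l 1) (a (b (l 1) (a (l 1) (b (l 1) (l 16531432)))) (b (b (l 1) (a (l 1) (b (a (l 1) (a (b (l 1) (a (l 1) (l 61773304839))) (b (l 90764356711) (a (l 116534149175) (l 16591576))))) (a (a (l 1) (a (l 350072960279) (b (b (l 1) (b (l 1) (l 344167398023))) (l 16572368)))) (b (a (b (a (c (l 56404584087) (a (l 1) (l 102038621591))) (l 152504488695)) (a (a (a (b (a (l 1) (a (l 1) (a (l 1) (c (l 16574752) (l 16573248))))) (c (l 16574520) (c (l 16573384) (l 16572632)))) (b (c (l 16575488) (l 54257107383)) (b (b (a (c (l 16575168) (b (a (b (l 16573464) (l 16573480)) (l 16573792))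 (l 16573672))) (l 16575040)) (c (l 16575560) (a (l 16573752) (l 16574312)))) (l 16574968)))) (b (c (l 16577456) (l 16575952)) (a (b (l 16573392) (l 16566928)) (l 16566824)))) (l 16580648))) (l 16578224)) (a (b (a (l 16565712) (b (l 16570120) (l 16580896))) (l 16579368)) (b (l 16588560) (l 16567720)))))))) (a (b (b (l 16553544) (l 16550256)) (l 16557400)) (b (b (a (l 16569256) (l 16586584)) (l 16581904)) (l 16588432)))))) (b (l 6) (b (b (l 6) (a (a (a (b (b (l 6) (l 16605256)) (l 16604960)) (l 16616648)) (a (l 16649392) (l 16652704))) (a (l 16677048) (l 16701120)))) (b (a (a (b (a (b (l 16604552) (l 16605336)) (l 16625432)) (a (l 16607280) (l 16605976))) (a (b (l 16649576) (l 16654568)) (l 16683600))) (l 16664192)) (a (a (a (l 16615928) (l 16640872)) (l 16642928)) (l 16621312)))))), by decide +kernel⟩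

def k6_pm_202 : ∃ t, chk3 f_pm_202 t 15 17 1 = true :=
  ⟨(a (b (a (b (a (l 16526416) (l 16547112)) (a (l 16551760) (l 16578160))) (b (a (b (l 16566800) (l 16579776)) (b (l 16582112) (l 16622992))) (l 16575768))) (a (a (l 16559864) (l 16595040)) (l 16619008))) (b (a (a (l 16604920) (l 16624712)) (b (a (l 16628392) (l 16578056)) (l 16583672))) (a (b (l 16611352) (l 16563568)) (l 16504336)))), by decide +kernel⟩

def k7_pm_202 : ∃ t, chk3 f_pm_202 t 3 9 1 = true :=
  ⟨(a (b (a (l 1) (b (a (l 1) (l 16370344)) (a (l 16460488) (a (l 16444016) (b (l 16533216) (l 16615040)))))) (a (b (a (l 16538960) (l 16487080)) (a (l 16288408) (b (l 16442176) (l 16359032)))) (b (a (b (l 16537376) (l 16463560)) (l 16422016)) (a (l 16378328) (l 16333976))))) (a (b (a (b (a (b (l 16496928) (l 16522880)) (b (l 16521128) (l 16551152))) (b (l 16527320) (l 16562008))) (b (a (l 16503384) (l 16603176)) (a (l 16494952) (l 16493088)))) (a (b (l 16418520) (l 16271056)) (b (l 16272728) (l 16192064)))) (a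 (b (b (a (l 16557808) (l 16518688)) (a (l 16449104) (l 16390360))) (a (l 16107480) (l 16156128))) (b (a (l 16216152) (l 16228728)) (a (l 16077272) (l 15988248)))))), by decide +kernel⟩

def k8_pm_202 : ∃ t, chk3 f_pm_202 t 3 5 1 = true :=
  ⟨(a (b (b (a (b (a (l 16225696) (l 16219472)) (l 16030448)) (a (l 15894552) (l 15878152))) (a (b (l 15833768) (l 15635120)) (a (l 15726888) (l 15699456)))) (a (b (b (l 15435480) (l 15235736)) (a (l 14924840) (l 14951072))) (b (a (l 15343736) (l 15326600)) (a (l 14961632) (l 14954848))))) (a (b (b (a (l 15821904) (b (l 16023312) (l 15851360))) (a (l 15652880) (a (l 15605008) (l 15572744)))) (a (b (l 15290200) (l 14928832)) (b (l 15237360) (l 14886544)))) (b (a (b (a (l 15881376) (l 15829296)) (a (l 15540216) (l 15492912))) (b (a (l 15754592) (l 15669768)) (l 15383088))) (a (b (l 15301696) (l 14835904)) (b (l 15051560) (l 14723016)))))), by decide +kernel⟩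

def k9_pm_202 : ∃ t, chk3 f_pm_202 t 3 3 1 = true :=
  ⟨(a (b (b (a (b (a (l 14529520) (l 14565864)) (l 14171056)) (b (l 14672880) (l 14231168))) (a (b (l 13812240) (l 13476456)) (b (l 13890376) (l 13571088)))) (b (a (b (l 13168104) (l 12891304)) (b (l 13277456) (l 13013416))) (a (b (l 12649944) (a (b (a (b (l 12481616) (l 12504640)) (l 12476840)) (b (l 12525760) (l 12602776))) (l 12495616))) (a (l 12654088) (l 12709088))))) (b (a (b (a (b (l 14574312) (l 14231640)) (b (l 14542728) (l 14210720))) (a (b (l 13905392) (l 13599832)) (b (l 13894952) (l 13599536)))) (b (a (b (l 14503256) (l 14182576)) (b (l 14402344) (l 14094024))) (a (b (l 13878120) (l 13593880)) (l 13665072)))) (a (b (a (l 13190216) (l 13204240)) (a (l 12749840) (l 12780696))) (b (a (l 13214808) (l 13170896)) (a (l 12811392) (l 12792832)))))), by decide +kernel⟩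

theorem s10_pm_202 : ∃ t, chk3 f_pm_202 t 15 8 1 = true := ex3_b k5_pm_202 k6_pm_202

theorem s11_pm_202 : ∃ t, chk3 f_pm_202 t 7 8 1 = true := ex3_a k4_pm_202 s10_pm_202

theorem s12_pm_202 : ∃ t, chk3 f_pm_202 t 3 8 1 = true := ex3_a k3_pm_202 s11_pm_202

theorem s13_pm_202 : ∃ t, chk3 f_pm_202 t 3 4 1 = true := ex3_b s12_pm_202 k7_pm_202

theorem s14_pm_202 : ∃ t, chk3 f_pm_202 t 3 2 1 = true := ex3_b s13_pm_202 k8_pm_202

theorem s15_pm_202 : ∃ t, chk3 f_pm_202 t 3 1 1 = true := ex3_b s14_pm_202 k9_pm_202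

theorem s16_pm_202 : ∃ t, chk3 f_pm_202 t 2 3 1 = true := ex3_b k1_pm_202 k2_pm_202

theorem s17_pm_202 : ∃ t, chk3 f_pm_202 t 2 1 1 = true := ex3_b k0_pm_202 s16_pm_202

theorem s18_pm_202 : ∃ t, chk3 f_pm_202 t 1 1 1 = true := ex3_a s17_pm_202 s15_pm_202

theorem c_pm_202 : CertB 0 536870912 0 536870912 1040187392 5207648 3 eng mog cd0q2 cd2q0 pd2 true true false .pp 2 0 2
    ndB0q2 ndB2q0 pcB2 cut_pm_202 Ext.none :=
  certB1 (fam := true) (s1 := true) (s2 := false) (a := 2) (b := 0) (c := 2) (cn := .pp) (n1 := ndB0q2) (n2 := ndB2q0) (pc := pcB2) (cut := cut_pm_202) (xt := Ext.none) (P1 := 0) (W1 := 536870912) (P2 := 0) (W2 := 536870912) (P3 := 1040187392) (W3 := 5207648) (N0 := 3) (En := eng) (mo := mog) (C1 := cd0q2) (C2 := cd2q0) (C3 := pd2)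
    rfl (fun _ => rfl) s18_pm_202

noncomputable def f_pm_203 : ℕ → ℕ → ℕ → ℕ → Bool := onCell 0 536870912 1610612736 536870912 1040187392 5207648
    (rowB 3 eng mog cd0q2 cd2q0 pd3 1 true true false .up 2 0 3 (qsf 0 536870912 0 536870912 3) ndB0q2 ndB2q0 pcB3 Cut.none Ext.none)

def k0_pm_203 : ∃ t, chk3 f_pm_203 t 1 1 1 = true :=
  ⟨(b (a (b (b (a (b (l 15859728) (l 15844944)) (l 15786352)) (a (l 4) (b (l 15719248) (l 15720776)))) (b (a (l 4) (b (l 15744688) (l 2))) (l 2))) (a (b (b (a (l 15725680) (l 15587608)) (b (l 15565648) (l 15525160))) (l 2)) (b (a (b (l 15424752) (a (l 15341176) (l 2))) (b (a (l 15274384) (l 15107576)) (l 2))) (l 2)))) (l 2)), by decide +kernel⟩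

theorem c_pm_203 : CertB 0 536870912 0 536870912 1040187392 5207648 3 eng mog cd0q2 cd2q0 pd3 true true false .up 2 0 3
    ndB0q2 ndB2q0 pcB3 Cut.none Ext.none :=
  certB1 (fam := true) (s1 := true) (s2 := false) (a := 2) (b := 0) (c := 3) (cn := .up) (n1 := ndB0q2) (n2 := ndB2q0) (pc := pcB3) (cut := Cut.none) (xt := Ext.none) (P1 := 0) (W1 := 536870912) (P2 := 0) (W2 := 536870912) (P3 := 1040187392) (W3 := 5207648) (N0 := 3) (En := eng) (mo := mog) (C1 := cd0q2) (C2 := cd2q0) (C3 := pd3)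
    rfl (fun _ => rfl) k0_pm_203

noncomputable def f_pm_213 : ℕ → ℕ → ℕ → ℕ → Bool := onCell 0 536870912 1610612736 536870912 1040187392 5207648
    (rowB 3 eng mog cd0q2 cd2q1 pd3 1 true true false .pnn 2 1 3 (qsf 0 536870912 536870912 536870912 3) ndB0q2 ndB2q1 pcB3 Cut.none Ext.none)

def k0_pm_213 : ∃ t, chk3 f_pm_213 t 1 1 1 = true :=
  ⟨(a (b (b (b (l 1) (a (l 1) (b (l 1) (l 15789832)))) (b (a (l 4) (b (l 15851984) (l 4))) (l 4))) (l 4)) (b (a (b (b (l 1) (l 15652032)) (b (b (l 15654960) (l 15693952)) (b (l 15755160) (l 15940880)))) (b (a (b (l 15512168) (l 15434176)) (a (l 15351416) (l 15213512))) (a (b (l 15453256) (l 15499296)) (b (a (l 15288912) (l 15115952)) (a (l 15328304) (l 15152808)))))) (b (a (l 4) (a (b (b (l 15586888) (l 15682304)) (l 4)) (b (a (l 15421792) (l 15214744)) (a (l 4) (b (l 15312528) (l 4)))))) (l 4)))), by decide +kernel⟩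

theorem c_pm_213 : CertB 0 536870912 536870912 536870912 1040187392 5207648 3 eng mog cd0q2 cd2q1 pd3 true true false .pnn 2 1 3
    ndB0q2 ndB2q1 pcB3 Cut.none Ext.none :=
  certB1 (fam := true) (s1 := true) (s2 := false) (a := 2) (b := 1) (c := 3) (cn := .pnn) (n1 := ndB0q2) (n2 := ndB2q1) (pc := pcB3) (cut := Cut.none) (xt := Ext.none) (P1 := 0) (W1 := 536870912) (P2 := 536870912) (W2 := 536870912) (P3 := 1040187392) (W3 := 5207648) (N0 := 3) (En := eng) (mo := mog) (C1 := cd0q2) (C2 := cd2q1) (C3 := pd3)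
    rfl (fun _ => rfl) k0_pm_213

noncomputable def f_mm_001 : ℕ → ℕ → ℕ → ℕ → Bool := onCell 0 536870912 0 536870912 1040187392 5207648
    (rowB 3 eng mog cd0q0 cd2q0 pd1 0 true false false .up 0 0 1 (qsf 0 536870912 0 536870912 1) ndB0q0 ndB2q0 pcB1 Cut.none Ext.none)

def k0_mm_001 : ∃ t, chk3 f_mm_001 t 1 1 1 = true :=
  ⟨(l 4), by decide +kernel⟩

theorem c_mm_001 : CertB 0 536870912 0 536870912 1040187392 5207648 3 eng mog cd0q0 cd2q0 pd1 true false false .up 0 0 1
    ndB0q0 ndB2q0 pcB1 Cut.none Ext.none :=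
  certB0 (fam := true) (s1 := false) (s2 := false) (a := 0) (b := 0) (c := 1) (cn := .up) (n1 := ndB0q0) (n2 := ndB2q0) (pc := pcB1) (cut := Cut.none) (xt := Ext.none) (P1 := 0) (W1 := 536870912) (P2 := 0) (W2 := 536870912) (P3 := 1040187392) (W3 := 5207648) (N0 := 3) (En := eng) (mo := mog) (C1 := cd0q0) (C2 := cd2q0) (C3 := pd1)
    rfl k0_mm_001

noncomputable def f_mm_011 : ℕ → ℕ → ℕ → ℕ → Bool := onCell 0 536870912 536870912 536870912 1040187392 5207648
    (rowB 3 eng mog cd0q0 cd2q1 pd1 0 true false false .pnn 0 1 1 (qsf 0 536870912 536870912 536870912 1) ndB0q0 ndB2q1 pcB1 Cut.none Ext.none)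

def k0_mm_011 : ∃ t, chk3 f_mm_011 t 1 1 1 = true :=
  ⟨(l 4), by decide +kernel⟩

theorem c_mm_011 : CertB 0 536870912 536870912 536870912 1040187392 5207648 3 eng mog cd0q0 cd2q1 pd1 true false false .pnn 0 1 1
    ndB0q0 ndB2q1 pcB1 Cut.none Ext.none :=
  certB0 (fam := true) (s1 := false) (s2 := false) (a := 0) (b := 1) (c := 1) (cn := .pnn) (n1 := ndB0q0) (n2 := ndB2q1) (pc := pcB1) (cut := Cut.none) (xt := Ext.none) (P1 := 0) (W1 := 536870912) (P2 := 536870912) (W2 := 536870912) (P3 := 1040187392) (W3 := 5207648) (N0 := 3) (En := eng) (mo := mog) (C1 := cd0q0) (C2 := cd2q1) (C3 := pd1)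
    rfl k0_mm_011

noncomputable def f_mm_012 : ℕ → ℕ → ℕ → ℕ → Bool := onCell 0 536870912 536870912 536870912 1040187392 5207648
    (rowB 3 eng mog cd0q0 cd2q1 pd2 0 true false false .pnp 0 1 2 (qsf 0 536870912 536870912 536870912 2) ndB0q0 ndB2q1 pcB2 Cut.none Ext.none)

def k0_mm_012 : ∃ t, chk3 f_mm_012 t 1 1 1 = true :=
  ⟨(l 4), by decide +kernel⟩

theorem c_mm_012 : CertB 0 536870912 536870912 536870912 1040187392 5207648 3 eng mog cd0q0 cd2q1 pd2 true false false .pnp 0 1 2
    ndB0q0 ndB2q1 pcB2 Cut.none Ext.none :=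
  certB0 (fam := true) (s1 := false) (s2 := false) (a := 0) (b := 1) (c := 2) (cn := .pnp) (n1 := ndB0q0) (n2 := ndB2q1) (pc := pcB2) (cut := Cut.none) (xt := Ext.none) (P1 := 0) (W1 := 536870912) (P2 := 536870912) (W2 := 536870912) (P3 := 1040187392) (W3 := 5207648) (N0 := 3) (En := eng) (mo := mog) (C1 := cd0q0) (C2 := cd2q1) (C3 := pd2)
    rfl k0_mm_012

noncomputable def f_mm_022_a : ℕ → ℕ → ℕ → ℕ → Bool := onCell 0 536870912 0 536870912 1040187392 5207648
    (rowB 3 eng mog cd0q0 cd2q2a pd2 0 true false false .pp 0 2 2 (qsf 0 536870912 0 536870912 2) ndB0q0 ndB2q2a pcB2 Cut.none Ext.none)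

def k0_mm_022_a : ∃ t, chk3 f_mm_022_a t 1 1 1 = true :=
  ⟨(l 5), by decide +kernel⟩

theorem c_mm_022_a : CertB 0 536870912 0 536870912 1040187392 5207648 3 eng mog cd0q0 cd2q2a pd2 true false false .pp 0 2 2
    ndB0q0 ndB2q2a pcB2 Cut.none Ext.none :=
  certB0 (fam := true) (s1 := false) (s2 := false) (a := 0) (b := 2) (c := 2) (cn := .pp) (n1 := ndB0q0) (n2 := ndB2q2a) (pc := pcB2) (cut := Cut.none) (xt := Ext.none) (P1 := 0) (W1 := 536870912) (P2 := 0) (W2 := 536870912) (P3 := 1040187392) (W3 := 5207648) (N0 := 3) (En := eng) (mo := mog) (C1 := cd0q0) (C2 := cd2q2a) (C3 := pd2)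
    rfl k0_mm_022_a

noncomputable def f_mm_022_b : ℕ → ℕ → ℕ → ℕ → Bool := onCell 0 536870912 1239849684 370763052 1040187392 5207648
    (rowB 3 eng mog cd0q0 cd2q2b pd2 0 true false false .pp 0 2 2 (qsf 0 536870912 1239849684 370763052 2) ndB0q0 ndB2q2b pcB2 Cut.none Ext.none)

def k0_mm_022_b : ∃ t, chk3 f_mm_022_b t 1 1 1 = true :=
  ⟨(l 5), by decide +kernel⟩

theorem c_mm_022_b : CertB 0 536870912 1239849684 370763052 1040187392 5207648 3 eng mog cd0q0 cd2q2b pd2 true false false .pp 0 2 2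
    ndB0q0 ndB2q2b pcB2 Cut.none Ext.none :=
  certB0 (fam := true) (s1 := false) (s2 := false) (a := 0) (b := 2) (c := 2) (cn := .pp) (n1 := ndB0q0) (n2 := ndB2q2b) (pc := pcB2) (cut := Cut.none) (xt := Ext.none) (P1 := 0) (W1 := 536870912) (P2 := 1239849684) (W2 := 370763052) (P3 := 1040187392) (W3 := 5207648) (N0 := 3) (En := eng) (mo := mog) (C1 := cd0q0) (C2 := cd2q2b) (C3 := pd2)
    rfl k0_mm_022_b

noncomputable def f_mm_023_a : ℕ → ℕ → ℕ → ℕ → Bool := onCell 0 536870912 0 536870912 1040187392 5207648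
    (rowB 3 eng mog cd0q0 cd2q2a pd3 0 true false false .up 0 2 3 (qsf 0 536870912 0 536870912 3) ndB0q0 ndB2q2a pcB3 Cut.none Ext.none)

def k0_mm_023_a : ∃ t, chk3 f_mm_023_a t 1 1 1 = true :=
  ⟨(l 5), by decide +kernel⟩

theorem c_mm_023_a : CertB 0 536870912 0 536870912 1040187392 5207648 3 eng mog cd0q0 cd2q2a pd3 true false false .up 0 2 3
    ndB0q0 ndB2q2a pcB3 Cut.none Ext.none :=
  certB0 (fam := true) (s1 := false) (s2 := false) (a := 0) (b := 2) (c := 3) (cn := .up) (n1 := ndB0q0) (n2 := ndB2q2a) (pc := pcB3) (cut := Cut.none) (xt := Ext.none) (P1 := 0) (W1 := 536870912) (P2 := 0) (W2 := 536870912) (P3 := 1040187392) (W3 := 5207648) (N0 := 3) (En := eng) (mo := mog) (C1 := cd0q0) (C2 := cd2q2a) (C3 := pd3)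
    rfl k0_mm_023_a

noncomputable def f_mm_023_b : ℕ → ℕ → ℕ → ℕ → Bool := onCell 0 536870912 1239849684 370763052 1040187392 5207648
    (rowB 3 eng mog cd0q0 cd2q2b pd3 0 true false false .up 0 2 3 (qsf 0 536870912 1239849684 370763052 3) ndB0q0 ndB2q2b pcB3 Cut.none Ext.none)

def k0_mm_023_b : ∃ t, chk3 f_mm_023_b t 1 1 1 = true :=
  ⟨(l 5), by decide +kernel⟩

theorem c_mm_023_b : CertB 0 536870912 1239849684 370763052 1040187392 5207648 3 eng mog cd0q0 cd2q2b pd3 true false false .up 0 2 3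
    ndB0q0 ndB2q2b pcB3 Cut.none Ext.none :=
  certB0 (fam := true) (s1 := false) (s2 := false) (a := 0) (b := 2) (c := 3) (cn := .up) (n1 := ndB0q0) (n2 := ndB2q2b) (pc := pcB3) (cut := Cut.none) (xt := Ext.none) (P1 := 0) (W1 := 536870912) (P2 := 1239849684) (W2 := 370763052) (P3 := 1040187392) (W3 := 5207648) (N0 := 3) (En := eng) (mo := mog) (C1 := cd0q0) (C2 := cd2q2b) (C3 := pd3)
    rfl k0_mm_023_b

noncomputable def f_mm_033 : ℕ → ℕ → ℕ → ℕ → Bool := onCell 0 536870912 1610612736 536870912 1040187392 5207648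
    (rowB 3 eng mog cd0q0 cd2q3 pd3 0 true false false .pnn 0 3 3 (qsf 0 536870912 1610612736 536870912 3) ndB0q0 ndB2q3 pcB3 Cut.none Ext.none)

def k0_mm_033 : ∃ t, chk3 f_mm_033 t 1 1 1 = true :=
  ⟨(l 5), by decide +kernel⟩

theorem c_mm_033 : CertB 0 536870912 1610612736 536870912 1040187392 5207648 3 eng mog cd0q0 cd2q3 pd3 true false false .pnn 0 3 3
    ndB0q0 ndB2q3 pcB3 Cut.none Ext.none :=
  certB0 (fam := true) (s1 := false) (s2 := false) (a := 0) (b := 3) (c := 3) (cn := .pnn) (n1 := ndB0q0) (n2 := ndB2q3) (pc := pcB3) (cut := Cut.none) (xt := Ext.none) (P1 := 0) (W1 := 536870912) (P2 := 1610612736) (W2 := 536870912) (P3 := 1040187392) (W3 := 5207648) (N0 := 3) (En := eng) (mo := mog) (C1 := cd0q0) (C2 := cd2q3) (C3 := pd3)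
    rfl k0_mm_033

noncomputable def cut_mm_101 : Cut := Cut.of [[⟨0, 1, 0, 26843545⟩, ⟨1, 0, 0, 26843545⟩, ⟨2, 1, 0, 26843545⟩]]

noncomputable def f_mm_101 : ℕ → ℕ → ℕ → ℕ → Bool := onCell 536870912 536870912 0 536870912 1040187392 5207648
    (rowB 3 eng mog cd0q1 cd2q0 pd1 0 true false false .npn 1 0 1 (qsf 536870912 536870912 0 536870912 1) ndB0q1 ndB2q0 pcB1 cut_mm_101 Ext.none)

def k0_mm_101 : ∃ t, chk3 f_mm_101 t 1 1 1 = true :=
  ⟨(a (l 4) (b (a (l 4) (b (a (l 4) (b (a (l 4) (b (a (l 4) (b (l 6) (l 4))) (l 4))) (l 4))) (l 4))) (l 4))), by decide +kernel⟩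

theorem c_mm_101 : CertB 536870912 536870912 0 536870912 1040187392 5207648 3 eng mog cd0q1 cd2q0 pd1 true false false .npn 1 0 1
    ndB0q1 ndB2q0 pcB1 cut_mm_101 Ext.none :=
  certB0 (fam := true) (s1 := false) (s2 := false) (a := 1) (b := 0) (c := 1) (cn := .npn) (n1 := ndB0q1) (n2 := ndB2q0) (pc := pcB1) (cut := cut_mm_101) (xt := Ext.none) (P1 := 536870912) (W1 := 536870912) (P2 := 0) (W2 := 536870912) (P3 := 1040187392) (W3 := 5207648) (N0 := 3) (En := eng) (mo := mog) (C1 := cd0q1) (C2 := cd2q0) (C3 := pd1)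
    rfl k0_mm_101

noncomputable def cut_mm_102 : Cut := Cut.of [[⟨0, 1, 0, 26843545⟩, ⟨1, 0, 0, 26843545⟩, ⟨2, 1, 0, 26843545⟩]]

noncomputable def f_mm_102 : ℕ → ℕ → ℕ → ℕ → Bool := onCell 536870912 536870912 0 536870912 1040187392 5207648
    (rowB 3 eng mog cd0q1 cd2q0 pd2 0 true false false .npp 1 0 2 (qsf 536870912 536870912 0 536870912 2) ndB0q1 ndB2q0 pcB2 cut_mm_102 Ext.none)

def k0_mm_102 : ∃ t, chk3 f_mm_102 t 1 1 1 = true :=
  ⟨(a (l 4) (b (a (l 4) (b (a (l 4) (b (a (l 4) (b (a (l 4) (b (l 6) (l 4))) (l 4))) (l 4))) (l 4))) (l 4))), by decide +kernel⟩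

theorem c_mm_102 : CertB 536870912 536870912 0 536870912 1040187392 5207648 3 eng mog cd0q1 cd2q0 pd2 true false false .npp 1 0 2
    ndB0q1 ndB2q0 pcB2 cut_mm_102 Ext.none :=
  certB0 (fam := true) (s1 := false) (s2 := false) (a := 1) (b := 0) (c := 2) (cn := .npp) (n1 := ndB0q1) (n2 := ndB2q0) (pc := pcB2) (cut := cut_mm_102) (xt := Ext.none) (P1 := 536870912) (W1 := 536870912) (P2 := 0) (W2 := 536870912) (P3 := 1040187392) (W3 := 5207648) (N0 := 3) (En := eng) (mo := mog) (C1 := cd0q1) (C2 := cd2q0) (C3 := pd2)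
    rfl k0_mm_102

noncomputable def f_mm_112 : ℕ → ℕ → ℕ → ℕ → Bool := onCell 536870912 536870912 536870912 536870912 1040187392 5207648
    (rowB 3 eng mog cd0q1 cd2q1 pd2 0 true false false .dn 1 1 2 (qsf 536870912 536870912 536870912 536870912 2) ndB0q1 ndB2q1 pcB2 Cut.none Ext.none)

def k0_mm_112 : ∃ t, chk3 f_mm_112 t 1 1 1 = true :=
  ⟨(l 4), by decide +kernel⟩

theorem c_mm_112 : CertB 536870912 536870912 536870912 536870912 1040187392 5207648 3 eng mog cd0q1 cd2q1 pd2 true false false .dn 1 1 2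
    ndB0q1 ndB2q1 pcB2 Cut.none Ext.none :=
  certB0 (fam := true) (s1 := false) (s2 := false) (a := 1) (b := 1) (c := 2) (cn := .dn) (n1 := ndB0q1) (n2 := ndB2q1) (pc := pcB2) (cut := Cut.none) (xt := Ext.none) (P1 := 536870912) (W1 := 536870912) (P2 := 536870912) (W2 := 536870912) (P3 := 1040187392) (W3 := 5207648) (N0 := 3) (En := eng) (mo := mog) (C1 := cd0q1) (C2 := cd2q1) (C3 := pd2)
    rfl k0_mm_112

noncomputable def f_mm_113 : ℕ → ℕ → ℕ → ℕ → Bool := onCell 536870912 536870912 536870912 536870912 1040187392 5207648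
    (rowB 3 eng mog cd0q1 cd2q1 pd3 0 true false false .nn 1 1 3 (qsf 536870912 536870912 536870912 536870912 3) ndB0q1 ndB2q1 pcB3 Cut.none Ext.none)

def k0_mm_113 : ∃ t, chk3 f_mm_113 t 1 1 1 = true :=
  ⟨(l 4), by decide +kernel⟩

theorem c_mm_113 : CertB 536870912 536870912 536870912 536870912 1040187392 5207648 3 eng mog cd0q1 cd2q1 pd3 true false false .nn 1 1 3
    ndB0q1 ndB2q1 pcB3 Cut.none Ext.none :=
  certB0 (fam := true) (s1 := false) (s2 := false) (a := 1) (b := 1) (c := 3) (cn := .nn) (n1 := ndB0q1) (n2 := ndB2q1) (pc := pcB3) (cut := Cut.none) (xt := Ext.none) (P1 := 536870912) (W1 := 536870912) (P2 := 536870912) (W2 := 536870912) (P3 := 1040187392) (W3 := 5207648) (N0 := 3) (En := eng) (mo := mog) (C1 := cd0q1) (C2 := cd2q1) (C3 := pd3)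
    rfl k0_mm_113

noncomputable def f_mm_123_a : ℕ → ℕ → ℕ → ℕ → Bool := onCell 536870912 536870912 0 536870912 1040187392 5207648
    (rowB 3 eng mog cd0q1 cd2q2a pd3 0 true false false .npn 1 2 3 (qsf 536870912 536870912 0 536870912 3) ndB0q1 ndB2q2a pcB3 Cut.none Ext.none)

def k0_mm_123_a : ∃ t, chk3 f_mm_123_a t 1 1 1 = true :=
  ⟨(l 4), by decide +kernel⟩

theorem c_mm_123_a : CertB 536870912 536870912 0 536870912 1040187392 5207648 3 eng mog cd0q1 cd2q2a pd3 true false false .npn 1 2 3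
    ndB0q1 ndB2q2a pcB3 Cut.none Ext.none :=
  certB0 (fam := true) (s1 := false) (s2 := false) (a := 1) (b := 2) (c := 3) (cn := .npn) (n1 := ndB0q1) (n2 := ndB2q2a) (pc := pcB3) (cut := Cut.none) (xt := Ext.none) (P1 := 536870912) (W1 := 536870912) (P2 := 0) (W2 := 536870912) (P3 := 1040187392) (W3 := 5207648) (N0 := 3) (En := eng) (mo := mog) (C1 := cd0q1) (C2 := cd2q2a) (C3 := pd3)
    rfl k0_mm_123_a

noncomputable def f_mm_123_b : ℕ → ℕ → ℕ → ℕ → Bool := onCell 536870912 536870912 1239849684 370763052 1040187392 5207648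
    (rowB 3 eng mog cd0q1 cd2q2b pd3 0 true false false .npn 1 2 3 (qsf 536870912 536870912 1239849684 370763052 3) ndB0q1 ndB2q2b pcB3 Cut.none Ext.none)

def k0_mm_123_b : ∃ t, chk3 f_mm_123_b t 1 1 1 = true :=
  ⟨(l 4), by decide +kernel⟩

theorem c_mm_123_b : CertB 536870912 536870912 1239849684 370763052 1040187392 5207648 3 eng mog cd0q1 cd2q2b pd3 true false false .npn 1 2 3
    ndB0q1 ndB2q2b pcB3 Cut.none Ext.none :=
  certB0 (fam := true) (s1 := false) (s2 := false) (a := 1) (b := 2) (c := 3) (cn := .npn) (n1 := ndB0q1) (n2 := ndB2q2b) (pc := pcB3) (cut := Cut.none) (xt := Ext.none) (P1 := 536870912) (W1 := 536870912) (P2 := 1239849684) (W2 := 370763052) (P3 := 1040187392) (W3 := 5207648) (N0 := 3) (En := eng) (mo := mog) (C1 := cd0q1) (C2 := cd2q2b) (C3 := pd3)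
    rfl k0_mm_123_b

noncomputable def f_mm_133 : ℕ → ℕ → ℕ → ℕ → Bool := onCell 536870912 536870912 1610612736 536870912 1040187392 5207648
    (rowB 3 eng mog cd0q1 cd2q3 pd3 0 true false false .dn 1 3 3 (qsf 536870912 536870912 1610612736 536870912 3) ndB0q1 ndB2q3 pcB3 Cut.none Ext.none)

def k0_mm_133 : ∃ t, chk3 f_mm_133 t 1 1 1 = true :=
  ⟨(l 4), by decide +kernel⟩

theorem c_mm_133 : CertB 536870912 536870912 1610612736 536870912 1040187392 5207648 3 eng mog cd0q1 cd2q3 pd3 true false false .dn 1 3 3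
    ndB0q1 ndB2q3 pcB3 Cut.none Ext.none :=
  certB0 (fam := true) (s1 := false) (s2 := false) (a := 1) (b := 3) (c := 3) (cn := .dn) (n1 := ndB0q1) (n2 := ndB2q3) (pc := pcB3) (cut := Cut.none) (xt := Ext.none) (P1 := 536870912) (W1 := 536870912) (P2 := 1610612736) (W2 := 536870912) (P3 := 1040187392) (W3 := 5207648) (N0 := 3) (En := eng) (mo := mog) (C1 := cd0q1) (C2 := cd2q3) (C3 := pd3)
    rfl k0_mm_133

noncomputable def cut_mm_202 : Cut := Cut.of [[⟨0, 1, 0, 26843545⟩, ⟨1, 0, 0, 26843545⟩, ⟨2, 1, 0, 26843545⟩]]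

noncomputable def f_mm_202 : ℕ → ℕ → ℕ → ℕ → Bool := onCell 0 536870912 0 536870912 1040187392 5207648
    (rowB 3 eng mog cd0q2 cd2q0 pd2 0 true false false .pp 2 0 2 (qsf 0 536870912 0 536870912 2) ndB0q2 ndB2q0 pcB2 cut_mm_202 Ext.none)

def k0_mm_202 : ∃ t, chk3 f_mm_202 t 2 4 1 = true :=
  ⟨(b (a (b (a (b (l 15311624) (l 15061016)) (b (b (l 15258416) (a (l 15156920) (l 15119984))) (a (l 14952632) (a (b (l 14985184) (l 14870416)) (b (l 15008472) (l 14952352)))))) (a (b (l 14798096) (a (l 14584632) (a (l 14510520) (a (l 14476848) (a (l 14468240) (l 14500368)))))) (a (b (a (l 14697776) (b (l 14723752) (l 14637224))) (b (a (c (l 14517856) (l 14501680)) (l 14626168)) (l 14543744))) (b (b (l 14857048) (l 14831608)) (l 14804864))))) (b (a (b (a (b (a (l 15235248) (l 15297344)) (b (l 15220440) (l 15196768))) (b (l 15455432) (l 15421064))) (a (l 15140760) (l 15361984))) (b (a (b (l 15662184) (l 15631872)) (b (l 15864536) (l 15837304))) (a (l 15578104) (l 15787392)))) (a (b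 (a (l 15080008) (l 15310968)) (l 14923064)) (b (a (l 15534856) (l 15749160)) (a (l 15525704) (l 15745192)))))) (a (a (a (b (b (l 14329840) (b (c (l 14146416) (l 14145104)) (a (l 14049216) (a (b (l 14045848) (l 14018008)) (l 14086416))))) (b (b (a (a (l 13946616) (b (l 13962512) (l 13948160))) (l 14056928)) (l 13992800)) (l 14024608))) (b (b (a (a (l 14273520) (b (l 14308888) (b (l 14238160) (l 14227344)))) (b (l 14324392) (l 14330184))) (l 14258408)) (l 14264992))) (b (b (l 14519176) (l 14660096)) (b (l 14724280) (l 14793880)))) (a (b (b (l 15077872) (l 15198680)) (b (l 15283656) (l 15372976))) (b (b (l 15410528) (l 15588992)) (b (l 15710008) (l 15813704)))))), by decide +kernel⟩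

def k1_mm_202 : ∃ t, chk3 f_mm_202 t 2 5 1 = true :=
  ⟨(b (a (b (a (b (l 14250392) (l 14344680)) (b (l 14888176) (l 15005536))) (a (b (l 14461936) (l 14600592)) (b (l 15144344) (l 15303024)))) (a (b (b (l 15485896) (l 15620760)) (b (l 15754888) (a (l 15796128) (l 16058776)))) (b (a (l 15712728) (b (l 16137872) (l 16207856))) (a (b (l 16138648) (l 16165016)) (l 4))))) (a (a (b (l 14656296) (l 15064048)) (b (b (l 15479992) (l 15628152)) (a (b (l 15702584) (l 15883456)) (b (l 15982016) (l 16031400))))) (a (b (a (b (l 15963224) (l 16057632)) (l 16089304)) (l 4)) (l 4)))), by decide +kernel⟩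

def k2_mm_202 : ∃ t, chk3 f_mm_202 t 6 4 1 = true :=
  ⟨(b (b (a (b (a (b (l 16059896) (l 16034952)) (b (l 16120040) (l 16222144))) (a (l 15987496) (b (l 16190328) (l 16164312)))) (b (a (b (a (l 16375296) (l 16455944)) (a (l 16353848) (l 16436040))) (b (a (l 16529760) (l 16574960)) (a (l 16512056) (l 16581440)))) (a (a (l 16308152) (l 16391184)) (a (l 16449048) (l 16478864))))) (a (b (a (l 15951328) (l 16140800)) (a (l 15950720) (l 16140888))) (a (b (l 16315008) (l 16312064)) (b (l 16366144) (l 16339840))))) (a (b (a (b (l 15983592) (l 16044808)) (b (l 16173664) (l 16239104))) (a (b (l 16132216) (l 16225760)) (b (l 16180912) (l 16331224)))) (b (a (b (l 16343992) (b (l 16381520) (l 16396848))) (b (a (l 16449120) (l 16497928)) (l 99018242759))) (a (b (l 16392104) (l 4)) (l 4))))), by decide +kernel⟩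

def k3_mm_202 : ∃ t, chk3 f_mm_202 t 14 8 1 = true :=
  ⟨(b (b (a (b (a (l 16585688) (b (l 16584656) (l 16616912))) (a (l 16620408) (l 16594448))) (a (b (a (b (l 16601200) (l 16612200)) (b (b (l 16600216) (l 16606528)) (l 16614336))) (b (l 16620944) (l 16639064))) (b (a (b (b (a (l 16605560) (l 16610712)) (l 16614296)) (l 16622072)) (b (b (a (b (l 16615328) (l 16618648)) (a (l 16622432) (a (l 16625352) (l 16627368)))) (l 16626904)) (l 16634664))) (b (a (l 16629896) (l 16642424)) (l 16653288))))) (a (a (b (l 16617504) (l 16595912)) (b (l 16669952) (l 16651824))) (a (b (l 16668680) (l 16694984)) (b (l 16639952) (l 16713088))))) (a (b (a (l 16553432) (l 16611960)) (a (l 16497552) (b (l 16617784) (l 4)))) (b (a (b (l 16685008) (l 16673912)) (b (l 16710160) (l 4))) (l 4)))), by decide +kernel⟩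

def k4_mm_202 : ∃ t, chk3 f_mm_202 t 15 8 1 = true :=
  ⟨(b (a (b (a (b (b (a (b (a (b (a (l 16623560) (a (l 16632048) (l 16629024))) (l 16634328)) (b (a (b (a (l 16635656) (b (l 16637512) (l 16638408))) (l 16638560)) (b (a (a (l 16639720) (l 16638280)) (c (l 16640840) (l 16640608))) (l 16643272))) (l 16643448))) (a (l 16639056) (l 16648256))) (a (b (b (a (b (b (a (c (l 16644760) (l 16644544)) (c (l 16647208) (l 16647000))) (l 16646784)) (l 16648128)) (b (a (c (l 16647528) (l 16647320)) (a (l 16649304) (l 16653176))) (l 16653120))) (l 16653264)) (l 16658168)) (b (b (b (a (a (l 16652400) (l 16657440)) (b (l 16657880) (l 16661448))) (l 16660488)) (l 16663176)) (l 16668216)))) (a (a (l 16646864) (l 16656128)) (a (l 16666208) (l 16676456)))) (b (a (l 16659160) (l 16679328)) (a (l 16676672) (l 16696744)))) (b (b (a (b (a (b (b (a (l 16662904) (l 16669912)) (l 16669640)) (l 16672392)) (b (b (a (l 16674152) (l 16678280)) (l 16678184)) (l 16681016))) (a (l 16677576) (l 16686352)))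 (b (a (b (a (l 16678072) (l 6)) (l 16689224)) (l 6)) (a (l 16694712) (l 16702856)))) (a (l 16669744) (l 16687136))) (b (a (l 16699144) (l 16696384)) (a (l 16695968) (l 16735408))))) (a (b (a (l 16704696) (l 16703472)) (a (l 16725024) (l 16727152))) (b (a (l 16716656) (l 47479406871)) (l 4)))) (b (a (b (a (b (l 6) (b (l 16722208) (l 16727752))) (l 6)) (a (b (b (l 16732360) (l 16716584)) (l 16727936)) (b (a (l 16725352) (l 6)) (l 4)))) (b (l 6) (l 4))) (l 4))) (l 4)), by decide +kernel⟩

def k5_mm_202 : ∃ t, chk3 f_mm_202 t 7 9 1 = true :=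
  ⟨(a (l 4) (l 4)), by decide +kernel⟩

def k6_mm_202 : ∃ t, chk3 f_mm_202 t 3 5 1 = true :=
  ⟨(a (b (a (b (a (b (l 16270808) (l 4)) (l 4)) (l 4)) (l 4)) (l 4)) (l 4)), by decide +kernel⟩

def k7_mm_202 : ∃ t, chk3 f_mm_202 t 1 3 1 = true :=
  ⟨(a (a (b (b (a (b (b (l 15532896) (l 13654034055)) (a (l 15696432) (l 15951576))) (b (b (l 15997288) (l 4)) (l 4))) (l 4)) (l 2)) (l 4)) (l 4)), by decide +kernel⟩

theorem s8_mm_202 : ∃ t, chk3 f_mm_202 t 7 8 1 = true := ex3_a k3_mm_202 k4_mm_202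

theorem s9_mm_202 : ∃ t, chk3 f_mm_202 t 7 4 1 = true := ex3_b s8_mm_202 k5_mm_202

theorem s10_mm_202 : ∃ t, chk3 f_mm_202 t 3 4 1 = true := ex3_a k2_mm_202 s9_mm_202

theorem s11_mm_202 : ∃ t, chk3 f_mm_202 t 3 2 1 = true := ex3_b s10_mm_202 k6_mm_202

theorem s12_mm_202 : ∃ t, chk3 f_mm_202 t 2 2 1 = true := ex3_b k0_mm_202 k1_mm_202

theorem s13_mm_202 : ∃ t, chk3 f_mm_202 t 1 2 1 = true := ex3_a s12_mm_202 s11_mm_202

theorem s14_mm_202 : ∃ t, chk3 f_mm_202 t 1 1 1 = true := ex3_b s13_mm_202 k7_mm_202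

theorem c_mm_202 : CertB 0 536870912 0 536870912 1040187392 5207648 3 eng mog cd0q2 cd2q0 pd2 true false false .pp 2 0 2
    ndB0q2 ndB2q0 pcB2 cut_mm_202 Ext.none :=
  certB0 (fam := true) (s1 := false) (s2 := false) (a := 2) (b := 0) (c := 2) (cn := .pp) (n1 := ndB0q2) (n2 := ndB2q0) (pc := pcB2) (cut := cut_mm_202) (xt := Ext.none) (P1 := 0) (W1 := 536870912) (P2 := 0) (W2 := 536870912) (P3 := 1040187392) (W3 := 5207648) (N0 := 3) (En := eng) (mo := mog) (C1 := cd0q2) (C2 := cd2q0) (C3 := pd2)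
    rfl s14_mm_202

noncomputable def f_mm_203 : ℕ → ℕ → ℕ → ℕ → Bool := onCell 0 536870912 1610612736 536870912 1040187392 5207648
    (rowB 3 eng mog cd0q2 cd2q0 pd3 1 true false false .up 2 0 3 (qsf 0 536870912 0 536870912 3) ndB0q2 ndB2q0 pcB3 Cut.none Ext.none)

def k0_mm_203 : ∃ t, chk3 f_mm_203 t 1 1 1 = true :=
  ⟨(a (b (l 4) (l 2)) (l 4)), by decide +kernel⟩

theorem c_mm_203 : CertB 0 536870912 0 536870912 1040187392 5207648 3 eng mog cd0q2 cd2q0 pd3 true false false .up 2 0 3
    ndB0q2 ndB2q0 pcB3 Cut.none Ext.none :=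
  certB1 (fam := true) (s1 := false) (s2 := false) (a := 2) (b := 0) (c := 3) (cn := .up) (n1 := ndB0q2) (n2 := ndB2q0) (pc := pcB3) (cut := Cut.none) (xt := Ext.none) (P1 := 0) (W1 := 536870912) (P2 := 0) (W2 := 536870912) (P3 := 1040187392) (W3 := 5207648) (N0 := 3) (En := eng) (mo := mog) (C1 := cd0q2) (C2 := cd2q0) (C3 := pd3)
    rfl (fun _ => rfl) k0_mm_203

noncomputable def f_mm_213 : ℕ → ℕ → ℕ → ℕ → Bool := onCell 0 536870912 536870912 536870912 1040187392 5207648
    (rowB 3 eng mog cd0q2 cd2q1 pd3 0 true false false .pnn 2 1 3 (qsf 0 536870912 536870912 536870912 3) ndB0q2 ndB2q1 pcB3 Cut.none Ext.none)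

def k0_mm_213 : ∃ t, chk3 f_mm_213 t 1 1 1 = true :=
  ⟨(l 4), by decide +kernel⟩

theorem c_mm_213 : CertB 0 536870912 536870912 536870912 1040187392 5207648 3 eng mog cd0q2 cd2q1 pd3 true false false .pnn 2 1 3
    ndB0q2 ndB2q1 pcB3 Cut.none Ext.none :=
  certB0 (fam := true) (s1 := false) (s2 := false) (a := 2) (b := 1) (c := 3) (cn := .pnn) (n1 := ndB0q2) (n2 := ndB2q1) (pc := pcB3) (cut := Cut.none) (xt := Ext.none) (P1 := 0) (W1 := 536870912) (P2 := 536870912) (W2 := 536870912) (P3 := 1040187392) (W3 := 5207648) (N0 := 3) (En := eng) (mo := mog) (C1 := cd0q2) (C2 := cd2q1) (C3 := pd3)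
    rfl k0_mm_213

end Pool.Agent.Strip051.G.I9688_9736.Tab.C.BA02

namespace Pool.Agent.Strip051.G.I9688_9736.Tab.C.BA03

open Pool.Agent.Strip051.PB Pool.Agent.Strip051.PB.T
open Pool.Agent.Strip051.G.I9688_9736.Tab

noncomputable def f_pp_001 : ℕ → ℕ → ℕ → ℕ → Bool := onCell 0 536870912 0 536870912 1040187392 5207648
    (rowB 3 eng mog cd0q0 cd3q0 pd1 0 true true true .up 0 0 1 (qsf 0 536870912 0 536870912 1) ndB0q0 ndB3q0 pcB1 Cut.none Ext.none)

def k0_pp_001 : ∃ t, chk3 f_pp_001 t 1 1 1 = true :=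
  ⟨(l 4), by decide +kernel⟩

theorem c_pp_001 : CertB 0 536870912 0 536870912 1040187392 5207648 3 eng mog cd0q0 cd3q0 pd1 true true true .up 0 0 1
    ndB0q0 ndB3q0 pcB1 Cut.none Ext.none :=
  certB0 (fam := true) (s1 := true) (s2 := true) (a := 0) (b := 0) (c := 1) (cn := .up) (n1 := ndB0q0) (n2 := ndB3q0) (pc := pcB1) (cut := Cut.none) (xt := Ext.none) (P1 := 0) (W1 := 536870912) (P2 := 0) (W2 := 536870912) (P3 := 1040187392) (W3 := 5207648) (N0 := 3) (En := eng) (mo := mog) (C1 := cd0q0) (C2 := cd3q0) (C3 := pd1)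
    rfl k0_pp_001

noncomputable def f_pp_011 : ℕ → ℕ → ℕ → ℕ → Bool := onCell 0 536870912 536870912 536870912 1040187392 5207648
    (rowB 3 eng mog cd0q0 cd3q1 pd1 0 true true true .pnn 0 1 1 (qsf 0 536870912 536870912 536870912 1) ndB0q0 ndB3q1 pcB1 Cut.none Ext.none)

def k0_pp_011 : ∃ t, chk3 f_pp_011 t 1 1 1 = true :=
  ⟨(l 4), by decide +kernel⟩

theorem c_pp_011 : CertB 0 536870912 536870912 536870912 1040187392 5207648 3 eng mog cd0q0 cd3q1 pd1 true true true .pnn 0 1 1
    ndB0q0 ndB3q1 pcB1 Cut.none Ext.none :=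
  certB0 (fam := true) (s1 := true) (s2 := true) (a := 0) (b := 1) (c := 1) (cn := .pnn) (n1 := ndB0q0) (n2 := ndB3q1) (pc := pcB1) (cut := Cut.none) (xt := Ext.none) (P1 := 0) (W1 := 536870912) (P2 := 536870912) (W2 := 536870912) (P3 := 1040187392) (W3 := 5207648) (N0 := 3) (En := eng) (mo := mog) (C1 := cd0q0) (C2 := cd3q1) (C3 := pd1)
    rfl k0_pp_011

noncomputable def f_pp_012 : ℕ → ℕ → ℕ → ℕ → Bool := onCell 0 536870912 536870912 536870912 1040187392 5207648
    (rowB 3 eng mog cd0q0 cd3q1 pd2 0 true true true .pnp 0 1 2 (qsf 0 536870912 536870912 536870912 2) ndB0q0 ndB3q1 pcB2 Cut.none Ext.none)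

def k0_pp_012 : ∃ t, chk3 f_pp_012 t 1 1 1 = true :=
  ⟨(l 4), by decide +kernel⟩

theorem c_pp_012 : CertB 0 536870912 536870912 536870912 1040187392 5207648 3 eng mog cd0q0 cd3q1 pd2 true true true .pnp 0 1 2
    ndB0q0 ndB3q1 pcB2 Cut.none Ext.none :=
  certB0 (fam := true) (s1 := true) (s2 := true) (a := 0) (b := 1) (c := 2) (cn := .pnp) (n1 := ndB0q0) (n2 := ndB3q1) (pc := pcB2) (cut := Cut.none) (xt := Ext.none) (P1 := 0) (W1 := 536870912) (P2 := 536870912) (W2 := 536870912) (P3 := 1040187392) (W3 := 5207648) (N0 := 3) (En := eng) (mo := mog) (C1 := cd0q0) (C2 := cd3q1) (C3 := pd2)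
    rfl k0_pp_012

noncomputable def f_pp_022 : ℕ → ℕ → ℕ → ℕ → Bool := onCell 0 536870912 1073741824 536870912 1040187392 5207648
    (rowB 3 eng mog cd0q0 cd3q2 pd2 0 true true true .pp 0 2 2 (qsf 0 536870912 1073741824 536870912 2) ndB0q0 ndB3q2 pcB2 Cut.none Ext.none)

def k0_pp_022 : ∃ t, chk3 f_pp_022 t 1 1 1 = true :=
  ⟨(a (b (l 4) (l 4)) (l 4)), by decide +kernel⟩

theorem c_pp_022 : CertB 0 536870912 1073741824 536870912 1040187392 5207648 3 eng mog cd0q0 cd3q2 pd2 true true true .pp 0 2 2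
    ndB0q0 ndB3q2 pcB2 Cut.none Ext.none :=
  certB0 (fam := true) (s1 := true) (s2 := true) (a := 0) (b := 2) (c := 2) (cn := .pp) (n1 := ndB0q0) (n2 := ndB3q2) (pc := pcB2) (cut := Cut.none) (xt := Ext.none) (P1 := 0) (W1 := 536870912) (P2 := 1073741824) (W2 := 536870912) (P3 := 1040187392) (W3 := 5207648) (N0 := 3) (En := eng) (mo := mog) (C1 := cd0q0) (C2 := cd3q2) (C3 := pd2)
    rfl k0_pp_022

noncomputable def f_pp_023 : ℕ → ℕ → ℕ → ℕ → Bool := onCell 1610612736 536870912 1073741824 536870912 1040187392 5207648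
    (rowB 3 eng mog cd0q0 cd3q2 pd3 2 true true true .up 0 2 3 (qsf 0 536870912 1073741824 536870912 3) ndB0q0 ndB3q2 pcB3 Cut.none Ext.none)

def k0_pp_023 : ∃ t, chk3 f_pp_023 t 1 1 1 = true :=
  ⟨(l 4), by decide +kernel⟩

theorem c_pp_023 : CertB 0 536870912 1073741824 536870912 1040187392 5207648 3 eng mog cd0q0 cd3q2 pd3 true true true .up 0 2 3
    ndB0q0 ndB3q2 pcB3 Cut.none Ext.none :=
  certB2 (fam := true) (s1 := true) (s2 := true) (a := 0) (b := 2) (c := 3) (cn := .up) (n1 := ndB0q0) (n2 := ndB3q2) (pc := pcB3) (cut := Cut.none) (xt := Ext.none) (P1 := 0) (W1 := 536870912) (P2 := 1073741824) (W2 := 536870912) (P3 := 1040187392) (W3 := 5207648) (N0 := 3) (En := eng) (mo := mog) (C1 := cd0q0) (C2 := cd3q2) (C3 := pd3)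
    rfl (fun _ => rfl) k0_pp_023

noncomputable def f_pp_033 : ℕ → ℕ → ℕ → ℕ → Bool := onCell 0 536870912 0 1230186008 1040187392 5207648
    (rowB 3 eng mog cd0q0 cd3q3 pd3 0 true true true .pnn 0 3 3 (qsf 0 536870912 0 1230186008 3) ndB0q0 ndB3q3 pcB3 Cut.none Ext.none)

def k0_pp_033 : ∃ t, chk3 f_pp_033 t 1 1 1 = true :=
  ⟨(b (l 4) (l 4)), by decide +kernel⟩

theorem c_pp_033 : CertB 0 536870912 0 1230186008 1040187392 5207648 3 eng mog cd0q0 cd3q3 pd3 true true true .pnn 0 3 3
    ndB0q0 ndB3q3 pcB3 Cut.none Ext.none :=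
  certB0 (fam := true) (s1 := true) (s2 := true) (a := 0) (b := 3) (c := 3) (cn := .pnn) (n1 := ndB0q0) (n2 := ndB3q3) (pc := pcB3) (cut := Cut.none) (xt := Ext.none) (P1 := 0) (W1 := 536870912) (P2 := 0) (W2 := 1230186008) (P3 := 1040187392) (W3 := 5207648) (N0 := 3) (En := eng) (mo := mog) (C1 := cd0q0) (C2 := cd3q3) (C3 := pd3)
    rfl k0_pp_033

noncomputable def f_pp_101 : ℕ → ℕ → ℕ → ℕ → Bool := onCell 536870912 536870912 0 536870912 1040187392 5207648
    (rowB 3 eng mog cd0q1 cd3q0 pd1 0 true true true .npn 1 0 1 (qsf 536870912 536870912 0 536870912 1) ndB0q1 ndB3q0 pcB1 Cut.none Ext.none)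

def k0_pp_101 : ∃ t, chk3 f_pp_101 t 1 1 1 = true :=
  ⟨(l 5), by decide +kernel⟩

theorem c_pp_101 : CertB 536870912 536870912 0 536870912 1040187392 5207648 3 eng mog cd0q1 cd3q0 pd1 true true true .npn 1 0 1
    ndB0q1 ndB3q0 pcB1 Cut.none Ext.none :=
  certB0 (fam := true) (s1 := true) (s2 := true) (a := 1) (b := 0) (c := 1) (cn := .npn) (n1 := ndB0q1) (n2 := ndB3q0) (pc := pcB1) (cut := Cut.none) (xt := Ext.none) (P1 := 536870912) (W1 := 536870912) (P2 := 0) (W2 := 536870912) (P3 := 1040187392) (W3 := 5207648) (N0 := 3) (En := eng) (mo := mog) (C1 := cd0q1) (C2 := cd3q0) (C3 := pd1)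
    rfl k0_pp_101

noncomputable def f_pp_102 : ℕ → ℕ → ℕ → ℕ → Bool := onCell 536870912 536870912 0 536870912 1040187392 5207648
    (rowB 3 eng mog cd0q1 cd3q0 pd2 0 true true true .npp 1 0 2 (qsf 536870912 536870912 0 536870912 2) ndB0q1 ndB3q0 pcB2 Cut.none Ext.none)

def k0_pp_102 : ∃ t, chk3 f_pp_102 t 1 1 1 = true :=
  ⟨(l 5), by decide +kernel⟩

theorem c_pp_102 : CertB 536870912 536870912 0 536870912 1040187392 5207648 3 eng mog cd0q1 cd3q0 pd2 true true true .npp 1 0 2
    ndB0q1 ndB3q0 pcB2 Cut.none Ext.none :=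
  certB0 (fam := true) (s1 := true) (s2 := true) (a := 1) (b := 0) (c := 2) (cn := .npp) (n1 := ndB0q1) (n2 := ndB3q0) (pc := pcB2) (cut := Cut.none) (xt := Ext.none) (P1 := 536870912) (W1 := 536870912) (P2 := 0) (W2 := 536870912) (P3 := 1040187392) (W3 := 5207648) (N0 := 3) (En := eng) (mo := mog) (C1 := cd0q1) (C2 := cd3q0) (C3 := pd2)
    rfl k0_pp_102

noncomputable def f_pp_112 : ℕ → ℕ → ℕ → ℕ → Bool := onCell 536870912 536870912 536870912 536870912 1040187392 5207648
    (rowB 3 eng mog cd0q1 cd3q1 pd2 0 true true true .dn 1 1 2 (qsf 536870912 536870912 536870912 536870912 2) ndB0q1 ndB3q1 pcB2 Cut.none Ext.none)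

def k0_pp_112 : ∃ t, chk3 f_pp_112 t 1 1 1 = true :=
  ⟨(l 4), by decide +kernel⟩

theorem c_pp_112 : CertB 536870912 536870912 536870912 536870912 1040187392 5207648 3 eng mog cd0q1 cd3q1 pd2 true true true .dn 1 1 2
    ndB0q1 ndB3q1 pcB2 Cut.none Ext.none :=
  certB0 (fam := true) (s1 := true) (s2 := true) (a := 1) (b := 1) (c := 2) (cn := .dn) (n1 := ndB0q1) (n2 := ndB3q1) (pc := pcB2) (cut := Cut.none) (xt := Ext.none) (P1 := 536870912) (W1 := 536870912) (P2 := 536870912) (W2 := 536870912) (P3 := 1040187392) (W3 := 5207648) (N0 := 3) (En := eng) (mo := mog) (C1 := cd0q1) (C2 := cd3q1) (C3 := pd2)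
    rfl k0_pp_112

noncomputable def f_pp_113 : ℕ → ℕ → ℕ → ℕ → Bool := onCell 536870912 536870912 536870912 536870912 1040187392 5207648
    (rowB 3 eng mog cd0q1 cd3q1 pd3 0 true true true .nn 1 1 3 (qsf 536870912 536870912 536870912 536870912 3) ndB0q1 ndB3q1 pcB3 Cut.none Ext.none)

def k0_pp_113 : ∃ t, chk3 f_pp_113 t 1 1 1 = true :=
  ⟨(l 4), by decide +kernel⟩

theorem c_pp_113 : CertB 536870912 536870912 536870912 536870912 1040187392 5207648 3 eng mog cd0q1 cd3q1 pd3 true true true .nn 1 1 3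
    ndB0q1 ndB3q1 pcB3 Cut.none Ext.none :=
  certB0 (fam := true) (s1 := true) (s2 := true) (a := 1) (b := 1) (c := 3) (cn := .nn) (n1 := ndB0q1) (n2 := ndB3q1) (pc := pcB3) (cut := Cut.none) (xt := Ext.none) (P1 := 536870912) (W1 := 536870912) (P2 := 536870912) (W2 := 536870912) (P3 := 1040187392) (W3 := 5207648) (N0 := 3) (En := eng) (mo := mog) (C1 := cd0q1) (C2 := cd3q1) (C3 := pd3)
    rfl k0_pp_113

noncomputable def f_pp_123 : ℕ → ℕ → ℕ → ℕ → Bool := onCell 536870912 536870912 1073741824 536870912 1040187392 5207648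
    (rowB 3 eng mog cd0q1 cd3q2 pd3 0 true true true .npn 1 2 3 (qsf 536870912 536870912 1073741824 536870912 3) ndB0q1 ndB3q2 pcB3 Cut.none Ext.none)

def k0_pp_123 : ∃ t, chk3 f_pp_123 t 1 1 1 = true :=
  ⟨(l 4), by decide +kernel⟩

theorem c_pp_123 : CertB 536870912 536870912 1073741824 536870912 1040187392 5207648 3 eng mog cd0q1 cd3q2 pd3 true true true .npn 1 2 3
    ndB0q1 ndB3q2 pcB3 Cut.none Ext.none :=
  certB0 (fam := true) (s1 := true) (s2 := true) (a := 1) (b := 2) (c := 3) (cn := .npn) (n1 := ndB0q1) (n2 := ndB3q2) (pc := pcB3) (cut := Cut.none) (xt := Ext.none) (P1 := 536870912) (W1 := 536870912) (P2 := 1073741824) (W2 := 536870912) (P3 := 1040187392) (W3 := 5207648) (N0 := 3) (En := eng) (mo := mog) (C1 := cd0q1) (C2 := cd3q2) (C3 := pd3)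
    rfl k0_pp_123

noncomputable def f_pp_133 : ℕ → ℕ → ℕ → ℕ → Bool := onCell 536870912 536870912 0 1230186008 1040187392 5207648
    (rowB 3 eng mog cd0q1 cd3q3 pd3 0 true true true .dn 1 3 3 (qsf 536870912 536870912 0 1230186008 3) ndB0q1 ndB3q3 pcB3 Cut.none Ext.none)

def k0_pp_133 : ∃ t, chk3 f_pp_133 t 1 1 1 = true :=
  ⟨(b (l 2) (l 4)), by decide +kernel⟩

theorem c_pp_133 : CertB 536870912 536870912 0 1230186008 1040187392 5207648 3 eng mog cd0q1 cd3q3 pd3 true true true .dn 1 3 3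
    ndB0q1 ndB3q3 pcB3 Cut.none Ext.none :=
  certB0 (fam := true) (s1 := true) (s2 := true) (a := 1) (b := 3) (c := 3) (cn := .dn) (n1 := ndB0q1) (n2 := ndB3q3) (pc := pcB3) (cut := Cut.none) (xt := Ext.none) (P1 := 536870912) (W1 := 536870912) (P2 := 0) (W2 := 1230186008) (P3 := 1040187392) (W3 := 5207648) (N0 := 3) (En := eng) (mo := mog) (C1 := cd0q1) (C2 := cd3q3) (C3 := pd3)
    rfl k0_pp_133

noncomputable def f_pp_202 : ℕ → ℕ → ℕ → ℕ → Bool := onCell 0 536870912 0 536870912 1040187392 5207648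
    (rowB 3 eng mog cd0q2 cd3q0 pd2 0 true true true .pp 2 0 2 (qsf 0 536870912 0 536870912 2) ndB0q2 ndB3q0 pcB2 Cut.none Ext.none)

def k0_pp_202 : ∃ t, chk3 f_pp_202 t 1 1 1 = true :=
  ⟨(l 5), by decide +kernel⟩

theorem c_pp_202 : CertB 0 536870912 0 536870912 1040187392 5207648 3 eng mog cd0q2 cd3q0 pd2 true true true .pp 2 0 2
    ndB0q2 ndB3q0 pcB2 Cut.none Ext.none :=
  certB0 (fam := true) (s1 := true) (s2 := true) (a := 2) (b := 0) (c := 2) (cn := .pp) (n1 := ndB0q2) (n2 := ndB3q0) (pc := pcB2) (cut := Cut.none) (xt := Ext.none) (P1 := 0) (W1 := 536870912) (P2 := 0) (W2 := 536870912) (P3 := 1040187392) (W3 := 5207648) (N0 := 3) (En := eng) (mo := mog) (C1 := cd0q2) (C2 := cd3q0) (C3 := pd2)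
    rfl k0_pp_202

noncomputable def f_pp_203 : ℕ → ℕ → ℕ → ℕ → Bool := onCell 0 536870912 0 536870912 1040187392 5207648
    (rowB 3 eng mog cd0q2 cd3q0 pd3 0 true true true .up 2 0 3 (qsf 0 536870912 0 536870912 3) ndB0q2 ndB3q0 pcB3 Cut.none Ext.none)

def k0_pp_203 : ∃ t, chk3 f_pp_203 t 1 1 1 = true :=
  ⟨(l 5), by decide +kernel⟩

theorem c_pp_203 : CertB 0 536870912 0 536870912 1040187392 5207648 3 eng mog cd0q2 cd3q0 pd3 true true true .up 2 0 3
    ndB0q2 ndB3q0 pcB3 Cut.none Ext.none :=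
  certB0 (fam := true) (s1 := true) (s2 := true) (a := 2) (b := 0) (c := 3) (cn := .up) (n1 := ndB0q2) (n2 := ndB3q0) (pc := pcB3) (cut := Cut.none) (xt := Ext.none) (P1 := 0) (W1 := 536870912) (P2 := 0) (W2 := 536870912) (P3 := 1040187392) (W3 := 5207648) (N0 := 3) (En := eng) (mo := mog) (C1 := cd0q2) (C2 := cd3q0) (C3 := pd3)
    rfl k0_pp_203

noncomputable def f_pp_213 : ℕ → ℕ → ℕ → ℕ → Bool := onCell 0 536870912 536870912 536870912 1040187392 5207648
    (rowB 3 eng mog cd0q2 cd3q1 pd3 0 true true true .pnn 2 1 3 (qsf 0 536870912 536870912 536870912 3) ndB0q2 ndB3q1 pcB3 Cut.none Ext.none)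

def k0_pp_213 : ∃ t, chk3 f_pp_213 t 1 1 1 = true :=
  ⟨(l 4), by decide +kernel⟩

theorem c_pp_213 : CertB 0 536870912 536870912 536870912 1040187392 5207648 3 eng mog cd0q2 cd3q1 pd3 true true true .pnn 2 1 3
    ndB0q2 ndB3q1 pcB3 Cut.none Ext.none :=
  certB0 (fam := true) (s1 := true) (s2 := true) (a := 2) (b := 1) (c := 3) (cn := .pnn) (n1 := ndB0q2) (n2 := ndB3q1) (pc := pcB3) (cut := Cut.none) (xt := Ext.none) (P1 := 0) (W1 := 536870912) (P2 := 536870912) (W2 := 536870912) (P3 := 1040187392) (W3 := 5207648) (N0 := 3) (En := eng) (mo := mog) (C1 := cd0q2) (C2 := cd3q1) (C3 := pd3)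
    rfl k0_pp_213

noncomputable def f_pm_001 : ℕ → ℕ → ℕ → ℕ → Bool := onCell 536870912 536870912 0 536870912 1040187392 5207648
    (rowB 3 eng mog cd0q0 cd3q0 pd1 2 true true false .up 0 0 1 (qsf 0 536870912 0 536870912 1) ndB0q0 ndB3q0 pcB1 Cut.none Ext.none)

def k0_pm_001 : ∃ t, chk3 f_pm_001 t 1 1 1 = true :=
  ⟨(a (l 3) (a (l 3) (b (l 2) (a (l 3) (b (l 2) (a (l 3) (b (l 2) (a (l 3) (b (l 2) (a (l 3) (b (l 2) (a (b (l 214908794871) (l 217056279927)) (b (l 2) (l 13059128)))))))))))))), by decide +kernel⟩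

theorem c_pm_001 : CertB 0 536870912 0 536870912 1040187392 5207648 3 eng mog cd0q0 cd3q0 pd1 true true false .up 0 0 1
    ndB0q0 ndB3q0 pcB1 Cut.none Ext.none :=
  certB2 (fam := true) (s1 := true) (s2 := false) (a := 0) (b := 0) (c := 1) (cn := .up) (n1 := ndB0q0) (n2 := ndB3q0) (pc := pcB1) (cut := Cut.none) (xt := Ext.none) (P1 := 0) (W1 := 536870912) (P2 := 0) (W2 := 536870912) (P3 := 1040187392) (W3 := 5207648) (N0 := 3) (En := eng) (mo := mog) (C1 := cd0q0) (C2 := cd3q0) (C3 := pd1)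
    rfl (fun _ => rfl) k0_pm_001

noncomputable def cut_pm_011 : Cut := Cut.of [[⟨0, 0, 0, 26843545⟩, ⟨1, 1, 0, 26843545⟩, ⟨2, 1, 0, 26843545⟩]]

noncomputable def xt_pm_011 : Ext := extD3 3 ⟨4, 1, 1, 5, 33, 5, 163, 200, 81, 200, 1, 64⟩ eng cd0q0 cd3q1 pd1 true true false .pnn 0 1 1 rfl ndB0q0 ndB3q1 pcB1

noncomputable def f_pm_011 : ℕ → ℕ → ℕ → ℕ → Bool := onCell 0 536870912 536870912 536870912 1040187392 5207648
    (rowB 3 eng mog cd0q0 cd3q1 pd1 1 true true false .pnn 0 1 1 (qsf 0 536870912 536870912 536870912 1) ndB0q0 ndB3q1 pcB1 cut_pm_011 xt_pm_011)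

def k0_pm_011 : ∃ t, chk3 f_pm_011 t 1 1 1 = true :=
  ⟨(b (l 3) (b (l 3) (b (l 3) (b (l 3) (a (b (l 3) (b (l 3) (a (b (l 3) (b (a (l 3) (l 3)) (a (b (l 3) (a (a (l 6) (a (l 6) (l 3039239510654070447910142015))) (a (a (l 175724301191) (l 16615312)) (a (l 16590464) (l 16570656))))) (a (a (a (a (l 16559336) (l 16554480)) (l 145659324695)) (a (l 16520352) (l 16533688))) (a (l 16519896) (l 16492832)))))) (a (a (l 16442032) (l 16380944)) (l 16296120))))) (b (l 3) (a (a (l 16172792) (l 16100048)) (a (l 16011320) (l 15924344))))))))), by decide +kernel⟩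

theorem c_pm_011 : CertB 0 536870912 536870912 536870912 1040187392 5207648 3 eng mog cd0q0 cd3q1 pd1 true true false .pnn 0 1 1
    ndB0q0 ndB3q1 pcB1 cut_pm_011 xt_pm_011 :=
  certB1 (fam := true) (s1 := true) (s2 := false) (a := 0) (b := 1) (c := 1) (cn := .pnn) (n1 := ndB0q0) (n2 := ndB3q1) (pc := pcB1) (cut := cut_pm_011) (xt := xt_pm_011) (P1 := 0) (W1 := 536870912) (P2 := 536870912) (W2 := 536870912) (P3 := 1040187392) (W3 := 5207648) (N0 := 3) (En := eng) (mo := mog) (C1 := cd0q0) (C2 := cd3q1) (C3 := pd1)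
    rfl (fun _ => rfl) k0_pm_011

noncomputable def cut_pm_012 : Cut := Cut.of [[⟨0, 0, 0, 26843545⟩, ⟨1, 1, 0, 26843545⟩, ⟨2, 1, 0, 26843545⟩]]

noncomputable def xt_pm_012 : Ext := extD3 3 ⟨4, 1, 1, 5, 33, 5, 163, 200, 81, 200, 1, 64⟩ eng cd0q0 cd3q1 pd2 true true false .pnp 0 1 2 rfl ndB0q0 ndB3q1 pcB2

noncomputable def f_pm_012 : ℕ → ℕ → ℕ → ℕ → Bool := onCell 0 536870912 1073741824 536870912 1040187392 5207648
    (rowB 3 eng mog cd0q0 cd3q1 pd2 1 true true false .pnp 0 1 2 (qsf 0 536870912 536870912 536870912 2) ndB0q0 ndB3q1 pcB2 cut_pm_012 xt_pm_012)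

def k0_pm_012 : ∃ t, chk3 f_pm_012 t 2 8 1 = true :=
  ⟨(a (b (a (a (b (a (l 6) (a (l 6) (b (b (b (b (l 143091920493002815) (l 16669120)) (l 16664056)) (l 16653808)) (b (l 16639912) (l 16625760))))) (a (b (l 6) (l 2)) (a (b (l 6) (a (l 2) (l 16598168))) (b (l 16604112) (a (l 16582432) (l 16566600)))))) (b (b (a (b (a (b (l 142709290379165759) (l 16632856)) (b (l 16610784) (l 16604080))) (a (l 16622632) (l 16593880))) (a (b (b (l 16585600) (l 16578912)) (l 16568744)) (b (l 16562152) (l 16548664)))) (a (a (l 16601728) (l 16573040)) (a (l 16547968) (l 16527952)))) (a (a (b (l 16573072) (l 16543608)) (l 141510959919087679)) (b (l 16508848) (l 16479632))))) (a (b (a (b (a (b (l 16548624) (l 16535176)) (b (l 16540176) (l 16526776))) (a (l 16514528) (l 16506200))) (b (a (l 16525880) (l 16517976)) (l 16494904))) (a (b (l 16481488) (l 16452496)) (l 16452560))) (b (a (b (l 16503824) (l 16476872)) (l 16463056)) (a (l 16434880) (l 16407976))))) (a (a (b (a (l 2) (b (a (l 2) (l 16523336))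 (l 2))) (l 2)) (a (b (a (b (l 16513456) (l 16482680)) (b (l 16485048) (l 16454392))) (a (l 2) (l 16407336))) (b (a (l 16445040) (l 16425400)) (a (l 16382872) (l 16363496))))) (a (a (b (l 16407784) (l 16346280)) (b (l 16393776) (l 16332840))) (b (l 16342840) (l 16303784))))) (b (a (b (a (l 16413896) (l 16351792)) (a (l 16359624) (l 16298696))) (b (l 16265976) (l 16214864))) (a (a (l 16273656) (l 16214768)) (a (l 16159856) (l 16108512))))), by decide +kernel⟩

def k1_pm_012 : ∃ t, chk3 f_pm_012 t 2 9 1 = true :=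
  ⟨(a (a (a (l 2) (a (l 2) (a (l 2) (b (l 16245840) (l 2))))) (a (b (a (b (l 16282904) (l 16217840)) (b (l 16270096) (l 16205728))) (a (l 2) (l 16105880))) (b (b (l 16242032) (l 16178760)) (a (b (l 16125464) (l 16058928)) (l 16069040))))) (b (a (a (l 16153032) (l 16097224)) (a (l 16045568) (l 15997664))) (a (a (l 16026928) (l 15974688)) (a (l 15926728) (l 15882608))))), by decide +kernel⟩

def k2_pm_012 : ∃ t, chk3 f_pm_012 t 3 4 1 = true :=
  ⟨(b (b (a (a (b (l 16161384) (l 16113312)) (l 16043976)) (a (l 15956376) (l 15871704))) (a (a (l 16037888) (l 15951520)) (a (l 15872056) (l 15796312)))) (a (b (a (l 15932528) (l 15854128)) (a (a (l 15841952) (l 15803632)) (b (l 15778968) (l 15731456)))) (b (a (a (l 15799512) (l 15766176)) (a (l 15733528) (l 15700696))) (a (a (l 15711472) (l 15682840)) (l 15639816))))), by decide +kernel⟩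

def k3_pm_012 : ∃ t, chk3 f_pm_012 t 1 5 1 = true :=
  ⟨(a (a (a (l 2) (b (a (l 2) (b (b (a (l 2) (l 15969232)) (l 2)) (l 2))) (l 2))) (b (b (a (b (a (l 15929360) (l 15880208)) (b (a (l 15879200) (l 15831936)) (b (a (l 15853352) (l 15807272)) (a (b (l 15839696) (l 15830480)) (b (l 15794440) (l 15785824)))))) (b (l 15814992) (b (l 15769440) (b (l 15746448) (b (l 15734824) (l 15727936)))))) (a (a (l 15764408) (l 15720928)) (a (l 15681704) (l 15649168)))) (a (a (l 2) (b (l 15595944) (l 2))) (a (b (l 15562968) (l 15453096)) (b (l 15545184) (l 15449808)))))) (a (b (b (b (a (l 15741352) (l 15686200)) (a (b (l 15701744) (b (l 15682496) (b (l 15673184) (l 15667632)))) (l 15642680))) (a (l 15616968) (l 15579960))) (a (a (l 15488408) (l 15479736)) (a (l 15469544) (l 15457336)))) (a (b (b (l 15616504) (l 15539568)) (l 15434472)) (b (l 15527376) (l 15391736))))), by decide +kernel⟩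

def k4_pm_012 : ∃ t, chk3 f_pm_012 t 1 3 1 = true :=
  ⟨(a (a (l 2) (b (a (l 2) (b (a (l 2) (l 15320832)) (l 2))) (l 2))) (a (b (a (b (a (l 15329496) (l 15334952)) (a (l 2) (l 15228888))) (b (a (l 15336704) (l 15334256)) (a (l 15244600) (l 15253384)))) (a (l 2) (b (a (l 2) (l 15227816)) (l 2)))) (b (a (b (l 15321768) (l 15252448)) (b (l 15285128) (l 15221696))) (a (b (l 15240464) (l 15279720)) (b (l 15216488) (l 15285504)))))), by decide +kernel⟩

theorem s5_pm_012 : ∃ t, chk3 f_pm_012 t 2 4 1 = true := ex3_b k0_pm_012 k1_pm_012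

theorem s6_pm_012 : ∃ t, chk3 f_pm_012 t 1 4 1 = true := ex3_a s5_pm_012 k2_pm_012

theorem s7_pm_012 : ∃ t, chk3 f_pm_012 t 1 2 1 = true := ex3_b s6_pm_012 k3_pm_012

theorem s8_pm_012 : ∃ t, chk3 f_pm_012 t 1 1 1 = true := ex3_b s7_pm_012 k4_pm_012

theorem c_pm_012 : CertB 0 536870912 536870912 536870912 1040187392 5207648 3 eng mog cd0q0 cd3q1 pd2 true true false .pnp 0 1 2
    ndB0q0 ndB3q1 pcB2 cut_pm_012 xt_pm_012 :=
  certB1 (fam := true) (s1 := true) (s2 := false) (a := 0) (b := 1) (c := 2) (cn := .pnp) (n1 := ndB0q0) (n2 := ndB3q1) (pc := pcB2) (cut := cut_pm_012) (xt := xt_pm_012) (P1 := 0) (W1 := 536870912) (P2 := 536870912) (W2 := 536870912) (P3 := 1040187392) (W3 := 5207648) (N0 := 3) (En := eng) (mo := mog) (C1 := cd0q0) (C2 := cd3q1) (C3 := pd2)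
    rfl (fun _ => rfl) s8_pm_012

noncomputable def f_pm_022 : ℕ → ℕ → ℕ → ℕ → Bool := onCell 0 536870912 1073741824 536870912 1040187392 5207648
    (rowB 3 eng mog cd0q0 cd3q2 pd2 1 true true false .pp 0 2 2 (qsf 0 536870912 1073741824 536870912 2) ndB0q0 ndB3q2 pcB2 Cut.none Ext.none)

def k0_pm_022 : ∃ t, chk3 f_pm_022 t 4 16 1 = true :=
  ⟨(a (b (l 3) (a (b (b (l 3) (b (l 3) (b (b (l 3) (a (a (b (l 3) (a (a (a (a (c (l 16576032) (b (a (c (l 16574272) (l 16573512)) (l 16575112)) (l 16574552))) (l 80697994503)) (l 16570912)) (l 16588808)) (l 16603872))) (a (l 323363765079) (l 355576061479))) (l 3))) (a (a (a (a (a (b (c (l 16577400) (l 16569344)) (l 16576856)) (l 16571152)) (l 16589008)) (l 16603920)) (a (l 16624160) (a (l 16639608) (l 16650048)))) (a (a (a (l 16661896) (b (l 16672496) (l 16671264))) (a (b (l 216526562007) (l 16681984)) (b (b (a (l 16690296) (l 361884386311)) (l 56404836791)) (l 16692792)))) (a (a (l 544957362327) (l 1)) (l 1))))))) (a (b (a (b (a (a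 (b (a (l 16566664) (l 16582032)) (l 16569432)) (l 16579096)) (l 16594008)) (a (b (l 16574552) (l 16564136)) (l 16604944))) (b (a (l 16624736) (l 16648008)) (a (l 16625192) (l 16645848)))) (b (a (b (a (l 16584968) (l 16604824)) (a (b (l 16584696) (b (a (l 16558720) (l 16589520)) (l 16584832))) (l 16594256))) (a (l 16625256) (l 16645744))) (a (a (a (l 16560960) (l 16591616)) (l 16606344)) (l 16610088)))) (b (a (b (a (b (l 16666240) (l 16666584)) (a (l 16682464) (l 16693280))) (a (l 16666896) (l 16688336))) (b (a (a (b (l 257194561831) (l 16704352)) (l 420940225351)) (l 1)) (a (a (l 16704680) (l 218003008487)) (l 390875467031)))) (a (b (a (l 16666680) (l 16688144)) (a (l 16667232) (l 16667408))) (b (a (l 16709984) (l 270616377831)) (b (a (l 16709552) (l 153041643271)) (l 16700880))))))) (b (l 1) (a (b (l 1) (a (a (b (l 1) (l 550863014903)) (l 1)) (l 1))) (l 1))))) (l 1)), by decide +kernel⟩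

def k1_pm_022 : ∃ t, chk3 f_pm_022 t 4 17 1 = true :=
  ⟨(a (b (a (a (b (b (a (a (b (l 16590128) (l 16593432)) (l 16590400)) (b (l 16618832) (l 16643064))) (a (b (a (l 16596680) (l 16616208)) (l 16588592)) (l 16626904))) (b (a (l 16582768) (l 16633056)) (a (l 16620176) (l 16638944)))) (b (a (b (l 16662024) (l 16668360)) (b (a (l 16694184) (l 16715768)) (l 16706896))) (a (b (l 16674456) (l 16680288)) (b (l 16685512) (l 16664384))))) (a (b (a (a (b (b (l 277595700231) (l 16702240)) (l 16686240)) (b (l 514892613527) (l 233572193991))) (b (l 1) (l 506302576983))) (a (b (l 16658472) (l 16658688)) (b (a (l 237330225303) (l 504155081863)) (a (l 16639536) (l 241088259623))))) (b (l 1) (a (b (l 1) (l 504691878871)) (l 1))))) (a (a (a (b (b (l 16625848) (l 16631240)) (l 16580608)) (b (l 16626368) (l 16622648))) (b (a (l 16637584) (l 16633128)) (b (a (l 16630744) (l 16625400)) (l 16612560)))) (a (b (a (l 16607008) (b (l 16613256) (l 16593376))) (b (a (l 16598776) (l 16573904)) (l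 16577792))) (b (a (b (a (l 16596200) (l 507913054759)) (l 153041309495)) (b (l 1) (l 507376119271))) (a (b (l 16552136) (l 16540664)) (b (l 307123202231) (a (l 16525400) (l 272226583271)))))))) (b (l 1) (a (a (b (l 1) (a (b (l 1) (l 615823952295)) (l 1))) (l 1)) (l 1)))), by decide +kernel⟩

def k2_pm_022 : ∃ t, chk3 f_pm_022 t 5 8 1 = true :=
  ⟨(l 1), by decide +kernel⟩

def k3_pm_022 : ∃ t, chk3 f_pm_022 t 2 9 1 = true :=
  ⟨(a (a (b (a (a (b (a (l 16540504) (l 16583080)) (b (l 16520680) (l 16492952))) (b (b (l 16588352) (l 16584336)) (b (l 16580664) (l 16556312)))) (a (b (b (l 16554384) (l 16551488)) (b (l 16548960) (l 16546752))) (b (a (l 16537520) (b (l 16518640) (l 16516856))) (a (l 16533960) (l 16515120))))) (a (a (b (b (l 16485984) (l 16457856)) (b (l 16429560) (l 16401088))) (b (b (l 16532848) (l 16504776)) (a (l 16460120) (l 16505936)))) (a (b (a (l 16556400) (l 16553392)) (a (l 16552920) (l 16530128))) (b (a (l 16531664) (l 16513672)) (a (l 16530448) (l 16513344))))))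 (b (a (b (a (b (a (b (l 314102481319) (l 16483272)) (l 533145806631)) (a (l 16503192) (l 187400924135))) (b (l 1) (a (l 553546881527) (l 1)))) (a (a (l 16480904) (l 16472152)) (b (a (l 156262392039) (l 560526184103)) (a (l 16484504) (l 16475800))))) (b (l 1) (a (b (l 1) (l 573411053783)) (l 1)))) (a (a (b (a (b (l 16500896) (l 16500752)) (b (l 16492456) (l 16492536))) (a (l 16480408) (b (l 16492904) (l 16493584)))) (b (a (l 16463864) (l 16476440)) (a (b (l 16485368) (l 16486288)) (l 16478176)))) (b (a (b (l 160020413895) (l 16461248)) (l 413960334007)) (a (l 16463552) (b (l 16432808) (l 16435080))))))) (b (l 1) (a (a (b (l 1) (l 578779599335)) (l 1)) (l 1)))), by decide +kernel⟩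

def k4_pm_022 : ∃ t, chk3 f_pm_022 t 3 4 1 = true :=
  ⟨(l 1), by decide +kernel⟩

def k5_pm_022 : ∃ t, chk3 f_pm_022 t 8 40 1 = true :=
  ⟨(a (a (b (l 16372400) (l 16322360)) (b (l 16440296) (l 16390184))) (a (b (l 16518488) (l 16480016)) (b (l 16500256) (l 16500968)))), by decide +kernel⟩

def k6_pm_022 : ∃ t, chk3 f_pm_022 t 8 41 1 = true :=
  ⟨(a (b (a (b (l 16321272) (l 16285048)) (a (l 16379232) (l 16424920))) (b (a (a (l 16268784) (l 16311360)) (a (l 16355536) (l 16401128))) (b (a (b (a (l 16279064) (l 16321576)) (a (b (l 16275368) (l 16272552)) (l 16295344))) (a (b (l 16365696) (l 16360384)) (b (l 16411216) (l 16405864)))) (a (b (b (a (b (l 16249096) (c (b (l 16269320) (b (b (l 16268288) (a (l 16236416) (l 16257160))) (l 16267376))) (b (l 16251736) (b (b (l 16252656) (b (b (b (l 16245048) (b (l 16244912) (a (l 16244904) (l 16255216)))) (l 16244656)) (l 16244632))) (l 16244536))))) (b (l 16312496) (b (l 16289816) (b (b (l 16288760) (a (c (l 16299288) (l 16287024))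 (l 16299016))) (l 16308808))))) (a (c (l 16266680) (l 16243840)) (l 16308112))) (a (c (l 16264816) (l 16241976)) (l 16306264))) (b (b (b (a (l 16356520) (l 16401952)) (b (a (l 16354792) (l 16400200)) (b (b (a (l 16353720) (l 16399112)) (a (c (l 16353904) (l 16331352)) (l 16377528))) (a (l 16352776) (l 16398152))))) (a (l 16352080) (l 16397464))) (a (l 16350240) (l 16395624))))))) (b (a (a (l 16470032) (l 16491520)) (a (l 16510920) (l 16516560))) (b (a (a (l 16446144) (l 16488512)) (a (l 16513376) (l 16519464))) (b (b (a (l 16435832) (l 16497176)) (a (a (l 16450768) (l 16472048)) (a (l 16510472) (l 16523752)))) (a (b (b (a (b (l 16446816) (b (l 16445040) (a (c (l 16433200) (l 16421504)) (l 16433432)))) (b (l 16489032) (b (l 16466256) (a (l 16454544) (l 16474784))))) (a (l 16442272) (l 16484432))) (a (l 16440448) (l 16482608))) (b (b (a (b (l 16506440) (b (l 16504616) (a (l 16493976) (l 16511928)))) (b (l 16525616) (b (l 16505824) (b (b (l 16506712) (l 16507256)) (l 16507456)))))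 (a (l 16501784) (l 16507136))) (a (l 16499976) (l 16506280)))))))), by decide +kernel⟩

def k7_pm_022 : ∃ t, chk3 f_pm_022 t 8 21 1 = true :=
  ⟨(a (a (b (b (a (a (a (l 16237224) (l 16247520)) (l 16263160)) (c (l 16295992) (l 16273272))) (a (a (l 16222376) (l 16243216)) (l 16254264))) (a (b (a (l 16202264) (l 16223144)) (l 16171456)) (l 16203216))) (a (b (b (l 16318176) (l 16319344)) (l 16268416)) (b (b (l 16363608) (l 16364864)) (l 16314056)))) (a (a (b (l 16377672) (l 16359136)) (b (l 16419928) (l 16401552))) (b (a (l 16458344) (l 16496744)) (a (l 16440144) (l 16473448))))), by decide +kernel⟩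

def k8_pm_022 : ∃ t, chk3 f_pm_022 t 8 11 1 = true :=
  ⟨(a (a (b (b (a (b (l 16151096) (l 16151584)) (l 16183648)) (a (b (l 16130960) (l 16110192)) (l 16163552))) (b (a (l 16057792) (l 16121936)) (a (l 16036408) (l 16079776)))) (b (a (b (l 16249032) (l 16208144)) (l 16206312)) (a (b (l 16166720) (l 16124744)) (l 16150048)))) (a (b (b (l 16298920) (l 16279464)) (b (l 16238512) (l 16197032))) (b (b (l 16376000) (l 16356912)) (l 16253816)))), by decide +kernel⟩

def k9_pm_022 : ∃ t, chk3 f_pm_022 t 9 10 1 = true :=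
  ⟨(a (b (b (a (a (b (l 16502096) (l 16503440)) (b (l 16494656) (l 16496304))) (b (a (l 16487616) (l 16480072)) (a (l 16489552) (l 16482296)))) (b (a (a (l 16484992) (l 16499168)) (a (l 16492744) (l 16485808))) (b (a (a (l 16498752) (l 16502736)) (a (l 16496600) (l 16489952))) (a (b (a (b (l 16511696) (a (l 16515712) (l 16512016))) (b (l 16505344) (l 16507520))) (a (b (b (b (l 16515720) (b (a (l 16518832) (l 16515192)) (b (b (a (l 16519736) (l 16516096)) (a (l 16520288) (c (l 16516400) (l 16516928)))) (a (l 16520488) (l 16516864))))) (a (l 16520176) (l 16516560))) (a (l 16519352) (l 16515736))) (b (b (b (l 16509512) (b (l 16510760) (b (b (l 16511688) (a (l 16513704) (l 16510816))) (l 16512464)))) (l 16512160)) (l 16511360)))) (b (a (b (l 16499352) (l 16501608)) (l 16494408)) (b (b (a (b (l 16503656) (b (l 16504936) (b (b (l 16505888) (a (l 16486960) (l 16504960))) (l 16506680)))) (b (l 16497304) (b (l 16498608) (a (l 16501456) (l 16498056))))) (a (l 16506384) (l 16500104)))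 (a (l 16505592) (l 16499328)))))))) (a (a (b (a (l 16489072) (l 16485576)) (l 16470176)) (b (a (l 16503704) (l 16500920)) (l 16485600))) (a (b (a (l 16498136) (l 16495280)) (l 16480368)) (b (l 16490656) (l 16474640))))) (b (b (a (b (l 16466064) (l 16468768)) (l 16440160)) (b (a (a (l 16477608) (l 16467328)) (l 16446264)) (b (a (l 16477416) (l 16451592)) (b (a (a (l 16486704) (l 16476968)) (l 16456816)) (a (b (b (b (l 16485208) (a (b (l 16491032) (l 16492248)) (l 16482040))) (l 16488120)) (l 16487376)) (b (b (a (b (l 16467392) (l 16469424)) (l 16453344)) (l 16463152)) (l 16462464))))))) (a (a (l 16454600) (l 16466512)) (a (l 16454544) (l 16439944))))), by decide +kernel⟩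

def k10_pm_022 : ∃ t, chk3 f_pm_022 t 9 11 1 = true :=
  ⟨(a (a (b (a (l 16398800) (l 16440600)) (a (l 16339192) (l 16361032))) (b (a (l 16456856) (l 16451648)) (b (l 16411144) (l 16393032)))) (a (b (l 16420608) (l 16413856)) (b (l 16420088) (l 16394640)))), by decide +kernel⟩

def k11_pm_022 : ∃ t, chk3 f_pm_022 t 5 5 1 = true :=
  ⟨(b (a (b (b (a (a (l 16404616) (l 373694820871)) (l 1)) (a (b (l 16394712) (b (l 16401248) (b (l 16407216) (a (l 16428264) (l 16394456))))) (b (l 1) (b (l 1) (b (l 1) (l 536903485719)))))) (a (a (l 16416704) (l 16384376)) (b (l 16338128) (l 16328456)))) (b (l 1) (a (l 533682206887) (l 1)))) (a (a (b (l 16377384) (l 16355984)) (b (l 16315040) (l 16298848))) (b (a (l 16246760) (l 529923935255)) (a (l 16235536) (l 16166072))))), by decide +kernel⟩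

def k12_pm_022 : ∃ t, chk3 f_pm_022 t 3 5 1 = true :=
  ⟨(a (b (l 1) (a (b (l 1) (l 610454328727)) (l 1))) (l 1)), by decide +kernel⟩

def k13_pm_022 : ∃ t, chk3 f_pm_022 t 4 3 1 = true :=
  ⟨(b (a (b (a (b (a (b (a (l 15993496) (l 16037064)) (a (l 15950048) (l 15993816))) (b (l 16042560) (l 15999616))) (a (b (b (a (b (l 15923528) (l 15917936)) (l 15961656)) (a (l 15917256) (l 15950656))) (l 15934984)) (b (b (l 16030016) (a (l 15988880) (l 16032248))) (a (l 15985464) (l 16021440))))) (b (a (b (l 16175992) (l 16133464)) (l 16191560)) (a (b (l 16111384) (b (a (l 16060280) (l 16100696)) (l 16073232))) (b (l 16190832) (b (l 16158576) (l 16118568)))))) (a (b (a (l 15945808) (l 15969888)) (a (l 15954080) (l 16017112))) (b (a (b (l 16075448) (l 16082736)) (b (a (l 16118560) (l 16141888)) (l 16136440))) (a (l 16081352) (l 16132840))))) (a (b (a (b (a (l 16277544) (l 16299784)) (l 16162944)) (b (l 16310552) (l 16226952))) (b (a (b (a (l 16129400) (l 16156392)) (l 16167232)) (b (l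 16185112) (l 16165048))) (a (l 16161440) (l 16176552)))) (a (b (b (l 16367336) (l 16272296)) (b (b (l 16251056) (l 16194752)) (l 16215032))) (b (l 16319088) (b (l 16241600) (l 16222488)))))) (a (b (a (b (a (l 15940136) (l 15971248)) (a (l 15750880) (l 15789992))) (b (a (l 15998816) (l 15984136)) (a (l 15825752) (l 15860480)))) (a (b (l 15446160) (l 15362744)) (b (a (l 15639344) (l 15681464)) (l 15466592)))) (b (a (b (a (l 16014536) (l 16046776)) (a (l 15896912) (l 15934320))) (b (a (l 16097712) (l 16123104)) (l 15901464))) (a (b (a (l 15723880) (l 15766392)) (a (l 15539688) (l 15587192))) (b (l 15825616) (l 15654432)))))), by decide +kernel⟩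

def k14_pm_022 : ∃ t, chk3 f_pm_022 t 5 3 1 = true :=
  ⟨(b (a (b (a (l 16328600) (l 16279392)) (a (b (l 16304976) (b (l 16291080) (l 16261360))) (l 16262560))) (b (a (l 16223680) (l 16161488)) (l 16190784))) (b (a (b (a (l 16154360) (l 16162232)) (l 15940688)) (b (a (l 16202928) (l 16169512)) (a (l 16129240) (l 16146872)))) (a (b (l 15841448) (l 15730352)) (b (l 16032080) (l 15902872))))), by decide +kernel⟩

def k15_pm_022 : ∃ t, chk3 f_pm_022 t 3 3 1 = true :=
  ⟨(a (b (a (b (a (l 202432395527) (l 469257211943)) (l 16072824)) (b (l 595958496695) (a (l 188473456103) (l 473551912695)))) (b (a (a (l 16125040) (l 16068872)) (l 15971656)) (a (b (l 16017088) (l 16003968)) (b (l 16010792) (l 16016976))))) (b (b (l 1) (a (l 591663241991) (l 1))) (a (b (a (l 406979652631) (l 536902445271)) (l 15888088)) (b (l 572872495879) (a (l 401610702423) (l 518648624631)))))), by decide +kernel⟩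

theorem s16_pm_022 : ∃ t, chk3 f_pm_022 t 2 3 1 = true := ex3_a k13_pm_022 k14_pm_022

theorem s17_pm_022 : ∃ t, chk3 f_pm_022 t 1 3 1 = true := ex3_a s16_pm_022 k15_pm_022

theorem s18_pm_022 : ∃ t, chk3 f_pm_022 t 9 5 1 = true := ex3_b k9_pm_022 k10_pm_022

theorem s19_pm_022 : ∃ t, chk3 f_pm_022 t 8 20 1 = true := ex3_b k5_pm_022 k6_pm_022

theorem s20_pm_022 : ∃ t, chk3 f_pm_022 t 8 10 1 = true := ex3_b s19_pm_022 k7_pm_022

theorem s21_pm_022 : ∃ t, chk3 f_pm_022 t 8 5 1 = true := ex3_b s20_pm_022 k8_pm_022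

theorem s22_pm_022 : ∃ t, chk3 f_pm_022 t 4 5 1 = true := ex3_a s21_pm_022 s18_pm_022

theorem s23_pm_022 : ∃ t, chk3 f_pm_022 t 2 5 1 = true := ex3_a s22_pm_022 k11_pm_022

theorem s24_pm_022 : ∃ t, chk3 f_pm_022 t 1 5 1 = true := ex3_a s23_pm_022 k12_pm_022

theorem s25_pm_022 : ∃ t, chk3 f_pm_022 t 4 8 1 = true := ex3_b k0_pm_022 k1_pm_022

theorem s26_pm_022 : ∃ t, chk3 f_pm_022 t 2 8 1 = true := ex3_a s25_pm_022 k2_pm_022

theorem s27_pm_022 : ∃ t, chk3 f_pm_022 t 2 4 1 = true := ex3_b s26_pm_022 k3_pm_022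

theorem s28_pm_022 : ∃ t, chk3 f_pm_022 t 1 4 1 = true := ex3_a s27_pm_022 k4_pm_022

theorem s29_pm_022 : ∃ t, chk3 f_pm_022 t 1 2 1 = true := ex3_b s28_pm_022 s24_pm_022

theorem s30_pm_022 : ∃ t, chk3 f_pm_022 t 1 1 1 = true := ex3_b s29_pm_022 s17_pm_022

theorem c_pm_022 : CertB 0 536870912 1073741824 536870912 1040187392 5207648 3 eng mog cd0q0 cd3q2 pd2 true true false .pp 0 2 2
    ndB0q0 ndB3q2 pcB2 Cut.none Ext.none :=
  certB1 (fam := true) (s1 := true) (s2 := false) (a := 0) (b := 2) (c := 2) (cn := .pp) (n1 := ndB0q0) (n2 := ndB3q2) (pc := pcB2) (cut := Cut.none) (xt := Ext.none) (P1 := 0) (W1 := 536870912) (P2 := 1073741824) (W2 := 536870912) (P3 := 1040187392) (W3 := 5207648) (N0 := 3) (En := eng) (mo := mog) (C1 := cd0q0) (C2 := cd3q2) (C3 := pd2)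
    rfl (fun _ => rfl) s30_pm_022

noncomputable def f_pm_023 : ℕ → ℕ → ℕ → ℕ → Bool := onCell 0 536870912 1610612736 536870912 1040187392 5207648
    (rowB 3 eng mog cd0q0 cd3q2 pd3 1 true true false .up 0 2 3 (qsf 0 536870912 1073741824 536870912 3) ndB0q0 ndB3q2 pcB3 Cut.none Ext.none)

def k0_pm_023 : ∃ t, chk3 f_pm_023 t 1 1 1 = true :=
  ⟨(a (b (a (b (a (b (a (b (l 14514496) (l 14514808)) (b (a (l 14561400) (l 14622360)) (l 14658160))) (a (l 2) (b (l 14724576) (l 2)))) (b (a (b (a (l 14660528) (l 14685312)) (a (l 14723960) (l 14748744))) (b (a (l 14712648) (l 14748600)) (l 14793976))) (a (b (a (l 14790960) (l 14816104)) (l 14874352)) (b (l 14861832) (l 14930072))))) (a (l 2) (b (a (l 2) (b (l 14994344) (l 2))) (l 2)))) (b (b (a (b (l 14847832) (l 14911080)) (b (l 14984240) (l 15047104))) (a (b (l 14979808) (l 15050048)) (l 15049792))) (b (a (b (l 15117504) (l 15177688)) (l 15296288)) (a (l 84385893063) (l 15406016))))) (a (l 2) (b (b (b (a (l 2) (l 15444752)) (l 2))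 (l 2)) (l 2)))) (b (b (a (b (a (l 15126560) (b (a (l 15162056) (l 15214760)) (l 15243504))) (a (l 15266632) (l 15354648))) (b (a (b (l 15377936) (l 15146312)) (a (l 15541208) (l 15686680))) (a (b (l 15381560) (l 15459320)) (b (l 15465240) (l 15522032))))) (a (b (a (l 15415856) (l 15511256)) (a (l 15539512) (l 15648608))) (b (a (l 15584776) (l 15638696)) (a (l 15735776) (l 15803488))))) (a (b (b (b (l 15614152) (l 99955943511)) (b (a (l 15604456) (l 15737016)) (a (l 2) (l 15745704)))) (b (b (a (l 2) (l 15763544)) (l 2)) (l 2))) (b (b (a (l 15836576) (l 15924152)) (b (l 15911264) (a (l 15851760) (l 15952872)))) (b (b (a (l 15887064) (l 15815856)) (l 15709576)) (l 4)))))), by decide +kernel⟩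

theorem c_pm_023 : CertB 0 536870912 1073741824 536870912 1040187392 5207648 3 eng mog cd0q0 cd3q2 pd3 true true false .up 0 2 3
    ndB0q0 ndB3q2 pcB3 Cut.none Ext.none :=
  certB1 (fam := true) (s1 := true) (s2 := false) (a := 0) (b := 2) (c := 3) (cn := .up) (n1 := ndB0q0) (n2 := ndB3q2) (pc := pcB3) (cut := Cut.none) (xt := Ext.none) (P1 := 0) (W1 := 536870912) (P2 := 1073741824) (W2 := 536870912) (P3 := 1040187392) (W3 := 5207648) (N0 := 3) (En := eng) (mo := mog) (C1 := cd0q0) (C2 := cd3q2) (C3 := pd3)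
    rfl (fun _ => rfl) k0_pm_023

noncomputable def f_pm_033 : ℕ → ℕ → ℕ → ℕ → Bool := onCell 0 536870912 0 1230186008 1040187392 5207648
    (rowB 3 eng mog cd0q0 cd3q3 pd3 0 true true false .pnn 0 3 3 (qsf 0 536870912 0 1230186008 3) ndB0q0 ndB3q3 pcB3 Cut.none Ext.none)

def k0_pm_033 : ∃ t, chk3 f_pm_033 t 1 2 1 = true :=
  ⟨(l 4), by decide +kernel⟩

def k1_pm_033 : ∃ t, chk3 f_pm_033 t 1 6 1 = true :=
  ⟨(a (b (l 4) (a (a (b (a (b (l 4) (l 14503344)) (l 4)) (a (b (l 14432928) (l 14340744)) (b (l 14748528) (l 14675312)))) (b (l 4) (a (b (l 4) (a (l 14881296) (l 14991176))) (l 4)))) (l 4))) (l 4)), by decide +kernel⟩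

def k2_pm_033 : ∃ t, chk3 f_pm_033 t 2 14 1 = true :=
  ⟨(a (a (b (a (b (a (l 14157768) (l 14325080)) (a (l 14060880) (l 14233096))) (b (l 14578976) (b (l 14479344) (a (l 14376040) (l 14527536))))) (a (b (l 14033416) (a (l 13810632) (l 13993944))) (b (a (l 14296856) (l 14457752)) (l 14284824)))) (b (a (b (a (l 14792040) (l 14917280)) (a (l 14690736) (l 14814928))) (b (a (l 15039856) (l 15164216)) (l 15012880))) (a (b (a (b (l 14613744) (l 14566296)) (b (l 14735464) (l 14687528))) (a (l 14486456) (l 14612480))) (b (b (l 14932336) (l 14748792)) (b (a (l 14763528) (l 14891064)) (l 14778384)))))) (b (a (a (b (l 4) (a (l 15222536) (l 15353728))) (b (l 4) (a (l 15477416) (l 4)))) (l 4)) (a (a (b (l 15189664) (b (l 15104584) (l 15047392))) (b (b (l 15490944) (l 15446176)) (l 15358544))) (a (b (a (l 15658320) (l 4)) (b (l 15663800) (l 15610448))) (b (l 4) (a (l 15768920) (l 15886080))))))), by decide +kernel⟩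

def k3_pm_033 : ∃ t, chk3 f_pm_033 t 2 15 1 = true :=
  ⟨(a (a (b (a (b (a (l 13661824) (l 13849736)) (b (l 13595480) (a (l 13460208) (l 13651008)))) (b (a (l 14037760) (l 14211576)) (a (l 13883504) (l 14061496)))) (a (b (b (a (l 13376944) (l 13567832)) (a (l 13293336) (l 13483680))) (b (a (b (l 13230848) (l 13189672)) (l 13399480)) (a (b (l 13148984) (a (l 13063512) (l 13154736))) (b (l 13336800) (l 13295632))))) (b (b (l 13769200) (a (l 13675896) (l 13855816))) (b (a (l 13590904) (l 13770448)) (a (b (l 13527184) (l 13485096)) (l 13684688)))))) (b (a (b (a (l 14360880) (l 14494744)) (a (l 14215840) (l 14355608))) (b (l 14677824) (b (l 14604168) (l 14534232)))) (a (b (a (b (l 14096424) (l 14013168)) (b (l 14239136) (l 14157048))) (a (b (l 13927856) (l 13841448)) (b (l 14072240) (l 13985616)))) (b (b (l 14459216) (l 14379736)) (b (l 14296520) (l 14105560)))))) (b (a (b (a (b (l 15003208) (l 14951368)) (b (l 15265384) (l 15219032))) (a (l 14865400) (l 15144048))) (b (a (b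 (l 15546784) (l 15480288)) (b (l 15823896) (l 15760184))) (a (b (l 15426344) (l 15377728)) (b (l 15692776) (l 15627448))))) (a (b (a (l 14728216) (l 15023264)) (a (l 14569528) (l 14875904))) (b (a (l 15299840) (l 15558272)) (a (l 15167752) (l 15442472)))))), by decide +kernel⟩

def k4_pm_033 : ∃ t, chk3 f_pm_033 t 3 7 1 = true :=
  ⟨(b (a (l 4) (l 2)) (a (b (a (b (a (b (l 16010736) (l 16027048)) (l 4)) (a (b (l 15968176) (l 15896240)) (b (l 16168184) (l 16166856)))) (b (l 4) (a (b (l 4) (l 16325760)) (l 4)))) (a (b (a (b (l 15823360) (l 15773472)) (b (l 16094184) (l 16014496))) (a (l 15697552) (l 15896440))) (b (a (b (l 16296872) (l 16275288)) (b (l 16228128) (l 16201152))) (a (b (l 16200696) (l 16135536)) (b (l 16178032) (l 16152960)))))) (b (l 4) (a (b (l 4) (a (b (l 16104976) (l 16084616)) (b (l 4) (l 16012520)))) (l 4))))), by decide +kernel⟩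

theorem s5_pm_033 : ∃ t, chk3 f_pm_033 t 2 7 1 = true := ex3_b k2_pm_033 k3_pm_033

theorem s6_pm_033 : ∃ t, chk3 f_pm_033 t 1 7 1 = true := ex3_a s5_pm_033 k4_pm_033

theorem s7_pm_033 : ∃ t, chk3 f_pm_033 t 1 3 1 = true := ex3_b k1_pm_033 s6_pm_033

theorem s8_pm_033 : ∃ t, chk3 f_pm_033 t 1 1 1 = true := ex3_b k0_pm_033 s7_pm_033

theorem c_pm_033 : CertB 0 536870912 0 1230186008 1040187392 5207648 3 eng mog cd0q0 cd3q3 pd3 true true false .pnn 0 3 3
    ndB0q0 ndB3q3 pcB3 Cut.none Ext.none :=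
  certB0 (fam := true) (s1 := true) (s2 := false) (a := 0) (b := 3) (c := 3) (cn := .pnn) (n1 := ndB0q0) (n2 := ndB3q3) (pc := pcB3) (cut := Cut.none) (xt := Ext.none) (P1 := 0) (W1 := 536870912) (P2 := 0) (W2 := 1230186008) (P3 := 1040187392) (W3 := 5207648) (N0 := 3) (En := eng) (mo := mog) (C1 := cd0q0) (C2 := cd3q3) (C3 := pd3)
    rfl s8_pm_033

noncomputable def xt_pm_101 : Ext := extD3 3 ⟨4, 1, 1, 5, 33, 5, 163, 200, 81, 200, 1, 64⟩ eng cd0q1 cd3q0 pd1 true true false .npn 1 0 1 rfl ndB0q1 ndB3q0 pcB1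

noncomputable def f_pm_101 : ℕ → ℕ → ℕ → ℕ → Bool := onCell 536870912 536870912 0 536870912 1040187392 5207648
    (rowB 3 eng mog cd0q1 cd3q0 pd1 2 true true false .npn 1 0 1 (qsf 536870912 536870912 0 536870912 1) ndB0q1 ndB3q0 pcB1 Cut.none xt_pm_101)

def k0_pm_101 : ∃ t, chk3 f_pm_101 t 2 1 1 = true :=
  ⟨(l 3), by decide +kernel⟩

def k1_pm_101 : ∃ t, chk3 f_pm_101 t 6 1 1 = true :=
  ⟨(l 3), by decide +kernel⟩

def k2_pm_101 : ∃ t, chk3 f_pm_101 t 14 2 1 = true :=
  ⟨(l 3), by decide +kernel⟩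

def k3_pm_101 : ∃ t, chk3 f_pm_101 t 30 2 1 = true :=
  ⟨(l 3), by decide +kernel⟩

def k4_pm_101 : ∃ t, chk3 f_pm_101 t 62 2 1 = true :=
  ⟨(b (l 3) (l 3)), by decide +kernel⟩

def k5_pm_101 : ∃ t, chk3 f_pm_101 t 252 2 1 = true :=
  ⟨(b (b (l 3) (l 3)) (l 3)), by decide +kernel⟩

def k6_pm_101 : ∃ t, chk3 f_pm_101 t 506 4 1 = true :=
  ⟨(b (l 3) (l 3)), by decide +kernel⟩

def k7_pm_101 : ∃ t, chk3 f_pm_101 t 507 16 1 = true :=
  ⟨(a (a (l 3) (b (a (l 3) (a (l 3) (b (a (l 3) (b (b (b (b (c (c (l 443086262519) (l 443623133031)) (c (l 444160003687) (c (l 444696874455) (l 444696874247)))) (c (l 443623140599) (l 444696881671))) (c (l 442012535047) (l 443623146711))) (c (l 727091000007) (l 9065129988740726409766250095))) (c (l 144190126638694511) (l 144179200244007023)))) (b (b (b (l 8784659308694309372976030959) (l 7691186064532510620292301039)) (c (l 7623486218633961987704701167) (l 7652500438304863927152312559))) (c (l 7507429339950997925197938927) (l 7536443559621739542107308143))))))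 (b (b (b (a (l 3) (b (l 7778228723544630261372829807) (l 7720200284203043604729872431))) (l 3)) (l 3)) (l 3)))) (b (b (b (b (a (b (a (c (l 16771664) (b (l 16769376) (l 16773096))) (l 16758088)) (c (l 603849123010365057656431) (l 603906192710330124576367))) (l 603599227288191578859119)) (c (l 16779392) (l 16782360))) (b (l 144166762014523503) (l 144106495020908655))) (b (b (a (b (l 144066569004695791) (l 144039424799178991)) (l 16757808)) (c (l 143989946726105327) (l 143996749957464303))) (c (l 143948233955410159) (l 143944110779859055)))) (b (b (b (b (l 143866320298590319) (b (l 143835259124891759) (l 143811894493905007))) (b (b (l 143754926045528111) (l 143667789753483311)) (l 143552822032056367))) (b (a (b (l 143467472498376751) (l 599955130133706317488175)) (l 597085796838621858996271)) (b (c (l 601460702209352570228783) (l 594923349047855279002159)) (c (b (l 602124784996006075699247) (l 600818236700910292979759)) (l 592637682164972067295791))))) (b (a (c (c (b (a (b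 (b (l 343228047543) (l 340006755175)) (b (l 6289431469102842907017957935) (b (l 16570384) (l 16534136)))) (l 599458654016602571395631)) (b (b (l 329806081143) (l 16489312)) (b (l 16461144) (l 16433920)))) (b (b (l 596183492252390542103087) (l 594666535782703956742703)) (b (l 322289721847) (l 16367496)))) (b (b (l 589857700186988650861103) (l 587835764098284276142639)) (b (l 314773361959) (l 16247056)))) (b (l 594956495541112609296431) (l 595920626149339849871919))) (b (a (c (b (l 589018085101258610889263) (l 16350024)) (l 580508947936507413582383)) (l 587546380800627812160047)) (l 5099837616492993209390436911)))))), by decide +kernel⟩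

def k8_pm_101 : ∃ t, chk3 f_pm_101 t 507 17 1 = true :=
  ⟨(a (b (b (l 3) (l 3)) (l 3)) (b (b (b (b (l 573888432638960939967023) (c (l 571107586118283288191535) (l 15971152))) (b (b (b (b (l 16001136) (l 16014544)) (l 15981984)) (l 15959592)) (l 289002748743))) (b (c (b (l 15922048) (l 15875688)) (l 15795224)) (c (b (l 15835184) (l 279875598055)) (l 15727128)))) (c (b (b (b (l 278801795271) (l 278264871703)) (a (b (l 291686599703) (a (l 319066976807) (l 15698976))) (l 15713312))) (a (b (b (a (l 320677556679) (l 15682744)) (l 291149627767)) (b (l 290612757895) (l 289538993415))) (b (l 15679856) (l 15656944)))) (b (b (l 15676912) (l 277727792471)) (b (l 277190875463) (l 15601520)))))), by decide +kernel⟩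

def k9_pm_101 : ∃ t, chk3 f_pm_101 t 507 9 1 = true :=
  ⟨(b (b (a (l 3) (b (b (c (b (l 269674751207) (l 267527253751)) (l 15594408)) (c (l 265379761143) (l 15593960))) (b (l 262695398199) (l 15624544)))) (b (l 294907671879) (l 290075893239))) (b (l 273432718583) (l 15640992))), by decide +kernel⟩

def k10_pm_101 : ∃ t, chk3 f_pm_101 t 253 5 1 = true :=
  ⟨(b (b (b (l 270211435127) (l 266453004007)) (b (l 263768308439) (l 258399275031))) (b (b (l 262157006999) (l 3)) (l 3))), by decide +kernel⟩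

def k11_pm_101 : ∃ t, chk3 f_pm_101 t 127 2 1 = true :=
  ⟨(b (a (b (b (b (b (a (b (l 16738992) (l 143948440183668847)) (l 143587594180509807)) (b (b (l 143482796946473071) (l 143381023376343151)) (l 143093638478102639))) (b (b (b (l 142993514151149679) (l 142827213052510255)) (b (l 592239202335410475376687) (l 597061584811100299649071))) (b (b (l 599805106928736967757871) (l 594723028936429726322735)) (a (b (l 587887933796367711097391) (l 582629747044231844418095)) (l 589148653461655387213871))))) (b (b (b (a (b (l 16163624) (l 16091464)) (l 577172242455269631369775)) (b (b (a (l 16041880) (l 16113088)) (l 16042472)) (l 15994192))) (a (b (l 15885272) (l 15803296)) (l 15888344))) (b (a (b (l 15741760) (l 15696480)) (l 15748664)) (a (b (l 15664264) (l 15642640)) (l 15674032))))) (b (b (b (a (l 15626272) (l 15641768)) (l 15633280)) (b (l 15653520) (l 15689416))) (b (l 15618200) (l 15678568)))) (b (b (b (b (l 16662256) (l 142625315209379951)) (b (b (b (l 16617648) (l 16614584))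 (l 589986393388303893831727)) (b (l 16598856) (l 16516360)))) (b (b (b (l 16343520) (a (l 16250632) (l 16191160))) (l 15959496)) (b (l 15796592) (l 15707880)))) (b (b (b (l 15666648) (l 15657504)) (l 15685456)) (b (l 15774160) (l 15686760))))) (b (b (b (a (l 15549304) (l 15514968)) (a (l 15373448) (l 15339920))) (b (a (l 15198656) (l 15166160)) (a (l 15026720) (l 14995288)))) (b (b (a (l 14858632) (l 14828272)) (l 14680384)) (b (l 14501712) (l 131696558183))))), by decide +kernel⟩

def k12_pm_101 : ∃ t, chk3 f_pm_101 t 7 3 1 = true :=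
  ⟨(a (l 3) (a (l 3) (a (l 3) (a (b (b (l 3) (l 3)) (l 3)) (b (b (b (b (l 14225208) (l 14086424)) (l 13891864)) (b (b (l 13715184) (l 13607792)) (b (l 13509176) (l 13419672)))) (b (b (b (l 13339592) (l 13269240)) (b (l 164443193575) (a (l 13188392) (l 13150272)))) (b (b (a (l 202560856423) (l 13111072)) (a (b (l 13104648) (l 207929503335)) (l 13082640))) (b (a (b (l 210076971815) (l 212224445559)) (b (l 13068488) (l 13062544))) (a (b (l 214371924615) (c (l 217056280327) (l 13062936))) (b (l 13059416) (l 13059136))))))))))), by decide +kernel⟩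

theorem s13_pm_101 : ∃ t, chk3 f_pm_101 t 507 8 1 = true := ex3_b k7_pm_101 k8_pm_101

theorem s14_pm_101 : ∃ t, chk3 f_pm_101 t 507 4 1 = true := ex3_b s13_pm_101 k9_pm_101

theorem s15_pm_101 : ∃ t, chk3 f_pm_101 t 253 4 1 = true := ex3_a k6_pm_101 s14_pm_101

theorem s16_pm_101 : ∃ t, chk3 f_pm_101 t 253 2 1 = true := ex3_b s15_pm_101 k10_pm_101

theorem s17_pm_101 : ∃ t, chk3 f_pm_101 t 126 2 1 = true := ex3_a k5_pm_101 s16_pm_101

theorem s18_pm_101 : ∃ t, chk3 f_pm_101 t 63 2 1 = true := ex3_a s17_pm_101 k11_pm_101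

theorem s19_pm_101 : ∃ t, chk3 f_pm_101 t 31 2 1 = true := ex3_a k4_pm_101 s18_pm_101

theorem s20_pm_101 : ∃ t, chk3 f_pm_101 t 15 2 1 = true := ex3_a k3_pm_101 s19_pm_101

theorem s21_pm_101 : ∃ t, chk3 f_pm_101 t 7 2 1 = true := ex3_a k2_pm_101 s20_pm_101

theorem s22_pm_101 : ∃ t, chk3 f_pm_101 t 7 1 1 = true := ex3_b s21_pm_101 k12_pm_101

theorem s23_pm_101 : ∃ t, chk3 f_pm_101 t 3 1 1 = true := ex3_a k1_pm_101 s22_pm_101

theorem s24_pm_101 : ∃ t, chk3 f_pm_101 t 1 1 1 = true := ex3_a k0_pm_101 s23_pm_101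

theorem c_pm_101 : CertB 536870912 536870912 0 536870912 1040187392 5207648 3 eng mog cd0q1 cd3q0 pd1 true true false .npn 1 0 1
    ndB0q1 ndB3q0 pcB1 Cut.none xt_pm_101 :=
  certB2 (fam := true) (s1 := true) (s2 := false) (a := 1) (b := 0) (c := 1) (cn := .npn) (n1 := ndB0q1) (n2 := ndB3q0) (pc := pcB1) (cut := Cut.none) (xt := xt_pm_101) (P1 := 536870912) (W1 := 536870912) (P2 := 0) (W2 := 536870912) (P3 := 1040187392) (W3 := 5207648) (N0 := 3) (En := eng) (mo := mog) (C1 := cd0q1) (C2 := cd3q0) (C3 := pd1)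
    rfl (fun _ => rfl) s24_pm_101

noncomputable def xt_pm_102 : Ext := extD3 3 ⟨4, 1, 1, 5, 33, 5, 163, 200, 81, 200, 1, 64⟩ eng cd0q1 cd3q0 pd2 true true false .npp 1 0 2 rfl ndB0q1 ndB3q0 pcB2

noncomputable def f_pm_102 : ℕ → ℕ → ℕ → ℕ → Bool := onCell 536870912 536870912 1073741824 536870912 1040187392 5207648
    (rowB 3 eng mog cd0q1 cd3q0 pd2 1 true true false .npp 1 0 2 (qsf 536870912 536870912 0 536870912 2) ndB0q1 ndB3q0 pcB2 Cut.none xt_pm_102)

def k0_pm_102 : ∃ t, chk3 f_pm_102 t 8 8 1 = true :=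
  ⟨(b (a (b (a (b (a (b (l 13045680) (l 13032824)) (b (l 13045592) (l 13031408))) (a (c (l 35526710823) (l 13004136)) (c (l 13022056) (l 13000768)))) (b (a (b (l 13048368) (l 13032864)) (b (l 13053968) (l 13037168))) (a (b (l 13018040) (l 13003880)) (l 13034208)))) (a (b (a (l 2) (l 36063480951)) (l 2)) (b (a (l 29084147543) (l 12983624)) (a (l 60222616999) (b (l 12963128) (l 12950312)))))) (b (a (b (a (b (l 13062384) (l 13044288)) (l 13063824)) (a (l 13018416) (l 13026400))) (b (a (l 13077136) (l 13093184)) (a (l 13037176) (l 13050704)))) (a (b (a (l 12986200) (l 12991616)) (a (b (l 12963752) (l 12949624)) (l 12959448))) (b (a (l 12999832) (l 13010832)) (a (l 12965104) (l 12973568)))))) (a (b (a (l 2) (b (a (l 2) (b (l 12938152) (l 2))) (l 2))) (l 2)) (b (a (b (a (b (l 12936152) (l 12923344)) (b (l 12937024) (l 12922904))) (a (l 35526445703) (l 26936500071))) (b (a (b (l 12940744) (l 12925328)) (l 12938872)) (a (l 12903448) (l 12906768)))) (a (b (a (l 2) (b (l 12884488)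 (l 2))) (l 2)) (b (a (b (l 12883000) (l 12870184)) (b (l 12884376) (l 12870176))) (a (l 12851888) (l 12849736))))))), by decide +kernel⟩

def k1_pm_102 : ∃ t, chk3 f_pm_102 t 9 8 1 = true :=
  ⟨(b (b (a (a (b (a (l 13111936) (l 13133360)) (a (l 13066960) (l 13085920))) (b (a (l 13157424) (l 13184096)) (l 13119384))) (a (b (l 13228976) (l 13173128)) (b (l 13297600) (l 13237120)))) (a (a (b (a (l 13024592) (l 13041072)) (a (l 12984800) (l 12998784))) (b (a (l 13060248) (l 13082096)) (a (l 13015496) (l 13034904)))) (a (b (l 13119832) (l 13069032)) (b (l 13179152) (l 13123632))))) (a (b (a (b (a (l 12947576) (l 12959048)) (a (l 12912912) (l 12921856))) (b (a (l 12973272) (l 12990216)) (a (l 12933568) (l 12948056)))) (a (b (a (b (l 12888592) (l 12872952)) (b (l 12895584) (l 12878480))) (a (l 12850384) (l 12853808))) (b (a (b (l 12905272) (l 12886720)) (l 12907568)) (l 12864120)))) (b (a (b (a (l 13009848) (l 13032144)) (a (l 12965224) (l 12985008))) (b (l 13070544) (b (l 13032296)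 (l 13006920)))) (a (b (a (l 12921936) (l 12938904)) (l 12887272)) (b (l 12969296) (l 12921024)))))), by decide +kernel⟩

def k2_pm_102 : ∃ t, chk3 f_pm_102 t 5 8 1 = true :=
  ⟨(a (b (a (a (b (b (l 13376072) (l 13311080)) (b (l 13248568) (l 13188464))) (b (b (l 13464088) (l 13394736)) (b (l 13327816) (l 13263248)))) (b (a (l 13461424) (b (l 13667528) (l 13589896))) (b (l 13422552) (l 13330592)))) (a (b (a (b (l 13130728) (a (l 13059744) (l 13089688))) (b (l 13201072) (l 13139192))) (a (b (l 13018752) (l 12965144)) (l 13048632))) (b (a (b (l 13280888) (l 13213688)) (b (l 13369880) (l 13297464))) (a (l 13115320) (l 13191536))))) (b (a (b (a (l 13720328) (l 13841440)) (b (l 13657240) (l 13578408))) (b (a (b (l 14036040) (l 13947280)) (b (l 14153272) (l 14082176))) (b (l 13946432) (b (l 13860600) (l 13816624))))) (a (b (b (l 13498848) (l 13440112)) (l 13302192)) (b (b (l 13749448) (l 13660136)) (l 13528944))))), by decide +kernel⟩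

def k3_pm_102 : ∃ t, chk3 f_pm_102 t 2 9 1 = true :=
  ⟨(a (a (b (a (l 2) (b (a (l 2) (b (l 54316840215) (l 2))) (l 2))) (l 2)) (a (b (b (a (b (l 12822592) (l 12796104)) (b (l 12829320) (l 12797160))) (a (l 60222342375) (l 12754056))) (b (a (l 2) (l 12706144)) (l 2))) (b (b (a (b (l 12846928) (l 12809136)) (l 12853264)) (a (l 12757440) (l 12771584))) (b (a (l 12697832) (l 12700328)) (l 80086434215))))) (a (b (a (b (a (l 12889184) (l 12935304)) (a (l 12796264) (l 12831240))) (b (a (l 12991368) (l 13057104)) (a (l 12876264) (l 12931080)))) (a (b (a (l 12713424) (l 12736896)) (l 12645752)) (b (l 12791136) (l 12689336)))) (b (a (a (l 13042104) (l 13142008)) (a (l 13229784) (l 13326064))) (a (l 12834016) (l 12965520))))), by decide +kernel⟩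

def k4_pm_102 : ∃ t, chk3 f_pm_102 t 2 5 1 = true :=
  ⟨(a (b (a (l 2) (b (a (l 2) (b (l 12600328) (l 2))) (l 2))) (l 2)) (b (a (a (b (b (l 12578288) (l 12522016)) (l 82770610343)) (b (b (l 12597632) (l 12516488)) (l 12478840))) (b (a (b (l 12656440) (l 12550544)) (l 12665672)) (a (l 12411632) (l 12444912)))) (a (b (a (l 2) (l 12322280)) (l 2)) (a (b (l 12264672) (l 12165312)) (b (l 12244472) (l 12089192)))))), by decide +kernel⟩

def k5_pm_102 : ∃ t, chk3 f_pm_102 t 2 3 1 = true :=
  ⟨(a (l 2) (b (b (a (l 2) (b (l 12045632) (l 2))) (l 2)) (l 2))), by decide +kernel⟩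

def k6_pm_102 : ∃ t, chk3 f_pm_102 t 6 2 1 = true :=
  ⟨(b (b (a (b (b (a (a (b (l 14298472) (l 14224280)) (b (l 14471160) (l 14373160))) (a (b (l 14649888) (l 14528328)) (b (b (l 14818152) (l 14766264)) (l 14689296)))) (a (b (a (l 14131104) (l 14277032)) (a (l 14079872) (l 14158472))) (b (a (l 14429776) (l 14608928)) (a (l 14327504) (l 14481632))))) (a (b (a (l 13893872) (l 14029080)) (l 13766912)) (b (a (l 14171072) (l 14319392)) (l 14033928)))) (b (b (a (a (b (a (l 14917880) (l 15003080)) (l 14855512)) (b (a (l 15089296) (l 15176432)) (l 15026392))) (b (a (a (l 15264384) (l 15353016)) (b (l 15513672) (l 15459960))) (a (l 15201272) (b (l 15406224) (l 15352712))))) (a (b (a (b (l 14778000) (l 14724496)) (b (l 14947400) (l 14891560))) (a (l 14641064) (l 14805528))) (b (a (b (l 15120296) (l 15062592)) (l 15266384)) (a (l 14974432) (l 15147184))))) (a (b (a (l 14473560) (l 14633064)) (l 14326520)) (b (a (l 14797368) (l 14965896)) (l 14640792))))) (a (b (a (b (l 13577904)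 (l 13394392)) (b (l 13826656) (l 13623552))) (a (l 13131432) (l 13328944))) (b (a (b (l 14102024) (l 13880184)) (b (l 14400248) (l 14160664))) (a (l 13554944) (l 13805936))))) (b (a (b (a (l 12805656) (l 12957048)) (a (l 12513496) (l 12614808))) (b (a (l 13137824) (l 13344632)) (a (l 12745976) (l 12903760)))) (a (a (b (l 12259496) (l 12047912)) (b (l 12307264) (l 12039056))) (b (a (l 12384968) (l 12489480)) (l 12080560))))), by decide +kernel⟩

def k7_pm_102 : ∃ t, chk3 f_pm_102 t 14 4 1 = true :=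
  ⟨(b (a (b (b (b (a (a (l 15620936) (l 15709432)) (l 15688144)) (a (b (l 15586304) (l 15532928)) (b (l 15765672) (l 15713216)))) (a (b (l 15444616) (l 15323128)) (l 15416672))) (b (a (l 15138056) (l 15313232)) (l 14972424))) (b (b (a (b (b (a (l 15813320) (l 15787400)) (l 15875240)) (b (l 15927808) (l 15889520))) (b (a (l 15884424) (l 15836112)) (b (l 15940640) (l 15996904)))) (a (b (l 15804712) (l 15681768)) (l 15734704))) (a (b (l 15490792) (l 15229736)) (b (l 15668640) (l 15402552))))) (a (b (b (l 14717160) (l 14460904)) (l 14077976)) (b (a (l 14830936) (l 14993784)) (a (l 14292896) (l 14438824))))), by decide +kernel⟩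

def k8_pm_102 : ∃ t, chk3 f_pm_102 t 15 8 1 = true :=
  ⟨(a (b (b (a (b (a (l 15878856) (l 15960680)) (b (l 16022584) (l 16078216))) (a (b (l 16099072) (l 16192176)) (b (b (a (l 575408561621219129680431) (l 583353921914936325382191)) (a (l 16257112) (l 582526700394326060001327))) (l 16338016)))) (a (l 16003944) (b (l 16312656) (l 16251848)))) (a (b (l 15854216) (l 15583304)) (b (l 16053480) (l 15777928)))) (b (a (b (b (a (b (a (l 592091051121830013067311) (l 596403843085712720863279)) (a (l 588863158451562299746351) (l 16635488))) (b (a (b (l 16671168) (l 16672168)) (b (a (l 16659240) (l 16656320)) (l 16655992))) (a (l 16673744) (l 16615992)))) (a (b (a (l 16478072) (l 592019282066306366122031)) (l 583319334862022791112751)) (b (a (l 16673664) (l 16655528)) (a (l 16632792) (l 16650744))))) (a (l 16438848) (b (a (b (l 16611616) (l 16555488)) (b (l 16640592) (l 16594240))) (l 16476904)))) (b (b (a (b (a (b (a (l 16665744) (l 16680992)) (a (l 16649096) (l 16658448))) (l 16691952))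 (a (b (l 585581368204330667486831) (l 16642264)) (b (a (l 16651592) (l 16667320)) (l 581276646951495940157039)))) (b (a (l 16678240) (l 16723800)) (b (l 16683448) (l 16663216)))) (a (b (a (l 16638704) (b (l 16631112) (l 16624512))) (a (l 16636720) (l 16618752))) (b (a (b (a (l 16637888) (l 16652832)) (l 16601064)) (l 16661664)) (a (b (l 16607504) (l 16600064)) (a (l 16604320) (l 16616192)))))) (b (a (a (b (l 16630760) (l 16614008)) (l 586991678613093413138031)) (a (b (l 16593520) (l 16584656)) (b (a (l 16581600) (l 16577312)) (l 16568128)))) (a (a (b (l 16566552) (l 16500688)) (b (l 16586080) (l 16537688))) (a (b (l 16576608) (l 16557928)) (b (l 16558272) (l 16549240))))))) (a (b (l 16213992) (l 15955488)) (b (a (l 16349600) (b (a (b (l 16508584) (l 16440872)) (b (l 16529584) (l 16479280))) (l 16356152))) (l 16105088))))), by decide +kernel⟩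

def k9_pm_102 : ∃ t, chk3 f_pm_102 t 15 9 1 = true :=
  ⟨(a (a (b (l 15165032) (l 14593688)) (b (l 15182952) (l 14763600))) (b (a (l 133887562699587631) (b (l 15811928) (l 15510120))) (a (l 14918048) (l 14920096)))), by decide +kernel⟩

def k10_pm_102 : ∃ t, chk3 f_pm_102 t 7 5 1 = true :=
  ⟨(a (b (a (b (l 13573680) (l 13084472)) (b (a (l 13757208) (l 13882704)) (l 13276744))) (a (b (l 12617264) (l 12178336)) (b (l 12757224) (l 12261776)))) (a (b (a (b (l 14017520) (l 13446096)) (b (l 14167824) (l 13573624))) (a (b (l 12887888) (l 12350520)) (b (l 12990040) (l 12425152)))) (b (b (a (l 14303296) (l 14412704)) (a (l 13686960) (l 13774832))) (b (a (l 13078736) (l 13142824)) (a (l 12487264) (l 12526024)))))), by decide +kernel⟩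

def k11_pm_102 : ∃ t, chk3 f_pm_102 t 3 3 1 = true :=
  ⟨(a (b (a (b (b (l 11844960) (l 11699096)) (b (l 11605888) (l 2))) (b (b (l 11766120) (l 11495512)) (a (l 11273168) (l 11098856)))) (a (l 2) (b (a (l 2) (l 10802560)) (l 2)))) (a (b (b (a (b (l 11773464) (l 11408024)) (b (l 11796816) (l 11368248))) (a (l 10946552) (a (l 10845016) (l 10782440)))) (b (a (l 10510768) (l 10233256)) (a (l 2) (l 9893112)))) (b (a (b (b (a (l 11840936) (l 11886336)) (a (l 11365528) (l 11380336))) (b (l 10927824) (l 10500648))) (b (b (a (l 11920400) (l 11932864)) (a (l 11385320) (l 11371056))) (b (a (l 10888672) (l 10847720)) (a (l 10436624) (l 10369456))))) (a (b (a (l 10054584) (l 9956168)) (b (l 9626184) (l 9451264))) (b (a (l 9856504) (l 9751864)) (b (l 9329808) (l 9099336))))))), by decide +kernel⟩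

theorem s12_pm_102 : ∃ t, chk3 f_pm_102 t 15 4 1 = true := ex3_b k8_pm_102 k9_pm_102

theorem s13_pm_102 : ∃ t, chk3 f_pm_102 t 7 4 1 = true := ex3_a k7_pm_102 s12_pm_102

theorem s14_pm_102 : ∃ t, chk3 f_pm_102 t 7 2 1 = true := ex3_b s13_pm_102 k10_pm_102

theorem s15_pm_102 : ∃ t, chk3 f_pm_102 t 3 2 1 = true := ex3_a k6_pm_102 s14_pm_102

theorem s16_pm_102 : ∃ t, chk3 f_pm_102 t 3 1 1 = true := ex3_b s15_pm_102 k11_pm_102

theorem s17_pm_102 : ∃ t, chk3 f_pm_102 t 4 8 1 = true := ex3_a k0_pm_102 k1_pm_102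

theorem s18_pm_102 : ∃ t, chk3 f_pm_102 t 2 8 1 = true := ex3_a s17_pm_102 k2_pm_102

theorem s19_pm_102 : ∃ t, chk3 f_pm_102 t 2 4 1 = true := ex3_b s18_pm_102 k3_pm_102

theorem s20_pm_102 : ∃ t, chk3 f_pm_102 t 2 2 1 = true := ex3_b s19_pm_102 k4_pm_102

theorem s21_pm_102 : ∃ t, chk3 f_pm_102 t 2 1 1 = true := ex3_b s20_pm_102 k5_pm_102

theorem s22_pm_102 : ∃ t, chk3 f_pm_102 t 1 1 1 = true := ex3_a s21_pm_102 s16_pm_102

theorem c_pm_102 : CertB 536870912 536870912 0 536870912 1040187392 5207648 3 eng mog cd0q1 cd3q0 pd2 true true false .npp 1 0 2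
    ndB0q1 ndB3q0 pcB2 Cut.none xt_pm_102 :=
  certB1 (fam := true) (s1 := true) (s2 := false) (a := 1) (b := 0) (c := 2) (cn := .npp) (n1 := ndB0q1) (n2 := ndB3q0) (pc := pcB2) (cut := Cut.none) (xt := xt_pm_102) (P1 := 536870912) (W1 := 536870912) (P2 := 0) (W2 := 536870912) (P3 := 1040187392) (W3 := 5207648) (N0 := 3) (En := eng) (mo := mog) (C1 := cd0q1) (C2 := cd3q0) (C3 := pd2)
    rfl (fun _ => rfl) s22_pm_102

noncomputable def f_pm_112 : ℕ → ℕ → ℕ → ℕ → Bool := onCell 536870912 536870912 1073741824 536870912 1040187392 5207648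
    (rowB 3 eng mog cd0q1 cd3q1 pd2 1 true true false .dn 1 1 2 (qsf 536870912 536870912 536870912 536870912 2) ndB0q1 ndB3q1 pcB2 Cut.none Ext.none)

def k0_pm_112 : ∃ t, chk3 f_pm_112 t 1 1 1 = true :=
  ⟨(b (b (a (b (a (b (a (l 15786776) (l 1)) (a (a (l 15739672) (l 15701536)) (l 168071644903))) (l 1)) (a (a (b (l 15649688) (l 15576200)) (l 15539352)) (a (l 15452744) (l 1)))) (l 1)) (a (a (a (b (l 15466864) (l 15331288)) (b (l 15391624) (l 15248168))) (b (a (l 15297320) (l 15178752)) (a (l 15137368) (l 14992752)))) (a (b (l 1) (a (l 14807000) (l 1))) (l 1)))) (a (a (b (b (a (l 15221360) (l 15125008)) (a (l 15152384) (l 15038616))) (b (a (l 15140504) (l 15006232)) (a (l 15122712) (l 14915160)))) (b (b (a (l 14990416) (l 14810712)) (a (l 14874200) (l 14651760))) (b (a (l 14807072) (l 14535392)) (a (l 14697184) (l 14464312))))) (a (b (b (a (l 14577648) (l 14280424)) (a (l 14362672) (l 13995936))) (b (a (l 14182816) (l 13739504)) (a (l 14059248) (l 13533312)))) (a (b (a (l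 299064267175) (l 1)) (a (b (l 13340216) (l 13067224)) (b (l 13030648) (l 12713264)))) (b (l 1) (a (b (l 12718504) (l 12356128)) (b (l 1) (l 11936040)))))))), by decide +kernel⟩

theorem c_pm_112 : CertB 536870912 536870912 536870912 536870912 1040187392 5207648 3 eng mog cd0q1 cd3q1 pd2 true true false .dn 1 1 2
    ndB0q1 ndB3q1 pcB2 Cut.none Ext.none :=
  certB1 (fam := true) (s1 := true) (s2 := false) (a := 1) (b := 1) (c := 2) (cn := .dn) (n1 := ndB0q1) (n2 := ndB3q1) (pc := pcB2) (cut := Cut.none) (xt := Ext.none) (P1 := 536870912) (W1 := 536870912) (P2 := 536870912) (W2 := 536870912) (P3 := 1040187392) (W3 := 5207648) (N0 := 3) (En := eng) (mo := mog) (C1 := cd0q1) (C2 := cd3q1) (C3 := pd2)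
    rfl (fun _ => rfl) k0_pm_112

noncomputable def f_pm_113 : ℕ → ℕ → ℕ → ℕ → Bool := onCell 536870912 536870912 1610612736 536870912 1040187392 5207648
    (rowB 3 eng mog cd0q1 cd3q1 pd3 1 true true false .nn 1 1 3 (qsf 536870912 536870912 536870912 536870912 3) ndB0q1 ndB3q1 pcB3 Cut.none Ext.none)

def k0_pm_113 : ∃ t, chk3 f_pm_113 t 1 1 1 = true :=
  ⟨(a (b (b (a (b (a (a (l 13310784) (l 13441136)) (l 13673360)) (a (l 276044631399) (l 177260837831))) (b (a (l 13969288) (l 14221896)) (a (l 13686992) (l 13949384)))) (a (b (a (l 2) (l 206788326119)) (l 2)) (b (a (l 13284736) (l 13678512)) (a (b (l 13246416) (l 2)) (b (l 13468416) (l 13325496)))))) (a (l 2) (b (b (a (l 2) (l 356038316919)) (l 2)) (l 2)))) (b (a (b (b (a (l 14423656) (l 14565184)) (a (l 14159832) (l 14309184))) (b (a (b (l 13967528) (l 13837272)) (l 14075624)) (a (l 13632408) (l 13841888)))) (a (b (b (l 14607104) (a (l 14379336) (l 14404504))) (b (a (l 14165160) (l 14200944)) (a (l 13963912) (l 14029472))))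 (b (b (a (l 14646312) (l 14624328)) (a (l 14439824) (l 14415760))) (a (b (l 14253328) (l 14124896)) (b (l 14264984) (l 14195568)))))) (b (a (b (b (a (l 13432808) (l 13662616)) (a (l 13297704) (l 13529184))) (a (l 4) (l 4))) (a (b (l 4) (l 4)) (l 4))) (l 4)))), by decide +kernel⟩

theorem c_pm_113 : CertB 536870912 536870912 536870912 536870912 1040187392 5207648 3 eng mog cd0q1 cd3q1 pd3 true true false .nn 1 1 3
    ndB0q1 ndB3q1 pcB3 Cut.none Ext.none :=
  certB1 (fam := true) (s1 := true) (s2 := false) (a := 1) (b := 1) (c := 3) (cn := .nn) (n1 := ndB0q1) (n2 := ndB3q1) (pc := pcB3) (cut := Cut.none) (xt := Ext.none) (P1 := 536870912) (W1 := 536870912) (P2 := 536870912) (W2 := 536870912) (P3 := 1040187392) (W3 := 5207648) (N0 := 3) (En := eng) (mo := mog) (C1 := cd0q1) (C2 := cd3q1) (C3 := pd3)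
    rfl (fun _ => rfl) k0_pm_113

noncomputable def xt_pm_123 : Ext := extD3 3 ⟨4, 1, 1, 5, 33, 5, 163, 200, 81, 200, 1, 64⟩ eng cd0q1 cd3q2 pd3 true true false .npn 1 2 3 rfl ndB0q1 ndB3q2 pcB3

noncomputable def f_pm_123 : ℕ → ℕ → ℕ → ℕ → Bool := onCell 1610612736 536870912 1073741824 536870912 1040187392 5207648
    (rowB 3 eng mog cd0q1 cd3q2 pd3 2 true true false .npn 1 2 3 (qsf 536870912 536870912 1073741824 536870912 3) ndB0q1 ndB3q2 pcB3 Cut.none xt_pm_123)

def k0_pm_123 : ∃ t, chk3 f_pm_123 t 2 1 1 = true :=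
  ⟨(b (a (b (b (a (b (a (l 15807496) (l 15861296)) (l 15691536)) (b (a (l 15919800) (l 15982176)) (l 15805784))) (a (a (l 1) (l 15495968)) (b (l 15656328) (l 67676269479)))) (a (l 1) (b (a (l 1) (l 15493936)) (l 1)))) (b (b (a (b (a (l 16046976) (l 16111176)) (l 15937552)) (b (a (l 16013400) (l 15903792)) (l 16078360))) (a (b (l 15787464) (l 15630712)) (a (l 15773120) (l 15974904)))) (a (b (l 15508736) (l 112236731831)) (b (l 15872768) (l 15827976))))) (a (l 1) (b (a (l 1) (b (l 15597952) (l 1))) (l 1)))), by decide +kernel⟩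

def k1_pm_123 : ∃ t, chk3 f_pm_123 t 6 2 1 = true :=
  ⟨(b (a (a (b (b (l 15760544) (l 16061816)) (l 16072264)) (b (b (l 15630360) (l 15984520)) (l 16164192))) (b (b (a (b (l 15567024) (l 15721824)) (b (l 15526928) (l 15686480))) (a (l 15926264) (l 15746208))) (a (l 16160192) (l 16132792)))) (a (b (l 16075832) (l 16024824)) (b (l 16243928) (l 16181160)))), by decide +kernel⟩

def k2_pm_123 : ∃ t, chk3 f_pm_123 t 14 4 1 = true :=
  ⟨(b (b (a (b (l 15540344) (l 15698696)) (b (a (l 15609944) (b (l 15677488) (l 15737120))) (l 15791512))) (a (b (l 15841648) (l 15956208)) (b (l 15922744) (l 16025840)))) (a (l 16142888) (l 16209768))), by decide +kernel⟩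

def k3_pm_123 : ∃ t, chk3 f_pm_123 t 15 4 1 = true :=
  ⟨(b (a (a (b (b (b (a (l 15807120) (l 15928560)) (l 15886320)) (l 16058736)) (b (l 16057464) (l 16146592))) (a (b (b (b (l 16089536) (l 16059640)) (l 16084440)) (l 16131096)) (b (b (b (l 16308568) (l 16216984)) (l 16195808)) (b (l 16246352) (l 16310184))))) (b (a (b (a (b (b (l 16728144) (l 16554600)) (l 16503896)) (b (l 141899568940515343) (l 16686072))) (a (b (l 16344192) (l 16327240)) (b (l 16528512) (l 16473920)))) (a (b (b (a (l 16768336) (l 16772688)) (a (l 16750392) (l 16755248))) (b (l 16737032) (l 16635200))) (a (b (b (l 16758392) (l 16763440)) (l 16744024)) (a (b (l 16706472) (l 16744136)) (a (b (l 16715584) (l 16745608)) (b (a (b (l 143146827442438223) (l 16766864)) (b (a (l 143409954323939407) (a (l 8411391353335) (l 4))) (a (l 16761616) (a (l 16763240) (a (l 16766344) (a (l 16768712) (l 4))))))) (a (l 16746976) (a (l 16747824) (a (l 16748368) (a (l 16748528) (a (l 16748624) (b (l 142729975101849679) (b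 (l 143080307006799887) (l 16715592)))))))))))))) (a (a (b (l 16346256) (l 16395232)) (b (b (l 16464064) (l 16473784)) (l 16500232))) (a (b (b (l 16601552) (l 16598032)) (l 16610848)) (a (b (l 16704832) (l 16698592)) (a (b (l 16719344) (l 16700024)) (a (b (l 16718840) (l 16678776)) (b (a (b (l 16723752) (l 16714040)) (a (l 16696968) (a (l 16721352) (a (l 16724888) (b (l 16710432) (l 4)))))) (a (l 16707152) (a (l 16714168) (l 4))))))))))) (a (a (l 16311312) (a (l 16383168) (l 16439224))) (a (a (l 16501736) (l 16546984)) (a (b (l 16630648) (a (l 16558016) (l 16568192))) (a (b (b (l 16662064) (l 16583336)) (l 16575760)) (a (b (a (l 16651872) (l 16662416)) (l 16618808)) (a (l 16640376) (b (a (l 16671656) (l 4)) (l 4))))))))), by decide +kernel⟩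

def k4_pm_123 : ∃ t, chk3 f_pm_123 t 7 5 1 = true :=
  ⟨(a (b (a (l 16313080) (l 16367928)) (l 16282504)) (a (a (b (l 16418120) (l 16325312)) (b (l 16435808) (l 16336792))) (a (b (a (l 16451160) (l 16442104)) (a (l 16359376) (l 16396960))) (b (a (b (l 16511720) (l 16483088)) (a (l 16545016) (l 4))) (a (l 16443496) (l 4)))))), by decide +kernel⟩

def k5_pm_123 : ∃ t, chk3 f_pm_123 t 3 3 1 = true :=
  ⟨(a (b (a (b (l 15959464) (l 15667416)) (b (l 16103456) (l 16012280))) (a (l 1) (a (l 1) (b (l 15923040) (l 1))))) (b (a (a (b (l 16168072) (l 16064448)) (b (b (l 16214520) (l 16165736)) (a (l 16091360) (l 16128504)))) (b (a (a (l 16228920) (l 16275168)) (a (l 16326624) (l 4))) (a (l 16194480) (l 4)))) (a (a (b (l 15973728) (l 1)) (b (l 16057216) (l 15963904))) (a (b (l 16122128) (l 4)) (l 4))))), by decide +kernel⟩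

theorem s6_pm_123 : ∃ t, chk3 f_pm_123 t 7 4 1 = true := ex3_a k2_pm_123 k3_pm_123

theorem s7_pm_123 : ∃ t, chk3 f_pm_123 t 7 2 1 = true := ex3_b s6_pm_123 k4_pm_123

theorem s8_pm_123 : ∃ t, chk3 f_pm_123 t 3 2 1 = true := ex3_a k1_pm_123 s7_pm_123

theorem s9_pm_123 : ∃ t, chk3 f_pm_123 t 3 1 1 = true := ex3_b s8_pm_123 k5_pm_123

theorem s10_pm_123 : ∃ t, chk3 f_pm_123 t 1 1 1 = true := ex3_a k0_pm_123 s9_pm_123

theorem c_pm_123 : CertB 536870912 536870912 1073741824 536870912 1040187392 5207648 3 eng mog cd0q1 cd3q2 pd3 true true false .npn 1 2 3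
    ndB0q1 ndB3q2 pcB3 Cut.none xt_pm_123 :=
  certB2 (fam := true) (s1 := true) (s2 := false) (a := 1) (b := 2) (c := 3) (cn := .npn) (n1 := ndB0q1) (n2 := ndB3q2) (pc := pcB3) (cut := Cut.none) (xt := xt_pm_123) (P1 := 536870912) (W1 := 536870912) (P2 := 1073741824) (W2 := 536870912) (P3 := 1040187392) (W3 := 5207648) (N0 := 3) (En := eng) (mo := mog) (C1 := cd0q1) (C2 := cd3q2) (C3 := pd3)
    rfl (fun _ => rfl) s10_pm_123

noncomputable def f_pm_133 : ℕ → ℕ → ℕ → ℕ → Bool := onCell 536870912 536870912 0 1230186008 1040187392 5207648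
    (rowB 3 eng mog cd0q1 cd3q3 pd3 0 true true false .dn 1 3 3 (qsf 536870912 536870912 0 1230186008 3) ndB0q1 ndB3q3 pcB3 Cut.none Ext.none)

def k0_pm_133 : ∃ t, chk3 f_pm_133 t 1 1 1 = true :=
  ⟨(b (l 2) (b (l 2) (a (l 4) (l 2)))), by decide +kernel⟩

theorem c_pm_133 : CertB 536870912 536870912 0 1230186008 1040187392 5207648 3 eng mog cd0q1 cd3q3 pd3 true true false .dn 1 3 3
    ndB0q1 ndB3q3 pcB3 Cut.none Ext.none :=
  certB0 (fam := true) (s1 := true) (s2 := false) (a := 1) (b := 3) (c := 3) (cn := .dn) (n1 := ndB0q1) (n2 := ndB3q3) (pc := pcB3) (cut := Cut.none) (xt := Ext.none) (P1 := 536870912) (W1 := 536870912) (P2 := 0) (W2 := 1230186008) (P3 := 1040187392) (W3 := 5207648) (N0 := 3) (En := eng) (mo := mog) (C1 := cd0q1) (C2 := cd3q3) (C3 := pd3)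
    rfl k0_pm_133

noncomputable def f_pm_202 : ℕ → ℕ → ℕ → ℕ → Bool := onCell 0 536870912 0 536870912 1040187392 5207648
    (rowB 3 eng mog cd0q2 cd3q0 pd2 0 true true false .pp 2 0 2 (qsf 0 536870912 0 536870912 2) ndB0q2 ndB3q0 pcB2 Cut.none Ext.none)

def k0_pm_202 : ∃ t, chk3 f_pm_202 t 4 2 1 = true :=
  ⟨(b (b (b (b (a (l 15314744) (l 15529968)) (b (a (l 15078784) (l 15304864)) (a (l 14967984) (l 15201600)))) (b (b (a (l 14854280) (l 15095184)) (a (l 14681768) (l 14928968))) (a (l 14405032) (l 14660208)))) (b (a (b (a (a (b (l 14049720) (l 13989904)) (l 14021792)) (l 14096864)) (a (l 13851096) (a (a (b (l 13790896) (l 13713832)) (l 13745456)) (l 13771392)))) (b (l 14301792) (l 13945048))) (a (a (l 13893624) (b (b (b (l 13597888) (l 13571776)) (l 13587592)) (l 13593888))) (a (b (b (l 13604552) (l 13457088)) (b (a (l 13356712) (b (l 13336800) (l 13268624))) (l 13283568))) (l 13596264))))) (b (b (a (b (l 13797904) (l 13873816)) (a (l 13313184) (b (a (b (a (l 13085640)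 (l 13061920)) (l 13045200)) (l 13042280)) (b (l 12973784) (l 12993808))))) (a (l 14038432) (b (l 13227368) (l 13322168)))) (b (a (l 14300224) (l 13344944)) (a (b (l 14593072) (l 14687536)) (l 13656952))))), by decide +kernel⟩

def k1_pm_202 : ∃ t, chk3 f_pm_202 t 5 2 1 = true :=
  ⟨(b (b (b (b (a (l 15644928) (a (l 15956864) (l 16081456))) (b (a (l 15493624) (b (l 15841256) (l 15796040))) (a (l 15461400) (l 15732048)))) (b (b (a (l 15362776) (b (l 15670856) (l 15613440))) (a (l 15202464) (l 15487608))) (a (l 14941464) (l 15233880)))) (b (a (b (l 14592352) (l 14243712)) (b (l 14893224) (l 14551600))) (a (b (l 13897088) (l 13553952)) (b (l 14210608) (l 13871712))))) (b (a (b (b (l 13215664) (b (l 12976312) (a (a (a (l 12768024) (l 12728872)) (l 12760008)) (l 12881352)))) (a (b (b (a (l 12741128) (a (b (l 12637048) (l 12606944)) (l 12624248))) (l 12648848)) (l 12719600)) (b (l 12651248) (a (b (a (l 12453880) (l 12409944)) (l 12432176)) (b (l 12440968) (a (l 12312128) (l 12309544)))))))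 (b (b (l 13536296) (l 13205664)) (b (l 12881048) (l 12563616)))) (a (b (b (a (l 12810304) (b (l 12363680) (l 12402920))) (l 12700352)) (a (l 13148992) (l 12667312))) (b (a (a (b (b (l 12222208) (a (l 12136808) (l 12100920))) (l 12138752)) (b (l 12214744) (b (a (l 12002904) (l 12008960)) (a (l 11988056) (l 11909200))))) (l 12178800)) (a (l 12177752) (b (a (b (a (l 11819696) (l 11801968)) (a (l 11844096) (l 11734120))) (l 11789568)) (b (a (l 11835128) (a (l 11652104) (l 11606000))) (l 11763040)))))))), by decide +kernel⟩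

def k2_pm_202 : ∃ t, chk3 f_pm_202 t 2 3 1 = true :=
  ⟨(b (b (a (b (a (b (l 14707416) (l 4)) (a (l 14419520) (l 14010712))) (a (l 4) (a (l 14326640) (l 14279120)))) (a (b (a (l 13516568) (l 13002296)) (a (l 13936712) (l 13410560))) (b (a (l 12472472) (l 11931248)) (a (l 12851952) (l 12272600))))) (a (l 4) (a (b (a (l 13990760) (l 13830600)) (b (l 13797096) (l 4))) (b (a (l 13294240) (l 12691016)) (a (l 13562408) (l 13162952)))))) (b (a (l 2) (a (l 2) (b (a (l 2) (l 13331016)) (l 2)))) (l 2))), by decide +kernel⟩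

def k3_pm_202 : ∃ t, chk3 f_pm_202 t 6 2 1 = true :=
  ⟨(b (b (b (b (a (a (l 16181848) (l 16234480)) (a (a (l 16357328) (l 16366192)) (l 16352728))) (a (b (b (l 16092928) (l 16052872)) (a (l 15930720) (l 16058400))) (b (a (l 16161224) (b (l 16364552) (l 16332144))) (a (l 16178344) (l 16287552))))) (b (a (b (b (l 15943280) (l 15890056)) (l 15768240)) (b (b (l 16128368) (l 15975112)) (l 15836616))) (a (a (l 15449856) (l 15589752)) (a (l 15722656) (l 15845736))))) (b (a (b (l 15000648) (l 14854432)) (a (b (l 15396824) (l 15067112)) (b (l 15524496) (l 15198448)))) (a (b (l 14518512) (l 14183136)) (a (l 14569280) (b (l 14869288) (l 14538568)))))) (b (a (b (a (l 13606888) (l 13759624)) (a (l 12956848) (l 13108304))) (b (a (l 13905832) (l 14043168)) (a (l 13253224) (l 13389512)))) (a (b (a (l 12333408) (l 12480536)) (a (b (l 11888064) (l 11603424)) (l 11884944))) (b (a (l 12621056) (l 12753160)) (a (l 12018008) (l 12142864)))))), by decide +kernel⟩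

def k4_pm_202 : ∃ t, chk3 f_pm_202 t 7 2 1 = true :=
  ⟨(b (a (b (b (b (a (b (l 16591880) (l 16499328)) (a (l 16522816) (l 16555264))) (b (a (b (l 16450768) (l 16421888)) (b (a (l 16503952) (l 16539904)) (l 16477352))) (a (l 16382656) (a (l 16443008) (l 16484016))))) (b (b (a (b (l 16346240) (l 16301976)) (b (l 16434400) (l 16393192))) (a (l 16188032) (l 16281824))) (a (l 15955776) (l 15886464)))) (b (a (b (l 15639448) (l 15317344)) (b (l 15743216) (l 15425424))) (a (b (l 14991224) (l 14662672)) (b (l 15102680) (l 14776616))))) (b (b (b (a (a (b (l 16601336) (l 16617176)) (b (l 16622760) (l 16677912))) (a (b (l 16626848) (l 16652752)) (b (a (b (l 16693760) (l 16737616)) (b (a (l 16718592) (l 16763680)) (a (l 16730576) (l 16702984)))) (a (l 16662792) (l 16654640))))) (a (b (a (b (l 16575776) (l 16553824)) (b (l 16596808) (l 16577040))) (a (l 16525152) (l 16551688))) (b (a (b (l 16594944) (l 16577448)) (b (l 16582408) (l 16567280))) (a (l 16555560) (l 16549008))))) (b (a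 (b (a (b (l 16499352) (l 16460616)) (l 16447736)) (a (l 16351336) (l 16384408))) (b (b (l 16535704) (l 16501464)) (l 16395944))) (a (a (l 16127528) (l 16163240)) (l 16032136)))) (a (b (a (b (l 15820816) (l 15506576)) (l 15620976)) (a (l 15025464) (l 15069568))) (b (b (l 15880072) (l 15572352)) (b (l 15257760) (l 14938096)))))) (a (b (b (a (l 14168928) (b (l 14448792) (l 14120608))) (a (l 13514696) (a (l 13600384) (l 13659456)))) (b (a (l 12874696) (l 12988080)) (a (l 12257752) (l 12365432)))) (b (a (b (a (l 14373248) (l 14419720)) (a (l 13719912) (l 13767264))) (b (a (l 14444776) (l 14460752)) (l 13802528))) (a (b (a (l 13075680) (l 13122592)) (a (l 12449640) (l 12494936))) (b (l 13158080) (l 12529144)))))), by decide +kernel⟩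

def k5_pm_202 : ∃ t, chk3 f_pm_202 t 6 3 1 = true :=
  ⟨(b (b (a (b (a (b (a (b (a (l 11496792) (l 11419168)) (l 11489528)) (b (l 11432552) (a (l 11328608) (l 11316552)))) (b (l 11210024) (l 11481752))) (a (a (b (l 11415112) (b (l 11219808) (l 11151648))) (l 11318744)) (l 11361016))) (a (l 11677688) (b (b (a (a (l 11190880) (l 11064536)) (l 11043640)) (a (l 11187320) (a (l 10977880) (l 10935744)))) (l 11125320)))) (b (a (l 11452040) (l 11566632)) (a (a (b (l 11028800) (b (l 10854728) (a (l 10804680) (l 10750120)))) (l 10956944)) (l 11031832)))) (a (b (a (l 12060640) (l 11409976)) (a (l 12514248) (l 11831016))) (b (a (b (a (b (l 10792016) (l 10870056)) (b (l 10668152) (a (l 10629888) (l 10566352)))) (l 10828920)) (a (b (l 10640576) (b (l 10483360) (a (l 10451840) (l 10383936)))) (l 10565928))) (a (l 11122520) (b (a (l 10485960) (b (l 10300096) (a (l 10270864) (l 10202664)))) (l 10490072)))))) (b (a (b (a (l 13014336) (l 12318040)) (l 2)) (b (a (l 11579664) (l 10811464))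 (a (l 12100152) (l 11304112)))) (l 2))), by decide +kernel⟩

def k6_pm_202 : ∃ t, chk3 f_pm_202 t 7 3 1 = true :=
  ⟨(b (a (b (b (a (l 11671920) (l 11771128)) (a (l 11124632) (l 11212656))) (b (a (l 10622792) (l 10696960)) (a (a (b (l 10265024) (b (l 10118496) (a (l 10087336) (l 10023104)))) (l 10187280)) (l 10230528)))) (b (a (b (a (l 11850048) (l 11892648)) (l 11304792)) (b (l 11924304) (a (l 11344408) (l 11359264)))) (a (b (a (l 10759896) (l 10794128)) (l 10297560)) (b (l 10817648) (l 10329768))))) (a (b (b (a (b (a (b (l 10079560) (l 10169800)) (b (l 9939120) (l 9888912))) (b (l 10079088) (l 10181880))) (b (l 9916488) (a (a (l 9753552) (l 9720160)) (l 9736296)))) (a (l 10475344) (b (a (a (l 9836224) (l 9661912)) (l 9585632)) (a (l 9958720) (a (l 9638720) (l 9489032)))))) (b (a (l 11003840) (l 10120384)) (l 2))) (b (a (b (l 9870648) (a (l 9510072) (l 9510464))) (b (l 9894032) (l 9516360))) (a (b (a (b (a (l 9452240) (l 9328592)) (l 9586880)) (b (l 9279512) (a (l 9276216)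 (l 9174032)))) (a (l 9996432) (l 9540272))) (b (l 9202312) (a (b (a (l 9107576) (l 9029968)) (l 9202744)) (b (l 9014328) (l 8955392)))))))), by decide +kernel⟩

theorem s7_pm_202 : ∃ t, chk3 f_pm_202 t 3 3 1 = true := ex3_a k5_pm_202 k6_pm_202

theorem s8_pm_202 : ∃ t, chk3 f_pm_202 t 3 2 1 = true := ex3_a k3_pm_202 k4_pm_202

theorem s9_pm_202 : ∃ t, chk3 f_pm_202 t 3 1 1 = true := ex3_b s8_pm_202 s7_pm_202

theorem s10_pm_202 : ∃ t, chk3 f_pm_202 t 2 2 1 = true := ex3_a k0_pm_202 k1_pm_202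

theorem s11_pm_202 : ∃ t, chk3 f_pm_202 t 2 1 1 = true := ex3_b s10_pm_202 k2_pm_202

theorem s12_pm_202 : ∃ t, chk3 f_pm_202 t 1 1 1 = true := ex3_a s11_pm_202 s9_pm_202

theorem c_pm_202 : CertB 0 536870912 0 536870912 1040187392 5207648 3 eng mog cd0q2 cd3q0 pd2 true true false .pp 2 0 2
    ndB0q2 ndB3q0 pcB2 Cut.none Ext.none :=
  certB0 (fam := true) (s1 := true) (s2 := false) (a := 2) (b := 0) (c := 2) (cn := .pp) (n1 := ndB0q2) (n2 := ndB3q0) (pc := pcB2) (cut := Cut.none) (xt := Ext.none) (P1 := 0) (W1 := 536870912) (P2 := 0) (W2 := 536870912) (P3 := 1040187392) (W3 := 5207648) (N0 := 3) (En := eng) (mo := mog) (C1 := cd0q2) (C2 := cd3q0) (C3 := pd2)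
    rfl s12_pm_202

noncomputable def f_pm_203 : ℕ → ℕ → ℕ → ℕ → Bool := onCell 0 536870912 1610612736 536870912 1040187392 5207648
    (rowB 3 eng mog cd0q2 cd3q0 pd3 1 true true false .up 2 0 3 (qsf 0 536870912 0 536870912 3) ndB0q2 ndB3q0 pcB3 Cut.none Ext.none)

def k0_pm_203 : ∃ t, chk3 f_pm_203 t 1 1 1 = true :=
  ⟨(b (a (b (b (a (l 4) (b (l 13570456) (l 4))) (l 4)) (l 4)) (a (b (b (b (l 13378584) (l 13189904)) (b (l 13065080) (l 12998840))) (l 2)) (b (a (b (l 12788040) (l 12680888)) (b (a (l 12435256) (l 12133744)) (l 2))) (l 2)))) (l 2)), by decide +kernel⟩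

theorem c_pm_203 : CertB 0 536870912 0 536870912 1040187392 5207648 3 eng mog cd0q2 cd3q0 pd3 true true false .up 2 0 3
    ndB0q2 ndB3q0 pcB3 Cut.none Ext.none :=
  certB1 (fam := true) (s1 := true) (s2 := false) (a := 2) (b := 0) (c := 3) (cn := .up) (n1 := ndB0q2) (n2 := ndB3q0) (pc := pcB3) (cut := Cut.none) (xt := Ext.none) (P1 := 0) (W1 := 536870912) (P2 := 0) (W2 := 536870912) (P3 := 1040187392) (W3 := 5207648) (N0 := 3) (En := eng) (mo := mog) (C1 := cd0q2) (C2 := cd3q0) (C3 := pd3)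
    rfl (fun _ => rfl) k0_pm_203

noncomputable def f_pm_213 : ℕ → ℕ → ℕ → ℕ → Bool := onCell 0 536870912 1610612736 536870912 1040187392 5207648
    (rowB 3 eng mog cd0q2 cd3q1 pd3 1 true true false .pnn 2 1 3 (qsf 0 536870912 536870912 536870912 3) ndB0q2 ndB3q1 pcB3 Cut.none Ext.none)

def k0_pm_213 : ∃ t, chk3 f_pm_213 t 1 1 1 = true :=
  ⟨(b (a (b (b (l 1) (l 4)) (l 4)) (a (b (b (l 1) (b (l 15317152) (l 15350312))) (l 4)) (b (a (b (l 15060856) (l 14958456)) (b (l 14804320) (l 14623040))) (b (a (l 14970064) (l 14483072)) (l 4))))) (l 4)), by decide +kernel⟩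

theorem c_pm_213 : CertB 0 536870912 536870912 536870912 1040187392 5207648 3 eng mog cd0q2 cd3q1 pd3 true true false .pnn 2 1 3
    ndB0q2 ndB3q1 pcB3 Cut.none Ext.none :=
  certB1 (fam := true) (s1 := true) (s2 := false) (a := 2) (b := 1) (c := 3) (cn := .pnn) (n1 := ndB0q2) (n2 := ndB3q1) (pc := pcB3) (cut := Cut.none) (xt := Ext.none) (P1 := 0) (W1 := 536870912) (P2 := 536870912) (W2 := 536870912) (P3 := 1040187392) (W3 := 5207648) (N0 := 3) (En := eng) (mo := mog) (C1 := cd0q2) (C2 := cd3q1) (C3 := pd3)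
    rfl (fun _ => rfl) k0_pm_213

noncomputable def f_mm_001 : ℕ → ℕ → ℕ → ℕ → Bool := onCell 0 536870912 0 536870912 1040187392 5207648
    (rowB 3 eng mog cd0q0 cd3q0 pd1 0 true false false .up 0 0 1 (qsf 0 536870912 0 536870912 1) ndB0q0 ndB3q0 pcB1 Cut.none Ext.none)

def k0_mm_001 : ∃ t, chk3 f_mm_001 t 1 1 1 = true :=
  ⟨(l 4), by decide +kernel⟩

theorem c_mm_001 : CertB 0 536870912 0 536870912 1040187392 5207648 3 eng mog cd0q0 cd3q0 pd1 true false false .up 0 0 1
    ndB0q0 ndB3q0 pcB1 Cut.none Ext.none :=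
  certB0 (fam := true) (s1 := false) (s2 := false) (a := 0) (b := 0) (c := 1) (cn := .up) (n1 := ndB0q0) (n2 := ndB3q0) (pc := pcB1) (cut := Cut.none) (xt := Ext.none) (P1 := 0) (W1 := 536870912) (P2 := 0) (W2 := 536870912) (P3 := 1040187392) (W3 := 5207648) (N0 := 3) (En := eng) (mo := mog) (C1 := cd0q0) (C2 := cd3q0) (C3 := pd1)
    rfl k0_mm_001

noncomputable def f_mm_011 : ℕ → ℕ → ℕ → ℕ → Bool := onCell 0 536870912 536870912 536870912 1040187392 5207648
    (rowB 3 eng mog cd0q0 cd3q1 pd1 0 true false false .pnn 0 1 1 (qsf 0 536870912 536870912 536870912 1) ndB0q0 ndB3q1 pcB1 Cut.none Ext.none)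

def k0_mm_011 : ∃ t, chk3 f_mm_011 t 1 1 1 = true :=
  ⟨(l 4), by decide +kernel⟩

theorem c_mm_011 : CertB 0 536870912 536870912 536870912 1040187392 5207648 3 eng mog cd0q0 cd3q1 pd1 true false false .pnn 0 1 1
    ndB0q0 ndB3q1 pcB1 Cut.none Ext.none :=
  certB0 (fam := true) (s1 := false) (s2 := false) (a := 0) (b := 1) (c := 1) (cn := .pnn) (n1 := ndB0q0) (n2 := ndB3q1) (pc := pcB1) (cut := Cut.none) (xt := Ext.none) (P1 := 0) (W1 := 536870912) (P2 := 536870912) (W2 := 536870912) (P3 := 1040187392) (W3 := 5207648) (N0 := 3) (En := eng) (mo := mog) (C1 := cd0q0) (C2 := cd3q1) (C3 := pd1)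
    rfl k0_mm_011

noncomputable def f_mm_012 : ℕ → ℕ → ℕ → ℕ → Bool := onCell 0 536870912 536870912 536870912 1040187392 5207648
    (rowB 3 eng mog cd0q0 cd3q1 pd2 0 true false false .pnp 0 1 2 (qsf 0 536870912 536870912 536870912 2) ndB0q0 ndB3q1 pcB2 Cut.none Ext.none)

def k0_mm_012 : ∃ t, chk3 f_mm_012 t 1 1 1 = true :=
  ⟨(l 4), by decide +kernel⟩

theorem c_mm_012 : CertB 0 536870912 536870912 536870912 1040187392 5207648 3 eng mog cd0q0 cd3q1 pd2 true false false .pnp 0 1 2
    ndB0q0 ndB3q1 pcB2 Cut.none Ext.none :=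
  certB0 (fam := true) (s1 := false) (s2 := false) (a := 0) (b := 1) (c := 2) (cn := .pnp) (n1 := ndB0q0) (n2 := ndB3q1) (pc := pcB2) (cut := Cut.none) (xt := Ext.none) (P1 := 0) (W1 := 536870912) (P2 := 536870912) (W2 := 536870912) (P3 := 1040187392) (W3 := 5207648) (N0 := 3) (En := eng) (mo := mog) (C1 := cd0q0) (C2 := cd3q1) (C3 := pd2)
    rfl k0_mm_012

noncomputable def f_mm_022 : ℕ → ℕ → ℕ → ℕ → Bool := onCell 0 536870912 1073741824 536870912 1040187392 5207648
    (rowB 3 eng mog cd0q0 cd3q2 pd2 0 true false false .pp 0 2 2 (qsf 0 536870912 1073741824 536870912 2) ndB0q0 ndB3q2 pcB2 Cut.none Ext.none)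

def k0_mm_022 : ∃ t, chk3 f_mm_022 t 1 1 1 = true :=
  ⟨(l 5), by decide +kernel⟩

theorem c_mm_022 : CertB 0 536870912 1073741824 536870912 1040187392 5207648 3 eng mog cd0q0 cd3q2 pd2 true false false .pp 0 2 2
    ndB0q0 ndB3q2 pcB2 Cut.none Ext.none :=
  certB0 (fam := true) (s1 := false) (s2 := false) (a := 0) (b := 2) (c := 2) (cn := .pp) (n1 := ndB0q0) (n2 := ndB3q2) (pc := pcB2) (cut := Cut.none) (xt := Ext.none) (P1 := 0) (W1 := 536870912) (P2 := 1073741824) (W2 := 536870912) (P3 := 1040187392) (W3 := 5207648) (N0 := 3) (En := eng) (mo := mog) (C1 := cd0q0) (C2 := cd3q2) (C3 := pd2)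
    rfl k0_mm_022

noncomputable def f_mm_023 : ℕ → ℕ → ℕ → ℕ → Bool := onCell 0 536870912 1073741824 536870912 1040187392 5207648
    (rowB 3 eng mog cd0q0 cd3q2 pd3 0 true false false .up 0 2 3 (qsf 0 536870912 1073741824 536870912 3) ndB0q0 ndB3q2 pcB3 Cut.none Ext.none)

def k0_mm_023 : ∃ t, chk3 f_mm_023 t 1 1 1 = true :=
  ⟨(l 5), by decide +kernel⟩

theorem c_mm_023 : CertB 0 536870912 1073741824 536870912 1040187392 5207648 3 eng mog cd0q0 cd3q2 pd3 true false false .up 0 2 3
    ndB0q0 ndB3q2 pcB3 Cut.none Ext.none :=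
  certB0 (fam := true) (s1 := false) (s2 := false) (a := 0) (b := 2) (c := 3) (cn := .up) (n1 := ndB0q0) (n2 := ndB3q2) (pc := pcB3) (cut := Cut.none) (xt := Ext.none) (P1 := 0) (W1 := 536870912) (P2 := 1073741824) (W2 := 536870912) (P3 := 1040187392) (W3 := 5207648) (N0 := 3) (En := eng) (mo := mog) (C1 := cd0q0) (C2 := cd3q2) (C3 := pd3)
    rfl k0_mm_023

noncomputable def f_mm_033 : ℕ → ℕ → ℕ → ℕ → Bool := onCell 0 536870912 0 1230186008 1040187392 5207648
    (rowB 3 eng mog cd0q0 cd3q3 pd3 0 true false false .pnn 0 3 3 (qsf 0 536870912 0 1230186008 3) ndB0q0 ndB3q3 pcB3 Cut.none Ext.none)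

def k0_mm_033 : ∃ t, chk3 f_mm_033 t 1 1 1 = true :=
  ⟨(l 5), by decide +kernel⟩

theorem c_mm_033 : CertB 0 536870912 0 1230186008 1040187392 5207648 3 eng mog cd0q0 cd3q3 pd3 true false false .pnn 0 3 3
    ndB0q0 ndB3q3 pcB3 Cut.none Ext.none :=
  certB0 (fam := true) (s1 := false) (s2 := false) (a := 0) (b := 3) (c := 3) (cn := .pnn) (n1 := ndB0q0) (n2 := ndB3q3) (pc := pcB3) (cut := Cut.none) (xt := Ext.none) (P1 := 0) (W1 := 536870912) (P2 := 0) (W2 := 1230186008) (P3 := 1040187392) (W3 := 5207648) (N0 := 3) (En := eng) (mo := mog) (C1 := cd0q0) (C2 := cd3q3) (C3 := pd3)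
    rfl k0_mm_033

noncomputable def f_mm_101 : ℕ → ℕ → ℕ → ℕ → Bool := onCell 536870912 536870912 0 536870912 1040187392 5207648
    (rowB 3 eng mog cd0q1 cd3q0 pd1 0 true false false .npn 1 0 1 (qsf 536870912 536870912 0 536870912 1) ndB0q1 ndB3q0 pcB1 Cut.none Ext.none)

def k0_mm_101 : ∃ t, chk3 f_mm_101 t 1 1 1 = true :=
  ⟨(a (l 4) (b (a (l 4) (b (l 4) (l 4))) (l 4))), by decide +kernel⟩

theorem c_mm_101 : CertB 536870912 536870912 0 536870912 1040187392 5207648 3 eng mog cd0q1 cd3q0 pd1 true false false .npn 1 0 1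
    ndB0q1 ndB3q0 pcB1 Cut.none Ext.none :=
  certB0 (fam := true) (s1 := false) (s2 := false) (a := 1) (b := 0) (c := 1) (cn := .npn) (n1 := ndB0q1) (n2 := ndB3q0) (pc := pcB1) (cut := Cut.none) (xt := Ext.none) (P1 := 536870912) (W1 := 536870912) (P2 := 0) (W2 := 536870912) (P3 := 1040187392) (W3 := 5207648) (N0 := 3) (En := eng) (mo := mog) (C1 := cd0q1) (C2 := cd3q0) (C3 := pd1)
    rfl k0_mm_101

noncomputable def f_mm_102 : ℕ → ℕ → ℕ → ℕ → Bool := onCell 536870912 536870912 0 536870912 1040187392 5207648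
    (rowB 3 eng mog cd0q1 cd3q0 pd2 0 true false false .npp 1 0 2 (qsf 536870912 536870912 0 536870912 2) ndB0q1 ndB3q0 pcB2 Cut.none Ext.none)

def k0_mm_102 : ∃ t, chk3 f_mm_102 t 1 1 1 = true :=
  ⟨(a (l 4) (b (a (l 4) (b (l 4) (l 4))) (l 4))), by decide +kernel⟩

theorem c_mm_102 : CertB 536870912 536870912 0 536870912 1040187392 5207648 3 eng mog cd0q1 cd3q0 pd2 true false false .npp 1 0 2
    ndB0q1 ndB3q0 pcB2 Cut.none Ext.none :=
  certB0 (fam := true) (s1 := false) (s2 := false) (a := 1) (b := 0) (c := 2) (cn := .npp) (n1 := ndB0q1) (n2 := ndB3q0) (pc := pcB2) (cut := Cut.none) (xt := Ext.none) (P1 := 536870912) (W1 := 536870912) (P2 := 0) (W2 := 536870912) (P3 := 1040187392) (W3 := 5207648) (N0 := 3) (En := eng) (mo := mog) (C1 := cd0q1) (C2 := cd3q0) (C3 := pd2)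
    rfl k0_mm_102

noncomputable def f_mm_112 : ℕ → ℕ → ℕ → ℕ → Bool := onCell 536870912 536870912 536870912 536870912 1040187392 5207648
    (rowB 3 eng mog cd0q1 cd3q1 pd2 0 true false false .dn 1 1 2 (qsf 536870912 536870912 536870912 536870912 2) ndB0q1 ndB3q1 pcB2 Cut.none Ext.none)

def k0_mm_112 : ∃ t, chk3 f_mm_112 t 1 1 1 = true :=
  ⟨(l 4), by decide +kernel⟩

theorem c_mm_112 : CertB 536870912 536870912 536870912 536870912 1040187392 5207648 3 eng mog cd0q1 cd3q1 pd2 true false false .dn 1 1 2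
    ndB0q1 ndB3q1 pcB2 Cut.none Ext.none :=
  certB0 (fam := true) (s1 := false) (s2 := false) (a := 1) (b := 1) (c := 2) (cn := .dn) (n1 := ndB0q1) (n2 := ndB3q1) (pc := pcB2) (cut := Cut.none) (xt := Ext.none) (P1 := 536870912) (W1 := 536870912) (P2 := 536870912) (W2 := 536870912) (P3 := 1040187392) (W3 := 5207648) (N0 := 3) (En := eng) (mo := mog) (C1 := cd0q1) (C2 := cd3q1) (C3 := pd2)
    rfl k0_mm_112

noncomputable def f_mm_113 : ℕ → ℕ → ℕ → ℕ → Bool := onCell 536870912 536870912 536870912 536870912 1040187392 5207648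
    (rowB 3 eng mog cd0q1 cd3q1 pd3 0 true false false .nn 1 1 3 (qsf 536870912 536870912 536870912 536870912 3) ndB0q1 ndB3q1 pcB3 Cut.none Ext.none)

def k0_mm_113 : ∃ t, chk3 f_mm_113 t 1 1 1 = true :=
  ⟨(l 4), by decide +kernel⟩

theorem c_mm_113 : CertB 536870912 536870912 536870912 536870912 1040187392 5207648 3 eng mog cd0q1 cd3q1 pd3 true false false .nn 1 1 3
    ndB0q1 ndB3q1 pcB3 Cut.none Ext.none :=
  certB0 (fam := true) (s1 := false) (s2 := false) (a := 1) (b := 1) (c := 3) (cn := .nn) (n1 := ndB0q1) (n2 := ndB3q1) (pc := pcB3) (cut := Cut.none) (xt := Ext.none) (P1 := 536870912) (W1 := 536870912) (P2 := 536870912) (W2 := 536870912) (P3 := 1040187392) (W3 := 5207648) (N0 := 3) (En := eng) (mo := mog) (C1 := cd0q1) (C2 := cd3q1) (C3 := pd3)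
    rfl k0_mm_113

noncomputable def f_mm_123 : ℕ → ℕ → ℕ → ℕ → Bool := onCell 536870912 536870912 1073741824 536870912 1040187392 5207648
    (rowB 3 eng mog cd0q1 cd3q2 pd3 0 true false false .npn 1 2 3 (qsf 536870912 536870912 1073741824 536870912 3) ndB0q1 ndB3q2 pcB3 Cut.none Ext.none)

def k0_mm_123 : ∃ t, chk3 f_mm_123 t 1 1 1 = true :=
  ⟨(l 4), by decide +kernel⟩

theorem c_mm_123 : CertB 536870912 536870912 1073741824 536870912 1040187392 5207648 3 eng mog cd0q1 cd3q2 pd3 true false false .npn 1 2 3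
    ndB0q1 ndB3q2 pcB3 Cut.none Ext.none :=
  certB0 (fam := true) (s1 := false) (s2 := false) (a := 1) (b := 2) (c := 3) (cn := .npn) (n1 := ndB0q1) (n2 := ndB3q2) (pc := pcB3) (cut := Cut.none) (xt := Ext.none) (P1 := 536870912) (W1 := 536870912) (P2 := 1073741824) (W2 := 536870912) (P3 := 1040187392) (W3 := 5207648) (N0 := 3) (En := eng) (mo := mog) (C1 := cd0q1) (C2 := cd3q2) (C3 := pd3)
    rfl k0_mm_123

noncomputable def f_mm_133 : ℕ → ℕ → ℕ → ℕ → Bool := onCell 1610612736 536870912 0 1230186008 1040187392 5207648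
    (rowB 3 eng mog cd0q1 cd3q3 pd3 2 true false false .dn 1 3 3 (qsf 536870912 536870912 0 1230186008 3) ndB0q1 ndB3q3 pcB3 Cut.none Ext.none)

def k0_mm_133 : ∃ t, chk3 f_mm_133 t 1 1 1 = true :=
  ⟨(l 5), by decide +kernel⟩

theorem c_mm_133 : CertB 536870912 536870912 0 1230186008 1040187392 5207648 3 eng mog cd0q1 cd3q3 pd3 true false false .dn 1 3 3
    ndB0q1 ndB3q3 pcB3 Cut.none Ext.none :=
  certB2 (fam := true) (s1 := false) (s2 := false) (a := 1) (b := 3) (c := 3) (cn := .dn) (n1 := ndB0q1) (n2 := ndB3q3) (pc := pcB3) (cut := Cut.none) (xt := Ext.none) (P1 := 536870912) (W1 := 536870912) (P2 := 0) (W2 := 1230186008) (P3 := 1040187392) (W3 := 5207648) (N0 := 3) (En := eng) (mo := mog) (C1 := cd0q1) (C2 := cd3q3) (C3 := pd3)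
    rfl (fun _ => rfl) k0_mm_133

noncomputable def f_mm_202 : ℕ → ℕ → ℕ → ℕ → Bool := onCell 0 536870912 0 536870912 1040187392 5207648
    (rowB 3 eng mog cd0q2 cd3q0 pd2 0 true false false .pp 2 0 2 (qsf 0 536870912 0 536870912 2) ndB0q2 ndB3q0 pcB2 Cut.none Ext.none)

def k0_mm_202 : ∃ t, chk3 f_mm_202 t 2 1 1 = true :=
  ⟨(b (a (a (b (b (b (b (l 15140944) (b (l 14893688) (b (l 14806568) (l 14757104)))) (b (b (a (l 14697600) (b (l 14656424) (a (l 14626576) (l 14658736)))) (a (l 14526296) (l 14444384))) (a (b (a (l 14358456) (l 14363648)) (a (l 14193040) (l 14304912))) (l 14506688)))) (b (b (l 14331144) (l 14313424)) (b (l 14329648) (l 14377736)))) (b (b (l 14420488) (b (l 14691960) (l 14842800))) (b (b (l 14871344) (l 14999328)) (l 14923256)))) (b (b (b (b (a (b (l 15133920) (l 14967968)) (b (a (l 15117032) (l 15166624)) (l 15051736))) (b (a (b (a (l 14836800) (l 14839216)) (b (l 14825624) (l 14815680))) (l 15015480)) (a (b (l 14810752) (l 14818064)) (l 15032672))))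 (b (b (l 14840816) (l 14917672)) (l 14874432))) (b (b (l 14849208) (l 14858720)) (b (l 14900808) (l 14973312)))) (b (b (b (l 15074016) (l 15190416)) (b (l 15071584) (l 15264648))) (l 4)))) (b (a (b (b (b (a (l 15285968) (l 15488688)) (b (b (l 15330680) (l 15338144)) (l 15358800))) (b (b (l 15266168) (l 15374576)) (l 15346104))) (b (b (l 15339912) (l 15367648)) (b (l 15427080) (l 15398096)))) (b (b (b (a (l 15687256) (l 15879096)) (b (a (l 15637616) (l 15830976)) (l 15705248))) (b (b (a (l 15707448) (l 15904368)) (l 15795280)) (l 15647552))) (b (b (l 15778792) (a (l 15712312) (l 15906144))) (b (a (l 15764432) (l 15879448)) (l 38887051975))))) (b (b (a (b (a (l 15483944) (l 15622768)) (l 15511352)) (l 4)) (l 4)) (l 4)))) (l 4)), by decide +kernel⟩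

def k1_mm_202 : ∃ t, chk3 f_mm_202 t 3 1 1 = true :=
  ⟨(b (b (b (a (a (b (b (a (l 16061592) (l 16086488)) (b (a (l 16013336) (l 16182088)) (a (l 16047016) (l 16216032)))) (b (b (a (l 16088408) (l 16257328)) (l 16097216)) (a (l 16053280) (l 16213456)))) (b (b (a (b (l 16412040) (l 16361904)) (b (l 16539168) (l 16489112))) (b (a (l 16333992) (b (l 16458736) (l 16471368))) (a (l 16367824) (l 16457216)))) (b (b (a (l 16387616) (b (l 16533808) (l 16516624))) (a (l 16388784) (l 16471016))) (a (b (l 16350584) (l 16300336)) (l 4))))) (a (b (b (a (b (l 16629552) (l 16581912)) (b (a (l 16669000) (l 16673800)) (a (l 16620272) (l 16605816)))) (a (b (b (l 16552216) (l 16566880)) (b (l 16564216) (l 16559904))) (b (a (b (l 16590976) (l 16606576)) (l 4)) (l 4)))) (b (a (b (b (l 16620096) (l 4)) (l 4)) (l 4)) (l 4))) (a (b (b (a (b (b (l 16675880) (l 16651200)) (l 127472869031)) (b (b (l 143579125063) (l 4)) (l 4))) (l 4)) (l 4)) (l 4)))) (a (b (a (b (a (l 16053024) (l 16115440)) (a (l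 16015136) (l 4))) (l 4)) (l 4)) (l 4))) (l 4)) (l 4)), by decide +kernel⟩

theorem s2_mm_202 : ∃ t, chk3 f_mm_202 t 1 1 1 = true := ex3_a k0_mm_202 k1_mm_202

theorem c_mm_202 : CertB 0 536870912 0 536870912 1040187392 5207648 3 eng mog cd0q2 cd3q0 pd2 true false false .pp 2 0 2
    ndB0q2 ndB3q0 pcB2 Cut.none Ext.none :=
  certB0 (fam := true) (s1 := false) (s2 := false) (a := 2) (b := 0) (c := 2) (cn := .pp) (n1 := ndB0q2) (n2 := ndB3q0) (pc := pcB2) (cut := Cut.none) (xt := Ext.none) (P1 := 0) (W1 := 536870912) (P2 := 0) (W2 := 536870912) (P3 := 1040187392) (W3 := 5207648) (N0 := 3) (En := eng) (mo := mog) (C1 := cd0q2) (C2 := cd3q0) (C3 := pd2)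
    rfl s2_mm_202

noncomputable def f_mm_203 : ℕ → ℕ → ℕ → ℕ → Bool := onCell 0 536870912 1610612736 536870912 1040187392 5207648
    (rowB 3 eng mog cd0q2 cd3q0 pd3 1 true false false .up 2 0 3 (qsf 0 536870912 0 536870912 3) ndB0q2 ndB3q0 pcB3 Cut.none Ext.none)

def k0_mm_203 : ∃ t, chk3 f_mm_203 t 1 1 1 = true :=
  ⟨(l 4), by decide +kernel⟩

theorem c_mm_203 : CertB 0 536870912 0 536870912 1040187392 5207648 3 eng mog cd0q2 cd3q0 pd3 true false false .up 2 0 3
    ndB0q2 ndB3q0 pcB3 Cut.none Ext.none :=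
  certB1 (fam := true) (s1 := false) (s2 := false) (a := 2) (b := 0) (c := 3) (cn := .up) (n1 := ndB0q2) (n2 := ndB3q0) (pc := pcB3) (cut := Cut.none) (xt := Ext.none) (P1 := 0) (W1 := 536870912) (P2 := 0) (W2 := 536870912) (P3 := 1040187392) (W3 := 5207648) (N0 := 3) (En := eng) (mo := mog) (C1 := cd0q2) (C2 := cd3q0) (C3 := pd3)
    rfl (fun _ => rfl) k0_mm_203

noncomputable def f_mm_213 : ℕ → ℕ → ℕ → ℕ → Bool := onCell 0 536870912 536870912 536870912 1040187392 5207648
    (rowB 3 eng mog cd0q2 cd3q1 pd3 0 true false false .pnn 2 1 3 (qsf 0 536870912 536870912 536870912 3) ndB0q2 ndB3q1 pcB3 Cut.none Ext.none)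

def k0_mm_213 : ∃ t, chk3 f_mm_213 t 1 1 1 = true :=
  ⟨(l 4), by decide +kernel⟩

theorem c_mm_213 : CertB 0 536870912 536870912 536870912 1040187392 5207648 3 eng mog cd0q2 cd3q1 pd3 true false false .pnn 2 1 3
    ndB0q2 ndB3q1 pcB3 Cut.none Ext.none :=
  certB0 (fam := true) (s1 := false) (s2 := false) (a := 2) (b := 1) (c := 3) (cn := .pnn) (n1 := ndB0q2) (n2 := ndB3q1) (pc := pcB3) (cut := Cut.none) (xt := Ext.none) (P1 := 0) (W1 := 536870912) (P2 := 536870912) (W2 := 536870912) (P3 := 1040187392) (W3 := 5207648) (N0 := 3) (En := eng) (mo := mog) (C1 := cd0q2) (C2 := cd3q1) (C3 := pd3)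
    rfl k0_mm_213

end Pool.Agent.Strip051.G.I9688_9736.Tab.C.BA03

namespace Pool.Agent.Strip051.G.I9688_9736.Tab.C.BA04

open Pool.Agent.Strip051.PB Pool.Agent.Strip051.PB.T
open Pool.Agent.Strip051.G.I9688_9736.Tab

noncomputable def f_pp_001 : ℕ → ℕ → ℕ → ℕ → Bool := onCell 0 536870912 0 536870912 1040187392 5207648
    (rowB 3 eng mog cd0q0 cd4q0 pd1 0 true true true .up 0 0 1 (qsf 0 536870912 0 536870912 1) ndB0q0 ndB4q0 pcB1 Cut.none Ext.none)

def k0_pp_001 : ∃ t, chk3 f_pp_001 t 1 1 1 = true :=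
  ⟨(l 4), by decide +kernel⟩

theorem c_pp_001 : CertB 0 536870912 0 536870912 1040187392 5207648 3 eng mog cd0q0 cd4q0 pd1 true true true .up 0 0 1
    ndB0q0 ndB4q0 pcB1 Cut.none Ext.none :=
  certB0 (fam := true) (s1 := true) (s2 := true) (a := 0) (b := 0) (c := 1) (cn := .up) (n1 := ndB0q0) (n2 := ndB4q0) (pc := pcB1) (cut := Cut.none) (xt := Ext.none) (P1 := 0) (W1 := 536870912) (P2 := 0) (W2 := 536870912) (P3 := 1040187392) (W3 := 5207648) (N0 := 3) (En := eng) (mo := mog) (C1 := cd0q0) (C2 := cd4q0) (C3 := pd1)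
    rfl k0_pp_001

noncomputable def f_pp_011 : ℕ → ℕ → ℕ → ℕ → Bool := onCell 0 536870912 536870912 536870912 1040187392 5207648
    (rowB 3 eng mog cd0q0 cd4q1 pd1 0 true true true .pnn 0 1 1 (qsf 0 536870912 536870912 536870912 1) ndB0q0 ndB4q1 pcB1 Cut.none Ext.none)

def k0_pp_011 : ∃ t, chk3 f_pp_011 t 1 1 1 = true :=
  ⟨(l 4), by decide +kernel⟩

theorem c_pp_011 : CertB 0 536870912 536870912 536870912 1040187392 5207648 3 eng mog cd0q0 cd4q1 pd1 true true true .pnn 0 1 1
    ndB0q0 ndB4q1 pcB1 Cut.none Ext.none :=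
  certB0 (fam := true) (s1 := true) (s2 := true) (a := 0) (b := 1) (c := 1) (cn := .pnn) (n1 := ndB0q0) (n2 := ndB4q1) (pc := pcB1) (cut := Cut.none) (xt := Ext.none) (P1 := 0) (W1 := 536870912) (P2 := 536870912) (W2 := 536870912) (P3 := 1040187392) (W3 := 5207648) (N0 := 3) (En := eng) (mo := mog) (C1 := cd0q0) (C2 := cd4q1) (C3 := pd1)
    rfl k0_pp_011

noncomputable def f_pp_012 : ℕ → ℕ → ℕ → ℕ → Bool := onCell 0 536870912 536870912 536870912 1040187392 5207648
    (rowB 3 eng mog cd0q0 cd4q1 pd2 0 true true true .pnp 0 1 2 (qsf 0 536870912 536870912 536870912 2) ndB0q0 ndB4q1 pcB2 Cut.none Ext.none)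

def k0_pp_012 : ∃ t, chk3 f_pp_012 t 1 1 1 = true :=
  ⟨(l 4), by decide +kernel⟩

theorem c_pp_012 : CertB 0 536870912 536870912 536870912 1040187392 5207648 3 eng mog cd0q0 cd4q1 pd2 true true true .pnp 0 1 2
    ndB0q0 ndB4q1 pcB2 Cut.none Ext.none :=
  certB0 (fam := true) (s1 := true) (s2 := true) (a := 0) (b := 1) (c := 2) (cn := .pnp) (n1 := ndB0q0) (n2 := ndB4q1) (pc := pcB2) (cut := Cut.none) (xt := Ext.none) (P1 := 0) (W1 := 536870912) (P2 := 536870912) (W2 := 536870912) (P3 := 1040187392) (W3 := 5207648) (N0 := 3) (En := eng) (mo := mog) (C1 := cd0q0) (C2 := cd4q1) (C3 := pd2)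
    rfl k0_pp_012

noncomputable def f_pp_022 : ℕ → ℕ → ℕ → ℕ → Bool := onCell 0 536870912 1073741824 536870912 1040187392 5207648
    (rowB 3 eng mog cd0q0 cd4q2 pd2 0 true true true .pp 0 2 2 (qsf 0 536870912 1073741824 536870912 2) ndB0q0 ndB4q2 pcB2 Cut.none Ext.none)

def k0_pp_022 : ∃ t, chk3 f_pp_022 t 1 1 1 = true :=
  ⟨(l 4), by decide +kernel⟩

theorem c_pp_022 : CertB 0 536870912 1073741824 536870912 1040187392 5207648 3 eng mog cd0q0 cd4q2 pd2 true true true .pp 0 2 2
    ndB0q0 ndB4q2 pcB2 Cut.none Ext.none :=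
  certB0 (fam := true) (s1 := true) (s2 := true) (a := 0) (b := 2) (c := 2) (cn := .pp) (n1 := ndB0q0) (n2 := ndB4q2) (pc := pcB2) (cut := Cut.none) (xt := Ext.none) (P1 := 0) (W1 := 536870912) (P2 := 1073741824) (W2 := 536870912) (P3 := 1040187392) (W3 := 5207648) (N0 := 3) (En := eng) (mo := mog) (C1 := cd0q0) (C2 := cd4q2) (C3 := pd2)
    rfl k0_pp_022

noncomputable def f_pp_023 : ℕ → ℕ → ℕ → ℕ → Bool := onCell 0 536870912 1073741824 536870912 1040187392 5207648
    (rowB 3 eng mog cd0q0 cd4q2 pd3 0 true true true .up 0 2 3 (qsf 0 536870912 1073741824 536870912 3) ndB0q0 ndB4q2 pcB3 Cut.none Ext.none)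

def k0_pp_023 : ∃ t, chk3 f_pp_023 t 1 1 1 = true :=
  ⟨(l 4), by decide +kernel⟩

theorem c_pp_023 : CertB 0 536870912 1073741824 536870912 1040187392 5207648 3 eng mog cd0q0 cd4q2 pd3 true true true .up 0 2 3
    ndB0q0 ndB4q2 pcB3 Cut.none Ext.none :=
  certB0 (fam := true) (s1 := true) (s2 := true) (a := 0) (b := 2) (c := 3) (cn := .up) (n1 := ndB0q0) (n2 := ndB4q2) (pc := pcB3) (cut := Cut.none) (xt := Ext.none) (P1 := 0) (W1 := 536870912) (P2 := 1073741824) (W2 := 536870912) (P3 := 1040187392) (W3 := 5207648) (N0 := 3) (En := eng) (mo := mog) (C1 := cd0q0) (C2 := cd4q2) (C3 := pd3)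
    rfl k0_pp_023

noncomputable def f_pp_033 : ℕ → ℕ → ℕ → ℕ → Bool := onCell 0 536870912 0 1230186008 1040187392 5207648
    (rowB 3 eng mog cd0q0 cd4q3 pd3 0 true true true .pnn 0 3 3 (qsf 0 536870912 0 1230186008 3) ndB0q0 ndB4q3 pcB3 Cut.none Ext.none)

def k0_pp_033 : ∃ t, chk3 f_pp_033 t 1 1 1 = true :=
  ⟨(b (l 4) (l 4)), by decide +kernel⟩

theorem c_pp_033 : CertB 0 536870912 0 1230186008 1040187392 5207648 3 eng mog cd0q0 cd4q3 pd3 true true true .pnn 0 3 3
    ndB0q0 ndB4q3 pcB3 Cut.none Ext.none :=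
  certB0 (fam := true) (s1 := true) (s2 := true) (a := 0) (b := 3) (c := 3) (cn := .pnn) (n1 := ndB0q0) (n2 := ndB4q3) (pc := pcB3) (cut := Cut.none) (xt := Ext.none) (P1 := 0) (W1 := 536870912) (P2 := 0) (W2 := 1230186008) (P3 := 1040187392) (W3 := 5207648) (N0 := 3) (En := eng) (mo := mog) (C1 := cd0q0) (C2 := cd4q3) (C3 := pd3)
    rfl k0_pp_033

noncomputable def f_pp_101 : ℕ → ℕ → ℕ → ℕ → Bool := onCell 536870912 536870912 0 536870912 1040187392 5207648
    (rowB 3 eng mog cd0q1 cd4q0 pd1 0 true true true .npn 1 0 1 (qsf 536870912 536870912 0 536870912 1) ndB0q1 ndB4q0 pcB1 Cut.none Ext.none)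

def k0_pp_101 : ∃ t, chk3 f_pp_101 t 1 1 1 = true :=
  ⟨(l 4), by decide +kernel⟩

theorem c_pp_101 : CertB 536870912 536870912 0 536870912 1040187392 5207648 3 eng mog cd0q1 cd4q0 pd1 true true true .npn 1 0 1
    ndB0q1 ndB4q0 pcB1 Cut.none Ext.none :=
  certB0 (fam := true) (s1 := true) (s2 := true) (a := 1) (b := 0) (c := 1) (cn := .npn) (n1 := ndB0q1) (n2 := ndB4q0) (pc := pcB1) (cut := Cut.none) (xt := Ext.none) (P1 := 536870912) (W1 := 536870912) (P2 := 0) (W2 := 536870912) (P3 := 1040187392) (W3 := 5207648) (N0 := 3) (En := eng) (mo := mog) (C1 := cd0q1) (C2 := cd4q0) (C3 := pd1)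
    rfl k0_pp_101

noncomputable def f_pp_102 : ℕ → ℕ → ℕ → ℕ → Bool := onCell 536870912 536870912 0 536870912 1040187392 5207648
    (rowB 3 eng mog cd0q1 cd4q0 pd2 0 true true true .npp 1 0 2 (qsf 536870912 536870912 0 536870912 2) ndB0q1 ndB4q0 pcB2 Cut.none Ext.none)

def k0_pp_102 : ∃ t, chk3 f_pp_102 t 1 1 1 = true :=
  ⟨(l 4), by decide +kernel⟩

theorem c_pp_102 : CertB 536870912 536870912 0 536870912 1040187392 5207648 3 eng mog cd0q1 cd4q0 pd2 true true true .npp 1 0 2
    ndB0q1 ndB4q0 pcB2 Cut.none Ext.none :=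
  certB0 (fam := true) (s1 := true) (s2 := true) (a := 1) (b := 0) (c := 2) (cn := .npp) (n1 := ndB0q1) (n2 := ndB4q0) (pc := pcB2) (cut := Cut.none) (xt := Ext.none) (P1 := 536870912) (W1 := 536870912) (P2 := 0) (W2 := 536870912) (P3 := 1040187392) (W3 := 5207648) (N0 := 3) (En := eng) (mo := mog) (C1 := cd0q1) (C2 := cd4q0) (C3 := pd2)
    rfl k0_pp_102

noncomputable def f_pp_112 : ℕ → ℕ → ℕ → ℕ → Bool := onCell 536870912 536870912 536870912 536870912 1040187392 5207648
    (rowB 3 eng mog cd0q1 cd4q1 pd2 0 true true true .dn 1 1 2 (qsf 536870912 536870912 536870912 536870912 2) ndB0q1 ndB4q1 pcB2 Cut.none Ext.none)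

def k0_pp_112 : ∃ t, chk3 f_pp_112 t 1 1 1 = true :=
  ⟨(l 4), by decide +kernel⟩

theorem c_pp_112 : CertB 536870912 536870912 536870912 536870912 1040187392 5207648 3 eng mog cd0q1 cd4q1 pd2 true true true .dn 1 1 2
    ndB0q1 ndB4q1 pcB2 Cut.none Ext.none :=
  certB0 (fam := true) (s1 := true) (s2 := true) (a := 1) (b := 1) (c := 2) (cn := .dn) (n1 := ndB0q1) (n2 := ndB4q1) (pc := pcB2) (cut := Cut.none) (xt := Ext.none) (P1 := 536870912) (W1 := 536870912) (P2 := 536870912) (W2 := 536870912) (P3 := 1040187392) (W3 := 5207648) (N0 := 3) (En := eng) (mo := mog) (C1 := cd0q1) (C2 := cd4q1) (C3 := pd2)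
    rfl k0_pp_112

noncomputable def f_pp_113 : ℕ → ℕ → ℕ → ℕ → Bool := onCell 536870912 536870912 536870912 536870912 1040187392 5207648
    (rowB 3 eng mog cd0q1 cd4q1 pd3 0 true true true .nn 1 1 3 (qsf 536870912 536870912 536870912 536870912 3) ndB0q1 ndB4q1 pcB3 Cut.none Ext.none)

def k0_pp_113 : ∃ t, chk3 f_pp_113 t 1 1 1 = true :=
  ⟨(l 4), by decide +kernel⟩

theorem c_pp_113 : CertB 536870912 536870912 536870912 536870912 1040187392 5207648 3 eng mog cd0q1 cd4q1 pd3 true true true .nn 1 1 3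
    ndB0q1 ndB4q1 pcB3 Cut.none Ext.none :=
  certB0 (fam := true) (s1 := true) (s2 := true) (a := 1) (b := 1) (c := 3) (cn := .nn) (n1 := ndB0q1) (n2 := ndB4q1) (pc := pcB3) (cut := Cut.none) (xt := Ext.none) (P1 := 536870912) (W1 := 536870912) (P2 := 536870912) (W2 := 536870912) (P3 := 1040187392) (W3 := 5207648) (N0 := 3) (En := eng) (mo := mog) (C1 := cd0q1) (C2 := cd4q1) (C3 := pd3)
    rfl k0_pp_113

noncomputable def f_pp_123 : ℕ → ℕ → ℕ → ℕ → Bool := onCell 536870912 536870912 1073741824 536870912 1040187392 5207648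
    (rowB 3 eng mog cd0q1 cd4q2 pd3 0 true true true .npn 1 2 3 (qsf 536870912 536870912 1073741824 536870912 3) ndB0q1 ndB4q2 pcB3 Cut.none Ext.none)

def k0_pp_123 : ∃ t, chk3 f_pp_123 t 1 1 1 = true :=
  ⟨(l 4), by decide +kernel⟩

theorem c_pp_123 : CertB 536870912 536870912 1073741824 536870912 1040187392 5207648 3 eng mog cd0q1 cd4q2 pd3 true true true .npn 1 2 3
    ndB0q1 ndB4q2 pcB3 Cut.none Ext.none :=
  certB0 (fam := true) (s1 := true) (s2 := true) (a := 1) (b := 2) (c := 3) (cn := .npn) (n1 := ndB0q1) (n2 := ndB4q2) (pc := pcB3) (cut := Cut.none) (xt := Ext.none) (P1 := 536870912) (W1 := 536870912) (P2 := 1073741824) (W2 := 536870912) (P3 := 1040187392) (W3 := 5207648) (N0 := 3) (En := eng) (mo := mog) (C1 := cd0q1) (C2 := cd4q2) (C3 := pd3)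
    rfl k0_pp_123

noncomputable def f_pp_133 : ℕ → ℕ → ℕ → ℕ → Bool := onCell 536870912 536870912 0 1230186008 1040187392 5207648
    (rowB 3 eng mog cd0q1 cd4q3 pd3 0 true true true .dn 1 3 3 (qsf 536870912 536870912 0 1230186008 3) ndB0q1 ndB4q3 pcB3 Cut.none Ext.none)

def k0_pp_133 : ∃ t, chk3 f_pp_133 t 1 1 1 = true :=
  ⟨(l 4), by decide +kernel⟩

theorem c_pp_133 : CertB 536870912 536870912 0 1230186008 1040187392 5207648 3 eng mog cd0q1 cd4q3 pd3 true true true .dn 1 3 3
    ndB0q1 ndB4q3 pcB3 Cut.none Ext.none :=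
  certB0 (fam := true) (s1 := true) (s2 := true) (a := 1) (b := 3) (c := 3) (cn := .dn) (n1 := ndB0q1) (n2 := ndB4q3) (pc := pcB3) (cut := Cut.none) (xt := Ext.none) (P1 := 536870912) (W1 := 536870912) (P2 := 0) (W2 := 1230186008) (P3 := 1040187392) (W3 := 5207648) (N0 := 3) (En := eng) (mo := mog) (C1 := cd0q1) (C2 := cd4q3) (C3 := pd3)
    rfl k0_pp_133

noncomputable def f_pp_202 : ℕ → ℕ → ℕ → ℕ → Bool := onCell 0 536870912 0 536870912 1040187392 5207648
    (rowB 3 eng mog cd0q2 cd4q0 pd2 0 true true true .pp 2 0 2 (qsf 0 536870912 0 536870912 2) ndB0q2 ndB4q0 pcB2 Cut.none Ext.none)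

def k0_pp_202 : ∃ t, chk3 f_pp_202 t 1 1 1 = true :=
  ⟨(l 4), by decide +kernel⟩

theorem c_pp_202 : CertB 0 536870912 0 536870912 1040187392 5207648 3 eng mog cd0q2 cd4q0 pd2 true true true .pp 2 0 2
    ndB0q2 ndB4q0 pcB2 Cut.none Ext.none :=
  certB0 (fam := true) (s1 := true) (s2 := true) (a := 2) (b := 0) (c := 2) (cn := .pp) (n1 := ndB0q2) (n2 := ndB4q0) (pc := pcB2) (cut := Cut.none) (xt := Ext.none) (P1 := 0) (W1 := 536870912) (P2 := 0) (W2 := 536870912) (P3 := 1040187392) (W3 := 5207648) (N0 := 3) (En := eng) (mo := mog) (C1 := cd0q2) (C2 := cd4q0) (C3 := pd2)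
    rfl k0_pp_202

noncomputable def f_pp_203 : ℕ → ℕ → ℕ → ℕ → Bool := onCell 0 536870912 0 536870912 1040187392 5207648
    (rowB 3 eng mog cd0q2 cd4q0 pd3 0 true true true .up 2 0 3 (qsf 0 536870912 0 536870912 3) ndB0q2 ndB4q0 pcB3 Cut.none Ext.none)

def k0_pp_203 : ∃ t, chk3 f_pp_203 t 1 1 1 = true :=
  ⟨(l 4), by decide +kernel⟩

theorem c_pp_203 : CertB 0 536870912 0 536870912 1040187392 5207648 3 eng mog cd0q2 cd4q0 pd3 true true true .up 2 0 3
    ndB0q2 ndB4q0 pcB3 Cut.none Ext.none :=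
  certB0 (fam := true) (s1 := true) (s2 := true) (a := 2) (b := 0) (c := 3) (cn := .up) (n1 := ndB0q2) (n2 := ndB4q0) (pc := pcB3) (cut := Cut.none) (xt := Ext.none) (P1 := 0) (W1 := 536870912) (P2 := 0) (W2 := 536870912) (P3 := 1040187392) (W3 := 5207648) (N0 := 3) (En := eng) (mo := mog) (C1 := cd0q2) (C2 := cd4q0) (C3 := pd3)
    rfl k0_pp_203

noncomputable def f_pp_213 : ℕ → ℕ → ℕ → ℕ → Bool := onCell 0 536870912 536870912 536870912 1040187392 5207648
    (rowB 3 eng mog cd0q2 cd4q1 pd3 0 true true true .pnn 2 1 3 (qsf 0 536870912 536870912 536870912 3) ndB0q2 ndB4q1 pcB3 Cut.none Ext.none)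

def k0_pp_213 : ∃ t, chk3 f_pp_213 t 1 1 1 = true :=
  ⟨(l 4), by decide +kernel⟩

theorem c_pp_213 : CertB 0 536870912 536870912 536870912 1040187392 5207648 3 eng mog cd0q2 cd4q1 pd3 true true true .pnn 2 1 3
    ndB0q2 ndB4q1 pcB3 Cut.none Ext.none :=
  certB0 (fam := true) (s1 := true) (s2 := true) (a := 2) (b := 1) (c := 3) (cn := .pnn) (n1 := ndB0q2) (n2 := ndB4q1) (pc := pcB3) (cut := Cut.none) (xt := Ext.none) (P1 := 0) (W1 := 536870912) (P2 := 536870912) (W2 := 536870912) (P3 := 1040187392) (W3 := 5207648) (N0 := 3) (En := eng) (mo := mog) (C1 := cd0q2) (C2 := cd4q1) (C3 := pd3)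
    rfl k0_pp_213

noncomputable def f_pm_001 : ℕ → ℕ → ℕ → ℕ → Bool := onCell 0 536870912 536870912 536870912 1040187392 5207648
    (rowB 3 eng mog cd0q0 cd4q0 pd1 1 true true false .up 0 0 1 (qsf 0 536870912 0 536870912 1) ndB0q0 ndB4q0 pcB1 Cut.none Ext.none)

def k0_pm_001 : ∃ t, chk3 f_pm_001 t 1 1 1 = true :=
  ⟨(b (l 3) (a (b (l 3) (l 2)) (a (b (l 3) (b (b (a (l 2) (b (a (l 2) (l 264843630471)) (l 2))) (l 2)) (l 2))) (b (b (l 3) (a (b (l 3) (b (a (l 3) (b (l 3) (l 241758477191))) (a (b (l 3) (l 265380635079)) (b (l 245516523623) (l 16106104))))) (b (a (l 3) (b (l 3) (a (l 289003292487) (l 236389924583)))) (b (a (a (l 246053516519) (l 254643454663)) (a (l 16208120) (l 16219528))) (a (l 16168504) (l 16172136)))))) (b (b (a (a (b (a (l 16037208) (l 16056088)) (l 15973656)) (b (l 16079840) (l 16009184))) (a (l 16069816) (l 16084336))) (a (b (l 15911864) (l 15821904)) (b (l 15969024) (l 15885000)))) (b (a (b (l 15728728) (l 2)) (b (l 15797296) (l 15708440))) (a (l 2)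 (l 15546048)))))))), by decide +kernel⟩

theorem c_pm_001 : CertB 0 536870912 0 536870912 1040187392 5207648 3 eng mog cd0q0 cd4q0 pd1 true true false .up 0 0 1
    ndB0q0 ndB4q0 pcB1 Cut.none Ext.none :=
  certB1 (fam := true) (s1 := true) (s2 := false) (a := 0) (b := 0) (c := 1) (cn := .up) (n1 := ndB0q0) (n2 := ndB4q0) (pc := pcB1) (cut := Cut.none) (xt := Ext.none) (P1 := 0) (W1 := 536870912) (P2 := 0) (W2 := 536870912) (P3 := 1040187392) (W3 := 5207648) (N0 := 3) (En := eng) (mo := mog) (C1 := cd0q0) (C2 := cd4q0) (C3 := pd1)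
    rfl (fun _ => rfl) k0_pm_001

noncomputable def cut_pm_011 : Cut := Cut.of [[⟨0, 0, 0, 26843545⟩, ⟨1, 1, 0, 26843545⟩, ⟨2, 1, 0, 26843545⟩]]

noncomputable def f_pm_011 : ℕ → ℕ → ℕ → ℕ → Bool := onCell 0 536870912 536870912 536870912 1040187392 5207648
    (rowB 3 eng mog cd0q0 cd4q1 pd1 1 true true false .pnn 0 1 1 (qsf 0 536870912 536870912 536870912 1) ndB0q0 ndB4q1 pcB1 cut_pm_011 Ext.none)

def k0_pm_011 : ∃ t, chk3 f_pm_011 t 1 2 1 = true :=
  ⟨(l 3), by decide +kernel⟩

def k1_pm_011 : ∃ t, chk3 f_pm_011 t 2 6 1 = true :=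
  ⟨(l 3), by decide +kernel⟩

def k2_pm_011 : ∃ t, chk3 f_pm_011 t 4 14 1 = true :=
  ⟨(l 3), by decide +kernel⟩

def k3_pm_011 : ∃ t, chk3 f_pm_011 t 8 15 1 = true :=
  ⟨(b (l 3) (a (b (l 3) (a (b (l 3) (l 6)) (b (a (l 3) (b (l 3) (b (l 3) (a (l 176261389255) (l 148880962295))))) (b (a (a (b (l 338933290231) (b (l 218674208183) (l 6))) (b (l 132774853863) (l 16762576))) (a (b (l 175724515815) (l 16736464)) (b (l 16753544) (l 16752104)))) (a (a (l 6) (b (l 16760056) (l 16732640))) (b (l 16732200) (l 16748712))))))) (b (a (l 3) (b (l 3) (b (l 3) (a (a (l 3) (l 129016709575)) (a (l 150491545431) (l 174113866791)))))) (b (a (a (b (a (l 3) (l 127406111383)) (a (b (l 161765856919) (l 16749768)) (l 177871973015))) (b (a (l 123111136359) (l 147807192455)) (a (l 16741792) (l 16738512)))) (a (b (a (l 172503250951) (l 16736928)) (l 16735344)) (b (a (l 16736960) (l 16738424)) (l 16732960)))) (a (b (a (b (l 16725176) (l 16723688)) (l 16737376)) (a (l 16721080) (l 16733880))) (a (b (l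 16732536) (l 16723256)) (l 16680800))))))), by decide +kernel⟩

def k4_pm_011 : ∃ t, chk3 f_pm_011 t 9 15 1 = true :=
  ⟨(b (a (l 3) (b (l 3) (b (l 3) (a (a (l 366313489223) (l 184314204599)) (a (l 203104647863) (l 16611000)))))) (a (b (a (b (a (l 3) (b (l 3) (a (l 3) (l 298667877703)))) (a (b (a (l 126869235959) (b (l 116668682823) (l 16732448))) (a (l 16728080) (l 16711416))) (b (a (b (l 151565263639) (l 16707832)) (l 193441151703)) (a (l 16697192) (l 16703824))))) (b (a (b (l 3) (a (l 148343993735) (l 16701920))) (b (l 423758711015) (l 16681112))) (a (b (a (l 16703592) (l 16689352)) (l 16682272)) (l 16619376)))) (a (a (b (b (l 16703280) (l 16688360)) (l 16667552)) (b (b (l 16674992) (l 16680936)) (l 16659952))) (b (a (l 16638496) (l 16631040)) (a (l 16630800) (l 16602120))))) (b (a (b (a (l 200420334215) (l 16635512)) (a (l 16634416) (l 16609576))) (b (l 16603984) (l 16577752))) (a (b (l 16591048) (l 16561800)) (b (l 16546840) (l 16517296)))))), by decide +kernel⟩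

def k5_pm_011 : ∃ t, chk3 f_pm_011 t 5 7 1 = true :=
  ⟨(b (b (l 3) (a (l 3) (b (a (l 3) (a (l 3) (l 328195189239))) (a (b (l 3) (a (l 351280757927) (l 322289683639))) (b (a (l 321215887367) (l 287392966727)) (a (l 16416672) (l 16384416))))))) (b (a (b (a (b (l 3) (l 362555149463)) (b (l 358796930967) (l 254107084007))) (a (b (a (l 16590880) (l 16555368)) (a (l 16583528) (l 16546760))) (b (l 16501472) (l 16491576)))) (b (a (b (a (l 16468432) (l 16434752)) (l 16440264)) (b (l 16384688) (l 16371744))) (a (b (l 16430136) (l 16418544)) (l 16354376)))) (a (b (a (b (l 16548008) (l 16521280)) (l 16439528)) (a (b (l 16490080) (l 16460224)) (l 16398728))) (b (a (l 16385712) (l 16311784)) (a (l 16322768) (l 16247536)))))), by decide +kernel⟩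

def k6_pm_011 : ∃ t, chk3 f_pm_011 t 3 3 1 = true :=
  ⟨(b (a (l 3) (b (l 1) (a (b (l 1) (a (b (l 1) (l 338395447863)) (l 1))) (l 1)))) (b (a (b (a (a (l 3) (b (l 3) (b (l 3) (l 320141967127)))) (a (b (l 322826289383) (a (l 251422434583) (l 16285568))) (b (l 227263205015) (l 16249264)))) (a (b (a (a (l 291687907655) (l 276118612951)) (a (l 265381135447) (l 16306200))) (a (b (l 16354368) (l 16336800)) (l 16283752))) (b (a (l 16265176) (l 16213056)) (a (l 16225560) (l 16170184))))) (b (a (a (b (l 16237664) (l 16203680)) (l 16180544)) (l 1)) (a (b (l 16140520) (l 16092752)) (l 249139807191)))) (a (b (a (b (a (l 16311824) (l 16247808)) (a (l 16284608) (l 16216752))) (b (l 16156136) (l 16119136))) (a (b (l 16182224) (l 16136776)) (b (l 16066288) (l 15996792)))) (b (a (b (l 16044728) (l 15999720)) (b (l 15947040) (l 15894184))) (a (b (l 15940800) (l 15868232)) (l 15791408)))))), by decide +kernel⟩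

theorem s7_pm_011 : ∃ t, chk3 f_pm_011 t 4 15 1 = true := ex3_a k3_pm_011 k4_pm_011

theorem s8_pm_011 : ∃ t, chk3 f_pm_011 t 4 7 1 = true := ex3_b k2_pm_011 s7_pm_011

theorem s9_pm_011 : ∃ t, chk3 f_pm_011 t 2 7 1 = true := ex3_a s8_pm_011 k5_pm_011

theorem s10_pm_011 : ∃ t, chk3 f_pm_011 t 2 3 1 = true := ex3_b k1_pm_011 s9_pm_011

theorem s11_pm_011 : ∃ t, chk3 f_pm_011 t 1 3 1 = true := ex3_a s10_pm_011 k6_pm_011

theorem s12_pm_011 : ∃ t, chk3 f_pm_011 t 1 1 1 = true := ex3_b k0_pm_011 s11_pm_011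

theorem c_pm_011 : CertB 0 536870912 536870912 536870912 1040187392 5207648 3 eng mog cd0q0 cd4q1 pd1 true true false .pnn 0 1 1
    ndB0q0 ndB4q1 pcB1 cut_pm_011 Ext.none :=
  certB1 (fam := true) (s1 := true) (s2 := false) (a := 0) (b := 1) (c := 1) (cn := .pnn) (n1 := ndB0q0) (n2 := ndB4q1) (pc := pcB1) (cut := cut_pm_011) (xt := Ext.none) (P1 := 0) (W1 := 536870912) (P2 := 536870912) (W2 := 536870912) (P3 := 1040187392) (W3 := 5207648) (N0 := 3) (En := eng) (mo := mog) (C1 := cd0q0) (C2 := cd4q1) (C3 := pd1)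
    rfl (fun _ => rfl) s12_pm_011

end Pool.Agent.Strip051.G.I9688_9736.Tab.C.BA04

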