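import Pool.Agent.Strip051.G.I9688_9736.StH
import Pool.Agent.Strip051.G.I9688_9736.StF

/-! # Unit strips 6 (generated) -/

set_option linter.all false
set_option maxRecDepth 100000

namespace Pool.Agent.Strip051.G.I9688_9736.Tab.St.C

open Pool.Agent.Strip051.PB Pool.Agent.Strip051.PB.T Pool.Agent.StripNear Pool.Agent.Strip051.LC
open Pool.Agent.Strip051.G.I9688_9736.Tab Pool.Agent.Strip051.G.I9688_9736.Tab.St

noncomputable def cut_B05pp_123_s1 : Cut := Cut.of [[⟨4, 0, 0, 1449551462⟩], [⟨0, 1, 0, 15728640⟩, ⟨1, 1, 0, 15728640⟩, ⟨2, 2, 0, 524288⟩]]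

noncomputable def xt_B05pp_123_s1 : Ext := strExt dd false true true .u0 .s2 .u2 .npn 1 2 3 rfl rfl gf2 vv ndB0q1 ndB5q3

noncomputable def f_B05pp_123_s1 : ℕ → ℕ → ℕ → ℕ → Bool := onCell 1073741824 536870912 0 1230186008 1040187392 5207648
    (rowF 2 false true true .npn 1 2 3 (qsf 536870912 536870912 0 1230186008 2) ndB0q1 ndB5q3 pcB2 cut_B05pp_123_s1 xt_B05pp_123_s1)

def k0_B05pp_123_s1 : ∃ t, chk3 f_B05pp_123_s1 t 32 16 1 = true :=
  ⟨(b (a (l 14) (a (l 14) (a (l 14) (b (l 16742824) (b (l 16719760) (b (a (b (l 16712672) (l 16717440)) (l 16709232)) (a (l 16734672) (l 16719200)))))))) (a (l 3) (b (a (a (l 3) (l 3)) (b (a (b (b (l 14) (l 513583903)) (l 513504287)) (b (a (b (a (l 14) (l 16748552)) (a (l 16743416) (b (a (l 16757648) (l 16754808)) (l 16760712)))) (b (l 16736656) (a (b (l 16749248) (a (l 16755984) (l 16753096))) (l 16744320)))) (a (l 512850319) (b (a (l 16750376) (b (l 16742344) (l 16756984)))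 (l 512486287))))) (a (l 3) (l 512477839)))) (l 3)))), by decide +kernel⟩

def k1_B05pp_123_s1 : ∃ t, chk3 f_B05pp_123_s1 t 33 32 1 = true :=
  ⟨(a (b (l 16736088) (a (b (l 16715424) (b (l 16703992) (a (a (b (l 16703224) (l 16709824)) (l 16699632)) (l 16695152)))) (l 16703000))) (b (b (l 16732248) (l 16723336)) (l 16699008))), by decide +kernel⟩

def k2_B05pp_123_s1 : ∃ t, chk3 f_B05pp_123_s1 t 66 33 1 = true :=
  ⟨(b (a (b (a (b (a (l 16727152) (l 16712064)) (a (b (a (b (l 16745272) (l 16751144)) (l 16740512)) (a (b (l 16755256) (l 16759984)) (b (l 16749376) (l 16753616)))) (b (l 16729160) (l 16699064)))) (b (a (b (l 16694392) (l 16702824)) (l 16690536)) (l 16712392))) (a (a (l 512103055) (b (b (a (b (l 16752016) (l 16756720)) (b (l 16745464) (l 16750448))) (a (l 16763040) (l 16757008))) (l 511894927))) (b (a (b (l 16736800) (a (b (l 16748872) (l 16753072)) (l 16734320))) (l 16727512)) (a (b (a (l 16759800)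 (b (l 16751360) (l 16756080))) (l 511793807)) (b (a (b (l 16745576) (l 16749736)) (l 16741088)) (a (l 16756576) (b (l 16748192) (l 16752880)))))))) (b (b (l 16684424) (a (a (l 16691160) (l 16682008)) (l 16676432))) (a (b (l 16705472) (a (b (l 16729544) (a (b (l 16741840) (l 16746688)) (l 16737016))) (l 16720488))) (b (a (l 16684080) (l 16674152)) (l 16698912))))) (a (a (a (l 3) (l 511619215)) (l 511513231)) (b (a (b (a (b (a (l 16753248) (b (l 16745192) (l 16749368))) (l 16737912)) (b (a (l 16741256) (l 16733496)) (a (l 16749680) (b (l 16742080) (l 16746184))))) (l 511717007)) (a (b (l 16728720) (b (a (b (l 16744744) (l 16749328)) (l 16730704)) (l 16752448))) (b (l 16713864) (b (l 16730336) (a (b (l 16741984) (l 16746048)) (l 16738176)))))) (a (l 511559567) (b (a (l 511922831) (b (a (l 16752512) (l 16746424)) (l 16757848))) (l 511945615)))))), by decide +kernel⟩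

def k3_B05pp_123_s1 : ∃ t, chk3 f_B05pp_123_s1 t 67 33 1 = true :=
  ⟨(b (a (b (l 16677256) (a (b (l 16668000) (a (l 16677736) (l 16667064))) (l 16663592))) (l 16669072)) (a (b (a (l 16619864) (b (l 16666928) (l 16687328))) (a (b (a (b (a (l 16730608) (l 16734904)) (a (l 16749656) (l 16743608))) (b (l 16724056) (a (l 16738504) (l 16731432)))) (a (l 512476303) (b (a (l 16746728) (l 16741152)) (l 16752160)))) (b (l 16708968) (a (b (l 16732544) (a (l 16743840) (l 16738888))) (l 16724136))))) (b (a (b (l 16653544) (l 16661640)) (l 16650384)) (a (l 16693224) (l 16625760))))), by decide +kernel⟩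

def k4_B05pp_123_s1 : ∃ t, chk3 f_B05pp_123_s1 t 16 17 1 = true :=
  ⟨(a (l 3) (b (a (a (l 3) (b (a (l 3) (l 511703439)) (l 3))) (b (a (b (a (l 512534159) (b (a (l 16711424) (b (a (l 16741480) (l 16736672)) (l 16746864))) (l 513523855))) (l 512801423)) (b (a (b (a (b (l 16726528) (a (l 16739488) (l 16734320))) (l 16718800)) (a (b (a (l 16747408) (l 16742184)) (l 16752248)) (b (a (l 16737688) (l 16731672)) (a (l 16745440) (l 16740408))))) (b (l 16699744) (a (l 16707024) (l 16714680)))) (a (l 514739855) (b (a (b (a (l 16743320) (l 16738984)) (l 16748360)) (b (l 16730928) (a (l 16741736) (l 16737720)))) (a (l 16737272) (l 16749808)))))) (a (l 3) (b (l 515363215) (l 515236239))))) (l 3))), by decide +kernel⟩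

def k5_B05pp_123_s1 : ∃ t, chk3 f_B05pp_123_s1 t 16 9 1 = true :=
  ⟨(l 3), by decide +kernel⟩

def k6_B05pp_123_s1 : ∃ t, chk3 f_B05pp_123_s1 t 17 16 1 = true :=
  ⟨(a (b (a (b (l 16713104) (l 16703688)) (b (l 16698768) (l 16704960))) (a (b (l 16673248) (a (b (l 16649992) (a (b (l 16642968) (l 16654096)) (l 16641248))) (l 16648152))) (l 16670104))) (b (l 16586952) (a (l 16597136) (b (l 16684696) (l 16671376))))), by decide +kernel⟩

def k7_B05pp_123_s1 : ∃ t, chk3 f_B05pp_123_s1 t 34 17 1 = true :=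
  ⟨(b (a (b (b (a (a (l 16685904) (l 16662392)) (a (b (l 16636496) (l 16650632)) (l 16634848))) (a (a (b (l 16717512) (a (b (a (l 16740664) (l 16736432)) (l 16745216)) (b (l 16727200) (a (l 16739888) (l 16734920))))) (l 16704456)) (l 16670512))) (a (b (a (b (a (l 16754728) (b (l 16744192) (l 16750704))) (l 518198815)) (b (a (b (l 16736576) (a (l 16745792) (l 16742352))) (l 16730280)) (a (l 16752608) (b (a (l 16745128) (l 16741856)) (l 16749440))))) (a (l 518118431) (l 520313231))) (b (a (b (l 16712560) (a (b (l 16733656) (a (l 16744744) (l 16741080))) (l 16727240))) (l 16700112)) (b (a (a (l 16750736) (b (l 16742112) (l 16748032))) (a (l 16736520) (l 16724680))) (a (l 522239375) (a (b (l 16747664) (l 16752840)) (b (l 16739968) (l 16747336)))))))) (b (a (b (l 16633896) (a (l 16639912) (l 16629064))) (l 16633216)) (a (b (l 16666872) (l 16622712)) (b (a (l 16635640) (l 16623320)) (l 16662712))))) (a (b (a (a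 (l 3) (l 520075407)) (b (a (l 522145935) (b (l 16735784) (l 523925903))) (l 522950431))) (l 3)) (b (a (b (a (b (a (b (l 16746928) (l 16752064)) (l 16699960)) (a (l 16757808) (l 16753216))) (b (l 16724880) (a (b (l 16745272) (l 16751440)) (l 16738976)))) (a (l 525469327) (b (a (l 16757304) (b (l 16751096) (l 16755616))) (l 16761624)))) (b (l 16701264) (a (b (a (l 16746480) (l 16735512)) (a (l 16756440) (l 16730800))) (l 16644840)))) (a (l 526057247) (b (a (l 528058511) (b (a (l 16755704) (l 16750136)) (l 16760232))) (l 528522383)))))), by decide +kernel⟩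

def k8_B05pp_123_s1 : ∃ t, chk3 f_B05pp_123_s1 t 35 17 1 = true :=
  ⟨(b (a (b (l 16639712) (a (b (l 16619288) (l 16541800)) (l 16617120))) (l 16632056)) (a (b (a (l 16592384) (b (l 16618840) (l 16651008))) (a (b (a (b (l 16733952) (a (l 16754680) (l 16747072))) (l 16720728)) (a (b (a (l 16761488) (l 16758000)) (l 16764344)) (b (l 16705824) (a (l 16760760) (l 16756552))))) (b (l 16687176) (l 16639832)))) (b (a (b (l 16601296) (l 16610376)) (l 16595920)) (a (l 16659912) (l 16616496))))), by decide +kernel⟩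

def k9_B05pp_123_s1 : ∃ t, chk3 f_B05pp_123_s1 t 17 9 1 = true :=
  ⟨(b (a (a (l 3) (b (a (l 3) (b (l 528370319) (l 3))) (l 3))) (b (a (a (l 528413471) (b (b (a (b (a (l 16759272) (l 16754000)) (l 16762512)) (b (l 16737936) (l 16711000))) (a (l 16767672) (b (l 16760368) (l 16764720)))) (l 530831391))) (b (a (b (l 16711864) (a (b (l 16664840) (l 16715760)) (l 16734824))) (l 16683016)) (a (b (a (l 16764520) (b (l 16670640) (l 16760800))) (l 530889615)) (b (a (l 16712360) (l 16721720)) (a (l 16717568) (b (l 16746200) (l 16755256))))))) (a (a (l 3) (b (l 530634015) (l 3))) (l 529211679)))) (l 3)), by decide +kernel⟩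

def k10_B05pp_123_s1 : ∃ t, chk3 f_B05pp_123_s1 t 8 5 1 = true :=
  ⟨(l 3), by decide +kernel⟩

def k11_B05pp_123_s1 : ∃ t, chk3 f_B05pp_123_s1 t 9 4 1 = true :=
  ⟨(b (a (b (b (l 16491304) (a (b (l 16644424) (l 16657688)) (l 16589528))) (b (a (l 16635096) (l 16535840)) (a (a (b (l 16594432) (a (l 16587528) (l 16572912))) (l 16583024)) (l 16583808)))) (b (l 16429744) (b (a (l 16575752) (l 16508048)) (a (l 16582712) (l 16558304))))) (a (b (a (b (a (b (a (l 16638608) (l 16596144)) (a (l 16620944) (l 16660152))) (b (a (l 16566688) (l 16551392)) (l 16512664))) (a (b (a (b (a (b (l 16752048) (l 16758336)) (l 16657240)) (a (l 16763384) (l 16757016))) (a (b (l 16719144) (l 16705152)) (l 16712920))) (a (l 530867855) (b (a (l 16759752) (l 16709200)) (l 16763216)))) (b (l 16574856) (a (b (l 16643024) (a (l 16754064) (l 16659552))) (l 16698048))))) (b (a (b (l 16548728) (l 16542992)) (l 16539336)) (a (b (l 16576656)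 (l 16635560)) (b (l 16524576) (l 16557584))))) (a (b (a (l 530733455) (b (a (b (l 16758616) (l 16765136)) (b (a (l 16663736) (l 16732056)) (a (l 16758080) (l 16750584)))) (l 530821263))) (a (l 3) (l 530649487))) (b (a (b (a (l 16630960) (l 16672408)) (a (b (a (l 16752840) (l 16743096)) (l 16756928)) (b (l 16714320) (a (l 16746336) (l 16731728))))) (l 16555672)) (a (b (a (l 530816143) (b (l 16708968) (l 16758800))) (l 530734735)) (b (a (b (l 16643464) (l 16702240)) (l 16699400)) (a (l 16672592) (b (l 16651536) (l 16663952)))))))) (b (a (b (l 16540584) (a (l 16512288) (l 16504128))) (l 16521888)) (a (b (a (l 16563136) (l 16424912)) (a (a (l 16602088) (l 16646216)) (l 16590432))) (b (a (l 16481480) (l 16477648)) (a (l 16521672) (l 16476992))))))), by decide +kernel⟩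

def k12_B05pp_123_s1 : ∃ t, chk3 f_B05pp_123_s1 t 9 5 1 = true :=
  ⟨(a (b (a (l 3) (b (b (l 530651167) (l 530423583)) (l 3))) (l 3)) (b (b (a (b (a (b (a (b (l 16656512) (l 16750304)) (l 16635280)) (a (l 16758832) (b (l 16659608) (l 16752208)))) (a (b (l 16680256) (b (l 16715280) (l 16650696))) (l 16665248))) (a (l 530612879) (b (a (l 16663736) (b (l 16721496) (l 16653360))) (a (l 16759216) (l 16748576))))) (a (b (l 16610392) (a (b (l 16693712) (a (l 16654400) (l 16725848))) (l 16677368))) (b (l 16541728) (l 16623392)))) (a (b (l 530467615) (l 529928847)) (a (b (a (b (l 16748968) (l 16758512)) (b (l 16690256) (l 16748832))) (l 530412175)) (b (a (b (l 16700424) (l 16648576)) (l 16682752)) (a (b (l 16748272) (l 16756720)) (b (l 16647952) (l 16747104))))))) (a (l 3) (b (b (l 530266399) (a (l 3) (l 530073743))) (b (a (l 3) (l 529847183)) (l 3)))))), by decide +kernel⟩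

def k13_B05pp_123_s1 : ∃ t, chk3 f_B05pp_123_s1 t 5 2 1 = true :=
  ⟨(b (b (a (b (l 15962376) (a (a (l 16464312) (l 16383728)) (l 16245200))) (l 6)) (a (a (b (a (l 16519624) (a (l 16508072) (a (l 16499944) (l 16406968)))) (a (a (l 16469760) (l 16471640)) (a (l 16475600) (l 16483976)))) (b (l 16343328) (l 16462448))) (b (a (l 16289776) (l 6)) (a (l 16409328) (l 16324712))))) (a (a (a (b (b (b (a (l 16483632) (l 16453800)) (a (l 16555744) (l 16493640))) (a (b (l 16629496) (a (b (l 16700520) (l 16646376)) (l 16681424))) (l 16469744))) (b (a (b (a (b (l 16745416) (l 16753832)) (b (l 16643664) (l 16743152))) (l 530173327)) (b (a (l 16625128) (l 16672976)) (a (b (l 16740128) (l 16749824)) (b (l 16716776) (l 16651952))))) (a (b (l 529944463) (a (l 3) (l 529767567))) (b (a (l 530047375) (l 16707864)) (l 529784207))))) (b (b (a (b (l 16452888) (l 16457504)) (a (l 16457592) (l 16470136))) (b (a (l 16499728) (a (l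 16465520) (a (l 16461696) (l 16468808)))) (a (l 16560904) (a (l 16512944) (a (l 16489072) (l 16480416)))))) (a (b (a (l 16581432) (l 16545152)) (a (b (b (l 16645264) (l 16742272)) (l 16753224)) (b (l 16621880) (b (l 16692808) (l 16745400))))) (a (b (l 16591752) (b (l 16664336) (a (l 16636440) (l 16698032)))) (b (a (l 16477680) (b (l 16520768) (l 16565432))) (a (a (l 16659024) (l 16561000)) (a (b (l 16609456) (l 16607144)) (l 16536488)))))))) (b (b (l 16447400) (l 16355176)) (b (a (l 16508040) (l 16455256)) (b (l 16546952) (l 16504136))))) (b (b (l 16374712) (l 16353688)) (b (a (l 16304760) (l 16314120)) (a (l 16465072) (l 16365552)))))), by decide +kernel⟩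

def k14_B05pp_123_s1 : ∃ t, chk3 f_B05pp_123_s1 t 3 2 1 = true :=
  ⟨(a (b (l 6) (a (b (b (l 6) (l 16268896)) (b (l 16240480) (l 16246896))) (l 6))) (l 6)), by decide +kernel⟩

def k15_B05pp_123_s1 : ∃ t, chk3 f_B05pp_123_s1 t 4 6 1 = true :=
  ⟨(l 3), by decide +kernel⟩

def k16_B05pp_123_s1 : ∃ t, chk3 f_B05pp_123_s1 t 10 6 1 = true :=
  ⟨(a (a (a (l 3) (b (b (b (l 529547919) (a (l 3) (l 529385871))) (l 3)) (l 3))) (a (b (b (b (a (l 529660303) (l 16712936)) (a (l 529418895) (l 529428367))) (b (a (l 529173135) (l 529178767)) (a (l 3) (l 528654479)))) (l 3)) (b (b (a (b (a (l 16725200) (b (l 16728552) (l 16742248))) (a (l 16757576) (l 16668624))) (b (a (l 16709648) (b (l 16591600) (l 16693136))) (b (a (a (l 16743440) (l 16729616)) (l 16668040)) (a (a (l 16751536) (l 16702192)) (l 16704992))))) (b (a (a (l 529264783) (l 16719448)) (a (a (l 16757904) (b (l 16752584) (l 16757552))) (a (a (b (a (l 16748064)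 (l 16739896)) (a (l 16755856) (a (l 16754048) (b (l 16747824) (l 16754144))))) (l 16741120)) (l 16738976)))) (a (a (l 528741519) (l 529053839)) (b (a (l 16762328) (a (a (a (l 16759680) (a (l 16759248) (b (l 16757832) (l 16759816)))) (l 16757928)) (l 16756072))) (l 16763304))))) (a (b (l 528647759) (l 3)) (b (b (b (l 16745344) (a (l 528744015) (l 16766608))) (a (l 528539215) (b (l 16768976) (a (l 16761744) (l 16769776))))) (a (b (l 528256847) (l 527962447)) (a (a (b (l 528267311) (l 527972143)) (b (b (a (l 16768376) (l 16773000)) (b (l 16774368) (l 16774936))) (b (b (l 16770176) (b (l 16775720) (l 16775888))) (b (a (b (l 16776344) (l 16776464)) (l 16775768)) (a (a (l 527861039) (a (l 527861807) (l 16773728))) (l 16775952)))))) (b (l 528277855) (l 527981919))))))))) (b (b (a (b (l 16650200) (l 16684272)) (l 16535568)) (a (b (l 16630952) (b (l 16691880) (l 16739840))) (b (l 16669008) (l 16695608)))) (b (b (a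 (b (l 16658832) (l 16661304)) (l 16706432)) (l 528701279)) (l 528255839)))), by decide +kernel⟩

def k17_B05pp_123_s1 : ∃ t, chk3 f_B05pp_123_s1 t 11 6 1 = true :=
  ⟨(b (b (a (l 16548304) (l 16453744)) (a (l 16532704) (l 16526688))) (a (b (a (l 16669968) (l 16631400)) (l 528465247)) (b (l 16571872) (l 16574560)))), by decide +kernel⟩

def k18_B05pp_123_s1 : ∃ t, chk3 f_B05pp_123_s1 t 3 6 1 = true :=
  ⟨(a (b (a (b (l 16315920) (l 16394064)) (b (l 16148232) (l 16217608))) (a (b (l 16279688) (l 60698943463)) (b (l 16271840) (l 1)))) (l 6)), by decide +kernel⟩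

def k19_B05pp_123_s1 : ∃ t, chk3 f_B05pp_123_s1 t 1 7 1 = true :=
  ⟨(a (a (b (l 3) (l 3)) (b (a (a (a (l 3) (a (l 3) (a (b (l 3) (l 526789695)) (b (b (a (l 3) (a (a (l 527663407) (b (b (a (a (l 527783983) (b (l 16776496) (l 16776512))) (l 16776024)) (a (a (l 527705903) (b (l 16776496) (l 16776456))) (l 527708255))) (b (a (a (l 527626799) (a (l 527627567) (l 16773632))) (l 16770600)) (b (l 16775992) (l 16775840))))) (l 527672415))) (a (l 527331135) (a (a (l 527339311) (b (b (b (l 16775656) (l 16775440)) (l 16769808)) (b (l 16774440) (l 16773696)))) (l 527347551)))) (b (a (l 526990911) (b (b (a (l 16763008) (l 16770816)) (l 16750176)) (b (l 16770000) (l 16768712)))) (a (l 526632511) (b (l 16755976) (l 1)))))))) (b (l 527614303) (l 526905439))) (b (a (l 527789151) (l 16478888)) (l 1))) (a (a (b (a (l 3) (l 1)) (l 1)) (l 1)) (l 1)))) (l 1)), by decide +kernel⟩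

theorem t20_B05pp_123_s1 : ∃ t, chk3 f_B05pp_123_s1 t 5 6 1 = true := ex3_a k16_B05pp_123_s1 k17_B05pp_123_s1

theorem t21_B05pp_123_s1 : ∃ t, chk3 f_B05pp_123_s1 t 2 6 1 = true := ex3_a k15_B05pp_123_s1 t20_B05pp_123_s1

theorem t22_B05pp_123_s1 : ∃ t, chk3 f_B05pp_123_s1 t 1 6 1 = true := ex3_a t21_B05pp_123_s1 k18_B05pp_123_s1

theorem t23_B05pp_123_s1 : ∃ t, chk3 f_B05pp_123_s1 t 1 3 1 = true := ex3_b t22_B05pp_123_s1 k19_B05pp_123_s1

theorem t24_B05pp_123_s1 : ∃ t, chk3 f_B05pp_123_s1 t 9 2 1 = true := ex3_b k11_B05pp_123_s1 k12_B05pp_123_s1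

theorem t25_B05pp_123_s1 : ∃ t, chk3 f_B05pp_123_s1 t 17 17 1 = true := ex3_a k7_B05pp_123_s1 k8_B05pp_123_s1

theorem t26_B05pp_123_s1 : ∃ t, chk3 f_B05pp_123_s1 t 17 8 1 = true := ex3_b k6_B05pp_123_s1 t25_B05pp_123_s1

theorem t27_B05pp_123_s1 : ∃ t, chk3 f_B05pp_123_s1 t 17 4 1 = true := ex3_b t26_B05pp_123_s1 k9_B05pp_123_s1

theorem t28_B05pp_123_s1 : ∃ t, chk3 f_B05pp_123_s1 t 33 33 1 = true := ex3_a k2_B05pp_123_s1 k3_B05pp_123_s1

theorem t29_B05pp_123_s1 : ∃ t, chk3 f_B05pp_123_s1 t 33 16 1 = true := ex3_b k1_B05pp_123_s1 t28_B05pp_123_s1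

theorem t30_B05pp_123_s1 : ∃ t, chk3 f_B05pp_123_s1 t 16 16 1 = true := ex3_a k0_B05pp_123_s1 t29_B05pp_123_s1

theorem t31_B05pp_123_s1 : ∃ t, chk3 f_B05pp_123_s1 t 16 8 1 = true := ex3_b t30_B05pp_123_s1 k4_B05pp_123_s1

theorem t32_B05pp_123_s1 : ∃ t, chk3 f_B05pp_123_s1 t 16 4 1 = true := ex3_b t31_B05pp_123_s1 k5_B05pp_123_s1

theorem t33_B05pp_123_s1 : ∃ t, chk3 f_B05pp_123_s1 t 8 4 1 = true := ex3_a t32_B05pp_123_s1 t27_B05pp_123_s1

theorem t34_B05pp_123_s1 : ∃ t, chk3 f_B05pp_123_s1 t 8 2 1 = true := ex3_b t33_B05pp_123_s1 k10_B05pp_123_s1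

theorem t35_B05pp_123_s1 : ∃ t, chk3 f_B05pp_123_s1 t 4 2 1 = true := ex3_a t34_B05pp_123_s1 t24_B05pp_123_s1

theorem t36_B05pp_123_s1 : ∃ t, chk3 f_B05pp_123_s1 t 2 2 1 = true := ex3_a t35_B05pp_123_s1 k13_B05pp_123_s1

theorem t37_B05pp_123_s1 : ∃ t, chk3 f_B05pp_123_s1 t 1 2 1 = true := ex3_a t36_B05pp_123_s1 k14_B05pp_123_s1

theorem t38_B05pp_123_s1 : ∃ t, chk3 f_B05pp_123_s1 t 1 1 1 = true := ex3_b t37_B05pp_123_s1 t23_B05pp_123_s1

theorem c_B05pp_123_s1 : CertF 536870912 536870912 0 1230186008 1040187392 5207648 false true true .npn 1 2 3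
    ndB0q1 ndB5q3 pcB2 cut_B05pp_123_s1 xt_B05pp_123_s1 :=
  certF2 (fam := false) (s1 := true) (s2 := true) (a := 1) (b := 2) (c := 3) (cn := .npn) (n1 := ndB0q1) (n2 := ndB5q3) (pc := pcB2) (cut := cut_B05pp_123_s1) (xt := xt_B05pp_123_s1) (P1 := 536870912) (W1 := 536870912) (P2 := 0) (W2 := 1230186008) (P3 := 1040187392) (W3 := 5207648)
    rfl (fun _ => rfl) t38_B05pp_123_s1

theorem s_B05pp_123_s1 {κ x : ℝ} (hκ : κ * h0 = ken x) (hx : ((1040187392 : ℕ) : ℝ) / S ≤ x)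
    (hx' : x ≤ (((1040187392 : ℕ) : ℝ) + (5207648 : ℕ)) / S)
    (H : CutB (VFD κ) PP tK tL pcB (Cut.of [[⟨0, 1, 0, 15728640⟩, ⟨1, 1, 0, 15728640⟩, ⟨2, 2, 0, 524288⟩]]) 1 2 3 0 5 (sgb true) (sgb true) x) :
    AltB (VFD κ) PP tK tL pcB [⟨3, 0, 0, 1449551462⟩] 1 2 3 0 5 (sgb true) (sgb true) x :=
  strip_altBD (m := 1449551462) true rfl hκ (SH.κ0 hκ (SH.hx1 hx).le (SH.hx2 hx').le) (SH.hx1 hx).le (SH.hx2 hx') (covB01).cov (covB53).cov hx hx' c_B05pp_123_s1 H ((okx hx hx').extB (T := tt) (sideB hx hx') hκ rfl rfl (.O 1 true) (.N 3 true) rfl)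

noncomputable def cut_B05pp_133_s1 : Cut := Cut.of [[⟨4, 0, 0, 1449551462⟩]]

noncomputable def f_B05pp_133_s1 : ℕ → ℕ → ℕ → ℕ → Bool := onCell 1610612736 536870912 0 1230186008 1040187392 5207648
    (rowF 2 false true true .dn 1 3 3 (qsf 536870912 536870912 0 1230186008 3) ndB0q1 ndB5q3 pcB3 cut_B05pp_133_s1 Ext.none)

def k0_B05pp_133_s1 : ∃ t, chk3 f_B05pp_133_s1 t 1 1 1 = true :=
  ⟨(b (l 6) (l 1)), by decide +kernel⟩

theorem c_B05pp_133_s1 : CertF 536870912 536870912 0 1230186008 1040187392 5207648 false true true .dn 1 3 3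
    ndB0q1 ndB5q3 pcB3 cut_B05pp_133_s1 Ext.none :=
  certF2 (fam := false) (s1 := true) (s2 := true) (a := 1) (b := 3) (c := 3) (cn := .dn) (n1 := ndB0q1) (n2 := ndB5q3) (pc := pcB3) (cut := cut_B05pp_133_s1) (xt := Ext.none) (P1 := 536870912) (W1 := 536870912) (P2 := 0) (W2 := 1230186008) (P3 := 1040187392) (W3 := 5207648)
    rfl (fun _ => rfl) k0_B05pp_133_s1

theorem s_B05pp_133_s1 {κ x : ℝ} (hκ : κ * h0 = ken x) (hx : ((1040187392 : ℕ) : ℝ) / S ≤ x)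
    (hx' : x ≤ (((1040187392 : ℕ) : ℝ) + (5207648 : ℕ)) / S) :
    AltB (VFD κ) PP tK tL pcB [⟨3, 0, 0, 1449551462⟩] 1 3 3 0 5 (sgb true) (sgb true) x :=
  strip_altBD (m := 1449551462) true rfl hκ (SH.κ0 hκ (SH.hx1 hx).le (SH.hx2 hx').le) (SH.hx1 hx).le (SH.hx2 hx') (covB01).cov (covB53).cov hx hx' c_B05pp_133_s1 cutB_nil (noExt_B)

noncomputable def cut_B05pp_202_s1 : Cut := Cut.of [[⟨4, 0, 0, 1449551462⟩]]

noncomputable def f_B05pp_202_s1 : ℕ → ℕ → ℕ → ℕ → Bool := onCell 0 536870912 1073741824 536870912 1040187392 5207648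
    (rowF 0 false true true .pp 2 0 2 (qsf 0 536870912 1073741824 536870912 0) ndB0q2 ndB5q2 pcB0 cut_B05pp_202_s1 Ext.none)

def k0_B05pp_202_s1 : ∃ t, chk3 f_B05pp_202_s1 t 1 1 1 = true :=
  ⟨(l 5), by decide +kernel⟩

theorem c_B05pp_202_s1 : CertF 0 536870912 1073741824 536870912 1040187392 5207648 false true true .pp 2 0 2
    ndB0q2 ndB5q2 pcB0 cut_B05pp_202_s1 Ext.none :=
  certF0 (fam := false) (s1 := true) (s2 := true) (a := 2) (b := 0) (c := 2) (cn := .pp) (n1 := ndB0q2) (n2 := ndB5q2) (pc := pcB0) (cut := cut_B05pp_202_s1) (xt := Ext.none) (P1 := 0) (W1 := 536870912) (P2 := 1073741824) (W2 := 536870912) (P3 := 1040187392) (W3 := 5207648)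
    rfl k0_B05pp_202_s1

theorem s_B05pp_202_s1 {κ x : ℝ} (hκ : κ * h0 = ken x) (hx : ((1040187392 : ℕ) : ℝ) / S ≤ x)
    (hx' : x ≤ (((1040187392 : ℕ) : ℝ) + (5207648 : ℕ)) / S) :
    AltB (VFD κ) PP tK tL pcB [⟨3, 0, 0, 1449551462⟩] 2 0 2 0 5 (sgb true) (sgb true) x :=
  strip_altBD (m := 1449551462) true rfl hκ (SH.κ0 hκ (SH.hx1 hx).le (SH.hx2 hx').le) (SH.hx1 hx).le (SH.hx2 hx') (covB02).cov (covB52).cov hx hx' c_B05pp_202_s1 cutB_nil (noExt_B)

noncomputable def cut_B05pp_203_s1 : Cut := Cut.of [[⟨4, 0, 0, 1449551462⟩]]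

noncomputable def f_B05pp_203_s1 : ℕ → ℕ → ℕ → ℕ → Bool := onCell 0 536870912 0 1230186008 1040187392 5207648
    (rowF 0 false true true .up 2 0 3 (qsf 0 536870912 0 1230186008 0) ndB0q2 ndB5q3 pcB0 cut_B05pp_203_s1 Ext.none)

def k0_B05pp_203_s1 : ∃ t, chk3 f_B05pp_203_s1 t 1 1 1 = true :=
  ⟨(b (l 2) (a (l 5) (b (l 2) (l 3)))), by decide +kernel⟩

theorem c_B05pp_203_s1 : CertF 0 536870912 0 1230186008 1040187392 5207648 false true true .up 2 0 3
    ndB0q2 ndB5q3 pcB0 cut_B05pp_203_s1 Ext.none :=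
  certF0 (fam := false) (s1 := true) (s2 := true) (a := 2) (b := 0) (c := 3) (cn := .up) (n1 := ndB0q2) (n2 := ndB5q3) (pc := pcB0) (cut := cut_B05pp_203_s1) (xt := Ext.none) (P1 := 0) (W1 := 536870912) (P2 := 0) (W2 := 1230186008) (P3 := 1040187392) (W3 := 5207648)
    rfl k0_B05pp_203_s1

theorem s_B05pp_203_s1 {κ x : ℝ} (hκ : κ * h0 = ken x) (hx : ((1040187392 : ℕ) : ℝ) / S ≤ x)
    (hx' : x ≤ (((1040187392 : ℕ) : ℝ) + (5207648 : ℕ)) / S) :
    AltB (VFD κ) PP tK tL pcB [⟨3, 0, 0, 1449551462⟩] 2 0 3 0 5 (sgb true) (sgb true) x :=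
  strip_altBD (m := 1449551462) true rfl hκ (SH.κ0 hκ (SH.hx1 hx).le (SH.hx2 hx').le) (SH.hx1 hx).le (SH.hx2 hx') (covB02).cov (covB53).cov hx hx' c_B05pp_203_s1 cutB_nil (noExt_B)

noncomputable def cut_B05pp_213_s1 : Cut := Cut.of [[⟨4, 0, 0, 1449551462⟩], [⟨0, 1, 0, 15728640⟩, ⟨1, 1, 0, 15728640⟩, ⟨2, 2, 0, 524288⟩]]

noncomputable def f_B05pp_213_s1 : ℕ → ℕ → ℕ → ℕ → Bool := onCell 0 536870912 0 1230186008 1040187392 5207648
    (rowF 0 false true true .pnn 2 1 3 (qsf 0 536870912 0 1230186008 1) ndB0q2 ndB5q3 pcB1 cut_B05pp_213_s1 Ext.none)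

def k0_B05pp_213_s1 : ∃ t, chk3 f_B05pp_213_s1 t 1 1 1 = true :=
  ⟨(a (b (l 3) (l 5)) (b (b (a (l 3) (a (l 3) (b (a (l 3) (b (b (a (l 3) (b (l 14) (l 3))) (l 3)) (l 3))) (l 3)))) (l 3)) (b (l 3) (l 3)))), by decide +kernel⟩

theorem c_B05pp_213_s1 : CertF 0 536870912 0 1230186008 1040187392 5207648 false true true .pnn 2 1 3
    ndB0q2 ndB5q3 pcB1 cut_B05pp_213_s1 Ext.none :=
  certF0 (fam := false) (s1 := true) (s2 := true) (a := 2) (b := 1) (c := 3) (cn := .pnn) (n1 := ndB0q2) (n2 := ndB5q3) (pc := pcB1) (cut := cut_B05pp_213_s1) (xt := Ext.none) (P1 := 0) (W1 := 536870912) (P2 := 0) (W2 := 1230186008) (P3 := 1040187392) (W3 := 5207648)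
    rfl k0_B05pp_213_s1

theorem s_B05pp_213_s1 {κ x : ℝ} (hκ : κ * h0 = ken x) (hx : ((1040187392 : ℕ) : ℝ) / S ≤ x)
    (hx' : x ≤ (((1040187392 : ℕ) : ℝ) + (5207648 : ℕ)) / S)
    (H : CutB (VFD κ) PP tK tL pcB (Cut.of [[⟨0, 1, 0, 15728640⟩, ⟨1, 1, 0, 15728640⟩, ⟨2, 2, 0, 524288⟩]]) 2 1 3 0 5 (sgb true) (sgb true) x) :
    AltB (VFD κ) PP tK tL pcB [⟨3, 0, 0, 1449551462⟩] 2 1 3 0 5 (sgb true) (sgb true) x :=
  strip_altBD (m := 1449551462) true rfl hκ (SH.κ0 hκ (SH.hx1 hx).le (SH.hx2 hx').le) (SH.hx1 hx).le (SH.hx2 hx') (covB02).cov (covB53).cov hx hx' c_B05pp_213_s1 H (noExt_B)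

noncomputable def cut_B05pm_001_s1 : Cut := Cut.of [[⟨4, 0, 0, 1449551462⟩]]

noncomputable def f_B05pm_001_s1 : ℕ → ℕ → ℕ → ℕ → Bool := onCell 0 536870912 536870912 536870912 1040187392 5207648
    (rowF 0 false true false .up 0 0 1 (qsf 0 536870912 536870912 536870912 0) ndB0q0 ndB5q1 pcB0 cut_B05pm_001_s1 Ext.none)

def k0_B05pm_001_s1 : ∃ t, chk3 f_B05pm_001_s1 t 1 1 1 = true :=
  ⟨(l 4), by decide +kernel⟩

theorem c_B05pm_001_s1 : CertF 0 536870912 536870912 536870912 1040187392 5207648 false true false .up 0 0 1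
    ndB0q0 ndB5q1 pcB0 cut_B05pm_001_s1 Ext.none :=
  certF0 (fam := false) (s1 := true) (s2 := false) (a := 0) (b := 0) (c := 1) (cn := .up) (n1 := ndB0q0) (n2 := ndB5q1) (pc := pcB0) (cut := cut_B05pm_001_s1) (xt := Ext.none) (P1 := 0) (W1 := 536870912) (P2 := 536870912) (W2 := 536870912) (P3 := 1040187392) (W3 := 5207648)
    rfl k0_B05pm_001_s1

theorem s_B05pm_001_s1 {κ x : ℝ} (hκ : κ * h0 = ken x) (hx : ((1040187392 : ℕ) : ℝ) / S ≤ x)
    (hx' : x ≤ (((1040187392 : ℕ) : ℝ) + (5207648 : ℕ)) / S) :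
    AltB (VFD κ) PP tK tL pcB [⟨3, 0, 0, 1449551462⟩] 0 0 1 0 5 (sgb true) (sgb false) x :=
  strip_altBD (m := 1449551462) true rfl hκ (SH.κ0 hκ (SH.hx1 hx).le (SH.hx2 hx').le) (SH.hx1 hx).le (SH.hx2 hx') (covB00).cov (covB51).cov hx hx' c_B05pm_001_s1 cutB_nil (noExt_B)

noncomputable def cut_B05pm_011_s1 : Cut := Cut.of [[⟨4, 0, 0, 1449551462⟩]]

noncomputable def f_B05pm_011_s1 : ℕ → ℕ → ℕ → ℕ → Bool := onCell 0 536870912 536870912 536870912 1040187392 5207648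
    (rowF 0 false true false .pnn 0 1 1 (qsf 0 536870912 536870912 536870912 1) ndB0q0 ndB5q1 pcB1 cut_B05pm_011_s1 Ext.none)

def k0_B05pm_011_s1 : ∃ t, chk3 f_B05pm_011_s1 t 1 1 1 = true :=
  ⟨(l 4), by decide +kernel⟩

theorem c_B05pm_011_s1 : CertF 0 536870912 536870912 536870912 1040187392 5207648 false true false .pnn 0 1 1
    ndB0q0 ndB5q1 pcB1 cut_B05pm_011_s1 Ext.none :=
  certF0 (fam := false) (s1 := true) (s2 := false) (a := 0) (b := 1) (c := 1) (cn := .pnn) (n1 := ndB0q0) (n2 := ndB5q1) (pc := pcB1) (cut := cut_B05pm_011_s1) (xt := Ext.none) (P1 := 0) (W1 := 536870912) (P2 := 536870912) (W2 := 536870912) (P3 := 1040187392) (W3 := 5207648)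
    rfl k0_B05pm_011_s1

theorem s_B05pm_011_s1 {κ x : ℝ} (hκ : κ * h0 = ken x) (hx : ((1040187392 : ℕ) : ℝ) / S ≤ x)
    (hx' : x ≤ (((1040187392 : ℕ) : ℝ) + (5207648 : ℕ)) / S) :
    AltB (VFD κ) PP tK tL pcB [⟨3, 0, 0, 1449551462⟩] 0 1 1 0 5 (sgb true) (sgb false) x :=
  strip_altBD (m := 1449551462) true rfl hκ (SH.κ0 hκ (SH.hx1 hx).le (SH.hx2 hx').le) (SH.hx1 hx).le (SH.hx2 hx') (covB00).cov (covB51).cov hx hx' c_B05pm_011_s1 cutB_nil (noExt_B)

noncomputable def cut_B05pm_012_s1 : Cut := Cut.of [[⟨4, 0, 0, 1449551462⟩]]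

noncomputable def f_B05pm_012_s1 : ℕ → ℕ → ℕ → ℕ → Bool := onCell 0 536870912 1073741824 536870912 1040187392 5207648
    (rowF 0 false true false .pnp 0 1 2 (qsf 0 536870912 1073741824 536870912 1) ndB0q0 ndB5q2 pcB1 cut_B05pm_012_s1 Ext.none)

def k0_B05pm_012_s1 : ∃ t, chk3 f_B05pm_012_s1 t 1 1 1 = true :=
  ⟨(l 4), by decide +kernel⟩

theorem c_B05pm_012_s1 : CertF 0 536870912 1073741824 536870912 1040187392 5207648 false true false .pnp 0 1 2
    ndB0q0 ndB5q2 pcB1 cut_B05pm_012_s1 Ext.none :=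
  certF0 (fam := false) (s1 := true) (s2 := false) (a := 0) (b := 1) (c := 2) (cn := .pnp) (n1 := ndB0q0) (n2 := ndB5q2) (pc := pcB1) (cut := cut_B05pm_012_s1) (xt := Ext.none) (P1 := 0) (W1 := 536870912) (P2 := 1073741824) (W2 := 536870912) (P3 := 1040187392) (W3 := 5207648)
    rfl k0_B05pm_012_s1

theorem s_B05pm_012_s1 {κ x : ℝ} (hκ : κ * h0 = ken x) (hx : ((1040187392 : ℕ) : ℝ) / S ≤ x)
    (hx' : x ≤ (((1040187392 : ℕ) : ℝ) + (5207648 : ℕ)) / S) :
    AltB (VFD κ) PP tK tL pcB [⟨3, 0, 0, 1449551462⟩] 0 1 2 0 5 (sgb true) (sgb false) x :=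
  strip_altBD (m := 1449551462) true rfl hκ (SH.κ0 hκ (SH.hx1 hx).le (SH.hx2 hx').le) (SH.hx1 hx).le (SH.hx2 hx') (covB00).cov (covB52).cov hx hx' c_B05pm_012_s1 cutB_nil (noExt_B)

noncomputable def cut_B05pm_022_s1 : Cut := Cut.of [[⟨4, 0, 0, 1449551462⟩]]

noncomputable def f_B05pm_022_s1 : ℕ → ℕ → ℕ → ℕ → Bool := onCell 0 536870912 1073741824 536870912 1040187392 5207648
    (rowF 0 false true false .pp 0 2 2 (qsf 0 536870912 1073741824 536870912 2) ndB0q0 ndB5q2 pcB2 cut_B05pm_022_s1 Ext.none)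

def k0_B05pm_022_s1 : ∃ t, chk3 f_B05pm_022_s1 t 1 1 1 = true :=
  ⟨(l 4), by decide +kernel⟩

theorem c_B05pm_022_s1 : CertF 0 536870912 1073741824 536870912 1040187392 5207648 false true false .pp 0 2 2
    ndB0q0 ndB5q2 pcB2 cut_B05pm_022_s1 Ext.none :=
  certF0 (fam := false) (s1 := true) (s2 := false) (a := 0) (b := 2) (c := 2) (cn := .pp) (n1 := ndB0q0) (n2 := ndB5q2) (pc := pcB2) (cut := cut_B05pm_022_s1) (xt := Ext.none) (P1 := 0) (W1 := 536870912) (P2 := 1073741824) (W2 := 536870912) (P3 := 1040187392) (W3 := 5207648)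
    rfl k0_B05pm_022_s1

theorem s_B05pm_022_s1 {κ x : ℝ} (hκ : κ * h0 = ken x) (hx : ((1040187392 : ℕ) : ℝ) / S ≤ x)
    (hx' : x ≤ (((1040187392 : ℕ) : ℝ) + (5207648 : ℕ)) / S) :
    AltB (VFD κ) PP tK tL pcB [⟨3, 0, 0, 1449551462⟩] 0 2 2 0 5 (sgb true) (sgb false) x :=
  strip_altBD (m := 1449551462) true rfl hκ (SH.κ0 hκ (SH.hx1 hx).le (SH.hx2 hx').le) (SH.hx1 hx).le (SH.hx2 hx') (covB00).cov (covB52).cov hx hx' c_B05pm_022_s1 cutB_nil (noExt_B)

noncomputable def cut_B05pm_023_s1 : Cut := Cut.of [[⟨4, 0, 0, 1449551462⟩]]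

noncomputable def f_B05pm_023_s1 : ℕ → ℕ → ℕ → ℕ → Bool := onCell 0 536870912 0 1230186008 1040187392 5207648
    (rowF 0 false true false .up 0 2 3 (qsf 0 536870912 0 1230186008 2) ndB0q0 ndB5q3 pcB2 cut_B05pm_023_s1 Ext.none)

def k0_B05pm_023_s1 : ∃ t, chk3 f_B05pm_023_s1 t 1 1 1 = true :=
  ⟨(l 6), by decide +kernel⟩

theorem c_B05pm_023_s1 : CertF 0 536870912 0 1230186008 1040187392 5207648 false true false .up 0 2 3
    ndB0q0 ndB5q3 pcB2 cut_B05pm_023_s1 Ext.none :=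
  certF0 (fam := false) (s1 := true) (s2 := false) (a := 0) (b := 2) (c := 3) (cn := .up) (n1 := ndB0q0) (n2 := ndB5q3) (pc := pcB2) (cut := cut_B05pm_023_s1) (xt := Ext.none) (P1 := 0) (W1 := 536870912) (P2 := 0) (W2 := 1230186008) (P3 := 1040187392) (W3 := 5207648)
    rfl k0_B05pm_023_s1

theorem s_B05pm_023_s1 {κ x : ℝ} (hκ : κ * h0 = ken x) (hx : ((1040187392 : ℕ) : ℝ) / S ≤ x)
    (hx' : x ≤ (((1040187392 : ℕ) : ℝ) + (5207648 : ℕ)) / S) :
    AltB (VFD κ) PP tK tL pcB [⟨3, 0, 0, 1449551462⟩] 0 2 3 0 5 (sgb true) (sgb false) x :=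
  strip_altBD (m := 1449551462) true rfl hκ (SH.κ0 hκ (SH.hx1 hx).le (SH.hx2 hx').le) (SH.hx1 hx).le (SH.hx2 hx') (covB00).cov (covB53).cov hx hx' c_B05pm_023_s1 cutB_nil (noExt_B)

noncomputable def cut_B05pm_033_s1 : Cut := Cut.of [[⟨4, 0, 0, 1449551462⟩]]

noncomputable def f_B05pm_033_s1 : ℕ → ℕ → ℕ → ℕ → Bool := onCell 0 536870912 0 1230186008 1040187392 5207648
    (rowF 0 false true false .pnn 0 3 3 (qsf 0 536870912 0 1230186008 3) ndB0q0 ndB5q3 pcB3 cut_B05pm_033_s1 Ext.none)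

def k0_B05pm_033_s1 : ∃ t, chk3 f_B05pm_033_s1 t 1 1 1 = true :=
  ⟨(l 6), by decide +kernel⟩

theorem c_B05pm_033_s1 : CertF 0 536870912 0 1230186008 1040187392 5207648 false true false .pnn 0 3 3
    ndB0q0 ndB5q3 pcB3 cut_B05pm_033_s1 Ext.none :=
  certF0 (fam := false) (s1 := true) (s2 := false) (a := 0) (b := 3) (c := 3) (cn := .pnn) (n1 := ndB0q0) (n2 := ndB5q3) (pc := pcB3) (cut := cut_B05pm_033_s1) (xt := Ext.none) (P1 := 0) (W1 := 536870912) (P2 := 0) (W2 := 1230186008) (P3 := 1040187392) (W3 := 5207648)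
    rfl k0_B05pm_033_s1

theorem s_B05pm_033_s1 {κ x : ℝ} (hκ : κ * h0 = ken x) (hx : ((1040187392 : ℕ) : ℝ) / S ≤ x)
    (hx' : x ≤ (((1040187392 : ℕ) : ℝ) + (5207648 : ℕ)) / S) :
    AltB (VFD κ) PP tK tL pcB [⟨3, 0, 0, 1449551462⟩] 0 3 3 0 5 (sgb true) (sgb false) x :=
  strip_altBD (m := 1449551462) true rfl hκ (SH.κ0 hκ (SH.hx1 hx).le (SH.hx2 hx').le) (SH.hx1 hx).le (SH.hx2 hx') (covB00).cov (covB53).cov hx hx' c_B05pm_033_s1 cutB_nil (noExt_B)

noncomputable def cut_B05pm_101_s1 : Cut := Cut.of [[⟨4, 0, 0, 1449551462⟩]]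

noncomputable def f_B05pm_101_s1 : ℕ → ℕ → ℕ → ℕ → Bool := onCell 536870912 536870912 536870912 536870912 1040187392 5207648
    (rowF 0 false true false .npn 1 0 1 (qsf 536870912 536870912 536870912 536870912 0) ndB0q1 ndB5q1 pcB0 cut_B05pm_101_s1 Ext.none)

def k0_B05pm_101_s1 : ∃ t, chk3 f_B05pm_101_s1 t 1 1 1 = true :=
  ⟨(l 4), by decide +kernel⟩

theorem c_B05pm_101_s1 : CertF 536870912 536870912 536870912 536870912 1040187392 5207648 false true false .npn 1 0 1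
    ndB0q1 ndB5q1 pcB0 cut_B05pm_101_s1 Ext.none :=
  certF0 (fam := false) (s1 := true) (s2 := false) (a := 1) (b := 0) (c := 1) (cn := .npn) (n1 := ndB0q1) (n2 := ndB5q1) (pc := pcB0) (cut := cut_B05pm_101_s1) (xt := Ext.none) (P1 := 536870912) (W1 := 536870912) (P2 := 536870912) (W2 := 536870912) (P3 := 1040187392) (W3 := 5207648)
    rfl k0_B05pm_101_s1

theorem s_B05pm_101_s1 {κ x : ℝ} (hκ : κ * h0 = ken x) (hx : ((1040187392 : ℕ) : ℝ) / S ≤ x)
    (hx' : x ≤ (((1040187392 : ℕ) : ℝ) + (5207648 : ℕ)) / S) :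
    AltB (VFD κ) PP tK tL pcB [⟨3, 0, 0, 1449551462⟩] 1 0 1 0 5 (sgb true) (sgb false) x :=
  strip_altBD (m := 1449551462) true rfl hκ (SH.κ0 hκ (SH.hx1 hx).le (SH.hx2 hx').le) (SH.hx1 hx).le (SH.hx2 hx') (covB01).cov (covB51).cov hx hx' c_B05pm_101_s1 cutB_nil (noExt_B)

noncomputable def cut_B05pm_102_s1 : Cut := Cut.of [[⟨4, 0, 0, 1449551462⟩]]

noncomputable def f_B05pm_102_s1 : ℕ → ℕ → ℕ → ℕ → Bool := onCell 536870912 536870912 1073741824 536870912 1040187392 5207648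
    (rowF 0 false true false .npp 1 0 2 (qsf 536870912 536870912 1073741824 536870912 0) ndB0q1 ndB5q2 pcB0 cut_B05pm_102_s1 Ext.none)

def k0_B05pm_102_s1 : ∃ t, chk3 f_B05pm_102_s1 t 1 1 1 = true :=
  ⟨(l 6), by decide +kernel⟩

theorem c_B05pm_102_s1 : CertF 536870912 536870912 1073741824 536870912 1040187392 5207648 false true false .npp 1 0 2
    ndB0q1 ndB5q2 pcB0 cut_B05pm_102_s1 Ext.none :=
  certF0 (fam := false) (s1 := true) (s2 := false) (a := 1) (b := 0) (c := 2) (cn := .npp) (n1 := ndB0q1) (n2 := ndB5q2) (pc := pcB0) (cut := cut_B05pm_102_s1) (xt := Ext.none) (P1 := 536870912) (W1 := 536870912) (P2 := 1073741824) (W2 := 536870912) (P3 := 1040187392) (W3 := 5207648)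
    rfl k0_B05pm_102_s1

theorem s_B05pm_102_s1 {κ x : ℝ} (hκ : κ * h0 = ken x) (hx : ((1040187392 : ℕ) : ℝ) / S ≤ x)
    (hx' : x ≤ (((1040187392 : ℕ) : ℝ) + (5207648 : ℕ)) / S) :
    AltB (VFD κ) PP tK tL pcB [⟨3, 0, 0, 1449551462⟩] 1 0 2 0 5 (sgb true) (sgb false) x :=
  strip_altBD (m := 1449551462) true rfl hκ (SH.κ0 hκ (SH.hx1 hx).le (SH.hx2 hx').le) (SH.hx1 hx).le (SH.hx2 hx') (covB01).cov (covB52).cov hx hx' c_B05pm_102_s1 cutB_nil (noExt_B)

noncomputable def cut_B05pm_112_s1 : Cut := Cut.of [[⟨4, 0, 0, 1449551462⟩]]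

noncomputable def f_B05pm_112_s1 : ℕ → ℕ → ℕ → ℕ → Bool := onCell 536870912 536870912 1073741824 536870912 1040187392 5207648
    (rowF 0 false true false .dn 1 1 2 (qsf 536870912 536870912 1073741824 536870912 1) ndB0q1 ndB5q2 pcB1 cut_B05pm_112_s1 Ext.none)

def k0_B05pm_112_s1 : ∃ t, chk3 f_B05pm_112_s1 t 1 1 1 = true :=
  ⟨(l 6), by decide +kernel⟩

theorem c_B05pm_112_s1 : CertF 536870912 536870912 1073741824 536870912 1040187392 5207648 false true false .dn 1 1 2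
    ndB0q1 ndB5q2 pcB1 cut_B05pm_112_s1 Ext.none :=
  certF0 (fam := false) (s1 := true) (s2 := false) (a := 1) (b := 1) (c := 2) (cn := .dn) (n1 := ndB0q1) (n2 := ndB5q2) (pc := pcB1) (cut := cut_B05pm_112_s1) (xt := Ext.none) (P1 := 536870912) (W1 := 536870912) (P2 := 1073741824) (W2 := 536870912) (P3 := 1040187392) (W3 := 5207648)
    rfl k0_B05pm_112_s1

theorem s_B05pm_112_s1 {κ x : ℝ} (hκ : κ * h0 = ken x) (hx : ((1040187392 : ℕ) : ℝ) / S ≤ x)
    (hx' : x ≤ (((1040187392 : ℕ) : ℝ) + (5207648 : ℕ)) / S) :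
    AltB (VFD κ) PP tK tL pcB [⟨3, 0, 0, 1449551462⟩] 1 1 2 0 5 (sgb true) (sgb false) x :=
  strip_altBD (m := 1449551462) true rfl hκ (SH.κ0 hκ (SH.hx1 hx).le (SH.hx2 hx').le) (SH.hx1 hx).le (SH.hx2 hx') (covB01).cov (covB52).cov hx hx' c_B05pm_112_s1 cutB_nil (noExt_B)

noncomputable def cut_B05pm_113_s1 : Cut := Cut.of [[⟨4, 0, 0, 1449551462⟩], [⟨0, 1, 0, 15728640⟩, ⟨1, 1, 0, 15728640⟩, ⟨2, 2, 0, 524288⟩]]

noncomputable def f_B05pm_113_s1 : ℕ → ℕ → ℕ → ℕ → Bool := onCell 536870912 536870912 0 1230186008 1040187392 5207648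
    (rowF 0 false true false .nn 1 1 3 (qsf 536870912 536870912 0 1230186008 1) ndB0q1 ndB5q3 pcB1 cut_B05pm_113_s1 Ext.none)

def k0_B05pm_113_s1 : ∃ t, chk3 f_B05pm_113_s1 t 1 1 1 = true :=
  ⟨(b (a (l 2) (a (l 2) (b (a (l 2) (a (l 2) (a (b (l 2) (b (l 2) (l 16448480))) (b (a (l 2) (b (b (l 14) (l 16678712)) (b (l 16643008) (l 16612640)))) (b (l 16532672) (l 16447040)))))) (a (l 6) (a (l 6) (b (b (l 16387176) (l 6)) (l 6))))))) (b (l 6) (l 6))), by decide +kernel⟩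

theorem c_B05pm_113_s1 : CertF 536870912 536870912 0 1230186008 1040187392 5207648 false true false .nn 1 1 3
    ndB0q1 ndB5q3 pcB1 cut_B05pm_113_s1 Ext.none :=
  certF0 (fam := false) (s1 := true) (s2 := false) (a := 1) (b := 1) (c := 3) (cn := .nn) (n1 := ndB0q1) (n2 := ndB5q3) (pc := pcB1) (cut := cut_B05pm_113_s1) (xt := Ext.none) (P1 := 536870912) (W1 := 536870912) (P2 := 0) (W2 := 1230186008) (P3 := 1040187392) (W3 := 5207648)
    rfl k0_B05pm_113_s1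

theorem s_B05pm_113_s1 {κ x : ℝ} (hκ : κ * h0 = ken x) (hx : ((1040187392 : ℕ) : ℝ) / S ≤ x)
    (hx' : x ≤ (((1040187392 : ℕ) : ℝ) + (5207648 : ℕ)) / S)
    (H : CutB (VFD κ) PP tK tL pcB (Cut.of [[⟨0, 1, 0, 15728640⟩, ⟨1, 1, 0, 15728640⟩, ⟨2, 2, 0, 524288⟩]]) 1 1 3 0 5 (sgb true) (sgb false) x) :
    AltB (VFD κ) PP tK tL pcB [⟨3, 0, 0, 1449551462⟩] 1 1 3 0 5 (sgb true) (sgb false) x :=
  strip_altBD (m := 1449551462) true rfl hκ (SH.κ0 hκ (SH.hx1 hx).le (SH.hx2 hx').le) (SH.hx1 hx).le (SH.hx2 hx') (covB01).cov (covB53).cov hx hx' c_B05pm_113_s1 H (noExt_B)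

noncomputable def cut_B05pm_123_s1 : Cut := Cut.of [[⟨4, 0, 0, 1449551462⟩], [⟨0, 1, 0, 15728640⟩, ⟨1, 1, 0, 15728640⟩, ⟨2, 2, 0, 524288⟩]]

noncomputable def f_B05pm_123_s1 : ℕ → ℕ → ℕ → ℕ → Bool := onCell 1073741824 536870912 0 1230186008 1040187392 5207648
    (rowF 2 false true false .npn 1 2 3 (qsf 536870912 536870912 0 1230186008 2) ndB0q1 ndB5q3 pcB2 cut_B05pm_123_s1 Ext.none)

def k0_B05pm_123_s1 : ∃ t, chk3 f_B05pm_123_s1 t 1 1 1 = true :=
  ⟨(b (a (b (a (a (b (a (b (a (b (a (l 14) (b (a (l 14) (l 16744040)) (l 16684632))) (l 16687216)) (b (b (a (b (l 16757008) (l 16757904)) (l 16728840)) (l 16734192)) (l 16714000))) (a (b (l 16694480) (l 16672592)) (b (l 16598616) (l 16651752)))) (b (a (l 16579728) (l 16601888)) (a (b (l 16602472) (l 16557072)) (l 16491744)))) (a (b (a (a (l 16661000) (l 16597840)) (a (l 16623472) (l 16568552))) (b (a (l 16579952) (l 16337448)) (l 6))) (b (a (l 16415024) (l 16273608))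 (l 6)))) (b (b (a (l 16310000) (l 16257384)) (a (l 16234944) (l 6))) (l 6))) (b (l 6) (l 6))) (b (l 6) (l 6))) (l 6)) (l 6)), by decide +kernel⟩

theorem c_B05pm_123_s1 : CertF 536870912 536870912 0 1230186008 1040187392 5207648 false true false .npn 1 2 3
    ndB0q1 ndB5q3 pcB2 cut_B05pm_123_s1 Ext.none :=
  certF2 (fam := false) (s1 := true) (s2 := false) (a := 1) (b := 2) (c := 3) (cn := .npn) (n1 := ndB0q1) (n2 := ndB5q3) (pc := pcB2) (cut := cut_B05pm_123_s1) (xt := Ext.none) (P1 := 536870912) (W1 := 536870912) (P2 := 0) (W2 := 1230186008) (P3 := 1040187392) (W3 := 5207648)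
    rfl (fun _ => rfl) k0_B05pm_123_s1

theorem s_B05pm_123_s1 {κ x : ℝ} (hκ : κ * h0 = ken x) (hx : ((1040187392 : ℕ) : ℝ) / S ≤ x)
    (hx' : x ≤ (((1040187392 : ℕ) : ℝ) + (5207648 : ℕ)) / S)
    (H : CutB (VFD κ) PP tK tL pcB (Cut.of [[⟨0, 1, 0, 15728640⟩, ⟨1, 1, 0, 15728640⟩, ⟨2, 2, 0, 524288⟩]]) 1 2 3 0 5 (sgb true) (sgb false) x) :
    AltB (VFD κ) PP tK tL pcB [⟨3, 0, 0, 1449551462⟩] 1 2 3 0 5 (sgb true) (sgb false) x :=
  strip_altBD (m := 1449551462) true rfl hκ (SH.κ0 hκ (SH.hx1 hx).le (SH.hx2 hx').le) (SH.hx1 hx).le (SH.hx2 hx') (covB01).cov (covB53).cov hx hx' c_B05pm_123_s1 H (noExt_B)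

noncomputable def cut_B05pm_133_s1 : Cut := Cut.of [[⟨4, 0, 0, 1449551462⟩]]

noncomputable def f_B05pm_133_s1 : ℕ → ℕ → ℕ → ℕ → Bool := onCell 1610612736 536870912 0 1230186008 1040187392 5207648
    (rowF 2 false true false .dn 1 3 3 (qsf 536870912 536870912 0 1230186008 3) ndB0q1 ndB5q3 pcB3 cut_B05pm_133_s1 Ext.none)

def k0_B05pm_133_s1 : ∃ t, chk3 f_B05pm_133_s1 t 1 1 1 = true :=
  ⟨(l 6), by decide +kernel⟩

theorem c_B05pm_133_s1 : CertF 536870912 536870912 0 1230186008 1040187392 5207648 false true false .dn 1 3 3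
    ndB0q1 ndB5q3 pcB3 cut_B05pm_133_s1 Ext.none :=
  certF2 (fam := false) (s1 := true) (s2 := false) (a := 1) (b := 3) (c := 3) (cn := .dn) (n1 := ndB0q1) (n2 := ndB5q3) (pc := pcB3) (cut := cut_B05pm_133_s1) (xt := Ext.none) (P1 := 536870912) (W1 := 536870912) (P2 := 0) (W2 := 1230186008) (P3 := 1040187392) (W3 := 5207648)
    rfl (fun _ => rfl) k0_B05pm_133_s1

theorem s_B05pm_133_s1 {κ x : ℝ} (hκ : κ * h0 = ken x) (hx : ((1040187392 : ℕ) : ℝ) / S ≤ x)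
    (hx' : x ≤ (((1040187392 : ℕ) : ℝ) + (5207648 : ℕ)) / S) :
    AltB (VFD κ) PP tK tL pcB [⟨3, 0, 0, 1449551462⟩] 1 3 3 0 5 (sgb true) (sgb false) x :=
  strip_altBD (m := 1449551462) true rfl hκ (SH.κ0 hκ (SH.hx1 hx).le (SH.hx2 hx').le) (SH.hx1 hx).le (SH.hx2 hx') (covB01).cov (covB53).cov hx hx' c_B05pm_133_s1 cutB_nil (noExt_B)

noncomputable def cut_B05pm_202_s1 : Cut := Cut.of [[⟨4, 0, 0, 1449551462⟩]]

noncomputable def f_B05pm_202_s1 : ℕ → ℕ → ℕ → ℕ → Bool := onCell 0 536870912 1073741824 536870912 1040187392 5207648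
    (rowF 0 false true false .pp 2 0 2 (qsf 0 536870912 1073741824 536870912 0) ndB0q2 ndB5q2 pcB0 cut_B05pm_202_s1 Ext.none)

def k0_B05pm_202_s1 : ∃ t, chk3 f_B05pm_202_s1 t 1 1 1 = true :=
  ⟨(a (b (l 6) (b (l 6) (l 6))) (l 6)), by decide +kernel⟩

theorem c_B05pm_202_s1 : CertF 0 536870912 1073741824 536870912 1040187392 5207648 false true false .pp 2 0 2
    ndB0q2 ndB5q2 pcB0 cut_B05pm_202_s1 Ext.none :=
  certF0 (fam := false) (s1 := true) (s2 := false) (a := 2) (b := 0) (c := 2) (cn := .pp) (n1 := ndB0q2) (n2 := ndB5q2) (pc := pcB0) (cut := cut_B05pm_202_s1) (xt := Ext.none) (P1 := 0) (W1 := 536870912) (P2 := 1073741824) (W2 := 536870912) (P3 := 1040187392) (W3 := 5207648)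
    rfl k0_B05pm_202_s1

theorem s_B05pm_202_s1 {κ x : ℝ} (hκ : κ * h0 = ken x) (hx : ((1040187392 : ℕ) : ℝ) / S ≤ x)
    (hx' : x ≤ (((1040187392 : ℕ) : ℝ) + (5207648 : ℕ)) / S) :
    AltB (VFD κ) PP tK tL pcB [⟨3, 0, 0, 1449551462⟩] 2 0 2 0 5 (sgb true) (sgb false) x :=
  strip_altBD (m := 1449551462) true rfl hκ (SH.κ0 hκ (SH.hx1 hx).le (SH.hx2 hx').le) (SH.hx1 hx).le (SH.hx2 hx') (covB02).cov (covB52).cov hx hx' c_B05pm_202_s1 cutB_nil (noExt_B)

noncomputable def cut_B05pm_203_s1 : Cut := Cut.of [[⟨4, 0, 0, 1449551462⟩]]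

noncomputable def f_B05pm_203_s1 : ℕ → ℕ → ℕ → ℕ → Bool := onCell 0 536870912 0 1230186008 1040187392 5207648
    (rowF 0 false true false .up 2 0 3 (qsf 0 536870912 0 1230186008 0) ndB0q2 ndB5q3 pcB0 cut_B05pm_203_s1 Ext.none)

def k0_B05pm_203_s1 : ∃ t, chk3 f_B05pm_203_s1 t 1 1 1 = true :=
  ⟨(b (l 2) (b (l 2) (a (b (b (l 2) (b (a (l 2) (l 2)) (a (a (a (l 16553000) (l 424227864263)) (l 16306832)) (l 6)))) (a (a (b (b (a (b (l 16490112) (l 16443728)) (l 16356896)) (l 16285280)) (b (l 16145288) (b (l 16035104) (l 6)))) (b (b (l 16173384) (l 6)) (l 6))) (l 6))) (l 6)))), by decide +kernel⟩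

theorem c_B05pm_203_s1 : CertF 0 536870912 0 1230186008 1040187392 5207648 false true false .up 2 0 3
    ndB0q2 ndB5q3 pcB0 cut_B05pm_203_s1 Ext.none :=
  certF0 (fam := false) (s1 := true) (s2 := false) (a := 2) (b := 0) (c := 3) (cn := .up) (n1 := ndB0q2) (n2 := ndB5q3) (pc := pcB0) (cut := cut_B05pm_203_s1) (xt := Ext.none) (P1 := 0) (W1 := 536870912) (P2 := 0) (W2 := 1230186008) (P3 := 1040187392) (W3 := 5207648)
    rfl k0_B05pm_203_s1

theorem s_B05pm_203_s1 {κ x : ℝ} (hκ : κ * h0 = ken x) (hx : ((1040187392 : ℕ) : ℝ) / S ≤ x)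
    (hx' : x ≤ (((1040187392 : ℕ) : ℝ) + (5207648 : ℕ)) / S) :
    AltB (VFD κ) PP tK tL pcB [⟨3, 0, 0, 1449551462⟩] 2 0 3 0 5 (sgb true) (sgb false) x :=
  strip_altBD (m := 1449551462) true rfl hκ (SH.κ0 hκ (SH.hx1 hx).le (SH.hx2 hx').le) (SH.hx1 hx).le (SH.hx2 hx') (covB02).cov (covB53).cov hx hx' c_B05pm_203_s1 cutB_nil (noExt_B)

noncomputable def cut_B05pm_213_s1 : Cut := Cut.of [[⟨4, 0, 0, 1449551462⟩], [⟨0, 1, 0, 15728640⟩, ⟨1, 1, 0, 15728640⟩, ⟨2, 2, 0, 524288⟩]]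

noncomputable def xt_B05pm_213_s1 : Ext := strExt dd false true false .u2 .s2m .u0m .pnn 2 1 3 rfl rfl gf1 vv ndB0q2 ndB5q3

noncomputable def f_B05pm_213_s1 : ℕ → ℕ → ℕ → ℕ → Bool := onCell 0 536870912 0 1230186008 1040187392 5207648
    (rowF 0 false true false .pnn 2 1 3 (qsf 0 536870912 0 1230186008 1) ndB0q2 ndB5q3 pcB1 cut_B05pm_213_s1 xt_B05pm_213_s1)

def k0_B05pm_213_s1 : ∃ t, chk3 f_B05pm_213_s1 t 2 2 1 = true :=
  ⟨(b (l 3) (a (l 3) (b (l 3) (a (b (l 3) (l 528989455)) (b (a (l 3) (l 529608719)) (l 529635087)))))), by decide +kernel⟩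

def k1_B05pm_213_s1 : ∃ t, chk3 f_B05pm_213_s1 t 3 4 1 = true :=
  ⟨(b (a (l 3) (b (a (l 3) (a (a (l 3) (a (l 3) (b (l 3) (a (l 530648079) (l 530659855))))) (b (a (a (l 3) (a (l 3) (l 14))) (b (l 14) (l 14))) (a (a (a (l 529313551) (a (l 530546703) (l 530500623))) (a (a (l 530524175) (l 530275087)) (b (a (l 530506767) (l 530512911)) (l 16748232)))) (a (a (b (l 16737584) (l 16740000)) (l 16657216)) (l 16644456)))))) (a (a (l 3) (b (l 3) (a (l 3) (a (l 532083983) (b (l 531552783) (l 531504143)))))) (a (a (b (b (l 3) (a (a (l 3) (l 531279631)) (a (l 531122959) (l 531021327)))) (a (b (l 531296527) (a (l 531216143) (l 16754456))) (b (a (l 530992911) (l 16746456)) (l 16742512)))) (b (a (a (l 530891535) (l 530739983)) (a (l 530785295) (l 529754639))) (a (b (l 16746536) (l 16729992)) (l 16724696)))) (b (b (a (a (l 16708176) (l 16734392)) (l 16709776)) (a (l 16641864) (l 16693344))) (a (l 16661728) (l 16671920)))))))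 (a (a (l 3) (b (l 3) (a (l 3) (a (l 531161103) (l 530905615))))) (a (a (b (b (l 3) (a (l 531647759) (l 531238927))) (a (l 530571535) (l 530156559))) (b (a (b (a (b (l 3) (l 531532815)) (l 531587855)) (a (l 530906895) (l 530710543))) (b (a (l 531310095) (l 531014159)) (l 16751616))) (a (b (l 16699000) (l 16642824)) (l 16622672)))) (a (b (a (b (a (b (l 16739304) (l 16717768)) (l 16711456)) (l 16669824)) (b (l 16701080) (l 16650400))) (a (l 16572184) (l 16536160))) (a (b (a (l 16670944) (l 16658680)) (l 16588888)) (b (l 16635880) (l 16599488))))))), by decide +kernel⟩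

def k2_B05pm_213_s1 : ∃ t, chk3 f_B05pm_213_s1 t 3 5 1 = true :=
  ⟨(a (b (a (b (a (l 3) (l 530553359)) (a (l 529954831) (l 529946895))) (a (b (l 530381839) (l 529779983)) (b (l 528370959) (l 16691496)))) (a (b (a (l 529727503) (l 529740303)) (a (l 529877263) (l 16575088))) (b (a (l 16506400) (l 16496896)) (a (l 16493168) (l 16398384))))) (b (a (a (b (b (l 16656136) (l 16597336)) (l 16501800)) (b (l 16512416) (l 16363456))) (a (b (a (l 16410056) (l 16338776)) (l 15769936)) (b (a (l 16293376) (l 16378128)) (l 15979832)))) (b (a (a (l 16378336) (l 16223856)) (l 6)) (a (a (l 16271360) (l 6)) (l 6))))), by decide +kernel⟩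

def k3_B05pm_213_s1 : ∃ t, chk3 f_B05pm_213_s1 t 1 3 1 = true :=
  ⟨(b (a (b (a (b (l 3) (a (l 3) (l 525193231))) (a (b (l 527790095) (a (l 526059023) (l 526687247))) (b (l 528030223) (b (l 16449968) (l 16239896))))) (a (b (a (l 522717455) (l 523748111)) (a (l 521384463) (l 522401295))) (a (b (a (l 524605199) (l 16168184)) (a (b (l 16355752) (l 16161064)) (b (l 16183752) (l 16193304)))) (b (a (b (l 16378152) (l 16302952)) (b (l 16350776) (l 16385616))) (b (l 16163584) (l 16505272)))))) (a (b (a (b (a (l 16556400) (l 16496784)) (a (b (l 16445992) (l 16409344)) (l 16449896))) (b (a (l 16421736) (l 16318736)) (l 16296680))) (b (a (l 16348600) (l 6)) (l 6))) (b (l 6) (l 6)))) (a (b (a (b (a (l 520343567) (a (b (l 16365032) (l 16150816)) (b (l 16066504) (b (l 16186632) (l 16232888))))) (a (a (b (l 16400344) (l 16181408)) (b (l 16161400) (b (a (l 16176168) (l 16170760)) (l 1)))) (b (a (b (l 16095816) (l 16224504))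 (l 16411048)) (l 16224976)))) (a (b (b (a (a (l 16200072) (l 16275272)) (l 16438696)) (l 16368944)) (b (l 16467272) (l 6))) (l 6))) (a (l 1) (l 6))) (l 6))), by decide +kernel⟩

theorem t4_B05pm_213_s1 : ∃ t, chk3 f_B05pm_213_s1 t 3 2 1 = true := ex3_b k1_B05pm_213_s1 k2_B05pm_213_s1

theorem t5_B05pm_213_s1 : ∃ t, chk3 f_B05pm_213_s1 t 1 2 1 = true := ex3_a k0_B05pm_213_s1 t4_B05pm_213_s1

theorem t6_B05pm_213_s1 : ∃ t, chk3 f_B05pm_213_s1 t 1 1 1 = true := ex3_b t5_B05pm_213_s1 k3_B05pm_213_s1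

theorem c_B05pm_213_s1 : CertF 0 536870912 0 1230186008 1040187392 5207648 false true false .pnn 2 1 3
    ndB0q2 ndB5q3 pcB1 cut_B05pm_213_s1 xt_B05pm_213_s1 :=
  certF0 (fam := false) (s1 := true) (s2 := false) (a := 2) (b := 1) (c := 3) (cn := .pnn) (n1 := ndB0q2) (n2 := ndB5q3) (pc := pcB1) (cut := cut_B05pm_213_s1) (xt := xt_B05pm_213_s1) (P1 := 0) (W1 := 536870912) (P2 := 0) (W2 := 1230186008) (P3 := 1040187392) (W3 := 5207648)
    rfl t6_B05pm_213_s1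

theorem s_B05pm_213_s1 {κ x : ℝ} (hκ : κ * h0 = ken x) (hx : ((1040187392 : ℕ) : ℝ) / S ≤ x)
    (hx' : x ≤ (((1040187392 : ℕ) : ℝ) + (5207648 : ℕ)) / S)
    (H : CutB (VFD κ) PP tK tL pcB (Cut.of [[⟨0, 1, 0, 15728640⟩, ⟨1, 1, 0, 15728640⟩, ⟨2, 2, 0, 524288⟩]]) 2 1 3 0 5 (sgb true) (sgb false) x) :
    AltB (VFD κ) PP tK tL pcB [⟨3, 0, 0, 1449551462⟩] 2 1 3 0 5 (sgb true) (sgb false) x :=
  strip_altBD (m := 1449551462) true rfl hκ (SH.κ0 hκ (SH.hx1 hx).le (SH.hx2 hx').le) (SH.hx1 hx).le (SH.hx2 hx') (covB02).cov (covB53).cov hx hx' c_B05pm_213_s1 H ((okx hx hx').extB (T := tt) (sideB hx hx') hκ rfl rfl (.O 2 true) (.N 3 false) (Or.inr rfl))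

noncomputable def cut_B05mm_001_s1 : Cut := Cut.of [[⟨4, 0, 0, 1449551462⟩]]

noncomputable def f_B05mm_001_s1 : ℕ → ℕ → ℕ → ℕ → Bool := onCell 0 536870912 0 536870912 1040187392 5207648
    (rowF 1 false false false .up 0 0 1 (qsf 0 536870912 536870912 536870912 0) ndB0q0 ndB5q1 pcB0 cut_B05mm_001_s1 Ext.none)

def k0_B05mm_001_s1 : ∃ t, chk3 f_B05mm_001_s1 t 1 1 1 = true :=
  ⟨(l 3), by decide +kernel⟩

theorem c_B05mm_001_s1 : CertF 0 536870912 536870912 536870912 1040187392 5207648 false false false .up 0 0 1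
    ndB0q0 ndB5q1 pcB0 cut_B05mm_001_s1 Ext.none :=
  certF1 (fam := false) (s1 := false) (s2 := false) (a := 0) (b := 0) (c := 1) (cn := .up) (n1 := ndB0q0) (n2 := ndB5q1) (pc := pcB0) (cut := cut_B05mm_001_s1) (xt := Ext.none) (P1 := 0) (W1 := 536870912) (P2 := 536870912) (W2 := 536870912) (P3 := 1040187392) (W3 := 5207648)
    rfl (fun _ => rfl) k0_B05mm_001_s1

theorem s_B05mm_001_s1 {κ x : ℝ} (hκ : κ * h0 = ken x) (hx : ((1040187392 : ℕ) : ℝ) / S ≤ x)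
    (hx' : x ≤ (((1040187392 : ℕ) : ℝ) + (5207648 : ℕ)) / S) :
    AltB (VFD κ) PP tK tL pcB [⟨3, 0, 0, 1449551462⟩] 0 0 1 0 5 (sgb false) (sgb false) x :=
  strip_altBD (m := 1449551462) true rfl hκ (SH.κ0 hκ (SH.hx1 hx).le (SH.hx2 hx').le) (SH.hx1 hx).le (SH.hx2 hx') (covB00).cov (covB51).cov hx hx' c_B05mm_001_s1 cutB_nil (noExt_B)

noncomputable def cut_B05mm_011_s1 : Cut := Cut.of [[⟨4, 0, 0, 1449551462⟩]]

noncomputable def f_B05mm_011_s1 : ℕ → ℕ → ℕ → ℕ → Bool := onCell 0 536870912 536870912 536870912 1040187392 5207648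
    (rowF 1 false false false .pnn 0 1 1 (qsf 0 536870912 536870912 536870912 1) ndB0q0 ndB5q1 pcB1 cut_B05mm_011_s1 Ext.none)

def k0_B05mm_011_s1 : ∃ t, chk3 f_B05mm_011_s1 t 1 1 1 = true :=
  ⟨(l 5), by decide +kernel⟩

theorem c_B05mm_011_s1 : CertF 0 536870912 536870912 536870912 1040187392 5207648 false false false .pnn 0 1 1
    ndB0q0 ndB5q1 pcB1 cut_B05mm_011_s1 Ext.none :=
  certF1 (fam := false) (s1 := false) (s2 := false) (a := 0) (b := 1) (c := 1) (cn := .pnn) (n1 := ndB0q0) (n2 := ndB5q1) (pc := pcB1) (cut := cut_B05mm_011_s1) (xt := Ext.none) (P1 := 0) (W1 := 536870912) (P2 := 536870912) (W2 := 536870912) (P3 := 1040187392) (W3 := 5207648)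
    rfl (fun _ => rfl) k0_B05mm_011_s1

theorem s_B05mm_011_s1 {κ x : ℝ} (hκ : κ * h0 = ken x) (hx : ((1040187392 : ℕ) : ℝ) / S ≤ x)
    (hx' : x ≤ (((1040187392 : ℕ) : ℝ) + (5207648 : ℕ)) / S) :
    AltB (VFD κ) PP tK tL pcB [⟨3, 0, 0, 1449551462⟩] 0 1 1 0 5 (sgb false) (sgb false) x :=
  strip_altBD (m := 1449551462) true rfl hκ (SH.κ0 hκ (SH.hx1 hx).le (SH.hx2 hx').le) (SH.hx1 hx).le (SH.hx2 hx') (covB00).cov (covB51).cov hx hx' c_B05mm_011_s1 cutB_nil (noExt_B)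

noncomputable def cut_B05mm_012_s1 : Cut := Cut.of [[⟨4, 0, 0, 1449551462⟩]]

noncomputable def f_B05mm_012_s1 : ℕ → ℕ → ℕ → ℕ → Bool := onCell 0 536870912 1073741824 536870912 1040187392 5207648
    (rowF 0 false false false .pnp 0 1 2 (qsf 0 536870912 1073741824 536870912 1) ndB0q0 ndB5q2 pcB1 cut_B05mm_012_s1 Ext.none)

def k0_B05mm_012_s1 : ∃ t, chk3 f_B05mm_012_s1 t 1 1 1 = true :=
  ⟨(l 5), by decide +kernel⟩

theorem c_B05mm_012_s1 : CertF 0 536870912 1073741824 536870912 1040187392 5207648 false false false .pnp 0 1 2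
    ndB0q0 ndB5q2 pcB1 cut_B05mm_012_s1 Ext.none :=
  certF0 (fam := false) (s1 := false) (s2 := false) (a := 0) (b := 1) (c := 2) (cn := .pnp) (n1 := ndB0q0) (n2 := ndB5q2) (pc := pcB1) (cut := cut_B05mm_012_s1) (xt := Ext.none) (P1 := 0) (W1 := 536870912) (P2 := 1073741824) (W2 := 536870912) (P3 := 1040187392) (W3 := 5207648)
    rfl k0_B05mm_012_s1

theorem s_B05mm_012_s1 {κ x : ℝ} (hκ : κ * h0 = ken x) (hx : ((1040187392 : ℕ) : ℝ) / S ≤ x)
    (hx' : x ≤ (((1040187392 : ℕ) : ℝ) + (5207648 : ℕ)) / S) :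
    AltB (VFD κ) PP tK tL pcB [⟨3, 0, 0, 1449551462⟩] 0 1 2 0 5 (sgb false) (sgb false) x :=
  strip_altBD (m := 1449551462) true rfl hκ (SH.κ0 hκ (SH.hx1 hx).le (SH.hx2 hx').le) (SH.hx1 hx).le (SH.hx2 hx') (covB00).cov (covB52).cov hx hx' c_B05mm_012_s1 cutB_nil (noExt_B)

noncomputable def cut_B05mm_022_s1 : Cut := Cut.of [[⟨4, 0, 0, 1449551462⟩]]

noncomputable def f_B05mm_022_s1 : ℕ → ℕ → ℕ → ℕ → Bool := onCell 0 536870912 1073741824 536870912 1040187392 5207648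
    (rowF 0 false false false .pp 0 2 2 (qsf 0 536870912 1073741824 536870912 2) ndB0q0 ndB5q2 pcB2 cut_B05mm_022_s1 Ext.none)

def k0_B05mm_022_s1 : ∃ t, chk3 f_B05mm_022_s1 t 1 1 1 = true :=
  ⟨(l 5), by decide +kernel⟩

theorem c_B05mm_022_s1 : CertF 0 536870912 1073741824 536870912 1040187392 5207648 false false false .pp 0 2 2
    ndB0q0 ndB5q2 pcB2 cut_B05mm_022_s1 Ext.none :=
  certF0 (fam := false) (s1 := false) (s2 := false) (a := 0) (b := 2) (c := 2) (cn := .pp) (n1 := ndB0q0) (n2 := ndB5q2) (pc := pcB2) (cut := cut_B05mm_022_s1) (xt := Ext.none) (P1 := 0) (W1 := 536870912) (P2 := 1073741824) (W2 := 536870912) (P3 := 1040187392) (W3 := 5207648)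
    rfl k0_B05mm_022_s1

theorem s_B05mm_022_s1 {κ x : ℝ} (hκ : κ * h0 = ken x) (hx : ((1040187392 : ℕ) : ℝ) / S ≤ x)
    (hx' : x ≤ (((1040187392 : ℕ) : ℝ) + (5207648 : ℕ)) / S) :
    AltB (VFD κ) PP tK tL pcB [⟨3, 0, 0, 1449551462⟩] 0 2 2 0 5 (sgb false) (sgb false) x :=
  strip_altBD (m := 1449551462) true rfl hκ (SH.κ0 hκ (SH.hx1 hx).le (SH.hx2 hx').le) (SH.hx1 hx).le (SH.hx2 hx') (covB00).cov (covB52).cov hx hx' c_B05mm_022_s1 cutB_nil (noExt_B)

noncomputable def cut_B05mm_023_s1 : Cut := Cut.of [[⟨4, 0, 0, 1449551462⟩]]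

noncomputable def f_B05mm_023_s1 : ℕ → ℕ → ℕ → ℕ → Bool := onCell 0 536870912 0 1230186008 1040187392 5207648
    (rowF 0 false false false .up 0 2 3 (qsf 0 536870912 0 1230186008 2) ndB0q0 ndB5q3 pcB2 cut_B05mm_023_s1 Ext.none)

def k0_B05mm_023_s1 : ∃ t, chk3 f_B05mm_023_s1 t 1 1 1 = true :=
  ⟨(l 5), by decide +kernel⟩

theorem c_B05mm_023_s1 : CertF 0 536870912 0 1230186008 1040187392 5207648 false false false .up 0 2 3
    ndB0q0 ndB5q3 pcB2 cut_B05mm_023_s1 Ext.none :=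
  certF0 (fam := false) (s1 := false) (s2 := false) (a := 0) (b := 2) (c := 3) (cn := .up) (n1 := ndB0q0) (n2 := ndB5q3) (pc := pcB2) (cut := cut_B05mm_023_s1) (xt := Ext.none) (P1 := 0) (W1 := 536870912) (P2 := 0) (W2 := 1230186008) (P3 := 1040187392) (W3 := 5207648)
    rfl k0_B05mm_023_s1

theorem s_B05mm_023_s1 {κ x : ℝ} (hκ : κ * h0 = ken x) (hx : ((1040187392 : ℕ) : ℝ) / S ≤ x)
    (hx' : x ≤ (((1040187392 : ℕ) : ℝ) + (5207648 : ℕ)) / S) :
    AltB (VFD κ) PP tK tL pcB [⟨3, 0, 0, 1449551462⟩] 0 2 3 0 5 (sgb false) (sgb false) x :=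
  strip_altBD (m := 1449551462) true rfl hκ (SH.κ0 hκ (SH.hx1 hx).le (SH.hx2 hx').le) (SH.hx1 hx).le (SH.hx2 hx') (covB00).cov (covB53).cov hx hx' c_B05mm_023_s1 cutB_nil (noExt_B)

noncomputable def cut_B05mm_033_s1 : Cut := Cut.of [[⟨4, 0, 0, 1449551462⟩]]

noncomputable def f_B05mm_033_s1 : ℕ → ℕ → ℕ → ℕ → Bool := onCell 0 536870912 0 1230186008 1040187392 5207648
    (rowF 0 false false false .pnn 0 3 3 (qsf 0 536870912 0 1230186008 3) ndB0q0 ndB5q3 pcB3 cut_B05mm_033_s1 Ext.none)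

def k0_B05mm_033_s1 : ∃ t, chk3 f_B05mm_033_s1 t 1 1 1 = true :=
  ⟨(l 5), by decide +kernel⟩

theorem c_B05mm_033_s1 : CertF 0 536870912 0 1230186008 1040187392 5207648 false false false .pnn 0 3 3
    ndB0q0 ndB5q3 pcB3 cut_B05mm_033_s1 Ext.none :=
  certF0 (fam := false) (s1 := false) (s2 := false) (a := 0) (b := 3) (c := 3) (cn := .pnn) (n1 := ndB0q0) (n2 := ndB5q3) (pc := pcB3) (cut := cut_B05mm_033_s1) (xt := Ext.none) (P1 := 0) (W1 := 536870912) (P2 := 0) (W2 := 1230186008) (P3 := 1040187392) (W3 := 5207648)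
    rfl k0_B05mm_033_s1

theorem s_B05mm_033_s1 {κ x : ℝ} (hκ : κ * h0 = ken x) (hx : ((1040187392 : ℕ) : ℝ) / S ≤ x)
    (hx' : x ≤ (((1040187392 : ℕ) : ℝ) + (5207648 : ℕ)) / S) :
    AltB (VFD κ) PP tK tL pcB [⟨3, 0, 0, 1449551462⟩] 0 3 3 0 5 (sgb false) (sgb false) x :=
  strip_altBD (m := 1449551462) true rfl hκ (SH.κ0 hκ (SH.hx1 hx).le (SH.hx2 hx').le) (SH.hx1 hx).le (SH.hx2 hx') (covB00).cov (covB53).cov hx hx' c_B05mm_033_s1 cutB_nil (noExt_B)

noncomputable def cut_B05mm_101_s1 : Cut := Cut.of [[⟨4, 0, 0, 1449551462⟩], [⟨0, 1, 0, 26843545⟩, ⟨1, 0, 0, 26843545⟩, ⟨2, 1, 0, 26843545⟩]]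

noncomputable def f_B05mm_101_s1 : ℕ → ℕ → ℕ → ℕ → Bool := onCell 536870912 536870912 0 536870912 1040187392 5207648
    (rowF 1 false false false .npn 1 0 1 (qsf 536870912 536870912 536870912 536870912 0) ndB0q1 ndB5q1 pcB0 cut_B05mm_101_s1 Ext.none)

def k0_B05mm_101_s1 : ∃ t, chk3 f_B05mm_101_s1 t 1 1 1 = true :=
  ⟨(a (l 3) (b (a (l 3) (b (a (l 3) (b (a (l 3) (b (b (a (l 3) (l 14)) (l 3)) (l 3))) (l 3))) (l 3))) (l 3))), by decide +kernel⟩

theorem c_B05mm_101_s1 : CertF 536870912 536870912 536870912 536870912 1040187392 5207648 false false false .npn 1 0 1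
    ndB0q1 ndB5q1 pcB0 cut_B05mm_101_s1 Ext.none :=
  certF1 (fam := false) (s1 := false) (s2 := false) (a := 1) (b := 0) (c := 1) (cn := .npn) (n1 := ndB0q1) (n2 := ndB5q1) (pc := pcB0) (cut := cut_B05mm_101_s1) (xt := Ext.none) (P1 := 536870912) (W1 := 536870912) (P2 := 536870912) (W2 := 536870912) (P3 := 1040187392) (W3 := 5207648)
    rfl (fun _ => rfl) k0_B05mm_101_s1

theorem s_B05mm_101_s1 {κ x : ℝ} (hκ : κ * h0 = ken x) (hx : ((1040187392 : ℕ) : ℝ) / S ≤ x)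
    (hx' : x ≤ (((1040187392 : ℕ) : ℝ) + (5207648 : ℕ)) / S)
    (H : CutB (VFD κ) PP tK tL pcB (Cut.of [[⟨0, 1, 0, 26843545⟩, ⟨1, 0, 0, 26843545⟩, ⟨2, 1, 0, 26843545⟩]]) 1 0 1 0 5 (sgb false) (sgb false) x) :
    AltB (VFD κ) PP tK tL pcB [⟨3, 0, 0, 1449551462⟩] 1 0 1 0 5 (sgb false) (sgb false) x :=
  strip_altBD (m := 1449551462) true rfl hκ (SH.κ0 hκ (SH.hx1 hx).le (SH.hx2 hx').le) (SH.hx1 hx).le (SH.hx2 hx') (covB01).cov (covB51).cov hx hx' c_B05mm_101_s1 H (noExt_B)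

noncomputable def cut_B05mm_102_s1 : Cut := Cut.of [[⟨4, 0, 0, 1449551462⟩], [⟨0, 1, 0, 26843545⟩, ⟨1, 0, 0, 26843545⟩, ⟨2, 1, 0, 26843545⟩]]

noncomputable def f_B05mm_102_s1 : ℕ → ℕ → ℕ → ℕ → Bool := onCell 536870912 536870912 0 536870912 1040187392 5207648
    (rowF 1 false false false .npp 1 0 2 (qsf 536870912 536870912 1073741824 536870912 0) ndB0q1 ndB5q2 pcB0 cut_B05mm_102_s1 Ext.none)

def k0_B05mm_102_s1 : ∃ t, chk3 f_B05mm_102_s1 t 1 1 1 = true :=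
  ⟨(a (l 3) (b (a (l 3) (b (a (l 3) (b (a (l 3) (a (l 3) (b (b (l 14) (l 3)) (l 3)))) (l 3))) (l 3))) (l 3))), by decide +kernel⟩

theorem c_B05mm_102_s1 : CertF 536870912 536870912 1073741824 536870912 1040187392 5207648 false false false .npp 1 0 2
    ndB0q1 ndB5q2 pcB0 cut_B05mm_102_s1 Ext.none :=
  certF1 (fam := false) (s1 := false) (s2 := false) (a := 1) (b := 0) (c := 2) (cn := .npp) (n1 := ndB0q1) (n2 := ndB5q2) (pc := pcB0) (cut := cut_B05mm_102_s1) (xt := Ext.none) (P1 := 536870912) (W1 := 536870912) (P2 := 1073741824) (W2 := 536870912) (P3 := 1040187392) (W3 := 5207648)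
    rfl (fun _ => rfl) k0_B05mm_102_s1

theorem s_B05mm_102_s1 {κ x : ℝ} (hκ : κ * h0 = ken x) (hx : ((1040187392 : ℕ) : ℝ) / S ≤ x)
    (hx' : x ≤ (((1040187392 : ℕ) : ℝ) + (5207648 : ℕ)) / S)
    (H : CutB (VFD κ) PP tK tL pcB (Cut.of [[⟨0, 1, 0, 26843545⟩, ⟨1, 0, 0, 26843545⟩, ⟨2, 1, 0, 26843545⟩]]) 1 0 2 0 5 (sgb false) (sgb false) x) :
    AltB (VFD κ) PP tK tL pcB [⟨3, 0, 0, 1449551462⟩] 1 0 2 0 5 (sgb false) (sgb false) x :=
  strip_altBD (m := 1449551462) true rfl hκ (SH.κ0 hκ (SH.hx1 hx).le (SH.hx2 hx').le) (SH.hx1 hx).le (SH.hx2 hx') (covB01).cov (covB52).cov hx hx' c_B05mm_102_s1 H (noExt_B)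

noncomputable def cut_B05mm_112_s1 : Cut := Cut.of [[⟨4, 0, 0, 1449551462⟩]]

noncomputable def f_B05mm_112_s1 : ℕ → ℕ → ℕ → ℕ → Bool := onCell 536870912 536870912 1073741824 536870912 1040187392 5207648
    (rowF 2 false false false .dn 1 1 2 (qsf 536870912 536870912 1073741824 536870912 1) ndB0q1 ndB5q2 pcB1 cut_B05mm_112_s1 Ext.none)

def k0_B05mm_112_s1 : ∃ t, chk3 f_B05mm_112_s1 t 1 1 1 = true :=
  ⟨(a (l 3) (l 5)), by decide +kernel⟩

theorem c_B05mm_112_s1 : CertF 536870912 536870912 1073741824 536870912 1040187392 5207648 false false false .dn 1 1 2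
    ndB0q1 ndB5q2 pcB1 cut_B05mm_112_s1 Ext.none :=
  certF2 (fam := false) (s1 := false) (s2 := false) (a := 1) (b := 1) (c := 2) (cn := .dn) (n1 := ndB0q1) (n2 := ndB5q2) (pc := pcB1) (cut := cut_B05mm_112_s1) (xt := Ext.none) (P1 := 536870912) (W1 := 536870912) (P2 := 1073741824) (W2 := 536870912) (P3 := 1040187392) (W3 := 5207648)
    rfl (fun _ => rfl) k0_B05mm_112_s1

theorem s_B05mm_112_s1 {κ x : ℝ} (hκ : κ * h0 = ken x) (hx : ((1040187392 : ℕ) : ℝ) / S ≤ x)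
    (hx' : x ≤ (((1040187392 : ℕ) : ℝ) + (5207648 : ℕ)) / S) :
    AltB (VFD κ) PP tK tL pcB [⟨3, 0, 0, 1449551462⟩] 1 1 2 0 5 (sgb false) (sgb false) x :=
  strip_altBD (m := 1449551462) true rfl hκ (SH.κ0 hκ (SH.hx1 hx).le (SH.hx2 hx').le) (SH.hx1 hx).le (SH.hx2 hx') (covB01).cov (covB52).cov hx hx' c_B05mm_112_s1 cutB_nil (noExt_B)

noncomputable def cut_B05mm_113_s1 : Cut := Cut.of [[⟨4, 0, 0, 1449551462⟩]]

noncomputable def f_B05mm_113_s1 : ℕ → ℕ → ℕ → ℕ → Bool := onCell 536870912 536870912 0 1230186008 1040187392 5207648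
    (rowF 0 false false false .nn 1 1 3 (qsf 536870912 536870912 0 1230186008 1) ndB0q1 ndB5q3 pcB1 cut_B05mm_113_s1 Ext.none)

def k0_B05mm_113_s1 : ∃ t, chk3 f_B05mm_113_s1 t 1 1 1 = true :=
  ⟨(a (l 5) (b (l 5) (a (b (l 5) (l 3)) (l 3)))), by decide +kernel⟩

theorem c_B05mm_113_s1 : CertF 536870912 536870912 0 1230186008 1040187392 5207648 false false false .nn 1 1 3
    ndB0q1 ndB5q3 pcB1 cut_B05mm_113_s1 Ext.none :=
  certF0 (fam := false) (s1 := false) (s2 := false) (a := 1) (b := 1) (c := 3) (cn := .nn) (n1 := ndB0q1) (n2 := ndB5q3) (pc := pcB1) (cut := cut_B05mm_113_s1) (xt := Ext.none) (P1 := 536870912) (W1 := 536870912) (P2 := 0) (W2 := 1230186008) (P3 := 1040187392) (W3 := 5207648)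
    rfl k0_B05mm_113_s1

theorem s_B05mm_113_s1 {κ x : ℝ} (hκ : κ * h0 = ken x) (hx : ((1040187392 : ℕ) : ℝ) / S ≤ x)
    (hx' : x ≤ (((1040187392 : ℕ) : ℝ) + (5207648 : ℕ)) / S) :
    AltB (VFD κ) PP tK tL pcB [⟨3, 0, 0, 1449551462⟩] 1 1 3 0 5 (sgb false) (sgb false) x :=
  strip_altBD (m := 1449551462) true rfl hκ (SH.κ0 hκ (SH.hx1 hx).le (SH.hx2 hx').le) (SH.hx1 hx).le (SH.hx2 hx') (covB01).cov (covB53).cov hx hx' c_B05mm_113_s1 cutB_nil (noExt_B)

noncomputable def cut_B05mm_123_s1 : Cut := Cut.of [[⟨4, 0, 0, 1449551462⟩]]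

noncomputable def f_B05mm_123_s1 : ℕ → ℕ → ℕ → ℕ → Bool := onCell 1073741824 536870912 0 1230186008 1040187392 5207648
    (rowF 2 false false false .npn 1 2 3 (qsf 536870912 536870912 0 1230186008 2) ndB0q1 ndB5q3 pcB2 cut_B05mm_123_s1 Ext.none)

def k0_B05mm_123_s1 : ∃ t, chk3 f_B05mm_123_s1 t 1 1 1 = true :=
  ⟨(b (l 5) (l 5)), by decide +kernel⟩

theorem c_B05mm_123_s1 : CertF 536870912 536870912 0 1230186008 1040187392 5207648 false false false .npn 1 2 3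
    ndB0q1 ndB5q3 pcB2 cut_B05mm_123_s1 Ext.none :=
  certF2 (fam := false) (s1 := false) (s2 := false) (a := 1) (b := 2) (c := 3) (cn := .npn) (n1 := ndB0q1) (n2 := ndB5q3) (pc := pcB2) (cut := cut_B05mm_123_s1) (xt := Ext.none) (P1 := 536870912) (W1 := 536870912) (P2 := 0) (W2 := 1230186008) (P3 := 1040187392) (W3 := 5207648)
    rfl (fun _ => rfl) k0_B05mm_123_s1

theorem s_B05mm_123_s1 {κ x : ℝ} (hκ : κ * h0 = ken x) (hx : ((1040187392 : ℕ) : ℝ) / S ≤ x)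
    (hx' : x ≤ (((1040187392 : ℕ) : ℝ) + (5207648 : ℕ)) / S) :
    AltB (VFD κ) PP tK tL pcB [⟨3, 0, 0, 1449551462⟩] 1 2 3 0 5 (sgb false) (sgb false) x :=
  strip_altBD (m := 1449551462) true rfl hκ (SH.κ0 hκ (SH.hx1 hx).le (SH.hx2 hx').le) (SH.hx1 hx).le (SH.hx2 hx') (covB01).cov (covB53).cov hx hx' c_B05mm_123_s1 cutB_nil (noExt_B)

noncomputable def cut_B05mm_133_s1 : Cut := Cut.of [[⟨4, 0, 0, 1449551462⟩]]

noncomputable def f_B05mm_133_s1 : ℕ → ℕ → ℕ → ℕ → Bool := onCell 1610612736 536870912 0 1230186008 1040187392 5207648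
    (rowF 2 false false false .dn 1 3 3 (qsf 536870912 536870912 0 1230186008 3) ndB0q1 ndB5q3 pcB3 cut_B05mm_133_s1 Ext.none)

def k0_B05mm_133_s1 : ∃ t, chk3 f_B05mm_133_s1 t 1 1 1 = true :=
  ⟨(l 5), by decide +kernel⟩

theorem c_B05mm_133_s1 : CertF 536870912 536870912 0 1230186008 1040187392 5207648 false false false .dn 1 3 3
    ndB0q1 ndB5q3 pcB3 cut_B05mm_133_s1 Ext.none :=
  certF2 (fam := false) (s1 := false) (s2 := false) (a := 1) (b := 3) (c := 3) (cn := .dn) (n1 := ndB0q1) (n2 := ndB5q3) (pc := pcB3) (cut := cut_B05mm_133_s1) (xt := Ext.none) (P1 := 536870912) (W1 := 536870912) (P2 := 0) (W2 := 1230186008) (P3 := 1040187392) (W3 := 5207648)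
    rfl (fun _ => rfl) k0_B05mm_133_s1

theorem s_B05mm_133_s1 {κ x : ℝ} (hκ : κ * h0 = ken x) (hx : ((1040187392 : ℕ) : ℝ) / S ≤ x)
    (hx' : x ≤ (((1040187392 : ℕ) : ℝ) + (5207648 : ℕ)) / S) :
    AltB (VFD κ) PP tK tL pcB [⟨3, 0, 0, 1449551462⟩] 1 3 3 0 5 (sgb false) (sgb false) x :=
  strip_altBD (m := 1449551462) true rfl hκ (SH.κ0 hκ (SH.hx1 hx).le (SH.hx2 hx').le) (SH.hx1 hx).le (SH.hx2 hx') (covB01).cov (covB53).cov hx hx' c_B05mm_133_s1 cutB_nil (noExt_B)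

noncomputable def cut_B05mm_202_s1 : Cut := Cut.of [[⟨4, 0, 0, 1449551462⟩], [⟨0, 1, 0, 22369621⟩, ⟨1, 0, 0, 22369621⟩, ⟨2, 1, 0, 22369621⟩]]

noncomputable def xt_B05mm_202_s1 : Ext := strExt dd false false false .u2 .s2m .u0m .pp 2 0 2 rfl rfl gf0 vv ndB0q2 ndB5q2

noncomputable def f_B05mm_202_s1 : ℕ → ℕ → ℕ → ℕ → Bool := onCell 0 536870912 0 536870912 1040187392 5207648
    (rowF 1 false false false .pp 2 0 2 (qsf 0 536870912 1073741824 536870912 0) ndB0q2 ndB5q2 pcB0 cut_B05mm_202_s1 xt_B05mm_202_s1)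

def k0_B05mm_202_s1 : ∃ t, chk3 f_B05mm_202_s1 t 2 1 1 = true :=
  ⟨(b (a (b (l 6) (b (l 6) (a (l 6) (a (l 6) (b (b (l 6) (l 15907328)) (b (l 15931576) (l 16093064))))))) (b (b (b (l 6) (b (b (l 15898736) (l 15988408)) (l 15806192))) (a (a (l 6) (l 6)) (b (b (l 16016824) (a (l 15930640) (l 16001848))) (b (a (l 15877576) (b (l 15963008) (l 15989080))) (a (b (l 15842528) (l 15876728)) (l 16050584)))))) (a (b (a (b (l 6) (l 15790640)) (b (b (l 15570504) (l 15840816)) (b (l 15970760) (a (l 16055896) (l 16136224))))) (b (a (b (l 15715384) (l 16087592)) (l 16011264)) (l 16246664))) (b (b (a (b (l 15948152) (l 15993200)) (b (a (l 16106768) (l 16215064)) (a (l 16210080) (l 16274960)))) (b (a (a (l 16138864) (l 16204112)) (l 16300128)) (l 16287744))) (b (a (l 16312640) (b (l 16400704) (l 16376048))) (a (b (l 16392872) (l 16368744)) (b (a (l 16482168) (l 16526208)) (l 16460648)))))))) (b (a (b (b (a (l 6) (a (l 16037608)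 (l 16184008))) (a (a (l 6) (l 16047480)) (l 16238904))) (a (b (l 16114856) (l 16239600)) (b (a (l 16299456) (b (l 16389824) (l 16445792))) (a (l 468787927079) (l 416174830023))))) (b (a (b (a (l 16300688) (b (l 16388248) (l 16447848))) (a (b (l 16387944) (l 16445608)) (b (l 16489232) (l 16538184)))) (a (b (b (l 16410032) (l 16539920)) (l 525009935)) (l 524283407))) (a (b (a (b (l 16487552) (l 16537344)) (l 16518600)) (l 526235919)) (a (l 525286415) (l 524683791))))) (a (l 2) (a (l 2) (a (l 2) (l 3)))))), by decide +kernel⟩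

def k1_B05mm_202_s1 : ∃ t, chk3 f_B05mm_202_s1 t 6 2 1 = true :=
  ⟨(b (a (b (b (b (l 16157544) (b (l 16164784) (l 16214096))) (b (b (l 16262032) (l 16252368)) (b (l 16228728) (a (l 16161352) (l 16247896))))) (b (b (a (b (l 16133440) (l 16111016)) (b (l 16215952) (l 16210096))) (a (b (l 16086488) (l 16100400)) (l 16246624))) (b (a (l 16149544) (a (l 16128368) (b (l 16350376) (l 16372776)))) (a (a (l 16210176) (l 16120704)) (a (l 16345856) (l 16411096)))))) (b (a (b (b (l 16312448) (b (l 16321256) (l 16372712))) (b (b (l 16421584) (l 16407376)) (b (l 16285264) (l 16337600)))) (b (b (l 16414056) (b (l 16431032) (l 16486984))) (b (b (b (l 16532472) (l 16454600)) (a (l 16481760) (l 16531200))) (b (l 16476712) (a (l 16436560) (l 16506480)))))) (b (b (a (b (l 16339848) (l 16359104)) (a (b (l 16447792) (l 16463272)) (b (l 16427672) (l 16525392)))) (a (b (a (l 16348472) (l 16422848)) (a (l 16386848) (l 16444096)))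 (a (l 16489488) (l 16548000)))) (a (b (a (l 16416512) (l 16477504)) (l 16493984)) (b (a (l 16532816) (b (l 16579768) (l 16518048))) (a (b (l 16571168) (l 16590472)) (b (l 16618816) (l 16643192)))))))) (b (a (b (a (b (a (l 16277528) (l 16345752)) (l 16363680)) (b (l 16428264) (l 16397384))) (a (b (l 16412256) (l 16385704)) (b (a (l 16503800) (l 16468144)) (a (l 16543888) (l 16597184))))) (a (b (b (a (l 16513360) (b (l 16561928) (l 16579752))) (a (b (l 16552656) (l 16570288)) (l 16612104))) (l 522459663)) (b (a (b (l 16535192) (l 16580816)) (l 521786383)) (a (l 521863695) (l 521429007))))) (a (b (a (b (a (l 16491992) (l 16536880)) (a (l 16531000) (l 16583792))) (l 523019279)) (a (l 523639823) (l 522917391))) (a (b (l 522237967) (l 522112015)) (a (b (l 521618959) (l 3)) (l 3)))))), by decide +kernel⟩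

def k2_B05mm_202_s1 : ∃ t, chk3 f_B05mm_202_s1 t 14 4 1 = true :=
  ⟨(b (a (b (b (l 16514320) (b (b (l 16521640) (l 16554672)) (b (l 16501328) (l 16608488)))) (b (b (b (l 16628768) (l 16628848)) (a (l 16580248) (b (l 16635280) (l 16631016)))) (b (a (l 16569448) (b (l 16626120) (l 16623488))) (a (a (l 16554192) (l 16581024)) (l 16629728))))) (b (b (b (l 16509168) (a (l 16508400) (b (l 16543072) (l 16626168)))) (b (a (b (a (l 16585608) (l 16605760)) (l 16628528)) (b (l 16642256) (l 16673008))) (a (l 16668336) (a (l 16695504) (b (l 16703368) (l 16715232)))))) (b (b (b (a (l 16686720) (l 16714288)) (a (l 16688328) (a (l 16708880) (l 16724464)))) (a (a (l 16586656) (l 16691848)) (l 16724904))) (a (b (l 16685312) (b (l 16605696) (l 16694616))) (b (a (l 16724784) (b (l 16738056) (l 16743248))) (a (b (l 16732144) (l 16731048)) (b (l 16747344) (l 16746528)))))))) (b (a (b (a (l 16495608) (b (l 16637048) (a (l 16631720)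 (l 16581696)))) (a (b (l 16598344) (a (l 16600272) (l 16630664))) (a (b (l 16646296) (l 16655416)) (b (l 16670696) (l 16683056))))) (a (b (b (a (l 16603328) (b (l 16628144) (l 16711656))) (a (b (l 16690232) (l 16692504)) (l 16714648))) (a (b (l 16698088) (l 16710016)) (b (l 16722656) (l 523072271)))) (b (a (b (l 16646992) (l 16713928)) (b (b (l 16745992) (l 16747752)) (b (l 16709584) (l 525773839)))) (a (b (l 524534543) (l 523253519)) (b (l 524562191) (l 523289615)))))) (a (a (b (b (a (l 16620088) (l 16645576)) (l 16652712)) (l 521743631)) (b (a (l 521295375) (b (l 16698872) (l 16634760))) (b (a (l 16713576) (l 521688591)) (l 521292047)))) (a (b (a (b (l 16684792) (l 521252879)) (l 521798671)) (a (b (l 521074447) (a (l 521025039) (l 3))) (b (l 521434895) (l 3)))) (b (a (l 522006287) (l 3)) (l 3)))))), by decide +kernel⟩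

def k3_B05mm_202_s1 : ∃ t, chk3 f_B05mm_202_s1 t 15 32 1 = true :=
  ⟨(a (b (a (a (l 16555272) (b (l 16648688) (l 16652128))) (b (a (l 16664056) (l 16684800)) (l 16679712))) (a (b (l 16569512) (l 16668016)) (b (l 16697568) (a (l 16701768) (a (l 16722768) (l 16739912)))))) (a (b (b (a (l 16704312) (l 14)) (a (l 16632936) (a (l 16737976) (l 14)))) (a (b (a (l 16733240) (b (l 16742280) (l 16751328))) (b (a (l 16748896) (l 16754360)) (l 16751344))) (b (a (b (l 16735152) (l 16754088)) (b (b (l 16757232) (l 16758160)) (l 16763216))) (a (b (l 16760064) (l 16759072)) (b (a (l 16762576) (l 16764096)) (a (l 16762792) (l 16766424))))))) (b (l 14) (a (b (a (a (b (l 14) (a (l 16765456) (l 16768584))) (l 14)) (l 14)) (a (a (b (l 16725088) (l 16728320)) (a (l 528091663) (l 528122383))) (a (a (l 528152591) (l 528182799)) (b (l 14) (l 3))))) (l 14))))), by decide +kernel⟩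

def k4_B05mm_202_s1 : ∃ t, chk3 f_B05mm_202_s1 t 15 33 1 = true :=
  ⟨(a (b (a (a (l 16604064) (b (l 16696264) (a (l 16714336) (l 16723192)))) (a (b (b (l 16715792) (l 16726576)) (l 16733552)) (b (a (b (l 16738280) (l 16739416)) (b (b (l 16744616) (l 16745040)) (l 16745112))) (l 16745000)))) (a (a (b (l 16718176) (l 16725736)) (b (l 16728944) (l 16734488))) (a (b (l 16738576) (l 16747248)) (b (a (l 16749720) (l 16756024)) (a (l 16756680) (l 16762160)))))) (a (b (a (b (a (l 16749848) (b (l 16754600) (l 16757000))) (a (l 16766136) (b (l 16759720) (l 16763312)))) (a (b (b (l 16760488) (l 16721288)) (b (l 16682760) (l 16769592))) (a (l 528767503) (a (l 528825359) (l 528857615))))) (a (a (b (l 16761264) (l 16767088)) (b (l 16767616) (l 530312975))) (a (a (l 529987599) (l 529934095)) (a (a (l 529959951) (l 529977103)) (l 3))))) (b (a (a (a (a (l 528889871) (l 528922127)) (a (l 528954639) (l 528986895))) (l 3))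 (l 3)) (l 3)))), by decide +kernel⟩

def k5_B05mm_202_s1 : ∃ t, chk3 f_B05mm_202_s1 t 15 17 1 = true :=
  ⟨(a (b (a (b (a (l 16734632) (b (l 16742424) (l 16744016))) (a (b (l 16738448) (l 16738960)) (b (a (l 16742280) (l 16749288)) (l 16750792)))) (a (b (a (b (l 16749440) (l 16752032)) (b (l 16754912) (l 16758128))) (l 530486031)) (a (b (l 16762368) (l 530934799)) (b (l 530788879) (l 530566671))))) (a (a (b (b (l 16744736) (l 16751096)) (a (l 16755352) (l 16760720))) (a (b (l 16757072) (b (l 16764344) (l 16766896))) (l 530683407))) (a (a (l 530077711) (l 529532943)) (a (l 529050895) (l 3))))) (b (a (a (a (b (l 530582031) (l 530264079)) (b (a (l 530517519) (l 530412559)) (l 3))) (l 3)) (l 3)) (l 3))), by decide +kernel⟩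

def k6_B05mm_202_s1 : ∃ t, chk3 f_B05mm_202_s1 t 15 9 1 = true :=
  ⟨(b (a (a (b (a (b (a (b (l 16756752) (l 16759792)) (b (l 16721784) (l 527574799))) (a (l 526143247) (l 526041615))) (b (a (b (a (l 528990991) (l 528649999)) (a (l 527471887) (b (l 527656207) (l 527037455)))) (b (l 528117775) (l 525789711))) (a (l 525898255) (l 3)))) (a (b (a (l 524494095) (l 3)) (l 3)) (l 3))) (l 3)) (l 3)) (l 3)), by decide +kernel⟩

def k7_B05mm_202_s1 : ∃ t, chk3 f_B05mm_202_s1 t 7 5 1 = true :=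
  ⟨(b (a (a (a (b (l 521349135) (l 520971791)) (b (a (l 521021711) (l 520788239)) (l 3))) (l 3)) (l 3)) (l 3)), by decide +kernel⟩

def k8_B05mm_202_s1 : ∃ t, chk3 f_B05mm_202_s1 t 3 3 1 = true :=
  ⟨(a (b (a (b (a (b (l 523648271) (l 523746575)) (b (l 522908943) (l 3))) (l 3)) (l 3)) (l 3)) (l 3)), by decide +kernel⟩

theorem t9_B05mm_202_s1 : ∃ t, chk3 f_B05mm_202_s1 t 15 16 1 = true := ex3_b k3_B05mm_202_s1 k4_B05mm_202_s1

theorem t10_B05mm_202_s1 : ∃ t, chk3 f_B05mm_202_s1 t 15 8 1 = true := ex3_b t9_B05mm_202_s1 k5_B05mm_202_s1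

theorem t11_B05mm_202_s1 : ∃ t, chk3 f_B05mm_202_s1 t 15 4 1 = true := ex3_b t10_B05mm_202_s1 k6_B05mm_202_s1

theorem t12_B05mm_202_s1 : ∃ t, chk3 f_B05mm_202_s1 t 7 4 1 = true := ex3_a k2_B05mm_202_s1 t11_B05mm_202_s1

theorem t13_B05mm_202_s1 : ∃ t, chk3 f_B05mm_202_s1 t 7 2 1 = true := ex3_b t12_B05mm_202_s1 k7_B05mm_202_s1

theorem t14_B05mm_202_s1 : ∃ t, chk3 f_B05mm_202_s1 t 3 2 1 = true := ex3_a k1_B05mm_202_s1 t13_B05mm_202_s1

theorem t15_B05mm_202_s1 : ∃ t, chk3 f_B05mm_202_s1 t 3 1 1 = true := ex3_b t14_B05mm_202_s1 k8_B05mm_202_s1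

theorem t16_B05mm_202_s1 : ∃ t, chk3 f_B05mm_202_s1 t 1 1 1 = true := ex3_a k0_B05mm_202_s1 t15_B05mm_202_s1

theorem c_B05mm_202_s1 : CertF 0 536870912 1073741824 536870912 1040187392 5207648 false false false .pp 2 0 2
    ndB0q2 ndB5q2 pcB0 cut_B05mm_202_s1 xt_B05mm_202_s1 :=
  certF1 (fam := false) (s1 := false) (s2 := false) (a := 2) (b := 0) (c := 2) (cn := .pp) (n1 := ndB0q2) (n2 := ndB5q2) (pc := pcB0) (cut := cut_B05mm_202_s1) (xt := xt_B05mm_202_s1) (P1 := 0) (W1 := 536870912) (P2 := 1073741824) (W2 := 536870912) (P3 := 1040187392) (W3 := 5207648)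
    rfl (fun _ => rfl) t16_B05mm_202_s1

theorem s_B05mm_202_s1 {κ x : ℝ} (hκ : κ * h0 = ken x) (hx : ((1040187392 : ℕ) : ℝ) / S ≤ x)
    (hx' : x ≤ (((1040187392 : ℕ) : ℝ) + (5207648 : ℕ)) / S)
    (H : CutB (VFD κ) PP tK tL pcB (Cut.of [[⟨0, 1, 0, 22369621⟩, ⟨1, 0, 0, 22369621⟩, ⟨2, 1, 0, 22369621⟩]]) 2 0 2 0 5 (sgb false) (sgb false) x) :
    AltB (VFD κ) PP tK tL pcB [⟨3, 0, 0, 1449551462⟩] 2 0 2 0 5 (sgb false) (sgb false) x :=
  strip_altBD (m := 1449551462) true rfl hκ (SH.κ0 hκ (SH.hx1 hx).le (SH.hx2 hx').le) (SH.hx1 hx).le (SH.hx2 hx') (covB02).cov (covB52).cov hx hx' c_B05mm_202_s1 H ((okx hx hx').extB (T := tt) (sideB hx hx') hκ rfl rfl (.O 2 false) (.N 2 false) (Or.inl rfl))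

noncomputable def cut_B05mm_203_s1 : Cut := Cut.of [[⟨4, 0, 0, 1449551462⟩]]

noncomputable def xt_B05mm_203_s1 : Ext := strExt dd false false false .u2 .s2m .u0m .up 2 0 3 rfl rfl gf0 vv ndB0q2 ndB5q3

noncomputable def f_B05mm_203_s1 : ℕ → ℕ → ℕ → ℕ → Bool := onCell 0 536870912 0 1230186008 1040187392 5207648
    (rowF 0 false false false .up 2 0 3 (qsf 0 536870912 0 1230186008 0) ndB0q2 ndB5q3 pcB0 cut_B05mm_203_s1 xt_B05mm_203_s1)

def k0_B05mm_203_s1 : ∃ t, chk3 f_B05mm_203_s1 t 1 1 1 = true :=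
  ⟨(b (l 2) (b (l 2) (a (b (a (b (l 2) (a (l 529547279) (l 529175567))) (l 3)) (a (b (a (b (a (l 16550752) (l 16630976)) (a (b (l 16484032) (l 16436088)) (l 16462832))) (b (l 528444943) (l 527963151))) (a (b (a (l 16334872) (b (l 16477640) (l 16427656))) (l 16257872)) (b (a (b (l 16571168) (l 16522008)) (l 527372303)) (a (b (l 16471128) (l 16418368)) (b (l 16570144) (l 16516328)))))) (b (a (a (l 527757327) (l 3)) (l 3)) (a (b (l 526871311) (l 526429967)) (b (l 3) (a (l 525799439) (l 3))))))) (l 3)))), by decide +kernel⟩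

theorem c_B05mm_203_s1 : CertF 0 536870912 0 1230186008 1040187392 5207648 false false false .up 2 0 3
    ndB0q2 ndB5q3 pcB0 cut_B05mm_203_s1 xt_B05mm_203_s1 :=
  certF0 (fam := false) (s1 := false) (s2 := false) (a := 2) (b := 0) (c := 3) (cn := .up) (n1 := ndB0q2) (n2 := ndB5q3) (pc := pcB0) (cut := cut_B05mm_203_s1) (xt := xt_B05mm_203_s1) (P1 := 0) (W1 := 536870912) (P2 := 0) (W2 := 1230186008) (P3 := 1040187392) (W3 := 5207648)
    rfl k0_B05mm_203_s1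

theorem s_B05mm_203_s1 {κ x : ℝ} (hκ : κ * h0 = ken x) (hx : ((1040187392 : ℕ) : ℝ) / S ≤ x)
    (hx' : x ≤ (((1040187392 : ℕ) : ℝ) + (5207648 : ℕ)) / S) :
    AltB (VFD κ) PP tK tL pcB [⟨3, 0, 0, 1449551462⟩] 2 0 3 0 5 (sgb false) (sgb false) x :=
  strip_altBD (m := 1449551462) true rfl hκ (SH.κ0 hκ (SH.hx1 hx).le (SH.hx2 hx').le) (SH.hx1 hx).le (SH.hx2 hx') (covB02).cov (covB53).cov hx hx' c_B05mm_203_s1 cutB_nil ((okx hx hx').extB (T := tt) (sideB hx hx') hκ rfl rfl (.O 2 false) (.N 3 false) (Or.inl rfl))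

noncomputable def cut_B05mm_213_s1 : Cut := Cut.of [[⟨4, 0, 0, 1449551462⟩]]

noncomputable def xt_B05mm_213_s1 : Ext := strExt dd false false false .u2 .s2m .u0m .pnn 2 1 3 rfl rfl gf1 vv ndB0q2 ndB5q3

noncomputable def f_B05mm_213_s1 : ℕ → ℕ → ℕ → ℕ → Bool := onCell 0 536870912 0 1230186008 1040187392 5207648
    (rowF 0 false false false .pnn 2 1 3 (qsf 0 536870912 0 1230186008 1) ndB0q2 ndB5q3 pcB1 cut_B05mm_213_s1 xt_B05mm_213_s1)

def k0_B05mm_213_s1 : ∃ t, chk3 f_B05mm_213_s1 t 1 1 1 = true :=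
  ⟨(b (a (l 3) (b (l 5) (l 3))) (b (a (a (b (l 3) (l 3)) (l 3)) (l 3)) (a (b (a (b (a (l 519409167) (l 3)) (a (l 518951439) (b (l 518092815) (l 518050575)))) (l 3)) (a (l 1) (b (a (l 1) (l 3)) (l 1)))) (l 3)))), by decide +kernel⟩

theorem c_B05mm_213_s1 : CertF 0 536870912 0 1230186008 1040187392 5207648 false false false .pnn 2 1 3
    ndB0q2 ndB5q3 pcB1 cut_B05mm_213_s1 xt_B05mm_213_s1 :=
  certF0 (fam := false) (s1 := false) (s2 := false) (a := 2) (b := 1) (c := 3) (cn := .pnn) (n1 := ndB0q2) (n2 := ndB5q3) (pc := pcB1) (cut := cut_B05mm_213_s1) (xt := xt_B05mm_213_s1) (P1 := 0) (W1 := 536870912) (P2 := 0) (W2 := 1230186008) (P3 := 1040187392) (W3 := 5207648)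
    rfl k0_B05mm_213_s1

theorem s_B05mm_213_s1 {κ x : ℝ} (hκ : κ * h0 = ken x) (hx : ((1040187392 : ℕ) : ℝ) / S ≤ x)
    (hx' : x ≤ (((1040187392 : ℕ) : ℝ) + (5207648 : ℕ)) / S) :
    AltB (VFD κ) PP tK tL pcB [⟨3, 0, 0, 1449551462⟩] 2 1 3 0 5 (sgb false) (sgb false) x :=
  strip_altBD (m := 1449551462) true rfl hκ (SH.κ0 hκ (SH.hx1 hx).le (SH.hx2 hx').le) (SH.hx1 hx).le (SH.hx2 hx') (covB02).cov (covB53).cov hx hx' c_B05mm_213_s1 cutB_nil ((okx hx hx').extB (T := tt) (sideB hx hx') hκ rfl rfl (.O 2 false) (.N 3 false) (Or.inr rfl))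

noncomputable def cut_B50pp_001_s1 : Cut := Cut.of [[⟨4, 0, 0, 1449551462⟩]]

noncomputable def xt_B50pp_001_s1 : Ext := strExt dd false true true .s0 .u0 .u0m .up 0 0 1 rfl rfl gf0 vv ndB5q0 ndB0q1

noncomputable def f_B50pp_001_s1 : ℕ → ℕ → ℕ → ℕ → Bool := onCell 0 536870912 536870912 536870912 1040187392 5207648
    (rowF 2 false true true .up 0 0 1 (qsf 0 536870912 536870912 536870912 0) ndB5q0 ndB0q1 pcB0 cut_B50pp_001_s1 xt_B50pp_001_s1)

def k0_B50pp_001_s1 : ∃ t, chk3 f_B50pp_001_s1 t 1 1 1 = true :=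
  ⟨(a (b (l 3) (b (b (l 3) (l 2)) (l 2))) (b (a (l 3) (b (l 3) (a (b (l 3) (l 515048207)) (b (l 514612751) (a (l 515877391) (l 516488719)))))) (b (a (a (b (b (l 3) (l 515045647)) (a (l 2) (l 516029199))) (b (l 515346959) (a (l 516319247) (l 516695567)))) (b (a (l 516240911) (l 517441039)) (a (a (l 517156111) (b (l 16348176) (l 16210976))) (b (l 518340367) (a (b (l 16167544) (l 16094616)) (b (l 16087688) (l 16009704))))))) (b (a (a (l 2) (b (b (l 517143055) (l 2)) (l 2))) (a (b (a (b (l 16188344) (l 16027608)) (b (l 16102840) (l 16006712))) (a (b (l 16006808) (l 2)) (b (l 15903640) (l 15796832)))) (b (a (l 15957296) (l 15862992)) (a (l 15751584) (l 15660720))))) (a (l 2) (b (a (b (a (l 2) (l 15685248)) (l 2)) (b (l 15457944) (l 6))) (a (l 2) (l 6)))))))), by decide +kernel⟩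

theorem c_B50pp_001_s1 : CertF 0 536870912 536870912 536870912 1040187392 5207648 false true true .up 0 0 1
    ndB5q0 ndB0q1 pcB0 cut_B50pp_001_s1 xt_B50pp_001_s1 :=
  certF2 (fam := false) (s1 := true) (s2 := true) (a := 0) (b := 0) (c := 1) (cn := .up) (n1 := ndB5q0) (n2 := ndB0q1) (pc := pcB0) (cut := cut_B50pp_001_s1) (xt := xt_B50pp_001_s1) (P1 := 0) (W1 := 536870912) (P2 := 536870912) (W2 := 536870912) (P3 := 1040187392) (W3 := 5207648)
    rfl (fun _ => rfl) k0_B50pp_001_s1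

theorem s_B50pp_001_s1 {κ x : ℝ} (hκ : κ * h0 = ken x) (hx : ((1040187392 : ℕ) : ℝ) / S ≤ x)
    (hx' : x ≤ (((1040187392 : ℕ) : ℝ) + (5207648 : ℕ)) / S) :
    AltB (VFD κ) PP tK tL pcB [⟨3, 0, 0, 1449551462⟩] 0 0 1 5 0 (sgb true) (sgb true) x :=
  strip_altBD (m := 1449551462) true rfl hκ (SH.κ0 hκ (SH.hx1 hx).le (SH.hx2 hx').le) (SH.hx1 hx).le (SH.hx2 hx') (covB50).cov (covB01).cov hx hx' c_B50pp_001_s1 cutB_nil ((okx hx hx').extB (T := tt) (sideB hx hx') hκ rfl rfl (.N 0 true) (.O 1 true) (Or.inl rfl))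

noncomputable def cut_B50pp_011_s1 : Cut := Cut.of [[⟨4, 0, 0, 1449551462⟩]]

noncomputable def xt_B50pp_011_s1 : Ext := strExt dd false true true .s0 .u0 .u0m .pnn 0 1 1 rfl rfl gf1 vv ndB5q0 ndB0q1

noncomputable def f_B50pp_011_s1 : ℕ → ℕ → ℕ → ℕ → Bool := onCell 536870912 536870912 536870912 536870912 1040187392 5207648
    (rowF 2 false true true .pnn 0 1 1 (qsf 0 536870912 536870912 536870912 1) ndB5q0 ndB0q1 pcB1 cut_B50pp_011_s1 xt_B50pp_011_s1)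

def k0_B50pp_011_s1 : ∃ t, chk3 f_B50pp_011_s1 t 1 1 1 = true :=
  ⟨(a (b (a (b (a (b (l 3) (l 534421263)) (b (l 532213263) (l 534534671))) (a (b (l 532601359) (l 529987599)) (b (l 533663759) (l 531969551)))) (a (b (b (l 1) (a (l 532185871) (l 1))) (a (l 531773967) (b (l 16551536) (l 16421704)))) (b (l 1) (b (a (l 16460448) (l 1)) (a (b (l 16522880) (l 16471912)) (b (l 16401328) (l 16301864))))))) (b (a (b (a (b (l 528855823) (l 527699471)) (b (l 16467592) (a (l 16459920) (l 16367888)))) (a (b (a (b (l 16401224) (l 16343312)) (b (l 16386344) (l 16345248))) (a (l 16307096) (l 16322840))) (a (b (l 16370968) (l 16328368)) (l 16254040)))) (a (b (b (a (l 16527176) (l 16475208)) (a (l 16424400) (l 16356248))) (a (l 16223352) (l 6))) (b (a (l 16288664) (l 16093336)) (l 6)))) (b (a (b (a (a (l 16329800) (l 16338968)) (l 6)) (a (a (l 16248120) (l 6)) (l 6))) (l 6)) (l 6)))) (b (a (b (l 1) (a (b (l 1) (a (l 422012068967)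 (l 1))) (l 1))) (l 1)) (b (a (a (l 6) (l 6)) (l 6)) (l 6)))), by decide +kernel⟩

theorem c_B50pp_011_s1 : CertF 0 536870912 536870912 536870912 1040187392 5207648 false true true .pnn 0 1 1
    ndB5q0 ndB0q1 pcB1 cut_B50pp_011_s1 xt_B50pp_011_s1 :=
  certF2 (fam := false) (s1 := true) (s2 := true) (a := 0) (b := 1) (c := 1) (cn := .pnn) (n1 := ndB5q0) (n2 := ndB0q1) (pc := pcB1) (cut := cut_B50pp_011_s1) (xt := xt_B50pp_011_s1) (P1 := 0) (W1 := 536870912) (P2 := 536870912) (W2 := 536870912) (P3 := 1040187392) (W3 := 5207648)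
    rfl (fun _ => rfl) k0_B50pp_011_s1

theorem s_B50pp_011_s1 {κ x : ℝ} (hκ : κ * h0 = ken x) (hx : ((1040187392 : ℕ) : ℝ) / S ≤ x)
    (hx' : x ≤ (((1040187392 : ℕ) : ℝ) + (5207648 : ℕ)) / S) :
    AltB (VFD κ) PP tK tL pcB [⟨3, 0, 0, 1449551462⟩] 0 1 1 5 0 (sgb true) (sgb true) x :=
  strip_altBD (m := 1449551462) true rfl hκ (SH.κ0 hκ (SH.hx1 hx).le (SH.hx2 hx').le) (SH.hx1 hx).le (SH.hx2 hx') (covB50).cov (covB01).cov hx hx' c_B50pp_011_s1 cutB_nil ((okx hx hx').extB (T := tt) (sideB hx hx') hκ rfl rfl (.N 0 true) (.O 1 true) (Or.inr rfl))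

noncomputable def cut_B50pp_012_s1 : Cut := Cut.of [[⟨4, 0, 0, 1449551462⟩]]

noncomputable def f_B50pp_012_s1 : ℕ → ℕ → ℕ → ℕ → Bool := onCell 0 536870912 0 536870912 1040187392 5207648
    (rowF 0 false true true .pnp 0 1 2 (qsf 0 536870912 0 536870912 1) ndB5q0 ndB0q2 pcB1 cut_B50pp_012_s1 Ext.none)

def k0_B50pp_012_s1 : ∃ t, chk3 f_B50pp_012_s1 t 1 1 1 = true :=
  ⟨(b (l 6) (l 6)), by decide +kernel⟩

theorem c_B50pp_012_s1 : CertF 0 536870912 0 536870912 1040187392 5207648 false true true .pnp 0 1 2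
    ndB5q0 ndB0q2 pcB1 cut_B50pp_012_s1 Ext.none :=
  certF0 (fam := false) (s1 := true) (s2 := true) (a := 0) (b := 1) (c := 2) (cn := .pnp) (n1 := ndB5q0) (n2 := ndB0q2) (pc := pcB1) (cut := cut_B50pp_012_s1) (xt := Ext.none) (P1 := 0) (W1 := 536870912) (P2 := 0) (W2 := 536870912) (P3 := 1040187392) (W3 := 5207648)
    rfl k0_B50pp_012_s1

theorem s_B50pp_012_s1 {κ x : ℝ} (hκ : κ * h0 = ken x) (hx : ((1040187392 : ℕ) : ℝ) / S ≤ x)
    (hx' : x ≤ (((1040187392 : ℕ) : ℝ) + (5207648 : ℕ)) / S) :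
    AltB (VFD κ) PP tK tL pcB [⟨3, 0, 0, 1449551462⟩] 0 1 2 5 0 (sgb true) (sgb true) x :=
  strip_altBD (m := 1449551462) true rfl hκ (SH.κ0 hκ (SH.hx1 hx).le (SH.hx2 hx').le) (SH.hx1 hx).le (SH.hx2 hx') (covB50).cov (covB02).cov hx hx' c_B50pp_012_s1 cutB_nil (noExt_B)

noncomputable def cut_B50pp_022_s1 : Cut := Cut.of [[⟨4, 0, 0, 1449551462⟩]]

noncomputable def f_B50pp_022_s1 : ℕ → ℕ → ℕ → ℕ → Bool := onCell 1073741824 536870912 0 536870912 1040187392 5207648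
    (rowF 2 false true true .pp 0 2 2 (qsf 0 536870912 0 536870912 2) ndB5q0 ndB0q2 pcB2 cut_B50pp_022_s1 Ext.none)

def k0_B50pp_022_s1 : ∃ t, chk3 f_B50pp_022_s1 t 1 1 1 = true :=
  ⟨(l 6), by decide +kernel⟩

theorem c_B50pp_022_s1 : CertF 0 536870912 0 536870912 1040187392 5207648 false true true .pp 0 2 2
    ndB5q0 ndB0q2 pcB2 cut_B50pp_022_s1 Ext.none :=
  certF2 (fam := false) (s1 := true) (s2 := true) (a := 0) (b := 2) (c := 2) (cn := .pp) (n1 := ndB5q0) (n2 := ndB0q2) (pc := pcB2) (cut := cut_B50pp_022_s1) (xt := Ext.none) (P1 := 0) (W1 := 536870912) (P2 := 0) (W2 := 536870912) (P3 := 1040187392) (W3 := 5207648)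
    rfl (fun _ => rfl) k0_B50pp_022_s1

theorem s_B50pp_022_s1 {κ x : ℝ} (hκ : κ * h0 = ken x) (hx : ((1040187392 : ℕ) : ℝ) / S ≤ x)
    (hx' : x ≤ (((1040187392 : ℕ) : ℝ) + (5207648 : ℕ)) / S) :
    AltB (VFD κ) PP tK tL pcB [⟨3, 0, 0, 1449551462⟩] 0 2 2 5 0 (sgb true) (sgb true) x :=
  strip_altBD (m := 1449551462) true rfl hκ (SH.κ0 hκ (SH.hx1 hx).le (SH.hx2 hx').le) (SH.hx1 hx).le (SH.hx2 hx') (covB50).cov (covB02).cov hx hx' c_B50pp_022_s1 cutB_nil (noExt_B)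

noncomputable def cut_B50pp_101_s1 : Cut := Cut.of [[⟨4, 0, 0, 1449551462⟩], [⟨0, 1, 0, 22369621⟩, ⟨1, 0, 0, 22369621⟩, ⟨2, 1, 0, 22369621⟩]]

noncomputable def xt_B50pp_101_s1 : Ext := strExt dd false true true .s0 .u0 .u0m .npn 1 0 1 rfl rfl gf0 vv ndB5q1 ndB0q1

noncomputable def f_B50pp_101_s1 : ℕ → ℕ → ℕ → ℕ → Bool := onCell 0 536870912 536870912 536870912 1040187392 5207648
    (rowF 2 false true true .npn 1 0 1 (qsf 536870912 536870912 536870912 536870912 0) ndB5q1 ndB0q1 pcB0 cut_B50pp_101_s1 xt_B50pp_101_s1)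

def k0_B50pp_101_s1 : ∃ t, chk3 f_B50pp_101_s1 t 2 2 1 = true :=
  ⟨(l 3), by decide +kernel⟩

def k1_B50pp_101_s1 : ∃ t, chk3 f_B50pp_101_s1 t 4 6 1 = true :=
  ⟨(l 3), by decide +kernel⟩

def k2_B50pp_101_s1 : ∃ t, chk3 f_B50pp_101_s1 t 8 7 1 = true :=
  ⟨(b (l 3) (b (b (l 3) (a (l 3) (a (l 3) (b (l 3) (a (l 3) (l 527406095)))))) (a (a (b (l 3) (b (b (l 3) (a (l 3) (a (l 3) (a (l 3) (l 528195855))))) (b (a (l 14) (a (l 14) (a (b (l 527887119) (l 14)) (b (l 528077839) (l 527968783))))) (l 14)))) (b (a (l 3) (b (l 3) (b (l 3) (l 529179663)))) (b (a (b (a (l 3) (l 528989711)) (a (a (l 528387855) (l 528578063)) (l 528811535))) (a (b (l 529381391) (l 529211407)) (b (l 529902351) (l 16765336)))) (b (a (a (b (l 528294159) (l 16724032)) (a (l 16723088) (l 16678784))) (a (l 16675488) (l 16754856))) (a (b (a (l 16718152) (l 16671424)) (l 16751632)) (a (l 16746608) (l 16656600))))))) (a (b (b (a (l 3) (l 529232655))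 (a (b (l 529764623) (l 530057999)) (l 530091023))) (a (b (b (l 530256911) (l 16759848)) (b (b (l 16752696) (l 16746416)) (l 16731640))) (b (b (l 16759432) (l 16751496)) (b (l 16740624) (l 16719456))))) (a (b (b (l 529182223) (l 530103055)) (b (b (l 16751344) (l 16742912)) (l 16717952))) (b (l 527932175) (b (b (l 16741496) (l 16731224)) (l 16701504)))))))), by decide +kernel⟩

def k3_B50pp_101_s1 : ∃ t, chk3 f_B50pp_101_s1 t 9 7 1 = true :=
  ⟨(b (a (l 3) (b (l 3) (b (l 3) (a (l 3) (b (l 3) (a (l 518510351) (l 518241295))))))) (a (b (b (a (l 3) (a (l 3) (l 521492239))) (a (b (a (l 3) (l 524608783)) (a (b (l 526312975) (l 527022351)) (b (l 524770575) (l 525241871)))) (b (l 521768975) (a (b (l 523042831) (l 16694368)) (l 521687055))))) (b (a (a (b (l 528041743) (l 16740376)) (b (l 526859023) (l 16722824))) (b (a (l 524553231) (l 16691056)) (b (l 16605352) (l 16593568)))) (a (b (b (a (l 16727680) (l 16707512))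 (l 16705536)) (l 16672696)) (b (a (l 16592632) (l 16644720)) (l 16622184))))) (b (b (a (l 519473935) (a (l 518010895) (l 517367055))) (a (b (l 519361551) (a (l 16610128) (l 16665352))) (b (l 517565967) (l 16535896)))) (b (a (b (l 520614671) (a (l 16633768) (l 16600904))) (b (l 16582008) (l 16467072))) (a (b (l 16591008) (l 16554816)) (l 16412416)))))), by decide +kernel⟩

def k4_B50pp_101_s1 : ∃ t, chk3 f_B50pp_101_s1 t 5 3 1 = true :=
  ⟨(b (a (l 3) (b (l 3) (a (l 515696655) (l 515716623)))) (b (a (b (a (l 3) (l 516622607)) (a (b (l 517253391) (l 517555983)) (b (l 517080847) (l 517384719)))) (b (a (l 516545807) (l 516561679)) (a (l 517132047) (l 517147407)))) (a (b (a (b (a (b (l 517734671) (l 16593688)) (l 517566735)) (a (b (l 16608936) (l 16560856)) (b (l 16557576) (l 16508272)))) (b (a (l 16497448) (l 16530792)) (b (l 16395912) (a (l 16455208) (l 16406096))))) (a (b (b (a (l 16516408) (l 16462104)) (l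 16362792)) (a (l 16420504) (l 16347360))) (b (a (l 16378984) (l 16321232)) (l 16164080)))) (b (b (a (a (l 16479736) (l 16425256)) (a (l 16287856) (l 16238256))) (a (b (a (l 16403912) (l 16353584)) (l 16318592)) (l 16149488))) (b (a (l 16233456) (l 16114984)) (a (l 16126048) (l 16002984))))))), by decide +kernel⟩

def k5_B50pp_101_s1 : ∃ t, chk3 f_B50pp_101_s1 t 3 1 1 = true :=
  ⟨(b (a (l 3) (l 1)) (b (a (a (b (b (l 3) (l 515045647)) (a (l 515827471) (l 516029199))) (b (l 515346959) (a (l 516319247) (l 516695567)))) (b (l 1) (a (a (l 517156111) (l 1)) (l 1)))) (b (a (a (b (l 516661775) (b (l 517108495) (a (a (l 16363008) (l 16307232)) (b (l 16253624) (l 16209440))))) (b (a (l 16257312) (b (l 16284928) (l 16202176))) (b (a (l 16132928) (l 16120320)) (a (l 16122088) (l 16009152))))) (b (a (a (b (l 16189856) (l 16113072)) (b (l 1) (l 16008168))) (l 1)) (a (a (l 15787824) (l 15852008)) (a (l 15754160) (l 1)))))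 (a (b (a (b (a (a (l 16270480) (l 16210208)) (l 16122336)) (a (l 16116680) (l 16000480))) (b (a (l 16007984) (l 15896424)) (a (l 15886272) (l 15775448)))) (a (b (a (l 15996112) (l 15878408)) (a (l 15880280) (l 15759456))) (b (l 15622704) (l 15584232)))) (b (a (b (l 15736672) (l 15617872)) (b (l 15545968) (l 6))) (a (b (l 15495432) (l 6)) (l 6))))))), by decide +kernel⟩

theorem t6_B50pp_101_s1 : ∃ t, chk3 f_B50pp_101_s1 t 4 7 1 = true := ex3_a k2_B50pp_101_s1 k3_B50pp_101_s1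

theorem t7_B50pp_101_s1 : ∃ t, chk3 f_B50pp_101_s1 t 4 3 1 = true := ex3_b k1_B50pp_101_s1 t6_B50pp_101_s1

theorem t8_B50pp_101_s1 : ∃ t, chk3 f_B50pp_101_s1 t 2 3 1 = true := ex3_a t7_B50pp_101_s1 k4_B50pp_101_s1

theorem t9_B50pp_101_s1 : ∃ t, chk3 f_B50pp_101_s1 t 2 1 1 = true := ex3_b k0_B50pp_101_s1 t8_B50pp_101_s1

theorem t10_B50pp_101_s1 : ∃ t, chk3 f_B50pp_101_s1 t 1 1 1 = true := ex3_a t9_B50pp_101_s1 k5_B50pp_101_s1

theorem c_B50pp_101_s1 : CertF 536870912 536870912 536870912 536870912 1040187392 5207648 false true true .npn 1 0 1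
    ndB5q1 ndB0q1 pcB0 cut_B50pp_101_s1 xt_B50pp_101_s1 :=
  certF2 (fam := false) (s1 := true) (s2 := true) (a := 1) (b := 0) (c := 1) (cn := .npn) (n1 := ndB5q1) (n2 := ndB0q1) (pc := pcB0) (cut := cut_B50pp_101_s1) (xt := xt_B50pp_101_s1) (P1 := 536870912) (W1 := 536870912) (P2 := 536870912) (W2 := 536870912) (P3 := 1040187392) (W3 := 5207648)
    rfl (fun _ => rfl) t10_B50pp_101_s1

theorem s_B50pp_101_s1 {κ x : ℝ} (hκ : κ * h0 = ken x) (hx : ((1040187392 : ℕ) : ℝ) / S ≤ x)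
    (hx' : x ≤ (((1040187392 : ℕ) : ℝ) + (5207648 : ℕ)) / S)
    (H : CutB (VFD κ) PP tK tL pcB (Cut.of [[⟨0, 1, 0, 22369621⟩, ⟨1, 0, 0, 22369621⟩, ⟨2, 1, 0, 22369621⟩]]) 1 0 1 5 0 (sgb true) (sgb true) x) :
    AltB (VFD κ) PP tK tL pcB [⟨3, 0, 0, 1449551462⟩] 1 0 1 5 0 (sgb true) (sgb true) x :=
  strip_altBD (m := 1449551462) true rfl hκ (SH.κ0 hκ (SH.hx1 hx).le (SH.hx2 hx').le) (SH.hx1 hx).le (SH.hx2 hx') (covB51).cov (covB01).cov hx hx' c_B50pp_101_s1 H ((okx hx hx').extB (T := tt) (sideB hx hx') hκ rfl rfl (.N 1 true) (.O 1 true) (Or.inl rfl))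

noncomputable def cut_B50pp_102_s1 : Cut := Cut.of [[⟨4, 0, 0, 1449551462⟩], [⟨0, 1, 0, 26843545⟩, ⟨1, 0, 0, 26843545⟩, ⟨2, 1, 0, 26843545⟩]]

noncomputable def f_B50pp_102_s1 : ℕ → ℕ → ℕ → ℕ → Bool := onCell 0 536870912 0 536870912 1040187392 5207648
    (rowF 2 false true true .npp 1 0 2 (qsf 536870912 536870912 0 536870912 0) ndB5q1 ndB0q2 pcB0 cut_B50pp_102_s1 Ext.none)

def k0_B50pp_102_s1 : ∃ t, chk3 f_B50pp_102_s1 t 2 1 1 = true :=
  ⟨(b (a (l 6) (l 6)) (a (b (a (l 2) (b (l 6) (a (b (l 15218840) (a (l 15471800) (l 15330816))) (b (l 6) (a (l 15187632) (l 15057664)))))) (a (b (a (l 2) (a (b (l 2) (b (l 2) (a (l 16238536) (l 16186808)))) (b (b (l 2) (l 15876688)) (b (l 15986456) (l 16103856))))) (a (a (b (l 2) (l 14)) (b (a (b (l 2) (a (l 2) (l 16419640))) (b (l 16316976) (l 16339840))) (a (l 14) (b (b (l 16516800) (l 16499088)) (b (a (l 16650032) (l 16639720)) (l 16704776)))))) (b (a (a (b (l 16322896)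 (l 16416872)) (b (l 16279176) (l 16383784))) (b (l 16216840) (a (l 16353968) (l 16334584)))) (a (b (a (b (l 16501904) (l 16476832)) (b (l 16476400) (l 16540848))) (b (l 16533016) (a (l 16605632) (l 16675040)))) (b (b (l 16442824) (l 16514896)) (b (l 16584048) (l 16568632))))))) (b (a (b (a (b (l 15624144) (l 15740568)) (l 15564528)) (a (l 15954512) (l 15887032))) (b (l 15114608) (a (l 15834424) (l 15783984)))) (b (a (b (a (l 16159432) (l 16118888)) (a (l 16136632) (l 16263016))) (b (a (l 16087288) (l 16040296)) (a (l 16218712) (l 16162488)))) (a (b (a (l 16445264) (l 16403768)) (a (l 16499152) (l 16537168))) (b (l 16149536) (a (l 16475848) (l 16402680)))))))) (b (a (a (b (l 6) (b (l 6) (a (l 14961008) (l 6)))) (l 6)) (l 6)) (b (a (a (b (l 15318288) (a (l 15729008) (l 15662704))) (b (l 15161064) (b (l 15461064) (l 15653288)))) (b (l 6) (b (l 15073616) (a (l 15517072) (l 15391992))))) (a (b (a (b (l 15767464)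 (l 16053280)) (b (l 15779000) (l 15892344))) (a (b (l 16164648) (l 16282176)) (l 15824024))) (b (a (l 15697992) (l 15576816)) (a (l 15857232) (l 15820656)))))))), by decide +kernel⟩

def k1_B50pp_102_s1 : ∃ t, chk3 f_B50pp_102_s1 t 3 1 1 = true :=
  ⟨(b (l 6) (b (l 6) (a (b (l 6) (b (a (l 15234248) (l 6)) (a (a (l 15698936) (l 15579960)) (l 15241328)))) (l 6)))), by decide +kernel⟩

theorem t2_B50pp_102_s1 : ∃ t, chk3 f_B50pp_102_s1 t 1 1 1 = true := ex3_a k0_B50pp_102_s1 k1_B50pp_102_s1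

theorem c_B50pp_102_s1 : CertF 536870912 536870912 0 536870912 1040187392 5207648 false true true .npp 1 0 2
    ndB5q1 ndB0q2 pcB0 cut_B50pp_102_s1 Ext.none :=
  certF2 (fam := false) (s1 := true) (s2 := true) (a := 1) (b := 0) (c := 2) (cn := .npp) (n1 := ndB5q1) (n2 := ndB0q2) (pc := pcB0) (cut := cut_B50pp_102_s1) (xt := Ext.none) (P1 := 536870912) (W1 := 536870912) (P2 := 0) (W2 := 536870912) (P3 := 1040187392) (W3 := 5207648)
    rfl (fun _ => rfl) t2_B50pp_102_s1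

theorem s_B50pp_102_s1 {κ x : ℝ} (hκ : κ * h0 = ken x) (hx : ((1040187392 : ℕ) : ℝ) / S ≤ x)
    (hx' : x ≤ (((1040187392 : ℕ) : ℝ) + (5207648 : ℕ)) / S)
    (H : CutB (VFD κ) PP tK tL pcB (Cut.of [[⟨0, 1, 0, 26843545⟩, ⟨1, 0, 0, 26843545⟩, ⟨2, 1, 0, 26843545⟩]]) 1 0 2 5 0 (sgb true) (sgb true) x) :
    AltB (VFD κ) PP tK tL pcB [⟨3, 0, 0, 1449551462⟩] 1 0 2 5 0 (sgb true) (sgb true) x :=
  strip_altBD (m := 1449551462) true rfl hκ (SH.κ0 hκ (SH.hx1 hx).le (SH.hx2 hx').le) (SH.hx1 hx).le (SH.hx2 hx') (covB51).cov (covB02).cov hx hx' c_B50pp_102_s1 H (noExt_B)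

noncomputable def cut_B50pp_112_s1 : Cut := Cut.of [[⟨4, 0, 0, 1449551462⟩]]

noncomputable def f_B50pp_112_s1 : ℕ → ℕ → ℕ → ℕ → Bool := onCell 536870912 536870912 0 536870912 1040187392 5207648
    (rowF 2 false true true .dn 1 1 2 (qsf 536870912 536870912 0 536870912 1) ndB5q1 ndB0q2 pcB1 cut_B50pp_112_s1 Ext.none)

def k0_B50pp_112_s1 : ∃ t, chk3 f_B50pp_112_s1 t 1 1 1 = true :=
  ⟨(b (l 6) (l 6)), by decide +kernel⟩

theorem c_B50pp_112_s1 : CertF 536870912 536870912 0 536870912 1040187392 5207648 false true true .dn 1 1 2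
    ndB5q1 ndB0q2 pcB1 cut_B50pp_112_s1 Ext.none :=
  certF2 (fam := false) (s1 := true) (s2 := true) (a := 1) (b := 1) (c := 2) (cn := .dn) (n1 := ndB5q1) (n2 := ndB0q2) (pc := pcB1) (cut := cut_B50pp_112_s1) (xt := Ext.none) (P1 := 536870912) (W1 := 536870912) (P2 := 0) (W2 := 536870912) (P3 := 1040187392) (W3 := 5207648)
    rfl (fun _ => rfl) k0_B50pp_112_s1

theorem s_B50pp_112_s1 {κ x : ℝ} (hκ : κ * h0 = ken x) (hx : ((1040187392 : ℕ) : ℝ) / S ≤ x)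
    (hx' : x ≤ (((1040187392 : ℕ) : ℝ) + (5207648 : ℕ)) / S) :
    AltB (VFD κ) PP tK tL pcB [⟨3, 0, 0, 1449551462⟩] 1 1 2 5 0 (sgb true) (sgb true) x :=
  strip_altBD (m := 1449551462) true rfl hκ (SH.κ0 hκ (SH.hx1 hx).le (SH.hx2 hx').le) (SH.hx1 hx).le (SH.hx2 hx') (covB51).cov (covB02).cov hx hx' c_B50pp_112_s1 cutB_nil (noExt_B)

noncomputable def cut_B50pp_202_s1 : Cut := Cut.of [[⟨4, 0, 0, 1449551462⟩], [⟨0, 1, 0, 22369621⟩, ⟨1, 0, 0, 22369621⟩, ⟨2, 1, 0, 22369621⟩]]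

noncomputable def f_B50pp_202_s1 : ℕ → ℕ → ℕ → ℕ → Bool := onCell 0 536870912 0 536870912 1040187392 5207648
    (rowF 2 false true true .pp 2 0 2 (qsf 1073741824 536870912 0 536870912 0) ndB5q2 ndB0q2 pcB0 cut_B50pp_202_s1 Ext.none)

def k0_B50pp_202_s1 : ∃ t, chk3 f_B50pp_202_s1 t 1 1 1 = true :=
  ⟨(a (b (a (l 6) (l 6)) (a (b (a (a (a (b (l 16087224) (l 16196800)) (b (a (l 15994048) (l 15969696)) (a (l 16165824) (l 16133448)))) (a (b (a (l 15936448) (l 15842232)) (a (l 16095032) (l 15986864))) (b (l 15665872) (l 15791232)))) (b (l 6) (b (a (l 15343288) (l 6)) (a (a (l 15539544) (l 15246576)) (l 1))))) (a (b (a (a (b (l 16411632) (b (l 16472880) (l 16507480))) (a (b (l 16281384) (b (l 16338928) (a (b (l 16373800) (l 16390704)) (l 16365592)))) (b (l 16249424) (b (l 16309304) (l 16342704))))) (a (b (a (l 16214512) (l 16099384)) (a (b (l 16276928) (l 16298304)) (l 516501812743))) (b (b (l 15874616) (l 15914696))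 (b (l 15955112) (l 16002384))))) (a (a (b (a (b (l 16505616) (b (l 16530952) (l 16555384))) (b (b (l 16483816) (l 16497248)) (a (l 16558168) (l 16512176)))) (l 14)) (a (b (b (a (l 16414608) (l 16398032)) (a (l 16469312) (l 16444432))) (b (a (l 14) (l 16426160)) (l 1))) (b (b (l 16368296) (l 16403112)) (l 1)))) (a (b (a (b (l 16312632) (l 1)) (l 1)) (l 1)) (l 1)))) (b (a (b (a (b (l 15590696) (l 15637776)) (l 1)) (l 1)) (l 1)) (l 1)))) (b (l 1) (l 1)))) (l 1)), by decide +kernel⟩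

theorem c_B50pp_202_s1 : CertF 1073741824 536870912 0 536870912 1040187392 5207648 false true true .pp 2 0 2
    ndB5q2 ndB0q2 pcB0 cut_B50pp_202_s1 Ext.none :=
  certF2 (fam := false) (s1 := true) (s2 := true) (a := 2) (b := 0) (c := 2) (cn := .pp) (n1 := ndB5q2) (n2 := ndB0q2) (pc := pcB0) (cut := cut_B50pp_202_s1) (xt := Ext.none) (P1 := 1073741824) (W1 := 536870912) (P2 := 0) (W2 := 536870912) (P3 := 1040187392) (W3 := 5207648)
    rfl (fun _ => rfl) k0_B50pp_202_s1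

theorem s_B50pp_202_s1 {κ x : ℝ} (hκ : κ * h0 = ken x) (hx : ((1040187392 : ℕ) : ℝ) / S ≤ x)
    (hx' : x ≤ (((1040187392 : ℕ) : ℝ) + (5207648 : ℕ)) / S)
    (H : CutB (VFD κ) PP tK tL pcB (Cut.of [[⟨0, 1, 0, 22369621⟩, ⟨1, 0, 0, 22369621⟩, ⟨2, 1, 0, 22369621⟩]]) 2 0 2 5 0 (sgb true) (sgb true) x) :
    AltB (VFD κ) PP tK tL pcB [⟨3, 0, 0, 1449551462⟩] 2 0 2 5 0 (sgb true) (sgb true) x :=
  strip_altBD (m := 1449551462) true rfl hκ (SH.κ0 hκ (SH.hx1 hx).le (SH.hx2 hx').le) (SH.hx1 hx).le (SH.hx2 hx') (covB52).cov (covB02).cov hx hx' c_B50pp_202_s1 H (noExt_B)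

noncomputable def cut_B50pm_001_s1 : Cut := Cut.of [[⟨4, 0, 0, 1449551462⟩]]

noncomputable def f_B50pm_001_s1 : ℕ → ℕ → ℕ → ℕ → Bool := onCell 0 536870912 536870912 536870912 1040187392 5207648
    (rowF 0 false true false .up 0 0 1 (qsf 0 536870912 536870912 536870912 0) ndB5q0 ndB0q1 pcB0 cut_B50pm_001_s1 Ext.none)

def k0_B50pm_001_s1 : ∃ t, chk3 f_B50pm_001_s1 t 1 1 1 = true :=
  ⟨(l 4), by decide +kernel⟩

theorem c_B50pm_001_s1 : CertF 0 536870912 536870912 536870912 1040187392 5207648 false true false .up 0 0 1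
    ndB5q0 ndB0q1 pcB0 cut_B50pm_001_s1 Ext.none :=
  certF0 (fam := false) (s1 := true) (s2 := false) (a := 0) (b := 0) (c := 1) (cn := .up) (n1 := ndB5q0) (n2 := ndB0q1) (pc := pcB0) (cut := cut_B50pm_001_s1) (xt := Ext.none) (P1 := 0) (W1 := 536870912) (P2 := 536870912) (W2 := 536870912) (P3 := 1040187392) (W3 := 5207648)
    rfl k0_B50pm_001_s1

theorem s_B50pm_001_s1 {κ x : ℝ} (hκ : κ * h0 = ken x) (hx : ((1040187392 : ℕ) : ℝ) / S ≤ x)
    (hx' : x ≤ (((1040187392 : ℕ) : ℝ) + (5207648 : ℕ)) / S) :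
    AltB (VFD κ) PP tK tL pcB [⟨3, 0, 0, 1449551462⟩] 0 0 1 5 0 (sgb true) (sgb false) x :=
  strip_altBD (m := 1449551462) true rfl hκ (SH.κ0 hκ (SH.hx1 hx).le (SH.hx2 hx').le) (SH.hx1 hx).le (SH.hx2 hx') (covB50).cov (covB01).cov hx hx' c_B50pm_001_s1 cutB_nil (noExt_B)

noncomputable def cut_B50pm_011_s1 : Cut := Cut.of [[⟨4, 0, 0, 1449551462⟩]]

noncomputable def f_B50pm_011_s1 : ℕ → ℕ → ℕ → ℕ → Bool := onCell 0 536870912 536870912 536870912 1040187392 5207648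
    (rowF 0 false true false .pnn 0 1 1 (qsf 0 536870912 536870912 536870912 1) ndB5q0 ndB0q1 pcB1 cut_B50pm_011_s1 Ext.none)

def k0_B50pm_011_s1 : ∃ t, chk3 f_B50pm_011_s1 t 1 1 1 = true :=
  ⟨(l 4), by decide +kernel⟩

theorem c_B50pm_011_s1 : CertF 0 536870912 536870912 536870912 1040187392 5207648 false true false .pnn 0 1 1
    ndB5q0 ndB0q1 pcB1 cut_B50pm_011_s1 Ext.none :=
  certF0 (fam := false) (s1 := true) (s2 := false) (a := 0) (b := 1) (c := 1) (cn := .pnn) (n1 := ndB5q0) (n2 := ndB0q1) (pc := pcB1) (cut := cut_B50pm_011_s1) (xt := Ext.none) (P1 := 0) (W1 := 536870912) (P2 := 536870912) (W2 := 536870912) (P3 := 1040187392) (W3 := 5207648)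
    rfl k0_B50pm_011_s1

theorem s_B50pm_011_s1 {κ x : ℝ} (hκ : κ * h0 = ken x) (hx : ((1040187392 : ℕ) : ℝ) / S ≤ x)
    (hx' : x ≤ (((1040187392 : ℕ) : ℝ) + (5207648 : ℕ)) / S) :
    AltB (VFD κ) PP tK tL pcB [⟨3, 0, 0, 1449551462⟩] 0 1 1 5 0 (sgb true) (sgb false) x :=
  strip_altBD (m := 1449551462) true rfl hκ (SH.κ0 hκ (SH.hx1 hx).le (SH.hx2 hx').le) (SH.hx1 hx).le (SH.hx2 hx') (covB50).cov (covB01).cov hx hx' c_B50pm_011_s1 cutB_nil (noExt_B)

noncomputable def cut_B50pm_012_s1 : Cut := Cut.of [[⟨4, 0, 0, 1449551462⟩]]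

noncomputable def f_B50pm_012_s1 : ℕ → ℕ → ℕ → ℕ → Bool := onCell 0 536870912 0 536870912 1040187392 5207648
    (rowF 0 false true false .pnp 0 1 2 (qsf 0 536870912 0 536870912 1) ndB5q0 ndB0q2 pcB1 cut_B50pm_012_s1 Ext.none)

def k0_B50pm_012_s1 : ∃ t, chk3 f_B50pm_012_s1 t 1 1 1 = true :=
  ⟨(l 6), by decide +kernel⟩

theorem c_B50pm_012_s1 : CertF 0 536870912 0 536870912 1040187392 5207648 false true false .pnp 0 1 2
    ndB5q0 ndB0q2 pcB1 cut_B50pm_012_s1 Ext.none :=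
  certF0 (fam := false) (s1 := true) (s2 := false) (a := 0) (b := 1) (c := 2) (cn := .pnp) (n1 := ndB5q0) (n2 := ndB0q2) (pc := pcB1) (cut := cut_B50pm_012_s1) (xt := Ext.none) (P1 := 0) (W1 := 536870912) (P2 := 0) (W2 := 536870912) (P3 := 1040187392) (W3 := 5207648)
    rfl k0_B50pm_012_s1

theorem s_B50pm_012_s1 {κ x : ℝ} (hκ : κ * h0 = ken x) (hx : ((1040187392 : ℕ) : ℝ) / S ≤ x)
    (hx' : x ≤ (((1040187392 : ℕ) : ℝ) + (5207648 : ℕ)) / S) :
    AltB (VFD κ) PP tK tL pcB [⟨3, 0, 0, 1449551462⟩] 0 1 2 5 0 (sgb true) (sgb false) x :=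
  strip_altBD (m := 1449551462) true rfl hκ (SH.κ0 hκ (SH.hx1 hx).le (SH.hx2 hx').le) (SH.hx1 hx).le (SH.hx2 hx') (covB50).cov (covB02).cov hx hx' c_B50pm_012_s1 cutB_nil (noExt_B)

noncomputable def cut_B50pm_022_s1 : Cut := Cut.of [[⟨4, 0, 0, 1449551462⟩]]

noncomputable def f_B50pm_022_s1 : ℕ → ℕ → ℕ → ℕ → Bool := onCell 0 536870912 0 536870912 1040187392 5207648
    (rowF 0 false true false .pp 0 2 2 (qsf 0 536870912 0 536870912 2) ndB5q0 ndB0q2 pcB2 cut_B50pm_022_s1 Ext.none)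

def k0_B50pm_022_s1 : ∃ t, chk3 f_B50pm_022_s1 t 1 1 1 = true :=
  ⟨(l 6), by decide +kernel⟩

theorem c_B50pm_022_s1 : CertF 0 536870912 0 536870912 1040187392 5207648 false true false .pp 0 2 2
    ndB5q0 ndB0q2 pcB2 cut_B50pm_022_s1 Ext.none :=
  certF0 (fam := false) (s1 := true) (s2 := false) (a := 0) (b := 2) (c := 2) (cn := .pp) (n1 := ndB5q0) (n2 := ndB0q2) (pc := pcB2) (cut := cut_B50pm_022_s1) (xt := Ext.none) (P1 := 0) (W1 := 536870912) (P2 := 0) (W2 := 536870912) (P3 := 1040187392) (W3 := 5207648)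
    rfl k0_B50pm_022_s1

theorem s_B50pm_022_s1 {κ x : ℝ} (hκ : κ * h0 = ken x) (hx : ((1040187392 : ℕ) : ℝ) / S ≤ x)
    (hx' : x ≤ (((1040187392 : ℕ) : ℝ) + (5207648 : ℕ)) / S) :
    AltB (VFD κ) PP tK tL pcB [⟨3, 0, 0, 1449551462⟩] 0 2 2 5 0 (sgb true) (sgb false) x :=
  strip_altBD (m := 1449551462) true rfl hκ (SH.κ0 hκ (SH.hx1 hx).le (SH.hx2 hx').le) (SH.hx1 hx).le (SH.hx2 hx') (covB50).cov (covB02).cov hx hx' c_B50pm_022_s1 cutB_nil (noExt_B)

noncomputable def cut_B50pm_101_s1 : Cut := Cut.of [[⟨4, 0, 0, 1449551462⟩]]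

noncomputable def f_B50pm_101_s1 : ℕ → ℕ → ℕ → ℕ → Bool := onCell 536870912 536870912 536870912 536870912 1040187392 5207648
    (rowF 0 false true false .npn 1 0 1 (qsf 536870912 536870912 536870912 536870912 0) ndB5q1 ndB0q1 pcB0 cut_B50pm_101_s1 Ext.none)

def k0_B50pm_101_s1 : ∃ t, chk3 f_B50pm_101_s1 t 1 1 1 = true :=
  ⟨(l 4), by decide +kernel⟩

theorem c_B50pm_101_s1 : CertF 536870912 536870912 536870912 536870912 1040187392 5207648 false true false .npn 1 0 1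
    ndB5q1 ndB0q1 pcB0 cut_B50pm_101_s1 Ext.none :=
  certF0 (fam := false) (s1 := true) (s2 := false) (a := 1) (b := 0) (c := 1) (cn := .npn) (n1 := ndB5q1) (n2 := ndB0q1) (pc := pcB0) (cut := cut_B50pm_101_s1) (xt := Ext.none) (P1 := 536870912) (W1 := 536870912) (P2 := 536870912) (W2 := 536870912) (P3 := 1040187392) (W3 := 5207648)
    rfl k0_B50pm_101_s1

theorem s_B50pm_101_s1 {κ x : ℝ} (hκ : κ * h0 = ken x) (hx : ((1040187392 : ℕ) : ℝ) / S ≤ x)
    (hx' : x ≤ (((1040187392 : ℕ) : ℝ) + (5207648 : ℕ)) / S) :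
    AltB (VFD κ) PP tK tL pcB [⟨3, 0, 0, 1449551462⟩] 1 0 1 5 0 (sgb true) (sgb false) x :=
  strip_altBD (m := 1449551462) true rfl hκ (SH.κ0 hκ (SH.hx1 hx).le (SH.hx2 hx').le) (SH.hx1 hx).le (SH.hx2 hx') (covB51).cov (covB01).cov hx hx' c_B50pm_101_s1 cutB_nil (noExt_B)

noncomputable def cut_B50pm_102_s1 : Cut := Cut.of [[⟨4, 0, 0, 1449551462⟩]]

noncomputable def f_B50pm_102_s1 : ℕ → ℕ → ℕ → ℕ → Bool := onCell 536870912 536870912 0 536870912 1040187392 5207648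
    (rowF 0 false true false .npp 1 0 2 (qsf 536870912 536870912 0 536870912 0) ndB5q1 ndB0q2 pcB0 cut_B50pm_102_s1 Ext.none)

def k0_B50pm_102_s1 : ∃ t, chk3 f_B50pm_102_s1 t 1 1 1 = true :=
  ⟨(l 6), by decide +kernel⟩

theorem c_B50pm_102_s1 : CertF 536870912 536870912 0 536870912 1040187392 5207648 false true false .npp 1 0 2
    ndB5q1 ndB0q2 pcB0 cut_B50pm_102_s1 Ext.none :=
  certF0 (fam := false) (s1 := true) (s2 := false) (a := 1) (b := 0) (c := 2) (cn := .npp) (n1 := ndB5q1) (n2 := ndB0q2) (pc := pcB0) (cut := cut_B50pm_102_s1) (xt := Ext.none) (P1 := 536870912) (W1 := 536870912) (P2 := 0) (W2 := 536870912) (P3 := 1040187392) (W3 := 5207648)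
    rfl k0_B50pm_102_s1

theorem s_B50pm_102_s1 {κ x : ℝ} (hκ : κ * h0 = ken x) (hx : ((1040187392 : ℕ) : ℝ) / S ≤ x)
    (hx' : x ≤ (((1040187392 : ℕ) : ℝ) + (5207648 : ℕ)) / S) :
    AltB (VFD κ) PP tK tL pcB [⟨3, 0, 0, 1449551462⟩] 1 0 2 5 0 (sgb true) (sgb false) x :=
  strip_altBD (m := 1449551462) true rfl hκ (SH.κ0 hκ (SH.hx1 hx).le (SH.hx2 hx').le) (SH.hx1 hx).le (SH.hx2 hx') (covB51).cov (covB02).cov hx hx' c_B50pm_102_s1 cutB_nil (noExt_B)

noncomputable def cut_B50pm_112_s1 : Cut := Cut.of [[⟨4, 0, 0, 1449551462⟩]]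

noncomputable def f_B50pm_112_s1 : ℕ → ℕ → ℕ → ℕ → Bool := onCell 536870912 536870912 0 536870912 1040187392 5207648
    (rowF 0 false true false .dn 1 1 2 (qsf 536870912 536870912 0 536870912 1) ndB5q1 ndB0q2 pcB1 cut_B50pm_112_s1 Ext.none)

def k0_B50pm_112_s1 : ∃ t, chk3 f_B50pm_112_s1 t 1 1 1 = true :=
  ⟨(l 6), by decide +kernel⟩

theorem c_B50pm_112_s1 : CertF 536870912 536870912 0 536870912 1040187392 5207648 false true false .dn 1 1 2
    ndB5q1 ndB0q2 pcB1 cut_B50pm_112_s1 Ext.none :=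
  certF0 (fam := false) (s1 := true) (s2 := false) (a := 1) (b := 1) (c := 2) (cn := .dn) (n1 := ndB5q1) (n2 := ndB0q2) (pc := pcB1) (cut := cut_B50pm_112_s1) (xt := Ext.none) (P1 := 536870912) (W1 := 536870912) (P2 := 0) (W2 := 536870912) (P3 := 1040187392) (W3 := 5207648)
    rfl k0_B50pm_112_s1

theorem s_B50pm_112_s1 {κ x : ℝ} (hκ : κ * h0 = ken x) (hx : ((1040187392 : ℕ) : ℝ) / S ≤ x)
    (hx' : x ≤ (((1040187392 : ℕ) : ℝ) + (5207648 : ℕ)) / S) :
    AltB (VFD κ) PP tK tL pcB [⟨3, 0, 0, 1449551462⟩] 1 1 2 5 0 (sgb true) (sgb false) x :=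
  strip_altBD (m := 1449551462) true rfl hκ (SH.κ0 hκ (SH.hx1 hx).le (SH.hx2 hx').le) (SH.hx1 hx).le (SH.hx2 hx') (covB51).cov (covB02).cov hx hx' c_B50pm_112_s1 cutB_nil (noExt_B)

noncomputable def cut_B50pm_202_s1 : Cut := Cut.of [[⟨4, 0, 0, 1449551462⟩]]

noncomputable def f_B50pm_202_s1 : ℕ → ℕ → ℕ → ℕ → Bool := onCell 0 536870912 0 536870912 1040187392 5207648
    (rowF 2 false true false .pp 2 0 2 (qsf 1073741824 536870912 0 536870912 0) ndB5q2 ndB0q2 pcB0 cut_B50pm_202_s1 Ext.none)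

def k0_B50pm_202_s1 : ∃ t, chk3 f_B50pm_202_s1 t 1 1 1 = true :=
  ⟨(l 6), by decide +kernel⟩

theorem c_B50pm_202_s1 : CertF 1073741824 536870912 0 536870912 1040187392 5207648 false true false .pp 2 0 2
    ndB5q2 ndB0q2 pcB0 cut_B50pm_202_s1 Ext.none :=
  certF2 (fam := false) (s1 := true) (s2 := false) (a := 2) (b := 0) (c := 2) (cn := .pp) (n1 := ndB5q2) (n2 := ndB0q2) (pc := pcB0) (cut := cut_B50pm_202_s1) (xt := Ext.none) (P1 := 1073741824) (W1 := 536870912) (P2 := 0) (W2 := 536870912) (P3 := 1040187392) (W3 := 5207648)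
    rfl (fun _ => rfl) k0_B50pm_202_s1

theorem s_B50pm_202_s1 {κ x : ℝ} (hκ : κ * h0 = ken x) (hx : ((1040187392 : ℕ) : ℝ) / S ≤ x)
    (hx' : x ≤ (((1040187392 : ℕ) : ℝ) + (5207648 : ℕ)) / S) :
    AltB (VFD κ) PP tK tL pcB [⟨3, 0, 0, 1449551462⟩] 2 0 2 5 0 (sgb true) (sgb false) x :=
  strip_altBD (m := 1449551462) true rfl hκ (SH.κ0 hκ (SH.hx1 hx).le (SH.hx2 hx').le) (SH.hx1 hx).le (SH.hx2 hx') (covB52).cov (covB02).cov hx hx' c_B50pm_202_s1 cutB_nil (noExt_B)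

noncomputable def cut_B50mm_001_s1 : Cut := Cut.of [[⟨4, 0, 0, 1449551462⟩]]

noncomputable def f_B50mm_001_s1 : ℕ → ℕ → ℕ → ℕ → Bool := onCell 0 536870912 536870912 536870912 1040187392 5207648
    (rowF 0 false false false .up 0 0 1 (qsf 0 536870912 536870912 536870912 0) ndB5q0 ndB0q1 pcB0 cut_B50mm_001_s1 Ext.none)

def k0_B50mm_001_s1 : ∃ t, chk3 f_B50mm_001_s1 t 1 1 1 = true :=
  ⟨(l 5), by decide +kernel⟩

theorem c_B50mm_001_s1 : CertF 0 536870912 536870912 536870912 1040187392 5207648 false false false .up 0 0 1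
    ndB5q0 ndB0q1 pcB0 cut_B50mm_001_s1 Ext.none :=
  certF0 (fam := false) (s1 := false) (s2 := false) (a := 0) (b := 0) (c := 1) (cn := .up) (n1 := ndB5q0) (n2 := ndB0q1) (pc := pcB0) (cut := cut_B50mm_001_s1) (xt := Ext.none) (P1 := 0) (W1 := 536870912) (P2 := 536870912) (W2 := 536870912) (P3 := 1040187392) (W3 := 5207648)
    rfl k0_B50mm_001_s1

theorem s_B50mm_001_s1 {κ x : ℝ} (hκ : κ * h0 = ken x) (hx : ((1040187392 : ℕ) : ℝ) / S ≤ x)
    (hx' : x ≤ (((1040187392 : ℕ) : ℝ) + (5207648 : ℕ)) / S) :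
    AltB (VFD κ) PP tK tL pcB [⟨3, 0, 0, 1449551462⟩] 0 0 1 5 0 (sgb false) (sgb false) x :=
  strip_altBD (m := 1449551462) true rfl hκ (SH.κ0 hκ (SH.hx1 hx).le (SH.hx2 hx').le) (SH.hx1 hx).le (SH.hx2 hx') (covB50).cov (covB01).cov hx hx' c_B50mm_001_s1 cutB_nil (noExt_B)

noncomputable def cut_B50mm_011_s1 : Cut := Cut.of [[⟨4, 0, 0, 1449551462⟩]]

noncomputable def f_B50mm_011_s1 : ℕ → ℕ → ℕ → ℕ → Bool := onCell 0 536870912 536870912 536870912 1040187392 5207648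
    (rowF 0 false false false .pnn 0 1 1 (qsf 0 536870912 536870912 536870912 1) ndB5q0 ndB0q1 pcB1 cut_B50mm_011_s1 Ext.none)

def k0_B50mm_011_s1 : ∃ t, chk3 f_B50mm_011_s1 t 1 1 1 = true :=
  ⟨(l 5), by decide +kernel⟩

theorem c_B50mm_011_s1 : CertF 0 536870912 536870912 536870912 1040187392 5207648 false false false .pnn 0 1 1
    ndB5q0 ndB0q1 pcB1 cut_B50mm_011_s1 Ext.none :=
  certF0 (fam := false) (s1 := false) (s2 := false) (a := 0) (b := 1) (c := 1) (cn := .pnn) (n1 := ndB5q0) (n2 := ndB0q1) (pc := pcB1) (cut := cut_B50mm_011_s1) (xt := Ext.none) (P1 := 0) (W1 := 536870912) (P2 := 536870912) (W2 := 536870912) (P3 := 1040187392) (W3 := 5207648)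
    rfl k0_B50mm_011_s1

theorem s_B50mm_011_s1 {κ x : ℝ} (hκ : κ * h0 = ken x) (hx : ((1040187392 : ℕ) : ℝ) / S ≤ x)
    (hx' : x ≤ (((1040187392 : ℕ) : ℝ) + (5207648 : ℕ)) / S) :
    AltB (VFD κ) PP tK tL pcB [⟨3, 0, 0, 1449551462⟩] 0 1 1 5 0 (sgb false) (sgb false) x :=
  strip_altBD (m := 1449551462) true rfl hκ (SH.κ0 hκ (SH.hx1 hx).le (SH.hx2 hx').le) (SH.hx1 hx).le (SH.hx2 hx') (covB50).cov (covB01).cov hx hx' c_B50mm_011_s1 cutB_nil (noExt_B)

noncomputable def cut_B50mm_012_s1 : Cut := Cut.of [[⟨4, 0, 0, 1449551462⟩]]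

noncomputable def f_B50mm_012_s1 : ℕ → ℕ → ℕ → ℕ → Bool := onCell 0 536870912 0 536870912 1040187392 5207648
    (rowF 0 false false false .pnp 0 1 2 (qsf 0 536870912 0 536870912 1) ndB5q0 ndB0q2 pcB1 cut_B50mm_012_s1 Ext.none)

def k0_B50mm_012_s1 : ∃ t, chk3 f_B50mm_012_s1 t 1 1 1 = true :=
  ⟨(l 5), by decide +kernel⟩

theorem c_B50mm_012_s1 : CertF 0 536870912 0 536870912 1040187392 5207648 false false false .pnp 0 1 2
    ndB5q0 ndB0q2 pcB1 cut_B50mm_012_s1 Ext.none :=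
  certF0 (fam := false) (s1 := false) (s2 := false) (a := 0) (b := 1) (c := 2) (cn := .pnp) (n1 := ndB5q0) (n2 := ndB0q2) (pc := pcB1) (cut := cut_B50mm_012_s1) (xt := Ext.none) (P1 := 0) (W1 := 536870912) (P2 := 0) (W2 := 536870912) (P3 := 1040187392) (W3 := 5207648)
    rfl k0_B50mm_012_s1

theorem s_B50mm_012_s1 {κ x : ℝ} (hκ : κ * h0 = ken x) (hx : ((1040187392 : ℕ) : ℝ) / S ≤ x)
    (hx' : x ≤ (((1040187392 : ℕ) : ℝ) + (5207648 : ℕ)) / S) :
    AltB (VFD κ) PP tK tL pcB [⟨3, 0, 0, 1449551462⟩] 0 1 2 5 0 (sgb false) (sgb false) x :=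
  strip_altBD (m := 1449551462) true rfl hκ (SH.κ0 hκ (SH.hx1 hx).le (SH.hx2 hx').le) (SH.hx1 hx).le (SH.hx2 hx') (covB50).cov (covB02).cov hx hx' c_B50mm_012_s1 cutB_nil (noExt_B)

noncomputable def cut_B50mm_022_s1 : Cut := Cut.of [[⟨4, 0, 0, 1449551462⟩]]

noncomputable def f_B50mm_022_s1 : ℕ → ℕ → ℕ → ℕ → Bool := onCell 0 536870912 0 536870912 1040187392 5207648
    (rowF 0 false false false .pp 0 2 2 (qsf 0 536870912 0 536870912 2) ndB5q0 ndB0q2 pcB2 cut_B50mm_022_s1 Ext.none)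

def k0_B50mm_022_s1 : ∃ t, chk3 f_B50mm_022_s1 t 1 1 1 = true :=
  ⟨(l 5), by decide +kernel⟩

theorem c_B50mm_022_s1 : CertF 0 536870912 0 536870912 1040187392 5207648 false false false .pp 0 2 2
    ndB5q0 ndB0q2 pcB2 cut_B50mm_022_s1 Ext.none :=
  certF0 (fam := false) (s1 := false) (s2 := false) (a := 0) (b := 2) (c := 2) (cn := .pp) (n1 := ndB5q0) (n2 := ndB0q2) (pc := pcB2) (cut := cut_B50mm_022_s1) (xt := Ext.none) (P1 := 0) (W1 := 536870912) (P2 := 0) (W2 := 536870912) (P3 := 1040187392) (W3 := 5207648)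
    rfl k0_B50mm_022_s1

theorem s_B50mm_022_s1 {κ x : ℝ} (hκ : κ * h0 = ken x) (hx : ((1040187392 : ℕ) : ℝ) / S ≤ x)
    (hx' : x ≤ (((1040187392 : ℕ) : ℝ) + (5207648 : ℕ)) / S) :
    AltB (VFD κ) PP tK tL pcB [⟨3, 0, 0, 1449551462⟩] 0 2 2 5 0 (sgb false) (sgb false) x :=
  strip_altBD (m := 1449551462) true rfl hκ (SH.κ0 hκ (SH.hx1 hx).le (SH.hx2 hx').le) (SH.hx1 hx).le (SH.hx2 hx') (covB50).cov (covB02).cov hx hx' c_B50mm_022_s1 cutB_nil (noExt_B)

noncomputable def cut_B50mm_101_s1 : Cut := Cut.of [[⟨4, 0, 0, 1449551462⟩]]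

noncomputable def f_B50mm_101_s1 : ℕ → ℕ → ℕ → ℕ → Bool := onCell 0 536870912 536870912 536870912 1040187392 5207648
    (rowF 2 false false false .npn 1 0 1 (qsf 536870912 536870912 536870912 536870912 0) ndB5q1 ndB0q1 pcB0 cut_B50mm_101_s1 Ext.none)

def k0_B50mm_101_s1 : ∃ t, chk3 f_B50mm_101_s1 t 1 1 1 = true :=
  ⟨(l 5), by decide +kernel⟩

theorem c_B50mm_101_s1 : CertF 536870912 536870912 536870912 536870912 1040187392 5207648 false false false .npn 1 0 1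
    ndB5q1 ndB0q1 pcB0 cut_B50mm_101_s1 Ext.none :=
  certF2 (fam := false) (s1 := false) (s2 := false) (a := 1) (b := 0) (c := 1) (cn := .npn) (n1 := ndB5q1) (n2 := ndB0q1) (pc := pcB0) (cut := cut_B50mm_101_s1) (xt := Ext.none) (P1 := 536870912) (W1 := 536870912) (P2 := 536870912) (W2 := 536870912) (P3 := 1040187392) (W3 := 5207648)
    rfl (fun _ => rfl) k0_B50mm_101_s1

theorem s_B50mm_101_s1 {κ x : ℝ} (hκ : κ * h0 = ken x) (hx : ((1040187392 : ℕ) : ℝ) / S ≤ x)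
    (hx' : x ≤ (((1040187392 : ℕ) : ℝ) + (5207648 : ℕ)) / S) :
    AltB (VFD κ) PP tK tL pcB [⟨3, 0, 0, 1449551462⟩] 1 0 1 5 0 (sgb false) (sgb false) x :=
  strip_altBD (m := 1449551462) true rfl hκ (SH.κ0 hκ (SH.hx1 hx).le (SH.hx2 hx').le) (SH.hx1 hx).le (SH.hx2 hx') (covB51).cov (covB01).cov hx hx' c_B50mm_101_s1 cutB_nil (noExt_B)

noncomputable def cut_B50mm_102_s1 : Cut := Cut.of [[⟨4, 0, 0, 1449551462⟩]]

noncomputable def f_B50mm_102_s1 : ℕ → ℕ → ℕ → ℕ → Bool := onCell 536870912 536870912 0 536870912 1040187392 5207648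
    (rowF 0 false false false .npp 1 0 2 (qsf 536870912 536870912 0 536870912 0) ndB5q1 ndB0q2 pcB0 cut_B50mm_102_s1 Ext.none)

def k0_B50mm_102_s1 : ∃ t, chk3 f_B50mm_102_s1 t 1 1 1 = true :=
  ⟨(l 5), by decide +kernel⟩

theorem c_B50mm_102_s1 : CertF 536870912 536870912 0 536870912 1040187392 5207648 false false false .npp 1 0 2
    ndB5q1 ndB0q2 pcB0 cut_B50mm_102_s1 Ext.none :=
  certF0 (fam := false) (s1 := false) (s2 := false) (a := 1) (b := 0) (c := 2) (cn := .npp) (n1 := ndB5q1) (n2 := ndB0q2) (pc := pcB0) (cut := cut_B50mm_102_s1) (xt := Ext.none) (P1 := 536870912) (W1 := 536870912) (P2 := 0) (W2 := 536870912) (P3 := 1040187392) (W3 := 5207648)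
    rfl k0_B50mm_102_s1

theorem s_B50mm_102_s1 {κ x : ℝ} (hκ : κ * h0 = ken x) (hx : ((1040187392 : ℕ) : ℝ) / S ≤ x)
    (hx' : x ≤ (((1040187392 : ℕ) : ℝ) + (5207648 : ℕ)) / S) :
    AltB (VFD κ) PP tK tL pcB [⟨3, 0, 0, 1449551462⟩] 1 0 2 5 0 (sgb false) (sgb false) x :=
  strip_altBD (m := 1449551462) true rfl hκ (SH.κ0 hκ (SH.hx1 hx).le (SH.hx2 hx').le) (SH.hx1 hx).le (SH.hx2 hx') (covB51).cov (covB02).cov hx hx' c_B50mm_102_s1 cutB_nil (noExt_B)

noncomputable def cut_B50mm_112_s1 : Cut := Cut.of [[⟨4, 0, 0, 1449551462⟩]]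

noncomputable def f_B50mm_112_s1 : ℕ → ℕ → ℕ → ℕ → Bool := onCell 536870912 536870912 0 536870912 1040187392 5207648
    (rowF 0 false false false .dn 1 1 2 (qsf 536870912 536870912 0 536870912 1) ndB5q1 ndB0q2 pcB1 cut_B50mm_112_s1 Ext.none)

def k0_B50mm_112_s1 : ∃ t, chk3 f_B50mm_112_s1 t 1 1 1 = true :=
  ⟨(l 5), by decide +kernel⟩

theorem c_B50mm_112_s1 : CertF 536870912 536870912 0 536870912 1040187392 5207648 false false false .dn 1 1 2
    ndB5q1 ndB0q2 pcB1 cut_B50mm_112_s1 Ext.none :=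
  certF0 (fam := false) (s1 := false) (s2 := false) (a := 1) (b := 1) (c := 2) (cn := .dn) (n1 := ndB5q1) (n2 := ndB0q2) (pc := pcB1) (cut := cut_B50mm_112_s1) (xt := Ext.none) (P1 := 536870912) (W1 := 536870912) (P2 := 0) (W2 := 536870912) (P3 := 1040187392) (W3 := 5207648)
    rfl k0_B50mm_112_s1

theorem s_B50mm_112_s1 {κ x : ℝ} (hκ : κ * h0 = ken x) (hx : ((1040187392 : ℕ) : ℝ) / S ≤ x)
    (hx' : x ≤ (((1040187392 : ℕ) : ℝ) + (5207648 : ℕ)) / S) :
    AltB (VFD κ) PP tK tL pcB [⟨3, 0, 0, 1449551462⟩] 1 1 2 5 0 (sgb false) (sgb false) x :=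
  strip_altBD (m := 1449551462) true rfl hκ (SH.κ0 hκ (SH.hx1 hx).le (SH.hx2 hx').le) (SH.hx1 hx).le (SH.hx2 hx') (covB51).cov (covB02).cov hx hx' c_B50mm_112_s1 cutB_nil (noExt_B)

noncomputable def cut_B50mm_202_s1 : Cut := Cut.of [[⟨4, 0, 0, 1449551462⟩]]

noncomputable def f_B50mm_202_s1 : ℕ → ℕ → ℕ → ℕ → Bool := onCell 1073741824 536870912 0 536870912 1040187392 5207648
    (rowF 0 false false false .pp 2 0 2 (qsf 1073741824 536870912 0 536870912 0) ndB5q2 ndB0q2 pcB0 cut_B50mm_202_s1 Ext.none)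

def k0_B50mm_202_s1 : ∃ t, chk3 f_B50mm_202_s1 t 1 1 1 = true :=
  ⟨(l 5), by decide +kernel⟩

theorem c_B50mm_202_s1 : CertF 1073741824 536870912 0 536870912 1040187392 5207648 false false false .pp 2 0 2
    ndB5q2 ndB0q2 pcB0 cut_B50mm_202_s1 Ext.none :=
  certF0 (fam := false) (s1 := false) (s2 := false) (a := 2) (b := 0) (c := 2) (cn := .pp) (n1 := ndB5q2) (n2 := ndB0q2) (pc := pcB0) (cut := cut_B50mm_202_s1) (xt := Ext.none) (P1 := 1073741824) (W1 := 536870912) (P2 := 0) (W2 := 536870912) (P3 := 1040187392) (W3 := 5207648)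
    rfl k0_B50mm_202_s1

theorem s_B50mm_202_s1 {κ x : ℝ} (hκ : κ * h0 = ken x) (hx : ((1040187392 : ℕ) : ℝ) / S ≤ x)
    (hx' : x ≤ (((1040187392 : ℕ) : ℝ) + (5207648 : ℕ)) / S) :
    AltB (VFD κ) PP tK tL pcB [⟨3, 0, 0, 1449551462⟩] 2 0 2 5 0 (sgb false) (sgb false) x :=
  strip_altBD (m := 1449551462) true rfl hκ (SH.κ0 hκ (SH.hx1 hx).le (SH.hx2 hx').le) (SH.hx1 hx).le (SH.hx2 hx') (covB52).cov (covB02).cov hx hx' c_B50mm_202_s1 cutB_nil (noExt_B)

end Pool.Agent.Strip051.G.I9688_9736.Tab.St.C
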