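import Pool.Agent.Strip051.G.I9688_9736.Tab
import Pool.Agent.Strip051.PB.StripB

/-! # Strips, near vertex: certificates 4 (generated) -/

set_option linter.all false
set_option maxRecDepth 100000

namespace Pool.Agent.Strip051.G.I9688_9736.Tab.CS.BB05

open Pool.Agent.Strip051.PB Pool.Agent.Strip051.PB.T
open Pool.Agent.Strip051.G.I9688_9736.Tab

noncomputable def cut_mm_202_s : Cut := Cut.of [[⟨4, 0, 0, 1449551462⟩], [⟨0, 1, 0, 22369621⟩, ⟨1, 0, 0, 22369621⟩, ⟨2, 1, 0, 22369621⟩]]

noncomputable def f_mm_202_s : ℕ → ℕ → ℕ → ℕ → Bool := onCell 0 536870912 0 536870912 1040187392 5207648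
    (rowNE 3 eng mog cd0q2 cd5q2 pd0 1 false false false .pp 2 0 2 (qsf 0 536870912 1073741824 536870912 0) ndB0q2 ndB5q2 pcB0 cut_mm_202_s Ext.none)

def k0_mm_202_s : ∃ t, chk3 f_mm_202_s t 2 2 1 = true :=
  ⟨(a (b (l 6) (b (l 6) (a (l 6) (a (l 6) (b (b (l 6) (l 15907328)) (b (a (l 15985416) (l 16062080)) (l 16093064))))))) (b (b (b (l 6) (b (b (l 15982624) (l 15988408)) (l 15911048))) (a (a (l 6) (l 6)) (b (b (l 16016824) (a (l 15930640) (l 15896992))) (b (a (l 15814664) (b (l 15963008) (l 15989080))) (a (b (l 15842528) (l 15876728)) (l 16050584)))))) (a (b (a (b (l 6) (l 15748696)) (b (b (b (l 15722672) (l 15761208)) (l 15840816)) (b (l 15970760) (a (l 16055896) (l 16136224))))) (b (a (b (a (l 15942240) (l 16063728)) (l 16045648)) (b (l 16158608) (l 16225496))) (l 16162776))) (b (b (b (a (l 15948152) (b (l 16133024) (l 16045344))) (a (b (l 16034536) (l 16106648)) (a (l 16189112) (l 16274960)))) (b (a (a (l 16096920) (l 16204112)) (l 16300128)) (l 16266776))) (b (a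 (l 16312640) (b (l 16400704) (l 16397024))) (a (b (l 16392872) (l 16431656)) (b (a (l 16482168) (l 16526208)) (l 16544536)))))))), by decide +kernel⟩

def k1_mm_202_s : ∃ t, chk3 f_mm_202_s t 2 3 1 = true :=
  ⟨(b (b (a (b (a (l 6) (b (a (l 16014312) (l 16156128)) (l 16152168))) (a (a (l 6) (l 16047480)) (l 16238904))) (a (b (a (l 16300688) (b (l 16388248) (l 16447848))) (a (b (l 16387944) (l 16445608)) (b (l 16489232) (l 16538184)))) (b (a (b (l 16472944) (l 16539920)) (l 16550688)) (a (l 16606744) (b (l 16677304) (l 16718672)))))) (a (a (b (l 16114856) (l 16239600)) (b (a (l 16299456) (b (l 16389824) (l 16445792))) (a (b (l 16393112) (l 2)) (l 316317013399)))) (a (b (a (b (l 16487552) (l 16537344)) (l 16602480)) (a (l 16600624) (l 16684696))) (b (a (b (l 16669736) (l 16710656)) (b (a (l 16737248) (l 282024937751)) (l 314774023863))) (a (b (l 155860241111) (l 286319886951)) (l 397988962807)))))) (a (l 2) (a (l 2) (a (l 2) (l 3))))), by decide +kernel⟩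

def k2_mm_202_s : ∃ t, chk3 f_mm_202_s t 6 4 1 = true :=
  ⟨(a (b (b (b (l 16157544) (b (l 16164784) (l 16214096))) (b (b (l 16262032) (l 16252368)) (b (l 16228728) (a (l 16161352) (l 16247896))))) (b (b (a (b (l 16133440) (l 16111016)) (b (l 16194976) (l 16210096))) (a (b (l 16086488) (l 16100400)) (l 16246624))) (b (a (l 16149544) (b (a (l 16261936) (l 16350376)) (a (l 16312864) (l 16372776)))) (a (a (l 16210176) (b (l 16273496) (l 16304064))) (b (l 16362104) (l 16394568)))))) (b (a (b (b (l 16312448) (b (l 16321256) (l 16372712))) (b (b (l 16421584) (l 16407376)) (b (l 16285264) (l 16316632)))) (b (b (l 16414056) (b (l 16431032) (l 16486984))) (b (b (b (l 16532472) (l 16475568)) (a (l 16481760) (l 16531200))) (b (l 16476712) (a (l 16436560) (l 16506480)))))) (b (b (a (b (l 16339848) (l 16359104)) (a (b (l 16447792) (l 16442304)) (b (l 16448640) (l 16525392)))) (a (b (a (l 16348472) (l 16422848)) (a (l 16386848) (l 16444096))) (b (l 16509840) (l 16528248)))) (a (b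 (b (l 16433520) (l 16460728)) (l 16493984)) (b (a (l 16532816) (b (l 16579768) (l 16559992))) (a (b (l 16571168) (l 16590472)) (b (l 16618816) (l 16643192)))))))), by decide +kernel⟩

def k3_mm_202_s : ∃ t, chk3 f_mm_202_s t 6 5 1 = true :=
  ⟨(b (b (a (a (b (b (l 16292848) (l 16329464)) (l 16363680)) (b (l 16428264) (l 16418352))) (a (b (a (l 16513360) (b (l 16561928) (l 16579752))) (a (b (l 16552656) (l 16570288)) (l 16612104))) (b (a (l 16577136) (l 16653456)) (a (l 16664696) (b (l 16706448) (l 16707088)))))) (a (a (b (l 16412256) (l 16364728)) (b (a (l 16503800) (l 16531056)) (a (l 16543888) (l 16597184)))) (a (b (l 16588056) (a (l 16647264) (l 16677552))) (b (a (l 16665592) (a (b (l 16736512) (l 16758104)) (b (l 254107630311) (a (l 327122104199) (l 459192335431))))) (a (b (l 16740168) (a (l 16748840) (l 265381899895))) (a (b (l 266455615799) (l 3)) (l 3))))))) (a (b (a (b (a (l 16491992) (l 16536880)) (a (l 16531000) (l 16583792))) (b (l 16614552) (l 16615320)))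 (a (b (l 16602040) (l 16644752)) (b (l 16700264) (a (l 16697472) (b (l 16756568) (l 258402556343)))))) (b (a (b (a (l 16690176) (b (l 16710144) (l 117205565511))) (a (l 16733304) (b (l 263771250103) (l 419463884871)))) (a (b (a (b (l 249812662759) (l 429664443591)) (l 448454865287)) (l 3)) (l 3))) (a (a (b (a (l 248202024855) (l 356113139991)) (l 428053760839)) (l 3)) (l 3))))), by decide +kernel⟩

def k4_mm_202_s : ∃ t, chk3 f_mm_202_s t 14 8 1 = true :=
  ⟨(a (b (b (l 16514320) (b (b (l 16521640) (l 16533704)) (b (l 16543264) (l 16608488)))) (b (b (b (l 16628768) (l 16628848)) (a (l 16580248) (b (l 16635280) (l 16631016)))) (b (a (l 16569448) (a (l 16591232) (l 16617360))) (a (b (l 16567584) (l 16566712)) (l 16629728))))) (b (b (b (l 16551112) (a (l 16529376) (b (l 16605984) (l 16605200)))) (b (a (b (a (l 16564640) (l 16605760)) (l 16628528)) (b (l 16621280) (l 16652040))) (a (l 16668336) (b (l 16695408) (a (l 16701600) (l 16715232)))))) (a (b (b (b (l 16686720) (l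 16688328)) (a (l 16607632) (l 16691848))) (b (l 16685312) (b (l 16668608) (l 16694616)))) (b (b (b (l 16714288) (a (l 16708880) (l 16724464))) (a (l 16715200) (l 16734128))) (b (a (l 16724784) (b (l 16738056) (l 16743248))) (a (b (l 16732144) (l 16731048)) (b (l 16747344) (l 16746528)))))))), by decide +kernel⟩

def k5_mm_202_s : ∃ t, chk3 f_mm_202_s t 14 18 1 = true :=
  ⟨(a (b (b (a (l 16575256) (l 16637048)) (a (l 16584960) (a (l 16631720) (l 16644608)))) (a (b (l 16598344) (a (l 16600272) (l 16630664))) (b (a (l 16646296) (l 16670696)) (a (l 16655416) (l 16683056))))) (b (a (b (a (l 16666248) (b (l 16691056) (l 16711656))) (a (b (l 16690232) (l 16692504)) (l 16714648))) (b (a (l 16709912) (b (l 16745992) (l 16747752))) (a (l 16713928) (b (l 16730552) (a (l 16751944) (l 16740720)))))) (a (b (a (l 16698088) (l 16722656)) (a (l 16710016) (a (l 16729920) (l 16721632)))) (b (a (b (l 16742312) (l 16727976)) (a (b (l 16758248) (a (l 16762984) (l 16758048))) (b (b (l 16745864)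 (a (l 16767992) (a (l 16771960) (l 276119408103)))) (a (b (l 16751000) (a (l 278803760695) (b (l 287930560455) (l 496773351479)))) (b (a (b (l 16775008) (l 294373004727)) (b (l 445233752711) (l 3))) (a (l 518785042455) (l 3))))))) (a (a (b (l 16750776) (l 16738328)) (b (l 16741648) (a (l 16768496) (b (l 16772232) (a (l 279877496231) (l 442012521959)))))) (a (b (a (b (l 16769192) (l 276656272631)) (b (a (l 16773496) (a (l 16770280) (l 292225517863))) (a (b (l 289541170359) (l 504289541383)) (l 522543136487)))) (a (b (a (l 288467418391) (l 464561089495)) (l 3)) (l 3))) (b (a (b (a (b (l 450602458759) (l 3)) (l 3)) (l 3)) (l 3)) (l 3)))))))), by decide +kernel⟩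

def k6_mm_202_s : ∃ t, chk3 f_mm_202_s t 14 19 1 = true :=
  ⟨(a (b (a (b (a (l 16620088) (l 16645576)) (l 16652712)) (b (l 16664296) (a (l 16691792) (l 16718648)))) (a (b (l 16674200) (l 16695392)) (b (a (l 16713576) (l 16709216)) (a (l 16735560) (a (l 16734992) (b (l 16764224) (l 275045608279))))))) (b (a (b (a (l 16705768) (b (l 16728352) (a (l 16752264) (l 16765552)))) (a (b (l 16741512) (l 16731080)) (a (b (l 16741416) (a (l 16769456) (b (l 16773440) (l 428053876391)))) (b (a (b (l 16769872) (l 277193131319)) (b (l 282561829719) (l 498383947047))) (b (l 494625837463) (l 3)))))) (a (b (a (b (b (l 16745256) (a (l 16767864) (l 276656266039))) (a (b (l 16772736) (a (l 16765288) (l 447918095943))) (b (a (l 289541154919) (l 508047627863)) (l 3)))) (b (a (b (a (l 16774000) (l 289004286487)) (l 490867759783)) (b (l 508047618183) (l 3))) (l 3))) (a (b (l 518248118631) (l 3)) (l 3))) (l 3))) (a (a (b (b (a (l 16755936) (a (l 16745480) (l 269676929287))) (a (l 16766936) (a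 (l 279877451095) (l 498383933223)))) (a (b (a (l 260550118855) (l 431811958167)) (l 505363229063)) (l 3))) (b (a (b (a (b (l 282561824343) (l 506973875831)) (l 3)) (l 3)) (l 3)) (l 3))) (l 3)))), by decide +kernel⟩

def k7_mm_202_s : ∃ t, chk3 f_mm_202_s t 30 32 1 = true :=
  ⟨(b (a (b (l 16640496) (a (l 16641776) (l 16652128))) (b (a (l 16664056) (l 16684800)) (l 16658736))) (a (b (a (l 16647528) (l 16664784)) (l 16668016)) (b (a (l 16685248) (l 16711048)) (a (l 16701768) (a (l 16722768) (b (l 16733448) (l 16742440))))))), by decide +kernel⟩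

def k8_mm_202_s : ∃ t, chk3 f_mm_202_s t 31 64 1 = true :=
  ⟨(a (b (a (l 16704312) (l 14)) (a (l 16695848) (a (l 16737976) (l 14)))) (l 14)), by decide +kernel⟩

def k9_mm_202_s : ∃ t, chk3 f_mm_202_s t 31 65 1 = true :=
  ⟨(a (b (a (b (l 16734528) (a (l 16740088) (l 16751328))) (a (b (b (l 16754424) (l 16753264)) (l 16748848)) (b (b (l 16757232) (l 16758160)) (l 16763216)))) (a (b (a (l 16748896) (l 16754360)) (l 16751344)) (b (a (l 16760064) (b (l 16763136) (l 16763120))) (a (l 16759072) (b (l 16742840) (l 16744192)))))) (a (b (a (a (b (l 14) (b (l 16765856) (l 16765408))) (l 14)) (l 14)) (a (a (b (l 16746064) (l 16749296)) (b (l 16760536) (b (l 16762816) (a (l 16773840) (b (l 16764848) (a (l 16775584) (b (l 16765840) (l 16776672)))))))) (a (b (a (b (l 14) (l 16764184)) (l 14)) (a (b (a (l 16770416) (b (l 16770992) (a (l 214379264919) (b (a (l 16771640) (a (l 16777056) (b (l 16777088) (l 286856839399)))) (a (a (b (l 16777088) (l 292225548519)) (b (l 177335173319)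 (l 3))) (l 562271617223)))))) (a (b (b (l 16776544) (a (l 16776664) (b (l 267529485799) (a (l 16777088) (a (l 303499837671) (l 3)))))) (b (a (a (l 16771656) (a (l 16777064) (b (l 16777096) (l 309405417703)))) (a (a (b (l 194515042503) (l 3)) (l 557976649895)) (l 3))) (a (b (a (l 124184951751) (l 561734746247)) (b (l 512342621703) (l 605758161127))) (l 3)))) (b (a (a (b (a (l 16777056) (b (l 16777088) (l 298131128551))) (l 562808488151)) (b (a (b (l 182703882439) (l 3)) (l 556902908055)) (l 3))) (l 3)) (l 3)))) (b (a (b (b (a (l 16771512) (l 14)) (a (a (l 16776992) (a (b (l 16777080) (l 291688677591)) (b (l 175724560567) (l 3)))) (a (l 555829166279) (l 3)))) (a (b (a (a (b (l 181630140599) (l 3)) (l 549386715287)) (l 3)) (l 3)) (l 3))) (l 3)) (l 3)))) (b (l 14) (l 3))))) (l 14))), by decide +kernel⟩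

def k10_mm_202_s : ∃ t, chk3 f_mm_202_s t 30 33 1 = true :=
  ⟨(b (a (b (a (l 16674856) (l 16696264)) (b (l 16703904) (a (l 16706104) (l 16722912)))) (b (b (a (l 16715792) (b (l 16739584) (a (l 16738984) (l 16745040)))) (a (l 16726576) (a (l 16739416) (l 16745112)))) (a (l 16733552) (l 16745000)))) (a (b (a (l 16718176) (l 16728944)) (a (l 16725736) (l 16734488))) (b (a (l 16738576) (b (l 16750824) (l 16764976))) (a (l 16747248) (a (l 16756680) (l 16762160)))))), by decide +kernel⟩

def k11_mm_202_s : ∃ t, chk3 f_mm_202_s t 62 66 1 = true :=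
  ⟨(a (b (b (l 16752080) (a (l 16750592) (l 16757000))) (a (a (l 16754176) (l 16757032)) (b (l 16759720) (l 16763312)))) (b (a (b (l 16760488) (l 16742256)) (b (l 16746704) (a (l 16768912) (l 16762016)))) (a (b (l 16745672) (l 16769592)) (b (a (l 16750840) (a (l 16774392) (b (l 16775432) (a (b (l 16775992) (l 322290316551)) (b (a (l 16776624) (a (l 16776600) (b (l 16776984) (l 560124132887)))) (a (a (b (l 16776992) (l 563345358135)) (l 560661003255)) (l 658371507095))))))) (b (a (l 16773856) (a (a (l 16775928) (b (l 16776440) (a (l 290614934263) (b (l 310479156343) (l 599315707607))))) (a (b (a (a (l 300815481863) (b (l 16777000) (l 566566583367))) (b (l 545628617927) (l 3))) (l 668572050583)) (l 3)))) (a (a (l 16753360) (b (l 16775648) (l 316384734999))) (a (a (b (a (l 16776672) (a (l 302426094631) (b (l 16777016) (l 573009033815)))) (a (b (l 315847868119) (l 602000061367)) (l 662129600135))) (b (a (l 586430807415) (l 3)) (l 3))) (l 3)))))))), by decide +kernel⟩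

def k12_mm_202_s : ∃ t, chk3 f_mm_202_s t 62 67 1 = true :=
  ⟨(a (b (a (l 16761264) (l 16767616)) (a (l 16767088) (a (l 16771096) (a (l 16775792) (b (l 16773448) (b (l 16775136) (b (l 16775960) (l 329806508567)))))))) (a (b (a (b (l 16770752) (l 16773280)) (b (c (l 16773848) (l 16773864)) (a (b (l 16774936) (b (l 16775824) (l 322827186343))) (b (a (l 16776080) (b (l 16776544) (a (l 345912637943) (l 531669974103)))) (a (b (a (l 16776760) (b (l 16776992) (l 527911877159))) (a (l 534891197751) (l 3))) (b (l 608442514983) (l 3))))))) (a (b (a (l 16774888) (b (l 16775776) (a (b (l 16776256) (l 340007057335)) (b (b (l 16776848) (l 457581787959)) (a (l 541870518535) (l 3)))))) (a (b (a (l 16776208) (b (l 16776648) (a (l 363092507271) (l 545628614343)))) (a (b (b (l 16776880) (l 471003560727)) (a (l 548849839239) (l 3))) (b (l 608979371655) (l 3)))) (b (a (b (a (b (l 16777040) (l 544554873975)) (l 598241959127)) (l 3)) (l 3)) (l 3)))) (b (a (b (a (b (l 16776600) (a (l 355039443511)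 (l 538649293607))) (b (a (b (l 16777008) (l 533280585831)) (l 594483864231)) (l 3))) (a (b (l 608442512983) (l 3)) (l 3))) (l 3)) (l 3)))) (b (a (b (a (b (l 16775600) (a (b (l 16776128) (l 331953993319)) (b (a (l 16776712) (b (l 16776952) (l 515563846983))) (a (b (l 322827190071) (l 608442510775)) (l 659445242871))))) (b (a (b (l 16776488) (a (l 336248961447) (b (l 323900931831) (l 605221286055)))) (b (a (a (l 321216576503) (b (l 16777032) (l 579988355159))) (l 588041416583)) (l 662666466391))) (a (b (l 608979385639) (l 3)) (l 3)))) (a (b (a (b (a (b (l 16776976) (l 522006297559)) (l 591262640343)) (l 3)) (l 3)) (l 3)) (l 3))) (l 3)) (l 3)))), by decide +kernel⟩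

def k13_mm_202_s : ∃ t, chk3 f_mm_202_s t 504 132 1 = true :=
  ⟨(b (b (l 16751552) (l 16768720)) (a (b (l 16753496) (a (l 16764904) (b (l 16775928) (l 248202131751)))) (b (a (l 16775792) (b (l 16776336) (a (l 324437800999) (b (b (l 16776968) (l 323900931815)) (a (b (l 175724560631) (l 426443276615)) (l 3)))))) (a (b (a (l 16776576) (a (l 16776896) (b (l 16776952) (b (l 178945786119) (l 534354329735))))) (a (b (b (l 16776984) (l 318532222759)) (a (b (l 189683204359) (l 546165489799)) (l 3))) (b (c (l 528448749159) (l 644412866103)) (l 3)))) (b (a (b (a (b (l 16777088) (l 279340646647)) (l 499994591367)) (l 3)) (l 3)) (l 3)))))), by decide +kernel⟩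

def k14_mm_202_s : ∃ t, chk3 f_mm_202_s t 505 132 1 = true :=
  ⟨(b (a (b (l 16770024) (a (b (l 16775864) (l 221358586311)) (b (a (l 16776536) (a (l 16776864) (b (l 16776920) (b (l 159618433239) (l 404431569207))))) (b (a (a (l 16776928) (a (l 16777088) (b (l 16777120) (l 360408154343)))) (a (c (l 482277851255) (l 483888462679)) (l 3))) (a (a (b (l 147270402311) (l 414095245623)) (l 598778839271)) (l 3)))))) (b (a (b (l 16771040) (a (l 320142833543) (b (a (l 16776912) (a (l 16777080) (b (l 16777112) (l 323900932343)))) (b (a (l 135459242231) (l 579451486359)) (l 532743717063))))) (b (b (a (l 16776792) (a (a (l 16777072) (b (l 16777104) (l 311552901367))) (a (b (l 196662526167) (l 3)) (l 566566584487)))) (a (a (l 16777016) (b (l 133311758567) (a (l 317458481399) (l 3)))) (l 588578292023))) (a (a (a (b (b (l 209010557143) (l 3)) (l 3)) (l 590188904759)) (l 3)) (l 3)))) (a (b (a (b (a (a (l 16777080) (b (l 16777112) (l 357723799767))) (a (b (l 242296553655) (l 3)) (l 577304002743)))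 (l 594483872071)) (l 3)) (l 3)) (l 3)))) (a (b (a (b (a (a (l 16776880) (b (l 16776936) (b (l 172503335143) (l 416242729287)))) (b (a (a (l 16777096) (b (l 16777128) (l 374366798055))) (c (l 483888464007) (l 486035947655))) (l 605758161223))) (a (a (b (l 492478398599) (l 3)) (l 3)) (l 3))) (l 3)) (l 3)) (l 3))), by decide +kernel⟩

def k15_mm_202_s : ∃ t, chk3 f_mm_202_s t 252 133 1 = true :=
  ⟨(a (b (a (b (a (b (l 16776384) (a (l 288467450455) (b (b (l 16777000) (l 323900931911)) (l 594483871111)))) (b (a (a (l 16776912) (b (l 16776968) (b (l 193441300759) (l 661592735527)))) (a (b (b (l 16777096) (l 301352354039)) (l 3)) (l 622401159095))) (l 675014507015))) (a (b (a (b (l 494625880423) (l 3)) (l 3)) (l 3)) (l 3))) (l 3)) (l 3)) (l 3)), by decide +kernel⟩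

def k16_mm_202_s : ∃ t, chk3 f_mm_202_s t 253 66 1 = true :=
  ⟨(l 3), by decide +kernel⟩

def k17_mm_202_s : ∃ t, chk3 f_mm_202_s t 126 67 1 = true :=
  ⟨(l 3), by decide +kernel⟩

def k18_mm_202_s : ∃ t, chk3 f_mm_202_s t 127 33 1 = true :=
  ⟨(l 3), by decide +kernel⟩

def k19_mm_202_s : ∃ t, chk3 f_mm_202_s t 30 34 1 = true :=
  ⟨(a (b (a (l 16734632) (b (l 16742424) (l 16744016))) (b (a (l 16738448) (a (l 16742280) (l 16749288))) (a (l 16738960) (l 16750792)))) (b (a (a (b (l 16749440) (l 16752032)) (b (l 16754912) (l 16758128))) (a (l 16762368) (b (l 16766224) (l 16770312)))) (b (a (l 16759752) (a (l 16769016) (a (c (l 16775632) (l 16775680)) (b (l 16774624) (a (b (l 16775472) (a (l 16776160) (b (l 16776576) (a (l 16776920) (l 504289556887))))) (b (a (l 16776472) (b (l 352355088455) (l 527375006663))) (a (b (l 499457718983) (l 592336370455)) (l 3)))))))) (a (l 16770168) (a (a (l 16771824) (b (l 16773384) (a (l 16774696) (b (l 16775528) (a (l 16776224) (b (l 16776648)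 (a (l 16777000) (l 520932552423)))))))) (a (b (a (l 16775344) (b (l 16773552) (a (b (l 16776616) (a (l 16776960) (l 512879490119))) (b (l 505363297671) (l 3))))) (a (b (a (l 16771304) (b (l 317995335159) (l 536501804327))) (a (b (l 510732005415) (l 3)) (l 3))) (b (a (b (l 563345345015) (l 3)) (l 3)) (l 3)))) (b (a (b (a (b (l 280414372567) (l 532206838327)) (b (l 559587249847) (l 3))) (l 3)) (l 3)) (l 3)))))))), by decide +kernel⟩

def k20_mm_202_s : ∃ t, chk3 f_mm_202_s t 60 35 1 = true :=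
  ⟨(b (b (a (l 16744736) (l 16757280)) (a (l 16751096) (l 16763456))) (a (b (l 16758032) (l 16758448)) (a (b (l 16764344) (l 16766896)) (b (l 16768760) (a (l 16771080) (b (l 16752064) (a (l 16764096) (b (l 16765152) (a (l 307794793159) (b (l 319605948807) (l 527911868023))))))))))), by decide +kernel⟩

def k21_mm_202_s : ∃ t, chk3 f_mm_202_s t 122 35 1 = true :=
  ⟨(b (b (a (l 16767016) (a (l 16770544) (b (l 16772104) (l 16774016)))) (a (a (l 16769136) (l 16771608)) (a (b (l 16773304) (a (l 16774680) (b (l 16775592) (a (l 16776352) (b (l 16776808) (l 508047649831)))))) (b (a (l 16775400) (b (l 308331660039) (a (b (l 16776768) (l 502678942151)) (b (l 526301257767) (l 3))))) (a (b (a (l 312626626487) (b (l 324974652247) (l 554218539335))) (a (b (l 531133094615) (l 3)) (l 3))) (l 3)))))) (a (b (b (a (l 16771784) (b (l 16774112) (l 301352345063))) (a (l 16773872) (a (b (l 16775616) (a (l 16776424) (b (l 315310984423) (l 518248194327)))) (b (a (b (l 16776504) (l 322290300855))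 (b (l 491404654359) (l 3))) (a (l 545628599575) (l 3)))))) (a (b (a (b (l 16774816) (l 304036697815)) (b (a (l 16776040) (b (l 16776552) (l 324437783447))) (a (b (l 317458466855) (l 523080031159)) (l 547776082119)))) (a (b (a (b (l 16776600) (l 467782335207)) (b (l 502142069623) (l 3))) (l 556366006887)) (l 3))) (b (a (b (a (b (l 496773361975) (l 3)) (l 3)) (l 3)) (l 3)) (l 3)))) (b (a (b (a (b (a (l 16775984) (l 313700367079)) (a (b (l 313163502327) (l 513416357511)) (l 544017990599))) (b (a (b (l 420000814119) (l 558513505415)) (l 3)) (l 3))) (l 3)) (l 3)) (l 3)))), by decide +kernel⟩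

def k22_mm_202_s : ∃ t, chk3 f_mm_202_s t 123 35 1 = true :=
  ⟨(b (a (b (a (b (a (l 16774032) (l 16775384)) (a (b (l 16775568) (a (l 16776288) (b (l 16776728) (l 497310234487)))) (b (a (l 310479145639) (b (l 321216558167) (l 545628607271))) (a (b (l 521469420919) (l 3)) (l 3))))) (b (a (b (l 306721050295) (a (b (l 16776688) (l 421074555975)) (b (l 516100713175) (l 3)))) (b (a (b (l 319605946663) (l 541333641255)) (b (l 567103440183) (l 3))) (l 3))) (a (b (a (l 577840849479) (l 3)) (l 3)) (l 3)))) (a (b (a (b (a (b (l 323364040743) (l 549923573303)) (l 579451461191)) (l 3)) (l 3)) (l 3)) (l 3))) (l 3)) (l 3)), by decide +kernel⟩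

def k23_mm_202_s : ∃ t, chk3 f_mm_202_s t 31 17 1 = true :=
  ⟨(b (a (a (b (b (b (a (l 16770400) (a (l 16774384) (a (b (l 16775912) (a (b (l 16776368) (l 353965701191)) (b (a (l 16776888) (l 453823692151)) (l 574619647063)))) (b (a (b (l 16776688) (a (l 371145571015) (l 552071064135))) (b (a (l 494625881063) (l 602000054119)) (l 3))) (a (b (l 609516240983) (l 3)) (l 3)))))) (a (l 16772480) (a (a (b (l 16775288) (a (l 16775992) (b (l 16776416) (l 359334410391)))) (b (a (l 16776312) (b (l 16776736) (a (l 435570080519) (l 558513513879)))) (a (b (a (l 16776920) (l 512342620487)) (l 577304000311)) (l 617032445095)))) (a (b (a (b (a (l 508047653735) (l 606295020055)) (l 3)) (l 3)) (l 3)) (l 3))))) (a (a (b (l 16773216) (a (l 16774584) (b (l 16775392) (a (l 16776080) (b (l 16776496) (a (l 16776848) (l 327659007863))))))) (b (a (l 16775192) (b (l 16776016) (a (b (l 16776456) (a (l 16776808) (l 325511525303))) (b (a (l 16776960) (l 520395682999)) (l 579451472199))))) (a (b (a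 (l 16776400) (b (l 16776808) (a (l 326585266503) (l 570324671495)))) (a (b (a (l 16771752) (l 527911874551)) (l 582135825527)) (l 3))) (b (a (b (l 548312969655) (l 3)) (l 3)) (l 3))))) (a (b (a (b (a (b (l 16776768) (a (l 450602466119) (l 564419092695))) (b (l 544018003591) (l 3))) (l 3)) (l 3)) (l 3)) (l 3)))) (a (b (a (b (a (b (l 16776104) (a (b (l 16776536) (a (l 16776880) (b (l 16777088) (l 542407388871)))) (b (a (l 367387474615) (l 535428066055)) (l 584820178871)))) (b (a (b (l 286856826311) (l 522543167095)) (b (l 552071059559) (l 3))) (l 3))) (a (b (a (b (l 555829154695) (l 3)) (l 3)) (l 3)) (l 3))) (l 3)) (l 3)) (l 3))) (l 3)) (l 3)) (l 3)), by decide +kernel⟩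

def k24_mm_202_s : ∃ t, chk3 f_mm_202_s t 60 72 1 = true :=
  ⟨(a (a (b (l 16756752) (l 16759792)) (b (l 16742760) (b (l 16766576) (l 16763960)))) (a (b (a (l 16747904) (a (l 16761040) (b (l 16772032) (l 16769296)))) (a (b (l 16762008) (b (a (l 16773648) (l 16773088)) (a (l 16764728) (a (b (l 16765912) (l 317458464311)) (b (l 480130363687) (l 3)))))) (b (a (b (l 16774736) (b (l 16765352) (l 312089756263))) (b (a (l 16776192) (b (l 16771520) (l 496773359927))) (a (b (l 477446010663) (l 3)) (l 3)))) (a (b (a (b (l 310479148119) (l 500531454855)) (l 525764378071)) (l 3)) (l 3))))) (b (a (b (a (l 16752720) (b (l 16774784) (l 305647307383))) (a (b (l 241759658519) (a (l 311016015543) (b (l 324437784599) (l 537038670935)))) (b (a (b (l 16776704) (l 491941523191)) (l 522006284087)) (l 3)))) (b (a (b (a (l 16765616) (b (l 16776648) (l 486572815575))) (a (b (l 321753431095) (l 532743704919)) (l 3))) (b (a (b (l 506973906391) (l 3)) (l 3)) (l 3))) (l 3))) (a (b (a (b (a (l 524153766535)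 (l 3)) (l 3)) (l 3)) (l 3)) (l 3))))), by decide +kernel⟩

def k25_mm_202_s : ∃ t, chk3 f_mm_202_s t 60 73 1 = true :=
  ⟨(a (a (b (b (l 16763488) (l 16745432)) (a (b (l 16767280) (l 16749784)) (b (l 16761552) (a (l 148881008455) (b (l 285783082967) (a (l 300815460039) (l 521469412311))))))) (b (a (b (l 16770024) (a (l 16772112) (l 16774408))) (b (a (l 16752336) (b (l 16753704) (a (l 16765312) (b (l 16776472) (l 462950496311))))) (a (b (l 290614924199) (a (b (l 16776552) (l 466171720215)) (l 496236482215))) (b (a (b (l 307794790487) (l 519858804791)) (l 3)) (l 3))))) (a (b (a (b (l 16753744) (a (l 16775936) (l 302962945031))) (b (a (l 292762406807) (b (l 306721047079) (l 527374996119))) (l 523080019047))) (a (b (a (l 468319199863) (l 3)) (l 3)) (l 3))) (l 3)))) (a (b (a (b (a (b (a (l 296520506359) (b (l 308868533799) (l 503215807959))) (a (b (l 482814716727) (l 3)) (l 3))) (b (l 539186141815) (l 3))) (l 3)) (l 3)) (l 3)) (l 3))), by decide +kernel⟩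

def k26_mm_202_s : ∃ t, chk3 f_mm_202_s t 60 37 1 = true :=
  ⟨(a (b (a (b (a (b (a (l 16752272) (b (l 16753856) (a (l 16776120) (l 444160013431)))) (a (b (l 285783079847) (l 462950486919)) (b (l 508047637383) (l 3)))) (b (a (b (a (l 289541178071) (l 468856069287)) (l 527374983863)) (l 3)) (l 3))) (l 3)) (l 3)) (l 3)) (l 3)), by decide +kernel⟩

def k27_mm_202_s : ∃ t, chk3 f_mm_202_s t 61 18 1 = true :=
  ⟨(l 3), by decide +kernel⟩

def k28_mm_202_s : ∃ t, chk3 f_mm_202_s t 31 18 1 = true :=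
  ⟨(l 3), by decide +kernel⟩

def k29_mm_202_s : ∃ t, chk3 f_mm_202_s t 15 19 1 = true :=
  ⟨(l 3), by decide +kernel⟩

def k30_mm_202_s : ∃ t, chk3 f_mm_202_s t 7 5 1 = true :=
  ⟨(a (a (b (b (a (b (b (l 16695736) (a (l 16724888) (l 16751880))) (a (b (l 16725648) (b (l 16762800) (l 268066270775))) (b (b (l 267529418663) (l 272361205367)) (l 472077211495)))) (b (a (b (a (l 16750472) (l 225653488439)) (a (b (l 16766816) (l 273971859719)) (b (l 410337127687) (l 3)))) (b (a (b (l 260013240903) (l 423222014631)) (l 493552056247)) (l 3))) (a (b (l 493552015079) (l 3)) (l 3)))) (a (b (a (b (l 452749907623) (l 3)) (l 3)) (l 3)) (l 3))) (l 3)) (l 3)) (l 3)), by decide +kernel⟩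

def k31_mm_202_s : ∃ t, chk3 f_mm_202_s t 3 3 1 = true :=
  ⟨(a (b (b (a (b (a (b (l 16645512) (a (l 16706024) (l 123648000487))) (a (b (l 250886346023) (l 364166178439)) (b (l 409800181335) (l 3)))) (a (a (b (l 16746968) (l 307257874551)) (b (l 271824282551) (l 3))) (l 3))) (l 3)) (l 3)) (l 3)) (l 3)), by decide +kernel⟩

theorem s32_mm_202_s : ∃ t, chk3 f_mm_202_s t 60 36 1 = true := ex3_b k24_mm_202_s k25_mm_202_s

theorem s33_mm_202_s : ∃ t, chk3 f_mm_202_s t 60 18 1 = true := ex3_b s32_mm_202_s k26_mm_202_s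

theorem s34_mm_202_s : ∃ t, chk3 f_mm_202_s t 30 18 1 = true := ex3_a s33_mm_202_s k27_mm_202_s

theorem s35_mm_202_s : ∃ t, chk3 f_mm_202_s t 15 18 1 = true := ex3_a s34_mm_202_s k28_mm_202_s

theorem s36_mm_202_s : ∃ t, chk3 f_mm_202_s t 15 9 1 = true := ex3_b s35_mm_202_s k29_mm_202_s

theorem s37_mm_202_s : ∃ t, chk3 f_mm_202_s t 61 35 1 = true := ex3_a k21_mm_202_s k22_mm_202_s

theorem s38_mm_202_s : ∃ t, chk3 f_mm_202_s t 30 35 1 = true := ex3_a k20_mm_202_s s37_mm_202_s

theorem s39_mm_202_s : ∃ t, chk3 f_mm_202_s t 30 17 1 = true := ex3_b k19_mm_202_s s38_mm_202_s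

theorem s40_mm_202_s : ∃ t, chk3 f_mm_202_s t 15 17 1 = true := ex3_a s39_mm_202_s k23_mm_202_s

theorem s41_mm_202_s : ∃ t, chk3 f_mm_202_s t 252 132 1 = true := ex3_a k13_mm_202_s k14_mm_202_s

theorem s42_mm_202_s : ∃ t, chk3 f_mm_202_s t 252 66 1 = true := ex3_b s41_mm_202_s k15_mm_202_s

theorem s43_mm_202_s : ∃ t, chk3 f_mm_202_s t 126 66 1 = true := ex3_a s42_mm_202_s k16_mm_202_s

theorem s44_mm_202_s : ∃ t, chk3 f_mm_202_s t 126 33 1 = true := ex3_b s43_mm_202_s k17_mm_202_s

theorem s45_mm_202_s : ∃ t, chk3 f_mm_202_s t 63 33 1 = true := ex3_a s44_mm_202_s k18_mm_202_s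

theorem s46_mm_202_s : ∃ t, chk3 f_mm_202_s t 62 33 1 = true := ex3_b k11_mm_202_s k12_mm_202_s

theorem s47_mm_202_s : ∃ t, chk3 f_mm_202_s t 31 33 1 = true := ex3_a s46_mm_202_s s45_mm_202_s

theorem s48_mm_202_s : ∃ t, chk3 f_mm_202_s t 15 33 1 = true := ex3_a k10_mm_202_s s47_mm_202_s

theorem s49_mm_202_s : ∃ t, chk3 f_mm_202_s t 31 32 1 = true := ex3_b k8_mm_202_s k9_mm_202_s

theorem s50_mm_202_s : ∃ t, chk3 f_mm_202_s t 15 32 1 = true := ex3_a k7_mm_202_s s49_mm_202_s

theorem s51_mm_202_s : ∃ t, chk3 f_mm_202_s t 15 16 1 = true := ex3_b s50_mm_202_s s48_mm_202_s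

theorem s52_mm_202_s : ∃ t, chk3 f_mm_202_s t 15 8 1 = true := ex3_b s51_mm_202_s s40_mm_202_s

theorem s53_mm_202_s : ∃ t, chk3 f_mm_202_s t 15 4 1 = true := ex3_b s52_mm_202_s s36_mm_202_s

theorem s54_mm_202_s : ∃ t, chk3 f_mm_202_s t 14 9 1 = true := ex3_b k5_mm_202_s k6_mm_202_s

theorem s55_mm_202_s : ∃ t, chk3 f_mm_202_s t 14 4 1 = true := ex3_b k4_mm_202_s s54_mm_202_s

theorem s56_mm_202_s : ∃ t, chk3 f_mm_202_s t 7 4 1 = true := ex3_a s55_mm_202_s s53_mm_202_s

theorem s57_mm_202_s : ∃ t, chk3 f_mm_202_s t 7 2 1 = true := ex3_b s56_mm_202_s k30_mm_202_s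

theorem s58_mm_202_s : ∃ t, chk3 f_mm_202_s t 6 2 1 = true := ex3_b k2_mm_202_s k3_mm_202_s

theorem s59_mm_202_s : ∃ t, chk3 f_mm_202_s t 3 2 1 = true := ex3_a s58_mm_202_s s57_mm_202_s

theorem s60_mm_202_s : ∃ t, chk3 f_mm_202_s t 3 1 1 = true := ex3_b s59_mm_202_s k31_mm_202_s

theorem s61_mm_202_s : ∃ t, chk3 f_mm_202_s t 2 1 1 = true := ex3_b k0_mm_202_s k1_mm_202_s

theorem s62_mm_202_s : ∃ t, chk3 f_mm_202_s t 1 1 1 = true := ex3_a s61_mm_202_s s60_mm_202_s

theorem c_mm_202_s : CertNE 0 536870912 1073741824 536870912 1040187392 5207648 3 eng mog cd0q2 cd5q2 pd0 false false false .pp 2 0 2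
    ndB0q2 ndB5q2 pcB0 cut_mm_202_s Ext.none :=
  certNE1 (fam := false) (s1 := false) (s2 := false) (a := 2) (b := 0) (c := 2) (cn := .pp) (n1 := ndB0q2) (n2 := ndB5q2) (pc := pcB0) (cut := cut_mm_202_s) (xt := Ext.none) (P1 := 0) (W1 := 536870912) (P2 := 1073741824) (W2 := 536870912) (P3 := 1040187392) (W3 := 5207648) (N0 := 3) (En := eng) (mo := mog) (C1 := cd0q2) (C2 := cd5q2) (C3 := pd0)
    rfl (fun _ => rfl) s62_mm_202_s

noncomputable def cut_mm_203_s : Cut := Cut.of [[⟨4, 0, 0, 1449551462⟩]]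

noncomputable def f_mm_203_s : ℕ → ℕ → ℕ → ℕ → Bool := onCell 0 536870912 0 1230186008 1040187392 5207648
    (rowNE 3 eng mog cd0q2 cd5q3 pd0 0 false false false .up 2 0 3 (qsf 0 536870912 0 1230186008 0) ndB0q2 ndB5q3 pcB0 cut_mm_203_s Ext.none)

def k0_mm_203_s : ∃ t, chk3 f_mm_203_s t 1 1 1 = true :=
  ⟨(b (l 2) (b (l 2) (a (b (a (b (l 2) (b (l 2) (a (l 16663912) (a (l 229411538647) (l 3))))) (l 3)) (a (b (a (b (l 16525664) (a (b (l 16484032) (l 16436088)) (l 16546720))) (b (a (l 16707888) (b (l 288467329287) (l 226190339031))) (a (l 16633944) (l 98415067895)))) (a (b (a (l 16334872) (b (l 16477640) (l 16427656))) (l 16257872)) (b (a (l 16543056) (l 16616248)) (a (b (l 16471128) (l 16418368)) (b (l 16570144) (l 16516328)))))) (b (a (b (l 3) (a (a (l 243370169943) (l 363629310343)) (l 3))) (l 3)) (a (b (a (b (l 16743904) (l 16706592)) (b (l 383493508247) (l 301352261207))) (a (l 16661688) (b (l 211157879879) (l 16715112)))) (a (b (l 3) (b (l 3) (l 348596915495)))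 (l 3)))))) (l 3)))), by decide +kernel⟩

theorem c_mm_203_s : CertNE 0 536870912 0 1230186008 1040187392 5207648 3 eng mog cd0q2 cd5q3 pd0 false false false .up 2 0 3
    ndB0q2 ndB5q3 pcB0 cut_mm_203_s Ext.none :=
  certNE0 (fam := false) (s1 := false) (s2 := false) (a := 2) (b := 0) (c := 3) (cn := .up) (n1 := ndB0q2) (n2 := ndB5q3) (pc := pcB0) (cut := cut_mm_203_s) (xt := Ext.none) (P1 := 0) (W1 := 536870912) (P2 := 0) (W2 := 1230186008) (P3 := 1040187392) (W3 := 5207648) (N0 := 3) (En := eng) (mo := mog) (C1 := cd0q2) (C2 := cd5q3) (C3 := pd0)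
    rfl k0_mm_203_s

noncomputable def cut_mm_213_s : Cut := Cut.of [[⟨4, 0, 0, 1449551462⟩]]

noncomputable def f_mm_213_s : ℕ → ℕ → ℕ → ℕ → Bool := onCell 0 536870912 0 1230186008 1040187392 5207648
    (rowNE 3 eng mog cd0q2 cd5q3 pd1 0 false false false .pnn 2 1 3 (qsf 0 536870912 0 1230186008 1) ndB0q2 ndB5q3 pcB1 cut_mm_213_s Ext.none)

def k0_mm_213_s : ∃ t, chk3 f_mm_213_s t 1 1 1 = true :=
  ⟨(b (a (l 3) (b (l 5) (l 3))) (a (b (b (l 3) (a (l 3) (l 3))) (b (a (b (a (b (a (b (l 388325392727) (l 253570748583)) (l 3)) (a (b (l 16720864) (l 16663968)) (b (l 411410803223) (l 326585262471)))) (l 3)) (a (b (a (l 16501248) (b (a (l 16719608) (l 308868498231)) (l 16693408))) (a (l 16425968) (l 16604104))) (b (a (l 413021408311) (l 3)) (a (b (a (l 16746616) (l 307794650967)) (l 1)) (l 3))))) (l 3)) (a (l 1) (b (a (l 1) (l 3)) (l 1))))) (b (l 3) (l 3)))), by decide +kernel⟩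

theorem c_mm_213_s : CertNE 0 536870912 0 1230186008 1040187392 5207648 3 eng mog cd0q2 cd5q3 pd1 false false false .pnn 2 1 3
    ndB0q2 ndB5q3 pcB1 cut_mm_213_s Ext.none :=
  certNE0 (fam := false) (s1 := false) (s2 := false) (a := 2) (b := 1) (c := 3) (cn := .pnn) (n1 := ndB0q2) (n2 := ndB5q3) (pc := pcB1) (cut := cut_mm_213_s) (xt := Ext.none) (P1 := 0) (W1 := 536870912) (P2 := 0) (W2 := 1230186008) (P3 := 1040187392) (W3 := 5207648) (N0 := 3) (En := eng) (mo := mog) (C1 := cd0q2) (C2 := cd5q3) (C3 := pd1)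
    rfl k0_mm_213_s

end Pool.Agent.Strip051.G.I9688_9736.Tab.CS.BB05

namespace Pool.Agent.Strip051.G.I9688_9736.Tab.CS.BB50

open Pool.Agent.Strip051.PB Pool.Agent.Strip051.PB.T
open Pool.Agent.Strip051.G.I9688_9736.Tab

noncomputable def cut_pp_001_s : Cut := Cut.of [[⟨4, 0, 0, 1449551462⟩]]

noncomputable def f_pp_001_s : ℕ → ℕ → ℕ → ℕ → Bool := onCell 0 536870912 536870912 536870912 1040187392 5207648
    (rowNE 3 eng mog cd5q0 cd0q1 pd0 2 false true true .up 0 0 1 (qsf 0 536870912 536870912 536870912 0) ndB5q0 ndB0q1 pcB0 cut_pp_001_s Ext.none)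

def k0_pp_001_s : ∃ t, chk3 f_pp_001_s t 2 1 1 = true :=
  ⟨(b (l 3) (b (b (l 3) (l 2)) (l 2))), by decide +kernel⟩

def k1_pp_001_s : ∃ t, chk3 f_pp_001_s t 3 2 1 = true :=
  ⟨(a (l 3) (b (l 3) (a (b (l 3) (b (a (l 3) (b (l 3) (a (l 3) (l 308868401703)))) (a (b (l 567103325207) (a (l 553681614279) (l 239075258263))) (b (a (l 298130991207) (l 16727400)) (l 16692032))))) (b (b (a (l 3) (b (l 3) (l 592336295719))) (a (b (l 3) (a (l 3) (l 327122003239))) (a (b (l 557976604407) (l 16750080)) (b (l 16734352) (l 16703304))))) (a (b (b (a (l 317995201847) (l 16743792)) (a (l 16736288) (l 16688592))) (b (l 16612904) (l 16597296))) (b (a (l 16668080) (l 16600296)) (l 16491376))))))), by decide +kernel⟩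

def k2_pp_001_s : ∃ t, chk3 f_pp_001_s t 3 3 1 = true :=
  ⟨(b (a (a (b (b (l 3) (a (l 3) (b (l 3) (a (l 3) (l 520395618103))))) (b (a (l 2) (b (a (l 2) (l 125191486711)) (l 2))) (l 2))) (b (b (a (l 3) (b (a (l 3) (l 502142029239)) (a (l 312626457543) (l 16739616)))) (a (b (a (l 534354228247) (l 287393538567)) (a (l 269676794951) (l 16688712))) (a (b (l 16725832) (l 16660504)) (l 16580632)))) (a (b (b (a (l 16670792) (l 16642448)) (l 16534200)) (l 318464195479)) (b (a (l 16537376) (l 16510224)) (l 16329440))))) (a (b (a (b (a (b (l 16738176) (l 16691728)) (l 16610496)) (b (l 16582608) (l 16539152))) (b (b (l 16611224) (l 16571408)) (l 16456000))) (a (b (l 16417528) (l 16300216)) (b (l 16348176) (l 16210976)))) (b (b (a (l 16487448) (l 16420936)) (a (l 16388224) (l 16305376))) (b (a (l 16263448) (l 16185680)) (a (l 16060952) (b (l 16087688) (l 16009704))))))) (b (a (a (l 2) (b (a (l 2) (b (l 16283264) (l 2))) (l 2))) (a (b (a (b (l 16188344) (l 16111488)) (b (l 16102840)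 (l 16006712))) (a (l 344769636071) (l 15849224))) (b (a (l 15957296) (l 15862992)) (a (l 15751584) (l 15660720))))) (a (l 2) (b (a (b (l 351748516151) (l 2)) (b (l 15541824) (l 6))) (a (l 2) (l 6)))))), by decide +kernel⟩

theorem s3_pp_001_s : ∃ t, chk3 f_pp_001_s t 3 1 1 = true := ex3_b k1_pp_001_s k2_pp_001_s

theorem s4_pp_001_s : ∃ t, chk3 f_pp_001_s t 1 1 1 = true := ex3_a k0_pp_001_s s3_pp_001_s

theorem c_pp_001_s : CertNE 0 536870912 536870912 536870912 1040187392 5207648 3 eng mog cd5q0 cd0q1 pd0 false true true .up 0 0 1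
    ndB5q0 ndB0q1 pcB0 cut_pp_001_s Ext.none :=
  certNE2 (fam := false) (s1 := true) (s2 := true) (a := 0) (b := 0) (c := 1) (cn := .up) (n1 := ndB5q0) (n2 := ndB0q1) (pc := pcB0) (cut := cut_pp_001_s) (xt := Ext.none) (P1 := 0) (W1 := 536870912) (P2 := 536870912) (W2 := 536870912) (P3 := 1040187392) (W3 := 5207648) (N0 := 3) (En := eng) (mo := mog) (C1 := cd5q0) (C2 := cd0q1) (C3 := pd0)
    rfl (fun _ => rfl) s4_pp_001_s

noncomputable def cut_pp_011_s : Cut := Cut.of [[⟨4, 0, 0, 1449551462⟩]]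

noncomputable def f_pp_011_s : ℕ → ℕ → ℕ → ℕ → Bool := onCell 536870912 536870912 536870912 536870912 1040187392 5207648
    (rowNE 3 eng mog cd5q0 cd0q1 pd1 2 false true true .pnn 0 1 1 (qsf 0 536870912 536870912 536870912 1) ndB5q0 ndB0q1 pcB1 cut_pp_011_s Ext.none)

def k0_pp_011_s : ∃ t, chk3 f_pp_011_s t 1 1 1 = true :=
  ⟨(a (b (a (b (a (b (l 3) (a (b (l 3) (b (l 3) (l 548312888327))) (a (b (l 3) (b (l 557439723015) (l 275045612295))) (b (l 591262556551) (b (l 276119352103) (l 16771016)))))) (b (a (a (l 3) (l 1)) (l 1)) (a (b (a (b (l 589115104119) (l 276656221559)) (b (l 285111937319) (l 16772072))) (a (l 16770496) (l 16765728))) (b (l 307123679271) (l 16751568))))) (a (b (a (b (b (a (l 518785022711) (l 272898131479)) (a (l 16746544) (l 16765472))) (a (l 16754488) (l 16744872))) (b (a (l 16764368) (l 16758048)) (l 16734520))) (a (b (l 16710656) (l 16655280)) (b (l 16693744) (l 16637656)))) (b (a (b (l 16751024) (l 16722400)) (b (l 16738256) (l 16709352))) (a (l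 16658432) (l 16646800))))) (b (a (b (l 1) (a (b (l 1) (l 16710440)) (l 1))) (l 1)) (a (b (a (l 16700040) (l 16572512)) (a (l 16628408) (l 16505592))) (b (a (l 16544328) (l 1)) (a (b (l 16522880) (l 16471912)) (b (l 16401328) (l 16301864))))))) (b (a (b (a (a (l 16393344) (l 16458760)) (b (l 16530504) (a (l 16459920) (l 16451776)))) (a (b (a (l 16354576) (b (l 16386344) (l 16345248))) (a (l 16307096) (l 16322840))) (a (b (l 16370968) (l 16328368)) (l 16337920)))) (a (b (a (b (l 16527176) (l 16424400)) (b (l 16475208) (l 16356248))) (a (l 16307232) (l 6))) (b (a (l 16288664) (l 16093336)) (l 6)))) (b (a (a (b (l 16191384) (a (l 16248120) (l 6))) (b (l 6) (l 6))) (l 6)) (l 6)))) (b (a (b (l 1) (a (b (l 1) (a (l 459593368343) (l 1))) (l 1))) (l 1)) (b (a (a (l 6) (l 6)) (l 6)) (l 6)))), by decide +kernel⟩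

theorem c_pp_011_s : CertNE 0 536870912 536870912 536870912 1040187392 5207648 3 eng mog cd5q0 cd0q1 pd1 false true true .pnn 0 1 1
    ndB5q0 ndB0q1 pcB1 cut_pp_011_s Ext.none :=
  certNE2 (fam := false) (s1 := true) (s2 := true) (a := 0) (b := 1) (c := 1) (cn := .pnn) (n1 := ndB5q0) (n2 := ndB0q1) (pc := pcB1) (cut := cut_pp_011_s) (xt := Ext.none) (P1 := 0) (W1 := 536870912) (P2 := 536870912) (W2 := 536870912) (P3 := 1040187392) (W3 := 5207648) (N0 := 3) (En := eng) (mo := mog) (C1 := cd5q0) (C2 := cd0q1) (C3 := pd1)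
    rfl (fun _ => rfl) k0_pp_011_s

noncomputable def cut_pp_012_s : Cut := Cut.of [[⟨4, 0, 0, 1449551462⟩]]

noncomputable def f_pp_012_s : ℕ → ℕ → ℕ → ℕ → Bool := onCell 0 536870912 0 536870912 1040187392 5207648
    (rowNE 3 eng mog cd5q0 cd0q2 pd1 0 false true true .pnp 0 1 2 (qsf 0 536870912 0 536870912 1) ndB5q0 ndB0q2 pcB1 cut_pp_012_s Ext.none)

def k0_pp_012_s : ∃ t, chk3 f_pp_012_s t 1 1 1 = true :=
  ⟨(b (l 6) (l 6)), by decide +kernel⟩

theorem c_pp_012_s : CertNE 0 536870912 0 536870912 1040187392 5207648 3 eng mog cd5q0 cd0q2 pd1 false true true .pnp 0 1 2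
    ndB5q0 ndB0q2 pcB1 cut_pp_012_s Ext.none :=
  certNE0 (fam := false) (s1 := true) (s2 := true) (a := 0) (b := 1) (c := 2) (cn := .pnp) (n1 := ndB5q0) (n2 := ndB0q2) (pc := pcB1) (cut := cut_pp_012_s) (xt := Ext.none) (P1 := 0) (W1 := 536870912) (P2 := 0) (W2 := 536870912) (P3 := 1040187392) (W3 := 5207648) (N0 := 3) (En := eng) (mo := mog) (C1 := cd5q0) (C2 := cd0q2) (C3 := pd1)
    rfl k0_pp_012_s

noncomputable def cut_pp_022_s : Cut := Cut.of [[⟨4, 0, 0, 1449551462⟩]]

noncomputable def f_pp_022_s : ℕ → ℕ → ℕ → ℕ → Bool := onCell 1073741824 536870912 0 536870912 1040187392 5207648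
    (rowNE 3 eng mog cd5q0 cd0q2 pd2 2 false true true .pp 0 2 2 (qsf 0 536870912 0 536870912 2) ndB5q0 ndB0q2 pcB2 cut_pp_022_s Ext.none)

def k0_pp_022_s : ∃ t, chk3 f_pp_022_s t 1 1 1 = true :=
  ⟨(l 6), by decide +kernel⟩

theorem c_pp_022_s : CertNE 0 536870912 0 536870912 1040187392 5207648 3 eng mog cd5q0 cd0q2 pd2 false true true .pp 0 2 2
    ndB5q0 ndB0q2 pcB2 cut_pp_022_s Ext.none :=
  certNE2 (fam := false) (s1 := true) (s2 := true) (a := 0) (b := 2) (c := 2) (cn := .pp) (n1 := ndB5q0) (n2 := ndB0q2) (pc := pcB2) (cut := cut_pp_022_s) (xt := Ext.none) (P1 := 0) (W1 := 536870912) (P2 := 0) (W2 := 536870912) (P3 := 1040187392) (W3 := 5207648) (N0 := 3) (En := eng) (mo := mog) (C1 := cd5q0) (C2 := cd0q2) (C3 := pd2)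
    rfl (fun _ => rfl) k0_pp_022_s

noncomputable def cut_pp_101_s : Cut := Cut.of [[⟨4, 0, 0, 1449551462⟩], [⟨0, 1, 0, 22369621⟩, ⟨1, 0, 0, 22369621⟩, ⟨2, 1, 0, 22369621⟩]]

noncomputable def f_pp_101_s : ℕ → ℕ → ℕ → ℕ → Bool := onCell 0 536870912 536870912 536870912 1040187392 5207648
    (rowNE 3 eng mog cd5q1 cd0q1 pd0 2 false true true .npn 1 0 1 (qsf 536870912 536870912 536870912 536870912 0) ndB5q1 ndB0q1 pcB0 cut_pp_101_s Ext.none)

def k0_pp_101_s : ∃ t, chk3 f_pp_101_s t 2 2 1 = true :=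
  ⟨(l 3), by decide +kernel⟩

def k1_pp_101_s : ∃ t, chk3 f_pp_101_s t 4 6 1 = true :=
  ⟨(l 3), by decide +kernel⟩

def k2_pp_101_s : ∃ t, chk3 f_pp_101_s t 8 14 1 = true :=
  ⟨(l 3), by decide +kernel⟩

def k3_pp_101_s : ∃ t, chk3 f_pp_101_s t 8 30 1 = true :=
  ⟨(a (l 3) (b (l 3) (a (l 3) (b (l 3) (a (l 3) (b (l 3) (a (l 3) (b (l 3) (a (b (l 3) (a (l 3) (b (l 3) (a (b (l 3) (l 538649290519)) (b (l 531133098951) (l 16776824)))))) (b (a (l 3) (b (l 581062073175) (a (b (l 3) (l 508047653319)) (b (l 329806495319) (l 16776576))))) (a (b (a (b (l 3) (l 523080036471)) (b (l 515563844903) (l 16776704))) (l 16773472)) (l 16775304)))))))))))), by decide +kernel⟩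

def k4_pp_101_s : ∃ t, chk3 f_pp_101_s t 32 62 1 = true :=
  ⟨(l 3), by decide +kernel⟩

def k5_pp_101_s : ∃ t, chk3 f_pp_101_s t 32 126 1 = true :=
  ⟨(a (l 3) (b (l 3) (a (l 3) (b (l 3) (a (l 3) (b (l 3) (a (l 3) (b (l 3) (a (l 3) (a (l 3) (b (l 3) (b (l 3) (a (a (l 3) (a (l 557976649863) (l 499457719751))) (b (a (l 3) (l 321753448631)) (l 16777128))))))))))))))), by decide +kernel⟩

def k6_pp_101_s : ∃ t, chk3 f_pp_101_s t 64 127 1 = true :=
  ⟨(l 14), by decide +kernel⟩

def k7_pp_101_s : ∃ t, chk3 f_pp_101_s t 65 254 1 = true :=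
  ⟨(a (l 14) (b (a (b (b (l 3) (b (l 3) (l 14))) (l 14)) (b (a (b (a (l 3) (a (l 3) (b (l 3) (b (l 3) (b (a (l 3) (l 523616911463)) (a (l 531669975143) (a (c (l 192367558167) (l 191830687255)) (l 16777120)))))))) (a (b (b (l 3) (a (l 3) (a (a (l 3) (l 567640326295)) (b (l 545628618871) (b (a (l 406042181751) (l 16777176)) (l 16777128)))))) (b (a (a (c (l 579451486407) (l 581598970055)) (b (l 561197875319) (b (a (l 416242729095) (l 16777176)) (l 16777136)))) (b (a (b (a (l 402284085383) (l 16777176)) (l 16777136)) (l 16777000)) (l 16774296))) (a (a (l 14) (l 16774304)) (l 16776656)))) (b (a (b (b (a (l 3) (l 539723038823)) (a (l 547776102503) (a (a (l 258939551911) (l 16777184)) (l 16777128)))) (b (a (b (a (l 391546667127) (l 16777168)) (l 16777128)) (l 16777000)) (l 16774288))) (a (a (b (b (c (l 202568105495) (l 202031234583)) (l 16777040)) (l 16776776)) (l 16776864)) (l 16774112))) (l 16771056)))) (b (a (a (b (l 3) (a (b (b (l 3) (l 525227524183)) (a (b (l 194515041799)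 (l 16777032)) (l 16777032))) (b (b (l 517174460503) (a (l 184314495127) (l 16777112))) (l 16776896)))) (b (b (l 3) (a (b (l 3) (l 509121396823)) (b (l 501068333143) (a (l 174650818695) (l 16777104))))) (a (a (b (b (l 173577076887) (l 16777024)) (l 16776768)) (l 16776848)) (l 16771480)))) (b (b (a (a (a (l 3) (a (l 573545906311) (l 505900170711))) (b (a (l 3) (c (l 329806512327) (l 330343383239))) (l 46875541671))) (a (c (l 15737028775) (l 14126416039)) (l 16776880))) (b (b (a (a (l 140827951271) (l 16777016)) (l 16776752)) (l 16776840)) (l 16776712))) (l 16771040))) (a (l 16773328) (l 16775256)))) (b (b (a (l 16774648) (l 16774560)) (l 16771936)) (l 16763016)))) (a (l 14) (l 16764696)))), by decide +kernel⟩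

def k8_pp_101_s : ∃ t, chk3 f_pp_101_s t 65 255 1 = true :=
  ⟨(l 14), by decide +kernel⟩

def k9_pp_101_s : ∃ t, chk3 f_pp_101_s t 33 62 1 = true :=
  ⟨(b (l 3) (a (l 3) (b (l 3) (a (l 3) (b (l 3) (a (l 3) (b (l 3) (a (l 3) (b (l 3) (a (a (l 3) (b (l 3) (b (l 3) (b (l 579988354343) (b (a (l 407652794583) (l 16777144)) (l 376514280967)))))) (a (b (l 3) (a (b (l 574619645479) (l 16777040)) (a (l 364166249527) (l 16776336)))) (b (b (l 651929051463) (a (l 565492840327) (l 443623144919))) (l 16776824))))))))))))), by decide +kernel⟩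

def k10_pp_101_s : ∃ t, chk3 f_pp_101_s t 66 252 1 = true :=
  ⟨(a (l 3) (b (l 3) (a (l 3) (b (l 3) (a (l 3) (b (l 3) (a (l 3) (b (l 3) (b (b (l 662666472471) (a (l 3) (a (l 630991092183) (l 16777152)))) (a (a (l 659445249319) (l 539723038247)) (l 291151805735))))))))))), by decide +kernel⟩

def k11_pp_101_s : ∃ t, chk3 f_pp_101_s t 132 506 1 = true :=
  ⟨(a (l 3) (b (l 3) (a (l 3) (a (l 3) (a (l 709911116727) (b (l 3) (b (l 3) (b (l 681993830247) (b (a (l 586430808071) (l 150491627655)) (a (l 160692174983) (l 16777000))))))))))), by decide +kernel⟩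

def k12_pp_101_s : ∃ t, chk3 f_pp_101_s t 264 507 1 = true :=
  ⟨(b (a (l 3) (b (l 3) (a (l 3) (a (l 3) (b (l 3) (b (l 3) (a (a (l 534354329735) (b (l 3) (l 16777184))) (a (b (l 351818219735) (l 16777112)) (l 26474447047))))))))) (a (b (a (l 3) (a (l 3) (b (l 3) (b (l 3) (a (a (l 576230260903) (b (l 3) (l 232632877255))) (b (a (l 442012532951) (l 233169748151)) (l 16777096))))))) (b (a (a (l 3) (b (l 3) (a (a (l 598241968311) (b (l 3) (c (l 264308260423) (l 264308260423)))) (b (a (l 514490106039) (c (l 289541193895) (l 289541193895))) (l 16777112))))) (a (b (a (a (l 591262646439) (b (l 3) (l 255181455559))) (b (a (l 465097982167) (l 243907166407)) (l 16777104))) (l 16776944)) (l 16776768))) (a (b (a (a (a (l 617032450231) (b (l 3) (l 311016030391))) (b (a (l 541333651639) (c (l 275045678663) (l 275045678663))) (l 16777120))) (l 16776952)) (a (c (l 16776952) (l 16776952)) (l 16776616))) (l 16771024)))) (b (a (a (b (l 3) (b (a (a (l 569250939031) (b (l 3) (l 221358588087)))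 (b (a (l 431811985607) (l 210084298935)) (l 16777096))) (l 16776928))) (b (b (l 3) (a (a (l 554218553495) (b (l 3) (l 210084298919))) (b (a (l 383493603559) (l 197736267943)) (l 16777088)))) (l 16776752))) (a (b (b (b (b (l 539186167943) (a (l 3) (l 192904429719))) (a (a (l 409263407287) (l 185925107879)) (l 16777080))) (l 16776912)) (l 16776416)) (l 16776408))) (l 16775584)))), by decide +kernel⟩

def k13_pp_101_s : ∃ t, chk3 f_pp_101_s t 265 507 1 = true :=
  ⟨(b (a (b (b (l 3) (a (l 3) (a (b (l 3) (l 610053128471)) (b (l 599315710231) (b (a (l 593947000967) (a (l 289541193895) (l 16777152))) (b (a (l 264845131991) (l 16777080)) (l 16777080))))))) (a (a (b (l 3) (b (b (b (l 516100718055) (a (l 3) (l 16777176))) (b (a (l 337859576023) (l 16777104)) (l 31843156151))) (l 16776896))) (b (b (l 616495579431) (a (a (l 518785073255) (b (l 3) (l 16777168))) (a (b (l 315847868615) (l 16777096)) (l 16777088)))) (l 16776728))) (a (b (b (a (b (l 604684419223) (a (l 315310997687)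 (l 16777168))) (a (b (l 278803775703) (l 16777088)) (l 16777080))) (l 16776888)) (l 16776392)) (l 16776392)))) (b (b (b (a (a (l 3) (a (l 3) (l 576230260919))) (a (b (a (l 540796780663) (l 170892722311)) (a (l 172503333751) (l 16777016))) (l 16776848))) (a (b (a (l 3) (a (l 561734746231) (a (l 225653555383) (l 16777136)))) (a (l 583209582791) (a (a (l 226727297223) (l 16777144)) (l 16777024)))) (l 16776688))) (b (a (a (b (a (l 573009035399) (a (l 240149070023) (l 16777144))) (b (a (l 251423359175) (l 16777072)) (l 16777072))) (l 16776864)) (l 16776368)) (l 16776376))) (l 16775568))) (a (a (l 16775248) (l 16764096)) (l 16752632))), by decide +kernel⟩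

def k14_pp_101_s : ∃ t, chk3 f_pp_101_s t 133 506 1 = true :=
  ⟨(a (b (a (l 3) (b (l 3) (a (l 3) (b (l 3) (a (l 654613413527) (b (l 624548641095) (b (a (a (l 421074567351) (l 194515042471)) (l 16777088)) (l 16777016)))))))) (b (a (a (l 3) (a (l 688973151511) (b (l 3) (b (l 652465929031) (a (b (a (l 700247440871) (l 311016030375)) (l 16777128)) (l 16777048)))))) (a (a (b (l 665350830999) (a (b (b (a (l 482814722263) (l 258402681031)) (l 16777120)) (l 16776888)) (l 16776880))) (b (b (l 638507285015) (a (b (a (l 480130367671) (l 265918873751)) (l 16777112)) (l 16777032))) (l 16776640))) (a (a (b (b (b (a (l 463487369383) (l 212768653495)) (l 16777104)) (l 16776872)) (l 16776400)) (l 16776552)) (l 16776320)))) (a (a (a (b (l 687362538679) (b (a (b (l 641728511863) (l 95193923703)) (l 275582549559)) (l 16776840))) (b (b (l 666961444119) (b (a (l 628843609879) (l 16777136)) (l 297594256871))) (l 16776672))) (a (b (a (b (b (a (l 3) (l 302426095831)) (l 16777136)) (l 16776904))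 (l 16776896)) (l 16776344)) (l 16776344))) (l 16775544)))) (a (b (b (a (l 3) (b (l 3) (b (a (l 3) (c (l 598778838375) (l 594483870759))) (a (l 604147547655) (b (a (a (l 300278612151) (l 16777168)) (l 16777048)) (l 16776976)))))) (a (a (b (c (l 647097220231) (l 640117898599)) (b (b (b (a (l 363092508887) (l 16777120)) (l 50096767143)) (l 16777008)) (l 16776776))) (b (b (l 610589998599) (b (b (a (l 345912639687) (l 16777112)) (l 16777104)) (l 16777000))) (l 16776608))) (b (b (b (b (a (a (l 328195899575) (l 16777096)) (l 16776864)) (l 16776944)) (l 16776832)) (l 16776600)) (l 16776144)))) (l 16774912)) (b (b (a (b (b (a (l 3) (a (l 668572054791) (l 548312972711))) (a (c (l 592336387431) (l 588578290807)) (l 298667998535))) (b (a (l 279340645799) (l 16776736)) (l 16776584))) (b (a (l 296520514327) (l 16776568)) (l 16776120))) (l 16775512)) (l 16773672)))), by decide +kernel⟩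

def k15_pp_101_s : ∃ t, chk3 f_pp_101_s t 133 507 1 = true :=
  ⟨(a (a (b (l 16774912) (l 16772320)) (l 16772360)) (l 16770520)), by decide +kernel⟩

def k16_pp_101_s : ∃ t, chk3 f_pp_101_s t 134 252 1 = true :=
  ⟨(b (a (l 3) (b (l 3) (a (l 3) (b (l 3) (a (b (l 3) (a (l 3) (l 647634091255))) (a (b (l 3) (b (l 630454217735) (b (a (l 399062858695) (l 16777144)) (l 16777080)))) (a (b (l 3) (b (b (a (l 514490106071) (l 335175221383)) (l 16777136)) (l 16776928))) (b (l 632064834263) (l 16776928))))))))) (a (b (a (l 3) (b (l 3) (b (l 3) (a (l 3) (a (a (l 624548641911) (b (l 3) (b (a (l 359334412503) (l 16777192)) (l 16777088)))) (b (b (l 576230259031) (b (a (l 400136601735) (l 16777120)) (l 16777112))) (l 16776936))))))) (a (b (a (l 3) (b (l 3) (b (b (l 639581025879) (a (l 3) (a (a (l 466171724007) (l 301889224839)) (l 16777120)))) (a (b (l 619716802135) (a (a (l 541333651639) (l 311016030375)) (l 16777128))) (l 16776976))))) (a (b (b (b (l 650855314983) (a (l 3) (a (a (l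 3) (l 306721063127)) (l 16777136)))) (a (b (l 637433542039) (a (l 618643061319) (l 16777144))) (l 16776992))) (l 322827187975)) (l 314237252071))) (b (a (b (a (b (l 3) (b (l 602000062295) (a (a (l 432348856551) (l 242833424551)) (l 16777112)))) (b (a (l 596631353287) (b (a (l 445233758359) (l 16777200)) (l 16777096))) (l 16776960))) (l 16776672)) (l 16776360)) (l 16775488)))) (b (a (b (a (b (l 3) (l 671256410375)) (b (a (l 3) (l 657834635703)) (a (b (l 658371504439) (a (l 553681681287) (l 277193162391))) (a (b (l 545091746935) (l 16776976)) (l 340543929127))))) (b (a (a (b (l 672867018807) (b (l 568177195543) (a (a (l 357186928791) (l 16777176)) (l 16777072)))) (a (b (l 562271615671) (l 16776992)) (l 347523251031))) (l 16776616)) (l 16776344))) (b (a (b (b (a (l 644412861063) (b (a (l 611126867959) (l 16777152)) (l 16776760))) (b (a (l 534354328999) (l 16776952)) (l 333027736343))) (l 16776600)) (l 16776304)) (l 16775472))) (l 16776376)))), by decide +kernel⟩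

def k17_pp_101_s : ∃ t, chk3 f_pp_101_s t 135 252 1 = true :=
  ⟨(b (a (b (a (l 3) (b (l 3) (a (a (l 3) (b (l 3) (b (l 3) (l 582672710903)))) (b (a (l 3) (a (l 646560341799) (b (l 3) (l 538112425079)))) (b (a (c (l 576230259207) (l 574082776327)) (l 350207605879)) (l 331417123447)))))) (a (b (a (a (l 3) (a (l 3) (b (l 3) (l 620253674631)))) (a (b (l 3) (b (l 603073804759) (b (a (a (l 463487369351) (l 16777200)) (l 16777104)) (l 16777032)))) (b (b (l 3) (l 596094483159)) (a (a (l 364703120471) (l 16776664)) (l 16776888))))) (b (a (a (b (l 616495577079) (b (a (a (l 584283324503) (l 284172484759)) (l 16777120)) (l 16777056))) (a (a (b (b (l 463487369399) (l 16777152)) (l 16776944)) (l 346449509335)) (l 16776904))) (l 16776552)) (l 16776280))) (b (a (b (a (b (l 589115161575) (l 349133864199)) (l 337859574423)) (l 16776528)) (l 16776240)) (l 16775432)))) (b (a (b (a (b (l 3) (b (l 3) (b (l 632064835527) (a (l 3) (a (l 600926320407) (l 16777152)))))) (a (b (l 3) (b (b (l 606831898967)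 (a (l 428053889191) (l 16777144))) (l 16777016))) (b (b (l 3) (b (l 597705093783) (a (l 395841634471) (l 16777136)))) (l 16776872)))) (a (b (b (a (a (l 628843605671) (b (l 607368771191) (l 16777160))) (l 327659027607)) (l 323900930647)) (l 16776496)) (l 16776208))) (b (a (a (b (b (b (l 589115159511) (a (a (l 496773365927) (l 238538457271)) (l 16777120))) (l 16776992)) (l 16776592)) (l 16776584)) (l 16776168)) (l 16775384))) (l 16774336))) (b (a (l 16774352) (l 16772208)) (l 16771088))), by decide +kernel⟩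

def k18_pp_101_s : ∃ t, chk3 f_pp_101_s t 67 253 1 = true :=
  ⟨(a (b (a (b (c (l 16775600) (l 16774304)) (l 16771880)) (l 16770808)) (l 16767032)) (b (l 16767672) (l 16762944))), by decide +kernel⟩

def k19_pp_101_s : ∃ t, chk3 f_pp_101_s t 33 127 1 = true :=
  ⟨(b (a (b (a (a (b (a (a (l 16776560) (l 16764088)) (l 16752592)) (l 16750512)) (l 16749264)) (l 16745544)) (a (l 16745008) (l 16761104))) (a (l 16738400) (l 16754856))) (a (b (a (l 16749608) (l 16734336)) (b (l 16732232) (l 16729080))) (a (l 16746608) (l 16719520)))), by decide +kernel⟩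

def k20_pp_101_s : ∃ t, chk3 f_pp_101_s t 34 124 1 = true :=
  ⟨(a (l 3) (b (l 3) (a (l 3) (b (l 3) (a (l 3) (b (l 3) (a (b (l 3) (a (b (l 3) (l 590188891191)) (b (l 582672699527) (a (l 512342621255) (l 16776960))))) (b (a (b (l 3) (l 575156507863)) (b (l 567640316199) (a (l 326048400855) (l 16776896)))) (a (b (a (l 329269624919) (l 16776928)) (l 16776552)) (l 16776248)))))))))), by decide +kernel⟩

def k21_pp_101_s : ∃ t, chk3 f_pp_101_s t 68 250 1 = true :=
  ⟨(a (l 3) (b (l 3) (a (l 3) (b (l 3) (a (b (l 3) (a (l 3) (b (l 3) (a (l 3) (l 586967678263))))) (b (a (l 3) (b (l 3) (a (l 3) (c (l 568714066791) (l 566566577335))))) (a (b (a (l 3) (c (l 578377742311) (l 575693381847))) (a (a (l 530596232311) (l 455971175463)) (l 338933316119))) (a (b (b (l 549386711959) (l 16777056)) (l 16776680)) (l 16776664))))))))), by decide +kernel⟩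

def k22_pp_101_s : ∃ t, chk3 f_pp_101_s t 136 251 1 = true :=
  ⟨(b (a (l 3) (b (l 3) (a (l 3) (b (l 3) (a (b (l 3) (b (a (l 3) (b (l 599852576215) (a (l 590188901703) (l 16777168)))) (a (a (l 613274348519) (l 525227523143)) (l 289541188311)))) (b (b (a (l 3) (a (l 585357062311) (a (l 513953234679) (l 438791306839)))) (a (a (l 594483867399) (b (l 420537696423) (l 16777152))) (l 16777016))) (l 303499832279))))))) (a (b (a (l 3) (b (l 3) (a (b (l 3) (a (a (l 3) (l 622401159031)) (b (l 608979385847) (b (a (l 406579051415) (l 16777144)) (l 16777080))))) (a (b (b (l 3) (l 602000064359)) (a (a (b (b (l 494089011399) (l 16777168)) (l 16776976)) (l 345375767639)) (l 16776936))) (b (b (l 595020741559) (b (b (a (l 491941527687) (l 16777152)) (l 379735506407)) (l 16777056))) (l 16776728)))))) (a (b (a (b (l 3) (a (l 646560349287) (b (l 637433537511) (a (l 547776100935) (l 370608700759))))) (b (b (a (l 3) (l 622938023575)) (a (l 630454215991) (a (l 530596232487) (l 355039444279))))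 (b (b (a (l 536501812247) (l 16776976)) (l 340007058247)) (l 16776784)))) (a (b (a (a (b (l 556902906087) (l 16777016)) (l 345912638407)) (l 16776800)) (l 16776416)) (l 16776128))) (b (a (b (b (b (a (a (l 628306739015) (l 16777152)) (l 16776952)) (l 322827189095)) (l 16776760)) (l 16776368)) (l 16776088)) (l 16775320)))) (b (a (b (a (b (l 3) (b (a (l 3) (c (l 581598968471) (l 579451484327))) (a (c (l 589115160887) (l 585893934855)) (l 369534958791)))) (b (b (a (l 3) (a (l 627769862743) (l 539723037351))) (a (a (l 640654764231) (l 550997326103)) (l 357186927767))) (a (c (l 343228283575) (l 343228283591)) (l 16776680)))) (a (b (b (b (a (l 457581788679) (l 16776904)) (l 16776904)) (l 16776712)) (l 16776328)) (l 16776048))) (b (a (b (a (l 333027736039) (l 16776656)) (l 16776280)) (l 16776000)) (l 16775248))) (l 16774248)))), by decide +kernel⟩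

def k23_pp_101_s : ∃ t, chk3 f_pp_101_s t 137 251 1 = true :=
  ⟨(b (a (b (a (b (l 3) (a (l 3) (b (l 3) (a (l 3) (l 635286048903))))) (b (a (l 3) (b (l 3) (a (l 3) (l 606295031895)))) (a (b (a (l 3) (l 615958707431)) (b (a (l 627232989671) (l 479056625015)) (b (a (l 538112424311) (l 16777000)) (l 345912638247)))) (b (a (a (l 563882228775) (b (l 597705092503) (l 16777104))) (a (a (b (l 339470177751) (l 16777008)) (l 361481894983)) (l 16776968))) (l 16776664))))) (a (b (a (b (l 3) (a (b (l 3) (c (l 525227523431) (l 525764393543))) (a (b (l 567640323063) (l 16777056)) (l 355039444007)))) (b (a (b (l 3) (c (l 502678944631) (l 513416363463))) (a (b (l 549923583831) (l 16777032)) (l 349133863911))) (l 16776712))) (a (l 16775176) (l 16775952))) (b (l 16776168) (l 16775152)))) (b (a (b (a (b (a (l 3) (l 596631353767)) (a (a (l 552607939191) (a (l 516100717735) (l 468319206695))) (c (l 284709345751) (l 284172474839)))) (a (b (b (l 576767126615) (l 422148308135)) (l 16776736))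 (l 297057377815))) (l 16776112)) (l 16775552)) (l 16774072))) (a (b (l 16774168) (l 16772176)) (l 16771120))), by decide +kernel⟩

def k24_pp_101_s : ∃ t, chk3 f_pp_101_s t 69 125 1 = true :=
  ⟨(b (a (b (a (l 3) (b (l 3) (a (b (l 3) (a (l 3) (b (l 3) (a (l 588578282455) (l 512342621351))))) (b (a (l 3) (b (l 3) (a (l 569250931671) (a (l 515026975815) (l 319069083831))))) (b (a (a (l 578914607063) (a (l 525764393047) (l 322290307719))) (l 16776800)) (l 304036700663)))))) (a (b (a (b (l 3) (a (l 3) (b (l 3) (a (l 3) (l 549386712967))))) (b (a (l 3) (b (l 3) (a (l 608442504183) (l 530596231687)))) (a (b (a (l 3) (l 540259908439)) (a (l 434496338727) (l 16776832))) (b (a (l 317458469367) (l 16776800)) (l 16776424))))) (a (b (a (b (a (l 3) (l 558513520135)) (a (a (l 504289557687) (l 276656281831)) (l 16776888))) (a (a (b (l 484962204791) (l 16776688)) (l 294909893831)) (l 16776608))) (l 16776000)) (l 16775432))) (b (a (b (a (b (a (l 598241957863) (l 521469425863)) (l 289004312343))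 (l 305647311687)) (l 16775872)) (l 16775296)) (l 16773832)))) (b (a (b (a (b (l 3) (a (l 3) (b (l 3) (a (l 549923580903) (l 321216564519))))) (b (a (b (l 3) (l 612737467303)) (b (l 597705082871) (a (l 531133101079) (l 315847858551)))) (a (b (a (l 540796776439) (l 318532211607)) (l 16776696)) (l 16776408)))) (a (b (a (b (a (l 559587256279) (l 388325431527)) (l 16776768)) (l 16776480)) (l 16775728)) (l 16775144))) (b (a (b (a (b (a (l 522006296615) (l 16771752)) (l 16776624)) (l 16776328)) (l 16775576)) (l 16774976)) (l 16773504))) (a (l 16772688) (l 16770544)))) (a (b (a (l 16772976) (l 16770896)) (l 16767976)) (l 16765816))), by decide +kernel⟩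

def k25_pp_101_s : ∃ t, chk3 f_pp_101_s t 70 124 1 = true :=
  ⟨(b (a (l 3) (b (l 3) (a (b (l 3) (a (l 3) (b (l 3) (a (l 3) (b (l 3) (l 569787798983)))))) (b (a (l 3) (b (l 3) (a (l 3) (b (l 3) (l 539723032615))))) (a (b (a (l 3) (b (l 3) (l 554755415799))) (a (b (l 562271607399) (l 319605950951)) (l 310479146775))) (b (a (b (l 547239224215) (l 314774115847)) (l 307257924391)) (l 16775776))))))) (a (b (a (l 3) (b (l 3) (a (b (l 3) (a (b (l 3) (l 531133099751)) (b (l 523616908103) (l 16776792)))) (b (a (b (l 3) (l 516637587367)) (b (l 498383977463) (l 16776704))) (l 16776184))))) (a (b (a (b (l 3) (a (b (l 3) (l 560124124551)) (b (l 553144803799) (l 314774114583)))) (b (a (b (l 3) (l 545628612151)) (b (l 538112420487) (l 16772936))) (l 305110438967))) (a (b (a (l 310479145527) (l 16776168)) (l 16775408)) (l 16774792))) (b (a (l 300815473719) (l 16774584)) (l 16773080)))) (b (b (a (a (b (a (l 3) (l 588578271415)) (a (b (l 598778824679) (a (l 535428067591) (l 16771800)))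 (b (a (l 525764392295) (l 16777008)) (l 16776616)))) (b (a (b (l 577303990567) (l 324437786039)) (l 313700368823)) (l 16775992))) (l 16774712)) (a (a (l 16775544) (l 16774352)) (l 16772528))) (l 16770584)))), by decide +kernel⟩

def k26_pp_101_s : ∃ t, chk3 f_pp_101_s t 71 124 1 = true :=
  ⟨(b (a (b (a (b (l 3) (a (l 3) (b (l 3) (a (l 3) (b (l 3) (l 509658266215)))))) (b (a (l 3) (b (l 3) (a (l 574619630215) (b (l 561734736103) (l 321753434631))))) (a (b (a (l 590725755047) (b (l 577840861031) (l 327122140647))) (a (b (l 329806493831) (l 16776632)) (l 16776272))) (b (a (l 315310981895) (l 16776152)) (l 16754304))))) (a (b (a (b (a (l 3) (b (l 3) (l 524690649431))) (a (b (l 532206841031) (l 16776832)) (l 16776496))) (b (a (b (l 517174457831) (l 16776736)) (l 16776384)) (l 16775536))) (l 16774448)) (b (l 16774160) (l 16750880)))) (b (a (b (a (b (a (l 563345343591) (b (l 546165482087) (l 316384728599))) (l 307794791527)) (b (l 304573569255) (l 16774984))) (l 16773840))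 (l 16772248)) (l 16768912))) (a (a (l 16768976) (l 16766392)) (l 16762296))), by decide +kernel⟩

def k27_pp_101_s : ∃ t, chk3 f_pp_101_s t 35 125 1 = true :=
  ⟨(b (a (a (b (a (l 16772296) (l 16770040)) (l 16767264)) (l 16764600)) (l 16756960)) (a (l 16759360) (l 16749232))), by decide +kernel⟩

def k28_pp_101_s : ∃ t, chk3 f_pp_101_s t 17 63 1 = true :=
  ⟨(b (a (a (a (b (b (a (c (l 16775872) (l 16775904)) (l 16771224)) (l 16768152)) (l 16761648)) (b (l 16766104) (l 16758072))) (b (l 16759432) (l 16751496))) (a (b (l 16751344) (l 16742912)) (b (l 16741496) (l 16731224)))) (a (a (b (a (l 16751040) (l 16747344)) (l 16731640)) (b (l 16740624) (l 16698480))) (b (a (l 16729008) (l 16712944)) (l 16697920)))), by decide +kernel⟩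

def k29_pp_101_s : ∃ t, chk3 f_pp_101_s t 9 14 1 = true :=
  ⟨(a (l 3) (b (l 3) (b (l 3) (a (l 3) (b (l 3) (a (b (l 3) (a (l 3) (b (l 3) (l 522006272983)))) (b (a (l 3) (b (l 595557552535) (l 318532140839))) (a (b (l 511268866503) (l 16769696)) (l 16763208))))))))), by decide +kernel⟩

def k30_pp_101_s : ∃ t, chk3 f_pp_101_s t 18 60 1 = true :=
  ⟨(a (l 3) (b (l 3) (a (l 3) (b (l 3) (a (b (l 3) (a (l 3) (b (l 578377709719) (a (l 506437033655) (l 16765160))))) (b (a (l 577303955703) (b (l 565492818631) (l 309942253687))) (a (b (b (l 320679667719) (l 16764760)) (l 16751176)) (l 16748256)))))))), by decide +kernel⟩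

def k31_pp_101_s : ∃ t, chk3 f_pp_101_s t 36 122 1 = true :=
  ⟨(a (l 3) (b (l 3) (a (b (l 3) (a (l 3) (b (l 3) (a (l 3) (b (l 3) (l 562271599735)))))) (b (a (l 3) (b (l 3) (a (l 3) (b (l 3) (a (l 570861538567) (l 480130355527)))))) (a (b (a (l 3) (b (l 3) (a (l 3) (l 513416357607)))) (a (b (l 555829151335) (a (l 317995332263) (l 16776208))) (a (l 300815464935) (l 16764632)))) (b (a (b (a (l 579988341559) (l 502678941847)) (l 301352339319)) (l 292225535239)) (l 16762064))))))), by decide +kernel⟩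

def k32_pp_101_s : ∃ t, chk3 f_pp_101_s t 36 123 1 = true :=
  ⟨(a (b (a (l 3) (b (l 3) (a (b (l 3) (a (b (l 3) (a (l 3) (b (l 3) (l 329806496215)))) (b (a (l 559050374935) (b (l 548849834471) (l 316384726503))) (a (b (l 325511530471) (l 16765968)) (l 16765504))))) (b (a (b (l 3) (a (l 547776088263) (b (l 532743709527) (l 308868536423)))) (b (a (l 536501801575) (b (l 517711326407) (l 16776752))) (l 294909893255))) (a (a (b (l 304036696327) (l 16775136)) (l 16764544)) (l 16752720)))))) (a (b (a (b (l 3) (a (b (l 3) (a (l 3) (l 566029696999))) (b (a (l 3) (l 554755410375)) (a (b (l 553681673303) (l 320679694055)) (l 310479147927))))) (b (a (b (l 3) (a (l 3) (b (l 3) (l 530059356839)))) (b (a (l 3) (b (l 3) (l 513953231879))) (a (b (l 522006294359) (l 16776752)) (l 16776328)))) (a (b (a (b (l 537575548391) (l 314774117079)) (l 16772536)) (l 16765000)) (l 16764128)))) (b (a (b (a (a (b (l 569250927287) (l 327122142263)) (l 314774112183)) (l 16765168)) (l 16775064)) (l 16751696))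 (a (l 16752120) (l 16770032)))) (b (a (b (a (b (a (b (l 505900169399) (l 16776608)) (l 16765680)) (l 16764648)) (l 16763712)) (l 16751232)) (l 16759640)) (l 16758424)))) (b (a (b (a (b (a (l 3) (b (l 3) (l 575156496519))) (a (b (l 3) (a (l 525764387111) (b (l 502142072375) (l 16776592)))) (b (a (b (l 3) (l 492478397175)) (l 308331660919)) (l 16770400)))) (b (a (b (l 568714048135) (a (b (l 566029703607) (l 316384726503)) (l 303499825495))) (b (a (b (l 531669967687) (l 16771640)) (l 16771152)) (l 16764720))) (l 16776256))) (a (a (b (l 287393700327) (l 16771848)) (l 16761056)) (l 16747592))) (b (b (b (a (l 16763496) (l 16769832)) (l 16764920)) (l 16746520)) (l 16741168))) (a (b (l 16743208) (l 16758432)) (l 16731056)))), by decide +kernel⟩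

def k33_pp_101_s : ∃ t, chk3 f_pp_101_s t 37 61 1 = true :=
  ⟨(b (a (b (a (b (l 3) (a (l 3) (b (l 3) (a (l 581598940375) (b (l 571935276263) (l 314774103639)))))) (b (a (l 3) (b (l 3) (a (l 525227505159) (l 315847834887)))) (a (b (a (l 571398398343) (b (l 557439766759) (l 16765848))) (a (l 302962945319) (l 16752544))) (a (l 293299270871) (l 16749880))))) (a (b (a (b (a (l 3) (b (l 3) (a (l 519321936023) (l 16768904)))) (a (b (l 500531457463) (l 16775792)) (l 16774624))) (b (a (b (l 317995326487) (l 16754352)) (l 16753120)) (l 16750368))) (a (l 16759600) (l 16765544))) (a (b (l 16747728) (l 16760744)) (l 16738816)))) (b (a (b (a (b (a (l 515563833959) (l 311016002423)) (l 16773448)) (l 16770688)) (l 16743728)) (b (l 16742024) (l 16754112))) (a (l 16730968) (l 16740712)))) (a (b (a (b (l 16739264) (l 16752624)) (l 16725064)) (l 16715336)) (b (l 16707912) (l 16712168)))), by decide +kernel⟩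

def k34_pp_101_s : ∃ t, chk3 f_pp_101_s t 19 30 1 = true :=
  ⟨(b (a (b (a (l 3) (b (a (l 3) (b (l 3) (l 581062050359))) (a (b (l 585357006167) (a (l 509658253991) (l 307257895191))) (b (b (l 318532155559) (l 16761912)) (l 16744376))))) (a (b (a (b (l 3) (a (b (l 3) (l 559050373063)) (b (l 511268867255) (l 16774344)))) (b (a (b (l 3) (l 504289550743)) (l 311552850423)) (b (l 16771048) (l 16745456)))) (a (b (a (l 301352322279) (l 16746688)) (l 16740232)) (l 16733608))) (b (a (l 16764888) (l 16729456)) (l 16715488)))) (b (a (a (b (b (l 577840836311) (l 310479100359)) (l 16737520)) (b (b (l 308331628903) (l 16761600)) (l 16746152))) (a (l 16702368) (l 16711272))) (a (b (l 16710464) (l 16710184)) (l 16694256)))) (a (b (a (b (a (l 16726368) (l 16735360)) (l 16722400)) (l 16663976)) (a (l 16673040) (l 16665352))) (b (a (l 16677848) (l 16649152)) (l 16598816)))), by decide +kernel⟩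

def k35_pp_101_s : ∃ t, chk3 f_pp_101_s t 9 31 1 = true :=
  ⟨(a (b (a (b (b (a (a (a (a (l 16746664) (l 16745160)) (l 16742824)) (l 16737824)) (b (l 16727464) (l 16722360))) (a (l 16763584) (l 16715112))) (a (b (l 16744576) (l 16736224)) (l 16722824))) (b (a (a (l 16703320) (l 16711392)) (l 16691056)) (a (l 16677320) (l 16646576)))) (a (b (a (b (l 16727680) (l 16715664)) (b (l 16707512) (l 16693632))) (l 16672696)) (b (a (l 16634576) (l 16644720)) (l 16601216)))) (b (a (b (a (l 16661680) (l 16630464)) (b (l 16624432) (l 16591720))) (b (l 16582008) (l 16488048))) (a (b (l 16570032) (l 16554816)) (b (l 16514712) (l 16477680))))), by decide +kernel⟩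

def k36_pp_101_s : ∃ t, chk3 f_pp_101_s t 5 6 1 = true :=
  ⟨(a (l 3) (b (l 3) (b (l 3) (a (b (l 3) (a (l 3) (l 580525070551))) (b (a (l 3) (a (l 504289458039) (l 283098529351))) (a (a (l 293835919687) (b (l 16728680) (l 16746920))) (l 16727632))))))), by decide +kernel⟩

def k37_pp_101_s : ∃ t, chk3 f_pp_101_s t 5 7 1 = true :=
  ⟨(b (a (b (a (l 3) (b (l 3) (a (b (l 3) (a (l 3) (l 506436983223))) (b (a (l 570324567863) (l 295446603047)) (a (l 291151680391) (l 16722640)))))) (a (b (a (l 3) (b (a (l 3) (l 579988246519)) (a (b (l 583209490103) (l 313163379799)) (b (l 294372924967) (l 16732096))))) (a (b (a (b (l 3) (a (l 591799441495) (l 317995234647))) (b (a (l 519321893607) (l 294372941847)) (l 16740208))) (a (b (a (l 299204795143) (l 16738512)) (l 16724576)) (l 16710880))) (b (a (l 16747464) (l 16723408)) (l 16653664)))) (b (a (b (a (b (l 568177154727) (l 16745808)) (l 16753240)) (l 16684664)) (b (l 16696040) (l 16677520))) (a (b (l 16686808) (l 16646424)) (l 16575712)))))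 (b (a (b (a (b (l 3) (a (l 503752624359) (l 16704664))) (b (a (l 299204712583) (l 16758288)) (l 16733976))) (a (b (a (l 16756736) (l 16732936)) (l 16685768)) (l 16634504))) (b (a (l 16661296) (l 16653344)) (a (l 16626424) (l 16576112)))) (a (b (a (l 16626672) (l 16597456)) (a (l 16567208) (l 16516328))) (b (l 16500512) (l 16439504))))) (a (b (a (b (a (b (a (l 16692928) (l 16690384)) (l 16614656)) (b (l 16653744) (l 16607848))) (a (b (l 16608936) (l 16560856)) (b (l 16557576) (l 16508272)))) (b (a (l 16560360) (l 16530792)) (b (l 16458832) (a (l 16455208) (l 16406096))))) (a (b (b (a (l 16516408) (l 16462104)) (a (l 16480016) (l 16413464))) (a (l 16420504) (l 16347360))) (b (a (l 16358008) (l 16321232)) (a (l 16280280) (l 16216968))))) (b (b (a (a (l 16479736) (l 16425256)) (b (l 16369328) (l 16303424))) (a (b (a (l 16403912) (l 16353584)) (l 16318592)) (l 16233376))) (b (a (l 16233456) (l 16114984)) (a (l 16126048) (l 16002984)))))), by decide +kernel⟩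

def k38_pp_101_s : ∃ t, chk3 f_pp_101_s t 3 1 1 = true :=
  ⟨(b (a (l 3) (l 1)) (b (a (a (b (b (l 3) (a (l 3) (b (l 3) (a (l 3) (l 524153714199))))) (b (a (b (l 3) (a (l 534354214567) (l 282024799655))) (b (a (b (l 308868349127) (l 292762375655)) (l 16740504)) (a (l 16722464) (l 16672872)))) (a (b (a (b (l 244980852583) (l 16712168)) (l 16680368)) (a (l 16678288) (l 16628344))) (b (l 16584680) (l 16553496))))) (b (b (l 1) (a (b (l 1) (a (l 271690159495) (l 1))) (l 1))) (a (b (b (l 16604792) (l 16577712)) (l 16407472)) (b (l 16451712) (l 16395120))))) (b (l 1) (a (a (l 468183716855) (l 1)) (l 1)))) (b (a (a (b (a (b (l 16536152) (l 16500440)) (l 16376312)) (a (b (l 16420120) (a (l 16363008) (l 16307232))) (b (l 16320056) (b (l 16253624) (l 16209440))))) (b (a (l 16341200) (l 16091008)) (b (a (l 16216816) (l 16120320)) (a (l 16122088) (l 16009152))))) (b (a (a (b (l 16189856) (l 16113072)) (l 494489833511)) (l 1)) (a (a (l 15955600) (l 15852008)) (a (l 15754160) (l 1)))))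 (a (b (a (b (a (a (l 16270480) (l 16210208)) (l 16122336)) (a (l 16116680) (l 16000480))) (b (l 15804368) (l 15641008))) (a (b (a (l 15996112) (l 15878408)) (a (l 15880280) (l 15759456))) (b (l 15706592) (l 15584232)))) (b (a (b (l 15736672) (l 15617872)) (b (l 15545968) (l 6))) (a (b (l 15495432) (l 6)) (l 6))))))), by decide +kernel⟩

theorem s39_pp_101_s : ∃ t, chk3 f_pp_101_s t 5 3 1 = true := ex3_b k36_pp_101_s k37_pp_101_s

theorem s40_pp_101_s : ∃ t, chk3 f_pp_101_s t 36 61 1 = true := ex3_b k31_pp_101_s k32_pp_101_s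

theorem s41_pp_101_s : ∃ t, chk3 f_pp_101_s t 18 61 1 = true := ex3_a s40_pp_101_s k33_pp_101_s

theorem s42_pp_101_s : ∃ t, chk3 f_pp_101_s t 18 30 1 = true := ex3_b k30_pp_101_s s41_pp_101_s

theorem s43_pp_101_s : ∃ t, chk3 f_pp_101_s t 9 30 1 = true := ex3_a s42_pp_101_s k34_pp_101_s

theorem s44_pp_101_s : ∃ t, chk3 f_pp_101_s t 9 15 1 = true := ex3_b s43_pp_101_s k35_pp_101_s

theorem s45_pp_101_s : ∃ t, chk3 f_pp_101_s t 9 7 1 = true := ex3_b k29_pp_101_s s44_pp_101_s

theorem s46_pp_101_s : ∃ t, chk3 f_pp_101_s t 35 124 1 = true := ex3_a k25_pp_101_s k26_pp_101_s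

theorem s47_pp_101_s : ∃ t, chk3 f_pp_101_s t 35 62 1 = true := ex3_b s46_pp_101_s k27_pp_101_s

theorem s48_pp_101_s : ∃ t, chk3 f_pp_101_s t 68 251 1 = true := ex3_a k22_pp_101_s k23_pp_101_s

theorem s49_pp_101_s : ∃ t, chk3 f_pp_101_s t 68 125 1 = true := ex3_b k21_pp_101_s s48_pp_101_s

theorem s50_pp_101_s : ∃ t, chk3 f_pp_101_s t 34 125 1 = true := ex3_a s49_pp_101_s k24_pp_101_s

theorem s51_pp_101_s : ∃ t, chk3 f_pp_101_s t 34 62 1 = true := ex3_b k20_pp_101_s s50_pp_101_s

theorem s52_pp_101_s : ∃ t, chk3 f_pp_101_s t 17 62 1 = true := ex3_a s51_pp_101_s s47_pp_101_s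

theorem s53_pp_101_s : ∃ t, chk3 f_pp_101_s t 17 31 1 = true := ex3_b s52_pp_101_s k28_pp_101_s

theorem s54_pp_101_s : ∃ t, chk3 f_pp_101_s t 67 252 1 = true := ex3_a k16_pp_101_s k17_pp_101_s

theorem s55_pp_101_s : ∃ t, chk3 f_pp_101_s t 67 126 1 = true := ex3_b s54_pp_101_s k18_pp_101_s

theorem s56_pp_101_s : ∃ t, chk3 f_pp_101_s t 133 253 1 = true := ex3_b k14_pp_101_s k15_pp_101_s

theorem s57_pp_101_s : ∃ t, chk3 f_pp_101_s t 132 507 1 = true := ex3_a k12_pp_101_s k13_pp_101_s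

theorem s58_pp_101_s : ∃ t, chk3 f_pp_101_s t 132 253 1 = true := ex3_b k11_pp_101_s s57_pp_101_s

theorem s59_pp_101_s : ∃ t, chk3 f_pp_101_s t 66 253 1 = true := ex3_a s58_pp_101_s s56_pp_101_s

theorem s60_pp_101_s : ∃ t, chk3 f_pp_101_s t 66 126 1 = true := ex3_b k10_pp_101_s s59_pp_101_s

theorem s61_pp_101_s : ∃ t, chk3 f_pp_101_s t 33 126 1 = true := ex3_a s60_pp_101_s s55_pp_101_s

theorem s62_pp_101_s : ∃ t, chk3 f_pp_101_s t 33 63 1 = true := ex3_b s61_pp_101_s k19_pp_101_s

theorem s63_pp_101_s : ∃ t, chk3 f_pp_101_s t 33 31 1 = true := ex3_b k9_pp_101_s s62_pp_101_s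

theorem s64_pp_101_s : ∃ t, chk3 f_pp_101_s t 65 127 1 = true := ex3_b k7_pp_101_s k8_pp_101_s

theorem s65_pp_101_s : ∃ t, chk3 f_pp_101_s t 32 127 1 = true := ex3_a k6_pp_101_s s64_pp_101_s

theorem s66_pp_101_s : ∃ t, chk3 f_pp_101_s t 32 63 1 = true := ex3_b k5_pp_101_s s65_pp_101_s

theorem s67_pp_101_s : ∃ t, chk3 f_pp_101_s t 32 31 1 = true := ex3_b k4_pp_101_s s66_pp_101_s

theorem s68_pp_101_s : ∃ t, chk3 f_pp_101_s t 16 31 1 = true := ex3_a s67_pp_101_s s63_pp_101_s

theorem s69_pp_101_s : ∃ t, chk3 f_pp_101_s t 8 31 1 = true := ex3_a s68_pp_101_s s53_pp_101_s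

theorem s70_pp_101_s : ∃ t, chk3 f_pp_101_s t 8 15 1 = true := ex3_b k3_pp_101_s s69_pp_101_s

theorem s71_pp_101_s : ∃ t, chk3 f_pp_101_s t 8 7 1 = true := ex3_b k2_pp_101_s s70_pp_101_s

theorem s72_pp_101_s : ∃ t, chk3 f_pp_101_s t 4 7 1 = true := ex3_a s71_pp_101_s s45_pp_101_s

theorem s73_pp_101_s : ∃ t, chk3 f_pp_101_s t 4 3 1 = true := ex3_b k1_pp_101_s s72_pp_101_s

theorem s74_pp_101_s : ∃ t, chk3 f_pp_101_s t 2 3 1 = true := ex3_a s73_pp_101_s s39_pp_101_s

theorem s75_pp_101_s : ∃ t, chk3 f_pp_101_s t 2 1 1 = true := ex3_b k0_pp_101_s s74_pp_101_s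

theorem s76_pp_101_s : ∃ t, chk3 f_pp_101_s t 1 1 1 = true := ex3_a s75_pp_101_s k38_pp_101_s

theorem c_pp_101_s : CertNE 536870912 536870912 536870912 536870912 1040187392 5207648 3 eng mog cd5q1 cd0q1 pd0 false true true .npn 1 0 1
    ndB5q1 ndB0q1 pcB0 cut_pp_101_s Ext.none :=
  certNE2 (fam := false) (s1 := true) (s2 := true) (a := 1) (b := 0) (c := 1) (cn := .npn) (n1 := ndB5q1) (n2 := ndB0q1) (pc := pcB0) (cut := cut_pp_101_s) (xt := Ext.none) (P1 := 536870912) (W1 := 536870912) (P2 := 536870912) (W2 := 536870912) (P3 := 1040187392) (W3 := 5207648) (N0 := 3) (En := eng) (mo := mog) (C1 := cd5q1) (C2 := cd0q1) (C3 := pd0)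
    rfl (fun _ => rfl) s76_pp_101_s

noncomputable def cut_pp_102_s : Cut := Cut.of [[⟨4, 0, 0, 1449551462⟩], [⟨0, 1, 0, 26843545⟩, ⟨1, 0, 0, 26843545⟩, ⟨2, 1, 0, 26843545⟩]]

noncomputable def f_pp_102_s : ℕ → ℕ → ℕ → ℕ → Bool := onCell 0 536870912 0 536870912 1040187392 5207648
    (rowNE 3 eng mog cd5q1 cd0q2 pd0 2 false true true .npp 1 0 2 (qsf 536870912 536870912 0 536870912 0) ndB5q1 ndB0q2 pcB0 cut_pp_102_s Ext.none)

def k0_pp_102_s : ∃ t, chk3 f_pp_102_s t 2 2 1 = true :=
  ⟨(a (l 6) (l 6)), by decide +kernel⟩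

def k1_pp_102_s : ∃ t, chk3 f_pp_102_s t 4 3 1 = true :=
  ⟨(b (a (l 2) (b (l 6) (b (a (l 15218840) (l 6)) (a (a (l 15471800) (l 15330816)) (a (b (l 15125320) (l 15232720)) (b (l 14982464) (l 15139368))))))) (a (b (a (l 2) (a (b (l 2) (b (l 2) (a (l 16238536) (l 16186808)))) (b (b (l 2) (l 15876688)) (b (l 15986456) (l 16103856))))) (a (a (b (l 2) (l 14)) (b (a (b (l 2) (a (l 2) (l 16419640))) (b (l 16316976) (b (l 16394768) (l 16453680)))) (a (l 14) (b (b (l 16516800) (a (l 16587408) (l 16577664))) (b (a (l 16650032) (l 16639720)) (b (l 16689824) (l 16698632))))))) (a (a (b (b (l 16239008) (l 16353952)) (a (b (l 16453648) (l 16598912)) (b (l 16484360) (l 16611880)))) (b (b (l 16279176) (l 16383784)) (b (b (l 16476400) (l 16540848)) (l 16558200)))) (b (b (l 16216840) (a (l 16353968) (l 16334584))) (b (b (l 16400880) (l 16514896)) (a (l 16563600) (l 16589800))))))) (b (a (b (a (b (l 15624144) (l 15740568)) (b (l 15487240) (l 15648912))) (a (b (l 15885328) (l 16023784))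 (l 15845088))) (b (a (l 15487048) (l 15418688)) (a (l 15834424) (l 15783984)))) (b (a (b (a (l 16159432) (l 16118888)) (a (b (l 16270056) (l 16337592)) (l 16263016))) (b (a (l 16087288) (l 16040296)) (a (l 16218712) (l 16162488)))) (a (b (a (l 16445264) (l 16403768)) (a (l 16520128) (l 16516192))) (b (a (l 16351472) (l 16283624)) (a (l 16475848) (l 16402680)))))))), by decide +kernel⟩

def k2_pp_102_s : ∃ t, chk3 f_pp_102_s t 5 3 1 = true :=
  ⟨(b (a (a (b (l 6) (b (l 6) (a (l 14961008) (l 6)))) (l 6)) (l 6)) (a (b (a (b (l 15255368) (a (l 15729008) (l 15662704))) (b (l 15161064) (b (l 15461064) (l 15653288)))) (b (a (b (a (l 15975160) (l 15899968)) (l 16053280)) (b (l 15779000) (l 15892344))) (a (b (l 16164648) (l 16282176)) (b (l 16010776) (l 16135376))))) (b (b (l 6) (a (b (l 15306864) (l 15517072)) (b (l 6) (l 15391992)))) (b (a (l 15697992) (l 15576816)) (a (b (l 15878264) (l 16003184)) (l 15820656)))))), by decide +kernel⟩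

def k3_pp_102_s : ∃ t, chk3 f_pp_102_s t 3 1 1 = true :=
  ⟨(b (l 6) (b (l 6) (a (b (l 6) (a (b (a (l 15459896) (l 6)) (a (l 15698936) (l 15579960))) (b (l 6) (l 15283264)))) (l 6)))), by decide +kernel⟩

theorem s4_pp_102_s : ∃ t, chk3 f_pp_102_s t 2 3 1 = true := ex3_a k1_pp_102_s k2_pp_102_s

theorem s5_pp_102_s : ∃ t, chk3 f_pp_102_s t 2 1 1 = true := ex3_b k0_pp_102_s s4_pp_102_s

theorem s6_pp_102_s : ∃ t, chk3 f_pp_102_s t 1 1 1 = true := ex3_a s5_pp_102_s k3_pp_102_s

theorem c_pp_102_s : CertNE 536870912 536870912 0 536870912 1040187392 5207648 3 eng mog cd5q1 cd0q2 pd0 false true true .npp 1 0 2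
    ndB5q1 ndB0q2 pcB0 cut_pp_102_s Ext.none :=
  certNE2 (fam := false) (s1 := true) (s2 := true) (a := 1) (b := 0) (c := 2) (cn := .npp) (n1 := ndB5q1) (n2 := ndB0q2) (pc := pcB0) (cut := cut_pp_102_s) (xt := Ext.none) (P1 := 536870912) (W1 := 536870912) (P2 := 0) (W2 := 536870912) (P3 := 1040187392) (W3 := 5207648) (N0 := 3) (En := eng) (mo := mog) (C1 := cd5q1) (C2 := cd0q2) (C3 := pd0)
    rfl (fun _ => rfl) s6_pp_102_s

noncomputable def cut_pp_112_s : Cut := Cut.of [[⟨4, 0, 0, 1449551462⟩]]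

noncomputable def f_pp_112_s : ℕ → ℕ → ℕ → ℕ → Bool := onCell 536870912 536870912 0 536870912 1040187392 5207648
    (rowNE 3 eng mog cd5q1 cd0q2 pd1 2 false true true .dn 1 1 2 (qsf 536870912 536870912 0 536870912 1) ndB5q1 ndB0q2 pcB1 cut_pp_112_s Ext.none)

def k0_pp_112_s : ∃ t, chk3 f_pp_112_s t 1 1 1 = true :=
  ⟨(b (l 6) (l 6)), by decide +kernel⟩

theorem c_pp_112_s : CertNE 536870912 536870912 0 536870912 1040187392 5207648 3 eng mog cd5q1 cd0q2 pd1 false true true .dn 1 1 2
    ndB5q1 ndB0q2 pcB1 cut_pp_112_s Ext.none :=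
  certNE2 (fam := false) (s1 := true) (s2 := true) (a := 1) (b := 1) (c := 2) (cn := .dn) (n1 := ndB5q1) (n2 := ndB0q2) (pc := pcB1) (cut := cut_pp_112_s) (xt := Ext.none) (P1 := 536870912) (W1 := 536870912) (P2 := 0) (W2 := 536870912) (P3 := 1040187392) (W3 := 5207648) (N0 := 3) (En := eng) (mo := mog) (C1 := cd5q1) (C2 := cd0q2) (C3 := pd1)
    rfl (fun _ => rfl) k0_pp_112_s

noncomputable def cut_pp_202_s : Cut := Cut.of [[⟨4, 0, 0, 1449551462⟩], [⟨0, 1, 0, 22369621⟩, ⟨1, 0, 0, 22369621⟩, ⟨2, 1, 0, 22369621⟩]]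

noncomputable def f_pp_202_s : ℕ → ℕ → ℕ → ℕ → Bool := onCell 0 536870912 0 536870912 1040187392 5207648
    (rowNE 3 eng mog cd5q2 cd0q2 pd0 2 false true true .pp 2 0 2 (qsf 1073741824 536870912 0 536870912 0) ndB5q2 ndB0q2 pcB0 cut_pp_202_s Ext.none)

def k0_pp_202_s : ∃ t, chk3 f_pp_202_s t 1 1 1 = true :=
  ⟨(a (b (a (l 6) (l 6)) (a (b (a (a (a (b (l 16087224) (l 16196800)) (b (a (l 15994048) (l 15969696)) (a (l 16165824) (l 16133448)))) (a (b (a (l 15936448) (l 15842232)) (a (l 16095032) (l 15986864))) (b (l 15665872) (l 15791232)))) (b (l 6) (b (a (l 15343288) (l 6)) (a (a (l 15539544) (l 15246576)) (l 1))))) (a (b (a (a (b (l 16411632) (b (l 16472880) (l 16486512))) (a (b (l 16281384) (b (l 16338928) (a (b (l 16373800) (l 16390704)) (l 16365592)))) (b (l 16249424) (b (l 16309304) (l 16342704))))) (a (b (a (l 16214512) (l 16099384)) (a (b (l 16172072) (l 16298304)) (b (l 16156648) (l 16184128)))) (b (b (l 15874616) (l 15914696)) (b (l 15955112) (l 16002384)))))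 (a (a (b (a (b (b (l 16579520) (l 16597440)) (a (b (l 16639872) (l 16658592)) (l 16536152))) (b (b (l 16483816) (l 16434336)) (a (l 16558168) (l 16512176)))) (l 14)) (a (b (b (a (b (l 16405600) (l 16427360)) (l 16398032)) (a (l 16469312) (l 16444432))) (b (a (l 14) (l 442414517895)) (l 1))) (b (b (l 16368296) (l 16382144)) (l 1)))) (a (b (a (b (l 16312632) (l 1)) (l 1)) (l 1)) (l 1)))) (b (a (b (a (b (l 15590696) (l 15637776)) (l 1)) (l 1)) (l 1)) (l 1)))) (b (l 1) (l 1)))) (l 1)), by decide +kernel⟩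

theorem c_pp_202_s : CertNE 1073741824 536870912 0 536870912 1040187392 5207648 3 eng mog cd5q2 cd0q2 pd0 false true true .pp 2 0 2
    ndB5q2 ndB0q2 pcB0 cut_pp_202_s Ext.none :=
  certNE2 (fam := false) (s1 := true) (s2 := true) (a := 2) (b := 0) (c := 2) (cn := .pp) (n1 := ndB5q2) (n2 := ndB0q2) (pc := pcB0) (cut := cut_pp_202_s) (xt := Ext.none) (P1 := 1073741824) (W1 := 536870912) (P2 := 0) (W2 := 536870912) (P3 := 1040187392) (W3 := 5207648) (N0 := 3) (En := eng) (mo := mog) (C1 := cd5q2) (C2 := cd0q2) (C3 := pd0)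
    rfl (fun _ => rfl) k0_pp_202_s

noncomputable def cut_pm_001_s : Cut := Cut.of [[⟨4, 0, 0, 1449551462⟩]]

noncomputable def f_pm_001_s : ℕ → ℕ → ℕ → ℕ → Bool := onCell 0 536870912 536870912 536870912 1040187392 5207648
    (rowNE 3 eng mog cd5q0 cd0q1 pd0 0 false true false .up 0 0 1 (qsf 0 536870912 536870912 536870912 0) ndB5q0 ndB0q1 pcB0 cut_pm_001_s Ext.none)

def k0_pm_001_s : ∃ t, chk3 f_pm_001_s t 1 1 1 = true :=
  ⟨(l 4), by decide +kernel⟩

theorem c_pm_001_s : CertNE 0 536870912 536870912 536870912 1040187392 5207648 3 eng mog cd5q0 cd0q1 pd0 false true false .up 0 0 1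
    ndB5q0 ndB0q1 pcB0 cut_pm_001_s Ext.none :=
  certNE0 (fam := false) (s1 := true) (s2 := false) (a := 0) (b := 0) (c := 1) (cn := .up) (n1 := ndB5q0) (n2 := ndB0q1) (pc := pcB0) (cut := cut_pm_001_s) (xt := Ext.none) (P1 := 0) (W1 := 536870912) (P2 := 536870912) (W2 := 536870912) (P3 := 1040187392) (W3 := 5207648) (N0 := 3) (En := eng) (mo := mog) (C1 := cd5q0) (C2 := cd0q1) (C3 := pd0)
    rfl k0_pm_001_s

noncomputable def cut_pm_011_s : Cut := Cut.of [[⟨4, 0, 0, 1449551462⟩]]

noncomputable def f_pm_011_s : ℕ → ℕ → ℕ → ℕ → Bool := onCell 0 536870912 536870912 536870912 1040187392 5207648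
    (rowNE 3 eng mog cd5q0 cd0q1 pd1 0 false true false .pnn 0 1 1 (qsf 0 536870912 536870912 536870912 1) ndB5q0 ndB0q1 pcB1 cut_pm_011_s Ext.none)

def k0_pm_011_s : ∃ t, chk3 f_pm_011_s t 1 1 1 = true :=
  ⟨(l 4), by decide +kernel⟩

theorem c_pm_011_s : CertNE 0 536870912 536870912 536870912 1040187392 5207648 3 eng mog cd5q0 cd0q1 pd1 false true false .pnn 0 1 1
    ndB5q0 ndB0q1 pcB1 cut_pm_011_s Ext.none :=
  certNE0 (fam := false) (s1 := true) (s2 := false) (a := 0) (b := 1) (c := 1) (cn := .pnn) (n1 := ndB5q0) (n2 := ndB0q1) (pc := pcB1) (cut := cut_pm_011_s) (xt := Ext.none) (P1 := 0) (W1 := 536870912) (P2 := 536870912) (W2 := 536870912) (P3 := 1040187392) (W3 := 5207648) (N0 := 3) (En := eng) (mo := mog) (C1 := cd5q0) (C2 := cd0q1) (C3 := pd1)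
    rfl k0_pm_011_s

noncomputable def cut_pm_012_s : Cut := Cut.of [[⟨4, 0, 0, 1449551462⟩]]

noncomputable def f_pm_012_s : ℕ → ℕ → ℕ → ℕ → Bool := onCell 0 536870912 0 536870912 1040187392 5207648
    (rowNE 3 eng mog cd5q0 cd0q2 pd1 0 false true false .pnp 0 1 2 (qsf 0 536870912 0 536870912 1) ndB5q0 ndB0q2 pcB1 cut_pm_012_s Ext.none)

def k0_pm_012_s : ∃ t, chk3 f_pm_012_s t 1 1 1 = true :=
  ⟨(l 6), by decide +kernel⟩

theorem c_pm_012_s : CertNE 0 536870912 0 536870912 1040187392 5207648 3 eng mog cd5q0 cd0q2 pd1 false true false .pnp 0 1 2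
    ndB5q0 ndB0q2 pcB1 cut_pm_012_s Ext.none :=
  certNE0 (fam := false) (s1 := true) (s2 := false) (a := 0) (b := 1) (c := 2) (cn := .pnp) (n1 := ndB5q0) (n2 := ndB0q2) (pc := pcB1) (cut := cut_pm_012_s) (xt := Ext.none) (P1 := 0) (W1 := 536870912) (P2 := 0) (W2 := 536870912) (P3 := 1040187392) (W3 := 5207648) (N0 := 3) (En := eng) (mo := mog) (C1 := cd5q0) (C2 := cd0q2) (C3 := pd1)
    rfl k0_pm_012_s

noncomputable def cut_pm_022_s : Cut := Cut.of [[⟨4, 0, 0, 1449551462⟩]]

noncomputable def f_pm_022_s : ℕ → ℕ → ℕ → ℕ → Bool := onCell 0 536870912 0 536870912 1040187392 5207648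
    (rowNE 3 eng mog cd5q0 cd0q2 pd2 0 false true false .pp 0 2 2 (qsf 0 536870912 0 536870912 2) ndB5q0 ndB0q2 pcB2 cut_pm_022_s Ext.none)

def k0_pm_022_s : ∃ t, chk3 f_pm_022_s t 1 1 1 = true :=
  ⟨(l 6), by decide +kernel⟩

theorem c_pm_022_s : CertNE 0 536870912 0 536870912 1040187392 5207648 3 eng mog cd5q0 cd0q2 pd2 false true false .pp 0 2 2
    ndB5q0 ndB0q2 pcB2 cut_pm_022_s Ext.none :=
  certNE0 (fam := false) (s1 := true) (s2 := false) (a := 0) (b := 2) (c := 2) (cn := .pp) (n1 := ndB5q0) (n2 := ndB0q2) (pc := pcB2) (cut := cut_pm_022_s) (xt := Ext.none) (P1 := 0) (W1 := 536870912) (P2 := 0) (W2 := 536870912) (P3 := 1040187392) (W3 := 5207648) (N0 := 3) (En := eng) (mo := mog) (C1 := cd5q0) (C2 := cd0q2) (C3 := pd2)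
    rfl k0_pm_022_s

noncomputable def cut_pm_101_s : Cut := Cut.of [[⟨4, 0, 0, 1449551462⟩]]

noncomputable def f_pm_101_s : ℕ → ℕ → ℕ → ℕ → Bool := onCell 536870912 536870912 536870912 536870912 1040187392 5207648
    (rowNE 3 eng mog cd5q1 cd0q1 pd0 0 false true false .npn 1 0 1 (qsf 536870912 536870912 536870912 536870912 0) ndB5q1 ndB0q1 pcB0 cut_pm_101_s Ext.none)

def k0_pm_101_s : ∃ t, chk3 f_pm_101_s t 1 1 1 = true :=
  ⟨(l 4), by decide +kernel⟩

theorem c_pm_101_s : CertNE 536870912 536870912 536870912 536870912 1040187392 5207648 3 eng mog cd5q1 cd0q1 pd0 false true false .npn 1 0 1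
    ndB5q1 ndB0q1 pcB0 cut_pm_101_s Ext.none :=
  certNE0 (fam := false) (s1 := true) (s2 := false) (a := 1) (b := 0) (c := 1) (cn := .npn) (n1 := ndB5q1) (n2 := ndB0q1) (pc := pcB0) (cut := cut_pm_101_s) (xt := Ext.none) (P1 := 536870912) (W1 := 536870912) (P2 := 536870912) (W2 := 536870912) (P3 := 1040187392) (W3 := 5207648) (N0 := 3) (En := eng) (mo := mog) (C1 := cd5q1) (C2 := cd0q1) (C3 := pd0)
    rfl k0_pm_101_s

noncomputable def cut_pm_102_s : Cut := Cut.of [[⟨4, 0, 0, 1449551462⟩]]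

noncomputable def f_pm_102_s : ℕ → ℕ → ℕ → ℕ → Bool := onCell 536870912 536870912 0 536870912 1040187392 5207648
    (rowNE 3 eng mog cd5q1 cd0q2 pd0 0 false true false .npp 1 0 2 (qsf 536870912 536870912 0 536870912 0) ndB5q1 ndB0q2 pcB0 cut_pm_102_s Ext.none)

def k0_pm_102_s : ∃ t, chk3 f_pm_102_s t 1 1 1 = true :=
  ⟨(l 6), by decide +kernel⟩

theorem c_pm_102_s : CertNE 536870912 536870912 0 536870912 1040187392 5207648 3 eng mog cd5q1 cd0q2 pd0 false true false .npp 1 0 2
    ndB5q1 ndB0q2 pcB0 cut_pm_102_s Ext.none :=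
  certNE0 (fam := false) (s1 := true) (s2 := false) (a := 1) (b := 0) (c := 2) (cn := .npp) (n1 := ndB5q1) (n2 := ndB0q2) (pc := pcB0) (cut := cut_pm_102_s) (xt := Ext.none) (P1 := 536870912) (W1 := 536870912) (P2 := 0) (W2 := 536870912) (P3 := 1040187392) (W3 := 5207648) (N0 := 3) (En := eng) (mo := mog) (C1 := cd5q1) (C2 := cd0q2) (C3 := pd0)
    rfl k0_pm_102_s

noncomputable def cut_pm_112_s : Cut := Cut.of [[⟨4, 0, 0, 1449551462⟩]]

noncomputable def f_pm_112_s : ℕ → ℕ → ℕ → ℕ → Bool := onCell 536870912 536870912 0 536870912 1040187392 5207648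
    (rowNE 3 eng mog cd5q1 cd0q2 pd1 0 false true false .dn 1 1 2 (qsf 536870912 536870912 0 536870912 1) ndB5q1 ndB0q2 pcB1 cut_pm_112_s Ext.none)

def k0_pm_112_s : ∃ t, chk3 f_pm_112_s t 1 1 1 = true :=
  ⟨(l 6), by decide +kernel⟩

theorem c_pm_112_s : CertNE 536870912 536870912 0 536870912 1040187392 5207648 3 eng mog cd5q1 cd0q2 pd1 false true false .dn 1 1 2
    ndB5q1 ndB0q2 pcB1 cut_pm_112_s Ext.none :=
  certNE0 (fam := false) (s1 := true) (s2 := false) (a := 1) (b := 1) (c := 2) (cn := .dn) (n1 := ndB5q1) (n2 := ndB0q2) (pc := pcB1) (cut := cut_pm_112_s) (xt := Ext.none) (P1 := 536870912) (W1 := 536870912) (P2 := 0) (W2 := 536870912) (P3 := 1040187392) (W3 := 5207648) (N0 := 3) (En := eng) (mo := mog) (C1 := cd5q1) (C2 := cd0q2) (C3 := pd1)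
    rfl k0_pm_112_s

noncomputable def cut_pm_202_s : Cut := Cut.of [[⟨4, 0, 0, 1449551462⟩]]

noncomputable def f_pm_202_s : ℕ → ℕ → ℕ → ℕ → Bool := onCell 0 536870912 0 536870912 1040187392 5207648
    (rowNE 3 eng mog cd5q2 cd0q2 pd0 2 false true false .pp 2 0 2 (qsf 1073741824 536870912 0 536870912 0) ndB5q2 ndB0q2 pcB0 cut_pm_202_s Ext.none)

def k0_pm_202_s : ∃ t, chk3 f_pm_202_s t 1 1 1 = true :=
  ⟨(l 6), by decide +kernel⟩

theorem c_pm_202_s : CertNE 1073741824 536870912 0 536870912 1040187392 5207648 3 eng mog cd5q2 cd0q2 pd0 false true false .pp 2 0 2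
    ndB5q2 ndB0q2 pcB0 cut_pm_202_s Ext.none :=
  certNE2 (fam := false) (s1 := true) (s2 := false) (a := 2) (b := 0) (c := 2) (cn := .pp) (n1 := ndB5q2) (n2 := ndB0q2) (pc := pcB0) (cut := cut_pm_202_s) (xt := Ext.none) (P1 := 1073741824) (W1 := 536870912) (P2 := 0) (W2 := 536870912) (P3 := 1040187392) (W3 := 5207648) (N0 := 3) (En := eng) (mo := mog) (C1 := cd5q2) (C2 := cd0q2) (C3 := pd0)
    rfl (fun _ => rfl) k0_pm_202_s

noncomputable def cut_mm_001_s : Cut := Cut.of [[⟨4, 0, 0, 1449551462⟩]]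

noncomputable def f_mm_001_s : ℕ → ℕ → ℕ → ℕ → Bool := onCell 0 536870912 536870912 536870912 1040187392 5207648
    (rowNE 3 eng mog cd5q0 cd0q1 pd0 0 false false false .up 0 0 1 (qsf 0 536870912 536870912 536870912 0) ndB5q0 ndB0q1 pcB0 cut_mm_001_s Ext.none)

def k0_mm_001_s : ∃ t, chk3 f_mm_001_s t 1 1 1 = true :=
  ⟨(l 5), by decide +kernel⟩

theorem c_mm_001_s : CertNE 0 536870912 536870912 536870912 1040187392 5207648 3 eng mog cd5q0 cd0q1 pd0 false false false .up 0 0 1
    ndB5q0 ndB0q1 pcB0 cut_mm_001_s Ext.none :=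
  certNE0 (fam := false) (s1 := false) (s2 := false) (a := 0) (b := 0) (c := 1) (cn := .up) (n1 := ndB5q0) (n2 := ndB0q1) (pc := pcB0) (cut := cut_mm_001_s) (xt := Ext.none) (P1 := 0) (W1 := 536870912) (P2 := 536870912) (W2 := 536870912) (P3 := 1040187392) (W3 := 5207648) (N0 := 3) (En := eng) (mo := mog) (C1 := cd5q0) (C2 := cd0q1) (C3 := pd0)
    rfl k0_mm_001_s

noncomputable def cut_mm_011_s : Cut := Cut.of [[⟨4, 0, 0, 1449551462⟩]]

noncomputable def f_mm_011_s : ℕ → ℕ → ℕ → ℕ → Bool := onCell 0 536870912 536870912 536870912 1040187392 5207648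
    (rowNE 3 eng mog cd5q0 cd0q1 pd1 0 false false false .pnn 0 1 1 (qsf 0 536870912 536870912 536870912 1) ndB5q0 ndB0q1 pcB1 cut_mm_011_s Ext.none)

def k0_mm_011_s : ∃ t, chk3 f_mm_011_s t 1 1 1 = true :=
  ⟨(l 5), by decide +kernel⟩

theorem c_mm_011_s : CertNE 0 536870912 536870912 536870912 1040187392 5207648 3 eng mog cd5q0 cd0q1 pd1 false false false .pnn 0 1 1
    ndB5q0 ndB0q1 pcB1 cut_mm_011_s Ext.none :=
  certNE0 (fam := false) (s1 := false) (s2 := false) (a := 0) (b := 1) (c := 1) (cn := .pnn) (n1 := ndB5q0) (n2 := ndB0q1) (pc := pcB1) (cut := cut_mm_011_s) (xt := Ext.none) (P1 := 0) (W1 := 536870912) (P2 := 536870912) (W2 := 536870912) (P3 := 1040187392) (W3 := 5207648) (N0 := 3) (En := eng) (mo := mog) (C1 := cd5q0) (C2 := cd0q1) (C3 := pd1)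
    rfl k0_mm_011_s

noncomputable def cut_mm_012_s : Cut := Cut.of [[⟨4, 0, 0, 1449551462⟩]]

noncomputable def f_mm_012_s : ℕ → ℕ → ℕ → ℕ → Bool := onCell 0 536870912 0 536870912 1040187392 5207648
    (rowNE 3 eng mog cd5q0 cd0q2 pd1 0 false false false .pnp 0 1 2 (qsf 0 536870912 0 536870912 1) ndB5q0 ndB0q2 pcB1 cut_mm_012_s Ext.none)

def k0_mm_012_s : ∃ t, chk3 f_mm_012_s t 1 1 1 = true :=
  ⟨(l 5), by decide +kernel⟩

theorem c_mm_012_s : CertNE 0 536870912 0 536870912 1040187392 5207648 3 eng mog cd5q0 cd0q2 pd1 false false false .pnp 0 1 2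
    ndB5q0 ndB0q2 pcB1 cut_mm_012_s Ext.none :=
  certNE0 (fam := false) (s1 := false) (s2 := false) (a := 0) (b := 1) (c := 2) (cn := .pnp) (n1 := ndB5q0) (n2 := ndB0q2) (pc := pcB1) (cut := cut_mm_012_s) (xt := Ext.none) (P1 := 0) (W1 := 536870912) (P2 := 0) (W2 := 536870912) (P3 := 1040187392) (W3 := 5207648) (N0 := 3) (En := eng) (mo := mog) (C1 := cd5q0) (C2 := cd0q2) (C3 := pd1)
    rfl k0_mm_012_s

noncomputable def cut_mm_022_s : Cut := Cut.of [[⟨4, 0, 0, 1449551462⟩]]

noncomputable def f_mm_022_s : ℕ → ℕ → ℕ → ℕ → Bool := onCell 0 536870912 0 536870912 1040187392 5207648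
    (rowNE 3 eng mog cd5q0 cd0q2 pd2 0 false false false .pp 0 2 2 (qsf 0 536870912 0 536870912 2) ndB5q0 ndB0q2 pcB2 cut_mm_022_s Ext.none)

def k0_mm_022_s : ∃ t, chk3 f_mm_022_s t 1 1 1 = true :=
  ⟨(l 5), by decide +kernel⟩

theorem c_mm_022_s : CertNE 0 536870912 0 536870912 1040187392 5207648 3 eng mog cd5q0 cd0q2 pd2 false false false .pp 0 2 2
    ndB5q0 ndB0q2 pcB2 cut_mm_022_s Ext.none :=
  certNE0 (fam := false) (s1 := false) (s2 := false) (a := 0) (b := 2) (c := 2) (cn := .pp) (n1 := ndB5q0) (n2 := ndB0q2) (pc := pcB2) (cut := cut_mm_022_s) (xt := Ext.none) (P1 := 0) (W1 := 536870912) (P2 := 0) (W2 := 536870912) (P3 := 1040187392) (W3 := 5207648) (N0 := 3) (En := eng) (mo := mog) (C1 := cd5q0) (C2 := cd0q2) (C3 := pd2)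
    rfl k0_mm_022_s

noncomputable def cut_mm_101_s : Cut := Cut.of [[⟨4, 0, 0, 1449551462⟩]]

noncomputable def f_mm_101_s : ℕ → ℕ → ℕ → ℕ → Bool := onCell 0 536870912 536870912 536870912 1040187392 5207648
    (rowNE 3 eng mog cd5q1 cd0q1 pd0 2 false false false .npn 1 0 1 (qsf 536870912 536870912 536870912 536870912 0) ndB5q1 ndB0q1 pcB0 cut_mm_101_s Ext.none)

def k0_mm_101_s : ∃ t, chk3 f_mm_101_s t 1 1 1 = true :=
  ⟨(l 5), by decide +kernel⟩

theorem c_mm_101_s : CertNE 536870912 536870912 536870912 536870912 1040187392 5207648 3 eng mog cd5q1 cd0q1 pd0 false false false .npn 1 0 1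
    ndB5q1 ndB0q1 pcB0 cut_mm_101_s Ext.none :=
  certNE2 (fam := false) (s1 := false) (s2 := false) (a := 1) (b := 0) (c := 1) (cn := .npn) (n1 := ndB5q1) (n2 := ndB0q1) (pc := pcB0) (cut := cut_mm_101_s) (xt := Ext.none) (P1 := 536870912) (W1 := 536870912) (P2 := 536870912) (W2 := 536870912) (P3 := 1040187392) (W3 := 5207648) (N0 := 3) (En := eng) (mo := mog) (C1 := cd5q1) (C2 := cd0q1) (C3 := pd0)
    rfl (fun _ => rfl) k0_mm_101_s

noncomputable def cut_mm_102_s : Cut := Cut.of [[⟨4, 0, 0, 1449551462⟩]]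

noncomputable def f_mm_102_s : ℕ → ℕ → ℕ → ℕ → Bool := onCell 536870912 536870912 0 536870912 1040187392 5207648
    (rowNE 3 eng mog cd5q1 cd0q2 pd0 0 false false false .npp 1 0 2 (qsf 536870912 536870912 0 536870912 0) ndB5q1 ndB0q2 pcB0 cut_mm_102_s Ext.none)

def k0_mm_102_s : ∃ t, chk3 f_mm_102_s t 1 1 1 = true :=
  ⟨(l 5), by decide +kernel⟩

theorem c_mm_102_s : CertNE 536870912 536870912 0 536870912 1040187392 5207648 3 eng mog cd5q1 cd0q2 pd0 false false false .npp 1 0 2
    ndB5q1 ndB0q2 pcB0 cut_mm_102_s Ext.none :=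
  certNE0 (fam := false) (s1 := false) (s2 := false) (a := 1) (b := 0) (c := 2) (cn := .npp) (n1 := ndB5q1) (n2 := ndB0q2) (pc := pcB0) (cut := cut_mm_102_s) (xt := Ext.none) (P1 := 536870912) (W1 := 536870912) (P2 := 0) (W2 := 536870912) (P3 := 1040187392) (W3 := 5207648) (N0 := 3) (En := eng) (mo := mog) (C1 := cd5q1) (C2 := cd0q2) (C3 := pd0)
    rfl k0_mm_102_s

noncomputable def cut_mm_112_s : Cut := Cut.of [[⟨4, 0, 0, 1449551462⟩]]

noncomputable def f_mm_112_s : ℕ → ℕ → ℕ → ℕ → Bool := onCell 536870912 536870912 0 536870912 1040187392 5207648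
    (rowNE 3 eng mog cd5q1 cd0q2 pd1 0 false false false .dn 1 1 2 (qsf 536870912 536870912 0 536870912 1) ndB5q1 ndB0q2 pcB1 cut_mm_112_s Ext.none)

def k0_mm_112_s : ∃ t, chk3 f_mm_112_s t 1 1 1 = true :=
  ⟨(l 5), by decide +kernel⟩

theorem c_mm_112_s : CertNE 536870912 536870912 0 536870912 1040187392 5207648 3 eng mog cd5q1 cd0q2 pd1 false false false .dn 1 1 2
    ndB5q1 ndB0q2 pcB1 cut_mm_112_s Ext.none :=
  certNE0 (fam := false) (s1 := false) (s2 := false) (a := 1) (b := 1) (c := 2) (cn := .dn) (n1 := ndB5q1) (n2 := ndB0q2) (pc := pcB1) (cut := cut_mm_112_s) (xt := Ext.none) (P1 := 536870912) (W1 := 536870912) (P2 := 0) (W2 := 536870912) (P3 := 1040187392) (W3 := 5207648) (N0 := 3) (En := eng) (mo := mog) (C1 := cd5q1) (C2 := cd0q2) (C3 := pd1)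
    rfl k0_mm_112_s

noncomputable def cut_mm_202_s : Cut := Cut.of [[⟨4, 0, 0, 1449551462⟩]]

noncomputable def f_mm_202_s : ℕ → ℕ → ℕ → ℕ → Bool := onCell 1073741824 536870912 0 536870912 1040187392 5207648
    (rowNE 3 eng mog cd5q2 cd0q2 pd0 0 false false false .pp 2 0 2 (qsf 1073741824 536870912 0 536870912 0) ndB5q2 ndB0q2 pcB0 cut_mm_202_s Ext.none)

def k0_mm_202_s : ∃ t, chk3 f_mm_202_s t 1 1 1 = true :=
  ⟨(l 5), by decide +kernel⟩

theorem c_mm_202_s : CertNE 1073741824 536870912 0 536870912 1040187392 5207648 3 eng mog cd5q2 cd0q2 pd0 false false false .pp 2 0 2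
    ndB5q2 ndB0q2 pcB0 cut_mm_202_s Ext.none :=
  certNE0 (fam := false) (s1 := false) (s2 := false) (a := 2) (b := 0) (c := 2) (cn := .pp) (n1 := ndB5q2) (n2 := ndB0q2) (pc := pcB0) (cut := cut_mm_202_s) (xt := Ext.none) (P1 := 1073741824) (W1 := 536870912) (P2 := 0) (W2 := 536870912) (P3 := 1040187392) (W3 := 5207648) (N0 := 3) (En := eng) (mo := mog) (C1 := cd5q2) (C2 := cd0q2) (C3 := pd0)
    rfl k0_mm_202_s

end Pool.Agent.Strip051.G.I9688_9736.Tab.CS.BB50

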