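import Pool.Agent.Strip051.G.I9688_9736.Tab
import Pool.Agent.Strip051.PB.ExtD3

/-! # Certificates B13 (generated) -/

set_option linter.all false
set_option maxRecDepth 100000

namespace Pool.Agent.Strip051.G.I9688_9736.Tab.C.BB00

open Pool.Agent.Strip051.PB Pool.Agent.Strip051.PB.T
open Pool.Agent.Strip051.G.I9688_9736.Tab

noncomputable def cut_pm_112 : Cut := Cut.of [[⟨3, 0, 0, 1449551462⟩], [⟨4, 0, 0, 2845415833⟩]]

noncomputable def f_pm_112 : ℕ → ℕ → ℕ → ℕ → Bool := onCell 536870912 536870912 0 536870912 1040187392 5207648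
    (rowB 3 eng mog cd0q1 cd0q2 pd1 0 false true false .dn 1 1 2 (qsf 536870912 536870912 0 536870912 1) ndB0q1 ndB0q2 pcB1 cut_pm_112 Ext.none)

def k0_pm_112 : ∃ t, chk3 f_pm_112 t 1 1 1 = true :=
  ⟨(a (a (a (b (b (b (l 6) (a (b (l 6) (a (b (l 6) (l 16339144)) (l 6))) (l 6))) (b (a (b (a (l 16371440) (l 16346616)) (l 16360672)) (b (a (l 16318984) (l 6)) (a (l 16370544) (l 16346896)))) (a (b (l 16446112) (l 16493992)) (b (a (l 16419112) (l 16399504)) (l 16419648))))) (b (b (a (b (l 16396464) (l 16181368)) (b (l 16373384) (l 16156320))) (b (a (b (l 16066704) (a (l 15934696) (b (l 15985016) (l 15934000)))) (a (l 15974392) (l 16033104))) (b (a (l 15924816) (a (b (l 15884168) (l 15865888)) (b (l 15871048) (l 15836440)))) (l 15849792)))) (b (b (l 15806664) (l 15827680)) (b (l 15797456) (l 15818304))))) (b (b (l 6) (b (a (b (l 6) (a (l 16279120) (l 6))) (l 6)) (a (b (a (l 16378760) (l 16356864)) (a (l 16434152) (l 16415064))) (b (a (l 16291680) (l 6)) (a (l 16395568)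 (l 16375792)))))) (b (b (a (b (l 16401280) (b (l 16383520) (l 16258968))) (b (a (l 16456864) (l 16438024)) (b (l 16428440) (l 16272400)))) (b (a (a (l 16051512) (l 16054512)) (a (l 16062952) (l 1))) (a (b (a (b (l 15883312) (b (l 15831216) (l 15782928))) (l 15863456)) (a (l 15766336) (l 1))) (l 1)))) (b (b (a (l 15750760) (l 1)) (l 1)) (l 1))))) (b (b (l 6) (b (l 6) (b (l 6) (b (l 6) (l 1))))) (b (l 1) (l 1)))) (l 1)), by decide +kernel⟩

theorem c_pm_112 : CertB 536870912 536870912 0 536870912 1040187392 5207648 3 eng mog cd0q1 cd0q2 pd1 false true false .dn 1 1 2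
    ndB0q1 ndB0q2 pcB1 cut_pm_112 Ext.none :=
  certB0 (fam := false) (s1 := true) (s2 := false) (a := 1) (b := 1) (c := 2) (cn := .dn) (n1 := ndB0q1) (n2 := ndB0q2) (pc := pcB1) (cut := cut_pm_112) (xt := Ext.none) (P1 := 536870912) (W1 := 536870912) (P2 := 0) (W2 := 536870912) (P3 := 1040187392) (W3 := 5207648) (N0 := 3) (En := eng) (mo := mog) (C1 := cd0q1) (C2 := cd0q2) (C3 := pd1)
    rfl k0_pm_112

noncomputable def cut_pm_202 : Cut := Cut.of [[⟨3, 0, 0, 1449551462⟩], [⟨4, 0, 0, 2845415833⟩], [⟨0, 1, 0, 26843545⟩, ⟨1, 0, 0, 26843545⟩, ⟨2, 1, 0, 26843545⟩], [⟨0, 0, 1, 46137344⟩, ⟨1, 1, 2, 46137344⟩, ⟨2, 1, 0, 1048576⟩, ⟨0, 0, 0, 1054867456⟩, ⟨0, 1, 0, 38117834⟩, ⟨1, 0, 0, 38117834⟩, ⟨1, 1, 0, 1054867456⟩]]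

noncomputable def f_pm_202 : ℕ → ℕ → ℕ → ℕ → Bool := onCell 0 536870912 0 536870912 1040187392 5207648
    (rowB 3 eng mog cd0q2 cd0q2 pd0 0 false true false .pp 2 0 2 (qsf 0 536870912 0 536870912 0) ndB0q2 ndB0q2 pcB0 cut_pm_202 Ext.none)

def k0_pm_202 : ∃ t, chk3 f_pm_202 t 1 1 1 = true :=
  ⟨(l 6), by decide +kernel⟩

theorem c_pm_202 : CertB 0 536870912 0 536870912 1040187392 5207648 3 eng mog cd0q2 cd0q2 pd0 false true false .pp 2 0 2
    ndB0q2 ndB0q2 pcB0 cut_pm_202 Ext.none :=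
  certB0 (fam := false) (s1 := true) (s2 := false) (a := 2) (b := 0) (c := 2) (cn := .pp) (n1 := ndB0q2) (n2 := ndB0q2) (pc := pcB0) (cut := cut_pm_202) (xt := Ext.none) (P1 := 0) (W1 := 536870912) (P2 := 0) (W2 := 536870912) (P3 := 1040187392) (W3 := 5207648) (N0 := 3) (En := eng) (mo := mog) (C1 := cd0q2) (C2 := cd0q2) (C3 := pd0)
    rfl k0_pm_202

noncomputable def cut_mm_001 : Cut := Cut.of [[⟨3, 0, 0, 1449551462⟩], [⟨4, 0, 0, 2845415833⟩]]

noncomputable def f_mm_001 : ℕ → ℕ → ℕ → ℕ → Bool := onCell 0 536870912 536870912 536870912 1040187392 5207648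
    (rowB 3 eng mog cd0q0 cd0q1 pd0 0 false false false .up 0 0 1 (qsf 0 536870912 536870912 536870912 0) ndB0q0 ndB0q1 pcB0 cut_mm_001 Ext.none)

def k0_mm_001 : ∃ t, chk3 f_mm_001 t 1 1 1 = true :=
  ⟨(l 6), by decide +kernel⟩

theorem c_mm_001 : CertB 0 536870912 536870912 536870912 1040187392 5207648 3 eng mog cd0q0 cd0q1 pd0 false false false .up 0 0 1
    ndB0q0 ndB0q1 pcB0 cut_mm_001 Ext.none :=
  certB0 (fam := false) (s1 := false) (s2 := false) (a := 0) (b := 0) (c := 1) (cn := .up) (n1 := ndB0q0) (n2 := ndB0q1) (pc := pcB0) (cut := cut_mm_001) (xt := Ext.none) (P1 := 0) (W1 := 536870912) (P2 := 536870912) (W2 := 536870912) (P3 := 1040187392) (W3 := 5207648) (N0 := 3) (En := eng) (mo := mog) (C1 := cd0q0) (C2 := cd0q1) (C3 := pd0)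
    rfl k0_mm_001

noncomputable def cut_mm_011 : Cut := Cut.of [[⟨3, 0, 0, 1449551462⟩], [⟨4, 0, 0, 2845415833⟩]]

noncomputable def f_mm_011 : ℕ → ℕ → ℕ → ℕ → Bool := onCell 0 536870912 536870912 536870912 1040187392 5207648
    (rowB 3 eng mog cd0q0 cd0q1 pd1 0 false false false .pnn 0 1 1 (qsf 0 536870912 536870912 536870912 1) ndB0q0 ndB0q1 pcB1 cut_mm_011 Ext.none)

def k0_mm_011 : ∃ t, chk3 f_mm_011 t 1 1 1 = true :=
  ⟨(l 6), by decide +kernel⟩

theorem c_mm_011 : CertB 0 536870912 536870912 536870912 1040187392 5207648 3 eng mog cd0q0 cd0q1 pd1 false false false .pnn 0 1 1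
    ndB0q0 ndB0q1 pcB1 cut_mm_011 Ext.none :=
  certB0 (fam := false) (s1 := false) (s2 := false) (a := 0) (b := 1) (c := 1) (cn := .pnn) (n1 := ndB0q0) (n2 := ndB0q1) (pc := pcB1) (cut := cut_mm_011) (xt := Ext.none) (P1 := 0) (W1 := 536870912) (P2 := 536870912) (W2 := 536870912) (P3 := 1040187392) (W3 := 5207648) (N0 := 3) (En := eng) (mo := mog) (C1 := cd0q0) (C2 := cd0q1) (C3 := pd1)
    rfl k0_mm_011

noncomputable def cut_mm_012 : Cut := Cut.of [[⟨3, 0, 0, 1449551462⟩], [⟨4, 0, 0, 2845415833⟩]]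

noncomputable def f_mm_012 : ℕ → ℕ → ℕ → ℕ → Bool := onCell 0 536870912 0 536870912 1040187392 5207648
    (rowB 3 eng mog cd0q0 cd0q2 pd1 0 false false false .pnp 0 1 2 (qsf 0 536870912 0 536870912 1) ndB0q0 ndB0q2 pcB1 cut_mm_012 Ext.none)

def k0_mm_012 : ∃ t, chk3 f_mm_012 t 1 1 1 = true :=
  ⟨(l 5), by decide +kernel⟩

theorem c_mm_012 : CertB 0 536870912 0 536870912 1040187392 5207648 3 eng mog cd0q0 cd0q2 pd1 false false false .pnp 0 1 2
    ndB0q0 ndB0q2 pcB1 cut_mm_012 Ext.none :=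
  certB0 (fam := false) (s1 := false) (s2 := false) (a := 0) (b := 1) (c := 2) (cn := .pnp) (n1 := ndB0q0) (n2 := ndB0q2) (pc := pcB1) (cut := cut_mm_012) (xt := Ext.none) (P1 := 0) (W1 := 536870912) (P2 := 0) (W2 := 536870912) (P3 := 1040187392) (W3 := 5207648) (N0 := 3) (En := eng) (mo := mog) (C1 := cd0q0) (C2 := cd0q2) (C3 := pd1)
    rfl k0_mm_012

noncomputable def cut_mm_022 : Cut := Cut.of [[⟨3, 0, 0, 1449551462⟩], [⟨4, 0, 0, 2845415833⟩]]

noncomputable def f_mm_022 : ℕ → ℕ → ℕ → ℕ → Bool := onCell 0 536870912 0 536870912 1040187392 5207648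
    (rowB 3 eng mog cd0q0 cd0q2 pd2 0 false false false .pp 0 2 2 (qsf 0 536870912 0 536870912 2) ndB0q0 ndB0q2 pcB2 cut_mm_022 Ext.none)

def k0_mm_022 : ∃ t, chk3 f_mm_022 t 1 1 1 = true :=
  ⟨(l 5), by decide +kernel⟩

theorem c_mm_022 : CertB 0 536870912 0 536870912 1040187392 5207648 3 eng mog cd0q0 cd0q2 pd2 false false false .pp 0 2 2
    ndB0q0 ndB0q2 pcB2 cut_mm_022 Ext.none :=
  certB0 (fam := false) (s1 := false) (s2 := false) (a := 0) (b := 2) (c := 2) (cn := .pp) (n1 := ndB0q0) (n2 := ndB0q2) (pc := pcB2) (cut := cut_mm_022) (xt := Ext.none) (P1 := 0) (W1 := 536870912) (P2 := 0) (W2 := 536870912) (P3 := 1040187392) (W3 := 5207648) (N0 := 3) (En := eng) (mo := mog) (C1 := cd0q0) (C2 := cd0q2) (C3 := pd2)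
    rfl k0_mm_022

noncomputable def cut_mm_101 : Cut := Cut.of [[⟨3, 0, 0, 1449551462⟩], [⟨4, 0, 0, 2845415833⟩]]

noncomputable def f_mm_101 : ℕ → ℕ → ℕ → ℕ → Bool := onCell 536870912 536870912 536870912 536870912 1040187392 5207648
    (rowB 3 eng mog cd0q1 cd0q1 pd0 0 false false false .npn 1 0 1 (qsf 536870912 536870912 536870912 536870912 0) ndB0q1 ndB0q1 pcB0 cut_mm_101 Ext.none)

def k0_mm_101 : ∃ t, chk3 f_mm_101 t 1 1 1 = true :=
  ⟨(l 3), by decide +kernel⟩

theorem c_mm_101 : CertB 536870912 536870912 536870912 536870912 1040187392 5207648 3 eng mog cd0q1 cd0q1 pd0 false false false .npn 1 0 1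
    ndB0q1 ndB0q1 pcB0 cut_mm_101 Ext.none :=
  certB0 (fam := false) (s1 := false) (s2 := false) (a := 1) (b := 0) (c := 1) (cn := .npn) (n1 := ndB0q1) (n2 := ndB0q1) (pc := pcB0) (cut := cut_mm_101) (xt := Ext.none) (P1 := 536870912) (W1 := 536870912) (P2 := 536870912) (W2 := 536870912) (P3 := 1040187392) (W3 := 5207648) (N0 := 3) (En := eng) (mo := mog) (C1 := cd0q1) (C2 := cd0q1) (C3 := pd0)
    rfl k0_mm_101

noncomputable def cut_mm_102 : Cut := Cut.of [[⟨3, 0, 0, 1449551462⟩], [⟨4, 0, 0, 2845415833⟩]]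

noncomputable def f_mm_102 : ℕ → ℕ → ℕ → ℕ → Bool := onCell 536870912 536870912 0 536870912 1040187392 5207648
    (rowB 3 eng mog cd0q1 cd0q2 pd0 0 false false false .npp 1 0 2 (qsf 536870912 536870912 0 536870912 0) ndB0q1 ndB0q2 pcB0 cut_mm_102 Ext.none)

def k0_mm_102 : ∃ t, chk3 f_mm_102 t 1 1 1 = true :=
  ⟨(a (l 5) (l 3)), by decide +kernel⟩

theorem c_mm_102 : CertB 536870912 536870912 0 536870912 1040187392 5207648 3 eng mog cd0q1 cd0q2 pd0 false false false .npp 1 0 2
    ndB0q1 ndB0q2 pcB0 cut_mm_102 Ext.none :=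
  certB0 (fam := false) (s1 := false) (s2 := false) (a := 1) (b := 0) (c := 2) (cn := .npp) (n1 := ndB0q1) (n2 := ndB0q2) (pc := pcB0) (cut := cut_mm_102) (xt := Ext.none) (P1 := 536870912) (W1 := 536870912) (P2 := 0) (W2 := 536870912) (P3 := 1040187392) (W3 := 5207648) (N0 := 3) (En := eng) (mo := mog) (C1 := cd0q1) (C2 := cd0q2) (C3 := pd0)
    rfl k0_mm_102

noncomputable def cut_mm_112 : Cut := Cut.of [[⟨3, 0, 0, 1449551462⟩], [⟨4, 0, 0, 2845415833⟩]]

noncomputable def f_mm_112 : ℕ → ℕ → ℕ → ℕ → Bool := onCell 536870912 536870912 0 536870912 1040187392 5207648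
    (rowB 3 eng mog cd0q1 cd0q2 pd1 2 false false false .dn 1 1 2 (qsf 536870912 536870912 0 536870912 1) ndB0q1 ndB0q2 pcB1 cut_mm_112 Ext.none)

def k0_mm_112 : ∃ t, chk3 f_mm_112 t 1 1 1 = true :=
  ⟨(l 5), by decide +kernel⟩

theorem c_mm_112 : CertB 536870912 536870912 0 536870912 1040187392 5207648 3 eng mog cd0q1 cd0q2 pd1 false false false .dn 1 1 2
    ndB0q1 ndB0q2 pcB1 cut_mm_112 Ext.none :=
  certB2 (fam := false) (s1 := false) (s2 := false) (a := 1) (b := 1) (c := 2) (cn := .dn) (n1 := ndB0q1) (n2 := ndB0q2) (pc := pcB1) (cut := cut_mm_112) (xt := Ext.none) (P1 := 536870912) (W1 := 536870912) (P2 := 0) (W2 := 536870912) (P3 := 1040187392) (W3 := 5207648) (N0 := 3) (En := eng) (mo := mog) (C1 := cd0q1) (C2 := cd0q2) (C3 := pd1)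
    rfl (fun _ => rfl) k0_mm_112

noncomputable def cut_mm_202 : Cut := Cut.of [[⟨3, 0, 0, 1449551462⟩], [⟨4, 0, 0, 2845415833⟩]]

noncomputable def f_mm_202 : ℕ → ℕ → ℕ → ℕ → Bool := onCell 0 536870912 0 536870912 1040187392 5207648
    (rowB 3 eng mog cd0q2 cd0q2 pd0 0 false false false .pp 2 0 2 (qsf 0 536870912 0 536870912 0) ndB0q2 ndB0q2 pcB0 cut_mm_202 Ext.none)

def k0_mm_202 : ∃ t, chk3 f_mm_202 t 1 1 1 = true :=
  ⟨(l 3), by decide +kernel⟩

theorem c_mm_202 : CertB 0 536870912 0 536870912 1040187392 5207648 3 eng mog cd0q2 cd0q2 pd0 false false false .pp 2 0 2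
    ndB0q2 ndB0q2 pcB0 cut_mm_202 Ext.none :=
  certB0 (fam := false) (s1 := false) (s2 := false) (a := 2) (b := 0) (c := 2) (cn := .pp) (n1 := ndB0q2) (n2 := ndB0q2) (pc := pcB0) (cut := cut_mm_202) (xt := Ext.none) (P1 := 0) (W1 := 536870912) (P2 := 0) (W2 := 536870912) (P3 := 1040187392) (W3 := 5207648) (N0 := 3) (En := eng) (mo := mog) (C1 := cd0q2) (C2 := cd0q2) (C3 := pd0)
    rfl k0_mm_202

end Pool.Agent.Strip051.G.I9688_9736.Tab.C.BB00

namespace Pool.Agent.Strip051.G.I9688_9736.Tab.C.BB01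

open Pool.Agent.Strip051.PB Pool.Agent.Strip051.PB.T
open Pool.Agent.Strip051.G.I9688_9736.Tab

noncomputable def f_pp_001 : ℕ → ℕ → ℕ → ℕ → Bool := onCell 0 536870912 536870912 536870912 1040187392 5207648
    (rowB 3 eng mog cd0q0 cd1q1 pd0 0 false true true .up 0 0 1 (qsf 0 536870912 536870912 536870912 0) ndB0q0 ndB1q1 pcB0 Cut.none Ext.none)

def k0_pp_001 : ∃ t, chk3 f_pp_001 t 1 1 1 = true :=
  ⟨(l 3), by decide +kernel⟩

theorem c_pp_001 : CertB 0 536870912 536870912 536870912 1040187392 5207648 3 eng mog cd0q0 cd1q1 pd0 false true true .up 0 0 1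
    ndB0q0 ndB1q1 pcB0 Cut.none Ext.none :=
  certB0 (fam := false) (s1 := true) (s2 := true) (a := 0) (b := 0) (c := 1) (cn := .up) (n1 := ndB0q0) (n2 := ndB1q1) (pc := pcB0) (cut := Cut.none) (xt := Ext.none) (P1 := 0) (W1 := 536870912) (P2 := 536870912) (W2 := 536870912) (P3 := 1040187392) (W3 := 5207648) (N0 := 3) (En := eng) (mo := mog) (C1 := cd0q0) (C2 := cd1q1) (C3 := pd0)
    rfl k0_pp_001

noncomputable def f_pp_011 : ℕ → ℕ → ℕ → ℕ → Bool := onCell 0 536870912 536870912 536870912 1040187392 5207648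
    (rowB 3 eng mog cd0q0 cd1q1 pd1 0 false true true .pnn 0 1 1 (qsf 0 536870912 536870912 536870912 1) ndB0q0 ndB1q1 pcB1 Cut.none Ext.none)

def k0_pp_011 : ∃ t, chk3 f_pp_011 t 1 1 1 = true :=
  ⟨(l 3), by decide +kernel⟩

theorem c_pp_011 : CertB 0 536870912 536870912 536870912 1040187392 5207648 3 eng mog cd0q0 cd1q1 pd1 false true true .pnn 0 1 1
    ndB0q0 ndB1q1 pcB1 Cut.none Ext.none :=
  certB0 (fam := false) (s1 := true) (s2 := true) (a := 0) (b := 1) (c := 1) (cn := .pnn) (n1 := ndB0q0) (n2 := ndB1q1) (pc := pcB1) (cut := Cut.none) (xt := Ext.none) (P1 := 0) (W1 := 536870912) (P2 := 536870912) (W2 := 536870912) (P3 := 1040187392) (W3 := 5207648) (N0 := 3) (En := eng) (mo := mog) (C1 := cd0q0) (C2 := cd1q1) (C3 := pd1)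
    rfl k0_pp_011

noncomputable def cut_pp_012_a : Cut := Cut.of [[⟨0, 0, 0, 26843545⟩, ⟨1, 1, 0, 26843545⟩, ⟨2, 1, 0, 26843545⟩]]

noncomputable def xt_pp_012_a : Ext := extD3 3 ⟨4, 1, 1, 5, 33, 5, 163, 200, 81, 200, 1, 64⟩ eng cd0q0 cd1q2a pd1 false true true .pnp 0 1 2 rfl ndB0q0 ndB1q2a pcB1

noncomputable def f_pp_012_a : ℕ → ℕ → ℕ → ℕ → Bool := onCell 536870912 536870912 0 536870912 1040187392 5207648
    (rowB 3 eng mog cd0q0 cd1q2a pd1 2 false true true .pnp 0 1 2 (qsf 0 536870912 0 536870912 1) ndB0q0 ndB1q2a pcB1 cut_pp_012_a xt_pp_012_a)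

def k0_pp_012_a : ∃ t, chk3 f_pp_012_a t 2 1 1 = true :=
  ⟨(a (l 3) (b (a (l 3) (b (a (b (b (a (b (a (l 3) (b (a (l 155860291831) (b (a (b (l 16747448) (l 131164227047)) (l 16760264)) (a (l 3) (l 130627359815)))) (l 3))) (l 3)) (b (a (b (b (l 16747384) (a (a (l 79624616071) (l 16761512)) (l 16767792))) (a (b (a (l 148344097015) (l 98951965879)) (l 3)) (b (l 16739672) (a (l 123648026615) (l 16745416))))) (l 16739624)) (a (b (l 154249671767) (l 3)) (b (a (b (a (l 94656995287) (l 16756920)) (a (l 3) (l 118279313879))) (l 16738648)) (a (l 3) (b (a (l 138680413799) (l 89825154007)) (l 156397151591))))))) (l 3)) (l 3)) (b (b (a (a (b (l 16743080) (a (b (l 16746040) (b (l 16757344) (a (l 107541892231) (l 16752896)))) (l 16744272))) (l 16723800)) (a (l 16702704) (l 16708944))) (a (b (a (b (a (l 146196602215) (b (l 74792764375) (a (l 148344084791) (l 98951954791)))) (l 3)) (b (l 16738784) (a (b (a (l 122574273543) (l 16749400)) (l 146196598119)) (l 72108403655))))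 (a (l 3) (b (a (l 3) (l 138143532839)) (l 3)))) (b (a (l 16739896) (l 16745008)) (a (b (a (b (l 16749832) (l 109689364807)) (l 16753416)) (a (l 152639043975) (b (l 87140785623) (l 133311690775)))) (l 59760365639))))) (b (a (l 3) (b (a (l 3) (b (a (l 128479840839) (l 79087716759)) (l 146733459223))) (l 3))) (l 3)))) (l 3))) (l 3))), by decide +kernel⟩

def k1_pp_012_a : ∃ t, chk3 f_pp_012_a t 6 1 1 = true :=
  ⟨(b (a (b (a (b (a (b (l 16689024) (b (l 16702208) (l 16729680))) (b (l 16666664) (l 16687392))) (a (a (b (b (a (b (l 16750624) (l 93583227623)) (l 16730224)) (b (a (l 154786520119) (l 107004998663)) (l 3))) (l 3)) (b (b (l 16736800) (b (l 16724800) (a (l 130627326967) (l 81772063367)))) (l 153175893911))) (b (a (l 16734768) (l 16742288)) (b (a (b (a (l 94120092727) (l 16741448)) (l 128479839815)) (l 16722704)) (a (l 3) (a (l 137069771831) (l 100562537319))))))) (b (a (l 16626200) (l 16653880)) (a (b (l 16724280) (a (b (l 16749024) (a (l 79087700231) (l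 16739624))) (l 16726712))) (b (l 16704568) (l 16737368))))) (a (l 3) (b (a (b (b (a (l 129553576823) (b (l 16736208) (l 102173147719))) (l 139217233735)) (l 3)) (b (a (b (l 16737864) (b (l 16732968) (l 110763082327))) (l 16715824)) (b (a (l 3) (l 101636273111)) (l 3)))) (l 3)))) (b (a (b (l 16599960) (a (l 16704360) (l 16693016))) (b (l 16643440) (a (l 16686768) (l 16682328)))) (a (b (b (a (l 16715392) (l 16728584)) (a (b (a (l 16730976) (l 16730848)) (a (l 103246895191) (l 74255853399))) (a (l 16728424) (l 16724936)))) (b (a (a (l 3) (l 108078719383)) (b (a (l 76403332007) (l 16725752)) (a (l 103783768951) (l 82845779879)))) (l 3))) (b (a (b (l 16712768) (l 16715880)) (b (l 16689176) (l 16696872))) (a (b (a (l 57612835591) (l 16718136)) (b (a (l 83919520711) (l 16723968)) (a (l 3) (l 79624552071)))) (b (a (l 16710936) (l 16701752)) (a (b (l 16718432) (l 56002223367)) (b (l 16710952) (l 16717728))))))))) (b (a (l 3) (b (a (l 3) (b (a (l 3) (b (a (b (l 80161428455)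 (l 3)) (b (l 16723048) (l 58149715319))) (a (l 3) (b (l 71034641591) (l 3))))) (l 3))) (l 3))) (l 3))), by decide +kernel⟩

def k2_pp_012_a : ∃ t, chk3 f_pp_012_a t 7 2 1 = true :=
  ⟨(a (a (b (b (l 16591208) (l 16623472)) (a (b (l 16643544) (b (l 16663384) (a (l 16684560) (l 16694696)))) (b (l 16628576) (b (l 16654696) (a (l 16681960) (l 16667392)))))) (b (b (a (l 16515256) (l 16474144)) (a (l 16550264) (l 16494848))) (a (b (l 16586072) (b (l 16618064) (l 16642224))) (b (l 16537136) (b (l 16574344) (l 16602032)))))) (a (b (b (l 16384904) (a (b (l 16433008) (l 16445968)) (b (l 16398880) (l 16390664)))) (a (b (l 16485072) (l 16502232)) (b (l 16430568) (l 16478240)))) (b (b (l 16416320) (a (b (l 16394304) (b (l 16360536) (l 16322640))) (l 16376920))) (b (a (b (l 16333128) (l 16385496)) (b (b (l 16313576) (a (l 16312304) (l 16272224))) (a (l 16336328) (l 16305680)))) (a (l 16442744) (b (l 16357512) (l 16396960))))))), by decide +kernel⟩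

def k3_pp_012_a : ∃ t, chk3 f_pp_012_a t 14 3 1 = true :=
  ⟨(b (a (b (a (b (b (a (l 16717688) (l 16708472)) (a (b (l 52781000391) (l 59223459863)) (a (l 16720488) (l 16715928)))) (b (a (b (l 63518454039) (l 3)) (b (l 53854743703) (l 59223463271))) (l 3))) (b (a (b (l 16697328) (l 16708184)) (l 16669384)) (a (b (a (l 16721872) (l 16716880)) (b (l 52781004935) (l 54928500967))) (b (l 16708480) (a (l 16713328) (l 16718368)))))) (b (a (l 3) (b (a (l 3) (a (l 50096665655) (l 43117333015))) (l 3))) (l 3))) (a (b (b (a (l 16676016) (l 16659896)) (a (b (l 16695640) (l 16688344)) (b (l 16680984) (l 16695640)))) (b (a (b (a (l 16715768) (l 16720368)) (a (l 42580478823) (l 32916790455))) (b (l 16689696) (a (l 16718672) (l 16722848)))) (b (a (l 3) (b (l 33453667383) (l 67813422711))) (l 3)))) (b (b (a (l 16642088) (l 16622464)) (a (l 16651528) (l 16633688))) (b (a (b (l 16696160) (a (l 16716072) (l 16708840))) (b (l 16679664) (a (l 16701168) (l 16693032)))) (a (b (a (l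 16711520) (l 16725776)) (b (l 20031901895) (l 3))) (b (a (l 16718568) (l 16710880)) (a (l 16715248) (l 16708112)))))))) (b (a (l 3) (b (a (l 3) (b (a (l 3) (b (a (l 3) (l 16742704)) (l 3))) (l 3))) (l 3))) (l 3))), by decide +kernel⟩

def k4_pp_012_a : ∃ t, chk3 f_pp_012_a t 15 6 1 = true :=
  ⟨(a (a (b (b (l 16571976) (a (l 16636520) (l 16619944))) (b (a (b (l 16662944) (l 16681152)) (b (l 16648056) (l 16667400))) (a (b (a (l 16703240) (l 16696408)) (a (l 16721920) (l 16715616))) (b (l 16687120) (a (l 16709928) (l 16704536)))))) (b (a (b (l 16564688) (l 16603432)) (l 16544096)) (b (a (l 16643824) (l 142133352424030271)) (a (b (l 16674952) (a (l 16699288) (l 16693176))) (b (l 16660840) (l 16659880)))))) (b (a (b (l 16503200) (l 140852833527840831)) (b (l 16376304) (a (l 16497368) (l 16463008)))) (a (b (a (l 16605472) (l 16573480)) (a (l 142287696361717823) (l 16569416))) (b (a (l 16536968) (l 16498064)) (a (l 141734848056721535) (b (l 16521176) (l 16535744))))))),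 by decide +kernel⟩

def k5_pp_012_a : ∃ t, chk3 f_pp_012_a t 30 7 1 = true :=
  ⟨(b (a (b (a (b (a (b (l 16736088) (l 16734944)) (l 16714184)) (b (a (l 3) (l 120426784407)) (l 3))) (b (a (b (l 16724952) (l 16735160)) (l 16704200)) (b (a (l 16744896) (l 16739592)) (a (l 173577008855) (l 16737608))))) (b (a (l 3) (b (a (l 3) (l 179482592151)) (l 3))) (l 3))) (b (a (b (a (l 16698336) (l 16712944)) (a (l 16716456) (l 16708824))) (b (a (l 16704848) (l 16694488)) (a (l 16721032) (l 16710128)))) (b (a (b (a (b (l 16747000) (l 122037402839)) (l 16740768)) (a (l 230485327847) (b (l 16745800) (l 171429522583)))) (a (b (l 16731736) (l 16717384)) (b (l 16720656) (l 16727304)))) (a (b (a (l 3) (b (l 253033920423) (l 3))) (l 3)) (b (a (b (a (l 16745336) (l 16740528)) (a (l 247665204327) (b (l 16742864) (l 98951958503)))) (a (l 16731520) (l 16730496))) (a (a (l 3) (a (l 3) (b (l 236927780343) (l 3)))) (b (a (b (l 16740680) (a (l 217600424151) (l 16740800))) (l 16735312)) (a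 (b (a (l 3) (b (l 145659719239) (l 224042873255))) (l 3)) (b (a (l 119889911239) (l 16736064)) (a (b (l 162839585015) (l 215989806679)) (b (l 16737288) (l 142438486183)))))))))))) (a (l 3) (b (a (l 3) (b (a (l 3) (b (a (l 3) (b (b (a (l 3) (b (a (l 203641772679) (l 146196585063)) (l 209010481607))) (l 3)) (l 3))) (l 3))) (l 3))) (l 3)))), by decide +kernel⟩

def k6_pp_012_a : ∃ t, chk3 f_pp_012_a t 31 14 1 = true :=
  ⟨(a (b (a (b (l 16672568) (a (l 16695808) (l 16678552))) (b (l 16634648) (l 16627944))) (a (a (b (l 16688648) (b (l 16719536) (b (l 16714016) (a (a (l 16733424) (l 16729712)) (l 16723968))))) (b (l 16692344) (b (l 16702320) (a (l 16714024) (l 16705712))))) (b (a (l 143103808962150527) (l 16652344)) (a (b (l 16683848) (l 16692728)) (b (l 16665016) (l 16675944)))))) (b (a (b (l 16591872) (l 142631087544909951)) (b (l 16549672) (a (l 16575728) (l 16557856)))) (a (b (l 142755401113878655) (b (l 142921083804795007) (l 142941287358414975))) (b (a (l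 16596472) (l 16582224)) (a (l 143120782574616703) (b (l 16604512) (l 16621128))))))), by decide +kernel⟩

def k7_pp_012_a : ∃ t, chk3 f_pp_012_a t 62 15 1 = true :=
  ⟨(b (a (b (a (b (a (b (a (b (b (l 16735504) (l 144585966279)) (b (a (l 212768574743) (l 156397124071)) (l 221358509159))) (b (l 16732320) (l 138143511799))) (a (l 3) (b (b (l 195051829751) (l 224042860743)) (l 3)))) (b (l 16730336) (a (b (l 140290992503) (l 208473600999)) (b (l 16729152) (l 142438473911))))) (a (l 3) (b (a (l 3) (b (l 211157953863) (l 3))) (l 3)))) (b (a (b (l 16720200) (l 16725064)) (l 16715160)) (a (b (a (b (l 144049085175) (l 213842307367)) (l 130090440823)) (a (l 3) (l 224579727991))) (b (l 16723800) (a (b (l 148344051527) (l 218674145367)) (l 130090441223)))))) (b (a (l 3) (b (a (l 3) (a (l 3) (l 227800954887))) (l 3))) (l 3))) (b (a (b (l 16682880) (b (l 16713504) (a (l 16723800) (l 16717272)))) (b (l 16688824) (b (l 16699656) (l 16707424)))) (a (b (b (a (b (l 130627313431)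 (l 198809920871)) (l 16724952)) (a (l 233169670103) (a (l 189683118375) (l 109152483175)))) (b (a (l 3) (l 235854030023)) (l 3))) (b (b (l 16715592) (a (l 16727120) (l 16721152))) (b (a (b (a (l 16735056) (l 16732224)) (a (l 231559059383) (l 16736672))) (l 16730168)) (a (l 233706553319) (b (a (l 16738480) (l 16735728)) (a (l 232095937703) (l 16740432))))))))) (b (a (l 3) (b (a (l 3) (b (a (l 3) (l 234780282359)) (l 3))) (l 3))) (l 3))), by decide +kernel⟩

def k8_pp_012_a : ∃ t, chk3 f_pp_012_a t 63 15 1 = true :=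
  ⟨(b (a (b (a (b (l 16674176) (a (l 16693504) (l 16686976))) (b (l 16660712) (l 16677832))) (a (a (b (l 16710688) (b (l 16724408) (b (l 16731504) (l 16736320)))) (b (l 16704664) (b (l 16718664) (l 16728336)))) (b (l 143284472472338559) (b (l 143433456370368639) (a (l 16722992) (l 16717992)))))) (b (a (b (l 16649016) (l 16667024)) (b (l 16638880) (l 16657704))) (a (b (l 143532412366798975) (b (l 16700920) (l 143642019983343743))) (b (a (l 16679416) (l 16675408)) (a (l 16689104) (b (l 16690464) (l 6))))))) (a (a (b (b (a (b (a (b (l 16743824) (l 199346820567)) (b (l 16739824) (l 16746696))) (b (l 200420558935) (l 3))) (b (b (l 16735736) (l 16740744)) (b (a (l 16749376) (l 16744496)) (a (l 200420571895) (b (l 16748312) (l 16750824)))))) (b (a (l 3) (b (a (l 3) (l 200420576983)) (l 3))) (l 3))) (l 3)) (b (b (b (a (b (l 16730496) (l 16735568)) (l 143575637003731071)) (a (b (l 16740672) (a (l 16747056) (l 16744584))) (b (l 16735816) (l 16740952)))) (b (a (b (a (b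 (l 16750912) (l 16753448)) (l 16749736)) (a (l 199346829943) (l 6))) (l 6)) (l 6))) (l 6))) (b (a (b (b (a (l 16723504) (l 16719040)) (a (l 143696033527611519) (l 6))) (l 6)) (l 6)) (l 6)))), by decide +kernel⟩

theorem s9_pp_012_a : ∃ t, chk3 f_pp_012_a t 31 15 1 = true := ex3_a k7_pp_012_a k8_pp_012_a

theorem s10_pp_012_a : ∃ t, chk3 f_pp_012_a t 31 7 1 = true := ex3_b k6_pp_012_a s9_pp_012_a

theorem s11_pp_012_a : ∃ t, chk3 f_pp_012_a t 15 7 1 = true := ex3_a k5_pp_012_a s10_pp_012_a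

theorem s12_pp_012_a : ∃ t, chk3 f_pp_012_a t 15 3 1 = true := ex3_b k4_pp_012_a s11_pp_012_a

theorem s13_pp_012_a : ∃ t, chk3 f_pp_012_a t 7 3 1 = true := ex3_a k3_pp_012_a s12_pp_012_a

theorem s14_pp_012_a : ∃ t, chk3 f_pp_012_a t 7 1 1 = true := ex3_b k2_pp_012_a s13_pp_012_a

theorem s15_pp_012_a : ∃ t, chk3 f_pp_012_a t 3 1 1 = true := ex3_a k1_pp_012_a s14_pp_012_a

theorem s16_pp_012_a : ∃ t, chk3 f_pp_012_a t 1 1 1 = true := ex3_a k0_pp_012_a s15_pp_012_a

theorem c_pp_012_a : CertB 0 536870912 0 536870912 1040187392 5207648 3 eng mog cd0q0 cd1q2a pd1 false true true .pnp 0 1 2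
    ndB0q0 ndB1q2a pcB1 cut_pp_012_a xt_pp_012_a :=
  certB2 (fam := false) (s1 := true) (s2 := true) (a := 0) (b := 1) (c := 2) (cn := .pnp) (n1 := ndB0q0) (n2 := ndB1q2a) (pc := pcB1) (cut := cut_pp_012_a) (xt := xt_pp_012_a) (P1 := 0) (W1 := 536870912) (P2 := 0) (W2 := 536870912) (P3 := 1040187392) (W3 := 5207648) (N0 := 3) (En := eng) (mo := mog) (C1 := cd0q0) (C2 := cd1q2a) (C3 := pd1)
    rfl (fun _ => rfl) s16_pp_012_a

noncomputable def cut_pp_012_b : Cut := Cut.of [[⟨0, 0, 0, 26843545⟩, ⟨1, 1, 0, 26843545⟩, ⟨2, 1, 0, 26843545⟩]]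

noncomputable def f_pp_012_b : ℕ → ℕ → ℕ → ℕ → Bool := onCell 536870912 536870912 1239849684 370763052 1040187392 5207648
    (rowB 3 eng mog cd0q0 cd1q2b pd1 2 false true true .pnp 0 1 2 (qsf 0 536870912 1239849684 370763052 1) ndB0q0 ndB1q2b pcB1 cut_pp_012_b Ext.none)

def k0_pp_012_b : ∃ t, chk3 f_pp_012_b t 1 1 1 = true :=
  ⟨(a (b (a (l 2) (a (l 3) (b (a (b (a (b (a (l 3) (b (a (b (l 152102185143) (l 3)) (b (b (l 16736608) (l 16728520)) (l 110763078023))) (l 148344024679))) (l 3)) (b (a (b (l 16726432) (a (l 16700256) (l 16728624))) (b (l 16734728) (l 16740616))) (a (b (l 16674032) (l 16667488)) (l 16649616)))) (a (l 3) (b (a (l 3) (l 16632136)) (l 2)))) (b (a (b (b (l 16709400) (l 16726624)) (l 16670800)) (b (l 16687856) (l 16733584))) (a (b (l 16627848) (l 16588616)) (b (l 16671880) (l 16610256))))) (a (l 2) (b (a (l 2) (l 16457416)) (l 2)))))) (l 2)) (a (b (a (b (a (b (a (b (l 16682840) (l 16714584)) (l 16634944)) (b (l 16668384) (l 16609760))) (b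 (a (l 16659336) (l 16646496)) (a (l 16658440) (l 16646232)))) (a (b (a (l 16537584) (l 16547224)) (l 2)) (b (l 16480520) (l 16436472)))) (b (a (b (l 16615056) (l 16611896)) (b (l 16638880) (l 16537440))) (a (b (l 16484680) (l 16404096)) (b (l 16432720) (l 16334104))))) (a (l 2) (b (a (b (l 16306544) (l 2)) (b (l 16240912) (l 16152464))) (l 2)))) (a (b (b (a (b (a (l 16574408) (l 16480184)) (l 16433672)) (b (l 16406768) (l 16343632))) (a (b (l 16328320) (l 16230416)) (b (l 16219928) (l 16109928)))) (a (b (b (l 16139152) (l 16053880)) (l 2)) (b (b (l 16011064) (l 15920264)) (b (l 15843168) (l 2))))) (b (b (a (b (l 16399400) (l 16302664)) (b (b (l 16498568) (l 16423520)) (l 16314544))) (a (l 16044896) (l 16003264))) (a (b (l 15661696) (b (l 15711672) (l 15626208))) (b (l 15851880) (l 15612144))))))), by decide +kernel⟩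

theorem c_pp_012_b : CertB 0 536870912 1239849684 370763052 1040187392 5207648 3 eng mog cd0q0 cd1q2b pd1 false true true .pnp 0 1 2
    ndB0q0 ndB1q2b pcB1 cut_pp_012_b Ext.none :=
  certB2 (fam := false) (s1 := true) (s2 := true) (a := 0) (b := 1) (c := 2) (cn := .pnp) (n1 := ndB0q0) (n2 := ndB1q2b) (pc := pcB1) (cut := cut_pp_012_b) (xt := Ext.none) (P1 := 0) (W1 := 536870912) (P2 := 1239849684) (W2 := 370763052) (P3 := 1040187392) (W3 := 5207648) (N0 := 3) (En := eng) (mo := mog) (C1 := cd0q0) (C2 := cd1q2b) (C3 := pd1)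
    rfl (fun _ => rfl) k0_pp_012_b

noncomputable def cut_pp_022_a : Cut := Cut.of [[⟨0, 0, 0, 26843545⟩, ⟨1, 1, 0, 26843545⟩, ⟨2, 1, 0, 26843545⟩]]

noncomputable def f_pp_022_a : ℕ → ℕ → ℕ → ℕ → Bool := onCell 1073741824 536870912 0 536870912 1040187392 5207648
    (rowB 3 eng mog cd0q0 cd1q2a pd2 2 false true true .pp 0 2 2 (qsf 0 536870912 0 536870912 2) ndB0q0 ndB1q2a pcB2 cut_pp_022_a Ext.none)

def k0_pp_022_a : ∃ t, chk3 f_pp_022_a t 8 2 1 = true :=
  ⟨(b (b (a (l 16503424) (l 16269384)) (a (a (l 16570040) (l 16514160)) (a (l 16453064) (l 16385680)))) (a (b (a (b (l 16584232) (l 16597552)) (b (l 16518080) (l 16559264))) (a (b (a (l 16608816) (l 16606168)) (a (a (l 16619416) (l 16617544)) (l 16616096))) (b (l 16579504) (l 16601080)))) (b (a (l 16480056) (l 16443480)) (a (b (l 16537472) (l 16540928)) (b (l 16486784) (l 16520568)))))), by decide +kernel⟩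

def k1_pp_022_a : ∃ t, chk3 f_pp_022_a t 8 6 1 = true :=
  ⟨(a (b (a (b (a (a (l 16610736) (l 16608120)) (l 16627472)) (a (b (l 16621360) (l 16631448)) (l 16644368))) (b (a (l 16627384) (l 16611440)) (a (l 16643016) (l 16628472)))) (a (b (a (a (l 16650552) (l 16648008)) (l 16644536)) (a (b (l 16679312) (l 16681880)) (b (l 16673720) (l 16682088)))) (b (a (l 16635928) (l 16651384)) (b (a (l 16671336) (l 16655296)) (l 16662664))))) (b (a (b (l 16584576) (l 16592576)) (b (l 16559944) (l 16605704))) (a (b (l 16634304) (b (l 16620360) (l 16584616))) (b (l 16568104) (l 16510832))))), by decide +kernel⟩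

def k2_pp_022_a : ∃ t, chk3 f_pp_022_a t 8 7 1 = true :=
  ⟨(a (b (b (a (a (b (l 16687784) (l 16697872)) (l 16655280)) (a (l 16626328) (l 16591936))) (a (b (a (l 16693632) (l 16691256)) (a (l 16701448) (l 16661080))) (b (a (l 16653176) (l 16614576)) (a (l 16641136) (l 16600584))))) (b (a (b (a (b (l 16696496) (b (l 16693336) (a (l 16702744) (l 16701328)))) (b (l 16674504) (a (l 16659432) (l 16658512)))) (b (a (a (l 16704816) (l 16682496)) (a (l 16681264) (l 16659448))) (l 6))) (b (a (b (l 16632040) (b (l 16627944) (l 16604408))) (b (l 16591336) (b (l 16587128) (a (l 16594552) (b (l 16575200) (l 16573904)))))) (a (b (a (b (l 16636176) (l 16640208)) (b (b (l 16614160) (l 16616232)) (l 16619408))) (l 6)) (b (a (b (b (b (l 16582720) (l 16593944)) (l 16595592)) (a (l 16604056) (l 16593952))) (b (b (b (a (l 16567568) (l 16568112)) (a (l 16578656) (l 1))) (l 16578968)) (l 1))) (a (b (l 16603728) (l 1)) (l 1)))))) (a (l 6) (a (l 6) (l 1))))) (b (b (a (a (l 16578736)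 (l 16564776)) (l 16493464)) (a (b (l 16557760) (a (l 16561928) (l 16525120))) (b (l 16488736) (l 16473392)))) (b (b (a (a (b (l 16552416) (a (l 301217704087) (l 1))) (l 1)) (l 1)) (l 1)) (l 1)))), by decide +kernel⟩

def k3_pp_022_a : ∃ t, chk3 f_pp_022_a t 9 1 1 = true :=
  ⟨(b (b (a (b (a (l 16247336) (l 16159608)) (a (l 16308528) (l 16240472))) (a (l 16072848) (l 16002336))) (a (b (a (l 16382920) (l 16336960)) (a (b (l 16444936) (l 16492008)) (l 16387384))) (b (a (l 16302400) (l 16274632)) (b (l 16371112) (a (l 16471480) (l 16458344)))))) (b (b (a (a (b (l 16547960) (l 16581208)) (b (l 16548176) (l 16540648))) (b (l 16541488) (l 16471656))) (a (b (a (l 16517936) (l 16492552)) (a (l 16495344) (l 16446440))) (b (l 16440072) (l 1)))) (b (a (b (a (l 16454792) (l 1)) (l 1)) (l 1)) (l 1)))), by decide +kernel⟩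

def k4_pp_022_a : ∃ t, chk3 f_pp_022_a t 5 1 1 = true :=
  ⟨(b (a (a (b (a (l 15976328) (l 15988720)) (b (l 16227280) (b (l 16343832) (l 16424016)))) (b (b (l 1) (l 1)) (l 1))) (l 1)) (b (l 1) (l 1))), by decide +kernel⟩

def k5_pp_022_a : ∃ t, chk3 f_pp_022_a t 3 1 1 = true :=
  ⟨(l 1), by decide +kernel⟩

theorem s6_pp_022_a : ∃ t, chk3 f_pp_022_a t 8 3 1 = true := ex3_b k1_pp_022_a k2_pp_022_a

theorem s7_pp_022_a : ∃ t, chk3 f_pp_022_a t 8 1 1 = true := ex3_b k0_pp_022_a s6_pp_022_a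

theorem s8_pp_022_a : ∃ t, chk3 f_pp_022_a t 4 1 1 = true := ex3_a s7_pp_022_a k3_pp_022_a

theorem s9_pp_022_a : ∃ t, chk3 f_pp_022_a t 2 1 1 = true := ex3_a s8_pp_022_a k4_pp_022_a

theorem s10_pp_022_a : ∃ t, chk3 f_pp_022_a t 1 1 1 = true := ex3_a s9_pp_022_a k5_pp_022_a

theorem c_pp_022_a : CertB 0 536870912 0 536870912 1040187392 5207648 3 eng mog cd0q0 cd1q2a pd2 false true true .pp 0 2 2
    ndB0q0 ndB1q2a pcB2 cut_pp_022_a Ext.none :=
  certB2 (fam := false) (s1 := true) (s2 := true) (a := 0) (b := 2) (c := 2) (cn := .pp) (n1 := ndB0q0) (n2 := ndB1q2a) (pc := pcB2) (cut := cut_pp_022_a) (xt := Ext.none) (P1 := 0) (W1 := 536870912) (P2 := 0) (W2 := 536870912) (P3 := 1040187392) (W3 := 5207648) (N0 := 3) (En := eng) (mo := mog) (C1 := cd0q0) (C2 := cd1q2a) (C3 := pd2)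
    rfl (fun _ => rfl) s10_pp_022_a

noncomputable def cut_pp_022_b : Cut := Cut.of [[⟨0, 0, 0, 26843545⟩, ⟨1, 1, 0, 26843545⟩, ⟨2, 1, 0, 26843545⟩]]

noncomputable def f_pp_022_b : ℕ → ℕ → ℕ → ℕ → Bool := onCell 0 536870912 1073741824 536870912 1040187392 5207648
    (rowB 3 eng mog cd0q0 cd1q2b pd2 1 false true true .pp 0 2 2 (qsf 0 536870912 1239849684 370763052 2) ndB0q0 ndB1q2b pcB2 cut_pp_022_b Ext.none)

def k0_pp_022_b : ∃ t, chk3 f_pp_022_b t 1 1 1 = true :=
  ⟨(b (a (a (a (b (b (l 1) (a (b (l 1) (l 250213668247)) (b (l 252898262391) (l 15936392)))) (b (a (b (l 15878848) (l 15621408)) (b (l 15742928) (l 15492296))) (a (l 15244984) (l 15125592)))) (b (a (b (a (l 1) (b (l 1) (l 16371760))) (a (l 15801832) (l 15892240))) (b (b (l 247530298119) (l 16204008)) (b (l 16088128) (l 15832088)))) (a (b (b (l 15651792) (l 15404608)) (l 15042608)) (b (l 15458208) (l 14977296))))) (b (b (b (a (a (l 16451864) (l 16369488)) (b (l 16246576) (l 16205024))) (a (l 16054800)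 (l 16020104))) (a (b (l 15947552) (l 15699552)) (l 15534144))) (b (a (l 15336600) (l 15196368)) (a (l 14868648) (l 14747784))))) (b (a (b (a (b (l 15988808) (l 15861584)) (b (l 15939248) (l 15724408))) (a (l 15522536) (l 15409152))) (b (a (b (l 15802416) (l 15607256)) (b (l 15681656) (l 15509328))) (a (l 15319248) (l 15253064)))) (a (b (a (l 15083848) (l 14998608)) (a (l 14656768) (l 14595752))) (b (a (l 14941000) (l 2)) (l 2))))) (a (a (b (a (b (a (l 14762472) (l 14655376)) (a (l 14303712) (l 14208352))) (a (b (l 14577928) (l 14135816)) (b (l 14515280) (l 14075104)))) (a (b (a (l 13875144) (l 13791232)) (a (l 13487592) (l 13415096))) (a (b (l 13723224) (l 13351504)) (b (l 13663960) (l 2))))) (b (b (a (l 14417904) (l 14313816)) (a (l 13987640) (l 13898112))) (b (a (l 13585400) (l 2)) (l 2)))) (b (a (b (l 14218352) (l 2)) (l 2)) (l 2)))), by decide +kernel⟩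

theorem c_pp_022_b : CertB 0 536870912 1239849684 370763052 1040187392 5207648 3 eng mog cd0q0 cd1q2b pd2 false true true .pp 0 2 2
    ndB0q0 ndB1q2b pcB2 cut_pp_022_b Ext.none :=
  certB1 (fam := false) (s1 := true) (s2 := true) (a := 0) (b := 2) (c := 2) (cn := .pp) (n1 := ndB0q0) (n2 := ndB1q2b) (pc := pcB2) (cut := cut_pp_022_b) (xt := Ext.none) (P1 := 0) (W1 := 536870912) (P2 := 1239849684) (W2 := 370763052) (P3 := 1040187392) (W3 := 5207648) (N0 := 3) (En := eng) (mo := mog) (C1 := cd0q0) (C2 := cd1q2b) (C3 := pd2)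
    rfl (fun _ => rfl) k0_pp_022_b

noncomputable def f_pp_023 : ℕ → ℕ → ℕ → ℕ → Bool := onCell 0 536870912 1073741824 536870912 1040187392 5207648
    (rowB 3 eng mog cd0q0 cd1q3 pd2 1 false true true .up 0 2 3 (qsf 0 536870912 1610612736 536870912 2) ndB0q0 ndB1q3 pcB2 Cut.none Ext.none)

def k0_pp_023 : ∃ t, chk3 f_pp_023 t 1 1 1 = true :=
  ⟨(b (a (a (l 1) (b (l 1) (b (l 1) (l 326445934567)))) (b (a (b (l 1) (a (l 1) (l 15064752))) (b (a (l 328058349303) (b (l 15347048) (l 15183264))) (a (l 14985200) (l 14948904)))) (a (b (a (l 14736984) (l 14661704)) (a (l 14317280) (l 14285680))) (b (a (l 14633720) (l 14651168)) (a (l 14301688) (l 14363640)))))) (a (a (a (b (l 1) (b (a (l 1) (l 13436424)) (a (l 13135768) (l 13072536)))) (b (a (l 1) (b (l 1) (l 13722000))) (b (a (l 13372752) (l 13323104)) (a (l 13023192) (l 12983920))))) (b (b (a (l 14066744) (l 13971952)) (a (l 13643640) (l 13583064))) (b (a (l 13268232) (l 13236952)) (a (l 12949472) (l 12942064))))) (b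 (a (b (a (l 13928528) (l 13933816)) (l 13585848)) (b (a (l 13985352) (l 14081320)) (l 13571296))) (a (b (l 13275648) (l 13004376)) (b (l 13457160) (a (l 13135384) (l 13251384))))))), by decide +kernel⟩

theorem c_pp_023 : CertB 0 536870912 1610612736 536870912 1040187392 5207648 3 eng mog cd0q0 cd1q3 pd2 false true true .up 0 2 3
    ndB0q0 ndB1q3 pcB2 Cut.none Ext.none :=
  certB1 (fam := false) (s1 := true) (s2 := true) (a := 0) (b := 2) (c := 3) (cn := .up) (n1 := ndB0q0) (n2 := ndB1q3) (pc := pcB2) (cut := Cut.none) (xt := Ext.none) (P1 := 0) (W1 := 536870912) (P2 := 1610612736) (W2 := 536870912) (P3 := 1040187392) (W3 := 5207648) (N0 := 3) (En := eng) (mo := mog) (C1 := cd0q0) (C2 := cd1q3) (C3 := pd2)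
    rfl (fun _ => rfl) k0_pp_023

noncomputable def f_pp_033 : ℕ → ℕ → ℕ → ℕ → Bool := onCell 0 536870912 1610612736 536870912 1040187392 5207648
    (rowB 3 eng mog cd0q0 cd1q3 pd3 1 false true true .pnn 0 3 3 (qsf 0 536870912 1610612736 536870912 3) ndB0q0 ndB1q3 pcB3 Cut.none Ext.none)

def k0_pp_033 : ∃ t, chk3 f_pp_033 t 1 1 1 = true :=
  ⟨(a (b (a (b (a (b (a (l 15278744) (l 15436936)) (l 15234560)) (b (a (l 15530672) (l 15593232)) (l 15530040))) (a (b (l 15097600) (b (l 15165504) (l 4))) (b (a (l 15396384) (l 15447880)) (l 4)))) (b (b (l 15794984) (l 15714944)) (b (l 15636168) (l 4)))) (a (l 4) (b (l 4) (a (b (l 4) (l 2)) (l 2))))) (b (a (b (b (l 16059920) (a (l 15912176) (l 16041088))) (b (a (l 15855208) (l 16027536)) (l 4))) (b (b (a (l 16256200) (l 16416208)) (a (l 16199032) (l 16368952))) (a (b (l 16220160) (l 2)) (l 2)))) (a (b (a (b (l 4) (l 2)) (l 2)) (l 2)) (l 2)))), by decide +kernel⟩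

theorem c_pp_033 : CertB 0 536870912 1610612736 536870912 1040187392 5207648 3 eng mog cd0q0 cd1q3 pd3 false true true .pnn 0 3 3
    ndB0q0 ndB1q3 pcB3 Cut.none Ext.none :=
  certB1 (fam := false) (s1 := true) (s2 := true) (a := 0) (b := 3) (c := 3) (cn := .pnn) (n1 := ndB0q0) (n2 := ndB1q3) (pc := pcB3) (cut := Cut.none) (xt := Ext.none) (P1 := 0) (W1 := 536870912) (P2 := 1610612736) (W2 := 536870912) (P3 := 1040187392) (W3 := 5207648) (N0 := 3) (En := eng) (mo := mog) (C1 := cd0q0) (C2 := cd1q3) (C3 := pd3)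
    rfl (fun _ => rfl) k0_pp_033

noncomputable def f_pp_101 : ℕ → ℕ → ℕ → ℕ → Bool := onCell 536870912 536870912 536870912 536870912 1040187392 5207648
    (rowB 3 eng mog cd0q1 cd1q1 pd0 0 false true true .npn 1 0 1 (qsf 536870912 536870912 536870912 536870912 0) ndB0q1 ndB1q1 pcB0 Cut.none Ext.none)

def k0_pp_101 : ∃ t, chk3 f_pp_101 t 1 1 1 = true :=
  ⟨(l 3), by decide +kernel⟩

theorem c_pp_101 : CertB 536870912 536870912 536870912 536870912 1040187392 5207648 3 eng mog cd0q1 cd1q1 pd0 false true true .npn 1 0 1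
    ndB0q1 ndB1q1 pcB0 Cut.none Ext.none :=
  certB0 (fam := false) (s1 := true) (s2 := true) (a := 1) (b := 0) (c := 1) (cn := .npn) (n1 := ndB0q1) (n2 := ndB1q1) (pc := pcB0) (cut := Cut.none) (xt := Ext.none) (P1 := 536870912) (W1 := 536870912) (P2 := 536870912) (W2 := 536870912) (P3 := 1040187392) (W3 := 5207648) (N0 := 3) (En := eng) (mo := mog) (C1 := cd0q1) (C2 := cd1q1) (C3 := pd0)
    rfl k0_pp_101

noncomputable def f_pp_102_a : ℕ → ℕ → ℕ → ℕ → Bool := onCell 0 536870912 0 536870912 1040187392 5207648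
    (rowB 3 eng mog cd0q1 cd1q2a pd0 2 false true true .npp 1 0 2 (qsf 536870912 536870912 0 536870912 0) ndB0q1 ndB1q2a pcB0 Cut.none Ext.none)

def k0_pp_102_a : ∃ t, chk3 f_pp_102_a t 1 1 1 = true :=
  ⟨(a (l 3) (l 3)), by decide +kernel⟩

theorem c_pp_102_a : CertB 536870912 536870912 0 536870912 1040187392 5207648 3 eng mog cd0q1 cd1q2a pd0 false true true .npp 1 0 2
    ndB0q1 ndB1q2a pcB0 Cut.none Ext.none :=
  certB2 (fam := false) (s1 := true) (s2 := true) (a := 1) (b := 0) (c := 2) (cn := .npp) (n1 := ndB0q1) (n2 := ndB1q2a) (pc := pcB0) (cut := Cut.none) (xt := Ext.none) (P1 := 536870912) (W1 := 536870912) (P2 := 0) (W2 := 536870912) (P3 := 1040187392) (W3 := 5207648) (N0 := 3) (En := eng) (mo := mog) (C1 := cd0q1) (C2 := cd1q2a) (C3 := pd0)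
    rfl (fun _ => rfl) k0_pp_102_a

noncomputable def f_pp_102_b : ℕ → ℕ → ℕ → ℕ → Bool := onCell 536870912 536870912 0 536870912 1040187392 5207648
    (rowB 3 eng mog cd0q1 cd1q2b pd0 1 false true true .npp 1 0 2 (qsf 536870912 536870912 1239849684 370763052 0) ndB0q1 ndB1q2b pcB0 Cut.none Ext.none)

def k0_pp_102_b : ∃ t, chk3 f_pp_102_b t 1 1 1 = true :=
  ⟨(l 3), by decide +kernel⟩

theorem c_pp_102_b : CertB 536870912 536870912 1239849684 370763052 1040187392 5207648 3 eng mog cd0q1 cd1q2b pd0 false true true .npp 1 0 2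
    ndB0q1 ndB1q2b pcB0 Cut.none Ext.none :=
  certB1 (fam := false) (s1 := true) (s2 := true) (a := 1) (b := 0) (c := 2) (cn := .npp) (n1 := ndB0q1) (n2 := ndB1q2b) (pc := pcB0) (cut := Cut.none) (xt := Ext.none) (P1 := 536870912) (W1 := 536870912) (P2 := 1239849684) (W2 := 370763052) (P3 := 1040187392) (W3 := 5207648) (N0 := 3) (En := eng) (mo := mog) (C1 := cd0q1) (C2 := cd1q2b) (C3 := pd0)
    rfl (fun _ => rfl) k0_pp_102_b

noncomputable def f_pp_112_a : ℕ → ℕ → ℕ → ℕ → Bool := onCell 536870912 536870912 0 536870912 1040187392 5207648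
    (rowB 3 eng mog cd0q1 cd1q2a pd1 0 false true true .dn 1 1 2 (qsf 536870912 536870912 0 536870912 1) ndB0q1 ndB1q2a pcB1 Cut.none Ext.none)

def k0_pp_112_a : ∃ t, chk3 f_pp_112_a t 1 1 1 = true :=
  ⟨(a (b (l 3) (l 3)) (l 1)), by decide +kernel⟩

theorem c_pp_112_a : CertB 536870912 536870912 0 536870912 1040187392 5207648 3 eng mog cd0q1 cd1q2a pd1 false true true .dn 1 1 2
    ndB0q1 ndB1q2a pcB1 Cut.none Ext.none :=
  certB0 (fam := false) (s1 := true) (s2 := true) (a := 1) (b := 1) (c := 2) (cn := .dn) (n1 := ndB0q1) (n2 := ndB1q2a) (pc := pcB1) (cut := Cut.none) (xt := Ext.none) (P1 := 536870912) (W1 := 536870912) (P2 := 0) (W2 := 536870912) (P3 := 1040187392) (W3 := 5207648) (N0 := 3) (En := eng) (mo := mog) (C1 := cd0q1) (C2 := cd1q2a) (C3 := pd1)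
    rfl k0_pp_112_a

noncomputable def f_pp_112_b : ℕ → ℕ → ℕ → ℕ → Bool := onCell 536870912 536870912 536870912 536870912 1040187392 5207648
    (rowB 3 eng mog cd0q1 cd1q2b pd1 1 false true true .dn 1 1 2 (qsf 536870912 536870912 1239849684 370763052 1) ndB0q1 ndB1q2b pcB1 Cut.none Ext.none)

def k0_pp_112_b : ∃ t, chk3 f_pp_112_b t 1 1 1 = true :=
  ⟨(b (a (b (l 3) (a (b (l 3) (a (b (l 3) (a (b (l 16557032) (l 16532128)) (l 192366760135))) (l 3))) (l 3))) (l 3)) (a (b (a (b (a (b (a (l 16494080) (l 16411440)) (l 16319352)) (b (a (l 16333720) (l 16262912)) (l 16233200))) (a (b (l 16283544) (l 16155368)) (b (l 16149056) (l 16034408)))) (b (a (b (l 3) (l 16097176)) (l 3)) (a (b (l 16019944) (l 15921024)) (b (l 15902792) (l 2))))) (b (a (b (a (l 15998104) (l 15889136)) (a (l 15812248) (l 15712720))) (b (a (l 15790184) (l 2)) (l 2))) (a (b (a (l 15613688) (l 15518504)) (a (l 15460128) (l 2))) (l 2)))) (b (b (l 3) (l 2)) (l 2)))), by decide +kernel⟩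

theorem c_pp_112_b : CertB 536870912 536870912 1239849684 370763052 1040187392 5207648 3 eng mog cd0q1 cd1q2b pd1 false true true .dn 1 1 2
    ndB0q1 ndB1q2b pcB1 Cut.none Ext.none :=
  certB1 (fam := false) (s1 := true) (s2 := true) (a := 1) (b := 1) (c := 2) (cn := .dn) (n1 := ndB0q1) (n2 := ndB1q2b) (pc := pcB1) (cut := Cut.none) (xt := Ext.none) (P1 := 536870912) (W1 := 536870912) (P2 := 1239849684) (W2 := 370763052) (P3 := 1040187392) (W3 := 5207648) (N0 := 3) (En := eng) (mo := mog) (C1 := cd0q1) (C2 := cd1q2b) (C3 := pd1)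
    rfl (fun _ => rfl) k0_pp_112_b

noncomputable def cut_pp_113 : Cut := Cut.of [[⟨0, 1, 0, 15728640⟩, ⟨1, 1, 0, 15728640⟩, ⟨2, 2, 0, 524288⟩]]

noncomputable def xt_pp_113 : Ext := extD3 3 ⟨4, 1, 1, 5, 33, 5, 163, 200, 81, 200, 1, 64⟩ eng cd0q1 cd1q3 pd1 false true true .nn 1 1 3 rfl ndB0q1 ndB1q3 pcB1

noncomputable def f_pp_113 : ℕ → ℕ → ℕ → ℕ → Bool := onCell 536870912 536870912 536870912 536870912 1040187392 5207648
    (rowB 3 eng mog cd0q1 cd1q3 pd1 1 false true true .nn 1 1 3 (qsf 536870912 536870912 1610612736 536870912 1) ndB0q1 ndB1q3 pcB1 cut_pp_113 xt_pp_113)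

def k0_pp_113 : ∃ t, chk3 f_pp_113 t 1 2 1 = true :=
  ⟨(a (a (l 1) (l 3)) (l 3)), by decide +kernel⟩

def k1_pp_113 : ∃ t, chk3 f_pp_113 t 2 3 1 = true :=
  ⟨(b (a (b (l 1) (a (l 1) (b (l 1) (l 15872608)))) (b (a (b (l 1) (l 16007688)) (l 3)) (a (b (l 15908648) (l 15787664)) (b (l 15826760) (l 15719360))))) (b (a (b (a (l 1) (l 15701224)) (a (l 15574024) (l 15498528))) (b (a (l 15634952) (l 15587648)) (a (l 15448832) (b (l 15468600) (l 15379072))))) (a (b (a (l 15344032) (l 15278544)) (a (l 15159800) (l 15060048))) (b (a (l 15248000) (b (l 15286016) (l 15191184))) (a (l 15019456) (l 15025720)))))), by decide +kernel⟩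

def k2_pp_113 : ∃ t, chk3 f_pp_113 t 3 6 1 = true :=
  ⟨(a (b (l 3) (a (b (l 3) (l 15667464)) (l 3))) (l 3)), by decide +kernel⟩

def k3_pp_113 : ∃ t, chk3 f_pp_113 t 6 7 1 = true :=
  ⟨(b (b (a (l 15555016) (a (l 15539128) (l 3))) (a (b (l 15454392) (l 15376792)) (b (l 15456464) (a (l 15388560) (l 15404224))))) (b (a (b (l 15296320) (l 15215640)) (b (a (l 15320664) (l 15347776)) (a (l 15254208) (l 15294496)))) (a (b (l 15119696) (l 15010584)) (b (l 15383392) (l 15099184))))), by decide +kernel⟩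

def k4_pp_113 : ∃ t, chk3 f_pp_113 t 7 14 1 = true :=
  ⟨(a (b (l 3) (a (b (l 3) (l 15428016)) (l 3))) (l 3)), by decide +kernel⟩

def k5_pp_113 : ∃ t, chk3 f_pp_113 t 14 15 1 = true :=
  ⟨(b (a (b (l 15387928) (l 15353776)) (b (a (l 15430376) (l 3)) (a (l 15418488) (b (l 15471688) (l 15478016))))) (a (b (l 15302688) (l 15233216)) (b (a (l 15393432) (b (l 15479952) (l 15477688))) (a (l 15354232) (l 15477312))))), by decide +kernel⟩

def k6_pp_113 : ∃ t, chk3 f_pp_113 t 15 30 1 = true :=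
  ⟨(a (a (b (l 3) (b (l 3) (l 181091110151))) (l 3)) (l 3)), by decide +kernel⟩

def k7_pp_113 : ∃ t, chk3 f_pp_113 t 30 31 1 = true :=
  ⟨(a (b (b (l 15590912) (l 15615440)) (a (l 15610744) (l 15730472))) (b (a (b (l 185923165703) (l 15765536)) (b (l 3) (l 3571166871278422861008928783))) (b (a (l 15839552) (l 16019744)) (a (l 15941552) (l 16189632))))), by decide +kernel⟩

def k8_pp_113 : ∃ t, chk3 f_pp_113 t 31 62 1 = true :=
  ⟨(a (a (b (l 3) (a (b (l 3) (l 216525545559)) (l 6443574618682993161424338959))) (l 3)) (l 3)), by decide +kernel⟩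

def k9_pp_113 : ∃ t, chk3 f_pp_113 t 62 63 1 = true :=
  ⟨(b (a (b (a (l 16148656) (l 1569185714000254336502136847)) (l 139451849115058191)) (a (c (b (b (l 6637002749825227750531645647) (a (l 105930960183) (b (l 305646944759) (l 2429940897569246497362493647)))) (l 143631231023186127)) (b (b (l 355575444631) (a (l 16374576) (b (l 278803112551) (l 2826468566401261363543408847)))) (l 141858749242179663))) (a (b (l 3) (b (c (b (a (l 2604026215593777012907917519) (b (l 3) (a (l 118816226663) (l 164987146247)))) (l 150491598263)) (a (l 2313884018885902965982232783) (b (a (l 1994727602507964670038704335) (l 212768500823)) (l 142438444407)))) (l 16738512))) (b (l 3) (b (b (l 3) (b (a (a (c (l 3329381707362548539276378319) (l 2120455887747978531911172303)) (l 3)) (l 3)) (c (a (l 142975422071) (l 167671490535)) (a (l 2575011995923113392726835407) (a (b (l 3) (a (l 110763175847) (l 76403439607))) (l 3)))))) (b (c (a (l 16769632) (c (l 146733512887) (l 146196641831)))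 (a (l 16769448) (a (l 2826468566402999623062487247) (c (l 139217323975) (l 2391255271341750506200285391))))) (l 16743448))))))) (a (l 16565264) (b (l 143659749611929679) (l 16685520)))), by decide +kernel⟩

def k10_pp_113 : ∃ t, chk3 f_pp_113 t 63 126 1 = true :=
  ⟨(b (l 3) (a (a (b (l 3) (a (b (a (a (c (b (l 167134608391) (l 139217328887)) (c (b (l 167671479111) (l 139754199591)) (b (l 167671494727) (l 139754199447)))) (b (l 3) (c (b (l 176798300663) (l 123111205895)) (b (c (l 176798300647) (l 168208348887)) (c (l 122574334791) (l 121500592679)))))) (l 3)) (c (a (l 16765840) (b (a (l 132238008583) (b (l 3) (l 103783854663))) (l 159081546919))) (c (a (l 16760480) (b (a (l 127943041111) (b (l 3) (l 102710112679))) (l 159618417639))) (a (l 143974003876462799) (b (a (l 127943040983) (b (l 3) (l 102173241655))) (l 2874825599187687456952369231)))))) (b (l 3) (a (b (l 3) (c (a (l 118816237447) (l 164987125175)) (c (a (l 118279366375) (l 165523995943)) (a (b (l 91972695175)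 (l 140827944599)) (b (l 3) (l 3261681861464367143604682831)))))) (l 3))))) (l 3)) (l 3))), by decide +kernel⟩

def k11_pp_113 : ∃ t, chk3 f_pp_113 t 126 127 1 = true :=
  ⟨(a (b (b (a (l 144045953145978959) (a (b (b (c (l 151028484983) (c (l 151565355719) (l 2749097313947781553386487887))) (l 16765704)) (l 16765624)) (b (b (a (c (b (l 178945785047) (l 124184948359)) (a (c (l 113984400727) (l 113447529719)) (b (l 3) (l 104320726679)))) (l 3)) (c (a (l 16774368) (l 134385492983)) (c (l 144586035655) (a (l 16768984) (l 132774880007))))) (c (l 16770160) (l 16759552))))) (l 144144634279166031)) (l 16712272)) (b (a (a (b (b (b (l 3) (a (b (l 3) (c (l 106468210119) (c (l 105394468167) (l 104320726183)))) (l 3))) (c (b (a (l 160692164999) (b (a (l 70497864679) (l 3)) (l 144586042183))) (l 16767696)) (b (b (a (l 2797454346732394002014470223) (a (l 106468210775) (l 3))) (c (l 2836139972960067839317868623) (l 2807125753289329795825401935))) (l 144037225799057487)))) (l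 16743600)) (b (b (l 3) (b (a (b (l 3) (a (c (l 56002351239) (l 93583310183)) (l 3))) (l 3)) (c (a (l 147807265527) (b (l 166597759607) (l 129553659319))) (a (c (l 148344136327) (l 148881007159)) (b (l 3222996235236741409933869135) (l 127943046439)))))) (b (b (c (l 16769048) (c (l 16768984) (l 144048152212029519))) (l 16770920)) (l 16765944)))) (a (b (b (l 3) (l 3)) (b (c (b (a (l 139754204439) (b (l 3) (l 110763180023))) (l 168208356119)) (a (c (l 2797454346732411937792507983) (l 2758768720504755692671320143)) (b (b (l 3) (a (l 123111210919) (l 187535722599))) (l 2990882477870772465679024207)))) (l 16760040))) (b (l 3) (b (b (l 3) (a (c (b (l 200957494375) (l 149417883527)) (b (a (l 110763181111) (l 3)) (l 149954754167))) (b (l 3) (a (c (l 99488893239) (l 97341409415)) (l 3))))) (c (c (l 2990882477870742572697387087) (l 3000553884427667714993225807)) (b (a (l 16775528) (l 2768440127061669633699807311)) (l 16773296))))))) (b (l 143997093573558351) (l 16745328)))),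 by decide +kernel⟩

def k12_pp_113 : ∃ t, chk3 f_pp_113 t 127 254 1 = true :=
  ⟨(a (b (l 3) (a (b (l 3) (b (a (a (c (b (l 170892724071) (l 133848629175)) (b (a (l 190220078231) (l 3)) (a (l 154249723831) (l 112910665767)))) (l 3)) (l 3)) (a (c (a (l 16776640) (b (l 124721824631) (l 16777960))) (c (c (l 2787782940175491193547866191) (l 2787782940175494698241163343)) (c (l 2778111533618581100817334351) (l 2768440127061668190588256335)))) (a (b (l 3) (c (l 3764595002424091431912833103) (a (l 128479921943) (l 170355852711)))) (l 3))))) (l 3))) (l 3)), by decide +kernel⟩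

def k13_pp_113 : ∃ t, chk3 f_pp_113 t 254 255 1 = true :=
  ⟨(a (b (b (b (a (l 16769112) (b (a (c (l 163376527863) (l 163913398711)) (a (c (l 117205633703) (l 115058150007)) (l 3))) (c (l 168745233431) (l 2981211071313832617417064527)))) (a (l 16771008) (a (l 16774192) (l 144114535233552463)))) (l 16757648)) (l 16758176)) (a (b (b (b (a (b (l 3) (a (c (l 204715593127) (l 205252463991)) (l 3))) (l 3)) (c (a (b (l 148344143911) (l 16777520)) (b (l 327659031191) (a (l 158007821159) (l 119353117495)))) (c (a (l 2894168412301571276661325903) (b (l 329269643911) (l 138143597319))) (a (l 2884497005744660496736026703) (b (l 330343385719) (a (l 159081562935) (l 117742504711))))))) (b (a (l 16774976) (b (c (l 16777864) (l 16775216)) (l 16776160))) (l 16772632))) (l 16764256)) (b (b (c (l 481204109047) (l 482277853495)) (b (a (b (a (c (l 148881016295) (l 147270403527)) (c (l 174650822183) (b (l 3) (l 117205634407)))) (c (l 177335171111) (l 178408912887))) (b (l 3) (a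 (c (l 135459244055) (b (l 210084302455) (l 158007822311))) (c (l 327659030007) (b (l 3) (l 202568109943)))))) (a (l 16775624) (b (c (l 173040204439) (l 171966462487)) (l 16776736))))) (l 143930710600564815)))), by decide +kernel⟩

def k14_pp_113 : ∃ t, chk3 f_pp_113 t 255 510 1 = true :=
  ⟨(a (b (l 3) (a (b (l 3) (a (b (a (c (l 182167014039) (b (l 174650822087) (l 140291082711))) (l 324974675879)) (a (c (l 16778200) (l 16778184)) (c (l 152102241351) (b (l 130090535607) (l 16778720))))) (a (b (l 3) (b (l 3) (c (l 219747978119) (l 3938680320448588481064452175)))) (l 3)))) (l 3))) (l 3)), by decide +kernel⟩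

def k15_pp_113 : ∃ t, chk3 f_pp_113 t 510 511 1 = true :=
  ⟨(b (a (b (a (l 16773504) (b (a (c (l 16777088) (l 176798301783)) (c (b (l 212231785511) (l 164987143575)) (b (l 212231785511) (l 163913401735)))) (l 144123606207627343))) (l 16768432)) (a (b (b (a (a (b (l 3) (c (l 210621173047) (l 210621173047))) (l 3)) (l 3)) (a (c (l 168208367527) (b (l 153712854567) (l 16778128))) (c (b (l 322290319479) (l 145122920119)) (b (l 323900934839) (a (l 163376531239) (l 222432332471)))))) (b (a (l 16776856) (c (l 16775152) (l 16776456))) (l 16775608))) (b (c (l 630454219815) (l 633138579607)) (a (b (a (c (l 171966464199) (l 170355851447)) (b (c (l 211694914327) (l 211694914327)) (l 178408916007))) (l 16776968)) (b (b (l 3) (c (a (l 140291082231) (l 322827189335)) (a (l 139217340407) (l 324437804695)))) (c (l 185388235175) (b (l 177335173319) (l 16777440)))))))) (a (l 16768584) (b (l 16770016) (l 16770528)))), by decide +kernel⟩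

def k16_pp_113 : ∃ t, chk3 f_pp_113 t 511 1022 1 = true :=
  ⟨(a (b (l 3) (a (b (l 3) (b (a (c (a (l 223506073655) (l 313163512983)) (a (c (l 223506073655) (l 224042944567)) (l 315310996631))) (l 3)) (a (c (l 168208368055) (a (l 16778104) (l 154786596103))) (b (l 3) (a (a (l 140291082407) (l 202031237751)) (l 3)))))) (l 3))) (l 3)), by decide +kernel⟩

def k17_pp_113 : ∃ t, chk3 f_pp_113 t 1022 1023 1 = true :=
  ⟨(b (a (b (a (l 16775728) (b (b (a (l 178408916231) (c (l 214916139111) (l 215453010023))) (c (l 180556398967) (l 179482657127))) (l 16776176))) (l 16770512)) (b (b (b (l 3) (a (a (a (l 213305526503) (l 3)) (l 3)) (l 3))) (a (a (c (l 171966464471) (l 170892722711)) (b (l 372756187239) (c (l 148344145175) (l 146733532439)))) (c (l 552607939319) (l 555292293879)))) (b (a (c (l 16776184) (l 16776504)) (b (a (a (l 156397208887) (l 223506073383)) (l 3)) (a (l 184314495415) (c (l 235854103799) (a (l 141901694327) (l 372756186903)))))) (a (l 16776624) (a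 (l 16777272) (c (l 188072591015) (l 186998849191))))))) (a (l 16773168) (b (l 16773792) (l 16774016)))), by decide +kernel⟩

def k18_pp_113 : ∃ t, chk3 f_pp_113 t 1023 1023 1 = true :=
  ⟨(b (a (a (b (l 3) (b (l 3) (a (b (b (a (l 373829928663) (l 3)) (a (l 147807274279) (l 375977412295))) (c (l 170892722567) (l 169818980743))) (a (b (l 3) (a (c (l 218674234743) (l 219211105655)) (l 374366799271))) (l 3))))) (l 3)) (l 3)) (a (a (b (b (a (l 16775936) (b (a (l 187535720839) (b (l 226727298295) (l 169818981191))) (l 16776792))) (l 16773968)) (l 16775280)) (b (a (a (b (b (a (c (l 371682444471) (l 372219315383)) (l 3)) (c (l 174113948087) (l 173040206263))) (l 16775792)) (b (b (l 3) (a (b (l 373293057287) (l 173040206679)) (b (l 3) (l 226190427175)))) (c (l 16776656) (l 144117490177343567)))) (a (b (c (l 666961444135) (l 670182669607)) (b (b (a (l 158007821127) (l 225116685335)) (l 185388237143)) (l 16777304))) (b (l 3) (b (b (l 3) (c (l 237464716007) (c (l 236390974183)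 (l 235854103271)))) (c (l 189683204023) (l 188609462199)))))) (c (l 144094469148655695) (l 144093094759120975)))) (b (b (l 3) (a (b (l 3) (a (b (b (b (l 3) (l 397452247847)) (a (c (l 236390974215) (l 234780361479)) (l 3))) (a (c (l 171966464279) (l 170892722455)) (b (l 3) (a (l 225653555927) (l 3))))) (l 3))) (l 3))) (b (a (b (a (a (l 16776616) (b (a (l 188609462583) (b (l 227801039559) (l 169818980919))) (l 16777040))) (a (b (c (l 373829927399) (l 374903669223)) (b (b (a (l 147270402663) (l 3)) (a (l 16777464) (l 374366798519))) (c (l 169818980615) (l 168745238791)))) (c (l 8232784831719738252917293151) (l 8252127644833572869468405855)))) (a (l 16775624) (a (a (l 16776528) (b (l 16777232) (l 16777176))) (a (a (a (b (l 180556398839) (l 6)) (l 6)) (l 6)) (l 6))))) (b (l 3) (l 6))) (a (a (l 16776272) (a (l 16776576) (l 6))) (l 6)))))), by decide +kernel⟩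

theorem s19_pp_113 : ∃ t, chk3 f_pp_113 t 511 1023 1 = true := ex3_a k17_pp_113 k18_pp_113

theorem s20_pp_113 : ∃ t, chk3 f_pp_113 t 511 511 1 = true := ex3_b k16_pp_113 s19_pp_113

theorem s21_pp_113 : ∃ t, chk3 f_pp_113 t 255 511 1 = true := ex3_a k15_pp_113 s20_pp_113

theorem s22_pp_113 : ∃ t, chk3 f_pp_113 t 255 255 1 = true := ex3_b k14_pp_113 s21_pp_113

theorem s23_pp_113 : ∃ t, chk3 f_pp_113 t 127 255 1 = true := ex3_a k13_pp_113 s22_pp_113

theorem s24_pp_113 : ∃ t, chk3 f_pp_113 t 127 127 1 = true := ex3_b k12_pp_113 s23_pp_113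

theorem s25_pp_113 : ∃ t, chk3 f_pp_113 t 63 127 1 = true := ex3_a k11_pp_113 s24_pp_113

theorem s26_pp_113 : ∃ t, chk3 f_pp_113 t 63 63 1 = true := ex3_b k10_pp_113 s25_pp_113

theorem s27_pp_113 : ∃ t, chk3 f_pp_113 t 31 63 1 = true := ex3_a k9_pp_113 s26_pp_113

theorem s28_pp_113 : ∃ t, chk3 f_pp_113 t 31 31 1 = true := ex3_b k8_pp_113 s27_pp_113

theorem s29_pp_113 : ∃ t, chk3 f_pp_113 t 15 31 1 = true := ex3_a k7_pp_113 s28_pp_113

theorem s30_pp_113 : ∃ t, chk3 f_pp_113 t 15 15 1 = true := ex3_b k6_pp_113 s29_pp_113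

theorem s31_pp_113 : ∃ t, chk3 f_pp_113 t 7 15 1 = true := ex3_a k5_pp_113 s30_pp_113

theorem s32_pp_113 : ∃ t, chk3 f_pp_113 t 7 7 1 = true := ex3_b k4_pp_113 s31_pp_113

theorem s33_pp_113 : ∃ t, chk3 f_pp_113 t 3 7 1 = true := ex3_a k3_pp_113 s32_pp_113

theorem s34_pp_113 : ∃ t, chk3 f_pp_113 t 3 3 1 = true := ex3_b k2_pp_113 s33_pp_113

theorem s35_pp_113 : ∃ t, chk3 f_pp_113 t 1 3 1 = true := ex3_a k1_pp_113 s34_pp_113

theorem s36_pp_113 : ∃ t, chk3 f_pp_113 t 1 1 1 = true := ex3_b k0_pp_113 s35_pp_113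

theorem c_pp_113 : CertB 536870912 536870912 1610612736 536870912 1040187392 5207648 3 eng mog cd0q1 cd1q3 pd1 false true true .nn 1 1 3
    ndB0q1 ndB1q3 pcB1 cut_pp_113 xt_pp_113 :=
  certB1 (fam := false) (s1 := true) (s2 := true) (a := 1) (b := 1) (c := 3) (cn := .nn) (n1 := ndB0q1) (n2 := ndB1q3) (pc := pcB1) (cut := cut_pp_113) (xt := xt_pp_113) (P1 := 536870912) (W1 := 536870912) (P2 := 1610612736) (W2 := 536870912) (P3 := 1040187392) (W3 := 5207648) (N0 := 3) (En := eng) (mo := mog) (C1 := cd0q1) (C2 := cd1q3) (C3 := pd1)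
    rfl (fun _ => rfl) s36_pp_113

noncomputable def cut_pp_123 : Cut := Cut.of [[⟨0, 1, 0, 15728640⟩, ⟨1, 1, 0, 15728640⟩, ⟨2, 2, 0, 524288⟩]]

noncomputable def xt_pp_123 : Ext := extD3 3 ⟨4, 1, 1, 5, 33, 5, 163, 200, 81, 200, 1, 64⟩ eng cd0q1 cd1q3 pd2 false true true .npn 1 2 3 rfl ndB0q1 ndB1q3 pcB2

noncomputable def f_pp_123 : ℕ → ℕ → ℕ → ℕ → Bool := onCell 536870912 536870912 1073741824 536870912 1040187392 5207648
    (rowB 3 eng mog cd0q1 cd1q3 pd2 1 false true true .npn 1 2 3 (qsf 536870912 536870912 1610612736 536870912 2) ndB0q1 ndB1q3 pcB2 cut_pp_123 xt_pp_123)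

def k0_pp_123 : ∃ t, chk3 f_pp_123 t 2 1 1 = true :=
  ⟨(b (a (b (b (a (b (l 15267464) (l 15139224)) (b (l 15198824) (l 15130848))) (a (l 14953976) (l 14999776))) (a (b (l 14713136) (l 14471264)) (b (l 14820920) (l 14627184)))) (b (b (a (a (l 15259296) (l 15332704)) (b (a (l 15206504) (l 15219600)) (l 15223288))) (a (l 15088848) (l 15230440))) (a (b (l 14980616) (l 14840160)) (b (l 15208872) (b (l 15160552) (l 15106296)))))) (a (b (b (a (l 14221448) (l 14408672)) (a (l 13958480) (b (l 14225984) (l 14090240)))) (a (b (l 13679592) (l 13390424)) (b (l 13858432) (l 13524792)))) (b (b (a (b (l 14707696) (l 14600576)) (b (l 15021424) (l 14856920))) (a (l 14151320) (l 14749904))) (a (b (l 14002856) (l 2)) (l 2))))), by decide +kernel⟩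

def k1_pp_123 : ∃ t, chk3 f_pp_123 t 3 1 1 = true :=
  ⟨(b (a (b (a (b (b (a (l 15241952) (l 15276376)) (l 15341440)) (b (l 15417728) (l 15482576))) (b (b (a (l 15328336) (l 15408760)) (a (l 15488392) (l 15637904))) (a (l 15708384) (b (l 15857928) (l 16061976))))) (a (b (a (l 15448928) (b (l 15636064) (l 15684936))) (b (l 15560136) (l 15410200))) (b (a (b (l 15892512) (l 15880312)) (b (l 16118784) (l 15977696))) (a (l 15627600) (l 2))))) (b (b (a (a (b (l 15541152) (l 15862216)) (b (a (l 15701088) (l 15865784)) (a (l 16114552) (b (l 16224648) (l 16465264))))) (b (a (a (l 16276560) (b (a (l 16239368) (l 16492552)) (b (l 16523680) (l 16635608)))) (a (a (b (l 143354703875162127) (l 143200291194617871)) (b (b (l 16752120) (l 16752792)) (l 16750416))) (b (b (a (l 143686550273179727) (b (a (l 143940056438014031) (b (a (l 16775592) (b (a (l 16776520) (b (a (l 16776904) (b (a (l 16777072) (l 6)) (l 16776848))) (l 16776488))) (l 16775776))) (l 16774376))) (l 274978538631)))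 (a (l 16762472) (l 16767080))) (b (l 385037008247) (l 2))))) (a (a (b (l 16499368) (l 16647112)) (l 16607432)) (a (b (l 281420921815) (l 2)) (l 2))))) (a (a (b (a (l 16084768) (l 16279968)) (l 16293528)) (b (a (l 16474480) (l 16554080)) (l 16393512))) (a (a (l 16425776) (l 2)) (l 2)))) (a (b (a (b (l 16202016) (l 2)) (l 2)) (l 2)) (l 2)))) (a (b (a (b (b (l 15227432) (l 2)) (l 2)) (l 2)) (l 2)) (l 2))), by decide +kernel⟩

theorem s2_pp_123 : ∃ t, chk3 f_pp_123 t 1 1 1 = true := ex3_a k0_pp_123 k1_pp_123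

theorem c_pp_123 : CertB 536870912 536870912 1610612736 536870912 1040187392 5207648 3 eng mog cd0q1 cd1q3 pd2 false true true .npn 1 2 3
    ndB0q1 ndB1q3 pcB2 cut_pp_123 xt_pp_123 :=
  certB1 (fam := false) (s1 := true) (s2 := true) (a := 1) (b := 2) (c := 3) (cn := .npn) (n1 := ndB0q1) (n2 := ndB1q3) (pc := pcB2) (cut := cut_pp_123) (xt := xt_pp_123) (P1 := 536870912) (W1 := 536870912) (P2 := 1610612736) (W2 := 536870912) (P3 := 1040187392) (W3 := 5207648) (N0 := 3) (En := eng) (mo := mog) (C1 := cd0q1) (C2 := cd1q3) (C3 := pd2)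
    rfl (fun _ => rfl) s2_pp_123

noncomputable def f_pp_133 : ℕ → ℕ → ℕ → ℕ → Bool := onCell 536870912 536870912 1610612736 536870912 1040187392 5207648
    (rowB 3 eng mog cd0q1 cd1q3 pd3 0 false true true .dn 1 3 3 (qsf 536870912 536870912 1610612736 536870912 3) ndB0q1 ndB1q3 pcB3 Cut.none Ext.none)

def k0_pp_133 : ∃ t, chk3 f_pp_133 t 1 1 1 = true :=
  ⟨(a (b (l 1) (b (l 1) (a (b (l 1) (a (l 16718456) (l 1))) (l 1)))) (l 1)), by decide +kernel⟩

theorem c_pp_133 : CertB 536870912 536870912 1610612736 536870912 1040187392 5207648 3 eng mog cd0q1 cd1q3 pd3 false true true .dn 1 3 3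
    ndB0q1 ndB1q3 pcB3 Cut.none Ext.none :=
  certB0 (fam := false) (s1 := true) (s2 := true) (a := 1) (b := 3) (c := 3) (cn := .dn) (n1 := ndB0q1) (n2 := ndB1q3) (pc := pcB3) (cut := Cut.none) (xt := Ext.none) (P1 := 536870912) (W1 := 536870912) (P2 := 1610612736) (W2 := 536870912) (P3 := 1040187392) (W3 := 5207648) (N0 := 3) (En := eng) (mo := mog) (C1 := cd0q1) (C2 := cd1q3) (C3 := pd3)
    rfl k0_pp_133

noncomputable def f_pp_202_a : ℕ → ℕ → ℕ → ℕ → Bool := onCell 0 536870912 0 536870912 1040187392 5207648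
    (rowB 3 eng mog cd0q2 cd1q2a pd0 0 false true true .pp 2 0 2 (qsf 0 536870912 0 536870912 0) ndB0q2 ndB1q2a pcB0 Cut.none Ext.none)

def k0_pp_202_a : ∃ t, chk3 f_pp_202_a t 1 1 1 = true :=
  ⟨(l 3), by decide +kernel⟩

theorem c_pp_202_a : CertB 0 536870912 0 536870912 1040187392 5207648 3 eng mog cd0q2 cd1q2a pd0 false true true .pp 2 0 2
    ndB0q2 ndB1q2a pcB0 Cut.none Ext.none :=
  certB0 (fam := false) (s1 := true) (s2 := true) (a := 2) (b := 0) (c := 2) (cn := .pp) (n1 := ndB0q2) (n2 := ndB1q2a) (pc := pcB0) (cut := Cut.none) (xt := Ext.none) (P1 := 0) (W1 := 536870912) (P2 := 0) (W2 := 536870912) (P3 := 1040187392) (W3 := 5207648) (N0 := 3) (En := eng) (mo := mog) (C1 := cd0q2) (C2 := cd1q2a) (C3 := pd0)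
    rfl k0_pp_202_a

noncomputable def f_pp_202_b : ℕ → ℕ → ℕ → ℕ → Bool := onCell 0 536870912 1239849684 370763052 1040187392 5207648
    (rowB 3 eng mog cd0q2 cd1q2b pd0 0 false true true .pp 2 0 2 (qsf 0 536870912 1239849684 370763052 0) ndB0q2 ndB1q2b pcB0 Cut.none Ext.none)

def k0_pp_202_b : ∃ t, chk3 f_pp_202_b t 1 1 1 = true :=
  ⟨(l 3), by decide +kernel⟩

theorem c_pp_202_b : CertB 0 536870912 1239849684 370763052 1040187392 5207648 3 eng mog cd0q2 cd1q2b pd0 false true true .pp 2 0 2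
    ndB0q2 ndB1q2b pcB0 Cut.none Ext.none :=
  certB0 (fam := false) (s1 := true) (s2 := true) (a := 2) (b := 0) (c := 2) (cn := .pp) (n1 := ndB0q2) (n2 := ndB1q2b) (pc := pcB0) (cut := Cut.none) (xt := Ext.none) (P1 := 0) (W1 := 536870912) (P2 := 1239849684) (W2 := 370763052) (P3 := 1040187392) (W3 := 5207648) (N0 := 3) (En := eng) (mo := mog) (C1 := cd0q2) (C2 := cd1q2b) (C3 := pd0)
    rfl k0_pp_202_b

noncomputable def f_pp_203 : ℕ → ℕ → ℕ → ℕ → Bool := onCell 0 536870912 0 536870912 1040187392 5207648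
    (rowB 3 eng mog cd0q2 cd1q3 pd0 1 false true true .up 2 0 3 (qsf 0 536870912 1610612736 536870912 0) ndB0q2 ndB1q3 pcB0 Cut.none Ext.none)

def k0_pp_203 : ∃ t, chk3 f_pp_203 t 1 1 1 = true :=
  ⟨(l 3), by decide +kernel⟩

theorem c_pp_203 : CertB 0 536870912 1610612736 536870912 1040187392 5207648 3 eng mog cd0q2 cd1q3 pd0 false true true .up 2 0 3
    ndB0q2 ndB1q3 pcB0 Cut.none Ext.none :=
  certB1 (fam := false) (s1 := true) (s2 := true) (a := 2) (b := 0) (c := 3) (cn := .up) (n1 := ndB0q2) (n2 := ndB1q3) (pc := pcB0) (cut := Cut.none) (xt := Ext.none) (P1 := 0) (W1 := 536870912) (P2 := 1610612736) (W2 := 536870912) (P3 := 1040187392) (W3 := 5207648) (N0 := 3) (En := eng) (mo := mog) (C1 := cd0q2) (C2 := cd1q3) (C3 := pd0)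
    rfl (fun _ => rfl) k0_pp_203

noncomputable def cut_pp_213 : Cut := Cut.of [[⟨0, 1, 0, 15728640⟩, ⟨1, 1, 0, 15728640⟩, ⟨2, 2, 0, 524288⟩]]

noncomputable def f_pp_213 : ℕ → ℕ → ℕ → ℕ → Bool := onCell 0 536870912 1610612736 536870912 1040187392 5207648
    (rowB 3 eng mog cd0q2 cd1q3 pd1 0 false true true .pnn 2 1 3 (qsf 0 536870912 1610612736 536870912 1) ndB0q2 ndB1q3 pcB1 cut_pp_213 Ext.none)

def k0_pp_213 : ∃ t, chk3 f_pp_213 t 1 1 1 = true :=
  ⟨(a (l 3) (b (l 3) (b (l 3) (a (l 3) (b (l 3) (a (l 3) (b (l 3) (a (l 3) (b (l 3) (a (l 3) (b (l 3) (a (l 3) (b (l 3) (b (l 3) (b (l 3) (b (l 3) (b (l 3) (l 6)))))))))))))))))), by decide +kernel⟩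

theorem c_pp_213 : CertB 0 536870912 1610612736 536870912 1040187392 5207648 3 eng mog cd0q2 cd1q3 pd1 false true true .pnn 2 1 3
    ndB0q2 ndB1q3 pcB1 cut_pp_213 Ext.none :=
  certB0 (fam := false) (s1 := true) (s2 := true) (a := 2) (b := 1) (c := 3) (cn := .pnn) (n1 := ndB0q2) (n2 := ndB1q3) (pc := pcB1) (cut := cut_pp_213) (xt := Ext.none) (P1 := 0) (W1 := 536870912) (P2 := 1610612736) (W2 := 536870912) (P3 := 1040187392) (W3 := 5207648) (N0 := 3) (En := eng) (mo := mog) (C1 := cd0q2) (C2 := cd1q3) (C3 := pd1)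
    rfl k0_pp_213

noncomputable def f_pm_001 : ℕ → ℕ → ℕ → ℕ → Bool := onCell 0 536870912 0 536870912 1040187392 5207648
    (rowB 3 eng mog cd0q0 cd1q1 pd0 1 false true false .up 0 0 1 (qsf 0 536870912 536870912 536870912 0) ndB0q0 ndB1q1 pcB0 Cut.none Ext.none)

def k0_pm_001 : ∃ t, chk3 f_pm_001 t 1 1 1 = true :=
  ⟨(a (l 4) (b (l 4) (b (l 4) (a (l 4) (b (l 4) (a (l 4) (a (l 4) (b (l 4) (b (l 16010920) (l 15932328)))))))))), by decide +kernel⟩

theorem c_pm_001 : CertB 0 536870912 536870912 536870912 1040187392 5207648 3 eng mog cd0q0 cd1q1 pd0 false true false .up 0 0 1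
    ndB0q0 ndB1q1 pcB0 Cut.none Ext.none :=
  certB1 (fam := false) (s1 := true) (s2 := false) (a := 0) (b := 0) (c := 1) (cn := .up) (n1 := ndB0q0) (n2 := ndB1q1) (pc := pcB0) (cut := Cut.none) (xt := Ext.none) (P1 := 0) (W1 := 536870912) (P2 := 536870912) (W2 := 536870912) (P3 := 1040187392) (W3 := 5207648) (N0 := 3) (En := eng) (mo := mog) (C1 := cd0q0) (C2 := cd1q1) (C3 := pd0)
    rfl (fun _ => rfl) k0_pm_001

noncomputable def f_pm_011 : ℕ → ℕ → ℕ → ℕ → Bool := onCell 0 536870912 536870912 536870912 1040187392 5207648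
    (rowB 3 eng mog cd0q0 cd1q1 pd1 0 false true false .pnn 0 1 1 (qsf 0 536870912 536870912 536870912 1) ndB0q0 ndB1q1 pcB1 Cut.none Ext.none)

def k0_pm_011 : ∃ t, chk3 f_pm_011 t 1 1 1 = true :=
  ⟨(a (l 4) (b (l 4) (b (l 4) (a (l 4) (b (l 4) (a (l 4) (b (l 4) (a (l 15922424) (l 15912832))))))))), by decide +kernel⟩

theorem c_pm_011 : CertB 0 536870912 536870912 536870912 1040187392 5207648 3 eng mog cd0q0 cd1q1 pd1 false true false .pnn 0 1 1
    ndB0q0 ndB1q1 pcB1 Cut.none Ext.none :=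
  certB0 (fam := false) (s1 := true) (s2 := false) (a := 0) (b := 1) (c := 1) (cn := .pnn) (n1 := ndB0q0) (n2 := ndB1q1) (pc := pcB1) (cut := Cut.none) (xt := Ext.none) (P1 := 0) (W1 := 536870912) (P2 := 536870912) (W2 := 536870912) (P3 := 1040187392) (W3 := 5207648) (N0 := 3) (En := eng) (mo := mog) (C1 := cd0q0) (C2 := cd1q1) (C3 := pd1)
    rfl k0_pm_011

noncomputable def cut_pm_012_a : Cut := Cut.of [[⟨0, 0, 0, 26843545⟩, ⟨1, 1, 0, 26843545⟩, ⟨2, 1, 0, 26843545⟩]]

noncomputable def xt_pm_012_a : Ext := extD3 3 ⟨4, 1, 1, 5, 33, 5, 163, 200, 81, 200, 1, 64⟩ eng cd0q0 cd1q2a pd1 false true false .pnp 0 1 2 rfl ndB0q0 ndB1q2a pcB1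

noncomputable def f_pm_012_a : ℕ → ℕ → ℕ → ℕ → Bool := onCell 0 536870912 0 536870912 1040187392 5207648
    (rowB 3 eng mog cd0q0 cd1q2a pd1 0 false true false .pnp 0 1 2 (qsf 0 536870912 0 536870912 1) ndB0q0 ndB1q2a pcB1 cut_pm_012_a xt_pm_012_a)

def k0_pm_012_a : ∃ t, chk3 f_pm_012_a t 4 2 1 = true :=
  ⟨(a (l 2) (b (l 2) (a (l 2) (b (l 2) (a (l 2) (l 16197896)))))), by decide +kernel⟩

def k1_pm_012_a : ∃ t, chk3 f_pm_012_a t 8 3 1 = true :=
  ⟨(b (l 2) (a (b (l 2) (b (a (l 2) (b (a (l 2) (a (l 2) (l 16654808))) (b (a (l 2) (a (l 16665280) (l 16671232))) (a (l 6) (a (l 16684280) (l 16669160)))))) (a (l 6) (a (l 6) (b (b (a (l 16683056) (l 16667840)) (a (l 16682608) (l 16667288))) (b (a (l 16682944) (l 16667536)) (a (b (l 16683712) (l 16687120)) (b (l 16668240) (l 16668976))))))))) (b (b (a (l 2) (a (l 2) (b (l 2) (l 16618072)))) (b (a (l 2) (a (l 16604880) (l 16608232))) (a (a (b (l 2) (l 16639416)) (b (l 16639184) (l 16633928))) (a (l 16613616) (l 16595640)))))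 (b (a (b (a (b (l 16635048) (l 16631376)) (l 16627384)) (a (b (l 16649392) (l 16647168)) (l 16600136))) (b (a (l 16604120) (l 16585800)) (a (l 16597496) (l 16578856)))) (a (b (a (b (l 16645704) (l 16645024)) (b (l 16618304) (l 16617448))) (b (a (a (l 16652480) (l 16637952)) (l 16617392)) (a (a (b (l 16653120) (l 16653816)) (l 142554671555018815)) (b (l 16617880) (a (l 16625184) (l 16611992)))))) (b (a (b (l 16594448) (l 16593432)) (b (l 16575584) (l 16574424))) (a (b (l 16593224) (b (l 16593600) (l 16596736))) (b (l 16574072) (b (l 16574344) (l 16574792)))))))))), by decide +kernel⟩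

def k2_pm_012_a : ∃ t, chk3 f_pm_012_a t 9 3 1 = true :=
  ⟨(b (a (b (l 2) (a (b (l 2) (a (l 2) (l 16519632))) (b (l 16439304) (l 16470768)))) (b (a (b (l 16292224) (l 16363624)) (l 16232112)) (b (a (l 16435344) (l 16441720)) (a (l 16507120) (l 16511664))))) (a (b (a (b (b (a (l 16580240) (l 16575480)) (l 16587912)) (a (l 16569464) (l 16563024))) (b (l 16544024) (a (l 16557224) (l 16571984)))) (a (b (a (b (l 16573952) (l 16566720)) (b (l 16567088) (l 16559592))) (b (a (b (l 16563240) (l 16540968)) (l 16555168)) (a (b (l 16540488) (a (l 16543264) (l 16538640))) (b (l 16532928) (b (l 16553984) (l 16533344)))))) (b (b (l 16557728) (a (l 16553168) (l 16546400))) (b (a (l 16548520) (l 16541544)) (a (b (l 16547088) (l 16526248)) (l 16518968)))))) (b (a (b (l 16578560) (l 16539056)) (b (l 16569176) (l 16535120))) (b (a (b (l 16541992) (l 16533752)) (l 16512152)) (a (b (l 16528632) (a (l 16531616) (l 16521320))) (b (l 16502656) (l 16500504))))))), by decide +kernel⟩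

def k3_pm_012_a : ∃ t, chk3 f_pm_012_a t 5 1 1 = true :=
  ⟨(b (a (b (a (b (a (l 2) (b (l 15919440) (l 15893568))) (l 15962384)) (b (a (l 15978208) (l 16046920)) (b (l 15993960) (l 16050080)))) (a (b (l 16094736) (l 16143584)) (b (l 16143264) (l 16267920)))) (b (b (a (l 16146256) (l 16257864)) (a (b (l 16095256) (l 16108984)) (l 16205728))) (b (a (l 16194376) (l 16246744)) (a (l 16309736) (l 16352440))))) (b (a (b (a (b (l 16327344) (l 16394400)) (l 16372384)) (a (b (l 16461480) (l 16528280)) (l 16455616))) (b (a (l 16425704) (l 16457992)) (a (l 16476248) (l 16417680)))) (a (b (a (b (l 16523280) (l 16467600)) (b (l 16463632) (l 16428600))) (a (b (l 16444008) (a (l 16469296) (l 16438152))) (b (l 16404672) (l 16392960)))) (b (a (l 16345152) (l 16330312)) (b (l 16277048) (a (l 16335280) (l 16280184))))))), by decide +kernel⟩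

def k4_pm_012_a : ∃ t, chk3 f_pm_012_a t 3 1 1 = true :=
  ⟨(b (a (a (b (a (l 16262688) (l 16395816)) (b (a (l 16305048) (l 16353632)) (l 16417368))) (a (b (l 16448632) (b (l 16441776) (l 16480392))) (b (l 16482224) (b (l 16490904) (l 16334080))))) (b (a (a (l 16477616) (b (l 16487048) (l 16514856))) (a (b (l 16469736) (l 16509960)) (b (l 16442544) (l 16494536)))) (a (b (a (l 16462568) (l 16436432)) (a (b (l 16368216) (l 16313112)) (b (l 16321808) (l 16221200)))) (b (a (l 16437400) (l 16443880)) (a (b (l 16297104) (l 16168752)) (l 16155936)))))) (a (b (a (b (l 16382984) (a (l 16359296) (l 16300952))) (b (a (l 16351008) (l 16286424)) (l 16192296))) (b (a (a (l 16274688) (l 16219984)) (l 16139208)) (a (a (l 16231328) (l 16179608)) (b (l 16108752) (l 16102624))))) (b (a (b (l 16124640) (l 16094840)) (b (b (a (l 16118272) (b (l 16084144) (l 16036528))) (l 16029432)) (l 15868480))) (a (b (l 16032072) (b (l 16008904) (l 16006952))) (b (l 15923784) (a (l 15933816)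 (l 15884808))))))), by decide +kernel⟩

theorem s5_pm_012_a : ∃ t, chk3 f_pm_012_a t 4 3 1 = true := ex3_a k1_pm_012_a k2_pm_012_a

theorem s6_pm_012_a : ∃ t, chk3 f_pm_012_a t 4 1 1 = true := ex3_b k0_pm_012_a s5_pm_012_a

theorem s7_pm_012_a : ∃ t, chk3 f_pm_012_a t 2 1 1 = true := ex3_a s6_pm_012_a k3_pm_012_a

theorem s8_pm_012_a : ∃ t, chk3 f_pm_012_a t 1 1 1 = true := ex3_a s7_pm_012_a k4_pm_012_a

theorem c_pm_012_a : CertB 0 536870912 0 536870912 1040187392 5207648 3 eng mog cd0q0 cd1q2a pd1 false true false .pnp 0 1 2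
    ndB0q0 ndB1q2a pcB1 cut_pm_012_a xt_pm_012_a :=
  certB0 (fam := false) (s1 := true) (s2 := false) (a := 0) (b := 1) (c := 2) (cn := .pnp) (n1 := ndB0q0) (n2 := ndB1q2a) (pc := pcB1) (cut := cut_pm_012_a) (xt := xt_pm_012_a) (P1 := 0) (W1 := 536870912) (P2 := 0) (W2 := 536870912) (P3 := 1040187392) (W3 := 5207648) (N0 := 3) (En := eng) (mo := mog) (C1 := cd0q0) (C2 := cd1q2a) (C3 := pd1)
    rfl s8_pm_012_a

noncomputable def cut_pm_012_b : Cut := Cut.of [[⟨0, 0, 0, 26843545⟩, ⟨1, 1, 0, 26843545⟩, ⟨2, 1, 0, 26843545⟩]]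

noncomputable def f_pm_012_b : ℕ → ℕ → ℕ → ℕ → Bool := onCell 0 536870912 536870912 536870912 1040187392 5207648
    (rowB 3 eng mog cd0q0 cd1q2b pd1 1 false true false .pnp 0 1 2 (qsf 0 536870912 1239849684 370763052 1) ndB0q0 ndB1q2b pcB1 cut_pm_012_b Ext.none)

def k0_pm_012_b : ∃ t, chk3 f_pm_012_b t 1 1 1 = true :=
  ⟨(b (a (l 1) (b (l 1) (a (l 1) (b (a (l 1) (b (a (l 1) (l 272225929991)) (a (l 267394230327) (l 16396704)))) (a (b (l 264709853127) (l 94521953751)) (b (a (l 16451616) (l 16500800)) (l 16537552))))))) (a (a (l 1) (b (l 1) (a (b (l 1) (b (l 429528880407) (l 439729010455))) (b (b (l 365641473207) (l 310880560359)) (b (l 16219784) (l 16169760)))))) (b (a (a (b (l 1) (l 291553515799)) (b (a (l 253435732439) (l 16427840)) (l 16447224))) (b (a (b (l 16505320) (l 16537184)) (l 16412216)) (a (l 16413192) (l 16214016)))) (a (b (a (l 179884292599) (l 16471376)) (a (b (l 16338760) (l 16297064)) (l 16414640))) (b (a (l 16265104) (l 16077008)) (a (l 16197504)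 (l 15981976))))))), by decide +kernel⟩

theorem c_pm_012_b : CertB 0 536870912 1239849684 370763052 1040187392 5207648 3 eng mog cd0q0 cd1q2b pd1 false true false .pnp 0 1 2
    ndB0q0 ndB1q2b pcB1 cut_pm_012_b Ext.none :=
  certB1 (fam := false) (s1 := true) (s2 := false) (a := 0) (b := 1) (c := 2) (cn := .pnp) (n1 := ndB0q0) (n2 := ndB1q2b) (pc := pcB1) (cut := cut_pm_012_b) (xt := Ext.none) (P1 := 0) (W1 := 536870912) (P2 := 1239849684) (W2 := 370763052) (P3 := 1040187392) (W3 := 5207648) (N0 := 3) (En := eng) (mo := mog) (C1 := cd0q0) (C2 := cd1q2b) (C3 := pd1)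
    rfl (fun _ => rfl) k0_pm_012_b

noncomputable def cut_pm_022_a : Cut := Cut.of [[⟨0, 0, 0, 26843545⟩, ⟨1, 1, 0, 26843545⟩, ⟨2, 1, 0, 26843545⟩]]

noncomputable def f_pm_022_a : ℕ → ℕ → ℕ → ℕ → Bool := onCell 0 536870912 0 536870912 1040187392 5207648
    (rowB 3 eng mog cd0q0 cd1q2a pd2 0 false true false .pp 0 2 2 (qsf 0 536870912 0 536870912 2) ndB0q0 ndB1q2a pcB2 cut_pm_022_a Ext.none)

def k0_pm_022_a : ∃ t, chk3 f_pm_022_a t 4 2 1 = true :=
  ⟨(a (b (a (b (b (a (l 15219744) (l 15336720)) (a (l 15286968) (l 15359824))) (a (l 15493936) (l 15544560))) (b (a (b (l 15463416) (l 15458424)) (l 15596256)) (a (l 15609448) (l 15698352)))) (a (b (a (l 15613120) (l 15724064)) (a (b (l 15995840) (l 16137296)) (b (l 16007592) (l 16138416)))) (b (a (l 15826752) (l 15909000)) (a (b (l 16027904) (l 16145568)) (b (l 16067608) (l 16169712)))))) (b (a (b (a (l 15753528) (l 15928824)) (a (l 15756736) (l 15954920))) (b (l 16149864) (a (l 16084104) (b (l 16303208) (l 16342544)))))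 (a (b (a (l 15980280) (l 16100144)) (a (b (l 16137312) (l 16224832)) (l 16105984))) (b (a (l 16215680) (l 16406992)) (b (l 16219936) (l 16273288)))))), by decide +kernel⟩

def k1_pm_022_a : ∃ t, chk3 f_pm_022_a t 4 3 1 = true :=
  ⟨(b (a (a (b (b (a (l 16274712) (l 16262208)) (a (l 16360736) (l 16376072))) (b (a (b (l 16490240) (l 16542416)) (l 16409928)) (a (b (l 16589160) (l 16607128)) (b (l 16511544) (l 16555056))))) (b (a (b (l 16254504) (l 16351648)) (b (l 16263736) (l 16345632))) (a (b (l 16389944) (b (l 16481560) (l 16508536))) (b (l 16414264) (b (l 16455176) (l 16478064)))))) (a (b (a (b (l 16304632) (l 16374728)) (b (l 16375336) (l 16413808))) (a (b (l 16412080) (a (l 16472192) (l 16488288))) (b (a (l 16469936) (l 16500704)) (l 16460408)))) (b (a (b (l 16463888) (l 16513344)) (l 16367200)) (b (a (l 16543984) (l 1)) (l 1))))) (a (b (a (b (a (b (l 16560568) (a (l 16590320) (l 16621368))) (b (l 16529608) (l 16551424))) (a (b (a (l 16600784) (l 16634096))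 (a (b (l 16614256) (l 16625776)) (l 16612008))) (b (b (l 16585264) (l 16592032)) (a (l 16641864) (l 16601744))))) (b (a (b (l 16510080) (l 16527760)) (b (l 16497080) (l 16512112))) (a (b (a (l 16577288) (l 16549480)) (a (l 16587088) (l 16558080))) (b (a (l 16529592) (l 16519312)) (a (l 16537032) (l 1)))))) (a (b (a (b (a (b (l 16618144) (l 16633400)) (b (l 16652400) (l 16667272))) (b (a (a (l 16662208) (l 16679888)) (l 16683760)) (l 6))) (b (a (l 16628272) (b (l 16627888) (l 16629880))) (a (b (l 16651592) (l 6)) (b (l 16630712) (l 16609400))))) (a (l 6) (a (l 6) (l 1)))) (b (a (b (a (b (l 16591440) (l 16592944)) (l 1)) (l 1)) (l 1)) (l 1)))) (a (b (b (a (b (l 16503840) (l 16516192)) (l 1)) (l 1)) (l 1)) (l 1)))), by decide +kernel⟩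

def k2_pm_022_a : ∃ t, chk3 f_pm_022_a t 5 1 1 = true :=
  ⟨(b (a (b (a (b (l 16458384) (b (l 16420656) (l 16262256))) (b (l 1) (l 1))) (a (b (l 16240072) (a (l 16401344) (l 1))) (l 1))) (l 1)) (b (l 1) (l 1))), by decide +kernel⟩

def k3_pm_022_a : ∃ t, chk3 f_pm_022_a t 3 1 1 = true :=
  ⟨(l 1), by decide +kernel⟩

theorem s4_pm_022_a : ∃ t, chk3 f_pm_022_a t 4 1 1 = true := ex3_b k0_pm_022_a k1_pm_022_a

theorem s5_pm_022_a : ∃ t, chk3 f_pm_022_a t 2 1 1 = true := ex3_a s4_pm_022_a k2_pm_022_a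

theorem s6_pm_022_a : ∃ t, chk3 f_pm_022_a t 1 1 1 = true := ex3_a s5_pm_022_a k3_pm_022_a

theorem c_pm_022_a : CertB 0 536870912 0 536870912 1040187392 5207648 3 eng mog cd0q0 cd1q2a pd2 false true false .pp 0 2 2
    ndB0q0 ndB1q2a pcB2 cut_pm_022_a Ext.none :=
  certB0 (fam := false) (s1 := true) (s2 := false) (a := 0) (b := 2) (c := 2) (cn := .pp) (n1 := ndB0q0) (n2 := ndB1q2a) (pc := pcB2) (cut := cut_pm_022_a) (xt := Ext.none) (P1 := 0) (W1 := 536870912) (P2 := 0) (W2 := 536870912) (P3 := 1040187392) (W3 := 5207648) (N0 := 3) (En := eng) (mo := mog) (C1 := cd0q0) (C2 := cd1q2a) (C3 := pd2)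
    rfl s6_pm_022_a

noncomputable def cut_pm_022_b : Cut := Cut.of [[⟨0, 0, 0, 26843545⟩, ⟨1, 1, 0, 26843545⟩, ⟨2, 1, 0, 26843545⟩]]

noncomputable def f_pm_022_b : ℕ → ℕ → ℕ → ℕ → Bool := onCell 0 536870912 1073741824 536870912 1040187392 5207648
    (rowB 3 eng mog cd0q0 cd1q2b pd2 1 false true false .pp 0 2 2 (qsf 0 536870912 1239849684 370763052 2) ndB0q0 ndB1q2b pcB2 cut_pm_022_b Ext.none)

def k0_pm_022_b : ∃ t, chk3 f_pm_022_b t 1 1 1 = true :=
  ⟨(b (a (a (b (a (b (l 1) (a (b (l 1) (l 308731673559)) (b (l 279204297191) (l 279740299255)))) (b (a (b (l 1) (a (l 1) (l 16174944))) (b (l 16290400) (l 16004944))) (a (b (l 296383907879) (l 15197400)) (b (l 15731056) (l 15310936))))) (a (b (a (b (l 284034763671) (l 14978344)) (b (l 15115520) (l 14723712))) (a (b (l 14670872) (l 14398856)) (b (l 14511064) (l 14241232)))) (b (a (b (l 15001728) (l 14617840)) (b (l 14912304) (l 14535256))) (a (b (b (l 14349752) (l 14223664)) (l 14110680)) (b (l 14194136) (l 13989344))))))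 (b (b (b (a (b (l 16441056) (l 16273768)) (b (l 16288856) (l 16069608))) (a (l 15834200) (l 15751248))) (a (b (l 15553880) (l 15148392)) (b (l 15345904) (l 14962176)))) (b (a (b (l 14764440) (l 14402112)) (l 14427048)) (a (b (l 14062352) (l 13806984)) (b (l 13940216) (l 13650656)))))) (b (a (b (a (b (l 15936496) (l 15554872)) (b (l 15765432) (l 15390760))) (a (l 14928952) (l 14869152))) (b (a (b (l 15601000) (l 15257992)) (b (l 15462880) (l 15155992))) (a (l 14783136) (l 14734360)))) (a (b (a (l 14315856) (l 14247184)) (a (l 13725232) (l 13708936))) (b (a (l 14221864) (l 2)) (l 2))))) (a (a (b (a (b (a (l 14322048) (l 14140552)) (a (l 14380680) (l 14240496))) (b (a (l 14010688) (l 13886048)) (a (l 14111544) (l 13982768)))) (a (b (a (l 14703912) (l 14573912)) (b (l 15004320) (l 15294656))) (b (a (l 14446416) (l 14314336)) (a (l 14966728) (l 2))))) (b (b (a (l 13674784) (b (l 13443080) (l 13382264))) (a (l 13768040) (l 13470144))) (b (a (l 14098144) (l 2)) (l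 2)))) (b (a (b (a (b (l 13342448) (l 2)) (l 2)) (l 2)) (l 2)) (l 2)))), by decide +kernel⟩

theorem c_pm_022_b : CertB 0 536870912 1239849684 370763052 1040187392 5207648 3 eng mog cd0q0 cd1q2b pd2 false true false .pp 0 2 2
    ndB0q0 ndB1q2b pcB2 cut_pm_022_b Ext.none :=
  certB1 (fam := false) (s1 := true) (s2 := false) (a := 0) (b := 2) (c := 2) (cn := .pp) (n1 := ndB0q0) (n2 := ndB1q2b) (pc := pcB2) (cut := cut_pm_022_b) (xt := Ext.none) (P1 := 0) (W1 := 536870912) (P2 := 1239849684) (W2 := 370763052) (P3 := 1040187392) (W3 := 5207648) (N0 := 3) (En := eng) (mo := mog) (C1 := cd0q0) (C2 := cd1q2b) (C3 := pd2)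
    rfl (fun _ => rfl) k0_pm_022_b

noncomputable def f_pm_023 : ℕ → ℕ → ℕ → ℕ → Bool := onCell 0 536870912 1073741824 536870912 1040187392 5207648
    (rowB 3 eng mog cd0q0 cd1q3 pd2 1 false true false .up 0 2 3 (qsf 0 536870912 1610612736 536870912 2) ndB0q0 ndB1q3 pcB2 Cut.none Ext.none)

def k0_pm_023 : ∃ t, chk3 f_pm_023 t 1 1 1 = true :=
  ⟨(b (a (a (l 1) (b (l 1) (b (l 1) (a (l 1) (l 384427345943))))) (b (a (b (l 1) (a (l 1) (l 15086624))) (b (a (b (l 1) (l 15598872)) (b (l 15754944) (l 15480672))) (a (l 15010800) (l 14952744)))) (a (b (a (l 14662016) (l 14582928)) (a (l 14064128) (l 14018000))) (a (b (l 14527560) (l 14004984)) (b (l 14501488) (l 14033232)))))) (a (a (b (a (l 1) (b (l 1) (a (l 1) (l 14334928)))) (a (b (l 381207715927) (b (l 15349800) (l 15625896))) (b (a (l 14794216) (l 14652488)) (a (l 15287712) (l 15135784))))) (b (b (a (l 14025792) (b (l 13788888) (l 13719176))) (a (l 14111064) (l 13784304))) (b (a (l 14412848) (l 14063248)) (a (l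 14844992) (l 14524488))))) (b (a (b (a (b (l 13663432) (l 13470584)) (l 13521536)) (a (b (l 13395008) (l 13464928)) (b (l 13224112) (l 13128336)))) (b (a (l 13552296) (l 13636968)) (a (l 13176760) (l 13321208)))) (a (b (a (l 13675832) (l 13214392)) (a (l 14122872) (l 13685712))) (b (a (b (l 12991624) (l 12977560)) (l 13098568)) (a (b (l 13095288) (l 13353816)) (a (l 13015208) (l 13076368)))))))), by decide +kernel⟩

theorem c_pm_023 : CertB 0 536870912 1610612736 536870912 1040187392 5207648 3 eng mog cd0q0 cd1q3 pd2 false true false .up 0 2 3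
    ndB0q0 ndB1q3 pcB2 Cut.none Ext.none :=
  certB1 (fam := false) (s1 := true) (s2 := false) (a := 0) (b := 2) (c := 3) (cn := .up) (n1 := ndB0q0) (n2 := ndB1q3) (pc := pcB2) (cut := Cut.none) (xt := Ext.none) (P1 := 0) (W1 := 536870912) (P2 := 1610612736) (W2 := 536870912) (P3 := 1040187392) (W3 := 5207648) (N0 := 3) (En := eng) (mo := mog) (C1 := cd0q0) (C2 := cd1q3) (C3 := pd2)
    rfl (fun _ => rfl) k0_pm_023

noncomputable def f_pm_033 : ℕ → ℕ → ℕ → ℕ → Bool := onCell 1610612736 536870912 1610612736 536870912 1040187392 5207648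
    (rowB 3 eng mog cd0q0 cd1q3 pd3 2 false true false .pnn 0 3 3 (qsf 0 536870912 1610612736 536870912 3) ndB0q0 ndB1q3 pcB3 Cut.none Ext.none)

def k0_pm_033 : ∃ t, chk3 f_pm_033 t 1 1 1 = true :=
  ⟨(a (b (a (b (a (b (a (b (l 14889936) (l 15040968)) (b (l 14711904) (l 14869728))) (a (b (l 15159864) (l 15252816)) (b (l 15027416) (l 15152280)))) (l 4)) (a (b (a (l 15332224) (b (l 15249880) (l 15298696))) (l 15495568)) (a (b (b (l 15129048) (l 15237896)) (l 15313048)) (l 4)))) (l 4)) (a (b (a (l 15785784) (l 15546296)) (a (b (l 16082352) (l 16303600)) (b (l 15896568) (l 16078864)))) (b (l 4) (a (b (l 15746184) (l 15920552)) (l 4))))) (l 4)), by decide +kernel⟩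

theorem c_pm_033 : CertB 0 536870912 1610612736 536870912 1040187392 5207648 3 eng mog cd0q0 cd1q3 pd3 false true false .pnn 0 3 3
    ndB0q0 ndB1q3 pcB3 Cut.none Ext.none :=
  certB2 (fam := false) (s1 := true) (s2 := false) (a := 0) (b := 3) (c := 3) (cn := .pnn) (n1 := ndB0q0) (n2 := ndB1q3) (pc := pcB3) (cut := Cut.none) (xt := Ext.none) (P1 := 0) (W1 := 536870912) (P2 := 1610612736) (W2 := 536870912) (P3 := 1040187392) (W3 := 5207648) (N0 := 3) (En := eng) (mo := mog) (C1 := cd0q0) (C2 := cd1q3) (C3 := pd3)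
    rfl (fun _ => rfl) k0_pm_033

noncomputable def f_pm_101 : ℕ → ℕ → ℕ → ℕ → Bool := onCell 0 536870912 536870912 536870912 1040187392 5207648
    (rowB 3 eng mog cd0q1 cd1q1 pd0 2 false true false .npn 1 0 1 (qsf 536870912 536870912 536870912 536870912 0) ndB0q1 ndB1q1 pcB0 Cut.none Ext.none)

def k0_pm_101 : ∃ t, chk3 f_pm_101 t 2 1 1 = true :=
  ⟨(b (a (b (l 4) (b (l 4) (a (b (l 4) (a (l 16392912) (l 16454752))) (l 4)))) (l 4)) (a (b (a (b (a (l 16007432) (l 16086720)) (a (l 15385672) (l 15676712))) (b (a (l 16063104) (l 16075600)) (b (l 15986240) (l 15766768)))) (a (b (a (a (b (l 15334008) (b (l 15299752) (l 15359056))) (b (l 15298320) (l 15169992))) (a (b (l 15328688) (l 15161064)) (b (l 15387648) (l 15213240)))) (a (b (a (b (l 15494504) (l 15507432)) (a (l 15263496) (l 15147616))) (a (b (a (l 15533392) (l 15496760)) (l 15517600)) (b (a (l 15460544) (l 15293544)) (a (l 15470976) (l 15456304))))) (b (a (a (l 15094008) (l 15088280)) (l 15110208)) (a (b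 (l 15146632) (a (l 15310904) (l 15226520))) (l 15142112))))) (b (a (b (l 15491256) (l 15325392)) (b (l 15630456) (l 15471976))) (b (a (l 15214136) (l 15376536)) (a (a (l 15184440) (l 15256304)) (l 15261416)))))) (b (b (a (a (l 16172136) (l 16291008)) (l 4)) (a (b (l 16107848) (l 15957024)) (b (l 16222256) (l 16068576)))) (a (a (b (l 15662488) (l 15231056)) (b (l 15760336) (b (l 15503152) (l 15237208)))) (b (l 15664536) (b (a (l 15596088) (l 15697432)) (a (l 15280288) (l 15367440)))))))), by decide +kernel⟩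

def k1_pm_101 : ∃ t, chk3 f_pm_101 t 3 1 1 = true :=
  ⟨(b (l 4) (b (a (a (b (l 4) (b (l 4) (l 78079478903))) (l 4)) (l 4)) (a (b (a (b (l 16050976) (l 15909512)) (a (l 42108969975) (b (l 4) (l 16056728)))) (a (b (a (l 15721432) (l 15743256)) (a (l 15459928) (b (l 15673840) (l 15549960)))) (b (l 15808496) (a (b (l 15654936) (l 15689456)) (b (l 15666440) (a (l 15616608) (l 15593104))))))) (b (a (b (l 4) (a (l 16107128) (l 4))) (l 4)) (a (b (a (l 15894432) (l 15958560)) (a (b (l 15704712) (l 15591496)) (l 15687928))) (a (b (l 16016128) (l 15735784)) (b (l 4) (b (l 15926816) (l 15764648))))))))), by decide +kernel⟩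

theorem s2_pm_101 : ∃ t, chk3 f_pm_101 t 1 1 1 = true := ex3_a k0_pm_101 k1_pm_101

theorem c_pm_101 : CertB 536870912 536870912 536870912 536870912 1040187392 5207648 3 eng mog cd0q1 cd1q1 pd0 false true false .npn 1 0 1
    ndB0q1 ndB1q1 pcB0 Cut.none Ext.none :=
  certB2 (fam := false) (s1 := true) (s2 := false) (a := 1) (b := 0) (c := 1) (cn := .npn) (n1 := ndB0q1) (n2 := ndB1q1) (pc := pcB0) (cut := Cut.none) (xt := Ext.none) (P1 := 536870912) (W1 := 536870912) (P2 := 536870912) (W2 := 536870912) (P3 := 1040187392) (W3 := 5207648) (N0 := 3) (En := eng) (mo := mog) (C1 := cd0q1) (C2 := cd1q1) (C3 := pd0)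
    rfl (fun _ => rfl) s2_pm_101

end Pool.Agent.Strip051.G.I9688_9736.Tab.C.BB01

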