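import Pool.Agent.Strip051.G.I9688_9736.Tab
import Pool.Agent.Strip051.PB.ExtD3

/-! # Certificates B14 (generated) -/

set_option linter.all false
set_option maxRecDepth 100000

namespace Pool.Agent.Strip051.G.I9688_9736.Tab.C.BB01

open Pool.Agent.Strip051.PB Pool.Agent.Strip051.PB.T
open Pool.Agent.Strip051.G.I9688_9736.Tab

noncomputable def cut_pm_102_a : Cut := Cut.of [[⟨0, 1, 0, 11184810⟩, ⟨1, 0, 0, 11184810⟩, ⟨2, 1, 0, 11184810⟩], [⟨0, 0, 1, 46137344⟩, ⟨1, 1, 2, 46137344⟩, ⟨2, 1, 0, 1048576⟩, ⟨0, 0, 0, 1054867456⟩, ⟨0, 1, 0, 38117834⟩, ⟨1, 0, 0, 38117834⟩, ⟨1, 1, 0, 1054867456⟩]]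

noncomputable def xt_pm_102_a : Ext := extD3 3 ⟨4, 1, 1, 5, 33, 5, 163, 200, 81, 200, 1, 64⟩ eng cd0q1 cd1q2a pd0 false true false .npp 1 0 2 rfl ndB0q1 ndB1q2a pcB0

noncomputable def f_pm_102_a : ℕ → ℕ → ℕ → ℕ → Bool := onCell 536870912 536870912 0 536870912 1040187392 5207648
    (rowB 3 eng mog cd0q1 cd1q2a pd0 0 false true false .npp 1 0 2 (qsf 536870912 536870912 0 536870912 0) ndB0q1 ndB1q2a pcB0 cut_pm_102_a xt_pm_102_a)

def k0_pm_102_a : ∃ t, chk3 f_pm_102_a t 4 2 1 = true :=
  ⟨(b (l 2) (a (l 2) (b (l 2) (a (l 2) (b (l 2) (l 15810384)))))), by decide +kernel⟩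

def k1_pm_102_a : ∃ t, chk3 f_pm_102_a t 10 2 1 = true :=
  ⟨(a (a (b (l 2) (b (a (l 2) (l 325979863543)) (a (l 15939592) (l 15914344)))) (b (b (b (l 16597408) (l 16535656)) (b (l 16473664) (b (a (l 970762456839) (b (l 16443496) (l 16425600))) (l 16376648)))) (b (b (l 16294416) (l 16186232)) (b (l 16078872) (l 15972104))))) (b (b (a (b (l 16587088) (l 16563304)) (b (b (l 16662864) (l 16648360)) (l 16596632))) (a (b (l 16499736) (b (l 16452936) (a (b (l 16421008) (l 16398792)) (l 16402832)))) (b (l 16529496) (l 16464056)))) (b (b (a (b (a (l 16356152) (l 16382632)) (l 16312848)) (b (a (b (l 16413912) (l 16394032)) (l 16418640)) (a (l 16350408) (l 16316472)))) (a (l 16230360) (l 16258584))) (b (a (l 16121168) (l 16168600)) (a (l 16012824) (l 16058744)))))), by decide +kernel⟩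

def k2_pm_102_a : ∃ t, chk3 f_pm_102_a t 11 4 1 = true :=
  ⟨(b (a (b (a (b (a (l 16694792) (b (a (l 122574236759) (b (a (l 100562573015) (l 57612912823)) (a (l 16746064) (l 115594951335)))) (l 16707992))) (l 16647776)) (b (a (b (a (b (l 3) (l 68350322279)) (l 3)) (a (b (a (l 16748200) (l 96267603015)) (l 16741728)) (b (l 49022979895) (a (l 110763110103) (l 72645287975))))) (l 3)) (a (b (a (l 16727464) (b (l 133848539431) (l 16734520))) (l 16714352)) (b (a (b (a (l 90898891399) (l 16751992)) (a (l 16743512) (l 109152495255))) (l 57612899191)) (a (l 16732176) (b (a (l 122574260999) (l 84993309511)) (l 16739488))))))) (a (l 16593392) (b (a (l 16686152) (l 16688584)) (l 16660248)))) (b (a (b (l 3) (a (b (l 3) (a (b (l 3) (a (l 102173171479) (l 56539163735))) (l 3))) (l 3))) (l 3)) (a (b (a (b (a (b (l 124184858583) (l 16732528)) (b (l 69960921895) (a (l 16741712) (l 96804461239)))) (a (l 16718104) (l 16730464))) (b (l 82845833575) (a (b (a (l 108615614199) (l 73182147511)) (l 130627301303)) (b (l 3) (l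 78550848455))))) (a (l 16695512) (b (a (l 16723640) (b (a (l 16737936) (l 105931259159)) (l 16731424))) (l 16710576)))) (b (l 3) (a (b (a (b (l 61907858055) (a (l 116668670503) (l 81772074679))) (l 3)) (a (l 16708616) (b (l 84993292007) (l 117742397975)))) (l 89288264903)))))) (a (a (b (l 16564800) (l 16496184)) (b (l 16605336) (l 16533712))) (a (b (b (l 16648552) (l 16631800)) (l 16576312)) (b (b (a (b (l 16695656) (l 16697208)) (b (a (b (a (l 16737336) (l 89288260631)) (l 16731208)) (b (l 3) (l 89825123991))) (a (l 16716600) (b (l 120963616743) (l 16724848))))) (a (l 16668312) (l 16693928))) (l 16581688))))), by decide +kernel⟩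

def k3_pm_102_a : ∃ t, chk3 f_pm_102_a t 11 5 1 = true :=
  ⟨(a (b (b (a (b (l 16445512) (a (b (l 16409824) (l 16391376)) (l 16416792))) (l 16463640)) (a (b (a (l 16347824) (b (l 16390856) (l 16361944))) (l 16305184)) (b (a (b (l 16409144) (l 16390904)) (l 16418544)) (a (l 16348440) (b (l 16391528) (l 16364272)))))) (b (a (l 16220936) (b (l 16306280) (l 16249568))) (a (l 16109640) (l 16144320)))) (b (a (b (l 16503608) (b (l 16449824) (a (b (l 16412368) (l 16392784)) (l 16424440)))) (b (l 16548472) (l 16474784))) (b (a (b (a (l 16352776) (b (l 16394704) (l 16371040))) (l 16310696)) (b (a (b (l 16418392) (l 16397328)) (l 16431176)) (a (l 16361744) (b (l 16400720) (l 16380432))))) (a (b (l 16253704) (l 16197136)) (b (l 16318424) (l 16261288)))))), by decide +kernel⟩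

def k4_pm_102_a : ∃ t, chk3 f_pm_102_a t 4 6 1 = true :=
  ⟨(a (l 2) (b (a (l 2) (b (a (l 15780952) (l 15803448)) (a (l 15678152) (l 15699536)))) (b (a (a (l 2) (b (b (l 2) (a (l 2) (b (l 15577480) (l 15551128)))) (l 15417528))) (b (a (a (l 15589272) (l 15605280)) (l 15621408)) (a (b (a (l 15522584) (b (l 15567208) (l 15539040))) (l 15447656)) (b (a (l 15569936) (l 15588416)) (a (l 15512136) (b (l 15562528) (l 15531672))))))) (a (a (b (l 15168624) (l 14984880)) (b (l 15234024) (l 15048056))) (a (b (l 15307952) (l 15119888)) (b (b (l 15437312) (l 15342808)) (l 15199976))))))), by decide +kernel⟩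

def k5_pm_102_a : ∃ t, chk3 f_pm_102_a t 4 7 1 = true :=
  ⟨(b (a (a (l 2) (b (b (l 2) (a (l 2) (l 14559208))) (b (a (l 2) (l 14369112)) (a (l 14138752) (l 14176240))))) (b (a (b (a (l 14798456) (l 14859648)) (a (l 14609384) (l 14668864))) (b (a (l 14929640) (l 15008024)) (a (l 14737288) (l 14814256)))) (a (b (a (l 14417744) (l 14475816)) (a (l 14223648) (l 14280640))) (b (a (l 14542968) (l 14618824)) (a (l 14346864) (l 14421952)))))) (a (b (a (a (l 2) (b (l 13897200) (a (l 13675176) (l 13685160)))) (b (a (l 13923304) (l 13980744)) (a (l 13726032) (l 13761856)))) (a (a (a (b (l 2) (b (l 13355528) (b (l 13279344) (l 13228296)))) (b (b (l 13560992) (l 13460696)) (b (l 13359664) (b (l 13283480) (l 13232456))))) (b (b (a (l 13568048) (l 13577840)) (a (l 13467664) (l 13477400))) (b (a (l 13366608) (l 13376328)) (a (b (l 13290440) (l 13239440)) (b (l 13300192) (l 13249232)))))) (a (b (c (c (l 13506120) (l 13491552)) (l 13490600)) (b (a (l 13388792) (l 13403976)) (a (l 13287208) (l 13302488)))) (b (c (l 13555424)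 (l 13526160)) (c (a (l 13299712) (l 13320240)) (a (l 13295544) (l 13316152))))))) (b (a (b (a (l 14027280) (l 14083544)) (a (l 13807896) (l 13884808))) (b (a (l 14149216) (l 14223920)) (a (l 13950328) (l 14025064)))) (a (b (a (a (l 13574448) (l 13599984)) (a (l 13628016) (l 13658512))) (a (a (l 13351888) (l 13377672)) (a (l 13406008) (l 13436856)))) (b (a (l 13687680) (l 13825848)) (a (a (l 13470176) (l 13526912)) (a (l 13565064) (l 13605568)))))))), by decide +kernel⟩

def k6_pm_102_a : ∃ t, chk3 f_pm_102_a t 5 6 1 = true :=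
  ⟨(b (a (a (b (a (l 15831776) (l 15865752)) (a (l 15726808) (l 15759768))) (b (a (l 15905192) (l 15949872)) (a (l 15798232) (l 15841984)))) (a (b (a (l 15999592) (l 16054112)) (a (l 15890808) (l 15944472))) (b (a (l 16071248) (b (l 16204640) (l 16148496))) (a (l 15981760) (l 15981456))))) (a (b (a (a (b (l 15648104) (a (b (l 15601664) (l 15526080)) (l 15603264))) (l 15633248)) (a (l 15650096) (l 15693248))) (a (b (a (b (a (l 15506248) (b (l 15563296) (l 15528600))) (l 15432040)) (b (a (b (l 15586576) (l 15544688)) (l 15597456)) (a (l 15504552) (b (a (l 15563736) (l 15577840)) (l 15529568))))) (a (b (l 15336144) (l 15239816)) (b (l 15431792) (l 15334704)))) (b (a (b (l 15626144) (a (b (l 15595840) (a (l 15567656) (l 15583328))) (l 15608216))) (l 15655936)) (a (b (a (l 15508056) (b (a (l 15572552) (l 15590064)) (l 15536488))) (l 15436504)) (b (a (b (l 15609424) (a (l 15578312) (l 15597992))) (l 15624320)) (a (l 15517088) (b (a (l 15584784) (l 15607008)) (l 15548064)))))))) (a (b (a (l 15741488) (l 15794600))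 (a (b (l 15703976) (b (l 15664696) (a (b (l 15628504) (b (l 15614536) (l 15593224))) (l 15645736)))) (b (l 15756888) (l 15704568)))) (b (a (l 15831368) (l 15851528)) (a (b (l 15814440) (l 15762104)) (b (l 15876360) (l 15824008))))))), by decide +kernel⟩

def k7_pm_102_a : ∃ t, chk3 f_pm_102_a t 5 14 1 = true :=
  ⟨(a (b (a (a (b (l 15094384) (l 14899352)) (b (b (l 15237272) (l 15139512)) (l 14992136))) (b (a (b (l 15338464) (l 15240176)) (b (l 15446128) (l 15347400))) (a (l 15113112) (b (l 15248512) (l 15149520))))) (a (b (a (l 14702976) (l 14794992)) (a (l 14505512) (l 14597112))) (b (a (l 14894400) (l 15000720)) (a (l 14696312) (l 14802624))))) (b (a (b (a (b (a (l 15530808) (b (a (l 15599192) (l 15627848)) (l 15564224))) (l 15460624)) (b (a (b (l 15652912) (l 15625408)) (b (l 15686216) (l 15666992))) (a (l 15549152) (b (l 15636648) (l 15584912))))) (a (b (l 15361480) (l 15262312)) (b (l 15479960) (l 15380720)))) (b (a (b (l 15723368) (a (b (a (l 15675008) (l 15693176)) (l 15648280)) (b (l 15719312)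 (a (l 15690504) (l 15709856))))) (a (l 15756696) (l 15788728))) (a (b (a (l 15572064) (l 15635520)) (l 15504112)) (b (a (b (a (l 15706616) (l 15727720)) (l 15673824)) (b (l 15755168) (a (l 15723120) (l 15746584)))) (l 15631760))))) (a (b (a (l 15134376) (b (l 15281592) (l 15182640))) (a (l 14915528) (b (l 15083928) (l 14985536)))) (b (a (b (l 15405136) (l 15306432)) (b (l 15533072) (l 15434760))) (a (b (l 15208072) (l 15110152)) (b (l 15336904) (l 15239600))))))), by decide +kernel⟩

def k8_pm_102_a : ∃ t, chk3 f_pm_102_a t 5 15 1 = true :=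
  ⟨(a (b (a (b (a (l 14307272) (l 14398872)) (a (l 14108664) (l 14200720))) (b (a (l 14498280) (l 14605024)) (a (l 14300808) (l 14408480)))) (a (b (a (l 13910176) (l 14003192)) (a (l 13712416) (l 13806976))) (b (a (l 14104496) (l 14213664)) (a (l 13910104) (l 14021408))))) (b (a (b (a (l 14718600) (l 14838472)) (a (l 14523248) (l 14644600))) (b (a (b (l 15012760) (l 14915976)) (b (l 15142960) (l 15047080))) (a (b (l 14819928) (l 14724720)) (b (l 14952088) (l 14858112))))) (a (b (a (l 14330224) (b (l 14501336) (l 14406792))) (a (a (l 14110168) (l 14171544)) (b (l 14292336) (l 14200056)))) (b (a (b (l 14630480) (l 14537344)) (b (l 14765288) (l 14673776))) (a (b (l 14445472) (l 14355024)) (b (l 14583736) (l 14495360))))))), by decide +kernel⟩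

def k9_pm_102_a : ∃ t, chk3 f_pm_102_a t 12 2 1 = true :=
  ⟨(b (b (l 3) (a (b (a (b (a (b (l 3) (a (b (l 73719004311) (l 103783754695)) (l 3))) (l 3)) (a (b (a (l 16723464) (b (l 93583214583) (l 122574224391))) (l 16710544)) (b (l 67813428631) (a (b (l 105931233111) (l 16725872)) (l 86603887287))))) (l 3)) (a (b (a (l 16681248) (b (a (l 16711144) (l 127942907399)) (l 16698288))) (l 16655560)) (b (a (b (a (b (l 80698315703) (l 106468099703)) (l 75866485911)) (a (l 16718888) (b (l 94120076007) (l 16727432)))) (l 79087689319)) (a (l 16675320) (b (a (l 115058009687) (l 90361975927)) (a (l 16707352) (l 16700184))))))) (b (l 3) (a (b (l 3) (a (b (l 3) (a (l 101099382327) (l 3))) (l 3))) (l 3))))) (b (a (a (b (l 16576904) (l 16522080)) (b (b (a (l 16657000) (l 16684816)) (l 16631656)) (l 16552736))) (b (a (b (a (b (a (l 16716000) (l 111299918343)) (l 16703384)) (b (l 79087692311) (a (l 115058003687) (l 90898843095)))) (a (l 16673760) (b (a (l 16705296) (l 16698384)) (l 16692784)))) (b (l 3) (a (b (a (l 100562508615)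 (l 3)) (a (l 16714808) (l 108615561767))) (l 83919535383)))) (a (b (l 16627720) (l 16609480)) (a (b (l 16671616) (l 16653024)) (b (b (a (l 115058002903) (l 91435714599)) (a (l 16705056) (l 122574185655))) (l 16682912)))))) (a (b (a (b (l 16465968) (a (b (l 16426488) (l 16404944)) (l 16440968))) (l 16497432)) (a (b (a (b (l 16385720) (l 16355152)) (b (l 16410072) (l 16391424))) (l 16329456)) (b (a (l 16424848) (l 16453768)) (a (b (l 16355648) (l 16368616)) (b (l 16423376) (l 16362328)))))) (a (b (l 16530424) (b (l 16493776) (l 16453600))) (b (a (l 16594288) (l 16623880)) (l 16489320)))))), by decide +kernel⟩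

def k10_pm_102_a : ∃ t, chk3 f_pm_102_a t 13 2 1 = true :=
  ⟨(b (l 3) (a (b (b (l 3) (a (b (a (a (l 94656927863) (l 3)) (l 3)) (a (b (a (l 16715208) (l 109152434519)) (l 16703376)) (b (l 3) (a (l 115058005255) (l 96804427479))))) (l 3))) (b (b (a (a (l 16673744) (b (a (l 16706672) (l 122037318375)) (l 16694672))) (a (b (l 103246882487) (a (l 128479760567) (l 112910536951))) (l 3))) (a (l 16586736) (a (b (a (l 16698336) (l 16692720)) (l 16686496)) (b (a (b (l 109689325207) (l 126869173447)) (l 3)) (a (l 16710168) (b (l 118816122391) (l 129553520023))))))) (a (a (l 16575792) (l 16606384)) (a (l 16595648) (b (b (l 16698504) (l 16678896)) (l 16649584)))))) (b (l 3) (a (b (a (b (l 3) (l 112373683335)) (l 3)) (b (a (b (a (b (l 126869178343) (l 16717232)) (l 116131783783)) (a (l 16702880) (b (l 134385363367) (l 16714056)))) (b (l 3) (a (b (l 3) (l 126869184375)) (l 3)))) (a (l 16639736) (b (a (b (l 133848486231) (l 16710736)) (b (l 119889876007) (a (l 16722080) (l 125795453863)))) (a (l 16696168) (l 141364650567))))))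 (b (l 3) (a (b (l 3) (b (l 3) (a (b (l 126869191159) (a (l 16719672) (l 134385381447))) (l 3)))) (l 3))))))), by decide +kernel⟩

def k11_pm_102_a : ∃ t, chk3 f_pm_102_a t 7 2 1 = true :=
  ⟨(l 3), by decide +kernel⟩

def k12_pm_102_a : ∃ t, chk3 f_pm_102_a t 12 6 1 = true :=
  ⟨(b (a (b (a (b (l 16272312) (l 16215736)) (b (l 16343760) (l 16286752))) (a (b (l 16159736) (l 16104352)) (b (l 16230392) (l 16174696)))) (b (a (b (a (b (l 16390536) (l 16385768)) (b (l 16441144) (l 16398408))) (a (l 16342352) (l 16382704))) (b (l 16473712) (a (b (l 16427944) (l 16407184)) (b (l 16459624) (l 16416320))))) (a (b (l 16304560) (l 16248560)) (b (a (l 16362328) (b (a (l 16406032) (l 16427136)) (l 16387584))) (l 16283704))))) (a (b (a (b (l 16049624) (l 15995608)) (b (l 16119728) (l 16065528))) (a (b (l 15942376) (l 15890000)) (b (l 16012192) (l 15959792)))) (b (a (b (l 16193344) (l 16138960)) (b (l 16270176) (l 16215592))) (a (b (l 16085504) (l 16033048)) (b (l 16161984) (l 16109448)))))), by decide +kernel⟩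

def k13_pm_102_a : ∃ t, chk3 f_pm_102_a t 13 6 1 = true :=
  ⟨(a (b (b (a (b (l 16532744) (l 16494424)) (b (l 16594768) (l 16556144))) (a (b (a (b (l 16447512) (a (l 16418104) (l 16437928))) (b (l 16480992) (l 16458704))) (a (l 16385400) (b (a (l 16431536) (l 16449048)) (l 16412008)))) (b (l 16517856) (a (b (l 16470976) (a (l 16444752) (l 16460648))) (l 16493504))))) (b (a (b (a (l 16329736) (l 16370264)) (a (l 16274992) (l 16315408))) (b (a (l 16411416) (b (a (l 16436920) (l 16472904)) (l 16439720))) (a (l 16356440) (l 16398048)))) (a (b (l 16178392) (l 16125720)) (b (a (l 16302488) (l 16343976)) (a (l 16249672) (l 16291032)))))) (b (b (a (b (a (l 16642760) (l 16654272)) (l 16599352)) (b (a (b (a (l 16709376) (b (a (l 129016669575) (l 124184845991)) (a (l 16716816) (l 133311633543)))) (l 16666832)) (b (a (l 127406072775) (l 3)) (a (b (a (l 137069727175) (l 131164164487)) (l 142438415527)) (b (l 3) (a (l 134385387111) (l 3)))))) (a (l 16669480) (b (a (l 16703768) (b (a (l 16720752) (l 137606609815))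 (l 16715488))) (l 16671960))))) (a (b (l 16581928) (l 16543848)) (b (a (l 16631216) (l 16664416)) (l 16567936)))) (b (a (b (a (b (l 16499304) (a (b (l 16475760) (l 16465008)) (l 16486016))) (l 16522448)) (a (b (a (l 16443312) (l 16466312)) (l 16426544)) (b (a (b (l 16489048) (l 16480152)) (l 16500208)) (a (l 16458464) (b (l 16487512) (l 16473064)))))) (b (l 16530272) (a (b (l 16527384) (a (b (l 16503448) (l 16494800)) (l 16515704))) (l 16551648)))) (a (b (a (l 16386000) (l 16428512)) (a (l 16332896) (l 16375232))) (b (a (b (a (l 16474208) (b (l 16502072) (l 16489048))) (l 16458016)) (b (a (l 16481336) (l 16532208)) (a (l 16491400) (b (l 16516792) (l 16506728))))) (a (l 16418016) (l 16419288))))))), by decide +kernel⟩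

def k14_pm_102_a : ∃ t, chk3 f_pm_102_a t 12 7 1 = true :=
  ⟨(b (b (a (b (a (l 15838600) (l 15908432)) (a (b (l 15733032) (a (b (b (l 15761440) (l 15743560)) (l 15705264)) (b (l 15794824) (b (l 15760528) (l 15759464))))) (a (b (l 15852904) (b (l 15834280) (l 15816568))) (l 15876336)))) (a (b (l 15981712) (l 15931632)) (b (l 16058088) (l 16008048)))) (a (b (b (a (l 15622688) (a (b (a (l 15772792) (l 15806856)) (l 15740856)) (b (a (l 15830904) (l 15852176)) (l 15789880)))) (a (l 15566864) (l 15576048))) (a (b (l 15469664) (l 15373152)) (b (l 15605520) (l 15509968)))) (b (a (b (a (b (l 15882416) (b (l 15870072) (l 15818328))) (l 15913896)) (a (l 15764600) (b (b (l 15894656) (l 15862944)) (l 15849392)))) (b (l 15971504) (a (b (l 15933040) (b (l 15920216) (l 15907360))) (l 15963624)))) (a (b (a (l 15708888) (l 15778200)) (l 15544256)) (b (a (l 15847656) (b (b (l 15946360) (l 15930120)) (l 15893896))) (a (l 15754368) (l 15824600))))))) (b (a (b (a (b (l 15277424) (l 15182624)) (b (l 15415352) (l 15321816)))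 (a (b (l 15088872) (l 14996320)) (b (l 15229512) (l 15138600)))) (b (a (b (l 15555824) (l 15463776)) (b (a (l 15662248) (l 15733360)) (a (l 15571488) (l 15643552)))) (a (b (l 15373144) (l 15284112)) (b (a (l 15482296) (l 15555400)) (a (l 15394872) (l 15469136)))))) (a (b (a (b (l 14905128) (l 14815456)) (b (l 15049264) (l 14982656))) (a (b (l 14727496) (b (l 14641936) (l 14599440))) (b (b (l 14897416) (l 14855144)) (a (l 14733576) (l 14810352))))) (b (a (b (a (l 15159792) (l 15234320)) (a (l 15073976) (l 15149776))) (b (a (l 15309432) (l 15384984)) (a (l 15226232) (l 15303216)))) (a (b (a (l 14990344) (l 15067552)) (a (l 14888184) (l 14966968))) (b (a (l 15145512) (l 15224104)) (a (l 15067576) (l 15147952)))))))), by decide +kernel⟩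

def k15_pm_102_a : ∃ t, chk3 f_pm_102_a t 13 14 1 = true :=
  ⟨(b (a (a (b (l 16095248) (l 16045160)) (b (a (l 16198096) (l 16239320)) (a (l 16147888) (l 16188952)))) (a (b (a (l 16280992) (l 16323088)) (a (l 16230384) (l 16272120))) (b (a (l 16365560) (l 16387424)) (a (l 16293104) (l 16356176))))) (a (b (a (l 15996584) (l 16014656)) (a (b (a (b (l 15984776) (b (l 15951672) (l 15951656))) (b (l 16029160) (l 16012248))) (a (l 15894656) (b (a (l 15969528) (l 16004928)) (l 15941912)))) (b (l 16084000) (a (b (a (l 16030824) (l 16053544)) (l 16013192)) (b (l 16086904) (b (l 16074752) (l 16023760))))))) (a (b (a (l 16181136) (l 16222320)) (a (l 16112312) (l 16173528))) (b (a (l 16263376) (l 16303960)) (a (l 16212888) (l 16250032)))))), by decide +kernel⟩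

def k16_pm_102_a : ∃ t, chk3 f_pm_102_a t 13 15 1 = true :=
  ⟨(b (a (b (a (b (a (l 15804408) (l 15875144)) (a (l 15715640) (l 15787536))) (b (a (l 15945256) (l 15994488)) (a (l 15858984) (l 15929608)))) (a (b (a (l 15628616) (l 15701752)) (a (l 15543592) (l 15618064))) (b (a (l 15774560) (l 15846744)) (a (l 15692336) (l 15766120))))) (b (a (b (a (b (a (l 16064760) (l 16088576)) (l 16060720)) (b (l 16141072) (b (l 16129744) (l 16116368)))) (a (l 15998848) (l 16065608))) (b (a (l 16149408) (l 16184904)) (a (b (b (l 16131912) (l 16136152)) (l 16108688)) (b (l 16151416) (a (l 16133120) (l 16128632)))))) (a (b (a (l 15917840) (l 15987112)) (a (l 15839048) (l 15910512))) (b (a (l 16052920) (l 16107272)) (a (l 15979368) (l 16042600)))))) (a (b (a (b (a (l 15460824) (l 15536776)) (a (l 15380584) (l 15458168))) (b (a (l 15612632) (l 15688136)) (a (l 15535776) (l 15613168)))) (a (b (a (l 15303176) (l 15382576)) (a (l 15228928) (l 15310352))) (b (a (l 15462128) (l 15541592)) (a (l 15392056) (l 15473832))))) (b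 (a (b (a (l 15762960) (l 15836576)) (a (l 15690024) (l 15765880))) (b (a (l 15908072) (l 15975256)) (a (l 15839928) (l 15910344)))) (a (b (a (l 15620680) (l 15698944)) (a (l 15555376) (l 15636272))) (b (a (l 15775624) (l 15849048)) (a (l 15715768) (l 15750232))))))), by decide +kernel⟩

def k17_pm_102_a : ∃ t, chk3 f_pm_102_a t 28 12 1 = true :=
  ⟨(b (a (b (l 3) (a (b (a (b (l 3) (a (b (l 134922263239) (l 139217220615)) (l 130090431015))) (l 3)) (a (b (a (l 16718392) (b (l 138680356999) (l 16723952))) (l 16713040)) (b (l 132237913767) (a (b (l 141901579719) (l 16723040)) (l 133311657511))))) (l 3))) (l 3)) (a (b (a (b (a (l 16698824) (b (a (l 16716032) (b (l 145122802807) (l 16721992))) (l 16710744))) (l 16688272)) (b (a (b (a (l 136532875159) (l 3)) (a (l 145659661063) (b (l 133311655143) (l 141364711607)))) (l 3)) (a (b (a (l 16713832) (l 16711536)) (l 16708624)) (b (a (b (l 135996010247) (l 144049063959)) (l 3)) (a (l 16721136) (b (l 138680362807) (l 146196545655))))))) (a (l 16660096) (b (a (l 16694584)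 (l 16690376)) (l 16684336)))) (b (a (b (l 3) (a (l 138143493239) (l 3))) (l 3)) (a (b (a (b (a (b (l 141364715111) (l 147270285447)) (l 138143498183)) (a (l 16719256) (b (l 144049067527) (l 16725160)))) (b (l 3) (l 140827851815))) (a (l 16709544) (b (a (b (l 146196549447) (l 16724424)) (l 140827854087)) (a (l 16717520) (b (l 147807160247) (l 16723616)))))) (b (l 3) (a (b (l 3) (a (b (l 142438468023) (l 144585942631)) (l 3))) (l 3))))))), by decide +kernel⟩

def k18_pm_102_a : ∃ t, chk3 f_pm_102_a t 28 13 1 = true :=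
  ⟨(b (a (b (a (l 16622728) (l 16656568)) (a (l 16585600) (l 16619736))) (b (a (b (a (l 16691080) (l 16707928)) (l 16681176)) (b (a (b (a (l 149954632167) (b (l 142438465095) (l 146733424615))) (a (l 16715968) (l 16724264))) (b (l 3) (a (b (l 145122819959) (l 148344035911)) (l 3)))) (a (l 16706504) (b (a (l 16723664) (b (l 147270302087) (l 148344034407))) (l 16718816))))) (a (l 16653864) (b (l 16665368) (l 16678824))))) (a (b (a (b (l 16557816) (a (l 16528056) (l 16547896))) (l 16583056)) (a (b (a (l 16488288) (b (l 16532136) (l 16523656))) (l 16491528)) (b (a (l 16544368) (l 16564112)) (a (b (l 16531848) (l 16517816)) (b (l 16548616) (l 16539928)))))) (b (a (l 16617616) (l 16652032)) (a (b (l 16590368) (l 16570256)) (l 16616352))))), by decide +kernel⟩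

def k19_pm_102_a : ∃ t, chk3 f_pm_102_a t 29 6 1 = true :=
  ⟨(b (l 3) (a (b (b (a (b (l 3) (a (b (l 149417789159) (a (b (l 148880913287) (l 148344033095)) (l 150491534247))) (l 3))) (l 3)) (a (b (a (b (a (l 16722416) (b (l 147807170103) (l 16728384))) (l 16717648)) (b (l 152639016983) (a (b (l 148344039831) (l 16727992)) (l 152639019991)))) (a (l 16704232) (b (a (l 16721344) (l 148344028711)) (l 16716664)))) (b (l 3) (a (b (a (l 153175891815) (l 3)) (a (l 147807157159) (l 154249625287))) (l 3))))) (b (a (b (l 16673976) (l 16677328)) (b (a (b (a (l 16720464) (l 147270285207)) (l 16715888)) (b (a (b (l 156933986647) (l 150491528791)) (l 3)) (a (l 16728408) (b (l 158007729479) (l 149954657111))))) (a (l 16702776) (a (l 16715440) (l 16702872))))) (a (l 16651104) (a (l 16676824) (l 16672848))))) (b (l 3) (a (b (b (l 3) (a (b (a (b (l 158007729239) (l 148880914743)) (l 171429506295)) (a (l 16727936) (b (l 156933986727) (l 147807172151)))) (l 168745147591))) (b (a (l 16698264) (b (a (b (l 154786502647) (l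 16733584)) (l 166597671191)) (a (l 16727552) (b (l 153712760295) (l 16733624))))) (a (l 16702176) (l 16719016)))) (b (l 3) (b (a (b (l 3) (l 168745153895)) (l 3)) (a (b (a (b (l 152102147303) (l 16733632)) (l 165523932295)) (a (l 16727368) (l 145659686871))) (b (l 3) (a (l 163913320951) (l 3)))))))))), by decide +kernel⟩

def k20_pm_102_a : ∃ t, chk3 f_pm_102_a t 15 6 1 = true :=
  ⟨(a (l 3) (l 3)), by decide +kernel⟩

def k21_pm_102_a : ∃ t, chk3 f_pm_102_a t 14 14 1 = true :=
  ⟨(a (b (a (b (a (l 16388720) (b (l 16508776) (l 16481880))) (a (l 16398352) (l 16440640))) (b (a (b (a (b (l 16547960) (l 16535416)) (b (l 16566824) (l 16556000))) (a (l 16514920) (l 16538416))) (b (l 16589048) (a (b (l 16564096) (l 16553952)) (b (l 16583904) (l 16572304))))) (a (b (l 16498008) (l 16466392)) (b (a (l 16531296) (b (l 16562448) (l 16546408))) (l 16505984))))) (a (b (a (l 16343400) (l 16370272)) (a (l 16261608) (l 16278584))) (b (a (l 16399336) (b (l 16459640) (l 16410840))) (a (l 16301920) (b (l 16359376) (l 16304944))))))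 (b (a (b (a (l 16615768) (l 16651080)) (a (b (a (b (l 16580648) (l 16570344)) (l 16594168)) (a (l 16540472) (b (l 16577400) (l 16553952)))) (b (l 16624520) (a (b (l 16597856) (l 16581016)) (l 16612864))))) (a (b (b (l 16693784) (l 16677088)) (l 16609888)) (b (a (b (l 16719016) (l 16702480)) (b (b (a (l 142975331959) (l 163913314791)) (a (l 16727400) (l 139754106455))) (l 16719192))) (a (l 16677992) (l 16673952))))) (a (b (a (b (l 16504544) (l 16453368)) (b (a (l 16543568) (b (l 16584856) (l 16559288))) (l 16483424))) (a (b (l 16399216) (l 16341800)) (b (l 16447784) (l 16387568)))) (b (a (b (a (b (l 16614720) (l 16589312)) (l 16631184)) (a (b (l 16562872) (l 16534496)) (b (l 16594472) (l 16567040)))) (a (b (l 16652208) (b (l 16628216) (l 16600440))) (l 16661664))) (a (b (l 16484952) (l 16443216)) (b (a (b (l 16550904) (l 16540648)) (b (l 16607312) (a (l 16568064) (l 16586816)))) (a (l 16492008) (l 16528104)))))))), by decide +kernel⟩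

def k22_pm_102_a : ∃ t, chk3 f_pm_102_a t 28 15 1 = true :=
  ⟨(b (b (a (a (b (l 16191280) (b (l 16153776) (a (l 16128112) (l 16129824)))) (l 16176456)) (a (b (l 16221656) (l 16163808)) (b (l 16247168) (l 16185624)))) (a (b (b (a (l 16106232) (b (l 16114448) (l 16037552))) (l 16084376)) (a (l 16058744) (l 16048392))) (b (a (b (l 16118192) (b (l 16136912) (l 16100768))) (b (l 16136736) (l 16103232))) (a (l 16046224) (b (b (a (l 16072936) (l 16081688)) (l 16060936)) (l 16037576)))))) (b (a (b (a (l 16020040) (l 16001256)) (a (l 15971032) (l 15952488))) (b (a (l 15990616) (l 15989240)) (a (l 15932400) (b (l 15938968) (l 15904048))))) (a (b (a (l 15913768) (l 15901192)) (a (l 15838984) (b (l 15860328) (l 15831536)))) (b (a (b (l 15886424) (l 15854288)) (b (l 15867800) (l 15830016))) (a (b (l 15820736) (l 15785520)) (b (l 15790424) (a (l 15756928) (l 15741192)))))))), by decide +kernel⟩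

def k23_pm_102_a : ∃ t, chk3 f_pm_102_a t 29 15 1 = true :=
  ⟨(b (b (a (a (b (l 16280744) (l 16215576)) (b (l 16323384) (l 16254736))) (a (b (l 16376168) (l 16304312)) (b (l 16461304) (l 16365688)))) (a (b (a (l 16145728) (l 16181040)) (a (b (a (l 16084024) (l 16097088)) (a (l 16048048) (b (l 16067904) (l 16049376)))) (b (l 16122096) (a (b (l 16082880) (l 16062368)) (l 16090240))))) (a (b (l 16227048) (l 16143664)) (b (l 16285328) (l 16198576))))) (b (a (b (a (l 15998368) (b (a (l 16033000) (l 16047504)) (l 15998728))) (a (b (l 15941328) (l 15901536)) (b (l 15956016) (l 15911624)))) (b (a (b (b (l 16088456) (a (l 16055008) (l 16076888))) (l 16031440)) (b (l 16128992) (a (b (l 16078424) (l 16054264)) (b (l 16107552) (l 16082472))))) (a (b (l 15984936) (l 15936464)) (b (l 16030392) (l 15978704))))) (a (b (a (b (l 15860112) (l 15816800)) (b (l 15865328) (a (l 15815440) (l 15819224)))) (a (b (a (l 15774904) (l 15768544)) (a (l 15728448) (l 15719032))) (b (a (l 15765776) (l 15766992)) (a (b (l 15726744)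 (l 15699776)) (b (l 15725952) (l 15697600)))))) (a (b (b (l 15885880) (a (l 15827216) (l 15839856))) (b (a (l 15772648) (l 15804264)) (a (b (l 15729816) (l 15700264)) (b (l 15738968) (c (l 15726272) (l 15690672)))))) (b (b (a (l 15913152) (l 15937832)) (a (l 15857640) (l 15881176))) (b (a (b (l 15814336) (l 15784592)) (b (l 15837136) (l 15806984))) (a (b (l 15754136) (c (l 15743336) (l 15702648))) (b (c (l 15797928) (l 15754576)) (c (a (l 15761048) (l 15775488)) (l 15721696)))))))))), by decide +kernel⟩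

def k24_pm_102_a : ∃ t, chk3 f_pm_102_a t 60 14 1 = true :=
  ⟨(b (b (a (b (a (b (l 3) (a (l 162839572903) (l 3))) (l 3)) (a (b (a (l 16725264) (b (l 171966386679) (l 146733447079))) (l 126869185303)) (b (l 3) (a (b (l 169818905639) (l 140827868775)) (l 3))))) (l 3)) (a (a (b (l 16720128) (l 16704216)) (b (b (a (l 16737824) (b (l 167134553991) (l 133311678391))) (l 16713624)) (l 16701424))) (a (b (b (l 3) (a (b (l 162302719239) (l 16735400)) (l 185925047607))) (b (a (l 16740600) (b (l 156397141367) (l 16747008))) (l 16736752))) (b (l 3) (b (l 182166952135) (a (b (l 143512240327) (l 16747528)) (l 176798246551))))))) (b (b (a (a (l 16688136) (l 16706152)) (a (l 16703112) (b (a (l 16741496) (b (l 121500532967) (l 16747504))) (l 16737168)))) (a (l 16638736) (a (l 16707664) (l 16703728)))) (a (b (a (l 16629896) (l 16668360)) (a (b (a (l 16574088) (l 16593624)) (l 16549784)) (b (l 16623576) (a (l 16580640) (l 16601160))))) (a (b (l 16691800) (l 16649536)) (b (l 16709304) (l 16690448)))))), by decide +kernel⟩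

def k25_pm_102_a : ∃ t, chk3 f_pm_102_a t 61 14 1 = true :=
  ⟨(b (l 3) (b (a (b (a (b (l 173040148055) (a (b (l 91972631927) (l 16747008)) (l 133311695767))) (l 3)) (a (b (a (l 16740808) (b (l 96267597623) (l 16746112))) (l 16715432)) (a (b (l 136532919559) (a (l 16745216) (l 16736832))) (b (l 3) (b (l 3) (l 75866505351)))))) (l 3)) (a (b (a (a (l 16721224) (l 16728592)) (a (b (l 16739112) (l 16731872)) (b (a (l 16743824) (b (l 16747232) (l 16744904))) (l 16738072)))) (a (l 16711688) (a (l 16722352) (l 16728584)))) (a (b (a (b (b (l 3) (a (l 16746368) (l 3))) (a (l 16742256) (b (l 16745448) (l 16743104)))) (b (l 3) (a (b (l 16744704) (a (l 16744560) (l 16734232))) (l 16743288)))) (a (b (l 16737016) (l 16731344)) (b (a (l 16740608) (b (a (l 16743544) (l 18958185719)) (l 16741232))) (a (l 16734944) (l 16737072))))) (b (l 3) (a (b (b (l 20568789255) (a (a (b (l 16740480) (l 16741904)) (b (l 16742760) (l 55465405303))) (l 20031920983))) (a (b (l 16740216) (l 16737632)) (b (a (b (l 62444725143) (l 16740632))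 (b (l 16738760) (b (l 76940238535) (l 16740896)))) (l 16739040)))) (b (l 3) (a (b (a (b (l 3) (l 28621855351)) (l 3)) (b (a (b (l 77477107575) (l 16740128)) (a (l 36674917367) (l 3))) (a (l 16739216) (b (a (l 16739816) (l 56002269175)) (l 16739312))))) (b (l 3) (a (b (l 3) (b (l 3) (l 37211786519))) (l 3))))))))))), by decide +kernel⟩

def k26_pm_102_a : ∃ t, chk3 f_pm_102_a t 31 14 1 = true :=
  ⟨(a (l 3) (l 3)), by decide +kernel⟩

def k27_pm_102_a : ∃ t, chk3 f_pm_102_a t 30 30 1 = true :=
  ⟨(a (b (a (b (a (l 16496120) (l 16537000)) (l 16460320)) (b (a (b (a (l 16587952) (l 16609744)) (l 16561936)) (b (l 16643928) (a (l 16596400) (l 16619720)))) (a (l 16502784) (b (l 16569752) (l 16528944))))) (a (b (l 16377584) (a (l 16248864) (l 16286888))) (b (a (l 16418936) (l 16465160)) (a (l 16328816) (l 16374984))))) (a (a (b (b (l 16673112) (b (a (l 16606384) (l 16631440)) (a (l 16566200) (l 16592288)))) (b (l 16515328) (l 16425616))) (b (b (b (l 16717744) (l 16702832)) (b (l 16669688) (a (l 16618360) (l 16645224))))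 (b (b (a (l 16577208) (b (l 16615312) (l 16594504))) (l 16547784)) (b (l 16503424) (l 16458072))))) (b (a (b (a (l 16724632) (b (l 16731400) (l 16727832))) (b (l 16717032) (l 16685376))) (b (b (a (b (l 16736072) (l 16734048)) (b (a (l 16735104) (b (a (b (a (l 16738968) (l 58149751095)) (l 16738472)) (b (l 16738104) (a (l 59223491703) (l 16738008)))) (a (l 16737672) (b (a (l 16738088) (l 60297232631)) (l 16737608))))) (a (l 16735712) (l 16733672)))) (a (l 16731512) (a (l 16733264) (l 16733952)))) (b (a (l 16729344) (l 16731784)) (l 16729576)))) (b (a (a (b (l 16632832) (l 16591192)) (b (l 16661288) (b (l 16631112) (l 16610304)))) (b (l 16703376) (a (l 16650416) (l 16680504)))) (a (l 595889638882240040643119) (b (l 601208788860595808917551) (l 16582256))))))), by decide +kernel⟩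

def k28_pm_102_a : ∃ t, chk3 f_pm_102_a t 30 62 1 = true :=
  ⟨(a (b (a (b (l 16196032) (a (l 16128072) (l 16165256))) (a (l 16232224) (l 16278992))) (a (b (b (a (l 16089512) (l 16126576)) (a (l 16063408) (l 16100216))) (a (l 16023312) (l 16059888))) (b (a (b (l 16168720) (l 16142576)) (l 16203664)) (a (l 16102584) (b (b (l 16171592) (l 16158680)) (l 16139024)))))) (b (a (a (a (l 16317544) (l 16344944)) (b (l 16411960) (l 16365456))) (a (l 588382966134513887914543) (l 592156190626845146277935))) (a (a (b (l 16258024) (b (l 16221112) (a (l 16181576) (l 16212392)))) (b (l 16319080) (b (l 16284856) (a (l 16245176) (l 16280296))))) (a (l 139949240755978287) (l 140696840102395951))))), by decide +kernel⟩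

def k29_pm_102_a : ∃ t, chk3 f_pm_102_a t 30 63 1 = true :=
  ⟨(a (b (a (b (a (l 15968176) (l 16004688)) (a (l 15911016) (l 15947904))) (b (a (l 16048216) (l 16099672)) (a (l 15992960) (b (l 16060472) (l 16034568))))) (a (b (a (b (l 15866832) (l 15836744)) (b (l 15904408) (l 15875032))) (a (b (c (l 15830768) (l 15781696)) (c (a (l 15792224) (l 15811480)) (l 15748952))) (b (c (l 15873264) (l 15817744)) (c (a (l 15833512) (l 15858616)) (l 15785952))))) (b (a (b (l 15951264) (l 15944472)) (b (l 16009048) (a (l 15967704) (l 16001440)))) (b (a (a (l 15882152) (l 15910592)) (c (a (l 15977104) (l 16015232)) (l 15924528))) (b (a (c (l 15908856) (l 15842280)) (a (l 15945328) (a (l 15952328) (l 15972424)))) (a (c (a (l 15880840) (l 15913648)) (l 15827512)) (c (a (l 15950768) (l 15992704)) (l 15892208)))))))) (b (a (a (b (l 16159992) (c (l 16142728) (l 16083104))) (a (b (l 16211592) (l 16190856)) (a (l 138368761210929199) (l 139288846327463983)))) (b (a (l 139703499793645615) (l 141195605978857519)) (a (l 138897557712011311)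 (l 140088947499778095)))) (a (c (b (a (b (l 16113616) (l 16117184)) (l 137920641457864751)) (a (a (b (l 16057840) (c (b (l 16067504) (l 16061840)) (l 16021904))) (b (l 16105416) (c (l 136913900960170031) (l 16072536)))) (b (l 137700120635179055) (l 137625422561198127)))) (a (b (b (l 16045952) (l 16022456)) (b (l 16000440) (a (l 15957992) (l 16004240)))) (a (b (l 16095952) (b (l 16069992) (l 16098472))) (l 137002205509976111)))) (b (a (l 139312760758353967) (a (l 139674706439094319) (b (l 140455016230420527) (l 140940794242334767)))) (a (a (c (l 138945111687364655) (l 137514509317799983)) (b (l 139096775518994479) (c (b (l 139678760906817583) (a (l 139550667781914671) (l 140602763064737839))) (l 138326979846717487)))) (a (b (c (l 140495079708852271) (l 139152163460153391)) (b (c (l 141782882747269167) (l 139241704961949743)) (c (b (a (l 140562630977699887) (l 14)) (l 14)) (l 139497272716083247)))) (b (c (l 142398197076885551) (l 140074928758587439)) (b (c (l 142662286127136815) (l 140214360612831279))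 (l 14))))))))), by decide +kernel⟩

def k30_pm_102_a : ∃ t, chk3 f_pm_102_a t 124 30 1 = true :=
  ⟨(b (b (a (a (b (b (a (b (l 3) (a (b (l 16737208) (a (l 60834102631) (l 16737104))) (l 3))) (l 3)) (a (b (a (b (l 78013971255) (l 16736712)) (b (l 16736280) (l 38822393495))) (a (l 16736040) (l 87677645143))) (b (l 3) (a (b (l 16735392) (l 40969874775)) (l 3))))) (b (a (l 16724416) (b (a (l 89288256295) (l 42580486407)) (l 96804447767))) (a (l 16733736) (l 16733840)))) (b (l 3) (b (a (b (l 3) (a (l 44191097767) (l 3))) (l 3)) (a (b (a (l 16728680) (l 45801709303)) (l 16728240)) (b (l 3) (a (l 47949191911) (l 3))))))) (l 3)) (a (b (a (l 16722424) (b (a (l 16733120) (a (l 16727648) (b (l 16731080) (l 16732624)))) (l 16727624))) (a (l 16732992) (l 16712384))) (a (b (a (b (b (l 3) (l 31843060503)) (b (l 62981575879) (l 16732328))) (b (l 3) (b (l 3) (l 33453672391)))) (b (a (l 16732648) (b (l 65129058983) (l 16732232))) (l 16712160))) (b (l 3) (a (b (l 23789992887) (l 75329605623)) (b (l 3) (l 24326864071)))))))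 (b (a (a (l 16725608) (l 16736368)) (b (a (l 16734832) (a (l 16734048) (b (l 76403348279) (l 16734096)))) (a (l 16738008) (l 16737192)))) (a (a (l 601354776509208565278767) (l 601332151461588905859119)) (a (l 16715080) (l 16740360))))), by decide +kernel⟩

def k31_pm_102_a : ∃ t, chk3 f_pm_102_a t 125 30 1 = true :=
  ⟨(b (l 3) (b (a (a (b (a (b (l 47412313799) (l 16727928)) (b (l 3) (l 53317895207))) (b (l 84993284807) (l 16736744))) (b (l 3) (a (b (a (l 16722560) (l 140827855799)) (l 16735264)) (b (l 3) (a (l 16734216) (l 140290987111)))))) (l 3)) (a (b (a (l 16740272) (b (l 16734552) (l 16739784))) (a (l 16743920) (l 16743928))) (b (a (a (b (a (l 16735600) (l 150491542327)) (l 16738224)) (b (l 3) (a (l 72645260151) (l 150491545559)))) (l 3)) (a (a (l 16742488) (l 16736192)) (a (b (a (l 120963645687) (l 151028420039)) (l 16741872)) (b (l 3) (a (l 120963649415) (l 165523938535))))))))), by decide +kernel⟩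

def k32_pm_102_a : ∃ t, chk3 f_pm_102_a t 63 30 1 = true :=
  ⟨(b (l 3) (l 3)), by decide +kernel⟩

def k33_pm_102_a : ∃ t, chk3 f_pm_102_a t 31 62 1 = true :=
  ⟨(a (a (b (a (b (l 597061007832684035926063) (l 594594908390457653438511)) (b (l 601719964331746243455023) (l 598669333719463391045679))) (a (l 141549167943680047) (l 598404449716601206843439))) (b (a (b (l 16739208) (a (l 601420638187067470175279) (l 602091926733124868594735))) (b (a (l 16747968) (b (l 76940240103) (l 16747536))) (a (l 16752632) (l 16752224)))) (a (b (b (l 601412134540498756103279) (l 600995353390951006563439)) (l 600812903626756091964527)) (b (a (b (l 16746248) (l 601888436087561794985007)) (b (l 16755664) (l 16758344))) (b (a (l 16752576) (l 601857307206937439034927)) (l 602033847916231296626415)))))) (a (b (a (b (a (a (b (a (l 120963653383) (l 185925037319)) (l 16746016)) (b (l 3) (a (b (l 168745169223) (l 16746072)) (l 184314428983)))) (l 3)) (a (b (a (l 16749208) (l 16745632)) (l 16751912)) (b (a (b (l 183240690631) (a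 (l 16748376) (l 168745179479))) (l 3)) (a (l 82308963351) (a (b (l 167134569191) (l 16750784)) (b (l 3) (l 165523958967))))))) (l 3)) (a (b (a (l 16755752) (b (a (l 16753736) (b (l 16752200) (l 16753768))) (l 16756408))) (a (a (l 602588835901610441285167) (l 602352486993166079155759)) (l 16756008))) (b (a (b (a (a (b (a (l 130090479031) (l 186998797703)) (l 16748064)) (b (l 3) (a (l 129553610727) (l 185388187623)))) (l 3)) (b (a (l 84993328471) (a (b (l 184851318695) (a (l 16754808) (l 168208320279))) (l 3))) (a (l 16756208) (a (l 16753248) (a (l 2498244570109191057015217711) (l 182703838311)))))) (l 3)) (a (b (a (l 16758360) (b (l 603875784531127869283887) (l 16758592))) (l 16755544)) (b (a (a (b (a (l 2304816645343799713690476079) (l 3271957411139506743411318319)) (l 16757032)) (b (l 3) (a (l 2295145279427365717686787631) (l 3252614466592621151438036527)))) (l 3)) (a (a (l 16760312) (l 1550446669020555425256545839)) (a (b (a (l 2275802296257609721384099375) (l 3233271561245066716097519151)) (l 604042093458167414185519))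 (b (l 3) (a (b (l 2904443840055210362132373039) (l 16760984)) (l 3213928670309031088342523439)))))))))) (b (l 3) (l 3)))), by decide +kernel⟩

def k34_pm_102_a : ∃ t, chk3 f_pm_102_a t 124 63 1 = true :=
  ⟨(b (b (a (a (l 141098230635692079) (l 141651422533468207)) (l 142512683907219503)) (a (b (a (l 141099948621987887) (l 141770238524735535)) (l 141521817574408239)) (b (l 142821715441778735) (a (l 142716849498406959) (l 143580241166827631))))) (b (b (a (a (l 141275733089763375) (l 142133421037912111)) (l 143570620440510511)) (b (a (l 142427609078284335) (l 143795470635352111)) (a (l 143311685181079599) (l 143743587428696111)))) (b (c (a (a (l 142732861122461743) (l 143746954658299951)) (a (l 143663185633706095) (l 143686893862617199))) (a (a (l 141050333190488111) (l 142515844952621103)) (a (l 143408373743517743) (l 143658581435433071)))) (b (b (a (c (a (l 142875728980344879) (l 143744480762085423)) (l 143559075408592943)) (a (c (l 143766402283356271) (l 143742762781343791)) (c (l 143790454108553327)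 (l 143769838263664751)))) (l 14)) (l 14))))), by decide +kernel⟩

def k35_pm_102_a : ∃ t, chk3 f_pm_102_a t 125 126 1 = true :=
  ⟨(b (a (l 600239613791014285995119) (b (l 602549492095381873569519) (l 602167010426360728186607))) (a (a (b (l 143931122891456623) (l 143978401861206127)) (l 143764959177720047)) (b (l 601810181267689034280687) (l 601821998768636553539311)))), by decide +kernel⟩

def k36_pm_102_a : ∃ t, chk3 f_pm_102_a t 125 254 1 = true :=
  ⟨(b (b (a (l 143773274231210095) (a (l 143941155974643951) (l 143939231839011055))) (a (l 143902191966781551) (a (l 143919028302495983) (l 603030260567449508867823)))) (a (a (l 143809283266658415) (l 143829074445172975)) (b (a (l 602518075095363296193775) (l 602979531992865703898863)) (a (l 602529892487734075403503) (l 602874327856779494633199))))), by decide +kernel⟩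

def k37_pm_102_a : ∃ t, chk3 f_pm_102_a t 250 255 1 = true :=
  ⟨(b (a (c (l 143709639976190191) (l 143685450717839471)) (c (l 143774923510661359) (l 143755338436051183))) (b (b (a (a (l 143755132303016047) (l 143768807483261167)) (a (l 143782551383064815) (l 143841237820735727))) (l 14)) (l 14))), by decide +kernel⟩

def k38_pm_102_a : ∃ t, chk3 f_pm_102_a t 251 510 1 = true :=
  ⟨(b (a (b (l 602486081612189852511471) (l 602428723742527927692527)) (c (l 602696201447071774600943) (l 602645184656405427006703))) (b (a (l 602534792497037376400623) (c (l 602450052674158527917807) (l 602405665183586779081967))) (a (l 143793134197833967) (a (l 143749291179426031) (l 143915523599728879))))), by decide +kernel⟩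

def k39_pm_102_a : ∃ t, chk3 f_pm_102_a t 502 511 1 = true :=
  ⟨(b (c (b (l 143866732754305263) (l 143755613356277999)) (b (l 143855875075653871) (l 143745580311593199))) (a (l 14) (a (l 14) (a (l 14) (a (l 14) (a (l 14) (a (l 14) (a (l 14) (b (c (l 143844330200367343) (l 143835740264988911)) (c (b (l 143833953555661039) (b (c (l 143831479652712687) (l 143826944166953199)) (c (b (l 143829280628474095) (c (b (l 143829349347524847) (c (l 143829280627753199) (l 143828112396402927))) (c (c (l 143827562640883951) (l 143827012885037295)) (c (l 143826463129190639) (l 143825844653867247))))) (b (l 143824676423254255) (c (c (c (l 143825294898020591) (l 143824676422697199)) (c (l 143824126666834159) (l 143823508191510767))) (c (c (l 143822958435664111) (l 143822339960340719)) (c (l 143821790204494063) (l 143821171729170671)))))))) (b (l 143825020023029999) (b (c (l 143822408681193711) (l 143817804475973871)) (c (b (l 143820072218034415) (c (c (c (l 143820621973324015) (l 143820003497672943)) (c (l 143819453741826287)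 (l 143818835266502895))) (b (l 143817735755284719) (c (c (l 143817873193959663) (l 143817323438113007)) (c (l 143816704962625775) (l 143816086487302383)))))) (b (l 143815399293337839) (c (c (c (c (l 143816017767792879) (l 143815742889869551)) (c (l 143815468011946223) (l 143815124414546159))) (c (c (l 143814849536622831) (l 143814574658699503)) (c (l 143814231061299439) (l 143813956183376111)))) (b (l 143812994111111407) (c (c (c (l 143813268988772591) (l 143812994110849263)) (c (l 143812650513449199) (l 143812375635525871))) (c (c (l 143812100757602543) (l 143811757160202479)) (c (l 143811482282098927) (l 143811138684797167)))))))))))))))))))), by decide +kernel⟩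

def k40_pm_102_a : ∃ t, chk3 f_pm_102_a t 2012 1022 1 = true :=
  ⟨(c (l 143796845050151151) (l 143787499200233711)), by decide +kernel⟩

def k41_pm_102_a : ∃ t, chk3 f_pm_102_a t 4024 2046 1 = true :=
  ⟨(c (l 143852645257593071) (l 143843711724847343)), by decide +kernel⟩

def k42_pm_102_a : ∃ t, chk3 f_pm_102_a t 4024 2047 2 = true :=
  ⟨(b (c (l 143844536355799279) (l 143840000870007023)) (b (c (a (l 143831754530914543) (l 143843643001258223)) (a (l 143830036543701231) (l 143838970076561647))) (c (a (a (b (c (l 143831342213005551) (l 143829074470125807)) (c (b (c (l 143830586298351855) (l 143829418067181807)) (c (a (b (l 143829761664286959) (b (l 143829349347328239) (b (l 143829143188848879) (b (l 143829005749879023) (l 143828524713525487))))) (l 143827837519184111)) (a (b (l 143828662152593647) (b (l 143828249835634927) (b (l 143827974957678831) (c (l 143828043677155567) (l 143827493921308911))))) (l 143827012885397743)))) (b (c (l 143828249836011759) (l 143827150324318447)) (c (a (b (l 143827493921423599)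 (b (l 143827081604464879) (b (l 143826806726508783) (c (l 143826944165462255) (l 143826394409615599))))) (c (l 143827219043778799) (l 143826669287932143))) (a (b (l 143826325690253551) (b (l 143825913373294831) (b (l 143825707214815471) (c (l 143825775934292207) (l 143825226178445551))))) (c (l 143826119532085487) (l 143825569776238831))))))) (b (l 143827974959005935) (c (c (l 143832235566268655) (l 143831067335114991)) (c (l 143829967823421679) (l 143828868311728367))))) (c (c (l 143839107515121903) (l 143838008003428591)) (c (l 143836908491735279) (l 143835808980041967)))) (a (a (b (c (l 143826806727262447) (l 143824470264905967)) (c (b (c (l 143825982093132015) (l 143824813861961967)) (c (a (b (l 143825226178560239) (b (l 143824745142124783) (b (l 143824538983661807) (c (l 143824607703122159) (l 143824057947275503))))) (c (l 143825020020392175) (l 143824401545068783))) (a (b (l 143824057947390191) (b (l 143823645630431471) (b (l 143823370752491759) (c (l 143823508191428847) (l 143822889716105455)))))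 (c (l 143823851789222127) (l 143823302033375471))))) (b (c (l 143823714350268655) (l 143822546119098607)) (c (a (b (l 143822889716220143) (b (l 143822477399261423) (b (l 143821858923938031) (c (l 143822339960258799) (l 143821721484935407))))) (c (l 143822752277528815) (l 143822133802205423))) (a (b (l 143821721485050095) (b (l 143821309168091375) (b (c (l 143821309168074991) (l 143820759412228335)) (c (l 143821171729088751) (l 143820553253765359))))) (c (l 143821584046358767) (l 143821034290512111))))))) (b (c (l 143830173982064879) (l 143827906239185135)) (c (c (l 143827768800035055) (l 143826600568865007)) (c (l 143825501057171695) (l 143824332826001647))))) (c (c (l 143834640748871919) (l 143833541237178607)) (c (l 143832441725485295) (l 143831273494315247))))))), by decide +kernel⟩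

def k43_pm_102_a : ∃ t, chk3 f_pm_102_a t 4024 2047 6 = true :=
  ⟨(b (l 143835396664738031) (b (a (l 143823989229453551) (l 143834297151848687)) (a (a (b (c (l 143822202522042607) (l 143819866059702511)) (a (c (b (l 143820621973537007) (b (c (l 143820553253880047) (l 143819385022709999)) (b (c (l 143820140936921327) (l 143818972705751279)) (b (c (c (l 143820140936904943) (l 143819591181058287)) (c (l 143818972705734895) (l 143818422949888239))) (c (c (l 143820003497918703) (l 143819385022595311)) (c (l 143818835266748655) (l 143818216791425263))))))) (b (l 143818285511180527) (a (b (l 143817529596674287) (b (c (l 143817804474499311) (l 143816636243329263)) (b (c (l 143817598316036335) (l 143816430084866287)) (c (c (l 143817735754973423) (l 143817117279650031)) (c (l 143816567523803375) (l 143815949048479983)))))) (c (c (l 143818216791556335) (l 143817598316232943)) (c (l 143817048560386287) (l 143816430085062895)))))) (b (c (l 143821034290610415) (l 143818697828270319)) (c (c (c (l 143820415815188719)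 (l 143819866059342063)) (c (l 143819316303495407) (l 143818697828172015))) (c (c (l 143818148072325359) (l 143817529597001967)) (c (l 143816979841155311) (l 143816430085308655))))))) (b (c (l 143825569776845039) (l 143823233314504943)) (c (c (l 143823233314308335) (l 143822065083138287)) (c (l 143820896851968239) (l 143819797340274927))))) (c (c (l 143830173982621935) (l 143829005751451887)) (c (l 143827906239086831) (l 143826738007933167)))))), by decide +kernel⟩

def k44_pm_102_a : ∃ t, chk3 f_pm_102_a t 4024 2047 7 = true :=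
  ⟨(b (l 143830723740008687) (a (a (b (l 143818766548779247) (b (c (l 143817460877869295) (l 143815124415529199)) (a (c (b (l 143815949048840431) (a (b (l 143815193134334191) (b (c (l 143815399292682479) (l 143814231061512431)) (c (c (c (l 143815605451079919) (l 143815261853679855)) (c (l 143814986975756527) (l 143814712097833199))) (c (c (l 143814368500433135) (l 143813406427742447)) (c (l 143813818744586479) (l 143813475147186415)))))) (c (c (l 143815880329216239) (l 143815261853892847)) (c (l 143814712098046191) (l 143814093622722799))))) (b (l 143813543867023599) (a (b (l 143812787952517359) (b (c (l 143813062830342383) (l 143811825879695599)) (c (c (c (l 143813200269263087) (l 143812925391339759)) (c (l 143812581793939695) (l 143812306916016367))) (c (c (l 143811963318616303) (l 143811688440692975)) (c (l 143811413562769647) (l 143811069965205743)))))) (c (c (l 143813475147399407) (l 143811482282541295)) (c (l 143810863807217903) (l 143810314051371247)))))) (b (c (l 143816361365930223) (l 143814024903590127))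 (c (c (c (l 143815811609985263) (l 143815261854138607)) (c (l 143814643378815215) (l 143814093622968559))) (c (c (l 143813475147645167) (l 143812925391798511)) (c (l 143812306916475119) (l 143811757160628463)))))))) (b (l 143822820998185199) (b (c (l 143820896852148463) (l 143818491670331631)) (c (c (l 143818629109104879) (l 143817460877263087)) (c (l 143816292646093039) (l 143815124414922991)))))) (b (l 143829486788198639) (c (c (l 143825569776763119) (l 143824470265069807)) (c (l 143823302033899759) (l 143822133802729711)))))), by decide +kernel⟩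

def k45_pm_102_a : ∃ t, chk3 f_pm_102_a t 4025 1023 1 = true :=
  ⟨(b (c (l 143829486795079919) (l 143819522470199535)) (b (c (c (l 143863502933131503) (l 143858761288925423)) (c (l 143853882205782255) (l 143849003122622703))) (a (c (b (c (l 143850789828100335) (l 143846254342373615)) (c (c (l 143845635866001647) (l 143843436842615023)) (c (l 143841237819244783) (l 143839038795858159)))) (b (c (l 143841650137153775) (l 143836908492996847)) (c (c (l 143836839772487919) (l 143834640749117679)) (c (l 143832373006254319) (l 143830105263243503))))) (c (c (c (l 143855806350213359) (l 143853607326843119)) (c (l 143851477022933231) (l 143849277999562991))) (c (c (l 143847010256716015) (l 143844811233329391)) (c (l 143842543490482415) (l 143840275747619055))))))), by decide +kernel⟩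

def k46_pm_102_a : ∃ t, chk3 f_pm_102_a t 2013 511 1 = true :=
  ⟨(b (c (l 143838763933466863) (l 143827768816189679)) (b (c (b (l 143906590051795183) (l 143894701580697839)) (b (l 143896075971100911) (l 143884874694869231))) (b (c (l 143859860804501743) (c (l 143875528844804335) (l 143870924639600879))) (a (c (c (b (l 143868313297895663) (c (l 143863159335780591) (l 143861097752051951))) (b (l 143864052690092271) (c (l 143859036167635183) (l 143856974583234799)))) (c (c (b (l 143860754155028719) (l 143854912998818031)) (l 143855668912718063)) (c (l 143842199895081199) (l 143840069591187695)))) (c (c (c (l 143880201768927471) (l 143878140185198831)) (c (l 143876147320275183) (l 143874154455351535))) (c (c (l 143872092870951151) (l 143870031286550767)) (c (l 143867969702150383) (l 143865839398273263)))))))), by decide +kernel⟩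

def k47_pm_102_a : ∃ t, chk3 f_pm_102_a t 1007 511 1 = true :=
  ⟨(a (c (b (l 143873604711973103) (b (l 143928236691095791) (b (l 143909957308104943) (a (c (c (l 143893945667469551) (l 143892021522039023)) (c (l 143890097376592111) (l 143888173231161583))) (c (c (l 143907620845830383) (l 143905765419892975)) (a (l 143899580665577711) (l 143906521334661359))))))) (b (l 143862197277917423) (b (l 143918822122209519) (b (l 143879170982101231) (b (c (l 143895182619279599) (l 143891265608941807)) (c (a (a (l 143878896100032751) (l 143885974208086255)) (l 143896557009092847)) (c (l 143886661403050223) (l 143884805976768751)))))))) (b (l 143941430828892399) (b (c (l 143955037291954415) (l 143946447356903663)) (c (b (l 143937170225856751) (c (b (l 143930023399293167) (a (l 143917310293819631) (l 143930848033538287))) (b (l 143926587425341679) (c (l 143921708341838063) (l 143920059074347247))))) (b (l 143929679802597615) (a (c (l 143913393283760367) (l 143909819871199471)) (c (l 143927274620911855) (l 143923907366469871)))))))),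 by decide +kernel⟩

def k48_pm_102_a : ∃ t, chk3 f_pm_102_a t 63 126 1 = true :=
  ⟨(a (a (b (a (l 603011813644567752109679) (b (l 602960220389025888890479) (l 603041213172347164552815))) (b (l 603521693270071326600815) (l 602487522571381181771375))) (b (a (b (l 16762704) (a (l 603570404148046948101743) (l 603363166689975357189743))) (b (a (l 16762696) (b (a (l 16761944) (l 603966865329991819779631)) (l 16763072))) (l 603142670281794995187311))) (a (b (l 602574280024141687320175) (l 143952632141742191)) (b (a (l 603103759222521039777391) (l 143866251748933743)) (b (l 603049860177502506708591) (l 143944729401606255)))))) (a (a (b (b (a (a (b (a (b (l 2875429541697566572524576303) (l 16759536)) (b (l 3) (l 2865757906285730874668998191))) (l 603892645870144047050351)) (b (l 3) (b (a (l 2846415147791408777723129455) (l 3)) (a (l 16761992) (l 2836743702611633778222575215))))) (l 3)) (a (b (a (l 16764120) (l 143997986978791535)) (l 16765176)) (b (a (b (a (c (l 2826468566402994125494288495) (l 2836139972959911571208781935))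 (l 3)) (a (l 16763112) (a (l 2352569645114066635836833903) (l 3203653422122764544037257327)))) (l 3)) (a (l 1569185714003799368853831791) (b (a (a (l 2342898238557155924632191087) (l 3193982015565853832832614511)) (l 3)) (a (l 16765192) (a (l 2333226832000245144708055151) (l 3184310609008931027000049775)))))))) (b (a (l 16766424) (b (a (l 16766208) (a (l 16766256) (l 144021695204065391))) (l 16767184))) (a (a (l 143893808220913775) (l 143886180401217647)) (l 144058047812665455)))) (b (l 3) (b (a (b (a (b (a (a (l 2323555425443332646796984431) (l 3164967795895103557275648111)) (l 3)) (a (l 89825192567) (a (a (l 2072098854963494657542389871) (l 2478297930354009166890205295)) (l 3155296389338190990645100655)))) (l 3)) (a (a (l 16767288) (l 1588528527117652951985061999)) (b (a (b (l 3155296389338194976375914607) (a (l 16765976) (l 2874825599187612690156273775))) (l 3)) (a (l 144030903618027631) (a (b (l 2865154192630697855782420591) (l 16766496)) (b (l 3) (l 2855482786073783021408567407))))))) (l 3)) (a (b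 (a (l 16768200) (b (a (l 16768080) (l 144035164226650223)) (l 16768544))) (l 144056398546878575)) (b (a (b (a (a (b (l 2845811379516868187034714223) (l 16767672)) (b (l 3) (l 2836139972959953352660844655))) (l 3)) (a (l 144039424835256431) (a (b (l 2836139972959955551684640879) (l 16768184)) (b (l 3) (c (l 2816797159846123409035198575) (l 2826468566403040854749724783)))))) (l 3)) (a (b (a (l 16769080) (l 144043685443829871)) (l 6)) (l 6))))))) (b (l 3) (l 3)))), by decide +kernel⟩

def k49_pm_102_a : ∃ t, chk3 f_pm_102_a t 63 254 1 = true :=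
  ⟨(a (a (a (b (a (l 143997849560727663) (l 144019221320532079)) (b (b (l 143958748161949807) (l 144045884437397615)) (l 144013311400476783))) (b (l 144026505545384047) (b (l 143987266732572783) (b (l 144008157478273135) (l 144010493916758127))))) (b (a (l 143980532217413743) (l 143957579910545519)) (a (b (l 143934765056852079) (b (l 143910507087347823) (a (l 143918822146130031) (l 143881782340550767)))) (b (l 143905490559746159) (l 143865976855249007))))) (a (a (b (b (a (l 143934971236728943) (l 143905490556485743)) (l 143872161618722927)) (b (l 143932566026666095) (l 143943355007271023))) (a (b (b (l 16769720) (l 6)) (l 6)) (l 6))) (l 6))), by decide +kernel⟩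

def k50_pm_102_a : ∃ t, chk3 f_pm_102_a t 63 255 1 = true :=
  ⟨(b (a (a (a (b (c (l 143974141292478575) (l 143959504042541167)) (l 143918478509211759)) (l 144036744770715759)) (b (b (a (a (l 16774488) (l 143884324960518255)) (a (l 143842543510257775) (l 144012280655790191))) (a (l 143942530364719215) (a (l 143850102652797039) (b (l 143909888611205231) (l 143912912268017775))))) (a (l 143986510825799791) (a (l 143984174358364271) (l 143954212680663151))))) (l 6)) (a (a (b (a (c (l 143875322693681263) (l 143866732758630511)) (c (l 143972354612674671) (l 143967612968878191))) (b (a (a (c (l 143904459764318319) (l 143897175499489519)) (c (l 143955793217437807) (l 143950226934431855))) (c (l 144030147699425391) (l 144027330201256047))) (a (a (a (c (b (l 143963902107205871) (c (b (l 143956755280625903) (c (l 143951670038741231) (l 143950226929631471))) (a (l 143944179614761199) (l 143957648634642671)))) (b (l 143957236317765871) (a (c (l 143941087238242543) (l 143937926142247151)) (c (l 143954831136063727)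 (l 143951876198547695))))) (c (b (l 143990290391072879) (c (b (l 143983074844999791) (c (l 143977989603213423) (l 143976821371945071))) (a (l 143971048935047407) (l 143984380515942511)))) (b (l 143984449235484911) (a (c (l 143968437594931439) (l 143965688815861999)) (c (l 143981906614812911) (l 143979432713666799)))))) (c (b (a (l 144016266357997679) (l 144041898727489647)) (c (a (b (l 144009050811924591) (a (c (l 143997505937981551) (l 143996475145863279)) (l 144009944165646447))) (l 144031934399316079)) (a (a (a (l 143994344841871471) (l 144000873193341039)) (l 144010768798433391)) (l 144030285134692463)))) (a (b (l 144011318555738223) (a (c (b (l 143997986975088751) (l 143992764294250607)) (l 143993039172518127)) (c (l 144008707215556719) (l 144006645631352943)))) (c (l 144033721103908975) (l 144031796958675055))))) (a (c (a (c (l 144062583288479855) (l 144061208904482927)) (a (l 144080725236514927) (l 144093232186212463))) (c (a (l 144059765795651695) (l 144085535604064367)) (l 143981356869861487)))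 (a (c (l 144111855163736175) (l 144110755651387503)) (c (l 144136525458980975) (l 144136456740257903))))))) (a (b (l 144088146953732207) (a (a (c (l 144080450371518575) (l 144080725250244719)) (c (l 144102440608415855) (l 144103883718410351))) (b (l 144142229189001327) (c (b (l 144123606206644335) (l 144110961826496623)) (l 144119895358062703))))) (a (b (b (l 144031728243261551) (l 144066362882097263)) (l 6)) (l 6)))) (l 6))), by decide +kernel⟩

theorem s51_pm_102_a : ∃ t, chk3 f_pm_102_a t 63 127 1 = true := ex3_b k49_pm_102_a k50_pm_102_a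

theorem s52_pm_102_a : ∃ t, chk3 f_pm_102_a t 63 63 1 = true := ex3_b k48_pm_102_a s51_pm_102_a

theorem s53_pm_102_a : ∃ t, chk3 f_pm_102_a t 4024 2047 3 = true := ex3_c k43_pm_102_a k44_pm_102_a

theorem s54_pm_102_a : ∃ t, chk3 f_pm_102_a t 4024 2047 1 = true := ex3_c k42_pm_102_a s53_pm_102_a

theorem s55_pm_102_a : ∃ t, chk3 f_pm_102_a t 4024 1023 1 = true := ex3_b k41_pm_102_a s54_pm_102_a

theorem s56_pm_102_a : ∃ t, chk3 f_pm_102_a t 2012 1023 1 = true := ex3_a s55_pm_102_a k45_pm_102_a

theorem s57_pm_102_a : ∃ t, chk3 f_pm_102_a t 2012 511 1 = true := ex3_b k40_pm_102_a s56_pm_102_a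

theorem s58_pm_102_a : ∃ t, chk3 f_pm_102_a t 1006 511 1 = true := ex3_a s57_pm_102_a k46_pm_102_a

theorem s59_pm_102_a : ∃ t, chk3 f_pm_102_a t 503 511 1 = true := ex3_a s58_pm_102_a k47_pm_102_a

theorem s60_pm_102_a : ∃ t, chk3 f_pm_102_a t 251 511 1 = true := ex3_a k39_pm_102_a s59_pm_102_a

theorem s61_pm_102_a : ∃ t, chk3 f_pm_102_a t 251 255 1 = true := ex3_b k38_pm_102_a s60_pm_102_a

theorem s62_pm_102_a : ∃ t, chk3 f_pm_102_a t 125 255 1 = true := ex3_a k37_pm_102_a s61_pm_102_a

theorem s63_pm_102_a : ∃ t, chk3 f_pm_102_a t 125 127 1 = true := ex3_b k36_pm_102_a s62_pm_102_a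

theorem s64_pm_102_a : ∃ t, chk3 f_pm_102_a t 125 63 1 = true := ex3_b k35_pm_102_a s63_pm_102_a

theorem s65_pm_102_a : ∃ t, chk3 f_pm_102_a t 62 63 1 = true := ex3_a k34_pm_102_a s64_pm_102_a

theorem s66_pm_102_a : ∃ t, chk3 f_pm_102_a t 31 63 1 = true := ex3_a s65_pm_102_a s52_pm_102_a

theorem s67_pm_102_a : ∃ t, chk3 f_pm_102_a t 31 31 1 = true := ex3_b k33_pm_102_a s66_pm_102_a

theorem s68_pm_102_a : ∃ t, chk3 f_pm_102_a t 62 30 1 = true := ex3_a k30_pm_102_a k31_pm_102_a

theorem s69_pm_102_a : ∃ t, chk3 f_pm_102_a t 31 30 1 = true := ex3_a s68_pm_102_a k32_pm_102_a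

theorem s70_pm_102_a : ∃ t, chk3 f_pm_102_a t 31 15 1 = true := ex3_b s69_pm_102_a s67_pm_102_a

theorem s71_pm_102_a : ∃ t, chk3 f_pm_102_a t 30 31 1 = true := ex3_b k28_pm_102_a k29_pm_102_a

theorem s72_pm_102_a : ∃ t, chk3 f_pm_102_a t 30 15 1 = true := ex3_b k27_pm_102_a s71_pm_102_a

theorem s73_pm_102_a : ∃ t, chk3 f_pm_102_a t 15 15 1 = true := ex3_a s72_pm_102_a s70_pm_102_a

theorem s74_pm_102_a : ∃ t, chk3 f_pm_102_a t 30 14 1 = true := ex3_a k24_pm_102_a k25_pm_102_a

theorem s75_pm_102_a : ∃ t, chk3 f_pm_102_a t 15 14 1 = true := ex3_a s74_pm_102_a k26_pm_102_a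

theorem s76_pm_102_a : ∃ t, chk3 f_pm_102_a t 15 7 1 = true := ex3_b s75_pm_102_a s73_pm_102_a

theorem s77_pm_102_a : ∃ t, chk3 f_pm_102_a t 14 15 1 = true := ex3_a k22_pm_102_a k23_pm_102_a

theorem s78_pm_102_a : ∃ t, chk3 f_pm_102_a t 14 7 1 = true := ex3_b k21_pm_102_a s77_pm_102_a

theorem s79_pm_102_a : ∃ t, chk3 f_pm_102_a t 7 7 1 = true := ex3_a s78_pm_102_a s76_pm_102_a

theorem s80_pm_102_a : ∃ t, chk3 f_pm_102_a t 28 6 1 = true := ex3_b k17_pm_102_a k18_pm_102_a

theorem s81_pm_102_a : ∃ t, chk3 f_pm_102_a t 14 6 1 = true := ex3_a s80_pm_102_a k19_pm_102_a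

theorem s82_pm_102_a : ∃ t, chk3 f_pm_102_a t 7 6 1 = true := ex3_a s81_pm_102_a k20_pm_102_a

theorem s83_pm_102_a : ∃ t, chk3 f_pm_102_a t 7 3 1 = true := ex3_b s82_pm_102_a s79_pm_102_a

theorem s84_pm_102_a : ∃ t, chk3 f_pm_102_a t 13 7 1 = true := ex3_b k15_pm_102_a k16_pm_102_a

theorem s85_pm_102_a : ∃ t, chk3 f_pm_102_a t 6 7 1 = true := ex3_a k14_pm_102_a s84_pm_102_a

theorem s86_pm_102_a : ∃ t, chk3 f_pm_102_a t 6 6 1 = true := ex3_a k12_pm_102_a k13_pm_102_a

theorem s87_pm_102_a : ∃ t, chk3 f_pm_102_a t 6 3 1 = true := ex3_b s86_pm_102_a s85_pm_102_a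

theorem s88_pm_102_a : ∃ t, chk3 f_pm_102_a t 3 3 1 = true := ex3_a s87_pm_102_a s83_pm_102_a

theorem s89_pm_102_a : ∃ t, chk3 f_pm_102_a t 6 2 1 = true := ex3_a k9_pm_102_a k10_pm_102_a

theorem s90_pm_102_a : ∃ t, chk3 f_pm_102_a t 3 2 1 = true := ex3_a s89_pm_102_a k11_pm_102_a

theorem s91_pm_102_a : ∃ t, chk3 f_pm_102_a t 3 1 1 = true := ex3_b s90_pm_102_a s88_pm_102_a

theorem s92_pm_102_a : ∃ t, chk3 f_pm_102_a t 5 7 1 = true := ex3_b k7_pm_102_a k8_pm_102_a

theorem s93_pm_102_a : ∃ t, chk3 f_pm_102_a t 5 3 1 = true := ex3_b k6_pm_102_a s92_pm_102_a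

theorem s94_pm_102_a : ∃ t, chk3 f_pm_102_a t 4 3 1 = true := ex3_b k4_pm_102_a k5_pm_102_a

theorem s95_pm_102_a : ∃ t, chk3 f_pm_102_a t 2 3 1 = true := ex3_a s94_pm_102_a s93_pm_102_a

theorem s96_pm_102_a : ∃ t, chk3 f_pm_102_a t 11 2 1 = true := ex3_b k2_pm_102_a k3_pm_102_a

theorem s97_pm_102_a : ∃ t, chk3 f_pm_102_a t 5 2 1 = true := ex3_a k1_pm_102_a s96_pm_102_a

theorem s98_pm_102_a : ∃ t, chk3 f_pm_102_a t 2 2 1 = true := ex3_a k0_pm_102_a s97_pm_102_a

theorem s99_pm_102_a : ∃ t, chk3 f_pm_102_a t 2 1 1 = true := ex3_b s98_pm_102_a s95_pm_102_a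

theorem s100_pm_102_a : ∃ t, chk3 f_pm_102_a t 1 1 1 = true := ex3_a s99_pm_102_a s91_pm_102_a

theorem c_pm_102_a : CertB 536870912 536870912 0 536870912 1040187392 5207648 3 eng mog cd0q1 cd1q2a pd0 false true false .npp 1 0 2
    ndB0q1 ndB1q2a pcB0 cut_pm_102_a xt_pm_102_a :=
  certB0 (fam := false) (s1 := true) (s2 := false) (a := 1) (b := 0) (c := 2) (cn := .npp) (n1 := ndB0q1) (n2 := ndB1q2a) (pc := pcB0) (cut := cut_pm_102_a) (xt := xt_pm_102_a) (P1 := 536870912) (W1 := 536870912) (P2 := 0) (W2 := 536870912) (P3 := 1040187392) (W3 := 5207648) (N0 := 3) (En := eng) (mo := mog) (C1 := cd0q1) (C2 := cd1q2a) (C3 := pd0)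
    rfl s100_pm_102_a

noncomputable def cut_pm_102_b : Cut := Cut.of [[⟨0, 1, 0, 11184810⟩, ⟨1, 0, 0, 11184810⟩, ⟨2, 1, 0, 11184810⟩], [⟨0, 0, 1, 46137344⟩, ⟨1, 1, 2, 46137344⟩, ⟨2, 1, 0, 1048576⟩, ⟨0, 0, 0, 1054867456⟩, ⟨0, 1, 0, 38117834⟩, ⟨1, 0, 0, 38117834⟩, ⟨1, 1, 0, 1054867456⟩]]

noncomputable def f_pm_102_b : ℕ → ℕ → ℕ → ℕ → Bool := onCell 0 536870912 1239849684 370763052 1040187392 5207648
    (rowB 3 eng mog cd0q1 cd1q2b pd0 2 false true false .npp 1 0 2 (qsf 536870912 536870912 1239849684 370763052 0) ndB0q1 ndB1q2b pcB0 cut_pm_102_b Ext.none)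

def k0_pm_102_b : ∃ t, chk3 f_pm_102_b t 1 1 1 = true :=
  ⟨(a (l 3) (b (a (l 3) (b (a (l 3) (a (b (a (l 3) (b (a (b (b (a (b (l 64592221143) (l 3)) (a (l 9831373335) (l 16742992))) (l 60297212103)) (l 3)) (b (a (l 32916782119) (l 16722104)) (a (l 16717696) (l 16692784)))) (l 3))) (l 3)) (b (a (b (b (l 16674064) (a (l 16700488) (l 16679120))) (b (a (l 16667848) (l 16673784)) (l 93583024871))) (b (b (l 16655680) (l 16648952)) (l 16639656))) (b (a (l 98951660903) (a (l 16626240) (l 16615144))) (l 90361592327))))) (l 3))) (a (l 3) (l 3)))), by decide +kernel⟩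

theorem c_pm_102_b : CertB 536870912 536870912 1239849684 370763052 1040187392 5207648 3 eng mog cd0q1 cd1q2b pd0 false true false .npp 1 0 2
    ndB0q1 ndB1q2b pcB0 cut_pm_102_b Ext.none :=
  certB2 (fam := false) (s1 := true) (s2 := false) (a := 1) (b := 0) (c := 2) (cn := .npp) (n1 := ndB0q1) (n2 := ndB1q2b) (pc := pcB0) (cut := cut_pm_102_b) (xt := Ext.none) (P1 := 536870912) (W1 := 536870912) (P2 := 1239849684) (W2 := 370763052) (P3 := 1040187392) (W3 := 5207648) (N0 := 3) (En := eng) (mo := mog) (C1 := cd0q1) (C2 := cd1q2b) (C3 := pd0)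
    rfl (fun _ => rfl) k0_pm_102_b

noncomputable def f_pm_112_a : ℕ → ℕ → ℕ → ℕ → Bool := onCell 536870912 536870912 0 536870912 1040187392 5207648
    (rowB 3 eng mog cd0q1 cd1q2a pd1 2 false true false .dn 1 1 2 (qsf 536870912 536870912 0 536870912 1) ndB0q1 ndB1q2a pcB1 Cut.none Ext.none)

def k0_pm_112_a : ∃ t, chk3 f_pm_112_a t 4 2 1 = true :=
  ⟨(b (a (b (a (a (b (l 16508600) (l 16434344)) (b (l 16475368) (l 16382600))) (b (a (l 16427096) (l 16384928)) (a (b (l 16360352) (a (l 16324800) (b (l 16315840) (a (l 16302576) (l 16304616))))) (b (a (l 16330352) (b (l 16317952) (a (l 16304416) (l 16301328)))) (a (b (a (l 16306288) (l 16302760)) (l 16312448)) (l 16320224)))))) (a (b (a (b (l 16360224) (a (l 16322424) (b (l 16309248) (a (l 16296424) (l 16280528))))) (b (a (l 16322136) (b (l 16311056) (a (l 16297648) (l 16302640)))) (a (b (a (l 16296560) (l 16301504)) (l 16324624)) (l 16330584)))) (a (b (a (b (a (l 16297280) (l 16281704)) (l 16333952)) (l 16339032)) (l 16368824)) (l 16375112))) (a (b (b (a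 (b (a (l 16299664) (l 16304864)) (l 16317664)) (l 16324344)) (l 16351936)) (l 16395160)) (l 16325312)))) (b (a (b (a (b (l 16357056) (a (l 16326664) (b (l 16314080) (a (l 16301704) (l 16299752))))) (b (a (l 16322848) (b (l 16311832) (a (l 16300456) (l 16278952)))) (a (b (a (l 16300888) (l 16278640)) (l 16309120)) (l 16317992)))) (a (b (a (b (a (l 16302880) (l 16300328)) (l 16309776)) (l 16318144)) (l 16342640)) (l 16354728))) (a (b (a (b (b (b (l 16300632) (l 16279512)) (l 16310816)) (l 16333432)) (l 16333888)) (l 16378760)) (l 16378032))) (a (a (l 16407256) (l 16424736)) (a (l 16441032) (l 16456232))))) (a (b (a (a (l 16372240) (l 16427416)) (a (l 16440776) (l 16475232))) (a (a (l 16301240) (l 16292552)) (b (l 16427640) (l 16234336)))) (b (a (b (l 16476424) (l 16515144)) (l 16415080)) (a (b (l 16389792) (l 16219704)) (l 16134832))))), by decide +kernel⟩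

def k1_pm_112_a : ∃ t, chk3 f_pm_112_a t 4 3 1 = true :=
  ⟨(b (a (b (a (a (l 15851872) (b (l 16120640) (l 15904784))) (b (l 16081552) (b (l 15935504) (a (b (l 15866872) (l 15828080)) (l 15863632))))) (a (b (b (a (b (l 15783664) (l 15734168)) (l 15791088)) (l 15767008)) (l 15773824)) (l 15835312))) (b (a (b (l 16050000) (b (a (l 15923464) (l 15939376)) (l 15907352))) (b (a (l 16038672) (l 16002864)) (l 15981664))) (a (l 15899496) (l 15962408)))) (a (b (a (l 15797912) (l 15854824)) (a (l 15854264) (l 15904240))) (b (a (l 15910696) (l 1)) (l 1)))), by decide +kernel⟩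

def k2_pm_112_a : ∃ t, chk3 f_pm_112_a t 5 1 1 = true :=
  ⟨(b (a (b (a (b (a (l 16399824) (l 16419376)) (l 16434720)) (b (l 1) (l 1))) (a (b (l 16425360) (l 16178304)) (l 1))) (l 1)) (b (l 1) (l 1))), by decide +kernel⟩

def k3_pm_112_a : ∃ t, chk3 f_pm_112_a t 3 1 1 = true :=
  ⟨(l 1), by decide +kernel⟩

theorem s4_pm_112_a : ∃ t, chk3 f_pm_112_a t 4 1 1 = true := ex3_b k0_pm_112_a k1_pm_112_a

theorem s5_pm_112_a : ∃ t, chk3 f_pm_112_a t 2 1 1 = true := ex3_a s4_pm_112_a k2_pm_112_a

theorem s6_pm_112_a : ∃ t, chk3 f_pm_112_a t 1 1 1 = true := ex3_a s5_pm_112_a k3_pm_112_a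

theorem c_pm_112_a : CertB 536870912 536870912 0 536870912 1040187392 5207648 3 eng mog cd0q1 cd1q2a pd1 false true false .dn 1 1 2
    ndB0q1 ndB1q2a pcB1 Cut.none Ext.none :=
  certB2 (fam := false) (s1 := true) (s2 := false) (a := 1) (b := 1) (c := 2) (cn := .dn) (n1 := ndB0q1) (n2 := ndB1q2a) (pc := pcB1) (cut := Cut.none) (xt := Ext.none) (P1 := 536870912) (W1 := 536870912) (P2 := 0) (W2 := 536870912) (P3 := 1040187392) (W3 := 5207648) (N0 := 3) (En := eng) (mo := mog) (C1 := cd0q1) (C2 := cd1q2a) (C3 := pd1)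
    rfl (fun _ => rfl) s6_pm_112_a

noncomputable def f_pm_112_b : ℕ → ℕ → ℕ → ℕ → Bool := onCell 536870912 536870912 536870912 536870912 1040187392 5207648
    (rowB 3 eng mog cd0q1 cd1q2b pd1 1 false true false .dn 1 1 2 (qsf 536870912 536870912 1239849684 370763052 1) ndB0q1 ndB1q2b pcB1 Cut.none Ext.none)

def k0_pm_112_b : ∃ t, chk3 f_pm_112_b t 1 2 1 = true :=
  ⟨(a (b (a (b (a (l 1) (a (b (l 1) (a (l 1) (l 294237910247))) (b (b (l 1) (a (l 1) (l 299606880615))) (a (b (l 290479961623) (l 148745979175)) (b (l 153041058439) (l 16488664)))))) (a (a (b (l 1) (b (l 1) (l 274373405831))) (b (b (l 1) (a (l 1) (l 287795189191))) (a (l 231960604407) (b (a (l 242698112727) (l 16281128)) (l 16370856))))) (a (b (a (b (l 272763016567) (l 202969869031)) (l 129955387095)) (b (l 16383232) (l 16381040))) (b (a (l 16440880) (l 16510048)) (l 16529792))))) (b (a (b (a (a (b (l 309270676247) (l 157336140759)) (b (l 161094360567) (l 16583216))) (b (l 16583320) (l 16641904))) (a (a (l 16515080) (l 16586616)) (l 16637528)))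 (a (b (l 16594896) (l 16682136)) (b (b (l 32916255895) (l 58685994375)) (l 92508770759)))) (a (b (a (l 16556496) (l 16659704)) (l 16535528)) (a (l 16602056) (b (l 16488056) (l 16465024)))))) (a (b (a (b (a (l 100964232631) (l 16382504)) (a (l 16477784) (l 16545256))) (b (a (a (l 16442048) (l 16544720)) (l 16587944)) (a (l 16578616) (l 16650896)))) (a (b (l 16500128) (l 16630824)) (b (a (l 16684064) (l 16763536)) (l 16598176)))) (b (a (a (l 16610464) (l 16693288)) (b (l 16504992) (l 16451424))) (a (b (l 16627192) (l 16439568)) (l 16171632))))) (a (b (a (b (b (l 3) (a (l 16340336) (l 3))) (a (b (l 108614564631) (l 16302176)) (l 245516332967))) (l 3)) (a (b (b (a (l 16276040) (l 16135088)) (l 16105800)) (b (l 16125280) (l 16066472))) (b (a (l 249810906103) (l 3)) (a (l 398993649783) (l 2))))) (l 3))), by decide +kernel⟩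

def k1_pm_112_b : ∃ t, chk3 f_pm_112_b t 1 3 1 = true :=
  ⟨(a (b (a (b (a (l 16377896) (l 16180336)) (a (l 16120144) (l 16004024))) (b (a (b (l 16349392) (l 16175640)) (l 16121008)) (a (l 15864088) (l 15664936)))) (b (a (a (l 15905184) (l 15747656)) (a (l 15603232) (l 2))) (a (a (l 15778400) (l 15584632)) (l 2)))) (b (a (b (a (l 15942624) (l 2)) (l 2)) (l 2)) (l 2))), by decide +kernel⟩

theorem s2_pm_112_b : ∃ t, chk3 f_pm_112_b t 1 1 1 = true := ex3_b k0_pm_112_b k1_pm_112_b

theorem c_pm_112_b : CertB 536870912 536870912 1239849684 370763052 1040187392 5207648 3 eng mog cd0q1 cd1q2b pd1 false true false .dn 1 1 2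
    ndB0q1 ndB1q2b pcB1 Cut.none Ext.none :=
  certB1 (fam := false) (s1 := true) (s2 := false) (a := 1) (b := 1) (c := 2) (cn := .dn) (n1 := ndB0q1) (n2 := ndB1q2b) (pc := pcB1) (cut := Cut.none) (xt := Ext.none) (P1 := 536870912) (W1 := 536870912) (P2 := 1239849684) (W2 := 370763052) (P3 := 1040187392) (W3 := 5207648) (N0 := 3) (En := eng) (mo := mog) (C1 := cd0q1) (C2 := cd1q2b) (C3 := pd1)
    rfl (fun _ => rfl) s2_pm_112_b

noncomputable def cut_pm_113 : Cut := Cut.of [[⟨0, 1, 0, 15728640⟩, ⟨1, 1, 0, 15728640⟩, ⟨2, 2, 0, 524288⟩]]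

noncomputable def xt_pm_113 : Ext := extD3 3 ⟨4, 1, 1, 5, 33, 5, 163, 200, 81, 200, 1, 64⟩ eng cd0q1 cd1q3 pd1 false true false .nn 1 1 3 rfl ndB0q1 ndB1q3 pcB1

noncomputable def f_pm_113 : ℕ → ℕ → ℕ → ℕ → Bool := onCell 536870912 536870912 536870912 536870912 1040187392 5207648
    (rowB 3 eng mog cd0q1 cd1q3 pd1 1 false true false .nn 1 1 3 (qsf 536870912 536870912 1610612736 536870912 1) ndB0q1 ndB1q3 pcB1 cut_pm_113 xt_pm_113)

def k0_pm_113 : ∃ t, chk3 f_pm_113 t 1 2 1 = true :=
  ⟨(a (b (l 1) (a (l 1) (b (l 1) (a (l 1) (b (l 1) (l 16295592)))))) (a (b (a (l 1) (l 3)) (a (b (b (l 1) (l 286720762183)) (b (l 16072760) (l 16032448))) (b (a (l 249810667543) (l 3)) (a (b (l 15853944) (l 15828712)) (l 260010863847))))) (l 3))), by decide +kernel⟩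

def k1_pm_113 : ∃ t, chk3 f_pm_113 t 2 3 1 = true :=
  ⟨(b (a (b (l 1) (a (l 1) (l 16141448))) (b (a (b (l 1) (l 16248952)) (l 15964232)) (a (l 15764256) (b (l 15961712) (l 15810552))))) (b (a (a (l 16122096) (l 15921552)) (a (l 15762600) (b (l 15656496) (l 15521744)))) (a (a (l 16061264) (l 15834680)) (a (l 15603064) (l 15371408))))), by decide +kernel⟩

def k2_pm_113 : ∃ t, chk3 f_pm_113 t 3 6 1 = true :=
  ⟨(a (b (a (l 15728112) (b (a (l 15797512) (l 15684384)) (l 15697712))) (a (l 15550736) (b (l 15637968) (l 15556552)))) (a (a (b (b (l 3) (l 355574109831)) (b (l 15572552) (l 15483488))) (b (l 3) (a (b (l 393154841463) (l 15455016)) (b (l 3) (l 446305038455))))) (l 3))), by decide +kernel⟩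

def k3_pm_113 : ∃ t, chk3 f_pm_113 t 6 7 1 = true :=
  ⟨(b (b (a (l 15534768) (l 15453128)) (a (l 15379144) (l 15325768))) (b (a (l 15226744) (b (l 15223016) (l 15150840))) (a (l 15100872) (a (l 15017240) (l 15051920))))), by decide +kernel⟩

def k4_pm_113 : ∃ t, chk3 f_pm_113 t 7 14 1 = true :=
  ⟨(a (b (a (l 15419008) (a (l 15412952) (l 290612465895))) (a (l 15332600) (b (l 15459784) (l 15353144)))) (a (b (a (l 471000854327) (l 3)) (a (b (l 305644787303) (l 15419568)) (a (b (l 482275201639) (l 329804071047)) (l 8039356700567388017474453519)))) (l 3))), by decide +kernel⟩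

def k5_pm_113 : ∃ t, chk3 f_pm_113 t 14 15 1 = true :=
  ⟨(b (a (b (l 15267336) (l 15224608)) (b (l 15545144) (a (l 15299344) (l 15369920)))) (a (l 15140064) (a (l 15255728) (a (l 15339576) (l 15409464))))), by decide +kernel⟩

def k6_pm_113 : ∃ t, chk3 f_pm_113 t 15 30 1 = true :=
  ⟨(a (b (a (l 15433144) (a (l 15502832) (l 303497563303))) (a (l 15468856) (b (l 15585656) (l 15635760)))) (a (b (l 8474569995630607528212987919) (a (b (l 297592278999) (l 15785360)) (b (l 502676966711) (a (l 228336220951) (l 495161071223))))) (l 3))), by decide +kernel⟩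

def k7_pm_113 : ∃ t, chk3 f_pm_113 t 30 31 1 = true :=
  ⟨(a (b (l 15516824) (l 15586336)) (b (a (l 15668432) (l 15798400)) (a (l 15824640) (l 16050376)))), by decide +kernel⟩

def k8_pm_113 : ∃ t, chk3 f_pm_113 t 62 31 1 = true :=
  ⟨(b (a (l 135164852512063503) (a (l 136706093240467535) (b (a (l 170354536519) (l 4722064251552737651719389215)) (l 16365600)))) (a (l 16372568) (l 142375245039616079))), by decide +kernel⟩

def k9_pm_113 : ∃ t, chk3 f_pm_113 t 63 62 1 = true :=
  ⟨(a (b (a (b (l 3) (c (l 8358513116954637048371773519) (l 8551941248091651705051709519))) (l 3)) (b (a (a (l 4441593461404911360847478863) (c (b (l 8097385139920173614446428383) (a (l 314773836663) (b (l 438790974855) (l 6501603058031366623406063839)))) (b (l 462949695479) (b (l 7710528877642295803589279823) (b (l 7294658395695277333692334159) (l 5708547720362387438911078479)))))) (c (l 8271470457946963214466760927) (l 8580955467766559784511504479))) (b (a (c (l 143029591924703455) (l 141113280286244943)) (a (b (a (c (a (l 6859445100637297477804048607)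 (l 443623139495)) (c (l 7604143405519046825932734687) (l 7768557316985346460230811727))) (l 3)) (a (a (l 16752488) (c (b (l 402820935319) (l 350744475511)) (c (l 6617659936714396106941366495) (l 6308174926891721453609091151)))) (a (c (l 437180668487) (c (l 430738214215) (l 7913628415340271154587238479))) (l 3)))) (l 3))) (a (l 16710784) (a (a (l 16765728) (b (a (c (b (l 384030454439) (l 16779968)) (a (l 332490735959) (b (c (l 406042180711) (l 388325359447)) (l 16778880)))) (b (c (l 454360557639) (l 453286794503)) (c (a (l 391009795991) (l 443623141751)) (c (a (l 391009795783) (l 443086270615)) (a (b (l 412484631015) (l 363092479127)) (l 442549399543)))))) (a (l 16783216) (c (b (l 374903650167) (l 16780624)) (c (l 6482260244917617013070741727) (b (a (l 16779176) (l 6820759474409753726479450335)) (l 16780472))))))) (a (b (l 3) (a (c (b (l 443623140615) (a (l 368998085351) (l 427517015703))) (c (b (l 443086269479) (a (l 375977411591) (l 426980144583))) (b (a (l 434496315543) (l 3)) (a (l 6491931651474101045045903439)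 (b (l 452213076231) (l 7468743713723222245756993759)))))) (l 3))) (l 3))))))) (l 3)), by decide +kernel⟩

def k10_pm_113 : ∃ t, chk3 f_pm_113 t 126 63 1 = true :=
  ⟨(b (a (l 143597970850480207) (b (b (b (a (l 143525678027030607) (b (a (a (c (l 355039442903) (c (l 355576313639) (l 6047046949855956953734332495))) (a (c (l 419463952743) (c (l 418390210727) (b (l 440401916887) (a (l 371145570023) (l 424295790791))))) (l 3))) (l 3)) (a (a (l 16781304) (c (a (l 16775952) (l 411410884583)) (c (a (l 353428830535) (b (l 429127628631) (l 391546666983))) (a (l 353965701319) (b (l 428590752327) (l 6946487759649729036719980767)))))) (c (l 464024209431) (c (l 463487338295) (l 462950467239)))))) (a (l 16773104) (a (c (l 16761896) (l 144021420345131103)) (a (c (b (a (l 399062854391) (l 449528721815)) (a (l 16779376) (l 391546662439))) (c (b (a (l 7188272923572642502158254175) (l 448454979799)) (l 6540288684259204700486271071)) (b (a (b (a (l 395841633639) (l 444696884839)) (l 371145570071)) (l 447918103511)) (a (l 16779248)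 (b (a (l 373829924791) (l 426980145559)) (l 359334410855)))))) (b (l 3) (a (b (l 3) (c (l 432885725431) (c (l 431811983431) (l 7768557316987730407993589855)))) (l 3))))))) (a (l 16779896) (a (l 16768648) (b (b (a (l 16775432) (c (a (l 384030470519) (l 432885725191)) (c (a (l 384030470359) (l 431811977959)) (a (b (l 6965830572763597188376019039) (l 16778408)) (b (l 458118656679) (a (l 400136601255) (l 447381239735))))))) (c (l 353965701207) (c (l 6337189146563956344985960543) (l 6395217585905477374508400735)))) (l 16763528))))) (l 143772243506266191))) (l 143541208483102799)), by decide +kernel⟩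

def k11_pm_113 : ∃ t, chk3 f_pm_113 t 254 252 1 = true :=
  ⟨(a (b (l 3) (a (a (a (b (b (l 3) (b (c (l 447381239575) (c (l 446844368503) (l 445770626567))) (c (l 409263407031) (c (l 408189665047) (a (l 376514279735) (l 430201371447)))))) (c (l 352891960311) (c (l 353428831095) (l 353428831015)))) (b (l 3) (b (b (c (l 435570080391) (c (l 434496338407) (l 7826585756329261333121204319))) (c (l 396915376919) (c (l 395841634951) (l 6985173385877461491741524063)))) (c (l 16779280) (l 16773952))))) (b (l 3) (b (c (l 465634847351) (c (l 465097976279) (l 464561105255))) (a (b (c (l 423758921191) (a (c (l 395841632359) (l 403357827159)) (l 8126399359593668134130073695))) (c (l 373293054695) (c (l 374903667303) (l 374366796311)))) (c (l 455434302599) (c (l 454360560631) (l 453823684375))))))) (l 3))) (l 3)), by decide +kernel⟩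

def k12_pm_113 : ∃ t, chk3 f_pm_113 t 254 253 1 = true :=
  ⟨(a (b (b (a (a (l 16783496) (b (c (c (l 387788563383) (l 6598317123600758440480538719)) (c (l 6733716815397613057124581471) (a (l 16779608) (b (a (l 377051151223) (l 432885726423)) (l 361481895287))))) (l 16770496))) (a (b (a (a (c (l 439865047863) (c (l 438791305895) (l 7894285602227706405428215903))) (l 3)) (l 3)) (a (a (c (l 16778776) (l 6375874772791699726405419103)) (c (l 395841633063) (c (l 6936816353092893229744947295) (l 6946487759649824625513152607)))) (b (c (l 465634850583) (a (l 462950496663) (l 3))) (c (l 426443276279) (a (b (l 7478415120280251841657634911) (l 373829926503)) (l 453823691799)))))) (l 3))) (a (l 16765216) (a (c (l 355039444071) (c (l 6414560399019371777005453407) (l 6424231805576298568568733791))) (a (c (b (b (l 453286820935) (l 414095246663)) (l 356113187415)) (b (a (b (l 8010342480910693901209895007) (l 6791745254739148242861932639)) (c (l 447381241127) (l 447381238423))) (l 6433903212133219037941809247))) (b (l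 3) (b (c (l 441475662199) (c (l 439865049351) (l 7923299821898475441406263391))) (c (l 401210346087) (c (l 400136604167) (l 7014187605548258359107977311))))))))) (a (l 16772160) (b (c (l 144136594185240671) (l 144133364380500063)) (l 16767576)))) (b (a (b (l 3) (a (b (l 3) (c (l 472077300455) (c (l 471540429431) (l 471003547959)))) (l 3))) (l 3)) (a (a (b (c (b (a (b (l 428590761575) (l 373293056967)) (l 461339885079)) (l 6724045408840719044754309215)) (a (a (c (l 6588645717043903529492611167) (l 6598317123600829565141663839)) (b (b (l 457044918967) (l 6975501979320586789544673375)) (l 16780424))) (b (c (l 460266143159) (l 459729266919)) (b (a (l 377588024567) (l 7903957008784628730229014623)) (l 361481898007))))) (l 16772944)) (b (b (l 3) (a (b (l 3) (c (l 444160018183) (a (l 7536443559621783866298450015) (l 3)))) (l 3))) (c (b (a (l 6772402441625310602655023199) (b (l 472077304551) (l 431811988327))) (l 359871285223)) (b (a (c (l 6791745254739163086270021727) (l 6811088067853006017877770335)) (b (l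 470466691703) (a (l 7188272923572766815693537375) (l 460266145735)))) (a (l 16781984) (l 6627331343271568914306138207)))))) (b (l 3) (a (b (l 3) (a (b (c (l 459729274647) (a (l 450602469863) (l 3))) (c (l 419463958423) (a (l 378124896807) (l 441475664887)))) (l 3))) (l 3)))))), by decide +kernel⟩

def k13_pm_113 : ∃ t, chk3 f_pm_113 t 255 126 1 = true :=
  ⟨(l 3), by decide +kernel⟩

def k14_pm_113 : ∃ t, chk3 f_pm_113 t 254 127 1 = true :=
  ⟨(b (a (l 16756800) (b (a (l 16767400) (b (c (a (b (a (l 356113189831) (b (l 447381244695) (l 407115928455))) (l 16771696)) (b (l 480130366503) (a (b (l 435033214695) (l 374366800807)) (l 468856079927)))) (a (b (a (l 357723802487) (b (a (l 7565457779292527269911101535) (l 3)) (a (l 358260674087) (l 7381701054711101298894061663)))) (l 16776912)) (b (a (l 475835395495) (l 3)) (a (b (a (l 7197944330129675534035435615) (l 463487372119)) (l 375977413479)) (b (l 3) (l 461876756407)))))) (a (l 16764424) (b (a (l 16776528) (c (l 6965830572763642268357361759) (b (a (l 378661768471)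 (l 444696891111)) (l 362018770663)))) (l 16772560))))) (l 16770864))) (l 143682908126265423)), by decide +kernel⟩

def k15_pm_113 : ∃ t, chk3 f_pm_113 t 510 127 1 = true :=
  ⟨(b (b (a (b (l 3) (a (b (a (b (l 3) (c (l 451139341719) (a (l 435033215127) (l 3)))) (l 3)) (c (a (l 6782073848182216228621189215) (b (l 479593498823) (l 438791311559))) (a (b (l 7052873231775910962099896415) (l 16781016)) (b (l 478519756935) (a (l 415168990887) (l 467245468999)))))) (l 3))) (l 3)) (b (a (a (a (l 16762648) (b (c (l 366313737575) (l 6627331343271549191817855071)) (l 16782944))) (b (a (b (c (l 467782339527) (l 466171724103)) (c (l 426980149607) (a (l 378661768967) (l 447918116903)))) (l 3)) (c (a (l 356113190951) (b (l 455434309239) (l 415168990215))) (a (l 357723803655) (b (a (l 438791311751) (l 3)) (l 7072216044889730941402628191)))))) (a (a (b (l 3) (c (l 486572819831) (l 485499072711))) (l 3)) (l 3))) (a (a (l 16763400) (c (l 144117077852684383) (l 144124568286380127))) (a (b (a (b (c (l 443623147175) (a (l 417316474599)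 (l 471540436359))) (c (l 374366801175) (l 375977413879))) (b (l 3) (c (l 472614177687) (l 471003562279)))) (a (l 16776600) (b (c (l 6898130726865206748058107999) (a (l 378661768855) (l 452749954999))) (c (l 359871287079) (l 361481899799))))) (b (l 3) (a (b (l 3) (c (l 461339886423) (a (l 7633157625190909601336524895) (l 3)))) (l 3))))))) (b (a (l 16755720) (b (a (l 16772768) (b (a (b (c (l 6878787913751367870899929183) (a (l 16779008) (l 7391372461267980674019082335))) (l 16779544)) (b (c (l 490330916855) (l 489257174999)) (c (a (l 420000830087) (l 478519757831)) (a (l 7197944330129637051128807519) (l 476909145063))))) (a (l 16771808) (b (c (a (l 16780536) (l 387788573591)) (l 6762731035068365188115480671)) (l 16775808))))) (l 16773416))) (l 16757224))), by decide +kernel⟩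

def k16_pm_113 : ∃ t, chk3 f_pm_113 t 511 254 1 = true :=
  ⟨(l 3), by decide +kernel⟩

def k17_pm_113 : ∃ t, chk3 f_pm_113 t 1022 255 1 = true :=
  ⟨(b (b (a (b (l 3) (a (b (c (l 479593496391) (a (l 467782337127) (l 3))) (c (a (l 377051155527) (l 460803018087)) (a (l 378124897351) (b (l 487109692295) (l 445233762087))))) (l 3))) (l 3)) (a (b (a (b (c (l 279877520487) (l 279340649575)) (l 16770720)) (a (b (c (l 452213081015) (b (l 474224790567) (l 432885729943))) (l 356650061175)) (b (l 3) (c (b (l 463487372471) (l 395304766071)) (b (l 461339888807) (l 394767895159)))))) (a (l 16780264) (l 16778896))) (b (a (b (l 3) (c (l 498383974439) (l 497310235223))) (l 3)) (a (a (b (c (b (l 451139341607) (l 374366800615)) (b (l 449528727543) (l 375440542423))) (l 16777400)) (b (c (l 486572820567) (l 484962205191)) (b (c (l 439865049911) (l 6936816353092866360433623135)) (l 360945028055)))) (a (b (l 3) (b (l 3) (c (l 468319210071) (l 466708596007)))) (l 3)))))) (b (a (l 16766168) (b (a (l 16774640) (a (b (a (l 287393713159)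 (c (l 386177959943) (l 387788572855))) (l 16774840)) (b (b (l 496236495367) (c (l 457581790567) (c (l 457044919655) (l 7565457779292472844085461087)))) (b (c (l 357723801815) (l 368461220055)) (l 16776816))))) (l 16775088))) (l 16761888))), by decide +kernel⟩

def k18_pm_113 : ∃ t, chk3 f_pm_113 t 1023 510 1 = true :=
  ⟨(l 3), by decide +kernel⟩

def k19_pm_113 : ∃ t, chk3 f_pm_113 t 2046 511 1 = true :=
  ⟨(b (b (b (l 3) (a (a (b (c (l 485499075847) (l 484962206247)) (a (c (l 376514283639) (l 378124896375)) (c (l 466708596983) (l 465097982935)))) (l 3)) (l 3))) (a (a (b (c (l 263234521095) (l 285246228487)) (l 16778560)) (b (a (b (b (l 480667240487) (a (l 378124896439) (l 437717567239))) (l 355576318071)) (b (l 3) (b (l 440938792343) (l 396378507063)))) (l 16777864))) (a (a (b (c (l 502678944199) (l 501068331447)) (b (c (l 397989119255) (l 399599731991)) (l 16776160))) (b (l 3) (c (b (l 490867787159) (l 372756186375)) (b (l 489794044023) (c (l 372756186375) (l 372219315463)))))) (a (a (b (l 3) (b (l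 3) (b (l 3) (l 427517019447)))) (l 3)) (l 3))))) (b (b (a (l 16772256) (a (l 16775808) (a (a (l 270213842471) (b (b (l 416779601207) (l 16777680)) (l 16776008))) (b (b (l 499994591095) (c (l 426980148135) (l 426443277223))) (c (l 278803776727) (c (l 278803776727) (l 278266905815))))))) (l 144105532983083087)) (l 16769512))), by decide +kernel⟩

def k20_pm_113 : ∃ t, chk3 f_pm_113 t 2047 511 1 = true :=
  ⟨(b (l 3) (b (a (a (b (b (l 3) (a (b (c (l 489794045047) (l 488183430999)) (c (l 412484633479) (l 411410891655))) (l 3))) (b (a (c (l 264308262055) (l 265382003879)) (a (b (c (l 428590760759) (l 428053889847)) (l 286856840247)) (b (l 3) (c (l 417853342503) (l 417316471591))))) (l 16777648))) (b (l 3) (a (b (c (l 509658266791) (l 508584524967)) (a (b (c (l 397989118727) (l 399062860551)) (l 16776744)) (b (c (l 461339885911) (l 461339885911)) (c (l 373829927495) (l 373293056583))))) (a (b (l 3) (b (l 3) (c (l 450602467655) (l 450065596743)))) (l 3))))) (l 3)) (b (a (b (a (l 16774688) (a (l 16776472) (a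 (a (l 198273139559) (b (c (l 373293056775) (l 387251700487)) (l 16777888))) (b (c (l 439865049383) (c (l 439865049383) (l 439328178471))) (c (l 279877517847) (c (l 279340646935) (l 279340646935))))))) (l 144110068471627855)) (a (b (a (a (b (l 3) (a (c (l 407115923991) (l 408189665815)) (c (l 451676209463) (l 451139338551)))) (l 3)) (l 3)) (b (a (a (c (l 264845132263) (l 265918874103)) (b (c (l 443086274839) (l 442549403927)) (a (l 287393710679) (c (l 418390212983) (l 417853342071))))) (a (b (l 3) (l 472614174775)) (l 3))) (a (c (l 16777248) (l 16777248)) (a (b (a (c (l 397989118311) (l 399062860135)) (l 6)) (l 6)) (l 6))))) (l 3))) (a (l 16773344) (a (a (l 16775776) (l 6)) (l 6)))))), by decide +kernel⟩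

theorem s21_pm_113 : ∃ t, chk3 f_pm_113 t 1023 511 1 = true := ex3_a k19_pm_113 k20_pm_113

theorem s22_pm_113 : ∃ t, chk3 f_pm_113 t 1023 255 1 = true := ex3_b k18_pm_113 s21_pm_113

theorem s23_pm_113 : ∃ t, chk3 f_pm_113 t 511 255 1 = true := ex3_a k17_pm_113 s22_pm_113

theorem s24_pm_113 : ∃ t, chk3 f_pm_113 t 511 127 1 = true := ex3_b k16_pm_113 s23_pm_113

theorem s25_pm_113 : ∃ t, chk3 f_pm_113 t 255 127 1 = true := ex3_a k15_pm_113 s24_pm_113

theorem s26_pm_113 : ∃ t, chk3 f_pm_113 t 127 127 1 = true := ex3_a k14_pm_113 s25_pm_113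

theorem s27_pm_113 : ∃ t, chk3 f_pm_113 t 254 126 1 = true := ex3_b k11_pm_113 k12_pm_113

theorem s28_pm_113 : ∃ t, chk3 f_pm_113 t 127 126 1 = true := ex3_a s27_pm_113 k13_pm_113

theorem s29_pm_113 : ∃ t, chk3 f_pm_113 t 127 63 1 = true := ex3_b s28_pm_113 s26_pm_113

theorem s30_pm_113 : ∃ t, chk3 f_pm_113 t 63 63 1 = true := ex3_a k10_pm_113 s29_pm_113

theorem s31_pm_113 : ∃ t, chk3 f_pm_113 t 63 31 1 = true := ex3_b k9_pm_113 s30_pm_113

theorem s32_pm_113 : ∃ t, chk3 f_pm_113 t 31 31 1 = true := ex3_a k8_pm_113 s31_pm_113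

theorem s33_pm_113 : ∃ t, chk3 f_pm_113 t 15 31 1 = true := ex3_a k7_pm_113 s32_pm_113

theorem s34_pm_113 : ∃ t, chk3 f_pm_113 t 15 15 1 = true := ex3_b k6_pm_113 s33_pm_113

theorem s35_pm_113 : ∃ t, chk3 f_pm_113 t 7 15 1 = true := ex3_a k5_pm_113 s34_pm_113

theorem s36_pm_113 : ∃ t, chk3 f_pm_113 t 7 7 1 = true := ex3_b k4_pm_113 s35_pm_113

theorem s37_pm_113 : ∃ t, chk3 f_pm_113 t 3 7 1 = true := ex3_a k3_pm_113 s36_pm_113

theorem s38_pm_113 : ∃ t, chk3 f_pm_113 t 3 3 1 = true := ex3_b k2_pm_113 s37_pm_113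

theorem s39_pm_113 : ∃ t, chk3 f_pm_113 t 1 3 1 = true := ex3_a k1_pm_113 s38_pm_113

theorem s40_pm_113 : ∃ t, chk3 f_pm_113 t 1 1 1 = true := ex3_b k0_pm_113 s39_pm_113

theorem c_pm_113 : CertB 536870912 536870912 1610612736 536870912 1040187392 5207648 3 eng mog cd0q1 cd1q3 pd1 false true false .nn 1 1 3
    ndB0q1 ndB1q3 pcB1 cut_pm_113 xt_pm_113 :=
  certB1 (fam := false) (s1 := true) (s2 := false) (a := 1) (b := 1) (c := 3) (cn := .nn) (n1 := ndB0q1) (n2 := ndB1q3) (pc := pcB1) (cut := cut_pm_113) (xt := xt_pm_113) (P1 := 536870912) (W1 := 536870912) (P2 := 1610612736) (W2 := 536870912) (P3 := 1040187392) (W3 := 5207648) (N0 := 3) (En := eng) (mo := mog) (C1 := cd0q1) (C2 := cd1q3) (C3 := pd1)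
    rfl (fun _ => rfl) s40_pm_113

noncomputable def cut_pm_123 : Cut := Cut.of [[⟨0, 1, 0, 15728640⟩, ⟨1, 1, 0, 15728640⟩, ⟨2, 2, 0, 524288⟩]]

noncomputable def xt_pm_123 : Ext := extD3 3 ⟨4, 1, 1, 5, 33, 5, 163, 200, 81, 200, 1, 64⟩ eng cd0q1 cd1q3 pd2 false true false .npn 1 2 3 rfl ndB0q1 ndB1q3 pcB2

noncomputable def f_pm_123 : ℕ → ℕ → ℕ → ℕ → Bool := onCell 536870912 536870912 1073741824 536870912 1040187392 5207648
    (rowB 3 eng mog cd0q1 cd1q3 pd2 1 false true false .npn 1 2 3 (qsf 536870912 536870912 1610612736 536870912 2) ndB0q1 ndB1q3 pcB2 cut_pm_123 xt_pm_123)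

def k0_pm_123 : ∃ t, chk3 f_pm_123 t 2 1 1 = true :=
  ⟨(b (a (b (b (a (b (l 15657864) (l 15374816)) (b (l 15527248) (l 15286656))) (a (l 14875944) (l 14915072))) (a (b (l 14513472) (l 14115064)) (b (l 14577176) (l 14269464)))) (b (a (b (b (l 15411152) (l 15225696)) (l 14833144)) (b (b (l 15320136) (l 15207968)) (a (l 15041040) (l 15112472)))) (a (b (l 14714624) (l 14526648)) (b (l 14837128) (b (l 14933360) (l 14943952)))))) (a (b (a (b (l 13791960) (l 13554792)) (b (l 14042448) (b (l 13931352) (l 13891464)))) (a (b (l 13417920) (l 13418008)) (b (l 13885200) (l 13965920)))) (b (a (b (b (l 14441608) (l 14416960)) (l 14281232)) (b (a (l 14830520) (l 15072960)) (l 14961576))) (a (b (l 14441160) (l 2)) (l 2))))), by decide +kernel⟩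

def k1_pm_123 : ∃ t, chk3 f_pm_123 t 3 1 1 = true :=
  ⟨(b (a (b (a (b (a (l 15446240) (b (l 15273176) (l 15294392))) (a (l 15216664) (l 15364864))) (b (b (a (l 15293000) (l 15352536)) (a (l 15388648) (l 15541440))) (a (l 15574176) (b (l 15755008) (l 15993560))))) (a (b (a (l 15257776) (b (l 15482904) (l 15592416))) (a (l 15382752) (l 15547736))) (b (a (b (l 15811256) (l 15883632)) (b (l 16121640) (l 16107424))) (a (l 15862640) (l 2))))) (b (b (a (a (b (l 15478584) (l 15786304)) (b (a (l 15645072) (l 15820448)) (a (l 16065336) (b (l 16190312) (l 16447728))))) (b (a (a (l 16267688) (b (l 16343104) (b (l 16515112) (l 16632904)))) (b (a (a (l 16742216) (a (l 16757840) (l 143470839829610703))) (a (b (l 143633292687016015) (l 16762448)) (b (a (l 143894220545884239) (b (a (l 16775056) (b (a (l 16776176) (b (a (l 16776704) (b (a (l 16776960) (b (l 6) (l 16776864))) (l 16776512))) (l 16775824))) (l 16774464))) (l 16771840))) (l 693200961847)))) (a (a (l 16731224) (l 16748696)) (a (l 16755296) (l 2))))) (a (a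 (b (l 16487440) (l 16647544)) (b (l 16574800) (l 16606120))) (a (a (b (l 16731064) (l 2)) (l 2)) (l 2))))) (a (a (b (a (l 16015976) (l 16240488)) (l 16170048)) (b (a (l 16422232) (l 16570944)) (l 16321256))) (a (a (l 16444304) (l 2)) (l 2)))) (a (b (a (b (l 16331536) (l 2)) (l 2)) (l 2)) (l 2)))) (a (b (a (b (a (l 15337272) (l 2)) (l 2)) (l 2)) (l 2)) (l 2))), by decide +kernel⟩

theorem s2_pm_123 : ∃ t, chk3 f_pm_123 t 1 1 1 = true := ex3_a k0_pm_123 k1_pm_123

theorem c_pm_123 : CertB 536870912 536870912 1610612736 536870912 1040187392 5207648 3 eng mog cd0q1 cd1q3 pd2 false true false .npn 1 2 3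
    ndB0q1 ndB1q3 pcB2 cut_pm_123 xt_pm_123 :=
  certB1 (fam := false) (s1 := true) (s2 := false) (a := 1) (b := 2) (c := 3) (cn := .npn) (n1 := ndB0q1) (n2 := ndB1q3) (pc := pcB2) (cut := cut_pm_123) (xt := xt_pm_123) (P1 := 536870912) (W1 := 536870912) (P2 := 1610612736) (W2 := 536870912) (P3 := 1040187392) (W3 := 5207648) (N0 := 3) (En := eng) (mo := mog) (C1 := cd0q1) (C2 := cd1q3) (C3 := pd2)
    rfl (fun _ => rfl) s2_pm_123

noncomputable def f_pm_133 : ℕ → ℕ → ℕ → ℕ → Bool := onCell 536870912 536870912 1610612736 536870912 1040187392 5207648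
    (rowB 3 eng mog cd0q1 cd1q3 pd3 0 false true false .dn 1 3 3 (qsf 536870912 536870912 1610612736 536870912 3) ndB0q1 ndB1q3 pcB3 Cut.none Ext.none)

def k0_pm_133 : ∃ t, chk3 f_pm_133 t 1 1 1 = true :=
  ⟨(a (b (l 1) (b (l 1) (a (a (b (l 1) (l 16678488)) (l 1)) (l 1)))) (l 1)), by decide +kernel⟩

theorem c_pm_133 : CertB 536870912 536870912 1610612736 536870912 1040187392 5207648 3 eng mog cd0q1 cd1q3 pd3 false true false .dn 1 3 3
    ndB0q1 ndB1q3 pcB3 Cut.none Ext.none :=
  certB0 (fam := false) (s1 := true) (s2 := false) (a := 1) (b := 3) (c := 3) (cn := .dn) (n1 := ndB0q1) (n2 := ndB1q3) (pc := pcB3) (cut := Cut.none) (xt := Ext.none) (P1 := 536870912) (W1 := 536870912) (P2 := 1610612736) (W2 := 536870912) (P3 := 1040187392) (W3 := 5207648) (N0 := 3) (En := eng) (mo := mog) (C1 := cd0q1) (C2 := cd1q3) (C3 := pd3)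
    rfl k0_pm_133

noncomputable def cut_pm_202_a : Cut := Cut.of [[⟨0, 1, 0, 26843545⟩, ⟨1, 0, 0, 26843545⟩, ⟨2, 1, 0, 26843545⟩], [⟨0, 0, 1, 46137344⟩, ⟨1, 1, 2, 46137344⟩, ⟨2, 1, 0, 1048576⟩, ⟨0, 0, 0, 1054867456⟩, ⟨0, 1, 0, 38117834⟩, ⟨1, 0, 0, 38117834⟩, ⟨1, 1, 0, 1054867456⟩]]

noncomputable def f_pm_202_a : ℕ → ℕ → ℕ → ℕ → Bool := onCell 0 536870912 0 536870912 1040187392 5207648
    (rowB 3 eng mog cd0q2 cd1q2a pd0 0 false true false .pp 2 0 2 (qsf 0 536870912 0 536870912 0) ndB0q2 ndB1q2a pcB0 cut_pm_202_a Ext.none)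

def k0_pm_202_a : ∃ t, chk3 f_pm_202_a t 1 1 1 = true :=
  ⟨(a (l 3) (b (l 3) (a (l 3) (b (l 3) (a (l 3) (b (l 3) (a (l 3) (b (l 3) (l 6))))))))), by decide +kernel⟩

theorem c_pm_202_a : CertB 0 536870912 0 536870912 1040187392 5207648 3 eng mog cd0q2 cd1q2a pd0 false true false .pp 2 0 2
    ndB0q2 ndB1q2a pcB0 cut_pm_202_a Ext.none :=
  certB0 (fam := false) (s1 := true) (s2 := false) (a := 2) (b := 0) (c := 2) (cn := .pp) (n1 := ndB0q2) (n2 := ndB1q2a) (pc := pcB0) (cut := cut_pm_202_a) (xt := Ext.none) (P1 := 0) (W1 := 536870912) (P2 := 0) (W2 := 536870912) (P3 := 1040187392) (W3 := 5207648) (N0 := 3) (En := eng) (mo := mog) (C1 := cd0q2) (C2 := cd1q2a) (C3 := pd0)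
    rfl k0_pm_202_a

noncomputable def cut_pm_202_b : Cut := Cut.of [[⟨0, 1, 0, 26843545⟩, ⟨1, 0, 0, 26843545⟩, ⟨2, 1, 0, 26843545⟩], [⟨0, 0, 1, 46137344⟩, ⟨1, 1, 2, 46137344⟩, ⟨2, 1, 0, 1048576⟩, ⟨0, 0, 0, 1054867456⟩, ⟨0, 1, 0, 38117834⟩, ⟨1, 0, 0, 38117834⟩, ⟨1, 1, 0, 1054867456⟩]]

noncomputable def f_pm_202_b : ℕ → ℕ → ℕ → ℕ → Bool := onCell 0 536870912 1239849684 370763052 1040187392 5207648
    (rowB 3 eng mog cd0q2 cd1q2b pd0 0 false true false .pp 2 0 2 (qsf 0 536870912 1239849684 370763052 0) ndB0q2 ndB1q2b pcB0 cut_pm_202_b Ext.none)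

def k0_pm_202_b : ∃ t, chk3 f_pm_202_b t 1 1 1 = true :=
  ⟨(l 3), by decide +kernel⟩

theorem c_pm_202_b : CertB 0 536870912 1239849684 370763052 1040187392 5207648 3 eng mog cd0q2 cd1q2b pd0 false true false .pp 2 0 2
    ndB0q2 ndB1q2b pcB0 cut_pm_202_b Ext.none :=
  certB0 (fam := false) (s1 := true) (s2 := false) (a := 2) (b := 0) (c := 2) (cn := .pp) (n1 := ndB0q2) (n2 := ndB1q2b) (pc := pcB0) (cut := cut_pm_202_b) (xt := Ext.none) (P1 := 0) (W1 := 536870912) (P2 := 1239849684) (W2 := 370763052) (P3 := 1040187392) (W3 := 5207648) (N0 := 3) (En := eng) (mo := mog) (C1 := cd0q2) (C2 := cd1q2b) (C3 := pd0)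
    rfl k0_pm_202_b

noncomputable def f_pm_203 : ℕ → ℕ → ℕ → ℕ → Bool := onCell 0 536870912 0 536870912 1040187392 5207648
    (rowB 3 eng mog cd0q2 cd1q3 pd0 1 false true false .up 2 0 3 (qsf 0 536870912 1610612736 536870912 0) ndB0q2 ndB1q3 pcB0 Cut.none Ext.none)

def k0_pm_203 : ∃ t, chk3 f_pm_203 t 1 1 1 = true :=
  ⟨(l 3), by decide +kernel⟩

theorem c_pm_203 : CertB 0 536870912 1610612736 536870912 1040187392 5207648 3 eng mog cd0q2 cd1q3 pd0 false true false .up 2 0 3
    ndB0q2 ndB1q3 pcB0 Cut.none Ext.none :=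
  certB1 (fam := false) (s1 := true) (s2 := false) (a := 2) (b := 0) (c := 3) (cn := .up) (n1 := ndB0q2) (n2 := ndB1q3) (pc := pcB0) (cut := Cut.none) (xt := Ext.none) (P1 := 0) (W1 := 536870912) (P2 := 1610612736) (W2 := 536870912) (P3 := 1040187392) (W3 := 5207648) (N0 := 3) (En := eng) (mo := mog) (C1 := cd0q2) (C2 := cd1q3) (C3 := pd0)
    rfl (fun _ => rfl) k0_pm_203

noncomputable def cut_pm_213 : Cut := Cut.of [[⟨0, 1, 0, 15728640⟩, ⟨1, 1, 0, 15728640⟩, ⟨2, 2, 0, 524288⟩]]

noncomputable def f_pm_213 : ℕ → ℕ → ℕ → ℕ → Bool := onCell 0 536870912 1610612736 536870912 1040187392 5207648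
    (rowB 3 eng mog cd0q2 cd1q3 pd1 0 false true false .pnn 2 1 3 (qsf 0 536870912 1610612736 536870912 1) ndB0q2 ndB1q3 pcB1 cut_pm_213 Ext.none)

def k0_pm_213 : ∃ t, chk3 f_pm_213 t 1 1 1 = true :=
  ⟨(a (l 3) (b (l 3) (b (l 3) (a (l 3) (b (l 3) (a (l 3) (b (l 3) (a (l 3) (b (l 3) (a (l 3) (b (l 3) (a (l 3) (b (l 3) (b (l 3) (b (l 3) (b (l 3) (b (l 3) (l 6)))))))))))))))))), by decide +kernel⟩

theorem c_pm_213 : CertB 0 536870912 1610612736 536870912 1040187392 5207648 3 eng mog cd0q2 cd1q3 pd1 false true false .pnn 2 1 3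
    ndB0q2 ndB1q3 pcB1 cut_pm_213 Ext.none :=
  certB0 (fam := false) (s1 := true) (s2 := false) (a := 2) (b := 1) (c := 3) (cn := .pnn) (n1 := ndB0q2) (n2 := ndB1q3) (pc := pcB1) (cut := cut_pm_213) (xt := Ext.none) (P1 := 0) (W1 := 536870912) (P2 := 1610612736) (W2 := 536870912) (P3 := 1040187392) (W3 := 5207648) (N0 := 3) (En := eng) (mo := mog) (C1 := cd0q2) (C2 := cd1q3) (C3 := pd1)
    rfl k0_pm_213

noncomputable def f_mm_001 : ℕ → ℕ → ℕ → ℕ → Bool := onCell 0 536870912 536870912 536870912 1040187392 5207648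
    (rowB 3 eng mog cd0q0 cd1q1 pd0 0 false false false .up 0 0 1 (qsf 0 536870912 536870912 536870912 0) ndB0q0 ndB1q1 pcB0 Cut.none Ext.none)

def k0_mm_001 : ∃ t, chk3 f_mm_001 t 1 1 1 = true :=
  ⟨(l 3), by decide +kernel⟩

theorem c_mm_001 : CertB 0 536870912 536870912 536870912 1040187392 5207648 3 eng mog cd0q0 cd1q1 pd0 false false false .up 0 0 1
    ndB0q0 ndB1q1 pcB0 Cut.none Ext.none :=
  certB0 (fam := false) (s1 := false) (s2 := false) (a := 0) (b := 0) (c := 1) (cn := .up) (n1 := ndB0q0) (n2 := ndB1q1) (pc := pcB0) (cut := Cut.none) (xt := Ext.none) (P1 := 0) (W1 := 536870912) (P2 := 536870912) (W2 := 536870912) (P3 := 1040187392) (W3 := 5207648) (N0 := 3) (En := eng) (mo := mog) (C1 := cd0q0) (C2 := cd1q1) (C3 := pd0)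
    rfl k0_mm_001

noncomputable def f_mm_011 : ℕ → ℕ → ℕ → ℕ → Bool := onCell 0 536870912 536870912 536870912 1040187392 5207648
    (rowB 3 eng mog cd0q0 cd1q1 pd1 0 false false false .pnn 0 1 1 (qsf 0 536870912 536870912 536870912 1) ndB0q0 ndB1q1 pcB1 Cut.none Ext.none)

def k0_mm_011 : ∃ t, chk3 f_mm_011 t 1 1 1 = true :=
  ⟨(l 3), by decide +kernel⟩

theorem c_mm_011 : CertB 0 536870912 536870912 536870912 1040187392 5207648 3 eng mog cd0q0 cd1q1 pd1 false false false .pnn 0 1 1
    ndB0q0 ndB1q1 pcB1 Cut.none Ext.none :=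
  certB0 (fam := false) (s1 := false) (s2 := false) (a := 0) (b := 1) (c := 1) (cn := .pnn) (n1 := ndB0q0) (n2 := ndB1q1) (pc := pcB1) (cut := Cut.none) (xt := Ext.none) (P1 := 0) (W1 := 536870912) (P2 := 536870912) (W2 := 536870912) (P3 := 1040187392) (W3 := 5207648) (N0 := 3) (En := eng) (mo := mog) (C1 := cd0q0) (C2 := cd1q1) (C3 := pd1)
    rfl k0_mm_011

noncomputable def f_mm_012_a : ℕ → ℕ → ℕ → ℕ → Bool := onCell 0 536870912 0 536870912 1040187392 5207648
    (rowB 3 eng mog cd0q0 cd1q2a pd1 0 false false false .pnp 0 1 2 (qsf 0 536870912 0 536870912 1) ndB0q0 ndB1q2a pcB1 Cut.none Ext.none)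

def k0_mm_012_a : ∃ t, chk3 f_mm_012_a t 1 1 1 = true :=
  ⟨(l 5), by decide +kernel⟩

theorem c_mm_012_a : CertB 0 536870912 0 536870912 1040187392 5207648 3 eng mog cd0q0 cd1q2a pd1 false false false .pnp 0 1 2
    ndB0q0 ndB1q2a pcB1 Cut.none Ext.none :=
  certB0 (fam := false) (s1 := false) (s2 := false) (a := 0) (b := 1) (c := 2) (cn := .pnp) (n1 := ndB0q0) (n2 := ndB1q2a) (pc := pcB1) (cut := Cut.none) (xt := Ext.none) (P1 := 0) (W1 := 536870912) (P2 := 0) (W2 := 536870912) (P3 := 1040187392) (W3 := 5207648) (N0 := 3) (En := eng) (mo := mog) (C1 := cd0q0) (C2 := cd1q2a) (C3 := pd1)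
    rfl k0_mm_012_a

noncomputable def f_mm_012_b : ℕ → ℕ → ℕ → ℕ → Bool := onCell 0 536870912 1239849684 370763052 1040187392 5207648
    (rowB 3 eng mog cd0q0 cd1q2b pd1 0 false false false .pnp 0 1 2 (qsf 0 536870912 1239849684 370763052 1) ndB0q0 ndB1q2b pcB1 Cut.none Ext.none)

def k0_mm_012_b : ∃ t, chk3 f_mm_012_b t 1 1 1 = true :=
  ⟨(l 5), by decide +kernel⟩

theorem c_mm_012_b : CertB 0 536870912 1239849684 370763052 1040187392 5207648 3 eng mog cd0q0 cd1q2b pd1 false false false .pnp 0 1 2
    ndB0q0 ndB1q2b pcB1 Cut.none Ext.none :=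
  certB0 (fam := false) (s1 := false) (s2 := false) (a := 0) (b := 1) (c := 2) (cn := .pnp) (n1 := ndB0q0) (n2 := ndB1q2b) (pc := pcB1) (cut := Cut.none) (xt := Ext.none) (P1 := 0) (W1 := 536870912) (P2 := 1239849684) (W2 := 370763052) (P3 := 1040187392) (W3 := 5207648) (N0 := 3) (En := eng) (mo := mog) (C1 := cd0q0) (C2 := cd1q2b) (C3 := pd1)
    rfl k0_mm_012_b

noncomputable def f_mm_022_a : ℕ → ℕ → ℕ → ℕ → Bool := onCell 0 536870912 0 536870912 1040187392 5207648
    (rowB 3 eng mog cd0q0 cd1q2a pd2 0 false false false .pp 0 2 2 (qsf 0 536870912 0 536870912 2) ndB0q0 ndB1q2a pcB2 Cut.none Ext.none)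

def k0_mm_022_a : ∃ t, chk3 f_mm_022_a t 1 1 1 = true :=
  ⟨(l 5), by decide +kernel⟩

theorem c_mm_022_a : CertB 0 536870912 0 536870912 1040187392 5207648 3 eng mog cd0q0 cd1q2a pd2 false false false .pp 0 2 2
    ndB0q0 ndB1q2a pcB2 Cut.none Ext.none :=
  certB0 (fam := false) (s1 := false) (s2 := false) (a := 0) (b := 2) (c := 2) (cn := .pp) (n1 := ndB0q0) (n2 := ndB1q2a) (pc := pcB2) (cut := Cut.none) (xt := Ext.none) (P1 := 0) (W1 := 536870912) (P2 := 0) (W2 := 536870912) (P3 := 1040187392) (W3 := 5207648) (N0 := 3) (En := eng) (mo := mog) (C1 := cd0q0) (C2 := cd1q2a) (C3 := pd2)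
    rfl k0_mm_022_a

noncomputable def f_mm_022_b : ℕ → ℕ → ℕ → ℕ → Bool := onCell 0 536870912 1239849684 370763052 1040187392 5207648
    (rowB 3 eng mog cd0q0 cd1q2b pd2 0 false false false .pp 0 2 2 (qsf 0 536870912 1239849684 370763052 2) ndB0q0 ndB1q2b pcB2 Cut.none Ext.none)

def k0_mm_022_b : ∃ t, chk3 f_mm_022_b t 1 1 1 = true :=
  ⟨(l 5), by decide +kernel⟩

theorem c_mm_022_b : CertB 0 536870912 1239849684 370763052 1040187392 5207648 3 eng mog cd0q0 cd1q2b pd2 false false false .pp 0 2 2
    ndB0q0 ndB1q2b pcB2 Cut.none Ext.none :=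
  certB0 (fam := false) (s1 := false) (s2 := false) (a := 0) (b := 2) (c := 2) (cn := .pp) (n1 := ndB0q0) (n2 := ndB1q2b) (pc := pcB2) (cut := Cut.none) (xt := Ext.none) (P1 := 0) (W1 := 536870912) (P2 := 1239849684) (W2 := 370763052) (P3 := 1040187392) (W3 := 5207648) (N0 := 3) (En := eng) (mo := mog) (C1 := cd0q0) (C2 := cd1q2b) (C3 := pd2)
    rfl k0_mm_022_b

noncomputable def f_mm_023 : ℕ → ℕ → ℕ → ℕ → Bool := onCell 0 536870912 1610612736 536870912 1040187392 5207648
    (rowB 3 eng mog cd0q0 cd1q3 pd2 0 false false false .up 0 2 3 (qsf 0 536870912 1610612736 536870912 2) ndB0q0 ndB1q3 pcB2 Cut.none Ext.none)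

def k0_mm_023 : ∃ t, chk3 f_mm_023 t 1 1 1 = true :=
  ⟨(l 5), by decide +kernel⟩

theorem c_mm_023 : CertB 0 536870912 1610612736 536870912 1040187392 5207648 3 eng mog cd0q0 cd1q3 pd2 false false false .up 0 2 3
    ndB0q0 ndB1q3 pcB2 Cut.none Ext.none :=
  certB0 (fam := false) (s1 := false) (s2 := false) (a := 0) (b := 2) (c := 3) (cn := .up) (n1 := ndB0q0) (n2 := ndB1q3) (pc := pcB2) (cut := Cut.none) (xt := Ext.none) (P1 := 0) (W1 := 536870912) (P2 := 1610612736) (W2 := 536870912) (P3 := 1040187392) (W3 := 5207648) (N0 := 3) (En := eng) (mo := mog) (C1 := cd0q0) (C2 := cd1q3) (C3 := pd2)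
    rfl k0_mm_023

noncomputable def f_mm_033 : ℕ → ℕ → ℕ → ℕ → Bool := onCell 0 536870912 1610612736 536870912 1040187392 5207648
    (rowB 3 eng mog cd0q0 cd1q3 pd3 0 false false false .pnn 0 3 3 (qsf 0 536870912 1610612736 536870912 3) ndB0q0 ndB1q3 pcB3 Cut.none Ext.none)

def k0_mm_033 : ∃ t, chk3 f_mm_033 t 1 1 1 = true :=
  ⟨(l 5), by decide +kernel⟩

theorem c_mm_033 : CertB 0 536870912 1610612736 536870912 1040187392 5207648 3 eng mog cd0q0 cd1q3 pd3 false false false .pnn 0 3 3
    ndB0q0 ndB1q3 pcB3 Cut.none Ext.none :=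
  certB0 (fam := false) (s1 := false) (s2 := false) (a := 0) (b := 3) (c := 3) (cn := .pnn) (n1 := ndB0q0) (n2 := ndB1q3) (pc := pcB3) (cut := Cut.none) (xt := Ext.none) (P1 := 0) (W1 := 536870912) (P2 := 1610612736) (W2 := 536870912) (P3 := 1040187392) (W3 := 5207648) (N0 := 3) (En := eng) (mo := mog) (C1 := cd0q0) (C2 := cd1q3) (C3 := pd3)
    rfl k0_mm_033

noncomputable def f_mm_101 : ℕ → ℕ → ℕ → ℕ → Bool := onCell 536870912 536870912 536870912 536870912 1040187392 5207648
    (rowB 3 eng mog cd0q1 cd1q1 pd0 0 false false false .npn 1 0 1 (qsf 536870912 536870912 536870912 536870912 0) ndB0q1 ndB1q1 pcB0 Cut.none Ext.none)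

def k0_mm_101 : ∃ t, chk3 f_mm_101 t 1 1 1 = true :=
  ⟨(l 3), by decide +kernel⟩

theorem c_mm_101 : CertB 536870912 536870912 536870912 536870912 1040187392 5207648 3 eng mog cd0q1 cd1q1 pd0 false false false .npn 1 0 1
    ndB0q1 ndB1q1 pcB0 Cut.none Ext.none :=
  certB0 (fam := false) (s1 := false) (s2 := false) (a := 1) (b := 0) (c := 1) (cn := .npn) (n1 := ndB0q1) (n2 := ndB1q1) (pc := pcB0) (cut := Cut.none) (xt := Ext.none) (P1 := 536870912) (W1 := 536870912) (P2 := 536870912) (W2 := 536870912) (P3 := 1040187392) (W3 := 5207648) (N0 := 3) (En := eng) (mo := mog) (C1 := cd0q1) (C2 := cd1q1) (C3 := pd0)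
    rfl k0_mm_101

noncomputable def f_mm_102_a : ℕ → ℕ → ℕ → ℕ → Bool := onCell 536870912 536870912 0 536870912 1040187392 5207648
    (rowB 3 eng mog cd0q1 cd1q2a pd0 0 false false false .npp 1 0 2 (qsf 536870912 536870912 0 536870912 0) ndB0q1 ndB1q2a pcB0 Cut.none Ext.none)

def k0_mm_102_a : ∃ t, chk3 f_mm_102_a t 1 1 1 = true :=
  ⟨(a (l 5) (l 3)), by decide +kernel⟩

theorem c_mm_102_a : CertB 536870912 536870912 0 536870912 1040187392 5207648 3 eng mog cd0q1 cd1q2a pd0 false false false .npp 1 0 2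
    ndB0q1 ndB1q2a pcB0 Cut.none Ext.none :=
  certB0 (fam := false) (s1 := false) (s2 := false) (a := 1) (b := 0) (c := 2) (cn := .npp) (n1 := ndB0q1) (n2 := ndB1q2a) (pc := pcB0) (cut := Cut.none) (xt := Ext.none) (P1 := 536870912) (W1 := 536870912) (P2 := 0) (W2 := 536870912) (P3 := 1040187392) (W3 := 5207648) (N0 := 3) (En := eng) (mo := mog) (C1 := cd0q1) (C2 := cd1q2a) (C3 := pd0)
    rfl k0_mm_102_a

noncomputable def f_mm_102_b : ℕ → ℕ → ℕ → ℕ → Bool := onCell 536870912 536870912 1239849684 370763052 1040187392 5207648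
    (rowB 3 eng mog cd0q1 cd1q2b pd0 0 false false false .npp 1 0 2 (qsf 536870912 536870912 1239849684 370763052 0) ndB0q1 ndB1q2b pcB0 Cut.none Ext.none)

def k0_mm_102_b : ∃ t, chk3 f_mm_102_b t 1 1 1 = true :=
  ⟨(l 5), by decide +kernel⟩

theorem c_mm_102_b : CertB 536870912 536870912 1239849684 370763052 1040187392 5207648 3 eng mog cd0q1 cd1q2b pd0 false false false .npp 1 0 2
    ndB0q1 ndB1q2b pcB0 Cut.none Ext.none :=
  certB0 (fam := false) (s1 := false) (s2 := false) (a := 1) (b := 0) (c := 2) (cn := .npp) (n1 := ndB0q1) (n2 := ndB1q2b) (pc := pcB0) (cut := Cut.none) (xt := Ext.none) (P1 := 536870912) (W1 := 536870912) (P2 := 1239849684) (W2 := 370763052) (P3 := 1040187392) (W3 := 5207648) (N0 := 3) (En := eng) (mo := mog) (C1 := cd0q1) (C2 := cd1q2b) (C3 := pd0)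
    rfl k0_mm_102_b

noncomputable def f_mm_112_a : ℕ → ℕ → ℕ → ℕ → Bool := onCell 536870912 536870912 0 536870912 1040187392 5207648
    (rowB 3 eng mog cd0q1 cd1q2a pd1 2 false false false .dn 1 1 2 (qsf 536870912 536870912 0 536870912 1) ndB0q1 ndB1q2a pcB1 Cut.none Ext.none)

def k0_mm_112_a : ∃ t, chk3 f_mm_112_a t 1 1 1 = true :=
  ⟨(l 5), by decide +kernel⟩

theorem c_mm_112_a : CertB 536870912 536870912 0 536870912 1040187392 5207648 3 eng mog cd0q1 cd1q2a pd1 false false false .dn 1 1 2
    ndB0q1 ndB1q2a pcB1 Cut.none Ext.none :=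
  certB2 (fam := false) (s1 := false) (s2 := false) (a := 1) (b := 1) (c := 2) (cn := .dn) (n1 := ndB0q1) (n2 := ndB1q2a) (pc := pcB1) (cut := Cut.none) (xt := Ext.none) (P1 := 536870912) (W1 := 536870912) (P2 := 0) (W2 := 536870912) (P3 := 1040187392) (W3 := 5207648) (N0 := 3) (En := eng) (mo := mog) (C1 := cd0q1) (C2 := cd1q2a) (C3 := pd1)
    rfl (fun _ => rfl) k0_mm_112_a

noncomputable def f_mm_112_b : ℕ → ℕ → ℕ → ℕ → Bool := onCell 536870912 536870912 1239849684 370763052 1040187392 5207648
    (rowB 3 eng mog cd0q1 cd1q2b pd1 0 false false false .dn 1 1 2 (qsf 536870912 536870912 1239849684 370763052 1) ndB0q1 ndB1q2b pcB1 Cut.none Ext.none)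

def k0_mm_112_b : ∃ t, chk3 f_mm_112_b t 1 1 1 = true :=
  ⟨(l 5), by decide +kernel⟩

theorem c_mm_112_b : CertB 536870912 536870912 1239849684 370763052 1040187392 5207648 3 eng mog cd0q1 cd1q2b pd1 false false false .dn 1 1 2
    ndB0q1 ndB1q2b pcB1 Cut.none Ext.none :=
  certB0 (fam := false) (s1 := false) (s2 := false) (a := 1) (b := 1) (c := 2) (cn := .dn) (n1 := ndB0q1) (n2 := ndB1q2b) (pc := pcB1) (cut := Cut.none) (xt := Ext.none) (P1 := 536870912) (W1 := 536870912) (P2 := 1239849684) (W2 := 370763052) (P3 := 1040187392) (W3 := 5207648) (N0 := 3) (En := eng) (mo := mog) (C1 := cd0q1) (C2 := cd1q2b) (C3 := pd1)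
    rfl k0_mm_112_b

noncomputable def f_mm_113 : ℕ → ℕ → ℕ → ℕ → Bool := onCell 536870912 536870912 1610612736 536870912 1040187392 5207648
    (rowB 3 eng mog cd0q1 cd1q3 pd1 0 false false false .nn 1 1 3 (qsf 536870912 536870912 1610612736 536870912 1) ndB0q1 ndB1q3 pcB1 Cut.none Ext.none)

def k0_mm_113 : ∃ t, chk3 f_mm_113 t 1 1 1 = true :=
  ⟨(l 5), by decide +kernel⟩

theorem c_mm_113 : CertB 536870912 536870912 1610612736 536870912 1040187392 5207648 3 eng mog cd0q1 cd1q3 pd1 false false false .nn 1 1 3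
    ndB0q1 ndB1q3 pcB1 Cut.none Ext.none :=
  certB0 (fam := false) (s1 := false) (s2 := false) (a := 1) (b := 1) (c := 3) (cn := .nn) (n1 := ndB0q1) (n2 := ndB1q3) (pc := pcB1) (cut := Cut.none) (xt := Ext.none) (P1 := 536870912) (W1 := 536870912) (P2 := 1610612736) (W2 := 536870912) (P3 := 1040187392) (W3 := 5207648) (N0 := 3) (En := eng) (mo := mog) (C1 := cd0q1) (C2 := cd1q3) (C3 := pd1)
    rfl k0_mm_113

noncomputable def f_mm_123 : ℕ → ℕ → ℕ → ℕ → Bool := onCell 536870912 536870912 1610612736 536870912 1040187392 5207648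
    (rowB 3 eng mog cd0q1 cd1q3 pd2 0 false false false .npn 1 2 3 (qsf 536870912 536870912 1610612736 536870912 2) ndB0q1 ndB1q3 pcB2 Cut.none Ext.none)

def k0_mm_123 : ∃ t, chk3 f_mm_123 t 1 1 1 = true :=
  ⟨(l 5), by decide +kernel⟩

theorem c_mm_123 : CertB 536870912 536870912 1610612736 536870912 1040187392 5207648 3 eng mog cd0q1 cd1q3 pd2 false false false .npn 1 2 3
    ndB0q1 ndB1q3 pcB2 Cut.none Ext.none :=
  certB0 (fam := false) (s1 := false) (s2 := false) (a := 1) (b := 2) (c := 3) (cn := .npn) (n1 := ndB0q1) (n2 := ndB1q3) (pc := pcB2) (cut := Cut.none) (xt := Ext.none) (P1 := 536870912) (W1 := 536870912) (P2 := 1610612736) (W2 := 536870912) (P3 := 1040187392) (W3 := 5207648) (N0 := 3) (En := eng) (mo := mog) (C1 := cd0q1) (C2 := cd1q3) (C3 := pd2)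
    rfl k0_mm_123

noncomputable def f_mm_133 : ℕ → ℕ → ℕ → ℕ → Bool := onCell 536870912 536870912 1610612736 536870912 1040187392 5207648
    (rowB 3 eng mog cd0q1 cd1q3 pd3 0 false false false .dn 1 3 3 (qsf 536870912 536870912 1610612736 536870912 3) ndB0q1 ndB1q3 pcB3 Cut.none Ext.none)

def k0_mm_133 : ∃ t, chk3 f_mm_133 t 1 1 1 = true :=
  ⟨(l 5), by decide +kernel⟩

theorem c_mm_133 : CertB 536870912 536870912 1610612736 536870912 1040187392 5207648 3 eng mog cd0q1 cd1q3 pd3 false false false .dn 1 3 3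
    ndB0q1 ndB1q3 pcB3 Cut.none Ext.none :=
  certB0 (fam := false) (s1 := false) (s2 := false) (a := 1) (b := 3) (c := 3) (cn := .dn) (n1 := ndB0q1) (n2 := ndB1q3) (pc := pcB3) (cut := Cut.none) (xt := Ext.none) (P1 := 536870912) (W1 := 536870912) (P2 := 1610612736) (W2 := 536870912) (P3 := 1040187392) (W3 := 5207648) (N0 := 3) (En := eng) (mo := mog) (C1 := cd0q1) (C2 := cd1q3) (C3 := pd3)
    rfl k0_mm_133

noncomputable def f_mm_202_a : ℕ → ℕ → ℕ → ℕ → Bool := onCell 0 536870912 0 536870912 1040187392 5207648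
    (rowB 3 eng mog cd0q2 cd1q2a pd0 0 false false false .pp 2 0 2 (qsf 0 536870912 0 536870912 0) ndB0q2 ndB1q2a pcB0 Cut.none Ext.none)

def k0_mm_202_a : ∃ t, chk3 f_mm_202_a t 1 1 1 = true :=
  ⟨(l 3), by decide +kernel⟩

theorem c_mm_202_a : CertB 0 536870912 0 536870912 1040187392 5207648 3 eng mog cd0q2 cd1q2a pd0 false false false .pp 2 0 2
    ndB0q2 ndB1q2a pcB0 Cut.none Ext.none :=
  certB0 (fam := false) (s1 := false) (s2 := false) (a := 2) (b := 0) (c := 2) (cn := .pp) (n1 := ndB0q2) (n2 := ndB1q2a) (pc := pcB0) (cut := Cut.none) (xt := Ext.none) (P1 := 0) (W1 := 536870912) (P2 := 0) (W2 := 536870912) (P3 := 1040187392) (W3 := 5207648) (N0 := 3) (En := eng) (mo := mog) (C1 := cd0q2) (C2 := cd1q2a) (C3 := pd0)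
    rfl k0_mm_202_a

noncomputable def f_mm_202_b : ℕ → ℕ → ℕ → ℕ → Bool := onCell 0 536870912 1239849684 370763052 1040187392 5207648
    (rowB 3 eng mog cd0q2 cd1q2b pd0 0 false false false .pp 2 0 2 (qsf 0 536870912 1239849684 370763052 0) ndB0q2 ndB1q2b pcB0 Cut.none Ext.none)

def k0_mm_202_b : ∃ t, chk3 f_mm_202_b t 1 1 1 = true :=
  ⟨(l 3), by decide +kernel⟩

theorem c_mm_202_b : CertB 0 536870912 1239849684 370763052 1040187392 5207648 3 eng mog cd0q2 cd1q2b pd0 false false false .pp 2 0 2
    ndB0q2 ndB1q2b pcB0 Cut.none Ext.none :=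
  certB0 (fam := false) (s1 := false) (s2 := false) (a := 2) (b := 0) (c := 2) (cn := .pp) (n1 := ndB0q2) (n2 := ndB1q2b) (pc := pcB0) (cut := Cut.none) (xt := Ext.none) (P1 := 0) (W1 := 536870912) (P2 := 1239849684) (W2 := 370763052) (P3 := 1040187392) (W3 := 5207648) (N0 := 3) (En := eng) (mo := mog) (C1 := cd0q2) (C2 := cd1q2b) (C3 := pd0)
    rfl k0_mm_202_b

noncomputable def f_mm_203 : ℕ → ℕ → ℕ → ℕ → Bool := onCell 0 536870912 0 536870912 1040187392 5207648
    (rowB 3 eng mog cd0q2 cd1q3 pd0 1 false false false .up 2 0 3 (qsf 0 536870912 1610612736 536870912 0) ndB0q2 ndB1q3 pcB0 Cut.none Ext.none)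

def k0_mm_203 : ∃ t, chk3 f_mm_203 t 1 1 1 = true :=
  ⟨(l 3), by decide +kernel⟩

theorem c_mm_203 : CertB 0 536870912 1610612736 536870912 1040187392 5207648 3 eng mog cd0q2 cd1q3 pd0 false false false .up 2 0 3
    ndB0q2 ndB1q3 pcB0 Cut.none Ext.none :=
  certB1 (fam := false) (s1 := false) (s2 := false) (a := 2) (b := 0) (c := 3) (cn := .up) (n1 := ndB0q2) (n2 := ndB1q3) (pc := pcB0) (cut := Cut.none) (xt := Ext.none) (P1 := 0) (W1 := 536870912) (P2 := 1610612736) (W2 := 536870912) (P3 := 1040187392) (W3 := 5207648) (N0 := 3) (En := eng) (mo := mog) (C1 := cd0q2) (C2 := cd1q3) (C3 := pd0)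
    rfl (fun _ => rfl) k0_mm_203

noncomputable def f_mm_213 : ℕ → ℕ → ℕ → ℕ → Bool := onCell 0 536870912 1610612736 536870912 1040187392 5207648
    (rowB 3 eng mog cd0q2 cd1q3 pd1 0 false false false .pnn 2 1 3 (qsf 0 536870912 1610612736 536870912 1) ndB0q2 ndB1q3 pcB1 Cut.none Ext.none)

def k0_mm_213 : ∃ t, chk3 f_mm_213 t 1 1 1 = true :=
  ⟨(a (l 3) (l 5)), by decide +kernel⟩

theorem c_mm_213 : CertB 0 536870912 1610612736 536870912 1040187392 5207648 3 eng mog cd0q2 cd1q3 pd1 false false false .pnn 2 1 3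
    ndB0q2 ndB1q3 pcB1 Cut.none Ext.none :=
  certB0 (fam := false) (s1 := false) (s2 := false) (a := 2) (b := 1) (c := 3) (cn := .pnn) (n1 := ndB0q2) (n2 := ndB1q3) (pc := pcB1) (cut := Cut.none) (xt := Ext.none) (P1 := 0) (W1 := 536870912) (P2 := 1610612736) (W2 := 536870912) (P3 := 1040187392) (W3 := 5207648) (N0 := 3) (En := eng) (mo := mog) (C1 := cd0q2) (C2 := cd1q3) (C3 := pd1)
    rfl k0_mm_213

end Pool.Agent.Strip051.G.I9688_9736.Tab.C.BB01

namespace Pool.Agent.Strip051.G.I9688_9736.Tab.C.BB02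

open Pool.Agent.Strip051.PB Pool.Agent.Strip051.PB.T
open Pool.Agent.Strip051.G.I9688_9736.Tab

noncomputable def f_pp_001 : ℕ → ℕ → ℕ → ℕ → Bool := onCell 0 536870912 536870912 536870912 1040187392 5207648
    (rowB 3 eng mog cd0q0 cd2q1 pd0 0 false true true .up 0 0 1 (qsf 0 536870912 536870912 536870912 0) ndB0q0 ndB2q1 pcB0 Cut.none Ext.none)

def k0_pp_001 : ∃ t, chk3 f_pp_001 t 1 1 1 = true :=
  ⟨(l 3), by decide +kernel⟩

theorem c_pp_001 : CertB 0 536870912 536870912 536870912 1040187392 5207648 3 eng mog cd0q0 cd2q1 pd0 false true true .up 0 0 1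
    ndB0q0 ndB2q1 pcB0 Cut.none Ext.none :=
  certB0 (fam := false) (s1 := true) (s2 := true) (a := 0) (b := 0) (c := 1) (cn := .up) (n1 := ndB0q0) (n2 := ndB2q1) (pc := pcB0) (cut := Cut.none) (xt := Ext.none) (P1 := 0) (W1 := 536870912) (P2 := 536870912) (W2 := 536870912) (P3 := 1040187392) (W3 := 5207648) (N0 := 3) (En := eng) (mo := mog) (C1 := cd0q0) (C2 := cd2q1) (C3 := pd0)
    rfl k0_pp_001

noncomputable def f_pp_011 : ℕ → ℕ → ℕ → ℕ → Bool := onCell 0 536870912 536870912 536870912 1040187392 5207648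
    (rowB 3 eng mog cd0q0 cd2q1 pd1 0 false true true .pnn 0 1 1 (qsf 0 536870912 536870912 536870912 1) ndB0q0 ndB2q1 pcB1 Cut.none Ext.none)

def k0_pp_011 : ∃ t, chk3 f_pp_011 t 1 1 1 = true :=
  ⟨(l 3), by decide +kernel⟩

theorem c_pp_011 : CertB 0 536870912 536870912 536870912 1040187392 5207648 3 eng mog cd0q0 cd2q1 pd1 false true true .pnn 0 1 1
    ndB0q0 ndB2q1 pcB1 Cut.none Ext.none :=
  certB0 (fam := false) (s1 := true) (s2 := true) (a := 0) (b := 1) (c := 1) (cn := .pnn) (n1 := ndB0q0) (n2 := ndB2q1) (pc := pcB1) (cut := Cut.none) (xt := Ext.none) (P1 := 0) (W1 := 536870912) (P2 := 536870912) (W2 := 536870912) (P3 := 1040187392) (W3 := 5207648) (N0 := 3) (En := eng) (mo := mog) (C1 := cd0q0) (C2 := cd2q1) (C3 := pd1)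
    rfl k0_pp_011

noncomputable def cut_pp_012_a : Cut := Cut.of [[⟨0, 0, 0, 26843545⟩, ⟨1, 1, 0, 26843545⟩, ⟨2, 1, 0, 26843545⟩]]

noncomputable def xt_pp_012_a : Ext := extD3 3 ⟨4, 1, 1, 5, 33, 5, 163, 200, 81, 200, 1, 64⟩ eng cd0q0 cd2q2a pd1 false true true .pnp 0 1 2 rfl ndB0q0 ndB2q2a pcB1

noncomputable def f_pp_012_a : ℕ → ℕ → ℕ → ℕ → Bool := onCell 536870912 536870912 0 536870912 1040187392 5207648
    (rowB 3 eng mog cd0q0 cd2q2a pd1 2 false true true .pnp 0 1 2 (qsf 0 536870912 0 536870912 1) ndB0q0 ndB2q2a pcB1 cut_pp_012_a xt_pp_012_a)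

def k0_pp_012_a : ∃ t, chk3 f_pp_012_a t 2 1 1 = true :=
  ⟨(l 3), by decide +kernel⟩

def k1_pp_012_a : ∃ t, chk3 f_pp_012_a t 6 1 1 = true :=
  ⟨(b (a (l 3) (b (l 3) (l 3))) (l 3)), by decide +kernel⟩

def k2_pp_012_a : ∃ t, chk3 f_pp_012_a t 14 2 1 = true :=
  ⟨(a (b (b (a (l 111836292215) (l 43116755223)) (a (l 3) (b (l 16429624) (l 90361405639)))) (l 3)) (b (a (b (l 16389488) (b (l 16393112) (a (l 16409448) (l 16390808)))) (b (l 16343208) (a (l 16366168) (l 16343016)))) (a (b (b (a (l 78013329479) (l 16391608)) (a (l 3) (l 61370331175))) (l 3)) (b (a (b (l 16361432) (b (l 16393904) (l 22178717127))) (b (l 16339512) (a (l 16362160) (l 16351280)))) (a (b (b (a (l 3) (l 16392392)) (l 3)) (l 3)) (b (a (b (l 16398240) (b (l 16406696) (l 16412632))) (b (l 16387720) (a (l 16402168) (l 16396944)))) (a (l 3) (b (b (a (l 16411600) (l 16406536)) (a (l 3) (b (l 16411568) (l 16414968)))) (l 3))))))))), by decide +kernel⟩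

def k3_pp_012_a : ∃ t, chk3 f_pp_012_a t 15 2 1 = true :=
  ⟨(a (b (a (b (l 16294744) (a (l 16319504) (l 16297624))) (b (l 16247304) (a (l 16275808) (l 16252056)))) (a (b (a (b (l 16338264) (b (l 16351160) (l 16340216))) (b (l 16317928) (l 16316072))) (a (b (b (a (l 16377232) (l 16367552)) (a (l 16377504) (l 16379912))) (b (a (b (a (l 16401480) (l 16396688)) (a (l 16418832) (l 16403632))) (a (l 16395640) (l 16391280))) (a (b (a (b (l 11978217895) (c (l 16418184) (l 16416304))) (b (l 16409016) (l 16412712))) (a (l 3) (c (b (l 18957545591) (l 7683263831)) (l 14662572119)))) (b (a (l 16406448) (l 16402216)) (a (b (l 16412128) (a (l 16417088) (l 16414976))) (l 16409928)))))) (a (b (l 16354360) (b (l 16384968) (a (l 16412512) (l 16398056)))) (b (l 16356136) (b (l 16376768) (l 16392184)))))) (b (a (b (l 16297800) (l 16318128)) (l 16286696)) (a (b (l 16342872) (a (l 16365984) (l 16368048))) (b (l 16323216) (l 16359280)))))) (b (a (b (l 16184096) (l 16204008)) (b (l 16106528) (l 16126008))) (a (b (a (l 16257872)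 (l 16221568)) (a (b (l 16295688) (l 16327504)) (l 16276456))) (b (l 16162728) (a (l 16237376) (l 16199472)))))), by decide +kernel⟩

def k4_pp_012_a : ∃ t, chk3 f_pp_012_a t 14 3 1 = true :=
  ⟨(l 3), by decide +kernel⟩

def k5_pp_012_a : ∃ t, chk3 f_pp_012_a t 15 6 1 = true :=
  ⟨(a (b (a (a (b (b (a (a (l 3) (a (l 3) (a (l 3) (b (l 16424480) (l 3))))) (b (a (b (a (l 16426256) (l 16418960)) (a (l 16424944) (l 16422992))) (a (l 16429448) (l 16416960))) (a (b (c (l 16428864) (l 16427056)) (l 3)) (a (b (l 16425128) (l 16429272)) (b (l 16423200) (l 16427440)))))) (a (l 3) (b (a (l 3) (b (l 16432552) (l 3))) (l 3)))) (l 3)) (b (a (b (a (b (l 16414024) (a (l 16423416) (l 16421528))) (b (l 16410192) (l 16418728))) (a (b (a (l 16432072) (l 16430304)) (l 16440040)) (b (l 16427592) (a (l 16437592) (l 16435912))))) (b (a (l 16410736) (l 16407016)) (b (l 16409104) (a (l 16433304) (l 16429824))))) (a (b (b (l 8757025175) (l 3)) (l 3)) (b (a (b (l 16442896) (l 16452640)) (l 16434128)) (l 16455936))))) (a (b (a (b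 (l 16401360) (l 16398800)) (l 16405576)) (a (b (l 16429104) (l 16450224)) (b (l 16432512) (l 16454224)))) (b (a (l 16394736) (l 16384872)) (a (l 16436000) (l 16426872))))) (a (l 3) (b (a (a (b (l 16482888) (l 3)) (b (l 16456344) (l 16501520))) (a (b (l 16470696) (l 16495888)) (b (l 16462152) (l 16488248)))) (a (l 3) (b (a (l 16522360) (l 16514960)) (l 71571095367)))))) (b (a (b (a (l 16364600) (l 16330096)) (a (l 16407440) (l 16374400))) (a (b (l 16292808) (l 16335208)) (b (l 16254328) (l 16295752)))) (a (b (a (b (l 16443840) (l 16469408)) (b (l 16409672) (l 16434208))) (a (b (l 16495552) (l 16520696)) (b (l 16457944) (l 16481424)))) (b (a (l 16380328) (l 16336824)) (a (b (l 16413152) (l 16435488)) (b (l 16367976) (l 16389936))))))), by decide +kernel⟩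

def k6_pp_012_a : ∃ t, chk3 f_pp_012_a t 15 7 1 = true :=
  ⟨(a (l 3) (b (a (b (a (a (b (l 16553144) (l 3)) (b (l 16536240) (l 297056978903))) (b (a (l 16515968) (l 16493768)) (a (b (l 16534144) (l 16546560)) (l 16528672)))) (a (l 3) (b (a (b (l 93046017623) (a (l 3) (l 233706201671))) (b (l 16537296) (a (l 16556768) (l 16546168)))) (a (l 3) (b (a (l 205788926311) (l 16562464)) (a (l 3) (l 186461595767))))))) (b (a (b (a (l 16470416) (l 16446984)) (a (b (l 16488592) (l 16501080)) (l 16471752))) (a (l 141513639788200063) (b (l 16402600) (l 16431312)))) (a (b (a (b (l 16514904) (l 16530280)) (l 16501992)) (a (b (l 16548248) (a (l 16572872) (l 16564488))) (b (l 16530664) (l 16552680)))) (b (a (l 16484152) (l 16468640)) (a (l 142145790439129215) (b (l 16501984) (l 16526688))))))) (a (l 3) (b (a (b (a (b (a (l 167134274343) (l 16592800)) (a (l 3) (l 164449959015))) (b (l 16576848) (a (l 16611408) (l 16599960)))) (a (l 3) (b (a (b (l 16626688) (l 190219808167)) (l 16638640)) (a (l 3) (b (l 16653872) (l 156396993303))))))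 (b (a (b (l 16564168) (l 16601824)) (b (l 16553104) (a (l 16583616) (l 16578888)))) (a (b (b (l 16612808) (l 16632856)) (a (b (l 16645216) (l 16660640)) (l 142806528456441983))) (b (a (l 16612984) (l 16608640)) (a (l 142868857012535423) (b (l 16631552) (l 6))))))) (a (l 3) (b (a (b (a (a (l 4558249769056433946253176447) (a (l 3890922376517336154550644351) (l 2294541205771593772675694719))) (b (l 16671672) (l 6))) (l 6)) (l 6)) (l 6))))))), by decide +kernel⟩

theorem s7_pp_012_a : ∃ t, chk3 f_pp_012_a t 15 3 1 = true := ex3_b k5_pp_012_a k6_pp_012_a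

theorem s8_pp_012_a : ∃ t, chk3 f_pp_012_a t 7 3 1 = true := ex3_a k4_pp_012_a s7_pp_012_a

theorem s9_pp_012_a : ∃ t, chk3 f_pp_012_a t 7 2 1 = true := ex3_a k2_pp_012_a k3_pp_012_a

theorem s10_pp_012_a : ∃ t, chk3 f_pp_012_a t 7 1 1 = true := ex3_b s9_pp_012_a s8_pp_012_a

theorem s11_pp_012_a : ∃ t, chk3 f_pp_012_a t 3 1 1 = true := ex3_a k1_pp_012_a s10_pp_012_a

theorem s12_pp_012_a : ∃ t, chk3 f_pp_012_a t 1 1 1 = true := ex3_a k0_pp_012_a s11_pp_012_a

theorem c_pp_012_a : CertB 0 536870912 0 536870912 1040187392 5207648 3 eng mog cd0q0 cd2q2a pd1 false true true .pnp 0 1 2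
    ndB0q0 ndB2q2a pcB1 cut_pp_012_a xt_pp_012_a :=
  certB2 (fam := false) (s1 := true) (s2 := true) (a := 0) (b := 1) (c := 2) (cn := .pnp) (n1 := ndB0q0) (n2 := ndB2q2a) (pc := pcB1) (cut := cut_pp_012_a) (xt := xt_pp_012_a) (P1 := 0) (W1 := 536870912) (P2 := 0) (W2 := 536870912) (P3 := 1040187392) (W3 := 5207648) (N0 := 3) (En := eng) (mo := mog) (C1 := cd0q0) (C2 := cd2q2a) (C3 := pd1)
    rfl (fun _ => rfl) s12_pp_012_a

noncomputable def cut_pp_012_b : Cut := Cut.of [[⟨0, 0, 0, 26843545⟩, ⟨1, 1, 0, 26843545⟩, ⟨2, 1, 0, 26843545⟩]]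

noncomputable def f_pp_012_b : ℕ → ℕ → ℕ → ℕ → Bool := onCell 536870912 536870912 1239849684 370763052 1040187392 5207648
    (rowB 3 eng mog cd0q0 cd2q2b pd1 2 false true true .pnp 0 1 2 (qsf 0 536870912 1239849684 370763052 1) ndB0q0 ndB2q2b pcB1 cut_pp_012_b Ext.none)

def k0_pp_012_b : ∃ t, chk3 f_pp_012_b t 1 1 1 = true :=
  ⟨(a (l 3) (a (b (a (l 3) (b (b (l 3) (l 3)) (l 3))) (l 3)) (a (b (a (b (b (a (b (l 16429624) (l 16370872)) (b (l 16397704) (l 16337152))) (a (b (l 16315528) (l 16263504)) (l 16253120))) (b (a (l 16191784) (l 16152160)) (a (l 3) (l 16063544)))) (b (a (b (b (l 16357656) (l 16295264)) (l 16208752)) (b (b (l 16309000) (l 16244568)) (l 16155232))) (a (b (l 16104920) (l 16013888)) (b (l 16048056) (l 15954208))))) (a (a (l 3) (b (b (l 15986312) (l 15919384)) (l 2))) (b (a (b (l 15934648) (l 15866144)) (b (l 15872696) (l 15802496))) (b (a (l 15807248) (l 15742520)) (l 2))))) (b (a (b (a (b (l 16224536) (l 16099016)) (b (l 16172928) (l 16043128))) (a (b (l 15988232) (l 15891296)) (b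 (l 15928576) (l 15828384)))) (b (b (a (l 16106200) (l 16026184)) (a (l 15971496) (l 15886008))) (a (b (l 15852488) (l 15748312)) (l 15560176)))) (a (b (a (b (l 15807224) (l 15735024)) (b (l 15741616) (l 15667280))) (a (b (l 15673640) (l 2)) (b (l 15604328) (l 15551744)))) (b (a (b (l 15658032) (l 15580672)) (l 15517520)) (a (b (l 15515216) (l 15460640)) (l 15379216)))))))), by decide +kernel⟩

theorem c_pp_012_b : CertB 0 536870912 1239849684 370763052 1040187392 5207648 3 eng mog cd0q0 cd2q2b pd1 false true true .pnp 0 1 2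
    ndB0q0 ndB2q2b pcB1 cut_pp_012_b Ext.none :=
  certB2 (fam := false) (s1 := true) (s2 := true) (a := 0) (b := 1) (c := 2) (cn := .pnp) (n1 := ndB0q0) (n2 := ndB2q2b) (pc := pcB1) (cut := cut_pp_012_b) (xt := Ext.none) (P1 := 0) (W1 := 536870912) (P2 := 1239849684) (W2 := 370763052) (P3 := 1040187392) (W3 := 5207648) (N0 := 3) (En := eng) (mo := mog) (C1 := cd0q0) (C2 := cd2q2b) (C3 := pd1)
    rfl (fun _ => rfl) k0_pp_012_b

noncomputable def cut_pp_022_a : Cut := Cut.of [[⟨0, 0, 0, 26843545⟩, ⟨1, 1, 0, 26843545⟩, ⟨2, 1, 0, 26843545⟩]]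

noncomputable def f_pp_022_a : ℕ → ℕ → ℕ → ℕ → Bool := onCell 1073741824 536870912 0 536870912 1040187392 5207648
    (rowB 3 eng mog cd0q0 cd2q2a pd2 2 false true true .pp 0 2 2 (qsf 0 536870912 0 536870912 2) ndB0q0 ndB2q2a pcB2 cut_pp_022_a Ext.none)

def k0_pp_022_a : ∃ t, chk3 f_pp_022_a t 8 2 1 = true :=
  ⟨(b (a (b (a (l 16302432) (l 16291224)) (a (l 16301328) (l 16299088))) (a (l 16243192) (l 16265832))) (a (b (a (l 16317984) (l 16321712)) (a (b (l 16343040) (l 16364840)) (b (l 16347400) (l 16369952)))) (b (a (l 16317112) (l 16302248)) (a (l 16354472) (b (l 16329560) (l 16356464)))))), by decide +kernel⟩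

def k1_pp_022_a : ∃ t, chk3 f_pp_022_a t 8 3 1 = true :=
  ⟨(b (a (b (a (b (l 16388416) (l 16416192)) (b (l 16393032) (a (l 16418480) (l 16417168)))) (b (a (b (l 16436264) (l 16450728)) (b (l 16440152) (l 16459208))) (a (b (a (l 16464104) (l 16468488)) (a (l 16480464) (l 16489608))) (b (a (l 16476928) (l 16489040)) (l 16511560))))) (b (a (b (l 16388024) (l 16421736)) (b (l 16392536) (l 16439192))) (b (a (l 16447368) (l 16462288)) (a (b (l 16516216) (l 16534448)) (b (l 16559704) (l 16579392)))))) (a (b (b (a (b (a (a (l 16498648) (l 16504312)) (l 16516112)) (a (b (l 16521144) (l 16534960)) (b (l 16541232) (l 16558224)))) (b (a (l 16535944) (l 16558888)) (b (l 16556392) (a (l 16584272) (l 16612016))))) (a (a (b (a (l 16549576) (l 16561760)) (b (l 16580136) (l 16577616))) (b (l 16560464) (b (l 16607968) (l 16627472)))) (b (a (l 16589112) (l 16617376)) (a (l 16604632) (l 16652984))))) (a (b (b (a (a (b (l 16611424) (l 16632576)) (b (l 16625800) (l 16647152))) (b (l 16626672) (l 16647352))) (b (a (a (l 16654976)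 (l 16669072)) (l 16668528)) (l 6))) (l 6)) (b (b (a (a (l 16657800) (l 16670784)) (a (l 16683176) (l 16686352))) (a (b (l 16693632) (l 6)) (b (l 16681904) (l 16672248)))) (a (l 6) (l 1))))) (b (b (b (a (a (l 16584184) (l 16608856)) (l 16621872)) (a (a (b (l 16616928) (l 16618128)) (l 16611072)) (a (l 16610664) (l 16591608)))) (a (a (b (l 16644504) (l 16653192)) (b (l 16628848) (a (l 16642976) (l 16643632)))) (b (a (b (l 16612008) (l 16625336)) (l 16567936)) (a (l 16613888) (l 1))))) (a (b (b (a (a (l 16665888) (l 16645792)) (l 1)) (l 1)) (l 1)) (l 1))))), by decide +kernel⟩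

def k2_pp_022_a : ∃ t, chk3 f_pp_022_a t 9 1 1 = true :=
  ⟨(b (b (a (a (b (l 16225992) (l 16244936)) (l 16209400)) (b (l 16165768) (l 16215552))) (a (b (a (l 16283008) (l 16276992)) (a (b (l 16323400) (l 16359856)) (l 16356000))) (b (a (l 16280952) (l 16290256)) (a (l 16373648) (l 16388240))))) (b (b (a (b (a (l 16408784) (l 16436272)) (a (l 16470696) (l 16501384))) (a (l 16451144) (l 16486120))) (a (a (b (l 16499480) (l 16555888)) (a (l 16498400) (l 16485768))) (a (l 16439064) (l 1)))) (a (b (b (a (b (l 16544184) (l 16556312)) (l 1)) (l 1)) (l 1)) (l 1)))), by decide +kernel⟩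

def k3_pp_022_a : ∃ t, chk3 f_pp_022_a t 5 1 1 = true :=
  ⟨(b (a (b (a (a (l 16189608) (l 16182608)) (l 16157560)) (a (b (l 16295664) (l 16395320)) (l 1))) (l 1)) (b (l 1) (l 1))), by decide +kernel⟩

def k4_pp_022_a : ∃ t, chk3 f_pp_022_a t 3 1 1 = true :=
  ⟨(l 1), by decide +kernel⟩

theorem s5_pp_022_a : ∃ t, chk3 f_pp_022_a t 8 1 1 = true := ex3_b k0_pp_022_a k1_pp_022_a

theorem s6_pp_022_a : ∃ t, chk3 f_pp_022_a t 4 1 1 = true := ex3_a s5_pp_022_a k2_pp_022_a

theorem s7_pp_022_a : ∃ t, chk3 f_pp_022_a t 2 1 1 = true := ex3_a s6_pp_022_a k3_pp_022_a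

theorem s8_pp_022_a : ∃ t, chk3 f_pp_022_a t 1 1 1 = true := ex3_a s7_pp_022_a k4_pp_022_a

theorem c_pp_022_a : CertB 0 536870912 0 536870912 1040187392 5207648 3 eng mog cd0q0 cd2q2a pd2 false true true .pp 0 2 2
    ndB0q0 ndB2q2a pcB2 cut_pp_022_a Ext.none :=
  certB2 (fam := false) (s1 := true) (s2 := true) (a := 0) (b := 2) (c := 2) (cn := .pp) (n1 := ndB0q0) (n2 := ndB2q2a) (pc := pcB2) (cut := cut_pp_022_a) (xt := Ext.none) (P1 := 0) (W1 := 536870912) (P2 := 0) (W2 := 536870912) (P3 := 1040187392) (W3 := 5207648) (N0 := 3) (En := eng) (mo := mog) (C1 := cd0q0) (C2 := cd2q2a) (C3 := pd2)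
    rfl (fun _ => rfl) s8_pp_022_a

noncomputable def cut_pp_022_b : Cut := Cut.of [[⟨0, 0, 0, 26843545⟩, ⟨1, 1, 0, 26843545⟩, ⟨2, 1, 0, 26843545⟩]]

noncomputable def f_pp_022_b : ℕ → ℕ → ℕ → ℕ → Bool := onCell 0 536870912 1073741824 536870912 1040187392 5207648
    (rowB 3 eng mog cd0q0 cd2q2b pd2 1 false true true .pp 0 2 2 (qsf 0 536870912 1239849684 370763052 2) ndB0q0 ndB2q2b pcB2 cut_pp_022_b Ext.none)

def k0_pp_022_b : ∃ t, chk3 f_pp_022_b t 1 1 1 = true :=
  ⟨(a (a (b (a (b (b (l 1) (a (a (l 1) (l 279741971959)) (a (l 256656357575) (l 16085112)))) (b (a (b (l 16125272) (l 15949584)) (l 15640752)) (a (l 15553912) (l 15550304)))) (b (a (b (b (l 1) (l 272762800311)) (a (l 16116400) (l 16096104))) (b (b (l 300680213719) (l 16176080)) (l 15840760))) (a (b (a (l 15814584) (l 15776376)) (l 15458760)) (b (l 15715752) (l 15386456))))) (b (a (b (a (l 15308240) (l 15192296)) (a (l 14922688) (l 14818864))) (a (b (l 15106976) (l 14738280)) (b (l 15037448) (l 14669920)))) (a (b (a (l 14528768) (l 14436112))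 (a (l 14138120) (l 14056144))) (b (a (l 14359192) (l 14290736)) (a (l 13982248) (l 2)))))) (b (b (b (a (b (b (a (l 16332168) (l 16217560)) (l 16098136)) (l 15970696)) (b (a (l 16058344) (l 15984056)) (l 15905592))) (a (b (l 15954072) (l 15809616)) (l 15712664))) (b (a (l 15585408) (l 15440056)) (a (l 15269680) (l 15142488)))) (b (b (a (l 14930880) (l 14816736)) (a (l 14570680) (l 14465008))) (b (a (l 14196480) (l 2)) (l 2))))) (b (b (a (b (a (b (a (l 15896928) (l 15817616)) (l 15748200)) (b (l 15713096) (l 15621928))) (a (l 15577408) (l 15473792))) (b (a (b (l 15597104) (l 15524264)) (b (l 15506000) (l 15452752))) (a (l 15399656) (l 15353120)))) (a (b (a (l 15328472) (l 15248568)) (a (l 15048184) (l 14984680))) (b (a (l 15198496) (l 2)) (l 2)))) (b (a (b (a (l 14733696) (l 2)) (l 2)) (l 2)) (l 2)))), by decide +kernel⟩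

theorem c_pp_022_b : CertB 0 536870912 1239849684 370763052 1040187392 5207648 3 eng mog cd0q0 cd2q2b pd2 false true true .pp 0 2 2
    ndB0q0 ndB2q2b pcB2 cut_pp_022_b Ext.none :=
  certB1 (fam := false) (s1 := true) (s2 := true) (a := 0) (b := 2) (c := 2) (cn := .pp) (n1 := ndB0q0) (n2 := ndB2q2b) (pc := pcB2) (cut := cut_pp_022_b) (xt := Ext.none) (P1 := 0) (W1 := 536870912) (P2 := 1239849684) (W2 := 370763052) (P3 := 1040187392) (W3 := 5207648) (N0 := 3) (En := eng) (mo := mog) (C1 := cd0q0) (C2 := cd2q2b) (C3 := pd2)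
    rfl (fun _ => rfl) k0_pp_022_b

noncomputable def f_pp_023 : ℕ → ℕ → ℕ → ℕ → Bool := onCell 0 536870912 1073741824 536870912 1040187392 5207648
    (rowB 3 eng mog cd0q0 cd2q3 pd2 1 false true true .up 0 2 3 (qsf 0 536870912 1610612736 536870912 2) ndB0q0 ndB2q3 pcB2 Cut.none Ext.none)

def k0_pp_023 : ∃ t, chk3 f_pp_023 t 1 1 1 = true :=
  ⟨(a (a (b (l 1) (b (a (l 1) (a (l 1) (b (l 1) (l 15145296)))) (a (b (a (l 1) (l 14914144)) (a (l 14584632) (l 14467624))) (b (a (l 14803712) (l 14699784)) (a (l 14356904) (l 14249424)))))) (b (b (l 1) (b (l 1) (l 366713765191))) (b (b (l 280276761943) (a (l 14994656) (l 14815576))) (b (a (l 14549440) (l 14371072)) (a (l 14099656) (l 13921992)))))) (b (b (a (a (l 1) (b (l 1) (l 15954984))) (b (a (l 425233380119) (l 77340772711)) (a (l 15813344) (l 15693320)))) (a (b (l 368861284055) (l 15226808)) (b (l 15362448) (l 15171720)))) (b (a (b (l 14864144) (l 14464080)) (b (l 14801304) (l 14341536))) (a (b (a (l 14216640) (l 14086736)) (a (l 13766904) (l 13634464))) (b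 (l 13930672) (a (l 13525008) (l 13439840))))))), by decide +kernel⟩

theorem c_pp_023 : CertB 0 536870912 1610612736 536870912 1040187392 5207648 3 eng mog cd0q0 cd2q3 pd2 false true true .up 0 2 3
    ndB0q0 ndB2q3 pcB2 Cut.none Ext.none :=
  certB1 (fam := false) (s1 := true) (s2 := true) (a := 0) (b := 2) (c := 3) (cn := .up) (n1 := ndB0q0) (n2 := ndB2q3) (pc := pcB2) (cut := Cut.none) (xt := Ext.none) (P1 := 0) (W1 := 536870912) (P2 := 1610612736) (W2 := 536870912) (P3 := 1040187392) (W3 := 5207648) (N0 := 3) (En := eng) (mo := mog) (C1 := cd0q0) (C2 := cd2q3) (C3 := pd2)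
    rfl (fun _ => rfl) k0_pp_023

noncomputable def f_pp_033 : ℕ → ℕ → ℕ → ℕ → Bool := onCell 0 536870912 1610612736 536870912 1040187392 5207648
    (rowB 3 eng mog cd0q0 cd2q3 pd3 1 false true true .pnn 0 3 3 (qsf 0 536870912 1610612736 536870912 3) ndB0q0 ndB2q3 pcB3 Cut.none Ext.none)

def k0_pp_033 : ∃ t, chk3 f_pp_033 t 1 1 1 = true :=
  ⟨(a (b (a (b (a (b (a (l 14650880) (l 14896264)) (a (l 14769248) (l 15001208))) (b (a (l 15076304) (l 15223304)) (a (l 15165296) (l 15298952)))) (a (b (a (b (l 14833096) (l 14854720)) (l 15055408)) (a (l 14880128) (l 15089152))) (b (a (l 15208720) (l 15329512)) (a (l 15229960) (l 15335848))))) (b (b (l 15518440) (a (l 15518368) (l 15770288))) (b (l 15641704) (b (l 15627432) (a (l 15521256) (l 4)))))) (a (b (a (b (b (l 14981120) (l 4)) (l 4)) (l 4)) (l 4)) (b (l 4) (a (b (l 4) (l 2)) (l 2))))) (b (a (b (b (l 15998088) (a (l 15972760) (l 16110616))) (b (b (l 15967984) (l 15872240)) (a (l 15829248) (l 4)))) (b (b (a (l 16235368) (l 16419240)) (a (l 16194496) (l 16384752)))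 (a (b (l 16330240) (l 2)) (l 2)))) (a (b (a (b (l 4) (l 2)) (l 2)) (l 2)) (l 2)))), by decide +kernel⟩

theorem c_pp_033 : CertB 0 536870912 1610612736 536870912 1040187392 5207648 3 eng mog cd0q0 cd2q3 pd3 false true true .pnn 0 3 3
    ndB0q0 ndB2q3 pcB3 Cut.none Ext.none :=
  certB1 (fam := false) (s1 := true) (s2 := true) (a := 0) (b := 3) (c := 3) (cn := .pnn) (n1 := ndB0q0) (n2 := ndB2q3) (pc := pcB3) (cut := Cut.none) (xt := Ext.none) (P1 := 0) (W1 := 536870912) (P2 := 1610612736) (W2 := 536870912) (P3 := 1040187392) (W3 := 5207648) (N0 := 3) (En := eng) (mo := mog) (C1 := cd0q0) (C2 := cd2q3) (C3 := pd3)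
    rfl (fun _ => rfl) k0_pp_033

noncomputable def f_pp_101 : ℕ → ℕ → ℕ → ℕ → Bool := onCell 536870912 536870912 536870912 536870912 1040187392 5207648
    (rowB 3 eng mog cd0q1 cd2q1 pd0 0 false true true .npn 1 0 1 (qsf 536870912 536870912 536870912 536870912 0) ndB0q1 ndB2q1 pcB0 Cut.none Ext.none)

def k0_pp_101 : ∃ t, chk3 f_pp_101 t 1 1 1 = true :=
  ⟨(l 3), by decide +kernel⟩

theorem c_pp_101 : CertB 536870912 536870912 536870912 536870912 1040187392 5207648 3 eng mog cd0q1 cd2q1 pd0 false true true .npn 1 0 1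
    ndB0q1 ndB2q1 pcB0 Cut.none Ext.none :=
  certB0 (fam := false) (s1 := true) (s2 := true) (a := 1) (b := 0) (c := 1) (cn := .npn) (n1 := ndB0q1) (n2 := ndB2q1) (pc := pcB0) (cut := Cut.none) (xt := Ext.none) (P1 := 536870912) (W1 := 536870912) (P2 := 536870912) (W2 := 536870912) (P3 := 1040187392) (W3 := 5207648) (N0 := 3) (En := eng) (mo := mog) (C1 := cd0q1) (C2 := cd2q1) (C3 := pd0)
    rfl k0_pp_101

noncomputable def f_pp_102_a : ℕ → ℕ → ℕ → ℕ → Bool := onCell 536870912 536870912 0 536870912 1040187392 5207648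
    (rowB 3 eng mog cd0q1 cd2q2a pd0 0 false true true .npp 1 0 2 (qsf 536870912 536870912 0 536870912 0) ndB0q1 ndB2q2a pcB0 Cut.none Ext.none)

def k0_pp_102_a : ∃ t, chk3 f_pp_102_a t 1 1 1 = true :=
  ⟨(l 3), by decide +kernel⟩

theorem c_pp_102_a : CertB 536870912 536870912 0 536870912 1040187392 5207648 3 eng mog cd0q1 cd2q2a pd0 false true true .npp 1 0 2
    ndB0q1 ndB2q2a pcB0 Cut.none Ext.none :=
  certB0 (fam := false) (s1 := true) (s2 := true) (a := 1) (b := 0) (c := 2) (cn := .npp) (n1 := ndB0q1) (n2 := ndB2q2a) (pc := pcB0) (cut := Cut.none) (xt := Ext.none) (P1 := 536870912) (W1 := 536870912) (P2 := 0) (W2 := 536870912) (P3 := 1040187392) (W3 := 5207648) (N0 := 3) (En := eng) (mo := mog) (C1 := cd0q1) (C2 := cd2q2a) (C3 := pd0)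
    rfl k0_pp_102_a

noncomputable def f_pp_102_b : ℕ → ℕ → ℕ → ℕ → Bool := onCell 536870912 536870912 0 536870912 1040187392 5207648
    (rowB 3 eng mog cd0q1 cd2q2b pd0 1 false true true .npp 1 0 2 (qsf 536870912 536870912 1239849684 370763052 0) ndB0q1 ndB2q2b pcB0 Cut.none Ext.none)

def k0_pp_102_b : ∃ t, chk3 f_pp_102_b t 1 1 1 = true :=
  ⟨(l 3), by decide +kernel⟩

theorem c_pp_102_b : CertB 536870912 536870912 1239849684 370763052 1040187392 5207648 3 eng mog cd0q1 cd2q2b pd0 false true true .npp 1 0 2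
    ndB0q1 ndB2q2b pcB0 Cut.none Ext.none :=
  certB1 (fam := false) (s1 := true) (s2 := true) (a := 1) (b := 0) (c := 2) (cn := .npp) (n1 := ndB0q1) (n2 := ndB2q2b) (pc := pcB0) (cut := Cut.none) (xt := Ext.none) (P1 := 536870912) (W1 := 536870912) (P2 := 1239849684) (W2 := 370763052) (P3 := 1040187392) (W3 := 5207648) (N0 := 3) (En := eng) (mo := mog) (C1 := cd0q1) (C2 := cd2q2b) (C3 := pd0)
    rfl (fun _ => rfl) k0_pp_102_b

noncomputable def f_pp_112_a : ℕ → ℕ → ℕ → ℕ → Bool := onCell 536870912 536870912 0 536870912 1040187392 5207648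
    (rowB 3 eng mog cd0q1 cd2q2a pd1 0 false true true .dn 1 1 2 (qsf 536870912 536870912 0 536870912 1) ndB0q1 ndB2q2a pcB1 Cut.none Ext.none)

def k0_pp_112_a : ∃ t, chk3 f_pp_112_a t 1 1 1 = true :=
  ⟨(l 3), by decide +kernel⟩

theorem c_pp_112_a : CertB 536870912 536870912 0 536870912 1040187392 5207648 3 eng mog cd0q1 cd2q2a pd1 false true true .dn 1 1 2
    ndB0q1 ndB2q2a pcB1 Cut.none Ext.none :=
  certB0 (fam := false) (s1 := true) (s2 := true) (a := 1) (b := 1) (c := 2) (cn := .dn) (n1 := ndB0q1) (n2 := ndB2q2a) (pc := pcB1) (cut := Cut.none) (xt := Ext.none) (P1 := 536870912) (W1 := 536870912) (P2 := 0) (W2 := 536870912) (P3 := 1040187392) (W3 := 5207648) (N0 := 3) (En := eng) (mo := mog) (C1 := cd0q1) (C2 := cd2q2a) (C3 := pd1)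
    rfl k0_pp_112_a

noncomputable def f_pp_112_b : ℕ → ℕ → ℕ → ℕ → Bool := onCell 536870912 536870912 536870912 536870912 1040187392 5207648
    (rowB 3 eng mog cd0q1 cd2q2b pd1 1 false true true .dn 1 1 2 (qsf 536870912 536870912 1239849684 370763052 1) ndB0q1 ndB2q2b pcB1 Cut.none Ext.none)

def k0_pp_112_b : ∃ t, chk3 f_pp_112_b t 1 1 1 = true :=
  ⟨(b (l 3) (a (b (l 3) (a (b (b (a (l 3) (l 3)) (a (b (l 15794824) (l 15711256)) (b (l 15726760) (l 15647120)))) (b (a (b (l 15624024) (l 15536944)) (b (l 15563840) (l 2))) (a (b (l 15429136) (l 15301456)) (l 2)))) (b (b (l 3) (l 2)) (l 2)))) (b (l 3) (l 2)))), by decide +kernel⟩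

theorem c_pp_112_b : CertB 536870912 536870912 1239849684 370763052 1040187392 5207648 3 eng mog cd0q1 cd2q2b pd1 false true true .dn 1 1 2
    ndB0q1 ndB2q2b pcB1 Cut.none Ext.none :=
  certB1 (fam := false) (s1 := true) (s2 := true) (a := 1) (b := 1) (c := 2) (cn := .dn) (n1 := ndB0q1) (n2 := ndB2q2b) (pc := pcB1) (cut := Cut.none) (xt := Ext.none) (P1 := 536870912) (W1 := 536870912) (P2 := 1239849684) (W2 := 370763052) (P3 := 1040187392) (W3 := 5207648) (N0 := 3) (En := eng) (mo := mog) (C1 := cd0q1) (C2 := cd2q2b) (C3 := pd1)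
    rfl (fun _ => rfl) k0_pp_112_b

end Pool.Agent.Strip051.G.I9688_9736.Tab.C.BB02

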