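import Pool.Agent.Strip051.G.I9688_9736.Tab
import Pool.Agent.Strip051.PB.ExtD3

/-! # Certificates B16 (generated) -/

set_option linter.all false
set_option maxRecDepth 100000

namespace Pool.Agent.Strip051.G.I9688_9736.Tab.C.BB02

open Pool.Agent.Strip051.PB Pool.Agent.Strip051.PB.T
open Pool.Agent.Strip051.G.I9688_9736.Tab

noncomputable def cut_pm_113 : Cut := Cut.of [[⟨0, 1, 0, 15728640⟩, ⟨1, 1, 0, 15728640⟩, ⟨2, 2, 0, 524288⟩]]

noncomputable def xt_pm_113 : Ext := extD3 3 ⟨4, 1, 1, 5, 33, 5, 163, 200, 81, 200, 1, 64⟩ eng cd0q1 cd2q3 pd1 false true false .nn 1 1 3 rfl ndB0q1 ndB2q3 pcB1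

noncomputable def f_pm_113 : ℕ → ℕ → ℕ → ℕ → Bool := onCell 536870912 536870912 536870912 536870912 1040187392 5207648
    (rowB 3 eng mog cd0q1 cd2q3 pd1 1 false true false .nn 1 1 3 (qsf 536870912 536870912 1610612736 536870912 1) ndB0q1 ndB2q3 pcB1 cut_pm_113 xt_pm_113)

def k0_pm_113 : ∃ t, chk3 f_pm_113 t 1 2 1 = true :=
  ⟨(a (a (l 1) (b (l 1) (a (l 1) (b (l 1) (l 15961904))))) (a (b (a (l 1) (b (l 1) (l 193842604391))) (a (b (a (l 1) (l 122438985175)) (a (l 16138496) (l 16193296))) (b (a (l 16346160) (l 16249864)) (a (l 16161520) (l 16051976))))) (a (b (a (b (l 1) (l 133713182839)) (b (a (l 1) (l 3)) (a (b (l 16039264) (l 15988576)) (b (l 15955256) (l 279875547159))))) (a (b (l 16059016) (l 15901576)) (b (a (l 15909064) (b (l 15835344) (l 15782104))) (b (l 15662576) (l 15705944))))) (b (l 3) (a (a (b (l 286854526759) (b (l 333562349399) (l 375975295319))) (l 3)) (l 3)))))), by decide +kernel⟩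

def k1_pm_113 : ∃ t, chk3 f_pm_113 t 2 3 1 = true :=
  ⟨(b (a (a (l 1) (b (l 1) (l 15788952))) (a (b (l 15846872) (l 15714568)) (b (l 15855192) (l 15655744)))) (a (a (b (l 15885936) (l 15796568)) (b (l 15745456) (l 15748000))) (b (a (l 15613144) (l 15488704)) (a (l 15562520) (l 15378392))))), by decide +kernel⟩

def k2_pm_113 : ∃ t, chk3 f_pm_113 t 3 6 1 = true :=
  ⟨(a (a (b (l 15884360) (l 15611256)) (b (a (l 15895120) (l 15818368)) (b (l 15640672) (l 15493400)))) (a (a (b (l 15715736) (l 15504952)) (b (a (l 15637376) (l 15582656)) (a (l 15471496) (l 15448544)))) (a (b (a (b (l 15559584) (l 15509408)) (b (l 327656766007) (l 358795225751))) (a (b (l 15458304) (l 15409440)) (b (a (l 15449232) (l 362553147847)) (a (l 15414648) (l 15419928))))) (b (l 3) (a (a (b (l 3) (l 389396623735)) (l 3)) (l 3)))))), by decide +kernel⟩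

def k3_pm_113 : ∃ t, chk3 f_pm_113 t 6 7 1 = true :=
  ⟨(b (a (l 15372528) (b (l 15347640) (l 15209008))) (a (l 15197856) (b (a (l 15118704) (l 15064416)) (l 14989616)))), by decide +kernel⟩

def k4_pm_113 : ∃ t, chk3 f_pm_113 t 7 14 1 = true :=
  ⟨(a (a (b (l 15336576) (l 15222176)) (b (l 15342488) (a (l 15263056) (l 15297312)))) (a (b (a (l 15369232) (l 15402512)) (a (l 15344952) (b (l 15409664) (l 15429520)))) (a (a (b (l 15422592) (l 132635081405349903)) (b (l 417313771175) (b (l 419998312503) (l 132097420354846799)))) (a (b (l 3) (b (l 3) (l 8203770612036124788351778895))) (l 3))))), by decide +kernel⟩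

def k5_pm_113 : ∃ t, chk3 f_pm_113 t 14 15 1 = true :=
  ⟨(b (a (l 15118688) (b (l 15240216) (l 15229328))) (a (l 15019424) (a (l 15158168) (l 15290256)))), by decide +kernel⟩

def k6_pm_113 : ∃ t, chk3 f_pm_113 t 15 30 1 = true :=
  ⟨(a (a (b (l 15360024) (l 15395072)) (b (l 15473296) (l 15555072))) (a (b (a (l 15570104) (l 15636624)) (a (l 15704640) (l 134359116364005455))) (b (a (a (l 132576945186013263) (a (l 5389391303974598685105455183) (l 3))) (l 3)) (a (a (l 136464956212641871) (b (b (l 279339010199) (l 184849896631)) (a (l 16069464) (l 583336199696179427727391)))) (a (a (b (l 3) (b (l 7478993680358459420279626271) (c (l 3523393859680329707499345951) (l 2952775311128886513363704351)))) (l 3)) (l 3)))))), by decide +kernel⟩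

def k7_pm_113 : ∃ t, chk3 f_pm_113 t 30 31 1 = true :=
  ⟨(a (l 15520184) (b (l 15679056) (l 15876328))), by decide +kernel⟩

def k8_pm_113 : ∃ t, chk3 f_pm_113 t 62 31 1 = true :=
  ⟨(b (l 137522480466706447) (l 141360395604508687)), by decide +kernel⟩

def k9_pm_113 : ∃ t, chk3 f_pm_113 t 126 62 1 = true :=
  ⟨(a (l 139353305452183631) (b (l 587834322946403536001055) (l 16757536))), by decide +kernel⟩

def k10_pm_113 : ∃ t, chk3 f_pm_113 t 508 62 1 = true :=
  ⟨(b (c (a (l 594945831017195063334943) (b (b (l 2672317593378772530169124895) (b (l 2933447024826010493634271263) (l 1724523570141617643826599967))) (l 601850966138661938698271))) (b (l 584793204247626788165663) (l 593628041737429393856543))) (b (l 601577723742070292732959) (l 16777544))), by decide +kernel⟩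

def k11_pm_113 : ∃ t, chk3 f_pm_113 t 509 124 1 = true :=
  ⟨(a (b (a (b (l 3) (b (l 3) (c (l 1937298463149945657071720479) (l 234242803031)))) (l 3)) (c (b (a (c (b (l 2304814574985007815809538079) (l 2672329840575685593129589791)) (b (l 2411196505624463406950848543) (b (l 2701339685485787462486186015) (l 2933454833563361196099083295)))) (l 3)) (c (b (a (l 604417657638293101321247) (l 2034018345208106732853386271)) (c (l 2769044746912863161679043615) (l 2759373331709034843730353183))) (b (a (l 602969876458882947341343) (l 2034017768459124053275974687)) (c (l 2759373322773893183027600415) (l 2759373312685830017714641951))))) (b (a (b (l 2507904193231870255699777567) (c (l 2894764819316446528633411615) (l 166597242391))) (l 3)) (b (c (b (l 2546599117195012291492976671) (l 2643314628239519026368763935)) (l 2720680600026133817811556383)) (a (l 16654312) (c (a (l 2711014602688686023854119967) (b (l 1859930632277404687089556511) (l 2314488304678756632153594911))) (b (l 2527255275675196115353557023) (l 2759368654306490653614381087))))))))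 (l 3)), by decide +kernel⟩

def k12_pm_113 : ∃ t, chk3 f_pm_113 t 1018 125 1 = true :=
  ⟨(b (a (l 604078698715938672729119) (a (c (l 604611924911819332066335) (l 604585407717213375765535)) (b (b (c (c (l 2836745023139233989972433951) (l 2846416415284632215785069599)) (c (b (l 2749702356344760533292375071) (l 605005647605642603748383)) (c (l 2556272796160214905085189151) (l 2198428656101837413276605471)))) (c (l 16770400) (l 16750000))) (l 16763744)))) (l 602703407420949056089823)), by decide +kernel⟩

def k13_pm_113 : ∃ t, chk3 f_pm_113 t 1019 125 1 = true :=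
  ⟨(b (c (a (c (b (b (a (b (l 1666504556221645980878674975) (l 2140403437734788708429093919)) (l 3)) (c (a (l 2701344971919116461220813855) (l 1879275665918056626709273631)) (l 2343503162491560532239031327))) (b (c (l 2778715999554759330067045407) (l 2788387411876283886499879967)) (l 16766496))) (b (b (a (b (l 1666505162370127027929029663) (l 2140403452722768268318661663)) (l 3)) (c (l 2333831756799334627296795679) (l 2333831757664025755752209439))) (b (c (l 2788387417640891409534393375) (l 2788387423405498932568235039)) (l 16766760)))) (b (l 3) (b (a (a (a (b (l 3) (c (l 2043689455464197082300980255) (l 2043689465264029871459539999))) (l 3)) (l 3)) (l 3)) (c (a (c (l 2498244611758453404207181023) (l 2498244615505450561922428127)) (b (l 3) (c (l 1608475267032850010359934175) (l 1608475270203385934735404255)))) (a (c (l 2449887586467862552649428191) (l 2488573216730758220106984671)) (a (c (l 1608475382324995523242667231) (l 1608475385783762029928279263)) (l 3))))))) (a (b (b (a (c (c (l 2005004339692525113387097119) (l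 2005003178700569974291143711)) (c (b (l 1685846592554616318771256351) (l 2130732367542720644076248095)) (b (l 1743872363747526482674523167) (l 2169415858559762245732342815)))) (l 3)) (c (c (l 2333831764293324407241858079) (l 2333831770922623058731523103)) (c (l 2324160371283235052974562335) (l 2324159409746700210863791135)))) (c (b (c (l 2798058835727023489000397855) (l 2817401654605465078830210079)) (l 16767032)) (b (c (l 2807730253813155568467074079) (l 2817401666134680124899236895)) (l 604408146035880069340191)))) (a (b (l 3) (c (c (b (l 1734204189406047614700133407) (l 2488573220477755309102755039)) (b (l 1724532788037277352033573919) (l 2459559004842231742776765663))) (c (b (l 1724532792937193746612935711) (l 2488573228259979931965484255)) (b (l 1724532792072502618158062623) (l 2488573232295207465832443103))))) (b (l 3) (b (l 3) (a (c (c (l 1598803982685431320748256479) (l 1598803986144197758714408159)) (c (l 1589132772125173987525291231) (l 1589132787401385847711280351))) (l 3))))))) (b (a (l 604205664087438271605983)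 (b (c (c (b (c (l 2565944202284790153900240095) (l 2565944205167095633404538079)) (c (l 2865757726285891341946662111) (l 2865757728591735794269629663))) (c (b (l 2565944207761170736757124319) (l 2856086324052432905762712799)) (b (l 2565944210643476216261405919) (l 2856086326358277358085663967)))) (c (a (l 604503982666874307980511) (c (l 2353173067223939074794007775) (l 2353173069529783389678021855))) (a (l 604509459047594603834591) (c (l 2352569645114022655378374879) (l 2352569645114023961048695007))))) (c (b (c (l 3155296389338355367639793887) (l 3155296389338357772821987551)) (l 16770504)) (c (c (l 3174639202452206820463558879) (l 3174639202452207919975448799)) (c (l 3174639202452208950767845599) (l 3174639202452209981560258783)))))) (c (l 603434359806808546782943) (l 603445024339041217850591)))), by decide +kernel⟩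

def k14_pm_113 : ∃ t, chk3 f_pm_113 t 255 62 1 = true :=
  ⟨(b (l 3) (a (a (b (l 3) (b (b (l 3) (a (c (a (c (c (b (l 1917356350052957019513929951) (l 2429940897569590232320065759)) (b (l 1917356350052957569269989599) (l 2429940897569590507198218463))) (c (b (l 1917356350052868027792031967) (l 2420269491012673679959245023)) (b (l 1917356350052868577548435679) (l 2420269491012673954837397727)))) (l 3)) (a (c (c (a (l 2449283710683414609669603551) (l 1830313691040626203366473951)) (a (l 2449283710683415021986709727) (l 1830313691040626409524822239))) (c (a (l 2449283710683415434303815903) (l 1830313691040626684402958559)) (a (l 2468626523797249913416220895) (l 1820642284483754868421427423)))) (l 3))) (l 3))) (b (c (a (b (a (c (l 2903839818858540055811621087) (l 2913511225415457570246099167)) (a (a (c (l 1956041976280663773454450911) (l 1946370569723746602618323167)) (l 3)) (l 3))) (c (c (l 2662054654935600614412304607) (l 2662054654935600958009934047)) (c (l 2662054654935601370327023839) (l 2662054654935601713924636895))))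 (l 3)) (a (c (b (a (l 2932854038529291911919780063) (c (l 1723928218914634837101920479) (l 1714256812357716154437386463))) (c (l 2662054654935511966288265439) (l 2662054654935557321143140575))) (c (b (l 2352569645114237884780839135) (l 2652383248378640631343120607)) (b (l 2352569645114236372952580319) (l 2652383248378640906221273311)))) (l 3))) (a (c (c (c (l 2923786036500215194220195551) (l 2933457444498285070449306847)) (c (l 2933457446227668289432480991) (l 2933457447668821132263615711))) (c (c (l 2943128855666890939773250783) (l 2943128857108043713885252831)) (c (l 2952800265106113590114708703) (l 2962471673392413705056578783)))) (a (a (a (c (c (c (l 2110784481191307720515092703) (l 2110784481191308132832182495)) (c (l 2110784481191308613868749023) (l 2110784481191308957466345695))) (c (c (l 2120455887748226403181084895) (l 2120455887748226746779042015)) (c (l 2120455887748227090376655071) (l 2130127294305144467371917535)))) (b (l 3) (b (l 3) (c (c (l 2236512766431222557617946847) (l 2226841359874306623732367583))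 (c (l 2217169953317390689846788319) (l 2207498546760474687241732319)))))) (l 3)) (l 3)))))) (l 3)) (l 3))), by decide +kernel⟩

def k15_pm_113 : ∃ t, chk3 f_pm_113 t 126 63 1 = true :=
  ⟨(b (l 143109306578108495) (l 16665992)), by decide +kernel⟩

def k16_pm_113 : ∃ t, chk3 f_pm_113 t 254 63 1 = true :=
  ⟨(b (a (l 16746776) (a (l 598120976840882814017055) (b (l 601949108466293049011807) (l 16765336)))) (l 143473451144757327)), by decide +kernel⟩

def k17_pm_113 : ∃ t, chk3 f_pm_113 t 1020 126 1 = true :=
  ⟨(a (b (c (l 602969732197391222779487) (l 602957626532794126511711)) (l 16769952)) (b (b (a (b (c (c (b (c (l 2584683402480228132070424799) (l 2584683402480228956704358623)) (l 2981814627739094359199788639)) (b (c (l 2584683402480229781338308831) (l 2575011995923313503854952671)) (l 2991486038907699747487477343))) (c (b (c (l 2575011995923314328488886495) (l 2575011995923315084403687647)) (l 3001157450076305135775165663)) (c (b (l 2575011995923315840317833439) (l 3001157453823301743734664415)) (b (l 2575011995923316596232634591)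 (l 3010828862686062885857864927))))) (c (l 603931557131247081860703) (l 603943662813917402295903))) (a (b (c (b (l 3) (c (b (a (l 1791628064813020535787651295) (l 3)) (b (l 2043084635292859693274988639) (l 2352569645114203456330383455))) (c (l 2052756041849778238500126815) (l 2052756041849779131853537503)))) (b (l 3) (c (c (l 2043084635292862854370345183) (l 2043084635292863679004279007)) (c (l 2043084635292864503638212831) (l 2043084635292865328272146655))))) (c (c (c (l 2981814731790246612231220831) (l 2972143327827404269869248095)) (c (l 2972143330133248584753213023) (l 2972143332439092968356654687))) (c (c (l 2972143334744937283240619615) (l 2972143337339011974276296287)) (c (l 2972143339644856289160244831) (l 2972143341950700604044209247))))) (b (l 3) (b (a (b (l 3) (c (c (l 2371912458228031888129556575) (l 2371912458228034018433744991)) (c (l 2371912458228036148737933407) (l 2371912458228038210322661471)))) (l 3)) (c (c (l 2691673219053415606974295647) (l 2691673222800412970848120415)) (c (l 2682001819990493301324295775)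 (l 2681397468049383141608570975))))))) (b (c (l 604175688254075149184607) (l 604185488095248084381279)) (l 16769544))) (l 16776064))), by decide +kernel⟩

def k18_pm_113 : ∃ t, chk3 f_pm_113 t 1021 126 1 = true :=
  ⟨(b (a (b (a (a (a (b (l 3) (b (l 3) (c (c (l 1868999317268341959562870879) (l 1868999317268344089867042911)) (c (l 1868999317268346151451754591) (l 1868999317268348213036466271))))) (l 3)) (l 3)) (l 3)) (b (a (c (c (b (l 2179088255620373727785594463) (l 2711015431206909281418636895)) (b (l 2188759664194905730707828319) (l 2711015433224524869418495583))) (c (b (l 2188759760752072189524389471) (l 2711015434953910012547165791)) (b (l 2159745549151773202127728223) (l 2711015436971525463108071007)))) (l 3)) (c (c (a (l 604058954939432923852383) (l 2285473897802361378035707487)) (a (l 604060684325606844657247) (l 2285473897802364332973567583))) (c (a (l 604062701942088197713503) (l 2275802491533679874751311455)) (a (l 604064431328193399041631) (l 2275802491533682073774927455)))))) (l 3)) (a (b (c (c (l 3233271517722279917220093471)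 (l 3233271517722279917220584991)) (c (l 3233271517866401221330218591) (l 3233271518154636682723552863))) (l 16763648)) (a (c (b (b (c (l 2140402901193918350704963167) (l 2140402902923303150236200543)) (l 3001158063862857203430317599)) (l 16770728)) (b (c (c (l 2478902084280925883342958175) (l 2478902083704466230551309919)) (c (l 2478902083128007264954445407) (l 2507916302222298025160978015))) (l 16771008))) (b (b (l 3) (b (a (c (l 1647161413084031220394335775) (c (l 214916134951) (l 213305522503))) (l 3)) (c (l 2150074566725853507747700255) (c (l 2140403156710171960530279967) (l 2140403154404328951316864543))))) (b (c (l 2846415908575630941095091743) (l 2856087382578455993993829919)) (l 16777728)))))), by decide +kernel⟩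

def k19_pm_113 : ∃ t, chk3 f_pm_113 t 511 126 1 = true :=
  ⟨(b (l 3) (a (b (l 3) (a (a (b (a (b (l 3) (c (l 2217774627067672598407618079) (l 2208103215322608794279681567))) (l 3)) (c (l 2691673506851433069046095391) (l 2691673510310197582867111455))) (a (b (l 3) (b (l 3) (c (l 1908289623587395805021052447) (l 1898618210977640872437898783)))) (l 3))) (l 3))) (l 3))), by decide +kernel⟩

def k20_pm_113 : ∃ t, chk3 f_pm_113 t 510 127 1 = true :=
  ⟨(a (l 143615563057872975) (b (b (l 16776280) (l 16757608)) (l 16746056))), by decide +kernel⟩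

def k21_pm_113 : ∃ t, chk3 f_pm_113 t 1022 127 1 = true :=
  ⟨(b (a (b (a (b (l 604351652882154387578399) (l 16761616)) (b (c (l 2536930946024067561252003359) (l 2536930940547690414369889823)) (c (l 16777688) (l 16777872)))) (l 16773168)) (b (a (b (a (b (l 3) (c (l 3049515496422974092844801567) (l 3088201116021343574946504223))) (l 3)) (a (c (l 2740030503607221217073143327) (l 2749701905264221855892069919)) (b (l 3) (c (l 2343502818632721783273692703) (l 2333831406887657979145575967))))) (l 3)) (b (b (a (c (l 16777720) (l 183240754487)) (a (c (l 2188760255211282890113687071) (l 2179088853842512627447160351)) (l 3))) (c (l 2923787037236012748379156063) (c (l 2923787044153545418152717919) (l 2923787040406552864642838111)))) (a (l 16771712) (c (l 3155900791719723217246334559) (l 3175243634521290288275762783)))))) (b (b (l 16773608) (l 16765256)) (l 16759808))), by decide +kernel⟩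

def k22_pm_113 : ∃ t, chk3 f_pm_113 t 1023 254 1 = true :=
  ⟨(a (b (l 3) (a (b (l 3) (a (b (a (c (l 2014674863832148307125382751) (l 2005003447475401508226756191)) (l 3)) (c (l 2711016113448210319725620831) (l 2730358928003199978131451487))) (a (b (l 3) (c (l 3455109992602731038742806623) (l 3474452805716567579439480927))) (l 3)))) (l 3))) (l 3)), by decide +kernel⟩

def k23_pm_113 : ∃ t, chk3 f_pm_113 t 2046 255 1 = true :=
  ⟨(b (a (b (c (l 2991486827217756463479025247) (l 3010829629667068261928627807)) (l 16774752)) (b (a (a (b (c (l 6240475080994839887080865887) (l 6298503520336344011612291167)) (c (l 159081563351) (l 158544692599))) (b (l 3) (b (l 3) (c (l 132238017575) (l 132238017735))))) (l 3)) (b (b (a (l 3329986036533721079098306143) (a (c (l 2217169953317363133350461535) (l 2207498546760447543061971039)) (l 3))) (c (l 2981815394143652039669214815) (l 2981815383190899670049648223))) (c (l 3262286205911523188788194911) (l 3281629008649065844425764447))))) (b (b (l 16775496) (l 16771088)) (l 16768472))), by decide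 +kernel⟩

def k24_pm_113 : ∃ t, chk3 f_pm_113 t 2047 255 1 = true :=
  ⟨(a (b (b (l 3) (b (l 3) (a (a (b (c (l 3658209530298000628563329119) (l 3667880936854918692753244255)) (c (l 158007821367) (l 158007821623))) (a (b (l 3) (c (l 198273139271) (l 199346881191))) (l 3))) (l 3)))) (b (a (b (c (l 2991486808771017612450459231) (l 3010829612661480879341645407)) (l 16775848)) (b (a (b (c (l 6395217585905518468757389407) (l 6433903212133187152104046687)) (b (a (l 2565340589366377160299790431) (l 3)) (l 2816797159846218173212573791))) (l 3)) (b (b (a (l 185925108903) (a (l 2226841359874278861078003807) (l 3))) (c (l 3010225290984555130313637983) (l 3010225290984555817508470879))) (c (l 189683204647) (l 3291300441723167931772792415))))) (b (c (l 144097630245437519) (l 144100722620481615)) (l 16770208)))) (b (l 3) (a (b (b (l 3) (b (l 3) (a (a (b (c (l 202031235527) (l 3793609222094835453998399583)) (l 2865154192630797292886884447)) (a (b (l 3) (b (l 3) (l 1946370569723678845232119903))) (l 3))) (l 3)))) (b (b (a (c (l 3145624982781386588494037087)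 (c (l 174650819175) (l 174650819207))) (a (b (c (l 351281348679) (l 354502574199)) (b (a (l 2584683402480200987892662367) (l 3)) (c (l 157470949879) (l 156934079015)))) (l 3))) (a (l 16776496) (b (a (l 3503467025387315587256516703) (a (c (l 148344144391) (l 148344144423)) (b (l 3) (c (l 209010557335) (l 210621170103))))) (c (l 182167011671) (l 183240753527))))) (a (l 16773904) (b (l 144109243840118863) (l 6))))) (b (l 3) (b (b (l 3) (b (l 3) (a (a (a (b (c (l 202031235383) (l 203104977223)) (c (l 151565369815) (l 159618433431))) (b (l 3) (a (c (l 198273139031) (l 199883751799)) (l 3)))) (l 3)) (l 3)))) (b (b (a (a (a (l 16777376) (b (c (l 149954756887) (l 149417885991)) (l 16777440))) (a (b (c (l 350744477783) (l 353965703271)) (a (c (l 153712853399) (l 154786595239)) (b (l 3) (l 6)))) (l 3))) (l 3)) (a (a (l 16776840) (l 6)) (l 6))) (l 6))))))), by decide +kernel⟩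

theorem s25_pm_113 : ∃ t, chk3 f_pm_113 t 1023 255 1 = true := ex3_a k23_pm_113 k24_pm_113

theorem s26_pm_113 : ∃ t, chk3 f_pm_113 t 1023 127 1 = true := ex3_b k22_pm_113 s25_pm_113

theorem s27_pm_113 : ∃ t, chk3 f_pm_113 t 511 127 1 = true := ex3_a k21_pm_113 s26_pm_113

theorem s28_pm_113 : ∃ t, chk3 f_pm_113 t 255 127 1 = true := ex3_a k20_pm_113 s27_pm_113

theorem s29_pm_113 : ∃ t, chk3 f_pm_113 t 510 126 1 = true := ex3_a k17_pm_113 k18_pm_113

theorem s30_pm_113 : ∃ t, chk3 f_pm_113 t 255 126 1 = true := ex3_a s29_pm_113 k19_pm_113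

theorem s31_pm_113 : ∃ t, chk3 f_pm_113 t 255 63 1 = true := ex3_b s30_pm_113 s28_pm_113

theorem s32_pm_113 : ∃ t, chk3 f_pm_113 t 127 63 1 = true := ex3_a k16_pm_113 s31_pm_113

theorem s33_pm_113 : ∃ t, chk3 f_pm_113 t 63 63 1 = true := ex3_a k15_pm_113 s32_pm_113

theorem s34_pm_113 : ∃ t, chk3 f_pm_113 t 509 125 1 = true := ex3_a k12_pm_113 k13_pm_113

theorem s35_pm_113 : ∃ t, chk3 f_pm_113 t 509 62 1 = true := ex3_b k11_pm_113 s34_pm_113

theorem s36_pm_113 : ∃ t, chk3 f_pm_113 t 254 62 1 = true := ex3_a k10_pm_113 s35_pm_113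

theorem s37_pm_113 : ∃ t, chk3 f_pm_113 t 127 62 1 = true := ex3_a s36_pm_113 k14_pm_113

theorem s38_pm_113 : ∃ t, chk3 f_pm_113 t 63 62 1 = true := ex3_a k9_pm_113 s37_pm_113

theorem s39_pm_113 : ∃ t, chk3 f_pm_113 t 63 31 1 = true := ex3_b s38_pm_113 s33_pm_113

theorem s40_pm_113 : ∃ t, chk3 f_pm_113 t 31 31 1 = true := ex3_a k8_pm_113 s39_pm_113

theorem s41_pm_113 : ∃ t, chk3 f_pm_113 t 15 31 1 = true := ex3_a k7_pm_113 s40_pm_113

theorem s42_pm_113 : ∃ t, chk3 f_pm_113 t 15 15 1 = true := ex3_b k6_pm_113 s41_pm_113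

theorem s43_pm_113 : ∃ t, chk3 f_pm_113 t 7 15 1 = true := ex3_a k5_pm_113 s42_pm_113

theorem s44_pm_113 : ∃ t, chk3 f_pm_113 t 7 7 1 = true := ex3_b k4_pm_113 s43_pm_113

theorem s45_pm_113 : ∃ t, chk3 f_pm_113 t 3 7 1 = true := ex3_a k3_pm_113 s44_pm_113

theorem s46_pm_113 : ∃ t, chk3 f_pm_113 t 3 3 1 = true := ex3_b k2_pm_113 s45_pm_113

theorem s47_pm_113 : ∃ t, chk3 f_pm_113 t 1 3 1 = true := ex3_a k1_pm_113 s46_pm_113

theorem s48_pm_113 : ∃ t, chk3 f_pm_113 t 1 1 1 = true := ex3_b k0_pm_113 s47_pm_113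

theorem c_pm_113 : CertB 536870912 536870912 1610612736 536870912 1040187392 5207648 3 eng mog cd0q1 cd2q3 pd1 false true false .nn 1 1 3
    ndB0q1 ndB2q3 pcB1 cut_pm_113 xt_pm_113 :=
  certB1 (fam := false) (s1 := true) (s2 := false) (a := 1) (b := 1) (c := 3) (cn := .nn) (n1 := ndB0q1) (n2 := ndB2q3) (pc := pcB1) (cut := cut_pm_113) (xt := xt_pm_113) (P1 := 536870912) (W1 := 536870912) (P2 := 1610612736) (W2 := 536870912) (P3 := 1040187392) (W3 := 5207648) (N0 := 3) (En := eng) (mo := mog) (C1 := cd0q1) (C2 := cd2q3) (C3 := pd1)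
    rfl (fun _ => rfl) s48_pm_113

noncomputable def cut_pm_123 : Cut := Cut.of [[⟨0, 1, 0, 15728640⟩, ⟨1, 1, 0, 15728640⟩, ⟨2, 2, 0, 524288⟩]]

noncomputable def f_pm_123 : ℕ → ℕ → ℕ → ℕ → Bool := onCell 536870912 536870912 1073741824 536870912 1040187392 5207648
    (rowB 3 eng mog cd0q1 cd2q3 pd2 1 false true false .npn 1 2 3 (qsf 536870912 536870912 1610612736 536870912 2) ndB0q1 ndB2q3 pcB2 cut_pm_123 Ext.none)

def k0_pm_123 : ∃ t, chk3 f_pm_123 t 2 1 1 = true :=
  ⟨(b (a (b (b (a (b (l 15135328) (l 14791672)) (b (l 15083184) (l 14796776))) (a (b (l 14481624) (l 14205088)) (b (l 14543936) (l 14324424)))) (a (b (b (l 13961944) (l 13752040)) (l 13501408)) (b (b (l 14138032) (l 13984584)) (l 13734680)))) (b (b (a (b (l 15056360) (l 14838352)) (b (a (l 15054600) (l 15064720)) (l 14925752))) (a (b (l 14653984) (l 14502816)) (b (l 14826520) (l 14760616)))) (a (b (b (l 14384608) (l 14299192)) (a (l 14115336) (l 14354616))) (b (b (l 14727840) (l 14728216)) (a (l 14632784) (l 14959832)))))) (a (a (b (b (l 13280296) (l 13190400))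 (b (l 13231384) (l 13440488))) (b (b (l 13646216) (b (l 13707232) (l 13750352))) (b (l 13907880) (b (l 14143992) (l 2))))) (b (a (b (a (l 14103752) (l 14420656)) (a (l 14227088) (l 14603864))) (b (a (l 14783096) (l 15145576)) (a (l 15018976) (l 2)))) (a (b (b (l 14631872) (l 2)) (l 2)) (l 2))))), by decide +kernel⟩

def k1_pm_123 : ∃ t, chk3 f_pm_123 t 3 2 1 = true :=
  ⟨(a (b (a (b (b (a (l 15086192) (l 15122872)) (a (l 15032544) (l 15134272))) (a (l 15017608) (l 15176672))) (b (b (a (l 15181480) (l 15274520)) (a (l 15271504) (l 15462496))) (a (b (l 15398096) (l 15559816)) (b (l 15689144) (l 15951656))))) (a (b (a (l 15115008) (b (l 15376856) (l 15527040))) (a (l 15339480) (b (l 15632760) (l 15723880)))) (b (a (b (l 15756856) (l 15887184)) (b (l 16124912) (l 16210536))) (a (b (l 15974824) (l 2)) (l 2))))) (b (b (a (a (b (b (l 15352992) (l 15499288)) (l 15594040)) (b (a (l 15609632) (b (l 15668080) (l 15917320))) (a (l 16042312) (b (l 16176776) (l 16441928))))) (b (a (a (b (l 15916152) (l 16198128)) (b (l 16322000) (a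 (l 16471224) (l 16675576)))) (a (b (a (l 16713832) (b (l 16744264) (a (l 16742112) (l 16756600)))) (a (b (l 16720640) (l 16729200)) (a (l 58082653671) (l 16750768)))) (a (b (b (a (l 16766728) (l 16769104)) (l 16762464)) (l 892380033335)) (b (a (b (a (l 16771352) (l 16772520)) (l 16767408)) (b (a (b (l 16774792) (l 16772272)) (b (a (l 16775344) (b (a (l 16776288) (b (a (l 16776752) (b (a (l 6) (b (l 6) (l 2))) (l 2))) (l 2))) (l 2))) (l 2))) (l 2))) (l 2))))) (a (a (b (l 16485552) (l 16648080)) (b (a (l 16680752) (l 16732848)) (a (l 16711304) (l 2)))) (a (b (a (l 751182934183) (l 2)) (l 2)) (l 2))))) (a (a (b (b (l 16002440) (l 16187976)) (a (l 16276824) (l 16408096))) (b (a (l 16474344) (l 16590104)) (a (l 16544728) (l 2)))) (a (a (b (b (l 16684192) (l 2)) (l 2)) (l 2)) (l 2)))) (a (b (a (b (l 16404624) (l 2)) (l 2)) (l 2)) (l 2)))), by decide +kernel⟩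

def k2_pm_123 : ∃ t, chk3 f_pm_123 t 3 3 1 = true :=
  ⟨(a (b (a (b (a (l 15546008) (l 2)) (l 2)) (l 2)) (l 2)) (l 2)), by decide +kernel⟩

theorem s3_pm_123 : ∃ t, chk3 f_pm_123 t 3 1 1 = true := ex3_b k1_pm_123 k2_pm_123

theorem s4_pm_123 : ∃ t, chk3 f_pm_123 t 1 1 1 = true := ex3_a k0_pm_123 s3_pm_123

theorem c_pm_123 : CertB 536870912 536870912 1610612736 536870912 1040187392 5207648 3 eng mog cd0q1 cd2q3 pd2 false true false .npn 1 2 3
    ndB0q1 ndB2q3 pcB2 cut_pm_123 Ext.none :=
  certB1 (fam := false) (s1 := true) (s2 := false) (a := 1) (b := 2) (c := 3) (cn := .npn) (n1 := ndB0q1) (n2 := ndB2q3) (pc := pcB2) (cut := cut_pm_123) (xt := Ext.none) (P1 := 536870912) (W1 := 536870912) (P2 := 1610612736) (W2 := 536870912) (P3 := 1040187392) (W3 := 5207648) (N0 := 3) (En := eng) (mo := mog) (C1 := cd0q1) (C2 := cd2q3) (C3 := pd2)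
    rfl (fun _ => rfl) s4_pm_123

noncomputable def f_pm_133 : ℕ → ℕ → ℕ → ℕ → Bool := onCell 536870912 536870912 1610612736 536870912 1040187392 5207648
    (rowB 3 eng mog cd0q1 cd2q3 pd3 0 false true false .dn 1 3 3 (qsf 536870912 536870912 1610612736 536870912 3) ndB0q1 ndB2q3 pcB3 Cut.none Ext.none)

def k0_pm_133 : ∃ t, chk3 f_pm_133 t 1 1 1 = true :=
  ⟨(a (b (l 1) (a (b (l 1) (a (b (l 1) (l 16625112)) (l 1))) (l 1))) (l 1)), by decide +kernel⟩

theorem c_pm_133 : CertB 536870912 536870912 1610612736 536870912 1040187392 5207648 3 eng mog cd0q1 cd2q3 pd3 false true false .dn 1 3 3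
    ndB0q1 ndB2q3 pcB3 Cut.none Ext.none :=
  certB0 (fam := false) (s1 := true) (s2 := false) (a := 1) (b := 3) (c := 3) (cn := .dn) (n1 := ndB0q1) (n2 := ndB2q3) (pc := pcB3) (cut := Cut.none) (xt := Ext.none) (P1 := 536870912) (W1 := 536870912) (P2 := 1610612736) (W2 := 536870912) (P3 := 1040187392) (W3 := 5207648) (N0 := 3) (En := eng) (mo := mog) (C1 := cd0q1) (C2 := cd2q3) (C3 := pd3)
    rfl k0_pm_133

noncomputable def cut_pm_202_a : Cut := Cut.of [[⟨0, 1, 0, 26843545⟩, ⟨1, 0, 0, 26843545⟩, ⟨2, 1, 0, 26843545⟩], [⟨0, 0, 1, 46137344⟩, ⟨1, 1, 2, 46137344⟩, ⟨2, 1, 0, 1048576⟩, ⟨0, 0, 0, 1054867456⟩, ⟨0, 1, 0, 38117834⟩, ⟨1, 0, 0, 38117834⟩, ⟨1, 1, 0, 1054867456⟩]]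

noncomputable def f_pm_202_a : ℕ → ℕ → ℕ → ℕ → Bool := onCell 0 536870912 0 536870912 1040187392 5207648
    (rowB 3 eng mog cd0q2 cd2q2a pd0 0 false true false .pp 2 0 2 (qsf 0 536870912 0 536870912 0) ndB0q2 ndB2q2a pcB0 cut_pm_202_a Ext.none)

def k0_pm_202_a : ∃ t, chk3 f_pm_202_a t 1 1 1 = true :=
  ⟨(a (l 3) (b (l 3) (a (l 3) (b (l 3) (a (l 3) (a (l 3) (b (l 3) (b (l 3) (l 6))))))))), by decide +kernel⟩

theorem c_pm_202_a : CertB 0 536870912 0 536870912 1040187392 5207648 3 eng mog cd0q2 cd2q2a pd0 false true false .pp 2 0 2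
    ndB0q2 ndB2q2a pcB0 cut_pm_202_a Ext.none :=
  certB0 (fam := false) (s1 := true) (s2 := false) (a := 2) (b := 0) (c := 2) (cn := .pp) (n1 := ndB0q2) (n2 := ndB2q2a) (pc := pcB0) (cut := cut_pm_202_a) (xt := Ext.none) (P1 := 0) (W1 := 536870912) (P2 := 0) (W2 := 536870912) (P3 := 1040187392) (W3 := 5207648) (N0 := 3) (En := eng) (mo := mog) (C1 := cd0q2) (C2 := cd2q2a) (C3 := pd0)
    rfl k0_pm_202_a

noncomputable def cut_pm_202_b : Cut := Cut.of [[⟨0, 1, 0, 26843545⟩, ⟨1, 0, 0, 26843545⟩, ⟨2, 1, 0, 26843545⟩], [⟨0, 0, 1, 46137344⟩, ⟨1, 1, 2, 46137344⟩, ⟨2, 1, 0, 1048576⟩, ⟨0, 0, 0, 1054867456⟩, ⟨0, 1, 0, 38117834⟩, ⟨1, 0, 0, 38117834⟩, ⟨1, 1, 0, 1054867456⟩]]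

noncomputable def f_pm_202_b : ℕ → ℕ → ℕ → ℕ → Bool := onCell 0 536870912 1239849684 370763052 1040187392 5207648
    (rowB 3 eng mog cd0q2 cd2q2b pd0 0 false true false .pp 2 0 2 (qsf 0 536870912 1239849684 370763052 0) ndB0q2 ndB2q2b pcB0 cut_pm_202_b Ext.none)

def k0_pm_202_b : ∃ t, chk3 f_pm_202_b t 1 1 1 = true :=
  ⟨(l 3), by decide +kernel⟩

theorem c_pm_202_b : CertB 0 536870912 1239849684 370763052 1040187392 5207648 3 eng mog cd0q2 cd2q2b pd0 false true false .pp 2 0 2
    ndB0q2 ndB2q2b pcB0 cut_pm_202_b Ext.none :=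
  certB0 (fam := false) (s1 := true) (s2 := false) (a := 2) (b := 0) (c := 2) (cn := .pp) (n1 := ndB0q2) (n2 := ndB2q2b) (pc := pcB0) (cut := cut_pm_202_b) (xt := Ext.none) (P1 := 0) (W1 := 536870912) (P2 := 1239849684) (W2 := 370763052) (P3 := 1040187392) (W3 := 5207648) (N0 := 3) (En := eng) (mo := mog) (C1 := cd0q2) (C2 := cd2q2b) (C3 := pd0)
    rfl k0_pm_202_b

noncomputable def f_pm_203 : ℕ → ℕ → ℕ → ℕ → Bool := onCell 0 536870912 0 536870912 1040187392 5207648
    (rowB 3 eng mog cd0q2 cd2q3 pd0 1 false true false .up 2 0 3 (qsf 0 536870912 1610612736 536870912 0) ndB0q2 ndB2q3 pcB0 Cut.none Ext.none)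

def k0_pm_203 : ∃ t, chk3 f_pm_203 t 1 1 1 = true :=
  ⟨(l 3), by decide +kernel⟩

theorem c_pm_203 : CertB 0 536870912 1610612736 536870912 1040187392 5207648 3 eng mog cd0q2 cd2q3 pd0 false true false .up 2 0 3
    ndB0q2 ndB2q3 pcB0 Cut.none Ext.none :=
  certB1 (fam := false) (s1 := true) (s2 := false) (a := 2) (b := 0) (c := 3) (cn := .up) (n1 := ndB0q2) (n2 := ndB2q3) (pc := pcB0) (cut := Cut.none) (xt := Ext.none) (P1 := 0) (W1 := 536870912) (P2 := 1610612736) (W2 := 536870912) (P3 := 1040187392) (W3 := 5207648) (N0 := 3) (En := eng) (mo := mog) (C1 := cd0q2) (C2 := cd2q3) (C3 := pd0)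
    rfl (fun _ => rfl) k0_pm_203

noncomputable def cut_pm_213 : Cut := Cut.of [[⟨0, 1, 0, 15728640⟩, ⟨1, 1, 0, 15728640⟩, ⟨2, 2, 0, 524288⟩]]

noncomputable def f_pm_213 : ℕ → ℕ → ℕ → ℕ → Bool := onCell 0 536870912 1610612736 536870912 1040187392 5207648
    (rowB 3 eng mog cd0q2 cd2q3 pd1 0 false true false .pnn 2 1 3 (qsf 0 536870912 1610612736 536870912 1) ndB0q2 ndB2q3 pcB1 cut_pm_213 Ext.none)

def k0_pm_213 : ∃ t, chk3 f_pm_213 t 1 1 1 = true :=
  ⟨(a (l 3) (b (l 3) (b (l 3) (a (l 3) (b (l 3) (a (l 3) (b (l 3) (a (l 3) (b (l 3) (a (l 3) (a (l 3) (b (l 3) (a (l 3) (b (l 3) (a (l 3) (b (l 3) (b (l 3) (b (l 3) (b (l 3) (l 6)))))))))))))))))))), by decide +kernel⟩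

theorem c_pm_213 : CertB 0 536870912 1610612736 536870912 1040187392 5207648 3 eng mog cd0q2 cd2q3 pd1 false true false .pnn 2 1 3
    ndB0q2 ndB2q3 pcB1 cut_pm_213 Ext.none :=
  certB0 (fam := false) (s1 := true) (s2 := false) (a := 2) (b := 1) (c := 3) (cn := .pnn) (n1 := ndB0q2) (n2 := ndB2q3) (pc := pcB1) (cut := cut_pm_213) (xt := Ext.none) (P1 := 0) (W1 := 536870912) (P2 := 1610612736) (W2 := 536870912) (P3 := 1040187392) (W3 := 5207648) (N0 := 3) (En := eng) (mo := mog) (C1 := cd0q2) (C2 := cd2q3) (C3 := pd1)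
    rfl k0_pm_213

noncomputable def f_mm_001 : ℕ → ℕ → ℕ → ℕ → Bool := onCell 0 536870912 536870912 536870912 1040187392 5207648
    (rowB 3 eng mog cd0q0 cd2q1 pd0 0 false false false .up 0 0 1 (qsf 0 536870912 536870912 536870912 0) ndB0q0 ndB2q1 pcB0 Cut.none Ext.none)

def k0_mm_001 : ∃ t, chk3 f_mm_001 t 1 1 1 = true :=
  ⟨(l 3), by decide +kernel⟩

theorem c_mm_001 : CertB 0 536870912 536870912 536870912 1040187392 5207648 3 eng mog cd0q0 cd2q1 pd0 false false false .up 0 0 1
    ndB0q0 ndB2q1 pcB0 Cut.none Ext.none :=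
  certB0 (fam := false) (s1 := false) (s2 := false) (a := 0) (b := 0) (c := 1) (cn := .up) (n1 := ndB0q0) (n2 := ndB2q1) (pc := pcB0) (cut := Cut.none) (xt := Ext.none) (P1 := 0) (W1 := 536870912) (P2 := 536870912) (W2 := 536870912) (P3 := 1040187392) (W3 := 5207648) (N0 := 3) (En := eng) (mo := mog) (C1 := cd0q0) (C2 := cd2q1) (C3 := pd0)
    rfl k0_mm_001

noncomputable def f_mm_011 : ℕ → ℕ → ℕ → ℕ → Bool := onCell 0 536870912 536870912 536870912 1040187392 5207648
    (rowB 3 eng mog cd0q0 cd2q1 pd1 0 false false false .pnn 0 1 1 (qsf 0 536870912 536870912 536870912 1) ndB0q0 ndB2q1 pcB1 Cut.none Ext.none)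

def k0_mm_011 : ∃ t, chk3 f_mm_011 t 1 1 1 = true :=
  ⟨(l 3), by decide +kernel⟩

theorem c_mm_011 : CertB 0 536870912 536870912 536870912 1040187392 5207648 3 eng mog cd0q0 cd2q1 pd1 false false false .pnn 0 1 1
    ndB0q0 ndB2q1 pcB1 Cut.none Ext.none :=
  certB0 (fam := false) (s1 := false) (s2 := false) (a := 0) (b := 1) (c := 1) (cn := .pnn) (n1 := ndB0q0) (n2 := ndB2q1) (pc := pcB1) (cut := Cut.none) (xt := Ext.none) (P1 := 0) (W1 := 536870912) (P2 := 536870912) (W2 := 536870912) (P3 := 1040187392) (W3 := 5207648) (N0 := 3) (En := eng) (mo := mog) (C1 := cd0q0) (C2 := cd2q1) (C3 := pd1)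
    rfl k0_mm_011

noncomputable def f_mm_012_a : ℕ → ℕ → ℕ → ℕ → Bool := onCell 0 536870912 0 536870912 1040187392 5207648
    (rowB 3 eng mog cd0q0 cd2q2a pd1 0 false false false .pnp 0 1 2 (qsf 0 536870912 0 536870912 1) ndB0q0 ndB2q2a pcB1 Cut.none Ext.none)

def k0_mm_012_a : ∃ t, chk3 f_mm_012_a t 1 1 1 = true :=
  ⟨(l 5), by decide +kernel⟩

theorem c_mm_012_a : CertB 0 536870912 0 536870912 1040187392 5207648 3 eng mog cd0q0 cd2q2a pd1 false false false .pnp 0 1 2
    ndB0q0 ndB2q2a pcB1 Cut.none Ext.none :=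
  certB0 (fam := false) (s1 := false) (s2 := false) (a := 0) (b := 1) (c := 2) (cn := .pnp) (n1 := ndB0q0) (n2 := ndB2q2a) (pc := pcB1) (cut := Cut.none) (xt := Ext.none) (P1 := 0) (W1 := 536870912) (P2 := 0) (W2 := 536870912) (P3 := 1040187392) (W3 := 5207648) (N0 := 3) (En := eng) (mo := mog) (C1 := cd0q0) (C2 := cd2q2a) (C3 := pd1)
    rfl k0_mm_012_a

noncomputable def f_mm_012_b : ℕ → ℕ → ℕ → ℕ → Bool := onCell 0 536870912 1239849684 370763052 1040187392 5207648
    (rowB 3 eng mog cd0q0 cd2q2b pd1 0 false false false .pnp 0 1 2 (qsf 0 536870912 1239849684 370763052 1) ndB0q0 ndB2q2b pcB1 Cut.none Ext.none)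

def k0_mm_012_b : ∃ t, chk3 f_mm_012_b t 1 1 1 = true :=
  ⟨(l 5), by decide +kernel⟩

theorem c_mm_012_b : CertB 0 536870912 1239849684 370763052 1040187392 5207648 3 eng mog cd0q0 cd2q2b pd1 false false false .pnp 0 1 2
    ndB0q0 ndB2q2b pcB1 Cut.none Ext.none :=
  certB0 (fam := false) (s1 := false) (s2 := false) (a := 0) (b := 1) (c := 2) (cn := .pnp) (n1 := ndB0q0) (n2 := ndB2q2b) (pc := pcB1) (cut := Cut.none) (xt := Ext.none) (P1 := 0) (W1 := 536870912) (P2 := 1239849684) (W2 := 370763052) (P3 := 1040187392) (W3 := 5207648) (N0 := 3) (En := eng) (mo := mog) (C1 := cd0q0) (C2 := cd2q2b) (C3 := pd1)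
    rfl k0_mm_012_b

noncomputable def f_mm_022_a : ℕ → ℕ → ℕ → ℕ → Bool := onCell 0 536870912 0 536870912 1040187392 5207648
    (rowB 3 eng mog cd0q0 cd2q2a pd2 0 false false false .pp 0 2 2 (qsf 0 536870912 0 536870912 2) ndB0q0 ndB2q2a pcB2 Cut.none Ext.none)

def k0_mm_022_a : ∃ t, chk3 f_mm_022_a t 1 1 1 = true :=
  ⟨(l 5), by decide +kernel⟩

theorem c_mm_022_a : CertB 0 536870912 0 536870912 1040187392 5207648 3 eng mog cd0q0 cd2q2a pd2 false false false .pp 0 2 2
    ndB0q0 ndB2q2a pcB2 Cut.none Ext.none :=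
  certB0 (fam := false) (s1 := false) (s2 := false) (a := 0) (b := 2) (c := 2) (cn := .pp) (n1 := ndB0q0) (n2 := ndB2q2a) (pc := pcB2) (cut := Cut.none) (xt := Ext.none) (P1 := 0) (W1 := 536870912) (P2 := 0) (W2 := 536870912) (P3 := 1040187392) (W3 := 5207648) (N0 := 3) (En := eng) (mo := mog) (C1 := cd0q0) (C2 := cd2q2a) (C3 := pd2)
    rfl k0_mm_022_a

noncomputable def f_mm_022_b : ℕ → ℕ → ℕ → ℕ → Bool := onCell 0 536870912 1239849684 370763052 1040187392 5207648
    (rowB 3 eng mog cd0q0 cd2q2b pd2 0 false false false .pp 0 2 2 (qsf 0 536870912 1239849684 370763052 2) ndB0q0 ndB2q2b pcB2 Cut.none Ext.none)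

def k0_mm_022_b : ∃ t, chk3 f_mm_022_b t 1 1 1 = true :=
  ⟨(l 5), by decide +kernel⟩

theorem c_mm_022_b : CertB 0 536870912 1239849684 370763052 1040187392 5207648 3 eng mog cd0q0 cd2q2b pd2 false false false .pp 0 2 2
    ndB0q0 ndB2q2b pcB2 Cut.none Ext.none :=
  certB0 (fam := false) (s1 := false) (s2 := false) (a := 0) (b := 2) (c := 2) (cn := .pp) (n1 := ndB0q0) (n2 := ndB2q2b) (pc := pcB2) (cut := Cut.none) (xt := Ext.none) (P1 := 0) (W1 := 536870912) (P2 := 1239849684) (W2 := 370763052) (P3 := 1040187392) (W3 := 5207648) (N0 := 3) (En := eng) (mo := mog) (C1 := cd0q0) (C2 := cd2q2b) (C3 := pd2)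
    rfl k0_mm_022_b

noncomputable def f_mm_023 : ℕ → ℕ → ℕ → ℕ → Bool := onCell 0 536870912 1610612736 536870912 1040187392 5207648
    (rowB 3 eng mog cd0q0 cd2q3 pd2 0 false false false .up 0 2 3 (qsf 0 536870912 1610612736 536870912 2) ndB0q0 ndB2q3 pcB2 Cut.none Ext.none)

def k0_mm_023 : ∃ t, chk3 f_mm_023 t 1 1 1 = true :=
  ⟨(l 5), by decide +kernel⟩

theorem c_mm_023 : CertB 0 536870912 1610612736 536870912 1040187392 5207648 3 eng mog cd0q0 cd2q3 pd2 false false false .up 0 2 3
    ndB0q0 ndB2q3 pcB2 Cut.none Ext.none :=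
  certB0 (fam := false) (s1 := false) (s2 := false) (a := 0) (b := 2) (c := 3) (cn := .up) (n1 := ndB0q0) (n2 := ndB2q3) (pc := pcB2) (cut := Cut.none) (xt := Ext.none) (P1 := 0) (W1 := 536870912) (P2 := 1610612736) (W2 := 536870912) (P3 := 1040187392) (W3 := 5207648) (N0 := 3) (En := eng) (mo := mog) (C1 := cd0q0) (C2 := cd2q3) (C3 := pd2)
    rfl k0_mm_023

noncomputable def f_mm_033 : ℕ → ℕ → ℕ → ℕ → Bool := onCell 0 536870912 1610612736 536870912 1040187392 5207648
    (rowB 3 eng mog cd0q0 cd2q3 pd3 0 false false false .pnn 0 3 3 (qsf 0 536870912 1610612736 536870912 3) ndB0q0 ndB2q3 pcB3 Cut.none Ext.none)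

def k0_mm_033 : ∃ t, chk3 f_mm_033 t 1 1 1 = true :=
  ⟨(l 5), by decide +kernel⟩

theorem c_mm_033 : CertB 0 536870912 1610612736 536870912 1040187392 5207648 3 eng mog cd0q0 cd2q3 pd3 false false false .pnn 0 3 3
    ndB0q0 ndB2q3 pcB3 Cut.none Ext.none :=
  certB0 (fam := false) (s1 := false) (s2 := false) (a := 0) (b := 3) (c := 3) (cn := .pnn) (n1 := ndB0q0) (n2 := ndB2q3) (pc := pcB3) (cut := Cut.none) (xt := Ext.none) (P1 := 0) (W1 := 536870912) (P2 := 1610612736) (W2 := 536870912) (P3 := 1040187392) (W3 := 5207648) (N0 := 3) (En := eng) (mo := mog) (C1 := cd0q0) (C2 := cd2q3) (C3 := pd3)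
    rfl k0_mm_033

noncomputable def f_mm_101 : ℕ → ℕ → ℕ → ℕ → Bool := onCell 536870912 536870912 536870912 536870912 1040187392 5207648
    (rowB 3 eng mog cd0q1 cd2q1 pd0 0 false false false .npn 1 0 1 (qsf 536870912 536870912 536870912 536870912 0) ndB0q1 ndB2q1 pcB0 Cut.none Ext.none)

def k0_mm_101 : ∃ t, chk3 f_mm_101 t 1 1 1 = true :=
  ⟨(l 3), by decide +kernel⟩

theorem c_mm_101 : CertB 536870912 536870912 536870912 536870912 1040187392 5207648 3 eng mog cd0q1 cd2q1 pd0 false false false .npn 1 0 1
    ndB0q1 ndB2q1 pcB0 Cut.none Ext.none :=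
  certB0 (fam := false) (s1 := false) (s2 := false) (a := 1) (b := 0) (c := 1) (cn := .npn) (n1 := ndB0q1) (n2 := ndB2q1) (pc := pcB0) (cut := Cut.none) (xt := Ext.none) (P1 := 536870912) (W1 := 536870912) (P2 := 536870912) (W2 := 536870912) (P3 := 1040187392) (W3 := 5207648) (N0 := 3) (En := eng) (mo := mog) (C1 := cd0q1) (C2 := cd2q1) (C3 := pd0)
    rfl k0_mm_101

noncomputable def f_mm_102_a : ℕ → ℕ → ℕ → ℕ → Bool := onCell 536870912 536870912 0 536870912 1040187392 5207648
    (rowB 3 eng mog cd0q1 cd2q2a pd0 0 false false false .npp 1 0 2 (qsf 536870912 536870912 0 536870912 0) ndB0q1 ndB2q2a pcB0 Cut.none Ext.none)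

def k0_mm_102_a : ∃ t, chk3 f_mm_102_a t 1 1 1 = true :=
  ⟨(l 3), by decide +kernel⟩

theorem c_mm_102_a : CertB 536870912 536870912 0 536870912 1040187392 5207648 3 eng mog cd0q1 cd2q2a pd0 false false false .npp 1 0 2
    ndB0q1 ndB2q2a pcB0 Cut.none Ext.none :=
  certB0 (fam := false) (s1 := false) (s2 := false) (a := 1) (b := 0) (c := 2) (cn := .npp) (n1 := ndB0q1) (n2 := ndB2q2a) (pc := pcB0) (cut := Cut.none) (xt := Ext.none) (P1 := 536870912) (W1 := 536870912) (P2 := 0) (W2 := 536870912) (P3 := 1040187392) (W3 := 5207648) (N0 := 3) (En := eng) (mo := mog) (C1 := cd0q1) (C2 := cd2q2a) (C3 := pd0)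
    rfl k0_mm_102_a

noncomputable def f_mm_102_b : ℕ → ℕ → ℕ → ℕ → Bool := onCell 536870912 536870912 1239849684 370763052 1040187392 5207648
    (rowB 3 eng mog cd0q1 cd2q2b pd0 0 false false false .npp 1 0 2 (qsf 536870912 536870912 1239849684 370763052 0) ndB0q1 ndB2q2b pcB0 Cut.none Ext.none)

def k0_mm_102_b : ∃ t, chk3 f_mm_102_b t 1 1 1 = true :=
  ⟨(l 5), by decide +kernel⟩

theorem c_mm_102_b : CertB 536870912 536870912 1239849684 370763052 1040187392 5207648 3 eng mog cd0q1 cd2q2b pd0 false false false .npp 1 0 2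
    ndB0q1 ndB2q2b pcB0 Cut.none Ext.none :=
  certB0 (fam := false) (s1 := false) (s2 := false) (a := 1) (b := 0) (c := 2) (cn := .npp) (n1 := ndB0q1) (n2 := ndB2q2b) (pc := pcB0) (cut := Cut.none) (xt := Ext.none) (P1 := 536870912) (W1 := 536870912) (P2 := 1239849684) (W2 := 370763052) (P3 := 1040187392) (W3 := 5207648) (N0 := 3) (En := eng) (mo := mog) (C1 := cd0q1) (C2 := cd2q2b) (C3 := pd0)
    rfl k0_mm_102_b

noncomputable def f_mm_112_a : ℕ → ℕ → ℕ → ℕ → Bool := onCell 536870912 536870912 0 536870912 1040187392 5207648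
    (rowB 3 eng mog cd0q1 cd2q2a pd1 0 false false false .dn 1 1 2 (qsf 536870912 536870912 0 536870912 1) ndB0q1 ndB2q2a pcB1 Cut.none Ext.none)

def k0_mm_112_a : ∃ t, chk3 f_mm_112_a t 1 1 1 = true :=
  ⟨(l 3), by decide +kernel⟩

theorem c_mm_112_a : CertB 536870912 536870912 0 536870912 1040187392 5207648 3 eng mog cd0q1 cd2q2a pd1 false false false .dn 1 1 2
    ndB0q1 ndB2q2a pcB1 Cut.none Ext.none :=
  certB0 (fam := false) (s1 := false) (s2 := false) (a := 1) (b := 1) (c := 2) (cn := .dn) (n1 := ndB0q1) (n2 := ndB2q2a) (pc := pcB1) (cut := Cut.none) (xt := Ext.none) (P1 := 536870912) (W1 := 536870912) (P2 := 0) (W2 := 536870912) (P3 := 1040187392) (W3 := 5207648) (N0 := 3) (En := eng) (mo := mog) (C1 := cd0q1) (C2 := cd2q2a) (C3 := pd1)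
    rfl k0_mm_112_a

noncomputable def f_mm_112_b : ℕ → ℕ → ℕ → ℕ → Bool := onCell 536870912 536870912 1239849684 370763052 1040187392 5207648
    (rowB 3 eng mog cd0q1 cd2q2b pd1 0 false false false .dn 1 1 2 (qsf 536870912 536870912 1239849684 370763052 1) ndB0q1 ndB2q2b pcB1 Cut.none Ext.none)

def k0_mm_112_b : ∃ t, chk3 f_mm_112_b t 1 1 1 = true :=
  ⟨(l 5), by decide +kernel⟩

theorem c_mm_112_b : CertB 536870912 536870912 1239849684 370763052 1040187392 5207648 3 eng mog cd0q1 cd2q2b pd1 false false false .dn 1 1 2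
    ndB0q1 ndB2q2b pcB1 Cut.none Ext.none :=
  certB0 (fam := false) (s1 := false) (s2 := false) (a := 1) (b := 1) (c := 2) (cn := .dn) (n1 := ndB0q1) (n2 := ndB2q2b) (pc := pcB1) (cut := Cut.none) (xt := Ext.none) (P1 := 536870912) (W1 := 536870912) (P2 := 1239849684) (W2 := 370763052) (P3 := 1040187392) (W3 := 5207648) (N0 := 3) (En := eng) (mo := mog) (C1 := cd0q1) (C2 := cd2q2b) (C3 := pd1)
    rfl k0_mm_112_b

noncomputable def f_mm_113 : ℕ → ℕ → ℕ → ℕ → Bool := onCell 536870912 536870912 1610612736 536870912 1040187392 5207648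
    (rowB 3 eng mog cd0q1 cd2q3 pd1 0 false false false .nn 1 1 3 (qsf 536870912 536870912 1610612736 536870912 1) ndB0q1 ndB2q3 pcB1 Cut.none Ext.none)

def k0_mm_113 : ∃ t, chk3 f_mm_113 t 1 1 1 = true :=
  ⟨(l 5), by decide +kernel⟩

theorem c_mm_113 : CertB 536870912 536870912 1610612736 536870912 1040187392 5207648 3 eng mog cd0q1 cd2q3 pd1 false false false .nn 1 1 3
    ndB0q1 ndB2q3 pcB1 Cut.none Ext.none :=
  certB0 (fam := false) (s1 := false) (s2 := false) (a := 1) (b := 1) (c := 3) (cn := .nn) (n1 := ndB0q1) (n2 := ndB2q3) (pc := pcB1) (cut := Cut.none) (xt := Ext.none) (P1 := 536870912) (W1 := 536870912) (P2 := 1610612736) (W2 := 536870912) (P3 := 1040187392) (W3 := 5207648) (N0 := 3) (En := eng) (mo := mog) (C1 := cd0q1) (C2 := cd2q3) (C3 := pd1)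
    rfl k0_mm_113

noncomputable def f_mm_123 : ℕ → ℕ → ℕ → ℕ → Bool := onCell 536870912 536870912 1610612736 536870912 1040187392 5207648
    (rowB 3 eng mog cd0q1 cd2q3 pd2 0 false false false .npn 1 2 3 (qsf 536870912 536870912 1610612736 536870912 2) ndB0q1 ndB2q3 pcB2 Cut.none Ext.none)

def k0_mm_123 : ∃ t, chk3 f_mm_123 t 1 1 1 = true :=
  ⟨(l 5), by decide +kernel⟩

theorem c_mm_123 : CertB 536870912 536870912 1610612736 536870912 1040187392 5207648 3 eng mog cd0q1 cd2q3 pd2 false false false .npn 1 2 3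
    ndB0q1 ndB2q3 pcB2 Cut.none Ext.none :=
  certB0 (fam := false) (s1 := false) (s2 := false) (a := 1) (b := 2) (c := 3) (cn := .npn) (n1 := ndB0q1) (n2 := ndB2q3) (pc := pcB2) (cut := Cut.none) (xt := Ext.none) (P1 := 536870912) (W1 := 536870912) (P2 := 1610612736) (W2 := 536870912) (P3 := 1040187392) (W3 := 5207648) (N0 := 3) (En := eng) (mo := mog) (C1 := cd0q1) (C2 := cd2q3) (C3 := pd2)
    rfl k0_mm_123

noncomputable def f_mm_133 : ℕ → ℕ → ℕ → ℕ → Bool := onCell 536870912 536870912 1610612736 536870912 1040187392 5207648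
    (rowB 3 eng mog cd0q1 cd2q3 pd3 0 false false false .dn 1 3 3 (qsf 536870912 536870912 1610612736 536870912 3) ndB0q1 ndB2q3 pcB3 Cut.none Ext.none)

def k0_mm_133 : ∃ t, chk3 f_mm_133 t 1 1 1 = true :=
  ⟨(l 5), by decide +kernel⟩

theorem c_mm_133 : CertB 536870912 536870912 1610612736 536870912 1040187392 5207648 3 eng mog cd0q1 cd2q3 pd3 false false false .dn 1 3 3
    ndB0q1 ndB2q3 pcB3 Cut.none Ext.none :=
  certB0 (fam := false) (s1 := false) (s2 := false) (a := 1) (b := 3) (c := 3) (cn := .dn) (n1 := ndB0q1) (n2 := ndB2q3) (pc := pcB3) (cut := Cut.none) (xt := Ext.none) (P1 := 536870912) (W1 := 536870912) (P2 := 1610612736) (W2 := 536870912) (P3 := 1040187392) (W3 := 5207648) (N0 := 3) (En := eng) (mo := mog) (C1 := cd0q1) (C2 := cd2q3) (C3 := pd3)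
    rfl k0_mm_133

noncomputable def f_mm_202_a : ℕ → ℕ → ℕ → ℕ → Bool := onCell 0 536870912 0 536870912 1040187392 5207648
    (rowB 3 eng mog cd0q2 cd2q2a pd0 0 false false false .pp 2 0 2 (qsf 0 536870912 0 536870912 0) ndB0q2 ndB2q2a pcB0 Cut.none Ext.none)

def k0_mm_202_a : ∃ t, chk3 f_mm_202_a t 1 1 1 = true :=
  ⟨(l 3), by decide +kernel⟩

theorem c_mm_202_a : CertB 0 536870912 0 536870912 1040187392 5207648 3 eng mog cd0q2 cd2q2a pd0 false false false .pp 2 0 2
    ndB0q2 ndB2q2a pcB0 Cut.none Ext.none :=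
  certB0 (fam := false) (s1 := false) (s2 := false) (a := 2) (b := 0) (c := 2) (cn := .pp) (n1 := ndB0q2) (n2 := ndB2q2a) (pc := pcB0) (cut := Cut.none) (xt := Ext.none) (P1 := 0) (W1 := 536870912) (P2 := 0) (W2 := 536870912) (P3 := 1040187392) (W3 := 5207648) (N0 := 3) (En := eng) (mo := mog) (C1 := cd0q2) (C2 := cd2q2a) (C3 := pd0)
    rfl k0_mm_202_a

noncomputable def f_mm_202_b : ℕ → ℕ → ℕ → ℕ → Bool := onCell 0 536870912 1239849684 370763052 1040187392 5207648
    (rowB 3 eng mog cd0q2 cd2q2b pd0 0 false false false .pp 2 0 2 (qsf 0 536870912 1239849684 370763052 0) ndB0q2 ndB2q2b pcB0 Cut.none Ext.none)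

def k0_mm_202_b : ∃ t, chk3 f_mm_202_b t 1 1 1 = true :=
  ⟨(l 3), by decide +kernel⟩

theorem c_mm_202_b : CertB 0 536870912 1239849684 370763052 1040187392 5207648 3 eng mog cd0q2 cd2q2b pd0 false false false .pp 2 0 2
    ndB0q2 ndB2q2b pcB0 Cut.none Ext.none :=
  certB0 (fam := false) (s1 := false) (s2 := false) (a := 2) (b := 0) (c := 2) (cn := .pp) (n1 := ndB0q2) (n2 := ndB2q2b) (pc := pcB0) (cut := Cut.none) (xt := Ext.none) (P1 := 0) (W1 := 536870912) (P2 := 1239849684) (W2 := 370763052) (P3 := 1040187392) (W3 := 5207648) (N0 := 3) (En := eng) (mo := mog) (C1 := cd0q2) (C2 := cd2q2b) (C3 := pd0)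
    rfl k0_mm_202_b

noncomputable def f_mm_203 : ℕ → ℕ → ℕ → ℕ → Bool := onCell 0 536870912 0 536870912 1040187392 5207648
    (rowB 3 eng mog cd0q2 cd2q3 pd0 1 false false false .up 2 0 3 (qsf 0 536870912 1610612736 536870912 0) ndB0q2 ndB2q3 pcB0 Cut.none Ext.none)

def k0_mm_203 : ∃ t, chk3 f_mm_203 t 1 1 1 = true :=
  ⟨(l 3), by decide +kernel⟩

theorem c_mm_203 : CertB 0 536870912 1610612736 536870912 1040187392 5207648 3 eng mog cd0q2 cd2q3 pd0 false false false .up 2 0 3
    ndB0q2 ndB2q3 pcB0 Cut.none Ext.none :=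
  certB1 (fam := false) (s1 := false) (s2 := false) (a := 2) (b := 0) (c := 3) (cn := .up) (n1 := ndB0q2) (n2 := ndB2q3) (pc := pcB0) (cut := Cut.none) (xt := Ext.none) (P1 := 0) (W1 := 536870912) (P2 := 1610612736) (W2 := 536870912) (P3 := 1040187392) (W3 := 5207648) (N0 := 3) (En := eng) (mo := mog) (C1 := cd0q2) (C2 := cd2q3) (C3 := pd0)
    rfl (fun _ => rfl) k0_mm_203

noncomputable def f_mm_213 : ℕ → ℕ → ℕ → ℕ → Bool := onCell 0 536870912 1610612736 536870912 1040187392 5207648
    (rowB 3 eng mog cd0q2 cd2q3 pd1 0 false false false .pnn 2 1 3 (qsf 0 536870912 1610612736 536870912 1) ndB0q2 ndB2q3 pcB1 Cut.none Ext.none)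

def k0_mm_213 : ∃ t, chk3 f_mm_213 t 1 1 1 = true :=
  ⟨(a (l 3) (b (l 3) (l 5))), by decide +kernel⟩

theorem c_mm_213 : CertB 0 536870912 1610612736 536870912 1040187392 5207648 3 eng mog cd0q2 cd2q3 pd1 false false false .pnn 2 1 3
    ndB0q2 ndB2q3 pcB1 Cut.none Ext.none :=
  certB0 (fam := false) (s1 := false) (s2 := false) (a := 2) (b := 1) (c := 3) (cn := .pnn) (n1 := ndB0q2) (n2 := ndB2q3) (pc := pcB1) (cut := Cut.none) (xt := Ext.none) (P1 := 0) (W1 := 536870912) (P2 := 1610612736) (W2 := 536870912) (P3 := 1040187392) (W3 := 5207648) (N0 := 3) (En := eng) (mo := mog) (C1 := cd0q2) (C2 := cd2q3) (C3 := pd1)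
    rfl k0_mm_213

end Pool.Agent.Strip051.G.I9688_9736.Tab.C.BB02

namespace Pool.Agent.Strip051.G.I9688_9736.Tab.C.BB03

open Pool.Agent.Strip051.PB Pool.Agent.Strip051.PB.T
open Pool.Agent.Strip051.G.I9688_9736.Tab

noncomputable def f_pp_001 : ℕ → ℕ → ℕ → ℕ → Bool := onCell 0 536870912 0 536870912 1040187392 5207648
    (rowB 3 eng mog cd0q0 cd3q1 pd0 1 false true true .up 0 0 1 (qsf 0 536870912 536870912 536870912 0) ndB0q0 ndB3q1 pcB0 Cut.none Ext.none)

def k0_pp_001 : ∃ t, chk3 f_pp_001 t 1 1 1 = true :=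
  ⟨(l 3), by decide +kernel⟩

theorem c_pp_001 : CertB 0 536870912 536870912 536870912 1040187392 5207648 3 eng mog cd0q0 cd3q1 pd0 false true true .up 0 0 1
    ndB0q0 ndB3q1 pcB0 Cut.none Ext.none :=
  certB1 (fam := false) (s1 := true) (s2 := true) (a := 0) (b := 0) (c := 1) (cn := .up) (n1 := ndB0q0) (n2 := ndB3q1) (pc := pcB0) (cut := Cut.none) (xt := Ext.none) (P1 := 0) (W1 := 536870912) (P2 := 536870912) (W2 := 536870912) (P3 := 1040187392) (W3 := 5207648) (N0 := 3) (En := eng) (mo := mog) (C1 := cd0q0) (C2 := cd3q1) (C3 := pd0)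
    rfl (fun _ => rfl) k0_pp_001

noncomputable def cut_pp_011 : Cut := Cut.of [[⟨0, 0, 0, 26843545⟩, ⟨1, 1, 0, 26843545⟩, ⟨2, 1, 0, 26843545⟩]]

noncomputable def f_pp_011 : ℕ → ℕ → ℕ → ℕ → Bool := onCell 0 536870912 536870912 536870912 1040187392 5207648
    (rowB 3 eng mog cd0q0 cd3q1 pd1 1 false true true .pnn 0 1 1 (qsf 0 536870912 536870912 536870912 1) ndB0q0 ndB3q1 pcB1 cut_pp_011 Ext.none)

def k0_pp_011 : ∃ t, chk3 f_pp_011 t 1 1 1 = true :=
  ⟨(b (l 3) (b (l 3) (b (l 3) (a (a (a (b (l 3) (a (b (l 3) (a (l 6) (l 3))) (l 3))) (l 3)) (l 2)) (l 2))))), by decide +kernel⟩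

theorem c_pp_011 : CertB 0 536870912 536870912 536870912 1040187392 5207648 3 eng mog cd0q0 cd3q1 pd1 false true true .pnn 0 1 1
    ndB0q0 ndB3q1 pcB1 cut_pp_011 Ext.none :=
  certB1 (fam := false) (s1 := true) (s2 := true) (a := 0) (b := 1) (c := 1) (cn := .pnn) (n1 := ndB0q0) (n2 := ndB3q1) (pc := pcB1) (cut := cut_pp_011) (xt := Ext.none) (P1 := 0) (W1 := 536870912) (P2 := 536870912) (W2 := 536870912) (P3 := 1040187392) (W3 := 5207648) (N0 := 3) (En := eng) (mo := mog) (C1 := cd0q0) (C2 := cd3q1) (C3 := pd1)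
    rfl (fun _ => rfl) k0_pp_011

noncomputable def f_pp_012 : ℕ → ℕ → ℕ → ℕ → Bool := onCell 0 536870912 536870912 536870912 1040187392 5207648
    (rowB 3 eng mog cd0q0 cd3q2 pd1 1 false true true .pnp 0 1 2 (qsf 0 536870912 1073741824 536870912 1) ndB0q0 ndB3q2 pcB1 Cut.none Ext.none)

def k0_pp_012 : ∃ t, chk3 f_pp_012 t 1 1 1 = true :=
  ⟨(b (l 3) (a (l 3) (b (l 3) (l 3)))), by decide +kernel⟩

theorem c_pp_012 : CertB 0 536870912 1073741824 536870912 1040187392 5207648 3 eng mog cd0q0 cd3q2 pd1 false true true .pnp 0 1 2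
    ndB0q0 ndB3q2 pcB1 Cut.none Ext.none :=
  certB1 (fam := false) (s1 := true) (s2 := true) (a := 0) (b := 1) (c := 2) (cn := .pnp) (n1 := ndB0q0) (n2 := ndB3q2) (pc := pcB1) (cut := Cut.none) (xt := Ext.none) (P1 := 0) (W1 := 536870912) (P2 := 1073741824) (W2 := 536870912) (P3 := 1040187392) (W3 := 5207648) (N0 := 3) (En := eng) (mo := mog) (C1 := cd0q0) (C2 := cd3q2) (C3 := pd1)
    rfl (fun _ => rfl) k0_pp_012

noncomputable def f_pp_022 : ℕ → ℕ → ℕ → ℕ → Bool := onCell 0 536870912 1073741824 536870912 1040187392 5207648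
    (rowB 3 eng mog cd0q0 cd3q2 pd2 1 false true true .pp 0 2 2 (qsf 0 536870912 1073741824 536870912 2) ndB0q0 ndB3q2 pcB2 Cut.none Ext.none)

def k0_pp_022 : ∃ t, chk3 f_pp_022 t 4 32 1 = true :=
  ⟨(l 3), by decide +kernel⟩

def k1_pp_022 : ∃ t, chk3 f_pp_022 t 4 66 1 = true :=
  ⟨(b (a (l 3) (l 3)) (a (b (a (l 3) (a (l 1988200523863) (l 289540873767))) (a (a (a (b (b (l 3) (c (a (b (b (l 3) (a (a (l 1175914664567) (l 242296153383)) (l 195588381575))) (a (a (l 16576048) (l 16578520)) (l 16582288))) (a (b (l 210083908279) (l 16587400)) (l 120963348071))) (a (b (b (l 3) (b (a (l 3) (a (l 3) (l 701320789463))) (a (b (a (l 3) (l 722258744887)) (a (a (l 740512350807) (c (l 16575512) (l 203104570359))) (a (l 144048772327) (l 16577592)))) (a (a (l 142438164775) (l 16580120)) (l 16582016))))) (a (a (c (l 16574920) (a (l 16573544) (l 16574784))) (l 16574408)) (a (l 16579536) (l 16582080)))) (b (a (b (l 3) (a (b (l 196662137175) (l 16584584)) (l 16587184))) (b (l 469392567959) (l 16591112))) (a (l 16580696) (l 16591184))))))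 (a (a (b (c (a (l 16576200) (l 16578672)) (a (b (l 16574640) (l 16574744)) (l 16577184))) (c (l 16577632) (l 16569584))) (c (l 16574672) (b (a (l 16579688) (l 16582232)) (l 16581160)))) (a (c (l 16587640) (b (l 16575600) (l 16586288))) (c (l 16592848) (l 16586184))))) (b (a (b (l 3) (c (l 16595384) (a (b (c (l 16586376) (l 132774516807)) (l 16596536)) (l 16596720)))) (a (b (l 1213495691927) (l 16602944)) (b (l 309405086439) (l 16613840)))) (a (c (l 16579896) (a (l 16586288) (l 16602224))) (a (c (l 16609112) (l 16597304)) (l 16614104))))) (a (b (a (b (l 290077739063) (l 16622520)) (l 16634648)) (l 16607704)) (l 16632160))) (a (a (l 16677096) (l 16669904)) (l 16625336)))) (a (a (a (l 179482295527) (l 16581480)) (a (l 16588808) (l 16574968))) (a (l 16552032) (l 16513656))))), by decide +kernel⟩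

def k2_pp_022 : ∃ t, chk3 f_pp_022 t 4 67 1 = true :=
  ⟨(a (a (a (b (a (b (a (b (a (b (l 16570528) (l 16577264)) (c (l 16582912) (l 16570960))) (a (l 16567016) (l 16582496))) (b (a (l 16582040) (l 16582016)) (a (l 16587592) (l 16592792)))) (a (b (a (l 16577720) (l 16582696)) (l 16569760)) (b (l 16579880) (l 16569424)))) (b (a (a (b (l 16597824) (l 16598104)) (b (l 16603248) (l 16603528))) (b (l 16601104) (l 16611848))) (a (a (l 16593072) (l 16593224)) (l 16612016)))) (b (a (b (a (l 16569608) (l 16579736)) (a (b (l 16569352) (a (b (l 16566776) (l 16577688)) (l 16561504))) (b (a (l 16566488) (l 16587416)) (l 16569392)))) (b (a (l 16600776) (l 16611752)) (b (a (b (l 16600520) (l 16600512)) (l 16611600)) (l 16585728)))) (a (a (a (l 16569128) (l 16563704)) (a (l 16579360) (l 16574152))) (a (l 16603232) (l 16614416))))) (b (a (b (l 16608136) (l 16629312)) (l 16632728)) (b (a (b (l 16629184) (l 16629376)) (b (l 16653616) (l 16654288))) (a (l 16631960) (l 16656624))))) (b (a (a (l 16656648) (l 16657552)) (a (l 16626256) (l 16621024)))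 (a (a (b (l 16656640) (l 16680792)) (l 16619144)) (a (l 16629848) (l 16603280))))) (a (a (b (a (l 16580248) (l 16586392)) (a (l 16583264) (l 16568136))) (b (a (l 16572464) (l 16558424)) (l 16546704))) (b (a (l 16535352) (l 16497008)) (a (l 16515696) (l 16476448))))), by decide +kernel⟩

def k3_pp_022 : ∃ t, chk3 f_pp_022 t 4 17 1 = true :=
  ⟨(a (a (b (a (b (b (a (b (a (c (l 16586152) (l 16574328)) (l 16595776)) (a (l 16588776) (l 16599032))) (b (l 16612016) (l 16615192))) (a (a (b (l 16592008) (l 16595176)) (l 16603800)) (l 16619864))) (a (b (l 16583840) (l 16610704)) (b (l 16625840) (l 16631544)))) (b (b (a (l 16636688) (l 16640240)) (a (l 16642736) (l 16646104))) (a (l 16630416) (l 16612008)))) (a (b (b (l 16605448) (b (l 16609376) (l 16611216))) (b (l 16604696) (l 16591544))) (b (b (l 16598000) (b (l 16582032) (l 16575080))) (l 16592328)))) (b (b (a (b (l 16592064) (l 16590992)) (a (l 16554344) (l 16549248))) (a (b (l 16569216) (l 16568704)) (l 16476680))) (b (a (b (l 16568480) (l 16531936)) (b (l 16508224) (l 16497136)))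 (a (l 16548608) (l 16494880))))) (a (b (a (b (a (l 16550312) (l 16535176)) (a (l 16507488) (l 16492336))) (b (l 16471736) (l 16470800))) (a (b (b (l 16469264) (l 16462296)) (l 16460808)) (b (b (l 16443168) (l 16439320)) (l 16438112)))) (b (b (a (l 16482648) (l 16443504)) (a (l 16439864) (l 16400728))) (a (b (l 16415056) (l 16412992)) (l 16381152))))), by decide +kernel⟩

def k4_pp_022 : ∃ t, chk3 f_pp_022 t 5 8 1 = true :=
  ⟨(b (b (l 3) (a (b (a (l 297593452583) (l 16366648)) (b (a (l 16432360) (l 16350552)) (l 16369024))) (b (b (l 16255952) (l 16251056)) (l 16126920)))) (a (b (b (l 16231592) (a (l 16338000) (l 16260432))) (a (l 16325128) (l 16255512))) (b (b (l 16181072) (l 16158736)) (l 16160968)))), by decide +kernel⟩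

def k5_pp_022 : ∃ t, chk3 f_pp_022 t 2 9 1 = true :=
  ⟨(a (a (a (b (b (a (b (l 16571440) (l 16544376)) (l 16565112)) (a (a (l 16494200) (l 16512408)) (l 16501112))) (a (b (b (l 16482592) (l 16454640)) (b (l 16426560) (l 16398344))) (b (l 16467256) (l 16390984)))) (b (a (b (l 16523096) (l 16517824)) (b (l 16491760) (l 16488328))) (a (b (l 16513280) (l 16455400)) (b (l 16485528) (l 16462072))))) (a (b (a (b (l 16458552) (l 16456192)) (b (l 16436368) (l 16434640))) (a (b (l 16454376) (l 16452768)) (b (l 16433352) (l 16432176)))) (a (b (b (l 16411856) (l 16410864)) (b (l 16410232) (l 16409600))) (b (l 16380752) (l 16360664))))) (b (a (a (l 16328224) (l 16262624)) (l 16174016)) (a (a (l 16332760) (l 16271928)) (l 16190200)))), by decide +kernel⟩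

def k6_pp_022 : ∃ t, chk3 f_pp_022 t 3 4 1 = true :=
  ⟨(b (b (a (b (a (l 3) (l 15995520)) (a (b (b (l 16126400) (l 16119776)) (l 16086264)) (b (l 15889928) (l 15964304)))) (a (b (l 15892344) (b (l 15810352) (l 15856056))) (b (l 15799488) (b (l 15761952) (l 15764960))))) (a (a (b (b (l 16049248) (l 16040592)) (l 16050144)) (b (l 15941728) (l 15955328))) (a (b (l 15851776) (l 15874416)) (l 15791280)))) (a (b (a (l 16070880) (l 15983792)) (a (l 16096096) (l 16018064))) (b (a (l 15910992) (l 15851312)) (a (l 15957120) (l 2))))), by decide +kernel⟩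

def k7_pp_022 : ∃ t, chk3 f_pp_022 t 8 10 1 = true :=
  ⟨(b (b (a (a (b (l 16369944) (l 16320264)) (b (l 16412464) (l 16363400))) (a (l 16379624) (l 16411984))) (b (a (a (b (l 16319480) (l 16283504)) (a (l 16343944) (l 16367408))) (a (l 16380200) (l 16413552))) (a (b (a (a (l 16257664) (l 16299104)) (a (l 16321336) (l 16345128))) (b (a (b (a (l 16268080) (l 16288728)) (a (b (l 16264440) (l 16261664)) (l 16283712))) (a (l 16287432) (l 16332440))) (a (b (b (a (b (l 16238264) (b (a (l 16231680) (l 16262656)) (b (b (a (l 16251624) (l 16261656)) (b (b (b (l 16235216) (b (l 16235088) (c (l 16235880) (a (l 16239520) (l 16260064))))) (l 16245328)) (l 16245296))) (l 16245200)))) (b (l 16280088) (b (l 16278496) (b (b (l 16277520) (l 16256000)) (l 16276656))))) (a (l 16244504) (l 16275960))) (a (l 16232160) (l 16274104))) (b (b (b (l 16283264) (b (a (l 16301160) (l 16325376)) (a (a (l 16273096) (l 16284880)) (l 16324168)))) (a (l 16298688) (l 16322968))) (a (l 16296832) (l 16321120)))))) (b (a (l 16358424) (l 16392416)) (b (a (l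 16330368) (l 16380560)) (a (b (b (b (l 16361688) (a (b (l 16349184) (l 16348008)) (l 16348960))) (l 16357952)) (l 16356104)) (b (b (b (l 16396408) (a (l 16387576) (l 16400104))) (l 16392880)) (l 16391040)))))))) (a (a (b (a (b (a (l 16236968) (l 16247024)) (a (l 16216976) (l 16227040))) (b (l 16262928) (l 16242976))) (a (b (a (l 16196848) (l 16206936)) (l 16181584)) (l 16191816))) (a (b (l 16275712) (l 16235640)) (b (l 16300040) (l 16260056)))) (a (b (l 16293144) (l 16253312)) (b (l 16349152) (l 16309536))))), by decide +kernel⟩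

def k8_pp_022 : ∃ t, chk3 f_pp_022 t 8 11 1 = true :=
  ⟨(a (a (b (b (a (b (l 16161208) (l 16140696)) (l 16172120)) (a (b (l 16120048) (l 16099272)) (l 16130936))) (b (a (l 16067816) (l 16089216)) (a (l 16025424) (l 16046976)))) (b (a (b (l 16195064) (l 16153992)) (b (l 16219592) (l 16178640))) (a (b (l 16112408) (l 16070320)) (l 16095224)))) (a (b (b (l 16233984) (l 16193224)) (b (l 16172976) (l 16131304))) (b (b (l 16290464) (l 16249992)) (l 16146448)))), by decide +kernel⟩

def k9_pp_022 : ∃ t, chk3 f_pp_022 t 9 5 1 = true :=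
  ⟨(b (b (a (b (a (a (l 16457312) (l 16446440)) (l 16431120)) (b (a (l 16424560) (l 16430288)) (b (a (l 16425024) (l 16423728)) (a (b (a (l 16412696) (l 16413240)) (b (b (b (l 16408736) (a (l 16405976) (l 16406704))) (l 16405408)) (l 16403584))) (b (l 16412768) (a (a (l 16384520) (l 16384424)) (l 16405480))))))) (b (a (l 16408936) (l 16380848)) (b (a (l 16408272) (l 16380616)) (b (a (l 16408744) (l 16381200)) (b (a (l 16410200) (l 16382608)) (a (l 16407744) (l 16383656))))))) (a (a (a (l 16341016) (l 16341904)) (l 16320968)) (a (l 16344736) (l 16369320)))) (a (a (b (a (l 16282296) (l 16283480)) (b (l 16222944) (a (l 16180400) (l 16183040)))) (b (l 16262992) (b (l 16223952) (a (l 16185816) (l 16189784))))) (b (a (l 16287424) (l 16299920)) (a (b (l 16228016) (l 16200264)) (b (l 16243768) (l 16223384)))))), by decide +kernel⟩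

def k10_pp_022 : ∃ t, chk3 f_pp_022 t 5 5 1 = true :=
  ⟨(b (b (b (a (l 16242200) (l 16198968)) (b (a (l 16285344) (l 16202384)) (a (b (l 16307344) (b (l 16287760) (l 16246800))) (b (l 16204072) (b (l 16205384) (l 16206224)))))) (a (l 16298912) (l 16200264))) (a (b (a (l 16302696) (l 16225488)) (a (l 16221040) (l 16169336))) (b (l 16049360) (l 16062608)))), by decide +kernel⟩

def k11_pp_022 : ∃ t, chk3 f_pp_022 t 3 5 1 = true :=
  ⟨(a (b (b (b (a (l 16110480) (l 16037712)) (b (a (l 16115952) (l 16043136)) (a (b (l 16118216) (l 16115504)) (b (l 16041960) (l 16035632))))) (a (l 16101944) (l 16002072))) (a (l 15879232) (l 15867936))) (b (b (a (b (l 15971224) (l 2)) (l 2)) (l 2)) (l 2))), by decide +kernel⟩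

def k12_pp_022 : ∃ t, chk3 f_pp_022 t 1 3 1 = true :=
  ⟨(a (a (b (a (b (a (b (a (b (a (l 15982496) (l 16004216)) (b (l 15960656) (a (b (l 15933608) (l 15902496)) (a (l 15925672) (l 15939544))))) (b (l 15998264) (b (a (l 15995960) (l 16024200)) (a (l 15984192) (l 16018328))))) (a (b (a (b (l 15896512) (l 15916904)) (l 15949040)) (l 15934760)) (b (l 15999736) (l 16001552)))) (b (a (a (b (l 16077688) (l 16053544)) (b (l 16101632) (l 16083936))) (b (b (l 16138232) (l 16127008)) (l 16122096))) (a (l 16004360) (l 16098984)))) (a (b (a (l 15925512) (l 15970656)) (a (l 15955400) (l 15997976))) (b (a (l 16078208) (l 16075744)) (a (l 15964752) (l 15913992))))) (a (b (a (b (b (a (l 16153272) (l 16161376)) (l 16151184)) (l 16148416)) (b (l 16148072) (l 16139448))) (b (a (l 16031952) (l 15991520)) (a (l 15868120) (l 15824696)))) (b (b (a (l 16185184) (l 16192360)) (a (l 16100968) (l 16060024))) (b (l 15865656) (l 15757744))))) (a (b (a (b (a (l 15895608) (l 15819704)) (a (l 15702240) (l 15647088))) (b (l 15634088) (l 15544992)))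 (a (b (l 15404584) (l 15250272)) (b (l 15358824) (l 15141320)))) (b (a (b (a (l 15686896) (l 15640368)) (a (l 15490128) (l 15440432))) (b (l 15569208) (l 15364968))) (a (b (l 15253400) (l 2)) (l 2))))) (b (b (a (b (a (l 16131392) (l 16053512)) (l 15808488)) (b (l 15942040) (l 15798552))) (a (b (l 15735184) (l 15621112)) (b (l 15633008) (l 2)))) (b (a (b (l 15425976) (l 2)) (l 2)) (l 2)))) (b (a (b (a (l 15643696) (l 2)) (l 2)) (l 2)) (l 2))), by decide +kernel⟩

theorem s13_pp_022 : ∃ t, chk3 f_pp_022 t 8 5 1 = true := ex3_b k7_pp_022 k8_pp_022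

theorem s14_pp_022 : ∃ t, chk3 f_pp_022 t 4 5 1 = true := ex3_a s13_pp_022 k9_pp_022

theorem s15_pp_022 : ∃ t, chk3 f_pp_022 t 2 5 1 = true := ex3_a s14_pp_022 k10_pp_022

theorem s16_pp_022 : ∃ t, chk3 f_pp_022 t 1 5 1 = true := ex3_a s15_pp_022 k11_pp_022

theorem s17_pp_022 : ∃ t, chk3 f_pp_022 t 4 33 1 = true := ex3_b k1_pp_022 k2_pp_022

theorem s18_pp_022 : ∃ t, chk3 f_pp_022 t 4 16 1 = true := ex3_b k0_pp_022 s17_pp_022

theorem s19_pp_022 : ∃ t, chk3 f_pp_022 t 4 8 1 = true := ex3_b s18_pp_022 k3_pp_022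

theorem s20_pp_022 : ∃ t, chk3 f_pp_022 t 2 8 1 = true := ex3_a s19_pp_022 k4_pp_022

theorem s21_pp_022 : ∃ t, chk3 f_pp_022 t 2 4 1 = true := ex3_b s20_pp_022 k5_pp_022

theorem s22_pp_022 : ∃ t, chk3 f_pp_022 t 1 4 1 = true := ex3_a s21_pp_022 k6_pp_022

theorem s23_pp_022 : ∃ t, chk3 f_pp_022 t 1 2 1 = true := ex3_b s22_pp_022 s16_pp_022

theorem s24_pp_022 : ∃ t, chk3 f_pp_022 t 1 1 1 = true := ex3_b s23_pp_022 k12_pp_022

theorem c_pp_022 : CertB 0 536870912 1073741824 536870912 1040187392 5207648 3 eng mog cd0q0 cd3q2 pd2 false true true .pp 0 2 2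
    ndB0q0 ndB3q2 pcB2 Cut.none Ext.none :=
  certB1 (fam := false) (s1 := true) (s2 := true) (a := 0) (b := 2) (c := 2) (cn := .pp) (n1 := ndB0q0) (n2 := ndB3q2) (pc := pcB2) (cut := Cut.none) (xt := Ext.none) (P1 := 0) (W1 := 536870912) (P2 := 1073741824) (W2 := 536870912) (P3 := 1040187392) (W3 := 5207648) (N0 := 3) (En := eng) (mo := mog) (C1 := cd0q0) (C2 := cd3q2) (C3 := pd2)
    rfl (fun _ => rfl) s24_pp_022

noncomputable def f_pp_023 : ℕ → ℕ → ℕ → ℕ → Bool := onCell 1073741824 536870912 0 1230186008 1040187392 5207648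
    (rowB 3 eng mog cd0q0 cd3q3 pd2 2 false true true .up 0 2 3 (qsf 0 536870912 0 1230186008 2) ndB0q0 ndB3q3 pcB2 Cut.none Ext.none)

def k0_pp_023 : ∃ t, chk3 f_pp_023 t 1 1 1 = true :=
  ⟨(a (b (l 2) (b (a (l 2) (b (l 2) (a (l 2) (b (l 2) (l 15687256))))) (b (a (l 2) (a (b (l 15735904) (l 15585568)) (b (l 15590776) (l 15462272)))) (b (a (a (l 2) (a (l 15545072) (l 15498968))) (a (a (a (l 15459432) (l 15431312)) (l 15388760)) (l 15305608))) (a (a (b (a (l 2) (l 15467072)) (a (a (l 15435712) (a (l 15417296) (l 15424592))) (l 15394232))) (a (l 15380008) (b (l 15368408) (l 15284736)))) (a (a (a (l 15281880) (a (l 15259856) (a (l 15248976) (l 15241752)))) (l 15209120)) (b (l 15173952) (l 15079816)))))))) (a (b (l 2) (b (b (a (l 2) (l 15055512)) (a (b (l 15527168) (l 15509448)) (l 15273824))) (b (a (b (l 15449520) (l 15348640)) (b (l 15328008) (l 15259280))) (b (a (l 15208600) (l 14908352)) (a (b (l 15080736) (l 14984160)) (b (l 15016224) (a (l 14931552) (l 14907528)))))))) (b (b (b (l 336711985543) (b (l 331343388407) (l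 320606055223))) (b (b (a (l 2) (l 13627128)) (l 262624373383)) (a (l 14345304) (l 13948672)))) (b (b (a (l 14686496) (l 14332344)) (a (b (l 15023328) (l 15213496)) (b (l 14703104) (l 14993832)))) (b (a (b (l 15242128) (l 15208864)) (b (l 15208440) (l 15212608))) (b (a (b (l 15142200) (l 15076360)) (b (a (l 15153544) (l 15174264)) (a (l 15023144) (b (l 15144856) (l 15121848))))) (a (b (a (l 14995040) (b (l 15008784) (l 14970808))) (a (b (l 14913736) (a (l 14867424) (l 14868264))) (b (l 14929384) (a (l 14878368) (l 14905912))))) (b (a (b (l 15039368) (a (l 14992384) (l 15030424))) (b (l 15107888) (l 15029096))) (a (b (a (l 14968024) (l 14992768)) (a (l 14925872) (l 14938688))) (b (l 15011200) (l 14932608))))))))))), by decide +kernel⟩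

theorem c_pp_023 : CertB 0 536870912 0 1230186008 1040187392 5207648 3 eng mog cd0q0 cd3q3 pd2 false true true .up 0 2 3
    ndB0q0 ndB3q3 pcB2 Cut.none Ext.none :=
  certB2 (fam := false) (s1 := true) (s2 := true) (a := 0) (b := 2) (c := 3) (cn := .up) (n1 := ndB0q0) (n2 := ndB3q3) (pc := pcB2) (cut := Cut.none) (xt := Ext.none) (P1 := 0) (W1 := 536870912) (P2 := 0) (W2 := 1230186008) (P3 := 1040187392) (W3 := 5207648) (N0 := 3) (En := eng) (mo := mog) (C1 := cd0q0) (C2 := cd3q3) (C3 := pd2)
    rfl (fun _ => rfl) k0_pp_023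

noncomputable def f_pp_033 : ℕ → ℕ → ℕ → ℕ → Bool := onCell 0 536870912 0 1230186008 1040187392 5207648
    (rowB 3 eng mog cd0q0 cd3q3 pd3 0 false true true .pnn 0 3 3 (qsf 0 536870912 0 1230186008 3) ndB0q0 ndB3q3 pcB3 Cut.none Ext.none)

def k0_pp_033 : ∃ t, chk3 f_pp_033 t 1 2 1 = true :=
  ⟨(b (a (l 4) (b (a (a (l 4) (l 16030752)) (a (l 16207024) (l 16429768))) (a (b (a (l 15906360) (l 16038144)) (a (l 15903568) (l 16061576))) (b (a (l 16229920) (l 16456072)) (a (l 16276544) (l 16497888)))))) (a (a (l 4) (a (b (l 4) (b (l 15530856) (a (l 15356776) (l 15467992)))) (b (b (l 4) (l 15785552)) (b (l 15677560) (l 15634832))))) (b (a (b (a (l 15897376) (l 16081696)) (a (l 15890528) (l 16104744))) (b (a (l 16297008) (l 16545384)) (a (l 16310736) (l 16574648)))) (a (a (b (l 15879904) (l 15858136)) (l 15895800)) (a (l 16334752) (l 16587408)))))), by decide +kernel⟩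

def k1_pp_033 : ∃ t, chk3 f_pp_033 t 1 6 1 = true :=
  ⟨(a (a (a (b (a (l 4) (b (l 4) (b (l 14837680) (l 14786776)))) (b (a (b (l 14520312) (l 14452512)) (b (l 14723600) (l 14647056))) (a (b (l 14366568) (a (l 14224864) (l 14322544))) (b (l 14561208) (l 14455416))))) (b (a (b (a (l 4) (l 15073056)) (l 14950560)) (b (l 15154664) (l 15054080))) (b (a (l 14711640) (l 14712632)) (a (b (l 14847184) (l 14608832)) (l 14757176))))) (b (a (b (a (l 15278520) (l 15400360)) (a (l 15181776) (l 15307448))) (b (l 15579528) (l 15486568))) (a (b (a (l 15054672) (l 15181592)) (l 14953192)) (b (l 15368368) (l 15208448))))) (a (b (a (b (l 15802480) (l 15729904)) (l 16014272)) (a (b (l 15616920) (l 15462120)) (l 302289402103))) (b (a (l 16260744) (l 1)) (l 1)))), by decide +kernel⟩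

def k2_pp_033 : ∃ t, chk3 f_pp_033 t 1 7 1 = true :=
  ⟨(a (a (b (a (b (a (b (a (l 14130688) (l 14231560)) (l 14072360)) (b (l 14375248) (l 14260768))) (a (b (l 13948368) (a (l 13763776) (l 13855072))) (b (l 14132576) (l 13992176)))) (b (a (b (l 14504360) (l 14387240)) (l 14548136)) (a (a (l 14140688) (l 14188904)) (b (l 14360672) (l 14224472))))) (a (b (a (b (a (l 13612616) (l 13703864)) (a (b (l 13492632) (l 13410848)) (l 13544920))) (b (a (l 13797856) (l 13880912)) (a (l 13641032) (l 13726656)))) (a (b (a (b (l 13328400) (l 13246144)) (b (l 13423536) (l 13343280))) (b (a (b (l 13185032) (l 13144936)) (l 13264568)) (a (b (l 13105464) (a (l 13042400) (l 13091584))) (b (l 13207072) (l 1))))) (a (b (b (l 13522224) (l 13444128)) (b (l 13367944) (l 1))) (b (l 150351010471) (l 1))))) (b (a (b (a (l 13943216) (l 13994280)) (a (l 13791880) (l 13846128))) (b (l 14082768) (l 179879741127))) (a (b (a (l 157867366183) (l 1)) (l 1)) (l 1))))) (b (b (a (a (l 14678360) (l 14810328)) (l 15007520)) (a (b (l 14562688) (l 14432568)) (l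 1))) (b (a (b (l 14299160) (l 1)) (l 1)) (l 1)))) (l 1)), by decide +kernel⟩

theorem s3_pp_033 : ∃ t, chk3 f_pp_033 t 1 3 1 = true := ex3_b k1_pp_033 k2_pp_033

theorem s4_pp_033 : ∃ t, chk3 f_pp_033 t 1 1 1 = true := ex3_b k0_pp_033 s3_pp_033

theorem c_pp_033 : CertB 0 536870912 0 1230186008 1040187392 5207648 3 eng mog cd0q0 cd3q3 pd3 false true true .pnn 0 3 3
    ndB0q0 ndB3q3 pcB3 Cut.none Ext.none :=
  certB0 (fam := false) (s1 := true) (s2 := true) (a := 0) (b := 3) (c := 3) (cn := .pnn) (n1 := ndB0q0) (n2 := ndB3q3) (pc := pcB3) (cut := Cut.none) (xt := Ext.none) (P1 := 0) (W1 := 536870912) (P2 := 0) (W2 := 1230186008) (P3 := 1040187392) (W3 := 5207648) (N0 := 3) (En := eng) (mo := mog) (C1 := cd0q0) (C2 := cd3q3) (C3 := pd3)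
    rfl s4_pp_033

noncomputable def f_pp_101 : ℕ → ℕ → ℕ → ℕ → Bool := onCell 536870912 536870912 536870912 536870912 1040187392 5207648
    (rowB 3 eng mog cd0q1 cd3q1 pd0 0 false true true .npn 1 0 1 (qsf 536870912 536870912 536870912 536870912 0) ndB0q1 ndB3q1 pcB0 Cut.none Ext.none)

def k0_pp_101 : ∃ t, chk3 f_pp_101 t 1 1 1 = true :=
  ⟨(a (l 3) (l 5)), by decide +kernel⟩

theorem c_pp_101 : CertB 536870912 536870912 536870912 536870912 1040187392 5207648 3 eng mog cd0q1 cd3q1 pd0 false true true .npn 1 0 1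
    ndB0q1 ndB3q1 pcB0 Cut.none Ext.none :=
  certB0 (fam := false) (s1 := true) (s2 := true) (a := 1) (b := 0) (c := 1) (cn := .npn) (n1 := ndB0q1) (n2 := ndB3q1) (pc := pcB0) (cut := Cut.none) (xt := Ext.none) (P1 := 536870912) (W1 := 536870912) (P2 := 536870912) (W2 := 536870912) (P3 := 1040187392) (W3 := 5207648) (N0 := 3) (En := eng) (mo := mog) (C1 := cd0q1) (C2 := cd3q1) (C3 := pd0)
    rfl k0_pp_101

noncomputable def f_pp_102 : ℕ → ℕ → ℕ → ℕ → Bool := onCell 536870912 536870912 0 536870912 1040187392 5207648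
    (rowB 3 eng mog cd0q1 cd3q2 pd0 1 false true true .npp 1 0 2 (qsf 536870912 536870912 1073741824 536870912 0) ndB0q1 ndB3q2 pcB0 Cut.none Ext.none)

def k0_pp_102 : ∃ t, chk3 f_pp_102 t 1 1 1 = true :=
  ⟨(l 3), by decide +kernel⟩

theorem c_pp_102 : CertB 536870912 536870912 1073741824 536870912 1040187392 5207648 3 eng mog cd0q1 cd3q2 pd0 false true true .npp 1 0 2
    ndB0q1 ndB3q2 pcB0 Cut.none Ext.none :=
  certB1 (fam := false) (s1 := true) (s2 := true) (a := 1) (b := 0) (c := 2) (cn := .npp) (n1 := ndB0q1) (n2 := ndB3q2) (pc := pcB0) (cut := Cut.none) (xt := Ext.none) (P1 := 536870912) (W1 := 536870912) (P2 := 1073741824) (W2 := 536870912) (P3 := 1040187392) (W3 := 5207648) (N0 := 3) (En := eng) (mo := mog) (C1 := cd0q1) (C2 := cd3q2) (C3 := pd0)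
    rfl (fun _ => rfl) k0_pp_102

noncomputable def f_pp_112 : ℕ → ℕ → ℕ → ℕ → Bool := onCell 536870912 536870912 1073741824 536870912 1040187392 5207648
    (rowB 3 eng mog cd0q1 cd3q2 pd1 0 false true true .dn 1 1 2 (qsf 536870912 536870912 1073741824 536870912 1) ndB0q1 ndB3q2 pcB1 Cut.none Ext.none)

def k0_pp_112 : ∃ t, chk3 f_pp_112 t 1 1 1 = true :=
  ⟨(a (b (l 3) (a (l 3) (l 3))) (l 3)), by decide +kernel⟩

theorem c_pp_112 : CertB 536870912 536870912 1073741824 536870912 1040187392 5207648 3 eng mog cd0q1 cd3q2 pd1 false true true .dn 1 1 2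
    ndB0q1 ndB3q2 pcB1 Cut.none Ext.none :=
  certB0 (fam := false) (s1 := true) (s2 := true) (a := 1) (b := 1) (c := 2) (cn := .dn) (n1 := ndB0q1) (n2 := ndB3q2) (pc := pcB1) (cut := Cut.none) (xt := Ext.none) (P1 := 536870912) (W1 := 536870912) (P2 := 1073741824) (W2 := 536870912) (P3 := 1040187392) (W3 := 5207648) (N0 := 3) (En := eng) (mo := mog) (C1 := cd0q1) (C2 := cd3q2) (C3 := pd1)
    rfl k0_pp_112

noncomputable def cut_pp_113 : Cut := Cut.of [[⟨0, 1, 0, 15728640⟩, ⟨1, 1, 0, 15728640⟩, ⟨2, 2, 0, 524288⟩]]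

noncomputable def f_pp_113 : ℕ → ℕ → ℕ → ℕ → Bool := onCell 536870912 536870912 0 1230186008 1040187392 5207648
    (rowB 3 eng mog cd0q1 cd3q3 pd1 2 false true true .nn 1 1 3 (qsf 536870912 536870912 0 1230186008 1) ndB0q1 ndB3q3 pcB1 cut_pp_113 Ext.none)

def k0_pp_113 : ∃ t, chk3 f_pp_113 t 1 1 1 = true :=
  ⟨(b (a (l 2) (a (l 2) (a (l 3) (a (l 3) (b (b (a (l 2) (a (l 2) (b (b (l 6) (l 3)) (l 3)))) (l 3)) (b (l 3) (l 3))))))) (b (a (l 3) (a (l 3) (a (l 3) (b (l 3) (l 3))))) (a (b (l 3) (l 3)) (a (l 3) (b (l 3) (l 3)))))), by decide +kernel⟩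

theorem c_pp_113 : CertB 536870912 536870912 0 1230186008 1040187392 5207648 3 eng mog cd0q1 cd3q3 pd1 false true true .nn 1 1 3
    ndB0q1 ndB3q3 pcB1 cut_pp_113 Ext.none :=
  certB2 (fam := false) (s1 := true) (s2 := true) (a := 1) (b := 1) (c := 3) (cn := .nn) (n1 := ndB0q1) (n2 := ndB3q3) (pc := pcB1) (cut := cut_pp_113) (xt := Ext.none) (P1 := 536870912) (W1 := 536870912) (P2 := 0) (W2 := 1230186008) (P3 := 1040187392) (W3 := 5207648) (N0 := 3) (En := eng) (mo := mog) (C1 := cd0q1) (C2 := cd3q3) (C3 := pd1)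
    rfl (fun _ => rfl) k0_pp_113

noncomputable def cut_pp_123 : Cut := Cut.of [[⟨0, 1, 0, 15728640⟩, ⟨1, 1, 0, 15728640⟩, ⟨2, 2, 0, 524288⟩]]

noncomputable def xt_pp_123 : Ext := extD3 3 ⟨4, 1, 1, 5, 33, 5, 163, 200, 81, 200, 1, 64⟩ eng cd0q1 cd3q3 pd2 false true true .npn 1 2 3 rfl ndB0q1 ndB3q3 pcB2

noncomputable def f_pp_123 : ℕ → ℕ → ℕ → ℕ → Bool := onCell 1073741824 536870912 0 1230186008 1040187392 5207648
    (rowB 3 eng mog cd0q1 cd3q3 pd2 2 false true true .npn 1 2 3 (qsf 536870912 536870912 0 1230186008 2) ndB0q1 ndB3q3 pcB2 cut_pp_123 xt_pp_123)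

def k0_pp_123 : ∃ t, chk3 f_pp_123 t 128 32 1 = true :=
  ⟨(l 6), by decide +kernel⟩

def k1_pp_123 : ∃ t, chk3 f_pp_123 t 512 132 1 = true :=
  ⟨(b (b (l 6) (a (a (l 3) (a (l 3) (a (l 3) (b (a (a (l 9045182982500772563013763151) (a (b (c (l 407652794919) (l 7372029648154126678573482063)) (l 8755040785793261698523283535)) (c (l 6346860553120921550739472463) (l 6762731035068353918118903887)))) (l 144108281768149071)) (a (c (l 8832412038248598034423857231) (l 8900111884147017062048972879)) (a (a (b (l 6811088067852939085107249231) (l 8203770612048991001015763023)) (c (l 335175221799) (l 6385546179348589890488533071))) (l 16777480))))))) (a (a (a (a (c (l 144098523601354831) (l 144098592320831567)) (l 144073234829262927)) (l 16776152)) (l 144009531865055311)) (l 16774448)))) (a (b (a (l 3) (a (l 3) (a (l 3) (a (l 3) (a (b (c (l 8493912808756502140384215119) (l 8561612654654921168009330767)) (l 3)) (b (b (l 6182446641653332464015835215) (c (l 7081887451446616363838931023) (l 7091558858003531816688615503))) (a (l 505363301255)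 (c (l 7913628415341480342683729999) (l 7990999667796816472425955407))))))))) (l 3)) (a (a (a (a (a (b (b (l 16777504) (b (l 16777280) (c (l 6714374002283769300886749263) (l 6724045408840686196845445199)))) (b (a (l 8726026566122511079366934607) (b (l 6830430880966773564219670607) (l 8261799051390493613718716495))) (l 3))) (b (l 16776800) (b (c (l 335712092759) (l 6308174926893254241782677583)) (c (l 7710528877646223053649952847) (a (l 8387527336630415047888076879) (l 7168930110458869801856843855)))))) (b (l 144099416954634319) (c (l 144109243841167439) (b (l 16777496) (l 144120032799162447))))) (a (b (l 144073990748946511) (l 144100310306586703)) (b (l 16776424) (l 144074815382749263)))) (a (l 16773336) (l 144100791341072463))) (a (l 144096874329817167) (l 16774320))))), by decide +kernel⟩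

def k2_pp_123 : ∃ t, chk3 f_pp_123 t 512 133 1 = true :=
  ⟨(a (l 3) (a (a (a (b (a (b (c (l 9025840169386939320852611151) (l 9112882828399192415273025615)) (l 3)) (a (b (b (c (l 7391372461267960814088650831) (a (l 8010342480910650951538425935) (l 6782073848182188740828840015))) (c (l 489794045223) (l 8900111884147018092841664591))) (l 3)) (b (b (l 16777408) (c (l 7120573077674282298406584399) (a (l 7642829031747803888586096719) (l 6395217585905507611081375823)))) (b (c (l 8551941248098005027965337679) (l 8638983907110258191105228879)) (l 3))))) (l 3)) (b (b (a (l 144109724877635663) (l 144078526232592463)) (a (a (b (c (l 6840102287523691422251286607) (b (l 16777720) (l 7081887451446616913595203663))) (c (l 8290813271061245332387283023) (c (l 8348841710402747395334225999) (l 8387527336630415460205363279)))) (b (l 16777808) (c (l 6549960090816180626480316495) (l 6569302903930014555836661839)))) (l 16777048))) (a (a (l 3) (b (b (c (l 8020013887467568191094718543) (a (l 8803397818577848239901835343) (l 7662171844861638917454413903)))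 (l 3)) (l 3))) (a (c (b (b (l 16778008) (l 7642829031747804094744887375)) (l 508047656359)) (b (b (l 6279160707222503828785184847) (b (l 7236629956357289585396826191) (l 8145742172707489831422623823))) (b (l 512342623783) (l 3)))) (b (c (l 16777976) (l 16777992)) (b (c (l 7352686835040294329766035535) (b (l 6859445100637525489046995023) (c (l 7758885910430809388869877839) (l 7768557316987725666353283151)))) (c (l 491941529063) (l 8938797510374686570030022735)))))))) (b (a (a (b (l 144075777455538255) (l 144079144705343567)) (b (l 16776520) (l 16776424))) (l 16773440)) (b (a (a (l 16776480) (l 144079694461337679)) (l 144030491309424719)) (a (a (a (b (l 16778104) (c (l 7062544638332783465275555919) (a (b (l 6724045408840687021479886927) (l 8300484677618163190419013711)) (l 6317846333450171893656600655)))) (l 16778072)) (l 16776576)) (l 144080725253308495))))) (a (b (l 144009944181719119) (a (l 16776208) (l 16775224))) (b (l 16774272) (l 144097149207576655))))), by decide +kernel⟩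

def k3_pp_123 : ∃ t, chk3 f_pp_123 t 513 66 1 = true :=
  ⟨(l 16773656), by decide +kernel⟩

def k4_pp_123 : ∃ t, chk3 f_pp_123 t 1024 67 1 = true :=
  ⟨(l 3), by decide +kernel⟩

def k5_pp_123 : ∃ t, chk3 f_pp_123 t 1025 67 1 = true :=
  ⟨(a (a (b (l 3) (l 3)) (b (b (b (a (a (a (b (c (l 8561612654654922611119112271) (c (l 8629312500553341638744227919) (c (l 8658326720224092670217699407) (l 8687340939894843701691170895)))) (l 3)) (b (c (l 6772402441625272669504553039) (b (l 16778008) (c (l 7004516198991281127450869839) (l 7004516198991281058731393103)))) (c (l 8155413579264407277137412175) (a (l 499457722023) (a (l 8078042326809071834590068815) (l 7362358241597211500602966095)))))) (a (b (l 16777560) (c (l 347523253895) (l 6337189146564006510207828047))) (l 16778168))) (a (l 16776672) (l 144080862687461455))) (a (a (l 3) (a (b (c (l 7855599975999980066444148815) (a (l 8580955467768757708706857039) (l 7255972769471124957862592591))) (l 3)) (c (l 6878787913751361617426939983) (b (l 334101481255) (a (l 8174756392378243680395280463)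 (l 6840102287523693415116881999)))))) (a (c (l 16778248) (l 16778240)) (l 16778000)))) (a (a (l 3) (b (c (l 8967811730045440144124592207) (c (l 8996825949716191381756493903) (l 9016168762830025311112839247))) (l 3))) (b (a (a (c (l 7594471998963221882694713423) (b (c (l 7101230264560454141487267919) (l 7139915890788122137638912079)) (l 8677669533337930241706917967))) (b (l 16778368) (c (l 372756187383) (l 6811088067852944032911147087)))) (l 16778248)) (a (b (c (l 477446015175) (l 8629312500553345487035482191)) (l 3)) (a (c (l 7178601517015792745130688591) (b (l 6501603058031599926259138639) (l 8078042326809075270564446287))) (c (l 16778432) (l 6114746795754919621145018447))))))) (a (l 3) (a (l 3) (b (b (b (c (l 8213442018605914906362757199) (l 8242456238276665731677814863)) (l 3)) (l 3)) (l 3)))))) (a (b (a (a (b (l 144082168362516559) (l 144104364758794319)) (b (l 16774456) (l 144084710986465359))) (b (l 16776328) (b (l 16777056) (l 144037363258310735)))) (a (a (b (b (c (l 6491931651474685916518137935) (c (l 6549960090816187910745587791)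 (b (l 16777776) (l 6946487759649786280049672271)))) (b (c (l 7816914349772317155534553167) (l 7845928569443069423958589519)) (l 8716355159565603185661460559))) (l 3)) (b (b (l 16778256) (c (l 6172775235096426013418979407) (c (l 6230803674437928076365922383) (l 6269489300665596072517550159)))) (b (c (l 7787900130101569422595915855) (a (l 8493912808756512929344045135) (l 7130244484231213144420663375))) (l 3)))) (a (b (l 144086428974006351) (b (c (l 16777856) (l 144131646391828559)) (c (l 7478415120280217550642823247) (a (l 8068370920252164353200717903) (l 6695031189169949046708158543))))) (b (l 144085260739608655) (b (l 16778264) (l 16778192)))))) (a (b (l 144020183385636943) (b (l 144081343731236943) (b (l 144040112043393103) (l 144087665927258191)))) (b (l 144012211924648015) (b (l 16776288) (l 144034889356656719)))))), by decide +kernel⟩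

def k6_pp_123 : ∃ t, chk3 f_pp_123 t 513 67 1 = true :=
  ⟨(a (a (a (b (b (l 16774152) (l 144096049695621199)) (b (l 144100791340613711) (l 16775784))) (b (l 16773904) (l 143913668203823183))) (b (l 16773688) (l 143919646787829839))) (l 16773080)), by decide +kernel⟩

def k7_pp_123 : ∃ t, chk3 f_pp_123 t 257 33 1 = true :=
  ⟨(l 143933734264651855), by decide +kernel⟩

def k8_pp_123 : ∃ t, chk3 f_pp_123 t 129 16 1 = true :=
  ⟨(l 143724483429285967), by decide +kernel⟩

def k9_pp_123 : ∃ t, chk3 f_pp_123 t 128 34 1 = true :=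
  ⟨(a (b (a (a (l 3) (a (l 3) (b (b (a (a (l 3) (b (a (l 8842083444805529086597234767) (c (l 6888459320308269786012860495) (c (l 6956159166206688744918499407) (l 7004516198991285113181438031)))) (c (l 8677669533337942061457670223) (l 8716355159565609782731374671)))) (a (a (b (l 16778520) (c (l 6559631497373093124393992271) (l 6656345562942263320931500111))) (l 16777752)) (b (l 144039905890336847) (l 144042311072628815)))) (a (l 3) (b (a (c (l 7410715274381810823804305487) (a (l 8232784831719760999067238479) (l 3532481245058084485796003919))) (l 16778416)) (a (c (l 8290813271061263199452987471) (c (l 8319827490732014711962779727) (l 8329498897288931951518842959))) (c (l 16778024) (l 144091789095649359)))))) (a (l 3) (a (l 3) (b (a (b (c (l 420000828471) (l 7584800592406311515087454287)) (l 8939402008448619772496094799)) (b (l 16778152) (c (l 384030477431) (l 7033530418662051743976734799)))) (b (l 8745973887974801785205876303) (l 3)))))))) (b (a (a (a (a (b (l 144034339611557967) (l 144040318202085455)) (b (l 16776248) (l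 16775920))) (l 143923632508878927)) (b (l 144087459759013967) (l 144087872076316751))) (l 16772624)) (a (a (a (a (b (l 144090208547487823) (c (b (l 6270093646265648539696047695) (l 7450005412518454821978678863)) (b (l 6376479196790398770091566671) (l 7469348209779613183907980879)))) (b (l 144039768446287951) (l 16777280))) (b (l 144029597961535567) (a (l 144128966332497999) (l 16777184)))) (b (l 143910644525236303) (l 143916279523786831))) (b (l 16772416) (l 143909201425547343))))) (a (l 3) (b (a (a (a (a (b (c (l 8446160290186748903896278607) (b (l 8359117649333011637337613903) (l 3))) (l 3)) (b (c (l 6008965812479385310482327119) (b (l 327659031015) (l 7043806319545886405303412303))) (c (l 8127003862999827698717087247) (b (l 7923904365080361906302801423) (l 480130372263))))) (a (b (l 16778616) (c (l 5641452303220482692226766351) (b (l 16779008) (l 6366807794701029820899317263)))) (b (l 604094407284152088438351) (l 16778632)))) (a (b (l 16776672) (a (l 604131012540686405297743) (l 16777144))) (l 16775192))) (a (l 144079282119213135)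 (l 16771944))) (a (a (a (l 3) (a (b (c (l 7788504617943291217606940175) (b (l 7469348242205512152875963919) (l 8359117627283365527902426639))) (l 3)) (b (b (l 16779056) (l 604499515065120217486863)) (c (l 7440333949324245510148281871) (b (l 7014792113566054876415038991) (l 7904561489996996966890165775)))))) (a (a (b (l 16777344) (l 604402669658733243471375)) (b (l 603796088842017568335439) (l 604266048460437330957839))) (b (l 16776656) (l 603812517967410901132879)))) (a (a (l 16775176) (l 603463182709389978297935)) (l 604080860395312611370575)))))) (l 602171045766113477502543)), by decide +kernel⟩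

def k10_pp_123 : ∃ t, chk3 f_pp_123 t 256 35 1 = true :=
  ⟨(a (l 3) (b (a (a (a (l 3) (a (l 3) (b (b (c (l 480130373063) (l 8620245510357022804181390863)) (l 3)) (l 3)))) (b (a (a (c (b (l 6985777818667175600625260047) (l 460266149335)) (b (a (l 7546719417126877235247224335) (l 343765159703)) (b (l 461876761287) (l 3)))) (b (l 16779200) (a (b (l 16779672) (b (l 392620413575) (l 442012537719))) (l 16778872)))) (b (l 604274695371721876117007) (c (l 604377593616008038340111) (l 604388258139925654246927)))) (a (a (l 3) (b (a (b (l 493552145543) (l 3)) (c (l 414632120951) (b (l 389936058999) (l 461339891239)))) (l 3))) (a (b (b (l 16779488) (c (l 16779736) (l 352891965447))) (b (c (l 407115928055) (a (l 453286827015) (l 16779768))) (c (l 455971181607) (l 458118665111)))) (b (l 16779088) (b (l 16779424) (l 323900935975))))))) (b (a (b (l 16770344) (l 604235496040565238863375)) (l 603498923264900233782863)) (a (a (b (l 604242413569592889497103) (l 604391140443687171118607)) (l 604306112482722410255887)) (l 603668114505047139968591))))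 (b (a (a (l 3) (a (l 3) (a (b (l 3) (l 3)) (b (c (b (l 379735511479) (l 429127635831)) (b (c (l 380809253255) (l 381346124087)) (c (l 430201377607) (l 430738248439)))) (c (l 475835406231) (b (l 473687922311) (l 3))))))) (b (a (a (c (l 16779240) (l 16779160)) (l 603905472259871538107919)) (l 16775128)) (a (a (a (a (c (l 398525993751) (b (l 340543935927) (l 431811991191))) (c (l 16779808) (l 16779720))) (l 16779376)) (l 604232325506427580274191)) (l 603937754062000515634703)))) (a (l 3) (b (a (a (a (c (l 453823698791) (b (c (l 437180700519) (l 438791313159)) (l 495162758935))) (b (l 16779048) (c (l 365776867959) (c (l 373829931527) (l 374366802343))))) (l 16779024)) (l 604370387856604240647695)) (a (a (a (l 3) (c (l 439328183255) (a (l 481740986071) (b (l 360945030647) (l 448991860391))))) (c (l 329269644151) (b (l 16779288) (c (l 16779520) (l 337859578903))))) (a (l 604239819496207524337167) (l 16776648)))))))), by decide +kernel⟩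

def k11_pp_123 : ∃ t, chk3 f_pp_123 t 257 35 1 = true :=
  ⟨(a (a (b (b (l 16770880) (l 603373542871229195396687)) (a (b (l 603553398795822423221839) (l 16773272)) (a (l 603434936101534620919375) (l 603316473413637731018319)))) (b (l 16769928) (l 16769032))) (l 16768264)), by decide +kernel⟩

def k12_pp_123 : ∃ t, chk3 f_pp_123 t 129 17 1 = true :=
  ⟨(b (l 16766304) (l 16743144)), by decide +kernel⟩

def k13_pp_123 : ∃ t, chk3 f_pp_123 t 65 8 1 = true :=
  ⟨(b (a (l 16762584) (l 16756632)) (a (l 16737552) (l 16752056))), by decide +kernel⟩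

def k14_pp_123 : ∃ t, chk3 f_pp_123 t 33 8 1 = true :=
  ⟨(a (b (l 16748344) (l 16744520)) (b (l 16712200) (l 16738432))), by decide +kernel⟩

def k15_pp_123 : ∃ t, chk3 f_pp_123 t 17 8 1 = true :=
  ⟨(a (b (l 16700632) (l 16687920)) (l 16633416)), by decide +kernel⟩

def k16_pp_123 : ∃ t, chk3 f_pp_123 t 9 8 1 = true :=
  ⟨(a (b (l 16547480) (l 16546168)) (l 16354152)), by decide +kernel⟩

def k17_pp_123 : ∃ t, chk3 f_pp_123 t 5 8 1 = true :=
  ⟨(a (l 15921256) (l 15520216)), by decide +kernel⟩

def k18_pp_123 : ∃ t, chk3 f_pp_123 t 128 36 1 = true :=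
  ⟨(a (a (l 3) (a (l 3) (b (a (b (a (l 3) (a (b (a (b (c (l 419463960439) (l 426443282055)) (l 3)) (c (l 380272382743) (b (l 16779824) (l 397452252759)))) (c (l 486572824679) (l 496773371735))) (b (c (l 16779656) (l 16779528)) (c (b (l 16779952) (l 395841640439)) (b (l 3658814005169351029984368143) (l 7479019661444565736949978639)))))) (a (l 3) (b (c (l 8542874337165039978722350607) (b (l 8697616888480803073510151695) (l 3))) (l 3)))) (a (b (b (l 604417945868669283227151) (l 604540155548157607908879)) (c (b (l 6173379714291235355647104527) (l 7256577295071033656607430159)) (a (b (b (l 16779688) (l 6956763641654520170885469711)) (b (l 7846533156147812438028949007) (l 482277853927))) (b (l 604039211154405934798351) (b (l 16778712) (l 5825209214431091927443809871)))))) (b (b (l 604027105478607559464463) (l 604012693959799974942223)) (b (l 603920027909397802100303) (l 16776464))))) (a (l 3) (b (a (a (l 3) (b (c (l 7653104781022470933311923791) (b (l 7304933961082478914436752975) (l 8204374878673919646708016719))) (b (l 3)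 (l 3)))) (b (c (l 16775576) (l 603612486091378130331215)) (c (l 6037375543299576344569167951) (a (b (l 6772402441625272325901779023) (c (l 7652500438304718241918222415) (l 7662171844861634175804047439))) (l 16775280))))) (a (l 3) (b (a (c (l 8580955467768739223157981263) (b (l 8542269841541080023100571727) (l 3))) (c (l 6085732576084153814973431887) (b (l 5524790995782964984557797455) (c (l 7101230264560438061119144015) (l 7110901671117353376529530959))))) (c (l 8464898589085722659037560911) (b (c (l 8368184523516558028778094671) (l 8339170303845805004439519311)) (l 8861426257919318760597028943)))))))))) (b (a (b (a (a (l 16769664) (l 603293991463608072840783)) (l 144055573911945295)) (a (a (a (l 603663791097233615496783) (l 16774888)) (l 16771912)) (l 144061552505159759))) (l 16766424)) (a (b (a (a (a (b (l 144118727125614671) (l 16771968)) (l 144108281761366095)) (l 16770824)) (l 144049938866012239)) (a (b (a (a (c (l 16773448) (l 144104433469521999)) (l 144100447737643087)) (l 144083817619161167)) (a (a (c (l 5399062710543033929655238735)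 (b (l 144098042556022863) (c (l 5466762556441447459722199119) (l 5476433962998362087937867855)))) (l 16768200)) (l 144080312923799631))) (l 144037912952520783))) (b (l 16762584) (l 143877178112917583))))), by decide +kernel⟩

def k19_pp_123 : ∃ t, chk3 f_pp_123 t 256 37 1 = true :=
  ⟨(b (l 3) (l 3)), by decide +kernel⟩

def k20_pp_123 : ∃ t, chk3 f_pp_123 t 257 74 1 = true :=
  ⟨(a (b (a (b (a (a (a (c (l 7758885910430780389233016911) (c (l 7787900130101527572415397967) (b (l 7449400900609432090694320207) (l 8348841710402709462165143631)))) (c (l 144089521337008207) (b (l 144086703838658639) (l 144080931400941647)))) (l 144083474021072975)) (l 144072616318156879)) (a (a (a (l 3) (c (l 7323672615369500967072530511) (b (c (l 6869116507194399091714916431) (l 6878787913751312895296815183)) (c (l 7758885910430759017471164495) (l 7787900130101506612970258511))))) (c (l 144075090241781839) (l 144068012134989903))) (c (l 144065813108506703) (l 144057910357246031)))) (l 144026436837998671)) (a (a (b (a (c (l 8938797510374614414556233807)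 (b (c (l 8880769071033117986606891087) (l 8813069225134695041971224655)) (l 3))) (c (b (l 144065400792809551) (l 6578974310486870153994453071)) (a (b (c (l 144060659148914767) (l 5650519281022833504713506895)) (c (l 7188272923572637966647263311) (l 7207615736686467841554088015))) (l 144052756406812751)))) (a (l 3) (a (c (b (l 8058699513695168910849704015) (l 8929126103817681644390416463)) (b (c (l 8087713733365913482691903567) (l 8107056546479743082720805071)) (l 8977483136602257602967748815))) (c (l 5795590379376578285432930383) (b (l 144041005373292623) (c (l 6047046949856410021216567503) (l 6027704136742571075337994447))))))) (a (c (l 144050763539120207) (l 144041623837179983)) (l 144039768409079887))) (b (l 144013655011049551) (a (l 144018740253393103) (l 16755160))))) (a (a (l 143982799956738127) (l 143979432698921039)) (l 16751496))), by decide +kernel⟩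

def k21_pp_123 : ∃ t, chk3 f_pp_123 t 257 75 1 = true :=
  ⟨(a (b (a (b (a (a (l 3) (a (l 3) (c (b (l 7488086526837046279477510351) (l 8377855930073391086948450511)) (b (c (l 7507429339950872855849500879) (b (l 7188272923572608142388609231) (l 7729871690759957064853405903))) (c (l 8397198743187229895387267279) (l 8416541556301048706458255567)))))) (a (c (b (l 144030903605199055) (l 144022176229474511)) (b (l 144020389524357327) (c (l 144013929891561679) (l 5331362864644522955346051279)))) (l 144016953547636943))) (a (l 3) (a (a (c (b (l 6898130726865087725884031183) (l 7797571536658361592660771023)) (b (c (l 6917473539978913271463805135) (b (l 6491931651474560640872939727) (l 7043201825218826321857429711))) (c (l 7816914349772186725923668175) (b (l 7584800592406174694566330575) (l 8136070766150439894514319567))))) (c (l 144007332818534607) (b (l 144000323432071375) (l 143990152947171535)))) (l 143998193125949647)))) (a (a (l 144001285480579279) (l 143992077089079503)) (l 16747344))) (a (a (l 3) (a (b (a (b (c (l 8677669533337786480515907791)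 (c (l 8706683753008531739552940239) (l 8735697972679276517553340623))) (l 3)) (c (b (l 5940661477730280116473020623) (c (l 7188272923572569796906123471) (l 7207615736686397266630934735))) (a (b (c (l 6269489300665450112302661839) (l 6221132267880858485683060943)) (c (l 8097385139922757879583703247) (b (l 7836257162885994335715868879) (l 8755040785793106323738296527)))) (b (l 143979020389236943) (c (l 143971392525107407) (l 5785918972819579750718947535)))))) (a (l 3) (a (l 3) (b (c (c (l 7584800592406156964932272335) (l 7613814812076901124457480399)) (c (l 7633157625190728181865414863) (b (l 7236629956357125895552827599) (l 8165084985821154779533852879)))) (l 3))))) (b (c (l 143984380506882255) (l 143970842768883919)) (a (b (c (l 143969124779868367) (c (l 143958541979582671) (l 143951326433951951))) (c (c (l 6588645717043681702969589967) (l 6617659936714425793775157455)) (c (b (l 6163103828539326392318247119) (l 6704702595726664044788662479)) (a (b (l 6627331343271338016810369231) (c (l 7546114966178442102093086927) (l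 7546114966178438528680083663))) (l 143930435710124239))))) (c (l 143954899845791951) (l 143940606193467599)))))) (a (a (a (l 143868725612085455) (l 143775129694388431)) (l 143766539757699279)) (l 143741594582335695)))) (a (a (l 143729706108715215) (l 143699057215045839)) (l 143682427097219279))), by decide +kernel⟩

def k22_pp_123 : ∃ t, chk3 f_pp_123 t 129 18 1 = true :=
  ⟨(b (a (l 143950845413851215) (l 16757376)) (b (l 16747336) (l 16715848))), by decide +kernel⟩

def k23_pp_123 : ∃ t, chk3 f_pp_123 t 65 18 1 = true :=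
  ⟨(b (l 16728192) (l 16712976)), by decide +kernel⟩

def k24_pp_123 : ∃ t, chk3 f_pp_123 t 33 18 1 = true :=
  ⟨(a (b (l 16742032) (l 16701856)) (a (l 16669232) (l 16637032))), by decide +kernel⟩

def k25_pp_123 : ∃ t, chk3 f_pp_123 t 17 18 1 = true :=
  ⟨(a (a (l 16608296) (l 16587120)) (l 16564296)), by decide +kernel⟩

def k26_pp_123 : ∃ t, chk3 f_pp_123 t 9 18 1 = true :=
  ⟨(l 16230632), by decide +kernel⟩

def k27_pp_123 : ∃ t, chk3 f_pp_123 t 256 38 1 = true :=
  ⟨(l 3), by decide +kernel⟩

def k28_pp_123 : ∃ t, chk3 f_pp_123 t 1028 76 1 = true :=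
  ⟨(a (l 3) (a (l 3) (b (b (a (a (b (b (c (l 8542269841540893930710319311) (c (l 8542269841540883966385602767) (l 8484241402199375031490363599))) (l 3)) (l 3)) (b (c (c (l 6588645717043645006766129359) (l 6443574618689883046169788623)) (c (b (l 143911950169473231) (l 6927144946535719529047687375)) (b (l 6008361323628612213949333711) (c (l 6936816353092631752081572047) (l 6936816353092628522266017999))))) (c (c (l 8078042326808831385081086159) (l 8107056546479576644117709007)) (c (b (l 7855599975999736936876032207) (l 8842083444805256338931876047)) (b (c (l 7923299821898151566454325455) (l 7884614195670480409206423759)) (l 8813069225134499397582586063)))))) (b (c (l 143908170597695695) (l 143895251334824143)) (c (c (l 5930990071173246053792235727) (l 5785918972819484780390645967)) (c (b (l 143872436466811087) (l 5998689917071644877890470095)) (b (l 143866389152219343) (c (l 6008361323628557581960675535) (l 6018032730185471729140072655))))))) (a (l 3) (a (b (c (c (l 7623486218633691714005876943) (b (l 7226958549800097330433163471)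 (l 8290813271060952724792131791))) (c (b (c (l 7246301362913927342778843343) (l 7255972769470841627397177551)) (l 8203770612048694270252024015)) (b (c (l 7265644176027755912015511759) (b (l 6975501979320246559353766095) (l 7526772153064508735645483215))) (c (l 8203770612048690421960999119) (l 8213442018605604844018024655))))) (l 3)) (b (c (c (l 143837664409141455) (l 143832441728237775)) (c (l 143827150327857359) (b (l 143830448862789839) (l 143813200272703695)))) (c (c (b (l 6598317123600456349600743631) (l 7526772153064473070234190031)) (b (l 6617659936714285606031982799) (c (l 7536443559621386667657642191) (l 7555786372735218466709864655)))) (c (b (c (l 6637002749828116030694490319) (l 6637002749828113625512640719)) (c (l 7565457779292133232364421327) (l 7575129185849047998019076303))) (b (c (l 6646674156385028253728342223) (b (l 6269489300665265875365642447) (l 6811088067852611018259628239))) (c (b (l 7343015428483041395499122895) (l 7884614195670386400954138831)) (b (l 7362358241596873194551263439) (l 7903957008784218200006344911))))))))))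 (a (l 3) (b (b (b (c (c (l 8958743449297245677951231183) (l 8881372184736239247394694351)) (c (c (l 8794329511600706998669305039) (l 8765315284147733612076098767)) (c (l 8716958243869145264845104335) (l 8736301049488987421391594703)))) (l 3)) (l 3)) (l 3)))))), by decide +kernel⟩

def k29_pp_123 : ∃ t, chk3 f_pp_123 t 2058 152 1 = true :=
  ⟨(b (c (l 143874772927889615) (l 143862540859769039)) (a (c (b (l 143827493924880591) (c (l 143793890098266319) (l 143789217173160143))) (b (l 143816979843596495) (c (l 143784544248053967) (l 143779871322931407)))) (l 601837851333909223204047))), by decide +kernel⟩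

def k30_pp_123 : ∃ t, chk3 f_pp_123 t 2058 306 1 = true :=
  ⟨(b (a (a (b (c (c (l 5796193437451255778086986959) (l 5815536235577106024385045711)) (c (c (l 5834879037449952260167214287) (l 5834879030244190726070363343)) (c (l 5844550429307115849219499215) (l 5844550421813123938970985679)))) (a (a (c (c (l 7904560233889017697657836559) (l 7817517561618167094099694607)) (c (c (l 7778831925590666171350537231) (l 7740146292733699386270192655)) (c (l 7749817692661317768178111503) (l 7778831905702770216881165327)))) (c (c (l 603223807420272671265807) (l 603210548822969691804687)) (c (l 603197578456042864038927) (l 5486708553731045934700123151)))) (c (l 603213142896355057161231) (l 603186913932125249934351)))) (c (l 603123070541106248950991) (l 603095400416886784926927))) (l 603093094569273365374159)) (a (a (a (a (l 3) (c (b (c (l 7217890529756918971381584911) (c (l 7217890521110007686830019599) (l 7237233328459234230590542863))) (c (l 8852358398420217132086187023) (l 8687944477441025151318922255))) (b (c (c (l 7246904729539774117105472527)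 (l 7256576130332083627468510223)) (c (l 7275918937681310171229213711) (b (l 6782677155720529402917016591) (l 7720803675616521102636340239)))) (c (c (l 8707287283349099814321034255) (l 8707287278449183419741721615)) (c (l 8736301493220018125355029519) (l 8745972895165249140325078031)))))) (c (c (b (l 603382910587908414264335) (c (l 6299107067682350691258684431) (l 6308778469339351330076939279))) (b (l 603371669603238496769039) (c (l 6328121277841499378444391439) (l 6337792679498500017262580751)))) (c (b (l 603360428618568579273743) (c (l 6347464081443731032232547343) (b (l 5902579333708687311667221519) (l 6444178183618159137476088847)))) (a (b (l 603350340555403268756495) (c (l 6598920643564892992171086863) (l 6540892199323474397205795855))) (l 603431621521478050436111))))) (c (l 603450068265551761167375) (l 603429603908844988142607))) (l 603421821688688891024399))), by decide +kernel⟩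

def k31_pp_123 : ∃ t, chk3 f_pp_123 t 2058 307 1 = true :=
  ⟨(a (a (b (a (l 3) (a (a (l 3) (b (c (b (c (l 7391976127653120815848838159) (l 7420990339253421383793103887)) (c (l 8842687178348353468844413967) (l 8862029984256428131846247439))) (b (c (c (l 7430661739757500518004413455) (l 7440333141990961909126091791)) (c (l 7469347357626487743194764303) (l 7459675947034345443672937487))) (c (l 8881372789876272418696614927) (c (l 8900715597513729338608899087) (l 8920058406880568515431552015))))) (l 3))) (c (b (c (c (l 6241078782255869355885253647) (l 6260421591334478156556194831)) (c (l 6241078774473649199788266511) (l 6231407363881506900266439695))) (c (c (l 7672446908580342747525239823) (l 7682118311390264890950259727)) (c (a (l 8542873491497116349520172047) (l 6714977651663336285060928527)) (b (l 7362961922105658147088143375) (l 8291416882394403076851569679))))) (b (b (c (l 603648370764344136504335) (l 603640300313811887805455)) (c (c (l 6289435833487198596581757967) (l 6308778642854037773404591119)) (c (l 6328121452220876950227293199)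 (l 6279764415689296893266367503)))) (c (a (c (l 8571887703385647293616100367) (l 8581559106195569437041316879)) (c (l 6743991863840097605308650511) (l 6773006079475623439377421327))) (a (c (l 8591230509005491580466418703) (l 8600901911527183347739776015)) (c (l 6802020295399379649597854735) (l 6850377324436969926613505039)))))))) (l 3)) (b (b (c (c (l 603691317090390742029327) (l 603683823100610796770319)) (c (l 603676040880454699783183) (l 603668546890674754524175))) (c (c (l 5138538381444707960485811215) (c (l 603642606156821101499407) (l 603638859161931128869903))) (c (c (l 603634823936665004512271) (l 603631076941775031882767)) (c (l 603627329946885059236879) (l 603623582951995086607375))))) (a (a (c (b (c (c (l 7188876442960371277124031503) (l 7198547845482063044397323279)) (c (l 7217890654272441468916569103) (l 7227562056794133236189860879))) (c (l 8658930101261179800744285199) (l 8687944311996789240233399311))) (b (c (c (l 7237233459027594627311539215) (l 7246904861549286394584962063)) (c (l 7246904857225830752309072911)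 (b (l 6773005966489315987905532943) (l 7720803740180125360615838735)))) (c (l 8707287116175481646325060623) (c (l 8716958515814869652081382415) (l 8726629918048331043203011599))))) (c (b (c (l 603514631869809741911055) (l 603506273188901341500431)) (c (c (l 6221735649782778512992048143) (l 6241078458284926561359614991)) (c (l 6241078453961470919083512847) (l 6289435482134370067643978767)))) (b (c (l 603498202738369092801551) (l 603489844057460692390927)) (c (c (l 6308778290924748492163306511) (l 6328121099426896540530988047)) (c (l 6357135314485961622296335375) (l 6395820936390174113610863631)))))) (c (c (l 603441709584643358299151) (l 603433062673358806176783)) (c (l 603424415762074254054415) (l 603416057081165853627407)))))) (b (c (l 603266465515943116575759) (l 602873895743624483656719)) (c (l 603418362924175067911183) (l 603401645562358267073551)))), by decide +kernel⟩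

def k32_pp_123 : ∃ t, chk3 f_pp_123 t 2059 76 1 = true :=
  ⟨(c (b (l 601474969126644423681231) (b (l 603220780591754989135055) (l 602717674879750253335567))) (b (l 601431734559295268791503) (b (l 603198298614924731196623) (l 602702975130566514496527)))), by decide +kernel⟩

def k33_pp_123 : ∃ t, chk3 f_pp_123 t 515 76 1 = true :=
  ⟨(b (a (l 601271766820240385991887) (l 601849380425809963361487)) (a (b (l 603021325107892476749007) (l 602521389993590926447631)) (l 602127810847057995539663))), by decide +kernel⟩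

def k34_pp_123 : ∃ t, chk3 f_pp_123 t 1028 77 1 = true :=
  ⟨(l 3), by decide +kernel⟩

def k35_pp_123 : ∃ t, chk3 f_pp_123 t 1029 154 1 = true :=
  ⟨(a (a (b (a (l 3) (b (a (b (c (c (l 8455830427232954179633615887) (c (l 8465501826584111809238045711) (l 8484844634798029481453868047))) (c (c (l 8494516036455030120272024591) (l 8504187438112030759090263055)) (c (l 8513858839769031397908599823) (l 8523530241426032036726920207)))) (l 3)) (c (c (b (l 5506051422761572974922945551) (c (l 6898733835524574259003855887) (l 6908405236893344521670300687))) (b (l 5525394226363804628710986767) (c (l 6918076638262114784336761871) (l 6937419446476032456552567823)))) (c (b (c (l 5573751251942630391906096143) (l 5622108279827299164314981391)) (c (l 6947090847844802719219012623) (l 6956762249213572981885457423))) (b (c (l 5641451088041216836530967567) (l 5660793896543364884898518031)) (c (l 6966433650582343244552066063) (l 6966433645394196473821041679)))))) (a (l 3) (a (l 3) (c (b (c (l 7217890114416946936758834191) (l 7237232916866257085940093967))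 (c (l 8668600964359320384990127311) (l 8687943765943934526633321679))) (b (c (a (l 7923902772319303291862684687) (l 6105678338177749132346037263)) (c (l 7266247117225572983967355919) (l 7275918518306112870482220047))) (c (l 8716957974085465632954787023) (l 8736300775238151131436094479)))))))) (l 3)) (b (c (a (b (l 603156073281877010191375) (c (b (l 602960941317222301291535) (l 5525393824137909813839570127)) (b (l 602950276793304687170575) (c (l 5573750848275579985424344271) (l 5583422249067887021886252239))))) (l 603004607800157915161807)) (c (b (l 603133014851784871531535) (b (l 602930677127726369444879) (c (l 5419008322612312808995415247) (l 5457693943219904772778349583)))) (b (l 603123503249371864273935) (b (l 602919724373432603612175) (c (l 5467365344012214283141354511) (l 5486708151361440826902205455)))))) (a (a (b (c (c (b (l 7217287143243051860316930255) (l 8145742172707090914781593807)) (b (c (l 7227561240957650086719333583) (l 7246904048018643642988176591)) (l 8174756392377836517415518415))) (c (b (c (l 7256575448522720234578846927)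 (l 7266246849026796757449991375)) (l 8203770612048582120049541327)) (b (c (l 7275918249242642904169505999) (l 7275918243189802393643394255)) (l 8213442018605493724608151759)))) (l 3)) (b (c (c (l 602626161335580890916047) (l 602613767424114966815951)) (c (l 602601085282204171510991) (l 5351308266305719396777600207))) (c (c (b (l 6598317123600367770180206799) (l 7526772153064406824644886735)) (b (l 6627331343271113097936322767) (l 7555786372735151877523095759))) (c (b (l 6646674156384941392294854863) (l 7575129185848979897003638991)) (b (l 6656345562941852721975476431) (l 7594471998962807985203904719)))))) (c (b (l 602604832281217312761039) (c (l 143720085366030543) (l 143714175490244815))) (b (l 602580044458148025590991) (c (l 143708265614442703) (l 143702424458117327))))))) (b (c (l 602196986271337408898255) (l 602177386596756839474383)) (c (l 602419211910179514393807) (l 602393847625876887463119)))), by decide +kernel⟩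

def k36_pp_123 : ∃ t, chk3 f_pp_123 t 1029 155 1 = true :=
  ⟨(b (a (a (l 3) (b (a (b (c (c (l 8648655313666786684501573839) (l 8677669533337531531221336271)) (c (l 8697012346451359275823972559) (l 8726026566122104122543734991))) (l 3)) (c (c (b (l 143726270118478031) (l 6308174926892865289464381647)) (b (l 143719947925815503) (l 6337189146563609792586744015))) (a (c (b (l 143714931403473103) (l 6956159166206294501196841167)) (b (l 5640847874465568338389696719) (l 6965830572763205006243643599))) (l 143710945672741071)))) (a (l 3) (a (a (l 3) (c (c (l 7729871690759675452390228175) (l 7749214503873502509798080719)) (c (l 7778228723544246669323075791) (a (l 8329498897288510769760452815) (l 7072216044889296084468580559))))) (c (c (l 5689204907250179962377126095) (l 5718219126920924053182595279)) (c (l 5756904753148585246105354447) (l 5814933192490080437104050383))))))) (c (b (l 143712594939396303) (l 143720566398075087)) (c (l 143706478904443087) (l 143699744394920015)))) (b (a (a (l 3) (a (l 3) (c (c (b (l 7932971228454937826664890575)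 (l 8464898589085377962070065359)) (b (l 7961985448125681505153532111) (l 8493912808756121434400276687))) (c (b (l 7981328261239508218964017359) (l 8513255621869947873332838607)) (b (l 8000671074353334864055255119) (l 8542269841540691276943818831)))))) (a (c (c (l 143736921634373839) (l 143729362491113679)) (c (l 143721803347853519) (l 143714244204593231))) (l 143715962190643279))) (a (l 3) (a (a (c (a (c (l 7101230264560079620254482639) (l 7120573077673905646870347983)) (l 143741800716419279)) (c (b (l 6172775235096025722381369551) (l 6704702595726465651628163279)) (b (l 6182446641652934784319144015) (l 6724045408840291472085696591)))) (c (l 143738227302842575) (l 143722078224171087))) (l 143723109015568463))))), by decide +kernel⟩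

def k37_pp_123 : ∃ t, chk3 f_pp_123 t 515 77 1 = true :=
  ⟨(b (a (a (l 601808163471093876810959) (l 601634936973795004032207)) (l 601373511962702006068303)) (a (a (b (l 143686618971193423) (l 143702630608175183)) (l 143659680928727119)) (l 143601887837225039))), by decide +kernel⟩

def k38_pp_123 : ∃ t, chk3 f_pp_123 t 129 38 1 = true :=
  ⟨(b (b (l 16727800) (l 601976201641645674192975)) (a (a (b (l 601921149640968927043663) (l 143550416937238607)) (l 16718400)) (l 16716712))), by decide +kernel⟩

def k39_pp_123 : ∃ t, chk3 f_pp_123 t 256 39 1 = true :=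
  ⟨(l 3), by decide +kernel⟩

def k40_pp_123 : ∃ t, chk3 f_pp_123 t 514 39 1 = true :=
  ⟨(a (l 3) (a (b (l 3) (l 3)) (b (b (a (a (b (b (c (c (b (l 7197944330129254214838239439) (l 7749214503873528417038565583)) (b (l 7226958549799996862534648015) (l 7768557316987353756459483343))) (c (b (l 7246301362913822408114159823) (l 7787900130101179027161104463)) (b (l 7284986989141482020488396879) (l 7826585756328838433376813135)))) (c (c (l 8358513116959306125294584015) (l 8387527336630048085796126927)) (c (l 8416541556300790046297653327) (l 8435884369414614973401546831)))) (l 3)) (b (b (c (l 143745580286197967) (l 143728262976389199)) (c (c (l 5495776776111861422091272399) (l 5553805215453354482786255055)) (c (l 5515119589225677140784103503) (l 5582819435124087166157340751)))) (b (c (c (l 6811088067852584767399035087) (b (l 6491931651474311532720898255) (l 7033530418661668426645848271))) (c (b (l 6501603058031219014110740559) (l 7062544638332409699952525391)) (b (l 6549960090815794560370589775) (l 7091558858003150904539545679))))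 (c (c (l 7739543097316626295764222159) (l 7768557316987367156753793103)) (c (l 7787900130101190984346107983) (b (l 7623486218633590077872128143) (l 8165084985820946147163209871))))))) (b (c (l 143742350468890831) (l 143724414683791439)) (c (b (l 143753001986769103) (l 143759873933738063)) (c (l 143741388393578575) (l 143731355349123151))))) (a (b (b (c (c (l 8716355159565251685448532175) (l 8745369379235993302352838735)) (c (l 8764712192349817542262095951) (l 8793726412020548301489078415))) (l 3)) (l 3)) (a (b (b (c (c (l 5834276005603974289838948559) (l 5795590379376295367288881231)) (c (l 5834276005603952643200925775) (l 5892304444945444054628237455))) (c (c (l 7120573077673945985197113551) (l 7139915890787768713277636687)) (c (l 7149587297344674407960674383) (l 7168930110458497067321884815)))) (b (c (c (l 8039356700581069861689311311) (l 8058699513694892108733644879)) (c (l 8078042326808714287058518159) (l 8087713733365619431985479695))) (l 3))) (b (c (l 143767776671973455) (l 143745511559774287)) (b (c (l 143777328678109263)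 (c (l 143759461612847247) (l 143747504423026703))) (c (c (l 6482260244917431126798549071) (l 6501603058031252824086822991)) (c (l 6511274464588157419258216591) (l 6520945871145061945709215759)))))))) (a (l 3) (a (l 3) (b (b (b (c (c (l 7401043867824555072010141775) (l 7420386680938376219542929551)) (c (l 7430058087495280264958509199) (l 7449400900609028020088078351))) (c (c (l 8319827490731678398746771535) (l 8329498897288582031845490831)) (c (l 8358513116959319594296852495) (l 8368184523515856677706432527)))) (l 3)) (l 3))))))), by decide +kernel⟩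

def k41_pp_123 : ∃ t, chk3 f_pp_123 t 515 39 1 = true :=
  ⟨(b (a (a (b (a (b (l 143724277243592783) (l 143737746259673167)) (l 143720497669275727)) (b (c (l 143757606186877007) (l 143735134916263951)) (c (l 143770937763905615) (l 143746336189480975)))) (b (l 143700156699820111) (b (l 143725789063462927) (l 143740220152381455)))) (l 143483277976141839)) (a (b (b (a (b (c (l 143780421050548303) (l 143754238928142351)) (c (c (l 143793340311830607) (l 143779802571341967)) (c (l 5321691458087363754451320847) (l 5292677238416136840594751503)))) (l 143753414290538511)) (a (a (c (b (c (l 6221132267880684487916388431) (l 6230803674437587433820242063)) (c (l 6753059628511126891063820431) (b (l 6578974310486604553145467023) (l 6869116507194117960256159759)))) (b (c (l 6240475080994490379722588175) (l 6288832113778352549038538767)) (a (c (l 7710528877645756517019369487) (l 7807242943214070881086226447)) (l 143184760568184847)))) (c (l 143792240797564943) (l 143262825865166863))) (l 143766058672832527))) (a (a (b (c (b (c (l 7275315582584651848496660623)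 (b (l 7149587297344714265249710095) (l 7449400900609144568314527759))) (c (l 7807242943215081607260389519) (l 7826585756328899318814277647))) (b (c (b (l 7168930110458171336990867471) (l 7468743713722460421527322639)) (l 7430058087494018506480992271)) (c (l 7884614195669686836584415247) (l 7990999667794942491984723983)))) (c (b (c (l 8319827490731689187699752975) (l 8358513116959340210115395599)) (l 8842083444805197583734915087)) (c (b (l 8474569995641671434748805135) (l 9016168762828749602427830287)) (l 8619641093994163046961905679)))) (b (c (l 143803785667969039) (l 142720972691685391)) (c (b (l 143812032003850255) (c (l 5660190687579519434427695119) (l 5312020051529959087611084815))) (c (l 3339053113918210754759606287) (l 141796077087571983))))) (c (l 143800830726766607) (l 142353667020947471)))) (a (b (l 143736646731956239) (l 143013099234525199)) (l 143363568630808591)))), by decide +kernel⟩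

def k42_pp_123 : ∃ t, chk3 f_pp_123 t 129 39 1 = true :=
  ⟨(b (a (a (b (l 143579760150265871) (l 143609378241495055)) (l 16714360)) (l 16713328)) (a (a (b (l 143486370359296015) (l 142497084631564303)) (l 16616840)) (l 16564752))), by decide +kernel⟩

def k43_pp_123 : ∃ t, chk3 f_pp_123 t 65 19 1 = true :=
  ⟨(b (b (l 16718584) (l 591857585586972118114319)) (b (l 590421044171980005629967) (a (l 16487656) (l 16422968)))), by decide +kernel⟩

def k44_pp_123 : ∃ t, chk3 f_pp_123 t 33 19 1 = true :=
  ⟨(b (a (b (l 16599512) (l 16525224)) (l 16502872)) (a (l 16410424) (l 16383528))), by decide +kernel⟩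

def k45_pp_123 : ∃ t, chk3 f_pp_123 t 17 19 1 = true :=
  ⟨(a (b (l 16474696) (l 16377728)) (b (l 16459232) (l 16374856))), by decide +kernel⟩

def k46_pp_123 : ∃ t, chk3 f_pp_123 t 9 19 1 = true :=
  ⟨(b (l 16321992) (l 16304128)), by decide +kernel⟩

def k47_pp_123 : ∃ t, chk3 f_pp_123 t 5 9 1 = true :=
  ⟨(b (a (l 16044952) (l 15549944)) (a (a (l 16104040) (l 15901000)) (l 15551960))), by decide +kernel⟩

def k48_pp_123 : ∃ t, chk3 f_pp_123 t 3 4 1 = true :=
  ⟨(b (a (a (l 14975112) (l 14424600)) (a (l 13899288) (l 13427760))) (a (b (a (l 15015048) (l 14472944)) (a (l 15037056) (l 14509232))) (b (a (l 13953608) (l 13485168)) (a (l 14001640) (l 13542880))))), by decide +kernel⟩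

def k49_pp_123 : ∃ t, chk3 f_pp_123 t 16 20 1 = true :=
  ⟨(a (b (a (a (a (l 3) (a (l 3) (a (b (a (a (l 3) (b (b (c (b (c (l 6511274464588196658064867343) (l 6578974310485824930594357263)) (c (l 7043201825218362877634199567) (l 7139915890786752489512878095))) (b (c (l 6685359782611120237141442575) (l 141427671904829455)) (l 7246301362911666677843361807))) (c (b (c (l 7604143405519285557481963535) (l 7710528877644602235788328975)) (c (l 8165084985820213391276572687) (l 8261799051388622931792789519))) (l 7990999667793919396264902671))) (b (c (c (l 8745369379235011644399452175) (l 8832412038246361421193904143)) (l 8929126103814410253181026319)) (l 3)))) (c (b (b (l 143168267834638351) (l 142658506704584719)) (a (b (c (l 3155296389336750423977689103) (l 141827413159362575)) (b (l 6956159166204417840740794383) (l 7517100746505373712086106127))) (l 141902592276578319))) (b (l 141373246065164303) (b (l 140690036900446223) (l 140256348201730063))))) (a (l 3) (c (b (b (b (l 6917473539976266471700463631) (l 7217287143240473161550086159))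 (l 7671843251415237761633910799)) (l 8387527336626774083292610575)) (b (l 7430058087491141840087859215) (l 8551941248092684559119171599))))) (a (b (b (a (l 142050339187081231) (l 141989247560826895)) (a (l 141126130772115471) (l 141076584019836943))) (b (l 140604206396964879) (a (l 139407044247617551) (l 139370622703665167)))) (b (b (l 141892078202568719) (l 141000923861434383)) (b (l 140158285481672719) (l 139314959917498383))))))) (a (b (a (a (l 141257384996356111) (l 141043942260490255)) (l 140795108988469263)) (a (a (b (l 140016585894838287) (l 139204252820783119)) (l 139421475122200591)) (l 139218821348868111))) (b (l 16425136) (l 16299392)))) (a (b (l 16372536) (l 16266576)) (b (l 16329576) (l 16241536)))) (a (a (a (l 3) (a (l 3) (a (b (l 3) (l 3)) (a (b (b (l 138574851114336271) (l 16252288)) (b (l 16152688) (l 3))) (b (b (l 138516989218504719) (l 16206320)) (l 16143512)))))) (b (a (a (a (b (l 138427997480058895) (a (l 16201888) (l 16197200))) (b (l 16246328) (l 16189072))) (b (a (l 16234576) (l 16226432)) (a (l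 16178800) (l 16170776)))) (a (l 16191072) (l 16183520))) (a (a (a (a (l 16119536) (a (l 16117008) (l 16115368))) (a (l 16112232) (l 16107880))) (b (l 16122688) (l 16074088))) (a (l 16089504) (l 16086392))))) (b (a (l 16169816) (l 16159616)) (l 16081888)))) (b (a (l 16263104) (l 16264880)) (b (l 16170176) (l 16111624)))), by decide +kernel⟩

def k50_pp_123 : ∃ t, chk3 f_pp_123 t 16 21 1 = true :=
  ⟨(a (a (a (b (a (l 3) (b (a (l 3) (b (a (l 3) (l 16067896)) (l 197734951575))) (l 3))) (l 3)) (b (a (b (a (a (a (l 16022384) (l 16020376)) (a (l 16018176) (l 16015232))) (b (l 16029064) (l 15986888))) (a (b (a (l 15956824) (l 15954664)) (a (l 15917360) (l 15916464))) (l 15928736))) (a (b (l 16000056) (l 15921888)) (l 15959536))) (a (b (a (b (a (l 15880680) (l 15881032)) (l 15847560)) (a (l 15862544) (l 15858928))) (a (b (l 15816432) (l 15787784)) (a (l 15803128) (l 15801216)))) (b (a (l 15854440) (l 15855616)) (a (l 15797304) (l 15797600)))))) (b (a (l 15966016) (l 15980752)) (a (l 15840568) (l 15867296)))) (a (b (l 16008944)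 (l 15908608)) (l 16003912))), by decide +kernel⟩

def k51_pp_123 : ∃ t, chk3 f_pp_123 t 17 10 1 = true :=
  ⟨(b (b (a (l 16387224) (l 16294120)) (a (l 16193112) (l 16219840))) (a (l 16068616) (l 16115736))), by decide +kernel⟩

def k52_pp_123 : ∃ t, chk3 f_pp_123 t 9 10 1 = true :=
  ⟨(b (b (l 16246680) (l 16194600)) (l 16121032)), by decide +kernel⟩

def k53_pp_123 : ∃ t, chk3 f_pp_123 t 5 10 1 = true :=
  ⟨(b (a (b (l 15965480) (l 15940832)) (l 15539200)) (a (l 15908104) (l 15539904))), by decide +kernel⟩

def k54_pp_123 : ∃ t, chk3 f_pp_123 t 2 11 1 = true :=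
  ⟨(a (a (a (a (b (a (a (l 3) (b (a (b (a (l 15749080) (a (l 15752760) (l 15752792))) (a (l 15705200) (a (l 15711064) (l 15711784)))) (a (l 15728672) (b (l 15748576) (l 15708072)))) (a (b (a (l 15669232) (b (l 15684016) (l 15668368))) (l 15644888)) (a (a (b (l 15678568) (l 15652472)) (l 15663584)) (a (l 15662672) (l 15661776)))))) (a (b (a (b (l 15758880) (l 15717480)) (l 15753896)) (a (b (l 15683224) (l 15655680)) (l 15686544))) (l 15742832))) (a (a (l 3) (b (a (l 43652136647) (a (b (l 15633120) (l 15618232)) (l 15624360))) (a (l 15593536) (b (a (l 15608512) (l 15612216)) (a (l 15603816) (l 15609400)))))) (a (b (a (b (l 15634504) (l 15619400)) (l 15642368)) (a (b (l 15610088) (l 15606328)) (l 15619224))) (l 15656592)))) (b (a (l 15794552) (l 15859224)) (a (l 15711592) (l 15779672)))) (b (a (l 15944880) (l 16012200)) (a (l 15872616) (l 15952472)))) (a (l 15935336) (l 16006168))) (a (a (l 15932104) (l 15812888)) (l 15578048))), by decide +kernel⟩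

def k55_pp_123 : ∃ t, chk3 f_pp_123 t 3 5 1 = true :=
  ⟨(b (a (b (a (l 15058496) (l 14557544)) (a (l 15096264) (l 14625408))) (b (a (l 14070624) (l 13626824)) (a (l 14162160) (l 13735760)))) (a (a (l 15192088) (l 14769640)) (a (l 14344928) (l 13946608)))), by decide +kernel⟩

def k56_pp_123 : ∃ t, chk3 f_pp_123 t 1 6 1 = true :=
  ⟨(a (a (a (a (b (a (b (a (a (l 3) (b (a (l 3) (a (l 15606896) (l 15612016))) (a (l 3) (a (l 15624208) (l 15630192))))) (b (a (a (b (l 15608376) (l 15614680)) (l 15616336)) (l 15642392)) (a (a (b (l 15627040) (l 15642000)) (l 15632360)) (l 15653872)))) (a (b (l 15637016) (l 15686392)) (b (a (a (b (l 15660272) (l 15681768)) (l 15666184)) (l 15681592)) (a (b (l 15730264) (l 15736160)) (l 15724864))))) (b (a (l 15698416) (l 15763656)) (b (l 15760672) (l 15797648)))) (a (b (a (b (l 15749384) (l 3)) (b (a (l 15740624) (l 15782800)) (a (l 15855256) (l 15857328)))) (a (l 3) (b (a (l 15939424) (l 15917872)) (b (l 16018336) (l 16039744))))) (b (b (l 15847912) (l 15910712)) (a (a (l 15848112) (l 16015672))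 (l 16049592))))) (b (b (a (l 15852000) (l 15943288)) (a (l 15888384) (l 15982128))) (b (a (l 15977024) (l 16065216)) (l 15891000)))) (b (a (b (l 16003368) (l 16045440)) (l 16032872)) (a (b (l 16137232) (l 16035280)) (l 15911416)))) (b (a (b (l 15921304) (l 15994696)) (l 15726280)) (a (b (l 15957176) (l 15861640)) (b (l 15748552) (l 15687240))))) (a (b (a (l 15412640) (l 15055216)) (a (b (l 15526968) (l 15508336)) (b (l 15311792) (l 1)))) (b (a (l 14684568) (l 1)) (l 1)))), by decide +kernel⟩

def k57_pp_123 : ∃ t, chk3 f_pp_123 t 1 7 1 = true :=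
  ⟨(a (a (a (a (b (b (a (b (a (l 3) (l 15990320)) (l 43652416135)) (a (b (l 15970408) (l 15896840)) (l 15923912))) (a (b (l 15779736) (l 15762680)) (a (b (l 15819472) (l 15740240)) (l 15767472)))) (b (a (b (l 15682256) (l 15603096)) (b (a (l 15660728) (l 15647320)) (a (l 15582480) (l 15569128)))) (a (b (l 15526984) (l 15456608)) (b (a (l 15510672) (l 15494320)) (a (l 15417216) (l 15403512)))))) (b (b (l 15765328) (a (l 15757048) (l 15742264))) (b (b (l 15626056) (l 15544944)) (b (l 15466920) (l 15393768))))) (b (b (a (l 15885832) (l 15833736)) (a (l 15718872) (l 15672936))) (b (a (l 15544928) (l 15351592)) (a (l 89150908775) (l 1))))) (b (a (b (l 15735952) (l 15542976)) (b (l 15589968) (l 1))) (a (b (b (l 15459632) (l 1)) (l 1)) (l 1)))) (l 1)), by decide +kernel⟩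

theorem s58_pp_123 : ∃ t, chk3 f_pp_123 t 1 3 1 = true := ex3_b k56_pp_123 k57_pp_123

theorem s59_pp_123 : ∃ t, chk3 f_pp_123 t 16 10 1 = true := ex3_b k49_pp_123 k50_pp_123

theorem s60_pp_123 : ∃ t, chk3 f_pp_123 t 8 10 1 = true := ex3_a s59_pp_123 k51_pp_123

theorem s61_pp_123 : ∃ t, chk3 f_pp_123 t 4 10 1 = true := ex3_a s60_pp_123 k52_pp_123

theorem s62_pp_123 : ∃ t, chk3 f_pp_123 t 2 10 1 = true := ex3_a s61_pp_123 k53_pp_123

theorem s63_pp_123 : ∃ t, chk3 f_pp_123 t 2 5 1 = true := ex3_b s62_pp_123 k54_pp_123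

theorem s64_pp_123 : ∃ t, chk3 f_pp_123 t 1 5 1 = true := ex3_a s63_pp_123 k55_pp_123

theorem s65_pp_123 : ∃ t, chk3 f_pp_123 t 257 39 1 = true := ex3_a k40_pp_123 k41_pp_123

theorem s66_pp_123 : ∃ t, chk3 f_pp_123 t 128 39 1 = true := ex3_a k39_pp_123 s65_pp_123

theorem s67_pp_123 : ∃ t, chk3 f_pp_123 t 64 39 1 = true := ex3_a s66_pp_123 k42_pp_123

theorem s68_pp_123 : ∃ t, chk3 f_pp_123 t 1029 77 1 = true := ex3_b k35_pp_123 k36_pp_123

theorem s69_pp_123 : ∃ t, chk3 f_pp_123 t 514 77 1 = true := ex3_a k34_pp_123 s68_pp_123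

theorem s70_pp_123 : ∃ t, chk3 f_pp_123 t 257 77 1 = true := ex3_a s69_pp_123 k37_pp_123

theorem s71_pp_123 : ∃ t, chk3 f_pp_123 t 2058 153 1 = true := ex3_b k30_pp_123 k31_pp_123

theorem s72_pp_123 : ∃ t, chk3 f_pp_123 t 2058 76 1 = true := ex3_b k29_pp_123 s71_pp_123

theorem s73_pp_123 : ∃ t, chk3 f_pp_123 t 1029 76 1 = true := ex3_a s72_pp_123 k32_pp_123

theorem s74_pp_123 : ∃ t, chk3 f_pp_123 t 514 76 1 = true := ex3_a k28_pp_123 s73_pp_123

theorem s75_pp_123 : ∃ t, chk3 f_pp_123 t 257 76 1 = true := ex3_a s74_pp_123 k33_pp_123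

theorem s76_pp_123 : ∃ t, chk3 f_pp_123 t 257 38 1 = true := ex3_b s75_pp_123 s70_pp_123

theorem s77_pp_123 : ∃ t, chk3 f_pp_123 t 128 38 1 = true := ex3_a k27_pp_123 s76_pp_123

theorem s78_pp_123 : ∃ t, chk3 f_pp_123 t 64 38 1 = true := ex3_a s77_pp_123 k38_pp_123

theorem s79_pp_123 : ∃ t, chk3 f_pp_123 t 64 19 1 = true := ex3_b s78_pp_123 s67_pp_123

theorem s80_pp_123 : ∃ t, chk3 f_pp_123 t 32 19 1 = true := ex3_a s79_pp_123 k43_pp_123

theorem s81_pp_123 : ∃ t, chk3 f_pp_123 t 16 19 1 = true := ex3_a s80_pp_123 k44_pp_123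

theorem s82_pp_123 : ∃ t, chk3 f_pp_123 t 8 19 1 = true := ex3_a s81_pp_123 k45_pp_123

theorem s83_pp_123 : ∃ t, chk3 f_pp_123 t 4 19 1 = true := ex3_a s82_pp_123 k46_pp_123

theorem s84_pp_123 : ∃ t, chk3 f_pp_123 t 257 37 1 = true := ex3_b k20_pp_123 k21_pp_123

theorem s85_pp_123 : ∃ t, chk3 f_pp_123 t 128 37 1 = true := ex3_a k19_pp_123 s84_pp_123

theorem s86_pp_123 : ∃ t, chk3 f_pp_123 t 128 18 1 = true := ex3_b k18_pp_123 s85_pp_123

theorem s87_pp_123 : ∃ t, chk3 f_pp_123 t 64 18 1 = true := ex3_a s86_pp_123 k22_pp_123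

theorem s88_pp_123 : ∃ t, chk3 f_pp_123 t 32 18 1 = true := ex3_a s87_pp_123 k23_pp_123

theorem s89_pp_123 : ∃ t, chk3 f_pp_123 t 16 18 1 = true := ex3_a s88_pp_123 k24_pp_123

theorem s90_pp_123 : ∃ t, chk3 f_pp_123 t 8 18 1 = true := ex3_a s89_pp_123 k25_pp_123

theorem s91_pp_123 : ∃ t, chk3 f_pp_123 t 4 18 1 = true := ex3_a s90_pp_123 k26_pp_123

theorem s92_pp_123 : ∃ t, chk3 f_pp_123 t 4 9 1 = true := ex3_b s91_pp_123 s83_pp_123

theorem s93_pp_123 : ∃ t, chk3 f_pp_123 t 2 9 1 = true := ex3_a s92_pp_123 k47_pp_123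

theorem s94_pp_123 : ∃ t, chk3 f_pp_123 t 128 35 1 = true := ex3_a k10_pp_123 k11_pp_123

theorem s95_pp_123 : ∃ t, chk3 f_pp_123 t 128 17 1 = true := ex3_b k9_pp_123 s94_pp_123

theorem s96_pp_123 : ∃ t, chk3 f_pp_123 t 64 17 1 = true := ex3_a s95_pp_123 k12_pp_123

theorem s97_pp_123 : ∃ t, chk3 f_pp_123 t 512 67 1 = true := ex3_a k4_pp_123 k5_pp_123

theorem s98_pp_123 : ∃ t, chk3 f_pp_123 t 256 67 1 = true := ex3_a s97_pp_123 k6_pp_123

theorem s99_pp_123 : ∃ t, chk3 f_pp_123 t 512 66 1 = true := ex3_b k1_pp_123 k2_pp_123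

theorem s100_pp_123 : ∃ t, chk3 f_pp_123 t 256 66 1 = true := ex3_a s99_pp_123 k3_pp_123

theorem s101_pp_123 : ∃ t, chk3 f_pp_123 t 256 33 1 = true := ex3_b s100_pp_123 s98_pp_123

theorem s102_pp_123 : ∃ t, chk3 f_pp_123 t 128 33 1 = true := ex3_a s101_pp_123 k7_pp_123

theorem s103_pp_123 : ∃ t, chk3 f_pp_123 t 128 16 1 = true := ex3_b k0_pp_123 s102_pp_123

theorem s104_pp_123 : ∃ t, chk3 f_pp_123 t 64 16 1 = true := ex3_a s103_pp_123 k8_pp_123

theorem s105_pp_123 : ∃ t, chk3 f_pp_123 t 64 8 1 = true := ex3_b s104_pp_123 s96_pp_123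

theorem s106_pp_123 : ∃ t, chk3 f_pp_123 t 32 8 1 = true := ex3_a s105_pp_123 k13_pp_123

theorem s107_pp_123 : ∃ t, chk3 f_pp_123 t 16 8 1 = true := ex3_a s106_pp_123 k14_pp_123

theorem s108_pp_123 : ∃ t, chk3 f_pp_123 t 8 8 1 = true := ex3_a s107_pp_123 k15_pp_123

theorem s109_pp_123 : ∃ t, chk3 f_pp_123 t 4 8 1 = true := ex3_a s108_pp_123 k16_pp_123

theorem s110_pp_123 : ∃ t, chk3 f_pp_123 t 2 8 1 = true := ex3_a s109_pp_123 k17_pp_123

theorem s111_pp_123 : ∃ t, chk3 f_pp_123 t 2 4 1 = true := ex3_b s110_pp_123 s93_pp_123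

theorem s112_pp_123 : ∃ t, chk3 f_pp_123 t 1 4 1 = true := ex3_a s111_pp_123 k48_pp_123

theorem s113_pp_123 : ∃ t, chk3 f_pp_123 t 1 2 1 = true := ex3_b s112_pp_123 s64_pp_123

theorem s114_pp_123 : ∃ t, chk3 f_pp_123 t 1 1 1 = true := ex3_b s113_pp_123 s58_pp_123

theorem c_pp_123 : CertB 536870912 536870912 0 1230186008 1040187392 5207648 3 eng mog cd0q1 cd3q3 pd2 false true true .npn 1 2 3
    ndB0q1 ndB3q3 pcB2 cut_pp_123 xt_pp_123 :=
  certB2 (fam := false) (s1 := true) (s2 := true) (a := 1) (b := 2) (c := 3) (cn := .npn) (n1 := ndB0q1) (n2 := ndB3q3) (pc := pcB2) (cut := cut_pp_123) (xt := xt_pp_123) (P1 := 536870912) (W1 := 536870912) (P2 := 0) (W2 := 1230186008) (P3 := 1040187392) (W3 := 5207648) (N0 := 3) (En := eng) (mo := mog) (C1 := cd0q1) (C2 := cd3q3) (C3 := pd2)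
    rfl (fun _ => rfl) s114_pp_123

noncomputable def f_pp_133 : ℕ → ℕ → ℕ → ℕ → Bool := onCell 536870912 536870912 0 1230186008 1040187392 5207648
    (rowB 3 eng mog cd0q1 cd3q3 pd3 0 false true true .dn 1 3 3 (qsf 536870912 536870912 0 1230186008 3) ndB0q1 ndB3q3 pcB3 Cut.none Ext.none)

def k0_pp_133 : ∃ t, chk3 f_pp_133 t 1 1 1 = true :=
  ⟨(b (b (a (b (a (l 16502192) (l 1)) (l 1)) (l 1)) (l 1)) (l 1)), by decide +kernel⟩

theorem c_pp_133 : CertB 536870912 536870912 0 1230186008 1040187392 5207648 3 eng mog cd0q1 cd3q3 pd3 false true true .dn 1 3 3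
    ndB0q1 ndB3q3 pcB3 Cut.none Ext.none :=
  certB0 (fam := false) (s1 := true) (s2 := true) (a := 1) (b := 3) (c := 3) (cn := .dn) (n1 := ndB0q1) (n2 := ndB3q3) (pc := pcB3) (cut := Cut.none) (xt := Ext.none) (P1 := 536870912) (W1 := 536870912) (P2 := 0) (W2 := 1230186008) (P3 := 1040187392) (W3 := 5207648) (N0 := 3) (En := eng) (mo := mog) (C1 := cd0q1) (C2 := cd3q3) (C3 := pd3)
    rfl k0_pp_133

noncomputable def f_pp_202 : ℕ → ℕ → ℕ → ℕ → Bool := onCell 0 536870912 1073741824 536870912 1040187392 5207648
    (rowB 3 eng mog cd0q2 cd3q2 pd0 0 false true true .pp 2 0 2 (qsf 0 536870912 1073741824 536870912 0) ndB0q2 ndB3q2 pcB0 Cut.none Ext.none)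

def k0_pp_202 : ∃ t, chk3 f_pp_202 t 1 1 1 = true :=
  ⟨(l 3), by decide +kernel⟩

theorem c_pp_202 : CertB 0 536870912 1073741824 536870912 1040187392 5207648 3 eng mog cd0q2 cd3q2 pd0 false true true .pp 2 0 2
    ndB0q2 ndB3q2 pcB0 Cut.none Ext.none :=
  certB0 (fam := false) (s1 := true) (s2 := true) (a := 2) (b := 0) (c := 2) (cn := .pp) (n1 := ndB0q2) (n2 := ndB3q2) (pc := pcB0) (cut := Cut.none) (xt := Ext.none) (P1 := 0) (W1 := 536870912) (P2 := 1073741824) (W2 := 536870912) (P3 := 1040187392) (W3 := 5207648) (N0 := 3) (En := eng) (mo := mog) (C1 := cd0q2) (C2 := cd3q2) (C3 := pd0)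
    rfl k0_pp_202

noncomputable def f_pp_203 : ℕ → ℕ → ℕ → ℕ → Bool := onCell 0 536870912 0 1230186008 1040187392 5207648
    (rowB 3 eng mog cd0q2 cd3q3 pd0 0 false true true .up 2 0 3 (qsf 0 536870912 0 1230186008 0) ndB0q2 ndB3q3 pcB0 Cut.none Ext.none)

def k0_pp_203 : ∃ t, chk3 f_pp_203 t 1 1 1 = true :=
  ⟨(b (l 2) (l 3)), by decide +kernel⟩

theorem c_pp_203 : CertB 0 536870912 0 1230186008 1040187392 5207648 3 eng mog cd0q2 cd3q3 pd0 false true true .up 2 0 3
    ndB0q2 ndB3q3 pcB0 Cut.none Ext.none :=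
  certB0 (fam := false) (s1 := true) (s2 := true) (a := 2) (b := 0) (c := 3) (cn := .up) (n1 := ndB0q2) (n2 := ndB3q3) (pc := pcB0) (cut := Cut.none) (xt := Ext.none) (P1 := 0) (W1 := 536870912) (P2 := 0) (W2 := 1230186008) (P3 := 1040187392) (W3 := 5207648) (N0 := 3) (En := eng) (mo := mog) (C1 := cd0q2) (C2 := cd3q3) (C3 := pd0)
    rfl k0_pp_203

noncomputable def cut_pp_213 : Cut := Cut.of [[⟨0, 1, 0, 15728640⟩, ⟨1, 1, 0, 15728640⟩, ⟨2, 2, 0, 524288⟩]]

noncomputable def f_pp_213 : ℕ → ℕ → ℕ → ℕ → Bool := onCell 0 536870912 0 1230186008 1040187392 5207648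
    (rowB 3 eng mog cd0q2 cd3q3 pd1 0 false true true .pnn 2 1 3 (qsf 0 536870912 0 1230186008 1) ndB0q2 ndB3q3 pcB1 cut_pp_213 Ext.none)

def k0_pp_213 : ∃ t, chk3 f_pp_213 t 1 1 1 = true :=
  ⟨(b (b (a (l 3) (b (a (l 3) (a (l 3) (a (l 3) (a (l 3) (b (b (b (l 6) (l 3)) (l 3)) (l 3)))))) (l 3))) (l 3)) (l 3)), by decide +kernel⟩

theorem c_pp_213 : CertB 0 536870912 0 1230186008 1040187392 5207648 3 eng mog cd0q2 cd3q3 pd1 false true true .pnn 2 1 3
    ndB0q2 ndB3q3 pcB1 cut_pp_213 Ext.none :=
  certB0 (fam := false) (s1 := true) (s2 := true) (a := 2) (b := 1) (c := 3) (cn := .pnn) (n1 := ndB0q2) (n2 := ndB3q3) (pc := pcB1) (cut := cut_pp_213) (xt := Ext.none) (P1 := 0) (W1 := 536870912) (P2 := 0) (W2 := 1230186008) (P3 := 1040187392) (W3 := 5207648) (N0 := 3) (En := eng) (mo := mog) (C1 := cd0q2) (C2 := cd3q3) (C3 := pd1)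
    rfl k0_pp_213

noncomputable def f_pm_001 : ℕ → ℕ → ℕ → ℕ → Bool := onCell 0 536870912 536870912 536870912 1040187392 5207648
    (rowB 3 eng mog cd0q0 cd3q1 pd0 0 false true false .up 0 0 1 (qsf 0 536870912 536870912 536870912 0) ndB0q0 ndB3q1 pcB0 Cut.none Ext.none)

def k0_pm_001 : ∃ t, chk3 f_pm_001 t 1 1 1 = true :=
  ⟨(l 4), by decide +kernel⟩

theorem c_pm_001 : CertB 0 536870912 536870912 536870912 1040187392 5207648 3 eng mog cd0q0 cd3q1 pd0 false true false .up 0 0 1
    ndB0q0 ndB3q1 pcB0 Cut.none Ext.none :=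
  certB0 (fam := false) (s1 := true) (s2 := false) (a := 0) (b := 0) (c := 1) (cn := .up) (n1 := ndB0q0) (n2 := ndB3q1) (pc := pcB0) (cut := Cut.none) (xt := Ext.none) (P1 := 0) (W1 := 536870912) (P2 := 536870912) (W2 := 536870912) (P3 := 1040187392) (W3 := 5207648) (N0 := 3) (En := eng) (mo := mog) (C1 := cd0q0) (C2 := cd3q1) (C3 := pd0)
    rfl k0_pm_001

noncomputable def f_pm_011 : ℕ → ℕ → ℕ → ℕ → Bool := onCell 0 536870912 536870912 536870912 1040187392 5207648
    (rowB 3 eng mog cd0q0 cd3q1 pd1 0 false true false .pnn 0 1 1 (qsf 0 536870912 536870912 536870912 1) ndB0q0 ndB3q1 pcB1 Cut.none Ext.none)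

def k0_pm_011 : ∃ t, chk3 f_pm_011 t 1 1 1 = true :=
  ⟨(l 4), by decide +kernel⟩

theorem c_pm_011 : CertB 0 536870912 536870912 536870912 1040187392 5207648 3 eng mog cd0q0 cd3q1 pd1 false true false .pnn 0 1 1
    ndB0q0 ndB3q1 pcB1 Cut.none Ext.none :=
  certB0 (fam := false) (s1 := true) (s2 := false) (a := 0) (b := 1) (c := 1) (cn := .pnn) (n1 := ndB0q0) (n2 := ndB3q1) (pc := pcB1) (cut := Cut.none) (xt := Ext.none) (P1 := 0) (W1 := 536870912) (P2 := 536870912) (W2 := 536870912) (P3 := 1040187392) (W3 := 5207648) (N0 := 3) (En := eng) (mo := mog) (C1 := cd0q0) (C2 := cd3q1) (C3 := pd1)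
    rfl k0_pm_011

noncomputable def f_pm_012 : ℕ → ℕ → ℕ → ℕ → Bool := onCell 536870912 536870912 1073741824 536870912 1040187392 5207648
    (rowB 3 eng mog cd0q0 cd3q2 pd1 2 false true false .pnp 0 1 2 (qsf 0 536870912 1073741824 536870912 1) ndB0q0 ndB3q2 pcB1 Cut.none Ext.none)

def k0_pm_012 : ∃ t, chk3 f_pm_012 t 2 1 1 = true :=
  ⟨(b (a (b (b (a (b (a (l 15892488) (l 15942200)) (a (l 15736376) (l 15780408))) (b (a (l 15992104) (l 16042576)) (a (l 15827624) (l 15874608)))) (a (b (a (l 2) (l 15662560)) (l 2)) (b (a (l 15696312) (l 15729120)) (l 15624712)))) (a (l 2) (b (b (l 15548584) (l 2)) (l 2)))) (b (b (a (b (a (l 16094000) (l 16146752)) (a (l 15922552) (l 15971816))) (b (a (l 16201208) (l 16257736)) (a (l 16022784) (l 16075816)))) (a (b (a (l 15762736) (l 15799424)) (l 15677648)) (b (a (l 15841400) (l 15891352)) (a (l 15713800) (l 15739872))))) (a (b (b (l 15600880) (l 15532480)) (a (l 2) (l 15457144))) (b (b (l 15641784) (l 15570816)) (a (l 15475800) (l 15490080)))))) (a (l 2) (b (a (l 2) (b (a (l 2) (l 15406736))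 (l 2))) (l 2)))), by decide +kernel⟩

def k1_pm_012 : ∃ t, chk3 f_pm_012 t 6 2 1 = true :=
  ⟨(b (a (b (b (a (l 16295728) (l 16294600)) (a (l 16131304) (l 16189600))) (b (a (l 15943352) (l 15998168)) (a (l 15769896) (l 15765832)))) (b (b (a (b (l 16470720) (l 16396128)) (b (a (l 16543408) (l 16558096)) (l 16442832))) (a (l 16167208) (b (l 16365888) (l 16267344)))) (a (b (l 16056168) (l 15856792)) (b (l 16033840) (l 15916536))))) (b (a (b (a (l 15666160) (l 15683776)) (l 15598008)) (b (a (l 15704248) (b (l 15765168) (l 15691952))) (l 15618008))) (a (a (l 15500472) (l 15507464)) (a (l 15511584) (l 15513368))))), by decide +kernel⟩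

def k2_pm_012 : ∃ t, chk3 f_pm_012 t 7 2 1 = true :=
  ⟨(b (a (b (a (b (a (b (l 16575584) (l 16517136)) (b (a (l 16643096) (l 16631648)) (b (l 16580056) (l 16529184)))) (a (l 16346616) (l 16340208))) (b (a (b (b (l 16649232) (l 16633208)) (a (l 16550728) (l 16572176))) (b (a (b (l 16666392) (l 16630000)) (b (l 16641256) (l 16626368))) (a (l 16573880) (l 16571720)))) (a (b (a (l 16480032) (l 16487840)) (l 16387832)) (b (a (l 16491416) (l 16492424)) (a (l 16401672) (l 16406936)))))) (a (b (a (l 16166544) (l 16200336)) (l 15810744)) (a (b (b (l 16287664) (l 16184168)) (l 16027912)) (b (a (l 16238728) (l 16182488)) (l 15961576))))) (a (b (a (a (b (l 4) (b (l 16490888) (l 16408920))) (l 4)) (l 4)) (b (a (b (l 16275304) (l 16227600)) (l 4)) (a (a (l 16065896) (l 16089288)) (l 16090168)))) (l 4))) (a (b (a (b (b (l 15823648) (l 15724096)) (l 15635544)) (b (a (l 15817616) (l 15850144)) (a (l 15644440) (l 15657504)))) (a (l 15513392) (b (l 15549160) (l 15474032)))) (b (a (b (a (l 15804184) (a (l 15907960) (b (l 15959224) (l 15868016))))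 (a (l 15634120) (b (l 15755608) (l 15648168)))) (a (b (b (l 15951520) (a (a (l 15869256) (l 15867736)) (l 15863704))) (a (b (a (l 15777424) (l 15779712)) (l 15671008)) (b (l 15767016) (l 15688256)))) (b (l 4) (l 102774832199)))) (b (a (a (l 15550072) (b (l 15577576) (l 15528136))) (a (b (a (l 15580560) (l 15593104)) (l 15528416)) (a (l 15526728) (l 15566416)))) (a (l 15468912) (l 15463608)))))), by decide +kernel⟩

def k3_pm_012 : ∃ t, chk3 f_pm_012 t 3 3 1 = true :=
  ⟨(a (b (a (b (a (l 15415328) (l 15418664)) (a (l 2) (l 15376472))) (b (a (l 15417272) (l 15411696)) (a (l 15372240) (l 15361864)))) (a (l 2) (b (a (l 2) (l 15364800)) (l 2)))) (b (a (b (a (l 15402496) (l 15390280)) (a (l 15345912) (l 15324968))) (b (a (l 15375712) (l 15254656)) (a (l 15299664) (l 15270672)))) (a (b (a (l 15344520) (l 15317168)) (a (l 2) (l 15368392))) (b (a (l 15283312) (l 15243576)) (a (l 15328088) (l 15279552)))))), by decide +kernel⟩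

theorem s4_pm_012 : ∃ t, chk3 f_pm_012 t 3 2 1 = true := ex3_a k1_pm_012 k2_pm_012

theorem s5_pm_012 : ∃ t, chk3 f_pm_012 t 3 1 1 = true := ex3_b s4_pm_012 k3_pm_012

theorem s6_pm_012 : ∃ t, chk3 f_pm_012 t 1 1 1 = true := ex3_a k0_pm_012 s5_pm_012

theorem c_pm_012 : CertB 0 536870912 1073741824 536870912 1040187392 5207648 3 eng mog cd0q0 cd3q2 pd1 false true false .pnp 0 1 2
    ndB0q0 ndB3q2 pcB1 Cut.none Ext.none :=
  certB2 (fam := false) (s1 := true) (s2 := false) (a := 0) (b := 1) (c := 2) (cn := .pnp) (n1 := ndB0q0) (n2 := ndB3q2) (pc := pcB1) (cut := Cut.none) (xt := Ext.none) (P1 := 0) (W1 := 536870912) (P2 := 1073741824) (W2 := 536870912) (P3 := 1040187392) (W3 := 5207648) (N0 := 3) (En := eng) (mo := mog) (C1 := cd0q0) (C2 := cd3q2) (C3 := pd1)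
    rfl (fun _ => rfl) s6_pm_012

noncomputable def f_pm_022 : ℕ → ℕ → ℕ → ℕ → Bool := onCell 0 536870912 1073741824 536870912 1040187392 5207648
    (rowB 3 eng mog cd0q0 cd3q2 pd2 1 false true false .pp 0 2 2 (qsf 0 536870912 1073741824 536870912 2) ndB0q0 ndB3q2 pcB2 Cut.none Ext.none)

def k0_pm_022 : ∃ t, chk3 f_pm_022 t 1 1 1 = true :=
  ⟨(b (a (b (a (l 4) (a (l 4) (b (b (a (l 85057797735) (l 15470144)) (a (l 4) (l 15558856))) (b (l 4) (l 4))))) (l 4)) (b (b (a (a (b (a (l 15362592) (l 15269000)) (a (l 15428672) (l 15314280))) (b (l 15151944) (l 15159632))) (a (b (l 15013984) (l 14982864)) (b (a (l 14976664) (l 14953880)) (l 14694128)))) (a (b (a (l 15296336) (l 15182904)) (a (b (l 15475808) (l 15486656)) (l 15163072))) (a (b (l 14944688) (l 14847680)) (b (l 14729040) (l 2))))) (a (b (a (b (a (l 4) (l 15441464)) (l 15361504)) (b (l 15183360) (l 15218184))) (a (b (l 15607216) (l 4)) (b (l 15279312) (l 2)))) (b (a (b (l 14834792) (l 2)) (l 2)) (l 2))))) (a (l 4) (a (a (a (l 4) (l 2)) (l 2)) (l 2)))), by decide +kernel⟩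

theorem c_pm_022 : CertB 0 536870912 1073741824 536870912 1040187392 5207648 3 eng mog cd0q0 cd3q2 pd2 false true false .pp 0 2 2
    ndB0q0 ndB3q2 pcB2 Cut.none Ext.none :=
  certB1 (fam := false) (s1 := true) (s2 := false) (a := 0) (b := 2) (c := 2) (cn := .pp) (n1 := ndB0q0) (n2 := ndB3q2) (pc := pcB2) (cut := Cut.none) (xt := Ext.none) (P1 := 0) (W1 := 536870912) (P2 := 1073741824) (W2 := 536870912) (P3 := 1040187392) (W3 := 5207648) (N0 := 3) (En := eng) (mo := mog) (C1 := cd0q0) (C2 := cd3q2) (C3 := pd2)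
    rfl (fun _ => rfl) k0_pm_022

noncomputable def f_pm_023 : ℕ → ℕ → ℕ → ℕ → Bool := onCell 1073741824 536870912 0 1230186008 1040187392 5207648
    (rowB 3 eng mog cd0q0 cd3q3 pd2 2 false true false .up 0 2 3 (qsf 0 536870912 0 1230186008 2) ndB0q0 ndB3q3 pcB2 Cut.none Ext.none)

def k0_pm_023 : ∃ t, chk3 f_pm_023 t 2 1 1 = true :=
  ⟨(b (l 2) (a (b (l 2) (b (l 2) (a (b (l 2) (a (b (l 2) (a (b (l 2) (l 13657632)) (b (l 13606376) (l 13574296)))) (b (a (l 13595768) (l 13514272)) (a (b (l 13538936) (l 13521832)) (l 13498336))))) (b (a (b (l 2) (a (l 13485656) (l 13446784))) (b (a (l 13399984) (l 13378688)) (a (l 13426400) (l 13424800)))) (a (b (a (l 13479056) (l 13464752)) (a (l 13489768) (l 13499568))) (b (a (l 13465936) (l 13483688)) (a (l 13521864) (l 13558536)))))))) (b (b (l 2) (a (l 2) (b (l 2) (a (l 2) (l 13139064))))) (b (a (b (a (l 2) (b (l 2) (l 13214960))) (a (b (l 2) (a (l 13325872) (l 13333704))) (b (l 13301392) (l 13393480)))) (b (a (b (l 13195720) (l 13311408)) (l 13422680)) (a (b (l 13431208) (l 13556168))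 (l 13719776)))) (a (b (a (b (a (l 13380696) (l 13406624)) (a (l 13445400) (l 13489112))) (b (l 13492728) (l 13601024))) (a (b (a (l 13522504) (l 13583608)) (l 13630032)) (b (l 13720680) (l 13854536)))) (b (a (b (l 13687672) (l 13827456)) (b (l 13957296) (l 14122224))) (a (b (l 13977640) (l 14104344)) (b (l 14241224) (l 14292672))))))))), by decide +kernel⟩

def k1_pm_023 : ∃ t, chk3 f_pm_023 t 3 1 1 = true :=
  ⟨(a (b (l 2) (b (b (a (l 2) (b (a (l 2) (l 13119744)) (a (l 13177280) (l 13532816)))) (a (b (a (l 13016176) (l 13255504)) (a (l 13341104) (l 13623096))) (b (a (l 13572344) (l 13955560)) (a (l 13974464) (l 14384456))))) (b (a (b (a (l 13674720) (l 13998168)) (a (l 14020128) (l 14345944))) (b (a (l 14382776) (l 14746616)) (a (l 14631472) (l 14823232)))) (a (b (a (b (l 14285096) (l 14390176)) (l 22241603943)) (l 4)) (l 4))))) (a (b (b (l 2) (b (b (l 2) (a (l 2) (l 13012248))) (a (b (l 2) (l 13089712)) (b (l 13120472) (l 13536440))))) (b (b (b (l 13673304) (l 13968288)) (b (a (l 14393856) (l 14871576)) (a (l 14816888)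 (l 15121728)))) (b (b (a (l 14983656) (l 4)) (l 4)) (l 4)))) (b (b (b (l 13346240) (b (l 13244616) (a (l 2) (l 13157872)))) (b (b (a (l 13070328) (l 13395968)) (a (l 13221704) (l 13734552))) (a (l 13815976) (l 14342720)))) (b (b (a (l 14632992) (b (l 15000904) (l 15350008))) (b (a (l 15240888) (l 15409944)) (l 4))) (l 4))))), by decide +kernel⟩

theorem s2_pm_023 : ∃ t, chk3 f_pm_023 t 1 1 1 = true := ex3_a k0_pm_023 k1_pm_023

theorem c_pm_023 : CertB 0 536870912 0 1230186008 1040187392 5207648 3 eng mog cd0q0 cd3q3 pd2 false true false .up 0 2 3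
    ndB0q0 ndB3q3 pcB2 Cut.none Ext.none :=
  certB2 (fam := false) (s1 := true) (s2 := false) (a := 0) (b := 2) (c := 3) (cn := .up) (n1 := ndB0q0) (n2 := ndB3q3) (pc := pcB2) (cut := Cut.none) (xt := Ext.none) (P1 := 0) (W1 := 536870912) (P2 := 0) (W2 := 1230186008) (P3 := 1040187392) (W3 := 5207648) (N0 := 3) (En := eng) (mo := mog) (C1 := cd0q0) (C2 := cd3q3) (C3 := pd2)
    rfl (fun _ => rfl) s2_pm_023

noncomputable def f_pm_033 : ℕ → ℕ → ℕ → ℕ → Bool := onCell 1610612736 536870912 0 1230186008 1040187392 5207648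
    (rowB 3 eng mog cd0q0 cd3q3 pd3 2 false true false .pnn 0 3 3 (qsf 0 536870912 0 1230186008 3) ndB0q0 ndB3q3 pcB3 Cut.none Ext.none)

def k0_pm_033 : ∃ t, chk3 f_pm_033 t 1 1 1 = true :=
  ⟨(a (b (a (b (b (a (l 16399744) (l 16179128)) (b (l 16172728) (a (l 16255232) (l 16060568)))) (b (b (a (l 16176416) (l 15995456)) (a (l 16072992) (l 15923464))) (a (l 15885784) (l 15811344)))) (a (b (b (l 16012064) (b (l 15975280) (l 15928544))) (b (b (l 15886880) (l 4)) (l 4))) (b (l 4) (l 4)))) (b (a (b (a (l 15632872) (l 4)) (l 4)) (l 4)) (l 4))) (b (l 4) (l 4))), by decide +kernel⟩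

theorem c_pm_033 : CertB 0 536870912 0 1230186008 1040187392 5207648 3 eng mog cd0q0 cd3q3 pd3 false true false .pnn 0 3 3
    ndB0q0 ndB3q3 pcB3 Cut.none Ext.none :=
  certB2 (fam := false) (s1 := true) (s2 := false) (a := 0) (b := 3) (c := 3) (cn := .pnn) (n1 := ndB0q0) (n2 := ndB3q3) (pc := pcB3) (cut := Cut.none) (xt := Ext.none) (P1 := 0) (W1 := 536870912) (P2 := 0) (W2 := 1230186008) (P3 := 1040187392) (W3 := 5207648) (N0 := 3) (En := eng) (mo := mog) (C1 := cd0q0) (C2 := cd3q3) (C3 := pd3)
    rfl (fun _ => rfl) k0_pm_033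

noncomputable def f_pm_101 : ℕ → ℕ → ℕ → ℕ → Bool := onCell 536870912 536870912 536870912 536870912 1040187392 5207648
    (rowB 3 eng mog cd0q1 cd3q1 pd0 0 false true false .npn 1 0 1 (qsf 536870912 536870912 536870912 536870912 0) ndB0q1 ndB3q1 pcB0 Cut.none Ext.none)

def k0_pm_101 : ∃ t, chk3 f_pm_101 t 1 1 1 = true :=
  ⟨(l 4), by decide +kernel⟩

theorem c_pm_101 : CertB 536870912 536870912 536870912 536870912 1040187392 5207648 3 eng mog cd0q1 cd3q1 pd0 false true false .npn 1 0 1
    ndB0q1 ndB3q1 pcB0 Cut.none Ext.none :=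
  certB0 (fam := false) (s1 := true) (s2 := false) (a := 1) (b := 0) (c := 1) (cn := .npn) (n1 := ndB0q1) (n2 := ndB3q1) (pc := pcB0) (cut := Cut.none) (xt := Ext.none) (P1 := 536870912) (W1 := 536870912) (P2 := 536870912) (W2 := 536870912) (P3 := 1040187392) (W3 := 5207648) (N0 := 3) (En := eng) (mo := mog) (C1 := cd0q1) (C2 := cd3q1) (C3 := pd0)
    rfl k0_pm_101

noncomputable def xt_pm_102 : Ext := extD3 3 ⟨4, 1, 1, 5, 33, 5, 163, 200, 81, 200, 1, 64⟩ eng cd0q1 cd3q2 pd0 false true false .npp 1 0 2 rfl ndB0q1 ndB3q2 pcB0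

noncomputable def f_pm_102 : ℕ → ℕ → ℕ → ℕ → Bool := onCell 536870912 536870912 1073741824 536870912 1040187392 5207648
    (rowB 3 eng mog cd0q1 cd3q2 pd0 0 false true false .npp 1 0 2 (qsf 536870912 536870912 1073741824 536870912 0) ndB0q1 ndB3q2 pcB0 Cut.none xt_pm_102)

def k0_pm_102 : ∃ t, chk3 f_pm_102 t 8 8 1 = true :=
  ⟨(b (a (a (b (b (a (l 13515352) (l 13498424)) (a (l 13437696) (l 13418384))) (b (a (l 2) (l 13337992)) (l 2))) (b (b (a (l 13484624) (l 13473904)) (a (l 13402248) (l 13389264))) (b (a (l 13319472) (l 13304160)) (a (l 13236280) (l 13218584))))) (a (b (b (a (l 13466264) (l 13461656)) (a (l 13379408) (l 13372656))) (b (a (l 13292032) (l 13283072)) (a (l 13204128) (l 13192904)))) (b (b (a (l 13460072) (l 13461480)) (a (l 13368984) (l 13368360))) (b (a (l 13277248) (l 13274544)) (a (l 13184872) (l 13180024)))))) (b (a (a (l 2) (b (a (l 2) (l 100488244903)) (l 2))) (a (b (a (b (l 13137752) (l 13093408)) (b (l 13124792) (l 13079272))) (a (b (l 13048928) (l 2)) (b (l 13033600) (l 12987784)))) (b (a (b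 (l 13115072) (l 13068400)) (b (l 13108576) (l 13060792))) (a (b (l 13021576) (l 12974584)) (b (l 13012832) (l 12964696)))))) (a (l 2) (b (a (a (l 2) (b (l 12941824) (l 2))) (b (a (l 12927432) (l 12916384)) (a (b (l 12891912) (a (l 2) (b (c (l 12883056) (l 12861256)) (l 12870200)))) (b (b (l 12886032) (a (l 12876832) (l 12875792))) (a (l 12873640) (l 12878272)))))) (a (l 2) (a (b (l 12876960) (l 2)) (c (l 12903784) (l 12881288)))))))), by decide +kernel⟩

def k1_pm_102 : ∃ t, chk3 f_pm_102 t 9 8 1 = true :=
  ⟨(b (a (a (b (b (a (l 13465848) (l 13473160)) (a (l 13370768) (l 13376168))) (b (a (l 13274920) (l 13278360)) (a (l 13178320) (l 13179744)))) (b (b (l 13489696) (l 13389976)) (b (a (l 13284840) (l 13294320)) (a (l 13184264) (l 13191848))))) (b (a (b (l 13521552) (l 13418416)) (l 13470024)) (a (b (l 13314256) (a (l 13202472) (l 13216112))) (c (l 13243328) (l 13246024))))) (a (b (a (b (a (l 13080968) (l 13080304)) (a (b (l 13007344) (l 12958096)) (b (l 13005088) (l 12954752)))) (b (a (l 13082808) (l 13088440)) (a (l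 12980472) (b (l 13010168) (l 12957600))))) (a (b (b (a (a (l 12910232) (l 12907112)) (b (l 12916824) (b (a (l 12898640) (l 12899104)) (a (l 12890688) (l 12897192))))) (a (b (b (a (l 12881296) (l 12884280)) (l 12883072)) (l 12887776)) (l 12900072))) (a (l 12903960) (l 12918424))) (b (b (a (b (a (l 12915944) (l 12918696)) (l 12910792)) (b (b (l 12929912) (l 12928408)) (l 12932184))) (a (l 12918560) (l 12940000))) (a (l 12935896) (l 12956344))))) (a (b (b (a (l 13097176) (l 13108984)) (b (l 13022328) (a (b (l 12977368) (b (l 12957968) (l 12951224))) (b (l 12987960) (l 12977008))))) (b (a (l 12959368) (l 12986928)) (a (l 12979736) (l 13006040)))) (b (b (a (l 13123840) (l 13141712)) (b (a (l 13041344) (l 13059216)) (a (b (l 13008088) (l 13007144)) (l 13039472)))) (b (a (l 13017336) (l 13050544)) (a (l 13035208) (l 13067200))))))), by decide +kernel⟩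

def k2_pm_102 : ∃ t, chk3 f_pm_102 t 4 9 1 = true :=
  ⟨(a (b (a (l 2) (b (a (l 2) (b (a (l 2) (l 12921320)) (l 2))) (l 2))) (l 2)) (b (b (a (a (b (a (l 12931344) (l 12944432)) (a (l 12960376) (l 12972096))) (b (a (l 12960560) (l 12979696)) (a (l 12986880) (l 13004696)))) (a (b (a (l 13001800) (l 13026840)) (a (l 13025520) (l 13049296))) (b (a (l 13054776) (l 13085568)) (a (l 13076008) (l 13105600))))) (a (a (b (a (l 2) (l 13001376)) (l 2)) (b (a (l 13014816) (l 13031312)) (a (l 13044320) (l 13059512)))) (a (b (a (l 13050848) (l 13073368)) (a (l 13077752) (l 13099024))) (a (b (l 13098848) (l 13123272)) (l 13138544))))) (a (a (l 2) (b (b (l 32305588279) (l 2)) (l 2))) (a (b (a (l 13120880) (l 13140256)) (a (l 2) (l 13200568))) (b (a (l 13162664) (l 13188072)) (a (l 13220512) (l 13243528))))))), by decide +kernel⟩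

def k3_pm_102 : ∃ t, chk3 f_pm_102 t 5 8 1 = true :=
  ⟨(a (b (a (b (a (l 13522560) (l 13606840)) (a (l 13301680) (l 13359536))) (b (a (l 13680640) (l 13785568)) (a (l 13449400) (l 13529040)))) (a (a (b (b (a (l 13162568) (l 13186368)) (b (a (b (l 13091632) (l 13074280)) (b (l 13118088) (l 13111344))) (l 13095560))) (b (l 13105448) (l 13120344))) (b (b (b (l 13256624) (a (l 13184000) (l 13216016))) (a (b (l 13153936) (l 13157952)) (l 13200344))) (b (l 13188192) (l 13200824)))) (b (b (a (b (l 13322208) (a (l 13254064) (l 13297984))) (b (a (l 13378912) (l 13422768)) (l 13375296))) (a (l 13272752) (l 13378152))) (a (b (l 13281400) (l 13291872)) (b (l 13384696) (l 13393120)))))) (b (a (b (a (l 13879360) (l 13982640)) (a (l 13640088) (a (l 13692320) (l 13767320)))) (b (a (l 14095024) (l 14279024)) (b (a (l 13911856) (l 14031664)) (a (b (l 13818520) (a (l 13733680) (l 13796528))) (b (l 13980376) (a (l 13863912) (l 13935976))))))) (a (b (b (b (a (a (l 13471824) (l 13526048)) (l 13617864)) (l 13510936)) (a (l 13493144) (l 13617328)))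 (b (l 13494632) (a (l 13504160) (l 13624576)))) (b (b (a (l 13751576) (l 13894560)) (a (l 13750232) (l 13891376))) (b (a (l 13751040) (l 13890440)) (a (l 13753904) (l 13891648))))))), by decide +kernel⟩

def k4_pm_102 : ∃ t, chk3 f_pm_102 t 5 9 1 = true :=
  ⟨(a (a (a (b (b (a (l 13128264) (l 13164080)) (a (l 13169232) (l 13202776))) (b (a (l 13216440) (l 13247728)) (a (l 13269568) (l 13298600)))) (b (b (a (l 13202648) (l 13243920)) (a (l 13239136) (l 13278264))) (b (a (l 13281896) (l 13318896)) (a (l 13330576) (l 13365456))))) (a (b (b (a (l 13287856) (l 13334408)) (a (l 13320112) (l 13364632))) (b (a (l 13358688) (l 13401224)) (a (l 13403200) (l 13443768)))) (b (b (a (l 13383528) (l 13435160)) (a (l 13411792) (l 13461528))) (b (a (l 13446456) (l 13494336)) (a (l 13487096) (l 13533152)))))) (a (b (b (b (a (l 13512480) (l 13631104)) (a (l 13522592) (l 13639456))) (b (a (l 13534416) (l 13649576)) (a (l 13547904) (l 13661392)))) (b (b (a (l 13562984) (l 13674832)) (a (l 13579616) (l 13689840))) (b (a (l 13597728) (l 13706352))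 (a (l 13617272) (l 13724320))))) (b (b (b (l 13825688) (l 13831672)) (b (l 13818520) (l 13786160))) (a (b (a (l 13771648) (l 13834304)) (a (l 13802472) (l 13863760))) (b (l 13932272) (l 13959856)))))), by decide +kernel⟩

def k5_pm_102 : ∃ t, chk3 f_pm_102 t 2 5 1 = true :=
  ⟨(a (b (a (l 2) (a (l 2) (b (a (l 2) (b (a (l 2) (l 13304600)) (l 2))) (l 2)))) (l 2)) (a (b (a (b (a (b (a (l 13328304) (l 13355064)) (a (l 2) (l 13416832))) (b (a (l 13384848) (l 13417608)) (a (l 13444400) (l 13475032)))) (a (l 2) (b (l 13522640) (l 2)))) (b (b (a (a (l 13453312) (l 13491904)) (a (l 13533344) (l 13577584))) (a (a (l 13508672) (l 13545280)) (a (l 13584824) (l 13627248)))) (a (b (l 13585752) (l 13649672)) (b (l 13660992) (l 13721032))))) (a (l 2) (b (a (l 2) (b (l 13785344) (l 2))) (l 2)))) (b (a (b (a (b (a (l 13624576) (l 13674264)) (l 13696024)) (b (a (l 13726616) (l 13781552)) (l 13797568))) (a (b (l 13748008) (l 13804520)) (b (l 13846424) (l 13899776)))) (b (a (b (l 13868536) (l 13909744)) (b (l 13993296) (l 14032096))) (a (a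 (l 13931384) (l 13988104)) (a (l 14047480) (l 14109472))))) (a (b (a (a (l 13855304) (l 13897440)) (a (l 13942632) (l 13990840))) (a (l 2) (a (l 2) (l 14139888)))) (b (a (a (l 14042016) (l 14117080)) (b (l 14176232) (l 14232184))) (a (b (l 14181384) (l 14246368)) (b (l 14291496) (l 14353824)))))))), by decide +kernel⟩

def k6_pm_102 : ∃ t, chk3 f_pm_102 t 2 3 1 = true :=
  ⟨(a (l 2) (b (a (l 2) (b (a (l 2) (b (a (l 2) (b (l 14418864) (l 2))) (l 2))) (l 2))) (l 2))), by decide +kernel⟩

def k7_pm_102 : ∃ t, chk3 f_pm_102 t 6 8 1 = true :=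
  ⟨(a (b (b (a (a (b (l 14405704) (l 14284192)) (b (l 14542944) (l 14421392))) (a (b (l 14687352) (l 14566152)) (b (l 14838392) (l 14717952)))) (a (b (a (l 14160272) (l 14297264)) (a (b (b (l 14081768) (a (l 14021504) (l 14094456))) (l 14050744)) (b (b (a (l 14185792) (l 14260968)) (l 14213696)) (l 14209872)))) (b (a (a (l 14384976) (l 14461128)) (b (l 14625608) (b (l 14559704) (l 14540280)))) (a (a (b (l 14339400) (l 14333560)) (l 14420944)) (l 14529240))))) (a (b (b (a (l 14045200) (a (l 14163000) (l 14243536))) (a (l 14040232) (l 14196232))) (b (a (l 14037632) (l 14192040)) (a (l 14037288) (l 14190224)))) (b (a (b (a (l 14325648) (l 14409264)) (a (l 14317680) (l 14400448))) (b (l 14516160) (l 14506128))) (a (b (l 14353032) (l 14349832)) (b (l 14498944) (l 14515416)))))) (b (a (b (a (b (l 14995480) (l 14876272)) (b (l 15157968) (l 15040496))) (a (b (b (l 14785160) (b (b (l 14728880) (l 14721016)) (l 14738640))) (l 14727176)) (b (b (a (l 14889120) (l 14975240)) (l 14923456)) (l 14908408)))) (b (a (b (l 15325056) (l 15209984))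 (b (l 15495696) (a (l 15340104) (l 15428512)))) (a (b (b (b (l 15138360) (l 15119664)) (l 15110240)) (l 15093016)) (b (b (a (l 15266344) (l 15360608)) (l 15299064)) (l 15279944))))) (a (b (a (b (l 14691232) (l 14679552)) (b (l 14891496) (l 14878184))) (a (b (l 14670960) (l 14665240)) (b (l 14868216) (l 14861360)))) (b (a (b (l 15074096) (l 15059120)) (b (l 15258920) (l 15242256))) (a (b (l 15047808) (l 15039888)) (b (l 15229624) (l 15220696))))))), by decide +kernel⟩

def k8_pm_102 : ∃ t, chk3 f_pm_102 t 6 9 1 = true :=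
  ⟨(a (a (b (a (b (b (l 14039080) (l 14042912)) (b (l 14048680) (l 14056312))) (b (b (l 14190656) (l 14193224)) (b (l 14197816) (l 14204336)))) (a (b (l 14070680) (l 14096040)) (b (l 14196176) (l 14240624)))) (b (a (b (l 14328056) (l 14335152)) (b (l 14491960) (l 14518216))) (a (b (l 14371056) (l 14393016)) (b (l 14531728) (l 14552560))))) (a (b (a (b (l 14682200) (l 14685984)) (b (b (l 14857408) (l 14856168)) (l 14858568))) (a (b (l 14698432) (l 14718536)) (b (l 14870336) (l 14890152)))) (b (a (b (b (l 15035104) (l 15033248)) (l 15035032)) (b (b (l 15215192) (l 15212856)) (l 15214296))) (a (b (l 15046520) (l 15066504)) (b (l 15225928) (l 15246576)))))), by decide +kernel⟩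

def k9_pm_102 : ∃ t, chk3 f_pm_102 t 6 5 1 = true :=
  ⟨(a (b (a (b (a (a (l 14089728) (l 14158528)) (b (l 14270232) (l 14305376))) (a (b (l 14205864) (l 14252064)) (b (l 14345528) (l 14390176)))) (b (a (b (l 14421296) (l 14455232)) (b (l 14579920) (l 14613096))) (a (b (l 14494248) (l 14537800)) (b (l 14651448) (l 14694384))))) (a (b (a (b (l 14302312) (l 14356216)) (b (l 14438864) (l 14491176))) (a (b (l 14413408) (l 14473528)) (b (l 14546696) (l 14605064)))) (b (a (b (l 14585400) (l 14636576)) (b (l 14741368) (l 14791920))) (a (b (l 14690920) (l 14748008)) (b (l 14845568) (l 14901888)))))) (b (a (b (a (b (l 14745424) (l 14778304)) (b (l 14917040) (l 14950120))) (a (b (l 14816480) (l 14859296)) (b (l 14988632) (l 15031872)))) (b (a (b (l 15093888) (l 15127712)) (b (l 15274992) (l 15310112))) (a (b (l 15167112) (a (l 15165960) (b (l 15245920) (l 15269472)))) (b (a (l 15304648) (b (l 15389752) (l 15393624))) (a (b (l 15331776) (l 15324976)) (l 15376960)))))) (a (b (a (b (l 14906192) (l 14956624)) (b (l 15079208) (a (l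 15090568) (b (l 15159544) (l 15159256))))) (a (b (a (l 14968168) (b (l 15039344) (l 15065224))) (a (b (l 15012224) (l 15029760)) (l 15064832))) (b (a (b (l 15112416) (l 15111720)) (l 15151864)) (l 15119240)))) (b (a (b (a (b (l 15204280) (l 15213744)) (l 15259896)) (l 15219912)) (l 15314776)) (a (l 15194320) (l 15267840)))))), by decide +kernel⟩

def k10_pm_102 : ∃ t, chk3 f_pm_102 t 14 4 1 = true :=
  ⟨(b (b (a (b (b (a (l 15667888) (l 15812680)) (a (b (l 15588640) (a (l 15490672) (l 15581888))) (b (l 15765568) (a (l 15673568) (l 15765384))))) (a (b (a (l 15448992) (l 15544416)) (l 15467984)) (b (a (l 15639664) (l 15734400)) (l 15634688)))) (b (a (b (l 15848872) (b (l 15927584) (a (l 15856416) (l 15943128)))) (b (a (l 15830448) (l 15843584)) (b (a (l 15935616) (l 15952680)) (a (l 15992224) (l 16013160))))) (a (b (a (l 15828184) (l 15920248)) (l 15799224)) (a (b (l 16008736) (l 15977760)) (b (l 16085152) (l 16066648)))))) (a (b (a (b (l 15444736) (l 15426336)) (b (l 15630104) (l 15609896))) (a (b (l 15412384) (l 15402512))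 (b (l 15594608) (l 15583832)))) (a (b (b (l 15792360) (l 15791192)) (b (l 15774488) (l 15762792))) (b (a (l 15893360) (l 15959584)) (a (l 15899312) (l 15984576)))))) (a (b (a (b (a (l 15349104) (l 15439640)) (l 15374120)) (b (a (l 15529984) (l 15619912)) (l 15533960))) (a (b (l 15407320) (l 15429152)) (b (l 15589208) (a (l 15567000) (l 15662920))))) (b (a (b (a (l 15709144) (l 15797368)) (l 15691896)) (b (a (l 15884232) (l 15969000)) (a (l 15886440) (b (l 15969872) (l 15979240))))) (a (b (a (l 15724984) (l 15820832)) (a (b (l 15745176) (l 15744728)) (b (l 15817920) (l 15803160)))) (b (a (b (l 15900352) (l 15892248)) (l 15847312)) (l 15886872)))))), by decide +kernel⟩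

def k11_pm_102 : ∃ t, chk3 f_pm_102 t 30 8 1 = true :=
  ⟨(b (b (a (b (a (l 15884360) (l 15963640)) (b (a (l 15993048) (l 16063160)) (l 16086544))) (b (a (l 16098840) (b (a (l 580670783238943176843823) (l 588142869232135668162607)) (l 580968237862961583433775))) (a (b (l 16172040) (l 16226152)) (l 139617875396345903)))) (a (b (a (l 16133576) (l 16202512)) (l 16096224)) (a (b (l 16297576) (l 16341568)) (l 140611971537764399)))) (a (b (a (l 16067528) (l 16156560)) (a (l 16069304) (l 16155784))) (b (a (l 16203336) (l 140688593617502255)) (a (l 16241744) (l 16302696))))), by decide +kernel⟩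

def k12_pm_102 : ∃ t, chk3 f_pm_102 t 31 8 1 = true :=
  ⟨(b (a (b (b (a (b (a (l 16572192) (l 16645888)) (a (l 589572493276979527837743) (l 16631272))) (b (a (b (l 16650120) (l 16657032)) (a (l 16642104) (b (l 16636376) (l 16638184)))) (a (l 16667432) (l 16632208)))) (a (b (a (l 16480792) (l 591391804552061342591023)) (l 586678084082037706156079)) (b (a (l 16679336) (l 16664296)) (a (l 16663784) (l 16671520))))) (b (a (l 16555952) (b (a (l 16645352) (l 16668208)) (l 16580648))) (l 141168668149989423))) (b (b (a (b (a (b (a (l 16645944) (l 16661224)) (l 585624602381215746715247)) (l 16675536)) (a (b (l 16636728) (l 16641016)) (b (a (l 16644512) (l 16660496)) (b (l 16641344) (l 16637664))))) (b (l 16674568) (b (l 16677384) (a (l 16671464) (l 16699832))))) (a (b (a (l 16652088) (b (l 16642264) (l 16647576))) (l 590058738850016641216111)) (b (a (b (l 16658280) (l 16649544)) (l 16681576)) (a (b (l 16648056) (l 16651112)) (b (l 16665048) (l 16657160)))))) (b (a (b (l 16640920) (a (l 16655240) (l 16655800))) (b (a (l 16655040)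 (l 16633952)) (l 16633528))) (a (a (l 141712651758796911) (l 142072260807311471)) (b (l 16648032) (a (l 16630416) (l 16638664))))))) (b (a (a (l 141270510293237807) (l 141315659103273071)) (b (a (l 16564432) (a (l 141176777241673839) (b (l 16619752) (l 16598760)))) (a (l 141528826980434031) (a (l 142247495312834671) (b (l 16574952) (l 16557904)))))) (a (a (b (l 16402248) (l 141042911267143727)) (b (l 141356409669255279) (l 16424672))) (a (b (l 141561331212828783) (l 16461136)) (b (l 16524728) (l 16493872)))))), by decide +kernel⟩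

def k13_pm_102 : ∃ t, chk3 f_pm_102 t 15 9 1 = true :=
  ⟨(a (b (a (b (a (l 16053240) (b (l 16141632) (l 16142840))) (a (b (l 16058616) (l 16045560)) (b (l 16128816) (l 16108296)))) (b (a (b (l 16230376) (l 16215888)) (b (l 16304016) (l 16280200))) (a (l 16179968) (l 16238240)))) (a (b (l 16040440) (l 15990984)) (a (l 16102104) (l 16119264)))) (b (a (b (a (l 16297936) (l 16383600)) (a (l 16288624) (l 16328968))) (b (a (l 16396288) (b (l 16465120) (l 16438016))) (a (l 16363936) (l 16399680)))) (a (a (b (l 16237312) (l 16189640)) (b (l 16278672) (l 16231968))) (a (b (l 16314944) (l 16269472)) (b (b (l 16363952) (l 16343736)) (a (l 16300624) (l 16315024))))))), by decide +kernel⟩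

def k14_pm_102 : ∃ t, chk3 f_pm_102 t 7 5 1 = true :=
  ⟨(a (b (a (b (a (b (l 15459176) (a (b (l 15440040) (l 15461224)) (b (l 15531504) (l 15521744)))) (b (a (b (l 15590240) (l 15601760)) (b (l 15672712) (l 15659264))) (l 15598768))) (a (b (a (l 15446016) (l 15500208)) (l 15443456)) (l 15549872))) (b (a (b (l 15740120) (l 15701848)) (b (l 15840608) (l 15797536))) (a (l 15643296) (l 15738256)))) (a (b (a (l 15397392) (l 15484624)) (a (l 15346848) (l 15431000))) (a (b (l 15576016) (l 15519904)) (b (l 15669624) (l 15611664))))) (a (b (a (b (b (l 15944872) (l 15901856)) (l 15842488)) (b (a (l 16010768) (l 16070888)) (a (l 15931208) (l 15992088)))) (a (b (l 15773296) (l 15714224)) (b (l 15893968) (l 15834608)))) (b (a (b (a (l 16123800) (l 16167448)) (a (l 16046064) (b (l 16109456) (l 16076848)))) (b (a (b (l 16229168) (l 16188928)) (b (l 16259296) (l 16220072))) (a (b (l 16144328) (l 16103944)) (l 16157832)))) (a (b (a (l 15978024) (l 16018304)) (a (l 15919032) (l 15950008))) (b (l 16065416) (l 15995304)))))), by decide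 +kernel⟩

def k15_pm_102 : ∃ t, chk3 f_pm_102 t 3 3 1 = true :=
  ⟨(a (b (a (b (a (b (a (b (l 14536240) (l 14601232)) (b (l 14665920) (l 14728928))) (a (l 2) (b (l 14793768) (l 2)))) (b (a (b (l 14807488) (l 14869984)) (b (a (l 14921280) (b (l 14987384) (l 14999144))) (a (b (l 14965440) (l 14954304)) (l 15002432)))) (a (b (a (l 14899360) (a (l 14945704) (l 14941080))) (a (l 2) (l 14969608))) (l 14947768)))) (a (l 2) (b (a (l 2) (l 15005688)) (l 2)))) (b (a (b (a (b (l 15041648) (l 15042040)) (l 15101144)) (a (l 15016592) (l 15088024))) (b (a (l 15163888) (l 15232896)) (a (l 15145416) (l 15209488)))) (a (b (b (l 15062320) (l 15066184)) (l 77406424183)) (b (b (l 15168560) (l 15166472)) (l 15168120))))) (a (l 2) (b (a (l 2) (b (l 15179776) (l 2))) (l 2)))) (a (b (a (b (b (a (l 15307872) (l 15388496)) (a (l 15279984) (l 15356608))) (b (l 15277080) (l 15288504))) (b (a (b (l 15474408) (l 15439032)) (b (l 15563792) (l 15525488))) (a (l 15403640) (l 15484640)))) (a (b (b (l 15288496) (l 15297592)) (l 2)) (b (a (l 15388160) (l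 15459952)) (a (l 2) (l 15468072))))) (b (a (b (a (b (l 15664648) (l 15624032)) (a (l 15729880) (b (l 15817152) (l 15764616)))) (a (b (l 15591904) (l 15570080)) (b (l 15696200) (l 15656960)))) (b (a (b (l 15867920) (l 15820392)) (b (l 15931488) (l 15873512))) (a (l 15748384) (l 15796584)))) (a (b (a (b (l 15554952) (l 15538336)) (l 15613080)) (a (l 15518384) (l 15573008))) (b (a (l 15671608) (l 15710112)) (a (l 15613264) (l 15638752))))))), by decide +kernel⟩

theorem s16_pm_102 : ∃ t, chk3 f_pm_102 t 15 8 1 = true := ex3_a k11_pm_102 k12_pm_102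

theorem s17_pm_102 : ∃ t, chk3 f_pm_102 t 15 4 1 = true := ex3_b s16_pm_102 k13_pm_102

theorem s18_pm_102 : ∃ t, chk3 f_pm_102 t 7 4 1 = true := ex3_a k10_pm_102 s17_pm_102

theorem s19_pm_102 : ∃ t, chk3 f_pm_102 t 7 2 1 = true := ex3_b s18_pm_102 k14_pm_102

theorem s20_pm_102 : ∃ t, chk3 f_pm_102 t 6 4 1 = true := ex3_b k7_pm_102 k8_pm_102

theorem s21_pm_102 : ∃ t, chk3 f_pm_102 t 6 2 1 = true := ex3_b s20_pm_102 k9_pm_102

theorem s22_pm_102 : ∃ t, chk3 f_pm_102 t 3 2 1 = true := ex3_a s21_pm_102 s19_pm_102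

theorem s23_pm_102 : ∃ t, chk3 f_pm_102 t 3 1 1 = true := ex3_b s22_pm_102 k15_pm_102

theorem s24_pm_102 : ∃ t, chk3 f_pm_102 t 5 4 1 = true := ex3_b k3_pm_102 k4_pm_102

theorem s25_pm_102 : ∃ t, chk3 f_pm_102 t 4 8 1 = true := ex3_a k0_pm_102 k1_pm_102

theorem s26_pm_102 : ∃ t, chk3 f_pm_102 t 4 4 1 = true := ex3_b s25_pm_102 k2_pm_102

theorem s27_pm_102 : ∃ t, chk3 f_pm_102 t 2 4 1 = true := ex3_a s26_pm_102 s24_pm_102

theorem s28_pm_102 : ∃ t, chk3 f_pm_102 t 2 2 1 = true := ex3_b s27_pm_102 k5_pm_102

theorem s29_pm_102 : ∃ t, chk3 f_pm_102 t 2 1 1 = true := ex3_b s28_pm_102 k6_pm_102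

theorem s30_pm_102 : ∃ t, chk3 f_pm_102 t 1 1 1 = true := ex3_a s29_pm_102 s23_pm_102

theorem c_pm_102 : CertB 536870912 536870912 1073741824 536870912 1040187392 5207648 3 eng mog cd0q1 cd3q2 pd0 false true false .npp 1 0 2
    ndB0q1 ndB3q2 pcB0 Cut.none xt_pm_102 :=
  certB0 (fam := false) (s1 := true) (s2 := false) (a := 1) (b := 0) (c := 2) (cn := .npp) (n1 := ndB0q1) (n2 := ndB3q2) (pc := pcB0) (cut := Cut.none) (xt := xt_pm_102) (P1 := 536870912) (W1 := 536870912) (P2 := 1073741824) (W2 := 536870912) (P3 := 1040187392) (W3 := 5207648) (N0 := 3) (En := eng) (mo := mog) (C1 := cd0q1) (C2 := cd3q2) (C3 := pd0)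
    rfl s30_pm_102

noncomputable def f_pm_112 : ℕ → ℕ → ℕ → ℕ → Bool := onCell 536870912 536870912 536870912 536870912 1040187392 5207648
    (rowB 3 eng mog cd0q1 cd3q2 pd1 1 false true false .dn 1 1 2 (qsf 536870912 536870912 1073741824 536870912 1) ndB0q1 ndB3q2 pcB1 Cut.none Ext.none)

def k0_pm_112 : ∃ t, chk3 f_pm_112 t 1 2 1 = true :=
  ⟨(a (a (b (a (b (a (b (l 15813032) (l 15720608)) (b (l 15682720) (l 15618560))) (a (l 15632760) (l 15548552))) (b (l 15521248) (l 15448432))) (a (b (l 15502320) (l 15437408)) (b (l 15399296) (l 15374488)))) (b (b (a (l 15375216) (b (l 15254160) (l 15247944))) (a (l 15338080) (b (l 15229408) (l 15240664)))) (a (b (a (l 15343272) (l 15317336)) (a (l 15352432) (l 15351688))) (b (a (l 15300120) (b (a (l 15277272) (b (l 15268096) (l 15287976))) (a (l 15312272) (l 15302632)))) (a (b (l 15342560) (l 15384816)) (a (b (l 15355560) (l 15400184)) (l 15403400))))))) (a (b (a (b (a (b (l 15149064) (a (l 15187392) (a (l 15219728) (b (l 15166368) (l 15195344))))) (b (a (a (b (l 15135696) (l 15155968))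 (l 15151360)) (l 15256408)) (l 15291768))) (a (b (a (b (l 15200472) (l 15217832)) (a (l 15196552) (l 15257944))) (a (a (b (l 15229880) (l 15249944)) (l 15254688)) (l 15310776))) (b (l 15364328) (l 15422896)))) (b (a (b (l 15425240) (l 15494984)) (b (l 15669784) (l 15720184))) (a (b (l 15548984) (l 15587400)) (l 15596184)))) (b (a (a (b (b (l 15324208) (l 15355248)) (l 15393472)) (b (l 15467632) (l 15498816))) (a (l 15617272) (l 15762680))) (a (a (b (l 15433552) (l 15462128)) (l 15500872)) (a (l 15605976) (l 2))))) (a (b (a (b (b (l 15936392) (l 15964456)) (l 15929984)) (b (a (l 16154824) (l 16295568)) (a (l 16134040) (a (l 16218200) (l 16252936))))) (a (b (l 15918552) (l 2)) (l 2))) (b (a (b (a (a (l 16361896) (l 16320952)) (l 16213952)) (a (l 16186592) (l 2))) (b (a (l 16050240) (l 15856272)) (l 2))) (l 2))))), by decide +kernel⟩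

def k1_pm_112 : ∃ t, chk3 f_pm_112 t 1 3 1 = true :=
  ⟨(a (a (b (a (b (l 15391696) (l 15364080)) (b (l 15352704) (a (l 15379968) (l 15409120)))) (a (b (l 15351904) (l 15307992)) (b (a (l 15406176) (l 15463584)) (a (l 15444272) (l 2))))) (b (a (b (a (l 15389392) (l 15416536)) (a (l 15452232) (l 15509768))) (b (a (a (l 15447032) (l 15396400)) (l 15449272)) (a (b (l 15521208) (l 2)) (l 2)))) (a (b (a (l 15537032) (l 2)) (l 2)) (l 2)))) (a (b (a (b (a (l 15485296) (l 2)) (l 2)) (l 2)) (l 2)) (l 2))), by decide +kernel⟩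

theorem s2_pm_112 : ∃ t, chk3 f_pm_112 t 1 1 1 = true := ex3_b k0_pm_112 k1_pm_112

theorem c_pm_112 : CertB 536870912 536870912 1073741824 536870912 1040187392 5207648 3 eng mog cd0q1 cd3q2 pd1 false true false .dn 1 1 2
    ndB0q1 ndB3q2 pcB1 Cut.none Ext.none :=
  certB1 (fam := false) (s1 := true) (s2 := false) (a := 1) (b := 1) (c := 2) (cn := .dn) (n1 := ndB0q1) (n2 := ndB3q2) (pc := pcB1) (cut := Cut.none) (xt := Ext.none) (P1 := 536870912) (W1 := 536870912) (P2 := 1073741824) (W2 := 536870912) (P3 := 1040187392) (W3 := 5207648) (N0 := 3) (En := eng) (mo := mog) (C1 := cd0q1) (C2 := cd3q2) (C3 := pd1)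
    rfl (fun _ => rfl) s2_pm_112

end Pool.Agent.Strip051.G.I9688_9736.Tab.C.BB03

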