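import Pool.Agent.Strip051.G.I9688_9736.Tab
import Pool.Agent.Strip051.PB.ExtD3

/-! # Certificates B17 (generated) -/

set_option linter.all false
set_option maxRecDepth 100000

namespace Pool.Agent.Strip051.G.I9688_9736.Tab.C.BB03

open Pool.Agent.Strip051.PB Pool.Agent.Strip051.PB.T
open Pool.Agent.Strip051.G.I9688_9736.Tab

noncomputable def cut_pm_113 : Cut := Cut.of [[⟨0, 1, 0, 15728640⟩, ⟨1, 1, 0, 15728640⟩, ⟨2, 2, 0, 524288⟩]]

noncomputable def xt_pm_113 : Ext := extD3 3 ⟨4, 1, 1, 5, 33, 5, 163, 200, 81, 200, 1, 64⟩ eng cd0q1 cd3q3 pd1 false true false .nn 1 1 3 rfl ndB0q1 ndB3q3 pcB1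

noncomputable def f_pm_113 : ℕ → ℕ → ℕ → ℕ → Bool := onCell 536870912 536870912 0 1230186008 1040187392 5207648
    (rowB 3 eng mog cd0q1 cd3q3 pd1 0 false true false .nn 1 1 3 (qsf 536870912 536870912 0 1230186008 1) ndB0q1 ndB3q3 pcB1 cut_pm_113 xt_pm_113)

def k0_pm_113 : ∃ t, chk3 f_pm_113 t 2 1 1 = true :=
  ⟨(b (l 2) (b (a (l 2) (b (l 2) (a (l 2) (b (l 2) (a (l 2) (b (l 2) (l 15001792))))))) (b (a (l 2) (a (a (b (l 2) (b (l 2) (l 14799760))) (b (b (l 2) (a (l 2) (l 15082240))) (b (a (l 14994600) (l 15006584)) (a (l 14934088) (l 15004776))))) (b (a (b (l 15063256) (l 14998048)) (b (l 14964704) (l 14981816))) (a (b (l 14992184) (l 15024000)) (b (l 15024440) (l 15076920)))))) (a (a (b (l 2) (b (a (l 2) (l 14187768)) (a (l 115522563767) (l 14229488)))) (b (a (b (l 2) (l 14368304)) (b (l 14573656) (l 14558128))) (b (a (l 14378336) (l 14604776)) (a (l 14453592) (l 14665256))))) (a (b (a (b (l 14763816) (l 14784264)) (b (l 14955744) (l 14993432))) (a (b (l 14817608) (l 14863272)) (b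 (l 15014608) (l 15047328)))) (b (a (b (l 15064896) (l 15113104)) (b (l 15137136) (l 15202528))) (a (b (l 15157720) (a (l 15176304) (l 15239272))) (b (l 15269968) (l 15335624))))))))), by decide +kernel⟩

def k1_pm_113 : ∃ t, chk3 f_pm_113 t 6 1 1 = true :=
  ⟨(b (l 2) (b (b (a (l 2) (b (a (l 2) (l 14892000)) (a (l 14912280) (l 14915064)))) (a (b (a (l 70964649975) (l 14936872)) (a (l 14957736) (l 14967488))) (b (a (l 14934648) (l 15028520)) (a (l 15058176) (l 15197624))))) (b (a (b (a (l 15008840) (l 15096600)) (a (l 15136336) (l 15265744))) (b (a (l 15230824) (l 15410928)) (a (l 15271976) (b (l 15592720) (l 15722368))))) (a (b (a (b (l 15251496) (l 15334480)) (b (l 15409088) (l 15509144))) (a (b (l 15417976) (l 15497944)) (b (l 15608208) (l 15702008)))) (b (a (b (l 15610256) (l 15726848)) (b (l 15855232) (l 15904816))) (a (b (l 15841024) (l 15948216)) (b (l 15833024) (l 15779672)))))))), by decide +kernel⟩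

def k2_pm_113 : ∃ t, chk3 f_pm_113 t 14 1 1 = true :=
  ⟨(b (b (l 2) (b (b (l 2) (a (l 2) (a (l 2) (l 15303344)))) (a (b (l 2) (l 14899376)) (b (a (l 15014784) (l 15194208)) (a (l 14992672) (a (l 15113728) (l 15192704))))))) (b (b (a (b (l 14920264) (l 15018696)) (b (a (l 15040848) (b (l 15165184) (l 15189536))) (a (l 15148440) (l 15264272)))) (a (b (l 15175432) (l 15383240)) (b (a (l 15318496) (l 15421648)) (a (l 15548392) (l 15645304))))) (b (a (b (l 15551888) (b (l 15846816) (l 15876896))) (b (a (l 15831824) (l 15932000)) (a (l 15509112) (b (l 15727040) (l 15570352))))) (b (a (b (l 15761200) (l 15652928)) (a (l 15473560) (b (l 15416040) (l 15271864)))) (a (b (l 15561568) (l 15494744)) (b (a (l 15313912) (l 15146968)) (a (l 15239504) (l 15052656)))))))), by decide +kernel⟩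

def k3_pm_113 : ∃ t, chk3 f_pm_113 t 30 1 1 = true :=
  ⟨(b (b (l 2) (b (b (a (l 2) (b (l 16217720) (l 15997048))) (a (l 15531312) (a (l 15690312) (l 15784720)))) (b (a (a (l 15328576) (l 15412696)) (a (l 15490760) (l 15721120))) (a (b (l 15309240) (l 15286784)) (a (l 15383960) (l 15434600)))))) (b (b (b (a (l 15291120) (l 15399720)) (a (l 15369456) (l 15470320))) (b (a (l 15517512) (l 15613472)) (a (l 15732864) (l 15822216)))) (b (b (a (l 15906904) (l 15894928)) (a (l 15631936) (l 15643248))) (b (a (l 15340704) (l 15381360)) (b (a (l 15133552) (l 15196040)) (a (l 15011648) (l 15084656))))))), by decide +kernel⟩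

def k4_pm_113 : ∃ t, chk3 f_pm_113 t 31 1 1 = true :=
  ⟨(b (b (b (a (l 2) (a (l 2) (b (a (l 2) (b (l 6) (a (l 2) (a (l 208406528439) (a (l 143886111682543695) (b (l 16763216) (l 16773568))))))) (a (l 143358071115628623) (a (l 143626489413304399) (a (l 143592816902013007) (b (b (l 16750600) (l 16772488)) (l 16764536)))))))) (b (a (l 2) (a (l 142485677213777999) (a (l 142957367793745999) (b (b (l 16741664) (l 16728040)) (b (l 16739072) (l 16747328)))))) (a (b (a (l 2) (l 16614376)) (l 141237112930467855)) (b (a (l 142387270999130191) (a (l 142515913957032015) (b (b (l 16738952) (l 16753872)) (a (l 16761208) (l 16738784))))) (a (l 142630812828926031) (a (l 143022582666903631) (b (a (l 16777152) (l 16755152)) (l 16718048)))))))) (b (b (a (b (a (l 16475928) (l 16607144)) (l 138691605324627983)) (b (a (l 142200491419517007) (a (l 142022851533127759) (b (l 597124131349801072320543) (l 594881408207599990890527)))) (a (l 138284442538590287) (a (l 137802169211813967) (b (l 585844230867008477356063)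 (l 16166432)))))) (a (a (l 134921516633735183) (l 134806411595104335)) (b (a (l 16179584) (a (l 134975118116241487) (b (l 16039112) (l 15931128)))) (a (l 15817472) (a (l 15808496) (l 15798672)))))) (b (a (b (a (l 15649680) (l 15673288)) (l 15567752)) (a (l 131841028177182799) (b (l 15672184) (l 15584136)))) (a (b (l 15505560) (l 15474424)) (b (l 15528264) (l 15500256)))))) (b (b (b (a (l 15472032) (a (l 15496392) (l 15508704))) (a (l 15541416) (a (l 15567648) (l 15582048)))) (b (a (l 15681680) (b (l 15672280) (l 15755752))) (a (l 15883640) (b (l 15852672) (l 15962016))))) (b (b (a (l 15891176) (l 15873648)) (a (l 15667608) (b (l 15752912) (l 15653992)))) (b (a (l 15436536) (b (l 15554592) (l 15457136))) (b (a (l 15273168) (l 15364312)) (a (l 15175144) (l 15279384))))))), by decide +kernel⟩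

theorem s5_pm_113 : ∃ t, chk3 f_pm_113 t 15 1 1 = true := ex3_a k3_pm_113 k4_pm_113

theorem s6_pm_113 : ∃ t, chk3 f_pm_113 t 7 1 1 = true := ex3_a k2_pm_113 s5_pm_113

theorem s7_pm_113 : ∃ t, chk3 f_pm_113 t 3 1 1 = true := ex3_a k1_pm_113 s6_pm_113

theorem s8_pm_113 : ∃ t, chk3 f_pm_113 t 1 1 1 = true := ex3_a k0_pm_113 s7_pm_113

theorem c_pm_113 : CertB 536870912 536870912 0 1230186008 1040187392 5207648 3 eng mog cd0q1 cd3q3 pd1 false true false .nn 1 1 3
    ndB0q1 ndB3q3 pcB1 cut_pm_113 xt_pm_113 :=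
  certB0 (fam := false) (s1 := true) (s2 := false) (a := 1) (b := 1) (c := 3) (cn := .nn) (n1 := ndB0q1) (n2 := ndB3q3) (pc := pcB1) (cut := cut_pm_113) (xt := xt_pm_113) (P1 := 536870912) (W1 := 536870912) (P2 := 0) (W2 := 1230186008) (P3 := 1040187392) (W3 := 5207648) (N0 := 3) (En := eng) (mo := mog) (C1 := cd0q1) (C2 := cd3q3) (C3 := pd1)
    rfl s8_pm_113

noncomputable def cut_pm_123 : Cut := Cut.of [[⟨0, 1, 0, 15728640⟩, ⟨1, 1, 0, 15728640⟩, ⟨2, 2, 0, 524288⟩]]

noncomputable def xt_pm_123 : Ext := extD3 3 ⟨4, 1, 1, 5, 33, 5, 163, 200, 81, 200, 1, 64⟩ eng cd0q1 cd3q3 pd2 false true false .npn 1 2 3 rfl ndB0q1 ndB3q3 pcB2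

noncomputable def f_pm_123 : ℕ → ℕ → ℕ → ℕ → Bool := onCell 1073741824 536870912 0 1230186008 1040187392 5207648
    (rowB 3 eng mog cd0q1 cd3q3 pd2 2 false true false .npn 1 2 3 (qsf 536870912 536870912 0 1230186008 2) ndB0q1 ndB3q3 pcB2 cut_pm_123 xt_pm_123)

def k0_pm_123 : ∃ t, chk3 f_pm_123 t 1 4 1 = true :=
  ⟨(a (b (a (a (a (a (b (a (a (b (l 6) (a (l 143869962581999695) (l 16775920))) (l 143641951346769999)) (b (l 16763664) (l 16763952))) (a (b (b (l 143790797737558095) (l 16774056)) (a (l 16775288) (l 16770280))) (b (a (l 16765944) (l 16760328)) (a (l 16761328) (l 16746928))))) (b (a (b (l 16753520) (l 16750936)) (l 16707144)) (a (b (l 16740160) (l 16723456)) (l 16703800)))) (a (b (l 16693760) (l 16644160)) (l 16585376))) (a (b (l 16537064) (l 16488720)) (l 16314312))) (a (l 15766728) (l 15459328))) (a (b (a (a (a (b (a (a (l 143535848429994063) (l 16757928)) (l 16734200)) (b (l 16740248) (l 16710736))) (a (l 16694112) (l 16650296))) (a (l 16579752) (l 16523776))) (a (l 16423392)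 (l 16216040))) (a (a (a (b (a (l 16716088) (l 16705752)) (a (l 16712104) (l 16477960))) (b (l 16491704) (l 16332520))) (b (a (l 16406488) (l 16359272)) (a (l 16273832) (l 16233656)))) (a (a (l 16219584) (l 16171560)) (l 15978968)))) (b (a (l 15862504) (l 15329768)) (a (a (l 15828552) (l 15583264)) (l 14971104))))) (b (a (a (l 14905328) (l 14348352)) (a (l 13819112) (l 13346256))) (a (b (a (l 14765096) (l 14201720)) (a (l 14609320) (l 14039920))) (b (a (l 13669992) (l 13244528)) (a (l 13505888) (a (l 13145200) (l 13157784))))))), by decide +kernel⟩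

def k1_pm_123 : ∃ t, chk3 f_pm_123 t 1 5 1 = true :=
  ⟨(a (b (a (a (b (a (a (b (a (l 16405096) (l 16246312)) (a (b (l 16181920) (l 16050816)) (l 16036112))) (b (l 16165216) (l 15997688))) (b (a (l 16130320) (l 16098320)) (l 15969976))) (a (a (b (l 15857816) (l 15677328)) (b (l 15836800) (l 15684632))) (l 15750088))) (b (b (a (l 16022120) (l 15863008)) (a (l 15883608) (l 15728208))) (a (l 15668640) (l 15514816)))) (b (a (b (l 15539360) (l 15407952)) (b (l 15013528) (l 14884576))) (a (a (l 15309888) (l 15070280)) (l 14673288)))) (a (a (a (b (a (b (a (l 15515400) (l 15526776)) (l 15385616)) (l 15472344)) (a (b (l 15264832) (l 15155592)) (l 15221080))) (b (a (l 15474208) (l 15451576)) (a (l 15209248) (l 15173672)))) (b (a (l 15377168) (l 15216872)) (a (l 15083088) (l 14906712)))) (a (b (a (l 15007144) (l 14763880)) (a (l 14685216) (l 14433112))) (b (l 14174208) (a (l 14161224) (l 13877944)))))) (b (a (b (a (l 14381936) (l 13816816)) (a (l 14107392) (l 13545664))) (b (a (l 13288920) (a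 (l 13070272) (l 13395800))) (a (a (l 13147496) (l 13012232)) (a (l 13221592) (l 1))))) (a (a (b (l 13794992) (l 13448368)) (b (l 13235176) (a (l 13032808) (b (l 12893144) (l 12872768))))) (a (a (b (b (l 12951136) (l 12905672)) (l 13089648)) (b (l 13120392) (l 13536248))) (a (l 13815272) (l 1)))))), by decide +kernel⟩

def k2_pm_123 : ∃ t, chk3 f_pm_123 t 1 6 1 = true :=
  ⟨(a (a (b (a (b (a (a (b (l 15054984) (l 14960696)) (l 14994264)) (a (l 14959512) (l 14904280))) (a (b (a (l 14870952) (l 14835416)) (a (l 14784440) (l 14732320))) (b (l 14746232) (l 14622272)))) (b (a (b (l 14863728) (l 14717208)) (l 14588928)) (a (b (l 14571112) (l 14425512)) (l 14266448)))) (a (b (a (b (a (l 14700240) (l 14631272)) (a (l 14617792) (l 14531944))) (b (l 14499816) (l 14378856))) (a (b (a (l 14536904) (l 14434312)) (a (l 14457680) (l 14338608))) (b (a (l 14320336) (l 14196128)) (a (l 14209896) (l 14072528))))) (b (a (b (l 14280552) (l 14136496)) (b (l 14023560) (l 13861408))) (a (b (l 13993760) (l 13852968))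 (b (l 13700096) (l 13540416)))))) (a (b (b (a (l 14349288) (l 14083376)) (a (l 14003472) (l 13719504))) (b (a (b (l 13740456) (l 13564016)) (b (l 13440704) (l 13252968))) (a (b (l 13387888) (a (l 13298600) (b (l 13176944) (l 13131776)))) (b (a (l 13151888) (b (l 13039264) (l 13002648))) (a (b (l 13063048) (l 13081568)) (l 13052456)))))) (b (b (a (l 13800960) (l 13509864)) (a (l 13423176) (l 13126096))) (b (a (b (l 13132088) (a (l 13027024) (b (l 12925744) (l 12909480)))) (b (a (l 12923960) (b (l 12840544) (l 12863184))) (a (l 12906112) (l 12966320)))) (a (b (a (l 12968800) (l 12989112)) (l 13083352)) (l 13139064)))))) (a (b (a (b (a (l 13216568) (b (l 13024056) (l 12873576))) (a (b (l 12935376) (a (l 12846384) (l 12828376))) (a (b (l 12804752) (l 12925808)) (l 12956520)))) (b (a (b (l 12844608) (l 12897680)) (l 13119696)) (a (l 13177232) (l 13532648)))) (a (b (a (l 13016168) (l 13255456)) (a (l 13341072) (l 13622984))) (b (a (l 13572192) (l 1)) (l 1)))) (a (b (b (l 104179924791) (l 1))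 (l 1)) (l 1)))), by decide +kernel⟩

def k3_pm_123 : ∃ t, chk3 f_pm_123 t 4 7 1 = true :=
  ⟨(b (a (b (a (b (a (l 14380584) (l 14245368)) (a (l 14306408) (l 14155456))) (b (a (l 14102128) (l 13951704)) (a (l 13997976) (l 13834672)))) (a (b (a (l 14236312) (l 14070096)) (a (b (l 14187368) (l 14148008)) (b (l 14005672) (l 13956664)))) (b (a (b (l 13922992) (l 13873224)) (b (l 13750192) (l 13706688))) (a (b (l 13828520) (l 13780432)) (l 13654688))))) (b (a (b (l 13694008) (a (l 13666928) (b (l 13530056) (l 13484352)))) (b (a (l 13469176) (b (l 13340656) (l 13291928))) (a (b (l 13384320) (l 13374816)) (l 13293208)))) (a (b (a (b (l 13591840) (l 13566536)) (l 13462936)) (a (l 13537304) (l 13448400))) (b (a (l 13376192) (l 13314800)) (a (l 13383976) (l 13342736)))))) (a (b (a (b (a (b (l 14089888) (l 14015672)) (b (l 13895352) (l 13838168))) (a (b (l 13945648) (l 13879096)) (b (l 13784008) (l 13733280)))) (b (a (l 13714976) (l 13595768)) (a (b (l 13655608) (l 13620248)) (l 13547984)))) (a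 (b (a (b (l 13816480) (l 13758328)) (b (l 13686432) (l 13643960))) (a (b (l 13705184) (l 13657664)) (b (l 13606408) (l 13574360)))) (b (a (b (l 13588696) (l 13561440)) (l 13514352)) (a (b (l 13538992) (l 1)) (l 1))))) (b (a (b (a (l 13506032) (l 13442272)) (a (l 13485688) (l 13446840))) (b (a (l 13400008) (l 13378728)) (a (l 13426488) (l 1)))) (a (b (a (l 13479184) (l 1)) (l 1)) (l 1))))), by decide +kernel⟩

def k4_pm_123 : ∃ t, chk3 f_pm_123 t 5 7 1 = true :=
  ⟨(b (a (b (a (b (a (b (l 13208576) (l 13210832)) (l 13154376)) (a (l 13238016) (l 13208984))) (b (l 13133024) (l 13214960))) (a (b (a (l 13278856) (l 13268360)) (a (l 13325888) (l 13333736))) (b (l 13301424) (a (l 13367432) (l 1))))) (b (a (b (l 13195720) (l 13311432)) (l 13422720)) (l 1))) (a (b (a (b (a (l 13380768) (l 1)) (l 1)) (l 1)) (l 1)) (l 1))), by decide +kernel⟩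

def k5_pm_123 : ∃ t, chk3 f_pm_123 t 3 7 1 = true :=
  ⟨(l 1), by decide +kernel⟩

theorem s6_pm_123 : ∃ t, chk3 f_pm_123 t 2 7 1 = true := ex3_a k3_pm_123 k4_pm_123

theorem s7_pm_123 : ∃ t, chk3 f_pm_123 t 1 7 1 = true := ex3_a s6_pm_123 k5_pm_123

theorem s8_pm_123 : ∃ t, chk3 f_pm_123 t 1 3 1 = true := ex3_b k2_pm_123 s7_pm_123

theorem s9_pm_123 : ∃ t, chk3 f_pm_123 t 1 2 1 = true := ex3_b k0_pm_123 k1_pm_123

theorem s10_pm_123 : ∃ t, chk3 f_pm_123 t 1 1 1 = true := ex3_b s9_pm_123 s8_pm_123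

theorem c_pm_123 : CertB 536870912 536870912 0 1230186008 1040187392 5207648 3 eng mog cd0q1 cd3q3 pd2 false true false .npn 1 2 3
    ndB0q1 ndB3q3 pcB2 cut_pm_123 xt_pm_123 :=
  certB2 (fam := false) (s1 := true) (s2 := false) (a := 1) (b := 2) (c := 3) (cn := .npn) (n1 := ndB0q1) (n2 := ndB3q3) (pc := pcB2) (cut := cut_pm_123) (xt := xt_pm_123) (P1 := 536870912) (W1 := 536870912) (P2 := 0) (W2 := 1230186008) (P3 := 1040187392) (W3 := 5207648) (N0 := 3) (En := eng) (mo := mog) (C1 := cd0q1) (C2 := cd3q3) (C3 := pd2)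
    rfl (fun _ => rfl) s10_pm_123

noncomputable def f_pm_133 : ℕ → ℕ → ℕ → ℕ → Bool := onCell 536870912 536870912 0 1230186008 1040187392 5207648
    (rowB 3 eng mog cd0q1 cd3q3 pd3 0 false true false .dn 1 3 3 (qsf 536870912 536870912 0 1230186008 3) ndB0q1 ndB3q3 pcB3 Cut.none Ext.none)

def k0_pm_133 : ∃ t, chk3 f_pm_133 t 1 1 1 = true :=
  ⟨(b (b (a (b (a (l 16555816) (l 1)) (l 1)) (l 1)) (l 1)) (l 1)), by decide +kernel⟩

theorem c_pm_133 : CertB 536870912 536870912 0 1230186008 1040187392 5207648 3 eng mog cd0q1 cd3q3 pd3 false true false .dn 1 3 3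
    ndB0q1 ndB3q3 pcB3 Cut.none Ext.none :=
  certB0 (fam := false) (s1 := true) (s2 := false) (a := 1) (b := 3) (c := 3) (cn := .dn) (n1 := ndB0q1) (n2 := ndB3q3) (pc := pcB3) (cut := Cut.none) (xt := Ext.none) (P1 := 536870912) (W1 := 536870912) (P2 := 0) (W2 := 1230186008) (P3 := 1040187392) (W3 := 5207648) (N0 := 3) (En := eng) (mo := mog) (C1 := cd0q1) (C2 := cd3q3) (C3 := pd3)
    rfl k0_pm_133

noncomputable def f_pm_202 : ℕ → ℕ → ℕ → ℕ → Bool := onCell 0 536870912 1073741824 536870912 1040187392 5207648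
    (rowB 3 eng mog cd0q2 cd3q2 pd0 0 false true false .pp 2 0 2 (qsf 0 536870912 1073741824 536870912 0) ndB0q2 ndB3q2 pcB0 Cut.none Ext.none)

def k0_pm_202 : ∃ t, chk3 f_pm_202 t 2 1 1 = true :=
  ⟨(l 3), by decide +kernel⟩

def k1_pm_202 : ∃ t, chk3 f_pm_202 t 6 2 1 = true :=
  ⟨(l 3), by decide +kernel⟩

def k2_pm_202 : ∃ t, chk3 f_pm_202 t 14 4 1 = true :=
  ⟨(l 3), by decide +kernel⟩

def k3_pm_202 : ∃ t, chk3 f_pm_202 t 60 8 1 = true :=
  ⟨(l 3), by decide +kernel⟩

def k4_pm_202 : ∃ t, chk3 f_pm_202 t 122 8 1 = true :=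
  ⟨(l 3), by decide +kernel⟩

def k5_pm_202 : ∃ t, chk3 f_pm_202 t 123 32 1 = true :=
  ⟨(l 1), by decide +kernel⟩

def k6_pm_202 : ∃ t, chk3 f_pm_202 t 123 132 1 = true :=
  ⟨(l 1), by decide +kernel⟩

def k7_pm_202 : ∃ t, chk3 f_pm_202 t 246 133 1 = true :=
  ⟨(l 3), by decide +kernel⟩

def k8_pm_202 : ∃ t, chk3 f_pm_202 t 247 266 1 = true :=
  ⟨(b (l 186327344231) (a (l 194380410071) (l 16568080))), by decide +kernel⟩

def k9_pm_202 : ∃ t, chk3 f_pm_202 t 988 1068 1 = true :=
  ⟨(a (l 1) (l 16566216)), by decide +kernel⟩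

def k10_pm_202 : ∃ t, chk3 f_pm_202 t 1976 1069 1 = true :=
  ⟨(a (a (l 3) (a (l 3) (a (l 3) (b (a (l 1) (a (l 1) (c (l 16574808) (l 16573296)))) (a (l 3) (c (b (b (l 16574856) (l 16574992)) (l 16575216)) (b (c (b (b (l 16573680) (l 16573760)) (l 16573864)) (b (b (b (l 16572896) (l 16572936)) (b (l 16572984) (l 16573024))) (l 69423710775))) (c (l 16574080) (l 58149421895))))))))) (b (c (l 16575480) (b (l 16573976) (l 16573968))) (b (a (b (a (a (b (c (l 16574920) (b (a (l 16573352) (l 16573432)) (c (l 16573800) (a (l 16573008) (l 16573072))))) (c (l 16575000) (b (a (a (l 16573416) (l 16573456)) (l 16573504)) (a (l 16573480) (l 16573560))))) (c (l 16575104) (b (b (l 16573552) (b (l 16573544) (l 16573560))) (b (l 16573592) (l 16573648))))) (b (l 16574552) (b (c (l 16575312) (c (l 16574176) (l 16573416))) (c (l 16575344) (l 16573832))))) (b (a (a (c (l 16575088) (a (l 16573536) (c (l 16574008) (l 16573248)))) (a (c (l 16575216) (l 16573704)) (l 16574520))) (c (l 16575424) (l 16573904)))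 (a (a (c (l 16575168) (l 16573656)) (c (l 16575344) (a (l 16573800) (l 16573872)))) (c (l 16575536) (l 16574024))))) (b (b (l 16575040) (a (c (l 16575632) (l 16574120)) (l 16575200))) (b (a (a (l 16574840) (l 16574976)) (l 16575200)) (a (l 16575008) (l 16575248))))) (a (b (a (a (c (l 16575272) (a (l 16573712) (l 16573808))) (c (l 16575464) (a (l 16573912) (l 16574008)))) (a (c (l 16575632) (b (l 16574080) (l 16574176))) (l 16575008))) (a (c (l 16575512) (a (l 16573904) (l 16574104))) (c (l 16575888) (a (l 16574296) (l 16574464))))) (b (c (l 16576056) (l 16574536)) (c (l 16576280) (l 16574768))))))), by decide +kernel⟩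

def k11_pm_202 : ∃ t, chk3 f_pm_202 t 1977 1069 1 = true :=
  ⟨(b (l 16566224) (b (b (l 16576688) (a (a (a (l 16575528) (l 16575848)) (l 16576344)) (l 16577336))) (a (b (a (a (l 16575648) (l 16575904)) (l 16576344)) (c (l 16576984) (l 16567272))) (l 16569136)))), by decide +kernel⟩

def k12_pm_202 : ∃ t, chk3 f_pm_202 t 989 534 1 = true :=
  ⟨(c (l 16560544) (l 16569512)), by decide +kernel⟩

def k13_pm_202 : ∃ t, chk3 f_pm_202 t 494 535 1 = true :=
  ⟨(a (a (a (a (l 3) (a (l 3) (a (l 3) (b (b (c (l 16575624) (b (l 36674586039) (l 3))) (l 3)) (l 3))))) (a (c (a (b (b (b (l 16575736) (l 16576016)) (l 16576456)) (l 83382361463)) (b (b (b (l 16576120) (l 16576408)) (l 16576840)) (l 16577696))) (a (a (b (b (b (a (l 16574072) (l 16574168)) (l 16574408)) (c (l 16575224) (l 16574472))) (b (l 16575432) (l 16576024))) (b (b (b (l 16574320) (l 16574608)) (l 16575032)) (b (l 16575608) (l 16576192)))) (b (b (b (a (l 16574512) (l 16574712)) (l 16574904)) (b (l 16575184) (l 16575472))) (b (l 16575904)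 (l 16576488))))) (b (b (a (c (b (a (l 16576400) (l 16576552)) (l 16576800)) (b (b (l 16574872) (l 16575064)) (l 16575296))) (b (l 16575984) (b (l 16576312) (l 16576504)))) (c (l 16566944) (b (l 16575776) (l 16576064)))) (c (l 16569928) (b (l 16575192) (l 16577080)))))) (b (a (a (b (a (b (l 16576216) (l 16576672)) (l 16566192)) (c (b (l 16577960) (l 16578336)) (b (l 16567936) (l 16576832)))) (b (l 16566536) (c (l 16578680) (l 16569312)))) (b (a (l 16577488) (l 16567504)) (l 16578632))) (b (a (a (l 16578040) (a (l 16578608) (l 16578928))) (l 16571672)) (a (l 16571144) (c (l 16570640) (l 16569152)))))) (b (a (b (b (l 16568816) (l 16568984)) (l 16569544)) (b (l 16581976) (l 16561152))) (a (l 16573536) (l 16583264)))), by decide +kernel⟩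

def k14_pm_202 : ∃ t, chk3 f_pm_202 t 495 267 1 = true :=
  ⟨(b (l 16568184) (a (b (a (l 16584688) (l 16587480)) (b (l 16565136) (l 16586640))) (b (l 16591760) (l 16591432)))), by decide +kernel⟩

def k15_pm_202 : ∃ t, chk3 f_pm_202 t 123 67 1 = true :=
  ⟨(a (l 3) (a (a (a (a (l 3) (b (b (b (b (c (a (l 16569512) (l 16579440)) (a (a (b (l 16576704) (l 16577296)) (a (l 16577256) (l 16577456))) (b (l 16577656) (l 16578240)))) (c (l 86603579399) (a (a (l 16578200) (l 16578528)) (l 16579112)))) (c (b (l 16573560) (l 16582608)) (a (a (l 3) (b (l 16579712) (l 16580904))) (b (l 16580288) (l 16581464))))) (b (c (l 16573936) (b (a (l 16581992) (l 16582656)) (a (l 16583216) (l 16583856)))) (a (l 3) (b (l 107004686071) (l 93582926199))))) (b (a (l 3) (b (l 63518150647) (l 16583512))) (c (l 16595656) (l 16589000))))) (a (b (b (b (b (b (l 16569096) (l 16580160)) (c (l 16581776) (l 16569808))) (b (l 16574336) (l 16583376))) (b (a (l 16576904) (l 16585544)) (l 16581000))) (b (b (l 16582120) (l 16581952))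 (b (l 16584448) (l 16586976)))) (b (b (b (b (b (l 16570640) (l 16581736)) (l 16582600)) (l 16573872)) (b (l 16586712) (l 16589104))) (b (l 16587504) (l 16587224))))) (b (b (b (a (b (b (l 16572272) (l 16573128)) (a (l 16573664) (l 16564464))) (l 16575520)) (a (b (l 16575624) (l 16587288)) (b (l 16567696) (l 16569280)))) (b (a (l 16578568) (l 16592168)) (l 16587744))) (b (b (l 16584912) (l 16587344)) (a (l 16589520) (l 16603064))))) (b (b (b (a (l 16578352) (l 16571920)) (a (l 16592480) (l 16596272))) (a (b (a (l 16573920) (l 16597048)) (l 16588464)) (l 16601576))) (b (a (l 16581792) (b (l 16606848) (l 16609944))) (b (l 16609472) (l 16611976)))))), by decide +kernel⟩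

def k16_pm_202 : ∃ t, chk3 f_pm_202 t 123 17 1 = true :=
  ⟨(a (l 3) (b (b (a (a (a (l 3) (b (b (b (l 16595528) (l 16598120)) (c (l 16607984) (l 16602712))) (b (c (l 16613336) (l 16606784)) (l 16618176)))) (b (b (l 16596096) (l 16611744)) (b (l 16617032) (l 16622432)))) (b (a (l 16604712) (l 16621264)) (b (l 16625984) (l 16631296)))) (b (a (a (l 16625576) (l 16630752)) (l 16639472)) (a (l 16639840) (l 16650800)))) (b (a (l 16636656) (l 16647160)) (l 16664472)))), by decide +kernel⟩

def k17_pm_202 : ∃ t, chk3 f_pm_202 t 31 16 1 = true :=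
  ⟨(b (a (b (l 1) (a (b (l 1) (b (l 1) (l 144988281383))) (b (b (l 1) (l 16633168)) (a (l 16650720) (l 16684096))))) (b (b (a (l 1) (l 16725872)) (b (l 16632368) (a (l 16663712) (l 16685552)))) (a (b (b (l 16675368) (l 16684720)) (l 16693928)) (b (l 16688280) (l 16646968))))) (a (b (a (b (a (b (l 16600832) (l 16605112)) (b (l 16628808) (l 16632264))) (a (b (l 16586088) (l 16585888)) (l 16612128))) (b (a (l 16660472) (l 16691592)) (a (l 16661016) (l 16671336)))) (a (b (a (b (a (b (a (l 16576416) (l 16602488)) (l 16601984)) (b (l 16611336) (l 16610504))) (a (l 16607024) (l 16614192))) (b (a (l 16622496) (l 16635416)) (a (b (l 16620800) (l 16623272)) (b (l 16632072) (l 16633928))))) (a (b (a (a (l 16612480) (l 16616032)) (b (l 16619552) (l 16623752))) (a (b (a (l 16617856) (l 16621792)) (a (l 16620984) (l 16625808))) (l 16630568))) (b (a (l 16631024) (l 16642640)) (l 16647008)))) (a (b (b (l 16657928) (l 16637456)) (b (l 16643376) (l 16673200))) (b (l 16695520) (b (l 16677744) (a (l 16673648)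 (l 16711144))))))) (b (a (b (a (l 16703136) (l 16745728)) (a (l 16707896) (l 16690232))) (b (a (l 16710864) (l 16655280)) (a (l 16698000) (l 16668992)))) (a (b (a (l 16712120) (l 16720120)) (a (l 16715448) (l 16711776))) (b (l 16679464) (l 16648336)))))), by decide +kernel⟩

def k18_pm_202 : ∃ t, chk3 f_pm_202 t 31 17 1 = true :=
  ⟨(a (b (a (b (a (b (a (b (l 16627688) (l 16632912)) (b (l 16638312) (l 16644464))) (a (l 16640536) (l 16637024))) (b (a (l 16652936) (l 16665352)) (a (l 16643496) (l 16677656)))) (a (b (l 16657016) (l 16667912)) (b (a (l 16674960) (l 16687152)) (l 16670568)))) (a (b (b (l 16664704) (l 16677568)) (b (l 16687800) (l 16696056))) (b (b (l 16694080) (l 16707272)) (l 16683064)))) (a (b (a (l 16663592) (l 16685672)) (l 16651112)) (b (a (a (l 16682808) (l 16651752)) (l 16632160)) (a (l 16665736) (l 16602224))))) (b (b (a (b (a (l 16703648) (l 16675240)) (l 16647952)) (b (a (l 16667496) (l 16639432)) (b (l 16596464) (l 16564392)))) (a (b (l 16650400) (l 16633432))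 (l 16562744))) (b (a (l 16568080) (l 16571752)) (a (l 16560520) (l 16541928))))), by decide +kernel⟩

def k19_pm_202 : ∃ t, chk3 f_pm_202 t 15 9 1 = true :=
  ⟨(a (a (l 3) (a (l 3) (a (l 3) (b (b (b (l 16664656) (l 16635840)) (b (l 16633280) (l 16616272))) (b (b (l 16603072) (l 16590272)) (l 16570016)))))) (b (a (b (a (b (l 16618872) (a (l 16640984) (l 16623136))) (b (l 16569224) (l 16573016))) (a (b (a (l 16618128) (l 16599488)) (a (l 16600296) (l 16580656))) (b (l 16568368) (l 16546768)))) (b (a (b (a (l 16590136) (l 16560928)) (a (l 16560080) (l 16535856))) (b (l 16514288) (l 16488280))) (a (b (l 16518960) (l 16496280)) (b (l 16465056) (l 16439824))))) (a (b (a (b (l 16554224) (l 16560336)) (b (l 16527064) (l 16508496))) (a (b (l 16545432) (l 16529624)) (l 16480896))) (b (a (l 16462256) (a (l 16418480) (l 16387024))) (a (l 16419712) (l 16357328)))))), by decide +kernel⟩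

def k20_pm_202 : ∃ t, chk3 f_pm_202 t 7 5 1 = true :=
  ⟨(a (l 3) (b (b (a (a (l 3) (b (a (l 3) (l 16541840)) (l 3))) (a (b (a (l 16502112) (l 16440816)) (l 16409256)) (b (l 16303448) (l 16301856)))) (a (l 3) (a (a (l 16402784) (l 16340040)) (l 16241048)))) (a (l 3) (a (b (l 16297504) (l 16229424)) (b (l 16165736) (l 16096480)))))), by decide +kernel⟩

def k21_pm_202 : ∃ t, chk3 f_pm_202 t 3 3 1 = true :=
  ⟨(a (l 3) (a (l 3) (b (a (l 3) (b (a (b (l 16166184) (l 16107344)) (l 16003136)) (a (l 198271310215) (l 15895288)))) (a (l 3) (b (a (l 215987884583) (l 15803296)) (a (l 233167603959) (l 15723624))))))), by decide +kernel⟩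

theorem s22_pm_202 : ∃ t, chk3 f_pm_202 t 31 8 1 = true := ex3_b k17_pm_202 k18_pm_202

theorem s23_pm_202 : ∃ t, chk3 f_pm_202 t 988 1069 1 = true := ex3_a k10_pm_202 k11_pm_202

theorem s24_pm_202 : ∃ t, chk3 f_pm_202 t 988 534 1 = true := ex3_b k9_pm_202 s23_pm_202

theorem s25_pm_202 : ∃ t, chk3 f_pm_202 t 494 534 1 = true := ex3_a s24_pm_202 k12_pm_202

theorem s26_pm_202 : ∃ t, chk3 f_pm_202 t 494 267 1 = true := ex3_b s25_pm_202 k13_pm_202

theorem s27_pm_202 : ∃ t, chk3 f_pm_202 t 247 267 1 = true := ex3_a s26_pm_202 k14_pm_202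

theorem s28_pm_202 : ∃ t, chk3 f_pm_202 t 247 133 1 = true := ex3_b k8_pm_202 s27_pm_202

theorem s29_pm_202 : ∃ t, chk3 f_pm_202 t 123 133 1 = true := ex3_a k7_pm_202 s28_pm_202

theorem s30_pm_202 : ∃ t, chk3 f_pm_202 t 123 66 1 = true := ex3_b k6_pm_202 s29_pm_202

theorem s31_pm_202 : ∃ t, chk3 f_pm_202 t 123 33 1 = true := ex3_b s30_pm_202 k15_pm_202

theorem s32_pm_202 : ∃ t, chk3 f_pm_202 t 123 16 1 = true := ex3_b k5_pm_202 s31_pm_202

theorem s33_pm_202 : ∃ t, chk3 f_pm_202 t 123 8 1 = true := ex3_b s32_pm_202 k16_pm_202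

theorem s34_pm_202 : ∃ t, chk3 f_pm_202 t 61 8 1 = true := ex3_a k4_pm_202 s33_pm_202

theorem s35_pm_202 : ∃ t, chk3 f_pm_202 t 30 8 1 = true := ex3_a k3_pm_202 s34_pm_202

theorem s36_pm_202 : ∃ t, chk3 f_pm_202 t 15 8 1 = true := ex3_a s35_pm_202 s22_pm_202

theorem s37_pm_202 : ∃ t, chk3 f_pm_202 t 15 4 1 = true := ex3_b s36_pm_202 k19_pm_202

theorem s38_pm_202 : ∃ t, chk3 f_pm_202 t 7 4 1 = true := ex3_a k2_pm_202 s37_pm_202

theorem s39_pm_202 : ∃ t, chk3 f_pm_202 t 7 2 1 = true := ex3_b s38_pm_202 k20_pm_202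

theorem s40_pm_202 : ∃ t, chk3 f_pm_202 t 3 2 1 = true := ex3_a k1_pm_202 s39_pm_202

theorem s41_pm_202 : ∃ t, chk3 f_pm_202 t 3 1 1 = true := ex3_b s40_pm_202 k21_pm_202

theorem s42_pm_202 : ∃ t, chk3 f_pm_202 t 1 1 1 = true := ex3_a k0_pm_202 s41_pm_202

theorem c_pm_202 : CertB 0 536870912 1073741824 536870912 1040187392 5207648 3 eng mog cd0q2 cd3q2 pd0 false true false .pp 2 0 2
    ndB0q2 ndB3q2 pcB0 Cut.none Ext.none :=
  certB0 (fam := false) (s1 := true) (s2 := false) (a := 2) (b := 0) (c := 2) (cn := .pp) (n1 := ndB0q2) (n2 := ndB3q2) (pc := pcB0) (cut := Cut.none) (xt := Ext.none) (P1 := 0) (W1 := 536870912) (P2 := 1073741824) (W2 := 536870912) (P3 := 1040187392) (W3 := 5207648) (N0 := 3) (En := eng) (mo := mog) (C1 := cd0q2) (C2 := cd3q2) (C3 := pd0)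
    rfl s42_pm_202

noncomputable def f_pm_203 : ℕ → ℕ → ℕ → ℕ → Bool := onCell 0 536870912 0 1230186008 1040187392 5207648
    (rowB 3 eng mog cd0q2 cd3q3 pd0 0 false true false .up 2 0 3 (qsf 0 536870912 0 1230186008 0) ndB0q2 ndB3q3 pcB0 Cut.none Ext.none)

def k0_pm_203 : ∃ t, chk3 f_pm_203 t 1 1 1 = true :=
  ⟨(b (l 2) (a (l 3) (b (l 2) (a (l 3) (b (l 2) (a (l 3) (b (l 2) (a (l 3) (b (l 2) (a (l 15449040) (l 15498096))))))))))), by decide +kernel⟩

theorem c_pm_203 : CertB 0 536870912 0 1230186008 1040187392 5207648 3 eng mog cd0q2 cd3q3 pd0 false true false .up 2 0 3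
    ndB0q2 ndB3q3 pcB0 Cut.none Ext.none :=
  certB0 (fam := false) (s1 := true) (s2 := false) (a := 2) (b := 0) (c := 3) (cn := .up) (n1 := ndB0q2) (n2 := ndB3q3) (pc := pcB0) (cut := Cut.none) (xt := Ext.none) (P1 := 0) (W1 := 536870912) (P2 := 0) (W2 := 1230186008) (P3 := 1040187392) (W3 := 5207648) (N0 := 3) (En := eng) (mo := mog) (C1 := cd0q2) (C2 := cd3q3) (C3 := pd0)
    rfl k0_pm_203

noncomputable def cut_pm_213 : Cut := Cut.of [[⟨0, 1, 0, 15728640⟩, ⟨1, 1, 0, 15728640⟩, ⟨2, 2, 0, 524288⟩]]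

noncomputable def xt_pm_213 : Ext := extD3 3 ⟨4, 1, 1, 5, 33, 5, 163, 200, 81, 200, 1, 64⟩ eng cd0q2 cd3q3 pd1 false true false .pnn 2 1 3 rfl ndB0q2 ndB3q3 pcB1

noncomputable def f_pm_213 : ℕ → ℕ → ℕ → ℕ → Bool := onCell 0 536870912 0 1230186008 1040187392 5207648
    (rowB 3 eng mog cd0q2 cd3q3 pd1 0 false true false .pnn 2 1 3 (qsf 0 536870912 0 1230186008 1) ndB0q2 ndB3q3 pcB1 cut_pm_213 xt_pm_213)

def k0_pm_213 : ∃ t, chk3 f_pm_213 t 2 4 1 = true :=
  ⟨(l 3), by decide +kernel⟩

def k1_pm_213 : ∃ t, chk3 f_pm_213 t 6 8 1 = true :=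
  ⟨(l 3), by decide +kernel⟩

def k2_pm_213 : ∃ t, chk3 f_pm_213 t 14 8 1 = true :=
  ⟨(l 3), by decide +kernel⟩

def k3_pm_213 : ∃ t, chk3 f_pm_213 t 30 8 1 = true :=
  ⟨(l 3), by decide +kernel⟩

def k4_pm_213 : ∃ t, chk3 f_pm_213 t 62 8 1 = true :=
  ⟨(l 3), by decide +kernel⟩

def k5_pm_213 : ∃ t, chk3 f_pm_213 t 126 8 1 = true :=
  ⟨(l 3), by decide +kernel⟩

def k6_pm_213 : ∃ t, chk3 f_pm_213 t 254 16 1 = true :=
  ⟨(l 3), by decide +kernel⟩

def k7_pm_213 : ∃ t, chk3 f_pm_213 t 255 32 1 = true :=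
  ⟨(l 6), by decide +kernel⟩

def k8_pm_213 : ∃ t, chk3 f_pm_213 t 510 33 1 = true :=
  ⟨(l 3), by decide +kernel⟩

def k9_pm_213 : ∃ t, chk3 f_pm_213 t 511 33 1 = true :=
  ⟨(a (a (l 3) (b (l 3) (b (a (l 3) (a (l 3) (a (b (l 3) (b (c (l 366313736263) (l 6811088067852941490290475103)) (c (l 168745240791) (l 163376531687)))) (b (b (l 3) (a (l 3) (b (l 2478297930354108878875836511) (l 3097267949996798741447557215)))) (c (l 3455714381437330307952830047) (l 3436371553623746576383895135)))))) (b (a (l 3) (a (a (l 3) (b (c (l 239612201287) (l 4180465484371511361067597919)) (l 3068253730326053138813485151))) (c (l 604330179711846821340767) (l 3736185128065136515503580767)))) (a (a (l 3) (a (l 3) (b (l 3) (l 4528636120420529923502440543)))) (a (c (l 3533085601610869462664767071) (l 3436371520477258335459485279)) (l 16778680))))))) (b (b (a (b (b (l 6) (a (l 3) (a (a (b (a (l 3) (a (l 3) (b (l 367924347495) (l 155860337335)))) (a (l 369534960199) (c (l 176261432007) (l 174113948359)))) (l 3436371544400372340504553055))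 (l 16777584)))) (a (a (l 3) (a (l 3) (a (b (l 3) (b (l 3) (c (l 240149070823) (l 4383565022066763221261320287)))) (b (a (l 3) (b (l 3) (l 4267508143383758614330900575))) (l 3252010454907469489102504031))))) (a (b (a (a (a (b (b (l 3) (l 217600492359)) (l 178945786727)) (l 3319710300805888379288469599)) (l 144113985485488223)) (l 16777752)) (l 16777528)) (l 16777520)))) (l 16776888)) (a (b (a (b (a (l 3) (a (a (l 3) (b (c (l 366850606119) (l 367924347943)) (l 2816797159846203535964291167))) (l 3562099812634702131479258719))) (b (a (l 3) (b (c (l 3359000277245287576781350495) (l 3339657452025777368016774751)) (l 3407357303688803231481325151))) (c (a (l 516637590871) (l 119889986999)) (a (l 519858816343) (l 3668485304936916516667991647))))) (l 16777560)) (a (a (b (a (l 3) (a (b (l 3) (c (l 217063622215) (l 215989880407))) (c (l 166597756391) (l 158544692711)))) (a (a (l 3) (b (l 3) (l 2478297930354107710644502623))) (c (l 3348724520476640578993733727) (l 3281024674578221688807571551))))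 (b (c (l 16777880) (l 16778048)) (l 16777816))) (l 16777440))) (l 16776680))) (b (a (a (a (b (c (l 3455714335896925653301356127) (b (l 3329986047774702862796629599) (l 3494399935895627426782619231))) (l 16777896)) (b (l 16777776) (l 16777864))) (l 16777408)) (l 16776576)) (b (l 16774664) (l 16772184))))), by decide +kernel⟩

def k10_pm_213 : ∃ t, chk3 f_pm_213 t 127 17 1 = true :=
  ⟨(a (l 3) (b (a (l 3) (b (a (b (a (l 3) (b (a (a (l 3) (a (b (l 3) (l 4267508143383773457740021855)) (l 3146229363833773741786687071))) (c (l 16777672) (l 16778336))) (a (a (a (l 3) (b (l 367387478887) (l 160692178039))) (l 3513742824525836331844167263)) (l 16779176)))) (a (b (l 3) (a (l 3) (a (l 3) (a (l 5564081041685911635219342943) (l 3078529571834441651602220639))))) (a (b (c (b (l 200420625639) (l 197736271367)) (l 3049515226495240020912268895)) (b (l 212231785943) (l 16777008))) (l 16774264)))) (b (l 16772440) (l 16767600))) (a (b (a (a (l 3) (a (b (c (l 372756188999) (l 6753664045880864214952846943))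 (c (l 237464719127) (l 2991486918586794980704740959))) (b (l 2981815461301329820460459615) (l 16778424)))) (b (l 16777528) (l 16769944))) (a (a (a (l 3) (b (a (l 3) (l 4316469641672240561632863839)) (b (l 155860341175) (l 181630145239)))) (b (b (l 201494368423) (l 16778688)) (l 16777608))) (l 16775640))) (l 16773640)))) (a (a (l 3) (b (a (l 3) (a (l 3) (b (b (l 3) (c (l 392620413607) (l 368461222455))) (b (a (l 3) (c (l 232632881879) (l 156934083159))) (c (l 236927849015) (b (l 231559141111) (l 167671501479))))))) (a (l 3) (b (b (a (l 3) (c (l 16779592) (l 180556403527))) (a (a (l 3) (c (l 220284851031) (l 135996117671))) (c (l 16780464) (l 16780376)))) (b (a (c (l 228337914503) (b (l 221895463431) (l 150491632311))) (l 16780624)) (c (l 186998854631) (l 185388241671))))))) (b (a (a (b (b (b (c (l 200957497831) (l 192904434055)) (l 192904434007)) (b (l 200420627015) (l 207936820007))) (b (l 16779352) (l 16775648))) (b (l 16760520) (l 16781968))) (l 16780408)) (a (b (l 16779208) (l 16771784))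 (l 16782560)))))), by decide +kernel⟩

def k11_pm_213 : ∃ t, chk3 f_pm_213 t 6 9 1 = true :=
  ⟨(l 3), by decide +kernel⟩

def k12_pm_213 : ∃ t, chk3 f_pm_213 t 14 9 1 = true :=
  ⟨(l 3), by decide +kernel⟩

def k13_pm_213 : ∃ t, chk3 f_pm_213 t 30 9 1 = true :=
  ⟨(l 3), by decide +kernel⟩

def k14_pm_213 : ∃ t, chk3 f_pm_213 t 62 9 1 = true :=
  ⟨(l 3), by decide +kernel⟩

def k15_pm_213 : ∃ t, chk3 f_pm_213 t 126 9 1 = true :=
  ⟨(l 3), by decide +kernel⟩

def k16_pm_213 : ∃ t, chk3 f_pm_213 t 254 18 1 = true :=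
  ⟨(b (l 3) (l 3)), by decide +kernel⟩

def k17_pm_213 : ∃ t, chk3 f_pm_213 t 255 36 1 = true :=
  ⟨(a (b (a (l 3) (b (a (a (l 3) (a (l 3) (b (c (l 207936820135) (l 201494368855)) (c (l 16780192) (l 155323470663))))) (b (c (l 16780776) (l 192367563895)) (b (l 16778232) (l 16780952)))) (a (b (a (l 3) (c (l 2449888123296960606508389919) (l 2633644873242657342413870623))) (a (c (l 308331678503) (l 309942288263)) (c (l 181093271431) (l 3242943538209898153771570719)))) (b (b (l 16781040) (l 16780912)) (l 16780112))))) (b (a (l 3) (a (c (b (a (l 4829053891735079475095184991) (l 16778040)) (l 3068857706126487923361097311)) (b (a (a (l 3) (l 2575616278400879783838262879)) (l 604009955775212263040607)) (l 3049514848913406717670123103))) (l 16773024))) (a (a (l 3) (b (l 3) (a (l 3) (c (l 5582819435124447943489339487) (b (l 6540288684259239197657579615) (a (l 3) (l 2323555425443413392195715167))))))) (a (c (l 2623972624044168971578730079) (b (l 3271957031107716548591986271) (l 3484727626024683771238114911)))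 (l 16775336))))) (b (b (l 16762984) (l 16773272)) (a (l 16773592) (l 16760504)))), by decide +kernel⟩

def k18_pm_213 : ∃ t, chk3 f_pm_213 t 255 37 1 = true :=
  ⟨(a (b (a (a (l 3) (a (a (l 3) (b (l 3) (b (c (l 5698876313807412761830342751) (b (l 3) (l 3706566563082495841732886623))) (c (l 2662054654935460701551345759) (b (l 2284869799215692619470176351) (l 2691068874606197370650214623)))))) (b (b (a (l 3) (c (l 144089658776961119) (l 2778111533618502348288016479))) (c (l 3010225290984479951189770335) (l 2768440127061548824843255903))) (c (l 3232667641793520660750418015) (b (b (l 3135953576224403446936141919) (l 3358395927033485044597407839)) (l 144028910745862239)))))) (a (b (c (l 603215881032426872530527) (l 603170628860003793397343)) (l 602865681084720593086047)) (l 603158811369089284023903))) (a (b (a (l 3) (b (b (a (a (l 3) (c (l 144031453362831583) (l 3087596543439784538676822239))) (c (l 144020045930709215) (l 144011524714709215))) (c (l 3203653422122757465927794911) (b (l 3029568104098246329280790751)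 (l 3087596543439741795156721887)))) (c (l 3193982015565811020584976607) (c (l 3174639202451960804712071391) (l 3164967795895049749908390111))))) (a (a (l 3) (a (l 3) (b (c (b (l 4818778317127914412832096479) (l 2323555425443300279904469215)) (b (c (l 3513138431944103084398461151) (l 3493795618830262764130255071)) (c (l 2294541205772539077947441375) (l 2255855579544864072408105183)))) (c (b (l 2681397468049217321474195679) (l 3058582323768961351734083807)) (b (c (l 2662054654935372809317908703) (l 2642711841821531664415932639)) (c (l 3039239510655116839577764063) (l 3019896697541275694675755231))))))) (b (c (l 3397081553261079442168578271) (c (l 3377738740147237060316135647) (l 3368067333590314391920672991))) (c (l 143942186746020063) (l 143930366994858207))))) (b (l 602225233128163474810463) (l 601890309377473983342303)))) (b (l 16762776) (l 16743040))), by decide +kernel⟩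

def k19_pm_213 : ∃ t, chk3 f_pm_213 t 254 38 1 = true :=
  ⟨(b (l 3) (a (l 3) (a (l 3) (b (a (l 3) (b (l 3) (a (l 3) (a (l 3) (b (c (c (l 2140401122812124828854936799) (l 2121058486095275606787253471)) (c (l 2140401286815198070218892511) (l 2053358615120802858845168863))) (c (c (l 2159141513975451570962940127) (l 2139798700861611594291790047)) (c (l 2110784481190854584223006943) (l 2101113074633931640949866719)))))))) (a (l 3) (a (l 3) (b (a (l 3) (c (b (c (l 2507312150024470683152367839) (l 2487969336910630225444929759)) (c (l 2855482786073489383025017055) (l 2845811379516565477678874847))) (b (c (l 2468626523796789767737475295) (l 2458955117239866274708373727)) (c (l 2826468566402724470215622879) (l 2816797159845800564869726431))))) (c (c (b (l 2536326369695233328215146719) (l 2729754500833579150127988959)) (b (l 2526654963138308804393959647) (l 2720083094276654145270464735))) (c (b (l 2497640743467550282496196831) (l 2691068874605895073616724191)) (b (l 2487969336910625758675107935)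 (l 2681397468048970068759101535))))))))))), by decide +kernel⟩

def k20_pm_213 : ∃ t, chk3 f_pm_213 t 255 76 1 = true :=
  ⟨(a (a (b (a (b (a (l 3) (c (b (c (l 2739425907390680557911785695) (l 2720083094276839413009760479)) (c (l 2932854038528967830827827423) (l 2903839818858210958198112479))) (c (b (l 2681397468049132521632989407) (l 2894168412301288152363843807)) (b (l 2671726061492204767996674271) (a (l 2410598084455431122361483487) (l 143859792082927839)))))) (b (a (l 3) (c (c (l 3126282169667269466115031263) (l 3106939356553430314077700319)) (c (l 3097267949996508195438199007) (b (l 3039239510655010186939891935) (l 3145624982781078931334299871))))) (a (a (l 3) (b (l 3) (c (c (l 3455109992602401391350087903) (l 3464781399159313889261568223)) (c (l 1839985097597247742970314975) (l 1801299471369575005173399775))))) (c (c (l 2237114936179797806275650783) (l 2382186016951495895219299551)) (c (l 2498242878052442883970082015) (b (l 3261681861464064709126324447) (l 3030171069651040353608869087)))))))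 (a (c (l 601455945963806021199071) (l 601788852038365642319071)) (l 601662030673752244331743))) (b (a (a (a (l 3) (c (b (c (l 2246787125282149189207958751) (l 2227444298045022636529099999)) (c (b (l 2488572731783170548332024863) (l 2701343846667727964892042271)) (b (l 2469229907140121435467437087) (l 2682001024330521861241181215)))) (b (c (b (l 2034016253952260857792013535) (l 2246787371287128177923494943)) (b (l 2014673425850442901779965151) (l 2227444544914696808148718623))) (c (b (l 2449887082785302698754675743) (l 2662658201416855005286929439)) (b (l 2430544258142253585890137119) (l 2643315378791418525484389407)))))) (c (c (l 602712342242239518663903) (l 602700236563005172212959)) (b (c (l 602504239922958769284319) (l 602490404861123915179231)) (l 602865537062716090373151)))) (l 603047986890820128232479)) (c (a (b (a (a (l 3) (b (c (l 2894771955035868916857902111) (b (l 2836743658368402911568827423) (l 2943129204857927326083568671))) (c (l 3088200244412686092099392543) (l 3068857423516631869207188511))))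 (l 603512037796424378471455)) (c (b (l 2943128791535567924528305183) (l 3001157097426405966671172639)) (c (l 2952800058300752524345234463) (l 2943128647708610224823309343)))) (l 603401357331982122619935)) (a (b (a (a (l 3) (b (c (b (l 2827072243452804969770783775) (l 2933457791095250888892617759)) (c (l 2846414712131339535269909535) (l 2846414708384344645297361951))) (c (l 3059186009465725055864443935) (b (l 3030171812853404047808189471) (l 3146228629278647199810032671))))) (l 603497338047240639665183)) (c (c (l 2943128643385154582547420191) (l 2933457229622478145356518431)) (c (l 2923785819030335845834347551) (l 2914114408149963170160464927)))) (l 603386945813174535525407))))) (b (l 602062094415716016923871) (b (l 16746984) (l 16744536)))) (b (l 16755640) (l 16739256))), by decide +kernel⟩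

def k21_pm_213 : ∃ t, chk3 f_pm_213 t 255 77 1 = true :=
  ⟨(a (b (a (c (a (c (b (a (b (l 2807728726192161964341908511) (l 3001156497762701838609310943)) (l 602600365116656512390175)) (b (l 3252612584015515177253086431) (l 601901261940452689863903))) (b (b (b (l 3039842594238635208142099487) (l 3088199448032156784916861983)) (l 3146227710832139557531198687)) (b (l 3242941165352917535119221983) (l 601888291568234462340319)))) (l 602748082762634117113055)) (a (b (a (c (b (b (l 2740028992127128677421421599) (l 2846414151811488296339444767)) (l 2972142255898202566323266783)) (b (b (l 2730357576058609231016924191) (l 2836742735166508097631605791)) (l 2962470838388526703674615007))) (l 602575289073931311518751)) (c (b (l 3233269746978550269137233119) (l 601875032965640083088607)) (b (l 3223598328315952627003860191) (l 601862062593421855565023)))) (l 602727330168610525160671))) (l 602737562775704730932255)) (c (b (c (l 601611878628846309156063) (l 601598908257658873783519)) (l 601188756441809565557983))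 (b (c (l 601585937886471438410975) (l 601572679284907851326687)) (l 601158492242074432201823)))) (l 602319628730284754899999)), by decide +kernel⟩

def k22_pm_213 : ∃ t, chk3 f_pm_213 t 127 39 1 = true :=
  ⟨(a (a (l 3) (a (l 3) (b (a (l 3) (b (a (a (l 3) (b (c (c (l 3348724520476280076534694111) (l 3329381707362437007487107295)) (c (l 3310038894248594007158980703) (l 3300367487691667902789566559))) (c (c (l 2304212612329250640068460767) (l 2294541205772323711065653343)) (c (l 2255855579544645544428748895) (l 2246184172987718546706382943))))) (c (c (b (l 2961868258199594892338118879) (l 143761798082101471)) (b (l 2923182631971918100091273439) (l 143752246073999455))) (c (b (b (l 2884497005744239589859393631) (l 143737952423411807)) (l 143742694065881183)) (b (b (l 2865154192630397070567456863) (l 143729018889257055)) (l 143733073338286175))))) (c (b (c (l 2739425907390499619492036703) (l 2729754500833572621769228383)) (b (l 2894168412301195449754943583) (l 2990882477870369013545992287)))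 (c (b (l 2720083094276644868132356191) (l 2894168412301179575553917087)) (b (l 2700740281162777472389890207) (l 2884497005744250859844255775)))))) (b (a (a (l 3) (c (b (c (l 3406752959817807909276532831) (l 3387410146703960510899765407)) (b (l 2033413228735586280587640927) (l 2207498546760115421732274207))) (b (c (l 3358395927033197453516636191) (l 3339053113919350192580739103)) (b (l 2004399009064807074126594079) (l 2188155733646043241947562015))))) (c (b (b (l 3077925136882625269061288031) (l 143782139039711327)) (l 143785849889816671)) (b (c (l 3058582323768773816236261407) (l 3048910917211722917293735967)) (l 143485339616247839)))) (b (a (a (l 3) (c (b (l 2391255271341542286101905439) (l 2565340589366051842192343071)) (b (l 2371912458226830259268550687) (l 2526654963137231832708087839)))) (c (l 143790247934066719) (l 142915998604869663))) (c (c (l 2662054654935181425520902175) (l 2652383248378250923104895007)) (c (l 2584683402479316705470562335) (l 2487969336909329159333675039))))))))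 (b (a (b (a (c (l 143732661027340511) (l 143717474021326943)) (l 16739448)) (b (l 599955706901359909396575) (l 143719123286622239))) (l 601700365308557725360223)) (a (b (l 143721803342708767) (l 143722284373983263)) (l 600407075600800660168735)))), by decide +kernel⟩

def k23_pm_213 : ∃ t, chk3 f_pm_213 t 1 5 1 = true :=
  ⟨(a (l 3) (a (l 3) (a (l 3) (a (l 3) (a (b (l 3) (l 3)) (a (b (b (l 3) (l 3)) (a (l 3) (b (b (l 3) (l 1016999089223)) (b (l 329804431031) (l 322288163463))))) (b (b (b (a (a (l 3) (a (b (b (l 3) (b (l 3) (c (l 7081887451444112637920624671) (l 10060680670973140347990474783)))) (c (a (l 3) (b (b (l 3077925136880960883008307231) (l 1791628064809651631669231647)) (l 140085992624848927))) (b (l 5283005831856630250396450847) (l 5089577700716336918547251231)))) (b (c (b (a (b (a (l 2188155733646276956880420895) (l 143335668576485407)) (l 2594354809036483602964971551)) (l 143180293749456927)) (b (l 2826468566401327403123310623) (l 141829818384711711))) (b (b (l 2604026215592636750482849823)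 (l 2633040435261947352912183327)) (l 140578093028032543))) (b (c (l 141120564620148767) (l 139699926500769823)) (l 139514727606534175))))) (b (b (l 596576205125117025755167) (l 592459985940357143633951)) (a (b (l 140648255462932511) (l 139696696698093599)) (l 587135216560588037922847)))) (a (b (a (l 3) (b (b (l 3029568104094515135856574495) (l 2865154192625086085070176287)) (a (l 279339772007) (l 16217152)))) (a (l 3) (b (l 153711853687) (l 16099144)))) (b (a (l 138344091007352863) (l 579446669283738514350623)) (l 16139816)))) (b (b (a (a (l 634210813751) (l 317457255959)) (l 16024656)) (a (a (l 364701447751) (l 15933736)) (l 15926088))) (a (b (a (l 356648468503) (l 15856544)) (l 338931593847)) (b (l 15841856) (l 15770384))))) (b (b (a (b (l 334636496407) (l 15697080)) (l 15768072)) (b (l 15640136) (l 15608984))) (b (a (l 15596168) (l 15554192)) (l 15552296)))))))))), by decide +kernel⟩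

def k24_pm_213 : ∃ t, chk3 f_pm_213 t 1 3 1 = true :=
  ⟨(a (l 3) (a (l 3) (a (b (l 3) (l 3)) (a (b (l 3) (b (l 3) (l 3))) (a (b (b (l 3) (b (l 3) (l 3))) (b (b (b (l 3) (l 15935520)) (b (l 15854360) (l 15770744))) (b (b (l 15686256) (l 15602456)) (b (l 15542024) (l 232093374983))))) (b (b (b (a (b (l 312624555927) (l 308329593991)) (b (l 15550800) (l 15568424))) (b (l 329267337847) (l 322288187527))) (b (b (l 15750304) (l 15825616)) (b (l 15913256) (l 16012328)))) (b (b (b (l 15973712) (l 15894192)) (b (l 15809040) (l 15720872))) (b (b (l 15631736) (l 15543624)) (b (l 15458712) (l 15379576)))))))))), by decide +kernel⟩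

theorem s25_pm_213 : ∃ t, chk3 f_pm_213 t 255 38 1 = true := ex3_b k20_pm_213 k21_pm_213

theorem s26_pm_213 : ∃ t, chk3 f_pm_213 t 127 38 1 = true := ex3_a k19_pm_213 s25_pm_213

theorem s27_pm_213 : ∃ t, chk3 f_pm_213 t 127 19 1 = true := ex3_b s26_pm_213 k22_pm_213

theorem s28_pm_213 : ∃ t, chk3 f_pm_213 t 255 18 1 = true := ex3_b k17_pm_213 k18_pm_213

theorem s29_pm_213 : ∃ t, chk3 f_pm_213 t 127 18 1 = true := ex3_a k16_pm_213 s28_pm_213

theorem s30_pm_213 : ∃ t, chk3 f_pm_213 t 127 9 1 = true := ex3_b s29_pm_213 s27_pm_213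

theorem s31_pm_213 : ∃ t, chk3 f_pm_213 t 63 9 1 = true := ex3_a k15_pm_213 s30_pm_213

theorem s32_pm_213 : ∃ t, chk3 f_pm_213 t 31 9 1 = true := ex3_a k14_pm_213 s31_pm_213

theorem s33_pm_213 : ∃ t, chk3 f_pm_213 t 15 9 1 = true := ex3_a k13_pm_213 s32_pm_213

theorem s34_pm_213 : ∃ t, chk3 f_pm_213 t 7 9 1 = true := ex3_a k12_pm_213 s33_pm_213

theorem s35_pm_213 : ∃ t, chk3 f_pm_213 t 3 9 1 = true := ex3_a k11_pm_213 s34_pm_213

theorem s36_pm_213 : ∃ t, chk3 f_pm_213 t 255 33 1 = true := ex3_a k8_pm_213 k9_pm_213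

theorem s37_pm_213 : ∃ t, chk3 f_pm_213 t 255 16 1 = true := ex3_b k7_pm_213 s36_pm_213

theorem s38_pm_213 : ∃ t, chk3 f_pm_213 t 127 16 1 = true := ex3_a k6_pm_213 s37_pm_213

theorem s39_pm_213 : ∃ t, chk3 f_pm_213 t 127 8 1 = true := ex3_b s38_pm_213 k10_pm_213

theorem s40_pm_213 : ∃ t, chk3 f_pm_213 t 63 8 1 = true := ex3_a k5_pm_213 s39_pm_213

theorem s41_pm_213 : ∃ t, chk3 f_pm_213 t 31 8 1 = true := ex3_a k4_pm_213 s40_pm_213

theorem s42_pm_213 : ∃ t, chk3 f_pm_213 t 15 8 1 = true := ex3_a k3_pm_213 s41_pm_213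

theorem s43_pm_213 : ∃ t, chk3 f_pm_213 t 7 8 1 = true := ex3_a k2_pm_213 s42_pm_213

theorem s44_pm_213 : ∃ t, chk3 f_pm_213 t 3 8 1 = true := ex3_a k1_pm_213 s43_pm_213

theorem s45_pm_213 : ∃ t, chk3 f_pm_213 t 3 4 1 = true := ex3_b s44_pm_213 s35_pm_213

theorem s46_pm_213 : ∃ t, chk3 f_pm_213 t 1 4 1 = true := ex3_a k0_pm_213 s45_pm_213

theorem s47_pm_213 : ∃ t, chk3 f_pm_213 t 1 2 1 = true := ex3_b s46_pm_213 k23_pm_213

theorem s48_pm_213 : ∃ t, chk3 f_pm_213 t 1 1 1 = true := ex3_b s47_pm_213 k24_pm_213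

theorem c_pm_213 : CertB 0 536870912 0 1230186008 1040187392 5207648 3 eng mog cd0q2 cd3q3 pd1 false true false .pnn 2 1 3
    ndB0q2 ndB3q3 pcB1 cut_pm_213 xt_pm_213 :=
  certB0 (fam := false) (s1 := true) (s2 := false) (a := 2) (b := 1) (c := 3) (cn := .pnn) (n1 := ndB0q2) (n2 := ndB3q3) (pc := pcB1) (cut := cut_pm_213) (xt := xt_pm_213) (P1 := 0) (W1 := 536870912) (P2 := 0) (W2 := 1230186008) (P3 := 1040187392) (W3 := 5207648) (N0 := 3) (En := eng) (mo := mog) (C1 := cd0q2) (C2 := cd3q3) (C3 := pd1)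
    rfl s48_pm_213

noncomputable def f_mm_001 : ℕ → ℕ → ℕ → ℕ → Bool := onCell 0 536870912 0 536870912 1040187392 5207648
    (rowB 3 eng mog cd0q0 cd3q1 pd0 1 false false false .up 0 0 1 (qsf 0 536870912 536870912 536870912 0) ndB0q0 ndB3q1 pcB0 Cut.none Ext.none)

def k0_mm_001 : ∃ t, chk3 f_mm_001 t 1 1 1 = true :=
  ⟨(l 3), by decide +kernel⟩

theorem c_mm_001 : CertB 0 536870912 536870912 536870912 1040187392 5207648 3 eng mog cd0q0 cd3q1 pd0 false false false .up 0 0 1
    ndB0q0 ndB3q1 pcB0 Cut.none Ext.none :=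
  certB1 (fam := false) (s1 := false) (s2 := false) (a := 0) (b := 0) (c := 1) (cn := .up) (n1 := ndB0q0) (n2 := ndB3q1) (pc := pcB0) (cut := Cut.none) (xt := Ext.none) (P1 := 0) (W1 := 536870912) (P2 := 536870912) (W2 := 536870912) (P3 := 1040187392) (W3 := 5207648) (N0 := 3) (En := eng) (mo := mog) (C1 := cd0q0) (C2 := cd3q1) (C3 := pd0)
    rfl (fun _ => rfl) k0_mm_001

noncomputable def f_mm_011 : ℕ → ℕ → ℕ → ℕ → Bool := onCell 0 536870912 536870912 536870912 1040187392 5207648
    (rowB 3 eng mog cd0q0 cd3q1 pd1 1 false false false .pnn 0 1 1 (qsf 0 536870912 536870912 536870912 1) ndB0q0 ndB3q1 pcB1 Cut.none Ext.none)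

def k0_mm_011 : ∃ t, chk3 f_mm_011 t 1 1 1 = true :=
  ⟨(l 5), by decide +kernel⟩

theorem c_mm_011 : CertB 0 536870912 536870912 536870912 1040187392 5207648 3 eng mog cd0q0 cd3q1 pd1 false false false .pnn 0 1 1
    ndB0q0 ndB3q1 pcB1 Cut.none Ext.none :=
  certB1 (fam := false) (s1 := false) (s2 := false) (a := 0) (b := 1) (c := 1) (cn := .pnn) (n1 := ndB0q0) (n2 := ndB3q1) (pc := pcB1) (cut := Cut.none) (xt := Ext.none) (P1 := 0) (W1 := 536870912) (P2 := 536870912) (W2 := 536870912) (P3 := 1040187392) (W3 := 5207648) (N0 := 3) (En := eng) (mo := mog) (C1 := cd0q0) (C2 := cd3q1) (C3 := pd1)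
    rfl (fun _ => rfl) k0_mm_011

noncomputable def f_mm_012 : ℕ → ℕ → ℕ → ℕ → Bool := onCell 0 536870912 1073741824 536870912 1040187392 5207648
    (rowB 3 eng mog cd0q0 cd3q2 pd1 0 false false false .pnp 0 1 2 (qsf 0 536870912 1073741824 536870912 1) ndB0q0 ndB3q2 pcB1 Cut.none Ext.none)

def k0_mm_012 : ∃ t, chk3 f_mm_012 t 1 1 1 = true :=
  ⟨(l 5), by decide +kernel⟩

theorem c_mm_012 : CertB 0 536870912 1073741824 536870912 1040187392 5207648 3 eng mog cd0q0 cd3q2 pd1 false false false .pnp 0 1 2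
    ndB0q0 ndB3q2 pcB1 Cut.none Ext.none :=
  certB0 (fam := false) (s1 := false) (s2 := false) (a := 0) (b := 1) (c := 2) (cn := .pnp) (n1 := ndB0q0) (n2 := ndB3q2) (pc := pcB1) (cut := Cut.none) (xt := Ext.none) (P1 := 0) (W1 := 536870912) (P2 := 1073741824) (W2 := 536870912) (P3 := 1040187392) (W3 := 5207648) (N0 := 3) (En := eng) (mo := mog) (C1 := cd0q0) (C2 := cd3q2) (C3 := pd1)
    rfl k0_mm_012

noncomputable def f_mm_022 : ℕ → ℕ → ℕ → ℕ → Bool := onCell 0 536870912 1073741824 536870912 1040187392 5207648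
    (rowB 3 eng mog cd0q0 cd3q2 pd2 0 false false false .pp 0 2 2 (qsf 0 536870912 1073741824 536870912 2) ndB0q0 ndB3q2 pcB2 Cut.none Ext.none)

def k0_mm_022 : ∃ t, chk3 f_mm_022 t 1 1 1 = true :=
  ⟨(l 5), by decide +kernel⟩

theorem c_mm_022 : CertB 0 536870912 1073741824 536870912 1040187392 5207648 3 eng mog cd0q0 cd3q2 pd2 false false false .pp 0 2 2
    ndB0q0 ndB3q2 pcB2 Cut.none Ext.none :=
  certB0 (fam := false) (s1 := false) (s2 := false) (a := 0) (b := 2) (c := 2) (cn := .pp) (n1 := ndB0q0) (n2 := ndB3q2) (pc := pcB2) (cut := Cut.none) (xt := Ext.none) (P1 := 0) (W1 := 536870912) (P2 := 1073741824) (W2 := 536870912) (P3 := 1040187392) (W3 := 5207648) (N0 := 3) (En := eng) (mo := mog) (C1 := cd0q0) (C2 := cd3q2) (C3 := pd2)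
    rfl k0_mm_022

noncomputable def f_mm_023 : ℕ → ℕ → ℕ → ℕ → Bool := onCell 0 536870912 0 1230186008 1040187392 5207648
    (rowB 3 eng mog cd0q0 cd3q3 pd2 0 false false false .up 0 2 3 (qsf 0 536870912 0 1230186008 2) ndB0q0 ndB3q3 pcB2 Cut.none Ext.none)

def k0_mm_023 : ∃ t, chk3 f_mm_023 t 1 1 1 = true :=
  ⟨(l 5), by decide +kernel⟩

theorem c_mm_023 : CertB 0 536870912 0 1230186008 1040187392 5207648 3 eng mog cd0q0 cd3q3 pd2 false false false .up 0 2 3
    ndB0q0 ndB3q3 pcB2 Cut.none Ext.none :=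
  certB0 (fam := false) (s1 := false) (s2 := false) (a := 0) (b := 2) (c := 3) (cn := .up) (n1 := ndB0q0) (n2 := ndB3q3) (pc := pcB2) (cut := Cut.none) (xt := Ext.none) (P1 := 0) (W1 := 536870912) (P2 := 0) (W2 := 1230186008) (P3 := 1040187392) (W3 := 5207648) (N0 := 3) (En := eng) (mo := mog) (C1 := cd0q0) (C2 := cd3q3) (C3 := pd2)
    rfl k0_mm_023

noncomputable def f_mm_033 : ℕ → ℕ → ℕ → ℕ → Bool := onCell 0 536870912 0 1230186008 1040187392 5207648
    (rowB 3 eng mog cd0q0 cd3q3 pd3 0 false false false .pnn 0 3 3 (qsf 0 536870912 0 1230186008 3) ndB0q0 ndB3q3 pcB3 Cut.none Ext.none)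

def k0_mm_033 : ∃ t, chk3 f_mm_033 t 1 1 1 = true :=
  ⟨(l 5), by decide +kernel⟩

theorem c_mm_033 : CertB 0 536870912 0 1230186008 1040187392 5207648 3 eng mog cd0q0 cd3q3 pd3 false false false .pnn 0 3 3
    ndB0q0 ndB3q3 pcB3 Cut.none Ext.none :=
  certB0 (fam := false) (s1 := false) (s2 := false) (a := 0) (b := 3) (c := 3) (cn := .pnn) (n1 := ndB0q0) (n2 := ndB3q3) (pc := pcB3) (cut := Cut.none) (xt := Ext.none) (P1 := 0) (W1 := 536870912) (P2 := 0) (W2 := 1230186008) (P3 := 1040187392) (W3 := 5207648) (N0 := 3) (En := eng) (mo := mog) (C1 := cd0q0) (C2 := cd3q3) (C3 := pd3)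
    rfl k0_mm_033

noncomputable def cut_mm_101 : Cut := Cut.of [[⟨0, 1, 0, 26843545⟩, ⟨1, 0, 0, 26843545⟩, ⟨2, 1, 0, 26843545⟩]]

noncomputable def f_mm_101 : ℕ → ℕ → ℕ → ℕ → Bool := onCell 536870912 536870912 0 536870912 1040187392 5207648
    (rowB 3 eng mog cd0q1 cd3q1 pd0 1 false false false .npn 1 0 1 (qsf 536870912 536870912 536870912 536870912 0) ndB0q1 ndB3q1 pcB0 cut_mm_101 Ext.none)

def k0_mm_101 : ∃ t, chk3 f_mm_101 t 1 1 1 = true :=
  ⟨(a (l 3) (a (l 3) (a (l 3) (b (b (b (a (l 3) (b (b (a (l 3) (l 6)) (l 3)) (l 3))) (l 3)) (l 2)) (l 2))))), by decide +kernel⟩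

theorem c_mm_101 : CertB 536870912 536870912 536870912 536870912 1040187392 5207648 3 eng mog cd0q1 cd3q1 pd0 false false false .npn 1 0 1
    ndB0q1 ndB3q1 pcB0 cut_mm_101 Ext.none :=
  certB1 (fam := false) (s1 := false) (s2 := false) (a := 1) (b := 0) (c := 1) (cn := .npn) (n1 := ndB0q1) (n2 := ndB3q1) (pc := pcB0) (cut := cut_mm_101) (xt := Ext.none) (P1 := 536870912) (W1 := 536870912) (P2 := 536870912) (W2 := 536870912) (P3 := 1040187392) (W3 := 5207648) (N0 := 3) (En := eng) (mo := mog) (C1 := cd0q1) (C2 := cd3q1) (C3 := pd0)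
    rfl (fun _ => rfl) k0_mm_101

noncomputable def f_mm_102 : ℕ → ℕ → ℕ → ℕ → Bool := onCell 536870912 536870912 0 536870912 1040187392 5207648
    (rowB 3 eng mog cd0q1 cd3q2 pd0 1 false false false .npp 1 0 2 (qsf 536870912 536870912 1073741824 536870912 0) ndB0q1 ndB3q2 pcB0 Cut.none Ext.none)

def k0_mm_102 : ∃ t, chk3 f_mm_102 t 1 1 1 = true :=
  ⟨(l 3), by decide +kernel⟩

theorem c_mm_102 : CertB 536870912 536870912 1073741824 536870912 1040187392 5207648 3 eng mog cd0q1 cd3q2 pd0 false false false .npp 1 0 2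
    ndB0q1 ndB3q2 pcB0 Cut.none Ext.none :=
  certB1 (fam := false) (s1 := false) (s2 := false) (a := 1) (b := 0) (c := 2) (cn := .npp) (n1 := ndB0q1) (n2 := ndB3q2) (pc := pcB0) (cut := Cut.none) (xt := Ext.none) (P1 := 536870912) (W1 := 536870912) (P2 := 1073741824) (W2 := 536870912) (P3 := 1040187392) (W3 := 5207648) (N0 := 3) (En := eng) (mo := mog) (C1 := cd0q1) (C2 := cd3q2) (C3 := pd0)
    rfl (fun _ => rfl) k0_mm_102

noncomputable def f_mm_112 : ℕ → ℕ → ℕ → ℕ → Bool := onCell 536870912 536870912 536870912 536870912 1040187392 5207648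
    (rowB 3 eng mog cd0q1 cd3q2 pd1 1 false false false .dn 1 1 2 (qsf 536870912 536870912 1073741824 536870912 1) ndB0q1 ndB3q2 pcB1 Cut.none Ext.none)

def k0_mm_112 : ∃ t, chk3 f_mm_112 t 1 1 1 = true :=
  ⟨(l 5), by decide +kernel⟩

theorem c_mm_112 : CertB 536870912 536870912 1073741824 536870912 1040187392 5207648 3 eng mog cd0q1 cd3q2 pd1 false false false .dn 1 1 2
    ndB0q1 ndB3q2 pcB1 Cut.none Ext.none :=
  certB1 (fam := false) (s1 := false) (s2 := false) (a := 1) (b := 1) (c := 2) (cn := .dn) (n1 := ndB0q1) (n2 := ndB3q2) (pc := pcB1) (cut := Cut.none) (xt := Ext.none) (P1 := 536870912) (W1 := 536870912) (P2 := 1073741824) (W2 := 536870912) (P3 := 1040187392) (W3 := 5207648) (N0 := 3) (En := eng) (mo := mog) (C1 := cd0q1) (C2 := cd3q2) (C3 := pd1)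
    rfl (fun _ => rfl) k0_mm_112

noncomputable def f_mm_113 : ℕ → ℕ → ℕ → ℕ → Bool := onCell 536870912 536870912 0 1230186008 1040187392 5207648
    (rowB 3 eng mog cd0q1 cd3q3 pd1 0 false false false .nn 1 1 3 (qsf 536870912 536870912 0 1230186008 1) ndB0q1 ndB3q3 pcB1 Cut.none Ext.none)

def k0_mm_113 : ∃ t, chk3 f_mm_113 t 1 1 1 = true :=
  ⟨(b (l 5) (l 5)), by decide +kernel⟩

theorem c_mm_113 : CertB 536870912 536870912 0 1230186008 1040187392 5207648 3 eng mog cd0q1 cd3q3 pd1 false false false .nn 1 1 3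
    ndB0q1 ndB3q3 pcB1 Cut.none Ext.none :=
  certB0 (fam := false) (s1 := false) (s2 := false) (a := 1) (b := 1) (c := 3) (cn := .nn) (n1 := ndB0q1) (n2 := ndB3q3) (pc := pcB1) (cut := Cut.none) (xt := Ext.none) (P1 := 536870912) (W1 := 536870912) (P2 := 0) (W2 := 1230186008) (P3 := 1040187392) (W3 := 5207648) (N0 := 3) (En := eng) (mo := mog) (C1 := cd0q1) (C2 := cd3q3) (C3 := pd1)
    rfl k0_mm_113

noncomputable def f_mm_123 : ℕ → ℕ → ℕ → ℕ → Bool := onCell 536870912 536870912 0 1230186008 1040187392 5207648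
    (rowB 3 eng mog cd0q1 cd3q3 pd2 0 false false false .npn 1 2 3 (qsf 536870912 536870912 0 1230186008 2) ndB0q1 ndB3q3 pcB2 Cut.none Ext.none)

def k0_mm_123 : ∃ t, chk3 f_mm_123 t 1 1 1 = true :=
  ⟨(b (l 5) (l 5)), by decide +kernel⟩

theorem c_mm_123 : CertB 536870912 536870912 0 1230186008 1040187392 5207648 3 eng mog cd0q1 cd3q3 pd2 false false false .npn 1 2 3
    ndB0q1 ndB3q3 pcB2 Cut.none Ext.none :=
  certB0 (fam := false) (s1 := false) (s2 := false) (a := 1) (b := 2) (c := 3) (cn := .npn) (n1 := ndB0q1) (n2 := ndB3q3) (pc := pcB2) (cut := Cut.none) (xt := Ext.none) (P1 := 536870912) (W1 := 536870912) (P2 := 0) (W2 := 1230186008) (P3 := 1040187392) (W3 := 5207648) (N0 := 3) (En := eng) (mo := mog) (C1 := cd0q1) (C2 := cd3q3) (C3 := pd2)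
    rfl k0_mm_123

noncomputable def f_mm_133 : ℕ → ℕ → ℕ → ℕ → Bool := onCell 1610612736 536870912 0 1230186008 1040187392 5207648
    (rowB 3 eng mog cd0q1 cd3q3 pd3 2 false false false .dn 1 3 3 (qsf 536870912 536870912 0 1230186008 3) ndB0q1 ndB3q3 pcB3 Cut.none Ext.none)

def k0_mm_133 : ∃ t, chk3 f_mm_133 t 1 1 1 = true :=
  ⟨(l 5), by decide +kernel⟩

theorem c_mm_133 : CertB 536870912 536870912 0 1230186008 1040187392 5207648 3 eng mog cd0q1 cd3q3 pd3 false false false .dn 1 3 3
    ndB0q1 ndB3q3 pcB3 Cut.none Ext.none :=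
  certB2 (fam := false) (s1 := false) (s2 := false) (a := 1) (b := 3) (c := 3) (cn := .dn) (n1 := ndB0q1) (n2 := ndB3q3) (pc := pcB3) (cut := Cut.none) (xt := Ext.none) (P1 := 536870912) (W1 := 536870912) (P2 := 0) (W2 := 1230186008) (P3 := 1040187392) (W3 := 5207648) (N0 := 3) (En := eng) (mo := mog) (C1 := cd0q1) (C2 := cd3q3) (C3 := pd3)
    rfl (fun _ => rfl) k0_mm_133

noncomputable def f_mm_202 : ℕ → ℕ → ℕ → ℕ → Bool := onCell 0 536870912 1073741824 536870912 1040187392 5207648
    (rowB 3 eng mog cd0q2 cd3q2 pd0 0 false false false .pp 2 0 2 (qsf 0 536870912 1073741824 536870912 0) ndB0q2 ndB3q2 pcB0 Cut.none Ext.none)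

def k0_mm_202 : ∃ t, chk3 f_mm_202 t 1 1 1 = true :=
  ⟨(l 3), by decide +kernel⟩

theorem c_mm_202 : CertB 0 536870912 1073741824 536870912 1040187392 5207648 3 eng mog cd0q2 cd3q2 pd0 false false false .pp 2 0 2
    ndB0q2 ndB3q2 pcB0 Cut.none Ext.none :=
  certB0 (fam := false) (s1 := false) (s2 := false) (a := 2) (b := 0) (c := 2) (cn := .pp) (n1 := ndB0q2) (n2 := ndB3q2) (pc := pcB0) (cut := Cut.none) (xt := Ext.none) (P1 := 0) (W1 := 536870912) (P2 := 1073741824) (W2 := 536870912) (P3 := 1040187392) (W3 := 5207648) (N0 := 3) (En := eng) (mo := mog) (C1 := cd0q2) (C2 := cd3q2) (C3 := pd0)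
    rfl k0_mm_202

noncomputable def f_mm_203 : ℕ → ℕ → ℕ → ℕ → Bool := onCell 0 536870912 0 1230186008 1040187392 5207648
    (rowB 3 eng mog cd0q2 cd3q3 pd0 0 false false false .up 2 0 3 (qsf 0 536870912 0 1230186008 0) ndB0q2 ndB3q3 pcB0 Cut.none Ext.none)

def k0_mm_203 : ∃ t, chk3 f_mm_203 t 1 1 1 = true :=
  ⟨(b (l 2) (l 3)), by decide +kernel⟩

theorem c_mm_203 : CertB 0 536870912 0 1230186008 1040187392 5207648 3 eng mog cd0q2 cd3q3 pd0 false false false .up 2 0 3
    ndB0q2 ndB3q3 pcB0 Cut.none Ext.none :=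
  certB0 (fam := false) (s1 := false) (s2 := false) (a := 2) (b := 0) (c := 3) (cn := .up) (n1 := ndB0q2) (n2 := ndB3q3) (pc := pcB0) (cut := Cut.none) (xt := Ext.none) (P1 := 0) (W1 := 536870912) (P2 := 0) (W2 := 1230186008) (P3 := 1040187392) (W3 := 5207648) (N0 := 3) (En := eng) (mo := mog) (C1 := cd0q2) (C2 := cd3q3) (C3 := pd0)
    rfl k0_mm_203

noncomputable def f_mm_213 : ℕ → ℕ → ℕ → ℕ → Bool := onCell 0 536870912 0 1230186008 1040187392 5207648
    (rowB 3 eng mog cd0q2 cd3q3 pd1 0 false false false .pnn 2 1 3 (qsf 0 536870912 0 1230186008 1) ndB0q2 ndB3q3 pcB1 Cut.none Ext.none)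

def k0_mm_213 : ∃ t, chk3 f_mm_213 t 1 1 1 = true :=
  ⟨(b (a (l 3) (l 5)) (l 3)), by decide +kernel⟩

theorem c_mm_213 : CertB 0 536870912 0 1230186008 1040187392 5207648 3 eng mog cd0q2 cd3q3 pd1 false false false .pnn 2 1 3
    ndB0q2 ndB3q3 pcB1 Cut.none Ext.none :=
  certB0 (fam := false) (s1 := false) (s2 := false) (a := 2) (b := 1) (c := 3) (cn := .pnn) (n1 := ndB0q2) (n2 := ndB3q3) (pc := pcB1) (cut := Cut.none) (xt := Ext.none) (P1 := 0) (W1 := 536870912) (P2 := 0) (W2 := 1230186008) (P3 := 1040187392) (W3 := 5207648) (N0 := 3) (En := eng) (mo := mog) (C1 := cd0q2) (C2 := cd3q3) (C3 := pd1)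
    rfl k0_mm_213

end Pool.Agent.Strip051.G.I9688_9736.Tab.C.BB03

namespace Pool.Agent.Strip051.G.I9688_9736.Tab.C.BB04

open Pool.Agent.Strip051.PB Pool.Agent.Strip051.PB.T
open Pool.Agent.Strip051.G.I9688_9736.Tab

noncomputable def f_pp_001 : ℕ → ℕ → ℕ → ℕ → Bool := onCell 0 536870912 0 536870912 1040187392 5207648
    (rowB 3 eng mog cd0q0 cd4q1 pd0 1 false true true .up 0 0 1 (qsf 0 536870912 536870912 536870912 0) ndB0q0 ndB4q1 pcB0 Cut.none Ext.none)

def k0_pp_001 : ∃ t, chk3 f_pp_001 t 1 1 1 = true :=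
  ⟨(l 3), by decide +kernel⟩

theorem c_pp_001 : CertB 0 536870912 536870912 536870912 1040187392 5207648 3 eng mog cd0q0 cd4q1 pd0 false true true .up 0 0 1
    ndB0q0 ndB4q1 pcB0 Cut.none Ext.none :=
  certB1 (fam := false) (s1 := true) (s2 := true) (a := 0) (b := 0) (c := 1) (cn := .up) (n1 := ndB0q0) (n2 := ndB4q1) (pc := pcB0) (cut := Cut.none) (xt := Ext.none) (P1 := 0) (W1 := 536870912) (P2 := 536870912) (W2 := 536870912) (P3 := 1040187392) (W3 := 5207648) (N0 := 3) (En := eng) (mo := mog) (C1 := cd0q0) (C2 := cd4q1) (C3 := pd0)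
    rfl (fun _ => rfl) k0_pp_001

noncomputable def cut_pp_011 : Cut := Cut.of [[⟨0, 0, 0, 26843545⟩, ⟨1, 1, 0, 26843545⟩, ⟨2, 1, 0, 26843545⟩]]

noncomputable def f_pp_011 : ℕ → ℕ → ℕ → ℕ → Bool := onCell 0 536870912 536870912 536870912 1040187392 5207648
    (rowB 3 eng mog cd0q0 cd4q1 pd1 1 false true true .pnn 0 1 1 (qsf 0 536870912 536870912 536870912 1) ndB0q0 ndB4q1 pcB1 cut_pp_011 Ext.none)

def k0_pp_011 : ∃ t, chk3 f_pp_011 t 1 1 1 = true :=
  ⟨(b (l 3) (a (b (l 3) (a (b (l 3) (a (b (l 3) (a (a (b (l 3) (l 6)) (l 3)) (l 3))) (l 3))) (l 3))) (l 3))), by decide +kernel⟩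

theorem c_pp_011 : CertB 0 536870912 536870912 536870912 1040187392 5207648 3 eng mog cd0q0 cd4q1 pd1 false true true .pnn 0 1 1
    ndB0q0 ndB4q1 pcB1 cut_pp_011 Ext.none :=
  certB1 (fam := false) (s1 := true) (s2 := true) (a := 0) (b := 1) (c := 1) (cn := .pnn) (n1 := ndB0q0) (n2 := ndB4q1) (pc := pcB1) (cut := cut_pp_011) (xt := Ext.none) (P1 := 0) (W1 := 536870912) (P2 := 536870912) (W2 := 536870912) (P3 := 1040187392) (W3 := 5207648) (N0 := 3) (En := eng) (mo := mog) (C1 := cd0q0) (C2 := cd4q1) (C3 := pd1)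
    rfl (fun _ => rfl) k0_pp_011

noncomputable def f_pp_012 : ℕ → ℕ → ℕ → ℕ → Bool := onCell 0 536870912 536870912 536870912 1040187392 5207648
    (rowB 3 eng mog cd0q0 cd4q2 pd1 1 false true true .pnp 0 1 2 (qsf 0 536870912 1073741824 536870912 1) ndB0q0 ndB4q2 pcB1 Cut.none Ext.none)

def k0_pp_012 : ∃ t, chk3 f_pp_012 t 1 1 1 = true :=
  ⟨(l 3), by decide +kernel⟩

theorem c_pp_012 : CertB 0 536870912 1073741824 536870912 1040187392 5207648 3 eng mog cd0q0 cd4q2 pd1 false true true .pnp 0 1 2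
    ndB0q0 ndB4q2 pcB1 Cut.none Ext.none :=
  certB1 (fam := false) (s1 := true) (s2 := true) (a := 0) (b := 1) (c := 2) (cn := .pnp) (n1 := ndB0q0) (n2 := ndB4q2) (pc := pcB1) (cut := Cut.none) (xt := Ext.none) (P1 := 0) (W1 := 536870912) (P2 := 1073741824) (W2 := 536870912) (P3 := 1040187392) (W3 := 5207648) (N0 := 3) (En := eng) (mo := mog) (C1 := cd0q0) (C2 := cd4q2) (C3 := pd1)
    rfl (fun _ => rfl) k0_pp_012

noncomputable def f_pp_022 : ℕ → ℕ → ℕ → ℕ → Bool := onCell 0 536870912 1073741824 536870912 1040187392 5207648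
    (rowB 3 eng mog cd0q0 cd4q2 pd2 1 false true true .pp 0 2 2 (qsf 0 536870912 1073741824 536870912 2) ndB0q0 ndB4q2 pcB2 Cut.none Ext.none)

def k0_pp_022 : ∃ t, chk3 f_pp_022 t 1 4 1 = true :=
  ⟨(a (l 3) (l 3)), by decide +kernel⟩

def k1_pp_022 : ∃ t, chk3 f_pp_022 t 1 20 1 = true :=
  ⟨(b (a (a (l 3) (l 3)) (l 3)) (a (a (a (b (a (a (l 15163224) (l 14973464)) (a (l 14792176) (l 180551960439))) (b (a (a (l 15092048) (l 14906584)) (a (l 14729608) (l 14549536))) (a (b (l 14922512) (a (l 15038648) (b (l 14775168) (l 14850240)))) (a (b (l 14698848) (l 14615920)) (l 14532352))))) (b (a (b (l 3) (a (a (l 14504080) (l 14441552)) (l 1408375323671))) (l 3)) (b (a (a (b (l 14444896) (l 14426952)) (b (l 14327576) (l 14310856))) (a (b (l 14217336) (l 14201848)) (b (l 1809417383943) (a (l 14122136) (l 14069776))))) (a (a (l 14400328) (l 14286072)) (a (l 14178904) (a (l 14100600) (l 14049208))))))) (b (l 3) (b (b (l 3) (a (a (a (a (l 14019544) (l 13971776)) (a (l 153707153783) (c (l 219742192807)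 (l 13875872)))) (a (a (l 230479531751) (l 3)) (l 3))) (l 3))) (a (a (a (a (l 13999928) (l 13953112)) (c (a (l 13916352) (l 13874552)) (l 13879848))) (a (c (a (l 13835152) (l 13798144)) (l 13800528)) (a (l 235848102471) (l 235311193959)))) (a (a (a (l 235848016903) (l 237458570583)) (a (l 13639808) (l 13616680))) (a (c (l 240142785351) (l 13577576)) (l 242827063479))))))) (a (b (l 3) (b (l 3) (a (a (a (l 244437619063) (l 13514136)) (a (l 13507192) (l 13508496))) (a (a (l 13517864) (l 13535080)) (a (l 13559952) (l 2)))))) (l 2)))), by decide +kernel⟩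

def k2_pp_022 : ∃ t, chk3 f_pp_022 t 1 21 1 = true :=
  ⟨(a (a (a (a (a (l 14660144) (b (l 14758016) (l 14593416))) (a (l 14512408) (b (l 14439728) (l 14299432)))) (a (a (a (l 14275872) (l 14221360)) (a (l 14169632) (l 14099056))) (a (b (a (l 14129648) (l 14080248)) (l 13994232)) (b (a (l 14031288) (l 13983080)) (l 13906448))))) (a (a (b (a (b (a (l 13961704) (l 13916784)) (l 13891344)) (b (a (l 13874304) (l 13834248)) (l 13811400))) (a (l 13824304) (l 13751840))) (b (a (b (a (l 13796584) (l 13761312)) (l 13741040)) (b (a (l 13728408) (l 13697848)) (l 13680120))) (a (l 13688864) (l 13635232)))) (a (b (a (b (c (l 13685856) (l 13648008)) (l 13628488)) (b (c (l 13617816) (l 13600592)) (l 13586008))) (a (l 13590800) (l 13555400))) (b (a (a (l 13569600) (l 13553904)) (b (l 13541728) (l 13527840))) (a (l 13528872) (l 13511056)))))) (a (a (a (b (a (b (l 13521168) (l 13511816)) (b (l 13509160) (l 13504272))) (a (l 13501776) (l 13500840))) (b (a (b (l 13505520) (l 13505008)) (l 13511808)) (a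 (l 13508056) (l 13523240)))) (a (b (a (l 13526456) (l 13548840)) (l 13560864)) (b (a (l 13578760) (l 2)) (l 2)))) (l 2))), by decide +kernel⟩

def k3_pp_022 : ∃ t, chk3 f_pp_022 t 1 11 1 = true :=
  ⟨(a (a (a (a (b (a (l 14515920) (l 14368088)) (a (l 14226568) (l 14101648))) (b (a (l 14229520) (l 14107416)) (a (l 13985424) (l 13884776)))) (a (b (a (l 14007144) (l 13902080)) (a (l 13804360) (l 13739088))) (b (a (b (l 13893032) (l 13801208)) (b (l 13815112) (l 13733048))) (a (l 13681008) (l 13627280))))) (a (b (a (b (l 13731728) (l 13643464)) (a (l 13599824) (l 13560552))) (a (a (l 13579608) (l 13541144)) (a (l 13511688) (l 13491080)))) (a (b (b (l 13534280) (l 13504856)) (b (l 13483840) (l 13471056))) (b (b (l 13499536) (l 13488128)) (l 13486504))))) (a (a (b (a (b (l 13498608) (l 13504528)) (b (l 13529984) (l 13552488))) (a (l 13528248) (l 13600384))) (b (a (b (l 13592024) (l 2)) (l 2)) (l 2))) (l 2))), by decide +kernel⟩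

def k4_pp_022 : ∃ t, chk3 f_pp_022 t 1 3 1 = true :=
  ⟨(a (a (a (b (a (b (b (l 13924288) (l 13722888)) (a (l 13515712) (l 13465728))) (b (a (l 13690848) (l 13621672)) (a (l 13424464) (l 13395544)))) (a (b (a (l 13305960) (l 13296016)) (a (l 13226576) (l 13254568))) (b (a (l 13294640) (l 13303624)) (b (l 13296032) (l 13313552))))) (b (a (b (a (l 13570280) (b (l 13591832) (l 13480208))) (a (b (l 13414672) (l 13353800)) (l 13377824))) (b (b (a (l 13552128) (l 13517200)) (a (l 13458352) (l 13441680))) (b (l 13398392) (l 13379400)))) (a (b (a (l 13323552) (l 13352400)) (b (a (l 13353856) (l 2)) (l 2))) (b (b (l 13390896) (l 13423016)) (l 2))))) (b (a (b (a (b (l 13477960) (l 13429976)) (b (l 13455792) (l 13443296))) (a (b (l 13414248) (l 13429184)) (b (l 13461640) (l 13508072)))) (b (a (b (l 13467320) (l 13488848)) (b (l 13510992) (l 13564952))) (b (a (l 13539672) (l 2)) (l 2)))) (b (a (b (a (l 13468848) (l 2)) (l 2)) (l 2)) (l 2)))) (b (a (b (a (b (a (l 13585144) (l 2)) (l 2)) (l 2)) (l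 2)) (l 2)) (l 2))), by decide +kernel⟩

theorem s5_pp_022 : ∃ t, chk3 f_pp_022 t 1 10 1 = true := ex3_b k1_pp_022 k2_pp_022

theorem s6_pp_022 : ∃ t, chk3 f_pp_022 t 1 5 1 = true := ex3_b s5_pp_022 k3_pp_022

theorem s7_pp_022 : ∃ t, chk3 f_pp_022 t 1 2 1 = true := ex3_b k0_pp_022 s6_pp_022

theorem s8_pp_022 : ∃ t, chk3 f_pp_022 t 1 1 1 = true := ex3_b s7_pp_022 k4_pp_022

theorem c_pp_022 : CertB 0 536870912 1073741824 536870912 1040187392 5207648 3 eng mog cd0q0 cd4q2 pd2 false true true .pp 0 2 2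
    ndB0q0 ndB4q2 pcB2 Cut.none Ext.none :=
  certB1 (fam := false) (s1 := true) (s2 := true) (a := 0) (b := 2) (c := 2) (cn := .pp) (n1 := ndB0q0) (n2 := ndB4q2) (pc := pcB2) (cut := Cut.none) (xt := Ext.none) (P1 := 0) (W1 := 536870912) (P2 := 1073741824) (W2 := 536870912) (P3 := 1040187392) (W3 := 5207648) (N0 := 3) (En := eng) (mo := mog) (C1 := cd0q0) (C2 := cd4q2) (C3 := pd2)
    rfl (fun _ => rfl) s8_pp_022

noncomputable def f_pp_023 : ℕ → ℕ → ℕ → ℕ → Bool := onCell 1073741824 536870912 0 1230186008 1040187392 5207648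
    (rowB 3 eng mog cd0q0 cd4q3 pd2 2 false true true .up 0 2 3 (qsf 0 536870912 0 1230186008 2) ndB0q0 ndB4q3 pcB2 Cut.none Ext.none)

def k0_pp_023 : ∃ t, chk3 f_pp_023 t 1 1 1 = true :=
  ⟨(a (b (l 2) (b (a (l 2) (a (l 2) (b (l 2) (b (l 2) (l 259407947175))))) (a (l 3) (a (b (b (a (l 2) (l 295378750007)) (b (a (l 2) (l 16409752)) (a (a (l 3) (a (l 88146824935) (a (l 16452520) (a (l 16445424) (l 16440504))))) (l 16399040)))) (a (a (l 3) (a (b (b (l 16446992) (l 3)) (l 3)) (b (a (b (l 16432288) (l 16403912)) (l 16408728)) (a (l 16340256) (l 16329240))))) (b (b (l 16377624) (l 16346752)) (l 16173704)))) (b (b (a (l 16290224) (l 16253928)) (b (l 16291248) (l 16278000))) (b (b (l 16253704) (l 16216928)) (b (l 16168720) (l 16106392)))))))) (a (b (l 2) (b (b (a (l 2) (b (l 16005944) (l 15974720))) (a (b (a (l 16112960) (l 16043784)) (l 16115064)) (b (l 15955720) (l 15923000)))) (b (b (a (l 16135944) (l 15977600)) (a (l 16100608) (l 15951864))) (b (a (b (l 16079544) (l 16032456)) (l 15866216))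 (a (l 15936160) (l 15714808)))))) (b (b (a (l 2) (b (l 13720496) (l 14334104))) (b (a (l 15295136) (l 14924240)) (a (b (l 15658664) (a (l 15917920) (l 15785480))) (b (l 15332992) (l 15563656))))) (b (b (a (b (a (l 15943872) (l 15883224)) (l 15878016)) (b (a (l 15793904) (l 15674664)) (a (l 15800008) (l 15732832)))) (a (b (l 15844584) (l 15824728)) (b (l 15722144) (l 15683688)))) (b (b (a (l 15817520) (l 15653632)) (a (l 15775376) (l 15590744))) (b (a (l 15664048) (b (a (l 15547520) (l 15433888)) (a (l 15449896) (l 15352856)))) (a (b (a (l 15583976) (l 15456384)) (a (l 15477352) (b (l 15385000) (l 15357360)))) (b (a (b (l 15376264) (l 15341656)) (l 15257576)) (a (l 15177896) (l 15099288)))))))))), by decide +kernel⟩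

theorem c_pp_023 : CertB 0 536870912 0 1230186008 1040187392 5207648 3 eng mog cd0q0 cd4q3 pd2 false true true .up 0 2 3
    ndB0q0 ndB4q3 pcB2 Cut.none Ext.none :=
  certB2 (fam := false) (s1 := true) (s2 := true) (a := 0) (b := 2) (c := 3) (cn := .up) (n1 := ndB0q0) (n2 := ndB4q3) (pc := pcB2) (cut := Cut.none) (xt := Ext.none) (P1 := 0) (W1 := 536870912) (P2 := 0) (W2 := 1230186008) (P3 := 1040187392) (W3 := 5207648) (N0 := 3) (En := eng) (mo := mog) (C1 := cd0q0) (C2 := cd4q3) (C3 := pd2)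
    rfl (fun _ => rfl) k0_pp_023

noncomputable def f_pp_033 : ℕ → ℕ → ℕ → ℕ → Bool := onCell 0 536870912 0 1230186008 1040187392 5207648
    (rowB 3 eng mog cd0q0 cd4q3 pd3 0 false true true .pnn 0 3 3 (qsf 0 536870912 0 1230186008 3) ndB0q0 ndB4q3 pcB3 Cut.none Ext.none)

def k0_pp_033 : ∃ t, chk3 f_pp_033 t 1 2 1 = true :=
  ⟨(b (b (a (l 4) (a (a (l 16059592) (l 16139776)) (a (b (l 16243912) (l 16301608)) (l 16477840)))) (a (a (l 4) (a (a (l 4) (l 15754024)) (a (l 15807960) (l 15857536)))) (a (a (b (l 15936920) (l 15925992)) (b (l 16124704) (l 16107560))) (a (b (l 16314296) (l 16354280)) (l 16608384))))) (a (b (b (a (l 4) (a (a (l 15513896) (l 15550008)) (a (l 15647296) (l 15755032)))) (a (a (l 4) (a (a (l 4) (l 15248128)) (l 15455584))) (a (a (l 15402792) (l 15505544)) (a (l 15616976) (l 15719704))))) (a (a (a (b (l 4) (a (b (l 4) (l 14580384)) (b (l 14744032) (l 14689824)))) (b (a (l 14932704) (l 15020720)) (b (a (l 14849280) (l 14939080)) (l 14845896)))) (a (b (b (l 15123880) (l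 15078968)) (b (l 15038104) (a (l 14962808) (l 15021120)))) (b (b (l 15219000) (l 15186944)) (b (l 15150608) (l 15113936))))) (a (b (a (l 15332592) (l 15451872)) (a (l 15269848) (l 15406880))) (b (l 15638544) (l 15617056))))) (a (b (a (b (l 15901360) (l 15899472)) (l 16147704)) (a (b (l 15904560) (l 15909408)) (b (l 16190376) (l 16210640)))) (b (a (l 16424272) (l 16383608)) (a (b (l 16446080) (l 16260616)) (b (l 16166048) (l 1))))))), by decide +kernel⟩

def k1_pp_033 : ∃ t, chk3 f_pp_033 t 1 6 1 = true :=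
  ⟨(a (a (b (a (b (a (b (a (l 14519520) (l 14629712)) (a (l 14457728) (l 14583320))) (b (a (l 14743648) (l 14845872)) (l 14760144))) (a (b (l 14489976) (l 14463184)) (b (l 14726992) (l 14692520)))) (a (b (a (l 14903232) (l 14965560)) (a (l 14834792) (l 14897944))) (b (l 15064024) (b (l 15017520) (l 14984008))))) (a (b (a (b (l 14430672) (l 14388928)) (b (l 14653408) (l 14606696))) (b (a (l 14335048) (l 14549912)) (a (l 14266808) (b (l 14499408) (a (l 14414752) (l 14529824)))))) (b (a (a (l 14753808) (l 14817832)) (b (l 14945944) (l 14901296))) (a (b (a (l 14672856) (l 14738360)) (b (a (l 14626992) (b (l 14702392) (l 14705128))) (a (l 14636176) (l 14736800)))) (b (b (l 14862448) (a (l 14795888) (l 14885776))) (b (l 14830832) (l 14886984))))))) (b (a (b (a (l 15214712) (l 15366760)) (a (l 15160488) (l 15322040))) (b (l 15595832) (a (l 15483824) (l 15645840)))) (a (b (b (l 15193936) (a (l 15069192) (b (l 15250272) (l 15212640)))) (b (a (b (a (l 14991376) (l 15084312)) (l 15040968)) (l 15231920))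 (a (l 15074568) (l 15259352)))) (b (b (a (l 15445008) (l 15609976)) (a (b (l 15421448) (l 15410368)) (l 15577600))) (b (l 15485576) (l 15494768)))))) (b (a (b (a (l 15885448) (l 16216880)) (a (b (l 15894416) (a (l 15799104) (l 15951840))) (b (a (l 16130184) (l 16192480)) (a (l 16083224) (l 1))))) (b (a (b (l 16105544) (l 1)) (l 1)) (l 1))) (a (b (a (a (b (l 15764256) (l 15719608)) (l 15866608)) (a (l 15973568) (l 1))) (a (b (l 15751904) (l 15741488)) (l 1))) (l 1)))), by decide +kernel⟩

def k2_pp_033 : ∃ t, chk3 f_pp_033 t 1 7 1 = true :=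
  ⟨(a (a (b (a (b (b (a (b (a (l 14159792) (l 14287264)) (l 14272872)) (b (l 14508648) (l 14578352))) (a (l 14411032) (l 14697696))) (b (a (l 14622552) (a (l 14820416) (l 14938736))) (a (l 14751432) (l 15020464)))) (b (a (b (a (l 14720528) (l 14813960)) (l 14903432)) (b (l 14952936) (l 15063136))) (a (b (b (l 15019104) (l 15090328)) (l 15160808)) (b (b (l 15159696) (l 15204824)) (l 15264272))))) (a (b (a (l 14993744) (l 15180336)) (b (l 15267624) (l 15168088))) (b (a (l 15304088) (l 15397800)) (a (b (l 15467384) (l 1)) (l 1))))) (b (b (a (a (b (l 15141640) (l 15235288)) (b (l 15310656) (l 15383280))) (b (a (l 15459104) (l 15589360)) (a (l 15511896) (l 1)))) (a (b (l 15380992) (l 15453032)) (l 1))) (b (a (l 15551688) (l 1)) (l 1)))) (l 1)), by decide +kernel⟩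

theorem s3_pp_033 : ∃ t, chk3 f_pp_033 t 1 3 1 = true := ex3_b k1_pp_033 k2_pp_033

theorem s4_pp_033 : ∃ t, chk3 f_pp_033 t 1 1 1 = true := ex3_b k0_pp_033 s3_pp_033

theorem c_pp_033 : CertB 0 536870912 0 1230186008 1040187392 5207648 3 eng mog cd0q0 cd4q3 pd3 false true true .pnn 0 3 3
    ndB0q0 ndB4q3 pcB3 Cut.none Ext.none :=
  certB0 (fam := false) (s1 := true) (s2 := true) (a := 0) (b := 3) (c := 3) (cn := .pnn) (n1 := ndB0q0) (n2 := ndB4q3) (pc := pcB3) (cut := Cut.none) (xt := Ext.none) (P1 := 0) (W1 := 536870912) (P2 := 0) (W2 := 1230186008) (P3 := 1040187392) (W3 := 5207648) (N0 := 3) (En := eng) (mo := mog) (C1 := cd0q0) (C2 := cd4q3) (C3 := pd3)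
    rfl s4_pp_033

noncomputable def f_pp_101 : ℕ → ℕ → ℕ → ℕ → Bool := onCell 536870912 536870912 536870912 536870912 1040187392 5207648
    (rowB 3 eng mog cd0q1 cd4q1 pd0 0 false true true .npn 1 0 1 (qsf 536870912 536870912 536870912 536870912 0) ndB0q1 ndB4q1 pcB0 Cut.none Ext.none)

def k0_pp_101 : ∃ t, chk3 f_pp_101 t 1 1 1 = true :=
  ⟨(a (l 3) (l 5)), by decide +kernel⟩

theorem c_pp_101 : CertB 536870912 536870912 536870912 536870912 1040187392 5207648 3 eng mog cd0q1 cd4q1 pd0 false true true .npn 1 0 1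
    ndB0q1 ndB4q1 pcB0 Cut.none Ext.none :=
  certB0 (fam := false) (s1 := true) (s2 := true) (a := 1) (b := 0) (c := 1) (cn := .npn) (n1 := ndB0q1) (n2 := ndB4q1) (pc := pcB0) (cut := Cut.none) (xt := Ext.none) (P1 := 536870912) (W1 := 536870912) (P2 := 536870912) (W2 := 536870912) (P3 := 1040187392) (W3 := 5207648) (N0 := 3) (En := eng) (mo := mog) (C1 := cd0q1) (C2 := cd4q1) (C3 := pd0)
    rfl k0_pp_101

noncomputable def f_pp_102 : ℕ → ℕ → ℕ → ℕ → Bool := onCell 536870912 536870912 1073741824 536870912 1040187392 5207648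
    (rowB 3 eng mog cd0q1 cd4q2 pd0 0 false true true .npp 1 0 2 (qsf 536870912 536870912 1073741824 536870912 0) ndB0q1 ndB4q2 pcB0 Cut.none Ext.none)

def k0_pp_102 : ∃ t, chk3 f_pp_102 t 1 1 1 = true :=
  ⟨(l 3), by decide +kernel⟩

theorem c_pp_102 : CertB 536870912 536870912 1073741824 536870912 1040187392 5207648 3 eng mog cd0q1 cd4q2 pd0 false true true .npp 1 0 2
    ndB0q1 ndB4q2 pcB0 Cut.none Ext.none :=
  certB0 (fam := false) (s1 := true) (s2 := true) (a := 1) (b := 0) (c := 2) (cn := .npp) (n1 := ndB0q1) (n2 := ndB4q2) (pc := pcB0) (cut := Cut.none) (xt := Ext.none) (P1 := 536870912) (W1 := 536870912) (P2 := 1073741824) (W2 := 536870912) (P3 := 1040187392) (W3 := 5207648) (N0 := 3) (En := eng) (mo := mog) (C1 := cd0q1) (C2 := cd4q2) (C3 := pd0)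
    rfl k0_pp_102

noncomputable def f_pp_112 : ℕ → ℕ → ℕ → ℕ → Bool := onCell 536870912 536870912 1073741824 536870912 1040187392 5207648
    (rowB 3 eng mog cd0q1 cd4q2 pd1 0 false true true .dn 1 1 2 (qsf 536870912 536870912 1073741824 536870912 1) ndB0q1 ndB4q2 pcB1 Cut.none Ext.none)

def k0_pp_112 : ∃ t, chk3 f_pp_112 t 1 1 1 = true :=
  ⟨(l 3), by decide +kernel⟩

theorem c_pp_112 : CertB 536870912 536870912 1073741824 536870912 1040187392 5207648 3 eng mog cd0q1 cd4q2 pd1 false true true .dn 1 1 2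
    ndB0q1 ndB4q2 pcB1 Cut.none Ext.none :=
  certB0 (fam := false) (s1 := true) (s2 := true) (a := 1) (b := 1) (c := 2) (cn := .dn) (n1 := ndB0q1) (n2 := ndB4q2) (pc := pcB1) (cut := Cut.none) (xt := Ext.none) (P1 := 536870912) (W1 := 536870912) (P2 := 1073741824) (W2 := 536870912) (P3 := 1040187392) (W3 := 5207648) (N0 := 3) (En := eng) (mo := mog) (C1 := cd0q1) (C2 := cd4q2) (C3 := pd1)
    rfl k0_pp_112

noncomputable def cut_pp_113 : Cut := Cut.of [[⟨0, 1, 0, 15728640⟩, ⟨1, 1, 0, 15728640⟩, ⟨2, 2, 0, 524288⟩]]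

noncomputable def f_pp_113 : ℕ → ℕ → ℕ → ℕ → Bool := onCell 536870912 536870912 0 1230186008 1040187392 5207648
    (rowB 3 eng mog cd0q1 cd4q3 pd1 2 false true true .nn 1 1 3 (qsf 536870912 536870912 0 1230186008 1) ndB0q1 ndB4q3 pcB1 cut_pp_113 Ext.none)

def k0_pp_113 : ∃ t, chk3 f_pp_113 t 1 1 1 = true :=
  ⟨(b (a (l 2) (a (l 2) (b (a (l 2) (a (l 2) (b (a (l 2) (b (a (l 2) (b (l 6) (l 3))) (l 3))) (l 3)))) (l 3)))) (b (a (b (l 2) (a (l 2) (a (l 2) (l 3)))) (l 3)) (a (b (a (l 2) (l 3)) (l 3)) (l 3)))), by decide +kernel⟩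

theorem c_pp_113 : CertB 536870912 536870912 0 1230186008 1040187392 5207648 3 eng mog cd0q1 cd4q3 pd1 false true true .nn 1 1 3
    ndB0q1 ndB4q3 pcB1 cut_pp_113 Ext.none :=
  certB2 (fam := false) (s1 := true) (s2 := true) (a := 1) (b := 1) (c := 3) (cn := .nn) (n1 := ndB0q1) (n2 := ndB4q3) (pc := pcB1) (cut := cut_pp_113) (xt := Ext.none) (P1 := 536870912) (W1 := 536870912) (P2 := 0) (W2 := 1230186008) (P3 := 1040187392) (W3 := 5207648) (N0 := 3) (En := eng) (mo := mog) (C1 := cd0q1) (C2 := cd4q3) (C3 := pd1)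
    rfl (fun _ => rfl) k0_pp_113

end Pool.Agent.Strip051.G.I9688_9736.Tab.C.BB04

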