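import Pool.Agent.Strip051.G.I9688_9736.Tab
import Pool.Agent.Strip051.PB.ExtD3

/-! # Certificates B19 (generated) -/

set_option linter.all false
set_option maxRecDepth 100000

namespace Pool.Agent.Strip051.G.I9688_9736.Tab.C.BB04

open Pool.Agent.Strip051.PB Pool.Agent.Strip051.PB.T
open Pool.Agent.Strip051.G.I9688_9736.Tab

noncomputable def f_pp_133 : ℕ → ℕ → ℕ → ℕ → Bool := onCell 536870912 536870912 0 1230186008 1040187392 5207648
    (rowB 3 eng mog cd0q1 cd4q3 pd3 0 false true true .dn 1 3 3 (qsf 536870912 536870912 0 1230186008 3) ndB0q1 ndB4q3 pcB3 Cut.none Ext.none)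

def k0_pp_133 : ∃ t, chk3 f_pp_133 t 1 1 1 = true :=
  ⟨(b (b (a (a (a (l 2965170747863) (l 1)) (l 1)) (l 1)) (l 1)) (l 1)), by decide +kernel⟩

theorem c_pp_133 : CertB 536870912 536870912 0 1230186008 1040187392 5207648 3 eng mog cd0q1 cd4q3 pd3 false true true .dn 1 3 3
    ndB0q1 ndB4q3 pcB3 Cut.none Ext.none :=
  certB0 (fam := false) (s1 := true) (s2 := true) (a := 1) (b := 3) (c := 3) (cn := .dn) (n1 := ndB0q1) (n2 := ndB4q3) (pc := pcB3) (cut := Cut.none) (xt := Ext.none) (P1 := 536870912) (W1 := 536870912) (P2 := 0) (W2 := 1230186008) (P3 := 1040187392) (W3 := 5207648) (N0 := 3) (En := eng) (mo := mog) (C1 := cd0q1) (C2 := cd4q3) (C3 := pd3)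
    rfl k0_pp_133

noncomputable def f_pp_202 : ℕ → ℕ → ℕ → ℕ → Bool := onCell 0 536870912 1073741824 536870912 1040187392 5207648
    (rowB 3 eng mog cd0q2 cd4q2 pd0 0 false true true .pp 2 0 2 (qsf 0 536870912 1073741824 536870912 0) ndB0q2 ndB4q2 pcB0 Cut.none Ext.none)

def k0_pp_202 : ∃ t, chk3 f_pp_202 t 1 1 1 = true :=
  ⟨(l 5), by decide +kernel⟩

theorem c_pp_202 : CertB 0 536870912 1073741824 536870912 1040187392 5207648 3 eng mog cd0q2 cd4q2 pd0 false true true .pp 2 0 2
    ndB0q2 ndB4q2 pcB0 Cut.none Ext.none :=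
  certB0 (fam := false) (s1 := true) (s2 := true) (a := 2) (b := 0) (c := 2) (cn := .pp) (n1 := ndB0q2) (n2 := ndB4q2) (pc := pcB0) (cut := Cut.none) (xt := Ext.none) (P1 := 0) (W1 := 536870912) (P2 := 1073741824) (W2 := 536870912) (P3 := 1040187392) (W3 := 5207648) (N0 := 3) (En := eng) (mo := mog) (C1 := cd0q2) (C2 := cd4q2) (C3 := pd0)
    rfl k0_pp_202

noncomputable def f_pp_203 : ℕ → ℕ → ℕ → ℕ → Bool := onCell 0 536870912 0 1230186008 1040187392 5207648
    (rowB 3 eng mog cd0q2 cd4q3 pd0 0 false true true .up 2 0 3 (qsf 0 536870912 0 1230186008 0) ndB0q2 ndB4q3 pcB0 Cut.none Ext.none)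

def k0_pp_203 : ∃ t, chk3 f_pp_203 t 1 1 1 = true :=
  ⟨(b (l 2) (a (b (l 2) (l 3)) (l 3))), by decide +kernel⟩

theorem c_pp_203 : CertB 0 536870912 0 1230186008 1040187392 5207648 3 eng mog cd0q2 cd4q3 pd0 false true true .up 2 0 3
    ndB0q2 ndB4q3 pcB0 Cut.none Ext.none :=
  certB0 (fam := false) (s1 := true) (s2 := true) (a := 2) (b := 0) (c := 3) (cn := .up) (n1 := ndB0q2) (n2 := ndB4q3) (pc := pcB0) (cut := Cut.none) (xt := Ext.none) (P1 := 0) (W1 := 536870912) (P2 := 0) (W2 := 1230186008) (P3 := 1040187392) (W3 := 5207648) (N0 := 3) (En := eng) (mo := mog) (C1 := cd0q2) (C2 := cd4q3) (C3 := pd0)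
    rfl k0_pp_203

noncomputable def cut_pp_213 : Cut := Cut.of [[⟨0, 1, 0, 15728640⟩, ⟨1, 1, 0, 15728640⟩, ⟨2, 2, 0, 524288⟩]]

noncomputable def f_pp_213 : ℕ → ℕ → ℕ → ℕ → Bool := onCell 0 536870912 0 1230186008 1040187392 5207648
    (rowB 3 eng mog cd0q2 cd4q3 pd1 0 false true true .pnn 2 1 3 (qsf 0 536870912 0 1230186008 1) ndB0q2 ndB4q3 pcB1 cut_pp_213 Ext.none)

def k0_pp_213 : ∃ t, chk3 f_pp_213 t 1 1 1 = true :=
  ⟨(b (a (l 3) (a (l 3) (b (a (l 3) (b (a (l 3) (a (l 3) (b (b (b (l 6) (l 3)) (l 3)) (l 3)))) (l 3))) (l 3)))) (a (b (l 3) (l 3)) (l 3))), by decide +kernel⟩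

theorem c_pp_213 : CertB 0 536870912 0 1230186008 1040187392 5207648 3 eng mog cd0q2 cd4q3 pd1 false true true .pnn 2 1 3
    ndB0q2 ndB4q3 pcB1 cut_pp_213 Ext.none :=
  certB0 (fam := false) (s1 := true) (s2 := true) (a := 2) (b := 1) (c := 3) (cn := .pnn) (n1 := ndB0q2) (n2 := ndB4q3) (pc := pcB1) (cut := cut_pp_213) (xt := Ext.none) (P1 := 0) (W1 := 536870912) (P2 := 0) (W2 := 1230186008) (P3 := 1040187392) (W3 := 5207648) (N0 := 3) (En := eng) (mo := mog) (C1 := cd0q2) (C2 := cd4q3) (C3 := pd1)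
    rfl k0_pp_213

noncomputable def f_pm_001 : ℕ → ℕ → ℕ → ℕ → Bool := onCell 0 536870912 536870912 536870912 1040187392 5207648
    (rowB 3 eng mog cd0q0 cd4q1 pd0 0 false true false .up 0 0 1 (qsf 0 536870912 536870912 536870912 0) ndB0q0 ndB4q1 pcB0 Cut.none Ext.none)

def k0_pm_001 : ∃ t, chk3 f_pm_001 t 1 1 1 = true :=
  ⟨(l 4), by decide +kernel⟩

theorem c_pm_001 : CertB 0 536870912 536870912 536870912 1040187392 5207648 3 eng mog cd0q0 cd4q1 pd0 false true false .up 0 0 1
    ndB0q0 ndB4q1 pcB0 Cut.none Ext.none :=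
  certB0 (fam := false) (s1 := true) (s2 := false) (a := 0) (b := 0) (c := 1) (cn := .up) (n1 := ndB0q0) (n2 := ndB4q1) (pc := pcB0) (cut := Cut.none) (xt := Ext.none) (P1 := 0) (W1 := 536870912) (P2 := 536870912) (W2 := 536870912) (P3 := 1040187392) (W3 := 5207648) (N0 := 3) (En := eng) (mo := mog) (C1 := cd0q0) (C2 := cd4q1) (C3 := pd0)
    rfl k0_pm_001

noncomputable def f_pm_011 : ℕ → ℕ → ℕ → ℕ → Bool := onCell 0 536870912 536870912 536870912 1040187392 5207648
    (rowB 3 eng mog cd0q0 cd4q1 pd1 0 false true false .pnn 0 1 1 (qsf 0 536870912 536870912 536870912 1) ndB0q0 ndB4q1 pcB1 Cut.none Ext.none)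

def k0_pm_011 : ∃ t, chk3 f_pm_011 t 1 1 1 = true :=
  ⟨(l 4), by decide +kernel⟩

theorem c_pm_011 : CertB 0 536870912 536870912 536870912 1040187392 5207648 3 eng mog cd0q0 cd4q1 pd1 false true false .pnn 0 1 1
    ndB0q0 ndB4q1 pcB1 Cut.none Ext.none :=
  certB0 (fam := false) (s1 := true) (s2 := false) (a := 0) (b := 1) (c := 1) (cn := .pnn) (n1 := ndB0q0) (n2 := ndB4q1) (pc := pcB1) (cut := Cut.none) (xt := Ext.none) (P1 := 0) (W1 := 536870912) (P2 := 536870912) (W2 := 536870912) (P3 := 1040187392) (W3 := 5207648) (N0 := 3) (En := eng) (mo := mog) (C1 := cd0q0) (C2 := cd4q1) (C3 := pd1)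
    rfl k0_pm_011

noncomputable def f_pm_012 : ℕ → ℕ → ℕ → ℕ → Bool := onCell 0 536870912 1073741824 536870912 1040187392 5207648
    (rowB 3 eng mog cd0q0 cd4q2 pd1 0 false true false .pnp 0 1 2 (qsf 0 536870912 1073741824 536870912 1) ndB0q0 ndB4q2 pcB1 Cut.none Ext.none)

def k0_pm_012 : ∃ t, chk3 f_pm_012 t 1 1 1 = true :=
  ⟨(l 4), by decide +kernel⟩

theorem c_pm_012 : CertB 0 536870912 1073741824 536870912 1040187392 5207648 3 eng mog cd0q0 cd4q2 pd1 false true false .pnp 0 1 2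
    ndB0q0 ndB4q2 pcB1 Cut.none Ext.none :=
  certB0 (fam := false) (s1 := true) (s2 := false) (a := 0) (b := 1) (c := 2) (cn := .pnp) (n1 := ndB0q0) (n2 := ndB4q2) (pc := pcB1) (cut := Cut.none) (xt := Ext.none) (P1 := 0) (W1 := 536870912) (P2 := 1073741824) (W2 := 536870912) (P3 := 1040187392) (W3 := 5207648) (N0 := 3) (En := eng) (mo := mog) (C1 := cd0q0) (C2 := cd4q2) (C3 := pd1)
    rfl k0_pm_012

noncomputable def f_pm_022 : ℕ → ℕ → ℕ → ℕ → Bool := onCell 0 536870912 1073741824 536870912 1040187392 5207648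
    (rowB 3 eng mog cd0q0 cd4q2 pd2 0 false true false .pp 0 2 2 (qsf 0 536870912 1073741824 536870912 2) ndB0q0 ndB4q2 pcB2 Cut.none Ext.none)

def k0_pm_022 : ∃ t, chk3 f_pm_022 t 1 1 1 = true :=
  ⟨(l 4), by decide +kernel⟩

theorem c_pm_022 : CertB 0 536870912 1073741824 536870912 1040187392 5207648 3 eng mog cd0q0 cd4q2 pd2 false true false .pp 0 2 2
    ndB0q0 ndB4q2 pcB2 Cut.none Ext.none :=
  certB0 (fam := false) (s1 := true) (s2 := false) (a := 0) (b := 2) (c := 2) (cn := .pp) (n1 := ndB0q0) (n2 := ndB4q2) (pc := pcB2) (cut := Cut.none) (xt := Ext.none) (P1 := 0) (W1 := 536870912) (P2 := 1073741824) (W2 := 536870912) (P3 := 1040187392) (W3 := 5207648) (N0 := 3) (En := eng) (mo := mog) (C1 := cd0q0) (C2 := cd4q2) (C3 := pd2)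
    rfl k0_pm_022

noncomputable def f_pm_023 : ℕ → ℕ → ℕ → ℕ → Bool := onCell 0 536870912 0 1230186008 1040187392 5207648
    (rowB 3 eng mog cd0q0 cd4q3 pd2 0 false true false .up 0 2 3 (qsf 0 536870912 0 1230186008 2) ndB0q0 ndB4q3 pcB2 Cut.none Ext.none)

def k0_pm_023 : ∃ t, chk3 f_pm_023 t 1 1 1 = true :=
  ⟨(a (b (l 2) (l 4)) (b (a (l 2) (b (a (l 2) (a (l 2) (b (b (l 13417496) (l 14017528)) (l 14794032)))) (a (l 4) (b (a (b (l 15697040) (l 4)) (b (l 15435768) (l 15586776))) (l 4))))) (l 4))), by decide +kernel⟩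

theorem c_pm_023 : CertB 0 536870912 0 1230186008 1040187392 5207648 3 eng mog cd0q0 cd4q3 pd2 false true false .up 0 2 3
    ndB0q0 ndB4q3 pcB2 Cut.none Ext.none :=
  certB0 (fam := false) (s1 := true) (s2 := false) (a := 0) (b := 2) (c := 3) (cn := .up) (n1 := ndB0q0) (n2 := ndB4q3) (pc := pcB2) (cut := Cut.none) (xt := Ext.none) (P1 := 0) (W1 := 536870912) (P2 := 0) (W2 := 1230186008) (P3 := 1040187392) (W3 := 5207648) (N0 := 3) (En := eng) (mo := mog) (C1 := cd0q0) (C2 := cd4q3) (C3 := pd2)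
    rfl k0_pm_023

noncomputable def f_pm_033 : ℕ → ℕ → ℕ → ℕ → Bool := onCell 1610612736 536870912 0 1230186008 1040187392 5207648
    (rowB 3 eng mog cd0q0 cd4q3 pd3 2 false true false .pnn 0 3 3 (qsf 0 536870912 0 1230186008 3) ndB0q0 ndB4q3 pcB3 Cut.none Ext.none)

def k0_pm_033 : ∃ t, chk3 f_pm_033 t 1 1 1 = true :=
  ⟨(b (a (a (b (a (b (l 16290824) (l 15939216)) (b (l 16091784) (l 16016432))) (a (b (a (l 15692472) (l 4)) (l 4)) (l 4))) (b (a (b (l 16092952) (l 4)) (l 4)) (l 4))) (l 4)) (l 4)), by decide +kernel⟩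

theorem c_pm_033 : CertB 0 536870912 0 1230186008 1040187392 5207648 3 eng mog cd0q0 cd4q3 pd3 false true false .pnn 0 3 3
    ndB0q0 ndB4q3 pcB3 Cut.none Ext.none :=
  certB2 (fam := false) (s1 := true) (s2 := false) (a := 0) (b := 3) (c := 3) (cn := .pnn) (n1 := ndB0q0) (n2 := ndB4q3) (pc := pcB3) (cut := Cut.none) (xt := Ext.none) (P1 := 0) (W1 := 536870912) (P2 := 0) (W2 := 1230186008) (P3 := 1040187392) (W3 := 5207648) (N0 := 3) (En := eng) (mo := mog) (C1 := cd0q0) (C2 := cd4q3) (C3 := pd3)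
    rfl (fun _ => rfl) k0_pm_033

noncomputable def f_pm_101 : ℕ → ℕ → ℕ → ℕ → Bool := onCell 536870912 536870912 536870912 536870912 1040187392 5207648
    (rowB 3 eng mog cd0q1 cd4q1 pd0 0 false true false .npn 1 0 1 (qsf 536870912 536870912 536870912 536870912 0) ndB0q1 ndB4q1 pcB0 Cut.none Ext.none)

def k0_pm_101 : ∃ t, chk3 f_pm_101 t 1 1 1 = true :=
  ⟨(l 4), by decide +kernel⟩

theorem c_pm_101 : CertB 536870912 536870912 536870912 536870912 1040187392 5207648 3 eng mog cd0q1 cd4q1 pd0 false true false .npn 1 0 1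
    ndB0q1 ndB4q1 pcB0 Cut.none Ext.none :=
  certB0 (fam := false) (s1 := true) (s2 := false) (a := 1) (b := 0) (c := 1) (cn := .npn) (n1 := ndB0q1) (n2 := ndB4q1) (pc := pcB0) (cut := Cut.none) (xt := Ext.none) (P1 := 536870912) (W1 := 536870912) (P2 := 536870912) (W2 := 536870912) (P3 := 1040187392) (W3 := 5207648) (N0 := 3) (En := eng) (mo := mog) (C1 := cd0q1) (C2 := cd4q1) (C3 := pd0)
    rfl k0_pm_101

noncomputable def f_pm_102 : ℕ → ℕ → ℕ → ℕ → Bool := onCell 536870912 536870912 0 536870912 1040187392 5207648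
    (rowB 3 eng mog cd0q1 cd4q2 pd0 1 false true false .npp 1 0 2 (qsf 536870912 536870912 1073741824 536870912 0) ndB0q1 ndB4q2 pcB0 Cut.none Ext.none)

def k0_pm_102 : ∃ t, chk3 f_pm_102 t 1 1 1 = true :=
  ⟨(a (l 4) (b (a (l 4) (b (a (l 4) (a (b (l 4) (a (l 4) (l 13551296))) (b (a (b (l 14429320) (l 14055192)) (b (l 14169520) (l 13809096))) (a (l 13556808) (l 13321520))))) (a (a (l 4) (b (l 4) (l 97400921559))) (a (b (a (l 13402088) (l 13202552)) (a (l 12927552) (l 12760856))) (b (a (l 13003808) (l 12783152)) (a (l 12584464) (l 12385696))))))) (a (b (l 4) (b (l 4) (a (l 4) (a (l 4) (l 12934312))))) (b (a (a (b (l 4) (l 12929584)) (b (l 12636440) (l 12608064))) (b (a (l 12330032) (b (b (l 12305864) (l 12238736)) (a (l 12275048) (a (b (l 12161056) (l 12086808)) (l 11923680))))) (a (b (l 12413600) (a (l 12422944) (l 12302608))) (a (b (l 12170208) (l 11987200)) (b (l 11764256) (l 11444664)))))) (a (b (a (l 12749240) (l 12553736)) (a (b (l 12721024) (l 12784376)) (b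 (a (l 12674312) (l 12579760)) (a (l 12772096) (l 12349568))))) (b (a (b (a (l 12424648) (l 12192464)) (a (l 12382960) (l 11903696))) (b (l 11367160) (l 10972016))) (a (b (a (l 12180384) (l 11527800)) (l 11272672)) (b (a (l 10864760) (l 10188144)) (a (l 10368792) (l 9647328)))))))))), by decide +kernel⟩

theorem c_pm_102 : CertB 536870912 536870912 1073741824 536870912 1040187392 5207648 3 eng mog cd0q1 cd4q2 pd0 false true false .npp 1 0 2
    ndB0q1 ndB4q2 pcB0 Cut.none Ext.none :=
  certB1 (fam := false) (s1 := true) (s2 := false) (a := 1) (b := 0) (c := 2) (cn := .npp) (n1 := ndB0q1) (n2 := ndB4q2) (pc := pcB0) (cut := Cut.none) (xt := Ext.none) (P1 := 536870912) (W1 := 536870912) (P2 := 1073741824) (W2 := 536870912) (P3 := 1040187392) (W3 := 5207648) (N0 := 3) (En := eng) (mo := mog) (C1 := cd0q1) (C2 := cd4q2) (C3 := pd0)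
    rfl (fun _ => rfl) k0_pm_102

noncomputable def f_pm_112 : ℕ → ℕ → ℕ → ℕ → Bool := onCell 536870912 536870912 1073741824 536870912 1040187392 5207648
    (rowB 3 eng mog cd0q1 cd4q2 pd1 0 false true false .dn 1 1 2 (qsf 536870912 536870912 1073741824 536870912 1) ndB0q1 ndB4q2 pcB1 Cut.none Ext.none)

def k0_pm_112 : ∃ t, chk3 f_pm_112 t 1 1 1 = true :=
  ⟨(a (l 4) (a (b (l 4) (b (a (l 4) (b (l 4) (a (l 4) (l 12917496)))) (a (l 4) (b (a (l 13013152) (l 13006576)) (a (l 13021248) (b (l 12987696) (l 13081928))))))) (b (l 1) (a (b (a (b (l 1) (l 12701872)) (l 1)) (b (a (b (l 12748888) (l 12830112)) (b (l 12590808) (l 12593312))) (a (b (l 12896928) (l 12853160)) (l 12532176)))) (b (l 1) (a (b (a (l 12357576) (l 1)) (l 12145528)) (b (l 1) (l 11743624)))))))), by decide +kernel⟩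

theorem c_pm_112 : CertB 536870912 536870912 1073741824 536870912 1040187392 5207648 3 eng mog cd0q1 cd4q2 pd1 false true false .dn 1 1 2
    ndB0q1 ndB4q2 pcB1 Cut.none Ext.none :=
  certB0 (fam := false) (s1 := true) (s2 := false) (a := 1) (b := 1) (c := 2) (cn := .dn) (n1 := ndB0q1) (n2 := ndB4q2) (pc := pcB1) (cut := Cut.none) (xt := Ext.none) (P1 := 536870912) (W1 := 536870912) (P2 := 1073741824) (W2 := 536870912) (P3 := 1040187392) (W3 := 5207648) (N0 := 3) (En := eng) (mo := mog) (C1 := cd0q1) (C2 := cd4q2) (C3 := pd1)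
    rfl k0_pm_112

noncomputable def cut_pm_113 : Cut := Cut.of [[⟨0, 1, 0, 15728640⟩, ⟨1, 1, 0, 15728640⟩, ⟨2, 2, 0, 524288⟩]]

noncomputable def f_pm_113 : ℕ → ℕ → ℕ → ℕ → Bool := onCell 536870912 536870912 0 1230186008 1040187392 5207648
    (rowB 3 eng mog cd0q1 cd4q3 pd1 0 false true false .nn 1 1 3 (qsf 536870912 536870912 0 1230186008 1) ndB0q1 ndB4q3 pcB1 cut_pm_113 Ext.none)

def k0_pm_113 : ∃ t, chk3 f_pm_113 t 2 1 1 = true :=
  ⟨(b (l 2) (a (b (l 2) (l 4)) (b (b (l 2) (a (l 2) (b (l 2) (a (l 2) (l 13668720))))) (b (a (l 4) (b (b (a (b (l 2) (l 13193216)) (l 13576440)) (a (b (l 13379896) (l 4)) (b (l 13566304) (a (l 13581496) (l 13649792))))) (a (l 4) (b (b (l 13727800) (l 13812072)) (l 14003488))))) (l 4))))), by decide +kernel⟩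

def k1_pm_113 : ∃ t, chk3 f_pm_113 t 6 1 1 = true :=
  ⟨(b (l 2) (b (b (a (l 2) (a (b (l 2) (l 14793784)) (b (b (a (l 2) (l 15332856)) (a (l 15210072) (l 15258800))) (b (l 15101120) (l 14976696))))) (a (b (a (l 14074168) (l 14305904)) (a (l 13897264) (l 14140016))) (b (a (l 14554736) (l 14812848)) (a (l 14384544) (l 14612784))))) (b (b (a (a (b (l 13815144) (b (l 13784704) (l 13649640))) (l 14021520)) (l 14317848)) (a (a (b (a (b (l 13777128) (l 13928056)) (b (l 13826784) (l 13899776))) (b (a (l 14042912) (l 14054328)) (a (l 14144144) (l 14175040)))) (b (b (l 13960680) (a (l 13925168) (l 13996624))) (a (l 14114096) (l 14093736)))) (b (l 14240784) (a (b (l 14125824) (l 14154400)) (l 14274496))))) (b (a (b (a (a (l 14236536) (l 14300312)) (b (l 14282184) (l 14397136))) (a (l 14410488) (l 14530736))) (b (a (l 14323232) (l 14321288)) (a (l 14552080) (l 14529648)))) (a (b (l 14604976) (l 14750560)) (a (b (l 14749744) (l 14913608)) (b (l 14779784) (l 14928048)))))))),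 by decide +kernel⟩

def k2_pm_113 : ∃ t, chk3 f_pm_113 t 7 1 1 = true :=
  ⟨(b (b (a (l 2) (a (l 2) (b (a (l 2) (a (l 2) (b (b (l 6) (l 16676048)) (l 16674272)))) (a (b (l 2) (l 16487312)) (b (l 16545952) (l 16653536)))))) (a (b (a (l 2) (a (l 2) (l 15825728))) (a (b (l 2) (l 15319968)) (b (l 15370864) (l 15257192)))) (b (a (a (l 15838608) (l 15883832)) (b (a (l 16266864) (l 16452384)) (a (l 15768616) (l 15854064)))) (a (a (l 15335200) (l 15403360)) (b (l 15556088) (l 15456184)))))) (b (a (b (a (b (l 15250376) (b (l 15238288) (l 15193360))) (b (l 15247104) (l 15250360))) (a (b (l 15029320) (l 14820632)) (b (a (l 15175824) (l 15213856)) (l 15006216)))) (b (a (a (b (l 15296696) (l 15291536)) (b (l 15355256) (l 15345424))) (b (l 15427376) (l 15413024))) (a (b (a (l 15256000) (l 15306000)) (a (l 15123032) (l 15185096))) (b (l 15370504) (a (l 15231136) (l 15284496)))))) (b (a (a (b (l 14620864) (l 14462136)) (b (l 14778000) (l 14599288))) (a (b (l 14946544) (l 14750496))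 (b (a (l 15054320) (l 15080808)) (l 14849440)))) (a (b (a (b (l 14402680) (l 14474864)) (b (l 14505640) (l 14500248))) (a (l 14818472) (l 14720944))) (b (a (l 14617760) (l 14699936)) (a (b (l 14621856) (l 14768192)) (b (l 14656776) (l 14700216)))))))), by decide +kernel⟩

theorem s3_pm_113 : ∃ t, chk3 f_pm_113 t 3 1 1 = true := ex3_a k1_pm_113 k2_pm_113

theorem s4_pm_113 : ∃ t, chk3 f_pm_113 t 1 1 1 = true := ex3_a k0_pm_113 s3_pm_113

theorem c_pm_113 : CertB 536870912 536870912 0 1230186008 1040187392 5207648 3 eng mog cd0q1 cd4q3 pd1 false true false .nn 1 1 3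
    ndB0q1 ndB4q3 pcB1 cut_pm_113 Ext.none :=
  certB0 (fam := false) (s1 := true) (s2 := false) (a := 1) (b := 1) (c := 3) (cn := .nn) (n1 := ndB0q1) (n2 := ndB4q3) (pc := pcB1) (cut := cut_pm_113) (xt := Ext.none) (P1 := 536870912) (W1 := 536870912) (P2 := 0) (W2 := 1230186008) (P3 := 1040187392) (W3 := 5207648) (N0 := 3) (En := eng) (mo := mog) (C1 := cd0q1) (C2 := cd4q3) (C3 := pd1)
    rfl s4_pm_113

noncomputable def cut_pm_123 : Cut := Cut.of [[⟨0, 1, 0, 15728640⟩, ⟨1, 1, 0, 15728640⟩, ⟨2, 2, 0, 524288⟩]]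

noncomputable def xt_pm_123 : Ext := extD3 3 ⟨4, 1, 1, 5, 33, 5, 163, 200, 81, 200, 1, 64⟩ eng cd0q1 cd4q3 pd2 false true false .npn 1 2 3 rfl ndB0q1 ndB4q3 pcB2

noncomputable def f_pm_123 : ℕ → ℕ → ℕ → ℕ → Bool := onCell 1073741824 536870912 0 1230186008 1040187392 5207648
    (rowB 3 eng mog cd0q1 cd4q3 pd2 2 false true false .npn 1 2 3 (qsf 536870912 536870912 0 1230186008 2) ndB0q1 ndB4q3 pcB2 cut_pm_123 xt_pm_123)

def k0_pm_123 : ∃ t, chk3 f_pm_123 t 4 2 1 = true :=
  ⟨(a (b (a (b (b (a (a (b (l 6) (b (l 143202902504341583) (l 16743176))) (b (b (l 16753424) (l 143318900992753743)) (l 16775048))) (b (a (a (l 143179606642917583) (l 16747456)) (l 16725640)) (l 16723112))) (a (a (l 16758552) (l 16762696)) (a (l 16716112) (l 16675048)))) (a (b (a (l 16767848) (l 16737944)) (a (l 16708248) (l 16555952))) (b (a (l 16688520) (l 16581944)) (b (l 16373248) (l 16154552))))) (b (a (b (l 16673320) (l 16618424)) (l 16450984)) (b (a (l 16447872) (l 16330712)) (a (l 16095056)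 (l 15980976))))) (b (a (b (b (a (a (l 16365456) (l 16106880)) (l 15927664)) (a (a (l 15989792) (l 15830816)) (l 15703336))) (a (b (l 15625808) (l 15389112)) (b (l 15488080) (l 15286504)))) (b (a (b (l 15798616) (l 15593208)) (l 15586752)) (a (l 15290304) (l 15188160)))) (a (b (a (b (l 15185200) (l 15012248)) (l 15012576)) (a (l 14798000) (l 14708072))) (b (a (l 14921176) (l 14811040)) (a (l 14599752) (l 14471392)))))) (b (b (a (b (l 16391624) (l 16382896)) (l 16105704)) (a (b (l 16164032) (l 15805360)) (b (l 15916264) (l 15541144)))) (b (a (b (l 15411120) (l 15006104)) (b (l 15134600) (l 14714696))) (b (a (a (l 14682640) (l 14538560)) (a (l 14381616) (l 14214384))) (a (a (l 14325576) (l 14166304)) (b (l 14003232) (a (l 14114024) (b (l 13802232) (l 13801992))))))))), by decide +kernel⟩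

def k1_pm_123 : ∃ t, chk3 f_pm_123 t 5 2 1 = true :=
  ⟨(b (a (b (a (l 15961592) (l 15693040)) (a (b (l 15638136) (l 15243920)) (b (l 15337312) (l 14923688)))) (b (a (l 15410304) (l 15118280)) (a (l 14675312) (l 14467920)))) (a (b (a (b (l 14821472) (l 14384976)) (b (l 14484664) (l 14031792))) (b (a (a (l 14039080) (l 13859488)) (b (l 13683928) (a (b (l 13616408) (l 13595880)) (b (l 13500584) (l 13507216))))) (a (b (a (b (l 13779976) (l 13716328)) (b (l 13633344) (l 13646576))) (l 13723312)) (a (l 13660344) (l 13682752))))) (b (b (a (l 14134336) (l 13778472)) (a (l 13734424) (b (l 13420096) (a (b (l 13333880) (l 13283384)) (b (l 13229928) (l 13300152)))))) (a (b (b (a (b (l 13467520) (l 13408864)) (b (l 13343256) (l 13389888))) (l 13500552)) (l 13706200)) (b (l 13527248) (l 13976264)))))), by decide +kernel⟩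

def k2_pm_123 : ∃ t, chk3 f_pm_123 t 3 2 1 = true :=
  ⟨(a (b (a (b (l 14486080) (a (l 14132656) (l 13800528))) (b (l 14088056) (b (l 13568096) (a (a (l 13318344) (l 13201824)) (b (l 13124056) (l 13157392)))))) (a (b (b (a (l 13292920) (b (l 13204208) (a (b (l 13125248) (l 13116696)) (l 13155512)))) (a (b (a (b (l 13218552) (l 13183664)) (l 13191488)) (l 13372128)) (l 13488864))) (a (b (l 13743320) (l 14276688)) (b (l 14051528) (l 14657168)))) (b (a (b (a (b (b (l 13059592) (l 13092864)) (l 13295472)) (l 13307368)) (l 13813752)) (l 13831680)) (a (b (l 14438720) (b (l 14932592) (l 15156072))) (b (l 14885296) (l 15192984)))))) (b (a (b (a (l 13669048) (l 13437616)) (b (a (a (l 13220768) (l 13162032)) (b (l 13144576) (l 13349936))) (a (l 13361192) (l 13816056)))) (b (a (b (l 13343864) (l 12973000)) (b (l 13245880) (l 13518240))) (a (l 13994720) (l 14525320)))) (a (b (a (l 14337384) (b (l 14481496) (l 15158520))) (b (a (l 16337359383) (l 15476464)) (l 4))) (b (a (b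 (l 15005240) (l 15491240)) (b (l 15451832) (l 1))) (l 4))))), by decide +kernel⟩

def k3_pm_123 : ∃ t, chk3 f_pm_123 t 1 3 1 = true :=
  ⟨(b (b (a (a (a (a (b (a (l 14583320) (b (l 14521744) (l 14408904))) (b (a (b (l 14472456) (l 14403544)) (l 14288760)) (a (l 14261480) (l 14140712)))) (b (b (a (l 14393376) (l 14245512)) (a (l 14270568) (l 14137008))) (a (l 14103488) (l 14028584)))) (a (b (b (a (l 14098792) (l 13971952)) (a (l 14030032) (l 13956976))) (a (l 13984248) (l 13966816))) (b (a (l 13896960) (l 13861168)) (a (l 13971096) (l 13997056))))) (a (a (b (a (l 13853096) (l 13873168)) (a (l 14048320) (l 14126080))) (b (a (l 13922712) (l 14001704)) (a (l 14232632) (l 14367048)))) (b (a (l 14167592) (l 14470240)) (a (b (l 14496744) (l 14659920)) (b (l 14792608) (l 4)))))) (a (b (a (a (b (l 14705744) (l 14918008)) (b (l 15038640) (l 4))) (l 4)) (a (a (l 14977664) (l 4)) (l 4))) (l 4))) (a (b (a (a (a (a (l 14002440) (l 13945800)) (a (l 13923144) (l 13932024))) (a (a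 (l 13967416) (l 14023968)) (a (l 14094800) (l 14179792)))) (a (a (a (l 14276632) (l 14380216)) (a (l 14486784) (l 14588888))) (l 4))) (a (a (a (b (l 13768520) (l 13648184)) (a (l 13790888) (l 13886760))) (a (b (l 14039384) (l 14076352)) (a (l 14215232) (l 14303504)))) (l 4))) (l 4))) (b (a (a (a (b (a (b (a (l 13505272) (l 13621264)) (l 13582960)) (a (l 13791736) (l 4))) (l 4)) (l 4)) (l 4)) (l 1)) (l 4))), by decide +kernel⟩

theorem s4_pm_123 : ∃ t, chk3 f_pm_123 t 2 2 1 = true := ex3_a k0_pm_123 k1_pm_123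

theorem s5_pm_123 : ∃ t, chk3 f_pm_123 t 1 2 1 = true := ex3_a s4_pm_123 k2_pm_123

theorem s6_pm_123 : ∃ t, chk3 f_pm_123 t 1 1 1 = true := ex3_b s5_pm_123 k3_pm_123

theorem c_pm_123 : CertB 536870912 536870912 0 1230186008 1040187392 5207648 3 eng mog cd0q1 cd4q3 pd2 false true false .npn 1 2 3
    ndB0q1 ndB4q3 pcB2 cut_pm_123 xt_pm_123 :=
  certB2 (fam := false) (s1 := true) (s2 := false) (a := 1) (b := 2) (c := 3) (cn := .npn) (n1 := ndB0q1) (n2 := ndB4q3) (pc := pcB2) (cut := cut_pm_123) (xt := xt_pm_123) (P1 := 536870912) (W1 := 536870912) (P2 := 0) (W2 := 1230186008) (P3 := 1040187392) (W3 := 5207648) (N0 := 3) (En := eng) (mo := mog) (C1 := cd0q1) (C2 := cd4q3) (C3 := pd2)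
    rfl (fun _ => rfl) s6_pm_123

noncomputable def f_pm_133 : ℕ → ℕ → ℕ → ℕ → Bool := onCell 536870912 536870912 0 1230186008 1040187392 5207648
    (rowB 3 eng mog cd0q1 cd4q3 pd3 0 false true false .dn 1 3 3 (qsf 536870912 536870912 0 1230186008 3) ndB0q1 ndB4q3 pcB3 Cut.none Ext.none)

def k0_pm_133 : ∃ t, chk3 f_pm_133 t 1 1 1 = true :=
  ⟨(b (b (a (a (a (b (l 16508296) (l 1)) (l 1)) (l 1)) (l 1)) (l 1)) (l 1)), by decide +kernel⟩

theorem c_pm_133 : CertB 536870912 536870912 0 1230186008 1040187392 5207648 3 eng mog cd0q1 cd4q3 pd3 false true false .dn 1 3 3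
    ndB0q1 ndB4q3 pcB3 Cut.none Ext.none :=
  certB0 (fam := false) (s1 := true) (s2 := false) (a := 1) (b := 3) (c := 3) (cn := .dn) (n1 := ndB0q1) (n2 := ndB4q3) (pc := pcB3) (cut := Cut.none) (xt := Ext.none) (P1 := 536870912) (W1 := 536870912) (P2 := 0) (W2 := 1230186008) (P3 := 1040187392) (W3 := 5207648) (N0 := 3) (En := eng) (mo := mog) (C1 := cd0q1) (C2 := cd4q3) (C3 := pd3)
    rfl k0_pm_133

noncomputable def f_pm_202 : ℕ → ℕ → ℕ → ℕ → Bool := onCell 0 536870912 0 536870912 1040187392 5207648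
    (rowB 3 eng mog cd0q2 cd4q2 pd0 1 false true false .pp 2 0 2 (qsf 0 536870912 1073741824 536870912 0) ndB0q2 ndB4q2 pcB0 Cut.none Ext.none)

def k0_pm_202 : ∃ t, chk3 f_pm_202 t 4 4 1 = true :=
  ⟨(b (b (b (a (l 14538912) (l 14371392)) (b (a (l 14425680) (l 14241464)) (a (l 14387896) (l 14221632)))) (b (b (a (l 14350528) (l 14160672)) (l 14186264)) (a (b (l 14168112) (a (l 14110640) (l 14028328))) (l 13966280)))) (b (a (b (a (b (a (b (l 14056960) (l 14090800)) (l 13986600)) (a (b (l 13965680) (l 13935096)) (b (l 13913512) (l 13864752)))) (l 13880408)) (a (b (c (l 13831760) (l 13816760)) (l 13800696)) (a (a (b (l 13759856) (l 13685312)) (b (l 13736848) (b (l 13664584) (l 13624176)))) (l 13645936)))) (l 13686528)) (a (a (b (b (l 13763384) (a (a (b (l 13821912) (a (l 13818120) (l 13799720))) (l 13762728)) (l 13683752))) (a (b (a (l 13777256) (b (l 13752032) (l 13736296))) (l 13723888)) (b (l 13663584) (a (b (l 13725168) (l 13666808)) (l 13626544))))) (b (b (a (l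 13614512) (a (b (l 13553360) (l 13529096)) (b (l 13529232) (l 13484536)))) (l 13525776)) (l 13465656))) (b (a (a (b (l 13480952) (a (b (l 13417448) (l 13382840)) (l 13377688))) (l 13405224)) (l 13370320)) (a (a (b (b (l 13337080) (l 13322416)) (l 13302792)) (b (b (l 13281712) (l 13384752)) (a (l 13215360) (b (l 13178824) (l 13146816))))) (l 13160704)))))), by decide +kernel⟩

def k1_pm_202 : ∃ t, chk3 f_pm_202 t 4 10 1 = true :=
  ⟨(b (b (a (a (b (a (l 13689576) (a (l 13643784) (b (a (l 13626704) (l 13605832)) (l 13600368)))) (l 13625312)) (a (b (b (l 13529328) (l 13530680)) (a (b (l 13634632) (l 13537176)) (b (l 13495776) (l 13498168)))) (l 13403248))) (a (b (l 13223112) (l 13211008)) (a (b (a (b (l 13076976) (l 13062176)) (b (l 13052176) (l 13010720))) (l 13014824)) (b (l 13012912) (a (b (l 12947248) (l 12914304)) (l 12910928)))))) (a (a (b (l 13594688) (l 13567208)) (b (a (a (l 13516688) (b (l 13487736) (l 13477264))) (b (l 13402744) (a (a (l 13450376) (l 13422944))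 (l 13372736)))) (a (l 13472576) (a (l 13419176) (b (l 13378432) (l 13420840)))))) (b (b (a (l 13207152) (a (l 13007536) (a (l 12905776) (l 12846704)))) (l 13071112)) (l 13071664)))) (a (a (b (b (l 13542808) (l 13521384)) (a (a (b (l 13553376) (a (l 13540936) (l 13528736))) (l 13510976)) (l 13462024))) (b (b (a (l 13447096) (l 13376976)) (l 13392584)) (l 13364096))) (a (a (b (b (a (b (l 13323200) (l 13321904)) (l 13254784)) (a (l 13307352) (b (l 13269088) (l 13266832)))) (l 13260656)) (b (l 13155600) (b (a (b (l 13216280) (l 13213712)) (l 13146568)) (a (l 13204840) (b (l 13164904) (l 13162552)))))) (b (b (l 12933776) (l 12942640)) (l 12972040))))), by decide +kernel⟩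

def k2_pm_202 : ∃ t, chk3 f_pm_202 t 4 11 1 = true :=
  ⟨(a (b (a (b (a (a (l 13509768) (b (a (l 13497624) (l 13483896)) (l 13474984))) (b (l 13441312) (a (l 13449288) (l 13414352)))) (a (l 13473048) (a (b (l 13436152) (l 13428352)) (b (l 13407888) (l 13400240))))) (b (l 13336272) (l 13319624))) (a (b (a (l 13458080) (l 13402392)) (l 13425792)) (b (a (a (b (l 13366136) (l 13359808)) (l 13333656)) (l 13279400)) (a (a (l 13358824) (b (l 13330456) (l 13331328))) (b (l 13281392) (a (l 13303264) (l 13268464))))))) (b (a (b (l 13198848) (l 13182800)) (b (b (a (a (b (l 13115048) (l 13113288)) (l 13047888)) (l 12925920)) (a (a (l 13109832) (b (l 13066728) (l 13065840))) (l 12959072))) (a (l 13077592) (b (a (b (l 13019944) (l 13020120)) (l 12953648)) (a (l 13020056) (l 13098744)))))) (b (a (l 13174904) (l 13031232)) (a (l 13177656) (l 13031712))))), by decide +kernel⟩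

def k3_pm_202 : ∃ t, chk3 f_pm_202 t 5 4 1 = true :=
  ⟨(b (b (b (a (l 14234808) (a (l 14148504) (b (l 14137168) (l 14063560)))) (b (a (b (l 14140808) (l 14116368)) (a (l 14042656) (l 13994320))) (a (l 14083056) (a (l 13993248) (l 13941520))))) (b (b (a (b (l 14053040) (l 14025360)) (a (l 13945384) (l 13890488))) (a (l 13963232) (l 13846104))) (a (l 13836976) (l 13706704)))) (b (a (a (l 13601704) (l 13551480)) (a (l 13505496) (l 13463752))) (a (l 13214904) (a (l 13163312) (l 13134120))))), by decide +kernel⟩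

def k4_pm_202 : ∃ t, chk3 f_pm_202 t 5 5 1 = true :=
  ⟨(b (a (b (b (l 12929528) (a (a (b (b (l 12822136) (l 12780096)) (a (l 12752048) (b (l 12722040) (l 12685728)))) (l 12734248)) (l 12723816))) (a (b (a (l 12717448) (b (a (b (l 12621776) (l 12596824)) (l 12586744)) (b (a (l 12596760) (l 12526792)) (l 12558624)))) (l 12651008)) (a (b (b (l 12577856) (a (l 12487504) (l 12475280))) (b (a (l 12440144) (b (l 12403248) (l 12369176))) (l 12406904))) (b (l 12523208) (b (l 12371832) (a (b (l 12305856) (l 12282024)) (l 12272648))))))) (b (a (l 12781760) (l 12766544)) (b (l 12516288) (l 12323368)))) (a (b (b (a (l 12692168) (b (a (l 12423088) (a (l 12290160) (b (l 12212536) (l 12202448)))) (l 12354552))) (a (l 12762040) (l 12395648))) (a (b (b (a (a (l 12929608) (l 12863600)) (l 12726256)) (a (a (l 12936920) (l 12887552)) (l 12774488))) (a (l 12917656) (b (a (l 12847064) (l 12776376)) (a (l 12859792) (l 12807840))))) (b (l 12468912) (l 12567008)))) (b (a (b (a (b (l 12176816)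 (a (l 12126304) (l 12080432))) (l 12121632)) (a (b (l 12095056) (l 12124008)) (b (a (b (l 11997240) (l 11967424)) (l 11968904)) (a (l 11974512) (b (l 11902960) (l 11882392)))))) (b (l 12130616) (b (l 11980216) (l 11881856)))) (a (b (l 12072952) (l 12156400)) (b (a (b (a (b (l 11811592) (l 11801968)) (l 11776672)) (a (l 11827432) (l 11747656))) (b (l 11780904) (l 11686400))) (b (a (l 11810656) (a (l 11645360) (l 11590544))) (l 11737592))))))), by decide +kernel⟩

def k5_pm_202 : ∃ t, chk3 f_pm_202 t 4 6 1 = true :=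
  ⟨(b (b (a (a (b (a (l 13455848) (l 13402656)) (b (l 13437520) (l 13445728))) (b (a (l 13348896) (a (l 13305376) (b (l 13276976) (l 13280736)))) (l 13334144))) (a (a (b (l 13228408) (a (l 13262472) (l 13234288))) (l 13164672)) (b (l 13042800) (l 13064040)))) (a (a (a (b (a (b (l 138137130135) (a (l 170349382871) (l 13500216))) (l 13475208)) (a (c (l 173570569815) (l 225110219991)) (b (l 140284618919) (a (l 13533304) (l 13504488))))) (b (l 13435760) (l 13464600))) (b (l 13355248) (l 13384616))) (a (a (b (l 13268368) (l 13302080)) (b (a (l 13227904) (l 13190176)) (a (l 13257840) (l 13228184)))) (b (l 13095008) (l 13201552))))) (b (a (a (a (b (a (l 3) (l 220278341319)) (l 3)) (b (a (b (l 141895252311) (l 171423186071)) (l 13488216)) (a (l 214372797079) (b (l 13519632) (l 173033839623))))) (b (l 13421888) (a (l 13493312) (l 13440104)))) (a (l 13438408) (a (b (a (l 13236008) (l 13206264)) (l 13266544)) (b (l 13145192) (a (l 13222328) (l 13182728)))))) (b (a (a (l 268059965623)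 (b (b (l 13519136) (l 2)) (l 2))) (a (l 13409960) (a (l 13323464) (l 13258336)))) (l 2)))), by decide +kernel⟩

def k6_pm_202 : ∃ t, chk3 f_pm_202 t 5 6 1 = true :=
  ⟨(b (b (a (a (l 12895384) (b (a (b (a (l 12769784) (l 12692304)) (a (l 12788048) (l 12732784))) (l 12573096)) (a (l 12780680) (b (a (l 12696720) (l 12609184)) (a (l 12720016) (l 12661448)))))) (b (a (l 12258392) (l 11811952)) (a (l 12376696) (l 11924104)))) (a (b (l 12844152) (l 12887896)) (a (b (a (b (a (l 12626824) (l 12529560)) (a (l 12654216) (l 12592648))) (l 12399456)) (a (l 12654640) (b (a (l 12558696) (l 12450552)) (a (l 12591984) (l 12524680))))) (l 12122784)))) (a (a (b (l 13049984) (a (b (l 13189592) (l 2)) (l 13138144))) (b (l 12874256) (l 13003416))) (b (a (l 12667704) (b (a (a (b (l 12490256) (l 12532872)) (l 12418320)) (l 12229456)) (a (l 12541456) (a (b (l 12418424) (l 12475704)) (l 12339144))))) (b (a (l 12774080) (l 12520248)) (l 12740048))))), by decide +kernel⟩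

def k7_pm_202 : ∃ t, chk3 f_pm_202 t 2 7 1 = true :=
  ⟨(a (l 2) (b (a (l 2) (b (l 12863352) (l 2))) (l 2))), by decide +kernel⟩

def k8_pm_202 : ∃ t, chk3 f_pm_202 t 6 2 1 = true :=
  ⟨(b (b (b (b (a (a (b (l 14095368) (l 14021888)) (b (a (l 14067920) (l 14052144)) (l 13986744))) (a (b (a (l 14038176) (l 14026088)) (a (l 13964368) (l 13952048))) (a (b (a (b (a (l 14038648) (l 14038720)) (a (l 14000200) (l 13999968))) (l 14020112)) (a (l 13942544) (a (l 13941848) (l 13941560)))) (b (l 14023880) (l 13943856))))) (a (b (a (l 13952040) (l 13915992)) (a (l 13895368) (l 13854960))) (a (b (a (l 13892760) (l 13879776)) (l 13820632)) (a (b (a (l 13871104) (a (l 13867200) (l 13864728))) (l 13798680)) (b (l 13867488) (a (a (l 13789824) (l 13790288)) (l 13789648))))))) (b (a (b (a (l 13840720) (l 13796200)) (a (l 13769680) (l 13726088))) (a (b (l 13757248) (l 13687912)) (a (b (l 13731480) (l 13662656)) (b (a (l 13719192) (l 13716784)) (a (l 13651480) (l 13643392)))))) (a (a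 (l 13656560) (l 13616280)) (a (b (l 13616880) (l 13545696)) (a (l 13558520) (l 13545632)))))) (b (a (a (l 13426432) (b (l 13468472) (l 13318552))) (a (b (l 13438488) (l 13294184)) (b (a (l 13419440) (l 13409104)) (l 13275992)))) (a (a (l 13088072) (l 13067720)) (b (a (l 13147832) (l 13136088)) (a (l 12998840) (l 12994152)))))) (b (b (a (b (l 12856096) (l 12688680)) (b (a (l 12846632) (l 12849544)) (a (l 12690656) (l 12701648)))) (a (b (l 12516456) (l 12338976)) (b (a (l 12530384) (l 12549856)) (l 12525648)))) (b (a (b (l 12155776) (l 11966400)) (b (l 12422384) (a (l 12018424) (l 12065288)))) (a (b (l 11770344) (a (b (l 11598016) (a (a (l 11499616) (l 11487192)) (l 11503968))) (l 11591368))) (b (l 11904328) (l 11677152)))))), by decide +kernel⟩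

def k9_pm_202 : ∃ t, chk3 f_pm_202 t 7 2 1 = true :=
  ⟨(b (a (b (b (b (a (b (a (l 14031080) (l 14041152)) (l 13954088)) (a (b (l 14055008) (l 13970264)) (b (l 14079000) (l 13992504)))) (a (a (l 13830752) (l 13836864)) (a (l 13846536) (l 13866104)))) (a (a (b (b (l 13716136) (l 13644136)) (a (b (l 13571096) (l 13502552)) (b (l 13569856) (l 13500856)))) (l 13586176)) (a (l 13590672) (l 13625776)))) (b (a (a (b (b (l 13431952) (l 13367080)) (l 13266584)) (b (a (l 13417856) (l 13394400)) (a (l 13261072) (l 13261744)))) (a (b (l 13394376) (l 13260336)) (l 13332672))) (a (b (l 13132008) (l 12997616)) (a (b (a (l 13131328) (l 13133128)) (l 13004560)) (b (l 13134248) (l 13013768)))))) (b (a (b (b (a (b (l 14112464) (l 14024120)) (b (l 14141512) (l 14051232))) (a (l 13894920) (l 13919120))) (a (l 13648896) (l 13667184))) (b (b (a (l 14112112) (l 14131064)) (a (l 13931664) (l 13946176))) (a (l 13673688) (l 13682200)))) (a (a (b (l 13368944) (l 13079528)) (b (l 13358176)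 (l 13081224))) (a (b (l 13356424) (l 13070784)) (b (l 13356576) (l 13062088)))))) (a (b (b (a (b (l 12861192) (l 12722048)) (a (l 12811672) (b (l 12893416) (l 12771128)))) (a (b (l 12579520) (l 12432960)) (b (l 12626920) (l 12491200)))) (b (a (b (l 12281728) (l 12125184)) (b (l 12351304) (l 12206536))) (a (b (l 11962704) (l 11793664)) (l 11958000)))) (b (a (a (b (b (l 12900720) (l 12791424)) (b (l 12678800) (l 12558592))) (b (l 12838424) (l 12627752))) (a (l 12706064) (l 12682792))) (a (b (a (l 12361560) (b (l 12475000) (l 12353408))) (l 12096472)) (b (a (l 12415760) (l 12386040)) (a (b (l 12275856) (l 12151672)) (l 12223640))))))), by decide +kernel⟩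

def k10_pm_202 : ∃ t, chk3 f_pm_202 t 6 3 1 = true :=
  ⟨(b (b (b (a (a (b (a (b (a (l 11489512) (l 11535936)) (l 11475856)) (b (l 11397560) (a (l 11489640) (l 11296072)))) (b (b (l 11374784) (l 11413616)) (l 11457944))) (a (b (l 11370784) (b (l 11212280) (a (l 11148352) (l 11110880)))) (l 11295184))) (a (l 11326104) (l 11470168))) (a (a (l 11619616) (b (a (b (a (l 11183216) (l 11062568)) (l 11176264)) (b (l 11028824) (a (l 10977072) (l 10927888)))) (b (l 11101208) (l 11169784)))) (b (l 11073896) (a (a (b (l 10847504) (a (l 10805904) (l 10746760))) (l 10830008)) (l 10911432))))) (a (b (a (l 11926336) (l 11364840)) (a (b (a (l 12324344) (l 12053584)) (a (a (l 12483232) (l 12408256)) (l 12249208))) (l 11719800))) (b (a (b (b (a (l 10793736) (l 10668272)) (a (l 10864632) (a (l 10633032) (l 10567144)))) (l 10827432)) (a (b (l 10656864) (b (l 10491328) (a (l 10456928) (l 10389800)))) (l 10606304))) (a (l 11094600) (b (a (b (l 10451464) (l 10533840)) (b (l 10317376) (a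 (l 10278048) (l 10214272)))) (l 10501312)))))) (b (b (a (a (a (l 12578672) (a (l 12471208) (l 12393264))) (a (b (l 12165600) (l 12310528)) (l 11969432))) (a (l 11496784) (l 10802640))) (a (l 2) (a (b (l 11823328) (l 2)) (l 11251664)))) (l 2))), by decide +kernel⟩

def k11_pm_202 : ∃ t, chk3 f_pm_202 t 7 3 1 = true :=
  ⟨(b (a (b (b (a (l 11547568) (l 11630920)) (a (l 11141120) (l 11272048))) (b (a (l 10717192) (l 10896640)) (a (a (b (l 10326776) (b (l 10147880) (a (l 10096752) (l 10043176)))) (l 10296312)) (l 10456544)))) (b (b (a (l 11799176) (b (a (l 12016192) (l 12096600)) (l 11919856))) (a (l 11492520) (l 11699600))) (a (b (l 11128664) (l 10722472)) (b (l 11375512) (l 11011184))))) (a (b (b (a (b (a (b (l 10094088) (l 10178312)) (b (l 9985384) (a (l 9914992) (l 9880032)))) (b (l 10103184) (l 10194224))) (a (b (l 10029704) (b (l 9834472) (l 9744704))) (l 10034864))) (a (l 10484608) (b (a (b (l 9878928) (l 9798488)) (b (l 9704328) (l 9594304))) (a (l 9977688) (a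 (l 9658384) (b (l 9495800) (l 9505144))))))) (b (a (l 10980472) (l 10144128)) (l 2))) (b (b (a (l 10267392) (l 10600496)) (a (b (l 9889872) (a (l 9536184) (l 9715200))) (l 10137176))) (a (b (a (b (a (l 9478256) (b (l 9366184) (l 9335728))) (l 9609712)) (b (l 9435344) (a (l 9308744) (l 9233840)))) (a (l 10027936) (l 9581096))) (b (l 9614728) (b (a (a (b (l 9115696) (l 9141048)) (l 9126424)) (l 9314576)) (a (l 9244816) (a (b (l 9023592) (l 8986536)) (l 9077728))))))))), by decide +kernel⟩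

theorem s12_pm_202 : ∃ t, chk3 f_pm_202 t 3 3 1 = true := ex3_a k10_pm_202 k11_pm_202

theorem s13_pm_202 : ∃ t, chk3 f_pm_202 t 3 2 1 = true := ex3_a k8_pm_202 k9_pm_202

theorem s14_pm_202 : ∃ t, chk3 f_pm_202 t 3 1 1 = true := ex3_b s13_pm_202 s12_pm_202

theorem s15_pm_202 : ∃ t, chk3 f_pm_202 t 2 6 1 = true := ex3_a k5_pm_202 k6_pm_202

theorem s16_pm_202 : ∃ t, chk3 f_pm_202 t 2 3 1 = true := ex3_b s15_pm_202 k7_pm_202

theorem s17_pm_202 : ∃ t, chk3 f_pm_202 t 5 2 1 = true := ex3_b k3_pm_202 k4_pm_202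

theorem s18_pm_202 : ∃ t, chk3 f_pm_202 t 4 5 1 = true := ex3_b k1_pm_202 k2_pm_202

theorem s19_pm_202 : ∃ t, chk3 f_pm_202 t 4 2 1 = true := ex3_b k0_pm_202 s18_pm_202

theorem s20_pm_202 : ∃ t, chk3 f_pm_202 t 2 2 1 = true := ex3_a s19_pm_202 s17_pm_202

theorem s21_pm_202 : ∃ t, chk3 f_pm_202 t 2 1 1 = true := ex3_b s20_pm_202 s16_pm_202

theorem s22_pm_202 : ∃ t, chk3 f_pm_202 t 1 1 1 = true := ex3_a s21_pm_202 s14_pm_202

theorem c_pm_202 : CertB 0 536870912 1073741824 536870912 1040187392 5207648 3 eng mog cd0q2 cd4q2 pd0 false true false .pp 2 0 2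
    ndB0q2 ndB4q2 pcB0 Cut.none Ext.none :=
  certB1 (fam := false) (s1 := true) (s2 := false) (a := 2) (b := 0) (c := 2) (cn := .pp) (n1 := ndB0q2) (n2 := ndB4q2) (pc := pcB0) (cut := Cut.none) (xt := Ext.none) (P1 := 0) (W1 := 536870912) (P2 := 1073741824) (W2 := 536870912) (P3 := 1040187392) (W3 := 5207648) (N0 := 3) (En := eng) (mo := mog) (C1 := cd0q2) (C2 := cd4q2) (C3 := pd0)
    rfl (fun _ => rfl) s22_pm_202

noncomputable def f_pm_203 : ℕ → ℕ → ℕ → ℕ → Bool := onCell 0 536870912 0 1230186008 1040187392 5207648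
    (rowB 3 eng mog cd0q2 cd4q3 pd0 0 false true false .up 2 0 3 (qsf 0 536870912 0 1230186008 0) ndB0q2 ndB4q3 pcB0 Cut.none Ext.none)

def k0_pm_203 : ∃ t, chk3 f_pm_203 t 1 1 1 = true :=
  ⟨(b (l 2) (b (l 2) (b (a (b (l 2) (a (a (l 3) (a (l 3) (b (l 2) (a (l 376513645351) (l 221357894359))))) (a (b (l 2) (l 303968905223)) (a (l 16572864) (l 2))))) (l 2)) (a (a (b (a (l 3) (b (a (l 389935367879) (l 197198634311)) (a (l 228873925511) (l 16505224)))) (a (a (l 414094355063) (b (l 388861351703) (l 220283778631))) (b (a (l 16425936) (l 16536976)) (a (l 16444336) (l 16572208))))) (b (b (a (l 16575736) (a (l 16505648) (l 16386856))) (a (a (l 16609960) (l 16561960)) (a (l 16454720) (l 16302816)))) (a (b (a (l 16625296) (l 16523048)) (a (l 16596568) (l 16461320))) (b (l 16300696) (l 16225872))))) (a (b (a (b (l 16146408) (l 16049080)) (b (l 2) (a (l 15757352) (l 15508304)))) (a (b (l 15951672) (a (l 15958152) (b (l 15763408) (l 15623552)))) (b (a (b (l 15672688) (l 15584008))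 (b (l 15383792) (l 15207608))) (a (b (l 15476112) (l 15278328)) (l 14895592))))) (a (b (b (l 2) (a (b (l 2) (l 15129760)) (l 2))) (b (a (l 14810664) (l 14273552)) (a (l 14369776) (l 13800856)))) (b (l 2) (b (a (l 13700336) (l 2)) (a (l 13195904) (b (l 12642720) (l 12428656))))))))))), by decide +kernel⟩

theorem c_pm_203 : CertB 0 536870912 0 1230186008 1040187392 5207648 3 eng mog cd0q2 cd4q3 pd0 false true false .up 2 0 3
    ndB0q2 ndB4q3 pcB0 Cut.none Ext.none :=
  certB0 (fam := false) (s1 := true) (s2 := false) (a := 2) (b := 0) (c := 3) (cn := .up) (n1 := ndB0q2) (n2 := ndB4q3) (pc := pcB0) (cut := Cut.none) (xt := Ext.none) (P1 := 0) (W1 := 536870912) (P2 := 0) (W2 := 1230186008) (P3 := 1040187392) (W3 := 5207648) (N0 := 3) (En := eng) (mo := mog) (C1 := cd0q2) (C2 := cd4q3) (C3 := pd0)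
    rfl k0_pm_203

end Pool.Agent.Strip051.G.I9688_9736.Tab.C.BB04

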