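import Pool.Agent.Strip051.G.I9688_9736.Tab
import Pool.Agent.Strip051.PB.ExtD3

/-! # Certificates B20 (generated) -/

set_option linter.all false
set_option maxRecDepth 100000

namespace Pool.Agent.Strip051.G.I9688_9736.Tab.C.BB04

open Pool.Agent.Strip051.PB Pool.Agent.Strip051.PB.T
open Pool.Agent.Strip051.G.I9688_9736.Tab

noncomputable def cut_pm_213 : Cut := Cut.of [[⟨0, 1, 0, 15728640⟩, ⟨1, 1, 0, 15728640⟩, ⟨2, 2, 0, 524288⟩]]

noncomputable def xt_pm_213 : Ext := extD3 3 ⟨4, 1, 1, 5, 33, 5, 163, 200, 81, 200, 1, 64⟩ eng cd0q2 cd4q3 pd1 false true false .pnn 2 1 3 rfl ndB0q2 ndB4q3 pcB1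

noncomputable def f_pm_213 : ℕ → ℕ → ℕ → ℕ → Bool := onCell 0 536870912 0 1230186008 1040187392 5207648
    (rowB 3 eng mog cd0q2 cd4q3 pd1 0 false true false .pnn 2 1 3 (qsf 0 536870912 0 1230186008 1) ndB0q2 ndB4q3 pcB1 cut_pm_213 xt_pm_213)

def k0_pm_213 : ∃ t, chk3 f_pm_213 t 2 2 1 = true :=
  ⟨(l 3), by decide +kernel⟩

def k1_pm_213 : ∃ t, chk3 f_pm_213 t 6 4 1 = true :=
  ⟨(l 3), by decide +kernel⟩

def k2_pm_213 : ∃ t, chk3 f_pm_213 t 6 10 1 = true :=
  ⟨(a (l 3) (a (l 3) (b (b (l 3) (a (l 3) (b (l 3) (a (l 3) (l 219747703047))))) (a (b (l 3) (a (b (l 3) (a (l 241222504423) (l 209010242999))) (b (a (l 228874481015) (l 203104662519)) (b (l 178408614231) (l 16603160))))) (b (a (b (l 229411374423) (a (l 218673934791) (l 191830390487))) (b (l 197199092343) (l 16606048))) (b (a (l 16627456) (l 16585664)) (l 16576144))))))), by decide +kernel⟩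

def k3_pm_213 : ∃ t, chk3 f_pm_213 t 6 11 1 = true :=
  ⟨(a (b (l 3) (a (l 3) (b (a (l 3) (a (l 3) (b (l 3) (a (b (l 3) (a (l 251422977687) (l 220821312231))) (b (a (l 243906790039) (l 213841995271)) (l 188072202535)))))) (a (a (l 3) (b (l 3) (a (b (l 3) (l 257328516135)) (b (l 250349198919) (b (l 218136936519) (l 191830272183)))))) (b (a (a (b (l 3) (a (l 3) (l 235853688199))) (b (a (l 258402294487) (l 228874371095)) (a (l 206325802647) (l 16575920)))) (a (b (l 192904035831) (l 16571368)) (l 16569720))) (a (a (b (a (l 212768241255) (l 16573736)) (l 16566616)) (l 16564552)) (l 16555136))))))) (b (a (b (a (l 3) (a (b (l 3) (b (l 3) (l 239074972151))) (b (b (l 249275559911) (l 230485069415)) (a (b (l 226190095223) (l 16606056)) (l 16604640))))) (a (a (b (l 3) (a (l 3) (l 254107338103))) (b (b (l 3) (l 247128024583)) (a (b (l 246054297255) (l 209547065351)) (b (l 204715232343) (l 16591904))))) (a (b (a (b (l 235316890071) (l 198809659783)) (b (l 202030870967) (l 16596976))) (l 16588592)) (b (l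 16593048) (l 16577760))))) (b (a (a (b (b (l 196125326919) (l 16605064)) (l 16592056)) (l 16579840)) (l 16544920)) (a (l 16553736) (l 16504152)))) (a (b (a (b (a (a (b (l 258939188135) (a (l 236927452375) (l 207936439191))) (b (a (l 229948135719) (l 201493993911)) (l 16586800))) (l 16567496)) (a (b (l 16585656) (l 16573792)) (l 16567400))) (l 16559744)) (a (b (l 16555696) (l 16537344)) (l 16524360))) (b (l 16492456) (l 16459208))))), by decide +kernel⟩

def k4_pm_213 : ∃ t, chk3 f_pm_213 t 14 4 1 = true :=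
  ⟨(b (l 3) (a (b (l 3) (b (l 3) (a (l 3) (a (l 3) (b (l 346986180839) (a (l 268602997255) (l 181093063943))))))) (b (a (l 3) (b (a (l 3) (b (l 3) (a (l 3) (b (l 3) (a (l 3) (l 371145475463)))))) (a (b (l 3) (a (b (l 3) (a (l 3) (l 308868397431))) (b (a (l 3) (b (l 314237122231) (l 170892579031))) (l 178945630007)))) (b (a (b (l 3) (a (l 315847745111) (b (l 247665140199) (l 16711184)))) (b (a (b (l 3) (l 250349500519)) (b (a (l 246054540039) (l 16721456)) (l 16717064))) (l 177335075159))) (a (b (l 171429482599) (l 16694304)) (l 16694392)))))) (a (b (a (b (l 3) (a (l 3) (l 296520326391))) (b (a (l 3) (b (l 374903510615) (a (l 259476247095) (l 168745086519)))) (a (b (l 204715400615) (l 16671880)) (l 16671424)))) (a (b (a (b (l 266992408247) (l 177871844455)) (l 177871857031)) (l 16642032)) (l 16657688))) (b (a (b (a (b (a (l 204715425191) (l 16692672)) (l 16683368)) (l 16683216)) (l 16661640)) (b (l 16674000) (l 16646624))) (a (l 16618712) (l 16599160))))))), by decide +kernel⟩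

def k5_pm_213 : ∃ t, chk3 f_pm_213 t 30 16 1 = true :=
  ⟨(l 3), by decide +kernel⟩

def k6_pm_213 : ∃ t, chk3 f_pm_213 t 60 17 1 = true :=
  ⟨(b (l 3) (a (l 3) (b (l 3) (a (l 3) (b (a (l 3) (b (l 3) (a (l 3) (b (l 3) (a (l 3) (b (l 3) (l 3967694540119049722464272415))))))) (a (b (l 3) (a (b (l 3) (a (l 3) (b (l 3) (l 142975389095)))) (b (a (l 3) (l 2613697622150633573269012511)) (l 2942525445085801782391324703)))) (b (a (b (l 3) (a (b (l 3) (l 2371912458227715847228473375)) (l 2787782940175152131616849951))) (b (a (b (l 3) (l 2671726061492155221268725791)) (l 2971539664756589441349517343)) (l 3319710300805594947083091999))) (a (b (l 3155296389337990535914749983) (l 16755208)) (l 16756568))))))))), by decide +kernel⟩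

def k7_pm_213 : ∃ t, chk3 f_pm_213 t 122 34 1 = true :=
  ⟨(l 3), by decide +kernel⟩

def k8_pm_213 : ∃ t, chk3 f_pm_213 t 123 68 1 = true :=
  ⟨(a (l 3) (b (l 3) (a (l 3) (b (l 3) (a (l 3) (b (l 3) (a (l 3) (b (l 3) (l 7681514657975309157000544479))))))))), by decide +kernel⟩

def k9_pm_213 : ∃ t, chk3 f_pm_213 t 246 69 1 = true :=
  ⟨(b (l 3) (a (b (l 3) (a (l 3) (b (l 3) (a (l 3) (b (l 370071807127) (a (b (l 3) (l 232632852871)) (l 169818956503))))))) (b (a (l 3) (b (l 7652500438304623134145216607) (a (b (l 3) (a (l 6482260244917663536139026463) (a (l 4644692999103441552956866655) (l 169282088135)))) (b (a (b (l 3) (l 244444017015)) (b (l 4557650340091182754819670111) (l 16767608))) (l 16767720))))) (a (b (a (b (l 3) (a (l 3) (b (l 3) (l 4489950494192777883404337183)))) (b (a (l 3) (b (l 355039423543) (l 240149047559))) (a (b (l 234243468231) (l 16766632)) (l 16766984)))) (a (b (a (b (l 352891938871) (l 167671473447)) (l 16766504)) (l 16766720)) (l 16767440))) (l 3465381715010584787940630559))))),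 by decide +kernel⟩

def k10_pm_213 : ∃ t, chk3 f_pm_213 t 247 69 1 = true :=
  ⟨(b (a (b (l 3) (a (b (l 3) (a (l 3) (b (l 3) (a (l 3) (b (l 356113168263) (c (l 241759664183) (l 241222793655))))))) (b (a (l 3) (b (l 424295774999) (a (a (l 355576298327) (b (l 3) (l 242833406567))) (a (b (l 4547978933534234179185279071) (l 16768944)) (l 186461961191))))) (a (b (a (c (l 6491931651474564695340335327) (l 6472588838360724031475646559)) (b (a (l 356650039863) (l 243370277015)) (l 178945767463))) (l 3329381707362710579788087391)) (l 16768136))))) (b (a (b (l 3) (a (b (l 3) (a (l 3) (a (l 426443259703) (b (l 3) (l 4673707218774145099275747423))))) (b (a (l 3) (b (l 368998073015) (a (a (l 355039429351) (l 243370279127)) (l 177335157207)))) (a (b (a (l 355039429015) (l 4576993153204971604203798623)) (l 16769552)) (l 16769920))))) (b (a (b (l 3) (a (a (l 3) (a (l 424295777319) (b (l 3) (l 4528636120420373792832618591)))) (b (a (l 425906390375) (a (l 6462917431803776280474665055) (l 238538441863))) (l 3222996235236576758051209311))))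 (b (a (b (l 3) (a (l 355576300679) (a (l 246591505767) (l 175187674631)))) (a (b (b (l 357723785335) (l 236927829591)) (l 16770384)) (l 186461964055))) (l 195051898119))) (a (b (a (a (b (l 4451264867965042061136592991) (l 16769912)) (l 16770032)) (l 16770408)) (l 16770664)) (l 16771416)))) (a (b (a (b (a (b (c (l 6472588838360708088558305503) (l 6462917431803793529062195295)) (a (l 237464697943) (l 16769192))) (l 185925090695)) (l 16769688)) (l 16770424)) (l 16770920)) (l 16772416)))) (a (b (a (b (a (b (a (l 3) (a (l 423758902279) (b (l 3) (l 232632857319)))) (a (b (l 6491931651474582287525232735) (l 169282089111)) (l 185388216855))) (b (a (b (l 4654364405660341269047181407) (l 16768096)) (l 16768464)) (l 16768704))) (l 16768936)) (l 16770408)) (l 16771304)) (l 16753312))), by decide +kernel⟩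

def k11_pm_213 : ∃ t, chk3 f_pm_213 t 61 35 1 = true :=
  ⟨(a (b (a (b (l 3) (a (l 3) (b (l 3) (a (l 3) (b (l 6491931651474509513585983519) (a (b (l 3) (l 147807240951)) (l 166060853143))))))) (b (a (l 3) (b (a (l 3) (l 7594471998963148146665750559)) (a (b (l 3) (a (b (l 3) (a (l 3) (l 229948494535))) (b (a (l 354502546263) (l 4344879395839023825543217183)) (l 172503306167)))) (b (a (b (l 3) (a (l 6491931651474611768173166623) (l 156934050759))) (b (a (l 4296522363054454876353855519) (l 169818953559)) (l 16764752))) (l 188072563559))))) (a (b (a (b (l 3) (a (l 3) (b (l 3) (a (l 353428801703) (l 145659758039))))) (b (a (l 3) (b (l 353428803143) (a (l 4248165330269815970730557471) (l 169818950711)))) (a (b (a (l 217063590855) (l 158007789767)) (l 180556367943)) (l 16763536)))) (a (b (a (b (a (l 3) (l 222432299031)) (l 162839626135)) (l 177872012439)) (l 16763048)) (l 16764360))) (b (l 3339653349354377755916410911) (l 16766984))))) (a (b (a (b (a (l 3) (b (l 3) (a (l 3) (b (l 219747940935) (l 157470915719)))))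 (a (b (a (l 3) (b (l 3) (l 140827916023))) (l 2874825599187441235047628831)) (l 3145624982781145108214628383))) (b (a (a (b (b (l 3) (l 4103094231915959864448532511)) (l 171429558135)) (l 3068253730325850278879707167)) (b (l 185925074391) (l 16763008))) (l 16763400))) (a (b (a (l 143842887116193823) (l 16761736)) (l 16757296)) (l 16760872))) (b (l 16746656) (l 16764624)))) (b (a (b (a (b (a (b (a (l 3) (b (l 3) (a (l 3) (l 4383565022066703229132308511)))) (b (a (a (l 3) (b (l 3) (l 227264142967))) (l 172503309079)) (c (l 3155296389338078428138422303) (l 3135953576224397880654675999)))) (b (a (b (a (l 353428806871) (b (l 236390949943) (l 16765648))) (l 181630115527)) (l 16766456)) (l 16766880))) (l 600752087667818022674463)) (l 16749152)) (l 16750608)) (l 16756472)) (l 16758552))), by decide +kernel⟩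

def k12_pm_213 : ∃ t, chk3 f_pm_213 t 62 32 1 = true :=
  ⟨(l 3), by decide +kernel⟩

def k13_pm_213 : ∃ t, chk3 f_pm_213 t 124 66 1 = true :=
  ⟨(l 3), by decide +kernel⟩

def k14_pm_213 : ∃ t, chk3 f_pm_213 t 248 67 1 = true :=
  ⟨(l 3), by decide +kernel⟩

def k15_pm_213 : ∃ t, chk3 f_pm_213 t 249 134 1 = true :=
  ⟨(l 3), by decide +kernel⟩

def k16_pm_213 : ∃ t, chk3 f_pm_213 t 498 135 1 = true :=
  ⟨(l 3), by decide +kernel⟩

def k17_pm_213 : ∃ t, chk3 f_pm_213 t 499 270 1 = true :=
  ⟨(a (l 3) (b (l 3) (a (l 3) (b (l 3) (a (l 3) (b (l 3) (a (l 3) (b (l 3) (a (l 3) (b (l 3) (a (l 3) (b (l 363092504359) (l 243370291047))))))))))))), by decide +kernel⟩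

def k18_pm_213 : ∃ t, chk3 f_pm_213 t 998 271 1 = true :=
  ⟨(b (l 3) (a (b (l 3) (b (l 3) (a (l 3) (a (l 433959462999) (a (b (l 3) (b (l 358797535687) (a (l 243907160167) (l 16774456)))) (b (a (l 3) (a (l 369534953991) (b (l 3) (l 233706613031)))) (l 185388230839))))))) (a (b (l 3) (b (a (a (l 3) (b (l 3) (a (c (l 357723793927) (l 358260665063)) (b (l 368998082919) (l 172503329159))))) (a (a (b (l 3) (b (l 243907160439) (l 16774608))) (b (l 369534954199) (l 16774632))) (b (b (a (l 3) (a (l 354502568455) (l 244444031559))) (l 176261425607)) (l 16774728)))) (b (a (a (b (a (l 356113180935) (l 238538451239)) (l 16774208)) (l 16774624)) (l 16774816)) (l 16774840)))) (b (b (a (l 3) (a (l 3) (a (l 3) (b (l 3) (a (l 368461212711) (b (l 3) (l 242833419079))))))) (b (a (l 433959463655) (a (b (l 364703116263) (a (a (l 358797535927) (l 246054644471)) (l 16774728))) (c (l 185925102343) (l 184851360743)))) (a (a (a (l 428053883687) (b (l 3) (l 240685935159))) (a (b (a (l 362018761303) (l 235854097047)) (l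 16774688)) (l 184851360407))) (l 16774880)))) (l 200420616695))))), by decide +kernel⟩

def k19_pm_213 : ∃ t, chk3 f_pm_213 t 999 542 1 = true :=
  ⟨(a (b (l 3) (b (a (l 3) (a (l 435033205879) (b (a (l 3) (a (l 3) (a (l 368998084151) (b (l 3) (l 242296548695))))) (a (b (l 364703116791) (a (b (l 360945020103) (l 167671491847)) (l 16775000))) (c (l 185925102887) (l 184851361271)))))) (b (a (l 3) (a (a (a (l 428590755127) (b (l 3) (l 243907161239))) (a (b (b (l 3) (l 239612193959)) (l 16774960)) (l 184851360935))) (l 16775144))) (a (a (l 3) (b (b (l 433422593223) (a (l 3) (a (l 3) (l 243907161175)))) (a (l 364703116519) (c (l 176798297111) (l 175724555511))))) (l 199883746359))))) (a (b (b (l 3) (b (a (l 3) (a (c (l 426443271767) (l 426980142887)) (b (a (l 3) (a (l 360945020455) (l 242296548967))) (c (c (l 176798297671) (l 176261426871)) (l 175724556039))))) (b (a (l 434496335399) (b (a (a (l 360945020375) (l 16775104)) (l 16775208)) (l 191830683191))) (a (a (l 3) (a (c (l 358797536631) (l 359334407767))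 (l 171966459319))) (l 16775240))))) (b (a (b (a (b (a (l 362018762039) (b (l 358797536647) (l 16775040))) (l 186998844759)) (l 16775160)) (l 16775248)) (l 16775432)) (l 16775616))) (b (b (b (a (l 435033206519) (a (a (b (l 3) (b (l 360945020631) (l 167134621463))) (b (l 360945020647) (l 16775256))) (a (c (b (l 250349612871) (l 16775264)) (l 180019523591)) (l 16775344)))) (a (a (a (l 429664497479) (b (l 3) (b (l 359334407815) (l 16775168)))) (a (b (b (l 3) (l 239075323575)) (l 16775216)) (c (l 185388232423) (l 184314490823)))) (l 16775408))) (l 201494359607)) (l 16775976)))), by decide +kernel⟩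

def k20_pm_213 : ∃ t, chk3 f_pm_213 t 999 543 1 = true :=
  ⟨(a (b (a (b (a (b (a (l 3) (a (c (l 364166245415) (l 364166245639)) (b (l 367924341623) (l 171966458791)))) (a (b (a (l 362018761511) (l 243907160903)) (l 186998844231)) (l 16774896))) (a (a (a (b (b (l 358797536199) (l 16774856)) (l 16774976)) (l 191830682615)) (l 16774656)) (l 16775080))) (l 16775192)) (l 16775560)) (l 16775912)) (l 16776648)), by decide +kernel⟩

def k21_pm_213 : ∃ t, chk3 f_pm_213 t 250 66 1 = true :=
  ⟨(l 3), by decide +kernel⟩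

def k22_pm_213 : ∃ t, chk3 f_pm_213 t 251 132 1 = true :=
  ⟨(a (l 3) (b (l 3) (a (l 3) (b (l 3) (a (l 3) (b (l 3) (b (l 3) (b (l 3) (b (l 3) (b (l 3) (a (l 3) (a (l 3) (a (l 3) (a (l 3) (a (b (l 3) (a (l 3) (l 235317231591))) (a (b (l 364703121367) (l 180556398599)) (l 176798302215))))))))))))))))), by decide +kernel⟩

def k23_pm_213 : ∃ t, chk3 f_pm_213 t 502 266 1 = true :=
  ⟨(l 3), by decide +kernel⟩

def k24_pm_213 : ∃ t, chk3 f_pm_213 t 1004 267 1 = true :=
  ⟨(b (l 3) (a (l 3) (a (l 3) (b (l 3) (a (b (l 3) (b (l 3) (b (a (l 3) (a (a (l 432885726791) (b (l 3) (c (l 243907165959) (l 243370295191)))) (a (b (c (l 360945024743) (l 361481895799)) (l 16777072)) (c (l 183777623895) (l 182703882215))))) (a (a (c (l 429127630471) (l 430201372359)) (a (b (l 3) (c (l 247128391447) (l 246591520679))) (b (b (l 3) (l 239075327815)) (l 16777240)))) (l 196662525799))))) (b (b (l 3) (a (l 3) (b (l 3) (a (l 3) (b (l 3) (a (c (l 360945024743) (l 361481895799)) (c (l 253033971495) (l 166597754807))))))))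 (b (a (a (b (l 3) (b (l 363629379255) (a (b (l 364166250279) (l 160692174679)) (l 183240752951)))) (a (b (l 3) (b (c (l 247128391447) (l 246054649767)) (l 16777264))) (b (b (l 3) (b (l 3) (l 239075327831))) (l 16776944)))) (b (b (a (a (l 364166250183) (c (l 243907165959) (l 243370295191))) (l 16777096)) (l 192904429367)) (l 16777352))) (l 16776792)))))))), by decide +kernel⟩

def k25_pm_213 : ∃ t, chk3 f_pm_213 t 2010 534 1 = true :=
  ⟨(l 3), by decide +kernel⟩

def k26_pm_213 : ∃ t, chk3 f_pm_213 t 2011 1068 1 = true :=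
  ⟨(b (l 3) (b (l 3) (b (l 3) (b (l 3) (a (l 3) (a (l 3) (a (l 3) (a (l 3) (a (c (l 361481895719) (c (l 362555637719) (l 363092508711))) (b (l 236927844231) (l 16776936))))))))))), by decide +kernel⟩

def k27_pm_213 : ∃ t, chk3 f_pm_213 t 2011 1069 1 = true :=
  ⟨(a (b (l 3) (a (b (l 3) (b (l 3) (a (l 3) (b (a (l 3) (a (c (l 361481895703) (l 362018766743)) (b (l 237464715127) (l 16777256)))) (a (a (l 365239992119) (b (l 362555637607) (l 170892722071))) (l 195051913015)))))) (a (b (b (l 3) (b (l 3) (a (l 3) (a (l 3) (b (l 3) (l 237464715127)))))) (b (b (a (c (l 427517017831) (l 367924346743)) (a (c (l 249275875143) (l 245517778887)) (l 16776936))) (b (a (a (l 364703121239) (l 170892722071)) (l 16777288)) (l 190220074823))) (l 16776696))) (b (b (b (l 3) (a (l 3) (a (c (l 361481895703) (l 362018766759)) (b (l 237464715143) (l 16777256))))) (b (a (a (l 365239992135) (b (l 362555637607) (l 170355851159))) (l 195051913015)) (l 192904429415))) (l 16776120))))) (a (b (b (l 3) (b (a (l 3) (b (a (l 3)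 (a (c (l 361481895719) (l 362018766759)) (b (l 237464715143) (l 16776928)))) (a (a (l 365239992135) (b (l 362555637607) (l 170355851159))) (l 195051913031)))) (a (a (c (l 430738243271) (c (l 431811985191) (l 432348856183))) (a (b (l 3) (c (l 249275875143) (l 245517778903))) (b (b (l 3) (l 237464715143)) (l 16776944)))) (c (l 197199396695) (l 196125655015))))) (b (b (b (a (b (a (a (l 364703121239) (l 170355851159)) (l 16777296)) (l 190220074823)) (l 16777408)) (l 16777064)) (l 16774848)) (l 16772384))) (b (b (b (b (a (l 3) (a (a (l 368461217623) (b (l 362555637623) (l 169818980263))) (l 195051913031))) (a (b (l 3) (a (l 3) (a (l 3) (l 236927844231)))) (c (l 193441300279) (l 192367558583)))) (a (a (b (c (l 428053888759) (l 367924346759)) (a (b (l 364703121255) (c (l 246054649687) (l 245517778903))) (l 182167011175))) (a (b (c (l 249275875159) (l 245517778903)) (l 16777296)) (l 16777136))) (l 16776072))) (l 16777144)) (l 16777560)))), by decide +kernel⟩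

def k28_pm_213 : ∃ t, chk3 f_pm_213 t 2010 1070 1 = true :=
  ⟨(a (a (l 3) (b (l 3) (b (l 3) (b (b (l 3) (a (l 3) (a (l 3) (a (c (l 360945024759) (l 362018766727)) (c (l 252497100599) (l 166597754823)))))) (b (a (l 3) (a (a (l 364703121111) (c (l 243907165975) (l 242833424295))) (l 195051912983))) (a (a (l 3) (a (l 3) (b (l 3) (l 238538456935)))) (l 192904429383))))))) (a (b (l 3) (b (b (a (l 3) (a (a (l 433959468727) (b (l 3) (c (l 243907165991) (l 242833424311)))) (a (b (c (l 360945024775) (l 362018766727)) (l 190220074839)) (c (l 183777623927) (l 182703882231))))) (a (a (c (l 430201372327) (l 431275114215)) (a (b (l 3) (c (l 246591520551) (l 246054649783))) (b (b (l 3) (l 238001586023)) (l 16776928)))) (l 196662525831))) (b (b (b (a (a (a (l 364166250311) (l 171429592951)) (l 16777280)) (l 16777376)) (l 198810009367)) (l 16776720)) (l 16774832)))) (b (b (b (l 3) (b (l 3) (a (l 3) (a (l 3) (a (c (l 361481895687) (l 362018766743)) (b (l 238001586039) (l 16777248))))))) (b (b (a (l 3) (a (a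 (l 365239992119) (b (l 362018766679) (l 170892722055))) (l 195051912999))) (a (a (l 3) (a (l 3) (b (l 3) (l 238001586023)))) (l 192904429399))) (a (b (a (c (l 426980146903) (l 367387475815)) (a (c (l 249812746039) (l 245517778887)) (l 16776928))) (b (a (a (l 364166250311) (l 171429592967)) (l 16777280)) (l 190756945719))) (l 16776056)))) (l 207936814503)))), by decide +kernel⟩

def k29_pm_213 : ∃ t, chk3 f_pm_213 t 2010 1071 1 = true :=
  ⟨(a (b (a (a (b (l 3) (b (a (c (l 429664501399) (l 430738243287)) (a (b (l 3) (c (l 247128391447) (l 246054649767))) (b (b (l 3) (l 238538456919)) (l 16777248)))) (b (a (a (b (l 364166250295) (l 160692174695)) (l 183240752951)) (l 16777288)) (l 16776648)))) (b (b (l 3) (a (a (l 433422597719) (b (l 3) (c (l 243907165975) (l 242833424295)))) (a (b (c (l 360945024759) (l 361481895815)) (l 16777080)) (c (l 183777623911) (l 182703882231))))) (l 200420621975))) (b (b (a (b (a (c (l 426443275975) (l 364166250327)) (a (c (l 246591520551) (l 246054649783)) (l 16777248)))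 (a (a (b (l 364166250295) (l 160155303783)) (l 182703882039)) (l 16777288))) (l 16776048)) (l 16776744)) (l 16772312))) (l 16775072)) (l 16777368)), by decide +kernel⟩

def k30_pm_213 : ∃ t, chk3 f_pm_213 t 2011 535 1 = true :=
  ⟨(a (a (b (b (a (b (b (a (c (l 430738243255) (l 431811985143)) (a (b (l 3) (c (l 249275875127) (l 245517778887))) (b (b (l 3) (l 238001586039)) (l 16776936)))) (b (b (a (a (l 364703121239) (l 170892722055)) (l 16777288)) (l 190756945719)) (l 16776664))) (l 16774832)) (c (l 204178718535) (l 203104976839))) (l 16777560)) (l 16776976)) (l 16777104)) (l 16776712)), by decide +kernel⟩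

def k31_pm_213 : ∃ t, chk3 f_pm_213 t 1006 532 1 = true :=
  ⟨(l 3), by decide +kernel⟩

def k32_pm_213 : ∃ t, chk3 f_pm_213 t 2012 533 1 = true :=
  ⟨(a (l 3) (a (l 3) (b (l 3) (b (l 3) (a (b (l 3) (b (a (l 3) (a (l 3) (b (l 3) (b (l 3) (c (l 239612198759) (l 239075327975)))))) (b (a (c (l 428590759703) (l 367924346775)) (a (c (l 248739004279) (c (l 244980907991) (l 244444037127))) (l 16777120))) (b (a (a (l 365239992199) (l 169282109367)) (l 16777312)) (c (l 190756945799) (l 189683204007)))))) (b (b (l 3) (b (l 3) (a (l 3) (a (c (l 362018766663) (b (l 3) (l 360945024983))) (a (b (l 363629379479) (l 16777104)) (l 179482656727)))))) (b (b (a (a (l 368461217639) (b (c (l 362555637591) (l 363629379607)) (l 168745238455))) (l 194515042151)) (c (l 193441300295) (l 192367558599))) (l 16776088)))))))), by decide +kernel⟩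

def k33_pm_213 : ∃ t, chk3 f_pm_213 t 4026 533 1 = true :=
  ⟨(a (a (b (l 3) (b (l 3) (b (b (a (c (l 436643823511) (c (l 437717565431) (l 438791307319))) (a (b (l 3) (c (l 248739004279) (c (l 247665262551) (l 244444037143)))) (b (b (l 3) (c (l 240149069751) (l 238538457063))) (l 16777128)))) (b (b (a (a (l 365239992199) (l 168745238471)) (l 16777312)) (c (l 190756945799) (l 189683204023))) (l 16777016))) (l 16774856)))) (b (l 3) (b (b (l 3) (b (l 3) (b (a (l 3) (a (c (l 362018766663) (c (l 363092508663) (l 363092508727))) (a (b (l 363092508567) (l 16777104)) (l 179482656727)))) (a (a (l 435033210743) (b (c (l 363092508583) (l 363092508631)) (l 168745238471))) (l 194515042151))))) (c (l 204715589495) (l 203641847799))))) (b (l 3) (b (a (b (a (l 3) (a (l 3) (b (l 3) (b (l 3) (b (l 3) (c (l 239075327863) (l 239075328055))))))) (b (b (a (c (l 429127630631) (l 368461217703)) (a (c (l 248202133383) (c (l 248202133543) (l 244444037143))) (l 197199396855))) (b (a (a (l 365239992199) (l 168745238471))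 (l 16777312)) (c (l 190756945799) (l 189683204023)))) (l 16777048))) (b (b (b (l 3) (a (l 3) (a (c (l 362018766679) (c (l 363092508679) (l 363092508727))) (a (b (l 363629379495) (l 16777112)) (l 178945785815))))) (b (a (a (l 435033210743) (b (c (l 363629379511) (l 363629379543)) (l 168208367559))) (l 194515042151)) (c (l 193441300311) (l 192367558615)))) (l 16776144))) (l 16774944)))), by decide +kernel⟩

def k34_pm_213 : ∃ t, chk3 f_pm_213 t 4027 533 1 = true :=
  ⟨(a (b (b (l 3) (b (l 3) (b (a (l 3) (b (a (l 3) (a (c (l 362018766679) (c (l 363092508679) (l 363629379655))) (a (c (l 246054649735) (l 242296553463)) (l 178945785831)))) (a (a (l 435033210743) (b (c (l 362555637639) (l 364166250535)) (l 168208367559))) (l 194515042167)))) (a (a (a (l 3) (c (l 430738243351) (l 431811985303))) (a (b (l 3) (b (a (l 3) (l 235317231543)) (l 179482656727))) (b (b (l 3) (c (l 239612198855) (l 238538457079))) (l 16777176)))) (c (l 197199396759) (l 196125655047)))))) (b (b (b (b (b (a (a (a (l 365239992215)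 (l 168208367559)) (l 16777320)) (l 16777416)) (c (l 199346880455) (l 198810009671))) (l 16777088)) (l 16774872)) (l 16772360)) (l 16777304))) (b (b (b (l 3) (b (l 3) (b (l 3) (a (l 3) (a (l 3) (a (a (l 3) (b (l 3) (l 234780360631))) (a (c (l 246054649735) (l 242296553479)) (l 178945785831)))))))) (b (a (b (a (l 3) (a (l 3) (b (l 3) (b (l 3) (c (l 239075327879) (l 238001586167)))))) (b (a (c (l 429664501559) (l 431275114407)) (a (b (a (l 3) (l 234780360631)) (l 178945785815)) (l 196662525959))) (b (a (a (l 365239992215) (l 168208367575)) (l 16777320)) (c (l 190220074823) (l 189683204039))))) (b (b (a (a (l 435570081671) (b (c (l 363092508599) (l 363629379543)) (l 167671496663))) (l 194515042167)) (c (l 192904429415) (l 192367558615))) (l 16776096))) (l 208473685943))) (l 16777240))), by decide +kernel⟩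

def k35_pm_213 : ∃ t, chk3 f_pm_213 t 2014 1064 1 = true :=
  ⟨(l 3), by decide +kernel⟩

def k36_pm_213 : ∃ t, chk3 f_pm_213 t 4028 1065 1 = true :=
  ⟨(a (l 3) (b (l 3) (b (l 3) (b (b (l 3) (a (l 3) (a (l 3) (a (a (l 3) (b (l 3) (l 233706618823))) (a (c (l 245517778839) (l 241759682567)) (l 178408914919)))))) (a (a (l 3) (a (l 3) (b (l 3) (b (l 3) (c (l 239075327959) (l 237464715255)))))) (a (a (b (l 436106952583) (b (c (l 244444037095) (l 243370295303)) (l 16776968))) (b (b (c (l 363092508615) (l 363629379639)) (c (l 167671496615) (l 166597754903))) (l 16777320))) (l 198810009527))))))), by decide +kernel⟩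

def k37_pm_213 : ∃ t, chk3 f_pm_213 t 4029 1065 1 = true :=
  ⟨(a (b (l 3) (b (a (b (l 3) (a (a (l 3) (c (l 431275114295) (l 432885727143))) (a (b (l 3) (b (a (l 3) (l 233169747911)) (l 178408914919))) (b (b (l 3) (c (l 238538456983) (l 237464715271))) (l 196125655063))))) (b (b (a (l 3) (a (a (l 3) (b (l 3) (l 233706618823))) (a (c (l 245517778839) (l 241759682567)) (l 177872044023)))) (a (a (l 436106952599) (b (c (l 363092508615) (l 363629379639)) (c (l 167671496695) (l 166597754903)))) (l 193978171271))) (c (c (l 197199396743) (l 196662525895)) (c (l 196125655047) (l 196125655095))))) (b (a (a (a (b (b (l 365239992231) (c (l 244444037095) (l 243370295383))) (l 16776984)) (l 191830687623)) (l 16776712)) (l 16774848)) (l 16774888)))) (b (b (b (l 3) (b (l 3) (a (l 3) (a (l 3) (a (a (l 3) (b (l 3) (l 233169747927))) (a (c (l 245517778855) (l 241222811671)) (l 177872044023))))))) (b (a (a (l 3) (a (l 3) (b (l 3) (b (l 3) (c (l 238538457063) (l 237464715271)))))) (a (a (b (l 436643823511) (b (c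 (l 243370295207) (l 242833424407)) (l 16776976))) (b (b (c (l 363092508583) (l 364166250567)) (c (l 167134625703) (l 166060883991))) (l 16777320))) (l 198810009543))) (a (b (a (c (l 430738243399) (l 431811985335)) (a (b (a (l 3) (l 233169747911)) (l 178408914935)) (l 196125655063))) (a (a (b (l 365776863143) (c (l 243370295207) (l 242833424407))) (c (l 180556398535) (l 179482656823))) (l 16777344))) (l 16776104)))) (b (l 209010556871) (l 16777480)))), by decide +kernel⟩

def k38_pm_213 : ∃ t, chk3 f_pm_213 t 4030 1064 1 = true :=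
  ⟨(b (l 3) (b (a (l 3) (a (a (l 3) (a (l 3) (b (l 3) (b (l 3) (b (l 3) (a (l 364166250439) (l 157470949351))))))) (b (b (l 3) (a (l 3) (a (a (l 3) (b (l 3) (l 232632877015))) (a (b (l 364166250439) (l 181093269495)) (l 177335173127))))) (a (b (a (l 437180694423) (b (c (l 363629379543) (l 364166250567)) (c (l 167134625799) (l 165524013095)))) (a (b (c (l 243370295287) (l 242833424487)) (l 16777144)) (l 16777000))) (l 198810009543))))) (b (a (l 3) (a (b (a (c (l 430738243415) (l 432348856263)) (a (b (a (l 3) (l 232632877015)) (l 177872044023)) (l 196125655079))) (a (a (b (l 365776863159) (c (l 243370295287) (l 242296553495))) (c (l 180556398551) (l 179482656823))) (l 16776696))) (l 16776112))) (a (a (l 3) (b (a (l 3) (a (a (l 3) (b (l 3) (l 232632877015))) (a (b (l 364166250439) (l 181630140407)) (l 177872044023)))) (a (a (l 436643823511) (b (c (l 363629379543) (l 363629379575)) (c (l 167134625719) (l 166060884007)))) (l 193978171287)))) (l 208473685863))))), by decide +kernel⟩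

def k39_pm_213 : ∃ t, chk3 f_pm_213 t 4031 1064 1 = true :=
  ⟨(a (b (b (l 3) (a (b (l 3) (a (a (l 3) (c (l 432348856135) (l 433422598071))) (a (b (l 3) (b (a (l 3) (l 232096006103)) (l 177872044023))) (b (b (l 3) (a (l 364166250439) (l 156934078439))) (l 195588784167))))) (b (b (a (l 3) (a (a (l 3) (b (l 3) (l 232096006103))) (a (b (l 364166250439) (l 180556398583)) (l 177335173127)))) (a (a (l 437717565351) (b (c (l 363629379559) (l 364166250567)) (c (l 251960229815) (l 164987142183)))) (l 193978171287))) (a (b (a (b (c (l 242833424311) (l 242296553575)) (l 16777144)) (l 16777000)) (l 16777360)) (l 16776096))))) (a (a (a (b (b (b (b (l 365776863159) (c (l 243907166215) (l 242833424487))) (l 16777152)) (l 16777400)) (l 16777560)) (c (l 205252460375) (l 204178718663))) (l 16776880)) (l 16774904))) (b (b (a (b (a (l 3) (a (l 3) (b (l 3) (b (l 3) (a (l 364166250439) (c (l 244980908039) (l 155860336759))))))) (b (a (c (l 431275114327) (l 432885727175)) (a (b (a (l 3) (l 235317231575)) (l 177335173127))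 (l 195588784167))) (a (a (b (l 365776863159) (c (l 242833424311) (l 242296553575))) (c (l 180019527639) (l 178945785927))) (l 16776696)))) (b (a (b (a (l 437717565351) (b (c (l 363629379559) (l 364166250567)) (c (l 251423358919) (l 164987142263)))) (a (b (c (l 243370295303) (l 241759682583)) (l 16777144)) (l 16777000))) (l 198810009559)) (l 16776112))) (l 209010556887)) (l 16777328))), by decide +kernel⟩

def k40_pm_213 : ∃ t, chk3 f_pm_213 t 2015 1065 1 = true :=
  ⟨(b (b (a (a (a (b (a (a (l 3) (c (l 431811985207) (l 433422598055))) (a (b (l 3) (b (a (l 3) (l 233169747927)) (l 178408914935))) (b (b (l 3) (a (l 364166250439) (l 157470949351))) (l 196125655063)))) (a (a (b (b (l 365776863143) (c (l 243370295207) (l 242833424407))) (l 16777152)) (c (l 192367558663) (l 191293816951))) (l 16776720))) (c (a (c (l 199346880455) (l 198810009591)) (l 16776112)) (a (c (l 198273138743) (c (l 197736267863) (l 197736267895))) (l 16776168)))) (l 16774936)) (l 16777160)) (l 16775912)) (l 16776928)), by decide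 +kernel⟩

def k41_pm_213 : ∃ t, chk3 f_pm_213 t 1007 533 1 = true :=
  ⟨(a (b (a (b (a (a (b (l 3) (b (a (a (l 3) (c (l 430738243367) (l 432348856215))) (a (b (l 3) (b (a (l 3) (l 234243489735)) (l 178945785831))) (b (b (l 3) (c (l 238538456967) (l 238001586167))) (l 196662525959)))) (a (b (a (b (l 365776863127) (c (l 244444036999) (l 243907166215))) (l 181093269495)) (l 16776992)) (l 16776704)))) (b (b (l 3) (b (a (l 3) (a (a (l 3) (b (l 3) (l 234243489735))) (a (c (l 245517778839) (l 242296553479)) (l 178408914919)))) (a (a (l 435570081671) (b (c (l 363629379527) (l 363629379559)) (l 167671496663))) (l 193978171255)))) (a (c (l 198810009543) (l 198273138743)) (l 16776136)))) (b (b (a (b (a (c (l 430201372471) (l 431275114423)) (a (b (a (l 3) (l 233706618823)) (l 178945785831)) (l 196662525975))) (a (a (b (l 365776863143) (c (l 244444037015) (l 243907166215))) (l 180556398583)) (l 16777336))) (l 16776104)) (l 208473685847)) (l 16774992))) (l 16776136)) (l 16777120)) (l 16776584)) (l 16775936)),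 by decide +kernel⟩

def k42_pm_213 : ∃ t, chk3 f_pm_213 t 4024 1068 1 = true :=
  ⟨(a (a (b (l 3) (b (l 3) (b (a (c (l 435570081655) (c (l 436106952663) (l 436643823639))) (a (b (l 3) (c (l 249275875159) (l 245517778919))) (b (b (l 3) (l 240149069719)) (l 16777112)))) (b (b (a (a (l 364703121255) (l 169818980263)) (l 16777304)) (c (l 190756945767) (l 189683203991))) (l 16777008))))) (b (l 3) (b (b (l 3) (b (a (l 3) (a (c (l 361481895735) (c (l 362018766743) (l 362555637719))) (b (l 240149069719) (l 16777104)))) (a (a (l 368461217623) (b (l 362555637623) (l 169818980263))) (l 195051913047)))) (c (l 200957493047) (l 199883751191))))) (b (b (l 3) (b (b (l 3) (a (l 3) (a (l 3) (a (c (l 361481895735) (c (l 362555637735) (l 363092508711))) (b (l 239612198807) (l 16777104)))))) (b (a (l 3) (a (a (l 368461217639) (b (l 362555637639) (l 169282109367))) (l 194515042135))) (a (b (l 3) (a (l 3) (a (l 3) (l 239612198807)))) (c (l 193441300279) (l 192367558583)))))) (b (b (a (b (a (c (l 428590759687) (l 367924346759))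 (a (c (l 248739004263) (c (l 245517778887) (l 244980908039))) (l 16777120))) (b (a (a (l 365239992183) (l 169282109351)) (l 16777304)) (c (l 190756945783) (l 189683204007)))) (l 16776080)) (l 16777104)) (l 16774968)))), by decide +kernel⟩

def k43_pm_213 : ∃ t, chk3 f_pm_213 t 4025 1068 1 = true :=
  ⟨(a (b (a (b (b (l 3) (a (c (l 436106952583) (c (l 436643823591) (l 437717565479))) (a (b (l 3) (c (l 248739004263) (a (l 238538457047) (l 169282109431)))) (b (b (l 3) (l 239612198807)) (l 16777120))))) (b (b (b (a (a (l 365239992183) (l 169282109367)) (l 16777304)) (c (l 190756945783) (l 189683204007))) (l 16777008)) (l 16774800))) (b (b (b (a (l 3) (a (c (l 362018766663) (b (l 3) (l 360945024983))) (a (b (l 363092508567) (l 16777096)) (l 180019527623)))) (a (a (l 368461217639) (b (c (l 363092508567) (l 363092508615)) (l 169282109367))) (l 194515042135))) (c (l 197199396727) (l 196125655031))) (l 16774880))) (l 16772320)) (b (b (l 16777160) (l 16777600)) (l 16777304))), by decide +kernel⟩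

def k44_pm_213 : ∃ t, chk3 f_pm_213 t 2012 1069 1 = true :=
  ⟨(a (l 16776056) (l 16776840)), by decide +kernel⟩

def k45_pm_213 : ∃ t, chk3 f_pm_213 t 2013 534 1 = true :=
  ⟨(l 16776448), by decide +kernel⟩

def k46_pm_213 : ∃ t, chk3 f_pm_213 t 1006 535 1 = true :=
  ⟨(l 16775400), by decide +kernel⟩

def k47_pm_213 : ∃ t, chk3 f_pm_213 t 1007 267 1 = true :=
  ⟨(l 16774096), by decide +kernel⟩

def k48_pm_213 : ∃ t, chk3 f_pm_213 t 500 134 1 = true :=
  ⟨(b (l 3) (a (l 3) (b (l 3) (a (l 3) (a (b (l 3) (b (l 3) (b (a (l 3) (a (a (l 3) (b (l 3) (c (l 360945022327) (l 361481893431)))) (a (b (l 3) (a (b (l 362555635207) (l 16776096)) (l 176261428759))) (b (b (l 432348853767) (c (l 246054647287) (l 241759680263))) (l 16776152))))) (b (a (l 437180691927) (b (a (a (l 362018764151) (l 176798299623)) (l 16776184)) (c (l 192367555959) (l 191293814327)))) (a (a (l 3) (a (b (l 3) (a (l 362555635095) (l 244444034503))) (a (b (l 359871280583) (l 16776064)) (l 185925105111)))) (l 16776224)))))) (a (b (l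 3) (b (b (l 437717562999) (b (a (l 3) (a (b (l 3) (a (l 362555635319) (l 243907163831))) (a (b (l 359871280807) (l 16776176)) (l 185388234423)))) (a (a (l 366850602439) (b (c (l 359871280727) (l 360408151831)) (l 176261428823))) (l 16776056)))) (c (l 200420619879) (l 199883749159)))) (b (a (l 3) (a (l 3) (b (l 3) (b (l 3) (b (l 3) (b (l 432885724919) (c (l 246591518503) (l 245517776791)))))))) (b (b (a (a (b (l 3) (b (l 362018764455) (c (l 250886485655) (l 249812744007)))) (b (c (l 360945022551) (l 361481893655)) (l 185925105399))) (a (b (b (a (l 362555635431) (l 243907163943)) (l 16776224)) (l 16776288)) (l 16776312))) (l 16776376)) (l 16776624))))))))), by decide +kernel⟩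

def k49_pm_213 : ∃ t, chk3 f_pm_213 t 1002 268 1 = true :=
  ⟨(l 3), by decide +kernel⟩

def k50_pm_213 : ∃ t, chk3 f_pm_213 t 1003 536 1 = true :=
  ⟨(a (l 3) (b (l 3) (a (l 3) (b (l 3) (a (l 3) (b (l 3) (a (l 3) (b (l 3) (a (l 3) (a (c (l 362018766199) (l 363092508183)) (b (l 3) (l 169282108887)))))))))))), by decide +kernel⟩

def k51_pm_213 : ∃ t, chk3 f_pm_213 t 2006 537 1 = true :=
  ⟨(b (l 3) (a (a (l 3) (b (l 3) (b (l 3) (b (b (l 439865047927) (a (l 3) (a (l 3) (a (c (l 359871281991) (l 360945023975)) (l 170355850119))))) (b (a (l 3) (a (a (l 363629378407) (l 242296552279)) (l 16776784))) (a (a (l 3) (a (l 3) (a (l 362018765591) (l 236390972215)))) (l 194515041143))))))) (a (b (l 440938788295) (b (b (a (l 3) (a (a (l 430738242407) (b (l 3) (l 242296552375))) (a (b (c (l 359871282087) (l 360945024087)) (l 16776824)) (l 184851364807)))) (a (a (c (l 426980145879) (l 428590758855)) (b (c (l 360408152951) (c (l 360945023991) (l 360945024071))) (c (l 175724559287) (l 175187688551)))) (l 196125654023)))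 (a (a (a (a (b (b (l 360408152935) (l 16776784)) (l 16776848)) (l 192904428455)) (l 199346879447)) (l 16776896)) (l 16776992)))) (b (b (a (l 3) (b (l 3) (a (l 3) (a (c (l 362018765815) (l 362555636887)) (b (l 368998087767) (l 170355850311)))))) (b (b (a (l 3) (a (a (l 363629378615) (l 242296552487)) (l 16776888))) (a (a (l 3) (a (l 3) (a (l 362555636711) (l 236390972423)))) (l 194515041351))) (a (a (b (l 362555636647) (c (l 249812745207) (c (l 249275874423) (l 248739003591)))) (c (l 186461977671) (l 184851365031))) (l 16776960)))) (l 16776456))))), by decide +kernel⟩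

def k52_pm_213 : ∃ t, chk3 f_pm_213 t 2007 537 1 = true :=
  ⟨(b (a (b (l 3) (b (a (l 3) (a (a (l 3) (b (l 3) (a (l 3) (a (l 363629378695) (b (l 3) (l 239612198167)))))) (b (a (l 3) (a (c (l 362018766007) (l 363092507991)) (b (l 369534958871) (l 169818979607)))) (a (b (a (l 364166249735) (l 241759681767)) (l 186461977879)) (l 16776680))))) (b (a (l 440401919095) (a (a (b (l 363092507767) (c (l 249812745415) (c (l 249275874615) (l 248739003783)))) (c (l 185925106887) (l 184851365223))) (l 16777064))) (a (a (l 3) (a (a (l 431275113511) (b (l 3) (l 242296552583))) (a (b (c (l 360408153207) (l 360945024279)) (l 16776920)) (l 184851364999)))) (l 16776424))))) (a (b (b (l 441475659735) (b (a (l 3) (a (a (l 431275113703) (b (l 3) (c (l 246054649159) (l 241222811111)))) (a (b (c (l 360408153399) (l 360945024471)) (l 16777016)) (l 184314494279)))) (a (a (c (l 427517017191) (l 429127630167)) (b (a (l 3) (a (l 363092508007) (l 239612198263))) (c (l 175724559703) (l 174650818039)))) (l 197736267159))))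 (a (a (b (b (b (c (l 249812745511) (c (l 248739003799) (l 248739003879))) (l 16777008)) (l 16777072)) (l 16777200)) (l 16775872)) (l 16777280))) (b (b (b (a (a (l 3) (a (l 3) (a (l 363629378887) (b (l 3) (l 239612198375))))) (a (b (a (l 364166249927) (c (l 246054649255) (l 241222811207))) (l 185925107159)) (l 16776776))) (a (a (b (l 363092507959) (c (l 249812745607) (c (l 248739003895) (l 248739003975)))) (c (l 185925107159) (l 184851365415))) (l 16777160))) (l 16776568)) (l 16772240)))) (b (b (a (a (a (b (a (c (l 426980146087) (l 428590759063)) (b (a (l 3) (a (l 362555636887) (l 239612197991))) (c (l 175724559495) (l 174650817831)))) (a (b (c (l 249812745303) (c (l 249275874519) (l 248739003687))) (l 16776912)) (l 16776952))) (l 200957492359)) (l 16777208)) (l 16777608)) (l 16774896)) (l 16767288))), by decide +kernel⟩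

def k53_pm_213 : ∃ t, chk3 f_pm_213 t 2004 538 1 = true :=
  ⟨(b (l 3) (a (l 3) (b (l 3) (a (l 438791305127) (b (a (l 3) (a (l 3) (b (l 3) (b (l 433959467175) (c (l 246054648039) (l 244980906391)))))) (b (a (a (l 3) (a (l 3) (c (l 360945023111) (l 361481894199)))) (a (b (a (l 363092506791) (l 243370293463)) (l 16776280)) (l 16776488))) (a (a (b (l 362555635815) (c (l 250886486183) (l 249812744535))) (l 185925105847)) (l 16776544)))))))), by decide +kernel⟩

def k54_pm_213 : ∃ t, chk3 f_pm_213 t 2005 538 1 = true :=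
  ⟨(a (b (l 3) (b (b (a (l 3) (a (a (l 3) (b (l 3) (b (l 3) (c (l 360408152423) (l 360945023511))))) (b (a (l 3) (b (l 434496338295) (c (c (l 246054648215) (l 245517777383)) (l 244980906599)))) (a (b (a (l 363092506999) (l 242833422775)) (l 186998847895)) (l 16776600))))) (b (a (l 438791305543) (a (a (b (l 362555636039) (c (l 250349615415) (l 249812744759))) (l 185925106055)) (l 16776648))) (a (a (l 3) (a (a (l 429664499943) (b (l 3) (l 243370293575))) (b (c (l 246054648151) (l 244980906503)) (l 16776520)))) (l 16776664)))) (b (a (a (b (a (c (l 425906403415) (l 367387474183)) (b (c (l 359871281399) (l 360945023399)) (l 175724558583))) (c (c (l 186998847751) (l 186461976919)) (l 185925106055))) (l 199346878791)) (l 16776792)) (l 16774208)))) (a (b (b (l 3) (b (l 439328176599) (b (a (l 3) (a (a (l 429664500167) (b (l 3) (l 242833422871))) (b (c (c (l 246054648327) (l 245517777495)) (l 244980906711)) (l 16776632)))) (a (b (c (l 365776861511) (c (l 362555636247) (l 362555636263))) (a (l 362555636135)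 (l 175724558791))) (l 196125653447))))) (b (b (a (a (a (b (b (l 240685939159) (l 16776584)) (l 16776648)) (l 16776472)) (l 16776688)) (l 16776784)) (l 16776888)) (l 16777144))) (b (b (a (l 3) (a (l 3) (b (l 3) (b (l 3) (b (l 434496338519) (c (c (l 245517777511) (l 244980906679)) (l 244980906807))))))) (b (a (a (b (l 3) (b (l 362555636247) (c (l 250349615703) (l 249812744967)))) (b (c (l 361481894343) (c (l 362018765463) (l 362555636471))) (l 185925106279))) (b (b (a (a (l 363092507207) (l 242833422983)) (l 16776680)) (l 193441299111)) (l 16776752))) (l 16775504))) (l 16766752)))), by decide +kernel⟩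

def k55_pm_213 : ∃ t, chk3 f_pm_213 t 1002 539 1 = true :=
  ⟨(a (b (a (b (b (l 3) (a (l 3) (a (a (l 3) (b (l 3) (c (l 360945022775) (l 362018764791)))) (b (a (l 3) (b (l 433422596039) (c (l 246054647815) (l 245517777079)))) (a (b (a (l 362555635655) (l 243907164167)) (l 16776168)) (l 16776384)))))) (b (b (a (l 437717563287) (b (a (a (l 362555635591) (l 176261429175)) (l 16776408)) (c (l 192367556423) (l 191293814935)))) (a (a (l 3) (a (a (l 367387473639) (b (l 3) (l 243907164055))) (a (b (l 359871281031) (l 16776288)) (l 185388234647)))) (l 16776448))) (a (b (a (a (l 366850602663) (b (c (l 359871280967) (l 360408152055)) (l 176261429063))) (l 196125652791)) (c (l 194515039991) (l 193441298359))) (l 16776568)))) (a (b (b (b (a (l 3) (a (a (l 429127628743) (b (l 3) (l 243370293367))) (a (c (l 251960227895) (l 247128389863)) (l 185388234871)))) (a (a (c (l 425369532295) (l 367387473975)) (b (c (l 360408152103) (l 360408152279)) (l 176261429271))) (l 196125653015))) (c (c (l 197736265735) (l 197199394903))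 (l 196662524135))) (l 16776752)) (l 16776192))) (l 16774496)) (l 16767352)), by decide +kernel⟩

def k56_pm_213 : ∃ t, chk3 f_pm_213 t 1003 269 1 = true :=
  ⟨(b (a (b (a (b (b (b (a (l 439328176871) (a (a (b (l 362555636455) (c (l 250349615911) (l 249275874263))) (c (l 185925106471) (l 185388235735))) (l 16776856))) (a (a (l 3) (a (a (l 430201371287) (b (l 3) (l 242833423095))) (a (b (a (l 363629378263) (l 232632875751)) (l 16776720)) (l 184851364599)))) (l 16775568))) (a (a (b (a (c (l 426443274759) (l 428053887671)) (b (c (l 360408152743) (c (l 360408152871) (l 360945023863))) (c (l 176261430007) (l 175187688343)))) (a (b (c (l 249812744823) (l 249275874151)) (l 16776704)) (l 16776752))) (l 199346879207)) (l 16777008))) (l 16774504)) (l 16772240)) (l 16767304)) (l 16777064)) (l 16776376)), by decide +kernel⟩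

def k57_pm_213 : ∃ t, chk3 f_pm_213 t 1000 540 1 = true :=
  ⟨(a (l 3) (a (l 3) (b (l 3) (b (b (l 3) (b (l 3) (b (l 436643820231) (a (l 3) (a (l 3) (a (l 3) (l 242296550215))))))) (a (b (l 436643820247) (b (a (l 3) (a (a (l 363092505175) (b (l 3) (l 245517775623))) (c (l 255181451991) (l 170892719015)))) (a (a (l 362555634199) (b (a (l 3) (l 237464711895)) (l 177335169719))) (l 16775752)))) (b (b (a (c (l 368461214583) (l 365776860215)) (a (c (l 249275872039) (c (l 249275872263) (l 248739001447))) (l 16775800))) (b (a (a (l 361481892535) (l 177335169831)) (l 16775832)) (l 191830684439))) (l 16775904))))))), by decide +kernel⟩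

def k58_pm_213 : ∃ t, chk3 f_pm_213 t 1000 541 1 = true :=
  ⟨(a (a (b (l 3) (b (a (l 3) (b (l 3) (b (b (l 435033206983) (a (l 3) (a (l 3) (l 243370291303)))) (a (c (l 367924342919) (l 365239988567)) (a (a (l 245517774903) (l 177335169143)) (l 16775432)))))) (b (b (a (l 435033206823) (b (a (a (l 361481891799) (l 16775200)) (l 16775456)) (l 191830683703))) (a (a (l 3) (a (b (l 3) (l 239075323831)) (a (l 248739000295) (l 16775344)))) (l 16775496))) (b (a (a (a (l 362018762551) (b (l 359334408071) (l 16775296))) (l 16775376)) (l 16775576)) (l 198810005239))))) (a (b (l 437180688983) (b (b (a (a (l 430201368887) (b (l 3) (b (l 359334408311) (l 177872040135)))) (a (b (b (l 3) (l 238538453159)) (l 16775472)) (c (l 185388232935) (l 184314491319)))) (l 196662521991)) (l 16775792))) (b (b (l 3) (b (b (l 3) (b (l 435033207223) (a (l 3) (a (l 3) (l 242833420631))))) (a (b (c (l 368461214087) (l 365239988823)) (a (b (l 361481892039) (l 166597751047)) (l 186461974887))) (a (b (c (l 249812742455) (l 248739000839))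 (l 16775576)) (l 16775600))))) (l 16774584)))) (a (b (b (b (a (l 3) (a (c (l 427517014599) (b (l 3) (l 365239989063))) (b (a (l 3) (b (l 363629376007) (l 242833420871))) (a (c (l 249812742711) (l 248739001079)) (l 16775680))))) (b (a (l 435570078231) (b (a (a (l 361481892295) (l 177335169591)) (l 16775712)) (l 191830684199))) (a (a (l 3) (a (a (l 363092504935) (b (l 3) (l 245517775335))) (b (l 242833420759) (l 16775600)))) (l 16775744)))) (b (b (a (a (a (l 362555633959) (b (a (l 3) (l 237464711607)) (l 177335169463))) (l 16775624)) (l 16775824)) (l 199346876647)) (l 16775896))) (l 16776288)) (b (c (l 203641844327) (l 203104973623)) (l 16776816)))), by decide +kernel⟩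

def k59_pm_213 : ∃ t, chk3 f_pm_213 t 1001 270 1 = true :=
  ⟨(b (a (a (b (a (l 3) (b (l 3) (b (l 3) (a (b (l 3) (c (l 368998085735) (l 365776860455))) (a (b (l 3) (a (b (l 362555634743) (l 16775864)) (l 176798299207))) (b (b (l 367924343783) (l 246054646823)) (l 16775920))))))) (b (a (b (b (l 436106949623) (a (l 3) (a (a (l 363092505415) (b (l 3) (l 244980904951))) (b (l 242296550327) (l 16775840))))) (a (b (a (l 366850601735) (b (a (l 3) (l 236927841223)) (l 177335169959))) (l 186461975351)) (l 16775584))) (b (b (b (a (a (l 361481892775) (l 177335170071)) (l 16775952)) (c (l 192367555495) (l 191293813863))) (l 16775984)) (l 16776104))) (l 16776216))) (b (a (b (l 437717562407) (b (b (a (l 3) (a (a (l 367387472951) (b (l 3) (l 244444034279))) (b (l 246054646951) (l 16775960)))) (a (a (l 366850601975) (b (c (l 359871280263) (l 360408151367)) (l 176798299271))) (l 16775664))) (c (l 197199393943) (l 196662523223)))) (b (b (a (l 3) (a (l 3) (b (l 3) (b (l 431811982583) (l 246054647063))))) (b (a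 (c (c (l 424295789863) (l 368461215095)) (l 368998086151)) (a (c (l 253033968903) (c (l 248739001831) (l 248739001927))) (l 16776040))) (b (a (a (l 362018763911) (l 176798299399)) (l 16776064)) (c (l 192367555735) (l 191293814103))))) (l 16774912))) (l 16776584))) (b (b (b (a (b (a (a (a (l 366850602215) (b (c (l 359871280503) (l 360408151607)) (l 176798299511))) (l 16775776)) (l 16776304)) (c (l 199883748759) (l 199346878039))) (l 16776736)) (l 16774016)) (l 16766400)) (l 16777368))) (l 16767320)), by decide +kernel⟩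

def k60_pm_213 : ∃ t, chk3 f_pm_213 t 500 271 1 = true :=
  ⟨(a (b (a (l 16773832) (l 16777496)) (l 16777952)) (l 16776480)), by decide +kernel⟩

def k61_pm_213 : ∃ t, chk3 f_pm_213 t 501 135 1 = true :=
  ⟨(l 16774544), by decide +kernel⟩

def k62_pm_213 : ∃ t, chk3 f_pm_213 t 4016 536 1 = true :=
  ⟨(b (l 3) (b (b (l 3) (a (l 3) (a (a (l 3) (a (l 3) (b (l 3) (a (l 363629379079) (b (l 3) (l 239075327639)))))) (b (a (l 3) (a (c (l 362018766391) (l 363092508375)) (b (l 3) (l 169282109079)))) (a (b (a (l 364166250119) (c (l 245517778535) (l 241222811399))) (l 185925107351)) (l 16777040)))))) (b (b (a (l 3) (a (a (b (l 363092508151) (a (b (l 363629379175) (l 163376529031)) (l 183777623655))) (c (l 185925107351) (l 184851365607))) (l 16777256))) (a (a (l 3) (a (a (l 431811984807) (b (l 3) (c (l 246054649351) (l 241222811303)))) (a (b (c (l 360408153591) (l 360945024663)) (l 16776784)) (l 184314494471)))) (l 16776624))) (a (a (b (a (c (l 428053888295) (l 429664501271)) (b (a (l 3) (a (l 363092508199)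 (l 239075327559))) (c (l 175187688983) (l 174113947319)))) (a (b (a (b (l 363092508167) (l 163376528935)) (l 183777623559)) (l 16777104)) (l 16777152))) (l 200957492743)) (l 16772160))))), by decide +kernel⟩

def k63_pm_213 : ∃ t, chk3 f_pm_213 t 4017 536 1 = true :=
  ⟨(a (b (l 3) (b (b (b (a (l 3) (a (a (l 432348855911) (b (l 3) (c (l 245517778631) (l 240685940583)))) (a (b (c (l 360408153783) (l 360945024855)) (l 16777048)) (l 184314494663)))) (a (a (c (l 428590759479) (l 429664501463)) (b (a (l 3) (a (l 362555637463) (l 239075327735))) (c (l 175187689175) (l 174113947495)))) (l 197736267543))) (b (b (a (a (a (b (l 363629379271) (l 162839658215)) (l 183777623751)) (l 16777224)) (l 16777320)) (l 16776648)) (l 16774744))) (l 16772344))) (b (b (l 3) (b (a (l 3) (b (l 3) (a (l 3) (a (c (l 362555637415) (l 363092508487)) (b (l 3) (c (l 253570842391) (l 167134625703))))))) (a (a (b (l 3) (b (c (l 366313733799) (l 363629379399)) (a (c (l 239075327719) (l 238538456951)) (l 184314494743)))) (a (b (l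 3) (a (b (l 238538456807) (l 16777248)) (l 188609461991))) (b (a (l 367387475623) (b (l 3) (l 238001585975))) (l 16776936)))) (b (a (b (a (l 364166250167) (c (l 244444036855) (l 240685940631))) (l 184851365607)) (l 16777112)) (l 16777344))))) (b (l 16776848) (l 16777672)))), by decide +kernel⟩

def k64_pm_213 : ∃ t, chk3 f_pm_213 t 2009 536 1 = true :=
  ⟨(b (b (b (a (a (l 3) (a (a (l 3) (a (l 3) (b (l 3) (b (l 3) (b (l 3) (l 239075327815)))))) (b (a (l 3) (a (c (l 365776862903) (l 363092508487)) (b (l 3) (c (l 253033971479) (l 167134625703))))) (a (b (a (l 364166250167) (c (l 244444036871) (l 243370295191))) (l 184851365607)) (l 16777112))))) (b (a (b (a (a (b (a (l 363629379367) (l 172503334759)) (l 177872043815)) (l 16777280)) (l 16777376)) (l 16776712)) (l 16777608)) (l 16774952))) (a (b (a (l 3) (a (a (b (l 363092508327) (a (b (l 363629379367) (l 161229045591)) (l 183240752935))) (c (c (l 184851365687) (l 184314494855)) (c (l 184314494935) (l 183777624087)))) (l 16777352))) (a (a (l 3) (a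 (a (l 432348855863) (b (l 3) (c (l 244444036855) (l 240685940631)))) (a (b (c (l 360408153815) (l 361481895799)) (l 16777072)) (c (l 183777623879) (l 182703882119))))) (l 16776736))) (l 16772480))) (b (a (a (a (b (a (c (l 428590759479) (l 430201372359)) (b (a (l 3) (a (l 363092508455) (l 237464715063))) (a (a (l 238538456903) (l 173040205671)) (l 16777240)))) (a (b (b (c (l 242296553207) (l 241222811527)) (l 177872043815)) (l 16777264)) (l 16777304))) (l 199883751047)) (l 16772304)) (l 16777528)) (l 16776280))) (l 16777184)), by decide +kernel⟩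

def k65_pm_213 : ∃ t, chk3 f_pm_213 t 1004 537 1 = true :=
  ⟨(a (b (l 16776272) (l 16776960)) (l 16776240)), by decide +kernel⟩

def k66_pm_213 : ∃ t, chk3 f_pm_213 t 1005 268 1 = true :=
  ⟨(l 16775328), by decide +kernel⟩

def k67_pm_213 : ∃ t, chk3 f_pm_213 t 502 269 1 = true :=
  ⟨(l 16752912), by decide +kernel⟩

def k68_pm_213 : ∃ t, chk3 f_pm_213 t 503 134 1 = true :=
  ⟨(l 16770944), by decide +kernel⟩

def k69_pm_213 : ∃ t, chk3 f_pm_213 t 251 135 1 = true :=
  ⟨(l 16768352), by decide +kernel⟩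

def k70_pm_213 : ∃ t, chk3 f_pm_213 t 63 32 1 = true :=
  ⟨(b (l 6) (l 6)), by decide +kernel⟩

def k71_pm_213 : ∃ t, chk3 f_pm_213 t 1008 264 1 = true :=
  ⟨(l 3), by decide +kernel⟩

def k72_pm_213 : ∃ t, chk3 f_pm_213 t 1009 528 1 = true :=
  ⟨(l 3), by decide +kernel⟩

def k73_pm_213 : ∃ t, chk3 f_pm_213 t 2018 529 1 = true :=
  ⟨(l 3), by decide +kernel⟩

def k74_pm_213 : ∃ t, chk3 f_pm_213 t 2019 1058 1 = true :=
  ⟨(b (l 3) (b (l 3) (b (l 3) (b (l 3) (a (l 3) (a (l 3) (a (l 3) (a (l 3) (b (b (l 6840102287523595558580076639) (a (l 3) (c (l 4664035812217264624657023071) (l 4576993153205009812249772127)))) (a (a (l 3) (c (l 4664035812217264281059623007) (l 4528636120420424370383601759))) (l 184314495031))))))))))), by decide +kernel⟩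

def k75_pm_213 : ∃ t, chk3 f_pm_213 t 4038 1059 1 = true :=
  ⟨(b (l 3) (b (a (l 3) (a (b (l 3) (a (l 3) (a (l 3) (a (l 438791307175) (b (l 3) (b (l 3) (c (l 240149069879) (l 239612199047)))))))) (b (b (l 3) (a (l 3) (a (a (l 3) (a (l 366850605031) (b (l 3) (l 4528636120420418872825348191)))) (b (a (l 366313734135) (c (l 240149069879) (l 239612199047))) (l 184851365943))))) (a (a (b (l 3) (b (c (l 4731735658115676505456558175) (c (l 4654364405660339207483277407) (l 4615678779432671005173235807))) (l 196662526007))) (b (b (l 6840102287523588961510326367) (a (c (l 237464715319) (l 236390973575)) (l 182703882279))) (l 16777184))) (c (l 198810009543) (l 198273138711)))))) (b (a (l 3) (a (b (a (c (l 434496339847) (l 436106952663)) (a (b (a (l 3) (a (l 365239992311) (l 4518964713863499984001826911))) (c (l 174113947719) (l 173040205991))) (l 193441300551))) (a (a (b (l 3) (c (l 4731735658115674924908593247) (c (l 4664035812217254797771915359) (l 4615678779432669562064224351)))) (a (b (c (l 237464715303)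 (l 236390973575)) (l 16777160)) (l 193978171463))) (l 16777040))) (l 16776784))) (a (a (l 3) (b (a (l 3) (a (b (l 3) (a (l 3) (a (l 365239992311) (l 4528636120420415299412557919)))) (b (a (l 366313734119) (c (l 240685940791) (l 239612199047))) (l 184851365943)))) (a (a (l 3) (b (l 6830430880966668492138840159) (a (c (l 237464715303) (l 236927844487)) (l 183240753191)))) (c (l 192904429623) (l 192367558791))))) (l 3764595002423969111242309727))))), by decide +kernel⟩

def k76_pm_213 : ∃ t, chk3 f_pm_213 t 4039 1059 1 = true :=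
  ⟨(a (a (b (b (l 3) (b (l 3) (a (c (l 7855599975999879804725575775) (l 7884614195670629118212210783)) (b (a (l 3) (a (l 437717565399) (b (l 3) (c (l 240149069879) (l 239075328135))))) (a (b (a (l 3) (c (l 4673707218774176641532854367) (l 4538307526977337005734740063))) (c (l 173577076807) (l 3106939356553616062882676831))) (l 192904429639)))))) (b (b (b (a (a (b (l 3) (c (l 4722064251558760983887396959) (c (l 4654364405660340719311765599) (l 4615678779432672448282247263)))) (a (b (c (l 236927844407) (l 235854102663)) (l 16777160)) (l 193441300551))) (l 16777040)) (l 206863073303)) (l 16776160)) (l 16777368))) (b (b (l 3) (b (b (a (l 3) (b (b (l 6840102287523592534923100255) (a (l 3) (c (l 240685940791) (l 240149069959)))) (a (a (l 3) (c (l 4673707218774178222080819295) (l 4538307526977338448843751519))) (l 184314495031)))) (a (a (l 3) (b (l 6840102287523592122606256223) (a (c (l 236927844407) (l 4499621900749669765497356383)) (l 182167011367)))) (c (l 192904429623) (l 191830687879)))) (a (a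 (b (b (c (l 4722064251558762564435361887) (c (l 4654364405660342231140253791) (l 4606007372875756857993609311))) (l 196125655095)) (l 16777368)) (l 16777208)) (l 16776112)))) (l 16777344))) (b (b (a (b (a (l 3) (a (l 3) (a (l 439328178087) (b (l 3) (b (l 3) (c (l 242833424439) (l 239075328135))))))) (b (a (c (l 435033210759) (l 436643823575)) (a (b (a (l 3) (c (l 4664035812217262700511658079) (l 4538307526977339960672239711))) (c (l 3116610763110537494326739039) (l 3097267949996701984422445151))) (l 192904429639))) (a (a (b (l 3) (c (l 4722064251558764144983326815) (c (l 4654364405660343742968741983) (l 4606007372875758301102620767)))) (a (b (c (l 236390973495) (l 4499621900749671277325844575)) (l 16777160)) (l 193441300551))) (l 16777040)))) (b (a (b (a (l 3) (b (l 6840102287523595146263232607) (a (c (l 4809106910571019232268566623) (l 4489950494192755687037206623)) (l 181630140455)))) (a (b (a (a (l 3) (l 4538307526977340991464276063)) (l 2981211071313698889320644703)) (l 196125655111)) (l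 16777184))) (c (l 3580838277842557708753895519) (l 3561495464728721992691236959))) (l 16776784))) (c (l 210084298615) (l 209547427607))) (l 16777144))), by decide +kernel⟩

def k77_pm_213 : ∃ t, chk3 f_pm_213 t 1008 530 1 = true :=
  ⟨(a (l 3) (a (l 3) (b (l 3) (a (b (l 3) (b (l 3) (a (b (l 3) (a (b (l 3) (c (l 432885727095) (l 434496339927))) (b (a (l 3) (a (l 365776863175) (b (l 3) (c (l 242833424423) (l 242296553607))))) (a (b (a (l 3) (a (l 364166250471) (l 235317231607))) (l 175187689495)) (l 194515042359))))) (b (b (a (l 3) (a (a (l 3) (a (l 365239992279) (b (l 3) (l 235317231607)))) (a (b (l 365239992295) (l 177335173143)) (c (l 176261431351) (l 174650818631))))) (a (a (l 3) (b (c (l 364166250487) (l 365239992407)) (c (l 250349617191) (c (l 249812746359) (l 2932854038529086440700280927))))) (l 193441300407))) (b (b (a (a (c (l 244980908071) (c (l 243907166311) (l 243907166359))) (l 16777000)) (l 16777376)) (l 206326202359)) (l 16776096)))))) (b (b (l 3) (b (l 3) (b (l 3) (a (l 3) (a (l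 3) (a (a (l 3) (a (l 365776863191) (b (l 3) (l 235317231607)))) (a (b (l 365776863207) (l 176798302231)) (c (l 175724560375) (l 174650818631))))))))) (b (a (b (a (l 3) (b (l 3) (a (l 3) (a (l 369534959559) (b (l 3) (c (l 242296553511) (l 241759682695))))))) (b (a (c (l 433422598007) (l 434496339927)) (a (b (a (l 3) (a (l 364166250471) (l 235317231607))) (c (l 175724560439) (l 174650818711))) (l 194515042375))) (a (a (b (l 3) (a (a (l 366313734119) (l 230485393399)) (l 169282109447))) (b (a (b (l 364703121399) (l 162302787591)) (l 185388236823)) (l 16777000))) (l 16776704)))) (b (a (a (b (l 3) (b (a (a (l 366313734119) (l 230485393399)) (l 169282109463)) (l 198273138743))) (b (b (c (l 364703121415) (l 365239992407)) (a (b (l 364703121399) (l 162302787591)) (l 185388236823))) (l 16777016))) (c (l 199346880439) (l 198273138711))) (l 16776784))) (c (l 16777176) (l 209010556871)))))))), by decide +kernel⟩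

def k78_pm_213 : ∃ t, chk3 f_pm_213 t 2016 1062 1 = true :=
  ⟨(a (l 3) (a (l 3) (b (l 3) (b (b (l 3) (b (l 3) (a (l 3) (a (l 3) (a (b (l 3) (a (l 3) (c (l 234243489799) (l 233706618999)))) (a (b (l 364703121367) (l 178408914951)) (c (l 176261431271) (l 175187689543)))))))) (a (b (a (l 3) (b (l 3) (a (l 3) (a (l 365776863175) (b (l 3) (c (l 243907166231) (l 242833424503))))))) (b (a (c (l 432348856167) (l 433959469015)) (a (b (a (l 3) (a (l 363629379559) (l 236927844343))) (l 176261431303)) (l 195051913271))) (a (a (b (l 366313734087) (c (l 246054649879) (l 241759682679))) (c (l 179482656743) (c (l 178408914999) (l 177872044135)))) (l 16776704)))) (b (a (a (b (l 438791307191) (b (c (l 245517778967) (l 241222811767)) (l 16777232))) (b (b (c (l 364166250487) (l 364703121495)) (c (l 251423359015) (c (l 250349617255) (l 163376529575)))) (l 16777008))) (l 198810009559)) (l 16776120))))))), by decide +kernel⟩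

def k79_pm_213 : ∃ t, chk3 f_pm_213 t 4032 1063 1 = true :=
  ⟨(a (b (l 3) (b (b (l 3) (a (l 3) (b (a (l 3) (a (b (l 3) (a (l 3) (l 234780360679))) (a (b (l 364703121367) (l 180019527687)) (c (l 177335173079) (l 176261431351))))) (a (a (l 438254436263) (b (c (l 363629379559) (l 364703121495)) (c (l 251960229911) (l 164450271271)))) (l 193978171287))))) (b (a (a (a (l 3) (c (l 432885727063) (l 433959468983))) (b (a (l 3) (a (l 365239992247) (b (l 3) (c (l 244444037127) (l 155323465847))))) (a (b (a (l 3) (l 235317231591)) (l 177335173127)) (l 195588784167)))) (b (b (a (a (c (l 242833424391) (l 241759682599)) (l 16777320)) (l 16777368)) (l 16777200)) (l 16776088))) (b (a (a (a (b (l 366313734071) (c (l 242833424391) (l 241759682599))) (c (l 180019527639) (l 178945785927))) (l 16776696)) (l 16774832)) (l 208473685815))))) (b (b (l 3) (a (b (l 3) (a (l 3) (b (l 3) (a (l 3) (a (l 365239992247) (b (l 3) (c (l 244444037143) (l 243370295415)))))))) (b (b (l 3) (a (l 3) (a (a (l 3) (a (l 365239992263)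 (b (l 3) (l 238001586151)))) (a (b (l 364703121367) (l 179482656775)) (c (l 176798302167) (l 175724560455)))))) (a (a (b (l 438254436263) (b (c (l 246591520791) (l 241222811687)) (l 16777144))) (b (b (c (l 363629379559) (l 364166250503)) (c (l 251423358999) (c (l 250886488167) (l 163913400471)))) (l 16777008))) (l 198810009559))))) (b (b (a (b (a (c (l 431811985255) (l 433422598087)) (a (b (a (l 3) (l 234780360679)) (l 176798302215)) (l 195051913271))) (a (a (b (l 366313734087) (c (l 246054649863) (l 241759682599))) (c (l 179482656743) (l 178408915015))) (l 16776696))) (l 16776120)) (l 209010556791)) (l 16774880)))), by decide +kernel⟩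

def k80_pm_213 : ∃ t, chk3 f_pm_213 t 4033 1063 1 = true :=
  ⟨(b (a (b (a (b (l 3) (a (a (l 3) (c (l 432885727063) (l 434496339895))) (b (a (l 3) (a (l 365239992263) (b (l 3) (c (l 243907166231) (l 243370295415))))) (a (b (a (l 3) (a (l 363629379559) (l 237464715255))) (l 176261431303)) (l 195051913271))))) (b (b (a (l 3) (a (b (l 3) (a (l 3) (a (l 363629379559) (l 236927844343)))) (a (b (l 364703121367) (l 179482656775)) (c (l 176798302167) (l 175724560455))))) (a (a (l 438791307175) (b (c (l 364166250487) (l 364703121495)) (c (l 251960229927) (c (l 250886488167) (l 163913400471))))) (l 193441300391))) (b (b (a (a (c (l 246054649879) (l 241759682679)) (l 16777320)) (l 16777368)) (l 206326202343)) (l 16776096)))) (a (a (a (b (b (b (l 366313734087) (c (l 245517778887) (l 241222811687))) (l 16777160)) (l 16777408)) (c (l 199883751399) (l 199346880583))) (l 16776784)) (l 16774912))) (c (l 16777176) (l 199883751255))) (l 16777208)), by decide +kernel⟩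

def k81_pm_213 : ∃ t, chk3 f_pm_213 t 2017 2124 1 = true :=
  ⟨(b (a (a (l 3) (a (b (l 3) (a (l 3) (b (l 3) (a (l 3) (a (l 365776863175) (b (l 3) (c (l 243370295335) (l 242296553607)))))))) (b (b (l 3) (a (l 3) (a (b (l 3) (a (l 3) (a (l 364166250471) (l 235854102519)))) (a (b (l 365239992295) (l 177872044055)) (c (l 175724560359) (l 175187689543)))))) (a (a (b (l 3) (b (c (l 244980908055) (c (l 244444037223) (l 240685940887))) (l 16777232))) (b (b (c (l 364166250487) (l 365239992407)) (a (a (l 227264167927) (l 155323465735)) (l 185925107735))) (l 16777008))) (l 198810009575))))) (a (a (a (a (b (b (b (l 3) (c (l 245517778983) (c (l 244444037223) (l 240685940887)))) (l 202568106055)) (l 16776104)) (c (c (l 200420622295) (l 199883751431)) (c (l 199346880567) (l 198810009703)))) (l 16776784)) (l 16774904)) (l 16777336))) (a (a (b (l 3) (a (l 3) (b (a (l 3) (a (b (l 3) (a (l 3) (a (l 364166250471) (l 236390973431)))) (a (b (l 365239992279) (l 178408914967)) (c (l 176261431271) (l 175187689543)))))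 (a (a (l 439328178103) (b (c (l 364166250487) (l 365239992407)) (a (a (l 227801038823) (l 155323465719)) (l 186461978647)))) (l 193441300391))))) (a (b (b (a (c (l 432885727095) (l 433959469015)) (a (b (a (l 3) (a (l 364166250471) (l 236390973431))) (l 175724560407)) (l 194515042359))) (a (a (b (l 370071830471) (c (l 245517778967) (c (l 244444037223) (l 240685940887)))) (a (a (b (l 227801038839) (l 16777312)) (l 179482656791)) (l 195588784183))) (l 16776704))) (l 207936815159)) (l 16776832))) (l 16777264))), by decide +kernel⟩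

def k82_pm_213 : ∃ t, chk3 f_pm_213 t 2017 2125 1 = true :=
  ⟨(b (a (a (a (b (a (b (l 3) (c (l 432348856183) (l 433959469015))) (b (a (l 3) (a (l 365776863175) (b (l 3) (c (l 243370295319) (l 242833424503))))) (a (b (a (l 3) (a (l 363629379559) (l 236390973431))) (l 175724560407)) (l 194515042359)))) (a (a (b (b (l 370071830471) (c (l 245517778967) (l 241222811767))) (l 203104976967)) (c (c (l 191830687751) (l 191293816887)) (c (l 190756946023) (l 190220075159)))) (l 16776728))) (b (a (a (a (b (b (c (l 361481895943) (l 362555637863)) (l 16777224)) (l 16777344)) (l 196662525879)) (l 16777032)) (l 16776104)) (l 16774864))) (l 16774832)) (l 16777064)) (l 16776472)), by decide +kernel⟩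

def k83_pm_213 : ∃ t, chk3 f_pm_213 t 2017 1063 1 = true :=
  ⟨(l 16776624), by decide +kernel⟩

def k84_pm_213 : ∃ t, chk3 f_pm_213 t 4036 1060 1 = true :=
  ⟨(a (l 3) (b (l 3) (b (l 3) (b (b (l 3) (a (l 3) (a (l 3) (a (b (l 3) (a (l 3) (a (l 364703121399) (l 234243489799)))) (b (a (l 365776863207) (c (l 241222811687) (l 240685940871))) (l 185925107751)))))) (a (a (l 3) (b (l 3) (a (l 3) (a (l 369534959575) (b (l 3) (c (l 241759682599) (l 240685940871))))))) (a (a (b (l 3) (b (a (b (l 3) (l 229948522503)) (l 168208367639)) (l 197736267831))) (b (b (c (l 364703121415) (l 365776863335)) (a (c (l 238538457127) (l 238001586311)) (l 184314495015))) (l 16777016))) (c (l 199346880439) (l 198273138711)))))))), by decide +kernel⟩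

def k85_pm_213 : ∃ t, chk3 f_pm_213 t 8074 1060 1 = true :=
  ⟨(b (l 3) (a (b (b (l 3) (a (c (c (l 441475661799) (l 7855599975999866748025012319)) (l 7874942789113700058906132575)) (b (a (l 3) (a (l 436106952663) (b (l 3) (c (l 241222811687) (l 240685940871))))) (a (b (a (l 3) (a (l 364703121399) (l 233706618887))) (c (l 175187689543) (l 173577076887))) (l 193978171463))))) (b (b (a (a (b (l 3) (a (b (l 3) (l 229411651591)) (l 167671496727))) (a (b (c (l 238538457127) (l 237464715399)) (l 16777160)) (l 194515042359))) (l 16777040)) (l 206863073303)) (l 16776152))) (b (b (b (a (l 3) (a (b (l 3) (a (l 3) (a (l 365239992311) (l 233706618887)))) (b (a (l 366313734119) (c (l 241759682615) (l 240685940871))) (l 185388236839)))) (a (a (l 3) (b (c (l 364703121415) (l 365776863335)) (a (c (l 238001586215) (l 237464715399)) (l 183777624103)))) (c (l 193441300535) (l 192367558791)))) (a (a (b (b (a (b (l 3) (l 229411651591)) (l 167671496727)) (l 197199396919)) (l 16777360)) (l 16777208)) (l 16776112)))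 (l 16774864)))), by decide +kernel⟩

def k86_pm_213 : ∃ t, chk3 f_pm_213 t 8075 1060 1 = true :=
  ⟨(b (b (b (l 3) (b (l 3) (a (l 3) (a (l 3) (a (b (l 3) (a (l 3) (a (l 365239992311) (l 4712392845001835772871966815)))) (b (a (l 366313734119) (c (l 240685940791) (l 240149069959))) (l 185388236839))))))) (a (b (a (l 3) (b (l 3) (a (l 3) (a (l 436643823575) (b (l 3) (c (l 241222811703) (l 240149069959))))))) (b (a (c (l 433959468935) (l 435570081751)) (a (b (a (l 3) (b (l 3) (l 238001586183))) (c (l 174650818631) (l 173577076887))) (l 193441300551))) (a (a (b (l 3) (c (l 4741407064672585567394889823) (c (l 4673707218774165852575088735) (l 4625350185989580823025827935)))) (a (b (c (l 238001586215) (l 237464715399)) (l 16777160)) (l 194515042359))) (l 16777040)))) (b (a (a (b (l 3) (b (c (l 4741407064672587147942854751) (c (l 4673707218774167364403576927) (l 4625350185989582266134839391))) (l 197199396919))) (b (b (l 6830430880966665537201340511) (a (c (l 238001586215) (l 236927844487)) (l 183777624103)))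 (l 16777184))) (c (l 198810009543) (l 198273138711))) (l 16776784)))) (c (l 202031234807) (l 3783937815537804552426569823))), by decide +kernel⟩

def k87_pm_213 : ∃ t, chk3 f_pm_213 t 2018 1061 1 = true :=
  ⟨(a (b (a (b (b (l 3) (a (l 3) (b (a (l 3) (a (b (l 3) (a (l 3) (a (l 364703121399) (l 234780360711)))) (b (a (l 365776863207) (c (l 241759682599) (l 241222811783))) (l 185925107751)))) (a (a (l 3) (b (c (l 364703121415) (l 365239992407)) (a (c (l 239075328039) (l 234780360823)) (l 184851365911)))) (c (l 193441300519) (l 192367558791)))))) (a (b (a (a (l 3) (c (l 433959468903) (l 7845928569442943254996648031))) (b (a (l 3) (a (l 369534959575) (b (l 3) (c (l 242296553511) (l 241222811783))))) (a (b (a (l 3) (a (l 364703121399) (l 234780360711))) (c (l 175187689527) (l 174650818711))) (l 193978171463)))) (b (a (a (b (l 3) (a (a (l 366850605031) (l 230485393399)) (l 168745238551))) (b (a (c (l 239075328039) (l 235317231735)) (l 184851365911)) (l 16777000))) (l 16776712)) (l 206863073303))) (b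 (b (b (a (a (a (a (l 366850605031) (l 229948522487)) (l 168745238551)) (l 16777000)) (l 16777376)) (l 206326202359)) (l 16776752)) (l 16774872)))) (a (b (b (a (b (c (l 433422598023) (l 435033210839)) (b (a (l 3) (a (c (l 238538457127) (l 234780360839)) (l 184851365927))) (a (a (b (l 3) (l 229948522503)) (l 168208367639)) (l 16777000)))) (a (b (b (a (l 3) (a (l 364703121399) (l 234780360711))) (c (l 175187689543) (l 174113947799))) (l 16776696)) (l 200420622295))) (l 207936815175)) (l 16777472)) (l 16776792))) (l 16775928)) (l 16776912)), by decide +kernel⟩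

def k88_pm_213 : ∃ t, chk3 f_pm_213 t 2019 530 1 = true :=
  ⟨(b (b (b (a (a (a (b (a (c (l 7855599975999873413814239327) (l 7884614195670622933459304543)) (b (a (l 3) (a (l 437180694487) (b (l 3) (c (l 240685940791) (l 240149069959))))) (a (b (a (l 3) (a (l 365239992311) (l 4528636120420413650145116255))) (c (l 174113947719) (l 173040205895))) (l 193441300551)))) (b (a (a (b (l 3) (c (l 4731735658115671763812663391) (c (l 4664035812217251774114938975) (l 4625350185989583709243850847)))) (a (b (c (l 237464715303) (l 236927844487)) (l 16777160)) (l 193978171463))) (l 16777040)) (l 206863073303))) (a (a (b (b (b (c (l 4731735658115673344360628319) (c (l 4664035812217253285943427167) (l 4615678779432668118955212895))) (l 196662526007)) (l 16777368)) (l 16777448)) (l 211158040679)) (l 16776168))) (l 16777368)) (l 16776976)) (l 16776376)) (l 16776728)) (l 16776128)), by decide +kernel⟩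

def k89_pm_213 : ∃ t, chk3 f_pm_213 t 1009 531 1 = true :=
  ⟨(l 16775448), by decide +kernel⟩

def k90_pm_213 : ∃ t, chk3 f_pm_213 t 505 528 1 = true :=
  ⟨(l 6), by decide +kernel⟩

def k91_pm_213 : ∃ t, chk3 f_pm_213 t 8080 1058 1 = true :=
  ⟨(b (l 3) (a (b (l 3) (b (a (c (l 7865271382556803229034578015) (l 7894285602227552061484875871)) (b (a (l 3) (a (l 438254436311) (b (l 3) (c (l 242296553527) (l 238538457223))))) (a (b (a (l 3) (c (l 4664035812217265861607587935) (l 4528636120420425813492613215))) (c (l 3116610763110540586703208543) (l 3087596543439787905962295391))) (l 192904429639)))) (b (a (a (b (l 3) (a (c (l 363092508711) (l 364166250615)) (c (l 165524013127) (l 164450271383)))) (a (b (c (l 4809106910571020812816531551) (l 4673707218774180833421033567)) (l 16777160)) (l 193441300551))) (l 16777040)) (l 206863073303)))) (b (b (l 3) (b (a (l 3) (b (b (l 6849773694080515821793132639) (a (l 3) (c (l 4664035812217267717033476191) (l 4567321746648095733789622367)))) (a (a (l 3) (a (l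 365776863223) (l 4489950494192759810205679711))) (l 183777624119)))) (a (a (l 3) (b (l 6840102287523598376078639199) (a (c (l 4799435504014105291247370335) (l 4664035812217265243132395615)) (l 181093269543)))) (c (l 3464781399159555988041810015) (l 3455109992602637236657324127))))) (a (a (a (b (b (b (c (l 363092508711) (l 364166250615)) (l 189683204151)) (l 16777360)) (l 16777440)) (l 3658209530297895556483170399)) (l 211158040679)) (l 16776168))))), by decide +kernel⟩

def k92_pm_213 : ∃ t, chk3 f_pm_213 t 8081 1058 1 = true :=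
  ⟨(b (b (l 3) (a (a (l 3) (a (l 3) (a (l 7923299821898308246918824031) (b (l 3) (b (l 3) (b (l 3) (c (l 241759682615) (l 238001586311)))))))) (b (b (l 3) (a (l 3) (b (b (l 6849773694080519189047492703) (a (l 3) (c (l 4654364405660353844731756639) (l 4557650340091181655329472607)))) (a (a (l 3) (a (l 366313734135) (l 4480279087635845869184565343))) (l 183777624119))))) (a (b (a (l 3) (b (l 6840102287523601399735615583) (a (c (l 4799435504014108452343300191) (l 4664035812217268198069895263)) (l 181093269543)))) (a (a (b (c (l 363629379623) (l 364166250615)) (l 189146333239)) (l 3290696081135050142798364767)) (l 16777184))) (c (l 3580838277842563893506801759) (l 3561495464728727902566236255)))))) (b (b (a (b (a (c (l 435570081687) (l 437180694487)) (b (a (a (l 3) (a (l 365776863223) (l 4489950494192761322034167903))) (l 183777624119)) (c (l 3358395927033469995057184863) (l 3348724520476551174953222239)))) (a (a (b (l 3) (a (c (l 363092508711) (l 364166250615)) (c (l 165524013127) (l 163913400471))))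 (a (b (c (l 4799435504014106871795335263) (l 4664035812217266754960883807)) (l 16777160)) (l 192904429639))) (l 16777040))) (l 16776792)) (l 3774266408980903874264957023)) (l 16777328))), by decide +kernel⟩

def k93_pm_213 : ∃ t, chk3 f_pm_213 t 4041 1058 1 = true :=
  ⟨(b (b (b (l 6) (b (l 6) (a (a (a (c (l 436106952599) (l 437717565399)) (b (a (a (l 3) (a (l 366313734135) (l 4480279087635847381012971615))) (l 183240753207)) (c (l 3358395927033473087433637983) (l 3339053113919637096493072479)))) (l 16776760)) (l 16777328)))) (b (a (b (a (a (a (b (l 3) (a (c (l 363629379623) (l 364166250615)) (c (l 164987142215) (l 163376529559)))) (a (b (c (l 4789764097457192930774138975) (l 4654364405660352676500734047)) (l 16777160)) (l 192904429639))) (l 16777040)) (l 16774848)) (l 3764595002423989520926851167)) (l 16777256)) (l 16777288))) (l 16777032)), by decide +kernel⟩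

def k94_pm_213 : ∃ t, chk3 f_pm_213 t 2020 1059 1 = true :=
  ⟨(a (l 143993245362503775) (l 16776424)), by decide +kernel⟩

def k95_pm_213 : ∃ t, chk3 f_pm_213 t 2021 529 1 = true :=
  ⟨(l 16776040), by decide +kernel⟩

def k96_pm_213 : ∃ t, chk3 f_pm_213 t 1011 529 1 = true :=
  ⟨(l 16774456), by decide +kernel⟩

def k97_pm_213 : ∃ t, chk3 f_pm_213 t 505 265 1 = true :=
  ⟨(l 16762608), by decide +kernel⟩

def k98_pm_213 : ∃ t, chk3 f_pm_213 t 252 133 1 = true :=
  ⟨(a (b (a (b (a (b (a (l 16775824) (l 16776616)) (l 16776080)) (l 16775424)) (l 16774360)) (l 16773056)) (l 16770944)) (l 16768328)), by decide +kernel⟩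

def k99_pm_213 : ∃ t, chk3 f_pm_213 t 253 66 1 = true :=
  ⟨(b (l 16757888) (l 16761984)), by decide +kernel⟩

def k100_pm_213 : ∃ t, chk3 f_pm_213 t 126 67 1 = true :=
  ⟨(l 16737072), by decide +kernel⟩

def k101_pm_213 : ∃ t, chk3 f_pm_213 t 127 33 1 = true :=
  ⟨(b (l 16731408) (l 16740936)), by decide +kernel⟩

def k102_pm_213 : ∃ t, chk3 f_pm_213 t 248 136 1 = true :=
  ⟨(a (l 3) (b (l 3) (a (l 3) (b (a (l 3) (b (l 3) (a (l 3) (a (l 3) (b (l 3) (b (l 3) (c (l 368461208951) (l 358260661895)))))))) (a (b (l 3) (a (a (l 3) (a (l 429127620903) (b (l 3) (b (l 3) (l 248738994407))))) (b (a (l 430738233943) (b (l 368461208471) (a (a (l 352355080663) (l 239612189255)) (l 16772720)))) (a (a (b (c (l 355039435415) (l 353428822551)) (l 16772616)) (l 183777614247)) (l 16772864))))) (b (b (a (l 3) (b (a (l 430738234679) (a (a (l 352891952855) (l 239612189879)) (l 16772704))) (a (a (c (l 355576306967) (l 355576307239)) (c (l 249275866119) (l 170892713319))) (l 16773112)))) (a (b (a (l 3) (a (l 358260661447)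 (c (l 249275865991) (l 248202124359)))) (a (a (l 3) (a (l 353965693607) (l 243370285847))) (l 185388227415))) (l 16773200))) (a (b (a (a (b (l 243370285719) (l 16772848)) (l 16772904)) (l 16773096)) (l 16773248)) (l 16773624)))))))), by decide +kernel⟩

def k103_pm_213 : ∃ t, chk3 f_pm_213 t 496 137 1 = true :=
  ⟨(b (a (l 3) (b (l 3) (a (l 3) (b (c (l 7710528877646009404783313119) (l 7729871690759852679988789471)) (b (a (l 3) (a (b (l 428053877527) (l 4722064251558642236619309279)) (b (l 4547978933534133230280163551) (l 16771808)))) (a (a (c (l 6453246025246798018026717407) (l 6443574618689886825784901855)) (a (b (l 357186917015) (l 16771512)) (l 3155296389338078771750912223))) (l 16771888))))))) (a (b (a (l 3) (b (l 3) (b (l 7681514657975288472439619807) (a (l 3) (a (b (l 369534946775) (l 247665249207)) (l 3184310609008872340579369183)))))) (a (a (b (l 3) (a (b (l 3) (b (l 353965689383) (l 175724546007))) (b (b (l 3) (l 4606007372875689856489079007)) (l 16770616)))) (b (a (l 428590746151) (b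 (l 3) (b (l 356113173511) (l 244444023287)))) (c (l 3358395927033396121605226719) (l 3348724520476483829851799775)))) (b (a (b (a (l 6453246025246820558013858015) (a (l 4751078471229435393130315999) (l 175187676103))) (l 189146319543)) (l 16771336)) (l 16771616)))) (b (a (b (a (a (l 3) (b (l 3) (b (l 3) (c (l 4596335966318739494146638047) (l 4567321746648002550166208735))))) (a (b (l 428590747687) (b (l 4722064251558657492342374623) (l 16771352))) (b (b (l 356650045783) (l 244444024647)) (l 16771544)))) (a (a (b (b (l 6433903212132976389455593695) (l 175724547463)) (l 16771320)) (l 16771440)) (l 16771816))) (l 3561495464728594655488262367)) (l 16772872)))), by decide +kernel⟩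

def k104_pm_213 : ∃ t, chk3 f_pm_213 t 497 137 1 = true :=
  ⟨(b (a (b (a (b (l 3) (a (l 3) (a (l 430738232471) (b (l 3) (b (l 357186918023) (c (l 244444026007) (l 243907155383))))))) (b (a (l 3) (b (c (l 425369524055) (l 426443266167)) (a (a (c (l 356650047399) (l 357186918599)) (b (l 428053878951) (l 171429582663))) (b (c (c (l 244444026679) (l 243907155895)) (l 4509293307306447985541447903)) (l 16772472))))) (a (b (a (b (l 3) (c (l 6433903212132939006062330079) (c (l 6424231805576030425160532191) (l 6424231805576035579121434847)))) (b (a (l 357723789255) (l 249275864679)) (l 185925097031))) (c (l 189683193191) (l 189146322567))) (l 16772696)))) (a (b (a (b (a (l 3) (a (l 424295781591) (b (l 3) (l 238001574871)))) (a (b (c (l 6433903212132952543798558943) (l 6424231805576042657226801375)) (l 175187677911)) (l 16771656))) (a (b (b (c (l 4770421284343216889528320223) (l 4693050031887887906611953887)) (l 16772024)) (l 16772232)) (l 16772352))) (l 16772520)) (l 16773264))) (b (a (b (b (a (a (a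 (b (l 3) (l 243370285079)) (b (a (l 353965692967) (l 243907156119)) (l 16772512))) (l 191293806855)) (l 16773016)) (l 16773048)) (l 16773464)) (l 16774208)) (l 16774800))) (l 16754424)), by decide +kernel⟩

def k105_pm_213 : ∃ t, chk3 f_pm_213 t 498 272 1 = true :=
  ⟨(a (b (l 3) (a (l 3) (a (l 3) (b (l 3) (b (a (l 3) (b (l 3) (c (l 368461210183) (l 368998081351)))) (b (a (l 431811977719) (a (b (l 355039437079) (l 245517771143)) (l 185388229095))) (a (a (a (l 369534951991) (b (l 3) (l 239612191031))) (a (l 242296545575) (l 16773568))) (l 16773728)))))))) (b (a (l 3) (b (a (l 3) (a (l 3) (a (l 3) (b (l 3) (b (l 3) (c (l 357723793223) (b (l 3) (l 353965696807)))))))) (b (a (l 3) (b (a (l 432885720711) (a (b (l 355576309159) (a (l 244444030519) (l 16774176))) (l 185388230279))) (a (a (a (l 370071824071) (b (l 3) (l 239075321303))) (a (b (l 352891954647) (l 16774128)) (l 185388230199))) (l 16774320)))) (a (a (a (l 3) (b (l 3) (a (l 358260663831) (b (l 357186921719) (l 173040198951))))) (b (a (l 369534953015)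 (b (a (l 3) (l 238538450295)) (l 176798295399))) (c (l 185925100791) (l 185388230215)))) (l 198273131943))))) (a (b (b (a (l 3) (a (l 433422590951) (a (b (l 3) (b (l 355576308583) (l 244980900823))) (b (c (l 357723792647) (l 357723792887)) (l 185388229703))))) (b (a (l 3) (a (a (a (l 369534952583) (b (l 3) (l 239612191639))) (b (l 247665255287) (l 16773872))) (l 16774032))) (a (a (l 3) (a (l 369534952439) (b (a (l 3) (l 239075320615)) (l 176798294823)))) (l 16772736)))) (a (a (b (a (b (l 3) (a (b (l 355576308215) (l 16773632)) (l 176261423703))) (b (b (l 430201365447) (l 248202125895)) (l 16773760))) (l 16773912)) (c (l 196662518471) (l 196125647815))) (l 16774416))) (b (a (b (a (a (a (b (b (l 355576308807) (l 16773936)) (l 16774040)) (l 188609455255)) (l 16774128)) (l 16774328)) (l 16774496)) (l 16774864)) (l 16775200))))), by decide +kernel⟩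

def k106_pm_213 : ∃ t, chk3 f_pm_213 t 498 273 1 = true :=
  ⟨(a (b (a (b (b (l 3) (a (l 3) (a (l 431811977015) (b (c (l 368461209575) (l 368998080743)) (a (b (l 355039436471) (l 245517770535)) (l 185388228487)))))) (b (b (a (l 3) (a (a (b (l 3) (l 240149061207)) (c (l 249275866743) (l 170355842951))) (l 16773424))) (a (a (l 3) (a (l 368998080311) (b (l 352891952615) (l 16772912)))) (l 16773440))) (a (a (a (b (l 3) (c (l 243370286375) (l 242833415655))) (b (b (l 370071822087) (l 237464706439)) (l 16773144))) (l 191293808135)) (l 16773656)))) (b (a (b (b (a (l 3) (a (l 368998080919) (b (l 352891953223) (l 177335165127)))) (a (a (l 3) (b (l 370071822695) (l 248202125287))) (l 185388228727))) (a (a (b (c (l 243370286999) (l 242833416343)) (l 16773472)) (l 16773528)) (l 16773720))) (l 16773312)) (l 16774288))) (l 16772008)) (l 16755160)), by decide +kernel⟩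

def k107_pm_213 : ∃ t, chk3 f_pm_213 t 499 136 1 = true :=
  ⟨(b (a (b (a (a (b (a (b (l 3) (b (a (l 3) (b (l 431275108423) (a (l 352891954919) (l 173040199527)))) (a (b (a (l 356113180375) (l 239075321591)) (l 16774256)) (l 16774344)))) (b (b (l 3) (a (l 369534952935) (b (a (l 3) (a (l 354502567911) (l 233706612759))) (l 176261425063)))) (c (c (c (l 192367552375) (l 192367552439)) (l 191830681527)) (l 191293810727)))) (l 16774784)) (b (b (b (a (a (a (l 427517012231) (b (l 3) (l 238538450967))) (b (c (l 248202127399) (l 247128385799)) (l 16774448))) (l 16774608)) (l 197736261623)) (l 16774856)) (l 16775304))) (l 16765296)) (l 16755488)) (l 16756968)) (l 16777360)), by decide +kernel⟩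

def k108_pm_213 : ∃ t, chk3 f_pm_213 t 249 137 1 = true :=
  ⟨(l 16755584), by decide +kernel⟩

def k109_pm_213 : ∃ t, chk3 f_pm_213 t 124 69 1 = true :=
  ⟨(a (a (b (l 599439486455383459161183) (l 16778248)) (l 16777568)) (l 16771784)), by decide +kernel⟩

def k110_pm_213 : ∃ t, chk3 f_pm_213 t 125 34 1 = true :=
  ⟨(b (a (l 16770488) (l 16762384)) (l 16760120)), by decide +kernel⟩

def k111_pm_213 : ∃ t, chk3 f_pm_213 t 62 35 1 = true :=
  ⟨(a (l 16769304) (l 16754720)), by decide +kernel⟩

def k112_pm_213 : ∃ t, chk3 f_pm_213 t 63 17 1 = true :=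
  ⟨(b (a (l 16746664) (l 16729280)) (l 16729624)), by decide +kernel⟩

def k113_pm_213 : ∃ t, chk3 f_pm_213 t 15 9 1 = true :=
  ⟨(a (b (a (b (a (b (a (l 3) (b (l 3) (a (l 3) (b (l 371682377095) (a (b (l 3) (l 209547351223)) (l 174113860007)))))) (a (b (a (l 3) (b (l 3) (a (l 3) (l 245517689623)))) (a (b (l 321753353271) (a (l 210084195079) (l 16724608))) (b (l 177335075191) (l 16723456)))) (b (a (b (a (l 329269559783) (l 214916054519)) (l 168745172999)) (l 171966406663)) (l 16723704)))) (b (a (b (a (b (l 3) (a (l 3) (b (l 3) (l 3774266408980615458558754847)))) (b (a (l 3) (b (a (l 3) (l 199883702551)) (l 2545997776252177230963081247))) (a (b (a (l 200957436247) (l 162302741959)) (l 162839612247)) (l 172503290583)))) (a (b (a (b (l 238538381751) (l 147270350887)) (l 160155255095)) (l 16739088)) (l 16740808))) (b (a (b (a (b (l 2739425907390530749460332575) (l 16750720)) (l 16751848)) (l 16747448)) (l 16749904)) (l 16740488))) (a (l 16726312) (l 16724976)))) (a (b (a (b (l 16716784) (l 16706280))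 (l 16707592)) (l 16686376)) (l 16689448))) (b (a (b (a (l 16746536) (l 16751048)) (l 16726944)) (l 16757264)) (a (l 16686664) (l 16699304)))) (a (b (a (l 16645048) (l 16630384)) (l 16567144)) (b (l 16616680) (l 16525664)))) (b (a (b (l 16761136) (l 16766808)) (b (l 16729832) (l 16738352))) (a (b (l 16676824) (l 16531496)) (l 16756952)))), by decide +kernel⟩

def k114_pm_213 : ∃ t, chk3 f_pm_213 t 7 5 1 = true :=
  ⟨(b (a (a (b (b (a (b (l 3) (a (l 3) (l 198272880407))) (a (b (l 211694662487) (l 185924870471)) (b (l 16636448) (l 16612392)))) (a (a (b (l 209547161943) (l 192904128183)) (b (l 185387985991) (l 16607392))) (l 16606432))) (b (a (a (l 16616344) (l 16572488)) (l 16533344)) (l 16573048))) (b (a (b (l 16612664) (l 16532976)) (l 16549256)) (a (l 16441176) (l 16370168)))) (a (b (a (l 16530456) (l 16374064)) (a (l 16289024) (l 16184832))) (b (a (l 16307656) (l 16340560)) (a (l 16055464) (l 15933696))))) (a (a (b (b (l 16461368) (l 16415656)) (l 16356264)) (b (l 16123792) (l 16120712))) (a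 (b (a (l 16156592) (l 16036648)) (l 15966976)) (b (a (l 15879224) (l 15701968)) (l 15699688))))), by decide +kernel⟩

def k115_pm_213 : ∃ t, chk3 f_pm_213 t 4 3 1 = true :=
  ⟨(b (l 3) (b (b (l 3) (a (l 3) (a (l 3) (b (l 376513721191) (a (l 368997472119) (b (l 239611438327) (l 1))))))) (l 1))), by decide +kernel⟩

def k116_pm_213 : ∃ t, chk3 f_pm_213 t 5 12 1 = true :=
  ⟨(a (l 3) (b (l 3) (a (l 3) (b (a (l 3) (b (l 3) (a (l 3) (b (l 3) (a (l 3) (a (l 3) (l 269139633095))))))) (a (b (l 3) (b (l 3) (l 304036227271))) (b (a (b (l 3) (l 291151326903)) (b (a (l 280413909623) (b (a (l 263234059751) (l 206862599991)) (l 197735793447))) (a (b (a (l 272360862023) (l 213305048039)) (a (l 217063142647) (l 16536608))) (l 16531192)))) (a (b (a (l 292225084151) (b (a (l 280950793399) (l 220284366679)) (a (l 223505590375) (l 16535184)))) (a (b (a (l 289540724759) (l 226726814407)) (a (l 229948037783) (l 16533768))) (l 16527976))) (b (l 16523640) (l 16509744))))))))), by decide +kernel⟩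

def k117_pm_213 : ∃ t, chk3 f_pm_213 t 5 13 1 = true :=
  ⟨(b (a (l 3) (a (b (l 3) (a (l 3) (b (a (l 3) (b (a (l 3) (b (l 279877008695) (l 227800540727))) (a (b (l 284708843767) (l 230484892135)) (l 16518272)))) (a (b (a (l 3) (b (l 288466957927) (l 232632372535))) (a (b (l 292761921943) (l 234779852839)) (l 16514720))) (b (l 16509168) (l 16492240)))))) (b (a (b (a (l 3) (b (a (l 305109979623) (b (a (l 297593785223) (l 233169261799)) (a (l 238001098551) (l 16532368)))) (a (b (a (l 305109974759) (l 238537967991)) (a (l 250349126263) (l 16530968))) (l 16524808)))) (a (b (a (l 3) (b (l 270213338439) (a (l 257328444823) (l 16529552)))) (a (b (l 275045173591) (a (l 263234021511) (l 16528096))) (l 16521608))) (b (l 16516560) (l 16501192)))) (b (a (b (l 16520088) (l 16505472)) (l 16487840)) (l 16469408))) (a (b (a (b (l 16512944) (l 16496808)) (l 16476992)) (l 16456880)) (l 16418504))))) (a (a (l 3) (b (l 3) (a (l 3) (b (a (l 3) (b (l 300278094791) (a (l 279876997047) (l 16501840)))) (a (b (l 304036182455)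 (l 207936294119)) (l 16480344)))))) (a (b (a (b (a (l 3) (b (a (l 3) (b (l 295983144055) (l 236390462087))) (a (l 274508298295) (l 16510872)))) (a (b (a (l 3) (l 277192649111)) (a (l 279340128855) (l 16506616))) (b (l 16500776) (l 16482144)))) (b (a (b (l 16505144) (l 16487384)) (l 16465568)) (l 16443456))) (a (b (b (l 191293133799) (l 16459464)) (l 16428360)) (l 16382168))) (b (a (l 16400944) (l 16341472)) (l 16284952))))), by decide +kernel⟩

def k118_pm_213 : ∃ t, chk3 f_pm_213 t 5 7 1 = true :=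
  ⟨(b (b (a (a (b (a (l 3) (l 357723282215)) (a (l 363628838119) (b (a (l 355575768551) (l 238537803271)) (a (l 233169073255) (l 16448072))))) (b (a (b (a (l 3) (b (l 306720527207) (l 202030704135))) (a (b (l 301351822823) (l 16505440)) (l 16466248))) (b (l 184850595719) (l 16410712))) (b (a (l 16438640) (l 16362912)) (l 16350848)))) (b (a (b (l 16349336) (l 16301800)) (l 16188064)) (a (l 16225424) (l 16080704)))) (a (b (a (a (b (l 250348912967) (l 206325388119)) (b (l 16417144) (l 16363984))) (l 16208360)) (a (b (l 16349216) (l 16291928)) (l 16157736))) (a (b (l 16115200) (l 15997488)) (b (l 15974832) (a (l 15910664) (l 15946024)))))) (b (a (l 1) (b (a (a (l 15922384) (l 15868992)) (l 15996208)) (l 1))) (l 1))), by decide +kernel⟩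

def k119_pm_213 : ∃ t, chk3 f_pm_213 t 6 12 1 = true :=
  ⟨(a (b (a (b (a (l 3) (a (l 3) (b (l 3) (a (l 3) (b (l 3) (a (l 250349173495) (b (l 233169325031) (l 16561800)))))))) (a (a (l 3) (b (l 3) (a (l 3) (b (l 3) (a (l 280413949895) (b (l 273434628023) (l 226189973063))))))) (b (a (a (l 3) (b (l 3) (a (l 265381551079) (b (l 253033541015) (l 207399498887))))) (a (b (a (l 257865362263) (b (l 242832997559) (l 16549560))) (l 185924665831)) (b (l 181092831143) (l 16545888)))) (a (a (b (a (l 272897760951) (b (l 263234084503) (l 216526300663))) (a (b (l 221358137175) (l 16550840)) (l 16548872))) (b (b (l 199346434087) (l 16550144)) (l 16541832))) (l 16533792))))) (b (a (b (a (a (l 272360896359) (b (l 264307854407) (b (l 232632453079) (l 205252036167)))) (a (b (b (l 225653135463) (l 198272718999)) (l 16562224)) (l 16559736))) (a (a (b (b (l 240148641687) (l 211694483175)) (l 16558216)) (l 16560528)) (l 16543824))) (b (l 16542624) (l 16522184))) (a (b (l 16499088) (l 16507800)) (l 16488192)))) (a (b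 (a (b (a (a (l 3) (b (l 3) (a (l 3) (b (l 3) (l 241759210439))))) (b (a (a (l 3) (b (l 294909460711) (l 232095537319))) (a (b (l 227800571671) (l 16549304)) (l 16547224))) (a (a (b (l 236927373879) (l 16547816)) (l 16545648)) (l 16538064)))) (a (b (a (b (l 3) (l 263770926439)) (a (b (l 245517305191) (l 16525376)) (l 16544104))) (a (a (b (l 254644107431) (l 203104505047)) (l 190219605959)) (l 16534536))) (l 16535376))) (b (a (l 16529216) (l 16510200)) (l 16494392))) (a (b (b (l 16537264) (l 16502880)) (l 16481728)) (l 16452544))) (b (a (l 16470024) (l 16436000)) (l 16393208)))) (b (a (b (l 16495064) (l 16447496)) (l 16419952)) (a (b (l 16391688) (l 16326568)) (l 16311952)))), by decide +kernel⟩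

def k120_pm_213 : ∃ t, chk3 f_pm_213 t 6 13 1 = true :=
  ⟨(b (a (a (b (a (l 16435520) (l 16388624)) (l 16339624)) (b (l 16324256) (l 16244976))) (a (b (l 16251216) (l 16169096)) (b (l 16212912) (l 16179400)))) (a (b (a (l 16256968) (l 16154728)) (a (l 16163352) (l 16063376))) (a (b (l 16061168) (l 16094984)) (l 16239280)))), by decide +kernel⟩

def k121_pm_213 : ∃ t, chk3 f_pm_213 t 7 6 1 = true :=
  ⟨(a (b (b (a (l 16305376) (l 16158272)) (a (b (l 16292776) (l 16282000)) (l 16139752))) (b (a (l 16192064) (l 16103328)) (a (l 16234504) (l 16028864)))) (b (a (b (l 15967400) (l 15934992)) (b (l 15661896) (l 15638360))) (a (b (l 15890432) (l 15797288)) (b (l 15591608) (l 15487152))))), by decide +kernel⟩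

def k122_pm_213 : ∃ t, chk3 f_pm_213 t 3 7 1 = true :=
  ⟨(a (b (a (b (a (b (l 16058768) (a (l 15973760) (l 15954544))) (b (a (l 15989752) (l 16023616)) (l 16065208))) (b (a (a (l 15936800) (l 16024600)) (l 16217224)) (l 16064240))) (b (a (l 16192608) (l 16322336)) (b (l 16301392) (l 16187736)))) (b (a (b (a (l 16356080) (l 16385160)) (l 16343992)) (b (l 16035840) (a (l 15977360) (l 15693552)))) (l 1))) (b (a (b (a (l 16115664) (l 15878760)) (a (l 15889560) (b (l 15695840) (l 15529560)))) (b (a (l 15621448) (b (l 15350888) (l 15222544))) (a (b (l 15413960) (l 15277904)) (b (l 15099864) (l 14987240))))) (a (b (b (a (l 15617168) (l 15384368)) (a (l 15480144) (l 15286296))) (l 15295152)) (b (a (l 15133888) (l 14871176)) (a (l 15043272) (l 14817680)))))), by decide +kernel⟩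

theorem s123_pm_213 : ∃ t, chk3 f_pm_213 t 6 6 1 = true := ex3_b k119_pm_213 k120_pm_213

theorem s124_pm_213 : ∃ t, chk3 f_pm_213 t 3 6 1 = true := ex3_a s123_pm_213 k121_pm_213

theorem s125_pm_213 : ∃ t, chk3 f_pm_213 t 3 3 1 = true := ex3_b s124_pm_213 k122_pm_213

theorem s126_pm_213 : ∃ t, chk3 f_pm_213 t 5 6 1 = true := ex3_b k116_pm_213 k117_pm_213

theorem s127_pm_213 : ∃ t, chk3 f_pm_213 t 5 3 1 = true := ex3_b s126_pm_213 k118_pm_213

theorem s128_pm_213 : ∃ t, chk3 f_pm_213 t 2 3 1 = true := ex3_a k115_pm_213 s127_pm_213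

theorem s129_pm_213 : ∃ t, chk3 f_pm_213 t 1 3 1 = true := ex3_a s128_pm_213 s125_pm_213

theorem s130_pm_213 : ∃ t, chk3 f_pm_213 t 498 136 1 = true := ex3_b k105_pm_213 k106_pm_213

theorem s131_pm_213 : ∃ t, chk3 f_pm_213 t 249 136 1 = true := ex3_a s130_pm_213 k107_pm_213

theorem s132_pm_213 : ∃ t, chk3 f_pm_213 t 249 68 1 = true := ex3_b s131_pm_213 k108_pm_213

theorem s133_pm_213 : ∃ t, chk3 f_pm_213 t 248 137 1 = true := ex3_a k103_pm_213 k104_pm_213

theorem s134_pm_213 : ∃ t, chk3 f_pm_213 t 248 68 1 = true := ex3_b k102_pm_213 s133_pm_213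

theorem s135_pm_213 : ∃ t, chk3 f_pm_213 t 124 68 1 = true := ex3_a s134_pm_213 s132_pm_213

theorem s136_pm_213 : ∃ t, chk3 f_pm_213 t 124 34 1 = true := ex3_b s135_pm_213 k109_pm_213

theorem s137_pm_213 : ∃ t, chk3 f_pm_213 t 62 34 1 = true := ex3_a s136_pm_213 k110_pm_213

theorem s138_pm_213 : ∃ t, chk3 f_pm_213 t 62 17 1 = true := ex3_b s137_pm_213 k111_pm_213

theorem s139_pm_213 : ∃ t, chk3 f_pm_213 t 31 17 1 = true := ex3_a s138_pm_213 k112_pm_213

theorem s140_pm_213 : ∃ t, chk3 f_pm_213 t 4040 1058 1 = true := ex3_a k91_pm_213 k92_pm_213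

theorem s141_pm_213 : ∃ t, chk3 f_pm_213 t 2020 1058 1 = true := ex3_a s140_pm_213 k93_pm_213

theorem s142_pm_213 : ∃ t, chk3 f_pm_213 t 2020 529 1 = true := ex3_b s141_pm_213 k94_pm_213

theorem s143_pm_213 : ∃ t, chk3 f_pm_213 t 1010 529 1 = true := ex3_a s142_pm_213 k95_pm_213

theorem s144_pm_213 : ∃ t, chk3 f_pm_213 t 505 529 1 = true := ex3_a s143_pm_213 k96_pm_213

theorem s145_pm_213 : ∃ t, chk3 f_pm_213 t 505 264 1 = true := ex3_b k90_pm_213 s144_pm_213

theorem s146_pm_213 : ∃ t, chk3 f_pm_213 t 505 132 1 = true := ex3_b s145_pm_213 k97_pm_213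

theorem s147_pm_213 : ∃ t, chk3 f_pm_213 t 4037 1060 1 = true := ex3_a k85_pm_213 k86_pm_213

theorem s148_pm_213 : ∃ t, chk3 f_pm_213 t 2018 1060 1 = true := ex3_a k84_pm_213 s147_pm_213

theorem s149_pm_213 : ∃ t, chk3 f_pm_213 t 2018 530 1 = true := ex3_b s148_pm_213 k87_pm_213

theorem s150_pm_213 : ∃ t, chk3 f_pm_213 t 1009 530 1 = true := ex3_a s149_pm_213 k88_pm_213

theorem s151_pm_213 : ∃ t, chk3 f_pm_213 t 1009 265 1 = true := ex3_b s150_pm_213 k89_pm_213

theorem s152_pm_213 : ∃ t, chk3 f_pm_213 t 2017 1062 1 = true := ex3_b k81_pm_213 k82_pm_213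

theorem s153_pm_213 : ∃ t, chk3 f_pm_213 t 2017 531 1 = true := ex3_b s152_pm_213 k83_pm_213

theorem s154_pm_213 : ∃ t, chk3 f_pm_213 t 2016 1063 1 = true := ex3_a k79_pm_213 k80_pm_213

theorem s155_pm_213 : ∃ t, chk3 f_pm_213 t 2016 531 1 = true := ex3_b k78_pm_213 s154_pm_213

theorem s156_pm_213 : ∃ t, chk3 f_pm_213 t 1008 531 1 = true := ex3_a s155_pm_213 s153_pm_213

theorem s157_pm_213 : ∃ t, chk3 f_pm_213 t 1008 265 1 = true := ex3_b k77_pm_213 s156_pm_213

theorem s158_pm_213 : ∃ t, chk3 f_pm_213 t 504 265 1 = true := ex3_a s157_pm_213 s151_pm_213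

theorem s159_pm_213 : ∃ t, chk3 f_pm_213 t 2019 1059 1 = true := ex3_a k75_pm_213 k76_pm_213

theorem s160_pm_213 : ∃ t, chk3 f_pm_213 t 2019 529 1 = true := ex3_b k74_pm_213 s159_pm_213

theorem s161_pm_213 : ∃ t, chk3 f_pm_213 t 1009 529 1 = true := ex3_a k73_pm_213 s160_pm_213

theorem s162_pm_213 : ∃ t, chk3 f_pm_213 t 1009 264 1 = true := ex3_b k72_pm_213 s161_pm_213

theorem s163_pm_213 : ∃ t, chk3 f_pm_213 t 504 264 1 = true := ex3_a k71_pm_213 s162_pm_213

theorem s164_pm_213 : ∃ t, chk3 f_pm_213 t 504 132 1 = true := ex3_b s163_pm_213 s158_pm_213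

theorem s165_pm_213 : ∃ t, chk3 f_pm_213 t 252 132 1 = true := ex3_a s164_pm_213 s146_pm_213

theorem s166_pm_213 : ∃ t, chk3 f_pm_213 t 252 66 1 = true := ex3_b s165_pm_213 k98_pm_213

theorem s167_pm_213 : ∃ t, chk3 f_pm_213 t 126 66 1 = true := ex3_a s166_pm_213 k99_pm_213

theorem s168_pm_213 : ∃ t, chk3 f_pm_213 t 126 33 1 = true := ex3_b s167_pm_213 k100_pm_213

theorem s169_pm_213 : ∃ t, chk3 f_pm_213 t 63 33 1 = true := ex3_a s168_pm_213 k101_pm_213

theorem s170_pm_213 : ∃ t, chk3 f_pm_213 t 63 16 1 = true := ex3_b k70_pm_213 s169_pm_213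

theorem s171_pm_213 : ∃ t, chk3 f_pm_213 t 2008 536 1 = true := ex3_a k62_pm_213 k63_pm_213

theorem s172_pm_213 : ∃ t, chk3 f_pm_213 t 1004 536 1 = true := ex3_a s171_pm_213 k64_pm_213

theorem s173_pm_213 : ∃ t, chk3 f_pm_213 t 1004 268 1 = true := ex3_b s172_pm_213 k65_pm_213

theorem s174_pm_213 : ∃ t, chk3 f_pm_213 t 502 268 1 = true := ex3_a s173_pm_213 k66_pm_213

theorem s175_pm_213 : ∃ t, chk3 f_pm_213 t 502 134 1 = true := ex3_b s174_pm_213 k67_pm_213

theorem s176_pm_213 : ∃ t, chk3 f_pm_213 t 251 134 1 = true := ex3_a s175_pm_213 k68_pm_213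

theorem s177_pm_213 : ∃ t, chk3 f_pm_213 t 251 67 1 = true := ex3_b s176_pm_213 k69_pm_213

theorem s178_pm_213 : ∃ t, chk3 f_pm_213 t 1000 270 1 = true := ex3_b k57_pm_213 k58_pm_213

theorem s179_pm_213 : ∃ t, chk3 f_pm_213 t 500 270 1 = true := ex3_a s178_pm_213 k59_pm_213

theorem s180_pm_213 : ∃ t, chk3 f_pm_213 t 500 135 1 = true := ex3_b s179_pm_213 k60_pm_213

theorem s181_pm_213 : ∃ t, chk3 f_pm_213 t 250 135 1 = true := ex3_a s180_pm_213 k61_pm_213

theorem s182_pm_213 : ∃ t, chk3 f_pm_213 t 1002 538 1 = true := ex3_a k53_pm_213 k54_pm_213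

theorem s183_pm_213 : ∃ t, chk3 f_pm_213 t 1002 269 1 = true := ex3_b s182_pm_213 k55_pm_213

theorem s184_pm_213 : ∃ t, chk3 f_pm_213 t 501 269 1 = true := ex3_a s183_pm_213 k56_pm_213

theorem s185_pm_213 : ∃ t, chk3 f_pm_213 t 1003 537 1 = true := ex3_a k51_pm_213 k52_pm_213

theorem s186_pm_213 : ∃ t, chk3 f_pm_213 t 1003 268 1 = true := ex3_b k50_pm_213 s185_pm_213

theorem s187_pm_213 : ∃ t, chk3 f_pm_213 t 501 268 1 = true := ex3_a k49_pm_213 s186_pm_213

theorem s188_pm_213 : ∃ t, chk3 f_pm_213 t 501 134 1 = true := ex3_b s187_pm_213 s184_pm_213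

theorem s189_pm_213 : ∃ t, chk3 f_pm_213 t 250 134 1 = true := ex3_a k48_pm_213 s188_pm_213

theorem s190_pm_213 : ∃ t, chk3 f_pm_213 t 250 67 1 = true := ex3_b s189_pm_213 s181_pm_213

theorem s191_pm_213 : ∃ t, chk3 f_pm_213 t 125 67 1 = true := ex3_a s190_pm_213 s177_pm_213

theorem s192_pm_213 : ∃ t, chk3 f_pm_213 t 2012 1068 1 = true := ex3_a k42_pm_213 k43_pm_213

theorem s193_pm_213 : ∃ t, chk3 f_pm_213 t 2012 534 1 = true := ex3_b s192_pm_213 k44_pm_213

theorem s194_pm_213 : ∃ t, chk3 f_pm_213 t 1006 534 1 = true := ex3_a s193_pm_213 k45_pm_213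

theorem s195_pm_213 : ∃ t, chk3 f_pm_213 t 1006 267 1 = true := ex3_b s194_pm_213 k46_pm_213

theorem s196_pm_213 : ∃ t, chk3 f_pm_213 t 503 267 1 = true := ex3_a s195_pm_213 k47_pm_213

theorem s197_pm_213 : ∃ t, chk3 f_pm_213 t 2015 1064 1 = true := ex3_a k38_pm_213 k39_pm_213

theorem s198_pm_213 : ∃ t, chk3 f_pm_213 t 2015 532 1 = true := ex3_b s197_pm_213 k40_pm_213

theorem s199_pm_213 : ∃ t, chk3 f_pm_213 t 2014 1065 1 = true := ex3_a k36_pm_213 k37_pm_213

theorem s200_pm_213 : ∃ t, chk3 f_pm_213 t 2014 532 1 = true := ex3_b k35_pm_213 s199_pm_213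

theorem s201_pm_213 : ∃ t, chk3 f_pm_213 t 1007 532 1 = true := ex3_a s200_pm_213 s198_pm_213

theorem s202_pm_213 : ∃ t, chk3 f_pm_213 t 1007 266 1 = true := ex3_b s201_pm_213 k41_pm_213

theorem s203_pm_213 : ∃ t, chk3 f_pm_213 t 2013 533 1 = true := ex3_a k33_pm_213 k34_pm_213

theorem s204_pm_213 : ∃ t, chk3 f_pm_213 t 1006 533 1 = true := ex3_a k32_pm_213 s203_pm_213

theorem s205_pm_213 : ∃ t, chk3 f_pm_213 t 1006 266 1 = true := ex3_b k31_pm_213 s204_pm_213

theorem s206_pm_213 : ∃ t, chk3 f_pm_213 t 503 266 1 = true := ex3_a s205_pm_213 s202_pm_213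

theorem s207_pm_213 : ∃ t, chk3 f_pm_213 t 503 133 1 = true := ex3_b s206_pm_213 s196_pm_213

theorem s208_pm_213 : ∃ t, chk3 f_pm_213 t 2010 535 1 = true := ex3_b k28_pm_213 k29_pm_213

theorem s209_pm_213 : ∃ t, chk3 f_pm_213 t 1005 535 1 = true := ex3_a s208_pm_213 k30_pm_213

theorem s210_pm_213 : ∃ t, chk3 f_pm_213 t 2011 534 1 = true := ex3_b k26_pm_213 k27_pm_213

theorem s211_pm_213 : ∃ t, chk3 f_pm_213 t 1005 534 1 = true := ex3_a k25_pm_213 s210_pm_213

theorem s212_pm_213 : ∃ t, chk3 f_pm_213 t 1005 267 1 = true := ex3_b s211_pm_213 s209_pm_213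

theorem s213_pm_213 : ∃ t, chk3 f_pm_213 t 502 267 1 = true := ex3_a k24_pm_213 s212_pm_213

theorem s214_pm_213 : ∃ t, chk3 f_pm_213 t 502 133 1 = true := ex3_b k23_pm_213 s213_pm_213

theorem s215_pm_213 : ∃ t, chk3 f_pm_213 t 251 133 1 = true := ex3_a s214_pm_213 s207_pm_213

theorem s216_pm_213 : ∃ t, chk3 f_pm_213 t 251 66 1 = true := ex3_b k22_pm_213 s215_pm_213

theorem s217_pm_213 : ∃ t, chk3 f_pm_213 t 125 66 1 = true := ex3_a k21_pm_213 s216_pm_213

theorem s218_pm_213 : ∃ t, chk3 f_pm_213 t 125 33 1 = true := ex3_b s217_pm_213 s191_pm_213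

theorem s219_pm_213 : ∃ t, chk3 f_pm_213 t 999 271 1 = true := ex3_b k19_pm_213 k20_pm_213

theorem s220_pm_213 : ∃ t, chk3 f_pm_213 t 499 271 1 = true := ex3_a k18_pm_213 s219_pm_213

theorem s221_pm_213 : ∃ t, chk3 f_pm_213 t 499 135 1 = true := ex3_b k17_pm_213 s220_pm_213

theorem s222_pm_213 : ∃ t, chk3 f_pm_213 t 249 135 1 = true := ex3_a k16_pm_213 s221_pm_213

theorem s223_pm_213 : ∃ t, chk3 f_pm_213 t 249 67 1 = true := ex3_b k15_pm_213 s222_pm_213

theorem s224_pm_213 : ∃ t, chk3 f_pm_213 t 124 67 1 = true := ex3_a k14_pm_213 s223_pm_213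

theorem s225_pm_213 : ∃ t, chk3 f_pm_213 t 124 33 1 = true := ex3_b k13_pm_213 s224_pm_213

theorem s226_pm_213 : ∃ t, chk3 f_pm_213 t 62 33 1 = true := ex3_a s225_pm_213 s218_pm_213

theorem s227_pm_213 : ∃ t, chk3 f_pm_213 t 62 16 1 = true := ex3_b k12_pm_213 s226_pm_213

theorem s228_pm_213 : ∃ t, chk3 f_pm_213 t 31 16 1 = true := ex3_a s227_pm_213 s170_pm_213

theorem s229_pm_213 : ∃ t, chk3 f_pm_213 t 31 8 1 = true := ex3_b s228_pm_213 s139_pm_213

theorem s230_pm_213 : ∃ t, chk3 f_pm_213 t 123 69 1 = true := ex3_a k9_pm_213 k10_pm_213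

theorem s231_pm_213 : ∃ t, chk3 f_pm_213 t 123 34 1 = true := ex3_b k8_pm_213 s230_pm_213

theorem s232_pm_213 : ∃ t, chk3 f_pm_213 t 61 34 1 = true := ex3_a k7_pm_213 s231_pm_213

theorem s233_pm_213 : ∃ t, chk3 f_pm_213 t 61 17 1 = true := ex3_b s232_pm_213 k11_pm_213

theorem s234_pm_213 : ∃ t, chk3 f_pm_213 t 30 17 1 = true := ex3_a k6_pm_213 s233_pm_213

theorem s235_pm_213 : ∃ t, chk3 f_pm_213 t 30 8 1 = true := ex3_b k5_pm_213 s234_pm_213

theorem s236_pm_213 : ∃ t, chk3 f_pm_213 t 15 8 1 = true := ex3_a s235_pm_213 s229_pm_213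

theorem s237_pm_213 : ∃ t, chk3 f_pm_213 t 15 4 1 = true := ex3_b s236_pm_213 k113_pm_213

theorem s238_pm_213 : ∃ t, chk3 f_pm_213 t 7 4 1 = true := ex3_a k4_pm_213 s237_pm_213

theorem s239_pm_213 : ∃ t, chk3 f_pm_213 t 7 2 1 = true := ex3_b s238_pm_213 k114_pm_213

theorem s240_pm_213 : ∃ t, chk3 f_pm_213 t 6 5 1 = true := ex3_b k2_pm_213 k3_pm_213

theorem s241_pm_213 : ∃ t, chk3 f_pm_213 t 6 2 1 = true := ex3_b k1_pm_213 s240_pm_213

theorem s242_pm_213 : ∃ t, chk3 f_pm_213 t 3 2 1 = true := ex3_a s241_pm_213 s239_pm_213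

theorem s243_pm_213 : ∃ t, chk3 f_pm_213 t 1 2 1 = true := ex3_a k0_pm_213 s242_pm_213

theorem s244_pm_213 : ∃ t, chk3 f_pm_213 t 1 1 1 = true := ex3_b s243_pm_213 s129_pm_213

theorem c_pm_213 : CertB 0 536870912 0 1230186008 1040187392 5207648 3 eng mog cd0q2 cd4q3 pd1 false true false .pnn 2 1 3
    ndB0q2 ndB4q3 pcB1 cut_pm_213 xt_pm_213 :=
  certB0 (fam := false) (s1 := true) (s2 := false) (a := 2) (b := 1) (c := 3) (cn := .pnn) (n1 := ndB0q2) (n2 := ndB4q3) (pc := pcB1) (cut := cut_pm_213) (xt := xt_pm_213) (P1 := 0) (W1 := 536870912) (P2 := 0) (W2 := 1230186008) (P3 := 1040187392) (W3 := 5207648) (N0 := 3) (En := eng) (mo := mog) (C1 := cd0q2) (C2 := cd4q3) (C3 := pd1)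
    rfl s244_pm_213

noncomputable def f_mm_001 : ℕ → ℕ → ℕ → ℕ → Bool := onCell 0 536870912 0 536870912 1040187392 5207648
    (rowB 3 eng mog cd0q0 cd4q1 pd0 1 false false false .up 0 0 1 (qsf 0 536870912 536870912 536870912 0) ndB0q0 ndB4q1 pcB0 Cut.none Ext.none)

def k0_mm_001 : ∃ t, chk3 f_mm_001 t 1 1 1 = true :=
  ⟨(l 3), by decide +kernel⟩

theorem c_mm_001 : CertB 0 536870912 536870912 536870912 1040187392 5207648 3 eng mog cd0q0 cd4q1 pd0 false false false .up 0 0 1
    ndB0q0 ndB4q1 pcB0 Cut.none Ext.none :=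
  certB1 (fam := false) (s1 := false) (s2 := false) (a := 0) (b := 0) (c := 1) (cn := .up) (n1 := ndB0q0) (n2 := ndB4q1) (pc := pcB0) (cut := Cut.none) (xt := Ext.none) (P1 := 0) (W1 := 536870912) (P2 := 536870912) (W2 := 536870912) (P3 := 1040187392) (W3 := 5207648) (N0 := 3) (En := eng) (mo := mog) (C1 := cd0q0) (C2 := cd4q1) (C3 := pd0)
    rfl (fun _ => rfl) k0_mm_001

noncomputable def f_mm_011 : ℕ → ℕ → ℕ → ℕ → Bool := onCell 0 536870912 536870912 536870912 1040187392 5207648
    (rowB 3 eng mog cd0q0 cd4q1 pd1 1 false false false .pnn 0 1 1 (qsf 0 536870912 536870912 536870912 1) ndB0q0 ndB4q1 pcB1 Cut.none Ext.none)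

def k0_mm_011 : ∃ t, chk3 f_mm_011 t 1 1 1 = true :=
  ⟨(l 5), by decide +kernel⟩

theorem c_mm_011 : CertB 0 536870912 536870912 536870912 1040187392 5207648 3 eng mog cd0q0 cd4q1 pd1 false false false .pnn 0 1 1
    ndB0q0 ndB4q1 pcB1 Cut.none Ext.none :=
  certB1 (fam := false) (s1 := false) (s2 := false) (a := 0) (b := 1) (c := 1) (cn := .pnn) (n1 := ndB0q0) (n2 := ndB4q1) (pc := pcB1) (cut := Cut.none) (xt := Ext.none) (P1 := 0) (W1 := 536870912) (P2 := 536870912) (W2 := 536870912) (P3 := 1040187392) (W3 := 5207648) (N0 := 3) (En := eng) (mo := mog) (C1 := cd0q0) (C2 := cd4q1) (C3 := pd1)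
    rfl (fun _ => rfl) k0_mm_011

noncomputable def f_mm_012 : ℕ → ℕ → ℕ → ℕ → Bool := onCell 0 536870912 1073741824 536870912 1040187392 5207648
    (rowB 3 eng mog cd0q0 cd4q2 pd1 0 false false false .pnp 0 1 2 (qsf 0 536870912 1073741824 536870912 1) ndB0q0 ndB4q2 pcB1 Cut.none Ext.none)

def k0_mm_012 : ∃ t, chk3 f_mm_012 t 1 1 1 = true :=
  ⟨(l 5), by decide +kernel⟩

theorem c_mm_012 : CertB 0 536870912 1073741824 536870912 1040187392 5207648 3 eng mog cd0q0 cd4q2 pd1 false false false .pnp 0 1 2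
    ndB0q0 ndB4q2 pcB1 Cut.none Ext.none :=
  certB0 (fam := false) (s1 := false) (s2 := false) (a := 0) (b := 1) (c := 2) (cn := .pnp) (n1 := ndB0q0) (n2 := ndB4q2) (pc := pcB1) (cut := Cut.none) (xt := Ext.none) (P1 := 0) (W1 := 536870912) (P2 := 1073741824) (W2 := 536870912) (P3 := 1040187392) (W3 := 5207648) (N0 := 3) (En := eng) (mo := mog) (C1 := cd0q0) (C2 := cd4q2) (C3 := pd1)
    rfl k0_mm_012

noncomputable def f_mm_022 : ℕ → ℕ → ℕ → ℕ → Bool := onCell 0 536870912 1073741824 536870912 1040187392 5207648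
    (rowB 3 eng mog cd0q0 cd4q2 pd2 0 false false false .pp 0 2 2 (qsf 0 536870912 1073741824 536870912 2) ndB0q0 ndB4q2 pcB2 Cut.none Ext.none)

def k0_mm_022 : ∃ t, chk3 f_mm_022 t 1 1 1 = true :=
  ⟨(l 5), by decide +kernel⟩

theorem c_mm_022 : CertB 0 536870912 1073741824 536870912 1040187392 5207648 3 eng mog cd0q0 cd4q2 pd2 false false false .pp 0 2 2
    ndB0q0 ndB4q2 pcB2 Cut.none Ext.none :=
  certB0 (fam := false) (s1 := false) (s2 := false) (a := 0) (b := 2) (c := 2) (cn := .pp) (n1 := ndB0q0) (n2 := ndB4q2) (pc := pcB2) (cut := Cut.none) (xt := Ext.none) (P1 := 0) (W1 := 536870912) (P2 := 1073741824) (W2 := 536870912) (P3 := 1040187392) (W3 := 5207648) (N0 := 3) (En := eng) (mo := mog) (C1 := cd0q0) (C2 := cd4q2) (C3 := pd2)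
    rfl k0_mm_022

noncomputable def f_mm_023 : ℕ → ℕ → ℕ → ℕ → Bool := onCell 0 536870912 0 1230186008 1040187392 5207648
    (rowB 3 eng mog cd0q0 cd4q3 pd2 0 false false false .up 0 2 3 (qsf 0 536870912 0 1230186008 2) ndB0q0 ndB4q3 pcB2 Cut.none Ext.none)

def k0_mm_023 : ∃ t, chk3 f_mm_023 t 1 1 1 = true :=
  ⟨(l 5), by decide +kernel⟩

theorem c_mm_023 : CertB 0 536870912 0 1230186008 1040187392 5207648 3 eng mog cd0q0 cd4q3 pd2 false false false .up 0 2 3
    ndB0q0 ndB4q3 pcB2 Cut.none Ext.none :=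
  certB0 (fam := false) (s1 := false) (s2 := false) (a := 0) (b := 2) (c := 3) (cn := .up) (n1 := ndB0q0) (n2 := ndB4q3) (pc := pcB2) (cut := Cut.none) (xt := Ext.none) (P1 := 0) (W1 := 536870912) (P2 := 0) (W2 := 1230186008) (P3 := 1040187392) (W3 := 5207648) (N0 := 3) (En := eng) (mo := mog) (C1 := cd0q0) (C2 := cd4q3) (C3 := pd2)
    rfl k0_mm_023

noncomputable def f_mm_033 : ℕ → ℕ → ℕ → ℕ → Bool := onCell 0 536870912 0 1230186008 1040187392 5207648
    (rowB 3 eng mog cd0q0 cd4q3 pd3 0 false false false .pnn 0 3 3 (qsf 0 536870912 0 1230186008 3) ndB0q0 ndB4q3 pcB3 Cut.none Ext.none)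

def k0_mm_033 : ∃ t, chk3 f_mm_033 t 1 1 1 = true :=
  ⟨(l 5), by decide +kernel⟩

theorem c_mm_033 : CertB 0 536870912 0 1230186008 1040187392 5207648 3 eng mog cd0q0 cd4q3 pd3 false false false .pnn 0 3 3
    ndB0q0 ndB4q3 pcB3 Cut.none Ext.none :=
  certB0 (fam := false) (s1 := false) (s2 := false) (a := 0) (b := 3) (c := 3) (cn := .pnn) (n1 := ndB0q0) (n2 := ndB4q3) (pc := pcB3) (cut := Cut.none) (xt := Ext.none) (P1 := 0) (W1 := 536870912) (P2 := 0) (W2 := 1230186008) (P3 := 1040187392) (W3 := 5207648) (N0 := 3) (En := eng) (mo := mog) (C1 := cd0q0) (C2 := cd4q3) (C3 := pd3)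
    rfl k0_mm_033

noncomputable def cut_mm_101 : Cut := Cut.of [[⟨0, 1, 0, 26843545⟩, ⟨1, 0, 0, 26843545⟩, ⟨2, 1, 0, 26843545⟩]]

noncomputable def f_mm_101 : ℕ → ℕ → ℕ → ℕ → Bool := onCell 536870912 536870912 0 536870912 1040187392 5207648
    (rowB 3 eng mog cd0q1 cd4q1 pd0 1 false false false .npn 1 0 1 (qsf 536870912 536870912 536870912 536870912 0) ndB0q1 ndB4q1 pcB0 cut_mm_101 Ext.none)

def k0_mm_101 : ∃ t, chk3 f_mm_101 t 1 1 1 = true :=
  ⟨(a (l 3) (b (a (l 3) (b (a (l 3) (b (a (l 3) (b (b (a (l 3) (l 6)) (l 3)) (l 3))) (l 3))) (l 3))) (l 3))), by decide +kernel⟩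

theorem c_mm_101 : CertB 536870912 536870912 536870912 536870912 1040187392 5207648 3 eng mog cd0q1 cd4q1 pd0 false false false .npn 1 0 1
    ndB0q1 ndB4q1 pcB0 cut_mm_101 Ext.none :=
  certB1 (fam := false) (s1 := false) (s2 := false) (a := 1) (b := 0) (c := 1) (cn := .npn) (n1 := ndB0q1) (n2 := ndB4q1) (pc := pcB0) (cut := cut_mm_101) (xt := Ext.none) (P1 := 536870912) (W1 := 536870912) (P2 := 536870912) (W2 := 536870912) (P3 := 1040187392) (W3 := 5207648) (N0 := 3) (En := eng) (mo := mog) (C1 := cd0q1) (C2 := cd4q1) (C3 := pd0)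
    rfl (fun _ => rfl) k0_mm_101

noncomputable def f_mm_102 : ℕ → ℕ → ℕ → ℕ → Bool := onCell 536870912 536870912 1073741824 536870912 1040187392 5207648
    (rowB 3 eng mog cd0q1 cd4q2 pd0 0 false false false .npp 1 0 2 (qsf 536870912 536870912 1073741824 536870912 0) ndB0q1 ndB4q2 pcB0 Cut.none Ext.none)

def k0_mm_102 : ∃ t, chk3 f_mm_102 t 1 1 1 = true :=
  ⟨(l 3), by decide +kernel⟩

theorem c_mm_102 : CertB 536870912 536870912 1073741824 536870912 1040187392 5207648 3 eng mog cd0q1 cd4q2 pd0 false false false .npp 1 0 2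
    ndB0q1 ndB4q2 pcB0 Cut.none Ext.none :=
  certB0 (fam := false) (s1 := false) (s2 := false) (a := 1) (b := 0) (c := 2) (cn := .npp) (n1 := ndB0q1) (n2 := ndB4q2) (pc := pcB0) (cut := Cut.none) (xt := Ext.none) (P1 := 536870912) (W1 := 536870912) (P2 := 1073741824) (W2 := 536870912) (P3 := 1040187392) (W3 := 5207648) (N0 := 3) (En := eng) (mo := mog) (C1 := cd0q1) (C2 := cd4q2) (C3 := pd0)
    rfl k0_mm_102

noncomputable def f_mm_112 : ℕ → ℕ → ℕ → ℕ → Bool := onCell 536870912 536870912 1073741824 536870912 1040187392 5207648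
    (rowB 3 eng mog cd0q1 cd4q2 pd1 0 false false false .dn 1 1 2 (qsf 536870912 536870912 1073741824 536870912 1) ndB0q1 ndB4q2 pcB1 Cut.none Ext.none)

def k0_mm_112 : ∃ t, chk3 f_mm_112 t 1 1 1 = true :=
  ⟨(l 3), by decide +kernel⟩

theorem c_mm_112 : CertB 536870912 536870912 1073741824 536870912 1040187392 5207648 3 eng mog cd0q1 cd4q2 pd1 false false false .dn 1 1 2
    ndB0q1 ndB4q2 pcB1 Cut.none Ext.none :=
  certB0 (fam := false) (s1 := false) (s2 := false) (a := 1) (b := 1) (c := 2) (cn := .dn) (n1 := ndB0q1) (n2 := ndB4q2) (pc := pcB1) (cut := Cut.none) (xt := Ext.none) (P1 := 536870912) (W1 := 536870912) (P2 := 1073741824) (W2 := 536870912) (P3 := 1040187392) (W3 := 5207648) (N0 := 3) (En := eng) (mo := mog) (C1 := cd0q1) (C2 := cd4q2) (C3 := pd1)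
    rfl k0_mm_112

noncomputable def f_mm_113 : ℕ → ℕ → ℕ → ℕ → Bool := onCell 536870912 536870912 0 1230186008 1040187392 5207648
    (rowB 3 eng mog cd0q1 cd4q3 pd1 0 false false false .nn 1 1 3 (qsf 536870912 536870912 0 1230186008 1) ndB0q1 ndB4q3 pcB1 Cut.none Ext.none)

def k0_mm_113 : ∃ t, chk3 f_mm_113 t 1 1 1 = true :=
  ⟨(b (l 5) (b (l 5) (a (l 5) (l 3)))), by decide +kernel⟩

theorem c_mm_113 : CertB 536870912 536870912 0 1230186008 1040187392 5207648 3 eng mog cd0q1 cd4q3 pd1 false false false .nn 1 1 3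
    ndB0q1 ndB4q3 pcB1 Cut.none Ext.none :=
  certB0 (fam := false) (s1 := false) (s2 := false) (a := 1) (b := 1) (c := 3) (cn := .nn) (n1 := ndB0q1) (n2 := ndB4q3) (pc := pcB1) (cut := Cut.none) (xt := Ext.none) (P1 := 536870912) (W1 := 536870912) (P2 := 0) (W2 := 1230186008) (P3 := 1040187392) (W3 := 5207648) (N0 := 3) (En := eng) (mo := mog) (C1 := cd0q1) (C2 := cd4q3) (C3 := pd1)
    rfl k0_mm_113

noncomputable def f_mm_123 : ℕ → ℕ → ℕ → ℕ → Bool := onCell 1073741824 536870912 0 1230186008 1040187392 5207648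
    (rowB 3 eng mog cd0q1 cd4q3 pd2 2 false false false .npn 1 2 3 (qsf 536870912 536870912 0 1230186008 2) ndB0q1 ndB4q3 pcB2 Cut.none Ext.none)

def k0_mm_123 : ∃ t, chk3 f_mm_123 t 1 1 1 = true :=
  ⟨(b (l 5) (l 5)), by decide +kernel⟩

theorem c_mm_123 : CertB 536870912 536870912 0 1230186008 1040187392 5207648 3 eng mog cd0q1 cd4q3 pd2 false false false .npn 1 2 3
    ndB0q1 ndB4q3 pcB2 Cut.none Ext.none :=
  certB2 (fam := false) (s1 := false) (s2 := false) (a := 1) (b := 2) (c := 3) (cn := .npn) (n1 := ndB0q1) (n2 := ndB4q3) (pc := pcB2) (cut := Cut.none) (xt := Ext.none) (P1 := 536870912) (W1 := 536870912) (P2 := 0) (W2 := 1230186008) (P3 := 1040187392) (W3 := 5207648) (N0 := 3) (En := eng) (mo := mog) (C1 := cd0q1) (C2 := cd4q3) (C3 := pd2)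
    rfl (fun _ => rfl) k0_mm_123

noncomputable def f_mm_133 : ℕ → ℕ → ℕ → ℕ → Bool := onCell 1610612736 536870912 0 1230186008 1040187392 5207648
    (rowB 3 eng mog cd0q1 cd4q3 pd3 2 false false false .dn 1 3 3 (qsf 536870912 536870912 0 1230186008 3) ndB0q1 ndB4q3 pcB3 Cut.none Ext.none)

def k0_mm_133 : ∃ t, chk3 f_mm_133 t 1 1 1 = true :=
  ⟨(l 5), by decide +kernel⟩

theorem c_mm_133 : CertB 536870912 536870912 0 1230186008 1040187392 5207648 3 eng mog cd0q1 cd4q3 pd3 false false false .dn 1 3 3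
    ndB0q1 ndB4q3 pcB3 Cut.none Ext.none :=
  certB2 (fam := false) (s1 := false) (s2 := false) (a := 1) (b := 3) (c := 3) (cn := .dn) (n1 := ndB0q1) (n2 := ndB4q3) (pc := pcB3) (cut := Cut.none) (xt := Ext.none) (P1 := 536870912) (W1 := 536870912) (P2 := 0) (W2 := 1230186008) (P3 := 1040187392) (W3 := 5207648) (N0 := 3) (En := eng) (mo := mog) (C1 := cd0q1) (C2 := cd4q3) (C3 := pd3)
    rfl (fun _ => rfl) k0_mm_133

noncomputable def f_mm_202 : ℕ → ℕ → ℕ → ℕ → Bool := onCell 0 536870912 0 536870912 1040187392 5207648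
    (rowB 3 eng mog cd0q2 cd4q2 pd0 1 false false false .pp 2 0 2 (qsf 0 536870912 1073741824 536870912 0) ndB0q2 ndB4q2 pcB0 Cut.none Ext.none)

def k0_mm_202 : ∃ t, chk3 f_mm_202 t 8 4 1 = true :=
  ⟨(b (b (b (l 14743456) (b (l 14623888) (b (l 14597144) (l 14582744)))) (b (b (a (l 14475424) (b (l 14723024) (l 14560568))) (a (a (l 14380816) (l 14434480)) (a (l 14456688) (l 14526200)))) (a (b (a (l 14281240) (b (l 14353280) (l 14301208))) (a (b (l 14203416) (l 14152504)) (l 14238368))) (b (l 14389648) (a (l 14303112) (a (l 14357496) (b (l 14403600) (l 14368680)))))))) (b (b (a (b (l 14130888) (l 14070376)) (a (a (b (l 14222040) (b (l 14184672) (l 14159792))) (b (b (l 14273144) (l 14248256)) (b (l 14217688) (l 14191608)))) (b (a (b (l 14308624) (l 14277392)) (l 14323896)) (l 14250376)))) (b (a (a (l 13979328) (a (l 14048392) (b (l 14100592) (l 14074496)))) (a (b (l 14145840) (l 14122128)) (l 14195752))) (a (a (b (l 13949424) (l 13936184)) (a (b (l 14018304) (l 13993168)) (l 14038664))) (a (l 14083600)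 (l 14145072))))) (a (b (b (a (a (b (l 13894368) (l 13882968)) (b (l 13938416) (l 13916536))) (l 13974864)) (a (b (a (l 13861584) (l 13895344)) (l 13858256)) (l 13929488))) (b (l 13857152) (l 13818296))) (b (a (b (l 14035584) (l 13991176)) (b (a (l 14082200) (b (l 14126640) (l 14102672))) (a (b (l 14049080) (l 14029304)) (b (l 14078040) (l 14056928))))) (a (b (b (l 13960144) (l 13942240)) (a (l 13896536) (b (a (l 13930128) (l 13944304)) (l 13916944)))) (b (a (b (l 14006504) (l 13984784)) (l 14024920)) (l 13970152))))))), by decide +kernel⟩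

def k1_mm_202 : ∃ t, chk3 f_mm_202 t 9 8 1 = true :=
  ⟨(a (b (b (b (l 14969520) (a (l 14846032) (b (l 14937600) (l 14868120)))) (b (b (a (b (l 14785776) (b (l 14771640) (l 14768392))) (l 14823744)) (l 14768656)) (b (l 14745144) (l 14739984)))) (b (b (a (b (l 14685176) (l 14644760)) (a (b (l 14717112) (l 14676280)) (b (l 14740464) (l 14697272)))) (a (b (l 14596120) (l 14556040)) (a (b (l 14632408) (l 14592400)) (l 14640448)))) (a (b (b (a (l 14502304) (l 14528192)) (a (l 14465808) (l 14494896))) (b (l 14445040) (l 14414872))) (b (l 14555904) (a (l 14475656) (b (l 14522840) (l 14489856))))))) (b (b (b (b (a (l 15097400) (l 15159120)) (a (l 15028712) (l 15116312))) (a (b (l 14980712) (l 14962032)) (b (l 15078440) (l 15019728)))) (b (a (c (l 14895648) (l 14908160)) (a (a (l 14938472) (a (l 14949360) (l 14955072))) (a (b (b (l 15020472) (l 14995648)) (l 14960832)) (l 14976552)))) (a (a (b (l 14843856) (l 14805856)) (b (l 14873512) (l 14831448))) (a (b (l 14899296) (l 14859944)) (b (l 14923120) (l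 14878296)))))) (b (a (b (b (a (l 14763608) (l 14791176)) (l 14741512)) (a (l 14669352) (b (l 14715888) (l 14676712)))) (b (a (b (l 14817272) (l 14775680)) (l 14813656)) (l 14721064))) (a (a (b (b (l 14617912) (l 14581592)) (l 14526432)) (b (l 14618368) (l 14545824))) (b (a (l 14635904) (l 14650848)) (l 241218437991)))))), by decide +kernel⟩

def k2_mm_202 : ∃ t, chk3 f_mm_202 t 9 9 1 = true :=
  ⟨(b (a (b (a (b (l 14368904) (b (l 14325464) (l 14299488))) (b (a (b (l 14429840) (l 14401040)) (b (l 14455672) (l 14423880))) (a (b (l 14369568) (l 14339104)) (l 14377872)))) (a (b (a (l 14243104) (b (l 14286224) (l 14257256))) (a (b (l 14205408) (l 14178504)) (l 14218808))) (b (l 14309800) (l 14258664)))) (b (a (b (b (l 14486200) (l 14455088)) (a (l 14400688) (l 262156107719))) (b (l 370604193799) (l 3))) (a (b (a (l 14347400) (l 251955435927)) (a (l 123643176071) (l 3))) (l 3)))) (b (a (a (b (b (l 14166240) (l 14144376)) (l 14110584)) (b (b (l 14223352) (l 14200784)) (a (l 14153832) (a (l 14175608)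 (l 14186328))))) (a (b (l 301884231767) (l 3)) (l 3))) (a (a (b (l 14067912) (l 14027320)) (b (a (l 116126610567) (b (l 145117703879) (l 14120504))) (a (a (l 14063608) (l 295978260359)) (l 3)))) (l 3)))), by decide +kernel⟩

def k3_mm_202 : ∃ t, chk3 f_mm_202 t 8 10 1 = true :=
  ⟨(b (b (a (b (l 13782760) (a (l 13718648) (a (l 13766096) (a (l 13790048) (b (l 13814504) (l 13797912)))))) (a (b (a (a (l 13855416) (b (l 13878696) (l 13859376))) (l 13889208)) (a (b (l 13834208) (l 13818936)) (l 13854816))) (b (l 13932064) (l 13896704)))) (a (a (b (l 13689120) (l 13662632)) (b (a (b (l 13744008) (l 13731672)) (b (l 13774008) (l 13758296))) (a (a (b (l 13709912) (l 13695904)) (l 13715528)) (l 13737384)))) (b (a (l 13808392) (a (l 13849920) (l 13878088))) (a (l 13778344) (a (l 13819888) (c (l 13855760) (l 13840296))))))) (a (b (a (b (a (l 13622944) (a (l 13648664) (l 13661728))) (a (a (l 13594080) (l 13610824)) (l 13629128))) (b (l 13695720) (l 13671616))) (a (b (a (a (l 13574528) (l 13588384)) (l 13608984))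 (l 13575888)) (l 13639216))) (a (b (b (l 13750920) (l 13726096)) (b (l 13703816) (a (l 13670336) (l 13697752)))) (b (a (b (l 13792456) (l 13767592)) (b (b (l 13827168) (c (a (l 13814904) (a (l 13825488) (b (l 13835744) (l 152633237207)))) (l 13805968))) (b (a (l 13794560) (c (a (b (l 13816104) (l 153170069463)) (l 162833749463)) (l 13798472))) (c (a (a (l 13787248) (c (l 138137650119) (l 13789768))) (l 164981185623)) (l 157465004151))))) (a (b (b (l 13750584) (c (a (l 13741224) (a (l 13751648) (l 138674451191))) (l 13731680))) (c (a (b (l 13731360) (a (l 13718656) (l 138674386055))) (b (a (l 138674418151) (l 163907350311)) (l 166054807335))) (a (l 13709936) (l 162833569543)))) (a (b (c (b (a (l 138674485559) (l 163370547591)) (l 165517985031)) (l 161759893735)) (l 3)) (l 3))))))), by decide +kernel⟩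

def k4_mm_202 : ∃ t, chk3 f_mm_202 t 9 10 1 = true :=
  ⟨(a (b (b (a (b (a (l 13974720) (b (l 14013008) (l 13994416))) (a (l 13939352) (a (b (l 13969624) (c (l 13959712) (l 13944800))) (b (c (l 143506754183) (l 13974600)) (l 300273005639))))) (b (a (a (b (l 141359370855) (l 302420585927)) (l 3)) (l 3)) (l 3))) (a (a (b (b (l 13914552) (c (a (l 13899280) (a (l 13910040) (b (l 13921064) (l 144043468391)))) (l 13891016))) (c (b (a (l 13884304) (a (b (l 13898712) (l 149949005031)) (l 161223298135))) (a (a (l 13866408) (b (l 13877048) (l 150485834231))) (c (l 163907610471) (l 163907599895)))) (a (l 13861344) (l 158538896503)))) (a (b (c (b (a (l 138674807687) (l 294904244327)) (l 285240516391)) (l 282556164327)) (l 3)) (l 3))) (l 3))) (a (b (a (a (b (c (b (a (b (l 13856056) (l 151559534727)) (l 162296956647)) (l 164444391495)) (l 159612556311)) (l 3)) (l 3)) (l 3)) (l 3)) (l 3))) (l 3)), by decide +kernel⟩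

def k5_mm_202 : ∃ t, chk3 f_mm_202 t 4 11 1 = true :=
  ⟨(a (a (b (b (a (l 13551024) (b (l 13612392) (l 13597632))) (a (l 13526432) (b (l 13585280) (l 13575312)))) (b (a (l 13511400) (c (a (l 13560144) (b (b (l 13591424) (l 134916048823)) (a (l 135989757415) (b (l 164980805719) (l 13583808))))) (a (l 13542696) (b (l 13572120) (l 164443913719))))) (b (a (l 13506128) (b (a (l 13546504) (a (l 165517644119) (l 3))) (a (c (l 13554032) (l 13536368)) (l 170349418487)))) (a (l 13505456) (a (c (a (l 13546944) (l 167665095799)) (l 165517597623)) (l 3)))))) (b (a (b (a (b (l 13653064) (l 13638232)) (b (b (l 13684512) (c (a (l 13677960) (l 136526845719)) (l 13667872))) (a (c (b (l 13670560) (l 137063662423)) (l 13649928)) (c (b (a (l 13680264) (l 165517843399)) (l 166591562887)) (l 164444066391))))) (b (a (c (a (l 13627544) (b (l 13643952) (l 137063613207))) (l 13617032)) (a (a (b (l 139211118471) (l 166054638087)) (l 167128387223)) (l 3))) (a (c (a (b (l 13619824) (l 13614968)) (b (a (l 13629328) (l 13633104))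 (l 167665208967))) (l 162296506647)) (l 3)))) (b (b (a (c (a (b (a (l 138674356247) (l 164981030087)) (l 166054746839)) (l 3)) (l 165517877495)) (l 3)) (l 3)) (l 3))) (a (b (b (a (c (a (b (l 163907102087) (l 168202039351)) (l 3)) (l 167665167351)) (l 3)) (l 3)) (l 3)) (l 3)))) (l 3)), by decide +kernel⟩

def k6_mm_202 : ∃ t, chk3 f_mm_202 t 5 2 1 = true :=
  ⟨(a (a (b (b (b (b (b (b (a (l 15202832) (l 15267160)) (a (l 15159696) (l 15218072))) (a (b (b (l 15148288) (l 15125384)) (l 15087912)) (l 3))) (a (b (c (l 156393541719) (l 156930381399)) (l 14924328)) (l 3))) (b (l 205248287927) (l 3))) (l 3)) (l 3)) (l 3)) (l 3)), by decide +kernel⟩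

def k7_mm_202 : ∃ t, chk3 f_mm_202 t 2 3 1 = true :=
  ⟨(b (a (a (b (a (b (a (b (a (l 13495472) (b (a (l 13513592) (l 136526552679)) (a (l 137600277671) (l 168738798791)))) (a (b (a (l 13496872) (l 138674007095)) (a (l 13525152) (l 169812517735))) (c (b (l 169812537239) (l 3)) (l 171423126407)))) (b (a (c (b (a (l 168201944743) (l 3)) (l 3)) (l 170349408647)) (l 3)) (l 3))) (a (b (b (l 173570594727) (l 3)) (l 3)) (l 3))) (l 3)) (l 3)) (l 3)) (l 3)) (l 3)), by decide +kernel⟩

def k8_mm_202 : ∃ t, chk3 f_mm_202 t 3 1 1 = true :=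
  ⟨(l 3), by decide +kernel⟩

theorem s9_mm_202 : ∃ t, chk3 f_mm_202 t 4 10 1 = true := ex3_a k3_mm_202 k4_mm_202

theorem s10_mm_202 : ∃ t, chk3 f_mm_202 t 4 5 1 = true := ex3_b s9_mm_202 k5_mm_202

theorem s11_mm_202 : ∃ t, chk3 f_mm_202 t 9 4 1 = true := ex3_b k1_mm_202 k2_mm_202

theorem s12_mm_202 : ∃ t, chk3 f_mm_202 t 4 4 1 = true := ex3_a k0_mm_202 s11_mm_202

theorem s13_mm_202 : ∃ t, chk3 f_mm_202 t 4 2 1 = true := ex3_b s12_mm_202 s10_mm_202

theorem s14_mm_202 : ∃ t, chk3 f_mm_202 t 2 2 1 = true := ex3_a s13_mm_202 k6_mm_202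

theorem s15_mm_202 : ∃ t, chk3 f_mm_202 t 2 1 1 = true := ex3_b s14_mm_202 k7_mm_202

theorem s16_mm_202 : ∃ t, chk3 f_mm_202 t 1 1 1 = true := ex3_a s15_mm_202 k8_mm_202

theorem c_mm_202 : CertB 0 536870912 1073741824 536870912 1040187392 5207648 3 eng mog cd0q2 cd4q2 pd0 false false false .pp 2 0 2
    ndB0q2 ndB4q2 pcB0 Cut.none Ext.none :=
  certB1 (fam := false) (s1 := false) (s2 := false) (a := 2) (b := 0) (c := 2) (cn := .pp) (n1 := ndB0q2) (n2 := ndB4q2) (pc := pcB0) (cut := Cut.none) (xt := Ext.none) (P1 := 0) (W1 := 536870912) (P2 := 1073741824) (W2 := 536870912) (P3 := 1040187392) (W3 := 5207648) (N0 := 3) (En := eng) (mo := mog) (C1 := cd0q2) (C2 := cd4q2) (C3 := pd0)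
    rfl (fun _ => rfl) s16_mm_202

noncomputable def f_mm_203 : ℕ → ℕ → ℕ → ℕ → Bool := onCell 0 536870912 0 1230186008 1040187392 5207648
    (rowB 3 eng mog cd0q2 cd4q3 pd0 0 false false false .up 2 0 3 (qsf 0 536870912 0 1230186008 0) ndB0q2 ndB4q3 pcB0 Cut.none Ext.none)

def k0_mm_203 : ∃ t, chk3 f_mm_203 t 1 1 1 = true :=
  ⟨(b (l 2) (a (b (l 2) (l 3)) (l 3))), by decide +kernel⟩

theorem c_mm_203 : CertB 0 536870912 0 1230186008 1040187392 5207648 3 eng mog cd0q2 cd4q3 pd0 false false false .up 2 0 3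
    ndB0q2 ndB4q3 pcB0 Cut.none Ext.none :=
  certB0 (fam := false) (s1 := false) (s2 := false) (a := 2) (b := 0) (c := 3) (cn := .up) (n1 := ndB0q2) (n2 := ndB4q3) (pc := pcB0) (cut := Cut.none) (xt := Ext.none) (P1 := 0) (W1 := 536870912) (P2 := 0) (W2 := 1230186008) (P3 := 1040187392) (W3 := 5207648) (N0 := 3) (En := eng) (mo := mog) (C1 := cd0q2) (C2 := cd4q3) (C3 := pd0)
    rfl k0_mm_203

noncomputable def f_mm_213 : ℕ → ℕ → ℕ → ℕ → Bool := onCell 0 536870912 0 1230186008 1040187392 5207648
    (rowB 3 eng mog cd0q2 cd4q3 pd1 0 false false false .pnn 2 1 3 (qsf 0 536870912 0 1230186008 1) ndB0q2 ndB4q3 pcB1 Cut.none Ext.none)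

def k0_mm_213 : ∃ t, chk3 f_mm_213 t 1 1 1 = true :=
  ⟨(b (a (l 3) (a (l 3) (l 5))) (a (b (l 3) (l 3)) (l 3))), by decide +kernel⟩

theorem c_mm_213 : CertB 0 536870912 0 1230186008 1040187392 5207648 3 eng mog cd0q2 cd4q3 pd1 false false false .pnn 2 1 3
    ndB0q2 ndB4q3 pcB1 Cut.none Ext.none :=
  certB0 (fam := false) (s1 := false) (s2 := false) (a := 2) (b := 1) (c := 3) (cn := .pnn) (n1 := ndB0q2) (n2 := ndB4q3) (pc := pcB1) (cut := Cut.none) (xt := Ext.none) (P1 := 0) (W1 := 536870912) (P2 := 0) (W2 := 1230186008) (P3 := 1040187392) (W3 := 5207648) (N0 := 3) (En := eng) (mo := mog) (C1 := cd0q2) (C2 := cd4q3) (C3 := pd1)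
    rfl k0_mm_213

end Pool.Agent.Strip051.G.I9688_9736.Tab.C.BB04

namespace Pool.Agent.Strip051.G.I9688_9736.Tab.C.BB05

open Pool.Agent.Strip051.PB Pool.Agent.Strip051.PB.T
open Pool.Agent.Strip051.G.I9688_9736.Tab

noncomputable def cut_pp_001 : Cut := Cut.of [[⟨3, 0, 0, 1449551462⟩]]

noncomputable def f_pp_001 : ℕ → ℕ → ℕ → ℕ → Bool := onCell 0 536870912 536870912 536870912 1040187392 5207648
    (rowB 3 eng mog cd0q0 cd5q1 pd0 0 false true true .up 0 0 1 (qsf 0 536870912 536870912 536870912 0) ndB0q0 ndB5q1 pcB0 cut_pp_001 Ext.none)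

def k0_pp_001 : ∃ t, chk3 f_pp_001 t 1 1 1 = true :=
  ⟨(l 6), by decide +kernel⟩

theorem c_pp_001 : CertB 0 536870912 536870912 536870912 1040187392 5207648 3 eng mog cd0q0 cd5q1 pd0 false true true .up 0 0 1
    ndB0q0 ndB5q1 pcB0 cut_pp_001 Ext.none :=
  certB0 (fam := false) (s1 := true) (s2 := true) (a := 0) (b := 0) (c := 1) (cn := .up) (n1 := ndB0q0) (n2 := ndB5q1) (pc := pcB0) (cut := cut_pp_001) (xt := Ext.none) (P1 := 0) (W1 := 536870912) (P2 := 536870912) (W2 := 536870912) (P3 := 1040187392) (W3 := 5207648) (N0 := 3) (En := eng) (mo := mog) (C1 := cd0q0) (C2 := cd5q1) (C3 := pd0)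
    rfl k0_pp_001

noncomputable def cut_pp_011 : Cut := Cut.of [[⟨3, 0, 0, 1449551462⟩], [⟨0, 0, 0, 26843545⟩, ⟨1, 1, 0, 26843545⟩, ⟨2, 1, 0, 26843545⟩]]

noncomputable def f_pp_011 : ℕ → ℕ → ℕ → ℕ → Bool := onCell 0 536870912 536870912 536870912 1040187392 5207648
    (rowB 3 eng mog cd0q0 cd5q1 pd1 0 false true true .pnn 0 1 1 (qsf 0 536870912 536870912 536870912 1) ndB0q0 ndB5q1 pcB1 cut_pp_011 Ext.none)

def k0_pp_011 : ∃ t, chk3 f_pp_011 t 1 1 1 = true :=
  ⟨(l 6), by decide +kernel⟩

theorem c_pp_011 : CertB 0 536870912 536870912 536870912 1040187392 5207648 3 eng mog cd0q0 cd5q1 pd1 false true true .pnn 0 1 1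
    ndB0q0 ndB5q1 pcB1 cut_pp_011 Ext.none :=
  certB0 (fam := false) (s1 := true) (s2 := true) (a := 0) (b := 1) (c := 1) (cn := .pnn) (n1 := ndB0q0) (n2 := ndB5q1) (pc := pcB1) (cut := cut_pp_011) (xt := Ext.none) (P1 := 0) (W1 := 536870912) (P2 := 536870912) (W2 := 536870912) (P3 := 1040187392) (W3 := 5207648) (N0 := 3) (En := eng) (mo := mog) (C1 := cd0q0) (C2 := cd5q1) (C3 := pd1)
    rfl k0_pp_011

noncomputable def cut_pp_012 : Cut := Cut.of [[⟨3, 0, 0, 1449551462⟩], [⟨0, 0, 0, 26843545⟩, ⟨1, 1, 0, 26843545⟩, ⟨2, 1, 0, 26843545⟩]]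

noncomputable def f_pp_012 : ℕ → ℕ → ℕ → ℕ → Bool := onCell 0 536870912 536870912 536870912 1040187392 5207648
    (rowB 3 eng mog cd0q0 cd5q2 pd1 1 false true true .pnp 0 1 2 (qsf 0 536870912 1073741824 536870912 1) ndB0q0 ndB5q2 pcB1 cut_pp_012 Ext.none)

def k0_pp_012 : ∃ t, chk3 f_pp_012 t 1 1 1 = true :=
  ⟨(l 6), by decide +kernel⟩

theorem c_pp_012 : CertB 0 536870912 1073741824 536870912 1040187392 5207648 3 eng mog cd0q0 cd5q2 pd1 false true true .pnp 0 1 2
    ndB0q0 ndB5q2 pcB1 cut_pp_012 Ext.none :=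
  certB1 (fam := false) (s1 := true) (s2 := true) (a := 0) (b := 1) (c := 2) (cn := .pnp) (n1 := ndB0q0) (n2 := ndB5q2) (pc := pcB1) (cut := cut_pp_012) (xt := Ext.none) (P1 := 0) (W1 := 536870912) (P2 := 1073741824) (W2 := 536870912) (P3 := 1040187392) (W3 := 5207648) (N0 := 3) (En := eng) (mo := mog) (C1 := cd0q0) (C2 := cd5q2) (C3 := pd1)
    rfl (fun _ => rfl) k0_pp_012

noncomputable def cut_pp_022 : Cut := Cut.of [[⟨3, 0, 0, 1449551462⟩], [⟨0, 0, 0, 22369621⟩, ⟨1, 1, 0, 22369621⟩, ⟨2, 1, 0, 22369621⟩]]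

noncomputable def f_pp_022 : ℕ → ℕ → ℕ → ℕ → Bool := onCell 0 536870912 1073741824 536870912 1040187392 5207648
    (rowB 3 eng mog cd0q0 cd5q2 pd2 0 false true true .pp 0 2 2 (qsf 0 536870912 1073741824 536870912 2) ndB0q0 ndB5q2 pcB2 cut_pp_022 Ext.none)

def k0_pp_022 : ∃ t, chk3 f_pp_022 t 1 1 1 = true :=
  ⟨(a (b (l 6) (a (b (a (b (a (l 15710160) (l 6)) (a (l 15537656) (l 15766176))) (b (l 6) (a (l 15846632) (l 6)))) (a (b (a (l 15431368) (l 15650792)) (l 15251728)) (a (b (l 15806960) (l 15710776)) (b (l 15933112) (l 15826520))))) (b (l 6) (b (l 6) (a (l 16035880) (l 6)))))) (l 6)), by decide +kernel⟩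

theorem c_pp_022 : CertB 0 536870912 1073741824 536870912 1040187392 5207648 3 eng mog cd0q0 cd5q2 pd2 false true true .pp 0 2 2
    ndB0q0 ndB5q2 pcB2 cut_pp_022 Ext.none :=
  certB0 (fam := false) (s1 := true) (s2 := true) (a := 0) (b := 2) (c := 2) (cn := .pp) (n1 := ndB0q0) (n2 := ndB5q2) (pc := pcB2) (cut := cut_pp_022) (xt := Ext.none) (P1 := 0) (W1 := 536870912) (P2 := 1073741824) (W2 := 536870912) (P3 := 1040187392) (W3 := 5207648) (N0 := 3) (En := eng) (mo := mog) (C1 := cd0q0) (C2 := cd5q2) (C3 := pd2)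
    rfl k0_pp_022

noncomputable def cut_pp_023 : Cut := Cut.of [[⟨3, 0, 0, 1449551462⟩]]

noncomputable def f_pp_023 : ℕ → ℕ → ℕ → ℕ → Bool := onCell 1073741824 536870912 0 1230186008 1040187392 5207648
    (rowB 3 eng mog cd0q0 cd5q3 pd2 2 false true true .up 0 2 3 (qsf 0 536870912 0 1230186008 2) ndB0q0 ndB5q3 pcB2 cut_pp_023 Ext.none)

def k0_pp_023 : ∃ t, chk3 f_pp_023 t 1 1 1 = true :=
  ⟨(a (b (l 2) (l 6)) (a (b (l 2) (a (b (b (l 2) (l 6)) (l 6)) (b (b (b (l 16148328) (l 16218160)) (b (l 16273472) (l 16287392))) (b (b (l 16257424) (l 16210744)) (b (l 16149384) (b (l 16090480) (l 16023832))))))) (a (b (b (l 2) (b (b (l 2) (l 259407222119)) (b (l 16081888) (l 16045392)))) (b (b (b (l 16015056) (l 16047536)) (b (l 16096704) (l 16107656))) (b (b (l 16066544) (l 16001776)) (b (l 15920704) (b (a (l 15909944) (l 15775880)) (a (l 15824224) (b (l 15727024) (l 15698200)))))))) (b (b (b (l 13853280) (l 14700448)) (b (b (l 15295088) (l 15654984)) (b (a (l 15984680) (l 15868760)) (l 15959456)))) (b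 (b (b (l 15910456) (l 15892832)) (l 15920448)) (b (b (l 15858848) (l 15774024)) (b (b (a (l 15763816) (l 15629872)) (a (l 15703184) (l 15590296))) (b (a (l 15599560) (l 15557680)) (a (l 15597304) (l 15426200)))))))))), by decide +kernel⟩

theorem c_pp_023 : CertB 0 536870912 0 1230186008 1040187392 5207648 3 eng mog cd0q0 cd5q3 pd2 false true true .up 0 2 3
    ndB0q0 ndB5q3 pcB2 cut_pp_023 Ext.none :=
  certB2 (fam := false) (s1 := true) (s2 := true) (a := 0) (b := 2) (c := 3) (cn := .up) (n1 := ndB0q0) (n2 := ndB5q3) (pc := pcB2) (cut := cut_pp_023) (xt := Ext.none) (P1 := 0) (W1 := 536870912) (P2 := 0) (W2 := 1230186008) (P3 := 1040187392) (W3 := 5207648) (N0 := 3) (En := eng) (mo := mog) (C1 := cd0q0) (C2 := cd5q3) (C3 := pd2)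
    rfl (fun _ => rfl) k0_pp_023

noncomputable def cut_pp_033 : Cut := Cut.of [[⟨3, 0, 0, 1449551462⟩]]

noncomputable def f_pp_033 : ℕ → ℕ → ℕ → ℕ → Bool := onCell 0 536870912 0 1230186008 1040187392 5207648
    (rowB 3 eng mog cd0q0 cd5q3 pd3 0 false true true .pnn 0 3 3 (qsf 0 536870912 0 1230186008 3) ndB0q0 ndB5q3 pcB3 cut_pp_033 Ext.none)

def k0_pp_033 : ∃ t, chk3 f_pp_033 t 1 2 1 = true :=
  ⟨(b (a (a (l 4) (b (a (l 4) (b (l 4) (l 15969680))) (a (b (l 4) (l 15680808)) (b (l 15880976) (a (l 15753648) (l 15859592)))))) (a (b (a (b (l 16055016) (l 16039128)) (b (l 16080000) (l 16151984))) (a (b (a (l 15938104) (l 16034416)) (a (l 15955144) (l 16047400))) (b (l 16172424) (l 16229256)))) (b (a (b (l 16287848) (l 16326384)) (b (l 16471408) (l 16574080))) (a (l 16448792) (l 16603200))))) (a (b (a (a (a (l 4) (b (l 4) (a (l 4) (l 15187392)))) (a (b (l 4) (a (l 15244736) (l 15286592))) (b (l 15459568) (b (l 15367552) (l 15347344))))) (a (b (a (l 15543728) (b (l 15640336) (l 15636648))) (a (b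 (l 15500792) (l 15474256)) (l 15603512))) (b (a (l 15749552) (l 15849376)) (l 15791192)))) (a (a (a (b (a (l 14745184) (l 14864272)) (a (b (l 14664072) (l 14605568)) (b (l 14782816) (l 14738000)))) (b (a (l 14977544) (b (l 15094640) (l 15052768))) (b (l 14959776) (l 14921032)))) (b (a (b (l 15200952) (l 15160448)) (b (l 15313512) (l 15278544))) (a (l 15102992) (l 15232616)))) (a (b (l 15501744) (l 15469304)) (b (l 15791776) (l 15794408))))) (a (b (a (l 15813944) (l 16329064)) (b (a (l 16100392) (l 16420104)) (a (a (l 16044320) (l 16211816)) (b (l 16366808) (a (l 16363904) (l 16330632)))))) (b (a (b (l 16590024) (l 16412096)) (b (l 16305944) (l 16096232))) (a (a (b (l 16278680) (l 16107912)) (b (l 16123800) (l 16286320))) (b (b (l 15938784) (l 1)) (l 1))))))), by decide +kernel⟩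

def k1_pp_033 : ∃ t, chk3 f_pp_033 t 1 3 1 = true :=
  ⟨(b (a (a (a (b (b (a (l 14633688) (l 14874696)) (a (l 14585120) (l 14812064))) (b (a (b (l 14537496) (l 14588648)) (b (l 14779520) (l 14862448))) (b (a (l 14763752) (l 14999888)) (a (l 14896256) (l 15096040))))) (b (b (a (l 15042808) (l 15182656)) (a (b (l 14997352) (l 14964960)) (b (l 15141552) (l 15118680)))) (a (b (b (l 14975488) (l 15053032)) (b (l 15149016) (l 15223088))) (b (b (l 15138072) (l 15195640)) (l 15283032))))) (b (a (b (l 15438720) (b (a (l 15317832) (l 15491360)) (l 15340952))) (b (b (l 15790968) (a (l 15689992) (l 15846336))) (a (l 15619448) (l 15744224)))) (b (a (b (l 15382128) (l 15406088)) (b (l 15631264) (l 15638304))) (a (l 15469216) (l 15683768))))) (b (a (b (a (b (a (l 16039568) (l 16175696)) (l 16017928)) (l 16243216)) (a (b (l 15931456) (l 15854760)) (b (l 16072024) (l 16013312)))) (b (a (l 16251752) (l 1)) (l 1))) (a (b (a (l 15832528) (l 15993848)) (a (l 15864904) (l 1))) (l 1)))) (a (a (b (a (b (a (l 15053880)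 (l 15231912)) (l 15180416)) (b (a (l 15346144) (l 15429912)) (a (l 15404832) (l 15493136)))) (a (b (l 15006816) (b (l 15107456) (l 15231992))) (b (a (l 15394752) (l 15506688)) (a (l 264170866103) (l 1))))) (b (b (a (l 15589416) (l 15788888)) (l 162166004439)) (b (a (l 15712296) (l 1)) (l 1)))) (l 1))), by decide +kernel⟩

theorem s2_pp_033 : ∃ t, chk3 f_pp_033 t 1 1 1 = true := ex3_b k0_pp_033 k1_pp_033

theorem c_pp_033 : CertB 0 536870912 0 1230186008 1040187392 5207648 3 eng mog cd0q0 cd5q3 pd3 false true true .pnn 0 3 3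
    ndB0q0 ndB5q3 pcB3 cut_pp_033 Ext.none :=
  certB0 (fam := false) (s1 := true) (s2 := true) (a := 0) (b := 3) (c := 3) (cn := .pnn) (n1 := ndB0q0) (n2 := ndB5q3) (pc := pcB3) (cut := cut_pp_033) (xt := Ext.none) (P1 := 0) (W1 := 536870912) (P2 := 0) (W2 := 1230186008) (P3 := 1040187392) (W3 := 5207648) (N0 := 3) (En := eng) (mo := mog) (C1 := cd0q0) (C2 := cd5q3) (C3 := pd3)
    rfl s2_pp_033

noncomputable def cut_pp_101 : Cut := Cut.of [[⟨3, 0, 0, 1449551462⟩]]

noncomputable def f_pp_101 : ℕ → ℕ → ℕ → ℕ → Bool := onCell 536870912 536870912 0 536870912 1040187392 5207648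
    (rowB 3 eng mog cd0q1 cd5q1 pd0 1 false true true .npn 1 0 1 (qsf 536870912 536870912 536870912 536870912 0) ndB0q1 ndB5q1 pcB0 cut_pp_101 Ext.none)

def k0_pp_101 : ∃ t, chk3 f_pp_101 t 1 1 1 = true :=
  ⟨(l 6), by decide +kernel⟩

theorem c_pp_101 : CertB 536870912 536870912 536870912 536870912 1040187392 5207648 3 eng mog cd0q1 cd5q1 pd0 false true true .npn 1 0 1
    ndB0q1 ndB5q1 pcB0 cut_pp_101 Ext.none :=
  certB1 (fam := false) (s1 := true) (s2 := true) (a := 1) (b := 0) (c := 1) (cn := .npn) (n1 := ndB0q1) (n2 := ndB5q1) (pc := pcB0) (cut := cut_pp_101) (xt := Ext.none) (P1 := 536870912) (W1 := 536870912) (P2 := 536870912) (W2 := 536870912) (P3 := 1040187392) (W3 := 5207648) (N0 := 3) (En := eng) (mo := mog) (C1 := cd0q1) (C2 := cd5q1) (C3 := pd0)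
    rfl (fun _ => rfl) k0_pp_101

noncomputable def cut_pp_102 : Cut := Cut.of [[⟨3, 0, 0, 1449551462⟩]]

noncomputable def f_pp_102 : ℕ → ℕ → ℕ → ℕ → Bool := onCell 536870912 536870912 1073741824 536870912 1040187392 5207648
    (rowB 3 eng mog cd0q1 cd5q2 pd0 0 false true true .npp 1 0 2 (qsf 536870912 536870912 1073741824 536870912 0) ndB0q1 ndB5q2 pcB0 cut_pp_102 Ext.none)

def k0_pp_102 : ∃ t, chk3 f_pp_102 t 1 1 1 = true :=
  ⟨(l 6), by decide +kernel⟩

theorem c_pp_102 : CertB 536870912 536870912 1073741824 536870912 1040187392 5207648 3 eng mog cd0q1 cd5q2 pd0 false true true .npp 1 0 2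
    ndB0q1 ndB5q2 pcB0 cut_pp_102 Ext.none :=
  certB0 (fam := false) (s1 := true) (s2 := true) (a := 1) (b := 0) (c := 2) (cn := .npp) (n1 := ndB0q1) (n2 := ndB5q2) (pc := pcB0) (cut := cut_pp_102) (xt := Ext.none) (P1 := 536870912) (W1 := 536870912) (P2 := 1073741824) (W2 := 536870912) (P3 := 1040187392) (W3 := 5207648) (N0 := 3) (En := eng) (mo := mog) (C1 := cd0q1) (C2 := cd5q2) (C3 := pd0)
    rfl k0_pp_102

noncomputable def cut_pp_112 : Cut := Cut.of [[⟨3, 0, 0, 1449551462⟩]]

noncomputable def f_pp_112 : ℕ → ℕ → ℕ → ℕ → Bool := onCell 536870912 536870912 1073741824 536870912 1040187392 5207648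
    (rowB 3 eng mog cd0q1 cd5q2 pd1 0 false true true .dn 1 1 2 (qsf 536870912 536870912 1073741824 536870912 1) ndB0q1 ndB5q2 pcB1 cut_pp_112 Ext.none)

def k0_pp_112 : ∃ t, chk3 f_pp_112 t 1 1 1 = true :=
  ⟨(l 6), by decide +kernel⟩

theorem c_pp_112 : CertB 536870912 536870912 1073741824 536870912 1040187392 5207648 3 eng mog cd0q1 cd5q2 pd1 false true true .dn 1 1 2
    ndB0q1 ndB5q2 pcB1 cut_pp_112 Ext.none :=
  certB0 (fam := false) (s1 := true) (s2 := true) (a := 1) (b := 1) (c := 2) (cn := .dn) (n1 := ndB0q1) (n2 := ndB5q2) (pc := pcB1) (cut := cut_pp_112) (xt := Ext.none) (P1 := 536870912) (W1 := 536870912) (P2 := 1073741824) (W2 := 536870912) (P3 := 1040187392) (W3 := 5207648) (N0 := 3) (En := eng) (mo := mog) (C1 := cd0q1) (C2 := cd5q2) (C3 := pd1)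
    rfl k0_pp_112

noncomputable def cut_pp_113 : Cut := Cut.of [[⟨3, 0, 0, 1449551462⟩], [⟨0, 1, 0, 15728640⟩, ⟨1, 1, 0, 15728640⟩, ⟨2, 2, 0, 524288⟩]]

noncomputable def f_pp_113 : ℕ → ℕ → ℕ → ℕ → Bool := onCell 536870912 536870912 0 1230186008 1040187392 5207648
    (rowB 3 eng mog cd0q1 cd5q3 pd1 0 false true true .nn 1 1 3 (qsf 536870912 536870912 0 1230186008 1) ndB0q1 ndB5q3 pcB1 cut_pp_113 Ext.none)

def k0_pp_113 : ∃ t, chk3 f_pp_113 t 1 1 1 = true :=
  ⟨(b (a (l 2) (a (l 2) (b (a (l 2) (l 6)) (l 6)))) (a (b (a (l 2) (l 6)) (l 6)) (l 6))), by decide +kernel⟩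

theorem c_pp_113 : CertB 536870912 536870912 0 1230186008 1040187392 5207648 3 eng mog cd0q1 cd5q3 pd1 false true true .nn 1 1 3
    ndB0q1 ndB5q3 pcB1 cut_pp_113 Ext.none :=
  certB0 (fam := false) (s1 := true) (s2 := true) (a := 1) (b := 1) (c := 3) (cn := .nn) (n1 := ndB0q1) (n2 := ndB5q3) (pc := pcB1) (cut := cut_pp_113) (xt := Ext.none) (P1 := 536870912) (W1 := 536870912) (P2 := 0) (W2 := 1230186008) (P3 := 1040187392) (W3 := 5207648) (N0 := 3) (En := eng) (mo := mog) (C1 := cd0q1) (C2 := cd5q3) (C3 := pd1)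
    rfl k0_pp_113

noncomputable def cut_pp_123 : Cut := Cut.of [[⟨3, 0, 0, 1449551462⟩], [⟨0, 1, 0, 15728640⟩, ⟨1, 1, 0, 15728640⟩, ⟨2, 2, 0, 524288⟩]]

noncomputable def f_pp_123 : ℕ → ℕ → ℕ → ℕ → Bool := onCell 1073741824 536870912 0 1230186008 1040187392 5207648
    (rowB 3 eng mog cd0q1 cd5q3 pd2 2 false true true .npn 1 2 3 (qsf 536870912 536870912 0 1230186008 2) ndB0q1 ndB5q3 pcB2 cut_pp_123 Ext.none)

def k0_pp_123 : ∃ t, chk3 f_pp_123 t 1 1 1 = true :=
  ⟨(a (b (a (a (l 6) (b (b (a (l 6) (b (l 16429744) (l 6))) (l 6)) (l 6))) (b (b (a (b (l 15962376) (a (a (l 6) (l 16383728)) (l 16245200))) (b (l 15657760) (l 15937400))) (a (a (l 6) (b (l 16364304) (l 6))) (b (a (l 16289776) (l 16103696)) (a (l 16409328) (l 16324712))))) (a (l 6) (b (b (l 16374712) (l 16353688)) (l 6))))) (l 6)) (b (b (a (b (a (b (l 15137944) (l 15480664)) (b (l 14606728) (l 15004280))) (a (b (l 15799152) (a (l 16193512) (l 16011400))) (b (l 15363488) (l 15716904)))) (b (a (l 14162968) (l 13853296)) (a (l 14861888)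 (l 14700272)))) (a (b (a (b (a (l 16312504) (l 16240184)) (l 16268896)) (b (a (l 16123904) (l 15955544)) (a (l 16217296) (l 16159048)))) (a (b (l 16240480) (l 16246896)) (l 16122488))) (b (a (b (l 15674944) (a (l 16061936) (l 15919176))) (b (l 15294768) (l 15654376))) (a (b (l 16081752) (l 16044936)) (b (a (l 15984384) (l 1)) (l 1)))))) (b (a (b (a (b (l 16315920) (l 6)) (b (l 16148232) (l 16217608))) (a (l 6) (b (l 16271840) (l 1)))) (b (a (b (l 16013944) (l 1)) (l 1)) (l 1))) (l 1)))), by decide +kernel⟩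

theorem c_pp_123 : CertB 536870912 536870912 0 1230186008 1040187392 5207648 3 eng mog cd0q1 cd5q3 pd2 false true true .npn 1 2 3
    ndB0q1 ndB5q3 pcB2 cut_pp_123 Ext.none :=
  certB2 (fam := false) (s1 := true) (s2 := true) (a := 1) (b := 2) (c := 3) (cn := .npn) (n1 := ndB0q1) (n2 := ndB5q3) (pc := pcB2) (cut := cut_pp_123) (xt := Ext.none) (P1 := 536870912) (W1 := 536870912) (P2 := 0) (W2 := 1230186008) (P3 := 1040187392) (W3 := 5207648) (N0 := 3) (En := eng) (mo := mog) (C1 := cd0q1) (C2 := cd5q3) (C3 := pd2)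
    rfl (fun _ => rfl) k0_pp_123

noncomputable def cut_pp_133 : Cut := Cut.of [[⟨3, 0, 0, 1449551462⟩]]

noncomputable def f_pp_133 : ℕ → ℕ → ℕ → ℕ → Bool := onCell 536870912 536870912 0 1230186008 1040187392 5207648
    (rowB 3 eng mog cd0q1 cd5q3 pd3 0 false true true .dn 1 3 3 (qsf 536870912 536870912 0 1230186008 3) ndB0q1 ndB5q3 pcB3 cut_pp_133 Ext.none)

def k0_pp_133 : ∃ t, chk3 f_pp_133 t 1 1 1 = true :=
  ⟨(b (b (a (a (b (a (l 16692928) (l 1)) (l 1)) (l 1)) (l 1)) (l 1)) (l 1)), by decide +kernel⟩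

theorem c_pp_133 : CertB 536870912 536870912 0 1230186008 1040187392 5207648 3 eng mog cd0q1 cd5q3 pd3 false true true .dn 1 3 3
    ndB0q1 ndB5q3 pcB3 cut_pp_133 Ext.none :=
  certB0 (fam := false) (s1 := true) (s2 := true) (a := 1) (b := 3) (c := 3) (cn := .dn) (n1 := ndB0q1) (n2 := ndB5q3) (pc := pcB3) (cut := cut_pp_133) (xt := Ext.none) (P1 := 536870912) (W1 := 536870912) (P2 := 0) (W2 := 1230186008) (P3 := 1040187392) (W3 := 5207648) (N0 := 3) (En := eng) (mo := mog) (C1 := cd0q1) (C2 := cd5q3) (C3 := pd3)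
    rfl k0_pp_133

noncomputable def cut_pp_202 : Cut := Cut.of [[⟨3, 0, 0, 1449551462⟩]]

noncomputable def f_pp_202 : ℕ → ℕ → ℕ → ℕ → Bool := onCell 0 536870912 1073741824 536870912 1040187392 5207648
    (rowB 3 eng mog cd0q2 cd5q2 pd0 0 false true true .pp 2 0 2 (qsf 0 536870912 1073741824 536870912 0) ndB0q2 ndB5q2 pcB0 cut_pp_202 Ext.none)

def k0_pp_202 : ∃ t, chk3 f_pp_202 t 1 1 1 = true :=
  ⟨(l 5), by decide +kernel⟩

theorem c_pp_202 : CertB 0 536870912 1073741824 536870912 1040187392 5207648 3 eng mog cd0q2 cd5q2 pd0 false true true .pp 2 0 2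
    ndB0q2 ndB5q2 pcB0 cut_pp_202 Ext.none :=
  certB0 (fam := false) (s1 := true) (s2 := true) (a := 2) (b := 0) (c := 2) (cn := .pp) (n1 := ndB0q2) (n2 := ndB5q2) (pc := pcB0) (cut := cut_pp_202) (xt := Ext.none) (P1 := 0) (W1 := 536870912) (P2 := 1073741824) (W2 := 536870912) (P3 := 1040187392) (W3 := 5207648) (N0 := 3) (En := eng) (mo := mog) (C1 := cd0q2) (C2 := cd5q2) (C3 := pd0)
    rfl k0_pp_202

noncomputable def cut_pp_203 : Cut := Cut.of [[⟨3, 0, 0, 1449551462⟩]]

noncomputable def f_pp_203 : ℕ → ℕ → ℕ → ℕ → Bool := onCell 0 536870912 0 1230186008 1040187392 5207648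
    (rowB 3 eng mog cd0q2 cd5q3 pd0 0 false true true .up 2 0 3 (qsf 0 536870912 0 1230186008 0) ndB0q2 ndB5q3 pcB0 cut_pp_203 Ext.none)

def k0_pp_203 : ∃ t, chk3 f_pp_203 t 1 1 1 = true :=
  ⟨(b (l 2) (a (l 5) (l 6))), by decide +kernel⟩

theorem c_pp_203 : CertB 0 536870912 0 1230186008 1040187392 5207648 3 eng mog cd0q2 cd5q3 pd0 false true true .up 2 0 3
    ndB0q2 ndB5q3 pcB0 cut_pp_203 Ext.none :=
  certB0 (fam := false) (s1 := true) (s2 := true) (a := 2) (b := 0) (c := 3) (cn := .up) (n1 := ndB0q2) (n2 := ndB5q3) (pc := pcB0) (cut := cut_pp_203) (xt := Ext.none) (P1 := 0) (W1 := 536870912) (P2 := 0) (W2 := 1230186008) (P3 := 1040187392) (W3 := 5207648) (N0 := 3) (En := eng) (mo := mog) (C1 := cd0q2) (C2 := cd5q3) (C3 := pd0)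
    rfl k0_pp_203

noncomputable def cut_pp_213 : Cut := Cut.of [[⟨3, 0, 0, 1449551462⟩], [⟨0, 1, 0, 15728640⟩, ⟨1, 1, 0, 15728640⟩, ⟨2, 2, 0, 524288⟩]]

noncomputable def f_pp_213 : ℕ → ℕ → ℕ → ℕ → Bool := onCell 0 536870912 0 1230186008 1040187392 5207648
    (rowB 3 eng mog cd0q2 cd5q3 pd1 0 false true true .pnn 2 1 3 (qsf 0 536870912 0 1230186008 1) ndB0q2 ndB5q3 pcB1 cut_pp_213 Ext.none)

def k0_pp_213 : ∃ t, chk3 f_pp_213 t 1 1 1 = true :=
  ⟨(b (l 6) (a (l 5) (l 6))), by decide +kernel⟩

theorem c_pp_213 : CertB 0 536870912 0 1230186008 1040187392 5207648 3 eng mog cd0q2 cd5q3 pd1 false true true .pnn 2 1 3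
    ndB0q2 ndB5q3 pcB1 cut_pp_213 Ext.none :=
  certB0 (fam := false) (s1 := true) (s2 := true) (a := 2) (b := 1) (c := 3) (cn := .pnn) (n1 := ndB0q2) (n2 := ndB5q3) (pc := pcB1) (cut := cut_pp_213) (xt := Ext.none) (P1 := 0) (W1 := 536870912) (P2 := 0) (W2 := 1230186008) (P3 := 1040187392) (W3 := 5207648) (N0 := 3) (En := eng) (mo := mog) (C1 := cd0q2) (C2 := cd5q3) (C3 := pd1)
    rfl k0_pp_213

noncomputable def cut_pm_001 : Cut := Cut.of [[⟨3, 0, 0, 1449551462⟩]]

noncomputable def f_pm_001 : ℕ → ℕ → ℕ → ℕ → Bool := onCell 0 536870912 536870912 536870912 1040187392 5207648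
    (rowB 3 eng mog cd0q0 cd5q1 pd0 0 false true false .up 0 0 1 (qsf 0 536870912 536870912 536870912 0) ndB0q0 ndB5q1 pcB0 cut_pm_001 Ext.none)

def k0_pm_001 : ∃ t, chk3 f_pm_001 t 1 1 1 = true :=
  ⟨(l 4), by decide +kernel⟩

theorem c_pm_001 : CertB 0 536870912 536870912 536870912 1040187392 5207648 3 eng mog cd0q0 cd5q1 pd0 false true false .up 0 0 1
    ndB0q0 ndB5q1 pcB0 cut_pm_001 Ext.none :=
  certB0 (fam := false) (s1 := true) (s2 := false) (a := 0) (b := 0) (c := 1) (cn := .up) (n1 := ndB0q0) (n2 := ndB5q1) (pc := pcB0) (cut := cut_pm_001) (xt := Ext.none) (P1 := 0) (W1 := 536870912) (P2 := 536870912) (W2 := 536870912) (P3 := 1040187392) (W3 := 5207648) (N0 := 3) (En := eng) (mo := mog) (C1 := cd0q0) (C2 := cd5q1) (C3 := pd0)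
    rfl k0_pm_001

noncomputable def cut_pm_011 : Cut := Cut.of [[⟨3, 0, 0, 1449551462⟩]]

noncomputable def f_pm_011 : ℕ → ℕ → ℕ → ℕ → Bool := onCell 0 536870912 536870912 536870912 1040187392 5207648
    (rowB 3 eng mog cd0q0 cd5q1 pd1 0 false true false .pnn 0 1 1 (qsf 0 536870912 536870912 536870912 1) ndB0q0 ndB5q1 pcB1 cut_pm_011 Ext.none)

def k0_pm_011 : ∃ t, chk3 f_pm_011 t 1 1 1 = true :=
  ⟨(l 4), by decide +kernel⟩

theorem c_pm_011 : CertB 0 536870912 536870912 536870912 1040187392 5207648 3 eng mog cd0q0 cd5q1 pd1 false true false .pnn 0 1 1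
    ndB0q0 ndB5q1 pcB1 cut_pm_011 Ext.none :=
  certB0 (fam := false) (s1 := true) (s2 := false) (a := 0) (b := 1) (c := 1) (cn := .pnn) (n1 := ndB0q0) (n2 := ndB5q1) (pc := pcB1) (cut := cut_pm_011) (xt := Ext.none) (P1 := 0) (W1 := 536870912) (P2 := 536870912) (W2 := 536870912) (P3 := 1040187392) (W3 := 5207648) (N0 := 3) (En := eng) (mo := mog) (C1 := cd0q0) (C2 := cd5q1) (C3 := pd1)
    rfl k0_pm_011

noncomputable def cut_pm_012 : Cut := Cut.of [[⟨3, 0, 0, 1449551462⟩]]

noncomputable def f_pm_012 : ℕ → ℕ → ℕ → ℕ → Bool := onCell 0 536870912 1073741824 536870912 1040187392 5207648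
    (rowB 3 eng mog cd0q0 cd5q2 pd1 0 false true false .pnp 0 1 2 (qsf 0 536870912 1073741824 536870912 1) ndB0q0 ndB5q2 pcB1 cut_pm_012 Ext.none)

def k0_pm_012 : ∃ t, chk3 f_pm_012 t 1 1 1 = true :=
  ⟨(l 4), by decide +kernel⟩

theorem c_pm_012 : CertB 0 536870912 1073741824 536870912 1040187392 5207648 3 eng mog cd0q0 cd5q2 pd1 false true false .pnp 0 1 2
    ndB0q0 ndB5q2 pcB1 cut_pm_012 Ext.none :=
  certB0 (fam := false) (s1 := true) (s2 := false) (a := 0) (b := 1) (c := 2) (cn := .pnp) (n1 := ndB0q0) (n2 := ndB5q2) (pc := pcB1) (cut := cut_pm_012) (xt := Ext.none) (P1 := 0) (W1 := 536870912) (P2 := 1073741824) (W2 := 536870912) (P3 := 1040187392) (W3 := 5207648) (N0 := 3) (En := eng) (mo := mog) (C1 := cd0q0) (C2 := cd5q2) (C3 := pd1)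
    rfl k0_pm_012

noncomputable def cut_pm_022 : Cut := Cut.of [[⟨3, 0, 0, 1449551462⟩]]

noncomputable def f_pm_022 : ℕ → ℕ → ℕ → ℕ → Bool := onCell 0 536870912 1073741824 536870912 1040187392 5207648
    (rowB 3 eng mog cd0q0 cd5q2 pd2 0 false true false .pp 0 2 2 (qsf 0 536870912 1073741824 536870912 2) ndB0q0 ndB5q2 pcB2 cut_pm_022 Ext.none)

def k0_pm_022 : ∃ t, chk3 f_pm_022 t 1 1 1 = true :=
  ⟨(l 4), by decide +kernel⟩

theorem c_pm_022 : CertB 0 536870912 1073741824 536870912 1040187392 5207648 3 eng mog cd0q0 cd5q2 pd2 false true false .pp 0 2 2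
    ndB0q0 ndB5q2 pcB2 cut_pm_022 Ext.none :=
  certB0 (fam := false) (s1 := true) (s2 := false) (a := 0) (b := 2) (c := 2) (cn := .pp) (n1 := ndB0q0) (n2 := ndB5q2) (pc := pcB2) (cut := cut_pm_022) (xt := Ext.none) (P1 := 0) (W1 := 536870912) (P2 := 1073741824) (W2 := 536870912) (P3 := 1040187392) (W3 := 5207648) (N0 := 3) (En := eng) (mo := mog) (C1 := cd0q0) (C2 := cd5q2) (C3 := pd2)
    rfl k0_pm_022

noncomputable def cut_pm_023 : Cut := Cut.of [[⟨3, 0, 0, 1449551462⟩]]

noncomputable def f_pm_023 : ℕ → ℕ → ℕ → ℕ → Bool := onCell 0 536870912 0 1230186008 1040187392 5207648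
    (rowB 3 eng mog cd0q0 cd5q3 pd2 0 false true false .up 0 2 3 (qsf 0 536870912 0 1230186008 2) ndB0q0 ndB5q3 pcB2 cut_pm_023 Ext.none)

def k0_pm_023 : ∃ t, chk3 f_pm_023 t 1 1 1 = true :=
  ⟨(b (a (l 2) (b (a (l 2) (a (l 2) (a (l 2) (b (b (l 13539360) (l 14419608)) (b (l 15179392) (l 15677824)))))) (b (l 4) (l 4)))) (l 4)), by decide +kernel⟩

theorem c_pm_023 : CertB 0 536870912 0 1230186008 1040187392 5207648 3 eng mog cd0q0 cd5q3 pd2 false true false .up 0 2 3
    ndB0q0 ndB5q3 pcB2 cut_pm_023 Ext.none :=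
  certB0 (fam := false) (s1 := true) (s2 := false) (a := 0) (b := 2) (c := 3) (cn := .up) (n1 := ndB0q0) (n2 := ndB5q3) (pc := pcB2) (cut := cut_pm_023) (xt := Ext.none) (P1 := 0) (W1 := 536870912) (P2 := 0) (W2 := 1230186008) (P3 := 1040187392) (W3 := 5207648) (N0 := 3) (En := eng) (mo := mog) (C1 := cd0q0) (C2 := cd5q3) (C3 := pd2)
    rfl k0_pm_023

noncomputable def cut_pm_033 : Cut := Cut.of [[⟨3, 0, 0, 1449551462⟩]]

noncomputable def f_pm_033 : ℕ → ℕ → ℕ → ℕ → Bool := onCell 1610612736 536870912 0 1230186008 1040187392 5207648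
    (rowB 3 eng mog cd0q0 cd5q3 pd3 2 false true false .pnn 0 3 3 (qsf 0 536870912 0 1230186008 3) ndB0q0 ndB5q3 pcB3 cut_pm_033 Ext.none)

def k0_pm_033 : ∃ t, chk3 f_pm_033 t 1 1 1 = true :=
  ⟨(b (b (a (a (b (a (b (l 16350008) (l 16120144)) (l 16078736)) (a (a (l 15893416) (l 15867448)) (l 16017192))) (b (a (l 16078880) (l 4)) (l 4))) (l 4)) (l 4)) (l 4)), by decide +kernel⟩

theorem c_pm_033 : CertB 0 536870912 0 1230186008 1040187392 5207648 3 eng mog cd0q0 cd5q3 pd3 false true false .pnn 0 3 3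
    ndB0q0 ndB5q3 pcB3 cut_pm_033 Ext.none :=
  certB2 (fam := false) (s1 := true) (s2 := false) (a := 0) (b := 3) (c := 3) (cn := .pnn) (n1 := ndB0q0) (n2 := ndB5q3) (pc := pcB3) (cut := cut_pm_033) (xt := Ext.none) (P1 := 0) (W1 := 536870912) (P2 := 0) (W2 := 1230186008) (P3 := 1040187392) (W3 := 5207648) (N0 := 3) (En := eng) (mo := mog) (C1 := cd0q0) (C2 := cd5q3) (C3 := pd3)
    rfl (fun _ => rfl) k0_pm_033

noncomputable def cut_pm_101 : Cut := Cut.of [[⟨3, 0, 0, 1449551462⟩]]

noncomputable def f_pm_101 : ℕ → ℕ → ℕ → ℕ → Bool := onCell 536870912 536870912 536870912 536870912 1040187392 5207648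
    (rowB 3 eng mog cd0q1 cd5q1 pd0 0 false true false .npn 1 0 1 (qsf 536870912 536870912 536870912 536870912 0) ndB0q1 ndB5q1 pcB0 cut_pm_101 Ext.none)

def k0_pm_101 : ∃ t, chk3 f_pm_101 t 1 1 1 = true :=
  ⟨(l 4), by decide +kernel⟩

theorem c_pm_101 : CertB 536870912 536870912 536870912 536870912 1040187392 5207648 3 eng mog cd0q1 cd5q1 pd0 false true false .npn 1 0 1
    ndB0q1 ndB5q1 pcB0 cut_pm_101 Ext.none :=
  certB0 (fam := false) (s1 := true) (s2 := false) (a := 1) (b := 0) (c := 1) (cn := .npn) (n1 := ndB0q1) (n2 := ndB5q1) (pc := pcB0) (cut := cut_pm_101) (xt := Ext.none) (P1 := 536870912) (W1 := 536870912) (P2 := 536870912) (W2 := 536870912) (P3 := 1040187392) (W3 := 5207648) (N0 := 3) (En := eng) (mo := mog) (C1 := cd0q1) (C2 := cd5q1) (C3 := pd0)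
    rfl k0_pm_101

end Pool.Agent.Strip051.G.I9688_9736.Tab.C.BB05

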