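import Pool.Agent.Strip051.G.I9688_9736.Tab
import Pool.Agent.Strip051.PB.ExtD3

/-! # Certificates B21 (generated) -/

set_option linter.all false
set_option maxRecDepth 100000

namespace Pool.Agent.Strip051.G.I9688_9736.Tab.C.BB05

open Pool.Agent.Strip051.PB Pool.Agent.Strip051.PB.T
open Pool.Agent.Strip051.G.I9688_9736.Tab

noncomputable def cut_pm_102 : Cut := Cut.of [[⟨3, 0, 0, 1449551462⟩]]

noncomputable def f_pm_102 : ℕ → ℕ → ℕ → ℕ → Bool := onCell 536870912 536870912 1073741824 536870912 1040187392 5207648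
    (rowB 3 eng mog cd0q1 cd5q2 pd0 0 false true false .npp 1 0 2 (qsf 536870912 536870912 1073741824 536870912 0) ndB0q1 ndB5q2 pcB0 cut_pm_102 Ext.none)

def k0_pm_102 : ∃ t, chk3 f_pm_102 t 1 1 1 = true :=
  ⟨(a (l 4) (b (l 4) (a (l 4) (a (l 4) (b (l 4) (a (l 4) (b (l 4) (b (l 14443944) (l 14506856))))))))), by decide +kernel⟩

theorem c_pm_102 : CertB 536870912 536870912 1073741824 536870912 1040187392 5207648 3 eng mog cd0q1 cd5q2 pd0 false true false .npp 1 0 2
    ndB0q1 ndB5q2 pcB0 cut_pm_102 Ext.none :=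
  certB0 (fam := false) (s1 := true) (s2 := false) (a := 1) (b := 0) (c := 2) (cn := .npp) (n1 := ndB0q1) (n2 := ndB5q2) (pc := pcB0) (cut := cut_pm_102) (xt := Ext.none) (P1 := 536870912) (W1 := 536870912) (P2 := 1073741824) (W2 := 536870912) (P3 := 1040187392) (W3 := 5207648) (N0 := 3) (En := eng) (mo := mog) (C1 := cd0q1) (C2 := cd5q2) (C3 := pd0)
    rfl k0_pm_102

noncomputable def cut_pm_112 : Cut := Cut.of [[⟨3, 0, 0, 1449551462⟩]]

noncomputable def f_pm_112 : ℕ → ℕ → ℕ → ℕ → Bool := onCell 536870912 536870912 1073741824 536870912 1040187392 5207648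
    (rowB 3 eng mog cd0q1 cd5q2 pd1 0 false true false .dn 1 1 2 (qsf 536870912 536870912 1073741824 536870912 1) ndB0q1 ndB5q2 pcB1 cut_pm_112 Ext.none)

def k0_pm_112 : ∃ t, chk3 f_pm_112 t 1 1 1 = true :=
  ⟨(a (l 4) (b (l 4) (a (l 4) (a (l 4) (b (l 1) (a (l 4) (b (l 1) (l 14626840)))))))), by decide +kernel⟩

theorem c_pm_112 : CertB 536870912 536870912 1073741824 536870912 1040187392 5207648 3 eng mog cd0q1 cd5q2 pd1 false true false .dn 1 1 2
    ndB0q1 ndB5q2 pcB1 cut_pm_112 Ext.none :=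
  certB0 (fam := false) (s1 := true) (s2 := false) (a := 1) (b := 1) (c := 2) (cn := .dn) (n1 := ndB0q1) (n2 := ndB5q2) (pc := pcB1) (cut := cut_pm_112) (xt := Ext.none) (P1 := 536870912) (W1 := 536870912) (P2 := 1073741824) (W2 := 536870912) (P3 := 1040187392) (W3 := 5207648) (N0 := 3) (En := eng) (mo := mog) (C1 := cd0q1) (C2 := cd5q2) (C3 := pd1)
    rfl k0_pm_112

noncomputable def cut_pm_113 : Cut := Cut.of [[⟨3, 0, 0, 1449551462⟩], [⟨0, 1, 0, 15728640⟩, ⟨1, 1, 0, 15728640⟩, ⟨2, 2, 0, 524288⟩]]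

noncomputable def f_pm_113 : ℕ → ℕ → ℕ → ℕ → Bool := onCell 536870912 536870912 0 1230186008 1040187392 5207648
    (rowB 3 eng mog cd0q1 cd5q3 pd1 0 false true false .nn 1 1 3 (qsf 536870912 536870912 0 1230186008 1) ndB0q1 ndB5q3 pcB1 cut_pm_113 Ext.none)

def k0_pm_113 : ∃ t, chk3 f_pm_113 t 2 1 1 = true :=
  ⟨(b (l 2) (b (b (l 2) (l 4)) (l 4))), by decide +kernel⟩

def k1_pm_113 : ∃ t, chk3 f_pm_113 t 3 1 1 = true :=
  ⟨(a (b (l 2) (b (b (a (l 2) (b (l 395769420439) (l 14142536))) (a (b (a (b (l 2) (l 13280448)) (l 369460807719)) (a (l 4) (l 13535832))) (b (a (l 13738608) (l 14005552)) (a (b (l 13683808) (l 13798176)) (b (l 13889288) (a (l 13837816) (l 13889280))))))) (b (a (l 4) (b (a (b (l 13974016) (l 4)) (b (l 14020912) (l 14104720))) (b (l 14224200) (l 4)))) (l 4)))) (b (b (a (l 2) (a (l 2) (b (l 6) (b (a (l 2) (l 6)) (a (l 16448480) (l 16447040)))))) (a (b (a (l 2) (b (l 2) (l 15931608))) (a (b (l 2) (l 349064331879)) (b (l 15565192)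 (a (l 15400592) (l 15406232))))) (a (b (a (l 15970824) (l 15970824)) (b (l 15524944) (l 15419464))) (b (b (l 16387176) (l 15841480)) (b (l 15576568) (l 15441792)))))) (b (a (b (a (b (l 14891712) (l 14558064)) (b (l 15157944) (l 14815024))) (a (b (l 14263424) (b (l 14066656) (b (l 13977568) (l 14005840)))) (b (l 14499576) (l 14221480)))) (b (a (b (a (l 15285792) (l 15329064)) (l 15069648)) (b (l 15346504) (a (l 15190328) (l 15206584)))) (a (b (l 14741736) (l 14449712)) (b (l 14922240) (l 14625112))))) (b (a (b (a (b (b (l 13996168) (l 14106704)) (l 14200272)) (b (a (l 14061736) (l 14118472)) (a (l 14235248) (l 14182064)))) (a (b (l 14270392) (l 14420104)) (b (l 14376504) (l 14502912)))) (a (b (b (l 14260616) (l 14223248)) (b (l 14345312) (l 14493264))) (b (a (b (l 14396296) (l 14289304)) (l 14394496)) (b (l 14289240) (l 14409656))))) (a (b (a (l 4) (l 14556432)) (l 4)) (a (b (b (l 14617720) (l 14696680)) (l 14665184)) (b (b (l 14581904) (l 14645712))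 (b (l 14703136) (l 14639768))))))))), by decide +kernel⟩

theorem s2_pm_113 : ∃ t, chk3 f_pm_113 t 1 1 1 = true := ex3_a k0_pm_113 k1_pm_113

theorem c_pm_113 : CertB 536870912 536870912 0 1230186008 1040187392 5207648 3 eng mog cd0q1 cd5q3 pd1 false true false .nn 1 1 3
    ndB0q1 ndB5q3 pcB1 cut_pm_113 Ext.none :=
  certB0 (fam := false) (s1 := true) (s2 := false) (a := 1) (b := 1) (c := 3) (cn := .nn) (n1 := ndB0q1) (n2 := ndB5q3) (pc := pcB1) (cut := cut_pm_113) (xt := Ext.none) (P1 := 536870912) (W1 := 536870912) (P2 := 0) (W2 := 1230186008) (P3 := 1040187392) (W3 := 5207648) (N0 := 3) (En := eng) (mo := mog) (C1 := cd0q1) (C2 := cd5q3) (C3 := pd1)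
    rfl s2_pm_113

noncomputable def cut_pm_123 : Cut := Cut.of [[⟨3, 0, 0, 1449551462⟩], [⟨0, 1, 0, 15728640⟩, ⟨1, 1, 0, 15728640⟩, ⟨2, 2, 0, 524288⟩]]

noncomputable def f_pm_123 : ℕ → ℕ → ℕ → ℕ → Bool := onCell 536870912 536870912 0 1230186008 1040187392 5207648
    (rowB 3 eng mog cd0q1 cd5q3 pd2 0 false true false .npn 1 2 3 (qsf 536870912 536870912 0 1230186008 2) ndB0q1 ndB5q3 pcB2 cut_pm_123 Ext.none)

def k0_pm_123 : ∃ t, chk3 f_pm_123 t 2 2 1 = true :=
  ⟨(b (a (a (b (b (a (b (l 13223448) (l 13262920)) (l 13317216)) (a (l 13856432) (b (l 13207736) (l 13544960)))) (b (a (l 14627416) (l 14107392)) (a (l 15319216) (l 14801800)))) (b (b (l 13650264) (a (b (l 13204224) (l 13186600)) (l 13362000))) (b (a (l 13633608) (b (a (l 13183208) (l 13169776)) (l 13403448))) (a (l 14305480) (l 13863408))))) (b (a (b (l 14194024) (l 13787848)) (b (l 14771144) (l 14411360))) (a (b (a (b (l 13336352) (a (l 13178640) (l 13219112))) (l 13549496)) (a (a (l 13575688)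 (l 13396200)) (b (a (b (l 13201816) (l 13208576)) (l 13306568)) (a (l 13405048) (l 13289112))))) (b (l 14061192) (a (b (l 13555208) (a (l 13316400) (l 13441600))) (l 13815232)))))) (a (a (b (b (a (l 15662328) (l 15386968)) (a (l 4) (l 15584144))) (l 4)) (b (b (a (l 14935256) (l 14467472)) (a (b (l 15343416) (l 15469416)) (l 15010760))) (b (a (l 4) (b (l 15295760) (l 15333040))) (l 4)))) (a (b (b (a (l 14063056) (l 13736312)) (a (l 14579096) (l 14218456))) (b (a (b (l 14917168) (l 15088664)) (l 14622080)) (a (b (l 15150872) (l 4)) (b (l 14857832) (l 14927056))))) (b (b (a (a (l 13550552) (b (b (l 13347672) (l 13404592)) (l 13573528))) (b (a (l 13465552) (l 13627264)) (a (l 13498824) (l 13784928)))) (a (l 13945160) (l 13773128))) (b (a (l 14311368) (b (l 14025632) (l 14162440))) (a (b (l 14520120) (l 14614400)) (l 14150184))))))), by decide +kernel⟩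

def k1_pm_123 : ∃ t, chk3 f_pm_123 t 3 2 1 = true :=
  ⟨(b (a (b (a (b (l 15350592) (a (l 14888824) (l 15206000))) (b (a (l 15764152) (l 16023264)) (a (l 15515984) (l 15813776)))) (a (b (a (l 14581392) (l 14927576)) (a (l 14185928) (l 14555448))) (b (a (l 15265800) (l 15589624)) (a (l 14917152) (l 15263024))))) (a (b (a (b (l 16261776) (l 16093896)) (b (a (l 16423016) (l 6)) (a (l 16288240) (l 16410872)))) (a (b (l 15891928) (l 15583480)) (b (a (l 16100768) (l 16234024)) (a (l 15801744) (l 15940104))))) (b (a (b (l 6) (a (l 16518464) (l 6))) (l 6)) (a (b (a (l 16369240) (l 16555040)) (a (l 16086640) (l 16322512))) (b (a (l 16612456) (l 6)) (a (b (l 16682976) (l 16703296)) (l 317860856231))))))) (a (a (b (b (a (b (l 13917504) (l 13758640)) (l 14223768)) (a (b (a (l 13644544) (l 13744768)) (a (l 13799448) (l 13788688))) (b (l 14012512) (a (l 13857120) (l 14004536))))) (b (a (b (l 13932968) (l 14050584)) (b (a (l 13944976) (l 13994192)) (l 14058888)))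 (a (b (l 14142088) (l 14207208)) (b (l 14130112) (l 14170296))))) (b (b (a (l 14602680) (l 14960880)) (a (l 14342584) (l 14704936))) (a (b (b (l 14209984) (a (l 14144560) (l 14251504))) (b (l 14225824) (l 14231568))) (b (l 14525192) (b (l 14452616) (l 14630640)))))) (a (b (a (b (l 15284496) (l 15018688)) (b (a (l 15495928) (l 15625840)) (a (l 15209976) (l 15322856)))) (a (b (l 14812104) (b (l 14718424) (l 14712872))) (b (a (l 14987160) (l 15186008)) (a (l 15027048) (l 1))))) (a (b (b (a (l 15771592) (l 16101816)) (a (l 15533920) (l 16286920))) (a (b (l 15569496) (l 1)) (l 1))) (b (a (b (l 16657232) (l 1)) (l 1)) (l 1)))))), by decide +kernel⟩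

def k2_pm_123 : ∃ t, chk3 f_pm_123 t 1 3 1 = true :=
  ⟨(a (b (a (l 4) (b (a (b (a (l 4) (b (l 14905736) (l 4))) (l 4)) (b (a (b (l 14669464) (l 14647112)) (b (l 14404344) (l 14420320))) (a (l 4) (b (l 14389288) (l 14296176))))) (l 4))) (l 4)) (b (a (b (a (b (a (b (l 14244704) (l 14237728)) (b (l 14171608) (l 14128704))) (a (b (l 14177528) (l 14058192)) (b (l 14023680) (l 13858360)))) (b (a (b (l 14193560) (l 14108424)) (b (l 14330880) (l 14239960))) (a (b (l 13972088) (l 13809712)) (b (l 14143536) (l 1))))) (a (b (a (b (l 13873032) (l 13666624)) (b (l 13634936) (l 13400344))) (a (l 4) (b (l 13204424) (l 1)))) (b (a (l 119211910439) (l 1)) (l 1)))) (a (b (b (a (a (l 14566000) (l 1)) (l 1)) (l 1)) (l 1)) (l 1))) (l 1))), by decide +kernel⟩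

theorem s3_pm_123 : ∃ t, chk3 f_pm_123 t 1 2 1 = true := ex3_a k0_pm_123 k1_pm_123

theorem s4_pm_123 : ∃ t, chk3 f_pm_123 t 1 1 1 = true := ex3_b s3_pm_123 k2_pm_123

theorem c_pm_123 : CertB 536870912 536870912 0 1230186008 1040187392 5207648 3 eng mog cd0q1 cd5q3 pd2 false true false .npn 1 2 3
    ndB0q1 ndB5q3 pcB2 cut_pm_123 Ext.none :=
  certB0 (fam := false) (s1 := true) (s2 := false) (a := 1) (b := 2) (c := 3) (cn := .npn) (n1 := ndB0q1) (n2 := ndB5q3) (pc := pcB2) (cut := cut_pm_123) (xt := Ext.none) (P1 := 536870912) (W1 := 536870912) (P2 := 0) (W2 := 1230186008) (P3 := 1040187392) (W3 := 5207648) (N0 := 3) (En := eng) (mo := mog) (C1 := cd0q1) (C2 := cd5q3) (C3 := pd2)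
    rfl s4_pm_123

noncomputable def cut_pm_133 : Cut := Cut.of [[⟨3, 0, 0, 1449551462⟩]]

noncomputable def f_pm_133 : ℕ → ℕ → ℕ → ℕ → Bool := onCell 536870912 536870912 0 1230186008 1040187392 5207648
    (rowB 3 eng mog cd0q1 cd5q3 pd3 0 false true false .dn 1 3 3 (qsf 536870912 536870912 0 1230186008 3) ndB0q1 ndB5q3 pcB3 cut_pm_133 Ext.none)

def k0_pm_133 : ∃ t, chk3 f_pm_133 t 1 1 1 = true :=
  ⟨(b (b (a (a (b (a (l 3174013244183) (l 1)) (l 1)) (l 1)) (l 1)) (l 1)) (l 1)), by decide +kernel⟩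

theorem c_pm_133 : CertB 536870912 536870912 0 1230186008 1040187392 5207648 3 eng mog cd0q1 cd5q3 pd3 false true false .dn 1 3 3
    ndB0q1 ndB5q3 pcB3 cut_pm_133 Ext.none :=
  certB0 (fam := false) (s1 := true) (s2 := false) (a := 1) (b := 3) (c := 3) (cn := .dn) (n1 := ndB0q1) (n2 := ndB5q3) (pc := pcB3) (cut := cut_pm_133) (xt := Ext.none) (P1 := 536870912) (W1 := 536870912) (P2 := 0) (W2 := 1230186008) (P3 := 1040187392) (W3 := 5207648) (N0 := 3) (En := eng) (mo := mog) (C1 := cd0q1) (C2 := cd5q3) (C3 := pd3)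
    rfl k0_pm_133

noncomputable def cut_pm_202 : Cut := Cut.of [[⟨3, 0, 0, 1449551462⟩]]

noncomputable def f_pm_202 : ℕ → ℕ → ℕ → ℕ → Bool := onCell 0 536870912 1073741824 536870912 1040187392 5207648
    (rowB 3 eng mog cd0q2 cd5q2 pd0 0 false true false .pp 2 0 2 (qsf 0 536870912 1073741824 536870912 0) ndB0q2 ndB5q2 pcB0 cut_pm_202 Ext.none)

def k0_pm_202 : ∃ t, chk3 f_pm_202 t 2 1 1 = true :=
  ⟨(b (a (b (l 1) (b (b (a (l 15095560) (b (l 1) (l 14924232))) (a (b (b (l 15186048) (l 15219912)) (l 15284448)) (b (b (a (l 15030344) (l 14929992)) (l 15013240)) (a (l 15135112) (l 15028736))))) (b (b (a (l 15362696) (l 15161608)) (l 15316192)) (l 15373584)))) (b (b (l 1) (b (l 1) (a (l 1) (l 14348248)))) (b (b (a (l 14696312) (l 14499864)) (b (l 14713624) (a (l 14895648) (l 14699320)))) (a (b (l 15005808) (l 15129208)) (b (l 14816816) (l 14967576)))))) (b (b (a (b (l 15404056) (l 15377960)) (a (l 15238384) (b (l 15086200) (l 15167200)))) (a (b (l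 15291176) (l 15137544)) (b (l 15191192) (l 15077992)))) (b (a (b (a (b (a (l 14991512) (l 14971720)) (a (l 15016280) (l 14863688))) (l 14944256)) (a (b (a (l 15180272) (l 14853008)) (l 15182280)) (a (b (l 14735752) (l 14692080)) (l 14677504)))) (b (a (l 14976568) (l 15005544)) (a (l 14742168) (l 14814616)))) (a (a (b (b (l 15366352) (a (l 15736656) (l 15381160))) (a (b (l 15858200) (l 15950072)) (b (l 15575568) (l 15760616)))) (b (a (l 14919880) (b (l 14492504) (l 14565264))) (l 14922376))) (b (a (b (l 14504048) (a (l 14282088) (l 14341352))) (l 14538904)) (a (a (l 14440360) (b (l 14087656) (l 14077568))) (a (b (l 14202728) (l 13912232)) (l 14207808)))))))), by decide +kernel⟩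

def k1_pm_202 : ∃ t, chk3 f_pm_202 t 3 1 1 = true :=
  ⟨(b (a (b (b (l 1) (a (b (l 1) (b (l 14101736) (l 14177944))) (l 4))) (b (a (b (l 14290056) (l 14449992)) (b (l 14108680) (l 14248808))) (a (l 14688728) (l 14471696)))) (b (l 4) (a (b (l 4) (l 4)) (l 4)))) (a (b (b (a (b (l 14904768) (l 15031952)) (l 14742472)) (a (b (l 15123448) (l 15154680)) (b (l 14937640) (l 15046184)))) (b (a (b (l 15065656) (l 14910152)) (b (a (l 15152632) (l 15109136)) (a (l 15027704) (l 15130832)))) (a (b (l 14675344) (l 14348640)) (b (l 14875280) (l 14583848))))) (b (a (b (a (l 14552840) (l 14433904)) (a (l 14788520) (l 14635896))) (a (b (l 4) (l 14498024)) (l 4))) (a (b (a (b (l 14980440) (l 15090704)) (l 14869680)) (b (a (l 15095184) (l 15058384)) (a (l 14839856) (l 14880216)))) (b (a (l 14680544) (l 14450696)) (a (b (l 14880992) (l 15015952)) (b (l 14576584) (l 14734784)))))))), by decide +kernel⟩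

theorem s2_pm_202 : ∃ t, chk3 f_pm_202 t 1 1 1 = true := ex3_a k0_pm_202 k1_pm_202

theorem c_pm_202 : CertB 0 536870912 1073741824 536870912 1040187392 5207648 3 eng mog cd0q2 cd5q2 pd0 false true false .pp 2 0 2
    ndB0q2 ndB5q2 pcB0 cut_pm_202 Ext.none :=
  certB0 (fam := false) (s1 := true) (s2 := false) (a := 2) (b := 0) (c := 2) (cn := .pp) (n1 := ndB0q2) (n2 := ndB5q2) (pc := pcB0) (cut := cut_pm_202) (xt := Ext.none) (P1 := 0) (W1 := 536870912) (P2 := 1073741824) (W2 := 536870912) (P3 := 1040187392) (W3 := 5207648) (N0 := 3) (En := eng) (mo := mog) (C1 := cd0q2) (C2 := cd5q2) (C3 := pd0)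
    rfl s2_pm_202

noncomputable def cut_pm_203 : Cut := Cut.of [[⟨3, 0, 0, 1449551462⟩]]

noncomputable def f_pm_203 : ℕ → ℕ → ℕ → ℕ → Bool := onCell 0 536870912 0 1230186008 1040187392 5207648
    (rowB 3 eng mog cd0q2 cd5q3 pd0 0 false true false .up 2 0 3 (qsf 0 536870912 0 1230186008 0) ndB0q2 ndB5q3 pcB0 cut_pm_203 Ext.none)

def k0_pm_203 : ∃ t, chk3 f_pm_203 t 1 1 1 = true :=
  ⟨(b (l 2) (b (l 2) (b (a (b (l 2) (a (a (l 6) (b (l 2) (l 16306832))) (a (l 16021160) (a (l 15922288) (l 2))))) (l 2)) (a (b (a (b (a (a (l 6) (l 16356896)) (l 16173384)) (a (l 16285280) (l 16028896))) (a (b (l 15887944) (a (l 15787784) (b (l 15669264) (l 15499152)))) (b (a (b (l 15697400) (l 15570680)) (l 15334592)) (l 14949368)))) (b (a (a (l 16145288) (a (l 15946128) (b (l 15828744) (l 15716152)))) (a (b (a (l 15621288) (l 15219224)) (l 15156672)) (l 14300840))) (a (a (b (l 16035104) (l 15928624)) (a (b (l 15794816) (l 15647904)) (l 15291400))) (a (b (l 14861280)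 (l 14567712)) (b (a (l 14146784) (l 13704408)) (a (l 13885864) (l 13746424))))))) (a (b (b (a (l 14673512) (l 2)) (a (l 14059824) (a (b (l 13546160) (l 13285096)) (b (l 2) (l 13195384))))) (b (a (b (a (l 13818784) (l 13405760)) (a (l 13545104) (l 13450384))) (a (b (l 13337768) (l 13647760)) (l 13678608))) (a (b (a (l 13588304) (l 13795848)) (l 14012880)) (l 14161696)))) (b (a (b (l 2) (b (l 2) (l 13518952))) (l 2)) (a (b (a (l 13890368) (l 14143128)) (a (l 14438408) (l 14684064))) (b (a (l 14473824) (l 2)) (a (b (l 14911024) (l 15060272)) (b (l 14975480) (l 14905592))))))))))), by decide +kernel⟩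

theorem c_pm_203 : CertB 0 536870912 0 1230186008 1040187392 5207648 3 eng mog cd0q2 cd5q3 pd0 false true false .up 2 0 3
    ndB0q2 ndB5q3 pcB0 cut_pm_203 Ext.none :=
  certB0 (fam := false) (s1 := true) (s2 := false) (a := 2) (b := 0) (c := 3) (cn := .up) (n1 := ndB0q2) (n2 := ndB5q3) (pc := pcB0) (cut := cut_pm_203) (xt := Ext.none) (P1 := 0) (W1 := 536870912) (P2 := 0) (W2 := 1230186008) (P3 := 1040187392) (W3 := 5207648) (N0 := 3) (En := eng) (mo := mog) (C1 := cd0q2) (C2 := cd5q3) (C3 := pd0)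
    rfl k0_pm_203

noncomputable def cut_pm_213 : Cut := Cut.of [[⟨3, 0, 0, 1449551462⟩], [⟨0, 1, 0, 15728640⟩, ⟨1, 1, 0, 15728640⟩, ⟨2, 2, 0, 524288⟩]]

noncomputable def f_pm_213 : ℕ → ℕ → ℕ → ℕ → Bool := onCell 0 536870912 0 1230186008 1040187392 5207648
    (rowB 3 eng mog cd0q2 cd5q3 pd1 0 false true false .pnn 2 1 3 (qsf 0 536870912 0 1230186008 1) ndB0q2 ndB5q3 pcB1 cut_pm_213 Ext.none)

def k0_pm_213 : ∃ t, chk3 f_pm_213 t 1 2 1 = true :=
  ⟨(a (l 6) (b (a (l 6) (l 6)) (a (b (l 6) (a (l 6) (b (l 6) (a (l 6) (l 16398384))))) (b (a (b (l 6) (a (l 6) (l 16363456))) (a (b (l 6) (a (l 16237896) (l 16138416))) (b (a (l 16293376) (l 16378128)) (l 15979832)))) (a (b (a (l 16378336) (l 16223856)) (a (l 16271360) (l 16109304))) (a (b (l 16034832) (l 15912464)) (b (l 15763336) (l 15627448)))))))), by decide +kernel⟩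

def k1_pm_213 : ∃ t, chk3 f_pm_213 t 1 3 1 = true :=
  ⟨(b (a (b (l 6) (a (l 6) (b (a (l 6) (a (l 6) (b (l 16350776) (l 16385616)))) (a (b (l 6) (a (l 6) (l 16256224))) (b (l 16205528) (l 16505272)))))) (a (b (a (b (b (l 6) (l 6)) (a (b (l 6) (l 16409344)) (l 16449896))) (b (a (l 16421736) (l 16318736)) (l 16296680))) (b (a (l 16369576) (l 16177600)) (a (l 16303104) (b (l 16036936) (l 15912576))))) (b (a (b (l 15902096) (l 15850168)) (a (b (l 15803392) (l 15674888)) (b (l 15519120) (l 15378408)))) (a (b (l 15559648) (a (l 15669216) (l 15464664))) (b (a (l 15477408) (l 15178160)) (a (l 15226112) (l 14885128))))))) (a (b (b (a (l 6) (a (b (a (b (l 6) (l 16258880)) (l 16438696)) (l 16368944)) (l 16290384))) (a (a (l 6) (b (a (l 6) (l 16411048)) (a (l 16422432) (l 16540792)))) (a (b (l 16467272) (l 16304360)) (b (l 16143360) (a (l 16025768) (l 15832152)))))) (b (a (l 1) (a (l 1) (b (a (l 15801456) (l 15688848)) (l 1)))) (l 1))) (a (b (b (a (b (l 16127096)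 (l 15959288)) (b (l 15754176) (l 15617392))) (a (b (a (l 15851576) (l 15703032)) (l 15648304)) (l 15429696))) (b (b (l 15414368) (l 681319638151)) (l 1))) (b (b (a (l 15297736) (l 14620768)) (a (l 15070440) (b (l 14627160) (a (l 14709048) (l 14450288))))) (a (b (b (l 14970968) (l 14993440)) (l 15108256)) (b (a (l 14803184) (l 14654088)) (a (b (l 14962920) (l 15022800)) (b (l 14818880) (l 14798464))))))))), by decide +kernel⟩

theorem s2_pm_213 : ∃ t, chk3 f_pm_213 t 1 1 1 = true := ex3_b k0_pm_213 k1_pm_213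

theorem c_pm_213 : CertB 0 536870912 0 1230186008 1040187392 5207648 3 eng mog cd0q2 cd5q3 pd1 false true false .pnn 2 1 3
    ndB0q2 ndB5q3 pcB1 cut_pm_213 Ext.none :=
  certB0 (fam := false) (s1 := true) (s2 := false) (a := 2) (b := 1) (c := 3) (cn := .pnn) (n1 := ndB0q2) (n2 := ndB5q3) (pc := pcB1) (cut := cut_pm_213) (xt := Ext.none) (P1 := 0) (W1 := 536870912) (P2 := 0) (W2 := 1230186008) (P3 := 1040187392) (W3 := 5207648) (N0 := 3) (En := eng) (mo := mog) (C1 := cd0q2) (C2 := cd5q3) (C3 := pd1)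
    rfl s2_pm_213

noncomputable def cut_mm_001 : Cut := Cut.of [[⟨3, 0, 0, 1449551462⟩]]

noncomputable def f_mm_001 : ℕ → ℕ → ℕ → ℕ → Bool := onCell 0 536870912 536870912 536870912 1040187392 5207648
    (rowB 3 eng mog cd0q0 cd5q1 pd0 0 false false false .up 0 0 1 (qsf 0 536870912 536870912 536870912 0) ndB0q0 ndB5q1 pcB0 cut_mm_001 Ext.none)

def k0_mm_001 : ∃ t, chk3 f_mm_001 t 1 1 1 = true :=
  ⟨(l 6), by decide +kernel⟩

theorem c_mm_001 : CertB 0 536870912 536870912 536870912 1040187392 5207648 3 eng mog cd0q0 cd5q1 pd0 false false false .up 0 0 1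
    ndB0q0 ndB5q1 pcB0 cut_mm_001 Ext.none :=
  certB0 (fam := false) (s1 := false) (s2 := false) (a := 0) (b := 0) (c := 1) (cn := .up) (n1 := ndB0q0) (n2 := ndB5q1) (pc := pcB0) (cut := cut_mm_001) (xt := Ext.none) (P1 := 0) (W1 := 536870912) (P2 := 536870912) (W2 := 536870912) (P3 := 1040187392) (W3 := 5207648) (N0 := 3) (En := eng) (mo := mog) (C1 := cd0q0) (C2 := cd5q1) (C3 := pd0)
    rfl k0_mm_001

noncomputable def cut_mm_011 : Cut := Cut.of [[⟨3, 0, 0, 1449551462⟩]]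

noncomputable def f_mm_011 : ℕ → ℕ → ℕ → ℕ → Bool := onCell 0 536870912 536870912 536870912 1040187392 5207648
    (rowB 3 eng mog cd0q0 cd5q1 pd1 0 false false false .pnn 0 1 1 (qsf 0 536870912 536870912 536870912 1) ndB0q0 ndB5q1 pcB1 cut_mm_011 Ext.none)

def k0_mm_011 : ∃ t, chk3 f_mm_011 t 1 1 1 = true :=
  ⟨(l 6), by decide +kernel⟩

theorem c_mm_011 : CertB 0 536870912 536870912 536870912 1040187392 5207648 3 eng mog cd0q0 cd5q1 pd1 false false false .pnn 0 1 1
    ndB0q0 ndB5q1 pcB1 cut_mm_011 Ext.none :=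
  certB0 (fam := false) (s1 := false) (s2 := false) (a := 0) (b := 1) (c := 1) (cn := .pnn) (n1 := ndB0q0) (n2 := ndB5q1) (pc := pcB1) (cut := cut_mm_011) (xt := Ext.none) (P1 := 0) (W1 := 536870912) (P2 := 536870912) (W2 := 536870912) (P3 := 1040187392) (W3 := 5207648) (N0 := 3) (En := eng) (mo := mog) (C1 := cd0q0) (C2 := cd5q1) (C3 := pd1)
    rfl k0_mm_011

noncomputable def cut_mm_012 : Cut := Cut.of [[⟨3, 0, 0, 1449551462⟩]]

noncomputable def f_mm_012 : ℕ → ℕ → ℕ → ℕ → Bool := onCell 0 536870912 1073741824 536870912 1040187392 5207648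
    (rowB 3 eng mog cd0q0 cd5q2 pd1 0 false false false .pnp 0 1 2 (qsf 0 536870912 1073741824 536870912 1) ndB0q0 ndB5q2 pcB1 cut_mm_012 Ext.none)

def k0_mm_012 : ∃ t, chk3 f_mm_012 t 1 1 1 = true :=
  ⟨(l 5), by decide +kernel⟩

theorem c_mm_012 : CertB 0 536870912 1073741824 536870912 1040187392 5207648 3 eng mog cd0q0 cd5q2 pd1 false false false .pnp 0 1 2
    ndB0q0 ndB5q2 pcB1 cut_mm_012 Ext.none :=
  certB0 (fam := false) (s1 := false) (s2 := false) (a := 0) (b := 1) (c := 2) (cn := .pnp) (n1 := ndB0q0) (n2 := ndB5q2) (pc := pcB1) (cut := cut_mm_012) (xt := Ext.none) (P1 := 0) (W1 := 536870912) (P2 := 1073741824) (W2 := 536870912) (P3 := 1040187392) (W3 := 5207648) (N0 := 3) (En := eng) (mo := mog) (C1 := cd0q0) (C2 := cd5q2) (C3 := pd1)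
    rfl k0_mm_012

noncomputable def cut_mm_022 : Cut := Cut.of [[⟨3, 0, 0, 1449551462⟩]]

noncomputable def f_mm_022 : ℕ → ℕ → ℕ → ℕ → Bool := onCell 0 536870912 1073741824 536870912 1040187392 5207648
    (rowB 3 eng mog cd0q0 cd5q2 pd2 0 false false false .pp 0 2 2 (qsf 0 536870912 1073741824 536870912 2) ndB0q0 ndB5q2 pcB2 cut_mm_022 Ext.none)

def k0_mm_022 : ∃ t, chk3 f_mm_022 t 1 1 1 = true :=
  ⟨(l 5), by decide +kernel⟩

theorem c_mm_022 : CertB 0 536870912 1073741824 536870912 1040187392 5207648 3 eng mog cd0q0 cd5q2 pd2 false false false .pp 0 2 2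
    ndB0q0 ndB5q2 pcB2 cut_mm_022 Ext.none :=
  certB0 (fam := false) (s1 := false) (s2 := false) (a := 0) (b := 2) (c := 2) (cn := .pp) (n1 := ndB0q0) (n2 := ndB5q2) (pc := pcB2) (cut := cut_mm_022) (xt := Ext.none) (P1 := 0) (W1 := 536870912) (P2 := 1073741824) (W2 := 536870912) (P3 := 1040187392) (W3 := 5207648) (N0 := 3) (En := eng) (mo := mog) (C1 := cd0q0) (C2 := cd5q2) (C3 := pd2)
    rfl k0_mm_022

noncomputable def cut_mm_023 : Cut := Cut.of [[⟨3, 0, 0, 1449551462⟩]]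

noncomputable def f_mm_023 : ℕ → ℕ → ℕ → ℕ → Bool := onCell 0 536870912 0 1230186008 1040187392 5207648
    (rowB 3 eng mog cd0q0 cd5q3 pd2 0 false false false .up 0 2 3 (qsf 0 536870912 0 1230186008 2) ndB0q0 ndB5q3 pcB2 cut_mm_023 Ext.none)

def k0_mm_023 : ∃ t, chk3 f_mm_023 t 1 1 1 = true :=
  ⟨(l 5), by decide +kernel⟩

theorem c_mm_023 : CertB 0 536870912 0 1230186008 1040187392 5207648 3 eng mog cd0q0 cd5q3 pd2 false false false .up 0 2 3
    ndB0q0 ndB5q3 pcB2 cut_mm_023 Ext.none :=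
  certB0 (fam := false) (s1 := false) (s2 := false) (a := 0) (b := 2) (c := 3) (cn := .up) (n1 := ndB0q0) (n2 := ndB5q3) (pc := pcB2) (cut := cut_mm_023) (xt := Ext.none) (P1 := 0) (W1 := 536870912) (P2 := 0) (W2 := 1230186008) (P3 := 1040187392) (W3 := 5207648) (N0 := 3) (En := eng) (mo := mog) (C1 := cd0q0) (C2 := cd5q3) (C3 := pd2)
    rfl k0_mm_023

noncomputable def cut_mm_033 : Cut := Cut.of [[⟨3, 0, 0, 1449551462⟩]]

noncomputable def f_mm_033 : ℕ → ℕ → ℕ → ℕ → Bool := onCell 0 536870912 0 1230186008 1040187392 5207648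
    (rowB 3 eng mog cd0q0 cd5q3 pd3 0 false false false .pnn 0 3 3 (qsf 0 536870912 0 1230186008 3) ndB0q0 ndB5q3 pcB3 cut_mm_033 Ext.none)

def k0_mm_033 : ∃ t, chk3 f_mm_033 t 1 1 1 = true :=
  ⟨(l 5), by decide +kernel⟩

theorem c_mm_033 : CertB 0 536870912 0 1230186008 1040187392 5207648 3 eng mog cd0q0 cd5q3 pd3 false false false .pnn 0 3 3
    ndB0q0 ndB5q3 pcB3 cut_mm_033 Ext.none :=
  certB0 (fam := false) (s1 := false) (s2 := false) (a := 0) (b := 3) (c := 3) (cn := .pnn) (n1 := ndB0q0) (n2 := ndB5q3) (pc := pcB3) (cut := cut_mm_033) (xt := Ext.none) (P1 := 0) (W1 := 536870912) (P2 := 0) (W2 := 1230186008) (P3 := 1040187392) (W3 := 5207648) (N0 := 3) (En := eng) (mo := mog) (C1 := cd0q0) (C2 := cd5q3) (C3 := pd3)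
    rfl k0_mm_033

noncomputable def cut_mm_101 : Cut := Cut.of [[⟨3, 0, 0, 1449551462⟩], [⟨0, 1, 0, 26843545⟩, ⟨1, 0, 0, 26843545⟩, ⟨2, 1, 0, 26843545⟩]]

noncomputable def f_mm_101 : ℕ → ℕ → ℕ → ℕ → Bool := onCell 536870912 536870912 0 536870912 1040187392 5207648
    (rowB 3 eng mog cd0q1 cd5q1 pd0 1 false false false .npn 1 0 1 (qsf 536870912 536870912 536870912 536870912 0) ndB0q1 ndB5q1 pcB0 cut_mm_101 Ext.none)

def k0_mm_101 : ∃ t, chk3 f_mm_101 t 1 1 1 = true :=
  ⟨(l 6), by decide +kernel⟩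

theorem c_mm_101 : CertB 536870912 536870912 536870912 536870912 1040187392 5207648 3 eng mog cd0q1 cd5q1 pd0 false false false .npn 1 0 1
    ndB0q1 ndB5q1 pcB0 cut_mm_101 Ext.none :=
  certB1 (fam := false) (s1 := false) (s2 := false) (a := 1) (b := 0) (c := 1) (cn := .npn) (n1 := ndB0q1) (n2 := ndB5q1) (pc := pcB0) (cut := cut_mm_101) (xt := Ext.none) (P1 := 536870912) (W1 := 536870912) (P2 := 536870912) (W2 := 536870912) (P3 := 1040187392) (W3 := 5207648) (N0 := 3) (En := eng) (mo := mog) (C1 := cd0q1) (C2 := cd5q1) (C3 := pd0)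
    rfl (fun _ => rfl) k0_mm_101

noncomputable def cut_mm_102 : Cut := Cut.of [[⟨3, 0, 0, 1449551462⟩], [⟨0, 1, 0, 26843545⟩, ⟨1, 0, 0, 26843545⟩, ⟨2, 1, 0, 26843545⟩]]

noncomputable def f_mm_102 : ℕ → ℕ → ℕ → ℕ → Bool := onCell 536870912 536870912 1073741824 536870912 1040187392 5207648
    (rowB 3 eng mog cd0q1 cd5q2 pd0 0 false false false .npp 1 0 2 (qsf 536870912 536870912 1073741824 536870912 0) ndB0q1 ndB5q2 pcB0 cut_mm_102 Ext.none)

def k0_mm_102 : ∃ t, chk3 f_mm_102 t 1 1 1 = true :=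
  ⟨(l 6), by decide +kernel⟩

theorem c_mm_102 : CertB 536870912 536870912 1073741824 536870912 1040187392 5207648 3 eng mog cd0q1 cd5q2 pd0 false false false .npp 1 0 2
    ndB0q1 ndB5q2 pcB0 cut_mm_102 Ext.none :=
  certB0 (fam := false) (s1 := false) (s2 := false) (a := 1) (b := 0) (c := 2) (cn := .npp) (n1 := ndB0q1) (n2 := ndB5q2) (pc := pcB0) (cut := cut_mm_102) (xt := Ext.none) (P1 := 536870912) (W1 := 536870912) (P2 := 1073741824) (W2 := 536870912) (P3 := 1040187392) (W3 := 5207648) (N0 := 3) (En := eng) (mo := mog) (C1 := cd0q1) (C2 := cd5q2) (C3 := pd0)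
    rfl k0_mm_102

noncomputable def cut_mm_112 : Cut := Cut.of [[⟨3, 0, 0, 1449551462⟩]]

noncomputable def f_mm_112 : ℕ → ℕ → ℕ → ℕ → Bool := onCell 536870912 536870912 1073741824 536870912 1040187392 5207648
    (rowB 3 eng mog cd0q1 cd5q2 pd1 0 false false false .dn 1 1 2 (qsf 536870912 536870912 1073741824 536870912 1) ndB0q1 ndB5q2 pcB1 cut_mm_112 Ext.none)

def k0_mm_112 : ∃ t, chk3 f_mm_112 t 1 1 1 = true :=
  ⟨(l 6), by decide +kernel⟩

theorem c_mm_112 : CertB 536870912 536870912 1073741824 536870912 1040187392 5207648 3 eng mog cd0q1 cd5q2 pd1 false false false .dn 1 1 2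
    ndB0q1 ndB5q2 pcB1 cut_mm_112 Ext.none :=
  certB0 (fam := false) (s1 := false) (s2 := false) (a := 1) (b := 1) (c := 2) (cn := .dn) (n1 := ndB0q1) (n2 := ndB5q2) (pc := pcB1) (cut := cut_mm_112) (xt := Ext.none) (P1 := 536870912) (W1 := 536870912) (P2 := 1073741824) (W2 := 536870912) (P3 := 1040187392) (W3 := 5207648) (N0 := 3) (En := eng) (mo := mog) (C1 := cd0q1) (C2 := cd5q2) (C3 := pd1)
    rfl k0_mm_112

noncomputable def cut_mm_113 : Cut := Cut.of [[⟨3, 0, 0, 1449551462⟩]]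

noncomputable def f_mm_113 : ℕ → ℕ → ℕ → ℕ → Bool := onCell 536870912 536870912 0 1230186008 1040187392 5207648
    (rowB 3 eng mog cd0q1 cd5q3 pd1 0 false false false .nn 1 1 3 (qsf 536870912 536870912 0 1230186008 1) ndB0q1 ndB5q3 pcB1 cut_mm_113 Ext.none)

def k0_mm_113 : ∃ t, chk3 f_mm_113 t 1 1 1 = true :=
  ⟨(a (l 5) (b (l 5) (l 6))), by decide +kernel⟩

theorem c_mm_113 : CertB 536870912 536870912 0 1230186008 1040187392 5207648 3 eng mog cd0q1 cd5q3 pd1 false false false .nn 1 1 3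
    ndB0q1 ndB5q3 pcB1 cut_mm_113 Ext.none :=
  certB0 (fam := false) (s1 := false) (s2 := false) (a := 1) (b := 1) (c := 3) (cn := .nn) (n1 := ndB0q1) (n2 := ndB5q3) (pc := pcB1) (cut := cut_mm_113) (xt := Ext.none) (P1 := 536870912) (W1 := 536870912) (P2 := 0) (W2 := 1230186008) (P3 := 1040187392) (W3 := 5207648) (N0 := 3) (En := eng) (mo := mog) (C1 := cd0q1) (C2 := cd5q3) (C3 := pd1)
    rfl k0_mm_113

noncomputable def cut_mm_123 : Cut := Cut.of [[⟨3, 0, 0, 1449551462⟩]]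

noncomputable def f_mm_123 : ℕ → ℕ → ℕ → ℕ → Bool := onCell 1073741824 536870912 0 1230186008 1040187392 5207648
    (rowB 3 eng mog cd0q1 cd5q3 pd2 2 false false false .npn 1 2 3 (qsf 536870912 536870912 0 1230186008 2) ndB0q1 ndB5q3 pcB2 cut_mm_123 Ext.none)

def k0_mm_123 : ∃ t, chk3 f_mm_123 t 1 1 1 = true :=
  ⟨(b (l 5) (l 5)), by decide +kernel⟩

theorem c_mm_123 : CertB 536870912 536870912 0 1230186008 1040187392 5207648 3 eng mog cd0q1 cd5q3 pd2 false false false .npn 1 2 3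
    ndB0q1 ndB5q3 pcB2 cut_mm_123 Ext.none :=
  certB2 (fam := false) (s1 := false) (s2 := false) (a := 1) (b := 2) (c := 3) (cn := .npn) (n1 := ndB0q1) (n2 := ndB5q3) (pc := pcB2) (cut := cut_mm_123) (xt := Ext.none) (P1 := 536870912) (W1 := 536870912) (P2 := 0) (W2 := 1230186008) (P3 := 1040187392) (W3 := 5207648) (N0 := 3) (En := eng) (mo := mog) (C1 := cd0q1) (C2 := cd5q3) (C3 := pd2)
    rfl (fun _ => rfl) k0_mm_123

noncomputable def cut_mm_133 : Cut := Cut.of [[⟨3, 0, 0, 1449551462⟩]]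

noncomputable def f_mm_133 : ℕ → ℕ → ℕ → ℕ → Bool := onCell 1610612736 536870912 0 1230186008 1040187392 5207648
    (rowB 3 eng mog cd0q1 cd5q3 pd3 2 false false false .dn 1 3 3 (qsf 536870912 536870912 0 1230186008 3) ndB0q1 ndB5q3 pcB3 cut_mm_133 Ext.none)

def k0_mm_133 : ∃ t, chk3 f_mm_133 t 1 1 1 = true :=
  ⟨(l 5), by decide +kernel⟩

theorem c_mm_133 : CertB 536870912 536870912 0 1230186008 1040187392 5207648 3 eng mog cd0q1 cd5q3 pd3 false false false .dn 1 3 3
    ndB0q1 ndB5q3 pcB3 cut_mm_133 Ext.none :=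
  certB2 (fam := false) (s1 := false) (s2 := false) (a := 1) (b := 3) (c := 3) (cn := .dn) (n1 := ndB0q1) (n2 := ndB5q3) (pc := pcB3) (cut := cut_mm_133) (xt := Ext.none) (P1 := 536870912) (W1 := 536870912) (P2 := 0) (W2 := 1230186008) (P3 := 1040187392) (W3 := 5207648) (N0 := 3) (En := eng) (mo := mog) (C1 := cd0q1) (C2 := cd5q3) (C3 := pd3)
    rfl (fun _ => rfl) k0_mm_133

noncomputable def cut_mm_202 : Cut := Cut.of [[⟨3, 0, 0, 1449551462⟩], [⟨0, 1, 0, 22369621⟩, ⟨1, 0, 0, 22369621⟩, ⟨2, 1, 0, 22369621⟩]]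

noncomputable def f_mm_202 : ℕ → ℕ → ℕ → ℕ → Bool := onCell 0 536870912 0 536870912 1040187392 5207648
    (rowB 3 eng mog cd0q2 cd5q2 pd0 1 false false false .pp 2 0 2 (qsf 0 536870912 1073741824 536870912 0) ndB0q2 ndB5q2 pcB0 cut_mm_202 Ext.none)

def k0_mm_202 : ∃ t, chk3 f_mm_202 t 1 1 1 = true :=
  ⟨(a (a (b (b (b (b (b (l 15491200) (b (l 15535096) (l 15582560))) (b (l 15598656) (l 15666144))) (b (l 15671400) (l 15625232))) (b (b (b (l 15548544) (a (l 15460416) (a (l 15487872) (l 15522368)))) (b (a (l 15383064) (a (l 15407976) (b (l 15480080) (l 15508992)))) (a (l 15300976) (a (a (l 15325400) (l 15410792)) (l 15605232))))) (a (b (b (a (l 15186576) (a (l 15202328) (l 15271280))) (a (l 15121312) (l 15329400))) (b (l 15321320) (l 15486336))) (b (b (l 15607648) (a (l 15618728) (l 15907328))) (a (b (l 15776024) (a (l 15878936) (l 15988552))) (b (a (l 15985416) (l 16062080)) (l 16093064))))))) (b (b (b (a (a (l 15585424) (b (l 15824880) (l 15936480)))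 (b (a (l 16014312) (l 16156128)) (l 16152168))) (a (a (b (l 15697528) (l 15935224)) (l 16047480)) (l 16238904))) (a (b (l 16114856) (l 16239600)) (l 6))) (l 2))) (b (b (b (b (b (a (l 15767616) (l 15953240)) (b (l 15781784) (l 15934128))) (b (b (l 15961648) (l 15988408)) (l 15869104))) (a (b (l 15867440) (b (l 15791184) (a (l 15701480) (l 15757080)))) (a (b (l 15959512) (b (l 15814664) (b (l 15842528) (l 15876728)))) (b (b (l 16050584) (l 15896992)) (l 6))))) (a (b (b (b (a (l 15638672) (b (l 15722672) (l 15761208))) (a (b (l 15601992) (l 15639352)) (l 15840816))) (a (l 15748696) (b (l 15970760) (l 6)))) (b (a (b (a (l 15942240) (l 16063728)) (l 16045648)) (l 6)) (l 6))) (b (b (b (a (l 15948152) (l 6)) (l 6)) (l 6)) (l 6)))) (l 6))) (b (a (b (a (b (b (b (l 16157544) (b (l 16164784) (l 16214096))) (b (b (l 16262032) (l 16252368)) (l 6))) (l 6)) (l 6)) (l 6)) (l 6)) (l 6))), by decide +kernel⟩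

theorem c_mm_202 : CertB 0 536870912 1073741824 536870912 1040187392 5207648 3 eng mog cd0q2 cd5q2 pd0 false false false .pp 2 0 2
    ndB0q2 ndB5q2 pcB0 cut_mm_202 Ext.none :=
  certB1 (fam := false) (s1 := false) (s2 := false) (a := 2) (b := 0) (c := 2) (cn := .pp) (n1 := ndB0q2) (n2 := ndB5q2) (pc := pcB0) (cut := cut_mm_202) (xt := Ext.none) (P1 := 0) (W1 := 536870912) (P2 := 1073741824) (W2 := 536870912) (P3 := 1040187392) (W3 := 5207648) (N0 := 3) (En := eng) (mo := mog) (C1 := cd0q2) (C2 := cd5q2) (C3 := pd0)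
    rfl (fun _ => rfl) k0_mm_202

noncomputable def cut_mm_203 : Cut := Cut.of [[⟨3, 0, 0, 1449551462⟩]]

noncomputable def f_mm_203 : ℕ → ℕ → ℕ → ℕ → Bool := onCell 0 536870912 0 1230186008 1040187392 5207648
    (rowB 3 eng mog cd0q2 cd5q3 pd0 0 false false false .up 2 0 3 (qsf 0 536870912 0 1230186008 0) ndB0q2 ndB5q3 pcB0 cut_mm_203 Ext.none)

def k0_mm_203 : ∃ t, chk3 f_mm_203 t 1 1 1 = true :=
  ⟨(b (l 2) (a (b (l 2) (b (l 6) (a (b (l 6) (a (b (l 6) (l 16257872)) (l 6))) (l 6)))) (l 6))), by decide +kernel⟩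

theorem c_mm_203 : CertB 0 536870912 0 1230186008 1040187392 5207648 3 eng mog cd0q2 cd5q3 pd0 false false false .up 2 0 3
    ndB0q2 ndB5q3 pcB0 cut_mm_203 Ext.none :=
  certB0 (fam := false) (s1 := false) (s2 := false) (a := 2) (b := 0) (c := 3) (cn := .up) (n1 := ndB0q2) (n2 := ndB5q3) (pc := pcB0) (cut := cut_mm_203) (xt := Ext.none) (P1 := 0) (W1 := 536870912) (P2 := 0) (W2 := 1230186008) (P3 := 1040187392) (W3 := 5207648) (N0 := 3) (En := eng) (mo := mog) (C1 := cd0q2) (C2 := cd5q3) (C3 := pd0)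
    rfl k0_mm_203

noncomputable def cut_mm_213 : Cut := Cut.of [[⟨3, 0, 0, 1449551462⟩]]

noncomputable def f_mm_213 : ℕ → ℕ → ℕ → ℕ → Bool := onCell 0 536870912 0 1230186008 1040187392 5207648
    (rowB 3 eng mog cd0q2 cd5q3 pd1 0 false false false .pnn 2 1 3 (qsf 0 536870912 0 1230186008 1) ndB0q2 ndB5q3 pcB1 cut_mm_213 Ext.none)

def k0_mm_213 : ∃ t, chk3 f_mm_213 t 1 1 1 = true :=
  ⟨(b (l 6) (a (b (l 6) (b (l 6) (a (l 1) (l 6)))) (l 6))), by decide +kernel⟩

theorem c_mm_213 : CertB 0 536870912 0 1230186008 1040187392 5207648 3 eng mog cd0q2 cd5q3 pd1 false false false .pnn 2 1 3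
    ndB0q2 ndB5q3 pcB1 cut_mm_213 Ext.none :=
  certB0 (fam := false) (s1 := false) (s2 := false) (a := 2) (b := 1) (c := 3) (cn := .pnn) (n1 := ndB0q2) (n2 := ndB5q3) (pc := pcB1) (cut := cut_mm_213) (xt := Ext.none) (P1 := 0) (W1 := 536870912) (P2 := 0) (W2 := 1230186008) (P3 := 1040187392) (W3 := 5207648) (N0 := 3) (En := eng) (mo := mog) (C1 := cd0q2) (C2 := cd5q3) (C3 := pd1)
    rfl k0_mm_213

end Pool.Agent.Strip051.G.I9688_9736.Tab.C.BB05

namespace Pool.Agent.Strip051.G.I9688_9736.Tab.C.BB10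

open Pool.Agent.Strip051.PB Pool.Agent.Strip051.PB.T
open Pool.Agent.Strip051.G.I9688_9736.Tab

noncomputable def f_pp_001 : ℕ → ℕ → ℕ → ℕ → Bool := onCell 0 536870912 0 536870912 1040187392 5207648
    (rowB 3 eng mog cd1q0 cd0q1 pd0 1 false true true .up 0 0 1 (qsf 0 536870912 536870912 536870912 0) ndB1q0 ndB0q1 pcB0 Cut.none Ext.none)

def k0_pp_001 : ∃ t, chk3 f_pp_001 t 1 1 1 = true :=
  ⟨(l 3), by decide +kernel⟩

theorem c_pp_001 : CertB 0 536870912 536870912 536870912 1040187392 5207648 3 eng mog cd1q0 cd0q1 pd0 false true true .up 0 0 1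
    ndB1q0 ndB0q1 pcB0 Cut.none Ext.none :=
  certB1 (fam := false) (s1 := true) (s2 := true) (a := 0) (b := 0) (c := 1) (cn := .up) (n1 := ndB1q0) (n2 := ndB0q1) (pc := pcB0) (cut := Cut.none) (xt := Ext.none) (P1 := 0) (W1 := 536870912) (P2 := 536870912) (W2 := 536870912) (P3 := 1040187392) (W3 := 5207648) (N0 := 3) (En := eng) (mo := mog) (C1 := cd1q0) (C2 := cd0q1) (C3 := pd0)
    rfl (fun _ => rfl) k0_pp_001

noncomputable def cut_pp_011 : Cut := Cut.of [[⟨0, 0, 0, 26843545⟩, ⟨1, 1, 0, 26843545⟩, ⟨2, 1, 0, 26843545⟩]]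

noncomputable def f_pp_011 : ℕ → ℕ → ℕ → ℕ → Bool := onCell 0 536870912 536870912 536870912 1040187392 5207648
    (rowB 3 eng mog cd1q0 cd0q1 pd1 0 false true true .pnn 0 1 1 (qsf 0 536870912 536870912 536870912 1) ndB1q0 ndB0q1 pcB1 cut_pp_011 Ext.none)

def k0_pp_011 : ∃ t, chk3 f_pp_011 t 1 1 1 = true :=
  ⟨(a (b (l 3) (b (l 3) (a (b (l 3) (a (b (l 3) (a (b (l 3) (a (b (l 3) (l 6)) (l 3))) (l 3))) (l 3))) (l 3)))) (l 3)), by decide +kernel⟩

theorem c_pp_011 : CertB 0 536870912 536870912 536870912 1040187392 5207648 3 eng mog cd1q0 cd0q1 pd1 false true true .pnn 0 1 1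
    ndB1q0 ndB0q1 pcB1 cut_pp_011 Ext.none :=
  certB0 (fam := false) (s1 := true) (s2 := true) (a := 0) (b := 1) (c := 1) (cn := .pnn) (n1 := ndB1q0) (n2 := ndB0q1) (pc := pcB1) (cut := cut_pp_011) (xt := Ext.none) (P1 := 0) (W1 := 536870912) (P2 := 536870912) (W2 := 536870912) (P3 := 1040187392) (W3 := 5207648) (N0 := 3) (En := eng) (mo := mog) (C1 := cd1q0) (C2 := cd0q1) (C3 := pd1)
    rfl k0_pp_011

noncomputable def cut_pp_012 : Cut := Cut.of [[⟨0, 0, 0, 26843545⟩, ⟨1, 1, 0, 26843545⟩, ⟨2, 1, 0, 26843545⟩]]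

noncomputable def xt_pp_012 : Ext := extD3 3 ⟨4, 1, 1, 5, 33, 5, 163, 200, 81, 200, 1, 64⟩ eng cd1q0 cd0q2 pd1 false true true .pnp 0 1 2 rfl ndB1q0 ndB0q2 pcB1

noncomputable def f_pp_012 : ℕ → ℕ → ℕ → ℕ → Bool := onCell 536870912 536870912 0 536870912 1040187392 5207648
    (rowB 3 eng mog cd1q0 cd0q2 pd1 2 false true true .pnp 0 1 2 (qsf 0 536870912 0 536870912 1) ndB1q0 ndB0q2 pcB1 cut_pp_012 xt_pp_012)

def k0_pp_012 : ∃ t, chk3 f_pp_012 t 2 1 1 = true :=
  ⟨(b (a (b (l 2) (b (l 2) (l 3))) (b (a (b (a (b (l 16575488) (l 16471784)) (b (l 16715056) (l 16561320))) (a (l 16535896) (l 16562560))) (b (a (l 16653616) (l 16542184)) (a (b (l 16632536) (l 16624768)) (b (l 16666768) (l 16702840))))) (a (b (a (b (l 16610976) (a (l 16465304) (l 16549472))) (l 16489712)) (a (b (a (b (l 71570940439) (l 3)) (b (l 116131213495) (l 65665348199))) (l 3)) (b (a (b (l 16504832) (l 109151868887)) (l 16505824)) (a (l 64054718455) (b (l 105393758967) (l 3)))))) (b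 (a (l 16629784) (l 16627832)) (a (b (l 16510016) (a (b (l 16472640) (l 103246270791)) (l 16456544))) (b (l 16550208) (l 16480448))))))) (b (a (l 3) (a (l 3) (b (a (b (a (l 3) (b (l 101098790663) (l 3))) (l 3)) (a (b (b (l 16436312) (l 99488189799)) (l 3)) (b (b (l 16474992) (l 135995414247)) (l 100025109559)))) (l 3)))) (l 3))), by decide +kernel⟩

def k1_pp_012 : ∃ t, chk3 f_pp_012 t 6 1 1 = true :=
  ⟨(b (a (b (a (b (l 16457008) (l 16558816)) (l 16370248)) (a (b (l 16605640) (l 16535128)) (b (l 16556344) (l 16524696)))) (b (a (l 16401520) (l 16378752)) (b (a (l 16486808) (l 16413776)) (a (l 16494208) (l 16445088))))) (b (a (b (a (b (a (l 16480952) (l 16492840)) (b (a (l 134921685239) (l 16473624)) (a (l 97877615751) (l 141364156647)))) (b (l 16501664) (a (l 16482968) (l 16493656)))) (b (a (l 3) (b (a (b (l 105393831527) (l 125258060615)) (l 128479304423)) (a (l 3) (b (l 107004467495) (l 119889377207))))) (l 3))) (b (a (b (l 16495920) (l 16500120))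 (l 16480728)) (a (b (a (b (l 16499600) (b (l 16499408) (l 130089942103))) (l 16509256)) (b (a (b (l 135458651159) (l 3)) (a (l 148343571031) (l 16517368))) (a (l 3) (a (l 3) (l 184850796119))))) (b (a (l 16513264) (l 16511568)) (a (b (l 16525888) (b (l 151027930119) (a (l 189682643591) (l 150491036023)))) (b (l 16531800) (l 16522200))))))) (b (a (l 3) (b (a (l 3) (b (a (b (a (l 3) (l 166060293159)) (l 3)) (b (a (l 153175353703) (l 16541328)) (a (l 173576454087) (l 184850764439)))) (l 3))) (l 3))) (l 3)))), by decide +kernel⟩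

def k2_pp_012 : ∃ t, chk3 f_pp_012 t 7 2 1 = true :=
  ⟨(a (b (a (l 16386776) (l 16405632)) (a (b (l 16359232) (l 16383392)) (b (l 16338944) (b (l 16309512) (l 16325472))))) (a (b (l 16415536) (b (l 16355104) (a (l 16285904) (l 16280216)))) (b (l 16387208) (b (l 16410576) (l 16238488))))), by decide +kernel⟩

def k3_pp_012 : ∃ t, chk3 f_pp_012 t 7 6 1 = true :=
  ⟨(a (a (b (l 16443800) (b (l 16498640) (a (l 16540424) (l 16535976)))) (b (a (l 16405408) (l 16375112)) (a (l 16501144) (b (l 16453280) (l 16509992))))) (a (b (a (l 16343656) (l 16313952)) (a (b (l 16430912) (l 16493864)) (b (l 16409944) (l 16480448)))) (b (b (a (l 16253168) (b (l 16245368) (l 16232648))) (a (l 16308232) (l 16270152))) (a (b (l 16379928) (l 16455056)) (b (l 16342280) (l 16417856)))))), by decide +kernel⟩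

def k4_pp_012 : ∃ t, chk3 f_pp_012 t 14 7 1 = true :=
  ⟨(b (a (b (a (b (a (l 16511896) (l 16565032)) (b (a (l 191830101367) (l 16480224)) (a (l 3) (l 201493749895)))) (b (l 16568920) (a (l 161228366615) (l 16583368)))) (b (a (l 3) (b (a (l 212231139335) (l 169818268711)) (a (l 3) (l 228337240103)))) (l 3))) (b (a (l 16557832) (l 16569568)) (a (b (b (l 16538904) (a (l 178408166199) (l 16551984))) (b (a (l 248738312327) (l 189145549047)) (a (l 3) (l 275581838327)))) (b (a (l 16616112) (l 16615136)) (a (b (l 16553656) (l 252496519159)) (b (l 16621016) (l 16558840))))))) (a (l 3) (b (a (l 3) (b (b (a (l 308330946119) (a (l 301888602887) (l 166597009943))) (l 3)) (l 3))) (l 3)))), by decide +kernel⟩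

def k5_pp_012 : ∃ t, chk3 f_pp_012 t 15 14 1 = true :=
  ⟨(a (b (a (l 16538920) (a (l 16555328) (l 16551088))) (a (b (a (l 16612272) (l 16611456)) (a (l 16650416) (l 16654016))) (b (a (l 16611392) (l 16609952)) (a (l 16656232) (l 16635856))))) (b (a (b (l 16513240) (l 16553208)) (a (l 16505768) (l 16487976))) (a (b (l 142078582929571903) (a (l 16649920) (l 16634872))) (b (a (l 16567208) (l 16549520)) (a (l 16616144) (l 16598640)))))), by decide +kernel⟩

def k6_pp_012 : ∃ t, chk3 f_pp_012 t 30 15 1 = true :=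
  ⟨(b (a (b (b (a (l 16482648) (l 16651976)) (a (b (l 145122366743) (l 272360698151)) (a (l 16552472) (l 16599888)))) (b (a (l 3) (b (a (l 275581965671) (l 16533048)) (l 282024388119))) (l 3))) (b (a (b (l 16693672) (b (l 16691432) (l 16654624))) (b (l 16696072) (l 16680624))) (a (a (b (l 76403045063) (l 293298677847)) (b (l 16656472) (b (l 60833690727) (l 300814910663)))) (b (a (b (l 16693432) (l 16648152)) (l 16728248)) (a (a (l 2179082138939439420598688319) (l 2527254500623714643296787007)) (b (l 16661280) (l 597474041858836390324287))))))) (a (l 3) (b (a (l 3) (a (l 3) (b (b (a (l 3823218671935855907273136703) (l 2382181207395644746989623359)) (l 3)) (l 3)))) (l 3)))), by decide +kernel⟩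

def k7_pp_012 : ∃ t, chk3 f_pp_012 t 31 30 1 = true :=
  ⟨(a (b (a (b (l 16690248) (l 16717520)) (b (l 16675680) (l 16703272))) (a (b (l 16720600) (a (l 599338605358499363694655) (l 16757288))) (b (l 16727576) (l 16726416)))) (b (a (b (l 16657120) (l 16684816)) (b (l 16639808) (l 16667632))) (a (b (l 16709160) (l 16707944)) (b (l 16671056) (a (l 16715760) (l 16708016)))))), by decide +kernel⟩

def k8_pp_012 : ∃ t, chk3 f_pp_012 t 62 62 1 = true :=
  ⟨(a (b (b (a (l 2730352541681118755176327231) (l 16701360)) (a (b (a (l 4113362772405001391332038719) (l 134922071847)) (a (l 3) (b (l 3165565784718427784383797311) (l 3)))) (b (l 16673680) (l 2711011760015221134205921343)))) (b (a (l 3) (b (a (b (a (l 3) (l 3426695370368916988885588031)) (l 3)) (b (l 162839459959) (a (b (l 196125451255) (l 363092253511)) (l 157470778311)))) (a (l 3) (b (a (l 3) (b (l 241222673223) (l 3))) (l 3))))) (l 3))) (b (a (l 600487203816138750930047) (l 16738808)) (b (a (b (l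 601643007198308858031231) (a (b (l 3223597078693575391531244607) (a (b (a (l 3) (l 197199214967)) (l 3)) (c (l 3001156552094534287604980799) (l 214915947831)))) (l 16725096))) (l 16763264)) (a (b (a (a (l 3) (b (c (l 6869718676799257656488483903) (l 373292862407)) (l 3))) (b (a (b (l 175724498823) (a (b (l 241222683943) (l 3)) (l 168745198583))) (l 16734552)) (a (c (l 393694076983) (l 386177803287)) (b (l 3155899052105290427455757375) (a (l 393157195175) (b (l 16743032) (l 249275809719))))))) (a (l 3) (a (l 3) (l 405505272599)))) (b (a (l 602379868878900489231423) (l 16773944)) (a (b (a (b (a (c (l 252497097143) (l 256791984455)) (l 16763568)) (a (l 3) (b (l 238538424551) (a (l 3) (l 246054616711))))) (l 16777144)) (a (l 3) (b (a (b (l 232632845047) (l 386714818663)) (l 16760320)) (a (l 3) (b (a (l 387251709863) (l 16766008)) (l 394767882007)))))) (b (l 16776848) (a (l 193441275303) (l 16777624))))))))), by decide +kernel⟩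

def k9_pp_012 : ∃ t, chk3 f_pp_012 t 62 63 1 = true :=
  ⟨(a (l 3) (b (b (a (l 3) (b (a (l 3) (b (a (b (a (b (a (l 399062869575) (l 252497080663)) (l 402820966311)) (c (l 177335177751) (l 178408906167))) (a (l 3) (b (a (l 410874029271) (l 250349621543)) (l 3)))) (b (l 16779120) (a (b (l 16780480) (a (l 246054656007) (l 16780688))) (l 16779520)))) (a (l 3) (a (c (l 389399172023) (l 390472924679)) (b (b (l 16780280) (a (l 384030460967) (l 16780480))) (b (l 392620406407) (l 3))))))) (l 3))) (l 3)) (l 3))), by decide +kernel⟩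

def k10_pp_012 : ∃ t, chk3 f_pp_012 t 63 31 1 = true :=
  ⟨(b (a (b (a (l 16750360) (l 16740952)) (a (b (l 16761672) (a (l 16750048) (l 16766096))) (b (l 16752192) (l 6)))) (b (a (l 16732352) (l 6)) (l 6))) (a (b (a (b (a (b (b (l 16775920) (b (l 16756464) (l 6))) (l 6)) (l 6)) (l 6)) (l 6)) (l 6)) (l 6))), by decide +kernel⟩

theorem s11_pp_012 : ∃ t, chk3 f_pp_012 t 62 31 1 = true := ex3_b k8_pp_012 k9_pp_012

theorem s12_pp_012 : ∃ t, chk3 f_pp_012 t 31 31 1 = true := ex3_a s11_pp_012 k10_pp_012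

theorem s13_pp_012 : ∃ t, chk3 f_pp_012 t 31 15 1 = true := ex3_b k7_pp_012 s12_pp_012

theorem s14_pp_012 : ∃ t, chk3 f_pp_012 t 15 15 1 = true := ex3_a k6_pp_012 s13_pp_012

theorem s15_pp_012 : ∃ t, chk3 f_pp_012 t 15 7 1 = true := ex3_b k5_pp_012 s14_pp_012

theorem s16_pp_012 : ∃ t, chk3 f_pp_012 t 7 7 1 = true := ex3_a k4_pp_012 s15_pp_012

theorem s17_pp_012 : ∃ t, chk3 f_pp_012 t 7 3 1 = true := ex3_b k3_pp_012 s16_pp_012

theorem s18_pp_012 : ∃ t, chk3 f_pp_012 t 7 1 1 = true := ex3_b k2_pp_012 s17_pp_012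

theorem s19_pp_012 : ∃ t, chk3 f_pp_012 t 3 1 1 = true := ex3_a k1_pp_012 s18_pp_012

theorem s20_pp_012 : ∃ t, chk3 f_pp_012 t 1 1 1 = true := ex3_a k0_pp_012 s19_pp_012

theorem c_pp_012 : CertB 0 536870912 0 536870912 1040187392 5207648 3 eng mog cd1q0 cd0q2 pd1 false true true .pnp 0 1 2
    ndB1q0 ndB0q2 pcB1 cut_pp_012 xt_pp_012 :=
  certB2 (fam := false) (s1 := true) (s2 := true) (a := 0) (b := 1) (c := 2) (cn := .pnp) (n1 := ndB1q0) (n2 := ndB0q2) (pc := pcB1) (cut := cut_pp_012) (xt := xt_pp_012) (P1 := 0) (W1 := 536870912) (P2 := 0) (W2 := 536870912) (P3 := 1040187392) (W3 := 5207648) (N0 := 3) (En := eng) (mo := mog) (C1 := cd1q0) (C2 := cd0q2) (C3 := pd1)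
    rfl (fun _ => rfl) s20_pp_012

noncomputable def cut_pp_022 : Cut := Cut.of [[⟨0, 0, 0, 16777216⟩, ⟨1, 1, 0, 16777216⟩, ⟨2, 1, 0, 16777216⟩]]

noncomputable def f_pp_022 : ℕ → ℕ → ℕ → ℕ → Bool := onCell 1073741824 536870912 0 536870912 1040187392 5207648
    (rowB 3 eng mog cd1q0 cd0q2 pd2 2 false true true .pp 0 2 2 (qsf 0 536870912 0 536870912 2) ndB1q0 ndB0q2 pcB2 cut_pp_022 Ext.none)

def k0_pp_022 : ∃ t, chk3 f_pp_022 t 2 2 1 = true :=
  ⟨(a (a (b (b (l 16020888) (a (l 16354472) (l 16203696))) (b (a (l 16358312) (l 16291448)) (a (b (l 16445008) (a (l 16495472) (l 16465952))) (b (l 16367952) (l 16424856))))) (b (a (b (l 15957896) (l 16064744)) (b (l 15795104) (l 15938784))) (b (a (l 16192336) (l 16104048)) (a (l 16254592) (l 16183904))))) (a (a (b (b (l 15649168) (l 15827272)) (b (l 16028008) (l 16144504))) (b (b (l 1) (l 1)) (l 1))) (l 1))), by decide +kernel⟩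

def k1_pp_022 : ∃ t, chk3 f_pp_022 t 8 6 1 = true :=
  ⟨(a (b (b (a (l 16529184) (l 16510648)) (a (b (l 16556472) (l 16575864)) (l 16537880))) (b (a (a (b (l 16595976) (l 16615480)) (b (l 16596144) (l 16618464))) (a (l 16588328) (l 16590408))) (a (a (b (b (l 16630504) (l 16630288)) (a (b (l 16649256) (a (l 16658336) (l 16660648))) (l 16637728))) (b (l 16641496) (l 16644224))) (b (l 16629640) (a (l 16653064) (l 16654632)))))) (b (b (l 16464648) (a (l 16552600) (l 16547688))) (b (a (l 16594040) (l 16620848)) (a (l 16584832) (l 16558944))))), by decide +kernel⟩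

def k2_pp_022 : ∃ t, chk3 f_pp_022 t 8 14 1 = true :=
  ⟨(b (a (a (a (a (b (a (b (b (l 16665960) (l 16671104)) (b (l 16676272) (l 16676240))) (b (l 16671208) (l 16681912))) (b (a (b (l 16676240) (l 16681512)) (l 16671784)) (b (l 16691272) (l 16694072)))) (b (b (l 16675224) (l 16665496)) (l 16682680))) (b (l 16668552) (l 16667704))) (a (a (l 16650376) (l 16636696)) (l 16615784))) (a (a (l 16608144) (l 16578664)) (l 16490792))) (a (b (a (a (b (a (b (l 16699488) (l 16694648)) (l 16706808)) (a (b (l 16699000) (l 16696960)) (l 16682320))) (b (l 16663080) (l 16658304))) (a (b (l 16652920) (l 16646416)) (l 16616784))) (a (a (b (a (l 16692824) (l 16697216)) (a (l 16685816) (l 16689344))) (b (l 16671904) (l 16662712))) (a (b (l 16637288) (l 16626296)) (l 16595392)))) (a (b (l 16544584) (a (l 16557760) (l 16519008))) (b (l 16493584) (l 16458672))))), by decide +kernel⟩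

def k3_pp_022 : ∃ t, chk3 f_pp_022 t 16 30 1 = true :=
  ⟨(b (a (b (a (a (l 16698824) (l 16680496)) (l 16652512)) (a (l 16660320) (l 16642280))) (b (a (l 16614264) (l 16574888)) (a (l 16602144) (l 16560832)))) (a (b (a (l 16676432) (l 16635552)) (a (b (l 16676032) (l 16655976)) (b (l 16633720) (b (l 16612632) (a (a (l 16650432) (l 16639744)) (b (a (l 16628416) (l 16617696)) (l 16624712))))))) (b (a (l 16572512) (b (l 16552352) (l 113849673655))) (a (b (a (l 16601176) (b (l 16579552) (a (l 16584272) (a (a (l 16577296) (l 248067496247)) (a (l 704407765511) (l 631930187255)))))) (b (a (b (l 16600584) (a (l 16585320) (b (a (l 16597808) (l 16581960)) (l 16595984)))) (a (b (b (a (l 16586688) (l 16570632)) (a (b (l 16586608) (l 16576232)) (b (a (l 16571992) (a (l 16569976) (l 16579224))) (l 16581664)))) (a (l 16588064) (l 64994537207))) (a (b (b (a (b (l 16576896) (b (b (l 16576848) (a (l 16577528) (c (l 16576920) (a (l 16575736) (c (l 16575440) (l 16574688))))))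 (a (b (l 16574928) (l 16577632)) (l 16576336)))) (a (b (c (l 16575544) (c (l 16574408) (l 16573656))) (c (b (b (a (l 16575864) (c (l 16575568) (l 169147485943))) (l 16575648)) (l 16575864)) (b (b (b (a (l 16574336) (c (a (l 16574192) (l 16573864)) (a (l 16573440) (l 160020677191)))) (a (c (l 16574728) (l 16573968)) (l 16573720))) (l 16574136)) (l 16574360)))) (b (b (l 163778770695) (a (b (l 163778771991) (a (b (l 162705030823) (c (l 16574640) (b (l 109017939735) (l 16573128)))) (l 1))) (l 1))) (l 1)))) (c (l 16569352) (a (l 16576944) (l 16574496)))) (c (l 16579016) (l 16572304))) (l 1)))) (a (a (l 16608800) (l 16599096)) (a (a (l 16586520) (l 16582952)) (l 1))))) (a (a (b (a (l 633003922983) (l 553010144231)) (l 1)) (l 1)) (l 1)))))), by decide +kernel⟩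

def k4_pp_022 : ∃ t, chk3 f_pp_022 t 16 31 1 = true :=
  ⟨(a (b (a (b (b (b (a (l 16689336) (b (l 16667440) (l 16668816))) (a (l 16671072) (l 16672704))) (a (l 16699968) (l 16659624))) (l 6)) (b (a (b (a (b (l 16652840) (l 16658088)) (l 16645760)) (b (l 16658528) (l 16642992))) (b (b (l 16628568) (l 16612800)) (b (a (l 16643976) (l 16634280)) (a (l 16649464) (l 16639792))))) (a (l 6) (a (l 6) (a (l 6) (a (l 6) (a (l 6) (l 1)))))))) (a (l 6) (a (l 6) (l 1)))) (b (a (b (a (b (a (b (l 16613936) (l 16619184)) (b (l 47277849367) (l 16609456))) (a (b (l 16624584) (l 16630120)) (b (l 1) (l 1)))) (b (a (b (l 16591816) (l 1)) (l 1)) (l 1))) (l 1)) (l 1)) (l 1))), by decide +kernel⟩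

def k5_pp_022 : ∃ t, chk3 f_pp_022 t 17 15 1 = true :=
  ⟨(b (b (a (b (l 16492672) (a (l 16518312) (l 1))) (l 1)) (l 1)) (l 1)), by decide +kernel⟩

def k6_pp_022 : ∃ t, chk3 f_pp_022 t 9 3 1 = true :=
  ⟨(b (b (a (b (l 16457888) (l 16543168)) (b (l 16437624) (l 16521992))) (a (b (l 16504104) (a (l 16529976) (l 16476608))) (a (l 16315616) (l 1)))) (b (b (a (a (l 16468064) (l 1)) (l 1)) (l 1)) (l 1))), by decide +kernel⟩

def k7_pp_022 : ∃ t, chk3 f_pp_022 t 5 3 1 = true :=
  ⟨(b (l 1) (l 1)), by decide +kernel⟩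

def k8_pp_022 : ∃ t, chk3 f_pp_022 t 3 1 1 = true :=
  ⟨(l 1), by decide +kernel⟩

theorem s9_pp_022 : ∃ t, chk3 f_pp_022 t 16 15 1 = true := ex3_b k3_pp_022 k4_pp_022

theorem s10_pp_022 : ∃ t, chk3 f_pp_022 t 8 15 1 = true := ex3_a s9_pp_022 k5_pp_022

theorem s11_pp_022 : ∃ t, chk3 f_pp_022 t 8 7 1 = true := ex3_b k2_pp_022 s10_pp_022

theorem s12_pp_022 : ∃ t, chk3 f_pp_022 t 8 3 1 = true := ex3_b k1_pp_022 s11_pp_022

theorem s13_pp_022 : ∃ t, chk3 f_pp_022 t 4 3 1 = true := ex3_a s12_pp_022 k6_pp_022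

theorem s14_pp_022 : ∃ t, chk3 f_pp_022 t 2 3 1 = true := ex3_a s13_pp_022 k7_pp_022

theorem s15_pp_022 : ∃ t, chk3 f_pp_022 t 2 1 1 = true := ex3_b k0_pp_022 s14_pp_022

theorem s16_pp_022 : ∃ t, chk3 f_pp_022 t 1 1 1 = true := ex3_a s15_pp_022 k8_pp_022

theorem c_pp_022 : CertB 0 536870912 0 536870912 1040187392 5207648 3 eng mog cd1q0 cd0q2 pd2 false true true .pp 0 2 2
    ndB1q0 ndB0q2 pcB2 cut_pp_022 Ext.none :=
  certB2 (fam := false) (s1 := true) (s2 := true) (a := 0) (b := 2) (c := 2) (cn := .pp) (n1 := ndB1q0) (n2 := ndB0q2) (pc := pcB2) (cut := cut_pp_022) (xt := Ext.none) (P1 := 0) (W1 := 536870912) (P2 := 0) (W2 := 536870912) (P3 := 1040187392) (W3 := 5207648) (N0 := 3) (En := eng) (mo := mog) (C1 := cd1q0) (C2 := cd0q2) (C3 := pd2)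
    rfl (fun _ => rfl) s16_pp_022

noncomputable def f_pp_101 : ℕ → ℕ → ℕ → ℕ → Bool := onCell 536870912 536870912 536870912 536870912 1040187392 5207648
    (rowB 3 eng mog cd1q1 cd0q1 pd0 0 false true true .npn 1 0 1 (qsf 536870912 536870912 536870912 536870912 0) ndB1q1 ndB0q1 pcB0 Cut.none Ext.none)

def k0_pp_101 : ∃ t, chk3 f_pp_101 t 1 1 1 = true :=
  ⟨(l 3), by decide +kernel⟩

theorem c_pp_101 : CertB 536870912 536870912 536870912 536870912 1040187392 5207648 3 eng mog cd1q1 cd0q1 pd0 false true true .npn 1 0 1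
    ndB1q1 ndB0q1 pcB0 Cut.none Ext.none :=
  certB0 (fam := false) (s1 := true) (s2 := true) (a := 1) (b := 0) (c := 1) (cn := .npn) (n1 := ndB1q1) (n2 := ndB0q1) (pc := pcB0) (cut := Cut.none) (xt := Ext.none) (P1 := 536870912) (W1 := 536870912) (P2 := 536870912) (W2 := 536870912) (P3 := 1040187392) (W3 := 5207648) (N0 := 3) (En := eng) (mo := mog) (C1 := cd1q1) (C2 := cd0q1) (C3 := pd0)
    rfl k0_pp_101

noncomputable def f_pp_102 : ℕ → ℕ → ℕ → ℕ → Bool := onCell 0 536870912 0 536870912 1040187392 5207648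
    (rowB 3 eng mog cd1q1 cd0q2 pd0 2 false true true .npp 1 0 2 (qsf 536870912 536870912 0 536870912 0) ndB1q1 ndB0q2 pcB0 Cut.none Ext.none)

def k0_pp_102 : ∃ t, chk3 f_pp_102 t 1 1 1 = true :=
  ⟨(b (a (a (l 3) (l 3)) (a (l 3) (b (a (b (a (l 166060106903) (b (a (l 16407384) (l 16423440)) (l 3))) (l 3)) (b (a (b (l 16466496) (a (l 16351936) (l 109688448983))) (b (l 16508736) (l 102709133447))) (a (l 3) (b (a (l 16301088) (l 97340329159)) (l 3))))) (l 3)))) (l 3)), by decide +kernel⟩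

theorem c_pp_102 : CertB 536870912 536870912 0 536870912 1040187392 5207648 3 eng mog cd1q1 cd0q2 pd0 false true true .npp 1 0 2
    ndB1q1 ndB0q2 pcB0 Cut.none Ext.none :=
  certB2 (fam := false) (s1 := true) (s2 := true) (a := 1) (b := 0) (c := 2) (cn := .npp) (n1 := ndB1q1) (n2 := ndB0q2) (pc := pcB0) (cut := Cut.none) (xt := Ext.none) (P1 := 536870912) (W1 := 536870912) (P2 := 0) (W2 := 536870912) (P3 := 1040187392) (W3 := 5207648) (N0 := 3) (En := eng) (mo := mog) (C1 := cd1q1) (C2 := cd0q2) (C3 := pd0)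
    rfl (fun _ => rfl) k0_pp_102

noncomputable def f_pp_112 : ℕ → ℕ → ℕ → ℕ → Bool := onCell 536870912 536870912 0 536870912 1040187392 5207648
    (rowB 3 eng mog cd1q1 cd0q2 pd1 2 false true true .dn 1 1 2 (qsf 536870912 536870912 0 536870912 1) ndB1q1 ndB0q2 pcB1 Cut.none Ext.none)

def k0_pp_112 : ∃ t, chk3 f_pp_112 t 1 1 1 = true :=
  ⟨(a (b (a (b (a (b (a (b (l 16011768) (l 16104264)) (l 15983968)) (a (b (a (b (l 16233600) (l 76402340583)) (l 16206224)) (a (l 16253552) (b (b (l 16263984) (l 16250480)) (l 3)))) (b (l 16137160) (a (b (l 16230704) (a (l 16240352) (l 98414051783))) (b (l 16187008) (l 112909472343)))))) (b (a (b (l 15893448) (l 15979640)) (b (l 15849696) (l 15899192))) (a (b (l 16069968) (a (l 16170832) (l 16140056))) (l 16178824)))) (b (a (a (l 3) (b (a (l 3) (b (b (l 84992272535) (l 3)) (l 3))) (l 3))) (a (b (a (b (b (l 16222416) (l 94119042855)) (l 60296183575)) (b (l 16197960) (b (l 16224632) (l 78549846839)))) (a (l 3) (l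 45800594087))) (b (a (l 16188272) (l 16153008)) (a (b (a (l 84455421543) (l 98950937527)) (l 3)) (b (l 16213968) (a (l 63517395015) (l 91971617447))))))) (l 3))) (a (a (b (b (b (l 15864448) (l 15856472)) (l 15953024)) (b (b (l 16104288) (a (b (l 16184056) (l 100561555927)) (l 16177040))) (b (a (b (a (l 16205288) (l 78549787559)) (l 3)) (l 1)) (l 3)))) (b (b (l 1) (l 1)) (l 1))) (l 1))) (b (a (l 3) (l 1)) (l 3))) (l 1)), by decide +kernel⟩

theorem c_pp_112 : CertB 536870912 536870912 0 536870912 1040187392 5207648 3 eng mog cd1q1 cd0q2 pd1 false true true .dn 1 1 2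
    ndB1q1 ndB0q2 pcB1 Cut.none Ext.none :=
  certB2 (fam := false) (s1 := true) (s2 := true) (a := 1) (b := 1) (c := 2) (cn := .dn) (n1 := ndB1q1) (n2 := ndB0q2) (pc := pcB1) (cut := Cut.none) (xt := Ext.none) (P1 := 536870912) (W1 := 536870912) (P2 := 0) (W2 := 536870912) (P3 := 1040187392) (W3 := 5207648) (N0 := 3) (En := eng) (mo := mog) (C1 := cd1q1) (C2 := cd0q2) (C3 := pd1)
    rfl (fun _ => rfl) k0_pp_112

noncomputable def f_pp_202_a : ℕ → ℕ → ℕ → ℕ → Bool := onCell 0 536870912 0 536870912 1040187392 5207648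
    (rowB 3 eng mog cd1q2a cd0q2 pd0 0 false true true .pp 2 0 2 (qsf 0 536870912 0 536870912 0) ndB1q2a ndB0q2 pcB0 Cut.none Ext.none)

def k0_pp_202_a : ∃ t, chk3 f_pp_202_a t 1 1 1 = true :=
  ⟨(l 3), by decide +kernel⟩

theorem c_pp_202_a : CertB 0 536870912 0 536870912 1040187392 5207648 3 eng mog cd1q2a cd0q2 pd0 false true true .pp 2 0 2
    ndB1q2a ndB0q2 pcB0 Cut.none Ext.none :=
  certB0 (fam := false) (s1 := true) (s2 := true) (a := 2) (b := 0) (c := 2) (cn := .pp) (n1 := ndB1q2a) (n2 := ndB0q2) (pc := pcB0) (cut := Cut.none) (xt := Ext.none) (P1 := 0) (W1 := 536870912) (P2 := 0) (W2 := 536870912) (P3 := 1040187392) (W3 := 5207648) (N0 := 3) (En := eng) (mo := mog) (C1 := cd1q2a) (C2 := cd0q2) (C3 := pd0)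
    rfl k0_pp_202_a

noncomputable def f_pp_202_b : ℕ → ℕ → ℕ → ℕ → Bool := onCell 1239849684 370763052 0 536870912 1040187392 5207648
    (rowB 3 eng mog cd1q2b cd0q2 pd0 0 false true true .pp 2 0 2 (qsf 1239849684 370763052 0 536870912 0) ndB1q2b ndB0q2 pcB0 Cut.none Ext.none)

def k0_pp_202_b : ∃ t, chk3 f_pp_202_b t 1 1 1 = true :=
  ⟨(l 3), by decide +kernel⟩

theorem c_pp_202_b : CertB 1239849684 370763052 0 536870912 1040187392 5207648 3 eng mog cd1q2b cd0q2 pd0 false true true .pp 2 0 2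
    ndB1q2b ndB0q2 pcB0 Cut.none Ext.none :=
  certB0 (fam := false) (s1 := true) (s2 := true) (a := 2) (b := 0) (c := 2) (cn := .pp) (n1 := ndB1q2b) (n2 := ndB0q2) (pc := pcB0) (cut := Cut.none) (xt := Ext.none) (P1 := 1239849684) (W1 := 370763052) (P2 := 0) (W2 := 536870912) (P3 := 1040187392) (W3 := 5207648) (N0 := 3) (En := eng) (mo := mog) (C1 := cd1q2b) (C2 := cd0q2) (C3 := pd0)
    rfl k0_pp_202_b

noncomputable def f_pm_001 : ℕ → ℕ → ℕ → ℕ → Bool := onCell 0 536870912 536870912 536870912 1040187392 5207648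
    (rowB 3 eng mog cd1q0 cd0q1 pd0 0 false true false .up 0 0 1 (qsf 0 536870912 536870912 536870912 0) ndB1q0 ndB0q1 pcB0 Cut.none Ext.none)

def k0_pm_001 : ∃ t, chk3 f_pm_001 t 1 1 1 = true :=
  ⟨(b (l 4) (b (a (l 4) (a (l 4) (b (l 4) (b (l 4) (a (a (l 4) (b (l 4) (l 16145072))) (a (b (l 4) (l 16109552)) (l 15988824))))))) (a (l 2) (b (a (b (b (l 4) (l 2)) (l 2)) (a (b (a (b (l 51236145559) (a (l 16170208) (l 16166448))) (b (l 16133712) (l 16166624))) (a (b (l 16240320) (l 2)) (b (l 16233608) (l 16325080)))) (b (a (l 16136440) (l 16122136)) (a (l 16080512) (l 16212960))))) (a (l 2) (b (a (b (a (l 2) (l 16316816)) (l 2)) (b (a (l 16295888) (b (l 16304176) (l 16271240))) (b (a (a (l 16221640) (l 16253304)) (l 16254568)) (a (l 16304224) (l 16097640))))) (a (l 2) (b (a (l 1052902720551) (l 15732096)) (a (l 2) (l 15249448)))))))))), by decide +kernel⟩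

theorem c_pm_001 : CertB 0 536870912 536870912 536870912 1040187392 5207648 3 eng mog cd1q0 cd0q1 pd0 false true false .up 0 0 1
    ndB1q0 ndB0q1 pcB0 Cut.none Ext.none :=
  certB0 (fam := false) (s1 := true) (s2 := false) (a := 0) (b := 0) (c := 1) (cn := .up) (n1 := ndB1q0) (n2 := ndB0q1) (pc := pcB0) (cut := Cut.none) (xt := Ext.none) (P1 := 0) (W1 := 536870912) (P2 := 536870912) (W2 := 536870912) (P3 := 1040187392) (W3 := 5207648) (N0 := 3) (En := eng) (mo := mog) (C1 := cd1q0) (C2 := cd0q1) (C3 := pd0)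
    rfl k0_pm_001

noncomputable def cut_pm_011 : Cut := Cut.of [[⟨0, 0, 0, 26843545⟩, ⟨1, 1, 0, 26843545⟩, ⟨2, 1, 0, 26843545⟩]]

noncomputable def f_pm_011 : ℕ → ℕ → ℕ → ℕ → Bool := onCell 0 536870912 536870912 536870912 1040187392 5207648
    (rowB 3 eng mog cd1q0 cd0q1 pd1 0 false true false .pnn 0 1 1 (qsf 0 536870912 536870912 536870912 1) ndB1q0 ndB0q1 pcB1 cut_pm_011 Ext.none)

def k0_pm_011 : ∃ t, chk3 f_pm_011 t 1 2 1 = true :=
  ⟨(l 4), by decide +kernel⟩

def k1_pm_011 : ∃ t, chk3 f_pm_011 t 2 3 1 = true :=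
  ⟨(b (l 4) (a (b (l 4) (b (l 4) (b (a (l 4) (b (a (l 4) (l 4)) (a (a (l 4) (a (l 4) (l 408256445223))) (a (a (l 16610368) (l 16604416)) (b (l 16563592) (l 16574256)))))) (b (a (a (l 4) (a (l 4) (b (l 4) (l 71638612263)))) (a (a (a (l 16722120) (l 16704304)) (a (l 16684200) (l 16662208))) (a (b (l 16626288) (l 16634168)) (l 16595456)))) (a (a (a (l 6) (b (a (l 4) (b (l 4) (l 16755376))) (a (a (l 6) (l 16742256)) (b (l 16727504) (l 16741632))))) (b (a (a (b (l 4) (l 16746992)) (l 16741488)) (l 16724672)) (a (a (l 16735136) (l 16723144)) (b (l 16711448) (l 16679632))))) (a (b (a (l 16697352) (l 16667072)) (a (l 16679304) (l 16632296))) (a (l 16566368) (l 16581472)))))))) (b (l 4) (a (b (a (l 4) (b (l 4) (b (l 105997620151) (a (l 16455528) (l 16429392))))) (a (b (b (a (l 16495808) (l 16483208)) (a (l 16534056) (l 16510728))) (b (l 16494264) (b (l 16573632) (l 16552312)))) (b (a (b (l 16462048) (l 16494832)) (l 16465248)) (b (l 16501744) (l 16485088)))))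 (b (b (a (a (l 4) (l 16400712)) (a (l 16368368) (l 16342200))) (a (b (l 16324336) (l 16406152)) (l 16373280))) (b (a (l 16426440) (l 16426544)) (a (b (l 16488272) (l 16445784)) (l 16306248)))))))), by decide +kernel⟩

def k2_pm_011 : ∃ t, chk3 f_pm_011 t 3 3 1 = true :=
  ⟨(b (a (l 4) (a (a (l 4) (l 1)) (l 1))) (b (a (b (a (l 4) (a (l 4) (b (l 4) (l 16192392)))) (b (a (l 4) (a (l 16225136) (l 16192968))) (a (a (b (l 4) (l 16307024)) (l 16225088)) (a (l 16239632) (l 16226568))))) (b (a (a (l 40498763527) (l 16138424)) (l 1)) (a (b (l 16175096) (l 16210344)) (l 230349848647)))) (a (b (a (b (a (l 16233328) (l 16295800)) (a (l 16354592) (l 16338816))) (b (l 16274464) (a (l 16325392) (l 16313648)))) (a (a (b (l 16383048) (l 16354032)) (b (l 16375856) (l 16295632))) (b (a (l 16340488) (l 16297584)) (l 16209096)))) (b (a (b (l 16251680) (a (l 16297656) (l 16272056))) (b (l 16228104) (l 16211160))) (b (a (l 16218968) (l 16122688)) (a (l 16104072) (l 16012768))))))),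 by decide +kernel⟩

theorem s3_pm_011 : ∃ t, chk3 f_pm_011 t 1 3 1 = true := ex3_a k1_pm_011 k2_pm_011

theorem s4_pm_011 : ∃ t, chk3 f_pm_011 t 1 1 1 = true := ex3_b k0_pm_011 s3_pm_011

theorem c_pm_011 : CertB 0 536870912 536870912 536870912 1040187392 5207648 3 eng mog cd1q0 cd0q1 pd1 false true false .pnn 0 1 1
    ndB1q0 ndB0q1 pcB1 cut_pm_011 Ext.none :=
  certB0 (fam := false) (s1 := true) (s2 := false) (a := 0) (b := 1) (c := 1) (cn := .pnn) (n1 := ndB1q0) (n2 := ndB0q1) (pc := pcB1) (cut := cut_pm_011) (xt := Ext.none) (P1 := 0) (W1 := 536870912) (P2 := 536870912) (W2 := 536870912) (P3 := 1040187392) (W3 := 5207648) (N0 := 3) (En := eng) (mo := mog) (C1 := cd1q0) (C2 := cd0q1) (C3 := pd1)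
    rfl s4_pm_011

noncomputable def cut_pm_012 : Cut := Cut.of [[⟨0, 0, 0, 26843545⟩, ⟨1, 1, 0, 26843545⟩, ⟨2, 1, 0, 26843545⟩]]

noncomputable def xt_pm_012 : Ext := extD3 3 ⟨4, 1, 1, 5, 33, 5, 163, 200, 81, 200, 1, 64⟩ eng cd1q0 cd0q2 pd1 false true false .pnp 0 1 2 rfl ndB1q0 ndB0q2 pcB1

noncomputable def f_pm_012 : ℕ → ℕ → ℕ → ℕ → Bool := onCell 536870912 536870912 0 536870912 1040187392 5207648
    (rowB 3 eng mog cd1q0 cd0q2 pd1 2 false true false .pnp 0 1 2 (qsf 0 536870912 0 536870912 1) ndB1q0 ndB0q2 pcB1 cut_pm_012 xt_pm_012)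

def k0_pm_012 : ∃ t, chk3 f_pm_012 t 2 1 1 = true :=
  ⟨(b (a (b (l 2) (b (l 2) (a (l 2) (b (l 2) (l 15562544))))) (b (a (b (a (l 16607280) (l 16496160)) (l 16211880)) (a (l 16292624) (l 16258464))) (a (b (l 15924728) (b (l 15720656) (l 15654240))) (b (a (l 15951520) (l 15993680)) (l 15828672))))) (b (a (a (l 2) (l 15481408)) (a (l 15477480) (b (l 15716384) (l 15645112)))) (b (a (b (a (l 15419648) (l 15443320)) (a (l 15509664) (l 15513024))) (b (a (l 15507432) (l 15617072)) (a (b (l 15518224) (l 15586016)) (b (l 15613536) (l 15649104))))) (a (b (a (l 15679712) (l 15710920)) (a (l 15859488) (l 15927096))) (b (a (l 15758640) (b (l 15755776) (l 15888832))) (a (l 16009664) (l 15895560))))))), by decide +kernel⟩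

def k1_pm_012 : ∃ t, chk3 f_pm_012 t 3 2 1 = true :=
  ⟨(a (b (a (l 16045832) (l 16280352)) (a (b (a (l 16064040) (l 16157896)) (l 15996920)) (b (a (l 16271048) (l 16357232)) (l 16207544)))) (a (b (a (l 16478496) (l 16588592)) (b (b (l 16434088) (l 16561096)) (l 16363656))) (b (a (l 16289240) (b (l 16376376) (l 16211184))) (a (b (l 16361384) (l 16473824)) (b (l 16238024) (l 16360888)))))), by decide +kernel⟩

def k2_pm_012 : ∃ t, chk3 f_pm_012 t 3 6 1 = true :=
  ⟨(a (a (b (l 15879096) (l 15799016)) (b (l 16077920) (l 15991904))) (a (b (a (l 16248640) (l 16372296)) (a (l 16160416) (l 16284184))) (b (a (l 16502912) (l 16435432)) (a (b (l 16429800) (l 16401936)) (b (l 16562776) (l 16500864)))))), by decide +kernel⟩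

def k3_pm_012 : ∃ t, chk3 f_pm_012 t 3 7 1 = true :=
  ⟨(a (b (a (b (l 15768216) (a (l 15730496) (l 15808216))) (b (l 15960552) (l 15958040))) (b (a (b (a (l 15806296) (l 15853120)) (l 15970992)) (b (a (l 15924424) (l 16019576)) (a (l 16038840) (a (l 16073360) (l 16102592))))) (a (a (l 16184584) (l 16155456)) (a (b (l 16207936) (l 16382760)) (b (l 16260808) (l 16442312)))))) (b (a (b (a (l 16130680) (l 16256560)) (a (l 16130440) (l 16258672))) (a (b (l 16391808) (b (l 16395584) (l 16398968))) (b (a (l 16498872) (l 16573056)) (a (b (l 16504864) (l 16509568)) (b (l 16559744) (l 16565496)))))) (a (b (b (a (l 16132664) (l 16262384)) (a (a (l 16120784) (l 16106512)) (a (l 16248208) (l 16311728)))) (a (b (l 16208472) (l 16375104)) (b (a (b (l 16305632) (l 16399920)) (b (a (l 16333216) (l 16359960)) (l 16425472))) (b (a (l 16496064) (l 16522880)) (l 16500648))))) (b (a (b (a (l 16366432) (l 16439192)) (a (l 16382944) (l 16456872))) (b (a (l 16514536)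 (a (l 16572616) (l 16591216))) (a (l 16512528) (a (l 16592616) (b (l 16625112) (l 16641640)))))) (a (b (a (b (l 16412024) (a (l 16444928) (l 16402688))) (b (l 16483784) (a (b (l 16481136) (l 16501328)) (l 16528200)))) (a (b (l 16548672) (l 16583592)) (b (a (l 16567320) (l 141833048211177535)) (b (l 16605496) (b (l 16684424) (l 16688408)))))) (b (a (a (l 16553880) (l 16551928)) (a (b (l 16622080) (l 16646720)) (b (a (l 16652808) (l 6)) (l 6)))) (a (b (a (b (l 142257872029548607) (l 142389469887529023)) (b (l 16624824) (a (l 142794571235836031) (l 16628696)))) (b (a (l 16665376) (l 142736778202628223)) (b (l 142932491337171007) (a (l 16706520) (l 6))))) (a (b (a (l 16662384) (l 6)) (l 6)) (l 6))))))))), by decide +kernel⟩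

theorem s4_pm_012 : ∃ t, chk3 f_pm_012 t 3 3 1 = true := ex3_b k2_pm_012 k3_pm_012

theorem s5_pm_012 : ∃ t, chk3 f_pm_012 t 3 1 1 = true := ex3_b k1_pm_012 s4_pm_012

theorem s6_pm_012 : ∃ t, chk3 f_pm_012 t 1 1 1 = true := ex3_a k0_pm_012 s5_pm_012

theorem c_pm_012 : CertB 0 536870912 0 536870912 1040187392 5207648 3 eng mog cd1q0 cd0q2 pd1 false true false .pnp 0 1 2
    ndB1q0 ndB0q2 pcB1 cut_pm_012 xt_pm_012 :=
  certB2 (fam := false) (s1 := true) (s2 := false) (a := 0) (b := 1) (c := 2) (cn := .pnp) (n1 := ndB1q0) (n2 := ndB0q2) (pc := pcB1) (cut := cut_pm_012) (xt := xt_pm_012) (P1 := 0) (W1 := 536870912) (P2 := 0) (W2 := 536870912) (P3 := 1040187392) (W3 := 5207648) (N0 := 3) (En := eng) (mo := mog) (C1 := cd1q0) (C2 := cd0q2) (C3 := pd1)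
    rfl (fun _ => rfl) s6_pm_012

noncomputable def cut_pm_022 : Cut := Cut.of [[⟨0, 0, 0, 26843545⟩, ⟨1, 1, 0, 26843545⟩, ⟨2, 1, 0, 26843545⟩]]

noncomputable def f_pm_022 : ℕ → ℕ → ℕ → ℕ → Bool := onCell 0 536870912 0 536870912 1040187392 5207648
    (rowB 3 eng mog cd1q0 cd0q2 pd2 0 false true false .pp 0 2 2 (qsf 0 536870912 0 536870912 2) ndB1q0 ndB0q2 pcB2 cut_pm_022 Ext.none)

def k0_pm_022 : ∃ t, chk3 f_pm_022 t 2 2 1 = true :=
  ⟨(a (b (a (a (b (l 15509456) (l 15417504)) (b (l 15690336) (l 15634280))) (a (b (l 15890576) (l 15872960)) (l 15933576))) (a (b (a (b (b (l 15394552) (a (l 15370248) (l 15478488))) (a (l 15517704) (l 15610680))) (b (l 15648184) (l 15763960))) (a (b (a (l 15714232) (l 15790648)) (a (l 15906984) (l 15966376))) (b (l 15893736) (l 16039728)))) (b (a (b (l 15911544) (l 15997000)) (b (l 16202264) (a (l 16197288) (l 16347352)))) (a (b (l 16103016) (l 16202224)) (b (l 16286504) (l 16379936)))))) (a (a (b (l 16147832) (b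 (b (l 16514872) (l 16408640)) (l 16445664))) (b (l 16350552) (l 1))) (l 1))), by decide +kernel⟩

def k1_pm_022 : ∃ t, chk3 f_pm_022 t 2 6 1 = true :=
  ⟨(a (a (b (a (a (b (l 16030536) (b (l 16225520) (l 16308968))) (b (l 16133320) (l 16287040))) (b (l 16090136) (a (l 16303888) (l 16321880)))) (a (b (a (b (l 16388312) (l 16461072)) (l 16398480)) (a (b (l 16527016) (l 16564368)) (b (l 16501464) (l 16546880)))) (b (a (l 16410920) (l 16406656)) (a (l 16430256) (l 16467096))))) (b (a (b (l 16268712) (l 16319656)) (b (l 16421664) (l 16449632))) (a (b (l 16371808) (a (l 16449064) (l 16441416))) (b (l 16439192) (l 1))))) (l 1)), by decide +kernel⟩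

def k2_pm_022 : ∃ t, chk3 f_pm_022 t 4 14 1 = true :=
  ⟨(a (a (b (a (a (b (l 16623224) (l 16589760)) (b (l 16622720) (l 16634296))) (b (l 16583832) (l 16591792))) (a (b (a (b (l 16587632) (a (l 16604584) (l 16619928))) (b (l 16636304) (l 16621504))) (a (b (a (b (l 16610432) (l 16615912)) (l 16629704)) (a (b (a (l 16618072) (l 16626936)) (a (b (l 16623600) (l 16627568)) (l 16634680))) (l 16622944))) (b (l 16632728) (l 16648312)))) (b (a (l 16650664) (l 16614712)) (a (l 16636384) (l 16596064))))) (b (a (b (l 16535408) (l 16554008)) (b (l 16493992) (l 16503512))) (b (a (l 16543488) (l 16504744)) (a (a (l 16578568) (l 16542080)) (l 16491240))))) (b (a (a (l 16463192) (l 1)) (l 1)) (l 1))), by decide +kernel⟩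

def k3_pm_022 : ∃ t, chk3 f_pm_022 t 4 15 1 = true :=
  ⟨(a (b (a (a (b (a (a (b (a (a (b (b (l 16629416) (a (l 16632096) (l 16634968))) (b (a (b (l 16635968) (a (l 16637672) (l 16638880))) (l 16639520)) (a (b (b (l 16640032) (l 16641208)) (b (l 16642400) (l 16643600))) (l 16644240)))) (b (l 16636296) (b (l 16643112) (l 16647864)))) (b (l 16643288) (l 16652608))) (a (b (a (a (c (b (b (l 16642904) (l 16645352)) (b (l 16650456) (l 16652960))) (b (b (l 16644008) (l 16645152)) (b (l 16645024) (l 16647536)))) (b (l 16649096) (l 16654096))) (b (l 16652760) (l 16657792))) (a (b (a (b (l 16650096) (l 16657760)) (l 16659056)) (b (l 16661384) (l 16663712))) (l 16665216))) (b (l 16641608) (l 16672632)))) (b (b (l 16656984) (l 16666592)) (b (l 16655864) (l 16666192)))) (b (l 16646240) (a (l 16679592) (l 16682536)))) (b (a (a (b (a (a (b (a (l 16665840) (l 16668384)) (l 16666272)) (l 16674432)) (l 16681984)) (a (a (b (l 16675768) (l 16679904)) (l 16683032))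 (l 16690720))) (l 16680392)) (l 16660800)) (l 6))) (b (b (a (l 16631872) (l 16609176)) (a (l 16646976) (l 16601112))) (a (b (l 16642472) (l 6)) (b (l 16594424) (l 16590336))))) (a (b (b (l 16547160) (l 16535792)) (l 1)) (l 1))) (a (a (l 6) (a (l 6) (l 1))) (l 1))) (l 1)), by decide +kernel⟩

def k4_pm_022 : ∃ t, chk3 f_pm_022 t 5 7 1 = true :=
  ⟨(l 1), by decide +kernel⟩

def k5_pm_022 : ∃ t, chk3 f_pm_022 t 3 1 1 = true :=
  ⟨(l 1), by decide +kernel⟩

theorem s6_pm_022 : ∃ t, chk3 f_pm_022 t 4 7 1 = true := ex3_b k2_pm_022 k3_pm_022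

theorem s7_pm_022 : ∃ t, chk3 f_pm_022 t 2 7 1 = true := ex3_a s6_pm_022 k4_pm_022

theorem s8_pm_022 : ∃ t, chk3 f_pm_022 t 2 3 1 = true := ex3_b k1_pm_022 s7_pm_022

theorem s9_pm_022 : ∃ t, chk3 f_pm_022 t 2 1 1 = true := ex3_b k0_pm_022 s8_pm_022

theorem s10_pm_022 : ∃ t, chk3 f_pm_022 t 1 1 1 = true := ex3_a s9_pm_022 k5_pm_022

theorem c_pm_022 : CertB 0 536870912 0 536870912 1040187392 5207648 3 eng mog cd1q0 cd0q2 pd2 false true false .pp 0 2 2
    ndB1q0 ndB0q2 pcB2 cut_pm_022 Ext.none :=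
  certB0 (fam := false) (s1 := true) (s2 := false) (a := 0) (b := 2) (c := 2) (cn := .pp) (n1 := ndB1q0) (n2 := ndB0q2) (pc := pcB2) (cut := cut_pm_022) (xt := Ext.none) (P1 := 0) (W1 := 536870912) (P2 := 0) (W2 := 536870912) (P3 := 1040187392) (W3 := 5207648) (N0 := 3) (En := eng) (mo := mog) (C1 := cd1q0) (C2 := cd0q2) (C3 := pd2)
    rfl s10_pm_022

noncomputable def f_pm_101 : ℕ → ℕ → ℕ → ℕ → Bool := onCell 0 536870912 536870912 536870912 1040187392 5207648
    (rowB 3 eng mog cd1q1 cd0q1 pd0 2 false true false .npn 1 0 1 (qsf 536870912 536870912 536870912 536870912 0) ndB1q1 ndB0q1 pcB0 Cut.none Ext.none)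

def k0_pm_101 : ∃ t, chk3 f_pm_101 t 2 1 1 = true :=
  ⟨(b (b (l 4) (a (b (l 4) (b (l 4) (a (a (l 16431976) (l 16546768)) (l 82375566087)))) (l 4))) (a (b (a (b (a (l 16047952) (l 16216120)) (a (l 15488960) (l 15783792))) (b (a (l 16273920) (l 16418096)) (b (l 16100528) (l 15927312)))) (a (b (a (a (b (l 15364888) (l 15361472)) (b (l 15391040) (l 15285360))) (b (a (l 15472696) (l 15570064)) (a (l 15339672) (l 15439056)))) (a (a (b (l 15538920) (b (l 15547256) (l 15529048))) (b (b (l 15319016) (l 15415800)) (b (l 15535656) (a (l 15503520) (l 15522224))))) (b (a (b (l 15327288) (l 15377704)) (l 15437216)) (a (b (l 15458480) (l 15564104)) (l 15565232))))) (b (b (a (l 15706384) (l 15846248)) (a (l 15594128) (l 15764704))) (b (b (l 15676704) (l 15671608)) (a (l 15492808) (l 15560456)))))) (b (b (a (b (l 88818071687) (l 16308952)) (b (l 4) (l 84522745159))) (a (b (l 16252104) (l 16098888)) (b (l 16311208) (l 16158784)))) (b (a (b (l 15969320) (a (l 15880448)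 (l 15944656))) (b (l 16019688) (b (a (l 15954240) (l 15942040)) (l 15989280)))) (b (a (b (l 15893592) (l 15775240)) (b (l 16061872) (l 15920856))) (a (b (l 15636424) (l 15474864)) (b (l 15714992) (l 15483256)))))))), by decide +kernel⟩

def k1_pm_101 : ∃ t, chk3 f_pm_101 t 3 1 1 = true :=
  ⟨(b (l 4) (b (a (b (l 4) (a (b (a (l 16331888) (l 16343240)) (l 16178848)) (b (a (l 16356352) (l 4)) (a (l 16200808) (l 16225600))))) (a (b (l 1) (b (l 1) (a (l 16153896) (l 1)))) (l 1))) (b (a (b (a (l 16016400) (l 16013872)) (a (b (a (l 15919048) (l 15893664)) (a (l 15932992) (l 15873024))) (b (l 15866712) (a (l 15816112) (l 15769280))))) (a (b (a (l 16039840) (l 16081200)) (b (l 15863376) (l 15730872))) (b (l 1) (a (l 15816544) (l 1))))) (a (b (a (b (l 16028608) (l 16016136)) (b (a (l 15929592) (l 15832376)) (a (l 16127736) (l 16065136)))) (a (a (l 15440504) (b (l 15897792) (l 15579832))) (b (a (l 15995720) (l 16106656)) (a (l 15644280) (l 15722944))))) (b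 (a (b (a (b (l 15688904) (l 15781504)) (b (l 15636288) (l 15659488))) (a (l 15982752) (l 15882400))) (b (a (b (l 15619744) (l 15453584)) (l 1)) (a (l 15765864) (b (l 1) (l 15726240))))) (a (b (a (l 16228944) (l 16179816)) (a (l 15815200) (l 15920288))) (b (a (l 16098600) (l 16003368)) (a (l 15995312) (l 16081048))))))))), by decide +kernel⟩

theorem s2_pm_101 : ∃ t, chk3 f_pm_101 t 1 1 1 = true := ex3_a k0_pm_101 k1_pm_101

theorem c_pm_101 : CertB 536870912 536870912 536870912 536870912 1040187392 5207648 3 eng mog cd1q1 cd0q1 pd0 false true false .npn 1 0 1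
    ndB1q1 ndB0q1 pcB0 Cut.none Ext.none :=
  certB2 (fam := false) (s1 := true) (s2 := false) (a := 1) (b := 0) (c := 1) (cn := .npn) (n1 := ndB1q1) (n2 := ndB0q1) (pc := pcB0) (cut := Cut.none) (xt := Ext.none) (P1 := 536870912) (W1 := 536870912) (P2 := 536870912) (W2 := 536870912) (P3 := 1040187392) (W3 := 5207648) (N0 := 3) (En := eng) (mo := mog) (C1 := cd1q1) (C2 := cd0q1) (C3 := pd0)
    rfl (fun _ => rfl) s2_pm_101

noncomputable def xt_pm_102 : Ext := extD3 3 ⟨4, 1, 1, 5, 33, 5, 163, 200, 81, 200, 1, 64⟩ eng cd1q1 cd0q2 pd0 false true false .npp 1 0 2 rfl ndB1q1 ndB0q2 pcB0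

noncomputable def f_pm_102 : ℕ → ℕ → ℕ → ℕ → Bool := onCell 536870912 536870912 0 536870912 1040187392 5207648
    (rowB 3 eng mog cd1q1 cd0q2 pd0 0 false true false .npp 1 0 2 (qsf 536870912 536870912 0 536870912 0) ndB1q1 ndB0q2 pcB0 Cut.none xt_pm_102)

def k0_pm_102 : ∃ t, chk3 f_pm_102 t 2 2 1 = true :=
  ⟨(b (a (l 2) (a (b (a (b (l 16437504) (l 16434832)) (b (l 16518984) (l 16517728))) (a (l 16456184) (l 16519288))) (b (a (l 16590288) (l 16471976)) (a (b (l 16602944) (l 16598360)) (b (l 16714040) (l 16661864)))))) (a (b (l 2) (a (l 2) (b (l 2) (b (a (l 2) (l 16085008)) (l 15861816))))) (b (a (a (l 16403248) (l 16397296)) (a (l 16399608) (l 16409848))) (a (b (l 16177176) (a (b (l 16071224) (l 15948904)) (l 15799056))) (a (b (l 16164912) (l 15992240)) (l 16089360)))))), by decide +kernel⟩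

def k1_pm_102 : ∃ t, chk3 f_pm_102 t 2 6 1 = true :=
  ⟨(a (a (l 2) (a (b (l 2) (b (l 14592640) (l 14094464))) (b (b (l 15556384) (l 15070384)) (b (l 14573376) (l 14065568))))) (b (a (b (a (l 15581608) (l 15623576)) (a (l 15083304) (l 15115648))) (b (b (a (l 15816984) (l 15773152)) (l 15378808)) (a (l 15166952) (l 15236656)))) (a (b (a (l 14576472) (l 14601832)) (a (l 14061824) (b (l 14213952) (l 13953920)))) (b (a (l 14649256) (l 14655576)) (a (b (l 14260712) (l 14001448)) (b (l 14332032) (l 14075496))))))), by decide +kernel⟩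

def k2_pm_102 : ∃ t, chk3 f_pm_102 t 2 7 1 = true :=
  ⟨(b (a (a (a (l 2) (b (b (l 2) (b (l 13585592) (b (a (l 2) (l 13524376)) (l 13600520)))) (b (l 13850408) (l 14238464)))) (b (b (a (l 13712664) (l 13678704)) (b (a (b (l 13551560) (a (l 13510760) (l 13511408))) (b (a (l 13525344) (l 13530344)) (a (l 13535776) (l 13580216)))) (a (l 13613328) (l 13688808)))) (a (b (l 13892752) (l 14254512)) (b (l 13948232) (l 14283600))))) (b (a (b (a (a (l 13671264) (l 13657688)) (a (l 13673464) (b (l 13768376) (b (l 13671144) (l 13659768))))) (a (a (l 13674760) (l 13723552)) (l 13808240))) (b (a (b (l 13807672) (b (a (l 13702312) (l 13751984)) (l 13741312))) (b (a (l 13863080) (b (l 13939848) (l 13881496))) (a (l 13848896) (l 13928480)))) (a (l 13932752) (l 14071656)))) (a (a (b (l 14017328) (l 14326248)) (b (l 14100408) (l 14382896))) (a (b (l 14197776) (l 14453864)) (b (l 14309616) (l 14539400)))))) (a (b (a (a (b (l 14634648) (l 15018832)) (b (l 14612856)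 (l 14971408))) (b (a (l 14603312) (l 14606712)) (a (l 14936080) (l 14913600)))) (a (b (a (l 15385464) (l 15311808)) (a (l 15732672) (l 15633248))) (a (b (l 15250104) (l 15545560)) (b (l 15201144) (l 15470464))))) (b (a (b (a (l 14623632) (l 14654536)) (a (l 14904584) (l 14909552))) (b (a (l 14699800) (l 14759712)) (a (l 14928912) (l 14962984)))) (a (a (b (l 15165584) (l 15408696)) (b (l 15144000) (l 15360848))) (a (l 15046552) (l 15229624)))))), by decide +kernel⟩

def k3_pm_102 : ∃ t, chk3 f_pm_102 t 6 2 1 = true :=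
  ⟨(a (b (b (a (b (l 47948453111) (l 16600592)) (b (l 146195912855) (l 105393747783))) (a (b (l 16736904) (a (l 16665128) (l 16657968))) (b (l 16669128) (l 16654632)))) (b (a (l 16322600) (b (b (l 16548064) (l 16496216)) (l 16367824))) (a (l 16100744) (l 16037776)))) (b (a (b (b (l 3) (l 205251809559)) (a (l 16579832) (l 109151944535))) (b (l 3) (b (l 192367093959) (a (l 16667656) (l 16544864))))) (b (a (b (a (l 16534672) (l 16538440)) (a (l 16390152) (l 16415976))) (b (l 16551520) (a (l 16319584) (l 16361824)))) (a (b (l 16233136) (l 16070632)) (b (l 16272288) (l 16110720)))))), by decide +kernel⟩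

def k4_pm_102 : ∃ t, chk3 f_pm_102 t 14 2 1 = true :=
  ⟨(b (a (b (l 3) (b (l 3) (a (l 139753789735) (l 199883326743)))) (l 3)) (a (b (b (a (l 16562248) (b (l 16588744) (l 16542624))) (a (l 16435360) (l 16453224))) (b (a (b (l 16351264) (l 16266672)) (b (l 16357448) (l 16299056))) (l 16160752))) (b (b (a (b (l 197735756887) (l 135995536183)) (l 214378724167)) (a (l 16466232) (b (l 182703214423) (l 16452504)))) (b (a (b (l 16377808) (l 16314312)) (l 16275672)) (a (l 16204624) (b (b (l 16288464) (l 16260224)) (l 16199064))))))), by decide +kernel⟩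

def k5_pm_102 : ∃ t, chk3 f_pm_102 t 15 2 1 = true :=
  ⟨(b (l 3) (a (b (a (b (l 3) (b (l 3) (a (l 137606015351) (l 191829975399)))) (l 3)) (b (a (b (l 16370968) (l 16355424)) (b (a (l 142974647879) (l 193977384823)) (a (l 16372352) (l 142437696199)))) (b (a (l 16248744) (l 16322000)) (a (b (l 16254008) (l 16216296)) (a (l 16254768) (l 16268344)))))) (b (l 3) (a (b (b (l 3) (a (b (l 194514233431) (a (l 16380640) (l 135458456439))) (l 199346067255))) (b (a (l 16342064) (b (a (l 16366184) (b (l 196124827175) (l 16344616))) (l 16342936))) (a (l 16286696) (l 16301664)))) (b (l 3) (b (a (b (l 197198551607) (a (b (l 140827099639) (l 16347856)) (b (l 194514193447) (a (l 144048311431) (l 197198524343))))) (l 3)) (a (b (a (l 16327216) (l 145658912887)) (l 16304176)) (b (a (b (b (l 197735383047) (a (l 16331768) (l 193440408295))) (a (l 16335168) (b (a (l 16341808) (l 143511409575)) (l 16336168)))) (b (l 3) (a (b (l 193977297175) (a (l 154785693783) (b (l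 186997944263) (a (l 16318368) (l 201493457543))))) (l 196124771207)))) (a (l 16317040) (b (a (l 16340984) (b (b (a (a (b (l 205251551111) (l 16337536)) (c (l 193440389255) (l 193977259767))) (l 3)) (c (a (l 166059972231) (a (b (a (l 202030360711) (l 3)) (a (l 16337064) (b (l 203104100919) (l 16337184)))) (b (l 3) (l 192903548615)))) (a (l 16318944) (a (b (l 193440386615) (l 152101325911)) (l 191829802919))))) (a (l 16330536) (b (a (l 16333952) (b (b (c (a (a (l 16336816) (l 142437686919)) (l 193440421367)) (l 205251543879)) (a (l 16335248) (c (a (l 152638233399) (b (l 193977292215) (c (l 144585169159) (l 16336104)))) (l 140290199335)))) (l 16334272))) (l 16331160))))) (a (l 16317016) (l 16321600)))))))))))), by decide +kernel⟩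

def k6_pm_102 : ∃ t, chk3 f_pm_102 t 6 3 1 = true :=
  ⟨(b (a (b (b (a (b (l 15881224) (l 15720976)) (b (l 15920680) (b (l 15843184) (l 15754808)))) (a (l 15240120) (l 15302160))) (b (a (b (l 14937968) (l 14681952)) (l 14669024)) (a (b (l 14427856) (l 14176240)) (b (l 14548048) (l 14303864))))) (b (b (a (b (l 15951064) (l 15828168)) (l 15953616)) (a (b (l 15679040) (l 15422872)) (b (b (l 15837104) (l 15745144)) (l 15559360)))) (b (a (b (l 15175384) (l 14931616)) (b (l 15320944) (l 15087600))) (a (b (l 14692360) (l 14458952)) (b (l 14860360) (a (l 14591352) (l 14689224))))))) (b (b (a (b (a (b (b (l 14021032) (l 13994152)) (l 14059848)) (b (b (l 14163392) (l 14176304)) (l 14248048))) (a (l 14225032) (l 14392920))) (b (b (a (l 14375104) (l 14598128)) (l 14452920)) (a (l 14575280) (l 14772048)))) (a (a (b (l 14436072) (l 14639656)) (l 14522264)) (a (l 14811792) (l 14969192)))) (a (b (b (a (l 14834440) (l 14924112)) (l 14979640)) (a (l 15238960) (l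 15263456))) (b (b (l 15003280) (l 15200792)) (a (l 15303120) (l 15357904)))))), by decide +kernel⟩

def k7_pm_102 : ∃ t, chk3 f_pm_102 t 7 6 1 = true :=
  ⟨(a (b (b (a (l 16005840) (a (l 16052280) (l 16086928))) (a (b (b (l 15912080) (l 15769512)) (l 15567592)) (b (l 15960664) (a (l 15786304) (b (l 15916328) (l 15855272)))))) (b (a (b (l 15481688) (l 15262456)) (b (l 15654048) (l 15453504))) (a (b (l 15051232) (a (l 14795256) (l 14908896))) (b (l 15263400) (b (l 15129296) (a (l 14999976) (l 15133232))))))) (b (a (b (a (l 16124496) (b (a (l 16190344) (l 16216232)) (l 16129632))) (b (l 15955624) (a (l 15890768) (l 15983688)))) (b (a (b (a (b (l 16241920) (l 16217920)) (b (l 16261048) (l 16230848))) (a (l 16162368) (l 16189416))) (b (a (l 16264016) (a (l 16276984) (b (l 16299336) (l 16272848)))) (a (b (l 16221976) (l 16193384)) (b (l 16242224) (a (l 16211704) (l 16218640)))))) (a (b (l 16106560) (l 16042032)) (b (a (l 16142776) (l 16167904)) (l 16092960)))))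 (b (a (a (l 15463128) (b (b (l 15924560) (l 15832832)) (l 15707264))) (b (a (b (l 15985944) (l 15924072)) (b (l 16044624) (a (l 15993448) (l 16027288)))) (a (l 15810552) (l 15912376)))) (a (b (l 15347040) (b (l 15383272) (a (l 15271600) (l 15414384)))) (b (a (l 15675008) (l 15798168)) (b (l 15658224) (a (l 15561112) (l 15711648)))))))), by decide +kernel⟩

def k8_pm_102 : ∃ t, chk3 f_pm_102 t 7 7 1 = true :=
  ⟨(a (b (b (a (l 14928472) (l 15166448)) (a (l 15141152) (l 15327424))) (b (a (l 15323680) (l 15459936)) (a (l 15427664) (l 15512272)))) (b (a (b (l 15417752) (l 15527360)) (b (l 15576960) (a (l 15685704) (l 15795176)))) (a (b (l 15610152) (a (l 15585448) (b (l 15649376) (a (l 15612440) (l 15631112))))) (b (a (l 15731224) (b (a (l 15792904) (b (l 15834824) (l 15821560))) (a (b (l 15789240) (l 15760552)) (b (l 15786520) (l 15730432))))) (a (b (a (l 15693648) (l 549303819692575441809007)) (a (b (l 15654760) (l 15606144)) (b (l 15626336) (l 15567904))))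 (b (a (b (l 15712664) (l 15648824)) (b (l 15674344) (a (l 15627600) (l 15625640)))) (a (b (l 15594528) (a (l 15552496) (l 15557336))) (b (a (l 15588384) (l 15599216)) (l 15565936))))))))), by decide +kernel⟩

theorem s9_pm_102 : ∃ t, chk3 f_pm_102 t 7 3 1 = true := ex3_b k7_pm_102 k8_pm_102

theorem s10_pm_102 : ∃ t, chk3 f_pm_102 t 3 3 1 = true := ex3_a k6_pm_102 s9_pm_102

theorem s11_pm_102 : ∃ t, chk3 f_pm_102 t 7 2 1 = true := ex3_a k4_pm_102 k5_pm_102

theorem s12_pm_102 : ∃ t, chk3 f_pm_102 t 3 2 1 = true := ex3_a k3_pm_102 s11_pm_102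

theorem s13_pm_102 : ∃ t, chk3 f_pm_102 t 3 1 1 = true := ex3_b s12_pm_102 s10_pm_102

theorem s14_pm_102 : ∃ t, chk3 f_pm_102 t 2 3 1 = true := ex3_b k1_pm_102 k2_pm_102

theorem s15_pm_102 : ∃ t, chk3 f_pm_102 t 2 1 1 = true := ex3_b k0_pm_102 s14_pm_102

theorem s16_pm_102 : ∃ t, chk3 f_pm_102 t 1 1 1 = true := ex3_a s15_pm_102 s13_pm_102

theorem c_pm_102 : CertB 536870912 536870912 0 536870912 1040187392 5207648 3 eng mog cd1q1 cd0q2 pd0 false true false .npp 1 0 2
    ndB1q1 ndB0q2 pcB0 Cut.none xt_pm_102 :=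
  certB0 (fam := false) (s1 := true) (s2 := false) (a := 1) (b := 0) (c := 2) (cn := .npp) (n1 := ndB1q1) (n2 := ndB0q2) (pc := pcB0) (cut := Cut.none) (xt := xt_pm_102) (P1 := 536870912) (W1 := 536870912) (P2 := 0) (W2 := 536870912) (P3 := 1040187392) (W3 := 5207648) (N0 := 3) (En := eng) (mo := mog) (C1 := cd1q1) (C2 := cd0q2) (C3 := pd0)
    rfl s16_pm_102

noncomputable def f_pm_112 : ℕ → ℕ → ℕ → ℕ → Bool := onCell 536870912 536870912 0 536870912 1040187392 5207648
    (rowB 3 eng mog cd1q1 cd0q2 pd1 2 false true false .dn 1 1 2 (qsf 536870912 536870912 0 536870912 1) ndB1q1 ndB0q2 pcB1 Cut.none Ext.none)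

def k0_pm_112 : ∃ t, chk3 f_pm_112 t 1 1 1 = true :=
  ⟨(a (a (a (b (b (b (a (b (l 15899792) (b (l 15879144) (l 15989592))) (b (b (l 15862544) (l 15880872)) (l 15978928))) (a (l 16138248) (l 16100784))) (b (a (l 16270520) (l 16227728)) (b (l 16340744) (b (l 16341064) (l 16306472))))) (b (l 16304832) (b (b (l 16240184) (l 16154704)) (b (l 16015912) (l 15821552))))) (b (b (b (a (b (l 15888968) (l 15971848)) (l 15939448)) (l 16068824)) (b (l 16186176) (b (l 16134536) (l 16296048)))) (b (l 16278400) (b (b (l 16279120) (l 1)) (l 1))))) (b (a (b (a (l 16012552) (l 16033384)) (b (l 16166656) (b (l 16237200) (l 16254752)))) (l 1)) (b (l 1) (l 1)))) (l 1)), by decide +kernel⟩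

theorem c_pm_112 : CertB 536870912 536870912 0 536870912 1040187392 5207648 3 eng mog cd1q1 cd0q2 pd1 false true false .dn 1 1 2
    ndB1q1 ndB0q2 pcB1 Cut.none Ext.none :=
  certB2 (fam := false) (s1 := true) (s2 := false) (a := 1) (b := 1) (c := 2) (cn := .dn) (n1 := ndB1q1) (n2 := ndB0q2) (pc := pcB1) (cut := Cut.none) (xt := Ext.none) (P1 := 536870912) (W1 := 536870912) (P2 := 0) (W2 := 536870912) (P3 := 1040187392) (W3 := 5207648) (N0 := 3) (En := eng) (mo := mog) (C1 := cd1q1) (C2 := cd0q2) (C3 := pd1)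
    rfl (fun _ => rfl) k0_pm_112

noncomputable def cut_pm_202_a : Cut := Cut.of [[⟨0, 1, 0, 26843545⟩, ⟨1, 0, 0, 26843545⟩, ⟨2, 1, 0, 26843545⟩]]

noncomputable def f_pm_202_a : ℕ → ℕ → ℕ → ℕ → Bool := onCell 0 536870912 0 536870912 1040187392 5207648
    (rowB 3 eng mog cd1q2a cd0q2 pd0 0 false true false .pp 2 0 2 (qsf 0 536870912 0 536870912 0) ndB1q2a ndB0q2 pcB0 cut_pm_202_a Ext.none)

def k0_pm_202_a : ∃ t, chk3 f_pm_202_a t 1 1 1 = true :=
  ⟨(a (l 3) (b (l 3) (a (l 3) (b (l 3) (a (l 3) (a (l 3) (b (l 3) (b (l 3) (l 6))))))))), by decide +kernel⟩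

theorem c_pm_202_a : CertB 0 536870912 0 536870912 1040187392 5207648 3 eng mog cd1q2a cd0q2 pd0 false true false .pp 2 0 2
    ndB1q2a ndB0q2 pcB0 cut_pm_202_a Ext.none :=
  certB0 (fam := false) (s1 := true) (s2 := false) (a := 2) (b := 0) (c := 2) (cn := .pp) (n1 := ndB1q2a) (n2 := ndB0q2) (pc := pcB0) (cut := cut_pm_202_a) (xt := Ext.none) (P1 := 0) (W1 := 536870912) (P2 := 0) (W2 := 536870912) (P3 := 1040187392) (W3 := 5207648) (N0 := 3) (En := eng) (mo := mog) (C1 := cd1q2a) (C2 := cd0q2) (C3 := pd0)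
    rfl k0_pm_202_a

noncomputable def cut_pm_202_b : Cut := Cut.of [[⟨0, 1, 0, 26843545⟩, ⟨1, 0, 0, 26843545⟩, ⟨2, 1, 0, 26843545⟩]]

noncomputable def f_pm_202_b : ℕ → ℕ → ℕ → ℕ → Bool := onCell 1239849684 370763052 0 536870912 1040187392 5207648
    (rowB 3 eng mog cd1q2b cd0q2 pd0 0 false true false .pp 2 0 2 (qsf 1239849684 370763052 0 536870912 0) ndB1q2b ndB0q2 pcB0 cut_pm_202_b Ext.none)

def k0_pm_202_b : ∃ t, chk3 f_pm_202_b t 1 1 1 = true :=
  ⟨(l 3), by decide +kernel⟩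

theorem c_pm_202_b : CertB 1239849684 370763052 0 536870912 1040187392 5207648 3 eng mog cd1q2b cd0q2 pd0 false true false .pp 2 0 2
    ndB1q2b ndB0q2 pcB0 cut_pm_202_b Ext.none :=
  certB0 (fam := false) (s1 := true) (s2 := false) (a := 2) (b := 0) (c := 2) (cn := .pp) (n1 := ndB1q2b) (n2 := ndB0q2) (pc := pcB0) (cut := cut_pm_202_b) (xt := Ext.none) (P1 := 1239849684) (W1 := 370763052) (P2 := 0) (W2 := 536870912) (P3 := 1040187392) (W3 := 5207648) (N0 := 3) (En := eng) (mo := mog) (C1 := cd1q2b) (C2 := cd0q2) (C3 := pd0)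
    rfl k0_pm_202_b

noncomputable def f_mm_001 : ℕ → ℕ → ℕ → ℕ → Bool := onCell 0 536870912 536870912 536870912 1040187392 5207648
    (rowB 3 eng mog cd1q0 cd0q1 pd0 0 false false false .up 0 0 1 (qsf 0 536870912 536870912 536870912 0) ndB1q0 ndB0q1 pcB0 Cut.none Ext.none)

def k0_mm_001 : ∃ t, chk3 f_mm_001 t 1 1 1 = true :=
  ⟨(l 5), by decide +kernel⟩

theorem c_mm_001 : CertB 0 536870912 536870912 536870912 1040187392 5207648 3 eng mog cd1q0 cd0q1 pd0 false false false .up 0 0 1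
    ndB1q0 ndB0q1 pcB0 Cut.none Ext.none :=
  certB0 (fam := false) (s1 := false) (s2 := false) (a := 0) (b := 0) (c := 1) (cn := .up) (n1 := ndB1q0) (n2 := ndB0q1) (pc := pcB0) (cut := Cut.none) (xt := Ext.none) (P1 := 0) (W1 := 536870912) (P2 := 536870912) (W2 := 536870912) (P3 := 1040187392) (W3 := 5207648) (N0 := 3) (En := eng) (mo := mog) (C1 := cd1q0) (C2 := cd0q1) (C3 := pd0)
    rfl k0_mm_001

noncomputable def f_mm_011 : ℕ → ℕ → ℕ → ℕ → Bool := onCell 0 536870912 536870912 536870912 1040187392 5207648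
    (rowB 3 eng mog cd1q0 cd0q1 pd1 0 false false false .pnn 0 1 1 (qsf 0 536870912 536870912 536870912 1) ndB1q0 ndB0q1 pcB1 Cut.none Ext.none)

def k0_mm_011 : ∃ t, chk3 f_mm_011 t 1 1 1 = true :=
  ⟨(l 5), by decide +kernel⟩

theorem c_mm_011 : CertB 0 536870912 536870912 536870912 1040187392 5207648 3 eng mog cd1q0 cd0q1 pd1 false false false .pnn 0 1 1
    ndB1q0 ndB0q1 pcB1 Cut.none Ext.none :=
  certB0 (fam := false) (s1 := false) (s2 := false) (a := 0) (b := 1) (c := 1) (cn := .pnn) (n1 := ndB1q0) (n2 := ndB0q1) (pc := pcB1) (cut := Cut.none) (xt := Ext.none) (P1 := 0) (W1 := 536870912) (P2 := 536870912) (W2 := 536870912) (P3 := 1040187392) (W3 := 5207648) (N0 := 3) (En := eng) (mo := mog) (C1 := cd1q0) (C2 := cd0q1) (C3 := pd1)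
    rfl k0_mm_011

noncomputable def f_mm_012 : ℕ → ℕ → ℕ → ℕ → Bool := onCell 0 536870912 0 536870912 1040187392 5207648
    (rowB 3 eng mog cd1q0 cd0q2 pd1 0 false false false .pnp 0 1 2 (qsf 0 536870912 0 536870912 1) ndB1q0 ndB0q2 pcB1 Cut.none Ext.none)

def k0_mm_012 : ∃ t, chk3 f_mm_012 t 1 1 1 = true :=
  ⟨(l 5), by decide +kernel⟩

theorem c_mm_012 : CertB 0 536870912 0 536870912 1040187392 5207648 3 eng mog cd1q0 cd0q2 pd1 false false false .pnp 0 1 2
    ndB1q0 ndB0q2 pcB1 Cut.none Ext.none :=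
  certB0 (fam := false) (s1 := false) (s2 := false) (a := 0) (b := 1) (c := 2) (cn := .pnp) (n1 := ndB1q0) (n2 := ndB0q2) (pc := pcB1) (cut := Cut.none) (xt := Ext.none) (P1 := 0) (W1 := 536870912) (P2 := 0) (W2 := 536870912) (P3 := 1040187392) (W3 := 5207648) (N0 := 3) (En := eng) (mo := mog) (C1 := cd1q0) (C2 := cd0q2) (C3 := pd1)
    rfl k0_mm_012

noncomputable def f_mm_022 : ℕ → ℕ → ℕ → ℕ → Bool := onCell 0 536870912 0 536870912 1040187392 5207648
    (rowB 3 eng mog cd1q0 cd0q2 pd2 0 false false false .pp 0 2 2 (qsf 0 536870912 0 536870912 2) ndB1q0 ndB0q2 pcB2 Cut.none Ext.none)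

def k0_mm_022 : ∃ t, chk3 f_mm_022 t 1 1 1 = true :=
  ⟨(l 5), by decide +kernel⟩

theorem c_mm_022 : CertB 0 536870912 0 536870912 1040187392 5207648 3 eng mog cd1q0 cd0q2 pd2 false false false .pp 0 2 2
    ndB1q0 ndB0q2 pcB2 Cut.none Ext.none :=
  certB0 (fam := false) (s1 := false) (s2 := false) (a := 0) (b := 2) (c := 2) (cn := .pp) (n1 := ndB1q0) (n2 := ndB0q2) (pc := pcB2) (cut := Cut.none) (xt := Ext.none) (P1 := 0) (W1 := 536870912) (P2 := 0) (W2 := 536870912) (P3 := 1040187392) (W3 := 5207648) (N0 := 3) (En := eng) (mo := mog) (C1 := cd1q0) (C2 := cd0q2) (C3 := pd2)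
    rfl k0_mm_022

noncomputable def f_mm_101 : ℕ → ℕ → ℕ → ℕ → Bool := onCell 536870912 536870912 536870912 536870912 1040187392 5207648
    (rowB 3 eng mog cd1q1 cd0q1 pd0 0 false false false .npn 1 0 1 (qsf 536870912 536870912 536870912 536870912 0) ndB1q1 ndB0q1 pcB0 Cut.none Ext.none)

def k0_mm_101 : ∃ t, chk3 f_mm_101 t 1 1 1 = true :=
  ⟨(l 3), by decide +kernel⟩

theorem c_mm_101 : CertB 536870912 536870912 536870912 536870912 1040187392 5207648 3 eng mog cd1q1 cd0q1 pd0 false false false .npn 1 0 1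
    ndB1q1 ndB0q1 pcB0 Cut.none Ext.none :=
  certB0 (fam := false) (s1 := false) (s2 := false) (a := 1) (b := 0) (c := 1) (cn := .npn) (n1 := ndB1q1) (n2 := ndB0q1) (pc := pcB0) (cut := Cut.none) (xt := Ext.none) (P1 := 536870912) (W1 := 536870912) (P2 := 536870912) (W2 := 536870912) (P3 := 1040187392) (W3 := 5207648) (N0 := 3) (En := eng) (mo := mog) (C1 := cd1q1) (C2 := cd0q1) (C3 := pd0)
    rfl k0_mm_101

noncomputable def f_mm_102 : ℕ → ℕ → ℕ → ℕ → Bool := onCell 536870912 536870912 0 536870912 1040187392 5207648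
    (rowB 3 eng mog cd1q1 cd0q2 pd0 0 false false false .npp 1 0 2 (qsf 536870912 536870912 0 536870912 0) ndB1q1 ndB0q2 pcB0 Cut.none Ext.none)

def k0_mm_102 : ∃ t, chk3 f_mm_102 t 1 1 1 = true :=
  ⟨(l 5), by decide +kernel⟩

theorem c_mm_102 : CertB 536870912 536870912 0 536870912 1040187392 5207648 3 eng mog cd1q1 cd0q2 pd0 false false false .npp 1 0 2
    ndB1q1 ndB0q2 pcB0 Cut.none Ext.none :=
  certB0 (fam := false) (s1 := false) (s2 := false) (a := 1) (b := 0) (c := 2) (cn := .npp) (n1 := ndB1q1) (n2 := ndB0q2) (pc := pcB0) (cut := Cut.none) (xt := Ext.none) (P1 := 536870912) (W1 := 536870912) (P2 := 0) (W2 := 536870912) (P3 := 1040187392) (W3 := 5207648) (N0 := 3) (En := eng) (mo := mog) (C1 := cd1q1) (C2 := cd0q2) (C3 := pd0)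
    rfl k0_mm_102

noncomputable def f_mm_112 : ℕ → ℕ → ℕ → ℕ → Bool := onCell 536870912 536870912 0 536870912 1040187392 5207648
    (rowB 3 eng mog cd1q1 cd0q2 pd1 0 false false false .dn 1 1 2 (qsf 536870912 536870912 0 536870912 1) ndB1q1 ndB0q2 pcB1 Cut.none Ext.none)

def k0_mm_112 : ∃ t, chk3 f_mm_112 t 1 1 1 = true :=
  ⟨(l 5), by decide +kernel⟩

theorem c_mm_112 : CertB 536870912 536870912 0 536870912 1040187392 5207648 3 eng mog cd1q1 cd0q2 pd1 false false false .dn 1 1 2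
    ndB1q1 ndB0q2 pcB1 Cut.none Ext.none :=
  certB0 (fam := false) (s1 := false) (s2 := false) (a := 1) (b := 1) (c := 2) (cn := .dn) (n1 := ndB1q1) (n2 := ndB0q2) (pc := pcB1) (cut := Cut.none) (xt := Ext.none) (P1 := 536870912) (W1 := 536870912) (P2 := 0) (W2 := 536870912) (P3 := 1040187392) (W3 := 5207648) (N0 := 3) (En := eng) (mo := mog) (C1 := cd1q1) (C2 := cd0q2) (C3 := pd1)
    rfl k0_mm_112

noncomputable def f_mm_202_a : ℕ → ℕ → ℕ → ℕ → Bool := onCell 0 536870912 0 536870912 1040187392 5207648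
    (rowB 3 eng mog cd1q2a cd0q2 pd0 0 false false false .pp 2 0 2 (qsf 0 536870912 0 536870912 0) ndB1q2a ndB0q2 pcB0 Cut.none Ext.none)

def k0_mm_202_a : ∃ t, chk3 f_mm_202_a t 1 1 1 = true :=
  ⟨(l 3), by decide +kernel⟩

theorem c_mm_202_a : CertB 0 536870912 0 536870912 1040187392 5207648 3 eng mog cd1q2a cd0q2 pd0 false false false .pp 2 0 2
    ndB1q2a ndB0q2 pcB0 Cut.none Ext.none :=
  certB0 (fam := false) (s1 := false) (s2 := false) (a := 2) (b := 0) (c := 2) (cn := .pp) (n1 := ndB1q2a) (n2 := ndB0q2) (pc := pcB0) (cut := Cut.none) (xt := Ext.none) (P1 := 0) (W1 := 536870912) (P2 := 0) (W2 := 536870912) (P3 := 1040187392) (W3 := 5207648) (N0 := 3) (En := eng) (mo := mog) (C1 := cd1q2a) (C2 := cd0q2) (C3 := pd0)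
    rfl k0_mm_202_a

noncomputable def f_mm_202_b : ℕ → ℕ → ℕ → ℕ → Bool := onCell 1239849684 370763052 0 536870912 1040187392 5207648
    (rowB 3 eng mog cd1q2b cd0q2 pd0 0 false false false .pp 2 0 2 (qsf 1239849684 370763052 0 536870912 0) ndB1q2b ndB0q2 pcB0 Cut.none Ext.none)

def k0_mm_202_b : ∃ t, chk3 f_mm_202_b t 1 1 1 = true :=
  ⟨(l 3), by decide +kernel⟩

theorem c_mm_202_b : CertB 1239849684 370763052 0 536870912 1040187392 5207648 3 eng mog cd1q2b cd0q2 pd0 false false false .pp 2 0 2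
    ndB1q2b ndB0q2 pcB0 Cut.none Ext.none :=
  certB0 (fam := false) (s1 := false) (s2 := false) (a := 2) (b := 0) (c := 2) (cn := .pp) (n1 := ndB1q2b) (n2 := ndB0q2) (pc := pcB0) (cut := Cut.none) (xt := Ext.none) (P1 := 1239849684) (W1 := 370763052) (P2 := 0) (W2 := 536870912) (P3 := 1040187392) (W3 := 5207648) (N0 := 3) (En := eng) (mo := mog) (C1 := cd1q2b) (C2 := cd0q2) (C3 := pd0)
    rfl k0_mm_202_b

end Pool.Agent.Strip051.G.I9688_9736.Tab.C.BB10

namespace Pool.Agent.Strip051.G.I9688_9736.Tab.C.BB11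

open Pool.Agent.Strip051.PB Pool.Agent.Strip051.PB.T
open Pool.Agent.Strip051.G.I9688_9736.Tab

noncomputable def f_pp_001 : ℕ → ℕ → ℕ → ℕ → Bool := onCell 0 536870912 536870912 536870912 1040187392 5207648
    (rowB 3 eng mog cd1q0 cd1q1 pd0 0 false true true .up 0 0 1 (qsf 0 536870912 536870912 536870912 0) ndB1q0 ndB1q1 pcB0 Cut.none Ext.none)

def k0_pp_001 : ∃ t, chk3 f_pp_001 t 1 1 1 = true :=
  ⟨(l 3), by decide +kernel⟩

theorem c_pp_001 : CertB 0 536870912 536870912 536870912 1040187392 5207648 3 eng mog cd1q0 cd1q1 pd0 false true true .up 0 0 1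
    ndB1q0 ndB1q1 pcB0 Cut.none Ext.none :=
  certB0 (fam := false) (s1 := true) (s2 := true) (a := 0) (b := 0) (c := 1) (cn := .up) (n1 := ndB1q0) (n2 := ndB1q1) (pc := pcB0) (cut := Cut.none) (xt := Ext.none) (P1 := 0) (W1 := 536870912) (P2 := 536870912) (W2 := 536870912) (P3 := 1040187392) (W3 := 5207648) (N0 := 3) (En := eng) (mo := mog) (C1 := cd1q0) (C2 := cd1q1) (C3 := pd0)
    rfl k0_pp_001

noncomputable def f_pp_011 : ℕ → ℕ → ℕ → ℕ → Bool := onCell 0 536870912 536870912 536870912 1040187392 5207648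
    (rowB 3 eng mog cd1q0 cd1q1 pd1 0 false true true .pnn 0 1 1 (qsf 0 536870912 536870912 536870912 1) ndB1q0 ndB1q1 pcB1 Cut.none Ext.none)

def k0_pp_011 : ∃ t, chk3 f_pp_011 t 1 1 1 = true :=
  ⟨(l 3), by decide +kernel⟩

theorem c_pp_011 : CertB 0 536870912 536870912 536870912 1040187392 5207648 3 eng mog cd1q0 cd1q1 pd1 false true true .pnn 0 1 1
    ndB1q0 ndB1q1 pcB1 Cut.none Ext.none :=
  certB0 (fam := false) (s1 := true) (s2 := true) (a := 0) (b := 1) (c := 1) (cn := .pnn) (n1 := ndB1q0) (n2 := ndB1q1) (pc := pcB1) (cut := Cut.none) (xt := Ext.none) (P1 := 0) (W1 := 536870912) (P2 := 536870912) (W2 := 536870912) (P3 := 1040187392) (W3 := 5207648) (N0 := 3) (En := eng) (mo := mog) (C1 := cd1q0) (C2 := cd1q1) (C3 := pd1)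
    rfl k0_pp_011

noncomputable def cut_pp_012_a : Cut := Cut.of [[⟨0, 0, 0, 26843545⟩, ⟨1, 1, 0, 26843545⟩, ⟨2, 1, 0, 26843545⟩]]

noncomputable def xt_pp_012_a : Ext := extD3 3 ⟨4, 1, 1, 5, 33, 5, 163, 200, 81, 200, 1, 64⟩ eng cd1q0 cd1q2a pd1 false true true .pnp 0 1 2 rfl ndB1q0 ndB1q2a pcB1

noncomputable def f_pp_012_a : ℕ → ℕ → ℕ → ℕ → Bool := onCell 536870912 536870912 0 536870912 1040187392 5207648
    (rowB 3 eng mog cd1q0 cd1q2a pd1 2 false true true .pnp 0 1 2 (qsf 0 536870912 0 536870912 1) ndB1q0 ndB1q2a pcB1 cut_pp_012_a xt_pp_012_a)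

def k0_pp_012_a : ∃ t, chk3 f_pp_012_a t 1 2 1 = true :=
  ⟨(b (a (a (l 2) (a (a (a (l 2) (b (l 16597808) (a (l 103246196711) (l 113983614375)))) (b (l 16614424) (a (l 123647290007) (l 16491544)))) (a (b (l 16623064) (l 16490992)) (l 16485888)))) (a (a (a (l 16551168) (l 16485168)) (a (l 16442384) (l 16371640))) (a (a (l 16288096) (l 16211080)) (a (l 16281696) (l 16244528))))) (a (a (l 3) (a (b (a (l 3) (b (a (l 16415784) (l 96803738775)) (l 3))) (l 3)) (a (b (b (a (l 16425960) (l 16442344)) (a (l 16381296) (l 109688625175))) (l 3)) (b (a (l 16395408) (l 16449600)) (b (a (l 93045649159) (l 122573534599)) (l 3)))))) (a (a (a (b (l 16459992) (b (l 145658987447) (a (l 111836144247) (l 16414384)))) (b (l 16456544) (b (l 16438472) (l 16429872)))) (a (b (l 16432632) (l 16435304)) (l 16340696))) (a (a (l 16353592) (b (l 16258152) (l 16317480))) (a (b (a (l 16207648) (l 16185968)) (a (l 16270088) (l 16236488))) (b (a (l 16180952) (l 16197336)) (a (l 16201480)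 (b (l 16150568) (l 16183080))))))))), by decide +kernel⟩

def k1_pp_012_a : ∃ t, chk3 f_pp_012_a t 2 3 1 = true :=
  ⟨(l 3), by decide +kernel⟩

def k2_pp_012_a : ∃ t, chk3 f_pp_012_a t 6 3 1 = true :=
  ⟨(b (a (b (a (l 3) (b (a (l 137605974503) (l 16431992)) (l 141900942375))) (l 3)) (b (a (b (l 16443512) (a (l 159080853479) (l 16457736))) (b (l 16442032) (l 16463808))) (a (b (a (l 3) (l 158544039719)) (l 3)) (b (a (l 163912787095) (l 16490680)) (a (l 3) (l 202030717607)))))) (l 3)), by decide +kernel⟩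

def k3_pp_012_a : ∃ t, chk3 f_pp_012_a t 14 3 1 = true :=
  ⟨(b (a (b (l 16436704) (b (a (l 16491800) (l 16487056)) (a (l 183240169271) (l 16529496)))) (b (a (l 16411376) (l 16388256)) (a (b (l 16476832) (l 16525280)) (l 16446008)))) (b (a (b (a (l 3) (b (l 180018929383) (l 279340098727))) (l 3)) (b (a (b (l 16562944) (l 198272507799)) (a (l 16573896) (l 16570072))) (a (b (l 307257382423) (l 3)) (b (a (l 240685404647) (l 16614208)) (a (l 3) (l 333564139671)))))) (l 3))), by decide +kernel⟩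

def k4_pp_012_a : ∃ t, chk3 f_pp_012_a t 15 3 1 = true :=
  ⟨(a (b (b (a (l 16364584) (l 16342440)) (a (l 16411344) (b (l 16431152) (l 16495848)))) (b (a (b (l 16565256) (b (l 16613936) (a (l 179482121783) (l 16648744)))) (b (a (l 16564280) (l 16562344)) (a (l 16634944) (l 16615136)))) (b (a (b (a (l 364165709591) (b (l 168744773703) (l 333027233271))) (l 3)) (b (a (b (l 16679096) (l 105394011447)) (b (l 16683688) (l 16702896))) (a (b (l 297056977895) (l 3)) (b (a (l 16627312) (l 16685936)) (b (l 284709085879) (l 3)))))) (l 3)))) (b (b (a (l 16310848) (l 16271224)) (a (b (l 16405152) (l 16473712)) (b (l 16366368) (l 16435528)))) (b (a (b (a (l 16553560) (l 16537384)) (a (l 16608416) (l 16593080))) (b (a (l 16517968) (l 16499744)) (a (l 16552864) (b (l 16556888) (l 16596352))))) (a (b (a (b (l 16688424) (b (l 16718744) (a (l 197199325127) (l 16728296)))) (b (l 16673712) (b (l 16704392) (l 16725168)))) (b (a (b (a (l 467245094391) (l 303499650727))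 (l 3)) (b (a (l 190219987319) (l 16741664)) (a (l 394230867223) (b (l 215989816135) (l 380272336023))))) (l 3))) (b (a (b (l 16654576) (a (l 16700648) (l 16690992))) (b (l 16615760) (b (l 16667504) (a (l 16692496) (l 16684480))))) (a (b (b (a (l 16732032) (l 16722368)) (a (b (l 16747912) (a (l 16752152) (l 16755216))) (l 143743381235171455))) (a (a (a (l 3) (l 6)) (l 6)) (l 6))) (b (a (b (l 16713528) (l 6)) (l 6)) (l 6)))))))), by decide +kernel⟩

theorem s5_pp_012_a : ∃ t, chk3 f_pp_012_a t 7 3 1 = true := ex3_a k3_pp_012_a k4_pp_012_a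

theorem s6_pp_012_a : ∃ t, chk3 f_pp_012_a t 3 3 1 = true := ex3_a k2_pp_012_a s5_pp_012_a

theorem s7_pp_012_a : ∃ t, chk3 f_pp_012_a t 1 3 1 = true := ex3_a k1_pp_012_a s6_pp_012_a

theorem s8_pp_012_a : ∃ t, chk3 f_pp_012_a t 1 1 1 = true := ex3_b k0_pp_012_a s7_pp_012_a

theorem c_pp_012_a : CertB 0 536870912 0 536870912 1040187392 5207648 3 eng mog cd1q0 cd1q2a pd1 false true true .pnp 0 1 2
    ndB1q0 ndB1q2a pcB1 cut_pp_012_a xt_pp_012_a :=
  certB2 (fam := false) (s1 := true) (s2 := true) (a := 0) (b := 1) (c := 2) (cn := .pnp) (n1 := ndB1q0) (n2 := ndB1q2a) (pc := pcB1) (cut := cut_pp_012_a) (xt := xt_pp_012_a) (P1 := 0) (W1 := 536870912) (P2 := 0) (W2 := 536870912) (P3 := 1040187392) (W3 := 5207648) (N0 := 3) (En := eng) (mo := mog) (C1 := cd1q0) (C2 := cd1q2a) (C3 := pd1)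
    rfl (fun _ => rfl) s8_pp_012_a

noncomputable def cut_pp_012_b : Cut := Cut.of [[⟨0, 0, 0, 26843545⟩, ⟨1, 1, 0, 26843545⟩, ⟨2, 1, 0, 26843545⟩]]

noncomputable def f_pp_012_b : ℕ → ℕ → ℕ → ℕ → Bool := onCell 536870912 536870912 1239849684 370763052 1040187392 5207648
    (rowB 3 eng mog cd1q0 cd1q2b pd1 2 false true true .pnp 0 1 2 (qsf 0 536870912 1239849684 370763052 1) ndB1q0 ndB1q2b pcB1 cut_pp_012_b Ext.none)

def k0_pp_012_b : ∃ t, chk3 f_pp_012_b t 1 1 1 = true :=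
  ⟨(a (a (l 2) (b (a (b (a (l 16577904) (l 16589472)) (l 2)) (b (a (l 16582888) (l 16555568)) (l 16408520))) (l 2))) (a (b (a (b (a (l 16502112) (l 16415656)) (a (l 16323800) (l 16226528))) (b (a (l 16301792) (l 16219376)) (l 16033328))) (a (l 2) (b (l 15894264) (l 2)))) (b (a (b (b (l 16241488) (l 16087216)) (l 15885848)) (b (a (l 16187880) (l 16128808)) (l 15860504))) (a (b (l 15677048) (l 15538224)) (b (l 15645872) (l 15451928)))))), by decide +kernel⟩

theorem c_pp_012_b : CertB 0 536870912 1239849684 370763052 1040187392 5207648 3 eng mog cd1q0 cd1q2b pd1 false true true .pnp 0 1 2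
    ndB1q0 ndB1q2b pcB1 cut_pp_012_b Ext.none :=
  certB2 (fam := false) (s1 := true) (s2 := true) (a := 0) (b := 1) (c := 2) (cn := .pnp) (n1 := ndB1q0) (n2 := ndB1q2b) (pc := pcB1) (cut := cut_pp_012_b) (xt := Ext.none) (P1 := 0) (W1 := 536870912) (P2 := 1239849684) (W2 := 370763052) (P3 := 1040187392) (W3 := 5207648) (N0 := 3) (En := eng) (mo := mog) (C1 := cd1q0) (C2 := cd1q2b) (C3 := pd1)
    rfl (fun _ => rfl) k0_pp_012_b

noncomputable def cut_pp_022_a : Cut := Cut.of [[⟨0, 0, 0, 22369621⟩, ⟨1, 1, 0, 22369621⟩, ⟨2, 1, 0, 22369621⟩]]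

noncomputable def f_pp_022_a : ℕ → ℕ → ℕ → ℕ → Bool := onCell 1073741824 536870912 0 536870912 1040187392 5207648
    (rowB 3 eng mog cd1q0 cd1q2a pd2 2 false true true .pp 0 2 2 (qsf 0 536870912 0 536870912 2) ndB1q0 ndB1q2a pcB2 cut_pp_022_a Ext.none)

def k0_pp_022_a : ∃ t, chk3 f_pp_022_a t 2 2 1 = true :=
  ⟨(a (a (b (a (b (l 16335240) (l 16358632)) (b (l 16218376) (l 16273072))) (b (a (l 16358632) (l 16346888)) (a (a (l 16465552) (l 16453808)) (l 16396408)))) (b (a (l 16071024) (l 15946456)) (b (a (l 16299552) (l 16259520)) (a (l 16422128) (l 16369880))))) (a (b (a (b (l 15929752) (l 16067992)) (l 101500025239)) (a (b (l 16228096) (l 16345888)) (l 1))) (l 1))), by decide +kernel⟩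

def k1_pp_022_a : ∃ t, chk3 f_pp_022_a t 8 3 1 = true :=
  ⟨(a (b (b (a (b (l 16512968) (l 16549928)) (l 16474168)) (a (b (l 16569528) (b (l 16622968) (l 16624856))) (b (l 16587432) (l 16619160)))) (b (b (a (b (l 16648528) (l 16652008)) (l 16637952)) (a (a (l 16679368) (l 16669584)) (b (l 16640904) (l 16606928)))) (a (b (b (b (l 16678576) (l 16653664)) (a (b (l 16691832) (b (a (l 16701128) (l 16701472)) (l 16694952))) (b (b (l 16671192) (a (l 16680288) (b (l 16658744) (l 16658776)))) (a (l 16684320) (l 16664944))))) (l 6)) (b (b (a (l 16614472) (b (l 16596496) (a (l 16599672) (b (l 16579608) (a (l 16581048) (l 154115070807)))))) (a (b (b (a (l 16638560) (b (l 16617280) (a (l 16621472) (l 16610648)))) (a (b (l 16637336) (l 16639272)) (l 16618448))) (a (l 16624520) (b (l 16623488) (l 16628576)))) (b (b (a (b (a (l 16600544) (b (l 16589784) (b (l 16589144) (l 16567992)))) (a (b (l 16599736) (l 16600704)) (l 16590288))) (b (a (b (a (l 16581328) (b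 (l 16575896) (l 150893868247))) (a (b (l 16570392) (l 16581392)) (l 16576176))) (b (b (l 265247349495) (l 1)) (l 1))) (l 16575592))) (a (l 16588440) (l 1))) (a (b (l 16603976) (l 1)) (l 1))))) (a (a (l 6) (a (a (l 6) (l 1)) (l 1))) (l 1)))))) (b (b (b (l 16516768) (l 16553744)) (a (l 16554928) (l 16500848))) (b (b (a (l 16571000) (l 16500120)) (a (b (l 16565240) (a (l 16566968) (l 16524880))) (b (l 16485120) (l 16417488)))) (b (a (a (b (b (l 16532216) (a (a (l 497712428247) (l 415034283239)) (l 1))) (l 1)) (l 1)) (l 1)) (l 1))))), by decide +kernel⟩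

def k2_pp_022_a : ∃ t, chk3 f_pp_022_a t 9 3 1 = true :=
  ⟨(b (b (a (l 16478192) (l 16390792)) (a (b (l 16462704) (l 16385200)) (b (l 16387216) (l 1)))) (a (b (b (a (l 16424976) (l 1)) (l 1)) (l 1)) (l 1))), by decide +kernel⟩

def k3_pp_022_a : ∃ t, chk3 f_pp_022_a t 5 3 1 = true :=
  ⟨(b (l 1) (l 1)), by decide +kernel⟩

def k4_pp_022_a : ∃ t, chk3 f_pp_022_a t 3 1 1 = true :=
  ⟨(l 1), by decide +kernel⟩

theorem s5_pp_022_a : ∃ t, chk3 f_pp_022_a t 4 3 1 = true := ex3_a k1_pp_022_a k2_pp_022_a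

theorem s6_pp_022_a : ∃ t, chk3 f_pp_022_a t 2 3 1 = true := ex3_a s5_pp_022_a k3_pp_022_a

theorem s7_pp_022_a : ∃ t, chk3 f_pp_022_a t 2 1 1 = true := ex3_b k0_pp_022_a s6_pp_022_a

theorem s8_pp_022_a : ∃ t, chk3 f_pp_022_a t 1 1 1 = true := ex3_a s7_pp_022_a k4_pp_022_a

theorem c_pp_022_a : CertB 0 536870912 0 536870912 1040187392 5207648 3 eng mog cd1q0 cd1q2a pd2 false true true .pp 0 2 2
    ndB1q0 ndB1q2a pcB2 cut_pp_022_a Ext.none :=
  certB2 (fam := false) (s1 := true) (s2 := true) (a := 0) (b := 2) (c := 2) (cn := .pp) (n1 := ndB1q0) (n2 := ndB1q2a) (pc := pcB2) (cut := cut_pp_022_a) (xt := Ext.none) (P1 := 0) (W1 := 536870912) (P2 := 0) (W2 := 536870912) (P3 := 1040187392) (W3 := 5207648) (N0 := 3) (En := eng) (mo := mog) (C1 := cd1q0) (C2 := cd1q2a) (C3 := pd2)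
    rfl (fun _ => rfl) s8_pp_022_a

noncomputable def cut_pp_022_b : Cut := Cut.of [[⟨0, 0, 0, 22369621⟩, ⟨1, 1, 0, 22369621⟩, ⟨2, 1, 0, 22369621⟩]]

noncomputable def f_pp_022_b : ℕ → ℕ → ℕ → ℕ → Bool := onCell 1073741824 536870912 1239849684 370763052 1040187392 5207648
    (rowB 3 eng mog cd1q0 cd1q2b pd2 2 false true true .pp 0 2 2 (qsf 0 536870912 1239849684 370763052 2) ndB1q0 ndB1q2b pcB2 cut_pp_022_b Ext.none)

def k0_pp_022_b : ∃ t, chk3 f_pp_022_b t 1 1 1 = true :=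
  ⟨(a (a (b (b (a (b (a (l 16227824) (l 16093088)) (l 15922408)) (b (a (l 15968088) (l 15853872)) (l 15702160))) (a (b (l 15785048) (l 15622784)) (b (l 15510768) (l 15337288)))) (a (b (l 15414112) (l 15201296)) (b (l 15114208) (l 14884224)))) (b (b (a (b (a (l 15751752) (l 15663344)) (l 15437680)) (b (a (l 436506876871) (l 1)) (a (l 15342768) (l 15271456)))) (a (b (l 15270272) (l 15080216)) (b (l 15073496) (l 14860976)))) (b (a (l 14835224) (l 14586936)) (a (l 14578152) (l 14293792))))) (b (a (b (l 1) (a (b (a (l 14958888) (l 14906024)) (l 14586416)) (b (l 1) (l 486433786471)))) (l 1)) (a (b (a (b (l 14474112) (l 14281696)) (b (l 339867538135) (l 14112368))) (a (l 14042280) (l 13835560))) (b (a (b (l 1) (l 418787484823)) (l 1)) (a (b (l 13781512) (l 13584344)) (b (l 456904680103) (l 13490456))))))), by decide +kernel⟩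

theorem c_pp_022_b : CertB 0 536870912 1239849684 370763052 1040187392 5207648 3 eng mog cd1q0 cd1q2b pd2 false true true .pp 0 2 2
    ndB1q0 ndB1q2b pcB2 cut_pp_022_b Ext.none :=
  certB2 (fam := false) (s1 := true) (s2 := true) (a := 0) (b := 2) (c := 2) (cn := .pp) (n1 := ndB1q0) (n2 := ndB1q2b) (pc := pcB2) (cut := cut_pp_022_b) (xt := Ext.none) (P1 := 0) (W1 := 536870912) (P2 := 1239849684) (W2 := 370763052) (P3 := 1040187392) (W3 := 5207648) (N0 := 3) (En := eng) (mo := mog) (C1 := cd1q0) (C2 := cd1q2b) (C3 := pd2)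
    rfl (fun _ => rfl) k0_pp_022_b

noncomputable def f_pp_023 : ℕ → ℕ → ℕ → ℕ → Bool := onCell 1073741824 536870912 1610612736 536870912 1040187392 5207648
    (rowB 3 eng mog cd1q0 cd1q3 pd2 2 false true true .up 0 2 3 (qsf 0 536870912 1610612736 536870912 2) ndB1q0 ndB1q3 pcB2 Cut.none Ext.none)

def k0_pp_023 : ∃ t, chk3 f_pp_023 t 1 1 1 = true :=
  ⟨(a (b (a (b (a (l 14748464) (l 14411480)) (a (l 2) (l 14478976))) (b (a (l 14074624) (l 13749688)) (a (l 14116056) (l 13751912)))) (b (a (l 2) (a (l 2) (l 13966992))) (l 2))) (a (b (b (a (l 13449232) (b (l 13245544) (l 13128032))) (a (l 13401904) (l 13081520))) (b (a (l 13574248) (l 13203240)) (b (l 13594352) (l 2)))) (b (b (a (b (l 13048832) (l 12897728)) (b (a (l 12939776) (l 12906480)) (a (l 12865440) (b (l 12795568) (l 12879192))))) (a (b (l 12813392) (l 12833488)) (b (a (l 12787200) (l 13059776)) (l 13145496)))) (b (a (a (l 12950824) (l 12979192)) (l 13322080)) (a (b (l 13197864) (l 414557676599))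 (b (l 13878000) (l 14126144))))))), by decide +kernel⟩

theorem c_pp_023 : CertB 0 536870912 1610612736 536870912 1040187392 5207648 3 eng mog cd1q0 cd1q3 pd2 false true true .up 0 2 3
    ndB1q0 ndB1q3 pcB2 Cut.none Ext.none :=
  certB2 (fam := false) (s1 := true) (s2 := true) (a := 0) (b := 2) (c := 3) (cn := .up) (n1 := ndB1q0) (n2 := ndB1q3) (pc := pcB2) (cut := Cut.none) (xt := Ext.none) (P1 := 0) (W1 := 536870912) (P2 := 1610612736) (W2 := 536870912) (P3 := 1040187392) (W3 := 5207648) (N0 := 3) (En := eng) (mo := mog) (C1 := cd1q0) (C2 := cd1q3) (C3 := pd2)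
    rfl (fun _ => rfl) k0_pp_023

noncomputable def f_pp_033 : ℕ → ℕ → ℕ → ℕ → Bool := onCell 0 536870912 1610612736 536870912 1040187392 5207648
    (rowB 3 eng mog cd1q0 cd1q3 pd3 1 false true true .pnn 0 3 3 (qsf 0 536870912 1610612736 536870912 3) ndB1q0 ndB1q3 pcB3 Cut.none Ext.none)

def k0_pp_033 : ∃ t, chk3 f_pp_033 t 1 1 1 = true :=
  ⟨(a (b (b (b (a (a (l 15259048) (l 15667832)) (l 15999592)) (a (a (l 15325504) (l 15594000)) (l 15903320))) (a (b (b (l 15404816) (l 15352864)) (a (l 14974208) (l 4))) (b (l 15821648) (l 4)))) (a (l 4) (b (l 4) (a (b (l 4) (l 2)) (l 2))))) (b (a (b (b (l 16195616) (a (l 16100640) (l 16234760))) (b (a (l 16106064) (l 4)) (l 4))) (b (b (l 16438664) (a (l 16394624) (l 16578344))) (a (b (l 4) (l 2)) (l 2)))) (a (b (a (b (l 4) (l 2)) (l 2)) (l 2)) (l 2)))), by decide +kernel⟩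

theorem c_pp_033 : CertB 0 536870912 1610612736 536870912 1040187392 5207648 3 eng mog cd1q0 cd1q3 pd3 false true true .pnn 0 3 3
    ndB1q0 ndB1q3 pcB3 Cut.none Ext.none :=
  certB1 (fam := false) (s1 := true) (s2 := true) (a := 0) (b := 3) (c := 3) (cn := .pnn) (n1 := ndB1q0) (n2 := ndB1q3) (pc := pcB3) (cut := Cut.none) (xt := Ext.none) (P1 := 0) (W1 := 536870912) (P2 := 1610612736) (W2 := 536870912) (P3 := 1040187392) (W3 := 5207648) (N0 := 3) (En := eng) (mo := mog) (C1 := cd1q0) (C2 := cd1q3) (C3 := pd3)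
    rfl (fun _ => rfl) k0_pp_033

noncomputable def f_pp_101 : ℕ → ℕ → ℕ → ℕ → Bool := onCell 536870912 536870912 536870912 536870912 1040187392 5207648
    (rowB 3 eng mog cd1q1 cd1q1 pd0 0 false true true .npn 1 0 1 (qsf 536870912 536870912 536870912 536870912 0) ndB1q1 ndB1q1 pcB0 Cut.none Ext.none)

def k0_pp_101 : ∃ t, chk3 f_pp_101 t 1 1 1 = true :=
  ⟨(l 3), by decide +kernel⟩

theorem c_pp_101 : CertB 536870912 536870912 536870912 536870912 1040187392 5207648 3 eng mog cd1q1 cd1q1 pd0 false true true .npn 1 0 1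
    ndB1q1 ndB1q1 pcB0 Cut.none Ext.none :=
  certB0 (fam := false) (s1 := true) (s2 := true) (a := 1) (b := 0) (c := 1) (cn := .npn) (n1 := ndB1q1) (n2 := ndB1q1) (pc := pcB0) (cut := Cut.none) (xt := Ext.none) (P1 := 536870912) (W1 := 536870912) (P2 := 536870912) (W2 := 536870912) (P3 := 1040187392) (W3 := 5207648) (N0 := 3) (En := eng) (mo := mog) (C1 := cd1q1) (C2 := cd1q1) (C3 := pd0)
    rfl k0_pp_101

noncomputable def f_pp_102_a : ℕ → ℕ → ℕ → ℕ → Bool := onCell 0 536870912 0 536870912 1040187392 5207648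
    (rowB 3 eng mog cd1q1 cd1q2a pd0 2 false true true .npp 1 0 2 (qsf 536870912 536870912 0 536870912 0) ndB1q1 ndB1q2a pcB0 Cut.none Ext.none)

def k0_pp_102_a : ∃ t, chk3 f_pp_102_a t 1 1 1 = true :=
  ⟨(a (a (l 3) (l 3)) (l 3)), by decide +kernel⟩

theorem c_pp_102_a : CertB 536870912 536870912 0 536870912 1040187392 5207648 3 eng mog cd1q1 cd1q2a pd0 false true true .npp 1 0 2
    ndB1q1 ndB1q2a pcB0 Cut.none Ext.none :=
  certB2 (fam := false) (s1 := true) (s2 := true) (a := 1) (b := 0) (c := 2) (cn := .npp) (n1 := ndB1q1) (n2 := ndB1q2a) (pc := pcB0) (cut := Cut.none) (xt := Ext.none) (P1 := 536870912) (W1 := 536870912) (P2 := 0) (W2 := 536870912) (P3 := 1040187392) (W3 := 5207648) (N0 := 3) (En := eng) (mo := mog) (C1 := cd1q1) (C2 := cd1q2a) (C3 := pd0)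
    rfl (fun _ => rfl) k0_pp_102_a

noncomputable def f_pp_102_b : ℕ → ℕ → ℕ → ℕ → Bool := onCell 536870912 536870912 0 536870912 1040187392 5207648
    (rowB 3 eng mog cd1q1 cd1q2b pd0 1 false true true .npp 1 0 2 (qsf 536870912 536870912 1239849684 370763052 0) ndB1q1 ndB1q2b pcB0 Cut.none Ext.none)

def k0_pp_102_b : ∃ t, chk3 f_pp_102_b t 1 1 1 = true :=
  ⟨(a (a (l 1) (l 3)) (l 3)), by decide +kernel⟩

theorem c_pp_102_b : CertB 536870912 536870912 1239849684 370763052 1040187392 5207648 3 eng mog cd1q1 cd1q2b pd0 false true true .npp 1 0 2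
    ndB1q1 ndB1q2b pcB0 Cut.none Ext.none :=
  certB1 (fam := false) (s1 := true) (s2 := true) (a := 1) (b := 0) (c := 2) (cn := .npp) (n1 := ndB1q1) (n2 := ndB1q2b) (pc := pcB0) (cut := Cut.none) (xt := Ext.none) (P1 := 536870912) (W1 := 536870912) (P2 := 1239849684) (W2 := 370763052) (P3 := 1040187392) (W3 := 5207648) (N0 := 3) (En := eng) (mo := mog) (C1 := cd1q1) (C2 := cd1q2b) (C3 := pd0)
    rfl (fun _ => rfl) k0_pp_102_b

noncomputable def f_pp_112_a : ℕ → ℕ → ℕ → ℕ → Bool := onCell 536870912 536870912 0 536870912 1040187392 5207648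
    (rowB 3 eng mog cd1q1 cd1q2a pd1 0 false true true .dn 1 1 2 (qsf 536870912 536870912 0 536870912 1) ndB1q1 ndB1q2a pcB1 Cut.none Ext.none)

def k0_pp_112_a : ∃ t, chk3 f_pp_112_a t 1 1 1 = true :=
  ⟨(a (b (a (b (a (b (a (b (l 16118584) (l 16148392)) (b (l 16195448) (a (l 16248240) (b (l 16274320) (l 16287136))))) (a (b (a (l 16244488) (b (l 16262360) (l 16287560))) (a (l 68886192727) (l 3))) (b (a (l 62980608071) (l 3)) (l 3)))) (b (a (b (a (l 16253776) (b (l 16270144) (l 16286176))) (a (l 57611909719) (l 3))) (b (a (l 51706351431) (l 3)) (l 3))) (l 3))) (l 3)) (l 3)) (l 3)) (l 1)), by decide +kernel⟩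

theorem c_pp_112_a : CertB 536870912 536870912 0 536870912 1040187392 5207648 3 eng mog cd1q1 cd1q2a pd1 false true true .dn 1 1 2
    ndB1q1 ndB1q2a pcB1 Cut.none Ext.none :=
  certB0 (fam := false) (s1 := true) (s2 := true) (a := 1) (b := 1) (c := 2) (cn := .dn) (n1 := ndB1q1) (n2 := ndB1q2a) (pc := pcB1) (cut := Cut.none) (xt := Ext.none) (P1 := 536870912) (W1 := 536870912) (P2 := 0) (W2 := 536870912) (P3 := 1040187392) (W3 := 5207648) (N0 := 3) (En := eng) (mo := mog) (C1 := cd1q1) (C2 := cd1q2a) (C3 := pd1)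
    rfl k0_pp_112_a

noncomputable def f_pp_112_b : ℕ → ℕ → ℕ → ℕ → Bool := onCell 536870912 536870912 1239849684 370763052 1040187392 5207648
    (rowB 3 eng mog cd1q1 cd1q2b pd1 2 false true true .dn 1 1 2 (qsf 536870912 536870912 1239849684 370763052 1) ndB1q1 ndB1q2b pcB1 Cut.none Ext.none)

def k0_pp_112_b : ∃ t, chk3 f_pp_112_b t 1 1 1 = true :=
  ⟨(a (a (b (a (b (b (a (l 3) (a (l 3) (b (l 16308824) (l 16412584)))) (l 3)) (l 3)) (b (a (b (b (l 16241968) (l 16318120)) (a (l 16496888) (l 16485168))) (b (l 16208808) (l 16390184))) (a (b (l 16574496) (l 3)) (a (l 16431096) (l 16425816))))) (a (l 3) (b (a (l 3) (b (l 16595576) (l 3))) (l 3)))) (b (a (a (b (b (l 16142384) (l 16278920)) (b (l 16431936) (l 16577392))) (b (b (l 16082624) (l 16191184)) (l 16330368))) (b (a (l 16089464) (l 16074720)) (a (l 16291944) (l 16213848)))) (a (b (a (b (l 16749680) (l 16438304)) (b (l 16631464) (l 16653112))) (a (l 129551862615) (l 45800194119))) (b (b (l 16439272)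 (l 16588240)) (a (l 16312288) (l 16538688)))))) (a (b (b (l 1) (a (a (l 16161888) (l 16140952)) (l 16168304))) (a (b (l 16040048) (b (l 16461040) (l 16518344))) (b (l 16158384) (l 16265304)))) (b (l 1) (a (b (l 16114240) (l 16091448)) (b (l 1) (l 16005992)))))), by decide +kernel⟩

theorem c_pp_112_b : CertB 536870912 536870912 1239849684 370763052 1040187392 5207648 3 eng mog cd1q1 cd1q2b pd1 false true true .dn 1 1 2
    ndB1q1 ndB1q2b pcB1 Cut.none Ext.none :=
  certB2 (fam := false) (s1 := true) (s2 := true) (a := 1) (b := 1) (c := 2) (cn := .dn) (n1 := ndB1q1) (n2 := ndB1q2b) (pc := pcB1) (cut := Cut.none) (xt := Ext.none) (P1 := 536870912) (W1 := 536870912) (P2 := 1239849684) (W2 := 370763052) (P3 := 1040187392) (W3 := 5207648) (N0 := 3) (En := eng) (mo := mog) (C1 := cd1q1) (C2 := cd1q2b) (C3 := pd1)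
    rfl (fun _ => rfl) k0_pp_112_b

noncomputable def f_pp_113 : ℕ → ℕ → ℕ → ℕ → Bool := onCell 536870912 536870912 536870912 536870912 1040187392 5207648
    (rowB 3 eng mog cd1q1 cd1q3 pd1 1 false true true .nn 1 1 3 (qsf 536870912 536870912 1610612736 536870912 1) ndB1q1 ndB1q3 pcB1 Cut.none Ext.none)

def k0_pp_113 : ∃ t, chk3 f_pp_113 t 1 1 1 = true :=
  ⟨(b (a (b (l 1) (a (l 1) (b (l 1) (l 315175886471)))) (b (a (l 3) (l 3)) (a (b (a (l 249140427463) (l 198808050711)) (a (l 16259264) (b (l 15943656) (l 15882032)))) (b (l 3) (a (l 229408769063) (l 3)))))) (b (a (a (b (l 1) (a (l 1) (l 16467864))) (b (a (l 16642040) (l 16380984)) (a (l 16276584) (l 16050624)))) (a (b (a (l 16088328) (l 15772024)) (a (l 15807800) (l 15541040))) (b (a (l 178405665335) (b (l 15173992) (l 15105000))) (a (l 15268584) (b (l 15040072) (l 14978504)))))) (b (a (a (l 16154024) (a (l 15877304) (l 15671472))) (a (b (l 15418688) (l 15236256)) (b (a (l 15098096) (l 14931560))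 (a (l 14974976) (l 14936600))))) (a (a (l 15895936) (l 15382984)) (a (b (l 15096176) (l 15022192)) (b (a (l 14880272) (l 15091976)) (a (l 14889464) (a (l 15260240) (l 16587312))))))))), by decide +kernel⟩

theorem c_pp_113 : CertB 536870912 536870912 1610612736 536870912 1040187392 5207648 3 eng mog cd1q1 cd1q3 pd1 false true true .nn 1 1 3
    ndB1q1 ndB1q3 pcB1 Cut.none Ext.none :=
  certB1 (fam := false) (s1 := true) (s2 := true) (a := 1) (b := 1) (c := 3) (cn := .nn) (n1 := ndB1q1) (n2 := ndB1q3) (pc := pcB1) (cut := Cut.none) (xt := Ext.none) (P1 := 536870912) (W1 := 536870912) (P2 := 1610612736) (W2 := 536870912) (P3 := 1040187392) (W3 := 5207648) (N0 := 3) (En := eng) (mo := mog) (C1 := cd1q1) (C2 := cd1q3) (C3 := pd1)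
    rfl (fun _ => rfl) k0_pp_113

noncomputable def f_pp_123 : ℕ → ℕ → ℕ → ℕ → Bool := onCell 1073741824 536870912 1610612736 536870912 1040187392 5207648
    (rowB 3 eng mog cd1q1 cd1q3 pd2 2 false true true .npn 1 2 3 (qsf 536870912 536870912 1610612736 536870912 2) ndB1q1 ndB1q3 pcB2 Cut.none Ext.none)

def k0_pp_123 : ∃ t, chk3 f_pp_123 t 1 1 1 = true :=
  ⟨(a (b (a (b (a (b (l 15535288) (l 15437320)) (l 221220254823)) (a (b (l 15322112) (l 15203104)) (b (l 14876824) (l 14820232)))) (b (a (l 241083423559) (l 1)) (a (l 14151488) (l 13864096)))) (b (a (a (b (l 15104960) (l 15080240)) (l 14913056)) (a (l 14351264) (l 13830448))) (a (b (a (a (l 15223400) (l 15235632)) (l 15052936)) (a (b (l 15858200) (l 16253152)) (b (l 15448736) (l 15929144)))) (b (a (l 14557552) (l 13955688)) (a (l 14991200) (l 14235696)))))) (b (a (b (l 1) (a (l 13406056) (l 1))) (l 1)) (a (b (a (l 13319200) (l 12846288)) (b (a (l 13351008) (l 12804384)) (a (l 13498984) (l 12839960))))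 (b (a (a (l 12589968) (l 1)) (l 1)) (a (b (l 12535376) (a (l 12447984) (l 12600968))) (b (l 13209496) (l 13218728))))))), by decide +kernel⟩

theorem c_pp_123 : CertB 536870912 536870912 1610612736 536870912 1040187392 5207648 3 eng mog cd1q1 cd1q3 pd2 false true true .npn 1 2 3
    ndB1q1 ndB1q3 pcB2 Cut.none Ext.none :=
  certB2 (fam := false) (s1 := true) (s2 := true) (a := 1) (b := 2) (c := 3) (cn := .npn) (n1 := ndB1q1) (n2 := ndB1q3) (pc := pcB2) (cut := Cut.none) (xt := Ext.none) (P1 := 536870912) (W1 := 536870912) (P2 := 1610612736) (W2 := 536870912) (P3 := 1040187392) (W3 := 5207648) (N0 := 3) (En := eng) (mo := mog) (C1 := cd1q1) (C2 := cd1q3) (C3 := pd2)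
    rfl (fun _ => rfl) k0_pp_123

noncomputable def f_pp_133 : ℕ → ℕ → ℕ → ℕ → Bool := onCell 1610612736 536870912 1610612736 536870912 1040187392 5207648
    (rowB 3 eng mog cd1q1 cd1q3 pd3 2 false true true .dn 1 3 3 (qsf 536870912 536870912 1610612736 536870912 3) ndB1q1 ndB1q3 pcB3 Cut.none Ext.none)

def k0_pp_133 : ∃ t, chk3 f_pp_133 t 1 1 1 = true :=
  ⟨(a (b (l 1) (a (b (l 1) (a (l 314099973351) (l 1))) (l 1))) (l 1)), by decide +kernel⟩

theorem c_pp_133 : CertB 536870912 536870912 1610612736 536870912 1040187392 5207648 3 eng mog cd1q1 cd1q3 pd3 false true true .dn 1 3 3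
    ndB1q1 ndB1q3 pcB3 Cut.none Ext.none :=
  certB2 (fam := false) (s1 := true) (s2 := true) (a := 1) (b := 3) (c := 3) (cn := .dn) (n1 := ndB1q1) (n2 := ndB1q3) (pc := pcB3) (cut := Cut.none) (xt := Ext.none) (P1 := 536870912) (W1 := 536870912) (P2 := 1610612736) (W2 := 536870912) (P3 := 1040187392) (W3 := 5207648) (N0 := 3) (En := eng) (mo := mog) (C1 := cd1q1) (C2 := cd1q3) (C3 := pd3)
    rfl (fun _ => rfl) k0_pp_133

noncomputable def f_pp_202_aa : ℕ → ℕ → ℕ → ℕ → Bool := onCell 0 536870912 0 536870912 1040187392 5207648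
    (rowB 3 eng mog cd1q2a cd1q2a pd0 0 false true true .pp 2 0 2 (qsf 0 536870912 0 536870912 0) ndB1q2a ndB1q2a pcB0 Cut.none Ext.none)

def k0_pp_202_aa : ∃ t, chk3 f_pp_202_aa t 1 1 1 = true :=
  ⟨(l 3), by decide +kernel⟩

theorem c_pp_202_aa : CertB 0 536870912 0 536870912 1040187392 5207648 3 eng mog cd1q2a cd1q2a pd0 false true true .pp 2 0 2
    ndB1q2a ndB1q2a pcB0 Cut.none Ext.none :=
  certB0 (fam := false) (s1 := true) (s2 := true) (a := 2) (b := 0) (c := 2) (cn := .pp) (n1 := ndB1q2a) (n2 := ndB1q2a) (pc := pcB0) (cut := Cut.none) (xt := Ext.none) (P1 := 0) (W1 := 536870912) (P2 := 0) (W2 := 536870912) (P3 := 1040187392) (W3 := 5207648) (N0 := 3) (En := eng) (mo := mog) (C1 := cd1q2a) (C2 := cd1q2a) (C3 := pd0)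
    rfl k0_pp_202_aa

noncomputable def f_pp_202_ab : ℕ → ℕ → ℕ → ℕ → Bool := onCell 0 536870912 1239849684 370763052 1040187392 5207648
    (rowB 3 eng mog cd1q2a cd1q2b pd0 0 false true true .pp 2 0 2 (qsf 0 536870912 1239849684 370763052 0) ndB1q2a ndB1q2b pcB0 Cut.none Ext.none)

def k0_pp_202_ab : ∃ t, chk3 f_pp_202_ab t 1 1 1 = true :=
  ⟨(l 3), by decide +kernel⟩

theorem c_pp_202_ab : CertB 0 536870912 1239849684 370763052 1040187392 5207648 3 eng mog cd1q2a cd1q2b pd0 false true true .pp 2 0 2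
    ndB1q2a ndB1q2b pcB0 Cut.none Ext.none :=
  certB0 (fam := false) (s1 := true) (s2 := true) (a := 2) (b := 0) (c := 2) (cn := .pp) (n1 := ndB1q2a) (n2 := ndB1q2b) (pc := pcB0) (cut := Cut.none) (xt := Ext.none) (P1 := 0) (W1 := 536870912) (P2 := 1239849684) (W2 := 370763052) (P3 := 1040187392) (W3 := 5207648) (N0 := 3) (En := eng) (mo := mog) (C1 := cd1q2a) (C2 := cd1q2b) (C3 := pd0)
    rfl k0_pp_202_ab

noncomputable def f_pp_202_ba : ℕ → ℕ → ℕ → ℕ → Bool := onCell 1239849684 370763052 0 536870912 1040187392 5207648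
    (rowB 3 eng mog cd1q2b cd1q2a pd0 0 false true true .pp 2 0 2 (qsf 1239849684 370763052 0 536870912 0) ndB1q2b ndB1q2a pcB0 Cut.none Ext.none)

def k0_pp_202_ba : ∃ t, chk3 f_pp_202_ba t 1 1 1 = true :=
  ⟨(l 3), by decide +kernel⟩

theorem c_pp_202_ba : CertB 1239849684 370763052 0 536870912 1040187392 5207648 3 eng mog cd1q2b cd1q2a pd0 false true true .pp 2 0 2
    ndB1q2b ndB1q2a pcB0 Cut.none Ext.none :=
  certB0 (fam := false) (s1 := true) (s2 := true) (a := 2) (b := 0) (c := 2) (cn := .pp) (n1 := ndB1q2b) (n2 := ndB1q2a) (pc := pcB0) (cut := Cut.none) (xt := Ext.none) (P1 := 1239849684) (W1 := 370763052) (P2 := 0) (W2 := 536870912) (P3 := 1040187392) (W3 := 5207648) (N0 := 3) (En := eng) (mo := mog) (C1 := cd1q2b) (C2 := cd1q2a) (C3 := pd0)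
    rfl k0_pp_202_ba

noncomputable def f_pp_202_bb : ℕ → ℕ → ℕ → ℕ → Bool := onCell 1239849684 370763052 1239849684 370763052 1040187392 5207648
    (rowB 3 eng mog cd1q2b cd1q2b pd0 0 false true true .pp 2 0 2 (qsf 1239849684 370763052 1239849684 370763052 0) ndB1q2b ndB1q2b pcB0 Cut.none Ext.none)

def k0_pp_202_bb : ∃ t, chk3 f_pp_202_bb t 1 1 1 = true :=
  ⟨(l 3), by decide +kernel⟩

theorem c_pp_202_bb : CertB 1239849684 370763052 1239849684 370763052 1040187392 5207648 3 eng mog cd1q2b cd1q2b pd0 false true true .pp 2 0 2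
    ndB1q2b ndB1q2b pcB0 Cut.none Ext.none :=
  certB0 (fam := false) (s1 := true) (s2 := true) (a := 2) (b := 0) (c := 2) (cn := .pp) (n1 := ndB1q2b) (n2 := ndB1q2b) (pc := pcB0) (cut := Cut.none) (xt := Ext.none) (P1 := 1239849684) (W1 := 370763052) (P2 := 1239849684) (W2 := 370763052) (P3 := 1040187392) (W3 := 5207648) (N0 := 3) (En := eng) (mo := mog) (C1 := cd1q2b) (C2 := cd1q2b) (C3 := pd0)
    rfl k0_pp_202_bb

noncomputable def f_pp_203_a : ℕ → ℕ → ℕ → ℕ → Bool := onCell 0 536870912 0 536870912 1040187392 5207648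
    (rowB 3 eng mog cd1q2a cd1q3 pd0 1 false true true .up 2 0 3 (qsf 0 536870912 1610612736 536870912 0) ndB1q2a ndB1q3 pcB0 Cut.none Ext.none)

def k0_pp_203_a : ∃ t, chk3 f_pp_203_a t 1 1 1 = true :=
  ⟨(l 3), by decide +kernel⟩

theorem c_pp_203_a : CertB 0 536870912 1610612736 536870912 1040187392 5207648 3 eng mog cd1q2a cd1q3 pd0 false true true .up 2 0 3
    ndB1q2a ndB1q3 pcB0 Cut.none Ext.none :=
  certB1 (fam := false) (s1 := true) (s2 := true) (a := 2) (b := 0) (c := 3) (cn := .up) (n1 := ndB1q2a) (n2 := ndB1q3) (pc := pcB0) (cut := Cut.none) (xt := Ext.none) (P1 := 0) (W1 := 536870912) (P2 := 1610612736) (W2 := 536870912) (P3 := 1040187392) (W3 := 5207648) (N0 := 3) (En := eng) (mo := mog) (C1 := cd1q2a) (C2 := cd1q3) (C3 := pd0)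
    rfl (fun _ => rfl) k0_pp_203_a

noncomputable def f_pp_203_b : ℕ → ℕ → ℕ → ℕ → Bool := onCell 1239849684 370763052 1610612736 536870912 1040187392 5207648
    (rowB 3 eng mog cd1q2b cd1q3 pd0 0 false true true .up 2 0 3 (qsf 1239849684 370763052 1610612736 536870912 0) ndB1q2b ndB1q3 pcB0 Cut.none Ext.none)

def k0_pp_203_b : ∃ t, chk3 f_pp_203_b t 1 1 1 = true :=
  ⟨(l 3), by decide +kernel⟩

theorem c_pp_203_b : CertB 1239849684 370763052 1610612736 536870912 1040187392 5207648 3 eng mog cd1q2b cd1q3 pd0 false true true .up 2 0 3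
    ndB1q2b ndB1q3 pcB0 Cut.none Ext.none :=
  certB0 (fam := false) (s1 := true) (s2 := true) (a := 2) (b := 0) (c := 3) (cn := .up) (n1 := ndB1q2b) (n2 := ndB1q3) (pc := pcB0) (cut := Cut.none) (xt := Ext.none) (P1 := 1239849684) (W1 := 370763052) (P2 := 1610612736) (W2 := 536870912) (P3 := 1040187392) (W3 := 5207648) (N0 := 3) (En := eng) (mo := mog) (C1 := cd1q2b) (C2 := cd1q3) (C3 := pd0)
    rfl k0_pp_203_b

noncomputable def cut_pp_213_a : Cut := Cut.of [[⟨0, 1, 0, 15728640⟩, ⟨1, 1, 0, 15728640⟩, ⟨2, 2, 0, 524288⟩]]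

noncomputable def f_pp_213_a : ℕ → ℕ → ℕ → ℕ → Bool := onCell 0 536870912 1610612736 536870912 1040187392 5207648
    (rowB 3 eng mog cd1q2a cd1q3 pd1 0 false true true .pnn 2 1 3 (qsf 0 536870912 1610612736 536870912 1) ndB1q2a ndB1q3 pcB1 cut_pp_213_a Ext.none)

def k0_pp_213_a : ∃ t, chk3 f_pp_213_a t 1 1 1 = true :=
  ⟨(a (l 3) (b (l 3) (b (l 3) (a (l 3) (b (l 3) (a (l 3) (b (l 3) (a (l 3) (b (l 3) (a (l 3) (b (l 3) (a (l 3) (b (l 3) (b (l 3) (b (l 3) (b (l 3) (b (l 3) (l 6)))))))))))))))))), by decide +kernel⟩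

theorem c_pp_213_a : CertB 0 536870912 1610612736 536870912 1040187392 5207648 3 eng mog cd1q2a cd1q3 pd1 false true true .pnn 2 1 3
    ndB1q2a ndB1q3 pcB1 cut_pp_213_a Ext.none :=
  certB0 (fam := false) (s1 := true) (s2 := true) (a := 2) (b := 1) (c := 3) (cn := .pnn) (n1 := ndB1q2a) (n2 := ndB1q3) (pc := pcB1) (cut := cut_pp_213_a) (xt := Ext.none) (P1 := 0) (W1 := 536870912) (P2 := 1610612736) (W2 := 536870912) (P3 := 1040187392) (W3 := 5207648) (N0 := 3) (En := eng) (mo := mog) (C1 := cd1q2a) (C2 := cd1q3) (C3 := pd1)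
    rfl k0_pp_213_a

noncomputable def cut_pp_213_b : Cut := Cut.of [[⟨0, 1, 0, 15728640⟩, ⟨1, 1, 0, 15728640⟩, ⟨2, 2, 0, 524288⟩]]

noncomputable def f_pp_213_b : ℕ → ℕ → ℕ → ℕ → Bool := onCell 1239849684 370763052 1610612736 536870912 1040187392 5207648
    (rowB 3 eng mog cd1q2b cd1q3 pd1 0 false true true .pnn 2 1 3 (qsf 1239849684 370763052 1610612736 536870912 1) ndB1q2b ndB1q3 pcB1 cut_pp_213_b Ext.none)

def k0_pp_213_b : ∃ t, chk3 f_pp_213_b t 1 1 1 = true :=
  ⟨(l 3), by decide +kernel⟩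

theorem c_pp_213_b : CertB 1239849684 370763052 1610612736 536870912 1040187392 5207648 3 eng mog cd1q2b cd1q3 pd1 false true true .pnn 2 1 3
    ndB1q2b ndB1q3 pcB1 cut_pp_213_b Ext.none :=
  certB0 (fam := false) (s1 := true) (s2 := true) (a := 2) (b := 1) (c := 3) (cn := .pnn) (n1 := ndB1q2b) (n2 := ndB1q3) (pc := pcB1) (cut := cut_pp_213_b) (xt := Ext.none) (P1 := 1239849684) (W1 := 370763052) (P2 := 1610612736) (W2 := 536870912) (P3 := 1040187392) (W3 := 5207648) (N0 := 3) (En := eng) (mo := mog) (C1 := cd1q2b) (C2 := cd1q3) (C3 := pd1)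
    rfl k0_pp_213_b

noncomputable def f_pp_303 : ℕ → ℕ → ℕ → ℕ → Bool := onCell 1610612736 536870912 1610612736 536870912 1040187392 5207648
    (rowB 3 eng mog cd1q3 cd1q3 pd0 0 false true true .npn 3 0 3 (qsf 1610612736 536870912 1610612736 536870912 0) ndB1q3 ndB1q3 pcB0 Cut.none Ext.none)

def k0_pp_303 : ∃ t, chk3 f_pp_303 t 1 1 1 = true :=
  ⟨(l 3), by decide +kernel⟩

theorem c_pp_303 : CertB 1610612736 536870912 1610612736 536870912 1040187392 5207648 3 eng mog cd1q3 cd1q3 pd0 false true true .npn 3 0 3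
    ndB1q3 ndB1q3 pcB0 Cut.none Ext.none :=
  certB0 (fam := false) (s1 := true) (s2 := true) (a := 3) (b := 0) (c := 3) (cn := .npn) (n1 := ndB1q3) (n2 := ndB1q3) (pc := pcB0) (cut := Cut.none) (xt := Ext.none) (P1 := 1610612736) (W1 := 536870912) (P2 := 1610612736) (W2 := 536870912) (P3 := 1040187392) (W3 := 5207648) (N0 := 3) (En := eng) (mo := mog) (C1 := cd1q3) (C2 := cd1q3) (C3 := pd0)
    rfl k0_pp_303

noncomputable def f_pp_313 : ℕ → ℕ → ℕ → ℕ → Bool := onCell 1610612736 536870912 1610612736 536870912 1040187392 5207648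
    (rowB 3 eng mog cd1q3 cd1q3 pd1 0 false true true .dn 3 1 3 (qsf 1610612736 536870912 1610612736 536870912 1) ndB1q3 ndB1q3 pcB1 Cut.none Ext.none)

def k0_pp_313 : ∃ t, chk3 f_pp_313 t 1 1 1 = true :=
  ⟨(l 3), by decide +kernel⟩

theorem c_pp_313 : CertB 1610612736 536870912 1610612736 536870912 1040187392 5207648 3 eng mog cd1q3 cd1q3 pd1 false true true .dn 3 1 3
    ndB1q3 ndB1q3 pcB1 Cut.none Ext.none :=
  certB0 (fam := false) (s1 := true) (s2 := true) (a := 3) (b := 1) (c := 3) (cn := .dn) (n1 := ndB1q3) (n2 := ndB1q3) (pc := pcB1) (cut := Cut.none) (xt := Ext.none) (P1 := 1610612736) (W1 := 536870912) (P2 := 1610612736) (W2 := 536870912) (P3 := 1040187392) (W3 := 5207648) (N0 := 3) (En := eng) (mo := mog) (C1 := cd1q3) (C2 := cd1q3) (C3 := pd1)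
    rfl k0_pp_313

noncomputable def f_pm_001 : ℕ → ℕ → ℕ → ℕ → Bool := onCell 0 536870912 536870912 536870912 1040187392 5207648
    (rowB 3 eng mog cd1q0 cd1q1 pd0 0 false true false .up 0 0 1 (qsf 0 536870912 536870912 536870912 0) ndB1q0 ndB1q1 pcB0 Cut.none Ext.none)

def k0_pm_001 : ∃ t, chk3 f_pm_001 t 1 1 1 = true :=
  ⟨(l 4), by decide +kernel⟩

theorem c_pm_001 : CertB 0 536870912 536870912 536870912 1040187392 5207648 3 eng mog cd1q0 cd1q1 pd0 false true false .up 0 0 1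
    ndB1q0 ndB1q1 pcB0 Cut.none Ext.none :=
  certB0 (fam := false) (s1 := true) (s2 := false) (a := 0) (b := 0) (c := 1) (cn := .up) (n1 := ndB1q0) (n2 := ndB1q1) (pc := pcB0) (cut := Cut.none) (xt := Ext.none) (P1 := 0) (W1 := 536870912) (P2 := 536870912) (W2 := 536870912) (P3 := 1040187392) (W3 := 5207648) (N0 := 3) (En := eng) (mo := mog) (C1 := cd1q0) (C2 := cd1q1) (C3 := pd0)
    rfl k0_pm_001

noncomputable def f_pm_011 : ℕ → ℕ → ℕ → ℕ → Bool := onCell 0 536870912 536870912 536870912 1040187392 5207648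
    (rowB 3 eng mog cd1q0 cd1q1 pd1 0 false true false .pnn 0 1 1 (qsf 0 536870912 536870912 536870912 1) ndB1q0 ndB1q1 pcB1 Cut.none Ext.none)

def k0_pm_011 : ∃ t, chk3 f_pm_011 t 1 1 1 = true :=
  ⟨(l 4), by decide +kernel⟩

theorem c_pm_011 : CertB 0 536870912 536870912 536870912 1040187392 5207648 3 eng mog cd1q0 cd1q1 pd1 false true false .pnn 0 1 1
    ndB1q0 ndB1q1 pcB1 Cut.none Ext.none :=
  certB0 (fam := false) (s1 := true) (s2 := false) (a := 0) (b := 1) (c := 1) (cn := .pnn) (n1 := ndB1q0) (n2 := ndB1q1) (pc := pcB1) (cut := Cut.none) (xt := Ext.none) (P1 := 0) (W1 := 536870912) (P2 := 536870912) (W2 := 536870912) (P3 := 1040187392) (W3 := 5207648) (N0 := 3) (En := eng) (mo := mog) (C1 := cd1q0) (C2 := cd1q1) (C3 := pd1)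
    rfl k0_pm_011

noncomputable def cut_pm_012_a : Cut := Cut.of [[⟨0, 0, 0, 26843545⟩, ⟨1, 1, 0, 26843545⟩, ⟨2, 1, 0, 26843545⟩]]

noncomputable def xt_pm_012_a : Ext := extD3 3 ⟨4, 1, 1, 5, 33, 5, 163, 200, 81, 200, 1, 64⟩ eng cd1q0 cd1q2a pd1 false true false .pnp 0 1 2 rfl ndB1q0 ndB1q2a pcB1

noncomputable def f_pm_012_a : ℕ → ℕ → ℕ → ℕ → Bool := onCell 536870912 536870912 0 536870912 1040187392 5207648
    (rowB 3 eng mog cd1q0 cd1q2a pd1 2 false true false .pnp 0 1 2 (qsf 0 536870912 0 536870912 1) ndB1q0 ndB1q2a pcB1 cut_pm_012_a xt_pm_012_a)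

def k0_pm_012_a : ∃ t, chk3 f_pm_012_a t 2 1 1 = true :=
  ⟨(b (a (b (l 2) (b (l 2) (l 15441680))) (b (a (b (l 15957848) (b (l 15780216) (l 15678496))) (b (l 15973120) (l 15829128))) (a (l 15565480) (l 15678488)))) (a (b (a (l 2) (l 15406672)) (b (a (l 15506040) (b (l 15439760) (l 15591680))) (a (l 15795776) (l 15852776)))) (b (a (l 15464688) (l 15561856)) (b (a (b (l 15478240) (l 15624200)) (b (l 15561264) (l 15673080))) (a (b (l 15821752) (l 16031344)) (b (l 15895600) (l 16130872))))))), by decide +kernel⟩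

def k1_pm_012_a : ∃ t, chk3 f_pm_012_a t 6 1 1 = true :=
  ⟨(b (b (a (b (l 16084272) (l 15996984)) (b (l 16246728) (l 16194704))) (a (l 15827776) (l 16011296))) (b (a (b (l 15712496) (l 15682560)) (b (l 15886624) (l 15858088))) (b (a (b (l 15688288) (a (l 15730264) (l 15788464))) (b (l 15868656) (a (l 15800800) (l 15957240)))) (a (b (l 15855992) (a (l 16213088) (l 16269768))) (b (a (l 16053264) (b (l 16036368) (l 16171584))) (a (l 16285592) (l 16217832))))))), by decide +kernel⟩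

def k2_pm_012_a : ∃ t, chk3 f_pm_012_a t 7 1 1 = true :=
  ⟨(b (a (b (b (l 16329920) (l 16423792)) (b (l 16280064) (l 16168576))) (b (a (l 16305864) (l 16254024)) (a (l 16341472) (l 16343256)))) (a (b (b (l 16096304) (a (l 16014568) (l 16131056))) (b (a (l 16047504) (l 16107648)) (a (b (b (a (l 16088680) (l 16138480)) (l 16222696)) (b (l 16368768) (l 16455344))) (b (b (l 16229272) (a (l 16266968) (b (l 16291272) (l 16328928)))) (b (a (l 16409776) (l 16436096)) (a (l 16540960) (l 16526840))))))) (b (a (b (l 16274656) (l 16256560)) (b (l 16403112) (a (l 16355960) (l 16425008)))) (b (a (b (l 16282088) (l 16324296)) (b (a (l 16386128) (l 16458544)) (a (l 16432272) (l 16444664)))) (a (b (a (b (l 16332728) (a (l 16354904) (l 16387616))) (l 16424544)) (b (a (b (a (l 16417088) (l 16434784)) (l 16500008)) (b (a (l 16461952) (l 16495328)) (a (l 16518600) (l 141788380458778687)))) (a (b (l 16577496) (l 16634840)) (b (a (l 16596624) (l 16608824)) (b (l 16661728)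 (l 16659952)))))) (b (a (b (l 16480344) (l 16520424)) (a (l 16496272) (b (l 16577864) (l 16620256)))) (a (b (a (b (l 16534448) (l 141842531464822847)) (l 16586896)) (b (a (l 142375313682841663) (b (l 142372427473977471) (l 142715750036373631))) (b (l 142386446285652031) (a (l 16699040) (a (l 16707672) (l 6)))))) (b (a (b (l 16614824) (l 16640464)) (a (l 16637744) (l 6))) (a (b (b (l 16660760) (l 6)) (l 6)) (l 6)))))))))), by decide +kernel⟩

theorem s3_pm_012_a : ∃ t, chk3 f_pm_012_a t 3 1 1 = true := ex3_a k1_pm_012_a k2_pm_012_a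

theorem s4_pm_012_a : ∃ t, chk3 f_pm_012_a t 1 1 1 = true := ex3_a k0_pm_012_a s3_pm_012_a

theorem c_pm_012_a : CertB 0 536870912 0 536870912 1040187392 5207648 3 eng mog cd1q0 cd1q2a pd1 false true false .pnp 0 1 2
    ndB1q0 ndB1q2a pcB1 cut_pm_012_a xt_pm_012_a :=
  certB2 (fam := false) (s1 := true) (s2 := false) (a := 0) (b := 1) (c := 2) (cn := .pnp) (n1 := ndB1q0) (n2 := ndB1q2a) (pc := pcB1) (cut := cut_pm_012_a) (xt := xt_pm_012_a) (P1 := 0) (W1 := 536870912) (P2 := 0) (W2 := 536870912) (P3 := 1040187392) (W3 := 5207648) (N0 := 3) (En := eng) (mo := mog) (C1 := cd1q0) (C2 := cd1q2a) (C3 := pd1)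
    rfl (fun _ => rfl) s4_pm_012_a

noncomputable def cut_pm_012_b : Cut := Cut.of [[⟨0, 0, 0, 26843545⟩, ⟨1, 1, 0, 26843545⟩, ⟨2, 1, 0, 26843545⟩]]

noncomputable def f_pm_012_b : ℕ → ℕ → ℕ → ℕ → Bool := onCell 536870912 536870912 1239849684 370763052 1040187392 5207648
    (rowB 3 eng mog cd1q0 cd1q2b pd1 2 false true false .pnp 0 1 2 (qsf 0 536870912 1239849684 370763052 1) ndB1q0 ndB1q2b pcB1 cut_pm_012_b Ext.none)

def k0_pm_012_b : ∃ t, chk3 f_pm_012_b t 1 1 1 = true :=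
  ⟨(a (a (l 2) (b (a (b (l 16059040) (l 2)) (b (l 15975888) (l 15900552))) (l 2))) (a (b (a (b (l 16002768) (l 15820704)) (b (l 16055752) (l 15868520))) (a (l 2) (b (l 15690608) (l 2)))) (b (a (b (a (l 16313376) (l 16462704)) (l 16041880)) (b (a (l 16380168) (l 16191392)) (a (l 16249520) (l 16377496)))) (a (b (l 15779256) (l 15599896)) (b (l 15864864) (l 15757856)))))), by decide +kernel⟩

theorem c_pm_012_b : CertB 0 536870912 1239849684 370763052 1040187392 5207648 3 eng mog cd1q0 cd1q2b pd1 false true false .pnp 0 1 2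
    ndB1q0 ndB1q2b pcB1 cut_pm_012_b Ext.none :=
  certB2 (fam := false) (s1 := true) (s2 := false) (a := 0) (b := 1) (c := 2) (cn := .pnp) (n1 := ndB1q0) (n2 := ndB1q2b) (pc := pcB1) (cut := cut_pm_012_b) (xt := Ext.none) (P1 := 0) (W1 := 536870912) (P2 := 1239849684) (W2 := 370763052) (P3 := 1040187392) (W3 := 5207648) (N0 := 3) (En := eng) (mo := mog) (C1 := cd1q0) (C2 := cd1q2b) (C3 := pd1)
    rfl (fun _ => rfl) k0_pm_012_b

noncomputable def cut_pm_022_a : Cut := Cut.of [[⟨0, 0, 0, 26843545⟩, ⟨1, 1, 0, 26843545⟩, ⟨2, 1, 0, 26843545⟩]]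

noncomputable def f_pm_022_a : ℕ → ℕ → ℕ → ℕ → Bool := onCell 1073741824 536870912 0 536870912 1040187392 5207648
    (rowB 3 eng mog cd1q0 cd1q2a pd2 2 false true false .pp 0 2 2 (qsf 0 536870912 0 536870912 2) ndB1q0 ndB1q2a pcB2 cut_pm_022_a Ext.none)

def k0_pm_022_a : ∃ t, chk3 f_pm_022_a t 2 2 1 = true :=
  ⟨(a (a (b (a (b (a (l 16389744) (l 16232280)) (l 16248720)) (b (l 16009592) (l 16023928))) (a (b (l 16228440) (l 16225256)) (b (l 16073536) (l 16159120)))) (b (a (b (l 15739232) (l 15822088)) (b (b (l 15478808) (l 15515144)) (l 15650792))) (a (b (l 15955160) (l 16100336)) (b (a (l 15877600) (l 15829856)) (a (l 16094512) (l 16076264)))))) (a (b (a (b (b (b (l 15253336) (l 15245672)) (l 15324080)) (a (l 15540264) (l 15475672))) (b (l 1) (l 1))) (a (b (a (l 15788064) (l 744671103127)) (a (l 693132125783) (l 1))) (l 1))) (l 1))), by decide +kernel⟩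

def k1_pm_022_a : ∃ t, chk3 f_pm_022_a t 2 3 1 = true :=
  ⟨(a (a (b (a (b (l 16266912) (b (l 16330440) (l 16330104))) (b (a (l 16278840) (l 16296608)) (a (l 16310240) (b (l 16436968) (l 16548392))))) (a (b (b (a (l 16437136) (l 16488912)) (a (b (l 16500800) (l 16550064)) (a (l 16551720) (l 16599488)))) (a (b (b (a (l 16579440) (l 16609472)) (a (l 16595584) (a (l 16658008) (l 16686176)))) (l 6)) (a (b (b (l 16662240) (b (l 16654168) (l 6))) (l 6)) (b (b (b (l 16648656) (l 16639720)) (b (a (l 16641760) (l 598107474983)) (a (l 733935843303) (l 1)))) (l 1))))) (b (b (a (l 16548664) (a (l 16582360) (l 353294126327))) (b (a (l 16580240) (a (l 406981239671) (l 765074140023))) (a (a (l 16600232) (l 556768293255)) (a (l 782790901783) (l 1))))) (a (b (b (a (b (l 410739434055) (l 724808961207)) (l 1)) (l 1)) (l 1)) (l 1))))) (b (a (b (b (l 16269272) (l 16318936)) (a (b (l 16484112) (l 16527048)) (b (l 16505488) (l 1154305592423)))) (b (a (b (l 16278584)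 (l 16413832)) (b (l 16281008) (l 1))) (b (a (l 346314779287) (l 1)) (l 1)))) (b (a (b (a (b (l 490196221111) (l 831646091079)) (l 1)) (l 1)) (l 1)) (l 1)))) (b (l 1) (l 1))), by decide +kernel⟩

def k2_pm_022_a : ∃ t, chk3 f_pm_022_a t 3 1 1 = true :=
  ⟨(l 1), by decide +kernel⟩

theorem s3_pm_022_a : ∃ t, chk3 f_pm_022_a t 2 1 1 = true := ex3_b k0_pm_022_a k1_pm_022_a

theorem s4_pm_022_a : ∃ t, chk3 f_pm_022_a t 1 1 1 = true := ex3_a s3_pm_022_a k2_pm_022_a

theorem c_pm_022_a : CertB 0 536870912 0 536870912 1040187392 5207648 3 eng mog cd1q0 cd1q2a pd2 false true false .pp 0 2 2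
    ndB1q0 ndB1q2a pcB2 cut_pm_022_a Ext.none :=
  certB2 (fam := false) (s1 := true) (s2 := false) (a := 0) (b := 2) (c := 2) (cn := .pp) (n1 := ndB1q0) (n2 := ndB1q2a) (pc := pcB2) (cut := cut_pm_022_a) (xt := Ext.none) (P1 := 0) (W1 := 536870912) (P2 := 0) (W2 := 536870912) (P3 := 1040187392) (W3 := 5207648) (N0 := 3) (En := eng) (mo := mog) (C1 := cd1q0) (C2 := cd1q2a) (C3 := pd2)
    rfl (fun _ => rfl) s4_pm_022_a

noncomputable def cut_pm_022_b : Cut := Cut.of [[⟨0, 0, 0, 26843545⟩, ⟨1, 1, 0, 26843545⟩, ⟨2, 1, 0, 26843545⟩]]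

noncomputable def f_pm_022_b : ℕ → ℕ → ℕ → ℕ → Bool := onCell 1073741824 536870912 1239849684 370763052 1040187392 5207648
    (rowB 3 eng mog cd1q0 cd1q2b pd2 2 false true false .pp 0 2 2 (qsf 0 536870912 1239849684 370763052 2) ndB1q0 ndB1q2b pcB2 cut_pm_022_b Ext.none)

def k0_pm_022_b : ∃ t, chk3 f_pm_022_b t 1 1 1 = true :=
  ⟨(a (a (b (a (b (a (l 15820896) (b (l 15896056) (l 15660744))) (a (l 15648288) (l 15348184))) (b (b (a (l 15620504) (l 15365624)) (a (l 15380608) (l 15117848))) (a (l 15063288) (l 14744232)))) (a (b (l 15139240) (l 14919200)) (b (a (l 14721888) (l 14462224)) (l 14342176)))) (b (a (b (b (a (l 15112112) (b (l 369933704871) (l 70359444183))) (a (l 14894288) (b (l 14759160) (l 14681288)))) (a (b (l 14708160) (l 14529048)) (l 14479200))) (b (b (b (l 1) (a (b (l 1) (l 397313627943)) (l 1))) (a (l 332889212791) (l 609914332743))) (b (a (l 14466648) (l 14450184)) (l 14309408)))) (a (b (a (l 14282376) (l 14173376)) (a (l 14001232)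 (l 13890512))) (b (a (l 14121568) (l 14119960)) (l 13854832))))) (b (a (b (l 1) (a (b (a (b (l 14460752) (l 14367648)) (b (l 1) (l 632462890023))) (a (l 14308064) (l 14447904))) (b (l 1) (a (l 637831837207) (l 1))))) (l 1)) (a (a (b (b (l 14244944) (l 14157800)) (l 14000864)) (b (a (l 14350720) (l 595955747575)) (l 14315568))) (a (b (b (l 1) (a (l 14657944) (l 14832584))) (a (l 14635960) (l 14866192))) (b (l 1) (a (l 614746894151) (b (l 1) (l 15392832)))))))), by decide +kernel⟩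

theorem c_pm_022_b : CertB 0 536870912 1239849684 370763052 1040187392 5207648 3 eng mog cd1q0 cd1q2b pd2 false true false .pp 0 2 2
    ndB1q0 ndB1q2b pcB2 cut_pm_022_b Ext.none :=
  certB2 (fam := false) (s1 := true) (s2 := false) (a := 0) (b := 2) (c := 2) (cn := .pp) (n1 := ndB1q0) (n2 := ndB1q2b) (pc := pcB2) (cut := cut_pm_022_b) (xt := Ext.none) (P1 := 0) (W1 := 536870912) (P2 := 1239849684) (W2 := 370763052) (P3 := 1040187392) (W3 := 5207648) (N0 := 3) (En := eng) (mo := mog) (C1 := cd1q0) (C2 := cd1q2b) (C3 := pd2)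
    rfl (fun _ => rfl) k0_pm_022_b

noncomputable def f_pm_023 : ℕ → ℕ → ℕ → ℕ → Bool := onCell 0 536870912 1073741824 536870912 1040187392 5207648
    (rowB 3 eng mog cd1q0 cd1q3 pd2 1 false true false .up 0 2 3 (qsf 0 536870912 1610612736 536870912 2) ndB1q0 ndB1q3 pcB2 Cut.none Ext.none)

def k0_pm_023 : ∃ t, chk3 f_pm_023 t 1 1 1 = true :=
  ⟨(b (b (a (l 1) (a (b (l 1) (a (l 1) (l 14727040))) (b (l 227663225863) (l 14417032)))) (a (a (l 1) (b (l 1) (l 469253374711))) (a (b (a (l 14345280) (l 14158928)) (l 258262338727)) (b (a (l 13997576) (l 13903096)) (a (l 13689192) (l 13497512)))))) (b (a (a (b (l 1) (a (l 1) (l 14712312))) (b (l 359194778263) (l 312487403591))) (a (b (l 13944864) (l 14150312)) (b (a (l 13621856) (l 13380784)) (l 13676912)))) (a (b (a (a (l 585755900167) (l 15083936)) (l 14676928)) (a (b (l 15251040) (l 15692344)) (l 15233976))) (a (b (l 14510192) (l 15111632)) (b (l 14072640) (a (l 14795648) (l 14532320))))))), by decide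 +kernel⟩

theorem c_pm_023 : CertB 0 536870912 1610612736 536870912 1040187392 5207648 3 eng mog cd1q0 cd1q3 pd2 false true false .up 0 2 3
    ndB1q0 ndB1q3 pcB2 Cut.none Ext.none :=
  certB1 (fam := false) (s1 := true) (s2 := false) (a := 0) (b := 2) (c := 3) (cn := .up) (n1 := ndB1q0) (n2 := ndB1q3) (pc := pcB2) (cut := Cut.none) (xt := Ext.none) (P1 := 0) (W1 := 536870912) (P2 := 1610612736) (W2 := 536870912) (P3 := 1040187392) (W3 := 5207648) (N0 := 3) (En := eng) (mo := mog) (C1 := cd1q0) (C2 := cd1q3) (C3 := pd2)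
    rfl (fun _ => rfl) k0_pm_023

noncomputable def f_pm_033 : ℕ → ℕ → ℕ → ℕ → Bool := onCell 0 536870912 1610612736 536870912 1040187392 5207648
    (rowB 3 eng mog cd1q0 cd1q3 pd3 1 false true false .pnn 0 3 3 (qsf 0 536870912 1610612736 536870912 3) ndB1q0 ndB1q3 pcB3 Cut.none Ext.none)

def k0_pm_033 : ∃ t, chk3 f_pm_033 t 1 1 1 = true :=
  ⟨(a (b (b (b (a (a (l 15039840) (l 15318968)) (l 15702760)) (l 4)) (l 4)) (a (l 4) (b (l 4) (a (b (l 4) (l 2)) (l 2))))) (b (a (b (b (l 16114992) (a (l 4) (l 16195088))) (l 4)) (b (b (a (l 16295712) (l 16520096)) (a (l 16392048) (l 16627192))) (a (b (l 16532872) (l 2)) (l 2)))) (a (b (a (b (l 4) (l 2)) (l 2)) (l 2)) (l 2)))), by decide +kernel⟩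

theorem c_pm_033 : CertB 0 536870912 1610612736 536870912 1040187392 5207648 3 eng mog cd1q0 cd1q3 pd3 false true false .pnn 0 3 3
    ndB1q0 ndB1q3 pcB3 Cut.none Ext.none :=
  certB1 (fam := false) (s1 := true) (s2 := false) (a := 0) (b := 3) (c := 3) (cn := .pnn) (n1 := ndB1q0) (n2 := ndB1q3) (pc := pcB3) (cut := Cut.none) (xt := Ext.none) (P1 := 0) (W1 := 536870912) (P2 := 1610612736) (W2 := 536870912) (P3 := 1040187392) (W3 := 5207648) (N0 := 3) (En := eng) (mo := mog) (C1 := cd1q0) (C2 := cd1q3) (C3 := pd3)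
    rfl (fun _ => rfl) k0_pm_033

noncomputable def f_pm_101 : ℕ → ℕ → ℕ → ℕ → Bool := onCell 0 536870912 536870912 536870912 1040187392 5207648
    (rowB 3 eng mog cd1q1 cd1q1 pd0 2 false true false .npn 1 0 1 (qsf 536870912 536870912 536870912 536870912 0) ndB1q1 ndB1q1 pcB0 Cut.none Ext.none)

def k0_pm_101 : ∃ t, chk3 f_pm_101 t 1 1 1 = true :=
  ⟨(b (l 4) (a (a (b (a (b (l 4) (a (l 15551672) (l 4))) (l 4)) (a (b (a (l 14917952) (l 15133128)) (a (b (l 14603664) (a (l 14380456) (l 14433784))) (b (l 14760192) (l 14536312)))) (b (b (l 15577992) (l 15286136)) (b (l 15036856) (l 14818824))))) (b (l 4) (b (a (l 27612863063) (l 4)) (a (b (l 15408920) (l 15186064)) (b (l 15683768) (l 15536464)))))) (a (b (l 4) (a (b (l 4) (b (l 4) (l 15525256))) (l 4))) (l 4)))), by decide +kernel⟩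

theorem c_pm_101 : CertB 536870912 536870912 536870912 536870912 1040187392 5207648 3 eng mog cd1q1 cd1q1 pd0 false true false .npn 1 0 1
    ndB1q1 ndB1q1 pcB0 Cut.none Ext.none :=
  certB2 (fam := false) (s1 := true) (s2 := false) (a := 1) (b := 0) (c := 1) (cn := .npn) (n1 := ndB1q1) (n2 := ndB1q1) (pc := pcB0) (cut := Cut.none) (xt := Ext.none) (P1 := 536870912) (W1 := 536870912) (P2 := 536870912) (W2 := 536870912) (P3 := 1040187392) (W3 := 5207648) (N0 := 3) (En := eng) (mo := mog) (C1 := cd1q1) (C2 := cd1q1) (C3 := pd0)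
    rfl (fun _ => rfl) k0_pm_101

noncomputable def f_pm_102_a : ℕ → ℕ → ℕ → ℕ → Bool := onCell 0 536870912 0 536870912 1040187392 5207648
    (rowB 3 eng mog cd1q1 cd1q2a pd0 2 false true false .npp 1 0 2 (qsf 536870912 536870912 0 536870912 0) ndB1q1 ndB1q2a pcB0 Cut.none Ext.none)

def k0_pm_102_a : ∃ t, chk3 f_pm_102_a t 2 2 1 = true :=
  ⟨(a (b (l 2) (a (l 2) (a (l 2) (b (l 2) (a (l 2) (b (l 2) (b (a (l 2) (l 16107552)) (l 16052888)))))))) (b (a (a (l 3) (b (l 3) (b (l 3) (a (b (l 3) (l 191829673655)) (b (l 189145378295) (l 142974425671)))))) (a (b (a (l 3) (b (l 3) (l 194514259751))) (a (b (b (l 195051065175) (l 184850477959)) (l 16281576)) (b (l 140827041351) (l 16303008)))) (b (b (a (l 3) (l 186998224471)) (a (l 151564597175) (l 16466848))) (b (l 16355352) (a (l 16275976) (l 16242584)))))) (a (a (b (a (a (l 2) (b (l 3) (b (b (l 118278311655) (l 16252016)) (l 16216912)))) (b (b (l 156396202951) (a (b (l 146732496039) (l 175186654903)) (l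 150490564007))) (a (b (l 16247360) (l 16198168)) (l 16205512)))) (b (a (b (a (l 16187032) (l 16165192)) (a (l 252965463831) (l 16117168))) (b (a (l 16143520) (l 16130528)) (l 16075736))) (a (l 16030008) (l 15978584)))) (b (b (a (b (a (l 147806262967) (l 16295776)) (l 16255152)) (l 16251048)) (a (b (l 16206024) (a (l 16158816) (l 16147536))) (b (l 16171480) (l 16120720)))) (a (b (l 16064320) (l 15931120)) (l 15806336)))) (b (a (b (a (b (l 16250608) (l 16195096)) (b (l 16222664) (l 16177328))) (a (l 16095424) (l 16072424))) (b (a (l 16180144) (l 16141440)) (l 16024128))) (a (b (l 15959560) (a (l 15832400) (l 15785480))) (b (l 15892984) (b (l 15780088) (a (l 15712656) (l 15645552))))))))), by decide +kernel⟩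

def k1_pm_102_a : ∃ t, chk3 f_pm_102_a t 2 3 1 = true :=
  ⟨(a (b (a (l 2) (b (a (l 2) (b (a (l 15976288) (b (l 15989104) (l 299135764231))) (a (b (b (l 15930464) (l 15870224)) (l 15765632)) (b (l 15807312) (l 15649800))))) (a (b (a (l 2) (b (l 15757136) (l 15632736))) (a (l 15715800) (l 15563760))) (b (a (b (l 15625920) (l 15482920)) (b (l 15495328) (l 15337376))) (l 15352552))))) (a (b (a (l 2) (a (b (l 2) (a (l 15827952) (l 15788968))) (b (l 15783232) (l 15711656)))) (a (a (b (l 2) (l 15594768)) (a (b (l 15672640) (l 15584176)) (b (l 15704360) (l 15619248)))) (a (a (b (l 15734848) (l 15651888)) (b (l 15707624) (l 15635112))) (l 15624800)))) (b (a (b (l 15596384) (l 15563592)) (l 15370712)) (a (b (l 15539376) (l 15522464)) (l 15421752))))) (b (a (b (b (a (b (a (l 15933512) (l 15872728)) (a (b (l 15876448) (l 15828328)) (l 15777032))) (b (a (l 15817392) (l 15763272)) (l 15629152))) (a (a (l 15617392) (l 15507712)) (a (l 15399816) (l 15294680))))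 (b (a (a (l 15257696) (l 15149360)) (a (l 15025624) (l 14907968))) (b (a (l 15071424) (l 14814176)) (l 14977128)))) (b (a (b (a (l 15594496) (l 15497768)) (l 15145328)) (b (l 15372480) (l 14959528))) (b (a (l 14744736) (l 14544256)) (b (a (l 14571176) (l 14347648)) (l 14533016))))) (a (b (a (l 15176032) (l 14997984)) (a (l 15326320) (l 15246904))) (b (a (l 14836728) (l 14692248)) (a (l 15183480) (l 15136000)))))), by decide +kernel⟩

def k2_pm_102_a : ∃ t, chk3 f_pm_102_a t 3 2 1 = true :=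
  ⟨(a (b (a (b (a (b (a (l 16547344) (l 16546776)) (l 16451312)) (a (l 16490192) (l 16408864))) (a (b (a (l 16352184) (l 16339784)) (a (l 16254296) (l 16222984))) (b (a (l 16337752) (l 16318944)) (l 16190832)))) (b (a (b (l 16522080) (l 16259952)) (b (l 16465896) (l 16396232))) (a (l 16223240) (l 16197072)))) (a (b (a (l 16036296) (l 15992960)) (b (a (l 15839432) (l 15771128)) (a (b (a (l 15734192) (l 15697112)) (l 15529928)) (l 15299128)))) (b (a (l 15960800) (l 15939672)) (b (a (b (l 15791096) (l 15691208)) (b (l 15756736) (l 15589904))) (a (l 15379824) (l 15276576)))))) (b (a (b (a (l 16441920) (l 16426192)) (l 16008104)) (b (l 16416984) (l 16179384))) (a (b (a (l 15905816) (b (l 15989056) (l 15774264))) (a (b (l 15509256) (l 15191504)) (l 15181016))) (b (b (l 15993968) (a (b (l 15894920) (l 15769232)) (l 15710536))) (a (l 15213240) (l 15243824)))))), by decide +kernel⟩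

def k3_pm_102_a : ∃ t, chk3 f_pm_102_a t 3 3 1 = true :=
  ⟨(a (b (b (a (a (b (l 15216000) (l 14794192)) (b (l 15076664) (l 14651056))) (a (b (l 14956432) (l 14531152)) (b (l 14856576) (l 14435128)))) (a (b (a (l 14370584) (l 14224056)) (a (a (l 14246392) (l 13944632)) (b (b (l 13961056) (l 13965456)) (l 14073448)))) (b (a (l 14104840) (l 14012960)) (b (a (b (l 13837448) (l 13781960)) (b (l 13748120) (a (l 13697536) (l 13644080)))) (a (l 13919104) (l 13781376)))))) (b (a (a (b (l 14433888) (l 14694720)) (b (l 14298776) (l 14607592))) (a (b (l 14180256) (l 14536728)) (b (l 14078168) (l 14481920)))) (a (a (l 14852728) (b (l 14925488) (l 15251208))) (a (b (l 14901896) (l 15274248)) (b (l 14893840) (l 15312128)))))) (b (b (a (a (b (l 14777968) (l 14363368)) (b (l 14721216) (l 14316152))) (a (l 14323376) (l 14444376))) (a (b (a (l 13948392) (l 13911040)) (a (b (l 13641432) (l 13663072)) (b (l 13606944) (l 13570104)))) (b (a (l 13900776) (l 13917432))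 (b (l 13617512) (a (b (b (l 13483296) (l 13462912)) (l 13534080)) (b (l 13493928) (a (l 13484712) (l 13470944)))))))) (a (b (a (b (l 13992296) (l 14442872)) (b (l 13922352) (l 14419216))) (b (a (l 14900936) (l 14922728)) (a (l 15364384) (l 15430440)))) (b (a (b (l 13867984) (l 14410504)) (b (l 13828744) (l 14416176))) (b (a (l 14958664) (l 15008056)) (a (l 15509616) (l 15601104))))))), by decide +kernel⟩

theorem s4_pm_102_a : ∃ t, chk3 f_pm_102_a t 3 1 1 = true := ex3_b k2_pm_102_a k3_pm_102_a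

theorem s5_pm_102_a : ∃ t, chk3 f_pm_102_a t 2 1 1 = true := ex3_b k0_pm_102_a k1_pm_102_a

theorem s6_pm_102_a : ∃ t, chk3 f_pm_102_a t 1 1 1 = true := ex3_a s5_pm_102_a s4_pm_102_a

theorem c_pm_102_a : CertB 536870912 536870912 0 536870912 1040187392 5207648 3 eng mog cd1q1 cd1q2a pd0 false true false .npp 1 0 2
    ndB1q1 ndB1q2a pcB0 Cut.none Ext.none :=
  certB2 (fam := false) (s1 := true) (s2 := false) (a := 1) (b := 0) (c := 2) (cn := .npp) (n1 := ndB1q1) (n2 := ndB1q2a) (pc := pcB0) (cut := Cut.none) (xt := Ext.none) (P1 := 536870912) (W1 := 536870912) (P2 := 0) (W2 := 536870912) (P3 := 1040187392) (W3 := 5207648) (N0 := 3) (En := eng) (mo := mog) (C1 := cd1q1) (C2 := cd1q2a) (C3 := pd0)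
    rfl (fun _ => rfl) s6_pm_102_a

noncomputable def f_pm_102_b : ℕ → ℕ → ℕ → ℕ → Bool := onCell 536870912 536870912 0 536870912 1040187392 5207648
    (rowB 3 eng mog cd1q1 cd1q2b pd0 1 false true false .npp 1 0 2 (qsf 536870912 536870912 1239849684 370763052 0) ndB1q1 ndB1q2b pcB0 Cut.none Ext.none)

def k0_pm_102_b : ∃ t, chk3 f_pm_102_b t 1 1 1 = true :=
  ⟨(a (b (l 1) (b (l 1) (a (l 1) (b (a (l 1) (b (l 16448472) (l 16589840))) (a (l 294774650215) (l 16463832)))))) (b (a (l 1) (a (a (a (l 1) (a (l 1) (l 3))) (l 3)) (l 3))) (a (b (a (b (l 1) (a (l 334503728487) (b (l 16682872) (l 16577168)))) (a (b (l 385506416199) (l 16439824)) (b (a (l 325913726055) (l 281353383479)) (l 16399840)))) (a (b (a (l 16524576) (l 16431016)) (a (l 16349368) (l 16266320))) (b (l 16254592) (l 16101552)))) (b (a (b (a (b (a (l 16620680) (l 629380003975)) (l 16439600)) (l 3)) (a (l 16240136) (l 16026592))) (l 3)) (a (b (a (l 16120008) (l 16016240)) (l 15884688)) (b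 (l 15621248) (l 89822433767))))))), by decide +kernel⟩

theorem c_pm_102_b : CertB 536870912 536870912 1239849684 370763052 1040187392 5207648 3 eng mog cd1q1 cd1q2b pd0 false true false .npp 1 0 2
    ndB1q1 ndB1q2b pcB0 Cut.none Ext.none :=
  certB1 (fam := false) (s1 := true) (s2 := false) (a := 1) (b := 0) (c := 2) (cn := .npp) (n1 := ndB1q1) (n2 := ndB1q2b) (pc := pcB0) (cut := Cut.none) (xt := Ext.none) (P1 := 536870912) (W1 := 536870912) (P2 := 1239849684) (W2 := 370763052) (P3 := 1040187392) (W3 := 5207648) (N0 := 3) (En := eng) (mo := mog) (C1 := cd1q1) (C2 := cd1q2b) (C3 := pd0)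
    rfl (fun _ => rfl) k0_pm_102_b

noncomputable def f_pm_112_a : ℕ → ℕ → ℕ → ℕ → Bool := onCell 536870912 536870912 0 536870912 1040187392 5207648
    (rowB 3 eng mog cd1q1 cd1q2a pd1 2 false true false .dn 1 1 2 (qsf 536870912 536870912 0 536870912 1) ndB1q1 ndB1q2a pcB1 Cut.none Ext.none)

def k0_pm_112_a : ∃ t, chk3 f_pm_112_a t 1 1 1 = true :=
  ⟨(a (b (a (b (a (a (l 16321096) (l 16270744)) (a (l 16232696) (l 16167792))) (b (a (a (l 16233088) (l 16311496)) (l 16285416)) (l 16301904))) (a (b (b (l 16148992) (b (l 16198744) (l 16226536))) (l 16243288)) (l 1))) (a (b (a (l 16072176) (l 16258448)) (b (a (l 16125504) (b (l 16240464) (l 1))) (a (l 15865920) (l 1)))) (b (l 1) (l 1)))) (l 1)), by decide +kernel⟩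

theorem c_pm_112_a : CertB 536870912 536870912 0 536870912 1040187392 5207648 3 eng mog cd1q1 cd1q2a pd1 false true false .dn 1 1 2
    ndB1q1 ndB1q2a pcB1 Cut.none Ext.none :=
  certB2 (fam := false) (s1 := true) (s2 := false) (a := 1) (b := 1) (c := 2) (cn := .dn) (n1 := ndB1q1) (n2 := ndB1q2a) (pc := pcB1) (cut := Cut.none) (xt := Ext.none) (P1 := 536870912) (W1 := 536870912) (P2 := 0) (W2 := 536870912) (P3 := 1040187392) (W3 := 5207648) (N0 := 3) (En := eng) (mo := mog) (C1 := cd1q1) (C2 := cd1q2a) (C3 := pd1)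
    rfl (fun _ => rfl) k0_pm_112_a

noncomputable def f_pm_112_b : ℕ → ℕ → ℕ → ℕ → Bool := onCell 536870912 536870912 536870912 536870912 1040187392 5207648
    (rowB 3 eng mog cd1q1 cd1q2b pd1 1 false true false .dn 1 1 2 (qsf 536870912 536870912 1239849684 370763052 1) ndB1q1 ndB1q2b pcB1 Cut.none Ext.none)

def k0_pm_112_b : ∃ t, chk3 f_pm_112_b t 1 1 1 = true :=
  ⟨(a (b (b (a (b (a (l 1) (l 16006600)) (a (l 16102568) (l 16196648))) (b (a (l 16320256) (l 16487224)) (a (l 16386832) (l 16686608)))) (a (b (a (l 16133304) (l 16226752)) (l 16105864)) (a (l 16209616) (b (l 16628584) (l 16385104))))) (b (a (b (l 16140112) (l 16092224)) (b (l 16250976) (l 16064888))) (a (b (l 16037336) (l 15988944)) (b (l 15929064) (l 2))))) (b (b (a (a (b (a (l 16406064) (l 16261632)) (l 16511656)) (b (l 16280168) (l 16190712))) (a (b (l 16058616) (l 16016976)) (b (a (l 15649128) (l 15413672)) (l 334568099943)))) (a (b (a (l 16501504) (l 16190232)) (a (l 16219064)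 (l 16037376))) (a (b (l 15892104) (l 2)) (l 2)))) (b (a (b (l 15777440) (l 2)) (l 2)) (l 2)))), by decide +kernel⟩

theorem c_pm_112_b : CertB 536870912 536870912 1239849684 370763052 1040187392 5207648 3 eng mog cd1q1 cd1q2b pd1 false true false .dn 1 1 2
    ndB1q1 ndB1q2b pcB1 Cut.none Ext.none :=
  certB1 (fam := false) (s1 := true) (s2 := false) (a := 1) (b := 1) (c := 2) (cn := .dn) (n1 := ndB1q1) (n2 := ndB1q2b) (pc := pcB1) (cut := Cut.none) (xt := Ext.none) (P1 := 536870912) (W1 := 536870912) (P2 := 1239849684) (W2 := 370763052) (P3 := 1040187392) (W3 := 5207648) (N0 := 3) (En := eng) (mo := mog) (C1 := cd1q1) (C2 := cd1q2b) (C3 := pd1)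
    rfl (fun _ => rfl) k0_pm_112_b

noncomputable def f_pm_113 : ℕ → ℕ → ℕ → ℕ → Bool := onCell 536870912 536870912 536870912 536870912 1040187392 5207648
    (rowB 3 eng mog cd1q1 cd1q3 pd1 1 false true false .nn 1 1 3 (qsf 536870912 536870912 1610612736 536870912 1) ndB1q1 ndB1q3 pcB1 Cut.none Ext.none)

def k0_pm_113 : ∃ t, chk3 f_pm_113 t 1 1 1 = true :=
  ⟨(b (a (b (l 1) (a (l 1) (b (l 1) (l 273299074519)))) (b (a (a (l 1) (b (l 1) (a (l 1) (l 16286968)))) (a (b (l 15714040) (l 15800520)) (b (a (l 15379872) (l 15113328)) (a (l 15348856) (l 15059352))))) (a (a (b (l 16424944) (l 16168312)) (b (a (l 16299672) (l 16135784)) (l 15960192))) (a (b (l 15733064) (l 15595048)) (b (a (l 15310448) (l 15035080)) (l 15119216)))))) (b (a (a (b (l 1) (l 15744320)) (b (l 16006776) (l 16003784))) (a (b (a (l 15928768) (l 15684912)) (l 15542712)) (b (a (l 15395960) (l 15026944)) (a (l 15169016) (l 14910784))))) (a (a (b (l 15687864) (l 15658288)) (b (l 15959016)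 (l 15949992))) (b (a (l 15410760) (a (l 14987808) (b (l 14852520) (l 14883408)))) (a (a (l 15488824) (l 15152976)) (a (l 14939032) (b (l 15068128) (l 15716344)))))))), by decide +kernel⟩

theorem c_pm_113 : CertB 536870912 536870912 1610612736 536870912 1040187392 5207648 3 eng mog cd1q1 cd1q3 pd1 false true false .nn 1 1 3
    ndB1q1 ndB1q3 pcB1 Cut.none Ext.none :=
  certB1 (fam := false) (s1 := true) (s2 := false) (a := 1) (b := 1) (c := 3) (cn := .nn) (n1 := ndB1q1) (n2 := ndB1q3) (pc := pcB1) (cut := Cut.none) (xt := Ext.none) (P1 := 536870912) (W1 := 536870912) (P2 := 1610612736) (W2 := 536870912) (P3 := 1040187392) (W3 := 5207648) (N0 := 3) (En := eng) (mo := mog) (C1 := cd1q1) (C2 := cd1q3) (C3 := pd1)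
    rfl (fun _ => rfl) k0_pm_113

noncomputable def f_pm_123 : ℕ → ℕ → ℕ → ℕ → Bool := onCell 1073741824 536870912 1610612736 536870912 1040187392 5207648
    (rowB 3 eng mog cd1q1 cd1q3 pd2 2 false true false .npn 1 2 3 (qsf 536870912 536870912 1610612736 536870912 2) ndB1q1 ndB1q3 pcB2 Cut.none Ext.none)

def k0_pm_123 : ∃ t, chk3 f_pm_123 t 1 1 1 = true :=
  ⟨(a (a (b (b (a (b (l 15486256) (l 15454600)) (b (l 15101000) (l 14992048))) (a (b (l 15492864) (l 15288040)) (b (l 14861576) (l 14713528)))) (b (a (b (l 15102920) (l 15016152)) (a (l 14764024) (l 14509672))) (b (a (a (l 15160944) (l 15137192)) (l 14898120)) (a (a (l 16273104) (l 15788232)) (a (l 15723896) (l 15441472)))))) (b (b (a (b (l 1) (l 14208592)) (l 1)) (a (b (l 14183888) (l 14107960)) (b (l 13608000) (l 13339552)))) (b (a (b (l 14062336) (l 14109496)) (b (l 13442224) (l 13491912))) (b (a (l 14336480) (l 13680792)) (a (l 14863296) (l 14131120)))))) (b (a (a (b (l 1) (l 259872214487))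 (l 1)) (l 1)) (a (b (a (b (a (l 13107800) (l 13125464)) (a (l 13040728) (l 12850792))) (b (l 13425984) (l 234638099223))) (a (b (l 13034400) (l 13379248)) (b (a (l 12675232) (l 12684960)) (b (l 12675024) (l 12802016))))) (b (a (b (l 1) (l 13621264)) (l 1)) (a (b (l 13150880) (a (l 12574416) (l 12864664))) (b (l 13991816) (l 13493224))))))), by decide +kernel⟩

theorem c_pm_123 : CertB 536870912 536870912 1610612736 536870912 1040187392 5207648 3 eng mog cd1q1 cd1q3 pd2 false true false .npn 1 2 3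
    ndB1q1 ndB1q3 pcB2 Cut.none Ext.none :=
  certB2 (fam := false) (s1 := true) (s2 := false) (a := 1) (b := 2) (c := 3) (cn := .npn) (n1 := ndB1q1) (n2 := ndB1q3) (pc := pcB2) (cut := Cut.none) (xt := Ext.none) (P1 := 536870912) (W1 := 536870912) (P2 := 1610612736) (W2 := 536870912) (P3 := 1040187392) (W3 := 5207648) (N0 := 3) (En := eng) (mo := mog) (C1 := cd1q1) (C2 := cd1q3) (C3 := pd2)
    rfl (fun _ => rfl) k0_pm_123

noncomputable def f_pm_133 : ℕ → ℕ → ℕ → ℕ → Bool := onCell 536870912 536870912 1610612736 536870912 1040187392 5207648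
    (rowB 3 eng mog cd1q1 cd1q3 pd3 0 false true false .dn 1 3 3 (qsf 536870912 536870912 1610612736 536870912 3) ndB1q1 ndB1q3 pcB3 Cut.none Ext.none)

def k0_pm_133 : ∃ t, chk3 f_pm_133 t 1 1 1 = true :=
  ⟨(a (b (l 1) (a (b (l 1) (a (b (l 1) (l 15691032)) (l 1))) (l 1))) (l 1)), by decide +kernel⟩

theorem c_pm_133 : CertB 536870912 536870912 1610612736 536870912 1040187392 5207648 3 eng mog cd1q1 cd1q3 pd3 false true false .dn 1 3 3
    ndB1q1 ndB1q3 pcB3 Cut.none Ext.none :=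
  certB0 (fam := false) (s1 := true) (s2 := false) (a := 1) (b := 3) (c := 3) (cn := .dn) (n1 := ndB1q1) (n2 := ndB1q3) (pc := pcB3) (cut := Cut.none) (xt := Ext.none) (P1 := 536870912) (W1 := 536870912) (P2 := 1610612736) (W2 := 536870912) (P3 := 1040187392) (W3 := 5207648) (N0 := 3) (En := eng) (mo := mog) (C1 := cd1q1) (C2 := cd1q3) (C3 := pd3)
    rfl k0_pm_133

noncomputable def cut_pm_202_aa : Cut := Cut.of [[⟨0, 1, 0, 26843545⟩, ⟨1, 0, 0, 26843545⟩, ⟨2, 1, 0, 26843545⟩]]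

noncomputable def f_pm_202_aa : ℕ → ℕ → ℕ → ℕ → Bool := onCell 0 536870912 0 536870912 1040187392 5207648
    (rowB 3 eng mog cd1q2a cd1q2a pd0 0 false true false .pp 2 0 2 (qsf 0 536870912 0 536870912 0) ndB1q2a ndB1q2a pcB0 cut_pm_202_aa Ext.none)

def k0_pm_202_aa : ∃ t, chk3 f_pm_202_aa t 1 1 1 = true :=
  ⟨(a (l 3) (b (l 3) (a (l 3) (b (l 3) (a (l 3) (b (l 3) (a (l 3) (b (l 3) (l 6))))))))), by decide +kernel⟩

theorem c_pm_202_aa : CertB 0 536870912 0 536870912 1040187392 5207648 3 eng mog cd1q2a cd1q2a pd0 false true false .pp 2 0 2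
    ndB1q2a ndB1q2a pcB0 cut_pm_202_aa Ext.none :=
  certB0 (fam := false) (s1 := true) (s2 := false) (a := 2) (b := 0) (c := 2) (cn := .pp) (n1 := ndB1q2a) (n2 := ndB1q2a) (pc := pcB0) (cut := cut_pm_202_aa) (xt := Ext.none) (P1 := 0) (W1 := 536870912) (P2 := 0) (W2 := 536870912) (P3 := 1040187392) (W3 := 5207648) (N0 := 3) (En := eng) (mo := mog) (C1 := cd1q2a) (C2 := cd1q2a) (C3 := pd0)
    rfl k0_pm_202_aa

noncomputable def cut_pm_202_ab : Cut := Cut.of [[⟨0, 1, 0, 26843545⟩, ⟨1, 0, 0, 26843545⟩, ⟨2, 1, 0, 26843545⟩]]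

noncomputable def f_pm_202_ab : ℕ → ℕ → ℕ → ℕ → Bool := onCell 0 536870912 1239849684 370763052 1040187392 5207648
    (rowB 3 eng mog cd1q2a cd1q2b pd0 0 false true false .pp 2 0 2 (qsf 0 536870912 1239849684 370763052 0) ndB1q2a ndB1q2b pcB0 cut_pm_202_ab Ext.none)

def k0_pm_202_ab : ∃ t, chk3 f_pm_202_ab t 1 1 1 = true :=
  ⟨(l 3), by decide +kernel⟩

theorem c_pm_202_ab : CertB 0 536870912 1239849684 370763052 1040187392 5207648 3 eng mog cd1q2a cd1q2b pd0 false true false .pp 2 0 2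
    ndB1q2a ndB1q2b pcB0 cut_pm_202_ab Ext.none :=
  certB0 (fam := false) (s1 := true) (s2 := false) (a := 2) (b := 0) (c := 2) (cn := .pp) (n1 := ndB1q2a) (n2 := ndB1q2b) (pc := pcB0) (cut := cut_pm_202_ab) (xt := Ext.none) (P1 := 0) (W1 := 536870912) (P2 := 1239849684) (W2 := 370763052) (P3 := 1040187392) (W3 := 5207648) (N0 := 3) (En := eng) (mo := mog) (C1 := cd1q2a) (C2 := cd1q2b) (C3 := pd0)
    rfl k0_pm_202_ab

noncomputable def cut_pm_202_ba : Cut := Cut.of [[⟨0, 1, 0, 26843545⟩, ⟨1, 0, 0, 26843545⟩, ⟨2, 1, 0, 26843545⟩]]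

noncomputable def f_pm_202_ba : ℕ → ℕ → ℕ → ℕ → Bool := onCell 1239849684 370763052 0 536870912 1040187392 5207648
    (rowB 3 eng mog cd1q2b cd1q2a pd0 0 false true false .pp 2 0 2 (qsf 1239849684 370763052 0 536870912 0) ndB1q2b ndB1q2a pcB0 cut_pm_202_ba Ext.none)

def k0_pm_202_ba : ∃ t, chk3 f_pm_202_ba t 1 1 1 = true :=
  ⟨(l 3), by decide +kernel⟩

theorem c_pm_202_ba : CertB 1239849684 370763052 0 536870912 1040187392 5207648 3 eng mog cd1q2b cd1q2a pd0 false true false .pp 2 0 2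
    ndB1q2b ndB1q2a pcB0 cut_pm_202_ba Ext.none :=
  certB0 (fam := false) (s1 := true) (s2 := false) (a := 2) (b := 0) (c := 2) (cn := .pp) (n1 := ndB1q2b) (n2 := ndB1q2a) (pc := pcB0) (cut := cut_pm_202_ba) (xt := Ext.none) (P1 := 1239849684) (W1 := 370763052) (P2 := 0) (W2 := 536870912) (P3 := 1040187392) (W3 := 5207648) (N0 := 3) (En := eng) (mo := mog) (C1 := cd1q2b) (C2 := cd1q2a) (C3 := pd0)
    rfl k0_pm_202_ba

noncomputable def cut_pm_202_bb : Cut := Cut.of [[⟨0, 1, 0, 26843545⟩, ⟨1, 0, 0, 26843545⟩, ⟨2, 1, 0, 26843545⟩]]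

noncomputable def f_pm_202_bb : ℕ → ℕ → ℕ → ℕ → Bool := onCell 1239849684 370763052 1239849684 370763052 1040187392 5207648
    (rowB 3 eng mog cd1q2b cd1q2b pd0 0 false true false .pp 2 0 2 (qsf 1239849684 370763052 1239849684 370763052 0) ndB1q2b ndB1q2b pcB0 cut_pm_202_bb Ext.none)

def k0_pm_202_bb : ∃ t, chk3 f_pm_202_bb t 1 1 1 = true :=
  ⟨(l 3), by decide +kernel⟩

theorem c_pm_202_bb : CertB 1239849684 370763052 1239849684 370763052 1040187392 5207648 3 eng mog cd1q2b cd1q2b pd0 false true false .pp 2 0 2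
    ndB1q2b ndB1q2b pcB0 cut_pm_202_bb Ext.none :=
  certB0 (fam := false) (s1 := true) (s2 := false) (a := 2) (b := 0) (c := 2) (cn := .pp) (n1 := ndB1q2b) (n2 := ndB1q2b) (pc := pcB0) (cut := cut_pm_202_bb) (xt := Ext.none) (P1 := 1239849684) (W1 := 370763052) (P2 := 1239849684) (W2 := 370763052) (P3 := 1040187392) (W3 := 5207648) (N0 := 3) (En := eng) (mo := mog) (C1 := cd1q2b) (C2 := cd1q2b) (C3 := pd0)
    rfl k0_pm_202_bb

noncomputable def f_pm_203_a : ℕ → ℕ → ℕ → ℕ → Bool := onCell 0 536870912 0 536870912 1040187392 5207648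
    (rowB 3 eng mog cd1q2a cd1q3 pd0 1 false true false .up 2 0 3 (qsf 0 536870912 1610612736 536870912 0) ndB1q2a ndB1q3 pcB0 Cut.none Ext.none)

def k0_pm_203_a : ∃ t, chk3 f_pm_203_a t 1 1 1 = true :=
  ⟨(l 3), by decide +kernel⟩

theorem c_pm_203_a : CertB 0 536870912 1610612736 536870912 1040187392 5207648 3 eng mog cd1q2a cd1q3 pd0 false true false .up 2 0 3
    ndB1q2a ndB1q3 pcB0 Cut.none Ext.none :=
  certB1 (fam := false) (s1 := true) (s2 := false) (a := 2) (b := 0) (c := 3) (cn := .up) (n1 := ndB1q2a) (n2 := ndB1q3) (pc := pcB0) (cut := Cut.none) (xt := Ext.none) (P1 := 0) (W1 := 536870912) (P2 := 1610612736) (W2 := 536870912) (P3 := 1040187392) (W3 := 5207648) (N0 := 3) (En := eng) (mo := mog) (C1 := cd1q2a) (C2 := cd1q3) (C3 := pd0)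
    rfl (fun _ => rfl) k0_pm_203_a

noncomputable def f_pm_203_b : ℕ → ℕ → ℕ → ℕ → Bool := onCell 1239849684 370763052 1610612736 536870912 1040187392 5207648
    (rowB 3 eng mog cd1q2b cd1q3 pd0 0 false true false .up 2 0 3 (qsf 1239849684 370763052 1610612736 536870912 0) ndB1q2b ndB1q3 pcB0 Cut.none Ext.none)

def k0_pm_203_b : ∃ t, chk3 f_pm_203_b t 1 1 1 = true :=
  ⟨(l 3), by decide +kernel⟩

theorem c_pm_203_b : CertB 1239849684 370763052 1610612736 536870912 1040187392 5207648 3 eng mog cd1q2b cd1q3 pd0 false true false .up 2 0 3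
    ndB1q2b ndB1q3 pcB0 Cut.none Ext.none :=
  certB0 (fam := false) (s1 := true) (s2 := false) (a := 2) (b := 0) (c := 3) (cn := .up) (n1 := ndB1q2b) (n2 := ndB1q3) (pc := pcB0) (cut := Cut.none) (xt := Ext.none) (P1 := 1239849684) (W1 := 370763052) (P2 := 1610612736) (W2 := 536870912) (P3 := 1040187392) (W3 := 5207648) (N0 := 3) (En := eng) (mo := mog) (C1 := cd1q2b) (C2 := cd1q3) (C3 := pd0)
    rfl k0_pm_203_b

noncomputable def cut_pm_213_a : Cut := Cut.of [[⟨0, 1, 0, 15728640⟩, ⟨1, 1, 0, 15728640⟩, ⟨2, 2, 0, 524288⟩]]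

noncomputable def f_pm_213_a : ℕ → ℕ → ℕ → ℕ → Bool := onCell 0 536870912 1610612736 536870912 1040187392 5207648
    (rowB 3 eng mog cd1q2a cd1q3 pd1 0 false true false .pnn 2 1 3 (qsf 0 536870912 1610612736 536870912 1) ndB1q2a ndB1q3 pcB1 cut_pm_213_a Ext.none)

def k0_pm_213_a : ∃ t, chk3 f_pm_213_a t 1 1 1 = true :=
  ⟨(a (l 3) (b (l 3) (b (l 3) (a (l 3) (b (l 3) (a (l 3) (b (l 3) (a (l 3) (b (l 3) (a (l 3) (b (l 3) (a (l 3) (b (l 3) (b (l 3) (b (l 3) (b (l 3) (b (l 3) (l 6)))))))))))))))))), by decide +kernel⟩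

theorem c_pm_213_a : CertB 0 536870912 1610612736 536870912 1040187392 5207648 3 eng mog cd1q2a cd1q3 pd1 false true false .pnn 2 1 3
    ndB1q2a ndB1q3 pcB1 cut_pm_213_a Ext.none :=
  certB0 (fam := false) (s1 := true) (s2 := false) (a := 2) (b := 1) (c := 3) (cn := .pnn) (n1 := ndB1q2a) (n2 := ndB1q3) (pc := pcB1) (cut := cut_pm_213_a) (xt := Ext.none) (P1 := 0) (W1 := 536870912) (P2 := 1610612736) (W2 := 536870912) (P3 := 1040187392) (W3 := 5207648) (N0 := 3) (En := eng) (mo := mog) (C1 := cd1q2a) (C2 := cd1q3) (C3 := pd1)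
    rfl k0_pm_213_a

noncomputable def cut_pm_213_b : Cut := Cut.of [[⟨0, 1, 0, 15728640⟩, ⟨1, 1, 0, 15728640⟩, ⟨2, 2, 0, 524288⟩]]

noncomputable def f_pm_213_b : ℕ → ℕ → ℕ → ℕ → Bool := onCell 1239849684 370763052 1610612736 536870912 1040187392 5207648
    (rowB 3 eng mog cd1q2b cd1q3 pd1 0 false true false .pnn 2 1 3 (qsf 1239849684 370763052 1610612736 536870912 1) ndB1q2b ndB1q3 pcB1 cut_pm_213_b Ext.none)

def k0_pm_213_b : ∃ t, chk3 f_pm_213_b t 1 1 1 = true :=
  ⟨(l 3), by decide +kernel⟩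

theorem c_pm_213_b : CertB 1239849684 370763052 1610612736 536870912 1040187392 5207648 3 eng mog cd1q2b cd1q3 pd1 false true false .pnn 2 1 3
    ndB1q2b ndB1q3 pcB1 cut_pm_213_b Ext.none :=
  certB0 (fam := false) (s1 := true) (s2 := false) (a := 2) (b := 1) (c := 3) (cn := .pnn) (n1 := ndB1q2b) (n2 := ndB1q3) (pc := pcB1) (cut := cut_pm_213_b) (xt := Ext.none) (P1 := 1239849684) (W1 := 370763052) (P2 := 1610612736) (W2 := 536870912) (P3 := 1040187392) (W3 := 5207648) (N0 := 3) (En := eng) (mo := mog) (C1 := cd1q2b) (C2 := cd1q3) (C3 := pd1)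
    rfl k0_pm_213_b

noncomputable def f_pm_303 : ℕ → ℕ → ℕ → ℕ → Bool := onCell 1610612736 536870912 1610612736 536870912 1040187392 5207648
    (rowB 3 eng mog cd1q3 cd1q3 pd0 0 false true false .npn 3 0 3 (qsf 1610612736 536870912 1610612736 536870912 0) ndB1q3 ndB1q3 pcB0 Cut.none Ext.none)

def k0_pm_303 : ∃ t, chk3 f_pm_303 t 1 1 1 = true :=
  ⟨(l 3), by decide +kernel⟩

theorem c_pm_303 : CertB 1610612736 536870912 1610612736 536870912 1040187392 5207648 3 eng mog cd1q3 cd1q3 pd0 false true false .npn 3 0 3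
    ndB1q3 ndB1q3 pcB0 Cut.none Ext.none :=
  certB0 (fam := false) (s1 := true) (s2 := false) (a := 3) (b := 0) (c := 3) (cn := .npn) (n1 := ndB1q3) (n2 := ndB1q3) (pc := pcB0) (cut := Cut.none) (xt := Ext.none) (P1 := 1610612736) (W1 := 536870912) (P2 := 1610612736) (W2 := 536870912) (P3 := 1040187392) (W3 := 5207648) (N0 := 3) (En := eng) (mo := mog) (C1 := cd1q3) (C2 := cd1q3) (C3 := pd0)
    rfl k0_pm_303

noncomputable def f_pm_313 : ℕ → ℕ → ℕ → ℕ → Bool := onCell 1610612736 536870912 1610612736 536870912 1040187392 5207648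
    (rowB 3 eng mog cd1q3 cd1q3 pd1 0 false true false .dn 3 1 3 (qsf 1610612736 536870912 1610612736 536870912 1) ndB1q3 ndB1q3 pcB1 Cut.none Ext.none)

def k0_pm_313 : ∃ t, chk3 f_pm_313 t 1 1 1 = true :=
  ⟨(l 3), by decide +kernel⟩

theorem c_pm_313 : CertB 1610612736 536870912 1610612736 536870912 1040187392 5207648 3 eng mog cd1q3 cd1q3 pd1 false true false .dn 3 1 3
    ndB1q3 ndB1q3 pcB1 Cut.none Ext.none :=
  certB0 (fam := false) (s1 := true) (s2 := false) (a := 3) (b := 1) (c := 3) (cn := .dn) (n1 := ndB1q3) (n2 := ndB1q3) (pc := pcB1) (cut := Cut.none) (xt := Ext.none) (P1 := 1610612736) (W1 := 536870912) (P2 := 1610612736) (W2 := 536870912) (P3 := 1040187392) (W3 := 5207648) (N0 := 3) (En := eng) (mo := mog) (C1 := cd1q3) (C2 := cd1q3) (C3 := pd1)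
    rfl k0_pm_313

noncomputable def f_mm_001 : ℕ → ℕ → ℕ → ℕ → Bool := onCell 0 536870912 536870912 536870912 1040187392 5207648
    (rowB 3 eng mog cd1q0 cd1q1 pd0 0 false false false .up 0 0 1 (qsf 0 536870912 536870912 536870912 0) ndB1q0 ndB1q1 pcB0 Cut.none Ext.none)

def k0_mm_001 : ∃ t, chk3 f_mm_001 t 1 1 1 = true :=
  ⟨(l 3), by decide +kernel⟩

theorem c_mm_001 : CertB 0 536870912 536870912 536870912 1040187392 5207648 3 eng mog cd1q0 cd1q1 pd0 false false false .up 0 0 1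
    ndB1q0 ndB1q1 pcB0 Cut.none Ext.none :=
  certB0 (fam := false) (s1 := false) (s2 := false) (a := 0) (b := 0) (c := 1) (cn := .up) (n1 := ndB1q0) (n2 := ndB1q1) (pc := pcB0) (cut := Cut.none) (xt := Ext.none) (P1 := 0) (W1 := 536870912) (P2 := 536870912) (W2 := 536870912) (P3 := 1040187392) (W3 := 5207648) (N0 := 3) (En := eng) (mo := mog) (C1 := cd1q0) (C2 := cd1q1) (C3 := pd0)
    rfl k0_mm_001

noncomputable def f_mm_011 : ℕ → ℕ → ℕ → ℕ → Bool := onCell 0 536870912 536870912 536870912 1040187392 5207648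
    (rowB 3 eng mog cd1q0 cd1q1 pd1 0 false false false .pnn 0 1 1 (qsf 0 536870912 536870912 536870912 1) ndB1q0 ndB1q1 pcB1 Cut.none Ext.none)

def k0_mm_011 : ∃ t, chk3 f_mm_011 t 1 1 1 = true :=
  ⟨(l 3), by decide +kernel⟩

theorem c_mm_011 : CertB 0 536870912 536870912 536870912 1040187392 5207648 3 eng mog cd1q0 cd1q1 pd1 false false false .pnn 0 1 1
    ndB1q0 ndB1q1 pcB1 Cut.none Ext.none :=
  certB0 (fam := false) (s1 := false) (s2 := false) (a := 0) (b := 1) (c := 1) (cn := .pnn) (n1 := ndB1q0) (n2 := ndB1q1) (pc := pcB1) (cut := Cut.none) (xt := Ext.none) (P1 := 0) (W1 := 536870912) (P2 := 536870912) (W2 := 536870912) (P3 := 1040187392) (W3 := 5207648) (N0 := 3) (En := eng) (mo := mog) (C1 := cd1q0) (C2 := cd1q1) (C3 := pd1)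
    rfl k0_mm_011

noncomputable def f_mm_012_a : ℕ → ℕ → ℕ → ℕ → Bool := onCell 0 536870912 0 536870912 1040187392 5207648
    (rowB 3 eng mog cd1q0 cd1q2a pd1 0 false false false .pnp 0 1 2 (qsf 0 536870912 0 536870912 1) ndB1q0 ndB1q2a pcB1 Cut.none Ext.none)

def k0_mm_012_a : ∃ t, chk3 f_mm_012_a t 1 1 1 = true :=
  ⟨(l 5), by decide +kernel⟩

theorem c_mm_012_a : CertB 0 536870912 0 536870912 1040187392 5207648 3 eng mog cd1q0 cd1q2a pd1 false false false .pnp 0 1 2
    ndB1q0 ndB1q2a pcB1 Cut.none Ext.none :=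
  certB0 (fam := false) (s1 := false) (s2 := false) (a := 0) (b := 1) (c := 2) (cn := .pnp) (n1 := ndB1q0) (n2 := ndB1q2a) (pc := pcB1) (cut := Cut.none) (xt := Ext.none) (P1 := 0) (W1 := 536870912) (P2 := 0) (W2 := 536870912) (P3 := 1040187392) (W3 := 5207648) (N0 := 3) (En := eng) (mo := mog) (C1 := cd1q0) (C2 := cd1q2a) (C3 := pd1)
    rfl k0_mm_012_a

noncomputable def f_mm_012_b : ℕ → ℕ → ℕ → ℕ → Bool := onCell 0 536870912 1239849684 370763052 1040187392 5207648
    (rowB 3 eng mog cd1q0 cd1q2b pd1 0 false false false .pnp 0 1 2 (qsf 0 536870912 1239849684 370763052 1) ndB1q0 ndB1q2b pcB1 Cut.none Ext.none)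

def k0_mm_012_b : ∃ t, chk3 f_mm_012_b t 1 1 1 = true :=
  ⟨(l 5), by decide +kernel⟩

theorem c_mm_012_b : CertB 0 536870912 1239849684 370763052 1040187392 5207648 3 eng mog cd1q0 cd1q2b pd1 false false false .pnp 0 1 2
    ndB1q0 ndB1q2b pcB1 Cut.none Ext.none :=
  certB0 (fam := false) (s1 := false) (s2 := false) (a := 0) (b := 1) (c := 2) (cn := .pnp) (n1 := ndB1q0) (n2 := ndB1q2b) (pc := pcB1) (cut := Cut.none) (xt := Ext.none) (P1 := 0) (W1 := 536870912) (P2 := 1239849684) (W2 := 370763052) (P3 := 1040187392) (W3 := 5207648) (N0 := 3) (En := eng) (mo := mog) (C1 := cd1q0) (C2 := cd1q2b) (C3 := pd1)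
    rfl k0_mm_012_b

noncomputable def f_mm_022_a : ℕ → ℕ → ℕ → ℕ → Bool := onCell 0 536870912 0 536870912 1040187392 5207648
    (rowB 3 eng mog cd1q0 cd1q2a pd2 0 false false false .pp 0 2 2 (qsf 0 536870912 0 536870912 2) ndB1q0 ndB1q2a pcB2 Cut.none Ext.none)

def k0_mm_022_a : ∃ t, chk3 f_mm_022_a t 1 1 1 = true :=
  ⟨(l 5), by decide +kernel⟩

theorem c_mm_022_a : CertB 0 536870912 0 536870912 1040187392 5207648 3 eng mog cd1q0 cd1q2a pd2 false false false .pp 0 2 2
    ndB1q0 ndB1q2a pcB2 Cut.none Ext.none :=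
  certB0 (fam := false) (s1 := false) (s2 := false) (a := 0) (b := 2) (c := 2) (cn := .pp) (n1 := ndB1q0) (n2 := ndB1q2a) (pc := pcB2) (cut := Cut.none) (xt := Ext.none) (P1 := 0) (W1 := 536870912) (P2 := 0) (W2 := 536870912) (P3 := 1040187392) (W3 := 5207648) (N0 := 3) (En := eng) (mo := mog) (C1 := cd1q0) (C2 := cd1q2a) (C3 := pd2)
    rfl k0_mm_022_a

noncomputable def f_mm_022_b : ℕ → ℕ → ℕ → ℕ → Bool := onCell 0 536870912 1239849684 370763052 1040187392 5207648
    (rowB 3 eng mog cd1q0 cd1q2b pd2 0 false false false .pp 0 2 2 (qsf 0 536870912 1239849684 370763052 2) ndB1q0 ndB1q2b pcB2 Cut.none Ext.none)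

def k0_mm_022_b : ∃ t, chk3 f_mm_022_b t 1 1 1 = true :=
  ⟨(l 5), by decide +kernel⟩

theorem c_mm_022_b : CertB 0 536870912 1239849684 370763052 1040187392 5207648 3 eng mog cd1q0 cd1q2b pd2 false false false .pp 0 2 2
    ndB1q0 ndB1q2b pcB2 Cut.none Ext.none :=
  certB0 (fam := false) (s1 := false) (s2 := false) (a := 0) (b := 2) (c := 2) (cn := .pp) (n1 := ndB1q0) (n2 := ndB1q2b) (pc := pcB2) (cut := Cut.none) (xt := Ext.none) (P1 := 0) (W1 := 536870912) (P2 := 1239849684) (W2 := 370763052) (P3 := 1040187392) (W3 := 5207648) (N0 := 3) (En := eng) (mo := mog) (C1 := cd1q0) (C2 := cd1q2b) (C3 := pd2)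
    rfl k0_mm_022_b

noncomputable def f_mm_023 : ℕ → ℕ → ℕ → ℕ → Bool := onCell 0 536870912 1610612736 536870912 1040187392 5207648
    (rowB 3 eng mog cd1q0 cd1q3 pd2 0 false false false .up 0 2 3 (qsf 0 536870912 1610612736 536870912 2) ndB1q0 ndB1q3 pcB2 Cut.none Ext.none)

def k0_mm_023 : ∃ t, chk3 f_mm_023 t 1 1 1 = true :=
  ⟨(l 5), by decide +kernel⟩

theorem c_mm_023 : CertB 0 536870912 1610612736 536870912 1040187392 5207648 3 eng mog cd1q0 cd1q3 pd2 false false false .up 0 2 3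
    ndB1q0 ndB1q3 pcB2 Cut.none Ext.none :=
  certB0 (fam := false) (s1 := false) (s2 := false) (a := 0) (b := 2) (c := 3) (cn := .up) (n1 := ndB1q0) (n2 := ndB1q3) (pc := pcB2) (cut := Cut.none) (xt := Ext.none) (P1 := 0) (W1 := 536870912) (P2 := 1610612736) (W2 := 536870912) (P3 := 1040187392) (W3 := 5207648) (N0 := 3) (En := eng) (mo := mog) (C1 := cd1q0) (C2 := cd1q3) (C3 := pd2)
    rfl k0_mm_023

noncomputable def f_mm_033 : ℕ → ℕ → ℕ → ℕ → Bool := onCell 0 536870912 1610612736 536870912 1040187392 5207648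
    (rowB 3 eng mog cd1q0 cd1q3 pd3 0 false false false .pnn 0 3 3 (qsf 0 536870912 1610612736 536870912 3) ndB1q0 ndB1q3 pcB3 Cut.none Ext.none)

def k0_mm_033 : ∃ t, chk3 f_mm_033 t 1 1 1 = true :=
  ⟨(l 5), by decide +kernel⟩

theorem c_mm_033 : CertB 0 536870912 1610612736 536870912 1040187392 5207648 3 eng mog cd1q0 cd1q3 pd3 false false false .pnn 0 3 3
    ndB1q0 ndB1q3 pcB3 Cut.none Ext.none :=
  certB0 (fam := false) (s1 := false) (s2 := false) (a := 0) (b := 3) (c := 3) (cn := .pnn) (n1 := ndB1q0) (n2 := ndB1q3) (pc := pcB3) (cut := Cut.none) (xt := Ext.none) (P1 := 0) (W1 := 536870912) (P2 := 1610612736) (W2 := 536870912) (P3 := 1040187392) (W3 := 5207648) (N0 := 3) (En := eng) (mo := mog) (C1 := cd1q0) (C2 := cd1q3) (C3 := pd3)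
    rfl k0_mm_033

noncomputable def f_mm_101 : ℕ → ℕ → ℕ → ℕ → Bool := onCell 536870912 536870912 536870912 536870912 1040187392 5207648
    (rowB 3 eng mog cd1q1 cd1q1 pd0 0 false false false .npn 1 0 1 (qsf 536870912 536870912 536870912 536870912 0) ndB1q1 ndB1q1 pcB0 Cut.none Ext.none)

def k0_mm_101 : ∃ t, chk3 f_mm_101 t 1 1 1 = true :=
  ⟨(l 3), by decide +kernel⟩

theorem c_mm_101 : CertB 536870912 536870912 536870912 536870912 1040187392 5207648 3 eng mog cd1q1 cd1q1 pd0 false false false .npn 1 0 1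
    ndB1q1 ndB1q1 pcB0 Cut.none Ext.none :=
  certB0 (fam := false) (s1 := false) (s2 := false) (a := 1) (b := 0) (c := 1) (cn := .npn) (n1 := ndB1q1) (n2 := ndB1q1) (pc := pcB0) (cut := Cut.none) (xt := Ext.none) (P1 := 536870912) (W1 := 536870912) (P2 := 536870912) (W2 := 536870912) (P3 := 1040187392) (W3 := 5207648) (N0 := 3) (En := eng) (mo := mog) (C1 := cd1q1) (C2 := cd1q1) (C3 := pd0)
    rfl k0_mm_101

noncomputable def f_mm_102_a : ℕ → ℕ → ℕ → ℕ → Bool := onCell 536870912 536870912 0 536870912 1040187392 5207648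
    (rowB 3 eng mog cd1q1 cd1q2a pd0 0 false false false .npp 1 0 2 (qsf 536870912 536870912 0 536870912 0) ndB1q1 ndB1q2a pcB0 Cut.none Ext.none)

def k0_mm_102_a : ∃ t, chk3 f_mm_102_a t 1 1 1 = true :=
  ⟨(l 5), by decide +kernel⟩

theorem c_mm_102_a : CertB 536870912 536870912 0 536870912 1040187392 5207648 3 eng mog cd1q1 cd1q2a pd0 false false false .npp 1 0 2
    ndB1q1 ndB1q2a pcB0 Cut.none Ext.none :=
  certB0 (fam := false) (s1 := false) (s2 := false) (a := 1) (b := 0) (c := 2) (cn := .npp) (n1 := ndB1q1) (n2 := ndB1q2a) (pc := pcB0) (cut := Cut.none) (xt := Ext.none) (P1 := 536870912) (W1 := 536870912) (P2 := 0) (W2 := 536870912) (P3 := 1040187392) (W3 := 5207648) (N0 := 3) (En := eng) (mo := mog) (C1 := cd1q1) (C2 := cd1q2a) (C3 := pd0)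
    rfl k0_mm_102_a

noncomputable def f_mm_102_b : ℕ → ℕ → ℕ → ℕ → Bool := onCell 536870912 536870912 1239849684 370763052 1040187392 5207648
    (rowB 3 eng mog cd1q1 cd1q2b pd0 0 false false false .npp 1 0 2 (qsf 536870912 536870912 1239849684 370763052 0) ndB1q1 ndB1q2b pcB0 Cut.none Ext.none)

def k0_mm_102_b : ∃ t, chk3 f_mm_102_b t 1 1 1 = true :=
  ⟨(l 5), by decide +kernel⟩

theorem c_mm_102_b : CertB 536870912 536870912 1239849684 370763052 1040187392 5207648 3 eng mog cd1q1 cd1q2b pd0 false false false .npp 1 0 2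
    ndB1q1 ndB1q2b pcB0 Cut.none Ext.none :=
  certB0 (fam := false) (s1 := false) (s2 := false) (a := 1) (b := 0) (c := 2) (cn := .npp) (n1 := ndB1q1) (n2 := ndB1q2b) (pc := pcB0) (cut := Cut.none) (xt := Ext.none) (P1 := 536870912) (W1 := 536870912) (P2 := 1239849684) (W2 := 370763052) (P3 := 1040187392) (W3 := 5207648) (N0 := 3) (En := eng) (mo := mog) (C1 := cd1q1) (C2 := cd1q2b) (C3 := pd0)
    rfl k0_mm_102_b

noncomputable def f_mm_112_a : ℕ → ℕ → ℕ → ℕ → Bool := onCell 536870912 536870912 0 536870912 1040187392 5207648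
    (rowB 3 eng mog cd1q1 cd1q2a pd1 0 false false false .dn 1 1 2 (qsf 536870912 536870912 0 536870912 1) ndB1q1 ndB1q2a pcB1 Cut.none Ext.none)

def k0_mm_112_a : ∃ t, chk3 f_mm_112_a t 1 1 1 = true :=
  ⟨(l 5), by decide +kernel⟩

theorem c_mm_112_a : CertB 536870912 536870912 0 536870912 1040187392 5207648 3 eng mog cd1q1 cd1q2a pd1 false false false .dn 1 1 2
    ndB1q1 ndB1q2a pcB1 Cut.none Ext.none :=
  certB0 (fam := false) (s1 := false) (s2 := false) (a := 1) (b := 1) (c := 2) (cn := .dn) (n1 := ndB1q1) (n2 := ndB1q2a) (pc := pcB1) (cut := Cut.none) (xt := Ext.none) (P1 := 536870912) (W1 := 536870912) (P2 := 0) (W2 := 536870912) (P3 := 1040187392) (W3 := 5207648) (N0 := 3) (En := eng) (mo := mog) (C1 := cd1q1) (C2 := cd1q2a) (C3 := pd1)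
    rfl k0_mm_112_a

noncomputable def f_mm_112_b : ℕ → ℕ → ℕ → ℕ → Bool := onCell 536870912 536870912 1239849684 370763052 1040187392 5207648
    (rowB 3 eng mog cd1q1 cd1q2b pd1 0 false false false .dn 1 1 2 (qsf 536870912 536870912 1239849684 370763052 1) ndB1q1 ndB1q2b pcB1 Cut.none Ext.none)

def k0_mm_112_b : ∃ t, chk3 f_mm_112_b t 1 1 1 = true :=
  ⟨(l 5), by decide +kernel⟩

theorem c_mm_112_b : CertB 536870912 536870912 1239849684 370763052 1040187392 5207648 3 eng mog cd1q1 cd1q2b pd1 false false false .dn 1 1 2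
    ndB1q1 ndB1q2b pcB1 Cut.none Ext.none :=
  certB0 (fam := false) (s1 := false) (s2 := false) (a := 1) (b := 1) (c := 2) (cn := .dn) (n1 := ndB1q1) (n2 := ndB1q2b) (pc := pcB1) (cut := Cut.none) (xt := Ext.none) (P1 := 536870912) (W1 := 536870912) (P2 := 1239849684) (W2 := 370763052) (P3 := 1040187392) (W3 := 5207648) (N0 := 3) (En := eng) (mo := mog) (C1 := cd1q1) (C2 := cd1q2b) (C3 := pd1)
    rfl k0_mm_112_b

noncomputable def f_mm_113 : ℕ → ℕ → ℕ → ℕ → Bool := onCell 536870912 536870912 1610612736 536870912 1040187392 5207648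
    (rowB 3 eng mog cd1q1 cd1q3 pd1 0 false false false .nn 1 1 3 (qsf 536870912 536870912 1610612736 536870912 1) ndB1q1 ndB1q3 pcB1 Cut.none Ext.none)

def k0_mm_113 : ∃ t, chk3 f_mm_113 t 1 1 1 = true :=
  ⟨(l 5), by decide +kernel⟩

theorem c_mm_113 : CertB 536870912 536870912 1610612736 536870912 1040187392 5207648 3 eng mog cd1q1 cd1q3 pd1 false false false .nn 1 1 3
    ndB1q1 ndB1q3 pcB1 Cut.none Ext.none :=
  certB0 (fam := false) (s1 := false) (s2 := false) (a := 1) (b := 1) (c := 3) (cn := .nn) (n1 := ndB1q1) (n2 := ndB1q3) (pc := pcB1) (cut := Cut.none) (xt := Ext.none) (P1 := 536870912) (W1 := 536870912) (P2 := 1610612736) (W2 := 536870912) (P3 := 1040187392) (W3 := 5207648) (N0 := 3) (En := eng) (mo := mog) (C1 := cd1q1) (C2 := cd1q3) (C3 := pd1)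
    rfl k0_mm_113

noncomputable def f_mm_123 : ℕ → ℕ → ℕ → ℕ → Bool := onCell 536870912 536870912 1610612736 536870912 1040187392 5207648
    (rowB 3 eng mog cd1q1 cd1q3 pd2 0 false false false .npn 1 2 3 (qsf 536870912 536870912 1610612736 536870912 2) ndB1q1 ndB1q3 pcB2 Cut.none Ext.none)

def k0_mm_123 : ∃ t, chk3 f_mm_123 t 1 1 1 = true :=
  ⟨(l 5), by decide +kernel⟩

theorem c_mm_123 : CertB 536870912 536870912 1610612736 536870912 1040187392 5207648 3 eng mog cd1q1 cd1q3 pd2 false false false .npn 1 2 3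
    ndB1q1 ndB1q3 pcB2 Cut.none Ext.none :=
  certB0 (fam := false) (s1 := false) (s2 := false) (a := 1) (b := 2) (c := 3) (cn := .npn) (n1 := ndB1q1) (n2 := ndB1q3) (pc := pcB2) (cut := Cut.none) (xt := Ext.none) (P1 := 536870912) (W1 := 536870912) (P2 := 1610612736) (W2 := 536870912) (P3 := 1040187392) (W3 := 5207648) (N0 := 3) (En := eng) (mo := mog) (C1 := cd1q1) (C2 := cd1q3) (C3 := pd2)
    rfl k0_mm_123

noncomputable def f_mm_133 : ℕ → ℕ → ℕ → ℕ → Bool := onCell 536870912 536870912 1610612736 536870912 1040187392 5207648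
    (rowB 3 eng mog cd1q1 cd1q3 pd3 0 false false false .dn 1 3 3 (qsf 536870912 536870912 1610612736 536870912 3) ndB1q1 ndB1q3 pcB3 Cut.none Ext.none)

def k0_mm_133 : ∃ t, chk3 f_mm_133 t 1 1 1 = true :=
  ⟨(l 5), by decide +kernel⟩

theorem c_mm_133 : CertB 536870912 536870912 1610612736 536870912 1040187392 5207648 3 eng mog cd1q1 cd1q3 pd3 false false false .dn 1 3 3
    ndB1q1 ndB1q3 pcB3 Cut.none Ext.none :=
  certB0 (fam := false) (s1 := false) (s2 := false) (a := 1) (b := 3) (c := 3) (cn := .dn) (n1 := ndB1q1) (n2 := ndB1q3) (pc := pcB3) (cut := Cut.none) (xt := Ext.none) (P1 := 536870912) (W1 := 536870912) (P2 := 1610612736) (W2 := 536870912) (P3 := 1040187392) (W3 := 5207648) (N0 := 3) (En := eng) (mo := mog) (C1 := cd1q1) (C2 := cd1q3) (C3 := pd3)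
    rfl k0_mm_133

noncomputable def f_mm_202_aa : ℕ → ℕ → ℕ → ℕ → Bool := onCell 0 536870912 0 536870912 1040187392 5207648
    (rowB 3 eng mog cd1q2a cd1q2a pd0 0 false false false .pp 2 0 2 (qsf 0 536870912 0 536870912 0) ndB1q2a ndB1q2a pcB0 Cut.none Ext.none)

def k0_mm_202_aa : ∃ t, chk3 f_mm_202_aa t 1 1 1 = true :=
  ⟨(l 3), by decide +kernel⟩

theorem c_mm_202_aa : CertB 0 536870912 0 536870912 1040187392 5207648 3 eng mog cd1q2a cd1q2a pd0 false false false .pp 2 0 2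
    ndB1q2a ndB1q2a pcB0 Cut.none Ext.none :=
  certB0 (fam := false) (s1 := false) (s2 := false) (a := 2) (b := 0) (c := 2) (cn := .pp) (n1 := ndB1q2a) (n2 := ndB1q2a) (pc := pcB0) (cut := Cut.none) (xt := Ext.none) (P1 := 0) (W1 := 536870912) (P2 := 0) (W2 := 536870912) (P3 := 1040187392) (W3 := 5207648) (N0 := 3) (En := eng) (mo := mog) (C1 := cd1q2a) (C2 := cd1q2a) (C3 := pd0)
    rfl k0_mm_202_aa

noncomputable def f_mm_202_ab : ℕ → ℕ → ℕ → ℕ → Bool := onCell 0 536870912 1239849684 370763052 1040187392 5207648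
    (rowB 3 eng mog cd1q2a cd1q2b pd0 0 false false false .pp 2 0 2 (qsf 0 536870912 1239849684 370763052 0) ndB1q2a ndB1q2b pcB0 Cut.none Ext.none)

def k0_mm_202_ab : ∃ t, chk3 f_mm_202_ab t 1 1 1 = true :=
  ⟨(l 3), by decide +kernel⟩

theorem c_mm_202_ab : CertB 0 536870912 1239849684 370763052 1040187392 5207648 3 eng mog cd1q2a cd1q2b pd0 false false false .pp 2 0 2
    ndB1q2a ndB1q2b pcB0 Cut.none Ext.none :=
  certB0 (fam := false) (s1 := false) (s2 := false) (a := 2) (b := 0) (c := 2) (cn := .pp) (n1 := ndB1q2a) (n2 := ndB1q2b) (pc := pcB0) (cut := Cut.none) (xt := Ext.none) (P1 := 0) (W1 := 536870912) (P2 := 1239849684) (W2 := 370763052) (P3 := 1040187392) (W3 := 5207648) (N0 := 3) (En := eng) (mo := mog) (C1 := cd1q2a) (C2 := cd1q2b) (C3 := pd0)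
    rfl k0_mm_202_ab

noncomputable def f_mm_202_ba : ℕ → ℕ → ℕ → ℕ → Bool := onCell 1239849684 370763052 0 536870912 1040187392 5207648
    (rowB 3 eng mog cd1q2b cd1q2a pd0 0 false false false .pp 2 0 2 (qsf 1239849684 370763052 0 536870912 0) ndB1q2b ndB1q2a pcB0 Cut.none Ext.none)

def k0_mm_202_ba : ∃ t, chk3 f_mm_202_ba t 1 1 1 = true :=
  ⟨(l 3), by decide +kernel⟩

theorem c_mm_202_ba : CertB 1239849684 370763052 0 536870912 1040187392 5207648 3 eng mog cd1q2b cd1q2a pd0 false false false .pp 2 0 2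
    ndB1q2b ndB1q2a pcB0 Cut.none Ext.none :=
  certB0 (fam := false) (s1 := false) (s2 := false) (a := 2) (b := 0) (c := 2) (cn := .pp) (n1 := ndB1q2b) (n2 := ndB1q2a) (pc := pcB0) (cut := Cut.none) (xt := Ext.none) (P1 := 1239849684) (W1 := 370763052) (P2 := 0) (W2 := 536870912) (P3 := 1040187392) (W3 := 5207648) (N0 := 3) (En := eng) (mo := mog) (C1 := cd1q2b) (C2 := cd1q2a) (C3 := pd0)
    rfl k0_mm_202_ba

noncomputable def f_mm_202_bb : ℕ → ℕ → ℕ → ℕ → Bool := onCell 1239849684 370763052 1239849684 370763052 1040187392 5207648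
    (rowB 3 eng mog cd1q2b cd1q2b pd0 0 false false false .pp 2 0 2 (qsf 1239849684 370763052 1239849684 370763052 0) ndB1q2b ndB1q2b pcB0 Cut.none Ext.none)

def k0_mm_202_bb : ∃ t, chk3 f_mm_202_bb t 1 1 1 = true :=
  ⟨(l 3), by decide +kernel⟩

theorem c_mm_202_bb : CertB 1239849684 370763052 1239849684 370763052 1040187392 5207648 3 eng mog cd1q2b cd1q2b pd0 false false false .pp 2 0 2
    ndB1q2b ndB1q2b pcB0 Cut.none Ext.none :=
  certB0 (fam := false) (s1 := false) (s2 := false) (a := 2) (b := 0) (c := 2) (cn := .pp) (n1 := ndB1q2b) (n2 := ndB1q2b) (pc := pcB0) (cut := Cut.none) (xt := Ext.none) (P1 := 1239849684) (W1 := 370763052) (P2 := 1239849684) (W2 := 370763052) (P3 := 1040187392) (W3 := 5207648) (N0 := 3) (En := eng) (mo := mog) (C1 := cd1q2b) (C2 := cd1q2b) (C3 := pd0)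
    rfl k0_mm_202_bb

noncomputable def f_mm_203_a : ℕ → ℕ → ℕ → ℕ → Bool := onCell 0 536870912 0 536870912 1040187392 5207648
    (rowB 3 eng mog cd1q2a cd1q3 pd0 1 false false false .up 2 0 3 (qsf 0 536870912 1610612736 536870912 0) ndB1q2a ndB1q3 pcB0 Cut.none Ext.none)

def k0_mm_203_a : ∃ t, chk3 f_mm_203_a t 1 1 1 = true :=
  ⟨(l 3), by decide +kernel⟩

theorem c_mm_203_a : CertB 0 536870912 1610612736 536870912 1040187392 5207648 3 eng mog cd1q2a cd1q3 pd0 false false false .up 2 0 3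
    ndB1q2a ndB1q3 pcB0 Cut.none Ext.none :=
  certB1 (fam := false) (s1 := false) (s2 := false) (a := 2) (b := 0) (c := 3) (cn := .up) (n1 := ndB1q2a) (n2 := ndB1q3) (pc := pcB0) (cut := Cut.none) (xt := Ext.none) (P1 := 0) (W1 := 536870912) (P2 := 1610612736) (W2 := 536870912) (P3 := 1040187392) (W3 := 5207648) (N0 := 3) (En := eng) (mo := mog) (C1 := cd1q2a) (C2 := cd1q3) (C3 := pd0)
    rfl (fun _ => rfl) k0_mm_203_a

noncomputable def f_mm_203_b : ℕ → ℕ → ℕ → ℕ → Bool := onCell 1239849684 370763052 1610612736 536870912 1040187392 5207648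
    (rowB 3 eng mog cd1q2b cd1q3 pd0 0 false false false .up 2 0 3 (qsf 1239849684 370763052 1610612736 536870912 0) ndB1q2b ndB1q3 pcB0 Cut.none Ext.none)

def k0_mm_203_b : ∃ t, chk3 f_mm_203_b t 1 1 1 = true :=
  ⟨(l 3), by decide +kernel⟩

theorem c_mm_203_b : CertB 1239849684 370763052 1610612736 536870912 1040187392 5207648 3 eng mog cd1q2b cd1q3 pd0 false false false .up 2 0 3
    ndB1q2b ndB1q3 pcB0 Cut.none Ext.none :=
  certB0 (fam := false) (s1 := false) (s2 := false) (a := 2) (b := 0) (c := 3) (cn := .up) (n1 := ndB1q2b) (n2 := ndB1q3) (pc := pcB0) (cut := Cut.none) (xt := Ext.none) (P1 := 1239849684) (W1 := 370763052) (P2 := 1610612736) (W2 := 536870912) (P3 := 1040187392) (W3 := 5207648) (N0 := 3) (En := eng) (mo := mog) (C1 := cd1q2b) (C2 := cd1q3) (C3 := pd0)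
    rfl k0_mm_203_b

noncomputable def f_mm_213_a : ℕ → ℕ → ℕ → ℕ → Bool := onCell 0 536870912 1610612736 536870912 1040187392 5207648
    (rowB 3 eng mog cd1q2a cd1q3 pd1 0 false false false .pnn 2 1 3 (qsf 0 536870912 1610612736 536870912 1) ndB1q2a ndB1q3 pcB1 Cut.none Ext.none)

def k0_mm_213_a : ∃ t, chk3 f_mm_213_a t 1 1 1 = true :=
  ⟨(a (l 3) (l 5)), by decide +kernel⟩

theorem c_mm_213_a : CertB 0 536870912 1610612736 536870912 1040187392 5207648 3 eng mog cd1q2a cd1q3 pd1 false false false .pnn 2 1 3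
    ndB1q2a ndB1q3 pcB1 Cut.none Ext.none :=
  certB0 (fam := false) (s1 := false) (s2 := false) (a := 2) (b := 1) (c := 3) (cn := .pnn) (n1 := ndB1q2a) (n2 := ndB1q3) (pc := pcB1) (cut := Cut.none) (xt := Ext.none) (P1 := 0) (W1 := 536870912) (P2 := 1610612736) (W2 := 536870912) (P3 := 1040187392) (W3 := 5207648) (N0 := 3) (En := eng) (mo := mog) (C1 := cd1q2a) (C2 := cd1q3) (C3 := pd1)
    rfl k0_mm_213_a

noncomputable def f_mm_213_b : ℕ → ℕ → ℕ → ℕ → Bool := onCell 1239849684 370763052 1610612736 536870912 1040187392 5207648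
    (rowB 3 eng mog cd1q2b cd1q3 pd1 0 false false false .pnn 2 1 3 (qsf 1239849684 370763052 1610612736 536870912 1) ndB1q2b ndB1q3 pcB1 Cut.none Ext.none)

def k0_mm_213_b : ∃ t, chk3 f_mm_213_b t 1 1 1 = true :=
  ⟨(l 3), by decide +kernel⟩

theorem c_mm_213_b : CertB 1239849684 370763052 1610612736 536870912 1040187392 5207648 3 eng mog cd1q2b cd1q3 pd1 false false false .pnn 2 1 3
    ndB1q2b ndB1q3 pcB1 Cut.none Ext.none :=
  certB0 (fam := false) (s1 := false) (s2 := false) (a := 2) (b := 1) (c := 3) (cn := .pnn) (n1 := ndB1q2b) (n2 := ndB1q3) (pc := pcB1) (cut := Cut.none) (xt := Ext.none) (P1 := 1239849684) (W1 := 370763052) (P2 := 1610612736) (W2 := 536870912) (P3 := 1040187392) (W3 := 5207648) (N0 := 3) (En := eng) (mo := mog) (C1 := cd1q2b) (C2 := cd1q3) (C3 := pd1)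
    rfl k0_mm_213_b

noncomputable def f_mm_303 : ℕ → ℕ → ℕ → ℕ → Bool := onCell 1610612736 536870912 1610612736 536870912 1040187392 5207648
    (rowB 3 eng mog cd1q3 cd1q3 pd0 0 false false false .npn 3 0 3 (qsf 1610612736 536870912 1610612736 536870912 0) ndB1q3 ndB1q3 pcB0 Cut.none Ext.none)

def k0_mm_303 : ∃ t, chk3 f_mm_303 t 1 1 1 = true :=
  ⟨(l 3), by decide +kernel⟩

theorem c_mm_303 : CertB 1610612736 536870912 1610612736 536870912 1040187392 5207648 3 eng mog cd1q3 cd1q3 pd0 false false false .npn 3 0 3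
    ndB1q3 ndB1q3 pcB0 Cut.none Ext.none :=
  certB0 (fam := false) (s1 := false) (s2 := false) (a := 3) (b := 0) (c := 3) (cn := .npn) (n1 := ndB1q3) (n2 := ndB1q3) (pc := pcB0) (cut := Cut.none) (xt := Ext.none) (P1 := 1610612736) (W1 := 536870912) (P2 := 1610612736) (W2 := 536870912) (P3 := 1040187392) (W3 := 5207648) (N0 := 3) (En := eng) (mo := mog) (C1 := cd1q3) (C2 := cd1q3) (C3 := pd0)
    rfl k0_mm_303

noncomputable def f_mm_313 : ℕ → ℕ → ℕ → ℕ → Bool := onCell 1610612736 536870912 1610612736 536870912 1040187392 5207648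
    (rowB 3 eng mog cd1q3 cd1q3 pd1 0 false false false .dn 3 1 3 (qsf 1610612736 536870912 1610612736 536870912 1) ndB1q3 ndB1q3 pcB1 Cut.none Ext.none)

def k0_mm_313 : ∃ t, chk3 f_mm_313 t 1 1 1 = true :=
  ⟨(l 3), by decide +kernel⟩

theorem c_mm_313 : CertB 1610612736 536870912 1610612736 536870912 1040187392 5207648 3 eng mog cd1q3 cd1q3 pd1 false false false .dn 3 1 3
    ndB1q3 ndB1q3 pcB1 Cut.none Ext.none :=
  certB0 (fam := false) (s1 := false) (s2 := false) (a := 3) (b := 1) (c := 3) (cn := .dn) (n1 := ndB1q3) (n2 := ndB1q3) (pc := pcB1) (cut := Cut.none) (xt := Ext.none) (P1 := 1610612736) (W1 := 536870912) (P2 := 1610612736) (W2 := 536870912) (P3 := 1040187392) (W3 := 5207648) (N0 := 3) (En := eng) (mo := mog) (C1 := cd1q3) (C2 := cd1q3) (C3 := pd1)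
    rfl k0_mm_313

end Pool.Agent.Strip051.G.I9688_9736.Tab.C.BB11

namespace Pool.Agent.Strip051.G.I9688_9736.Tab.C.BB12

open Pool.Agent.Strip051.PB Pool.Agent.Strip051.PB.T
open Pool.Agent.Strip051.G.I9688_9736.Tab

noncomputable def f_pp_001 : ℕ → ℕ → ℕ → ℕ → Bool := onCell 0 536870912 536870912 536870912 1040187392 5207648
    (rowB 3 eng mog cd1q0 cd2q1 pd0 0 false true true .up 0 0 1 (qsf 0 536870912 536870912 536870912 0) ndB1q0 ndB2q1 pcB0 Cut.none Ext.none)

def k0_pp_001 : ∃ t, chk3 f_pp_001 t 1 1 1 = true :=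
  ⟨(l 3), by decide +kernel⟩

theorem c_pp_001 : CertB 0 536870912 536870912 536870912 1040187392 5207648 3 eng mog cd1q0 cd2q1 pd0 false true true .up 0 0 1
    ndB1q0 ndB2q1 pcB0 Cut.none Ext.none :=
  certB0 (fam := false) (s1 := true) (s2 := true) (a := 0) (b := 0) (c := 1) (cn := .up) (n1 := ndB1q0) (n2 := ndB2q1) (pc := pcB0) (cut := Cut.none) (xt := Ext.none) (P1 := 0) (W1 := 536870912) (P2 := 536870912) (W2 := 536870912) (P3 := 1040187392) (W3 := 5207648) (N0 := 3) (En := eng) (mo := mog) (C1 := cd1q0) (C2 := cd2q1) (C3 := pd0)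
    rfl k0_pp_001

noncomputable def f_pp_011 : ℕ → ℕ → ℕ → ℕ → Bool := onCell 0 536870912 536870912 536870912 1040187392 5207648
    (rowB 3 eng mog cd1q0 cd2q1 pd1 0 false true true .pnn 0 1 1 (qsf 0 536870912 536870912 536870912 1) ndB1q0 ndB2q1 pcB1 Cut.none Ext.none)

def k0_pp_011 : ∃ t, chk3 f_pp_011 t 1 1 1 = true :=
  ⟨(l 3), by decide +kernel⟩

theorem c_pp_011 : CertB 0 536870912 536870912 536870912 1040187392 5207648 3 eng mog cd1q0 cd2q1 pd1 false true true .pnn 0 1 1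
    ndB1q0 ndB2q1 pcB1 Cut.none Ext.none :=
  certB0 (fam := false) (s1 := true) (s2 := true) (a := 0) (b := 1) (c := 1) (cn := .pnn) (n1 := ndB1q0) (n2 := ndB2q1) (pc := pcB1) (cut := Cut.none) (xt := Ext.none) (P1 := 0) (W1 := 536870912) (P2 := 536870912) (W2 := 536870912) (P3 := 1040187392) (W3 := 5207648) (N0 := 3) (En := eng) (mo := mog) (C1 := cd1q0) (C2 := cd2q1) (C3 := pd1)
    rfl k0_pp_011

noncomputable def cut_pp_012_a : Cut := Cut.of [[⟨0, 0, 0, 26843545⟩, ⟨1, 1, 0, 26843545⟩, ⟨2, 1, 0, 26843545⟩]]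

noncomputable def f_pp_012_a : ℕ → ℕ → ℕ → ℕ → Bool := onCell 536870912 536870912 0 536870912 1040187392 5207648
    (rowB 3 eng mog cd1q0 cd2q2a pd1 2 false true true .pnp 0 1 2 (qsf 0 536870912 0 536870912 1) ndB1q0 ndB2q2a pcB1 cut_pp_012_a Ext.none)

def k0_pp_012_a : ∃ t, chk3 f_pp_012_a t 1 1 1 = true :=
  ⟨(a (l 3) (a (b (a (b (a (l 3) (b (l 147806005031) (l 3))) (l 3)) (b (a (b (l 16176392) (l 141900403815)) (l 16152160)) (a (b (l 131699971847) (l 3)) (b (l 150490310423) (l 197198124023))))) (l 3)) (a (b (a (b (l 16110808) (b (l 16138192) (l 162838336071))) (b (a (l 16066016) (l 16029440)) (a (l 16132560) (l 16104800)))) (b (a (b (l 223504906119) (l 3)) (a (b (l 16237896) (l 294908872391)) (b (l 16219432) (b (l 16301720) (l 304572639783))))) (l 3))) (b (a (b (a (l 15992056) (l 15955944)) (a (l 16076728) (b (l 16014200) (l 16086536)))) (b (a (l 15910064) (l 15856104)) (a (b (l 15973040) (l 16049840)) (b (l 15919480) (l 15997680))))) (a (b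 (a (b (l 16200880) (b (l 16289104) (l 16359536))) (b (l 16186848) (a (l 16320416) (l 16316152)))) (b (a (b (l 175723754807) (l 3)) (b (a (l 16441024) (l 16440432)) (a (l 223505442311) (l 16516360)))) (a (l 3) (b (l 3) (l 3))))) (b (a (b (l 16155616) (b (l 16255064) (l 16333880))) (b (l 16105696) (b (l 16207328) (l 16224960)))) (b (a (b (a (l 16431256) (l 16412720)) (a (l 16530712) (l 16513568))) (b (a (l 16389888) (l 16368360)) (a (l 16428824) (b (l 16443920) (l 16498360))))) (a (b (a (b (l 16612128) (l 537038435943)) (b (l 16596712) (b (l 16640976) (l 144048815175)))) (b (a (l 3) (b (l 531132945255) (l 3))) (l 3))) (b (a (b (l 16575688) (a (l 16641328) (l 16630944))) (b (b (l 16541144) (l 16570776)) (a (l 16621408) (b (l 16597016) (l 16628416))))) (a (a (b (b (l 16688472) (l 520932439191)) (l 3)) (b (b (l 16678464) (b (l 16702968) (l 6))) (l 6))) (b (a (b (l 16669144) (l 6)) (l 6)) (l 6)))))))))))), by decide +kernel⟩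

theorem c_pp_012_a : CertB 0 536870912 0 536870912 1040187392 5207648 3 eng mog cd1q0 cd2q2a pd1 false true true .pnp 0 1 2
    ndB1q0 ndB2q2a pcB1 cut_pp_012_a Ext.none :=
  certB2 (fam := false) (s1 := true) (s2 := true) (a := 0) (b := 1) (c := 2) (cn := .pnp) (n1 := ndB1q0) (n2 := ndB2q2a) (pc := pcB1) (cut := cut_pp_012_a) (xt := Ext.none) (P1 := 0) (W1 := 536870912) (P2 := 0) (W2 := 536870912) (P3 := 1040187392) (W3 := 5207648) (N0 := 3) (En := eng) (mo := mog) (C1 := cd1q0) (C2 := cd2q2a) (C3 := pd1)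
    rfl (fun _ => rfl) k0_pp_012_a

noncomputable def cut_pp_012_b : Cut := Cut.of [[⟨0, 0, 0, 26843545⟩, ⟨1, 1, 0, 26843545⟩, ⟨2, 1, 0, 26843545⟩]]

noncomputable def f_pp_012_b : ℕ → ℕ → ℕ → ℕ → Bool := onCell 536870912 536870912 1239849684 370763052 1040187392 5207648
    (rowB 3 eng mog cd1q0 cd2q2b pd1 2 false true true .pnp 0 1 2 (qsf 0 536870912 1239849684 370763052 1) ndB1q0 ndB2q2b pcB1 cut_pp_012_b Ext.none)

def k0_pp_012_b : ∃ t, chk3 f_pp_012_b t 1 1 1 = true :=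
  ⟨(a (a (l 2) (l 3)) (a (b (a (a (l 3) (b (b (a (l 16138656) (l 16132640)) (l 16033216)) (b (l 15951864) (l 15892392)))) (b (a (b (l 16120208) (l 16002336)) (b (l 16084000) (l 15950632))) (a (l 15866704) (l 15792952)))) (a (l 2) (b (a (l 15762648) (l 15661560)) (l 2)))) (a (b (a (b (l 15801632) (l 15694936)) (b (b (l 15944408) (l 15778264)) (l 15572696))) (a (b (l 15533848) (l 2)) (b (l 15380064) (l 15281104)))) (b (a (b (a (l 15787768) (l 15738360)) (l 15444400)) (b (b (a (l 15782288) (l 15724984)) (l 15552504)) (l 15295168))) (a (b (l 15217776) (l 15086960)) (b (l 15040280) (l 14882392))))))), by decide +kernel⟩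

theorem c_pp_012_b : CertB 0 536870912 1239849684 370763052 1040187392 5207648 3 eng mog cd1q0 cd2q2b pd1 false true true .pnp 0 1 2
    ndB1q0 ndB2q2b pcB1 cut_pp_012_b Ext.none :=
  certB2 (fam := false) (s1 := true) (s2 := true) (a := 0) (b := 1) (c := 2) (cn := .pnp) (n1 := ndB1q0) (n2 := ndB2q2b) (pc := pcB1) (cut := cut_pp_012_b) (xt := Ext.none) (P1 := 0) (W1 := 536870912) (P2 := 1239849684) (W2 := 370763052) (P3 := 1040187392) (W3 := 5207648) (N0 := 3) (En := eng) (mo := mog) (C1 := cd1q0) (C2 := cd2q2b) (C3 := pd1)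
    rfl (fun _ => rfl) k0_pp_012_b

noncomputable def cut_pp_022_a : Cut := Cut.of [[⟨0, 0, 0, 26843545⟩, ⟨1, 1, 0, 26843545⟩, ⟨2, 1, 0, 26843545⟩]]

noncomputable def f_pp_022_a : ℕ → ℕ → ℕ → ℕ → Bool := onCell 0 536870912 0 536870912 1040187392 5207648
    (rowB 3 eng mog cd1q0 cd2q2a pd2 0 false true true .pp 0 2 2 (qsf 0 536870912 0 536870912 2) ndB1q0 ndB2q2a pcB2 cut_pp_022_a Ext.none)

def k0_pp_022_a : ∃ t, chk3 f_pp_022_a t 1 1 1 = true :=
  ⟨(a (b (a (a (b (a (l 16169464) (l 16150856)) (b (a (l 16275408) (l 16237328)) (a (l 16366384) (l 16313728)))) (a (b (l 16135680) (b (l 16201328) (l 16262368))) (b (l 16081064) (b (l 16166616) (b (l 16198912) (l 16222808)))))) (a (b (a (b (l 16107704) (l 16112904)) (b (l 1) (l 1))) (a (b (l 294774303783) (a (l 431676488071) (l 1))) (l 1))) (l 1))) (a (b (a (a (b (b (l 16438896) (l 16488848)) (a (b (l 16559088) (l 16610048)) (l 16479512))) (b (l 16396048) (b (l 16457080) (l 16454880)))) (b (a (b (l 16310672)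 (l 16343640)) (b (l 300680092423) (l 346314157143))) (a (b (a (l 16396120) (l 16355504)) (a (l 16429032) (l 419328862791))) (b (l 537440372039) (l 1))))) (a (b (a (b (a (b (l 16625920) (l 16593168)) (l 16567224)) (a (b (a (b (l 16611080) (l 16633480)) (b (l 16674472) (l 16662376))) (a (l 16633208) (l 16668400))) (b (a (l 16610888) (l 16627136)) (a (b (l 16666016) (l 16669544)) (b (l 16640680) (l 16647304)))))) (a (b (l 16559296) (b (l 16587096) (b (l 16600312) (a (l 16621792) (l 16594416))))) (b (l 224981828183) (b (l 345777853591) (l 616360904951))))) (a (b (a (b (a (b (l 16675048) (l 16688976)) (l 16676688)) (b (a (l 16702856) (l 16705008)) (l 6))) (b (a (l 16675752) (l 16632000)) (a (b (l 16683008) (l 6)) (b (l 154652106343) (a (l 445636179063) (l 1)))))) (a (l 6) (a (l 6) (l 1)))) (b (a (a (b (a (l 241088280471) (l 415034428615)) (l 1)) (l 1)) (l 1)) (l 1)))) (b (a (b (a (l 468721128487) (l 1)) (l 1)) (l 1)) (l 1)))) (b (l 1) (l 1)))) (l 1)),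 by decide +kernel⟩

theorem c_pp_022_a : CertB 0 536870912 0 536870912 1040187392 5207648 3 eng mog cd1q0 cd2q2a pd2 false true true .pp 0 2 2
    ndB1q0 ndB2q2a pcB2 cut_pp_022_a Ext.none :=
  certB0 (fam := false) (s1 := true) (s2 := true) (a := 0) (b := 2) (c := 2) (cn := .pp) (n1 := ndB1q0) (n2 := ndB2q2a) (pc := pcB2) (cut := cut_pp_022_a) (xt := Ext.none) (P1 := 0) (W1 := 536870912) (P2 := 0) (W2 := 536870912) (P3 := 1040187392) (W3 := 5207648) (N0 := 3) (En := eng) (mo := mog) (C1 := cd1q0) (C2 := cd2q2a) (C3 := pd2)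
    rfl k0_pp_022_a

noncomputable def cut_pp_022_b : Cut := Cut.of [[⟨0, 0, 0, 26843545⟩, ⟨1, 1, 0, 26843545⟩, ⟨2, 1, 0, 26843545⟩]]

noncomputable def f_pp_022_b : ℕ → ℕ → ℕ → ℕ → Bool := onCell 1073741824 536870912 1239849684 370763052 1040187392 5207648
    (rowB 3 eng mog cd1q0 cd2q2b pd2 2 false true true .pp 0 2 2 (qsf 0 536870912 1239849684 370763052 2) ndB1q0 ndB2q2b pcB2 cut_pp_022_b Ext.none)

def k0_pp_022_b : ∃ t, chk3 f_pp_022_b t 1 1 1 = true :=
  ⟨(a (b (a (a (b (b (a (l 16002152) (l 15995168)) (l 15709416)) (b (l 15609224) (l 15447432))) (b (b (a (l 15990296) (l 15988184)) (l 15767944)) (b (l 15567632) (l 15389640)))) (b (a (b (a (l 15989736) (l 15996232)) (l 15750200)) (b (a (l 16009648) (l 1)) (a (l 15744248) (l 15748712)))) (a (b (l 15528712) (l 15330176)) (b (l 15436592) (l 15275488))))) (a (b (a (l 15248952) (l 15167488)) (a (l 15065160) (l 14951312))) (b (a (l 15078584) (l 14988920)) (a (l 14822728) (l 14686856))))) (b (a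 (b (l 1) (a (b (a (l 15486888) (l 15490096)) (l 150890839591)) (b (l 1) (a (l 15217288) (l 1))))) (l 1)) (a (b (a (b (l 15006328) (l 14804296)) (b (l 184176270999) (l 14723200))) (a (l 14552520) (b (l 14517592) (l 14338672)))) (b (a (b (l 1) (l 315172214551)) (l 1)) (a (b (l 14432112) (l 14222976)) (b (l 256653269703) (l 287254371847))))))), by decide +kernel⟩

theorem c_pp_022_b : CertB 0 536870912 1239849684 370763052 1040187392 5207648 3 eng mog cd1q0 cd2q2b pd2 false true true .pp 0 2 2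
    ndB1q0 ndB2q2b pcB2 cut_pp_022_b Ext.none :=
  certB2 (fam := false) (s1 := true) (s2 := true) (a := 0) (b := 2) (c := 2) (cn := .pp) (n1 := ndB1q0) (n2 := ndB2q2b) (pc := pcB2) (cut := cut_pp_022_b) (xt := Ext.none) (P1 := 0) (W1 := 536870912) (P2 := 1239849684) (W2 := 370763052) (P3 := 1040187392) (W3 := 5207648) (N0 := 3) (En := eng) (mo := mog) (C1 := cd1q0) (C2 := cd2q2b) (C3 := pd2)
    rfl (fun _ => rfl) k0_pp_022_b

noncomputable def f_pp_023 : ℕ → ℕ → ℕ → ℕ → Bool := onCell 1073741824 536870912 1610612736 536870912 1040187392 5207648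
    (rowB 3 eng mog cd1q0 cd2q3 pd2 2 false true true .up 0 2 3 (qsf 0 536870912 1610612736 536870912 2) ndB1q0 ndB2q3 pcB2 Cut.none Ext.none)

def k0_pp_023 : ∃ t, chk3 f_pp_023 t 1 1 1 = true :=
  ⟨(a (b (a (b (a (l 15304912) (l 15158248)) (a (l 2) (l 15007936))) (b (a (l 14985728) (l 14798008)) (a (l 14778976) (l 14526792)))) (a (l 2) (b (a (l 2) (l 14418992)) (l 2)))) (b (a (b (a (l 14606224) (b (l 14546544) (l 14298136))) (a (l 14265616) (l 14009912))) (b (a (b (l 14399424) (l 14114144)) (b (l 14285480) (l 13962624))) (a (l 13774320) (b (l 13688720) (l 13460008))))) (a (b (a (l 14087304) (l 13760792)) (b (l 13859032) (l 2))) (b (a (l 13457472) (b (l 13273024) (a (l 13185408) (l 13156176)))) (a (b (l 13304128) (a (l 2) (l 13363496))) (b (a (l 13218112) (l 13457592)) (a (l 13664176) (l 14129512)))))))), by decide +kernel⟩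

theorem c_pp_023 : CertB 0 536870912 1610612736 536870912 1040187392 5207648 3 eng mog cd1q0 cd2q3 pd2 false true true .up 0 2 3
    ndB1q0 ndB2q3 pcB2 Cut.none Ext.none :=
  certB2 (fam := false) (s1 := true) (s2 := true) (a := 0) (b := 2) (c := 3) (cn := .up) (n1 := ndB1q0) (n2 := ndB2q3) (pc := pcB2) (cut := Cut.none) (xt := Ext.none) (P1 := 0) (W1 := 536870912) (P2 := 1610612736) (W2 := 536870912) (P3 := 1040187392) (W3 := 5207648) (N0 := 3) (En := eng) (mo := mog) (C1 := cd1q0) (C2 := cd2q3) (C3 := pd2)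
    rfl (fun _ => rfl) k0_pp_023

noncomputable def f_pp_033 : ℕ → ℕ → ℕ → ℕ → Bool := onCell 1610612736 536870912 1610612736 536870912 1040187392 5207648
    (rowB 3 eng mog cd1q0 cd2q3 pd3 2 false true true .pnn 0 3 3 (qsf 0 536870912 1610612736 536870912 3) ndB1q0 ndB2q3 pcB3 Cut.none Ext.none)

def k0_pp_033 : ∃ t, chk3 f_pp_033 t 1 1 1 = true :=
  ⟨(a (b (a (b (b (a (l 476769964135) (a (l 605618951671) (l 1))) (a (l 15032184) (l 468717138279))) (a (b (l 15469536) (l 15835216)) (b (a (l 15211872) (l 15035120)) (l 15495912)))) (b (a (b (l 1) (a (l 532067355975) (l 1))) (l 1)) (a (b (a (l 486971094903) (l 587365556087)) (l 15167088)) (b (b (l 1) (l 748963345175)) (l 359195706039))))) (a (b (a (l 16242576) (l 15977616)) (a (l 16426856) (b (l 16224800) (l 16319968)))) (b (a (l 15687048) (b (l 15014016) (l 15522920))) (a (b (l 16037528) (l 16204008)) (l 4))))) (b (a (b (l 1) (a (b (l 1) (a (l 725341081079) (l 1))) (l 1))) (l 1)) (b (a (a (a (l 448854217303)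 (l 4)) (l 4)) (a (b (l 1) (l 4)) (l 1))) (l 4)))), by decide +kernel⟩

theorem c_pp_033 : CertB 0 536870912 1610612736 536870912 1040187392 5207648 3 eng mog cd1q0 cd2q3 pd3 false true true .pnn 0 3 3
    ndB1q0 ndB2q3 pcB3 Cut.none Ext.none :=
  certB2 (fam := false) (s1 := true) (s2 := true) (a := 0) (b := 3) (c := 3) (cn := .pnn) (n1 := ndB1q0) (n2 := ndB2q3) (pc := pcB3) (cut := Cut.none) (xt := Ext.none) (P1 := 0) (W1 := 536870912) (P2 := 1610612736) (W2 := 536870912) (P3 := 1040187392) (W3 := 5207648) (N0 := 3) (En := eng) (mo := mog) (C1 := cd1q0) (C2 := cd2q3) (C3 := pd3)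
    rfl (fun _ => rfl) k0_pp_033

noncomputable def f_pp_101 : ℕ → ℕ → ℕ → ℕ → Bool := onCell 536870912 536870912 536870912 536870912 1040187392 5207648
    (rowB 3 eng mog cd1q1 cd2q1 pd0 0 false true true .npn 1 0 1 (qsf 536870912 536870912 536870912 536870912 0) ndB1q1 ndB2q1 pcB0 Cut.none Ext.none)

def k0_pp_101 : ∃ t, chk3 f_pp_101 t 1 1 1 = true :=
  ⟨(l 3), by decide +kernel⟩

theorem c_pp_101 : CertB 536870912 536870912 536870912 536870912 1040187392 5207648 3 eng mog cd1q1 cd2q1 pd0 false true true .npn 1 0 1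
    ndB1q1 ndB2q1 pcB0 Cut.none Ext.none :=
  certB0 (fam := false) (s1 := true) (s2 := true) (a := 1) (b := 0) (c := 1) (cn := .npn) (n1 := ndB1q1) (n2 := ndB2q1) (pc := pcB0) (cut := Cut.none) (xt := Ext.none) (P1 := 536870912) (W1 := 536870912) (P2 := 536870912) (W2 := 536870912) (P3 := 1040187392) (W3 := 5207648) (N0 := 3) (En := eng) (mo := mog) (C1 := cd1q1) (C2 := cd2q1) (C3 := pd0)
    rfl k0_pp_101

noncomputable def f_pp_102_a : ℕ → ℕ → ℕ → ℕ → Bool := onCell 536870912 536870912 0 536870912 1040187392 5207648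
    (rowB 3 eng mog cd1q1 cd2q2a pd0 0 false true true .npp 1 0 2 (qsf 536870912 536870912 0 536870912 0) ndB1q1 ndB2q2a pcB0 Cut.none Ext.none)

def k0_pp_102_a : ∃ t, chk3 f_pp_102_a t 1 1 1 = true :=
  ⟨(a (l 3) (l 3)), by decide +kernel⟩

theorem c_pp_102_a : CertB 536870912 536870912 0 536870912 1040187392 5207648 3 eng mog cd1q1 cd2q2a pd0 false true true .npp 1 0 2
    ndB1q1 ndB2q2a pcB0 Cut.none Ext.none :=
  certB0 (fam := false) (s1 := true) (s2 := true) (a := 1) (b := 0) (c := 2) (cn := .npp) (n1 := ndB1q1) (n2 := ndB2q2a) (pc := pcB0) (cut := Cut.none) (xt := Ext.none) (P1 := 536870912) (W1 := 536870912) (P2 := 0) (W2 := 536870912) (P3 := 1040187392) (W3 := 5207648) (N0 := 3) (En := eng) (mo := mog) (C1 := cd1q1) (C2 := cd2q2a) (C3 := pd0)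
    rfl k0_pp_102_a

noncomputable def f_pp_102_b : ℕ → ℕ → ℕ → ℕ → Bool := onCell 536870912 536870912 0 536870912 1040187392 5207648
    (rowB 3 eng mog cd1q1 cd2q2b pd0 1 false true true .npp 1 0 2 (qsf 536870912 536870912 1239849684 370763052 0) ndB1q1 ndB2q2b pcB0 Cut.none Ext.none)

def k0_pp_102_b : ∃ t, chk3 f_pp_102_b t 1 1 1 = true :=
  ⟨(l 3), by decide +kernel⟩

theorem c_pp_102_b : CertB 536870912 536870912 1239849684 370763052 1040187392 5207648 3 eng mog cd1q1 cd2q2b pd0 false true true .npp 1 0 2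
    ndB1q1 ndB2q2b pcB0 Cut.none Ext.none :=
  certB1 (fam := false) (s1 := true) (s2 := true) (a := 1) (b := 0) (c := 2) (cn := .npp) (n1 := ndB1q1) (n2 := ndB2q2b) (pc := pcB0) (cut := Cut.none) (xt := Ext.none) (P1 := 536870912) (W1 := 536870912) (P2 := 1239849684) (W2 := 370763052) (P3 := 1040187392) (W3 := 5207648) (N0 := 3) (En := eng) (mo := mog) (C1 := cd1q1) (C2 := cd2q2b) (C3 := pd0)
    rfl (fun _ => rfl) k0_pp_102_b

noncomputable def f_pp_112_a : ℕ → ℕ → ℕ → ℕ → Bool := onCell 536870912 536870912 0 536870912 1040187392 5207648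
    (rowB 3 eng mog cd1q1 cd2q2a pd1 0 false true true .dn 1 1 2 (qsf 536870912 536870912 0 536870912 1) ndB1q1 ndB2q2a pcB1 Cut.none Ext.none)

def k0_pp_112_a : ∃ t, chk3 f_pp_112_a t 1 1 1 = true :=
  ⟨(a (l 3) (l 1)), by decide +kernel⟩

theorem c_pp_112_a : CertB 536870912 536870912 0 536870912 1040187392 5207648 3 eng mog cd1q1 cd2q2a pd1 false true true .dn 1 1 2
    ndB1q1 ndB2q2a pcB1 Cut.none Ext.none :=
  certB0 (fam := false) (s1 := true) (s2 := true) (a := 1) (b := 1) (c := 2) (cn := .dn) (n1 := ndB1q1) (n2 := ndB2q2a) (pc := pcB1) (cut := Cut.none) (xt := Ext.none) (P1 := 536870912) (W1 := 536870912) (P2 := 0) (W2 := 536870912) (P3 := 1040187392) (W3 := 5207648) (N0 := 3) (En := eng) (mo := mog) (C1 := cd1q1) (C2 := cd2q2a) (C3 := pd1)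
    rfl k0_pp_112_a

noncomputable def f_pp_112_b : ℕ → ℕ → ℕ → ℕ → Bool := onCell 536870912 536870912 536870912 536870912 1040187392 5207648
    (rowB 3 eng mog cd1q1 cd2q2b pd1 1 false true true .dn 1 1 2 (qsf 536870912 536870912 1239849684 370763052 1) ndB1q1 ndB2q2b pcB1 Cut.none Ext.none)

def k0_pp_112_b : ∃ t, chk3 f_pp_112_b t 1 1 1 = true :=
  ⟨(a (b (l 3) (a (b (a (b (l 218673658103) (l 16623848)) (b (l 173576635287) (l 16485648))) (b (b (l 16318696) (l 16070032)) (b (l 15884656) (l 15643672)))) (b (b (a (l 180018822487) (l 3)) (b (l 16006456) (l 16134296))) (b (b (l 15973080) (l 2)) (l 2))))) (b (l 3) (b (a (b (l 3) (l 2)) (l 2)) (l 2)))), by decide +kernel⟩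

theorem c_pp_112_b : CertB 536870912 536870912 1239849684 370763052 1040187392 5207648 3 eng mog cd1q1 cd2q2b pd1 false true true .dn 1 1 2
    ndB1q1 ndB2q2b pcB1 Cut.none Ext.none :=
  certB1 (fam := false) (s1 := true) (s2 := true) (a := 1) (b := 1) (c := 2) (cn := .dn) (n1 := ndB1q1) (n2 := ndB2q2b) (pc := pcB1) (cut := Cut.none) (xt := Ext.none) (P1 := 536870912) (W1 := 536870912) (P2 := 1239849684) (W2 := 370763052) (P3 := 1040187392) (W3 := 5207648) (N0 := 3) (En := eng) (mo := mog) (C1 := cd1q1) (C2 := cd2q2b) (C3 := pd1)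
    rfl (fun _ => rfl) k0_pp_112_b

noncomputable def f_pp_113 : ℕ → ℕ → ℕ → ℕ → Bool := onCell 536870912 536870912 536870912 536870912 1040187392 5207648
    (rowB 3 eng mog cd1q1 cd2q3 pd1 1 false true true .nn 1 1 3 (qsf 536870912 536870912 1610612736 536870912 1) ndB1q1 ndB2q3 pcB1 Cut.none Ext.none)

def k0_pp_113 : ∃ t, chk3 f_pp_113 t 1 1 1 = true :=
  ⟨(b (a (l 3) (l 3)) (b (a (a (b (l 1) (l 374768130135)) (b (a (l 315175670007) (l 3)) (a (l 16334336) (l 228873464455)))) (a (b (l 3) (a (l 267527188775) (l 273969034279))) (b (l 3) (a (l 281484633127) (l 290610908135))))) (b (a (a (b (l 16081760) (l 16041480)) (b (l 16108528) (l 15925144))) (a (b (l 15560680) (l 15394992)) (b (a (l 15169960) (l 14971856)) (a (l 15069392) (l 14981552))))) (a (b (a (l 15987904) (l 15716152)) (a (l 15920704) (l 15489512))) (a (b (l 15202624) (l 14924920)) (b (a (l 14968704) (l 15126680)) (a (l 14869056) (l 15706192)))))))), by decide +kernel⟩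

theorem c_pp_113 : CertB 536870912 536870912 1610612736 536870912 1040187392 5207648 3 eng mog cd1q1 cd2q3 pd1 false true true .nn 1 1 3
    ndB1q1 ndB2q3 pcB1 Cut.none Ext.none :=
  certB1 (fam := false) (s1 := true) (s2 := true) (a := 1) (b := 1) (c := 3) (cn := .nn) (n1 := ndB1q1) (n2 := ndB2q3) (pc := pcB1) (cut := Cut.none) (xt := Ext.none) (P1 := 536870912) (W1 := 536870912) (P2 := 1610612736) (W2 := 536870912) (P3 := 1040187392) (W3 := 5207648) (N0 := 3) (En := eng) (mo := mog) (C1 := cd1q1) (C2 := cd2q3) (C3 := pd1)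
    rfl (fun _ => rfl) k0_pp_113

noncomputable def f_pp_123 : ℕ → ℕ → ℕ → ℕ → Bool := onCell 1073741824 536870912 1610612736 536870912 1040187392 5207648
    (rowB 3 eng mog cd1q1 cd2q3 pd2 2 false true true .npn 1 2 3 (qsf 536870912 536870912 1610612736 536870912 2) ndB1q1 ndB2q3 pcB2 Cut.none Ext.none)

def k0_pp_123 : ∃ t, chk3 f_pp_123 t 1 1 1 = true :=
  ⟨(a (b (a (b (a (l 15867800) (l 15710168)) (a (l 15634120) (l 15373160))) (b (a (l 15346520) (l 1)) (a (l 15015952) (l 14462896)))) (a (b (a (b (l 15330376) (l 15216336)) (l 15090896)) (a (b (a (l 15273160) (l 15313808)) (b (l 15880040) (l 16249808))) (b (l 15176392) (b (l 15506344) (l 15949280))))) (b (a (l 14724216) (l 14278992)) (b (a (l 14734440) (l 14175888)) (a (l 15055592) (l 14319656)))))) (b (a (b (l 1) (a (l 14241768) (l 1))) (l 1)) (a (b (a (l 13828264) (l 13420992)) (b (a (l 13604680) (l 13081880)) (a (l 13595904) (l 12944496)))) (b (a (l 12841856) (l 1)) (a (b (l 12643232) (a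 (l 12551632) (l 12503736))) (b (a (l 12546704) (l 1)) (a (l 12772248) (l 13227536)))))))), by decide +kernel⟩

theorem c_pp_123 : CertB 536870912 536870912 1610612736 536870912 1040187392 5207648 3 eng mog cd1q1 cd2q3 pd2 false true true .npn 1 2 3
    ndB1q1 ndB2q3 pcB2 Cut.none Ext.none :=
  certB2 (fam := false) (s1 := true) (s2 := true) (a := 1) (b := 2) (c := 3) (cn := .npn) (n1 := ndB1q1) (n2 := ndB2q3) (pc := pcB2) (cut := Cut.none) (xt := Ext.none) (P1 := 536870912) (W1 := 536870912) (P2 := 1610612736) (W2 := 536870912) (P3 := 1040187392) (W3 := 5207648) (N0 := 3) (En := eng) (mo := mog) (C1 := cd1q1) (C2 := cd2q3) (C3 := pd2)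
    rfl (fun _ => rfl) k0_pp_123

noncomputable def f_pp_133 : ℕ → ℕ → ℕ → ℕ → Bool := onCell 1610612736 536870912 1610612736 536870912 1040187392 5207648
    (rowB 3 eng mog cd1q1 cd2q3 pd3 2 false true true .dn 1 3 3 (qsf 536870912 536870912 1610612736 536870912 3) ndB1q1 ndB2q3 pcB3 Cut.none Ext.none)

def k0_pp_133 : ∃ t, chk3 f_pp_133 t 1 1 1 = true :=
  ⟨(a (b (l 1) (a (b (l 1) (a (l 15428992) (l 1))) (l 1))) (l 1)), by decide +kernel⟩

theorem c_pp_133 : CertB 536870912 536870912 1610612736 536870912 1040187392 5207648 3 eng mog cd1q1 cd2q3 pd3 false true true .dn 1 3 3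
    ndB1q1 ndB2q3 pcB3 Cut.none Ext.none :=
  certB2 (fam := false) (s1 := true) (s2 := true) (a := 1) (b := 3) (c := 3) (cn := .dn) (n1 := ndB1q1) (n2 := ndB2q3) (pc := pcB3) (cut := Cut.none) (xt := Ext.none) (P1 := 536870912) (W1 := 536870912) (P2 := 1610612736) (W2 := 536870912) (P3 := 1040187392) (W3 := 5207648) (N0 := 3) (En := eng) (mo := mog) (C1 := cd1q1) (C2 := cd2q3) (C3 := pd3)
    rfl (fun _ => rfl) k0_pp_133

noncomputable def f_pp_202_aa : ℕ → ℕ → ℕ → ℕ → Bool := onCell 0 536870912 0 536870912 1040187392 5207648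
    (rowB 3 eng mog cd1q2a cd2q2a pd0 0 false true true .pp 2 0 2 (qsf 0 536870912 0 536870912 0) ndB1q2a ndB2q2a pcB0 Cut.none Ext.none)

def k0_pp_202_aa : ∃ t, chk3 f_pp_202_aa t 1 1 1 = true :=
  ⟨(l 3), by decide +kernel⟩

theorem c_pp_202_aa : CertB 0 536870912 0 536870912 1040187392 5207648 3 eng mog cd1q2a cd2q2a pd0 false true true .pp 2 0 2
    ndB1q2a ndB2q2a pcB0 Cut.none Ext.none :=
  certB0 (fam := false) (s1 := true) (s2 := true) (a := 2) (b := 0) (c := 2) (cn := .pp) (n1 := ndB1q2a) (n2 := ndB2q2a) (pc := pcB0) (cut := Cut.none) (xt := Ext.none) (P1 := 0) (W1 := 536870912) (P2 := 0) (W2 := 536870912) (P3 := 1040187392) (W3 := 5207648) (N0 := 3) (En := eng) (mo := mog) (C1 := cd1q2a) (C2 := cd2q2a) (C3 := pd0)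
    rfl k0_pp_202_aa

noncomputable def f_pp_202_ab : ℕ → ℕ → ℕ → ℕ → Bool := onCell 0 536870912 1239849684 370763052 1040187392 5207648
    (rowB 3 eng mog cd1q2a cd2q2b pd0 0 false true true .pp 2 0 2 (qsf 0 536870912 1239849684 370763052 0) ndB1q2a ndB2q2b pcB0 Cut.none Ext.none)

def k0_pp_202_ab : ∃ t, chk3 f_pp_202_ab t 1 1 1 = true :=
  ⟨(l 3), by decide +kernel⟩

theorem c_pp_202_ab : CertB 0 536870912 1239849684 370763052 1040187392 5207648 3 eng mog cd1q2a cd2q2b pd0 false true true .pp 2 0 2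
    ndB1q2a ndB2q2b pcB0 Cut.none Ext.none :=
  certB0 (fam := false) (s1 := true) (s2 := true) (a := 2) (b := 0) (c := 2) (cn := .pp) (n1 := ndB1q2a) (n2 := ndB2q2b) (pc := pcB0) (cut := Cut.none) (xt := Ext.none) (P1 := 0) (W1 := 536870912) (P2 := 1239849684) (W2 := 370763052) (P3 := 1040187392) (W3 := 5207648) (N0 := 3) (En := eng) (mo := mog) (C1 := cd1q2a) (C2 := cd2q2b) (C3 := pd0)
    rfl k0_pp_202_ab

noncomputable def f_pp_202_ba : ℕ → ℕ → ℕ → ℕ → Bool := onCell 1239849684 370763052 0 536870912 1040187392 5207648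
    (rowB 3 eng mog cd1q2b cd2q2a pd0 0 false true true .pp 2 0 2 (qsf 1239849684 370763052 0 536870912 0) ndB1q2b ndB2q2a pcB0 Cut.none Ext.none)

def k0_pp_202_ba : ∃ t, chk3 f_pp_202_ba t 1 1 1 = true :=
  ⟨(l 3), by decide +kernel⟩

theorem c_pp_202_ba : CertB 1239849684 370763052 0 536870912 1040187392 5207648 3 eng mog cd1q2b cd2q2a pd0 false true true .pp 2 0 2
    ndB1q2b ndB2q2a pcB0 Cut.none Ext.none :=
  certB0 (fam := false) (s1 := true) (s2 := true) (a := 2) (b := 0) (c := 2) (cn := .pp) (n1 := ndB1q2b) (n2 := ndB2q2a) (pc := pcB0) (cut := Cut.none) (xt := Ext.none) (P1 := 1239849684) (W1 := 370763052) (P2 := 0) (W2 := 536870912) (P3 := 1040187392) (W3 := 5207648) (N0 := 3) (En := eng) (mo := mog) (C1 := cd1q2b) (C2 := cd2q2a) (C3 := pd0)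
    rfl k0_pp_202_ba

noncomputable def f_pp_202_bb : ℕ → ℕ → ℕ → ℕ → Bool := onCell 1239849684 370763052 1239849684 370763052 1040187392 5207648
    (rowB 3 eng mog cd1q2b cd2q2b pd0 0 false true true .pp 2 0 2 (qsf 1239849684 370763052 1239849684 370763052 0) ndB1q2b ndB2q2b pcB0 Cut.none Ext.none)

def k0_pp_202_bb : ∃ t, chk3 f_pp_202_bb t 1 1 1 = true :=
  ⟨(l 3), by decide +kernel⟩

theorem c_pp_202_bb : CertB 1239849684 370763052 1239849684 370763052 1040187392 5207648 3 eng mog cd1q2b cd2q2b pd0 false true true .pp 2 0 2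
    ndB1q2b ndB2q2b pcB0 Cut.none Ext.none :=
  certB0 (fam := false) (s1 := true) (s2 := true) (a := 2) (b := 0) (c := 2) (cn := .pp) (n1 := ndB1q2b) (n2 := ndB2q2b) (pc := pcB0) (cut := Cut.none) (xt := Ext.none) (P1 := 1239849684) (W1 := 370763052) (P2 := 1239849684) (W2 := 370763052) (P3 := 1040187392) (W3 := 5207648) (N0 := 3) (En := eng) (mo := mog) (C1 := cd1q2b) (C2 := cd2q2b) (C3 := pd0)
    rfl k0_pp_202_bb

noncomputable def f_pp_203_a : ℕ → ℕ → ℕ → ℕ → Bool := onCell 0 536870912 0 536870912 1040187392 5207648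
    (rowB 3 eng mog cd1q2a cd2q3 pd0 1 false true true .up 2 0 3 (qsf 0 536870912 1610612736 536870912 0) ndB1q2a ndB2q3 pcB0 Cut.none Ext.none)

def k0_pp_203_a : ∃ t, chk3 f_pp_203_a t 1 1 1 = true :=
  ⟨(l 3), by decide +kernel⟩

theorem c_pp_203_a : CertB 0 536870912 1610612736 536870912 1040187392 5207648 3 eng mog cd1q2a cd2q3 pd0 false true true .up 2 0 3
    ndB1q2a ndB2q3 pcB0 Cut.none Ext.none :=
  certB1 (fam := false) (s1 := true) (s2 := true) (a := 2) (b := 0) (c := 3) (cn := .up) (n1 := ndB1q2a) (n2 := ndB2q3) (pc := pcB0) (cut := Cut.none) (xt := Ext.none) (P1 := 0) (W1 := 536870912) (P2 := 1610612736) (W2 := 536870912) (P3 := 1040187392) (W3 := 5207648) (N0 := 3) (En := eng) (mo := mog) (C1 := cd1q2a) (C2 := cd2q3) (C3 := pd0)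
    rfl (fun _ => rfl) k0_pp_203_a

noncomputable def f_pp_203_b : ℕ → ℕ → ℕ → ℕ → Bool := onCell 1239849684 370763052 1610612736 536870912 1040187392 5207648
    (rowB 3 eng mog cd1q2b cd2q3 pd0 0 false true true .up 2 0 3 (qsf 1239849684 370763052 1610612736 536870912 0) ndB1q2b ndB2q3 pcB0 Cut.none Ext.none)

def k0_pp_203_b : ∃ t, chk3 f_pp_203_b t 1 1 1 = true :=
  ⟨(l 3), by decide +kernel⟩

theorem c_pp_203_b : CertB 1239849684 370763052 1610612736 536870912 1040187392 5207648 3 eng mog cd1q2b cd2q3 pd0 false true true .up 2 0 3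
    ndB1q2b ndB2q3 pcB0 Cut.none Ext.none :=
  certB0 (fam := false) (s1 := true) (s2 := true) (a := 2) (b := 0) (c := 3) (cn := .up) (n1 := ndB1q2b) (n2 := ndB2q3) (pc := pcB0) (cut := Cut.none) (xt := Ext.none) (P1 := 1239849684) (W1 := 370763052) (P2 := 1610612736) (W2 := 536870912) (P3 := 1040187392) (W3 := 5207648) (N0 := 3) (En := eng) (mo := mog) (C1 := cd1q2b) (C2 := cd2q3) (C3 := pd0)
    rfl k0_pp_203_b

noncomputable def cut_pp_213_a : Cut := Cut.of [[⟨0, 1, 0, 15728640⟩, ⟨1, 1, 0, 15728640⟩, ⟨2, 2, 0, 524288⟩]]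

noncomputable def f_pp_213_a : ℕ → ℕ → ℕ → ℕ → Bool := onCell 0 536870912 1610612736 536870912 1040187392 5207648
    (rowB 3 eng mog cd1q2a cd2q3 pd1 0 false true true .pnn 2 1 3 (qsf 0 536870912 1610612736 536870912 1) ndB1q2a ndB2q3 pcB1 cut_pp_213_a Ext.none)

def k0_pp_213_a : ∃ t, chk3 f_pp_213_a t 1 1 1 = true :=
  ⟨(a (l 3) (b (l 3) (b (l 3) (a (l 3) (b (l 3) (a (l 3) (b (l 3) (a (l 3) (b (l 3) (a (l 3) (b (l 3) (a (l 3) (b (l 3) (b (l 3) (b (l 3) (b (l 3) (b (l 3) (l 6)))))))))))))))))), by decide +kernel⟩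

theorem c_pp_213_a : CertB 0 536870912 1610612736 536870912 1040187392 5207648 3 eng mog cd1q2a cd2q3 pd1 false true true .pnn 2 1 3
    ndB1q2a ndB2q3 pcB1 cut_pp_213_a Ext.none :=
  certB0 (fam := false) (s1 := true) (s2 := true) (a := 2) (b := 1) (c := 3) (cn := .pnn) (n1 := ndB1q2a) (n2 := ndB2q3) (pc := pcB1) (cut := cut_pp_213_a) (xt := Ext.none) (P1 := 0) (W1 := 536870912) (P2 := 1610612736) (W2 := 536870912) (P3 := 1040187392) (W3 := 5207648) (N0 := 3) (En := eng) (mo := mog) (C1 := cd1q2a) (C2 := cd2q3) (C3 := pd1)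
    rfl k0_pp_213_a

noncomputable def cut_pp_213_b : Cut := Cut.of [[⟨0, 1, 0, 15728640⟩, ⟨1, 1, 0, 15728640⟩, ⟨2, 2, 0, 524288⟩]]

noncomputable def f_pp_213_b : ℕ → ℕ → ℕ → ℕ → Bool := onCell 1239849684 370763052 1610612736 536870912 1040187392 5207648
    (rowB 3 eng mog cd1q2b cd2q3 pd1 0 false true true .pnn 2 1 3 (qsf 1239849684 370763052 1610612736 536870912 1) ndB1q2b ndB2q3 pcB1 cut_pp_213_b Ext.none)

def k0_pp_213_b : ∃ t, chk3 f_pp_213_b t 1 1 1 = true :=
  ⟨(l 3), by decide +kernel⟩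

theorem c_pp_213_b : CertB 1239849684 370763052 1610612736 536870912 1040187392 5207648 3 eng mog cd1q2b cd2q3 pd1 false true true .pnn 2 1 3
    ndB1q2b ndB2q3 pcB1 cut_pp_213_b Ext.none :=
  certB0 (fam := false) (s1 := true) (s2 := true) (a := 2) (b := 1) (c := 3) (cn := .pnn) (n1 := ndB1q2b) (n2 := ndB2q3) (pc := pcB1) (cut := cut_pp_213_b) (xt := Ext.none) (P1 := 1239849684) (W1 := 370763052) (P2 := 1610612736) (W2 := 536870912) (P3 := 1040187392) (W3 := 5207648) (N0 := 3) (En := eng) (mo := mog) (C1 := cd1q2b) (C2 := cd2q3) (C3 := pd1)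
    rfl k0_pp_213_b

noncomputable def f_pp_303 : ℕ → ℕ → ℕ → ℕ → Bool := onCell 1610612736 536870912 1610612736 536870912 1040187392 5207648
    (rowB 3 eng mog cd1q3 cd2q3 pd0 0 false true true .npn 3 0 3 (qsf 1610612736 536870912 1610612736 536870912 0) ndB1q3 ndB2q3 pcB0 Cut.none Ext.none)

def k0_pp_303 : ∃ t, chk3 f_pp_303 t 1 1 1 = true :=
  ⟨(l 3), by decide +kernel⟩

theorem c_pp_303 : CertB 1610612736 536870912 1610612736 536870912 1040187392 5207648 3 eng mog cd1q3 cd2q3 pd0 false true true .npn 3 0 3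
    ndB1q3 ndB2q3 pcB0 Cut.none Ext.none :=
  certB0 (fam := false) (s1 := true) (s2 := true) (a := 3) (b := 0) (c := 3) (cn := .npn) (n1 := ndB1q3) (n2 := ndB2q3) (pc := pcB0) (cut := Cut.none) (xt := Ext.none) (P1 := 1610612736) (W1 := 536870912) (P2 := 1610612736) (W2 := 536870912) (P3 := 1040187392) (W3 := 5207648) (N0 := 3) (En := eng) (mo := mog) (C1 := cd1q3) (C2 := cd2q3) (C3 := pd0)
    rfl k0_pp_303

noncomputable def f_pp_313 : ℕ → ℕ → ℕ → ℕ → Bool := onCell 1610612736 536870912 1610612736 536870912 1040187392 5207648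
    (rowB 3 eng mog cd1q3 cd2q3 pd1 0 false true true .dn 3 1 3 (qsf 1610612736 536870912 1610612736 536870912 1) ndB1q3 ndB2q3 pcB1 Cut.none Ext.none)

def k0_pp_313 : ∃ t, chk3 f_pp_313 t 1 1 1 = true :=
  ⟨(l 3), by decide +kernel⟩

theorem c_pp_313 : CertB 1610612736 536870912 1610612736 536870912 1040187392 5207648 3 eng mog cd1q3 cd2q3 pd1 false true true .dn 3 1 3
    ndB1q3 ndB2q3 pcB1 Cut.none Ext.none :=
  certB0 (fam := false) (s1 := true) (s2 := true) (a := 3) (b := 1) (c := 3) (cn := .dn) (n1 := ndB1q3) (n2 := ndB2q3) (pc := pcB1) (cut := Cut.none) (xt := Ext.none) (P1 := 1610612736) (W1 := 536870912) (P2 := 1610612736) (W2 := 536870912) (P3 := 1040187392) (W3 := 5207648) (N0 := 3) (En := eng) (mo := mog) (C1 := cd1q3) (C2 := cd2q3) (C3 := pd1)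
    rfl k0_pp_313

noncomputable def f_pm_001 : ℕ → ℕ → ℕ → ℕ → Bool := onCell 0 536870912 536870912 536870912 1040187392 5207648
    (rowB 3 eng mog cd1q0 cd2q1 pd0 0 false true false .up 0 0 1 (qsf 0 536870912 536870912 536870912 0) ndB1q0 ndB2q1 pcB0 Cut.none Ext.none)

def k0_pm_001 : ∃ t, chk3 f_pm_001 t 1 1 1 = true :=
  ⟨(l 4), by decide +kernel⟩

theorem c_pm_001 : CertB 0 536870912 536870912 536870912 1040187392 5207648 3 eng mog cd1q0 cd2q1 pd0 false true false .up 0 0 1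
    ndB1q0 ndB2q1 pcB0 Cut.none Ext.none :=
  certB0 (fam := false) (s1 := true) (s2 := false) (a := 0) (b := 0) (c := 1) (cn := .up) (n1 := ndB1q0) (n2 := ndB2q1) (pc := pcB0) (cut := Cut.none) (xt := Ext.none) (P1 := 0) (W1 := 536870912) (P2 := 536870912) (W2 := 536870912) (P3 := 1040187392) (W3 := 5207648) (N0 := 3) (En := eng) (mo := mog) (C1 := cd1q0) (C2 := cd2q1) (C3 := pd0)
    rfl k0_pm_001

noncomputable def f_pm_011 : ℕ → ℕ → ℕ → ℕ → Bool := onCell 0 536870912 536870912 536870912 1040187392 5207648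
    (rowB 3 eng mog cd1q0 cd2q1 pd1 0 false true false .pnn 0 1 1 (qsf 0 536870912 536870912 536870912 1) ndB1q0 ndB2q1 pcB1 Cut.none Ext.none)

def k0_pm_011 : ∃ t, chk3 f_pm_011 t 1 1 1 = true :=
  ⟨(l 4), by decide +kernel⟩

theorem c_pm_011 : CertB 0 536870912 536870912 536870912 1040187392 5207648 3 eng mog cd1q0 cd2q1 pd1 false true false .pnn 0 1 1
    ndB1q0 ndB2q1 pcB1 Cut.none Ext.none :=
  certB0 (fam := false) (s1 := true) (s2 := false) (a := 0) (b := 1) (c := 1) (cn := .pnn) (n1 := ndB1q0) (n2 := ndB2q1) (pc := pcB1) (cut := Cut.none) (xt := Ext.none) (P1 := 0) (W1 := 536870912) (P2 := 536870912) (W2 := 536870912) (P3 := 1040187392) (W3 := 5207648) (N0 := 3) (En := eng) (mo := mog) (C1 := cd1q0) (C2 := cd2q1) (C3 := pd1)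
    rfl k0_pm_011

noncomputable def cut_pm_012_a : Cut := Cut.of [[⟨0, 0, 0, 26843545⟩, ⟨1, 1, 0, 26843545⟩, ⟨2, 1, 0, 26843545⟩]]

noncomputable def xt_pm_012_a : Ext := extD3 3 ⟨4, 1, 1, 5, 33, 5, 163, 200, 81, 200, 1, 64⟩ eng cd1q0 cd2q2a pd1 false true false .pnp 0 1 2 rfl ndB1q0 ndB2q2a pcB1

noncomputable def f_pm_012_a : ℕ → ℕ → ℕ → ℕ → Bool := onCell 536870912 536870912 0 536870912 1040187392 5207648
    (rowB 3 eng mog cd1q0 cd2q2a pd1 2 false true false .pnp 0 1 2 (qsf 0 536870912 0 536870912 1) ndB1q0 ndB2q2a pcB1 cut_pm_012_a xt_pm_012_a)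

def k0_pm_012_a : ∃ t, chk3 f_pm_012_a t 2 1 1 = true :=
  ⟨(b (a (b (l 2) (l 15281168)) (b (l 15438096) (l 15384760))) (a (b (b (a (l 2) (l 15316552)) (l 15375760)) (a (b (l 15633048) (l 15839328)) (b (l 15677744) (l 15911760)))) (b (a (b (l 15358928) (l 15509520)) (b (l 15439312) (l 15565896))) (a (b (l 15740416) (l 15999752)) (b (l 15819896) (l 15870816)))))), by decide +kernel⟩

def k1_pm_012_a : ∃ t, chk3 f_pm_012_a t 3 1 1 = true :=
  ⟨(a (b (b (a (l 15619720) (l 15785760)) (a (l 15556304) (l 15718552))) (a (b (b (l 15556720) (b (l 15603392) (l 15706576))) (b (l 15830256) (b (l 16136736) (l 16230840)))) (b (b (l 15723432) (a (l 15749120) (l 15832344))) (b (a (l 15993864) (l 16049104)) (b (l 16127552) (a (l 16386656) (l 16448496))))))) (b (a (b (l 15985848) (l 15917768)) (b (l 16175648) (a (l 16089808) (l 16215624)))) (a (b (a (b (l 15873824) (l 15932456)) (l 16016776)) (b (a (b (l 16032656) (l 16183792)) (b (l 15998296) (a (l 16227880) (l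 16256536)))) (a (b (l 16344232) (l 16383800)) (b (a (l 16389248) (l 16418424)) (b (l 16527424) (l 16527192)))))) (b (a (b (l 16109352) (l 16170648)) (b (l 16241320) (l 16288296))) (b (a (b (l 16242064) (a (l 16274752) (b (l 16324016) (l 16370648)))) (b (l 16386720) (a (l 16416944) (l 16494344)))) (a (b (a (l 16446968) (b (l 16434728) (l 16515576))) (b (a (l 16570456) (l 16576504)) (a (l 16611776) (b (l 16659312) (l 16658888))))) (b (b (a (a (l 16464320) (a (l 16486784) (l 16505304))) (l 16555416)) (a (a (l 16535664) (l 16489888)) (a (b (l 16568784) (a (l 16584824) (l 16602776))) (l 16621896)))) (a (b (a (l 16617040) (l 16587496)) (b (a (l 16678312) (l 16690312)) (b (l 143160983653711935) (a (l 16729080) (l 16719528))))) (b (a (a (l 16596440) (b (l 16630752) (l 16664680))) (b (l 16659032) (l 6))) (a (b (a (l 16699024) (l 6)) (l 6)) (l 6))))))))))), by decide +kernel⟩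

theorem s2_pm_012_a : ∃ t, chk3 f_pm_012_a t 1 1 1 = true := ex3_a k0_pm_012_a k1_pm_012_a

theorem c_pm_012_a : CertB 0 536870912 0 536870912 1040187392 5207648 3 eng mog cd1q0 cd2q2a pd1 false true false .pnp 0 1 2
    ndB1q0 ndB2q2a pcB1 cut_pm_012_a xt_pm_012_a :=
  certB2 (fam := false) (s1 := true) (s2 := false) (a := 0) (b := 1) (c := 2) (cn := .pnp) (n1 := ndB1q0) (n2 := ndB2q2a) (pc := pcB1) (cut := cut_pm_012_a) (xt := xt_pm_012_a) (P1 := 0) (W1 := 536870912) (P2 := 0) (W2 := 536870912) (P3 := 1040187392) (W3 := 5207648) (N0 := 3) (En := eng) (mo := mog) (C1 := cd1q0) (C2 := cd2q2a) (C3 := pd1)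
    rfl (fun _ => rfl) s2_pm_012_a

noncomputable def cut_pm_012_b : Cut := Cut.of [[⟨0, 0, 0, 26843545⟩, ⟨1, 1, 0, 26843545⟩, ⟨2, 1, 0, 26843545⟩]]

noncomputable def f_pm_012_b : ℕ → ℕ → ℕ → ℕ → Bool := onCell 0 536870912 536870912 536870912 1040187392 5207648
    (rowB 3 eng mog cd1q0 cd2q2b pd1 1 false true false .pnp 0 1 2 (qsf 0 536870912 1239849684 370763052 1) ndB1q0 ndB2q2b pcB1 cut_pm_012_b Ext.none)

def k0_pm_012_b : ∃ t, chk3 f_pm_012_b t 1 1 1 = true :=
  ⟨(b (a (l 1) (a (l 1) (b (l 1) (a (l 331280238711) (l 15477192))))) (a (a (l 1) (b (l 1) (a (b (l 1) (a (l 16458208) (l 16360408))) (b (l 16151224) (l 16115792))))) (a (b (a (l 351145103399) (l 15749392)) (a (l 193304769607) (l 15649608))) (b (a (l 15559208) (l 15426384)) (a (l 15489600) (l 15395560)))))), by decide +kernel⟩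

theorem c_pm_012_b : CertB 0 536870912 1239849684 370763052 1040187392 5207648 3 eng mog cd1q0 cd2q2b pd1 false true false .pnp 0 1 2
    ndB1q0 ndB2q2b pcB1 cut_pm_012_b Ext.none :=
  certB1 (fam := false) (s1 := true) (s2 := false) (a := 0) (b := 1) (c := 2) (cn := .pnp) (n1 := ndB1q0) (n2 := ndB2q2b) (pc := pcB1) (cut := cut_pm_012_b) (xt := Ext.none) (P1 := 0) (W1 := 536870912) (P2 := 1239849684) (W2 := 370763052) (P3 := 1040187392) (W3 := 5207648) (N0 := 3) (En := eng) (mo := mog) (C1 := cd1q0) (C2 := cd2q2b) (C3 := pd1)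
    rfl (fun _ => rfl) k0_pm_012_b

end Pool.Agent.Strip051.G.I9688_9736.Tab.C.BB12

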