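import Pool.Agent.Strip051.G.I9688_9736.Tab
import Pool.Agent.Strip051.PB.ExtD3

/-! # Certificates B23 (generated) -/

set_option linter.all false
set_option maxRecDepth 100000

namespace Pool.Agent.Strip051.G.I9688_9736.Tab.C.BB15

open Pool.Agent.Strip051.PB Pool.Agent.Strip051.PB.T
open Pool.Agent.Strip051.G.I9688_9736.Tab

noncomputable def f_pm_202_a : ℕ → ℕ → ℕ → ℕ → Bool := onCell 0 536870912 1073741824 536870912 1040187392 5207648
    (rowB 3 eng mog cd1q2a cd5q2 pd0 0 false true false .pp 2 0 2 (qsf 0 536870912 1073741824 536870912 0) ndB1q2a ndB5q2 pcB0 Cut.none Ext.none)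

def k0_pm_202_a : ∃ t, chk3 f_pm_202_a t 1 1 1 = true :=
  ⟨(a (b (a (b (l 1) (b (b (l 14664272) (b (l 14781392) (a (l 14933768) (l 14797000)))) (b (a (b (l 15010056) (l 15079192)) (l 14914880)) (a (l 15177304) (l 15064256))))) (b (b (l 1) (b (l 1) (a (l 1) (l 14145304)))) (b (b (a (l 14450480) (l 14297416)) (l 14538352)) (l 14780792)))) (b (b (a (b (l 15221256) (l 15280608)) (a (l 15119880) (l 14993720))) (a (b (l 15282088) (l 15226168)) (b (a (l 15243472) (l 15171696)) (a (l 15228048) (l 15231048))))) (b (a (b (l 15107888) (l 14919048)) (b (l 15165384) (l 15041168))) (a (b (a (b (l 14664864) (a (l 14420488) (l 14501056))) (l 14718536)) (a (b (a (l 14454272) (l 14270544)) (l 14500752)) (b (l 14422152) (a (l 14120168) (l 14157048))))) (b (l 14844616) (a (l 14514680) (l 14628488))))))) (b (b (l 4) (a (b (a (b (l 14166112) (l 14313064)) (l 4)) (a (l 14547056) (l 14387600))) (l 4))) (b (a (b (a (l 14830040) (l 14643552)) (a (b (l 15026432) (l 15140000)) (l 14887168))) (a (b (l 14444176)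 (l 14647408)) (l 4))) (a (b (a (b (l 15207592) (l 15172344)) (b (l 15077664) (l 15154608))) (b (a (l 14989776) (a (l 15099048) (l 15169280))) (a (l 14745800) (l 14910432)))) (b (a (l 14868640) (b (l 14482864) (l 14564120))) (a (b (a (l 15135808) (l 14997640)) (a (l 15088072) (l 15102056))) (b (l 14674264) (l 14835936)))))))), by decide +kernel⟩

theorem c_pm_202_a : CertB 0 536870912 1073741824 536870912 1040187392 5207648 3 eng mog cd1q2a cd5q2 pd0 false true false .pp 2 0 2
    ndB1q2a ndB5q2 pcB0 Cut.none Ext.none :=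
  certB0 (fam := false) (s1 := true) (s2 := false) (a := 2) (b := 0) (c := 2) (cn := .pp) (n1 := ndB1q2a) (n2 := ndB5q2) (pc := pcB0) (cut := Cut.none) (xt := Ext.none) (P1 := 0) (W1 := 536870912) (P2 := 1073741824) (W2 := 536870912) (P3 := 1040187392) (W3 := 5207648) (N0 := 3) (En := eng) (mo := mog) (C1 := cd1q2a) (C2 := cd5q2) (C3 := pd0)
    rfl k0_pm_202_a

noncomputable def f_pm_202_b : ℕ → ℕ → ℕ → ℕ → Bool := onCell 0 536870912 1073741824 536870912 1040187392 5207648
    (rowB 3 eng mog cd1q2b cd5q2 pd0 2 false true false .pp 2 0 2 (qsf 1239849684 370763052 1073741824 536870912 0) ndB1q2b ndB5q2 pcB0 Cut.none Ext.none)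

def k0_pm_202_b : ∃ t, chk3 f_pm_202_b t 1 1 1 = true :=
  ⟨(a (b (a (b (l 1) (a (a (a (b (l 329131119351) (l 15224264)) (b (l 311414358567) (l 15219640))) (b (b (l 1) (l 340942379335)) (a (l 15212776) (l 15195288)))) (b (l 1) (l 444558860311)))) (l 1)) (a (b (a (a (a (l 15675224) (l 15673272)) (a (l 15569592) (l 15656280))) (b (l 15437888) (l 15709928))) (a (a (a (l 16051384) (l 16061280)) (a (l 16072936) (l 16070944))) (b (l 15938304) (l 16120424)))) (b (a (b (l 422547307863) (l 15470240)) (b (l 1) (l 363491170039))) (a (b (l 15724248) (l 15966000)) (b (l 439727356951) (a (l 15697648) (b (l 15350176) (l 15516976)))))))) (b (l 1) (a (b (l 1) (a (b (a (l 14775872) (l 14325184)) (a (b (l 14987400) (l 14981224)) (b (b (l 14454248) (l 14530928)) (l 14886744)))) (b (l 1) (a (b (l 415029037575) (l 14739912)) (l 537435873063))))) (l 1)))), by decide +kernel⟩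

theorem c_pm_202_b : CertB 1239849684 370763052 1073741824 536870912 1040187392 5207648 3 eng mog cd1q2b cd5q2 pd0 false true false .pp 2 0 2
    ndB1q2b ndB5q2 pcB0 Cut.none Ext.none :=
  certB2 (fam := false) (s1 := true) (s2 := false) (a := 2) (b := 0) (c := 2) (cn := .pp) (n1 := ndB1q2b) (n2 := ndB5q2) (pc := pcB0) (cut := Cut.none) (xt := Ext.none) (P1 := 1239849684) (W1 := 370763052) (P2 := 1073741824) (W2 := 536870912) (P3 := 1040187392) (W3 := 5207648) (N0 := 3) (En := eng) (mo := mog) (C1 := cd1q2b) (C2 := cd5q2) (C3 := pd0)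
    rfl (fun _ => rfl) k0_pm_202_b

noncomputable def f_pm_203_a : ℕ → ℕ → ℕ → ℕ → Bool := onCell 0 536870912 0 1230186008 1040187392 5207648
    (rowB 3 eng mog cd1q2a cd5q3 pd0 0 false true false .up 2 0 3 (qsf 0 536870912 0 1230186008 0) ndB1q2a ndB5q3 pcB0 Cut.none Ext.none)

def k0_pm_203_a : ∃ t, chk3 f_pm_203_a t 1 1 1 = true :=
  ⟨(b (l 2) (b (l 2) (a (b (b (l 2) (b (a (l 2) (l 2)) (a (l 16047248) (a (a (l 15777664) (l 15458768)) (l 15189096))))) (b (a (b (a (l 15994320) (a (l 15829488) (b (l 15768296) (l 15631232)))) (a (b (l 15858784) (a (l 15833616) (l 15693408))) (b (l 15535448) (l 15226464)))) (b (a (b (l 15432472) (l 15127312)) (l 14601352)) (a (l 14678648) (l 13985776)))) (a (b (a (b (a (l 15716624) (l 15453704)) (l 15335160)) (l 14781304)) (a (l 14899840) (b (l 14339928) (a (l 14230600) (l 13984288))))) (b (a (b (l 14224736) (l 13933200)) (b (l 13622792) (l 13699128))) (a (b (a (l 13856424) (l 13778160)) (l 14082184)) (l 14233000)))))) (b (l 2) (a (b (b (a (l 13943424)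 (l 2)) (a (b (l 13499368) (a (l 13393120) (l 13368424))) (b (a (l 13247032) (l 2)) (l 13617552)))) (b (a (b (l 13673000) (l 14006224)) (l 14069088)) (a (l 14382456) (l 14559104)))) (b (a (b (l 2) (l 13727688)) (l 2)) (a (b (l 14333456) (a (l 14748944) (l 14905904))) (b (a (l 14636736) (l 2)) (a (b (l 15025424) (l 15071000)) (l 14915752)))))))))), by decide +kernel⟩

theorem c_pm_203_a : CertB 0 536870912 0 1230186008 1040187392 5207648 3 eng mog cd1q2a cd5q3 pd0 false true false .up 2 0 3
    ndB1q2a ndB5q3 pcB0 Cut.none Ext.none :=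
  certB0 (fam := false) (s1 := true) (s2 := false) (a := 2) (b := 0) (c := 3) (cn := .up) (n1 := ndB1q2a) (n2 := ndB5q3) (pc := pcB0) (cut := Cut.none) (xt := Ext.none) (P1 := 0) (W1 := 536870912) (P2 := 0) (W2 := 1230186008) (P3 := 1040187392) (W3 := 5207648) (N0 := 3) (En := eng) (mo := mog) (C1 := cd1q2a) (C2 := cd5q3) (C3 := pd0)
    rfl k0_pm_203_a

noncomputable def f_pm_203_b : ℕ → ℕ → ℕ → ℕ → Bool := onCell 0 536870912 0 1230186008 1040187392 5207648
    (rowB 3 eng mog cd1q2b cd5q3 pd0 2 false true false .up 2 0 3 (qsf 1239849684 370763052 0 1230186008 0) ndB1q2b ndB5q3 pcB0 Cut.none Ext.none)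

def k0_pm_203_b : ∃ t, chk3 f_pm_203_b t 1 1 1 = true :=
  ⟨(b (l 3) (a (b (l 3) (b (a (l 2) (a (b (l 15474704) (b (b (l 15760808) (l 15871704)) (a (l 15987656) (l 16131952)))) (b (l 146731146103) (b (l 16112520) (l 16371848))))) (a (a (b (l 2) (a (a (l 15876728) (l 15938208)) (a (l 15964568) (l 16112792)))) (b (a (a (l 15857672) (l 498851809991)) (b (l 16168096) (a (l 16336576) (l 16366072)))) (l 16258728))) (a (b (b (a (l 16288992) (l 16417160)) (a (l 16385648) (l 16389704))) (a (b (l 16301040) (l 16189048)) (b (l 16258560) (l 16098064)))) (b (b (l 16455304) (a (l 16382552) (l 16369232))) (b (l 16178504) (a (l 15956736) (l 15781256)))))))) (b (b (l 3) (b (a (l 3) (a (l 3) (l 16357560))) (a (b (l 3) (a (l 15937080) (l 16139176))) (a (b (l 16258424) (l 16354120)) (l 16498808))))) (b (a (b (a (b (l 16021712) (l 16196976)) (b (l 16274352) (l 16464496))) (b (a (l 16398128) (l 16573288)) (l 16521168))) (b (a (l 16533888) (b (l 16656032) (l 16586360))) (a (l 16496520) (l 16253984)))) (b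 (a (b (l 16216768) (a (a (l 16342304) (l 16298472)) (l 16198328))) (a (l 16038168) (l 356513628215))) (a (a (b (l 16049056) (l 15421256)) (b (a (l 15935440) (l 15858144)) (l 15058704))) (a (b (b (l 15797904) (l 15571784)) (l 422547053767)) (l 1)))))))), by decide +kernel⟩

theorem c_pm_203_b : CertB 1239849684 370763052 0 1230186008 1040187392 5207648 3 eng mog cd1q2b cd5q3 pd0 false true false .up 2 0 3
    ndB1q2b ndB5q3 pcB0 Cut.none Ext.none :=
  certB2 (fam := false) (s1 := true) (s2 := false) (a := 2) (b := 0) (c := 3) (cn := .up) (n1 := ndB1q2b) (n2 := ndB5q3) (pc := pcB0) (cut := Cut.none) (xt := Ext.none) (P1 := 1239849684) (W1 := 370763052) (P2 := 0) (W2 := 1230186008) (P3 := 1040187392) (W3 := 5207648) (N0 := 3) (En := eng) (mo := mog) (C1 := cd1q2b) (C2 := cd5q3) (C3 := pd0)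
    rfl (fun _ => rfl) k0_pm_203_b

noncomputable def cut_pm_213_a : Cut := Cut.of [[⟨0, 1, 0, 15728640⟩, ⟨1, 1, 0, 15728640⟩, ⟨2, 2, 0, 524288⟩]]

noncomputable def f_pm_213_a : ℕ → ℕ → ℕ → ℕ → Bool := onCell 0 536870912 0 1230186008 1040187392 5207648
    (rowB 3 eng mog cd1q2a cd5q3 pd1 0 false true false .pnn 2 1 3 (qsf 0 536870912 0 1230186008 1) ndB1q2a ndB5q3 pcB1 cut_pm_213_a Ext.none)

def k0_pm_213_a : ∃ t, chk3 f_pm_213_a t 2 2 1 = true :=
  ⟨(b (l 3) (b (a (l 3) (b (l 3) (a (l 3) (a (b (l 3) (l 283635544599)) (b (l 299741668823) (l 262160619495)))))) (a (b (l 3) (a (l 3) (a (l 3) (b (l 3) (b (l 264308194759) (l 168208354151)))))) (b (a (a (l 341617620247) (b (l 296520451655) (a (l 271824377495) (l 261623733655)))) (b (a (a (l 280951129959) (l 16685768)) (l 16708392)) (a (l 16702168) (l 16670368)))) (a (b (a (a (l 260550093399) (l 267529306135)) (l 16697600)) (a (l 16652192) (l 16644616))) (b (l 16639360) (l 16582336))))))), by decide +kernel⟩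

def k1_pm_213_a : ∃ t, chk3 f_pm_213_a t 3 4 1 = true :=
  ⟨(a (b (l 3) (a (l 3) (b (a (l 3) (b (l 3) (l 359334298567))) (a (b (l 354502495847) (a (l 325511477767) (l 269676886023))) (b (a (l 323364004055) (l 206862989527)) (l 16729608)))))) (a (b (b (l 3) (a (l 3) (b (a (l 3) (b (l 3) (a (l 3) (l 373829854999)))) (a (b (l 3) (a (l 407115871815) (l 305647280887))) (b (a (l 311552846951) (l 197736194935)) (l 148880926343)))))) (b (a (b (a (l 3) (b (l 364166197399) (l 266455687127))) (a (b (l 291688629959) (l 16761216)) (l 16765400))) (b (a (b (a (l 258939494151) (l 16768968)) (l 16767808)) (l 16750176)) (a (l 16737544) (l 16703344)))) (a (b (l 16739192) (l 16690344)) (b (l 16666632) (l 16602576))))) (b (a (b (b (l 3) (a (l 3) (b (a (l 3) (l 451676115911)) (a (b (l 3) (l 370071745927)) (b (a (l 377587944519) (l 265918812231)) (l 185388150535)))))) (b (a (b (a (l 3) (b (l 374366708615) (l 255718252503))) (a (b (l 309942217831) (l 16749656)) (l 181630055959))) (b (a (b (l 229948454231)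 (l 16751776)) (l 16743400)) (l 16731616))) (a (b (a (l 16740656) (l 16770360)) (l 16757672)) (b (l 16766200) (l 16749928))))) (b (a (b (a (l 3) (a (a (l 3) (l 6)) (l 6))) (b (a (b (a (l 3) (b (l 3) (l 329806460679))) (a (l 324437723047) (l 16737256))) (b (a (b (l 269140039639) (l 16762552)) (l 16750896)) (l 16754672))) (a (l 16745656) (l 16765312)))) (b (b (l 6) (l 6)) (b (l 16760088) (l 16731064)))) (a (b (b (l 16758488) (l 16742216)) (l 16720200)) (b (l 16684488) (l 16675744))))) (a (b (a (b (l 16724160) (l 16669112)) (b (l 16717536) (l 16657616))) (b (l 16585320) (l 16497832))) (b (a (l 16661096) (l 16639728)) (a (l 16585768) (l 16603376))))))), by decide +kernel⟩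

def k2_pm_213_a : ∃ t, chk3 f_pm_213_a t 3 5 1 = true :=
  ⟨(a (b (a (b (a (b (l 3) (l 308868473767)) (b (l 316384669463) (l 251960091719))) (a (b (l 261086897799) (l 16716464)) (l 16696280))) (b (a (b (l 209010376439) (l 16715656)) (l 16679416)) (a (l 16638904) (l 16565752)))) (a (b (b (l 16649584) (l 16598792)) (b (l 16548632) (l 16503544))) (b (a (l 16529432) (l 16447184)) (l 16391032)))) (b (a (b (a (l 16600576) (l 16490736)) (l 16404832)) (b (a (l 16350336) (l 16372256)) (a (l 16155264) (l 15965208)))) (a (b (l 16226304) (l 16151640)) (b (a (l 15993960) (l 15747264)) (l 15726160))))), by decide +kernel⟩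

def k3_pm_213_a : ∃ t, chk3 f_pm_213_a t 1 6 1 = true :=
  ⟨(a (b (a (b (a (b (l 3) (a (l 3) (b (a (l 3) (l 272361209543)) (l 291688484807)))) (b (a (b (l 264308202535) (a (l 270750595463) (l 16722080))) (l 242833097975)) (a (b (l 16664192) (l 16671256)) (l 16622568)))) (a (b (a (b (a (l 3) (l 284709242615)) (a (a (l 256792033447) (l 262160667079)) (l 16682704))) (b (l 266992345783) (l 16666936))) (a (b (a (l 16683176) (l 16684856)) (l 16662328)) (l 16602024))) (b (l 16534304) (l 16483448)))) (b (a (b (l 16606176) (l 16531088)) (b (l 16513936) (l 16441312))) (a (b (l 16442800) (l 16351808)) (b (l 16388736) (l 16389696))))) (a (b (a (b (l 16463680) (l 16438216)) (b (l 16376664) (l 16213336))) (a (b (l 16315056) (a (l 16231960) (l 16185512))) (b (a (l 16205216) (l 16257008)) (l 16330456)))) (b (a (b (l 16258680) (l 16330952)) (l 16442496)) (b (l 16293512) (l 16390816))))) (b (a (b (a (b (l 16467072) (l 16440776)) (l 16308744)) (a (l 16402224) (l 16212224))) (a (b (l 16044152) (l 15918056))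 (b (l 15633040) (a (l 15618600) (l 15359288))))) (a (b (a (l 16305992) (l 16066032)) (a (l 16121176) (b (l 15900272) (l 15759040)))) (b (a (b (l 15790576) (l 15678800)) (b (l 15350120) (l 15226128))) (a (b (l 15553048) (l 15416032)) (l 15008216)))))), by decide +kernel⟩

def k4_pm_213_a : ∃ t, chk3 f_pm_213_a t 1 7 1 = true :=
  ⟨(a (b (a (b (a (b (a (l 16180248) (l 16291400)) (l 16418056)) (b (l 16529016) (l 16460208))) (b (l 16428072) (l 16256136))) (b (a (l 16327192) (b (l 16170832) (l 16001208))) (a (b (l 16077776) (l 15883664)) (b (l 15837424) (l 15704520))))) (b (a (l 1) (b (l 15686560) (l 1))) (l 1))) (b (a (b (a (b (l 15899576) (l 15757792)) (b (l 15627872) (l 15500472))) (l 15462024)) (b (a (l 15225360) (l 14744752)) (a (b (l 15055792) (l 14971408)) (b (l 14589168) (l 14558608))))) (a (b (b (l 15338264) (l 15294752)) (l 1)) (b (a (l 14982472) (l 14724800)) (a (b (l 15094968) (l 1)) (b (a (l 14949688) (l 14812064)) (a (l 14986392) (l 14774552)))))))), by decide +kernel⟩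

theorem s5_pm_213_a : ∃ t, chk3 f_pm_213_a t 1 3 1 = true := ex3_b k3_pm_213_a k4_pm_213_a

theorem s6_pm_213_a : ∃ t, chk3 f_pm_213_a t 3 2 1 = true := ex3_b k1_pm_213_a k2_pm_213_a

theorem s7_pm_213_a : ∃ t, chk3 f_pm_213_a t 1 2 1 = true := ex3_a k0_pm_213_a s6_pm_213_a

theorem s8_pm_213_a : ∃ t, chk3 f_pm_213_a t 1 1 1 = true := ex3_b s7_pm_213_a s5_pm_213_a

theorem c_pm_213_a : CertB 0 536870912 0 1230186008 1040187392 5207648 3 eng mog cd1q2a cd5q3 pd1 false true false .pnn 2 1 3
    ndB1q2a ndB5q3 pcB1 cut_pm_213_a Ext.none :=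
  certB0 (fam := false) (s1 := true) (s2 := false) (a := 2) (b := 1) (c := 3) (cn := .pnn) (n1 := ndB1q2a) (n2 := ndB5q3) (pc := pcB1) (cut := cut_pm_213_a) (xt := Ext.none) (P1 := 0) (W1 := 536870912) (P2 := 0) (W2 := 1230186008) (P3 := 1040187392) (W3 := 5207648) (N0 := 3) (En := eng) (mo := mog) (C1 := cd1q2a) (C2 := cd5q3) (C3 := pd1)
    rfl s8_pm_213_a

noncomputable def cut_pm_213_b : Cut := Cut.of [[⟨0, 1, 0, 15728640⟩, ⟨1, 1, 0, 15728640⟩, ⟨2, 2, 0, 524288⟩]]

noncomputable def f_pm_213_b : ℕ → ℕ → ℕ → ℕ → Bool := onCell 1239849684 370763052 0 1230186008 1040187392 5207648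
    (rowB 3 eng mog cd1q2b cd5q3 pd1 0 false true false .pnn 2 1 3 (qsf 1239849684 370763052 0 1230186008 1) ndB1q2b ndB5q3 pcB1 cut_pm_213_b Ext.none)

def k0_pm_213_b : ∃ t, chk3 f_pm_213_b t 1 1 1 = true :=
  ⟨(b (l 3) (b (a (b (a (b (l 3) (a (b (l 3) (a (b (b (l 233169610295) (l 16706728)) (l 16701224)) (l 285245926439))) (l 3))) (l 3)) (a (b (a (b (b (l 16610528) (l 16601968)) (l 16497200)) (b (a (l 16615440) (l 16594736)) (l 16507432))) (a (b (l 16395288) (l 16260336)) (b (l 16373128) (l 16228984)))) (b (a (b (l 3) (l 16486104)) (l 266454697063)) (a (b (l 16366408) (l 16213824)) (l 1))))) (b (l 3) (l 1))) (a (b (a (a (b (b (l 16123472) (l 16033224)) (b (l 16426008) (l 16505888))) (b (b (l 16078904) (l 15905096)) (l 1))) (l 1)) (l 1)) (l 1)))), by decide +kernel⟩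

theorem c_pm_213_b : CertB 1239849684 370763052 0 1230186008 1040187392 5207648 3 eng mog cd1q2b cd5q3 pd1 false true false .pnn 2 1 3
    ndB1q2b ndB5q3 pcB1 cut_pm_213_b Ext.none :=
  certB0 (fam := false) (s1 := true) (s2 := false) (a := 2) (b := 1) (c := 3) (cn := .pnn) (n1 := ndB1q2b) (n2 := ndB5q3) (pc := pcB1) (cut := cut_pm_213_b) (xt := Ext.none) (P1 := 1239849684) (W1 := 370763052) (P2 := 0) (W2 := 1230186008) (P3 := 1040187392) (W3 := 5207648) (N0 := 3) (En := eng) (mo := mog) (C1 := cd1q2b) (C2 := cd5q3) (C3 := pd1)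
    rfl k0_pm_213_b

noncomputable def f_pm_303 : ℕ → ℕ → ℕ → ℕ → Bool := onCell 0 536870912 0 1230186008 1040187392 5207648
    (rowB 3 eng mog cd1q3 cd5q3 pd0 2 false true false .npn 3 0 3 (qsf 1610612736 536870912 0 1230186008 0) ndB1q3 ndB5q3 pcB0 Cut.none Ext.none)

def k0_pm_303 : ∃ t, chk3 f_pm_303 t 1 1 1 = true :=
  ⟨(b (l 3) (b (b (l 3) (a (l 3) (a (b (l 3) (a (b (l 3) (l 15892080)) (l 1))) (l 1)))) (a (b (a (a (a (a (b (l 192900618183) (b (l 15030760) (l 15398296))) (b (l 15197784) (a (b (l 15173912) (l 15437872)) (l 15359768)))) (b (l 15273400) (a (b (l 15325400) (l 15504952)) (b (b (l 15387608) (l 15481904)) (l 15702544))))) (b (a (l 15390072) (l 15517264)) (a (b (b (l 15491152) (l 15620560)) (b (l 15701808) (l 15884064))) (b (l 15664856) (l 15946256))))) (a (b (l 188070190551) (b (l 15754728) (a (l 16012936) (l 16057352)))) (b (b (l 15901592) (l 15943360)) (l 1)))) (a (a (a (a (l 15814056) (b (l 15778880) (l 15830176))) (a (b (l 15792304) (l 15843736)) (b (l 15865144) (l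 15865912)))) (b (a (b (b (l 15936880) (l 15948224)) (l 15927248)) (b (l 16005856) (a (l 15989752) (l 1)))) (l 15905816))) (a (b (b (a (l 16035848) (l 1)) (l 1)) (l 1)) (l 1)))) (l 1)))), by decide +kernel⟩

theorem c_pm_303 : CertB 1610612736 536870912 0 1230186008 1040187392 5207648 3 eng mog cd1q3 cd5q3 pd0 false true false .npn 3 0 3
    ndB1q3 ndB5q3 pcB0 Cut.none Ext.none :=
  certB2 (fam := false) (s1 := true) (s2 := false) (a := 3) (b := 0) (c := 3) (cn := .npn) (n1 := ndB1q3) (n2 := ndB5q3) (pc := pcB0) (cut := Cut.none) (xt := Ext.none) (P1 := 1610612736) (W1 := 536870912) (P2 := 0) (W2 := 1230186008) (P3 := 1040187392) (W3 := 5207648) (N0 := 3) (En := eng) (mo := mog) (C1 := cd1q3) (C2 := cd5q3) (C3 := pd0)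
    rfl (fun _ => rfl) k0_pm_303

noncomputable def f_pm_313 : ℕ → ℕ → ℕ → ℕ → Bool := onCell 1610612736 536870912 0 1230186008 1040187392 5207648
    (rowB 3 eng mog cd1q3 cd5q3 pd1 0 false true false .dn 3 1 3 (qsf 1610612736 536870912 0 1230186008 1) ndB1q3 ndB5q3 pcB1 Cut.none Ext.none)

def k0_pm_313 : ∃ t, chk3 f_pm_313 t 1 1 1 = true :=
  ⟨(b (l 3) (l 1)), by decide +kernel⟩

theorem c_pm_313 : CertB 1610612736 536870912 0 1230186008 1040187392 5207648 3 eng mog cd1q3 cd5q3 pd1 false true false .dn 3 1 3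
    ndB1q3 ndB5q3 pcB1 Cut.none Ext.none :=
  certB0 (fam := false) (s1 := true) (s2 := false) (a := 3) (b := 1) (c := 3) (cn := .dn) (n1 := ndB1q3) (n2 := ndB5q3) (pc := pcB1) (cut := Cut.none) (xt := Ext.none) (P1 := 1610612736) (W1 := 536870912) (P2 := 0) (W2 := 1230186008) (P3 := 1040187392) (W3 := 5207648) (N0 := 3) (En := eng) (mo := mog) (C1 := cd1q3) (C2 := cd5q3) (C3 := pd1)
    rfl k0_pm_313

noncomputable def f_mm_001 : ℕ → ℕ → ℕ → ℕ → Bool := onCell 0 536870912 0 536870912 1040187392 5207648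
    (rowB 3 eng mog cd1q0 cd5q1 pd0 1 false false false .up 0 0 1 (qsf 0 536870912 536870912 536870912 0) ndB1q0 ndB5q1 pcB0 Cut.none Ext.none)

def k0_mm_001 : ∃ t, chk3 f_mm_001 t 1 1 1 = true :=
  ⟨(l 3), by decide +kernel⟩

theorem c_mm_001 : CertB 0 536870912 536870912 536870912 1040187392 5207648 3 eng mog cd1q0 cd5q1 pd0 false false false .up 0 0 1
    ndB1q0 ndB5q1 pcB0 Cut.none Ext.none :=
  certB1 (fam := false) (s1 := false) (s2 := false) (a := 0) (b := 0) (c := 1) (cn := .up) (n1 := ndB1q0) (n2 := ndB5q1) (pc := pcB0) (cut := Cut.none) (xt := Ext.none) (P1 := 0) (W1 := 536870912) (P2 := 536870912) (W2 := 536870912) (P3 := 1040187392) (W3 := 5207648) (N0 := 3) (En := eng) (mo := mog) (C1 := cd1q0) (C2 := cd5q1) (C3 := pd0)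
    rfl (fun _ => rfl) k0_mm_001

noncomputable def f_mm_011 : ℕ → ℕ → ℕ → ℕ → Bool := onCell 0 536870912 536870912 536870912 1040187392 5207648
    (rowB 3 eng mog cd1q0 cd5q1 pd1 1 false false false .pnn 0 1 1 (qsf 0 536870912 536870912 536870912 1) ndB1q0 ndB5q1 pcB1 Cut.none Ext.none)

def k0_mm_011 : ∃ t, chk3 f_mm_011 t 1 1 1 = true :=
  ⟨(l 5), by decide +kernel⟩

theorem c_mm_011 : CertB 0 536870912 536870912 536870912 1040187392 5207648 3 eng mog cd1q0 cd5q1 pd1 false false false .pnn 0 1 1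
    ndB1q0 ndB5q1 pcB1 Cut.none Ext.none :=
  certB1 (fam := false) (s1 := false) (s2 := false) (a := 0) (b := 1) (c := 1) (cn := .pnn) (n1 := ndB1q0) (n2 := ndB5q1) (pc := pcB1) (cut := Cut.none) (xt := Ext.none) (P1 := 0) (W1 := 536870912) (P2 := 536870912) (W2 := 536870912) (P3 := 1040187392) (W3 := 5207648) (N0 := 3) (En := eng) (mo := mog) (C1 := cd1q0) (C2 := cd5q1) (C3 := pd1)
    rfl (fun _ => rfl) k0_mm_011

noncomputable def f_mm_012 : ℕ → ℕ → ℕ → ℕ → Bool := onCell 0 536870912 1073741824 536870912 1040187392 5207648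
    (rowB 3 eng mog cd1q0 cd5q2 pd1 0 false false false .pnp 0 1 2 (qsf 0 536870912 1073741824 536870912 1) ndB1q0 ndB5q2 pcB1 Cut.none Ext.none)

def k0_mm_012 : ∃ t, chk3 f_mm_012 t 1 1 1 = true :=
  ⟨(l 5), by decide +kernel⟩

theorem c_mm_012 : CertB 0 536870912 1073741824 536870912 1040187392 5207648 3 eng mog cd1q0 cd5q2 pd1 false false false .pnp 0 1 2
    ndB1q0 ndB5q2 pcB1 Cut.none Ext.none :=
  certB0 (fam := false) (s1 := false) (s2 := false) (a := 0) (b := 1) (c := 2) (cn := .pnp) (n1 := ndB1q0) (n2 := ndB5q2) (pc := pcB1) (cut := Cut.none) (xt := Ext.none) (P1 := 0) (W1 := 536870912) (P2 := 1073741824) (W2 := 536870912) (P3 := 1040187392) (W3 := 5207648) (N0 := 3) (En := eng) (mo := mog) (C1 := cd1q0) (C2 := cd5q2) (C3 := pd1)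
    rfl k0_mm_012

noncomputable def f_mm_022 : ℕ → ℕ → ℕ → ℕ → Bool := onCell 0 536870912 1073741824 536870912 1040187392 5207648
    (rowB 3 eng mog cd1q0 cd5q2 pd2 0 false false false .pp 0 2 2 (qsf 0 536870912 1073741824 536870912 2) ndB1q0 ndB5q2 pcB2 Cut.none Ext.none)

def k0_mm_022 : ∃ t, chk3 f_mm_022 t 1 1 1 = true :=
  ⟨(l 5), by decide +kernel⟩

theorem c_mm_022 : CertB 0 536870912 1073741824 536870912 1040187392 5207648 3 eng mog cd1q0 cd5q2 pd2 false false false .pp 0 2 2
    ndB1q0 ndB5q2 pcB2 Cut.none Ext.none :=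
  certB0 (fam := false) (s1 := false) (s2 := false) (a := 0) (b := 2) (c := 2) (cn := .pp) (n1 := ndB1q0) (n2 := ndB5q2) (pc := pcB2) (cut := Cut.none) (xt := Ext.none) (P1 := 0) (W1 := 536870912) (P2 := 1073741824) (W2 := 536870912) (P3 := 1040187392) (W3 := 5207648) (N0 := 3) (En := eng) (mo := mog) (C1 := cd1q0) (C2 := cd5q2) (C3 := pd2)
    rfl k0_mm_022

noncomputable def f_mm_023 : ℕ → ℕ → ℕ → ℕ → Bool := onCell 0 536870912 0 1230186008 1040187392 5207648
    (rowB 3 eng mog cd1q0 cd5q3 pd2 0 false false false .up 0 2 3 (qsf 0 536870912 0 1230186008 2) ndB1q0 ndB5q3 pcB2 Cut.none Ext.none)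

def k0_mm_023 : ∃ t, chk3 f_mm_023 t 1 1 1 = true :=
  ⟨(l 5), by decide +kernel⟩

theorem c_mm_023 : CertB 0 536870912 0 1230186008 1040187392 5207648 3 eng mog cd1q0 cd5q3 pd2 false false false .up 0 2 3
    ndB1q0 ndB5q3 pcB2 Cut.none Ext.none :=
  certB0 (fam := false) (s1 := false) (s2 := false) (a := 0) (b := 2) (c := 3) (cn := .up) (n1 := ndB1q0) (n2 := ndB5q3) (pc := pcB2) (cut := Cut.none) (xt := Ext.none) (P1 := 0) (W1 := 536870912) (P2 := 0) (W2 := 1230186008) (P3 := 1040187392) (W3 := 5207648) (N0 := 3) (En := eng) (mo := mog) (C1 := cd1q0) (C2 := cd5q3) (C3 := pd2)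
    rfl k0_mm_023

noncomputable def f_mm_033 : ℕ → ℕ → ℕ → ℕ → Bool := onCell 0 536870912 0 1230186008 1040187392 5207648
    (rowB 3 eng mog cd1q0 cd5q3 pd3 0 false false false .pnn 0 3 3 (qsf 0 536870912 0 1230186008 3) ndB1q0 ndB5q3 pcB3 Cut.none Ext.none)

def k0_mm_033 : ∃ t, chk3 f_mm_033 t 1 1 1 = true :=
  ⟨(l 5), by decide +kernel⟩

theorem c_mm_033 : CertB 0 536870912 0 1230186008 1040187392 5207648 3 eng mog cd1q0 cd5q3 pd3 false false false .pnn 0 3 3
    ndB1q0 ndB5q3 pcB3 Cut.none Ext.none :=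
  certB0 (fam := false) (s1 := false) (s2 := false) (a := 0) (b := 3) (c := 3) (cn := .pnn) (n1 := ndB1q0) (n2 := ndB5q3) (pc := pcB3) (cut := Cut.none) (xt := Ext.none) (P1 := 0) (W1 := 536870912) (P2 := 0) (W2 := 1230186008) (P3 := 1040187392) (W3 := 5207648) (N0 := 3) (En := eng) (mo := mog) (C1 := cd1q0) (C2 := cd5q3) (C3 := pd3)
    rfl k0_mm_033

noncomputable def f_mm_101 : ℕ → ℕ → ℕ → ℕ → Bool := onCell 536870912 536870912 0 536870912 1040187392 5207648
    (rowB 3 eng mog cd1q1 cd5q1 pd0 1 false false false .npn 1 0 1 (qsf 536870912 536870912 536870912 536870912 0) ndB1q1 ndB5q1 pcB0 Cut.none Ext.none)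

def k0_mm_101 : ∃ t, chk3 f_mm_101 t 1 1 1 = true :=
  ⟨(l 3), by decide +kernel⟩

theorem c_mm_101 : CertB 536870912 536870912 536870912 536870912 1040187392 5207648 3 eng mog cd1q1 cd5q1 pd0 false false false .npn 1 0 1
    ndB1q1 ndB5q1 pcB0 Cut.none Ext.none :=
  certB1 (fam := false) (s1 := false) (s2 := false) (a := 1) (b := 0) (c := 1) (cn := .npn) (n1 := ndB1q1) (n2 := ndB5q1) (pc := pcB0) (cut := Cut.none) (xt := Ext.none) (P1 := 536870912) (W1 := 536870912) (P2 := 536870912) (W2 := 536870912) (P3 := 1040187392) (W3 := 5207648) (N0 := 3) (En := eng) (mo := mog) (C1 := cd1q1) (C2 := cd5q1) (C3 := pd0)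
    rfl (fun _ => rfl) k0_mm_101

noncomputable def f_mm_102 : ℕ → ℕ → ℕ → ℕ → Bool := onCell 536870912 536870912 1073741824 536870912 1040187392 5207648
    (rowB 3 eng mog cd1q1 cd5q2 pd0 0 false false false .npp 1 0 2 (qsf 536870912 536870912 1073741824 536870912 0) ndB1q1 ndB5q2 pcB0 Cut.none Ext.none)

def k0_mm_102 : ∃ t, chk3 f_mm_102 t 1 1 1 = true :=
  ⟨(l 3), by decide +kernel⟩

theorem c_mm_102 : CertB 536870912 536870912 1073741824 536870912 1040187392 5207648 3 eng mog cd1q1 cd5q2 pd0 false false false .npp 1 0 2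
    ndB1q1 ndB5q2 pcB0 Cut.none Ext.none :=
  certB0 (fam := false) (s1 := false) (s2 := false) (a := 1) (b := 0) (c := 2) (cn := .npp) (n1 := ndB1q1) (n2 := ndB5q2) (pc := pcB0) (cut := Cut.none) (xt := Ext.none) (P1 := 536870912) (W1 := 536870912) (P2 := 1073741824) (W2 := 536870912) (P3 := 1040187392) (W3 := 5207648) (N0 := 3) (En := eng) (mo := mog) (C1 := cd1q1) (C2 := cd5q2) (C3 := pd0)
    rfl k0_mm_102

noncomputable def f_mm_112 : ℕ → ℕ → ℕ → ℕ → Bool := onCell 536870912 536870912 1073741824 536870912 1040187392 5207648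
    (rowB 3 eng mog cd1q1 cd5q2 pd1 0 false false false .dn 1 1 2 (qsf 536870912 536870912 1073741824 536870912 1) ndB1q1 ndB5q2 pcB1 Cut.none Ext.none)

def k0_mm_112 : ∃ t, chk3 f_mm_112 t 1 1 1 = true :=
  ⟨(l 3), by decide +kernel⟩

theorem c_mm_112 : CertB 536870912 536870912 1073741824 536870912 1040187392 5207648 3 eng mog cd1q1 cd5q2 pd1 false false false .dn 1 1 2
    ndB1q1 ndB5q2 pcB1 Cut.none Ext.none :=
  certB0 (fam := false) (s1 := false) (s2 := false) (a := 1) (b := 1) (c := 2) (cn := .dn) (n1 := ndB1q1) (n2 := ndB5q2) (pc := pcB1) (cut := Cut.none) (xt := Ext.none) (P1 := 536870912) (W1 := 536870912) (P2 := 1073741824) (W2 := 536870912) (P3 := 1040187392) (W3 := 5207648) (N0 := 3) (En := eng) (mo := mog) (C1 := cd1q1) (C2 := cd5q2) (C3 := pd1)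
    rfl k0_mm_112

noncomputable def f_mm_113 : ℕ → ℕ → ℕ → ℕ → Bool := onCell 536870912 536870912 0 1230186008 1040187392 5207648
    (rowB 3 eng mog cd1q1 cd5q3 pd1 0 false false false .nn 1 1 3 (qsf 536870912 536870912 0 1230186008 1) ndB1q1 ndB5q3 pcB1 Cut.none Ext.none)

def k0_mm_113 : ∃ t, chk3 f_mm_113 t 1 1 1 = true :=
  ⟨(b (l 5) (b (l 5) (a (l 5) (l 3)))), by decide +kernel⟩

theorem c_mm_113 : CertB 536870912 536870912 0 1230186008 1040187392 5207648 3 eng mog cd1q1 cd5q3 pd1 false false false .nn 1 1 3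
    ndB1q1 ndB5q3 pcB1 Cut.none Ext.none :=
  certB0 (fam := false) (s1 := false) (s2 := false) (a := 1) (b := 1) (c := 3) (cn := .nn) (n1 := ndB1q1) (n2 := ndB5q3) (pc := pcB1) (cut := Cut.none) (xt := Ext.none) (P1 := 536870912) (W1 := 536870912) (P2 := 0) (W2 := 1230186008) (P3 := 1040187392) (W3 := 5207648) (N0 := 3) (En := eng) (mo := mog) (C1 := cd1q1) (C2 := cd5q3) (C3 := pd1)
    rfl k0_mm_113

noncomputable def f_mm_123 : ℕ → ℕ → ℕ → ℕ → Bool := onCell 1073741824 536870912 0 1230186008 1040187392 5207648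
    (rowB 3 eng mog cd1q1 cd5q3 pd2 2 false false false .npn 1 2 3 (qsf 536870912 536870912 0 1230186008 2) ndB1q1 ndB5q3 pcB2 Cut.none Ext.none)

def k0_mm_123 : ∃ t, chk3 f_mm_123 t 1 1 1 = true :=
  ⟨(b (l 5) (l 5)), by decide +kernel⟩

theorem c_mm_123 : CertB 536870912 536870912 0 1230186008 1040187392 5207648 3 eng mog cd1q1 cd5q3 pd2 false false false .npn 1 2 3
    ndB1q1 ndB5q3 pcB2 Cut.none Ext.none :=
  certB2 (fam := false) (s1 := false) (s2 := false) (a := 1) (b := 2) (c := 3) (cn := .npn) (n1 := ndB1q1) (n2 := ndB5q3) (pc := pcB2) (cut := Cut.none) (xt := Ext.none) (P1 := 536870912) (W1 := 536870912) (P2 := 0) (W2 := 1230186008) (P3 := 1040187392) (W3 := 5207648) (N0 := 3) (En := eng) (mo := mog) (C1 := cd1q1) (C2 := cd5q3) (C3 := pd2)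
    rfl (fun _ => rfl) k0_mm_123

noncomputable def f_mm_133 : ℕ → ℕ → ℕ → ℕ → Bool := onCell 536870912 536870912 0 1230186008 1040187392 5207648
    (rowB 3 eng mog cd1q1 cd5q3 pd3 0 false false false .dn 1 3 3 (qsf 536870912 536870912 0 1230186008 3) ndB1q1 ndB5q3 pcB3 Cut.none Ext.none)

def k0_mm_133 : ∃ t, chk3 f_mm_133 t 1 1 1 = true :=
  ⟨(b (l 5) (l 1)), by decide +kernel⟩

theorem c_mm_133 : CertB 536870912 536870912 0 1230186008 1040187392 5207648 3 eng mog cd1q1 cd5q3 pd3 false false false .dn 1 3 3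
    ndB1q1 ndB5q3 pcB3 Cut.none Ext.none :=
  certB0 (fam := false) (s1 := false) (s2 := false) (a := 1) (b := 3) (c := 3) (cn := .dn) (n1 := ndB1q1) (n2 := ndB5q3) (pc := pcB3) (cut := Cut.none) (xt := Ext.none) (P1 := 536870912) (W1 := 536870912) (P2 := 0) (W2 := 1230186008) (P3 := 1040187392) (W3 := 5207648) (N0 := 3) (En := eng) (mo := mog) (C1 := cd1q1) (C2 := cd5q3) (C3 := pd3)
    rfl k0_mm_133

noncomputable def cut_mm_202_a : Cut := Cut.of [[⟨0, 1, 0, 26843545⟩, ⟨1, 0, 0, 26843545⟩, ⟨2, 1, 0, 26843545⟩]]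

noncomputable def f_mm_202_a : ℕ → ℕ → ℕ → ℕ → Bool := onCell 0 536870912 0 536870912 1040187392 5207648
    (rowB 3 eng mog cd1q2a cd5q2 pd0 1 false false false .pp 2 0 2 (qsf 0 536870912 1073741824 536870912 0) ndB1q2a ndB5q2 pcB0 cut_mm_202_a Ext.none)

def k0_mm_202_a : ∃ t, chk3 f_mm_202_a t 4 1 1 = true :=
  ⟨(b (b (b (b (b (l 15844208) (b (l 15876992) (l 15927432))) (b (l 15813920) (l 15978608))) (b (a (l 15884904) (l 15986776)) (b (a (l 15814896) (b (l 15927672) (l 15800976))) (a (b (l 15765224) (l 15742376)) (a (l 15787656) (l 15988112)))))) (b (b (a (b (a (l 15669264) (l 15759120)) (a (l 15666912) (l 15853056))) (b (l 16003448) (a (l 16033168) (b (l 16179216) (l 16215360))))) (a (b (l 15875008) (a (l 15907304) (b (l 16082264) (l 16128376)))) (b (a (b (l 16133768) (l 16173672)) (l 16255704)) (l 16255992)))) (b (a (b (a (l 15860440) (l 16170744)) (l 16166000)) (l 16301176)) (a (l 16265280) (a (l 16392144) (b (l 16469984) (l 16509104))))))) (b (b (a (b (b (l 16347024) (l 16304920))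 (a (b (l 16414840) (l 16465904)) (b (l 16494536) (l 16542448)))) (b (b (a (l 16482664) (l 16556480)) (l 16515928)) (a (l 16591264) (l 16659352)))) (b (a (b (l 16500024) (l 16590168)) (a (b (l 16652632) (l 16692168)) (b (l 214915920551) (a (l 235317070375) (l 296520404455))))) (a (l 303969193463) (b (a (a (l 16714392) (l 363025245863)) (l 305647222679)) (l 2))))) (l 2))), by decide +kernel⟩

def k1_mm_202_a : ∃ t, chk3 f_mm_202_a t 5 1 1 = true :=
  ⟨(b (b (b (b (b (a (l 16053232) (l 16196376)) (b (l 15933840) (l 16130400))) (b (b (l 16096768) (l 16240656)) (a (l 16158312) (b (a (l 16256400) (l 16320200)) (a (l 16235264) (l 16292568)))))) (b (b (a (b (l 16125280) (l 16109184)) (a (b (l 16211264) (l 16201912)) (l 16295160))) (a (a (l 16024176) (l 16123168)) (a (l 16235368) (b (l 16331072) (l 16369312))))) (b (a (l 16052344) (a (b (l 16296176) (l 16330872)) (l 16291176))) (a (a (l 16135280) (b (l 16259368) (l 16292968))) (a (l 16361904) (l 16449664)))))) (b (b (a (b (a (b (l 16220656) (l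 16254776)) (l 16328272)) (l 16331104)) (a (l 16354792) (b (l 16499832) (a (l 16527512) (l 16558360))))) (a (b (l 16388528) (a (l 16396856) (l 16485320))) (a (b (l 16472672) (l 16550736)) (b (l 16581016) (l 16626160))))) (a (b (b (a (l 16451176) (l 16523704)) (a (l 16497832) (l 16569960))) (b (a (l 16537624) (l 16611320)) (l 16617744))) (b (a (l 16618272) (b (l 16667672) (a (l 16691800) (l 225653357575)))) (a (b (l 16680600) (a (l 16704552) (l 238001390535))) (b (a (l 227263970167) (l 257865630247)) (l 258402533175))))))) (b (b (a (b (a (l 16645696) (b (l 16693624) (l 237464508151))) (a (b (l 16706112) (a (l 16707496) (l 275582384823))) (b (l 271824330551) (l 3)))) (b (a (b (l 256791879239) (l 3)) (l 3)) (l 3))) (b (a (a (b (l 290077952439) (l 3)) (l 3)) (l 3)) (l 3))) (l 3))), by decide +kernel⟩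

def k2_mm_202_a : ∃ t, chk3 f_mm_202_a t 6 4 1 = true :=
  ⟨(a (b (b (b (l 16252248) (b (l 16337312) (l 16409376))) (b (b (a (l 16420376) (b (l 16494024) (l 16500072))) (a (l 16409528) (l 16468288))) (a (b (l 16375808) (l 16369712)) (b (l 16450192) (l 16455400))))) (b (b (a (b (l 16379568) (l 16409216)) (b (l 16364160) (l 16481536))) (a (b (l 16426720) (l 16450688)) (l 16517048))) (a (b (l 16483160) (b (l 16516352) (l 16543536))) (b (a (l 16540720) (l 16540384)) (a (l 16583424) (l 16619600)))))) (b (a (b (b (l 16477080) (b (l 16480944) (l 16532856))) (b (b (l 16559032) (l 16538584)) (b (a (l 16508320) (l 16553008)) (a (l 16515680) (l 16553280))))) (b (b (l 16511936) (b (b (a (l 16533768) (l 16536824)) (l 16581336)) (b (l 16605264) (l 16621856)))) (b (b (a (l 16610032) (l 16642568)) (a (l 16598504) (l 16610536))) (b (a (l 16567000) (l 16632888)) (l 16575888))))) (b (b (a (b (l 16546416) (l 16562344)) (b (a (l 16607200) (l 16649952)) (a (l 16622816) (l 16654424)))) (a (b (l 16522080)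 (a (l 16587120) (l 16617976))) (b (a (l 16633216) (l 16667784)) (l 16668616)))) (b (a (a (l 16549144) (l 16628976)) (a (l 16684816) (b (l 16708008) (l 16699888)))) (a (a (l 16635824) (l 16693040)) (a (b (l 16718536) (l 16712800)) (b (l 191293726663) (l 326585177575)))))))), by decide +kernel⟩

def k3_mm_202_a : ∃ t, chk3 f_mm_202_a t 6 5 1 = true :=
  ⟨(b (a (b (a (b (a (l 16555680) (l 16587240)) (l 16614104)) (b (l 16643920) (a (l 16667456) (l 16703648)))) (a (b (l 16655288) (a (l 16679296) (l 16691536))) (b (a (l 16709160) (l 231022084439)) (a (l 208473575575) (l 3))))) (b (a (b (a (l 16698184) (b (l 16713096) (l 16709192))) (a (l 237464536071) (l 239075185943))) (b (b (l 293835990935) (l 3)) (l 3))) (a (b (a (l 241759559527) (l 3)) (l 3)) (l 3)))) (a (b (a (b (a (l 16689632) (l 217600380279)) (l 232632746759)) (l 3)) (l 3)) (l 3))), by decide +kernel⟩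

def k4_mm_202_a : ∃ t, chk3 f_mm_202_a t 14 4 1 = true :=
  ⟨(b (a (b (b (b (l 16622864) (b (a (l 16614320) (l 16649112)) (a (l 16614960) (l 16652984)))) (b (b (l 16642448) (l 16669112)) (b (l 16661960) (a (l 16663392) (l 16657144))))) (a (b (b (b (l 16668072) (l 16674872)) (l 16673360)) (b (l 16676792) (a (l 16674640) (l 16692440)))) (b (b (b (l 16666656) (l 16673936)) (l 16682944)) (b (b (l 16689832) (l 16699280)) (l 16715000))))) (b (b (b (b (a (l 16665096) (l 16689664)) (a (l 16673320) (l 16691944))) (b (l 16687992) (l 16681808))) (b (b (a (l 16676584) (b (l 16673008) (l 16641600))) (a (l 16660640) (a (l 16659672) (l 16665424)))) (b (a (l 16634984) (l 16666760)) (a (l 16661400) (l 16645472))))) (b (b (a (l 16646528) (b (a (l 16667968) (l 16674464)) (a (l 16671016) (l 16679792)))) (a (b (l 16650728) (a (l 16677832) (l 16680976))) (b (l 16683280) (l 16691864)))) (b (a (a (l 16673800) (l 16698040)) (a (l 16682024) (b (l 16704680) (l 16691936)))) (a (a (l 16716368) (l 16697448)) (a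 (b (l 16716592) (l 289004199847)) (b (l 342691280439) (l 383493508951)))))))) (b (b (a (a (b (l 16682424) (l 16689872)) (b (l 16716392) (a (l 16715920) (l 16733968)))) (a (b (a (l 16729552) (b (l 16728016) (l 362555532407))) (a (b (l 16732944) (l 16714168)) (l 378124796295))) (b (a (b (l 385104106759) (l 3)) (l 3)) (l 3)))) (a (b (a (l 16702520) (b (l 16734968) (l 152639036999))) (a (l 16715496) (a (l 166060819287) (l 3)))) (a (b (l 322290236103) (l 3)) (l 3)))) (a (b (a (b (a (l 16727232) (l 193978098135)) (a (l 270750581591) (l 3))) (l 3)) (l 3)) (l 3)))), by decide +kernel⟩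

def k5_mm_202_a : ∃ t, chk3 f_mm_202_a t 15 16 1 = true :=
  ⟨(b (a (b (b (a (l 16704640) (l 16724824)) (a (l 16704736) (l 16717992))) (a (b (l 16691904) (a (l 16679400) (b (l 16683112) (l 16679936)))) (b (b (a (l 16701792) (l 16687208)) (a (l 16672288) (a (l 16697424) (l 16706872)))) (a (b (l 16690640) (l 16694872)) (b (l 16709296) (a (l 16709792) (l 16719408))))))) (b (a (b (l 6) (a (b (l 16732016) (a (l 16721464) (l 16705880))) (l 6))) (l 6)) (a (b (a (b (a (l 16715376) (l 16726208)) (a (l 16719456) (b (l 16730528) (l 16733936)))) (b (l 6) (a (b (l 16742800) (l 16744240)) (l 6)))) (a (b (a (l 16725808) (l 16736528)) (a (l 16729464) (l 16737728))) (a (b (l 16744840) (l 16745632)) (b (a (l 16750552) (l 16754440)) (a (l 16751672) (l 297057336279)))))) (b (l 6) (b (l 6) (l 3)))))) (a (b (a (b (a (b (l 16671096) (l 16671512)) (b (b (l 16681432) (l 16683216)) (l 16686384))) (a (l 16677088) (l 16665848))) (b (a (b (l 16699496) (l 16701808)) (b (l 16717320) (l 16718912))) (a (b (l 16703192)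 (l 16704648)) (l 16719912)))) (a (b (a (l 16679360) (l 16691720)) (a (l 16681600) (l 16694744))) (a (b (l 16706328) (l 16710488)) (b (a (l 16718688) (l 16727304)) (a (l 16723032) (l 349670646263)))))) (a (b (a (b (a (l 16730648) (b (l 16738496) (l 16739472))) (a (l 16722280) (b (l 309405332135) (l 325511476567)))) (b (a (b (l 263234446103) (l 331953924903)) (b (l 326585244967) (l 3))) (a (l 364703051047) (l 3)))) (a (b (a (l 321216496743) (l 3)) (l 3)) (l 3))) (l 3)))), by decide +kernel⟩

def k6_mm_202_a : ∃ t, chk3 f_mm_202_a t 15 17 1 = true :=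
  ⟨(a (b (a (b (a (l 16688864) (b (l 16699992) (l 16705824))) (a (b (l 16699216) (l 16706416)) (b (l 331953840951) (l 354502458135)))) (b (a (b (l 314237106887) (l 350744366391)) (b (l 365239905303) (l 3))) (a (b (l 399062761655) (l 3)) (l 3)))) (a (b (a (b (l 353965553015) (l 358797430631)) (l 3)) (l 3)) (l 3))) (l 3)), by decide +kernel⟩

def k7_mm_202_a : ∃ t, chk3 f_mm_202_a t 15 9 1 = true :=
  ⟨(l 3), by decide +kernel⟩

def k8_mm_202_a : ∃ t, chk3 f_mm_202_a t 7 5 1 = true :=
  ⟨(l 3), by decide +kernel⟩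

def k9_mm_202_a : ∃ t, chk3 f_mm_202_a t 3 3 1 = true :=
  ⟨(l 3), by decide +kernel⟩

theorem s10_mm_202_a : ∃ t, chk3 f_mm_202_a t 15 8 1 = true := ex3_b k5_mm_202_a k6_mm_202_a

theorem s11_mm_202_a : ∃ t, chk3 f_mm_202_a t 15 4 1 = true := ex3_b s10_mm_202_a k7_mm_202_a

theorem s12_mm_202_a : ∃ t, chk3 f_mm_202_a t 7 4 1 = true := ex3_a k4_mm_202_a s11_mm_202_a

theorem s13_mm_202_a : ∃ t, chk3 f_mm_202_a t 7 2 1 = true := ex3_b s12_mm_202_a k8_mm_202_a

theorem s14_mm_202_a : ∃ t, chk3 f_mm_202_a t 6 2 1 = true := ex3_b k2_mm_202_a k3_mm_202_a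

theorem s15_mm_202_a : ∃ t, chk3 f_mm_202_a t 3 2 1 = true := ex3_a s14_mm_202_a s13_mm_202_a

theorem s16_mm_202_a : ∃ t, chk3 f_mm_202_a t 3 1 1 = true := ex3_b s15_mm_202_a k9_mm_202_a

theorem s17_mm_202_a : ∃ t, chk3 f_mm_202_a t 2 1 1 = true := ex3_a k0_mm_202_a k1_mm_202_a

theorem s18_mm_202_a : ∃ t, chk3 f_mm_202_a t 1 1 1 = true := ex3_a s17_mm_202_a s16_mm_202_a

theorem c_mm_202_a : CertB 0 536870912 1073741824 536870912 1040187392 5207648 3 eng mog cd1q2a cd5q2 pd0 false false false .pp 2 0 2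
    ndB1q2a ndB5q2 pcB0 cut_mm_202_a Ext.none :=
  certB1 (fam := false) (s1 := false) (s2 := false) (a := 2) (b := 0) (c := 2) (cn := .pp) (n1 := ndB1q2a) (n2 := ndB5q2) (pc := pcB0) (cut := cut_mm_202_a) (xt := Ext.none) (P1 := 0) (W1 := 536870912) (P2 := 1073741824) (W2 := 536870912) (P3 := 1040187392) (W3 := 5207648) (N0 := 3) (En := eng) (mo := mog) (C1 := cd1q2a) (C2 := cd5q2) (C3 := pd0)
    rfl (fun _ => rfl) s18_mm_202_a

noncomputable def cut_mm_202_b : Cut := Cut.of [[⟨0, 1, 0, 26843545⟩, ⟨1, 0, 0, 26843545⟩, ⟨2, 1, 0, 26843545⟩]]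

noncomputable def f_mm_202_b : ℕ → ℕ → ℕ → ℕ → Bool := onCell 0 536870912 1073741824 536870912 1040187392 5207648
    (rowB 3 eng mog cd1q2b cd5q2 pd0 2 false false false .pp 2 0 2 (qsf 1239849684 370763052 1073741824 536870912 0) ndB1q2b ndB5q2 pcB0 cut_mm_202_b Ext.none)

def k0_mm_202_b : ∃ t, chk3 f_mm_202_b t 1 1 1 = true :=
  ⟨(a (b (a (b (l 1) (a (b (a (a (l 374229970967) (b (l 1) (l 15741080))) (a (b (l 1) (l 15768448)) (l 1))) (a (a (l 15880128) (l 15892576)) (a (l 15921784) (l 15882072)))) (b (l 1) (a (l 15742032) (l 444022911671))))) (l 1)) (a (b (a (a (a (l 16091184) (b (l 16051816) (l 16159416))) (a (b (l 16083000) (l 16192008)) (l 16054840))) (b (a (l 15971904) (l 15798792)) (a (b (l 16086560) (a (l 16169824) (l 16127424))) (b (l 15721376) (a (l 16075800) (l 16032720)))))) (a (b (a (a (l 15991344) (l 16051424)) (a (l 16067184) (l 15973688))) (a (a (l 15500672) (a (b (l 15795968) (l 15579176)) (l 15695968))) (a (b (l 15637912) (l 15581360)) (b (l 15984528) (l 15769136)))))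 (a (b (a (b (l 16219712) (l 16256312)) (b (l 16193920) (l 16265000))) (a (b (l 16048288) (l 15862624)) (b (l 16160888) (l 15952008)))) (b (b (l 16183432) (a (l 16278240) (l 16298968))) (b (l 16293872) (l 16065144)))))) (b (a (a (b (b (l 15478280) (a (l 15673456) (l 15465320))) (b (a (l 15819400) (l 15782640)) (l 16017656))) (b (b (l 1) (a (l 15457128) (l 1))) (b (l 15749200) (l 16015840)))) (b (l 1) (b (a (l 15721416) (l 1)) (a (b (l 15969744) (l 16091184)) (b (l 1) (l 16053496)))))) (b (a (a (b (l 16205200) (l 16310760)) (b (a (l 16220336) (l 16216832)) (l 16328440))) (a (b (l 16200888) (l 16325856)) (l 16184048))) (a (b (l 16386264) (a (l 16193536) (l 16334616))) (b (l 16418264) (l 16484552))))))) (b (l 1) (b (l 1) (a (b (a (b (l 446708273735) (l 16096856)) (l 1)) (a (b (l 16408064) (l 16509040)) (b (l 436508209863) (a (l 16498448) (l 16278944))))) (l 1))))), by decide +kernel⟩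

theorem c_mm_202_b : CertB 1239849684 370763052 1073741824 536870912 1040187392 5207648 3 eng mog cd1q2b cd5q2 pd0 false false false .pp 2 0 2
    ndB1q2b ndB5q2 pcB0 cut_mm_202_b Ext.none :=
  certB2 (fam := false) (s1 := false) (s2 := false) (a := 2) (b := 0) (c := 2) (cn := .pp) (n1 := ndB1q2b) (n2 := ndB5q2) (pc := pcB0) (cut := cut_mm_202_b) (xt := Ext.none) (P1 := 1239849684) (W1 := 370763052) (P2 := 1073741824) (W2 := 536870912) (P3 := 1040187392) (W3 := 5207648) (N0 := 3) (En := eng) (mo := mog) (C1 := cd1q2b) (C2 := cd5q2) (C3 := pd0)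
    rfl (fun _ => rfl) k0_mm_202_b

noncomputable def f_mm_203_a : ℕ → ℕ → ℕ → ℕ → Bool := onCell 0 536870912 0 1230186008 1040187392 5207648
    (rowB 3 eng mog cd1q2a cd5q3 pd0 0 false false false .up 2 0 3 (qsf 0 536870912 0 1230186008 0) ndB1q2a ndB5q3 pcB0 Cut.none Ext.none)

def k0_mm_203_a : ∃ t, chk3 f_mm_203_a t 1 1 1 = true :=
  ⟨(b (l 2) (b (l 2) (b (l 3) (a (a (b (a (b (l 3) (a (b (a (b (l 3) (l 300815432023)) (l 3)) (a (b (l 227800946599) (l 16744240)) (b (l 324437743127) (l 279877456615)))) (l 3))) (l 3)) (b (a (a (b (a (l 16716424) (b (l 226190322935) (l 16738688))) (l 16692944)) (b (a (b (l 317458410695) (l 277193093015)) (l 3)) (a (b (l 222969087495) (l 16732320)) (b (l 308868465975) (l 251423238087))))) (l 3)) (a (a (l 16564616) (b (a (l 16701672) (l 206326044855)) (l 16675392))) (a (b (a (b (l 300278521943) (l 246591387687)) (l 3)) (a (l 16706528) (b (l 296520417031) (l 242296409255)))) (l 3))))) (l 3)) (l 3))))), by decide +kernel⟩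

theorem c_mm_203_a : CertB 0 536870912 0 1230186008 1040187392 5207648 3 eng mog cd1q2a cd5q3 pd0 false false false .up 2 0 3
    ndB1q2a ndB5q3 pcB0 Cut.none Ext.none :=
  certB0 (fam := false) (s1 := false) (s2 := false) (a := 2) (b := 0) (c := 3) (cn := .up) (n1 := ndB1q2a) (n2 := ndB5q3) (pc := pcB0) (cut := Cut.none) (xt := Ext.none) (P1 := 0) (W1 := 536870912) (P2 := 0) (W2 := 1230186008) (P3 := 1040187392) (W3 := 5207648) (N0 := 3) (En := eng) (mo := mog) (C1 := cd1q2a) (C2 := cd5q3) (C3 := pd0)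
    rfl k0_mm_203_a

noncomputable def f_mm_203_b : ℕ → ℕ → ℕ → ℕ → Bool := onCell 1239849684 370763052 0 1230186008 1040187392 5207648
    (rowB 3 eng mog cd1q2b cd5q3 pd0 0 false false false .up 2 0 3 (qsf 1239849684 370763052 0 1230186008 0) ndB1q2b ndB5q3 pcB0 Cut.none Ext.none)

def k0_mm_203_b : ∃ t, chk3 f_mm_203_b t 1 1 1 = true :=
  ⟨(b (l 3) (b (l 3) (b (l 3) (b (a (a (b (l 3) (a (b (a (b (l 3) (a (l 16716384) (l 16701200))) (l 3)) (a (b (l 16729296) (l 16728888)) (l 16657296))) (b (l 3) (l 16506656)))) (l 3)) (l 3)) (b (a (a (a (b (l 16616424) (l 16662008)) (b (l 16561088) (l 16596472))) (a (l 16310328) (l 16252888))) (b (l 3) (a (l 15996072) (a (l 15729176) (a (l 15619560) (l 15536928)))))) (a (a (a (b (l 16620280) (l 16575504)) (l 16589184)) (a (l 16480360) (l 16301672))) (a (a (b (l 16103128) (l 16133560)) (b (l 15914040) (a (l 15999344) (l 15899488)))) (a (a (b (l 15782680) (l 15612624)) (b (b (l 15692104) (l 15698888)) (b (l 15677392) (l 15723464)))) (a (b (l 15616848)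 (a (b (l 15614568) (l 15592344)) (b (l 15557600) (a (l 15535000) (l 15537632))))) (b (b (l 15500944) (a (l 15513728) (b (l 15449584) (l 15429920)))) (a (b (b (l 15466144) (l 15476712)) (b (l 15463088) (l 15514736))) (b (a (l 15347856) (l 15433912)) (a (b (l 15475384) (l 15470184)) (l 15406440)))))))))))))), by decide +kernel⟩

theorem c_mm_203_b : CertB 1239849684 370763052 0 1230186008 1040187392 5207648 3 eng mog cd1q2b cd5q3 pd0 false false false .up 2 0 3
    ndB1q2b ndB5q3 pcB0 Cut.none Ext.none :=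
  certB0 (fam := false) (s1 := false) (s2 := false) (a := 2) (b := 0) (c := 3) (cn := .up) (n1 := ndB1q2b) (n2 := ndB5q3) (pc := pcB0) (cut := Cut.none) (xt := Ext.none) (P1 := 1239849684) (W1 := 370763052) (P2 := 0) (W2 := 1230186008) (P3 := 1040187392) (W3 := 5207648) (N0 := 3) (En := eng) (mo := mog) (C1 := cd1q2b) (C2 := cd5q3) (C3 := pd0)
    rfl k0_mm_203_b

noncomputable def f_mm_213_a : ℕ → ℕ → ℕ → ℕ → Bool := onCell 0 536870912 0 1230186008 1040187392 5207648
    (rowB 3 eng mog cd1q2a cd5q3 pd1 0 false false false .pnn 2 1 3 (qsf 0 536870912 0 1230186008 1) ndB1q2a ndB5q3 pcB1 Cut.none Ext.none)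

def k0_mm_213_a : ∃ t, chk3 f_mm_213_a t 1 1 1 = true :=
  ⟨(b (a (l 3) (b (l 5) (l 3))) (a (b (l 3) (a (b (l 3) (l 1)) (l 3))) (l 3))), by decide +kernel⟩

theorem c_mm_213_a : CertB 0 536870912 0 1230186008 1040187392 5207648 3 eng mog cd1q2a cd5q3 pd1 false false false .pnn 2 1 3
    ndB1q2a ndB5q3 pcB1 Cut.none Ext.none :=
  certB0 (fam := false) (s1 := false) (s2 := false) (a := 2) (b := 1) (c := 3) (cn := .pnn) (n1 := ndB1q2a) (n2 := ndB5q3) (pc := pcB1) (cut := Cut.none) (xt := Ext.none) (P1 := 0) (W1 := 536870912) (P2 := 0) (W2 := 1230186008) (P3 := 1040187392) (W3 := 5207648) (N0 := 3) (En := eng) (mo := mog) (C1 := cd1q2a) (C2 := cd5q3) (C3 := pd1)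
    rfl k0_mm_213_a

noncomputable def f_mm_213_b : ℕ → ℕ → ℕ → ℕ → Bool := onCell 1239849684 370763052 0 1230186008 1040187392 5207648
    (rowB 3 eng mog cd1q2b cd5q3 pd1 0 false false false .pnn 2 1 3 (qsf 1239849684 370763052 0 1230186008 1) ndB1q2b ndB5q3 pcB1 Cut.none Ext.none)

def k0_mm_213_b : ∃ t, chk3 f_mm_213_b t 1 1 1 = true :=
  ⟨(b (l 3) (b (l 3) (b (l 3) (l 1)))), by decide +kernel⟩

theorem c_mm_213_b : CertB 1239849684 370763052 0 1230186008 1040187392 5207648 3 eng mog cd1q2b cd5q3 pd1 false false false .pnn 2 1 3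
    ndB1q2b ndB5q3 pcB1 Cut.none Ext.none :=
  certB0 (fam := false) (s1 := false) (s2 := false) (a := 2) (b := 1) (c := 3) (cn := .pnn) (n1 := ndB1q2b) (n2 := ndB5q3) (pc := pcB1) (cut := Cut.none) (xt := Ext.none) (P1 := 1239849684) (W1 := 370763052) (P2 := 0) (W2 := 1230186008) (P3 := 1040187392) (W3 := 5207648) (N0 := 3) (En := eng) (mo := mog) (C1 := cd1q2b) (C2 := cd5q3) (C3 := pd1)
    rfl k0_mm_213_b

noncomputable def f_mm_303 : ℕ → ℕ → ℕ → ℕ → Bool := onCell 0 536870912 0 1230186008 1040187392 5207648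
    (rowB 3 eng mog cd1q3 cd5q3 pd0 2 false false false .npn 3 0 3 (qsf 1610612736 536870912 0 1230186008 0) ndB1q3 ndB5q3 pcB0 Cut.none Ext.none)

def k0_mm_303 : ∃ t, chk3 f_mm_303 t 1 1 1 = true :=
  ⟨(b (l 3) (b (l 3) (a (b (l 3) (b (l 3) (a (a (b (a (a (l 14963696) (l 15069384)) (l 15226544)) (a (a (l 14993384) (a (l 15119168) (l 15156832))) (b (l 15274920) (l 1)))) (a (b (l 15415712) (l 1)) (l 1))) (l 1)))) (l 1)))), by decide +kernel⟩

theorem c_mm_303 : CertB 1610612736 536870912 0 1230186008 1040187392 5207648 3 eng mog cd1q3 cd5q3 pd0 false false false .npn 3 0 3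
    ndB1q3 ndB5q3 pcB0 Cut.none Ext.none :=
  certB2 (fam := false) (s1 := false) (s2 := false) (a := 3) (b := 0) (c := 3) (cn := .npn) (n1 := ndB1q3) (n2 := ndB5q3) (pc := pcB0) (cut := Cut.none) (xt := Ext.none) (P1 := 1610612736) (W1 := 536870912) (P2 := 0) (W2 := 1230186008) (P3 := 1040187392) (W3 := 5207648) (N0 := 3) (En := eng) (mo := mog) (C1 := cd1q3) (C2 := cd5q3) (C3 := pd0)
    rfl (fun _ => rfl) k0_mm_303

noncomputable def f_mm_313 : ℕ → ℕ → ℕ → ℕ → Bool := onCell 1610612736 536870912 0 1230186008 1040187392 5207648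
    (rowB 3 eng mog cd1q3 cd5q3 pd1 0 false false false .dn 3 1 3 (qsf 1610612736 536870912 0 1230186008 1) ndB1q3 ndB5q3 pcB1 Cut.none Ext.none)

def k0_mm_313 : ∃ t, chk3 f_mm_313 t 1 1 1 = true :=
  ⟨(b (l 3) (l 1)), by decide +kernel⟩

theorem c_mm_313 : CertB 1610612736 536870912 0 1230186008 1040187392 5207648 3 eng mog cd1q3 cd5q3 pd1 false false false .dn 3 1 3
    ndB1q3 ndB5q3 pcB1 Cut.none Ext.none :=
  certB0 (fam := false) (s1 := false) (s2 := false) (a := 3) (b := 1) (c := 3) (cn := .dn) (n1 := ndB1q3) (n2 := ndB5q3) (pc := pcB1) (cut := Cut.none) (xt := Ext.none) (P1 := 1610612736) (W1 := 536870912) (P2 := 0) (W2 := 1230186008) (P3 := 1040187392) (W3 := 5207648) (N0 := 3) (En := eng) (mo := mog) (C1 := cd1q3) (C2 := cd5q3) (C3 := pd1)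
    rfl k0_mm_313

end Pool.Agent.Strip051.G.I9688_9736.Tab.C.BB15

namespace Pool.Agent.Strip051.G.I9688_9736.Tab.C.BB20

open Pool.Agent.Strip051.PB Pool.Agent.Strip051.PB.T
open Pool.Agent.Strip051.G.I9688_9736.Tab

noncomputable def f_pp_001 : ℕ → ℕ → ℕ → ℕ → Bool := onCell 0 536870912 0 536870912 1040187392 5207648
    (rowB 3 eng mog cd2q0 cd0q1 pd0 1 false true true .up 0 0 1 (qsf 0 536870912 536870912 536870912 0) ndB2q0 ndB0q1 pcB0 Cut.none Ext.none)

def k0_pp_001 : ∃ t, chk3 f_pp_001 t 1 1 1 = true :=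
  ⟨(l 3), by decide +kernel⟩

theorem c_pp_001 : CertB 0 536870912 536870912 536870912 1040187392 5207648 3 eng mog cd2q0 cd0q1 pd0 false true true .up 0 0 1
    ndB2q0 ndB0q1 pcB0 Cut.none Ext.none :=
  certB1 (fam := false) (s1 := true) (s2 := true) (a := 0) (b := 0) (c := 1) (cn := .up) (n1 := ndB2q0) (n2 := ndB0q1) (pc := pcB0) (cut := Cut.none) (xt := Ext.none) (P1 := 0) (W1 := 536870912) (P2 := 536870912) (W2 := 536870912) (P3 := 1040187392) (W3 := 5207648) (N0 := 3) (En := eng) (mo := mog) (C1 := cd2q0) (C2 := cd0q1) (C3 := pd0)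
    rfl (fun _ => rfl) k0_pp_001

noncomputable def cut_pp_011 : Cut := Cut.of [[⟨0, 0, 0, 26843545⟩, ⟨1, 1, 0, 26843545⟩, ⟨2, 1, 0, 26843545⟩]]

noncomputable def f_pp_011 : ℕ → ℕ → ℕ → ℕ → Bool := onCell 0 536870912 536870912 536870912 1040187392 5207648
    (rowB 3 eng mog cd2q0 cd0q1 pd1 0 false true true .pnn 0 1 1 (qsf 0 536870912 536870912 536870912 1) ndB2q0 ndB0q1 pcB1 cut_pp_011 Ext.none)

def k0_pp_011 : ∃ t, chk3 f_pp_011 t 1 1 1 = true :=
  ⟨(a (b (l 3) (b (l 3) (a (b (l 3) (a (b (l 3) (a (b (l 3) (a (b (l 3) (l 6)) (l 3))) (l 3))) (l 3))) (l 3)))) (l 3)), by decide +kernel⟩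

theorem c_pp_011 : CertB 0 536870912 536870912 536870912 1040187392 5207648 3 eng mog cd2q0 cd0q1 pd1 false true true .pnn 0 1 1
    ndB2q0 ndB0q1 pcB1 cut_pp_011 Ext.none :=
  certB0 (fam := false) (s1 := true) (s2 := true) (a := 0) (b := 1) (c := 1) (cn := .pnn) (n1 := ndB2q0) (n2 := ndB0q1) (pc := pcB1) (cut := cut_pp_011) (xt := Ext.none) (P1 := 0) (W1 := 536870912) (P2 := 536870912) (W2 := 536870912) (P3 := 1040187392) (W3 := 5207648) (N0 := 3) (En := eng) (mo := mog) (C1 := cd2q0) (C2 := cd0q1) (C3 := pd1)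
    rfl k0_pp_011

noncomputable def cut_pp_012 : Cut := Cut.of [[⟨0, 0, 0, 16777216⟩, ⟨1, 1, 0, 16777216⟩, ⟨2, 1, 0, 16777216⟩]]

noncomputable def xt_pp_012 : Ext := extD3 3 ⟨4, 1, 1, 5, 33, 5, 163, 200, 81, 200, 1, 64⟩ eng cd2q0 cd0q2 pd1 false true true .pnp 0 1 2 rfl ndB2q0 ndB0q2 pcB1

noncomputable def f_pp_012 : ℕ → ℕ → ℕ → ℕ → Bool := onCell 536870912 536870912 0 536870912 1040187392 5207648
    (rowB 3 eng mog cd2q0 cd0q2 pd1 2 false true true .pnp 0 1 2 (qsf 0 536870912 0 536870912 1) ndB2q0 ndB0q2 pcB1 cut_pp_012 xt_pp_012)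

def k0_pp_012 : ∃ t, chk3 f_pp_012 t 2 1 1 = true :=
  ⟨(b (a (b (l 2) (b (l 2) (a (l 2) (b (l 2) (a (l 2) (l 16039408)))))) (b (a (b (l 14834272) (l 15167632)) (b (l 14985616) (l 15222480))) (a (b (l 15513944) (b (l 15780928) (a (l 15977056) (l 15912968)))) (b (l 15477808) (a (l 15775816) (l 15732152)))))) (b (a (a (l 2) (b (a (l 2) (l 15910112)) (a (b (l 15744304) (b (a (l 15652984) (l 15657864)) (a (l 15626712) (l 159615992247)))) (b (l 15750360) (b (l 15672368) (a (l 187533282711) (l 15630376))))))) (a (b (a (l 15896680) (l 15886000)) (a (b (l 15763016) (b (l 15698584) (l 15656616))) (b (l 15780488) (l 15714632)))) (b (a (l 15874800) (l 15863120)) (a (b (l 15801360) (l 15756096)) (l 15812752))))) (b (a (a (l 3) (b (a (l 3) (b (l 140288647351) (l 3))) (l 3))) (a (b (a (b (a (l 167132207175) (l 193438908231)) (l 3)) (b (a (l 15654712) (l 15681552)) (a (l 150489264855) (l 175185363063)))) (l 3)) (b (a (b (l 15724768) (a (l 198270860919) (l 15723512))) (b (l 15785256) (l 15776760)))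 (b (a (a (l 3) (l 160689957511)) (a (l 191828525591) (l 214914032775))) (l 3))))) (l 3)))), by decide +kernel⟩

def k1_pp_012 : ∃ t, chk3 f_pp_012 t 6 1 1 = true :=
  ⟨(b (a (b (l 15094032) (b (l 15514856) (l 15701272))) (b (l 15511336) (b (l 15627888) (l 15726680)))) (b (a (b (a (l 15852392) (l 15844304)) (a (l 15848216) (l 15884456))) (b (a (l 15841088) (l 15845640)) (a (l 15920848) (l 15956848)))) (b (a (b (a (l 15848872) (l 15917248)) (a (b (a (l 15833424) (l 15875368)) (a (l 189681188759) (l 207934867063))) (b (l 15938568) (a (l 222430464663) (l 15982616))))) (b (a (l 15985184) (l 16051808)) (a (b (l 16022096) (a (l 16029224) (l 16075488))) (b (l 16103952) (l 16143576))))) (b (a (b (a (l 3) (b (l 205250634535) (l 3))) (l 3)) (b (a (a (l 242294915591) (a (l 251958697703) (l 255179970423))) (a (l 207935366247) (l 16182136))) (a (l 3) (b (a (l 247126897655) (l 16080368)) (l 3))))) (l 3))))), by decide +kernel⟩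

def k2_pp_012 : ∃ t, chk3 f_pp_012 t 7 2 1 = true :=
  ⟨(a (b (a (l 15765792) (l 15943440)) (a (l 15783720) (l 15879432))) (b (a (l 16138536) (b (l 16415832) (l 16283432))) (a (b (l 16017504) (l 15972368)) (b (l 16177568) (l 16095928))))), by decide +kernel⟩

def k3_pp_012 : ∃ t, chk3 f_pp_012 t 7 6 1 = true :=
  ⟨(a (a (b (l 15861688) (l 15992048)) (b (l 15894008) (a (l 16017864) (l 16034656)))) (a (b (b (l 15952928) (l 15948176)) (a (l 16052928) (b (l 16016184) (l 16130536)))) (b (l 15994288) (b (a (l 16035472) (l 16058160)) (a (l 16151616) (l 16168432)))))), by decide +kernel⟩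

def k4_pp_012 : ∃ t, chk3 f_pp_012 t 14 7 1 = true :=
  ⟨(b (a (b (l 16115984) (b (l 16183352) (l 16233136))) (b (a (l 16161696) (l 16189904)) (a (l 16270712) (b (l 16274704) (l 16339144))))) (b (a (b (a (l 16235696) (l 16274240)) (a (b (l 16135184) (l 269675294919)) (b (l 16167880) (l 196660869399)))) (a (b (l 16335104) (b (l 16225936) (l 16133784))) (b (l 16402272) (a (l 16244664) (l 16299016))))) (b (a (b (a (l 3) (l 334099884343)) (l 3)) (a (b (l 342689928887) (l 3)) (b (a (l 16087960) (l 16141872)) (a (l 375438920487) (l 370070318183))))) (l 3)))), by decide +kernel⟩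

def k5_pp_012 : ∃ t, chk3 f_pp_012 t 15 14 1 = true :=
  ⟨(a (b (a (l 16220040) (l 16254720)) (a (b (l 16311232) (l 16380824)) (b (l 16353200) (l 16407184)))) (b (a (l 16281536) (l 16298816)) (a (b (l 16384336) (l 16462424)) (b (l 16401824) (a (l 16475696) (l 16485048)))))), by decide +kernel⟩

def k6_pp_012 : ∃ t, chk3 f_pp_012 t 30 15 1 = true :=
  ⟨(b (a (b (l 16393160) (a (l 16363544) (l 16438408))) (b (a (l 16496448) (l 16522144)) (a (l 16522232) (l 16576272)))) (b (a (b (a (l 16208576) (l 16289792)) (b (a (l 16120032) (l 16204576)) (a (l 381881530471) (l 224578532455)))) (a (b (l 16388416) (b (l 16310072) (l 16258024))) (b (l 16526048) (l 141014461471047743)))) (b (a (b (a (l 3) (l 414093866071)) (l 3)) (b (a (a (l 399598526727) (a (l 259475377607) (l 211157076487))) (b (l 140183917783302207) (l 139905397716090943))) (a (l 3) (a (l 7816914349767230195279265855) (b (c (l 4702721438441557531735212095) (l 4712392844997584853892530239)) (l 3)))))) (l 3)))), by decide +kernel⟩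

def k7_pp_012 : ∃ t, chk3 f_pp_012 t 31 30 1 = true :=
  ⟨(a (b (a (l 16541352) (l 16553232)) (a (l 16620576) (l 16633040))) (b (a (l 16540664) (b (l 16548832) (l 16592112))) (a (l 16599384) (b (l 16632240) (l 16667944))))), by decide +kernel⟩

def k8_pp_012 : ∃ t, chk3 f_pp_012 t 62 62 1 = true :=
  ⟨(a (b (l 16629968) (l 16574648)) (b (l 16683600) (l 143299109795184767))), by decide +kernel⟩

def k9_pp_012 : ∃ t, chk3 f_pp_012 t 124 63 1 = true :=
  ⟨(b (b (l 142193000791654463) (a (b (l 3619523904068199716824498239) (c (a (l 7633157625188529020733964351) (b (a (l 7014187605546363419143995455) (l 5137934733505271616678871167)) (l 7778228723543135268978966591))) (a (l 7710528877642815735162585151) (b (l 4335207989279712055341924415) (l 7884614195668098729113010239))))) (b (l 16683416) (b (c (l 143683320388796543) (l 142598102219620415)) (b (a (c (c (a (b (l 5766576159705336390608453759) (l 7391372461267350035212845183)) (l 5901975851502672112402022527)) (a (l 7101230264559246740007649407)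 (l 5505448182668497117865525375))) (a (l 7188272923571064015357018175) (l 5137934733504658020444356735))) (l 143716924227256447)) (b (a (a (l 3) (a (c (l 7604143405519623038834147455) (l 7758885910429118889388212351)) (c (c (l 6907802133422256616151761151) (l 6975501979320161759462785151)) (l 7072216044888741311992545407)))) (c (c (l 5911647258059662057182970111) (l 5843947412161228392283455615)) (l 5457091149883641196129534079))) (a (l 3) (a (a (b (c (a (l 7507429339951084649260073087) (l 6898130726865312850879250687)) (l 7217287143242754511042969727)) (l 3)) (c (c (l 6617659936714753310809899263) (l 6443574618690211181678821631)) (c (l 6153432421982139016424030335) (l 5747233346590781593865732223)))) (c (l 144107319634788607) (l 143492692540768383)))))))))) (b (b (a (l 3) (b (a (l 3) (b (c (a (c (c (l 7671843251418742661631820031) (l 7671843251418725413041209599)) (l 7807242943215329959491158143)) (a (b (a (c (l 7149587297345195851404787967) (l 7168930110458996314372161791)) (b (l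 6201789454767150656568508671) (l 7294658395698919535246704895))) (l 3)) (c (b (l 6230803674438009646344978687) (b (l 7149587297345196126286561535) (l 3))) (b (l 6250146487551721186309259519) (l 7304329802255856772176380159))))) (c (a (l 7961985448125371030469951615) (b (a (b (l 6462917431803754221463109759) (l 7459072307166243158568108159)) (l 6269489300665461382295634175)) (l 7439729494052373632556155007))) (a (l 8087713733364661688450973823) (b (a (l 7130244484230431597588398207) (l 5921318664615810944181125247)) (l 7546114966177812631552540799))))) (l 3))) (l 3))) (l 3)) (l 3))), by decide +kernel⟩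

def k10_pp_012 : ∃ t, chk3 f_pp_012 t 125 126 1 = true :=
  ⟨(b (l 16715872) (b (l 143654595727425663) (a (l 144094469067702399) (l 16740504)))), by decide +kernel⟩

def k11_pp_012 : ∃ t, chk3 f_pp_012 t 250 508 1 = true :=
  ⟨(b (a (b (b (c (l 144108144297230591) (l 144047190114566271)) (a (a (c (c (l 6666016969499344181525053695) (l 6675688376056230497313095935)) (c (l 6695031189170033502901059839) (l 6733716815397395010151563391))) (c (l 6027704136742644467734823167) (l 6056718356413335438378631423))) (l 144074265552830719))) (a (b (a (l 3) (c (a (c (l 7343015428483536656806232319) (l 7362358241597341449101066495)) (b (l 6443574618690163833974948095) (l 7468743713723427991840538879))) (c (b (l 6820759474409957754573275391) (l 7604143405520237803384389887)) (l 7072216044889769561689555199)))) (l 3)) (b (c (c (l 6250146487551902605740966143) (l 6259817894108793525734097151)) (c (l 6269489300665684170849140991) (l 6279160707222573166697054463))) (a (a (l 3) (b (c (l 7236629956357415754326147327)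 (l 7294658395698863116563038463)) (l 3))) (c (b (l 6346860553120987315250315519) (l 7188272923572827426243707135)) (c (l 6743388221954619013496881407) (l 6753059628511509383734444287))))))) (a (a (b (l 16762304) (c (l 6018032730185716439228121343) (l 6037375543299498828970541311))) (l 144067599790014719)) (l 144061071463301375))) (a (l 3) (b (b (c (a (a (b (l 7023859012105232360928280831) (l 7845928569443180268453069055)) (l 6453246025247121755471495423)) (l 144073303538680063)) (a (a (c (l 7372029648154222954535960831) (l 7391372461268032213597176063)) (b (l 144215484127838463) (l 6733716815397670987619205375))) (l 144209780414120191))) (a (a (l 3) (a (l 3) (c (l 7430058087495741922482569471) (l 7478415120280282078208000255)))) (a (c (b (l 5940661477730451090556764415) (l 7314001208812731130797326591)) (c (l 6946487759649863314559189247) (l 6965830572763675597277315327))) (c (l 5660190687579759265491386623) (c (l 5708547720364493966058307839) (l 5747233346592141552522772735)))))) (a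 (l 3) (b (b (a (l 3) (c (c (l 7091558858003651113686941951) (l 7101230264560548493311705343)) (c (l 7120573077674362700175507711) (l 7130244484231261179311866111)))) (l 3)) (l 3)))))), by decide +kernel⟩

def k12_pp_012 : ∃ t, chk3 f_pp_012 t 251 508 1 = true :=
  ⟨(b (l 144053237449179391) (a (b (a (l 144036676047962367) (l 16771080)) (a (a (b (c (b (l 5592490841681328830436884735) (c (l 6327517740007194205280747775) (a (l 7217287143243548221161685247) (l 6037375543299679423778455807)))) (c (b (l 144206550606250239) (a (l 7236629956357363802415120639) (l 6066389762970412588185420031))) (b (l 144187790186660095) (a (l 7246301362914262144112558335) (l 6105075389198062717270704383))))) (c (c (l 7555786372735674489216401663) (l 7584800592406407997220913407)) (c (l 7604143405520224265669345535) (l 7633157625190957498795950335)))) (b (c (l 144224348956115199) (l 144189920482885887)) (b (a (c (c (l 6898130726865261380032495871) (l 6917473539979078610553684223)) (c (b (l 6105075389198075911414677759)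 (l 7323672615369577039542173951)) (b (l 6143761015425726933853077759) (l 7333344021926499639215112447)))) (c (c (l 5747233346592173713253449983) (l 5776247566262908664367120639)) (c (l 5805261785933643478041641215) (l 5843947412161295187674857727)))) (a (l 3) (b (c (c (l 7072216044889806051782099199) (l 7091558858003624244375781631)) (c (l 7101230264560525334852583679) (l 7120573077674343252568424703))) (l 3)))))) (b (l 144013311442534655) (a (c (b (l 144210811222016255) (a (c (b (l 144219332438819071) (l 6404888992462523875397796095)) (b (l 144204076712804607) (a (l 7168930110458955907354231039) (l 6143761015425747412266189055)))) (c (l 144213010247745791) (l 144198510436040959)))) (b (l 144180024892080383) (a (c (b (l 144188752265953535) (a (l 7226958549800442783293686015) (l 6143761015425732431417245951))) (b (l 5747233346592120386934472959) (a (l 7236629956357344354806776063) (l 6182446641653385446720667903)))) (c (l 144183873185349887) (l 144169167215198463))))) (c (l 144198372998365439)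 (l 144170472886681855)))))) (l 144049389127024895))), by decide +kernel⟩

def k13_pp_012 : ∃ t, chk3 f_pp_012 t 250 509 1 = true :=
  ⟨(l 3), by decide +kernel⟩

def k14_pp_012 : ∃ t, chk3 f_pp_012 t 502 1018 1 = true :=
  ⟨(b (a (l 3) (b (b (c (a (a (c (l 7555786372735638274055815423) (l 7584800592406374599559102719)) (c (b (a (l 6859445100637618878811324671) (l 5814933192490576042050044159)) (l 7391372461268031388987293951)) (b (a (l 6869116507194521549836386559) (l 5872961631832064154941456639)) (a (l 3) (l 7246301362914282553810682111))))) (b (l 144195486781767935) (c (c (l 5853618818718238609364058367) (l 5872961631832066147808051455)) (c (l 5892304444945893686252060927) (l 5901975851502804191298322687))))) (a (a (c (l 7604143405520194441420554495) (l 7633157625190930492045918463)) (b (c (c (l 6279160707222570417949917439) (l 6298503520336397269199094015)) (c (l 6308174926893307087050457343) (l 6327517740007133938299551999))) (c (c (l 7420386680938780358873121023) (l 7430058087495679044169253119))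 (c (l 7439729494052593191347814655) (l 7449400900609503077918736639))))) (b (l 144168686181777663) (a (c (c (l 6134089608868809007112159487) (l 6095403982641134070291546367)) (c (l 6114746795754961402576929023) (l 6134089608868788666142998783))) (l 144165593806225663))))) (a (l 3) (b (a (c (c (c (l 7149587297345123764709638399) (l 7139915890788200134241386751)) (a (l 7623486218634043626504454399) (c (l 6927144946536016946996756735) (l 6927144946536010418645532927)))) (a (c (l 7681514657975532357870010623) (l 7700857471089352886926246143)) (c (c (l 6927144946536003890294276351) (l 6936816353092914326621225215)) (c (l 6936816353092907729550475519) (l 6936816353092901063760331007))))) (c (a (c (l 5940661477730485793910505727) (c (l 5969675697401227342094860543) (l 5998689917071972120095031551))) (l 144188614835634431)) (c (c (l 5940661477730462154407493887) (l 5901975851502787698623201535)) (c (l 5911647258059698409827811583) (l 5930990071173526085710774527))))) (a (l 3) (c (a (c (c (l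 7304329802255790183039697151) (l 7304329802255783929566413055)) (c (l 7304329802255777676093128959) (l 7314001208812688387297951999))) (c (c (l 6617659936714676826077233407) (l 6627331343271587812159996159)) (c (l 6617659936714664731447509247) (b (l 5921318664616632279501750527) (l 6927144946536003477979676927))))) (a (c (c (l 7314001208812682133824667903) (l 7314001208812675811631890687)) (c (l 7323672615369586454117236991) (l 7314001208812663098526859519))) (c (c (b (l 5950332884287377194940891391) (l 6927144946535997361945297151)) (b (l 5979347103958122110380032255) (l 6927144946535991245910966527))) (c (b (l 5998689917071949992421490943) (l 6936816353092902163274252543)) (b (l 6018032730185777874462933247) (l 6927144946535978945122828543)))))))))) (l 3))) (l 3)), by decide +kernel⟩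

def k15_pp_012 : ∃ t, chk3 f_pp_012 t 1006 4072 1 = true :=
  ⟨(b (l 144016609978384639) (c (c (c (l 144035920158425343) (l 144029872843555071)) (c (l 144023825528684799) (l 144017778213814527))) (c (c (l 144011662180122879) (l 144005546145775871)) (c (l 143999430110740735) (l 144173427824902399))))), by decide +kernel⟩

def k16_pp_012 : ∃ t, chk3 f_pp_012 t 2012 4073 1 = true :=
  ⟨(b (a (b (c (a (c (c (l 6994844792434438448526770431) (l 7004516198991349640767979775)) (c (b (l 6462917431803989860623597823) (l 7468743713723361333979414783)) (b (l 6491931651474735050940662015) (l 7468743713723355492823007487)))) (c (c (l 6056718356413491019318427903) (l 6076061169527319244957335807)) (c (l 6105075389198064503993909503) (b (l 144181468010135807) (l 6298503520336399055912665343))))) (a (c (c (b (l 6511274464588563207860060415) (l 7478415120280266616344740095)) (b (l 6540288684259308398177108223) (l 7478415120280260706468856063))) (c (b (l 6569302903930053519774662911) (l 7478415120280254796592939263))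 (b (l 6598317123600798641372283135) (l 7478415120280248886717055231)))) (c (b (l 144172603196211455) (c (l 6317846333450227281551573247) (l 6346860553120972471868653823))) (b (l 144160714724835583) (c (l 6375874772791717662185701631) (l 6395217585905545819105116415)))))) (a (l 3) (c (c (c (l 7372029648154207149082394879) (l 7381701054711118410043097343)) (c (l 7381701054711112637606199551) (l 7381701054711106865169285375))) (c (c (l 7401043867824935159527637247) (l 7391372461268012284973596927)) (c (l 7391372461268006443817173247) (l 7391372461268000602660782335)))))) (c (c (b (l 144204901354569983) (a (c (b (l 6027704136742744935647936767) (l 7023859012105199032008720639)) (b (l 6047046949856573230006337791) (l 7023859012105193328291299583))) (c (l 5785918972819824735704236287) (l 5805261785933653030062588159)))) (b (l 144193150322196735) (a (c (b (l 6076061169527318557762404607) (l 7033530418662104657971495167)) (b (l 6095403982641146783401296127) (a (l 7468743713723364014039187711)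 (l 6782073848182257322865819903)))) (c (l 5834276005604398357818654975) (l 5853618818718226652177039615))))) (c (b (l 144181330570346751) (a (c (b (l 6114746795754975077759647999) (a (l 7468743713723358241602257151) (l 6782073848182251550428922111))) (b (l 6143761015425720336796221695) (a (l 7478415120280269502563008767) (l 6782073848182245709272514815)))) (c (l 5882633038388971979933106431) (l 5901975851502800205571997951)))) (b (l 144169442099003647) (a (c (b (l 6172775235096465527113285887) (a (l 7507429339951014761599533311) (l 6791745254739156970233233663))) (b (l 6192118048210293752752161023) (a (l 7478415120280257820250210559) (l 6782073848182234095679209727)))) (c (l 5921318664616628431210938623) (l 5950332884287373690247528703))))))) (b (a (l 3) (a (l 3) (c (c (c (b (l 6588645717043937751795237119) (l 7575129185849475089636262143)) (b (a (l 7159258703902035644149563647) (l 6288832113779505387140301055)) (l 7575129185849469523357827327))) (c (b (a (l 7149587297345112907034509567)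 (l 6317846333450250783615860991)) (l 7575129185849463819640389887)) (b (a (l 7168930110458941270112321791) (l 6337189146564079146693722367)) (l 7584800592406375218040078591)))) (c (c (b (a (l 7159258703902018532997267711) (l 6366203366234824543169233151)) (l 7584800592406369514322641151)) (b (a (l 7168930110458929793958002943) (l 6395217585905569870925316351)) (l 7613814812077114910798201087))) (c (b (a (l 7168930110458924021521072383) (l 6414560399019398165283700991)) (l 7594471998963275140285448447)) (b (a (l 7168930110458918249084190975) (l 6433903212133226459642069247)) (l 7594471998963269367848567039))))))) (l 3))), by decide +kernel⟩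

def k17_pp_012 : ∃ t, chk3 f_pp_012 t 2013 4073 1 = true :=
  ⟨(b (c (l 144036195039265023) (l 144192806717833471)) (b (a (a (b (c (c (l 144211704584110335) (l 144200297149169919)) (c (l 144188820994769151) (l 144177276120858879))) (c (c (c (l 6385546179348685273125339391) (a (l 6849773694080695866825015551) (l 6008361323628916710008750335))) (a (c (l 6849773694080690163107627263) (l 6849773694080684528109682943)) (c (l 6027704136742745141806104831) (l 6056718356413490607001108735)))) (c (a (c (c (l 6849773694080680267501453567) (l 6859445100637594483400114431)) (c (l 6859445100637591597181665535) (l 6849773694080671746285060351))) (c (l 6076061169527318970079002879) (l 6105075389198064366554562815))) (a (c (c (l 6859445100637585893464244479) (l 6859445100637583007245795583)) (l 6859445100637578746637648127)) (c (l 6124418202311892729632424191) (l 6153432421982638057388474623)))))) (c (c (l 144217339581563135) (l 144206000866148607)) (c (l 144194524711764223) (l 144182979837886719))))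 (c (l 144220638115922175) (l 144197685807235327))) (a (a (a (l 3) (b (c (c (c (l 7226958549800468278232875263) (l 7246301362914296778749673727)) (c (l 7226958549800457145675956479) (l 7236629956357368544075661567))) (c (c (l 7236629956357362909077733631) (l 7246301362914274307477438719)) (c (l 7255972769471185637157650687) (l 7246301362914262900042629375)))) (l 3))) (c (c (c (b (l 6192118048210349896572649727) (l 7120573077674384827869348095)) (b (l 6221132267881095430487146751) (a (l 7739543097317068162089779455) (l 6936816353092956932705648895)))) (c (b (a (l 6424231805576346053730779391) (l 144209505560396031)) (a (l 7613814812077141161641935103) (l 6927144946536034333029597439))) (b (c (l 6259817894108753737191080191) (l 6269489300665667953089773823)) (c (l 7130244484231286605540851967) (l 7130244484231283856761372927))))) (c (c (b (c (l 6288832113779499202386116863) (l 6298503520336413418284794111)) (a (l 7633157625190964027160838399) (c (l 6927144946536024574862409983) (l 6927144946536021826082930943))))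 (b (c (l 6317846333450244667581153535) (l 6317846333450241781362688255)) (a (l 7652500438304792458958209279) (c (l 6936816353092936041981608191) (l 6927144946536016191085019391))))) (c (b (c (l 6337189146564073030659031295) (l 6337189146564070213160042751)) (c (l 7130244484231269769266577663) (l 7139915890788183985165238527))) (b (c (l 6366203366234818427134574847) (l 6375874772791732643033268479)) (c (l 7149587297345098201063899391) (l 7159258703902012416962642175))))))) (c (a (c (c (l 5911647258059761563038269695) (l 5940661477730507096952815871)) (c (l 5960004290844335528750203135) (b (l 144208337328603391) (l 6066389762970417054968135935)))) (l 144222493542482175)) (c (c (c (l 5960004290844328656801235199) (l 5969675697401242872699945215)) (c (l 5979347103958157088598622463) (l 5989018510515071304497299711))) (c (c (l 6008361323628902553793691903) (l 5940661477730480433790943487)) (c (l 5940661477730477616291873023) (l 5950332884287391763471073535)))))))), by decide +kernel⟩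

def k18_pp_012 : ∃ t, chk3 f_pp_012 t 1007 2036 1 = true :=
  ⟨(c (l 144073028668866815) (l 144048701970874623)), by decide +kernel⟩

def k19_pp_012 : ∃ t, chk3 f_pp_012 t 1006 8148 1 = true :=
  ⟨(a (l 3) (a (l 3) (b (b (c (a (c (a (c (l 7314001208812729344113443071) (l 7314001208812723846554484991)) (c (l 6617659936714705619542442239) (l 6617659936714700121983484159))) (a (c (l 7304329802255801315597926655) (l 7314001208812712782717124863)) (c (c (l 6607988530157778965416640767) (l 6598317123600859183239528703)) (c (l 6607988530157773399138205951) (l 6617659936714687683756359935))))) (c (c (l 144229846528196863) (l 144224348969206015)) (c (l 144218851410231551) (l 144213285131763967)))) (a (c (a (c (l 7323672615369624318555816191) (l 7323672615369618683557904639)) (c (c (l 6617659936714684934976880895) (l 6617659936714682117477908735)) (c (l 6617659936714679368698462463) (l 6617659936714676551199490303)))) (a (c (l 7333344021926530150677102847) (l 7343015428483441549076873471)) (c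 (c (l 6627331343271590767098200319) (l 6627331343271588018318704895)) (c (l 6637002749828502234217365759) (l 6617659936714665349923176703))))) (c (c (l 144207718853296383) (l 144202152574828799)) (c (l 144196586296361215) (l 144190951298416895))))) (a (l 3) (c (c (a (c (l 7004516198991389429349957887) (l 7004516198991384000510492927)) (c (l 6192118048210361372726591743) (l 6221132267881107044080124159))) (a (c (c (l 6994844792434462843943649535) (l 7004516198991377128561803519)) (c (l 6994844792434457346384707839) (l 7004516198991371631002861823))) (c (l 6240475080994935613316448511) (l 6269489300665681215950471423)))) (b (c (a (c (l 6695031189170022439108821247) (l 6733716815397685006420984063)) (l 144206138305200383)) (a (c (l 6743388221954596473540198655) (l 6772402441625342007454761215)) (l 144195005748478207))) (c (a (c (l 7497757933394136211113853183) (l 7507429339951047746952560895)) (c (l 6482260244917850384420405503) (l 6511274464588595987054412031))) (a (c (l 7517100746507959282791252223)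 (l 7555786372735621850103464191)) (c (l 6530617277702424487571292415) (l 6501603058031667821099958527)))))))) (a (l 3) (a (l 3) (c (c (c (l 7526772153064911912883093759) (l 7488086526837238350453080319)) (c (l 7488086526837232990333108479) (l 7497757933394144594891292927))) (c (c (l 7497757933394139097332383999) (l 7497757933394133668492951807)) (c (l 7526772153064879271126958335) (l 7546114966178707840363315455))))))))), by decide +kernel⟩

def k20_pp_012 : ∃ t, chk3 f_pp_012 t 1007 8148 1 = true :=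
  ⟨(c (a (b (c (l 144061552529932543) (l 144230671159214335)) (a (b (a (c (a (c (l 6695031189170049583305916671) (l 6695031189170044154466500863)) (c (l 5921318664616689728992690431) (l 5930990071173601333550858495))) (a (c (c (l 6675688376056206033221501183) (l 6675688376056203284442022143)) (c (l 6685359782613117637779652863) (l 6695031189170031922397823231))) (c (l 5960004290844347004904374527) (l 5979347103958175642860208383)))) (c (l 144237817988071679) (l 144226960309125375))) (a (a (l 3) (c (c (l 7081887451446733393113432319) (l 7072216044889810999595860223)) (c (l 7091558858003639706271154431) (c (l 7072216044889801585026154751) (l 7081887451446715938363801855))))) (c (c (l 6163103828539619412225032447) (l 6182446641653448118900375807)) (a (c (l 6356531959677947916829032703) (c (l 6385546179348694962572247295) (l 6385546179348692213792768255))) (l 144227922382160127))))) (l 144060865332461823))) (l 144079144716337407)) (a (a (c (b (l 144213628728426751) (b (a (a (c (c (l 6695031189170029173618360575)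 (l 6695031189170026493558358271)) (c (l 6704702595726940778176545023) (l 6724045408840772096192381183))) (c (l 5998689917072004280816075007) (l 5998689917071998783257149695))) (l 144215965191209215)) (a (c (c (l 7246301362914301520393732351) (l 7246301362914298840333746431)) (c (l 7265644176028130158349598975) (l 7275315582585044442967769343))) (c (c (l 6240475080994935475877150975) (l 6230803674438015762419532031)) (c (l 6240475080994930047037702399) (l 6230803674438010264860623103)))))) (b (l 144202427452063999) (b (a (a (c (c (l 6695031189170018247219986687) (l 6704702595726932531838140671)) (c (l 6714374002283846747736834303) (l 6704702595726926965559771391))) (c (l 5998689917071993285698224383) (l 6008361323628904752817455359))) (l 144204970073293055)) (a (c (c (l 7284986989141958796305449215) (l 7294658395698873080923603199)) (c (l 7304329802255787365541773567) (l 7323672615369618683557626111))) (c (c (l 6240475080994924618198270207) (l 6250146487551838902816440575)) (c (l 6240475080994919120639361279)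 (l 6240475080994916371859915007))))))) (c (l 144225036162400511) (l 144213903605563647))) (l 144056948322320639))), by decide +kernel⟩

def k21_pp_012 : ∃ t, chk3 f_pp_012 t 1006 8149 1 = true :=
  ⟨(l 3), by decide +kernel⟩

def k22_pp_012 : ∃ t, chk3 f_pp_012 t 1007 16298 1 = true :=
  ⟨(a (a (b (a (l 3) (c (c (a (c (l 7468743713723417340359901439) (l 7459072307166494946842345727)) (c (l 6762731035068476513671807231) (l 6772402441625388186949468415))) (a (c (l 7468743713723406688839483647) (l 7478415120280318362117177599)) (c (c (l 6753059628511550134423961855) (l 6762731035068464487761625343)) (c (l 6772402441625378841099272447) (l 6772402441625376161039270143))))) (c (a (c (l 7488086526837230035394904319) (l 7517100746507975706748420351)) (c (c (l 6791745254739207547774599423) (l 6801416661296121901112279295)) (c (l 6772402441625368120859361535) (l 6772402441625365372079898879)))) (a (c (l 7526772153064887311306588415) (l 7565457779292550016057786623)) (c (c (l 6772402441625362692019929343)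 (l 6782073848182276976638116095)) (c (l 6791745254739191329975763199) (l 6772402441625354514401067263))))))) (l 3)) (c (b (c (c (l 5911647258059784790223978751) (l 5930990071173613565618782463)) (c (l 5950332884287442272294174975) (l 5950332884287436912174268671))) (a (c (a (c (l 7149587297345160323479290111) (l 7159258703902072134195953919)) (c (l 6414560399019468465317675263) (l 6462917431804048409624903935))) (a (c (l 7159258703902066842795491583) (l 7168930110458978516073185535)) (c (l 6462917431804043118224457983) (c (l 6453246025247122099096568063) (l 6462917431804036452434231551))))) (c (l 144247851032953087) (l 144237268231979263)))) (a (b (c (c (l 6018032730185847830900211967) (l 6018032730185842402060779775)) (c (l 6008361323628919939823763711) (l 6027704136742748577779581183))) (b (c (a (c (l 6994844792434466554795507967) (l 7004516198991378228073169151)) (c (l 144224898724724991) (l 144219538604753151))) (a (c (l 7033530418662123899426685183) (l 7072216044889786672897376511))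 (c (l 144214178484764927) (l 144208749645316351)))) (a (l 3) (c (c (l 6782073848182294500107092223) (l 6811088067853040240180101375)) (c (l 6820759474409951913457762559) (l 6859445100637614686928470271)))))) (c (c (l 144229434210320639) (l 144224074090348799)) (c (l 144218645250900223) (l 144213216411451647)))))) (c (l 144077495449764095) (l 144055917531070719))), by decide +kernel⟩

def k23_pp_012 : ∃ t, chk3 f_pp_012 t 1007 16299 1 = true :=
  ⟨(a (a (l 3) (c (a (c (c (l 7681514657975598603459428607) (l 7700857471089427516293267711)) (c (l 7604143405520251890916278527) (l 7604143405520246668235309311))) (c (c (b (a (l 6840102287523820408715804927) (l 6124418202311962754788393215)) (l 7333344021926590417666294015)) (b (a (l 6849773694080732219432435967) (l 6143761015425791598902690047)) (l 7352686835040419330500067583))) (c (b (a (l 6859445100637644030149116159) (l 6153432421982703340899909887)) (l 7362358241597331141216764159)) (b (a (c (l 6878787913751474179933667583) (l 6849773694080720399680749823))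 (l 6153432421982698118218957055)) (l 7381701054711159985331077375))))) (a (c (c (l 7633157625190992477027827967) (l 7662171844861738285820330239)) (c (l 7691186064532484094612816127) (l 7710528877646312801288159487))) (c (c (b (a (c (l 6849773694080717788340257023) (l 6927144946536051375461515519)) (l 6153432421982692826818494719)) (l 7410715274381905862843072767)) (b (a (c (l 6849773694080712496939811071) (l 6859445100637626850277474559)) (l 6153432421982687466698572031)) (l 7439729494052651671635575039))) (c (b (a (c (l 6849773694080707136819888383) (l 6859445100637621490157551871)) (l 6134089608868848108502876415)) (l 7468743713723397480428077311)) (b (a (c (l 6869116507194535843495215359) (l 6849773694080699096640012543)) (l 6153432421982676815178203391)) (l 7497757933394143289220579583))))))) (a (b (c (c (l 144075983622242559) (l 144245583289303295)) (c (l 144235000488378623) (l 144224280248484095))) (c (a (c (a (c (l 6530617277702480562671747327) (l 6540288684259392442107871487))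 (l 144254035786612991)) (a (c (l 6540288684259387219426918655) (l 6540288684259381996745982207)) (c (l 144246270484693247) (l 144240979084214527)))) (c (l 144078320084828415) (l 144248057190875391))) (a (c (c (c (l 6337189146564121821493690623) (l 6337189146564119141433721087)) (c (l 6337189146564116530093261055) (l 6337189146564113918752768255))) (a (c (l 6540288684259366191264137471) (l 6549960090816277933261340927)) (c (l 144225173602287871) (l 144219882201809151)))) (c (l 144237543109443839) (l 144226960308519167))))) (c (l 144079831912759551) (l 144061071492694271)))), by decide +kernel⟩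

def k24_pp_012 : ∃ t, chk3 f_pp_012 t 503 4075 1 = true :=
  ⟨(a (l 3) (a (l 3) (b (b (a (a (b (c (c (c (l 7120573077674420836879253759) (l 7130244484231332716315394303)) (a (c (l 7739543097317099360735723775) (l 7768557316987845306967195903)) (c (l 6965830572763739231544525055) (l 6994844792434485177776013567)))) (c (a (c (l 7787900130101674151081541887) (l 7807242943215502995195871487)) (c (l 7014187605548314021890359551) (l 7043201825219059899402354943))) (a (c (l 7836257162886248872707834111) (l 7855599976000077648102736127)) (c (l 7072216044889805776914350335) (l 7101230264560551585706868991))))) (l 3)) (c (c (c (b (l 6124418202311791712011714815) (l 6907802133422071073624211711)) (b (l 6114746795755049707120607487) (a (l 7343015428483511299354870015) (l 6607988530157819372473745663)))) (c (b (l 6114746795755044553159164159) (a (l 7362358241597340280908169471) (l 6617659936714731320629395711))) (b (l 6114746795755039330478227711) (a (l 7391372461268086227139657983) (l 6607988530157809133270319359)))))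 (c (c (b (l 6105075389198117074399641855) (a (l 7420386680938832173371113727) (l 6617659936714721012706476287))) (b (l 6124418202311945918513955071) (a (l 7449400900609578050883125503) (l 6617659936714715858745016575)))) (c (b (l 6114746795755023662435401983) (a (l 7478415120280323997114614015) (l 6607988530157793602666463487))) (b (l 6095403982641184304239722751) (a (l 7497757933394152841228959999) (l 6617659936714705413383143679))))))) (c (c (c (l 144074196917321983) (l 144079488316309759)) (c (l 144078594962391295) (l 144073441000915199))) (c (c (l 5911647258059784996380999935) (l 144243109386846463)) (c (l 144237886706548991) (l 144232664025596159))))) (a (l 3) (c (a (c (c (b (l 6695031189169896682473783551) (l 7478415120280267097392955647)) (b (l 6724045408840647576507629823) (l 7507429339951017304232018175))) (c (b (a (l 7072216044889834432939950335) (l 6298503520336474509907214591)) (l 7526772153064936445738795263)) (b (a (l 7110901671117497481288614143) (l 6298503520336469424665247999))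 (l 7565457779292599562806935807)))) (c (c (l 6250146487551885082313097471) (b (l 144256922005766399) (l 6453246025246968373631205631))) (b (l 144078182645711103) (c (l 6453246025246970847531696383) (l 6443574618690048797611589887))))) (a (c (c (b (a (l 7139915890788243496239579391) (l 6298503520336464270703804671)) (l 7584800592406428544360251647)) (b (a (l 7159258703902072409073402111) (l 6308174926893376218859454719)) (l 7613814812077174559311233279))) (c (b (a (l 7178601517015901321907241215) (l 6288832113779536998102761727)) (l 7642829031747920505542738175)) (b (a (l 7217287143243564301536395519) (l 6308174926893365842217091327)) (l 7710528877646334585364840703)))) (c (b (l 144248125910253823) (c (l 6443574618690223826118164735) (l 6462917431804052807671464191))) (b (l 144237749267824895) (c (l 6443574618690213655634247935) (l 6453246025247125535070437631)))))))) (b (a (l 3) (c (c (c (l 7449400900609591451185873151) (l 7507429339951095919313371391)) (c (l 7526772153064930879461032191)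 (l 7536443559621842896336126207))) (c (c (l 7546114966178754913211269375) (l 7555786372735666930086314239)) (c (l 7565457779292578878241964287) (l 7565457779292573792999964927))))) (l 3))))), by decide +kernel⟩

def k25_pp_012 : ∃ t, chk3 f_pp_012 t 251 1019 1 = true :=
  ⟨(l 3), by decide +kernel⟩

def k26_pp_012 : ∃ t, chk3 f_pp_012 t 125 255 1 = true :=
  ⟨(l 3), by decide +kernel⟩

def k27_pp_012 : ∃ t, chk3 f_pp_012 t 63 62 1 = true :=
  ⟨(a (b (l 16691688) (a (l 16721376) (l 16725088))) (a (b (l 16698200) (l 16729480)) (b (l 16703488) (a (l 16733296) (l 16714920))))), by decide +kernel⟩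

def k28_pp_012 : ∃ t, chk3 f_pp_012 t 126 126 1 = true :=
  ⟨(b (l 143154180489134207) (a (l 16740112) (l 16743976))), by decide +kernel⟩

def k29_pp_012 : ∃ t, chk3 f_pp_012 t 252 508 1 = true :=
  ⟨(l 143710052352016511), by decide +kernel⟩

def k30_pp_012 : ∃ t, chk3 f_pp_012 t 252 1018 1 = true :=
  ⟨(a (b (l 143995306952671359) (a (b (l 144042860822397055) (b (c (c (l 144033033946300543) (l 144043685463883903)) (c (l 144054474420420863) (l 144065332096434431))) (a (b (a (c (c (b (c (l 6076061169527366798845067519) (l 6066389762970274736939532543)) (a (c (l 7081887451446743632319971583) (l 7101230264560582784355860735)) (l 5989018510515112811071537407))) (a (c (b (l 6211460861324039927349739775) (l 7130244484231248878555463935)) (b (l 6221132267880962114707456255) (l 7159258703902004514233204991))) (c (l 5930990071173617688790630655) (l 5930990071173442729002221823)))) (a (c (c (b (l 6221132267880957304343429375) (l 7188272923572750666623172863)) (b (l 6211460861324215368171847935)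 (l 7207615736686669808129982719))) (c (b (l 6221132267881127316327547135) (l 7246301362914332925198156031)) (b (l 6230803674438039264483229951) (l 7275315582585078940149170431)))) (c (c (l 5930990071173447882962338047) (l 5930990071173446920889024767)) (c (l 5911647258059787951319843071) (l 5930990071173616932873175295))))) (c (l 144050763576656127) (l 144071585575469311))) (a (a (l 3) (c (c (c (l 7120573077674404344207687935) (l 7149587297345160460921798911)) (c (l 7178601517015826555121402111) (b (l 6956159166206649574823510271) (l 7787900130101604950572499199)))) (c (b (c (l 6985173385877405760257097983) (l 7004516198991237284431085823)) (l 7816914349772360861127885055)) (c (l 7294658395698833567230738687) (l 7333344021926586775532929279))))) (c (c (c (l 6163103828539605118579114239) (l 6259817894108780469076082943)) (c (l 6279160707222619552392495359) (l 6298503520336278590679843071))) (c (c (l 6317846333450117742715764991) (l 6317846333450122827956306175)) (c (l 6327517740007045015314055423)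 (l 6327517740007043434765418751)))))) (c (l 144024993773781119) (l 144045747053281535))))) (l 144069180374220927))) (l 16771520)), by decide +kernel⟩

def k31_pp_012 : ∃ t, chk3 f_pp_012 t 252 1019 1 = true :=
  ⟨(a (b (a (b (b (a (a (l 3) (a (c (c (l 7662171844861744126982799615) (l 7613814812077168786878415103)) (c (l 7633157625191011374887518463) (l 7671843251418683081889546495))) (b (c (c (c (l 6695031189170039618988278015) (l 6704702595726961600187629823)) (c (l 6714374002283883581386981631) (l 6714374002283888529188700415))) (c (c (l 6724045408840810579107512575) (l 6704702595726891437599457535)) (c (l 6724045408840730520915902719) (l 6704702595726900439849697535)))) (l 3)))) (a (c (c (b (l 6056718356413504763223490815) (a (l 7217287143243532415706579199) (l 6520945871145520098568749311))) (b (l 6076061169527348725622112511) (c (l 6878787913751416661737242879) (l 6898130726865255676334244095)))) (c (b (l 6085732576084095609594020095) (c (l 6917473539979094622211768575) (l 6936816353092933636808687871)))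 (b (l 6105075389197939846870630655) (a (l 7323672615369626723743940863) (l 6559631497373127621577031935))))) (c (c (l 144195830394896511) (l 144205657278873727)) (c (l 144215690321297663) (l 144225723363705087))))) (a (l 3) (a (c (c (l 7749214503873974818856648959) (l 7797571536658569469131473151)) (c (l 7836257162886244405949038847) (l 7884614195670842079880823039))) (c (c (b (a (l 6927144946536006089334734975) (l 6201789454767242534565003391)) (l 7439729494052614288249208959)) (b (a (l 6965830572763706314919788799) (l 6211460861324169119968755839)) (l 7488086526837208801085128831))) (c (b (a (l 6936816353092964835452223743) (l 6230803674438012807489470719)) (l 7526772153064886417962270975)) (b (a (l 7043201825218971869756866815) (l 6240475080994939667771130111)) (l 7565457779292561354779885823))))))) (l 3)) (b (a (c (a (b (l 144182842413596799) (b (l 144096255873761407) (c (l 6385546179348632840174796927) (l 6404888992462453712829366399)))) (l 144080038077350015)) (b (l 144015029449375871)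 (a (c (l 6269489300665623766475653247) (l 6279160707222505478061064447)) (l 144192119542366335)))) (l 144070005022605439)) (a (b (a (c (c (l 7555786372735604876407128191) (l 7555786372735613947376975999)) (c (l 7565457779292540189183328383) (l 7565457779292549466311590143))) (c (c (l 6588645717043889167136768127) (l 6617659936714649200860659839)) (c (l 6637002749828492338625839231) (l 6666016969499252578508062847)))) (l 3)) (c (b (l 144137075243319423) (c (l 7120573077674305456885432447) (l 7081887451446645638350422143))) (b (l 5921318664616585962588717183) (c (l 7052873231775902921932701823) (l 7023859012105160342953918591))))))) (a (l 3) (b (b (a (l 3) (a (l 3) (c (l 7845928569443089627498725503) (l 7797571536658521021902913663)))) (l 3)) (l 3)))) (b (a (a (c (l 144085535627231359) (l 144058253993246847)) (l 16782560)) (l 16775320)) (a (b (a (c (c (l 6927144946535945341322395775) (l 6830430880966782360329126015)) (b (l 6491931651474693819271544959) (l 7691186064532411458139357311)))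 (c (c (l 6327517740007064050620891263) (l 6404888992462407395907502207)) (l 6511274464588501360349692031))) (a (l 3) (b (c (a (l 7768557316987727384358699135) (l 6907802133422099111180271743)) (l 7430058087495630596964548735)) (l 3)))) (l 6)))), by decide +kernel⟩

def k32_pp_012 : ∃ t, chk3 f_pp_012 t 252 255 1 = true :=
  ⟨(a (l 3) (a (l 3) (l 6))), by decide +kernel⟩

def k33_pp_012 : ∃ t, chk3 f_pp_012 t 253 127 1 = true :=
  ⟨(b (b (l 16757096) (l 6)) (l 6)), by decide +kernel⟩

def k34_pp_012 : ∃ t, chk3 f_pp_012 t 127 63 1 = true :=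
  ⟨(b (a (b (l 16753192) (l 6)) (l 6)) (l 6)), by decide +kernel⟩

theorem s35_pp_012 : ∃ t, chk3 f_pp_012 t 252 509 1 = true := ex3_b k30_pp_012 k31_pp_012

theorem s36_pp_012 : ∃ t, chk3 f_pp_012 t 252 254 1 = true := ex3_b k29_pp_012 s35_pp_012

theorem s37_pp_012 : ∃ t, chk3 f_pp_012 t 252 127 1 = true := ex3_b s36_pp_012 k32_pp_012

theorem s38_pp_012 : ∃ t, chk3 f_pp_012 t 126 127 1 = true := ex3_a s37_pp_012 k33_pp_012

theorem s39_pp_012 : ∃ t, chk3 f_pp_012 t 126 63 1 = true := ex3_b k28_pp_012 s38_pp_012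

theorem s40_pp_012 : ∃ t, chk3 f_pp_012 t 63 63 1 = true := ex3_a s39_pp_012 k34_pp_012

theorem s41_pp_012 : ∃ t, chk3 f_pp_012 t 63 31 1 = true := ex3_b k27_pp_012 s40_pp_012

theorem s42_pp_012 : ∃ t, chk3 f_pp_012 t 1007 8149 1 = true := ex3_b k22_pp_012 k23_pp_012

theorem s43_pp_012 : ∃ t, chk3 f_pp_012 t 503 8149 1 = true := ex3_a k21_pp_012 s42_pp_012

theorem s44_pp_012 : ∃ t, chk3 f_pp_012 t 503 8148 1 = true := ex3_a k19_pp_012 k20_pp_012

theorem s45_pp_012 : ∃ t, chk3 f_pp_012 t 503 4074 1 = true := ex3_b s44_pp_012 s43_pp_012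

theorem s46_pp_012 : ∃ t, chk3 f_pp_012 t 503 2037 1 = true := ex3_b s45_pp_012 k24_pp_012

theorem s47_pp_012 : ∃ t, chk3 f_pp_012 t 1006 4073 1 = true := ex3_a k16_pp_012 k17_pp_012

theorem s48_pp_012 : ∃ t, chk3 f_pp_012 t 1006 2036 1 = true := ex3_b k15_pp_012 s47_pp_012

theorem s49_pp_012 : ∃ t, chk3 f_pp_012 t 503 2036 1 = true := ex3_a s48_pp_012 k18_pp_012

theorem s50_pp_012 : ∃ t, chk3 f_pp_012 t 503 1018 1 = true := ex3_b s49_pp_012 s46_pp_012

theorem s51_pp_012 : ∃ t, chk3 f_pp_012 t 251 1018 1 = true := ex3_a k14_pp_012 s50_pp_012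

theorem s52_pp_012 : ∃ t, chk3 f_pp_012 t 251 509 1 = true := ex3_b s51_pp_012 k25_pp_012

theorem s53_pp_012 : ∃ t, chk3 f_pp_012 t 125 509 1 = true := ex3_a k13_pp_012 s52_pp_012

theorem s54_pp_012 : ∃ t, chk3 f_pp_012 t 125 508 1 = true := ex3_a k11_pp_012 k12_pp_012

theorem s55_pp_012 : ∃ t, chk3 f_pp_012 t 125 254 1 = true := ex3_b s54_pp_012 s53_pp_012

theorem s56_pp_012 : ∃ t, chk3 f_pp_012 t 125 127 1 = true := ex3_b s55_pp_012 k26_pp_012

theorem s57_pp_012 : ∃ t, chk3 f_pp_012 t 125 63 1 = true := ex3_b k10_pp_012 s56_pp_012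

theorem s58_pp_012 : ∃ t, chk3 f_pp_012 t 62 63 1 = true := ex3_a k9_pp_012 s57_pp_012

theorem s59_pp_012 : ∃ t, chk3 f_pp_012 t 62 31 1 = true := ex3_b k8_pp_012 s58_pp_012

theorem s60_pp_012 : ∃ t, chk3 f_pp_012 t 31 31 1 = true := ex3_a s59_pp_012 s41_pp_012

theorem s61_pp_012 : ∃ t, chk3 f_pp_012 t 31 15 1 = true := ex3_b k7_pp_012 s60_pp_012

theorem s62_pp_012 : ∃ t, chk3 f_pp_012 t 15 15 1 = true := ex3_a k6_pp_012 s61_pp_012

theorem s63_pp_012 : ∃ t, chk3 f_pp_012 t 15 7 1 = true := ex3_b k5_pp_012 s62_pp_012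

theorem s64_pp_012 : ∃ t, chk3 f_pp_012 t 7 7 1 = true := ex3_a k4_pp_012 s63_pp_012

theorem s65_pp_012 : ∃ t, chk3 f_pp_012 t 7 3 1 = true := ex3_b k3_pp_012 s64_pp_012

theorem s66_pp_012 : ∃ t, chk3 f_pp_012 t 7 1 1 = true := ex3_b k2_pp_012 s65_pp_012

theorem s67_pp_012 : ∃ t, chk3 f_pp_012 t 3 1 1 = true := ex3_a k1_pp_012 s66_pp_012

theorem s68_pp_012 : ∃ t, chk3 f_pp_012 t 1 1 1 = true := ex3_a k0_pp_012 s67_pp_012

theorem c_pp_012 : CertB 0 536870912 0 536870912 1040187392 5207648 3 eng mog cd2q0 cd0q2 pd1 false true true .pnp 0 1 2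
    ndB2q0 ndB0q2 pcB1 cut_pp_012 xt_pp_012 :=
  certB2 (fam := false) (s1 := true) (s2 := true) (a := 0) (b := 1) (c := 2) (cn := .pnp) (n1 := ndB2q0) (n2 := ndB0q2) (pc := pcB1) (cut := cut_pp_012) (xt := xt_pp_012) (P1 := 0) (W1 := 536870912) (P2 := 0) (W2 := 536870912) (P3 := 1040187392) (W3 := 5207648) (N0 := 3) (En := eng) (mo := mog) (C1 := cd2q0) (C2 := cd0q2) (C3 := pd1)
    rfl (fun _ => rfl) s68_pp_012

noncomputable def cut_pp_022 : Cut := Cut.of [[⟨0, 0, 0, 13421772⟩, ⟨1, 1, 0, 13421772⟩, ⟨2, 1, 0, 13421772⟩]]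

noncomputable def f_pp_022 : ℕ → ℕ → ℕ → ℕ → Bool := onCell 0 536870912 0 536870912 1040187392 5207648
    (rowB 3 eng mog cd2q0 cd0q2 pd2 0 false true true .pp 0 2 2 (qsf 0 536870912 0 536870912 2) ndB2q0 ndB0q2 pcB2 cut_pp_022 Ext.none)

def k0_pp_022 : ∃ t, chk3 f_pp_022 t 2 2 1 = true :=
  ⟨(a (a (b (a (a (b (l 15613824) (l 15812736)) (b (l 15642464) (l 15826448))) (b (l 15679120) (l 15839120))) (a (b (a (l 16035888) (l 16035320)) (a (b (l 16207520) (l 16321640)) (l 16251728))) (b (l 16024656) (b (l 16168144) (l 16263400))))) (b (a (b (l 15750728) (l 15876408)) (b (l 15846800) (l 15935568))) (b (a (l 16028488) (l 16051616)) (a (b (l 16146840) (l 16183280)) (b (l 16142928) (a (l 16207216) (l 16200056))))))) (a (a (b (b (l 15965640) (l 16015048)) (b (l 16092664) (b (l 16155184) (l 663067814151)))) (b (l 1691175215031) (l 1))) (l 1))), by decide +kernel⟩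

def k1_pp_022 : ∃ t, chk3 f_pp_022 t 4 6 1 = true :=
  ⟨(a (a (b (a (b (l 16431760) (l 16514248)) (b (l 16406360) (l 16502552))) (a (b (l 16495992) (a (l 16517480) (l 16544520))) (b (l 16589000) (l 16573224)))) (b (b (l 16291480) (a (l 16458712) (l 16418760))) (a (b (l 16494976) (b (l 16565864) (l 16573480))) (b (b (l 16471816) (l 16503560)) (b (a (l 16545200) (l 16518448)) (a (l 16570480) (b (l 16536056) (l 16546472)))))))) (b (a (b (a (l 16311408) (l 16287632)) (a (l 16319552) (b (l 16334672) (l 16363352)))) (a (b (l 16267504) (b (l 16307592) (l 107943620183))) (b (l 16229944) (l 1)))) (a (b (a (b (l 16428864) (a (l 16467672) (l 16444760))) (b (a (l 16398816) (l 16379800)) (a (l 16422632) (l 373158019543)))) (a (b (a (l 16492464) (b (l 16461920) (l 16472184))) (a (b (l 16508360) (l 16496656)) (b (a (l 16488072) (l 331282282279)) (a (l 172905399415) (l 1))))) (b (a (b (l 16438048) (l 377453088407)) (l 1)) (l 1)))) (a (b (b (l 418791915943) (l 1)) (l 1)) (l 1))))), by decide +kernel⟩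

def k2_pp_022 : ∃ t, chk3 f_pp_022 t 8 14 1 = true :=
  ⟨(a (b (a (a (l 16513072) (l 16544496)) (a (l 16574352) (b (l 16642856) (l 16653048)))) (a (b (a (l 16525968) (l 16560424)) (a (l 16536784) (l 16531192))) (a (b (l 16614248) (l 16586872)) (b (b (l 16643976) (l 16652560)) (b (l 16660496) (l 16668608)))))) (b (a (b (b (l 16591968) (l 16602840)) (a (l 16655344) (b (l 16637264) (l 16623992)))) (b (a (b (l 16586456) (l 16595648)) (b (l 16555736) (a (l 16571680) (l 16555928)))) (a (b (l 16582584) (a (l 16618768) (l 16601512))) (a (b (l 16578728) (b (l 16562144) (l 238403815047))) (b (b (l 16539920) (l 233571931863)) (l 326450607591)))))) (a (b (a (b (l 16666968) (l 16674456)) (b (l 16630296) (a (l 16667008) (l 16648272)))) (a (b (l 16661912) (l 16670440)) (b (a (l 16674584) (l 183106246663)) (a (l 259878841863) (l 1))))) (b (a (b (a (l 16624208) (b (l 16584264) (l 249141277783))) (a (b (l 16607224) (l 268468678183)) (a (l 338798777239) (l 1)))) (b (a (b (l 329671915415) (l 1)) (l 1))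 (l 1))) (a (b (a (l 366716105159) (l 1)) (l 1)) (l 1)))))), by decide +kernel⟩

def k3_pp_022 : ∃ t, chk3 f_pp_022 t 16 30 1 = true :=
  ⟨(a (b (a (b (l 16546120) (l 16554920)) (b (l 16583816) (l 16593472))) (a (b (a (l 16560928) (l 16578032)) (a (b (a (b (l 16569096) (a (b (l 16571096) (l 16568832)) (l 16577192))) (l 16581072)) (a (b (a (b (a (b (a (b (c (l 16575008) (a (c (l 16573576) (l 16572816)) (l 16573768))) (a (a (b (a (c (l 16575184) (a (l 16573656) (b (a (l 16573520) (b (l 16573472) (l 16573632))) (l 16573872)))) (b (c (l 16575136) (b (l 16573560) (l 16573680))) (l 16574688))) (l 16575144)) (b (b (c (l 16575344) (l 16573824)) (c (l 16575576) (a (l 16574008) (l 16574112)))) (l 16575312))) (b (l 16575120) (a (a (l 16575424) (b (l 16575360) (l 16575680))) (b (l 16575560) (l 16575808)))))) (l 16575808)) (b (a (l 16573776) (a (a (l 16576792) (l 16568784)) (a (l 16568024) (l 16577448)))) (l 16578064))) (b (l 16577536) (a (b (l 16578152) (l 16571232)) (l 16579720)))) (a (l 16576184)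 (a (l 16582408) (l 16572528)))) (b (l 16581784) (a (b (l 16572688) (l 16585352)) (l 16565336)))) (a (a (l 16579120) (l 16590904)) (l 16571824))) (b (l 16590240) (a (b (l 16588080) (l 16598232)) (l 16599592))))) (b (l 16593928) (a (l 16602608) (l 16610488))))) (a (b (l 16593904) (l 16616320)) (l 16611088)))) (b (b (a (l 16640808) (l 16677792)) (a (l 16651296) (l 16668136))) (a (b (l 16667560) (l 16669968)) (b (l 16685176) (l 180958931703))))), by decide +kernel⟩

def k4_pp_022 : ∃ t, chk3 f_pp_022 t 16 31 1 = true :=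
  ⟨(a (b (a (b (a (b (a (a (b (l 16601344) (l 16612608)) (l 16609552)) (l 16613480)) (a (b (l 16625320) (l 16639496)) (l 16636264))) (b (a (b (a (l 16611904) (l 16615456)) (l 16624304)) (b (l 16621032) (a (l 16627656) (l 16630728)))) (a (l 16641424) (l 16645896)))) (b (a (a (b (a (l 16647280) (l 16649832)) (a (l 16659064) (l 16661600))) (b (l 16653696) (l 16665448))) (a (l 16664672) (l 16669096))) (b (a (a (a (l 16673512) (l 16673416)) (l 16677240)) (l 16684480)) (l 6)))) (b (a (b (a (l 16632600) (l 16641584)) (a (b (l 16644832) (l 16656032)) (b (l 16653320) (l 16662256)))) (b (l 16665072) (a (l 16672984) (l 16688504)))) (a (b (a (l 16673432) (l 16679544)) (a (l 16696784) (l 16702832))) (b (b (a (l 16686192) (l 16701272)) (l 16683296)) (l 278132519767))))) (a (l 6) (a (l 6) (l 1)))) (b (a (b (b (l 16691280) (l 16686008)) (l 1)) (l 1)) (l 1))), by decide +kernel⟩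

def k5_pp_022 : ∃ t, chk3 f_pp_022 t 17 15 1 = true :=
  ⟨(b (a (b (a (b (a (l 16709560) (l 273837542375)) (l 311418514183)) (l 1)) (l 1)) (l 1)) (l 1)), by decide +kernel⟩

def k6_pp_022 : ∃ t, chk3 f_pp_022 t 9 7 1 = true :=
  ⟨(b (a (b (a (b (a (b (a (l 16533168) (l 204043943127)) (a (b (l 16538656) (l 231424403015)) (l 360273431831))) (b (a (l 381748225847) (l 1)) (l 1))) (a (a (b (l 341482992503) (l 1)) (l 1)) (l 1))) (l 1)) (l 1)) (l 1)) (l 1)), by decide +kernel⟩

def k7_pp_022 : ∃ t, chk3 f_pp_022 t 5 3 1 = true :=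
  ⟨(b (l 1) (l 1)), by decide +kernel⟩

def k8_pp_022 : ∃ t, chk3 f_pp_022 t 3 1 1 = true :=
  ⟨(l 1), by decide +kernel⟩

theorem s9_pp_022 : ∃ t, chk3 f_pp_022 t 16 15 1 = true := ex3_b k3_pp_022 k4_pp_022

theorem s10_pp_022 : ∃ t, chk3 f_pp_022 t 8 15 1 = true := ex3_a s9_pp_022 k5_pp_022

theorem s11_pp_022 : ∃ t, chk3 f_pp_022 t 8 7 1 = true := ex3_b k2_pp_022 s10_pp_022

theorem s12_pp_022 : ∃ t, chk3 f_pp_022 t 4 7 1 = true := ex3_a s11_pp_022 k6_pp_022

theorem s13_pp_022 : ∃ t, chk3 f_pp_022 t 4 3 1 = true := ex3_b k1_pp_022 s12_pp_022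

theorem s14_pp_022 : ∃ t, chk3 f_pp_022 t 2 3 1 = true := ex3_a s13_pp_022 k7_pp_022

theorem s15_pp_022 : ∃ t, chk3 f_pp_022 t 2 1 1 = true := ex3_b k0_pp_022 s14_pp_022

theorem s16_pp_022 : ∃ t, chk3 f_pp_022 t 1 1 1 = true := ex3_a s15_pp_022 k8_pp_022

theorem c_pp_022 : CertB 0 536870912 0 536870912 1040187392 5207648 3 eng mog cd2q0 cd0q2 pd2 false true true .pp 0 2 2
    ndB2q0 ndB0q2 pcB2 cut_pp_022 Ext.none :=
  certB0 (fam := false) (s1 := true) (s2 := true) (a := 0) (b := 2) (c := 2) (cn := .pp) (n1 := ndB2q0) (n2 := ndB0q2) (pc := pcB2) (cut := cut_pp_022) (xt := Ext.none) (P1 := 0) (W1 := 536870912) (P2 := 0) (W2 := 536870912) (P3 := 1040187392) (W3 := 5207648) (N0 := 3) (En := eng) (mo := mog) (C1 := cd2q0) (C2 := cd0q2) (C3 := pd2)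
    rfl s16_pp_022

noncomputable def f_pp_101 : ℕ → ℕ → ℕ → ℕ → Bool := onCell 536870912 536870912 536870912 536870912 1040187392 5207648
    (rowB 3 eng mog cd2q1 cd0q1 pd0 0 false true true .npn 1 0 1 (qsf 536870912 536870912 536870912 536870912 0) ndB2q1 ndB0q1 pcB0 Cut.none Ext.none)

def k0_pp_101 : ∃ t, chk3 f_pp_101 t 1 1 1 = true :=
  ⟨(l 3), by decide +kernel⟩

theorem c_pp_101 : CertB 536870912 536870912 536870912 536870912 1040187392 5207648 3 eng mog cd2q1 cd0q1 pd0 false true true .npn 1 0 1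
    ndB2q1 ndB0q1 pcB0 Cut.none Ext.none :=
  certB0 (fam := false) (s1 := true) (s2 := true) (a := 1) (b := 0) (c := 1) (cn := .npn) (n1 := ndB2q1) (n2 := ndB0q1) (pc := pcB0) (cut := Cut.none) (xt := Ext.none) (P1 := 536870912) (W1 := 536870912) (P2 := 536870912) (W2 := 536870912) (P3 := 1040187392) (W3 := 5207648) (N0 := 3) (En := eng) (mo := mog) (C1 := cd2q1) (C2 := cd0q1) (C3 := pd0)
    rfl k0_pp_101

noncomputable def f_pp_102 : ℕ → ℕ → ℕ → ℕ → Bool := onCell 0 536870912 0 536870912 1040187392 5207648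
    (rowB 3 eng mog cd2q1 cd0q2 pd0 2 false true true .npp 1 0 2 (qsf 536870912 536870912 0 536870912 0) ndB2q1 ndB0q2 pcB0 Cut.none Ext.none)

def k0_pp_102 : ∃ t, chk3 f_pp_102 t 1 1 1 = true :=
  ⟨(a (b (a (b (l 2) (b (l 2) (l 3))) (b (a (a (a (l 2) (b (b (l 16532736) (l 16449592)) (b (l 16267576) (l 16041984)))) (b (b (l 16105176) (l 16405000)) (b (l 16382280) (b (l 16317904) (l 16189184))))) (b (b (a (l 15965832) (l 15615096)) (a (l 16339224) (l 16125576))) (a (b (l 16552888) (l 16471928)) (l 16341080)))) (a (a (b (a (b (l 15873072) (b (l 15825200) (l 3))) (b (l 15975808) (l 214914196487))) (l 3)) (b (b (a (l 16080720) (l 16189328)) (a (l 15910136) (l 16058464))) (b (a (l 3) (l 16005824)) (l 3)))) (b (b (a (l 16173168) (l 16352536)) (a (l 16198056) (l 16379904))) (a (b (l 200955844999) (l 3)) (b (l 16233392) (l 16193560))))))) (l 3)) (b (b (a (b (a (b (b (l 15381776) (a (l 15727600) (l 15532120))) (l 15804288)) (b (b (l 15052640) (a (l 15352104) (l 15189664))) (l 15427144))) (a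 (a (l 16119888) (l 15977040)) (a (l 15787600) (l 15615336)))) (a (b (b (b (l 14828984) (l 14979496)) (l 15127632)) (l 15391280)) (b (b (b (l 14664288) (l 14785424)) (l 14909784)) (l 15157824)))) (a (b (a (b (a (l 16457416) (l 16248048)) (a (l 16547800) (l 16393528))) (b (l 15968376) (a (l 16218016) (l 16057048)))) (a (a (a (l 16223336) (l 16313872)) (l 16315616)) (a (l 16411544) (l 16244224)))) (b (a (a (l 15717312) (l 15670864)) (l 15486664)) (a (a (l 16090904) (l 15940112)) (b (l 15567480) (l 15822136)))))) (b (b (a (a (a (l 3) (l 186460925559)) (a (l 146732563927) (l 132773904551))) (a (a (b (l 16259600) (l 16315176)) (l 173575420087)) (a (l 16027600) (l 15904872)))) (a (l 3) (a (l 3) (b (a (l 16133112) (l 170354114183)) (l 3))))) (l 3)))), by decide +kernel⟩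

theorem c_pp_102 : CertB 536870912 536870912 0 536870912 1040187392 5207648 3 eng mog cd2q1 cd0q2 pd0 false true true .npp 1 0 2
    ndB2q1 ndB0q2 pcB0 Cut.none Ext.none :=
  certB2 (fam := false) (s1 := true) (s2 := true) (a := 1) (b := 0) (c := 2) (cn := .npp) (n1 := ndB2q1) (n2 := ndB0q2) (pc := pcB0) (cut := Cut.none) (xt := Ext.none) (P1 := 536870912) (W1 := 536870912) (P2 := 0) (W2 := 536870912) (P3 := 1040187392) (W3 := 5207648) (N0 := 3) (En := eng) (mo := mog) (C1 := cd2q1) (C2 := cd0q2) (C3 := pd0)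
    rfl (fun _ => rfl) k0_pp_102

noncomputable def f_pp_112 : ℕ → ℕ → ℕ → ℕ → Bool := onCell 536870912 536870912 0 536870912 1040187392 5207648
    (rowB 3 eng mog cd2q1 cd0q2 pd1 2 false true true .dn 1 1 2 (qsf 536870912 536870912 0 536870912 1) ndB2q1 ndB0q2 pcB1 Cut.none Ext.none)

def k0_pp_112 : ∃ t, chk3 f_pp_112 t 1 1 1 = true :=
  ⟨(a (b (a (b (a (b (b (l 14859176) (l 15120568)) (l 15510440)) (b (l 14974848) (l 15404176))) (b (a (l 15943768) (l 15830888)) (a (b (a (l 16375240) (l 16340136)) (l 16379784)) (b (l 16148216) (l 16185896))))) (a (b (l 15149344) (b (l 15642032) (b (l 15890792) (l 423623202327)))) (l 1))) (b (a (b (a (b (l 16262976) (l 16097824)) (l 15860456)) (a (b (a (l 130625584967) (l 15954168)) (a (l 135457600391) (b (l 167669513287) (l 3)))) (a (b (l 15916256) (b (l 15813944) (l 153710721943))) (l 903048096983)))) (l 1)) (a (a (l 3) (a (l 3) (l 1))) (l 1)))) (l 1)), by decide +kernel⟩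

theorem c_pp_112 : CertB 536870912 536870912 0 536870912 1040187392 5207648 3 eng mog cd2q1 cd0q2 pd1 false true true .dn 1 1 2
    ndB2q1 ndB0q2 pcB1 Cut.none Ext.none :=
  certB2 (fam := false) (s1 := true) (s2 := true) (a := 1) (b := 1) (c := 2) (cn := .dn) (n1 := ndB2q1) (n2 := ndB0q2) (pc := pcB1) (cut := Cut.none) (xt := Ext.none) (P1 := 536870912) (W1 := 536870912) (P2 := 0) (W2 := 536870912) (P3 := 1040187392) (W3 := 5207648) (N0 := 3) (En := eng) (mo := mog) (C1 := cd2q1) (C2 := cd0q2) (C3 := pd1)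
    rfl (fun _ => rfl) k0_pp_112

noncomputable def f_pp_202_a : ℕ → ℕ → ℕ → ℕ → Bool := onCell 0 536870912 0 536870912 1040187392 5207648
    (rowB 3 eng mog cd2q2a cd0q2 pd0 0 false true true .pp 2 0 2 (qsf 0 536870912 0 536870912 0) ndB2q2a ndB0q2 pcB0 Cut.none Ext.none)

def k0_pp_202_a : ∃ t, chk3 f_pp_202_a t 1 1 1 = true :=
  ⟨(l 3), by decide +kernel⟩

theorem c_pp_202_a : CertB 0 536870912 0 536870912 1040187392 5207648 3 eng mog cd2q2a cd0q2 pd0 false true true .pp 2 0 2
    ndB2q2a ndB0q2 pcB0 Cut.none Ext.none :=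
  certB0 (fam := false) (s1 := true) (s2 := true) (a := 2) (b := 0) (c := 2) (cn := .pp) (n1 := ndB2q2a) (n2 := ndB0q2) (pc := pcB0) (cut := Cut.none) (xt := Ext.none) (P1 := 0) (W1 := 536870912) (P2 := 0) (W2 := 536870912) (P3 := 1040187392) (W3 := 5207648) (N0 := 3) (En := eng) (mo := mog) (C1 := cd2q2a) (C2 := cd0q2) (C3 := pd0)
    rfl k0_pp_202_a

noncomputable def f_pp_202_b : ℕ → ℕ → ℕ → ℕ → Bool := onCell 1239849684 370763052 0 536870912 1040187392 5207648
    (rowB 3 eng mog cd2q2b cd0q2 pd0 0 false true true .pp 2 0 2 (qsf 1239849684 370763052 0 536870912 0) ndB2q2b ndB0q2 pcB0 Cut.none Ext.none)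

def k0_pp_202_b : ∃ t, chk3 f_pp_202_b t 1 1 1 = true :=
  ⟨(l 3), by decide +kernel⟩

theorem c_pp_202_b : CertB 1239849684 370763052 0 536870912 1040187392 5207648 3 eng mog cd2q2b cd0q2 pd0 false true true .pp 2 0 2
    ndB2q2b ndB0q2 pcB0 Cut.none Ext.none :=
  certB0 (fam := false) (s1 := true) (s2 := true) (a := 2) (b := 0) (c := 2) (cn := .pp) (n1 := ndB2q2b) (n2 := ndB0q2) (pc := pcB0) (cut := Cut.none) (xt := Ext.none) (P1 := 1239849684) (W1 := 370763052) (P2 := 0) (W2 := 536870912) (P3 := 1040187392) (W3 := 5207648) (N0 := 3) (En := eng) (mo := mog) (C1 := cd2q2b) (C2 := cd0q2) (C3 := pd0)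
    rfl k0_pp_202_b

noncomputable def f_pm_001 : ℕ → ℕ → ℕ → ℕ → Bool := onCell 0 536870912 0 536870912 1040187392 5207648
    (rowB 3 eng mog cd2q0 cd0q1 pd0 1 false true false .up 0 0 1 (qsf 0 536870912 536870912 536870912 0) ndB2q0 ndB0q1 pcB0 Cut.none Ext.none)

def k0_pm_001 : ∃ t, chk3 f_pm_001 t 1 1 1 = true :=
  ⟨(a (l 4) (b (l 4) (l 4))), by decide +kernel⟩

theorem c_pm_001 : CertB 0 536870912 536870912 536870912 1040187392 5207648 3 eng mog cd2q0 cd0q1 pd0 false true false .up 0 0 1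
    ndB2q0 ndB0q1 pcB0 Cut.none Ext.none :=
  certB1 (fam := false) (s1 := true) (s2 := false) (a := 0) (b := 0) (c := 1) (cn := .up) (n1 := ndB2q0) (n2 := ndB0q1) (pc := pcB0) (cut := Cut.none) (xt := Ext.none) (P1 := 0) (W1 := 536870912) (P2 := 536870912) (W2 := 536870912) (P3 := 1040187392) (W3 := 5207648) (N0 := 3) (En := eng) (mo := mog) (C1 := cd2q0) (C2 := cd0q1) (C3 := pd0)
    rfl (fun _ => rfl) k0_pm_001

noncomputable def cut_pm_011 : Cut := Cut.of [[⟨0, 0, 0, 26843545⟩, ⟨1, 1, 0, 26843545⟩, ⟨2, 1, 0, 26843545⟩]]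

noncomputable def f_pm_011 : ℕ → ℕ → ℕ → ℕ → Bool := onCell 0 536870912 536870912 536870912 1040187392 5207648
    (rowB 3 eng mog cd2q0 cd0q1 pd1 0 false true false .pnn 0 1 1 (qsf 0 536870912 536870912 536870912 1) ndB2q0 ndB0q1 pcB1 cut_pm_011 Ext.none)

def k0_pm_011 : ∃ t, chk3 f_pm_011 t 1 1 1 = true :=
  ⟨(b (l 4) (a (b (l 4) (a (b (l 4) (a (b (l 4) (a (b (l 4) (a (b (l 4) (l 6)) (l 4))) (l 4))) (l 4))) (l 4))) (l 4))), by decide +kernel⟩

theorem c_pm_011 : CertB 0 536870912 536870912 536870912 1040187392 5207648 3 eng mog cd2q0 cd0q1 pd1 false true false .pnn 0 1 1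
    ndB2q0 ndB0q1 pcB1 cut_pm_011 Ext.none :=
  certB0 (fam := false) (s1 := true) (s2 := false) (a := 0) (b := 1) (c := 1) (cn := .pnn) (n1 := ndB2q0) (n2 := ndB0q1) (pc := pcB1) (cut := cut_pm_011) (xt := Ext.none) (P1 := 0) (W1 := 536870912) (P2 := 536870912) (W2 := 536870912) (P3 := 1040187392) (W3 := 5207648) (N0 := 3) (En := eng) (mo := mog) (C1 := cd2q0) (C2 := cd0q1) (C3 := pd1)
    rfl k0_pm_011

noncomputable def cut_pm_012 : Cut := Cut.of [[⟨0, 0, 0, 26843545⟩, ⟨1, 1, 0, 26843545⟩, ⟨2, 1, 0, 26843545⟩]]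

noncomputable def xt_pm_012 : Ext := extD3 3 ⟨4, 1, 1, 5, 33, 5, 163, 200, 81, 200, 1, 64⟩ eng cd2q0 cd0q2 pd1 false true false .pnp 0 1 2 rfl ndB2q0 ndB0q2 pcB1

noncomputable def f_pm_012 : ℕ → ℕ → ℕ → ℕ → Bool := onCell 536870912 536870912 0 536870912 1040187392 5207648
    (rowB 3 eng mog cd2q0 cd0q2 pd1 2 false true false .pnp 0 1 2 (qsf 0 536870912 0 536870912 1) ndB2q0 ndB0q2 pcB1 cut_pm_012 xt_pm_012)

def k0_pm_012 : ∃ t, chk3 f_pm_012 t 1 2 1 = true :=
  ⟨(a (a (b (l 2) (b (l 2) (a (l 2) (b (l 2) (l 14322448))))) (b (a (b (l 14598712) (l 14460432)) (b (l 14793032) (l 14632936))) (a (b (l 14354072) (b (l 14287496) (l 14289336))) (l 14462416)))) (a (b (a (b (l 15077768) (l 14902888)) (b (l 15445920) (l 15265248))) (a (l 14710416) (b (l 15107072) (l 14994664)))) (a (b (b (a (l 15773632) (l 16011800)) (l 15711560)) (a (l 15367456) (l 15603416))) (b (a (b (l 16243776) (l 16093632)) (b (l 16489496) (l 16367592))) (a (l 15858176) (l 15920232)))))), by decide +kernel⟩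

def k1_pm_012 : ∃ t, chk3 f_pm_012 t 2 3 1 = true :=
  ⟨(b (a (a (l 2) (b (l 14544712) (b (l 14779392) (l 14924272)))) (b (a (l 14479296) (b (l 14376512) (l 14557072))) (a (b (l 14762960) (l 14949056)) (a (b (l 14771624) (l 14991960)) (l 14903136))))) (b (a (a (b (l 14879648) (l 14785664)) (b (l 14903136) (l 14829688))) (a (b (l 14983056) (a (l 14900248) (l 14967496))) (b (l 15113008) (a (l 15048872) (l 15144064))))) (a (b (b (a (l 14743848) (l 14823808)) (l 4)) (l 4)) (l 4)))), by decide +kernel⟩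

def k2_pm_012 : ∃ t, chk3 f_pm_012 t 6 3 1 = true :=
  ⟨(b (b (a (b (l 14605800) (a (l 14590688) (l 14687016))) (l 14937008)) (a (b (l 14817112) (l 15073160)) (a (b (l 14901048) (l 15133080)) (b (a (l 14994448) (l 15085456)) (l 15182448))))) (b (a (b (b (l 15252688) (l 15302688)) (a (l 15252528) (l 15373176))) (b (a (b (l 15347872) (l 15460744)) (a (l 15221984) (l 15464296))) (a (b (l 15494848) (l 15514832)) (b (l 15636488) (l 15677136))))) (a (l 4) (b (a (l 4) (b (l 15742848) (l 4))) (l 4))))), by decide +kernel⟩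

def k3_pm_012 : ∃ t, chk3 f_pm_012 t 7 3 1 = true :=
  ⟨(b (a (b (l 15367904) (a (b (l 15252336) (a (l 15260936) (b (l 15329848) (l 15362888)))) (l 15511624))) (b (a (l 15745352) (l 16022032)) (a (l 15777056) (a (l 15988616) (l 16136200))))) (b (a (a (b (a (l 15509360) (l 15532192)) (a (l 15767656) (l 15758968))) (b (a (b (l 15522312) (l 15633920)) (b (l 15632960) (a (l 15665888) (l 15711888)))) (b (a (l 15797016) (l 15818400)) (a (l 15939496) (l 15982256))))) (a (b (l 15859368) (a (b (a (l 15848080) (b (l 15875200) (l 15908952))) (a (l 15995792) (l 16004600))) (b (l 15996312) (a (b (l 16003072) (l 16055368)) (b (l 16068936) (l 138331927366172735)))))) (b (a (l 16077944) (l 16230400)) (a (l 16171144) (b (l 16301888) (l 16353280)))))) (b (a (a (a (l 206391171159) (l 15907168)) (b (a (l 16047664) (l 16102472)) (l 16127168))) (a (a (b (a (l 16140712) (l 16161616)) (l 16277824)) (b (a (b (l 16132856) (l 16215200)) (l 138721773068255295)) (a (l 16313480) (l 139515964364357695)))) (a (b (a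 (l 138823821606879295) (l 16287072)) (a (l 139216210027790399) (l 140021877264121983))) (b (a (l 16366632) (l 16447472)) (a (b (l 16416152) (l 140735323060322431)) (l 16476696)))))) (a (l 4) (a (a (l 4) (b (l 16403432) (l 4))) (a (b (a (l 140252156330573887) (l 140837302745071743)) (l 4)) (b (a (b (l 141286453365948543) (a (l 142145653114339455) (l 142098236703146111))) (a (l 141922246038651007) (l 6))) (a (a (b (l 16663304) (l 4)) (l 6)) (l 6))))))))), by decide +kernel⟩

theorem s4_pm_012 : ∃ t, chk3 f_pm_012 t 3 3 1 = true := ex3_a k2_pm_012 k3_pm_012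

theorem s5_pm_012 : ∃ t, chk3 f_pm_012 t 1 3 1 = true := ex3_a k1_pm_012 s4_pm_012

theorem s6_pm_012 : ∃ t, chk3 f_pm_012 t 1 1 1 = true := ex3_b k0_pm_012 s5_pm_012

theorem c_pm_012 : CertB 0 536870912 0 536870912 1040187392 5207648 3 eng mog cd2q0 cd0q2 pd1 false true false .pnp 0 1 2
    ndB2q0 ndB0q2 pcB1 cut_pm_012 xt_pm_012 :=
  certB2 (fam := false) (s1 := true) (s2 := false) (a := 0) (b := 1) (c := 2) (cn := .pnp) (n1 := ndB2q0) (n2 := ndB0q2) (pc := pcB1) (cut := cut_pm_012) (xt := xt_pm_012) (P1 := 0) (W1 := 536870912) (P2 := 0) (W2 := 536870912) (P3 := 1040187392) (W3 := 5207648) (N0 := 3) (En := eng) (mo := mog) (C1 := cd2q0) (C2 := cd0q2) (C3 := pd1)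
    rfl (fun _ => rfl) s6_pm_012

noncomputable def cut_pm_022 : Cut := Cut.of [[⟨0, 0, 0, 26843545⟩, ⟨1, 1, 0, 26843545⟩, ⟨2, 1, 0, 26843545⟩]]

noncomputable def f_pm_022 : ℕ → ℕ → ℕ → ℕ → Bool := onCell 0 536870912 0 536870912 1040187392 5207648
    (rowB 3 eng mog cd2q0 cd0q2 pd2 0 false true false .pp 0 2 2 (qsf 0 536870912 0 536870912 2) ndB2q0 ndB0q2 pcB2 cut_pm_022 Ext.none)

def k0_pm_022 : ∃ t, chk3 f_pm_022 t 2 2 1 = true :=
  ⟨(a (a (b (a (a (b (l 15455640) (l 15355552)) (b (l 15500376) (l 15418136))) (b (l 15562448) (a (l 15479128) (l 15546984)))) (b (a (a (b (b (l 15334032) (l 15388584)) (l 15495312)) (b (l 15463520) (l 15635960))) (a (l 15440760) (l 15711128))) (a (a (b (a (l 15708216) (l 15761608)) (a (l 15904248) (l 15947968))) (b (l 15811536) (l 15981856))) (b (l 15883600) (l 16017240))))) (b (a (b (l 15670264) (l 15536656)) (b (l 15805088) (b (l 15814072) (l 15846816)))) (b (a (l 15617296) (l 15903496)) (a (b (l 15935248) (l 16010936)) (l 15917880))))) (a (b (b (l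 15844528) (a (b (l 16001592) (l 16009280)) (l 1))) (a (b (l 15979912) (l 15920432)) (l 1))) (l 1))), by decide +kernel⟩

def k1_pm_022 : ∃ t, chk3 f_pm_022 t 4 6 1 = true :=
  ⟨(a (a (b (b (a (a (l 16093512) (l 16127256)) (l 16142264)) (a (a (l 16272712) (l 16293536)) (l 16288240))) (a (b (a (l 16372096) (l 16420272)) (a (b (l 16540008) (l 16600864)) (b (l 16534040) (l 16586480)))) (b (l 16390352) (b (l 16485352) (l 16503920))))) (b (b (l 16136312) (a (l 16258280) (l 16208992))) (b (a (l 16348160) (l 16269032)) (a (l 16410944) (l 16301576))))) (b (a (b (l 16070784) (l 16111096)) (b (l 15967576) (l 15951392))) (a (b (l 16127416) (l 16012728)) (b (l 15912264) (l 1))))), by decide +kernel⟩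

def k2_pm_022 : ∃ t, chk3 f_pm_022 t 4 14 1 = true :=
  ⟨(a (a (b (a (a (b (l 16616824) (a (l 16602128) (l 16608952))) (b (l 16630424) (l 16606728))) (a (l 16597080) (l 16516832))) (a (b (a (b (l 16583144) (a (l 16602624) (l 16614400))) (a (l 16622656) (l 16646768))) (a (a (b (b (l 16608704) (l 16614336)) (a (b (l 16617320) (b (l 16622912) (l 16626928))) (l 16628816))) (b (l 16625096) (l 16640256))) (b (l 16611264) (l 16628704)))) (b (a (l 16625416) (l 16554512)) (a (l 16626016) (l 16548064))))) (b (a (b (l 16437040) (l 16444056)) (l 16303312)) (a (b (l 16442360) (l 16404192)) (b (l 16282896) (l 16251448))))) (b (a (a (l 16155144) (l 1)) (l 1)) (l 1))), by decide +kernel⟩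

def k3_pm_022 : ∃ t, chk3 f_pm_022 t 4 15 1 = true :=
  ⟨(a (b (a (a (b (a (a (b (a (a (b (b (l 16629104) (b (l 16632376) (l 16629368))) (b (a (a (b (l 16635296) (l 16637600)) (l 16637512)) (l 16639128)) (a (b (b (l 16639896) (l 16641080)) (b (l 16642280) (l 16641184))) (l 16643872)))) (b (l 16635448) (l 16644752))) (b (l 16641760) (l 16651328))) (a (a (b (b (a (b (c (l 16642792) (l 16643880)) (c (l 16645248) (l 16646344))) (l 16648760)) (a (b (b (l 16647008) (l 16648256)) (b (l 16652144) (l 16653392))) (l 16653792))) (a (b (b (l 16650000) (l 16657664)) (a (l 16657992) (l 16661800))) (l 16661208))) (b (l 16654704) (l 16664744))) (b (l 16661552) (l 16671856)))) (b (l 16659024) (l 16659344))) (b (l 16628536) (a (l 16677368) (l 16670664)))) (b (a (a (a (b (a (a (b (l 16665768) (l 16670160)) (l 16670424)) (l 16674088)) (a (b (l 16670424) (l 16679824)) (l 16682824))) (l 16665072)) (l 16679712)) (a (l 16704400) (l 16665568))) (l 6))) (a (b (l 16549040) (b (l 16599776) (l 6))) (b (l 16526752)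 (l 16483416)))) (a (b (a (l 16438352) (l 1)) (l 1)) (l 1))) (a (a (l 6) (a (l 6) (l 1))) (l 1))) (l 1)), by decide +kernel⟩

def k4_pm_022 : ∃ t, chk3 f_pm_022 t 5 3 1 = true :=
  ⟨(b (l 1) (l 1)), by decide +kernel⟩

def k5_pm_022 : ∃ t, chk3 f_pm_022 t 3 1 1 = true :=
  ⟨(l 1), by decide +kernel⟩

theorem s6_pm_022 : ∃ t, chk3 f_pm_022 t 4 7 1 = true := ex3_b k2_pm_022 k3_pm_022

theorem s7_pm_022 : ∃ t, chk3 f_pm_022 t 4 3 1 = true := ex3_b k1_pm_022 s6_pm_022

theorem s8_pm_022 : ∃ t, chk3 f_pm_022 t 2 3 1 = true := ex3_a s7_pm_022 k4_pm_022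

theorem s9_pm_022 : ∃ t, chk3 f_pm_022 t 2 1 1 = true := ex3_b k0_pm_022 s8_pm_022

theorem s10_pm_022 : ∃ t, chk3 f_pm_022 t 1 1 1 = true := ex3_a s9_pm_022 k5_pm_022

theorem c_pm_022 : CertB 0 536870912 0 536870912 1040187392 5207648 3 eng mog cd2q0 cd0q2 pd2 false true false .pp 0 2 2
    ndB2q0 ndB0q2 pcB2 cut_pm_022 Ext.none :=
  certB0 (fam := false) (s1 := true) (s2 := false) (a := 0) (b := 2) (c := 2) (cn := .pp) (n1 := ndB2q0) (n2 := ndB0q2) (pc := pcB2) (cut := cut_pm_022) (xt := Ext.none) (P1 := 0) (W1 := 536870912) (P2 := 0) (W2 := 536870912) (P3 := 1040187392) (W3 := 5207648) (N0 := 3) (En := eng) (mo := mog) (C1 := cd2q0) (C2 := cd0q2) (C3 := pd2)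
    rfl s10_pm_022

noncomputable def f_pm_101 : ℕ → ℕ → ℕ → ℕ → Bool := onCell 0 536870912 536870912 536870912 1040187392 5207648
    (rowB 3 eng mog cd2q1 cd0q1 pd0 2 false true false .npn 1 0 1 (qsf 536870912 536870912 536870912 536870912 0) ndB2q1 ndB0q1 pcB0 Cut.none Ext.none)

def k0_pm_101 : ∃ t, chk3 f_pm_101 t 1 1 1 = true :=
  ⟨(b (l 4) (b (l 4) (b (l 4) (a (a (b (a (b (l 4) (a (l 14997536) (l 15001976))) (l 4)) (a (a (b (l 15032648) (l 15051816)) (l 14995224)) (a (l 14990160) (l 14983040)))) (b (l 4) (a (a (l 14979200) (l 14977400)) (l 14997656)))) (l 4))))), by decide +kernel⟩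

theorem c_pm_101 : CertB 536870912 536870912 536870912 536870912 1040187392 5207648 3 eng mog cd2q1 cd0q1 pd0 false true false .npn 1 0 1
    ndB2q1 ndB0q1 pcB0 Cut.none Ext.none :=
  certB2 (fam := false) (s1 := true) (s2 := false) (a := 1) (b := 0) (c := 1) (cn := .npn) (n1 := ndB2q1) (n2 := ndB0q1) (pc := pcB0) (cut := Cut.none) (xt := Ext.none) (P1 := 536870912) (W1 := 536870912) (P2 := 536870912) (W2 := 536870912) (P3 := 1040187392) (W3 := 5207648) (N0 := 3) (En := eng) (mo := mog) (C1 := cd2q1) (C2 := cd0q1) (C3 := pd0)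
    rfl (fun _ => rfl) k0_pm_101

noncomputable def f_pm_102 : ℕ → ℕ → ℕ → ℕ → Bool := onCell 0 536870912 0 536870912 1040187392 5207648
    (rowB 3 eng mog cd2q1 cd0q2 pd0 2 false true false .npp 1 0 2 (qsf 536870912 536870912 0 536870912 0) ndB2q1 ndB0q2 pcB0 Cut.none Ext.none)

def k0_pm_102 : ∃ t, chk3 f_pm_102 t 2 1 1 = true :=
  ⟨(b (a (b (l 2) (a (l 2) (a (l 2) (b (l 2) (l 15983448))))) (a (b (a (b (b (l 15987688) (a (l 2) (b (l 15855440) (l 15756480)))) (l 15835752)) (b (b (l 15879896) (b (l 15585136) (a (l 15513256) (l 15291232)))) (a (l 15483144) (l 15245464)))) (a (l 15622952) (l 15391520))) (b (b (a (a (l 15300320) (l 15300592)) (b (l 15338584) (l 14856432))) (a (a (l 15024832) (b (l 14767368) (l 14799312))) (b (b (l 14492848) (l 14315008)) (l 14453480)))) (a (b (l 14999800) (l 15113520)) (b (l 14614968) (l 14831816)))))) (a (a (b (l 2) (a (b (l 2) (b (l 344768650679) (l 15173904))) (b (b (a (l 2) (l 15599456)) (l 15461432)) (b (l 15317984) (l 15137184))))) (b (b (a (l 2)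 (l 15810168)) (a (l 15668088) (l 15627176))) (b (b (a (l 15543256) (l 15475848)) (l 15372568)) (b (l 15249120) (l 15093088))))) (b (a (b (a (l 15606568) (l 15411968)) (a (l 15516928) (l 15420232))) (a (b (l 15226552) (l 15339208)) (b (l 15050336) (l 15271464)))) (b (a (b (l 15391680) (l 15280088)) (l 15092280)) (b (a (l 15178504) (l 15125840)) (a (l 15050328) (l 15018752))))))), by decide +kernel⟩

def k1_pm_102 : ∃ t, chk3 f_pm_102 t 3 1 1 = true :=
  ⟨(b (a (a (b (b (a (b (l 15108048) (l 14607392)) (l 14526024)) (a (b (a (l 14177600) (l 14038864)) (l 13896736)) (b (l 13876536) (b (a (l 13630456) (l 13460352)) (l 13576272))))) (a (b (l 14230328) (l 14554928)) (b (l 13846448) (l 14282936)))) (a (b (b (l 14436296) (b (l 13693376) (b (l 13297496) (b (l 13156664) (l 13157448))))) (b (l 13463624) (l 14015720))) (b (b (l 14335184) (b (l 13547992) (a (l 13060424) (l 12987704)))) (b (b (a (l 13020264) (l 12828888)) (l 13249128)) (l 13752952))))) (a (b (b (a (l 14221360) (l 14135632)) (a (l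 13175592) (l 13104144))) (b (b (a (b (b (l 12589104) (l 12525904)) (l 12607416)) (a (a (l 12409856) (l 12387744)) (l 12349288))) (a (l 12898976) (l 12550296))) (a (l 13494152) (l 13238656)))) (b (b (a (l 14076976) (l 14044440)) (a (l 13067144) (l 13063080))) (b (b (a (l 12316504) (l 12326344)) (a (a (l 12293776) (a (l 12175568) (l 12110776))) (b (a (b (l 12008160) (l 11937152)) (l 11974984)) (l 11996600)))) (a (l 12964632) (b (l 12441152) (l 13028336))))))) (b (a (b (a (a (l 14883112) (l 14724504)) (a (l 14573912) (l 14430624))) (a (b (l 15093736) (b (l 15240536) (l 15309192))) (b (l 14968216) (b (l 15203400) (l 15292520))))) (b (a (a (l 14293712) (l 14162104)) (a (l 14034520) (l 13867576))) (a (b (l 14876528) (b (l 15202904) (l 15307008))) (b (l 14807296) (b (l 15226144) (l 15352792)))))) (a (b (a (l 15148120) (b (l 15232016) (l 15132104))) (a (b (l 15083056) (l 14995448)) (b (l 15041608) (l 14975968)))) (b (a (b (l 15225872) (l 15103984)) (b (l 15238784) (l 15075168))) (a (b (b (l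 15018656) (l 14974520)) (l 4)) (b (a (l 14962952) (l 14940376)) (l 4))))))), by decide +kernel⟩

theorem s2_pm_102 : ∃ t, chk3 f_pm_102 t 1 1 1 = true := ex3_a k0_pm_102 k1_pm_102

theorem c_pm_102 : CertB 536870912 536870912 0 536870912 1040187392 5207648 3 eng mog cd2q1 cd0q2 pd0 false true false .npp 1 0 2
    ndB2q1 ndB0q2 pcB0 Cut.none Ext.none :=
  certB2 (fam := false) (s1 := true) (s2 := false) (a := 1) (b := 0) (c := 2) (cn := .npp) (n1 := ndB2q1) (n2 := ndB0q2) (pc := pcB0) (cut := Cut.none) (xt := Ext.none) (P1 := 536870912) (W1 := 536870912) (P2 := 0) (W2 := 536870912) (P3 := 1040187392) (W3 := 5207648) (N0 := 3) (En := eng) (mo := mog) (C1 := cd2q1) (C2 := cd0q2) (C3 := pd0)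
    rfl (fun _ => rfl) s2_pm_102

noncomputable def f_pm_112 : ℕ → ℕ → ℕ → ℕ → Bool := onCell 536870912 536870912 0 536870912 1040187392 5207648
    (rowB 3 eng mog cd2q1 cd0q2 pd1 2 false true false .dn 1 1 2 (qsf 536870912 536870912 0 536870912 1) ndB2q1 ndB0q2 pcB1 Cut.none Ext.none)

def k0_pm_112 : ∃ t, chk3 f_pm_112 t 1 1 1 = true :=
  ⟨(a (a (b (b (a (l 14686232) (b (l 14720328) (l 14605528))) (b (a (l 14592800) (l 14509776)) (a (l 14646296) (l 14498984)))) (b (b (a (l 14874984) (l 14719328)) (b (l 14992480) (a (l 15147448) (l 15051496)))) (b (b (l 14937344) (a (l 14962216) (l 1))) (b (a (l 14908392) (l 1)) (l 4))))) (b (a (b (b (l 14749528) (l 14603848)) (b (l 14481824) (l 14406072))) (l 1)) (b (l 1) (l 1)))) (l 1)), by decide +kernel⟩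

theorem c_pm_112 : CertB 536870912 536870912 0 536870912 1040187392 5207648 3 eng mog cd2q1 cd0q2 pd1 false true false .dn 1 1 2
    ndB2q1 ndB0q2 pcB1 Cut.none Ext.none :=
  certB2 (fam := false) (s1 := true) (s2 := false) (a := 1) (b := 1) (c := 2) (cn := .dn) (n1 := ndB2q1) (n2 := ndB0q2) (pc := pcB1) (cut := Cut.none) (xt := Ext.none) (P1 := 536870912) (W1 := 536870912) (P2 := 0) (W2 := 536870912) (P3 := 1040187392) (W3 := 5207648) (N0 := 3) (En := eng) (mo := mog) (C1 := cd2q1) (C2 := cd0q2) (C3 := pd1)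
    rfl (fun _ => rfl) k0_pm_112

noncomputable def cut_pm_202_a : Cut := Cut.of [[⟨0, 1, 0, 26843545⟩, ⟨1, 0, 0, 26843545⟩, ⟨2, 1, 0, 26843545⟩]]

noncomputable def f_pm_202_a : ℕ → ℕ → ℕ → ℕ → Bool := onCell 0 536870912 0 536870912 1040187392 5207648
    (rowB 3 eng mog cd2q2a cd0q2 pd0 0 false true false .pp 2 0 2 (qsf 0 536870912 0 536870912 0) ndB2q2a ndB0q2 pcB0 cut_pm_202_a Ext.none)

def k0_pm_202_a : ∃ t, chk3 f_pm_202_a t 1 1 1 = true :=
  ⟨(a (l 3) (b (l 3) (a (l 3) (b (l 3) (a (l 3) (a (l 3) (b (l 3) (b (l 3) (l 6))))))))), by decide +kernel⟩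

theorem c_pm_202_a : CertB 0 536870912 0 536870912 1040187392 5207648 3 eng mog cd2q2a cd0q2 pd0 false true false .pp 2 0 2
    ndB2q2a ndB0q2 pcB0 cut_pm_202_a Ext.none :=
  certB0 (fam := false) (s1 := true) (s2 := false) (a := 2) (b := 0) (c := 2) (cn := .pp) (n1 := ndB2q2a) (n2 := ndB0q2) (pc := pcB0) (cut := cut_pm_202_a) (xt := Ext.none) (P1 := 0) (W1 := 536870912) (P2 := 0) (W2 := 536870912) (P3 := 1040187392) (W3 := 5207648) (N0 := 3) (En := eng) (mo := mog) (C1 := cd2q2a) (C2 := cd0q2) (C3 := pd0)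
    rfl k0_pm_202_a

noncomputable def cut_pm_202_b : Cut := Cut.of [[⟨0, 1, 0, 26843545⟩, ⟨1, 0, 0, 26843545⟩, ⟨2, 1, 0, 26843545⟩]]

noncomputable def f_pm_202_b : ℕ → ℕ → ℕ → ℕ → Bool := onCell 1239849684 370763052 0 536870912 1040187392 5207648
    (rowB 3 eng mog cd2q2b cd0q2 pd0 0 false true false .pp 2 0 2 (qsf 1239849684 370763052 0 536870912 0) ndB2q2b ndB0q2 pcB0 cut_pm_202_b Ext.none)

def k0_pm_202_b : ∃ t, chk3 f_pm_202_b t 1 1 1 = true :=
  ⟨(l 3), by decide +kernel⟩

theorem c_pm_202_b : CertB 1239849684 370763052 0 536870912 1040187392 5207648 3 eng mog cd2q2b cd0q2 pd0 false true false .pp 2 0 2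
    ndB2q2b ndB0q2 pcB0 cut_pm_202_b Ext.none :=
  certB0 (fam := false) (s1 := true) (s2 := false) (a := 2) (b := 0) (c := 2) (cn := .pp) (n1 := ndB2q2b) (n2 := ndB0q2) (pc := pcB0) (cut := cut_pm_202_b) (xt := Ext.none) (P1 := 1239849684) (W1 := 370763052) (P2 := 0) (W2 := 536870912) (P3 := 1040187392) (W3 := 5207648) (N0 := 3) (En := eng) (mo := mog) (C1 := cd2q2b) (C2 := cd0q2) (C3 := pd0)
    rfl k0_pm_202_b

noncomputable def f_mm_001 : ℕ → ℕ → ℕ → ℕ → Bool := onCell 0 536870912 536870912 536870912 1040187392 5207648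
    (rowB 3 eng mog cd2q0 cd0q1 pd0 0 false false false .up 0 0 1 (qsf 0 536870912 536870912 536870912 0) ndB2q0 ndB0q1 pcB0 Cut.none Ext.none)

def k0_mm_001 : ∃ t, chk3 f_mm_001 t 1 1 1 = true :=
  ⟨(l 5), by decide +kernel⟩

theorem c_mm_001 : CertB 0 536870912 536870912 536870912 1040187392 5207648 3 eng mog cd2q0 cd0q1 pd0 false false false .up 0 0 1
    ndB2q0 ndB0q1 pcB0 Cut.none Ext.none :=
  certB0 (fam := false) (s1 := false) (s2 := false) (a := 0) (b := 0) (c := 1) (cn := .up) (n1 := ndB2q0) (n2 := ndB0q1) (pc := pcB0) (cut := Cut.none) (xt := Ext.none) (P1 := 0) (W1 := 536870912) (P2 := 536870912) (W2 := 536870912) (P3 := 1040187392) (W3 := 5207648) (N0 := 3) (En := eng) (mo := mog) (C1 := cd2q0) (C2 := cd0q1) (C3 := pd0)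
    rfl k0_mm_001

noncomputable def f_mm_011 : ℕ → ℕ → ℕ → ℕ → Bool := onCell 0 536870912 536870912 536870912 1040187392 5207648
    (rowB 3 eng mog cd2q0 cd0q1 pd1 0 false false false .pnn 0 1 1 (qsf 0 536870912 536870912 536870912 1) ndB2q0 ndB0q1 pcB1 Cut.none Ext.none)

def k0_mm_011 : ∃ t, chk3 f_mm_011 t 1 1 1 = true :=
  ⟨(l 5), by decide +kernel⟩

theorem c_mm_011 : CertB 0 536870912 536870912 536870912 1040187392 5207648 3 eng mog cd2q0 cd0q1 pd1 false false false .pnn 0 1 1
    ndB2q0 ndB0q1 pcB1 Cut.none Ext.none :=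
  certB0 (fam := false) (s1 := false) (s2 := false) (a := 0) (b := 1) (c := 1) (cn := .pnn) (n1 := ndB2q0) (n2 := ndB0q1) (pc := pcB1) (cut := Cut.none) (xt := Ext.none) (P1 := 0) (W1 := 536870912) (P2 := 536870912) (W2 := 536870912) (P3 := 1040187392) (W3 := 5207648) (N0 := 3) (En := eng) (mo := mog) (C1 := cd2q0) (C2 := cd0q1) (C3 := pd1)
    rfl k0_mm_011

noncomputable def f_mm_012 : ℕ → ℕ → ℕ → ℕ → Bool := onCell 0 536870912 0 536870912 1040187392 5207648
    (rowB 3 eng mog cd2q0 cd0q2 pd1 0 false false false .pnp 0 1 2 (qsf 0 536870912 0 536870912 1) ndB2q0 ndB0q2 pcB1 Cut.none Ext.none)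

def k0_mm_012 : ∃ t, chk3 f_mm_012 t 1 1 1 = true :=
  ⟨(l 5), by decide +kernel⟩

theorem c_mm_012 : CertB 0 536870912 0 536870912 1040187392 5207648 3 eng mog cd2q0 cd0q2 pd1 false false false .pnp 0 1 2
    ndB2q0 ndB0q2 pcB1 Cut.none Ext.none :=
  certB0 (fam := false) (s1 := false) (s2 := false) (a := 0) (b := 1) (c := 2) (cn := .pnp) (n1 := ndB2q0) (n2 := ndB0q2) (pc := pcB1) (cut := Cut.none) (xt := Ext.none) (P1 := 0) (W1 := 536870912) (P2 := 0) (W2 := 536870912) (P3 := 1040187392) (W3 := 5207648) (N0 := 3) (En := eng) (mo := mog) (C1 := cd2q0) (C2 := cd0q2) (C3 := pd1)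
    rfl k0_mm_012

noncomputable def f_mm_022 : ℕ → ℕ → ℕ → ℕ → Bool := onCell 0 536870912 0 536870912 1040187392 5207648
    (rowB 3 eng mog cd2q0 cd0q2 pd2 0 false false false .pp 0 2 2 (qsf 0 536870912 0 536870912 2) ndB2q0 ndB0q2 pcB2 Cut.none Ext.none)

def k0_mm_022 : ∃ t, chk3 f_mm_022 t 1 1 1 = true :=
  ⟨(l 5), by decide +kernel⟩

theorem c_mm_022 : CertB 0 536870912 0 536870912 1040187392 5207648 3 eng mog cd2q0 cd0q2 pd2 false false false .pp 0 2 2
    ndB2q0 ndB0q2 pcB2 Cut.none Ext.none :=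
  certB0 (fam := false) (s1 := false) (s2 := false) (a := 0) (b := 2) (c := 2) (cn := .pp) (n1 := ndB2q0) (n2 := ndB0q2) (pc := pcB2) (cut := Cut.none) (xt := Ext.none) (P1 := 0) (W1 := 536870912) (P2 := 0) (W2 := 536870912) (P3 := 1040187392) (W3 := 5207648) (N0 := 3) (En := eng) (mo := mog) (C1 := cd2q0) (C2 := cd0q2) (C3 := pd2)
    rfl k0_mm_022

noncomputable def f_mm_101 : ℕ → ℕ → ℕ → ℕ → Bool := onCell 536870912 536870912 536870912 536870912 1040187392 5207648
    (rowB 3 eng mog cd2q1 cd0q1 pd0 0 false false false .npn 1 0 1 (qsf 536870912 536870912 536870912 536870912 0) ndB2q1 ndB0q1 pcB0 Cut.none Ext.none)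

def k0_mm_101 : ∃ t, chk3 f_mm_101 t 1 1 1 = true :=
  ⟨(l 3), by decide +kernel⟩

theorem c_mm_101 : CertB 536870912 536870912 536870912 536870912 1040187392 5207648 3 eng mog cd2q1 cd0q1 pd0 false false false .npn 1 0 1
    ndB2q1 ndB0q1 pcB0 Cut.none Ext.none :=
  certB0 (fam := false) (s1 := false) (s2 := false) (a := 1) (b := 0) (c := 1) (cn := .npn) (n1 := ndB2q1) (n2 := ndB0q1) (pc := pcB0) (cut := Cut.none) (xt := Ext.none) (P1 := 536870912) (W1 := 536870912) (P2 := 536870912) (W2 := 536870912) (P3 := 1040187392) (W3 := 5207648) (N0 := 3) (En := eng) (mo := mog) (C1 := cd2q1) (C2 := cd0q1) (C3 := pd0)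
    rfl k0_mm_101

noncomputable def f_mm_102 : ℕ → ℕ → ℕ → ℕ → Bool := onCell 536870912 536870912 0 536870912 1040187392 5207648
    (rowB 3 eng mog cd2q1 cd0q2 pd0 0 false false false .npp 1 0 2 (qsf 536870912 536870912 0 536870912 0) ndB2q1 ndB0q2 pcB0 Cut.none Ext.none)

def k0_mm_102 : ∃ t, chk3 f_mm_102 t 1 1 1 = true :=
  ⟨(l 5), by decide +kernel⟩

theorem c_mm_102 : CertB 536870912 536870912 0 536870912 1040187392 5207648 3 eng mog cd2q1 cd0q2 pd0 false false false .npp 1 0 2
    ndB2q1 ndB0q2 pcB0 Cut.none Ext.none :=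
  certB0 (fam := false) (s1 := false) (s2 := false) (a := 1) (b := 0) (c := 2) (cn := .npp) (n1 := ndB2q1) (n2 := ndB0q2) (pc := pcB0) (cut := Cut.none) (xt := Ext.none) (P1 := 536870912) (W1 := 536870912) (P2 := 0) (W2 := 536870912) (P3 := 1040187392) (W3 := 5207648) (N0 := 3) (En := eng) (mo := mog) (C1 := cd2q1) (C2 := cd0q2) (C3 := pd0)
    rfl k0_mm_102

noncomputable def f_mm_112 : ℕ → ℕ → ℕ → ℕ → Bool := onCell 536870912 536870912 0 536870912 1040187392 5207648
    (rowB 3 eng mog cd2q1 cd0q2 pd1 0 false false false .dn 1 1 2 (qsf 536870912 536870912 0 536870912 1) ndB2q1 ndB0q2 pcB1 Cut.none Ext.none)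

def k0_mm_112 : ∃ t, chk3 f_mm_112 t 1 1 1 = true :=
  ⟨(l 5), by decide +kernel⟩

theorem c_mm_112 : CertB 536870912 536870912 0 536870912 1040187392 5207648 3 eng mog cd2q1 cd0q2 pd1 false false false .dn 1 1 2
    ndB2q1 ndB0q2 pcB1 Cut.none Ext.none :=
  certB0 (fam := false) (s1 := false) (s2 := false) (a := 1) (b := 1) (c := 2) (cn := .dn) (n1 := ndB2q1) (n2 := ndB0q2) (pc := pcB1) (cut := Cut.none) (xt := Ext.none) (P1 := 536870912) (W1 := 536870912) (P2 := 0) (W2 := 536870912) (P3 := 1040187392) (W3 := 5207648) (N0 := 3) (En := eng) (mo := mog) (C1 := cd2q1) (C2 := cd0q2) (C3 := pd1)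
    rfl k0_mm_112

noncomputable def f_mm_202_a : ℕ → ℕ → ℕ → ℕ → Bool := onCell 0 536870912 0 536870912 1040187392 5207648
    (rowB 3 eng mog cd2q2a cd0q2 pd0 0 false false false .pp 2 0 2 (qsf 0 536870912 0 536870912 0) ndB2q2a ndB0q2 pcB0 Cut.none Ext.none)

def k0_mm_202_a : ∃ t, chk3 f_mm_202_a t 1 1 1 = true :=
  ⟨(l 3), by decide +kernel⟩

theorem c_mm_202_a : CertB 0 536870912 0 536870912 1040187392 5207648 3 eng mog cd2q2a cd0q2 pd0 false false false .pp 2 0 2
    ndB2q2a ndB0q2 pcB0 Cut.none Ext.none :=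
  certB0 (fam := false) (s1 := false) (s2 := false) (a := 2) (b := 0) (c := 2) (cn := .pp) (n1 := ndB2q2a) (n2 := ndB0q2) (pc := pcB0) (cut := Cut.none) (xt := Ext.none) (P1 := 0) (W1 := 536870912) (P2 := 0) (W2 := 536870912) (P3 := 1040187392) (W3 := 5207648) (N0 := 3) (En := eng) (mo := mog) (C1 := cd2q2a) (C2 := cd0q2) (C3 := pd0)
    rfl k0_mm_202_a

noncomputable def f_mm_202_b : ℕ → ℕ → ℕ → ℕ → Bool := onCell 1239849684 370763052 0 536870912 1040187392 5207648
    (rowB 3 eng mog cd2q2b cd0q2 pd0 0 false false false .pp 2 0 2 (qsf 1239849684 370763052 0 536870912 0) ndB2q2b ndB0q2 pcB0 Cut.none Ext.none)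

def k0_mm_202_b : ∃ t, chk3 f_mm_202_b t 1 1 1 = true :=
  ⟨(l 3), by decide +kernel⟩

theorem c_mm_202_b : CertB 1239849684 370763052 0 536870912 1040187392 5207648 3 eng mog cd2q2b cd0q2 pd0 false false false .pp 2 0 2
    ndB2q2b ndB0q2 pcB0 Cut.none Ext.none :=
  certB0 (fam := false) (s1 := false) (s2 := false) (a := 2) (b := 0) (c := 2) (cn := .pp) (n1 := ndB2q2b) (n2 := ndB0q2) (pc := pcB0) (cut := Cut.none) (xt := Ext.none) (P1 := 1239849684) (W1 := 370763052) (P2 := 0) (W2 := 536870912) (P3 := 1040187392) (W3 := 5207648) (N0 := 3) (En := eng) (mo := mog) (C1 := cd2q2b) (C2 := cd0q2) (C3 := pd0)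
    rfl k0_mm_202_b

end Pool.Agent.Strip051.G.I9688_9736.Tab.C.BB20

namespace Pool.Agent.Strip051.G.I9688_9736.Tab.C.BB21

open Pool.Agent.Strip051.PB Pool.Agent.Strip051.PB.T
open Pool.Agent.Strip051.G.I9688_9736.Tab

noncomputable def f_pp_001 : ℕ → ℕ → ℕ → ℕ → Bool := onCell 0 536870912 0 536870912 1040187392 5207648
    (rowB 3 eng mog cd2q0 cd1q1 pd0 1 false true true .up 0 0 1 (qsf 0 536870912 536870912 536870912 0) ndB2q0 ndB1q1 pcB0 Cut.none Ext.none)

def k0_pp_001 : ∃ t, chk3 f_pp_001 t 1 1 1 = true :=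
  ⟨(l 3), by decide +kernel⟩

theorem c_pp_001 : CertB 0 536870912 536870912 536870912 1040187392 5207648 3 eng mog cd2q0 cd1q1 pd0 false true true .up 0 0 1
    ndB2q0 ndB1q1 pcB0 Cut.none Ext.none :=
  certB1 (fam := false) (s1 := true) (s2 := true) (a := 0) (b := 0) (c := 1) (cn := .up) (n1 := ndB2q0) (n2 := ndB1q1) (pc := pcB0) (cut := Cut.none) (xt := Ext.none) (P1 := 0) (W1 := 536870912) (P2 := 536870912) (W2 := 536870912) (P3 := 1040187392) (W3 := 5207648) (N0 := 3) (En := eng) (mo := mog) (C1 := cd2q0) (C2 := cd1q1) (C3 := pd0)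
    rfl (fun _ => rfl) k0_pp_001

noncomputable def f_pp_011 : ℕ → ℕ → ℕ → ℕ → Bool := onCell 0 536870912 536870912 536870912 1040187392 5207648
    (rowB 3 eng mog cd2q0 cd1q1 pd1 0 false true true .pnn 0 1 1 (qsf 0 536870912 536870912 536870912 1) ndB2q0 ndB1q1 pcB1 Cut.none Ext.none)

def k0_pp_011 : ∃ t, chk3 f_pp_011 t 1 1 1 = true :=
  ⟨(a (l 3) (l 3)), by decide +kernel⟩

theorem c_pp_011 : CertB 0 536870912 536870912 536870912 1040187392 5207648 3 eng mog cd2q0 cd1q1 pd1 false true true .pnn 0 1 1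
    ndB2q0 ndB1q1 pcB1 Cut.none Ext.none :=
  certB0 (fam := false) (s1 := true) (s2 := true) (a := 0) (b := 1) (c := 1) (cn := .pnn) (n1 := ndB2q0) (n2 := ndB1q1) (pc := pcB1) (cut := Cut.none) (xt := Ext.none) (P1 := 0) (W1 := 536870912) (P2 := 536870912) (W2 := 536870912) (P3 := 1040187392) (W3 := 5207648) (N0 := 3) (En := eng) (mo := mog) (C1 := cd2q0) (C2 := cd1q1) (C3 := pd1)
    rfl k0_pp_011

noncomputable def cut_pp_012_a : Cut := Cut.of [[⟨0, 0, 0, 26843545⟩, ⟨1, 1, 0, 26843545⟩, ⟨2, 1, 0, 26843545⟩]]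

noncomputable def xt_pp_012_a : Ext := extD3 3 ⟨4, 1, 1, 5, 33, 5, 163, 200, 81, 200, 1, 64⟩ eng cd2q0 cd1q2a pd1 false true true .pnp 0 1 2 rfl ndB2q0 ndB1q2a pcB1

noncomputable def f_pp_012_a : ℕ → ℕ → ℕ → ℕ → Bool := onCell 536870912 536870912 0 536870912 1040187392 5207648
    (rowB 3 eng mog cd2q0 cd1q2a pd1 2 false true true .pnp 0 1 2 (qsf 0 536870912 0 536870912 1) ndB2q0 ndB1q2a pcB1 cut_pp_012_a xt_pp_012_a)

def k0_pp_012_a : ∃ t, chk3 f_pp_012_a t 2 1 1 = true :=
  ⟨(b (a (a (l 2) (b (l 2) (b (l 2) (l 94050752759)))) (b (a (b (l 15419592) (l 15670512)) (l 15413184)) (a (b (a (l 15919592) (l 15852952)) (l 15765632)) (b (a (l 15788760) (l 15730680)) (a (l 15804416) (l 15788920)))))) (a (b (a (l 2) (b (a (l 2) (b (l 15735440) (l 15656368))) (b (a (a (l 2) (l 180553934263)) (a (l 199344345239) (l 218134804695))) (l 3)))) (l 3)) (a (b (b (a (l 15702936) (l 15714784)) (a (a (b (l 15600960) (l 164447800663)) (b (l 15616792) (l 181627686823))) (b (l 15643624) (b (a (l 15599824)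 (l 15624088)) (a (l 164984711863) (l 196660130007)))))) (l 3)) (b (b (a (l 15729872) (l 15747056)) (a (b (l 15683256) (a (l 225114347943) (l 15672832))) (b (l 15725712) (l 15718032)))) (b (b (a (a (l 166058562695) (l 181627864535)) (a (l 202565805783) (a (l 219745808295) (l 231020132743)))) (l 3)) (l 3)))))), by decide +kernel⟩

def k1_pp_012_a : ∃ t, chk3 f_pp_012_a t 6 1 1 = true :=
  ⟨(b (b (a (l 15481720) (l 15567104)) (a (b (l 15667024) (a (l 15771288) (l 15754032))) (b (l 15651768) (l 15630000)))) (b (a (b (a (l 15765448) (l 15784400)) (a (b (l 15769704) (l 15779840)) (l 15828584))) (b (a (l 15803416) (l 15822248)) (a (l 15881632) (l 15933328)))) (a (b (a (a (b (l 237999418695) (l 3)) (b (l 15815880) (l 213303464631))) (a (b (l 15855968) (l 224040957879)) (b (l 15895944) (a (l 229946643111) (l 233704782919))))) (l 3)) (b (a (b (l 15955176) (a (l 241221000023) (l 197197677671))) (b (l 16032544) (a (l 16082088) (l 16128304)))) (b (a (a (l 3) (l 278802311751)) (b (a (l 246053160551)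 (l 16080392)) (l 3))) (l 3)))))), by decide +kernel⟩

def k2_pp_012_a : ∃ t, chk3 f_pp_012_a t 14 1 1 = true :=
  ⟨(b (b (l 15589304) (a (l 15699216) (b (l 15757376) (l 15769064)))) (b (a (b (l 15840944) (l 15982808)) (b (l 15861120) (a (l 16018072) (l 16040072)))) (a (b (b (l 16106712) (a (l 16173952) (l 16218896))) (b (a (b (l 16182928) (l 269138297799)) (b (l 16220848) (l 270212037079))) (l 3))) (b (a (b (l 16159192) (l 16262512)) (b (l 16191152) (l 16302664))) (b (a (b (l 16282232) (b (l 16172712) (l 289002976647))) (b (l 16369720) (a (l 16194672) (l 16249792)))) (b (a (l 381344485815) (a (l 398524430695) (l 394229571751))) (l 3))))))), by decide +kernel⟩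

def k3_pp_012_a : ∃ t, chk3 f_pp_012_a t 15 1 1 = true :=
  ⟨(b (b (a (l 15920232) (l 16073264)) (a (l 15836072) (b (l 15955384) (l 15910168)))) (b (a (b (a (l 15880712) (l 15898064)) (a (l 16063968) (l 16091720))) (b (b (l 15894552) (l 15956872)) (a (l 16113696) (b (l 16070168) (l 16186096))))) (a (b (a (b (l 16225288) (l 16344640)) (b (l 16264928) (a (l 16380200) (l 16403472)))) (a (b (b (l 16435784) (a (l 16315512) (l 16392200))) (b (b (a (l 16173664) (l 16256240)) (a (l 421610015255) (l 272360078807))) (l 3))) (b (a (b (l 16478912) (l 16479376)) (b (l 16505688) (l 16563056))) (b (a (b (l 16356840) (b (l 16286568) (l 162838571127))) (b (l 16476416) (l 140734841882869823))) (b (b (a (l 467781256919) (a (l 302425211703) (l 219747281303))) (l 3)) (l 3)))))) (b (a (b (l 16294280) (a (l 16421008) (l 16431928))) (b (l 16310768) (a (l 16439784) (l 16448712)))) (a (b (b (l 141569508917542975) (a (l 16597616) (l 16609832))) (b (a (b (l 16605552) (l 16560216)) (b (l 16665456) (l 16677952)))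 (a (b (b (l 142058929075716159) (b (l 4770421284341569820671377471) (a (l 3) (l 6346860553119971778630008895)))) (l 3)) (a (a (b (l 4335207989282077173938782335) (l 3)) (b (l 144008019928809727) (b (b (l 447918064119) (l 3)) (l 3)))) (b (l 143815811560358143) (l 6)))))) (b (a (b (l 16544664) (l 16617488)) (b (l 16553520) (b (l 16607720) (l 16644536)))) (b (a (b (l 16673224) (a (l 16709240) (l 16712864))) (a (b (l 16679384) (l 6)) (l 6))) (a (b (a (l 143667927254925439) (l 6)) (l 6)) (l 6))))))))), by decide +kernel⟩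

theorem s4_pp_012_a : ∃ t, chk3 f_pp_012_a t 7 1 1 = true := ex3_a k2_pp_012_a k3_pp_012_a

theorem s5_pp_012_a : ∃ t, chk3 f_pp_012_a t 3 1 1 = true := ex3_a k1_pp_012_a s4_pp_012_a

theorem s6_pp_012_a : ∃ t, chk3 f_pp_012_a t 1 1 1 = true := ex3_a k0_pp_012_a s5_pp_012_a

theorem c_pp_012_a : CertB 0 536870912 0 536870912 1040187392 5207648 3 eng mog cd2q0 cd1q2a pd1 false true true .pnp 0 1 2
    ndB2q0 ndB1q2a pcB1 cut_pp_012_a xt_pp_012_a :=
  certB2 (fam := false) (s1 := true) (s2 := true) (a := 0) (b := 1) (c := 2) (cn := .pnp) (n1 := ndB2q0) (n2 := ndB1q2a) (pc := pcB1) (cut := cut_pp_012_a) (xt := xt_pp_012_a) (P1 := 0) (W1 := 536870912) (P2 := 0) (W2 := 536870912) (P3 := 1040187392) (W3 := 5207648) (N0 := 3) (En := eng) (mo := mog) (C1 := cd2q0) (C2 := cd1q2a) (C3 := pd1)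
    rfl (fun _ => rfl) s6_pp_012_a

noncomputable def cut_pp_012_b : Cut := Cut.of [[⟨0, 0, 0, 26843545⟩, ⟨1, 1, 0, 26843545⟩, ⟨2, 1, 0, 26843545⟩]]

noncomputable def f_pp_012_b : ℕ → ℕ → ℕ → ℕ → Bool := onCell 536870912 536870912 1239849684 370763052 1040187392 5207648
    (rowB 3 eng mog cd2q0 cd1q2b pd1 2 false true true .pnp 0 1 2 (qsf 0 536870912 1239849684 370763052 1) ndB2q0 ndB1q2b pcB1 cut_pp_012_b Ext.none)

def k0_pp_012_b : ∃ t, chk3 f_pp_012_b t 1 1 1 = true :=
  ⟨(a (a (l 2) (b (b (a (l 15189232) (l 14886776)) (a (l 2) (l 14927312))) (l 2))) (a (b (b (a (b (l 15270336) (l 15081328)) (b (l 15410264) (l 15188896))) (a (l 14870168) (l 14920376))) (b (a (l 2) (l 14684184)) (l 2))) (b (a (b (b (l 15634976) (l 15392056)) (l 15080640)) (b (b (a (l 15860320) (l 16039512)) (l 15651856)) (b (l 15461424) (l 15253696)))) (a (b (l 14774368) (l 14603976)) (b (l 14993952) (l 14756208)))))), by decide +kernel⟩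

theorem c_pp_012_b : CertB 0 536870912 1239849684 370763052 1040187392 5207648 3 eng mog cd2q0 cd1q2b pd1 false true true .pnp 0 1 2
    ndB2q0 ndB1q2b pcB1 cut_pp_012_b Ext.none :=
  certB2 (fam := false) (s1 := true) (s2 := true) (a := 0) (b := 1) (c := 2) (cn := .pnp) (n1 := ndB2q0) (n2 := ndB1q2b) (pc := pcB1) (cut := cut_pp_012_b) (xt := Ext.none) (P1 := 0) (W1 := 536870912) (P2 := 1239849684) (W2 := 370763052) (P3 := 1040187392) (W3 := 5207648) (N0 := 3) (En := eng) (mo := mog) (C1 := cd2q0) (C2 := cd1q2b) (C3 := pd1)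
    rfl (fun _ => rfl) k0_pp_012_b

noncomputable def cut_pp_022_a : Cut := Cut.of [[⟨0, 0, 0, 16777216⟩, ⟨1, 1, 0, 16777216⟩, ⟨2, 1, 0, 16777216⟩]]

noncomputable def f_pp_022_a : ℕ → ℕ → ℕ → ℕ → Bool := onCell 0 536870912 0 536870912 1040187392 5207648
    (rowB 3 eng mog cd2q0 cd1q2a pd2 0 false true true .pp 0 2 2 (qsf 0 536870912 0 536870912 2) ndB2q0 ndB1q2a pcB2 cut_pp_022_a Ext.none)

def k0_pp_022_a : ∃ t, chk3 f_pp_022_a t 2 2 1 = true :=
  ⟨(a (a (b (a (a (b (l 15904528) (l 16054912)) (l 15955560)) (b (l 15893640) (l 16014728))) (a (b (a (l 16224624) (l 16201760)) (a (b (l 16355560) (l 16442752)) (l 16367016))) (b (l 16155904) (l 16198408)))) (b (a (b (l 15898720) (l 15993888)) (b (l 15923528) (l 15990832))) (b (a (l 16109624) (l 16058224)) (a (b (l 16199912) (l 16259784)) (a (l 16165728) (l 16077208)))))) (a (a (b (b (l 15966608) (l 16004224)) (b (l 38149770311) (b (l 16111280) (l 507911976903)))) (b (l 1369052610599) (l 1))) (l 1))), by decide +kernel⟩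

def k1_pp_022_a : ∃ t, chk3 f_pp_022_a t 4 6 1 = true :=
  ⟨(a (a (b (a (l 16464544) (l 16481840)) (a (b (l 16491624) (l 16486464)) (l 16504184))) (b (a (l 16405168) (l 16310992)) (a (b (l 16559640) (l 16567152)) (b (l 16497632) (b (l 16530664) (l 16549024)))))) (b (a (b (a (l 16337824) (l 16295360)) (a (l 16392128) (l 16342808))) (b (a (l 16255992) (l 16219640)) (a (l 119217796327) (l 1)))) (a (b (a (l 16375624) (b (l 16373048) (l 163241421351))) (a (b (l 16466440) (l 175589629735)) (b (l 341482582727) (l 1)))) (b (a (a (l 376379080359) (l 1)) (l 1)) (l 1))))), by decide +kernel⟩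

def k2_pp_022_a : ∃ t, chk3 f_pp_022_a t 4 7 1 = true :=
  ⟨(a (b (a (a (b (a (l 16498608) (l 16535168)) (a (b (l 16521480) (l 16544472)) (l 16508544))) (b (l 16556864) (b (l 16605480) (l 16610336)))) (a (b (b (l 16616664) (l 16610136)) (b (l 16599376) (a (l 16689200) (l 16604736)))) (b (b (l 16542960) (a (l 16594040) (l 16535160))) (b (a (l 16559784) (l 332893014967)) (a (l 342019909063) (l 1)))))) (a (b (a (b (a (a (b (l 16557112) (b (l 16569280) (l 16557008))) (l 16582952)) (a (l 16599488) (l 16627608))) (a (b (a (b (a (b (a (b (l 16566136) (a (b (l 16566968) (l 16579448)) (l 16559312))) (l 16582464)) (a (l 16585264) (b (l 16565416) (l 16589896)))) (l 16592256)) (a (l 16599032) (a (l 16602800) (l 16605784)))) (b (l 16605192) (a (b (l 16608472) (l 16614328)) (l 16619192)))) (a (a (l 16603256) (l 16629432)) (b (a (l 16626192) (l 16631152)) (l 16645248)))) (a (b (l 16626904) (b (l 16621928) (a (l 16651616) (l 16659016)))) (b (l 16655368) (l 16655976))))) (b (a (l 16674760) (l 16714320))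 (a (b (l 16682064) (l 16682256)) (l 305512941031)))) (a (b (a (b (a (b (l 16652272) (l 16669392)) (b (l 16662184) (l 16679216))) (l 6)) (b (a (a (l 16677232) (l 16683304)) (b (a (l 16687192) (l 16702096)) (l 16710784))) (a (l 6) (b (l 16727712) (l 16723680))))) (a (l 6) (a (l 6) (l 1)))) (b (a (b (a (b (l 16725512) (l 548715491415)) (l 16741864)) (l 1)) (l 1)) (l 1)))) (b (a (a (b (l 281353669431) (l 1)) (l 1)) (l 1)) (l 1)))) (b (a (b (a (b (a (l 16489392) (l 367789443703)) (a (l 355978373559) (l 1))) (l 1)) (l 1)) (l 1)) (l 1))), by decide +kernel⟩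

def k3_pp_022_a : ∃ t, chk3 f_pp_022_a t 5 3 1 = true :=
  ⟨(b (l 1) (l 1)), by decide +kernel⟩

def k4_pp_022_a : ∃ t, chk3 f_pp_022_a t 3 1 1 = true :=
  ⟨(l 1), by decide +kernel⟩

theorem s5_pp_022_a : ∃ t, chk3 f_pp_022_a t 4 3 1 = true := ex3_b k1_pp_022_a k2_pp_022_a

theorem s6_pp_022_a : ∃ t, chk3 f_pp_022_a t 2 3 1 = true := ex3_a s5_pp_022_a k3_pp_022_a

theorem s7_pp_022_a : ∃ t, chk3 f_pp_022_a t 2 1 1 = true := ex3_b k0_pp_022_a s6_pp_022_a

theorem s8_pp_022_a : ∃ t, chk3 f_pp_022_a t 1 1 1 = true := ex3_a s7_pp_022_a k4_pp_022_a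

theorem c_pp_022_a : CertB 0 536870912 0 536870912 1040187392 5207648 3 eng mog cd2q0 cd1q2a pd2 false true true .pp 0 2 2
    ndB2q0 ndB1q2a pcB2 cut_pp_022_a Ext.none :=
  certB0 (fam := false) (s1 := true) (s2 := true) (a := 0) (b := 2) (c := 2) (cn := .pp) (n1 := ndB2q0) (n2 := ndB1q2a) (pc := pcB2) (cut := cut_pp_022_a) (xt := Ext.none) (P1 := 0) (W1 := 536870912) (P2 := 0) (W2 := 536870912) (P3 := 1040187392) (W3 := 5207648) (N0 := 3) (En := eng) (mo := mog) (C1 := cd2q0) (C2 := cd1q2a) (C3 := pd2)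
    rfl s8_pp_022_a

noncomputable def cut_pp_022_b : Cut := Cut.of [[⟨0, 0, 0, 16777216⟩, ⟨1, 1, 0, 16777216⟩, ⟨2, 1, 0, 16777216⟩]]

noncomputable def f_pp_022_b : ℕ → ℕ → ℕ → ℕ → Bool := onCell 0 536870912 1239849684 370763052 1040187392 5207648
    (rowB 3 eng mog cd2q0 cd1q2b pd2 0 false true true .pp 0 2 2 (qsf 0 536870912 1239849684 370763052 2) ndB2q0 ndB1q2b pcB2 cut_pp_022_b Ext.none)

def k0_pp_022_b : ∃ t, chk3 f_pp_022_b t 1 1 1 = true :=
  ⟨(a (b (a (b (a (a (b (a (l 15656200) (l 15656576)) (l 15085992)) (b (l 15650384) (l 15277904))) (b (a (l 15661640) (l 15693680)) (a (l 15276656) (l 15296344)))) (a (a (b (l 14948576) (l 14613184)) (b (l 14919112) (l 14573792))) (b (l 14910872) (l 14552904)))) (b (a (b (a (l 15744920) (l 15814192)) (a (l 15335272) (l 15392144))) (b (a (l 15900560) (l 1)) (l 15257696))) (a (b (l 14967648) (l 14592872)) (b (l 15094296) (l 14702648))))) (a (a (b (a (b (l 14290704) (l 13983288)) (l 14081000)) (a (b (l 13694056) (l 13427128)) (l 13487472)))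 (b (b (l 14210952) (l 13885888)) (b (l 13579480) (l 13294440)))) (b (a (b (l 14236808) (l 13899400)) (b (l 14332744) (l 13983664))) (a (l 13428144) (l 13497376))))) (b (a (b (l 1) (a (b (l 15283968) (l 14874552)) (b (l 1) (l 15105312)))) (l 1)) (a (b (a (b (l 14490464) (l 14129920)) (l 14347264)) (a (l 13630008) (l 13818800))) (b (a (l 14527160) (l 1)) (a (l 14058344) (l 14347848)))))), by decide +kernel⟩

theorem c_pp_022_b : CertB 0 536870912 1239849684 370763052 1040187392 5207648 3 eng mog cd2q0 cd1q2b pd2 false true true .pp 0 2 2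
    ndB2q0 ndB1q2b pcB2 cut_pp_022_b Ext.none :=
  certB0 (fam := false) (s1 := true) (s2 := true) (a := 0) (b := 2) (c := 2) (cn := .pp) (n1 := ndB2q0) (n2 := ndB1q2b) (pc := pcB2) (cut := cut_pp_022_b) (xt := Ext.none) (P1 := 0) (W1 := 536870912) (P2 := 1239849684) (W2 := 370763052) (P3 := 1040187392) (W3 := 5207648) (N0 := 3) (En := eng) (mo := mog) (C1 := cd2q0) (C2 := cd1q2b) (C3 := pd2)
    rfl k0_pp_022_b

noncomputable def f_pp_023 : ℕ → ℕ → ℕ → ℕ → Bool := onCell 1073741824 536870912 1610612736 536870912 1040187392 5207648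
    (rowB 3 eng mog cd2q0 cd1q3 pd2 2 false true true .up 0 2 3 (qsf 0 536870912 1610612736 536870912 2) ndB2q0 ndB1q3 pcB2 Cut.none Ext.none)

def k0_pp_023 : ∃ t, chk3 f_pp_023 t 1 1 1 = true :=
  ⟨(a (a (b (b (a (l 13606432) (l 13288528)) (a (l 2) (l 13355960))) (l 2)) (b (b (a (b (l 13077624) (l 12982776)) (b (l 12877592) (l 12827824))) (a (b (l 13051640) (l 13243480)) (l 13143312))) (b (a (l 2) (l 13823392)) (l 2)))) (b (a (b (b (a (l 12766016) (b (l 12730144) (l 12735096))) (a (l 12849440) (l 13009440))) (a (l 13324112) (l 13413888))) (b (b (a (b (l 12753312) (l 12867232)) (b (a (l 12790256) (b (l 12895480) (b (l 12818656) (l 12863272)))) (l 13025208))) (a (l 13233936) (l 13404288))) (a (b (l 13749616) (l 14291944)) (b (l 14115904) (l 14753144))))) (a (b (a (l 14149328) (l 14547880)) (a (l 2) (b (l 15464464) (l 2)))) (b (a (b (l 14867496) (l 15477000)) (b (l 15412176) (l 16062120))) (a (b (l 16115240) (l 16665336)) (b (l 16586808) (l 16375272))))))), by decide +kernel⟩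

theorem c_pp_023 : CertB 0 536870912 1610612736 536870912 1040187392 5207648 3 eng mog cd2q0 cd1q3 pd2 false true true .up 0 2 3
    ndB2q0 ndB1q3 pcB2 Cut.none Ext.none :=
  certB2 (fam := false) (s1 := true) (s2 := true) (a := 0) (b := 2) (c := 3) (cn := .up) (n1 := ndB2q0) (n2 := ndB1q3) (pc := pcB2) (cut := Cut.none) (xt := Ext.none) (P1 := 0) (W1 := 536870912) (P2 := 1610612736) (W2 := 536870912) (P3 := 1040187392) (W3 := 5207648) (N0 := 3) (En := eng) (mo := mog) (C1 := cd2q0) (C2 := cd1q3) (C3 := pd2)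
    rfl (fun _ => rfl) k0_pp_023

noncomputable def f_pp_033 : ℕ → ℕ → ℕ → ℕ → Bool := onCell 0 536870912 1610612736 536870912 1040187392 5207648
    (rowB 3 eng mog cd2q0 cd1q3 pd3 1 false true true .pnn 0 3 3 (qsf 0 536870912 1610612736 536870912 3) ndB2q0 ndB1q3 pcB3 Cut.none Ext.none)

def k0_pp_033 : ∃ t, chk3 f_pp_033 t 1 1 1 = true :=
  ⟨(a (b (b (a (b (a (a (l 15233160) (l 15552000)) (l 15894688)) (a (a (l 15263376) (l 15486560)) (l 15804056))) (b (l 15986144) (a (l 15987280) (l 16204224)))) (a (b (a (a (l 15163176) (l 15386824)) (l 15684304)) (a (a (l 14967208) (l 4)) (l 4))) (l 4))) (a (l 4) (b (l 4) (a (b (l 4) (l 2)) (l 2))))) (b (a (b (b (l 16386200) (l 4)) (l 4)) (b (l 4) (a (b (l 4) (l 2)) (l 2)))) (a (b (a (b (l 4) (l 2)) (l 2)) (l 2)) (l 2)))), by decide +kernel⟩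

theorem c_pp_033 : CertB 0 536870912 1610612736 536870912 1040187392 5207648 3 eng mog cd2q0 cd1q3 pd3 false true true .pnn 0 3 3
    ndB2q0 ndB1q3 pcB3 Cut.none Ext.none :=
  certB1 (fam := false) (s1 := true) (s2 := true) (a := 0) (b := 3) (c := 3) (cn := .pnn) (n1 := ndB2q0) (n2 := ndB1q3) (pc := pcB3) (cut := Cut.none) (xt := Ext.none) (P1 := 0) (W1 := 536870912) (P2 := 1610612736) (W2 := 536870912) (P3 := 1040187392) (W3 := 5207648) (N0 := 3) (En := eng) (mo := mog) (C1 := cd2q0) (C2 := cd1q3) (C3 := pd3)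
    rfl (fun _ => rfl) k0_pp_033

noncomputable def f_pp_101 : ℕ → ℕ → ℕ → ℕ → Bool := onCell 536870912 536870912 536870912 536870912 1040187392 5207648
    (rowB 3 eng mog cd2q1 cd1q1 pd0 0 false true true .npn 1 0 1 (qsf 536870912 536870912 536870912 536870912 0) ndB2q1 ndB1q1 pcB0 Cut.none Ext.none)

def k0_pp_101 : ∃ t, chk3 f_pp_101 t 1 1 1 = true :=
  ⟨(l 3), by decide +kernel⟩

theorem c_pp_101 : CertB 536870912 536870912 536870912 536870912 1040187392 5207648 3 eng mog cd2q1 cd1q1 pd0 false true true .npn 1 0 1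
    ndB2q1 ndB1q1 pcB0 Cut.none Ext.none :=
  certB0 (fam := false) (s1 := true) (s2 := true) (a := 1) (b := 0) (c := 1) (cn := .npn) (n1 := ndB2q1) (n2 := ndB1q1) (pc := pcB0) (cut := Cut.none) (xt := Ext.none) (P1 := 536870912) (W1 := 536870912) (P2 := 536870912) (W2 := 536870912) (P3 := 1040187392) (W3 := 5207648) (N0 := 3) (En := eng) (mo := mog) (C1 := cd2q1) (C2 := cd1q1) (C3 := pd0)
    rfl k0_pp_101

noncomputable def f_pp_102_a : ℕ → ℕ → ℕ → ℕ → Bool := onCell 0 536870912 0 536870912 1040187392 5207648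
    (rowB 3 eng mog cd2q1 cd1q2a pd0 2 false true true .npp 1 0 2 (qsf 536870912 536870912 0 536870912 0) ndB2q1 ndB1q2a pcB0 Cut.none Ext.none)

def k0_pp_102_a : ∃ t, chk3 f_pp_102_a t 1 1 1 = true :=
  ⟨(a (b (a (b (l 2) (l 3)) (b (a (a (b (a (l 2) (b (l 15963112) (l 15885176))) (l 3)) (b (b (l 16128720) (l 15895152)) (b (l 295444880551) (l 3)))) (b (b (a (l 16268608) (l 16492432)) (a (l 16214600) (l 16400032))) (a (b (l 16118592) (l 16071856)) (l 16105992)))) (a (l 3) (a (l 3) (b (a (l 3) (l 16190896)) (l 3)))))) (l 3)) (b (a (b (a (b (a (b (l 16443544) (l 16550776)) (b (l 16230808) (l 16359296))) (a (l 16349768) (l 16512568))) (b (a (l 16033112) (l 15930816)) (a (l 16330112) (l 16148816)))) (b (a (a (l 16212888) (l 16267008)) (a (l 16424504) (l 16340872))) (a (l 3) (a (l 16417264) (l 16413304))))) (b (b (a (l 15692304) (l 15436144)) (a (b (l 15780896) (l 15980248)) (b (l 15623704) (l 15722976)))) (a (b (l 15979304) (a (l 114520264647) (l 16141744))) (b (l 15841320) (a (l 16049176)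 (l 15921128)))))) (a (l 3) (a (l 3) (b (b (a (l 152637608279) (l 170354085399)) (l 3)) (l 3)))))), by decide +kernel⟩

theorem c_pp_102_a : CertB 536870912 536870912 0 536870912 1040187392 5207648 3 eng mog cd2q1 cd1q2a pd0 false true true .npp 1 0 2
    ndB2q1 ndB1q2a pcB0 Cut.none Ext.none :=
  certB2 (fam := false) (s1 := true) (s2 := true) (a := 1) (b := 0) (c := 2) (cn := .npp) (n1 := ndB2q1) (n2 := ndB1q2a) (pc := pcB0) (cut := Cut.none) (xt := Ext.none) (P1 := 536870912) (W1 := 536870912) (P2 := 0) (W2 := 536870912) (P3 := 1040187392) (W3 := 5207648) (N0 := 3) (En := eng) (mo := mog) (C1 := cd2q1) (C2 := cd1q2a) (C3 := pd0)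
    rfl (fun _ => rfl) k0_pp_102_a

noncomputable def f_pp_102_b : ℕ → ℕ → ℕ → ℕ → Bool := onCell 536870912 536870912 0 536870912 1040187392 5207648
    (rowB 3 eng mog cd2q1 cd1q2b pd0 1 false true true .npp 1 0 2 (qsf 536870912 536870912 1239849684 370763052 0) ndB2q1 ndB1q2b pcB0 Cut.none Ext.none)

def k0_pp_102_b : ∃ t, chk3 f_pp_102_b t 1 1 1 = true :=
  ⟨(a (b (l 1) (b (l 1) (a (l 1) (b (l 361881646279) (l 252359601751))))) (b (a (l 1) (b (l 1) (a (b (l 1) (b (l 16505832) (l 16558344))) (b (b (a (l 1) (l 397853161095)) (a (l 16280840) (l 16175576))) (a (l 16233104) (l 16302488)))))) (b (a (b (a (l 1) (l 312490785447)) (a (l 15842648) (l 15926152))) (a (b (l 16310552) (l 16047176)) (b (a (l 16452432) (l 16506128)) (l 16166808)))) (a (b (l 187935569575) (l 15398544)) (b (a (l 15784600) (l 15950664)) (l 15629096)))))), by decide +kernel⟩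

theorem c_pp_102_b : CertB 536870912 536870912 1239849684 370763052 1040187392 5207648 3 eng mog cd2q1 cd1q2b pd0 false true true .npp 1 0 2
    ndB2q1 ndB1q2b pcB0 Cut.none Ext.none :=
  certB1 (fam := false) (s1 := true) (s2 := true) (a := 1) (b := 0) (c := 2) (cn := .npp) (n1 := ndB2q1) (n2 := ndB1q2b) (pc := pcB0) (cut := Cut.none) (xt := Ext.none) (P1 := 536870912) (W1 := 536870912) (P2 := 1239849684) (W2 := 370763052) (P3 := 1040187392) (W3 := 5207648) (N0 := 3) (En := eng) (mo := mog) (C1 := cd2q1) (C2 := cd1q2b) (C3 := pd0)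
    rfl (fun _ => rfl) k0_pp_102_b

noncomputable def f_pp_112_a : ℕ → ℕ → ℕ → ℕ → Bool := onCell 536870912 536870912 0 536870912 1040187392 5207648
    (rowB 3 eng mog cd2q1 cd1q2a pd1 2 false true true .dn 1 1 2 (qsf 536870912 536870912 0 536870912 1) ndB2q1 ndB1q2a pcB1 Cut.none Ext.none)

def k0_pp_112_a : ∃ t, chk3 f_pp_112_a t 1 1 1 = true :=
  ⟨(a (b (a (b (a (b (l 15939568) (b (l 16225480) (l 16269896))) (b (l 15749576) (l 16064184))) (a (b (a (l 16365984) (l 16340000)) (l 16034056)) (b (b (l 16245832) (l 16207352)) (l 16043408)))) (a (b (l 15651608) (b (a (l 16072288) (l 1)) (l 15929888))) (l 1))) (b (a (b (a (a (b (l 16013632) (l 165522152759)) (b (l 15978576) (l 198808022263))) (a (l 15804656) (l 15847224))) (a (l 3) (b (a (l 174111780791) (l 711385207367)) (l 3)))) (l 1)) (a (l 3) (l 1)))) (l 1)), by decide +kernel⟩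

theorem c_pp_112_a : CertB 536870912 536870912 0 536870912 1040187392 5207648 3 eng mog cd2q1 cd1q2a pd1 false true true .dn 1 1 2
    ndB2q1 ndB1q2a pcB1 Cut.none Ext.none :=
  certB2 (fam := false) (s1 := true) (s2 := true) (a := 1) (b := 1) (c := 2) (cn := .dn) (n1 := ndB2q1) (n2 := ndB1q2a) (pc := pcB1) (cut := Cut.none) (xt := Ext.none) (P1 := 536870912) (W1 := 536870912) (P2 := 0) (W2 := 536870912) (P3 := 1040187392) (W3 := 5207648) (N0 := 3) (En := eng) (mo := mog) (C1 := cd2q1) (C2 := cd1q2a) (C3 := pd1)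
    rfl (fun _ => rfl) k0_pp_112_a

noncomputable def f_pp_112_b : ℕ → ℕ → ℕ → ℕ → Bool := onCell 536870912 536870912 1239849684 370763052 1040187392 5207648
    (rowB 3 eng mog cd2q1 cd1q2b pd1 2 false true true .dn 1 1 2 (qsf 536870912 536870912 1239849684 370763052 1) ndB2q1 ndB1q2b pcB1 Cut.none Ext.none)

def k0_pp_112_b : ∃ t, chk3 f_pp_112_b t 1 1 1 = true :=
  ⟨(a (a (b (a (b (l 15742512) (l 15774800)) (l 15549632)) (a (b (l 15891896) (l 16103696)) (l 15411048))) (b (a (l 15361608) (l 15165120)) (a (l 15337704) (l 15102984)))) (a (b (a (l 14901488) (l 399461487975)) (a (l 14939032) (l 14848632))) (b (l 1) (a (l 14835400) (l 14904176))))), by decide +kernel⟩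

theorem c_pp_112_b : CertB 536870912 536870912 1239849684 370763052 1040187392 5207648 3 eng mog cd2q1 cd1q2b pd1 false true true .dn 1 1 2
    ndB2q1 ndB1q2b pcB1 Cut.none Ext.none :=
  certB2 (fam := false) (s1 := true) (s2 := true) (a := 1) (b := 1) (c := 2) (cn := .dn) (n1 := ndB2q1) (n2 := ndB1q2b) (pc := pcB1) (cut := Cut.none) (xt := Ext.none) (P1 := 536870912) (W1 := 536870912) (P2 := 1239849684) (W2 := 370763052) (P3 := 1040187392) (W3 := 5207648) (N0 := 3) (En := eng) (mo := mog) (C1 := cd2q1) (C2 := cd1q2b) (C3 := pd1)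
    rfl (fun _ => rfl) k0_pp_112_b

noncomputable def f_pp_113 : ℕ → ℕ → ℕ → ℕ → Bool := onCell 536870912 536870912 536870912 536870912 1040187392 5207648
    (rowB 3 eng mog cd2q1 cd1q3 pd1 1 false true true .nn 1 1 3 (qsf 536870912 536870912 1610612736 536870912 1) ndB2q1 ndB1q3 pcB1 Cut.none Ext.none)

def k0_pp_113 : ∃ t, chk3 f_pp_113 t 1 1 1 = true :=
  ⟨(b (a (b (l 1) (a (l 1) (l 378523844359))) (b (a (b (l 1) (l 15717248)) (b (l 15898336) (l 16074736))) (a (b (l 15454152) (l 15202608)) (b (l 15763632) (l 15476192))))) (a (b (a (l 368322465303) (l 14769632)) (b (l 297455193095) (a (l 14605720) (l 14700032)))) (b (a (l 14680848) (b (l 15247616) (l 15116648))) (a (b (l 14825840) (l 14930000)) (b (l 15127808) (a (l 15243528) (l 15736784))))))), by decide +kernel⟩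

theorem c_pp_113 : CertB 536870912 536870912 1610612736 536870912 1040187392 5207648 3 eng mog cd2q1 cd1q3 pd1 false true true .nn 1 1 3
    ndB2q1 ndB1q3 pcB1 Cut.none Ext.none :=
  certB1 (fam := false) (s1 := true) (s2 := true) (a := 1) (b := 1) (c := 3) (cn := .nn) (n1 := ndB2q1) (n2 := ndB1q3) (pc := pcB1) (cut := Cut.none) (xt := Ext.none) (P1 := 536870912) (W1 := 536870912) (P2 := 1610612736) (W2 := 536870912) (P3 := 1040187392) (W3 := 5207648) (N0 := 3) (En := eng) (mo := mog) (C1 := cd2q1) (C2 := cd1q3) (C3 := pd1)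
    rfl (fun _ => rfl) k0_pp_113

noncomputable def f_pp_123 : ℕ → ℕ → ℕ → ℕ → Bool := onCell 1073741824 536870912 1610612736 536870912 1040187392 5207648
    (rowB 3 eng mog cd2q1 cd1q3 pd2 2 false true true .npn 1 2 3 (qsf 536870912 536870912 1610612736 536870912 2) ndB2q1 ndB1q3 pcB2 Cut.none Ext.none)

def k0_pp_123 : ∃ t, chk3 f_pp_123 t 1 1 1 = true :=
  ⟨(a (a (b (b (a (l 13767592) (l 13349064)) (a (l 13889600) (l 13468648))) (b (a (l 14215696) (l 13848920)) (a (b (l 15058192) (l 15454184)) (b (l 14358168) (l 14632760))))) (b (b (a (l 13004920) (l 1)) (a (l 13192528) (l 13158024))) (b (a (l 13693720) (l 13796480)) (a (b (l 14236192) (l 14747904)) (l 14616696))))) (b (a (b (l 1) (a (l 13322384) (l 1))) (l 1)) (a (b (a (l 14105688) (l 14580504)) (a (l 14805816) (b (l 15337520) (l 15877032)))) (b (a (l 15029744) (l 1)) (a (b (l 16022992) (l 16534912)) (b (l 16568944) (l 16529864))))))), by decide +kernel⟩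

theorem c_pp_123 : CertB 536870912 536870912 1610612736 536870912 1040187392 5207648 3 eng mog cd2q1 cd1q3 pd2 false true true .npn 1 2 3
    ndB2q1 ndB1q3 pcB2 Cut.none Ext.none :=
  certB2 (fam := false) (s1 := true) (s2 := true) (a := 1) (b := 2) (c := 3) (cn := .npn) (n1 := ndB2q1) (n2 := ndB1q3) (pc := pcB2) (cut := Cut.none) (xt := Ext.none) (P1 := 536870912) (W1 := 536870912) (P2 := 1610612736) (W2 := 536870912) (P3 := 1040187392) (W3 := 5207648) (N0 := 3) (En := eng) (mo := mog) (C1 := cd2q1) (C2 := cd1q3) (C3 := pd2)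
    rfl (fun _ => rfl) k0_pp_123

noncomputable def f_pp_133 : ℕ → ℕ → ℕ → ℕ → Bool := onCell 1610612736 536870912 1610612736 536870912 1040187392 5207648
    (rowB 3 eng mog cd2q1 cd1q3 pd3 2 false true true .dn 1 3 3 (qsf 536870912 536870912 1610612736 536870912 3) ndB2q1 ndB1q3 pcB3 Cut.none Ext.none)

def k0_pp_133 : ∃ t, chk3 f_pp_133 t 1 1 1 = true :=
  ⟨(a (b (l 1) (a (b (l 1) (l 4)) (l 1))) (l 1)), by decide +kernel⟩

theorem c_pp_133 : CertB 536870912 536870912 1610612736 536870912 1040187392 5207648 3 eng mog cd2q1 cd1q3 pd3 false true true .dn 1 3 3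
    ndB2q1 ndB1q3 pcB3 Cut.none Ext.none :=
  certB2 (fam := false) (s1 := true) (s2 := true) (a := 1) (b := 3) (c := 3) (cn := .dn) (n1 := ndB2q1) (n2 := ndB1q3) (pc := pcB3) (cut := Cut.none) (xt := Ext.none) (P1 := 536870912) (W1 := 536870912) (P2 := 1610612736) (W2 := 536870912) (P3 := 1040187392) (W3 := 5207648) (N0 := 3) (En := eng) (mo := mog) (C1 := cd2q1) (C2 := cd1q3) (C3 := pd3)
    rfl (fun _ => rfl) k0_pp_133

noncomputable def f_pp_202_aa : ℕ → ℕ → ℕ → ℕ → Bool := onCell 0 536870912 0 536870912 1040187392 5207648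
    (rowB 3 eng mog cd2q2a cd1q2a pd0 0 false true true .pp 2 0 2 (qsf 0 536870912 0 536870912 0) ndB2q2a ndB1q2a pcB0 Cut.none Ext.none)

def k0_pp_202_aa : ∃ t, chk3 f_pp_202_aa t 1 1 1 = true :=
  ⟨(l 3), by decide +kernel⟩

theorem c_pp_202_aa : CertB 0 536870912 0 536870912 1040187392 5207648 3 eng mog cd2q2a cd1q2a pd0 false true true .pp 2 0 2
    ndB2q2a ndB1q2a pcB0 Cut.none Ext.none :=
  certB0 (fam := false) (s1 := true) (s2 := true) (a := 2) (b := 0) (c := 2) (cn := .pp) (n1 := ndB2q2a) (n2 := ndB1q2a) (pc := pcB0) (cut := Cut.none) (xt := Ext.none) (P1 := 0) (W1 := 536870912) (P2 := 0) (W2 := 536870912) (P3 := 1040187392) (W3 := 5207648) (N0 := 3) (En := eng) (mo := mog) (C1 := cd2q2a) (C2 := cd1q2a) (C3 := pd0)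
    rfl k0_pp_202_aa

noncomputable def f_pp_202_ab : ℕ → ℕ → ℕ → ℕ → Bool := onCell 0 536870912 1239849684 370763052 1040187392 5207648
    (rowB 3 eng mog cd2q2a cd1q2b pd0 0 false true true .pp 2 0 2 (qsf 0 536870912 1239849684 370763052 0) ndB2q2a ndB1q2b pcB0 Cut.none Ext.none)

def k0_pp_202_ab : ∃ t, chk3 f_pp_202_ab t 1 1 1 = true :=
  ⟨(l 3), by decide +kernel⟩

theorem c_pp_202_ab : CertB 0 536870912 1239849684 370763052 1040187392 5207648 3 eng mog cd2q2a cd1q2b pd0 false true true .pp 2 0 2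
    ndB2q2a ndB1q2b pcB0 Cut.none Ext.none :=
  certB0 (fam := false) (s1 := true) (s2 := true) (a := 2) (b := 0) (c := 2) (cn := .pp) (n1 := ndB2q2a) (n2 := ndB1q2b) (pc := pcB0) (cut := Cut.none) (xt := Ext.none) (P1 := 0) (W1 := 536870912) (P2 := 1239849684) (W2 := 370763052) (P3 := 1040187392) (W3 := 5207648) (N0 := 3) (En := eng) (mo := mog) (C1 := cd2q2a) (C2 := cd1q2b) (C3 := pd0)
    rfl k0_pp_202_ab

noncomputable def f_pp_202_ba : ℕ → ℕ → ℕ → ℕ → Bool := onCell 1239849684 370763052 0 536870912 1040187392 5207648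
    (rowB 3 eng mog cd2q2b cd1q2a pd0 0 false true true .pp 2 0 2 (qsf 1239849684 370763052 0 536870912 0) ndB2q2b ndB1q2a pcB0 Cut.none Ext.none)

def k0_pp_202_ba : ∃ t, chk3 f_pp_202_ba t 1 1 1 = true :=
  ⟨(l 3), by decide +kernel⟩

theorem c_pp_202_ba : CertB 1239849684 370763052 0 536870912 1040187392 5207648 3 eng mog cd2q2b cd1q2a pd0 false true true .pp 2 0 2
    ndB2q2b ndB1q2a pcB0 Cut.none Ext.none :=
  certB0 (fam := false) (s1 := true) (s2 := true) (a := 2) (b := 0) (c := 2) (cn := .pp) (n1 := ndB2q2b) (n2 := ndB1q2a) (pc := pcB0) (cut := Cut.none) (xt := Ext.none) (P1 := 1239849684) (W1 := 370763052) (P2 := 0) (W2 := 536870912) (P3 := 1040187392) (W3 := 5207648) (N0 := 3) (En := eng) (mo := mog) (C1 := cd2q2b) (C2 := cd1q2a) (C3 := pd0)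
    rfl k0_pp_202_ba

noncomputable def f_pp_202_bb : ℕ → ℕ → ℕ → ℕ → Bool := onCell 1239849684 370763052 1239849684 370763052 1040187392 5207648
    (rowB 3 eng mog cd2q2b cd1q2b pd0 0 false true true .pp 2 0 2 (qsf 1239849684 370763052 1239849684 370763052 0) ndB2q2b ndB1q2b pcB0 Cut.none Ext.none)

def k0_pp_202_bb : ∃ t, chk3 f_pp_202_bb t 1 1 1 = true :=
  ⟨(l 3), by decide +kernel⟩

theorem c_pp_202_bb : CertB 1239849684 370763052 1239849684 370763052 1040187392 5207648 3 eng mog cd2q2b cd1q2b pd0 false true true .pp 2 0 2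
    ndB2q2b ndB1q2b pcB0 Cut.none Ext.none :=
  certB0 (fam := false) (s1 := true) (s2 := true) (a := 2) (b := 0) (c := 2) (cn := .pp) (n1 := ndB2q2b) (n2 := ndB1q2b) (pc := pcB0) (cut := Cut.none) (xt := Ext.none) (P1 := 1239849684) (W1 := 370763052) (P2 := 1239849684) (W2 := 370763052) (P3 := 1040187392) (W3 := 5207648) (N0 := 3) (En := eng) (mo := mog) (C1 := cd2q2b) (C2 := cd1q2b) (C3 := pd0)
    rfl k0_pp_202_bb

noncomputable def f_pp_203_a : ℕ → ℕ → ℕ → ℕ → Bool := onCell 0 536870912 0 536870912 1040187392 5207648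
    (rowB 3 eng mog cd2q2a cd1q3 pd0 1 false true true .up 2 0 3 (qsf 0 536870912 1610612736 536870912 0) ndB2q2a ndB1q3 pcB0 Cut.none Ext.none)

def k0_pp_203_a : ∃ t, chk3 f_pp_203_a t 1 1 1 = true :=
  ⟨(l 3), by decide +kernel⟩

theorem c_pp_203_a : CertB 0 536870912 1610612736 536870912 1040187392 5207648 3 eng mog cd2q2a cd1q3 pd0 false true true .up 2 0 3
    ndB2q2a ndB1q3 pcB0 Cut.none Ext.none :=
  certB1 (fam := false) (s1 := true) (s2 := true) (a := 2) (b := 0) (c := 3) (cn := .up) (n1 := ndB2q2a) (n2 := ndB1q3) (pc := pcB0) (cut := Cut.none) (xt := Ext.none) (P1 := 0) (W1 := 536870912) (P2 := 1610612736) (W2 := 536870912) (P3 := 1040187392) (W3 := 5207648) (N0 := 3) (En := eng) (mo := mog) (C1 := cd2q2a) (C2 := cd1q3) (C3 := pd0)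
    rfl (fun _ => rfl) k0_pp_203_a

noncomputable def f_pp_203_b : ℕ → ℕ → ℕ → ℕ → Bool := onCell 1239849684 370763052 1610612736 536870912 1040187392 5207648
    (rowB 3 eng mog cd2q2b cd1q3 pd0 0 false true true .up 2 0 3 (qsf 1239849684 370763052 1610612736 536870912 0) ndB2q2b ndB1q3 pcB0 Cut.none Ext.none)

def k0_pp_203_b : ∃ t, chk3 f_pp_203_b t 1 1 1 = true :=
  ⟨(l 3), by decide +kernel⟩

theorem c_pp_203_b : CertB 1239849684 370763052 1610612736 536870912 1040187392 5207648 3 eng mog cd2q2b cd1q3 pd0 false true true .up 2 0 3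
    ndB2q2b ndB1q3 pcB0 Cut.none Ext.none :=
  certB0 (fam := false) (s1 := true) (s2 := true) (a := 2) (b := 0) (c := 3) (cn := .up) (n1 := ndB2q2b) (n2 := ndB1q3) (pc := pcB0) (cut := Cut.none) (xt := Ext.none) (P1 := 1239849684) (W1 := 370763052) (P2 := 1610612736) (W2 := 536870912) (P3 := 1040187392) (W3 := 5207648) (N0 := 3) (En := eng) (mo := mog) (C1 := cd2q2b) (C2 := cd1q3) (C3 := pd0)
    rfl k0_pp_203_b

noncomputable def cut_pp_213_a : Cut := Cut.of [[⟨0, 1, 0, 15728640⟩, ⟨1, 1, 0, 15728640⟩, ⟨2, 2, 0, 524288⟩]]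

noncomputable def f_pp_213_a : ℕ → ℕ → ℕ → ℕ → Bool := onCell 0 536870912 1610612736 536870912 1040187392 5207648
    (rowB 3 eng mog cd2q2a cd1q3 pd1 0 false true true .pnn 2 1 3 (qsf 0 536870912 1610612736 536870912 1) ndB2q2a ndB1q3 pcB1 cut_pp_213_a Ext.none)

def k0_pp_213_a : ∃ t, chk3 f_pp_213_a t 1 1 1 = true :=
  ⟨(a (l 3) (b (l 3) (b (l 3) (a (l 3) (b (l 3) (a (l 3) (b (l 3) (a (l 3) (b (l 3) (a (l 3) (b (l 3) (a (l 3) (b (l 3) (b (l 3) (b (l 3) (b (l 3) (b (l 3) (l 6)))))))))))))))))), by decide +kernel⟩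

theorem c_pp_213_a : CertB 0 536870912 1610612736 536870912 1040187392 5207648 3 eng mog cd2q2a cd1q3 pd1 false true true .pnn 2 1 3
    ndB2q2a ndB1q3 pcB1 cut_pp_213_a Ext.none :=
  certB0 (fam := false) (s1 := true) (s2 := true) (a := 2) (b := 1) (c := 3) (cn := .pnn) (n1 := ndB2q2a) (n2 := ndB1q3) (pc := pcB1) (cut := cut_pp_213_a) (xt := Ext.none) (P1 := 0) (W1 := 536870912) (P2 := 1610612736) (W2 := 536870912) (P3 := 1040187392) (W3 := 5207648) (N0 := 3) (En := eng) (mo := mog) (C1 := cd2q2a) (C2 := cd1q3) (C3 := pd1)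
    rfl k0_pp_213_a

noncomputable def cut_pp_213_b : Cut := Cut.of [[⟨0, 1, 0, 15728640⟩, ⟨1, 1, 0, 15728640⟩, ⟨2, 2, 0, 524288⟩]]

noncomputable def f_pp_213_b : ℕ → ℕ → ℕ → ℕ → Bool := onCell 1239849684 370763052 1610612736 536870912 1040187392 5207648
    (rowB 3 eng mog cd2q2b cd1q3 pd1 0 false true true .pnn 2 1 3 (qsf 1239849684 370763052 1610612736 536870912 1) ndB2q2b ndB1q3 pcB1 cut_pp_213_b Ext.none)

def k0_pp_213_b : ∃ t, chk3 f_pp_213_b t 1 1 1 = true :=
  ⟨(l 3), by decide +kernel⟩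

theorem c_pp_213_b : CertB 1239849684 370763052 1610612736 536870912 1040187392 5207648 3 eng mog cd2q2b cd1q3 pd1 false true true .pnn 2 1 3
    ndB2q2b ndB1q3 pcB1 cut_pp_213_b Ext.none :=
  certB0 (fam := false) (s1 := true) (s2 := true) (a := 2) (b := 1) (c := 3) (cn := .pnn) (n1 := ndB2q2b) (n2 := ndB1q3) (pc := pcB1) (cut := cut_pp_213_b) (xt := Ext.none) (P1 := 1239849684) (W1 := 370763052) (P2 := 1610612736) (W2 := 536870912) (P3 := 1040187392) (W3 := 5207648) (N0 := 3) (En := eng) (mo := mog) (C1 := cd2q2b) (C2 := cd1q3) (C3 := pd1)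
    rfl k0_pp_213_b

noncomputable def f_pp_303 : ℕ → ℕ → ℕ → ℕ → Bool := onCell 1610612736 536870912 1610612736 536870912 1040187392 5207648
    (rowB 3 eng mog cd2q3 cd1q3 pd0 0 false true true .npn 3 0 3 (qsf 1610612736 536870912 1610612736 536870912 0) ndB2q3 ndB1q3 pcB0 Cut.none Ext.none)

def k0_pp_303 : ∃ t, chk3 f_pp_303 t 1 1 1 = true :=
  ⟨(l 3), by decide +kernel⟩

theorem c_pp_303 : CertB 1610612736 536870912 1610612736 536870912 1040187392 5207648 3 eng mog cd2q3 cd1q3 pd0 false true true .npn 3 0 3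
    ndB2q3 ndB1q3 pcB0 Cut.none Ext.none :=
  certB0 (fam := false) (s1 := true) (s2 := true) (a := 3) (b := 0) (c := 3) (cn := .npn) (n1 := ndB2q3) (n2 := ndB1q3) (pc := pcB0) (cut := Cut.none) (xt := Ext.none) (P1 := 1610612736) (W1 := 536870912) (P2 := 1610612736) (W2 := 536870912) (P3 := 1040187392) (W3 := 5207648) (N0 := 3) (En := eng) (mo := mog) (C1 := cd2q3) (C2 := cd1q3) (C3 := pd0)
    rfl k0_pp_303

noncomputable def f_pp_313 : ℕ → ℕ → ℕ → ℕ → Bool := onCell 1610612736 536870912 1610612736 536870912 1040187392 5207648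
    (rowB 3 eng mog cd2q3 cd1q3 pd1 0 false true true .dn 3 1 3 (qsf 1610612736 536870912 1610612736 536870912 1) ndB2q3 ndB1q3 pcB1 Cut.none Ext.none)

def k0_pp_313 : ∃ t, chk3 f_pp_313 t 1 1 1 = true :=
  ⟨(l 3), by decide +kernel⟩

theorem c_pp_313 : CertB 1610612736 536870912 1610612736 536870912 1040187392 5207648 3 eng mog cd2q3 cd1q3 pd1 false true true .dn 3 1 3
    ndB2q3 ndB1q3 pcB1 Cut.none Ext.none :=
  certB0 (fam := false) (s1 := true) (s2 := true) (a := 3) (b := 1) (c := 3) (cn := .dn) (n1 := ndB2q3) (n2 := ndB1q3) (pc := pcB1) (cut := Cut.none) (xt := Ext.none) (P1 := 1610612736) (W1 := 536870912) (P2 := 1610612736) (W2 := 536870912) (P3 := 1040187392) (W3 := 5207648) (N0 := 3) (En := eng) (mo := mog) (C1 := cd2q3) (C2 := cd1q3) (C3 := pd1)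
    rfl k0_pp_313

noncomputable def f_pm_001 : ℕ → ℕ → ℕ → ℕ → Bool := onCell 0 536870912 536870912 536870912 1040187392 5207648
    (rowB 3 eng mog cd2q0 cd1q1 pd0 0 false true false .up 0 0 1 (qsf 0 536870912 536870912 536870912 0) ndB2q0 ndB1q1 pcB0 Cut.none Ext.none)

def k0_pm_001 : ∃ t, chk3 f_pm_001 t 1 1 1 = true :=
  ⟨(l 4), by decide +kernel⟩

theorem c_pm_001 : CertB 0 536870912 536870912 536870912 1040187392 5207648 3 eng mog cd2q0 cd1q1 pd0 false true false .up 0 0 1
    ndB2q0 ndB1q1 pcB0 Cut.none Ext.none :=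
  certB0 (fam := false) (s1 := true) (s2 := false) (a := 0) (b := 0) (c := 1) (cn := .up) (n1 := ndB2q0) (n2 := ndB1q1) (pc := pcB0) (cut := Cut.none) (xt := Ext.none) (P1 := 0) (W1 := 536870912) (P2 := 536870912) (W2 := 536870912) (P3 := 1040187392) (W3 := 5207648) (N0 := 3) (En := eng) (mo := mog) (C1 := cd2q0) (C2 := cd1q1) (C3 := pd0)
    rfl k0_pm_001

noncomputable def f_pm_011 : ℕ → ℕ → ℕ → ℕ → Bool := onCell 0 536870912 536870912 536870912 1040187392 5207648
    (rowB 3 eng mog cd2q0 cd1q1 pd1 0 false true false .pnn 0 1 1 (qsf 0 536870912 536870912 536870912 1) ndB2q0 ndB1q1 pcB1 Cut.none Ext.none)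

def k0_pm_011 : ∃ t, chk3 f_pm_011 t 1 1 1 = true :=
  ⟨(l 4), by decide +kernel⟩

theorem c_pm_011 : CertB 0 536870912 536870912 536870912 1040187392 5207648 3 eng mog cd2q0 cd1q1 pd1 false true false .pnn 0 1 1
    ndB2q0 ndB1q1 pcB1 Cut.none Ext.none :=
  certB0 (fam := false) (s1 := true) (s2 := false) (a := 0) (b := 1) (c := 1) (cn := .pnn) (n1 := ndB2q0) (n2 := ndB1q1) (pc := pcB1) (cut := Cut.none) (xt := Ext.none) (P1 := 0) (W1 := 536870912) (P2 := 536870912) (W2 := 536870912) (P3 := 1040187392) (W3 := 5207648) (N0 := 3) (En := eng) (mo := mog) (C1 := cd2q0) (C2 := cd1q1) (C3 := pd1)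
    rfl k0_pm_011

noncomputable def cut_pm_012_a : Cut := Cut.of [[⟨0, 0, 0, 26843545⟩, ⟨1, 1, 0, 26843545⟩, ⟨2, 1, 0, 26843545⟩]]

noncomputable def xt_pm_012_a : Ext := extD3 3 ⟨4, 1, 1, 5, 33, 5, 163, 200, 81, 200, 1, 64⟩ eng cd2q0 cd1q2a pd1 false true false .pnp 0 1 2 rfl ndB2q0 ndB1q2a pcB1

noncomputable def f_pm_012_a : ℕ → ℕ → ℕ → ℕ → Bool := onCell 536870912 536870912 0 536870912 1040187392 5207648
    (rowB 3 eng mog cd2q0 cd1q2a pd1 2 false true false .pnp 0 1 2 (qsf 0 536870912 0 536870912 1) ndB2q0 ndB1q2a pcB1 cut_pm_012_a xt_pm_012_a)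

def k0_pm_012_a : ∃ t, chk3 f_pm_012_a t 2 1 1 = true :=
  ⟨(b (a (b (l 2) (a (l 2) (b (l 2) (l 14528912)))) (b (a (l 14286824) (l 14417400)) (a (b (l 14244008) (l 14451728)) (b (l 14307232) (l 14162880))))) (b (a (a (l 2) (b (l 14761384) (l 14848168))) (b (a (l 14732920) (l 14737584)) (a (b (l 14902784) (l 14872840)) (b (l 14966600) (l 14983584))))) (b (a (a (b (l 14752208) (l 14713440)) (b (l 14768032) (l 14772960))) (a (a (l 14840640) (l 14905272)) (b (l 14982264) (l 4)))) (a (l 4) (l 4))))), by decide +kernel⟩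

def k1_pm_012_a : ∃ t, chk3 f_pm_012_a t 6 1 1 = true :=
  ⟨(b (b (a (l 14645696) (l 14968080)) (a (b (l 14491808) (a (l 14452520) (l 14538504))) (a (b (l 14711616) (a (l 14624016) (l 14699752))) (l 14863472)))) (b (a (b (l 14769208) (b (a (l 15039624) (l 15085648)) (l 15147128))) (b (a (l 14816176) (b (l 14845384) (l 14950896))) (a (b (l 15128560) (l 15291376)) (a (l 15033656) (l 15279472))))) (b (a (b (l 14923352) (l 4)) (a (b (l 15349616) (l 4)) (a (l 15485456) (l 15635488)))) (l 4)))), by decide +kernel⟩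

def k2_pm_012_a : ∃ t, chk3 f_pm_012_a t 7 1 1 = true :=
  ⟨(b (a (b (l 15377968) (a (l 15062568) (l 15283248))) (b (a (l 15736016) (l 15996480)) (a (l 15524296) (l 15784208)))) (a (b (a (b (b (l 15030584) (a (l 15023512) (l 15112200))) (b (a (l 15201832) (l 15228016)) (a (l 15431816) (l 15467976)))) (b (l 15268496) (a (b (b (l 15255936) (l 15316232)) (l 15491040)) (b (a (l 15358736) (l 15416816)) (b (l 15467448) (l 15576800)))))) (b (a (a (l 198337624567) (a (l 15760160) (l 15787272))) (b (a (l 15730912) (l 15773040)) (l 15962304))) (l 4))) (b (a (b (l 15516808) (a (b (l 15513320) (a (b (l 15532064) (l 15600504)) (b (l 15596328) (l 15644880)))) (l 15684408))) (b (l 15785416) (a (l 15824400) (l 15969424)))) (b (a (b (a (b (l 15729728) (l 15868456)) (a (b (l 15769352) (l 15877968)) (b (l 15826608) (l 15829504)))) (a (b (l 15985464) (l 16097296)) (a (b (l 16017256) (l 16133512)) (l 138216478588207167)))) (a (b (a (l 15819976) (l 16002088)) (a (b (l 15964096) (l 139543932890087487)) (a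 (l 138973836029739135) (l 16061144)))) (b (l 16115864) (a (a (l 16201632) (l 16231704)) (l 16291152))))) (a (b (a (l 4) (l 16252392)) (l 4)) (b (a (b (l 138886081574273087) (l 139889661033988159)) (a (b (l 140427871870664831) (l 140638016259407999)) (b (l 16413152) (a (l 16426904) (l 16526624))))) (a (l 4) (b (a (b (l 141975160031953023) (l 16619224)) (a (l 141952757502640255) (l 6))) (a (l 4) (l 6)))))))))), by decide +kernel⟩

theorem s3_pm_012_a : ∃ t, chk3 f_pm_012_a t 3 1 1 = true := ex3_a k1_pm_012_a k2_pm_012_a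

theorem s4_pm_012_a : ∃ t, chk3 f_pm_012_a t 1 1 1 = true := ex3_a k0_pm_012_a s3_pm_012_a

theorem c_pm_012_a : CertB 0 536870912 0 536870912 1040187392 5207648 3 eng mog cd2q0 cd1q2a pd1 false true false .pnp 0 1 2
    ndB2q0 ndB1q2a pcB1 cut_pm_012_a xt_pm_012_a :=
  certB2 (fam := false) (s1 := true) (s2 := false) (a := 0) (b := 1) (c := 2) (cn := .pnp) (n1 := ndB2q0) (n2 := ndB1q2a) (pc := pcB1) (cut := cut_pm_012_a) (xt := xt_pm_012_a) (P1 := 0) (W1 := 536870912) (P2 := 0) (W2 := 536870912) (P3 := 1040187392) (W3 := 5207648) (N0 := 3) (En := eng) (mo := mog) (C1 := cd2q0) (C2 := cd1q2a) (C3 := pd1)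
    rfl (fun _ => rfl) s4_pm_012_a

noncomputable def cut_pm_012_b : Cut := Cut.of [[⟨0, 0, 0, 26843545⟩, ⟨1, 1, 0, 26843545⟩, ⟨2, 1, 0, 26843545⟩]]

noncomputable def f_pm_012_b : ℕ → ℕ → ℕ → ℕ → Bool := onCell 0 536870912 536870912 536870912 1040187392 5207648
    (rowB 3 eng mog cd2q0 cd1q2b pd1 1 false true false .pnp 0 1 2 (qsf 0 536870912 1239849684 370763052 1) ndB2q0 ndB1q2b pcB1 cut_pm_012_b Ext.none)

def k0_pm_012_b : ∃ t, chk3 f_pm_012_b t 1 1 1 = true :=
  ⟨(a (b (l 1) (b (l 1) (a (l 1) (a (b (l 1) (a (l 16375656) (l 16190488))) (b (l 471940674615) (l 15618032)))))) (b (a (l 1) (b (l 1) (a (l 482139006567) (l 14435688)))) (a (b (a (l 481603488951) (l 273833507271)) (a (b (l 15253456) (l 15125920)) (l 14709992))) (b (a (l 14543816) (l 14260384)) (a (l 14329648) (l 14053072)))))), by decide +kernel⟩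

theorem c_pm_012_b : CertB 0 536870912 1239849684 370763052 1040187392 5207648 3 eng mog cd2q0 cd1q2b pd1 false true false .pnp 0 1 2
    ndB2q0 ndB1q2b pcB1 cut_pm_012_b Ext.none :=
  certB1 (fam := false) (s1 := true) (s2 := false) (a := 0) (b := 1) (c := 2) (cn := .pnp) (n1 := ndB2q0) (n2 := ndB1q2b) (pc := pcB1) (cut := cut_pm_012_b) (xt := Ext.none) (P1 := 0) (W1 := 536870912) (P2 := 1239849684) (W2 := 370763052) (P3 := 1040187392) (W3 := 5207648) (N0 := 3) (En := eng) (mo := mog) (C1 := cd2q0) (C2 := cd1q2b) (C3 := pd1)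
    rfl (fun _ => rfl) k0_pm_012_b

noncomputable def cut_pm_022_a : Cut := Cut.of [[⟨0, 0, 0, 26843545⟩, ⟨1, 1, 0, 26843545⟩, ⟨2, 1, 0, 26843545⟩]]

noncomputable def f_pm_022_a : ℕ → ℕ → ℕ → ℕ → Bool := onCell 0 536870912 0 536870912 1040187392 5207648
    (rowB 3 eng mog cd2q0 cd1q2a pd2 0 false true false .pp 0 2 2 (qsf 0 536870912 0 536870912 2) ndB2q0 ndB1q2a pcB2 cut_pm_022_a Ext.none)

def k0_pm_022_a : ∃ t, chk3 f_pm_022_a t 4 1 1 = true :=
  ⟨(b (a (b (a (b (a (b (a (l 15168744) (l 15245416)) (l 15319776)) (b (l 15314168) (l 15421440))) (a (a (l 15501552) (l 15554064)) (l 15604120))) (b (a (l 15453168) (l 15533440)) (l 15641320))) (a (b (a (b (l 15736304) (l 15879408)) (l 15858304)) (a (b (l 16021312) (l 16160128)) (l 15985600))) (b (a (l 15881888) (l 15890792)) (a (l 16096448) (l 16063360))))) (b (a (b (l 15635984) (l 15749168)) (b (l 15743968) (l 15769904))) (a (b (l 15873120) (l 15871944)) (b (l 15805456) (l 15822592))))) (b (a (a (b (a (b (a (l 16290096) (l 16302616)) (a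 (l 16420400) (l 16421504))) (b (l 16283664) (l 16385136))) (a (b (a (l 16536888) (l 16525216)) (a (l 16593032) (l 16606200))) (b (l 16445992) (l 16526528)))) (b (b (l 16203032) (l 16157232)) (b (a (l 16363640) (l 16242976)) (a (l 16397000) (l 16252960))))) (b (a (b (l 16025904) (l 16040696)) (l 15586424)) (a (b (l 16037520) (l 15932472)) (b (l 15736768) (l 1))))) (a (b (a (a (b (a (b (l 16583024) (l 16586696)) (l 16551712)) (a (b (l 16599032) (a (l 16610880) (l 16629400))) (b (l 16617752) (l 16622504)))) (b (a (l 16596520) (l 16523816)) (a (l 16571016) (l 16528456)))) (b (a (l 16365848) (l 16241712)) (a (b (l 16400992) (l 16390184)) (l 16105176)))) (a (b (b (a (a (b (l 16619944) (l 16636280)) (l 16632688)) (a (l 16610080) (l 16518008))) (a (b (a (a (l 16664184) (l 16686224)) (l 16672936)) (l 6)) (a (l 16580808) (l 16504336)))) (a (l 6) (a (l 6) (l 1)))) (b (a (b (l 16373960) (l 1)) (l 1)) (l 1)))) (b (a (b (a (l 16066192) (l 1)) (l 1)) (l 1)) (l 1))))), by decide +kernel⟩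

def k1_pm_022_a : ∃ t, chk3 f_pm_022_a t 5 1 1 = true :=
  ⟨(b (a (a (b (b (l 15829216) (l 15764320)) (b (l 15711936) (l 15643504))) (b (b (l 1) (l 1)) (l 1))) (l 1)) (b (l 1) (l 1))), by decide +kernel⟩

def k2_pm_022_a : ∃ t, chk3 f_pm_022_a t 3 1 1 = true :=
  ⟨(l 1), by decide +kernel⟩

theorem s3_pm_022_a : ∃ t, chk3 f_pm_022_a t 2 1 1 = true := ex3_a k0_pm_022_a k1_pm_022_a

theorem s4_pm_022_a : ∃ t, chk3 f_pm_022_a t 1 1 1 = true := ex3_a s3_pm_022_a k2_pm_022_a

theorem c_pm_022_a : CertB 0 536870912 0 536870912 1040187392 5207648 3 eng mog cd2q0 cd1q2a pd2 false true false .pp 0 2 2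
    ndB2q0 ndB1q2a pcB2 cut_pm_022_a Ext.none :=
  certB0 (fam := false) (s1 := true) (s2 := false) (a := 0) (b := 2) (c := 2) (cn := .pp) (n1 := ndB2q0) (n2 := ndB1q2a) (pc := pcB2) (cut := cut_pm_022_a) (xt := Ext.none) (P1 := 0) (W1 := 536870912) (P2 := 0) (W2 := 536870912) (P3 := 1040187392) (W3 := 5207648) (N0 := 3) (En := eng) (mo := mog) (C1 := cd2q0) (C2 := cd1q2a) (C3 := pd2)
    rfl s4_pm_022_a

noncomputable def cut_pm_022_b : Cut := Cut.of [[⟨0, 0, 0, 26843545⟩, ⟨1, 1, 0, 26843545⟩, ⟨2, 1, 0, 26843545⟩]]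

noncomputable def f_pm_022_b : ℕ → ℕ → ℕ → ℕ → Bool := onCell 0 536870912 1073741824 536870912 1040187392 5207648
    (rowB 3 eng mog cd2q0 cd1q2b pd2 1 false true false .pp 0 2 2 (qsf 0 536870912 1239849684 370763052 2) ndB2q0 ndB1q2b pcB2 cut_pm_022_b Ext.none)

def k0_pm_022_b : ∃ t, chk3 f_pm_022_b t 1 1 1 = true :=
  ⟨(b (b (a (a (b (a (l 1) (b (a (l 1) (b (l 1) (l 16051888))) (a (l 492878993959) (l 15720408)))) (a (b (a (l 1) (l 488046796007)) (a (a (l 1) (l 15586696)) (a (l 267928983735) (l 15348912)))) (b (a (l 15569744) (l 15346168)) (a (l 15216320) (l 15040544))))) (b (a (b (a (l 15850880) (l 15544824)) (l 15197584)) (b (l 15119104) (l 14839840))) (a (b (l 15023088) (l 14783192)) (b (l 14628512) (l 14468392))))) (b (a (a (l 14509408) (l 14127264)) (l 13718576)) (a (a (l 14235760) (l 13988416)) (l 13741216)))) (a (a (b (a (a (b (a (l 292087866807) (b (l 15268824) (l 15083736))) (a (a (b (l 15021344) (l 14839760)) (b (l 14974352) (l 14827240))) (l 14868584))) (b (l 15063544)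 (l 14811168))) (b (a (l 14934080) (l 14801864)) (l 14679800))) (a (a (b (a (a (l 14659016) (l 14663224)) (l 14657784)) (a (l 14497776) (l 14521624))) (b (l 14634984) (l 14530952))) (a (l 14555360) (l 14526336)))) (b (a (b (l 14604680) (l 14499136)) (l 14338488)) (a (l 14471432) (l 14403848)))) (b (a (a (l 14164976) (l 14034168)) (l 13928912)) (a (l 14327904) (l 2))))) (a (b (a (b (a (a (b (l 14412272) (l 14427344)) (l 14504104)) (b (l 14543264) (l 14624128))) (a (a (b (l 14485664) (l 14603264)) (l 14684792)) (l 14682688))) (b (a (l 14646112) (l 14700064)) (a (l 15035032) (l 15194200)))) (a (b (a (a (b (l 14774536) (l 14993072)) (l 15077104)) (b (l 15184584) (l 15458112))) (a (a (b (l 15251312) (l 15539488)) (l 15416248)) (b (l 15746248) (l 2)))) (b (b (l 15273216) (l 2)) (l 2)))) (b (b (a (l 14778336) (l 2)) (l 2)) (l 2)))), by decide +kernel⟩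

theorem c_pm_022_b : CertB 0 536870912 1239849684 370763052 1040187392 5207648 3 eng mog cd2q0 cd1q2b pd2 false true false .pp 0 2 2
    ndB2q0 ndB1q2b pcB2 cut_pm_022_b Ext.none :=
  certB1 (fam := false) (s1 := true) (s2 := false) (a := 0) (b := 2) (c := 2) (cn := .pp) (n1 := ndB2q0) (n2 := ndB1q2b) (pc := pcB2) (cut := cut_pm_022_b) (xt := Ext.none) (P1 := 0) (W1 := 536870912) (P2 := 1239849684) (W2 := 370763052) (P3 := 1040187392) (W3 := 5207648) (N0 := 3) (En := eng) (mo := mog) (C1 := cd2q0) (C2 := cd1q2b) (C3 := pd2)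
    rfl (fun _ => rfl) k0_pm_022_b

noncomputable def f_pm_023 : ℕ → ℕ → ℕ → ℕ → Bool := onCell 1073741824 536870912 1610612736 536870912 1040187392 5207648
    (rowB 3 eng mog cd2q0 cd1q3 pd2 2 false true false .up 0 2 3 (qsf 0 536870912 1610612736 536870912 2) ndB2q0 ndB1q3 pcB2 Cut.none Ext.none)

def k0_pm_023 : ∃ t, chk3 f_pm_023 t 1 1 1 = true :=
  ⟨(a (a (b (a (b (l 13819152) (l 2)) (b (l 14003192) (l 13902080))) (l 2)) (b (a (b (l 14257480) (l 14162952)) (b (l 14627376) (l 14591472))) (b (a (l 2) (l 14688488)) (l 2)))) (b (a (b (a (b (l 15051656) (l 15080736)) (b (l 15435632) (l 15556896))) (a (l 15117064) (b (l 15660120) (l 15744672)))) (b (a (b (l 15772528) (l 15979992)) (b (a (l 15779888) (l 15445552)) (a (l 15921832) (l 15676248)))) (a (b (l 16061080) (l 16102128)) (l 4)))) (a (b (a (l 15249608) (l 15743488)) (a (l 2) (b (l 16101672) (l 2)))) (a (b (l 4) (b (l 16543984) (l 16525568))) (l 4))))), by decide +kernel⟩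

theorem c_pm_023 : CertB 0 536870912 1610612736 536870912 1040187392 5207648 3 eng mog cd2q0 cd1q3 pd2 false true false .up 0 2 3
    ndB2q0 ndB1q3 pcB2 Cut.none Ext.none :=
  certB2 (fam := false) (s1 := true) (s2 := false) (a := 0) (b := 2) (c := 3) (cn := .up) (n1 := ndB2q0) (n2 := ndB1q3) (pc := pcB2) (cut := Cut.none) (xt := Ext.none) (P1 := 0) (W1 := 536870912) (P2 := 1610612736) (W2 := 536870912) (P3 := 1040187392) (W3 := 5207648) (N0 := 3) (En := eng) (mo := mog) (C1 := cd2q0) (C2 := cd1q3) (C3 := pd2)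
    rfl (fun _ => rfl) k0_pm_023

noncomputable def f_pm_033 : ℕ → ℕ → ℕ → ℕ → Bool := onCell 0 536870912 1610612736 536870912 1040187392 5207648
    (rowB 3 eng mog cd2q0 cd1q3 pd3 1 false true false .pnn 0 3 3 (qsf 0 536870912 1610612736 536870912 3) ndB2q0 ndB1q3 pcB3 Cut.none Ext.none)

def k0_pm_033 : ∃ t, chk3 f_pm_033 t 1 1 1 = true :=
  ⟨(a (b (b (a (b (a (a (l 14975328) (l 15185088)) (l 4)) (l 4)) (l 4)) (l 4)) (a (l 4) (b (l 4) (a (b (l 4) (l 2)) (l 2))))) (b (a (l 4) (b (l 4) (a (b (l 4) (l 2)) (l 2)))) (a (b (a (b (l 4) (l 2)) (l 2)) (l 2)) (l 2)))), by decide +kernel⟩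

theorem c_pm_033 : CertB 0 536870912 1610612736 536870912 1040187392 5207648 3 eng mog cd2q0 cd1q3 pd3 false true false .pnn 0 3 3
    ndB2q0 ndB1q3 pcB3 Cut.none Ext.none :=
  certB1 (fam := false) (s1 := true) (s2 := false) (a := 0) (b := 3) (c := 3) (cn := .pnn) (n1 := ndB2q0) (n2 := ndB1q3) (pc := pcB3) (cut := Cut.none) (xt := Ext.none) (P1 := 0) (W1 := 536870912) (P2 := 1610612736) (W2 := 536870912) (P3 := 1040187392) (W3 := 5207648) (N0 := 3) (En := eng) (mo := mog) (C1 := cd2q0) (C2 := cd1q3) (C3 := pd3)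
    rfl (fun _ => rfl) k0_pm_033

noncomputable def f_pm_101 : ℕ → ℕ → ℕ → ℕ → Bool := onCell 536870912 536870912 536870912 536870912 1040187392 5207648
    (rowB 3 eng mog cd2q1 cd1q1 pd0 0 false true false .npn 1 0 1 (qsf 536870912 536870912 536870912 536870912 0) ndB2q1 ndB1q1 pcB0 Cut.none Ext.none)

def k0_pm_101 : ∃ t, chk3 f_pm_101 t 1 1 1 = true :=
  ⟨(l 4), by decide +kernel⟩

theorem c_pm_101 : CertB 536870912 536870912 536870912 536870912 1040187392 5207648 3 eng mog cd2q1 cd1q1 pd0 false true false .npn 1 0 1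
    ndB2q1 ndB1q1 pcB0 Cut.none Ext.none :=
  certB0 (fam := false) (s1 := true) (s2 := false) (a := 1) (b := 0) (c := 1) (cn := .npn) (n1 := ndB2q1) (n2 := ndB1q1) (pc := pcB0) (cut := Cut.none) (xt := Ext.none) (P1 := 536870912) (W1 := 536870912) (P2 := 536870912) (W2 := 536870912) (P3 := 1040187392) (W3 := 5207648) (N0 := 3) (En := eng) (mo := mog) (C1 := cd2q1) (C2 := cd1q1) (C3 := pd0)
    rfl k0_pm_101

noncomputable def f_pm_102_a : ℕ → ℕ → ℕ → ℕ → Bool := onCell 0 536870912 0 536870912 1040187392 5207648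
    (rowB 3 eng mog cd2q1 cd1q2a pd0 2 false true false .npp 1 0 2 (qsf 536870912 536870912 0 536870912 0) ndB2q1 ndB1q2a pcB0 Cut.none Ext.none)

def k0_pm_102_a : ∃ t, chk3 f_pm_102_a t 1 1 1 = true :=
  ⟨(a (b (a (a (l 2) (a (l 2) (b (l 2) (l 15899696)))) (a (b (a (l 15767904) (l 15396200)) (a (l 15655544) (l 15421112))) (b (a (l 15024984) (l 14655256)) (a (l 15196088) (l 14980648))))) (a (b (a (l 2) (b (a (l 2) (l 15692536)) (a (b (l 15680760) (l 15567496)) (l 15534664)))) (a (b (a (l 2) (l 15452400)) (a (l 15225296) (l 15182432))) (b (l 15361968) (l 15130568)))) (b (a (b (l 15491368) (a (l 15464376) (l 15405456))) (b (l 15274960) (b (l 15359336) (l 15318968)))) (a (b (l 15267312) (l 15078840)) (b (l 15197984) (l 15040800)))))) (b (a (a (b (a (l 14287904) (l 13818608)) (b (l 14530296) (l 14820528))) (b (a (b (l 13358472) (l 13765600)) (b (b (b (l 12829920) (l 12894312)) (l 13078904)) (l 13451856))) (b (a (l 14180400) (l 13956256)) (l 14512584)))) (b (a (b (a (b (a (l 12610504) (l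 12527504)) (l 12701048)) (b (l 12452776) (b (l 12294280) (l 12410352)))) (a (l 13142632) (l 12837496))) (b (b (l 12417584) (a (b (l 12143928) (l 12098432)) (l 12051064))) (a (l 12535848) (b (b (l 11953056) (l 12126992)) (l 12457072))))) (a (b (a (l 13738976) (l 13527832)) (a (l 14343832) (l 14226576))) (b (a (l 13321944) (l 13120248)) (a (l 14115824) (l 14010192)))))) (b (a (b (a (l 15115568) (l 15007160)) (b (a (l 15300184) (l 15253752)) (l 15238472))) (a (b (l 14899440) (a (l 15234576) (l 15237104))) (a (b (l 14915760) (l 15244704)) (b (l 14904640) (l 15257016))))) (a (a (b (l 15146544) (l 15011768)) (b (l 15105248) (a (l 14990264) (l 14977312)))) (a (b (l 15065752) (b (l 14959656) (l 4))) (b (a (l 15032232) (l 15008240)) (a (l 14941712) (l 4)))))))), by decide +kernel⟩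

theorem c_pm_102_a : CertB 536870912 536870912 0 536870912 1040187392 5207648 3 eng mog cd2q1 cd1q2a pd0 false true false .npp 1 0 2
    ndB2q1 ndB1q2a pcB0 Cut.none Ext.none :=
  certB2 (fam := false) (s1 := true) (s2 := false) (a := 1) (b := 0) (c := 2) (cn := .npp) (n1 := ndB2q1) (n2 := ndB1q2a) (pc := pcB0) (cut := Cut.none) (xt := Ext.none) (P1 := 536870912) (W1 := 536870912) (P2 := 0) (W2 := 536870912) (P3 := 1040187392) (W3 := 5207648) (N0 := 3) (En := eng) (mo := mog) (C1 := cd2q1) (C2 := cd1q2a) (C3 := pd0)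
    rfl (fun _ => rfl) k0_pm_102_a

noncomputable def f_pm_102_b : ℕ → ℕ → ℕ → ℕ → Bool := onCell 0 536870912 1239849684 370763052 1040187392 5207648
    (rowB 3 eng mog cd2q1 cd1q2b pd0 2 false true false .npp 1 0 2 (qsf 536870912 536870912 1239849684 370763052 0) ndB2q1 ndB1q2b pcB0 Cut.none Ext.none)

def k0_pm_102_b : ∃ t, chk3 f_pm_102_b t 1 1 1 = true :=
  ⟨(a (b (a (l 2) (b (a (a (a (l 2) (l 15759208)) (l 15383448)) (a (b (l 14937208) (l 14937600)) (b (l 14480416) (a (l 14578392) (l 14343792))))) (a (l 2) (b (a (l 2) (b (l 14554880) (l 2))) (l 2))))) (l 2)) (a (a (b (b (a (b (l 14023736) (b (l 13990848) (l 14018072))) (b (l 13573904) (b (l 13565808) (l 13670728)))) (a (b (l 14295680) (l 2)) (b (l 13957240) (l 14405176)))) (l 2)) (b (b (b (a (b (l 13150896) (l 13174472)) (l 12917824)) (a (l 13343680) (l 13139168))) (a (b (l 13667496) (l 14066272)) (l 13609176))) (b (a (b (l 14551912) (l 2)) (b (l 14206704) (l 14726336))) (l 2)))) (b (a (b (b (l 12744320) (l 12915976)) (b (l 13143664)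 (l 13432360))) (b (a (b (l 12652656) (l 12772480)) (l 12688576)) (b (l 12903904) (l 13111872)))) (b (a (b (l 13789528) (a (l 14370936) (l 14064888))) (b (l 13377576) (l 13707032))) (a (b (a (l 2) (l 14552376)) (l 2)) (a (b (l 14235824) (l 14757312)) (l 14208920))))))), by decide +kernel⟩

theorem c_pm_102_b : CertB 536870912 536870912 1239849684 370763052 1040187392 5207648 3 eng mog cd2q1 cd1q2b pd0 false true false .npp 1 0 2
    ndB2q1 ndB1q2b pcB0 Cut.none Ext.none :=
  certB2 (fam := false) (s1 := true) (s2 := false) (a := 1) (b := 0) (c := 2) (cn := .npp) (n1 := ndB2q1) (n2 := ndB1q2b) (pc := pcB0) (cut := Cut.none) (xt := Ext.none) (P1 := 536870912) (W1 := 536870912) (P2 := 1239849684) (W2 := 370763052) (P3 := 1040187392) (W3 := 5207648) (N0 := 3) (En := eng) (mo := mog) (C1 := cd2q1) (C2 := cd1q2b) (C3 := pd0)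
    rfl (fun _ => rfl) k0_pm_102_b

noncomputable def f_pm_112_a : ℕ → ℕ → ℕ → ℕ → Bool := onCell 536870912 536870912 0 536870912 1040187392 5207648
    (rowB 3 eng mog cd2q1 cd1q2a pd1 2 false true false .dn 1 1 2 (qsf 536870912 536870912 0 536870912 1) ndB2q1 ndB1q2a pcB1 Cut.none Ext.none)

def k0_pm_112_a : ∃ t, chk3 f_pm_112_a t 1 1 1 = true :=
  ⟨(a (b (a (b (a (b (l 14581624) (l 14577064)) (l 14498560)) (a (l 14794416) (l 14619944))) (b (l 14430560) (a (b (l 14371656) (l 14553448)) (l 1)))) (a (b (b (a (l 15056464) (l 14935880)) (a (l 15075432) (l 14986640))) (b (a (l 14922144) (l 14859064)) (l 4))) (b (l 1) (l 1)))) (l 1)), by decide +kernel⟩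

theorem c_pm_112_a : CertB 536870912 536870912 0 536870912 1040187392 5207648 3 eng mog cd2q1 cd1q2a pd1 false true false .dn 1 1 2
    ndB2q1 ndB1q2a pcB1 Cut.none Ext.none :=
  certB2 (fam := false) (s1 := true) (s2 := false) (a := 1) (b := 1) (c := 2) (cn := .dn) (n1 := ndB2q1) (n2 := ndB1q2a) (pc := pcB1) (cut := Cut.none) (xt := Ext.none) (P1 := 536870912) (W1 := 536870912) (P2 := 0) (W2 := 536870912) (P3 := 1040187392) (W3 := 5207648) (N0 := 3) (En := eng) (mo := mog) (C1 := cd2q1) (C2 := cd1q2a) (C3 := pd1)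
    rfl (fun _ => rfl) k0_pm_112_a

noncomputable def f_pm_112_b : ℕ → ℕ → ℕ → ℕ → Bool := onCell 536870912 536870912 1239849684 370763052 1040187392 5207648
    (rowB 3 eng mog cd2q1 cd1q2b pd1 2 false true false .dn 1 1 2 (qsf 536870912 536870912 1239849684 370763052 1) ndB2q1 ndB1q2b pcB1 Cut.none Ext.none)

def k0_pm_112_b : ∃ t, chk3 f_pm_112_b t 1 1 1 = true :=
  ⟨(a (b (a (b (l 14555880) (l 14548784)) (b (l 14478104) (l 14392768))) (a (l 14663824) (l 14411248))) (b (a (l 415566519335) (l 1)) (a (l 14249080) (l 14173048)))), by decide +kernel⟩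

theorem c_pm_112_b : CertB 536870912 536870912 1239849684 370763052 1040187392 5207648 3 eng mog cd2q1 cd1q2b pd1 false true false .dn 1 1 2
    ndB2q1 ndB1q2b pcB1 Cut.none Ext.none :=
  certB2 (fam := false) (s1 := true) (s2 := false) (a := 1) (b := 1) (c := 2) (cn := .dn) (n1 := ndB2q1) (n2 := ndB1q2b) (pc := pcB1) (cut := Cut.none) (xt := Ext.none) (P1 := 536870912) (W1 := 536870912) (P2 := 1239849684) (W2 := 370763052) (P3 := 1040187392) (W3 := 5207648) (N0 := 3) (En := eng) (mo := mog) (C1 := cd2q1) (C2 := cd1q2b) (C3 := pd1)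
    rfl (fun _ => rfl) k0_pm_112_b

noncomputable def f_pm_113 : ℕ → ℕ → ℕ → ℕ → Bool := onCell 536870912 536870912 536870912 536870912 1040187392 5207648
    (rowB 3 eng mog cd2q1 cd1q3 pd1 1 false true false .nn 1 1 3 (qsf 536870912 536870912 1610612736 536870912 1) ndB2q1 ndB1q3 pcB1 Cut.none Ext.none)

def k0_pm_113 : ∃ t, chk3 f_pm_113 t 1 1 1 = true :=
  ⟨(b (a (b (l 1) (a (l 1) (l 14370008))) (b (a (l 14465744) (b (l 14554400) (l 14545880))) (a (l 14400200) (a (l 14524816) (l 14703752))))) (a (b (a (l 14374872) (l 14321568)) (a (l 14300248) (l 14275952))) (b (a (l 14427312) (a (l 14653064) (l 14924128))) (a (l 14262584) (a (l 14853768) (b (l 15216104) (l 15684768))))))), by decide +kernel⟩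

theorem c_pm_113 : CertB 536870912 536870912 1610612736 536870912 1040187392 5207648 3 eng mog cd2q1 cd1q3 pd1 false true false .nn 1 1 3
    ndB2q1 ndB1q3 pcB1 Cut.none Ext.none :=
  certB1 (fam := false) (s1 := true) (s2 := false) (a := 1) (b := 1) (c := 3) (cn := .nn) (n1 := ndB2q1) (n2 := ndB1q3) (pc := pcB1) (cut := Cut.none) (xt := Ext.none) (P1 := 536870912) (W1 := 536870912) (P2 := 1610612736) (W2 := 536870912) (P3 := 1040187392) (W3 := 5207648) (N0 := 3) (En := eng) (mo := mog) (C1 := cd2q1) (C2 := cd1q3) (C3 := pd1)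
    rfl (fun _ => rfl) k0_pm_113

noncomputable def f_pm_123 : ℕ → ℕ → ℕ → ℕ → Bool := onCell 1073741824 536870912 1610612736 536870912 1040187392 5207648
    (rowB 3 eng mog cd2q1 cd1q3 pd2 2 false true false .npn 1 2 3 (qsf 536870912 536870912 1610612736 536870912 2) ndB2q1 ndB1q3 pcB2 Cut.none Ext.none)

def k0_pm_123 : ∃ t, chk3 f_pm_123 t 1 1 1 = true :=
  ⟨(a (a (b (a (b (l 13978992) (l 13937000)) (b (l 14062912) (l 14012712))) (b (a (l 14130536) (l 14105600)) (a (b (l 15039096) (l 15431496)) (b (l 14426880) (l 14629344))))) (b (a (b (l 14233784) (l 14219608)) (b (l 1) (l 14606096))) (b (a (l 14277872) (l 14662760)) (a (b (l 14497168) (l 14829536)) (l 14769376))))) (b (a (a (b (l 1) (l 15115216)) (l 1)) (l 1)) (a (b (a (l 15208432) (l 15841528)) (a (b (l 15328096) (l 15465800)) (b (l 15982112) (l 16091576)))) (a (b (l 4) (b (l 16458072) (l 16654080))) (l 4))))), by decide +kernel⟩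

theorem c_pm_123 : CertB 536870912 536870912 1610612736 536870912 1040187392 5207648 3 eng mog cd2q1 cd1q3 pd2 false true false .npn 1 2 3
    ndB2q1 ndB1q3 pcB2 Cut.none Ext.none :=
  certB2 (fam := false) (s1 := true) (s2 := false) (a := 1) (b := 2) (c := 3) (cn := .npn) (n1 := ndB2q1) (n2 := ndB1q3) (pc := pcB2) (cut := Cut.none) (xt := Ext.none) (P1 := 536870912) (W1 := 536870912) (P2 := 1610612736) (W2 := 536870912) (P3 := 1040187392) (W3 := 5207648) (N0 := 3) (En := eng) (mo := mog) (C1 := cd2q1) (C2 := cd1q3) (C3 := pd2)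
    rfl (fun _ => rfl) k0_pm_123

noncomputable def f_pm_133 : ℕ → ℕ → ℕ → ℕ → Bool := onCell 1610612736 536870912 1610612736 536870912 1040187392 5207648
    (rowB 3 eng mog cd2q1 cd1q3 pd3 2 false true false .dn 1 3 3 (qsf 536870912 536870912 1610612736 536870912 3) ndB2q1 ndB1q3 pcB3 Cut.none Ext.none)

def k0_pm_133 : ∃ t, chk3 f_pm_133 t 1 1 1 = true :=
  ⟨(a (b (l 1) (l 4)) (l 1)), by decide +kernel⟩

theorem c_pm_133 : CertB 536870912 536870912 1610612736 536870912 1040187392 5207648 3 eng mog cd2q1 cd1q3 pd3 false true false .dn 1 3 3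
    ndB2q1 ndB1q3 pcB3 Cut.none Ext.none :=
  certB2 (fam := false) (s1 := true) (s2 := false) (a := 1) (b := 3) (c := 3) (cn := .dn) (n1 := ndB2q1) (n2 := ndB1q3) (pc := pcB3) (cut := Cut.none) (xt := Ext.none) (P1 := 536870912) (W1 := 536870912) (P2 := 1610612736) (W2 := 536870912) (P3 := 1040187392) (W3 := 5207648) (N0 := 3) (En := eng) (mo := mog) (C1 := cd2q1) (C2 := cd1q3) (C3 := pd3)
    rfl (fun _ => rfl) k0_pm_133

noncomputable def cut_pm_202_aa : Cut := Cut.of [[⟨0, 1, 0, 26843545⟩, ⟨1, 0, 0, 26843545⟩, ⟨2, 1, 0, 26843545⟩]]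

noncomputable def f_pm_202_aa : ℕ → ℕ → ℕ → ℕ → Bool := onCell 0 536870912 0 536870912 1040187392 5207648
    (rowB 3 eng mog cd2q2a cd1q2a pd0 0 false true false .pp 2 0 2 (qsf 0 536870912 0 536870912 0) ndB2q2a ndB1q2a pcB0 cut_pm_202_aa Ext.none)

def k0_pm_202_aa : ∃ t, chk3 f_pm_202_aa t 1 1 1 = true :=
  ⟨(a (l 3) (b (l 3) (a (l 3) (b (l 3) (a (l 3) (b (l 3) (a (l 3) (b (l 3) (l 6))))))))), by decide +kernel⟩

theorem c_pm_202_aa : CertB 0 536870912 0 536870912 1040187392 5207648 3 eng mog cd2q2a cd1q2a pd0 false true false .pp 2 0 2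
    ndB2q2a ndB1q2a pcB0 cut_pm_202_aa Ext.none :=
  certB0 (fam := false) (s1 := true) (s2 := false) (a := 2) (b := 0) (c := 2) (cn := .pp) (n1 := ndB2q2a) (n2 := ndB1q2a) (pc := pcB0) (cut := cut_pm_202_aa) (xt := Ext.none) (P1 := 0) (W1 := 536870912) (P2 := 0) (W2 := 536870912) (P3 := 1040187392) (W3 := 5207648) (N0 := 3) (En := eng) (mo := mog) (C1 := cd2q2a) (C2 := cd1q2a) (C3 := pd0)
    rfl k0_pm_202_aa

noncomputable def cut_pm_202_ab : Cut := Cut.of [[⟨0, 1, 0, 26843545⟩, ⟨1, 0, 0, 26843545⟩, ⟨2, 1, 0, 26843545⟩]]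

noncomputable def f_pm_202_ab : ℕ → ℕ → ℕ → ℕ → Bool := onCell 0 536870912 1239849684 370763052 1040187392 5207648
    (rowB 3 eng mog cd2q2a cd1q2b pd0 0 false true false .pp 2 0 2 (qsf 0 536870912 1239849684 370763052 0) ndB2q2a ndB1q2b pcB0 cut_pm_202_ab Ext.none)

def k0_pm_202_ab : ∃ t, chk3 f_pm_202_ab t 1 1 1 = true :=
  ⟨(l 3), by decide +kernel⟩

theorem c_pm_202_ab : CertB 0 536870912 1239849684 370763052 1040187392 5207648 3 eng mog cd2q2a cd1q2b pd0 false true false .pp 2 0 2
    ndB2q2a ndB1q2b pcB0 cut_pm_202_ab Ext.none :=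
  certB0 (fam := false) (s1 := true) (s2 := false) (a := 2) (b := 0) (c := 2) (cn := .pp) (n1 := ndB2q2a) (n2 := ndB1q2b) (pc := pcB0) (cut := cut_pm_202_ab) (xt := Ext.none) (P1 := 0) (W1 := 536870912) (P2 := 1239849684) (W2 := 370763052) (P3 := 1040187392) (W3 := 5207648) (N0 := 3) (En := eng) (mo := mog) (C1 := cd2q2a) (C2 := cd1q2b) (C3 := pd0)
    rfl k0_pm_202_ab

noncomputable def cut_pm_202_ba : Cut := Cut.of [[⟨0, 1, 0, 26843545⟩, ⟨1, 0, 0, 26843545⟩, ⟨2, 1, 0, 26843545⟩]]

noncomputable def f_pm_202_ba : ℕ → ℕ → ℕ → ℕ → Bool := onCell 1239849684 370763052 0 536870912 1040187392 5207648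
    (rowB 3 eng mog cd2q2b cd1q2a pd0 0 false true false .pp 2 0 2 (qsf 1239849684 370763052 0 536870912 0) ndB2q2b ndB1q2a pcB0 cut_pm_202_ba Ext.none)

def k0_pm_202_ba : ∃ t, chk3 f_pm_202_ba t 1 1 1 = true :=
  ⟨(l 3), by decide +kernel⟩

theorem c_pm_202_ba : CertB 1239849684 370763052 0 536870912 1040187392 5207648 3 eng mog cd2q2b cd1q2a pd0 false true false .pp 2 0 2
    ndB2q2b ndB1q2a pcB0 cut_pm_202_ba Ext.none :=
  certB0 (fam := false) (s1 := true) (s2 := false) (a := 2) (b := 0) (c := 2) (cn := .pp) (n1 := ndB2q2b) (n2 := ndB1q2a) (pc := pcB0) (cut := cut_pm_202_ba) (xt := Ext.none) (P1 := 1239849684) (W1 := 370763052) (P2 := 0) (W2 := 536870912) (P3 := 1040187392) (W3 := 5207648) (N0 := 3) (En := eng) (mo := mog) (C1 := cd2q2b) (C2 := cd1q2a) (C3 := pd0)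
    rfl k0_pm_202_ba

noncomputable def cut_pm_202_bb : Cut := Cut.of [[⟨0, 1, 0, 26843545⟩, ⟨1, 0, 0, 26843545⟩, ⟨2, 1, 0, 26843545⟩]]

noncomputable def f_pm_202_bb : ℕ → ℕ → ℕ → ℕ → Bool := onCell 1239849684 370763052 1239849684 370763052 1040187392 5207648
    (rowB 3 eng mog cd2q2b cd1q2b pd0 0 false true false .pp 2 0 2 (qsf 1239849684 370763052 1239849684 370763052 0) ndB2q2b ndB1q2b pcB0 cut_pm_202_bb Ext.none)

def k0_pm_202_bb : ∃ t, chk3 f_pm_202_bb t 1 1 1 = true :=
  ⟨(l 3), by decide +kernel⟩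

theorem c_pm_202_bb : CertB 1239849684 370763052 1239849684 370763052 1040187392 5207648 3 eng mog cd2q2b cd1q2b pd0 false true false .pp 2 0 2
    ndB2q2b ndB1q2b pcB0 cut_pm_202_bb Ext.none :=
  certB0 (fam := false) (s1 := true) (s2 := false) (a := 2) (b := 0) (c := 2) (cn := .pp) (n1 := ndB2q2b) (n2 := ndB1q2b) (pc := pcB0) (cut := cut_pm_202_bb) (xt := Ext.none) (P1 := 1239849684) (W1 := 370763052) (P2 := 1239849684) (W2 := 370763052) (P3 := 1040187392) (W3 := 5207648) (N0 := 3) (En := eng) (mo := mog) (C1 := cd2q2b) (C2 := cd1q2b) (C3 := pd0)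
    rfl k0_pm_202_bb

noncomputable def f_pm_203_a : ℕ → ℕ → ℕ → ℕ → Bool := onCell 0 536870912 0 536870912 1040187392 5207648
    (rowB 3 eng mog cd2q2a cd1q3 pd0 1 false true false .up 2 0 3 (qsf 0 536870912 1610612736 536870912 0) ndB2q2a ndB1q3 pcB0 Cut.none Ext.none)

def k0_pm_203_a : ∃ t, chk3 f_pm_203_a t 1 1 1 = true :=
  ⟨(l 3), by decide +kernel⟩

theorem c_pm_203_a : CertB 0 536870912 1610612736 536870912 1040187392 5207648 3 eng mog cd2q2a cd1q3 pd0 false true false .up 2 0 3
    ndB2q2a ndB1q3 pcB0 Cut.none Ext.none :=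
  certB1 (fam := false) (s1 := true) (s2 := false) (a := 2) (b := 0) (c := 3) (cn := .up) (n1 := ndB2q2a) (n2 := ndB1q3) (pc := pcB0) (cut := Cut.none) (xt := Ext.none) (P1 := 0) (W1 := 536870912) (P2 := 1610612736) (W2 := 536870912) (P3 := 1040187392) (W3 := 5207648) (N0 := 3) (En := eng) (mo := mog) (C1 := cd2q2a) (C2 := cd1q3) (C3 := pd0)
    rfl (fun _ => rfl) k0_pm_203_a

noncomputable def f_pm_203_b : ℕ → ℕ → ℕ → ℕ → Bool := onCell 1239849684 370763052 1610612736 536870912 1040187392 5207648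
    (rowB 3 eng mog cd2q2b cd1q3 pd0 0 false true false .up 2 0 3 (qsf 1239849684 370763052 1610612736 536870912 0) ndB2q2b ndB1q3 pcB0 Cut.none Ext.none)

def k0_pm_203_b : ∃ t, chk3 f_pm_203_b t 1 1 1 = true :=
  ⟨(l 3), by decide +kernel⟩

theorem c_pm_203_b : CertB 1239849684 370763052 1610612736 536870912 1040187392 5207648 3 eng mog cd2q2b cd1q3 pd0 false true false .up 2 0 3
    ndB2q2b ndB1q3 pcB0 Cut.none Ext.none :=
  certB0 (fam := false) (s1 := true) (s2 := false) (a := 2) (b := 0) (c := 3) (cn := .up) (n1 := ndB2q2b) (n2 := ndB1q3) (pc := pcB0) (cut := Cut.none) (xt := Ext.none) (P1 := 1239849684) (W1 := 370763052) (P2 := 1610612736) (W2 := 536870912) (P3 := 1040187392) (W3 := 5207648) (N0 := 3) (En := eng) (mo := mog) (C1 := cd2q2b) (C2 := cd1q3) (C3 := pd0)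
    rfl k0_pm_203_b

noncomputable def cut_pm_213_a : Cut := Cut.of [[⟨0, 1, 0, 15728640⟩, ⟨1, 1, 0, 15728640⟩, ⟨2, 2, 0, 524288⟩]]

noncomputable def f_pm_213_a : ℕ → ℕ → ℕ → ℕ → Bool := onCell 0 536870912 1610612736 536870912 1040187392 5207648
    (rowB 3 eng mog cd2q2a cd1q3 pd1 0 false true false .pnn 2 1 3 (qsf 0 536870912 1610612736 536870912 1) ndB2q2a ndB1q3 pcB1 cut_pm_213_a Ext.none)

def k0_pm_213_a : ∃ t, chk3 f_pm_213_a t 1 1 1 = true :=
  ⟨(a (l 3) (b (l 3) (b (l 3) (a (l 3) (b (l 3) (a (l 3) (b (l 3) (a (l 3) (b (l 3) (a (l 3) (b (l 3) (a (l 3) (b (l 3) (b (l 3) (b (l 3) (b (l 3) (b (l 3) (l 6)))))))))))))))))), by decide +kernel⟩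

theorem c_pm_213_a : CertB 0 536870912 1610612736 536870912 1040187392 5207648 3 eng mog cd2q2a cd1q3 pd1 false true false .pnn 2 1 3
    ndB2q2a ndB1q3 pcB1 cut_pm_213_a Ext.none :=
  certB0 (fam := false) (s1 := true) (s2 := false) (a := 2) (b := 1) (c := 3) (cn := .pnn) (n1 := ndB2q2a) (n2 := ndB1q3) (pc := pcB1) (cut := cut_pm_213_a) (xt := Ext.none) (P1 := 0) (W1 := 536870912) (P2 := 1610612736) (W2 := 536870912) (P3 := 1040187392) (W3 := 5207648) (N0 := 3) (En := eng) (mo := mog) (C1 := cd2q2a) (C2 := cd1q3) (C3 := pd1)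
    rfl k0_pm_213_a

noncomputable def cut_pm_213_b : Cut := Cut.of [[⟨0, 1, 0, 15728640⟩, ⟨1, 1, 0, 15728640⟩, ⟨2, 2, 0, 524288⟩]]

noncomputable def f_pm_213_b : ℕ → ℕ → ℕ → ℕ → Bool := onCell 1239849684 370763052 1610612736 536870912 1040187392 5207648
    (rowB 3 eng mog cd2q2b cd1q3 pd1 0 false true false .pnn 2 1 3 (qsf 1239849684 370763052 1610612736 536870912 1) ndB2q2b ndB1q3 pcB1 cut_pm_213_b Ext.none)

def k0_pm_213_b : ∃ t, chk3 f_pm_213_b t 1 1 1 = true :=
  ⟨(l 3), by decide +kernel⟩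

theorem c_pm_213_b : CertB 1239849684 370763052 1610612736 536870912 1040187392 5207648 3 eng mog cd2q2b cd1q3 pd1 false true false .pnn 2 1 3
    ndB2q2b ndB1q3 pcB1 cut_pm_213_b Ext.none :=
  certB0 (fam := false) (s1 := true) (s2 := false) (a := 2) (b := 1) (c := 3) (cn := .pnn) (n1 := ndB2q2b) (n2 := ndB1q3) (pc := pcB1) (cut := cut_pm_213_b) (xt := Ext.none) (P1 := 1239849684) (W1 := 370763052) (P2 := 1610612736) (W2 := 536870912) (P3 := 1040187392) (W3 := 5207648) (N0 := 3) (En := eng) (mo := mog) (C1 := cd2q2b) (C2 := cd1q3) (C3 := pd1)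
    rfl k0_pm_213_b

noncomputable def f_pm_303 : ℕ → ℕ → ℕ → ℕ → Bool := onCell 1610612736 536870912 1610612736 536870912 1040187392 5207648
    (rowB 3 eng mog cd2q3 cd1q3 pd0 0 false true false .npn 3 0 3 (qsf 1610612736 536870912 1610612736 536870912 0) ndB2q3 ndB1q3 pcB0 Cut.none Ext.none)

def k0_pm_303 : ∃ t, chk3 f_pm_303 t 1 1 1 = true :=
  ⟨(l 3), by decide +kernel⟩

theorem c_pm_303 : CertB 1610612736 536870912 1610612736 536870912 1040187392 5207648 3 eng mog cd2q3 cd1q3 pd0 false true false .npn 3 0 3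
    ndB2q3 ndB1q3 pcB0 Cut.none Ext.none :=
  certB0 (fam := false) (s1 := true) (s2 := false) (a := 3) (b := 0) (c := 3) (cn := .npn) (n1 := ndB2q3) (n2 := ndB1q3) (pc := pcB0) (cut := Cut.none) (xt := Ext.none) (P1 := 1610612736) (W1 := 536870912) (P2 := 1610612736) (W2 := 536870912) (P3 := 1040187392) (W3 := 5207648) (N0 := 3) (En := eng) (mo := mog) (C1 := cd2q3) (C2 := cd1q3) (C3 := pd0)
    rfl k0_pm_303

noncomputable def f_pm_313 : ℕ → ℕ → ℕ → ℕ → Bool := onCell 1610612736 536870912 1610612736 536870912 1040187392 5207648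
    (rowB 3 eng mog cd2q3 cd1q3 pd1 0 false true false .dn 3 1 3 (qsf 1610612736 536870912 1610612736 536870912 1) ndB2q3 ndB1q3 pcB1 Cut.none Ext.none)

def k0_pm_313 : ∃ t, chk3 f_pm_313 t 1 1 1 = true :=
  ⟨(l 3), by decide +kernel⟩

theorem c_pm_313 : CertB 1610612736 536870912 1610612736 536870912 1040187392 5207648 3 eng mog cd2q3 cd1q3 pd1 false true false .dn 3 1 3
    ndB2q3 ndB1q3 pcB1 Cut.none Ext.none :=
  certB0 (fam := false) (s1 := true) (s2 := false) (a := 3) (b := 1) (c := 3) (cn := .dn) (n1 := ndB2q3) (n2 := ndB1q3) (pc := pcB1) (cut := Cut.none) (xt := Ext.none) (P1 := 1610612736) (W1 := 536870912) (P2 := 1610612736) (W2 := 536870912) (P3 := 1040187392) (W3 := 5207648) (N0 := 3) (En := eng) (mo := mog) (C1 := cd2q3) (C2 := cd1q3) (C3 := pd1)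
    rfl k0_pm_313

noncomputable def f_mm_001 : ℕ → ℕ → ℕ → ℕ → Bool := onCell 0 536870912 536870912 536870912 1040187392 5207648
    (rowB 3 eng mog cd2q0 cd1q1 pd0 0 false false false .up 0 0 1 (qsf 0 536870912 536870912 536870912 0) ndB2q0 ndB1q1 pcB0 Cut.none Ext.none)

def k0_mm_001 : ∃ t, chk3 f_mm_001 t 1 1 1 = true :=
  ⟨(l 5), by decide +kernel⟩

theorem c_mm_001 : CertB 0 536870912 536870912 536870912 1040187392 5207648 3 eng mog cd2q0 cd1q1 pd0 false false false .up 0 0 1
    ndB2q0 ndB1q1 pcB0 Cut.none Ext.none :=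
  certB0 (fam := false) (s1 := false) (s2 := false) (a := 0) (b := 0) (c := 1) (cn := .up) (n1 := ndB2q0) (n2 := ndB1q1) (pc := pcB0) (cut := Cut.none) (xt := Ext.none) (P1 := 0) (W1 := 536870912) (P2 := 536870912) (W2 := 536870912) (P3 := 1040187392) (W3 := 5207648) (N0 := 3) (En := eng) (mo := mog) (C1 := cd2q0) (C2 := cd1q1) (C3 := pd0)
    rfl k0_mm_001

noncomputable def f_mm_011 : ℕ → ℕ → ℕ → ℕ → Bool := onCell 0 536870912 536870912 536870912 1040187392 5207648
    (rowB 3 eng mog cd2q0 cd1q1 pd1 0 false false false .pnn 0 1 1 (qsf 0 536870912 536870912 536870912 1) ndB2q0 ndB1q1 pcB1 Cut.none Ext.none)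

def k0_mm_011 : ∃ t, chk3 f_mm_011 t 1 1 1 = true :=
  ⟨(l 5), by decide +kernel⟩

theorem c_mm_011 : CertB 0 536870912 536870912 536870912 1040187392 5207648 3 eng mog cd2q0 cd1q1 pd1 false false false .pnn 0 1 1
    ndB2q0 ndB1q1 pcB1 Cut.none Ext.none :=
  certB0 (fam := false) (s1 := false) (s2 := false) (a := 0) (b := 1) (c := 1) (cn := .pnn) (n1 := ndB2q0) (n2 := ndB1q1) (pc := pcB1) (cut := Cut.none) (xt := Ext.none) (P1 := 0) (W1 := 536870912) (P2 := 536870912) (W2 := 536870912) (P3 := 1040187392) (W3 := 5207648) (N0 := 3) (En := eng) (mo := mog) (C1 := cd2q0) (C2 := cd1q1) (C3 := pd1)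
    rfl k0_mm_011

noncomputable def f_mm_012_a : ℕ → ℕ → ℕ → ℕ → Bool := onCell 0 536870912 0 536870912 1040187392 5207648
    (rowB 3 eng mog cd2q0 cd1q2a pd1 0 false false false .pnp 0 1 2 (qsf 0 536870912 0 536870912 1) ndB2q0 ndB1q2a pcB1 Cut.none Ext.none)

def k0_mm_012_a : ∃ t, chk3 f_mm_012_a t 1 1 1 = true :=
  ⟨(l 5), by decide +kernel⟩

theorem c_mm_012_a : CertB 0 536870912 0 536870912 1040187392 5207648 3 eng mog cd2q0 cd1q2a pd1 false false false .pnp 0 1 2
    ndB2q0 ndB1q2a pcB1 Cut.none Ext.none :=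
  certB0 (fam := false) (s1 := false) (s2 := false) (a := 0) (b := 1) (c := 2) (cn := .pnp) (n1 := ndB2q0) (n2 := ndB1q2a) (pc := pcB1) (cut := Cut.none) (xt := Ext.none) (P1 := 0) (W1 := 536870912) (P2 := 0) (W2 := 536870912) (P3 := 1040187392) (W3 := 5207648) (N0 := 3) (En := eng) (mo := mog) (C1 := cd2q0) (C2 := cd1q2a) (C3 := pd1)
    rfl k0_mm_012_a

noncomputable def f_mm_012_b : ℕ → ℕ → ℕ → ℕ → Bool := onCell 0 536870912 1239849684 370763052 1040187392 5207648
    (rowB 3 eng mog cd2q0 cd1q2b pd1 0 false false false .pnp 0 1 2 (qsf 0 536870912 1239849684 370763052 1) ndB2q0 ndB1q2b pcB1 Cut.none Ext.none)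

def k0_mm_012_b : ∃ t, chk3 f_mm_012_b t 1 1 1 = true :=
  ⟨(l 5), by decide +kernel⟩

theorem c_mm_012_b : CertB 0 536870912 1239849684 370763052 1040187392 5207648 3 eng mog cd2q0 cd1q2b pd1 false false false .pnp 0 1 2
    ndB2q0 ndB1q2b pcB1 Cut.none Ext.none :=
  certB0 (fam := false) (s1 := false) (s2 := false) (a := 0) (b := 1) (c := 2) (cn := .pnp) (n1 := ndB2q0) (n2 := ndB1q2b) (pc := pcB1) (cut := Cut.none) (xt := Ext.none) (P1 := 0) (W1 := 536870912) (P2 := 1239849684) (W2 := 370763052) (P3 := 1040187392) (W3 := 5207648) (N0 := 3) (En := eng) (mo := mog) (C1 := cd2q0) (C2 := cd1q2b) (C3 := pd1)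
    rfl k0_mm_012_b

noncomputable def f_mm_022_a : ℕ → ℕ → ℕ → ℕ → Bool := onCell 0 536870912 0 536870912 1040187392 5207648
    (rowB 3 eng mog cd2q0 cd1q2a pd2 0 false false false .pp 0 2 2 (qsf 0 536870912 0 536870912 2) ndB2q0 ndB1q2a pcB2 Cut.none Ext.none)

def k0_mm_022_a : ∃ t, chk3 f_mm_022_a t 1 1 1 = true :=
  ⟨(l 5), by decide +kernel⟩

theorem c_mm_022_a : CertB 0 536870912 0 536870912 1040187392 5207648 3 eng mog cd2q0 cd1q2a pd2 false false false .pp 0 2 2
    ndB2q0 ndB1q2a pcB2 Cut.none Ext.none :=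
  certB0 (fam := false) (s1 := false) (s2 := false) (a := 0) (b := 2) (c := 2) (cn := .pp) (n1 := ndB2q0) (n2 := ndB1q2a) (pc := pcB2) (cut := Cut.none) (xt := Ext.none) (P1 := 0) (W1 := 536870912) (P2 := 0) (W2 := 536870912) (P3 := 1040187392) (W3 := 5207648) (N0 := 3) (En := eng) (mo := mog) (C1 := cd2q0) (C2 := cd1q2a) (C3 := pd2)
    rfl k0_mm_022_a

noncomputable def f_mm_022_b : ℕ → ℕ → ℕ → ℕ → Bool := onCell 0 536870912 1239849684 370763052 1040187392 5207648
    (rowB 3 eng mog cd2q0 cd1q2b pd2 0 false false false .pp 0 2 2 (qsf 0 536870912 1239849684 370763052 2) ndB2q0 ndB1q2b pcB2 Cut.none Ext.none)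

def k0_mm_022_b : ∃ t, chk3 f_mm_022_b t 1 1 1 = true :=
  ⟨(l 5), by decide +kernel⟩

theorem c_mm_022_b : CertB 0 536870912 1239849684 370763052 1040187392 5207648 3 eng mog cd2q0 cd1q2b pd2 false false false .pp 0 2 2
    ndB2q0 ndB1q2b pcB2 Cut.none Ext.none :=
  certB0 (fam := false) (s1 := false) (s2 := false) (a := 0) (b := 2) (c := 2) (cn := .pp) (n1 := ndB2q0) (n2 := ndB1q2b) (pc := pcB2) (cut := Cut.none) (xt := Ext.none) (P1 := 0) (W1 := 536870912) (P2 := 1239849684) (W2 := 370763052) (P3 := 1040187392) (W3 := 5207648) (N0 := 3) (En := eng) (mo := mog) (C1 := cd2q0) (C2 := cd1q2b) (C3 := pd2)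
    rfl k0_mm_022_b

noncomputable def f_mm_023 : ℕ → ℕ → ℕ → ℕ → Bool := onCell 0 536870912 1610612736 536870912 1040187392 5207648
    (rowB 3 eng mog cd2q0 cd1q3 pd2 0 false false false .up 0 2 3 (qsf 0 536870912 1610612736 536870912 2) ndB2q0 ndB1q3 pcB2 Cut.none Ext.none)

def k0_mm_023 : ∃ t, chk3 f_mm_023 t 1 1 1 = true :=
  ⟨(l 5), by decide +kernel⟩

theorem c_mm_023 : CertB 0 536870912 1610612736 536870912 1040187392 5207648 3 eng mog cd2q0 cd1q3 pd2 false false false .up 0 2 3
    ndB2q0 ndB1q3 pcB2 Cut.none Ext.none :=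
  certB0 (fam := false) (s1 := false) (s2 := false) (a := 0) (b := 2) (c := 3) (cn := .up) (n1 := ndB2q0) (n2 := ndB1q3) (pc := pcB2) (cut := Cut.none) (xt := Ext.none) (P1 := 0) (W1 := 536870912) (P2 := 1610612736) (W2 := 536870912) (P3 := 1040187392) (W3 := 5207648) (N0 := 3) (En := eng) (mo := mog) (C1 := cd2q0) (C2 := cd1q3) (C3 := pd2)
    rfl k0_mm_023

noncomputable def f_mm_033 : ℕ → ℕ → ℕ → ℕ → Bool := onCell 0 536870912 1610612736 536870912 1040187392 5207648
    (rowB 3 eng mog cd2q0 cd1q3 pd3 0 false false false .pnn 0 3 3 (qsf 0 536870912 1610612736 536870912 3) ndB2q0 ndB1q3 pcB3 Cut.none Ext.none)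

def k0_mm_033 : ∃ t, chk3 f_mm_033 t 1 1 1 = true :=
  ⟨(l 5), by decide +kernel⟩

theorem c_mm_033 : CertB 0 536870912 1610612736 536870912 1040187392 5207648 3 eng mog cd2q0 cd1q3 pd3 false false false .pnn 0 3 3
    ndB2q0 ndB1q3 pcB3 Cut.none Ext.none :=
  certB0 (fam := false) (s1 := false) (s2 := false) (a := 0) (b := 3) (c := 3) (cn := .pnn) (n1 := ndB2q0) (n2 := ndB1q3) (pc := pcB3) (cut := Cut.none) (xt := Ext.none) (P1 := 0) (W1 := 536870912) (P2 := 1610612736) (W2 := 536870912) (P3 := 1040187392) (W3 := 5207648) (N0 := 3) (En := eng) (mo := mog) (C1 := cd2q0) (C2 := cd1q3) (C3 := pd3)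
    rfl k0_mm_033

noncomputable def f_mm_101 : ℕ → ℕ → ℕ → ℕ → Bool := onCell 536870912 536870912 536870912 536870912 1040187392 5207648
    (rowB 3 eng mog cd2q1 cd1q1 pd0 0 false false false .npn 1 0 1 (qsf 536870912 536870912 536870912 536870912 0) ndB2q1 ndB1q1 pcB0 Cut.none Ext.none)

def k0_mm_101 : ∃ t, chk3 f_mm_101 t 1 1 1 = true :=
  ⟨(l 3), by decide +kernel⟩

theorem c_mm_101 : CertB 536870912 536870912 536870912 536870912 1040187392 5207648 3 eng mog cd2q1 cd1q1 pd0 false false false .npn 1 0 1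
    ndB2q1 ndB1q1 pcB0 Cut.none Ext.none :=
  certB0 (fam := false) (s1 := false) (s2 := false) (a := 1) (b := 0) (c := 1) (cn := .npn) (n1 := ndB2q1) (n2 := ndB1q1) (pc := pcB0) (cut := Cut.none) (xt := Ext.none) (P1 := 536870912) (W1 := 536870912) (P2 := 536870912) (W2 := 536870912) (P3 := 1040187392) (W3 := 5207648) (N0 := 3) (En := eng) (mo := mog) (C1 := cd2q1) (C2 := cd1q1) (C3 := pd0)
    rfl k0_mm_101

noncomputable def f_mm_102_a : ℕ → ℕ → ℕ → ℕ → Bool := onCell 536870912 536870912 0 536870912 1040187392 5207648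
    (rowB 3 eng mog cd2q1 cd1q2a pd0 0 false false false .npp 1 0 2 (qsf 536870912 536870912 0 536870912 0) ndB2q1 ndB1q2a pcB0 Cut.none Ext.none)

def k0_mm_102_a : ∃ t, chk3 f_mm_102_a t 1 1 1 = true :=
  ⟨(l 5), by decide +kernel⟩

theorem c_mm_102_a : CertB 536870912 536870912 0 536870912 1040187392 5207648 3 eng mog cd2q1 cd1q2a pd0 false false false .npp 1 0 2
    ndB2q1 ndB1q2a pcB0 Cut.none Ext.none :=
  certB0 (fam := false) (s1 := false) (s2 := false) (a := 1) (b := 0) (c := 2) (cn := .npp) (n1 := ndB2q1) (n2 := ndB1q2a) (pc := pcB0) (cut := Cut.none) (xt := Ext.none) (P1 := 536870912) (W1 := 536870912) (P2 := 0) (W2 := 536870912) (P3 := 1040187392) (W3 := 5207648) (N0 := 3) (En := eng) (mo := mog) (C1 := cd2q1) (C2 := cd1q2a) (C3 := pd0)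
    rfl k0_mm_102_a

noncomputable def f_mm_102_b : ℕ → ℕ → ℕ → ℕ → Bool := onCell 536870912 536870912 1239849684 370763052 1040187392 5207648
    (rowB 3 eng mog cd2q1 cd1q2b pd0 0 false false false .npp 1 0 2 (qsf 536870912 536870912 1239849684 370763052 0) ndB2q1 ndB1q2b pcB0 Cut.none Ext.none)

def k0_mm_102_b : ∃ t, chk3 f_mm_102_b t 1 1 1 = true :=
  ⟨(l 5), by decide +kernel⟩

theorem c_mm_102_b : CertB 536870912 536870912 1239849684 370763052 1040187392 5207648 3 eng mog cd2q1 cd1q2b pd0 false false false .npp 1 0 2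
    ndB2q1 ndB1q2b pcB0 Cut.none Ext.none :=
  certB0 (fam := false) (s1 := false) (s2 := false) (a := 1) (b := 0) (c := 2) (cn := .npp) (n1 := ndB2q1) (n2 := ndB1q2b) (pc := pcB0) (cut := Cut.none) (xt := Ext.none) (P1 := 536870912) (W1 := 536870912) (P2 := 1239849684) (W2 := 370763052) (P3 := 1040187392) (W3 := 5207648) (N0 := 3) (En := eng) (mo := mog) (C1 := cd2q1) (C2 := cd1q2b) (C3 := pd0)
    rfl k0_mm_102_b

noncomputable def f_mm_112_a : ℕ → ℕ → ℕ → ℕ → Bool := onCell 536870912 536870912 0 536870912 1040187392 5207648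
    (rowB 3 eng mog cd2q1 cd1q2a pd1 0 false false false .dn 1 1 2 (qsf 536870912 536870912 0 536870912 1) ndB2q1 ndB1q2a pcB1 Cut.none Ext.none)

def k0_mm_112_a : ∃ t, chk3 f_mm_112_a t 1 1 1 = true :=
  ⟨(l 5), by decide +kernel⟩

theorem c_mm_112_a : CertB 536870912 536870912 0 536870912 1040187392 5207648 3 eng mog cd2q1 cd1q2a pd1 false false false .dn 1 1 2
    ndB2q1 ndB1q2a pcB1 Cut.none Ext.none :=
  certB0 (fam := false) (s1 := false) (s2 := false) (a := 1) (b := 1) (c := 2) (cn := .dn) (n1 := ndB2q1) (n2 := ndB1q2a) (pc := pcB1) (cut := Cut.none) (xt := Ext.none) (P1 := 536870912) (W1 := 536870912) (P2 := 0) (W2 := 536870912) (P3 := 1040187392) (W3 := 5207648) (N0 := 3) (En := eng) (mo := mog) (C1 := cd2q1) (C2 := cd1q2a) (C3 := pd1)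
    rfl k0_mm_112_a

noncomputable def f_mm_112_b : ℕ → ℕ → ℕ → ℕ → Bool := onCell 536870912 536870912 1239849684 370763052 1040187392 5207648
    (rowB 3 eng mog cd2q1 cd1q2b pd1 0 false false false .dn 1 1 2 (qsf 536870912 536870912 1239849684 370763052 1) ndB2q1 ndB1q2b pcB1 Cut.none Ext.none)

def k0_mm_112_b : ∃ t, chk3 f_mm_112_b t 1 1 1 = true :=
  ⟨(l 5), by decide +kernel⟩

theorem c_mm_112_b : CertB 536870912 536870912 1239849684 370763052 1040187392 5207648 3 eng mog cd2q1 cd1q2b pd1 false false false .dn 1 1 2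
    ndB2q1 ndB1q2b pcB1 Cut.none Ext.none :=
  certB0 (fam := false) (s1 := false) (s2 := false) (a := 1) (b := 1) (c := 2) (cn := .dn) (n1 := ndB2q1) (n2 := ndB1q2b) (pc := pcB1) (cut := Cut.none) (xt := Ext.none) (P1 := 536870912) (W1 := 536870912) (P2 := 1239849684) (W2 := 370763052) (P3 := 1040187392) (W3 := 5207648) (N0 := 3) (En := eng) (mo := mog) (C1 := cd2q1) (C2 := cd1q2b) (C3 := pd1)
    rfl k0_mm_112_b

end Pool.Agent.Strip051.G.I9688_9736.Tab.C.BB21

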