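import Pool.Agent.Strip051.G.I9688_9736.Tab
import Pool.Agent.Strip051.PB.ExtD3

/-! # Certificates B25 (generated) -/

set_option linter.all false
set_option maxRecDepth 100000

namespace Pool.Agent.Strip051.G.I9688_9736.Tab.C.BB30

open Pool.Agent.Strip051.PB Pool.Agent.Strip051.PB.T
open Pool.Agent.Strip051.G.I9688_9736.Tab

noncomputable def xt_pp_011 : Ext := extD3 3 ⟨4, 1, 1, 5, 33, 5, 163, 200, 81, 200, 1, 64⟩ eng cd3q0 cd0q1 pd1 false true true .pnn 0 1 1 rfl ndB3q0 ndB0q1 pcB1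

noncomputable def f_pp_011 : ℕ → ℕ → ℕ → ℕ → Bool := onCell 0 536870912 536870912 536870912 1040187392 5207648
    (rowB 3 eng mog cd3q0 cd0q1 pd1 0 false true true .pnn 0 1 1 (qsf 0 536870912 536870912 536870912 1) ndB3q0 ndB0q1 pcB1 Cut.none xt_pp_011)

def k0_pp_011 : ∃ t, chk3 f_pp_011 t 1 2 1 = true :=
  ⟨(l 3), by decide +kernel⟩

def k1_pp_011 : ∃ t, chk3 f_pp_011 t 1 6 1 = true :=
  ⟨(l 3), by decide +kernel⟩

def k2_pp_011 : ∃ t, chk3 f_pp_011 t 1 14 1 = true :=
  ⟨(a (l 3) (l 3)), by decide +kernel⟩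

def k3_pp_011 : ∃ t, chk3 f_pp_011 t 1 30 1 = true :=
  ⟨(a (l 3) (l 3)), by decide +kernel⟩

def k4_pp_011 : ∃ t, chk3 f_pp_011 t 1 62 1 = true :=
  ⟨(a (a (l 3) (l 3)) (l 3)), by decide +kernel⟩

def k5_pp_011 : ∃ t, chk3 f_pp_011 t 8 252 1 = true :=
  ⟨(l 3), by decide +kernel⟩

def k6_pp_011 : ∃ t, chk3 f_pp_011 t 8 506 1 = true :=
  ⟨(a (l 3) (l 3)), by decide +kernel⟩

def k7_pp_011 : ∃ t, chk3 f_pp_011 t 8 1014 1 = true :=
  ⟨(a (b (l 3) (a (b (l 3) (b (l 3) (a (b (l 3) (a (a (c (a (a (c (l 443086262519) (l 443623133031)) (l 443623140599)) (l 440938793223)) (a (a (c (l 444160003527) (c (l 444696874455) (l 444696874247))) (l 444696881495)) (l 442549404887))) (c (l 721185419975) (l 9848513879498753453736207999))) (c (l 604738890467487133673087) (l 604425584037683828303487)))) (a (a (a (l 9200529763259854837711742207) (l 7652500438304842692860117247)) (c (l 7575129185849465537560903935) (l 7604143405520277454493991167))) (c (l 7449400900609493525788426495)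 (l 7478415120280235898612367487)))))) (b (l 3) (b (l 3) (a (a (a (a (l 7749214503873879917093879935) (l 7604143405520041609139716159)) (l 3)) (l 3)) (l 3)))))) (a (a (l 3) (l 3)) (l 3))), by decide +kernel⟩

def k8_pp_011 : ∃ t, chk3 f_pp_011 t 8 1015 1 = true :=
  ⟨(a (a (a (b (a (a (a (a (c (l 16770960) (l 16770560)) (c (l 16769488) (l 16774288))) (c (l 603822029510518972589695) (l 603881404874891333183103))) (a (l 144079694455177343) (l 16788184))) (b (l 144187858903400575) (l 144190813823172735))) (l 143834090989174911)) (a (b (a (a (l 144089727468323071) (l 144062377104359679)) (a (l 144071035745894655) (l 144066775123427583))) (l 144025062386417919)) (b (c (l 144021626363150591) (l 144016334967259263)) (l 143958473195487359)))) (a (a (a (a (l 143907895581917311) (a (l 143876559530295423) (l 143853057460355199))) (a (a (l 143840962830286911) (l 143708609122566207)) (l 143593435242709055))) (a (a (l 143465410864873535) (a (l 598094603212808455970879)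 (l 598925282976763941101631))) (a (c (l 600006723400105853378623) (l 594575596562935950500415)) (c (a (l 601787843686284724834367) (l 601992487253352366936127)) (l 592290364561709255561791))))) (c (a (a (b (a (c (a (l 600852247885296185561663) (l 7034131049116638573890916927)) (l 596024677315130949276223)) (c (a (a (l 16609048) (l 352891592535)) (a (l 352891593063) (l 16541184))) (l 6821356129879346330612191807))) (l 597815740872537770168383)) (b (a (c (a (l 350207175527) (l 16489536)) (l 343227687319)) (a (a (l 16427944) (l 16414448)) (l 340543326423))) (l 593170908360852688835135))) (a (b (a (l 588851776174219073901119) (l 16371376)) (l 16356392)) (l 582463438117192323584575))) (a (a (a (l 590126619127938228310591) (l 588062601404315702448703)) (a (l 586078999955639512355391) (l 16260248))) (a (l 580691397764611472773695) (l 16130280)))))) (a (a (a (a (l 573468481025506838848063) (c (l 570669187761854989181503) (l 15972616))) (a (a (a (a (l 16002552)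 (l 16036944)) (l 15983432)) (l 15961080)) (c (l 15976488) (l 15862520)))) (a (c (a (l 15923600) (l 15877312)) (l 15796992)) (c (a (l 318530373415) (l 318530303255)) (l 15729000)))) (c (a (a (a (l 319067112951) (l 320140802839)) (a (l 321214498855) (b (l 328193781879) (l 15706888)))) (a (a (a (l 323361925495) (l 322825038615)) (l 321751270231)) (a (l 321751270103) (l 320677505159)))) (a (a (l 15678848) (l 320677463607)) (a (l 322288032039) (l 15603440)))))), by decide +kernel⟩

def k9_pp_011 : ∃ t, chk3 f_pp_011 t 9 126 1 = true :=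
  ⟨(b (l 3) (b (l 3) (a (a (b (l 3) (a (a (c (a (l 319603745335) (l 318529988503)) (l 15596272)) (a (l 319066850791) (l 317993102055))) (a (l 316919357767) (l 15626128)))) (a (l 312624370551) (l 308329497591))) (a (a (l 15730080) (l 15788936)) (l 275580249879))))), by decide +kernel⟩

def k10_pp_011 : ∃ t, chk3 f_pp_011 t 5 126 1 = true :=
  ⟨(b (l 3) (a (a (b (l 3) (a (l 261084607863) (l 255178689863))) (a (l 245514697463) (l 238535039735))) (a (a (l 235313449463) (l 3)) (l 3)))), by decide +kernel⟩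

def k11_pp_011 : ∃ t, chk3 f_pp_011 t 3 126 1 = true :=
  ⟨(a (a (a (l 3) (l 3)) (l 3)) (a (l 3) (l 3))), by decide +kernel⟩

def k12_pp_011 : ∃ t, chk3 f_pp_011 t 2 127 1 = true :=
  ⟨(b (a (a (a (a (a (a (l 143791416155668607) (l 143878277527208063)) (a (l 143498190052999295) (l 143334500200415359))) (a (a (a (l 143409610582032511) (l 143240491984846911)) (a (l 143191907331145791) (l 589737363132483391676479))) (a (a (l 593208808971483632295999) (l 591860177553349247934527)) (a (l 588387000261848804597823) (l 581448429378740757439039))))) (a (a (a (b (a (l 16168520) (l 16097056)) (l 572668931443173096170047)) (a (a (b (l 16047944) (l 16124720)) (l 16051920)) (l 16004312))) (a (l 15922576) (l 15836928))) (a (a (l 15772568) (l 15725088)) (b (a (l 15674016) (l 15652672)) (l 15694856))))) (a (a (a (b (l 15636576) (l 15663712)) (l 15649760)) (a (l 15670080) (l 15705840))) (a (l 15613184) (l 15663736)))) (a (a (a (l 15555512) (l 15380136)) (a (l 15205856)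 (l 15034360))) (a (a (l 14845680) (l 14682488)) (a (a (l 14584432) (l 14506792)) (l 14414080))))) (a (a (a (a (a (l 16662120) (l 142956543043076223)) (a (a (l 141979558205407359) (l 142945479192936511)) (a (l 16597936) (l 16521680)))) (a (a (a (l 16336192) (a (l 16218544) (l 16140640))) (l 15986904)) (a (l 15830376) (l 15745624)))) (a (a (a (l 15706824) (l 15699096)) (l 15727856)) (a (l 15815944) (l 15701560)))) (a (a (a (l 15530648) (l 15357416)) (a (l 15185672) (l 15016840))) (a (a (l 14851832) (l 14691344)) (l 14460328))))), by decide +kernel⟩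

def k13_pp_011 : ∃ t, chk3 f_pp_011 t 3 127 1 = true :=
  ⟨(a (a (a (b (a (l 14247024) (l 14107656)) (l 14173416)) (b (l 311010267575) (l 13892888))) (a (a (l 13736816) (l 13629544)) (a (l 13530928) (l 328726120759)))) (a (a (a (b (l 304029878071) (l 13366688)) (b (l 301345392247) (l 13296576))) (a (b (b (l 13220736) (l 13223064)) (l 13236256)) (b (b (l 2127243134359) (l 13171736)) (l 13186000)))) (a (b (b (l 3) (a (a (l 13140064) (l 13122320)) (a (l 13107288) (l 13095000)))) (a (l 13146056) (l 13116680))) (b (b (l 3) (a (a (l 331946657543) (b (l 293828808791) (l 13080952))) (a (b (l 285238870263) (l 13076944)) (b (l 276648936871) (l 13075760))))) (a (l 13098104) (a (l 13091328) (l 13090336))))))), by decide +kernel⟩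

theorem s14_pp_011 : ∃ t, chk3 f_pp_011 t 1 127 1 = true := ex3_a k12_pp_011 k13_pp_011

theorem s15_pp_011 : ∃ t, chk3 f_pp_011 t 8 507 1 = true := ex3_b k7_pp_011 k8_pp_011

theorem s16_pp_011 : ∃ t, chk3 f_pp_011 t 8 253 1 = true := ex3_b k6_pp_011 s15_pp_011

theorem s17_pp_011 : ∃ t, chk3 f_pp_011 t 8 126 1 = true := ex3_b k5_pp_011 s16_pp_011

theorem s18_pp_011 : ∃ t, chk3 f_pp_011 t 4 126 1 = true := ex3_a s17_pp_011 k9_pp_011

theorem s19_pp_011 : ∃ t, chk3 f_pp_011 t 2 126 1 = true := ex3_a s18_pp_011 k10_pp_011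

theorem s20_pp_011 : ∃ t, chk3 f_pp_011 t 1 126 1 = true := ex3_a s19_pp_011 k11_pp_011

theorem s21_pp_011 : ∃ t, chk3 f_pp_011 t 1 63 1 = true := ex3_b s20_pp_011 s14_pp_011

theorem s22_pp_011 : ∃ t, chk3 f_pp_011 t 1 31 1 = true := ex3_b k4_pp_011 s21_pp_011

theorem s23_pp_011 : ∃ t, chk3 f_pp_011 t 1 15 1 = true := ex3_b k3_pp_011 s22_pp_011

theorem s24_pp_011 : ∃ t, chk3 f_pp_011 t 1 7 1 = true := ex3_b k2_pp_011 s23_pp_011

theorem s25_pp_011 : ∃ t, chk3 f_pp_011 t 1 3 1 = true := ex3_b k1_pp_011 s24_pp_011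

theorem s26_pp_011 : ∃ t, chk3 f_pp_011 t 1 1 1 = true := ex3_b k0_pp_011 s25_pp_011

theorem c_pp_011 : CertB 0 536870912 536870912 536870912 1040187392 5207648 3 eng mog cd3q0 cd0q1 pd1 false true true .pnn 0 1 1
    ndB3q0 ndB0q1 pcB1 Cut.none xt_pp_011 :=
  certB0 (fam := false) (s1 := true) (s2 := true) (a := 0) (b := 1) (c := 1) (cn := .pnn) (n1 := ndB3q0) (n2 := ndB0q1) (pc := pcB1) (cut := Cut.none) (xt := xt_pp_011) (P1 := 0) (W1 := 536870912) (P2 := 536870912) (W2 := 536870912) (P3 := 1040187392) (W3 := 5207648) (N0 := 3) (En := eng) (mo := mog) (C1 := cd3q0) (C2 := cd0q1) (C3 := pd1)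
    rfl s26_pp_011

noncomputable def xt_pp_012 : Ext := extD3 3 ⟨4, 1, 1, 5, 33, 5, 163, 200, 81, 200, 1, 64⟩ eng cd3q0 cd0q2 pd1 false true true .pnp 0 1 2 rfl ndB3q0 ndB0q2 pcB1

noncomputable def f_pp_012 : ℕ → ℕ → ℕ → ℕ → Bool := onCell 0 536870912 0 536870912 1040187392 5207648
    (rowB 3 eng mog cd3q0 cd0q2 pd1 0 false true true .pnp 0 1 2 (qsf 0 536870912 0 536870912 1) ndB3q0 ndB0q2 pcB1 Cut.none xt_pp_012)

def k0_pp_012 : ∃ t, chk3 f_pp_012 t 2 2 1 = true :=
  ⟨(a (b (l 2) (a (l 2) (a (l 2) (b (l 2) (l 15606456))))) (b (a (a (b (l 15560944) (l 15730152)) (b (l 15230344) (l 15251144))) (b (a (l 14675224) (l 14145232)) (a (l 14773600) (l 14305072)))) (a (a (b (l 15534752) (l 15356728)) (b (l 15091936) (l 14955312))) (b (a (l 14663360) (l 14251320)) (a (l 14570512) (l 14204152)))))), by decide +kernel⟩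

def k1_pp_012 : ∃ t, chk3 f_pp_012 t 4 3 1 = true :=
  ⟨(b (a (l 2) (b (a (l 2) (a (l 15680872) (l 15491656))) (a (b (l 15658816) (a (l 15832480) (l 15671088))) (b (l 15480456) (a (l 15513648) (l 15359776)))))) (a (b (a (l 2) (a (b (l 2) (a (a (l 2) (l 16262840)) (b (l 2) (l 16319400)))) (b (l 16045960) (b (l 16133696) (l 16202464))))) (a (a (b (l 2) (a (b (l 2) (b (b (l 16632912) (l 16624264)) (b (l 16616456) (a (l 16684336) (l 16659416))))) (b (b (a (l 2) (l 16524576)) (a (l 16577536) (l 16548368))) (b (b (l 16539368) (l 16594688)) (a (l 16627208) (l 16598112)))))) (b (a (b (l 2) (a (l 2) (l 16471392))) (b (a (l 2) (l 16436968)) (a (l 16486720) (l 16503520)))) (a (b (a (b (l 16499648) (l 16524376)) (l 16482152)) (a (b (l 141977908806156415) (l 141775117676953727)) (b (l 16557008) (l 16585680)))) (b (a (l 16541008) (l 16559208)) (a (l 142178982069420095) (l 142396754124603455)))))) (a (b (a (b (a (l 16455896) (l 16452576)) (a (l 16523912) (l 16521768)))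 (b (l 16394712) (l 16464536))) (a (b (a (l 16579888) (l 16576288)) (a (l 142159396871258175) (l 140948903035486271))) (b (l 16465856) (b (l 16303384) (l 16131648))))) (b (b (l 16236384) (a (l 16386376) (l 16300664))) (b (a (l 16373000) (l 16264288)) (b (l 16088136) (l 15912440))))))) (b (a (b (a (l 15887984) (l 15732176)) (a (b (l 15978344) (l 16045632)) (b (l 15819864) (l 15880152)))) (b (a (l 15577496) (l 15422088)) (a (l 15684712) (l 15522544)))) (b (a (a (b (l 16114080) (l 16021040)) (b (l 15938960) (l 15984912))) (b (a (l 15767192) (l 15602800)) (l 15729224))) (a (b (a (l 16152832) (l 16006680)) (a (b (l 15956152) (l 15806976)) (l 15872992))) (b (l 15754080) (a (l 15846744) (l 15683328)))))))), by decide +kernel⟩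

def k2_pp_012 : ∃ t, chk3 f_pp_012 t 5 3 1 = true :=
  ⟨(b (a (b (a (l 15216504) (l 14862928)) (a (b (l 15150936) (l 15136280)) (b (l 14837784) (l 14851880)))) (b (a (l 14527136) (l 14210624)) (a (b (l 14542384) (l 14585360)) (b (l 14266056) (l 14337752))))) (b (a (b (a (l 15196576) (l 14913736)) (a (l 15289680) (l 14990800))) (b (a (l 14648096) (l 14406392)) (a (l 14709920) (l 14450232)))) (a (b (a (b (l 15359864) (l 15396400)) (b (l 15047760) (l 15075480))) (a (b (l 15415544) (a (l 15512448) (l 15341816))) (b (l 15086672) (a (l 15173352) (l 15008072))))) (b (a (l 14763192) (b (l 14477704) (l 14485848))) (a (b (l 14773048) (b (l 14769288) (l 14765880))) (b (l 14479040) (l 14464528))))))), by decide +kernel⟩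

def k3_pp_012 : ∃ t, chk3 f_pp_012 t 3 2 1 = true :=
  ⟨(a (b (a (b (l 13422792) (a (l 13852840) (l 13423128))) (b (l 12610872) (a (l 13021336) (l 12651536)))) (a (b (a (l 13857968) (l 13485112)) (a (l 13857904) (l 13533192))) (b (a (l 13134400) (l 12803128)) (a (l 13231320) (l 12953568))))) (b (a (b (l 11992864) (l 12180008)) (b (l 11583944) (l 11740696))) (a (b (b (a (l 12460096) (l 12187408)) (l 12415808)) (a (l 12701176) (l 12475336))) (b (b (l 11863136) (b (l 11924264) (l 11971904))) (a (l 12277216) (l 12107960)))))), by decide +kernel⟩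

def k4_pp_012 : ∃ t, chk3 f_pp_012 t 3 3 1 = true :=
  ⟨(b (a (a (b (a (l 13914672) (l 13640400)) (a (b (l 14009888) (l 14106952)) (b (l 13774848) (l 13898496)))) (b (a (l 13388872) (l 13161120)) (a (b (l 13561872) (l 13711312)) (b (l 13371872) (l 13546264))))) (a (b (a (l 12958152) (l 12780952)) (b (a (l 13205712) (l 13064264)) (a (l 13404152) (l 13285776)))) (b (a (l 12630480) (l 12507648)) (a (b (l 12948344) (l 13191888)) (b (l 12858752) (l 13123208)))))) (a (b (a (b (a (l 14188688) (b (l 13992184) (l 14002768))) (a (l 14214496) (l 13984152))) (b (a (b (a (l 13867632) (l 13791624)) (l 13836616)) (b (b (l 13670592) (l 13705688)) (l 13700440))) (b (a (l 13828112) (l 13682424)) (a (l 13817912) (l 13662400))))) (a (b (a (b (l 14226384) (l 14224376)) (b (l 14001328) (l 13989280))) (a (b (l 14208384) (l 14184872)) (b (l 13964336) (l 13932224)))) (b (b (a (a (l 13851176) (l 13760544)) (a (l 13677752) (l 13603024))) (a (a (l 13831808) (l 13736440)) (l 13608528)))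 (a (b (a (l 13800472) (l 13701008)) (a (l 13762320) (l 13659056))) (b (l 13567304) (a (l 13564184) (l 13478016))))))) (b (a (b (a (b (b (l 13543272) (l 13594824)) (l 13595472)) (b (l 13471656) (l 13519968))) (b (a (l 13568320) (l 13486976)) (a (l 13538960) (l 13448960)))) (b (b (l 13363264) (a (b (l 13479176) (l 13472080)) (b (l 13448968) (l 13462696)))) (a (b (l 13439288) (l 13393512)) (b (l 13425896) (l 13373456))))) (a (b (b (a (l 13506640) (l 13408064)) (a (l 13467264) (l 13361216))) (b (a (l 13419144) (l 13307312)) (a (a (l 13400840) (l 13332936)) (a (l 13274560) (l 13225976))))) (b (a (b (l 13345072) (l 13291928)) (b (l 13318712) (l 13260680))) (a (b (l 13233568) (a (l 13187408) (l 13159080))) (b (l 13199448) (a (l 13141208) (l 13133984))))))))), by decide +kernel⟩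

theorem s5_pp_012 : ∃ t, chk3 f_pp_012 t 3 1 1 = true := ex3_b k3_pp_012 k4_pp_012

theorem s6_pp_012 : ∃ t, chk3 f_pp_012 t 2 3 1 = true := ex3_a k1_pp_012 k2_pp_012

theorem s7_pp_012 : ∃ t, chk3 f_pp_012 t 2 1 1 = true := ex3_b k0_pp_012 s6_pp_012

theorem s8_pp_012 : ∃ t, chk3 f_pp_012 t 1 1 1 = true := ex3_a s7_pp_012 s5_pp_012

theorem c_pp_012 : CertB 0 536870912 0 536870912 1040187392 5207648 3 eng mog cd3q0 cd0q2 pd1 false true true .pnp 0 1 2
    ndB3q0 ndB0q2 pcB1 Cut.none xt_pp_012 :=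
  certB0 (fam := false) (s1 := true) (s2 := true) (a := 0) (b := 1) (c := 2) (cn := .pnp) (n1 := ndB3q0) (n2 := ndB0q2) (pc := pcB1) (cut := Cut.none) (xt := xt_pp_012) (P1 := 0) (W1 := 536870912) (P2 := 0) (W2 := 536870912) (P3 := 1040187392) (W3 := 5207648) (N0 := 3) (En := eng) (mo := mog) (C1 := cd3q0) (C2 := cd0q2) (C3 := pd1)
    rfl s8_pp_012

noncomputable def f_pp_022 : ℕ → ℕ → ℕ → ℕ → Bool := onCell 0 536870912 0 536870912 1040187392 5207648
    (rowB 3 eng mog cd3q0 cd0q2 pd2 0 false true true .pp 0 2 2 (qsf 0 536870912 0 536870912 2) ndB3q0 ndB0q2 pcB2 Cut.none Ext.none)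

def k0_pp_022 : ∃ t, chk3 f_pp_022 t 2 2 1 = true :=
  ⟨(a (a (a (a (b (b (l 15449496) (l 15650032)) (b (l 15876392) (l 16069936))) (b (a (b (l 15421800) (l 15611256)) (l 15364200)) (a (b (l 15827064) (a (l 16050432) (l 16055424))) (b (l 15849528) (l 16069488))))) (a (b (a (b (l 15494368) (l 15669632)) (l 15557760)) (a (b (l 15873248) (a (l 16089648) (l 16086408))) (b (l 15832288) (l 16038728)))) (b (l 15494760) (b (l 15749840) (l 15942880))))) (b (a (b (l 15303680) (l 15430952)) (b (l 15164208) (l 15253136))) (a (b (l 15586328) (b (l 15708336) (l 15789920))) (b (l 15369712) (b (l 15461808) (l 15522944)))))) (a (b (a (b (l 15028208) (l 15079208)) (b (l 1) (l 1))) (a (b (l 15154520) (b (l 15214968) (l 15149728))) (l 1))) (l 1))), by decide +kernel⟩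

def k1_pp_022 : ∃ t, chk3 f_pp_022 t 4 6 1 = true :=
  ⟨(a (a (a (b (b (l 16282208) (l 16389736)) (b (a (l 16519584) (l 16457064)) (l 16469856))) (b (a (a (l 16183664) (l 16270200)) (b (l 16228496) (l 16328680))) (a (b (a (l 16410424) (l 16411472)) (a (l 16491936) (l 16492016))) (b (l 16399016) (a (l 16496720) (l 16503096)))))) (a (b (a (a (l 16276928) (l 16207696)) (l 16174136)) (a (b (a (l 16434856) (l 16426296)) (a (l 16512920) (l 16481936))) (b (l 16366336) (l 16418200)))) (b (b (l 16081448) (l 16167848)) (b (l 16203240) (b (l 16295016) (l 16261008)))))) (b (a (b (a (l 15939008) (l 15795832)) (a (l 16015352) (l 15861752))) (b (a (l 15651880) (l 15507240)) (a (l 15707072) (l 1)))) (a (b (a (l 15998432) (b (l 15904672) (l 15929864))) (a (b (l 16124176) (a (l 16191896) (l 16103304))) (b (l 389263081191) (l 1)))) (b (a (l 431675461031) (l 1)) (l 1))))), by decide +kernel⟩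

def k2_pp_022 : ∃ t, chk3 f_pp_022 t 8 14 1 = true :=
  ⟨(a (a (b (a (l 16623680) (l 16547400)) (b (a (l 16630032) (l 16607808)) (a (l 16615144) (l 16634264)))) (a (b (a (a (l 16562040) (l 16553672)) (l 16556848)) (a (b (a (l 16599424) (l 16590528)) (a (l 16624496) (l 16615264))) (b (l 16593344) (l 16617872)))) (b (a (l 16539816) (b (l 16551992) (l 16579128))) (b (a (l 16596760) (l 16580904)) (a (l 16589528) (b (l 16619512) (l 16631936))))))) (a (a (b (a (b (l 16561288) (l 16588112)) (b (l 16550208) (l 16555368))) (a (b (b (l 16604880) (l 16615928)) (b (l 16628032) (l 16640336))) (b (a (l 16588784) (l 16586656)) (a (l 16612120) (l 16609328))))) (b (b (l 16483552) (l 16507704)) (b (b (l 16522448) (l 16532152)) (b (l 16500960) (l 198138335303))))) (b (b (a (l 16393752) (l 16303416)) (a (l 16415216) (b (l 16317864) (l 16325984)))) (b (a (b (l 16427928) (l 103111956887)) (b (l 333429375783) (l 1))) (a (b (l 288332437335) (l 1)) (l 1)))))), by decide +kernel⟩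

def k3_pp_022 : ∃ t, chk3 f_pp_022 t 8 15 1 = true :=
  ⟨(a (a (b (b (a (l 16602128) (l 16628896)) (a (l 16626744) (l 16650368))) (b (a (a (l 16672920) (l 16721048)) (b (l 16664032) (a (l 16717992) (l 16673840)))) (a (b (a (l 16678088) (l 16746872)) (a (b (l 16724304) (l 16744552)) (b (l 16738256) (l 1)))) (b (l 409128877847) (l 1))))) (b (a (b (a (a (l 16628224) (l 16639632)) (b (l 16636152) (l 16646408))) (a (a (l 16658784) (l 16648888)) (b (l 16651304) (l 16649504)))) (b (a (b (l 16639056) (l 16649184)) (b (l 16643664) (l 16653672))) (a (b (l 16653960) (l 16652048)) (b (l 16658336) (l 1))))) (a (b (b (a (a (l 16650432) (l 16640304)) (l 16642464)) (l 1)) (l 1)) (l 1)))) (a (b (a (b (a (b (l 16651960) (l 236256475047)) (b (a (l 16650552) (l 16626288)) (l 1))) (l 1)) (l 1)) (l 1)) (l 1))), by decide +kernel⟩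

def k4_pp_022 : ∃ t, chk3 f_pp_022 t 9 7 1 = true :=
  ⟨(b (a (b (a (a (b (l 16212552) (l 354903997479)) (b (l 394632232919) (l 1))) (l 1)) (l 1)) (l 1)) (l 1)), by decide +kernel⟩

def k5_pp_022 : ∃ t, chk3 f_pp_022 t 5 3 1 = true :=
  ⟨(b (l 1) (l 1)), by decide +kernel⟩

def k6_pp_022 : ∃ t, chk3 f_pp_022 t 3 1 1 = true :=
  ⟨(l 1), by decide +kernel⟩

theorem s7_pp_022 : ∃ t, chk3 f_pp_022 t 8 7 1 = true := ex3_b k2_pp_022 k3_pp_022

theorem s8_pp_022 : ∃ t, chk3 f_pp_022 t 4 7 1 = true := ex3_a s7_pp_022 k4_pp_022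

theorem s9_pp_022 : ∃ t, chk3 f_pp_022 t 4 3 1 = true := ex3_b k1_pp_022 s8_pp_022

theorem s10_pp_022 : ∃ t, chk3 f_pp_022 t 2 3 1 = true := ex3_a s9_pp_022 k5_pp_022

theorem s11_pp_022 : ∃ t, chk3 f_pp_022 t 2 1 1 = true := ex3_b k0_pp_022 s10_pp_022

theorem s12_pp_022 : ∃ t, chk3 f_pp_022 t 1 1 1 = true := ex3_a s11_pp_022 k6_pp_022

theorem c_pp_022 : CertB 0 536870912 0 536870912 1040187392 5207648 3 eng mog cd3q0 cd0q2 pd2 false true true .pp 0 2 2
    ndB3q0 ndB0q2 pcB2 Cut.none Ext.none :=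
  certB0 (fam := false) (s1 := true) (s2 := true) (a := 0) (b := 2) (c := 2) (cn := .pp) (n1 := ndB3q0) (n2 := ndB0q2) (pc := pcB2) (cut := Cut.none) (xt := Ext.none) (P1 := 0) (W1 := 536870912) (P2 := 0) (W2 := 536870912) (P3 := 1040187392) (W3 := 5207648) (N0 := 3) (En := eng) (mo := mog) (C1 := cd3q0) (C2 := cd0q2) (C3 := pd2)
    rfl s12_pp_022

noncomputable def cut_pp_101 : Cut := Cut.of [[⟨0, 1, 0, 26843545⟩, ⟨1, 0, 0, 26843545⟩, ⟨2, 1, 0, 26843545⟩]]

noncomputable def xt_pp_101 : Ext := extD3 3 ⟨4, 1, 1, 5, 33, 5, 163, 200, 81, 200, 1, 64⟩ eng cd3q1 cd0q1 pd0 false true true .npn 1 0 1 rfl ndB3q1 ndB0q1 pcB0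

noncomputable def f_pp_101 : ℕ → ℕ → ℕ → ℕ → Bool := onCell 0 536870912 536870912 536870912 1040187392 5207648
    (rowB 3 eng mog cd3q1 cd0q1 pd0 2 false true true .npn 1 0 1 (qsf 536870912 536870912 536870912 536870912 0) ndB3q1 ndB0q1 pcB0 cut_pp_101 xt_pp_101)

def k0_pp_101 : ∃ t, chk3 f_pp_101 t 1 1 1 = true :=
  ⟨(b (l 3) (b (l 3) (b (l 3) (b (l 3) (a (b (l 3) (b (l 3) (b (a (l 3) (a (l 3) (l 3))) (a (a (b (l 3) (b (a (l 3) (l 3)) (a (a (l 6) (a (l 6) (a (l 197736086679) (l 198809796087)))) (a (a (l 3870980474548560043028135983) (b (l 160154988823) (l 16615240))) (a (a (l 16585456) (l 16563592)) (a (l 16553536) (l 16544968))))))) (b (l 3) (a (a (a (a (l 190756498855) (l 192903971191)) (a (l 194514576391) (l 194514569335))) (a (b (l 16519912) (l 16518416)) (l 16531952))) (a (l 197735712535) (l 16489288))))) (a (a (l 16440352) (l 16377656)) (l 16289128)))))) (b (l 3) (a (b (l 3) (a (l 16123584) (l 16089112))) (a (l 274507019463) (l 272896231335))))))))),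 by decide +kernel⟩

theorem c_pp_101 : CertB 536870912 536870912 536870912 536870912 1040187392 5207648 3 eng mog cd3q1 cd0q1 pd0 false true true .npn 1 0 1
    ndB3q1 ndB0q1 pcB0 cut_pp_101 xt_pp_101 :=
  certB2 (fam := false) (s1 := true) (s2 := true) (a := 1) (b := 0) (c := 1) (cn := .npn) (n1 := ndB3q1) (n2 := ndB0q1) (pc := pcB0) (cut := cut_pp_101) (xt := xt_pp_101) (P1 := 536870912) (W1 := 536870912) (P2 := 536870912) (W2 := 536870912) (P3 := 1040187392) (W3 := 5207648) (N0 := 3) (En := eng) (mo := mog) (C1 := cd3q1) (C2 := cd0q1) (C3 := pd0)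
    rfl (fun _ => rfl) k0_pp_101

noncomputable def cut_pp_102 : Cut := Cut.of [[⟨0, 1, 0, 26843545⟩, ⟨1, 0, 0, 26843545⟩, ⟨2, 1, 0, 26843545⟩]]

noncomputable def xt_pp_102 : Ext := extD3 3 ⟨4, 1, 1, 5, 33, 5, 163, 200, 81, 200, 1, 64⟩ eng cd3q1 cd0q2 pd0 false true true .npp 1 0 2 rfl ndB3q1 ndB0q2 pcB0

noncomputable def f_pp_102 : ℕ → ℕ → ℕ → ℕ → Bool := onCell 0 536870912 0 536870912 1040187392 5207648
    (rowB 3 eng mog cd3q1 cd0q2 pd0 2 false true true .npp 1 0 2 (qsf 536870912 536870912 0 536870912 0) ndB3q1 ndB0q2 pcB0 cut_pp_102 xt_pp_102)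

def k0_pp_102 : ∃ t, chk3 f_pp_102 t 2 2 1 = true :=
  ⟨(a (a (l 2) (b (l 2) (a (l 2) (l 14395928)))) (a (b (a (l 13979000) (l 13884392)) (a (l 14176320) (l 13913408))) (b (a (l 13761312) (l 13609272)) (b (a (l 13635168) (l 13336544)) (a (a (l 13669656) (l 13500728)) (b (l 13215944) (a (l 13325416) (l 13225856)))))))), by decide +kernel⟩

def k1_pp_102 : ∃ t, chk3 f_pp_102 t 4 6 1 = true :=
  ⟨(a (l 2) (b (a (l 2) (l 14714832)) (a (a (l 15391032) (b (l 15152512) (b (l 15269384) (l 131757739657609327)))) (b (a (l 14992576) (b (l 14778720) (l 14870200))) (a (b (l 15121680) (l 15277392)) (l 15137808)))))), by decide +kernel⟩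

def k2_pp_102 : ∃ t, chk3 f_pp_102 t 8 7 1 = true :=
  ⟨(b (a (l 2) (a (b (l 2) (b (l 2) (a (a (l 2) (l 16241600)) (l 16186528)))) (b (b (l 2) (a (l 2) (l 15839560))) (b (b (l 15959464) (l 16017048)) (l 16100528))))) (b (a (a (l 2) (a (b (l 2) (a (l 2) (l 16420432))) (b (a (l 2) (l 16325432)) (a (l 16422712) (l 16418752))))) (a (a (b (a (l 16328416) (l 16314192)) (b (l 16378872) (l 141157054402969711))) (b (l 16269368) (b (l 16340352) (l 16387816)))) (b (b (l 16182144) (l 139261014945513519)) (a (l 140192988664168495) (l 16309480))))) (a (a (l 6) (a (l 6) (b (b (a (l 16514152) (l 16500152)) (l 141474057624584303)) (b (b (l 16601456) (l 142506430456840303)) (b (l 16646992) (a (l 142981763130605615) (l 16657848))))))) (b (a (a (b (l 140877434949599343) (l 16533072)) (l 141189009065033775)) (b (l 16412496) (a (l 16445328) (l 16443032)))) (a (b (a (l 141933172500660271) (l 141957155541532719)) (a (b (l 16617360) (b (l 16630696) (l 142744406031597615))) (b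 (l 16588824) (b (l 16602112) (l 16610864))))) (b (a (l 16533480) (l 16509920)) (a (b (l 16562632) (b (l 16576408) (l 16585488))) (b (l 16540120) (l 16570336))))))))), by decide +kernel⟩

def k3_pp_102 : ∃ t, chk3 f_pp_102 t 9 7 1 = true :=
  ⟨(b (a (b (a (b (b (l 15598824) (l 15649600)) (l 15757008)) (l 15470384)) (b (a (l 15896040) (l 15849504)) (a (l 137558558222204975) (b (l 15976376) (l 16030288))))) (b (a (l 15555024) (b (l 15438160) (l 15650096))) (b (a (b (l 15798848) (l 15873296)) (l 15796432)) (a (l 15960792) (l 15928704))))) (a (b (a (b (b (l 16133320) (l 16186776)) (l 16276096)) (b (l 16118856) (l 16236424))) (b (a (b (l 16310912) (b (l 16418288) (l 16444192))) (b (l 16250640) (l 16393304))) (a (a (b (l 16489208) (a (l 16537136) (l 16540912))) (b (l 16472296) (b (l 16509504) (l 16533936)))) (b (l 16450112) (a (b (l 16497632) (l 16524216)) (l 16500344)))))) (b (b (a (l 16079480) (l 16043656)) (a (l 16183632) (b (l 16134768) (l 16201376)))) (b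 (a (b (l 16294880) (l 16360192)) (l 16295552)) (a (b (l 16422136) (a (l 16489048) (l 16476360))) (b (l 16390664) (l 16453168))))))), by decide +kernel⟩

def k4_pp_102 : ∃ t, chk3 f_pp_102 t 5 3 1 = true :=
  ⟨(b (a (a (b (b (l 14339032) (a (l 14515816) (b (l 14300504) (l 14378992)))) (b (a (b (l 14622872) (l 14796240)) (l 14663480)) (l 14901472))) (b (b (a (l 14066144) (l 13900040)) (a (b (l 14139984) (l 14303200)) (l 14173056))) (b (l 14656224) (b (l 15016824) (a (l 15252424) (l 15266840)))))) (b (a (b (a (b (l 13684280) (l 13807776)) (l 13686128)) (l 14186208)) (b (l 13708840) (l 14239920))) (a (b (l 14696976) (b (a (l 15072992) (l 15085752)) (l 15232032))) (b (b (l 14642720) (a (l 14897680) (l 14914048))) (l 15117960))))) (b (a (b (a (b (a (l 15437440) (l 15455672)) (a (l 15630352) (l 15603960))) (a (l 15407920) (l 15485576))) (a (b (l 15755168) (l 15876384)) (l 15690672))) (b (a (l 15444040) (l 15397264)) (a (l 15700816) (l 15656112)))) (a (b (b (a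 (l 15995080) (a (l 15951776) (l 15929864))) (a (b (l 16071336) (l 16146384)) (l 15989176))) (a (b (l 16244968) (a (l 16387864) (l 16354656))) (b (l 16181752) (l 16306912)))) (b (b (a (l 15806264) (l 15835504)) (l 15975888)) (a (b (l 16123096) (l 16246448)) (l 16108880)))))), by decide +kernel⟩

def k5_pp_102 : ∃ t, chk3 f_pp_102 t 3 1 1 = true :=
  ⟨(b (a (b (a (a (l 13427616) (l 13215584)) (a (l 12972280) (l 12696672))) (a (b (a (l 12998680) (b (l 12717224) (a (l 12637816) (l 12456536)))) (a (b (a (l 12944432) (l 12815408)) (l 13231920)) (b (l 12524288) (l 13317440)))) (b (a (b (l 12343824) (b (l 12281968) (l 12460376))) (b (b (l 12020600) (l 12076480)) (l 12443480))) (a (l 13152392) (l 13288752))))) (a (b (b (a (l 12769040) (l 12489968)) (a (b (l 12195720) (l 11887000)) (b (l 11829256) (l 11770232)))) (a (b (b (l 12058544) (l 12599520)) (l 13445672)) (b (l 12504160) (l 13618264)))) (b (b (a (l 12176872) (b (l 12118008) (l 11594328))) (a (b (c (l 11476416)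 (l 11592280)) (l 11899224)) (l 11906096))) (b (a (l 12704328) (l 12920488)) (b (l 13622168) (a (b (l 13940240) (l 14196600)) (b (l 14128408) (l 14279344)))))))) (b (a (a (b (a (l 13844792) (b (l 13877744) (b (l 14302432) (l 14582304)))) (b (a (b (l 14737560) (l 14896376)) (l 14802392)) (l 15088320))) (b (b (a (l 14003240) (l 14164456)) (a (b (l 14436872) (l 14605288)) (l 14533784))) (b (l 14805168) (l 15050120)))) (b (a (b (a (b (l 14170464) (l 14370528)) (l 14327040)) (l 14580624)) (a (l 14501256) (l 14552448))) (a (a (l 14925680) (l 14934696)) (l 14964168)))) (a (b (b (a (l 15343848) (l 15300696)) (a (b (l 15538392) (a (l 15688472) (l 15652128))) (b (l 15497840) (l 15599952)))) (b (a (b (l 15767352) (l 15880872)) (l 15753120)) (a (a (l 16077760) (l 16028928)) (b (l 15907656) (l 16014184))))) (b (b (a (l 15286640) (l 15305336)) (a (b (l 15467600) (l 15561664)) (l 15484080))) (b (a (l 15693776) (l 15647448)) (a (l 15774768) (l 15804608))))))), by decide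 +kernel⟩

theorem s6_pp_102 : ∃ t, chk3 f_pp_102 t 4 7 1 = true := ex3_a k2_pp_102 k3_pp_102

theorem s7_pp_102 : ∃ t, chk3 f_pp_102 t 4 3 1 = true := ex3_b k1_pp_102 s6_pp_102

theorem s8_pp_102 : ∃ t, chk3 f_pp_102 t 2 3 1 = true := ex3_a s7_pp_102 k4_pp_102

theorem s9_pp_102 : ∃ t, chk3 f_pp_102 t 2 1 1 = true := ex3_b k0_pp_102 s8_pp_102

theorem s10_pp_102 : ∃ t, chk3 f_pp_102 t 1 1 1 = true := ex3_a s9_pp_102 k5_pp_102

theorem c_pp_102 : CertB 536870912 536870912 0 536870912 1040187392 5207648 3 eng mog cd3q1 cd0q2 pd0 false true true .npp 1 0 2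
    ndB3q1 ndB0q2 pcB0 cut_pp_102 xt_pp_102 :=
  certB2 (fam := false) (s1 := true) (s2 := true) (a := 1) (b := 0) (c := 2) (cn := .npp) (n1 := ndB3q1) (n2 := ndB0q2) (pc := pcB0) (cut := cut_pp_102) (xt := xt_pp_102) (P1 := 536870912) (W1 := 536870912) (P2 := 0) (W2 := 536870912) (P3 := 1040187392) (W3 := 5207648) (N0 := 3) (En := eng) (mo := mog) (C1 := cd3q1) (C2 := cd0q2) (C3 := pd0)
    rfl (fun _ => rfl) s10_pp_102

noncomputable def f_pp_112 : ℕ → ℕ → ℕ → ℕ → Bool := onCell 536870912 536870912 0 536870912 1040187392 5207648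
    (rowB 3 eng mog cd3q1 cd0q2 pd1 2 false true true .dn 1 1 2 (qsf 536870912 536870912 0 536870912 1) ndB3q1 ndB0q2 pcB1 Cut.none Ext.none)

def k0_pp_112 : ∃ t, chk3 f_pp_112 t 1 1 1 = true :=
  ⟨(a (b (a (b (b (a (l 14168912) (l 14199128)) (l 14251288)) (a (b (l 14311408) (b (l 14431216) (l 14608424))) (b (l 14459936) (b (l 14618936) (l 14864304))))) (b (l 249136477159) (a (b (l 178806785767) (l 14949952)) (l 1)))) (b (a (a (b (l 15081520) (l 15469296)) (b (l 15252136) (l 15636240))) (l 1)) (a (a (b (b (b (l 16123944) (l 16262728)) (l 16231216)) (b (l 16092944) (l 15881080))) (b (b (b (l 16115744) (l 16187912)) (l 1)) (l 1))) (l 1)))) (l 1)), by decide +kernel⟩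

theorem c_pp_112 : CertB 536870912 536870912 0 536870912 1040187392 5207648 3 eng mog cd3q1 cd0q2 pd1 false true true .dn 1 1 2
    ndB3q1 ndB0q2 pcB1 Cut.none Ext.none :=
  certB2 (fam := false) (s1 := true) (s2 := true) (a := 1) (b := 1) (c := 2) (cn := .dn) (n1 := ndB3q1) (n2 := ndB0q2) (pc := pcB1) (cut := Cut.none) (xt := Ext.none) (P1 := 536870912) (W1 := 536870912) (P2 := 0) (W2 := 536870912) (P3 := 1040187392) (W3 := 5207648) (N0 := 3) (En := eng) (mo := mog) (C1 := cd3q1) (C2 := cd0q2) (C3 := pd1)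
    rfl (fun _ => rfl) k0_pp_112

noncomputable def f_pp_202 : ℕ → ℕ → ℕ → ℕ → Bool := onCell 1073741824 536870912 0 536870912 1040187392 5207648
    (rowB 3 eng mog cd3q2 cd0q2 pd0 0 false true true .pp 2 0 2 (qsf 1073741824 536870912 0 536870912 0) ndB3q2 ndB0q2 pcB0 Cut.none Ext.none)

def k0_pp_202 : ∃ t, chk3 f_pp_202 t 1 1 1 = true :=
  ⟨(l 3), by decide +kernel⟩

theorem c_pp_202 : CertB 1073741824 536870912 0 536870912 1040187392 5207648 3 eng mog cd3q2 cd0q2 pd0 false true true .pp 2 0 2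
    ndB3q2 ndB0q2 pcB0 Cut.none Ext.none :=
  certB0 (fam := false) (s1 := true) (s2 := true) (a := 2) (b := 0) (c := 2) (cn := .pp) (n1 := ndB3q2) (n2 := ndB0q2) (pc := pcB0) (cut := Cut.none) (xt := Ext.none) (P1 := 1073741824) (W1 := 536870912) (P2 := 0) (W2 := 536870912) (P3 := 1040187392) (W3 := 5207648) (N0 := 3) (En := eng) (mo := mog) (C1 := cd3q2) (C2 := cd0q2) (C3 := pd0)
    rfl k0_pp_202

noncomputable def f_pm_001 : ℕ → ℕ → ℕ → ℕ → Bool := onCell 0 536870912 0 536870912 1040187392 5207648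
    (rowB 3 eng mog cd3q0 cd0q1 pd0 1 false true false .up 0 0 1 (qsf 0 536870912 536870912 536870912 0) ndB3q0 ndB0q1 pcB0 Cut.none Ext.none)

def k0_pm_001 : ∃ t, chk3 f_pm_001 t 1 1 1 = true :=
  ⟨(a (l 4) (l 4)), by decide +kernel⟩

theorem c_pm_001 : CertB 0 536870912 536870912 536870912 1040187392 5207648 3 eng mog cd3q0 cd0q1 pd0 false true false .up 0 0 1
    ndB3q0 ndB0q1 pcB0 Cut.none Ext.none :=
  certB1 (fam := false) (s1 := true) (s2 := false) (a := 0) (b := 0) (c := 1) (cn := .up) (n1 := ndB3q0) (n2 := ndB0q1) (pc := pcB0) (cut := Cut.none) (xt := Ext.none) (P1 := 0) (W1 := 536870912) (P2 := 536870912) (W2 := 536870912) (P3 := 1040187392) (W3 := 5207648) (N0 := 3) (En := eng) (mo := mog) (C1 := cd3q0) (C2 := cd0q1) (C3 := pd0)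
    rfl (fun _ => rfl) k0_pm_001

noncomputable def f_pm_011 : ℕ → ℕ → ℕ → ℕ → Bool := onCell 0 536870912 536870912 536870912 1040187392 5207648
    (rowB 3 eng mog cd3q0 cd0q1 pd1 0 false true false .pnn 0 1 1 (qsf 0 536870912 536870912 536870912 1) ndB3q0 ndB0q1 pcB1 Cut.none Ext.none)

def k0_pm_011 : ∃ t, chk3 f_pm_011 t 1 1 1 = true :=
  ⟨(a (b (l 4) (a (b (l 4) (l 4)) (l 4))) (l 4)), by decide +kernel⟩

theorem c_pm_011 : CertB 0 536870912 536870912 536870912 1040187392 5207648 3 eng mog cd3q0 cd0q1 pd1 false true false .pnn 0 1 1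
    ndB3q0 ndB0q1 pcB1 Cut.none Ext.none :=
  certB0 (fam := false) (s1 := true) (s2 := false) (a := 0) (b := 1) (c := 1) (cn := .pnn) (n1 := ndB3q0) (n2 := ndB0q1) (pc := pcB1) (cut := Cut.none) (xt := Ext.none) (P1 := 0) (W1 := 536870912) (P2 := 536870912) (W2 := 536870912) (P3 := 1040187392) (W3 := 5207648) (N0 := 3) (En := eng) (mo := mog) (C1 := cd3q0) (C2 := cd0q1) (C3 := pd1)
    rfl k0_pm_011

noncomputable def xt_pm_012 : Ext := extD3 3 ⟨4, 1, 1, 5, 33, 5, 163, 200, 81, 200, 1, 64⟩ eng cd3q0 cd0q2 pd1 false true false .pnp 0 1 2 rfl ndB3q0 ndB0q2 pcB1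

noncomputable def f_pm_012 : ℕ → ℕ → ℕ → ℕ → Bool := onCell 536870912 536870912 0 536870912 1040187392 5207648
    (rowB 3 eng mog cd3q0 cd0q2 pd1 2 false true false .pnp 0 1 2 (qsf 0 536870912 0 536870912 1) ndB3q0 ndB0q2 pcB1 Cut.none xt_pm_012)

def k0_pm_012 : ∃ t, chk3 f_pm_012 t 2 1 1 = true :=
  ⟨(b (a (a (l 2) (b (l 2) (b (l 2) (b (l 2) (l 11650080))))) (b (a (b (a (l 11341816) (l 11395624)) (l 11495224)) (b (l 11608640) (b (l 11545912) (l 11592408)))) (a (b (b (l 11733584) (l 11861112)) (b (l 11848016) (l 11767048))) (b (a (l 11833192) (l 11881192)) (a (l 12044384) (l 12164520)))))) (b (a (l 4) (a (l 4) (b (b (l 12070704) (l 4)) (l 4)))) (l 4))), by decide +kernel⟩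

def k1_pm_012 : ∃ t, chk3 f_pm_012 t 3 1 1 = true :=
  ⟨(b (a (a (b (a (b (l 11956616) (a (l 11761968) (l 11880752))) (l 12181856)) (b (a (a (l 11932760) (l 11982488)) (b (l 12055976) (l 12169120))) (a (l 12312152) (b (l 12413216) (l 12585320))))) (b (a (l 12525480) (l 12917040)) (a (b (b (l 12363040) (l 12384552)) (b (l 12552104) (l 12783280))) (b (l 12736424) (a (b (l 12694120) (l 12952984)) (b (l 12848728) (l 13041936))))))) (a (b (a (l 13353992) (l 13833184)) (b (l 13402024) (a (a (b (a (l 12986736) (l 13096000)) (b (l 13090352) (l 13209712))) (b (l 13268416) (b (l 13288096) (l 13340848)))) (a (b (l 13507304) (l 13535096)) (l 13772672))))) (b (a (l 14350632) (l 14901264)) (a (l 14167496) (b (l 14704736) (l 14721352)))))) (a (b (b (a (a (l 12544928) (l 12774440)) (a (b (l 12980728) (l 13117480)) (b (l 13233064) (l 13416176)))) (l 4)) (l 4)) (b (a (b (a (a (b (l 13431392) (l 13673512)) (b (a (l 13520760) (l 13571200)) (l 13821560))) (b (a (b (l 13607072)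 (l 13730208)) (l 13893008)) (a (b (l 13903224) (l 14041416)) (b (l 13996424) (l 14184384))))) (a (l 90423325191) (a (l 14358640) (b (b (l 14324576) (l 14458928)) (l 4))))) (a (b (b (l 14245312) (a (l 14256368) (l 14504448))) (a (b (l 14276920) (l 14833352)) (b (b (l 14619464) (a (l 14724144) (l 14786392))) (l 14829088)))) (b (l 14861720) (a (b (l 14918480) (l 129329055451332671)) (b (l 15199456) (a (l 15320288) (l 15456464))))))) (a (l 4) (b (a (l 4) (b (a (l 15481896) (b (l 15583232) (l 15741792))) (l 4))) (l 4)))))), by decide +kernel⟩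

theorem s2_pm_012 : ∃ t, chk3 f_pm_012 t 1 1 1 = true := ex3_a k0_pm_012 k1_pm_012

theorem c_pm_012 : CertB 0 536870912 0 536870912 1040187392 5207648 3 eng mog cd3q0 cd0q2 pd1 false true false .pnp 0 1 2
    ndB3q0 ndB0q2 pcB1 Cut.none xt_pm_012 :=
  certB2 (fam := false) (s1 := true) (s2 := false) (a := 0) (b := 1) (c := 2) (cn := .pnp) (n1 := ndB3q0) (n2 := ndB0q2) (pc := pcB1) (cut := Cut.none) (xt := xt_pm_012) (P1 := 0) (W1 := 536870912) (P2 := 0) (W2 := 536870912) (P3 := 1040187392) (W3 := 5207648) (N0 := 3) (En := eng) (mo := mog) (C1 := cd3q0) (C2 := cd0q2) (C3 := pd1)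
    rfl (fun _ => rfl) s2_pm_012

noncomputable def f_pm_022 : ℕ → ℕ → ℕ → ℕ → Bool := onCell 0 536870912 0 536870912 1040187392 5207648
    (rowB 3 eng mog cd3q0 cd0q2 pd2 0 false true false .pp 0 2 2 (qsf 0 536870912 0 536870912 2) ndB3q0 ndB0q2 pcB2 Cut.none Ext.none)

def k0_pm_022 : ∃ t, chk3 f_pm_022 t 2 2 1 = true :=
  ⟨(a (b (a (a (a (b (l 15291208) (b (l 15207856) (a (l 15211080) (l 15226328)))) (a (b (l 15275512) (b (l 15182592) (l 15262304))) (b (l 15319208) (b (l 15260928) (l 15352584))))) (a (b (a (l 15364744) (l 15348512)) (a (b (l 15324160) (l 15436520)) (l 15388696))) (b (l 15306752) (l 15376712)))) (a (b (l 15234576) (l 15320512)) (b (a (l 15155176) (l 15095696)) (l 15144792)))) (a (a (a (b (l 15352000) (b (l 15754456) (l 15933376))) (b (a (l 15458800) (l 15596024)) (a (l 15709240) (l 15907600)))) (a (b (a (l 15663864) (l 15658648)) (a (l 15929576) (l 15917064))) (b (l 15613992) (l 15824920)))) (a (b (l 15362800) (a (l 15669264) (l 15478184)))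 (b (l 15162816) (a (l 15257400) (l 15009696)))))) (a (a (b (b (a (l 15021728) (l 14926440)) (l 14867800)) (b (l 14754720) (l 14594088))) (b (b (l 1) (l 1)) (l 1))) (l 1))), by decide +kernel⟩

def k1_pm_022 : ∃ t, chk3 f_pm_022 t 2 3 1 = true :=
  ⟨(a (b (a (b (a (a (b (l 16103760) (l 16259280)) (a (b (l 16081968) (l 16212800)) (l 16132184))) (a (a (l 16102272) (l 16116672)) (l 15967384))) (a (a (b (l 16331248) (l 16456520)) (a (b (l 16317464) (l 16390016)) (b (l 16313344) (l 16366840)))) (a (a (b (l 16298664) (l 16333056)) (l 16189344)) (b (l 16006008) (l 15991416))))) (a (b (a (l 15738144) (l 15475936)) (b (l 15501336) (a (l 15666608) (l 15314840)))) (b (a (l 15184504) (l 14867768)) (b (l 14875656) (l 1))))) (a (b (a (a (b (a (l 16613432) (l 16516512)) (b (l 16525816) (a (l 16644992) (l 16520008)))) (a (b (l 16361208) (a (l 16345920) (l 16398736))) (b (l 16382240) (b (l 16367768) (l 16348592))))) (a (b (a (l 16331312) (l 16191608)) (a (b (l 16306360)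 (l 16295976)) (l 66805314119))) (b (l 15862256) (b (l 15924184) (l 4))))) (b (a (a (b (a (l 16565960) (l 16456824)) (a (b (l 16598312) (l 16625888)) (l 4))) (a (b (a (l 16400912) (l 4)) (l 4)) (l 4))) (l 4)) (l 4))) (b (a (b (a (l 15501840) (l 1)) (l 1)) (l 1)) (l 1)))) (b (l 1) (l 1))), by decide +kernel⟩

def k2_pm_022 : ∃ t, chk3 f_pm_022 t 3 1 1 = true :=
  ⟨(l 1), by decide +kernel⟩

theorem s3_pm_022 : ∃ t, chk3 f_pm_022 t 2 1 1 = true := ex3_b k0_pm_022 k1_pm_022

theorem s4_pm_022 : ∃ t, chk3 f_pm_022 t 1 1 1 = true := ex3_a s3_pm_022 k2_pm_022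

theorem c_pm_022 : CertB 0 536870912 0 536870912 1040187392 5207648 3 eng mog cd3q0 cd0q2 pd2 false true false .pp 0 2 2
    ndB3q0 ndB0q2 pcB2 Cut.none Ext.none :=
  certB0 (fam := false) (s1 := true) (s2 := false) (a := 0) (b := 2) (c := 2) (cn := .pp) (n1 := ndB3q0) (n2 := ndB0q2) (pc := pcB2) (cut := Cut.none) (xt := Ext.none) (P1 := 0) (W1 := 536870912) (P2 := 0) (W2 := 536870912) (P3 := 1040187392) (W3 := 5207648) (N0 := 3) (En := eng) (mo := mog) (C1 := cd3q0) (C2 := cd0q2) (C3 := pd2)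
    rfl s4_pm_022

noncomputable def f_pm_101 : ℕ → ℕ → ℕ → ℕ → Bool := onCell 536870912 536870912 536870912 536870912 1040187392 5207648
    (rowB 3 eng mog cd3q1 cd0q1 pd0 0 false true false .npn 1 0 1 (qsf 536870912 536870912 536870912 536870912 0) ndB3q1 ndB0q1 pcB0 Cut.none Ext.none)

def k0_pm_101 : ∃ t, chk3 f_pm_101 t 1 1 1 = true :=
  ⟨(l 4), by decide +kernel⟩

theorem c_pm_101 : CertB 536870912 536870912 536870912 536870912 1040187392 5207648 3 eng mog cd3q1 cd0q1 pd0 false true false .npn 1 0 1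
    ndB3q1 ndB0q1 pcB0 Cut.none Ext.none :=
  certB0 (fam := false) (s1 := true) (s2 := false) (a := 1) (b := 0) (c := 1) (cn := .npn) (n1 := ndB3q1) (n2 := ndB0q1) (pc := pcB0) (cut := Cut.none) (xt := Ext.none) (P1 := 536870912) (W1 := 536870912) (P2 := 536870912) (W2 := 536870912) (P3 := 1040187392) (W3 := 5207648) (N0 := 3) (En := eng) (mo := mog) (C1 := cd3q1) (C2 := cd0q1) (C3 := pd0)
    rfl k0_pm_101

noncomputable def f_pm_102 : ℕ → ℕ → ℕ → ℕ → Bool := onCell 0 536870912 0 536870912 1040187392 5207648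
    (rowB 3 eng mog cd3q1 cd0q2 pd0 2 false true false .npp 1 0 2 (qsf 536870912 536870912 0 536870912 0) ndB3q1 ndB0q2 pcB0 Cut.none Ext.none)

def k0_pm_102 : ∃ t, chk3 f_pm_102 t 1 1 1 = true :=
  ⟨(b (a (a (b (l 2) (a (l 2) (l 89213991287))) (b (a (b (l 13896552) (l 13823424)) (b (l 13922008) (l 13991808))) (a (l 13631176) (l 13835512)))) (a (b (a (b (l 13865024) (l 14138200)) (b (l 13717256) (b (l 14165560) (l 14336952)))) (b (l 14161472) (a (l 13967800) (l 14128432)))) (b (a (b (l 13466240) (b (l 14093352) (l 14462216))) (b (a (l 13201264) (l 12984848)) (a (l 14235776) (l 14136888)))) (a (b (l 14446776) (l 14268072)) (b (a (l 14589752) (l 14675992)) (l 14391736)))))) (b (a (l 4) (l 4)) (l 4))), by decide +kernel⟩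

theorem c_pm_102 : CertB 536870912 536870912 0 536870912 1040187392 5207648 3 eng mog cd3q1 cd0q2 pd0 false true false .npp 1 0 2
    ndB3q1 ndB0q2 pcB0 Cut.none Ext.none :=
  certB2 (fam := false) (s1 := true) (s2 := false) (a := 1) (b := 0) (c := 2) (cn := .npp) (n1 := ndB3q1) (n2 := ndB0q2) (pc := pcB0) (cut := Cut.none) (xt := Ext.none) (P1 := 536870912) (W1 := 536870912) (P2 := 0) (W2 := 536870912) (P3 := 1040187392) (W3 := 5207648) (N0 := 3) (En := eng) (mo := mog) (C1 := cd3q1) (C2 := cd0q2) (C3 := pd0)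
    rfl (fun _ => rfl) k0_pm_102

noncomputable def f_pm_112 : ℕ → ℕ → ℕ → ℕ → Bool := onCell 536870912 536870912 0 536870912 1040187392 5207648
    (rowB 3 eng mog cd3q1 cd0q2 pd1 2 false true false .dn 1 1 2 (qsf 536870912 536870912 0 536870912 1) ndB3q1 ndB0q2 pcB1 Cut.none Ext.none)

def k0_pm_112 : ∃ t, chk3 f_pm_112 t 1 1 1 = true :=
  ⟨(a (b (a (a (b (l 14420384) (b (l 14589064) (l 14463776))) (b (b (l 14211280) (l 14449000)) (b (l 14602216) (l 14615968)))) (a (b (b (l 14194920) (l 14304120)) (b (l 14322576) (l 14641912))) (l 1))) (b (a (l 4) (l 1)) (l 4))) (l 1)), by decide +kernel⟩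

theorem c_pm_112 : CertB 536870912 536870912 0 536870912 1040187392 5207648 3 eng mog cd3q1 cd0q2 pd1 false true false .dn 1 1 2
    ndB3q1 ndB0q2 pcB1 Cut.none Ext.none :=
  certB2 (fam := false) (s1 := true) (s2 := false) (a := 1) (b := 1) (c := 2) (cn := .dn) (n1 := ndB3q1) (n2 := ndB0q2) (pc := pcB1) (cut := Cut.none) (xt := Ext.none) (P1 := 536870912) (W1 := 536870912) (P2 := 0) (W2 := 536870912) (P3 := 1040187392) (W3 := 5207648) (N0 := 3) (En := eng) (mo := mog) (C1 := cd3q1) (C2 := cd0q2) (C3 := pd1)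
    rfl (fun _ => rfl) k0_pm_112

noncomputable def f_pm_202 : ℕ → ℕ → ℕ → ℕ → Bool := onCell 0 536870912 0 536870912 1040187392 5207648
    (rowB 3 eng mog cd3q2 cd0q2 pd0 2 false true false .pp 2 0 2 (qsf 1073741824 536870912 0 536870912 0) ndB3q2 ndB0q2 pcB0 Cut.none Ext.none)

def k0_pm_202 : ∃ t, chk3 f_pm_202 t 2 2 1 = true :=
  ⟨(l 3), by decide +kernel⟩

def k1_pm_202 : ∃ t, chk3 f_pm_202 t 2 6 1 = true :=
  ⟨(l 3), by decide +kernel⟩

def k2_pm_202 : ∃ t, chk3 f_pm_202 t 2 14 1 = true :=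
  ⟨(l 3), by decide +kernel⟩

def k3_pm_202 : ∃ t, chk3 f_pm_202 t 8 60 1 = true :=
  ⟨(l 3), by decide +kernel⟩

def k4_pm_202 : ∃ t, chk3 f_pm_202 t 16 122 1 = true :=
  ⟨(l 3), by decide +kernel⟩

def k5_pm_202 : ∃ t, chk3 f_pm_202 t 16 246 1 = true :=
  ⟨(b (l 3) (b (l 3) (a (a (a (l 3) (a (l 3) (l 16607416))) (a (a (l 16617728) (l 16628152)) (a (l 16638688) (l 16649328)))) (a (a (a (l 16660064) (l 16670912)) (a (l 16683168) (a (l 16690120) (c (l 141767316263) (l 16695104))))) (l 1))))), by decide +kernel⟩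

def k6_pm_202 : ∃ t, chk3 f_pm_202 t 512 1976 1 = true :=
  ⟨(b (b (l 3) (b (l 3) (b (a (l 3) (l 1323554166119)) (a (a (c (a (a (l 16574928) (l 16575256)) (l 16575696)) (b (a (l 3) (l 16574152)) (a (a (a (a (l 16573304) (l 16573392)) (c (l 16573896) (l 16573136))) (l 16573736)) (l 16574208)))) (c (l 16576632) (l 16575128))) (l 16577768))))) (a (a (b (a (a (b (c (a (l 16575024) (l 16575144)) (b (a (a (l 16573408) (a (l 16573448) (l 16573480))) (c (l 16573952) (a (l 16573160) (l 16573240)))) (a (l 16573592) (c (l 16574072) (l 16573312))))) (l 16574640)) (b (b (c (l 16575344) (b (a (l 16573736) (l 16573896)) (a (b (l 16573776) (l 16573792)) (l 16573960)))) (a (c (l 16575336) (c (l 16574208) (l 16573448))) (a (l 16574728) (l 16574824)))) (c (l 16575600) (a (c (l 16574400) (a (l 16573624) (l 16573664))) (c (l 16574520) (a (l 16573720) (l 16573784))))))) (b (b (a (c (l 16575680) (l 16574168)) (l 16575240)) (a (a (c (l 16575712) (l 16574200)) (l 16573832))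 (c (l 16576144) (l 16574632)))) (b (a (l 16575112) (c (l 16576240) (l 16574728))) (a (a (l 16575072) (l 16575248)) (l 16575544))))) (a (l 16575224) (b (a (a (a (l 16575240) (l 16575288)) (a (l 16575336) (l 16575400))) (l 16575624)) (a (l 16575640) (a (l 16575760) (l 16575864)))))) (b (b (c (l 16568008) (a (l 16575032) (l 16575664))) (a (a (c (l 16576632) (l 16575128)) (l 16576232)) (l 16576720))) (b (a (l 16576192) (l 16567760)) (a (a (l 16576104) (l 16576472)) (l 16577056))))) (b (a (l 16569648) (l 16578776)) (a (a (l 16568544) (l 16578416)) (l 16579384))))), by decide +kernel⟩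

def k7_pm_202 : ∃ t, chk3 f_pm_202 t 512 1977 1 = true :=
  ⟨(b (b (a (a (l 16576056) (a (a (a (l 16576424) (l 16576512)) (a (l 16576632) (l 16576768))) (l 16577208))) (a (l 16578352) (l 16569352))) (a (a (l 16576728) (a (l 16577224) (a (l 16577464) (l 16577688)))) (a (a (l 16578176) (l 16578920)) (l 16580080)))) (a (l 16578072) (a (a (b (l 16578576) (l 16579232)) (l 16579384)) (l 16580392)))), by decide +kernel⟩

def k8_pm_202 : ∃ t, chk3 f_pm_202 t 512 989 1 = true :=
  ⟨(a (l 16581456) (b (a (l 16581112) (b (a (l 16580896) (l 16581344)) (l 16582448))) (l 16584216))), by decide +kernel⟩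

def k9_pm_202 : ∃ t, chk3 f_pm_202 t 513 494 1 = true :=
  ⟨(b (a (b (b (l 35063973175) (l 16570496)) (b (a (l 16570912) (l 16582792)) (l 16582672))) (b (l 73718686871) (b (l 16584712) (l 16564680)))) (a (a (b (b (l 16582328) (l 16583136)) (l 16585184)) (b (l 16584072) (b (l 16585128) (l 16586520)))) (b (l 16586336) (a (l 16586736) (l 16587968))))), by decide +kernel⟩

def k10_pm_202 : ∃ t, chk3 f_pm_202 t 256 495 1 = true :=
  ⟨(a (l 16590472) (a (l 16592680) (a (l 16593688) (a (l 16594168) (l 16584264))))), by decide +kernel⟩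

def k11_pm_202 : ∃ t, chk3 f_pm_202 t 257 247 1 = true :=
  ⟨(b (b (a (b (l 77476791511) (a (l 16587848) (l 16590400))) (l 16582576)) (a (b (b (l 16580080) (l 16591152)) (l 16591728)) (b (l 16575520) (l 16597848)))) (a (b (a (b (l 16591392) (l 16593720)) (l 16573872)) (l 16598832)) (b (l 16599096) (a (l 16600720) (l 16602792))))), by decide +kernel⟩

def k12_pm_202 : ∃ t, chk3 f_pm_202 t 129 247 1 = true :=
  ⟨(b (a (b (a (l 16598152) (l 16603272)) (a (l 16581720) (l 16608000))) (b (l 16611016) (l 16615712))) (a (b (a (l 16605256) (l 16611264)) (l 16610088)) (b (l 16619808) (l 16622048)))), by decide +kernel⟩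

def k13_pm_202 : ∃ t, chk3 f_pm_202 t 65 247 1 = true :=
  ⟨(b (a (a (b (l 16621416) (l 16626040)) (l 16634184)) (a (l 16644728) (l 16655368))) (a (a (b (l 16630672) (l 16634088)) (a (l 16640640) (l 16645968))) (l 16643288))), by decide +kernel⟩

def k14_pm_202 : ∃ t, chk3 f_pm_202 t 33 247 1 = true :=
  ⟨(a (b (a (a (l 16666088) (l 16676896)) (a (l 16677312) (a (l 16696024) (l 1)))) (a (l 16680144) (a (l 16696208) (l 1)))) (l 1)), by decide +kernel⟩

def k15_pm_202 : ∃ t, chk3 f_pm_202 t 17 61 1 = true :=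
  ⟨(l 1), by decide +kernel⟩

def k16_pm_202 : ∃ t, chk3 f_pm_202 t 9 30 1 = true :=
  ⟨(l 1), by decide +kernel⟩

def k17_pm_202 : ∃ t, chk3 f_pm_202 t 4 31 1 = true :=
  ⟨(a (a (a (a (b (b (b (a (a (l 16609376) (l 16615736)) (a (b (a (b (l 16589104) (l 16615904)) (l 16606280)) (l 16627024)) (b (l 16624496) (a (l 16629272) (l 16632224))))) (a (l 16637664) (l 16629104))) (a (b (l 16663144) (l 16688984)) (a (l 16669720) (l 16676408)))) (a (b (a (l 16700248) (l 16713960)) (b (a (l 16759472) (l 16747912)) (l 16754328))) (b (a (l 16705992) (l 16716488)) (b (l 425772080887) (l 1))))) (b (b (a (a (b (b (l 16636440) (l 16639712)) (b (a (l 16645616) (l 16647936)) (l 16661696))) (b (b (a (l 16645760) (l 16652368)) (l 16652320)) (b (a (l 16652144) (l 16659776)) (a (l 16662520) (l 16667008))))) (b (b (a (l 16661584) (l 16673064)) (a (l 16667088) (l 16680248))) (a (a (l 16671824) (l 16679160)) (l 16690584)))) (a (a (l 16681104) (l 16659312)) (b (a (b (l 16689312)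 (l 16706488)) (b (l 16702576) (l 16714600))) (l 16716368)))) (b (a (b (l 16712296) (l 1)) (l 1)) (l 1)))) (a (b (b (b (a (a (b (l 16683936) (l 16692032)) (b (l 16694272) (l 16703032))) (b (l 249141490071) (l 1))) (a (a (l 16704320) (l 16716816)) (l 1))) (l 1)) (l 1)) (l 1))) (l 1)) (l 1)), by decide +kernel⟩

def k18_pm_202 : ∃ t, chk3 f_pm_202 t 5 15 1 = true :=
  ⟨(l 1), by decide +kernel⟩

def k19_pm_202 : ∃ t, chk3 f_pm_202 t 3 1 1 = true :=
  ⟨(l 1), by decide +kernel⟩

theorem s20_pm_202 : ∃ t, chk3 f_pm_202 t 512 988 1 = true := ex3_b k6_pm_202 k7_pm_202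

theorem s21_pm_202 : ∃ t, chk3 f_pm_202 t 512 494 1 = true := ex3_b s20_pm_202 k8_pm_202

theorem s22_pm_202 : ∃ t, chk3 f_pm_202 t 256 494 1 = true := ex3_a s21_pm_202 k9_pm_202

theorem s23_pm_202 : ∃ t, chk3 f_pm_202 t 256 247 1 = true := ex3_b s22_pm_202 k10_pm_202

theorem s24_pm_202 : ∃ t, chk3 f_pm_202 t 128 247 1 = true := ex3_a s23_pm_202 k11_pm_202

theorem s25_pm_202 : ∃ t, chk3 f_pm_202 t 64 247 1 = true := ex3_a s24_pm_202 k12_pm_202

theorem s26_pm_202 : ∃ t, chk3 f_pm_202 t 32 247 1 = true := ex3_a s25_pm_202 k13_pm_202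

theorem s27_pm_202 : ∃ t, chk3 f_pm_202 t 16 247 1 = true := ex3_a s26_pm_202 k14_pm_202

theorem s28_pm_202 : ∃ t, chk3 f_pm_202 t 16 123 1 = true := ex3_b k5_pm_202 s27_pm_202

theorem s29_pm_202 : ∃ t, chk3 f_pm_202 t 16 61 1 = true := ex3_b k4_pm_202 s28_pm_202

theorem s30_pm_202 : ∃ t, chk3 f_pm_202 t 8 61 1 = true := ex3_a s29_pm_202 k15_pm_202

theorem s31_pm_202 : ∃ t, chk3 f_pm_202 t 8 30 1 = true := ex3_b k3_pm_202 s30_pm_202

theorem s32_pm_202 : ∃ t, chk3 f_pm_202 t 4 30 1 = true := ex3_a s31_pm_202 k16_pm_202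

theorem s33_pm_202 : ∃ t, chk3 f_pm_202 t 4 15 1 = true := ex3_b s32_pm_202 k17_pm_202

theorem s34_pm_202 : ∃ t, chk3 f_pm_202 t 2 15 1 = true := ex3_a s33_pm_202 k18_pm_202

theorem s35_pm_202 : ∃ t, chk3 f_pm_202 t 2 7 1 = true := ex3_b k2_pm_202 s34_pm_202

theorem s36_pm_202 : ∃ t, chk3 f_pm_202 t 2 3 1 = true := ex3_b k1_pm_202 s35_pm_202

theorem s37_pm_202 : ∃ t, chk3 f_pm_202 t 2 1 1 = true := ex3_b k0_pm_202 s36_pm_202

theorem s38_pm_202 : ∃ t, chk3 f_pm_202 t 1 1 1 = true := ex3_a s37_pm_202 k19_pm_202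

theorem c_pm_202 : CertB 1073741824 536870912 0 536870912 1040187392 5207648 3 eng mog cd3q2 cd0q2 pd0 false true false .pp 2 0 2
    ndB3q2 ndB0q2 pcB0 Cut.none Ext.none :=
  certB2 (fam := false) (s1 := true) (s2 := false) (a := 2) (b := 0) (c := 2) (cn := .pp) (n1 := ndB3q2) (n2 := ndB0q2) (pc := pcB0) (cut := Cut.none) (xt := Ext.none) (P1 := 1073741824) (W1 := 536870912) (P2 := 0) (W2 := 536870912) (P3 := 1040187392) (W3 := 5207648) (N0 := 3) (En := eng) (mo := mog) (C1 := cd3q2) (C2 := cd0q2) (C3 := pd0)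
    rfl (fun _ => rfl) s38_pm_202

noncomputable def f_mm_001 : ℕ → ℕ → ℕ → ℕ → Bool := onCell 0 536870912 536870912 536870912 1040187392 5207648
    (rowB 3 eng mog cd3q0 cd0q1 pd0 0 false false false .up 0 0 1 (qsf 0 536870912 536870912 536870912 0) ndB3q0 ndB0q1 pcB0 Cut.none Ext.none)

def k0_mm_001 : ∃ t, chk3 f_mm_001 t 1 1 1 = true :=
  ⟨(l 5), by decide +kernel⟩

theorem c_mm_001 : CertB 0 536870912 536870912 536870912 1040187392 5207648 3 eng mog cd3q0 cd0q1 pd0 false false false .up 0 0 1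
    ndB3q0 ndB0q1 pcB0 Cut.none Ext.none :=
  certB0 (fam := false) (s1 := false) (s2 := false) (a := 0) (b := 0) (c := 1) (cn := .up) (n1 := ndB3q0) (n2 := ndB0q1) (pc := pcB0) (cut := Cut.none) (xt := Ext.none) (P1 := 0) (W1 := 536870912) (P2 := 536870912) (W2 := 536870912) (P3 := 1040187392) (W3 := 5207648) (N0 := 3) (En := eng) (mo := mog) (C1 := cd3q0) (C2 := cd0q1) (C3 := pd0)
    rfl k0_mm_001

noncomputable def f_mm_011 : ℕ → ℕ → ℕ → ℕ → Bool := onCell 0 536870912 536870912 536870912 1040187392 5207648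
    (rowB 3 eng mog cd3q0 cd0q1 pd1 0 false false false .pnn 0 1 1 (qsf 0 536870912 536870912 536870912 1) ndB3q0 ndB0q1 pcB1 Cut.none Ext.none)

def k0_mm_011 : ∃ t, chk3 f_mm_011 t 1 1 1 = true :=
  ⟨(l 5), by decide +kernel⟩

theorem c_mm_011 : CertB 0 536870912 536870912 536870912 1040187392 5207648 3 eng mog cd3q0 cd0q1 pd1 false false false .pnn 0 1 1
    ndB3q0 ndB0q1 pcB1 Cut.none Ext.none :=
  certB0 (fam := false) (s1 := false) (s2 := false) (a := 0) (b := 1) (c := 1) (cn := .pnn) (n1 := ndB3q0) (n2 := ndB0q1) (pc := pcB1) (cut := Cut.none) (xt := Ext.none) (P1 := 0) (W1 := 536870912) (P2 := 536870912) (W2 := 536870912) (P3 := 1040187392) (W3 := 5207648) (N0 := 3) (En := eng) (mo := mog) (C1 := cd3q0) (C2 := cd0q1) (C3 := pd1)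
    rfl k0_mm_011

noncomputable def f_mm_012 : ℕ → ℕ → ℕ → ℕ → Bool := onCell 0 536870912 0 536870912 1040187392 5207648
    (rowB 3 eng mog cd3q0 cd0q2 pd1 0 false false false .pnp 0 1 2 (qsf 0 536870912 0 536870912 1) ndB3q0 ndB0q2 pcB1 Cut.none Ext.none)

def k0_mm_012 : ∃ t, chk3 f_mm_012 t 1 1 1 = true :=
  ⟨(l 5), by decide +kernel⟩

theorem c_mm_012 : CertB 0 536870912 0 536870912 1040187392 5207648 3 eng mog cd3q0 cd0q2 pd1 false false false .pnp 0 1 2
    ndB3q0 ndB0q2 pcB1 Cut.none Ext.none :=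
  certB0 (fam := false) (s1 := false) (s2 := false) (a := 0) (b := 1) (c := 2) (cn := .pnp) (n1 := ndB3q0) (n2 := ndB0q2) (pc := pcB1) (cut := Cut.none) (xt := Ext.none) (P1 := 0) (W1 := 536870912) (P2 := 0) (W2 := 536870912) (P3 := 1040187392) (W3 := 5207648) (N0 := 3) (En := eng) (mo := mog) (C1 := cd3q0) (C2 := cd0q2) (C3 := pd1)
    rfl k0_mm_012

noncomputable def f_mm_022 : ℕ → ℕ → ℕ → ℕ → Bool := onCell 0 536870912 0 536870912 1040187392 5207648
    (rowB 3 eng mog cd3q0 cd0q2 pd2 0 false false false .pp 0 2 2 (qsf 0 536870912 0 536870912 2) ndB3q0 ndB0q2 pcB2 Cut.none Ext.none)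

def k0_mm_022 : ∃ t, chk3 f_mm_022 t 1 1 1 = true :=
  ⟨(l 5), by decide +kernel⟩

theorem c_mm_022 : CertB 0 536870912 0 536870912 1040187392 5207648 3 eng mog cd3q0 cd0q2 pd2 false false false .pp 0 2 2
    ndB3q0 ndB0q2 pcB2 Cut.none Ext.none :=
  certB0 (fam := false) (s1 := false) (s2 := false) (a := 0) (b := 2) (c := 2) (cn := .pp) (n1 := ndB3q0) (n2 := ndB0q2) (pc := pcB2) (cut := Cut.none) (xt := Ext.none) (P1 := 0) (W1 := 536870912) (P2 := 0) (W2 := 536870912) (P3 := 1040187392) (W3 := 5207648) (N0 := 3) (En := eng) (mo := mog) (C1 := cd3q0) (C2 := cd0q2) (C3 := pd2)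
    rfl k0_mm_022

noncomputable def f_mm_101 : ℕ → ℕ → ℕ → ℕ → Bool := onCell 536870912 536870912 0 536870912 1040187392 5207648
    (rowB 3 eng mog cd3q1 cd0q1 pd0 1 false false false .npn 1 0 1 (qsf 536870912 536870912 536870912 536870912 0) ndB3q1 ndB0q1 pcB0 Cut.none Ext.none)

def k0_mm_101 : ∃ t, chk3 f_mm_101 t 1 1 1 = true :=
  ⟨(a (l 5) (l 5)), by decide +kernel⟩

theorem c_mm_101 : CertB 536870912 536870912 536870912 536870912 1040187392 5207648 3 eng mog cd3q1 cd0q1 pd0 false false false .npn 1 0 1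
    ndB3q1 ndB0q1 pcB0 Cut.none Ext.none :=
  certB1 (fam := false) (s1 := false) (s2 := false) (a := 1) (b := 0) (c := 1) (cn := .npn) (n1 := ndB3q1) (n2 := ndB0q1) (pc := pcB0) (cut := Cut.none) (xt := Ext.none) (P1 := 536870912) (W1 := 536870912) (P2 := 536870912) (W2 := 536870912) (P3 := 1040187392) (W3 := 5207648) (N0 := 3) (En := eng) (mo := mog) (C1 := cd3q1) (C2 := cd0q1) (C3 := pd0)
    rfl (fun _ => rfl) k0_mm_101

noncomputable def f_mm_102 : ℕ → ℕ → ℕ → ℕ → Bool := onCell 536870912 536870912 0 536870912 1040187392 5207648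
    (rowB 3 eng mog cd3q1 cd0q2 pd0 0 false false false .npp 1 0 2 (qsf 536870912 536870912 0 536870912 0) ndB3q1 ndB0q2 pcB0 Cut.none Ext.none)

def k0_mm_102 : ∃ t, chk3 f_mm_102 t 1 1 1 = true :=
  ⟨(l 5), by decide +kernel⟩

theorem c_mm_102 : CertB 536870912 536870912 0 536870912 1040187392 5207648 3 eng mog cd3q1 cd0q2 pd0 false false false .npp 1 0 2
    ndB3q1 ndB0q2 pcB0 Cut.none Ext.none :=
  certB0 (fam := false) (s1 := false) (s2 := false) (a := 1) (b := 0) (c := 2) (cn := .npp) (n1 := ndB3q1) (n2 := ndB0q2) (pc := pcB0) (cut := Cut.none) (xt := Ext.none) (P1 := 536870912) (W1 := 536870912) (P2 := 0) (W2 := 536870912) (P3 := 1040187392) (W3 := 5207648) (N0 := 3) (En := eng) (mo := mog) (C1 := cd3q1) (C2 := cd0q2) (C3 := pd0)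
    rfl k0_mm_102

noncomputable def f_mm_112 : ℕ → ℕ → ℕ → ℕ → Bool := onCell 536870912 536870912 0 536870912 1040187392 5207648
    (rowB 3 eng mog cd3q1 cd0q2 pd1 0 false false false .dn 1 1 2 (qsf 536870912 536870912 0 536870912 1) ndB3q1 ndB0q2 pcB1 Cut.none Ext.none)

def k0_mm_112 : ∃ t, chk3 f_mm_112 t 1 1 1 = true :=
  ⟨(l 5), by decide +kernel⟩

theorem c_mm_112 : CertB 536870912 536870912 0 536870912 1040187392 5207648 3 eng mog cd3q1 cd0q2 pd1 false false false .dn 1 1 2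
    ndB3q1 ndB0q2 pcB1 Cut.none Ext.none :=
  certB0 (fam := false) (s1 := false) (s2 := false) (a := 1) (b := 1) (c := 2) (cn := .dn) (n1 := ndB3q1) (n2 := ndB0q2) (pc := pcB1) (cut := Cut.none) (xt := Ext.none) (P1 := 536870912) (W1 := 536870912) (P2 := 0) (W2 := 536870912) (P3 := 1040187392) (W3 := 5207648) (N0 := 3) (En := eng) (mo := mog) (C1 := cd3q1) (C2 := cd0q2) (C3 := pd1)
    rfl k0_mm_112

noncomputable def f_mm_202 : ℕ → ℕ → ℕ → ℕ → Bool := onCell 1073741824 536870912 0 536870912 1040187392 5207648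
    (rowB 3 eng mog cd3q2 cd0q2 pd0 0 false false false .pp 2 0 2 (qsf 1073741824 536870912 0 536870912 0) ndB3q2 ndB0q2 pcB0 Cut.none Ext.none)

def k0_mm_202 : ∃ t, chk3 f_mm_202 t 1 1 1 = true :=
  ⟨(l 3), by decide +kernel⟩

theorem c_mm_202 : CertB 1073741824 536870912 0 536870912 1040187392 5207648 3 eng mog cd3q2 cd0q2 pd0 false false false .pp 2 0 2
    ndB3q2 ndB0q2 pcB0 Cut.none Ext.none :=
  certB0 (fam := false) (s1 := false) (s2 := false) (a := 2) (b := 0) (c := 2) (cn := .pp) (n1 := ndB3q2) (n2 := ndB0q2) (pc := pcB0) (cut := Cut.none) (xt := Ext.none) (P1 := 1073741824) (W1 := 536870912) (P2 := 0) (W2 := 536870912) (P3 := 1040187392) (W3 := 5207648) (N0 := 3) (En := eng) (mo := mog) (C1 := cd3q2) (C2 := cd0q2) (C3 := pd0)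
    rfl k0_mm_202

end Pool.Agent.Strip051.G.I9688_9736.Tab.C.BB30

namespace Pool.Agent.Strip051.G.I9688_9736.Tab.C.BB31

open Pool.Agent.Strip051.PB Pool.Agent.Strip051.PB.T
open Pool.Agent.Strip051.G.I9688_9736.Tab

noncomputable def f_pp_001 : ℕ → ℕ → ℕ → ℕ → Bool := onCell 0 536870912 0 536870912 1040187392 5207648
    (rowB 3 eng mog cd3q0 cd1q1 pd0 1 false true true .up 0 0 1 (qsf 0 536870912 536870912 536870912 0) ndB3q0 ndB1q1 pcB0 Cut.none Ext.none)

def k0_pp_001 : ∃ t, chk3 f_pp_001 t 1 1 1 = true :=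
  ⟨(l 3), by decide +kernel⟩

theorem c_pp_001 : CertB 0 536870912 536870912 536870912 1040187392 5207648 3 eng mog cd3q0 cd1q1 pd0 false true true .up 0 0 1
    ndB3q0 ndB1q1 pcB0 Cut.none Ext.none :=
  certB1 (fam := false) (s1 := true) (s2 := true) (a := 0) (b := 0) (c := 1) (cn := .up) (n1 := ndB3q0) (n2 := ndB1q1) (pc := pcB0) (cut := Cut.none) (xt := Ext.none) (P1 := 0) (W1 := 536870912) (P2 := 536870912) (W2 := 536870912) (P3 := 1040187392) (W3 := 5207648) (N0 := 3) (En := eng) (mo := mog) (C1 := cd3q0) (C2 := cd1q1) (C3 := pd0)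
    rfl (fun _ => rfl) k0_pp_001

noncomputable def f_pp_011 : ℕ → ℕ → ℕ → ℕ → Bool := onCell 0 536870912 536870912 536870912 1040187392 5207648
    (rowB 3 eng mog cd3q0 cd1q1 pd1 0 false true true .pnn 0 1 1 (qsf 0 536870912 536870912 536870912 1) ndB3q0 ndB1q1 pcB1 Cut.none Ext.none)

def k0_pp_011 : ∃ t, chk3 f_pp_011 t 1 1 1 = true :=
  ⟨(a (l 3) (l 3)), by decide +kernel⟩

theorem c_pp_011 : CertB 0 536870912 536870912 536870912 1040187392 5207648 3 eng mog cd3q0 cd1q1 pd1 false true true .pnn 0 1 1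
    ndB3q0 ndB1q1 pcB1 Cut.none Ext.none :=
  certB0 (fam := false) (s1 := true) (s2 := true) (a := 0) (b := 1) (c := 1) (cn := .pnn) (n1 := ndB3q0) (n2 := ndB1q1) (pc := pcB1) (cut := Cut.none) (xt := Ext.none) (P1 := 0) (W1 := 536870912) (P2 := 536870912) (W2 := 536870912) (P3 := 1040187392) (W3 := 5207648) (N0 := 3) (En := eng) (mo := mog) (C1 := cd3q0) (C2 := cd1q1) (C3 := pd1)
    rfl k0_pp_011

noncomputable def xt_pp_012_a : Ext := extD3 3 ⟨4, 1, 1, 5, 33, 5, 163, 200, 81, 200, 1, 64⟩ eng cd3q0 cd1q2a pd1 false true true .pnp 0 1 2 rfl ndB3q0 ndB1q2a pcB1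

noncomputable def f_pp_012_a : ℕ → ℕ → ℕ → ℕ → Bool := onCell 0 536870912 0 536870912 1040187392 5207648
    (rowB 3 eng mog cd3q0 cd1q2a pd1 0 false true true .pnp 0 1 2 (qsf 0 536870912 0 536870912 1) ndB3q0 ndB1q2a pcB1 Cut.none xt_pp_012_a)

def k0_pp_012_a : ∃ t, chk3 f_pp_012_a t 2 2 1 = true :=
  ⟨(a (b (l 2) (a (l 2) (a (l 2) (b (l 2) (l 15553352))))) (a (b (a (l 15463168) (l 15063200)) (a (b (l 15291712) (l 15169288)) (b (l 14893016) (l 14806216)))) (b (a (l 14637640) (l 14230360)) (a (b (l 14514024) (l 14463872)) (b (l 14156104) (l 14143408)))))), by decide +kernel⟩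

def k1_pp_012_a : ∃ t, chk3 f_pp_012_a t 4 3 1 = true :=
  ⟨(b (a (l 2) (b (a (l 2) (l 15404560)) (a (b (a (l 2) (l 15602992)) (a (l 15793008) (l 15635784))) (b (l 15362568) (a (l 15482144) (l 15330568)))))) (a (b (a (l 2) (b (a (l 2) (l 16057640)) (a (a (a (l 2) (l 16348496)) (l 16288480)) (b (l 16141056) (l 16200584))))) (a (a (b (l 2) (b (a (l 2) (b (a (l 2) (l 16505264)) (a (l 16564864) (l 16535816)))) (b (a (b (l 16625128) (l 16619288)) (b (l 16531728) (l 16589816))) (a (b (l 16613824) (a (l 16683576) (l 16658656))) (l 142762341713985663))))) (b (a (b (l 2) (a (l 2) (l 16446456))) (b (a (l 2) (l 16418920)) (a (l 16462024) (l 16479104)))) (a (b (a (a (l 16497688) (l 16495048)) (l 16508640)) (a (b (l 142031784863318143) (l 141913656138760319)) (b (l 16550784) (l 16584088)))) (b (a (l 16525736) (l 16544112)) (a (l 142274708250116159) (l 142492755226165311)))))) (a (b (a (b (a (l 16438040) (l 16434952)) (a (l 16499808) (l 16497976))) (b (l 16377512)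 (l 16441176))) (a (b (a (l 16564896) (l 16558920)) (b (l 142228940959383615) (l 140590668393709631))) (b (l 16416640) (b (l 16293824) (l 16128712))))) (b (b (l 16261912) (a (l 16363440) (l 16277560))) (b (a (l 16350208) (l 16238808)) (b (l 16076448) (l 15908888))))))) (b (a (b (a (l 15899856) (l 15743904)) (a (b (l 15986304) (l 16044048)) (b (l 15826824) (l 15876856)))) (b (a (l 15587784) (l 15427568)) (a (l 15682624) (l 15517464)))) (a (b (a (b (l 16097472) (l 16060208)) (b (l 15920624) (l 15960008))) (a (b (l 16125112) (b (l 15943136) (l 15803032))) (b (l 15989032) (l 15864344)))) (b (a (l 15766960) (l 15601392)) (b (l 15737400) (a (l 15841800) (l 15678752)))))))), by decide +kernel⟩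

def k2_pp_012_a : ∃ t, chk3 f_pp_012_a t 5 3 1 = true :=
  ⟨(b (a (b (a (l 15083824) (l 14762272)) (a (b (l 15057512) (l 15106776)) (b (l 14771240) (l 14825584)))) (b (a (l 14461376) (l 14182168)) (a (l 14534824) (l 14291688)))) (a (b (a (b (l 15195024) (l 15280896)) (b (l 14904920) (l 14975952))) (a (b (l 15353880) (a (l 15496088) (l 15326760))) (b (l 15034952) (a (l 15159904) (l 14996368))))) (b (a (b (l 14631040) (l 14688144)) (b (l 14378640) (l 14420840))) (a (b (l 14732032) (b (l 14753696) (l 14835336))) (b (l 14448912) (b (l 14458272) (l 14458232))))))), by decide +kernel⟩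

def k3_pp_012_a : ∃ t, chk3 f_pp_012_a t 3 2 1 = true :=
  ⟨(a (b (a (a (l 13843384) (l 13478392)) (a (l 13136864) (b (l 12774832) (l 12860208)))) (a (b (l 13662480) (a (l 13845928) (l 13572352))) (b (a (l 13221920) (l 12960648)) (a (l 13323528) (l 13100296))))) (b (a (b (b (l 12300008) (l 12355736)) (l 12463256)) (b (b (l 11833616) (l 11902096)) (a (l 12128880) (l 11917296)))) (a (b (l 12619624) (a (l 12903472) (l 12733888))) (b (l 12263592) (a (l 12592320) (l 12479568)))))), by decide +kernel⟩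

def k4_pp_012_a : ∃ t, chk3 f_pp_012_a t 3 3 1 = true :=
  ⟨(a (b (a (b (a (l 13925512) (l 13692168)) (b (a (l 14033416) (l 13831320)) (a (l 14110264) (l 13900048)))) (b (a (l 13482840) (l 13298256)) (b (a (l 13652152) (l 13496576)) (b (a (l 13749864) (l 13612232)) (l 13700392))))) (b (a (a (b (l 14150304) (l 14176984)) (b (l 13948296) (a (l 14010968) (l 13908984)))) (a (b (l 13774560) (a (l 13814232) (l 13726968))) (b (l 13630792) (a (l 13647424) (l 13575824))))) (a (b (a (l 14188968) (l 13934248)) (a (b (l 14186088) (l 14177968)) (b (l 13940496) (l 13903728)))) (b (a (a (l 13798632) (l 13703808)) (a (l 13616944) (l 13538288))) (a (l 13692848) (a (l 13570240) (l 13485240))))))) (b (b (a (a (l 13139088) (l 13006056)) (a (l 12899808) (l 12821016))) (a (b (l 13371848) (b (a (l 13497784) (l 13404312)) (a (l 13535224) (l 13462064)))) (b (l 13146920) (a (b (l 13335248) (l 13415928)) (b (l 13291400) (l 13394648)))))) (b (a (b (a (l 13518440) (l 13438704))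 (a (l 13483936) (l 13390792))) (a (b (l 13392536) (l 13332600)) (b (l 13380648) (l 13310392)))) (a (b (b (a (l 13449280) (l 13346952)) (a (l 13422032) (l 13314184))) (b (a (l 13391176) (l 13278384)) (a (a (l 13391792) (l 13323664)) (a (l 13265096) (l 13216344))))) (a (b (b (l 13280896) (l 13243624)) (b (l 13204032) (a (l 13177640) (l 13149224)))) (b (b (l 13252384) (l 13211800)) (b (l 13169752) (a (l 13131296) (l 13124072))))))))), by decide +kernel⟩

theorem s5_pp_012_a : ∃ t, chk3 f_pp_012_a t 3 1 1 = true := ex3_b k3_pp_012_a k4_pp_012_a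

theorem s6_pp_012_a : ∃ t, chk3 f_pp_012_a t 2 3 1 = true := ex3_a k1_pp_012_a k2_pp_012_a

theorem s7_pp_012_a : ∃ t, chk3 f_pp_012_a t 2 1 1 = true := ex3_b k0_pp_012_a s6_pp_012_a

theorem s8_pp_012_a : ∃ t, chk3 f_pp_012_a t 1 1 1 = true := ex3_a s7_pp_012_a s5_pp_012_a

theorem c_pp_012_a : CertB 0 536870912 0 536870912 1040187392 5207648 3 eng mog cd3q0 cd1q2a pd1 false true true .pnp 0 1 2
    ndB3q0 ndB1q2a pcB1 Cut.none xt_pp_012_a :=
  certB0 (fam := false) (s1 := true) (s2 := true) (a := 0) (b := 1) (c := 2) (cn := .pnp) (n1 := ndB3q0) (n2 := ndB1q2a) (pc := pcB1) (cut := Cut.none) (xt := xt_pp_012_a) (P1 := 0) (W1 := 536870912) (P2 := 0) (W2 := 536870912) (P3 := 1040187392) (W3 := 5207648) (N0 := 3) (En := eng) (mo := mog) (C1 := cd3q0) (C2 := cd1q2a) (C3 := pd1)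
    rfl s8_pp_012_a

noncomputable def f_pp_012_b : ℕ → ℕ → ℕ → ℕ → Bool := onCell 0 536870912 536870912 536870912 1040187392 5207648
    (rowB 3 eng mog cd3q0 cd1q2b pd1 1 false true true .pnp 0 1 2 (qsf 0 536870912 1239849684 370763052 1) ndB3q0 ndB1q2b pcB1 Cut.none Ext.none)

def k0_pp_012_b : ∃ t, chk3 f_pp_012_b t 1 1 1 = true :=
  ⟨(a (b (l 1) (a (l 1) (b (l 1) (a (b (l 1) (a (l 15418392) (l 15171600))) (b (a (l 14719664) (l 14289216)) (a (l 14751480) (l 14351208))))))) (b (a (l 1) (b (l 1) (a (b (l 1) (b (l 427374032487) (l 12270240))) (b (l 506829783575) (l 11752824))))) (a (b (a (b (l 1) (a (l 13881064) (l 13475528))) (b (a (l 268461738423) (l 344696605031)) (a (l 13089472) (l 12711656)))) (a (b (a (l 13883864) (l 13483128)) (a (l 13917280) (l 13453624))) (b (a (l 13065776) (l 12656344)) (l 12785488)))) (b (a (b (l 384961164631) (l 12188064)) (b (l 11713432) (l 11644560))) (a (b (l 12121056) (l 12039840)) (l 11513112)))))), by decide +kernel⟩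

theorem c_pp_012_b : CertB 0 536870912 1239849684 370763052 1040187392 5207648 3 eng mog cd3q0 cd1q2b pd1 false true true .pnp 0 1 2
    ndB3q0 ndB1q2b pcB1 Cut.none Ext.none :=
  certB1 (fam := false) (s1 := true) (s2 := true) (a := 0) (b := 1) (c := 2) (cn := .pnp) (n1 := ndB3q0) (n2 := ndB1q2b) (pc := pcB1) (cut := Cut.none) (xt := Ext.none) (P1 := 0) (W1 := 536870912) (P2 := 1239849684) (W2 := 370763052) (P3 := 1040187392) (W3 := 5207648) (N0 := 3) (En := eng) (mo := mog) (C1 := cd3q0) (C2 := cd1q2b) (C3 := pd1)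
    rfl (fun _ => rfl) k0_pp_012_b

noncomputable def f_pp_022_a : ℕ → ℕ → ℕ → ℕ → Bool := onCell 0 536870912 0 536870912 1040187392 5207648
    (rowB 3 eng mog cd3q0 cd1q2a pd2 0 false true true .pp 0 2 2 (qsf 0 536870912 0 536870912 2) ndB3q0 ndB1q2a pcB2 Cut.none Ext.none)

def k0_pp_022_a : ∃ t, chk3 f_pp_022_a t 2 2 1 = true :=
  ⟨(a (a (a (a (b (l 15693912) (b (l 16065328) (l 16246176))) (b (a (b (l 15690744) (l 15834432)) (l 15783800)) (a (b (l 15999368) (l 16172416)) (b (l 16010392) (l 16180048))))) (a (b (a (l 15719040) (l 15759392)) (a (b (l 16022456) (l 16188512)) (b (l 15969640) (l 16129432)))) (b (l 15673752) (b (l 15868992) (l 16018216))))) (b (a (b (l 15451752) (l 15548496)) (b (l 15240848) (l 15308312))) (a (b (l 15667488) (a (l 15869176) (l 15719256))) (b (l 15397200) (a (l 15568400) (l 15416648)))))) (a (b (a (b (l 15031936) (l 15068296)) (l 1378713897319)) (a (b (l 15125320) (b (l 15171168) (l 517573500391))) (l 1))) (l 1))), by decide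 +kernel⟩

def k1_pp_022_a : ∃ t, chk3 f_pp_022_a t 2 3 1 = true :=
  ⟨(a (b (a (a (a (b (b (l 16377448) (l 16460488)) (l 16383520)) (a (b (a (l 16340504) (l 16339264)) (a (l 16442832) (l 16482424))) (b (l 16344088) (b (l 16452552) (l 16514720))))) (a (a (b (a (l 16355064) (l 16344720)) (a (l 16453720) (l 16378504))) (b (l 16284080) (l 16291096))) (b (l 16098736) (b (l 16254416) (l 16264160))))) (b (a (b (l 15800888) (a (l 16025000) (l 15854848))) (b (a (l 15640336) (l 15475984)) (a (l 15683192) (l 1)))) (a (b (a (l 16077624) (l 15899000)) (a (b (l 16110840) (l 16129696)) (l 355440138327))) (b (a (l 397315652743) (l 1)) (l 1))))) (a (a (a (b (b (l 16573688) (c (l 16558360) (l 16556280))) (b (a (l 16620624) (l 16616040)) (b (a (l 16655056) (b (l 16680120) (l 403760169079))) (a (b (a (b (l 16743176) (l 16735736)) (l 16737464)) (a (a (l 16770920) (l 16738632)) (b (l 16712344) (l 1)))) (a (l 416645144951) (l 1)))))) (a (b (b (a (l 16565240) (l 16562280)) (a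 (l 16580192) (l 16597968))) (b (a (a (l 16623928) (l 16613704)) (b (l 16612776) (l 16616264))) (b (b (a (l 16618408) (l 16615136)) (l 1)) (l 1)))) (b (b (a (l 16564048) (l 16567472)) (a (l 16599632) (l 16602976))) (b (b (a (l 16614464) (l 16617848)) (a (l 16618032) (l 299607175895))) (l 1))))) (b (a (a (b (a (l 16574408) (l 16560760)) (a (l 16609936) (l 16532584))) (b (l 16489752) (b (l 16514816) (l 16526456)))) (b (b (l 16337056) (l 16290672)) (b (a (l 16415952) (l 16316416)) (a (l 306585998839) (l 1))))) (b (a (a (b (a (l 16624928) (l 241625034615)) (l 1)) (l 1)) (l 1)) (l 1)))) (b (a (b (a (b (l 16040536) (l 371009863719)) (l 1)) (l 1)) (l 1)) (l 1)))) (b (l 1) (l 1))), by decide +kernel⟩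

def k2_pp_022_a : ∃ t, chk3 f_pp_022_a t 3 1 1 = true :=
  ⟨(l 1), by decide +kernel⟩

theorem s3_pp_022_a : ∃ t, chk3 f_pp_022_a t 2 1 1 = true := ex3_b k0_pp_022_a k1_pp_022_a

theorem s4_pp_022_a : ∃ t, chk3 f_pp_022_a t 1 1 1 = true := ex3_a s3_pp_022_a k2_pp_022_a

theorem c_pp_022_a : CertB 0 536870912 0 536870912 1040187392 5207648 3 eng mog cd3q0 cd1q2a pd2 false true true .pp 0 2 2
    ndB3q0 ndB1q2a pcB2 Cut.none Ext.none :=
  certB0 (fam := false) (s1 := true) (s2 := true) (a := 0) (b := 2) (c := 2) (cn := .pp) (n1 := ndB3q0) (n2 := ndB1q2a) (pc := pcB2) (cut := Cut.none) (xt := Ext.none) (P1 := 0) (W1 := 536870912) (P2 := 0) (W2 := 536870912) (P3 := 1040187392) (W3 := 5207648) (N0 := 3) (En := eng) (mo := mog) (C1 := cd3q0) (C2 := cd1q2a) (C3 := pd2)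
    rfl s4_pp_022_a

noncomputable def f_pp_022_b : ℕ → ℕ → ℕ → ℕ → Bool := onCell 0 536870912 1239849684 370763052 1040187392 5207648
    (rowB 3 eng mog cd3q0 cd1q2b pd2 0 false true true .pp 0 2 2 (qsf 0 536870912 1239849684 370763052 2) ndB3q0 ndB1q2b pcB2 Cut.none Ext.none)

def k0_pp_022_b : ∃ t, chk3 f_pp_022_b t 1 1 1 = true :=
  ⟨(a (b (a (a (b (a (a (b (l 15485032) (l 15118608)) (a (b (l 15436216) (l 15063760)) (b (l 15453920) (l 15071224)))) (a (a (b (l 15473192) (l 15080480)) (b (l 15434504) (l 15039704))) (b (l 15357984) (l 14962824)))) (a (a (l 14488104) (a (l 14531560) (l 14525256))) (a (a (l 14521072) (l 14478624)) (l 14403256)))) (b (a (b (l 15207640) (l 14812480)) (b (l 15010736) (l 14616632))) (a (b (l 14437832) (l 14083312)) (b (l 14245848) (l 13897672))))) (a (b (a (b (l 14817176) (l 14425024)) (b (l 14626704) (l 14236688))) (a (l 13884704) (l 13705368))) (b (a (b (l 14441248) (l 14051776)) (b (l 1) (l 13872808))) (a (l 13529128)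 (l 13355968))))) (a (b (a (a (a (l 13945920) (a (l 13879080) (l 13856672))) (a (a (l 13836776) (l 13794200)) (l 13723952))) (b (l 13662216) (l 13355424))) (a (a (a (b (l 13512288) (a (l 13304040) (l 13276512))) (b (l 13425680) (a (b (l 13245456) (l 13240072)) (l 13249512)))) (a (b (l 13358032) (b (l 13176680) (l 13327000))) (b (l 13274664) (l 13288344)))) (b (a (l 13204544) (l 13134280)) (l 13381376)))) (b (a (b (l 13320224) (a (l 13130440) (l 13017096))) (b (a (l 13075016) (l 12930688)) (a (l 12923936) (l 12820048)))) (a (b (a (l 13117696) (l 13085064)) (l 13390592)) (b (l 12962680) (l 13223384)))))) (b (a (b (l 1) (a (b (l 13269968) (a (l 13029896) (l 12869888))) (b (l 1) (a (l 12708872) (l 1))))) (l 1)) (a (b (a (b (a (l 12787232) (l 12618440)) (l 12609392)) (b (l 12314424) (l 12190112))) (a (b (l 12670456) (l 12891000)) (b (l 12241968) (l 12447384)))) (b (a (b (l 1) (l 11671432)) (l 1)) (a (b (l 11679624) (l 11858664)) (b (l 11077760) (l 11191528))))))),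 by decide +kernel⟩

theorem c_pp_022_b : CertB 0 536870912 1239849684 370763052 1040187392 5207648 3 eng mog cd3q0 cd1q2b pd2 false true true .pp 0 2 2
    ndB3q0 ndB1q2b pcB2 Cut.none Ext.none :=
  certB0 (fam := false) (s1 := true) (s2 := true) (a := 0) (b := 2) (c := 2) (cn := .pp) (n1 := ndB3q0) (n2 := ndB1q2b) (pc := pcB2) (cut := Cut.none) (xt := Ext.none) (P1 := 0) (W1 := 536870912) (P2 := 1239849684) (W2 := 370763052) (P3 := 1040187392) (W3 := 5207648) (N0 := 3) (En := eng) (mo := mog) (C1 := cd3q0) (C2 := cd1q2b) (C3 := pd2)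
    rfl k0_pp_022_b

noncomputable def f_pp_023 : ℕ → ℕ → ℕ → ℕ → Bool := onCell 0 536870912 1610612736 536870912 1040187392 5207648
    (rowB 3 eng mog cd3q0 cd1q3 pd2 0 false true true .up 0 2 3 (qsf 0 536870912 1610612736 536870912 2) ndB3q0 ndB1q3 pcB2 Cut.none Ext.none)

def k0_pp_023 : ∃ t, chk3 f_pp_023 t 1 1 1 = true :=
  ⟨(a (b (a (b (a (b (a (a (l 13149352) (b (l 13226744) (l 13666224))) (a (l 13395920) (l 13552128))) (a (l 2) (a (l 2) (l 14487184)))) (b (a (l 13608328) (l 13640632)) (b (l 14300520) (l 14814488)))) (a (l 2) (b (b (l 15364392) (l 2)) (l 2)))) (b (b (a (b (l 13409280) (l 13804864)) (l 13406224)) (a (b (l 14266760) (l 14786736)) (l 14167640))) (b (a (b (l 15355560) (l 15913448)) (b (l 15153072) (l 15762584))) (a (l 4) (b (l 16170240) (l 4)))))) (l 4)) (b (b (a (b (a (l 13047440) (b (l 12379224) (l 12722328))) (a (l 13935104) (l 13408632))) (b (a (b (l 11798672) (l 12137536)) (b (l 11111048) (l 11423000))) (a (b (l 12519280) (l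 13002720)) (b (l 11820472) (l 12302928))))) (a (b (a (l 14837584) (l 14555448)) (a (b (l 15676392) (l 4)) (b (l 15199192) (l 14999264)))) (b (a (l 13889696) (b (l 12814304) (l 13426040))) (a (b (l 14886536) (l 14649776)) (l 14410736))))) (b (a (l 4) (b (a (l 4) (b (l 14315920) (l 4))) (l 4))) (l 4)))), by decide +kernel⟩

theorem c_pp_023 : CertB 0 536870912 1610612736 536870912 1040187392 5207648 3 eng mog cd3q0 cd1q3 pd2 false true true .up 0 2 3
    ndB3q0 ndB1q3 pcB2 Cut.none Ext.none :=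
  certB0 (fam := false) (s1 := true) (s2 := true) (a := 0) (b := 2) (c := 3) (cn := .up) (n1 := ndB3q0) (n2 := ndB1q3) (pc := pcB2) (cut := Cut.none) (xt := Ext.none) (P1 := 0) (W1 := 536870912) (P2 := 1610612736) (W2 := 536870912) (P3 := 1040187392) (W3 := 5207648) (N0 := 3) (En := eng) (mo := mog) (C1 := cd3q0) (C2 := cd1q3) (C3 := pd2)
    rfl k0_pp_023

noncomputable def f_pp_033 : ℕ → ℕ → ℕ → ℕ → Bool := onCell 0 536870912 1610612736 536870912 1040187392 5207648
    (rowB 3 eng mog cd3q0 cd1q3 pd3 0 false true true .pnn 0 3 3 (qsf 0 536870912 1610612736 536870912 3) ndB3q0 ndB1q3 pcB3 Cut.none Ext.none)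

def k0_pp_033 : ∃ t, chk3 f_pp_033 t 1 1 1 = true :=
  ⟨(a (b (a (b (a (a (a (b (l 15381576) (l 15334936)) (b (l 15541608) (l 15492336))) (a (b (l 15639248) (l 15587240)) (b (l 15895336) (l 15840416)))) (b (l 16055888) (l 15977328))) (b (a (a (a (l 15253328) (l 15406744)) (a (l 15497920) (l 15747592))) (b (l 15953288) (l 15956592))) (l 4))) (b (a (b (l 1) (l 15912072)) (l 1)) (b (a (l 16025336) (l 15915080)) (a (l 4) (l 385505336087))))) (l 4)) (b (a (b (l 1) (b (l 1) (a (l 15563440) (l 1)))) (l 1)) (b (a (l 4) (b (l 1) (l 4))) (l 4)))), by decide +kernel⟩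

theorem c_pp_033 : CertB 0 536870912 1610612736 536870912 1040187392 5207648 3 eng mog cd3q0 cd1q3 pd3 false true true .pnn 0 3 3
    ndB3q0 ndB1q3 pcB3 Cut.none Ext.none :=
  certB0 (fam := false) (s1 := true) (s2 := true) (a := 0) (b := 3) (c := 3) (cn := .pnn) (n1 := ndB3q0) (n2 := ndB1q3) (pc := pcB3) (cut := Cut.none) (xt := Ext.none) (P1 := 0) (W1 := 536870912) (P2 := 1610612736) (W2 := 536870912) (P3 := 1040187392) (W3 := 5207648) (N0 := 3) (En := eng) (mo := mog) (C1 := cd3q0) (C2 := cd1q3) (C3 := pd3)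
    rfl k0_pp_033

noncomputable def f_pp_101 : ℕ → ℕ → ℕ → ℕ → Bool := onCell 536870912 536870912 536870912 536870912 1040187392 5207648
    (rowB 3 eng mog cd3q1 cd1q1 pd0 0 false true true .npn 1 0 1 (qsf 536870912 536870912 536870912 536870912 0) ndB3q1 ndB1q1 pcB0 Cut.none Ext.none)

def k0_pp_101 : ∃ t, chk3 f_pp_101 t 1 1 1 = true :=
  ⟨(l 3), by decide +kernel⟩

theorem c_pp_101 : CertB 536870912 536870912 536870912 536870912 1040187392 5207648 3 eng mog cd3q1 cd1q1 pd0 false true true .npn 1 0 1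
    ndB3q1 ndB1q1 pcB0 Cut.none Ext.none :=
  certB0 (fam := false) (s1 := true) (s2 := true) (a := 1) (b := 0) (c := 1) (cn := .npn) (n1 := ndB3q1) (n2 := ndB1q1) (pc := pcB0) (cut := Cut.none) (xt := Ext.none) (P1 := 536870912) (W1 := 536870912) (P2 := 536870912) (W2 := 536870912) (P3 := 1040187392) (W3 := 5207648) (N0 := 3) (En := eng) (mo := mog) (C1 := cd3q1) (C2 := cd1q1) (C3 := pd0)
    rfl k0_pp_101

noncomputable def cut_pp_102_a : Cut := Cut.of [[⟨0, 1, 0, 26843545⟩, ⟨1, 0, 0, 26843545⟩, ⟨2, 1, 0, 26843545⟩]]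

noncomputable def xt_pp_102_a : Ext := extD3 3 ⟨4, 1, 1, 5, 33, 5, 163, 200, 81, 200, 1, 64⟩ eng cd3q1 cd1q2a pd0 false true true .npp 1 0 2 rfl ndB3q1 ndB1q2a pcB0

noncomputable def f_pp_102_a : ℕ → ℕ → ℕ → ℕ → Bool := onCell 0 536870912 0 536870912 1040187392 5207648
    (rowB 3 eng mog cd3q1 cd1q2a pd0 2 false true true .npp 1 0 2 (qsf 536870912 536870912 0 536870912 0) ndB3q1 ndB1q2a pcB0 cut_pp_102_a xt_pp_102_a)

def k0_pp_102_a : ∃ t, chk3 f_pp_102_a t 2 2 1 = true :=
  ⟨(a (a (l 2) (b (l 2) (a (l 2) (l 14561416)))) (b (a (a (l 14078272) (l 13841432)) (a (l 13564624) (l 13248040))) (a (b (a (l 14193736) (l 13861624)) (a (a (l 14391200) (b (l 14180328) (l 14266216))) (b (a (l 14000608) (l 13843456)) (a (l 14142624) (l 14117496))))) (b (a (b (l 13490760) (a (l 13592872) (l 13444848))) (b (a (l 13210752) (l 13072296)) (l 13390200))) (a (a (b (l 13748728) (l 14119032)) (l 13941624)) (l 13975408)))))), by decide +kernel⟩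

def k1_pp_102_a : ∃ t, chk3 f_pp_102_a t 4 6 1 = true :=
  ⟨(a (l 2) (b (a (l 2) (a (b (l 14868928) (b (l 14957520) (l 15036544))) (b (l 14708752) (l 14758240)))) (a (a (b (l 2) (b (l 15582760) (l 15691312))) (b (b (l 15265928) (l 15364048)) (l 15558496))) (a (b (l 15230184) (l 15519032)) (b (l 15193216) (l 15517760)))))), by decide +kernel⟩

def k2_pp_102_a : ∃ t, chk3 f_pp_102_a t 4 7 1 = true :=
  ⟨(a (b (a (l 2) (b (a (l 2) (a (l 2) (l 15925000))) (a (a (a (l 2) (l 16263304)) (l 16214752)) (b (l 16097688) (a (l 16216192) (l 16186880)))))) (a (a (b (l 2) (l 6)) (a (b (b (l 2) (a (l 2) (l 16496984))) (l 6)) (b (b (l 16396536) (b (l 16463392) (a (l 16515240) (l 16500032)))) (b (b (l 141621873200726127) (l 16546872)) (b (l 142128061017964655) (b (l 16651368) (b (l 16663048) (l 142742894224441391)))))))) (a (b (a (b (l 16336088) (a (l 16463696) (l 16404024))) (b (l 140414815158927471) (l 16425136))) (b (b (l 141232302392328239) (a (l 142144553563570223)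 (l 16490744))) (a (b (l 142336280973705263) (b (l 16621408) (b (l 16632592) (l 16640088)))) (b (l 16570744) (b (l 16592848) (b (l 16604000) (l 16611464))))))) (b (b (l 138688444360917039) (a (l 16400832) (l 16378056))) (b (b (a (l 16472352) (l 16451152)) (a (l 16511704) (l 16487672))) (b (a (l 16544056) (l 16520480)) (a (b (l 16566904) (l 16592760)) (b (l 16544912) (l 16561336))))))))) (b (a (b (a (l 15865960) (b (l 15756920) (l 15791912))) (a (b (l 137665004698271791) (l 138524960421265455)) (b (l 15997376) (l 16106208)))) (b (a (b (l 15745888) (l 15854328)) (l 15653336)) (a (l 16016272) (l 15979216)))) (a (a (b (b (l 16247752) (a (l 16356952) (l 16338912))) (b (b (l 16373832) (l 16455888)) (a (b (l 16501352) (b (l 16528256) (l 16551568))) (b (l 16486264) (b (l 16516016) (l 16536000)))))) (b (b (l 16206792) (b (l 16283256) (l 16333584))) (b (l 16400496) (b (l 16466264) (a (l 16515752) (l 16505512)))))) (b (b (a (l 16169728) (l 16138056)) (a (l 16229392)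 (l 16233536))) (b (a (l 16368320) (l 16335336)) (a (b (l 16440104) (l 16446616)) (l 16392192))))))), by decide +kernel⟩

def k3_pp_102_a : ∃ t, chk3 f_pp_102_a t 5 3 1 = true :=
  ⟨(b (a (a (b (a (b (l 121736995176480815) (l 14851176)) (l 14663840)) (b (l 15179280) (a (b (l 15435904) (l 15573040)) (l 15478944)))) (b (a (l 14661520) (l 14671040)) (b (a (l 15213240) (l 15205904)) (l 15439160)))) (b (a (b (l 14510472) (b (l 14804264) (l 15004968))) (b (l 14593688) (b (l 14868648) (l 14984360)))) (a (b (l 15167120) (l 15397080)) (l 15249912)))) (a (b (a (b (l 15721352) (l 15929040)) (b (l 15658472) (a (l 15884192) (l 15861544)))) (b (a (b (a (l 16107328) (l 16072968)) (l 16186920)) (b (l 16021608) (l 16123048))) (a (b (l 16284216) (l 16320176)) (b (l 16220040) (l 16318520))))) (b (b (a (l 15605080) (l 15560000)) (a (b (l 15764752) (l 15873768)) (l 15627424))) (b (a (l 16017000) (l 15963152)) (a (l 16209352) (l 16152792)))))), by decide +kernel⟩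

def k4_pp_102_a : ∃ t, chk3 f_pp_102_a t 3 1 1 = true :=
  ⟨(b (b (a (a (b (l 12828936) (a (b (l 12834000) (a (l 12860328) (l 12728504))) (b (b (l 12470472) (l 12492304)) (l 12702856)))) (b (a (b (l 12351184) (l 12235472)) (b (l 12009704) (l 12132160))) (a (l 12602856) (l 12725280)))) (a (a (b (l 12093752) (l 12876632)) (l 12651032)) (b (l 12555472) (l 13333032)))) (a (a (b (a (a (l 13215800) (l 13251032)) (l 13315632)) (a (l 14052672) (b (l 13942848) (l 14385512)))) (b (a (l 13426776) (l 13560736)) (b (a (l 14065352) (l 14211696)) (a (l 14443472) (l 14468504))))) (a (b (a (l 13712448) (b (l 13665296) (l 14089544))) (b (a (l 14280160) (l 14331392)) (l 14504472))) (b (b (a (l 13843200) (l 14030504)) (a (l 14179560) (l 14256792))) (l 14480552))))) (a (b (a (b (b (a (b (l 14592264) (l 14739560)) (l 14662920)) (l 14896920)) (a (l 15212160) (l 15183200))) (b (l 14767712) (l 15155720))) (b (a (b (l 15506352) (a (l 15725200) (l 15683248))) (b (b (l 15406952)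 (l 15513256)) (l 15632960))) (a (b (l 15891176) (a (l 16099664) (l 16049640))) (b (l 15808784) (l 15980368))))) (b (a (b (l 14772064) (l 15145504)) (b (l 14812200) (l 15163784))) (b (a (b (l 15432184) (l 15588888)) (b (l 15414600) (l 15552416))) (a (b (l 15740256) (l 15895000)) (b (l 15683104) (l 15816176))))))), by decide +kernel⟩

theorem s5_pp_102_a : ∃ t, chk3 f_pp_102_a t 4 3 1 = true := ex3_b k1_pp_102_a k2_pp_102_a

theorem s6_pp_102_a : ∃ t, chk3 f_pp_102_a t 2 3 1 = true := ex3_a s5_pp_102_a k3_pp_102_a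

theorem s7_pp_102_a : ∃ t, chk3 f_pp_102_a t 2 1 1 = true := ex3_b k0_pp_102_a s6_pp_102_a

theorem s8_pp_102_a : ∃ t, chk3 f_pp_102_a t 1 1 1 = true := ex3_a s7_pp_102_a k4_pp_102_a

theorem c_pp_102_a : CertB 536870912 536870912 0 536870912 1040187392 5207648 3 eng mog cd3q1 cd1q2a pd0 false true true .npp 1 0 2
    ndB3q1 ndB1q2a pcB0 cut_pp_102_a xt_pp_102_a :=
  certB2 (fam := false) (s1 := true) (s2 := true) (a := 1) (b := 0) (c := 2) (cn := .npp) (n1 := ndB3q1) (n2 := ndB1q2a) (pc := pcB0) (cut := cut_pp_102_a) (xt := xt_pp_102_a) (P1 := 536870912) (W1 := 536870912) (P2 := 0) (W2 := 536870912) (P3 := 1040187392) (W3 := 5207648) (N0 := 3) (En := eng) (mo := mog) (C1 := cd3q1) (C2 := cd1q2a) (C3 := pd0)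
    rfl (fun _ => rfl) s8_pp_102_a

noncomputable def cut_pp_102_b : Cut := Cut.of [[⟨0, 1, 0, 26843545⟩, ⟨1, 0, 0, 26843545⟩, ⟨2, 1, 0, 26843545⟩]]

noncomputable def f_pp_102_b : ℕ → ℕ → ℕ → ℕ → Bool := onCell 536870912 536870912 0 536870912 1040187392 5207648
    (rowB 3 eng mog cd3q1 cd1q2b pd0 1 false true true .npp 1 0 2 (qsf 536870912 536870912 1239849684 370763052 0) ndB3q1 ndB1q2b pcB0 cut_pp_102_b Ext.none)

def k0_pp_102_b : ∃ t, chk3 f_pp_102_b t 1 1 1 = true :=
  ⟨(a (b (l 1) (b (l 1) (a (l 1) (b (a (l 1) (b (l 12004632) (l 11960000))) (a (l 12396704) (l 11935448)))))) (b (a (l 1) (b (l 1) (b (b (l 368322656327) (l 14037968)) (b (l 13693904) (l 13325928))))) (b (a (b (b (l 319465424087) (l 317317030695)) (b (l 313021104903) (l 310335748583))) (b (b (l 12938784) (l 12537536)) (a (l 12019712) (l 11830008)))) (b (a (b (a (l 11691160) (l 11504584)) (a (l 11537424) (l 11197704))) (b (l 11304152) (a (l 10976120) (l 10841232)))) (a (b (l 11315064)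 (l 11311280)) (a (l 10769992) (l 10501704))))))), by decide +kernel⟩

theorem c_pp_102_b : CertB 536870912 536870912 1239849684 370763052 1040187392 5207648 3 eng mog cd3q1 cd1q2b pd0 false true true .npp 1 0 2
    ndB3q1 ndB1q2b pcB0 cut_pp_102_b Ext.none :=
  certB1 (fam := false) (s1 := true) (s2 := true) (a := 1) (b := 0) (c := 2) (cn := .npp) (n1 := ndB3q1) (n2 := ndB1q2b) (pc := pcB0) (cut := cut_pp_102_b) (xt := Ext.none) (P1 := 536870912) (W1 := 536870912) (P2 := 1239849684) (W2 := 370763052) (P3 := 1040187392) (W3 := 5207648) (N0 := 3) (En := eng) (mo := mog) (C1 := cd3q1) (C2 := cd1q2b) (C3 := pd0)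
    rfl (fun _ => rfl) k0_pp_102_b

noncomputable def f_pp_112_a : ℕ → ℕ → ℕ → ℕ → Bool := onCell 536870912 536870912 0 536870912 1040187392 5207648
    (rowB 3 eng mog cd3q1 cd1q2a pd1 2 false true true .dn 1 1 2 (qsf 536870912 536870912 0 536870912 1) ndB3q1 ndB1q2a pcB1 Cut.none Ext.none)

def k0_pp_112_a : ∃ t, chk3 f_pp_112_a t 1 1 1 = true :=
  ⟨(a (b (a (b (b (l 14311032) (a (l 14345368) (l 14429920))) (a (b (a (l 14497904) (l 14628184)) (l 15030800)) (l 73043894087))) (a (b (b (l 14548688) (l 14707224)) (l 15147384)) (l 1))) (a (b (b (a (l 15518928) (l 15604400)) (a (b (l 15896672) (l 16153304)) (b (l 15919000) (l 16118336)))) (b (a (b (l 16230872) (l 16140016)) (l 16080144)) (a (b (l 16035040) (l 15924096)) (l 1)))) (b (l 1) (l 1)))) (l 1)), by decide +kernel⟩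

theorem c_pp_112_a : CertB 536870912 536870912 0 536870912 1040187392 5207648 3 eng mog cd3q1 cd1q2a pd1 false true true .dn 1 1 2
    ndB3q1 ndB1q2a pcB1 Cut.none Ext.none :=
  certB2 (fam := false) (s1 := true) (s2 := true) (a := 1) (b := 1) (c := 2) (cn := .dn) (n1 := ndB3q1) (n2 := ndB1q2a) (pc := pcB1) (cut := Cut.none) (xt := Ext.none) (P1 := 536870912) (W1 := 536870912) (P2 := 0) (W2 := 536870912) (P3 := 1040187392) (W3 := 5207648) (N0 := 3) (En := eng) (mo := mog) (C1 := cd3q1) (C2 := cd1q2a) (C3 := pd1)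
    rfl (fun _ => rfl) k0_pp_112_a

noncomputable def f_pp_112_b : ℕ → ℕ → ℕ → ℕ → Bool := onCell 536870912 536870912 1239849684 370763052 1040187392 5207648
    (rowB 3 eng mog cd3q1 cd1q2b pd1 2 false true true .dn 1 1 2 (qsf 536870912 536870912 1239849684 370763052 1) ndB3q1 ndB1q2b pcB1 Cut.none Ext.none)

def k0_pp_112_b : ∃ t, chk3 f_pp_112_b t 1 1 1 = true :=
  ⟨(a (a (b (b (l 14119000) (l 13790232)) (l 13282088)) (b (b (l 14408000) (l 14058784)) (l 13531256))) (a (b (b (l 1) (l 14429296)) (l 13846632)) (b (l 1) (b (l 14422352) (l 13971584))))), by decide +kernel⟩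

theorem c_pp_112_b : CertB 536870912 536870912 1239849684 370763052 1040187392 5207648 3 eng mog cd3q1 cd1q2b pd1 false true true .dn 1 1 2
    ndB3q1 ndB1q2b pcB1 Cut.none Ext.none :=
  certB2 (fam := false) (s1 := true) (s2 := true) (a := 1) (b := 1) (c := 2) (cn := .dn) (n1 := ndB3q1) (n2 := ndB1q2b) (pc := pcB1) (cut := Cut.none) (xt := Ext.none) (P1 := 536870912) (W1 := 536870912) (P2 := 1239849684) (W2 := 370763052) (P3 := 1040187392) (W3 := 5207648) (N0 := 3) (En := eng) (mo := mog) (C1 := cd3q1) (C2 := cd1q2b) (C3 := pd1)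
    rfl (fun _ => rfl) k0_pp_112_b

noncomputable def f_pp_113 : ℕ → ℕ → ℕ → ℕ → Bool := onCell 536870912 536870912 1610612736 536870912 1040187392 5207648
    (rowB 3 eng mog cd3q1 cd1q3 pd1 2 false true true .nn 1 1 3 (qsf 536870912 536870912 1610612736 536870912 1) ndB3q1 ndB1q3 pcB1 Cut.none Ext.none)

def k0_pp_113 : ∃ t, chk3 f_pp_113 t 1 1 1 = true :=
  ⟨(a (b (a (b (l 12942336) (l 12194248)) (b (l 13037136) (l 12419560))) (b (a (l 2) (l 12070344)) (l 2))) (b (b (a (l 13127896) (l 13236688)) (a (l 12706080) (l 12772792))) (a (b (l 12327616) (l 12865176)) (b (l 12533608) (a (l 13458840) (l 13711232)))))), by decide +kernel⟩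

theorem c_pp_113 : CertB 536870912 536870912 1610612736 536870912 1040187392 5207648 3 eng mog cd3q1 cd1q3 pd1 false true true .nn 1 1 3
    ndB3q1 ndB1q3 pcB1 Cut.none Ext.none :=
  certB2 (fam := false) (s1 := true) (s2 := true) (a := 1) (b := 1) (c := 3) (cn := .nn) (n1 := ndB3q1) (n2 := ndB1q3) (pc := pcB1) (cut := Cut.none) (xt := Ext.none) (P1 := 536870912) (W1 := 536870912) (P2 := 1610612736) (W2 := 536870912) (P3 := 1040187392) (W3 := 5207648) (N0 := 3) (En := eng) (mo := mog) (C1 := cd3q1) (C2 := cd1q3) (C3 := pd1)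
    rfl (fun _ => rfl) k0_pp_113

noncomputable def f_pp_123 : ℕ → ℕ → ℕ → ℕ → Bool := onCell 1073741824 536870912 1610612736 536870912 1040187392 5207648
    (rowB 3 eng mog cd3q1 cd1q3 pd2 2 false true true .npn 1 2 3 (qsf 536870912 536870912 1610612736 536870912 2) ndB3q1 ndB1q3 pcB2 Cut.none Ext.none)

def k0_pp_123 : ∃ t, chk3 f_pp_123 t 1 1 1 = true :=
  ⟨(a (a (b (a (b (l 13165432) (l 12958504)) (b (l 13360248) (l 13498984))) (b (a (l 13073344) (l 13922312)) (a (b (l 14636736) (l 15265072)) (b (l 14717368) (l 4))))) (b (a (b (l 13481120) (l 13912184)) (b (l 1) (l 14339528))) (b (a (l 14511600) (l 14924000)) (l 4)))) (b (a (b (l 1) (a (l 14752136) (l 1))) (l 1)) (a (b (a (l 15514456) (l 4)) (l 4)) (l 4)))), by decide +kernel⟩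

theorem c_pp_123 : CertB 536870912 536870912 1610612736 536870912 1040187392 5207648 3 eng mog cd3q1 cd1q3 pd2 false true true .npn 1 2 3
    ndB3q1 ndB1q3 pcB2 Cut.none Ext.none :=
  certB2 (fam := false) (s1 := true) (s2 := true) (a := 1) (b := 2) (c := 3) (cn := .npn) (n1 := ndB3q1) (n2 := ndB1q3) (pc := pcB2) (cut := Cut.none) (xt := Ext.none) (P1 := 536870912) (W1 := 536870912) (P2 := 1610612736) (W2 := 536870912) (P3 := 1040187392) (W3 := 5207648) (N0 := 3) (En := eng) (mo := mog) (C1 := cd3q1) (C2 := cd1q3) (C3 := pd2)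
    rfl (fun _ => rfl) k0_pp_123

noncomputable def f_pp_133 : ℕ → ℕ → ℕ → ℕ → Bool := onCell 1610612736 536870912 1610612736 536870912 1040187392 5207648
    (rowB 3 eng mog cd3q1 cd1q3 pd3 2 false true true .dn 1 3 3 (qsf 536870912 536870912 1610612736 536870912 3) ndB3q1 ndB1q3 pcB3 Cut.none Ext.none)

def k0_pp_133 : ∃ t, chk3 f_pp_133 t 1 1 1 = true :=
  ⟨(a (b (l 1) (a (l 4) (l 1))) (l 1)), by decide +kernel⟩

theorem c_pp_133 : CertB 536870912 536870912 1610612736 536870912 1040187392 5207648 3 eng mog cd3q1 cd1q3 pd3 false true true .dn 1 3 3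
    ndB3q1 ndB1q3 pcB3 Cut.none Ext.none :=
  certB2 (fam := false) (s1 := true) (s2 := true) (a := 1) (b := 3) (c := 3) (cn := .dn) (n1 := ndB3q1) (n2 := ndB1q3) (pc := pcB3) (cut := Cut.none) (xt := Ext.none) (P1 := 536870912) (W1 := 536870912) (P2 := 1610612736) (W2 := 536870912) (P3 := 1040187392) (W3 := 5207648) (N0 := 3) (En := eng) (mo := mog) (C1 := cd3q1) (C2 := cd1q3) (C3 := pd3)
    rfl (fun _ => rfl) k0_pp_133

noncomputable def f_pp_202_a : ℕ → ℕ → ℕ → ℕ → Bool := onCell 1073741824 536870912 0 536870912 1040187392 5207648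
    (rowB 3 eng mog cd3q2 cd1q2a pd0 0 false true true .pp 2 0 2 (qsf 1073741824 536870912 0 536870912 0) ndB3q2 ndB1q2a pcB0 Cut.none Ext.none)

def k0_pp_202_a : ∃ t, chk3 f_pp_202_a t 1 1 1 = true :=
  ⟨(l 3), by decide +kernel⟩

theorem c_pp_202_a : CertB 1073741824 536870912 0 536870912 1040187392 5207648 3 eng mog cd3q2 cd1q2a pd0 false true true .pp 2 0 2
    ndB3q2 ndB1q2a pcB0 Cut.none Ext.none :=
  certB0 (fam := false) (s1 := true) (s2 := true) (a := 2) (b := 0) (c := 2) (cn := .pp) (n1 := ndB3q2) (n2 := ndB1q2a) (pc := pcB0) (cut := Cut.none) (xt := Ext.none) (P1 := 1073741824) (W1 := 536870912) (P2 := 0) (W2 := 536870912) (P3 := 1040187392) (W3 := 5207648) (N0 := 3) (En := eng) (mo := mog) (C1 := cd3q2) (C2 := cd1q2a) (C3 := pd0)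
    rfl k0_pp_202_a

noncomputable def f_pp_202_b : ℕ → ℕ → ℕ → ℕ → Bool := onCell 1073741824 536870912 1239849684 370763052 1040187392 5207648
    (rowB 3 eng mog cd3q2 cd1q2b pd0 0 false true true .pp 2 0 2 (qsf 1073741824 536870912 1239849684 370763052 0) ndB3q2 ndB1q2b pcB0 Cut.none Ext.none)

def k0_pp_202_b : ∃ t, chk3 f_pp_202_b t 1 1 1 = true :=
  ⟨(l 3), by decide +kernel⟩

theorem c_pp_202_b : CertB 1073741824 536870912 1239849684 370763052 1040187392 5207648 3 eng mog cd3q2 cd1q2b pd0 false true true .pp 2 0 2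
    ndB3q2 ndB1q2b pcB0 Cut.none Ext.none :=
  certB0 (fam := false) (s1 := true) (s2 := true) (a := 2) (b := 0) (c := 2) (cn := .pp) (n1 := ndB3q2) (n2 := ndB1q2b) (pc := pcB0) (cut := Cut.none) (xt := Ext.none) (P1 := 1073741824) (W1 := 536870912) (P2 := 1239849684) (W2 := 370763052) (P3 := 1040187392) (W3 := 5207648) (N0 := 3) (En := eng) (mo := mog) (C1 := cd3q2) (C2 := cd1q2b) (C3 := pd0)
    rfl k0_pp_202_b

noncomputable def f_pp_203 : ℕ → ℕ → ℕ → ℕ → Bool := onCell 1073741824 536870912 0 536870912 1040187392 5207648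
    (rowB 3 eng mog cd3q2 cd1q3 pd0 1 false true true .up 2 0 3 (qsf 1073741824 536870912 1610612736 536870912 0) ndB3q2 ndB1q3 pcB0 Cut.none Ext.none)

def k0_pp_203 : ∃ t, chk3 f_pp_203 t 1 1 1 = true :=
  ⟨(l 3), by decide +kernel⟩

theorem c_pp_203 : CertB 1073741824 536870912 1610612736 536870912 1040187392 5207648 3 eng mog cd3q2 cd1q3 pd0 false true true .up 2 0 3
    ndB3q2 ndB1q3 pcB0 Cut.none Ext.none :=
  certB1 (fam := false) (s1 := true) (s2 := true) (a := 2) (b := 0) (c := 3) (cn := .up) (n1 := ndB3q2) (n2 := ndB1q3) (pc := pcB0) (cut := Cut.none) (xt := Ext.none) (P1 := 1073741824) (W1 := 536870912) (P2 := 1610612736) (W2 := 536870912) (P3 := 1040187392) (W3 := 5207648) (N0 := 3) (En := eng) (mo := mog) (C1 := cd3q2) (C2 := cd1q3) (C3 := pd0)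
    rfl (fun _ => rfl) k0_pp_203

noncomputable def f_pp_213 : ℕ → ℕ → ℕ → ℕ → Bool := onCell 536870912 536870912 1610612736 536870912 1040187392 5207648
    (rowB 3 eng mog cd3q2 cd1q3 pd1 2 false true true .pnn 2 1 3 (qsf 1073741824 536870912 1610612736 536870912 1) ndB3q2 ndB1q3 pcB1 Cut.none Ext.none)

def k0_pp_213 : ∃ t, chk3 f_pp_213 t 1 1 1 = true :=
  ⟨(a (l 3) (a (l 3) (a (l 3) (b (l 1) (b (l 1) (a (l 3) (b (l 1) (b (a (a (l 3) (l 1)) (l 1)) (a (b (a (l 3) (l 16749960)) (b (l 16751384) (l 16749936))) (b (l 579317099895) (a (l 16757072) (l 16715688)))))))))))), by decide +kernel⟩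

theorem c_pp_213 : CertB 1073741824 536870912 1610612736 536870912 1040187392 5207648 3 eng mog cd3q2 cd1q3 pd1 false true true .pnn 2 1 3
    ndB3q2 ndB1q3 pcB1 Cut.none Ext.none :=
  certB2 (fam := false) (s1 := true) (s2 := true) (a := 2) (b := 1) (c := 3) (cn := .pnn) (n1 := ndB3q2) (n2 := ndB1q3) (pc := pcB1) (cut := Cut.none) (xt := Ext.none) (P1 := 1073741824) (W1 := 536870912) (P2 := 1610612736) (W2 := 536870912) (P3 := 1040187392) (W3 := 5207648) (N0 := 3) (En := eng) (mo := mog) (C1 := cd3q2) (C2 := cd1q3) (C3 := pd1)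
    rfl (fun _ => rfl) k0_pp_213

noncomputable def f_pp_303 : ℕ → ℕ → ℕ → ℕ → Bool := onCell 0 1230186008 1610612736 536870912 1040187392 5207648
    (rowB 3 eng mog cd3q3 cd1q3 pd0 0 false true true .npn 3 0 3 (qsf 0 1230186008 1610612736 536870912 0) ndB3q3 ndB1q3 pcB0 Cut.none Ext.none)

def k0_pp_303 : ∃ t, chk3 f_pp_303 t 1 1 1 = true :=
  ⟨(a (l 3) (l 3)), by decide +kernel⟩

theorem c_pp_303 : CertB 0 1230186008 1610612736 536870912 1040187392 5207648 3 eng mog cd3q3 cd1q3 pd0 false true true .npn 3 0 3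
    ndB3q3 ndB1q3 pcB0 Cut.none Ext.none :=
  certB0 (fam := false) (s1 := true) (s2 := true) (a := 3) (b := 0) (c := 3) (cn := .npn) (n1 := ndB3q3) (n2 := ndB1q3) (pc := pcB0) (cut := Cut.none) (xt := Ext.none) (P1 := 0) (W1 := 1230186008) (P2 := 1610612736) (W2 := 536870912) (P3 := 1040187392) (W3 := 5207648) (N0 := 3) (En := eng) (mo := mog) (C1 := cd3q3) (C2 := cd1q3) (C3 := pd0)
    rfl k0_pp_303

noncomputable def f_pp_313 : ℕ → ℕ → ℕ → ℕ → Bool := onCell 0 1230186008 1610612736 536870912 1040187392 5207648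
    (rowB 3 eng mog cd3q3 cd1q3 pd1 0 false true true .dn 3 1 3 (qsf 0 1230186008 1610612736 536870912 1) ndB3q3 ndB1q3 pcB1 Cut.none Ext.none)

def k0_pp_313 : ∃ t, chk3 f_pp_313 t 1 1 1 = true :=
  ⟨(a (l 1) (l 3)), by decide +kernel⟩

theorem c_pp_313 : CertB 0 1230186008 1610612736 536870912 1040187392 5207648 3 eng mog cd3q3 cd1q3 pd1 false true true .dn 3 1 3
    ndB3q3 ndB1q3 pcB1 Cut.none Ext.none :=
  certB0 (fam := false) (s1 := true) (s2 := true) (a := 3) (b := 1) (c := 3) (cn := .dn) (n1 := ndB3q3) (n2 := ndB1q3) (pc := pcB1) (cut := Cut.none) (xt := Ext.none) (P1 := 0) (W1 := 1230186008) (P2 := 1610612736) (W2 := 536870912) (P3 := 1040187392) (W3 := 5207648) (N0 := 3) (En := eng) (mo := mog) (C1 := cd3q3) (C2 := cd1q3) (C3 := pd1)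
    rfl k0_pp_313

noncomputable def f_pm_001 : ℕ → ℕ → ℕ → ℕ → Bool := onCell 0 536870912 536870912 536870912 1040187392 5207648
    (rowB 3 eng mog cd3q0 cd1q1 pd0 0 false true false .up 0 0 1 (qsf 0 536870912 536870912 536870912 0) ndB3q0 ndB1q1 pcB0 Cut.none Ext.none)

def k0_pm_001 : ∃ t, chk3 f_pm_001 t 1 1 1 = true :=
  ⟨(l 4), by decide +kernel⟩

theorem c_pm_001 : CertB 0 536870912 536870912 536870912 1040187392 5207648 3 eng mog cd3q0 cd1q1 pd0 false true false .up 0 0 1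
    ndB3q0 ndB1q1 pcB0 Cut.none Ext.none :=
  certB0 (fam := false) (s1 := true) (s2 := false) (a := 0) (b := 0) (c := 1) (cn := .up) (n1 := ndB3q0) (n2 := ndB1q1) (pc := pcB0) (cut := Cut.none) (xt := Ext.none) (P1 := 0) (W1 := 536870912) (P2 := 536870912) (W2 := 536870912) (P3 := 1040187392) (W3 := 5207648) (N0 := 3) (En := eng) (mo := mog) (C1 := cd3q0) (C2 := cd1q1) (C3 := pd0)
    rfl k0_pm_001

noncomputable def f_pm_011 : ℕ → ℕ → ℕ → ℕ → Bool := onCell 0 536870912 536870912 536870912 1040187392 5207648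
    (rowB 3 eng mog cd3q0 cd1q1 pd1 0 false true false .pnn 0 1 1 (qsf 0 536870912 536870912 536870912 1) ndB3q0 ndB1q1 pcB1 Cut.none Ext.none)

def k0_pm_011 : ∃ t, chk3 f_pm_011 t 1 1 1 = true :=
  ⟨(l 4), by decide +kernel⟩

theorem c_pm_011 : CertB 0 536870912 536870912 536870912 1040187392 5207648 3 eng mog cd3q0 cd1q1 pd1 false true false .pnn 0 1 1
    ndB3q0 ndB1q1 pcB1 Cut.none Ext.none :=
  certB0 (fam := false) (s1 := true) (s2 := false) (a := 0) (b := 1) (c := 1) (cn := .pnn) (n1 := ndB3q0) (n2 := ndB1q1) (pc := pcB1) (cut := Cut.none) (xt := Ext.none) (P1 := 0) (W1 := 536870912) (P2 := 536870912) (W2 := 536870912) (P3 := 1040187392) (W3 := 5207648) (N0 := 3) (En := eng) (mo := mog) (C1 := cd3q0) (C2 := cd1q1) (C3 := pd1)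
    rfl k0_pm_011

noncomputable def xt_pm_012_a : Ext := extD3 3 ⟨4, 1, 1, 5, 33, 5, 163, 200, 81, 200, 1, 64⟩ eng cd3q0 cd1q2a pd1 false true false .pnp 0 1 2 rfl ndB3q0 ndB1q2a pcB1

noncomputable def f_pm_012_a : ℕ → ℕ → ℕ → ℕ → Bool := onCell 536870912 536870912 0 536870912 1040187392 5207648
    (rowB 3 eng mog cd3q0 cd1q2a pd1 2 false true false .pnp 0 1 2 (qsf 0 536870912 0 536870912 1) ndB3q0 ndB1q2a pcB1 Cut.none xt_pm_012_a)

def k0_pm_012_a : ∃ t, chk3 f_pm_012_a t 1 1 1 = true :=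
  ⟨(a (b (b (a (l 2) (a (a (b (l 11670992) (l 11729360)) (b (l 11715928) (l 11799488))) (b (l 11729136) (a (l 11853504) (l 11937040))))) (b (a (l 2) (a (l 11775944) (l 11949800))) (l 4))) (l 4)) (b (a (a (a (b (b (l 11806648) (l 12042640)) (l 12258744)) (b (b (b (l 11925520) (l 11965864)) (l 12160992)) (b (l 12396152) (l 4)))) (b (a (b (b (l 12222480) (l 12182720)) (a (l 12292568) (l 12360912))) (b (l 12557528) (b (a (l 12400976) (l 12569584)) (l 12569072)))) (b (a (l 12591048) (b (l 12734128) (l 12891456))) (a (l 12789664) (l 13064056))))) (a (b (a (b (l 12972152) (a (b (l 12769544) (l 12758976)) (l 12969320))) (l 13377960)) (a (b (b (a (l 12883424) (l 13021176)) (a (l 13080464) (l 13192248))) (b (l 13297216) (l 13442216))) (b (a (a (l 13197576) (l 13295960)) (l 13456872)) (a (b (l 13509688) (l 13681952)) (l 57136583431))))) (b (a (l 13875160) (l 14408320)) (a (b (a (l 13692792) (l 13916536)) (a (b (l 13759232) (l 13959560)) (b (l 13988024) (l 14105368))))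 (b (l 14321904) (a (l 14285688) (l 14552232))))))) (a (l 4) (b (a (a (l 4) (l 4)) (a (b (a (l 14281752) (l 14416192)) (l 4)) (b (a (l 121628212285030463) (l 14695216)) (l 4)))) (a (l 4) (l 4)))))), by decide +kernel⟩

theorem c_pm_012_a : CertB 0 536870912 0 536870912 1040187392 5207648 3 eng mog cd3q0 cd1q2a pd1 false true false .pnp 0 1 2
    ndB3q0 ndB1q2a pcB1 Cut.none xt_pm_012_a :=
  certB2 (fam := false) (s1 := true) (s2 := false) (a := 0) (b := 1) (c := 2) (cn := .pnp) (n1 := ndB3q0) (n2 := ndB1q2a) (pc := pcB1) (cut := Cut.none) (xt := xt_pm_012_a) (P1 := 0) (W1 := 536870912) (P2 := 0) (W2 := 536870912) (P3 := 1040187392) (W3 := 5207648) (N0 := 3) (En := eng) (mo := mog) (C1 := cd3q0) (C2 := cd1q2a) (C3 := pd1)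
    rfl (fun _ => rfl) k0_pm_012_a

noncomputable def f_pm_012_b : ℕ → ℕ → ℕ → ℕ → Bool := onCell 0 536870912 536870912 536870912 1040187392 5207648
    (rowB 3 eng mog cd3q0 cd1q2b pd1 1 false true false .pnp 0 1 2 (qsf 0 536870912 1239849684 370763052 1) ndB3q0 ndB1q2b pcB1 Cut.none Ext.none)

def k0_pm_012_b : ∃ t, chk3 f_pm_012_b t 1 1 1 = true :=
  ⟨(a (b (l 1) (b (l 1) (a (l 1) (a (b (l 1) (a (l 15220848) (l 14564864))) (b (a (l 14108624) (l 13527808)) (a (l 13941456) (l 13354000))))))) (b (a (l 1) (b (l 1) (a (b (l 1) (l 558369643143)) (b (l 11718496) (l 11453784))))) (b (a (a (b (l 1) (l 292620945703)) (b (l 403751754423) (l 11986264))) (a (b (a (l 11627384) (l 11396952)) (a (l 11424048) (l 11135328))) (b (l 11180464) (l 10906056)))) (a (a (b (l 12729208) (l 12549176)) (b (l 11806168) (l 11623648))) (b (a (a (l 11230136) (l 10965384)) (l 10621136)) (a (l 10886240) (l 10412104))))))), by decide +kernel⟩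

theorem c_pm_012_b : CertB 0 536870912 1239849684 370763052 1040187392 5207648 3 eng mog cd3q0 cd1q2b pd1 false true false .pnp 0 1 2
    ndB3q0 ndB1q2b pcB1 Cut.none Ext.none :=
  certB1 (fam := false) (s1 := true) (s2 := false) (a := 0) (b := 1) (c := 2) (cn := .pnp) (n1 := ndB3q0) (n2 := ndB1q2b) (pc := pcB1) (cut := Cut.none) (xt := Ext.none) (P1 := 0) (W1 := 536870912) (P2 := 1239849684) (W2 := 370763052) (P3 := 1040187392) (W3 := 5207648) (N0 := 3) (En := eng) (mo := mog) (C1 := cd3q0) (C2 := cd1q2b) (C3 := pd1)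
    rfl (fun _ => rfl) k0_pm_012_b

noncomputable def f_pm_022_a : ℕ → ℕ → ℕ → ℕ → Bool := onCell 0 536870912 0 536870912 1040187392 5207648
    (rowB 3 eng mog cd3q0 cd1q2a pd2 0 false true false .pp 0 2 2 (qsf 0 536870912 0 536870912 2) ndB3q0 ndB1q2a pcB2 Cut.none Ext.none)

def k0_pm_022_a : ∃ t, chk3 f_pm_022_a t 1 1 1 = true :=
  ⟨(a (b (a (b (a (a (a (b (l 15313912) (l 15575376)) (a (b (l 15363416) (l 15600136)) (b (l 15439656) (l 15660256)))) (a (a (b (l 15509552) (l 15713720)) (l 15586888)) (l 15307848))) (a (b (l 15355344) (l 15449704)) (b (l 15083688) (l 15083064)))) (a (a (a (b (l 15845928) (l 16045488)) (b (a (l 15845192) (l 15889096)) (a (l 16059760) (l 16106208)))) (a (b (a (l 15926208) (l 15889048)) (a (l 16121920) (l 16060360))) (b (l 15793752) (l 15922992)))) (a (b (l 15534840) (a (l 15703200) (l 15444536))) (b (l 15064792) (a (l 15154824) (l 14837496)))))) (a (b (a (b (l 14703728) (l 14605752)) (b (l 1) (l 1))) (a (b (l 14486744) (l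 14317192)) (l 1))) (l 1))) (a (b (a (b (a (a (b (l 16289976) (l 16376256)) (a (b (l 16235168) (l 16320456)) (l 16281080))) (a (a (l 16227568) (l 16175624)) (l 15987712))) (a (a (b (l 16487192) (l 16551040)) (a (b (l 16382768) (l 16418456)) (b (l 16359240) (l 16378600)))) (a (a (b (l 16324584) (l 16327760)) (b (l 16203664) (l 16192448))) (b (l 15979960) (l 15958440))))) (a (b (a (l 15705888) (l 15390160)) (a (b (l 15656392) (l 15636352)) (b (l 15319520) (l 4)))) (b (a (l 15049408) (l 14587496)) (l 4)))) (a (b (b (a (a (l 16480664) (a (a (l 16438752) (l 16410496)) (l 16373632))) (a (a (l 102239172647) (l 4)) (l 4))) (a (a (a (b (l 16651504) (l 16651832)) (l 134451873703)) (a (a (l 16394368) (l 4)) (l 4))) (l 4))) (a (a (b (a (b (l 16634392) (l 4)) (l 4)) (l 4)) (l 4)) (l 4))) (l 4))) (b (l 1) (l 1)))) (l 1)), by decide +kernel⟩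

theorem c_pm_022_a : CertB 0 536870912 0 536870912 1040187392 5207648 3 eng mog cd3q0 cd1q2a pd2 false true false .pp 0 2 2
    ndB3q0 ndB1q2a pcB2 Cut.none Ext.none :=
  certB0 (fam := false) (s1 := true) (s2 := false) (a := 0) (b := 2) (c := 2) (cn := .pp) (n1 := ndB3q0) (n2 := ndB1q2a) (pc := pcB2) (cut := Cut.none) (xt := Ext.none) (P1 := 0) (W1 := 536870912) (P2 := 0) (W2 := 536870912) (P3 := 1040187392) (W3 := 5207648) (N0 := 3) (En := eng) (mo := mog) (C1 := cd3q0) (C2 := cd1q2a) (C3 := pd2)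
    rfl k0_pm_022_a

noncomputable def f_pm_022_b : ℕ → ℕ → ℕ → ℕ → Bool := onCell 0 536870912 1073741824 536870912 1040187392 5207648
    (rowB 3 eng mog cd3q0 cd1q2b pd2 1 false true false .pp 0 2 2 (qsf 0 536870912 1239849684 370763052 2) ndB3q0 ndB1q2b pcB2 Cut.none Ext.none)

def k0_pm_022_b : ∃ t, chk3 f_pm_022_b t 2 1 1 = true :=
  ⟨(b (a (b (a (b (l 1) (b (a (l 1) (a (l 1) (l 15619976))) (a (a (l 1) (a (l 1) (l 15518104))) (a (a (l 15515832) (l 15446416)) (l 15319768))))) (b (a (b (l 1) (l 628169647959)) (b (l 15341168) (l 15074104))) (b (a (l 15298928) (l 14875616)) (a (l 15064464) (l 14726368))))) (a (b (a (a (b (l 283497836951) (l 14983856)) (a (b (l 15202872) (l 14965408)) (b (l 15218616) (l 14995224)))) (a (a (b (l 15230592) (l 15021120)) (l 14993520)) (b (l 15085200) (l 14925608)))) (a (a (b (l 14794688) (l 14678576)) (a (b (l 14803952) (l 14713592)) (l 14800496))) (a (a (l 14845872) (l 14843264)) (l 14821792)))) (b (b (a (l 14890512) (l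 14631312)) (l 14696288)) (a (l 14772536) (l 14703008))))) (b (b (a (b (a (l 14742888) (l 14168976)) (l 14223000)) (b (l 13364704) (l 13414312))) (a (b (l 14263448) (l 14235768)) (b (l 13518440) (l 13644704)))) (b (a (b (l 14253856) (l 14343176)) (l 13663408)) (a (l 14492776) (b (l 14328400) (l 14630104)))))) (a (b (a (b (a (a (l 14635296) (a (l 14705208) (l 14776488))) (a (a (l 14843512) (l 14873720)) (l 14904648))) (a (a (l 14796448) (a (l 14905848) (l 14993616))) (a (l 14874608) (l 15211680)))) (b (b (l 14901736) (l 15081672)) (b (l 15310312) (l 15499384)))) (a (b (a (a (l 15171360) (b (l 15239464) (l 15486720))) (a (l 15334376) (l 15698648))) (a (a (l 15472680) (b (l 15765176) (l 15652992))) (a (b (l 15820496) (l 15616240)) (l 15871480)))) (b (b (l 15653416) (l 15938496)) (l 4)))) (b (b (a (b (l 14966808) (l 15234520)) (b (l 14914488) (l 4))) (a (b (l 15474752) (l 15664984)) (l 4))) (l 4)))), by decide +kernel⟩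

def k1_pm_022_b : ∃ t, chk3 f_pm_022_b t 3 1 1 = true :=
  ⟨(b (a (b (b (a (b (l 12410952) (l 12623552)) (l 11790056)) (a (l 13015080) (l 12388624))) (b (a (b (l 13447224) (l 13782456)) (l 13346104)) (a (l 14284424) (l 4)))) (b (b (a (l 11251384) (l 10920232)) (a (l 12274576) (l 4))) (l 4))) (l 4)), by decide +kernel⟩

theorem s2_pm_022_b : ∃ t, chk3 f_pm_022_b t 1 1 1 = true := ex3_a k0_pm_022_b k1_pm_022_b

theorem c_pm_022_b : CertB 0 536870912 1239849684 370763052 1040187392 5207648 3 eng mog cd3q0 cd1q2b pd2 false true false .pp 0 2 2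
    ndB3q0 ndB1q2b pcB2 Cut.none Ext.none :=
  certB1 (fam := false) (s1 := true) (s2 := false) (a := 0) (b := 2) (c := 2) (cn := .pp) (n1 := ndB3q0) (n2 := ndB1q2b) (pc := pcB2) (cut := Cut.none) (xt := Ext.none) (P1 := 0) (W1 := 536870912) (P2 := 1239849684) (W2 := 370763052) (P3 := 1040187392) (W3 := 5207648) (N0 := 3) (En := eng) (mo := mog) (C1 := cd3q0) (C2 := cd1q2b) (C3 := pd2)
    rfl (fun _ => rfl) s2_pm_022_b

noncomputable def f_pm_023 : ℕ → ℕ → ℕ → ℕ → Bool := onCell 0 536870912 1610612736 536870912 1040187392 5207648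
    (rowB 3 eng mog cd3q0 cd1q3 pd2 0 false true false .up 0 2 3 (qsf 0 536870912 1610612736 536870912 2) ndB3q0 ndB1q3 pcB2 Cut.none Ext.none)

def k0_pm_023 : ∃ t, chk3 f_pm_023 t 1 1 1 = true :=
  ⟨(b (a (a (b (a (b (b (a (a (l 15149672) (l 15253736)) (a (l 15315768) (l 15550392))) (l 4)) (l 4)) (l 4)) (l 4)) (l 4)) (b (a (l 4) (l 4)) (l 4))) (l 4)), by decide +kernel⟩

theorem c_pm_023 : CertB 0 536870912 1610612736 536870912 1040187392 5207648 3 eng mog cd3q0 cd1q3 pd2 false true false .up 0 2 3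
    ndB3q0 ndB1q3 pcB2 Cut.none Ext.none :=
  certB0 (fam := false) (s1 := true) (s2 := false) (a := 0) (b := 2) (c := 3) (cn := .up) (n1 := ndB3q0) (n2 := ndB1q3) (pc := pcB2) (cut := Cut.none) (xt := Ext.none) (P1 := 0) (W1 := 536870912) (P2 := 1610612736) (W2 := 536870912) (P3 := 1040187392) (W3 := 5207648) (N0 := 3) (En := eng) (mo := mog) (C1 := cd3q0) (C2 := cd1q3) (C3 := pd2)
    rfl k0_pm_023

noncomputable def f_pm_033 : ℕ → ℕ → ℕ → ℕ → Bool := onCell 0 536870912 1610612736 536870912 1040187392 5207648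
    (rowB 3 eng mog cd3q0 cd1q3 pd3 0 false true false .pnn 0 3 3 (qsf 0 536870912 1610612736 536870912 3) ndB3q0 ndB1q3 pcB3 Cut.none Ext.none)

def k0_pm_033 : ∃ t, chk3 f_pm_033 t 1 1 1 = true :=
  ⟨(b (a (a (b (a (b (a (a (l 15040640) (l 15144840)) (a (l 15271320) (l 15515360))) (l 4)) (l 4)) (l 4)) (l 4)) (a (l 4) (l 1))) (l 4)), by decide +kernel⟩

theorem c_pm_033 : CertB 0 536870912 1610612736 536870912 1040187392 5207648 3 eng mog cd3q0 cd1q3 pd3 false true false .pnn 0 3 3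
    ndB3q0 ndB1q3 pcB3 Cut.none Ext.none :=
  certB0 (fam := false) (s1 := true) (s2 := false) (a := 0) (b := 3) (c := 3) (cn := .pnn) (n1 := ndB3q0) (n2 := ndB1q3) (pc := pcB3) (cut := Cut.none) (xt := Ext.none) (P1 := 0) (W1 := 536870912) (P2 := 1610612736) (W2 := 536870912) (P3 := 1040187392) (W3 := 5207648) (N0 := 3) (En := eng) (mo := mog) (C1 := cd3q0) (C2 := cd1q3) (C3 := pd3)
    rfl k0_pm_033

noncomputable def f_pm_101 : ℕ → ℕ → ℕ → ℕ → Bool := onCell 536870912 536870912 536870912 536870912 1040187392 5207648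
    (rowB 3 eng mog cd3q1 cd1q1 pd0 0 false true false .npn 1 0 1 (qsf 536870912 536870912 536870912 536870912 0) ndB3q1 ndB1q1 pcB0 Cut.none Ext.none)

def k0_pm_101 : ∃ t, chk3 f_pm_101 t 1 1 1 = true :=
  ⟨(l 4), by decide +kernel⟩

theorem c_pm_101 : CertB 536870912 536870912 536870912 536870912 1040187392 5207648 3 eng mog cd3q1 cd1q1 pd0 false true false .npn 1 0 1
    ndB3q1 ndB1q1 pcB0 Cut.none Ext.none :=
  certB0 (fam := false) (s1 := true) (s2 := false) (a := 1) (b := 0) (c := 1) (cn := .npn) (n1 := ndB3q1) (n2 := ndB1q1) (pc := pcB0) (cut := Cut.none) (xt := Ext.none) (P1 := 536870912) (W1 := 536870912) (P2 := 536870912) (W2 := 536870912) (P3 := 1040187392) (W3 := 5207648) (N0 := 3) (En := eng) (mo := mog) (C1 := cd3q1) (C2 := cd1q1) (C3 := pd0)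
    rfl k0_pm_101

noncomputable def f_pm_102_a : ℕ → ℕ → ℕ → ℕ → Bool := onCell 0 536870912 0 536870912 1040187392 5207648
    (rowB 3 eng mog cd3q1 cd1q2a pd0 2 false true false .npp 1 0 2 (qsf 536870912 536870912 0 536870912 0) ndB3q1 ndB1q2a pcB0 Cut.none Ext.none)

def k0_pm_102_a : ∃ t, chk3 f_pm_102_a t 1 1 1 = true :=
  ⟨(b (b (a (a (l 2) (l 13574872)) (a (a (l 13988192) (l 14165008)) (a (b (l 14428360) (l 14246400)) (b (a (l 14578152) (l 14669056)) (l 14391104))))) (b (a (a (l 2) (l 13580112)) (a (a (l 13876512) (l 14036672)) (a (l 14169080) (l 14273720)))) (l 4))) (l 4)), by decide +kernel⟩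

theorem c_pm_102_a : CertB 536870912 536870912 0 536870912 1040187392 5207648 3 eng mog cd3q1 cd1q2a pd0 false true false .npp 1 0 2
    ndB3q1 ndB1q2a pcB0 Cut.none Ext.none :=
  certB2 (fam := false) (s1 := true) (s2 := false) (a := 1) (b := 0) (c := 2) (cn := .npp) (n1 := ndB3q1) (n2 := ndB1q2a) (pc := pcB0) (cut := Cut.none) (xt := Ext.none) (P1 := 536870912) (W1 := 536870912) (P2 := 0) (W2 := 536870912) (P3 := 1040187392) (W3 := 5207648) (N0 := 3) (En := eng) (mo := mog) (C1 := cd3q1) (C2 := cd1q2a) (C3 := pd0)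
    rfl (fun _ => rfl) k0_pm_102_a

noncomputable def f_pm_102_b : ℕ → ℕ → ℕ → ℕ → Bool := onCell 536870912 536870912 0 536870912 1040187392 5207648
    (rowB 3 eng mog cd3q1 cd1q2b pd0 1 false true false .npp 1 0 2 (qsf 536870912 536870912 1239849684 370763052 0) ndB3q1 ndB1q2b pcB0 Cut.none Ext.none)

def k0_pm_102_b : ∃ t, chk3 f_pm_102_b t 1 1 1 = true :=
  ⟨(a (b (l 1) (b (l 1) (a (l 1) (b (a (l 1) (l 14643248)) (a (l 14686944) (l 14608680)))))) (b (b (l 1) (a (l 1) (l 454221084935))) (b (a (l 491801905383) (l 13819960)) (a (l 14236040) (l 13734872))))), by decide +kernel⟩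

theorem c_pm_102_b : CertB 536870912 536870912 1239849684 370763052 1040187392 5207648 3 eng mog cd3q1 cd1q2b pd0 false true false .npp 1 0 2
    ndB3q1 ndB1q2b pcB0 Cut.none Ext.none :=
  certB1 (fam := false) (s1 := true) (s2 := false) (a := 1) (b := 0) (c := 2) (cn := .npp) (n1 := ndB3q1) (n2 := ndB1q2b) (pc := pcB0) (cut := Cut.none) (xt := Ext.none) (P1 := 536870912) (W1 := 536870912) (P2 := 1239849684) (W2 := 370763052) (P3 := 1040187392) (W3 := 5207648) (N0 := 3) (En := eng) (mo := mog) (C1 := cd3q1) (C2 := cd1q2b) (C3 := pd0)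
    rfl (fun _ => rfl) k0_pm_102_b

noncomputable def f_pm_112_a : ℕ → ℕ → ℕ → ℕ → Bool := onCell 536870912 536870912 0 536870912 1040187392 5207648
    (rowB 3 eng mog cd3q1 cd1q2a pd1 2 false true false .dn 1 1 2 (qsf 536870912 536870912 0 536870912 1) ndB3q1 ndB1q2a pcB1 Cut.none Ext.none)

def k0_pm_112_a : ∃ t, chk3 f_pm_112_a t 1 1 1 = true :=
  ⟨(a (b (a (b (a (l 14568496) (l 14569928)) (a (l 14555872) (l 14596288))) (a (b (a (l 14545616) (l 14508288)) (l 14600272)) (l 1))) (l 4)) (l 1)), by decide +kernel⟩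

theorem c_pm_112_a : CertB 536870912 536870912 0 536870912 1040187392 5207648 3 eng mog cd3q1 cd1q2a pd1 false true false .dn 1 1 2
    ndB3q1 ndB1q2a pcB1 Cut.none Ext.none :=
  certB2 (fam := false) (s1 := true) (s2 := false) (a := 1) (b := 1) (c := 2) (cn := .dn) (n1 := ndB3q1) (n2 := ndB1q2a) (pc := pcB1) (cut := Cut.none) (xt := Ext.none) (P1 := 536870912) (W1 := 536870912) (P2 := 0) (W2 := 536870912) (P3 := 1040187392) (W3 := 5207648) (N0 := 3) (En := eng) (mo := mog) (C1 := cd3q1) (C2 := cd1q2a) (C3 := pd1)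
    rfl (fun _ => rfl) k0_pm_112_a

noncomputable def f_pm_112_b : ℕ → ℕ → ℕ → ℕ → Bool := onCell 536870912 536870912 1239849684 370763052 1040187392 5207648
    (rowB 3 eng mog cd3q1 cd1q2b pd1 2 false true false .dn 1 1 2 (qsf 536870912 536870912 1239849684 370763052 1) ndB3q1 ndB1q2b pcB1 Cut.none Ext.none)

def k0_pm_112_b : ∃ t, chk3 f_pm_112_b t 1 1 1 = true :=
  ⟨(a (a (b (b (l 14458960) (l 14176976)) (l 13695320)) (b (b (a (l 14349128) (l 14191416)) (a (l 14148736) (l 14042520))) (b (l 13836160) (l 13519872)))) (a (b (b (l 1) (a (l 13878776) (l 590584956103))) (a (l 13538248) (b (l 13535768) (l 13323184)))) (b (l 1) (a (b (l 13361872) (l 13160112)) (l 593268296071))))), by decide +kernel⟩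

theorem c_pm_112_b : CertB 536870912 536870912 1239849684 370763052 1040187392 5207648 3 eng mog cd3q1 cd1q2b pd1 false true false .dn 1 1 2
    ndB3q1 ndB1q2b pcB1 Cut.none Ext.none :=
  certB2 (fam := false) (s1 := true) (s2 := false) (a := 1) (b := 1) (c := 2) (cn := .dn) (n1 := ndB3q1) (n2 := ndB1q2b) (pc := pcB1) (cut := Cut.none) (xt := Ext.none) (P1 := 536870912) (W1 := 536870912) (P2 := 1239849684) (W2 := 370763052) (P3 := 1040187392) (W3 := 5207648) (N0 := 3) (En := eng) (mo := mog) (C1 := cd3q1) (C2 := cd1q2b) (C3 := pd1)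
    rfl (fun _ => rfl) k0_pm_112_b

noncomputable def f_pm_113 : ℕ → ℕ → ℕ → ℕ → Bool := onCell 536870912 536870912 536870912 536870912 1040187392 5207648
    (rowB 3 eng mog cd3q1 cd1q3 pd1 1 false true false .nn 1 1 3 (qsf 536870912 536870912 1610612736 536870912 1) ndB3q1 ndB1q3 pcB1 Cut.none Ext.none)

def k0_pm_113 : ∃ t, chk3 f_pm_113 t 1 1 1 = true :=
  ⟨(b (a (b (l 1) (a (l 1) (l 544414225623))) (b (a (l 13701592) (l 13118240)) (a (l 13271048) (l 12773072)))) (b (a (b (a (l 1) (l 13434256)) (a (l 13340328) (l 13164360))) (a (b (l 12898560) (l 12709008)) (b (l 12514240) (l 12405680)))) (a (b (a (l 13339920) (l 12947448)) (a (l 13071520) (l 4))) (b (a (l 4) (l 12402904)) (a (l 4) (a (l 4) (l 13669056))))))), by decide +kernel⟩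

theorem c_pm_113 : CertB 536870912 536870912 1610612736 536870912 1040187392 5207648 3 eng mog cd3q1 cd1q3 pd1 false true false .nn 1 1 3
    ndB3q1 ndB1q3 pcB1 Cut.none Ext.none :=
  certB1 (fam := false) (s1 := true) (s2 := false) (a := 1) (b := 1) (c := 3) (cn := .nn) (n1 := ndB3q1) (n2 := ndB1q3) (pc := pcB1) (cut := Cut.none) (xt := Ext.none) (P1 := 536870912) (W1 := 536870912) (P2 := 1610612736) (W2 := 536870912) (P3 := 1040187392) (W3 := 5207648) (N0 := 3) (En := eng) (mo := mog) (C1 := cd3q1) (C2 := cd1q3) (C3 := pd1)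
    rfl (fun _ => rfl) k0_pm_113

noncomputable def f_pm_123 : ℕ → ℕ → ℕ → ℕ → Bool := onCell 1073741824 536870912 1610612736 536870912 1040187392 5207648
    (rowB 3 eng mog cd3q1 cd1q3 pd2 2 false true false .npn 1 2 3 (qsf 536870912 536870912 1610612736 536870912 2) ndB3q1 ndB1q3 pcB2 Cut.none Ext.none)

def k0_pm_123 : ∃ t, chk3 f_pm_123 t 1 1 1 = true :=
  ⟨(b (b (a (a (l 4) (l 4)) (l 1)) (a (l 4) (l 4))) (a (a (a (b (l 4) (l 1334892560311)) (l 4)) (l 4)) (l 4))), by decide +kernel⟩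

theorem c_pm_123 : CertB 536870912 536870912 1610612736 536870912 1040187392 5207648 3 eng mog cd3q1 cd1q3 pd2 false true false .npn 1 2 3
    ndB3q1 ndB1q3 pcB2 Cut.none Ext.none :=
  certB2 (fam := false) (s1 := true) (s2 := false) (a := 1) (b := 2) (c := 3) (cn := .npn) (n1 := ndB3q1) (n2 := ndB1q3) (pc := pcB2) (cut := Cut.none) (xt := Ext.none) (P1 := 536870912) (W1 := 536870912) (P2 := 1610612736) (W2 := 536870912) (P3 := 1040187392) (W3 := 5207648) (N0 := 3) (En := eng) (mo := mog) (C1 := cd3q1) (C2 := cd1q3) (C3 := pd2)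
    rfl (fun _ => rfl) k0_pm_123

noncomputable def f_pm_133 : ℕ → ℕ → ℕ → ℕ → Bool := onCell 536870912 536870912 1610612736 536870912 1040187392 5207648
    (rowB 3 eng mog cd3q1 cd1q3 pd3 0 false true false .dn 1 3 3 (qsf 536870912 536870912 1610612736 536870912 3) ndB3q1 ndB1q3 pcB3 Cut.none Ext.none)

def k0_pm_133 : ∃ t, chk3 f_pm_133 t 1 1 1 = true :=
  ⟨(a (b (l 1) (l 4)) (l 1)), by decide +kernel⟩

theorem c_pm_133 : CertB 536870912 536870912 1610612736 536870912 1040187392 5207648 3 eng mog cd3q1 cd1q3 pd3 false true false .dn 1 3 3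
    ndB3q1 ndB1q3 pcB3 Cut.none Ext.none :=
  certB0 (fam := false) (s1 := true) (s2 := false) (a := 1) (b := 3) (c := 3) (cn := .dn) (n1 := ndB3q1) (n2 := ndB1q3) (pc := pcB3) (cut := Cut.none) (xt := Ext.none) (P1 := 536870912) (W1 := 536870912) (P2 := 1610612736) (W2 := 536870912) (P3 := 1040187392) (W3 := 5207648) (N0 := 3) (En := eng) (mo := mog) (C1 := cd3q1) (C2 := cd1q3) (C3 := pd3)
    rfl k0_pm_133

noncomputable def f_pm_202_a : ℕ → ℕ → ℕ → ℕ → Bool := onCell 0 536870912 0 536870912 1040187392 5207648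
    (rowB 3 eng mog cd3q2 cd1q2a pd0 2 false true false .pp 2 0 2 (qsf 1073741824 536870912 0 536870912 0) ndB3q2 ndB1q2a pcB0 Cut.none Ext.none)

def k0_pm_202_a : ∃ t, chk3 f_pm_202_a t 2 2 1 = true :=
  ⟨(l 3), by decide +kernel⟩

def k1_pm_202_a : ∃ t, chk3 f_pm_202_a t 2 6 1 = true :=
  ⟨(l 3), by decide +kernel⟩

def k2_pm_202_a : ∃ t, chk3 f_pm_202_a t 8 14 1 = true :=
  ⟨(l 3), by decide +kernel⟩

def k3_pm_202_a : ∃ t, chk3 f_pm_202_a t 8 30 1 = true :=
  ⟨(b (b (l 3) (b (l 3) (b (a (l 3) (a (l 3) (l 1))) (a (a (a (l 3) (a (l 3) (l 16642944))) (a (l 16654352) (a (l 16708456) (l 16709776)))) (l 1))))) (a (a (a (b (b (b (a (a (a (b (a (l 13052260503) (l 16567784)) (a (l 16567984) (b (l 16569296) (l 16560152)))) (a (a (l 16570744) (l 16561704)) (l 9831051111))) (b (b (l 3) (l 16589968)) (a (b (l 16589216) (l 16590872)) (l 16595240)))) (b (l 16583768) (l 16587088))) (a (a (a (l 16585368) (a (l 16566624) (l 16568496))) (a (b (a (l 16590656) (l 16582728))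 (l 16573144)) (b (b (l 16597736) (l 16598664)) (l 16599552)))) (a (b (l 16606376) (a (l 16605720) (l 16611704))) (l 16618416)))) (a (a (l 16599704) (b (a (l 16599688) (l 16603096)) (l 16609912))) (a (a (b (l 16607776) (l 16613928)) (l 16594360)) (b (a (l 16619632) (l 16625704)) (l 16625024))))) (a (l 16609120) (a (l 16639496) (b (a (b (l 16626744) (l 16636744)) (l 16634464)) (l 16653824))))) (a (b (b (b (l 16627184) (l 16634144)) (b (a (l 16634488) (l 16645952)) (a (l 16636968) (l 16649656)))) (a (b (l 16641360) (a (l 16655584) (l 16656264))) (b (l 16653000) (a (l 16658240) (l 16664304))))) (b (b (l 16651752) (l 16643968)) (b (l 16674952) (l 16662360))))) (a (a (b (b (l 16673144) (l 16686632)) (b (l 16677904) (l 16711792))) (b (l 16680288) (b (l 16699872) (l 16714416)))) (b (a (l 16696896) (l 215318675399)) (a (b (l 206191870071) (l 1)) (l 1))))) (l 1))), by decide +kernel⟩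

def k4_pm_202_a : ∃ t, chk3 f_pm_202_a t 8 31 1 = true :=
  ⟨(a (a (a (b (a (b (l 16667216) (l 16684088)) (b (l 16684360) (l 16707072))) (a (b (b (l 16712432) (l 16712928)) (b (l 16724712) (l 16751072))) (b (l 16720624) (b (l 404297223687) (l 1))))) (b (a (b (l 16651664) (l 16700688)) (b (b (a (l 16691312) (l 16682952)) (l 16721224)) (l 16718584))) (a (b (b (l 16757896) (l 1)) (l 1)) (l 1)))) (a (b (b (a (b (a (a (l 16713784) (l 16720912)) (l 16731376)) (a (b (l 16706072) (l 16739576)) (l 345778305399))) (l 246994066903)) (l 1)) (l 1)) (l 1))) (l 1)), by decide +kernel⟩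

def k5_pm_202_a : ∃ t, chk3 f_pm_202_a t 9 7 1 = true :=
  ⟨(b (l 3) (l 1)), by decide +kernel⟩

def k6_pm_202_a : ∃ t, chk3 f_pm_202_a t 5 7 1 = true :=
  ⟨(l 1), by decide +kernel⟩

def k7_pm_202_a : ∃ t, chk3 f_pm_202_a t 3 1 1 = true :=
  ⟨(l 1), by decide +kernel⟩

theorem s8_pm_202_a : ∃ t, chk3 f_pm_202_a t 8 15 1 = true := ex3_b k3_pm_202_a k4_pm_202_a

theorem s9_pm_202_a : ∃ t, chk3 f_pm_202_a t 8 7 1 = true := ex3_b k2_pm_202_a s8_pm_202_a

theorem s10_pm_202_a : ∃ t, chk3 f_pm_202_a t 4 7 1 = true := ex3_a s9_pm_202_a k5_pm_202_a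

theorem s11_pm_202_a : ∃ t, chk3 f_pm_202_a t 2 7 1 = true := ex3_a s10_pm_202_a k6_pm_202_a

theorem s12_pm_202_a : ∃ t, chk3 f_pm_202_a t 2 3 1 = true := ex3_b k1_pm_202_a s11_pm_202_a

theorem s13_pm_202_a : ∃ t, chk3 f_pm_202_a t 2 1 1 = true := ex3_b k0_pm_202_a s12_pm_202_a

theorem s14_pm_202_a : ∃ t, chk3 f_pm_202_a t 1 1 1 = true := ex3_a s13_pm_202_a k7_pm_202_a

theorem c_pm_202_a : CertB 1073741824 536870912 0 536870912 1040187392 5207648 3 eng mog cd3q2 cd1q2a pd0 false true false .pp 2 0 2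
    ndB3q2 ndB1q2a pcB0 Cut.none Ext.none :=
  certB2 (fam := false) (s1 := true) (s2 := false) (a := 2) (b := 0) (c := 2) (cn := .pp) (n1 := ndB3q2) (n2 := ndB1q2a) (pc := pcB0) (cut := Cut.none) (xt := Ext.none) (P1 := 1073741824) (W1 := 536870912) (P2 := 0) (W2 := 536870912) (P3 := 1040187392) (W3 := 5207648) (N0 := 3) (En := eng) (mo := mog) (C1 := cd3q2) (C2 := cd1q2a) (C3 := pd0)
    rfl (fun _ => rfl) s14_pm_202_a

noncomputable def f_pm_202_b : ℕ → ℕ → ℕ → ℕ → Bool := onCell 1073741824 536870912 1239849684 370763052 1040187392 5207648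
    (rowB 3 eng mog cd3q2 cd1q2b pd0 0 false true false .pp 2 0 2 (qsf 1073741824 536870912 1239849684 370763052 0) ndB3q2 ndB1q2b pcB0 Cut.none Ext.none)

def k0_pm_202_b : ∃ t, chk3 f_pm_202_b t 1 1 1 = true :=
  ⟨(l 3), by decide +kernel⟩

theorem c_pm_202_b : CertB 1073741824 536870912 1239849684 370763052 1040187392 5207648 3 eng mog cd3q2 cd1q2b pd0 false true false .pp 2 0 2
    ndB3q2 ndB1q2b pcB0 Cut.none Ext.none :=
  certB0 (fam := false) (s1 := true) (s2 := false) (a := 2) (b := 0) (c := 2) (cn := .pp) (n1 := ndB3q2) (n2 := ndB1q2b) (pc := pcB0) (cut := Cut.none) (xt := Ext.none) (P1 := 1073741824) (W1 := 536870912) (P2 := 1239849684) (W2 := 370763052) (P3 := 1040187392) (W3 := 5207648) (N0 := 3) (En := eng) (mo := mog) (C1 := cd3q2) (C2 := cd1q2b) (C3 := pd0)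
    rfl k0_pm_202_b

noncomputable def f_pm_203 : ℕ → ℕ → ℕ → ℕ → Bool := onCell 1073741824 536870912 0 536870912 1040187392 5207648
    (rowB 3 eng mog cd3q2 cd1q3 pd0 1 false true false .up 2 0 3 (qsf 1073741824 536870912 1610612736 536870912 0) ndB3q2 ndB1q3 pcB0 Cut.none Ext.none)

def k0_pm_203 : ∃ t, chk3 f_pm_203 t 1 1 1 = true :=
  ⟨(l 3), by decide +kernel⟩

theorem c_pm_203 : CertB 1073741824 536870912 1610612736 536870912 1040187392 5207648 3 eng mog cd3q2 cd1q3 pd0 false true false .up 2 0 3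
    ndB3q2 ndB1q3 pcB0 Cut.none Ext.none :=
  certB1 (fam := false) (s1 := true) (s2 := false) (a := 2) (b := 0) (c := 3) (cn := .up) (n1 := ndB3q2) (n2 := ndB1q3) (pc := pcB0) (cut := Cut.none) (xt := Ext.none) (P1 := 1073741824) (W1 := 536870912) (P2 := 1610612736) (W2 := 536870912) (P3 := 1040187392) (W3 := 5207648) (N0 := 3) (En := eng) (mo := mog) (C1 := cd3q2) (C2 := cd1q3) (C3 := pd0)
    rfl (fun _ => rfl) k0_pm_203

noncomputable def f_pm_213 : ℕ → ℕ → ℕ → ℕ → Bool := onCell 1073741824 536870912 1610612736 536870912 1040187392 5207648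
    (rowB 3 eng mog cd3q2 cd1q3 pd1 0 false true false .pnn 2 1 3 (qsf 1073741824 536870912 1610612736 536870912 1) ndB3q2 ndB1q3 pcB1 Cut.none Ext.none)

def k0_pm_213 : ∃ t, chk3 f_pm_213 t 1 1 1 = true :=
  ⟨(a (b (l 3) (b (l 3) (a (b (l 3) (a (a (b (a (b (l 3) (b (l 3) (a (l 16301008) (l 3)))) (l 3)) (b (a (a (b (l 16629376) (l 16771048)) (b (l 3) (l 16683848))) (l 3)) (a (b (a (l 16771368) (l 16763928)) (a (l 16720784) (l 16763408))) (b (l 16677680) (a (l 16756264) (l 16725328)))))) (l 3)) (l 3))) (l 3)))) (l 3)), by decide +kernel⟩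

theorem c_pm_213 : CertB 1073741824 536870912 1610612736 536870912 1040187392 5207648 3 eng mog cd3q2 cd1q3 pd1 false true false .pnn 2 1 3
    ndB3q2 ndB1q3 pcB1 Cut.none Ext.none :=
  certB0 (fam := false) (s1 := true) (s2 := false) (a := 2) (b := 1) (c := 3) (cn := .pnn) (n1 := ndB3q2) (n2 := ndB1q3) (pc := pcB1) (cut := Cut.none) (xt := Ext.none) (P1 := 1073741824) (W1 := 536870912) (P2 := 1610612736) (W2 := 536870912) (P3 := 1040187392) (W3 := 5207648) (N0 := 3) (En := eng) (mo := mog) (C1 := cd3q2) (C2 := cd1q3) (C3 := pd1)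
    rfl k0_pm_213

noncomputable def f_pm_303 : ℕ → ℕ → ℕ → ℕ → Bool := onCell 0 1230186008 1610612736 536870912 1040187392 5207648
    (rowB 3 eng mog cd3q3 cd1q3 pd0 0 false true false .npn 3 0 3 (qsf 0 1230186008 1610612736 536870912 0) ndB3q3 ndB1q3 pcB0 Cut.none Ext.none)

def k0_pm_303 : ∃ t, chk3 f_pm_303 t 1 1 1 = true :=
  ⟨(a (l 3) (l 3)), by decide +kernel⟩

theorem c_pm_303 : CertB 0 1230186008 1610612736 536870912 1040187392 5207648 3 eng mog cd3q3 cd1q3 pd0 false true false .npn 3 0 3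
    ndB3q3 ndB1q3 pcB0 Cut.none Ext.none :=
  certB0 (fam := false) (s1 := true) (s2 := false) (a := 3) (b := 0) (c := 3) (cn := .npn) (n1 := ndB3q3) (n2 := ndB1q3) (pc := pcB0) (cut := Cut.none) (xt := Ext.none) (P1 := 0) (W1 := 1230186008) (P2 := 1610612736) (W2 := 536870912) (P3 := 1040187392) (W3 := 5207648) (N0 := 3) (En := eng) (mo := mog) (C1 := cd3q3) (C2 := cd1q3) (C3 := pd0)
    rfl k0_pm_303

noncomputable def f_pm_313 : ℕ → ℕ → ℕ → ℕ → Bool := onCell 0 1230186008 1610612736 536870912 1040187392 5207648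
    (rowB 3 eng mog cd3q3 cd1q3 pd1 0 false true false .dn 3 1 3 (qsf 0 1230186008 1610612736 536870912 1) ndB3q3 ndB1q3 pcB1 Cut.none Ext.none)

def k0_pm_313 : ∃ t, chk3 f_pm_313 t 1 1 1 = true :=
  ⟨(a (l 1) (l 3)), by decide +kernel⟩

theorem c_pm_313 : CertB 0 1230186008 1610612736 536870912 1040187392 5207648 3 eng mog cd3q3 cd1q3 pd1 false true false .dn 3 1 3
    ndB3q3 ndB1q3 pcB1 Cut.none Ext.none :=
  certB0 (fam := false) (s1 := true) (s2 := false) (a := 3) (b := 1) (c := 3) (cn := .dn) (n1 := ndB3q3) (n2 := ndB1q3) (pc := pcB1) (cut := Cut.none) (xt := Ext.none) (P1 := 0) (W1 := 1230186008) (P2 := 1610612736) (W2 := 536870912) (P3 := 1040187392) (W3 := 5207648) (N0 := 3) (En := eng) (mo := mog) (C1 := cd3q3) (C2 := cd1q3) (C3 := pd1)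
    rfl k0_pm_313

noncomputable def f_mm_001 : ℕ → ℕ → ℕ → ℕ → Bool := onCell 0 536870912 536870912 536870912 1040187392 5207648
    (rowB 3 eng mog cd3q0 cd1q1 pd0 0 false false false .up 0 0 1 (qsf 0 536870912 536870912 536870912 0) ndB3q0 ndB1q1 pcB0 Cut.none Ext.none)

def k0_mm_001 : ∃ t, chk3 f_mm_001 t 1 1 1 = true :=
  ⟨(l 5), by decide +kernel⟩

theorem c_mm_001 : CertB 0 536870912 536870912 536870912 1040187392 5207648 3 eng mog cd3q0 cd1q1 pd0 false false false .up 0 0 1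
    ndB3q0 ndB1q1 pcB0 Cut.none Ext.none :=
  certB0 (fam := false) (s1 := false) (s2 := false) (a := 0) (b := 0) (c := 1) (cn := .up) (n1 := ndB3q0) (n2 := ndB1q1) (pc := pcB0) (cut := Cut.none) (xt := Ext.none) (P1 := 0) (W1 := 536870912) (P2 := 536870912) (W2 := 536870912) (P3 := 1040187392) (W3 := 5207648) (N0 := 3) (En := eng) (mo := mog) (C1 := cd3q0) (C2 := cd1q1) (C3 := pd0)
    rfl k0_mm_001

noncomputable def f_mm_011 : ℕ → ℕ → ℕ → ℕ → Bool := onCell 0 536870912 536870912 536870912 1040187392 5207648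
    (rowB 3 eng mog cd3q0 cd1q1 pd1 0 false false false .pnn 0 1 1 (qsf 0 536870912 536870912 536870912 1) ndB3q0 ndB1q1 pcB1 Cut.none Ext.none)

def k0_mm_011 : ∃ t, chk3 f_mm_011 t 1 1 1 = true :=
  ⟨(l 5), by decide +kernel⟩

theorem c_mm_011 : CertB 0 536870912 536870912 536870912 1040187392 5207648 3 eng mog cd3q0 cd1q1 pd1 false false false .pnn 0 1 1
    ndB3q0 ndB1q1 pcB1 Cut.none Ext.none :=
  certB0 (fam := false) (s1 := false) (s2 := false) (a := 0) (b := 1) (c := 1) (cn := .pnn) (n1 := ndB3q0) (n2 := ndB1q1) (pc := pcB1) (cut := Cut.none) (xt := Ext.none) (P1 := 0) (W1 := 536870912) (P2 := 536870912) (W2 := 536870912) (P3 := 1040187392) (W3 := 5207648) (N0 := 3) (En := eng) (mo := mog) (C1 := cd3q0) (C2 := cd1q1) (C3 := pd1)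
    rfl k0_mm_011

noncomputable def f_mm_012_a : ℕ → ℕ → ℕ → ℕ → Bool := onCell 0 536870912 0 536870912 1040187392 5207648
    (rowB 3 eng mog cd3q0 cd1q2a pd1 0 false false false .pnp 0 1 2 (qsf 0 536870912 0 536870912 1) ndB3q0 ndB1q2a pcB1 Cut.none Ext.none)

def k0_mm_012_a : ∃ t, chk3 f_mm_012_a t 1 1 1 = true :=
  ⟨(l 5), by decide +kernel⟩

theorem c_mm_012_a : CertB 0 536870912 0 536870912 1040187392 5207648 3 eng mog cd3q0 cd1q2a pd1 false false false .pnp 0 1 2
    ndB3q0 ndB1q2a pcB1 Cut.none Ext.none :=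
  certB0 (fam := false) (s1 := false) (s2 := false) (a := 0) (b := 1) (c := 2) (cn := .pnp) (n1 := ndB3q0) (n2 := ndB1q2a) (pc := pcB1) (cut := Cut.none) (xt := Ext.none) (P1 := 0) (W1 := 536870912) (P2 := 0) (W2 := 536870912) (P3 := 1040187392) (W3 := 5207648) (N0 := 3) (En := eng) (mo := mog) (C1 := cd3q0) (C2 := cd1q2a) (C3 := pd1)
    rfl k0_mm_012_a

noncomputable def f_mm_012_b : ℕ → ℕ → ℕ → ℕ → Bool := onCell 0 536870912 1239849684 370763052 1040187392 5207648
    (rowB 3 eng mog cd3q0 cd1q2b pd1 0 false false false .pnp 0 1 2 (qsf 0 536870912 1239849684 370763052 1) ndB3q0 ndB1q2b pcB1 Cut.none Ext.none)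

def k0_mm_012_b : ∃ t, chk3 f_mm_012_b t 1 1 1 = true :=
  ⟨(l 5), by decide +kernel⟩

theorem c_mm_012_b : CertB 0 536870912 1239849684 370763052 1040187392 5207648 3 eng mog cd3q0 cd1q2b pd1 false false false .pnp 0 1 2
    ndB3q0 ndB1q2b pcB1 Cut.none Ext.none :=
  certB0 (fam := false) (s1 := false) (s2 := false) (a := 0) (b := 1) (c := 2) (cn := .pnp) (n1 := ndB3q0) (n2 := ndB1q2b) (pc := pcB1) (cut := Cut.none) (xt := Ext.none) (P1 := 0) (W1 := 536870912) (P2 := 1239849684) (W2 := 370763052) (P3 := 1040187392) (W3 := 5207648) (N0 := 3) (En := eng) (mo := mog) (C1 := cd3q0) (C2 := cd1q2b) (C3 := pd1)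
    rfl k0_mm_012_b

noncomputable def f_mm_022_a : ℕ → ℕ → ℕ → ℕ → Bool := onCell 0 536870912 0 536870912 1040187392 5207648
    (rowB 3 eng mog cd3q0 cd1q2a pd2 0 false false false .pp 0 2 2 (qsf 0 536870912 0 536870912 2) ndB3q0 ndB1q2a pcB2 Cut.none Ext.none)

def k0_mm_022_a : ∃ t, chk3 f_mm_022_a t 1 1 1 = true :=
  ⟨(l 5), by decide +kernel⟩

theorem c_mm_022_a : CertB 0 536870912 0 536870912 1040187392 5207648 3 eng mog cd3q0 cd1q2a pd2 false false false .pp 0 2 2
    ndB3q0 ndB1q2a pcB2 Cut.none Ext.none :=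
  certB0 (fam := false) (s1 := false) (s2 := false) (a := 0) (b := 2) (c := 2) (cn := .pp) (n1 := ndB3q0) (n2 := ndB1q2a) (pc := pcB2) (cut := Cut.none) (xt := Ext.none) (P1 := 0) (W1 := 536870912) (P2 := 0) (W2 := 536870912) (P3 := 1040187392) (W3 := 5207648) (N0 := 3) (En := eng) (mo := mog) (C1 := cd3q0) (C2 := cd1q2a) (C3 := pd2)
    rfl k0_mm_022_a

noncomputable def f_mm_022_b : ℕ → ℕ → ℕ → ℕ → Bool := onCell 0 536870912 1239849684 370763052 1040187392 5207648
    (rowB 3 eng mog cd3q0 cd1q2b pd2 0 false false false .pp 0 2 2 (qsf 0 536870912 1239849684 370763052 2) ndB3q0 ndB1q2b pcB2 Cut.none Ext.none)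

def k0_mm_022_b : ∃ t, chk3 f_mm_022_b t 1 1 1 = true :=
  ⟨(l 5), by decide +kernel⟩

theorem c_mm_022_b : CertB 0 536870912 1239849684 370763052 1040187392 5207648 3 eng mog cd3q0 cd1q2b pd2 false false false .pp 0 2 2
    ndB3q0 ndB1q2b pcB2 Cut.none Ext.none :=
  certB0 (fam := false) (s1 := false) (s2 := false) (a := 0) (b := 2) (c := 2) (cn := .pp) (n1 := ndB3q0) (n2 := ndB1q2b) (pc := pcB2) (cut := Cut.none) (xt := Ext.none) (P1 := 0) (W1 := 536870912) (P2 := 1239849684) (W2 := 370763052) (P3 := 1040187392) (W3 := 5207648) (N0 := 3) (En := eng) (mo := mog) (C1 := cd3q0) (C2 := cd1q2b) (C3 := pd2)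
    rfl k0_mm_022_b

noncomputable def f_mm_023 : ℕ → ℕ → ℕ → ℕ → Bool := onCell 0 536870912 1610612736 536870912 1040187392 5207648
    (rowB 3 eng mog cd3q0 cd1q3 pd2 0 false false false .up 0 2 3 (qsf 0 536870912 1610612736 536870912 2) ndB3q0 ndB1q3 pcB2 Cut.none Ext.none)

def k0_mm_023 : ∃ t, chk3 f_mm_023 t 1 1 1 = true :=
  ⟨(l 5), by decide +kernel⟩

theorem c_mm_023 : CertB 0 536870912 1610612736 536870912 1040187392 5207648 3 eng mog cd3q0 cd1q3 pd2 false false false .up 0 2 3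
    ndB3q0 ndB1q3 pcB2 Cut.none Ext.none :=
  certB0 (fam := false) (s1 := false) (s2 := false) (a := 0) (b := 2) (c := 3) (cn := .up) (n1 := ndB3q0) (n2 := ndB1q3) (pc := pcB2) (cut := Cut.none) (xt := Ext.none) (P1 := 0) (W1 := 536870912) (P2 := 1610612736) (W2 := 536870912) (P3 := 1040187392) (W3 := 5207648) (N0 := 3) (En := eng) (mo := mog) (C1 := cd3q0) (C2 := cd1q3) (C3 := pd2)
    rfl k0_mm_023

noncomputable def f_mm_033 : ℕ → ℕ → ℕ → ℕ → Bool := onCell 0 536870912 1610612736 536870912 1040187392 5207648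
    (rowB 3 eng mog cd3q0 cd1q3 pd3 0 false false false .pnn 0 3 3 (qsf 0 536870912 1610612736 536870912 3) ndB3q0 ndB1q3 pcB3 Cut.none Ext.none)

def k0_mm_033 : ∃ t, chk3 f_mm_033 t 1 1 1 = true :=
  ⟨(l 5), by decide +kernel⟩

theorem c_mm_033 : CertB 0 536870912 1610612736 536870912 1040187392 5207648 3 eng mog cd3q0 cd1q3 pd3 false false false .pnn 0 3 3
    ndB3q0 ndB1q3 pcB3 Cut.none Ext.none :=
  certB0 (fam := false) (s1 := false) (s2 := false) (a := 0) (b := 3) (c := 3) (cn := .pnn) (n1 := ndB3q0) (n2 := ndB1q3) (pc := pcB3) (cut := Cut.none) (xt := Ext.none) (P1 := 0) (W1 := 536870912) (P2 := 1610612736) (W2 := 536870912) (P3 := 1040187392) (W3 := 5207648) (N0 := 3) (En := eng) (mo := mog) (C1 := cd3q0) (C2 := cd1q3) (C3 := pd3)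
    rfl k0_mm_033

noncomputable def f_mm_101 : ℕ → ℕ → ℕ → ℕ → Bool := onCell 536870912 536870912 536870912 536870912 1040187392 5207648
    (rowB 3 eng mog cd3q1 cd1q1 pd0 0 false false false .npn 1 0 1 (qsf 536870912 536870912 536870912 536870912 0) ndB3q1 ndB1q1 pcB0 Cut.none Ext.none)

def k0_mm_101 : ∃ t, chk3 f_mm_101 t 1 1 1 = true :=
  ⟨(l 3), by decide +kernel⟩

theorem c_mm_101 : CertB 536870912 536870912 536870912 536870912 1040187392 5207648 3 eng mog cd3q1 cd1q1 pd0 false false false .npn 1 0 1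
    ndB3q1 ndB1q1 pcB0 Cut.none Ext.none :=
  certB0 (fam := false) (s1 := false) (s2 := false) (a := 1) (b := 0) (c := 1) (cn := .npn) (n1 := ndB3q1) (n2 := ndB1q1) (pc := pcB0) (cut := Cut.none) (xt := Ext.none) (P1 := 536870912) (W1 := 536870912) (P2 := 536870912) (W2 := 536870912) (P3 := 1040187392) (W3 := 5207648) (N0 := 3) (En := eng) (mo := mog) (C1 := cd3q1) (C2 := cd1q1) (C3 := pd0)
    rfl k0_mm_101

noncomputable def f_mm_102_a : ℕ → ℕ → ℕ → ℕ → Bool := onCell 536870912 536870912 0 536870912 1040187392 5207648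
    (rowB 3 eng mog cd3q1 cd1q2a pd0 0 false false false .npp 1 0 2 (qsf 536870912 536870912 0 536870912 0) ndB3q1 ndB1q2a pcB0 Cut.none Ext.none)

def k0_mm_102_a : ∃ t, chk3 f_mm_102_a t 1 1 1 = true :=
  ⟨(l 5), by decide +kernel⟩

theorem c_mm_102_a : CertB 536870912 536870912 0 536870912 1040187392 5207648 3 eng mog cd3q1 cd1q2a pd0 false false false .npp 1 0 2
    ndB3q1 ndB1q2a pcB0 Cut.none Ext.none :=
  certB0 (fam := false) (s1 := false) (s2 := false) (a := 1) (b := 0) (c := 2) (cn := .npp) (n1 := ndB3q1) (n2 := ndB1q2a) (pc := pcB0) (cut := Cut.none) (xt := Ext.none) (P1 := 536870912) (W1 := 536870912) (P2 := 0) (W2 := 536870912) (P3 := 1040187392) (W3 := 5207648) (N0 := 3) (En := eng) (mo := mog) (C1 := cd3q1) (C2 := cd1q2a) (C3 := pd0)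
    rfl k0_mm_102_a

noncomputable def f_mm_102_b : ℕ → ℕ → ℕ → ℕ → Bool := onCell 536870912 536870912 1239849684 370763052 1040187392 5207648
    (rowB 3 eng mog cd3q1 cd1q2b pd0 0 false false false .npp 1 0 2 (qsf 536870912 536870912 1239849684 370763052 0) ndB3q1 ndB1q2b pcB0 Cut.none Ext.none)

def k0_mm_102_b : ∃ t, chk3 f_mm_102_b t 1 1 1 = true :=
  ⟨(l 5), by decide +kernel⟩

theorem c_mm_102_b : CertB 536870912 536870912 1239849684 370763052 1040187392 5207648 3 eng mog cd3q1 cd1q2b pd0 false false false .npp 1 0 2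
    ndB3q1 ndB1q2b pcB0 Cut.none Ext.none :=
  certB0 (fam := false) (s1 := false) (s2 := false) (a := 1) (b := 0) (c := 2) (cn := .npp) (n1 := ndB3q1) (n2 := ndB1q2b) (pc := pcB0) (cut := Cut.none) (xt := Ext.none) (P1 := 536870912) (W1 := 536870912) (P2 := 1239849684) (W2 := 370763052) (P3 := 1040187392) (W3 := 5207648) (N0 := 3) (En := eng) (mo := mog) (C1 := cd3q1) (C2 := cd1q2b) (C3 := pd0)
    rfl k0_mm_102_b

noncomputable def f_mm_112_a : ℕ → ℕ → ℕ → ℕ → Bool := onCell 536870912 536870912 0 536870912 1040187392 5207648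
    (rowB 3 eng mog cd3q1 cd1q2a pd1 0 false false false .dn 1 1 2 (qsf 536870912 536870912 0 536870912 1) ndB3q1 ndB1q2a pcB1 Cut.none Ext.none)

def k0_mm_112_a : ∃ t, chk3 f_mm_112_a t 1 1 1 = true :=
  ⟨(l 5), by decide +kernel⟩

theorem c_mm_112_a : CertB 536870912 536870912 0 536870912 1040187392 5207648 3 eng mog cd3q1 cd1q2a pd1 false false false .dn 1 1 2
    ndB3q1 ndB1q2a pcB1 Cut.none Ext.none :=
  certB0 (fam := false) (s1 := false) (s2 := false) (a := 1) (b := 1) (c := 2) (cn := .dn) (n1 := ndB3q1) (n2 := ndB1q2a) (pc := pcB1) (cut := Cut.none) (xt := Ext.none) (P1 := 536870912) (W1 := 536870912) (P2 := 0) (W2 := 536870912) (P3 := 1040187392) (W3 := 5207648) (N0 := 3) (En := eng) (mo := mog) (C1 := cd3q1) (C2 := cd1q2a) (C3 := pd1)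
    rfl k0_mm_112_a

noncomputable def f_mm_112_b : ℕ → ℕ → ℕ → ℕ → Bool := onCell 536870912 536870912 1239849684 370763052 1040187392 5207648
    (rowB 3 eng mog cd3q1 cd1q2b pd1 0 false false false .dn 1 1 2 (qsf 536870912 536870912 1239849684 370763052 1) ndB3q1 ndB1q2b pcB1 Cut.none Ext.none)

def k0_mm_112_b : ∃ t, chk3 f_mm_112_b t 1 1 1 = true :=
  ⟨(l 5), by decide +kernel⟩

theorem c_mm_112_b : CertB 536870912 536870912 1239849684 370763052 1040187392 5207648 3 eng mog cd3q1 cd1q2b pd1 false false false .dn 1 1 2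
    ndB3q1 ndB1q2b pcB1 Cut.none Ext.none :=
  certB0 (fam := false) (s1 := false) (s2 := false) (a := 1) (b := 1) (c := 2) (cn := .dn) (n1 := ndB3q1) (n2 := ndB1q2b) (pc := pcB1) (cut := Cut.none) (xt := Ext.none) (P1 := 536870912) (W1 := 536870912) (P2 := 1239849684) (W2 := 370763052) (P3 := 1040187392) (W3 := 5207648) (N0 := 3) (En := eng) (mo := mog) (C1 := cd3q1) (C2 := cd1q2b) (C3 := pd1)
    rfl k0_mm_112_b

noncomputable def f_mm_113 : ℕ → ℕ → ℕ → ℕ → Bool := onCell 536870912 536870912 1610612736 536870912 1040187392 5207648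
    (rowB 3 eng mog cd3q1 cd1q3 pd1 0 false false false .nn 1 1 3 (qsf 536870912 536870912 1610612736 536870912 1) ndB3q1 ndB1q3 pcB1 Cut.none Ext.none)

def k0_mm_113 : ∃ t, chk3 f_mm_113 t 1 1 1 = true :=
  ⟨(l 5), by decide +kernel⟩

theorem c_mm_113 : CertB 536870912 536870912 1610612736 536870912 1040187392 5207648 3 eng mog cd3q1 cd1q3 pd1 false false false .nn 1 1 3
    ndB3q1 ndB1q3 pcB1 Cut.none Ext.none :=
  certB0 (fam := false) (s1 := false) (s2 := false) (a := 1) (b := 1) (c := 3) (cn := .nn) (n1 := ndB3q1) (n2 := ndB1q3) (pc := pcB1) (cut := Cut.none) (xt := Ext.none) (P1 := 536870912) (W1 := 536870912) (P2 := 1610612736) (W2 := 536870912) (P3 := 1040187392) (W3 := 5207648) (N0 := 3) (En := eng) (mo := mog) (C1 := cd3q1) (C2 := cd1q3) (C3 := pd1)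
    rfl k0_mm_113

noncomputable def f_mm_123 : ℕ → ℕ → ℕ → ℕ → Bool := onCell 536870912 536870912 1610612736 536870912 1040187392 5207648
    (rowB 3 eng mog cd3q1 cd1q3 pd2 0 false false false .npn 1 2 3 (qsf 536870912 536870912 1610612736 536870912 2) ndB3q1 ndB1q3 pcB2 Cut.none Ext.none)

def k0_mm_123 : ∃ t, chk3 f_mm_123 t 1 1 1 = true :=
  ⟨(l 5), by decide +kernel⟩

theorem c_mm_123 : CertB 536870912 536870912 1610612736 536870912 1040187392 5207648 3 eng mog cd3q1 cd1q3 pd2 false false false .npn 1 2 3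
    ndB3q1 ndB1q3 pcB2 Cut.none Ext.none :=
  certB0 (fam := false) (s1 := false) (s2 := false) (a := 1) (b := 2) (c := 3) (cn := .npn) (n1 := ndB3q1) (n2 := ndB1q3) (pc := pcB2) (cut := Cut.none) (xt := Ext.none) (P1 := 536870912) (W1 := 536870912) (P2 := 1610612736) (W2 := 536870912) (P3 := 1040187392) (W3 := 5207648) (N0 := 3) (En := eng) (mo := mog) (C1 := cd3q1) (C2 := cd1q3) (C3 := pd2)
    rfl k0_mm_123

noncomputable def f_mm_133 : ℕ → ℕ → ℕ → ℕ → Bool := onCell 536870912 536870912 1610612736 536870912 1040187392 5207648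
    (rowB 3 eng mog cd3q1 cd1q3 pd3 0 false false false .dn 1 3 3 (qsf 536870912 536870912 1610612736 536870912 3) ndB3q1 ndB1q3 pcB3 Cut.none Ext.none)

def k0_mm_133 : ∃ t, chk3 f_mm_133 t 1 1 1 = true :=
  ⟨(l 5), by decide +kernel⟩

theorem c_mm_133 : CertB 536870912 536870912 1610612736 536870912 1040187392 5207648 3 eng mog cd3q1 cd1q3 pd3 false false false .dn 1 3 3
    ndB3q1 ndB1q3 pcB3 Cut.none Ext.none :=
  certB0 (fam := false) (s1 := false) (s2 := false) (a := 1) (b := 3) (c := 3) (cn := .dn) (n1 := ndB3q1) (n2 := ndB1q3) (pc := pcB3) (cut := Cut.none) (xt := Ext.none) (P1 := 536870912) (W1 := 536870912) (P2 := 1610612736) (W2 := 536870912) (P3 := 1040187392) (W3 := 5207648) (N0 := 3) (En := eng) (mo := mog) (C1 := cd3q1) (C2 := cd1q3) (C3 := pd3)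
    rfl k0_mm_133

noncomputable def f_mm_202_a : ℕ → ℕ → ℕ → ℕ → Bool := onCell 1073741824 536870912 0 536870912 1040187392 5207648
    (rowB 3 eng mog cd3q2 cd1q2a pd0 0 false false false .pp 2 0 2 (qsf 1073741824 536870912 0 536870912 0) ndB3q2 ndB1q2a pcB0 Cut.none Ext.none)

def k0_mm_202_a : ∃ t, chk3 f_mm_202_a t 1 1 1 = true :=
  ⟨(l 3), by decide +kernel⟩

theorem c_mm_202_a : CertB 1073741824 536870912 0 536870912 1040187392 5207648 3 eng mog cd3q2 cd1q2a pd0 false false false .pp 2 0 2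
    ndB3q2 ndB1q2a pcB0 Cut.none Ext.none :=
  certB0 (fam := false) (s1 := false) (s2 := false) (a := 2) (b := 0) (c := 2) (cn := .pp) (n1 := ndB3q2) (n2 := ndB1q2a) (pc := pcB0) (cut := Cut.none) (xt := Ext.none) (P1 := 1073741824) (W1 := 536870912) (P2 := 0) (W2 := 536870912) (P3 := 1040187392) (W3 := 5207648) (N0 := 3) (En := eng) (mo := mog) (C1 := cd3q2) (C2 := cd1q2a) (C3 := pd0)
    rfl k0_mm_202_a

noncomputable def f_mm_202_b : ℕ → ℕ → ℕ → ℕ → Bool := onCell 1073741824 536870912 1239849684 370763052 1040187392 5207648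
    (rowB 3 eng mog cd3q2 cd1q2b pd0 0 false false false .pp 2 0 2 (qsf 1073741824 536870912 1239849684 370763052 0) ndB3q2 ndB1q2b pcB0 Cut.none Ext.none)

def k0_mm_202_b : ∃ t, chk3 f_mm_202_b t 1 1 1 = true :=
  ⟨(l 3), by decide +kernel⟩

theorem c_mm_202_b : CertB 1073741824 536870912 1239849684 370763052 1040187392 5207648 3 eng mog cd3q2 cd1q2b pd0 false false false .pp 2 0 2
    ndB3q2 ndB1q2b pcB0 Cut.none Ext.none :=
  certB0 (fam := false) (s1 := false) (s2 := false) (a := 2) (b := 0) (c := 2) (cn := .pp) (n1 := ndB3q2) (n2 := ndB1q2b) (pc := pcB0) (cut := Cut.none) (xt := Ext.none) (P1 := 1073741824) (W1 := 536870912) (P2 := 1239849684) (W2 := 370763052) (P3 := 1040187392) (W3 := 5207648) (N0 := 3) (En := eng) (mo := mog) (C1 := cd3q2) (C2 := cd1q2b) (C3 := pd0)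
    rfl k0_mm_202_b

noncomputable def f_mm_203 : ℕ → ℕ → ℕ → ℕ → Bool := onCell 1073741824 536870912 1610612736 536870912 1040187392 5207648
    (rowB 3 eng mog cd3q2 cd1q3 pd0 0 false false false .up 2 0 3 (qsf 1073741824 536870912 1610612736 536870912 0) ndB3q2 ndB1q3 pcB0 Cut.none Ext.none)

def k0_mm_203 : ∃ t, chk3 f_mm_203 t 1 1 1 = true :=
  ⟨(l 5), by decide +kernel⟩

theorem c_mm_203 : CertB 1073741824 536870912 1610612736 536870912 1040187392 5207648 3 eng mog cd3q2 cd1q3 pd0 false false false .up 2 0 3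
    ndB3q2 ndB1q3 pcB0 Cut.none Ext.none :=
  certB0 (fam := false) (s1 := false) (s2 := false) (a := 2) (b := 0) (c := 3) (cn := .up) (n1 := ndB3q2) (n2 := ndB1q3) (pc := pcB0) (cut := Cut.none) (xt := Ext.none) (P1 := 1073741824) (W1 := 536870912) (P2 := 1610612736) (W2 := 536870912) (P3 := 1040187392) (W3 := 5207648) (N0 := 3) (En := eng) (mo := mog) (C1 := cd3q2) (C2 := cd1q3) (C3 := pd0)
    rfl k0_mm_203

noncomputable def f_mm_213 : ℕ → ℕ → ℕ → ℕ → Bool := onCell 1073741824 536870912 1610612736 536870912 1040187392 5207648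
    (rowB 3 eng mog cd3q2 cd1q3 pd1 0 false false false .pnn 2 1 3 (qsf 1073741824 536870912 1610612736 536870912 1) ndB3q2 ndB1q3 pcB1 Cut.none Ext.none)

def k0_mm_213 : ∃ t, chk3 f_mm_213 t 1 1 1 = true :=
  ⟨(l 5), by decide +kernel⟩

theorem c_mm_213 : CertB 1073741824 536870912 1610612736 536870912 1040187392 5207648 3 eng mog cd3q2 cd1q3 pd1 false false false .pnn 2 1 3
    ndB3q2 ndB1q3 pcB1 Cut.none Ext.none :=
  certB0 (fam := false) (s1 := false) (s2 := false) (a := 2) (b := 1) (c := 3) (cn := .pnn) (n1 := ndB3q2) (n2 := ndB1q3) (pc := pcB1) (cut := Cut.none) (xt := Ext.none) (P1 := 1073741824) (W1 := 536870912) (P2 := 1610612736) (W2 := 536870912) (P3 := 1040187392) (W3 := 5207648) (N0 := 3) (En := eng) (mo := mog) (C1 := cd3q2) (C2 := cd1q3) (C3 := pd1)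
    rfl k0_mm_213

noncomputable def f_mm_303 : ℕ → ℕ → ℕ → ℕ → Bool := onCell 0 1230186008 1610612736 536870912 1040187392 5207648
    (rowB 3 eng mog cd3q3 cd1q3 pd0 0 false false false .npn 3 0 3 (qsf 0 1230186008 1610612736 536870912 0) ndB3q3 ndB1q3 pcB0 Cut.none Ext.none)

def k0_mm_303 : ∃ t, chk3 f_mm_303 t 1 1 1 = true :=
  ⟨(a (l 3) (l 3)), by decide +kernel⟩

theorem c_mm_303 : CertB 0 1230186008 1610612736 536870912 1040187392 5207648 3 eng mog cd3q3 cd1q3 pd0 false false false .npn 3 0 3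
    ndB3q3 ndB1q3 pcB0 Cut.none Ext.none :=
  certB0 (fam := false) (s1 := false) (s2 := false) (a := 3) (b := 0) (c := 3) (cn := .npn) (n1 := ndB3q3) (n2 := ndB1q3) (pc := pcB0) (cut := Cut.none) (xt := Ext.none) (P1 := 0) (W1 := 1230186008) (P2 := 1610612736) (W2 := 536870912) (P3 := 1040187392) (W3 := 5207648) (N0 := 3) (En := eng) (mo := mog) (C1 := cd3q3) (C2 := cd1q3) (C3 := pd0)
    rfl k0_mm_303

noncomputable def f_mm_313 : ℕ → ℕ → ℕ → ℕ → Bool := onCell 0 1230186008 1610612736 536870912 1040187392 5207648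
    (rowB 3 eng mog cd3q3 cd1q3 pd1 0 false false false .dn 3 1 3 (qsf 0 1230186008 1610612736 536870912 1) ndB3q3 ndB1q3 pcB1 Cut.none Ext.none)

def k0_mm_313 : ∃ t, chk3 f_mm_313 t 1 1 1 = true :=
  ⟨(a (l 1) (l 3)), by decide +kernel⟩

theorem c_mm_313 : CertB 0 1230186008 1610612736 536870912 1040187392 5207648 3 eng mog cd3q3 cd1q3 pd1 false false false .dn 3 1 3
    ndB3q3 ndB1q3 pcB1 Cut.none Ext.none :=
  certB0 (fam := false) (s1 := false) (s2 := false) (a := 3) (b := 1) (c := 3) (cn := .dn) (n1 := ndB3q3) (n2 := ndB1q3) (pc := pcB1) (cut := Cut.none) (xt := Ext.none) (P1 := 0) (W1 := 1230186008) (P2 := 1610612736) (W2 := 536870912) (P3 := 1040187392) (W3 := 5207648) (N0 := 3) (En := eng) (mo := mog) (C1 := cd3q3) (C2 := cd1q3) (C3 := pd1)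
    rfl k0_mm_313

end Pool.Agent.Strip051.G.I9688_9736.Tab.C.BB31

namespace Pool.Agent.Strip051.G.I9688_9736.Tab.C.BB32

open Pool.Agent.Strip051.PB Pool.Agent.Strip051.PB.T
open Pool.Agent.Strip051.G.I9688_9736.Tab

noncomputable def f_pp_001 : ℕ → ℕ → ℕ → ℕ → Bool := onCell 0 536870912 536870912 536870912 1040187392 5207648
    (rowB 3 eng mog cd3q0 cd2q1 pd0 0 false true true .up 0 0 1 (qsf 0 536870912 536870912 536870912 0) ndB3q0 ndB2q1 pcB0 Cut.none Ext.none)

def k0_pp_001 : ∃ t, chk3 f_pp_001 t 1 1 1 = true :=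
  ⟨(l 3), by decide +kernel⟩

theorem c_pp_001 : CertB 0 536870912 536870912 536870912 1040187392 5207648 3 eng mog cd3q0 cd2q1 pd0 false true true .up 0 0 1
    ndB3q0 ndB2q1 pcB0 Cut.none Ext.none :=
  certB0 (fam := false) (s1 := true) (s2 := true) (a := 0) (b := 0) (c := 1) (cn := .up) (n1 := ndB3q0) (n2 := ndB2q1) (pc := pcB0) (cut := Cut.none) (xt := Ext.none) (P1 := 0) (W1 := 536870912) (P2 := 536870912) (W2 := 536870912) (P3 := 1040187392) (W3 := 5207648) (N0 := 3) (En := eng) (mo := mog) (C1 := cd3q0) (C2 := cd2q1) (C3 := pd0)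
    rfl k0_pp_001

noncomputable def f_pp_011 : ℕ → ℕ → ℕ → ℕ → Bool := onCell 0 536870912 536870912 536870912 1040187392 5207648
    (rowB 3 eng mog cd3q0 cd2q1 pd1 0 false true true .pnn 0 1 1 (qsf 0 536870912 536870912 536870912 1) ndB3q0 ndB2q1 pcB1 Cut.none Ext.none)

def k0_pp_011 : ∃ t, chk3 f_pp_011 t 1 1 1 = true :=
  ⟨(l 3), by decide +kernel⟩

theorem c_pp_011 : CertB 0 536870912 536870912 536870912 1040187392 5207648 3 eng mog cd3q0 cd2q1 pd1 false true true .pnn 0 1 1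
    ndB3q0 ndB2q1 pcB1 Cut.none Ext.none :=
  certB0 (fam := false) (s1 := true) (s2 := true) (a := 0) (b := 1) (c := 1) (cn := .pnn) (n1 := ndB3q0) (n2 := ndB2q1) (pc := pcB1) (cut := Cut.none) (xt := Ext.none) (P1 := 0) (W1 := 536870912) (P2 := 536870912) (W2 := 536870912) (P3 := 1040187392) (W3 := 5207648) (N0 := 3) (En := eng) (mo := mog) (C1 := cd3q0) (C2 := cd2q1) (C3 := pd1)
    rfl k0_pp_011

noncomputable def xt_pp_012_a : Ext := extD3 3 ⟨4, 1, 1, 5, 33, 5, 163, 200, 81, 200, 1, 64⟩ eng cd3q0 cd2q2a pd1 false true true .pnp 0 1 2 rfl ndB3q0 ndB2q2a pcB1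

noncomputable def f_pp_012_a : ℕ → ℕ → ℕ → ℕ → Bool := onCell 0 536870912 0 536870912 1040187392 5207648
    (rowB 3 eng mog cd3q0 cd2q2a pd1 0 false true true .pnp 0 1 2 (qsf 0 536870912 0 536870912 1) ndB3q0 ndB2q2a pcB1 Cut.none xt_pp_012_a)

def k0_pp_012_a : ∃ t, chk3 f_pp_012_a t 2 2 1 = true :=
  ⟨(a (b (l 2) (a (l 2) (a (l 2) (b (l 2) (l 14946384))))) (a (b (a (l 14739456) (l 14399960)) (a (b (l 14652184) (l 14633048)) (b (l 14341544) (l 14347920)))) (b (a (l 14088304) (l 13804800)) (a (b (l 14059008) (l 14091600)) (l 13837488))))), by decide +kernel⟩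

def k1_pp_012_a : ∃ t, chk3 f_pp_012_a t 4 3 1 = true :=
  ⟨(b (a (l 2) (b (a (l 2) (b (l 14956168) (l 15041880))) (b (a (l 15297368) (a (l 15221808) (l 15077208))) (a (a (l 15638104) (l 15488192)) (a (l 15340112) (l 15190584)))))) (a (b (a (l 2) (b (a (l 2) (l 15922048)) (a (a (a (l 2) (l 16239360)) (l 16180688)) (b (l 16027976) (l 16104872))))) (a (a (b (l 2) (b (a (l 2) (b (a (l 2) (l 16459784)) (a (l 16531544) (l 16502784)))) (b (a (b (l 16601200) (l 16602048)) (b (l 16508200) (l 16572880))) (a (b (l 16603392) (a (l 16680056) (l 16655128))) (l 142824807704051839))))) (b (a (b (l 2) (a (l 2) (l 16384312))) (b (a (l 2) (l 16336448)) (a (l 16400456) (l 16418152)))) (a (b (a (a (l 16458704) (l 16456256)) (l 16470152)) (a (b (l 142064289134542975) (l 141975709812015231)) (b (l 16530400) (l 16577152)))) (b (a (l 16487640) (l 16506400)) (a (l 142225436400271423) (l 142444033089208383)))))) (a (b (a (b (a (l 16356320) (l 16354048)) (a (l 16439528) (l 16438376)))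 (b (l 16297936) (l 16382504))) (a (b (a (l 16506360) (l 16493296)) (b (l 141937364178878527) (l 140467797953691711))) (b (l 16394776) (b (l 16269064) (l 16119800))))) (b (b (l 16184824) (a (l 16305688) (l 16219688))) (b (a (l 16299720) (l 16183960)) (a (l 16031640) (l 15929112))))))) (b (a (b (a (l 15769752) (l 15618520)) (a (b (l 15878320) (l 15951768)) (b (l 15721104) (l 15784600)))) (b (a (l 15464840) (l 15301584)) (a (l 15581512) (l 15414856)))) (a (b (a (b (l 16021528) (a (l 16129232) (l 16034600))) (b (l 15843336) (l 15900112))) (a (b (l 16066592) (b (l 15911944) (l 15792360))) (b (l 15947320) (l 15842712)))) (b (a (l 15655600) (l 15532152)) (a (l 15724280) (l 15577544))))))), by decide +kernel⟩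

def k2_pp_012_a : ∃ t, chk3 f_pp_012_a t 5 3 1 = true :=
  ⟨(b (a (b (a (b (l 14670632) (l 14760792)) (l 14447664)) (a (b (l 14862552) (l 14960656)) (b (l 14577192) (l 14675200)))) (b (a (l 14199552) (l 13974528)) (a (l 14365384) (l 14122648)))) (a (b (a (b (a (l 15143672) (l 14993384)) (l 15177432)) (b (l 14772704) (l 14869816))) (a (b (l 15284088) (a (l 15470104) (l 15300720))) (b (l 14963680) (a (l 15133672) (l 14969848))))) (b (a (l 14537512) (l 14271648)) (a (b (l 14658496) (b (l 14713880) (l 14789944))) (b (l 14372504) (b (l 14417096) (l 14443864))))))), by decide +kernel⟩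

def k3_pp_012_a : ∃ t, chk3 f_pp_012_a t 3 1 1 = true :=
  ⟨(b (a (b (a (b (l 13430040) (l 13436688)) (b (l 13018544) (l 13062048))) (a (b (l 13478216) (a (l 13658136) (l 13483264))) (b (l 13142840) (a (l 13336400) (l 13215512))))) (a (b (b (l 12725640) (l 12806224)) (b (l 12924352) (l 13089952))) (a (b (l 12639960) (l 12932608)) (b (l 12593928) (l 12919928))))) (a (b (a (b (a (l 13774552) (l 13601336)) (a (l 13903336) (l 13709744))) (b (b (l 13376216) (l 13415192)) (b (l 13452744) (a (l 13563160) (l 13421368))))) (a (b (a (l 14028496) (l 13810848)) (a (b (l 14109288) (b (l 14143392) (l 14163112))) (b (l 13872096) (l 13903408)))) (b (a (b (l 13602120) (l 13636296)) (b (l 13448728) (l 13471136))) (b (a (a (l 13712952) (l 13616464)) (l 13486992)) (b (a (l 13678640) (l 13493400)) (a (l 13685760) (l 13495176))))))) (b (a (b (a (b (l 13244216) (l 13269344)) (b (l 13194320) (l 13212392))) (a (b (l 13291192) (l 13311000)) (l 13272408))) (b (a (b (l 13175032)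 (l 13188520)) (b (l 13186032) (l 13198544))) (a (l 13192104) (l 13188736)))) (a (b (b (a (l 13327312) (l 13239592)) (a (l 13338728) (l 13240976))) (b (a (l 13343992) (l 13236888)) (a (a (l 13376776) (l 13309568)) (b (l 13229528) (a (l 13248488) (l 13199720)))))) (b (a (b (l 13187064) (l 13179568)) (b (l 13171056) (l 13155984))) (a (b (b (l 13170600) (l 13163408)) (b (l 13155096) (a (l 13161056) (l 13132728)))) (b (b (l 13142064) (l 13132072)) (b (l 13121440) (a (l 13114968) (l 13107976)))))))))), by decide +kernel⟩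

theorem s4_pp_012_a : ∃ t, chk3 f_pp_012_a t 2 3 1 = true := ex3_a k1_pp_012_a k2_pp_012_a

theorem s5_pp_012_a : ∃ t, chk3 f_pp_012_a t 2 1 1 = true := ex3_b k0_pp_012_a s4_pp_012_a

theorem s6_pp_012_a : ∃ t, chk3 f_pp_012_a t 1 1 1 = true := ex3_a s5_pp_012_a k3_pp_012_a

theorem c_pp_012_a : CertB 0 536870912 0 536870912 1040187392 5207648 3 eng mog cd3q0 cd2q2a pd1 false true true .pnp 0 1 2
    ndB3q0 ndB2q2a pcB1 Cut.none xt_pp_012_a :=
  certB0 (fam := false) (s1 := true) (s2 := true) (a := 0) (b := 1) (c := 2) (cn := .pnp) (n1 := ndB3q0) (n2 := ndB2q2a) (pc := pcB1) (cut := Cut.none) (xt := xt_pp_012_a) (P1 := 0) (W1 := 536870912) (P2 := 0) (W2 := 536870912) (P3 := 1040187392) (W3 := 5207648) (N0 := 3) (En := eng) (mo := mog) (C1 := cd3q0) (C2 := cd2q2a) (C3 := pd1)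
    rfl s6_pp_012_a

noncomputable def f_pp_012_b : ℕ → ℕ → ℕ → ℕ → Bool := onCell 0 536870912 536870912 536870912 1040187392 5207648
    (rowB 3 eng mog cd3q0 cd2q2b pd1 1 false true true .pnp 0 1 2 (qsf 0 536870912 1239849684 370763052 1) ndB3q0 ndB2q2b pcB1 Cut.none Ext.none)

def k0_pp_012_b : ∃ t, chk3 f_pp_012_b t 1 1 1 = true :=
  ⟨(a (b (l 1) (a (l 1) (b (l 1) (b (a (l 1) (a (l 14416136) (l 13895008))) (a (a (l 436505448871) (l 14505720)) (a (l 14080152) (l 13678304))))))) (b (a (l 1) (b (l 1) (a (b (l 1) (a (l 13061928) (l 12711544))) (b (a (l 12784248) (l 12546416)) (l 326442601719))))) (b (a (a (b (l 1) (a (l 13799936) (l 13389736))) (b (a (l 169141561623) (l 12994000)) (a (l 13014728) (l 12677392)))) (a (b (a (l 12668128) (l 12384728)) (l 12247440)) (b (l 12043288) (l 11822824)))) (a (b (a (a (l 13485896) (l 13108264)) (l 12838640)) (a (b (l 13153712) (l 13112408)) (l 12512664))) (b (a (l 12074184) (l 11708016)) (a (l 12047264) (l 11765912))))))),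 by decide +kernel⟩

theorem c_pp_012_b : CertB 0 536870912 1239849684 370763052 1040187392 5207648 3 eng mog cd3q0 cd2q2b pd1 false true true .pnp 0 1 2
    ndB3q0 ndB2q2b pcB1 Cut.none Ext.none :=
  certB1 (fam := false) (s1 := true) (s2 := true) (a := 0) (b := 1) (c := 2) (cn := .pnp) (n1 := ndB3q0) (n2 := ndB2q2b) (pc := pcB1) (cut := Cut.none) (xt := Ext.none) (P1 := 0) (W1 := 536870912) (P2 := 1239849684) (W2 := 370763052) (P3 := 1040187392) (W3 := 5207648) (N0 := 3) (En := eng) (mo := mog) (C1 := cd3q0) (C2 := cd2q2b) (C3 := pd1)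
    rfl (fun _ => rfl) k0_pp_012_b

noncomputable def f_pp_022_a : ℕ → ℕ → ℕ → ℕ → Bool := onCell 0 536870912 0 536870912 1040187392 5207648
    (rowB 3 eng mog cd3q0 cd2q2a pd2 0 false true true .pp 0 2 2 (qsf 0 536870912 0 536870912 2) ndB3q0 ndB2q2a pcB2 Cut.none Ext.none)

def k0_pp_022_a : ∃ t, chk3 f_pp_022_a t 1 1 1 = true :=
  ⟨(a (b (a (a (a (a (b (l 16000272) (l 16063888)) (b (a (l 15913568) (l 15908784)) (a (l 15906576) (l 16066920)))) (a (b (a (l 15904832) (l 15837744)) (a (l 15913304) (l 15986640))) (b (l 15715840) (l 15853744)))) (b (a (l 15470144) (l 15137600)) (a (b (l 15545304) (l 15618880)) (b (l 15189288) (l 15035624))))) (a (b (a (l 54789930311) (l 790839272279)) (a (b (l 14827736) (a (l 14961176) (l 1))) (l 1))) (l 1))) (b (a (a (a (a (b (l 16327296) (l 16358800)) (a (b (l 16227248) (l 16276304)) (b (l 16219672) (l 16332816)))) (a (a (b (l 16212472) (a (l 16335424) (l 16318256))) (b (l 16133824) (l 16244416))) (b (l 15991368) (l 16032104))))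 (a (b (a (l 15799400) (l 15605256)) (a (b (l 15868648) (l 15916336)) (b (l 15667304) (l 431675334759)))) (b (a (l 15409136) (l 440801127015)) (b (a (l 15464008) (l 1)) (l 1))))) (l 1)) (a (a (a (a (a (b (l 16570952) (b (l 16656016) (b (a (l 16711808) (l 16694048)) (a (b (l 16727608) (l 16734832)) (b (l 16711288) (b (l 16698696) (l 1))))))) (b (l 16452368) (b (l 16593528) (b (b (l 16624288) (l 16594400)) (a (l 517576833447) (l 1)))))) (a (b (a (l 16369920) (l 16447728)) (b (a (l 16509832) (l 16525936)) (b (b (a (l 16561160) (l 16556952)) (l 1)) (l 1)))) (b (b (l 16416888) (l 16472424)) (b (b (l 16512696) (a (l 16538768) (l 16540904))) (l 1))))) (b (a (a (b (l 16328232) (a (l 16477880) (l 16460816))) (b (l 16327336) (l 16382728))) (b (l 16172648) (b (l 16190408) (l 462278046375)))) (b (a (a (b (a (l 16519416) (l 16502560)) (l 1)) (l 1)) (l 1)) (l 1)))) (a (b (b (a (l 408590382807) (l 1)) (l 1)) (l 1)) (l 1))) (l 1)))) (l 1)), by decide +kernel⟩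

theorem c_pp_022_a : CertB 0 536870912 0 536870912 1040187392 5207648 3 eng mog cd3q0 cd2q2a pd2 false true true .pp 0 2 2
    ndB3q0 ndB2q2a pcB2 Cut.none Ext.none :=
  certB0 (fam := false) (s1 := true) (s2 := true) (a := 0) (b := 2) (c := 2) (cn := .pp) (n1 := ndB3q0) (n2 := ndB2q2a) (pc := pcB2) (cut := Cut.none) (xt := Ext.none) (P1 := 0) (W1 := 536870912) (P2 := 0) (W2 := 536870912) (P3 := 1040187392) (W3 := 5207648) (N0 := 3) (En := eng) (mo := mog) (C1 := cd3q0) (C2 := cd2q2a) (C3 := pd2)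
    rfl k0_pp_022_a

noncomputable def f_pp_022_b : ℕ → ℕ → ℕ → ℕ → Bool := onCell 0 536870912 1239849684 370763052 1040187392 5207648
    (rowB 3 eng mog cd3q0 cd2q2b pd2 0 false true true .pp 0 2 2 (qsf 0 536870912 1239849684 370763052 2) ndB3q0 ndB2q2b pcB2 Cut.none Ext.none)

def k0_pp_022_b : ∃ t, chk3 f_pp_022_b t 1 1 1 = true :=
  ⟨(a (b (a (a (b (a (a (b (l 15808336) (l 15542128)) (a (b (l 15724656) (l 15457512)) (l 15496328))) (a (a (b (l 15712960) (l 15432192)) (l 15508240)) (l 15206392))) (a (a (l 15050600) (a (l 15051168) (l 15029264))) (a (a (l 15008912) (l 14949872)) (l 14848424)))) (a (b (b (l 15302232) (l 15037064)) (l 14645760)) (b (b (l 14989560) (l 14737952)) (l 14373544)))) (b (a (a (b (l 14672696) (l 14434784)) (b (b (l 14412480) (l 14294728)) (l 14127536))) (b (a (l 550857122199) (l 1)) (a (l 13817960) (l 13511168)))) (a (b (l 13897440) (l 13858264)) (a (l 13533424) (l 13245560))))) (a (a (b (a (a (l 14582432) (a (l 14504032) (l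 14472888))) (a (a (l 14443688) (l 14391424)) (l 14305448))) (a (a (l 14035416) (a (l 13963968) (l 13925000))) (a (a (l 13888336) (l 13844120)) (l 13775496)))) (b (a (l 14134752) (l 13906704)) (a (l 13640552) (l 13461992)))) (b (a (b (l 13659696) (l 13468584)) (b (l 13156528) (l 13015840))) (a (l 13194032) (l 12822912))))) (a (b (b (l 1) (a (a (l 501999715159) (l 548706925799)) (b (l 1) (l 594340069975)))) (b (a (b (l 12635496) (l 12542656)) (b (l 12119416) (l 12057264))) (a (l 12431376) (l 12018680)))) (b (l 1) (b (a (b (l 1) (l 11612560)) (l 1)) (a (l 11598744) (l 11241288)))))), by decide +kernel⟩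

theorem c_pp_022_b : CertB 0 536870912 1239849684 370763052 1040187392 5207648 3 eng mog cd3q0 cd2q2b pd2 false true true .pp 0 2 2
    ndB3q0 ndB2q2b pcB2 Cut.none Ext.none :=
  certB0 (fam := false) (s1 := true) (s2 := true) (a := 0) (b := 2) (c := 2) (cn := .pp) (n1 := ndB3q0) (n2 := ndB2q2b) (pc := pcB2) (cut := Cut.none) (xt := Ext.none) (P1 := 0) (W1 := 536870912) (P2 := 1239849684) (W2 := 370763052) (P3 := 1040187392) (W3 := 5207648) (N0 := 3) (En := eng) (mo := mog) (C1 := cd3q0) (C2 := cd2q2b) (C3 := pd2)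
    rfl k0_pp_022_b

noncomputable def f_pp_023 : ℕ → ℕ → ℕ → ℕ → Bool := onCell 0 536870912 1610612736 536870912 1040187392 5207648
    (rowB 3 eng mog cd3q0 cd2q3 pd2 0 false true true .up 0 2 3 (qsf 0 536870912 1610612736 536870912 2) ndB3q0 ndB2q3 pcB2 Cut.none Ext.none)

def k0_pp_023 : ∃ t, chk3 f_pp_023 t 1 1 1 = true :=
  ⟨(a (b (a (b (a (b (a (a (l 13995064) (l 13906416)) (a (l 13821528) (l 13749336))) (a (l 2) (a (l 2) (b (l 13458976) (l 2))))) (b (l 13579592) (b (l 13319648) (a (l 13334672) (l 13307920))))) (a (l 2) (b (b (l 13860888) (l 2)) (l 2)))) (b (b (a (l 13309576) (l 13033624)) (a (b (l 13118992) (l 13290512)) (b (l 12922160) (l 13211912)))) (b (a (b (l 13873208) (l 14524136)) (l 13965984)) (a (b (l 15225832) (l 2)) (b (l 15113168) (l 15868200)))))) (a (l 2) (b (a (l 2) (b (b (l 16196336) (l 2)) (l 2))) (l 2)))) (b (b (a (b (a (l 12740728) (l 12425312)) (a (b (l 12705856) (l 13042840)) (l 12620408))) (b (a (l 12088088) (l 11742712))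 (a (l 12318016) (l 11982936)))) (a (b (a (l 13869504) (l 13549664)) (a (b (l 14867704) (l 15621608)) (l 14874768))) (b (a (l 13149440) (l 12687784)) (a (l 14400064) (l 13846216))))) (b (a (b (a (b (l 15728632) (l 15346496)) (b (l 15399840) (l 14896560))) (l 4)) (b (a (b (l 15184056) (l 14666040)) (l 14856512)) (b (a (l 14324536) (l 14202096)) (l 4)))) (l 4)))), by decide +kernel⟩

theorem c_pp_023 : CertB 0 536870912 1610612736 536870912 1040187392 5207648 3 eng mog cd3q0 cd2q3 pd2 false true true .up 0 2 3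
    ndB3q0 ndB2q3 pcB2 Cut.none Ext.none :=
  certB0 (fam := false) (s1 := true) (s2 := true) (a := 0) (b := 2) (c := 3) (cn := .up) (n1 := ndB3q0) (n2 := ndB2q3) (pc := pcB2) (cut := Cut.none) (xt := Ext.none) (P1 := 0) (W1 := 536870912) (P2 := 1610612736) (W2 := 536870912) (P3 := 1040187392) (W3 := 5207648) (N0 := 3) (En := eng) (mo := mog) (C1 := cd3q0) (C2 := cd2q3) (C3 := pd2)
    rfl k0_pp_023

noncomputable def f_pp_033 : ℕ → ℕ → ℕ → ℕ → Bool := onCell 0 536870912 1610612736 536870912 1040187392 5207648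
    (rowB 3 eng mog cd3q0 cd2q3 pd3 0 false true true .pnn 0 3 3 (qsf 0 536870912 1610612736 536870912 3) ndB3q0 ndB2q3 pcB3 Cut.none Ext.none)

def k0_pp_033 : ∃ t, chk3 f_pp_033 t 1 1 1 = true :=
  ⟨(a (b (a (b (a (a (a (b (l 14720576) (l 14831608)) (b (l 14895168) (l 15002904))) (a (b (l 15006544) (l 15108832)) (l 140690337255))) (b (l 15965768) (a (l 15776696) (l 16304480)))) (a (b (a (a (l 14889224) (l 15058696)) (a (l 15157456) (l 15414768))) (a (a (l 14924088) (l 15080880)) (a (l 15175104) (l 15428000)))) (b (l 16076824) (a (l 15820368) (l 16331760))))) (b (b (l 1) (a (l 16601768) (l 1))) (a (b (l 16533960) (l 16523272)) (b (l 15990728) (l 16054776))))) (b (b (a (a (l 4) (b (l 16055856) (l 4))) (a (b (l 16567736) (l 4)) (l 15977696))) (l 4)) (l 4))) (b (a (b (l 1) (b (l 1) (a (l 15333400) (l 1)))) (l 1)) (b (b (a (a (l 15334168) (l 14773112)) (l 1)) (a (l 4) (a (l 485896182199) (l 1)))) (l 4)))), by decide +kernel⟩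

theorem c_pp_033 : CertB 0 536870912 1610612736 536870912 1040187392 5207648 3 eng mog cd3q0 cd2q3 pd3 false true true .pnn 0 3 3
    ndB3q0 ndB2q3 pcB3 Cut.none Ext.none :=
  certB0 (fam := false) (s1 := true) (s2 := true) (a := 0) (b := 3) (c := 3) (cn := .pnn) (n1 := ndB3q0) (n2 := ndB2q3) (pc := pcB3) (cut := Cut.none) (xt := Ext.none) (P1 := 0) (W1 := 536870912) (P2 := 1610612736) (W2 := 536870912) (P3 := 1040187392) (W3 := 5207648) (N0 := 3) (En := eng) (mo := mog) (C1 := cd3q0) (C2 := cd2q3) (C3 := pd3)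
    rfl k0_pp_033

noncomputable def f_pp_101 : ℕ → ℕ → ℕ → ℕ → Bool := onCell 536870912 536870912 536870912 536870912 1040187392 5207648
    (rowB 3 eng mog cd3q1 cd2q1 pd0 0 false true true .npn 1 0 1 (qsf 536870912 536870912 536870912 536870912 0) ndB3q1 ndB2q1 pcB0 Cut.none Ext.none)

def k0_pp_101 : ∃ t, chk3 f_pp_101 t 1 1 1 = true :=
  ⟨(l 3), by decide +kernel⟩

theorem c_pp_101 : CertB 536870912 536870912 536870912 536870912 1040187392 5207648 3 eng mog cd3q1 cd2q1 pd0 false true true .npn 1 0 1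
    ndB3q1 ndB2q1 pcB0 Cut.none Ext.none :=
  certB0 (fam := false) (s1 := true) (s2 := true) (a := 1) (b := 0) (c := 1) (cn := .npn) (n1 := ndB3q1) (n2 := ndB2q1) (pc := pcB0) (cut := Cut.none) (xt := Ext.none) (P1 := 536870912) (W1 := 536870912) (P2 := 536870912) (W2 := 536870912) (P3 := 1040187392) (W3 := 5207648) (N0 := 3) (En := eng) (mo := mog) (C1 := cd3q1) (C2 := cd2q1) (C3 := pd0)
    rfl k0_pp_101

noncomputable def cut_pp_102_a : Cut := Cut.of [[⟨0, 1, 0, 26843545⟩, ⟨1, 0, 0, 26843545⟩, ⟨2, 1, 0, 26843545⟩]]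

noncomputable def xt_pp_102_a : Ext := extD3 3 ⟨4, 1, 1, 5, 33, 5, 163, 200, 81, 200, 1, 64⟩ eng cd3q1 cd2q2a pd0 false true true .npp 1 0 2 rfl ndB3q1 ndB2q2a pcB0

noncomputable def f_pp_102_a : ℕ → ℕ → ℕ → ℕ → Bool := onCell 0 536870912 0 536870912 1040187392 5207648
    (rowB 3 eng mog cd3q1 cd2q2a pd0 2 false true true .npp 1 0 2 (qsf 536870912 536870912 0 536870912 0) ndB3q1 ndB2q2a pcB0 cut_pp_102_a xt_pp_102_a)

def k0_pp_102_a : ∃ t, chk3 f_pp_102_a t 2 2 1 = true :=
  ⟨(a (b (l 2) (a (l 2) (a (l 2) (b (l 2) (a (l 2) (b (l 2) (l 15644488))))))) (a (a (b (a (l 2) (l 14793504)) (b (a (l 15260120) (l 15264848)) (a (b (l 15496136) (l 15605120)) (l 15508456)))) (b (b (l 14615456) (l 14937360)) (b (a (l 15264456) (l 15237896)) (l 15466344)))) (b (a (b (l 14626392) (b (l 14898696) (l 15046104))) (b (l 14690584) (l 14935960))) (a (b (l 15187456) (l 15393392)) (l 15237656))))), by decide +kernel⟩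

def k1_pp_102_a : ∃ t, chk3 f_pp_102_a t 4 3 1 = true :=
  ⟨(b (a (l 2) (a (b (l 2) (a (b (l 2) (l 16173632)) (b (l 16030256) (l 16129168)))) (b (a (b (l 15790808) (l 15887784)) (l 15790144)) (a (l 16037336) (l 15994648))))) (a (b (a (l 2) (b (a (l 2) (a (l 2) (l 16305792))) (a (a (b (l 2) (l 16493608)) (l 16444784)) (a (l 16418592) (l 16394592))))) (b (a (a (l 2) (a (b (l 2) (a (l 2) (l 16622280))) (b (a (l 2) (l 16554728)) (b (l 16589600) (l 16607600))))) (a (b (a (l 16532784) (l 16507096)) (a (l 141849953185398895) (l 16545584))) (b (l 140111006621499439) (a (l 16518552) (l 16494152))))) (a (a (l 6) (a (l 6) (b (b (l 16624976) (l 16639376)) (b (l 16653832) (b (l 16664280) (b (l 16669528) (l 142938607341568047))))))) (a (b (a (l 142199804102885423) (l 16574808)) (b (l 141942655833997359) (a (b (l 16633696) (l 142750796944916527)) (b (l 16605000) (l 16611800))))) (b (b (l 16528216) (l 16542632)) (b (a (l 16568776) (l 16546656)) (b (l 16536656) (a (l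 16586440) (l 16565744))))))))) (a (b (a (b (l 16268680) (b (l 16337760) (l 16386400))) (b (l 16223784) (l 16258592))) (b (a (b (l 16423736) (l 16461360)) (l 16406144)) (a (b (a (l 16504688) (l 16489368)) (a (b (l 16529888) (b (l 16542600) (l 16551128))) (b (l 16517528) (l 16536504)))) (b (l 16468896) (b (l 16500792) (a (l 16526992) (l 16517344))))))) (b (b (a (l 16182512) (l 16147056)) (a (l 16278264) (l 16238192))) (b (a (l 16372344) (l 16337384)) (a (b (l 16441848) (b (l 16477168) (l 16500968))) (b (l 16409856) (l 16459168)))))))), by decide +kernel⟩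

def k2_pp_102_a : ∃ t, chk3 f_pp_102_a t 5 3 1 = true :=
  ⟨(a (b (a (b (l 15737536) (l 15935784)) (b (l 15659896) (l 15871552))) (b (a (b (l 16091176) (l 16186512)) (b (l 16014432) (l 16116112))) (b (a (l 16283232) (l 16214896)) (a (b (l 16357168) (l 16407576)) (l 16316624))))) (b (b (l 15539288) (a (l 15809152) (l 15746848))) (b (a (l 16002608) (l 15941216)) (a (b (l 16150872) (l 16254400)) (l 16144144))))), by decide +kernel⟩

def k3_pp_102_a : ∃ t, chk3 f_pp_102_a t 3 1 1 = true :=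
  ⟨(b (a (a (b (b (a (l 14707072) (l 14687816)) (l 14886976)) (b (l 15061448) (l 15250736))) (b (l 14737744) (l 15081512))) (b (a (l 14705720) (l 14710496)) (a (l 15036808) (l 15022232)))) (a (b (a (b (l 15454512) (b (l 15617984) (l 15706576))) (b (l 15384000) (l 15565120))) (a (b (l 15858352) (a (l 16088272) (l 16035560))) (b (l 15761888) (b (l 15909360) (l 16013696))))) (b (a (b (l 15330880) (l 15501168)) (b (l 15294848) (l 15451384))) (a (b (l 15680560) (l 15746808)) (b (l 15612392) (l 15789776)))))), by decide +kernel⟩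

theorem s4_pp_102_a : ∃ t, chk3 f_pp_102_a t 2 3 1 = true := ex3_a k1_pp_102_a k2_pp_102_a

theorem s5_pp_102_a : ∃ t, chk3 f_pp_102_a t 2 1 1 = true := ex3_b k0_pp_102_a s4_pp_102_a

theorem s6_pp_102_a : ∃ t, chk3 f_pp_102_a t 1 1 1 = true := ex3_a s5_pp_102_a k3_pp_102_a

theorem c_pp_102_a : CertB 536870912 536870912 0 536870912 1040187392 5207648 3 eng mog cd3q1 cd2q2a pd0 false true true .npp 1 0 2
    ndB3q1 ndB2q2a pcB0 cut_pp_102_a xt_pp_102_a :=
  certB2 (fam := false) (s1 := true) (s2 := true) (a := 1) (b := 0) (c := 2) (cn := .npp) (n1 := ndB3q1) (n2 := ndB2q2a) (pc := pcB0) (cut := cut_pp_102_a) (xt := xt_pp_102_a) (P1 := 536870912) (W1 := 536870912) (P2 := 0) (W2 := 536870912) (P3 := 1040187392) (W3 := 5207648) (N0 := 3) (En := eng) (mo := mog) (C1 := cd3q1) (C2 := cd2q2a) (C3 := pd0)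
    rfl (fun _ => rfl) s6_pp_102_a

noncomputable def cut_pp_102_b : Cut := Cut.of [[⟨0, 1, 0, 26843545⟩, ⟨1, 0, 0, 26843545⟩, ⟨2, 1, 0, 26843545⟩]]

noncomputable def f_pp_102_b : ℕ → ℕ → ℕ → ℕ → Bool := onCell 536870912 536870912 0 536870912 1040187392 5207648
    (rowB 3 eng mog cd3q1 cd2q2b pd0 1 false true true .npp 1 0 2 (qsf 536870912 536870912 1239849684 370763052 0) ndB3q1 ndB2q2b pcB0 cut_pp_102_b Ext.none)

def k0_pp_102_b : ∃ t, chk3 f_pp_102_b t 1 1 1 = true :=
  ⟨(a (b (l 1) (b (l 1) (a (l 1) (b (l 417177815447) (l 432746588135))))) (b (a (l 1) (b (l 1) (b (a (l 1) (b (b (l 1) (l 14632008)) (l 14511680))) (b (l 258800311287) (l 237325279271))))) (b (a (b (a (l 1) (b (l 459053731687) (l 14668568))) (l 274369686775)) (b (a (b (l 14482200) (l 14403272)) (l 14116864)) (a (l 14185440) (l 13652568)))) (a (b (l 14295992) (l 14040696)) (a (l 13514344) (b (l 13628488) (l 13341944))))))), by decide +kernel⟩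

theorem c_pp_102_b : CertB 536870912 536870912 1239849684 370763052 1040187392 5207648 3 eng mog cd3q1 cd2q2b pd0 false true true .npp 1 0 2
    ndB3q1 ndB2q2b pcB0 cut_pp_102_b Ext.none :=
  certB1 (fam := false) (s1 := true) (s2 := true) (a := 1) (b := 0) (c := 2) (cn := .npp) (n1 := ndB3q1) (n2 := ndB2q2b) (pc := pcB0) (cut := cut_pp_102_b) (xt := Ext.none) (P1 := 536870912) (W1 := 536870912) (P2 := 1239849684) (W2 := 370763052) (P3 := 1040187392) (W3 := 5207648) (N0 := 3) (En := eng) (mo := mog) (C1 := cd3q1) (C2 := cd2q2b) (C3 := pd0)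
    rfl (fun _ => rfl) k0_pp_102_b

noncomputable def f_pp_112_a : ℕ → ℕ → ℕ → ℕ → Bool := onCell 536870912 536870912 0 536870912 1040187392 5207648
    (rowB 3 eng mog cd3q1 cd2q2a pd1 2 false true true .dn 1 1 2 (qsf 536870912 536870912 0 536870912 1) ndB3q1 ndB2q2a pcB1 Cut.none Ext.none)

def k0_pp_112_a : ∃ t, chk3 f_pp_112_a t 1 1 1 = true :=
  ⟨(a (a (b (b (a (l 15356360) (l 15410320)) (a (l 15810296) (l 15786944))) (b (a (b (l 16042360) (l 16094184)) (b (l 16026896) (l 15975832))) (a (b (l 16007808) (l 15893976)) (b (l 15898024) (l 1))))) (b (a (b (l 15397808) (l 15693920)) (l 1)) (b (l 1) (l 1)))) (l 1)), by decide +kernel⟩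

theorem c_pp_112_a : CertB 536870912 536870912 0 536870912 1040187392 5207648 3 eng mog cd3q1 cd2q2a pd1 false true true .dn 1 1 2
    ndB3q1 ndB2q2a pcB1 Cut.none Ext.none :=
  certB2 (fam := false) (s1 := true) (s2 := true) (a := 1) (b := 1) (c := 2) (cn := .dn) (n1 := ndB3q1) (n2 := ndB2q2a) (pc := pcB1) (cut := Cut.none) (xt := Ext.none) (P1 := 536870912) (W1 := 536870912) (P2 := 0) (W2 := 536870912) (P3 := 1040187392) (W3 := 5207648) (N0 := 3) (En := eng) (mo := mog) (C1 := cd3q1) (C2 := cd2q2a) (C3 := pd1)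
    rfl (fun _ => rfl) k0_pp_112_a

noncomputable def f_pp_112_b : ℕ → ℕ → ℕ → ℕ → Bool := onCell 536870912 536870912 1239849684 370763052 1040187392 5207648
    (rowB 3 eng mog cd3q1 cd2q2b pd1 2 false true true .dn 1 1 2 (qsf 536870912 536870912 1239849684 370763052 1) ndB3q1 ndB2q2b pcB1 Cut.none Ext.none)

def k0_pp_112_b : ∃ t, chk3 f_pp_112_b t 1 1 1 = true :=
  ⟨(a (b (a (b (a (l 14927248) (l 15027288)) (l 14528464)) (b (a (l 15069320) (l 15057848)) (l 14676488))) (a (b (l 14072928) (a (l 13557120) (l 13685592))) (b (l 14282128) (l 13880272)))) (b (a (b (l 1) (l 14680000)) (l 1)) (a (b (l 14400232) (l 14117088)) (b (l 14486248) (l 14351408))))), by decide +kernel⟩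

theorem c_pp_112_b : CertB 536870912 536870912 1239849684 370763052 1040187392 5207648 3 eng mog cd3q1 cd2q2b pd1 false true true .dn 1 1 2
    ndB3q1 ndB2q2b pcB1 Cut.none Ext.none :=
  certB2 (fam := false) (s1 := true) (s2 := true) (a := 1) (b := 1) (c := 2) (cn := .dn) (n1 := ndB3q1) (n2 := ndB2q2b) (pc := pcB1) (cut := Cut.none) (xt := Ext.none) (P1 := 536870912) (W1 := 536870912) (P2 := 1239849684) (W2 := 370763052) (P3 := 1040187392) (W3 := 5207648) (N0 := 3) (En := eng) (mo := mog) (C1 := cd3q1) (C2 := cd2q2b) (C3 := pd1)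
    rfl (fun _ => rfl) k0_pp_112_b

noncomputable def f_pp_113 : ℕ → ℕ → ℕ → ℕ → Bool := onCell 536870912 536870912 1610612736 536870912 1040187392 5207648
    (rowB 3 eng mog cd3q1 cd2q3 pd1 2 false true true .nn 1 1 3 (qsf 536870912 536870912 1610612736 536870912 1) ndB3q1 ndB2q3 pcB1 Cut.none Ext.none)

def k0_pp_113 : ∃ t, chk3 f_pp_113 t 1 1 1 = true :=
  ⟨(a (b (b (b (a (l 13001904) (l 13451800)) (l 12949312)) (a (l 12349696) (l 12730616))) (b (a (l 2) (l 12232240)) (l 2))) (a (b (b (l 13778944) (l 13135760)) (b (l 12591624) (l 12746960))) (b (b (b (l 14425192) (l 14051488)) (l 13506072)) (b (l 12937456) (a (l 13394600) (l 13801768)))))), by decide +kernel⟩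

theorem c_pp_113 : CertB 536870912 536870912 1610612736 536870912 1040187392 5207648 3 eng mog cd3q1 cd2q3 pd1 false true true .nn 1 1 3
    ndB3q1 ndB2q3 pcB1 Cut.none Ext.none :=
  certB2 (fam := false) (s1 := true) (s2 := true) (a := 1) (b := 1) (c := 3) (cn := .nn) (n1 := ndB3q1) (n2 := ndB2q3) (pc := pcB1) (cut := Cut.none) (xt := Ext.none) (P1 := 536870912) (W1 := 536870912) (P2 := 1610612736) (W2 := 536870912) (P3 := 1040187392) (W3 := 5207648) (N0 := 3) (En := eng) (mo := mog) (C1 := cd3q1) (C2 := cd2q3) (C3 := pd1)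
    rfl (fun _ => rfl) k0_pp_113

noncomputable def f_pp_123 : ℕ → ℕ → ℕ → ℕ → Bool := onCell 1073741824 536870912 1610612736 536870912 1040187392 5207648
    (rowB 3 eng mog cd3q1 cd2q3 pd2 2 false true true .npn 1 2 3 (qsf 536870912 536870912 1610612736 536870912 2) ndB3q1 ndB2q3 pcB2 Cut.none Ext.none)

def k0_pp_123 : ∃ t, chk3 f_pp_123 t 1 1 1 = true :=
  ⟨(a (a (b (b (a (l 13826200) (l 13570800)) (a (l 13429944) (l 13535536))) (a (b (l 13315112) (b (l 14726472) (l 15271016))) (b (l 13871344) (b (l 14662952) (l 14856936))))) (a (b (b (l 675946686215) (l 13603880)) (b (l 14302576) (b (l 15251928) (l 4)))) (b (b (l 1) (l 13711224)) (b (l 14735480) (b (l 15728144) (l 4)))))) (b (a (b (l 1) (a (l 13862024) (l 1))) (l 1)) (a (b (a (b (l 14823792) (l 15530328)) (b (l 15232376) (l 15916992))) (a (b (l 16076800) (l 4)) (l 4))) (b (a (b (l 1) (l 16208632)) (l 1)) (l 4))))), by decide +kernel⟩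

theorem c_pp_123 : CertB 536870912 536870912 1610612736 536870912 1040187392 5207648 3 eng mog cd3q1 cd2q3 pd2 false true true .npn 1 2 3
    ndB3q1 ndB2q3 pcB2 Cut.none Ext.none :=
  certB2 (fam := false) (s1 := true) (s2 := true) (a := 1) (b := 2) (c := 3) (cn := .npn) (n1 := ndB3q1) (n2 := ndB2q3) (pc := pcB2) (cut := Cut.none) (xt := Ext.none) (P1 := 536870912) (W1 := 536870912) (P2 := 1610612736) (W2 := 536870912) (P3 := 1040187392) (W3 := 5207648) (N0 := 3) (En := eng) (mo := mog) (C1 := cd3q1) (C2 := cd2q3) (C3 := pd2)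
    rfl (fun _ => rfl) k0_pp_123

noncomputable def f_pp_133 : ℕ → ℕ → ℕ → ℕ → Bool := onCell 1610612736 536870912 1610612736 536870912 1040187392 5207648
    (rowB 3 eng mog cd3q1 cd2q3 pd3 2 false true true .dn 1 3 3 (qsf 536870912 536870912 1610612736 536870912 3) ndB3q1 ndB2q3 pcB3 Cut.none Ext.none)

def k0_pp_133 : ∃ t, chk3 f_pp_133 t 1 1 1 = true :=
  ⟨(a (b (l 1) (b (l 1) (l 4))) (l 1)), by decide +kernel⟩

theorem c_pp_133 : CertB 536870912 536870912 1610612736 536870912 1040187392 5207648 3 eng mog cd3q1 cd2q3 pd3 false true true .dn 1 3 3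
    ndB3q1 ndB2q3 pcB3 Cut.none Ext.none :=
  certB2 (fam := false) (s1 := true) (s2 := true) (a := 1) (b := 3) (c := 3) (cn := .dn) (n1 := ndB3q1) (n2 := ndB2q3) (pc := pcB3) (cut := Cut.none) (xt := Ext.none) (P1 := 536870912) (W1 := 536870912) (P2 := 1610612736) (W2 := 536870912) (P3 := 1040187392) (W3 := 5207648) (N0 := 3) (En := eng) (mo := mog) (C1 := cd3q1) (C2 := cd2q3) (C3 := pd3)
    rfl (fun _ => rfl) k0_pp_133

noncomputable def f_pp_202_a : ℕ → ℕ → ℕ → ℕ → Bool := onCell 1073741824 536870912 0 536870912 1040187392 5207648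
    (rowB 3 eng mog cd3q2 cd2q2a pd0 0 false true true .pp 2 0 2 (qsf 1073741824 536870912 0 536870912 0) ndB3q2 ndB2q2a pcB0 Cut.none Ext.none)

def k0_pp_202_a : ∃ t, chk3 f_pp_202_a t 1 1 1 = true :=
  ⟨(l 3), by decide +kernel⟩

theorem c_pp_202_a : CertB 1073741824 536870912 0 536870912 1040187392 5207648 3 eng mog cd3q2 cd2q2a pd0 false true true .pp 2 0 2
    ndB3q2 ndB2q2a pcB0 Cut.none Ext.none :=
  certB0 (fam := false) (s1 := true) (s2 := true) (a := 2) (b := 0) (c := 2) (cn := .pp) (n1 := ndB3q2) (n2 := ndB2q2a) (pc := pcB0) (cut := Cut.none) (xt := Ext.none) (P1 := 1073741824) (W1 := 536870912) (P2 := 0) (W2 := 536870912) (P3 := 1040187392) (W3 := 5207648) (N0 := 3) (En := eng) (mo := mog) (C1 := cd3q2) (C2 := cd2q2a) (C3 := pd0)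
    rfl k0_pp_202_a

noncomputable def f_pp_202_b : ℕ → ℕ → ℕ → ℕ → Bool := onCell 1073741824 536870912 1239849684 370763052 1040187392 5207648
    (rowB 3 eng mog cd3q2 cd2q2b pd0 0 false true true .pp 2 0 2 (qsf 1073741824 536870912 1239849684 370763052 0) ndB3q2 ndB2q2b pcB0 Cut.none Ext.none)

def k0_pp_202_b : ∃ t, chk3 f_pp_202_b t 1 1 1 = true :=
  ⟨(l 3), by decide +kernel⟩

theorem c_pp_202_b : CertB 1073741824 536870912 1239849684 370763052 1040187392 5207648 3 eng mog cd3q2 cd2q2b pd0 false true true .pp 2 0 2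
    ndB3q2 ndB2q2b pcB0 Cut.none Ext.none :=
  certB0 (fam := false) (s1 := true) (s2 := true) (a := 2) (b := 0) (c := 2) (cn := .pp) (n1 := ndB3q2) (n2 := ndB2q2b) (pc := pcB0) (cut := Cut.none) (xt := Ext.none) (P1 := 1073741824) (W1 := 536870912) (P2 := 1239849684) (W2 := 370763052) (P3 := 1040187392) (W3 := 5207648) (N0 := 3) (En := eng) (mo := mog) (C1 := cd3q2) (C2 := cd2q2b) (C3 := pd0)
    rfl k0_pp_202_b

noncomputable def f_pp_203 : ℕ → ℕ → ℕ → ℕ → Bool := onCell 1073741824 536870912 0 536870912 1040187392 5207648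
    (rowB 3 eng mog cd3q2 cd2q3 pd0 1 false true true .up 2 0 3 (qsf 1073741824 536870912 1610612736 536870912 0) ndB3q2 ndB2q3 pcB0 Cut.none Ext.none)

def k0_pp_203 : ∃ t, chk3 f_pp_203 t 1 1 1 = true :=
  ⟨(l 3), by decide +kernel⟩

theorem c_pp_203 : CertB 1073741824 536870912 1610612736 536870912 1040187392 5207648 3 eng mog cd3q2 cd2q3 pd0 false true true .up 2 0 3
    ndB3q2 ndB2q3 pcB0 Cut.none Ext.none :=
  certB1 (fam := false) (s1 := true) (s2 := true) (a := 2) (b := 0) (c := 3) (cn := .up) (n1 := ndB3q2) (n2 := ndB2q3) (pc := pcB0) (cut := Cut.none) (xt := Ext.none) (P1 := 1073741824) (W1 := 536870912) (P2 := 1610612736) (W2 := 536870912) (P3 := 1040187392) (W3 := 5207648) (N0 := 3) (En := eng) (mo := mog) (C1 := cd3q2) (C2 := cd2q3) (C3 := pd0)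
    rfl (fun _ => rfl) k0_pp_203

noncomputable def f_pp_213 : ℕ → ℕ → ℕ → ℕ → Bool := onCell 1073741824 536870912 1610612736 536870912 1040187392 5207648
    (rowB 3 eng mog cd3q2 cd2q3 pd1 0 false true true .pnn 2 1 3 (qsf 1073741824 536870912 1610612736 536870912 1) ndB3q2 ndB2q3 pcB1 Cut.none Ext.none)

def k0_pp_213 : ∃ t, chk3 f_pp_213 t 1 1 1 = true :=
  ⟨(a (b (l 3) (b (l 3) (a (b (l 3) (a (b (l 3) (a (b (l 3) (a (b (a (l 16706920) (l 16707488)) (a (l 16735152) (l 16756816))) (b (l 3) (a (l 16742688) (l 16712576))))) (l 3))) (l 3))) (l 3)))) (l 3)), by decide +kernel⟩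

theorem c_pp_213 : CertB 1073741824 536870912 1610612736 536870912 1040187392 5207648 3 eng mog cd3q2 cd2q3 pd1 false true true .pnn 2 1 3
    ndB3q2 ndB2q3 pcB1 Cut.none Ext.none :=
  certB0 (fam := false) (s1 := true) (s2 := true) (a := 2) (b := 1) (c := 3) (cn := .pnn) (n1 := ndB3q2) (n2 := ndB2q3) (pc := pcB1) (cut := Cut.none) (xt := Ext.none) (P1 := 1073741824) (W1 := 536870912) (P2 := 1610612736) (W2 := 536870912) (P3 := 1040187392) (W3 := 5207648) (N0 := 3) (En := eng) (mo := mog) (C1 := cd3q2) (C2 := cd2q3) (C3 := pd1)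
    rfl k0_pp_213

noncomputable def f_pp_303 : ℕ → ℕ → ℕ → ℕ → Bool := onCell 0 1230186008 1610612736 536870912 1040187392 5207648
    (rowB 3 eng mog cd3q3 cd2q3 pd0 0 false true true .npn 3 0 3 (qsf 0 1230186008 1610612736 536870912 0) ndB3q3 ndB2q3 pcB0 Cut.none Ext.none)

def k0_pp_303 : ∃ t, chk3 f_pp_303 t 1 1 1 = true :=
  ⟨(a (l 3) (l 3)), by decide +kernel⟩

theorem c_pp_303 : CertB 0 1230186008 1610612736 536870912 1040187392 5207648 3 eng mog cd3q3 cd2q3 pd0 false true true .npn 3 0 3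
    ndB3q3 ndB2q3 pcB0 Cut.none Ext.none :=
  certB0 (fam := false) (s1 := true) (s2 := true) (a := 3) (b := 0) (c := 3) (cn := .npn) (n1 := ndB3q3) (n2 := ndB2q3) (pc := pcB0) (cut := Cut.none) (xt := Ext.none) (P1 := 0) (W1 := 1230186008) (P2 := 1610612736) (W2 := 536870912) (P3 := 1040187392) (W3 := 5207648) (N0 := 3) (En := eng) (mo := mog) (C1 := cd3q3) (C2 := cd2q3) (C3 := pd0)
    rfl k0_pp_303

noncomputable def f_pp_313 : ℕ → ℕ → ℕ → ℕ → Bool := onCell 0 1230186008 1610612736 536870912 1040187392 5207648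
    (rowB 3 eng mog cd3q3 cd2q3 pd1 0 false true true .dn 3 1 3 (qsf 0 1230186008 1610612736 536870912 1) ndB3q3 ndB2q3 pcB1 Cut.none Ext.none)

def k0_pp_313 : ∃ t, chk3 f_pp_313 t 1 1 1 = true :=
  ⟨(a (l 1) (l 3)), by decide +kernel⟩

theorem c_pp_313 : CertB 0 1230186008 1610612736 536870912 1040187392 5207648 3 eng mog cd3q3 cd2q3 pd1 false true true .dn 3 1 3
    ndB3q3 ndB2q3 pcB1 Cut.none Ext.none :=
  certB0 (fam := false) (s1 := true) (s2 := true) (a := 3) (b := 1) (c := 3) (cn := .dn) (n1 := ndB3q3) (n2 := ndB2q3) (pc := pcB1) (cut := Cut.none) (xt := Ext.none) (P1 := 0) (W1 := 1230186008) (P2 := 1610612736) (W2 := 536870912) (P3 := 1040187392) (W3 := 5207648) (N0 := 3) (En := eng) (mo := mog) (C1 := cd3q3) (C2 := cd2q3) (C3 := pd1)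
    rfl k0_pp_313

noncomputable def f_pm_001 : ℕ → ℕ → ℕ → ℕ → Bool := onCell 0 536870912 536870912 536870912 1040187392 5207648
    (rowB 3 eng mog cd3q0 cd2q1 pd0 0 false true false .up 0 0 1 (qsf 0 536870912 536870912 536870912 0) ndB3q0 ndB2q1 pcB0 Cut.none Ext.none)

def k0_pm_001 : ∃ t, chk3 f_pm_001 t 1 1 1 = true :=
  ⟨(l 4), by decide +kernel⟩

theorem c_pm_001 : CertB 0 536870912 536870912 536870912 1040187392 5207648 3 eng mog cd3q0 cd2q1 pd0 false true false .up 0 0 1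
    ndB3q0 ndB2q1 pcB0 Cut.none Ext.none :=
  certB0 (fam := false) (s1 := true) (s2 := false) (a := 0) (b := 0) (c := 1) (cn := .up) (n1 := ndB3q0) (n2 := ndB2q1) (pc := pcB0) (cut := Cut.none) (xt := Ext.none) (P1 := 0) (W1 := 536870912) (P2 := 536870912) (W2 := 536870912) (P3 := 1040187392) (W3 := 5207648) (N0 := 3) (En := eng) (mo := mog) (C1 := cd3q0) (C2 := cd2q1) (C3 := pd0)
    rfl k0_pm_001

noncomputable def f_pm_011 : ℕ → ℕ → ℕ → ℕ → Bool := onCell 0 536870912 536870912 536870912 1040187392 5207648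
    (rowB 3 eng mog cd3q0 cd2q1 pd1 0 false true false .pnn 0 1 1 (qsf 0 536870912 536870912 536870912 1) ndB3q0 ndB2q1 pcB1 Cut.none Ext.none)

def k0_pm_011 : ∃ t, chk3 f_pm_011 t 1 1 1 = true :=
  ⟨(l 4), by decide +kernel⟩

theorem c_pm_011 : CertB 0 536870912 536870912 536870912 1040187392 5207648 3 eng mog cd3q0 cd2q1 pd1 false true false .pnn 0 1 1
    ndB3q0 ndB2q1 pcB1 Cut.none Ext.none :=
  certB0 (fam := false) (s1 := true) (s2 := false) (a := 0) (b := 1) (c := 1) (cn := .pnn) (n1 := ndB3q0) (n2 := ndB2q1) (pc := pcB1) (cut := Cut.none) (xt := Ext.none) (P1 := 0) (W1 := 536870912) (P2 := 536870912) (W2 := 536870912) (P3 := 1040187392) (W3 := 5207648) (N0 := 3) (En := eng) (mo := mog) (C1 := cd3q0) (C2 := cd2q1) (C3 := pd1)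
    rfl k0_pm_011

noncomputable def f_pm_012_a : ℕ → ℕ → ℕ → ℕ → Bool := onCell 536870912 536870912 0 536870912 1040187392 5207648
    (rowB 3 eng mog cd3q0 cd2q2a pd1 2 false true false .pnp 0 1 2 (qsf 0 536870912 0 536870912 1) ndB3q0 ndB2q2a pcB1 Cut.none Ext.none)

def k0_pm_012_a : ∃ t, chk3 f_pm_012_a t 1 1 1 = true :=
  ⟨(a (l 4) (a (l 4) (b (l 4) (l 4)))), by decide +kernel⟩

theorem c_pm_012_a : CertB 0 536870912 0 536870912 1040187392 5207648 3 eng mog cd3q0 cd2q2a pd1 false true false .pnp 0 1 2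
    ndB3q0 ndB2q2a pcB1 Cut.none Ext.none :=
  certB2 (fam := false) (s1 := true) (s2 := false) (a := 0) (b := 1) (c := 2) (cn := .pnp) (n1 := ndB3q0) (n2 := ndB2q2a) (pc := pcB1) (cut := Cut.none) (xt := Ext.none) (P1 := 0) (W1 := 536870912) (P2 := 0) (W2 := 536870912) (P3 := 1040187392) (W3 := 5207648) (N0 := 3) (En := eng) (mo := mog) (C1 := cd3q0) (C2 := cd2q2a) (C3 := pd1)
    rfl (fun _ => rfl) k0_pm_012_a

noncomputable def f_pm_012_b : ℕ → ℕ → ℕ → ℕ → Bool := onCell 536870912 536870912 1239849684 370763052 1040187392 5207648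
    (rowB 3 eng mog cd3q0 cd2q2b pd1 2 false true false .pnp 0 1 2 (qsf 0 536870912 1239849684 370763052 1) ndB3q0 ndB2q2b pcB1 Cut.none Ext.none)

def k0_pm_012_b : ∃ t, chk3 f_pm_012_b t 1 1 1 = true :=
  ⟨(a (l 4) (l 4)), by decide +kernel⟩

theorem c_pm_012_b : CertB 0 536870912 1239849684 370763052 1040187392 5207648 3 eng mog cd3q0 cd2q2b pd1 false true false .pnp 0 1 2
    ndB3q0 ndB2q2b pcB1 Cut.none Ext.none :=
  certB2 (fam := false) (s1 := true) (s2 := false) (a := 0) (b := 1) (c := 2) (cn := .pnp) (n1 := ndB3q0) (n2 := ndB2q2b) (pc := pcB1) (cut := Cut.none) (xt := Ext.none) (P1 := 0) (W1 := 536870912) (P2 := 1239849684) (W2 := 370763052) (P3 := 1040187392) (W3 := 5207648) (N0 := 3) (En := eng) (mo := mog) (C1 := cd3q0) (C2 := cd2q2b) (C3 := pd1)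
    rfl (fun _ => rfl) k0_pm_012_b

noncomputable def f_pm_022_a : ℕ → ℕ → ℕ → ℕ → Bool := onCell 0 536870912 0 536870912 1040187392 5207648
    (rowB 3 eng mog cd3q0 cd2q2a pd2 0 false true false .pp 0 2 2 (qsf 0 536870912 0 536870912 2) ndB3q0 ndB2q2a pcB2 Cut.none Ext.none)

def k0_pm_022_a : ∃ t, chk3 f_pm_022_a t 1 1 1 = true :=
  ⟨(a (b (a (b (a (a (a (b (l 16458848) (l 16368600)) (a (b (l 16412512) (l 16438952)) (l 16358000))) (a (a (l 16262480) (l 16383368)) (b (l 16226008) (l 16287144)))) (a (b (l 15877104) (l 15779496)) (b (l 15276608) (l 4)))) (a (a (a (b (l 16299608) (b (l 16273424) (l 16274992))) (a (b (l 16362504) (l 16273624)) (b (l 16379504) (l 4)))) (a (b (a (l 16384128) (l 16481856)) (l 4)) (l 4))) (l 4))) (b (l 4) (l 4))) (a (b (a (a (a (b (b (l 16267288) (l 4)) (l 4)) (l 4)) (l 4)) (l 4)) (l 4)) (l 4))) (l 1)), by decide +kernel⟩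

theorem c_pm_022_a : CertB 0 536870912 0 536870912 1040187392 5207648 3 eng mog cd3q0 cd2q2a pd2 false true false .pp 0 2 2
    ndB3q0 ndB2q2a pcB2 Cut.none Ext.none :=
  certB0 (fam := false) (s1 := true) (s2 := false) (a := 0) (b := 2) (c := 2) (cn := .pp) (n1 := ndB3q0) (n2 := ndB2q2a) (pc := pcB2) (cut := Cut.none) (xt := Ext.none) (P1 := 0) (W1 := 536870912) (P2 := 0) (W2 := 536870912) (P3 := 1040187392) (W3 := 5207648) (N0 := 3) (En := eng) (mo := mog) (C1 := cd3q0) (C2 := cd2q2a) (C3 := pd2)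
    rfl k0_pm_022_a

noncomputable def f_pm_022_b : ℕ → ℕ → ℕ → ℕ → Bool := onCell 0 536870912 1239849684 370763052 1040187392 5207648
    (rowB 3 eng mog cd3q0 cd2q2b pd2 0 false true false .pp 0 2 2 (qsf 0 536870912 1239849684 370763052 2) ndB3q0 ndB2q2b pcB2 Cut.none Ext.none)

def k0_pm_022_b : ∃ t, chk3 f_pm_022_b t 1 1 1 = true :=
  ⟨(a (b (a (b (a (b (a (a (b (l 16398008) (l 16375832)) (a (l 16240560) (l 16380920))) (a (a (l 16383776) (l 16325664)) (b (l 16197632) (l 16222552)))) (a (a (l 16169976) (a (l 16231768) (l 16217472))) (a (a (l 16101424) (l 16291296)) (b (l 16272616) (l 16318088))))) (b (a (b (a (l 15999136) (l 15760808)) (a (l 16046856) (l 15825672))) (b (l 15131992) (l 4))) (a (b (l 15807808) (l 4)) (l 4)))) (a (b (a (a (b (l 15926280) (l 15778608)) (a (l 15823336) (l 15954408))) (a (a (l 15969976) (l 4)) (l 4))) (l 4)) (l 4))) (l 4)) (l 4)) (l 4)), by decide +kernel⟩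

theorem c_pm_022_b : CertB 0 536870912 1239849684 370763052 1040187392 5207648 3 eng mog cd3q0 cd2q2b pd2 false true false .pp 0 2 2
    ndB3q0 ndB2q2b pcB2 Cut.none Ext.none :=
  certB0 (fam := false) (s1 := true) (s2 := false) (a := 0) (b := 2) (c := 2) (cn := .pp) (n1 := ndB3q0) (n2 := ndB2q2b) (pc := pcB2) (cut := Cut.none) (xt := Ext.none) (P1 := 0) (W1 := 536870912) (P2 := 1239849684) (W2 := 370763052) (P3 := 1040187392) (W3 := 5207648) (N0 := 3) (En := eng) (mo := mog) (C1 := cd3q0) (C2 := cd2q2b) (C3 := pd2)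
    rfl k0_pm_022_b

noncomputable def f_pm_023 : ℕ → ℕ → ℕ → ℕ → Bool := onCell 0 536870912 1610612736 536870912 1040187392 5207648
    (rowB 3 eng mog cd3q0 cd2q3 pd2 0 false true false .up 0 2 3 (qsf 0 536870912 1610612736 536870912 2) ndB3q0 ndB2q3 pcB2 Cut.none Ext.none)

def k0_pm_023 : ∃ t, chk3 f_pm_023 t 1 1 1 = true :=
  ⟨(a (l 4) (l 4)), by decide +kernel⟩

theorem c_pm_023 : CertB 0 536870912 1610612736 536870912 1040187392 5207648 3 eng mog cd3q0 cd2q3 pd2 false true false .up 0 2 3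
    ndB3q0 ndB2q3 pcB2 Cut.none Ext.none :=
  certB0 (fam := false) (s1 := true) (s2 := false) (a := 0) (b := 2) (c := 3) (cn := .up) (n1 := ndB3q0) (n2 := ndB2q3) (pc := pcB2) (cut := Cut.none) (xt := Ext.none) (P1 := 0) (W1 := 536870912) (P2 := 1610612736) (W2 := 536870912) (P3 := 1040187392) (W3 := 5207648) (N0 := 3) (En := eng) (mo := mog) (C1 := cd3q0) (C2 := cd2q3) (C3 := pd2)
    rfl k0_pm_023

noncomputable def f_pm_033 : ℕ → ℕ → ℕ → ℕ → Bool := onCell 0 536870912 1610612736 536870912 1040187392 5207648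
    (rowB 3 eng mog cd3q0 cd2q3 pd3 0 false true false .pnn 0 3 3 (qsf 0 536870912 1610612736 536870912 3) ndB3q0 ndB2q3 pcB3 Cut.none Ext.none)

def k0_pm_033 : ∃ t, chk3 f_pm_033 t 1 1 1 = true :=
  ⟨(a (l 4) (l 4)), by decide +kernel⟩

theorem c_pm_033 : CertB 0 536870912 1610612736 536870912 1040187392 5207648 3 eng mog cd3q0 cd2q3 pd3 false true false .pnn 0 3 3
    ndB3q0 ndB2q3 pcB3 Cut.none Ext.none :=
  certB0 (fam := false) (s1 := true) (s2 := false) (a := 0) (b := 3) (c := 3) (cn := .pnn) (n1 := ndB3q0) (n2 := ndB2q3) (pc := pcB3) (cut := Cut.none) (xt := Ext.none) (P1 := 0) (W1 := 536870912) (P2 := 1610612736) (W2 := 536870912) (P3 := 1040187392) (W3 := 5207648) (N0 := 3) (En := eng) (mo := mog) (C1 := cd3q0) (C2 := cd2q3) (C3 := pd3)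
    rfl k0_pm_033

noncomputable def f_pm_101 : ℕ → ℕ → ℕ → ℕ → Bool := onCell 536870912 536870912 536870912 536870912 1040187392 5207648
    (rowB 3 eng mog cd3q1 cd2q1 pd0 0 false true false .npn 1 0 1 (qsf 536870912 536870912 536870912 536870912 0) ndB3q1 ndB2q1 pcB0 Cut.none Ext.none)

def k0_pm_101 : ∃ t, chk3 f_pm_101 t 1 1 1 = true :=
  ⟨(l 4), by decide +kernel⟩

theorem c_pm_101 : CertB 536870912 536870912 536870912 536870912 1040187392 5207648 3 eng mog cd3q1 cd2q1 pd0 false true false .npn 1 0 1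
    ndB3q1 ndB2q1 pcB0 Cut.none Ext.none :=
  certB0 (fam := false) (s1 := true) (s2 := false) (a := 1) (b := 0) (c := 1) (cn := .npn) (n1 := ndB3q1) (n2 := ndB2q1) (pc := pcB0) (cut := Cut.none) (xt := Ext.none) (P1 := 536870912) (W1 := 536870912) (P2 := 536870912) (W2 := 536870912) (P3 := 1040187392) (W3 := 5207648) (N0 := 3) (En := eng) (mo := mog) (C1 := cd3q1) (C2 := cd2q1) (C3 := pd0)
    rfl k0_pm_101

noncomputable def f_pm_102_a : ℕ → ℕ → ℕ → ℕ → Bool := onCell 536870912 536870912 0 536870912 1040187392 5207648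
    (rowB 3 eng mog cd3q1 cd2q2a pd0 0 false true false .npp 1 0 2 (qsf 536870912 536870912 0 536870912 0) ndB3q1 ndB2q2a pcB0 Cut.none Ext.none)

def k0_pm_102_a : ∃ t, chk3 f_pm_102_a t 1 1 1 = true :=
  ⟨(l 4), by decide +kernel⟩

theorem c_pm_102_a : CertB 536870912 536870912 0 536870912 1040187392 5207648 3 eng mog cd3q1 cd2q2a pd0 false true false .npp 1 0 2
    ndB3q1 ndB2q2a pcB0 Cut.none Ext.none :=
  certB0 (fam := false) (s1 := true) (s2 := false) (a := 1) (b := 0) (c := 2) (cn := .npp) (n1 := ndB3q1) (n2 := ndB2q2a) (pc := pcB0) (cut := Cut.none) (xt := Ext.none) (P1 := 536870912) (W1 := 536870912) (P2 := 0) (W2 := 536870912) (P3 := 1040187392) (W3 := 5207648) (N0 := 3) (En := eng) (mo := mog) (C1 := cd3q1) (C2 := cd2q2a) (C3 := pd0)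
    rfl k0_pm_102_a

noncomputable def f_pm_102_b : ℕ → ℕ → ℕ → ℕ → Bool := onCell 536870912 536870912 1239849684 370763052 1040187392 5207648
    (rowB 3 eng mog cd3q1 cd2q2b pd0 0 false true false .npp 1 0 2 (qsf 536870912 536870912 1239849684 370763052 0) ndB3q1 ndB2q2b pcB0 Cut.none Ext.none)

def k0_pm_102_b : ∃ t, chk3 f_pm_102_b t 1 1 1 = true :=
  ⟨(l 4), by decide +kernel⟩

theorem c_pm_102_b : CertB 536870912 536870912 1239849684 370763052 1040187392 5207648 3 eng mog cd3q1 cd2q2b pd0 false true false .npp 1 0 2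
    ndB3q1 ndB2q2b pcB0 Cut.none Ext.none :=
  certB0 (fam := false) (s1 := true) (s2 := false) (a := 1) (b := 0) (c := 2) (cn := .npp) (n1 := ndB3q1) (n2 := ndB2q2b) (pc := pcB0) (cut := Cut.none) (xt := Ext.none) (P1 := 536870912) (W1 := 536870912) (P2 := 1239849684) (W2 := 370763052) (P3 := 1040187392) (W3 := 5207648) (N0 := 3) (En := eng) (mo := mog) (C1 := cd3q1) (C2 := cd2q2b) (C3 := pd0)
    rfl k0_pm_102_b

noncomputable def f_pm_112_a : ℕ → ℕ → ℕ → ℕ → Bool := onCell 536870912 536870912 0 536870912 1040187392 5207648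
    (rowB 3 eng mog cd3q1 cd2q2a pd1 0 false true false .dn 1 1 2 (qsf 536870912 536870912 0 536870912 1) ndB3q1 ndB2q2a pcB1 Cut.none Ext.none)

def k0_pm_112_a : ∃ t, chk3 f_pm_112_a t 1 1 1 = true :=
  ⟨(l 4), by decide +kernel⟩

theorem c_pm_112_a : CertB 536870912 536870912 0 536870912 1040187392 5207648 3 eng mog cd3q1 cd2q2a pd1 false true false .dn 1 1 2
    ndB3q1 ndB2q2a pcB1 Cut.none Ext.none :=
  certB0 (fam := false) (s1 := true) (s2 := false) (a := 1) (b := 1) (c := 2) (cn := .dn) (n1 := ndB3q1) (n2 := ndB2q2a) (pc := pcB1) (cut := Cut.none) (xt := Ext.none) (P1 := 536870912) (W1 := 536870912) (P2 := 0) (W2 := 536870912) (P3 := 1040187392) (W3 := 5207648) (N0 := 3) (En := eng) (mo := mog) (C1 := cd3q1) (C2 := cd2q2a) (C3 := pd1)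
    rfl k0_pm_112_a

noncomputable def f_pm_112_b : ℕ → ℕ → ℕ → ℕ → Bool := onCell 536870912 536870912 1239849684 370763052 1040187392 5207648
    (rowB 3 eng mog cd3q1 cd2q2b pd1 0 false true false .dn 1 1 2 (qsf 536870912 536870912 1239849684 370763052 1) ndB3q1 ndB2q2b pcB1 Cut.none Ext.none)

def k0_pm_112_b : ∃ t, chk3 f_pm_112_b t 1 1 1 = true :=
  ⟨(l 4), by decide +kernel⟩

theorem c_pm_112_b : CertB 536870912 536870912 1239849684 370763052 1040187392 5207648 3 eng mog cd3q1 cd2q2b pd1 false true false .dn 1 1 2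
    ndB3q1 ndB2q2b pcB1 Cut.none Ext.none :=
  certB0 (fam := false) (s1 := true) (s2 := false) (a := 1) (b := 1) (c := 2) (cn := .dn) (n1 := ndB3q1) (n2 := ndB2q2b) (pc := pcB1) (cut := Cut.none) (xt := Ext.none) (P1 := 536870912) (W1 := 536870912) (P2 := 1239849684) (W2 := 370763052) (P3 := 1040187392) (W3 := 5207648) (N0 := 3) (En := eng) (mo := mog) (C1 := cd3q1) (C2 := cd2q2b) (C3 := pd1)
    rfl k0_pm_112_b

noncomputable def f_pm_113 : ℕ → ℕ → ℕ → ℕ → Bool := onCell 536870912 536870912 536870912 536870912 1040187392 5207648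
    (rowB 3 eng mog cd3q1 cd2q3 pd1 1 false true false .nn 1 1 3 (qsf 536870912 536870912 1610612736 536870912 1) ndB3q1 ndB2q3 pcB1 Cut.none Ext.none)

def k0_pm_113 : ∃ t, chk3 f_pm_113 t 1 1 1 = true :=
  ⟨(b (l 4) (b (l 4) (a (l 4) (b (l 4) (a (l 4) (l 469989512503)))))), by decide +kernel⟩

theorem c_pm_113 : CertB 536870912 536870912 1610612736 536870912 1040187392 5207648 3 eng mog cd3q1 cd2q3 pd1 false true false .nn 1 1 3
    ndB3q1 ndB2q3 pcB1 Cut.none Ext.none :=
  certB1 (fam := false) (s1 := true) (s2 := false) (a := 1) (b := 1) (c := 3) (cn := .nn) (n1 := ndB3q1) (n2 := ndB2q3) (pc := pcB1) (cut := Cut.none) (xt := Ext.none) (P1 := 536870912) (W1 := 536870912) (P2 := 1610612736) (W2 := 536870912) (P3 := 1040187392) (W3 := 5207648) (N0 := 3) (En := eng) (mo := mog) (C1 := cd3q1) (C2 := cd2q3) (C3 := pd1)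
    rfl (fun _ => rfl) k0_pm_113

noncomputable def f_pm_123 : ℕ → ℕ → ℕ → ℕ → Bool := onCell 1073741824 536870912 1610612736 536870912 1040187392 5207648
    (rowB 3 eng mog cd3q1 cd2q3 pd2 2 false true false .npn 1 2 3 (qsf 536870912 536870912 1610612736 536870912 2) ndB3q1 ndB2q3 pcB2 Cut.none Ext.none)

def k0_pm_123 : ∃ t, chk3 f_pm_123 t 1 1 1 = true :=
  ⟨(a (a (b (l 4) (a (b (l 4) (b (l 4) (l 15263336))) (l 4))) (l 4)) (l 4)), by decide +kernel⟩

theorem c_pm_123 : CertB 536870912 536870912 1610612736 536870912 1040187392 5207648 3 eng mog cd3q1 cd2q3 pd2 false true false .npn 1 2 3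
    ndB3q1 ndB2q3 pcB2 Cut.none Ext.none :=
  certB2 (fam := false) (s1 := true) (s2 := false) (a := 1) (b := 2) (c := 3) (cn := .npn) (n1 := ndB3q1) (n2 := ndB2q3) (pc := pcB2) (cut := Cut.none) (xt := Ext.none) (P1 := 536870912) (W1 := 536870912) (P2 := 1610612736) (W2 := 536870912) (P3 := 1040187392) (W3 := 5207648) (N0 := 3) (En := eng) (mo := mog) (C1 := cd3q1) (C2 := cd2q3) (C3 := pd2)
    rfl (fun _ => rfl) k0_pm_123

noncomputable def f_pm_133 : ℕ → ℕ → ℕ → ℕ → Bool := onCell 536870912 536870912 1610612736 536870912 1040187392 5207648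
    (rowB 3 eng mog cd3q1 cd2q3 pd3 0 false true false .dn 1 3 3 (qsf 536870912 536870912 1610612736 536870912 3) ndB3q1 ndB2q3 pcB3 Cut.none Ext.none)

def k0_pm_133 : ∃ t, chk3 f_pm_133 t 1 1 1 = true :=
  ⟨(a (l 4) (l 1)), by decide +kernel⟩

theorem c_pm_133 : CertB 536870912 536870912 1610612736 536870912 1040187392 5207648 3 eng mog cd3q1 cd2q3 pd3 false true false .dn 1 3 3
    ndB3q1 ndB2q3 pcB3 Cut.none Ext.none :=
  certB0 (fam := false) (s1 := true) (s2 := false) (a := 1) (b := 3) (c := 3) (cn := .dn) (n1 := ndB3q1) (n2 := ndB2q3) (pc := pcB3) (cut := Cut.none) (xt := Ext.none) (P1 := 536870912) (W1 := 536870912) (P2 := 1610612736) (W2 := 536870912) (P3 := 1040187392) (W3 := 5207648) (N0 := 3) (En := eng) (mo := mog) (C1 := cd3q1) (C2 := cd2q3) (C3 := pd3)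
    rfl k0_pm_133

noncomputable def f_pm_202_a : ℕ → ℕ → ℕ → ℕ → Bool := onCell 0 536870912 0 536870912 1040187392 5207648
    (rowB 3 eng mog cd3q2 cd2q2a pd0 2 false true false .pp 2 0 2 (qsf 1073741824 536870912 0 536870912 0) ndB3q2 ndB2q2a pcB0 Cut.none Ext.none)

def k0_pm_202_a : ∃ t, chk3 f_pm_202_a t 2 2 1 = true :=
  ⟨(l 3), by decide +kernel⟩

def k1_pm_202_a : ∃ t, chk3 f_pm_202_a t 4 3 1 = true :=
  ⟨(b (l 3) (a (b (b (b (l 3) (a (a (a (l 16589000) (l 16621528)) (a (b (l 3) (l 16647488)) (l 16616360))) (a (a (l 16589264) (l 16563352)) (a (l 16539816) (b (l 16517480) (l 208875804871)))))) (a (a (a (b (a (b (a (l 16624448) (l 16633800)) (l 16619840)) (b (l 16628696) (l 16635672))) (a (l 16643328) (a (l 16674264) (l 16658032)))) (a (b (a (l 16647368) (b (l 16676984) (l 16661896))) (a (l 16642032) (b (l 16686296) (l 16694232)))) (b (b (l 16673144) (l 16680104)) (a (l 16679144) (l 16691160))))) (a (b (b (l 16654656) (l 16639368)) (b (a (l 16674584)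 (l 16661224)) (l 16652960))) (b (l 16631552) (a (l 16651032) (l 16637808))))) (a (a (b (l 16604160) (a (l 16624416) (l 16611008))) (b (l 16577216) (a (l 16597904) (l 16584440)))) (a (b (l 93985470343) (l 396243861303)) (b (l 389801340759) (l 1)))))) (a (a (a (b (a (l 16668496) (l 16673288)) (a (b (l 16695232) (a (l 16747688) (l 16718784))) (b (l 16718904) (a (b (l 16726184) (l 16709024)) (l 246994007719))))) (b (a (b (l 16712592) (l 16709096)) (b (b (l 16706896) (l 16704000)) (l 16698936))) (a (b (a (l 16709336) (l 16704344)) (a (l 222297957095) (l 454763040535))) (b (b (l 16694232) (l 16691472)) (l 1))))) (a (b (b (a (b (a (l 16674664) (l 16685432)) (l 16673736)) (l 16675112)) (a (l 16689800) (b (l 16682416) (l 16681480)))) (b (b (a (l 16683752) (l 16680528)) (l 1)) (l 1))) (b (b (a (l 16659000) (l 16644616)) (a (b (l 16665672) (l 309270935751)) (l 275448042311))) (l 1)))) (a (b (a (b (a (l 16631416) (l 246993831591)) (l 1)) (l 1)) (l 1)) (l 1)))) (a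 (b (a (b (b (l 3) (a (a (l 386043182519) (l 1)) (l 1))) (l 1)) (l 1)) (l 1)) (l 1)))), by decide +kernel⟩

def k2_pm_202_a : ∃ t, chk3 f_pm_202_a t 5 3 1 = true :=
  ⟨(b (l 1) (l 1)), by decide +kernel⟩

def k3_pm_202_a : ∃ t, chk3 f_pm_202_a t 3 1 1 = true :=
  ⟨(l 1), by decide +kernel⟩

theorem s4_pm_202_a : ∃ t, chk3 f_pm_202_a t 2 3 1 = true := ex3_a k1_pm_202_a k2_pm_202_a

theorem s5_pm_202_a : ∃ t, chk3 f_pm_202_a t 2 1 1 = true := ex3_b k0_pm_202_a s4_pm_202_a

theorem s6_pm_202_a : ∃ t, chk3 f_pm_202_a t 1 1 1 = true := ex3_a s5_pm_202_a k3_pm_202_a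

theorem c_pm_202_a : CertB 1073741824 536870912 0 536870912 1040187392 5207648 3 eng mog cd3q2 cd2q2a pd0 false true false .pp 2 0 2
    ndB3q2 ndB2q2a pcB0 Cut.none Ext.none :=
  certB2 (fam := false) (s1 := true) (s2 := false) (a := 2) (b := 0) (c := 2) (cn := .pp) (n1 := ndB3q2) (n2 := ndB2q2a) (pc := pcB0) (cut := Cut.none) (xt := Ext.none) (P1 := 1073741824) (W1 := 536870912) (P2 := 0) (W2 := 536870912) (P3 := 1040187392) (W3 := 5207648) (N0 := 3) (En := eng) (mo := mog) (C1 := cd3q2) (C2 := cd2q2a) (C3 := pd0)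
    rfl (fun _ => rfl) s6_pm_202_a

noncomputable def f_pm_202_b : ℕ → ℕ → ℕ → ℕ → Bool := onCell 1073741824 536870912 1239849684 370763052 1040187392 5207648
    (rowB 3 eng mog cd3q2 cd2q2b pd0 0 false true false .pp 2 0 2 (qsf 1073741824 536870912 1239849684 370763052 0) ndB3q2 ndB2q2b pcB0 Cut.none Ext.none)

def k0_pm_202_b : ∃ t, chk3 f_pm_202_b t 1 1 1 = true :=
  ⟨(l 3), by decide +kernel⟩

theorem c_pm_202_b : CertB 1073741824 536870912 1239849684 370763052 1040187392 5207648 3 eng mog cd3q2 cd2q2b pd0 false true false .pp 2 0 2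
    ndB3q2 ndB2q2b pcB0 Cut.none Ext.none :=
  certB0 (fam := false) (s1 := true) (s2 := false) (a := 2) (b := 0) (c := 2) (cn := .pp) (n1 := ndB3q2) (n2 := ndB2q2b) (pc := pcB0) (cut := Cut.none) (xt := Ext.none) (P1 := 1073741824) (W1 := 536870912) (P2 := 1239849684) (W2 := 370763052) (P3 := 1040187392) (W3 := 5207648) (N0 := 3) (En := eng) (mo := mog) (C1 := cd3q2) (C2 := cd2q2b) (C3 := pd0)
    rfl k0_pm_202_b

noncomputable def f_pm_203 : ℕ → ℕ → ℕ → ℕ → Bool := onCell 1073741824 536870912 0 536870912 1040187392 5207648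
    (rowB 3 eng mog cd3q2 cd2q3 pd0 1 false true false .up 2 0 3 (qsf 1073741824 536870912 1610612736 536870912 0) ndB3q2 ndB2q3 pcB0 Cut.none Ext.none)

def k0_pm_203 : ∃ t, chk3 f_pm_203 t 1 1 1 = true :=
  ⟨(l 3), by decide +kernel⟩

theorem c_pm_203 : CertB 1073741824 536870912 1610612736 536870912 1040187392 5207648 3 eng mog cd3q2 cd2q3 pd0 false true false .up 2 0 3
    ndB3q2 ndB2q3 pcB0 Cut.none Ext.none :=
  certB1 (fam := false) (s1 := true) (s2 := false) (a := 2) (b := 0) (c := 3) (cn := .up) (n1 := ndB3q2) (n2 := ndB2q3) (pc := pcB0) (cut := Cut.none) (xt := Ext.none) (P1 := 1073741824) (W1 := 536870912) (P2 := 1610612736) (W2 := 536870912) (P3 := 1040187392) (W3 := 5207648) (N0 := 3) (En := eng) (mo := mog) (C1 := cd3q2) (C2 := cd2q3) (C3 := pd0)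
    rfl (fun _ => rfl) k0_pm_203

noncomputable def f_pm_213 : ℕ → ℕ → ℕ → ℕ → Bool := onCell 1073741824 536870912 1610612736 536870912 1040187392 5207648
    (rowB 3 eng mog cd3q2 cd2q3 pd1 0 false true false .pnn 2 1 3 (qsf 1073741824 536870912 1610612736 536870912 1) ndB3q2 ndB2q3 pcB1 Cut.none Ext.none)

def k0_pm_213 : ∃ t, chk3 f_pm_213 t 1 1 1 = true :=
  ⟨(a (a (b (l 3) (b (l 3) (a (a (b (b (l 3) (a (b (l 3) (a (l 15675768) (l 3))) (l 3))) (b (a (b (a (l 15864144) (l 15883712)) (a (b (l 16094648) (l 16324424)) (l 16133152))) (l 3)) (a (b (a (b (l 16663584) (l 16782880)) (l 16549408)) (b (a (l 16747336) (l 16788264)) (l 16649936))) (b (b (l 16326256) (a (l 16527304) (l 3))) (b (l 16673640) (a (l 16763776) (l 16732296))))))) (l 3)) (l 3)))) (l 3)) (l 3)), by decide +kernel⟩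

theorem c_pm_213 : CertB 1073741824 536870912 1610612736 536870912 1040187392 5207648 3 eng mog cd3q2 cd2q3 pd1 false true false .pnn 2 1 3
    ndB3q2 ndB2q3 pcB1 Cut.none Ext.none :=
  certB0 (fam := false) (s1 := true) (s2 := false) (a := 2) (b := 1) (c := 3) (cn := .pnn) (n1 := ndB3q2) (n2 := ndB2q3) (pc := pcB1) (cut := Cut.none) (xt := Ext.none) (P1 := 1073741824) (W1 := 536870912) (P2 := 1610612736) (W2 := 536870912) (P3 := 1040187392) (W3 := 5207648) (N0 := 3) (En := eng) (mo := mog) (C1 := cd3q2) (C2 := cd2q3) (C3 := pd1)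
    rfl k0_pm_213

noncomputable def f_pm_303 : ℕ → ℕ → ℕ → ℕ → Bool := onCell 0 1230186008 1610612736 536870912 1040187392 5207648
    (rowB 3 eng mog cd3q3 cd2q3 pd0 0 false true false .npn 3 0 3 (qsf 0 1230186008 1610612736 536870912 0) ndB3q3 ndB2q3 pcB0 Cut.none Ext.none)

def k0_pm_303 : ∃ t, chk3 f_pm_303 t 1 1 1 = true :=
  ⟨(a (l 3) (l 3)), by decide +kernel⟩

theorem c_pm_303 : CertB 0 1230186008 1610612736 536870912 1040187392 5207648 3 eng mog cd3q3 cd2q3 pd0 false true false .npn 3 0 3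
    ndB3q3 ndB2q3 pcB0 Cut.none Ext.none :=
  certB0 (fam := false) (s1 := true) (s2 := false) (a := 3) (b := 0) (c := 3) (cn := .npn) (n1 := ndB3q3) (n2 := ndB2q3) (pc := pcB0) (cut := Cut.none) (xt := Ext.none) (P1 := 0) (W1 := 1230186008) (P2 := 1610612736) (W2 := 536870912) (P3 := 1040187392) (W3 := 5207648) (N0 := 3) (En := eng) (mo := mog) (C1 := cd3q3) (C2 := cd2q3) (C3 := pd0)
    rfl k0_pm_303

noncomputable def f_pm_313 : ℕ → ℕ → ℕ → ℕ → Bool := onCell 0 1230186008 1610612736 536870912 1040187392 5207648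
    (rowB 3 eng mog cd3q3 cd2q3 pd1 0 false true false .dn 3 1 3 (qsf 0 1230186008 1610612736 536870912 1) ndB3q3 ndB2q3 pcB1 Cut.none Ext.none)

def k0_pm_313 : ∃ t, chk3 f_pm_313 t 1 1 1 = true :=
  ⟨(a (l 1) (l 3)), by decide +kernel⟩

theorem c_pm_313 : CertB 0 1230186008 1610612736 536870912 1040187392 5207648 3 eng mog cd3q3 cd2q3 pd1 false true false .dn 3 1 3
    ndB3q3 ndB2q3 pcB1 Cut.none Ext.none :=
  certB0 (fam := false) (s1 := true) (s2 := false) (a := 3) (b := 1) (c := 3) (cn := .dn) (n1 := ndB3q3) (n2 := ndB2q3) (pc := pcB1) (cut := Cut.none) (xt := Ext.none) (P1 := 0) (W1 := 1230186008) (P2 := 1610612736) (W2 := 536870912) (P3 := 1040187392) (W3 := 5207648) (N0 := 3) (En := eng) (mo := mog) (C1 := cd3q3) (C2 := cd2q3) (C3 := pd1)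
    rfl k0_pm_313

noncomputable def f_mm_001 : ℕ → ℕ → ℕ → ℕ → Bool := onCell 0 536870912 536870912 536870912 1040187392 5207648
    (rowB 3 eng mog cd3q0 cd2q1 pd0 0 false false false .up 0 0 1 (qsf 0 536870912 536870912 536870912 0) ndB3q0 ndB2q1 pcB0 Cut.none Ext.none)

def k0_mm_001 : ∃ t, chk3 f_mm_001 t 1 1 1 = true :=
  ⟨(l 3), by decide +kernel⟩

theorem c_mm_001 : CertB 0 536870912 536870912 536870912 1040187392 5207648 3 eng mog cd3q0 cd2q1 pd0 false false false .up 0 0 1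
    ndB3q0 ndB2q1 pcB0 Cut.none Ext.none :=
  certB0 (fam := false) (s1 := false) (s2 := false) (a := 0) (b := 0) (c := 1) (cn := .up) (n1 := ndB3q0) (n2 := ndB2q1) (pc := pcB0) (cut := Cut.none) (xt := Ext.none) (P1 := 0) (W1 := 536870912) (P2 := 536870912) (W2 := 536870912) (P3 := 1040187392) (W3 := 5207648) (N0 := 3) (En := eng) (mo := mog) (C1 := cd3q0) (C2 := cd2q1) (C3 := pd0)
    rfl k0_mm_001

noncomputable def f_mm_011 : ℕ → ℕ → ℕ → ℕ → Bool := onCell 0 536870912 536870912 536870912 1040187392 5207648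
    (rowB 3 eng mog cd3q0 cd2q1 pd1 0 false false false .pnn 0 1 1 (qsf 0 536870912 536870912 536870912 1) ndB3q0 ndB2q1 pcB1 Cut.none Ext.none)

def k0_mm_011 : ∃ t, chk3 f_mm_011 t 1 1 1 = true :=
  ⟨(l 3), by decide +kernel⟩

theorem c_mm_011 : CertB 0 536870912 536870912 536870912 1040187392 5207648 3 eng mog cd3q0 cd2q1 pd1 false false false .pnn 0 1 1
    ndB3q0 ndB2q1 pcB1 Cut.none Ext.none :=
  certB0 (fam := false) (s1 := false) (s2 := false) (a := 0) (b := 1) (c := 1) (cn := .pnn) (n1 := ndB3q0) (n2 := ndB2q1) (pc := pcB1) (cut := Cut.none) (xt := Ext.none) (P1 := 0) (W1 := 536870912) (P2 := 536870912) (W2 := 536870912) (P3 := 1040187392) (W3 := 5207648) (N0 := 3) (En := eng) (mo := mog) (C1 := cd3q0) (C2 := cd2q1) (C3 := pd1)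
    rfl k0_mm_011

noncomputable def f_mm_012_a : ℕ → ℕ → ℕ → ℕ → Bool := onCell 0 536870912 0 536870912 1040187392 5207648
    (rowB 3 eng mog cd3q0 cd2q2a pd1 0 false false false .pnp 0 1 2 (qsf 0 536870912 0 536870912 1) ndB3q0 ndB2q2a pcB1 Cut.none Ext.none)

def k0_mm_012_a : ∃ t, chk3 f_mm_012_a t 1 1 1 = true :=
  ⟨(l 5), by decide +kernel⟩

theorem c_mm_012_a : CertB 0 536870912 0 536870912 1040187392 5207648 3 eng mog cd3q0 cd2q2a pd1 false false false .pnp 0 1 2
    ndB3q0 ndB2q2a pcB1 Cut.none Ext.none :=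
  certB0 (fam := false) (s1 := false) (s2 := false) (a := 0) (b := 1) (c := 2) (cn := .pnp) (n1 := ndB3q0) (n2 := ndB2q2a) (pc := pcB1) (cut := Cut.none) (xt := Ext.none) (P1 := 0) (W1 := 536870912) (P2 := 0) (W2 := 536870912) (P3 := 1040187392) (W3 := 5207648) (N0 := 3) (En := eng) (mo := mog) (C1 := cd3q0) (C2 := cd2q2a) (C3 := pd1)
    rfl k0_mm_012_a

noncomputable def f_mm_012_b : ℕ → ℕ → ℕ → ℕ → Bool := onCell 0 536870912 1239849684 370763052 1040187392 5207648
    (rowB 3 eng mog cd3q0 cd2q2b pd1 0 false false false .pnp 0 1 2 (qsf 0 536870912 1239849684 370763052 1) ndB3q0 ndB2q2b pcB1 Cut.none Ext.none)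

def k0_mm_012_b : ∃ t, chk3 f_mm_012_b t 1 1 1 = true :=
  ⟨(l 5), by decide +kernel⟩

theorem c_mm_012_b : CertB 0 536870912 1239849684 370763052 1040187392 5207648 3 eng mog cd3q0 cd2q2b pd1 false false false .pnp 0 1 2
    ndB3q0 ndB2q2b pcB1 Cut.none Ext.none :=
  certB0 (fam := false) (s1 := false) (s2 := false) (a := 0) (b := 1) (c := 2) (cn := .pnp) (n1 := ndB3q0) (n2 := ndB2q2b) (pc := pcB1) (cut := Cut.none) (xt := Ext.none) (P1 := 0) (W1 := 536870912) (P2 := 1239849684) (W2 := 370763052) (P3 := 1040187392) (W3 := 5207648) (N0 := 3) (En := eng) (mo := mog) (C1 := cd3q0) (C2 := cd2q2b) (C3 := pd1)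
    rfl k0_mm_012_b

noncomputable def f_mm_022_a : ℕ → ℕ → ℕ → ℕ → Bool := onCell 0 536870912 0 536870912 1040187392 5207648
    (rowB 3 eng mog cd3q0 cd2q2a pd2 0 false false false .pp 0 2 2 (qsf 0 536870912 0 536870912 2) ndB3q0 ndB2q2a pcB2 Cut.none Ext.none)

def k0_mm_022_a : ∃ t, chk3 f_mm_022_a t 1 1 1 = true :=
  ⟨(l 5), by decide +kernel⟩

theorem c_mm_022_a : CertB 0 536870912 0 536870912 1040187392 5207648 3 eng mog cd3q0 cd2q2a pd2 false false false .pp 0 2 2
    ndB3q0 ndB2q2a pcB2 Cut.none Ext.none :=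
  certB0 (fam := false) (s1 := false) (s2 := false) (a := 0) (b := 2) (c := 2) (cn := .pp) (n1 := ndB3q0) (n2 := ndB2q2a) (pc := pcB2) (cut := Cut.none) (xt := Ext.none) (P1 := 0) (W1 := 536870912) (P2 := 0) (W2 := 536870912) (P3 := 1040187392) (W3 := 5207648) (N0 := 3) (En := eng) (mo := mog) (C1 := cd3q0) (C2 := cd2q2a) (C3 := pd2)
    rfl k0_mm_022_a

noncomputable def f_mm_022_b : ℕ → ℕ → ℕ → ℕ → Bool := onCell 0 536870912 1239849684 370763052 1040187392 5207648
    (rowB 3 eng mog cd3q0 cd2q2b pd2 0 false false false .pp 0 2 2 (qsf 0 536870912 1239849684 370763052 2) ndB3q0 ndB2q2b pcB2 Cut.none Ext.none)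

def k0_mm_022_b : ∃ t, chk3 f_mm_022_b t 1 1 1 = true :=
  ⟨(l 5), by decide +kernel⟩

theorem c_mm_022_b : CertB 0 536870912 1239849684 370763052 1040187392 5207648 3 eng mog cd3q0 cd2q2b pd2 false false false .pp 0 2 2
    ndB3q0 ndB2q2b pcB2 Cut.none Ext.none :=
  certB0 (fam := false) (s1 := false) (s2 := false) (a := 0) (b := 2) (c := 2) (cn := .pp) (n1 := ndB3q0) (n2 := ndB2q2b) (pc := pcB2) (cut := Cut.none) (xt := Ext.none) (P1 := 0) (W1 := 536870912) (P2 := 1239849684) (W2 := 370763052) (P3 := 1040187392) (W3 := 5207648) (N0 := 3) (En := eng) (mo := mog) (C1 := cd3q0) (C2 := cd2q2b) (C3 := pd2)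
    rfl k0_mm_022_b

noncomputable def f_mm_023 : ℕ → ℕ → ℕ → ℕ → Bool := onCell 0 536870912 1610612736 536870912 1040187392 5207648
    (rowB 3 eng mog cd3q0 cd2q3 pd2 0 false false false .up 0 2 3 (qsf 0 536870912 1610612736 536870912 2) ndB3q0 ndB2q3 pcB2 Cut.none Ext.none)

def k0_mm_023 : ∃ t, chk3 f_mm_023 t 1 1 1 = true :=
  ⟨(l 5), by decide +kernel⟩

theorem c_mm_023 : CertB 0 536870912 1610612736 536870912 1040187392 5207648 3 eng mog cd3q0 cd2q3 pd2 false false false .up 0 2 3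
    ndB3q0 ndB2q3 pcB2 Cut.none Ext.none :=
  certB0 (fam := false) (s1 := false) (s2 := false) (a := 0) (b := 2) (c := 3) (cn := .up) (n1 := ndB3q0) (n2 := ndB2q3) (pc := pcB2) (cut := Cut.none) (xt := Ext.none) (P1 := 0) (W1 := 536870912) (P2 := 1610612736) (W2 := 536870912) (P3 := 1040187392) (W3 := 5207648) (N0 := 3) (En := eng) (mo := mog) (C1 := cd3q0) (C2 := cd2q3) (C3 := pd2)
    rfl k0_mm_023

noncomputable def f_mm_033 : ℕ → ℕ → ℕ → ℕ → Bool := onCell 0 536870912 1610612736 536870912 1040187392 5207648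
    (rowB 3 eng mog cd3q0 cd2q3 pd3 0 false false false .pnn 0 3 3 (qsf 0 536870912 1610612736 536870912 3) ndB3q0 ndB2q3 pcB3 Cut.none Ext.none)

def k0_mm_033 : ∃ t, chk3 f_mm_033 t 1 1 1 = true :=
  ⟨(l 5), by decide +kernel⟩

theorem c_mm_033 : CertB 0 536870912 1610612736 536870912 1040187392 5207648 3 eng mog cd3q0 cd2q3 pd3 false false false .pnn 0 3 3
    ndB3q0 ndB2q3 pcB3 Cut.none Ext.none :=
  certB0 (fam := false) (s1 := false) (s2 := false) (a := 0) (b := 3) (c := 3) (cn := .pnn) (n1 := ndB3q0) (n2 := ndB2q3) (pc := pcB3) (cut := Cut.none) (xt := Ext.none) (P1 := 0) (W1 := 536870912) (P2 := 1610612736) (W2 := 536870912) (P3 := 1040187392) (W3 := 5207648) (N0 := 3) (En := eng) (mo := mog) (C1 := cd3q0) (C2 := cd2q3) (C3 := pd3)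
    rfl k0_mm_033

noncomputable def f_mm_101 : ℕ → ℕ → ℕ → ℕ → Bool := onCell 536870912 536870912 536870912 536870912 1040187392 5207648
    (rowB 3 eng mog cd3q1 cd2q1 pd0 0 false false false .npn 1 0 1 (qsf 536870912 536870912 536870912 536870912 0) ndB3q1 ndB2q1 pcB0 Cut.none Ext.none)

def k0_mm_101 : ∃ t, chk3 f_mm_101 t 1 1 1 = true :=
  ⟨(l 3), by decide +kernel⟩

theorem c_mm_101 : CertB 536870912 536870912 536870912 536870912 1040187392 5207648 3 eng mog cd3q1 cd2q1 pd0 false false false .npn 1 0 1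
    ndB3q1 ndB2q1 pcB0 Cut.none Ext.none :=
  certB0 (fam := false) (s1 := false) (s2 := false) (a := 1) (b := 0) (c := 1) (cn := .npn) (n1 := ndB3q1) (n2 := ndB2q1) (pc := pcB0) (cut := Cut.none) (xt := Ext.none) (P1 := 536870912) (W1 := 536870912) (P2 := 536870912) (W2 := 536870912) (P3 := 1040187392) (W3 := 5207648) (N0 := 3) (En := eng) (mo := mog) (C1 := cd3q1) (C2 := cd2q1) (C3 := pd0)
    rfl k0_mm_101

noncomputable def f_mm_102_a : ℕ → ℕ → ℕ → ℕ → Bool := onCell 536870912 536870912 0 536870912 1040187392 5207648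
    (rowB 3 eng mog cd3q1 cd2q2a pd0 0 false false false .npp 1 0 2 (qsf 536870912 536870912 0 536870912 0) ndB3q1 ndB2q2a pcB0 Cut.none Ext.none)

def k0_mm_102_a : ∃ t, chk3 f_mm_102_a t 1 1 1 = true :=
  ⟨(l 5), by decide +kernel⟩

theorem c_mm_102_a : CertB 536870912 536870912 0 536870912 1040187392 5207648 3 eng mog cd3q1 cd2q2a pd0 false false false .npp 1 0 2
    ndB3q1 ndB2q2a pcB0 Cut.none Ext.none :=
  certB0 (fam := false) (s1 := false) (s2 := false) (a := 1) (b := 0) (c := 2) (cn := .npp) (n1 := ndB3q1) (n2 := ndB2q2a) (pc := pcB0) (cut := Cut.none) (xt := Ext.none) (P1 := 536870912) (W1 := 536870912) (P2 := 0) (W2 := 536870912) (P3 := 1040187392) (W3 := 5207648) (N0 := 3) (En := eng) (mo := mog) (C1 := cd3q1) (C2 := cd2q2a) (C3 := pd0)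
    rfl k0_mm_102_a

noncomputable def f_mm_102_b : ℕ → ℕ → ℕ → ℕ → Bool := onCell 536870912 536870912 1239849684 370763052 1040187392 5207648
    (rowB 3 eng mog cd3q1 cd2q2b pd0 0 false false false .npp 1 0 2 (qsf 536870912 536870912 1239849684 370763052 0) ndB3q1 ndB2q2b pcB0 Cut.none Ext.none)

def k0_mm_102_b : ∃ t, chk3 f_mm_102_b t 1 1 1 = true :=
  ⟨(l 5), by decide +kernel⟩

theorem c_mm_102_b : CertB 536870912 536870912 1239849684 370763052 1040187392 5207648 3 eng mog cd3q1 cd2q2b pd0 false false false .npp 1 0 2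
    ndB3q1 ndB2q2b pcB0 Cut.none Ext.none :=
  certB0 (fam := false) (s1 := false) (s2 := false) (a := 1) (b := 0) (c := 2) (cn := .npp) (n1 := ndB3q1) (n2 := ndB2q2b) (pc := pcB0) (cut := Cut.none) (xt := Ext.none) (P1 := 536870912) (W1 := 536870912) (P2 := 1239849684) (W2 := 370763052) (P3 := 1040187392) (W3 := 5207648) (N0 := 3) (En := eng) (mo := mog) (C1 := cd3q1) (C2 := cd2q2b) (C3 := pd0)
    rfl k0_mm_102_b

noncomputable def f_mm_112_a : ℕ → ℕ → ℕ → ℕ → Bool := onCell 536870912 536870912 0 536870912 1040187392 5207648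
    (rowB 3 eng mog cd3q1 cd2q2a pd1 0 false false false .dn 1 1 2 (qsf 536870912 536870912 0 536870912 1) ndB3q1 ndB2q2a pcB1 Cut.none Ext.none)

def k0_mm_112_a : ∃ t, chk3 f_mm_112_a t 1 1 1 = true :=
  ⟨(l 5), by decide +kernel⟩

theorem c_mm_112_a : CertB 536870912 536870912 0 536870912 1040187392 5207648 3 eng mog cd3q1 cd2q2a pd1 false false false .dn 1 1 2
    ndB3q1 ndB2q2a pcB1 Cut.none Ext.none :=
  certB0 (fam := false) (s1 := false) (s2 := false) (a := 1) (b := 1) (c := 2) (cn := .dn) (n1 := ndB3q1) (n2 := ndB2q2a) (pc := pcB1) (cut := Cut.none) (xt := Ext.none) (P1 := 536870912) (W1 := 536870912) (P2 := 0) (W2 := 536870912) (P3 := 1040187392) (W3 := 5207648) (N0 := 3) (En := eng) (mo := mog) (C1 := cd3q1) (C2 := cd2q2a) (C3 := pd1)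
    rfl k0_mm_112_a

noncomputable def f_mm_112_b : ℕ → ℕ → ℕ → ℕ → Bool := onCell 536870912 536870912 1239849684 370763052 1040187392 5207648
    (rowB 3 eng mog cd3q1 cd2q2b pd1 0 false false false .dn 1 1 2 (qsf 536870912 536870912 1239849684 370763052 1) ndB3q1 ndB2q2b pcB1 Cut.none Ext.none)

def k0_mm_112_b : ∃ t, chk3 f_mm_112_b t 1 1 1 = true :=
  ⟨(l 5), by decide +kernel⟩

theorem c_mm_112_b : CertB 536870912 536870912 1239849684 370763052 1040187392 5207648 3 eng mog cd3q1 cd2q2b pd1 false false false .dn 1 1 2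
    ndB3q1 ndB2q2b pcB1 Cut.none Ext.none :=
  certB0 (fam := false) (s1 := false) (s2 := false) (a := 1) (b := 1) (c := 2) (cn := .dn) (n1 := ndB3q1) (n2 := ndB2q2b) (pc := pcB1) (cut := Cut.none) (xt := Ext.none) (P1 := 536870912) (W1 := 536870912) (P2 := 1239849684) (W2 := 370763052) (P3 := 1040187392) (W3 := 5207648) (N0 := 3) (En := eng) (mo := mog) (C1 := cd3q1) (C2 := cd2q2b) (C3 := pd1)
    rfl k0_mm_112_b

noncomputable def f_mm_113 : ℕ → ℕ → ℕ → ℕ → Bool := onCell 536870912 536870912 1610612736 536870912 1040187392 5207648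
    (rowB 3 eng mog cd3q1 cd2q3 pd1 0 false false false .nn 1 1 3 (qsf 536870912 536870912 1610612736 536870912 1) ndB3q1 ndB2q3 pcB1 Cut.none Ext.none)

def k0_mm_113 : ∃ t, chk3 f_mm_113 t 1 1 1 = true :=
  ⟨(l 5), by decide +kernel⟩

theorem c_mm_113 : CertB 536870912 536870912 1610612736 536870912 1040187392 5207648 3 eng mog cd3q1 cd2q3 pd1 false false false .nn 1 1 3
    ndB3q1 ndB2q3 pcB1 Cut.none Ext.none :=
  certB0 (fam := false) (s1 := false) (s2 := false) (a := 1) (b := 1) (c := 3) (cn := .nn) (n1 := ndB3q1) (n2 := ndB2q3) (pc := pcB1) (cut := Cut.none) (xt := Ext.none) (P1 := 536870912) (W1 := 536870912) (P2 := 1610612736) (W2 := 536870912) (P3 := 1040187392) (W3 := 5207648) (N0 := 3) (En := eng) (mo := mog) (C1 := cd3q1) (C2 := cd2q3) (C3 := pd1)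
    rfl k0_mm_113

noncomputable def f_mm_123 : ℕ → ℕ → ℕ → ℕ → Bool := onCell 536870912 536870912 1610612736 536870912 1040187392 5207648
    (rowB 3 eng mog cd3q1 cd2q3 pd2 0 false false false .npn 1 2 3 (qsf 536870912 536870912 1610612736 536870912 2) ndB3q1 ndB2q3 pcB2 Cut.none Ext.none)

def k0_mm_123 : ∃ t, chk3 f_mm_123 t 1 1 1 = true :=
  ⟨(l 5), by decide +kernel⟩

theorem c_mm_123 : CertB 536870912 536870912 1610612736 536870912 1040187392 5207648 3 eng mog cd3q1 cd2q3 pd2 false false false .npn 1 2 3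
    ndB3q1 ndB2q3 pcB2 Cut.none Ext.none :=
  certB0 (fam := false) (s1 := false) (s2 := false) (a := 1) (b := 2) (c := 3) (cn := .npn) (n1 := ndB3q1) (n2 := ndB2q3) (pc := pcB2) (cut := Cut.none) (xt := Ext.none) (P1 := 536870912) (W1 := 536870912) (P2 := 1610612736) (W2 := 536870912) (P3 := 1040187392) (W3 := 5207648) (N0 := 3) (En := eng) (mo := mog) (C1 := cd3q1) (C2 := cd2q3) (C3 := pd2)
    rfl k0_mm_123

noncomputable def f_mm_133 : ℕ → ℕ → ℕ → ℕ → Bool := onCell 536870912 536870912 1610612736 536870912 1040187392 5207648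
    (rowB 3 eng mog cd3q1 cd2q3 pd3 0 false false false .dn 1 3 3 (qsf 536870912 536870912 1610612736 536870912 3) ndB3q1 ndB2q3 pcB3 Cut.none Ext.none)

def k0_mm_133 : ∃ t, chk3 f_mm_133 t 1 1 1 = true :=
  ⟨(l 5), by decide +kernel⟩

theorem c_mm_133 : CertB 536870912 536870912 1610612736 536870912 1040187392 5207648 3 eng mog cd3q1 cd2q3 pd3 false false false .dn 1 3 3
    ndB3q1 ndB2q3 pcB3 Cut.none Ext.none :=
  certB0 (fam := false) (s1 := false) (s2 := false) (a := 1) (b := 3) (c := 3) (cn := .dn) (n1 := ndB3q1) (n2 := ndB2q3) (pc := pcB3) (cut := Cut.none) (xt := Ext.none) (P1 := 536870912) (W1 := 536870912) (P2 := 1610612736) (W2 := 536870912) (P3 := 1040187392) (W3 := 5207648) (N0 := 3) (En := eng) (mo := mog) (C1 := cd3q1) (C2 := cd2q3) (C3 := pd3)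
    rfl k0_mm_133

noncomputable def f_mm_202_a : ℕ → ℕ → ℕ → ℕ → Bool := onCell 1073741824 536870912 0 536870912 1040187392 5207648
    (rowB 3 eng mog cd3q2 cd2q2a pd0 0 false false false .pp 2 0 2 (qsf 1073741824 536870912 0 536870912 0) ndB3q2 ndB2q2a pcB0 Cut.none Ext.none)

def k0_mm_202_a : ∃ t, chk3 f_mm_202_a t 1 1 1 = true :=
  ⟨(l 3), by decide +kernel⟩

theorem c_mm_202_a : CertB 1073741824 536870912 0 536870912 1040187392 5207648 3 eng mog cd3q2 cd2q2a pd0 false false false .pp 2 0 2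
    ndB3q2 ndB2q2a pcB0 Cut.none Ext.none :=
  certB0 (fam := false) (s1 := false) (s2 := false) (a := 2) (b := 0) (c := 2) (cn := .pp) (n1 := ndB3q2) (n2 := ndB2q2a) (pc := pcB0) (cut := Cut.none) (xt := Ext.none) (P1 := 1073741824) (W1 := 536870912) (P2 := 0) (W2 := 536870912) (P3 := 1040187392) (W3 := 5207648) (N0 := 3) (En := eng) (mo := mog) (C1 := cd3q2) (C2 := cd2q2a) (C3 := pd0)
    rfl k0_mm_202_a

noncomputable def f_mm_202_b : ℕ → ℕ → ℕ → ℕ → Bool := onCell 1073741824 536870912 1239849684 370763052 1040187392 5207648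
    (rowB 3 eng mog cd3q2 cd2q2b pd0 0 false false false .pp 2 0 2 (qsf 1073741824 536870912 1239849684 370763052 0) ndB3q2 ndB2q2b pcB0 Cut.none Ext.none)

def k0_mm_202_b : ∃ t, chk3 f_mm_202_b t 1 1 1 = true :=
  ⟨(l 3), by decide +kernel⟩

theorem c_mm_202_b : CertB 1073741824 536870912 1239849684 370763052 1040187392 5207648 3 eng mog cd3q2 cd2q2b pd0 false false false .pp 2 0 2
    ndB3q2 ndB2q2b pcB0 Cut.none Ext.none :=
  certB0 (fam := false) (s1 := false) (s2 := false) (a := 2) (b := 0) (c := 2) (cn := .pp) (n1 := ndB3q2) (n2 := ndB2q2b) (pc := pcB0) (cut := Cut.none) (xt := Ext.none) (P1 := 1073741824) (W1 := 536870912) (P2 := 1239849684) (W2 := 370763052) (P3 := 1040187392) (W3 := 5207648) (N0 := 3) (En := eng) (mo := mog) (C1 := cd3q2) (C2 := cd2q2b) (C3 := pd0)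
    rfl k0_mm_202_b

noncomputable def f_mm_203 : ℕ → ℕ → ℕ → ℕ → Bool := onCell 1073741824 536870912 1610612736 536870912 1040187392 5207648
    (rowB 3 eng mog cd3q2 cd2q3 pd0 0 false false false .up 2 0 3 (qsf 1073741824 536870912 1610612736 536870912 0) ndB3q2 ndB2q3 pcB0 Cut.none Ext.none)

def k0_mm_203 : ∃ t, chk3 f_mm_203 t 1 1 1 = true :=
  ⟨(l 5), by decide +kernel⟩

theorem c_mm_203 : CertB 1073741824 536870912 1610612736 536870912 1040187392 5207648 3 eng mog cd3q2 cd2q3 pd0 false false false .up 2 0 3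
    ndB3q2 ndB2q3 pcB0 Cut.none Ext.none :=
  certB0 (fam := false) (s1 := false) (s2 := false) (a := 2) (b := 0) (c := 3) (cn := .up) (n1 := ndB3q2) (n2 := ndB2q3) (pc := pcB0) (cut := Cut.none) (xt := Ext.none) (P1 := 1073741824) (W1 := 536870912) (P2 := 1610612736) (W2 := 536870912) (P3 := 1040187392) (W3 := 5207648) (N0 := 3) (En := eng) (mo := mog) (C1 := cd3q2) (C2 := cd2q3) (C3 := pd0)
    rfl k0_mm_203

noncomputable def f_mm_213 : ℕ → ℕ → ℕ → ℕ → Bool := onCell 1073741824 536870912 1610612736 536870912 1040187392 5207648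
    (rowB 3 eng mog cd3q2 cd2q3 pd1 0 false false false .pnn 2 1 3 (qsf 1073741824 536870912 1610612736 536870912 1) ndB3q2 ndB2q3 pcB1 Cut.none Ext.none)

def k0_mm_213 : ∃ t, chk3 f_mm_213 t 1 1 1 = true :=
  ⟨(l 5), by decide +kernel⟩

theorem c_mm_213 : CertB 1073741824 536870912 1610612736 536870912 1040187392 5207648 3 eng mog cd3q2 cd2q3 pd1 false false false .pnn 2 1 3
    ndB3q2 ndB2q3 pcB1 Cut.none Ext.none :=
  certB0 (fam := false) (s1 := false) (s2 := false) (a := 2) (b := 1) (c := 3) (cn := .pnn) (n1 := ndB3q2) (n2 := ndB2q3) (pc := pcB1) (cut := Cut.none) (xt := Ext.none) (P1 := 1073741824) (W1 := 536870912) (P2 := 1610612736) (W2 := 536870912) (P3 := 1040187392) (W3 := 5207648) (N0 := 3) (En := eng) (mo := mog) (C1 := cd3q2) (C2 := cd2q3) (C3 := pd1)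
    rfl k0_mm_213

noncomputable def f_mm_303 : ℕ → ℕ → ℕ → ℕ → Bool := onCell 0 1230186008 1610612736 536870912 1040187392 5207648
    (rowB 3 eng mog cd3q3 cd2q3 pd0 0 false false false .npn 3 0 3 (qsf 0 1230186008 1610612736 536870912 0) ndB3q3 ndB2q3 pcB0 Cut.none Ext.none)

def k0_mm_303 : ∃ t, chk3 f_mm_303 t 1 1 1 = true :=
  ⟨(a (l 3) (l 3)), by decide +kernel⟩

theorem c_mm_303 : CertB 0 1230186008 1610612736 536870912 1040187392 5207648 3 eng mog cd3q3 cd2q3 pd0 false false false .npn 3 0 3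
    ndB3q3 ndB2q3 pcB0 Cut.none Ext.none :=
  certB0 (fam := false) (s1 := false) (s2 := false) (a := 3) (b := 0) (c := 3) (cn := .npn) (n1 := ndB3q3) (n2 := ndB2q3) (pc := pcB0) (cut := Cut.none) (xt := Ext.none) (P1 := 0) (W1 := 1230186008) (P2 := 1610612736) (W2 := 536870912) (P3 := 1040187392) (W3 := 5207648) (N0 := 3) (En := eng) (mo := mog) (C1 := cd3q3) (C2 := cd2q3) (C3 := pd0)
    rfl k0_mm_303

noncomputable def f_mm_313 : ℕ → ℕ → ℕ → ℕ → Bool := onCell 0 1230186008 1610612736 536870912 1040187392 5207648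
    (rowB 3 eng mog cd3q3 cd2q3 pd1 0 false false false .dn 3 1 3 (qsf 0 1230186008 1610612736 536870912 1) ndB3q3 ndB2q3 pcB1 Cut.none Ext.none)

def k0_mm_313 : ∃ t, chk3 f_mm_313 t 1 1 1 = true :=
  ⟨(a (l 1) (l 3)), by decide +kernel⟩

theorem c_mm_313 : CertB 0 1230186008 1610612736 536870912 1040187392 5207648 3 eng mog cd3q3 cd2q3 pd1 false false false .dn 3 1 3
    ndB3q3 ndB2q3 pcB1 Cut.none Ext.none :=
  certB0 (fam := false) (s1 := false) (s2 := false) (a := 3) (b := 1) (c := 3) (cn := .dn) (n1 := ndB3q3) (n2 := ndB2q3) (pc := pcB1) (cut := Cut.none) (xt := Ext.none) (P1 := 0) (W1 := 1230186008) (P2 := 1610612736) (W2 := 536870912) (P3 := 1040187392) (W3 := 5207648) (N0 := 3) (En := eng) (mo := mog) (C1 := cd3q3) (C2 := cd2q3) (C3 := pd1)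
    rfl k0_mm_313

end Pool.Agent.Strip051.G.I9688_9736.Tab.C.BB32

namespace Pool.Agent.Strip051.G.I9688_9736.Tab.C.BB33

open Pool.Agent.Strip051.PB Pool.Agent.Strip051.PB.T
open Pool.Agent.Strip051.G.I9688_9736.Tab

noncomputable def f_pp_001 : ℕ → ℕ → ℕ → ℕ → Bool := onCell 0 536870912 0 536870912 1040187392 5207648
    (rowB 3 eng mog cd3q0 cd3q1 pd0 1 false true true .up 0 0 1 (qsf 0 536870912 536870912 536870912 0) ndB3q0 ndB3q1 pcB0 Cut.none Ext.none)

def k0_pp_001 : ∃ t, chk3 f_pp_001 t 1 1 1 = true :=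
  ⟨(l 3), by decide +kernel⟩

theorem c_pp_001 : CertB 0 536870912 536870912 536870912 1040187392 5207648 3 eng mog cd3q0 cd3q1 pd0 false true true .up 0 0 1
    ndB3q0 ndB3q1 pcB0 Cut.none Ext.none :=
  certB1 (fam := false) (s1 := true) (s2 := true) (a := 0) (b := 0) (c := 1) (cn := .up) (n1 := ndB3q0) (n2 := ndB3q1) (pc := pcB0) (cut := Cut.none) (xt := Ext.none) (P1 := 0) (W1 := 536870912) (P2 := 536870912) (W2 := 536870912) (P3 := 1040187392) (W3 := 5207648) (N0 := 3) (En := eng) (mo := mog) (C1 := cd3q0) (C2 := cd3q1) (C3 := pd0)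
    rfl (fun _ => rfl) k0_pp_001

noncomputable def f_pp_011 : ℕ → ℕ → ℕ → ℕ → Bool := onCell 0 536870912 536870912 536870912 1040187392 5207648
    (rowB 3 eng mog cd3q0 cd3q1 pd1 1 false true true .pnn 0 1 1 (qsf 0 536870912 536870912 536870912 1) ndB3q0 ndB3q1 pcB1 Cut.none Ext.none)

def k0_pp_011 : ∃ t, chk3 f_pp_011 t 1 1 1 = true :=
  ⟨(a (b (l 3) (l 3)) (l 3)), by decide +kernel⟩

theorem c_pp_011 : CertB 0 536870912 536870912 536870912 1040187392 5207648 3 eng mog cd3q0 cd3q1 pd1 false true true .pnn 0 1 1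
    ndB3q0 ndB3q1 pcB1 Cut.none Ext.none :=
  certB1 (fam := false) (s1 := true) (s2 := true) (a := 0) (b := 1) (c := 1) (cn := .pnn) (n1 := ndB3q0) (n2 := ndB3q1) (pc := pcB1) (cut := Cut.none) (xt := Ext.none) (P1 := 0) (W1 := 536870912) (P2 := 536870912) (W2 := 536870912) (P3 := 1040187392) (W3 := 5207648) (N0 := 3) (En := eng) (mo := mog) (C1 := cd3q0) (C2 := cd3q1) (C3 := pd1)
    rfl (fun _ => rfl) k0_pp_011

noncomputable def xt_pp_012 : Ext := extD3 3 ⟨4, 1, 1, 5, 33, 5, 163, 200, 81, 200, 1, 64⟩ eng cd3q0 cd3q2 pd1 false true true .pnp 0 1 2 rfl ndB3q0 ndB3q2 pcB1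

noncomputable def f_pp_012 : ℕ → ℕ → ℕ → ℕ → Bool := onCell 0 536870912 536870912 536870912 1040187392 5207648
    (rowB 3 eng mog cd3q0 cd3q2 pd1 1 false true true .pnp 0 1 2 (qsf 0 536870912 1073741824 536870912 1) ndB3q0 ndB3q2 pcB1 Cut.none xt_pp_012)

def k0_pp_012 : ∃ t, chk3 f_pp_012 t 2 2 1 = true :=
  ⟨(a (l 1) (l 3)), by decide +kernel⟩

def k1_pp_012 : ∃ t, chk3 f_pp_012 t 4 3 1 = true :=
  ⟨(b (l 3) (a (b (l 3) (b (a (l 3) (a (b (l 3) (a (l 3) (b (l 3) (l 609515738583)))) (b (a (l 3) (l 648169336439)) (b (a (l 666960687607) (l 16240672)) (l 16298360))))) (b (a (a (l 3) (b (l 3) (a (a (l 3) (l 665350647367)) (a (l 638506994311) (l 16662088))))) (a (a (a (b (l 642265159975) (l 16654224)) (b (l 16535168) (l 16629520))) (l 141720279370645567)) (l 16251688))) (a (a (b (a (l 3) (a (l 3) (l 670182386583))) (a (b (l 3) (l 495699501751)) (b (l 687362200727) (l 16615760)))) (a (b (a (l 575692997959) (l 16628968)) (a (l 16591448) (l 16575416))) (b (l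 584955908549009246465663) (l 16557544)))) (a (a (a (l 16573224) (l 16542352)) (l 16442128)) (l 16240616)))))) (b (b (a (l 3) (a (b (l 3) (l 502140245463)) (b (l 366848425943) (a (l 319067150311) (l 15625120))))) (a (b (a (l 3) (l 643337217415)) (a (a (l 3) (l 642800410823)) (b (l 438252310167) (l 16025136)))) (b (a (l 342152357799) (l 15621152)) (a (l 15798216) (l 15545944))))) (b (a (b (a (b (l 512878064903) (l 16180464)) (l 15982000)) (a (l 16093760) (l 15913384))) (b (l 15364816) (l 15518928))) (a (b (l 135805730213953599) (l 15607120)) (b (l 15422208) (l 15305416))))))), by decide +kernel⟩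

def k2_pp_012 : ∃ t, chk3 f_pp_012 t 5 3 1 = true :=
  ⟨(b (a (b (l 3) (a (b (l 3) (b (l 3) (a (l 379196206023) (l 296517686935)))) (b (a (l 3) (b (l 3) (l 329266043495))) (a (b (l 299738569399) (l 15095464)) (b (l 14925368) (l 14867728)))))) (b (a (b (l 3) (a (l 3) (b (l 3) (l 338929051815)))) (b (a (l 3) (b (l 3) (l 331949092839))) (b (a (l 319064528279) (l 301347349719)) (a (l 302958297191) (l 14243800))))) (a (b (b (a (l 334634414103) (l 302421772263)) (a (l 14790312) (l 14546696))) (a (l 14675544) (l 14458752))) (b (a (l 14367216) (l 14168032)) (l 14144392))))) (b (b (a (a (a (b (a (l 319603627015) (l 15446192)) (l 15443968)) (b (l 15268536) (l 15202744))) (a (l 14999816) (l 14767072))) (a (l 14427104) (l 13993416))) (a (a (b (l 15272312) (l 15170344)) (b (l 14768352) (l 14681784))) (a (l 14255576) (l 13812856)))) (b (a (b (a (l 15086296) (l 14592096)) (a (l 15002160) (l 14501328))) (a (l 14072824) (l 13618968))) (a (a (l 14674664) (l 14338152))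 (a (l 13855128) (l 13410624)))))), by decide +kernel⟩

def k3_pp_012 : ∃ t, chk3 f_pp_012 t 6 2 1 = true :=
  ⟨(b (l 3) (a (b (l 3) (a (b (l 3) (a (l 3) (b (l 3) (l 265376845623)))) (b (b (l 3) (a (l 3) (l 288461753047))) (b (a (l 277724598055) (l 267523722183)) (a (l 273966430631) (l 13707408)))))) (b (a (l 3) (b (l 3) (a (b (l 3) (l 251416915367)) (b (l 244437399911) (l 13286320))))) (a (b (b (l 285776734903) (l 305640866535)) (b (l 13499344) (l 13487592))) (b (a (b (l 13379288) (l 13353064)) (l 13248800)) (l 13242584)))))), by decide +kernel⟩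

def k4_pp_012 : ∃ t, chk3 f_pp_012 t 7 2 1 = true :=
  ⟨(b (b (a (l 3) (b (l 3) (a (l 3) (b (l 3) (a (l 3) (b (a (l 3) (l 250878815463)) (a (l 261616245847) (b (l 268058641847) (l 12866336))))))))) (a (a (l 3) (b (l 3) (b (a (l 3) (a (l 3) (l 218130005815))) (a (a (l 3) (l 230478148951)) (b (a (l 13031968) (l 12991048)) (l 269132715479)))))) (a (b (b (l 3) (a (b (l 3) (l 203634444295)) (b (a (l 3) (l 293291690951)) (a (l 302955397559) (l 12904000))))) (a (b (b (a (l 232625416327) (l 247120857175)) (a (l 12968352) (l 12937688))) (l 12939640)) (b (a (l 12915720) (l 12892248)) (l 12886640)))) (b (b (a (b (a (l 3) (l 272353679559)) (a (l 283091117831) (l 297586565879))) (a (b (b (l 278259196247) (l 12871088)) (l 12865472)) (l 12856840))) (a (a (b (l 12891248) (l 12883328)) (l 12869304)) (l 12847184))) (a (b (l 12861816) (l 12843608)) (l 12821064)))))) (b (a (b (a (b (a (l 3) (a (l 3) (l 242289439447))) (a (b (l 13242712) (l 140821070135)) (b (l 213298444231)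 (l 13120792)))) (a (b (b (l 211150827607) (l 13054904)) (l 13040928)) (b (l 12985472) (l 12965744)))) (a (a (b (l 223499167991) (l 13179568)) (l 13094752)) (a (l 13007608) (l 12929904)))) (a (b (a (l 12911496) (l 12856488)) (l 12831736)) (b (l 12793048) (l 12735392)))) (a (b (a (a (l 13139488) (l 13039192)) (l 12906408)) (l 12915728)) (a (l 12700240) (l 12613456))))), by decide +kernel⟩

def k5_pp_012 : ∃ t, chk3 f_pp_012 t 3 3 1 = true :=
  ⟨(b (a (b (a (a (b (a (b (l 344833670583) (a (l 269671988503) (l 14094208))) (b (l 276651062455) (l 13962856))) (b (l 14010248) (l 13963864))) (b (b (l 13751504) (l 13712328)) (l 13641784))) (b (a (l 13427888) (l 13155744)) (l 13181400))) (a (a (b (l 13881576) (l 13747488)) (l 13455072)) (b (l 13048024) (l 12887928)))) (b (a (a (l 12861448) (l 12656784)) (a (l 12491120) (l 12354032))) (a (b (l 12535032) (l 12354792)) (l 12069320)))) (b (a (a (b (l 13393752) (l 13201064)) (b (l 12705248) (l 12519136))) (a (b (l 12170928)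 (l 12028952)) (l 11755040))) (a (b (a (a (l 13192512) (l 12823776)) (l 12381160)) (a (l 12862936) (l 12317104))) (a (l 11922144) (l 11657144))))), by decide +kernel⟩

theorem s6_pp_012 : ∃ t, chk3 f_pp_012 t 3 2 1 = true := ex3_a k3_pp_012 k4_pp_012

theorem s7_pp_012 : ∃ t, chk3 f_pp_012 t 3 1 1 = true := ex3_b s6_pp_012 k5_pp_012

theorem s8_pp_012 : ∃ t, chk3 f_pp_012 t 2 3 1 = true := ex3_a k1_pp_012 k2_pp_012

theorem s9_pp_012 : ∃ t, chk3 f_pp_012 t 2 1 1 = true := ex3_b k0_pp_012 s8_pp_012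

theorem s10_pp_012 : ∃ t, chk3 f_pp_012 t 1 1 1 = true := ex3_a s9_pp_012 s7_pp_012

theorem c_pp_012 : CertB 0 536870912 1073741824 536870912 1040187392 5207648 3 eng mog cd3q0 cd3q2 pd1 false true true .pnp 0 1 2
    ndB3q0 ndB3q2 pcB1 Cut.none xt_pp_012 :=
  certB1 (fam := false) (s1 := true) (s2 := true) (a := 0) (b := 1) (c := 2) (cn := .pnp) (n1 := ndB3q0) (n2 := ndB3q2) (pc := pcB1) (cut := Cut.none) (xt := xt_pp_012) (P1 := 0) (W1 := 536870912) (P2 := 1073741824) (W2 := 536870912) (P3 := 1040187392) (W3 := 5207648) (N0 := 3) (En := eng) (mo := mog) (C1 := cd3q0) (C2 := cd3q2) (C3 := pd1)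
    rfl (fun _ => rfl) s10_pp_012

noncomputable def f_pp_022 : ℕ → ℕ → ℕ → ℕ → Bool := onCell 0 536870912 1073741824 536870912 1040187392 5207648
    (rowB 3 eng mog cd3q0 cd3q2 pd2 1 false true true .pp 0 2 2 (qsf 0 536870912 1073741824 536870912 2) ndB3q0 ndB3q2 pcB2 Cut.none Ext.none)

def k0_pp_022 : ∃ t, chk3 f_pp_022 t 4 2 1 = true :=
  ⟨(b (a (b (a (a (b (b (a (b (b (b (l 493015083591) (a (l 505900068807) (l 16720304))) (a (b (b (l 582672599047) (l 584283200055)) (a (b (a (l 16731760) (l 16745232)) (l 16737472)) (l 16747576))) (a (l 16724384) (l 16704776)))) (a (b (a (b (l 16737600) (l 16742608)) (b (l 16740944) (l 16735016))) (a (l 16743000) (l 16729856))) (l 16706392))) (b (l 16617912) (l 16651512))) (a (b (a (l 16689840) (l 16697544)) (l 16705936)) (l 16640480))) (b (a (l 16650712) (l 16627456)) (l 16564416))) (a (b (b (a (l 16599696) (l 16598856)) (a (l 16587080) (l 16586712))) (a (l 16550328) (l 16570952))) (b (b (a (l 16602024) (l 16605824))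 (l 16592368)) (a (l 16573864) (l 16573832))))) (a (a (b (a (l 16558680) (l 16575488)) (l 16491512)) (b (l 16483760) (l 16448872))) (b (l 16299104) (l 16265424)))) (a (a (b (b (l 16537752) (l 16486984)) (b (l 16436168) (l 16406632))) (a (b (a (l 16552024) (l 16550616)) (a (l 16533168) (l 16523384))) (b (a (l 16549168) (l 16537960)) (l 16500048)))) (a (a (l 16487392) (l 16380944)) (l 16199688)))) (b (a (b (l 15929456) (l 15899744)) (l 15220384)) (a (l 15819616) (l 15371920)))) (a (a (a (b (b (b (a (l 16386080) (l 16453432)) (b (l 16340392) (b (l 16322544) (b (l 16313408) (a (l 16312080) (l 16366648)))))) (a (l 16266152) (l 16342120))) (a (b (l 16149640) (l 16146176)) (l 16148928))) (b (a (b (b (l 16457240) (b (l 16480848) (l 16465992))) (l 16422792)) (l 16408104)) (a (l 16293072) (l 16190072)))) (a (a (b (l 16357600) (l 16127936)) (b (l 16250656) (l 16063392))) (b (l 16073280) (l 15891176)))) (b (a (l 15724600) (l 15274600)) (a (l 15555248) (l 15126800))))),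 by decide +kernel⟩

def k1_pp_022 : ∃ t, chk3 f_pp_022 t 5 2 1 = true :=
  ⟨(b (a (b (a (l 14956624) (l 14500184)) (a (l 14919768) (l 14488584))) (b (a (l 14065280) (l 13655760)) (l 13889888))) (a (b (l 14641488) (l 14534480)) (b (l 13891048) (l 13851304)))), by decide +kernel⟩

def k2_pp_022 : ∃ t, chk3 f_pp_022 t 2 3 1 = true :=
  ⟨(a (b (a (a (a (b (a (l 16048744) (l 16160664)) (b (l 15999104) (l 15834224))) (b (a (l 16062280) (l 15990248)) (a (l 15764240) (l 15682760)))) (a (b (a (l 15917768) (l 15812816)) (a (l 15601424) (l 15499248))) (b (l 15647256) (l 15342176)))) (b (a (l 15326992) (l 14923880)) (a (l 15041232) (l 14668312)))) (a (a (a (b (b (l 15654112) (l 15460440)) (l 14958312)) (b (a (l 15405544) (l 15316408)) (a (l 15000320) (l 14905656)))) (a (b (l 14947832) (l 14766024)) (b (l 14983848) (l 14588032)))) (b (a (l 14706800) (l 14370056)) (a (l 14340472) (l 2))))) (b (a (b (l 14377736) (l 14175144)) (b (l 13768592) (l 13648344))) (b (a (l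 13938168) (l 2)) (l 2)))), by decide +kernel⟩

def k3_pp_022 : ∃ t, chk3 f_pp_022 t 3 1 1 = true :=
  ⟨(b (b (a (a (b (l 13096968) (l 13195608)) (b (l 12467696) (l 12639672))) (b (a (l 11988256) (l 11672680)) (a (l 12237808) (l 12001960)))) (b (a (a (l 13269760) (l 12794872)) (l 12383512)) (a (a (l 13308504) (l 12919984)) (l 2)))) (b (a (b (a (l 13310320) (l 2)) (l 2)) (l 2)) (l 2))), by decide +kernel⟩

theorem s4_pp_022 : ∃ t, chk3 f_pp_022 t 2 2 1 = true := ex3_a k0_pp_022 k1_pp_022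

theorem s5_pp_022 : ∃ t, chk3 f_pp_022 t 2 1 1 = true := ex3_b s4_pp_022 k2_pp_022

theorem s6_pp_022 : ∃ t, chk3 f_pp_022 t 1 1 1 = true := ex3_a s5_pp_022 k3_pp_022

theorem c_pp_022 : CertB 0 536870912 1073741824 536870912 1040187392 5207648 3 eng mog cd3q0 cd3q2 pd2 false true true .pp 0 2 2
    ndB3q0 ndB3q2 pcB2 Cut.none Ext.none :=
  certB1 (fam := false) (s1 := true) (s2 := true) (a := 0) (b := 2) (c := 2) (cn := .pp) (n1 := ndB3q0) (n2 := ndB3q2) (pc := pcB2) (cut := Cut.none) (xt := Ext.none) (P1 := 0) (W1 := 536870912) (P2 := 1073741824) (W2 := 536870912) (P3 := 1040187392) (W3 := 5207648) (N0 := 3) (En := eng) (mo := mog) (C1 := cd3q0) (C2 := cd3q2) (C3 := pd2)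
    rfl (fun _ => rfl) s6_pp_022

noncomputable def f_pp_023 : ℕ → ℕ → ℕ → ℕ → Bool := onCell 0 536870912 0 1230186008 1040187392 5207648
    (rowB 3 eng mog cd3q0 cd3q3 pd2 0 false true true .up 0 2 3 (qsf 0 536870912 0 1230186008 2) ndB3q0 ndB3q3 pcB2 Cut.none Ext.none)

def k0_pp_023 : ∃ t, chk3 f_pp_023 t 1 1 1 = true :=
  ⟨(b (b (l 4) (a (l 2) (b (l 4) (a (l 2) (l 4))))) (b (a (b (l 2) (a (l 2) (b (l 2) (a (l 2) (l 399529894743))))) (a (b (a (l 2) (b (l 4) (b (l 14684024) (l 15074264)))) (b (a (l 16030880) (l 15816264)) (a (l 15478376) (l 15199144)))) (b (b (a (l 14202512) (l 14149408)) (a (l 14795960) (l 14869024))) (b (a (l 15683896) (l 15488816)) (a (l 14846824) (l 14442384)))))) (a (b (a (l 2) (b (b (a (l 2) (l 14750336)) (a (l 14353048) (l 14270072))) (a (l 14533344) (l 14405688)))) (a (a (b (l 2) (a (b (l 2) (a (l 15266976) (l 15385008))) (a (b (l 15616568) (l 15473520)) (l 15758496)))) (b (l 603539786775) (b (l 15544800) (l 15818704)))) (b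 (a (l 14954872) (l 14735360)) (a (l 15395416) (l 15059896))))) (b (b (a (b (l 14284752) (a (l 14147968) (l 13984328))) (a (l 13928208) (l 13657832))) (a (a (l 14243480) (l 14038760)) (l 13645912))) (a (b (a (l 14470424) (l 14154784)) (a (l 14670000) (l 14224464))) (b (a (l 13787312) (l 13372720)) (a (l 13726960) (l 13190048)))))))), by decide +kernel⟩

theorem c_pp_023 : CertB 0 536870912 0 1230186008 1040187392 5207648 3 eng mog cd3q0 cd3q3 pd2 false true true .up 0 2 3
    ndB3q0 ndB3q3 pcB2 Cut.none Ext.none :=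
  certB0 (fam := false) (s1 := true) (s2 := true) (a := 0) (b := 2) (c := 3) (cn := .up) (n1 := ndB3q0) (n2 := ndB3q3) (pc := pcB2) (cut := Cut.none) (xt := Ext.none) (P1 := 0) (W1 := 536870912) (P2 := 0) (W2 := 1230186008) (P3 := 1040187392) (W3 := 5207648) (N0 := 3) (En := eng) (mo := mog) (C1 := cd3q0) (C2 := cd3q3) (C3 := pd2)
    rfl k0_pp_023

end Pool.Agent.Strip051.G.I9688_9736.Tab.C.BB33

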