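import Pool.Agent.Strip051.PB.DgE
import Pool.Agent.Strip051.PB.DgJ
import Pool.Agent.Strip051.G.I9688_9736.Fact

/-! # The corner (1, 1, 2): parameters of the degenerate charts (generated) -/

set_option linter.all false

namespace Pool.Agent.Strip051.G.I9688_9736.Tab.DG

open Pool.Agent.Strip051.PB Pool.Agent.Strip051.PB.Dg Pool.Agent.StripNear Pool.Agent.Strip051.LC

noncomputable def pFma : Fn1 := ⟨_, _, fun h1 => (enc_norm (enc_sub (enc_rat _ 472116323 3000000000) (enc_scaleT 1230989 300000 (enc_subr 38847 40000 h1))))⟩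
noncomputable def pFmb : Fn1 := ⟨_, _, fun h1 => (enc_norm (enc_subr 9293237907 10000000000 (enc_neg (enc_scaleT 1379299 1000000 (enc_subr 38847 40000 h1)))))⟩
noncomputable def pFmu : Fn1 := ⟨_, _, fun h1 => (mug3.enc h1)⟩
noncomputable def pFnx : Fn1 := ⟨_, _, fun h1 => (enc_norm (enc_add h1 (enc_pnc _ 3)))⟩
noncomputable def pFc0 : Fn1 := ⟨_, _, fun h1 => (enc_pnc _ 1)⟩
noncomputable def pFkc : Fn1 := ⟨_, _, fun h1 => (enc_norm (enc_sub (enc_rat _ 529029342919 500000000000) (enc_scaleT 97919417 50000000 (enc_subr 38847 40000 h1))))⟩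
noncomputable def pFjc : Fn1 := ⟨_, _, fun h1 => (enc_norm (enc_add (enc_scaleT 22815269 375000 (enc_subr 38847 40000 h1)) (enc_rat _ 42133652867 3750000000)))⟩
noncomputable def pFca : Fn1 := ⟨_, _, fun h1 => (enc_norm (enc_subr 223001 2000000 (enc_scaleT 16743 200 (enc_subr 38847 40000 h1))))⟩
noncomputable def pFcb : Fn1 := ⟨_, _, fun h1 => (enc_norm (enc_sub (enc_rat _ 4415411 10000000) (enc_scaleT 28773 1000 (enc_subr 38847 40000 h1))))⟩
noncomputable def pFcc : Fn1 := ⟨_, _, fun h1 => (enc_norm (enc_subr 130929 2500000 (enc_neg (enc_scaleT 153 250 (enc_subr 38847 40000 h1)))))⟩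
noncomputable def pFsv : Fn1 := ⟨_, _, fun h1 => (enc_norm (enc_subr 15 1024 h1))⟩
noncomputable def pFx11 : Fn1 := ⟨_, _, fun h1 => (cv1m.enc h1)⟩
noncomputable def pFx01 : Fn1 := ⟨_, _, fun h1 => (c1g.enc h1)⟩
noncomputable def pFK11 : Fn2 := ⟨_, _, fun h1 h2 => (kf1q1.enc h1 h2)⟩
noncomputable def pFK01 : Fn2 := ⟨_, _, fun h1 h2 => (kf0q1.enc h1 h2)⟩
noncomputable def pFL11 : Fn2 := ⟨_, _, fun h1 h2 => (l1q1.enc h1 h2)⟩
noncomputable def pFL01 : Fn2 := ⟨_, _, fun h1 h2 => (l0q1.enc h1 h2)⟩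
noncomputable def kFc0 : Fn1 := ⟨_, _, fun h1 => (enc_norm (enc_subr 89119 210000000000 (enc_scaleT 17 21000000 (enc_subr 38847 40000 h1))))⟩
noncomputable def kFc0g : Fn1 := ⟨_, _, fun h1 => (enc_norm (enc_subr 7293981 10000000 (enc_neg (enc_scaleT 14717 1000 (enc_subr 38847 40000 h1)))))⟩
noncomputable def kFc1 : Fn1 := ⟨_, _, fun h1 => (enc_norm (enc_add (enc_scaleT 15316793 8923761000000 (enc_subr 38847 40000 h1)) (enc_rat _ 5076012449 89237610000000000)))⟩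
noncomputable def kFc1g : Fn1 := ⟨_, _, fun h1 => (enc_norm (enc_subr 6199941453 10000000 (enc_neg (enc_scaleT 901221 1000 (enc_subr 38847 40000 h1)))))⟩
noncomputable def kFa0 : Fn1 := ⟨_, _, fun h1 => (enc_norm (enc_subr 32597 30000000000 (enc_neg (enc_scaleT 403 21000000 (enc_subr 38847 40000 h1)))))⟩
noncomputable def kFa0g : Fn1 := ⟨_, _, fun h1 => (enc_norm (enc_subr 56297 156250 (enc_neg (enc_scaleT 15732 125 (enc_subr 38847 40000 h1)))))⟩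
noncomputable def kFa1 : Fn1 := ⟨_, _, fun h1 => (enc_norm (enc_subr 2157073471 274200000000000 (enc_scaleT 10496957 63980000000 (enc_subr 38847 40000 h1))))⟩
noncomputable def kFa1g : Fn1 := ⟨_, _, fun h1 => (enc_norm (enc_subr 32611477 10000000 (enc_scaleT 87211 1000 (enc_subr 38847 40000 h1))))⟩
noncomputable def kFb0 : Fn1 := ⟨_, _, fun h1 => (enc_rat _ 47 70000000)⟩
noncomputable def kFb0g : Fn1 := ⟨_, _, fun h1 => (enc_norm (enc_add (enc_scaleT 32633 500 (enc_subr 38847 40000 h1)) (enc_rat _ 588569 5000000)))⟩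
noncomputable def kFb1_2 : Fn1 := ⟨_, _, fun h1 => (enc_subr 38847 40000 h1)⟩
noncomputable def kFb1 : Fn1 := ⟨_, _, fun h1 => (enc_norm (enc_add (enc_mul (enc_norm (enc_subr 9302131163 4461880500000000 (enc_neg (enc_scaleT 38027 2897325000 (kFb1_2.enc h1))))) (enc_norm (kFb1_2.enc h1))) (enc_rat _ 20983370494883 44618805000000000000)))⟩
noncomputable def kFb1g_2 : Fn1 := ⟨_, _, fun h1 => (enc_subr 38847 40000 h1)⟩
noncomputable def kFb1g : Fn1 := ⟨_, _, fun h1 => (enc_norm (enc_add (enc_mul (enc_norm (enc_subr 575823 15625 (enc_scaleT 7637 25 (kFb1g_2.enc h1)))) (enc_norm (kFb1g_2.enc h1))) (enc_rat _ 4334367963 2500000000)))⟩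
noncomputable def kFd0 : Fn1 := ⟨_, _, fun h1 => (enc_norm (enc_sub (enc_rat _ 53821 210000000000) (enc_scaleT 403 21000000 (enc_subr 38847 40000 h1))))⟩
noncomputable def kFd0g : Fn1 := ⟨_, _, fun h1 => (enc_norm (enc_subr 312183 2500000 (enc_scaleT 1169 250 (enc_subr 38847 40000 h1))))⟩
noncomputable def kFd1_2 : Fn1 := ⟨_, _, fun h1 => (enc_subr 38847 40000 h1)⟩
noncomputable def kFd1 : Fn1 := ⟨_, _, fun h1 => (enc_norm (enc_subr 141231266989713863 20390793885000000000000 (enc_mul (enc_norm (enc_sub (enc_rat _ 326041907457293 2039079388500000000) (enc_scaleT 38027 1448662500 (kFd1_2.enc h1)))) (enc_norm (kFd1_2.enc h1)))))⟩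
noncomputable def kFd1g_2 : Fn1 := ⟨_, _, fun h1 => (enc_subr 38847 40000 h1)⟩
noncomputable def kFd1g : Fn1 := ⟨_, _, fun h1 => (enc_norm (enc_add (enc_mul (enc_norm (enc_add (enc_scaleT 15274 25 (kFd1g_2.enc h1)) (enc_rat _ 1688207 125000))) (enc_norm (kFd1g_2.enc h1))) (enc_rat _ 128966669 625000000)))⟩
noncomputable def kFe0 : Fn1 := ⟨_, _, fun h1 => (enc_norm (enc_subr 87179 210000000000 (enc_neg (enc_scaleT 403 21000000 (enc_subr 38847 40000 h1)))))⟩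
noncomputable def kFe0g : Fn1 := ⟨_, _, fun h1 => (enc_norm (enc_subr 242587 1000000 (enc_neg (enc_scaleT 6059 100 (enc_subr 38847 40000 h1)))))⟩
noncomputable def kFe1_2 : Fn1 := ⟨_, _, fun h1 => (enc_subr 38847 40000 h1)⟩
noncomputable def kFe1 : Fn1 := ⟨_, _, fun h1 => (enc_norm (enc_subr 75410333652937697 10195396942500000000000 (enc_mul (enc_norm (enc_sub (enc_rat _ 1290206958589 7965153861328125) (enc_scaleT 38027 2897325000 (kFe1_2.enc h1)))) (enc_norm (kFe1_2.enc h1)))))⟩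
noncomputable def kFe1g_2 : Fn1 := ⟨_, _, fun h1 => (enc_subr 38847 40000 h1)⟩
noncomputable def kFe1g : Fn1 := ⟨_, _, fun h1 => (enc_norm (enc_subr 3818501287 2500000000 (enc_mul (enc_norm (enc_add (enc_scaleT 7637 25 (kFe1g_2.enc h1)) (enc_rat _ 6294791 125000))) (enc_norm (kFe1g_2.enc h1)))))⟩
noncomputable def cFxs1 : Fn1 := ⟨_, _, fun h1 => (enc_norm (enc_add (enc_scaleT 3 4 (dgxi.enc h1)) (enc_scaleT 1 4 (dgws.enc h1))))⟩
noncomputable def cFsB1 : Fn2 := ⟨_, _, fun h1 h2 => (enc_norm (enc_subr 1068358 703125 (enc_neg (enc_scaleT 32 375 (enc_subr 38847 40000 h2)))))⟩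
noncomputable def cFBs1 : Fn2 := ⟨_, _, fun h1 h2 => (cFsB1.enc h1 h2)⟩
noncomputable def cFsX1 : Fn2 := ⟨_, _, fun h1 h2 => (enc_norm (enc_subr 6499504 3515625 (enc_neg (enc_scaleT 78848 5625 (enc_subr 38847 40000 h2)))))⟩
noncomputable def cFsD1 : Fn2 := ⟨_, _, fun h1 h2 => (enc_pnc _ 0)⟩
noncomputable def cFsDD1 : Fn2 := ⟨_, _, fun h1 h2 => (cFsD1.enc h1 h2)⟩
noncomputable def cFxs2 : Fn1 := ⟨_, _, fun h1 => (enc_norm (enc_add (enc_scaleT 7 20 (dgxi.enc h1)) (enc_scaleT 13 20 (dgws.enc h1))))⟩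
noncomputable def cFsB2 : Fn2 := ⟨_, _, fun h1 h2 => (enc_norm (enc_sub (enc_rat _ 4634014 3515625) (enc_scaleT 32 5625 (enc_subr 38847 40000 h2))))⟩
noncomputable def cFBs2 : Fn2 := ⟨_, _, fun h1 h2 => (cFsB2.enc h1 h2)⟩
noncomputable def cFsX2 : Fn2 := ⟨_, _, fun h1 h2 => (enc_norm (enc_subr 2584658 3515625 (enc_scaleT 1504 5625 (enc_subr 38847 40000 h2))))⟩
noncomputable def cFsD2 : Fn2 := ⟨_, _, fun h1 h2 => (enc_norm (enc_add (enc_scaleT 1 31 (enc_subr 38847 40000 h2)) (enc_rat _ 13157193 310000)))⟩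
noncomputable def cFsDD2 : Fn2 := ⟨_, _, fun h1 h2 => (cFsD2.enc h1 h2)⟩
noncomputable def nFsc2 : Fn1 := ⟨_, _, fun h1 => (enc_scaleT 13 20 h1)⟩
noncomputable def nFB2_3 : Fn2 := ⟨_, _, fun h1 h2 => (enc_subr 38847 40000 h2)⟩
noncomputable def nFB2 : Fn2 := ⟨_, _, fun h1 h2 => (enc_norm (enc_add (enc_subr 5900861 12500000 (enc_neg (enc_scaleT 1501 625 (nFB2_3.enc h1 h2)))) (enc_mul h1 (enc_norm (enc_sub (enc_rat _ 46339390 54765409) (enc_scaleT 927700000 54765409 (nFB2_3.enc h1 h2)))))))⟩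
noncomputable def nFX2_3 : Fn2 := ⟨_, _, fun h1 h2 => (enc_subr 38847 40000 h2)⟩
noncomputable def nFX2 : Fn2 := ⟨_, _, fun h1 h2 => (enc_norm (enc_add (enc_add (enc_scaleT 327 1250 (nFX2_3.enc h1 h2)) (enc_rat _ 12147711 12500000)) (enc_mul h1 (enc_norm (enc_subr 2870080 54765409 (enc_scaleT 114400000 54765409 (nFX2_3.enc h1 h2)))))))⟩
noncomputable def nFD2_3 : Fn2 := ⟨_, _, fun h1 h2 => (enc_subr 38847 40000 h2)⟩
noncomputable def nFD2 : Fn2 := ⟨_, _, fun h1 h2 => (enc_norm (enc_add (enc_sub (enc_rat _ 25954537 5000000) (enc_scaleT 337791 500 (nFD2_3.enc h1 h2))) (enc_mul h1 (enc_norm (enc_add (enc_scaleT 10557687500 3580227 (nFD2_3.enc h1 h2)) (enc_rat _ 253516775 1591212))))))⟩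
noncomputable def nFsc3 : Fn1 := ⟨_, _, fun h1 => (enc_norm (enc_add (enc_scaleT 1929 2000 h1) (enc_rat _ 71 2000)))⟩
noncomputable def nFB3 : Fn2 := ⟨_, _, fun h1 h2 => (enc_norm (enc_subr 570825460 54765409 (enc_scaleT 707800000 54765409 (enc_subr 38847 40000 h2))))⟩
noncomputable def nFX3 : Fn2 := ⟨_, _, fun h1 h2 => (enc_norm (enc_sub (enc_rat _ 719944847 821481135) (enc_scaleT 110242000 164296227 (enc_subr 38847 40000 h2))))⟩
noncomputable def nFD3 : Fn2 := ⟨_, _, fun h1 h2 => (enc_norm (enc_add (enc_scaleT 48034062698221 38265466176 (enc_subr 38847 40000 h2)) (enc_rat _ 12946643850997 127551553920)))⟩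
noncomputable def nFsc4 : Fn1 := ⟨_, _, fun h1 => (enc_norm (enc_add (enc_scaleT 3 10 h1) (enc_rat _ 7 10)))⟩
noncomputable def nFB4 : Fn2 := ⟨_, _, fun h1 h2 => (enc_norm (enc_subr 48851460 54765409 (enc_neg (enc_scaleT 412200000 54765409 (enc_subr 38847 40000 h2)))))⟩
noncomputable def nFX4 : Fn2 := ⟨_, _, fun h1 h2 => (enc_norm (enc_subr 1212103 821481135 (enc_neg (enc_scaleT 722542000 164296227 (enc_subr 38847 40000 h2)))))⟩
noncomputable def nFD4 : Fn2 := ⟨_, _, fun h1 h2 => (enc_norm (enc_add (enc_scaleT 94009296875 85413987 (enc_subr 38847 40000 h2)) (enc_rat _ 44311095875 1366623792)))⟩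
noncomputable def l12F : List Knk := [⟨3, 250, kFc0, kFc0g⟩, ⟨19, 1000, kFc1, kFc1g⟩]
noncomputable def laF : List Knk := [⟨3, 250, kFa0, kFa0g⟩, ⟨19, 1000, kFa1, kFa1g⟩]
noncomputable def lbF : List Knk := [⟨3, 250, kFb0, kFb0g⟩, ⟨19, 1000, kFb1, kFb1g⟩]
noncomputable def l1F : List Knk := [⟨3, 250, kFe0, kFe0g⟩, ⟨19, 1000, kFe1, kFe1g⟩]
noncomputable def l2F : List Knk := [⟨3, 250, kFd0, kFd0g⟩, ⟨19, 1000, kFd1, kFd1g⟩]
noncomputable def cvF1 : CvP := ⟨cFxs1, cFBs1, cFsX1⟩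
noncomputable def cvF2 : CvP := ⟨cFxs2, cFBs2, cFsX2⟩
noncomputable def ndF2 : NdU := ⟨nFsc2, nFB2, nFX2, nFD2⟩
noncomputable def ndF3 : NdU := ⟨nFsc3, nFB3, nFX3, nFD3⟩
noncomputable def ndF4 : NdU := ⟨nFsc4, nFB4, nFX4, nFD4⟩
noncomputable def pF : Pm := ⟨pFma, pFmb, pFmu, pFnx, pFc0, pFkc, pFjc, pFkc, pFjc, pFkc, pFjc, pFca, pFcb, pFcc, pFcc, pFcc, pFsv, l12F, l12F, l12F, laF, lbF, l1F, l2F, cvF1, pFx11, pFx01, pFK11, pFK01, pFL11, pFL01⟩
noncomputable def pNc0 : Fn1 := ⟨_, _, fun h1 => (eng.enc h1)⟩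
noncomputable def pNkc : Fn1 := ⟨_, _, fun h1 => (enc_norm (enc_mul (pNc0.enc h1) (enc_norm (enc_sub (enc_rat _ 529029342919 500000000000) (enc_scaleT 97919417 50000000 (enc_subr 38847 40000 h1))))))⟩
noncomputable def pNjc : Fn1 := ⟨_, _, fun h1 => (enc_norm (enc_mul (pNc0.enc h1) (enc_norm (enc_add (enc_scaleT 22815269 375000 (enc_subr 38847 40000 h1)) (enc_rat _ 42133652867 3750000000)))))⟩
noncomputable def pNcc : Fn1 := ⟨_, _, fun h1 => (enc_norm (enc_mul (pNc0.enc h1) (enc_norm (enc_subr 130929 2500000 (enc_neg (enc_scaleT 153 250 (enc_subr 38847 40000 h1)))))))⟩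
noncomputable def pNK11 : Fn2 := ⟨_, _, fun h1 h2 => (enc_norm (enc_mul (pNc0.enc h2) (kf1q1.enc h1 h2)))⟩
noncomputable def pNK01 : Fn2 := ⟨_, _, fun h1 h2 => (enc_norm (enc_mul (pNc0.enc h2) (kf0q1.enc h1 h2)))⟩
noncomputable def kNc0 : Fn1 := ⟨_, _, fun h1 => (enc_norm (enc_mul (pNc0.enc h1) (enc_norm (enc_subr 89119 210000000000 (enc_scaleT 17 21000000 (enc_subr 38847 40000 h1))))))⟩
noncomputable def kNc0g : Fn1 := ⟨_, _, fun h1 => (enc_norm (enc_mul (pNc0.enc h1) (enc_norm (enc_subr 7293981 10000000 (enc_neg (enc_scaleT 14717 1000 (enc_subr 38847 40000 h1)))))))⟩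
noncomputable def kNc1 : Fn1 := ⟨_, _, fun h1 => (enc_norm (enc_mul (pNc0.enc h1) (enc_norm (enc_add (enc_scaleT 15316793 8923761000000 (enc_subr 38847 40000 h1)) (enc_rat _ 5076012449 89237610000000000)))))⟩
noncomputable def kNc1g : Fn1 := ⟨_, _, fun h1 => (enc_norm (enc_mul (pNc0.enc h1) (enc_norm (enc_subr 6199941453 10000000 (enc_neg (enc_scaleT 901221 1000 (enc_subr 38847 40000 h1)))))))⟩
noncomputable def cNBs1 : Fn2 := ⟨_, _, fun h1 h2 => (enc_norm (enc_mul (pNc0.enc h2) (cFsB1.enc h1 h2)))⟩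
noncomputable def cNBs2 : Fn2 := ⟨_, _, fun h1 h2 => (enc_norm (enc_mul (pNc0.enc h2) (cFsB2.enc h1 h2)))⟩
noncomputable def nNB2_4 : Fn2 := ⟨_, _, fun h1 h2 => (enc_subr 38847 40000 h2)⟩
noncomputable def nNB2 : Fn2 := ⟨_, _, fun h1 h2 => (enc_norm (enc_mul (pNc0.enc h2) (enc_norm (enc_add (enc_subr 5900861 12500000 (enc_neg (enc_scaleT 1501 625 (nNB2_4.enc h1 h2)))) (enc_mul h1 (enc_norm (enc_sub (enc_rat _ 46339390 54765409) (enc_scaleT 927700000 54765409 (nNB2_4.enc h1 h2)))))))))⟩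
noncomputable def nNB3 : Fn2 := ⟨_, _, fun h1 h2 => (enc_norm (enc_mul (pNc0.enc h2) (enc_norm (enc_subr 570825460 54765409 (enc_scaleT 707800000 54765409 (enc_subr 38847 40000 h2))))))⟩
noncomputable def nNB4 : Fn2 := ⟨_, _, fun h1 h2 => (enc_norm (enc_mul (pNc0.enc h2) (enc_norm (enc_subr 48851460 54765409 (enc_neg (enc_scaleT 412200000 54765409 (enc_subr 38847 40000 h2)))))))⟩
noncomputable def umo : Fn1 := ⟨_, _, fun h1 => (mog.enc h1)⟩
noncomputable def us1 : Fn1 := ⟨_, _, fun h1 => (enc_norm (enc_sub (enc_rat _ 896171 45000) (enc_scaleT 302 3 (enc_subr 38847 40000 h1))))⟩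
noncomputable def us2 : Fn1 := ⟨_, _, fun h1 => (enc_norm (enc_add (enc_scaleT 3 200 (enc_subr 38847 40000 h1)) (enc_rat _ 25840979 2000000)))⟩
noncomputable def us3 : Fn1 := ⟨_, _, fun h1 => (enc_norm (enc_sub (enc_rat _ 11099819 835000) (enc_scaleT 84234 167 (enc_subr 38847 40000 h1))))⟩
noncomputable def uC11 : Fn2 := ⟨_, _, fun h1 h2 => (kc1q1.enc h1 h2)⟩
noncomputable def uC01 : Fn2 := ⟨_, _, fun h1 h2 => (kc0q1.enc h1 h2)⟩
noncomputable def kNu1_0 : Fn1 := ⟨_, _, fun h1 => (enc_norm (enc_add (enc_scaleT 2603 12 (enc_subr 38847 40000 h1)) (enc_rat _ 2494337 360000)))⟩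
noncomputable def kNu1_0g : Fn1 := ⟨_, _, fun h1 => (enc_pnc _ 0)⟩
noncomputable def kNu1_1 : Fn1 := ⟨_, _, fun h1 => (enc_norm (enc_add (enc_scaleT 3 2 (enc_subr 38847 40000 h1)) (enc_rat _ 443479 20000)))⟩
noncomputable def kNu1_1g : Fn1 := ⟨_, _, fun h1 => (enc_pnc _ 0)⟩
noncomputable def kNu1_2 : Fn1 := ⟨_, _, fun h1 => (enc_norm (enc_add (enc_scaleT 1 4 (enc_subr 38847 40000 h1)) (enc_rat _ 185993 40000)))⟩
noncomputable def kNu1_2g : Fn1 := ⟨_, _, fun h1 => (enc_pnc _ 0)⟩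
noncomputable def kNu1_3 : Fn1 := ⟨_, _, fun h1 => (enc_norm (enc_add (enc_scaleT 3386838601 6923750000 (enc_subr 38847 40000 h1)) (enc_rat _ 209585169 55390000000)))⟩
noncomputable def kNu1_3g : Fn1 := ⟨_, _, fun h1 => (enc_pnc _ 0)⟩
noncomputable def l12N : List Knk := [⟨3, 250, kNc0, kNc0g⟩, ⟨19, 1000, kNc1, kNc1g⟩]
noncomputable def cvN1 : CvP := ⟨cFxs1, cNBs1, cFsX1⟩
noncomputable def cvN2 : CvP := ⟨cFxs2, cNBs2, cFsX2⟩
noncomputable def ndN2 : NdU := ⟨nFsc2, nNB2, nFX2, nFD2⟩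
noncomputable def ndN3 : NdU := ⟨nFsc3, nNB3, nFX3, nFD3⟩
noncomputable def ndN4 : NdU := ⟨nFsc4, nNB4, nFX4, nFD4⟩
noncomputable def pN : Pm := ⟨pFma, pFmb, pFmu, pFnx, pNc0, pNkc, pNjc, pNkc, pNjc, pNkc, pNjc, pFca, pFcb, pNcc, pNcc, pNcc, pFsv, l12N, l12N, l12N, laF, lbF, l1F, l2F, cvN1, pFx11, pFx01, pNK11, pNK01, pFL11, pFL01⟩
noncomputable def ul1 : List Knk := [⟨9, 1000, kNu1_0, kNu1_0g⟩, ⟨13, 1000, kNu1_1, kNu1_1g⟩, ⟨17, 1000, kNu1_2, kNu1_2g⟩, ⟨21, 1000, kNu1_3, kNu1_3g⟩]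
noncomputable def ul2 : List Knk := []
noncomputable def ul3 : List Knk := []
noncomputable def qN : Pu := ⟨umo, us1, us2, us3, ul1, ul2, ul3, cFsDD1, uC11, uC01⟩

end Pool.Agent.Strip051.G.I9688_9736.Tab.DG
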