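import Pool.Agent.Strip051.G.I9688_9736.Fs

/-! # Certificates at the floor (generated) -/

set_option linter.all false
set_option maxRecDepth 100000

namespace Pool.Agent.Strip051.G.I9688_9736.Tab

open Pool.Agent.Strip051.PB

theorem cB_m00 : CertNd 0 536870912 1040187392 5207648 (ftMono false 0 mT) [] (Node.sc eng ndB0q0) (Fn2.sc esg cd0q0) :=
  certNd (T := (ftMono false 0 mT)) (L := []) (P1 := 0) (W1 := 536870912) (P3 := 1040187392) (W3 := 5207648) (n := (Node.sc eng ndB0q0)) (c := (Fn2.sc esg cd0q0))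
    ⟨T.a (T.a (T.a (T.l 0) (T.l 0)) (T.l 0)) (T.l 0),
      by decide +kernel⟩
theorem cB_m01 : CertNd 536870912 536870912 1040187392 5207648 (ftMono false 1 mT) [] (Node.sc eng ndB0q1) (Fn2.sc esg cd0q1) :=
  certNd (T := (ftMono false 1 mT)) (L := []) (P1 := 536870912) (W1 := 536870912) (P3 := 1040187392) (W3 := 5207648) (n := (Node.sc eng ndB0q1)) (c := (Fn2.sc esg cd0q1))
    ⟨T.a (T.l 0) (T.a (T.l 0) (T.a (T.l 0) (T.l 0))),
      by decide +kernel⟩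
theorem cB_g00 : CertGe 0 16106127 1040187392 5207648 false [] (((1 : ℕ) : ℝ) / ((5 : ℕ) : ℝ)) 0 ((0 : ℕ) : ℝ)
    (((2 : ℕ) : ℝ) / 2) mT (Node.sc eng ndB0q0) (Fn2.sc esg cd0q0) :=
  certGe (z := false) (L := []) (P1 := 0) (W1 := 16106127) (P3 := 1040187392) (W3 := 5207648) (oa := 1) (ob := 5)
    (q := 0) (bb := 0) (hB := 2) (M := mT) (n := (Node.sc eng ndB0q0)) (c := (Fn2.sc esg cd0q0)) (sX := c1g_sf) (sK := (Sl2.sc eng kf0q0_sf))
    (sL := l0q0_sf) ⟨T.l 0,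
      by decide +kernel⟩
theorem cB_w00a : CertNd 16106127 520764785 1040187392 5207648 (ftWall false 0 mT 1 5) [] (Node.sc eng ndB0q0) (Fn2.sc esg cd0q0) :=
  certNd (T := (ftWall false 0 mT 1 5)) (L := []) (P1 := 16106127) (W1 := 520764785) (P3 := 1040187392) (W3 := 5207648) (n := (Node.sc eng ndB0q0)) (c := (Fn2.sc esg cd0q0))
    ⟨T.a (T.a (T.a (T.a (T.l 0) (T.l 0)) (T.l 0)) (T.l 0)) (T.l 0),
      by decide +kernel⟩
theorem cB_w01a : CertNd 536870912 500363689 1040187392 5207648 (ftWall false 1 mT 1 5) [] (Node.sc eng ndB0q1) (Fn2.sc esg cd0q1) :=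
  certNd (T := (ftWall false 1 mT 1 5)) (L := []) (P1 := 536870912) (W1 := 500363689) (P3 := 1040187392) (W3 := 5207648) (n := (Node.sc eng ndB0q1)) (c := (Fn2.sc esg cd0q1))
    ⟨T.a (T.l 0) (T.a (T.l 0) (T.a (T.l 0) (T.a (T.l 0) (T.a (T.l 0) (T.a (T.l 0) (T.a (T.l 0) (T.c (T.a (T.l 0) (T.c (T.l 0) (T.l 0))) (T.l 0)))))))),
      by decide +kernel⟩
theorem cB_w01b : CertNd 1053340729 17623111 1040187392 5207648 (ftWall false 1 mT 1 5) [] (Node.sc eng ndB0q1) (Fn2.sc esg cd0q1) :=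
  certNd (T := (ftWall false 1 mT 1 5)) (L := []) (P1 := 1053340729) (W1 := 17623111) (P3 := 1040187392) (W3 := 5207648) (n := (Node.sc eng ndB0q1)) (c := (Fn2.sc esg cd0q1))
    ⟨T.a (T.a (T.c (T.c (T.a (T.c (T.l 0) (T.l 0)) (T.c (T.l 0) (T.l 0))) (T.a (T.c (T.l 0) (T.l 0)) (T.c (T.l 0) (T.l 0)))) (T.c (T.a (T.c (T.l 0) (T.l 0)) (T.c (T.l 0) (T.l 0))) (T.a (T.c (T.l 0) (T.a (T.l 0) (T.l 0))) (T.c (T.l 0) (T.l 0))))) (T.c (T.c (T.a (T.l 0) (T.l 0)) (T.a (T.l 0) (T.l 0))) (T.a (T.c (T.c (T.l 0) (T.l 0)) (T.c (T.l 0) (T.l 0))) (T.c (T.l 0) (T.l 0))))) (T.c (T.a (T.c (T.l 0) (T.l 0)) (T.c (T.a (T.l 0) (T.l 0)) (T.a (T.l 0) (T.l 0)))) (T.a (T.c (T.l 0) (T.a (T.l 0) (T.l 0))) (T.c (T.a (T.l 0) (T.l 0)) (T.a (T.l 0) (T.l 0))))),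
      by decide +kernel⟩
theorem cB_g01 : CertGe 1070963840 2777984 1040187392 5207648 false [] (((1 : ℕ) : ℝ) / ((5 : ℕ) : ℝ)) 1 ((1 : ℕ) : ℝ)
    (((1 : ℕ) : ℝ) / 2) mT (Node.sc eng ndB0q1) (Fn2.sc esg cd0q1) :=
  certGe (z := false) (L := []) (P1 := 1070963840) (W1 := 2777984) (P3 := 1040187392) (W3 := 5207648) (oa := 1) (ob := 5)
    (q := 1) (bb := 1) (hB := 1) (M := mT) (n := (Node.sc eng ndB0q1)) (c := (Fn2.sc esg cd0q1)) (sX := c1g_sf) (sK := (Sl2.sc eng kf0q1_sf))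
    (sL := l0q1_sf) ⟨T.l 0,
      by decide +kernel⟩
theorem cB_tl : CertTg 1037234601 16106128 1040187392 5207648 (ftTk true mT mZ dlg 5 1) [⟨6, 0⟩] :=
  certTg (T := (ftTk true mT mZ dlg 5 1)) (L := [⟨6, 0⟩]) (P1 := 1037234601) (W1 := 16106128) (P3 := 1040187392) (W3 := 5207648)
    ⟨T.l 0,
      by decide +kernel⟩
theorem cB_th : CertTg 1037234601 16106128 1040187392 5207648 (ftTk false mT mZ dlg 637 500) [⟨5, 0⟩] :=
  certTg (T := (ftTk false mT mZ dlg 637 500)) (L := [⟨5, 0⟩]) (P1 := 1037234601) (W1 := 16106128) (P3 := 1040187392) (W3 := 5207648)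
    ⟨T.l 0,
      by decide +kernel⟩
theorem cB_m10 : CertNd 0 7439102 1040187392 5207648 (ftMono false 0 mT) [] (Node.sc eng ndB1q0) (Fn2.sc esg cd1q0) :=
  certNd (T := (ftMono false 0 mT)) (L := []) (P1 := 0) (W1 := 7439102) (P3 := 1040187392) (W3 := 5207648) (n := (Node.sc eng ndB1q0)) (c := (Fn2.sc esg cd1q0))
    ⟨T.l 0,
      by decide +kernel⟩
theorem cB_g10 : CertGe 0 4294967 1040187392 5207648 false [] (((1 : ℕ) : ℝ) / ((5 : ℕ) : ℝ)) 0 ((0 : ℕ) : ℝ)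
    (((2 : ℕ) : ℝ) / 2) mT (Node.sc eng ndB1q0) (Fn2.sc esg cd1q0) :=
  certGe (z := false) (L := []) (P1 := 0) (W1 := 4294967) (P3 := 1040187392) (W3 := 5207648) (oa := 1) (ob := 5)
    (q := 0) (bb := 0) (hB := 2) (M := mT) (n := (Node.sc eng ndB1q0)) (c := (Fn2.sc esg cd1q0)) (sX := cv1m_sf) (sK := (Sl2.sc eng kf1q0_sf))
    (sL := l1q0_sf) ⟨T.l 0,
      by decide +kernel⟩
theorem cB_w10 : CertNd 4294967 532575945 1040187392 5207648 (ftWall false 0 mT 1 5) [] (Node.sc eng ndB1q0) (Fn2.sc esg cd1q0) :=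
  certNd (T := (ftWall false 0 mT 1 5)) (L := []) (P1 := 4294967) (W1 := 532575945) (P3 := 1040187392) (W3 := 5207648) (n := (Node.sc eng ndB1q0)) (c := (Fn2.sc esg cd1q0))
    ⟨T.a (T.a (T.a (T.a (T.l 0) (T.l 0)) (T.l 0)) (T.l 0)) (T.l 0),
      by decide +kernel⟩
theorem cB_w11 : CertNd 536870912 536870912 1040187392 5207648 (ftWall false 1 mT 1 5) [] (Node.sc eng ndB1q1) (Fn2.sc esg cd1q1) :=
  certNd (T := (ftWall false 1 mT 1 5)) (L := []) (P1 := 536870912) (W1 := 536870912) (P3 := 1040187392) (W3 := 5207648) (n := (Node.sc eng ndB1q1)) (c := (Fn2.sc esg cd1q1))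
    ⟨T.a (T.l 0) (T.a (T.l 0) (T.a (T.l 0) (T.a (T.l 0) (T.a (T.l 0) (T.l 0))))),
      by decide +kernel⟩
theorem cB_m20 : CertNd 0 7439102 1040187392 5207648 (ftMono false 0 mT) [] (Node.sc eng ndB2q0) (Fn2.sc esg cd2q0) :=
  certNd (T := (ftMono false 0 mT)) (L := []) (P1 := 0) (W1 := 7439102) (P3 := 1040187392) (W3 := 5207648) (n := (Node.sc eng ndB2q0)) (c := (Fn2.sc esg cd2q0))
    ⟨T.l 0,
      by decide +kernel⟩
theorem cB_g20 : CertGe 0 4294967 1040187392 5207648 false [] (((1 : ℕ) : ℝ) / ((5 : ℕ) : ℝ)) 0 ((0 : ℕ) : ℝ)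
    (((2 : ℕ) : ℝ) / 2) mT (Node.sc eng ndB2q0) (Fn2.sc esg cd2q0) :=
  certGe (z := false) (L := []) (P1 := 0) (W1 := 4294967) (P3 := 1040187392) (W3 := 5207648) (oa := 1) (ob := 5)
    (q := 0) (bb := 0) (hB := 2) (M := mT) (n := (Node.sc eng ndB2q0)) (c := (Fn2.sc esg cd2q0)) (sX := cv2m_sf) (sK := (Sl2.sc eng kf2q0_sf))
    (sL := l2q0_sf) ⟨T.l 0,
      by decide +kernel⟩
theorem cB_w20 : CertNd 4294967 532575945 1040187392 5207648 (ftWall false 0 mT 1 5) [] (Node.sc eng ndB2q0) (Fn2.sc esg cd2q0) :=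
  certNd (T := (ftWall false 0 mT 1 5)) (L := []) (P1 := 4294967) (W1 := 532575945) (P3 := 1040187392) (W3 := 5207648) (n := (Node.sc eng ndB2q0)) (c := (Fn2.sc esg cd2q0))
    ⟨T.a (T.a (T.a (T.a (T.a (T.l 0) (T.l 0)) (T.l 0)) (T.l 0)) (T.l 0)) (T.l 0),
      by decide +kernel⟩
theorem cB_w21 : CertNd 536870912 536870912 1040187392 5207648 (ftWall false 1 mT 1 5) [] (Node.sc eng ndB2q1) (Fn2.sc esg cd2q1) :=
  certNd (T := (ftWall false 1 mT 1 5)) (L := []) (P1 := 536870912) (W1 := 536870912) (P3 := 1040187392) (W3 := 5207648) (n := (Node.sc eng ndB2q1)) (c := (Fn2.sc esg cd2q1))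
    ⟨T.a (T.l 0) (T.a (T.l 0) (T.a (T.l 0) (T.a (T.l 0) (T.a (T.l 0) (T.l 0))))),
      by decide +kernel⟩
theorem cB_f30 : CertNd 0 7439102 1040187392 5207648 (ftFlatG false 0 mT 1 5 11) [] (Node.sc eng ndB3q0) (Fn2.sc esg cd3q0) :=
  certNd (T := (ftFlatG false 0 mT 1 5 11)) (L := []) (P1 := 0) (W1 := 7439102) (P3 := 1040187392) (W3 := 5207648) (n := (Node.sc eng ndB3q0)) (c := (Fn2.sc esg cd3q0))
    ⟨T.l 0,
      by decide +kernel⟩
theorem cB_l30 : CertNd 0 7439102 1040187392 5207648 (ftWall false 0 mT 1 5) [⟨3, 1101659112⟩] (Node.sc eng ndB3q0) (Fn2.sc esg cd3q0) :=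
  certNd (T := (ftWall false 0 mT 1 5)) (L := [⟨3, 1101659112⟩]) (P1 := 0) (W1 := 7439102) (P3 := 1040187392) (W3 := 5207648) (n := (Node.sc eng ndB3q0)) (c := (Fn2.sc esg cd3q0))
    ⟨T.a (T.a (T.a (T.a (T.a (T.a (T.a (T.a (T.a (T.c (T.c (T.l 0) (T.l 0)) (T.c (T.l 0) (T.l 0))) (T.l 1)) (T.l 1)) (T.l 1)) (T.l 0)) (T.l 0)) (T.l 0)) (T.l 0)) (T.l 0)) (T.l 0),
      by decide +kernel⟩
theorem cB_w30 : CertNd 7439101 529431811 1040187392 5207648 (ftWall false 0 mT 1 5) [] (Node.sc eng ndB3q0) (Fn2.sc esg cd3q0) :=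
  certNd (T := (ftWall false 0 mT 1 5)) (L := []) (P1 := 7439101) (W1 := 529431811) (P3 := 1040187392) (W3 := 5207648) (n := (Node.sc eng ndB3q0)) (c := (Fn2.sc esg cd3q0))
    ⟨T.a (T.a (T.a (T.a (T.a (T.a (T.l 0) (T.l 0)) (T.a (T.l 0) (T.l 0))) (T.l 0)) (T.l 0)) (T.l 0)) (T.l 0),
      by decide +kernel⟩
theorem cB_w31 : CertNd 536870912 536870912 1040187392 5207648 (ftWall false 1 mT 1 5) [] (Node.sc eng ndB3q1) (Fn2.sc esg cd3q1) :=
  certNd (T := (ftWall false 1 mT 1 5)) (L := []) (P1 := 536870912) (W1 := 536870912) (P3 := 1040187392) (W3 := 5207648) (n := (Node.sc eng ndB3q1)) (c := (Fn2.sc esg cd3q1))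
    ⟨T.a (T.l 0) (T.a (T.l 0) (T.a (T.l 0) (T.a (T.l 0) (T.a (T.l 0) (T.l 0))))),
      by decide +kernel⟩
theorem cB_w32 : CertNd 1073741824 166215235 1040187392 5207648 (ftWall false 2 mT 1 5) [⟨4, 0⟩] (Node.sc eng ndB3q2) (Fn2.sc esg cd3q2) :=
  certNd (T := (ftWall false 2 mT 1 5)) (L := [⟨4, 0⟩]) (P1 := 1073741824) (W1 := 166215235) (P3 := 1040187392) (W3 := 5207648) (n := (Node.sc eng ndB3q2)) (c := (Fn2.sc esg cd3q2))
    ⟨T.a (T.l 0) (T.l 0),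
      by decide +kernel⟩
theorem cB_f40 : CertNd 0 7439102 1040187392 5207648 (ftFlatG false 0 mT 1 5 11) [] (Node.sc eng ndB4q0) (Fn2.sc esg cd4q0) :=
  certNd (T := (ftFlatG false 0 mT 1 5 11)) (L := []) (P1 := 0) (W1 := 7439102) (P3 := 1040187392) (W3 := 5207648) (n := (Node.sc eng ndB4q0)) (c := (Fn2.sc esg cd4q0))
    ⟨T.l 0,
      by decide +kernel⟩
theorem cB_l40 : CertNd 0 7439102 1040187392 5207648 (ftWall false 0 mT 1 5) [⟨3, 1101659112⟩] (Node.sc eng ndB4q0) (Fn2.sc esg cd4q0) :=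
  certNd (T := (ftWall false 0 mT 1 5)) (L := [⟨3, 1101659112⟩]) (P1 := 0) (W1 := 7439102) (P3 := 1040187392) (W3 := 5207648) (n := (Node.sc eng ndB4q0)) (c := (Fn2.sc esg cd4q0))
    ⟨T.l 1,
      by decide +kernel⟩
theorem cB_w40 : CertNd 7439101 529431811 1040187392 5207648 (ftWall false 0 mT 1 5) [] (Node.sc eng ndB4q0) (Fn2.sc esg cd4q0) :=
  certNd (T := (ftWall false 0 mT 1 5)) (L := []) (P1 := 7439101) (W1 := 529431811) (P3 := 1040187392) (W3 := 5207648) (n := (Node.sc eng ndB4q0)) (c := (Fn2.sc esg cd4q0))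
    ⟨T.a (T.a (T.a (T.a (T.a (T.c (T.l 0) (T.l 0)) (T.l 0)) (T.l 0)) (T.l 0)) (T.l 0)) (T.l 0),
      by decide +kernel⟩
theorem cB_w41 : CertNd 536870912 536870912 1040187392 5207648 (ftWall false 1 mT 1 5) [] (Node.sc eng ndB4q1) (Fn2.sc esg cd4q1) :=
  certNd (T := (ftWall false 1 mT 1 5)) (L := []) (P1 := 536870912) (W1 := 536870912) (P3 := 1040187392) (W3 := 5207648) (n := (Node.sc eng ndB4q1)) (c := (Fn2.sc esg cd4q1))
    ⟨T.a (T.l 0) (T.a (T.l 0) (T.a (T.l 0) (T.a (T.l 0) (T.a (T.l 0) (T.l 0))))),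
      by decide +kernel⟩
theorem cB_w42 : CertNd 1073741824 166215235 1040187392 5207648 (ftWall false 2 mT 1 5) [⟨4, 0⟩] (Node.sc eng ndB4q2) (Fn2.sc esg cd4q2) :=
  certNd (T := (ftWall false 2 mT 1 5)) (L := [⟨4, 0⟩]) (P1 := 1073741824) (W1 := 166215235) (P3 := 1040187392) (W3 := 5207648) (n := (Node.sc eng ndB4q2)) (c := (Fn2.sc esg cd4q2))
    ⟨T.a (T.l 0) (T.l 0),
      by decide +kernel⟩
theorem cB_f50 : CertNd 0 7439102 1040187392 5207648 (ftFlatG false 0 mT 1 5 11) [] (Node.sc eng ndB5q0) (Fn2.sc esg cd5q0) :=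
  certNd (T := (ftFlatG false 0 mT 1 5 11)) (L := []) (P1 := 0) (W1 := 7439102) (P3 := 1040187392) (W3 := 5207648) (n := (Node.sc eng ndB5q0)) (c := (Fn2.sc esg cd5q0))
    ⟨T.l 0,
      by decide +kernel⟩
theorem cB_l50 : CertNd 0 7439102 1040187392 5207648 (ftWall false 0 mT 1 5) [⟨3, 1101659112⟩] (Node.sc eng ndB5q0) (Fn2.sc esg cd5q0) :=
  certNd (T := (ftWall false 0 mT 1 5)) (L := [⟨3, 1101659112⟩]) (P1 := 0) (W1 := 7439102) (P3 := 1040187392) (W3 := 5207648) (n := (Node.sc eng ndB5q0)) (c := (Fn2.sc esg cd5q0))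
    ⟨T.l 0,
      by decide +kernel⟩
theorem cB_w50 : CertNd 7439101 529431811 1040187392 5207648 (ftWall false 0 mT 1 5) [] (Node.sc eng ndB5q0) (Fn2.sc esg cd5q0) :=
  certNd (T := (ftWall false 0 mT 1 5)) (L := []) (P1 := 7439101) (W1 := 529431811) (P3 := 1040187392) (W3 := 5207648) (n := (Node.sc eng ndB5q0)) (c := (Fn2.sc esg cd5q0))
    ⟨T.a (T.a (T.l 0) (T.l 0)) (T.l 0),
      by decide +kernel⟩
theorem cB_w51 : CertNd 536870912 536870912 1040187392 5207648 (ftWall false 1 mT 1 5) [] (Node.sc eng ndB5q1) (Fn2.sc esg cd5q1) :=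
  certNd (T := (ftWall false 1 mT 1 5)) (L := []) (P1 := 536870912) (W1 := 536870912) (P3 := 1040187392) (W3 := 5207648) (n := (Node.sc eng ndB5q1)) (c := (Fn2.sc esg cd5q1))
    ⟨T.a (T.l 0) (T.a (T.l 0) (T.a (T.l 0) (T.a (T.l 0) (T.a (T.l 0) (T.l 0))))),
      by decide +kernel⟩
theorem cB_w52 : CertNd 1073741824 166215235 1040187392 5207648 (ftWall false 2 mT 1 5) [⟨4, 0⟩] (Node.sc eng ndB5q2) (Fn2.sc esg cd5q2) :=
  certNd (T := (ftWall false 2 mT 1 5)) (L := [⟨4, 0⟩]) (P1 := 1073741824) (W1 := 166215235) (P3 := 1040187392) (W3 := 5207648) (n := (Node.sc eng ndB5q2)) (c := (Fn2.sc esg cd5q2))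
    ⟨T.a (T.l 0) (T.l 0),
      by decide +kernel⟩
theorem cB_ll : CertSd 0 7439102 1040187392 5207648 (ftWall false 0 mT 1 5) [] idF (cnF 1026 1000) pcE0 (Fn3.sc esg pd0) :=
  certSd (T := (ftWall false 0 mT 1 5)) (L := []) (P1 := 0) (W1 := 7439102) (P3 := 1040187392) (W3 := 5207648) (Y := idF) (X := (cnF 1026 1000))
    (pc := pcE0) (c := (Fn3.sc esg pd0)) ⟨T.a (T.a (T.a (T.a (T.a (T.a (T.c (T.a (T.a (T.c (T.c (T.l 0) (T.l 0)) (T.c (T.l 0) (T.l 0))) (T.l 0)) (T.l 0)) (T.a (T.a (T.c (T.c (T.l 0) (T.l 0)) (T.c (T.l 0) (T.l 0))) (T.l 0)) (T.l 0))) (T.l 0)) (T.l 0)) (T.l 0)) (T.l 0)) (T.l 0)) (T.l 0),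
      by decide +kernel⟩
theorem cB_st : CertSt 1073741824 18253611 1040187392 5207648 false [] (((1 : ℕ) : ℝ) / ((5 : ℕ) : ℝ)) mT (Node.sc eng ndB2q2) (Fn2.sc esg cd2q2) (Node.sc eng ndB3q2) (Fn2.sc esg cd3q2) :=
  certSt (z := false) (L := []) (P1 := 1073741824) (W1 := 18253611) (P3 := 1040187392) (W3 := 5207648) (oa := 1) (ob := 5)
    (M := mT) (n := (Node.sc eng ndB2q2)) (c := (Fn2.sc esg cd2q2)) (n' := (Node.sc eng ndB3q2)) (c' := (Fn2.sc esg cd3q2)) (sX := cv2p_sf) (sK := (Sl2.sc eng kf2q2_sf)) (sL := l2q2_sf)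
    ⟨T.l 0,
      by decide +kernel⟩
theorem cB_sm : CertSd 508508584 28362328 1040187392 5207648 (ftMono false 2 mT) [] ygF xsF pcE2 (Fn3.sc esg pd2) :=
  certSd (T := (ftMono false 2 mT)) (L := []) (P1 := 508508584) (W1 := 28362328) (P3 := 1040187392) (W3 := 5207648) (Y := ygF) (X := xsF)
    (pc := pcE2) (c := (Fn3.sc esg pd2)) ⟨T.l 0,
      by decide +kernel⟩
theorem cB_sw : CertSd 0 508508588 1040187392 5207648 (ftWall false 2 mT 1 5) [] ygF xsF pcE2 (Fn3.sc esg pd2) :=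
  certSd (T := (ftWall false 2 mT 1 5)) (L := []) (P1 := 0) (W1 := 508508588) (P3 := 1040187392) (W3 := 5207648) (Y := ygF) (X := xsF)
    (pc := pcE2) (c := (Fn3.sc esg pd2)) ⟨T.a (T.l 0) (T.a (T.l 0) (T.a (T.l 0) (T.a (T.l 0) (T.l 0)))),
      by decide +kernel⟩
theorem cB_h0_11 : CertNd 991880209 80590268 1040187392 5207648 (ftHighG false 1 mT 1 5 19 0 1026) [] (Node.sc eng ndB1q1) (Fn2.sc esg cd1q1) :=
  certNd (T := (ftHighG false 1 mT 1 5 19 0 1026)) (L := []) (P1 := 991880209) (W1 := 80590268) (P3 := 1040187392) (W3 := 5207648) (n := (Node.sc eng ndB1q1)) (c := (Fn2.sc esg cd1q1))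
    ⟨T.a (T.l 0) (T.a (T.l 0) (T.l 0)),
      by decide +kernel⟩
theorem cB_h0_21 : CertNd 991880209 80590268 1040187392 5207648 (ftHighG false 1 mT 1 5 19 0 1026) [] (Node.sc eng ndB2q1) (Fn2.sc esg cd2q1) :=
  certNd (T := (ftHighG false 1 mT 1 5 19 0 1026)) (L := []) (P1 := 991880209) (W1 := 80590268) (P3 := 1040187392) (W3 := 5207648) (n := (Node.sc eng ndB2q1)) (c := (Fn2.sc esg cd2q1))
    ⟨T.a (T.l 0) (T.a (T.l 0) (T.l 0)),
      by decide +kernel⟩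
theorem cB_h0_31 : CertNd 991880209 80590268 1040187392 5207648 (ftHighG false 1 mT 1 5 19 0 1026) [] (Node.sc eng ndB3q1) (Fn2.sc esg cd3q1) :=
  certNd (T := (ftHighG false 1 mT 1 5 19 0 1026)) (L := []) (P1 := 991880209) (W1 := 80590268) (P3 := 1040187392) (W3 := 5207648) (n := (Node.sc eng ndB3q1)) (c := (Fn2.sc esg cd3q1))
    ⟨T.a (T.l 0) (T.a (T.l 0) (T.l 0)),
      by decide +kernel⟩
theorem cB_h0_41 : CertNd 991880209 80590268 1040187392 5207648 (ftHighG false 1 mT 1 5 19 0 1026) [] (Node.sc eng ndB4q1) (Fn2.sc esg cd4q1) :=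
  certNd (T := (ftHighG false 1 mT 1 5 19 0 1026)) (L := []) (P1 := 991880209) (W1 := 80590268) (P3 := 1040187392) (W3 := 5207648) (n := (Node.sc eng ndB4q1)) (c := (Fn2.sc esg cd4q1))
    ⟨T.a (T.l 0) (T.a (T.l 0) (T.l 0)),
      by decide +kernel⟩
theorem cB_h0_51 : CertNd 991880209 80590268 1040187392 5207648 (ftHighG false 1 mT 1 5 19 0 1026) [] (Node.sc eng ndB5q1) (Fn2.sc esg cd5q1) :=
  certNd (T := (ftHighG false 1 mT 1 5 19 0 1026)) (L := []) (P1 := 991880209) (W1 := 80590268) (P3 := 1040187392) (W3 := 5207648) (n := (Node.sc eng ndB5q1)) (c := (Fn2.sc esg cd5q1))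
    ⟨T.a (T.l 0) (T.a (T.l 0) (T.l 0)),
      by decide +kernel⟩
theorem cB_h1_01 : CertNd 1065031375 8710449 1040187392 5207648 (ftHighG false 1 mT 1 5 19 730 1026) [] (Node.sc eng ndB0q1) (Fn2.sc esg cd0q1) :=
  certNd (T := (ftHighG false 1 mT 1 5 19 730 1026)) (L := []) (P1 := 1065031375) (W1 := 8710449) (P3 := 1040187392) (W3 := 5207648) (n := (Node.sc eng ndB0q1)) (c := (Fn2.sc esg cd0q1))
    ⟨T.c (T.l 0) (T.l 0),
      by decide +kernel⟩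
theorem cB_h1_11 : CertNd 1065031375 8710449 1040187392 5207648 (ftHighG false 1 mT 1 5 19 730 1026) [] (Node.sc eng ndB1q1) (Fn2.sc esg cd1q1) :=
  certNd (T := (ftHighG false 1 mT 1 5 19 730 1026)) (L := []) (P1 := 1065031375) (W1 := 8710449) (P3 := 1040187392) (W3 := 5207648) (n := (Node.sc eng ndB1q1)) (c := (Fn2.sc esg cd1q1))
    ⟨T.l 0,
      by decide +kernel⟩
theorem cB_h1_21 : CertNd 1065031375 8710449 1040187392 5207648 (ftHighG false 1 mT 1 5 19 730 1026) [] (Node.sc eng ndB2q1) (Fn2.sc esg cd2q1) :=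
  certNd (T := (ftHighG false 1 mT 1 5 19 730 1026)) (L := []) (P1 := 1065031375) (W1 := 8710449) (P3 := 1040187392) (W3 := 5207648) (n := (Node.sc eng ndB2q1)) (c := (Fn2.sc esg cd2q1))
    ⟨T.l 0,
      by decide +kernel⟩
theorem cB_h1_31 : CertNd 1065031375 8710449 1040187392 5207648 (ftHighG false 1 mT 1 5 19 730 1026) [] (Node.sc eng ndB3q1) (Fn2.sc esg cd3q1) :=
  certNd (T := (ftHighG false 1 mT 1 5 19 730 1026)) (L := []) (P1 := 1065031375) (W1 := 8710449) (P3 := 1040187392) (W3 := 5207648) (n := (Node.sc eng ndB3q1)) (c := (Fn2.sc esg cd3q1))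
    ⟨T.l 0,
      by decide +kernel⟩
theorem cB_h1_41 : CertNd 1065031375 8710449 1040187392 5207648 (ftHighG false 1 mT 1 5 19 730 1026) [] (Node.sc eng ndB4q1) (Fn2.sc esg cd4q1) :=
  certNd (T := (ftHighG false 1 mT 1 5 19 730 1026)) (L := []) (P1 := 1065031375) (W1 := 8710449) (P3 := 1040187392) (W3 := 5207648) (n := (Node.sc eng ndB4q1)) (c := (Fn2.sc esg cd4q1))
    ⟨T.l 0,
      by decide +kernel⟩
theorem cB_h1_51 : CertNd 1065031375 8710449 1040187392 5207648 (ftHighG false 1 mT 1 5 19 730 1026) [] (Node.sc eng ndB5q1) (Fn2.sc esg cd5q1) :=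
  certNd (T := (ftHighG false 1 mT 1 5 19 730 1026)) (L := []) (P1 := 1065031375) (W1 := 8710449) (P3 := 1040187392) (W3 := 5207648) (n := (Node.sc eng ndB5q1)) (c := (Fn2.sc esg cd5q1))
    ⟨T.l 0,
      by decide +kernel⟩
theorem cB_h1_02 : CertNd 0 536870912 1040187392 5207648 (ftHighG false 2 mT 1 5 19 730 1026) [⟨0, 1065031375⟩, ⟨1, 1154300595⟩] (Node.sc eng ndB0q2) (Fn2.sc esg cd0q2) :=
  certNd (T := (ftHighG false 2 mT 1 5 19 730 1026)) (L := [⟨0, 1065031375⟩, ⟨1, 1154300595⟩]) (P1 := 0) (W1 := 536870912) (P3 := 1040187392) (W3 := 5207648) (n := (Node.sc eng ndB0q2)) (c := (Fn2.sc esg cd0q2))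
    ⟨T.a (T.l 3) (T.a (T.a (T.l 3) (T.a (T.l 3) (T.l 0))) (T.a (T.l 0) (T.a (T.l 0) (T.l 0)))),
      by decide +kernel⟩
theorem cB_h1_12 : CertNd 1073741824 80558771 1040187392 5207648 (ftHighG false 2 mT 1 5 19 730 1026) [] (Node.sc eng ndB1q2) (Fn2.sc esg cd1q2) :=
  certNd (T := (ftHighG false 2 mT 1 5 19 730 1026)) (L := []) (P1 := 1073741824) (W1 := 80558771) (P3 := 1040187392) (W3 := 5207648) (n := (Node.sc eng ndB1q2)) (c := (Fn2.sc esg cd1q2))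
    ⟨T.l 0,
      by decide +kernel⟩
theorem cB_h1_22 : CertNd 1073741824 80558771 1040187392 5207648 (ftHighG false 2 mT 1 5 19 730 1026) [] (Node.sc eng ndB2q2) (Fn2.sc esg cd2q2) :=
  certNd (T := (ftHighG false 2 mT 1 5 19 730 1026)) (L := []) (P1 := 1073741824) (W1 := 80558771) (P3 := 1040187392) (W3 := 5207648) (n := (Node.sc eng ndB2q2)) (c := (Fn2.sc esg cd2q2))
    ⟨T.l 0,
      by decide +kernel⟩
theorem cB_h1_32 : CertNd 1073741824 80558771 1040187392 5207648 (ftHighG false 2 mT 1 5 19 730 1026) [] (Node.sc eng ndB3q2) (Fn2.sc esg cd3q2) :=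
  certNd (T := (ftHighG false 2 mT 1 5 19 730 1026)) (L := []) (P1 := 1073741824) (W1 := 80558771) (P3 := 1040187392) (W3 := 5207648) (n := (Node.sc eng ndB3q2)) (c := (Fn2.sc esg cd3q2))
    ⟨T.a (T.l 0) (T.l 0),
      by decide +kernel⟩
theorem cB_h1_42 : CertNd 1073741824 80558771 1040187392 5207648 (ftHighG false 2 mT 1 5 19 730 1026) [] (Node.sc eng ndB4q2) (Fn2.sc esg cd4q2) :=
  certNd (T := (ftHighG false 2 mT 1 5 19 730 1026)) (L := []) (P1 := 1073741824) (W1 := 80558771) (P3 := 1040187392) (W3 := 5207648) (n := (Node.sc eng ndB4q2)) (c := (Fn2.sc esg cd4q2))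
    ⟨T.l 0,
      by decide +kernel⟩
theorem cB_h1_52 : CertNd 1073741824 80558771 1040187392 5207648 (ftHighG false 2 mT 1 5 19 730 1026) [] (Node.sc eng ndB5q2) (Fn2.sc esg cd5q2) :=
  certNd (T := (ftHighG false 2 mT 1 5 19 730 1026)) (L := []) (P1 := 1073741824) (W1 := 80558771) (P3 := 1040187392) (W3 := 5207648) (n := (Node.sc eng ndB5q2)) (c := (Fn2.sc esg cd5q2))
    ⟨T.l 0,
      by decide +kernel⟩
theorem cB_h2_02 : CertNd 0 536870912 1040187392 5207648 (ftHighG false 2 mT 1 5 19 1060 1026) [⟨0, 1146861492⟩, ⟨1, 2115184548⟩] (Node.sc eng ndB0q2) (Fn2.sc esg cd0q2) :=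
  certNd (T := (ftHighG false 2 mT 1 5 19 1060 1026)) (L := [⟨0, 1146861492⟩, ⟨1, 2115184548⟩]) (P1 := 0) (W1 := 536870912) (P3 := 1040187392) (W3 := 5207648) (n := (Node.sc eng ndB0q2)) (c := (Fn2.sc esg cd0q2))
    ⟨T.a (T.l 0) (T.a (T.l 0) (T.a (T.l 0) (T.l 1))),
      by decide +kernel⟩
theorem cB_h2_12 : CertNd 1146861492 463751244 1040187392 5207648 (ftHighG false 2 mT 1 5 19 1060 1026) [] (Node.sc eng ndB1q2) (Fn2.sc esg cd1q2) :=
  certNd (T := (ftHighG false 2 mT 1 5 19 1060 1026)) (L := []) (P1 := 1146861492) (W1 := 463751244) (P3 := 1040187392) (W3 := 5207648) (n := (Node.sc eng ndB1q2)) (c := (Fn2.sc esg cd1q2))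
    ⟨T.a (T.a (T.a (T.l 0) (T.a (T.l 0) (T.a (T.a (T.a (T.l 0) (T.l 0)) (T.l 0)) (T.l 0)))) (T.l 0)) (T.l 0),
      by decide +kernel⟩
theorem cB_h2_22 : CertNd 1146861492 463751244 1040187392 5207648 (ftHighG false 2 mT 1 5 19 1060 1026) [] (Node.sc eng ndB2q2) (Fn2.sc esg cd2q2) :=
  certNd (T := (ftHighG false 2 mT 1 5 19 1060 1026)) (L := []) (P1 := 1146861492) (W1 := 463751244) (P3 := 1040187392) (W3 := 5207648) (n := (Node.sc eng ndB2q2)) (c := (Fn2.sc esg cd2q2))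
    ⟨T.a (T.a (T.a (T.l 0) (T.a (T.l 0) (T.l 0))) (T.l 0)) (T.l 0),
      by decide +kernel⟩
theorem cB_h2_32 : CertNd 1146861492 463751244 1040187392 5207648 (ftHighG false 2 mT 1 5 19 1060 1026) [] (Node.sc eng ndB3q2) (Fn2.sc esg cd3q2) :=
  certNd (T := (ftHighG false 2 mT 1 5 19 1060 1026)) (L := []) (P1 := 1146861492) (W1 := 463751244) (P3 := 1040187392) (W3 := 5207648) (n := (Node.sc eng ndB3q2)) (c := (Fn2.sc esg cd3q2))
    ⟨T.a (T.a (T.l 0) (T.l 0)) (T.l 0),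
      by decide +kernel⟩
theorem cB_h2_42 : CertNd 1146861492 463751244 1040187392 5207648 (ftHighG false 2 mT 1 5 19 1060 1026) [] (Node.sc eng ndB4q2) (Fn2.sc esg cd4q2) :=
  certNd (T := (ftHighG false 2 mT 1 5 19 1060 1026)) (L := []) (P1 := 1146861492) (W1 := 463751244) (P3 := 1040187392) (W3 := 5207648) (n := (Node.sc eng ndB4q2)) (c := (Fn2.sc esg cd4q2))
    ⟨T.a (T.l 0) (T.l 0),
      by decide +kernel⟩
theorem cB_h2_52 : CertNd 1146861492 463751244 1040187392 5207648 (ftHighG false 2 mT 1 5 19 1060 1026) [] (Node.sc eng ndB5q2) (Fn2.sc esg cd5q2) :=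
  certNd (T := (ftHighG false 2 mT 1 5 19 1060 1026)) (L := []) (P1 := 1146861492) (W1 := 463751244) (P3 := 1040187392) (W3 := 5207648) (n := (Node.sc eng ndB5q2)) (c := (Fn2.sc esg cd5q2))
    ⟨T.a (T.a (T.a (T.a (T.l 0) (T.l 0)) (T.l 0)) (T.l 0)) (T.l 0),
      by decide +kernel⟩
theorem cB_h2_13 : CertNd 1610612736 504571812 1040187392 5207648 (ftHighG false 3 mT 1 5 19 1060 1026) [] (Node.sc eng ndB1q3) (Fn2.sc esg cd1q3) :=
  certNd (T := (ftHighG false 3 mT 1 5 19 1060 1026)) (L := []) (P1 := 1610612736) (W1 := 504571812) (P3 := 1040187392) (W3 := 5207648) (n := (Node.sc eng ndB1q3)) (c := (Fn2.sc esg cd1q3))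
    ⟨T.a (T.l 0) (T.a (T.l 0) (T.l 0)),
      by decide +kernel⟩
theorem cB_h2_23 : CertNd 1610612736 504571812 1040187392 5207648 (ftHighG false 3 mT 1 5 19 1060 1026) [] (Node.sc eng ndB2q3) (Fn2.sc esg cd2q3) :=
  certNd (T := (ftHighG false 3 mT 1 5 19 1060 1026)) (L := []) (P1 := 1610612736) (W1 := 504571812) (P3 := 1040187392) (W3 := 5207648) (n := (Node.sc eng ndB2q3)) (c := (Fn2.sc esg cd2q3))
    ⟨T.a (T.l 0) (T.a (T.l 0) (T.a (T.l 0) (T.l 0))),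
      by decide +kernel⟩
theorem cB_h2_33 : CertNd 0 1230186008 1040187392 5207648 (ftHighG false 3 mT 1 5 19 1060 1026) [⟨0, 1146861492⟩, ⟨1, 2115184548⟩] (Node.sc eng ndB3q3) (Fn2.sc esg cd3q3) :=
  certNd (T := (ftHighG false 3 mT 1 5 19 1060 1026)) (L := [⟨0, 1146861492⟩, ⟨1, 2115184548⟩]) (P1 := 0) (W1 := 1230186008) (P3 := 1040187392) (W3 := 5207648) (n := (Node.sc eng ndB3q3)) (c := (Fn2.sc esg cd3q3))
    ⟨T.a (T.a (T.l 3) (T.a (T.a (T.l 0) (T.l 0)) (T.l 0))) (T.a (T.l 0) (T.a (T.l 0) (T.l 0))),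
      by decide +kernel⟩
theorem cB_h2_43 : CertNd 0 1230186008 1040187392 5207648 (ftHighG false 3 mT 1 5 19 1060 1026) [⟨0, 1146861492⟩, ⟨1, 2115184548⟩] (Node.sc eng ndB4q3) (Fn2.sc esg cd4q3) :=
  certNd (T := (ftHighG false 3 mT 1 5 19 1060 1026)) (L := [⟨0, 1146861492⟩, ⟨1, 2115184548⟩]) (P1 := 0) (W1 := 1230186008) (P3 := 1040187392) (W3 := 5207648) (n := (Node.sc eng ndB4q3)) (c := (Fn2.sc esg cd4q3))
    ⟨T.a (T.a (T.l 3) (T.a (T.l 0) (T.l 0))) (T.a (T.l 0) (T.l 0)),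
      by decide +kernel⟩
theorem cB_h2_53 : CertNd 0 1230186008 1040187392 5207648 (ftHighG false 3 mT 1 5 19 1060 1026) [⟨0, 1146861492⟩, ⟨1, 2115184548⟩] (Node.sc eng ndB5q3) (Fn2.sc esg cd5q3) :=
  certNd (T := (ftHighG false 3 mT 1 5 19 1060 1026)) (L := [⟨0, 1146861492⟩, ⟨1, 2115184548⟩]) (P1 := 0) (W1 := 1230186008) (P3 := 1040187392) (W3 := 5207648) (n := (Node.sc eng ndB5q3)) (c := (Fn2.sc esg cd5q3))
    ⟨T.a (T.a (T.l 3) (T.l 0)) (T.a (T.l 0) (T.l 0)),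
      by decide +kernel⟩
theorem cB_r0_02 : CertNd 0 536870912 1040187392 5207648 (ftFarG false 2 mT 1 5 19 1066 1026) [⟨0, 1083629129⟩, ⟨1, 1108426135⟩, ⟨2, 1101659111⟩] (Node.sc eng ndB0q2) (Fn2.sc esg cd0q2) :=
  certNd (T := (ftFarG false 2 mT 1 5 19 1066 1026)) (L := [⟨0, 1083629129⟩, ⟨1, 1108426135⟩, ⟨2, 1101659111⟩]) (P1 := 0) (W1 := 536870912) (P3 := 1040187392) (W3 := 5207648) (n := (Node.sc eng ndB0q2)) (c := (Fn2.sc esg cd0q2))
    ⟨T.l 5,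
      by decide +kernel⟩
theorem cB_r0_12 : CertNd 1083629129 24797006 1040187392 5207648 (ftFarG false 2 mT 1 5 19 1066 1026) [⟨2, 1101659111⟩] (Node.sc eng ndB1q2) (Fn2.sc esg cd1q2) :=
  certNd (T := (ftFarG false 2 mT 1 5 19 1066 1026)) (L := [⟨2, 1101659111⟩]) (P1 := 1083629129) (W1 := 24797006) (P3 := 1040187392) (W3 := 5207648) (n := (Node.sc eng ndB1q2)) (c := (Fn2.sc esg cd1q2))
    ⟨T.l 0,
      by decide +kernel⟩
theorem cB_r0_22 : CertNd 1083629129 24797006 1040187392 5207648 (ftFarG false 2 mT 1 5 19 1066 1026) [⟨2, 1101659111⟩] (Node.sc eng ndB2q2) (Fn2.sc esg cd2q2) :=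
  certNd (T := (ftFarG false 2 mT 1 5 19 1066 1026)) (L := [⟨2, 1101659111⟩]) (P1 := 1083629129) (W1 := 24797006) (P3 := 1040187392) (W3 := 5207648) (n := (Node.sc eng ndB2q2)) (c := (Fn2.sc esg cd2q2))
    ⟨T.l 0,
      by decide +kernel⟩
theorem cB_r0_32 : CertNd 1083629129 24797006 1040187392 5207648 (ftFarG false 2 mT 1 5 19 1066 1026) [⟨2, 1101659111⟩] (Node.sc eng ndB3q2) (Fn2.sc esg cd3q2) :=
  certNd (T := (ftFarG false 2 mT 1 5 19 1066 1026)) (L := [⟨2, 1101659111⟩]) (P1 := 1083629129) (W1 := 24797006) (P3 := 1040187392) (W3 := 5207648) (n := (Node.sc eng ndB3q2)) (c := (Fn2.sc esg cd3q2))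
    ⟨T.l 0,
      by decide +kernel⟩
theorem cB_r0_42 : CertNd 1083629129 24797006 1040187392 5207648 (ftFarG false 2 mT 1 5 19 1066 1026) [⟨2, 1101659111⟩] (Node.sc eng ndB4q2) (Fn2.sc esg cd4q2) :=
  certNd (T := (ftFarG false 2 mT 1 5 19 1066 1026)) (L := [⟨2, 1101659111⟩]) (P1 := 1083629129) (W1 := 24797006) (P3 := 1040187392) (W3 := 5207648) (n := (Node.sc eng ndB4q2)) (c := (Fn2.sc esg cd4q2))
    ⟨T.l 0,
      by decide +kernel⟩
theorem cB_r0_52 : CertNd 1083629129 24797006 1040187392 5207648 (ftFarG false 2 mT 1 5 19 1066 1026) [⟨2, 1101659111⟩] (Node.sc eng ndB5q2) (Fn2.sc esg cd5q2) :=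
  certNd (T := (ftFarG false 2 mT 1 5 19 1066 1026)) (L := [⟨2, 1101659111⟩]) (P1 := 1083629129) (W1 := 24797006) (P3 := 1040187392) (W3 := 5207648) (n := (Node.sc eng ndB5q2)) (c := (Fn2.sc esg cd5q2))
    ⟨T.l 0,
      by decide +kernel⟩
theorem cB_n0_02z : CertNd 0 107374182 1040187392 5207648 (ftNearE false 2 mT 1 5 19 1066) [⟨0, 1083629129⟩, ⟨1, 1108426135⟩] ⟨ndB0q2.Y, onF, Fn2.sc eng kq02, lq02⟩ (Fn2.sc esg cq02) :=
  certNd (T := (ftNearE false 2 mT 1 5 19 1066)) (L := [⟨0, 1083629129⟩, ⟨1, 1108426135⟩]) (P1 := 0) (W1 := 107374182) (P3 := 1040187392) (W3 := 5207648) (n := ⟨ndB0q2.Y, onF, Fn2.sc eng kq02, lq02⟩) (c := (Fn2.sc esg cq02))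
    ⟨T.l 3,
      by decide +kernel⟩
theorem cB_n0_02 : CertNd 0 536870912 1040187392 5207648 (ftNearE false 2 mT 1 5 19 1066) [⟨0, 1083629129⟩, ⟨1, 1108426135⟩, ⟨2, 107374182⟩, ⟨3, 505732400⟩] (Node.sc eng ndB0q2) (Fn2.sc esg cd0q2) :=
  certNd (T := (ftNearE false 2 mT 1 5 19 1066)) (L := [⟨0, 1083629129⟩, ⟨1, 1108426135⟩, ⟨2, 107374182⟩, ⟨3, 505732400⟩]) (P1 := 0) (W1 := 536870912) (P3 := 1040187392) (W3 := 5207648) (n := (Node.sc eng ndB0q2)) (c := (Fn2.sc esg cd0q2))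
    ⟨T.a (T.l 3) (T.a (T.l 3) (T.a (T.l 3) (T.a (T.a (T.a (T.l 3) (T.a (T.l 0) (T.l 0))) (T.l 0)) (T.l 0)))),
      by decide +kernel⟩
theorem cB_n0_12 : CertNd 1083629129 24797006 1040187392 5207648 (ftNearE false 2 mT 1 5 19 1066) [⟨3, 505732400⟩] (Node.sc eng ndB1q2) (Fn2.sc esg cd1q2) :=
  certNd (T := (ftNearE false 2 mT 1 5 19 1066)) (L := [⟨3, 505732400⟩]) (P1 := 1083629129) (W1 := 24797006) (P3 := 1040187392) (W3 := 5207648) (n := (Node.sc eng ndB1q2)) (c := (Fn2.sc esg cd1q2))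
    ⟨T.l 0,
      by decide +kernel⟩
theorem cB_n0_22 : CertNd 1083629129 24797006 1040187392 5207648 (ftNearE false 2 mT 1 5 19 1066) [⟨3, 505732400⟩] (Node.sc eng ndB2q2) (Fn2.sc esg cd2q2) :=
  certNd (T := (ftNearE false 2 mT 1 5 19 1066)) (L := [⟨3, 505732400⟩]) (P1 := 1083629129) (W1 := 24797006) (P3 := 1040187392) (W3 := 5207648) (n := (Node.sc eng ndB2q2)) (c := (Fn2.sc esg cd2q2))
    ⟨T.l 0,
      by decide +kernel⟩
theorem cB_n0_32 : CertNd 1083629129 24797006 1040187392 5207648 (ftNearE false 2 mT 1 5 19 1066) [⟨3, 505732400⟩] (Node.sc eng ndB3q2) (Fn2.sc esg cd3q2) :=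
  certNd (T := (ftNearE false 2 mT 1 5 19 1066)) (L := [⟨3, 505732400⟩]) (P1 := 1083629129) (W1 := 24797006) (P3 := 1040187392) (W3 := 5207648) (n := (Node.sc eng ndB3q2)) (c := (Fn2.sc esg cd3q2))
    ⟨T.l 0,
      by decide +kernel⟩
theorem cB_n0_42 : CertNd 1083629129 24797006 1040187392 5207648 (ftNearE false 2 mT 1 5 19 1066) [⟨3, 505732400⟩] (Node.sc eng ndB4q2) (Fn2.sc esg cd4q2) :=
  certNd (T := (ftNearE false 2 mT 1 5 19 1066)) (L := [⟨3, 505732400⟩]) (P1 := 1083629129) (W1 := 24797006) (P3 := 1040187392) (W3 := 5207648) (n := (Node.sc eng ndB4q2)) (c := (Fn2.sc esg cd4q2))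
    ⟨T.l 0,
      by decide +kernel⟩
theorem cB_n0_52 : CertNd 1083629129 24797006 1040187392 5207648 (ftNearE false 2 mT 1 5 19 1066) [⟨3, 505732400⟩] (Node.sc eng ndB5q2) (Fn2.sc esg cd5q2) :=
  certNd (T := (ftNearE false 2 mT 1 5 19 1066)) (L := [⟨3, 505732400⟩]) (P1 := 1083629129) (W1 := 24797006) (P3 := 1040187392) (W3 := 5207648) (n := (Node.sc eng ndB5q2)) (c := (Fn2.sc esg cd5q2))
    ⟨T.l 0,
      by decide +kernel⟩
theorem cB_R0_2 : CertSd 1083629129 24797006 1040187392 5207648 (ftFarG false 2 mT 1 5 19 1066 1026) [] idF (cnF 1026 1000) pcE2 (Fn3.sc esg pd2) :=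
  certSd (T := (ftFarG false 2 mT 1 5 19 1066 1026)) (L := []) (P1 := 1083629129) (W1 := 24797006) (P3 := 1040187392) (W3 := 5207648) (Y := idF) (X := (cnF 1026 1000))
    (pc := pcE2) (c := (Fn3.sc esg pd2)) ⟨T.l 0,
      by decide +kernel⟩
theorem cB_N0_2 : CertSd 1093713091 14713044 1040187392 5207648 (ftNearE false 2 mT 1 5 19 1066) [] idF (cnF 471 1000) pcE2 (Fn3.sc esg pd2) :=
  certSd (T := (ftNearE false 2 mT 1 5 19 1066)) (L := []) (P1 := 1093713091) (W1 := 14713044) (P3 := 1040187392) (W3 := 5207648) (Y := idF) (X := (cnF 471 1000))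
    (pc := pcE2) (c := (Fn3.sc esg pd2)) ⟨T.a (T.l 0) (T.l 0),
      by decide +kernel⟩
theorem cB_r1_02 : CertNd 0 536870912 1040187392 5207648 (ftFarG false 2 mT 1 5 19 1093 1026) [⟨0, 1100987032⟩, ⟨1, 1130743440⟩, ⟨2, 1101659111⟩] (Node.sc eng ndB0q2) (Fn2.sc esg cd0q2) :=
  certNd (T := (ftFarG false 2 mT 1 5 19 1093 1026)) (L := [⟨0, 1100987032⟩, ⟨1, 1130743440⟩, ⟨2, 1101659111⟩]) (P1 := 0) (W1 := 536870912) (P3 := 1040187392) (W3 := 5207648) (n := (Node.sc eng ndB0q2)) (c := (Fn2.sc esg cd0q2))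
    ⟨T.l 5,
      by decide +kernel⟩
theorem cB_r1_12 : CertNd 1100987032 29756408 1040187392 5207648 (ftFarG false 2 mT 1 5 19 1093 1026) [⟨2, 1101659111⟩] (Node.sc eng ndB1q2) (Fn2.sc esg cd1q2) :=
  certNd (T := (ftFarG false 2 mT 1 5 19 1093 1026)) (L := [⟨2, 1101659111⟩]) (P1 := 1100987032) (W1 := 29756408) (P3 := 1040187392) (W3 := 5207648) (n := (Node.sc eng ndB1q2)) (c := (Fn2.sc esg cd1q2))
    ⟨T.l 0,
      by decide +kernel⟩
theorem cB_r1_22 : CertNd 1100987032 29756408 1040187392 5207648 (ftFarG false 2 mT 1 5 19 1093 1026) [⟨2, 1101659111⟩] (Node.sc eng ndB2q2) (Fn2.sc esg cd2q2) :=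
  certNd (T := (ftFarG false 2 mT 1 5 19 1093 1026)) (L := [⟨2, 1101659111⟩]) (P1 := 1100987032) (W1 := 29756408) (P3 := 1040187392) (W3 := 5207648) (n := (Node.sc eng ndB2q2)) (c := (Fn2.sc esg cd2q2))
    ⟨T.l 0,
      by decide +kernel⟩
theorem cB_r1_32 : CertNd 1100987032 29756408 1040187392 5207648 (ftFarG false 2 mT 1 5 19 1093 1026) [⟨2, 1101659111⟩] (Node.sc eng ndB3q2) (Fn2.sc esg cd3q2) :=
  certNd (T := (ftFarG false 2 mT 1 5 19 1093 1026)) (L := [⟨2, 1101659111⟩]) (P1 := 1100987032) (W1 := 29756408) (P3 := 1040187392) (W3 := 5207648) (n := (Node.sc eng ndB3q2)) (c := (Fn2.sc esg cd3q2))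
    ⟨T.l 0,
      by decide +kernel⟩
theorem cB_r1_42 : CertNd 1100987032 29756408 1040187392 5207648 (ftFarG false 2 mT 1 5 19 1093 1026) [⟨2, 1101659111⟩] (Node.sc eng ndB4q2) (Fn2.sc esg cd4q2) :=
  certNd (T := (ftFarG false 2 mT 1 5 19 1093 1026)) (L := [⟨2, 1101659111⟩]) (P1 := 1100987032) (W1 := 29756408) (P3 := 1040187392) (W3 := 5207648) (n := (Node.sc eng ndB4q2)) (c := (Fn2.sc esg cd4q2))
    ⟨T.l 0,
      by decide +kernel⟩
theorem cB_r1_52 : CertNd 1100987032 29756408 1040187392 5207648 (ftFarG false 2 mT 1 5 19 1093 1026) [⟨2, 1101659111⟩] (Node.sc eng ndB5q2) (Fn2.sc esg cd5q2) :=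
  certNd (T := (ftFarG false 2 mT 1 5 19 1093 1026)) (L := [⟨2, 1101659111⟩]) (P1 := 1100987032) (W1 := 29756408) (P3 := 1040187392) (W3 := 5207648) (n := (Node.sc eng ndB5q2)) (c := (Fn2.sc esg cd5q2))
    ⟨T.l 0,
      by decide +kernel⟩
theorem cB_n1_02z : CertNd 0 107374182 1040187392 5207648 (ftNearE false 2 mT 1 5 19 1093) [⟨0, 1100987032⟩, ⟨1, 1130743440⟩] ⟨ndB0q2.Y, onF, Fn2.sc eng kq02, lq02⟩ (Fn2.sc esg cq02) :=
  certNd (T := (ftNearE false 2 mT 1 5 19 1093)) (L := [⟨0, 1100987032⟩, ⟨1, 1130743440⟩]) (P1 := 0) (W1 := 107374182) (P3 := 1040187392) (W3 := 5207648) (n := ⟨ndB0q2.Y, onF, Fn2.sc eng kq02, lq02⟩) (c := (Fn2.sc esg cq02))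
    ⟨T.l 3,
      by decide +kernel⟩
theorem cB_n1_02 : CertNd 0 536870912 1040187392 5207648 (ftNearE false 2 mT 1 5 19 1093) [⟨0, 1100987032⟩, ⟨1, 1130743440⟩, ⟨2, 107374182⟩, ⟨3, 505732400⟩] (Node.sc eng ndB0q2) (Fn2.sc esg cd0q2) :=
  certNd (T := (ftNearE false 2 mT 1 5 19 1093)) (L := [⟨0, 1100987032⟩, ⟨1, 1130743440⟩, ⟨2, 107374182⟩, ⟨3, 505732400⟩]) (P1 := 0) (W1 := 536870912) (P3 := 1040187392) (W3 := 5207648) (n := (Node.sc eng ndB0q2)) (c := (Fn2.sc esg cd0q2))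
    ⟨T.a (T.l 3) (T.a (T.l 3) (T.a (T.a (T.l 3) (T.a (T.a (T.l 0) (T.l 0)) (T.l 0))) (T.a (T.l 0) (T.l 0)))),
      by decide +kernel⟩
theorem cB_n1_12 : CertNd 1100987032 29756408 1040187392 5207648 (ftNearE false 2 mT 1 5 19 1093) [⟨3, 505732400⟩] (Node.sc eng ndB1q2) (Fn2.sc esg cd1q2) :=
  certNd (T := (ftNearE false 2 mT 1 5 19 1093)) (L := [⟨3, 505732400⟩]) (P1 := 1100987032) (W1 := 29756408) (P3 := 1040187392) (W3 := 5207648) (n := (Node.sc eng ndB1q2)) (c := (Fn2.sc esg cd1q2))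
    ⟨T.l 0,
      by decide +kernel⟩
theorem cB_n1_22 : CertNd 1100987032 29756408 1040187392 5207648 (ftNearE false 2 mT 1 5 19 1093) [⟨3, 505732400⟩] (Node.sc eng ndB2q2) (Fn2.sc esg cd2q2) :=
  certNd (T := (ftNearE false 2 mT 1 5 19 1093)) (L := [⟨3, 505732400⟩]) (P1 := 1100987032) (W1 := 29756408) (P3 := 1040187392) (W3 := 5207648) (n := (Node.sc eng ndB2q2)) (c := (Fn2.sc esg cd2q2))
    ⟨T.l 0,
      by decide +kernel⟩
theorem cB_n1_32 : CertNd 1100987032 29756408 1040187392 5207648 (ftNearE false 2 mT 1 5 19 1093) [⟨3, 505732400⟩] (Node.sc eng ndB3q2) (Fn2.sc esg cd3q2) :=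
  certNd (T := (ftNearE false 2 mT 1 5 19 1093)) (L := [⟨3, 505732400⟩]) (P1 := 1100987032) (W1 := 29756408) (P3 := 1040187392) (W3 := 5207648) (n := (Node.sc eng ndB3q2)) (c := (Fn2.sc esg cd3q2))
    ⟨T.l 0,
      by decide +kernel⟩
theorem cB_n1_42 : CertNd 1100987032 29756408 1040187392 5207648 (ftNearE false 2 mT 1 5 19 1093) [⟨3, 505732400⟩] (Node.sc eng ndB4q2) (Fn2.sc esg cd4q2) :=
  certNd (T := (ftNearE false 2 mT 1 5 19 1093)) (L := [⟨3, 505732400⟩]) (P1 := 1100987032) (W1 := 29756408) (P3 := 1040187392) (W3 := 5207648) (n := (Node.sc eng ndB4q2)) (c := (Fn2.sc esg cd4q2))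
    ⟨T.l 0,
      by decide +kernel⟩
theorem cB_n1_52 : CertNd 1100987032 29756408 1040187392 5207648 (ftNearE false 2 mT 1 5 19 1093) [⟨3, 505732400⟩] (Node.sc eng ndB5q2) (Fn2.sc esg cd5q2) :=
  certNd (T := (ftNearE false 2 mT 1 5 19 1093)) (L := [⟨3, 505732400⟩]) (P1 := 1100987032) (W1 := 29756408) (P3 := 1040187392) (W3 := 5207648) (n := (Node.sc eng ndB5q2)) (c := (Fn2.sc esg cd5q2))
    ⟨T.l 0,
      by decide +kernel⟩
theorem cB_R1_2 : CertSd 1100987032 29756408 1040187392 5207648 (ftFarG false 2 mT 1 5 19 1093 1026) [] idF (cnF 1026 1000) pcE2 (Fn3.sc esg pd2) :=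
  certSd (T := (ftFarG false 2 mT 1 5 19 1093 1026)) (L := []) (P1 := 1100987032) (W1 := 29756408) (P3 := 1040187392) (W3 := 5207648) (Y := idF) (X := (cnF 1026 1000))
    (pc := pcE2) (c := (Fn3.sc esg pd2)) ⟨T.l 0,
      by decide +kernel⟩
theorem cB_N1_2 : CertSd 1100987032 29756408 1040187392 5207648 (ftNearE false 2 mT 1 5 19 1093) [] idF (cnF 471 1000) pcE2 (Fn3.sc esg pd2) :=
  certSd (T := (ftNearE false 2 mT 1 5 19 1093)) (L := []) (P1 := 1100987032) (W1 := 29756408) (P3 := 1040187392) (W3 := 5207648) (Y := idF) (X := (cnF 471 1000))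
    (pc := pcE2) (c := (Fn3.sc esg pd2)) ⟨T.l 0,
      by decide +kernel⟩
theorem cB_r2_02 : CertNd 0 536870912 1040187392 5207648 (ftFarG false 2 mT 1 5 19 1126 1026) [⟨0, 1123304337⟩, ⟨1, 1165459247⟩, ⟨2, 1101659111⟩] (Node.sc eng ndB0q2) (Fn2.sc esg cd0q2) :=
  certNd (T := (ftFarG false 2 mT 1 5 19 1126 1026)) (L := [⟨0, 1123304337⟩, ⟨1, 1165459247⟩, ⟨2, 1101659111⟩]) (P1 := 0) (W1 := 536870912) (P3 := 1040187392) (W3 := 5207648) (n := (Node.sc eng ndB0q2)) (c := (Fn2.sc esg cd0q2))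
    ⟨T.l 5,
      by decide +kernel⟩
theorem cB_r2_12 : CertNd 1123304337 42154910 1040187392 5207648 (ftFarG false 2 mT 1 5 19 1126 1026) [⟨2, 1101659111⟩] (Node.sc eng ndB1q2) (Fn2.sc esg cd1q2) :=
  certNd (T := (ftFarG false 2 mT 1 5 19 1126 1026)) (L := [⟨2, 1101659111⟩]) (P1 := 1123304337) (W1 := 42154910) (P3 := 1040187392) (W3 := 5207648) (n := (Node.sc eng ndB1q2)) (c := (Fn2.sc esg cd1q2))
    ⟨T.l 0,
      by decide +kernel⟩
theorem cB_r2_22 : CertNd 1123304337 42154910 1040187392 5207648 (ftFarG false 2 mT 1 5 19 1126 1026) [⟨2, 1101659111⟩] (Node.sc eng ndB2q2) (Fn2.sc esg cd2q2) :=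
  certNd (T := (ftFarG false 2 mT 1 5 19 1126 1026)) (L := [⟨2, 1101659111⟩]) (P1 := 1123304337) (W1 := 42154910) (P3 := 1040187392) (W3 := 5207648) (n := (Node.sc eng ndB2q2)) (c := (Fn2.sc esg cd2q2))
    ⟨T.l 0,
      by decide +kernel⟩
theorem cB_r2_32 : CertNd 1123304337 42154910 1040187392 5207648 (ftFarG false 2 mT 1 5 19 1126 1026) [⟨2, 1101659111⟩] (Node.sc eng ndB3q2) (Fn2.sc esg cd3q2) :=
  certNd (T := (ftFarG false 2 mT 1 5 19 1126 1026)) (L := [⟨2, 1101659111⟩]) (P1 := 1123304337) (W1 := 42154910) (P3 := 1040187392) (W3 := 5207648) (n := (Node.sc eng ndB3q2)) (c := (Fn2.sc esg cd3q2))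
    ⟨T.l 0,
      by decide +kernel⟩
theorem cB_r2_42 : CertNd 1123304337 42154910 1040187392 5207648 (ftFarG false 2 mT 1 5 19 1126 1026) [⟨2, 1101659111⟩] (Node.sc eng ndB4q2) (Fn2.sc esg cd4q2) :=
  certNd (T := (ftFarG false 2 mT 1 5 19 1126 1026)) (L := [⟨2, 1101659111⟩]) (P1 := 1123304337) (W1 := 42154910) (P3 := 1040187392) (W3 := 5207648) (n := (Node.sc eng ndB4q2)) (c := (Fn2.sc esg cd4q2))
    ⟨T.l 0,
      by decide +kernel⟩
theorem cB_r2_52 : CertNd 1123304337 42154910 1040187392 5207648 (ftFarG false 2 mT 1 5 19 1126 1026) [⟨2, 1101659111⟩] (Node.sc eng ndB5q2) (Fn2.sc esg cd5q2) :=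
  certNd (T := (ftFarG false 2 mT 1 5 19 1126 1026)) (L := [⟨2, 1101659111⟩]) (P1 := 1123304337) (W1 := 42154910) (P3 := 1040187392) (W3 := 5207648) (n := (Node.sc eng ndB5q2)) (c := (Fn2.sc esg cd5q2))
    ⟨T.l 0,
      by decide +kernel⟩
theorem cB_n2_02z : CertNd 0 107374182 1040187392 5207648 (ftNearE false 2 mT 1 5 19 1126) [⟨0, 1123304337⟩, ⟨1, 1165459247⟩] ⟨ndB0q2.Y, onF, Fn2.sc eng kq02, lq02⟩ (Fn2.sc esg cq02) :=
  certNd (T := (ftNearE false 2 mT 1 5 19 1126)) (L := [⟨0, 1123304337⟩, ⟨1, 1165459247⟩]) (P1 := 0) (W1 := 107374182) (P3 := 1040187392) (W3 := 5207648) (n := ⟨ndB0q2.Y, onF, Fn2.sc eng kq02, lq02⟩) (c := (Fn2.sc esg cq02))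
    ⟨T.l 3,
      by decide +kernel⟩
theorem cB_n2_02 : CertNd 0 536870912 1040187392 5207648 (ftNearE false 2 mT 1 5 19 1126) [⟨0, 1123304337⟩, ⟨1, 1165459247⟩, ⟨2, 107374182⟩, ⟨3, 505732400⟩] (Node.sc eng ndB0q2) (Fn2.sc esg cd0q2) :=
  certNd (T := (ftNearE false 2 mT 1 5 19 1126)) (L := [⟨0, 1123304337⟩, ⟨1, 1165459247⟩, ⟨2, 107374182⟩, ⟨3, 505732400⟩]) (P1 := 0) (W1 := 536870912) (P3 := 1040187392) (W3 := 5207648) (n := (Node.sc eng ndB0q2)) (c := (Fn2.sc esg cd0q2))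
    ⟨T.a (T.l 3) (T.a (T.a (T.l 3) (T.a (T.a (T.l 3) (T.a (T.l 3) (T.l 0))) (T.l 0))) (T.a (T.a (T.l 0) (T.l 0)) (T.l 1))),
      by decide +kernel⟩
theorem cB_n2_12 : CertNd 1123304337 42154910 1040187392 5207648 (ftNearE false 2 mT 1 5 19 1126) [⟨3, 505732400⟩] (Node.sc eng ndB1q2) (Fn2.sc esg cd1q2) :=
  certNd (T := (ftNearE false 2 mT 1 5 19 1126)) (L := [⟨3, 505732400⟩]) (P1 := 1123304337) (W1 := 42154910) (P3 := 1040187392) (W3 := 5207648) (n := (Node.sc eng ndB1q2)) (c := (Fn2.sc esg cd1q2))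
    ⟨T.l 0,
      by decide +kernel⟩
theorem cB_n2_22 : CertNd 1123304337 42154910 1040187392 5207648 (ftNearE false 2 mT 1 5 19 1126) [⟨3, 505732400⟩] (Node.sc eng ndB2q2) (Fn2.sc esg cd2q2) :=
  certNd (T := (ftNearE false 2 mT 1 5 19 1126)) (L := [⟨3, 505732400⟩]) (P1 := 1123304337) (W1 := 42154910) (P3 := 1040187392) (W3 := 5207648) (n := (Node.sc eng ndB2q2)) (c := (Fn2.sc esg cd2q2))
    ⟨T.l 0,
      by decide +kernel⟩
theorem cB_n2_32 : CertNd 1123304337 42154910 1040187392 5207648 (ftNearE false 2 mT 1 5 19 1126) [⟨3, 505732400⟩] (Node.sc eng ndB3q2) (Fn2.sc esg cd3q2) :=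
  certNd (T := (ftNearE false 2 mT 1 5 19 1126)) (L := [⟨3, 505732400⟩]) (P1 := 1123304337) (W1 := 42154910) (P3 := 1040187392) (W3 := 5207648) (n := (Node.sc eng ndB3q2)) (c := (Fn2.sc esg cd3q2))
    ⟨T.l 0,
      by decide +kernel⟩
theorem cB_n2_42 : CertNd 1123304337 42154910 1040187392 5207648 (ftNearE false 2 mT 1 5 19 1126) [⟨3, 505732400⟩] (Node.sc eng ndB4q2) (Fn2.sc esg cd4q2) :=
  certNd (T := (ftNearE false 2 mT 1 5 19 1126)) (L := [⟨3, 505732400⟩]) (P1 := 1123304337) (W1 := 42154910) (P3 := 1040187392) (W3 := 5207648) (n := (Node.sc eng ndB4q2)) (c := (Fn2.sc esg cd4q2))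
    ⟨T.l 0,
      by decide +kernel⟩
theorem cB_n2_52 : CertNd 1123304337 42154910 1040187392 5207648 (ftNearE false 2 mT 1 5 19 1126) [⟨3, 505732400⟩] (Node.sc eng ndB5q2) (Fn2.sc esg cd5q2) :=
  certNd (T := (ftNearE false 2 mT 1 5 19 1126)) (L := [⟨3, 505732400⟩]) (P1 := 1123304337) (W1 := 42154910) (P3 := 1040187392) (W3 := 5207648) (n := (Node.sc eng ndB5q2)) (c := (Fn2.sc esg cd5q2))
    ⟨T.l 0,
      by decide +kernel⟩
theorem cB_R2_2 : CertSd 1123304337 42154910 1040187392 5207648 (ftFarG false 2 mT 1 5 19 1126 1026) [] idF (cnF 1026 1000) pcE2 (Fn3.sc esg pd2) :=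
  certSd (T := (ftFarG false 2 mT 1 5 19 1126 1026)) (L := []) (P1 := 1123304337) (W1 := 42154910) (P3 := 1040187392) (W3 := 5207648) (Y := idF) (X := (cnF 1026 1000))
    (pc := pcE2) (c := (Fn3.sc esg pd2)) ⟨T.l 0,
      by decide +kernel⟩
theorem cB_N2_2 : CertSd 1123304337 42154910 1040187392 5207648 (ftNearE false 2 mT 1 5 19 1126) [] idF (cnF 471 1000) pcE2 (Fn3.sc esg pd2) :=
  certSd (T := (ftNearE false 2 mT 1 5 19 1126)) (L := []) (P1 := 1123304337) (W1 := 42154910) (P3 := 1040187392) (W3 := 5207648) (Y := idF) (X := (cnF 471 1000))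
    (pc := pcE2) (c := (Fn3.sc esg pd2)) ⟨T.l 0,
      by decide +kernel⟩
theorem cB_r3_02 : CertNd 0 536870912 1040187392 5207648 (ftFarG false 2 mT 1 5 19 1181 1026) [⟨0, 1158020144⟩, ⟨1, 1227451760⟩, ⟨2, 1101659111⟩] (Node.sc eng ndB0q2) (Fn2.sc esg cd0q2) :=
  certNd (T := (ftFarG false 2 mT 1 5 19 1181 1026)) (L := [⟨0, 1158020144⟩, ⟨1, 1227451760⟩, ⟨2, 1101659111⟩]) (P1 := 0) (W1 := 536870912) (P3 := 1040187392) (W3 := 5207648) (n := (Node.sc eng ndB0q2)) (c := (Fn2.sc esg cd0q2))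
    ⟨T.l 5,
      by decide +kernel⟩
theorem cB_r3_12 : CertNd 1158020144 69431616 1040187392 5207648 (ftFarG false 2 mT 1 5 19 1181 1026) [⟨2, 1101659111⟩] (Node.sc eng ndB1q2) (Fn2.sc esg cd1q2) :=
  certNd (T := (ftFarG false 2 mT 1 5 19 1181 1026)) (L := [⟨2, 1101659111⟩]) (P1 := 1158020144) (W1 := 69431616) (P3 := 1040187392) (W3 := 5207648) (n := (Node.sc eng ndB1q2)) (c := (Fn2.sc esg cd1q2))
    ⟨T.l 0,
      by decide +kernel⟩
theorem cB_r3_22 : CertNd 1158020144 69431616 1040187392 5207648 (ftFarG false 2 mT 1 5 19 1181 1026) [⟨2, 1101659111⟩] (Node.sc eng ndB2q2) (Fn2.sc esg cd2q2) :=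
  certNd (T := (ftFarG false 2 mT 1 5 19 1181 1026)) (L := [⟨2, 1101659111⟩]) (P1 := 1158020144) (W1 := 69431616) (P3 := 1040187392) (W3 := 5207648) (n := (Node.sc eng ndB2q2)) (c := (Fn2.sc esg cd2q2))
    ⟨T.l 0,
      by decide +kernel⟩
theorem cB_r3_32 : CertNd 1158020144 69431616 1040187392 5207648 (ftFarG false 2 mT 1 5 19 1181 1026) [⟨2, 1101659111⟩] (Node.sc eng ndB3q2) (Fn2.sc esg cd3q2) :=
  certNd (T := (ftFarG false 2 mT 1 5 19 1181 1026)) (L := [⟨2, 1101659111⟩]) (P1 := 1158020144) (W1 := 69431616) (P3 := 1040187392) (W3 := 5207648) (n := (Node.sc eng ndB3q2)) (c := (Fn2.sc esg cd3q2))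
    ⟨T.l 0,
      by decide +kernel⟩
theorem cB_r3_42 : CertNd 1158020144 69431616 1040187392 5207648 (ftFarG false 2 mT 1 5 19 1181 1026) [⟨2, 1101659111⟩] (Node.sc eng ndB4q2) (Fn2.sc esg cd4q2) :=
  certNd (T := (ftFarG false 2 mT 1 5 19 1181 1026)) (L := [⟨2, 1101659111⟩]) (P1 := 1158020144) (W1 := 69431616) (P3 := 1040187392) (W3 := 5207648) (n := (Node.sc eng ndB4q2)) (c := (Fn2.sc esg cd4q2))
    ⟨T.l 0,
      by decide +kernel⟩
theorem cB_r3_52 : CertNd 1158020144 69431616 1040187392 5207648 (ftFarG false 2 mT 1 5 19 1181 1026) [⟨2, 1101659111⟩] (Node.sc eng ndB5q2) (Fn2.sc esg cd5q2) :=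
  certNd (T := (ftFarG false 2 mT 1 5 19 1181 1026)) (L := [⟨2, 1101659111⟩]) (P1 := 1158020144) (W1 := 69431616) (P3 := 1040187392) (W3 := 5207648) (n := (Node.sc eng ndB5q2)) (c := (Fn2.sc esg cd5q2))
    ⟨T.a (T.a (T.l 0) (T.l 0)) (T.l 0),
      by decide +kernel⟩
theorem cB_n3_02z : CertNd 0 107374182 1040187392 5207648 (ftNearE false 2 mT 1 5 19 1181) [⟨0, 1158020144⟩, ⟨1, 1227451760⟩] ⟨ndB0q2.Y, onF, Fn2.sc eng kq02, lq02⟩ (Fn2.sc esg cq02) :=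
  certNd (T := (ftNearE false 2 mT 1 5 19 1181)) (L := [⟨0, 1158020144⟩, ⟨1, 1227451760⟩]) (P1 := 0) (W1 := 107374182) (P3 := 1040187392) (W3 := 5207648) (n := ⟨ndB0q2.Y, onF, Fn2.sc eng kq02, lq02⟩) (c := (Fn2.sc esg cq02))
    ⟨T.l 0,
      by decide +kernel⟩
theorem cB_n3_02 : CertNd 0 536870912 1040187392 5207648 (ftNearE false 2 mT 1 5 19 1181) [⟨0, 1158020144⟩, ⟨1, 1227451760⟩, ⟨2, 107374182⟩, ⟨3, 505732400⟩] (Node.sc eng ndB0q2) (Fn2.sc esg cd0q2) :=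
  certNd (T := (ftNearE false 2 mT 1 5 19 1181)) (L := [⟨0, 1158020144⟩, ⟨1, 1227451760⟩, ⟨2, 107374182⟩, ⟨3, 505732400⟩]) (P1 := 0) (W1 := 536870912) (P3 := 1040187392) (W3 := 5207648) (n := (Node.sc eng ndB0q2)) (c := (Fn2.sc esg cd0q2))
    ⟨T.a (T.a (T.l 3) (T.a (T.l 0) (T.l 0))) (T.a (T.a (T.l 0) (T.l 0)) (T.l 1)),
      by decide +kernel⟩
theorem cB_n3_12 : CertNd 1158020144 69431616 1040187392 5207648 (ftNearE false 2 mT 1 5 19 1181) [⟨3, 505732400⟩] (Node.sc eng ndB1q2) (Fn2.sc esg cd1q2) :=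
  certNd (T := (ftNearE false 2 mT 1 5 19 1181)) (L := [⟨3, 505732400⟩]) (P1 := 1158020144) (W1 := 69431616) (P3 := 1040187392) (W3 := 5207648) (n := (Node.sc eng ndB1q2)) (c := (Fn2.sc esg cd1q2))
    ⟨T.a (T.l 0) (T.a (T.l 0) (T.a (T.l 0) (T.l 0))),
      by decide +kernel⟩
theorem cB_n3_22 : CertNd 1158020144 69431616 1040187392 5207648 (ftNearE false 2 mT 1 5 19 1181) [⟨3, 505732400⟩] (Node.sc eng ndB2q2) (Fn2.sc esg cd2q2) :=
  certNd (T := (ftNearE false 2 mT 1 5 19 1181)) (L := [⟨3, 505732400⟩]) (P1 := 1158020144) (W1 := 69431616) (P3 := 1040187392) (W3 := 5207648) (n := (Node.sc eng ndB2q2)) (c := (Fn2.sc esg cd2q2))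
    ⟨T.a (T.l 0) (T.l 0),
      by decide +kernel⟩
theorem cB_n3_32 : CertNd 1158020144 69431616 1040187392 5207648 (ftNearE false 2 mT 1 5 19 1181) [⟨3, 505732400⟩] (Node.sc eng ndB3q2) (Fn2.sc esg cd3q2) :=
  certNd (T := (ftNearE false 2 mT 1 5 19 1181)) (L := [⟨3, 505732400⟩]) (P1 := 1158020144) (W1 := 69431616) (P3 := 1040187392) (W3 := 5207648) (n := (Node.sc eng ndB3q2)) (c := (Fn2.sc esg cd3q2))
    ⟨T.l 0,
      by decide +kernel⟩
theorem cB_n3_42 : CertNd 1158020144 69431616 1040187392 5207648 (ftNearE false 2 mT 1 5 19 1181) [⟨3, 505732400⟩] (Node.sc eng ndB4q2) (Fn2.sc esg cd4q2) :=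
  certNd (T := (ftNearE false 2 mT 1 5 19 1181)) (L := [⟨3, 505732400⟩]) (P1 := 1158020144) (W1 := 69431616) (P3 := 1040187392) (W3 := 5207648) (n := (Node.sc eng ndB4q2)) (c := (Fn2.sc esg cd4q2))
    ⟨T.l 0,
      by decide +kernel⟩
theorem cB_n3_52 : CertNd 1158020144 69431616 1040187392 5207648 (ftNearE false 2 mT 1 5 19 1181) [⟨3, 505732400⟩] (Node.sc eng ndB5q2) (Fn2.sc esg cd5q2) :=
  certNd (T := (ftNearE false 2 mT 1 5 19 1181)) (L := [⟨3, 505732400⟩]) (P1 := 1158020144) (W1 := 69431616) (P3 := 1040187392) (W3 := 5207648) (n := (Node.sc eng ndB5q2)) (c := (Fn2.sc esg cd5q2))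
    ⟨T.l 0,
      by decide +kernel⟩
theorem cB_R3_2 : CertSd 1158020144 69431616 1040187392 5207648 (ftFarG false 2 mT 1 5 19 1181 1026) [] idF (cnF 1026 1000) pcE2 (Fn3.sc esg pd2) :=
  certSd (T := (ftFarG false 2 mT 1 5 19 1181 1026)) (L := []) (P1 := 1158020144) (W1 := 69431616) (P3 := 1040187392) (W3 := 5207648) (Y := idF) (X := (cnF 1026 1000))
    (pc := pcE2) (c := (Fn3.sc esg pd2)) ⟨T.l 0,
      by decide +kernel⟩
theorem cB_N3_2 : CertSd 1158020144 69431616 1040187392 5207648 (ftNearE false 2 mT 1 5 19 1181) [] idF (cnF 471 1000) pcE2 (Fn3.sc esg pd2) :=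
  certSd (T := (ftNearE false 2 mT 1 5 19 1181)) (L := []) (P1 := 1158020144) (W1 := 69431616) (P3 := 1040187392) (W3 := 5207648) (Y := idF) (X := (cnF 471 1000))
    (pc := pcE2) (c := (Fn3.sc esg pd2)) ⟨T.l 0,
      by decide +kernel⟩
theorem cB_r4_02 : CertNd 0 536870912 1040187392 5207648 (ftFarG false 2 mT 1 5 19 1291 1026) [⟨0, 1220012658⟩, ⟨1, 1407230048⟩, ⟨2, 1101659111⟩] (Node.sc eng ndB0q2) (Fn2.sc esg cd0q2) :=
  certNd (T := (ftFarG false 2 mT 1 5 19 1291 1026)) (L := [⟨0, 1220012658⟩, ⟨1, 1407230048⟩, ⟨2, 1101659111⟩]) (P1 := 0) (W1 := 536870912) (P3 := 1040187392) (W3 := 5207648) (n := (Node.sc eng ndB0q2)) (c := (Fn2.sc esg cd0q2))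
    ⟨T.l 5,
      by decide +kernel⟩
theorem cB_r4_12 : CertNd 1220012658 187217390 1040187392 5207648 (ftFarG false 2 mT 1 5 19 1291 1026) [⟨2, 1101659111⟩] (Node.sc eng ndB1q2) (Fn2.sc esg cd1q2) :=
  certNd (T := (ftFarG false 2 mT 1 5 19 1291 1026)) (L := [⟨2, 1101659111⟩]) (P1 := 1220012658) (W1 := 187217390) (P3 := 1040187392) (W3 := 5207648) (n := (Node.sc eng ndB1q2)) (c := (Fn2.sc esg cd1q2))
    ⟨T.l 0,
      by decide +kernel⟩
theorem cB_r4_22 : CertNd 1220012658 187217390 1040187392 5207648 (ftFarG false 2 mT 1 5 19 1291 1026) [⟨2, 1101659111⟩] (Node.sc eng ndB2q2) (Fn2.sc esg cd2q2) :=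
  certNd (T := (ftFarG false 2 mT 1 5 19 1291 1026)) (L := [⟨2, 1101659111⟩]) (P1 := 1220012658) (W1 := 187217390) (P3 := 1040187392) (W3 := 5207648) (n := (Node.sc eng ndB2q2)) (c := (Fn2.sc esg cd2q2))
    ⟨T.l 0,
      by decide +kernel⟩
theorem cB_r4_32 : CertNd 1220012658 187217390 1040187392 5207648 (ftFarG false 2 mT 1 5 19 1291 1026) [⟨2, 1101659111⟩] (Node.sc eng ndB3q2) (Fn2.sc esg cd3q2) :=
  certNd (T := (ftFarG false 2 mT 1 5 19 1291 1026)) (L := [⟨2, 1101659111⟩]) (P1 := 1220012658) (W1 := 187217390) (P3 := 1040187392) (W3 := 5207648) (n := (Node.sc eng ndB3q2)) (c := (Fn2.sc esg cd3q2))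
    ⟨T.l 0,
      by decide +kernel⟩
theorem cB_r4_42 : CertNd 1220012658 187217390 1040187392 5207648 (ftFarG false 2 mT 1 5 19 1291 1026) [⟨2, 1101659111⟩] (Node.sc eng ndB4q2) (Fn2.sc esg cd4q2) :=
  certNd (T := (ftFarG false 2 mT 1 5 19 1291 1026)) (L := [⟨2, 1101659111⟩]) (P1 := 1220012658) (W1 := 187217390) (P3 := 1040187392) (W3 := 5207648) (n := (Node.sc eng ndB4q2)) (c := (Fn2.sc esg cd4q2))
    ⟨T.l 0,
      by decide +kernel⟩
theorem cB_r4_52 : CertNd 1220012658 187217390 1040187392 5207648 (ftFarG false 2 mT 1 5 19 1291 1026) [⟨2, 1101659111⟩] (Node.sc eng ndB5q2) (Fn2.sc esg cd5q2) :=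
  certNd (T := (ftFarG false 2 mT 1 5 19 1291 1026)) (L := [⟨2, 1101659111⟩]) (P1 := 1220012658) (W1 := 187217390) (P3 := 1040187392) (W3 := 5207648) (n := (Node.sc eng ndB5q2)) (c := (Fn2.sc esg cd5q2))
    ⟨T.a (T.a (T.l 0) (T.l 0)) (T.l 0),
      by decide +kernel⟩
theorem cB_n4_02z : CertNd 0 107374182 1040187392 5207648 (ftNearE false 2 mT 1 5 19 1291) [⟨0, 1220012658⟩, ⟨1, 1407230048⟩] ⟨ndB0q2.Y, onF, Fn2.sc eng kq02, lq02⟩ (Fn2.sc esg cq02) :=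
  certNd (T := (ftNearE false 2 mT 1 5 19 1291)) (L := [⟨0, 1220012658⟩, ⟨1, 1407230048⟩]) (P1 := 0) (W1 := 107374182) (P3 := 1040187392) (W3 := 5207648) (n := ⟨ndB0q2.Y, onF, Fn2.sc eng kq02, lq02⟩) (c := (Fn2.sc esg cq02))
    ⟨T.l 0,
      by decide +kernel⟩
theorem cB_n4_02 : CertNd 0 536870912 1040187392 5207648 (ftNearE false 2 mT 1 5 19 1291) [⟨0, 1220012658⟩, ⟨1, 1407230048⟩, ⟨2, 107374182⟩, ⟨3, 505732400⟩] (Node.sc eng ndB0q2) (Fn2.sc esg cd0q2) :=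
  certNd (T := (ftNearE false 2 mT 1 5 19 1291)) (L := [⟨0, 1220012658⟩, ⟨1, 1407230048⟩, ⟨2, 107374182⟩, ⟨3, 505732400⟩]) (P1 := 0) (W1 := 536870912) (P3 := 1040187392) (W3 := 5207648) (n := (Node.sc eng ndB0q2)) (c := (Fn2.sc esg cd0q2))
    ⟨T.a (T.a (T.a (T.l 5) (T.l 0)) (T.l 0)) (T.l 1),
      by decide +kernel⟩
theorem cB_n4_12 : CertNd 1220012658 187217390 1040187392 5207648 (ftNearE false 2 mT 1 5 19 1291) [⟨3, 505732400⟩] (Node.sc eng ndB1q2) (Fn2.sc esg cd1q2) :=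
  certNd (T := (ftNearE false 2 mT 1 5 19 1291)) (L := [⟨3, 505732400⟩]) (P1 := 1220012658) (W1 := 187217390) (P3 := 1040187392) (W3 := 5207648) (n := (Node.sc eng ndB1q2)) (c := (Fn2.sc esg cd1q2))
    ⟨T.a (T.a (T.a (T.a (T.l 0) (T.a (T.l 0) (T.a (T.a (T.l 0) (T.a (T.l 0) (T.l 0))) (T.l 0)))) (T.l 0)) (T.l 0)) (T.l 0),
      by decide +kernel⟩
theorem cB_n4_22 : CertNd 1220012658 187217390 1040187392 5207648 (ftNearE false 2 mT 1 5 19 1291) [⟨3, 505732400⟩] (Node.sc eng ndB2q2) (Fn2.sc esg cd2q2) :=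
  certNd (T := (ftNearE false 2 mT 1 5 19 1291)) (L := [⟨3, 505732400⟩]) (P1 := 1220012658) (W1 := 187217390) (P3 := 1040187392) (W3 := 5207648) (n := (Node.sc eng ndB2q2)) (c := (Fn2.sc esg cd2q2))
    ⟨T.a (T.a (T.a (T.a (T.l 0) (T.l 0)) (T.l 0)) (T.l 0)) (T.l 0),
      by decide +kernel⟩
theorem cB_n4_32 : CertNd 1220012658 187217390 1040187392 5207648 (ftNearE false 2 mT 1 5 19 1291) [⟨3, 505732400⟩] (Node.sc eng ndB3q2) (Fn2.sc esg cd3q2) :=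
  certNd (T := (ftNearE false 2 mT 1 5 19 1291)) (L := [⟨3, 505732400⟩]) (P1 := 1220012658) (W1 := 187217390) (P3 := 1040187392) (W3 := 5207648) (n := (Node.sc eng ndB3q2)) (c := (Fn2.sc esg cd3q2))
    ⟨T.l 0,
      by decide +kernel⟩
theorem cB_n4_42 : CertNd 1220012658 187217390 1040187392 5207648 (ftNearE false 2 mT 1 5 19 1291) [⟨3, 505732400⟩] (Node.sc eng ndB4q2) (Fn2.sc esg cd4q2) :=
  certNd (T := (ftNearE false 2 mT 1 5 19 1291)) (L := [⟨3, 505732400⟩]) (P1 := 1220012658) (W1 := 187217390) (P3 := 1040187392) (W3 := 5207648) (n := (Node.sc eng ndB4q2)) (c := (Fn2.sc esg cd4q2))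
    ⟨T.l 0,
      by decide +kernel⟩
theorem cB_n4_52 : CertNd 1220012658 187217390 1040187392 5207648 (ftNearE false 2 mT 1 5 19 1291) [⟨3, 505732400⟩] (Node.sc eng ndB5q2) (Fn2.sc esg cd5q2) :=
  certNd (T := (ftNearE false 2 mT 1 5 19 1291)) (L := [⟨3, 505732400⟩]) (P1 := 1220012658) (W1 := 187217390) (P3 := 1040187392) (W3 := 5207648) (n := (Node.sc eng ndB5q2)) (c := (Fn2.sc esg cd5q2))
    ⟨T.l 0,
      by decide +kernel⟩
theorem cB_R4_2 : CertSd 1220012658 187217390 1040187392 5207648 (ftFarG false 2 mT 1 5 19 1291 1026) [] idF (cnF 1026 1000) pcE2 (Fn3.sc esg pd2) :=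
  certSd (T := (ftFarG false 2 mT 1 5 19 1291 1026)) (L := []) (P1 := 1220012658) (W1 := 187217390) (P3 := 1040187392) (W3 := 5207648) (Y := idF) (X := (cnF 1026 1000))
    (pc := pcE2) (c := (Fn3.sc esg pd2)) ⟨T.l 0,
      by decide +kernel⟩
theorem cB_N4_2 : CertSd 1220012658 187217390 1040187392 5207648 (ftNearE false 2 mT 1 5 19 1291) [] idF (cnF 471 1000) pcE2 (Fn3.sc esg pd2) :=
  certSd (T := (ftNearE false 2 mT 1 5 19 1291)) (L := []) (P1 := 1220012658) (W1 := 187217390) (P3 := 1040187392) (W3 := 5207648) (Y := idF) (X := (cnF 471 1000))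
    (pc := pcE2) (c := (Fn3.sc esg pd2)) ⟨T.l 0,
      by decide +kernel⟩
theorem cB_r5_02 : CertNd 0 536870912 1040187392 5207648 (ftFarG false 2 mT 1 5 19 1615 1026) [⟨0, 1399790946⟩, ⟨1, 1739509918⟩, ⟨2, 1101659111⟩] (Node.sc eng ndB0q2) (Fn2.sc esg cd0q2) :=
  certNd (T := (ftFarG false 2 mT 1 5 19 1615 1026)) (L := [⟨0, 1399790946⟩, ⟨1, 1739509918⟩, ⟨2, 1101659111⟩]) (P1 := 0) (W1 := 536870912) (P3 := 1040187392) (W3 := 5207648) (n := (Node.sc eng ndB0q2)) (c := (Fn2.sc esg cd0q2))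
    ⟨T.l 1,
      by decide +kernel⟩
theorem cB_r5_12 : CertNd 1399790946 210821790 1040187392 5207648 (ftFarG false 2 mT 1 5 19 1615 1026) [⟨2, 1101659111⟩] (Node.sc eng ndB1q2) (Fn2.sc esg cd1q2) :=
  certNd (T := (ftFarG false 2 mT 1 5 19 1615 1026)) (L := [⟨2, 1101659111⟩]) (P1 := 1399790946) (W1 := 210821790) (P3 := 1040187392) (W3 := 5207648) (n := (Node.sc eng ndB1q2)) (c := (Fn2.sc esg cd1q2))
    ⟨T.l 0,
      by decide +kernel⟩
theorem cB_r5_22 : CertNd 1399790946 210821790 1040187392 5207648 (ftFarG false 2 mT 1 5 19 1615 1026) [⟨2, 1101659111⟩] (Node.sc eng ndB2q2) (Fn2.sc esg cd2q2) :=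
  certNd (T := (ftFarG false 2 mT 1 5 19 1615 1026)) (L := [⟨2, 1101659111⟩]) (P1 := 1399790946) (W1 := 210821790) (P3 := 1040187392) (W3 := 5207648) (n := (Node.sc eng ndB2q2)) (c := (Fn2.sc esg cd2q2))
    ⟨T.l 0,
      by decide +kernel⟩
theorem cB_r5_32 : CertNd 1399790946 210821790 1040187392 5207648 (ftFarG false 2 mT 1 5 19 1615 1026) [⟨2, 1101659111⟩] (Node.sc eng ndB3q2) (Fn2.sc esg cd3q2) :=
  certNd (T := (ftFarG false 2 mT 1 5 19 1615 1026)) (L := [⟨2, 1101659111⟩]) (P1 := 1399790946) (W1 := 210821790) (P3 := 1040187392) (W3 := 5207648) (n := (Node.sc eng ndB3q2)) (c := (Fn2.sc esg cd3q2))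
    ⟨T.l 0,
      by decide +kernel⟩
theorem cB_r5_42 : CertNd 1399790946 210821790 1040187392 5207648 (ftFarG false 2 mT 1 5 19 1615 1026) [⟨2, 1101659111⟩] (Node.sc eng ndB4q2) (Fn2.sc esg cd4q2) :=
  certNd (T := (ftFarG false 2 mT 1 5 19 1615 1026)) (L := [⟨2, 1101659111⟩]) (P1 := 1399790946) (W1 := 210821790) (P3 := 1040187392) (W3 := 5207648) (n := (Node.sc eng ndB4q2)) (c := (Fn2.sc esg cd4q2))
    ⟨T.l 0,
      by decide +kernel⟩
theorem cB_r5_52 : CertNd 1399790946 210821790 1040187392 5207648 (ftFarG false 2 mT 1 5 19 1615 1026) [⟨2, 1101659111⟩] (Node.sc eng ndB5q2) (Fn2.sc esg cd5q2) :=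
  certNd (T := (ftFarG false 2 mT 1 5 19 1615 1026)) (L := [⟨2, 1101659111⟩]) (P1 := 1399790946) (W1 := 210821790) (P3 := 1040187392) (W3 := 5207648) (n := (Node.sc eng ndB5q2)) (c := (Fn2.sc esg cd5q2))
    ⟨T.a (T.l 0) (T.l 0),
      by decide +kernel⟩
theorem cB_r5_13 : CertNd 1610612736 128897182 1040187392 5207648 (ftFarG false 3 mT 1 5 19 1615 1026) [⟨2, 1101659111⟩] (Node.sc eng ndB1q3) (Fn2.sc esg cd1q3) :=
  certNd (T := (ftFarG false 3 mT 1 5 19 1615 1026)) (L := [⟨2, 1101659111⟩]) (P1 := 1610612736) (W1 := 128897182) (P3 := 1040187392) (W3 := 5207648) (n := (Node.sc eng ndB1q3)) (c := (Fn2.sc esg cd1q3))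
    ⟨T.l 0,
      by decide +kernel⟩
theorem cB_r5_23 : CertNd 1610612736 128897182 1040187392 5207648 (ftFarG false 3 mT 1 5 19 1615 1026) [⟨2, 1101659111⟩] (Node.sc eng ndB2q3) (Fn2.sc esg cd2q3) :=
  certNd (T := (ftFarG false 3 mT 1 5 19 1615 1026)) (L := [⟨2, 1101659111⟩]) (P1 := 1610612736) (W1 := 128897182) (P3 := 1040187392) (W3 := 5207648) (n := (Node.sc eng ndB2q3)) (c := (Fn2.sc esg cd2q3))
    ⟨T.l 0,
      by decide +kernel⟩
theorem cB_r5_33 : CertNd 0 1230186008 1040187392 5207648 (ftFarG false 3 mT 1 5 19 1615 1026) [⟨0, 1399790946⟩, ⟨1, 1739509918⟩, ⟨2, 1101659111⟩] (Node.sc eng ndB3q3) (Fn2.sc esg cd3q3) :=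
  certNd (T := (ftFarG false 3 mT 1 5 19 1615 1026)) (L := [⟨0, 1399790946⟩, ⟨1, 1739509918⟩, ⟨2, 1101659111⟩]) (P1 := 0) (W1 := 1230186008) (P3 := 1040187392) (W3 := 5207648) (n := (Node.sc eng ndB3q3)) (c := (Fn2.sc esg cd3q3))
    ⟨T.l 5,
      by decide +kernel⟩
theorem cB_r5_43 : CertNd 0 1230186008 1040187392 5207648 (ftFarG false 3 mT 1 5 19 1615 1026) [⟨0, 1399790946⟩, ⟨1, 1739509918⟩, ⟨2, 1101659111⟩] (Node.sc eng ndB4q3) (Fn2.sc esg cd4q3) :=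
  certNd (T := (ftFarG false 3 mT 1 5 19 1615 1026)) (L := [⟨0, 1399790946⟩, ⟨1, 1739509918⟩, ⟨2, 1101659111⟩]) (P1 := 0) (W1 := 1230186008) (P3 := 1040187392) (W3 := 5207648) (n := (Node.sc eng ndB4q3)) (c := (Fn2.sc esg cd4q3))
    ⟨T.l 5,
      by decide +kernel⟩
theorem cB_r5_53 : CertNd 0 1230186008 1040187392 5207648 (ftFarG false 3 mT 1 5 19 1615 1026) [⟨0, 1399790946⟩, ⟨1, 1739509918⟩, ⟨2, 1101659111⟩] (Node.sc eng ndB5q3) (Fn2.sc esg cd5q3) :=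
  certNd (T := (ftFarG false 3 mT 1 5 19 1615 1026)) (L := [⟨0, 1399790946⟩, ⟨1, 1739509918⟩, ⟨2, 1101659111⟩]) (P1 := 0) (W1 := 1230186008) (P3 := 1040187392) (W3 := 5207648) (n := (Node.sc eng ndB5q3)) (c := (Fn2.sc esg cd5q3))
    ⟨T.a (T.l 3) (T.a (T.l 0) (T.l 0)),
      by decide +kernel⟩
theorem cB_n5_02z : CertNd 0 107374182 1040187392 5207648 (ftNearE false 2 mT 1 5 19 1615) [⟨0, 1399790946⟩, ⟨1, 1739509918⟩] ⟨ndB0q2.Y, onF, Fn2.sc eng kq02, lq02⟩ (Fn2.sc esg cq02) :=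
  certNd (T := (ftNearE false 2 mT 1 5 19 1615)) (L := [⟨0, 1399790946⟩, ⟨1, 1739509918⟩]) (P1 := 0) (W1 := 107374182) (P3 := 1040187392) (W3 := 5207648) (n := ⟨ndB0q2.Y, onF, Fn2.sc eng kq02, lq02⟩) (c := (Fn2.sc esg cq02))
    ⟨T.l 0,
      by decide +kernel⟩
theorem cB_n5_02 : CertNd 0 536870912 1040187392 5207648 (ftNearE false 2 mT 1 5 19 1615) [⟨0, 1399790946⟩, ⟨1, 1739509918⟩, ⟨2, 107374182⟩, ⟨3, 505732400⟩] (Node.sc eng ndB0q2) (Fn2.sc esg cd0q2) :=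
  certNd (T := (ftNearE false 2 mT 1 5 19 1615)) (L := [⟨0, 1399790946⟩, ⟨1, 1739509918⟩, ⟨2, 107374182⟩, ⟨3, 505732400⟩]) (P1 := 0) (W1 := 536870912) (P3 := 1040187392) (W3 := 5207648) (n := (Node.sc eng ndB0q2)) (c := (Fn2.sc esg cd0q2))
    ⟨T.l 1,
      by decide +kernel⟩
theorem cB_n5_12 : CertNd 1399790946 210821790 1040187392 5207648 (ftNearE false 2 mT 1 5 19 1615) [⟨3, 505732400⟩] (Node.sc eng ndB1q2) (Fn2.sc esg cd1q2) :=
  certNd (T := (ftNearE false 2 mT 1 5 19 1615)) (L := [⟨3, 505732400⟩]) (P1 := 1399790946) (W1 := 210821790) (P3 := 1040187392) (W3 := 5207648) (n := (Node.sc eng ndB1q2)) (c := (Fn2.sc esg cd1q2))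
    ⟨T.l 0,
      by decide +kernel⟩
theorem cB_n5_22 : CertNd 1399790946 210821790 1040187392 5207648 (ftNearE false 2 mT 1 5 19 1615) [⟨3, 505732400⟩] (Node.sc eng ndB2q2) (Fn2.sc esg cd2q2) :=
  certNd (T := (ftNearE false 2 mT 1 5 19 1615)) (L := [⟨3, 505732400⟩]) (P1 := 1399790946) (W1 := 210821790) (P3 := 1040187392) (W3 := 5207648) (n := (Node.sc eng ndB2q2)) (c := (Fn2.sc esg cd2q2))
    ⟨T.l 0,
      by decide +kernel⟩
theorem cB_n5_32 : CertNd 1399790946 210821790 1040187392 5207648 (ftNearE false 2 mT 1 5 19 1615) [⟨3, 505732400⟩] (Node.sc eng ndB3q2) (Fn2.sc esg cd3q2) :=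
  certNd (T := (ftNearE false 2 mT 1 5 19 1615)) (L := [⟨3, 505732400⟩]) (P1 := 1399790946) (W1 := 210821790) (P3 := 1040187392) (W3 := 5207648) (n := (Node.sc eng ndB3q2)) (c := (Fn2.sc esg cd3q2))
    ⟨T.l 0,
      by decide +kernel⟩
theorem cB_n5_42 : CertNd 1399790946 210821790 1040187392 5207648 (ftNearE false 2 mT 1 5 19 1615) [⟨3, 505732400⟩] (Node.sc eng ndB4q2) (Fn2.sc esg cd4q2) :=
  certNd (T := (ftNearE false 2 mT 1 5 19 1615)) (L := [⟨3, 505732400⟩]) (P1 := 1399790946) (W1 := 210821790) (P3 := 1040187392) (W3 := 5207648) (n := (Node.sc eng ndB4q2)) (c := (Fn2.sc esg cd4q2))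
    ⟨T.l 0,
      by decide +kernel⟩
theorem cB_n5_52 : CertNd 1399790946 210821790 1040187392 5207648 (ftNearE false 2 mT 1 5 19 1615) [⟨3, 505732400⟩] (Node.sc eng ndB5q2) (Fn2.sc esg cd5q2) :=
  certNd (T := (ftNearE false 2 mT 1 5 19 1615)) (L := [⟨3, 505732400⟩]) (P1 := 1399790946) (W1 := 210821790) (P3 := 1040187392) (W3 := 5207648) (n := (Node.sc eng ndB5q2)) (c := (Fn2.sc esg cd5q2))
    ⟨T.l 0,
      by decide +kernel⟩
theorem cB_n5_13 : CertNd 1610612736 128897182 1040187392 5207648 (ftNearG false 3 mT 1 5 19 1615) [⟨3, 505732400⟩] (Node.sc eng ndB1q3) (Fn2.sc esg cd1q3) :=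
  certNd (T := (ftNearG false 3 mT 1 5 19 1615)) (L := [⟨3, 505732400⟩]) (P1 := 1610612736) (W1 := 128897182) (P3 := 1040187392) (W3 := 5207648) (n := (Node.sc eng ndB1q3)) (c := (Fn2.sc esg cd1q3))
    ⟨T.l 0,
      by decide +kernel⟩
theorem cB_n5_23 : CertNd 1610612736 128897182 1040187392 5207648 (ftNearG false 3 mT 1 5 19 1615) [⟨3, 505732400⟩] (Node.sc eng ndB2q3) (Fn2.sc esg cd2q3) :=
  certNd (T := (ftNearG false 3 mT 1 5 19 1615)) (L := [⟨3, 505732400⟩]) (P1 := 1610612736) (W1 := 128897182) (P3 := 1040187392) (W3 := 5207648) (n := (Node.sc eng ndB2q3)) (c := (Fn2.sc esg cd2q3))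
    ⟨T.l 0,
      by decide +kernel⟩
theorem cB_n5_33 : CertNd 0 1230186008 1040187392 5207648 (ftNearG false 3 mT 1 5 19 1615) [⟨0, 1399790946⟩, ⟨1, 1739509918⟩, ⟨3, 505732400⟩] (Node.sc eng ndB3q3) (Fn2.sc esg cd3q3) :=
  certNd (T := (ftNearG false 3 mT 1 5 19 1615)) (L := [⟨0, 1399790946⟩, ⟨1, 1739509918⟩, ⟨3, 505732400⟩]) (P1 := 0) (W1 := 1230186008) (P3 := 1040187392) (W3 := 5207648) (n := (Node.sc eng ndB3q3)) (c := (Fn2.sc esg cd3q3))
    ⟨T.a (T.l 3) (T.a (T.l 3) (T.l 0)),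
      by decide +kernel⟩
theorem cB_n5_43 : CertNd 0 1230186008 1040187392 5207648 (ftNearG false 3 mT 1 5 19 1615) [⟨0, 1399790946⟩, ⟨1, 1739509918⟩, ⟨3, 505732400⟩] (Node.sc eng ndB4q3) (Fn2.sc esg cd4q3) :=
  certNd (T := (ftNearG false 3 mT 1 5 19 1615)) (L := [⟨0, 1399790946⟩, ⟨1, 1739509918⟩, ⟨3, 505732400⟩]) (P1 := 0) (W1 := 1230186008) (P3 := 1040187392) (W3 := 5207648) (n := (Node.sc eng ndB4q3)) (c := (Fn2.sc esg cd4q3))
    ⟨T.a (T.l 3) (T.a (T.l 0) (T.l 0)),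
      by decide +kernel⟩
theorem cB_n5_53 : CertNd 0 1230186008 1040187392 5207648 (ftNearG false 3 mT 1 5 19 1615) [⟨0, 1399790946⟩, ⟨1, 1739509918⟩, ⟨3, 505732400⟩] (Node.sc eng ndB5q3) (Fn2.sc esg cd5q3) :=
  certNd (T := (ftNearG false 3 mT 1 5 19 1615)) (L := [⟨0, 1399790946⟩, ⟨1, 1739509918⟩, ⟨3, 505732400⟩]) (P1 := 0) (W1 := 1230186008) (P3 := 1040187392) (W3 := 5207648) (n := (Node.sc eng ndB5q3)) (c := (Fn2.sc esg cd5q3))
    ⟨T.a (T.l 3) (T.l 5),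
      by decide +kernel⟩
theorem cB_R5_2 : CertSd 1399790946 210821790 1040187392 5207648 (ftFarG false 2 mT 1 5 19 1615 1026) [] idF (cnF 1026 1000) pcE2 (Fn3.sc esg pd2) :=
  certSd (T := (ftFarG false 2 mT 1 5 19 1615 1026)) (L := []) (P1 := 1399790946) (W1 := 210821790) (P3 := 1040187392) (W3 := 5207648) (Y := idF) (X := (cnF 1026 1000))
    (pc := pcE2) (c := (Fn3.sc esg pd2)) ⟨T.l 0,
      by decide +kernel⟩
theorem cB_N5_2 : CertSd 1399790946 210821790 1040187392 5207648 (ftNearE false 2 mT 1 5 19 1615) [] idF (cnF 471 1000) pcE2 (Fn3.sc esg pd2) :=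
  certSd (T := (ftNearE false 2 mT 1 5 19 1615)) (L := []) (P1 := 1399790946) (W1 := 210821790) (P3 := 1040187392) (W3 := 5207648) (Y := idF) (X := (cnF 471 1000))
    (pc := pcE2) (c := (Fn3.sc esg pd2)) ⟨T.l 0,
      by decide +kernel⟩
theorem cB_R5_3 : CertSd 1610612736 119555548 1040187392 5207648 (ftFarG false 3 mT 1 5 19 1615 1026) [] idF (cnF 1026 1000) pcE3 (Fn3.sc esg pd3) :=
  certSd (T := (ftFarG false 3 mT 1 5 19 1615 1026)) (L := []) (P1 := 1610612736) (W1 := 119555548) (P3 := 1040187392) (W3 := 5207648) (Y := idF) (X := (cnF 1026 1000))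
    (pc := pcE3) (c := (Fn3.sc esg pd3)) ⟨T.l 0,
      by decide +kernel⟩
theorem cB_N5_3 : CertSd 1610612736 128897182 1040187392 5207648 (ftNearG false 3 mT 1 5 19 1615) [] idF (cnF 471 1000) pcE3 (Fn3.sc esg pd3) :=
  certSd (T := (ftNearG false 3 mT 1 5 19 1615)) (L := []) (P1 := 1610612736) (W1 := 128897182) (P3 := 1040187392) (W3 := 5207648) (Y := idF) (X := (cnF 471 1000))
    (pc := pcE3) (c := (Fn3.sc esg pd3)) ⟨T.l 0,
      by decide +kernel⟩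

end Pool.Agent.Strip051.G.I9688_9736.Tab
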