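import Pool.Agent.Strip051.PB.FlAsmH
import Pool.Agent.Strip051.PB.PairU
import Pool.Agent.Strip051.G.I9688_9736.Tab

/-! # Slopes (generated) -/

set_option linter.all false
set_option maxRecDepth 100000

namespace Pool.Agent.Strip051.G.I9688_9736.Tab

open Pool.Agent.Strip051.PB

attribute [local irreducible] padd psub pneg pmul psq pinv psqrt psqrtg pabs pps pmax pmin pphi
  plam pcase phf pnat prat pscale pnorm pdc pnc pone ppos pnn pscaleT pwT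
  pwB0 pwB3 pmA pwL

noncomputable def c1g_sf : Sl1 c1g := ⟨_, fun h1 => (pr_sqrtg (pr_csub (enc_pnc _ 1) (pr_scaleT 3 4 (pr_sq h1))))⟩
noncomputable def kcg_6_sf : Sl2 kcg_6 := ⟨_, fun h1 h2 => (pr_addc h1 (enc_rat _ 781 1742))⟩
noncomputable def kcg_9_sf : Sl2 kcg_9 := ⟨_, fun h1 h2 => (pr_addc h1 (enc_rat _ 481 1000))⟩
noncomputable def kcg_12_sf : Sl2 kcg_12 := ⟨_, fun h1 h2 => (pr_addc h1 (enc_rat _ 61 125))⟩
noncomputable def kcg_13_sf : Sl2 kcg_13 := ⟨_, fun h1 h2 => (pr_scaleT 8426259229 750000000 h1)⟩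
noncomputable def kcg_18_sf : Sl2 kcg_18 := ⟨_, fun h1 h2 => (pr_scaleT 4562503 75000 h1)⟩
noncomputable def kcg_34_sf : Sl2 kcg_34 := ⟨_, fun h1 h2 => (pr_addc h1 (enc_rat _ 1 2))⟩
noncomputable def kcg_35_sf : Sl2 kcg_35 := ⟨_, fun h1 h2 => (pr_csub (enc_neg (enc_rat _ 61 125)) h1)⟩
noncomputable def kcg_40_sf : Sl2 kcg_40 := ⟨_, fun h1 h2 => (pr_scaleT 78602377237 7000000000 h1)⟩
noncomputable def kcg_45_sf : Sl2 kcg_45 := ⟨_, fun h1 h2 => (pr_scaleT 42503109 700000 h1)⟩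
noncomputable def kcg_59_sf : Sl2 kcg_59 := ⟨_, fun h1 h2 => (pr_csub (enc_neg (enc_rat _ 481 1000)) h1)⟩
noncomputable def kcg_67_sf : Sl2 kcg_67 := ⟨_, fun h1 h2 => (pr_addc h1 (enc_rat _ 541 1141))⟩
noncomputable def kcg_68_sf : Sl2 kcg_68 := ⟨_, fun h1 h2 => (pr_scaleT 54499244488829 7821000000000 h1)⟩
noncomputable def kcg_73_sf : Sl2 kcg_73 := ⟨_, fun h1 h2 => (pr_scaleT 42490649453 782100000 h1)⟩
noncomputable def kcg_87_sf : Sl2 kcg_87 := ⟨_, fun h1 h2 => (pr_csub (enc_neg (enc_rat _ 541 1141)) h1)⟩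
noncomputable def kcg_92_sf : Sl2 kcg_92 := ⟨_, fun h1 h2 => (pr_scaleT 61463285588617367 6412625000000000 h1)⟩
noncomputable def kcg_95_sf : Sl2 kcg_95 := ⟨_, fun h1 h2 => (pr_scaleT 15276833871481 641262500000 h1)⟩
noncomputable def kcg_109_sf : Sl2 kcg_109 := ⟨_, fun h1 h2 => (pr_csub (enc_neg (enc_rat _ 781 1742)) h1)⟩
noncomputable def kcg_118_sf : Sl2 kcg_118 := ⟨_, fun h1 h2 => (pr_addc h1 (enc_rat _ 41 100))⟩
noncomputable def kcg_121_sf : Sl2 kcg_121 := ⟨_, fun h1 h2 => (pr_addc h1 (enc_rat _ 43 100))⟩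
noncomputable def kcg_122_sf : Sl2 kcg_122 := ⟨_, fun h1 h2 => (pr_scaleT 3396080746981 199625000000 h1)⟩
noncomputable def kcg_125_sf : Sl2 kcg_125 := ⟨_, fun h1 h2 => (pr_scaleT 11346517 19962500 h1)⟩
noncomputable def kcg_136_sf : Sl2 kcg_136 := ⟨_, fun h1 h2 => (pr_csub (enc_neg (enc_rat _ 43 100)) h1)⟩
noncomputable def kcg_141_sf : Sl2 kcg_141 := ⟨_, fun h1 h2 => (pr_scaleT 6832661577 1000000000 h1)⟩
noncomputable def kcg_144_sf : Sl2 kcg_144 := ⟨_, fun h1 h2 => (pr_scaleT 77489 100000 h1)⟩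
noncomputable def kcg_155_sf : Sl2 kcg_155 := ⟨_, fun h1 h2 => (pr_csub (enc_neg (enc_rat _ 41 100)) h1)⟩
noncomputable def kcg_163_sf : Sl2 kcg_163 := ⟨_, fun h1 h2 => (pr_addc h1 (enc_rat _ 3 10))⟩
noncomputable def kcg_164_sf : Sl2 kcg_164 := ⟨_, fun h1 h2 => (pr_scaleT 152182953 100000000 h1)⟩
noncomputable def kcg_167_sf : Sl2 kcg_167 := ⟨_, fun h1 h2 => (pr_scaleT 7121 10000 h1)⟩
noncomputable def kcg_176_sf : Sl2 kcg_176 := ⟨_, fun h1 h2 => (pr_csub (enc_neg (enc_rat _ 3 10)) h1)⟩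
noncomputable def kcg_184_sf : Sl2 kcg_184 := ⟨_, fun h1 h2 => (pr_scaleT 151977367 100000000 h1)⟩
noncomputable def kcg_187_sf : Sl2 kcg_187 := ⟨_, fun h1 h2 => (pr_scaleT 3519 10000 h1)⟩
noncomputable def kcg_196_sf : Sl2 kcg_196 := ⟨_, fun h1 h2 => (pr_csub (enc_neg (enc_rat _ 1 10)) h1)⟩
noncomputable def kcg_201_sf : Sl2 kcg_201 := ⟨_, fun h1 h2 => (pr_scaleT 151927497 100000000 h1)⟩
noncomputable def kcg_204_sf : Sl2 kcg_204 := ⟨_, fun h1 h2 => (pr_cmul (enc_norm (kcg_3.enc h1.l h2)) (pr_nd (pr_scaleT 929 10000 h1)))⟩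
noncomputable def kcg_211_sf : Sl2 kcg_211 := ⟨_, fun h1 h2 => (pr_csub (enc_rat _ 781 1742) h1)⟩
noncomputable def kcg_212_sf : Sl2 kcg_212 := ⟨_, fun h1 h2 => (pr_csub (enc_rat _ 481 1000) h1)⟩
noncomputable def kcg_213_sf : Sl2 kcg_213 := ⟨_, fun h1 h2 => (pr_csub (enc_rat _ 61 125) h1)⟩
noncomputable def kcg_218_sf : Sl2 kcg_218 := ⟨_, fun h1 h2 => (pr_csub (enc_rat _ 1 2) h1)⟩
noncomputable def kcg_219_sf : Sl2 kcg_219 := ⟨_, fun h1 h2 => (pr_subr 61 125 h1)⟩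
noncomputable def kcg_228_sf : Sl2 kcg_228 := ⟨_, fun h1 h2 => (pr_subr 481 1000 h1)⟩
noncomputable def kcg_234_sf : Sl2 kcg_234 := ⟨_, fun h1 h2 => (pr_csub (enc_rat _ 541 1141) h1)⟩
noncomputable def kcg_239_sf : Sl2 kcg_239 := ⟨_, fun h1 h2 => (pr_subr 541 1141 h1)⟩
noncomputable def kcg_249_sf : Sl2 kcg_249 := ⟨_, fun h1 h2 => (pr_subr 781 1742 h1)⟩
noncomputable def kcg_256_sf : Sl2 kcg_256 := ⟨_, fun h1 h2 => (pr_csub (enc_rat _ 41 100) h1)⟩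
noncomputable def kcg_257_sf : Sl2 kcg_257 := ⟨_, fun h1 h2 => (pr_csub (enc_rat _ 43 100) h1)⟩
noncomputable def kcg_264_sf : Sl2 kcg_264 := ⟨_, fun h1 h2 => (pr_subr 43 100 h1)⟩
noncomputable def kcg_275_sf : Sl2 kcg_275 := ⟨_, fun h1 h2 => (pr_subr 41 100 h1)⟩
noncomputable def kcg_281_sf : Sl2 kcg_281 := ⟨_, fun h1 h2 => (pr_csub (enc_rat _ 3 10) h1)⟩
noncomputable def kcg_288_sf : Sl2 kcg_288 := ⟨_, fun h1 h2 => (pr_subr 3 10 h1)⟩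
noncomputable def kcg_300_sf : Sl2 kcg_300 := ⟨_, fun h1 h2 => (pr_subr 1 10 h1)⟩
noncomputable def kcg_sf : Sl2 kcg := ⟨_, fun h1 h2 => (pr_norm (pr_case h1 (pr_case (kcg_6_sf.snd h1 h2) (pr_case (kcg_9_sf.snd h1 h2) (pr_case (kcg_12_sf.snd h1 h2) (pr_add (pr_add (pr_subr 10013347257757 1500000000000 (pr_neg (kcg_13_sf.snd h1 h2))) (pr_cmul (enc_norm (kcg_3.enc h1.l h2)) (pr_norm (pr_subr 4268744749 150000000 (pr_neg (kcg_18_sf.snd h1 h2)))))) (pr_mA (pr_cmul (enc_norm (kcg_31.enc h1.l h2)) (pr_norm (pr_mul (pr_norm (kcg_34_sf.snd h1 h2)) (pr_norm (kcg_35_sf.snd h1 h2))))) (pr_const (kcg_31.enc h1.l h2)) (kcg_34_sf.snd h1 h2) (kcg_35_sf.snd h1 h2) rfl rfl)) (pr_add (pr_add (pr_subr 4670811192617 700000000000 (pr_neg (kcg_40_sf.snd h1 h2))) (pr_cmul (enc_norm (kcg_3.enc h1.l h2)) (pr_norm (pr_subr 1988164569 70000000 (pr_neg (kcg_45_sf.snd h1 h2)))))) (pr_mA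 (pr_cmul (enc_norm (kcg_58.enc h1.l h2)) (pr_norm (pr_mul (pr_norm (kcg_12_sf.snd h1 h2)) (pr_norm (kcg_59_sf.snd h1 h2))))) (pr_const (kcg_58.enc h1.l h2)) (kcg_12_sf.snd h1 h2) (kcg_59_sf.snd h1 h2) rfl rfl))) (pr_case (kcg_67_sf.snd h1 h2) (pr_add (pr_add (pr_subr 9039597787079117 1955250000000000 (pr_neg (kcg_68_sf.snd h1 h2))) (pr_cmul (enc_norm (kcg_3.enc h1.l h2)) (pr_norm (pr_subr 4952424264269 195525000000 (pr_neg (kcg_73_sf.snd h1 h2)))))) (pr_mA (pr_cmul (enc_norm (kcg_86.enc h1.l h2)) (pr_norm (pr_mul (pr_norm (kcg_9_sf.snd h1 h2)) (pr_norm (kcg_87_sf.snd h1 h2))))) (pr_const (kcg_86.enc h1.l h2)) (kcg_9_sf.snd h1 h2) (kcg_87_sf.snd h1 h2) rfl rfl)) (pr_add (pr_add (pr_addc (kcg_92_sf.snd h1 h2) (enc_rat _ 41365423394698507 12825250000000000)) (pr_cmul (enc_norm (kcg_3.enc h1.l h2)) (pr_norm (pr_subr 13934168680501 1282525000000 (pr_neg (kcg_95_sf.snd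 h1 h2)))))) (pr_mA (pr_cmul (enc_norm (kcg_108.enc h1.l h2)) (pr_norm (pr_mul (pr_norm (kcg_67_sf.snd h1 h2)) (pr_norm (kcg_109_sf.snd h1 h2))))) (pr_const (kcg_108.enc h1.l h2)) (kcg_67_sf.snd h1 h2) (kcg_109_sf.snd h1 h2) rfl rfl)))) (pr_case (kcg_118_sf.snd h1 h2) (pr_case (kcg_121_sf.snd h1 h2) (pr_add (pr_add (pr_addc (kcg_122_sf.snd h1 h2) (enc_rat _ 261722471060079 39925000000000)) (pr_cmul (enc_norm (kcg_3.enc h1.l h2)) (pr_norm (pr_addc (kcg_125_sf.snd h1 h2) (enc_rat _ 283106503 3992500000))))) (pr_mA (pr_cmul (enc_norm (kcg_135.enc h1.l h2)) (pr_norm (pr_mul (pr_norm (kcg_6_sf.snd h1 h2)) (pr_norm (kcg_136_sf.snd h1 h2))))) (pr_const (kcg_135.enc h1.l h2)) (kcg_6_sf.snd h1 h2) (kcg_136_sf.snd h1 h2) rfl rfl)) (pr_add (pr_add (pr_addc (kcg_141_sf.snd h1 h2) (enc_rat _ 217810776727 100000000000)) (pr_cmul (enc_norm (kcg_3.enc h1.l h2)) (pr_norm (pr_addc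 (kcg_144_sf.snd h1 h2) (enc_rat _ 1597039 10000000))))) (pr_mA (pr_cmul (enc_norm (kcg_154.enc h1.l h2)) (pr_norm (pr_mul (pr_norm (kcg_121_sf.snd h1 h2)) (pr_norm (kcg_155_sf.snd h1 h2))))) (pr_const (kcg_154.enc h1.l h2)) (kcg_121_sf.snd h1 h2) (kcg_155_sf.snd h1 h2) rfl rfl))) (pr_case (kcg_163_sf.snd h1 h2) (pr_add (pr_add (pr_addc (kcg_164_sf.snd h1 h2) (enc_rat _ 166657 250000000)) (pr_cmul (enc_norm (kcg_3.enc h1.l h2)) (pr_norm (pr_addc (kcg_167_sf.snd h1 h2) (enc_rat _ 3349 25000))))) (pr_mA (pr_cmul (enc_norm (kcg_175.enc h1.l h2)) (pr_norm (pr_mul (pr_norm (kcg_118_sf.snd h1 h2)) (pr_norm (kcg_176_sf.snd h1 h2))))) (pr_const (kcg_175.enc h1.l h2)) (kcg_118_sf.snd h1 h2) (kcg_176_sf.snd h1 h2) rfl rfl)) (pr_case (pr_addc h1 (enc_rat _ 1 10)) (pr_add (pr_add (pr_addc (kcg_184_sf.snd h1 h2) (enc_rat _ 4987 100000000)) (pr_cmul (enc_norm (kcg_3.enc h1.l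 h2)) (pr_norm (pr_addc (kcg_187_sf.snd h1 h2) (enc_rat _ 259 10000))))) (pr_mA (pr_cmul (enc_norm (kcg_195.enc h1.l h2)) (pr_norm (pr_mul (pr_norm (kcg_163_sf.snd h1 h2)) (pr_norm (kcg_196_sf.snd h1 h2))))) (pr_const (kcg_195.enc h1.l h2)) (kcg_163_sf.snd h1 h2) (kcg_196_sf.snd h1 h2) rfl rfl)) (pr_add (kcg_201_sf.snd h1 h2) (kcg_204_sf.snd h1 h2)))))) (pr_neg (pr_case (kcg_211_sf.snd h1 h2) (pr_case (kcg_212_sf.snd h1 h2) (pr_case (kcg_213_sf.snd h1 h2) (pr_add (pr_add (pr_subr 10013347257757 1500000000000 (kcg_13_sf.snd h1 h2)) (pr_cmul (enc_norm (kcg_3.enc h1.l h2)) (pr_norm (pr_subr 4268744749 150000000 (kcg_18_sf.snd h1 h2))))) (pr_mA (pr_cmul (enc_norm (kcg_31.enc h1.l h2)) (pr_norm (pr_mul (pr_norm (kcg_218_sf.snd h1 h2)) (pr_norm (kcg_219_sf.snd h1 h2))))) (pr_const (kcg_31.enc h1.l h2)) (kcg_218_sf.snd h1 h2) (kcg_219_sf.snd h1 h2) rfl rfl)) (pr_add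 (pr_add (pr_subr 4670811192617 700000000000 (kcg_40_sf.snd h1 h2)) (pr_cmul (enc_norm (kcg_3.enc h1.l h2)) (pr_norm (pr_subr 1988164569 70000000 (kcg_45_sf.snd h1 h2))))) (pr_mA (pr_cmul (enc_norm (kcg_58.enc h1.l h2)) (pr_norm (pr_mul (pr_norm (kcg_213_sf.snd h1 h2)) (pr_norm (kcg_228_sf.snd h1 h2))))) (pr_const (kcg_58.enc h1.l h2)) (kcg_213_sf.snd h1 h2) (kcg_228_sf.snd h1 h2) rfl rfl))) (pr_case (kcg_234_sf.snd h1 h2) (pr_add (pr_add (pr_subr 9039597787079117 1955250000000000 (kcg_68_sf.snd h1 h2)) (pr_cmul (enc_norm (kcg_3.enc h1.l h2)) (pr_norm (pr_subr 4952424264269 195525000000 (kcg_73_sf.snd h1 h2))))) (pr_mA (pr_cmul (enc_norm (kcg_86.enc h1.l h2)) (pr_norm (pr_mul (pr_norm (kcg_212_sf.snd h1 h2)) (pr_norm (kcg_239_sf.snd h1 h2))))) (pr_const (kcg_86.enc h1.l h2)) (kcg_212_sf.snd h1 h2) (kcg_239_sf.snd h1 h2) rfl rfl)) (pr_add (pr_add (pr_csub (enc_rat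 _ 41365423394698507 12825250000000000) (kcg_92_sf.snd h1 h2)) (pr_cmul (enc_norm (kcg_3.enc h1.l h2)) (pr_norm (pr_subr 13934168680501 1282525000000 (kcg_95_sf.snd h1 h2))))) (pr_mA (pr_cmul (enc_norm (kcg_108.enc h1.l h2)) (pr_norm (pr_mul (pr_norm (kcg_234_sf.snd h1 h2)) (pr_norm (kcg_249_sf.snd h1 h2))))) (pr_const (kcg_108.enc h1.l h2)) (kcg_234_sf.snd h1 h2) (kcg_249_sf.snd h1 h2) rfl rfl)))) (pr_case (kcg_256_sf.snd h1 h2) (pr_case (kcg_257_sf.snd h1 h2) (pr_add (pr_add (pr_csub (enc_rat _ 261722471060079 39925000000000) (kcg_122_sf.snd h1 h2)) (pr_cmul (enc_norm (kcg_3.enc h1.l h2)) (pr_norm (pr_csub (enc_rat _ 283106503 3992500000) (kcg_125_sf.snd h1 h2))))) (pr_mA (pr_cmul (enc_norm (kcg_135.enc h1.l h2)) (pr_norm (pr_mul (pr_norm (kcg_211_sf.snd h1 h2)) (pr_norm (kcg_264_sf.snd h1 h2))))) (pr_const (kcg_135.enc h1.l h2)) (kcg_211_sf.snd h1 h2) (kcg_264_sf.snd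 h1 h2) rfl rfl)) (pr_add (pr_add (pr_csub (enc_rat _ 217810776727 100000000000) (kcg_141_sf.snd h1 h2)) (pr_cmul (enc_norm (kcg_3.enc h1.l h2)) (pr_norm (pr_csub (enc_rat _ 1597039 10000000) (kcg_144_sf.snd h1 h2))))) (pr_mA (pr_cmul (enc_norm (kcg_154.enc h1.l h2)) (pr_norm (pr_mul (pr_norm (kcg_257_sf.snd h1 h2)) (pr_norm (kcg_275_sf.snd h1 h2))))) (pr_const (kcg_154.enc h1.l h2)) (kcg_257_sf.snd h1 h2) (kcg_275_sf.snd h1 h2) rfl rfl))) (pr_case (kcg_281_sf.snd h1 h2) (pr_add (pr_add (pr_csub (enc_rat _ 166657 250000000) (kcg_164_sf.snd h1 h2)) (pr_cmul (enc_norm (kcg_3.enc h1.l h2)) (pr_norm (pr_csub (enc_rat _ 3349 25000) (kcg_167_sf.snd h1 h2))))) (pr_mA (pr_cmul (enc_norm (kcg_175.enc h1.l h2)) (pr_norm (pr_mul (pr_norm (kcg_256_sf.snd h1 h2)) (pr_norm (kcg_288_sf.snd h1 h2))))) (pr_const (kcg_175.enc h1.l h2)) (kcg_256_sf.snd h1 h2) (kcg_288_sf.snd h1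 h2) rfl rfl)) (pr_case (pr_csub (enc_rat _ 1 10) h1) (pr_add (pr_add (pr_csub (enc_rat _ 4987 100000000) (kcg_184_sf.snd h1 h2)) (pr_cmul (enc_norm (kcg_3.enc h1.l h2)) (pr_norm (pr_csub (enc_rat _ 259 10000) (kcg_187_sf.snd h1 h2))))) (pr_mA (pr_cmul (enc_norm (kcg_195.enc h1.l h2)) (pr_norm (pr_mul (pr_norm (kcg_281_sf.snd h1 h2)) (pr_norm (kcg_300_sf.snd h1 h2))))) (pr_const (kcg_195.enc h1.l h2)) (kcg_281_sf.snd h1 h2) (kcg_300_sf.snd h1 h2) rfl rfl)) (pr_sub (pr_neg (kcg_201_sf.snd h1 h2)) (kcg_204_sf.snd h1 h2)))))))))⟩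
noncomputable def kf0q0_9_sf : Sl2 kf0q0_9 := ⟨_, fun h1 h2 => (pr_scaleT 3 2 h1)⟩
noncomputable def kf0q0_12_sf : Sl2 kf0q0_12 := ⟨_, fun h1 h2 => (pr_cadd (enc_pnc _ 1) (c1g_sf.snd h1))⟩
noncomputable def kf0q0_sf : Sl2 kf0q0 := ⟨_, fun h1 h2 => (pr_norm (pr_add (pr_mul (pr_norm (pr_mul (pr_norm (pr_sub (c1g_sf.snd h1) (kf0q0_9_sf.snd h1 h2))) (pr_norm (kf0q0_12_sf.snd h1 h2)))) (pr_nd (pr_inv (pr_sub (kf0q0_12_sf.snd h1 h2) (kf0q0_9_sf.snd h1 h2))))) (pr_mul h1 (kcg_sf.snd (pr_norm (pr_sub (pr_scaleT 3 4 h1) (pr_half (c1g_sf.snd h1)))) h2))))⟩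
noncomputable def txg_6_sf : Sl3 txg_6 := ⟨_, fun h1 h2 h3 => (pr_add h1 (pr_half h2))⟩
noncomputable def txg_26_sf : Sl3 txg_26 := ⟨_, fun h1 h2 h3 => (pr_addc h1 (enc_rat _ 1 5))⟩
noncomputable def txg_29_sf : Sl3 txg_29 := ⟨_, fun h1 h2 h3 => (pr_addc h1 (enc_rat _ 21 50))⟩
noncomputable def txg_32_sf : Sl3 txg_32 := ⟨_, fun h1 h2 h3 => (pr_addc h1 (enc_rat _ 23 50))⟩
noncomputable def txg_35_sf : Sl3 txg_35 := ⟨_, fun h1 h2 h3 => (pr_addc h1 (enc_rat _ 481 1000))⟩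
noncomputable def txg_38_sf : Sl3 txg_38 := ⟨_, fun h1 h2 h3 => (pr_addc h1 (enc_rat _ 61 125))⟩
noncomputable def txg_57_sf : Sl3 txg_57 := ⟨_, fun h1 h2 h3 => (pr_addc h1 (enc_rat _ 1 2))⟩
noncomputable def txg_58_sf : Sl3 txg_58 := ⟨_, fun h1 h2 h3 => (pr_csub (enc_neg (enc_rat _ 61 125)) h1)⟩
noncomputable def txg_77_sf : Sl3 txg_77 := ⟨_, fun h1 h2 h3 => (pr_csub (enc_neg (enc_rat _ 481 1000)) h1)⟩
noncomputable def txg_85_sf : Sl3 txg_85 := ⟨_, fun h1 h2 h3 => (pr_addc h1 (enc_rat _ 94829 200000))⟩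
noncomputable def txg_102_sf : Sl3 txg_102 := ⟨_, fun h1 h2 h3 => (pr_csub (enc_neg (enc_rat _ 94829 200000)) h1)⟩
noncomputable def txg_121_sf : Sl3 txg_121 := ⟨_, fun h1 h2 h3 => (pr_csub (enc_neg (enc_rat _ 23 50)) h1)⟩
noncomputable def txg_130_sf : Sl3 txg_130 := ⟨_, fun h1 h2 h3 => (pr_addc h1 (enc_rat _ 11 25))⟩
noncomputable def txg_133_sf : Sl3 txg_133 := ⟨_, fun h1 h2 h3 => (pr_addc h1 (enc_rat _ 89667 200000))⟩
noncomputable def txg_148_sf : Sl3 txg_148 := ⟨_, fun h1 h2 h3 => (pr_csub (enc_neg (enc_rat _ 89667 200000)) h1)⟩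
noncomputable def txg_168_sf : Sl3 txg_168 := ⟨_, fun h1 h2 h3 => (pr_csub (enc_neg (enc_rat _ 11 25)) h1)⟩
noncomputable def txg_176_sf : Sl3 txg_176 := ⟨_, fun h1 h2 h3 => (pr_addc h1 (enc_rat _ 43 100))⟩
noncomputable def txg_190_sf : Sl3 txg_190 := ⟨_, fun h1 h2 h3 => (pr_csub (enc_neg (enc_rat _ 43 100)) h1)⟩
noncomputable def txg_208_sf : Sl3 txg_208 := ⟨_, fun h1 h2 h3 => (pr_csub (enc_neg (enc_rat _ 21 50)) h1)⟩
noncomputable def txg_218_sf : Sl3 txg_218 := ⟨_, fun h1 h2 h3 => (pr_addc h1 (enc_rat _ 3 8))⟩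
noncomputable def txg_221_sf : Sl3 txg_221 := ⟨_, fun h1 h2 h3 => (pr_addc h1 (enc_rat _ 2 5))⟩
noncomputable def txg_224_sf : Sl3 txg_224 := ⟨_, fun h1 h2 h3 => (pr_addc h1 (enc_rat _ 41 100))⟩
noncomputable def txg_238_sf : Sl3 txg_238 := ⟨_, fun h1 h2 h3 => (pr_csub (enc_neg (enc_rat _ 41 100)) h1)⟩
noncomputable def txg_256_sf : Sl3 txg_256 := ⟨_, fun h1 h2 h3 => (pr_csub (enc_neg (enc_rat _ 2 5)) h1)⟩
noncomputable def txg_264_sf : Sl3 txg_264 := ⟨_, fun h1 h2 h3 => (pr_addc h1 (enc_rat _ 39 100))⟩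
noncomputable def txg_279_sf : Sl3 txg_279 := ⟨_, fun h1 h2 h3 => (pr_csub (enc_neg (enc_rat _ 39 100)) h1)⟩
noncomputable def txg_298_sf : Sl3 txg_298 := ⟨_, fun h1 h2 h3 => (pr_csub (enc_neg (enc_rat _ 3 8)) h1)⟩
noncomputable def txg_307_sf : Sl3 txg_307 := ⟨_, fun h1 h2 h3 => (pr_addc h1 (enc_rat _ 3 10))⟩
noncomputable def txg_310_sf : Sl3 txg_310 := ⟨_, fun h1 h2 h3 => (pr_addc h1 (enc_rat _ 7 20))⟩
noncomputable def txg_323_sf : Sl3 txg_323 := ⟨_, fun h1 h2 h3 => (pr_csub (enc_neg (enc_rat _ 7 20)) h1)⟩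
noncomputable def txg_340_sf : Sl3 txg_340 := ⟨_, fun h1 h2 h3 => (pr_csub (enc_neg (enc_rat _ 3 10)) h1)⟩
noncomputable def txg_348_sf : Sl3 txg_348 := ⟨_, fun h1 h2 h3 => (pr_addc h1 (enc_rat _ 1 4))⟩
noncomputable def txg_361_sf : Sl3 txg_361 := ⟨_, fun h1 h2 h3 => (pr_csub (enc_neg (enc_rat _ 1 4)) h1)⟩
noncomputable def txg_381_sf : Sl3 txg_381 := ⟨_, fun h1 h2 h3 => (pr_csub (enc_neg (enc_rat _ 1 5)) h1)⟩
noncomputable def txg_390_sf : Sl3 txg_390 := ⟨_, fun h1 h2 h3 => (pr_subr 7 20 h1)⟩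
noncomputable def txg_392_sf : Sl3 txg_392 := ⟨_, fun h1 h2 h3 => (pr_subr 3 20 h1)⟩
noncomputable def txg_395_sf : Sl3 txg_395 := ⟨_, fun h1 h2 h3 => (pr_addc h1 (enc_rat _ 1 10))⟩
noncomputable def txg_397_sf : Sl3 txg_397 := ⟨_, fun h1 h2 h3 => (pr_addc h1 (enc_rat _ 3 20))⟩
noncomputable def txg_413_sf : Sl3 txg_413 := ⟨_, fun h1 h2 h3 => (pr_csub (enc_neg (enc_rat _ 3 20)) h1)⟩
noncomputable def txg_432_sf : Sl3 txg_432 := ⟨_, fun h1 h2 h3 => (pr_csub (enc_neg (enc_rat _ 1 10)) h1)⟩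
noncomputable def txg_438_sf : Sl3 txg_438 := ⟨_, fun h1 h2 h3 => (pr_subr 1 10 h1)⟩
noncomputable def txg_453_sf : Sl3 txg_453 := ⟨_, fun h1 h2 h3 => (pr_csub (enc_rat _ 1 10) h1)⟩
noncomputable def txg_471_sf : Sl3 txg_471 := ⟨_, fun h1 h2 h3 => (pr_csub (enc_rat _ 3 20) h1)⟩
noncomputable def txg_478_sf : Sl3 txg_478 := ⟨_, fun h1 h2 h3 => (pr_subr 1 4 h1)⟩
noncomputable def txg_479_sf : Sl3 txg_479 := ⟨_, fun h1 h2 h3 => (pr_subr 1 5 h1)⟩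
noncomputable def txg_494_sf : Sl3 txg_494 := ⟨_, fun h1 h2 h3 => (pr_csub (enc_rat _ 1 5) h1)⟩
noncomputable def txg_513_sf : Sl3 txg_513 := ⟨_, fun h1 h2 h3 => (pr_csub (enc_rat _ 1 4) h1)⟩
noncomputable def txg_519_sf : Sl3 txg_519 := ⟨_, fun h1 h2 h3 => (pr_subr 3 10 h1)⟩
noncomputable def txg_534_sf : Sl3 txg_534 := ⟨_, fun h1 h2 h3 => (pr_csub (enc_rat _ 3 10) h1)⟩
noncomputable def txg_555_sf : Sl3 txg_555 := ⟨_, fun h1 h2 h3 => (pr_csub (enc_rat _ 7 20) h1)⟩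
noncomputable def txg_563_sf : Sl3 txg_563 := ⟨_, fun h1 h2 h3 => (pr_subr 41 100 h1)⟩
noncomputable def txg_564_sf : Sl3 txg_564 := ⟨_, fun h1 h2 h3 => (pr_subr 39 100 h1)⟩
noncomputable def txg_565_sf : Sl3 txg_565 := ⟨_, fun h1 h2 h3 => (pr_subr 3 8 h1)⟩
noncomputable def txg_580_sf : Sl3 txg_580 := ⟨_, fun h1 h2 h3 => (pr_csub (enc_rat _ 3 8) h1)⟩
noncomputable def txg_599_sf : Sl3 txg_599 := ⟨_, fun h1 h2 h3 => (pr_csub (enc_rat _ 39 100) h1)⟩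
noncomputable def txg_605_sf : Sl3 txg_605 := ⟨_, fun h1 h2 h3 => (pr_subr 2 5 h1)⟩
noncomputable def txg_620_sf : Sl3 txg_620 := ⟨_, fun h1 h2 h3 => (pr_csub (enc_rat _ 2 5) h1)⟩
noncomputable def txg_639_sf : Sl3 txg_639 := ⟨_, fun h1 h2 h3 => (pr_csub (enc_rat _ 41 100) h1)⟩
noncomputable def txg_646_sf : Sl3 txg_646 := ⟨_, fun h1 h2 h3 => (pr_subr 43 100 h1)⟩
noncomputable def txg_647_sf : Sl3 txg_647 := ⟨_, fun h1 h2 h3 => (pr_subr 21 50 h1)⟩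
noncomputable def txg_663_sf : Sl3 txg_663 := ⟨_, fun h1 h2 h3 => (pr_csub (enc_rat _ 21 50) h1)⟩
noncomputable def txg_683_sf : Sl3 txg_683 := ⟨_, fun h1 h2 h3 => (pr_csub (enc_rat _ 43 100) h1)⟩
noncomputable def txg_689_sf : Sl3 txg_689 := ⟨_, fun h1 h2 h3 => (pr_subr 11 25 h1)⟩
noncomputable def txg_705_sf : Sl3 txg_705 := ⟨_, fun h1 h2 h3 => (pr_csub (enc_rat _ 11 25) h1)⟩
noncomputable def txg_738_sf : Sl3 txg_738 := ⟨_, fun h1 h2 h3 => (pr_csub (enc_rat _ 781 1742) h1)⟩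
noncomputable def txg_749_sf : Sl3 txg_749 := ⟨_, fun h1 h2 h3 => (pr_subr 541 1141 h1)⟩
noncomputable def txg_750_sf : Sl3 txg_750 := ⟨_, fun h1 h2 h3 => (pr_subr 481 1000 h1)⟩
noncomputable def txg_775_sf : Sl3 txg_775 := ⟨_, fun h1 h2 h3 => (pr_csub (enc_rat _ 481 1000) h1)⟩
noncomputable def txg_780_sf : Sl3 txg_780 := ⟨_, fun h1 h2 h3 => (pr_subr 61 125 h1)⟩
noncomputable def txg_795_sf : Sl3 txg_795 := ⟨_, fun h1 h2 h3 => (pr_csub (enc_rat _ 61 125) h1)⟩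
noncomputable def txg_816_sf : Sl3 txg_816 := ⟨_, fun h1 h2 h3 => (pr_csub (enc_rat _ 1 2) h1)⟩
noncomputable def txg_sf : Sl3 txg := ⟨_, fun h1 h2 h3 => (pr_case (pr_subr 781 1742 h1) (pr_case (txg_26_sf.snd h1 h2 h3) (pr_case (txg_29_sf.snd h1 h2 h3) (pr_case (txg_32_sf.snd h1 h2 h3) (pr_case (txg_35_sf.snd h1 h2 h3) (pr_case (txg_38_sf.snd h1 h2 h3) (pr_add (pr_add (pr_addc (pr_scaleT 93620461 600000000 h1) (enc_rat _ 93620461 1200000000)) (pr_cmul (enc_norm (txg_4.enc h1.l h2.l h3)) (pr_norm (pr_subr 185923 120000 (pr_neg (pr_scaleT 185923 60000 h1)))))) (pr_mA (pr_cmul (enc_norm (txg_54.enc h1.l h2.l h3)) (pr_norm (pr_mul (pr_norm (txg_57_sf.snd h1 h2 h3)) (pr_norm (txg_58_sf.snd h1 h2 h3))))) (pr_const (txg_54.enc h1.l h2.l h3)) (txg_57_sf.snd h1 h2 h3) (txg_58_sf.snd h1 h2 h3) rfl rfl)) (pr_add (pr_add (pr_addc (pr_scaleT 378481 2500000 h1) (enc_rat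 _ 3787595021 50000000000)) (pr_cmul (enc_norm (txg_4.enc h1.l h2.l h3)) (pr_norm (pr_subr 42108021 35000000 (pr_neg (pr_scaleT 4181 1750 h1)))))) (pr_mA (pr_cmul (enc_norm (txg_76.enc h1.l h2.l h3)) (pr_norm (pr_mul (pr_norm (txg_38_sf.snd h1 h2 h3)) (pr_norm (txg_77_sf.snd h1 h2 h3))))) (pr_const (txg_76.enc h1.l h2.l h3)) (txg_38_sf.snd h1 h2 h3) (txg_77_sf.snd h1 h2 h3) rfl rfl))) (pr_case (txg_85_sf.snd h1 h2 h3) (pr_add (pr_add (pr_addc (pr_scaleT 83968649 685500000 h1) (enc_rat _ 4239891312071 68550000000000)) (pr_cmul (enc_norm (txg_4.enc h1.l h2.l h3)) (pr_norm (pr_subr 2733520051 2285000000 (pr_neg (pr_scaleT 54269 22850 h1)))))) (pr_mA (pr_cmul (enc_norm (txg_101.enc h1.l h2.l h3)) (pr_norm (pr_mul (pr_norm (txg_35_sf.snd h1 h2 h3)) (pr_norm (txg_102_sf.snd h1 h2 h3))))) (pr_const (txg_101.enc h1.l h2.l h3)) (txg_35_sf.snd h1 h2 h3) (txg_102_sf.snd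 h1 h2 h3) rfl rfl)) (pr_add (pr_add (pr_addc (pr_scaleT 9915873 117875000 h1) (enc_rat _ 178997131807 4100000000000)) (pr_cmul (enc_norm (txg_4.enc h1.l h2.l h3)) (pr_norm (pr_subr 1372989203 1230000000 (pr_neg (pr_scaleT 156034 70725 h1)))))) (pr_mA (pr_cmul (enc_norm (txg_120.enc h1.l h2.l h3)) (pr_norm (pr_mul (pr_norm (txg_85_sf.snd h1 h2 h3)) (pr_norm (txg_121_sf.snd h1 h2 h3))))) (pr_const (txg_120.enc h1.l h2.l h3)) (txg_85_sf.snd h1 h2 h3) (txg_121_sf.snd h1 h2 h3) rfl rfl)))) (pr_case (txg_130_sf.snd h1 h2 h3) (pr_case (txg_133_sf.snd h1 h2 h3) (pr_add (pr_add (pr_addc (pr_scaleT 2100864 36453125 h1) (enc_rat _ 7342519254091 233300000000000)) (pr_cmul (enc_norm (txg_4.enc h1.l h2.l h3)) (pr_norm (pr_subr 28646659013 23330000000 (pr_neg (pr_scaleT 142832 58325 h1)))))) (pr_mA (pr_cmul (enc_norm (txg_147.enc h1.l h2.l h3)) (pr_norm (pr_mul (pr_norm (txg_32_sf.snd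 h1 h2 h3)) (pr_norm (txg_148_sf.snd h1 h2 h3))))) (pr_const (txg_147.enc h1.l h2.l h3)) (txg_32_sf.snd h1 h2 h3) (txg_148_sf.snd h1 h2 h3) rfl rfl)) (pr_add (pr_add (pr_addc (pr_scaleT 21747117 83350000 h1) (enc_rat _ 4087835831903 33340000000000)) (pr_cmul (enc_norm (txg_4.enc h1.l h2.l h3)) (pr_norm (pr_addc (pr_scaleT 71169 8335 h1) (enc_rat _ 12329726471 3334000000))))) (pr_mA (pr_cmul (enc_norm (txg_167.enc h1.l h2.l h3)) (pr_norm (pr_mul (pr_norm (txg_133_sf.snd h1 h2 h3)) (pr_norm (txg_168_sf.snd h1 h2 h3))))) (pr_const (txg_167.enc h1.l h2.l h3)) (txg_133_sf.snd h1 h2 h3) (txg_168_sf.snd h1 h2 h3) rfl rfl))) (pr_case (txg_176_sf.snd h1 h2 h3) (pr_add (pr_add (pr_addc (pr_scaleT 16803931 31250000 h1) (enc_rat _ 24440808393 100000000000)) (pr_cmul (enc_norm (txg_4.enc h1.l h2.l h3)) (pr_norm (pr_addc (pr_scaleT 212843 12500 h1) (enc_rat _ 74332801 10000000)))))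 (pr_mA (pr_cmul (enc_norm (txg_189.enc h1.l h2.l h3)) (pr_norm (pr_mul (pr_norm (txg_130_sf.snd h1 h2 h3)) (pr_norm (txg_190_sf.snd h1 h2 h3))))) (pr_const (txg_189.enc h1.l h2.l h3)) (txg_130_sf.snd h1 h2 h3) (txg_190_sf.snd h1 h2 h3) rfl rfl)) (pr_add (pr_add (pr_addc (pr_scaleT 328911357 500000000 h1) (enc_rat _ 29604976039 100000000000)) (pr_cmul (enc_norm (txg_4.enc h1.l h2.l h3)) (pr_norm (pr_addc (pr_scaleT 594449 50000 h1) (enc_rat _ 52237423 10000000))))) (pr_mA (pr_cmul (enc_norm (txg_207.enc h1.l h2.l h3)) (pr_norm (pr_mul (pr_norm (txg_176_sf.snd h1 h2 h3)) (pr_norm (txg_208_sf.snd h1 h2 h3))))) (pr_const (txg_207.enc h1.l h2.l h3)) (txg_176_sf.snd h1 h2 h3) (txg_208_sf.snd h1 h2 h3) rfl rfl))))) (pr_case (txg_218_sf.snd h1 h2 h3) (pr_case (txg_221_sf.snd h1 h2 h3) (pr_case (txg_224_sf.snd h1 h2 h3) (pr_add (pr_add (pr_addc (pr_scaleT 384821291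 500000000 h1) (enc_rat _ 6860282099 20000000000)) (pr_cmul (enc_norm (txg_4.enc h1.l h2.l h3)) (pr_norm (pr_addc (pr_scaleT 392387 50000 h1) (enc_rat _ 7052843 2000000))))) (pr_mA (pr_cmul (enc_norm (txg_237.enc h1.l h2.l h3)) (pr_norm (pr_mul (pr_norm (txg_29_sf.snd h1 h2 h3)) (pr_norm (txg_238_sf.snd h1 h2 h3))))) (pr_const (txg_237.enc h1.l h2.l h3)) (txg_29_sf.snd h1 h2 h3) (txg_238_sf.snd h1 h2 h3) rfl rfl)) (pr_add (pr_add (pr_addc (pr_scaleT 411952497 500000000 h1) (enc_rat _ 36526169387 100000000000)) (pr_cmul (enc_norm (txg_4.enc h1.l h2.l h3)) (pr_norm (pr_addc (pr_scaleT 287429 50000 h1) (enc_rat _ 26657659 10000000))))) (pr_mA (pr_cmul (enc_norm (txg_255.enc h1.l h2.l h3)) (pr_norm (pr_mul (pr_norm (txg_224_sf.snd h1 h2 h3)) (pr_norm (txg_256_sf.snd h1 h2 h3))))) (pr_const (txg_255.enc h1.l h2.l h3)) (txg_224_sf.snd h1 h2 h3) (txg_256_sf.snd h1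 h2 h3) rfl rfl))) (pr_case (txg_264_sf.snd h1 h2 h3) (pr_add (pr_add (pr_addc (pr_scaleT 412822977 500000000 h1) (enc_rat _ 36595807787 100000000000)) (pr_cmul (enc_norm (txg_4.enc h1.l h2.l h3)) (pr_norm (pr_addc (pr_scaleT 259289 50000 h1) (enc_rat _ 24406459 10000000))))) (pr_mA (pr_cmul (enc_norm (txg_278.enc h1.l h2.l h3)) (pr_norm (pr_mul (pr_norm (txg_221_sf.snd h1 h2 h3)) (pr_norm (txg_279_sf.snd h1 h2 h3))))) (pr_const (txg_278.enc h1.l h2.l h3)) (txg_221_sf.snd h1 h2 h3) (txg_279_sf.snd h1 h2 h3) rfl rfl)) (pr_add (pr_add (pr_addc (pr_scaleT 12835597 15625000 h1) (enc_rat _ 36433265693 100000000000)) (pr_cmul (enc_norm (txg_4.enc h1.l h2.l h3)) (pr_norm (pr_addc (pr_scaleT 99173 18750 h1) (enc_rat _ 24809901 10000000))))) (pr_mA (pr_cmul (enc_norm (txg_297.enc h1.l h2.l h3)) (pr_norm (pr_mul (pr_norm (txg_264_sf.snd h1 h2 h3)) (pr_norm (txg_298_sf.snd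 h1 h2 h3))))) (pr_const (txg_297.enc h1.l h2.l h3)) (txg_264_sf.snd h1 h2 h3) (txg_298_sf.snd h1 h2 h3) rfl rfl)))) (pr_case (txg_307_sf.snd h1 h2 h3) (pr_case (txg_310_sf.snd h1 h2 h3) (pr_add (pr_add (pr_addc (pr_scaleT 1974286017 2500000000 h1) (enc_rat _ 8810530787 25000000000)) (pr_cmul (enc_norm (txg_4.enc h1.l h2.l h3)) (pr_norm (pr_addc (pr_scaleT 1200569 250000 h1) (enc_rat _ 5745959 2500000))))) (pr_mA (pr_cmul (enc_norm (txg_322.enc h1.l h2.l h3)) (pr_norm (pr_mul (pr_norm (txg_218_sf.snd h1 h2 h3)) (pr_norm (txg_323_sf.snd h1 h2 h3))))) (pr_const (txg_322.enc h1.l h2.l h3)) (txg_218_sf.snd h1 h2 h3) (txg_323_sf.snd h1 h2 h3) rfl rfl)) (pr_add (pr_add (pr_addc (pr_scaleT 5653901 8000000 h1) (enc_rat _ 6467587157 20000000000)) (pr_cmul (enc_norm (txg_4.enc h1.l h2.l h3)) (pr_norm (pr_addc (pr_scaleT 11497 4000 h1) (enc_rat _ 3247149 2000000))))) (pr_mA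 (pr_cmul (enc_norm (txg_339.enc h1.l h2.l h3)) (pr_norm (pr_mul (pr_norm (txg_310_sf.snd h1 h2 h3)) (pr_norm (txg_340_sf.snd h1 h2 h3))))) (pr_const (txg_339.enc h1.l h2.l h3)) (txg_310_sf.snd h1 h2 h3) (txg_340_sf.snd h1 h2 h3) rfl rfl))) (pr_case (txg_348_sf.snd h1 h2 h3) (pr_add (pr_add (pr_addc (pr_scaleT 406023521 625000000 h1) (enc_rat _ 30624936043 100000000000)) (pr_cmul (enc_norm (txg_4.enc h1.l h2.l h3)) (pr_norm (pr_addc (pr_scaleT 37247 62500 h1) (enc_rat _ 9400851 10000000))))) (pr_mA (pr_cmul (enc_norm (txg_360.enc h1.l h2.l h3)) (pr_norm (pr_mul (pr_norm (txg_307_sf.snd h1 h2 h3)) (pr_norm (txg_361_sf.snd h1 h2 h3))))) (pr_const (txg_360.enc h1.l h2.l h3)) (txg_307_sf.snd h1 h2 h3) (txg_361_sf.snd h1 h2 h3) rfl rfl)) (pr_add (pr_add (pr_addc (pr_scaleT 3195550843 5000000000 h1) (enc_rat _ 15180874709 50000000000)) (pr_cmul (enc_norm (txg_4.enc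 h1.l h2.l h3)) (pr_norm (pr_csub (enc_rat _ 3584113 5000000) (pr_scaleT 148549 500000 h1))))) (pr_mA (pr_cmul (enc_norm (txg_380.enc h1.l h2.l h3)) (pr_norm (pr_mul (pr_norm (txg_348_sf.snd h1 h2 h3)) (pr_norm (txg_381_sf.snd h1 h2 h3))))) (pr_const (txg_380.enc h1.l h2.l h3)) (txg_348_sf.snd h1 h2 h3) (txg_381_sf.snd h1 h2 h3) rfl rfl)))))) (pr_case (txg_390_sf.snd h1 h2 h3) (pr_case (txg_392_sf.snd h1 h2 h3) (pr_case (txg_395_sf.snd h1 h2 h3) (pr_case (txg_397_sf.snd h1 h2 h3) (pr_add (pr_add (pr_addc (pr_scaleT 55802843 100000000 h1) (enc_rat _ 14370057323 50000000000)) (pr_cmul (enc_norm (txg_4.enc h1.l h2.l h3)) (pr_norm (pr_csub (enc_rat _ 3704311 5000000) (pr_scaleT 1769 10000 h1))))) (pr_mA (pr_cmul (enc_norm (txg_412.enc h1.l h2.l h3)) (pr_norm (pr_mul (pr_norm (txg_26_sf.snd h1 h2 h3)) (pr_norm (txg_413_sf.snd h1 h2 h3))))) (pr_const (txg_412.enc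 h1.l h2.l h3)) (txg_26_sf.snd h1 h2 h3) (txg_413_sf.snd h1 h2 h3) rfl rfl)) (pr_add (pr_add (pr_addc (pr_scaleT 2055887409 5000000000 h1) (enc_rat _ 26537350423 100000000000)) (pr_cmul (enc_norm (txg_4.enc h1.l h2.l h3)) (pr_norm (pr_addc (pr_scaleT 10513 500000 h1) (enc_rat _ 7705511 10000000))))) (pr_mA (pr_cmul (enc_norm (txg_431.enc h1.l h2.l h3)) (pr_norm (pr_mul (pr_norm (txg_397_sf.snd h1 h2 h3)) (pr_norm (txg_432_sf.snd h1 h2 h3))))) (pr_const (txg_431.enc h1.l h2.l h3)) (txg_397_sf.snd h1 h2 h3) (txg_432_sf.snd h1 h2 h3) rfl rfl))) (pr_case (txg_438_sf.snd h1 h2 h3) (pr_add (pr_add (pr_addc (pr_scaleT 2476430229 20000000000 h1) (enc_rat _ 47327581439 200000000000)) (pr_cmul (enc_norm (txg_4.enc h1.l h2.l h3)) (pr_norm (pr_addc (pr_scaleT 409253 2000000 h1) (enc_rat _ 15778223 20000000))))) (pr_mA (pr_cmul (enc_norm (txg_452.enc h1.l h2.l h3)) (pr_norm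 (pr_mul (pr_norm (txg_395_sf.snd h1 h2 h3)) (pr_norm (txg_453_sf.snd h1 h2 h3))))) (pr_const (txg_452.enc h1.l h2.l h3)) (txg_395_sf.snd h1 h2 h3) (txg_453_sf.snd h1 h2 h3) rfl rfl)) (pr_add (pr_add (pr_csub (enc_rat _ 3292780827 12500000000) (pr_scaleT 720120391 5000000000 h1)) (pr_cmul (enc_norm (txg_4.enc h1.l h2.l h3)) (pr_norm (pr_addc (pr_scaleT 75913 500000 h1) (enc_rat _ 992739 1250000))))) (pr_mA (pr_cmul (enc_norm (txg_470.enc h1.l h2.l h3)) (pr_norm (pr_mul (pr_norm (txg_438_sf.snd h1 h2 h3)) (pr_norm (txg_471_sf.snd h1 h2 h3))))) (pr_const (txg_470.enc h1.l h2.l h3)) (txg_438_sf.snd h1 h2 h3) (txg_471_sf.snd h1 h2 h3) rfl rfl)))) (pr_case (txg_478_sf.snd h1 h2 h3) (pr_case (txg_479_sf.snd h1 h2 h3) (pr_add (pr_add (pr_csub (enc_rat _ 28175057139 100000000000) (pr_scaleT 83191077 312500000 h1)) (pr_cmul (enc_norm (txg_4.enc h1.l h2.l h3)) (pr_norm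 (pr_csub (enc_rat _ 8478123 10000000) (pr_scaleT 12853 62500 h1))))) (pr_mA (pr_cmul (enc_norm (txg_493.enc h1.l h2.l h3)) (pr_norm (pr_mul (pr_norm (txg_392_sf.snd h1 h2 h3)) (pr_norm (txg_494_sf.snd h1 h2 h3))))) (pr_const (txg_493.enc h1.l h2.l h3)) (txg_392_sf.snd h1 h2 h3) (txg_494_sf.snd h1 h2 h3) rfl rfl)) (pr_add (pr_add (pr_csub (enc_rat _ 1245544499 4000000000) (pr_scaleT 1035973033 2500000000 h1)) (pr_cmul (enc_norm (txg_4.enc h1.l h2.l h3)) (pr_norm (pr_csub (enc_rat _ 389643 400000) (pr_scaleT 209281 250000 h1))))) (pr_mA (pr_cmul (enc_norm (txg_512.enc h1.l h2.l h3)) (pr_norm (pr_mul (pr_norm (txg_479_sf.snd h1 h2 h3)) (pr_norm (txg_513_sf.snd h1 h2 h3))))) (pr_const (txg_512.enc h1.l h2.l h3)) (txg_479_sf.snd h1 h2 h3) (txg_513_sf.snd h1 h2 h3) rfl rfl))) (pr_case (txg_519_sf.snd h1 h2 h3) (pr_add (pr_add (pr_csub (enc_rat _ 7032973761 20000000000)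 (pr_scaleT 719299333 1250000000 h1)) (pr_cmul (enc_norm (txg_4.enc h1.l h2.l h3)) (pr_norm (pr_csub (enc_rat _ 2239177 2000000) (pr_scaleT 177381 125000 h1))))) (pr_mA (pr_cmul (enc_norm (txg_533.enc h1.l h2.l h3)) (pr_norm (pr_mul (pr_norm (txg_478_sf.snd h1 h2 h3)) (pr_norm (txg_534_sf.snd h1 h2 h3))))) (pr_const (txg_533.enc h1.l h2.l h3)) (txg_478_sf.snd h1 h2 h3) (txg_534_sf.snd h1 h2 h3) rfl rfl)) (pr_add (pr_add (pr_csub (enc_rat _ 39953922009 100000000000) (pr_scaleT 1837686433 2500000000 h1)) (pr_cmul (enc_norm (txg_4.enc h1.l h2.l h3)) (pr_norm (pr_csub (enc_rat _ 11655713 10000000) (pr_scaleT 393081 250000 h1))))) (pr_mA (pr_cmul (enc_norm (txg_554.enc h1.l h2.l h3)) (pr_norm (pr_mul (pr_norm (txg_519_sf.snd h1 h2 h3)) (pr_norm (txg_555_sf.snd h1 h2 h3))))) (pr_const (txg_554.enc h1.l h2.l h3)) (txg_519_sf.snd h1 h2 h3) (txg_555_sf.snd h1 h2 h3)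 rfl rfl))))) (pr_case (txg_563_sf.snd h1 h2 h3) (pr_case (txg_564_sf.snd h1 h2 h3) (pr_case (txg_565_sf.snd h1 h2 h3) (pr_add (pr_add (pr_csub (enc_rat _ 44660232247 100000000000) (pr_scaleT 43477029 50000000 h1)) (pr_cmul (enc_norm (txg_4.enc h1.l h2.l h3)) (pr_norm (pr_csub (enc_rat _ 14057679 10000000) (pr_scaleT 11293 5000 h1))))) (pr_mA (pr_cmul (enc_norm (txg_579.enc h1.l h2.l h3)) (pr_norm (pr_mul (pr_norm (txg_390_sf.snd h1 h2 h3)) (pr_norm (txg_580_sf.snd h1 h2 h3))))) (pr_const (txg_579.enc h1.l h2.l h3)) (txg_390_sf.snd h1 h2 h3) (txg_580_sf.snd h1 h2 h3) rfl rfl)) (pr_add (pr_add (pr_csub (enc_rat _ 24159888461 50000000000) (pr_scaleT 483564219 500000000 h1)) (pr_cmul (enc_norm (txg_4.enc h1.l h2.l h3)) (pr_norm (pr_csub (enc_rat _ 10369577 5000000) (pr_scaleT 606049 150000 h1))))) (pr_mA (pr_cmul (enc_norm (txg_598.enc h1.l h2.l h3)) (pr_norm (pr_mul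 (pr_norm (txg_565_sf.snd h1 h2 h3)) (pr_norm (txg_599_sf.snd h1 h2 h3))))) (pr_const (txg_598.enc h1.l h2.l h3)) (txg_565_sf.snd h1 h2 h3) (txg_599_sf.snd h1 h2 h3) rfl rfl))) (pr_case (txg_605_sf.snd h1 h2 h3) (pr_add (pr_add (pr_csub (enc_rat _ 12757841743 25000000000) (pr_scaleT 259164097 250000000 h1)) (pr_cmul (enc_norm (txg_4.enc h1.l h2.l h3)) (pr_norm (pr_csub (enc_rat _ 6652001 2500000) (pr_scaleT 138629 25000 h1))))) (pr_mA (pr_cmul (enc_norm (txg_619.enc h1.l h2.l h3)) (pr_norm (pr_mul (pr_norm (txg_564_sf.snd h1 h2 h3)) (pr_norm (txg_620_sf.snd h1 h2 h3))))) (pr_const (txg_619.enc h1.l h2.l h3)) (txg_564_sf.snd h1 h2 h3) (txg_620_sf.snd h1 h2 h3) rfl rfl)) (pr_add (pr_add (pr_csub (enc_rat _ 13256696643 25000000000) (pr_scaleT 543270939 500000000 h1)) (pr_cmul (enc_norm (txg_4.enc h1.l h2.l h3)) (pr_norm (pr_csub (enc_rat _ 7321301 2500000) (pr_scaleT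 310723 50000 h1))))) (pr_mA (pr_cmul (enc_norm (txg_638.enc h1.l h2.l h3)) (pr_norm (pr_mul (pr_norm (txg_605_sf.snd h1 h2 h3)) (pr_norm (txg_639_sf.snd h1 h2 h3))))) (pr_const (txg_638.enc h1.l h2.l h3)) (txg_605_sf.snd h1 h2 h3) (txg_639_sf.snd h1 h2 h3) rfl rfl)))) (pr_case (txg_646_sf.snd h1 h2 h3) (pr_case (txg_647_sf.snd h1 h2 h3) (pr_add (pr_add (pr_csub (enc_rat _ 2667520487 5000000000) (pr_scaleT 547217563 500000000 h1)) (pr_cmul (enc_norm (txg_4.enc h1.l h2.l h3)) (pr_norm (pr_csub (enc_rat _ 1621159 500000) (pr_scaleT 348991 50000 h1))))) (pr_mA (pr_cmul (enc_norm (txg_662.enc h1.l h2.l h3)) (pr_norm (pr_mul (pr_norm (txg_563_sf.snd h1 h2 h3)) (pr_norm (txg_663_sf.snd h1 h2 h3))))) (pr_const (txg_662.enc h1.l h2.l h3)) (txg_563_sf.snd h1 h2 h3) (txg_663_sf.snd h1 h2 h3) rfl rfl)) (pr_add (pr_add (pr_csub (enc_rat _ 6504613421 12500000000) (pr_scaleT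 53158063 50000000 h1)) (pr_cmul (enc_norm (txg_4.enc h1.l h2.l h3)) (pr_norm (pr_csub (enc_rat _ 4855297 1250000) (pr_scaleT 42541 5000 h1))))) (pr_mA (pr_cmul (enc_norm (txg_682.enc h1.l h2.l h3)) (pr_norm (pr_mul (pr_norm (txg_647_sf.snd h1 h2 h3)) (pr_norm (txg_683_sf.snd h1 h2 h3))))) (pr_const (txg_682.enc h1.l h2.l h3)) (txg_647_sf.snd h1 h2 h3) (txg_683_sf.snd h1 h2 h3) rfl rfl))) (pr_case (txg_689_sf.snd h1 h2 h3) (pr_add (pr_add (pr_csub (enc_rat _ 50488422801 100000000000) (pr_scaleT 1027149991 1000000000 h1)) (pr_cmul (enc_norm (txg_4.enc h1.l h2.l h3)) (pr_norm (pr_csub (enc_rat _ 48451457 10000000) (pr_scaleT 1074287 100000 h1))))) (pr_mA (pr_cmul (enc_norm (txg_704.enc h1.l h2.l h3)) (pr_norm (pr_mul (pr_norm (txg_646_sf.snd h1 h2 h3)) (pr_norm (txg_705_sf.snd h1 h2 h3))))) (pr_const (txg_704.enc h1.l h2.l h3)) (txg_646_sf.snd h1 h2 h3) (txg_705_sf.snd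 h1 h2 h3) rfl rfl)) (pr_add (pr_add (pr_add (pr_csub (enc_rat _ 404010417030467419 898218750000000000) (pr_scaleT 712920608966327963 790432500000000000 h1)) (pr_cmul (enc_norm (txg_4.enc h1.l h2.l h3)) (pr_norm (pr_csub (enc_rat _ 244327161882341 89821875000000) (pr_scaleT 467405540047807 79043250000000 h1))))) (pr_cmul (txg_724.enc h1.l h2.l h3) (pr_norm (pr_subr 1072869 1718750 (pr_scaleT 1072869 756250 h1))))) (pr_mA (pr_cmul (enc_norm (txg_737.enc h1.l h2.l h3)) (pr_norm (pr_mul (pr_norm (txg_689_sf.snd h1 h2 h3)) (pr_norm (txg_738_sf.snd h1 h2 h3))))) (pr_const (txg_737.enc h1.l h2.l h3)) (txg_689_sf.snd h1 h2 h3) (txg_738_sf.snd h1 h2 h3) rfl rfl))))))) (pr_case (txg_749_sf.snd h1 h2 h3) (pr_sub (pr_mul (pr_norm (pr_csub (enc_pnc _ 1) h2)) (pr_norm (pr_subn 1 (pr_nat 2 h2)))) (pr_mul (pr_norm (pr_nat 2 (pr_subc (pr_scaleT 4 3 (txg_6_sf.snd h1 h2 h3))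 h3))) (pr_norm (pr_mul (pr_norm (pr_subn 1 (pr_add (pr_scaleT 2 3 (txg_6_sf.snd h1 h2 h3)) h2))) (kcg_sf.snd h1 h3))))) (pr_case (txg_750_sf.snd h1 h2 h3) (pr_add (pr_add (pr_add (pr_csub (enc_rat _ 19992478605258933510631 44618805000000000000000) (pr_scaleT 39941802965223348151 44618805000000000000 h1)) (pr_cmul (enc_norm (txg_4.enc h1.l h2.l h3)) (pr_norm (pr_csub (enc_rat _ 3500064233817927659 4461880500000000000) (pr_scaleT 6966853661546939 4461880500000000 h1))))) (pr_cmul (txg_724.enc h1.l h2.l h3) (pr_norm (pr_subr 8951202689 8887500000 (pr_scaleT 18609569 8887500 h1))))) (pr_mA (pr_cmul (enc_norm (txg_774.enc h1.l h2.l h3)) (pr_norm (pr_mul (pr_norm (txg_749_sf.snd h1 h2 h3)) (pr_norm (txg_775_sf.snd h1 h2 h3))))) (pr_const (txg_774.enc h1.l h2.l h3)) (txg_749_sf.snd h1 h2 h3) (txg_775_sf.snd h1 h2 h3) rfl rfl)) (pr_case (txg_780_sf.snd h1 h2 h3) (pr_add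 (pr_add (pr_csub (enc_rat _ 320261369171 700000000000) (pr_scaleT 80045993 87500000 h1)) (pr_cmul (enc_norm (txg_4.enc h1.l h2.l h3)) (pr_norm (pr_csub (enc_rat _ 9061221 10000000) (pr_scaleT 1134 625 h1))))) (pr_mA (pr_cmul (enc_norm (txg_794.enc h1.l h2.l h3)) (pr_norm (pr_mul (pr_norm (txg_750_sf.snd h1 h2 h3)) (pr_norm (txg_795_sf.snd h1 h2 h3))))) (pr_const (txg_794.enc h1.l h2.l h3)) (txg_750_sf.snd h1 h2 h3) (txg_795_sf.snd h1 h2 h3) rfl rfl)) (pr_add (pr_add (pr_csub (enc_rat _ 369610119 800000000) (pr_scaleT 369610119 400000000 h1)) (pr_cmul (enc_norm (txg_4.enc h1.l h2.l h3)) (pr_norm (pr_csub (enc_rat _ 68983 80000) (pr_scaleT 68983 40000 h1))))) (pr_mA (pr_cmul (enc_norm (txg_815.enc h1.l h2.l h3)) (pr_norm (pr_mul (pr_norm (txg_780_sf.snd h1 h2 h3)) (pr_norm (txg_816_sf.snd h1 h2 h3))))) (pr_const (txg_815.enc h1.l h2.l h3)) (txg_780_sf.snd h1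 h2 h3) (txg_816_sf.snd h1 h2 h3) rfl rfl))))))⟩
noncomputable def l0q0_sf : Sl2 l0q0 := ⟨_, fun h1 h2 => (pr_norm (txg_sf.snd (pr_norm (pr_sub (pr_scaleT 3 4 h1) (pr_half (c1g_sf.snd h1)))) (pr_nd (c1g_sf.snd h1)) h2))⟩
noncomputable def swg_sf : Sl1 swg := ⟨_, fun h1 => (pr_sqrt (pr_csub (enc_pnc _ 1) (pr_scaleT 3 4 (pr_sq (pr_norm (pr_subn 1 h1))))))⟩
noncomputable def cv1m_sf : Sl1 cv1m := ⟨_, fun h1 => (pr_norm (pr_add (pr_scaleT 3 4 (c1g_sf.snd h1)) (pr_scaleT 1 4 (pr_addc (swg_sf.snd h1) (enc_rat _ 1 2)))))⟩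
noncomputable def bf1q0_sf : Sl2 bf1q0 := ⟨_, fun h1 h2 => (pr_norm (pr_case (pr_subr 71 2000 h1) (pr_case (pr_subr 29 2000 h1) (pr_case (pr_subr 1 200 h1) (pr_add (pr_csub (enc_pnc _ 1) (pr_scaleT 1127791 500000 h1)) (pr_cmul (enc_norm (bf1q0_3.enc h1.l h2)) (pr_nd (pr_scaleT 113 50 h1)))) (pr_case (pr_subr 21 2000 h1) (pr_add (pr_csub (enc_rat _ 1100002839 1100000000) (pr_scaleT 620427 275000 h1)) (pr_cmul (enc_norm (bf1q0_3.enc h1.l h2)) (pr_norm (pr_addc (pr_scaleT 122 55 h1) (enc_rat _ 23 110000))))) (pr_add (pr_csub (enc_rat _ 800005629 800000000) (pr_scaleT 902609 400000 h1)) (pr_cmul (enc_norm (bf1q0_3.enc h1.l h2)) (pr_norm (pr_addc (pr_scaleT 87 40 h1) (enc_rat _ 53 80000))))))) (pr_case (pr_subr 9 512 h1) (pr_add (pr_csub (enc_rat _ 9850005353 9850000000) (pr_scaleT 1388896 615625 h1)) (pr_cmul (enc_norm (bf1q0_3.enc h1.l h2)) (pr_norm (pr_addc (pr_scaleT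 2048 985 h1) (enc_rat _ 2021 985000))))) (pr_case (pr_subr 1 40 h1) (pr_add (pr_csub (enc_rat _ 1899983597 1900000000) (pr_scaleT 3348086 1484375 h1)) (pr_cmul (enc_norm (bf1q0_3.enc h1.l h2)) (pr_norm (pr_addc (pr_scaleT 4768 2375 h1) (enc_rat _ 629 190000))))) (pr_add (pr_csub (enc_rat _ 140002357 140000000) (pr_scaleT 3949 1750 h1)) (pr_cmul (enc_norm (bf1q0_3.enc h1.l h2)) (pr_norm (pr_addc (pr_scaleT 40 21 h1) (enc_rat _ 247 42000)))))))) (pr_case (pr_subr 1 10 h1) (pr_case (pr_subr 1 20 h1) (pr_add (pr_csub (enc_rat _ 2899964009 2900000000) (pr_scaleT 1635417 725000 h1)) (pr_cmul (enc_norm (bf1q0_3.enc h1.l h2)) (pr_norm (pr_addc (pr_scaleT 262 145 h1) (enc_rat _ 2713 290000))))) (pr_case (pr_subr 7 100 h1) (pr_add (pr_csub (enc_rat _ 199997047 200000000) (pr_scaleT 4511401 2000000 h1)) (pr_cmul (enc_norm (bf1q0_3.enc h1.l h2)) (pr_norm (pr_addc (pr_scaleT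 343 200 h1) (enc_rat _ 279 20000))))) (pr_add (pr_csub (enc_rat _ 99999339 100000000) (pr_scaleT 2255817 1000000 h1)) (pr_cmul (enc_norm (bf1q0_3.enc h1.l h2)) (pr_norm (pr_addc (pr_scaleT 493 300 h1) (enc_rat _ 569 30000))))))) (pr_case (pr_subr 11 50 h1) (pr_case (pr_subr 3 20 h1) (pr_add (pr_csub (enc_rat _ 100000243 100000000) (pr_scaleT 11279537 5000000 h1)) (pr_cmul (enc_norm (bf1q0_3.enc h1.l h2)) (pr_norm (pr_addc (pr_scaleT 791 500 h1) (enc_rat _ 251 10000))))) (pr_add (pr_csub (enc_rat _ 699974299 700000000) (pr_scaleT 631581 280000 h1)) (pr_cmul (enc_norm (bf1q0_3.enc h1.l h2)) (pr_norm (pr_addc (pr_scaleT 43 28 h1) (enc_rat _ 2243 70000)))))) (pr_case (pr_subr 33 100 h1) (pr_add (pr_csub (enc_rat _ 99999333 100000000) (pr_scaleT 2255783 1000000 h1)) (pr_cmul (enc_norm (bf1q0_3.enc h1.l h2)) (pr_norm (pr_addc (pr_scaleT 1659 1100 h1) (enc_rat _ 381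 10000))))) (pr_add (pr_csub (enc_rat _ 8499693 8500000) (pr_scaleT 19173397 8500000 h1)) (pr_cmul (enc_norm (bf1q0_3.enc h1.l h2)) (pr_norm (pr_addc (pr_scaleT 1271 850 h1) (enc_rat _ 18 425))))))))))⟩
noncomputable def kf1q0_sf : Sl2 kf1q0 := ⟨_, fun h1 h2 => (pr_norm (pr_mul (cv1m_sf.snd h1) (bf1q0_sf.snd h1 h2)))⟩
noncomputable def bx1q0_sf : Sl2 bx1q0 := ⟨_, fun h1 h2 => (pr_norm (pr_case (pr_subr 71 2000 h1) (pr_case (pr_subr 29 2000 h1) (pr_case (pr_subr 1 200 h1) (pr_sub (pr_scaleT 6797 15625 h1) (pr_cmul (enc_norm (bx1q0_3.enc h1.l h2)) (pr_nd (pr_scaleT 36 25 h1)))) (pr_case (pr_subr 21 2000 h1) (pr_add (pr_addc (pr_scaleT 11571 27500 h1) (enc_rat _ 9793 137500000)) (pr_cmul (enc_norm (bx1q0_3.enc h1.l h2)) (pr_norm (pr_subr 12 6875 (pr_neg (pr_scaleT 12 11 h1)))))) (pr_add (pr_addc (pr_scaleT 84161 200000 h1) (enc_rat _ 5663 80000000)) (pr_cmul (enc_norm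 (bx1q0_3.enc h1.l h2)) (pr_norm (pr_subr 9 8000 (pr_neg (pr_scaleT 23 20 h1)))))))) (pr_case (pr_subr 9 512 h1) (pr_add (pr_addc (pr_scaleT 51298 123125 h1) (enc_rat _ 1293051 9850000000)) (pr_cmul (enc_norm (bx1q0_3.enc h1.l h2)) (pr_norm (pr_subr 1293 985000 (pr_neg (pr_scaleT 224 197 h1)))))) (pr_case (pr_subr 1 40 h1) (pr_add (pr_addc (pr_scaleT 591148 1484375 h1) (enc_rat _ 863499 1900000000)) (pr_cmul (enc_norm (bx1q0_3.enc h1.l h2)) (pr_norm (pr_subr 357 190000 (pr_neg (pr_scaleT 2624 2375 h1)))))) (pr_add (pr_addc (pr_scaleT 398791 1050000 h1) (enc_rat _ 384563 420000000)) (pr_cmul (enc_norm (bx1q0_3.enc h1.l h2)) (pr_norm (pr_subr 109 42000 (pr_neg (pr_scaleT 113 105 h1))))))))) (pr_case (pr_subr 1 10 h1) (pr_case (pr_subr 1 20 h1) (pr_add (pr_addc (pr_scaleT 34681 90625 h1) (enc_rat _ 36847 45312500)) (pr_cmul (enc_norm (bx1q0_3.enc h1.l h2)) (pr_norm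 (pr_subr 343 36250 (pr_neg (pr_scaleT 128 145 h1)))))) (pr_case (pr_subr 7 100 h1) (pr_add (pr_addc (pr_scaleT 190439 500000 h1) (enc_rat _ 45181 50000000)) (pr_cmul (enc_norm (bx1q0_3.enc h1.l h2)) (pr_norm (pr_subr 133 5000 (pr_neg (pr_scaleT 27 50 h1)))))) (pr_add (pr_addc (pr_scaleT 190359 500000 h1) (enc_rat _ 45741 50000000)) (pr_cmul (enc_norm (bx1q0_3.enc h1.l h2)) (pr_norm (pr_subr 889 15000 (pr_neg (pr_scaleT 11 150 h1)))))))) (pr_case (pr_subr 11 50 h1) (pr_case (pr_subr 3 20 h1) (pr_add (pr_addc (pr_scaleT 1892859 5000000 h1) (enc_rat _ 7059 6250000)) (pr_cmul (enc_norm (bx1q0_3.enc h1.l h2)) (pr_norm (pr_subr 62 625 (pr_scaleT 163 500 h1))))) (pr_add (pr_addc (pr_scaleT 1315537 3500000 h1) (enc_rat _ 1074537 700000000)) (pr_cmul (enc_norm (bx1q0_3.enc h1.l h2)) (pr_norm (pr_subr 9791 70000 (pr_scaleT 209 350 h1)))))) (pr_case (pr_subr 33 100 h1)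 (pr_add (pr_addc (pr_scaleT 2033483 5500000 h1) (enc_rat _ 288663 100000000)) (pr_cmul (enc_norm (bx1q0_3.enc h1.l h2)) (pr_norm (pr_subr 1809 10000 (pr_scaleT 431 550 h1))))) (pr_add (pr_addc (pr_scaleT 47411 265625 h1) (enc_rat _ 22438101 340000000)) (pr_cmul (enc_norm (bx1q0_3.enc h1.l h2)) (pr_norm (pr_subr 7443 34000 (pr_scaleT 382 425 h1))))))))))⟩
noncomputable def l1q0_sf : Sl2 l1q0 := ⟨_, fun h1 h2 => (pr_norm (pr_mul (cv1m_sf.snd h1) (bx1q0_sf.snd h1 h2)))⟩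
noncomputable def cv2m_sf : Sl1 cv2m := ⟨_, fun h1 => (pr_norm (pr_add (pr_scaleT 7 20 (c1g_sf.snd h1)) (pr_scaleT 13 20 (pr_addc (swg_sf.snd h1) (enc_rat _ 1 2)))))⟩
noncomputable def bf2q0_sf : Sl2 bf2q0 := ⟨_, fun h1 h2 => (pr_norm (pr_case (pr_subr 71 2000 h1) (pr_case (pr_subr 29 2000 h1) (pr_case (pr_subr 1 200 h1) (pr_add (pr_csub (enc_pnc _ 1) (pr_scaleT 475659 250000 h1)) (pr_cmul (enc_norm (bf2q0_3.enc h1.l h2)) (pr_nd (pr_scaleT 237 25 h1)))) (pr_case (pr_subr 21 2000 h1) (pr_add (pr_csub (enc_rat _ 549260951 550000000) (pr_scaleT 11233 6875 h1)) (pr_cmul (enc_norm (bf2q0_3.enc h1.l h2)) (pr_norm (pr_addc (pr_scaleT 104 11 h1) (enc_rat _ 7 55000))))) (pr_add (pr_csub (enc_rat _ 163526081 160000000) (pr_scaleT 1544289 400000 h1)) (pr_cmul (enc_norm (bf2q0_3.enc h1.l h2)) (pr_norm (pr_csub (enc_rat _ 8617 16000) (pr_scaleT 1673 40 h1))))))) (pr_case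 (pr_subr 9 512 h1) (pr_add (pr_csub (enc_rat _ 20133782493 19700000000) (pr_scaleT 2375968 615625 h1)) (pr_cmul (enc_norm (bf2q0_3.enc h1.l h2)) (pr_norm (pr_csub (enc_rat _ 1061501 1970000) (pr_scaleT 41216 985 h1))))) (pr_case (pr_subr 1 40 h1) (pr_add (pr_csub (enc_rat _ 970916343 950000000) (pr_scaleT 1145734 296875 h1)) (pr_cmul (enc_norm (bf2q0_3.enc h1.l h2)) (pr_norm (pr_csub (enc_rat _ 50951 95000) (pr_scaleT 19808 475 h1))))) (pr_add (pr_csub (enc_rat _ 89428961 87500000) (pr_scaleT 1351153 350000 h1)) (pr_cmul (enc_norm (bf2q0_3.enc h1.l h2)) (pr_norm (pr_csub (enc_rat _ 13981 26250) (pr_scaleT 4363 105 h1)))))))) (pr_case (pr_subr 1 10 h1) (pr_case (pr_subr 1 20 h1) (pr_add (pr_csub (enc_rat _ 740952949 725000000) (pr_scaleT 5595951 1450000 h1)) (pr_cmul (enc_norm (bf2q0_3.enc h1.l h2)) (pr_norm (pr_csub (enc_rat _ 38293 72500) (pr_scaleT 6007 145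 h1))))) (pr_case (pr_subr 7 100 h1) (pr_add (pr_csub (enc_rat _ 102204369 100000000) (pr_scaleT 3860069 1000000 h1)) (pr_cmul (enc_norm (bf2q0_3.enc h1.l h2)) (pr_norm (pr_csub (enc_rat _ 5233 10000) (pr_scaleT 4133 100 h1))))) (pr_add (pr_csub (enc_rat _ 306607381 300000000) (pr_scaleT 11579389 3000000 h1)) (pr_cmul (enc_norm (bf2q0_3.enc h1.l h2)) (pr_norm (pr_csub (enc_rat _ 15517 30000) (pr_scaleT 12373 300 h1))))))) (pr_case (pr_subr 11 50 h1) (pr_case (pr_subr 3 20 h1) (pr_add (pr_csub (enc_rat _ 102204237 100000000) (pr_scaleT 1929987 500000 h1)) (pr_cmul (enc_norm (bf2q0_3.enc h1.l h2)) (pr_norm (pr_csub (enc_rat _ 5109 10000) (pr_scaleT 2059 50 h1))))) (pr_add (pr_csub (enc_rat _ 715424229 700000000) (pr_scaleT 422179 109375 h1)) (pr_cmul (enc_norm (bf2q0_3.enc h1.l h2)) (pr_norm (pr_csub (enc_rat _ 35253 70000) (pr_scaleT 7198 175 h1)))))) (pr_case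 (pr_subr 33 100 h1) (pr_add (pr_csub (enc_rat _ 102204203 100000000) (pr_scaleT 964989 250000 h1)) (pr_cmul (enc_norm (bf2q0_3.enc h1.l h2)) (pr_norm (pr_csub (enc_rat _ 4971 10000) (pr_scaleT 11303 275 h1))))) (pr_add (pr_csub (enc_rat _ 868732277 850000000) (pr_scaleT 65619043 17000000 h1)) (pr_cmul (enc_norm (bf2q0_3.enc h1.l h2)) (pr_norm (pr_csub (enc_rat _ 41889 85000) (pr_scaleT 69851 1700 h1))))))))))⟩
noncomputable def kf2q0_sf : Sl2 kf2q0 := ⟨_, fun h1 h2 => (pr_norm (pr_mul (cv2m_sf.snd h1) (bf2q0_sf.snd h1 h2)))⟩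
noncomputable def bx2q0_sf : Sl2 bx2q0 := ⟨_, fun h1 h2 => (pr_norm (pr_case (pr_subr 71 2000 h1) (pr_case (pr_subr 29 2000 h1) (pr_case (pr_subr 1 200 h1) (pr_add (pr_scaleT 117951 125000 h1) (pr_cmul (enc_norm (bx2q0_3.enc h1.l h2)) (pr_nd (pr_scaleT 14 25 h1)))) (pr_case (pr_subr 21 2000 h1) (pr_add (pr_addc (pr_scaleT 493021 550000 h1) (enc_rat _ 129817 550000000)) (pr_cmul (enc_norm (bx2q0_3.enc h1.l h2)) (pr_norm (pr_csub (enc_rat _ 169 55000) (pr_scaleT 3 55 h1))))) (pr_add (pr_addc (pr_scaleT 82587 100000 h1) (enc_rat _ 195323 200000000)) (pr_cmul (enc_norm (bx2q0_3.enc h1.l h2)) (pr_norm (pr_subr 1189 20000 (pr_scaleT 59 10 h1))))))) (pr_case (pr_subr 9 512 h1) (pr_add (pr_addc (pr_scaleT 101138 123125 h1) (enc_rat _ 20508921 19700000000)) (pr_cmul (enc_norm (bx2q0_3.enc h1.l h2)) (pr_norm (pr_subr 101703 1970000 (pr_scaleT 1056 197 h1))))) (pr_case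 (pr_subr 1 40 h1) (pr_add (pr_addc (pr_scaleT 1244784 1484375 h1) (enc_rat _ 702351 950000000)) (pr_cmul (enc_norm (bx2q0_3.enc h1.l h2)) (pr_norm (pr_csub (enc_rat _ 5307 95000) (pr_scaleT 1792 2375 h1))))) (pr_add (pr_addc (pr_scaleT 114067 150000 h1) (enc_rat _ 20197 7500000)) (pr_cmul (enc_norm (bx2q0_3.enc h1.l h2)) (pr_norm (pr_csub (enc_rat _ 139 2625) (pr_scaleT 67 105 h1)))))))) (pr_case (pr_subr 1 10 h1) (pr_case (pr_subr 1 20 h1) (pr_add (pr_addc (pr_scaleT 536287 725000 h1) (enc_rat _ 9944737 2900000000)) (pr_cmul (enc_norm (bx2q0_3.enc h1.l h2)) (pr_norm (pr_csub (enc_rat _ 14609 290000) (pr_scaleT 82 145 h1))))) (pr_case (pr_subr 7 100 h1) (pr_add (pr_addc (pr_scaleT 1374707 2000000 h1) (enc_rat _ 1209371 200000000)) (pr_cmul (enc_norm (bx2q0_3.enc h1.l h2)) (pr_norm (pr_csub (enc_rat _ 947 20000) (pr_scaleT 101 200 h1))))) (pr_add (pr_addc (pr_scaleT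 1653959 3000000 h1) (enc_rat _ 4670767 300000000)) (pr_cmul (enc_norm (bx2q0_3.enc h1.l h2)) (pr_norm (pr_csub (enc_rat _ 1319 30000) (pr_scaleT 137 300 h1))))))) (pr_case (pr_subr 11 50 h1) (pr_case (pr_subr 3 20 h1) (pr_add (pr_addc (pr_scaleT 172747 500000 h1) (enc_rat _ 3615179 100000000)) (pr_cmul (enc_norm (bx2q0_3.enc h1.l h2)) (pr_norm (pr_csub (enc_rat _ 403 10000) (pr_scaleT 21 50 h1))))) (pr_add (pr_addc (pr_scaleT 1185967 7000000 h1) (enc_rat _ 21896809 350000000)) (pr_cmul (enc_norm (bx2q0_3.enc h1.l h2)) (pr_norm (pr_csub (enc_rat _ 1313 35000) (pr_scaleT 281 700 h1)))))) (pr_case (pr_subr 33 100 h1) (pr_add (pr_addc (pr_scaleT 218533 5500000 h1) (enc_rat _ 569339 6250000)) (pr_cmul (enc_norm (bx2q0_3.enc h1.l h2)) (pr_norm (pr_csub (enc_rat _ 23 625) (pr_scaleT 219 550 h1))))) (pr_add (pr_csub (enc_rat _ 239722567 1700000000) (pr_scaleT 1896121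 17000000 h1)) (pr_cmul (enc_norm (bx2q0_3.enc h1.l h2)) (pr_norm (pr_csub (enc_rat _ 407 10000) (pr_scaleT 41 100 h1))))))))))⟩
noncomputable def l2q0_sf : Sl2 l2q0 := ⟨_, fun h1 h2 => (pr_norm (pr_mul (cv2m_sf.snd h1) (bx2q0_sf.snd h1 h2)))⟩
noncomputable def kf0q1_10_sf : Sl2 kf0q1_10 := ⟨_, fun h1 h2 => (pr_scaleT 3 2 h1)⟩
noncomputable def kf0q1_sf : Sl2 kf0q1 := ⟨_, fun h1 h2 => (pr_norm (pr_add (pr_mul (pr_norm (pr_mul (pr_norm (pr_cadd (enc_pnc _ 1) (pr_nat 2 (c1g_sf.snd h1)))) (pr_norm (pr_sub (kf0q1_10_sf.snd h1 h2) (c1g_sf.snd h1))))) (pr_nd (pr_inv (pr_nat 2 (pr_sub (pr_cadd (enc_pnc _ 1) (kf0q1_10_sf.snd h1 h2)) (c1g_sf.snd h1)))))) (pr_mul (pr_norm (pr_subn 1 h1)) (kcg_sf.snd (pr_norm (pr_sub (pr_scaleT 3 4 h1) (pr_half (c1g_sf.snd h1)))) h2))))⟩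
noncomputable def l0q1_sf : Sl2 l0q1 := ⟨_, fun h1 h2 => (pr_norm (txg_sf.snd (pr_norm (pr_sub (pr_scaleT 3 4 h1) (pr_half (c1g_sf.snd h1)))) (pr_nd (c1g_sf.snd h1)) h2))⟩
noncomputable def cv2p_sf : Sl1 cv2p := ⟨_, fun h1 => (pr_norm (pr_add (pr_scaleT 7 20 (c1g_sf.snd h1)) (pr_scaleT 13 20 (pr_subr 1 2 (swg_sf.snd h1)))))⟩
noncomputable def bf2q2_sf : Sl2 bf2q2 := ⟨_, fun h1 h2 => (pr_norm (pr_case (pr_subr 21 20 h1) (pr_case (pr_subr 521 512 h1) (pr_add (pr_subr 1118389 3515625 (pr_scaleT 4634014 3515625 h1)) (pr_cmul (enc_norm (bf2q2_3.enc h1.l h2)) (pr_norm (pr_csub (enc_rat _ 32 5625) (pr_scaleT 32 5625 h1))))) (pr_case (pr_subr 2071 2000 h1) (pr_add (pr_subr 18234049423 57350000000 (pr_scaleT 4724014 3584375 h1)) (pr_cmul (enc_norm (bf2q2_3.enc h1.l h2)) (pr_norm (pr_csub (enc_rat _ 31989 5735000) (pr_scaleT 32 5735 h1))))) (pr_add (pr_subr 922004091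 2900000000 (pr_scaleT 1911007 1450000 h1)) (pr_cmul (enc_norm (bf2q2_3.enc h1.l h2)) (pr_norm (pr_csub (enc_rat _ 2013 290000) (pr_scaleT 1 145 h1))))))) (pr_case (pr_subr 231 200 h1) (pr_case (pr_subr 107 100 h1) (pr_subc (pr_subr 31799979 100000000 (pr_scaleT 659 500 h1)) (enc_scaleT 3 10000 (bf2q2_3.enc h1.l h2))) (pr_add (pr_subr 31787567 100000000 (pr_scaleT 329471 250000 h1)) (pr_cmul (enc_norm (bf2q2_3.enc h1.l h2)) (pr_norm (pr_csub (enc_rat _ 377 170000) (pr_scaleT 1 425 h1)))))) (pr_case (pr_subr 13 10 h1) (pr_add (pr_subr 230442709 725000000 (pr_scaleT 19109021 14500000 h1)) (pr_cmul (enc_norm (bf2q2_3.enc h1.l h2)) (pr_norm (pr_csub (enc_rat _ 137 72500) (pr_scaleT 3 1450 h1))))) (pr_add (pr_subr 15898313 50000000 (pr_scaleT 6589757 5000000 h1)) (pr_cmul (enc_norm (bf2q2_3.enc h1.l h2)) (pr_norm (pr_csub (enc_rat _ 9 5000) (pr_scaleT 1 500 h1)))))))))⟩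
noncomputable def kf2q2_sf : Sl2 kf2q2 := ⟨_, fun h1 h2 => (pr_norm (pr_mul (cv2p_sf.snd h1) (bf2q2_sf.snd h1 h2)))⟩
noncomputable def bx2q2_sf : Sl2 bx2q2 := ⟨_, fun h1 h2 => (pr_norm (pr_case (pr_subr 21 20 h1) (pr_case (pr_subr 521 512 h1) (pr_add (pr_csub (enc_rat _ 2584658 3515625) (pr_scaleT 2584658 3515625 h1)) (pr_cmul (enc_norm (bx2q2_3.enc h1.l h2)) (pr_norm (pr_subr 1504 5625 (pr_scaleT 1504 5625 h1))))) (pr_case (pr_subr 2071 2000 h1) (pr_add (pr_csub (enc_rat _ 81578514387 114700000000) (pr_scaleT 2550812 3584375 h1)) (pr_cmul (enc_norm (bx2q2_3.enc h1.l h2)) (pr_norm (pr_subr 3723341 11470000 (pr_scaleT 1856 5735 h1))))) (pr_add (pr_csub (enc_rat _ 1999360529 2900000000) (pr_scaleT 250341 362500 h1)) (pr_cmul (enc_norm (bx2q2_3.enc h1.l h2)) (pr_norm (pr_subr 104647 290000 (pr_scaleT 52 145 h1))))))) (pr_case (pr_subr 231 200 h1) (pr_case (pr_subr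 107 100 h1) (pr_add (pr_csub (enc_rat _ 132359867 200000000) (pr_scaleT 1328553 2000000 h1)) (pr_cmul (enc_norm (bx2q2_3.enc h1.l h2)) (pr_norm (pr_subr 7981 20000 (pr_scaleT 79 200 h1))))) (pr_add (pr_csub (enc_rat _ 556670837 850000000) (pr_scaleT 5591597 8500000 h1)) (pr_cmul (enc_norm (bx2q2_3.enc h1.l h2)) (pr_norm (pr_subr 37691 85000 (pr_scaleT 371 850 h1)))))) (pr_case (pr_subr 13 10 h1) (pr_add (pr_subr 4343688917 2900000000 (pr_scaleT 2185877 1812500 h1)) (pr_cmul (enc_norm (bx2q2_3.enc h1.l h2)) (pr_norm (pr_subr 146869 290000 (pr_scaleT 356 725 h1))))) (pr_add (pr_subr 79855433 50000000 (pr_scaleT 12823741 10000000 h1)) (pr_cmul (enc_norm (bx2q2_3.enc h1.l h2)) (pr_norm (pr_subr 2831 5000 (pr_scaleT 537 1000 h1)))))))))⟩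
noncomputable def l2q2_sf : Sl2 l2q2 := ⟨_, fun h1 h2 => (pr_norm (pr_mul (cv2p_sf.snd h1) (bx2q2_sf.snd h1 h2)))⟩
noncomputable def dlg : Fn2 := ⟨_, _, fun h1 h2 => (kcg.enc (enc_norm (enc_sub (enc_scaleT 3 4 h1) (enc_half (c1g.enc h1)))) h2)⟩
noncomputable def kq02_5 : Fn2 := ⟨_, _, fun h1 h2 => (enc_scaleT 929 10000 h2)⟩
noncomputable def kq02 : Fn2 := ⟨_, _, fun h1 h2 => (enc_norm (enc_add (enc_add (enc_rat _ 7772969 3200000) (kq02_5.enc h1 h2)) (enc_mul (enc_norm (enc_sub (enc_neg (enc_rat _ 4572969 3200000)) (kq02_5.enc h1 h2))) (yag.enc h1))))⟩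
noncomputable def lq02 : Fn2 := ⟨_, _, fun h1 h2 => (enc_norm (enc_sub (enc_rat _ 47940243 320000000) (enc_scaleT 409253 1000000 h2)))⟩
noncomputable def cq02 : Fn2 := ⟨_, _, fun h1 h2 => (enc_pnc _ 0)⟩
noncomputable def pcE0 : Piece := ⟨Fn3.sc eng rsbq0, rlq0⟩
noncomputable def pcE1 : Piece := ⟨Fn3.sc eng rsbq1, rlq1⟩
noncomputable def pcE2 : Piece := ⟨Fn3.sc eng rsbq2, rlq2⟩
noncomputable def pcE3 : Piece := ⟨Fn3.sc eng rsbq3, rlq3⟩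

end Pool.Agent.Strip051.G.I9688_9736.Tab
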