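import Pool.Agent.Strip051.G.I9688_9736.Tab
import Pool.Agent.Strip051.PB.C12G
import Pool.Agent.Strip051.PB.PairU
import Pool.Agent.Strip051.PB.PairB

/-! # Slopes of the tables near the lattice heights (generated) -/

set_option linter.all false

namespace Pool.Agent.Strip051.G.I9688_9736.Tab

open Pool.Agent.Strip051.PB

attribute [local irreducible] padd psub pneg pmul psq pinv psqrt psqrtg pabs pps pmax pmin pphi plam
  pcase phf pnat prat pscale pnorm pdc pnc pone ppos pnn Enc pbad pzero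

noncomputable def idf_s : Sl1 idf := ⟨fun _ _ D => D, fun h => h⟩

theorem cv1r_two {b : ℝ} (h : b = 2) : cv1r.v b = 0 := by
  have e : swg.v = swn := by funext y; simp [swg, swn]
  subst h
  simp only [cv1r, e, swn_two]
  push_cast
  ring
theorem cv2r_two {b : ℝ} (h : b = 2) : cv2r.v b = 0 := by
  have e : swg.v = swn := by funext y; simp [swg, swn]
  subst h
  simp only [cv2r, e, swn_two]
  push_cast
  ring
noncomputable def c1g_s : Sl1 c1g := ⟨_, fun h1 => (pr_sqrtgz (pr_csub (enc_pnc _ 1) (pr_scaleT 3 4 (pr_sq h1))))⟩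
noncomputable def kcg_6_s : Sl2 kcg_6 := ⟨_, fun h1 h2 => (pr_addc h1 (enc_rat _ 781 1742))⟩
noncomputable def kcg_9_s : Sl2 kcg_9 := ⟨_, fun h1 h2 => (pr_addc h1 (enc_rat _ 481 1000))⟩
noncomputable def kcg_12_s : Sl2 kcg_12 := ⟨_, fun h1 h2 => (pr_addc h1 (enc_rat _ 61 125))⟩
noncomputable def kcg_13_s : Sl2 kcg_13 := ⟨_, fun h1 h2 => (pr_scaleT 8426259229 750000000 h1)⟩
noncomputable def kcg_18_s : Sl2 kcg_18 := ⟨_, fun h1 h2 => (pr_scaleT 4562503 75000 h1)⟩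
noncomputable def kcg_34_s : Sl2 kcg_34 := ⟨_, fun h1 h2 => (pr_addc h1 (enc_rat _ 1 2))⟩
noncomputable def kcg_35_s : Sl2 kcg_35 := ⟨_, fun h1 h2 => (pr_csub (enc_neg (enc_rat _ 61 125)) h1)⟩
noncomputable def kcg_40_s : Sl2 kcg_40 := ⟨_, fun h1 h2 => (pr_scaleT 78602377237 7000000000 h1)⟩
noncomputable def kcg_45_s : Sl2 kcg_45 := ⟨_, fun h1 h2 => (pr_scaleT 42503109 700000 h1)⟩
noncomputable def kcg_59_s : Sl2 kcg_59 := ⟨_, fun h1 h2 => (pr_csub (enc_neg (enc_rat _ 481 1000)) h1)⟩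
noncomputable def kcg_67_s : Sl2 kcg_67 := ⟨_, fun h1 h2 => (pr_addc h1 (enc_rat _ 541 1141))⟩
noncomputable def kcg_68_s : Sl2 kcg_68 := ⟨_, fun h1 h2 => (pr_scaleT 54499244488829 7821000000000 h1)⟩
noncomputable def kcg_73_s : Sl2 kcg_73 := ⟨_, fun h1 h2 => (pr_scaleT 42490649453 782100000 h1)⟩
noncomputable def kcg_87_s : Sl2 kcg_87 := ⟨_, fun h1 h2 => (pr_csub (enc_neg (enc_rat _ 541 1141)) h1)⟩
noncomputable def kcg_92_s : Sl2 kcg_92 := ⟨_, fun h1 h2 => (pr_scaleT 61463285588617367 6412625000000000 h1)⟩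
noncomputable def kcg_95_s : Sl2 kcg_95 := ⟨_, fun h1 h2 => (pr_scaleT 15276833871481 641262500000 h1)⟩
noncomputable def kcg_109_s : Sl2 kcg_109 := ⟨_, fun h1 h2 => (pr_csub (enc_neg (enc_rat _ 781 1742)) h1)⟩
noncomputable def kcg_118_s : Sl2 kcg_118 := ⟨_, fun h1 h2 => (pr_addc h1 (enc_rat _ 41 100))⟩
noncomputable def kcg_121_s : Sl2 kcg_121 := ⟨_, fun h1 h2 => (pr_addc h1 (enc_rat _ 43 100))⟩
noncomputable def kcg_122_s : Sl2 kcg_122 := ⟨_, fun h1 h2 => (pr_scaleT 3396080746981 199625000000 h1)⟩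
noncomputable def kcg_125_s : Sl2 kcg_125 := ⟨_, fun h1 h2 => (pr_scaleT 11346517 19962500 h1)⟩
noncomputable def kcg_136_s : Sl2 kcg_136 := ⟨_, fun h1 h2 => (pr_csub (enc_neg (enc_rat _ 43 100)) h1)⟩
noncomputable def kcg_141_s : Sl2 kcg_141 := ⟨_, fun h1 h2 => (pr_scaleT 6832661577 1000000000 h1)⟩
noncomputable def kcg_144_s : Sl2 kcg_144 := ⟨_, fun h1 h2 => (pr_scaleT 77489 100000 h1)⟩
noncomputable def kcg_155_s : Sl2 kcg_155 := ⟨_, fun h1 h2 => (pr_csub (enc_neg (enc_rat _ 41 100)) h1)⟩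
noncomputable def kcg_163_s : Sl2 kcg_163 := ⟨_, fun h1 h2 => (pr_addc h1 (enc_rat _ 3 10))⟩
noncomputable def kcg_164_s : Sl2 kcg_164 := ⟨_, fun h1 h2 => (pr_scaleT 152182953 100000000 h1)⟩
noncomputable def kcg_167_s : Sl2 kcg_167 := ⟨_, fun h1 h2 => (pr_scaleT 7121 10000 h1)⟩
noncomputable def kcg_176_s : Sl2 kcg_176 := ⟨_, fun h1 h2 => (pr_csub (enc_neg (enc_rat _ 3 10)) h1)⟩
noncomputable def kcg_184_s : Sl2 kcg_184 := ⟨_, fun h1 h2 => (pr_scaleT 151977367 100000000 h1)⟩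
noncomputable def kcg_187_s : Sl2 kcg_187 := ⟨_, fun h1 h2 => (pr_scaleT 3519 10000 h1)⟩
noncomputable def kcg_196_s : Sl2 kcg_196 := ⟨_, fun h1 h2 => (pr_csub (enc_neg (enc_rat _ 1 10)) h1)⟩
noncomputable def kcg_201_s : Sl2 kcg_201 := ⟨_, fun h1 h2 => (pr_scaleT 151927497 100000000 h1)⟩
noncomputable def kcg_204_s : Sl2 kcg_204 := ⟨_, fun h1 h2 => (pr_cmul (enc_norm (kcg_3.enc h1.l h2)) (pr_nd (pr_scaleT 929 10000 h1)))⟩
noncomputable def kcg_211_s : Sl2 kcg_211 := ⟨_, fun h1 h2 => (pr_csub (enc_rat _ 781 1742) h1)⟩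
noncomputable def kcg_212_s : Sl2 kcg_212 := ⟨_, fun h1 h2 => (pr_csub (enc_rat _ 481 1000) h1)⟩
noncomputable def kcg_213_s : Sl2 kcg_213 := ⟨_, fun h1 h2 => (pr_csub (enc_rat _ 61 125) h1)⟩
noncomputable def kcg_218_s : Sl2 kcg_218 := ⟨_, fun h1 h2 => (pr_csub (enc_rat _ 1 2) h1)⟩
noncomputable def kcg_219_s : Sl2 kcg_219 := ⟨_, fun h1 h2 => (pr_subr 61 125 h1)⟩
noncomputable def kcg_228_s : Sl2 kcg_228 := ⟨_, fun h1 h2 => (pr_subr 481 1000 h1)⟩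
noncomputable def kcg_234_s : Sl2 kcg_234 := ⟨_, fun h1 h2 => (pr_csub (enc_rat _ 541 1141) h1)⟩
noncomputable def kcg_239_s : Sl2 kcg_239 := ⟨_, fun h1 h2 => (pr_subr 541 1141 h1)⟩
noncomputable def kcg_249_s : Sl2 kcg_249 := ⟨_, fun h1 h2 => (pr_subr 781 1742 h1)⟩
noncomputable def kcg_256_s : Sl2 kcg_256 := ⟨_, fun h1 h2 => (pr_csub (enc_rat _ 41 100) h1)⟩
noncomputable def kcg_257_s : Sl2 kcg_257 := ⟨_, fun h1 h2 => (pr_csub (enc_rat _ 43 100) h1)⟩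
noncomputable def kcg_264_s : Sl2 kcg_264 := ⟨_, fun h1 h2 => (pr_subr 43 100 h1)⟩
noncomputable def kcg_275_s : Sl2 kcg_275 := ⟨_, fun h1 h2 => (pr_subr 41 100 h1)⟩
noncomputable def kcg_281_s : Sl2 kcg_281 := ⟨_, fun h1 h2 => (pr_csub (enc_rat _ 3 10) h1)⟩
noncomputable def kcg_288_s : Sl2 kcg_288 := ⟨_, fun h1 h2 => (pr_subr 3 10 h1)⟩
noncomputable def kcg_300_s : Sl2 kcg_300 := ⟨_, fun h1 h2 => (pr_subr 1 10 h1)⟩
noncomputable def kcg_s : Sl2 kcg := ⟨_, fun h1 h2 => (pr_norm (pr_case h1 (pr_case (kcg_6_s.snd h1 h2) (pr_case (kcg_9_s.snd h1 h2) (pr_case (kcg_12_s.snd h1 h2) (pr_add (pr_add (pr_subr 10013347257757 1500000000000 (pr_neg (kcg_13_s.snd h1 h2))) (pr_cmul (enc_norm (kcg_3.enc h1.l h2)) (pr_norm (pr_subr 4268744749 150000000 (pr_neg (kcg_18_s.snd h1 h2)))))) (pr_mA (pr_cmul (enc_norm (kcg_31.enc h1.l h2)) (pr_norm (pr_mul (pr_norm (kcg_34_s.snd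 h1 h2)) (pr_norm (kcg_35_s.snd h1 h2))))) (pr_const (kcg_31.enc h1.l h2)) (kcg_34_s.snd h1 h2) (kcg_35_s.snd h1 h2) rfl rfl)) (pr_add (pr_add (pr_subr 4670811192617 700000000000 (pr_neg (kcg_40_s.snd h1 h2))) (pr_cmul (enc_norm (kcg_3.enc h1.l h2)) (pr_norm (pr_subr 1988164569 70000000 (pr_neg (kcg_45_s.snd h1 h2)))))) (pr_mA (pr_cmul (enc_norm (kcg_58.enc h1.l h2)) (pr_norm (pr_mul (pr_norm (kcg_12_s.snd h1 h2)) (pr_norm (kcg_59_s.snd h1 h2))))) (pr_const (kcg_58.enc h1.l h2)) (kcg_12_s.snd h1 h2) (kcg_59_s.snd h1 h2) rfl rfl))) (pr_case (kcg_67_s.snd h1 h2) (pr_add (pr_add (pr_subr 9039597787079117 1955250000000000 (pr_neg (kcg_68_s.snd h1 h2))) (pr_cmul (enc_norm (kcg_3.enc h1.l h2)) (pr_norm (pr_subr 4952424264269 195525000000 (pr_neg (kcg_73_s.snd h1 h2)))))) (pr_mA (pr_cmul (enc_norm (kcg_86.enc h1.l h2)) (pr_norm (pr_mul (pr_norm (kcg_9_s.snd h1 h2))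 (pr_norm (kcg_87_s.snd h1 h2))))) (pr_const (kcg_86.enc h1.l h2)) (kcg_9_s.snd h1 h2) (kcg_87_s.snd h1 h2) rfl rfl)) (pr_add (pr_add (pr_addc (kcg_92_s.snd h1 h2) (enc_rat _ 41365423394698507 12825250000000000)) (pr_cmul (enc_norm (kcg_3.enc h1.l h2)) (pr_norm (pr_subr 13934168680501 1282525000000 (pr_neg (kcg_95_s.snd h1 h2)))))) (pr_mA (pr_cmul (enc_norm (kcg_108.enc h1.l h2)) (pr_norm (pr_mul (pr_norm (kcg_67_s.snd h1 h2)) (pr_norm (kcg_109_s.snd h1 h2))))) (pr_const (kcg_108.enc h1.l h2)) (kcg_67_s.snd h1 h2) (kcg_109_s.snd h1 h2) rfl rfl)))) (pr_case (kcg_118_s.snd h1 h2) (pr_case (kcg_121_s.snd h1 h2) (pr_add (pr_add (pr_addc (kcg_122_s.snd h1 h2) (enc_rat _ 261722471060079 39925000000000)) (pr_cmul (enc_norm (kcg_3.enc h1.l h2)) (pr_norm (pr_addc (kcg_125_s.snd h1 h2) (enc_rat _ 283106503 3992500000))))) (pr_mA (pr_cmul (enc_norm (kcg_135.enc h1.l h2))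 (pr_norm (pr_mul (pr_norm (kcg_6_s.snd h1 h2)) (pr_norm (kcg_136_s.snd h1 h2))))) (pr_const (kcg_135.enc h1.l h2)) (kcg_6_s.snd h1 h2) (kcg_136_s.snd h1 h2) rfl rfl)) (pr_add (pr_add (pr_addc (kcg_141_s.snd h1 h2) (enc_rat _ 217810776727 100000000000)) (pr_cmul (enc_norm (kcg_3.enc h1.l h2)) (pr_norm (pr_addc (kcg_144_s.snd h1 h2) (enc_rat _ 1597039 10000000))))) (pr_mA (pr_cmul (enc_norm (kcg_154.enc h1.l h2)) (pr_norm (pr_mul (pr_norm (kcg_121_s.snd h1 h2)) (pr_norm (kcg_155_s.snd h1 h2))))) (pr_const (kcg_154.enc h1.l h2)) (kcg_121_s.snd h1 h2) (kcg_155_s.snd h1 h2) rfl rfl))) (pr_case (kcg_163_s.snd h1 h2) (pr_add (pr_add (pr_addc (kcg_164_s.snd h1 h2) (enc_rat _ 166657 250000000)) (pr_cmul (enc_norm (kcg_3.enc h1.l h2)) (pr_norm (pr_addc (kcg_167_s.snd h1 h2) (enc_rat _ 3349 25000))))) (pr_mA (pr_cmul (enc_norm (kcg_175.enc h1.l h2)) (pr_norm (pr_mul (pr_norm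 (kcg_118_s.snd h1 h2)) (pr_norm (kcg_176_s.snd h1 h2))))) (pr_const (kcg_175.enc h1.l h2)) (kcg_118_s.snd h1 h2) (kcg_176_s.snd h1 h2) rfl rfl)) (pr_case (pr_addc h1 (enc_rat _ 1 10)) (pr_add (pr_add (pr_addc (kcg_184_s.snd h1 h2) (enc_rat _ 4987 100000000)) (pr_cmul (enc_norm (kcg_3.enc h1.l h2)) (pr_norm (pr_addc (kcg_187_s.snd h1 h2) (enc_rat _ 259 10000))))) (pr_mA (pr_cmul (enc_norm (kcg_195.enc h1.l h2)) (pr_norm (pr_mul (pr_norm (kcg_163_s.snd h1 h2)) (pr_norm (kcg_196_s.snd h1 h2))))) (pr_const (kcg_195.enc h1.l h2)) (kcg_163_s.snd h1 h2) (kcg_196_s.snd h1 h2) rfl rfl)) (pr_add (kcg_201_s.snd h1 h2) (kcg_204_s.snd h1 h2)))))) (pr_neg (pr_case (kcg_211_s.snd h1 h2) (pr_case (kcg_212_s.snd h1 h2) (pr_case (kcg_213_s.snd h1 h2) (pr_add (pr_add (pr_subr 10013347257757 1500000000000 (kcg_13_s.snd h1 h2)) (pr_cmul (enc_norm (kcg_3.enc h1.l h2)) (pr_norm (pr_subr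 4268744749 150000000 (kcg_18_s.snd h1 h2))))) (pr_mA (pr_cmul (enc_norm (kcg_31.enc h1.l h2)) (pr_norm (pr_mul (pr_norm (kcg_218_s.snd h1 h2)) (pr_norm (kcg_219_s.snd h1 h2))))) (pr_const (kcg_31.enc h1.l h2)) (kcg_218_s.snd h1 h2) (kcg_219_s.snd h1 h2) rfl rfl)) (pr_add (pr_add (pr_subr 4670811192617 700000000000 (kcg_40_s.snd h1 h2)) (pr_cmul (enc_norm (kcg_3.enc h1.l h2)) (pr_norm (pr_subr 1988164569 70000000 (kcg_45_s.snd h1 h2))))) (pr_mA (pr_cmul (enc_norm (kcg_58.enc h1.l h2)) (pr_norm (pr_mul (pr_norm (kcg_213_s.snd h1 h2)) (pr_norm (kcg_228_s.snd h1 h2))))) (pr_const (kcg_58.enc h1.l h2)) (kcg_213_s.snd h1 h2) (kcg_228_s.snd h1 h2) rfl rfl))) (pr_case (kcg_234_s.snd h1 h2) (pr_add (pr_add (pr_subr 9039597787079117 1955250000000000 (kcg_68_s.snd h1 h2)) (pr_cmul (enc_norm (kcg_3.enc h1.l h2)) (pr_norm (pr_subr 4952424264269 195525000000 (kcg_73_s.snd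 h1 h2))))) (pr_mA (pr_cmul (enc_norm (kcg_86.enc h1.l h2)) (pr_norm (pr_mul (pr_norm (kcg_212_s.snd h1 h2)) (pr_norm (kcg_239_s.snd h1 h2))))) (pr_const (kcg_86.enc h1.l h2)) (kcg_212_s.snd h1 h2) (kcg_239_s.snd h1 h2) rfl rfl)) (pr_add (pr_add (pr_csub (enc_rat _ 41365423394698507 12825250000000000) (kcg_92_s.snd h1 h2)) (pr_cmul (enc_norm (kcg_3.enc h1.l h2)) (pr_norm (pr_subr 13934168680501 1282525000000 (kcg_95_s.snd h1 h2))))) (pr_mA (pr_cmul (enc_norm (kcg_108.enc h1.l h2)) (pr_norm (pr_mul (pr_norm (kcg_234_s.snd h1 h2)) (pr_norm (kcg_249_s.snd h1 h2))))) (pr_const (kcg_108.enc h1.l h2)) (kcg_234_s.snd h1 h2) (kcg_249_s.snd h1 h2) rfl rfl)))) (pr_case (kcg_256_s.snd h1 h2) (pr_case (kcg_257_s.snd h1 h2) (pr_add (pr_add (pr_csub (enc_rat _ 261722471060079 39925000000000) (kcg_122_s.snd h1 h2)) (pr_cmul (enc_norm (kcg_3.enc h1.l h2)) (pr_norm (pr_csub (enc_rat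 _ 283106503 3992500000) (kcg_125_s.snd h1 h2))))) (pr_mA (pr_cmul (enc_norm (kcg_135.enc h1.l h2)) (pr_norm (pr_mul (pr_norm (kcg_211_s.snd h1 h2)) (pr_norm (kcg_264_s.snd h1 h2))))) (pr_const (kcg_135.enc h1.l h2)) (kcg_211_s.snd h1 h2) (kcg_264_s.snd h1 h2) rfl rfl)) (pr_add (pr_add (pr_csub (enc_rat _ 217810776727 100000000000) (kcg_141_s.snd h1 h2)) (pr_cmul (enc_norm (kcg_3.enc h1.l h2)) (pr_norm (pr_csub (enc_rat _ 1597039 10000000) (kcg_144_s.snd h1 h2))))) (pr_mA (pr_cmul (enc_norm (kcg_154.enc h1.l h2)) (pr_norm (pr_mul (pr_norm (kcg_257_s.snd h1 h2)) (pr_norm (kcg_275_s.snd h1 h2))))) (pr_const (kcg_154.enc h1.l h2)) (kcg_257_s.snd h1 h2) (kcg_275_s.snd h1 h2) rfl rfl))) (pr_case (kcg_281_s.snd h1 h2) (pr_add (pr_add (pr_csub (enc_rat _ 166657 250000000) (kcg_164_s.snd h1 h2)) (pr_cmul (enc_norm (kcg_3.enc h1.l h2)) (pr_norm (pr_csub (enc_rat _ 3349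 25000) (kcg_167_s.snd h1 h2))))) (pr_mA (pr_cmul (enc_norm (kcg_175.enc h1.l h2)) (pr_norm (pr_mul (pr_norm (kcg_256_s.snd h1 h2)) (pr_norm (kcg_288_s.snd h1 h2))))) (pr_const (kcg_175.enc h1.l h2)) (kcg_256_s.snd h1 h2) (kcg_288_s.snd h1 h2) rfl rfl)) (pr_case (pr_csub (enc_rat _ 1 10) h1) (pr_add (pr_add (pr_csub (enc_rat _ 4987 100000000) (kcg_184_s.snd h1 h2)) (pr_cmul (enc_norm (kcg_3.enc h1.l h2)) (pr_norm (pr_csub (enc_rat _ 259 10000) (kcg_187_s.snd h1 h2))))) (pr_mA (pr_cmul (enc_norm (kcg_195.enc h1.l h2)) (pr_norm (pr_mul (pr_norm (kcg_281_s.snd h1 h2)) (pr_norm (kcg_300_s.snd h1 h2))))) (pr_const (kcg_195.enc h1.l h2)) (kcg_281_s.snd h1 h2) (kcg_300_s.snd h1 h2) rfl rfl)) (pr_sub (pr_neg (kcg_201_s.snd h1 h2)) (kcg_204_s.snd h1 h2)))))))))⟩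
noncomputable def kf0q0_9_s : Sl2 kf0q0_9 := ⟨_, fun h1 h2 => (pr_scaleT 3 2 h1)⟩
noncomputable def kf0q0_12_s : Sl2 kf0q0_12 := ⟨_, fun h1 h2 => (pr_cadd (enc_pnc _ 1) (c1g_s.snd h1))⟩
noncomputable def kf0q0_s : Sl2 kf0q0 := ⟨_, fun h1 h2 => (pr_norm (pr_add (pr_mul (pr_norm (pr_mul (pr_norm (pr_sub (c1g_s.snd h1) (kf0q0_9_s.snd h1 h2))) (pr_norm (kf0q0_12_s.snd h1 h2)))) (pr_nd (pr_inv (pr_sub (kf0q0_12_s.snd h1 h2) (kf0q0_9_s.snd h1 h2))))) (pr_mul h1 (kcg_s.snd (pr_norm (pr_sub (pr_scaleT 3 4 h1) (pr_half (c1g_s.snd h1)))) h2))))⟩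
noncomputable def txg_6_s : Sl3 txg_6 := ⟨_, fun h1 h2 h3 => (pr_add h1 (pr_half h2))⟩
noncomputable def txg_26_s : Sl3 txg_26 := ⟨_, fun h1 h2 h3 => (pr_addc h1 (enc_rat _ 1 5))⟩
noncomputable def txg_29_s : Sl3 txg_29 := ⟨_, fun h1 h2 h3 => (pr_addc h1 (enc_rat _ 21 50))⟩
noncomputable def txg_32_s : Sl3 txg_32 := ⟨_, fun h1 h2 h3 => (pr_addc h1 (enc_rat _ 23 50))⟩
noncomputable def txg_35_s : Sl3 txg_35 := ⟨_, fun h1 h2 h3 => (pr_addc h1 (enc_rat _ 481 1000))⟩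
noncomputable def txg_38_s : Sl3 txg_38 := ⟨_, fun h1 h2 h3 => (pr_addc h1 (enc_rat _ 61 125))⟩
noncomputable def txg_57_s : Sl3 txg_57 := ⟨_, fun h1 h2 h3 => (pr_addc h1 (enc_rat _ 1 2))⟩
noncomputable def txg_58_s : Sl3 txg_58 := ⟨_, fun h1 h2 h3 => (pr_csub (enc_neg (enc_rat _ 61 125)) h1)⟩
noncomputable def txg_77_s : Sl3 txg_77 := ⟨_, fun h1 h2 h3 => (pr_csub (enc_neg (enc_rat _ 481 1000)) h1)⟩
noncomputable def txg_85_s : Sl3 txg_85 := ⟨_, fun h1 h2 h3 => (pr_addc h1 (enc_rat _ 94829 200000))⟩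
noncomputable def txg_102_s : Sl3 txg_102 := ⟨_, fun h1 h2 h3 => (pr_csub (enc_neg (enc_rat _ 94829 200000)) h1)⟩
noncomputable def txg_121_s : Sl3 txg_121 := ⟨_, fun h1 h2 h3 => (pr_csub (enc_neg (enc_rat _ 23 50)) h1)⟩
noncomputable def txg_130_s : Sl3 txg_130 := ⟨_, fun h1 h2 h3 => (pr_addc h1 (enc_rat _ 11 25))⟩
noncomputable def txg_133_s : Sl3 txg_133 := ⟨_, fun h1 h2 h3 => (pr_addc h1 (enc_rat _ 89667 200000))⟩
noncomputable def txg_148_s : Sl3 txg_148 := ⟨_, fun h1 h2 h3 => (pr_csub (enc_neg (enc_rat _ 89667 200000)) h1)⟩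
noncomputable def txg_168_s : Sl3 txg_168 := ⟨_, fun h1 h2 h3 => (pr_csub (enc_neg (enc_rat _ 11 25)) h1)⟩
noncomputable def txg_176_s : Sl3 txg_176 := ⟨_, fun h1 h2 h3 => (pr_addc h1 (enc_rat _ 43 100))⟩
noncomputable def txg_190_s : Sl3 txg_190 := ⟨_, fun h1 h2 h3 => (pr_csub (enc_neg (enc_rat _ 43 100)) h1)⟩
noncomputable def txg_208_s : Sl3 txg_208 := ⟨_, fun h1 h2 h3 => (pr_csub (enc_neg (enc_rat _ 21 50)) h1)⟩
noncomputable def txg_218_s : Sl3 txg_218 := ⟨_, fun h1 h2 h3 => (pr_addc h1 (enc_rat _ 3 8))⟩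
noncomputable def txg_221_s : Sl3 txg_221 := ⟨_, fun h1 h2 h3 => (pr_addc h1 (enc_rat _ 2 5))⟩
noncomputable def txg_224_s : Sl3 txg_224 := ⟨_, fun h1 h2 h3 => (pr_addc h1 (enc_rat _ 41 100))⟩
noncomputable def txg_238_s : Sl3 txg_238 := ⟨_, fun h1 h2 h3 => (pr_csub (enc_neg (enc_rat _ 41 100)) h1)⟩
noncomputable def txg_256_s : Sl3 txg_256 := ⟨_, fun h1 h2 h3 => (pr_csub (enc_neg (enc_rat _ 2 5)) h1)⟩
noncomputable def txg_264_s : Sl3 txg_264 := ⟨_, fun h1 h2 h3 => (pr_addc h1 (enc_rat _ 39 100))⟩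
noncomputable def txg_279_s : Sl3 txg_279 := ⟨_, fun h1 h2 h3 => (pr_csub (enc_neg (enc_rat _ 39 100)) h1)⟩
noncomputable def txg_298_s : Sl3 txg_298 := ⟨_, fun h1 h2 h3 => (pr_csub (enc_neg (enc_rat _ 3 8)) h1)⟩
noncomputable def txg_307_s : Sl3 txg_307 := ⟨_, fun h1 h2 h3 => (pr_addc h1 (enc_rat _ 3 10))⟩
noncomputable def txg_310_s : Sl3 txg_310 := ⟨_, fun h1 h2 h3 => (pr_addc h1 (enc_rat _ 7 20))⟩
noncomputable def txg_323_s : Sl3 txg_323 := ⟨_, fun h1 h2 h3 => (pr_csub (enc_neg (enc_rat _ 7 20)) h1)⟩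
noncomputable def txg_340_s : Sl3 txg_340 := ⟨_, fun h1 h2 h3 => (pr_csub (enc_neg (enc_rat _ 3 10)) h1)⟩
noncomputable def txg_348_s : Sl3 txg_348 := ⟨_, fun h1 h2 h3 => (pr_addc h1 (enc_rat _ 1 4))⟩
noncomputable def txg_361_s : Sl3 txg_361 := ⟨_, fun h1 h2 h3 => (pr_csub (enc_neg (enc_rat _ 1 4)) h1)⟩
noncomputable def txg_381_s : Sl3 txg_381 := ⟨_, fun h1 h2 h3 => (pr_csub (enc_neg (enc_rat _ 1 5)) h1)⟩
noncomputable def txg_390_s : Sl3 txg_390 := ⟨_, fun h1 h2 h3 => (pr_subr 7 20 h1)⟩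
noncomputable def txg_392_s : Sl3 txg_392 := ⟨_, fun h1 h2 h3 => (pr_subr 3 20 h1)⟩
noncomputable def txg_395_s : Sl3 txg_395 := ⟨_, fun h1 h2 h3 => (pr_addc h1 (enc_rat _ 1 10))⟩
noncomputable def txg_397_s : Sl3 txg_397 := ⟨_, fun h1 h2 h3 => (pr_addc h1 (enc_rat _ 3 20))⟩
noncomputable def txg_413_s : Sl3 txg_413 := ⟨_, fun h1 h2 h3 => (pr_csub (enc_neg (enc_rat _ 3 20)) h1)⟩
noncomputable def txg_432_s : Sl3 txg_432 := ⟨_, fun h1 h2 h3 => (pr_csub (enc_neg (enc_rat _ 1 10)) h1)⟩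
noncomputable def txg_438_s : Sl3 txg_438 := ⟨_, fun h1 h2 h3 => (pr_subr 1 10 h1)⟩
noncomputable def txg_453_s : Sl3 txg_453 := ⟨_, fun h1 h2 h3 => (pr_csub (enc_rat _ 1 10) h1)⟩
noncomputable def txg_471_s : Sl3 txg_471 := ⟨_, fun h1 h2 h3 => (pr_csub (enc_rat _ 3 20) h1)⟩
noncomputable def txg_478_s : Sl3 txg_478 := ⟨_, fun h1 h2 h3 => (pr_subr 1 4 h1)⟩
noncomputable def txg_479_s : Sl3 txg_479 := ⟨_, fun h1 h2 h3 => (pr_subr 1 5 h1)⟩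
noncomputable def txg_494_s : Sl3 txg_494 := ⟨_, fun h1 h2 h3 => (pr_csub (enc_rat _ 1 5) h1)⟩
noncomputable def txg_513_s : Sl3 txg_513 := ⟨_, fun h1 h2 h3 => (pr_csub (enc_rat _ 1 4) h1)⟩
noncomputable def txg_519_s : Sl3 txg_519 := ⟨_, fun h1 h2 h3 => (pr_subr 3 10 h1)⟩
noncomputable def txg_534_s : Sl3 txg_534 := ⟨_, fun h1 h2 h3 => (pr_csub (enc_rat _ 3 10) h1)⟩
noncomputable def txg_555_s : Sl3 txg_555 := ⟨_, fun h1 h2 h3 => (pr_csub (enc_rat _ 7 20) h1)⟩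
noncomputable def txg_563_s : Sl3 txg_563 := ⟨_, fun h1 h2 h3 => (pr_subr 41 100 h1)⟩
noncomputable def txg_564_s : Sl3 txg_564 := ⟨_, fun h1 h2 h3 => (pr_subr 39 100 h1)⟩
noncomputable def txg_565_s : Sl3 txg_565 := ⟨_, fun h1 h2 h3 => (pr_subr 3 8 h1)⟩
noncomputable def txg_580_s : Sl3 txg_580 := ⟨_, fun h1 h2 h3 => (pr_csub (enc_rat _ 3 8) h1)⟩
noncomputable def txg_599_s : Sl3 txg_599 := ⟨_, fun h1 h2 h3 => (pr_csub (enc_rat _ 39 100) h1)⟩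
noncomputable def txg_605_s : Sl3 txg_605 := ⟨_, fun h1 h2 h3 => (pr_subr 2 5 h1)⟩
noncomputable def txg_620_s : Sl3 txg_620 := ⟨_, fun h1 h2 h3 => (pr_csub (enc_rat _ 2 5) h1)⟩
noncomputable def txg_639_s : Sl3 txg_639 := ⟨_, fun h1 h2 h3 => (pr_csub (enc_rat _ 41 100) h1)⟩
noncomputable def txg_646_s : Sl3 txg_646 := ⟨_, fun h1 h2 h3 => (pr_subr 43 100 h1)⟩
noncomputable def txg_647_s : Sl3 txg_647 := ⟨_, fun h1 h2 h3 => (pr_subr 21 50 h1)⟩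
noncomputable def txg_663_s : Sl3 txg_663 := ⟨_, fun h1 h2 h3 => (pr_csub (enc_rat _ 21 50) h1)⟩
noncomputable def txg_683_s : Sl3 txg_683 := ⟨_, fun h1 h2 h3 => (pr_csub (enc_rat _ 43 100) h1)⟩
noncomputable def txg_689_s : Sl3 txg_689 := ⟨_, fun h1 h2 h3 => (pr_subr 11 25 h1)⟩
noncomputable def txg_705_s : Sl3 txg_705 := ⟨_, fun h1 h2 h3 => (pr_csub (enc_rat _ 11 25) h1)⟩
noncomputable def txg_738_s : Sl3 txg_738 := ⟨_, fun h1 h2 h3 => (pr_csub (enc_rat _ 781 1742) h1)⟩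
noncomputable def txg_749_s : Sl3 txg_749 := ⟨_, fun h1 h2 h3 => (pr_subr 541 1141 h1)⟩
noncomputable def txg_750_s : Sl3 txg_750 := ⟨_, fun h1 h2 h3 => (pr_subr 481 1000 h1)⟩
noncomputable def txg_775_s : Sl3 txg_775 := ⟨_, fun h1 h2 h3 => (pr_csub (enc_rat _ 481 1000) h1)⟩
noncomputable def txg_780_s : Sl3 txg_780 := ⟨_, fun h1 h2 h3 => (pr_subr 61 125 h1)⟩
noncomputable def txg_795_s : Sl3 txg_795 := ⟨_, fun h1 h2 h3 => (pr_csub (enc_rat _ 61 125) h1)⟩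
noncomputable def txg_816_s : Sl3 txg_816 := ⟨_, fun h1 h2 h3 => (pr_csub (enc_rat _ 1 2) h1)⟩
noncomputable def txg_s : Sl3 txg := ⟨_, fun h1 h2 h3 => (pr_case (pr_subr 781 1742 h1) (pr_case (txg_26_s.snd h1 h2 h3) (pr_case (txg_29_s.snd h1 h2 h3) (pr_case (txg_32_s.snd h1 h2 h3) (pr_case (txg_35_s.snd h1 h2 h3) (pr_case (txg_38_s.snd h1 h2 h3) (pr_add (pr_add (pr_addc (pr_scaleT 93620461 600000000 h1) (enc_rat _ 93620461 1200000000)) (pr_cmul (enc_norm (txg_4.enc h1.l h2.l h3)) (pr_norm (pr_subr 185923 120000 (pr_neg (pr_scaleT 185923 60000 h1)))))) (pr_mA (pr_cmul (enc_norm (txg_54.enc h1.l h2.l h3)) (pr_norm (pr_mul (pr_norm (txg_57_s.snd h1 h2 h3)) (pr_norm (txg_58_s.snd h1 h2 h3))))) (pr_const (txg_54.enc h1.l h2.l h3)) (txg_57_s.snd h1 h2 h3) (txg_58_s.snd h1 h2 h3) rfl rfl)) (pr_add (pr_add (pr_addc (pr_scaleT 378481 2500000 h1) (enc_rat _ 3787595021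 50000000000)) (pr_cmul (enc_norm (txg_4.enc h1.l h2.l h3)) (pr_norm (pr_subr 42108021 35000000 (pr_neg (pr_scaleT 4181 1750 h1)))))) (pr_mA (pr_cmul (enc_norm (txg_76.enc h1.l h2.l h3)) (pr_norm (pr_mul (pr_norm (txg_38_s.snd h1 h2 h3)) (pr_norm (txg_77_s.snd h1 h2 h3))))) (pr_const (txg_76.enc h1.l h2.l h3)) (txg_38_s.snd h1 h2 h3) (txg_77_s.snd h1 h2 h3) rfl rfl))) (pr_case (txg_85_s.snd h1 h2 h3) (pr_add (pr_add (pr_addc (pr_scaleT 83968649 685500000 h1) (enc_rat _ 4239891312071 68550000000000)) (pr_cmul (enc_norm (txg_4.enc h1.l h2.l h3)) (pr_norm (pr_subr 2733520051 2285000000 (pr_neg (pr_scaleT 54269 22850 h1)))))) (pr_mA (pr_cmul (enc_norm (txg_101.enc h1.l h2.l h3)) (pr_norm (pr_mul (pr_norm (txg_35_s.snd h1 h2 h3)) (pr_norm (txg_102_s.snd h1 h2 h3))))) (pr_const (txg_101.enc h1.l h2.l h3)) (txg_35_s.snd h1 h2 h3) (txg_102_s.snd h1 h2 h3) rfl rfl)) (pr_add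 (pr_add (pr_addc (pr_scaleT 9915873 117875000 h1) (enc_rat _ 178997131807 4100000000000)) (pr_cmul (enc_norm (txg_4.enc h1.l h2.l h3)) (pr_norm (pr_subr 1372989203 1230000000 (pr_neg (pr_scaleT 156034 70725 h1)))))) (pr_mA (pr_cmul (enc_norm (txg_120.enc h1.l h2.l h3)) (pr_norm (pr_mul (pr_norm (txg_85_s.snd h1 h2 h3)) (pr_norm (txg_121_s.snd h1 h2 h3))))) (pr_const (txg_120.enc h1.l h2.l h3)) (txg_85_s.snd h1 h2 h3) (txg_121_s.snd h1 h2 h3) rfl rfl)))) (pr_case (txg_130_s.snd h1 h2 h3) (pr_case (txg_133_s.snd h1 h2 h3) (pr_add (pr_add (pr_addc (pr_scaleT 2100864 36453125 h1) (enc_rat _ 7342519254091 233300000000000)) (pr_cmul (enc_norm (txg_4.enc h1.l h2.l h3)) (pr_norm (pr_subr 28646659013 23330000000 (pr_neg (pr_scaleT 142832 58325 h1)))))) (pr_mA (pr_cmul (enc_norm (txg_147.enc h1.l h2.l h3)) (pr_norm (pr_mul (pr_norm (txg_32_s.snd h1 h2 h3)) (pr_norm (txg_148_s.snd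 h1 h2 h3))))) (pr_const (txg_147.enc h1.l h2.l h3)) (txg_32_s.snd h1 h2 h3) (txg_148_s.snd h1 h2 h3) rfl rfl)) (pr_add (pr_add (pr_addc (pr_scaleT 21747117 83350000 h1) (enc_rat _ 4087835831903 33340000000000)) (pr_cmul (enc_norm (txg_4.enc h1.l h2.l h3)) (pr_norm (pr_addc (pr_scaleT 71169 8335 h1) (enc_rat _ 12329726471 3334000000))))) (pr_mA (pr_cmul (enc_norm (txg_167.enc h1.l h2.l h3)) (pr_norm (pr_mul (pr_norm (txg_133_s.snd h1 h2 h3)) (pr_norm (txg_168_s.snd h1 h2 h3))))) (pr_const (txg_167.enc h1.l h2.l h3)) (txg_133_s.snd h1 h2 h3) (txg_168_s.snd h1 h2 h3) rfl rfl))) (pr_case (txg_176_s.snd h1 h2 h3) (pr_add (pr_add (pr_addc (pr_scaleT 16803931 31250000 h1) (enc_rat _ 24440808393 100000000000)) (pr_cmul (enc_norm (txg_4.enc h1.l h2.l h3)) (pr_norm (pr_addc (pr_scaleT 212843 12500 h1) (enc_rat _ 74332801 10000000))))) (pr_mA (pr_cmul (enc_norm (txg_189.enc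 h1.l h2.l h3)) (pr_norm (pr_mul (pr_norm (txg_130_s.snd h1 h2 h3)) (pr_norm (txg_190_s.snd h1 h2 h3))))) (pr_const (txg_189.enc h1.l h2.l h3)) (txg_130_s.snd h1 h2 h3) (txg_190_s.snd h1 h2 h3) rfl rfl)) (pr_add (pr_add (pr_addc (pr_scaleT 328911357 500000000 h1) (enc_rat _ 29604976039 100000000000)) (pr_cmul (enc_norm (txg_4.enc h1.l h2.l h3)) (pr_norm (pr_addc (pr_scaleT 594449 50000 h1) (enc_rat _ 52237423 10000000))))) (pr_mA (pr_cmul (enc_norm (txg_207.enc h1.l h2.l h3)) (pr_norm (pr_mul (pr_norm (txg_176_s.snd h1 h2 h3)) (pr_norm (txg_208_s.snd h1 h2 h3))))) (pr_const (txg_207.enc h1.l h2.l h3)) (txg_176_s.snd h1 h2 h3) (txg_208_s.snd h1 h2 h3) rfl rfl))))) (pr_case (txg_218_s.snd h1 h2 h3) (pr_case (txg_221_s.snd h1 h2 h3) (pr_case (txg_224_s.snd h1 h2 h3) (pr_add (pr_add (pr_addc (pr_scaleT 384821291 500000000 h1) (enc_rat _ 6860282099 20000000000)) (pr_cmul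 (enc_norm (txg_4.enc h1.l h2.l h3)) (pr_norm (pr_addc (pr_scaleT 392387 50000 h1) (enc_rat _ 7052843 2000000))))) (pr_mA (pr_cmul (enc_norm (txg_237.enc h1.l h2.l h3)) (pr_norm (pr_mul (pr_norm (txg_29_s.snd h1 h2 h3)) (pr_norm (txg_238_s.snd h1 h2 h3))))) (pr_const (txg_237.enc h1.l h2.l h3)) (txg_29_s.snd h1 h2 h3) (txg_238_s.snd h1 h2 h3) rfl rfl)) (pr_add (pr_add (pr_addc (pr_scaleT 411952497 500000000 h1) (enc_rat _ 36526169387 100000000000)) (pr_cmul (enc_norm (txg_4.enc h1.l h2.l h3)) (pr_norm (pr_addc (pr_scaleT 287429 50000 h1) (enc_rat _ 26657659 10000000))))) (pr_mA (pr_cmul (enc_norm (txg_255.enc h1.l h2.l h3)) (pr_norm (pr_mul (pr_norm (txg_224_s.snd h1 h2 h3)) (pr_norm (txg_256_s.snd h1 h2 h3))))) (pr_const (txg_255.enc h1.l h2.l h3)) (txg_224_s.snd h1 h2 h3) (txg_256_s.snd h1 h2 h3) rfl rfl))) (pr_case (txg_264_s.snd h1 h2 h3) (pr_add (pr_add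 (pr_addc (pr_scaleT 412822977 500000000 h1) (enc_rat _ 36595807787 100000000000)) (pr_cmul (enc_norm (txg_4.enc h1.l h2.l h3)) (pr_norm (pr_addc (pr_scaleT 259289 50000 h1) (enc_rat _ 24406459 10000000))))) (pr_mA (pr_cmul (enc_norm (txg_278.enc h1.l h2.l h3)) (pr_norm (pr_mul (pr_norm (txg_221_s.snd h1 h2 h3)) (pr_norm (txg_279_s.snd h1 h2 h3))))) (pr_const (txg_278.enc h1.l h2.l h3)) (txg_221_s.snd h1 h2 h3) (txg_279_s.snd h1 h2 h3) rfl rfl)) (pr_add (pr_add (pr_addc (pr_scaleT 12835597 15625000 h1) (enc_rat _ 36433265693 100000000000)) (pr_cmul (enc_norm (txg_4.enc h1.l h2.l h3)) (pr_norm (pr_addc (pr_scaleT 99173 18750 h1) (enc_rat _ 24809901 10000000))))) (pr_mA (pr_cmul (enc_norm (txg_297.enc h1.l h2.l h3)) (pr_norm (pr_mul (pr_norm (txg_264_s.snd h1 h2 h3)) (pr_norm (txg_298_s.snd h1 h2 h3))))) (pr_const (txg_297.enc h1.l h2.l h3)) (txg_264_s.snd h1 h2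 h3) (txg_298_s.snd h1 h2 h3) rfl rfl)))) (pr_case (txg_307_s.snd h1 h2 h3) (pr_case (txg_310_s.snd h1 h2 h3) (pr_add (pr_add (pr_addc (pr_scaleT 1974286017 2500000000 h1) (enc_rat _ 8810530787 25000000000)) (pr_cmul (enc_norm (txg_4.enc h1.l h2.l h3)) (pr_norm (pr_addc (pr_scaleT 1200569 250000 h1) (enc_rat _ 5745959 2500000))))) (pr_mA (pr_cmul (enc_norm (txg_322.enc h1.l h2.l h3)) (pr_norm (pr_mul (pr_norm (txg_218_s.snd h1 h2 h3)) (pr_norm (txg_323_s.snd h1 h2 h3))))) (pr_const (txg_322.enc h1.l h2.l h3)) (txg_218_s.snd h1 h2 h3) (txg_323_s.snd h1 h2 h3) rfl rfl)) (pr_add (pr_add (pr_addc (pr_scaleT 5653901 8000000 h1) (enc_rat _ 6467587157 20000000000)) (pr_cmul (enc_norm (txg_4.enc h1.l h2.l h3)) (pr_norm (pr_addc (pr_scaleT 11497 4000 h1) (enc_rat _ 3247149 2000000))))) (pr_mA (pr_cmul (enc_norm (txg_339.enc h1.l h2.l h3)) (pr_norm (pr_mul (pr_norm (txg_310_s.snd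 h1 h2 h3)) (pr_norm (txg_340_s.snd h1 h2 h3))))) (pr_const (txg_339.enc h1.l h2.l h3)) (txg_310_s.snd h1 h2 h3) (txg_340_s.snd h1 h2 h3) rfl rfl))) (pr_case (txg_348_s.snd h1 h2 h3) (pr_add (pr_add (pr_addc (pr_scaleT 406023521 625000000 h1) (enc_rat _ 30624936043 100000000000)) (pr_cmul (enc_norm (txg_4.enc h1.l h2.l h3)) (pr_norm (pr_addc (pr_scaleT 37247 62500 h1) (enc_rat _ 9400851 10000000))))) (pr_mA (pr_cmul (enc_norm (txg_360.enc h1.l h2.l h3)) (pr_norm (pr_mul (pr_norm (txg_307_s.snd h1 h2 h3)) (pr_norm (txg_361_s.snd h1 h2 h3))))) (pr_const (txg_360.enc h1.l h2.l h3)) (txg_307_s.snd h1 h2 h3) (txg_361_s.snd h1 h2 h3) rfl rfl)) (pr_add (pr_add (pr_addc (pr_scaleT 3195550843 5000000000 h1) (enc_rat _ 15180874709 50000000000)) (pr_cmul (enc_norm (txg_4.enc h1.l h2.l h3)) (pr_norm (pr_csub (enc_rat _ 3584113 5000000) (pr_scaleT 148549 500000 h1))))) (pr_mA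 (pr_cmul (enc_norm (txg_380.enc h1.l h2.l h3)) (pr_norm (pr_mul (pr_norm (txg_348_s.snd h1 h2 h3)) (pr_norm (txg_381_s.snd h1 h2 h3))))) (pr_const (txg_380.enc h1.l h2.l h3)) (txg_348_s.snd h1 h2 h3) (txg_381_s.snd h1 h2 h3) rfl rfl)))))) (pr_case (txg_390_s.snd h1 h2 h3) (pr_case (txg_392_s.snd h1 h2 h3) (pr_case (txg_395_s.snd h1 h2 h3) (pr_case (txg_397_s.snd h1 h2 h3) (pr_add (pr_add (pr_addc (pr_scaleT 55802843 100000000 h1) (enc_rat _ 14370057323 50000000000)) (pr_cmul (enc_norm (txg_4.enc h1.l h2.l h3)) (pr_norm (pr_csub (enc_rat _ 3704311 5000000) (pr_scaleT 1769 10000 h1))))) (pr_mA (pr_cmul (enc_norm (txg_412.enc h1.l h2.l h3)) (pr_norm (pr_mul (pr_norm (txg_26_s.snd h1 h2 h3)) (pr_norm (txg_413_s.snd h1 h2 h3))))) (pr_const (txg_412.enc h1.l h2.l h3)) (txg_26_s.snd h1 h2 h3) (txg_413_s.snd h1 h2 h3) rfl rfl)) (pr_add (pr_add (pr_addc (pr_scaleT 2055887409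 5000000000 h1) (enc_rat _ 26537350423 100000000000)) (pr_cmul (enc_norm (txg_4.enc h1.l h2.l h3)) (pr_norm (pr_addc (pr_scaleT 10513 500000 h1) (enc_rat _ 7705511 10000000))))) (pr_mA (pr_cmul (enc_norm (txg_431.enc h1.l h2.l h3)) (pr_norm (pr_mul (pr_norm (txg_397_s.snd h1 h2 h3)) (pr_norm (txg_432_s.snd h1 h2 h3))))) (pr_const (txg_431.enc h1.l h2.l h3)) (txg_397_s.snd h1 h2 h3) (txg_432_s.snd h1 h2 h3) rfl rfl))) (pr_case (txg_438_s.snd h1 h2 h3) (pr_add (pr_add (pr_addc (pr_scaleT 2476430229 20000000000 h1) (enc_rat _ 47327581439 200000000000)) (pr_cmul (enc_norm (txg_4.enc h1.l h2.l h3)) (pr_norm (pr_addc (pr_scaleT 409253 2000000 h1) (enc_rat _ 15778223 20000000))))) (pr_mA (pr_cmul (enc_norm (txg_452.enc h1.l h2.l h3)) (pr_norm (pr_mul (pr_norm (txg_395_s.snd h1 h2 h3)) (pr_norm (txg_453_s.snd h1 h2 h3))))) (pr_const (txg_452.enc h1.l h2.l h3)) (txg_395_s.snd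 h1 h2 h3) (txg_453_s.snd h1 h2 h3) rfl rfl)) (pr_add (pr_add (pr_csub (enc_rat _ 3292780827 12500000000) (pr_scaleT 720120391 5000000000 h1)) (pr_cmul (enc_norm (txg_4.enc h1.l h2.l h3)) (pr_norm (pr_addc (pr_scaleT 75913 500000 h1) (enc_rat _ 992739 1250000))))) (pr_mA (pr_cmul (enc_norm (txg_470.enc h1.l h2.l h3)) (pr_norm (pr_mul (pr_norm (txg_438_s.snd h1 h2 h3)) (pr_norm (txg_471_s.snd h1 h2 h3))))) (pr_const (txg_470.enc h1.l h2.l h3)) (txg_438_s.snd h1 h2 h3) (txg_471_s.snd h1 h2 h3) rfl rfl)))) (pr_case (txg_478_s.snd h1 h2 h3) (pr_case (txg_479_s.snd h1 h2 h3) (pr_add (pr_add (pr_csub (enc_rat _ 28175057139 100000000000) (pr_scaleT 83191077 312500000 h1)) (pr_cmul (enc_norm (txg_4.enc h1.l h2.l h3)) (pr_norm (pr_csub (enc_rat _ 8478123 10000000) (pr_scaleT 12853 62500 h1))))) (pr_mA (pr_cmul (enc_norm (txg_493.enc h1.l h2.l h3)) (pr_norm (pr_mul (pr_norm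 (txg_392_s.snd h1 h2 h3)) (pr_norm (txg_494_s.snd h1 h2 h3))))) (pr_const (txg_493.enc h1.l h2.l h3)) (txg_392_s.snd h1 h2 h3) (txg_494_s.snd h1 h2 h3) rfl rfl)) (pr_add (pr_add (pr_csub (enc_rat _ 1245544499 4000000000) (pr_scaleT 1035973033 2500000000 h1)) (pr_cmul (enc_norm (txg_4.enc h1.l h2.l h3)) (pr_norm (pr_csub (enc_rat _ 389643 400000) (pr_scaleT 209281 250000 h1))))) (pr_mA (pr_cmul (enc_norm (txg_512.enc h1.l h2.l h3)) (pr_norm (pr_mul (pr_norm (txg_479_s.snd h1 h2 h3)) (pr_norm (txg_513_s.snd h1 h2 h3))))) (pr_const (txg_512.enc h1.l h2.l h3)) (txg_479_s.snd h1 h2 h3) (txg_513_s.snd h1 h2 h3) rfl rfl))) (pr_case (txg_519_s.snd h1 h2 h3) (pr_add (pr_add (pr_csub (enc_rat _ 7032973761 20000000000) (pr_scaleT 719299333 1250000000 h1)) (pr_cmul (enc_norm (txg_4.enc h1.l h2.l h3)) (pr_norm (pr_csub (enc_rat _ 2239177 2000000) (pr_scaleT 177381 125000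 h1))))) (pr_mA (pr_cmul (enc_norm (txg_533.enc h1.l h2.l h3)) (pr_norm (pr_mul (pr_norm (txg_478_s.snd h1 h2 h3)) (pr_norm (txg_534_s.snd h1 h2 h3))))) (pr_const (txg_533.enc h1.l h2.l h3)) (txg_478_s.snd h1 h2 h3) (txg_534_s.snd h1 h2 h3) rfl rfl)) (pr_add (pr_add (pr_csub (enc_rat _ 39953922009 100000000000) (pr_scaleT 1837686433 2500000000 h1)) (pr_cmul (enc_norm (txg_4.enc h1.l h2.l h3)) (pr_norm (pr_csub (enc_rat _ 11655713 10000000) (pr_scaleT 393081 250000 h1))))) (pr_mA (pr_cmul (enc_norm (txg_554.enc h1.l h2.l h3)) (pr_norm (pr_mul (pr_norm (txg_519_s.snd h1 h2 h3)) (pr_norm (txg_555_s.snd h1 h2 h3))))) (pr_const (txg_554.enc h1.l h2.l h3)) (txg_519_s.snd h1 h2 h3) (txg_555_s.snd h1 h2 h3) rfl rfl))))) (pr_case (txg_563_s.snd h1 h2 h3) (pr_case (txg_564_s.snd h1 h2 h3) (pr_case (txg_565_s.snd h1 h2 h3) (pr_add (pr_add (pr_csub (enc_rat _ 44660232247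 100000000000) (pr_scaleT 43477029 50000000 h1)) (pr_cmul (enc_norm (txg_4.enc h1.l h2.l h3)) (pr_norm (pr_csub (enc_rat _ 14057679 10000000) (pr_scaleT 11293 5000 h1))))) (pr_mA (pr_cmul (enc_norm (txg_579.enc h1.l h2.l h3)) (pr_norm (pr_mul (pr_norm (txg_390_s.snd h1 h2 h3)) (pr_norm (txg_580_s.snd h1 h2 h3))))) (pr_const (txg_579.enc h1.l h2.l h3)) (txg_390_s.snd h1 h2 h3) (txg_580_s.snd h1 h2 h3) rfl rfl)) (pr_add (pr_add (pr_csub (enc_rat _ 24159888461 50000000000) (pr_scaleT 483564219 500000000 h1)) (pr_cmul (enc_norm (txg_4.enc h1.l h2.l h3)) (pr_norm (pr_csub (enc_rat _ 10369577 5000000) (pr_scaleT 606049 150000 h1))))) (pr_mA (pr_cmul (enc_norm (txg_598.enc h1.l h2.l h3)) (pr_norm (pr_mul (pr_norm (txg_565_s.snd h1 h2 h3)) (pr_norm (txg_599_s.snd h1 h2 h3))))) (pr_const (txg_598.enc h1.l h2.l h3)) (txg_565_s.snd h1 h2 h3) (txg_599_s.snd h1 h2 h3) rfl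 rfl))) (pr_case (txg_605_s.snd h1 h2 h3) (pr_add (pr_add (pr_csub (enc_rat _ 12757841743 25000000000) (pr_scaleT 259164097 250000000 h1)) (pr_cmul (enc_norm (txg_4.enc h1.l h2.l h3)) (pr_norm (pr_csub (enc_rat _ 6652001 2500000) (pr_scaleT 138629 25000 h1))))) (pr_mA (pr_cmul (enc_norm (txg_619.enc h1.l h2.l h3)) (pr_norm (pr_mul (pr_norm (txg_564_s.snd h1 h2 h3)) (pr_norm (txg_620_s.snd h1 h2 h3))))) (pr_const (txg_619.enc h1.l h2.l h3)) (txg_564_s.snd h1 h2 h3) (txg_620_s.snd h1 h2 h3) rfl rfl)) (pr_add (pr_add (pr_csub (enc_rat _ 13256696643 25000000000) (pr_scaleT 543270939 500000000 h1)) (pr_cmul (enc_norm (txg_4.enc h1.l h2.l h3)) (pr_norm (pr_csub (enc_rat _ 7321301 2500000) (pr_scaleT 310723 50000 h1))))) (pr_mA (pr_cmul (enc_norm (txg_638.enc h1.l h2.l h3)) (pr_norm (pr_mul (pr_norm (txg_605_s.snd h1 h2 h3)) (pr_norm (txg_639_s.snd h1 h2 h3))))) (pr_const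 (txg_638.enc h1.l h2.l h3)) (txg_605_s.snd h1 h2 h3) (txg_639_s.snd h1 h2 h3) rfl rfl)))) (pr_case (txg_646_s.snd h1 h2 h3) (pr_case (txg_647_s.snd h1 h2 h3) (pr_add (pr_add (pr_csub (enc_rat _ 2667520487 5000000000) (pr_scaleT 547217563 500000000 h1)) (pr_cmul (enc_norm (txg_4.enc h1.l h2.l h3)) (pr_norm (pr_csub (enc_rat _ 1621159 500000) (pr_scaleT 348991 50000 h1))))) (pr_mA (pr_cmul (enc_norm (txg_662.enc h1.l h2.l h3)) (pr_norm (pr_mul (pr_norm (txg_563_s.snd h1 h2 h3)) (pr_norm (txg_663_s.snd h1 h2 h3))))) (pr_const (txg_662.enc h1.l h2.l h3)) (txg_563_s.snd h1 h2 h3) (txg_663_s.snd h1 h2 h3) rfl rfl)) (pr_add (pr_add (pr_csub (enc_rat _ 6504613421 12500000000) (pr_scaleT 53158063 50000000 h1)) (pr_cmul (enc_norm (txg_4.enc h1.l h2.l h3)) (pr_norm (pr_csub (enc_rat _ 4855297 1250000) (pr_scaleT 42541 5000 h1))))) (pr_mA (pr_cmul (enc_norm (txg_682.enc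 h1.l h2.l h3)) (pr_norm (pr_mul (pr_norm (txg_647_s.snd h1 h2 h3)) (pr_norm (txg_683_s.snd h1 h2 h3))))) (pr_const (txg_682.enc h1.l h2.l h3)) (txg_647_s.snd h1 h2 h3) (txg_683_s.snd h1 h2 h3) rfl rfl))) (pr_case (txg_689_s.snd h1 h2 h3) (pr_add (pr_add (pr_csub (enc_rat _ 50488422801 100000000000) (pr_scaleT 1027149991 1000000000 h1)) (pr_cmul (enc_norm (txg_4.enc h1.l h2.l h3)) (pr_norm (pr_csub (enc_rat _ 48451457 10000000) (pr_scaleT 1074287 100000 h1))))) (pr_mA (pr_cmul (enc_norm (txg_704.enc h1.l h2.l h3)) (pr_norm (pr_mul (pr_norm (txg_646_s.snd h1 h2 h3)) (pr_norm (txg_705_s.snd h1 h2 h3))))) (pr_const (txg_704.enc h1.l h2.l h3)) (txg_646_s.snd h1 h2 h3) (txg_705_s.snd h1 h2 h3) rfl rfl)) (pr_add (pr_add (pr_add (pr_csub (enc_rat _ 404010417030467419 898218750000000000) (pr_scaleT 712920608966327963 790432500000000000 h1)) (pr_cmul (enc_norm (txg_4.enc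 h1.l h2.l h3)) (pr_norm (pr_csub (enc_rat _ 244327161882341 89821875000000) (pr_scaleT 467405540047807 79043250000000 h1))))) (pr_cmul (txg_724.enc h1.l h2.l h3) (pr_norm (pr_subr 1072869 1718750 (pr_scaleT 1072869 756250 h1))))) (pr_mA (pr_cmul (enc_norm (txg_737.enc h1.l h2.l h3)) (pr_norm (pr_mul (pr_norm (txg_689_s.snd h1 h2 h3)) (pr_norm (txg_738_s.snd h1 h2 h3))))) (pr_const (txg_737.enc h1.l h2.l h3)) (txg_689_s.snd h1 h2 h3) (txg_738_s.snd h1 h2 h3) rfl rfl))))))) (pr_case (txg_749_s.snd h1 h2 h3) (pr_sub (pr_mul (pr_norm (pr_csub (enc_pnc _ 1) h2)) (pr_norm (pr_subn 1 (pr_nat 2 h2)))) (pr_mul (pr_norm (pr_nat 2 (pr_subc (pr_scaleT 4 3 (txg_6_s.snd h1 h2 h3)) h3))) (pr_norm (pr_mul (pr_norm (pr_subn 1 (pr_add (pr_scaleT 2 3 (txg_6_s.snd h1 h2 h3)) h2))) (kcg_s.snd h1 h3))))) (pr_case (txg_750_s.snd h1 h2 h3) (pr_add (pr_add (pr_add (pr_csub (enc_rat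 _ 19992478605258933510631 44618805000000000000000) (pr_scaleT 39941802965223348151 44618805000000000000 h1)) (pr_cmul (enc_norm (txg_4.enc h1.l h2.l h3)) (pr_norm (pr_csub (enc_rat _ 3500064233817927659 4461880500000000000) (pr_scaleT 6966853661546939 4461880500000000 h1))))) (pr_cmul (txg_724.enc h1.l h2.l h3) (pr_norm (pr_subr 8951202689 8887500000 (pr_scaleT 18609569 8887500 h1))))) (pr_mA (pr_cmul (enc_norm (txg_774.enc h1.l h2.l h3)) (pr_norm (pr_mul (pr_norm (txg_749_s.snd h1 h2 h3)) (pr_norm (txg_775_s.snd h1 h2 h3))))) (pr_const (txg_774.enc h1.l h2.l h3)) (txg_749_s.snd h1 h2 h3) (txg_775_s.snd h1 h2 h3) rfl rfl)) (pr_case (txg_780_s.snd h1 h2 h3) (pr_add (pr_add (pr_csub (enc_rat _ 320261369171 700000000000) (pr_scaleT 80045993 87500000 h1)) (pr_cmul (enc_norm (txg_4.enc h1.l h2.l h3)) (pr_norm (pr_csub (enc_rat _ 9061221 10000000) (pr_scaleT 1134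 625 h1))))) (pr_mA (pr_cmul (enc_norm (txg_794.enc h1.l h2.l h3)) (pr_norm (pr_mul (pr_norm (txg_750_s.snd h1 h2 h3)) (pr_norm (txg_795_s.snd h1 h2 h3))))) (pr_const (txg_794.enc h1.l h2.l h3)) (txg_750_s.snd h1 h2 h3) (txg_795_s.snd h1 h2 h3) rfl rfl)) (pr_add (pr_add (pr_csub (enc_rat _ 369610119 800000000) (pr_scaleT 369610119 400000000 h1)) (pr_cmul (enc_norm (txg_4.enc h1.l h2.l h3)) (pr_norm (pr_csub (enc_rat _ 68983 80000) (pr_scaleT 68983 40000 h1))))) (pr_mA (pr_cmul (enc_norm (txg_815.enc h1.l h2.l h3)) (pr_norm (pr_mul (pr_norm (txg_780_s.snd h1 h2 h3)) (pr_norm (txg_816_s.snd h1 h2 h3))))) (pr_const (txg_815.enc h1.l h2.l h3)) (txg_780_s.snd h1 h2 h3) (txg_816_s.snd h1 h2 h3) rfl rfl))))))⟩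
noncomputable def l0q0_s : Sl2 l0q0 := ⟨_, fun h1 h2 => (pr_norm (txg_s.snd (pr_norm (pr_sub (pr_scaleT 3 4 h1) (pr_half (c1g_s.snd h1)))) (pr_nd (c1g_s.snd h1)) h2))⟩
noncomputable def kc0q0_8_s : Sl2 kc0q0_8 := ⟨_, fun h1 h2 => (pr_sub (pr_scaleT 3 4 h1) (pr_half (c1g_s.snd h1)))⟩
noncomputable def kc0q0_s : Sl2 kc0q0 := ⟨_, fun h1 h2 => (pr_norm (pr_case (pr_addc (kc0q0_8_s.snd h1 h2) (enc_rat _ 333 1000)) (pr_case (pr_addc (kc0q0_8_s.snd h1 h2) (enc_rat _ 93 200)) (pr_case (pr_addc (kc0q0_8_s.snd h1 h2) (enc_rat _ 61 125)) (pr_add (pr_subr 2231189 240000 (pr_neg (pr_scaleT 2231189 120000 (kc0q0_8_s.snd h1 h2)))) (pr_cmul (enc_norm (kc0q0_3.enc h1.l h2)) (pr_norm (pr_addc (pr_scaleT 9 4 (kc0q0_8_s.snd h1 h2)) (enc_rat _ 9 8))))) (pr_case (pr_addc (kc0q0_8_s.snd h1 h2) (enc_rat _ 481 1000)) (pr_add (pr_subr 50310731 70000000 (pr_neg (pr_scaleT 71091 70000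 (kc0q0_8_s.snd h1 h2)))) (pr_cmul (enc_norm (kc0q0_3.enc h1.l h2)) (pr_norm (pr_addc (pr_scaleT 13 7 (kc0q0_8_s.snd h1 h2)) (enc_rat _ 6533 7000))))) (pr_add (pr_subr 52643 10000000 (pr_scaleT 4677 10000 (kc0q0_8_s.snd h1 h2))) (pr_cmul (enc_norm (kc0q0_3.enc h1.l h2)) (pr_norm (pr_addc (pr_scaleT 3 2 (kc0q0_8_s.snd h1 h2)) (enc_rat _ 1523 2000))))))) (pr_case (pr_addc (kc0q0_8_s.snd h1 h2) (enc_rat _ 43 100)) (pr_case (pr_addc (kc0q0_8_s.snd h1 h2) (enc_rat _ 9 20)) (pr_add (pr_addc (pr_scaleT 3206 3125 (kc0q0_8_s.snd h1 h2)) (enc_rat _ 63577 250000)) (pr_cmul (enc_norm (kc0q0_3.enc h1.l h2)) (pr_norm (pr_addc (pr_scaleT 16 15 (kc0q0_8_s.snd h1 h2)) (enc_rat _ 14 25))))) (pr_add (pr_addc (pr_scaleT 279909 200000 (kc0q0_8_s.snd h1 h2)) (enc_rat _ 1689757 4000000)) (pr_cmul (enc_norm (kc0q0_3.enc h1.l h2)) (pr_norm (pr_addc (pr_scaleT 13 20 (kc0q0_8_s.snd h1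 h2)) (enc_rat _ 149 400)))))) (pr_case (pr_addc (kc0q0_8_s.snd h1 h2) (enc_rat _ 2 5)) (pr_add (pr_addc (pr_scaleT 466937 300000 (kc0q0_8_s.snd h1 h2)) (enc_rat _ 7348669 15000000)) (pr_cmul (enc_norm (kc0q0_3.enc h1.l h2)) (pr_norm (pr_addc (pr_scaleT 3 10 (kc0q0_8_s.snd h1 h2)) (enc_rat _ 111 500))))) (pr_add (pr_addc (pr_scaleT 282007 167500 (kc0q0_8_s.snd h1 h2)) (enc_rat _ 181160681 335000000)) (pr_cmul (enc_norm (kc0q0_3.enc h1.l h2)) (pr_norm (pr_csub (enc_rat _ 2617 33500) (pr_scaleT 4 67 (kc0q0_8_s.snd h1 h2))))))))) (pr_case (pr_subr 167 1000 (kc0q0_8_s.snd h1 h2)) (pr_case (pr_addc (kc0q0_8_s.snd h1 h2) (enc_rat _ 167 1000)) (pr_add (pr_addc (pr_scaleT 361681 207500 (kc0q0_8_s.snd h1 h2)) (enc_rat _ 232634077 415000000)) (pr_cmul (enc_norm (kc0q0_3.enc h1.l h2)) (pr_norm (pr_subr 1261 41500 (pr_neg (pr_scaleT 32 83 (kc0q0_8_s.snd h1 h2))))))) (pr_case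 (kc0q0_8_s.snd h1 h2) (pr_add (pr_addc (pr_scaleT 183233 104375 (kc0q0_8_s.snd h1 h2)) (enc_rat _ 562649 1000000)) (pr_cmul (enc_norm (kc0q0_3.enc h1.l h2)) (pr_norm (pr_subr 7 100 (pr_neg (pr_scaleT 104 167 (kc0q0_8_s.snd h1 h2))))))) (pr_add (pr_addc (pr_scaleT 740231 417500 (kc0q0_8_s.snd h1 h2)) (enc_rat _ 562649 1000000)) (pr_cmul (enc_norm (kc0q0_3.enc h1.l h2)) (pr_norm (pr_subr 7 100 (pr_neg (pr_scaleT 132 167 (kc0q0_8_s.snd h1 h2))))))))) (pr_case (pr_subr 2 5 (kc0q0_8_s.snd h1 h2)) (pr_case (pr_subr 333 1000 (kc0q0_8_s.snd h1 h2)) (pr_add (pr_addc (pr_scaleT 736259 415000 (kc0q0_8_s.snd h1 h2)) (enc_rat _ 58355607 103750000)) (pr_cmul (enc_norm (kc0q0_3.enc h1.l h2)) (pr_norm (pr_subr 551 10375 (pr_neg (pr_scaleT 74 83 (kc0q0_8_s.snd h1 h2))))))) (pr_add (pr_addc (pr_scaleT 1189441 670000 (kc0q0_8_s.snd h1 h2)) (enc_rat _ 376590297 670000000)) (pr_cmul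 (enc_norm (kc0q0_3.enc h1.l h2)) (pr_norm (pr_subr 2471 67000 (pr_neg (pr_scaleT 63 67 (kc0q0_8_s.snd h1 h2)))))))) (pr_case (pr_subr 43 100 (kc0q0_8_s.snd h1 h2)) (pr_add (pr_addc (pr_scaleT 533203 300000 (kc0q0_8_s.snd h1 h2)) (enc_rat _ 16837553 30000000)) (pr_cmul (enc_norm (kc0q0_3.enc h1.l h2)) (pr_norm (pr_subr 79 3000 (pr_neg (pr_scaleT 29 30 (kc0q0_8_s.snd h1 h2))))))) (pr_add (pr_addc (pr_scaleT 283231892359 159700000000 (kc0q0_8_s.snd h1 h2)) (enc_rat _ 8989413746563 15970000000000)) (pr_cmul (enc_norm (kc0q0_3.enc h1.l h2)) (pr_norm (pr_subr 510360139653 15970000000000 (pr_neg (pr_scaleT 152287903729 159700000000 (kc0q0_8_s.snd h1 h2))))))))))))⟩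
noncomputable def kf0q1_10_s : Sl2 kf0q1_10 := ⟨_, fun h1 h2 => (pr_scaleT 3 2 h1)⟩
noncomputable def kf0q1_s : Sl2 kf0q1 := ⟨_, fun h1 h2 => (pr_norm (pr_add (pr_mul (pr_norm (pr_mul (pr_norm (pr_cadd (enc_pnc _ 1) (pr_nat 2 (c1g_s.snd h1)))) (pr_norm (pr_sub (kf0q1_10_s.snd h1 h2) (c1g_s.snd h1))))) (pr_nd (pr_inv (pr_nat 2 (pr_sub (pr_cadd (enc_pnc _ 1) (kf0q1_10_s.snd h1 h2)) (c1g_s.snd h1)))))) (pr_mul (pr_norm (pr_subn 1 h1)) (kcg_s.snd (pr_norm (pr_sub (pr_scaleT 3 4 h1) (pr_half (c1g_s.snd h1)))) h2))))⟩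
noncomputable def l0q1_s : Sl2 l0q1 := ⟨_, fun h1 h2 => (pr_norm (txg_s.snd (pr_norm (pr_sub (pr_scaleT 3 4 h1) (pr_half (c1g_s.snd h1)))) (pr_nd (c1g_s.snd h1)) h2))⟩
noncomputable def gsg_s : Sl1 gsg := ⟨_, fun h1 => (pr_sqrt (pr_csub (enc_pnc _ 1) (pr_scaleT 3 4 (pr_sq h1))))⟩
noncomputable def gug_s : Sl1 gug := ⟨_, fun h1 => (pr_norm (pr_add (pr_scaleT 3 4 h1) (pr_scaleT 3 2 (pr_csub (enc_pnc _ 1) (gsg_s.snd h1)))))⟩
noncomputable def kc0q1_9_s : Sl2 kc0q1_9 := ⟨_, fun h1 h2 => (pr_sub (pr_scaleT 3 4 h1) (pr_half (c1g_s.snd h1)))⟩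
noncomputable def kc0q1_s : Sl2 kc0q1 := ⟨_, fun h1 h2 => (pr_norm (pr_case (pr_subr 781 1742 (kc0q1_9_s.snd h1 h2)) (pr_case (pr_addc (kc0q1_9_s.snd h1 h2) (enc_rat _ 333 1000)) (pr_case (pr_addc (kc0q1_9_s.snd h1 h2) (enc_rat _ 93 200)) (pr_case (pr_addc (kc0q1_9_s.snd h1 h2) (enc_rat _ 61 125)) (pr_add (pr_subr 2231189 240000 (pr_neg (pr_scaleT 2231189 120000 (kc0q1_9_s.snd h1 h2)))) (pr_cmul (enc_norm (kc0q1_3.enc h1.l h2)) (pr_norm (pr_addc (pr_scaleT 9 4 (kc0q1_9_s.snd h1 h2)) (enc_rat _ 9 8))))) (pr_case (pr_addc (kc0q1_9_s.snd h1 h2) (enc_rat _ 481 1000)) (pr_add (pr_subr 50310731 70000000 (pr_neg (pr_scaleT 71091 70000 (kc0q1_9_s.snd h1 h2)))) (pr_cmul (enc_norm (kc0q1_3.enc h1.l h2)) (pr_norm (pr_addc (pr_scaleT 13 7 (kc0q1_9_s.snd h1 h2)) (enc_rat _ 6533 7000))))) (pr_add (pr_subr 52643 10000000 (pr_scaleT 4677 10000 (kc0q1_9_s.snd h1 h2))) (pr_cmul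 (enc_norm (kc0q1_3.enc h1.l h2)) (pr_norm (pr_addc (pr_scaleT 3 2 (kc0q1_9_s.snd h1 h2)) (enc_rat _ 1523 2000))))))) (pr_case (pr_addc (kc0q1_9_s.snd h1 h2) (enc_rat _ 43 100)) (pr_case (pr_addc (kc0q1_9_s.snd h1 h2) (enc_rat _ 9 20)) (pr_add (pr_addc (pr_scaleT 3206 3125 (kc0q1_9_s.snd h1 h2)) (enc_rat _ 63577 250000)) (pr_cmul (enc_norm (kc0q1_3.enc h1.l h2)) (pr_norm (pr_addc (pr_scaleT 16 15 (kc0q1_9_s.snd h1 h2)) (enc_rat _ 14 25))))) (pr_add (pr_addc (pr_scaleT 279909 200000 (kc0q1_9_s.snd h1 h2)) (enc_rat _ 1689757 4000000)) (pr_cmul (enc_norm (kc0q1_3.enc h1.l h2)) (pr_norm (pr_addc (pr_scaleT 13 20 (kc0q1_9_s.snd h1 h2)) (enc_rat _ 149 400)))))) (pr_case (pr_addc (kc0q1_9_s.snd h1 h2) (enc_rat _ 2 5)) (pr_add (pr_addc (pr_scaleT 466937 300000 (kc0q1_9_s.snd h1 h2)) (enc_rat _ 7348669 15000000)) (pr_cmul (enc_norm (kc0q1_3.enc h1.l h2)) (pr_norm (pr_addc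 (pr_scaleT 3 10 (kc0q1_9_s.snd h1 h2)) (enc_rat _ 111 500))))) (pr_add (pr_addc (pr_scaleT 282007 167500 (kc0q1_9_s.snd h1 h2)) (enc_rat _ 181160681 335000000)) (pr_cmul (enc_norm (kc0q1_3.enc h1.l h2)) (pr_norm (pr_csub (enc_rat _ 2617 33500) (pr_scaleT 4 67 (kc0q1_9_s.snd h1 h2))))))))) (pr_case (pr_subr 167 1000 (kc0q1_9_s.snd h1 h2)) (pr_case (pr_addc (kc0q1_9_s.snd h1 h2) (enc_rat _ 167 1000)) (pr_add (pr_addc (pr_scaleT 361681 207500 (kc0q1_9_s.snd h1 h2)) (enc_rat _ 232634077 415000000)) (pr_cmul (enc_norm (kc0q1_3.enc h1.l h2)) (pr_norm (pr_subr 1261 41500 (pr_neg (pr_scaleT 32 83 (kc0q1_9_s.snd h1 h2))))))) (pr_case (kc0q1_9_s.snd h1 h2) (pr_add (pr_addc (pr_scaleT 183233 104375 (kc0q1_9_s.snd h1 h2)) (enc_rat _ 562649 1000000)) (pr_cmul (enc_norm (kc0q1_3.enc h1.l h2)) (pr_norm (pr_subr 7 100 (pr_neg (pr_scaleT 104 167 (kc0q1_9_s.snd h1 h2))))))) (pr_add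 (pr_addc (pr_scaleT 740231 417500 (kc0q1_9_s.snd h1 h2)) (enc_rat _ 562649 1000000)) (pr_cmul (enc_norm (kc0q1_3.enc h1.l h2)) (pr_norm (pr_subr 7 100 (pr_neg (pr_scaleT 132 167 (kc0q1_9_s.snd h1 h2))))))))) (pr_case (pr_subr 2 5 (kc0q1_9_s.snd h1 h2)) (pr_case (pr_subr 333 1000 (kc0q1_9_s.snd h1 h2)) (pr_add (pr_addc (pr_scaleT 736259 415000 (kc0q1_9_s.snd h1 h2)) (enc_rat _ 58355607 103750000)) (pr_cmul (enc_norm (kc0q1_3.enc h1.l h2)) (pr_norm (pr_subr 551 10375 (pr_neg (pr_scaleT 74 83 (kc0q1_9_s.snd h1 h2))))))) (pr_add (pr_addc (pr_scaleT 1189441 670000 (kc0q1_9_s.snd h1 h2)) (enc_rat _ 376590297 670000000)) (pr_cmul (enc_norm (kc0q1_3.enc h1.l h2)) (pr_norm (pr_subr 2471 67000 (pr_neg (pr_scaleT 63 67 (kc0q1_9_s.snd h1 h2)))))))) (pr_case (pr_subr 43 100 (kc0q1_9_s.snd h1 h2)) (pr_add (pr_addc (pr_scaleT 533203 300000 (kc0q1_9_s.snd h1 h2)) (enc_rat _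 16837553 30000000)) (pr_cmul (enc_norm (kc0q1_3.enc h1.l h2)) (pr_norm (pr_subr 79 3000 (pr_neg (pr_scaleT 29 30 (kc0q1_9_s.snd h1 h2))))))) (pr_add (pr_addc (pr_scaleT 283231892359 159700000000 (kc0q1_9_s.snd h1 h2)) (enc_rat _ 8989413746563 15970000000000)) (pr_cmul (enc_norm (kc0q1_3.enc h1.l h2)) (pr_norm (pr_subr 510360139653 15970000000000 (pr_neg (pr_scaleT 152287903729 159700000000 (kc0q1_9_s.snd h1 h2))))))))))) (pr_case (pr_subr 541 1141 (kc0q1_9_s.snd h1 h2)) (pr_sub (pr_add (pr_cadd (enc_rat _ 3 4) (pr_scaleT 3 2 h1)) (pr_scaleT 3 4 (pr_mul (pr_norm (pr_mul h1 (pr_nd (pr_inv (c1g_s.snd h1))))) (gug_s.snd h1)))) (pr_mul (kcg_s.snd (pr_norm (kc0q1_9_s.snd h1 h2)) h2) (pr_norm (pr_add (gug_s.snd h1) (pr_nat 2 (c1g_s.snd h1)))))) (pr_case (pr_subr 483 1000 (kc0q1_9_s.snd h1 h2)) (pr_case (pr_subr 479 1000 (kc0q1_9_s.snd h1 h2)) (pr_add (pr_csub (enc_rat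 _ 1462619790243951 55390000000000) (pr_scaleT 2972846871169 55390000000 (kc0q1_9_s.snd h1 h2))) (pr_cmul (enc_norm (kc0q1_3.enc h1.l h2)) (pr_norm (pr_csub (enc_rat _ 396442215689879 6923750000000) (pr_scaleT 820389338601 6923750000 (kc0q1_9_s.snd h1 h2)))))) (pr_add (pr_csub (enc_rat _ 66010083 2500000) (pr_scaleT 268337 5000 (kc0q1_9_s.snd h1 h2))) (pr_cmul (enc_norm (kc0q1_3.enc h1.l h2)) (pr_norm (pr_csub (enc_rat _ 7128 125) (pr_nat 118 (kc0q1_9_s.snd h1 h2))))))) (pr_case (pr_subr 487 1000 (kc0q1_9_s.snd h1 h2)) (pr_add (pr_csub (enc_rat _ 966326709 40000000) (pr_scaleT 1960703 40000 (kc0q1_9_s.snd h1 h2))) (pr_cmul (enc_norm (kc0q1_3.enc h1.l h2)) (pr_norm (pr_csub (enc_rat _ 227613 4000) (pr_scaleT 471 4 (kc0q1_9_s.snd h1 h2)))))) (pr_case (pr_subr 491 1000 (kc0q1_9_s.snd h1 h2)) (pr_add (pr_csub (enc_rat _ 534378163 40000000) (pr_scaleT 214749 8000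 (kc0q1_9_s.snd h1 h2))) (pr_cmul (enc_norm (kc0q1_3.enc h1.l h2)) (pr_norm (pr_csub (enc_rat _ 224691 4000) (pr_scaleT 465 4 (kc0q1_9_s.snd h1 h2)))))) (pr_add (pr_csub (enc_rat _ 896171 90000) (pr_scaleT 896171 45000 (kc0q1_9_s.snd h1 h2))) (pr_cmul (enc_norm (kc0q1_3.enc h1.l h2)) (pr_norm (pr_subr 151 3 (pr_scaleT 302 3 (kc0q1_9_s.snd h1 h2))))))))))))⟩
noncomputable def yag_s : Sl1 yag := ⟨_, fun h1 => (pr_sqrt (pr_scaleT 4 3 (pr_csub (enc_pnc _ 1) (pr_sq h1))))⟩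
noncomputable def kfc02_s : Sl2 kfc02 := ⟨_, fun h1 h2 => (pr_norm (pr_add h1 (pr_mul (pr_norm (pr_subn 1 (yag_s.snd h1))) (kcg_s.snd (pr_nd (pr_neg h1)) h2))))⟩
noncomputable def lc02_7_s : Sl2 lc02_7 := ⟨_, fun h1 h2 => (pr_scaleT 3 4 (yag_s.snd h1))⟩
noncomputable def lc02_8_s : Sl2 lc02_8 := ⟨_, fun h1 h2 => (pr_half h1)⟩
noncomputable def lc02_s : Sl2 lc02 := ⟨_, fun h1 h2 => (pr_norm (pr_sub (txg_s.snd (pr_nd (pr_neg h1)) (pr_norm (pr_add (lc02_7_s.snd h1 h2) (lc02_8_s.snd h1 h2))) h2) (txg_s.snd h1 (pr_norm (pr_sub (lc02_7_s.snd h1 h2) (lc02_8_s.snd h1 h2))) h2)))⟩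
noncomputable def kcc02_15_s : Sl2 kcc02_15 := ⟨_, fun h1 h2 => (pr_scaleT 25840979 2000000 h1)⟩
noncomputable def kcc02_19_s : Sl2 kcc02_19 := ⟨_, fun h1 h2 => (pr_scaleT 3 200 h1)⟩
noncomputable def kcc02_s : Sl2 kcc02 := ⟨_, fun h1 h2 => (pr_norm (pr_casec1 (pr_subr 1 10 h1) (enc_pnc _ 0) (pr_case (pr_subr 3 10 h1) (pr_add (pr_csub (enc_rat _ 25840979 20000000) (kcc02_15_s.snd h1 h2)) (pr_cmul (enc_norm (kcc02_4.enc h1.l h2)) (pr_norm (pr_csub (enc_rat _ 3 2000) (kcc02_19_s.snd h1 h2))))) (pr_add (pr_subr 25840979 4000000 (kcc02_15_s.snd h1 h2)) (pr_cmul (enc_norm (kcc02_4.enc h1.l h2)) (pr_norm (pr_subr 3 400 (kcc02_19_s.snd h1 h2))))))))⟩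
noncomputable def swg_s : Sl1 swg := ⟨_, fun h1 => (pr_sqrt (pr_csub (enc_pnc _ 1) (pr_scaleT 3 4 (pr_sq (pr_norm (pr_subn 1 h1))))))⟩
noncomputable def cv1m_s : Sl1 cv1m := ⟨_, fun h1 => (pr_norm (pr_add (pr_scaleT 3 4 (c1g_s.snd h1)) (pr_scaleT 1 4 (pr_addc (swg_s.snd h1) (enc_rat _ 1 2)))))⟩
noncomputable def bf1q0_s : Sl2 bf1q0 := ⟨_, fun h1 h2 => (pr_norm (pr_case (pr_subr 71 2000 h1) (pr_case (pr_subr 29 2000 h1) (pr_case (pr_subr 1 200 h1) (pr_add (pr_csub (enc_pnc _ 1) (pr_scaleT 1127791 500000 h1)) (pr_cmul (enc_norm (bf1q0_3.enc h1.l h2)) (pr_nd (pr_scaleT 113 50 h1)))) (pr_case (pr_subr 21 2000 h1) (pr_add (pr_csub (enc_rat _ 1100002839 1100000000) (pr_scaleT 620427 275000 h1)) (pr_cmul (enc_norm (bf1q0_3.enc h1.l h2)) (pr_norm (pr_addc (pr_scaleT 122 55 h1) (enc_rat _ 23 110000))))) (pr_add (pr_csub (enc_rat _ 800005629 800000000) (pr_scaleT 902609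 400000 h1)) (pr_cmul (enc_norm (bf1q0_3.enc h1.l h2)) (pr_norm (pr_addc (pr_scaleT 87 40 h1) (enc_rat _ 53 80000))))))) (pr_case (pr_subr 9 512 h1) (pr_add (pr_csub (enc_rat _ 9850005353 9850000000) (pr_scaleT 1388896 615625 h1)) (pr_cmul (enc_norm (bf1q0_3.enc h1.l h2)) (pr_norm (pr_addc (pr_scaleT 2048 985 h1) (enc_rat _ 2021 985000))))) (pr_case (pr_subr 1 40 h1) (pr_add (pr_csub (enc_rat _ 1899983597 1900000000) (pr_scaleT 3348086 1484375 h1)) (pr_cmul (enc_norm (bf1q0_3.enc h1.l h2)) (pr_norm (pr_addc (pr_scaleT 4768 2375 h1) (enc_rat _ 629 190000))))) (pr_add (pr_csub (enc_rat _ 140002357 140000000) (pr_scaleT 3949 1750 h1)) (pr_cmul (enc_norm (bf1q0_3.enc h1.l h2)) (pr_norm (pr_addc (pr_scaleT 40 21 h1) (enc_rat _ 247 42000)))))))) (pr_case (pr_subr 1 10 h1) (pr_case (pr_subr 1 20 h1) (pr_add (pr_csub (enc_rat _ 2899964009 2900000000) (pr_scaleT 1635417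 725000 h1)) (pr_cmul (enc_norm (bf1q0_3.enc h1.l h2)) (pr_norm (pr_addc (pr_scaleT 262 145 h1) (enc_rat _ 2713 290000))))) (pr_case (pr_subr 7 100 h1) (pr_add (pr_csub (enc_rat _ 199997047 200000000) (pr_scaleT 4511401 2000000 h1)) (pr_cmul (enc_norm (bf1q0_3.enc h1.l h2)) (pr_norm (pr_addc (pr_scaleT 343 200 h1) (enc_rat _ 279 20000))))) (pr_add (pr_csub (enc_rat _ 99999339 100000000) (pr_scaleT 2255817 1000000 h1)) (pr_cmul (enc_norm (bf1q0_3.enc h1.l h2)) (pr_norm (pr_addc (pr_scaleT 493 300 h1) (enc_rat _ 569 30000))))))) (pr_case (pr_subr 11 50 h1) (pr_case (pr_subr 3 20 h1) (pr_add (pr_csub (enc_rat _ 100000243 100000000) (pr_scaleT 11279537 5000000 h1)) (pr_cmul (enc_norm (bf1q0_3.enc h1.l h2)) (pr_norm (pr_addc (pr_scaleT 791 500 h1) (enc_rat _ 251 10000))))) (pr_add (pr_csub (enc_rat _ 699974299 700000000) (pr_scaleT 631581 280000 h1)) (pr_cmul (enc_norm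 (bf1q0_3.enc h1.l h2)) (pr_norm (pr_addc (pr_scaleT 43 28 h1) (enc_rat _ 2243 70000)))))) (pr_case (pr_subr 33 100 h1) (pr_add (pr_csub (enc_rat _ 99999333 100000000) (pr_scaleT 2255783 1000000 h1)) (pr_cmul (enc_norm (bf1q0_3.enc h1.l h2)) (pr_norm (pr_addc (pr_scaleT 1659 1100 h1) (enc_rat _ 381 10000))))) (pr_add (pr_csub (enc_rat _ 8499693 8500000) (pr_scaleT 19173397 8500000 h1)) (pr_cmul (enc_norm (bf1q0_3.enc h1.l h2)) (pr_norm (pr_addc (pr_scaleT 1271 850 h1) (enc_rat _ 18 425))))))))))⟩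
noncomputable def kf1q0_s : Sl2 kf1q0 := ⟨_, fun h1 h2 => (pr_norm (pr_mul (cv1m_s.snd h1) (bf1q0_s.snd h1 h2)))⟩
noncomputable def bx1q0_s : Sl2 bx1q0 := ⟨_, fun h1 h2 => (pr_norm (pr_case (pr_subr 71 2000 h1) (pr_case (pr_subr 29 2000 h1) (pr_case (pr_subr 1 200 h1) (pr_sub (pr_scaleT 6797 15625 h1) (pr_cmul (enc_norm (bx1q0_3.enc h1.l h2)) (pr_nd (pr_scaleT 36 25 h1)))) (pr_case (pr_subr 21 2000 h1) (pr_add (pr_addc (pr_scaleT 11571 27500 h1) (enc_rat _ 9793 137500000)) (pr_cmul (enc_norm (bx1q0_3.enc h1.l h2)) (pr_norm (pr_subr 12 6875 (pr_neg (pr_scaleT 12 11 h1)))))) (pr_add (pr_addc (pr_scaleT 84161 200000 h1) (enc_rat _ 5663 80000000)) (pr_cmul (enc_norm (bx1q0_3.enc h1.l h2)) (pr_norm (pr_subr 9 8000 (pr_neg (pr_scaleT 23 20 h1)))))))) (pr_case (pr_subr 9 512 h1) (pr_add (pr_addc (pr_scaleT 51298 123125 h1) (enc_rat _ 1293051 9850000000)) (pr_cmul (enc_norm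 (bx1q0_3.enc h1.l h2)) (pr_norm (pr_subr 1293 985000 (pr_neg (pr_scaleT 224 197 h1)))))) (pr_case (pr_subr 1 40 h1) (pr_add (pr_addc (pr_scaleT 591148 1484375 h1) (enc_rat _ 863499 1900000000)) (pr_cmul (enc_norm (bx1q0_3.enc h1.l h2)) (pr_norm (pr_subr 357 190000 (pr_neg (pr_scaleT 2624 2375 h1)))))) (pr_add (pr_addc (pr_scaleT 398791 1050000 h1) (enc_rat _ 384563 420000000)) (pr_cmul (enc_norm (bx1q0_3.enc h1.l h2)) (pr_norm (pr_subr 109 42000 (pr_neg (pr_scaleT 113 105 h1))))))))) (pr_case (pr_subr 1 10 h1) (pr_case (pr_subr 1 20 h1) (pr_add (pr_addc (pr_scaleT 34681 90625 h1) (enc_rat _ 36847 45312500)) (pr_cmul (enc_norm (bx1q0_3.enc h1.l h2)) (pr_norm (pr_subr 343 36250 (pr_neg (pr_scaleT 128 145 h1)))))) (pr_case (pr_subr 7 100 h1) (pr_add (pr_addc (pr_scaleT 190439 500000 h1) (enc_rat _ 45181 50000000)) (pr_cmul (enc_norm (bx1q0_3.enc h1.l h2)) (pr_norm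 (pr_subr 133 5000 (pr_neg (pr_scaleT 27 50 h1)))))) (pr_add (pr_addc (pr_scaleT 190359 500000 h1) (enc_rat _ 45741 50000000)) (pr_cmul (enc_norm (bx1q0_3.enc h1.l h2)) (pr_norm (pr_subr 889 15000 (pr_neg (pr_scaleT 11 150 h1)))))))) (pr_case (pr_subr 11 50 h1) (pr_case (pr_subr 3 20 h1) (pr_add (pr_addc (pr_scaleT 1892859 5000000 h1) (enc_rat _ 7059 6250000)) (pr_cmul (enc_norm (bx1q0_3.enc h1.l h2)) (pr_norm (pr_subr 62 625 (pr_scaleT 163 500 h1))))) (pr_add (pr_addc (pr_scaleT 1315537 3500000 h1) (enc_rat _ 1074537 700000000)) (pr_cmul (enc_norm (bx1q0_3.enc h1.l h2)) (pr_norm (pr_subr 9791 70000 (pr_scaleT 209 350 h1)))))) (pr_case (pr_subr 33 100 h1) (pr_add (pr_addc (pr_scaleT 2033483 5500000 h1) (enc_rat _ 288663 100000000)) (pr_cmul (enc_norm (bx1q0_3.enc h1.l h2)) (pr_norm (pr_subr 1809 10000 (pr_scaleT 431 550 h1))))) (pr_add (pr_addc (pr_scaleT 47411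 265625 h1) (enc_rat _ 22438101 340000000)) (pr_cmul (enc_norm (bx1q0_3.enc h1.l h2)) (pr_norm (pr_subr 7443 34000 (pr_scaleT 382 425 h1))))))))))⟩
noncomputable def l1q0_s : Sl2 l1q0 := ⟨_, fun h1 h2 => (pr_norm (pr_mul (cv1m_s.snd h1) (bx1q0_s.snd h1 h2)))⟩
noncomputable def bd1q0_s : Sl2 bd1q0 := ⟨_, fun h1 h2 => (pr_norm (pr_case (pr_subr 9 512 h1) (pr_case (pr_subr 1 100 h1) (pr_sub (pr_cmul (enc_norm (bd1q0_3.enc h1.l h2)) (pr_nd (pr_scaleT 37 10 h1))) (pr_scaleT 2165259 100000 h1)) (pr_add (pr_csub (enc_rat _ 40277 970000000) (pr_scaleT 262588 12125 h1)) (pr_cmul (enc_norm (bd1q0_3.enc h1.l h2)) (pr_norm (pr_addc (pr_scaleT 320 97 h1) (enc_rat _ 389 97000)))))) (pr_case (pr_subr 581 20000 h1) (pr_add (pr_subr 8345857 18355000000 (pr_neg (pr_scaleT 9924784 458875 h1))) (pr_cmul (enc_norm (bd1q0_3.enc h1.l h2)) (pr_norm (pr_addc (pr_scaleT 8960 3671 h1)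 (enc_rat _ 35051 1835500))))) (pr_case (pr_subr 71 2000 h1) (pr_add (pr_subr 424129801 1290000000 (pr_neg (pr_scaleT 666049 64500 h1))) (pr_cmul (enc_norm (bd1q0_3.enc h1.l h2)) (pr_norm (pr_addc (pr_scaleT 140 129 h1) (enc_rat _ 7543 129000))))) (pr_add (pr_subr 3196107731 9290000000 (pr_neg (pr_scaleT 2298493 232250 h1))) (pr_cmul (enc_norm (bd1q0_3.enc h1.l h2)) (pr_norm (pr_csub (enc_rat _ 91533 929000) (pr_scaleT 40 929 h1)))))))))⟩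
noncomputable def kc1q0_s : Sl2 kc1q0 := ⟨_, fun h1 h2 => (pr_norm (pr_mul (cv1m_s.snd h1) (bd1q0_s.snd h1 h2)))⟩
noncomputable def bf1q1_s : Sl2 bf1q1 := ⟨_, fun h1 h2 => (pr_norm (pr_case (pr_subr 7 8 h1) (pr_add (pr_subr 52886417 20000000 (pr_scaleT 286379 78125 h1)) (pr_cmul (enc_norm (bf1q1_3.enc h1.l h2)) (pr_norm (pr_subr 307 6000 (pr_scaleT 44 375 h1))))) (pr_add (pr_subr 264434451 100000000 (pr_scaleT 22910489 6250000 h1)) (pr_cmul (enc_norm (bf1q1_3.enc h1.l h2)) (pr_norm (pr_subr 507 10000 (pr_scaleT 73 625 h1)))))))⟩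
noncomputable def kf1q1_s : Sl2 kf1q1 := ⟨_, fun h1 h2 => (pr_norm (pr_mul (cv1m_s.snd h1) (bf1q1_s.snd h1 h2)))⟩
noncomputable def bx1q1_s : Sl2 bx1q1 := ⟨_, fun h1 h2 => (pr_norm (pr_case (pr_subr 7 8 h1) (pr_add (pr_addc (pr_scaleT 4818101 37500000 h1) (enc_rat _ 27299191 300000000)) (pr_cmul (enc_norm (bx1q1_3.enc h1.l h2)) (pr_norm (pr_subr 7313 30000 (pr_scaleT 3557 3750 h1))))) (pr_add (pr_addc (pr_scaleT 1587719 12500000 h1) (enc_rat _ 9227933 100000000)) (pr_cmul (enc_norm (bx1q1_3.enc h1.l h2)) (pr_norm (pr_subr 2419 10000 (pr_scaleT 1183 1250 h1)))))))⟩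
noncomputable def l1q1_s : Sl2 l1q1 := ⟨_, fun h1 h2 => (pr_norm (pr_mul (cv1m_s.snd h1) (bx1q1_s.snd h1 h2)))⟩
noncomputable def bd1q1_s : Sl2 bd1q1 := ⟨_, fun h1 h2 => (pr_norm (pr_add (pr_subr 216487 625000 (pr_neg (pr_scaleT 49459747 5000000 h1))) (pr_cmul (enc_norm (enc_subr 38847 40000 h2)) (pr_norm (pr_csub (enc_rat _ 32 125) (pr_scaleT 179 500 h1))))))⟩
noncomputable def kc1q1_s : Sl2 kc1q1 := ⟨_, fun h1 h2 => (pr_norm (pr_mul (cv1m_s.snd h1) (bd1q1_s.snd h1 h2)))⟩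
noncomputable def cv1p_s : Sl1 cv1p := ⟨_, fun h1 => (pr_norm (pr_add (pr_scaleT 3 4 (c1g_s.snd h1)) (pr_scaleT 1 4 (pr_subr 1 2 (swg_s.snd h1)))))⟩
noncomputable def bf1q2_s : Sl2 bf1q2 := ⟨_, fun h1 h2 => (pr_norm (pr_case (pr_subr 107 100 h1) (pr_case (pr_subr 2071 2000 h1) (pr_case (pr_subr 521 512 h1) (pr_add (pr_csub (enc_rat _ 1771483 703125) (pr_scaleT 1068358 703125 h1)) (pr_cmul (enc_norm (bf1q2_3.enc h1.l h2)) (pr_norm (pr_csub (enc_rat _ 32 375) (pr_scaleT 32 375 h1))))) (pr_add (pr_csub (enc_rat _ 7225730839 2867500000) (pr_scaleT 5447762 3584375 h1)) (pr_cmul (enc_norm (bf1q2_3.enc h1.l h2)) (pr_norm (pr_csub (enc_rat _ 13624 143375) (pr_scaleT 544 5735 h1)))))) (pr_case (pr_subr 21 20 h1) (pr_add (pr_csub (enc_rat _ 1461155207 580000000) (pr_scaleT 2202909 1450000 h1)) (pr_cmul (enc_norm (bf1q2_3.enc h1.l h2)) (pr_norm (pr_csub (enc_rat _ 5199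 58000) (pr_scaleT 13 145 h1))))) (pr_add (pr_csub (enc_rat _ 100756133 40000000) (pr_scaleT 3037867 2000000 h1)) (pr_cmul (enc_norm (bf1q2_3.enc h1.l h2)) (pr_norm (pr_csub (enc_rat _ 381 4000) (pr_scaleT 19 200 h1))))))) (pr_case (pr_subr 231 200 h1) (pr_case (pr_subr 577 500 h1) (pr_add (pr_csub (enc_rat _ 352686432461 140000000000) (pr_scaleT 2126880423 1400000000 h1)) (pr_cmul (enc_norm (bf1q2_3.enc h1.l h2)) (pr_norm (pr_csub (enc_rat _ 3961231 42000000) (pr_scaleT 39533 420000 h1))))) (pr_add (pr_csub (enc_rat _ 251927497 100000000) (pr_scaleT 151927497 100000000 h1)) (pr_cmul (enc_norm (bf1q2_3.enc h1.l h2)) (pr_norm (pr_csub (enc_rat _ 929 10000) (pr_scaleT 929 10000 h1)))))) (pr_case (pr_subr 13 10 h1) (pr_add (pr_csub (enc_rat _ 73058652809 29000000000) (pr_scaleT 4405869593 2900000000 h1)) (pr_cmul (enc_norm (bf1q2_3.enc h1.l h2)) (pr_norm (pr_csub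 (enc_rat _ 8597 100000) (pr_scaleT 869 10000 h1))))) (pr_add (pr_csub (enc_rat _ 125964873 50000000) (pr_scaleT 949557 625000 h1)) (pr_cmul (enc_norm (bf1q2_3.enc h1.l h2)) (pr_norm (pr_csub (enc_rat _ 411 5000) (pr_scaleT 21 250 h1)))))))))⟩
noncomputable def kf1q2_s : Sl2 kf1q2 := ⟨_, fun h1 h2 => (pr_norm (pr_mul (cv1p_s.snd h1) (bf1q2_s.snd h1 h2)))⟩
noncomputable def bx1q2_s : Sl2 bx1q2 := ⟨_, fun h1 h2 => (pr_norm (pr_case (pr_subr 107 100 h1) (pr_case (pr_subr 2071 2000 h1) (pr_case (pr_subr 521 512 h1) (pr_add (pr_csub (enc_rat _ 6499504 3515625) (pr_scaleT 6499504 3515625 h1)) (pr_cmul (enc_norm (bx1q2_3.enc h1.l h2)) (pr_norm (pr_csub (enc_rat _ 78848 5625) (pr_scaleT 78848 5625 h1))))) (pr_add (pr_csub (enc_rat _ 215182081331 114700000000) (pr_scaleT 53782 28675 h1)) (pr_cmul (enc_norm (bx1q2_3.enc h1.l h2)) (pr_norm (pr_csub (enc_rat _ 86720667 11470000)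 (pr_scaleT 8800 1147 h1)))))) (pr_case (pr_subr 21 20 h1) (pr_add (pr_csub (enc_rat _ 5447622743 2900000000) (pr_scaleT 1361503 725000 h1)) (pr_cmul (enc_norm (bx1q2_3.enc h1.l h2)) (pr_norm (pr_csub (enc_rat _ 182751 290000) (pr_scaleT 142 145 h1))))) (pr_add (pr_csub (enc_rat _ 150714847 100000000) (pr_scaleT 381069 250000 h1)) (pr_cmul (enc_norm (bx1q2_3.enc h1.l h2)) (pr_norm (pr_subr 621 10000 (pr_neg (pr_scaleT 8 25 h1)))))))) (pr_case (pr_subr 231 200 h1) (pr_casec (pr_subr 577 500 h1) (pr_add (pr_csub (enc_rat _ 17440264229 12000000000) (pr_scaleT 176880247 120000000 h1)) (pr_cmul (enc_norm (bx1q2_3.enc h1.l h2)) (pr_norm (pr_subr 412747 1200000 (pr_neg (pr_scaleT 679 12000 h1)))))) (enc_sub (enc_neg (enc_rat _ 2476430229 10000000000)) (enc_scaleT 409253 1000000 (bx1q2_3.enc h1.l h2)))) (pr_case (pr_subr 13 10 h1) (pr_add (pr_subr 25415410797 14500000000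 (pr_scaleT 1889574629 1450000000 h1)) (pr_cmul (enc_norm (bx1q2_3.enc h1.l h2)) (pr_norm (pr_subr 1287029 1450000 (pr_scaleT 60053 145000 h1))))) (pr_add (pr_subr 17550501 10000000 (pr_scaleT 6524479 5000000 h1)) (pr_cmul (enc_norm (bx1q2_3.enc h1.l h2)) (pr_norm (pr_subr 1007 1000 (pr_scaleT 253 500 h1)))))))))⟩
noncomputable def l1q2_s : Sl2 l1q2 := ⟨_, fun h1 h2 => (pr_norm (pr_mul (cv1p_s.snd h1) (bx1q2_s.snd h1 h2)))⟩
noncomputable def bd1q2_s : Sl2 bd1q2 := ⟨_, fun h1 h2 => (pr_norm (pr_casec1 (pr_subr 577 500 h1) (enc_pnc _ 0) (pr_casec1 (pr_subr 231 200 h1) (enc_pnc _ 0) (pr_add (pr_csub (enc_rat _ 307461 230000000) (pr_scaleT 1331 1150000 h1)) (pr_cmul (enc_norm (enc_subr 38847 40000 h2)) (pr_norm (pr_csub (enc_rat _ 77 23000) (pr_scaleT 1 345 h1))))))))⟩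
noncomputable def kc1q2_s : Sl2 kc1q2 := ⟨_, fun h1 h2 => (pr_norm (pr_mul (cv1p_s.snd h1) (bd1q2_s.snd h1 h2)))⟩
noncomputable def cv1r_s : Sl1 cv1r := ⟨_, fun h1 => (pr_norm (pr_scaleT 1 4 (pr_subr 1 2 (swg_s.snd h1))))⟩
noncomputable def c3g_s : Sl1 c3g := ⟨_, fun h1 => (pr_sqrtg (pr_csub (enc_pnc _ 3) (pr_scaleT 3 4 (pr_sq h1))))⟩
noncomputable def kf1q3_s : Sl2 kf1q3 := ⟨_, fun h1 h2 => (pr_norm (pr_mulz (fun ht => cv1r_two (enc_two h1.r ht)) (cv1r_s.snd h1) (pr_norm (pr_case (pr_subr 987 500 h1) (pr_case (pr_subr 39 20 h1) (pr_case (pr_subr 193 100 h1) (pr_add (pr_subr 362163541 21500000 (pr_scaleT 93665007 10750000 h1)) (pr_cmul (enc_norm (kf1q3_4.enc h1.l h2)) (pr_norm (pr_csub (enc_rat _ 3 2150) (pr_scaleT 1 1075 h1))))) (pr_subc (pr_subr 421119243 25000000 (pr_scaleT 8713 1000 h1)) (enc_scaleT 1 2500 (kf1q3_4.enc h1.l h2)))) (pr_case (pr_subr 3929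 2000 h1) (pr_add (pr_subr 6106305561 362500000 (pr_scaleT 12634007 1450000 h1)) (pr_cmul (enc_norm (kf1q3_4.enc h1.l h2)) (pr_norm (pr_csub (enc_rat _ 473 36250) (pr_scaleT 1 145 h1))))) (pr_subc (pr_subr 6400736867 380000000 (pr_scaleT 8277 950 h1)) (kf1q3_51.enc h1.l h2)))) (pr_case (pr_csub (enc_rat _ 154764337 1000000000) (c3g_s.snd h1)) (pr_case (pr_subr 1015 512 h1) (pr_subc (pr_subr 25941021661 1540000000 (pr_scaleT 117408 13475 h1)) (kf1q3_51.enc h1.l h2)) (pr_add (pr_subr 11444517891967 30355180000000 (pr_scaleT 37329750 10624313 (c3g_s.snd h1))) (pr_cmul (enc_norm (kf1q3_4.enc h1.l h2)) (pr_norm (pr_subr 174291833 21248626000 (pr_scaleT 2500000 74370191 (c3g_s.snd h1))))))) (pr_case (pr_csub (enc_rat _ 105307799 1000000000) (c3g_s.snd h1)) (pr_add (pr_subr 466182425304819 1236413450000000 (pr_scaleT 86889440 24728269 (c3g_s.snd h1))) (pr_cmul (enc_norm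 (kf1q3_4.enc h1.l h2)) (pr_norm (pr_subr 989981383 123641345000 (pr_scaleT 800000 24728269 (c3g_s.snd h1)))))) (pr_case (pr_csub (enc_rat _ 54765409 1000000000) (c3g_s.snd h1)) (pr_add (pr_subr 1905613153943339 5054239000000000 (pr_scaleT 17758881 5054239 (c3g_s.snd h1))) (pr_cmul (enc_norm (kf1q3_4.enc h1.l h2)) (pr_norm (pr_subr 4115182523 505423900000 (pr_scaleT 170000 5054239 (c3g_s.snd h1)))))) (pr_add (pr_subr 37703433 100000000 (pr_scaleT 192428740 54765409 (c3g_s.snd h1))) (pr_cmul (enc_norm (kf1q3_4.enc h1.l h2)) (pr_norm (pr_subr 81 10000 (pr_scaleT 1800000 54765409 (c3g_s.snd h1)))))))))))))⟩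
noncomputable def l1q3_s : Sl2 l1q3 := ⟨_, fun h1 h2 => (pr_norm (pr_mulz (fun ht => cv1r_two (enc_two h1.r ht)) (cv1r_s.snd h1) (pr_norm (pr_case (pr_subr 987 500 h1) (pr_case (pr_subr 39 20 h1) (pr_case (pr_subr 193 100 h1) (pr_add (pr_subr 47191467 26875000 (pr_scaleT 7017081 5375000 h1)) (pr_cmul (enc_norm (l1q3_4.enc h1.l h2)) (pr_norm (pr_subr 5713 5375 (pr_scaleT 584 1075 h1))))) (pr_add (pr_subr 175617687 100000000 (pr_scaleT 261123 200000 h1)) (pr_cmul (enc_norm (l1q3_4.enc h1.l h2)) (pr_norm (pr_subr 10759 10000 (pr_scaleT 11 20 h1)))))) (pr_case (pr_subr 3929 2000 h1) (pr_add (pr_subr 2547051699 1450000000 (pr_scaleT 1893447 1450000 h1)) (pr_cmul (enc_norm (l1q3_4.enc h1.l h2)) (pr_norm (pr_subr 154543 145000 (pr_scaleT 79 145 h1))))) (pr_add (pr_subr 1666979663 950000000 (pr_scaleT 1239629 950000 h1)) (pr_cmul (enc_norm (l1q3_4.enc h1.l h2)) (pr_norm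 (pr_subr 103691 95000 (pr_scaleT 53 95 h1))))))) (pr_case (pr_csub (enc_rat _ 154764337 1000000000) (c3g_s.snd h1)) (pr_case (pr_subr 1015 512 h1) (pr_add (pr_subr 6762247183 3850000000 (pr_scaleT 2199356 1684375 h1)) (pr_cmul (enc_norm (l1q3_4.enc h1.l h2)) (pr_norm (pr_subr 411331 385000 (pr_scaleT 1472 2695 h1))))) (pr_add (pr_csub (enc_rat _ 114309283495929 132803912500000) (pr_scaleT 9294840 74370191 (c3g_s.snd h1))) (pr_cmul (enc_norm (l1q3_4.enc h1.l h2)) (pr_norm (pr_subr 338100111 6640195625 (pr_scaleT 21200000 74370191 (c3g_s.snd h1))))))) (pr_case (pr_csub (enc_rat _ 105307799 1000000000) (c3g_s.snd h1)) (pr_add (pr_csub (enc_rat _ 1064183423184087 1236413450000000) (pr_scaleT 3084900 24728269 (c3g_s.snd h1))) (pr_cmul (enc_norm (l1q3_4.enc h1.l h2)) (pr_norm (pr_subr 6257512941 123641345000 (pr_scaleT 7000000 24728269 (c3g_s.snd h1)))))) (pr_case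 (pr_csub (enc_rat _ 54765409 1000000000) (c3g_s.snd h1)) (pr_add (pr_csub (enc_rat _ 174009786198233 202169560000000) (pr_scaleT 631015 5054239 (c3g_s.snd h1))) (pr_cmul (enc_norm (l1q3_4.enc h1.l h2)) (pr_norm (pr_subr 1031297919 20216956000 (pr_scaleT 1450000 5054239 (c3g_s.snd h1)))))) (pr_add (pr_csub (enc_rat _ 86071563 100000000) (pr_scaleT 6840920 54765409 (c3g_s.snd h1))) (pr_cmul (enc_norm (l1q3_4.enc h1.l h2)) (pr_norm (pr_subr 509 10000 (pr_scaleT 15600000 54765409 (c3g_s.snd h1)))))))))))))⟩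
noncomputable def kc1q3_s : Sl2 kc1q3 := ⟨_, fun h1 h2 => (pr_norm (pr_mulz (fun ht => cv1r_two (enc_two h1.r ht)) (cv1r_s.snd h1) (pr_norm (pr_casec1 (pr_subr 1015 512 h1) (enc_sub (enc_neg (enc_rat _ 3993 10000000)) (enc_scaleT 1 1000 (kc1q3_4.enc h1.l h2))) (pr_add (pr_csub (enc_rat _ 25074063 10000000) (pr_scaleT 26122975 2386818 (c3g_s.snd h1))) (pr_cmul (enc_norm (kc1q3_4.enc h1.l h2)) (pr_norm (pr_subr 9 1000 (pr_scaleT 125000 3580227 (c3g_s.snd h1))))))))))⟩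
noncomputable def cv2m_s : Sl1 cv2m := ⟨_, fun h1 => (pr_norm (pr_add (pr_scaleT 7 20 (c1g_s.snd h1)) (pr_scaleT 13 20 (pr_addc (swg_s.snd h1) (enc_rat _ 1 2)))))⟩
noncomputable def bf2q0_s : Sl2 bf2q0 := ⟨_, fun h1 h2 => (pr_norm (pr_case (pr_subr 71 2000 h1) (pr_case (pr_subr 29 2000 h1) (pr_case (pr_subr 1 200 h1) (pr_add (pr_csub (enc_pnc _ 1) (pr_scaleT 475659 250000 h1)) (pr_cmul (enc_norm (bf2q0_3.enc h1.l h2)) (pr_nd (pr_scaleT 237 25 h1)))) (pr_case (pr_subr 21 2000 h1) (pr_add (pr_csub (enc_rat _ 549260951 550000000) (pr_scaleT 11233 6875 h1)) (pr_cmul (enc_norm (bf2q0_3.enc h1.l h2)) (pr_norm (pr_addc (pr_scaleT 104 11 h1) (enc_rat _ 7 55000))))) (pr_add (pr_csub (enc_rat _ 163526081 160000000) (pr_scaleT 1544289 400000 h1)) (pr_cmul (enc_norm (bf2q0_3.enc h1.l h2)) (pr_norm (pr_csub (enc_rat _ 8617 16000) (pr_scaleT 1673 40 h1))))))) (pr_case (pr_subr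 9 512 h1) (pr_add (pr_csub (enc_rat _ 20133782493 19700000000) (pr_scaleT 2375968 615625 h1)) (pr_cmul (enc_norm (bf2q0_3.enc h1.l h2)) (pr_norm (pr_csub (enc_rat _ 1061501 1970000) (pr_scaleT 41216 985 h1))))) (pr_case (pr_subr 1 40 h1) (pr_add (pr_csub (enc_rat _ 970916343 950000000) (pr_scaleT 1145734 296875 h1)) (pr_cmul (enc_norm (bf2q0_3.enc h1.l h2)) (pr_norm (pr_csub (enc_rat _ 50951 95000) (pr_scaleT 19808 475 h1))))) (pr_add (pr_csub (enc_rat _ 89428961 87500000) (pr_scaleT 1351153 350000 h1)) (pr_cmul (enc_norm (bf2q0_3.enc h1.l h2)) (pr_norm (pr_csub (enc_rat _ 13981 26250) (pr_scaleT 4363 105 h1)))))))) (pr_case (pr_subr 1 10 h1) (pr_case (pr_subr 1 20 h1) (pr_add (pr_csub (enc_rat _ 740952949 725000000) (pr_scaleT 5595951 1450000 h1)) (pr_cmul (enc_norm (bf2q0_3.enc h1.l h2)) (pr_norm (pr_csub (enc_rat _ 38293 72500) (pr_scaleT 6007 145 h1)))))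 (pr_case (pr_subr 7 100 h1) (pr_add (pr_csub (enc_rat _ 102204369 100000000) (pr_scaleT 3860069 1000000 h1)) (pr_cmul (enc_norm (bf2q0_3.enc h1.l h2)) (pr_norm (pr_csub (enc_rat _ 5233 10000) (pr_scaleT 4133 100 h1))))) (pr_add (pr_csub (enc_rat _ 306607381 300000000) (pr_scaleT 11579389 3000000 h1)) (pr_cmul (enc_norm (bf2q0_3.enc h1.l h2)) (pr_norm (pr_csub (enc_rat _ 15517 30000) (pr_scaleT 12373 300 h1))))))) (pr_case (pr_subr 11 50 h1) (pr_case (pr_subr 3 20 h1) (pr_add (pr_csub (enc_rat _ 102204237 100000000) (pr_scaleT 1929987 500000 h1)) (pr_cmul (enc_norm (bf2q0_3.enc h1.l h2)) (pr_norm (pr_csub (enc_rat _ 5109 10000) (pr_scaleT 2059 50 h1))))) (pr_add (pr_csub (enc_rat _ 715424229 700000000) (pr_scaleT 422179 109375 h1)) (pr_cmul (enc_norm (bf2q0_3.enc h1.l h2)) (pr_norm (pr_csub (enc_rat _ 35253 70000) (pr_scaleT 7198 175 h1)))))) (pr_case (pr_subr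 33 100 h1) (pr_add (pr_csub (enc_rat _ 102204203 100000000) (pr_scaleT 964989 250000 h1)) (pr_cmul (enc_norm (bf2q0_3.enc h1.l h2)) (pr_norm (pr_csub (enc_rat _ 4971 10000) (pr_scaleT 11303 275 h1))))) (pr_add (pr_csub (enc_rat _ 868732277 850000000) (pr_scaleT 65619043 17000000 h1)) (pr_cmul (enc_norm (bf2q0_3.enc h1.l h2)) (pr_norm (pr_csub (enc_rat _ 41889 85000) (pr_scaleT 69851 1700 h1))))))))))⟩
noncomputable def kf2q0_s : Sl2 kf2q0 := ⟨_, fun h1 h2 => (pr_norm (pr_mul (cv2m_s.snd h1) (bf2q0_s.snd h1 h2)))⟩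
noncomputable def bx2q0_s : Sl2 bx2q0 := ⟨_, fun h1 h2 => (pr_norm (pr_case (pr_subr 71 2000 h1) (pr_case (pr_subr 29 2000 h1) (pr_case (pr_subr 1 200 h1) (pr_add (pr_scaleT 117951 125000 h1) (pr_cmul (enc_norm (bx2q0_3.enc h1.l h2)) (pr_nd (pr_scaleT 14 25 h1)))) (pr_case (pr_subr 21 2000 h1) (pr_add (pr_addc (pr_scaleT 493021 550000 h1) (enc_rat _ 129817 550000000)) (pr_cmul (enc_norm (bx2q0_3.enc h1.l h2)) (pr_norm (pr_csub (enc_rat _ 169 55000) (pr_scaleT 3 55 h1))))) (pr_add (pr_addc (pr_scaleT 82587 100000 h1) (enc_rat _ 195323 200000000)) (pr_cmul (enc_norm (bx2q0_3.enc h1.l h2)) (pr_norm (pr_subr 1189 20000 (pr_scaleT 59 10 h1))))))) (pr_case (pr_subr 9 512 h1) (pr_add (pr_addc (pr_scaleT 101138 123125 h1) (enc_rat _ 20508921 19700000000)) (pr_cmul (enc_norm (bx2q0_3.enc h1.l h2)) (pr_norm (pr_subr 101703 1970000 (pr_scaleT 1056 197 h1))))) (pr_case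 (pr_subr 1 40 h1) (pr_add (pr_addc (pr_scaleT 1244784 1484375 h1) (enc_rat _ 702351 950000000)) (pr_cmul (enc_norm (bx2q0_3.enc h1.l h2)) (pr_norm (pr_csub (enc_rat _ 5307 95000) (pr_scaleT 1792 2375 h1))))) (pr_add (pr_addc (pr_scaleT 114067 150000 h1) (enc_rat _ 20197 7500000)) (pr_cmul (enc_norm (bx2q0_3.enc h1.l h2)) (pr_norm (pr_csub (enc_rat _ 139 2625) (pr_scaleT 67 105 h1)))))))) (pr_case (pr_subr 1 10 h1) (pr_case (pr_subr 1 20 h1) (pr_add (pr_addc (pr_scaleT 536287 725000 h1) (enc_rat _ 9944737 2900000000)) (pr_cmul (enc_norm (bx2q0_3.enc h1.l h2)) (pr_norm (pr_csub (enc_rat _ 14609 290000) (pr_scaleT 82 145 h1))))) (pr_case (pr_subr 7 100 h1) (pr_add (pr_addc (pr_scaleT 1374707 2000000 h1) (enc_rat _ 1209371 200000000)) (pr_cmul (enc_norm (bx2q0_3.enc h1.l h2)) (pr_norm (pr_csub (enc_rat _ 947 20000) (pr_scaleT 101 200 h1))))) (pr_add (pr_addc (pr_scaleT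 1653959 3000000 h1) (enc_rat _ 4670767 300000000)) (pr_cmul (enc_norm (bx2q0_3.enc h1.l h2)) (pr_norm (pr_csub (enc_rat _ 1319 30000) (pr_scaleT 137 300 h1))))))) (pr_case (pr_subr 11 50 h1) (pr_case (pr_subr 3 20 h1) (pr_add (pr_addc (pr_scaleT 172747 500000 h1) (enc_rat _ 3615179 100000000)) (pr_cmul (enc_norm (bx2q0_3.enc h1.l h2)) (pr_norm (pr_csub (enc_rat _ 403 10000) (pr_scaleT 21 50 h1))))) (pr_add (pr_addc (pr_scaleT 1185967 7000000 h1) (enc_rat _ 21896809 350000000)) (pr_cmul (enc_norm (bx2q0_3.enc h1.l h2)) (pr_norm (pr_csub (enc_rat _ 1313 35000) (pr_scaleT 281 700 h1)))))) (pr_case (pr_subr 33 100 h1) (pr_add (pr_addc (pr_scaleT 218533 5500000 h1) (enc_rat _ 569339 6250000)) (pr_cmul (enc_norm (bx2q0_3.enc h1.l h2)) (pr_norm (pr_csub (enc_rat _ 23 625) (pr_scaleT 219 550 h1))))) (pr_add (pr_csub (enc_rat _ 239722567 1700000000) (pr_scaleT 1896121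 17000000 h1)) (pr_cmul (enc_norm (bx2q0_3.enc h1.l h2)) (pr_norm (pr_csub (enc_rat _ 407 10000) (pr_scaleT 41 100 h1))))))))))⟩
noncomputable def l2q0_s : Sl2 l2q0 := ⟨_, fun h1 h2 => (pr_norm (pr_mul (cv2m_s.snd h1) (bx2q0_s.snd h1 h2)))⟩
noncomputable def bd2q0_s : Sl2 bd2q0 := ⟨_, fun h1 h2 => (pr_norm (pr_case (pr_subr 9 512 h1) (pr_case (pr_subr 1 100 h1) (pr_sub (pr_neg (pr_scaleT 1632949 50000 h1)) (pr_cmul (enc_norm (bd2q0_3.enc h1.l h2)) (pr_nd (pr_scaleT 293 5 h1)))) (pr_add (pr_csub (enc_rat _ 157693931 485000000) (pr_scaleT 19755624 303125 h1)) (pr_cmul (enc_norm (bd2q0_3.enc h1.l h2)) (pr_norm (pr_subr 133 48500 (pr_neg (pr_scaleT 28288 485 h1))))))) (pr_case (pr_subr 581 20000 h1) (pr_add (pr_subr 1652533367 18355000000 (pr_neg (pr_scaleT 3813656 91775 h1))) (pr_cmul (enc_norm (bd2q0_3.enc h1.l h2)) (pr_norm (pr_subr 1915019 1835500 (pr_scaleT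 3200 3671 h1))))) (pr_case (pr_subr 71 2000 h1) (pr_add (pr_subr 38560759 430000000 (pr_neg (pr_scaleT 893683 21500 h1))) (pr_cmul (enc_norm (bd2q0_3.enc h1.l h2)) (pr_norm (pr_subr 135389 129000 (pr_scaleT 140 129 h1))))) (pr_add (pr_subr 836110429 9290000000 (pr_neg (pr_scaleT 96517289 2322500 h1))) (pr_cmul (enc_norm (bd2q0_3.enc h1.l h2)) (pr_norm (pr_subr 985653 929000 (pr_scaleT 1308 929 h1)))))))))⟩
noncomputable def kc2q0_s : Sl2 kc2q0 := ⟨_, fun h1 h2 => (pr_norm (pr_mul (cv2m_s.snd h1) (bd2q0_s.snd h1 h2)))⟩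
noncomputable def bf2q1_s : Sl2 bf2q1 := ⟨_, fun h1 h2 => (pr_norm (pr_case (pr_subr 7 8 h1) (pr_add (pr_csub (enc_rat _ 351476489 300000000) (pr_scaleT 3670111 4687500 h1)) (pr_cmul (enc_norm (bf2q1_3.enc h1.l h2)) (pr_norm (pr_csub (enc_rat _ 73 30000) (pr_scaleT 8 1875 h1))))) (pr_add (pr_csub (enc_rat _ 117158797 100000000) (pr_scaleT 4893479 6250000 h1)) (pr_cmul (enc_norm (bf2q1_3.enc h1.l h2)) (pr_norm (pr_csub (enc_rat _ 29 10000) (pr_scaleT 3 625 h1)))))))⟩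
noncomputable def kf2q1_s : Sl2 kf2q1 := ⟨_, fun h1 h2 => (pr_norm (pr_mul (cv2m_s.snd h1) (bf2q1_s.snd h1 h2)))⟩
noncomputable def bx2q1_s : Sl2 bx2q1 := ⟨_, fun h1 h2 => (pr_norm (pr_case (pr_subr 7 8 h1) (pr_add (pr_csub (enc_rat _ 43327919 300000000) (pr_scaleT 1109651 9375000 h1)) (pr_cmul (enc_norm (bx2q1_3.enc h1.l h2)) (pr_norm (pr_csub (enc_rat _ 1583 30000) (pr_scaleT 814 1875 h1))))) (pr_add (pr_csub (enc_rat _ 7226851 50000000) (pr_scaleT 296223 2500000 h1)) (pr_cmul (enc_norm (bx2q1_3.enc h1.l h2)) (pr_norm (pr_csub (enc_rat _ 307 5000) (pr_scaleT 111 250 h1)))))))⟩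
noncomputable def l2q1_s : Sl2 l2q1 := ⟨_, fun h1 h2 => (pr_norm (pr_mul (cv2m_s.snd h1) (bx2q1_s.snd h1 h2)))⟩
noncomputable def bd2q1_s : Sl2 bd2q1 := ⟨_, fun h1 h2 => (pr_norm (pr_add (pr_subr 22489 250000 (pr_neg (pr_scaleT 207787941 5000000 h1))) (pr_cmul (enc_norm (enc_subr 38847 40000 h2)) (pr_norm (pr_subr 23 25 (pr_scaleT 563 500 h1))))))⟩
noncomputable def kc2q1_s : Sl2 kc2q1 := ⟨_, fun h1 h2 => (pr_norm (pr_mul (cv2m_s.snd h1) (bd2q1_s.snd h1 h2)))⟩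
noncomputable def cv2p_s : Sl1 cv2p := ⟨_, fun h1 => (pr_norm (pr_add (pr_scaleT 7 20 (c1g_s.snd h1)) (pr_scaleT 13 20 (pr_subr 1 2 (swg_s.snd h1)))))⟩
noncomputable def bf2q2_s : Sl2 bf2q2 := ⟨_, fun h1 h2 => (pr_norm (pr_case (pr_subr 21 20 h1) (pr_case (pr_subr 521 512 h1) (pr_add (pr_subr 1118389 3515625 (pr_scaleT 4634014 3515625 h1)) (pr_cmul (enc_norm (bf2q2_3.enc h1.l h2)) (pr_norm (pr_csub (enc_rat _ 32 5625) (pr_scaleT 32 5625 h1))))) (pr_case (pr_subr 2071 2000 h1) (pr_add (pr_subr 18234049423 57350000000 (pr_scaleT 4724014 3584375 h1)) (pr_cmul (enc_norm (bf2q2_3.enc h1.l h2)) (pr_norm (pr_csub (enc_rat _ 31989 5735000) (pr_scaleT 32 5735 h1))))) (pr_add (pr_subr 922004091 2900000000 (pr_scaleT 1911007 1450000 h1)) (pr_cmul (enc_norm (bf2q2_3.enc h1.l h2)) (pr_norm (pr_csub (enc_rat _ 2013 290000) (pr_scaleT 1 145 h1))))))) (pr_case (pr_subr 231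 200 h1) (pr_case (pr_subr 107 100 h1) (pr_subc (pr_subr 31799979 100000000 (pr_scaleT 659 500 h1)) (enc_scaleT 3 10000 (bf2q2_3.enc h1.l h2))) (pr_add (pr_subr 31787567 100000000 (pr_scaleT 329471 250000 h1)) (pr_cmul (enc_norm (bf2q2_3.enc h1.l h2)) (pr_norm (pr_csub (enc_rat _ 377 170000) (pr_scaleT 1 425 h1)))))) (pr_case (pr_subr 13 10 h1) (pr_add (pr_subr 230442709 725000000 (pr_scaleT 19109021 14500000 h1)) (pr_cmul (enc_norm (bf2q2_3.enc h1.l h2)) (pr_norm (pr_csub (enc_rat _ 137 72500) (pr_scaleT 3 1450 h1))))) (pr_add (pr_subr 15898313 50000000 (pr_scaleT 6589757 5000000 h1)) (pr_cmul (enc_norm (bf2q2_3.enc h1.l h2)) (pr_norm (pr_csub (enc_rat _ 9 5000) (pr_scaleT 1 500 h1)))))))))⟩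
noncomputable def kf2q2_s : Sl2 kf2q2 := ⟨_, fun h1 h2 => (pr_norm (pr_mul (cv2p_s.snd h1) (bf2q2_s.snd h1 h2)))⟩
noncomputable def bx2q2_s : Sl2 bx2q2 := ⟨_, fun h1 h2 => (pr_norm (pr_case (pr_subr 21 20 h1) (pr_case (pr_subr 521 512 h1) (pr_add (pr_csub (enc_rat _ 2584658 3515625) (pr_scaleT 2584658 3515625 h1)) (pr_cmul (enc_norm (bx2q2_3.enc h1.l h2)) (pr_norm (pr_subr 1504 5625 (pr_scaleT 1504 5625 h1))))) (pr_case (pr_subr 2071 2000 h1) (pr_add (pr_csub (enc_rat _ 81578514387 114700000000) (pr_scaleT 2550812 3584375 h1)) (pr_cmul (enc_norm (bx2q2_3.enc h1.l h2)) (pr_norm (pr_subr 3723341 11470000 (pr_scaleT 1856 5735 h1))))) (pr_add (pr_csub (enc_rat _ 1999360529 2900000000) (pr_scaleT 250341 362500 h1)) (pr_cmul (enc_norm (bx2q2_3.enc h1.l h2)) (pr_norm (pr_subr 104647 290000 (pr_scaleT 52 145 h1))))))) (pr_case (pr_subr 231 200 h1) (pr_case (pr_subr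 107 100 h1) (pr_add (pr_csub (enc_rat _ 132359867 200000000) (pr_scaleT 1328553 2000000 h1)) (pr_cmul (enc_norm (bx2q2_3.enc h1.l h2)) (pr_norm (pr_subr 7981 20000 (pr_scaleT 79 200 h1))))) (pr_add (pr_csub (enc_rat _ 556670837 850000000) (pr_scaleT 5591597 8500000 h1)) (pr_cmul (enc_norm (bx2q2_3.enc h1.l h2)) (pr_norm (pr_subr 37691 85000 (pr_scaleT 371 850 h1)))))) (pr_case (pr_subr 13 10 h1) (pr_add (pr_subr 4343688917 2900000000 (pr_scaleT 2185877 1812500 h1)) (pr_cmul (enc_norm (bx2q2_3.enc h1.l h2)) (pr_norm (pr_subr 146869 290000 (pr_scaleT 356 725 h1))))) (pr_add (pr_subr 79855433 50000000 (pr_scaleT 12823741 10000000 h1)) (pr_cmul (enc_norm (bx2q2_3.enc h1.l h2)) (pr_norm (pr_subr 2831 5000 (pr_scaleT 537 1000 h1)))))))))⟩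
noncomputable def l2q2_s : Sl2 l2q2 := ⟨_, fun h1 h2 => (pr_norm (pr_mul (cv2p_s.snd h1) (bx2q2_s.snd h1 h2)))⟩
noncomputable def bd2q2_s : Sl2 bd2q2 := ⟨_, fun h1 h2 => (pr_norm (pr_case (pr_subr 231 200 h1) (pr_add (pr_subr 13157193 310000 (pr_scaleT 13157193 310000 h1)) (pr_cmul (enc_norm (bd2q2_3.enc h1.l h2)) (pr_norm (pr_subr 1 31 (pr_scaleT 1 31 h1))))) (pr_add (pr_subr 9761943947 230000000 (pr_scaleT 73214423 1725000 h1)) (pr_cmul (enc_norm (bd2q2_3.enc h1.l h2)) (pr_norm (pr_subr 1579 23000 (pr_scaleT 22 345 h1)))))))⟩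
noncomputable def kc2q2_s : Sl2 kc2q2 := ⟨_, fun h1 h2 => (pr_norm (pr_mul (cv2p_s.snd h1) (bd2q2_s.snd h1 h2)))⟩
noncomputable def cv2r_s : Sl1 cv2r := ⟨_, fun h1 => (pr_norm (pr_scaleT 13 20 (pr_subr 1 2 (swg_s.snd h1))))⟩
noncomputable def kf2q3_s : Sl2 kf2q3 := ⟨_, fun h1 h2 => (pr_norm (pr_mulz (fun ht => cv2r_two (enc_two h1.r ht)) (cv2r_s.snd h1) (pr_norm (pr_case (pr_subr 987 500 h1) (pr_case (pr_subr 39 20 h1) (pr_case (pr_subr 193 100 h1) (pr_add (pr_csub (enc_rat _ 4210818509 4300000000) (pr_scaleT 27295597 43000000 h1)) (pr_cmul (enc_norm (kf2q3_4.enc h1.l h2)) (pr_norm (pr_csub (enc_rat _ 8526213 430000) (pr_scaleT 56629 4300 h1))))) (pr_add (pr_csub (enc_rat _ 49010549 50000000) (pr_scaleT 317637 500000 h1)) (pr_cmul (enc_norm (kf2q3_4.enc h1.l h2)) (pr_norm (pr_csub (enc_rat _ 99243 5000) (pr_scaleT 659 50 h1)))))) (pr_case (pr_subr 3929 2000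 h1) (pr_add (pr_csub (enc_rat _ 354576559 362500000) (pr_scaleT 919609 1450000 h1)) (pr_cmul (enc_norm (kf2q3_4.enc h1.l h2)) (pr_norm (pr_csub (enc_rat _ 360219 18125) (pr_scaleT 1913 145 h1))))) (pr_add (pr_csub (enc_rat _ 930662431 950000000) (pr_scaleT 603229 950000 h1)) (pr_cmul (enc_norm (kf2q3_4.enc h1.l h2)) (pr_norm (pr_csub (enc_rat _ 1887367 95000) (pr_scaleT 1253 95 h1))))))) (pr_case (pr_csub (enc_rat _ 154764337 1000000000) (c3g_s.snd h1)) (pr_case (pr_subr 1015 512 h1) (pr_add (pr_csub (enc_rat _ 3766628639 3850000000) (pr_scaleT 1068432 1684375 h1)) (pr_cmul (enc_norm (kf2q3_4.enc h1.l h2)) (pr_norm (pr_csub (enc_rat _ 7659623 385000) (pr_scaleT 35584 2695 h1))))) (pr_add (pr_subr 250578196202209 531215650000000 (pr_scaleT 62500250 74370191 (c3g_s.snd h1))) (pr_cmul (enc_norm (kf2q3_4.enc h1.l h2)) (pr_norm (pr_subr 127802146113 53121565000 (pr_neg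 (pr_scaleT 1257500000 74370191 (c3g_s.snd h1)))))))) (pr_case (pr_csub (enc_rat _ 105307799 1000000000) (c3g_s.snd h1)) (pr_add (pr_subr 93317945458041 197826152000000 (pr_scaleT 20783055 24728269 (c3g_s.snd h1))) (pr_cmul (enc_norm (kf2q3_4.enc h1.l h2)) (pr_norm (pr_subr 47528469617 19782615200 (pr_neg (pr_scaleT 418650000 24728269 (c3g_s.snd h1))))))) (pr_case (pr_csub (enc_rat _ 54765409 1000000000) (c3g_s.snd h1)) (pr_add (pr_subr 2384597113001253 5054239000000000 (pr_scaleT 4251927 5054239 (c3g_s.snd h1))) (pr_cmul (enc_norm (kf2q3_4.enc h1.l h2)) (pr_norm (pr_subr 1213861123821 505423900000 (pr_neg (pr_scaleT 85610000 5054239 (c3g_s.snd h1))))))) (pr_add (pr_subr 5900861 12500000 (pr_scaleT 46339390 54765409 (c3g_s.snd h1))) (pr_cmul (enc_norm (kf2q3_4.enc h1.l h2)) (pr_norm (pr_subr 1501 625 (pr_neg (pr_scaleT 927700000 54765409 (c3g_s.snd h1))))))))))))))⟩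
noncomputable def l2q3_s : Sl2 l2q3 := ⟨_, fun h1 h2 => (pr_norm (pr_mulz (fun ht => cv2r_two (enc_two h1.r ht)) (cv2r_s.snd h1) (pr_norm (pr_case (pr_subr 987 500 h1) (pr_case (pr_subr 39 20 h1) (pr_case (pr_subr 193 100 h1) (pr_add (pr_subr 7120970893 4300000000 (pr_scaleT 14207861 10750000 h1)) (pr_cmul (enc_norm (l2q3_4.enc h1.l h2)) (pr_norm (pr_subr 273301 430000 (pr_scaleT 627 1075 h1))))) (pr_add (pr_subr 68705969 40000000 (pr_scaleT 2707167 2000000 h1)) (pr_cmul (enc_norm (l2q3_4.enc h1.l h2)) (pr_norm (pr_subr 2633 4000 (pr_scaleT 119 200 h1)))))) (pr_case (pr_subr 3929 2000 h1) (pr_add (pr_subr 8073739 4531250 (pr_scaleT 2010391 1450000 h1)) (pr_cmul (enc_norm (l2q3_4.enc h1.l h2)) (pr_norm (pr_subr 167 250 (pr_scaleT 3 5 h1))))) (pr_add (pr_subr 3508935057 1900000000 (pr_scaleT 674297 475000 h1)) (pr_cmul (enc_norm (l2q3_4.enc h1.l h2)) (pr_norm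 (pr_subr 130849 190000 (pr_scaleT 58 95 h1))))))) (pr_case (pr_csub (enc_rat _ 154764337 1000000000) (c3g_s.snd h1)) (pr_case (pr_subr 1015 512 h1) (pr_add (pr_subr 14312279463 7700000000 (pr_scaleT 2401272 1684375 h1)) (pr_cmul (enc_norm (l2q3_4.enc h1.l h2)) (pr_norm (pr_subr 540791 770000 (pr_scaleT 1664 2695 h1))))) (pr_add (pr_csub (enc_rat _ 1027953056612721 1062431300000000) (pr_scaleT 36670 74370191 (c3g_s.snd h1))) (pr_cmul (enc_norm (l2q3_4.enc h1.l h2)) (pr_norm (pr_csub (enc_rat _ 75689079897 106243130000) (pr_scaleT 61900000 74370191 (c3g_s.snd h1))))))) (pr_case (pr_csub (enc_rat _ 105307799 1000000000) (c3g_s.snd h1)) (pr_add (pr_addc (pr_scaleT 79370 24728269 (c3g_s.snd h1)) (enc_rat _ 2391161136184043 2472826900000000)) (pr_cmul (enc_norm (l2q3_4.enc h1.l h2)) (pr_norm (pr_addc (pr_scaleT 50900000 24728269 (c3g_s.snd h1)) (enc_rat _ 65539130351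 247282690000))))) (pr_case (pr_csub (enc_rat _ 54765409 1000000000) (c3g_s.snd h1)) (pr_add (pr_csub (enc_rat _ 2453118850954127 2527119500000000) (pr_scaleT 163406 5054239 (c3g_s.snd h1))) (pr_cmul (enc_norm (l2q3_4.enc h1.l h2)) (pr_norm (pr_addc (pr_scaleT 10580000 5054239 (c3g_s.snd h1)) (enc_rat _ 66048791839 252711950000))))) (pr_add (pr_csub (enc_rat _ 12147711 12500000) (pr_scaleT 2870080 54765409 (c3g_s.snd h1))) (pr_cmul (enc_norm (l2q3_4.enc h1.l h2)) (pr_norm (pr_addc (pr_scaleT 114400000 54765409 (c3g_s.snd h1)) (enc_rat _ 327 1250))))))))))))⟩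
noncomputable def kc2q3_s : Sl2 kc2q3 := ⟨_, fun h1 h2 => (pr_norm (pr_mulz (fun ht => cv2r_two (enc_two h1.r ht)) (cv2r_s.snd h1) (pr_norm (pr_case (pr_subr 197 100 h1) (pr_case (pr_subr 3929 2000 h1) (pr_add (pr_subr 394306844581 9290000000 (pr_scaleT 49287867 1161250 h1)) (pr_cmul (enc_norm (kc2q3_4.enc h1.l h2)) (pr_norm (pr_subr 202917 929000 (pr_scaleT 152 929 h1))))) (pr_add (pr_subr 186688077 4400000 (pr_scaleT 1166993 27500 h1)) (pr_cmul (enc_norm (kc2q3_4.enc h1.l h2)) (pr_norm (pr_subr 269 440 (pr_scaleT 4 11 h1)))))) (pr_case (pr_subr 1015 512 h1) (pr_add (pr_subr 4500182887 106000000 (pr_scaleT 1406124 33125 h1)) (pr_cmul (enc_norm (kc2q3_4.enc h1.l h2)) (pr_norm (pr_subr 21877 31800 (pr_scaleT 64 159 h1))))) (pr_add (pr_addc (pr_scaleT 253516775 1591212 (c3g_s.snd h1)) (enc_rat _ 25954537 5000000)) (pr_cmul (enc_norm (kc2q3_4.enc h1.l h2)) (pr_norm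 (pr_subr 337791 500 (pr_scaleT 10557687500 3580227 (c3g_s.snd h1)))))))))))⟩
noncomputable def cv3m_s : Sl1 cv3m := ⟨_, fun h1 => (pr_norm (pr_add (pr_scaleT 1929 2000 (pr_addc (swg_s.snd h1) (enc_rat _ 1 2))) (pr_scaleT 71 2000 (c3g_s.snd h1))))⟩
noncomputable def esg_s : Sl1 esg := ⟨_, fun h1 => (pr_norm (pr_subn 1 (pr_add (pr_half h1) (gsg_s.snd h1))))⟩
noncomputable def kf3q0_142_s : Sl2 kf3q0_142 := ⟨_, fun h1 h2 => (pr_csub (enc_pnc _ 1) h1)⟩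
noncomputable def kf3q0_143_s : Sl2 kf3q0_143 := ⟨_, fun h1 h2 => (gsg_s.snd (pr_norm (kf3q0_142_s.snd h1 h2)))⟩
noncomputable def kf3q0_146_s : Sl2 kf3q0_146 := ⟨_, fun h1 h2 => (pr_sub (pr_scaleT 3 4 (kf3q0_142_s.snd h1 h2)) (pr_half (kf3q0_143_s.snd h1 h2)))⟩
noncomputable def kf3q0_147_s : Sl2 kf3q0_147 := ⟨_, fun h1 h2 => (esg_s.snd (pr_norm (kf3q0_142_s.snd h1 h2)))⟩
noncomputable def kf3q0_148_s : Sl2 kf3q0_148 := ⟨_, fun h1 h2 => (kcg_s.snd (pr_norm (kf3q0_146_s.snd h1 h2)) h2)⟩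
noncomputable def kf3q0_156_s : Sl2 kf3q0_156 := ⟨_, fun h1 h2 => (pr_sub (kf3q0_146_s.snd h1 h2) (pr_csub (enc_rat _ 1 4) (pr_scaleT 3 8 (pr_mul (pr_norm (kf3q0_142_s.snd h1 h2)) (pr_nd (pr_inv (kf3q0_143_s.snd h1 h2)))))))⟩
noncomputable def kf3q0_165_s : Sl2 kf3q0_165 := ⟨_, fun h1 h2 => (pr_mul (cv2m_s.snd h1) (bf2q0_s.snd h1 h2))⟩
noncomputable def kf3q0_s : Sl2 kf3q0 := ⟨_, fun h1 h2 => (pr_norm (pr_case (pr_subr 9 512 h1) (pr_mul (cv3m_s.snd h1) (pr_norm (pr_case (pr_subr 21 2000 h1) (pr_case (pr_subr 1 200 h1) (pr_add (pr_csub (enc_rat _ 12065481 12500000) (pr_scaleT 3015709 500000 h1)) (pr_cmul (enc_norm (kf3q0_4.enc h1.l h2)) (pr_norm (pr_addc (pr_scaleT 1387 50 h1) (enc_rat _ 46 625))))) (pr_add (pr_csub (enc_rat _ 1061756209 1100000000) (pr_scaleT 829167 137500 h1)) (pr_cmul (enc_norm (kf3q0_4.enc h1.l h2)) (pr_norm (pr_addc (pr_scaleT 1524 55 h1)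 (enc_rat _ 8113 110000)))))) (pr_case (pr_subr 29 2000 h1) (pr_add (pr_csub (enc_rat _ 97299257 100000000) (pr_scaleT 169233 25000 h1)) (pr_cmul (enc_norm (kf3q0_4.enc h1.l h2)) (pr_norm (pr_addc (pr_scaleT 138 5 h1) (enc_rat _ 749 10000))))) (pr_add (pr_csub (enc_rat _ 479209381819 492500000000) (pr_scaleT 208413567 30781250 h1)) (pr_cmul (enc_norm (kf3q0_4.enc h1.l h2)) (pr_norm (pr_addc (pr_scaleT 84795144 3078125 h1) (enc_rat _ 465775199 6156250000))))))))) (pr_case (pr_subr 71 2000 h1) (pr_add (kf3q0_165_s.snd h1 h2) (pr_mul (pr_norm (pr_mul (pr_norm (pr_sub (pr_wB0 (pr_mul h1 (pr_norm (pr_sub (pr_mul (pr_norm (kf3q0_156_s.snd h1 h2)) (pr_nd (pr_inv (kf3q0_147_s.snd h1 h2)))) (kf3q0_148_s.snd h1 h2)))) (kf3q0_142_s.snd h1 h2) (kf3q0_143_s.snd h1 h2) (kf3q0_147_s.snd h1 h2) h1 (kf3q0_156_s.snd h1 h2) (kf3q0_148_s.snd h1 h2) rfl rfl rfl rfl rfl rfl rfl rfl)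 (kf3q0_165_s.snd h1 h2))) (pr_norm (pr_sub (cv3m_s.snd h1) (cv2m_s.snd h1))))) (pr_nd (pr_inv (pr_sub (pr_addc (swg_s.snd h1) (enc_rat _ 1 2)) (cv2m_s.snd h1)))))) (pr_mul (cv3m_s.snd h1) (pr_norm (pr_case (pr_subr 1 10 h1) (pr_case (pr_subr 1 20 h1) (pr_add (pr_csub (enc_rat _ 56033619 50000000) (pr_scaleT 19625111 2500000 h1)) (pr_cmul (enc_norm (kf3q0_4.enc h1.l h2)) (pr_norm (pr_csub (enc_rat _ 399740243 290000000) (pr_scaleT 60092243 14500000 h1))))) (pr_case (pr_subr 7 100 h1) (pr_add (pr_csub (enc_rat _ 224135017 200000000) (pr_scaleT 15700197 2000000 h1)) (pr_cmul (enc_norm (kf3q0_4.enc h1.l h2)) (pr_norm (pr_csub (enc_rat _ 27569 20000) (pr_scaleT 829 200 h1))))) (pr_add (pr_csub (enc_rat _ 336195599 300000000) (pr_scaleT 11774653 1500000 h1)) (pr_cmul (enc_norm (kf3q0_4.enc h1.l h2)) (pr_norm (pr_csub (enc_rat _ 13781 10000) (pr_scaleT 207 50 h1)))))))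 (pr_case (pr_subr 11 50 h1) (pr_case (pr_subr 3 20 h1) (pr_add (pr_csub (enc_rat _ 112068547 100000000) (pr_scaleT 39250517 5000000 h1)) (pr_cmul (enc_norm (kf3q0_4.enc h1.l h2)) (pr_norm (pr_csub (enc_rat _ 13779 10000) (pr_scaleT 2069 500 h1))))) (pr_add (pr_csub (enc_rat _ 784450207 700000000) (pr_scaleT 54948749 7000000 h1)) (pr_cmul (enc_norm (kf3q0_4.enc h1.l h2)) (pr_norm (pr_csub (enc_rat _ 96399 70000) (pr_scaleT 2893 700 h1)))))) (pr_case (pr_subr 33 100 h1) (pr_add (pr_csub (enc_rat _ 112066701 100000000) (pr_scaleT 86349227 11000000 h1)) (pr_cmul (enc_norm (kf3q0_4.enc h1.l h2)) (pr_norm (pr_csub (enc_rat _ 13757 10000) (pr_scaleT 4539 1100 h1))))) (pr_add (pr_csub (enc_rat _ 1905105723 1700000000) (pr_scaleT 133447951 17000000 h1)) (pr_cmul (enc_norm (kf3q0_4.enc h1.l h2)) (pr_norm (pr_csub (enc_rat _ 233611 170000) (pr_scaleT 7007 1700 h1)))))))))))))⟩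
noncomputable def qsg_s : Sl1 qsg := ⟨_, fun h1 => (pr_norm (pr_mul (pr_norm (pr_csub (enc_pnc _ 1) (gsg_s.snd h1))) (pr_norm (pr_subn 1 (pr_nat 2 (gsg_s.snd h1))))))⟩
noncomputable def l3q0_154_s : Sl2 l3q0_154 := ⟨_, fun h1 h2 => (pr_csub (enc_pnc _ 1) h1)⟩
noncomputable def l3q0_169_s : Sl2 l3q0_169 := ⟨_, fun h1 h2 => (pr_mul (cv2m_s.snd h1) (bx2q0_s.snd h1 h2))⟩
noncomputable def l3q0_s : Sl2 l3q0 := ⟨_, fun h1 h2 => (pr_norm (pr_case (pr_subr 9 512 h1) (pr_mul (cv3m_s.snd h1) (pr_norm (pr_case (pr_subr 21 2000 h1) (pr_case (pr_subr 1 200 h1) (pr_add (pr_addc (pr_scaleT 123417 100000 h1) (enc_rat _ 2347527 100000000)) (pr_cmul (enc_norm (l3q0_4.enc h1.l h2)) (pr_norm (pr_csub (enc_rat _ 639 10000) (pr_scaleT 31 10 h1))))) (pr_add (pr_addc (pr_scaleT 628253 550000 h1) (enc_rat _ 13164101 550000000)) (pr_cmul (enc_norm (l3q0_4.enc h1.l h2)) (pr_norm (pr_csub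 (enc_rat _ 3557 55000) (pr_scaleT 179 55 h1)))))) (pr_case (pr_subr 29 2000 h1) (pr_add (pr_addc (pr_scaleT 468889 400000 h1) (enc_rat _ 18896251 800000000)) (pr_cmul (enc_norm (l3q0_4.enc h1.l h2)) (pr_norm (pr_csub (enc_rat _ 5107 80000) (pr_scaleT 127 40 h1))))) (pr_add (pr_add (pr_addc (pr_scaleT 31284763 30781250 h1) (enc_rat _ 6373036717 246250000000)) (pr_cmul (enc_norm (l3q0_4.enc h1.l h2)) (pr_norm (pr_subr 166451693 1539062500 (pr_scaleT 26737518 3078125 h1))))) (pr_cmul (l3q0_52.enc h1.l h2) (pr_norm (pr_csub (enc_rat _ 1497067 6156250) (pr_scaleT 412984 24625 h1))))))))) (pr_case (pr_subr 71 2000 h1) (pr_add (l3q0_169_s.snd h1 h2) (pr_mul (pr_norm (pr_mul (pr_norm (pr_sub (pr_sub (qsg_s.snd (pr_norm (l3q0_154_s.snd h1 h2))) (pr_mul (pr_norm (pr_nat 2 (pr_subc (l3q0_154_s.snd h1 h2) h2))) (pr_norm (pr_mul (esg_s.snd (pr_norm (l3q0_154_s.snd h1 h2)))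 (kcg_s.snd (pr_norm (pr_sub (pr_scaleT 3 4 (l3q0_154_s.snd h1 h2)) (pr_half (gsg_s.snd (pr_norm (l3q0_154_s.snd h1 h2)))))) h2))))) (l3q0_169_s.snd h1 h2))) (pr_norm (pr_sub (cv3m_s.snd h1) (cv2m_s.snd h1))))) (pr_nd (pr_inv (pr_sub (pr_addc (swg_s.snd h1) (enc_rat _ 1 2)) (cv2m_s.snd h1)))))) (pr_mul (cv3m_s.snd h1) (pr_norm (pr_case (pr_subr 1 10 h1) (pr_case (pr_subr 1 20 h1) (pr_add (pr_add (pr_addc (pr_scaleT 3545297 7250000 h1) (enc_rat _ 126506079 2900000000)) (pr_cmul (enc_norm (l3q0_4.enc h1.l h2)) (pr_norm (pr_csub (enc_rat _ 73080307 145000000) (pr_scaleT 79938807 7250000 h1))))) (pr_cmul (l3q0_52.enc h1.l h2) (pr_norm (pr_csub (enc_rat _ 1631 18125) (pr_scaleT 6524 3625 h1))))) (pr_case (pr_subr 7 100 h1) (pr_add (pr_addc (pr_scaleT 961637 2000000 h1) (enc_rat _ 8806437 200000000)) (pr_cmul (enc_norm (l3q0_4.enc h1.l h2)) (pr_norm (pr_subr 491 20000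 (pr_neg (pr_scaleT 91 200 h1)))))) (pr_add (pr_addc (pr_scaleT 285547 600000 h1) (enc_rat _ 13312699 300000000)) (pr_cmul (enc_norm (l3q0_4.enc h1.l h2)) (pr_norm (pr_subr 319 10000 (pr_neg (pr_scaleT 7 20 h1)))))))) (pr_case (pr_subr 11 50 h1) (pr_case (pr_subr 3 20 h1) (pr_add (pr_addc (pr_scaleT 17871 40000 h1) (enc_rat _ 4728933 100000000)) (pr_cmul (enc_norm (l3q0_4.enc h1.l h2)) (pr_norm (pr_subr 419 10000 (pr_neg (pr_scaleT 1 4 h1)))))) (pr_add (pr_addc (pr_scaleT 1422871 3500000 h1) (enc_rat _ 1166493 21875000)) (pr_cmul (enc_norm (l3q0_4.enc h1.l h2)) (pr_norm (pr_subr 248 4375 (pr_neg (pr_scaleT 53 350 h1))))))) (pr_case (pr_subr 33 100 h1) (pr_add (pr_addc (pr_scaleT 3916399 11000000 h1) (enc_rat _ 3221751 50000000)) (pr_cmul (enc_norm (l3q0_4.enc h1.l h2)) (pr_norm (pr_subr 393 5000 (pr_neg (pr_scaleT 57 1100 h1)))))) (pr_add (pr_csub (enc_rat _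 223023759 850000000) (pr_scaleT 828919 3400000 h1)) (pr_cmul (enc_norm (l3q0_4.enc h1.l h2)) (pr_norm (pr_subr 561 5000 (pr_scaleT 1 20 h1)))))))))))))⟩
noncomputable def kc3q0_44_s : Sl2 kc3q0_44 := ⟨_, fun h1 h2 => (pr_csub (enc_pnc _ 1) h1)⟩
noncomputable def kc3q0_45_s : Sl2 kc3q0_45 := ⟨_, fun h1 h2 => (gsg_s.snd (pr_norm (kc3q0_44_s.snd h1 h2)))⟩
noncomputable def kc3q0_49_s : Sl2 kc3q0_49 := ⟨_, fun h1 h2 => (esg_s.snd (pr_norm (kc3q0_44_s.snd h1 h2)))⟩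
noncomputable def kc3q0_53_s : Sl2 kc3q0_53 := ⟨_, fun h1 h2 => (gug_s.snd (pr_norm (kc3q0_44_s.snd h1 h2)))⟩
noncomputable def kc3q0_55_s : Sl2 kc3q0_55 := ⟨_, fun h1 h2 => (pr_mul (pr_norm (kc3q0_44_s.snd h1 h2)) (pr_nd (pr_inv (kc3q0_45_s.snd h1 h2))))⟩
noncomputable def kc3q0_56_s : Sl2 kc3q0_56 := ⟨_, fun h1 h2 => (pr_scaleT 3 4 (kc3q0_55_s.snd h1 h2))⟩
noncomputable def kc3q0_86_s : Sl2 kc3q0_86 := ⟨_, fun h1 h2 => (pr_mul (cv2m_s.snd h1) (bd2q0_s.snd h1 h2))⟩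
noncomputable def kc3q0_s : Sl2 kc3q0 := ⟨_, fun h1 h2 => (pr_norm (pr_case (pr_subr 9 512 h1) (pr_mul (cv3m_s.snd h1) (pr_norm (pr_case (pr_subr 1 100 h1) (pr_add (pr_subr 2692041 10000000 (pr_neg (pr_scaleT 1542821 20000 h1))) (pr_cmul (enc_norm (kc3q0_4.enc h1.l h2)) (pr_norm (pr_csub (enc_rat _ 863 1000) (pr_scaleT 397 2 h1))))) (pr_add (pr_subr 16312375309 60625000000 (pr_neg (pr_scaleT 2923430301 37890625 h1))) (pr_cmul (enc_norm (kc3q0_4.enc h1.l h2)) (pr_norm (pr_csub (enc_rat _ 653593891 757812500) (pr_scaleT 1503859516 7578125 h1)))))))) (pr_case (pr_subr 71 2000 h1) (pr_add (kc3q0_86_s.snd h1 h2) (pr_mul (pr_norm (pr_mul (pr_norm (pr_sub (pr_add (pr_sub (pr_neg (pr_add (pr_cadd (enc_rat _ 3 4) (pr_scaleT 3 2 (kc3q0_44_s.snd h1 h2))) (pr_scaleT 3 4 (pr_mul (pr_norm (kc3q0_55_s.snd h1 h2)) (kc3q0_53_s.snd h1 h2))))) (pr_wT (pr_mul (pr_norm (pr_sub (pr_mul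 (pr_norm (pr_mul (pr_norm (kc3q0_56_s.snd h1 h2)) (pr_norm (pr_subn 3 (pr_nat 4 (kc3q0_45_s.snd h1 h2)))))) (kc3q0_49_s.snd h1 h2)) (pr_mul (qsg_s.snd (pr_norm (kc3q0_44_s.snd h1 h2))) (pr_norm (pr_csub (enc_rat _ 1 2) (kc3q0_56_s.snd h1 h2)))))) (pr_nd (pr_inv (pr_mul (pr_nd (pr_nat 2 (kc3q0_49_s.snd h1 h2))) (kc3q0_49_s.snd h1 h2))))) (kc3q0_44_s.snd h1 h2) (kc3q0_45_s.snd h1 h2) (kc3q0_49_s.snd h1 h2) rfl rfl rfl rfl rfl rfl rfl rfl)) (pr_mul (kcg_s.snd (pr_norm (pr_sub (pr_scaleT 3 4 (kc3q0_44_s.snd h1 h2)) (pr_half (kc3q0_45_s.snd h1 h2)))) h2) (pr_norm (pr_cadd (enc_pnc _ 1) (pr_add (kc3q0_53_s.snd h1 h2) (pr_nat 2 (kc3q0_45_s.snd h1 h2))))))) (kc3q0_86_s.snd h1 h2))) (pr_norm (pr_sub (cv3m_s.snd h1) (cv2m_s.snd h1))))) (pr_nd (pr_inv (pr_sub (pr_addc (swg_s.snd h1) (enc_rat _ 1 2)) (cv2m_s.snd h1)))))) (pr_mul (cv3m_s.snd h1) (pr_norm (pr_add (pr_subr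 1498844297 929000000 (pr_scaleT 3747791161 2322500000 h1)) (pr_cmul (enc_norm (kc3q0_4.enc h1.l h2)) (pr_norm (pr_csub (enc_rat _ 66828503 23225000) (pr_scaleT 38586903 11612500 h1))))))))))⟩
noncomputable def bf3q1_s : Sl2 bf3q1 := ⟨_, fun h1 h2 => (pr_norm (pr_case (pr_subr 7 8 h1) (pr_add (pr_addc (pr_scaleT 1371729 3125000 h1) (enc_rat _ 56104679 100000000)) (pr_cmul (enc_norm (bf3q1_3.enc h1.l h2)) (pr_norm (pr_subr 97 10000 (pr_scaleT 6 625 h1))))) (pr_add (pr_addc (pr_scaleT 5486909 12500000 h1) (enc_rat _ 7013091 12500000)) (pr_cmul (enc_norm (bf3q1_3.enc h1.l h2)) (pr_norm (pr_subr 13 1250 (pr_scaleT 13 1250 h1)))))))⟩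
noncomputable def kf3q1_s : Sl2 kf3q1 := ⟨_, fun h1 h2 => (pr_norm (pr_mul (cv3m_s.snd h1) (bf3q1_s.snd h1 h2)))⟩
noncomputable def bx3q1_s : Sl2 bx3q1 := ⟨_, fun h1 h2 => (pr_norm (pr_case (pr_subr 7 8 h1) (pr_add (pr_csub (enc_rat _ 10536223 37500000) (pr_scaleT 658523 2343750 h1)) (pr_cmul (enc_norm (bx3q1_3.enc h1.l h2)) (pr_norm (pr_subr 213 1250 (pr_scaleT 104 625 h1))))) (pr_add (pr_csub (enc_rat _ 438967 1562500) (pr_scaleT 438967 1562500 h1)) (pr_cmul (enc_norm (bx3q1_3.enc h1.l h2)) (pr_norm (pr_subr 124 625 (pr_scaleT 124 625 h1)))))))⟩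
noncomputable def l3q1_s : Sl2 l3q1 := ⟨_, fun h1 h2 => (pr_norm (pr_mul (cv3m_s.snd h1) (bx3q1_s.snd h1 h2)))⟩
noncomputable def bd3q1_s : Sl2 bd3q1 := ⟨_, fun h1 h2 => (pr_norm (pr_add (pr_subr 1008189 625000 (pr_scaleT 1008189 625000 h1)) (pr_cmul (enc_norm (enc_subr 38847 40000 h2)) (pr_norm (pr_csub (enc_rat _ 304 125) (pr_scaleT 304 125 h1))))))⟩
noncomputable def kc3q1_s : Sl2 kc3q1 := ⟨_, fun h1 h2 => (pr_norm (pr_mul (cv3m_s.snd h1) (bd3q1_s.snd h1 h2)))⟩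
noncomputable def cv3p_s : Sl1 cv3p := ⟨_, fun h1 => (pr_norm (pr_add (pr_scaleT 1929 2000 (pr_subr 1 2 (swg_s.snd h1))) (pr_scaleT 71 2000 (c3g_s.snd h1))))⟩
noncomputable def bf3q2_s : Sl2 bf3q2 := ⟨_, fun h1 h2 => (pr_norm (pr_case (pr_subr 21 20 h1) (pr_case (pr_subr 521 512 h1) (pr_add (pr_csub (enc_rat _ 237495701 180000000) (pr_scaleT 1433932 3515625 h1)) (pr_cmul (enc_norm (bf3q2_3.enc h1.l h2)) (pr_norm (pr_subr 6481 6000 (pr_scaleT 1472 1875 h1))))) (pr_case (pr_subr 2071 2000 h1) (pr_add (pr_csub (enc_rat _ 4881842067 3700000000) (pr_scaleT 9432 23125 h1)) (pr_cmul (enc_norm (bf3q2_3.enc h1.l h2)) (pr_norm (pr_subr 12344011 11470000 (pr_scaleT 896 1147 h1))))) (pr_add (pr_csub (enc_rat _ 3825037277 2900000000) (pr_scaleT 295399 725000 h1)) (pr_cmul (enc_norm (bf3q2_3.enc h1.l h2)) (pr_norm (pr_subr 313611 290000 (pr_scaleT 114 145 h1))))))) (pr_case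 (pr_subr 231 200 h1) (pr_case (pr_subr 107 100 h1) (pr_add (pr_csub (enc_rat _ 263817221 200000000) (pr_scaleT 815099 2000000 h1)) (pr_cmul (enc_norm (bf3q2_3.enc h1.l h2)) (pr_norm (pr_subr 21603 20000 (pr_scaleT 157 200 h1))))) (pr_add (pr_csub (enc_rat _ 1121278749 850000000) (pr_scaleT 346469 850000 h1)) (pr_cmul (enc_norm (bf3q2_3.enc h1.l h2)) (pr_norm (pr_subr 92107 85000 (pr_scaleT 67 85 h1)))))) (pr_case (pr_subr 13 10 h1) (pr_add (pr_csub (enc_rat _ 1912721637 1450000000) (pr_scaleT 2954969 7250000 h1)) (pr_cmul (enc_norm (bf3q2_3.enc h1.l h2)) (pr_norm (pr_subr 156091 145000 (pr_scaleT 567 725 h1))))) (pr_add (pr_csub (enc_rat _ 263826877 200000000) (pr_scaleT 1630377 4000000 h1)) (pr_cmul (enc_norm (bf3q2_3.enc h1.l h2)) (pr_norm (pr_subr 21411 20000 (pr_scaleT 311 400 h1)))))))))⟩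
noncomputable def kf3q2_s : Sl2 kf3q2 := ⟨_, fun h1 h2 => (pr_norm (pr_mul (cv3p_s.snd h1) (bf3q2_s.snd h1 h2)))⟩
noncomputable def bx3q2_s : Sl2 bx3q2 := ⟨_, fun h1 h2 => (pr_norm (pr_case (pr_subr 21 20 h1) (pr_case (pr_subr 521 512 h1) (pr_add (pr_subr 44796931 225000000 (pr_scaleT 38134 140625 h1)) (pr_cmul (enc_norm (bx3q2_3.enc h1.l h2)) (pr_norm (pr_subr 233789 7500 (pr_scaleT 2336 75 h1))))) (pr_case (pr_subr 2071 2000 h1) (pr_add (pr_subr 106257004217 114700000000 (pr_scaleT 3533852 3584375 h1)) (pr_cmul (enc_norm (bx3q2_3.enc h1.l h2)) (pr_norm (pr_subr 357536969 11470000 (pr_scaleT 178624 5735 h1))))) (pr_add (pr_subr 266178799 580000000 (pr_scaleT 38749 72500 h1)) (pr_cmul (enc_norm (bx3q2_3.enc h1.l h2)) (pr_norm (pr_csub (enc_rat _ 120657 58000) (pr_scaleT 28 29 h1))))))) (pr_case (pr_subr 231 200 h1) (pr_case (pr_subr 107 100 h1) (pr_add (pr_subr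 18355123 40000000 (pr_scaleT 1068841 2000000 h1)) (pr_cmul (enc_norm (bx3q2_3.enc h1.l h2)) (pr_norm (pr_csub (enc_rat _ 9789 4000) (pr_scaleT 263 200 h1))))) (pr_add (pr_subr 194808473 425000000 (pr_scaleT 4538561 8500000 h1)) (pr_cmul (enc_norm (bx3q2_3.enc h1.l h2)) (pr_norm (pr_csub (enc_rat _ 109639 42500) (pr_scaleT 1223 850 h1)))))) (pr_case (pr_subr 13 10 h1) (pr_add (pr_subr 2039365847 2900000000 (pr_scaleT 1081621 1450000 h1)) (pr_cmul (enc_norm (bx3q2_3.enc h1.l h2)) (pr_norm (pr_csub (enc_rat _ 25349 10000) (pr_scaleT 7 5 h1))))) (pr_add (pr_subr 194802603 200000000 (pr_scaleT 19084809 20000000 h1)) (pr_cmul (enc_norm (bx3q2_3.enc h1.l h2)) (pr_norm (pr_csub (enc_rat _ 49229 20000) (pr_scaleT 2687 2000 h1)))))))))⟩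
noncomputable def l3q2_s : Sl2 l3q2 := ⟨_, fun h1 h2 => (pr_norm (pr_mul (cv3p_s.snd h1) (bx3q2_s.snd h1 h2)))⟩
noncomputable def bd3q2_s : Sl2 bd3q2 := ⟨_, fun h1 h2 => (pr_norm (pr_case (pr_subr 231 200 h1) (pr_add (pr_subr 2484088133 155000000 (pr_scaleT 24812813 1550000 h1)) (pr_cmul (enc_norm (bd3q2_3.enc h1.l h2)) (pr_norm (pr_csub (enc_rat _ 146019 15500) (pr_scaleT 1259 155 h1))))) (pr_add (pr_subr 921507359 57500000 (pr_scaleT 18409347 1150000 h1)) (pr_cmul (enc_norm (bd3q2_3.enc h1.l h2)) (pr_norm (pr_csub (enc_rat _ 55337 5750) (pr_scaleT 2863 345 h1)))))))⟩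
noncomputable def kc3q2_s : Sl2 kc3q2 := ⟨_, fun h1 h2 => (pr_norm (pr_mul (cv3p_s.snd h1) (bd3q2_s.snd h1 h2)))⟩
noncomputable def ycg_s : Sl1 ycg := ⟨_, fun h1 => (pr_sqrtg (pr_scaleT 4 3 (pr_csub (enc_pnc _ 3) (pr_sq h1))))⟩
noncomputable def xc33_s : Sl1 xc33 := ⟨_, fun h1 => (pr_norm (pr_add (pr_scaleT 1929 2000 (pr_subr 1 2 (swg_s.snd (pr_nd (ycg_s.snd h1))))) (pr_scaleT 71 2000 h1)))⟩
noncomputable def kfc33_6_s : Sl2 kfc33_6 := ⟨_, fun h1 h2 => (pr_subr 1 2 (swg_s.snd (pr_nd (ycg_s.snd h1))))⟩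
noncomputable def kfc33_9_s : Sl2 kfc33_9 := ⟨_, fun h1 h2 => (pr_add (pr_scaleT 1929 2000 (kfc33_6_s.snd h1 h2)) (pr_scaleT 71 2000 h1))⟩
noncomputable def kfc33_13_s : Sl2 kfc33_13 := ⟨_, fun h1 h2 => (pr_subr 193 100 (ycg_s.snd h1))⟩
noncomputable def kfc33_25_s : Sl2 kfc33_25 := ⟨_, fun h1 h2 => (pr_subr 39 20 (ycg_s.snd h1))⟩
noncomputable def kfc33_50_s : Sl2 kfc33_50 := ⟨_, fun h1 h2 => (pr_csub (enc_rat _ 105307799 1000000000) h1)⟩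
noncomputable def kfc33_52_s : Sl2 kfc33_52 := ⟨_, fun h1 h2 => (pr_csub (enc_rat _ 154764337 1000000000) h1)⟩
noncomputable def kfc33_76_s : Sl2 kfc33_76 := ⟨_, fun h1 h2 => (pr_csub (enc_rat _ 54765409 1000000000) h1)⟩
noncomputable def kfc33_98_s : Sl2 kfc33_98 := ⟨_, fun h1 h2 => (pr_subn 1 (ycg_s.snd h1))⟩
noncomputable def kfc33_99_s : Sl2 kfc33_99 := ⟨_, fun h1 h2 => (gsg_s.snd (pr_norm (kfc33_98_s.snd h1 h2)))⟩
noncomputable def kfc33_100_s : Sl2 kfc33_100 := ⟨_, fun h1 h2 => (pr_scaleT 3 4 (kfc33_98_s.snd h1 h2))⟩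
noncomputable def kfc33_101_s : Sl2 kfc33_101 := ⟨_, fun h1 h2 => (pr_half (kfc33_99_s.snd h1 h2))⟩
noncomputable def kfc33_103_s : Sl2 kfc33_103 := ⟨_, fun h1 h2 => (esg_s.snd (pr_norm (kfc33_98_s.snd h1 h2)))⟩
noncomputable def kfc33_104_s : Sl2 kfc33_104 := ⟨_, fun h1 h2 => (kcg_s.snd (pr_norm (pr_sub (kfc33_100_s.snd h1 h2) (kfc33_101_s.snd h1 h2))) h2)⟩
noncomputable def kfc33_106_s : Sl2 kfc33_106 := ⟨_, fun h1 h2 => (pr_subn 2 (ycg_s.snd h1))⟩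
noncomputable def kfc33_113_s : Sl2 kfc33_113 := ⟨_, fun h1 h2 => (pr_sub (pr_sub (kfc33_101_s.snd h1 h2) (kfc33_100_s.snd h1 h2)) (pr_csub (enc_rat _ 1 4) (pr_scaleT 3 8 (pr_mul (pr_norm (kfc33_98_s.snd h1 h2)) (pr_nd (pr_inv (kfc33_99_s.snd h1 h2)))))))⟩
noncomputable def kfc33_119_s : Sl2 kfc33_119 := ⟨_, fun h1 h2 => (cv2r_s.snd (pr_nd (ycg_s.snd h1)))⟩
noncomputable def kfc33_144_s : Sl2 kfc33_144 := ⟨_, fun h1 h2 => (pr_subr 3929 2000 (ycg_s.snd h1))⟩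
noncomputable def kfc33_168_s : Sl2 kfc33_168 := ⟨_, fun h1 h2 => (pr_subr 1015 512 (ycg_s.snd h1))⟩
noncomputable def kfc33_228_s : Sl2 kfc33_228 := ⟨_, fun h1 h2 => (pr_mul (kfc33_119_s.snd h1 h2) (pr_norm (pr_case (pr_subr 987 500 (ycg_s.snd h1)) (pr_case (kfc33_25_s.snd h1 h2) (pr_case (kfc33_13_s.snd h1 h2) (pr_add (pr_csub (enc_rat _ 4210818509 4300000000) (pr_scaleT 27295597 43000000 (ycg_s.snd h1))) (pr_cmul (enc_norm (kfc33_11.enc h1.l h2)) (pr_norm (pr_csub (enc_rat _ 8526213 430000) (pr_scaleT 56629 4300 (ycg_s.snd h1)))))) (pr_add (pr_csub (enc_rat _ 49010549 50000000) (pr_scaleT 317637 500000 (ycg_s.snd h1))) (pr_cmul (enc_norm (kfc33_11.enc h1.l h2)) (pr_norm (pr_csub (enc_rat _ 99243 5000) (pr_scaleT 659 50 (ycg_s.snd h1))))))) (pr_case (kfc33_144_s.snd h1 h2) (pr_add (pr_csub (enc_rat _ 354576559 362500000) (pr_scaleT 919609 1450000 (ycg_s.snd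 h1))) (pr_cmul (enc_norm (kfc33_11.enc h1.l h2)) (pr_norm (pr_csub (enc_rat _ 360219 18125) (pr_scaleT 1913 145 (ycg_s.snd h1)))))) (pr_add (pr_csub (enc_rat _ 930662431 950000000) (pr_scaleT 603229 950000 (ycg_s.snd h1))) (pr_cmul (enc_norm (kfc33_11.enc h1.l h2)) (pr_norm (pr_csub (enc_rat _ 1887367 95000) (pr_scaleT 1253 95 (ycg_s.snd h1)))))))) (pr_case (kfc33_52_s.snd h1 h2) (pr_case (kfc33_168_s.snd h1 h2) (pr_add (pr_csub (enc_rat _ 3766628639 3850000000) (pr_scaleT 1068432 1684375 (ycg_s.snd h1))) (pr_cmul (enc_norm (kfc33_11.enc h1.l h2)) (pr_norm (pr_csub (enc_rat _ 7659623 385000) (pr_scaleT 35584 2695 (ycg_s.snd h1)))))) (pr_add (pr_subr 250578196202209 531215650000000 (pr_scaleT 62500250 74370191 h1)) (pr_cmul (enc_norm (kfc33_11.enc h1.l h2)) (pr_norm (pr_subr 127802146113 53121565000 (pr_neg (pr_scaleT 1257500000 74370191 h1))))))) (pr_case (kfc33_50_s.snd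 h1 h2) (pr_add (pr_subr 93317945458041 197826152000000 (pr_scaleT 20783055 24728269 h1)) (pr_cmul (enc_norm (kfc33_11.enc h1.l h2)) (pr_norm (pr_subr 47528469617 19782615200 (pr_neg (pr_scaleT 418650000 24728269 h1)))))) (pr_case (kfc33_76_s.snd h1 h2) (pr_add (pr_subr 2384597113001253 5054239000000000 (pr_scaleT 4251927 5054239 h1)) (pr_cmul (enc_norm (kfc33_11.enc h1.l h2)) (pr_norm (pr_subr 1213861123821 505423900000 (pr_neg (pr_scaleT 85610000 5054239 h1)))))) (pr_add (pr_subr 5900861 12500000 (pr_scaleT 46339390 54765409 h1)) (pr_cmul (enc_norm (kfc33_11.enc h1.l h2)) (pr_norm (pr_subr 1501 625 (pr_neg (pr_scaleT 927700000 54765409 h1))))))))))))⟩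
noncomputable def kfc33_s : Sl2 kfc33 := ⟨_, fun h1 h2 => (pr_norm (pr_case (kfc33_144_s.snd h1 h2) (pr_mul (pr_norm (kfc33_9_s.snd h1 h2)) (pr_norm (pr_case (kfc33_13_s.snd h1 h2) (pr_add (pr_csub (enc_rat _ 4549607357 430000000) (pr_scaleT 225893529 43000000 (ycg_s.snd h1))) (pr_cmul (enc_norm (kfc33_11.enc h1.l h2)) (pr_norm (pr_subr 235651 43000 (pr_scaleT 15647 4300 (ycg_s.snd h1)))))) (pr_case (kfc33_25_s.snd h1 h2) (pr_add (pr_csub (enc_rat _ 42319691 4000000) (pr_scaleT 656631 125000 (ycg_s.snd h1))) (pr_cmul (enc_norm (kfc33_11.enc h1.l h2)) (pr_norm (pr_subr 2193 400 (pr_scaleT 91 25 (ycg_s.snd h1)))))) (pr_add (pr_csub (enc_rat _ 30684947611 2900000000) (pr_scaleT 190443321 36250000 (ycg_s.snd h1))) (pr_cmul (enc_norm (kfc33_11.enc h1.l h2)) (pr_norm (pr_subr 398477271 72500000 (pr_scaleT 13220539 3625000 (ycg_s.snd h1)))))))))) (pr_case (kfc33_168_s.snd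 h1 h2) (pr_add (kfc33_228_s.snd h1 h2) (pr_mul (pr_norm (pr_mul (pr_norm (pr_sub (pr_wB3 (pr_mul (pr_norm (kfc33_106_s.snd h1 h2)) (pr_norm (pr_add (pr_mul (pr_norm (kfc33_113_s.snd h1 h2)) (pr_nd (pr_inv (kfc33_103_s.snd h1 h2)))) (kfc33_104_s.snd h1 h2)))) (kfc33_98_s.snd h1 h2) (kfc33_99_s.snd h1 h2) (kfc33_103_s.snd h1 h2) (kfc33_106_s.snd h1 h2) (kfc33_113_s.snd h1 h2) (kfc33_104_s.snd h1 h2) (ycg_s.snd h1) rfl rfl rfl rfl rfl rfl rfl rfl rfl rfl) (kfc33_228_s.snd h1 h2))) (pr_norm (pr_sub (kfc33_9_s.snd h1 h2) (kfc33_119_s.snd h1 h2))))) (pr_nd (pr_inv (pr_sub (kfc33_6_s.snd h1 h2) (kfc33_119_s.snd h1 h2)))))) (pr_mul (pr_norm (kfc33_9_s.snd h1 h2)) (pr_norm (pr_case (kfc33_50_s.snd h1 h2) (pr_case (kfc33_52_s.snd h1 h2) (pr_add (pr_subr 26725521113953037 21248626000000000 (pr_scaleT 927203447 148740382 h1)) (pr_cmul (enc_norm (kfc33_11.enc h1.l h2)) (pr_norm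 (pr_subr 340970584373227 10624313000000000 (pr_scaleT 981928797 74370191 h1))))) (pr_add (pr_subr 95859019119273 2472826900000000 (pr_neg (pr_scaleT 40621380 24728269 h1))) (pr_cmul (enc_norm (kfc33_11.enc h1.l h2)) (pr_norm (pr_subr 3148191461 247282690000 (pr_scaleT 323400000 24728269 h1)))))) (pr_case (kfc33_76_s.snd h1 h2) (pr_add (pr_csub (enc_rat _ 413838409184381 5054239000000000) (pr_scaleT 14092969 5054239 h1)) (pr_cmul (enc_norm (kfc33_11.enc h1.l h2)) (pr_norm (pr_subr 1905404483 505423900000 (pr_scaleT 65670000 5054239 h1))))) (pr_add (pr_csub (enc_rat _ 1 2) (pr_scaleT 570825460 54765409 h1)) (pr_cmul (enc_norm (kfc33_11.enc h1.l h2)) (pr_nd (pr_scaleT 707800000 54765409 h1)))))))))))⟩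
noncomputable def lc33_6_s : Sl2 lc33_6 := ⟨_, fun h1 h2 => (pr_subr 1 2 (swg_s.snd (pr_nd (ycg_s.snd h1))))⟩
noncomputable def lc33_9_s : Sl2 lc33_9 := ⟨_, fun h1 h2 => (pr_add (pr_scaleT 1929 2000 (lc33_6_s.snd h1 h2)) (pr_scaleT 71 2000 h1))⟩
noncomputable def lc33_13_s : Sl2 lc33_13 := ⟨_, fun h1 h2 => (pr_subr 193 100 (ycg_s.snd h1))⟩
noncomputable def lc33_25_s : Sl2 lc33_25 := ⟨_, fun h1 h2 => (pr_subr 39 20 (ycg_s.snd h1))⟩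
noncomputable def lc33_57_s : Sl2 lc33_57 := ⟨_, fun h1 h2 => (pr_csub (enc_rat _ 105307799 1000000000) h1)⟩
noncomputable def lc33_59_s : Sl2 lc33_59 := ⟨_, fun h1 h2 => (pr_csub (enc_rat _ 154764337 1000000000) h1)⟩
noncomputable def lc33_86_s : Sl2 lc33_86 := ⟨_, fun h1 h2 => (pr_csub (enc_rat _ 54765409 1000000000) h1)⟩
noncomputable def lc33_108_s : Sl2 lc33_108 := ⟨_, fun h1 h2 => (pr_subn 1 (ycg_s.snd h1))⟩
noncomputable def lc33_121_s : Sl2 lc33_121 := ⟨_, fun h1 h2 => (cv2r_s.snd (pr_nd (ycg_s.snd h1)))⟩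
noncomputable def lc33_146_s : Sl2 lc33_146 := ⟨_, fun h1 h2 => (pr_subr 3929 2000 (ycg_s.snd h1))⟩
noncomputable def lc33_170_s : Sl2 lc33_170 := ⟨_, fun h1 h2 => (pr_subr 1015 512 (ycg_s.snd h1))⟩
noncomputable def lc33_222_s : Sl2 lc33_222 := ⟨_, fun h1 h2 => (pr_mul (lc33_121_s.snd h1 h2) (pr_norm (pr_case (pr_subr 987 500 (ycg_s.snd h1)) (pr_case (lc33_25_s.snd h1 h2) (pr_case (lc33_13_s.snd h1 h2) (pr_add (pr_subr 7120970893 4300000000 (pr_scaleT 14207861 10750000 (ycg_s.snd h1))) (pr_cmul (enc_norm (lc33_11.enc h1.l h2)) (pr_norm (pr_subr 273301 430000 (pr_scaleT 627 1075 (ycg_s.snd h1)))))) (pr_add (pr_subr 68705969 40000000 (pr_scaleT 2707167 2000000 (ycg_s.snd h1))) (pr_cmul (enc_norm (lc33_11.enc h1.l h2)) (pr_norm (pr_subr 2633 4000 (pr_scaleT 119 200 (ycg_s.snd h1))))))) (pr_case (lc33_146_s.snd h1 h2) (pr_add (pr_subr 8073739 4531250 (pr_scaleT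 2010391 1450000 (ycg_s.snd h1))) (pr_cmul (enc_norm (lc33_11.enc h1.l h2)) (pr_norm (pr_subr 167 250 (pr_scaleT 3 5 (ycg_s.snd h1)))))) (pr_add (pr_subr 3508935057 1900000000 (pr_scaleT 674297 475000 (ycg_s.snd h1))) (pr_cmul (enc_norm (lc33_11.enc h1.l h2)) (pr_norm (pr_subr 130849 190000 (pr_scaleT 58 95 (ycg_s.snd h1)))))))) (pr_case (lc33_59_s.snd h1 h2) (pr_case (lc33_170_s.snd h1 h2) (pr_add (pr_subr 14312279463 7700000000 (pr_scaleT 2401272 1684375 (ycg_s.snd h1))) (pr_cmul (enc_norm (lc33_11.enc h1.l h2)) (pr_norm (pr_subr 540791 770000 (pr_scaleT 1664 2695 (ycg_s.snd h1)))))) (pr_add (pr_csub (enc_rat _ 1027953056612721 1062431300000000) (pr_scaleT 36670 74370191 h1)) (pr_cmul (enc_norm (lc33_11.enc h1.l h2)) (pr_norm (pr_csub (enc_rat _ 75689079897 106243130000) (pr_scaleT 61900000 74370191 h1)))))) (pr_case (lc33_57_s.snd h1 h2) (pr_add (pr_addc (pr_scaleT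 79370 24728269 h1) (enc_rat _ 2391161136184043 2472826900000000)) (pr_cmul (enc_norm (lc33_11.enc h1.l h2)) (pr_norm (pr_addc (pr_scaleT 50900000 24728269 h1) (enc_rat _ 65539130351 247282690000))))) (pr_case (lc33_86_s.snd h1 h2) (pr_add (pr_csub (enc_rat _ 2453118850954127 2527119500000000) (pr_scaleT 163406 5054239 h1)) (pr_cmul (enc_norm (lc33_11.enc h1.l h2)) (pr_norm (pr_addc (pr_scaleT 10580000 5054239 h1) (enc_rat _ 66048791839 252711950000))))) (pr_add (pr_csub (enc_rat _ 12147711 12500000) (pr_scaleT 2870080 54765409 h1)) (pr_cmul (enc_norm (lc33_11.enc h1.l h2)) (pr_norm (pr_addc (pr_scaleT 114400000 54765409 h1) (enc_rat _ 327 1250)))))))))))⟩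
noncomputable def lc33_s : Sl2 lc33 := ⟨_, fun h1 h2 => (pr_norm (pr_case (lc33_146_s.snd h1 h2) (pr_mul (pr_norm (lc33_9_s.snd h1 h2)) (pr_norm (pr_case (lc33_13_s.snd h1 h2) (pr_add (pr_subr 1048508403 1075000000 (pr_scaleT 41070857 43000000 (ycg_s.snd h1))) (pr_cmul (enc_norm (lc33_11.enc h1.l h2)) (pr_norm (pr_csub (enc_rat _ 256129 107500) (pr_scaleT 5551 4300 (ycg_s.snd h1)))))) (pr_case (lc33_25_s.snd h1 h2) (pr_add (pr_subr 195172961 200000000 (pr_scaleT 1910799 2000000 (ycg_s.snd h1))) (pr_cmul (enc_norm (lc33_11.enc h1.l h2)) (pr_norm (pr_csub (enc_rat _ 47423 20000) (pr_scaleT 257 200 (ycg_s.snd h1)))))) (pr_add (pr_add (pr_subr 1166749789 1450000000 (pr_scaleT 15725243 18125000 (ycg_s.snd h1))) (pr_cmul (enc_norm (lc33_11.enc h1.l h2)) (pr_norm (pr_subr 6968999083 29000000 (pr_scaleT 178592197 1450000 (ycg_s.snd h1)))))) (pr_cmul (lc33_50.enc h1.l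 h2) (pr_norm (pr_subr 6023901 145000 (pr_scaleT 154459 7250 (ycg_s.snd h1)))))))))) (pr_case (lc33_170_s.snd h1 h2) (pr_add (lc33_222_s.snd h1 h2) (pr_mul (pr_norm (pr_mul (pr_norm (pr_sub (pr_sub (qsg_s.snd (pr_norm (lc33_108_s.snd h1 h2))) (pr_mul (pr_norm (pr_nat 2 (pr_subc (lc33_108_s.snd h1 h2) h2))) (pr_norm (pr_mul (esg_s.snd (pr_norm (lc33_108_s.snd h1 h2))) (kcg_s.snd (pr_norm (pr_sub (pr_scaleT 3 4 (lc33_108_s.snd h1 h2)) (pr_half (gsg_s.snd (pr_norm (lc33_108_s.snd h1 h2)))))) h2))))) (lc33_222_s.snd h1 h2))) (pr_norm (pr_sub (lc33_9_s.snd h1 h2) (lc33_121_s.snd h1 h2))))) (pr_nd (pr_inv (pr_sub (lc33_6_s.snd h1 h2) (lc33_121_s.snd h1 h2)))))) (pr_mul (pr_norm (lc33_9_s.snd h1 h2)) (pr_norm (pr_case (lc33_57_s.snd h1 h2) (pr_case (lc33_59_s.snd h1 h2) (pr_add (pr_add (pr_csub (enc_rat _ 9788952891447847 10624313000000000) (pr_scaleT 2376607 74370191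 h1)) (pr_cmul (enc_norm (lc33_11.enc h1.l h2)) (pr_norm (pr_csub (enc_rat _ 34068732002346511 5312156500000000) (pr_scaleT 1356777042 74370191 h1))))) (pr_cmul (lc33_50.enc h1.l h2) (pr_norm (pr_csub (enc_rat _ 1746692416573 1062431300000) (pr_scaleT 790030000 74370191 h1))))) (pr_add (pr_addc (pr_scaleT 4926015 24728269 h1) (enc_rat _ 875971346412591 989130760000000)) (pr_cmul (enc_norm (lc33_11.enc h1.l h2)) (pr_norm (pr_addc (pr_scaleT 48550000 24728269 h1) (enc_rat _ 325032817287 98913076000)))))) (pr_case (lc33_86_s.snd h1 h2) (pr_add (pr_addc (pr_scaleT 794098 5054239 h1) (enc_rat _ 2249211105512129 2527119500000000)) (pr_cmul (enc_norm (lc33_11.enc h1.l h2)) (pr_norm (pr_addc (pr_scaleT 9860000 5054239 h1) (enc_rat _ 830755554053 252711950000))))) (pr_add (pr_addc (pr_scaleT 719944847 821481135 h1) (enc_rat _ 12759566053 15000000000)) (pr_cmul (enc_norm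 (lc33_11.enc h1.l h2)) (pr_norm (pr_csub (enc_rat _ 5146421 1500000) (pr_scaleT 110242000 164296227 h1))))))))))))⟩
noncomputable def kcc33_6_s : Sl2 kcc33_6 := ⟨_, fun h1 h2 => (pr_subr 1 2 (swg_s.snd (pr_nd (ycg_s.snd h1))))⟩
noncomputable def kcc33_9_s : Sl2 kcc33_9 := ⟨_, fun h1 h2 => (pr_add (pr_scaleT 1929 2000 (kcc33_6_s.snd h1 h2)) (pr_scaleT 71 2000 h1))⟩
noncomputable def kcc33_34_s : Sl2 kcc33_34 := ⟨_, fun h1 h2 => (pr_subn 1 (ycg_s.snd h1))⟩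
noncomputable def kcc33_35_s : Sl2 kcc33_35 := ⟨_, fun h1 h2 => (gsg_s.snd (pr_norm (kcc33_34_s.snd h1 h2)))⟩
noncomputable def kcc33_39_s : Sl2 kcc33_39 := ⟨_, fun h1 h2 => (esg_s.snd (pr_norm (kcc33_34_s.snd h1 h2)))⟩
noncomputable def kcc33_44_s : Sl2 kcc33_44 := ⟨_, fun h1 h2 => (gug_s.snd (pr_norm (kcc33_34_s.snd h1 h2)))⟩
noncomputable def kcc33_46_s : Sl2 kcc33_46 := ⟨_, fun h1 h2 => (pr_mul (pr_norm (kcc33_34_s.snd h1 h2)) (pr_nd (pr_inv (kcc33_35_s.snd h1 h2))))⟩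
noncomputable def kcc33_47_s : Sl2 kcc33_47 := ⟨_, fun h1 h2 => (pr_scaleT 3 4 (kcc33_46_s.snd h1 h2))⟩
noncomputable def kcc33_73_s : Sl2 kcc33_73 := ⟨_, fun h1 h2 => (cv2r_s.snd (pr_nd (ycg_s.snd h1)))⟩
noncomputable def kcc33_77_s : Sl2 kcc33_77 := ⟨_, fun h1 h2 => (pr_subr 3929 2000 (ycg_s.snd h1))⟩
noncomputable def kcc33_100_s : Sl2 kcc33_100 := ⟨_, fun h1 h2 => (pr_subr 1015 512 (ycg_s.snd h1))⟩
noncomputable def kcc33_122_s : Sl2 kcc33_122 := ⟨_, fun h1 h2 => (pr_mul (kcc33_73_s.snd h1 h2) (pr_norm (pr_case (pr_subr 197 100 (ycg_s.snd h1)) (pr_case (kcc33_77_s.snd h1 h2) (pr_add (pr_subr 394306844581 9290000000 (pr_scaleT 49287867 1161250 (ycg_s.snd h1))) (pr_cmul (enc_norm (kcc33_11.enc h1.l h2)) (pr_norm (pr_subr 202917 929000 (pr_scaleT 152 929 (ycg_s.snd h1)))))) (pr_add (pr_subr 186688077 4400000 (pr_scaleT 1166993 27500 (ycg_s.snd h1))) (pr_cmul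 (enc_norm (kcc33_11.enc h1.l h2)) (pr_norm (pr_subr 269 440 (pr_scaleT 4 11 (ycg_s.snd h1))))))) (pr_case (kcc33_100_s.snd h1 h2) (pr_add (pr_subr 4500182887 106000000 (pr_scaleT 1406124 33125 (ycg_s.snd h1))) (pr_cmul (enc_norm (kcc33_11.enc h1.l h2)) (pr_norm (pr_subr 21877 31800 (pr_scaleT 64 159 (ycg_s.snd h1)))))) (pr_add (pr_addc (pr_scaleT 253516775 1591212 h1) (enc_rat _ 25954537 5000000)) (pr_cmul (enc_norm (kcc33_11.enc h1.l h2)) (pr_norm (pr_subr 337791 500 (pr_scaleT 10557687500 3580227 h1)))))))))⟩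
noncomputable def kcc33_s : Sl2 kcc33 := ⟨_, fun h1 h2 => (pr_norm (pr_case (kcc33_77_s.snd h1 h2) (pr_mul (pr_norm (kcc33_9_s.snd h1 h2)) (pr_norm (pr_add (pr_subr 74448420223 4645000000 (pr_scaleT 37181094153 2322500000 (ycg_s.snd h1))) (pr_cmul (enc_norm (kcc33_11.enc h1.l h2)) (pr_norm (pr_csub (enc_rat _ 212909501 18580000) (pr_scaleT 88459807 9290000 (ycg_s.snd h1)))))))) (pr_case (kcc33_100_s.snd h1 h2) (pr_add (kcc33_122_s.snd h1 h2) (pr_mul (pr_norm (pr_mul (pr_norm (pr_sub (pr_add (pr_sub (pr_add (pr_cadd (enc_rat _ 3 4) (pr_scaleT 3 2 (kcc33_34_s.snd h1 h2))) (pr_scaleT 3 4 (pr_mul (pr_norm (kcc33_46_s.snd h1 h2)) (kcc33_44_s.snd h1 h2)))) (pr_wT (pr_mul (pr_norm (pr_sub (pr_mul (pr_norm (pr_mul (pr_norm (kcc33_47_s.snd h1 h2)) (pr_norm (pr_subn 3 (pr_nat 4 (kcc33_35_s.snd h1 h2)))))) (kcc33_39_s.snd h1 h2)) (pr_mul (qsg_s.snd (pr_norm (kcc33_34_s.snd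 h1 h2))) (pr_norm (pr_csub (enc_rat _ 1 2) (kcc33_47_s.snd h1 h2)))))) (pr_nd (pr_inv (pr_mul (pr_nd (pr_nat 2 (kcc33_39_s.snd h1 h2))) (kcc33_39_s.snd h1 h2))))) (kcc33_34_s.snd h1 h2) (kcc33_35_s.snd h1 h2) (kcc33_39_s.snd h1 h2) rfl rfl rfl rfl rfl rfl rfl rfl)) (pr_mul (kcg_s.snd (pr_norm (pr_sub (pr_scaleT 3 4 (kcc33_34_s.snd h1 h2)) (pr_half (kcc33_35_s.snd h1 h2)))) h2) (pr_norm (pr_csub (enc_pnc _ 1) (pr_add (kcc33_44_s.snd h1 h2) (pr_nat 2 (kcc33_35_s.snd h1 h2))))))) (kcc33_122_s.snd h1 h2))) (pr_norm (pr_sub (kcc33_9_s.snd h1 h2) (kcc33_73_s.snd h1 h2))))) (pr_nd (pr_inv (pr_sub (kcc33_6_s.snd h1 h2) (kcc33_73_s.snd h1 h2)))))) (pr_mul (pr_norm (kcc33_9_s.snd h1 h2)) (pr_norm (pr_add (pr_addc (pr_scaleT 12946643850997 127551553920 h1) (enc_rat _ 11099819 1670000)) (pr_cmul (enc_norm (kcc33_11.enc h1.l h2)) (pr_norm (pr_subr 42117 167 (pr_scaleT 48034062698221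 38265466176 h1))))))))))⟩
noncomputable def cv4m_s : Sl1 cv4m := ⟨_, fun h1 => (pr_norm (pr_add (pr_scaleT 3 10 (pr_addc (swg_s.snd h1) (enc_rat _ 1 2))) (pr_scaleT 7 10 (c3g_s.snd h1))))⟩
noncomputable def bf4q0_14_s : Sl2 bf4q0_14 := ⟨_, fun h1 h2 => (pr_scaleT 13 2 h1)⟩
noncomputable def bf4q0_s : Sl2 bf4q0 := ⟨_, fun h1 h2 => (pr_norm (pr_case (pr_subr 71 2000 h1) (pr_case (pr_subr 29 2000 h1) (pr_case (pr_subr 1 200 h1) (pr_add (pr_csub (enc_rat _ 4053117 25000000) (pr_scaleT 13451 20000 h1)) (pr_cmul (enc_norm (bf4q0_3.enc h1.l h2)) (pr_norm (pr_subr 5231 2500 (bf4q0_14_s.snd h1 h2))))) (pr_case (pr_subr 21 2000 h1) (pr_add (pr_csub (enc_rat _ 178343183 1100000000) (pr_scaleT 185253 275000 h1)) (pr_cmul (enc_norm (bf4q0_3.enc h1.l h2)) (pr_norm (pr_subr 230169 110000 (pr_scaleT 358 55 h1))))) (pr_add (pr_csub (enc_rat _ 32427929 200000000) (pr_scaleT 13491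 20000 h1)) (pr_cmul (enc_norm (bf4q0_3.enc h1.l h2)) (pr_norm (pr_subr 41847 20000 (bf4q0_14_s.snd h1 h2))))))) (pr_case (pr_subr 9 512 h1) (pr_add (pr_csub (enc_rat _ 638602299 3940000000) (pr_scaleT 412814 615625 h1)) (pr_cmul (enc_norm (bf4q0_3.enc h1.l h2)) (pr_norm (pr_subr 824557 394000 (pr_scaleT 6432 985 h1))))) (pr_case (pr_subr 1 40 h1) (pr_add (pr_csub (enc_rat _ 61615377 380000000) (pr_scaleT 1000762 1484375 h1)) (pr_cmul (enc_norm (bf4q0_3.enc h1.l h2)) (pr_norm (pr_subr 79511 38000 (pr_scaleT 15456 2375 h1))))) (pr_add (pr_csub (enc_rat _ 113499903 700000000) (pr_scaleT 235927 350000 h1)) (pr_cmul (enc_norm (bf4q0_3.enc h1.l h2)) (pr_norm (pr_subr 439387 210000 (pr_scaleT 683 105 h1)))))))) (pr_case (pr_subr 1 10 h1) (pr_case (pr_subr 1 20 h1) (pr_add (pr_csub (enc_rat _ 470156313 2900000000) (pr_scaleT 976601 1450000 h1)) (pr_cmul (enc_norm (bf4q0_3.enc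 h1.l h2)) (pr_norm (pr_subr 606759 290000 (pr_scaleT 943 145 h1))))) (pr_case (pr_subr 7 100 h1) (pr_add (pr_csub (enc_rat _ 4053103 25000000) (pr_scaleT 673543 1000000 h1)) (pr_cmul (enc_norm (bf4q0_3.enc h1.l h2)) (pr_norm (pr_subr 5229 2500 (pr_scaleT 649 100 h1))))) (pr_add (pr_csub (enc_rat _ 48643991 300000000) (pr_scaleT 1010797 1500000 h1)) (pr_cmul (enc_norm (bf4q0_3.enc h1.l h2)) (pr_norm (pr_subr 62713 30000 (pr_scaleT 971 150 h1))))))) (pr_case (pr_subr 11 50 h1) (pr_case (pr_subr 3 20 h1) (pr_add (pr_csub (enc_rat _ 3243039 20000000) (pr_scaleT 3369589 5000000 h1)) (pr_cmul (enc_norm (bf4q0_3.enc h1.l h2)) (pr_norm (pr_subr 4177 2000 (pr_scaleT 3227 500 h1))))) (pr_add (pr_csub (enc_rat _ 56753853 350000000) (pr_scaleT 2358757 3500000 h1)) (pr_cmul (enc_norm (bf4q0_3.enc h1.l h2)) (pr_norm (pr_subr 72979 35000 (pr_scaleT 2251 350 h1)))))) (pr_case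 (pr_subr 33 100 h1) (pr_add (pr_csub (enc_rat _ 4053907 25000000) (pr_scaleT 7413357 11000000 h1)) (pr_cmul (enc_norm (bf4q0_3.enc h1.l h2)) (pr_norm (pr_subr 5201 2500 (pr_scaleT 641 100 h1))))) (pr_add (pr_csub (enc_rat _ 34458757 212500000) (pr_scaleT 11457139 17000000 h1)) (pr_cmul (enc_norm (bf4q0_3.enc h1.l h2)) (pr_norm (pr_subr 22063 10625 (pr_scaleT 10877 1700 h1))))))))))⟩
noncomputable def kf4q0_s : Sl2 kf4q0 := ⟨_, fun h1 h2 => (pr_norm (pr_mul (cv4m_s.snd h1) (bf4q0_s.snd h1 h2)))⟩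
noncomputable def bx4q0_s : Sl2 bx4q0 := ⟨_, fun h1 h2 => (pr_norm (pr_case (pr_subr 71 2000 h1) (pr_case (pr_subr 29 2000 h1) (pr_case (pr_subr 1 200 h1) (pr_add (pr_csub (enc_rat _ 15041861 50000000) (pr_scaleT 365123 500000 h1)) (pr_cmul (enc_norm (bx4q0_3.enc h1.l h2)) (pr_norm (pr_addc (pr_scaleT 589 50 h1) (enc_rat _ 6377 5000))))) (pr_case (pr_subr 21 2000 h1) (pr_add (pr_csub (enc_rat _ 30083549 100000000) (pr_scaleT 7299 10000 h1)) (pr_cmul (enc_norm (bx4q0_3.enc h1.l h2)) (pr_norm (pr_addc (pr_scaleT 127 11 h1) (enc_rat _ 140423 110000))))) (pr_add (pr_csub (enc_rat _ 236609491 800000000) (pr_scaleT 98679 400000 h1)) (pr_cmul (enc_norm (bx4q0_3.enc h1.l h2)) (pr_norm (pr_addc (pr_scaleT 97 40 h1) (enc_rat _ 109787 80000))))))) (pr_case (pr_subr 9 512 h1) (pr_add (pr_csub (enc_rat _ 5823056951 19700000000) (pr_scaleT 144434 615625 h1)) (pr_cmul (enc_norm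 (bx4q0_3.enc h1.l h2)) (pr_norm (pr_addc (pr_scaleT 992 985 h1) (enc_rat _ 2744007 1970000))))) (pr_case (pr_subr 1 40 h1) (pr_add (pr_csub (enc_rat _ 561386107 1900000000) (pr_scaleT 338098 1484375 h1)) (pr_cmul (enc_norm (bx4q0_3.enc h1.l h2)) (pr_norm (pr_addc (pr_scaleT 224 2375 h1) (enc_rat _ 267699 190000))))) (pr_add (pr_csub (enc_rat _ 206734863 700000000) (pr_scaleT 4868 21875 h1)) (pr_cmul (enc_norm (bx4q0_3.enc h1.l h2)) (pr_norm (pr_csub (enc_rat _ 99591 70000) (pr_scaleT 16 35 h1)))))))) (pr_case (pr_subr 1 10 h1) (pr_case (pr_subr 1 20 h1) (pr_add (pr_csub (enc_rat _ 171244633 580000000) (pr_scaleT 7979 36250 h1)) (pr_cmul (enc_norm (bx4q0_3.enc h1.l h2)) (pr_norm (pr_csub (enc_rat _ 83281 58000) (pr_scaleT 24 29 h1))))) (pr_case (pr_subr 7 100 h1) (pr_add (pr_csub (enc_rat _ 2361447 8000000) (pr_scaleT 437481 2000000 h1)) (pr_cmul (enc_norm (bx4q0_3.enc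 h1.l h2)) (pr_norm (pr_csub (enc_rat _ 1159 800) (pr_scaleT 217 200 h1))))) (pr_add (pr_csub (enc_rat _ 5902263 20000000) (pr_scaleT 217773 1000000 h1)) (pr_cmul (enc_norm (bx4q0_3.enc h1.l h2)) (pr_norm (pr_csub (enc_rat _ 8773 6000) (pr_scaleT 383 300 h1))))))) (pr_case (pr_subr 11 50 h1) (pr_case (pr_subr 3 20 h1) (pr_add (pr_csub (enc_rat _ 29505743 100000000) (pr_scaleT 1086079 5000000 h1)) (pr_cmul (enc_norm (bx4q0_3.enc h1.l h2)) (pr_norm (pr_csub (enc_rat _ 14751 10000) (pr_scaleT 703 500 h1))))) (pr_add (pr_csub (enc_rat _ 51632033 175000000) (pr_scaleT 759853 3500000 h1)) (pr_cmul (enc_norm (bx4q0_3.enc h1.l h2)) (pr_norm (pr_csub (enc_rat _ 26031 17500) (pr_scaleT 521 350 h1)))))) (pr_case (pr_subr 33 100 h1) (pr_add (pr_csub (enc_rat _ 14753091 50000000) (pr_scaleT 2389191 11000000 h1)) (pr_cmul (enc_norm (bx4q0_3.enc h1.l h2)) (pr_norm (pr_csub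 (enc_rat _ 7487 5000) (pr_scaleT 1687 1100 h1))))) (pr_add (pr_csub (enc_rat _ 502834209 1700000000) (pr_scaleT 116551 531250 h1)) (pr_cmul (enc_norm (bx4q0_3.enc h1.l h2)) (pr_norm (pr_csub (enc_rat _ 255113 170000) (pr_scaleT 656 425 h1))))))))))⟩
noncomputable def l4q0_s : Sl2 l4q0 := ⟨_, fun h1 h2 => (pr_norm (pr_mul (cv4m_s.snd h1) (bx4q0_s.snd h1 h2)))⟩
noncomputable def bd4q0_s : Sl2 bd4q0 := ⟨_, fun h1 h2 => (pr_norm (pr_case (pr_subr 9 512 h1) (pr_case (pr_subr 1 100 h1) (pr_subc (pr_csub (enc_rat _ 64475021 5000000) (pr_scaleT 1289 100 h1)) (bd4q0_15.enc h1.l h2)) (pr_subc (pr_csub (enc_rat _ 6254088537 485000000) (pr_scaleT 31264 2425 h1)) (bd4q0_15.enc h1.l h2))) (pr_case (pr_subr 581 20000 h1) (pr_subc (pr_csub (enc_rat _ 236691059091 18355000000) (pr_scaleT 47360 3671 h1)) (bd4q0_15.enc h1.l h2)) (pr_case (pr_subr 71 2000 h1) (pr_subc (pr_csub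 (enc_rat _ 2772355403 215000000) (pr_scaleT 554 43 h1)) (bd4q0_15.enc h1.l h2)) (pr_add (pr_csub (enc_rat _ 59897658003 4645000000) (pr_scaleT 14974507 1161250 h1)) (pr_cmul (enc_norm (bd4q0_3.enc h1.l h2)) (pr_norm (pr_subr 2929 464500 (pr_scaleT 8 929 h1)))))))))⟩
noncomputable def kc4q0_s : Sl2 kc4q0 := ⟨_, fun h1 h2 => (pr_norm (pr_mul (cv4m_s.snd h1) (bd4q0_s.snd h1 h2)))⟩
noncomputable def bf4q1_s : Sl2 bf4q1 := ⟨_, fun h1 h2 => (pr_norm (pr_case (pr_subr 7 8 h1) (pr_add (pr_subr 450097 1200000 (pr_scaleT 51565651 37500000 h1)) (pr_cmul (enc_norm (bf4q1_3.enc h1.l h2)) (pr_norm (pr_csub (enc_rat _ 1 40) (pr_scaleT 31 1250 h1))))) (pr_add (pr_subr 4688231 12500000 (pr_scaleT 17188231 12500000 h1)) (pr_cmul (enc_norm (bf4q1_3.enc h1.l h2)) (pr_norm (pr_csub (enc_rat _ 33 1250) (pr_scaleT 33 1250 h1)))))))⟩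
noncomputable def kf4q1_s : Sl2 kf4q1 := ⟨_, fun h1 h2 => (pr_norm (pr_mul (cv4m_s.snd h1) (bf4q1_s.snd h1 h2)))⟩
noncomputable def bx4q1_s : Sl2 bx4q1 := ⟨_, fun h1 h2 => (pr_norm (pr_case (pr_subr 7 8 h1) (pr_add (pr_csub (enc_rat _ 38093381 100000000) (pr_scaleT 4871101 12500000 h1)) (pr_cmul (enc_norm (bx4q1_3.enc h1.l h2)) (pr_norm (pr_csub (enc_rat _ 44551 30000) (pr_scaleT 5671 3750 h1))))) (pr_add (pr_csub (enc_rat _ 1997837 6250000) (pr_scaleT 1997837 6250000 h1)) (pr_cmul (enc_norm (bx4q1_3.enc h1.l h2)) (pr_norm (pr_csub (enc_rat _ 809 625) (pr_scaleT 809 625 h1)))))))⟩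
noncomputable def l4q1_s : Sl2 l4q1 := ⟨_, fun h1 h2 => (pr_norm (pr_mul (cv4m_s.snd h1) (bx4q1_s.snd h1 h2)))⟩
noncomputable def bd4q1_s : Sl2 bd4q1 := ⟨_, fun h1 h2 => (pr_norm (pr_add (pr_csub (enc_rat _ 32237507 2500000) (pr_scaleT 32237507 2500000 h1)) (pr_cmul (enc_norm (enc_subr 38847 40000 h2)) (pr_norm (pr_subr 1 250 (pr_scaleT 1 250 h1))))))⟩
noncomputable def kc4q1_s : Sl2 kc4q1 := ⟨_, fun h1 h2 => (pr_norm (pr_mul (cv4m_s.snd h1) (bd4q1_s.snd h1 h2)))⟩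
noncomputable def cv4p_s : Sl1 cv4p := ⟨_, fun h1 => (pr_norm (pr_add (pr_scaleT 3 10 (pr_subr 1 2 (swg_s.snd h1))) (pr_scaleT 7 10 (c3g_s.snd h1))))⟩
noncomputable def bf4q2_s : Sl2 bf4q2 := ⟨_, fun h1 h2 => (pr_norm (pr_case (pr_subr 21 20 h1) (pr_case (pr_subr 521 512 h1) (pr_add (pr_subr 42758711 7500000 (pr_scaleT 7481282 1171875 h1)) (pr_cmul (enc_norm (bf4q2_3.enc h1.l h2)) (pr_norm (pr_subr 128 1125 (pr_scaleT 352 5625 h1))))) (pr_case (pr_subr 2071 2000 h1) (pr_add (pr_subr 653893396971 114700000000 (pr_scaleT 22881832 3584375 h1)) (pr_cmul (enc_norm (bf4q2_3.enc h1.l h2)) (pr_norm (pr_subr 1356147 11470000 (pr_scaleT 384 5735 h1))))) (pr_add (pr_subr 570051647 100000000 (pr_scaleT 31917 5000 h1)) (pr_cmul (enc_norm (bf4q2_3.enc h1.l h2)) (pr_norm (pr_subr 34891 290000 (pr_scaleT 2 29 h1))))))) (pr_case (pr_subr 231 200 h1) (pr_case (pr_subr 107 100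 h1) (pr_add (pr_subr 570056267 100000000 (pr_scaleT 1595861 250000 h1)) (pr_cmul (enc_norm (bf4q2_3.enc h1.l h2)) (pr_norm (pr_subr 1319 10000 (pr_scaleT 2 25 h1))))) (pr_add (pr_subr 9691432047 1700000000 (pr_scaleT 6782687 1062500 h1)) (pr_cmul (enc_norm (bf4q2_3.enc h1.l h2)) (pr_norm (pr_subr 23279 170000 (pr_scaleT 36 425 h1)))))) (pr_case (pr_subr 13 10 h1) (pr_add (pr_subr 16532067651 2900000000 (pr_scaleT 11570263 1812500 h1)) (pr_cmul (enc_norm (bf4q2_3.enc h1.l h2)) (pr_norm (pr_subr 40907 290000 (pr_scaleT 64 725 h1))))) (pr_add (pr_subr 3562941 625000 (pr_scaleT 63835877 10000000 h1)) (pr_cmul (enc_norm (bf4q2_3.enc h1.l h2)) (pr_norm (pr_subr 71 500 (pr_scaleT 89 1000 h1)))))))))⟩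
noncomputable def kf4q2_s : Sl2 kf4q2 := ⟨_, fun h1 h2 => (pr_norm (pr_mul (cv4p_s.snd h1) (bf4q2_s.snd h1 h2)))⟩
noncomputable def bx4q2_s : Sl2 bx4q2 := ⟨_, fun h1 h2 => (pr_norm (pr_case (pr_subr 21 20 h1) (pr_case (pr_subr 521 512 h1) (pr_add (pr_csub (enc_rat _ 151115447 900000000) (pr_scaleT 635774 3515625 h1)) (pr_cmul (enc_norm (bx4q2_3.enc h1.l h2)) (pr_norm (pr_subr 2015921 90000 (pr_scaleT 122912 5625 h1))))) (pr_case (pr_subr 2071 2000 h1) (pr_add (pr_csub (enc_rat _ 1694271837 22940000000) (pr_scaleT 316922 3584375 h1)) (pr_cmul (enc_norm (bx4q2_3.enc h1.l h2)) (pr_norm (pr_subr 51473291 2294000 (pr_scaleT 125536 5735 h1))))) (pr_add (pr_csub (enc_rat _ 173895943 2900000000) (pr_scaleT 6797 90625 h1)) (pr_cmul (enc_norm (bx4q2_3.enc h1.l h2)) (pr_norm (pr_subr 1043849 290000 (pr_scaleT 536 145 h1))))))) (pr_case (pr_subr 231 200 h1) (pr_case (pr_subr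 107 100 h1) (pr_add (pr_csub (enc_rat _ 11535469 200000000) (pr_scaleT 145647 2000000 h1)) (pr_cmul (enc_norm (bx4q2_3.enc h1.l h2)) (pr_norm (pr_subr 49067 20000 (pr_scaleT 521 200 h1))))) (pr_add (pr_csub (enc_rat _ 5889317 106250000) (pr_scaleT 300569 4250000 h1)) (pr_cmul (enc_norm (bx4q2_3.enc h1.l h2)) (pr_norm (pr_subr 2311 1250 (pr_scaleT 51 25 h1)))))) (pr_case (pr_subr 13 10 h1) (pr_add (pr_subr 188544307 725000000 (pr_scaleT 1467613 7250000 h1)) (pr_cmul (enc_norm (bx4q2_3.enc h1.l h2)) (pr_norm (pr_subr 118099 72500 (pr_scaleT 1341 725 h1))))) (pr_add (pr_subr 29339987 25000000 (pr_scaleT 1131439 1250000 h1)) (pr_cmul (enc_norm (bx4q2_3.enc h1.l h2)) (pr_norm (pr_subr 3859 2500 (pr_scaleT 223 125 h1)))))))))⟩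
noncomputable def l4q2_s : Sl2 l4q2 := ⟨_, fun h1 h2 => (pr_norm (pr_mul (cv4p_s.snd h1) (bx4q2_s.snd h1 h2)))⟩
noncomputable def bd4q2_s : Sl2 bd4q2 := ⟨_, fun h1 h2 => (pr_norm (pr_case (pr_subr 231 200 h1) (pr_addc (pr_csub (enc_rat _ 5166382783 310000000) (pr_scaleT 81 62 h1)) (enc_scaleT 1 1000 (bd4q2_3.enc h1.l h2))) (pr_add (pr_csub (enc_rat _ 3833101761 230000000) (pr_scaleT 2253493 1725000 h1)) (pr_cmul (enc_norm (bd4q2_3.enc h1.l h2)) (pr_norm (pr_csub (enc_rat _ 177 23000) (pr_scaleT 2 345 h1)))))))⟩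
noncomputable def kc4q2_s : Sl2 kc4q2 := ⟨_, fun h1 h2 => (pr_norm (pr_mul (cv4p_s.snd h1) (bd4q2_s.snd h1 h2)))⟩
noncomputable def xc43_s : Sl1 xc43 := ⟨_, fun h1 => (pr_norm (pr_add (pr_scaleT 3 10 (pr_subr 1 2 (swg_s.snd (pr_nd (ycg_s.snd h1))))) (pr_scaleT 7 10 h1)))⟩
noncomputable def kfc43_32_s : Sl2 kfc43_32 := ⟨_, fun h1 h2 => (pr_scaleT 18 5 (ycg_s.snd h1))⟩
noncomputable def kfc43_s : Sl2 kfc43 := ⟨_, fun h1 h2 => (pr_norm (pr_mul (pr_norm (pr_add (pr_scaleT 3 10 (pr_subr 1 2 (swg_s.snd (pr_nd (ycg_s.snd h1))))) (pr_scaleT 7 10 h1))) (pr_norm (pr_case (pr_subr 987 500 (ycg_s.snd h1)) (pr_case (pr_subr 39 20 (ycg_s.snd h1)) (pr_case (pr_subr 193 100 (ycg_s.snd h1)) (pr_add (pr_subr 4937299813 2150000000 (pr_scaleT 31245659 21500000 (ycg_s.snd h1))) (pr_cmul (enc_norm (kfc43_11.enc h1.l h2)) (pr_norm (pr_csub (enc_rat _ 1163259 215000) (pr_scaleT 7737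 2150 (ycg_s.snd h1)))))) (pr_add (pr_subr 28698803 12500000 (pr_scaleT 72651 50000 (ycg_s.snd h1))) (pr_cmul (enc_norm (kfc43_11.enc h1.l h2)) (pr_norm (pr_csub (enc_rat _ 13533 2500) (kfc43_32_s.snd h1 h2)))))) (pr_case (pr_subr 3929 2000 (ycg_s.snd h1)) (pr_add (pr_subr 52040407 22656250 (pr_scaleT 2107661 1450000 (ycg_s.snd h1))) (pr_cmul (enc_norm (kfc43_11.enc h1.l h2)) (pr_norm (pr_csub (enc_rat _ 98358 18125) (pr_scaleT 523 145 (ycg_s.snd h1)))))) (pr_add (pr_subr 4362301423 1900000000 (pr_scaleT 690197 475000 (ycg_s.snd h1))) (pr_cmul (enc_norm (kfc43_11.enc h1.l h2)) (pr_norm (pr_csub (enc_rat _ 54131 10000) (kfc43_32_s.snd h1 h2))))))) (pr_case (pr_csub (enc_rat _ 154764337 1000000000) h1) (pr_case (pr_subr 1015 512 (ycg_s.snd h1)) (pr_add (pr_subr 17685849257 7700000000 (pr_scaleT 2448256 1684375 (ycg_s.snd h1))) (pr_cmul (enc_norm (kfc43_11.enc h1.l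 h2)) (pr_norm (pr_csub (enc_rat _ 4182751 770000) (pr_scaleT 9728 2695 (ycg_s.snd h1)))))) (pr_add (pr_addc (pr_scaleT 57631300 74370191 h1) (enc_rat _ 432456900494747 1062431300000000)) (pr_cmul (enc_norm (kfc43_11.enc h1.l h2)) (pr_norm (pr_subr 150995821 106243130000 (pr_neg (pr_scaleT 559000000 74370191 h1))))))) (pr_case (pr_csub (enc_rat _ 105307799 1000000000) h1) (pr_add (pr_addc (pr_scaleT 19160200 24728269 h1) (enc_rat _ 1006587107768561 2472826900000000)) (pr_cmul (enc_norm (kfc43_11.enc h1.l h2)) (pr_norm (pr_subr 148482223 247282690000 (pr_neg (pr_scaleT 186000000 24728269 h1)))))) (pr_case (pr_csub (enc_rat _ 54765409 1000000000) h1) (pr_add (pr_addc (pr_scaleT 3750635 5054239 h1) (enc_rat _ 414961497175269 1010847800000000)) (pr_cmul (enc_norm (kfc43_11.enc h1.l h2)) (pr_norm (pr_csub (enc_rat _ 9329933 101084780000) (pr_scaleT 38050000 5054239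 h1))))) (pr_sub (pr_csub (enc_rat _ 1 2) (pr_scaleT 48851460 54765409 h1)) (pr_cmul (enc_norm (kfc43_11.enc h1.l h2)) (pr_nd (pr_scaleT 412200000 54765409 h1)))))))))))⟩
noncomputable def lc43_s : Sl2 lc43 := ⟨_, fun h1 h2 => (pr_norm (pr_mul (pr_norm (pr_add (pr_scaleT 3 10 (pr_subr 1 2 (swg_s.snd (pr_nd (ycg_s.snd h1))))) (pr_scaleT 7 10 h1))) (pr_norm (pr_case (pr_subr 987 500 (ycg_s.snd h1)) (pr_case (pr_subr 39 20 (ycg_s.snd h1)) (pr_case (pr_subr 193 100 (ycg_s.snd h1)) (pr_add (pr_subr 512938439 268750000 (pr_scaleT 239967 172000 (ycg_s.snd h1))) (pr_cmul (enc_norm (lc43_11.enc h1.l h2)) (pr_norm (pr_subr 42223 26875 (pr_scaleT 155 86 (ycg_s.snd h1)))))) (pr_add (pr_subr 381741517 200000000 (pr_scaleT 2790417 2000000 (ycg_s.snd h1))) (pr_cmul (enc_norm (lc43_11.enc h1.l h2)) (pr_norm (pr_subr 33069 20000 (pr_scaleT 369 200 (ycg_s.snd h1))))))) (pr_case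 (pr_subr 3929 2000 (ycg_s.snd h1)) (pr_add (pr_subr 5527649629 2900000000 (pr_scaleT 2021103 1450000 (ycg_s.snd h1))) (pr_cmul (enc_norm (lc43_11.enc h1.l h2)) (pr_norm (pr_subr 493053 290000 (pr_scaleT 271 145 (ycg_s.snd h1)))))) (pr_add (pr_subr 1811899711 950000000 (pr_scaleT 66237 47500 (ycg_s.snd h1))) (pr_cmul (enc_norm (lc43_11.enc h1.l h2)) (pr_norm (pr_subr 166327 95000 (pr_scaleT 36 19 (ycg_s.snd h1)))))))) (pr_case (pr_csub (enc_rat _ 154764337 1000000000) h1) (pr_case (pr_subr 1015 512 (ycg_s.snd h1)) (pr_add (pr_subr 667121611 350000000 (pr_scaleT 213434 153125 (ycg_s.snd h1))) (pr_cmul (enc_norm (lc43_11.enc h1.l h2)) (pr_norm (pr_subr 668897 385000 (pr_scaleT 5088 2695 (ycg_s.snd h1)))))) (pr_add (pr_addc (pr_scaleT 5693760 74370191 h1) (enc_rat _ 892021375601373 1062431300000000)) (pr_cmul (enc_norm (lc43_11.enc h1.l h2)) (pr_norm (pr_csub (enc_rat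 _ 57408028523 15177590000) (pr_scaleT 82400000 10624313 h1)))))) (pr_case (pr_csub (enc_rat _ 105307799 1000000000) h1) (pr_add (pr_addc (pr_scaleT 1082650 24728269 h1) (enc_rat _ 261092394913969 309103362500000)) (pr_cmul (enc_norm (lc43_11.enc h1.l h2)) (pr_norm (pr_csub (enc_rat _ 58236690779 15455168125) (pr_scaleT 189500000 24728269 h1))))) (pr_case (pr_csub (enc_rat _ 54765409 1000000000) h1) (pr_add (pr_csub (enc_rat _ 4305871571307 5054239000000) (pr_scaleT 126970 5054239 h1)) (pr_cmul (enc_norm (lc43_11.enc h1.l h2)) (pr_norm (pr_csub (enc_rat _ 173776557 50542390) (pr_scaleT 22900000 5054239 h1))))) (pr_add (pr_csub (enc_rat _ 12759566053 15000000000) (pr_scaleT 1212103 821481135 h1)) (pr_cmul (enc_norm (lc43_11.enc h1.l h2)) (pr_norm (pr_csub (enc_rat _ 5146421 1500000) (pr_scaleT 722542000 164296227 h1))))))))))))⟩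
noncomputable def kcc43_s : Sl2 kcc43 := ⟨_, fun h1 h2 => (pr_norm (pr_mul (pr_norm (pr_add (pr_scaleT 3 10 (pr_subr 1 2 (swg_s.snd (pr_nd (ycg_s.snd h1))))) (pr_scaleT 7 10 h1))) (pr_norm (pr_case (pr_subr 197 100 (ycg_s.snd h1)) (pr_case (pr_subr 3929 2000 (ycg_s.snd h1)) (pr_add (pr_csub (enc_rat _ 154820591503 9290000000) (pr_scaleT 1516743 1161250 (ycg_s.snd h1))) (pr_cmul (enc_norm (kcc43_11.enc h1.l h2)) (pr_norm (pr_csub (enc_rat _ 11071 929000) (pr_scaleT 8 929 (ycg_s.snd h1)))))) (pr_subc (pr_csub (enc_rat _ 366764477 22000000) (pr_scaleT 72 55 (ycg_s.snd h1))) (kcc43_33.enc h1.l h2))) (pr_case (pr_subr 1015 512 (ycg_s.snd h1)) (pr_subc (pr_csub (enc_rat _ 1766106371 106000000) (pr_scaleT 1728 1325 (ycg_s.snd h1))) (kcc43_33.enc h1.l h2)) (pr_add (pr_addc (pr_scaleT 44311095875 1366623792 h1) (enc_rat _ 11099819 1670000)) (pr_cmul (enc_norm (kcc43_11.enc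 h1.l h2)) (pr_norm (pr_subr 42117 167 (pr_scaleT 94009296875 85413987 h1))))))))))⟩
noncomputable def kf5q0_s : Sl2 kf5q0 := ⟨_, fun h1 h2 => (pr_norm (pr_sub (pr_mul h1 (kcg_s.snd (pr_nd (pr_half h1)) h2)) (pr_mul (pr_norm (pr_mul (pr_nd (pr_sq h1)) (pr_norm (pr_addc (c3g_s.snd h1) (enc_rat _ 3 2))))) (pr_nd (pr_inv (pr_mul (pr_norm (pr_csub (enc_pnc _ 1) h1)) (pr_norm (pr_cadd (enc_pnc _ 1) h1))))))))⟩
noncomputable def l5q0_6_s : Sl2 l5q0_6 := ⟨_, fun h1 h2 => (pr_half h1)⟩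
noncomputable def l5q0_7_s : Sl2 l5q0_7 := ⟨_, fun h1 h2 => (pr_half (c3g_s.snd h1))⟩
noncomputable def l5q0_8_s : Sl2 l5q0_8 := ⟨_, fun h1 h2 => (pr_scaleT 1 4 h1)⟩
noncomputable def l5q0_s : Sl2 l5q0 := ⟨_, fun h1 h2 => (pr_norm (pr_add (txg_s.snd (pr_nd (l5q0_6_s.snd h1 h2)) (pr_norm (pr_sub (l5q0_7_s.snd h1 h2) (l5q0_8_s.snd h1 h2))) h2) (txg_s.snd (pr_nd (pr_neg (l5q0_6_s.snd h1 h2))) (pr_norm (pr_add (l5q0_7_s.snd h1 h2) (l5q0_8_s.snd h1 h2))) h2)))⟩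
noncomputable def kc5q0_6_s : Sl2 kc5q0_6 := ⟨_, fun h1 h2 => (pr_half h1)⟩
noncomputable def kc5q0_s : Sl2 kc5q0 := ⟨_, fun h1 h2 => (pr_norm (pr_case (pr_subr 167 1000 (kc5q0_6_s.snd h1 h2)) (pr_add (pr_csub (enc_rat _ 638569531 10000000) (pr_scaleT 331619481 3340000 h1)) (pr_cmul (enc_norm (kc5q0_3.enc h1.l h2)) (pr_norm (pr_csub (enc_rat _ 67 1000) (pr_scaleT 217 334 h1))))) (pr_case (pr_subr 333 1000 (kc5q0_6_s.snd h1 h2)) (pr_add (pr_csub (enc_rat _ 26500666949 415000000) (pr_scaleT 41204311 415000 h1)) (pr_cmul (enc_norm (kc5q0_3.enc h1.l h2)) (pr_norm (pr_csub (enc_rat _ 2793 41500) (pr_scaleT 54 83 h1))))) (pr_add (pr_subr 11342219 1670000 (pr_scaleT 11342219 1670000 h1)) (pr_cmul (enc_norm (kc5q0_3.enc h1.l h2)) (pr_norm (pr_subr 183 167 (pr_scaleT 183 167 h1))))))))⟩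
noncomputable def kf5q1_s : Sl2 kf5q1 := ⟨_, fun h1 h2 => (pr_norm (pr_add (pr_mul (pr_norm (pr_mul h1 (pr_norm (pr_addc (c3g_s.snd h1) (enc_rat _ 3 2))))) (pr_nd (pr_inv (pr_cadd (enc_pnc _ 1) h1)))) (pr_mul (pr_norm (pr_subn 1 h1)) (kcg_s.snd (pr_nd (pr_half h1)) h2))))⟩
noncomputable def l5q1_7_s : Sl2 l5q1_7 := ⟨_, fun h1 h2 => (pr_half h1)⟩
noncomputable def l5q1_8_s : Sl2 l5q1_8 := ⟨_, fun h1 h2 => (pr_half (c3g_s.snd h1))⟩
noncomputable def l5q1_9_s : Sl2 l5q1_9 := ⟨_, fun h1 h2 => (pr_scaleT 1 4 h1)⟩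
noncomputable def l5q1_s : Sl2 l5q1 := ⟨_, fun h1 h2 => (pr_norm (pr_add (txg_s.snd (pr_nd (l5q1_7_s.snd h1 h2)) (pr_norm (pr_sub (l5q1_8_s.snd h1 h2) (l5q1_9_s.snd h1 h2))) h2) (txg_s.snd (pr_nd (pr_neg (l5q1_7_s.snd h1 h2))) (pr_norm (pr_add (l5q1_8_s.snd h1 h2) (l5q1_9_s.snd h1 h2))) h2)))⟩
noncomputable def kc5q1_7_s : Sl2 kc5q1_7 := ⟨_, fun h1 h2 => (pr_half h1)⟩
noncomputable def kc5q1_s : Sl2 kc5q1 := ⟨_, fun h1 h2 => (pr_norm (pr_case (pr_subr 167 1000 (kc5q1_7_s.snd h1 h2)) (pr_add (pr_csub (enc_rat _ 638569531 10000000) (pr_scaleT 331619481 3340000 h1)) (pr_cmul (enc_norm (kc5q1_3.enc h1.l h2)) (pr_norm (pr_csub (enc_rat _ 67 1000) (pr_scaleT 217 334 h1))))) (pr_case (pr_subr 333 1000 (kc5q1_7_s.snd h1 h2)) (pr_add (pr_csub (enc_rat _ 26500666949 415000000) (pr_scaleT 41204311 415000 h1)) (pr_cmul (enc_norm (kc5q1_3.enc h1.l h2)) (pr_norm (pr_csub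 (enc_rat _ 2793 41500) (pr_scaleT 54 83 h1))))) (pr_add (pr_subr 11342219 1670000 (pr_scaleT 11342219 1670000 h1)) (pr_cmul (enc_norm (kc5q1_3.enc h1.l h2)) (pr_norm (pr_subr 183 167 (pr_scaleT 183 167 h1))))))))⟩
noncomputable def kf5q2_s : Sl2 kf5q2 := ⟨_, fun h1 h2 => (pr_norm (pr_add (pr_mul (pr_norm (pr_mul (pr_norm (pr_sub (pr_nat 2 (c3g_s.snd h1)) h1)) (pr_norm (pr_sub (pr_addc (c3g_s.snd h1) (enc_pnc _ 3)) (pr_scaleT 3 2 h1))))) (pr_nd (pr_inv (pr_nat 4 (pr_csub (enc_pnc _ 2) h1))))) (pr_mul (pr_norm (pr_subn 1 h1)) (kcg_s.snd (pr_norm (pr_sub (pr_scaleT 1 4 h1) (pr_half (c3g_s.snd h1)))) h2))))⟩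
noncomputable def l5q2_7_s : Sl2 l5q2_7 := ⟨_, fun h1 h2 => (pr_half (c3g_s.snd h1))⟩
noncomputable def l5q2_8_s : Sl2 l5q2_8 := ⟨_, fun h1 h2 => (pr_scaleT 1 4 h1)⟩
noncomputable def l5q2_9_s : Sl2 l5q2_9 := ⟨_, fun h1 h2 => (pr_sub (l5q2_7_s.snd h1 h2) (l5q2_8_s.snd h1 h2))⟩
noncomputable def l5q2_12_s : Sl2 l5q2_12 := ⟨_, fun h1 h2 => (pr_add (pr_scaleT 1 4 (c3g_s.snd h1)) (pr_scaleT 3 8 h1))⟩
noncomputable def l5q2_14_s : Sl2 l5q2_14 := ⟨_, fun h1 h2 => (pr_half (l5q2_9_s.snd h1 h2))⟩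
noncomputable def l5q2_s : Sl2 l5q2 := ⟨_, fun h1 h2 => (pr_norm (pr_sub (pr_nat 2 (txg_s.snd (pr_norm (pr_sub (l5q2_8_s.snd h1 h2) (l5q2_7_s.snd h1 h2))) (pr_norm (pr_add (l5q2_12_s.snd h1 h2) (l5q2_14_s.snd h1 h2))) h2)) (txg_s.snd (pr_norm (l5q2_9_s.snd h1 h2)) (pr_norm (pr_sub (l5q2_12_s.snd h1 h2) (l5q2_14_s.snd h1 h2))) h2)))⟩
noncomputable def kc5q2_9_s : Sl2 kc5q2_9 := ⟨_, fun h1 h2 => (pr_sub (pr_half (c3g_s.snd h1)) (pr_scaleT 1 4 h1))⟩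
noncomputable def kc5q2_s : Sl2 kc5q2 := ⟨_, fun h1 h2 => (pr_norm (pr_case (kc5q2_9_s.snd h1 h2) (pr_case (pr_addc (kc5q2_9_s.snd h1 h2) (enc_rat _ 333 1000)) (pr_add (pr_addc (pr_scaleT 11099819 835000 (kc5q2_9_s.snd h1 h2)) (enc_rat _ 11099819 1670000)) (pr_cmul (enc_norm (kc5q2_3.enc h1.l h2)) (pr_norm (pr_subr 42117 167 (pr_neg (pr_scaleT 84234 167 (kc5q2_9_s.snd h1 h2))))))) (pr_case (pr_addc (kc5q2_9_s.snd h1 h2) (enc_rat _ 167 1000)) (pr_add (pr_subr 1710209377 830000000 (pr_neg (pr_scaleT 10669007 830000 (kc5q2_9_s.snd h1 h2)))) (pr_cmul (enc_norm (kc5q2_3.enc h1.l h2)) (pr_norm (pr_subr 3494589 83000 (pr_scaleT 10501 83 (kc5q2_9_s.snd h1 h2)))))) (pr_add (pr_subr 20605251 10000000 (pr_neg (pr_scaleT 34347 2672 (kc5q2_9_s.snd h1 h2)))) (pr_cmul (enc_norm (kc5q2_3.enc h1.l h2)) (pr_norm (pr_subr 42107 1000 (pr_scaleT 21125 167 (kc5q2_9_s.snd h1 h2))))))))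 (pr_case (pr_subr 167 1000 (kc5q2_9_s.snd h1 h2)) (pr_add (pr_subr 20605251 10000000 (pr_neg (pr_scaleT 536671 41750 (kc5q2_9_s.snd h1 h2)))) (pr_cmul (enc_norm (kc5q2_3.enc h1.l h2)) (pr_norm (pr_subr 42107 1000 (pr_scaleT 21120 167 (kc5q2_9_s.snd h1 h2)))))) (pr_case (pr_subr 333 1000 (kc5q2_9_s.snd h1 h2)) (pr_add (pr_subr 684106793 332000000 (pr_neg (pr_scaleT 21337923 1660000 (kc5q2_9_s.snd h1 h2)))) (pr_cmul (enc_norm (kc5q2_3.enc h1.l h2)) (pr_norm (pr_subr 1397801 33200 (pr_scaleT 20989 166 (kc5q2_9_s.snd h1 h2)))))) (pr_add (pr_subr 31705007 1670000 (pr_scaleT 31705007 835000 (kc5q2_9_s.snd h1 h2))) (pr_cmul (enc_norm (kc5q2_3.enc h1.l h2)) (pr_norm (pr_csub (enc_rat _ 1 167) (pr_scaleT 2 167 (kc5q2_9_s.snd h1 h2))))))))))⟩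
noncomputable def kfc53_s : Sl2 kfc53 := ⟨_, fun h1 h2 => (pr_norm (pr_sub (pr_mul (pr_norm (pr_subn 2 (ycg_s.snd h1))) (kcg_s.snd (pr_norm (pr_sub (pr_scaleT 1 4 (ycg_s.snd h1)) (pr_half h1))) h2)) (pr_mul (pr_norm (pr_mul (pr_norm (pr_sub (pr_nat 2 h1) (ycg_s.snd h1))) (pr_norm (pr_sub (pr_addc h1 (enc_pnc _ 3)) (pr_scaleT 3 2 (ycg_s.snd h1)))))) (pr_nd (pr_inv (pr_nat 4 (pr_subn 1 (ycg_s.snd h1))))))))⟩
noncomputable def lc53_7_s : Sl2 lc53_7 := ⟨_, fun h1 h2 => (pr_half h1)⟩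
noncomputable def lc53_8_s : Sl2 lc53_8 := ⟨_, fun h1 h2 => (pr_scaleT 1 4 (ycg_s.snd h1))⟩
noncomputable def lc53_9_s : Sl2 lc53_9 := ⟨_, fun h1 h2 => (pr_sub (lc53_7_s.snd h1 h2) (lc53_8_s.snd h1 h2))⟩
noncomputable def lc53_12_s : Sl2 lc53_12 := ⟨_, fun h1 h2 => (pr_add (pr_scaleT 1 4 h1) (pr_scaleT 3 8 (ycg_s.snd h1)))⟩
noncomputable def lc53_14_s : Sl2 lc53_14 := ⟨_, fun h1 h2 => (pr_half (lc53_9_s.snd h1 h2))⟩
noncomputable def lc53_s : Sl2 lc53 := ⟨_, fun h1 h2 => (pr_norm (pr_sub (pr_nat 2 (txg_s.snd (pr_norm (pr_sub (lc53_8_s.snd h1 h2) (lc53_7_s.snd h1 h2))) (pr_norm (pr_add (lc53_12_s.snd h1 h2) (lc53_14_s.snd h1 h2))) h2)) (txg_s.snd (pr_norm (lc53_9_s.snd h1 h2)) (pr_norm (pr_sub (lc53_12_s.snd h1 h2) (lc53_14_s.snd h1 h2))) h2)))⟩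
noncomputable def kcc53_9_s : Sl2 kcc53_9 := ⟨_, fun h1 h2 => (pr_sub (pr_half h1) (pr_scaleT 1 4 (ycg_s.snd h1)))⟩
noncomputable def kcc53_s : Sl2 kcc53 := ⟨_, fun h1 h2 => (pr_norm (pr_case (kcc53_9_s.snd h1 h2) (pr_case (pr_addc (kcc53_9_s.snd h1 h2) (enc_rat _ 333 1000)) (pr_add (pr_addc (pr_scaleT 11099819 835000 (kcc53_9_s.snd h1 h2)) (enc_rat _ 11099819 1670000)) (pr_cmul (enc_norm (kcc53_4.enc h1.l h2)) (pr_norm (pr_subr 42117 167 (pr_neg (pr_scaleT 84234 167 (kcc53_9_s.snd h1 h2))))))) (pr_case (pr_addc (kcc53_9_s.snd h1 h2) (enc_rat _ 167 1000)) (pr_add (pr_subr 1710209377 830000000 (pr_neg (pr_scaleT 10669007 830000 (kcc53_9_s.snd h1 h2)))) (pr_cmul (enc_norm (kcc53_4.enc h1.l h2)) (pr_norm (pr_subr 3494589 83000 (pr_scaleT 10501 83 (kcc53_9_s.snd h1 h2)))))) (pr_add (pr_subr 20605251 10000000 (pr_neg (pr_scaleT 34347 2672 (kcc53_9_s.snd h1 h2))))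 (pr_cmul (enc_norm (kcc53_4.enc h1.l h2)) (pr_norm (pr_subr 42107 1000 (pr_scaleT 21125 167 (kcc53_9_s.snd h1 h2)))))))) (pr_case (pr_subr 167 1000 (kcc53_9_s.snd h1 h2)) (pr_add (pr_subr 20605251 10000000 (pr_neg (pr_scaleT 536671 41750 (kcc53_9_s.snd h1 h2)))) (pr_cmul (enc_norm (kcc53_4.enc h1.l h2)) (pr_norm (pr_subr 42107 1000 (pr_scaleT 21120 167 (kcc53_9_s.snd h1 h2)))))) (pr_case (pr_subr 333 1000 (kcc53_9_s.snd h1 h2)) (pr_add (pr_subr 684106793 332000000 (pr_neg (pr_scaleT 21337923 1660000 (kcc53_9_s.snd h1 h2)))) (pr_cmul (enc_norm (kcc53_4.enc h1.l h2)) (pr_norm (pr_subr 1397801 33200 (pr_scaleT 20989 166 (kcc53_9_s.snd h1 h2)))))) (pr_add (pr_subr 31705007 1670000 (pr_scaleT 31705007 835000 (kcc53_9_s.snd h1 h2))) (pr_cmul (enc_norm (kcc53_4.enc h1.l h2)) (pr_norm (pr_csub (enc_rat _ 1 167) (pr_scaleT 2 167 (kcc53_9_s.snd h1 h2))))))))))⟩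
noncomputable def gB0q0 : Gn := ⟨ndB0q0, c1g_s, kf0q0_s, l0q0_s, false⟩
noncomputable def dB0q0 : CnW := ⟨cd0q0, kc0q0_s⟩
noncomputable def gB0q1 : Gn := ⟨ndB0q1, c1g_s, kf0q1_s, l0q1_s, false⟩
noncomputable def dB0q1 : CnW := ⟨cd0q1, kc0q1_s⟩
noncomputable def gB0q2 : Gn := ⟨ndB0q2, idf_s, kfc02_s, lc02_s, true⟩
noncomputable def dB0q2 : CnW := ⟨cd0q2, kcc02_s⟩
noncomputable def gB1q0 : Gn := ⟨ndB1q0, cv1m_s, kf1q0_s, l1q0_s, false⟩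
noncomputable def dB1q0 : CnW := ⟨cd1q0, kc1q0_s⟩
noncomputable def gB1q1 : Gn := ⟨ndB1q1, cv1m_s, kf1q1_s, l1q1_s, false⟩
noncomputable def dB1q1 : CnW := ⟨cd1q1, kc1q1_s⟩
noncomputable def gB1q2 : Gn := ⟨ndB1q2, cv1p_s, kf1q2_s, l1q2_s, false⟩
noncomputable def dB1q2 : CnW := ⟨cd1q2, kc1q2_s⟩
noncomputable def gB1q3 : Gn := ⟨ndB1q3, cv1r_s, kf1q3_s, l1q3_s, false⟩
noncomputable def dB1q3 : CnW := ⟨cd1q3, kc1q3_s⟩
noncomputable def gB2q0 : Gn := ⟨ndB2q0, cv2m_s, kf2q0_s, l2q0_s, false⟩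
noncomputable def dB2q0 : CnW := ⟨cd2q0, kc2q0_s⟩
noncomputable def gB2q1 : Gn := ⟨ndB2q1, cv2m_s, kf2q1_s, l2q1_s, false⟩
noncomputable def dB2q1 : CnW := ⟨cd2q1, kc2q1_s⟩
noncomputable def gB2q2 : Gn := ⟨ndB2q2, cv2p_s, kf2q2_s, l2q2_s, false⟩
noncomputable def dB2q2 : CnW := ⟨cd2q2, kc2q2_s⟩
noncomputable def gB2q3 : Gn := ⟨ndB2q3, cv2r_s, kf2q3_s, l2q3_s, false⟩
noncomputable def dB2q3 : CnW := ⟨cd2q3, kc2q3_s⟩
noncomputable def gB3q0 : Gn := ⟨ndB3q0, cv3m_s, kf3q0_s, l3q0_s, false⟩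
noncomputable def dB3q0 : CnW := ⟨cd3q0, kc3q0_s⟩
noncomputable def gB3q1 : Gn := ⟨ndB3q1, cv3m_s, kf3q1_s, l3q1_s, false⟩
noncomputable def dB3q1 : CnW := ⟨cd3q1, kc3q1_s⟩
noncomputable def gB3q2 : Gn := ⟨ndB3q2, cv3p_s, kf3q2_s, l3q2_s, false⟩
noncomputable def dB3q2 : CnW := ⟨cd3q2, kc3q2_s⟩
noncomputable def gB3q3 : Gn := ⟨ndB3q3, xc33_s, kfc33_s, lc33_s, false⟩
noncomputable def dB3q3 : CnW := ⟨cd3q3, kcc33_s⟩
noncomputable def gB4q0 : Gn := ⟨ndB4q0, cv4m_s, kf4q0_s, l4q0_s, false⟩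
noncomputable def dB4q0 : CnW := ⟨cd4q0, kc4q0_s⟩
noncomputable def gB4q1 : Gn := ⟨ndB4q1, cv4m_s, kf4q1_s, l4q1_s, false⟩
noncomputable def dB4q1 : CnW := ⟨cd4q1, kc4q1_s⟩
noncomputable def gB4q2 : Gn := ⟨ndB4q2, cv4p_s, kf4q2_s, l4q2_s, false⟩
noncomputable def dB4q2 : CnW := ⟨cd4q2, kc4q2_s⟩
noncomputable def gB4q3 : Gn := ⟨ndB4q3, xc43_s, kfc43_s, lc43_s, false⟩
noncomputable def dB4q3 : CnW := ⟨cd4q3, kcc43_s⟩
noncomputable def gB5q0 : Gn := ⟨ndB5q0, c3g_s, kf5q0_s, l5q0_s, false⟩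
noncomputable def dB5q0 : CnW := ⟨cd5q0, kc5q0_s⟩
noncomputable def gB5q1 : Gn := ⟨ndB5q1, c3g_s, kf5q1_s, l5q1_s, false⟩
noncomputable def dB5q1 : CnW := ⟨cd5q1, kc5q1_s⟩
noncomputable def gB5q2 : Gn := ⟨ndB5q2, c3g_s, kf5q2_s, l5q2_s, false⟩
noncomputable def dB5q2 : CnW := ⟨cd5q2, kc5q2_s⟩
noncomputable def gB5q3 : Gn := ⟨ndB5q3, idf_s, kfc53_s, lc53_s, false⟩
noncomputable def dB5q3 : CnW := ⟨cd5q3, kcc53_s⟩
noncomputable def gB0q3 : Gn := gz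
noncomputable def dB0q3 : CnW := ⟨fz2, fz2_s⟩
noncomputable def gB (j : Fin 6) (q : ℕ) : Gn :=
  match j, q with
  | 0, 0 => gB0q0
  | 0, 1 => gB0q1
  | 0, 2 => gB0q2
  | 0, 3 => gB0q3
  | 1, 0 => gB1q0
  | 1, 1 => gB1q1
  | 1, 2 => gB1q2
  | 1, 3 => gB1q3
  | 2, 0 => gB2q0
  | 2, 1 => gB2q1
  | 2, 2 => gB2q2
  | 2, 3 => gB2q3
  | 3, 0 => gB3q0
  | 3, 1 => gB3q1
  | 3, 2 => gB3q2
  | 3, 3 => gB3q3
  | 4, 0 => gB4q0
  | 4, 1 => gB4q1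
  | 4, 2 => gB4q2
  | 4, 3 => gB4q3
  | 5, 0 => gB5q0
  | 5, 1 => gB5q1
  | 5, 2 => gB5q2
  | 5, 3 => gB5q3
  | _, _ => gB0q0

noncomputable def dB (j : Fin 6) (q : ℕ) : CnW :=
  match j, q with
  | 0, 0 => dB0q0
  | 0, 1 => dB0q1
  | 0, 2 => dB0q2
  | 0, 3 => dB0q3
  | 1, 0 => dB1q0
  | 1, 1 => dB1q1
  | 1, 2 => dB1q2
  | 1, 3 => dB1q3
  | 2, 0 => dB2q0
  | 2, 1 => dB2q1
  | 2, 2 => dB2q2
  | 2, 3 => dB2q3
  | 3, 0 => dB3q0
  | 3, 1 => dB3q1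
  | 3, 2 => dB3q2
  | 3, 3 => dB3q3
  | 4, 0 => dB4q0
  | 4, 1 => dB4q1
  | 4, 2 => dB4q2
  | 4, 3 => dB4q3
  | 5, 0 => dB5q0
  | 5, 1 => dB5q1
  | 5, 2 => dB5q2
  | 5, 3 => dB5q3
  | _, _ => dB0q0

noncomputable def c0B : Fn1 := ⟨fun _ => pone, fun _ => 1, fun _ => enc_one _⟩

end Pool.Agent.Strip051.G.I9688_9736.Tab
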