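import Pool.Agent.Strip051.G.I9688_9736.StH
import Pool.Agent.Strip051.G.I9688_9736.StF

/-! # Unit strips 0 (generated) -/

set_option linter.all false
set_option maxRecDepth 100000

namespace Pool.Agent.Strip051.G.I9688_9736.Tab.St.C

open Pool.Agent.Strip051.PB Pool.Agent.Strip051.PB.T Pool.Agent.StripNear Pool.Agent.Strip051.LC
open Pool.Agent.Strip051.G.I9688_9736.Tab Pool.Agent.Strip051.G.I9688_9736.Tab.St

noncomputable def cut_A00pm_012_s1 : Cut := Cut.of [[⟨4, 0, 0, 1449551462⟩], [⟨0, 0, 0, 16777216⟩, ⟨1, 1, 0, 16777216⟩, ⟨2, 1, 0, 16777216⟩]]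

noncomputable def xt_A00pm_012_s1 : Ext := strExt dd true true false .u0 .u0m .u2 .pnp 0 1 2 rfl rfl gf2 vv ndB0q0 ndB0q1

noncomputable def f_A00pm_012_s1 : ℕ → ℕ → ℕ → ℕ → Bool := onCell 1073741824 536870912 536870912 536870912 1040187392 5207648
    (rowF 2 true true false .pnp 0 1 2 (qsf 0 536870912 536870912 536870912 2) ndB0q0 ndB0q1 pcB2 cut_A00pm_012_s1 xt_A00pm_012_s1)

def k0_A00pm_012_s1 : ∃ t, chk3 f_A00pm_012_s1 t 4 2 1 = true :=
  ⟨(a (l 3) (l 3)), by decide +kernel⟩

def k1_A00pm_012_s1 : ∃ t, chk3 f_A00pm_012_s1 t 4 6 1 = true :=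
  ⟨(a (l 3) (a (a (l 3) (b (l 3) (b (l 3) (a (l 3) (l 527852671))))) (b (a (l 3) (b (l 3) (a (b (l 3) (b (l 3) (l 528122239))) (b (a (l 3) (l 528231295)) (a (l 528180095) (l 528209279)))))) (a (b (a (l 3) (l 528030847)) (a (b (a (l 527921023) (l 527955071)) (l 527912319)) (b (b (l 528004735) (l 527725951)) (a (l 527969151) (l 528002943))))) (b (a (l 528092031) (b (l 527893631) (l 527873151))) (a (b (l 527794047) (b (a (l 16741952) (b (l 16735304) (a (l 16733288) (b (l 16729856) (a (l 16728824) (l 16725544)))))) (a (b (l 16735552) (a (l 16733352) (b (l 16729808) (a (l 16728624) (l 16725008))))) (b (a (b (l 16729904) (a (l 16728800) (l 16725408))) (a (b (l 16725504) (l 16719936)) (l 16717072))) (a (a (b (l 16725240) (l 16719296)) (l 16716520)) (l 16707624)))))) (b (a (b (l 16740552) (b (l 16734704) (a (l 16732864) (b (l 16729352) (l 16716024))))) (b (b (l 16733760) (a (l 16732096) (a (l 16728528) (l 16725312)))) (a (b (b (l 16728912) (l 16715584)) (a (l 16722416) (l 16716688))) (b (l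 16718920) (l 16707888))))) (a (b (a (b (b (l 16729672) (a (l 16728704) (l 16725456))) (a (b (l 16725520) (l 16720224)) (l 16717280))) (b (a (l 16712320) (l 16717152)) (l 16708440))) (l 16654192)) (b (l 16654712) (l 16672768)))))))))), by decide +kernel⟩

def k2_A00pm_012_s1 : ∃ t, chk3 f_A00pm_012_s1 t 8 14 1 = true :=
  ⟨(b (l 3) (b (l 3) (a (l 3) (a (l 3) (a (a (l 3) (b (l 3) (b (l 3) (a (b (l 3) (l 527018367)) (l 527413263))))) (b (l 527200527) (a (l 527443327) (l 527485567)))))))), by decide +kernel⟩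

def k3_A00pm_012_s1 : ∃ t, chk3 f_A00pm_012_s1 t 16 30 1 = true :=
  ⟨(b (l 3) (a (l 3) (a (l 3) (a (l 3) (b (l 3) (b (l 3) (a (l 512537871) (a (l 513064575) (l 513668479))))))))), by decide +kernel⟩

def k4_A00pm_012_s1 : ∃ t, chk3 f_A00pm_012_s1 t 32 62 1 = true :=
  ⟨(b (l 3) (a (l 3) (a (l 3) (b (l 3) (a (l 3) (b (l 3) (a (l 3) (b (l 3) (l 509012863))))))))), by decide +kernel⟩

def k5_A00pm_012_s1 : ∃ t, chk3 f_A00pm_012_s1 t 33 124 1 = true :=
  ⟨(a (a (l 3) (a (l 3) (b (l 3) (a (l 509145471) (l 509268863))))) (a (a (b (l 509970303) (a (l 509451647) (l 509694591))) (b (l 510571903) (l 509896207))) (b (a (c (l 511480959) (l 511623807)) (b (l 512705663) (l 512331391))) (b (a (a (l 510939263) (l 511427199)) (b (l 512886287) (a (l 16741088) (b (l 16737352) (a (l 16735880) (b (l 16734128) (a (l 16733376) (b (l 16732504) (l 16726512))))))))) (a (b (l 510947967) (a (l 16740920) (b (l 16736704) (a (l 16735224) (b (a (l 16733880) (l 16727168)) (a (l 16727080) (l 16725632))))))) (b (a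 (b (l 16736960) (a (l 16735488) (b (l 16733592) (a (l 16732792) (b (l 16726584) (l 16720584)))))) (b (a (b (l 16733840) (a (l 16733096) (b (l 16732128) (l 16726160)))) (b (a (b (l 16732304) (l 16726336)) (l 16725264)) (l 16729384))) (a (b (a (b (l 16721480) (l 16726000)) (l 16730008)) (l 16728840)) (l 16726272)))) (a (b (a (b (l 16722800) (a (l 16722032) (b (l 16726328) (l 16730696)))) (b (a (a (l 16726416) (l 16720448)) (l 16729528)) (l 16728416))) (a (b (a (b (l 16726208) (l 16730488)) (l 16729136)) (l 16728032)) (l 16725376))) (l 16721960)))))))), by decide +kernel⟩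

def k6_A00pm_012_s1 : ∃ t, chk3 f_A00pm_012_s1 t 66 125 1 = true :=
  ⟨(b (b (a (l 3) (a (l 508652159) (l 508788095))) (a (a (l 3) (a (l 508621695) (l 508513919))) (a (l 508443519) (l 508582271)))) (b (a (a (a (l 3) (l 508621327)) (a (l 508457855) (l 508350847))) (a (l 509088015) (b (a (l 16743760) (a (l 16743888) (b (l 16742088) (b (l 16739728) (a (l 16738992) (l 16726712)))))) (a (a (l 16744392) (b (l 16742552) (b (l 16740032) (a (l 16728816) (l 16737616))))) (b (a (b (l 16739944) (a (l 16739136) (l 16726928))) (b (a (l 16726816) (l 16735472)) (l 16734408))) (a (b (a (l 16737520) (l 16735456)) (l 16734448)) (l 16731336))))))) (a (a (a (b (l 508767615) (l 508692607)) (b (l 508523791) (l 508448639))) (a (b (l 508360575) (l 508290175)) (l 508225407))) (a (b (a (l 508208511) (b (l 16744808) (a (l 16743216) (b (a (l 16741496) (l 16739696)) (a (l 16739840) (l 16737760)))))) (a (b (a (l 16747160) (b (l 16744440) (l 16742640))) (a (b (l 16744736) (a (l 16743976) (l 16742128))) (b (a (l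 16741968) (l 16740152)) (l 16739128)))) (a (b (b (a (l 16741680) (l 16739968)) (l 16739072)) (l 16735848)) (l 16733680)))) (b (a (b (a (b (l 16740224) (a (l 16729072) (l 16737744))) (l 16735712)) (l 16733600)) (l 16727256)) (a (l 16727368) (l 16719016))))))), by decide +kernel⟩

def k7_A00pm_012_s1 : ∃ t, chk3 f_A00pm_012_s1 t 134 125 1 = true :=
  ⟨(b (b (a (l 509161855) (b (l 509834111) (a (l 16741176) (b (a (l 16738064) (b (l 16735808) (l 16734160))) (a (b (l 16735816) (a (l 16735072) (l 16728192))) (b (a (l 16728200) (l 16721408)) (l 16730864))))))) (a (b (l 509004927) (a (a (l 16743440) (l 16740056)) (b (a (l 16738440) (b (l 16735824) (a (l 16724648) (l 16733472)))) (a (b (b (l 16736376) (l 16735576)) (a (c (l 16724872) (l 16724680)) (l 16733368))) (l 16731432))))) (b (a (b (a (l 16738200) (a (l 16735800) (b (l 16735088) (a (l 16733856) (l 16722600))))) (a (b (l 16735800) (a (l 16724560) (b (l 16723424) (l 16732992)))) (b (a (a (l 16723400) (l 16733064)) (l 16731528)) (l 16730488))))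 (b (a (b (a (b (l 16733848) (l 16722608)) (l 16731720)) (l 16730616)) (l 16727720)) (l 16725608))) (a (a (b (b (l 16732544) (l 16730392)) (l 16727344)) (l 16725400)) (l 16719480))))) (b (a (b (a (b (a (l 16738576) (b (a (l 16736968) (c (l 16724936) (l 16724744))) (a (l 16724904) (l 16733328)))) (a (b (a (l 16726616) (l 16724952)) (l 16734472)) (l 16731288))) (l 16727248)) (a (l 16727208) (l 16719056))) (a (l 16704608) (l 16707120))) (a (a (l 16704376) (l 16706656)) (a (l 16698520) (l 16690464))))), by decide +kernel⟩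

def k8_A00pm_012_s1 : ∃ t, chk3 f_A00pm_012_s1 t 135 125 1 = true :=
  ⟨(b (b (a (b (a (b (l 16736568) (a (l 16734976) (b (a (l 16733624) (a (l 16722016) (l 16721296))) (a (b (l 16721984) (l 16731672)) (l 16730224))))) (b (a (b (a (l 16733760) (b (l 16732664) (l 16721432))) (a (b (l 16732584) (l 16721360)) (l 16730560))) (l 16728816)) (l 16726552))) (a (b (a (b (a (l 16733488) (b (l 16721944) (l 16731568))) (b (l 16731536) (l 16730472))) (l 16728144)) (l 16725992)) (l 16720408))) (a (b (l 16721104) (l 16712904)) (b (l 16713760) (l 16705496)))) (a (a (a (l 16717712) (l 16713840)) (l 16708080)) (a (l 16700472) (l 16692976)))) (b (a (a (l 16699232) (l 16691432)) (a (l 16683720) (l 16676096))) (a (a (l 16682480) (l 16674584)) (l 16662896)))), by decide +kernel⟩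

def k9_A00pm_012_s1 : ∃ t, chk3 f_A00pm_012_s1 t 64 126 1 = true :=
  ⟨(b (l 3) (a (l 3) (a (l 3) (b (l 3) (a (l 3) (b (l 3) (a (l 3) (b (l 3) (a (l 3) (l 513158671)))))))))), by decide +kernel⟩

def k10_A00pm_012_s1 : ∃ t, chk3 f_A00pm_012_s1 t 65 252 1 = true :=
  ⟨(a (a (l 3) (b (l 3) (a (l 3) (b (l 3) (a (l 3) (l 510712703)))))) (b (a (a (l 3) (b (l 3) (a (l 509926527) (l 509674367)))) (b (a (l 509356671) (l 508963199)) (a (l 509859087) (l 508928895)))) (a (b (a (a (l 3) (l 510714383)) (a (l 509907583) (l 509655679))) (a (a (l 510466687) (b (l 510202127) (l 510241807))) (a (b (l 509915775) (l 509966975)) (l 509672463)))) (b (a (a (l 509421695) (l 509206143)) (l 508909951)) (b (a (l 509307263) (a (l 16757072) (l 16753464))) (a (l 509336191) (a (a (l 16754808) (b (l 16753816) (a (l 16752688) (l 16751688)))) (b (a (l 16751928) (b (l 16750536) (l 16749720))) (a (b (a (l 16745976) (l 16745064)) (l 16749824)) (l 16748096)))))))))), by decide +kernel⟩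

def k11_A00pm_012_s1 : ∃ t, chk3 f_A00pm_012_s1 t 130 506 1 = true :=
  ⟨(a (a (l 3) (b (l 3) (a (l 3) (b (l 3) (l 511836543))))) (a (b (a (l 3) (b (l 3) (l 511282047))) (a (b (l 511559295) (l 511590783)) (b (l 511313279) (l 511344511)))) (b (a (b (l 511004799) (l 511036031)) (l 511311743)) (a (b (l 511067263) (l 511098495)) (b (l 510820991) (l 510851967)))))), by decide +kernel⟩

def k12_A00pm_012_s1 : ∃ t, chk3 f_A00pm_012_s1 t 130 1014 1 = true :=
  ⟨(a (a (b (l 3) (a (l 3) (a (l 3) (l 512334207)))) (a (b (a (l 512179583) (l 512056447)) (a (l 512211327) (l 512088191))) (b (l 511868031) (l 512704895)))) (a (a (b (l 511622015) (l 511653503)) (b (l 511375999) (l 511407231))) (a (b (l 511129727) (l 511160959)) (b (l 510883199) (b (a (l 16761392) (a (l 16760144) (l 16759240))) (a (a (l 16760320) (b (l 16759856) (a (l 16754032) (b (l 16759056) (l 16753424))))) (b (a (b (l 16759208) (a (l 16759032) (l 16753352))) (a (b (l 16758544) (l 16758096)) (l 16757832))) (a (c (l 16758160) (l 16758128))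 (l 16757016))))))))), by decide +kernel⟩

def k13_A00pm_012_s1 : ∃ t, chk3 f_A00pm_012_s1 t 130 1015 1 = true :=
  ⟨(a (a (b (a (a (l 3) (l 512612223)) (a (l 512489087) (l 512366207))) (a (a (l 512767359) (l 512644223)) (a (l 512521087) (l 512397951)))) (a (b (a (l 512243071) (l 512119935)) (a (l 512274815) (l 512151679))) (b (a (l 511996799) (l 511873407)) (a (l 512028287) (l 511905151))))) (a (a (b (l 511685247) (a (l 511781759) (b (l 16763656) (b (l 16762560) (b (l 16761960) (a (l 16762056) (a (b (l 16761520) (l 16758704)) (b (l 16761096) (l 16760816))))))))) (b (l 511438719) (b (a (a (l 16762448) (b (l 16762000) (l 16761208))) (b (a (l 16761160) (b (a (l 16760760) (a (l 16760424) (l 16754976))) (b (a (l 16760456) (l 16759976)) (l 16757376)))) (a (b (a (l 16760808) (b (l 16760496) (l 16760264))) (l 16760152)) (l 16759304)))) (a (b (a (b (l 16761528) (a (l 16761344) (a (l 16761032) (l 16760816)))) (b (a (b (l 16760992) (l 16755560)) (l 16760416)) (l 16760136))) (a (a (c (l 16760720)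 (l 16760704)) (l 16760144)) (l 16759328))) (l 16758240))))) (b (a (b (a (l 16761720) (b (l 16760416) (a (l 16760064) (b (b (l 16754280) (a (l 16759568) (l 16759112))) (a (l 16754016) (l 16758696)))))) (a (b (a (l 16761024) (b (l 16760384) (a (l 16760208) (a (l 16759888) (l 16759672))))) (b (a (l 16760432) (l 16759568)) (a (a (l 16755032) (b (l 16759960) (l 16759688))) (l 16759008)))) (a (b (b (a (c (l 16754504) (l 16754480)) (l 16759272)) (l 16759000)) (l 16758192)) (l 16757640)))) (a (b (b (a (b (a (l 16759592) (l 16753896)) (a (c (l 16753960) (l 16753928)) (l 16758688))) (l 16758160)) (l 16757608)) (l 16756008)) (l 16754904))) (a (a (b (a (l 16758792) (l 16757672)) (l 16756080)) (l 16754984)) (a (l 16752816) (l 16750648)))))), by decide +kernel⟩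

def k14_A00pm_012_s1 : ∃ t, chk3 f_A00pm_012_s1 t 262 253 1 = true :=
  ⟨(b (a (a (b (l 510528383) (l 511395711)) (b (l 510278415) (a (l 510407807) (b (l 16761272) (b (l 16758992) (a (l 16757904) (b (l 16757424) (b (l 16756816) (c (l 16751200) (l 16751160)))))))))) (b (a (l 510026511) (l 509771903)) (b (a (l 510078591) (b (a (l 16756864) (b (l 16755472) (a (l 16755112) (a (l 16749224) (l 16748760))))) (a (b (l 16755624) (a (b (l 16755536) (l 16749904)) (l 16754400))) (a (b (l 16754328) (l 16753256)) (l 16752680))))) (a (b (a (l 16757200) (b (a (l 16756344) (b (l 16755632) (l 16750008))) (a (b (l 16750496) (l 16755320)) (l 16754456)))) (a (b (a (b (l 16756752) (l 16751080)) (b (c (l 16750624) (l 16750576)) (l 16755352))) (a (l 16755688) (l 16754544))) (l 16753432))) (a (l 16752328) (l 16750096)))))) (a (b (b (a (a (l 16760296) (b (l 16759368) (b (a (l 16758656) (l 16757736)) (a (a (l 16758072) (b (l 16757848) (l 16757456))) (l 16756936))))) (b (a (b (l 16758024) (a (l 16752416) (b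 (c (l 16751776) (l 16751736)) (l 16751344)))) (b (a (b (l 16751656) (a (l 16756752) (l 16756256))) (l 16755720)) (l 16755176))) (a (a (b (b (b (l 16751960) (l 16751760)) (l 16756608)) (l 16755800)) (l 16755232)) (l 16753600)))) (a (b (a (b (a (l 16758824) (b (l 16752888) (a (l 16752744) (l 16757496)))) (b (a (a (l 16758464) (l 16752792)) (l 16757224)) (l 16757288))) (l 16755896)) (l 16754824)) (a (l 16752616) (l 16750432)))) (a (b (a (l 16752728) (l 16750560)) (l 16747400)) (b (l 16747296) (l 16743064)))) (b (a (b (a (l 16752464) (l 16750280)) (l 16747160)) (b (l 16747000) (l 16742800))) (a (b (l 16742952) (l 16738728)) (l 16736496))))), by decide +kernel⟩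

def k15_A00pm_012_s1 : ∃ t, chk3 f_A00pm_012_s1 t 263 253 1 = true :=
  ⟨(b (b (a (a (b (l 509502591) (b (a (l 16756448) (l 16754592)) (a (a (l 16755344) (b (l 16754848) (l 16748760))) (b (a (l 16748648) (b (l 16747984) (l 16752712))) (l 16752536))))) (b (a (l 16755232) (b (l 16754240) (b (l 16752968) (a (l 16747424) (l 16751720))))) (b (a (b (b (l 16753408) (l 16753024)) (a (b (l 16747864) (l 16752680)) (l 16751800))) (l 16750688)) (l 16749696)))) (a (b (b (a (b (l 16752800) (a (l 16752448) (l 16746312))) (b (a (l 16746208) (l 16750392)) (l 16749896))) (a (a (l 16751168) (l 16749992)) (l 16748344))) (l 16746328)) (b (l 16746080) (l 16741928)))) (a (a (b (a (b (b (a (a (l 16749112) (l 16748672)) (l 16753120)) (l 16752600)) (l 16751032)) (l 16749872)) (l 16746800)) (b (l 16746576) (l 16742416))) (a (l 16740096) (l 16735712)))) (a (b (a (b (l 16742624) (l 16738440)) (l 16736160)) (a (l 16732144) (l 16727800))) (b (a (l 16731784) (l 16727408)) (l 16721272)))), by decide +kernel⟩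

def k16_A00pm_012_s1 : ∃ t, chk3 f_A00pm_012_s1 t 64 127 1 = true :=
  ⟨(b (a (l 14) (b (a (l 14) (b (a (l 14) (b (a (l 14) (a (l 14) (b (l 512914303) (l 14)))) (l 14))) (l 14))) (l 14))) (l 14)), by decide +kernel⟩

def k17_A00pm_012_s1 : ∃ t, chk3 f_A00pm_012_s1 t 260 508 1 = true :=
  ⟨(a (b (b (a (a (l 513067791) (l 512676223)) (a (l 512553087) (l 512429951))) (a (a (l 14) (l 512976655)) (a (l 512585087) (l 512461951)))) (b (a (l 14) (b (b (b (l 512536703) (l 14)) (l 14)) (l 14))) (l 14))) (b (b (b (a (l 512232831) (l 511986559)) (a (l 512248703) (a (l 16764088) (b (a (l 16763264) (b (l 16762624) (a (l 16762448) (b (l 16759520) (l 16761928))))) (a (b (a (l 16762920) (b (l 16762608) (l 16759776))) (a (a (l 16762624) (a (l 16759856) (l 16759752))) (l 16759448))) (a (a (l 16761936) (l 16761656)) (l 16761240))))))) (a (b (a (l 16765792) (a (l 16764616) (b (l 16764192) (b (l 16763656) (a (l 16763488) (a (l 16760544) (b (l 16763072) (l 16762856)))))))) (a (b (l 16764720) (a (l 16764384)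 (b (a (l 16763984) (b (l 16763664) (l 16760856))) (a (b (l 16761072) (l 16760880)) (l 16763112))))) (b (a (b (l 16763696) (a (l 16760904) (a (b (l 16763336) (l 16763112)) (l 16762992)))) (b (a (b (l 16760576) (l 16760368)) (l 16762576)) (l 16762304))) (a (a (l 16762864) (l 16762296)) (l 16761488))))) (a (b (b (a (l 16763360) (b (a (l 16762968) (b (l 16762656) (l 16759840))) (a (b (l 16760072) (l 16762456)) (l 16762040)))) (a (b (a (b (l 16763136) (l 16760320)) (b (l 16760096) (l 16762448))) (l 16762328)) (l 16761504))) (l 16760416)) (b (l 16760440) (l 16758272))))) (a (b (a (b (a (b (b (a (l 16761400) (b (l 16761104) (l 16763512))) (a (a (l 14) (l 16763504)) (l 16763088))) (l 16762544)) (l 16762016)) (l 16760376)) (b (l 16760400) (l 16758232))) (a (l 14) (l 16754984))) (b (a (b (l 16758256) (l 16756088)) (l 16755032)) (a (l 16752840) (l 16750704)))))), by decide +kernel⟩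

def k18_A00pm_012_s1 : ∃ t, chk3 f_A00pm_012_s1 t 261 508 1 = true :=
  ⟨(b (a (b (a (b (a (b (l 16762672) (a (b (l 16762568) (a (l 16762408) (b (l 16762080) (c (l 16759272) (l 16756632))))) (a (b (b (l 16762056) (l 16761848)) (l 16758904)) (c (l 16761272) (l 16761256))))) (b (a (b (b (l 16759120) (a (l 16761792) (l 16758744))) (b (a (l 16761592) (l 16761096)) (l 16761120))) (l 16760440)) (l 16759888))) (a (a (b (b (a (b (l 16762104) (l 16759296)) (l 16761520)) (l 16761240)) (l 16760432)) (l 16759888)) (l 16758272))) (a (l 16757192) (l 16755032))) (a (a (b (l 16758272) (l 16756120)) (l 16755048)) (a (l 16752896) (l 16750736)))) (a (b (a (l 16752872) (l 16750712)) (l 16747512)) (b (l 16747472) (l 16743200)))) (a (a (b (a (l 16752880) (l 16750736)) (l 16747488)) (b (l 16747520) (l 16743208))) (a (b (l 16743224) (l 16738928)) (l 16736784)))), by decide +kernel⟩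

def k19_A00pm_012_s1 : ∃ t, chk3 f_A00pm_012_s1 t 130 509 1 = true :=
  ⟨(a (a (l 14) (b (a (l 14) (b (l 16747432) (l 14))) (l 14))) (b (a (a (b (l 16743168) (l 16738832)) (b (l 16738896) (l 16734576))) (a (l 16732472) (l 16728200))) (a (a (l 14) (l 16728080)) (b (l 16723880) (a (l 16721728) (b (l 16718520) (l 16706944))))))), by decide +kernel⟩

def k20_A00pm_012_s1 : ∃ t, chk3 f_A00pm_012_s1 t 131 254 1 = true :=
  ⟨(b (a (a (b (a (b (l 16743152) (l 16738888)) (l 16736704)) (a (l 16732488) (l 16728192))) (b (a (l 16732384) (l 16728064)) (l 16726992))) (a (b (l 16726816) (l 16713152)) (b (l 16712920) (l 16704544)))) (a (b (a (l 16727040) (a (l 16715392) (l 16711080))) (a (b (a (l 16717504) (l 16713400)) (b (a (l 16704424) (l 16712056)) (l 16713640))) (b (a (l 16709896) (l 16685912)) (l 16708696)))) (b (a (b (l 16706816) (b (l 16703792) (l 16702872))) (b (b (l 16699264) (l 16697792)) (l 16697552))) (l 16701136)))), by decide +kernel⟩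

def k21_A00pm_012_s1 : ∃ t, chk3 f_A00pm_012_s1 t 65 255 1 = true :=
  ⟨(a (a (l 14) (a (l 14) (a (l 14) (b (l 16719056) (l 14))))) (b (a (l 16713208) (l 16703800)) (a (l 16716792) (l 16707520)))), by decide +kernel⟩

def k22_A00pm_012_s1 : ∃ t, chk3 f_A00pm_012_s1 t 66 252 1 = true :=
  ⟨(a (a (b (b (a (l 508643199) (l 508393599)) (a (l 508609151) (b (l 508369791) (a (l 16752376) (a (l 16749688) (b (l 16748704) (l 16746952))))))) (b (a (b (l 508593279) (a (l 16753120) (b (a (l 16751240) (l 16749320)) (a (b (l 16750032) (l 16749136)) (b (l 16748160) (l 16747144)))))) (b (a (b (l 16749968) (a (l 16749184) (b (l 16737272) (l 16746968)))) (b (a (l 16744528) (l 16745256)) (l 16744216))) (a (a (b (b (l 16747960) (l 16747096)) (l 16745464)) (l 16744320)) (l 16741056)))) (a (b (a (b (a (l 16751624) (b (l 16750152) (l 16749344))) (a (b (l 16750328) (a (l 16744776) (l 16749024))) (l 16747936))) (a (b (b (l 16748328) (l 16747232)) (l 16745672)) (l 16744528))) (a (l 16745848) (l 16741464)))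 (a (l 16739168) (l 16734800))))) (a (b (b (l 508232319) (b (a (l 16748296) (b (a (l 16746528) (l 16744672)) (a (l 16744856) (l 16742720)))) (a (b (a (l 16746784) (l 16745016)) (a (l 16745160) (l 16742904))) (l 16740688)))) (b (a (l 16738784) (l 16734448)) (l 16728280))) (b (b (b (a (l 16747784) (b (l 16744920) (a (l 16744176) (l 16742440)))) (a (b (l 16745160) (a (l 16744496) (l 16742648))) (a (l 16741592) (l 16739304)))) (a (l 16738520) (l 16734152))) (b (l 16727968) (l 16719624))))) (b (a (a (b (a (b (b (a (l 16742288) (l 16740192)) (l 16739200)) (l 16736096)) (l 16733904)) (l 16727728)) (b (l 16727528) (l 16719208))) (a (l 16714920) (l 16706528))) (a (a (b (l 16719376) (l 16711016)) (l 16706656)) (a (l 16698168) (l 16689736))))), by decide +kernel⟩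

def k23_A00pm_012_s1 : ∃ t, chk3 f_A00pm_012_s1 t 66 253 1 = true :=
  ⟨(a (a (b (a (b (a (l 16739616) (l 16735232)) (a (l 16731320) (l 16726944))) (b (a (l 16730856) (l 16726496)) (l 16720384))) (a (b (l 16720848) (l 16712560)) (b (l 16712120) (l 16703856)))) (b (a (b (l 16719968) (l 16711680)) (b (l 16711304) (l 16703016))) (a (b (l 16703416) (l 16695168)) (l 16690616)))) (b (a (a (l 16698528) (l 16689960)) (a (l 16681440) (l 16672976))) (a (a (l 16681992) (l 16673328)) (b (l 16664752) (a (a (l 16663024) (l 16638320)) (l 16654552)))))), by decide +kernel⟩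

def k24_A00pm_012_s1 : ∃ t, chk3 f_A00pm_012_s1 t 67 126 1 = true :=
  ⟨(b (a (a (b (a (l 16698200) (l 16689928)) (l 16677200)) (b (a (l 16681736) (l 16673600)) (l 16660696))) (a (b (l 16661552) (l 16644456)) (b (l 16645752) (l 16628512)))) (a (b (a (l 16660384) (b (l 16648016) (a (l 16643744) (l 16635872)))) (a (b (a (l 16652136) (l 16644840)) (l 16646480)) (b (l 16636312) (l 16637064)))) (b (a (b (l 16631656) (b (l 16626888) (l 16626016))) (b (a (l 16599608) (l 16572744)) (l 16616952))) (l 16622976)))), by decide +kernel⟩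

def k25_A00pm_012_s1 : ∃ t, chk3 f_A00pm_012_s1 t 33 127 1 = true :=
  ⟨(a (b (a (b (a (b (a (l 16704264) (l 16695592)) (a (a (l 16698088) (l 16693800)) (b (l 16689352) (l 16686824)))) (b (a (l 16686928) (b (l 16680328) (l 16676608))) (b (a (l 16681640) (l 16675560)) (l 16678768)))) (a (a (b (b (l 16681648) (l 16692640)) (l 16693968)) (l 16688272)) (l 16681008))) (a (b (b (a (b (l 16671792) (l 16649088)) (l 16654488)) (l 16668592)) (l 16671336)) (l 16659832))) (a (b (l 16689584) (l 16693512)) (b (l 16670416) (l 16674544)))) (b (a (b (l 16643952) (l 16647376)) (l 16627208)) (a (b (l 16651224) (l 16655488)) (l 16634472)))), by decide +kernel⟩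

def k26_A00pm_012_s1 : ∃ t, chk3 f_A00pm_012_s1 t 68 60 1 = true :=
  ⟨(l 3), by decide +kernel⟩

def k27_A00pm_012_s1 : ∃ t, chk3 f_A00pm_012_s1 t 68 122 1 = true :=
  ⟨(a (a (l 3) (b (l 3) (b (l 3) (a (l 3) (l 518095887))))) (a (b (l 3) (a (b (l 3) (l 518983183)) (b (b (l 3) (a (l 519643919) (a (b (l 3) (l 519955839)) (l 520164367)))) (a (l 519626111) (a (l 519940223) (b (l 520154127) (l 520137855))))))) (b (l 521052175) (b (a (b (l 520674687) (a (l 520469775) (l 520869759))) (l 521455487)) (a (b (a (a (l 520358415) (l 520560655)) (l 520859663)) (a (l 520443407) (l 520843535))) (b (l 521442943) (l 521426959))))))), by decide +kernel⟩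

def k28_A00pm_012_s1 : ∃ t, chk3 f_A00pm_012_s1 t 68 246 1 = true :=
  ⟨(a (a (b (l 3) (a (b (l 3) (a (l 3) (b (a (l 3) (a (l 3) (l 515533695))) (a (l 515240063) (a (l 515411839) (b (l 516045327) (l 515419407))))))) (b (l 516653695) (b (l 516085119) (a (a (b (l 515693071) (l 515615503)) (b (l 515938943) (l 515882623))) (b (l 516308095) (l 516263551))))))) (b (a (a (l 516891007) (l 517360767)) (b (l 518062863) (l 518033167))) (a (b (l 517745423) (b (l 517042959) (a (b (l 516788607) (l 516753791)) (l 517246735)))) (b (a (l 517770367) (l 518223487)) (b (a (l 517739391) (l 518192511)) (a (l 517710351) (l 518164751))))))) (a (b (a (b (l 518950671) (l 519491855)) (b (l 519267087) (l 519238159))) (a (b (c (l 518931215) (l 518841103)) (b (a (l 518636927) (l 519072639)) (a (l 518609935) (l 519046415)))) (b (a (l 519530111) (l 519948303)) (b (a (l 519499647) (l 519917951)) (a (l 519473935) (l 519892495)))))) (c (b (a (a (l 520448271) (l 520847375)) (l 520892687)) (a (b (l 520061967) (a (l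 520356367) (l 520755983))) (b (l 521380111) (l 520801551)))) (b (a (a (l 520366607) (l 520768271)) (l 521085199)) (a (b (l 519981583) (a (l 520274447) (l 520676367))) (b (l 521303823) (l 520993807))))))), by decide +kernel⟩

def k29_A00pm_012_s1 : ∃ t, chk3 f_A00pm_012_s1 t 136 247 1 = true :=
  ⟨(a (a (b (a (l 514669183) (l 515019791)) (l 514384911)) (b (a (b (a (b (l 515766031) (l 515366015)) (b (l 515749391) (l 515596415))) (a (l 515180159) (l 515395343))) (b (b (a (l 516014863) (l 516279935)) (l 515974159)) (a (l 515625999) (l 515867407)))) (a (l 514934799) (b (l 515480591) (l 515241743))))) (b (b (a (b (a (l 516662911) (l 517153663)) (a (l 516499727) (l 517013119))) (a (b (l 517628943) (l 517504127)) (b (l 518091535) (l 517978895)))) (a (a (a (l 516115983) (l 516369935)) (b (l 516844559) (l 516669711))) (a (b (l 517352319) (l 517182223)) (b (l 517839887) (l 517682815))))) (a (a (b (l 515946511) (l 515686415)) (b (l 516430607) (l 516148495))) (b (a (b (l 517008143) (l 16752904))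 (b (l 517512463) (l 16751112))) (a (l 516621327) (l 517100303)))))), by decide +kernel⟩

def k30_A00pm_012_s1 : ∃ t, chk3 f_A00pm_012_s1 t 274 247 1 = true :=
  ⟨(b (a (b (a (b (l 518543119) (l 518440207)) (b (l 518984463) (l 518889231))) (a (b (l 518311695) (l 518164751)) (b (l 518769423) (l 518631695)))) (a (b (b (l 519416079) (l 519326991)) (b (l 519214607) (l 519084815))) (b (b (l 519837711) (l 519754255)) (b (l 519648271) (l 16749040))))) (a (b (a (b (l 518005119) (l 16749440)) (b (l 16749992) (l 16747872))) (a (l 517582863) (b (l 16745696) (l 16743488)))) (b (a (b (l 16748472) (l 16746392)) (b (l 16747048) (l 16745000))) (a (b (l 16744256) (l 16742072)) (l 519006991))))), by decide +kernel⟩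

def k31_A00pm_012_s1 : ∃ t, chk3 f_A00pm_012_s1 t 275 247 1 = true :=
  ⟨(a (b (b (a (b (l 16753200) (l 16751408)) (b (l 16751792) (l 16750040))) (a (b (l 16749560) (l 16747656)) (a (l 16747624) (l 16746984)))) (b (a (b (l 16745704) (l 16743696)) (b (l 16744440) (l 16742472))) (b (a (l 16741640) (b (l 16740960) (l 16739928))) (a (b (l 16740064) (a (l 16739296) (b (l 16738976) (a (l 16738584) (b (l 16738432) (a (l 16738232) (l 16738048))))))) (b (a (b (l 16739448) (l 16736264)) (b (a (l 16739000) (b (a (l 16738928) (l 16733488)) (a (l 16738600) (l 16738256)))) (a (a (b (l 16738680) (l 16738336)) (b (l 16738472) (l 16737984))) (l 16737696)))) (a (b (a (l 16735872) (a (b (l 16738424) (l 16738072)) (l 16737968))) (a (a (b (l 16738176) (l 16737792)) (l 16737688)) (l 16737136))) (l 16736560))))))) (b (b (a (a (l 16749936) (l 16749304)) (l 16748392)) (a (a (l 16746368) (l 16745768)) (l 16744912))) (b (a (l 16742304) (b (l 16742160) (b (a (l 16741000) (b (a (l 16740848) (b (l 16740696) (a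 (l 16740520) (l 16740336)))) (a (b (l 16740472) (a (l 16740296) (l 16740104))) (a (b (l 16740216) (l 16739760)) (l 16739648))))) (a (b (a (l 16740408) (a (l 16740176) (b (l 16740176) (l 16739856)))) (a (a (l 16739944) (b (l 16739944) (l 16739608))) (l 16734088))) (a (b (a (l 16734512) (l 16739392)) (l 16738600)) (l 16738376)))))) (b (a (b (a (l 16740120) (b (a (l 16739960) (b (l 16739776) (a (l 16739592) (l 16739352)))) (a (b (a (l 16739656) (l 16739472)) (a (l 16739352) (l 16739080))) (l 16738800)))) (a (b (a (l 16739488) (b (a (l 16739424) (l 16733984)) (a (l 16733864) (l 16738808)))) (a (b (a (l 16739176) (l 16733744)) (a (l 16733616) (l 16738536))) (l 16738248))) (l 16737680))) (a (l 16737256) (l 16735808))) (l 16736616))))), by decide +kernel⟩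

def k32_A00pm_012_s1 : ∃ t, chk3 f_A00pm_012_s1 t 69 60 1 = true :=
  ⟨(b (l 3) (a (a (l 3) (b (l 3) (b (a (l 3) (l 523786367)) (l 523014415)))) (a (b (l 524779135) (b (l 524942975) (l 525022223))) (l 524340095)))), by decide +kernel⟩

def k33_A00pm_012_s1 : ∃ t, chk3 f_A00pm_012_s1 t 69 122 1 = true :=
  ⟨(b (a (a (l 522544255) (l 523893263)) (a (l 525095695) (l 526149135))) (b (a (a (l 522561407) (l 523910783)) (l 525122575)) (a (a (a (l 522182783) (l 522893695)) (l 523892095)) (a (l 525094527) (a (l 16750336) (b (l 16750024) (a (b (l 16748800) (l 16747064)) (l 16746064)))))))), by decide +kernel⟩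

def k34_A00pm_012_s1 : ∃ t, chk3 f_A00pm_012_s1 t 138 246 1 = true :=
  ⟨(b (a (a (l 521870351) (l 522581631)) (l 522909055)) (a (a (b (l 521552767) (l 521779727)) (l 522512911)) (a (b (l 16748568) (a (l 16746248) (a (l 16745528) (b (l 16745840) (a (l 16739160) (b (l 16744672) (l 16743616))))))) (b (a (l 16747216) (b (l 16747040) (a (l 16745936) (l 16745304)))) (a (b (a (l 16745392) (b (l 16745336) (l 16733920))) (b (b (l 16743912) (l 16743216)) (l 16741872))) (b (a (b (l 16734200) (l 16743232)) (l 16742696)) (l 16739944))))))), by decide +kernel⟩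

def k35_A00pm_012_s1 : ∃ t, chk3 f_A00pm_012_s1 t 276 247 1 = true :=
  ⟨(b (a (b (a (l 16747240) (l 16746160)) (a (l 16743824) (b (l 16743672) (a (b (l 16742624) (b (l 16741936) (a (l 16741608) (b (l 16736184) (l 16741072))))) (b (a (l 16742240) (b (l 16742224) (a (l 16741792) (l 16741576)))) (a (b (a (l 16736344) (l 16741352)) (l 16740592)) (l 16740352))))))) (b (a (l 16745144) (b (l 16744976) (a (b (l 16744040) (a (l 16743360) (l 16737800))) (b (l 16738256) (b (a (l 16743032) (l 16742576)) (l 16742032)))))) (a (b (a (b (l 16743360) (a (l 16742640) (b (l 16742616) (l 16736832)))) (b (a (l 16743008) (b (l 16742984) (l 16737224))) (b (a (l 16737032) (l 16741736)) (l 16741160)))) (a (b (a (b (c (l 16736720) (l 16736544)) (l 16741048)) (l 16740816)) (l 16739296)) (l 16738824))) (b (a (b (b (a (l 16742656) (l 16742168)) (l 16741608)) (l 16740200)) (l 16739720)) (l 16736720))))) (a (b (a (b (b (a (l 16741840) (b (l 16741520) (a (l 16741184) (b (l 16735752) (l 16740592))))) (a (b (a (l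 16741272) (b (l 16741136) (l 16735608))) (a (b (l 16740928) (a (l 16740744) (l 16740568))) (b (a (l 16740680) (l 16740392)) (l 16740088)))) (a (b (b (a (l 16740904) (l 16740648)) (l 16740344)) (l 16739624)) (l 16739392)))) (a (b (a (b (a (b (l 16740448) (l 16740016)) (l 16739904)) (l 16739120)) (l 16738888)) (l 16737312)) (l 16736864))) (b (a (b (a (b (b (l 16735968) (l 16740840)) (l 16740112)) (l 16739880)) (l 16738336)) (l 16737872)) (l 16734752))) (a (l 16731720) (l 16728896))) (b (a (l 16733856) (l 16731040)) (l 16724672)))), by decide +kernel⟩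

def k36_A00pm_012_s1 : ∃ t, chk3 f_A00pm_012_s1 t 277 247 1 = true :=
  ⟨(a (b (b (a (b (a (l 16744216) (b (l 16744168) (a (l 16738160) (l 16742912)))) (a (b (a (l 16737808) (l 16742536)) (l 16741056)) (l 16740552))) (b (a (b (a (l 16733248) (l 16743280)) (l 16741840)) (l 16741328)) (l 16738456))) (l 16734368)) (b (l 16726840) (l 16719080))) (b (b (l 16736056) (l 16728792)) (b (l 16721272) (l 16713512)))), by decide +kernel⟩

def k37_A00pm_012_s1 : ∃ t, chk3 f_A00pm_012_s1 t 139 123 1 = true :=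
  ⟨(b (a (b (a (b (l 16750192) (a (l 16748136) (l 16747136))) (b (l 16748416) (a (b (l 16747024) (l 16745096)) (b (l 16745624) (l 16742416))))) (a (b (a (b (l 16746024) (a (l 16744576) (l 16743344))) (b (l 16741928) (l 16741224))) (l 16737488)) (l 16735368))) (b (a (b (a (b (l 16747952) (l 16746128)) (l 16739896)) (l 16739904)) (l 16737664)) (l 16706072))) (b (a (a (l 16726888) (l 16721352)) (l 16713088)) (a (a (l 16711872) (l 16706360)) (l 16698136)))), by decide +kernel⟩

def k38_A00pm_012_s1 : ∃ t, chk3 f_A00pm_012_s1 t 35 30 1 = true :=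
  ⟨(b (a (a (b (a (l 526254095) (l 527009919)) (a (l 526049551) (l 527605007))) (b (a (l 527610239) (b (l 527845135) (l 528388879))) (b (l 528286223) (a (l 16757344) (b (l 16755728) (a (l 16753432) (b (l 16752632) (l 16749968)))))))) (b (a (b (b (l 527561343) (l 527922447)) (l 528326927)) (b (l 16734496) (a (l 16752984) (b (l 16749504) (a (l 16748008) (b (l 16746112) (l 16743072))))))) (a (b (a (l 16756400) (b (l 16753856) (a (l 16752072) (b (l 16750760) (l 16748104))))) (a (b (a (l 16753064) (b (l 16752016) (l 16749384))) (a (b (l 16749760) (l 16744664)) (l 16741504))) (b (a (l 16725456) (l 16740328)) (l 16732472)))) (b (a (b (a (l 16750408) (b (l 16748784) (l 16746024))) (l 16720752)) (b (l 16718072) (l 16728808))) (l 16677608))))) (b (a (a (b (a (l 527050111) (b (l 16755528) (a (l 16752664) (b (l 16752216) (a (l 16750344) (l 16748664)))))) (a (b (a (l 16751672) (b (l 16751304) (a (l 16749256) (l 16747600)))) (a (b (a (l 16748552) (l 16746888)) (l 16741912)) (l 16739536))) (b (a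 (b (a (l 16749856) (l 16748192)) (l 16743448)) (l 16740912)) (l 16731136)))) (b (a (b (a (l 16753272) (b (l 16752672) (l 16749928))) (a (b (l 16739208) (l 16744456)) (l 16741744))) (b (a (b (l 16750024) (l 16744880)) (l 16741952)) (l 16733096))) (a (l 16684256) (l 16714936)))) (a (b (l 16700536) (l 16656040)) (b (l 16697944) (l 16675248)))) (a (a (b (a (a (l 16704608) (l 16678112)) (l 16690808)) (a (b (l 16702136) (l 16687248)) (l 16683968))) (b (a (l 16700784) (l 16689800)) (a (l 16673184) (l 16662448)))) (a (b (l 16673336) (l 16646400)) (b (l 16651352) (l 16625064)))))), by decide +kernel⟩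

def k39_A00pm_012_s1 : ∃ t, chk3 f_A00pm_012_s1 t 136 248 1 = true :=
  ⟨(a (a (c (l 513570431) (l 513450879)) (b (a (l 514515327) (l 514917391)) (b (l 514426383) (l 16737336)))) (b (a (a (b (l 16748808) (l 16744064)) (b (l 16746824) (l 16742128))) (a (b (l 16744968) (l 16740312)) (b (l 16743232) (l 16738616)))) (b (a (c (l 16738384) (l 16738176)) (b (a (l 16736768) (b (l 16735688) (a (l 16734880) (b (a (l 16734584) (a (l 16734240) (l 16728744))) (a (a (l 16728800) (l 16733776)) (l 16733184)))))) (a (b (a (l 16735408) (l 16729248)) (a (b (l 16734504) (l 16728584)) (b (a (l 16733808) (l 16728040)) (a (l 16727840) (l 16732272))))) (b (a (b (a (l 16734184) (a (l 16728600) (l 16733552))) (a (a (l 16728408) (l 16733328)) (l 16732720))) (l 16732048)) (l 16730808))))) (a (b (a (l 16735576) (b (a (l 16734776) (b (l 16734176) (a (l 16733792) (l 16728032)))) (a (b (l 16733864) (a (l 16733480) (l 16727688))) (b (a (l 16727856) (l 16732464)) (l 16731856))))) (a (b (a (l 16734200) (b (l 16733544)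 (a (l 16733144) (l 16727360)))) (a (b (l 16733216) (a (l 16732832) (l 16727032))) (b (a (l 16727192) (l 16731648)) (l 16731048)))) (b (a (b (a (l 16727528) (l 16732040)) (l 16731432)) (l 16730312)) (l 16729096)))) (b (a (b (a (a (b (l 16728200) (l 16732672)) (l 16727152)) (l 16731152)) (l 16729928)) (l 16727752)) (l 16725264)))))), by decide +kernel⟩

def k40_A00pm_012_s1 : ∃ t, chk3 f_A00pm_012_s1 t 274 496 1 = true :=
  ⟨(b (b (a (l 16741984) (a (l 16739856) (b (l 16739120) (a (l 16738328) (b (l 16737992) (a (l 16737584) (a (l 16737328) (b (l 16737328) (l 16736976))))))))) (a (l 16739720) (a (b (l 16738168) (a (l 16737376) (b (l 16737000) (a (l 16736584) (b (a (l 16736488) (l 16736280)) (a (l 16736152) (l 16735824))))))) (b (b (a (l 16737488) (a (a (l 16737064) (b (l 16737056) (l 16736696))) (l 16731184))) (a (a (l 16737080) (a (l 16731560) (b (l 16736800) (l 16736408)))) (l 16735768))) (a (b (a (b (l 16731368) (a (l 16736408) (l 16736112))) (l 16735832)) (l 16735168)) (l 16734216))))))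 (a (b (a (l 16738184) (b (l 16737280) (a (l 16736496) (b (l 16730776) (a (l 16735616) (b (a (l 16735520) (l 16735248)) (l 16734936))))))) (a (b (l 16736456) (a (l 16735672) (b (a (l 16735392) (b (l 16735144) (l 16729568))) (a (b (l 16734920) (l 16729344)) (l 16734176))))) (b (a (b (a (l 16735816) (a (l 16735536) (l 16730064))) (a (b (l 16735368) (l 16729784)) (b (l 16729656) (l 16734400)))) (b (a (b (l 16729896) (l 16734664)) (l 16734160)) (l 16733520))) (c (l 16732920) (l 16732688))))) (b (a (b (a (b (l 16736504) (a (l 16736088) (b (c (l 16730728) (l 16730512)) (l 16735472)))) (b (a (b (a (l 16736240) (l 16736024)) (l 16730496)) (l 16735248)) (l 16734600))) (a (b (a (b (c (l 16730488) (l 16730272)) (l 16735200)) (l 16734696)) (l 16734056)) (l 16733072))) (l 16731888)) (l 16729272)))), by decide +kernel⟩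

def k41_A00pm_012_s1 : ∃ t, chk3 f_A00pm_012_s1 t 275 496 1 = true :=
  ⟨(b (a (b (a (b (a (b (l 16738488) (a (l 16738088) (b (l 16737928) (a (l 16737720) (l 16732280))))) (b (a (b (l 16738184) (a (l 16737984) (l 16732544))) (b (a (l 16737920) (l 16737648)) (l 16737320))) (a (b (a (l 16732416) (l 16737352)) (l 16737024)) (l 16736560)))) (a (b (a (b (l 16737664) (a (l 16737456) (l 16737256))) (b (a (l 16732144) (l 16737056)) (l 16736736))) (a (b (a (l 16737120) (l 16736768)) (l 16736440)) (l 16735976))) (l 16735408))) (l 16734272)) (l 16734264)) (a (l 16729400) (l 16726552))) (a (b (l 16727544) (l 16723416)) (l 16722368))), by decide +kernel⟩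

def k42_A00pm_012_s1 : ∃ t, chk3 f_A00pm_012_s1 t 137 497 1 = true :=
  ⟨(a (b (a (b (a (b (a (b (a (l 16734992) (b (l 16734712) (l 16729128))) (a (b (l 16734504) (l 16728912)) (l 16733672))) (l 16733040)) (l 16731752)) (l 16729696)) (l 16727144)) (l 16725720)) (a (l 16720984) (l 16714792))) (a (b (l 16717160) (l 16708744)) (b (l 16711360) (l 16702840)))), by decide +kernel⟩

def k43_A00pm_012_s1 : ∃ t, chk3 f_A00pm_012_s1 t 68 249 1 = true :=
  ⟨(a (b (a (b (a (a (l 16737736) (b (l 16736760) (l 16734096))) (b (a (l 16734592) (b (a (l 16733672) (a (l 16727600) (b (l 16732680) (l 16731944)))) (a (b (l 16727392) (b (l 16726896) (l 16726512))) (l 16730872)))) (a (b (a (l 16733176) (b (l 16727128) (a (l 16726760) (l 16731248)))) (a (b (a (l 16732464) (l 16721384)) (l 16726128)) (l 16730144))) (l 16728656)))) (a (b (a (b (l 16734456) (a (l 16733704) (l 16727216))) (b (a (l 16732680) (b (b (l 16726832) (l 16726488)) (l 16720600))) (a (b (b (l 16726608) (l 16726240)) (l 16730792)) (l 16729520))))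 (a (b (a (b (l 16732712) (l 16726696)) (b (a (l 16731776) (l 16731064)) (l 16730480))) (a (b (l 16725968) (l 16730192)) (l 16728944))) (l 16727352))) (l 16724224))) (b (a (a (a (a (b (l 16730656) (l 16726528)) (l 16727728)) (l 16726480)) (l 16724008)) (l 16719104)) (a (l 16717456) (l 16710824)))) (a (a (b (l 16722992) (l 16714800)) (b (l 16716024) (l 16707752))) (a (b (l 16709184) (l 16700824)) (l 16698240)))) (b (a (a (a (l 16710112) (l 16706912)) (l 16707416)) (b (l 16702472) (l 16688608))) (a (b (l 16692600) (l 16684032)) (a (l 16678688) (l 16672432))))), by decide +kernel⟩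

def k44_A00pm_012_s1 : ∃ t, chk3 f_A00pm_012_s1 t 69 124 1 = true :=
  ⟨(a (b (a (b (b (a (l 16724928) (l 16716680)) (a (l 16714096) (l 16708464))) (b (a (l 16705664) (l 16700048)) (l 16699480))) (b (a (b (l 16711080) (l 16702872)) (l 16701440)) (a (l 16690168) (l 16684616)))) (b (a (b (l 16685512) (l 16676656)) (a (l 16672568) (l 16666976))) (a (l 16663296) (l 16651664)))) (b (a (b (a (l 16695912) (l 16690416)) (l 16681592)) (b (l 16682224) (l 16665440))) (a (b (l 16658752) (l 16640440)) (b (l 16647872) (l 16629592))))), by decide +kernel⟩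

def k45_A00pm_012_s1 : ∃ t, chk3 f_A00pm_012_s1 t 34 125 1 = true :=
  ⟨(a (a (b (b (a (a (l 16702368) (l 16695208)) (b (l 16688944) (l 16680416))) (a (a (l 16685568) (l 16678272)) (l 16667528))) (a (b (l 16664848) (l 16647632)) (b (l 16650200) (l 16632736)))) (b (a (b (l 16676304) (l 16653592)) (b (l 16657928) (l 16640128))) (a (b (l 16635976) (l 16618248)) (b (l 16622200) (l 16604184))))) (b (a (a (b (l 16645304) (l 16627152)) (b (l 16633216) (l 16614680))) (a (b (l 16621736) (l 16602752)) (l 16616792))) (a (b (l 16612896) (a (l 16590496) (b (l 16582096) (a (l 16576592) (l 16571872))))) (b (a (l 16583768) (b (l 16576840) (l 16546896))) (a (b (l 16549728) (l 16567016)) (l 16562744)))))), by decide +kernel⟩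

def k46_A00pm_012_s1 : ∃ t, chk3 f_A00pm_012_s1 t 34 63 1 = true :=
  ⟨(b (a (b (a (b (a (l 16630280) (l 16615176)) (a (b (l 16617224) (b (l 16610832) (l 16587368))) (b (b (l 16604136) (l 16579832)) (l 16599376)))) (b (a (b (l 16604904) (l 16596248)) (b (l 16590656) (l 16564200))) (a (b (l 16570864) (l 16591528)) (l 16584192)))) (a (b (l 16604104) (l 16605872)) (l 16589064))) (b (a (b (a (b (b (l 16538048) (l 16578064)) (l 16577528)) (l 16571560)) (l 16574120)) (l 16562600)) (b (l 16567632) (l 16568000)))) (a (b (a (l 16609584) (l 16592824)) (a (l 16616224) (l 16598728))) (b (a (l 16577120) (l 16562632)) (a (l 16582072) (l 16566448))))), by decide +kernel⟩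

def k47_A00pm_012_s1 : ∃ t, chk3 f_A00pm_012_s1 t 35 31 1 = true :=
  ⟨(b (b (a (a (b (a (b (l 16671400) (l 16654664)) (l 16652424)) (a (b (l 16637120) (l 16618864)) (l 16617456))) (b (a (l 16641808) (l 16631272)) (a (l 16606968) (l 16596576)))) (a (b (l 16615576) (l 16581168)) (b (l 16594800) (b (l 16569656) (a (l 16557840) (l 16467352)))))) (a (b (a (b (l 16594672) (a (l 16580528) (l 16570048))) (b (l 16573696) (a (b (l 16564520) (l 16515992)) (l 16534752)))) (a (b (a (b (l 16524192) (l 16560656)) (l 16537136)) (l 16556472)) (l 16509216))) (b (a (b (a (l 16559856) (l 16511648)) (l 16550520)) (l 16462816)) (a (l 16545560) (l 16540024))))) (b (a (b (a (l 16552688) (l 16502888)) (b (l 16545304) (l 16544080))) (b (a (l 16454344) (l 16532672)) (b (l 16488224) (l 16485392)))) (a (b (b (l 16543576) (l 16543768)) (b (l 16544640) (l 16546176))) (b (a (l 16528184) (l 16520376)) (l 16522336))))), by decide +kernel⟩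

def k48_A00pm_012_s1 : ∃ t, chk3 f_A00pm_012_s1 t 18 28 1 = true :=
  ⟨(a (a (l 3) (b (l 3) (l 527655295))) (b (a (l 527486223) (l 527822975)) (a (a (l 527715711) (l 527485311)) (b (l 527541631) (a (l 16737312) (b (l 16741528) (a (l 16738488) (b (l 16735384) (a (l 16733520) (b (l 16731664) (l 16728856))))))))))), by decide +kernel⟩

def k49_A00pm_012_s1 : ∃ t, chk3 f_A00pm_012_s1 t 36 29 1 = true :=
  ⟨(b (a (a (l 527272831) (l 527313023)) (a (l 527354127) (l 527393807))) (a (b (l 527283215) (a (l 527255935) (b (l 16749632) (a (l 16734552) (b (a (l 16743752) (l 16740856)) (a (b (l 16740832) (l 16737576)) (l 16733864))))))) (b (a (l 16739320) (b (a (l 16746048) (l 16741152)) (a (b (l 16741480) (a (l 16739024) (b (l 16737296) (l 16733600)))) (b (a (b (l 16738744) (l 16736272)) (l 16722464)) (l 16726400))))) (a (b (a (b (l 16744400) (a (l 16742400) (b (l 16740784) (l 16738248)))) (b (a (l 16740728) (b (l 16739112) (l 16736160))) (a (b (l 16737256) (l 16732568)) (l 16728680)))) (a (b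 (a (b (l 16739160) (l 16735232)) (l 16731272)) (l 16723984)) (l 16716280))) (b (a (b (l 16708400) (l 16719016)) (l 16711304)) (l 16655104)))))), by decide +kernel⟩

def k50_A00pm_012_s1 : ∃ t, chk3 f_A00pm_012_s1 t 37 29 1 = true :=
  ⟨(b (a (b (a (l 527703935) (l 16724976)) (a (b (l 16746496) (a (l 16742960) (b (l 16739936) (a (l 16737944) (b (l 16736264) (l 16733592)))))) (b (a (l 16739600) (b (a (l 16737848) (l 16735096)) (a (b (l 16735400) (l 16732904)) (l 16729296)))) (a (b (a (l 16736016) (b (l 16734152) (l 16730512))) (l 16705856)) (l 16718672))))) (b (a (b (l 16728984) (a (b (l 16737880) (a (l 16736088) (b (l 16734352) (l 16731896)))) (b (a (l 16723496) (b (l 16732024) (l 16728464))) (l 16714696)))) (b (a (b (a (l 16735576) (b (l 16733960) (l 16731920))) (a (b (l 16733120) (l 16730576)) (l 16726736))) (b (a (b (l 16730536) (l 16726736)) (l 16722624)) (l 16717336))) (l 16689712))) (a (b (a (b (a (b (l 16733216) (l 16729736)) (l 16725608)) (l 16719792)) (l 16711776)) (l 16657944))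 (a (l 16648448) (l 16678104))))) (a (b (a (b (a (b (a (l 16739672) (l 16726248)) (a (b (l 16736912) (l 16733880)) (l 16730064))) (b (a (b (l 16734824) (l 16730768)) (l 16726776)) (l 16720408))) (l 16670216)) (a (l 16660984) (l 16648448))) (a (b (l 16692256) (l 16671760)) (b (l 16667208) (l 16646864)))) (b (a (b (l 16681280) (l 16662168)) (b (l 16656712) (l 16637752))) (a (b (l 16642552) (l 16622368)) (b (l 16618288) (l 16598272)))))), by decide +kernel⟩

def k51_A00pm_012_s1 : ∃ t, chk3 f_A00pm_012_s1 t 19 28 1 = true :=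
  ⟨(a (b (a (a (l 527881087) (l 527916927)) (b (a (l 16720952) (b (l 16735432) (a (l 16733032) (b (a (l 16730904) (b (l 16729096) (l 16727312))) (a (b (l 16728848) (l 16726880)) (l 16722992)))))) (a (b (a (l 16737120) (l 16732408)) (a (b (l 16733536) (a (l 16732208) (b (l 16730456) (l 16728592)))) (b (a (l 16729776) (b (l 16727560) (l 16724440))) (a (l 16725104) (l 16719040))))) (b (a (b (a (l 16730480) (b (l 16728536) (l 16726296))) (a (b (l 16728120) (l 16725504)) (l 16721176))) (l 16715640)) (l 16686568))))) (a (b (a (l 16719360) (b (a (l 16736216) (b (l 16732968) (a (l 16731392) (b (l 16729448) (l 16726808))))) (a (b (a (l 16733560) (l 16725600)) (a (b (l 16731432) (l 16718880)) (l 16725776))) (b (a (b (l 16718200) (l 16725360)) (l 16721144)) (l 16716560))))) (a (b (a (b (l 16736184) (a (l 16734688) (l 16721480))) (b (a (l 16732640) (b (l 16730776) (l 16728224))) (a (b (l 16719416) (l 16726560)) (l 16722352)))) (a (b (a (b (l 16732472) (l 16719816)) (l 16726720)) (l 16721656))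 (l 16713384))) (a (b (l 16717152) (l 16701160)) (l 16655064)))) (b (a (b (a (b (a (b (l 16730008) (l 16727848)) (l 16723960)) (l 16719520)) (l 16711120)) (l 16681192)) (b (l 16693072) (l 16678192))) (a (b (l 16686776) (l 16670960)) (l 16613152))))) (b (a (b (a (b (a (b (l 16729568) (a (l 16728272) (l 16724248))) (a (b (l 16724680) (l 16718296)) (l 16715600))) (a (a (l 16709920) (l 16714312)) (l 16705368))) (a (l 16700128) (l 16688328))) (a (a (l 16696696) (l 16684832)) (l 16667152))) (a (b (l 16670720) (l 16643888)) (b (l 16647544) (l 16620936)))) (a (a (b (l 16620032) (l 16631640)) (b (l 16638616) (l 16608552))) (a (b (l 16615600) (l 16585824)) (b (l 16592928) (l 16563472)))))), by decide +kernel⟩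

def k52_A00pm_012_s1 : ∃ t, chk3 f_A00pm_012_s1 t 19 29 1 = true :=
  ⟨(a (b (a (a (b (a (l 16679776) (l 16646576)) (b (l 16668720) (l 16650864))) (b (b (l 16678696) (l 16661888)) (l 16593872))) (a (b (l 16604472) (l 16612176)) (b (l 16622872) (l 16588936)))) (b (a (a (l 16581224) (l 16599456)) (a (l 16576144) (l 16553248))) (a (a (b (l 16594424) (l 16574584)) (b (l 16570968) (l 16551312))) (a (b (l 16547936) (l 16528472)) (b (l 16525320) (l 16506056)))))) (b (a (a (b (l 16599696) (l 16566096)) (b (l 16576912) (l 16543656))) (a (b (l 16554520) (l 16521640)) (b (l 16532528) (l 16500040)))) (b (a (a (l 16530776) (l 16508720)) (a (l 16445168) (b (l 16474656) (l 16457208)))) (a (b (a (l 16503144) (l 16481408)) (a (l 16463120) (b (l 16467368) (l 16436888)))) (a (b (l 16460136) (b (l 16425304) (a (l 16442104) (l 16431736)))) (b (l 16418368) (b (a (l 16430792) (a (l 16423152) (a (l 16419352) (l 16401136)))) (a (b (l 16423832) (a (l 16421728) (b (l 16417800) (b (c (l 16396072) (l 16415168))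 (a (l 16416176) (c (a (l 16415368) (l 16414696)) (l 16413200))))))) (b (a (a (l 16417496) (a (l 16415608) (b (l 16415496) (b (l 16413768) (l 16412976))))) (b (a (c (l 16393712) (l 16412792)) (b (c (l 16413224) (l 16411320)) (l 16411976))) (a (c (a (l 16413656) (l 16413232)) (l 16411576)) (l 16411848)))) (a (a (b (a (l 16414688) (b (l 16414000) (l 16413336))) (l 16413328)) (b (c (l 16413856) (l 16411960)) (l 16412712))) (l 16411904))))))))))), by decide +kernel⟩

def k53_A00pm_012_s1 : ∃ t, chk3 f_A00pm_012_s1 t 18 30 1 = true :=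
  ⟨(b (a (a (b (a (b (a (l 16748608) (b (l 16745216) (a (b (l 16744448) (l 16742200)) (b (l 16740992) (l 16736584))))) (a (b (a (l 16745360) (b (l 16743456) (l 16739784))) (l 16735720)) (l 16727352))) (b (a (b (a (b (l 16742480) (l 16739816)) (l 16715320)) (l 16729280)) (l 16721328)) (l 16665776))) (a (b (l 16693320) (l 16652480)) (b (l 16688256) (l 16669168)))) (b (a (b (l 16659976) (l 16681952)) (b (l 16676392) (l 16656584))) (a (b (l 16662648) (l 16643696)) (b (l 16637448) (l 16618672))))) (a (b (a (b (l 16651256) (l 16631616)) (b (l 16626520) (l 16607048))) (b (a (l 16612656) (l 16588272)) (a (l 16594064) (l 16569880)))) (b (a (b (l 16602192) (l 16582904)) (b (l 16578272) (l 16559168))) (b (a (l 16564312) (l 16540776)) (a (l 16546120) (l 16522792)))))) (a (a (b (b (a (l 16674032) (l 16649480)) (a (l 16652272) (l 16628952))) (b (a (l 16629224) (l 16606856)) (l 16550992))) (b (b (a (l 16624816) (l 16599944)) (a (l 16605008) (l 16580960))) (b (a (l 16584160) (l 16560848)) (a (l 16560464)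 (b (l 16544456) (l 16534864)))))) (b (a (b (a (l 16575528) (l 16551544)) (l 16502792)) (b (a (l 16527992) (l 16504888)) (a (b (l 16514256) (l 16505072)) (a (b (l 16497024) (l 16469368)) (b (l 16444312) (l 16484080)))))) (a (b (a (l 16537448) (b (l 16518632) (l 16491488))) (a (b (l 16524704) (l 16522720)) (l 16513312))) (b (b (a (b (l 16457912) (l 16414976)) (l 16489008)) (l 16496312)) (l 16500280)))))), by decide +kernel⟩

def k54_A00pm_012_s1 : ∃ t, chk3 f_A00pm_012_s1 t 38 30 1 = true :=
  ⟨(b (a (b (a (b (l 16554768) (l 16535864)) (b (l 16531696) (l 16512992))) (a (b (l 16517680) (l 16499904)) (b (l 16495016) (l 16466984)))) (b (a (b (l 16509048) (l 16469592)) (b (l 16465880) (a (l 16432104) (l 16442208)))) (b (a (b (l 16435256) (l 16447488)) (a (l 16435504) (b (l 16450040) (b (a (l 16446256) (a (l 16442256) (b (l 16440656) (b (l 16439064) (c (l 16439248) (l 16437504)))))) (a (b (l 16443064) (a (l 16421448) (b (l 16440616) (l 16440552)))) (a (b (a (l 16419016) (l 16418168)) (l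 16439616)) (l 16438568))))))) (a (b (a (l 16465288) (a (l 16457104) (b (l 16453832) (b (l 16450608) (c (l 16428912) (l 16427232)))))) (a (b (l 16458832) (a (l 16436632) (l 16433016))) (b (a (a (l 16431512) (l 16429720)) (l 16448912)) (l 16450912)))) (b (a (b (a (l 16427504) (b (a (l 16445472) (l 16422280)) (a (l 16423264) (l 16443096)))) (a (b (c (l 16426176) (l 16424480)) (l 16446280)) (l 16444320))) (a (l 16421168) (l 16440472))) (l 16445200)))))) (b (a (b (a (b (l 16486664) (a (l 16483384) (b (l 16474520) (l 16451144)))) (b (a (l 16449184) (b (a (l 16463880) (l 16438552)) (l 16439920))) (a (b (l 16445400) (l 16467056)) (l 16462640)))) (a (b (a (b (l 16436152) (l 16477720)) (l 16473024)) (l 16477952)) (l 16468776))) (b (a (a (a (l 16437608) (l 16456744)) (l 16454072)) (l 16448840)) (l 16457720))) (b (a (l 16478648) (l 16463272)) (l 16475872)))), by decide +kernel⟩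

def k55_A00pm_012_s1 : ∃ t, chk3 f_A00pm_012_s1 t 78 240 1 = true :=
  ⟨(a (b (l 16427832) (l 16439544)) (b (a (l 16453752) (l 16443200)) (a (l 16444576) (c (l 16414008) (l 16433208))))), by decide +kernel⟩

def k56_A00pm_012_s1 : ∃ t, chk3 f_A00pm_012_s1 t 156 241 1 = true :=
  ⟨(a (b (l 16456872) (l 16448032)) (b (l 16446200) (a (l 16440072) (b (l 16436976) (b (l 16433720) (a (l 16432880) (a (l 16430920) (b (l 16430136) (a (a (l 16429648) (l 16429416)) (l 16429168)))))))))), by decide +kernel⟩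

def k57_A00pm_012_s1 : ∃ t, chk3 f_A00pm_012_s1 t 157 241 1 = true :=
  ⟨(b (a (c (l 16415568) (l 16434776)) (b (a (l 16430032) (b (l 16425944) (a (l 16425040) (a (b (l 16423648) (a (l 16422896) (b (l 16422512) (l 16422216)))) (c (b (b (l 16423552) (l 16423088)) (b (l 16422848) (l 16422824))) (b (l 16421496) (l 16421016))))))) (a (b (a (l 16428040) (c (l 16426360) (l 16424544))) (a (a (l 16426512) (b (l 16425752) (b (l 16424952) (a (l 16424776) (l 16424384))))) (b (a (b (l 16424728) (c (l 16425200) (l 16423368))) (b (c (l 16424608) (l 16422776)) (l 16423616))) (c (l 16424816) (l 16422992))))) (b (b (a (a (l 16424048) (b (c (l 16423992) (l 16422160)) (c (l 16423712) (l 16421880)))) (l 16422160)) (a (a (b (a (l 16423568) (l 16425720)) (l 16425808)) (l 16422776)) (l 16422248))) (l 16422760))))) (a (b (a (l 16431720) (a (b (l 16428896) (a (b (l 16427920) (b (l 16427152) (a (l 16427016) (l 16426680)))) (b (a (l 16426960) (b (l 16426568) (l 16426240))) (l 16426384)))) (a (b (c (l 16427864)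 (l 16426056)) (b (c (l 16426840) (l 16425024)) (l 16426000))) (b (b (l 16426184) (a (b (l 16425728) (l 16425512)) (l 16425312))) (l 16425568))))) (a (b (b (a (l 16430328) (a (l 16428392) (c (b (l 16428368) (l 16428208)) (l 16426528)))) (c (a (a (l 16430800) (l 16429584)) (a (l 16428752) (l 16428296))) (a (l 16428416) (l 16426736)))) (a (a (b (a (l 16429216) (b (l 16428808) (l 16428616))) (l 16428824)) (l 16428384)) (l 16427808))) (l 16426552))) (b (a (b (a (a (b (c (b (l 16426136) (l 16425896)) (l 16424240)) (l 16425008)) (l 16424592)) (l 16424056)) (l 16424672)) (l 16423112)) (l 16424384)))), by decide +kernel⟩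

def k58_A00pm_012_s1 : ∃ t, chk3 f_A00pm_012_s1 t 78 121 1 = true :=
  ⟨(b (a (b (a (b (l 16441528) (a (l 16439880) (b (a (l 16436984) (a (l 16435016) (b (l 16434216) (a (l 16433672) (l 16433296))))) (b (a (a (l 16436040) (l 16434824)) (l 16433784)) (a (c (l 16414840) (l 16434056)) (l 16433936)))))) (b (a (b (l 16434672) (a (c (l 16434768) (l 16433000)) (a (b (l 16432424) (l 16431888)) (a (b (l 16431584) (l 16431504)) (l 16431264))))) (b (b (a (c (l 16432216) (l 16430432)) (a (b (l 16429832) (l 16429776)) (l 16429360))) (a (a (b (l 16431144) (l 16430848)) (l 16430312)) (l 16429720))) (l 16430368))) (a (b (a (a (b (a (l 16433296) (l 16432832)) (l 16432944)) (l 16432480)) (l 16431888)) (l 16432672)) (l 16430936)))) (a (b (a (c (b (a (l 16438944) (b (l 16416104) (l 16436848))) (a (l 16417088) (l 16437136))) (b (a (l 16437200) (l 16414320)) (l 16414912))) (l 16434864)) (l 16436568)) (l 16432960))) (b (a (l 16428304) (l 16425344)) (l 16428400))) (a (l 16416520) (l 16431176))), by decide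 +kernel⟩

def k59_A00pm_012_s1 : ∃ t, chk3 f_A00pm_012_s1 t 158 240 1 = true :=
  ⟨(b (a (l 16411800) (b (l 16424760) (a (l 16422768) (b (c (a (l 16420992) (b (l 16419016) (a (l 16418520) (b (l 16417544) (l 16417144))))) (l 16396928)) (b (a (l 16418368) (a (a (l 16416832) (b (l 16416472) (l 16416240))) (l 16416008))) (a (a (l 16417880) (c (b (l 16417904) (l 16417640)) (l 16415944))) (l 16416152))))))) (a (b (c (l 16405904) (l 16425056)) (a (b (l 16425200) (a (l 16424272) (a (l 16422344) (b (l 16421608) (b (l 16420792) (a (l 16420584) (l 16420184))))))) (b (a (c (l 16422272) (l 16420424)) (a (b (l 16419976) (b (a (l 16419480) (l 16419048)) (l 16419120))) (b (c (b (l 16419976) (l 16419720)) (l 16418032)) (l 16418752)))) (a (a (c (b (b (l 16421520) (l 16421064)) (l 16420832)) (b (l 16419464) (l 16418984))) (b (c (b (l 16420512) (l 16420416)) (l 16418640)) (l 16419528))) (l 16419000))))) (b (a (b (b (c (l 16420888) (l 16419032)) (a (l 16420112) (a (c (l 16419176) (l 16417312)) (a (b (l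 16417584) (l 16417392)) (l 16417232))))) (b (a (c (a (l 16420560) (b (l 16419568) (l 16419152))) (l 16418136)) (a (c (l 16418640) (l 16416768)) (l 16417328))) (a (a (b (l 16418824) (a (l 16418632) (l 16418280))) (l 16418032)) (l 16417520)))) (a (a (b (b (c (b (l 16418128) (l 16417928)) (l 16416192)) (l 16416976)) (l 16417016)) (l 16416664)) (l 16416184))) (a (b (l 16417904) (l 16418008)) (l 16416640))))), by decide +kernel⟩

def k60_A00pm_012_s1 : ∃ t, chk3 f_A00pm_012_s1 t 158 241 1 = true :=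
  ⟨(b (a (b (a (b (a (a (c (l 16423640) (l 16421808)) (b (l 16421976) (a (b (l 16421480) (l 16421184)) (c (l 16421920) (l 16420080))))) (a (b (c (b (l 16421936) (l 16421656)) (b (l 16420088) (l 16419808))) (l 16420688)) (l 16420312))) (a (b (a (c (b (a (l 16422656) (l 16422288)) (l 16422400)) (l 16420640)) (l 16421112)) (l 16421368)) (l 16420640))) (l 16419536)) (l 16420576)) (l 16417696)) (l 16419912)), by decide +kernel⟩

def k61_A00pm_012_s1 : ∃ t, chk3 f_A00pm_012_s1 t 159 120 1 = true :=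
  ⟨(b (a (b (b (a (b (l 16418264) (a (c (l 16418200) (l 16416328)) (b (c (a (l 16416864) (l 16415936)) (l 16393600)) (a (c (l 16416152) (l 16414272)) (l 16414776))))) (b (a (a (c (b (l 16416600) (l 16415728)) (l 16393352)) (c (b (l 16415544) (l 16415176)) (l 16413520))) (l 16413800)) (l 16414032))) (a (a (b (c (b (a (l 16417184) (l 16416400)) (l 16416488)) (b (c (l 16394480) (l 16414512)) (l 16414616))) (l 16415520)) (l 16414896)) (l 16413968))) (l 16414656)) (b (l 16412200) (l 16412176))) (l 16393176)), by decide +kernel⟩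

def k62_A00pm_012_s1 : ∃ t, chk3 f_A00pm_012_s1 t 79 121 1 = true :=
  ⟨(b (a (l 16421768) (l 16416232)) (l 16422312)), by decide +kernel⟩

def k63_A00pm_012_s1 : ∃ t, chk3 f_A00pm_012_s1 t 39 61 1 = true :=
  ⟨(b (a (b (l 16438832) (l 16443688)) (l 16344544)) (b (l 16442256) (l 16446032))), by decide +kernel⟩

def k64_A00pm_012_s1 : ∃ t, chk3 f_A00pm_012_s1 t 9 31 1 = true :=
  ⟨(a (b (a (a (b (b (a (l 16574096) (b (l 16560976) (l 16548224))) (a (b (l 16552296) (l 16545512)) (l 16541120))) (b (l 16538672) (l 16490080))) (b (b (a (b (l 16542544) (l 16537376)) (l 16531072)) (l 16532184)) (l 16503640))) (b (a (l 16519000) (l 16503488)) (a (l 16512624) (l 16497904)))) (a (b (a (b (l 16524488) (a (l 16519944) (l 16514416))) (a (l 16512688) (l 16507320))) (a (b (a (l 16513800) (l 16508232)) (b (l 16465384) (l 16421728))) (a (l 16479000) (l 16452520)))) (b (a (l 16499032) (l 16486864)) (a (a (l 16405136) (l 16483528)) (l 16475016))))) (b (a (b (l 16477984) (a (l 16482232) (l 16464648)))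 (b (l 16446632) (l 16440096))) (a (b (a (l 16471888) (l 16455912)) (a (l 16462488) (l 16447096))) (b (l 16429576) (l 16422240))))), by decide +kernel⟩

def k65_A00pm_012_s1 : ∃ t, chk3 f_A00pm_012_s1 t 10 4 1 = true :=
  ⟨(a (a (l 3) (l 2)) (l 2)), by decide +kernel⟩

def k66_A00pm_012_s1 : ∃ t, chk3 f_A00pm_012_s1 t 10 10 1 = true :=
  ⟨(a (a (l 3) (a (a (l 3) (b (l 3) (a (l 3) (l 528262271)))) (b (a (l 528577343) (b (l 2) (b (l 2) (a (l 528589119) (l 7079956391))))) (a (a (a (l 528545151) (l 528552063)) (b (l 528568895) (l 528555903))) (b (a (l 528580159) (b (l 16761104) (l 16764432))) (b (a (l 16761544) (l 16762336)) (a (l 16764488) (l 16760056)))))))) (b (l 528695135) (b (l 528684639) (a (a (b (l 16740760) (l 16738512)) (l 16732432)) (l 16664056))))), by decide +kernel⟩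

def k67_A00pm_012_s1 : ∃ t, chk3 f_A00pm_012_s1 t 40 11 1 = true :=
  ⟨(b (l 3) (a (l 3) (a (a (l 3) (b (l 3) (l 528386943))) (a (b (l 3) (l 528399743)) (l 528420223))))), by decide +kernel⟩

def k68_A00pm_012_s1 : ∃ t, chk3 f_A00pm_012_s1 t 82 11 1 = true :=
  ⟨(a (b (a (a (l 3) (l 528473727)) (l 528479871)) (a (l 528432255) (l 528444031))) (a (b (l 528490623) (l 528455295)) (b (l 528500095) (l 528196479)))), by decide +kernel⟩

def k69_A00pm_012_s1 : ∃ t, chk3 f_A00pm_012_s1 t 166 11 1 = true :=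
  ⟨(a (b (a (l 528515711) (l 528522879)) (a (l 528481663) (l 528489343))) (b (a (l 528529023) (l 528534911)) (b (l 528509055) (b (l 16747296) (a (l 16744456) (b (l 16743096) (a (l 16741656) (l 16739520)))))))), by decide +kernel⟩

def k70_A00pm_012_s1 : ∃ t, chk3 f_A00pm_012_s1 t 167 11 1 = true :=
  ⟨(b (a (a (l 528540799) (a (l 528545407) (a (l 528547455) (b (l 528558463) (b (l 16754536) (l 16751416)))))) (a (a (a (b (l 528559743) (b (l 16753968) (b (a (l 16751840) (a (l 16751496) (l 16751008))) (a (l 16749808) (l 16748376))))) (b (b (l 16758968) (a (l 16756432) (a (a (b (l 16756952) (a (l 16755592) (l 16755448))) (a (a (a (b (l 16756912) (l 16755296)) (b (a (l 16756912) (l 16756888)) (a (l 16755152) (l 16754920)))) (b (l 16756880) (l 16754728))) (b (l 16756856) (l 16754704)))) (b (l 16756768) (l 16754624))))) (a (b (a (b (l 16754384) (l 16752688)) (b (l 16754088) (l 16751832))) (a (l 16748480) (l 16747136))) (a (a (b (b (a (l 16753720) (l 16753176)) (l 16750448)) (l 16745672))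 (b (l 16750816) (l 16744488))) (l 16747136))))) (b (b (l 16758136) (b (l 16756152) (l 16754032))) (l 16746552))) (b (b (l 16756480) (b (l 16754504) (l 16752472))) (l 16745000)))) (a (a (b (b (l 16751208) (l 16747656)) (b (a (b (l 16745520) (l 16743296)) (b (a (l 16744544) (l 16743376)) (l 16740536))) (a (b (l 16740200) (l 16735912)) (l 16734120)))) (a (b (b (l 16749560) (b (a (l 16747248) (l 16746304)) (a (l 16744944) (l 16743112)))) (b (l 16738264) (l 16729752))) (b (b (b (a (l 16749584) (a (l 16748992) (l 16748184))) (a (l 16747504) (l 16745496))) (a (l 16742624) (l 16739944))) (l 16729016)))) (a (a (b (a (b (l 16744072) (l 16736688)) (a (l 16716208) (a (a (l 16714064) (b (l 16737528) (l 16729960))) (l 16712216)))) (a (l 16724360) (a (b (l 16725296) (l 16716576)) (b (a (a (l 16723088) (l 16721808)) (l 16721200)) (a (a (l 16714344) (b (l 16704824) (b (l 16701448) (l 16699152)))) (l 16712448)))))) (b (l 16711640) (b (l 16720624) (l 16711864)))) (b (l 16731072) (b (l 16719080) (l 16710328)))))),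 by decide +kernel⟩

def k71_A00pm_012_s1 : ∃ t, chk3 f_A00pm_012_s1 t 21 11 1 = true :=
  ⟨(b (a (b (a (b (l 16725584) (a (b (l 16749000) (l 16747184)) (l 16739384))) (a (l 16731992) (l 16723256))) (b (a (l 16738776) (l 16722184)) (l 16682304))) (b (l 16659456) (b (l 16696856) (l 16691416)))) (a (a (b (a (l 16704968) (l 16717712)) (b (l 16709856) (l 16701080))) (b (l 16705408) (l 16689096))) (b (l 16680984) (l 16664720)))), by decide +kernel⟩

def k72_A00pm_012_s1 : ∃ t, chk3 f_A00pm_012_s1 t 11 2 1 = true :=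
  ⟨(b (l 2) (b (b (l 2) (l 528926303)) (a (b (a (b (l 16666544) (l 16660568)) (b (l 16631872) (l 16626744))) (b (a (l 16648768) (l 16616992)) (l 16616936))) (b (a (l 16594984) (l 2)) (b (l 16484640) (l 16554792)))))), by decide +kernel⟩

def k73_A00pm_012_s1 : ∃ t, chk3 f_A00pm_012_s1 t 40 6 1 = true :=
  ⟨(b (a (b (b (a (l 3) (b (l 3) (a (l 3) (a (a (l 3) (l 528334863)) (l 528339583))))) (a (b (l 3) (l 528276095)) (a (b (l 528310911) (l 528300415)) (b (a (l 528322431) (l 528329087)) (l 528314239))))) (a (l 527978623) (a (l 528271999) (l 528286335)))) (b (a (b (a (l 528353407) (l 528366719)) (a (b (l 528338303) (l 528327807)) (l 528346239))) (b (l 528378239) (l 528358015))) (a (b (l 528313215) (l 528292991)) (b (l 528337791) (b (l 16737352) (a (l 16733360) (b (l 16729936) (l 16724872)))))))) (b (a (b (a (l 528217727) (l 16728768)) (a (b (l 16737816) (a (l 16732816) (b (l 16730104) (a (l 16727000) (l 16723128))))) (b (a (l 16730824) (b (l 16727848) (l 16721704))) (a (b (a (l 16725888)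 (l 16721352)) (l 16714552)) (l 16707728))))) (b (a (b (l 16722736) (a (b (l 16730976) (l 16705328)) (b (l 16724240) (l 16716304)))) (b (a (b (l 16727544) (l 16721384)) (l 16713520)) (l 16702864))) (a (b (a (l 16714864) (l 16703040)) (l 16690160)) (l 16592272)))) (a (a (b (b (a (b (a (l 16727848) (l 16724392)) (l 16717856)) (l 16711224)) (l 16695800)) (b (l 16673368) (l 16649656))) (b (b (l 16693632) (l 16672560)) (l 16638624))) (b (a (l 16660008) (l 16636888)) (a (l 16615848) (l 16593240)))))), by decide +kernel⟩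

def k74_A00pm_012_s1 : ∃ t, chk3 f_A00pm_012_s1 t 82 12 1 = true :=
  ⟨(b (a (a (l 528393599) (l 528405887)) (a (b (l 16750088) (l 16740744)) (b (l 16745728) (b (l 16738616) (a (b (l 16736248) (l 16732792)) (b (l 16732664) (l 16727256))))))) (a (b (b (l 16739744) (a (l 16736512) (b (l 16733032) (a (l 16731288) (l 16726936))))) (b (a (b (l 16731720) (l 16706304)) (l 16719712)) (a (l 16717160) (l 16705112)))) (b (a (b (a (l 16733752) (b (l 16732656) (l 16727696))) (l 16721232)) (b (l 16721504) (l 16708584))) (l 16662360)))), by decide +kernel⟩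

def k75_A00pm_012_s1 : ∃ t, chk3 f_A00pm_012_s1 t 166 12 1 = true :=
  ⟨(b (b (a (b (l 16743568) (a (l 16740272) (b (l 16738944) (l 16730440)))) (b (a (b (l 16741216) (a (l 16739568) (l 16737472))) (b (a (l 16738600) (l 16735160)) (l 16732256))) (a (l 16721536) (l 16724864)))) (a (b (a (b (l 16736200) (l 16732152)) (l 16728352)) (l 16720392)) (l 16691272))) (b (a (l 16702080) (l 16688200)) (a (l 16674840) (l 16661064)))), by decide +kernel⟩

def k76_A00pm_012_s1 : ∃ t, chk3 f_A00pm_012_s1 t 167 24 1 = true :=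
  ⟨(b (a (a (l 16722064) (a (l 16715632) (l 16668528))) (b (a (a (a (l 16710664) (a (l 16707240) (a (a (l 16705008) (a (a (a (l 16704096) (a (l 16703784) (l 16698192))) (l 16703208)) (l 16703184))) (l 16703104)))) (l 16702520)) (l 16700976)) (a (a (a (l 16700712) (a (l 16697288) (a (a (l 16695056) (a (a (a (l 16694152) (a (l 16693848) (b (l 16685560) (l 16680440)))) (l 16693272)) (l 16693240))) (l 16693160)))) (l 16692576)) (l 16691016)))) (a (a (l 16700928) (a (l 16694440) (l 16668288))) (a (a (a (b (l 16690120) (l 16678872)) (a (b (l 16686712) (l 16675504)) (b (a (a (l 16684496) (a (a (a (l 16683600) (a (l 16683296) (a (l 16683048) (b (l 16685536) (l 16680112))))) (l 16682728)) (l 16682704))) (l 16682616)) (a (a (a (l 16673744) (l 16673024)) (a (a (a (l 16672432) (a (l 16672128) (a (l 16671888) (b (l 16664048) (l 16658312))))) (l 16671568)) (l 16671544))) (l 16671464))))) (b (l 16682032) (l 16670864))) (b (l 16680456) (l 16669272))))), by decide +kernel⟩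

def k77_A00pm_012_s1 : ∃ t, chk3 f_A00pm_012_s1 t 167 25 1 = true :=
  ⟨(b (a (a (l 16676896) (b (l 16673904) (l 16661240))) (a (a (a (b (l 16666976) (l 16654400)) (a (b (l 16663648) (l 16651128)) (b (a (a (a (l 16661912) (l 16661216)) (a (a (a (l 16660632) (a (l 16660336) (a (l 16660096) (b (l 16662904) (l 16656848))))) (b (l 16662800) (l 16656744))) (b (l 16662776) (l 16656720)))) (l 16659672)) (a (a (l 16649024) (a (a (a (l 16648184) (a (l 16647896) (a (l 16637176) (b (l 16650640) (l 16644264))))) (l 16647360)) (l 16647328))) (l 16647248))))) (b (l 16659072) (l 16646632))) (b (l 16657464) (l 16645008)))) (a (a (l 16649928) (b (l 16647872) (l 16633776))) (b (a (a (a (l 16641144) (a (l 16637944) (a (a (l 16635896) (a (a (a (l 16635072) (b (l 16627456) (l 16610256))) (l 16634272)) (l 16634248))) (l 16634160)))) (l 16633544)) (l 16631888)) (a (a (a (l 16627184) (a (l 16624072) (a (a (l 16622088) (b (l 16603504) (l 16596448))) (l 16620408)))) (l 16619776)) (l 16618096))))), by decide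 +kernel⟩

def k78_A00pm_012_s1 : ∃ t, chk3 f_A00pm_012_s1 t 41 13 1 = true :=
  ⟨(a (b (a (b (l 16645456) (l 16652576)) (b (l 16663008) (l 16628552))) (b (a (l 16613736) (l 16590312)) (a (l 16570720) (l 16548104)))) (a (b (b (a (l 16644248) (l 16630744)) (a (l 16610208) (l 16597120))) (b (l 16565808) (l 16524752))) (b (a (b (a (l 16619912) (a (l 16613832) (l 16609088))) (a (l 16586704) (l 16578440))) (b (a (a (a (l 16604848) (a (l 16607128) (a (a (l 16600008) (b (l 16585520) (l 16591320))) (l 16598432)))) (l 16597784)) (l 16596064)) (a (a (a (l 16572504) (a (l 16569792) (b (l 16533952) (l 16559208)))) (l 16566000)) (l 16564208)))) (b (a (l 16503696) (a (a (a (l 16537016) (a (l 16534600) (l 16532672))) (l 16531176)) (l 16529320))) (a (l 16505968) (a (a (a (l 16498200) (a (l 16496136) (l 16494632))) (l 16493152)) (l 16491216))))))), by decide +kernel⟩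

def k79_A00pm_012_s1 : ∃ t, chk3 f_A00pm_012_s1 t 21 6 1 = true :=
  ⟨(b (b (a (a (b (b (l 16691688) (l 16671192)) (a (b (l 16675224) (l 16663984)) (l 16661240))) (b (l 16670208) (l 16648712))) (b (l 16645728) (l 16623968))) (a (a (b (a (b (l 16652112) (l 16639584)) (l 16637304)) (b (l 16622024) (l 16608080))) (b (l 16624536) (l 16597584))) (b (l 16599376) (l 16571864)))) (b (a (b (b (l 16584488) (l 16568976)) (a (l 16553592) (l 16534912))) (b (l 16541328) (l 16507632))) (a (b (l 16508608) (l 16469640)) (l 16366800)))), by decide +kernel⟩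

def k80_A00pm_012_s1 : ∃ t, chk3 f_A00pm_012_s1 t 11 6 1 = true :=
  ⟨(b (a (b (b (l 16597952) (l 16575904)) (a (l 16552832) (l 16520792))) (b (b (l 16536280) (l 16514336)) (l 16390880))) (a (b (a (l 16490080) (l 16456712)) (b (l 16416808) (l 16374336))) (b (l 16325376) (l 16223320)))), by decide +kernel⟩

def k81_A00pm_012_s1 : ∃ t, chk3 f_A00pm_012_s1 t 20 28 1 = true :=
  ⟨(a (a (b (a (l 16569632) (l 16589104)) (a (l 16514208) (l 16534360))) (b (a (l 16566920) (l 16545000)) (a (l 16512944) (l 16491896)))) (a (a (b (l 16523296) (l 16471208)) (b (l 16501696) (a (l 16456008) (l 16404256)))) (b (a (l 16479752) (a (a (l 16466280) (a (l 16462600) (l 16461216))) (a (a (a (l 16460776) (a (l 16461656) (b (l 16383896) (l 16458952)))) (l 16463296)) (l 16461168)))) (a (a (b (l 16448816) (a (l 16343392) (l 16341400))) (b (l 16356528) (l 16342272))) (a (a (l 16391576) (l 16437592)) (l 16358672)))))), by decide +kernel⟩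

def k82_A00pm_012_s1 : ∃ t, chk3 f_A00pm_012_s1 t 20 29 1 = true :=
  ⟨(a (b (a (a (b (l 16510944) (l 16478888)) (b (l 16489776) (l 16458192))) (a (b (l 16469048) (l 16437976)) (b (l 16448768) (b (l 16426056) (a (l 16394816) (a (l 16389248) (l 16366160))))))) (a (b (a (b (l 16453848) (l 16436648)) (b (l 16433536) (a (l 16421576) (b (l 16416008) (a (b (l 16412048) (l 16387872)) (b (l 16387392) (l 16407112))))))) (a (b (a (l 16403104) (b (l 16418488) (a (b (l 16414344) (b (c (l 16391368) (l 16389456)) (a (l 16389640) (l 16409688)))) (b (b (l 16389872) (l 16388672)) (l 16409032))))) (a (b (b (a (l 16415360) (b (a (l 16412744) (l 16389928)) (a (c (l 16412160) (l 16410248)) (l 16410352)))) (a (b (a (l 16413232) (a (l 16390760) (l 16411152))) (a (a (l 16391072) (l 16411504)) (l 16411072))) (l 16410344))) (l 16410360)) (l 16387552))) (b (a (b (a (b (l 16413256) (b (l 16389328) (l 16388128))) (b (c (l 16389336) (l 16387408)) (l 16407944))) (l 16407768)) (l 16406384)) (l 16405528)))) (b (a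 (b (a (l 16376776) (b (l 16371328) (a (l 16387648) (l 16406624)))) (a (b (a (b (l 16410784) (l 16365976)) (l 16386144)) (l 16406168)) (l 16405240))) (a (b (b (l 16386432) (l 16405664)) (l 16403968)) (l 16404072))) (a (b (l 16403952) (l 16401912)) (l 16399760))))) (a (b (a (b (a (l 16433928) (l 16403840)) (a (b (b (l 16415648) (l 16368472)) (l 16407128)) (l 16366352))) (b (a (b (l 16422208) (l 16329392)) (l 16394512)) (l 16408640))) (b (l 16382496) (l 16313824))) (b (a (l 16331040) (a (l 16421728) (l 16427240))) (a (l 16316496) (a (l 16405744) (l 16410224)))))), by decide +kernel⟩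

def k83_A00pm_012_s1 : ∃ t, chk3 f_A00pm_012_s1 t 21 14 1 = true :=
  ⟨(b (b (b (l 16421056) (l 16411336)) (l 16399688)) (b (l 16383984) (l 16366656))), by decide +kernel⟩

def k84_A00pm_012_s1 : ∃ t, chk3 f_A00pm_012_s1 t 11 14 1 = true :=
  ⟨(b (b (a (b (l 16340768) (l 16325992)) (l 16259496)) (a (l 16314144) (l 16234128))) (b (a (l 16298392) (l 16218336)) (a (l 16281264) (l 16201408)))), by decide +kernel⟩

def k85_A00pm_012_s1 : ∃ t, chk3 f_A00pm_012_s1 t 5 15 1 = true :=
  ⟨(a (a (b (a (b (a (b (a (b (l 16408664) (l 16409192)) (l 16362344)) (l 16368040)) (b (l 16356808) (l 16401040))) (b (a (l 16416800) (l 16406728)) (l 16419392))) (b (a (b (l 16393872) (l 16394904)) (a (l 16392824) (a (l 16396552) (l 16315944)))) (a (b (l 16399264) (l 16404312)) (a (l 16399576) (a (l 16401416) (l 16403312)))))) (a (b (b (l 16419376) (l 16410376)) (l 16349632)) (a (b (l 16397712) (l 16368712)) (a (b (l 16391472) (l 16359320)) (b (a (l 16391152) (l 16391472)) (a (l 16356552) (l 16355064)))))))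 (b (b (l 16356032) (l 16359384)) (b (l 16347488) (l 16311136)))) (b (b (a (l 16271112) (l 16191728)) (a (l 16275224) (l 16196608))) (b (a (l 16264432) (l 16186896)) (l 16107488)))), by decide +kernel⟩

def k86_A00pm_012_s1 : ∃ t, chk3 f_A00pm_012_s1 t 3 1 1 = true :=
  ⟨(a (b (b (l 2) (b (l 2) (a (b (l 2) (a (b (l 2) (l 16493536)) (l 2))) (l 2)))) (a (a (b (b (b (l 16466320) (l 16416056)) (b (l 16349656) (l 16182240))) (b (b (b (l 16192496) (l 16159272)) (b (l 16143488) (l 16126768))) (b (b (l 16117536) (l 16123152)) (l 6)))) (b (b (b (l 16408528) (l 16360096)) (b (l 16294024) (l 16209264))) (b (b (b (l 16132736) (l 16090688)) (b (l 16073536) (l 6))) (l 6)))) (a (b (b (b (l 2) (l 16306104)) (b (l 16241664) (l 16156928))) (l 6)) (b (l 6) (l 6))))) (b (l 2) (l 6))), by decide +kernel⟩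

theorem t87_A00pm_012_s1 : ∃ t, chk3 f_A00pm_012_s1 t 20 14 1 = true := ex3_b k81_A00pm_012_s1 k82_A00pm_012_s1

theorem t88_A00pm_012_s1 : ∃ t, chk3 f_A00pm_012_s1 t 10 14 1 = true := ex3_a t87_A00pm_012_s1 k83_A00pm_012_s1

theorem t89_A00pm_012_s1 : ∃ t, chk3 f_A00pm_012_s1 t 5 14 1 = true := ex3_a t88_A00pm_012_s1 k84_A00pm_012_s1

theorem t90_A00pm_012_s1 : ∃ t, chk3 f_A00pm_012_s1 t 5 7 1 = true := ex3_b t89_A00pm_012_s1 k85_A00pm_012_s1

theorem t91_A00pm_012_s1 : ∃ t, chk3 f_A00pm_012_s1 t 167 12 1 = true := ex3_b k76_A00pm_012_s1 k77_A00pm_012_s1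

theorem t92_A00pm_012_s1 : ∃ t, chk3 f_A00pm_012_s1 t 83 12 1 = true := ex3_a k75_A00pm_012_s1 t91_A00pm_012_s1

theorem t93_A00pm_012_s1 : ∃ t, chk3 f_A00pm_012_s1 t 41 12 1 = true := ex3_a k74_A00pm_012_s1 t92_A00pm_012_s1

theorem t94_A00pm_012_s1 : ∃ t, chk3 f_A00pm_012_s1 t 41 6 1 = true := ex3_b t93_A00pm_012_s1 k78_A00pm_012_s1

theorem t95_A00pm_012_s1 : ∃ t, chk3 f_A00pm_012_s1 t 20 6 1 = true := ex3_a k73_A00pm_012_s1 t94_A00pm_012_s1

theorem t96_A00pm_012_s1 : ∃ t, chk3 f_A00pm_012_s1 t 10 6 1 = true := ex3_a t95_A00pm_012_s1 k79_A00pm_012_s1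

theorem t97_A00pm_012_s1 : ∃ t, chk3 f_A00pm_012_s1 t 5 6 1 = true := ex3_a t96_A00pm_012_s1 k80_A00pm_012_s1

theorem t98_A00pm_012_s1 : ∃ t, chk3 f_A00pm_012_s1 t 5 3 1 = true := ex3_b t97_A00pm_012_s1 t90_A00pm_012_s1

theorem t99_A00pm_012_s1 : ∃ t, chk3 f_A00pm_012_s1 t 83 11 1 = true := ex3_a k69_A00pm_012_s1 k70_A00pm_012_s1

theorem t100_A00pm_012_s1 : ∃ t, chk3 f_A00pm_012_s1 t 41 11 1 = true := ex3_a k68_A00pm_012_s1 t99_A00pm_012_s1

theorem t101_A00pm_012_s1 : ∃ t, chk3 f_A00pm_012_s1 t 20 11 1 = true := ex3_a k67_A00pm_012_s1 t100_A00pm_012_s1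

theorem t102_A00pm_012_s1 : ∃ t, chk3 f_A00pm_012_s1 t 10 11 1 = true := ex3_a t101_A00pm_012_s1 k71_A00pm_012_s1

theorem t103_A00pm_012_s1 : ∃ t, chk3 f_A00pm_012_s1 t 10 5 1 = true := ex3_b k66_A00pm_012_s1 t102_A00pm_012_s1

theorem t104_A00pm_012_s1 : ∃ t, chk3 f_A00pm_012_s1 t 10 2 1 = true := ex3_b k65_A00pm_012_s1 t103_A00pm_012_s1

theorem t105_A00pm_012_s1 : ∃ t, chk3 f_A00pm_012_s1 t 5 2 1 = true := ex3_a t104_A00pm_012_s1 k72_A00pm_012_s1

theorem t106_A00pm_012_s1 : ∃ t, chk3 f_A00pm_012_s1 t 5 1 1 = true := ex3_b t105_A00pm_012_s1 t98_A00pm_012_s1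

theorem t107_A00pm_012_s1 : ∃ t, chk3 f_A00pm_012_s1 t 158 120 1 = true := ex3_b k59_A00pm_012_s1 k60_A00pm_012_s1

theorem t108_A00pm_012_s1 : ∃ t, chk3 f_A00pm_012_s1 t 79 120 1 = true := ex3_a t107_A00pm_012_s1 k61_A00pm_012_s1

theorem t109_A00pm_012_s1 : ∃ t, chk3 f_A00pm_012_s1 t 79 60 1 = true := ex3_b t108_A00pm_012_s1 k62_A00pm_012_s1

theorem t110_A00pm_012_s1 : ∃ t, chk3 f_A00pm_012_s1 t 78 241 1 = true := ex3_a k56_A00pm_012_s1 k57_A00pm_012_s1

theorem t111_A00pm_012_s1 : ∃ t, chk3 f_A00pm_012_s1 t 78 120 1 = true := ex3_b k55_A00pm_012_s1 t110_A00pm_012_s1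

theorem t112_A00pm_012_s1 : ∃ t, chk3 f_A00pm_012_s1 t 78 60 1 = true := ex3_b t111_A00pm_012_s1 k58_A00pm_012_s1

theorem t113_A00pm_012_s1 : ∃ t, chk3 f_A00pm_012_s1 t 39 60 1 = true := ex3_a t112_A00pm_012_s1 t109_A00pm_012_s1

theorem t114_A00pm_012_s1 : ∃ t, chk3 f_A00pm_012_s1 t 39 30 1 = true := ex3_b t113_A00pm_012_s1 k63_A00pm_012_s1

theorem t115_A00pm_012_s1 : ∃ t, chk3 f_A00pm_012_s1 t 19 30 1 = true := ex3_a k54_A00pm_012_s1 t114_A00pm_012_s1

theorem t116_A00pm_012_s1 : ∃ t, chk3 f_A00pm_012_s1 t 9 30 1 = true := ex3_a k53_A00pm_012_s1 t115_A00pm_012_s1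

theorem t117_A00pm_012_s1 : ∃ t, chk3 f_A00pm_012_s1 t 9 15 1 = true := ex3_b t116_A00pm_012_s1 k64_A00pm_012_s1

theorem t118_A00pm_012_s1 : ∃ t, chk3 f_A00pm_012_s1 t 19 14 1 = true := ex3_b k51_A00pm_012_s1 k52_A00pm_012_s1

theorem t119_A00pm_012_s1 : ∃ t, chk3 f_A00pm_012_s1 t 18 29 1 = true := ex3_a k49_A00pm_012_s1 k50_A00pm_012_s1

theorem t120_A00pm_012_s1 : ∃ t, chk3 f_A00pm_012_s1 t 18 14 1 = true := ex3_b k48_A00pm_012_s1 t119_A00pm_012_s1

theorem t121_A00pm_012_s1 : ∃ t, chk3 f_A00pm_012_s1 t 9 14 1 = true := ex3_a t120_A00pm_012_s1 t118_A00pm_012_s1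

theorem t122_A00pm_012_s1 : ∃ t, chk3 f_A00pm_012_s1 t 9 7 1 = true := ex3_b t121_A00pm_012_s1 t117_A00pm_012_s1

theorem t123_A00pm_012_s1 : ∃ t, chk3 f_A00pm_012_s1 t 137 496 1 = true := ex3_a k40_A00pm_012_s1 k41_A00pm_012_s1

theorem t124_A00pm_012_s1 : ∃ t, chk3 f_A00pm_012_s1 t 137 248 1 = true := ex3_b t123_A00pm_012_s1 k42_A00pm_012_s1

theorem t125_A00pm_012_s1 : ∃ t, chk3 f_A00pm_012_s1 t 68 248 1 = true := ex3_a k39_A00pm_012_s1 t124_A00pm_012_s1

theorem t126_A00pm_012_s1 : ∃ t, chk3 f_A00pm_012_s1 t 68 124 1 = true := ex3_b t125_A00pm_012_s1 k43_A00pm_012_s1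

theorem t127_A00pm_012_s1 : ∃ t, chk3 f_A00pm_012_s1 t 34 124 1 = true := ex3_a t126_A00pm_012_s1 k44_A00pm_012_s1

theorem t128_A00pm_012_s1 : ∃ t, chk3 f_A00pm_012_s1 t 34 62 1 = true := ex3_b t127_A00pm_012_s1 k45_A00pm_012_s1

theorem t129_A00pm_012_s1 : ∃ t, chk3 f_A00pm_012_s1 t 34 31 1 = true := ex3_b t128_A00pm_012_s1 k46_A00pm_012_s1

theorem t130_A00pm_012_s1 : ∃ t, chk3 f_A00pm_012_s1 t 17 31 1 = true := ex3_a t129_A00pm_012_s1 k47_A00pm_012_s1

theorem t131_A00pm_012_s1 : ∃ t, chk3 f_A00pm_012_s1 t 138 247 1 = true := ex3_a k35_A00pm_012_s1 k36_A00pm_012_s1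

theorem t132_A00pm_012_s1 : ∃ t, chk3 f_A00pm_012_s1 t 138 123 1 = true := ex3_b k34_A00pm_012_s1 t131_A00pm_012_s1

theorem t133_A00pm_012_s1 : ∃ t, chk3 f_A00pm_012_s1 t 69 123 1 = true := ex3_a t132_A00pm_012_s1 k37_A00pm_012_s1

theorem t134_A00pm_012_s1 : ∃ t, chk3 f_A00pm_012_s1 t 69 61 1 = true := ex3_b k33_A00pm_012_s1 t133_A00pm_012_s1

theorem t135_A00pm_012_s1 : ∃ t, chk3 f_A00pm_012_s1 t 69 30 1 = true := ex3_b k32_A00pm_012_s1 t134_A00pm_012_s1

theorem t136_A00pm_012_s1 : ∃ t, chk3 f_A00pm_012_s1 t 137 247 1 = true := ex3_a k30_A00pm_012_s1 k31_A00pm_012_s1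

theorem t137_A00pm_012_s1 : ∃ t, chk3 f_A00pm_012_s1 t 68 247 1 = true := ex3_a k29_A00pm_012_s1 t136_A00pm_012_s1

theorem t138_A00pm_012_s1 : ∃ t, chk3 f_A00pm_012_s1 t 68 123 1 = true := ex3_b k28_A00pm_012_s1 t137_A00pm_012_s1

theorem t139_A00pm_012_s1 : ∃ t, chk3 f_A00pm_012_s1 t 68 61 1 = true := ex3_b k27_A00pm_012_s1 t138_A00pm_012_s1

theorem t140_A00pm_012_s1 : ∃ t, chk3 f_A00pm_012_s1 t 68 30 1 = true := ex3_b k26_A00pm_012_s1 t139_A00pm_012_s1

theorem t141_A00pm_012_s1 : ∃ t, chk3 f_A00pm_012_s1 t 34 30 1 = true := ex3_a t140_A00pm_012_s1 t135_A00pm_012_s1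

theorem t142_A00pm_012_s1 : ∃ t, chk3 f_A00pm_012_s1 t 17 30 1 = true := ex3_a t141_A00pm_012_s1 k38_A00pm_012_s1

theorem t143_A00pm_012_s1 : ∃ t, chk3 f_A00pm_012_s1 t 17 15 1 = true := ex3_b t142_A00pm_012_s1 t130_A00pm_012_s1

theorem t144_A00pm_012_s1 : ∃ t, chk3 f_A00pm_012_s1 t 66 126 1 = true := ex3_b k22_A00pm_012_s1 k23_A00pm_012_s1

theorem t145_A00pm_012_s1 : ∃ t, chk3 f_A00pm_012_s1 t 33 126 1 = true := ex3_a t144_A00pm_012_s1 k24_A00pm_012_s1

theorem t146_A00pm_012_s1 : ∃ t, chk3 f_A00pm_012_s1 t 33 63 1 = true := ex3_b t145_A00pm_012_s1 k25_A00pm_012_s1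

theorem t147_A00pm_012_s1 : ∃ t, chk3 f_A00pm_012_s1 t 130 508 1 = true := ex3_a k17_A00pm_012_s1 k18_A00pm_012_s1

theorem t148_A00pm_012_s1 : ∃ t, chk3 f_A00pm_012_s1 t 130 254 1 = true := ex3_b t147_A00pm_012_s1 k19_A00pm_012_s1

theorem t149_A00pm_012_s1 : ∃ t, chk3 f_A00pm_012_s1 t 65 254 1 = true := ex3_a t148_A00pm_012_s1 k20_A00pm_012_s1

theorem t150_A00pm_012_s1 : ∃ t, chk3 f_A00pm_012_s1 t 65 127 1 = true := ex3_b t149_A00pm_012_s1 k21_A00pm_012_s1

theorem t151_A00pm_012_s1 : ∃ t, chk3 f_A00pm_012_s1 t 32 127 1 = true := ex3_a k16_A00pm_012_s1 t150_A00pm_012_s1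

theorem t152_A00pm_012_s1 : ∃ t, chk3 f_A00pm_012_s1 t 131 253 1 = true := ex3_a k14_A00pm_012_s1 k15_A00pm_012_s1

theorem t153_A00pm_012_s1 : ∃ t, chk3 f_A00pm_012_s1 t 130 507 1 = true := ex3_b k12_A00pm_012_s1 k13_A00pm_012_s1

theorem t154_A00pm_012_s1 : ∃ t, chk3 f_A00pm_012_s1 t 130 253 1 = true := ex3_b k11_A00pm_012_s1 t153_A00pm_012_s1

theorem t155_A00pm_012_s1 : ∃ t, chk3 f_A00pm_012_s1 t 65 253 1 = true := ex3_a t154_A00pm_012_s1 t152_A00pm_012_s1

theorem t156_A00pm_012_s1 : ∃ t, chk3 f_A00pm_012_s1 t 65 126 1 = true := ex3_b k10_A00pm_012_s1 t155_A00pm_012_s1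

theorem t157_A00pm_012_s1 : ∃ t, chk3 f_A00pm_012_s1 t 32 126 1 = true := ex3_a k9_A00pm_012_s1 t156_A00pm_012_s1

theorem t158_A00pm_012_s1 : ∃ t, chk3 f_A00pm_012_s1 t 32 63 1 = true := ex3_b t157_A00pm_012_s1 t151_A00pm_012_s1

theorem t159_A00pm_012_s1 : ∃ t, chk3 f_A00pm_012_s1 t 16 63 1 = true := ex3_a t158_A00pm_012_s1 t146_A00pm_012_s1

theorem t160_A00pm_012_s1 : ∃ t, chk3 f_A00pm_012_s1 t 67 125 1 = true := ex3_a k7_A00pm_012_s1 k8_A00pm_012_s1

theorem t161_A00pm_012_s1 : ∃ t, chk3 f_A00pm_012_s1 t 33 125 1 = true := ex3_a k6_A00pm_012_s1 t160_A00pm_012_s1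

theorem t162_A00pm_012_s1 : ∃ t, chk3 f_A00pm_012_s1 t 33 62 1 = true := ex3_b k5_A00pm_012_s1 t161_A00pm_012_s1

theorem t163_A00pm_012_s1 : ∃ t, chk3 f_A00pm_012_s1 t 16 62 1 = true := ex3_a k4_A00pm_012_s1 t162_A00pm_012_s1

theorem t164_A00pm_012_s1 : ∃ t, chk3 f_A00pm_012_s1 t 16 31 1 = true := ex3_b t163_A00pm_012_s1 t159_A00pm_012_s1

theorem t165_A00pm_012_s1 : ∃ t, chk3 f_A00pm_012_s1 t 16 15 1 = true := ex3_b k3_A00pm_012_s1 t164_A00pm_012_s1

theorem t166_A00pm_012_s1 : ∃ t, chk3 f_A00pm_012_s1 t 8 15 1 = true := ex3_a t165_A00pm_012_s1 t143_A00pm_012_s1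

theorem t167_A00pm_012_s1 : ∃ t, chk3 f_A00pm_012_s1 t 8 7 1 = true := ex3_b k2_A00pm_012_s1 t166_A00pm_012_s1

theorem t168_A00pm_012_s1 : ∃ t, chk3 f_A00pm_012_s1 t 4 7 1 = true := ex3_a t167_A00pm_012_s1 t122_A00pm_012_s1

theorem t169_A00pm_012_s1 : ∃ t, chk3 f_A00pm_012_s1 t 4 3 1 = true := ex3_b k1_A00pm_012_s1 t168_A00pm_012_s1

theorem t170_A00pm_012_s1 : ∃ t, chk3 f_A00pm_012_s1 t 4 1 1 = true := ex3_b k0_A00pm_012_s1 t169_A00pm_012_s1

theorem t171_A00pm_012_s1 : ∃ t, chk3 f_A00pm_012_s1 t 2 1 1 = true := ex3_a t170_A00pm_012_s1 t106_A00pm_012_s1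

theorem t172_A00pm_012_s1 : ∃ t, chk3 f_A00pm_012_s1 t 1 1 1 = true := ex3_a t171_A00pm_012_s1 k86_A00pm_012_s1

theorem c_A00pm_012_s1 : CertF 0 536870912 536870912 536870912 1040187392 5207648 true true false .pnp 0 1 2
    ndB0q0 ndB0q1 pcB2 cut_A00pm_012_s1 xt_A00pm_012_s1 :=
  certF2 (fam := true) (s1 := true) (s2 := false) (a := 0) (b := 1) (c := 2) (cn := .pnp) (n1 := ndB0q0) (n2 := ndB0q1) (pc := pcB2) (cut := cut_A00pm_012_s1) (xt := xt_A00pm_012_s1) (P1 := 0) (W1 := 536870912) (P2 := 536870912) (W2 := 536870912) (P3 := 1040187392) (W3 := 5207648)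
    rfl (fun _ => rfl) t172_A00pm_012_s1

theorem s_A00pm_012_s1 {κ x : ℝ} (hκ : κ * h0 = ken x) (hx : ((1040187392 : ℕ) : ℝ) / S ≤ x)
    (hx' : x ≤ (((1040187392 : ℕ) : ℝ) + (5207648 : ℕ)) / S)
    (H : CutA (VFD κ) PP tK tL pcB (Cut.of [[⟨0, 0, 0, 16777216⟩, ⟨1, 1, 0, 16777216⟩, ⟨2, 1, 0, 16777216⟩]]) 0 1 2 0 0 (sgb true) (sgb false) x) :
    AltA (VFD κ) PP tK tL pcB [⟨3, 0, 0, 1449551462⟩] 0 1 2 0 0 (sgb true) (sgb false) x :=
  strip_altAD (m := 1449551462) true rfl hκ (SH.κ0 hκ (SH.hx1 hx).le (SH.hx2 hx').le) (SH.hx1 hx).le (SH.hx2 hx') (covB00).cov (covB01).cov hx hx' c_A00pm_012_s1 H ((okx hx hx').extA (T := tt) (sideB hx hx') hκ rfl rfl (.O 0 true) (.O 1 false) rfl)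

end Pool.Agent.Strip051.G.I9688_9736.Tab.St.C
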