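import Pool.Agent.Strip051.G.I9688_9736.StH
import Pool.Agent.Strip051.G.I9688_9736.StF

/-! # Unit strips 1 (generated) -/

set_option linter.all false
set_option maxRecDepth 100000

namespace Pool.Agent.Strip051.G.I9688_9736.Tab.St.C

open Pool.Agent.Strip051.PB Pool.Agent.Strip051.PB.T Pool.Agent.StripNear Pool.Agent.Strip051.LC
open Pool.Agent.Strip051.G.I9688_9736.Tab Pool.Agent.Strip051.G.I9688_9736.Tab.St

noncomputable def cut_B00pm_102_s1 : Cut := Cut.of [[⟨4, 0, 0, 1100585369⟩], [⟨0, 1, 0, 8388608⟩, ⟨1, 0, 0, 8388608⟩, ⟨2, 1, 0, 8388608⟩], [⟨0, 0, 1, 46137344⟩, ⟨1, 1, 2, 46137344⟩, ⟨2, 1, 0, 1048576⟩, ⟨0, 0, 0, 1054867456⟩, ⟨0, 1, 0, 38117834⟩, ⟨1, 0, 0, 38117834⟩, ⟨1, 1, 0, 1054867456⟩]]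

noncomputable def xt_B00pm_102_s1 : Ext := strExt dd false true false .u0 .u2 .u0m .npp 1 0 2 rfl rfl gf0 vv ndB0q1 ndB0q2

noncomputable def f_B00pm_102_s1 : ℕ → ℕ → ℕ → ℕ → Bool := onCell 536870912 536870912 0 536870912 1040187392 5207648
    (rowF 0 false true false .npp 1 0 2 (qsf 536870912 536870912 0 536870912 0) ndB0q1 ndB0q2 pcB0 cut_B00pm_102_s1 xt_B00pm_102_s1)

def k0_B00pm_102_s1 : ∃ t, chk3 f_B00pm_102_s1 t 2 1 1 = true :=
  ⟨(b (a (b (l 2) (l 6)) (b (a (a (b (l 528212751) (b (l 528560911) (l 528733967))) (b (l 3) (b (l 527481359) (a (l 527940623) (l 527436815))))) (a (b (l 3) (b (l 3) (l 526717455))) (l 3))) (a (b (a (l 6) (b (a (l 6) (l 527608591)) (l 6))) (l 6)) (b (a (b (l 526910735) (l 527072527)) (b (l 526063631) (l 526256399))) (a (l 6) (b (b (l 526387983) (l 6)) (l 6))))))) (l 6)), by decide +kernel⟩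

def k1_B00pm_102_s1 : ∃ t, chk3 f_B00pm_102_s1 t 3 2 1 = true :=
  ⟨(a (b (l 3) (a (b (a (a (l 525598223) (l 3)) (l 3)) (a (b (a (l 525904143) (l 525578767)) (a (l 6) (l 525767951))) (b (l 525115407) (l 525328143)))) (l 3))) (l 3)), by decide +kernel⟩

def k2_B00pm_102_s1 : ∃ t, chk3 f_B00pm_102_s1 t 6 3 1 = true :=
  ⟨(b (a (b (b (a (l 6) (a (l 525671951) (l 525419023))) (l 6)) (l 6)) (b (a (b (a (l 525178383) (l 524940815)) (a (b (l 525344783) (l 6)) (b (l 525114127) (l 525222927)))) (b (l 3) (a (b (l 524851727) (a (l 525035023) (l 524875023))) (b (l 3) (l 524045583))))) (a (l 6) (b (a (a (l 525177359) (l 524872975)) (b (l 523878927) (l 523689743))) (a (l 6) (b (l 6) (l 6))))))) (l 6)), by decide +kernel⟩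

def k3_B00pm_102_s1 : ∃ t, chk3 f_B00pm_102_s1 t 7 6 1 = true :=
  ⟨(b (l 3) (a (a (a (b (a (l 522631439) (l 521805583)) (b (a (l 522262287) (l 521392911)) (a (l 6) (l 521065487)))) (b (l 3) (b (a (l 520476943) (l 3)) (a (l 520110607) (l 519102991))))) (a (b (l 3) (a (b (l 3) (l 518040591)) (l 3))) (l 3))) (l 3))), by decide +kernel⟩

def k4_B00pm_102_s1 : ∃ t, chk3 f_B00pm_102_s1 t 14 7 1 = true :=
  ⟨(b (a (b (a (l 6) (b (a (l 6) (l 518631951)) (l 6))) (l 6)) (b (a (b (a (l 517514767) (l 516335375)) (a (b (l 517068047) (l 6)) (b (l 515837967) (l 515471631)))) (a (b (l 515091983) (a (l 514689039) (l 514014735))) (b (l 3) (a (l 513323791) (a (l 512801039) (l 3)))))) (a (l 6) (b (a (b (b (l 513806607) (l 513601295)) (l 6)) (b (a (b (l 512751375) (a (l 16720992) (l 512365839))) (a (b (l 512207119) (l 512007695)) (b (a (l 511828495) (l 511713295)) (l 511734287)))) (a (b (l 512459535) (l 16689960)) (a (l 511976719) (l 511708687))))) (a (l 6) (b (a (l 6) (a (l 6) (l 511577103))) (l 6)))))))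 (l 6)), by decide +kernel⟩

def k5_B00pm_102_s1 : ∃ t, chk3 f_B00pm_102_s1 t 15 14 1 = true :=
  ⟨(b (l 3) (a (a (b (a (b (b (l 3) (l 511121423)) (a (l 511344655) (l 510849807))) (a (b (l 3) (l 510338319)) (l 3))) (a (b (a (l 511180047) (l 510641167)) (a (l 6) (l 510285583))) (b (a (l 510087183) (a (l 509679375) (l 3))) (a (l 509686287) (a (l 509247247) (l 508947471)))))) (a (b (l 3) (a (b (l 3) (l 509826063)) (l 3))) (l 3))) (l 3))), by decide +kernel⟩

def k6_B00pm_102_s1 : ∃ t, chk3 f_B00pm_102_s1 t 60 30 1 = true :=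
  ⟨(a (l 6) (b (b (a (b (l 509281295) (l 6)) (b (a (l 508819215) (l 508505615)) (a (l 16641704) (l 508158735)))) (a (l 6) (b (a (l 6) (l 16668592)) (l 6)))) (l 6))), by decide +kernel⟩

def k7_B00pm_102_s1 : ∃ t, chk3 f_B00pm_102_s1 t 61 30 1 = true :=
  ⟨(b (a (b (a (a (b (l 508195343) (l 507842063)) (b (l 507890191) (b (l 507625231) (l 507436559)))) (a (b (b (a (l 507755023) (l 507608335)) (a (l 507583759) (a (l 507474191) (l 507400975)))) (a (b (l 507403535) (l 507214351)) (l 507161615))) (b (b (l 3) (l 507213327)) (l 506938639)))) (a (b (a (l 507448847) (l 507136015)) (a (l 6) (l 506647311))) (b (a (a (l 506913551) (l 506766351)) (b (l 506647823) (l 506443535))) (a (b (l 16712792) (l 16650272)) (b (l 506192399) (l 505880591)))))) (b (a (a (b (l 3) (l 506659855)) (l 3)) (l 3)) (a (a (b (b (l 506373647) (b (l 506225935) (l 506120463))) (b (a (l 505987087) (l 505847055)) (a (l 16696368) (l 505511695)))) (b (b (a (l 506187279) (l 3)) (a (b (l 506043407) (b (l 505968143) (l 505902863)))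 (b (a (l 505955343) (l 3)) (a (a (l 505865231) (l 505819407)) (l 505744399))))) (a (b (a (l 505740047) (b (l 505749007) (l 16742256))) (l 505352463)) (a (b (l 505575439) (l 505222927)) (l 505297167))))) (b (a (b (l 3) (b (l 3) (l 505461263))) (l 3)) (a (l 505035791) (l 504676623)))))) (b (b (a (a (l 6) (a (c (l 16664952) (l 16613624)) (b (l 505543951) (l 16633776)))) (a (a (a (b (l 16675408) (l 16653968)) (l 504994831)) (a (l 504837391) (l 504668175))) (a (l 504407311) (l 504125967)))) (a (l 6) (a (a (b (l 16680864) (l 16616656)) (a (l 504197391) (l 504058895))) (a (l 503859727) (l 503674639))))) (a (l 6) (a (a (l 6) (b (b (l 16664320) (l 6)) (l 6))) (b (a (l 503418127) (l 503353359)) (a (l 6) (l 504274191))))))), by decide +kernel⟩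

def k8_B00pm_102_s1 : ∃ t, chk3 f_B00pm_102_s1 t 30 31 1 = true :=
  ⟨(l 6), by decide +kernel⟩

def k9_B00pm_102_s1 : ∃ t, chk3 f_B00pm_102_s1 t 31 30 1 = true :=
  ⟨(b (l 3) (a (a (a (b (a (b (l 503919631) (l 503582991)) (b (l 3) (l 503600911))) (a (b (l 503404559) (a (l 503370255) (l 503527439))) (b (a (l 503544847) (l 503678991)) (a (l 503730191) (l 503982863))))) (b (a (b (l 3) (a (l 503714063) (l 3))) (l 3)) (a (b (a (l 503856143) (l 504080911)) (a (l 504290319) (l 504657935))) (b (a (l 504357391) (l 504691215)) (a (l 505092367) (l 505600783)))))) (b (l 3) (b (l 3) (a (a (a (l 506190863) (l 506871823)) (a (l 507654415) (l 3))) (l 3))))) (l 3))), by decide +kernel⟩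

def k10_B00pm_102_s1 : ∃ t, chk3 f_B00pm_102_s1 t 124 62 1 = true :=
  ⟨(b (a (b (a (b (l 503624463) (l 6)) (a (l 504228111) (l 504632335))) (a (l 6) (b (b (l 16625568) (l 6)) (l 6)))) (b (a (a (l 505107215) (l 505659663)) (a (l 506298639) (l 507302159))) (a (b (a (l 16646712) (l 16705512)) (a (l 6) (b (l 16651968) (l 6)))) (a (b (l 507603471) (l 16707576)) (b (l 508554511) (l 509833231)))))) (b (a (l 6) (a (l 6) (b (a (b (a (l 6) (l 16660752)) (l 6)) (b (l 16673888) (a (b (l 16665776) (l 6)) (l 16673560)))) (l 6)))) (l 6))), by decide +kernel⟩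

def k11_B00pm_102_s1 : ∃ t, chk3 f_B00pm_102_s1 t 125 124 1 = true :=
  ⟨(a (a (b (a (c (l 510792207) (l 504958735)) (c (l 511896847) (l 505777679))) (a (b (l 509637647) (l 512451087)) (b (l 510869007) (b (l 16759232) (l 16753776))))) (b (a (c (l 513145871) (l 506720015)) (c (l 514556431) (l 507801615))) (b (a (c (l 515803151) (l 508729615)) (c (l 517578511) (l 510125839))) (a (c (l 517977871) (l 510415887)) (a (l 515574799) (l 516564751)))))) (a (b (b (l 3) (a (l 513526543) (l 3))) (a (b (b (l 515084815) (a (l 515754767) (l 516750607))) (a (l 517618703) (l 520351503))) (b (b (l 517044495) (a (l 517810959) (b (l 518589455) (l 519299087)))) (a (b (l 519197199) (l 520704783)) (c (l 525735951) (l 516680463)))))) (b (l 3) (a (b (a (b (l 3) (c (l 524552719) (l 515733263))) (l 3)) (a (l 522565135) (l 524010767))) (b (l 3) (a (l 525552143) (l 527196687))))))), by decide +kernel⟩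

def k12_B00pm_102_s1 : ∃ t, chk3 f_B00pm_102_s1 t 125 250 1 = true :=
  ⟨(a (a (b (a (c (l 16702104) (l 16675256)) (c (l 16738600) (l 16692872))) (a (b (b (a (c (l 16695440) (l 16663920)) (l 16688552)) (a (l 6) (a (b (l 16685336) (a (l 6) (l 16685872))) (l 16689496)))) (a (l 6) (b (b (a (l 6) (b (l 16688872) (a (l 6) (l 16689784)))) (l 6)) (l 6)))) (b (l 16700928) (b (a (a (b (l 16693248) (b (l 16692976) (a (l 6) (l 16693952)))) (l 16697528)) (l 16704120)) (a (b (a (a (l 6) (b (c (l 16711120) (l 16676472)) (l 6))) (a (b (l 16738024) (c (l 16713416) (l 16678512))) (c (l 16715488) (l 16681072)))) (a (l 6) (c (c (l 16723568) (l 16705816)) (l 16679176)))) (a (b (l 16701648) (c (b (l 16739928) (a (l 16718096) (l 16720256))) (b (l 16684168) (a (l 16682672) (l 16685088))))) (l 16706048))))))) (a (b (b (l 16743568) (l 16761408)) (b (l 16759440) (l 16758776))) (b (a (l 518102287) (l 519532047)) (b (c (l 16745472) (l 16720272)) (l 16753936))))) (a (a (b (a (b (l 16746512) (l 16744304)) (l 521817615))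 (a (l 525259279) (l 526003471))) (a (b (l 523221263) (l 527118607)) (b (l 524717583) (l 528880655)))) (a (a (b (l 526312975) (l 530761231)) (b (l 528014607) (l 532769295))) (a (b (l 529830415) (l 534914063)) (b (l 531769103) (l 537206287)))))), by decide +kernel⟩

def k13_B00pm_102_s1 : ∃ t, chk3 f_B00pm_102_s1 t 500 502 1 = true :=
  ⟨(a (l 6) (b (a (l 6) (b (b (a (c (l 16719480) (l 16683432)) (b (a (c (l 16743624) (l 16687224)) (l 16707200)) (a (l 16704944) (c (b (l 16725016) (l 16725168)) (l 16689392))))) (c (l 16722184) (l 16685344))) (c (l 16723096) (l 16684680)))) (l 6))), by decide +kernel⟩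

def k14_B00pm_102_s1 : ∃ t, chk3 f_B00pm_102_s1 t 501 502 1 = true :=
  ⟨(a (b (a (b (b (l 16712776) (a (b (a (c (b (l 16727472) (l 16727648)) (l 16691592)) (l 16711832)) (a (l 16709648) (c (b (l 16729976) (l 16730168)) (l 16693832)))) (c (l 16733016) (l 16697440)))) (a (c (l 16729896) (l 16692200)) (b (b (a (b (c (l 16732512) (l 16696136)) (l 16756344)) (l 16758560)) (a (l 16714496) (b (a (l 16716200) (l 16717336)) (l 16716856)))) (l 16715904)))) (b (l 16721600) (a (c (b (l 16759064) (b (a (l 16737832) (l 16739944)) (a (l 16738312) (l 16740496)))) (b (l 16701984) (b (a (l 16700760) (l 16703144)) (l 16701920)))) (a (b (l 16723344) (b (l 16723768) (c (l 16742608) (l 16705528)))) (l 16725800))))) (a (c (b (l 16733984) (l 6)) (l 16694312)) (a (c (l 16741984) (l 16701952)) (b (b (a (c (l 16743496) (l 16705568)) (b (b (l 16726552) (a (l 16726176) (l 16727296))) (l 16768936))) (l 16726344)) (l 16759008))))) (b (l 16755632) (b (a (b (a (a (b (l 16728856) (b (l 16771096) (a (l 16728792) (l 16729912))))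 (l 16731240)) (l 16734488)) (a (b (a (l 16729632) (b (a (l 16731240) (l 16732344)) (a (l 16731448) (l 16774520)))) (l 16731176)) (b (l 16735192) (a (b (a (l 16775864) (l 16735024)) (a (l 16734144) (l 16777224))) (l 16736792))))) (l 16741336)) (a (a (c (l 16752376) (l 16712216)) (b (a (l 16735296) (b (b (a (l 16736648) (l 16737752)) (l 16758432)) (l 16737840))) (l 16737496))) (a (a (b (b (l 16760496) (b (a (l 16739416) (l 16740520)) (l 16740248))) (l 16740960)) (b (c (l 16761120) (l 16722848)) (b (b (a (l 16742224) (l 16743336)) (l 16743088)) (l 16743544)))) (b (l 16745208) (c (b (l 16765560) (a (l 16765552) (l 16767592))) (b (l 16747808) (a (l 16726056) (l 16728400)))))))))), by decide +kernel⟩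

def k15_B00pm_102_s1 : ∃ t, chk3 f_B00pm_102_s1 t 250 503 1 = true :=
  ⟨(a (l 6) (a (a (l 6) (b (c (l 16750512) (l 16705928)) (l 6))) (a (b (c (b (l 16758064) (l 16762096)) (b (l 16715736) (l 16717240))) (l 6)) (b (b (a (c (l 16764784) (l 16723280)) (a (l 16747520) (b (c (l 16769152) (l 16729008)) (l 16750576)))) (c (l 16771392) (l 16727600))) (c (l 16768720) (b (l 16729960) (l 6))))))), by decide +kernel⟩

def k16_B00pm_102_s1 : ∃ t, chk3 f_B00pm_102_s1 t 502 502 1 = true :=
  ⟨(a (b (l 16771152) (l 16775712)) (a (b (l 16760584) (l 16765952)) (b (l 16766824) (l 16772720)))), by decide +kernel⟩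

def k17_B00pm_102_s1 : ∃ t, chk3 f_B00pm_102_s1 t 502 1006 1 = true :=
  ⟨(a (b (a (b (a (b (a (b (l 16750728) (a (l 16750576) (l 16751664))) (l 16753064)) (a (c (l 16771768) (l 16731616)) (b (l 16753680) (a (l 16753552) (l 16754640))))) (l 16756640)) (a (c (l 16774472) (l 16733512)) (b (a (b (l 16767168) (a (l 16756584) (l 16757672))) (l 16759040)) (a (l 16757776) (b (a (l 16759208) (l 16760272)) (a (l 16759656) (l 16760752))))))) (c (l 16782208) (l 16744376))) (a (c (l 16780232) (l 16737600)) (b (a (b (a (b (a (l 16762312) (l 16763376)) (a (l 16762792) (l 16763888))) (l 16765208)) (a (l 16764072) (b (a (l 16765472) (l 16766536)) (l 16766528)))) (c (l 16782240) (l 16748680))) (a (l 16766728) (b (a (b (a (l 16768688) (l 16769744)) (l 16769768)) (a (l 16771080) (l 16772120))) (a (l 16770592) (b (a (l 16771952) (l 16773016)) (l 16773064)))))))) (a (b (l 16771528) (a (a (a (b (l 16771392) (c (l 16771704) (l 16763584))) (l 16773560)) (l 16775064)) (l 16778008))) (l 16781120))), by decide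 +kernel⟩

def k18_B00pm_102_s1 : ∃ t, chk3 f_B00pm_102_s1 t 502 1007 1 = true :=
  ⟨(a (c (a (b (l 16780712) (l 16779792)) (b (l 16781392) (l 16780488))) (a (b (l 16740344) (l 16743664)) (b (l 16750320) (l 16754056)))) (b (a (b (a (c (b (a (l 16782144) (l 16782136)) (l 16782000)) (b (a (l 16754992) (b (l 16757024) (l 16757496))) (l 16757040))) (b (l 16781248) (a (b (l 16781264) (a (l 16781432) (l 16782192))) (l 16782120)))) (a (l 16780384) (b (a (l 16771584) (b (l 16771640) (a (l 16782120) (l 16782120)))) (l 16771408)))) (a (b (l 16781936) (b (l 16782008) (a (b (a (l 16782088) (l 16782064)) (a (l 16782024) (l 16782056))) (l 16781992)))) (l 16781776))) (a (c (l 16781112) (l 16763984)) (b (a (b (a (l 16781872) (b (a (l 16782024) (l 16782000)) (a (l 16781928) (l 16781984)))) (l 16781712)) (b (l 16781864) (a (b (a (l 16781952) (l 16781928)) (l 16771400)) (l 16771360)))) (a (l 16781368) (a (l 16781584) (b (b (a (l 16781872) (l 16781856)) (l 16781800)) (l 16781616)))))))), by decide +kernel⟩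

def k19_B00pm_102_s1 : ∃ t, chk3 f_B00pm_102_s1 t 503 251 1 = true :=
  ⟨(b (a (a (b (l 16772424) (l 16778840)) (b (l 16777304) (l 16759448))) (a (b (l 538314767) (l 16769528)) (b (l 538279183) (l 538226959)))) (a (b (c (l 16759928) (l 16773768)) (a (b (l 16781456) (a (b (l 16781696) (c (b (l 16781624) (a (l 16776416) (l 16781616))) (b (l 16780632) (a (b (l 16780632) (l 16781328)) (l 16781800))))) (l 16781520))) (l 16781120))) (a (b (l 16769880) (l 16780704)) (b (l 16769480) (l 16780296))))), by decide +kernel⟩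

def k20_B00pm_102_s1 : ∃ t, chk3 f_B00pm_102_s1 t 63 62 1 = true :=
  ⟨(b (l 3) (a (a (a (b (a (a (b (l 533839887) (l 538061839)) (b (l 536052751) (l 538021903))) (a (b (l 538111247) (l 537977103)) (b (l 3) (l 537927695)))) (a (b (a (b (l 538238735) (l 538184207)) (b (l 538193679) (l 538137103))) (a (b (l 16774336) (l 16769408)) (a (l 538080015) (l 538055439)))) (b (a (b (l 538144015) (l 538085903)) (b (a (l 538104079) (l 538075919)) (l 537762319))) (a (a (l 538029839) (l 538002959)) (a (l 537707023) (l 537678607)))))) (a (b (a (b (l 3) (a (l 538156303) (l 538128143))) (l 3)) (a (b (b (a (l 538048015) (l 538017295)) (a (l 537989135) (l 537958415))) (a (l 537915407) (l 537881871))) (b (a (b (b (l 538002959) (l 537964559)) (l 537931023)) (b (c (l 537924879) (l 537975055)) (l 537892111))) (a (l 537845775) (l 537805839))))) (b (l 3) (a (b (b (a (l 537909519) (l 3)) (l 537828367)) (a (l 537763855) (l 537721871))) (b (b (l 3) (l 537475599)) (a (l 537679887) (l 537637903))))))) (b (l 3) (b (l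 3) (a (a (a (a (l 537596175) (l 537554191)) (a (l 537512463) (l 537470735))) (a (a (l 537428751) (l 3)) (l 3))) (l 3))))) (l 3))), by decide +kernel⟩

def k21_B00pm_102_s1 : ∃ t, chk3 f_B00pm_102_s1 t 124 63 1 = true :=
  ⟨(l 6), by decide +kernel⟩

def k22_B00pm_102_s1 : ∃ t, chk3 f_B00pm_102_s1 t 250 63 1 = true :=
  ⟨(l 6), by decide +kernel⟩

def k23_B00pm_102_s1 : ∃ t, chk3 f_B00pm_102_s1 t 502 504 1 = true :=
  ⟨(a (b (a (a (l 6) (b (l 16775792) (l 6))) (c (b (l 16779624) (l 16778816)) (b (l 16758448) (l 16763536)))) (l 6)) (b (c (a (b (l 16780264) (l 16779464)) (b (l 16780832) (l 16780048))) (a (b (l 16768832) (l 16774424)) (b (l 16778704) (l 16779936)))) (c (a (b (l 16778712) (l 16778016)) (b (l 16779312) (l 16778624))) (a (b (l 16778352) (l 16777528)) (b (l 16779072) (l 16778256)))))), by decide +kernel⟩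

def k24_B00pm_102_s1 : ∃ t, chk3 f_B00pm_102_s1 t 1006 504 1 = true :=
  ⟨(b (b (a (b (b (a (a (l 16781528) (b (a (l 16781688) (l 16781720)) (l 16781608))) (a (c (l 16781544) (l 16771240)) (l 16781576))) (a (l 16781376) (a (c (l 16781504) (l 16781672)) (b (l 16781584) (a (l 16781608) (l 16781576)))))) (a (l 16781048) (a (l 16781248) (c (l 16781328) (l 16781472))))) (a (b (l 16781432) (b (a (b (l 16781512) (a (l 16781520) (l 16781504))) (l 16781440)) (a (l 16781400) (b (l 16776200) (a (l 16781432) (l 16781432)))))) (l 16781256))) (a (c (l 16780552) (l 16780560)) (a (c (l 16780904) (l 16781000)) (b (b (a (b (a (l 16781400) (l 16781376)) (a (l 16781328) (l 16781360))) (l 16781296)) (a (l 16781208) (b (a (l 16781328) (l 16781288)) (a (l 16781240) (l 16781288))))) (l 16780968))))) (c (a (b (l 16779832) (l 16779168)) (b (l 16780288) (l 16779632))) (a (b (l 16779712) (l 16778920)) (b (l 16780272) (l 16779496))))), by decide +kernel⟩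

def k25_B00pm_102_s1 : ∃ t, chk3 f_B00pm_102_s1 t 1007 504 1 = true :=
  ⟨(b (a (b (l 16780944) (b (c (l 16780944) (l 16770624)) (a (b (a (b (a (l 16781248) (l 16781216)) (l 16781184)) (a (l 16781160) (l 16781136))) (a (l 16781024) (b (a (l 16781160) (l 16781144)) (l 16781088)))) (a (a (c (l 16780976) (l 16781144)) (l 16781048)) (l 16780968))))) (l 16780600)) (b (a (a (c (l 16780576) (l 16780640)) (b (b (a (b (a (l 16781064) (l 16781064)) (l 16780992)) (c (l 16780896) (l 16781064))) (a (l 16780848) (a (l 16780920) (b (l 16780992) (l 16780912))))) (l 16780624))) (b (a (a (b (l 16780912) (b (l 16780928) (a (l 16780952) (l 16780912)))) (l 16780824)) (l 16780664)) (b (a (a (c (l 16780792) (l 16780936)) (b (l 16780848) (a (l 16780864) (l 16780832)))) (l 16780712)) (a (c (l 16780672) (l 16780792)) (a (b (l 16775520) (a (l 16780776) (l 16780760))) (l 16780688)))))) (a (c (l 16780024) (l 16779992)) (a (c (l 16780264) (l 16780312)) (b (b (a (l 16780672) (b (a (l 16780720) (l 16780688)) (a (l 16780680)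 (l 16780680)))) (l 16780528)) (l 16780288)))))), by decide +kernel⟩

def k26_B00pm_102_s1 : ∃ t, chk3 f_B00pm_102_s1 t 251 505 1 = true :=
  ⟨(a (b (b (a (l 6) (a (l 6) (c (l 16778000) (l 16777504)))) (l 6)) (l 6)) (a (b (c (a (b (l 16778552) (l 16778000)) (b (l 16779040) (l 16778496))) (a (b (l 16778176) (l 16777504)) (b (l 16778776) (l 16778120)))) (b (a (c (l 16777496) (l 16776888)) (c (l 16778016) (l 16777520))) (a (l 6) (c (l 16777592) (l 16776984))))) (b (c (a (b (l 16779440) (l 16778920)) (b (l 16779768) (l 16779264))) (a (b (l 16779288) (l 16778648)) (b (l 16779720) (l 16779104)))) (c (a (b (l 16778456) (l 16778056)) (b (l 16778816) (l 16778440))) (a (b (l 16778072) (l 16772320)) (b (l 16773304) (c (l 16778152) (l 16777952)))))))), by decide +kernel⟩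

def k27_B00pm_102_s1 : ∃ t, chk3 f_B00pm_102_s1 t 251 253 1 = true :=
  ⟨(a (l 6) (a (l 6) (b (a (b (c (b (l 16777720) (l 16777448)) (b (c (l 16777264) (l 16776960)) (c (l 16776920) (l 16776560)))) (l 6)) (b (c (b (l 16778120) (l 16775256)) (b (c (l 16777752) (l 16777504)) (c (l 16777432) (l 16777136)))) (a (l 6) (b (c (l 16777800) (l 16777136)) (l 6))))) (l 6)))), by decide +kernel⟩

def k28_B00pm_102_s1 : ∃ t, chk3 f_B00pm_102_s1 t 251 127 1 = true :=
  ⟨(l 6), by decide +kernel⟩

def k29_B00pm_102_s1 : ∃ t, chk3 f_B00pm_102_s1 t 504 504 1 = true :=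
  ⟨(a (b (c (l 16774680) (l 16774808)) (a (b (l 16780384) (b (a (b (l 16780568) (a (b (a (l 16780640) (l 16780608)) (a (l 16780584) (l 16780600))) (l 16780528))) (l 16780368)) (a (b (a (l 16780480) (b (a (l 16780560) (l 16780520)) (a (l 16780488) (l 16780520)))) (l 16780352)) (a (b (l 16780440) (b (a (l 16780480) (l 16780440)) (l 16780424))) (c (l 16780272) (l 16780408)))))) (l 16780032))) (a (b (l 537947151) (l 16779640)) (a (l 537874959) (l 537842191)))), by decide +kernel⟩

def k30_B00pm_102_s1 : ∃ t, chk3 f_B00pm_102_s1 t 1008 505 1 = true :=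
  ⟨(b (b (a (b (a (l 16780128) (b (a (l 16780296) (b (a (l 16780384) (l 16780360)) (l 16780328))) (l 16780176))) (c (l 16779888) (l 16779912))) (b (a (b (a (c (l 16780208) (l 16780352)) (l 16780208)) (a (b (a (l 16780288) (l 16780288)) (l 16780224)) (b (l 16780224) (a (l 16780248) (l 16780208))))) (l 16780064)) (a (b (a (l 16780120) (b (a (l 16780192) (l 16780208)) (l 16780128))) (l 16780008)) (b (a (b (l 16780136) (a (l 16780160) (l 16780120))) (l 16780056)) (a (c (l 16780032) (l 16780152)) (b (l 16780048) (a (l 16780080) (l 16780040)))))))) (a (c (l 16779528) (l 16779464)) (a (b (l 16779808) (l 16779560)) (b (c (l 16779880) (l 16779968)) (l 16779656))))) (c (a (b (l 16779104) (l 16778744)) (b (l 16779304) (l 16778960))) (a (b (c (l 16778976) (l 16778888)) (c (l 16778528) (l 16778392))) (b (c (l 16779248) (l 16779216)) (c (l 16778832) (l 16778736)))))), by decide +kernel⟩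

def k31_B00pm_102_s1 : ∃ t, chk3 f_B00pm_102_s1 t 1009 505 1 = true :=
  ⟨(b (a (b (l 16779792) (b (a (b (a (b (l 16777344) (a (l 16779984) (l 16779960))) (l 16779896)) (a (l 16779904) (b (a (l 16779920) (l 16779888)) (a (l 16779888) (l 16779880))))) (l 16779752)) (a (l 16779728) (b (a (b (a (l 16779840) (l 16779800)) (a (l 16779792) (l 16779800))) (l 16779720)) (a (l 16779712) (b (a (l 16779760) (l 16779712)) (c (l 16779664) (l 16779776)))))))) (a (a (b (l 16779544) (c (l 16779536) (l 16779656))) (l 16779496)) (l 16779352))) (b (a (c (l 16779424) (c (l 16779440) (l 16779448))) (b (a (b (a (b (a (l 16779672) (l 16779632)) (l 16779632)) (c (l 16779488) (l 16779608))) (a (l 16779536) (b (a (l 16779584) (l 16779552)) (l 16779528)))) (a (b (l 16779480) (c (l 16779408) (l 16779528))) (l 16779392))) (a (l 16779400) (b (a (b (a (l 16779488) (l 16779472)) (l 16779440)) (b (l 16779408) (a (l 16779432) (l 16779392)))) (a (l 16779368) (b (a (l 16779392) (l 16779392)) (l 16779352))))))) (a (c (l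 16779096) (c (l 16779040) (l 16778992))) (c (l 16779152) (c (l 16779152) (l 16779160)))))), by decide +kernel⟩

def k32_B00pm_102_s1 : ∃ t, chk3 f_B00pm_102_s1 t 505 252 1 = true :=
  ⟨(b (a (a (a (l 537807887) (l 537771791)) (a (l 537733647) (l 537693199))) (a (a (l 537651471) (l 537609487)) (a (l 537567759) (l 537526287)))) (a (a (b (c (l 16779024) (l 16779120)) (b (a (b (l 16779256) (a (b (l 16779320) (b (l 16779320) (c (l 16779264) (l 16779384)))) (l 16779240))) (l 16779080)) (b (a (b (a (c (l 16779256) (l 16779352)) (a (b (l 16779264) (l 16779272)) (l 16779216))) (c (l 16779176) (l 16779256))) (a (b (l 16779168) (c (b (l 16779096) (l 16779112)) (b (l 16779208) (l 16779224)))) (l 16779080))) (a (l 16779088) (b (a (l 16779120) (c (b (l 16779024) (l 16779040)) (b (l 16779128) (l 16779136)))) (l 16779040)))))) (a (b (l 16778808) (b (l 16778904) (b (l 16778944) (b (l 16778952) (a (b (a (l 16779032) (l 16778984)) (a (l 16779000) (l 16778992))) (l 16778912)))))) (l 537580815))) (a (a (l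 537539343) (l 537497871)) (a (l 537456399) (l 537414927))))), by decide +kernel⟩

def k33_B00pm_102_s1 : ∃ t, chk3 f_B00pm_102_s1 t 504 506 1 = true :=
  ⟨(b (a (c (a (b (l 16778448) (c (l 16778344) (l 16778104))) (b (l 16778688) (c (l 16778584) (l 16778392)))) (a (b (c (l 16778160) (l 16777968)) (c (l 16777856) (l 16777616))) (b (c (l 16778480) (l 16778336)) (c (l 16778208) (l 16778016))))) (c (a (b (l 16778848) (c (l 16778744) (l 16778600))) (b (l 16778920) (c (l 16778816) (l 16778720)))) (a (b (c (l 16778712) (l 16778616)) (c (l 16778464) (l 16778320))) (b (c (l 16778848) (l 16778808)) (c (l 16778624) (l 16778536)))))) (a (c (a (b (c (l 16778216) (l 16777928)) (c (l 16778160) (l 16777824))) (b (c (l 16778480) (l 16778248)) (c (l 16778448) (l 16778168)))) (a (b (c (l 16777632) (l 16777344)) (c (l 16777488) (l 16777152))) (b (c (l 16778008) (l 16777768)) (c (l 16777888) (l 16777608))))) (c (a (b (c (l 16778664) (l 16778480)) (c (l 16778664) (l 16778432))) (b (c (l 16778760) (l 16778624))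 (c (l 16778792) (l 16778608)))) (a (b (c (l 16778288) (l 16778104)) (c (l 16778200) (l 16777968))) (b (c (l 16778480) (l 16778344)) (c (l 16778424) (l 16778240))))))), by decide +kernel⟩

def k34_B00pm_102_s1 : ∃ t, chk3 f_B00pm_102_s1 t 505 1012 1 = true :=
  ⟨(a (b (a (c (l 16778904) (c (l 16778896) (l 16778896))) (b (b (a (a (l 16778944) (b (c (l 16778872) (l 16778968)) (c (l 16778872) (l 16778968)))) (c (l 16778728) (l 16778824))) (a (l 16778880) (a (b (a (l 16778864) (l 16778816)) (l 16778832)) (c (l 16778688) (l 16778792))))) (a (l 16778808) (a (l 16778768) (b (b (a (l 16778784) (l 16778744)) (l 16778744)) (l 16778712)))))) (a (c (c (l 16778800) (l 16778752)) (c (l 16778696) (l 16778648))) (c (c (l 16778688) (l 16778680)) (c (l 16778672) (l 16778664))))) (a (a (b (b (l 16778632) (b (a (b (l 16778688) (a (l 16778704) (l 16778664))) (l 16778600)) (a (a (l 16778680) (b (l 16778672) (l 16778648))) (b (l 16778600) (a (l 16778632) (l 16778584)))))) (b (a (l 16778624) (b (c (l 16778568)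 (l 16778656)) (l 16778568))) (l 16778552))) (b (l 16778480) (b (b (a (b (l 16778520) (a (l 16778560) (l 16778504))) (l 16778456)) (a (c (l 16778496) (l 16778576)) (b (a (l 16778464) (l 16778440)) (a (l 16778480) (l 16778432))))) (c (l 16778456) (l 16778512))))) (b (l 16778248) (b (l 16778264) (a (b (a (b (a (l 16778392) (l 16778360)) (a (l 16778400) (l 16778360))) (l 16778304)) (a (l 16778376) (b (a (l 16778328) (l 16778288)) (a (l 16778328) (l 16778296))))) (c (l 16778144) (l 16778224))))))), by decide +kernel⟩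

def k35_B00pm_102_s1 : ∃ t, chk3 f_B00pm_102_s1 t 505 1013 1 = true :=
  ⟨(a (a (b (c (c (l 16778768) (l 16778680)) (c (l 16778584) (l 16778488))) (c (c (l 16778824) (l 16778688)) (c (l 16778552) (l 16778416)))) (b (c (a (l 16778688) (l 16778632)) (a (l 16778560) (l 16778544))) (c (a (l 16778744) (l 16778696)) (a (l 16778536) (l 16778536))))) (b (a (c (a (l 16778552) (l 16778448)) (a (l 16778504) (l 16778440))) (b (a (l 16778336) (b (a (b (a (l 16778264) (l 16778208)) (a (l 16778256) (l 16778232))) (a (l 16778168) (l 16778152))) (a (l 16778240) (b (a (l 16778200) (l 16778144)) (l 16778184))))) (c (l 16778280) (l 16778304)))) (a (c (a (l 16778632) (l 16778544)) (a (l 16778512) (l 16778464))) (c (a (l 16778440) (l 16778304)) (a (l 16778384) (l 16778288)))))), by decide +kernel⟩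

def k36_B00pm_102_s1 : ∃ t, chk3 f_B00pm_102_s1 t 252 1014 1 = true :=
  ⟨(a (a (a (l 6) (a (b (c (l 16778264) (l 16777584)) (l 6)) (b (c (l 16778416) (l 16777792)) (c (l 16778536) (b (l 16777816) (l 6)))))) (b (a (a (c (l 16778552) (l 16777976)) (c (l 16778664) (l 16778144))) (c (c (l 16778896) (l 16778680)) (c (l 16778456) (l 16778232)))) (a (c (b (l 16778704) (l 16778800)) (c (l 16778288) (b (l 16777952) (l 16778000)))) (c (c (l 16779096) (l 16778832)) (c (l 16778576) (a (l 16778240) (l 16778384))))))) (a (a (b (c (c (l 16778968) (l 16778792)) (c (l 16778616) (l 16778440))) (c (c (l 16779192) (l 16778984)) (a (l 16778616) (l 16778704)))) (b (c (a (l 16778880) (l 16778856)) (a (l 16778600) (l 16778616))) (c (a (l 16779120) (l 16779112)) (a (l 16778768) (l 16778800))))) (a (b (c (a (l 16778808) (l 16778736)) (a (l 16778608) (l 16778576))) (c (a (l 16779080) (l 16779024)) (a (l 16778808) (l 16778792)))) (b (c (a (l 16778640) (l 16778528)) (a (l 16778520) (l 16778440))) (c (a (l 16778952)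 (l 16778848)) (a (l 16778760) (l 16778696))))))), by decide +kernel⟩

def k37_B00pm_102_s1 : ∃ t, chk3 f_B00pm_102_s1 t 252 1015 1 = true :=
  ⟨(a (a (l 6) (a (b (c (c (l 16779152) (a (l 16778728) (l 16778888))) (b (c (l 16778408) (l 16778072)) (a (l 6) (l 16778440)))) (l 6)) (b (c (b (l 16779160) (c (l 16779464) (l 16779160))) (b (a (l 16778504) (l 16778656)) (a (l 16778624) (l 16778784)))) (c (b (c (l 16779656) (l 16779336)) (a (l 16779632) (l 16779760))) (b (a (l 16778768) (l 16778936)) (a (l 16778936) (l 16779120))))))) (a (a (b (c (a (l 16779360) (l 16779416)) (a (c (l 16778976) (l 16778720)) (b (l 16778880) (l 16779032)))) (c (b (a (l 16779648) (l 16779720)) (a (l 16779872) (l 16779952))) (b (a (l 16779088) (l 16779208)) (a (l 16779280) (l 16779408))))) (b (c (a (l 16779456) (l 16779464)) (a (b (l 16778952) (l 16779112)) (l 16779088))) (c (b (l 16779784) (l 16780032)) (a (b (l 16779304) (l 16779520)) (b (l 16779376) (l 16779600)))))) (a (b (c (a (l 16779448) (l 16779416)) (a (l 16779120)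 (l 16779120))) (c (a (l 16779928) (l 16779912)) (a (b (l 16779416) (l 16779656)) (l 16779568)))) (b (c (a (l 16779360) (l 16779272)) (a (l 16779104) (l 16779064))) (c (b (l 16779704) (l 16779992)) (b (l 16779432) (l 16779696))))))), by decide +kernel⟩

def k38_B00pm_102_s1 : ∃ t, chk3 f_B00pm_102_s1 t 253 252 1 = true :=
  ⟨(a (a (a (b (a (l 537484559) (l 537442831)) (a (l 537373455) (l 537331983))) (b (a (l 537401359) (l 537359887)) (a (l 537290767) (l 537249295)))) (a (a (b (l 537318159) (l 537208079)) (b (l 537276687) (l 536898319))) (a (b (l 537235215) (b (l 537155599) (l 537101071))) (b (l 537193999) (b (l 537114383) (l 537060111)))))) (b (a (a (a (l 537152527) (l 537111055)) (a (l 536801295) (l 3))) (l 3)) (a (a (a (b (l 537073167) (l 537019151)) (b (l 537032207) (l 536978191))) (a (a (l 536972303) (l 536951567)) (a (l 536931087) (l 536910863)))) (a (a (a (l 536890383) (l 536869903)) (a (l 536849423) (l 536828943))) (a (a (l 536808463) (l 536788239)) (a (l 536767759) (l 536747535))))))),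 by decide +kernel⟩

def k39_B00pm_102_s1 : ∃ t, chk3 f_B00pm_102_s1 t 253 506 1 = true :=
  ⟨(a (a (a (b (c (l 16777952) (l 16778024)) (b (b (a (a (b (l 16778096) (c (l 16778040) (l 16778120))) (l 16778032)) (l 16777936)) (a (b (a (b (a (l 16778128) (l 16778072)) (l 16778112)) (a (b (l 16778048) (l 16778040)) (l 16778016))) (a (l 16778120) (b (a (l 16778064) (l 16778016)) (l 16778048)))) (a (b (l 16777968) (b (l 16777960) (a (l 16777984) (l 16777944)))) (l 16777904)))) (b (a (c (l 16778104) (l 16778136)) (b (a (a (l 16778000) (b (l 16777952) (l 16777960))) (b (l 16777888) (a (l 16777928) (l 16777872)))) (a (l 16778016) (c (l 16777912) (l 16777976))))) (c (l 16778112) (l 16778128))))) (b (b (l 16777752) (l 16777760)) (b (l 16777752) (b (a (a (b (l 16777832) (b (a (l 16777840) (l 16777816)) (a (l 16777872) (l 16777808)))) (l 16777776)) (l 16777688)) (a (a (c (l 16777880) (l 16777936)) (b (a (b (c (l 16777744) (l 16777816)) (l 16777808)) (c (l 16777704) (l 16777776))) (l 16777824))) (b (l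 16777680) (a (b (a (c (l 16777688) (l 16777760)) (l 16777696)) (c (l 16777704) (l 16777768))) (l 16777648)))))))) (a (a (b (l 537128719) (l 537074191)) (b (l 537087759) (l 537033487))) (a (b (l 537046799) (l 536992783)) (a (l 536986639) (l 536966415))))) (a (a (a (a (l 536945935) (l 536925455)) (a (l 536905231) (l 536884751))) (a (a (l 536864527) (l 536844047)) (a (l 536823823) (l 536803343)))) (a (a (a (l 536783119) (l 536628495)) (a (b (l 536772623) (l 536719631)) (b (l 536752399) (l 536699407)))) (a (a (b (l 536732175) (l 536679183)) (b (l 536711951) (l 536658959))) (a (l 536392719) (b (l 536671503) (l 536618767))))))), by decide +kernel⟩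

def k40_B00pm_102_s1 : ∃ t, chk3 f_B00pm_102_s1 t 1012 507 1 = true :=
  ⟨(b (b (a (c (a (l 16778384) (l 16778216)) (a (l 16778328) (l 16778192))) (b (a (c (l 16777944) (l 16777968)) (b (a (l 16777768) (a (c (l 16777664) (l 16777728)) (b (l 16777632) (l 16777648)))) (l 16777776))) (c (l 16778000) (l 16778008)))) (a (c (a (l 16778720) (l 16778568)) (a (l 16778608) (l 16778488))) (c (a (l 16778392) (l 16778184)) (a (l 16778344) (l 16778160))))) (a (b (c (a (l 16779168) (l 16779040)) (a (l 16778992) (l 16778896))) (c (a (l 16779728) (l 16779616)) (a (l 16779504) (l 16779424)))) (b (c (a (l 16778880) (l 16778688)) (a (l 16778768) (l 16778616))) (c (a (l 16779480) (l 16779312)) (a (l 16779320) (l 16779192)))))), by decide +kernel⟩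

def k41_B00pm_102_s1 : ∃ t, chk3 f_B00pm_102_s1 t 1013 507 1 = true :=
  ⟨(b (b (a (b (a (b (a (l 16777584) (l 16777544)) (a (b (a (l 16777624) (l 16777568)) (a (l 16777648) (l 16777600))) (c (l 16777488) (l 16777552)))) (l 16777464)) (a (a (l 16777720) (b (b (a (l 16777576) (c (l 16777480) (l 16777544))) (c (l 16777552) (l 16777616))) (l 16777640))) (b (a (a (c (l 16777448) (l 16777512)) (l 16777464)) (l 16777432)) (a (b (a (l 16777528) (c (l 16777432) (l 16777496))) (l 16777536)) (a (b (l 16777432) (c (l 16777408) (l 16777472))) (l 16777408)))))) (c (l 16777296) (l 16777352))) (a (a (c (l 16777952) (l 16777952)) (b (a (l 16777656) (a (l 16777560) (b (c (l 16777416) (l 16777480)) (l 16777536)))) (c (l 16777808) (l 16777824)))) (b (a (b (a (b (l 16777368) (a (c (l 16777360) (l 16777424)) (l 16777344))) (l 16777320)) (a (a (l 16777464) (b (l 16777376) (l 16777416))) (b (l 16777304) (a (l 16777352) (l 16777296))))) (l 16777256)) (a (a (l 16777600) (a (l 16777488) (c (l 16777408) (l 16777456))))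 (b (a (a (b (l 16777272) (l 16777312)) (c (l 16777216) (l 16777272))) (l 16777224)) (c (a (l 16777344) (b (l 16777176) (l 16777216))) (a (l 16777400) (b (l 16777232) (a (l 16777304) (l 16777232)))))))))) (a (a (b (c (l 16778472) (l 16778424)) (c (l 16779120) (l 16779024))) (b (c (l 16778224) (l 16778200)) (c (l 16778888) (l 16778824)))) (a (b (c (l 16777944) (l 16777944)) (c (l 16778624) (l 16778592))) (b (b (c (l 16777480) (l 16777520)) (c (l 16777792) (l 16777800))) (c (l 16778336) (l 16778320)))))), by decide +kernel⟩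

def k42_B00pm_102_s1 : ∃ t, chk3 f_B00pm_102_s1 t 1014 507 1 = true :=
  ⟨(b (a (a (l 536857871) (l 536683279)) (a (b (l 16777112) (l 16777056)) (b (l 16777072) (l 16777016)))) (b (a (b (a (b (a (b (a (c (l 16777160) (l 16777208)) (l 16777152)) (c (l 16777184) (l 16777240))) (l 16777120)) (a (l 16777304) (a (c (l 16777168) (l 16777216)) (b (l 16777096) (l 16777128))))) (a (c (l 16777048) (l 16777096)) (l 16777056))) (a (c (l 16777440) (l 16777472)) (b (a (b (a (l 16777112) (l 16777048)) (c (l 16777128) (l 16777176))) (c (l 16776992) (l 16777048))) (a (l 16777264) (b (a (l 16777088) (c (l 16776984) (l 16777040))) (l 16777120)))))) (a (b (l 16777008) (a (b (l 16777000) (a (b (l 16776992) (b (l 16776984) (l 16777000))) (l 16776976))) (l 16776968))) (l 16776952))) (a (c (a (l 16778000) (l 16775008)) (a (b (l 16777816) (l 16778200)) (b (l 16777464) (l 16777856)))) (b (a (b (a (b (a (l 16777056) (b (l 16776960) (l 16776984))) (l 16777096)) (a (b (l 16776952) (c (l 16776936) (l 16776984))) (l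 16776936))) (a (l 16777240) (b (a (l 16777032) (c (l 16776928) (l 16776968))) (l 16777080)))) (a (b (l 16776912) (b (l 16776896) (a (c (l 16776912) (l 16776960)) (l 16776880)))) (l 16776880))) (a (c (l 16777432) (l 16777464)) (b (a (a (l 16777072) (c (l 16776960) (l 16777000))) (b (a (l 16776864) (l 16776856)) (a (l 16776912) (l 16776840)))) (c (l 16777112) (a (l 16777256) (l 16777040))))))))), by decide +kernel⟩

def k43_B00pm_102_s1 : ∃ t, chk3 f_B00pm_102_s1 t 1015 507 1 = true :=
  ⟨(a (b (a (b (l 536710927) (l 16776976)) (a (l 536666895) (l 536646671))) (b (c (l 16776880) (l 16776912)) (a (b (l 16776856) (b (l 16776824) (a (b (c (l 16776792) (l 16776840)) (a (l 16776896) (c (l 16776792) (l 16776832)))) (l 16776792)))) (l 16776808)))) (a (a (b (l 536626703) (l 536574479)) (b (l 536606479) (l 536554255))) (a (b (l 536586511) (l 536534287)) (b (l 536566543) (l 536514319))))), by decide +kernel⟩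

def k44_B00pm_102_s1 : ∃ t, chk3 f_B00pm_102_s1 t 127 126 1 = true :=
  ⟨(b (l 3) (a (a (a (a (a (b (a (b (l 536651279) (l 536598543)) (b (l 536631055) (l 536578575))) (a (b (l 536546575) (l 536494351)) (b (l 536526351) (l 536474639)))) (b (a (b (l 536610831) (l 536558351)) (b (l 536590607) (l 536538383))) (a (b (l 536506383) (l 536454671)) (b (l 536486415) (l 536434703))))) (a (b (a (b (l 536570383) (l 536518415)) (b (l 3) (l 536498191))) (a (b (l 536466447) (l 536414735)) (b (l 536446479) (l 536394767)))) (b (b (l 3) (a (l 536478223) (l 536458255))) (a (b (l 536426511) (l 536375055)) (b (l 536406543) (l 536355087)))))) (b (b (l 3) (a (a (a (l 536438287) (l 536418063)) (a (l 536398095) (l 3))) (l 3))) (a (a (a (b (l 536386575) (l 536335119)) (b (l 536366607) (l 536315407))) (a (b (l 536346639) (l 536295439)) (b (l 536326927) (l 536275727)))) (a (a (b (l 536306959) (l 536255759)) (b (l 536286991) (l 536101647))) (a (b (l 536267023) (a (l 536221711) (l 536211727))) (b (l 536247311) (a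 (l 536201743) (l 536192015)))))))) (b (l 3) (b (l 3) (a (a (a (a (a (l 536182031) (l 536172047)) (a (l 535893775) (l 535884047))) (a (a (l 535874063) (l 535864079)) (a (l 535854351) (l 535844367)))) (a (a (a (l 535834639) (l 535824655)) (a (l 535814927) (l 3))) (l 3))) (l 3))))) (l 3))), by decide +kernel⟩

def k45_B00pm_102_s1 : ∃ t, chk3 f_B00pm_102_s1 t 504 508 1 = true :=
  ⟨(a (l 6) (a (l 6) (a (l 6) (b (b (b (c (l 16780000) (l 16779328)) (l 6)) (l 6)) (l 6))))), by decide +kernel⟩

def k46_B00pm_102_s1 : ∃ t, chk3 f_B00pm_102_s1 t 505 508 1 = true :=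
  ⟨(b (b (a (a (c (b (a (l 16780120) (l 16780208)) (a (l 16780392) (l 16780496))) (b (a (l 16779496) (l 16779640)) (a (l 16779744) (l 16779904)))) (c (b (a (l 16780280) (l 16780328)) (a (l 16780576) (l 16780640))) (b (a (l 16779760) (l 16779856)) (a (l 16780032) (l 16780144))))) (a (c (b (l 16780360) (a (l 16780672) (l 16780688))) (b (a (l 16779928) (l 16779976)) (a (l 16780224) (l 16780280)))) (c (b (l 16780320) (l 16780672)) (b (l 16780000) (a (l 16780320) (l 16780328)))))) (b (a (a (c (a (l 16780696) (l 16780808)) (a (l 16780024) (l 16780192))) (c (a (l 16780904) (l 16780976)) (a (l 16780336) (l 16780456)))) (a (c (a (l 16781024) (l 16781048)) (a (l 16780552) (l 16780624))) (c (l 16781048) (a (l 16780672) (l 16780704))))) (a (a (a (l 6) (c (l 16781152) (l 16780512))) (c (a (l 16781256) (l 16781344)) (a (l 16780672) (l 16780800)))) (a (c (a (l 16781400) (l 16781448)) (a (l 16780912) (l 16781000))) (c (l 16781464) (a (l 16781064) (l 16781104))))))) (a (a (l 6) (a (b (b (c (l 16781640)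 (l 16781032)) (l 6)) (l 6)) (b (c (b (l 16781736) (l 16782168)) (b (l 16781184) (l 16781592))) (b (c (l 16782624) (l 16782040)) (l 6))))) (b (a (c (b (a (l 16781816) (l 16781872)) (a (l 16782256) (l 16782328))) (b (a (l 16781304) (l 16781408)) (a (l 16781736) (l 16781848)))) (c (a (b (l 16781904) (l 16782376)) (l 16779528)) (b (a (l 16781488) (l 16781544)) (a (l 16781944) (l 16782016))))) (a (c (b (a (l 16782728) (l 16782816)) (a (l 16783240) (l 16783336))) (b (a (l 16782192) (l 16782328)) (a (l 16782688) (l 16782840)))) (c (a (b (l 16782880) (l 16783416)) (b (l 16782920) (l 16783472))) (b (a (l 16782440) (l 16782528)) (a (l 16782968) (l 16783072)))))))), by decide +kernel⟩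

def k47_B00pm_102_s1 : ∃ t, chk3 f_B00pm_102_s1 t 252 509 1 = true :=
  ⟨(a (l 6) (a (l 6) (a (a (l 6) (b (b (c (c (l 16779072) (l 16778824)) (b (l 16783392) (l 16778736))) (l 6)) (l 6))) (a (b (b (c (c (l 16779168) (l 16778936)) (b (l 16783536) (l 16778904))) (b (c (l 16780016) (l 16779552)) (l 6))) (l 6)) (b (b (c (c (l 16779240) (l 16779032)) (c (l 16778832) (l 16778624))) (c (b (l 16780120) (c (l 16775432) (l 16775488))) (b (l 16779712) (c (l 16775280) (l 16775080))))) (b (b (b (c (l 16780480) (l 16775640)) (l 6)) (l 6)) (l 6))))))), by decide +kernel⟩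

def k48_B00pm_102_s1 : ∃ t, chk3 f_B00pm_102_s1 t 252 255 1 = true :=
  ⟨(l 6), by decide +kernel⟩

def k49_B00pm_102_s1 : ∃ t, chk3 f_B00pm_102_s1 t 506 508 1 = true :=
  ⟨(b (a (a (b (c (b (l 16780184) (l 16780560)) (b (l 16779944) (l 16780296))) (c (b (l 16780968) (l 16781408)) (a (b (l 16780696) (l 16781120)) (l 16778264)))) (a (b (c (l 16780208) (l 16780008)) (c (l 16781056) (l 16778208))) (b (c (l 16780064) (l 16779896)) (c (l 16780944) (l 16778128))))) (b (a (a (c (l 16779888) (l 16779760)) (c (l 16779688) (l 16779584))) (c (c (l 16776712) (l 16776680)) (a (l 16776752) (l 16776504)))) (b (a (c (l 16780472) (l 16777712)) (c (l 16780032) (l 16777336))) (a (c (l 16780968) (l 16778192)) (c (l 16780560) (l 16777848)))))) (a (a (b (b (c (l 16781880) (a (l 16781568) (l 16781568))) (c (l 16782392) (a (l 16782064) (l 16782080)))) (b (c (l 16780312) (a (l 16782584) (l 16782624))) (c (a (l 16783504) (l 16783512)) (a (l 16783152) (l 16783208))))) (b (b (c (l 16781744) (l 16778896)) (c (l 16782288)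 (l 16779432))) (c (a (c (l 16778016) (l 16777880)) (l 16777896)) (a (c (l 16777752) (l 16777616)) (c (l 16777728) (l 16777608)))))) (a (b (c (a (l 16776608) (l 16776456)) (b (l 16778720) (a (l 16781952) (l 16781848)))) (b (c (l 16777440) (a (l 16782552) (l 16782464))) (c (l 16778088) (c (l 16777960) (l 16777872))))) (b (c (a (l 16776280) (l 16776064)) (a (b (l 16781120) (l 16781712)) (c (l 16776000) (l 16775960)))) (b (c (l 16777128) (c (l 16777056) (l 16777000))) (c (l 16777816) (a (l 16772536) (l 16772400)))))))), by decide +kernel⟩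

def k50_B00pm_102_s1 : ∃ t, chk3 f_B00pm_102_s1 t 1014 1016 1 = true :=
  ⟨(a (b (c (b (l 16775848) (l 16776320)) (a (l 16776224) (b (l 16778288) (l 16778760)))) (b (c (l 16776840) (a (l 16779576) (l 16779272))) (c (l 16777392) (a (l 16780112) (l 16779824))))) (b (c (a (l 16775512) (b (l 16777456) (l 16777968))) (a (b (l 16777912) (l 16778392)) (b (l 16777488) (l 16777984)))) (c (a (b (l 16778928) (l 16779504)) (b (l 16778512) (l 16779104))) (a (b (l 16778920) (l 16779488)) (b (l 16778528) (l 16779112)))))), by decide +kernel⟩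

def k51_B00pm_102_s1 : ∃ t, chk3 f_B00pm_102_s1 t 1015 1016 1 = true :=
  ⟨(b (a (b (a (a (c (l 16777120) (l 16777152)) (b (b (a (b (l 16776784) (l 16776800)) (l 16776776)) (a (l 16776880) (b (l 16776768) (l 16776792)))) (l 16777000))) (b (l 16776752) (a (b (a (b (l 16776752) (l 16776784)) (l 16776736)) (a (l 16776864) (b (l 16776736) (l 16776776)))) (l 16776720)))) (a (c (l 16777496) (l 16777528)) (b (a (l 16777000) (b (a (b (l 16776728) (l 16776768)) (l 16774080)) (a (l 16776864) (b (l 16776720) (l 16776768))))) (c (l 16777120) (l 16777160))))) (a (b (l 16776712) (b (a (c (l 16774040) (l 16776696)) (l 16776672)) (a (c (b (a (l 16776720) (l 16776648)) (l 16776792)) (b (a (l 16776760) (l 16776688)) (l 16776824))) (a (b (l 16776656) (b (l 16776648) (l 16776656))) (l 16776648))))) (l 16776680))) (a (b (c (a (l 16778064) (l 16777560)) (a (l 16778080) (l 16777584))) (c (a (l 16778664) (l 16778176)) (a (l 16778680) (l 16778200)))) (b (a (b (a (l 16777016) (b (a (l 16776736) (c (l 16776624)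 (l 16776656))) (c (l 16776784) (l 16776824)))) (c (l 16777160) (l 16777192))) (b (a (a (b (l 16776624) (b (l 16776616) (l 16776640))) (l 16776616)) (l 16776608)) (a (b (a (l 16776736) (b (l 16776600) (l 16776632))) (l 16776808)) (b (l 16776592) (a (b (l 16776592) (l 16776632)) (l 16776576)))))) (a (c (l 16777640) (l 16777672)) (b (a (l 16777048) (b (a (l 16776736) (b (l 16776584) (l 16776624))) (l 16776824))) (c (l 16777216) (l 16777248))))))), by decide +kernel⟩

def k52_B00pm_102_s1 : ∃ t, chk3 f_B00pm_102_s1 t 507 1017 1 = true :=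
  ⟨(a (a (b (c (a (l 16775816) (l 16775528)) (a (c (l 16775776) (l 16775744)) (c (l 16775504) (l 16775488)))) (b (c (l 16776680) (c (l 16776648) (l 16776624))) (c (l 16777408) (a (l 16772224) (l 16772008))))) (b (c (a (c (l 16775208) (l 16775200)) (c (l 16774832) (l 16774832))) (a (c (l 16775192) (l 16775184)) (c (l 16774832) (l 16774832)))) (b (c (c (l 16776080) (l 16776072)) (c (l 16776072) (l 16776072))) (c (a (l 16771752) (l 16776672)) (a (l 16776984) (l 16776680)))))) (a (b (c (a (c (l 16774408) (l 16774416)) (c (l 16773944) (l 16773952))) (a (c (l 16774424) (l 16774432)) (c (l 16773968) (l 16773984)))) (b (c (c (l 16775288) (l 16775304)) (a (l 16775528) (l 16775104))) (a (a (a (l 16776456) (l 16776360)) (l 16776216)) (c (l 16775880) (l 16775920))))) (b (b (c (a (l 16778320) (l 16777736)) (a (l 16778352) (l 16775152))) (c (a (l 16779048) (l 16778480)) (a (l 16779080) (a (l 16778672) (l 16778376))))) (b (a (c (l 16779824) (l 16774624)) (c (l 16779280) (l 16774088))) (c (a (l 16775408)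 (l 16774888)) (a (l 16775464) (l 16774944))))))), by decide +kernel⟩

def k53_B00pm_102_s1 : ∃ t, chk3 f_B00pm_102_s1 t 506 1018 1 = true :=
  ⟨(a (a (b (b (c (a (l 16784120) (l 16778904)) (a (l 16783760) (l 16783832))) (b (c (l 16779384) (l 16779040)) (c (l 16779720) (l 16779384)))) (c (a (b (c (l 16775056) (l 16774880)) (l 16780160)) (b (l 16779968) (l 16779568))) (b (b (l 16779736) (a (l 16774784) (l 16774904))) (a (c (l 16775184) (l 16775248)) (c (l 16774552) (l 16774704)))))) (b (b (c (l 16778888) (a (l 16778632) (l 16778648))) (c (a (l 16774344) (l 16774056)) (a (l 16779320) (l 16774112)))) (b (c (a (l 16779416) (l 16778896)) (a (c (l 16774376) (l 16774512)) (l 16779120))) (c (c (l 16778664) (l 16778784)) (a (l 16779256) (l 16778664)))))) (a (b (c (a (b (l 16773576) (l 16773584)) (l 16778592)) (a (b (l 16773392) (l 16773768)) (b (l 16773344) (l 16773288)))) (c (a (l 16778176) (l 16777704)) (a (a (l 16778488) (l 16778216)) (c (l 16777800) (l 16777872))))) (b (b (c (l 16778208) (a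 (l 16773264) (l 16772880))) (c (l 16777776) (a (l 16772840) (l 16782912)))) (c (a (l 16777256) (l 16776848)) (a (c (l 16777328) (l 16777376)) (c (l 16776888) (l 16776920))))))), by decide +kernel⟩

def k54_B00pm_102_s1 : ∃ t, chk3 f_B00pm_102_s1 t 506 1019 1 = true :=
  ⟨(a (a (a (b (c (c (l 16779424) (l 16779592)) (b (c (l 16774760) (l 16774936)) (l 16779616))) (l 6)) (b (c (c (l 16778808) (l 16778952)) (b (l 16779424) (l 16778920))) (b (c (l 16783336) (l 16783616)) (c (l 16782752) (l 16783016))))) (b (c (a (a (l 16778424) (l 16778128)) (b (l 16783208) (l 16782664))) (b (c (l 16778416) (l 16778528)) (c (l 16777880) (l 16777984)))) (b (c (a (l 16782696) (l 16782080)) (c (l 16777296) (l 16777392))) (c (l 16779144) (a (l 16782296) (l 16781600)))))) (b (b (a (c (a (l 16782664) (l 16782152)) (a (l 16782824) (l 16782272))) (c (l 16781448) (a (l 16781752) (l 16781264)))) (a (c (a (l 16782104) (l 16781568)) (a (l 16782248) (l 16781664))) (c (l 16780816) (a (l 16781120) (l 16780600))))) (b (a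 (c (l 16778584) (a (l 16781616) (l 16781008))) (c (l 16780136) (a (l 16780432) (l 16779888)))) (a (c (l 16777904) (a (l 16780936) (l 16780296))) (c (l 16776784) (a (l 16779688) (l 16779112))))))), by decide +kernel⟩

def k55_B00pm_102_s1 : ∃ t, chk3 f_B00pm_102_s1 t 1014 509 1 = true :=
  ⟨(b (a (b (b (c (l 16777568) (a (l 16772528) (l 16772216))) (c (l 16777096) (c (l 16777120) (l 16777136)))) (c (a (l 16776472) (l 16776128)) (a (b (l 16782016) (l 16781440)) (b (l 16781656) (l 16781056))))) (b (c (a (l 16776944) (l 16776728)) (a (b (l 16771944) (l 16781912)) (b (l 16776960) (l 16781664)))) (b (c (l 16776000) (a (l 16781344) (l 16781072))) (c (l 16780616) (l 16777936))))) (b (b (a (c (l 16780616) (l 16777976)) (c (l 16779936) (a (l 16780032) (l 16779704)))) (a (c (l 16779936) (a (l 16780120) (l 16779680))) (c (l 16779200) (a (l 16779280) (l 16778928))))) (a (c (a (l 16776416) (l 16775968)) (a (b (l 16779376) (l 16778568)) (b (l 16778904) (l 16778064)))) (c (a (l 16775552) (b (l 16778232)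 (l 16777360))) (b (a (l 16778472) (l 16778080)) (a (l 16777592) (l 16777168))))))), by decide +kernel⟩

def k56_B00pm_102_s1 : ∃ t, chk3 f_B00pm_102_s1 t 1015 509 1 = true :=
  ⟨(b (c (a (b (a (l 16776560) (a (l 16776464) (l 16776416))) (b (a (l 16780920) (l 16780760)) (l 16780160))) (b (a (b (l 16776296) (l 16776064)) (b (l 16775792) (l 16776040))) (b (a (l 16780656) (l 16780608)) (l 16777280)))) (a (b (a (b (l 16776792) (l 16781472)) (b (l 16776664) (l 16781320))) (a (c (l 16775288) (l 16775248)) (b (l 16780672) (l 16779968)))) (b (a (b (c (l 16771096) (l 16771136)) (l 16775984)) (b (a (l 16770752) (l 16775728)) (l 16775944))) (a (b (l 16780552) (l 16779816)) (b (l 16780488) (l 16779728)))))) (b (b (a (c (l 16779432) (a (l 16779424) (l 16779192))) (c (a (l 16779168) (l 16779064)) (a (l 16779016) (l 16778888)))) (a (c (l 16776016) (a (l 16778616) (l 16778352))) (c (a (l 16778336) (l 16778192)) (a (l 16778144) (l 16777984))))) (a (c (a (b (l 16777920) (l 16777008)) (b (l 16777648) (l 16776704)))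 (b (a (l 16777736) (l 16777440)) (a (l 16776792) (l 16776456)))) (b (c (a (l 16777424) (l 16777256)) (a (l 16777192) (l 16777008))) (a (c (l 16776448) (l 16776176)) (b (c (l 16776504) (l 16776224)) (a (l 16775872) (c (a (l 16775968) (l 16776000)) (a (l 16775656) (l 16775688)))))))))), by decide +kernel⟩

def k57_B00pm_102_s1 : ∃ t, chk3 f_B00pm_102_s1 t 1012 1020 1 = true :=
  ⟨(a (l 6) (a (b (b (c (l 16781432) (l 16781616)) (l 6)) (l 6)) (b (b (c (l 16780760) (l 16780888)) (b (c (l 16780208) (l 16780320)) (a (l 6) (b (l 16779792) (a (l 6) (b (l 16779552) (c (b (l 16779464) (l 16779496)) (b (l 16779544) (l 16779568))))))))) (a (l 6) (b (c (l 16780504) (l 16775304)) (l 6)))))), by decide +kernel⟩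

def k58_B00pm_102_s1 : ∃ t, chk3 f_B00pm_102_s1 t 1013 2040 1 = true :=
  ⟨(a (c (a (b (l 16780112) (c (l 16779344) (l 16779368))) (b (l 16779488) (l 16778688))) (a (a (b (l 16780360) (c (l 16779568) (l 16779600))) (l 16777000)) (b (l 16779520) (l 16778688)))) (c (b (a (l 16778896) (l 16778336)) (a (l 16778064) (l 16777464))) (b (a (l 16778880) (l 16778272)) (a (l 16778008) (l 16777368))))), by decide +kernel⟩

def k59_B00pm_102_s1 : ∃ t, chk3 f_B00pm_102_s1 t 1013 4082 1 = true :=
  ⟨(a (b (a (b (a (a (c (l 16779368) (c (l 16779408) (l 16779432))) (b (c (b (l 16779000) (l 16778992)) (b (l 16779040) (l 16779032))) (l 16779128))) (a (b (l 16778808) (c (c (l 16778776) (l 16778784)) (b (l 16778776) (l 16778816)))) (c (l 16778592) (l 16778608)))) (c (a (l 16779584) (l 16778848)) (a (l 16779616) (a (l 16779048) (l 16778672))))) (b (c (l 16778152) (l 16778136)) (b (a (c (b (l 16778200) (c (l 16778184) (l 16778176))) (a (b (l 16775656) (l 16778272)) (l 16778056))) (c (l 16777824) (l 16777784)))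 (a (a (l 16778400) (a (c (l 16778136) (l 16775496)) (c (b (l 16777968) (l 16778008)) (b (l 16777936) (l 16777976))))) (c (l 16777744) (c (l 16777704) (l 16777688))))))) (a (c (l 16779800) (l 16779792)) (a (c (l 16778704) (l 16778672)) (a (c (l 16778152) (l 16778104)) (b (b (c (b (l 16774944) (l 16774952)) (b (a (l 16774936) (l 16777448)) (a (l 16777600) (l 16774808)))) (l 16777680)) (c (l 16777992) (l 16777920))))))) (b (c (l 16777080) (a (l 16777320) (l 16776640))) (a (b (a (c (b (l 16777280) (b (c (l 16777248) (l 16777208)) (a (l 16777392) (c (l 16774480) (l 16774440))))) (a (b (l 16777288) (c (l 16777304) (l 16777264))) (c (l 16777096) (c (l 16777064) (l 16777040))))) (l 16776832)) (a (c (l 16777448) (l 16777352)) (a (b (c (b (l 16774224) (l 16774240)) (b (a (l 16774168) (l 16776672)) (l 16776752))) (l 16776952)) (b (c (l 16776640) (l 16773904)) (c (l 16776648) (c (l 16776552) (l 16776488))))))) (a (a (a (b (l 16776624) (b (l 16776440) (c (b (l 16776424) (l 16776424)) (b (l 16776288)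 (l 16773664))))) (c (l 16776504) (l 16776368))) (l 16776296)) (c (l 16776136) (l 16775976)))))), by decide +kernel⟩

def k60_B00pm_102_s1 : ∃ t, chk3 f_B00pm_102_s1 t 1013 4083 1 = true :=
  ⟨(a (c (c (l 16774984) (l 16774952)) (c (l 16774920) (l 16774888))) (a (c (l 16772792) (c (l 16777936) (l 16777864))) (b (b (a (a (c (l 16776568) (l 16776416)) (b (b (a (c (l 16776176) (l 16773400)) (c (l 16776064) (l 16775904))) (c (l 16776152) (l 16776000))) (l 16776216))) (b (c (l 16775840) (c (l 16775712) (l 16775624))) (c (a (l 16775936) (a (b (l 16775696) (l 16775712)) (l 16772976))) (a (l 16775768) (b (l 16772848) (a (l 16775528) (l 16772760))))))) (c (l 16776400) (l 16776224))) (c (l 16776960) (l 16776760))))), by decide +kernel⟩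

def k61_B00pm_102_s1 : ∃ t, chk3 f_B00pm_102_s1 t 506 1021 1 = true :=
  ⟨(a (l 6) (b (a (a (l 6) (b (c (l 16780992) (l 16775608)) (l 6))) (c (b (c (l 16773608) (l 16773504)) (l 16775032)) (c (b (l 16773400) (l 16769592)) (b (l 16773296) (l 16769464))))) (a (l 6) (c (b (l 16771240) (l 16772680)) (c (l 16771712) (l 16771552)))))), by decide +kernel⟩

def k62_B00pm_102_s1 : ∃ t, chk3 f_B00pm_102_s1 t 2028 1020 1 = true :=
  ⟨(b (c (b (a (l 16777800) (l 16777304)) (a (l 16776896) (l 16776368))) (b (a (l 16777696) (l 16777152)) (a (l 16776752) (l 16776176)))) (b (c (a (l 16775928) (l 16775360)) (a (l 16775744) (l 16775128))) (b (a (b (c (l 16775296) (l 16775088)) (a (b (a (c (b (c (l 16772832) (l 16772736)) (l 16775448)) (b (a (l 16772632) (l 16772512)) (l 16775240))) (b (l 16775096) (c (l 16772544) (a (c (l 16775048) (l 16772320)) (l 16774880))))) (c (l 16775408) (l 16775192))) (b (l 16774824) (b (c (l 16772232) (l 16774616)) (c (a (a (l 16775008) (l 16774848)) (l 16774704)) (a (a (l 16774776)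 (c (l 16774672) (l 16771928))) (l 16774456))))))) (c (l 16774560) (l 16774288))) (a (a (c (l 16775880) (l 16775640)) (a (c (l 16775336) (l 16775088)) (a (c (l 16775056) (l 16774800)) (b (b (b (c (l 16774608) (l 16771736)) (l 16774528)) (l 16774664)) (l 16774936))))) (c (b (a (b (b (l 16774400) (b (l 16771736) (l 16774344))) (a (l 16774520) (b (l 16771584) (l 16771592)))) (l 16774008)) (a (l 16774624) (a (c (l 16774160) (l 16774000)) (b (b (l 16773744) (b (l 16771088) (l 16771088))) (l 16773816))))) (b (a (b (b (l 16774128) (c (l 16774152) (b (l 16771400) (l 16774000)))) (a (l 16774248) (b (c (l 16771376) (l 16771232)) (c (l 16771376) (l 16771232))))) (l 16773704)) (a (l 16774336) (b (a (b (a (l 16773736) (c (l 16773656) (l 16770880))) (l 16773728)) (b (l 16773432) (a (l 16770840) (l 16770712)))) (l 16773680))))))))), by decide +kernel⟩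

def k63_B00pm_102_s1 : ∃ t, chk3 f_B00pm_102_s1 t 2029 1020 1 = true :=
  ⟨(b (c (b (a (l 16776840) (l 16776416)) (a (l 16775864) (l 16775400))) (b (a (l 16776648) (l 16776184)) (a (l 16775632) (l 16775136)))) (a (b (c (l 16774824) (l 16774544)) (b (c (l 16773992) (l 16773672)) (a (a (b (l 16773616) (b (l 16773392) (b (c (a (l 16770904) (l 16773416)) (c (l 16770608) (a (l 16770488) (l 16773000)))) (c (l 16773504) (a (l 16773256) (l 16770456)))))) (c (l 16773496) (c (l 16773248) (l 16773080)))) (c (l 16773272) (l 16772920))))) (c (b (l 16774320) (l 16773160)) (b (l 16774000) (c (l 16772880) (l 16772696)))))), by decide +kernel⟩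

def k64_B00pm_102_s1 : ∃ t, chk3 f_B00pm_102_s1 t 2028 1021 1 = true :=
  ⟨(b (c (b (c (l 16770736) (l 16770584)) (l 16772112)) (b (c (l 16770424) (c (l 16770312) (l 16770232))) (c (l 16771848) (l 16771664)))) (a (c (l 16769752) (l 16774592)) (c (l 16773528) (l 16773080)))), by decide +kernel⟩

def k65_B00pm_102_s1 : ∃ t, chk3 f_B00pm_102_s1 t 2029 2042 1 = true :=
  ⟨(b (b (a (b (a (c (a (l 16773728) (l 16773368)) (a (l 16773384) (c (l 16773104) (c (l 16772968) (l 16772880))))) (b (c (a (b (l 16773016) (c (l 16770464) (l 16770280))) (l 16772824)) (a (b (l 16770032) (a (l 16772696) (a (l 16769952) (l 16772520)))) (l 16772448))) (c (a (l 16773104) (b (c (l 16770224) (l 16770040)) (l 16772792))) (a (l 16772728) (b (a (c (l 16772520) (l 16769704)) (l 16769680)) (l 16772400)))))) (c (l 16773552) (l 16773184))) (b (c (a (a (l 16772624) (l 16772464)) (l 16772256)) (a (c (l 16772256) (c (l 16772104) (l 16772008))) (l 16771840))) (a (b (c (a (l 16769944) (b (l 16772288) (a (l 16772344) (l 16769576))))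 (a (l 16772168) (b (c (l 16771976) (l 16769144)) (a (l 16771928) (a (l 16769184) (l 16769120)))))) (c (l 16772568) (l 16772152))) (b (c (l 16772024) (l 16771592)) (a (c (b (b (l 16769400) (l 16769400)) (l 16772080)) (b (a (a (l 16771696) (l 16768992)) (b (l 16771528) (l 16768888))) (l 16771640))) (a (b (l 16771648) (c (l 16769208) (a (l 16768792) (l 16768728)))) (c (l 16771768) (l 16771320)))))))) (c (a (l 16774096) (a (l 16773016) (l 16772296))) (a (l 16773704) (a (l 16772592) (c (l 16771960) (l 16771728)))))) (a (c (l 16775176) (l 16769504)) (a (c (l 16774096) (l 16773632)) (b (c (l 16773016) (l 16772544)) (c (a (l 16773920) (l 16773664)) (a (l 16773424) (b (l 16772920) (l 16773392)))))))), by decide +kernel⟩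

def k66_B00pm_102_s1 : ∃ t, chk3 f_B00pm_102_s1 t 2029 2043 1 = true :=
  ⟨(a (b (c (l 16776600) (l 16770888)) (a (c (l 16775760) (b (l 16777528) (l 16778224))) (b (c (a (l 16777480) (l 16777216)) (a (l 16776968) (l 16776704))) (c (l 16778280) (l 16777760))))) (b (a (c (b (l 16775184) (a (l 16776112) (l 16775928))) (b (a (l 16774848) (l 16774512)) (a (l 16775600) (l 16775416)))) (c (l 16772632) (c (l 16774880) (l 16772008)))) (c (l 16777424) (l 16776920)))), by decide +kernel⟩

def k67_B00pm_102_s1 : ∃ t, chk3 f_B00pm_102_s1 t 1015 1020 1 = true :=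
  ⟨(b (a (c (a (b (l 16776032) (l 16774984)) (b (l 16775688) (l 16774600))) (b (a (l 16775768) (l 16775400)) (a (l 16774672) (l 16774264)))) (a (b (c (b (l 16775664) (l 16775120)) (b (l 16775360) (l 16774792))) (a (b (l 16774456) (c (l 16774080) (a (l 16773720) (b (l 16773792) (l 16773528))))) (b (c (a (l 16774528) (l 16774544)) (a (l 16774168) (l 16774184))) (c (l 16774144) (l 16773768))))) (b (a (a (b (l 16775352) (c (l 16775016) (b (l 16774776) (l 16774552)))) (b (c (l 16775488) (l 16775160)) (l 16774920))) (c (l 16775440) (b (l 16775280) (l 16774944)))) (c (l 16774672) (l 16774312))))) (b (a (a (c (l 16773856) (l 16773496)) (a (c (l 16773536) (l 16773152)) (b (c (l 16773640) (l 16773248)) (c (a (l 16773088) (l 16773088)) (a (l 16772680) (c (l 16772776) (l 16772568))))))) (b (a (a (c (a (l 16773568) (l 16773632)) (a (b (l 16773272) (l 16773040)) (l 16773232))) (l 16773624)) (l 16774000)) (c (l 16773624) (l 16773232)))) (a (a (c (b (l 16772960) (l 16772344)) (b (l 16772560) (c (l 16772016)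 (l 16771800)))) (a (b (c (l 16772640) (a (l 16772248) (a (l 16772160) (l 16772144)))) (a (c (l 16772104) (b (l 16771768) (l 16768896))) (c (l 16772168) (l 16771712)))) (c (l 16772520) (c (l 16772192) (l 16771976))))) (c (l 16773144) (a (l 16772472) (l 16772992)))))), by decide +kernel⟩

def k68_B00pm_102_s1 : ∃ t, chk3 f_B00pm_102_s1 t 1015 4084 1 = true :=
  ⟨(a (b (a (a (c (l 16771832) (l 16771376)) (a (c (l 16771648) (l 16771176)) (c (l 16771624) (a (l 16771136) (l 16771160))))) (c (l 16771904) (l 16771448))) (a (a (a (b (b (b (c (l 16768928) (a (b (l 16771128) (l 16768496)) (l 16771032))) (a (l 16771400) (c (l 16768848) (b (l 16768368) (l 16771008))))) (c (l 16771672) (l 16771208))) (c (l 16771944) (l 16771464))) (b (b (c (l 16771360) (c (l 16771008) (l 16770768))) (a (c (l 16771408) (l 16770928)) (b (c (l 16768608) (b (l 16770736) (l 16768112))) (c (l 16771280) (l 16770792))))) (c (l 16771640) (a (l 16771200) (l 16771080))))) (b (a (b (c (l 16771280) (l 16768176)) (a (b (c (l 16771176)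 (l 16768064)) (c (l 16768568) (c (l 16768200) (l 16767952)))) (c (l 16771224) (c (l 16770856) (l 16767992))))) (l 16771104)) (b (c (a (l 16771352) (b (a (l 16768632) (l 16771288)) (l 16768712))) (a (l 16770864) (b (a (b (l 16770752) (l 16770768)) (l 16770800)) (c (l 16770968) (l 16768104))))) (c (l 16771576) (l 16771088))))) (b (c (l 16771672) (l 16771200)) (b (c (l 16771560) (c (a (l 16768456) (l 16771328)) (l 16770976))) (a (a (a (c (l 16771456) (l 16770976)) (b (c (l 16768752) (b (l 16770872) (l 16770904))) (l 16771240))) (c (b (l 16771432) (c (l 16768944) (l 16768704))) (b (l 16770960) (a (l 16768336) (b (l 16770960) (l 16768344)))))) (c (l 16771600) (l 16771128))))))) (c (l 16772512) (a (l 16771816) (l 16772344)))), by decide +kernel⟩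

def k69_B00pm_102_s1 : ∃ t, chk3 f_B00pm_102_s1 t 1015 8170 1 = true :=
  ⟨(a (a (a (c (a (b (l 16772320) (l 16772760)) (l 16772376)) (a (b (l 16771832) (l 16772264)) (l 16771888))) (c (l 16772232) (l 16771752))) (b (a (c (l 16771784) (l 16771312)) (b (a (c (b (c (l 16769008) (l 16768776)) (l 16771584)) (b (a (b (l 16768376) (l 16771032)) (l 16771048)) (l 16768488))) (b (l 16771368) (c (l 16768968) (a (c (l 16771208) (l 16768352)) (l 16771128))))) (c (c (l 16769232) (l 16768992)) (a (l 16771312) (b (a (l 16771176) (b (l 16768504) (l 16771168))) (l 16771288)))))) (c (l 16772216) (l 16771744)))) (a (a (b (b (l 16771544) (c (a (b (l 16771664) (a (l 16771688) (l 16769056))) (l 16771760)) (a (a (b (l 16768544) (l 16771224)) (b (l 16771224) (b (l 16771200) (l 16771216)))) (l 16771304)))) (a (c (l 16771992) (l 16771528)) (a (c (l 16771920) (l 16771464)) (b (c (b (l 16771752) (l 16771816)) (b (b (l 16771288) (l 16768664)) (l 16771352))) (l 16771784))))) (a (b (l 16771704) (b (a (b (l 16771568)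 (c (l 16769176) (a (l 16768712) (l 16768720)))) (c (l 16771848) (l 16771392))) (c (l 16769320) (c (l 16771600) (l 16768752))))) (b (l 16771832) (b (l 16771712) (a (b (c (l 16771864) (b (l 16771400) (l 16768784))) (l 16771712)) (b (l 16771680) (c (l 16769296) (c (l 16771576) (l 16768728))))))))) (c (l 16772296) (a (l 16771728) (l 16771984))))), by decide +kernel⟩

def k70_B00pm_102_s1 : ∃ t, chk3 f_B00pm_102_s1 t 1015 8171 1 = true :=
  ⟨(a (c (l 16773192) (c (l 16772832) (l 16772584))) (a (c (l 16772632) (l 16772176)) (b (a (b (b (c (a (c (l 16769480) (l 16769256)) (l 16772048)) (a (a (l 16771536) (b (l 16771520) (l 16771536))) (l 16771608))) (a (l 16771864) (c (c (l 16769544) (l 16769320)) (a (b (l 16768944) (l 16771608)) (l 16768992))))) (c (l 16772232) (l 16769168))) (b (l 16772000) (c (a (b (a (l 16769480) (l 16772136)) (l 16769552)) (l 16769592)) (c (a (b (l 16769176) (l 16769224)) (l 16771888)) (a (b (a (l 16768928) (l 16771584)) (a (l 16771640) (l 16768984))) (l 16769048)))))) (c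 (c (l 16772640) (c (l 16772472) (l 16772360))) (a (l 16772176) (a (l 16772048) (b (b (a (l 16771792) (a (l 16769152) (l 16769160))) (l 16771896)) (l 16772088)))))))), by decide +kernel⟩

def k71_B00pm_102_s1 : ∃ t, chk3 f_B00pm_102_s1 t 1015 2043 1 = true :=
  ⟨(a (c (a (l 16770736) (c (l 16770456) (l 16770224))) (b (c (l 16774392) (l 16774144)) (l 16771080))) (c (b (a (l 16774176) (l 16773800)) (l 16770760)) (b (a (l 16771096) (l 16770736)) (c (l 16775664) (l 16775440))))), by decide +kernel⟩

def k72_B00pm_102_s1 : ∃ t, chk3 f_B00pm_102_s1 t 253 511 1 = true :=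
  ⟨(a (l 6) (b (b (a (a (b (a (b (l 16776528) (l 16777216)) (a (l 16775744) (b (l 16774648) (c (l 16778296) (l 16777768))))) (c (a (l 16773248) (a (b (l 16782288) (l 16777872)) (l 16777072))) (a (l 16772736) (a (b (l 16781760) (a (l 16782656) (l 16782456))) (l 16776536))))) (b (a (a (b (a (c (l 16779664) (l 16779136)) (l 16776584)) (l 16780280)) (l 16774304)) (c (l 16779472) (l 16778968))) (c (l 16776480) (l 16775960)))) (c (a (b (l 16773584) (l 16775576)) (b (l 16772752) (l 16774704))) (a (b (l 16773096) (l 16775088)) (b (l 16772296) (l 16774256))))) (a (a (b (a (l 6) (c (l 16773960) (l 16773416))) (l 6)) (b (c (c (l 16773360) (l 16773104)) (c (l 16772840) (l 16772584))) (c (l 16775192) (l 16774680)))) (b (c (a (l 16777536) (l 16776632)) (a (l 16777048) (l 16776176))) (a (c (c (l 16774336) (l 16774096)) (c (l 16773856) (l 16773608))) (c (a (l 16773512) (l 16773048)) (c (l 16772936) (l 16772712))))))) (b (a (a (l 6) (c (b (c (l 16773928) (l 16774184)) (l 16777744)) (b (c (l 16774440) (l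 16774704)) (l 16778264)))) (c (a (b (c (l 16773928) (l 16774168)) (l 16777776)) (b (a (l 16774016) (l 16773984)) (l 16777768))) (a (b (c (l 16774408) (l 16774656)) (l 16778256)) (b (c (l 16774336) (l 16774568)) (l 16778216))))) (a (l 6) (c (a (b (l 16778912) (a (l 16777440) (l 16777480))) (b (l 16778936) (a (l 16777512) (l 16777536)))) (a (b (c (l 16781896) (l 16782144)) (a (l 16777936) (l 16777960))) (b (a (l 16782016) (l 16776760)) (a (l 16777976) (l 16777976))))))))), by decide +kernel⟩

def k73_B00pm_102_s1 : ∃ t, chk3 f_B00pm_102_s1 t 1016 1016 1 = true :=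
  ⟨(a (a (b (c (l 16776656) (l 16776688)) (b (l 16776592) (b (a (a (b (l 16776560) (b (l 16776576) (l 16776624))) (c (l 16776536) (l 16776568))) (l 16776552)) (a (a (l 16776832) (b (c (l 16776592) (l 16776624)) (l 16776752))) (b (a (l 16776528) (l 16776528)) (a (c (l 16776592) (l 16776624)) (a (l 16776528) (l 16776512)))))))) (a (l 536402959) (l 536382991))) (a (a (l 536363279) (l 536343311)) (a (l 536323599) (l 536303631)))), by decide +kernel⟩

def k74_B00pm_102_s1 : ∃ t, chk3 f_B00pm_102_s1 t 1016 2034 1 = true :=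
  ⟨(b (a (b (a (a (l 16777104) (a (l 16776856) (a (l 16776728) (c (l 16776640) (l 16776672))))) (a (b (a (c (l 16776496) (l 16776528)) (l 16776504)) (a (c (l 16776592) (l 16776624)) (c (l 16776488) (l 16776520)))) (l 16776496))) (c (a (l 16777288) (a (l 16776784) (b (a (l 16776488) (l 16776456)) (a (l 16776608) (l 16776480))))) (a (l 16777328) (a (l 16776816) (b (a (b (l 16776496) (l 16776520)) (l 16776488)) (a (l 16776640) (a (l 16776520) (l 16773864)))))))) (a (l 16776488) (l 16776504))) (a (a (c (l 16775240) (a (l 16778064) (l 16777744))) (c (a (l 16777360) (l 16777016)) (a (l 16777400) (b (l 16776840) (l 16777248))))) (a (b (a (b (a (a (c (l 16776496) (l 16776528)) (b (l 16776448) (l 16776464))) (l 16776448)) (a (l 16776640) (a (b (l 16776464) (l 16776552)) (b (l 16776440) (l 16776472))))) (c (l 16776432) (l 16776456))) (a (c (l 16776840) (l 16776872)) (b (a (b (c (l 16776440) (l 16776464)) (l 16776520)) (c (l 16776408) (l 16776440))) (a (l 16776672) (b (c (l 16776440) (l 16776464))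 (l 16776528)))))) (a (b (l 16776456) (a (a (b (l 16776424) (c (l 16776400) (l 16776432))) (l 16776416)) (l 16776424))) (l 16776448))))), by decide +kernel⟩

def k75_B00pm_102_s1 : ∃ t, chk3 f_B00pm_102_s1 t 1016 2035 1 = true :=
  ⟨(a (c (a (b (l 16773432) (l 16774304)) (b (a (l 16778184) (l 16777840)) (c (l 16778888) (l 16773672)))) (a (b (a (l 16778888) (l 16778568)) (l 16774368)) (b (c (l 16778048) (l 16772832)) (c (l 16773704) (l 16773736))))) (b (a (a (b (l 16777280) (l 16777720)) (c (l 16777096) (l 16777136))) (b (a (b (a (a (l 16776536) (c (l 16776448) (l 16776472))) (a (b (l 16776400) (l 16776416)) (l 16776400))) (a (l 16776704) (b (a (l 16776496) (l 16776416)) (l 16776552)))) (a (b (l 16776400) (a (b (l 16776392) (l 16776416)) (l 16776384))) (l 16776400))) (c (a (l 16776920) (b (a (l 16776512) (b (l 16776368) (l 16776392))) (l 16776624))) (a (l 16776952) (b (a (l 16776536) (b (l 16776392) (l 16776416))) (l 16776656)))))) (b (a (c (l 16777960) (l 16778016)) (c (l 16777176) (l 16774600)))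 (a (c (l 16778432) (l 16778488)) (c (l 16777656) (l 16775080)))))), by decide +kernel⟩

def k76_B00pm_102_s1 : ∃ t, chk3 f_B00pm_102_s1 t 1017 508 1 = true :=
  ⟨(b (a (a (a (l 536283919) (l 536129807)) (a (a (l 535981327) (l 535971599)) (a (l 535961615) (l 535951631)))) (a (a (a (l 535941903) (l 535931919)) (a (l 535922191) (l 535912207))) (a (a (l 535902479) (l 535892495)) (a (l 535882511) (l 535872783))))) (a (a (a (b (l 535979535) (a (b (b (l 16776408) (b (l 16776384) (c (b (l 16776360) (l 16776392)) (b (l 16776384) (l 16776424))))) (b (c (l 16776656) (l 16776688)) (l 16777152))) (b (l 16776400) (b (b (a (b (c (l 16776360) (l 16776384)) (l 16776440)) (b (l 16776360) (l 16776368))) (l 16776568)) (l 16776936))))) (b (l 535959823) (b (l 16776408) (b (b (l 16776360) (a (c (b (a (l 16776360) (l 16776336)) (l 16776408)) (b (l 16776376) (l 16776432))) (l 16776352))) (a (l 16776712) (b (b (c (l 16776352) (l 16776376)) (c (l 16776416) (l 16776440))) (a (l 16776664) (c (l 16776536) (l 16776560)))))))))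 (b (b (l 16776568) (l 16776504)) (b (l 16776432) (b (l 16776376) (a (a (b (a (a (b (l 16776344) (b (l 16776336) (a (l 16776336) (l 16776328)))) (l 16776336)) (l 16776344)) (a (b (c (l 16776368) (l 16776392)) (l 16776496)) (b (l 16776336) (l 16776384)))) (b (l 16776352) (c (l 16776320) (l 16776344)))) (l 16776352)))))) (a (a (a (l 535890959) (l 535881231)) (a (l 535871247) (l 535861519))) (a (a (l 535851535) (l 535841807)) (a (l 535831823) (l 535821839)))))), by decide +kernel⟩

def k77_B00pm_102_s1 : ∃ t, chk3 f_B00pm_102_s1 t 1016 1018 1 = true :=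
  ⟨(a (a (b (b (a (b (l 16775176) (l 16775656)) (b (l 16780120) (l 16775360))) (c (l 16776072) (l 16775968))) (b (c (l 16780616) (l 16775248)) (a (l 16777152) (l 16777152)))) (b (c (b (l 16774608) (a (l 16775768) (l 16775456))) (b (l 16774688) (b (l 16775448) (l 16775880)))) (c (b (l 16775440) (l 16779888)) (b (l 16775312) (l 16779728))))) (b (a (c (b (c (l 16773904) (l 16773936)) (a (l 16775120) (l 16774768))) (b (a (l 16774176) (l 16773808)) (b (l 16774776) (l 16775320)))) (b (c (c (l 16773144) (l 16773176)) (a (l 16773424) (b (l 16778000) (l 16778528)))) (a (c (l 16774400) (l 16774496)) (b (a (l 16779128) (b (l 16778792) (a (l 16779112) (l 16779008)))) (a (b (l 16779544) (c (l 16779760) (l 16777240))) (b (a (l 16779384) (l 16779272)) (l 16779584))))))) (a (b (a (c (l 16775528) (l 16775408)) (b (l 16775648) (b (l 16775448) (c (l 16775312) (l 16777800))))) (a (b (l 16780096) (a (l 16779648) (c (l 16779784) (b (l 16779712) (l 16779512))))) (c (b (a (l 16780232) (l 16780312)) (l 16779920))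 (b (a (l 16777464) (l 16777544)) (l 16779768))))) (b (a (b (a (c (l 16775320) (l 16775440)) (b (c (l 16780240) (l 16775104)) (c (l 16775264) (l 16775376)))) (a (a (b (l 16775512) (l 16775328)) (c (l 16775528) (l 16775408))) (l 16775552))) (b (c (l 16774784) (a (l 16775008) (l 16780016))) (l 16775344))) (c (l 16775176) (l 16775040)))))), by decide +kernel⟩

def k78_B00pm_102_s1 : ∃ t, chk3 f_B00pm_102_s1 t 2034 2036 1 = true :=
  ⟨(a (b (a (b (c (l 16777528) (l 16777576)) (a (c (l 16778152) (l 16778216)) (c (b (l 16777808) (l 16778064)) (b (a (l 16777920) (l 16777808)) (l 16778120))))) (b (a (b (c (l 16777072) (l 16777112)) (a (c (l 16777384) (l 16777432)) (b (l 16777232) (l 16777352)))) (b (a (c (l 16776904) (l 16776936)) (l 16776800)) (l 16777112))) (c (l 16777584) (a (l 16777760) (l 16777520))))) (b (a (a (b (a (l 16778640) (l 16778528)) (l 16778840)) (l 16778472)) (l 16778120)) (c (l 16778824) (l 16773656)))) (b (b (a (b (a (l 16776624) (b (c (l 16776360) (l 16776384)) (l 16776456)))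 (l 16776760)) (b (a (a (b (l 16776320) (c (l 16776320) (l 16776344))) (l 16776320)) (l 16776328)) (a (b (c (l 16776368) (a (l 16776416) (l 16776344))) (l 16776472)) (b (l 16776320) (a (b (l 16776312) (a (l 16776360) (l 16776320))) (l 16776312)))))) (a (l 16777144) (b (a (l 16776664) (b (a (l 16776424) (l 16776336)) (l 16776488))) (l 16776792)))) (a (a (l 16775392) (l 16775160)) (c (l 16777400) (l 16777448))))), by decide +kernel⟩

def k79_B00pm_102_s1 : ∃ t, chk3 f_B00pm_102_s1 t 2035 2036 1 = true :=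
  ⟨(b (a (b (l 16776344) (a (b (a (b (l 16776304) (c (a (l 16776328) (l 16776288)) (l 16776336))) (l 16776312)) (a (a (l 16776504) (c (l 16776392) (l 16776408))) (b (l 16776304) (a (l 16776344) (b (l 16776296) (l 16776296)))))) (l 16776320))) (c (l 16776368) (l 16776384))) (a (b (a (c (l 16776696) (b (l 16776600) (l 16776848))) (b (a (c (b (l 16776288) (l 16776328)) (b (l 16776304) (a (l 16776368) (l 16776304)))) (l 16776296)) (a (l 16776488) (b (a (b (l 16776280) (a (l 16776312) (l 16776280))) (l 16776288)) (c (l 16776336) (b (l 16776328) (l 16776368))))))) (c (l 16774336) (l 16774376))) (a (b (l 16776304) (a (b (b (a (b (a (l 16776280) (l 16776272)) (a (l 16776328) (l 16776288))) (l 16776280)) (b (c (l 16776312) (l 16776336)) (l 16776368))) (l 16776520)) (b (l 16776280) (b (a (b (a (l 16776288) (l 16776272)) (l 16776320)) (l 16776272)) (c (l 16776352) (l 16776376)))))) (a (b (l 16776328) (c (l 16776280) (l 16776296))) (l 16776320))))), by decide +kernel⟩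

def k80_B00pm_102_s1 : ∃ t, chk3 f_B00pm_102_s1 t 1017 2037 1 = true :=
  ⟨(a (b (a (a (b (l 16774360) (l 16774864)) (a (l 16774256) (l 16774016))) (c (l 16773392) (l 16773464))) (b (a (l 16775128) (c (l 16774136) (l 16774224))) (a (l 16775400) (a (l 16774920) (l 16774440))))) (b (b (a (c (l 16777456) (l 16774880)) (a (l 16776784) (a (b (a (c (l 16776368) (l 16776384)) (b (c (l 16776256) (l 16776280)) (l 16776320))) (l 16776560)) (b (a (b (l 16776272) (c (l 16776256) (l 16776280))) (l 16776272)) (b (a (l 16776328) (a (b (l 16776256) (l 16776280)) (l 16776256))) (l 16776392)))))) (a (c (l 16777952) (l 16772768)) (c (l 16777032) (l 16774448)))) (b (a (c (l 16778448) (l 16773272)) (c (l 16777528) (l 16774952))) (a (c (l 16773696) (l 16773776)) (a (l 16778280) (l 16777816)))))), by decide +kernel⟩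

def k81_B00pm_102_s1 : ∃ t, chk3 f_B00pm_102_s1 t 508 1019 1 = true :=
  ⟨(b (a (a (a (b (c (l 16779016) (l 16778832)) (c (b (l 16778344) (l 16777880)) (b (l 16778136) (l 16777648)))) (b (c (a (l 16779016) (b (l 16779264) (a (l 16778816) (l 16778880)))) (a (l 16778824) (b (l 16779080) (a (l 16778616) (l 16778680))))) (a (b (a (l 16778224) (c (l 16778352) (l 16778136))) (a (c (l 16777896) (l 16777664)) (l 16777872))) (c (l 16778328) (b (l 16778280) (l 16777936)))))) (a (b (a (b (a (c (l 16779328) (b (l 16779240) (l 16779048))) (l 16779336)) (l 16778944)) (l 16779344)) (l 16775952)) (b (c (l 16779768) (l 16779616)) (l 16776416)))) (b (b (a (a (l 16775064) (l 16775176)) (a (c (l 16774192) (l 16774280)) (c (l 16773272) (l 16773336)))) (a (c (l 16775024) (l 16774896)) (a (c (l 16774688) (l 16774784)) (c (l 16773760) (l 16773840))))) (a (a (c (l 16779568) (l 16779408)) (c (l 16774760) (l 16774624))) (a (c (l 16775192) (l 16775072)) (c (a (l 16774728) (l 16774272)) (a (l 16774832) (l 16774360)))))))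 (a (a (a (b (a (b (l 16777288) (a (l 16776792) (c (l 16776928) (l 16776656)))) (b (c (a (l 16777392) (l 16777440)) (a (l 16777136) (l 16777192))) (c (l 16777048) (l 16776784)))) (a (b (a (c (l 16776456) (l 16776168)) (l 16776400)) (l 16776008)) (l 16776416))) (c (l 16777240) (l 16774360))) (b (a (l 16775288) (l 16775760)) (c (l 16777608) (l 16774760)))) (b (a (a (l 16776216) (a (l 16779176) (l 16776776))) (a (c (l 16774552) (l 16774416)) (c (l 16774968) (l 16774856)))) (a (c (l 16775888) (a (l 16778088) (l 16778552))) (a (c (l 16779160) (l 16779000)) (c (l 16774336) (l 16774200))))))), by decide +kernel⟩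

def k82_B00pm_102_s1 : ∃ t, chk3 f_B00pm_102_s1 t 509 508 1 = true :=
  ⟨(a (a (a (a (b (a (l 535862799) (l 535853071)) (a (l 535812111) (l 535802127))) (b (a (l 535843087) (l 535833359)) (a (l 535792399) (l 535782415)))) (a (b (a (l 535823375) (l 535813647)) (a (l 535772687) (l 535762703))) (b (a (l 535803663) (l 535793935)) (a (l 535752975) (l 535742991))))) (a (a (b (a (l 535783951) (l 535773967)) (a (l 535733263) (l 535723279))) (b (a (l 535764239) (l 535754255)) (a (l 535847695) (l 535837967)))) (a (b (a (l 535744527) (l 535734543)) (a (c (l 535687183) (l 535700495)) (c (l 535677455) (l 535690511)))) (b (a (l 535724815) (l 535714831)) (a (c (l 535667727) (l 535680527)) (b (l 535680015) (l 535654927))))))) (a (a (a (b (a (l 535704847) (l 535695119)) (a (b (l 535670287) (l 535645199)) (b (l 535660303) (l 535635471)))) (b (a (l 535685135) (l 535675407)) (a (b (l 535650575) (l 535625743)) (b (l 535640847) (l 535616015))))) (a (b (a (l 535799823) (l 3)) (a (b (l 535631119) (l 535606031))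 (b (l 535621135) (l 535596303)))) (b (l 3) (a (b (l 535611407) (l 535586575)) (b (l 535601679) (l 535576847)))))) (b (l 3) (b (a (a (a (l 535591951) (l 535582223)) (a (l 535572239) (l 3))) (l 3)) (a (a (a (l 535567119) (l 535557391)) (a (l 535547663) (l 535537679))) (a (a (l 535527951) (l 535518223)) (a (l 535508495) (l 535632911)))))))), by decide +kernel⟩

def k83_B00pm_102_s1 : ∃ t, chk3 f_B00pm_102_s1 t 2036 1018 1 = true :=
  ⟨(b (a (a (c (l 16776376) (l 16776392)) (c (l 16776408) (l 16776416))) (a (c (l 16776440) (l 535739151)) (b (l 16776520) (l 16776440)))) (b (a (b (a (a (b (l 16776280) (b (l 16776264) (a (b (l 16776256) (a (l 16776288) (l 16776256))) (l 16776256)))) (l 16776288)) (l 16776312)) (a (b (a (b (a (l 16776344) (b (l 16776256) (a (l 16776288) (l 16776256)))) (l 16776416)) (b (l 16776264) (a (b (a (l 16776256) (l 16776248)) (a (l 16776304) (l 16776264))) (l 16776256)))) (a (l 16776600) (b (b (c (l 16776296) (l 16776312)) (l 16776344)) (l 16776432)))) (a (b (l 16776272)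 (a (b (l 16776248) (b (a (l 16776264) (l 16776248)) (l 16776296))) (l 16776256))) (l 16776272)))) (c (l 16776328) (l 16776344))) (a (c (b (a (l 16776848) (b (a (b (l 16776336) (l 16776448)) (b (l 16776240) (a (b (l 16776264) (l 16776304)) (l 16776240)))) (l 16776520))) (l 16774488)) (b (a (l 16776872) (b (a (b (l 16776352) (l 16776464)) (b (l 16776256) (a (l 16776304) (l 16776256)))) (a (l 16776656) (l 16776424)))) (l 16774528))) (b (a (b (l 16776264) (a (b (a (b (l 16776240) (a (l 16776256) (l 16776240))) (l 16776248)) (a (l 16776312) (b (l 16776240) (a (l 16776256) (l 16776240))))) (l 16776256))) (l 16776288)) (a (b (a (c (l 16776424) (l 16776448)) (a (b (b (l 16776240) (a (l 16776264) (l 16776240))) (l 16776328)) (b (l 16776240) (b (a (l 16776240) (l 16776240)) (a (l 16776272) (l 16776240)))))) (l 16776568)) (b (l 16776256) (a (b (a (b (a (l 16776240) (l 16776232)) (a (l 16776288) (l 16776240))) (l 16776240)) (a (l 16776352) (b (a (l 16776248) (l 16776232)) (a (l 16776296) (l 16776248)))))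 (l 16776248)))))))), by decide +kernel⟩

def k84_B00pm_102_s1 : ∃ t, chk3 f_B00pm_102_s1 t 2037 1018 1 = true :=
  ⟨(a (a (a (b (l 535698447) (l 535673615)) (b (l 535688719) (l 535663631))) (a (b (l 535678991) (l 535653903)) (b (l 535669263) (l 535644175)))) (a (a (b (l 535659279) (l 535634447)) (b (l 535649551) (l 535624719))) (a (b (l 535639823) (l 535614991)) (b (l 535630095) (l 535605263))))), by decide +kernel⟩

def k85_B00pm_102_s1 : ∃ t, chk3 f_B00pm_102_s1 t 2036 2038 1 = true :=
  ⟨(a (b (a (a (l 16775600) (l 16775368)) (c (l 16775000) (l 16775048))) (c (a (l 16773816) (l 16773360)) (a (l 16773888) (l 16773424)))) (b (b (a (c (l 16776928) (l 16776960)) (b (a (l 16776480) (b (a (c (b (l 16776240) (l 16776272)) (b (l 16776256) (l 16776288))) (l 16776232)) (b (c (l 16776288) (l 16776304)) (l 16776344)))) (l 16776616))) (c (l 16774568) (l 16774608))) (b (c (l 16775064) (l 16775104)) (a (l 16778424) (l 16777968))))), by decide +kernel⟩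

def k86_B00pm_102_s1 : ∃ t, chk3 f_B00pm_102_s1 t 2037 4076 1 = true :=
  ⟨(a (a (a (b (c (b (l 16776232) (b (a (b (l 16776248) (l 16776296)) (l 16776232)) (l 16776336))) (b (l 16776248) (b (a (l 16776288) (l 16776240)) (l 16776352)))) (l 16776648)) (b (b (l 16776256) (a (b (l 16776240) (b (l 16776232) (a (l 16776240) (l 16776224)))) (l 16776240))) (b (b (a (l 16776296) (b (l 16776232) (a (l 16776248) (l 16776224)))) (l 16776360)) (l 16776544)))) (b (l 16776280) (b (a (b (l 16776240) (a (b (l 16776224) (a (l 16776256) (l 16776224))) (l 16776232))) (l 16776256)) (a (b (a (l 16776320) (b (a (l 16776232) (l 16776224)) (a (l 16776264) (l 16776232)))) (l 16776384)) (b (l 16776232) (a (b (c (l 16776224) (l 16776240)) (c (l 16776256) (l 16776264))) (l 16776232))))))) (c (l 16776312) (l 16776320))), by decide +kernel⟩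

def k87_B00pm_102_s1 : ∃ t, chk3 f_B00pm_102_s1 t 2037 4077 1 = true :=
  ⟨(a (b (a (c (l 16777016) (l 16777040)) (b (a (l 16776568) (b (b (a (l 16776312) (c (l 16776224) (l 16776240))) (c (l 16776312) (l 16776328))) (l 16776408))) (l 16776704))) (c (l 16774656) (l 16774688))) (b (a (b (a (b (l 16776232) (a (c (b (l 16776232) (l 16776272)) (l 16776264)) (l 16776224))) (l 16776248)) (b (a (a (l 16776360) (c (b (l 16776240) (l 16776280)) (l 16776272))) (a (c (l 16776224) (l 16776232)) (l 16776232))) (a (l 16776432) (a (c (b (l 16776240) (l 16776288)) (l 16776280)) (a (c (l 16776224) (l 16776232)) (l 16776224)))))) (l 16776264)) (b (a (a (l 16776616) (c (l 16776392) (l 16776408))) (a (b (a (b (l 16776224) (a (c (l 16776232) (l 16776240)) (l 16776224))) (l 16776232)) (a (c (l 16776288) (l 16776304)) (b (l 16776224) (a (l 16776240) (l 16776224))))) (l 16776240))) (a (l 16776752) (a (c (l 16776408) (l 16776424)) (b (a (b (l 16776224) (a (l 16776256) (l 16776224))) (l 16776232)) (b (a (l 16776288)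 (c (l 16776224) (l 16776232))) (c (l 16776296) (l 16776304))))))))), by decide +kernel⟩

def k88_B00pm_102_s1 : ∃ t, chk3 f_B00pm_102_s1 t 1018 2039 1 = true :=
  ⟨(a (a (c (b (a (l 16774792) (l 16774336)) (l 16774752)) (b (a (l 16774888) (l 16774424)) (l 16774632))) (c (b (a (l 16773880) (l 16773432)) (a (l 16774848) (l 16774400))) (b (a (l 16773960) (l 16773496)) (a (l 16774952) (l 16774488))))) (a (b (b (c (l 16775144) (c (l 16775176) (l 16775200))) (a (l 16775880) (l 16775432))) (b (a (a (l 16779104) (l 16778880)) (l 16775920)) (c (l 16773968) (l 16774048)))) (a (b (c (l 16774720) (l 16774760)) (b (l 16775472) (l 14))) (b (b (c (l 16776664) (l 16776680)) (a (l 16777272) (l 14))) (l 14))))), by decide +kernel⟩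

def k89_B00pm_102_s1 : ∃ t, chk3 f_B00pm_102_s1 t 1019 509 1 = true :=
  ⟨(b (a (a (a (a (b (l 535620367) (l 535595535)) (b (l 535610639) (l 535585807))) (a (b (l 535600911) (l 535575823)) (b (l 535590927) (l 535566095)))) (a (a (b (l 535581199) (l 535556367)) (b (l 535571471) (l 535546639))) (a (c (l 535539983) (l 535550223)) (c (l 535530255) (l 535540239))))) (b (a (a (a (l 535542287) (l 535532559)) (a (l 535522831) (l 535513103))) (a (a (l 535637519) (l 535627791)) (b (a (l 535491343) (l 535481615)) (l 14)))) (a (a (a (l 535517455) (l 535507727)) (a (l 535632399) (l 14))) (l 14)))) (a (b (a (a (a (l 535570703) (l 535560975)) (a (l 535551247) (l 535541519))) (a (a (l 535531791) (l 14)) (l 14))) (l 14)) (l 14))), by decide +kernel⟩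

def k90_B00pm_102_s1 : ∃ t, chk3 f_B00pm_102_s1 t 255 254 1 = true :=
  ⟨(b (l 3) (l 14)), by decide +kernel⟩

def k91_B00pm_102_s1 : ∃ t, chk3 f_B00pm_102_s1 t 508 1020 1 = true :=
  ⟨(c (a (b (a (b (l 16776032) (l 16775400)) (a (l 16776424) (l 16774264))) (b (a (l 16774760) (l 16775712)) (a (l 16774128) (l 16775088)))) (a (b (a (l 16774720) (l 16775160)) (b (l 16776624) (l 16776008))) (b (b (a (l 16778536) (l 16778960)) (l 16775504)) (a (b (l 16777288) (l 16776680)) (b (l 16777720) (l 16777112)))))) (a (a (b (a (b (l 16775488) (l 16774824)) (b (l 16775984) (l 16775328))) (a (b (l 16774168) (l 16773512)) (b (l 16774672) (l 16774016)))) (b (a (b (l 16776472) (l 16775816)) (b (l 16776960) (l 16776304))) (a (b (l 16775168) (l 16774520)) (b (l 16775656) (l 16775008))))) (b (a (a (b (l 16777432) (l 16776784)) (b (l 16777896) (l 16777248))) (a (b (l 16778352) (l 16777704)) (b (l 16778800) (l 16778160)))) (a (b (a (l 16776136) (l 16776608)) (a (l 16775496) (l 16775968))) (b (a (l 16777072)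 (l 16777520)) (a (l 16776432) (l 16776888))))))), by decide +kernel⟩

def k92_B00pm_102_s1 : ∃ t, chk3 f_B00pm_102_s1 t 508 2042 1 = true :=
  ⟨(a (a (b (c (l 16773504) (a (l 16772864) (l 16773368))) (a (b (c (l 16772784) (l 16772376)) (b (c (l 16772552) (l 16772136)) (b (a (a (c (b (l 16772280) (b (l 16769648) (l 16769672))) (b (l 16771840) (a (a (l 16771848) (l 16769208)) (c (l 16771960) (l 16771744))))) (l 16772160)) (l 16772352)) (a (c (a (l 16772440) (b (c (l 16769840) (l 16769624)) (l 16772416))) (a (l 16772000) (a (b (c (l 16772008) (l 16769168)) (l 16772008)) (b (l 16771928) (l 16771968))))) (a (a (b (l 16772200) (c (l 16772400) (c (l 16772080) (l 16769240)))) (l 16772240)) (l 16772336)))))) (c (l 16773128) (l 16772728)))) (c (b (l 16774464) (a (l 16773608) (l 16774088))) (a (b (l 16773872) (l 16773240)) (b (l 16774368) (l 16773736))))) (a (b (c (l 16775392) (a (l 16774856) (l 16775336))) (c (a (l 16774560) (l 16775016)) (a (l 16774224) (l 16774712)))) (b (c (a (l 16776072) (l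 16776512)) (a (l 16775808) (l 16776264))) (c (a (l 16775472) (l 16775912)) (a (l 16775184) (l 16775648)))))), by decide +kernel⟩

def k93_B00pm_102_s1 : ∃ t, chk3 f_B00pm_102_s1 t 2032 2043 1 = true :=
  ⟨(b (b (a (a (c (l 16773024) (l 16772592)) (a (c (b (l 16772640) (l 16773144)) (c (l 16772568) (c (l 16772408) (l 16772304)))) (b (b (c (b (l 16772496) (c (l 16770000) (l 16769792))) (b (l 16769456) (a (l 16772096) (b (l 16772080) (l 16772088))))) (l 16772472)) (l 16772848)))) (b (a (b (c (l 16772656) (l 16772248)) (a (c (b (c (l 16770064) (l 16769856)) (l 16772656)) (b (a (b (l 16772120) (l 16772168)) (b (l 16772160) (l 16772160))) (l 16772240))) (b (l 16772456) (c (b (l 16772640) (l 16770024)) (a (a (l 16769584) (l 16769584)) (l 16772240)))))) (l 16772664)) (a (c (l 16772920) (a (l 16772552) (l 16772464))) (a (b (b (c (l 16770096) (c (l 16772416) (l 16769584))) (a (l 16772552) (c (l 16772736) (c (l 16772432) (l 16769608))))) (l 16772720)) (b (c (l 16772816) (l 16772408)) (b (c (c (l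 16770288) (l 16770088)) (a (l 16769768) (c (l 16772504) (l 16769680)))) (l 16772696))))))) (c (l 16773760) (a (l 16773512) (l 16773176)))) (a (c (l 16775432) (l 16775008)) (c (l 16775064) (l 16774656)))), by decide +kernel⟩

def k94_B00pm_102_s1 : ∃ t, chk3 f_B00pm_102_s1 t 2033 2043 1 = true :=
  ⟨(b (b (a (a (a (a (b (l 16772816) (b (l 16772704) (b (l 16772640) (c (l 16772856) (c (l 16772552) (l 16769728)))))) (c (l 16773008) (l 16772608))) (l 16772896)) (c (l 16773272) (l 16772888))) (c (l 16773632) (l 16773264))) (a (b (a (a (c (l 16773120) (l 16772720)) (b (c (b (l 16770320) (l 16770360)) (b (a (c (l 16772616) (l 16769792)) (l 16772552)) (a (l 16772600) (b (l 16772552) (l 16772592))))) (l 16772960))) (b (c (l 16770472) (c (l 16772800) (l 16769984))) (b (c (a (c (l 16770512) (l 16770320)) (l 16773088)) (a (a (l 16772640) (c (l 16772736) (l 16769912))) (l 16772696))) (a (l 16772944) (c (b (l 16770456) (l 16770480)) (a (b (l 16772664) (l 16772712)) (c (l 16772800) (l 16772608))))))))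 (c (l 16773488) (l 16773096))) (b (c (l 16773408) (l 16773032)) (a (a (b (c (b (c (l 16773256) (l 16770448)) (l 16773216)) (a (b (c (l 16772848) (l 16770032)) (l 16772848)) (b (l 16772784) (l 16770192)))) (l 16773208)) (b (b (l 16773064) (c (l 16770608) (c (l 16772944) (l 16770128)))) (a (l 16773144) (b (c (l 16773256) (c (l 16772968) (l 16770152))) (l 16773160))))) (a (b (l 16773168) (c (b (l 16773304) (c (l 16770792) (l 16770608))) (b (l 16772928) (a (l 16772936) (a (l 16770304) (l 16772936)))))) (l 16773248)))))) (a (c (l 16774704) (l 16771688)) (a (c (l 16774448) (l 16774056)) (a (c (l 16774320) (l 16773936)) (b (b (b (c (b (c (l 16770856) (l 16770664)) (l 16773448)) (b (a (b (l 16772968) (l 16773000)) (l 16773008)) (l 16773072))) (l 16773448)) (l 16773808)) (l 16774520)))))), by decide +kernel⟩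

def k95_B00pm_102_s1 : ∃ t, chk3 f_B00pm_102_s1 t 1017 2043 1 = true :=
  ⟨(b (a (c (a (l 16773952) (l 16774424)) (a (l 16773608) (l 16774096))) (a (c (l 16774880) (l 16774568)) (l 14))) (a (b (a (b (a (a (a (b (b (l 16773248) (c (l 16773424) (c (l 16773144) (l 16770336)))) (l 16773384)) (b (l 16773288) (c (l 16770912) (c (l 16773256) (l 16770448))))) (b (l 16773376) (b (c (l 16773520) (a (l 16770496) (l 16773168))) (a (l 16773360) (c (l 16773536) (c (l 16773256) (l 16770456))))))) (c (l 16773704) (l 16773344))) (b (a (l 16773560) (b (a (a (c (l 16773592) (l 16773224)) (b (l 16773408) (c (l 16773592) (l 16773232)))) (l 16773488)) (a (l 16773504) (c (c (l 16773752) (l 16770952)) (b (l 16770672) (a (l 16773288) (l 16773296))))))) (c (l 16773904) (l 16773536)))) (a (b (l 16773760) (b (l 16773648) (c (a (b (l 16771112) (l 16771144)) (l 16773816)) (a (b (c (l 16770840) (l 16770664)) (a (l 16773424) (c (l 16773488) (l 16773304)))) (l 16770848))))) (l 16773928))) (a (c (l 16774496) (l 16774128))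 (a (b (b (a (l 16773760) (b (a (l 16773640) (c (l 16773816) (c (l 16773552) (l 16773368)))) (l 16773736))) (l 16773952)) (l 16774304)) (a (b (b (b (l 16773696) (a (c (l 16773864) (l 16770888)) (l 14))) (l 16773832)) (l 14)) (l 14))))) (l 14))), by decide +kernel⟩

def k96_B00pm_102_s1 : ∃ t, chk3 f_B00pm_102_s1 t 509 510 1 = true :=
  ⟨(b (a (b (b (a (a (c (l 16779368) (l 16773992)) (c (l 16774528) (l 16774416))) (a (c (a (l 16774824) (l 16774464)) (a (l 16774728) (l 16774552))) (l 14))) (a (a (c (l 16778752) (l 16778592)) (a (l 16776368) (l 16776576))) (l 14))) (a (b (a (c (l 16778144) (l 16777960)) (c (l 16778552) (l 16778392))) (a (c (l 16777536) (l 16777336)) (l 14))) (l 14))) (l 14)) (l 14)), by decide +kernel⟩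

def k97_B00pm_102_s1 : ∃ t, chk3 f_B00pm_102_s1 t 254 511 1 = true :=
  ⟨(a (a (b (b (c (b (a (a (l 16777392) (l 16777008)) (a (l 16776632) (l 16776264))) (a (l 16773872) (b (l 16777864) (l 16778800)))) (b (a (a (l 16776968) (l 16776592)) (a (l 16776232) (l 16775888))) (a (b (l 16778224) (l 16779176)) (b (l 16777472) (l 16778408))))) (b (c (a (l 16775760) (l 16774936)) (a (l 16775344) (c (l 16774648) (l 16774456)))) (a (c (a (c (l 16772704) (l 16772488)) (l 16777400)) (a (l 16777408) (l 16776984))) (c (a (l 16776968) (l 16776552)) (a (l 16776576) (l 16776168)))))) (b (b (a (b (c (a (l 16773976) (l 16773520)) (a (l 16773544) (l 16773104))) (c (l 16778792) (a (l 16774000) (l 16773936)))) (a (b (b (l 16777896) (l 16778344)) (a (l 16778928) (l 14))) (l 14))) (a (c (l 16777720) (b (l 16778496) (l 16783024))) (l 14))) (a (c (b (b (l 16781904) (l 16781208)) (a (b (l 16780512) (l 16779832)) (l 14))) (b (b (l 16782320) (l 16781624)) (c (l 16777864) (l 16778080)))) (l 14)))) (a (b (b (a (b (c (l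 16775912) (l 16775544)) (c (l 16777768) (l 16777400))) (b (c (l 16775568) (l 16772592)) (l 14))) (l 14)) (l 14)) (l 14))) (l 14)), by decide +kernel⟩

def k98_B00pm_102_s1 : ∃ t, chk3 f_B00pm_102_s1 t 255 255 1 = true :=
  ⟨(l 14), by decide +kernel⟩

theorem t99_B00pm_102_s1 : ∃ t, chk3 f_B00pm_102_s1 t 1016 2043 1 = true := ex3_a k93_B00pm_102_s1 k94_B00pm_102_s1

theorem t100_B00pm_102_s1 : ∃ t, chk3 f_B00pm_102_s1 t 508 2043 1 = true := ex3_a t99_B00pm_102_s1 k95_B00pm_102_s1

theorem t101_B00pm_102_s1 : ∃ t, chk3 f_B00pm_102_s1 t 508 1021 1 = true := ex3_b k92_B00pm_102_s1 t100_B00pm_102_s1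

theorem t102_B00pm_102_s1 : ∃ t, chk3 f_B00pm_102_s1 t 508 510 1 = true := ex3_b k91_B00pm_102_s1 t101_B00pm_102_s1

theorem t103_B00pm_102_s1 : ∃ t, chk3 f_B00pm_102_s1 t 254 510 1 = true := ex3_a t102_B00pm_102_s1 k96_B00pm_102_s1

theorem t104_B00pm_102_s1 : ∃ t, chk3 f_B00pm_102_s1 t 254 255 1 = true := ex3_b t103_B00pm_102_s1 k97_B00pm_102_s1

theorem t105_B00pm_102_s1 : ∃ t, chk3 f_B00pm_102_s1 t 127 255 1 = true := ex3_a t104_B00pm_102_s1 k98_B00pm_102_s1

theorem t106_B00pm_102_s1 : ∃ t, chk3 f_B00pm_102_s1 t 2037 2038 1 = true := ex3_b k86_B00pm_102_s1 k87_B00pm_102_s1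

theorem t107_B00pm_102_s1 : ∃ t, chk3 f_B00pm_102_s1 t 1018 2038 1 = true := ex3_a k85_B00pm_102_s1 t106_B00pm_102_s1

theorem t108_B00pm_102_s1 : ∃ t, chk3 f_B00pm_102_s1 t 1018 1019 1 = true := ex3_b t107_B00pm_102_s1 k88_B00pm_102_s1

theorem t109_B00pm_102_s1 : ∃ t, chk3 f_B00pm_102_s1 t 1018 1018 1 = true := ex3_a k83_B00pm_102_s1 k84_B00pm_102_s1

theorem t110_B00pm_102_s1 : ∃ t, chk3 f_B00pm_102_s1 t 1018 509 1 = true := ex3_b t109_B00pm_102_s1 t108_B00pm_102_s1

theorem t111_B00pm_102_s1 : ∃ t, chk3 f_B00pm_102_s1 t 509 509 1 = true := ex3_a t110_B00pm_102_s1 k89_B00pm_102_s1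

theorem t112_B00pm_102_s1 : ∃ t, chk3 f_B00pm_102_s1 t 509 254 1 = true := ex3_b k82_B00pm_102_s1 t111_B00pm_102_s1

theorem t113_B00pm_102_s1 : ∃ t, chk3 f_B00pm_102_s1 t 1017 2036 1 = true := ex3_a k78_B00pm_102_s1 k79_B00pm_102_s1

theorem t114_B00pm_102_s1 : ∃ t, chk3 f_B00pm_102_s1 t 1017 1018 1 = true := ex3_b t113_B00pm_102_s1 k80_B00pm_102_s1

theorem t115_B00pm_102_s1 : ∃ t, chk3 f_B00pm_102_s1 t 508 1018 1 = true := ex3_a k77_B00pm_102_s1 t114_B00pm_102_s1

theorem t116_B00pm_102_s1 : ∃ t, chk3 f_B00pm_102_s1 t 508 509 1 = true := ex3_b t115_B00pm_102_s1 k81_B00pm_102_s1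

theorem t117_B00pm_102_s1 : ∃ t, chk3 f_B00pm_102_s1 t 1016 1017 1 = true := ex3_b k74_B00pm_102_s1 k75_B00pm_102_s1

theorem t118_B00pm_102_s1 : ∃ t, chk3 f_B00pm_102_s1 t 1016 508 1 = true := ex3_b k73_B00pm_102_s1 t117_B00pm_102_s1

theorem t119_B00pm_102_s1 : ∃ t, chk3 f_B00pm_102_s1 t 508 508 1 = true := ex3_a t118_B00pm_102_s1 k76_B00pm_102_s1

theorem t120_B00pm_102_s1 : ∃ t, chk3 f_B00pm_102_s1 t 508 254 1 = true := ex3_b t119_B00pm_102_s1 t116_B00pm_102_s1

theorem t121_B00pm_102_s1 : ∃ t, chk3 f_B00pm_102_s1 t 254 254 1 = true := ex3_a t120_B00pm_102_s1 t112_B00pm_102_s1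

theorem t122_B00pm_102_s1 : ∃ t, chk3 f_B00pm_102_s1 t 127 254 1 = true := ex3_a t121_B00pm_102_s1 k90_B00pm_102_s1

theorem t123_B00pm_102_s1 : ∃ t, chk3 f_B00pm_102_s1 t 127 127 1 = true := ex3_b t122_B00pm_102_s1 t105_B00pm_102_s1

theorem t124_B00pm_102_s1 : ∃ t, chk3 f_B00pm_102_s1 t 1015 4085 1 = true := ex3_b k69_B00pm_102_s1 k70_B00pm_102_s1

theorem t125_B00pm_102_s1 : ∃ t, chk3 f_B00pm_102_s1 t 1015 2042 1 = true := ex3_b k68_B00pm_102_s1 t124_B00pm_102_s1

theorem t126_B00pm_102_s1 : ∃ t, chk3 f_B00pm_102_s1 t 1015 1021 1 = true := ex3_b t125_B00pm_102_s1 k71_B00pm_102_s1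

theorem t127_B00pm_102_s1 : ∃ t, chk3 f_B00pm_102_s1 t 1015 510 1 = true := ex3_b k67_B00pm_102_s1 t126_B00pm_102_s1

theorem t128_B00pm_102_s1 : ∃ t, chk3 f_B00pm_102_s1 t 2029 1021 1 = true := ex3_b k65_B00pm_102_s1 k66_B00pm_102_s1

theorem t129_B00pm_102_s1 : ∃ t, chk3 f_B00pm_102_s1 t 1014 1021 1 = true := ex3_a k64_B00pm_102_s1 t128_B00pm_102_s1

theorem t130_B00pm_102_s1 : ∃ t, chk3 f_B00pm_102_s1 t 1014 1020 1 = true := ex3_a k62_B00pm_102_s1 k63_B00pm_102_s1

theorem t131_B00pm_102_s1 : ∃ t, chk3 f_B00pm_102_s1 t 1014 510 1 = true := ex3_b t130_B00pm_102_s1 t129_B00pm_102_s1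

theorem t132_B00pm_102_s1 : ∃ t, chk3 f_B00pm_102_s1 t 507 510 1 = true := ex3_a t131_B00pm_102_s1 t127_B00pm_102_s1

theorem t133_B00pm_102_s1 : ∃ t, chk3 f_B00pm_102_s1 t 1013 2041 1 = true := ex3_b k59_B00pm_102_s1 k60_B00pm_102_s1

theorem t134_B00pm_102_s1 : ∃ t, chk3 f_B00pm_102_s1 t 1013 1020 1 = true := ex3_b k58_B00pm_102_s1 t133_B00pm_102_s1

theorem t135_B00pm_102_s1 : ∃ t, chk3 f_B00pm_102_s1 t 506 1020 1 = true := ex3_a k57_B00pm_102_s1 t134_B00pm_102_s1

theorem t136_B00pm_102_s1 : ∃ t, chk3 f_B00pm_102_s1 t 506 510 1 = true := ex3_b t135_B00pm_102_s1 k61_B00pm_102_s1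

theorem t137_B00pm_102_s1 : ∃ t, chk3 f_B00pm_102_s1 t 253 510 1 = true := ex3_a t136_B00pm_102_s1 t132_B00pm_102_s1

theorem t138_B00pm_102_s1 : ∃ t, chk3 f_B00pm_102_s1 t 253 255 1 = true := ex3_b t137_B00pm_102_s1 k72_B00pm_102_s1

theorem t139_B00pm_102_s1 : ∃ t, chk3 f_B00pm_102_s1 t 507 509 1 = true := ex3_a k55_B00pm_102_s1 k56_B00pm_102_s1

theorem t140_B00pm_102_s1 : ∃ t, chk3 f_B00pm_102_s1 t 506 509 1 = true := ex3_b k53_B00pm_102_s1 k54_B00pm_102_s1

theorem t141_B00pm_102_s1 : ∃ t, chk3 f_B00pm_102_s1 t 253 509 1 = true := ex3_a t140_B00pm_102_s1 t139_B00pm_102_s1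

theorem t142_B00pm_102_s1 : ∃ t, chk3 f_B00pm_102_s1 t 507 1016 1 = true := ex3_a k50_B00pm_102_s1 k51_B00pm_102_s1

theorem t143_B00pm_102_s1 : ∃ t, chk3 f_B00pm_102_s1 t 507 508 1 = true := ex3_b t142_B00pm_102_s1 k52_B00pm_102_s1

theorem t144_B00pm_102_s1 : ∃ t, chk3 f_B00pm_102_s1 t 253 508 1 = true := ex3_a k49_B00pm_102_s1 t143_B00pm_102_s1

theorem t145_B00pm_102_s1 : ∃ t, chk3 f_B00pm_102_s1 t 253 254 1 = true := ex3_b t144_B00pm_102_s1 t141_B00pm_102_s1

theorem t146_B00pm_102_s1 : ∃ t, chk3 f_B00pm_102_s1 t 253 127 1 = true := ex3_b t145_B00pm_102_s1 t138_B00pm_102_s1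

theorem t147_B00pm_102_s1 : ∃ t, chk3 f_B00pm_102_s1 t 252 508 1 = true := ex3_a k45_B00pm_102_s1 k46_B00pm_102_s1

theorem t148_B00pm_102_s1 : ∃ t, chk3 f_B00pm_102_s1 t 252 254 1 = true := ex3_b t147_B00pm_102_s1 k47_B00pm_102_s1

theorem t149_B00pm_102_s1 : ∃ t, chk3 f_B00pm_102_s1 t 252 127 1 = true := ex3_b t148_B00pm_102_s1 k48_B00pm_102_s1

theorem t150_B00pm_102_s1 : ∃ t, chk3 f_B00pm_102_s1 t 126 127 1 = true := ex3_a t149_B00pm_102_s1 t146_B00pm_102_s1

theorem t151_B00pm_102_s1 : ∃ t, chk3 f_B00pm_102_s1 t 63 127 1 = true := ex3_a t150_B00pm_102_s1 t123_B00pm_102_s1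

theorem t152_B00pm_102_s1 : ∃ t, chk3 f_B00pm_102_s1 t 507 507 1 = true := ex3_a k42_B00pm_102_s1 k43_B00pm_102_s1

theorem t153_B00pm_102_s1 : ∃ t, chk3 f_B00pm_102_s1 t 506 507 1 = true := ex3_a k40_B00pm_102_s1 k41_B00pm_102_s1

theorem t154_B00pm_102_s1 : ∃ t, chk3 f_B00pm_102_s1 t 253 507 1 = true := ex3_a t153_B00pm_102_s1 t152_B00pm_102_s1

theorem t155_B00pm_102_s1 : ∃ t, chk3 f_B00pm_102_s1 t 253 253 1 = true := ex3_b k39_B00pm_102_s1 t154_B00pm_102_s1

theorem t156_B00pm_102_s1 : ∃ t, chk3 f_B00pm_102_s1 t 253 126 1 = true := ex3_b k38_B00pm_102_s1 t155_B00pm_102_s1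

theorem t157_B00pm_102_s1 : ∃ t, chk3 f_B00pm_102_s1 t 252 507 1 = true := ex3_b k36_B00pm_102_s1 k37_B00pm_102_s1

theorem t158_B00pm_102_s1 : ∃ t, chk3 f_B00pm_102_s1 t 505 506 1 = true := ex3_b k34_B00pm_102_s1 k35_B00pm_102_s1

theorem t159_B00pm_102_s1 : ∃ t, chk3 f_B00pm_102_s1 t 252 506 1 = true := ex3_a k33_B00pm_102_s1 t158_B00pm_102_s1

theorem t160_B00pm_102_s1 : ∃ t, chk3 f_B00pm_102_s1 t 252 253 1 = true := ex3_b t159_B00pm_102_s1 t157_B00pm_102_s1

theorem t161_B00pm_102_s1 : ∃ t, chk3 f_B00pm_102_s1 t 504 505 1 = true := ex3_a k30_B00pm_102_s1 k31_B00pm_102_s1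

theorem t162_B00pm_102_s1 : ∃ t, chk3 f_B00pm_102_s1 t 504 252 1 = true := ex3_b k29_B00pm_102_s1 t161_B00pm_102_s1

theorem t163_B00pm_102_s1 : ∃ t, chk3 f_B00pm_102_s1 t 252 252 1 = true := ex3_a t162_B00pm_102_s1 k32_B00pm_102_s1

theorem t164_B00pm_102_s1 : ∃ t, chk3 f_B00pm_102_s1 t 252 126 1 = true := ex3_b t163_B00pm_102_s1 t160_B00pm_102_s1

theorem t165_B00pm_102_s1 : ∃ t, chk3 f_B00pm_102_s1 t 126 126 1 = true := ex3_a t164_B00pm_102_s1 t156_B00pm_102_s1

theorem t166_B00pm_102_s1 : ∃ t, chk3 f_B00pm_102_s1 t 63 126 1 = true := ex3_a t165_B00pm_102_s1 k44_B00pm_102_s1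

theorem t167_B00pm_102_s1 : ∃ t, chk3 f_B00pm_102_s1 t 63 63 1 = true := ex3_b t166_B00pm_102_s1 t151_B00pm_102_s1

theorem t168_B00pm_102_s1 : ∃ t, chk3 f_B00pm_102_s1 t 503 504 1 = true := ex3_a k24_B00pm_102_s1 k25_B00pm_102_s1

theorem t169_B00pm_102_s1 : ∃ t, chk3 f_B00pm_102_s1 t 251 504 1 = true := ex3_a k23_B00pm_102_s1 t168_B00pm_102_s1

theorem t170_B00pm_102_s1 : ∃ t, chk3 f_B00pm_102_s1 t 251 252 1 = true := ex3_b t169_B00pm_102_s1 k26_B00pm_102_s1

theorem t171_B00pm_102_s1 : ∃ t, chk3 f_B00pm_102_s1 t 251 126 1 = true := ex3_b t170_B00pm_102_s1 k27_B00pm_102_s1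

theorem t172_B00pm_102_s1 : ∃ t, chk3 f_B00pm_102_s1 t 251 63 1 = true := ex3_b t171_B00pm_102_s1 k28_B00pm_102_s1

theorem t173_B00pm_102_s1 : ∃ t, chk3 f_B00pm_102_s1 t 125 63 1 = true := ex3_a k22_B00pm_102_s1 t172_B00pm_102_s1

theorem t174_B00pm_102_s1 : ∃ t, chk3 f_B00pm_102_s1 t 62 63 1 = true := ex3_a k21_B00pm_102_s1 t173_B00pm_102_s1

theorem t175_B00pm_102_s1 : ∃ t, chk3 f_B00pm_102_s1 t 31 63 1 = true := ex3_a t174_B00pm_102_s1 t167_B00pm_102_s1

theorem t176_B00pm_102_s1 : ∃ t, chk3 f_B00pm_102_s1 t 502 503 1 = true := ex3_b k17_B00pm_102_s1 k18_B00pm_102_s1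

theorem t177_B00pm_102_s1 : ∃ t, chk3 f_B00pm_102_s1 t 502 251 1 = true := ex3_b k16_B00pm_102_s1 t176_B00pm_102_s1

theorem t178_B00pm_102_s1 : ∃ t, chk3 f_B00pm_102_s1 t 251 251 1 = true := ex3_a t177_B00pm_102_s1 k19_B00pm_102_s1

theorem t179_B00pm_102_s1 : ∃ t, chk3 f_B00pm_102_s1 t 250 502 1 = true := ex3_a k13_B00pm_102_s1 k14_B00pm_102_s1

theorem t180_B00pm_102_s1 : ∃ t, chk3 f_B00pm_102_s1 t 250 251 1 = true := ex3_b t179_B00pm_102_s1 k15_B00pm_102_s1

theorem t181_B00pm_102_s1 : ∃ t, chk3 f_B00pm_102_s1 t 125 251 1 = true := ex3_a t180_B00pm_102_s1 t178_B00pm_102_s1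

theorem t182_B00pm_102_s1 : ∃ t, chk3 f_B00pm_102_s1 t 125 125 1 = true := ex3_b k12_B00pm_102_s1 t181_B00pm_102_s1

theorem t183_B00pm_102_s1 : ∃ t, chk3 f_B00pm_102_s1 t 125 62 1 = true := ex3_b k11_B00pm_102_s1 t182_B00pm_102_s1

theorem t184_B00pm_102_s1 : ∃ t, chk3 f_B00pm_102_s1 t 62 62 1 = true := ex3_a k10_B00pm_102_s1 t183_B00pm_102_s1

theorem t185_B00pm_102_s1 : ∃ t, chk3 f_B00pm_102_s1 t 31 62 1 = true := ex3_a t184_B00pm_102_s1 k20_B00pm_102_s1

theorem t186_B00pm_102_s1 : ∃ t, chk3 f_B00pm_102_s1 t 31 31 1 = true := ex3_b t185_B00pm_102_s1 t175_B00pm_102_s1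

theorem t187_B00pm_102_s1 : ∃ t, chk3 f_B00pm_102_s1 t 31 15 1 = true := ex3_b k9_B00pm_102_s1 t186_B00pm_102_s1

theorem t188_B00pm_102_s1 : ∃ t, chk3 f_B00pm_102_s1 t 30 30 1 = true := ex3_a k6_B00pm_102_s1 k7_B00pm_102_s1

theorem t189_B00pm_102_s1 : ∃ t, chk3 f_B00pm_102_s1 t 30 15 1 = true := ex3_b t188_B00pm_102_s1 k8_B00pm_102_s1

theorem t190_B00pm_102_s1 : ∃ t, chk3 f_B00pm_102_s1 t 15 15 1 = true := ex3_a t189_B00pm_102_s1 t187_B00pm_102_s1

theorem t191_B00pm_102_s1 : ∃ t, chk3 f_B00pm_102_s1 t 15 7 1 = true := ex3_b k5_B00pm_102_s1 t190_B00pm_102_s1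

theorem t192_B00pm_102_s1 : ∃ t, chk3 f_B00pm_102_s1 t 7 7 1 = true := ex3_a k4_B00pm_102_s1 t191_B00pm_102_s1

theorem t193_B00pm_102_s1 : ∃ t, chk3 f_B00pm_102_s1 t 7 3 1 = true := ex3_b k3_B00pm_102_s1 t192_B00pm_102_s1

theorem t194_B00pm_102_s1 : ∃ t, chk3 f_B00pm_102_s1 t 3 3 1 = true := ex3_a k2_B00pm_102_s1 t193_B00pm_102_s1

theorem t195_B00pm_102_s1 : ∃ t, chk3 f_B00pm_102_s1 t 3 1 1 = true := ex3_b k1_B00pm_102_s1 t194_B00pm_102_s1

theorem t196_B00pm_102_s1 : ∃ t, chk3 f_B00pm_102_s1 t 1 1 1 = true := ex3_a k0_B00pm_102_s1 t195_B00pm_102_s1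

theorem c_B00pm_102_s1 : CertF 536870912 536870912 0 536870912 1040187392 5207648 false true false .npp 1 0 2
    ndB0q1 ndB0q2 pcB0 cut_B00pm_102_s1 xt_B00pm_102_s1 :=
  certF0 (fam := false) (s1 := true) (s2 := false) (a := 1) (b := 0) (c := 2) (cn := .npp) (n1 := ndB0q1) (n2 := ndB0q2) (pc := pcB0) (cut := cut_B00pm_102_s1) (xt := xt_B00pm_102_s1) (P1 := 536870912) (W1 := 536870912) (P2 := 0) (W2 := 536870912) (P3 := 1040187392) (W3 := 5207648)
    rfl t196_B00pm_102_s1

theorem s_B00pm_102_s1 {κ x : ℝ} (hκ : κ * h0 = ken x) (hx : ((1040187392 : ℕ) : ℝ) / S ≤ x)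
    (hx' : x ≤ (((1040187392 : ℕ) : ℝ) + (5207648 : ℕ)) / S)
    (H : CutB (VFD κ) PP tK tL pcB (Cut.of [[⟨0, 1, 0, 8388608⟩, ⟨1, 0, 0, 8388608⟩, ⟨2, 1, 0, 8388608⟩], [⟨0, 0, 1, 46137344⟩, ⟨1, 1, 2, 46137344⟩, ⟨2, 1, 0, 1048576⟩, ⟨0, 0, 0, 1054867456⟩, ⟨0, 1, 0, 38117834⟩, ⟨1, 0, 0, 38117834⟩, ⟨1, 1, 0, 1054867456⟩]]) 1 0 2 0 0 (sgb true) (sgb false) x) :
    AltB (VFD κ) PP tK tL pcB [⟨3, 0, 0, 1100585369⟩] 1 0 2 0 0 (sgb true) (sgb false) x :=
  strip_altBD (m := 1100585369) true rfl hκ (SH.κ0 hκ (SH.hx1 hx).le (SH.hx2 hx').le) (SH.hx1 hx).le (SH.hx2 hx') (covB01).cov (covB02).cov hx hx' c_B00pm_102_s1 H ((okx hx hx').extB (T := tt) (sideB hx hx') hκ rfl rfl (.O 1 true) (.O 2 false) (Or.inl rfl))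

end Pool.Agent.Strip051.G.I9688_9736.Tab.St.C
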